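import Pool.Agent.Strip051.G.I3_8_7_16.Gn

/-! # Certificates of the corner (1, 1, 2) (generated) -/

set_option linter.all false

namespace Pool.Agent.Strip051.G.I3_8_7_16.Tab.DN

open Pool.Agent.Strip051.PB

def A113_000p :
    ∃ t, chk3 (onCell 0 16777216 0 1073741824 402653184 67108864 (fA12 0 false 3 c0N .nn true true true gN0q1 gN0q1 gN0q3 gN1q3 67108864 16777216)) t 1 1 1 = true :=
  ⟨(T.l 0), by decide +kernel⟩

def A113_000m :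
    ∃ t, chk3 (onCell 0 16777216 0 1073741824 402653184 67108864 (fA12 0 false 3 c0N .nn false true true gN0q1 gN0q1 gN0q3 gN1q3 67108864 16777216)) t 1 1 1 = true :=
  ⟨(T.l 0), by decide +kernel⟩

def A113_001p :
    ∃ t, chk3 (onCell 0 232471925 0 1073741824 402653184 67108864 (fA12 1 false 3 c0N .nn true true false gN0q1 gN0q1 gN1q3 gN2q3 67108864 16777216)) t 1 1 1 = true :=
  ⟨(T.b (T.l 0) (T.l 1)), by decide +kernel⟩

def A113_001m :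
    ∃ t, chk3 (onCell 0 232471925 0 1073741824 402653184 67108864 (fA12 1 false 3 c0N .nn false true false gN0q1 gN0q1 gN1q3 gN2q3 67108864 16777216)) t 1 1 1 = true :=
  ⟨(T.b (T.l 1) (T.l 0)), by decide +kernel⟩

def A123_012p :
    ∃ t, chk3 (onCell 0 232471925 0 805306368 402653184 67108864 (fA12 4 false 3 c0N .npn true false false gN0q1 gN1q2 gN2q3 gN3q3 67108864 16777216)) t 1 1 1 = true :=
  ⟨(T.b (T.b (T.a (T.b (T.b (T.l 1) (T.l 0)) (T.l 0)) (T.b (T.a (T.l 0) (T.b (T.l 1) (T.a (T.l 272) (T.l 0)))) (T.a (T.b (T.l 272) (T.a (T.l 272) (T.l 0))) (T.b (T.a (T.l 0) (T.l 0)) (T.l 0))))) (T.b (T.b (T.a (T.l 0) (T.a (T.l 0) (T.l 0))) (T.l 2)) (T.l 2))) (T.a (T.l 2) (T.b (T.l 2) (T.a (T.l 2) (T.l 3))))), by decide +kernel⟩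

def A123_013p :
    ∃ t, chk3 (onCell 0 232471925 0 805306368 402653184 67108864 (fA12 4 false 3 c0N .npn true false false gN0q1 gN1q2 gN3q3 gN4q3 67108864 16777216)) t 1 1 1 = true :=
  ⟨(T.b (T.b (T.a (T.l 1) (T.l 1)) (T.b (T.b (T.b (T.a (T.l 1) (T.a (T.l 0) (T.l 0))) (T.a (T.a (T.l 272) (T.l 0)) (T.a (T.l 0) (T.l 0)))) (T.b (T.a (T.a (T.l 272) (T.l 0)) (T.a (T.l 0) (T.l 0))) (T.a (T.a (T.l 272) (T.a (T.l 272) (T.l 0))) (T.a (T.l 0) (T.l 0))))) (T.b (T.a (T.a (T.l 272) (T.a (T.l 272) (T.l 0))) (T.a (T.l 0) (T.l 0))) (T.a (T.a (T.l 272) (T.a (T.l 0) (T.l 0))) (T.a (T.l 0) (T.l 0)))))) (T.a (T.b (T.b (T.a (T.l 272) (T.a (T.l 0) (T.l 0))) (T.l 2)) (T.l 2)) (T.b (T.b (T.a (T.a (T.l 0) (T.l 0)) (T.l 3)) (T.l 2)) (T.a (T.l 2) (T.l 3))))), by decide +kernel⟩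

def B113_010p :
    ∃ t, chk3 (onCell 0 16777216 0 1073741824 402653184 67108864 (fB12 0 false 3 c0N .nn true true true false gN0q1 gN1q3 gN0q1 gN1q1 67108864 16777216)) t 1 1 1 = true :=
  ⟨(T.b (T.b (T.l 0) (T.b (T.l 68) (T.l 1))) (T.l 1)), by decide +kernel⟩

def X113_011p :
    ∃ t, chk3 (onCell 0 16777216 0 1073741824 402653184 67108864 (xB12 0 .nn true true gN0q1 gN1q3 gN1q1 67108864 16777216)) t 1 1 1 = true :=
  ⟨(T.l 0), by decide +kernel⟩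

def B123_010p :
    ∃ t, chk3 (onCell 0 67108864 0 1073741824 402653184 67108864 (fB12 0 false 3 c0N .npn true true true true gN0q1 gN1q3 gN0q2 gN1q2 67108864 16777216)) t 1 1 1 = true :=
  ⟨(T.l 2), by decide +kernel⟩

def B123_011p :
    ∃ t, chk3 (onCell 0 67108864 0 1073741824 402653184 67108864 (fB12 0 false 3 c0N .npn true true true false gN0q1 gN1q3 gN1q2 gN2q2 67108864 16777216)) t 1 1 1 = true :=
  ⟨(T.a (T.a (T.l 0) (T.b (T.l 0) (T.b (T.l 0) (T.l 0)))) (T.b (T.a (T.l 0) (T.l 3)) (T.b (T.l 0) (T.l 0)))), by decide +kernel⟩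

def X123_012p :
    ∃ t, chk3 (onCell 0 67108864 0 1073741824 402653184 67108864 (xB12 0 .npn true true gN0q1 gN1q3 gN2q2 67108864 16777216)) t 1 1 1 = true :=
  ⟨(T.l 0), by decide +kernel⟩

def B113_010m :
    ∃ t, chk3 (onCell 0 16777216 0 1073741824 402653184 67108864 (fB12 0 false 3 c0N .nn false true true false gN0q1 gN1q3 gN0q1 gN1q1 67108864 16777216)) t 1 1 1 = true :=
  ⟨(T.b (T.l 272) (T.b (T.l 0) (T.b (T.l 0) (T.l 1)))), by decide +kernel⟩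

def X113_011m :
    ∃ t, chk3 (onCell 0 16777216 0 1073741824 402653184 67108864 (xB12 0 .nn false true gN0q1 gN1q3 gN1q1 67108864 16777216)) t 1 1 1 = true :=
  ⟨(T.l 0), by decide +kernel⟩

def B123_010m :
    ∃ t, chk3 (onCell 0 67108864 0 1073741824 402653184 67108864 (fB12 0 false 3 c0N .npn false true true true gN0q1 gN1q3 gN0q2 gN1q2 67108864 16777216)) t 1 1 1 = true :=
  ⟨(T.l 2), by decide +kernel⟩

def B123_011m :
    ∃ t, chk3 (onCell 0 67108864 0 1073741824 402653184 67108864 (fB12 0 false 3 c0N .npn false true true false gN0q1 gN1q3 gN1q2 gN2q2 67108864 16777216)) t 1 1 1 = true :=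
  ⟨(T.a (T.a (T.l 0) (T.a (T.l 0) (T.b (T.l 272) (T.l 0)))) (T.a (T.b (T.l 0) (T.l 0)) (T.b (T.l 3) (T.l 0)))), by decide +kernel⟩

def X123_012m :
    ∃ t, chk3 (onCell 0 67108864 0 1073741824 402653184 67108864 (xB12 0 .npn false true gN0q1 gN1q3 gN2q2 67108864 16777216)) t 1 1 1 = true :=
  ⟨(T.l 0), by decide +kernel⟩

def B213_010m :
    ∃ t, chk3 (onCell 0 67108864 0 1073741824 402653184 67108864 (fB12 0 false 3 c0N .pnn false true true false gN0q2 gN1q3 gN0q1 gN1q1 67108864 16777216)) t 1 1 1 = true :=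
  ⟨(T.l 1), by decide +kernel⟩

def X213_011m :
    ∃ t, chk3 (onCell 0 67108864 0 1073741824 402653184 67108864 (xB12 0 .pnn false true gN0q2 gN1q3 gN1q1 67108864 16777216)) t 1 1 1 = true :=
  ⟨(T.l 0), by decide +kernel⟩

def B213_110m :
    ∃ t, chk3 (onCell 0 67108864 0 1073741824 402653184 67108864 (fB12 0 false 3 c0N .pnn false true true false gN1q2 gN1q3 gN0q1 gN1q1 67108864 16777216)) t 1 1 1 = true :=
  ⟨(T.l 1), by decide +kernel⟩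

def X213_111m :
    ∃ t, chk3 (onCell 0 67108864 0 1073741824 402653184 67108864 (xB12 0 .pnn false true gN1q2 gN1q3 gN1q1 67108864 16777216)) t 1 1 1 = true :=
  ⟨(T.l 0), by decide +kernel⟩

def B113_020p :
    ∃ t, chk3 (onCell 0 232471925 0 1073741824 402653184 67108864 (fB12 2 false 3 c0N .nn true false true false gN0q1 gN2q3 gN0q1 gN1q1 67108864 16777216)) t 1 1 1 = true :=
  ⟨(T.l 1), by decide +kernel⟩

def X113_021p :
    ∃ t, chk3 (onCell 0 232471925 0 1073741824 402653184 67108864 (xB12 2 .nn true false gN0q1 gN2q3 gN1q1 67108864 16777216)) t 1 1 1 = true :=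
  ⟨(T.l 0), by decide +kernel⟩

def B123_020p :
    ∃ t, chk3 (onCell 0 299580789 0 1073741824 402653184 67108864 (fB12u false 3 c0N .npn true false true true gN0q1 gN2q3 gN0q2 gN1q2 67108864 16777216)) t 1 1 1 = true :=
  ⟨(T.b (T.b (T.l 0) (T.l 2)) (T.a (T.l 2) (T.b (T.b (T.a (T.l 3) (T.l 3)) (T.l 3)) (T.l 3)))), by decide +kernel⟩

def B123_021p :
    ∃ t, chk3 (onCell 0 299580789 0 1073741824 402653184 67108864 (fB12 3 false 3 c0N .npn true false true false gN0q1 gN2q3 gN1q2 gN2q2 67108864 16777216)) t 1 1 1 = true :=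
  ⟨(T.b (T.a (T.b (T.b (T.b (T.b (T.l 1) (T.b (T.l 1) (T.b (T.l 1) (T.l 0)))) (T.l 0)) (T.a (T.l 0) (T.b (T.l 0) (T.l 0)))) (T.a (T.a (T.l 0) (T.b (T.l 0) (T.l 0))) (T.b (T.a (T.l 0) (T.l 0)) (T.a (T.l 0) (T.l 0))))) (T.b (T.b (T.b (T.b (T.l 1) (T.b (T.l 1) (T.a (T.l 272) (T.l 0)))) (T.a (T.a (T.l 272) (T.l 0)) (T.a (T.l 0) (T.l 0)))) (T.a (T.b (T.l 0) (T.l 0)) (T.a (T.l 0) (T.l 0)))) (T.b (T.a (T.l 0) (T.l 0)) (T.a (T.l 0) (T.l 3))))) (T.a (T.a (T.a (T.a (T.l 0) (T.b (T.l 0) (T.l 0))) (T.b (T.b (T.l 0) (T.l 0)) (T.l 0))) (T.b (T.b (T.l 0) (T.l 0)) (T.b (T.l 0) (T.l 0)))) (T.b (T.a (T.b (T.l 3) (T.l 3)) (T.l 3)) (T.l 3)))), by decide +kernel⟩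

def X123_022p :
    ∃ t, chk3 (onCell 0 299580789 0 1073741824 402653184 67108864 (xB12 3 .npn true false gN0q1 gN2q3 gN2q2 67108864 16777216)) t 1 1 1 = true :=
  ⟨(T.b (T.a (T.l 0) (T.b (T.l 0) (T.a (T.l 0) (T.b (T.l 0) (T.l 3))))) (T.a (T.a (T.l 0) (T.b (T.l 0) (T.a (T.l 0) (T.l 3)))) (T.b (T.a (T.b (T.l 3) (T.l 3)) (T.l 3)) (T.l 3)))), by decide +kernel⟩

def B113_020m :
    ∃ t, chk3 (onCell 0 232471925 0 1073741824 402653184 67108864 (fB12 2 false 3 c0N .nn false false true false gN0q1 gN2q3 gN0q1 gN1q1 67108864 16777216)) t 1 1 1 = true :=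
  ⟨(T.a (T.l 0) (T.l 0)), by decide +kernel⟩

def X113_021m :
    ∃ t, chk3 (onCell 0 232471925 0 1073741824 402653184 67108864 (xB12 2 .nn false false gN0q1 gN2q3 gN1q1 67108864 16777216)) t 1 1 1 = true :=
  ⟨(T.l 0), by decide +kernel⟩

def B123_020m :
    ∃ t, chk3 (onCell 0 299580789 0 1073741824 402653184 67108864 (fB12 3 false 3 c0N .npn false false true true gN0q1 gN2q3 gN0q2 gN1q2 67108864 16777216)) t 1 1 1 = true :=
  ⟨(T.b (T.b (T.l 2) (T.l 2)) (T.a (T.l 2) (T.b (T.b (T.a (T.l 3) (T.l 3)) (T.l 3)) (T.l 3)))), by decide +kernel⟩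

def B123_021m :
    ∃ t, chk3 (onCell 0 299580789 0 1073741824 402653184 67108864 (fB12 3 false 3 c0N .npn false false true false gN0q1 gN2q3 gN1q2 gN2q2 67108864 16777216)) t 1 1 1 = true :=
  ⟨(T.a (T.a (T.b (T.b (T.l 0) (T.a (T.l 0) (T.b (T.l 0) (T.l 0)))) (T.a (T.a (T.l 0) (T.b (T.l 0) (T.l 0))) (T.b (T.b (T.l 0) (T.l 0)) (T.l 0)))) (T.b (T.b (T.b (T.l 0) (T.a (T.l 0) (T.l 0))) (T.b (T.a (T.l 0) (T.l 0)) (T.l 0))) (T.a (T.b (T.l 0) (T.l 0)) (T.b (T.l 0) (T.l 3))))) (T.b (T.b (T.a (T.b (T.b (T.l 0) (T.l 0)) (T.a (T.l 0) (T.l 0))) (T.b (T.b (T.l 0) (T.l 0)) (T.l 0))) (T.a (T.b (T.l 0) (T.l 0)) (T.b (T.l 0) (T.l 3)))) (T.b (T.a (T.b (T.l 3) (T.l 3)) (T.l 3)) (T.l 3)))), by decide +kernel⟩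

def B123_022m :
    ∃ t, chk3 (onCell 0 299580789 0 1073741824 402653184 67108864 (fB12 3 false 3 c0N .npn false false false false gN0q1 gN2q3 gN2q2 gN3q2 67108864 16777216)) t 1 1 1 = true :=
  ⟨(T.a (T.a (T.l 1) (T.b (T.l 1) (T.a (T.b (T.l 1) (T.l 1)) (T.b (T.l 0) (T.l 3))))) (T.b (T.b (T.b (T.l 1) (T.a (T.l 1) (T.l 0))) (T.a (T.b (T.l 1) (T.l 0)) (T.b (T.l 0) (T.l 3)))) (T.a (T.b (T.l 0) (T.l 3)) (T.l 3)))), by decide +kernel⟩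

def X123_023m :
    ∃ t, chk3 (onCell 0 299580789 0 1073741824 402653184 67108864 (xB12 3 .npn false false gN0q1 gN2q3 gN3q2 67108864 16777216)) t 1 1 1 = true :=
  ⟨(T.b (T.l 0) (T.a (T.l 0) (T.l 0))), by decide +kernel⟩

def X213_021m :
    ∃ t, chk3 (onCell 0 299580789 0 1073741824 402653184 67108864 (xB12 3 .pnn false false gN0q2 gN2q3 gN1q1 67108864 16777216)) t 1 1 1 = true :=
  ⟨(T.b (T.a (T.l 0) (T.b (T.l 0) (T.l 0))) (T.a (T.b (T.l 0) (T.l 0)) (T.b (T.a (T.b (T.l 3) (T.l 3)) (T.l 3)) (T.l 3)))), by decide +kernel⟩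

def B213_120m :
    ∃ t, chk3 (onCell 0 299580789 0 1073741824 402653184 67108864 (fB12 3 false 3 c0N .pnn false false true false gN1q2 gN2q3 gN0q1 gN1q1 67108864 16777216)) t 1 1 1 = true :=
  ⟨(T.b (T.b (T.b (T.b (T.a (T.l 0) (T.a (T.l 0) (T.a (T.l 0) (T.l 3)))) (T.b (T.a (T.b (T.l 0) (T.l 1)) (T.l 1)) (T.l 1))) (T.l 1)) (T.l 1)) (T.a (T.l 1) (T.b (T.b (T.a (T.l 3) (T.l 3)) (T.l 3)) (T.l 3)))), by decide +kernel⟩

def X213_121m :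
    ∃ t, chk3 (onCell 0 299580789 0 1073741824 402653184 67108864 (xB12 3 .pnn false false gN1q2 gN2q3 gN1q1 67108864 16777216)) t 1 1 1 = true :=
  ⟨(T.b (T.l 0) (T.a (T.l 0) (T.b (T.a (T.l 0) (T.l 3)) (T.l 3)))), by decide +kernel⟩

def B113_030p :
    ∃ t, chk3 (onCell 0 232471925 0 1073741824 402653184 67108864 (fB12 2 false 3 c0N .nn true false true false gN0q1 gN3q3 gN0q1 gN1q1 67108864 16777216)) t 1 1 1 = true :=
  ⟨(T.l 1), by decide +kernel⟩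

def X113_031p :
    ∃ t, chk3 (onCell 0 232471925 0 1073741824 402653184 67108864 (xB12 2 .nn true false gN0q1 gN3q3 gN1q1 67108864 16777216)) t 1 1 1 = true :=
  ⟨(T.l 0), by decide +kernel⟩

def B123_030p :
    ∃ t, chk3 (onCell 0 299580789 0 1073741824 402653184 67108864 (fB12u false 3 c0N .npn true false true true gN0q1 gN3q3 gN0q2 gN1q2 67108864 16777216)) t 1 1 1 = true :=
  ⟨(T.b (T.b (T.l 0) (T.a (T.l 2) (T.l 2))) (T.a (T.l 2) (T.b (T.a (T.b (T.l 3) (T.l 3)) (T.l 3)) (T.l 3)))), by decide +kernel⟩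

def B123_031p :
    ∃ t, chk3 (onCell 0 299580789 0 1073741824 402653184 67108864 (fB12 3 false 3 c0N .npn true false true false gN0q1 gN3q3 gN1q2 gN2q2 67108864 16777216)) t 1 1 1 = true :=
  ⟨(T.b (T.a (T.b (T.b (T.l 1) (T.b (T.b (T.l 1) (T.l 0)) (T.a (T.l 0) (T.a (T.l 272) (T.l 0))))) (T.a (T.b (T.l 0) (T.a (T.l 0) (T.l 0))) (T.b (T.a (T.b (T.l 0) (T.l 0)) (T.l 0)) (T.a (T.l 0) (T.l 0))))) (T.b (T.b (T.l 1) (T.b (T.b (T.l 1) (T.a (T.a (T.l 0) (T.l 0)) (T.l 0))) (T.a (T.a (T.l 0) (T.l 0)) (T.l 0)))) (T.b (T.a (T.a (T.l 0) (T.l 0)) (T.a (T.l 0) (T.l 3))) (T.a (T.l 0) (T.l 3))))) (T.a (T.a (T.a (T.a (T.l 0) (T.b (T.l 0) (T.l 0))) (T.b (T.b (T.l 0) (T.l 0)) (T.l 0))) (T.b (T.b (T.l 0) (T.l 0)) (T.b (T.l 0) (T.l 0)))) (T.b (T.a (T.b (T.l 3) (T.l 3)) (T.l 3)) (T.l 3)))), by decide +kernel⟩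

def X123_032p :
    ∃ t, chk3 (onCell 0 299580789 0 1073741824 402653184 67108864 (xB12 3 .npn true false gN0q1 gN3q3 gN2q2 67108864 16777216)) t 1 1 1 = true :=
  ⟨(T.b (T.a (T.l 0) (T.b (T.l 0) (T.l 0))) (T.a (T.a (T.l 0) (T.b (T.l 0) (T.a (T.l 0) (T.l 3)))) (T.b (T.b (T.a (T.l 3) (T.l 3)) (T.l 3)) (T.l 3)))), by decide +kernel⟩

def B113_030m :
    ∃ t, chk3 (onCell 0 232471925 0 1073741824 402653184 67108864 (fB12 2 false 3 c0N .nn false false true false gN0q1 gN3q3 gN0q1 gN1q1 67108864 16777216)) t 1 1 1 = true :=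
  ⟨(T.l 0), by decide +kernel⟩

def X113_031m :
    ∃ t, chk3 (onCell 0 232471925 0 1073741824 402653184 67108864 (xB12 2 .nn false false gN0q1 gN3q3 gN1q1 67108864 16777216)) t 1 1 1 = true :=
  ⟨(T.l 0), by decide +kernel⟩

def B123_030m :
    ∃ t, chk3 (onCell 0 299580789 0 1073741824 402653184 67108864 (fB12 3 false 3 c0N .npn false false true true gN0q1 gN3q3 gN0q2 gN1q2 67108864 16777216)) t 1 1 1 = true :=
  ⟨(T.b (T.a (T.l 2) (T.l 2)) (T.a (T.l 2) (T.b (T.b (T.a (T.l 3) (T.l 3)) (T.l 3)) (T.l 3)))), by decide +kernel⟩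

def B123_031m :
    ∃ t, chk3 (onCell 0 299580789 0 1073741824 402653184 67108864 (fB12 3 false 3 c0N .npn false false true false gN0q1 gN3q3 gN1q2 gN2q2 67108864 16777216)) t 1 1 1 = true :=
  ⟨(T.a (T.a (T.a (T.b (T.l 0) (T.a (T.l 0) (T.b (T.l 0) (T.l 0)))) (T.b (T.b (T.l 0) (T.b (T.l 0) (T.l 0))) (T.b (T.b (T.l 0) (T.l 0)) (T.l 0)))) (T.b (T.b (T.a (T.l 0) (T.b (T.l 0) (T.l 0))) (T.b (T.l 0) (T.l 0))) (T.a (T.b (T.l 0) (T.l 0)) (T.b (T.l 0) (T.l 3))))) (T.b (T.a (T.b (T.b (T.a (T.l 0) (T.l 0)) (T.l 0)) (T.b (T.l 0) (T.l 0))) (T.b (T.b (T.b (T.l 0) (T.l 0)) (T.l 0)) (T.l 2))) (T.b (T.a (T.b (T.l 3) (T.l 3)) (T.l 3)) (T.l 3)))), by decide +kernel⟩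

def B123_032m :
    ∃ t, chk3 (onCell 0 299580789 0 1073741824 402653184 67108864 (fB12 3 false 3 c0N .npn false false false false gN0q1 gN3q3 gN2q2 gN3q2 67108864 16777216)) t 1 1 1 = true :=
  ⟨(T.a (T.a (T.l 1) (T.b (T.b (T.l 1) (T.l 1)) (T.a (T.b (T.l 1) (T.l 1)) (T.b (T.l 0) (T.l 3))))) (T.b (T.a (T.b (T.b (T.a (T.l 1) (T.l 0)) (T.l 0)) (T.b (T.l 0) (T.l 0))) (T.b (T.b (T.a (T.l 0) (T.l 0)) (T.l 0)) (T.b (T.l 0) (T.l 3)))) (T.a (T.b (T.l 0) (T.l 3)) (T.l 3)))), by decide +kernel⟩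

def X123_033m :
    ∃ t, chk3 (onCell 0 299580789 0 1073741824 402653184 67108864 (xB12 3 .npn false false gN0q1 gN3q3 gN3q2 67108864 16777216)) t 1 1 1 = true :=
  ⟨(T.b (T.l 0) (T.a (T.l 0) (T.l 0))), by decide +kernel⟩

def X213_031m :
    ∃ t, chk3 (onCell 0 299580789 0 1073741824 402653184 67108864 (xB12 3 .pnn false false gN0q2 gN3q3 gN1q1 67108864 16777216)) t 1 1 1 = true :=
  ⟨(T.b (T.a (T.l 0) (T.b (T.l 0) (T.l 0))) (T.a (T.b (T.l 0) (T.l 0)) (T.b (T.a (T.b (T.l 3) (T.l 3)) (T.l 3)) (T.l 3)))), by decide +kernel⟩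

def B213_130m :
    ∃ t, chk3 (onCell 0 299580789 0 1073741824 402653184 67108864 (fB12 3 false 3 c0N .pnn false false true false gN1q2 gN3q3 gN0q1 gN1q1 67108864 16777216)) t 1 1 1 = true :=
  ⟨(T.b (T.b (T.b (T.a (T.l 0) (T.b (T.a (T.l 0) (T.l 0)) (T.a (T.l 0) (T.l 0)))) (T.b (T.a (T.l 0) (T.a (T.a (T.l 0) (T.l 0)) (T.a (T.l 0) (T.l 0)))) (T.a (T.l 1) (T.l 1)))) (T.a (T.l 1) (T.l 1))) (T.a (T.l 1) (T.b (T.a (T.b (T.l 3) (T.l 3)) (T.l 3)) (T.l 3)))), by decide +kernel⟩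

def X213_131m :
    ∃ t, chk3 (onCell 0 299580789 0 1073741824 402653184 67108864 (xB12 3 .pnn false false gN1q2 gN3q3 gN1q1 67108864 16777216)) t 1 1 1 = true :=
  ⟨(T.b (T.l 0) (T.a (T.l 0) (T.b (T.a (T.l 0) (T.l 3)) (T.l 3)))), by decide +kernel⟩

def B113_040p :
    ∃ t, chk3 (onCell 0 232471925 0 1073741824 402653184 67108864 (fB12 2 false 3 c0N .nn true false true false gN0q1 gN4q3 gN0q1 gN1q1 67108864 16777216)) t 1 1 1 = true :=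
  ⟨(T.l 1), by decide +kernel⟩

def X113_041p :
    ∃ t, chk3 (onCell 0 232471925 0 1073741824 402653184 67108864 (xB12 2 .nn true false gN0q1 gN4q3 gN1q1 67108864 16777216)) t 1 1 1 = true :=
  ⟨(T.l 0), by decide +kernel⟩

def B123_040p :
    ∃ t, chk3 (onCell 0 299580789 0 1073741824 402653184 67108864 (fB12u false 3 c0N .npn true false true true gN0q1 gN4q3 gN0q2 gN1q2 67108864 16777216)) t 1 1 1 = true :=
  ⟨(T.b (T.b (T.l 0) (T.b (T.l 0) (T.l 2))) (T.a (T.l 2) (T.b (T.a (T.b (T.l 3) (T.l 3)) (T.l 3)) (T.l 3)))), by decide +kernel⟩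

def B123_041p :
    ∃ t, chk3 (onCell 0 299580789 0 1073741824 402653184 67108864 (fB12 3 false 3 c0N .npn true false true false gN0q1 gN4q3 gN1q2 gN2q2 67108864 16777216)) t 1 1 1 = true :=
  ⟨(T.b (T.b (T.a (T.l 1) (T.l 1)) (T.a (T.b (T.b (T.b (T.l 1) (T.a (T.l 272) (T.a (T.l 0) (T.l 0)))) (T.a (T.l 0) (T.a (T.l 0) (T.l 0)))) (T.a (T.a (T.l 0) (T.b (T.l 0) (T.l 0))) (T.a (T.l 0) (T.l 0)))) (T.b (T.b (T.b (T.l 1) (T.a (T.l 0) (T.l 3))) (T.a (T.a (T.l 0) (T.l 0)) (T.l 3))) (T.a (T.a (T.l 0) (T.l 3)) (T.l 3))))) (T.a (T.a (T.a (T.a (T.l 0) (T.b (T.l 0) (T.l 0))) (T.b (T.b (T.l 0) (T.l 0)) (T.b (T.l 0) (T.l 0)))) (T.b (T.b (T.a (T.l 0) (T.l 0)) (T.l 0)) (T.b (T.l 0) (T.l 0)))) (T.b (T.a (T.b (T.l 3) (T.l 3)) (T.l 3)) (T.l 3)))), by decide +kernel⟩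

def X123_042p :
    ∃ t, chk3 (onCell 0 299580789 0 1073741824 402653184 67108864 (xB12 3 .npn true false gN0q1 gN4q3 gN2q2 67108864 16777216)) t 1 1 1 = true :=
  ⟨(T.b (T.b (T.l 0) (T.l 0)) (T.a (T.a (T.l 0) (T.b (T.l 0) (T.a (T.l 0) (T.l 3)))) (T.b (T.b (T.l 0) (T.l 3)) (T.l 3)))), by decide +kernel⟩

def B113_040m :
    ∃ t, chk3 (onCell 0 232471925 0 1073741824 402653184 67108864 (fB12 2 false 3 c0N .nn false false true false gN0q1 gN4q3 gN0q1 gN1q1 67108864 16777216)) t 1 1 1 = true :=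
  ⟨(T.a (T.a (T.l 272) (T.l 0)) (T.l 0)), by decide +kernel⟩

def X113_041m :
    ∃ t, chk3 (onCell 0 232471925 0 1073741824 402653184 67108864 (xB12 2 .nn false false gN0q1 gN4q3 gN1q1 67108864 16777216)) t 1 1 1 = true :=
  ⟨(T.l 0), by decide +kernel⟩

def B123_040m :
    ∃ t, chk3 (onCell 0 299580789 0 1073741824 402653184 67108864 (fB12 3 false 3 c0N .npn false false true true gN0q1 gN4q3 gN0q2 gN1q2 67108864 16777216)) t 1 1 1 = true :=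
  ⟨(T.b (T.l 2) (T.a (T.l 2) (T.b (T.b (T.a (T.l 3) (T.l 3)) (T.l 3)) (T.l 3)))), by decide +kernel⟩

def B123_041m :
    ∃ t, chk3 (onCell 0 299580789 0 1073741824 402653184 67108864 (fB12 3 false 3 c0N .npn false false true false gN0q1 gN4q3 gN1q2 gN2q2 67108864 16777216)) t 1 1 1 = true :=
  ⟨(T.a (T.a (T.a (T.a (T.l 0) (T.b (T.l 0) (T.b (T.l 0) (T.l 0)))) (T.b (T.a (T.l 0) (T.b (T.l 0) (T.l 0))) (T.b (T.b (T.l 0) (T.l 0)) (T.l 0)))) (T.b (T.a (T.b (T.l 0) (T.l 0)) (T.b (T.b (T.l 0) (T.l 0)) (T.l 0))) (T.a (T.b (T.l 0) (T.l 0)) (T.b (T.l 0) (T.l 3))))) (T.b (T.a (T.b (T.b (T.a (T.l 0) (T.l 2)) (T.l 2)) (T.l 2)) (T.l 2)) (T.b (T.l 2) (T.l 3)))), by decide +kernel⟩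

def B123_042m :
    ∃ t, chk3 (onCell 0 299580789 0 1073741824 402653184 67108864 (fB12 3 false 3 c0N .npn false false false false gN0q1 gN4q3 gN2q2 gN3q2 67108864 16777216)) t 1 1 1 = true :=
  ⟨(T.a (T.a (T.l 1) (T.b (T.a (T.l 1) (T.b (T.b (T.l 0) (T.l 0)) (T.l 0))) (T.a (T.b (T.l 1) (T.l 1)) (T.b (T.l 0) (T.l 3))))) (T.b (T.a (T.a (T.b (T.b (T.l 0) (T.l 0)) (T.l 0)) (T.b (T.b (T.l 0) (T.l 0)) (T.l 0))) (T.b (T.b (T.l 0) (T.l 0)) (T.b (T.l 0) (T.l 3)))) (T.a (T.b (T.b (T.l 3) (T.l 3)) (T.l 3)) (T.l 3)))), by decide +kernel⟩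

def X123_043m :
    ∃ t, chk3 (onCell 0 299580789 0 1073741824 402653184 67108864 (xB12 3 .npn false false gN0q1 gN4q3 gN3q2 67108864 16777216)) t 1 1 1 = true :=
  ⟨(T.a (T.l 0) (T.b (T.l 0) (T.l 0))), by decide +kernel⟩

def X213_041m :
    ∃ t, chk3 (onCell 0 299580789 0 1073741824 402653184 67108864 (xB12 3 .pnn false false gN0q2 gN4q3 gN1q1 67108864 16777216)) t 1 1 1 = true :=
  ⟨(T.b (T.a (T.l 0) (T.b (T.l 0) (T.l 0))) (T.a (T.b (T.l 0) (T.l 0)) (T.b (T.a (T.b (T.l 3) (T.l 3)) (T.l 3)) (T.l 3)))), by decide +kernel⟩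

def B213_140m :
    ∃ t, chk3 (onCell 0 299580789 0 1073741824 402653184 67108864 (fB12 3 false 3 c0N .pnn false false true false gN1q2 gN4q3 gN0q1 gN1q1 67108864 16777216)) t 1 1 1 = true :=
  ⟨(T.b (T.b (T.a (T.a (T.l 0) (T.a (T.l 0) (T.b (T.l 0) (T.b (T.l 0) (T.l 0))))) (T.b (T.a (T.a (T.l 0) (T.l 0)) (T.b (T.l 0) (T.l 0))) (T.a (T.a (T.l 0) (T.l 0)) (T.a (T.l 0) (T.l 0))))) (T.b (T.b (T.b (T.a (T.a (T.l 0) (T.a (T.l 68) (T.l 0))) (T.a (T.l 0) (T.l 0))) (T.b (T.a (T.a (T.l 68) (T.l 0)) (T.a (T.l 0) (T.l 3))) (T.a (T.a (T.l 68) (T.l 0)) (T.a (T.l 0) (T.l 3))))) (T.a (T.l 1) (T.l 1))) (T.l 1))) (T.a (T.l 1) (T.b (T.a (T.b (T.l 3) (T.l 3)) (T.l 3)) (T.l 3)))), by decide +kernel⟩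

def X213_141m :
    ∃ t, chk3 (onCell 0 299580789 0 1073741824 402653184 67108864 (xB12 3 .pnn false false gN1q2 gN4q3 gN1q1 67108864 16777216)) t 1 1 1 = true :=
  ⟨(T.b (T.l 0) (T.a (T.l 0) (T.b (T.a (T.l 0) (T.l 3)) (T.l 3)))), by decide +kernel⟩

end Pool.Agent.Strip051.G.I3_8_7_16.Tab.DN
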