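import Pool.Agent.Strip051.G.I3_8_7_16.DgY
import Pool.Agent.Strip051.G.I3_8_7_16.Crn12F
import Pool.Agent.Strip051.G.I3_8_7_16.Crn12N

/-! # The corner (1, 1, 2): the closed alternatives (generated) -/

set_option linter.all false

namespace Pool.Agent.Strip051.G.I3_8_7_16.Tab

open Pool.Agent.Strip051.PB Pool.Agent.StripNear Pool.Agent.Strip051.LC

theorem alt12cF_A123_01 {κ x : ℝ} (hκ : κ * h0 = ken x) (hx : ((402653184 : ℕ) : ℝ) / S ≤ x) (hx' : x ≤ (((402653184 : ℕ) : ℝ) + (67108864 : ℕ)) / S) :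
    AltA (VF κ) PP tKF tL pcF [⟨0, 1, 0, 67108864⟩, ⟨1, 1, 0, 67108864⟩, ⟨2, 2, 0, 16777216⟩] 1 2 3 0 1 (sgb true) (sgb false) x :=
  alt12F_A123_01 hκ hx hx' (DG.dgF_A123_01 hκ hx hx')

theorem alt12cF_B123_02p {κ x : ℝ} (hκ : κ * h0 = ken x) (hx : ((402653184 : ℕ) : ℝ) / S ≤ x) (hx' : x ≤ (((402653184 : ℕ) : ℝ) + (67108864 : ℕ)) / S) :
    AltB (VF κ) PP tKF tL pcF [⟨0, 1, 0, 67108864⟩, ⟨1, 1, 0, 67108864⟩, ⟨2, 2, 0, 16777216⟩] 1 2 3 0 2 (sgb true) (sgb true) x :=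
  alt12F_B123_02p hκ hx hx' (DG.dgF_B123_02p hκ hx hx')

theorem alt12cF_B123_03p {κ x : ℝ} (hκ : κ * h0 = ken x) (hx : ((402653184 : ℕ) : ℝ) / S ≤ x) (hx' : x ≤ (((402653184 : ℕ) : ℝ) + (67108864 : ℕ)) / S) :
    AltB (VF κ) PP tKF tL pcF [⟨0, 1, 0, 67108864⟩, ⟨1, 1, 0, 67108864⟩, ⟨2, 2, 0, 16777216⟩] 1 2 3 0 3 (sgb true) (sgb true) x :=
  alt12F_B123_03p hκ hx hx' (DG.dgF_B123_03p hκ hx hx')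

theorem alt12cF_B123_04p {κ x : ℝ} (hκ : κ * h0 = ken x) (hx : ((402653184 : ℕ) : ℝ) / S ≤ x) (hx' : x ≤ (((402653184 : ℕ) : ℝ) + (67108864 : ℕ)) / S) :
    AltB (VF κ) PP tKF tL pcF [⟨0, 1, 0, 67108864⟩, ⟨1, 1, 0, 67108864⟩, ⟨2, 2, 0, 16777216⟩] 1 2 3 0 4 (sgb true) (sgb true) x :=
  alt12F_B123_04p hκ hx hx' (DG.dgF_B123_04p hκ hx hx')

theorem alt12cF_B213_02m {κ x : ℝ} (hκ : κ * h0 = ken x) (hx : ((402653184 : ℕ) : ℝ) / S ≤ x) (hx' : x ≤ (((402653184 : ℕ) : ℝ) + (67108864 : ℕ)) / S) :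
    AltB (VF κ) PP tKF tL pcF [⟨0, 1, 0, 67108864⟩, ⟨1, 1, 0, 67108864⟩, ⟨2, 2, 0, 16777216⟩] 2 1 3 0 2 (sgb true) (sgb false) x :=
  alt12F_B213_02m hκ hx hx' (DG.dgF_B213_02m hκ hx hx')

theorem alt12cF_B213_03m {κ x : ℝ} (hκ : κ * h0 = ken x) (hx : ((402653184 : ℕ) : ℝ) / S ≤ x) (hx' : x ≤ (((402653184 : ℕ) : ℝ) + (67108864 : ℕ)) / S) :
    AltB (VF κ) PP tKF tL pcF [⟨0, 1, 0, 67108864⟩, ⟨1, 1, 0, 67108864⟩, ⟨2, 2, 0, 16777216⟩] 2 1 3 0 3 (sgb true) (sgb false) x :=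
  alt12F_B213_03m hκ hx hx' (DG.dgF_B213_03m hκ hx hx')

theorem alt12cF_B213_04m {κ x : ℝ} (hκ : κ * h0 = ken x) (hx : ((402653184 : ℕ) : ℝ) / S ≤ x) (hx' : x ≤ (((402653184 : ℕ) : ℝ) + (67108864 : ℕ)) / S) :
    AltB (VF κ) PP tKF tL pcF [⟨0, 1, 0, 67108864⟩, ⟨1, 1, 0, 67108864⟩, ⟨2, 2, 0, 16777216⟩] 2 1 3 0 4 (sgb true) (sgb false) x :=
  alt12F_B213_04m hκ hx hx' (DG.dgF_B213_04m hκ hx hx')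

theorem alt12cN_A123_01 {κ x : ℝ} (hκ : κ * h0 = ken x) (hx : ((402653184 : ℕ) : ℝ) / S ≤ x) (hx' : x ≤ (((402653184 : ℕ) : ℝ) + (67108864 : ℕ)) / S) :
    AltA (VN 3 κ) PP tKN tL pcN [⟨0, 1, 0, 67108864⟩, ⟨1, 1, 0, 67108864⟩, ⟨2, 2, 0, 16777216⟩] 1 2 3 0 1 (sgb true) (sgb false) x :=
  alt12N_A123_01 hκ hx hx' (DG.dgN_A123_01 hκ hx hx')

theorem alt12cN_B123_02p {κ x : ℝ} (hκ : κ * h0 = ken x) (hx : ((402653184 : ℕ) : ℝ) / S ≤ x) (hx' : x ≤ (((402653184 : ℕ) : ℝ) + (67108864 : ℕ)) / S) :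
    AltB (VN 3 κ) PP tKN tL pcN [⟨0, 1, 0, 67108864⟩, ⟨1, 1, 0, 67108864⟩, ⟨2, 2, 0, 16777216⟩] 1 2 3 0 2 (sgb true) (sgb true) x :=
  alt12N_B123_02p hκ hx hx' (DG.dgN_B123_02p hκ hx hx')

theorem alt12cN_B123_03p {κ x : ℝ} (hκ : κ * h0 = ken x) (hx : ((402653184 : ℕ) : ℝ) / S ≤ x) (hx' : x ≤ (((402653184 : ℕ) : ℝ) + (67108864 : ℕ)) / S) :
    AltB (VN 3 κ) PP tKN tL pcN [⟨0, 1, 0, 67108864⟩, ⟨1, 1, 0, 67108864⟩, ⟨2, 2, 0, 16777216⟩] 1 2 3 0 3 (sgb true) (sgb true) x :=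
  alt12N_B123_03p hκ hx hx' (DG.dgN_B123_03p hκ hx hx')

theorem alt12cN_B123_04p {κ x : ℝ} (hκ : κ * h0 = ken x) (hx : ((402653184 : ℕ) : ℝ) / S ≤ x) (hx' : x ≤ (((402653184 : ℕ) : ℝ) + (67108864 : ℕ)) / S) :
    AltB (VN 3 κ) PP tKN tL pcN [⟨0, 1, 0, 67108864⟩, ⟨1, 1, 0, 67108864⟩, ⟨2, 2, 0, 16777216⟩] 1 2 3 0 4 (sgb true) (sgb true) x :=
  alt12N_B123_04p hκ hx hx' (DG.dgN_B123_04p hκ hx hx')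

theorem alt12cN_B213_02m {κ x : ℝ} (hκ : κ * h0 = ken x) (hx : ((402653184 : ℕ) : ℝ) / S ≤ x) (hx' : x ≤ (((402653184 : ℕ) : ℝ) + (67108864 : ℕ)) / S) :
    AltB (VN 3 κ) PP tKN tL pcN [⟨0, 1, 0, 67108864⟩, ⟨1, 1, 0, 67108864⟩, ⟨2, 2, 0, 16777216⟩] 2 1 3 0 2 (sgb true) (sgb false) x :=
  alt12N_B213_02m hκ hx hx' (DG.dgN_B213_02m hκ hx hx')

theorem alt12cN_B213_03m {κ x : ℝ} (hκ : κ * h0 = ken x) (hx : ((402653184 : ℕ) : ℝ) / S ≤ x) (hx' : x ≤ (((402653184 : ℕ) : ℝ) + (67108864 : ℕ)) / S) :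
    AltB (VN 3 κ) PP tKN tL pcN [⟨0, 1, 0, 67108864⟩, ⟨1, 1, 0, 67108864⟩, ⟨2, 2, 0, 16777216⟩] 2 1 3 0 3 (sgb true) (sgb false) x :=
  alt12N_B213_03m hκ hx hx' (DG.dgN_B213_03m hκ hx hx')

theorem alt12cN_B213_04m {κ x : ℝ} (hκ : κ * h0 = ken x) (hx : ((402653184 : ℕ) : ℝ) / S ≤ x) (hx' : x ≤ (((402653184 : ℕ) : ℝ) + (67108864 : ℕ)) / S) :
    AltB (VN 3 κ) PP tKN tL pcN [⟨0, 1, 0, 67108864⟩, ⟨1, 1, 0, 67108864⟩, ⟨2, 2, 0, 16777216⟩] 2 1 3 0 4 (sgb true) (sgb false) x :=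
  alt12N_B213_04m hκ hx hx' (DG.dgN_B213_04m hκ hx hx')

end Pool.Agent.Strip051.G.I3_8_7_16.Tab
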