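import Pool.Agent.Strip051.PB.Cuts

/-! # Tables I3_8_7_16 (generated) -/

namespace Pool.Agent.Strip051.G.I3_8_7_16.Tab

open Pool.Agent.Strip051.PB

noncomputable def c1g : Fn1 := ⟨_, _, fun h1 => (enc_sqrtg (enc_sub (enc_pnc _ 1) (enc_scale 3 4 (enc_sq h1))))⟩
noncomputable def kcg_3 : Fn2 := ⟨_, _, fun h1 h2 => (enc_subr 13 32 h2)⟩
noncomputable def kcg_6 : Fn2 := ⟨_, _, fun h1 h2 => (enc_add h1 (enc_rat _ 61 277))⟩
noncomputable def kcg_9 : Fn2 := ⟨_, _, fun h1 h2 => (enc_add h1 (enc_rat _ 39 100))⟩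
noncomputable def kcg_12 : Fn2 := ⟨_, _, fun h1 h2 => (enc_add h1 (enc_rat _ 9 20))⟩
noncomputable def kcg_13 : Fn2 := ⟨_, _, fun h1 h2 => (enc_scale 89939 50000 h1)⟩
noncomputable def kcg_16 : Fn2 := ⟨_, _, fun h1 h2 => (enc_scale 1361 2500 h1)⟩
noncomputable def kcg_28 : Fn2 := ⟨_, _, fun h1 h2 => (enc_subr 3297 1000000 (enc_neg (enc_scale 23077 100000 (kcg_3.enc h1 h2))))⟩
noncomputable def kcg_36 : Fn2 := ⟨_, _, fun h1 h2 => (enc_scale 1349 750 h1)⟩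
noncomputable def kcg_39 : Fn2 := ⟨_, _, fun h1 h2 => (enc_scale 59 100 h1)⟩
noncomputable def kcg_50 : Fn2 := ⟨_, _, fun h1 h2 => (enc_sub (enc_rat _ 953 200000) (enc_scale 56673 100000 (kcg_3.enc h1 h2)))⟩
noncomputable def kcg_58 : Fn2 := ⟨_, _, fun h1 h2 => (enc_add h1 (enc_rat _ 33 100))⟩
noncomputable def kcg_59 : Fn2 := ⟨_, _, fun h1 h2 => (enc_scale 85247 60000 h1)⟩
noncomputable def kcg_62 : Fn2 := ⟨_, _, fun h1 h2 => (enc_scale 859 750 h1)⟩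
noncomputable def kcg_73 : Fn2 := ⟨_, _, fun h1 h2 => (enc_sub (enc_rat _ 6293213 1000000) (enc_scale 868977 100000 (kcg_3.enc h1 h2)))⟩
noncomputable def kcg_80 : Fn2 := ⟨_, _, fun h1 h2 => (enc_add h1 (enc_rat _ 27 100))⟩
noncomputable def kcg_81 : Fn2 := ⟨_, _, fun h1 h2 => (enc_scale 39113 60000 h1)⟩
noncomputable def kcg_84 : Fn2 := ⟨_, _, fun h1 h2 => (enc_scale 15877 6000 h1)⟩
noncomputable def kcg_95 : Fn2 := ⟨_, _, fun h1 h2 => (enc_sub (enc_rat _ 6521769 1000000) (enc_scale 816031 50000 (kcg_3.enc h1 h2)))⟩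
noncomputable def kcg_100 : Fn2 := ⟨_, _, fun h1 h2 => (enc_scale 574221 6895000 h1)⟩
noncomputable def kcg_104 : Fn2 := ⟨_, _, fun h1 h2 => (enc_scale 5100401 1379000 h1)⟩
noncomputable def kcg_114 : Fn2 := ⟨_, _, fun h1 h2 => (enc_sub (enc_rat _ 6907111 1000000) (enc_scale 18463 12500 (kcg_3.enc h1 h2)))⟩
noncomputable def kcg_124 : Fn2 := ⟨_, _, fun h1 h2 => (enc_add h1 (enc_rat _ 59 566))⟩
noncomputable def kcg_127 : Fn2 := ⟨_, _, fun h1 h2 => (enc_add h1 (enc_rat _ 4 25))⟩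
noncomputable def kcg_128 : Fn2 := ⟨_, _, fun h1 h2 => (enc_scale 8203909 16680000 h1)⟩
noncomputable def kcg_133 : Fn2 := ⟨_, _, fun h1 h2 => (enc_scale 6525289 1668000 h1)⟩
noncomputable def kcg_143 : Fn2 := ⟨_, _, fun h1 h2 => (enc_sub (enc_rat _ 537241 500000) (enc_scale 371 160 (kcg_3.enc h1 h2)))⟩
noncomputable def kcg_148 : Fn2 := ⟨_, _, fun h1 h2 => (enc_scale 2876129 7890000 h1)⟩
noncomputable def kcg_153 : Fn2 := ⟨_, _, fun h1 h2 => (enc_scale 6420421 1578000 h1)⟩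
noncomputable def kcg_164 : Fn2 := ⟨_, _, fun h1 h2 => (enc_subr 1721897 500000 (enc_neg (enc_scale 30667 100000 (kcg_3.enc h1 h2))))⟩
noncomputable def kcg_172 : Fn2 := ⟨_, _, fun h1 h2 => (enc_add h1 (enc_rat _ 7 100))⟩
noncomputable def kcg_173 : Fn2 := ⟨_, _, fun h1 h2 => (enc_scale 3966811 9690000 h1)⟩
noncomputable def kcg_178 : Fn2 := ⟨_, _, fun h1 h2 => (enc_scale 235173 80750 h1)⟩
noncomputable def kcg_186 : Fn2 := ⟨_, _, fun h1 h2 => (enc_add (enc_scale 856713 25000 (kcg_3.enc h1 h2)) (enc_rat _ 1383613 200000))⟩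
noncomputable def kcg_194 : Fn2 := ⟨_, _, fun h1 h2 => (enc_scale 14139 35000 h1)⟩
noncomputable def kcg_199 : Fn2 := ⟨_, _, fun h1 h2 => (enc_scale 5417 3500 h1)⟩
noncomputable def kcg_208 : Fn2 := ⟨_, _, fun h1 h2 => (enc_subr 34611 5000 (enc_scale 273081 50000 (kcg_3.enc h1 h2)))⟩
noncomputable def kcg_213 : Fn2 := ⟨_, _, fun h1 h2 => (enc_scale 5659 35000 h1)⟩
noncomputable def kcg_217 : Fn2 := ⟨_, _, fun h1 h2 => (enc_mul (enc_norm (kcg_3.enc h1 h2)) (enc_scale 4749 3500 h1))⟩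
noncomputable def kcg_224 : Fn2 := ⟨_, _, fun h1 h2 => (enc_sub (enc_rat _ 61 277) h1)⟩
noncomputable def kcg_225 : Fn2 := ⟨_, _, fun h1 h2 => (enc_sub (enc_rat _ 39 100) h1)⟩
noncomputable def kcg_226 : Fn2 := ⟨_, _, fun h1 h2 => (enc_sub (enc_rat _ 9 20) h1)⟩
noncomputable def kcg_249 : Fn2 := ⟨_, _, fun h1 h2 => (enc_sub (enc_rat _ 33 100) h1)⟩
noncomputable def kcg_260 : Fn2 := ⟨_, _, fun h1 h2 => (enc_sub (enc_rat _ 27 100) h1)⟩
noncomputable def kcg_283 : Fn2 := ⟨_, _, fun h1 h2 => (enc_sub (enc_rat _ 59 566) h1)⟩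
noncomputable def kcg_284 : Fn2 := ⟨_, _, fun h1 h2 => (enc_sub (enc_rat _ 4 25) h1)⟩
noncomputable def kcg_304 : Fn2 := ⟨_, _, fun h1 h2 => (enc_sub (enc_rat _ 7 100) h1)⟩
noncomputable def kcg : Fn2 := ⟨_, _, fun h1 h2 => (enc_norm (enc_case h1 (enc_case (kcg_6.enc h1 h2) (enc_case (kcg_9.enc h1 h2) (enc_case (kcg_12.enc h1 h2) (enc_add (enc_add (enc_add (kcg_13.enc h1 h2) (enc_rat _ 26603 40000)) (enc_mul (enc_norm (kcg_3.enc h1 h2)) (enc_norm (enc_subr 43293 50000 (kcg_16.enc h1 h2))))) (enc_mul (enc_norm (kcg_28.enc h1 h2)) (enc_norm (enc_mul (enc_norm (enc_add h1 (enc_rat _ 1 2))) (enc_norm (enc_sub (enc_neg (enc_rat _ 9 20)) h1)))))) (enc_add (enc_add (enc_add (kcg_36.enc h1 h2) (enc_rat _ 10391 15625)) (enc_mul (enc_norm (kcg_3.enc h1 h2)) (enc_norm (enc_subr 42267 50000 (kcg_39.enc h1 h2))))) (enc_mul (enc_norm (kcg_50.enc h1 h2)) (enc_norm (enc_mul (enc_norm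 (kcg_12.enc h1 h2)) (enc_norm (enc_sub (enc_neg (enc_rat _ 39 100)) h1))))))) (enc_case (kcg_58.enc h1 h2) (enc_add (enc_add (enc_add (kcg_59.enc h1 h2) (enc_rat _ 1035299 2000000)) (enc_mul (enc_norm (kcg_3.enc h1 h2)) (enc_norm (enc_subr 15719 25000 (kcg_62.enc h1 h2))))) (enc_mul (enc_norm (kcg_73.enc h1 h2)) (enc_norm (enc_mul (enc_norm (kcg_9.enc h1 h2)) (enc_norm (enc_sub (enc_neg (enc_rat _ 33 100)) h1)))))) (enc_case (kcg_80.enc h1 h2) (enc_add (enc_add (enc_add (kcg_81.enc h1 h2) (enc_rat _ 21113 80000)) (enc_mul (enc_norm (kcg_3.enc h1 h2)) (enc_norm (enc_subr 26697 200000 (kcg_84.enc h1 h2))))) (enc_mul (enc_norm (kcg_95.enc h1 h2)) (enc_norm (enc_mul (enc_norm (kcg_58.enc h1 h2)) (enc_norm (enc_sub (enc_neg (enc_rat _ 27 100)) h1)))))) (enc_add (enc_add (enc_sub (enc_rat _ 45105841 689500000) (kcg_100.enc h1 h2)) (enc_mul (enc_norm (kcg_3.enc h1 h2)) (enc_norm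 (enc_add (kcg_104.enc h1 h2) (enc_rat _ 10389261 68950000))))) (enc_mul (enc_norm (kcg_114.enc h1 h2)) (enc_norm (enc_mul (enc_norm (kcg_80.enc h1 h2)) (enc_norm (enc_sub (enc_neg (enc_rat _ 61 277)) h1))))))))) (enc_case (kcg_124.enc h1 h2) (enc_case (kcg_127.enc h1 h2) (enc_add (enc_add (enc_subr 10238839 417000000 (enc_neg (kcg_128.enc h1 h2))) (enc_mul (enc_norm (kcg_3.enc h1 h2)) (enc_norm (enc_add (kcg_133.enc h1 h2) (enc_rat _ 8243131 41700000))))) (enc_mul (enc_norm (kcg_143.enc h1 h2)) (enc_norm (enc_mul (enc_norm (kcg_6.enc h1 h2)) (enc_norm (enc_sub (enc_neg (enc_rat _ 4 25)) h1)))))) (enc_add (enc_add (enc_subr 660163 157800000 (enc_neg (kcg_148.enc h1 h2))) (enc_mul (enc_norm (kcg_3.enc h1 h2)) (enc_norm (enc_add (kcg_153.enc h1 h2) (enc_rat _ 17574443 78900000))))) (enc_mul (enc_norm (kcg_164.enc h1 h2)) (enc_norm (enc_mul (enc_norm (kcg_127.enc h1 h2))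 (enc_norm (enc_sub (enc_neg (enc_rat _ 59 566)) h1))))))) (enc_case (kcg_172.enc h1 h2) (enc_add (enc_add (enc_subr 1716683 193800000 (enc_neg (kcg_173.enc h1 h2))) (enc_mul (enc_norm (kcg_3.enc h1 h2)) (enc_norm (enc_add (kcg_178.enc h1 h2) (enc_rat _ 1650613 16150000))))) (enc_mul (enc_norm (kcg_186.enc h1 h2)) (enc_norm (enc_mul (enc_norm (kcg_124.enc h1 h2)) (enc_norm (enc_sub (enc_neg (enc_rat _ 7 100)) h1)))))) (enc_case (enc_add h1 (enc_rat _ 7 200)) (enc_add (enc_add (enc_subr 53 6250 (enc_neg (kcg_194.enc h1 h2))) (enc_mul (enc_norm (kcg_3.enc h1 h2)) (enc_norm (enc_add (kcg_199.enc h1 h2) (enc_rat _ 167 25000))))) (enc_mul (enc_norm (kcg_208.enc h1 h2)) (enc_norm (enc_mul (enc_norm (kcg_172.enc h1 h2)) (enc_norm (enc_sub (enc_neg (enc_rat _ 7 200)) h1)))))) (enc_sub (kcg_217.enc h1 h2) (kcg_213.enc h1 h2)))))) (enc_neg (enc_case (kcg_224.enc h1 h2) (enc_case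 (kcg_225.enc h1 h2) (enc_case (kcg_226.enc h1 h2) (enc_add (enc_add (enc_sub (enc_rat _ 26603 40000) (kcg_13.enc h1 h2)) (enc_mul (enc_norm (kcg_3.enc h1 h2)) (enc_norm (enc_subr 43293 50000 (enc_neg (kcg_16.enc h1 h2)))))) (enc_mul (enc_norm (kcg_28.enc h1 h2)) (enc_norm (enc_mul (enc_norm (enc_sub (enc_rat _ 1 2) h1)) (enc_norm (enc_subr 9 20 h1)))))) (enc_add (enc_add (enc_sub (enc_rat _ 10391 15625) (kcg_36.enc h1 h2)) (enc_mul (enc_norm (kcg_3.enc h1 h2)) (enc_norm (enc_subr 42267 50000 (enc_neg (kcg_39.enc h1 h2)))))) (enc_mul (enc_norm (kcg_50.enc h1 h2)) (enc_norm (enc_mul (enc_norm (kcg_226.enc h1 h2)) (enc_norm (enc_subr 39 100 h1))))))) (enc_case (kcg_249.enc h1 h2) (enc_add (enc_add (enc_sub (enc_rat _ 1035299 2000000) (kcg_59.enc h1 h2)) (enc_mul (enc_norm (kcg_3.enc h1 h2)) (enc_norm (enc_subr 15719 25000 (enc_neg (kcg_62.enc h1 h2)))))) (enc_mul (enc_norm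 (kcg_73.enc h1 h2)) (enc_norm (enc_mul (enc_norm (kcg_225.enc h1 h2)) (enc_norm (enc_subr 33 100 h1)))))) (enc_case (kcg_260.enc h1 h2) (enc_add (enc_add (enc_sub (enc_rat _ 21113 80000) (kcg_81.enc h1 h2)) (enc_mul (enc_norm (kcg_3.enc h1 h2)) (enc_norm (enc_subr 26697 200000 (enc_neg (kcg_84.enc h1 h2)))))) (enc_mul (enc_norm (kcg_95.enc h1 h2)) (enc_norm (enc_mul (enc_norm (kcg_249.enc h1 h2)) (enc_norm (enc_subr 27 100 h1)))))) (enc_add (enc_add (enc_add (kcg_100.enc h1 h2) (enc_rat _ 45105841 689500000)) (enc_mul (enc_norm (kcg_3.enc h1 h2)) (enc_norm (enc_sub (enc_rat _ 10389261 68950000) (kcg_104.enc h1 h2))))) (enc_mul (enc_norm (kcg_114.enc h1 h2)) (enc_norm (enc_mul (enc_norm (kcg_260.enc h1 h2)) (enc_norm (enc_subr 61 277 h1))))))))) (enc_case (kcg_283.enc h1 h2) (enc_case (kcg_284.enc h1 h2) (enc_add (enc_add (enc_subr 10238839 417000000 (kcg_128.enc h1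 h2)) (enc_mul (enc_norm (kcg_3.enc h1 h2)) (enc_norm (enc_sub (enc_rat _ 8243131 41700000) (kcg_133.enc h1 h2))))) (enc_mul (enc_norm (kcg_143.enc h1 h2)) (enc_norm (enc_mul (enc_norm (kcg_224.enc h1 h2)) (enc_norm (enc_subr 4 25 h1)))))) (enc_add (enc_add (enc_subr 660163 157800000 (kcg_148.enc h1 h2)) (enc_mul (enc_norm (kcg_3.enc h1 h2)) (enc_norm (enc_sub (enc_rat _ 17574443 78900000) (kcg_153.enc h1 h2))))) (enc_mul (enc_norm (kcg_164.enc h1 h2)) (enc_norm (enc_mul (enc_norm (kcg_284.enc h1 h2)) (enc_norm (enc_subr 59 566 h1))))))) (enc_case (kcg_304.enc h1 h2) (enc_add (enc_add (enc_subr 1716683 193800000 (kcg_173.enc h1 h2)) (enc_mul (enc_norm (kcg_3.enc h1 h2)) (enc_norm (enc_sub (enc_rat _ 1650613 16150000) (kcg_178.enc h1 h2))))) (enc_mul (enc_norm (kcg_186.enc h1 h2)) (enc_norm (enc_mul (enc_norm (kcg_283.enc h1 h2)) (enc_norm (enc_subr 7 100 h1)))))) (enc_case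 (enc_sub (enc_rat _ 7 200) h1) (enc_add (enc_add (enc_subr 53 6250 (kcg_194.enc h1 h2)) (enc_mul (enc_norm (kcg_3.enc h1 h2)) (enc_norm (enc_sub (enc_rat _ 167 25000) (kcg_199.enc h1 h2))))) (enc_mul (enc_norm (kcg_208.enc h1 h2)) (enc_norm (enc_mul (enc_norm (kcg_304.enc h1 h2)) (enc_norm (enc_subr 7 200 h1)))))) (enc_sub (kcg_213.enc h1 h2) (kcg_217.enc h1 h2)))))))))⟩
noncomputable def kf0q0_9 : Fn2 := ⟨_, _, fun h1 h2 => (enc_scale 3 2 h1)⟩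
noncomputable def kf0q0_12 : Fn2 := ⟨_, _, fun h1 h2 => (enc_add (enc_pnc _ 1) (c1g.enc h1))⟩
noncomputable def kf0q0 : Fn2 := ⟨_, _, fun h1 h2 => (enc_norm (enc_add (enc_mul (enc_norm (enc_mul (enc_norm (enc_sub (c1g.enc h1) (kf0q0_9.enc h1 h2))) (enc_norm (kf0q0_12.enc h1 h2)))) (enc_inv (enc_sub (kf0q0_12.enc h1 h2) (kf0q0_9.enc h1 h2)))) (enc_mul h1 (kcg.enc (enc_norm (enc_sub (enc_scale 3 4 h1) (enc_half (c1g.enc h1)))) h2))))⟩
noncomputable def txg_4 : Fn3 := ⟨_, _, fun h1 h2 h3 => (enc_subr 13 32 h3)⟩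
noncomputable def txg_6 : Fn3 := ⟨_, _, fun h1 h2 h3 => (enc_add h1 (enc_half h2))⟩
noncomputable def txg_27 : Fn3 := ⟨_, _, fun h1 h2 h3 => (enc_add h1 (enc_rat _ 39 100))⟩
noncomputable def txg_30 : Fn3 := ⟨_, _, fun h1 h2 h3 => (enc_add h1 (enc_rat _ 9 20))⟩
noncomputable def txg_71 : Fn3 := ⟨_, _, fun h1 h2 h3 => (enc_add h1 (enc_rat _ 33 100))⟩
noncomputable def txg_92 : Fn3 := ⟨_, _, fun h1 h2 h3 => (enc_add h1 (enc_rat _ 27 100))⟩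
noncomputable def txg_125 : Fn3 := ⟨_, _, fun h1 h2 h3 => (enc_sq (enc_norm (txg_4.enc h1 h2 h3)))⟩
noncomputable def txg_143 : Fn3 := ⟨_, _, fun h1 h2 h3 => (enc_add h1 (enc_rat _ 59 566))⟩
noncomputable def txg_145 : Fn3 := ⟨_, _, fun h1 h2 h3 => (enc_subr 4 25 h1)⟩
noncomputable def txg_147 : Fn3 := ⟨_, _, fun h1 h2 h3 => (enc_subr 7 200 h1)⟩
noncomputable def txg_150 : Fn3 := ⟨_, _, fun h1 h2 h3 => (enc_add h1 (enc_rat _ 7 100))⟩
noncomputable def txg_176 : Fn3 := ⟨_, _, fun h1 h2 h3 => (enc_add h1 (enc_rat _ 7 200))⟩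
noncomputable def txg_216 : Fn3 := ⟨_, _, fun h1 h2 h3 => (enc_subr 7 100 h1)⟩
noncomputable def txg_237 : Fn3 := ⟨_, _, fun h1 h2 h3 => (enc_subr 1303 12500 h1)⟩
noncomputable def txg_278 : Fn3 := ⟨_, _, fun h1 h2 h3 => (enc_subr 33 100 h1)⟩
noncomputable def txg_280 : Fn3 := ⟨_, _, fun h1 h2 h3 => (enc_subr 11011 50000 h1)⟩
noncomputable def txg_299 : Fn3 := ⟨_, _, fun h1 h2 h3 => (enc_subr 27 100 h1)⟩
noncomputable def txg_343 : Fn3 := ⟨_, _, fun h1 h2 h3 => (enc_subr 39 100 h1)⟩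
noncomputable def txg_364 : Fn3 := ⟨_, _, fun h1 h2 h3 => (enc_subr 9 20 h1)⟩
noncomputable def txg : Fn3 := ⟨_, _, fun h1 h2 h3 => (enc_case (enc_add h1 (enc_rat _ 61 277)) (enc_case (txg_27.enc h1 h2 h3) (enc_case (txg_30.enc h1 h2 h3) (enc_add (enc_add (enc_add (enc_scale 1203 25000 h1) (enc_rat _ 1203 50000)) (enc_mul (enc_norm (txg_4.enc h1 h2 h3)) (enc_norm (enc_add (enc_scale 363 2500 h1) (enc_rat _ 363 5000))))) (enc_mul (enc_norm (enc_subr 136613 250000 (enc_scale 3607 20000 (txg_4.enc h1 h2 h3)))) (enc_norm (enc_mul (enc_norm (enc_add h1 (enc_rat _ 1 2))) (enc_norm (enc_sub (enc_neg (enc_rat _ 9 20)) h1)))))) (enc_add (enc_add (enc_add (enc_scale 6379 60000 h1) (enc_rat _ 100497 2000000)) (enc_mul (enc_norm (txg_4.enc h1 h2 h3)) (enc_norm (enc_add (enc_scale 13 200 h1) (enc_rat _ 3651 100000))))) (enc_mul (enc_norm (enc_subr 51481 100000 (enc_scale 4743 4000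 (txg_4.enc h1 h2 h3)))) (enc_norm (enc_mul (enc_norm (txg_30.enc h1 h2 h3)) (enc_norm (enc_sub (enc_neg (enc_rat _ 39 100)) h1))))))) (enc_case (txg_71.enc h1 h2 h3) (enc_add (enc_add (enc_add (enc_scale 9731 60000 h1) (enc_rat _ 144073 2000000)) (enc_mul (enc_norm (txg_4.enc h1 h2 h3)) (enc_norm (enc_sub (enc_rat _ 1257 200000) (enc_scale 1 80 h1))))) (enc_mul (enc_norm (enc_subr 83199 200000 (enc_scale 429 4000 (txg_4.enc h1 h2 h3)))) (enc_norm (enc_mul (enc_norm (txg_27.enc h1 h2 h3)) (enc_norm (enc_sub (enc_neg (enc_rat _ 33 100)) h1)))))) (enc_case (txg_92.enc h1 h2 h3) (enc_add (enc_add (enc_add (enc_scale 3121 15000 h1) (enc_rat _ 43589 500000)) (enc_mul (enc_norm (txg_4.enc h1 h2 h3)) (enc_norm (enc_subr 569 200000 (enc_neg (enc_scale 241 6000 h1)))))) (enc_mul (enc_norm (enc_subr 174471 500000 (enc_scale 35153 100000 (txg_4.enc h1 h2 h3)))) (enc_norm (enc_mul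 (enc_norm (txg_71.enc h1 h2 h3)) (enc_norm (enc_sub (enc_neg (enc_rat _ 27 100)) h1)))))) (enc_add (enc_add (enc_add (enc_add (enc_scale 1398700433 6111728000 h1) (enc_rat _ 56711268491 611172800000)) (enc_mul (enc_norm (txg_4.enc h1 h2 h3)) (enc_norm (enc_add (enc_scale 156483211 3055864000 h1) (enc_rat _ 6669737897 305586400000))))) (enc_mul (txg_125.enc h1 h2 h3) (enc_norm (enc_subr 896157 985000 (enc_neg (enc_scale 33191 9850 h1)))))) (enc_mul (enc_norm (enc_sub (enc_rat _ 4319 62500) (enc_scale 112977 50000 (txg_4.enc h1 h2 h3)))) (enc_norm (enc_mul (enc_norm (txg_92.enc h1 h2 h3)) (enc_norm (enc_sub (enc_neg (enc_rat _ 61 277)) h1))))))))) (enc_case (txg_143.enc h1 h2 h3) (enc_sub (enc_mul (enc_norm (enc_sub (enc_pnc _ 1) h2)) (enc_norm (enc_subn 1 (enc_nat 2 h2)))) (enc_mul (enc_norm (enc_nat 2 (enc_sub (enc_scale 4 3 (txg_6.enc h1 h2 h3)) h3))) (enc_norm (enc_mul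 (enc_norm (enc_subn 1 (enc_add (enc_scale 2 3 (txg_6.enc h1 h2 h3)) h2))) (kcg.enc h1 h3))))) (enc_case (txg_145.enc h1 h2 h3) (enc_case (txg_147.enc h1 h2 h3) (enc_case (txg_150.enc h1 h2 h3) (enc_add (enc_add (enc_add (enc_add (enc_scale 4337388011 21938160000 h1) (enc_rat _ 40169947777 438763200000)) (enc_mul (enc_norm (txg_4.enc h1 h2 h3)) (enc_norm (enc_sub (enc_rat _ 221899957 21938160000) (enc_scale 39256873 1096908000 h1))))) (enc_mul (txg_125.enc h1 h2 h3) (enc_norm (enc_add (enc_scale 70483 40375 h1) (enc_rat _ 493381 4037500))))) (enc_mul (enc_norm (enc_sub (enc_rat _ 35821 20000) (enc_scale 13117 25000 (txg_4.enc h1 h2 h3)))) (enc_norm (enc_mul (enc_norm (txg_143.enc h1 h2 h3)) (enc_norm (enc_sub (enc_neg (enc_rat _ 7 100)) h1)))))) (enc_case (txg_176.enc h1 h2 h3) (enc_add (enc_add (enc_add (enc_scale 2763 35000 h1) (enc_rat _ 83239 1000000)) (enc_mul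 (enc_norm (txg_4.enc h1 h2 h3)) (enc_norm (enc_add (enc_scale 1 250 h1) (enc_rat _ 129 10000))))) (enc_mul (enc_norm (enc_sub (enc_rat _ 211367 125000) (enc_scale 6217 10000 (txg_4.enc h1 h2 h3)))) (enc_norm (enc_mul (enc_norm (txg_150.enc h1 h2 h3)) (enc_norm (enc_sub (enc_neg (enc_rat _ 7 200)) h1)))))) (enc_add (enc_add (enc_sub (enc_rat _ 32111 400000) (enc_scale 397 70000 h1)) (enc_mul (enc_norm (txg_4.enc h1 h2 h3)) (enc_norm (enc_add (enc_scale 313 7000 h1) (enc_rat _ 573 40000))))) (enc_mul (enc_norm (enc_sub (enc_rat _ 36289 100000) (enc_scale 6749 25000 (txg_4.enc h1 h2 h3)))) (enc_norm (enc_mul (enc_norm (txg_176.enc h1 h2 h3)) (enc_norm (enc_sub (enc_rat _ 7 200) h1)))))))) (enc_case (txg_216.enc h1 h2 h3) (enc_add (enc_add (enc_sub (enc_rat _ 1297 15625) (enc_scale 2929 35000 h1)) (enc_mul (enc_norm (txg_4.enc h1 h2 h3)) (enc_norm (enc_add (enc_scale 69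 875 h1) (enc_rat _ 1313 100000))))) (enc_mul (enc_norm (enc_sub (enc_rat _ 375867 250000) (enc_scale 21857 50000 (txg_4.enc h1 h2 h3)))) (enc_norm (enc_mul (enc_norm (txg_147.enc h1 h2 h3)) (enc_norm (enc_sub (enc_rat _ 7 100) h1)))))) (enc_case (txg_237.enc h1 h2 h3) (enc_add (enc_add (enc_sub (enc_rat _ 1542673 17120000) (enc_scale 6339 34240 h1)) (enc_mul (enc_norm (txg_4.enc h1 h2 h3)) (enc_norm (enc_add (enc_scale 357 3424 h1) (enc_rat _ 97169 8560000))))) (enc_mul (enc_norm (enc_sub (enc_rat _ 712721 500000) (enc_scale 29401 100000 (txg_4.enc h1 h2 h3)))) (enc_norm (enc_mul (enc_norm (txg_216.enc h1 h2 h3)) (enc_norm (enc_sub (enc_rat _ 1303 12500) h1)))))) (enc_add (enc_add (enc_sub (enc_rat _ 323107 3400000) (enc_scale 79 340 h1)) (enc_mul (enc_norm (txg_4.enc h1 h2 h3)) (enc_norm (enc_add (enc_scale 273 2788 h1) (enc_rat _ 52331 4356250))))) (enc_mul (enc_norm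 (enc_subr 14181 500000 (enc_scale 29277 100000 (txg_4.enc h1 h2 h3)))) (enc_norm (enc_mul (enc_norm (txg_237.enc h1 h2 h3)) (enc_norm (enc_sub (enc_rat _ 4 25) h1))))))))) (enc_case (txg_278.enc h1 h2 h3) (enc_case (txg_280.enc h1 h2 h3) (enc_add (enc_add (enc_sub (enc_rat _ 55675481 602200000) (enc_scale 6511 30110 h1)) (enc_mul (enc_norm (txg_4.enc h1 h2 h3)) (enc_norm (enc_add (enc_scale 227 6022 h1) (enc_rat _ 407403 18818750))))) (enc_mul (enc_norm (enc_subr 241347 1000000 (enc_scale 36337 50000 (txg_4.enc h1 h2 h3)))) (enc_norm (enc_mul (enc_norm (txg_145.enc h1 h2 h3)) (enc_norm (enc_sub (enc_rat _ 11011 50000) h1)))))) (enc_case (txg_299.enc h1 h2 h3) (enc_add (enc_add (enc_sub (enc_rat _ 222139777 2489000000) (enc_scale 502 2489 h1)) (enc_mul (enc_norm (txg_4.enc h1 h2 h3)) (enc_norm (enc_sub (enc_rat _ 7542643 248900000) (enc_scale 4 2489 h1))))) (enc_mul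 (enc_norm (enc_subr 229 1000000 (enc_neg (enc_scale 4621 50000 (txg_4.enc h1 h2 h3))))) (enc_norm (enc_mul (enc_norm (txg_280.enc h1 h2 h3)) (enc_norm (enc_sub (enc_rat _ 27 100) h1)))))) (enc_add (enc_add (enc_sub (enc_rat _ 88631 1000000) (enc_scale 997 5000 h1)) (enc_mul (enc_norm (txg_4.enc h1 h2 h3)) (enc_norm (enc_add (enc_scale 1 48 h1) (enc_rat _ 4849 200000))))) (enc_mul (enc_norm (enc_subr 38159 1000000 (enc_neg (enc_scale 29353 100000 (txg_4.enc h1 h2 h3))))) (enc_norm (enc_mul (enc_norm (txg_299.enc h1 h2 h3)) (enc_norm (enc_sub (enc_rat _ 33 100) h1)))))))) (enc_case (txg_343.enc h1 h2 h3) (enc_add (enc_add (enc_sub (enc_rat _ 163391 2000000) (enc_scale 10703 60000 h1)) (enc_mul (enc_norm (txg_4.enc h1 h2 h3)) (enc_norm (enc_add (enc_scale 13 300 h1) (enc_rat _ 841 50000))))) (enc_mul (enc_norm (enc_subr 77993 250000 (enc_neg (enc_scale 4119 50000 (txg_4.enc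 h1 h2 h3))))) (enc_norm (enc_mul (enc_norm (txg_278.enc h1 h2 h3)) (enc_norm (enc_sub (enc_rat _ 39 100) h1)))))) (enc_case (txg_364.enc h1 h2 h3) (enc_add (enc_add (enc_sub (enc_rat _ 128577 2000000) (enc_scale 107 800 h1)) (enc_mul (enc_norm (txg_4.enc h1 h2 h3)) (enc_norm (enc_sub (enc_rat _ 5183 50000) (enc_scale 269 1500 h1))))) (enc_mul (enc_norm (enc_subr 107931 250000 (enc_scale 23713 6250 (txg_4.enc h1 h2 h3)))) (enc_norm (enc_mul (enc_norm (txg_343.enc h1 h2 h3)) (enc_norm (enc_sub (enc_rat _ 9 20) h1)))))) (enc_add (enc_add (enc_sub (enc_rat _ 4101 100000) (enc_scale 4101 50000 h1)) (enc_mul (enc_norm (txg_4.enc h1 h2 h3)) (enc_norm (enc_sub (enc_rat _ 287 1250) (enc_scale 287 625 h1))))) (enc_mul (enc_norm (enc_subr 258471 500000 (enc_scale 4169 4000 (txg_4.enc h1 h2 h3)))) (enc_norm (enc_mul (enc_norm (txg_364.enc h1 h2 h3)) (enc_norm (enc_sub (enc_rat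 _ 1 2) h1))))))))))))⟩
noncomputable def l0q0 : Fn2 := ⟨_, _, fun h1 h2 => (enc_norm (txg.enc (enc_norm (enc_sub (enc_scale 3 4 h1) (enc_half (c1g.enc h1)))) (c1g.enc h1) h2))⟩
noncomputable def kf0q1_10 : Fn2 := ⟨_, _, fun h1 h2 => (enc_scale 3 2 h1)⟩
noncomputable def kf0q1 : Fn2 := ⟨_, _, fun h1 h2 => (enc_norm (enc_add (enc_mul (enc_norm (enc_mul (enc_norm (enc_add (enc_pnc _ 1) (enc_nat 2 (c1g.enc h1)))) (enc_norm (enc_sub (kf0q1_10.enc h1 h2) (c1g.enc h1))))) (enc_inv (enc_nat 2 (enc_sub (enc_add (enc_pnc _ 1) (kf0q1_10.enc h1 h2)) (c1g.enc h1))))) (enc_mul (enc_norm (enc_subn 1 h1)) (kcg.enc (enc_norm (enc_sub (enc_scale 3 4 h1) (enc_half (c1g.enc h1)))) h2))))⟩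
noncomputable def l0q1 : Fn2 := ⟨_, _, fun h1 h2 => (enc_norm (txg.enc (enc_norm (enc_sub (enc_scale 3 4 h1) (enc_half (c1g.enc h1)))) (c1g.enc h1) h2))⟩
noncomputable def yag : Fn1 := ⟨_, _, fun h1 => (enc_sqrt (enc_scale 4 3 (enc_sub (enc_pnc _ 1) (enc_sq h1))))⟩
noncomputable def kfc02 : Fn2 := ⟨_, _, fun h1 h2 => (enc_norm (enc_add h1 (enc_mul (enc_norm (enc_subn 1 (yag.enc h1))) (kcg.enc (enc_neg h1) h2))))⟩
noncomputable def lc02_7 : Fn2 := ⟨_, _, fun h1 h2 => (enc_scale 3 4 (yag.enc h1))⟩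
noncomputable def lc02_8 : Fn2 := ⟨_, _, fun h1 h2 => (enc_half h1)⟩
noncomputable def lc02 : Fn2 := ⟨_, _, fun h1 h2 => (enc_norm (enc_sub (txg.enc (enc_neg h1) (enc_norm (enc_add (lc02_7.enc h1 h2) (lc02_8.enc h1 h2))) h2) (txg.enc h1 (enc_norm (enc_sub (lc02_7.enc h1 h2) (lc02_8.enc h1 h2))) h2)))⟩
noncomputable def swg : Fn1 := ⟨_, _, fun h1 => (enc_sqrt (enc_sub (enc_pnc _ 1) (enc_scale 3 4 (enc_sq (enc_norm (enc_subn 1 h1))))))⟩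
noncomputable def cv1m : Fn1 := ⟨_, _, fun h1 => (enc_norm (enc_add (enc_half (c1g.enc h1)) (enc_half (enc_add (swg.enc h1) (enc_rat _ 1 2)))))⟩
noncomputable def bf1q0 : Fn2 := ⟨_, _, fun h1 h2 => (enc_norm (enc_add (enc_sub (enc_pnc _ 1) (enc_scale 137719 125000 h1)) (enc_mul (enc_norm (enc_subr 13 32 h2)) (enc_scale 2 625 h1))))⟩
noncomputable def kf1q0 : Fn2 := ⟨_, _, fun h1 h2 => (enc_norm (enc_mul (cv1m.enc h1) (bf1q0.enc h1 h2)))⟩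
noncomputable def bx1q0 : Fn2 := ⟨_, _, fun h1 h2 => (enc_norm (enc_add (enc_scale 11813 62500 h1) (enc_mul (enc_norm (enc_subr 13 32 h2)) (enc_scale 661 25000 h1))))⟩
noncomputable def l1q0 : Fn2 := ⟨_, _, fun h1 h2 => (enc_norm (enc_mul (cv1m.enc h1) (bx1q0.enc h1 h2)))⟩
noncomputable def bf1q1_3 : Fn2 := ⟨_, _, fun h1 h2 => (enc_subr 13 32 h2)⟩
noncomputable def bf1q1_39 : Fn2 := ⟨_, _, fun h1 h2 => (enc_mul (enc_norm (bf1q1_3.enc h1 h2)) (enc_norm (enc_sub (enc_rat _ 37259 300000) (enc_scale 209 1500 h1))))⟩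
noncomputable def bf1q1 : Fn2 := ⟨_, _, fun h1 h2 => (enc_norm (enc_case (enc_subr 4 5 h1) (enc_case (enc_subr 7 10 h1) (enc_add (enc_subr 281929 400000 (enc_scale 284141 200000 h1)) (enc_mul (enc_norm (bf1q1_3.enc h1 h2)) (enc_norm (enc_sub (enc_rat _ 6231 50000) (enc_scale 1399 10000 h1))))) (enc_add (enc_subr 140961 200000 (enc_scale 35517 25000 h1)) (enc_mul (enc_norm (bf1q1_3.enc h1 h2)) (enc_norm (enc_sub (enc_rat _ 12441 100000) (enc_scale 349 2500 h1)))))) (enc_case (enc_subr 7 8 h1) (enc_add (enc_subr 704773 1000000 (enc_scale 8879 6250 h1)) (bf1q1_39.enc h1 h2)) (enc_case (enc_subr 19 20 h1) (enc_add (enc_subr 2114249 3000000 (enc_scale 53273 37500 h1)) (bf1q1_39.enc h1 h2)) (enc_add (enc_subr 704737 1000000 (enc_scale 7103 5000 h1)) (enc_mul (enc_norm (bf1q1_3.enc h1 h2)) (enc_norm (enc_sub (enc_rat _ 12407 100000) (enc_scale 87 625 h1)))))))))⟩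
noncomputable def kf1q1 : Fn2 := ⟨_, _, fun h1 h2 => (enc_norm (enc_mul (cv1m.enc h1) (bf1q1.enc h1 h2)))⟩
noncomputable def bx1q1_3 : Fn2 := ⟨_, _, fun h1 h2 => (enc_subr 13 32 h2)⟩
noncomputable def bx1q1 : Fn2 := ⟨_, _, fun h1 h2 => (enc_norm (enc_case (enc_subr 4 5 h1) (enc_case (enc_subr 7 10 h1) (enc_add (enc_sub (enc_rat _ 327017 2000000) (enc_scale 6439 40000 h1)) (enc_mul (enc_norm (bx1q1_3.enc h1 h2)) (enc_norm (enc_subr 6133 100000 (enc_scale 337 5000 h1))))) (enc_add (enc_sub (enc_rat _ 163491 1000000) (enc_scale 3219 20000 h1)) (enc_mul (enc_norm (bx1q1_3.enc h1 h2)) (enc_norm (enc_subr 3063 50000 (enc_scale 673 10000 h1)))))) (enc_case (enc_subr 7 8 h1) (enc_add (enc_sub (enc_rat _ 490433 3000000) (enc_scale 1207 7500 h1)) (enc_mul (enc_norm (bx1q1_3.enc h1 h2)) (enc_norm (enc_subr 9209 150000 (enc_scale 253 3750 h1))))) (enc_case (enc_subr 19 20 h1)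 (enc_add (enc_sub (enc_rat _ 61291 375000) (enc_scale 12067 75000 h1)) (enc_mul (enc_norm (bx1q1_3.enc h1 h2)) (enc_norm (enc_subr 3093 50000 (enc_scale 17 250 h1))))) (enc_add (enc_sub (enc_rat _ 16343 100000) (enc_scale 2011 12500 h1)) (enc_mul (enc_norm (bx1q1_3.enc h1 h2)) (enc_norm (enc_subr 389 6250 (enc_scale 171 2500 h1)))))))))⟩
noncomputable def l1q1 : Fn2 := ⟨_, _, fun h1 h2 => (enc_norm (enc_mul (cv1m.enc h1) (bx1q1.enc h1 h2)))⟩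
noncomputable def xc12a : Fn1 := ⟨_, _, fun h1 => (enc_norm (enc_add (enc_half h1) (enc_half (enc_subr 1 2 (swg.enc (yag.enc h1))))))⟩
noncomputable def bf1q2_3 : Fn2 := ⟨_, _, fun h1 h2 => (enc_subr 13 32 h2)⟩
noncomputable def bf1q2_91 : Fn2 := ⟨_, _, fun h1 h2 => (enc_add (enc_scale 8067 50000 h1) (enc_rat _ 33549 40000))⟩
noncomputable def bf1q2 : Fn2 := ⟨_, _, fun h1 h2 => (enc_norm (enc_case (enc_subr 11 10 h1) (enc_case (enc_subr 53 50 h1) (enc_case (enc_subr 103 100 h1) (enc_add (enc_sub (enc_rat _ 679 400) (enc_scale 279 400 h1)) (enc_mul (enc_norm (bf1q2_3.enc h1 h2)) (enc_norm (enc_sub (enc_rat _ 4259 3000) (enc_scale 4259 3000 h1))))) (enc_add (enc_sub (enc_rat _ 4056217 3000000) (enc_scale 679 1875 h1)) (enc_mul (enc_norm (bf1q2_3.enc h1 h2)) (enc_norm (enc_sub (enc_rat _ 16939 12500) (enc_scale 1357 1000 h1)))))) (enc_case (enc_subr 107 100 h1) (enc_add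 (enc_add (enc_scale 1243 10000 h1) (enc_rat _ 836453 1000000)) (enc_mul (enc_norm (bf1q2_3.enc h1 h2)) (enc_norm (enc_sub (enc_rat _ 839 625) (enc_scale 269 200 h1))))) (enc_add (enc_add (enc_scale 1649 2500 h1) (enc_rat _ 131841 500000)) (enc_mul (enc_norm (bf1q2_3.enc h1 h2)) (enc_norm (enc_sub (enc_rat _ 80009 60000) (enc_scale 401 300 h1))))))) (enc_case (enc_subr 231 200 h1) (enc_case (enc_subr 577 500 h1) (enc_add (enc_add (enc_scale 11143 16875 h1) (enc_rat _ 3548927 13500000)) (enc_mul (enc_norm (bf1q2_3.enc h1 h2)) (enc_norm (enc_sub (enc_rat _ 719267 540000) (enc_scale 36053 27000 h1))))) (enc_add (enc_add (enc_scale 5659 35000 h1) (enc_rat _ 29341 35000)) (enc_mul (enc_norm (bf1q2_3.enc h1 h2)) (enc_norm (enc_sub (enc_rat _ 4749 3500) (enc_scale 4749 3500 h1)))))) (enc_case (enc_subr 5 4 h1) (enc_add (enc_add (enc_scale 107371 665000 h1) (enc_rat _ 2230609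 2660000)) (enc_mul (enc_norm (bf1q2_3.enc h1 h2)) (enc_norm (enc_sub (enc_rat _ 4492377 3325000) (enc_scale 89899 66500 h1))))) (enc_case (enc_subr 27 20 h1) (enc_add (bf1q2_91.enc h1 h2) (enc_mul (enc_norm (bf1q2_3.enc h1 h2)) (enc_norm (enc_sub (enc_rat _ 269477 200000) (enc_scale 13489 10000 h1))))) (enc_add (bf1q2_91.enc h1 h2) (enc_mul (enc_norm (bf1q2_3.enc h1 h2)) (enc_norm (enc_sub (enc_rat _ 134653 100000) (enc_scale 2528 1875 h1))))))))))⟩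
noncomputable def kfc12a : Fn2 := ⟨_, _, fun h1 h2 => (enc_norm (enc_mul (enc_norm (enc_add (enc_half h1) (enc_half (enc_subr 1 2 (swg.enc (yag.enc h1)))))) (bf1q2.enc (yag.enc h1) h2)))⟩
noncomputable def bx1q2_3 : Fn2 := ⟨_, _, fun h1 h2 => (enc_subr 13 32 h2)⟩
noncomputable def bx1q2 : Fn2 := ⟨_, _, fun h1 h2 => (enc_norm (enc_case (enc_subr 11 10 h1) (enc_case (enc_subr 53 50 h1) (enc_case (enc_subr 103 100 h1) (enc_add (enc_sub (enc_rat _ 553 15000) (enc_scale 553 15000 h1)) (enc_mul (enc_norm (bx1q2_3.enc h1 h2)) (enc_norm (enc_sub (enc_rat _ 172 375) (enc_scale 172 375 h1))))) (enc_add (enc_subr 65107 1500000 (enc_scale 77 1875 h1)) (enc_mul (enc_norm (bx1q2_3.enc h1 h2)) (enc_norm (enc_sub (enc_rat _ 170251 300000) (enc_scale 1693 3000 h1)))))) (enc_case (enc_subr 107 100 h1) (enc_add (enc_subr 11393 100000 (enc_scale 269 2500 h1)) (enc_mul (enc_norm (bx1q2_3.enc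 h1 h2)) (enc_norm (enc_sub (enc_rat _ 11979 20000) (enc_scale 297 500 h1))))) (enc_add (enc_subr 191867 1500000 (enc_scale 181 1500 h1)) (enc_mul (enc_norm (bx1q2_3.enc h1 h2)) (enc_norm (enc_sub (enc_rat _ 93641 150000) (enc_scale 1853 3000 h1))))))) (enc_case (enc_subr 231 200 h1) (enc_case (enc_subr 577 500 h1) (enc_add (enc_subr 12096971 94500000 (enc_scale 22823 189000 h1)) (enc_mul (enc_norm (bx1q2_3.enc h1 h2)) (enc_norm (enc_sub (enc_rat _ 1012573 1575000) (enc_scale 1999 3150 h1))))) (enc_sub (enc_rat _ 397 35000) (enc_scale 313 3500 (bx1q2_3.enc h1 h2)))) (enc_case (enc_subr 5 4 h1) (enc_add (enc_subr 176015593 133000000 (enc_scale 768503 665000 h1)) (enc_mul (enc_norm (bx1q2_3.enc h1 h2)) (enc_norm (enc_subr 16254421 6650000 (enc_scale 67791 33250 h1))))) (enc_case (enc_subr 27 20 h1) (enc_add (enc_subr 534573 500000 (enc_scale 47611 50000 h1)) (enc_mul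 (enc_norm (bx1q2_3.enc h1 h2)) (enc_norm (enc_subr 244949 100000 (enc_scale 2043 1000 h1))))) (enc_add (enc_subr 583749 1000000 (enc_scale 889 1500 h1)) (enc_mul (enc_norm (bx1q2_3.enc h1 h2)) (enc_norm (enc_subr 244931 100000 (enc_scale 30643 15000 h1))))))))))⟩
noncomputable def lc12a : Fn2 := ⟨_, _, fun h1 h2 => (enc_norm (enc_mul (enc_norm (enc_add (enc_half h1) (enc_half (enc_subr 1 2 (swg.enc (yag.enc h1)))))) (bx1q2.enc (yag.enc h1) h2)))⟩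
noncomputable def xc12b : Fn1 := ⟨_, _, fun h1 => (enc_norm (enc_half (enc_subr 1 2 (swg.enc h1))))⟩
noncomputable def kfc12b : Fn2 := ⟨_, _, fun h1 h2 => (enc_norm (enc_mul (enc_norm (enc_half (enc_subr 1 2 (swg.enc h1)))) (bf1q2.enc h1 h2)))⟩
noncomputable def lc12b : Fn2 := ⟨_, _, fun h1 h2 => (enc_norm (enc_mul (enc_norm (enc_half (enc_subr 1 2 (swg.enc h1)))) (bx1q2.enc h1 h2)))⟩
noncomputable def cv1r : Fn1 := ⟨_, _, fun h1 => (enc_norm (enc_half (enc_subr 1 2 (swg.enc h1))))⟩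
noncomputable def bf1q3 : Fn2 := ⟨_, _, fun h1 h2 => (enc_norm (enc_add (enc_subr 3661357 500000 (enc_scale 1794491 500000 h1)) (enc_mul (enc_norm (enc_subr 13 32 h2)) (enc_norm (enc_subr 183 100000 (enc_scale 11 12500 h1))))))⟩
noncomputable def kf1q3 : Fn2 := ⟨_, _, fun h1 h2 => (enc_norm (enc_mul (cv1r.enc h1) (bf1q3.enc h1 h2)))⟩
noncomputable def bx1q3 : Fn2 := ⟨_, _, fun h1 h2 => (enc_norm (enc_add (enc_sub (enc_rat _ 366759 1000000) (enc_scale 22823 500000 h1)) (enc_mul (enc_norm (enc_subr 13 32 h2)) (enc_norm (enc_sub (enc_rat _ 471 20000) (enc_scale 573 50000 h1))))))⟩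
noncomputable def l1q3 : Fn2 := ⟨_, _, fun h1 h2 => (enc_norm (enc_mul (cv1r.enc h1) (bx1q3.enc h1 h2)))⟩
noncomputable def c3g : Fn1 := ⟨_, _, fun h1 => (enc_sqrtg (enc_sub (enc_pnc _ 3) (enc_scale 3 4 (enc_sq h1))))⟩
noncomputable def cv2m : Fn1 := ⟨_, _, fun h1 => (enc_norm (enc_add (enc_scale 17 20 (enc_add (swg.enc h1) (enc_rat _ 1 2))) (enc_scale 3 20 (c3g.enc h1))))⟩
noncomputable def bf2q0 : Fn2 := ⟨_, _, fun h1 h2 => (enc_norm (enc_add (enc_sub (enc_rat _ 801769 1000000) (enc_scale 36611 31250 h1)) (enc_mul (enc_norm (enc_subr 13 32 h2)) (enc_norm (enc_sub (enc_rat _ 563 100000) (enc_scale 1277 50000 h1))))))⟩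
noncomputable def kf2q0 : Fn2 := ⟨_, _, fun h1 h2 => (enc_norm (enc_mul (cv2m.enc h1) (bf2q0.enc h1 h2)))⟩
noncomputable def bx2q0 : Fn2 := ⟨_, _, fun h1 h2 => (enc_norm (enc_add (enc_add (enc_scale 1468 15625 h1) (enc_rat _ 1921 250000)) (enc_mul (enc_norm (enc_subr 13 32 h2)) (enc_norm (enc_add (enc_scale 4349 50000 h1) (enc_rat _ 201 50000))))))⟩
noncomputable def l2q0 : Fn2 := ⟨_, _, fun h1 h2 => (enc_norm (enc_mul (cv2m.enc h1) (bx2q0.enc h1 h2)))⟩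
noncomputable def gsg : Fn1 := ⟨_, _, fun h1 => (enc_sqrt (enc_sub (enc_pnc _ 1) (enc_scale 3 4 (enc_sq h1))))⟩
noncomputable def esg : Fn1 := ⟨_, _, fun h1 => (enc_norm (enc_subn 1 (enc_add (enc_half h1) (gsg.enc h1))))⟩
noncomputable def kf2q1_4 : Fn2 := ⟨_, _, fun h1 h2 => (enc_subr 13 32 h2)⟩
noncomputable def kf2q1_78 : Fn2 := ⟨_, _, fun h1 h2 => (enc_sub (enc_pnc _ 1) h1)⟩
noncomputable def kf2q1_79 : Fn2 := ⟨_, _, fun h1 h2 => (gsg.enc (enc_norm (kf2q1_78.enc h1 h2)))⟩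
noncomputable def kf2q1_85 : Fn2 := ⟨_, _, fun h1 h2 => (enc_scale 3 2 (kf2q1_78.enc h1 h2))⟩
noncomputable def kf2q1_87 : Fn2 := ⟨_, _, fun h1 h2 => (enc_add (enc_pnc _ 1) (kf2q1_79.enc h1 h2))⟩
noncomputable def kf2q1_106 : Fn2 := ⟨_, _, fun h1 h2 => (enc_mul (cv1m.enc h1) (bf1q1.enc h1 h2))⟩
noncomputable def kf2q1 : Fn2 := ⟨_, _, fun h1 h2 => (enc_norm (enc_case (enc_subr 17 32 h1) (enc_mul (cv2m.enc h1) (enc_norm (enc_add (enc_subr 467612219 62500000 (enc_scale 29026959 1953125 h1)) (enc_mul (enc_norm (kf2q1_4.enc h1 h2)) (enc_norm (enc_sub (enc_rat _ 81939143 62500000) (enc_scale 5121548 1953125 h1))))))) (enc_case (enc_subr 21 32 h1) (enc_add (kf2q1_106.enc h1 h2) (enc_mul (enc_norm (enc_mul (enc_norm (enc_sub (enc_add (enc_add (enc_mul (enc_norm (enc_mul (enc_norm (enc_sub (kf2q1_79.enc h1 h2) (kf2q1_85.enc h1 h2))) (enc_norm (kf2q1_87.enc h1 h2)))) (enc_inv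 (enc_sub (kf2q1_87.enc h1 h2) (kf2q1_85.enc h1 h2)))) (enc_mul (enc_norm (enc_sub (enc_half (kf2q1_78.enc h1 h2)) (enc_mul (enc_scale 3 4 (enc_sq (enc_norm (kf2q1_78.enc h1 h2)))) (enc_inv (kf2q1_79.enc h1 h2))))) (enc_inv (enc_nat 2 (esg.enc (enc_norm (kf2q1_78.enc h1 h2))))))) (enc_mul (kcg.enc (enc_norm (enc_sub (enc_scale 3 4 (kf2q1_78.enc h1 h2)) (enc_half (kf2q1_79.enc h1 h2)))) h2) (enc_norm (kf2q1_78.enc h1 h2)))) (kf2q1_106.enc h1 h2))) (enc_norm (enc_sub (cv2m.enc h1) (cv1m.enc h1))))) (enc_inv (enc_sub (enc_add (swg.enc h1) (enc_rat _ 1 2)) (cv1m.enc h1))))) (enc_mul (cv2m.enc h1) (enc_norm (enc_case (enc_subr 4 5 h1) (enc_case (enc_subr 7 10 h1) (enc_add (enc_subr 5247609 19531250 (enc_scale 156778997 109375000 h1)) (enc_mul (enc_norm (kf2q1_4.enc h1 h2)) (enc_norm (enc_subr 14321789 31250000 (enc_scale 2412791 5468750 h1))))) (enc_add (enc_subr 218461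 1000000 (enc_scale 136167 100000 h1)) (enc_mul (enc_norm (kf2q1_4.enc h1 h2)) (enc_norm (enc_subr 6119 12500 (enc_scale 2429 5000 h1)))))) (enc_case (enc_subr 7 8 h1) (enc_add (enc_add (enc_scale 16163 25000 h1) (enc_rat _ 353659 1000000)) (enc_mul (enc_norm (kf2q1_4.enc h1 h2)) (enc_norm (enc_subr 18787 37500 (enc_scale 3751 7500 h1))))) (enc_case (enc_subr 19 20 h1) (enc_add (enc_add (enc_scale 48391 75000 h1) (enc_rat _ 1064407 3000000)) (enc_mul (enc_norm (kf2q1_4.enc h1 h2)) (enc_norm (enc_subr 12653 25000 (enc_scale 253 500 h1))))) (enc_add (enc_add (enc_scale 6449 10000 h1) (enc_rat _ 3551 10000)) (enc_mul (enc_norm (kf2q1_4.enc h1 h2)) (enc_norm (enc_subr 1271 2500 (enc_scale 1271 2500 h1)))))))))))))⟩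
noncomputable def qsg : Fn1 := ⟨_, _, fun h1 => (enc_norm (enc_mul (enc_norm (enc_sub (enc_pnc _ 1) (gsg.enc h1))) (enc_norm (enc_subn 1 (enc_nat 2 (gsg.enc h1))))))⟩
noncomputable def l2q1_4 : Fn2 := ⟨_, _, fun h1 h2 => (enc_subr 13 32 h2)⟩
noncomputable def l2q1_18 : Fn2 := ⟨_, _, fun h1 h2 => (enc_sq (enc_norm (l2q1_4.enc h1 h2)))⟩
noncomputable def l2q1_93 : Fn2 := ⟨_, _, fun h1 h2 => (enc_sub (enc_pnc _ 1) h1)⟩
noncomputable def l2q1_108 : Fn2 := ⟨_, _, fun h1 h2 => (enc_mul (cv1m.enc h1) (bx1q1.enc h1 h2))⟩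
noncomputable def l2q1 : Fn2 := ⟨_, _, fun h1 h2 => (enc_norm (enc_case (enc_subr 17 32 h1) (enc_mul (cv2m.enc h1) (enc_norm (enc_add (enc_add (enc_add (enc_scale 477957 312500000 h1) (enc_rat _ 28694543 625000000)) (enc_mul (enc_norm (l2q1_4.enc h1 h2)) (enc_norm (enc_sub (enc_rat _ 1297171 15625000) (enc_scale 4064309 31250000 h1))))) (enc_mul (l2q1_18.enc h1 h2) (enc_norm (enc_sub (enc_rat _ 12054 15625) (enc_scale 24108 15625 h1))))))) (enc_case (enc_subr 21 32 h1) (enc_add (l2q1_108.enc h1 h2) (enc_mul (enc_norm (enc_mul (enc_norm (enc_sub (enc_sub (qsg.enc (enc_norm (l2q1_93.enc h1 h2))) (enc_mul (enc_norm (enc_nat 2 (enc_sub (l2q1_93.enc h1 h2) h2))) (enc_norm (enc_mul (esg.enc (enc_norm (l2q1_93.enc h1 h2))) (kcg.enc (enc_norm (enc_sub (enc_scale 3 4 (l2q1_93.enc h1 h2)) (enc_half (gsg.enc (enc_norm (l2q1_93.enc h1 h2)))))) h2))))) (l2q1_108.enc h1 h2))) (enc_norm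 (enc_sub (cv2m.enc h1) (cv1m.enc h1))))) (enc_inv (enc_sub (enc_add (swg.enc h1) (enc_rat _ 1 2)) (cv1m.enc h1))))) (enc_mul (cv2m.enc h1) (enc_norm (enc_case (enc_subr 4 5 h1) (enc_case (enc_subr 7 10 h1) (enc_add (enc_add (enc_sub (enc_rat _ 72797433 625000000) (enc_scale 14853577 109375000 h1)) (enc_mul (enc_norm (l2q1_4.enc h1 h2)) (enc_norm (enc_sub (enc_rat _ 7785477 62500000) (enc_scale 7707977 43750000 h1))))) (enc_mul (l2q1_18.enc h1 h2) (enc_norm (enc_subr 24529 12500 (enc_scale 24529 8750 h1))))) (enc_add (enc_sub (enc_rat _ 55279 500000) (enc_scale 2547 20000 h1)) (enc_mul (enc_norm (l2q1_4.enc h1 h2)) (enc_norm (enc_subr 239 50000 (enc_scale 43 5000 h1)))))) (enc_case (enc_subr 7 8 h1) (enc_add (enc_sub (enc_rat _ 23779 500000) (enc_scale 243 5000 h1)) (enc_mul (enc_norm (l2q1_4.enc h1 h2)) (enc_norm (enc_sub (enc_rat _ 239 30000) (enc_scale 11 1500 h1)))))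 (enc_case (enc_subr 19 20 h1) (enc_add (enc_sub (enc_rat _ 3787 93750) (enc_scale 3031 75000 h1)) (enc_mul (enc_norm (l2q1_4.enc h1 h2)) (enc_norm (enc_sub (enc_rat _ 709 60000) (enc_scale 22 1875 h1))))) (enc_add (enc_sub (enc_rat _ 1001 25000) (enc_scale 1001 25000 h1)) (enc_mul (enc_norm (l2q1_4.enc h1 h2)) (enc_norm (enc_sub (enc_rat _ 67 5000) (enc_scale 67 5000 h1)))))))))))))⟩
noncomputable def cv2p : Fn1 := ⟨_, _, fun h1 => (enc_norm (enc_add (enc_scale 17 20 (enc_subr 1 2 (swg.enc h1))) (enc_scale 3 20 (c3g.enc h1))))⟩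
noncomputable def cv1p : Fn1 := ⟨_, _, fun h1 => (enc_norm (enc_add (enc_half (c1g.enc h1)) (enc_half (enc_subr 1 2 (swg.enc h1)))))⟩
noncomputable def kf2q2_4 : Fn2 := ⟨_, _, fun h1 h2 => (enc_subr 13 32 h2)⟩
noncomputable def kf2q2_93 : Fn2 := ⟨_, _, fun h1 h2 => (enc_subn 1 h1)⟩
noncomputable def kf2q2_94 : Fn2 := ⟨_, _, fun h1 h2 => (gsg.enc (enc_norm (kf2q2_93.enc h1 h2)))⟩
noncomputable def kf2q2_100 : Fn2 := ⟨_, _, fun h1 h2 => (enc_scale 3 2 (kf2q2_93.enc h1 h2))⟩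
noncomputable def kf2q2_102 : Fn2 := ⟨_, _, fun h1 h2 => (enc_add (enc_pnc _ 1) (kf2q2_94.enc h1 h2))⟩
noncomputable def kf2q2_121 : Fn2 := ⟨_, _, fun h1 h2 => (enc_mul (cv1p.enc h1) (bf1q2.enc h1 h2))⟩
noncomputable def kf2q2 : Fn2 := ⟨_, _, fun h1 h2 => (enc_norm (enc_case (enc_subr 43 32 h1) (enc_mul (cv2p.enc h1) (enc_norm (enc_case (enc_subr 11 10 h1) (enc_case (enc_subr 103 100 h1) (enc_add (enc_sub (enc_rat _ 294899 150000) (enc_scale 6059 6000 h1)) (enc_mul (enc_norm (kf2q2_4.enc h1 h2)) (enc_norm (enc_sub (enc_rat _ 175807 100000) (enc_scale 1689 1000 h1))))) (enc_case (enc_subr 53 50 h1) (enc_add (enc_sub (enc_rat _ 2949299 1500000) (enc_scale 30301 30000 h1)) (enc_mul (enc_norm (kf2q2_4.enc h1 h2)) (enc_norm (enc_sub (enc_rat _ 87749 50000) (enc_scale 843 500 h1))))) (enc_add (enc_sub (enc_rat _ 3932699 2000000) (enc_scale 40407 40000 h1)) (enc_mul (enc_norm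 (kf2q2_4.enc h1 h2)) (enc_norm (enc_sub (enc_rat _ 350201 200000) (enc_scale 6729 4000 h1))))))) (enc_case (enc_subr 29 25 h1) (enc_add (enc_sub (enc_rat _ 1966487 1000000) (enc_scale 10103 10000 h1)) (enc_mul (enc_norm (kf2q2_4.enc h1 h2)) (enc_norm (enc_sub (enc_rat _ 174633 100000) (enc_scale 839 500 h1))))) (enc_case (enc_subr 5 4 h1) (enc_add (enc_sub (enc_rat _ 1966719 1000000) (enc_scale 2021 2000 h1)) (enc_mul (enc_norm (kf2q2_4.enc h1 h2)) (enc_norm (enc_sub (enc_rat _ 1567289 900000) (enc_scale 1883 1125 h1))))) (enc_add (enc_sub (enc_rat _ 737574089 375000000) (enc_scale 473726339 468750000 h1)) (enc_mul (enc_norm (kf2q2_4.enc h1 h2)) (enc_norm (enc_sub (enc_rat _ 325597 187500) (enc_scale 3130961 1875000 h1)))))))))) (enc_case (enc_subr 47 32 h1) (enc_add (kf2q2_121.enc h1 h2) (enc_mul (enc_norm (enc_mul (enc_norm (enc_sub (enc_add (enc_sub (enc_mul (enc_norm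 (enc_mul (enc_norm (enc_sub (kf2q2_94.enc h1 h2) (kf2q2_100.enc h1 h2))) (enc_norm (kf2q2_102.enc h1 h2)))) (enc_inv (enc_sub (kf2q2_102.enc h1 h2) (kf2q2_100.enc h1 h2)))) (enc_mul (enc_norm (enc_sub (enc_half (kf2q2_93.enc h1 h2)) (enc_mul (enc_scale 3 4 (enc_sq (enc_norm (kf2q2_93.enc h1 h2)))) (enc_inv (kf2q2_94.enc h1 h2))))) (enc_inv (enc_nat 2 (esg.enc (enc_norm (kf2q2_93.enc h1 h2))))))) (enc_mul (kcg.enc (enc_norm (enc_sub (enc_scale 3 4 (kf2q2_93.enc h1 h2)) (enc_half (kf2q2_94.enc h1 h2)))) h2) (enc_norm (kf2q2_93.enc h1 h2)))) (kf2q2_121.enc h1 h2))) (enc_norm (enc_sub (cv2p.enc h1) (cv1p.enc h1))))) (enc_inv (enc_sub (enc_subr 1 2 (swg.enc h1)) (cv1p.enc h1))))) (enc_mul (cv2p.enc h1) (enc_norm (enc_add (enc_subr 3114392549 156250000 (enc_scale 4295678607 312500000 h1)) (enc_mul (enc_norm (kf2q2_4.enc h1 h2)) (enc_norm (enc_subr 441668727 62500000 (enc_scale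 147232909 31250000 h1))))))))))⟩
noncomputable def l2q2_4 : Fn2 := ⟨_, _, fun h1 h2 => (enc_subr 13 32 h2)⟩
noncomputable def l2q2_81 : Fn2 := ⟨_, _, fun h1 h2 => (enc_sq (enc_norm (l2q2_4.enc h1 h2)))⟩
noncomputable def l2q2_106 : Fn2 := ⟨_, _, fun h1 h2 => (enc_subn 1 h1)⟩
noncomputable def l2q2_121 : Fn2 := ⟨_, _, fun h1 h2 => (enc_mul (cv1p.enc h1) (bx1q2.enc h1 h2))⟩
noncomputable def l2q2 : Fn2 := ⟨_, _, fun h1 h2 => (enc_norm (enc_case (enc_subr 43 32 h1) (enc_mul (cv2p.enc h1) (enc_norm (enc_case (enc_subr 11 10 h1) (enc_case (enc_subr 103 100 h1) (enc_add (enc_subr 101459 3000000 (enc_scale 631 15000 h1)) (enc_mul (enc_norm (l2q2_4.enc h1 h2)) (enc_norm (enc_sub (enc_rat _ 111641 300000) (enc_scale 7 24 h1))))) (enc_case (enc_subr 53 50 h1) (enc_add (enc_subr 28051 500000 (enc_scale 637 10000 h1)) (enc_mul (enc_norm (l2q2_4.enc h1 h2)) (enc_norm (enc_sub (enc_rat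 _ 14689 37500) (enc_scale 233 750 h1))))) (enc_add (enc_subr 2927 50000 (enc_scale 33 500 h1)) (enc_mul (enc_norm (l2q2_4.enc h1 h2)) (enc_norm (enc_sub (enc_rat _ 46043 100000) (enc_scale 751 2000 h1))))))) (enc_case (enc_subr 29 25 h1) (enc_add (enc_subr 35267 600000 (enc_scale 3973 60000 h1)) (enc_mul (enc_norm (l2q2_4.enc h1 h2)) (enc_norm (enc_sub (enc_rat _ 178609 300000) (enc_scale 2989 6000 h1))))) (enc_case (enc_subr 5 4 h1) (enc_add (enc_subr 462449 3000000 (enc_scale 4453 30000 h1)) (enc_mul (enc_norm (l2q2_4.enc h1 h2)) (enc_norm (enc_sub (enc_rat _ 22781 36000) (enc_scale 2387 4500 h1))))) (enc_add (enc_add (enc_subr 463553 1000000 (enc_scale 98989 250000 h1)) (enc_mul (enc_norm (l2q2_4.enc h1 h2)) (enc_norm (enc_sub (enc_rat _ 494491 15000000) (enc_scale 948241 18750000 h1))))) (enc_mul (l2q2_81.enc h1 h2) (enc_norm (enc_sub (enc_rat _ 111751 18750) (enc_scale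 223502 46875 h1)))))))))) (enc_case (enc_subr 47 32 h1) (enc_add (l2q2_121.enc h1 h2) (enc_mul (enc_norm (enc_mul (enc_norm (enc_sub (enc_sub (qsg.enc (enc_norm (l2q2_106.enc h1 h2))) (enc_mul (enc_norm (enc_nat 2 (enc_sub (l2q2_106.enc h1 h2) h2))) (enc_norm (enc_mul (esg.enc (enc_norm (l2q2_106.enc h1 h2))) (kcg.enc (enc_norm (enc_sub (enc_scale 3 4 (l2q2_106.enc h1 h2)) (enc_half (gsg.enc (enc_norm (l2q2_106.enc h1 h2)))))) h2))))) (l2q2_121.enc h1 h2))) (enc_norm (enc_sub (cv2p.enc h1) (cv1p.enc h1))))) (enc_inv (enc_sub (enc_subr 1 2 (swg.enc h1)) (cv1p.enc h1))))) (enc_mul (cv2p.enc h1) (enc_norm (enc_add (enc_add (enc_subr 25694873 312500000 (enc_scale 24234541 156250000 h1)) (enc_mul (enc_norm (l2q2_4.enc h1 h2)) (enc_norm (enc_subr 296226661 62500000 (enc_scale 49587881 15625000 h1))))) (enc_mul (l2q2_81.enc h1 h2) (enc_norm (enc_subr 538713 62500 (enc_scale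 179571 31250 h1))))))))))⟩
noncomputable def ycg : Fn1 := ⟨_, _, fun h1 => (enc_sqrtg (enc_scale 4 3 (enc_sub (enc_pnc _ 3) (enc_sq h1))))⟩
noncomputable def xc23 : Fn1 := ⟨_, _, fun h1 => (enc_norm (enc_add (enc_scale 17 20 (enc_subr 1 2 (swg.enc (ycg.enc h1)))) (enc_scale 3 20 h1)))⟩
noncomputable def bf2q3 : Fn2 := ⟨_, _, fun h1 h2 => (enc_norm (enc_add (enc_subr 165841 50000 (enc_scale 190841 100000 h1)) (enc_mul (enc_norm (enc_subr 13 32 h2)) (enc_norm (enc_subr 213 25000 (enc_scale 213 50000 h1))))))⟩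
noncomputable def kfc23 : Fn2 := ⟨_, _, fun h1 h2 => (enc_norm (enc_mul (enc_norm (enc_add (enc_scale 17 20 (enc_subr 1 2 (swg.enc (ycg.enc h1)))) (enc_scale 3 20 h1))) (bf2q3.enc (ycg.enc h1) h2)))⟩
noncomputable def bx2q3 : Fn2 := ⟨_, _, fun h1 h2 => (enc_norm (enc_add (enc_sub (enc_rat _ 2316787 5000000) (enc_scale 521979 2500000 h1)) (enc_mul (enc_norm (enc_subr 13 32 h2)) (enc_norm (enc_subr 873449 800000 (enc_scale 305203 400000 h1))))))⟩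
noncomputable def lc23 : Fn2 := ⟨_, _, fun h1 h2 => (enc_norm (enc_mul (enc_norm (enc_add (enc_scale 17 20 (enc_subr 1 2 (swg.enc (ycg.enc h1)))) (enc_scale 3 20 h1))) (bx2q3.enc (ycg.enc h1) h2)))⟩
noncomputable def cv3m : Fn1 := ⟨_, _, fun h1 => (enc_norm (enc_add (enc_half (enc_add (swg.enc h1) (enc_rat _ 1 2))) (enc_half (c3g.enc h1))))⟩
noncomputable def bf3q0 : Fn2 := ⟨_, _, fun h1 h2 => (enc_norm (enc_add (enc_sub (enc_rat _ 663603 1000000) (enc_scale 128363 62500 h1)) (enc_mul (enc_norm (enc_subr 13 32 h2)) (enc_norm (enc_sub (enc_rat _ 27 50000) (enc_scale 91 10000 h1))))))⟩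
noncomputable def kf3q0 : Fn2 := ⟨_, _, fun h1 h2 => (enc_norm (enc_mul (cv3m.enc h1) (bf3q0.enc h1 h2)))⟩
noncomputable def bx3q0 : Fn2 := ⟨_, _, fun h1 h2 => (enc_norm (enc_add (enc_sub (enc_rat _ 2381 25000) (enc_scale 24799 250000 h1)) (enc_mul (enc_norm (enc_subr 13 32 h2)) (enc_norm (enc_add (enc_scale 121 25000 h1) (enc_rat _ 153 12500))))))⟩
noncomputable def l3q0 : Fn2 := ⟨_, _, fun h1 h2 => (enc_norm (enc_mul (cv3m.enc h1) (bx3q0.enc h1 h2)))⟩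
noncomputable def bf3q1_3 : Fn2 := ⟨_, _, fun h1 h2 => (enc_subr 13 32 h2)⟩
noncomputable def bf3q1_36 : Fn2 := ⟨_, _, fun h1 h2 => (enc_mul (enc_norm (bf3q1_3.enc h1 h2)) (enc_norm (enc_subr 4241 15000 (enc_scale 106 375 h1))))⟩
noncomputable def bf3q1 : Fn2 := ⟨_, _, fun h1 h2 => (enc_norm (enc_case (enc_subr 4 5 h1) (enc_case (enc_subr 7 10 h1) (enc_add (enc_add (enc_scale 167499 200000 h1) (enc_rat _ 369551 2000000)) (enc_mul (enc_norm (bf3q1_3.enc h1 h2)) (enc_norm (enc_subr 56647 200000 (enc_scale 5667 20000 h1))))) (enc_add (enc_add (enc_scale 41853 50000 h1) (enc_rat _ 4627 25000)) (enc_mul (enc_norm (bf3q1_3.enc h1 h2)) (enc_norm (enc_subr 7073 25000 (enc_scale 2829 10000 h1)))))) (enc_case (enc_subr 7 8 h1) (enc_add (enc_add (enc_scale 31327 37500 h1) (enc_rat _ 69907 375000)) (bf3q1_36.enc h1 h2)) (enc_case (enc_subr 19 20 h1) (enc_add (enc_add (enc_scale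 4259 6250 h1) (enc_rat _ 160561 500000)) (bf3q1_36.enc h1 h2)) (enc_add (enc_add (enc_scale 3151 5000 h1) (enc_rat _ 1849 5000)) (enc_mul (enc_norm (bf3q1_3.enc h1 h2)) (enc_norm (enc_subr 71 250 (enc_scale 71 250 h1)))))))))⟩
noncomputable def kf3q1 : Fn2 := ⟨_, _, fun h1 h2 => (enc_norm (enc_mul (cv3m.enc h1) (bf3q1.enc h1 h2)))⟩
noncomputable def bx3q1_3 : Fn2 := ⟨_, _, fun h1 h2 => (enc_subr 13 32 h2)⟩
noncomputable def bx3q1 : Fn2 := ⟨_, _, fun h1 h2 => (enc_norm (enc_case (enc_subr 4 5 h1) (enc_case (enc_subr 7 10 h1) (enc_add (enc_sub (enc_rat _ 107463 1000000) (enc_scale 3063 25000 h1)) (enc_mul (enc_norm (bx3q1_3.enc h1 h2)) (enc_norm (enc_sub (enc_rat _ 16157 200000) (enc_scale 1511 20000 h1))))) (enc_add (enc_sub (enc_rat _ 104411 1000000) (enc_scale 1477 12500 h1)) (enc_mul (enc_norm (bx3q1_3.enc h1 h2)) (enc_norm (enc_sub (enc_rat _ 1061 12500) (enc_scale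 407 5000 h1)))))) (enc_case (enc_subr 7 8 h1) (enc_add (enc_sub (enc_rat _ 231217 3000000) (enc_scale 6299 75000 h1)) (enc_mul (enc_norm (bx3q1_3.enc h1 h2)) (enc_norm (enc_sub (enc_rat _ 689 7500) (enc_scale 169 1875 h1))))) (enc_case (enc_subr 19 20 h1) (enc_add (enc_sub (enc_rat _ 16457 500000) (enc_scale 419 12500 h1)) (enc_mul (enc_norm (bx3q1_3.enc h1 h2)) (enc_norm (enc_sub (enc_rat _ 201 2000) (enc_scale 1 10 h1))))) (enc_add (enc_sub (enc_rat _ 107 5000) (enc_scale 107 5000 h1)) (enc_mul (enc_norm (bx3q1_3.enc h1 h2)) (enc_norm (enc_sub (enc_rat _ 11 100) (enc_scale 11 100 h1)))))))))⟩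
noncomputable def l3q1 : Fn2 := ⟨_, _, fun h1 h2 => (enc_norm (enc_mul (cv3m.enc h1) (bx3q1.enc h1 h2)))⟩
noncomputable def cv3p : Fn1 := ⟨_, _, fun h1 => (enc_norm (enc_add (enc_half (enc_subr 1 2 (swg.enc h1))) (enc_half (c3g.enc h1))))⟩
noncomputable def bf3q2_3 : Fn2 := ⟨_, _, fun h1 h2 => (enc_subr 13 32 h2)⟩
noncomputable def bf3q2 : Fn2 := ⟨_, _, fun h1 h2 => (enc_norm (enc_case (enc_subr 29 25 h1) (enc_case (enc_subr 53 50 h1) (enc_add (enc_subr 357843 1000000 (enc_scale 11559 10000 h1)) (enc_mul (enc_norm (bf3q2_3.enc h1 h2)) (enc_norm (enc_subr 253 1500 (enc_scale 371 3000 h1))))) (enc_case (enc_subr 11 10 h1) (enc_add (enc_subr 715633 2000000 (enc_scale 9247 8000 h1)) (enc_mul (enc_norm (bf3q2_3.enc h1 h2)) (enc_norm (enc_subr 16849 100000 (enc_scale 247 2000 h1))))) (enc_add (enc_subr 536711 1500000 (enc_scale 8669 7500 h1)) (enc_mul (enc_norm (bf3q2_3.enc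 h1 h2)) (enc_norm (enc_subr 50327 300000 (enc_scale 737 6000 h1))))))) (enc_case (enc_subr 5 4 h1) (enc_add (enc_subr 1610017 4500000 (enc_scale 52013 45000 h1)) (enc_mul (enc_norm (bf3q2_3.enc h1 h2)) (enc_norm (enc_subr 6023 36000 (enc_scale 551 4500 h1))))) (enc_case (enc_subr 27 20 h1) (enc_add (enc_subr 715527 2000000 (enc_scale 115583 100000 h1)) (enc_mul (enc_norm (bf3q2_3.enc h1 h2)) (enc_norm (enc_subr 667 4000 (enc_scale 61 500 h1))))) (enc_add (enc_subr 44721 125000 (enc_scale 1387 1200 h1)) (enc_mul (enc_norm (bf3q2_3.enc h1 h2)) (enc_norm (enc_subr 16639 100000 (enc_scale 913 7500 h1)))))))))⟩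
noncomputable def kf3q2 : Fn2 := ⟨_, _, fun h1 h2 => (enc_norm (enc_mul (cv3p.enc h1) (bf3q2.enc h1 h2)))⟩
noncomputable def bx3q2_3 : Fn2 := ⟨_, _, fun h1 h2 => (enc_subr 13 32 h2)⟩
noncomputable def bx3q2 : Fn2 := ⟨_, _, fun h1 h2 => (enc_norm (enc_case (enc_subr 11 10 h1) (enc_case (enc_subr 103 100 h1) (enc_add (enc_subr 189709 3000000 (enc_scale 1789 30000 h1)) (enc_mul (enc_norm (bx3q2_3.enc h1 h2)) (enc_norm (enc_subr 46957 75000 (enc_scale 1729 3000 h1))))) (enc_case (enc_subr 53 50 h1) (enc_add (enc_subr 47453 750000 (enc_scale 179 3000 h1)) (enc_mul (enc_norm (bx3q2_3.enc h1 h2)) (enc_norm (enc_subr 93811 150000 (enc_scale 1727 3000 h1))))) (enc_add (enc_subr 25333 400000 (enc_scale 2389 40000 h1)) (enc_mul (enc_norm (bx3q2_3.enc h1 h2)) (enc_norm (enc_subr 124993 200000 (enc_scale 2301 4000 h1))))))) (enc_case (enc_subr 5 4 h1) (enc_case (enc_subr 29 25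 h1) (enc_add (enc_subr 19019 300000 (enc_scale 3587 60000 h1)) (enc_mul (enc_norm (bx3q2_3.enc h1 h2)) (enc_norm (enc_subr 93731 150000 (enc_scale 3451 6000 h1))))) (enc_add (enc_subr 47591 750000 (enc_scale 359 6000 h1)) (enc_mul (enc_norm (bx3q2_3.enc h1 h2)) (enc_norm (enc_subr 1172 1875 (enc_scale 863 1500 h1)))))) (enc_case (enc_subr 27 20 h1) (enc_add (enc_subr 127051 2000000 (enc_scale 5989 100000 h1)) (enc_mul (enc_norm (bx3q2_3.enc h1 h2)) (enc_norm (enc_subr 25021 40000 (enc_scale 5757 10000 h1))))) (enc_add (enc_subr 1987 31250 (enc_scale 899 15000 h1)) (enc_mul (enc_norm (bx3q2_3.enc h1 h2)) (enc_norm (enc_subr 2503 4000 (enc_scale 4319 7500 h1)))))))))⟩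
noncomputable def l3q2 : Fn2 := ⟨_, _, fun h1 h2 => (enc_norm (enc_mul (cv3p.enc h1) (bx3q2.enc h1 h2)))⟩
noncomputable def xc33 : Fn1 := ⟨_, _, fun h1 => (enc_norm (enc_add (enc_half (enc_subr 1 2 (swg.enc (ycg.enc h1)))) (enc_half h1)))⟩
noncomputable def bf3q3 : Fn2 := ⟨_, _, fun h1 h2 => (enc_norm (enc_add (enc_subr 262737 50000 (enc_scale 287737 100000 h1)) (enc_mul (enc_norm (enc_subr 13 32 h2)) (enc_norm (enc_subr 3 6250 (enc_scale 3 12500 h1))))))⟩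
noncomputable def kfc33 : Fn2 := ⟨_, _, fun h1 h2 => (enc_norm (enc_mul (enc_norm (enc_add (enc_half (enc_subr 1 2 (swg.enc (ycg.enc h1)))) (enc_half h1))) (bf3q3.enc (ycg.enc h1) h2)))⟩
noncomputable def bx3q3 : Fn2 := ⟨_, _, fun h1 h2 => (enc_norm (enc_add (enc_sub (enc_rat _ 1130147 5000000) (enc_scale 225319 2500000 h1)) (enc_mul (enc_norm (enc_subr 13 32 h2)) (enc_norm (enc_subr 1036617 800000 (enc_scale 69199 80000 h1))))))⟩
noncomputable def lc33 : Fn2 := ⟨_, _, fun h1 h2 => (enc_norm (enc_mul (enc_norm (enc_add (enc_half (enc_subr 1 2 (swg.enc (ycg.enc h1)))) (enc_half h1))) (bx3q3.enc (ycg.enc h1) h2)))⟩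
noncomputable def kf4q0 : Fn2 := ⟨_, _, fun h1 h2 => (enc_norm (enc_sub (enc_mul h1 (kcg.enc (enc_half h1) h2)) (enc_mul (enc_norm (enc_mul (enc_sq h1) (enc_norm (enc_add (c3g.enc h1) (enc_rat _ 3 2))))) (enc_inv (enc_mul (enc_norm (enc_sub (enc_pnc _ 1) h1)) (enc_norm (enc_add (enc_pnc _ 1) h1)))))))⟩
noncomputable def l4q0_6 : Fn2 := ⟨_, _, fun h1 h2 => (enc_half h1)⟩
noncomputable def l4q0_7 : Fn2 := ⟨_, _, fun h1 h2 => (enc_half (c3g.enc h1))⟩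
noncomputable def l4q0_8 : Fn2 := ⟨_, _, fun h1 h2 => (enc_scale 1 4 h1)⟩
noncomputable def l4q0 : Fn2 := ⟨_, _, fun h1 h2 => (enc_norm (enc_add (txg.enc (l4q0_6.enc h1 h2) (enc_norm (enc_sub (l4q0_7.enc h1 h2) (l4q0_8.enc h1 h2))) h2) (txg.enc (enc_neg (l4q0_6.enc h1 h2)) (enc_norm (enc_add (l4q0_7.enc h1 h2) (l4q0_8.enc h1 h2))) h2)))⟩
noncomputable def kf4q1 : Fn2 := ⟨_, _, fun h1 h2 => (enc_norm (enc_add (enc_mul (enc_norm (enc_mul h1 (enc_norm (enc_add (c3g.enc h1) (enc_rat _ 3 2))))) (enc_inv (enc_add (enc_pnc _ 1) h1))) (enc_mul (enc_norm (enc_subn 1 h1)) (kcg.enc (enc_half h1) h2))))⟩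
noncomputable def l4q1_7 : Fn2 := ⟨_, _, fun h1 h2 => (enc_half h1)⟩
noncomputable def l4q1_8 : Fn2 := ⟨_, _, fun h1 h2 => (enc_half (c3g.enc h1))⟩
noncomputable def l4q1_9 : Fn2 := ⟨_, _, fun h1 h2 => (enc_scale 1 4 h1)⟩
noncomputable def l4q1 : Fn2 := ⟨_, _, fun h1 h2 => (enc_norm (enc_add (txg.enc (l4q1_7.enc h1 h2) (enc_norm (enc_sub (l4q1_8.enc h1 h2) (l4q1_9.enc h1 h2))) h2) (txg.enc (enc_neg (l4q1_7.enc h1 h2)) (enc_norm (enc_add (l4q1_8.enc h1 h2) (l4q1_9.enc h1 h2))) h2)))⟩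
noncomputable def kf4q2 : Fn2 := ⟨_, _, fun h1 h2 => (enc_norm (enc_add (enc_mul (enc_norm (enc_mul (enc_norm (enc_sub (enc_nat 2 (c3g.enc h1)) h1)) (enc_norm (enc_sub (enc_add (c3g.enc h1) (enc_pnc _ 3)) (enc_scale 3 2 h1))))) (enc_inv (enc_nat 4 (enc_sub (enc_pnc _ 2) h1)))) (enc_mul (enc_norm (enc_subn 1 h1)) (kcg.enc (enc_norm (enc_sub (enc_scale 1 4 h1) (enc_half (c3g.enc h1)))) h2))))⟩
noncomputable def l4q2_7 : Fn2 := ⟨_, _, fun h1 h2 => (enc_half (c3g.enc h1))⟩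
noncomputable def l4q2_8 : Fn2 := ⟨_, _, fun h1 h2 => (enc_scale 1 4 h1)⟩
noncomputable def l4q2_9 : Fn2 := ⟨_, _, fun h1 h2 => (enc_sub (l4q2_7.enc h1 h2) (l4q2_8.enc h1 h2))⟩
noncomputable def l4q2_12 : Fn2 := ⟨_, _, fun h1 h2 => (enc_add (enc_scale 1 4 (c3g.enc h1)) (enc_scale 3 8 h1))⟩
noncomputable def l4q2_14 : Fn2 := ⟨_, _, fun h1 h2 => (enc_half (l4q2_9.enc h1 h2))⟩
noncomputable def l4q2 : Fn2 := ⟨_, _, fun h1 h2 => (enc_norm (enc_sub (enc_nat 2 (txg.enc (enc_norm (enc_sub (l4q2_8.enc h1 h2) (l4q2_7.enc h1 h2))) (enc_norm (enc_add (l4q2_12.enc h1 h2) (l4q2_14.enc h1 h2))) h2)) (txg.enc (enc_norm (l4q2_9.enc h1 h2)) (enc_norm (enc_sub (l4q2_12.enc h1 h2) (l4q2_14.enc h1 h2))) h2)))⟩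
noncomputable def kfc43 : Fn2 := ⟨_, _, fun h1 h2 => (enc_norm (enc_sub (enc_mul (enc_norm (enc_subn 2 (ycg.enc h1))) (kcg.enc (enc_norm (enc_sub (enc_scale 1 4 (ycg.enc h1)) (enc_half h1))) h2)) (enc_mul (enc_norm (enc_mul (enc_norm (enc_sub (enc_nat 2 h1) (ycg.enc h1))) (enc_norm (enc_sub (enc_add h1 (enc_pnc _ 3)) (enc_scale 3 2 (ycg.enc h1)))))) (enc_inv (enc_nat 4 (enc_subn 1 (ycg.enc h1)))))))⟩
noncomputable def lc43_7 : Fn2 := ⟨_, _, fun h1 h2 => (enc_half h1)⟩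
noncomputable def lc43_8 : Fn2 := ⟨_, _, fun h1 h2 => (enc_scale 1 4 (ycg.enc h1))⟩
noncomputable def lc43_9 : Fn2 := ⟨_, _, fun h1 h2 => (enc_sub (lc43_7.enc h1 h2) (lc43_8.enc h1 h2))⟩
noncomputable def lc43_12 : Fn2 := ⟨_, _, fun h1 h2 => (enc_add (enc_scale 1 4 h1) (enc_scale 3 8 (ycg.enc h1)))⟩
noncomputable def lc43_14 : Fn2 := ⟨_, _, fun h1 h2 => (enc_half (lc43_9.enc h1 h2))⟩
noncomputable def lc43 : Fn2 := ⟨_, _, fun h1 h2 => (enc_norm (enc_sub (enc_nat 2 (txg.enc (enc_norm (enc_sub (lc43_8.enc h1 h2) (lc43_7.enc h1 h2))) (enc_norm (enc_add (lc43_12.enc h1 h2) (lc43_14.enc h1 h2))) h2)) (txg.enc (enc_norm (lc43_9.enc h1 h2)) (enc_norm (enc_sub (lc43_12.enc h1 h2) (lc43_14.enc h1 h2))) h2)))⟩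
noncomputable def lm3m : Fn2 := ⟨_, _, fun h1 h2 => (enc_lam (enc_norm (enc_sub h1 (cv3m.enc h2))) (enc_sub (c3g.enc h2) (cv3m.enc h2)))⟩
noncomputable def lm2m : Fn2 := ⟨_, _, fun h1 h2 => (enc_lam (enc_norm (enc_sub h1 (cv2m.enc h2))) (enc_sub (cv3m.enc h2) (cv2m.enc h2)))⟩
noncomputable def lm1m : Fn2 := ⟨_, _, fun h1 h2 => (enc_lam (enc_norm (enc_sub h1 (cv1m.enc h2))) (enc_sub (cv2m.enc h2) (cv1m.enc h2)))⟩
noncomputable def lm0m : Fn2 := ⟨_, _, fun h1 h2 => (enc_lam (enc_norm (enc_sub h1 (c1g.enc h2))) (enc_sub (cv1m.enc h2) (c1g.enc h2)))⟩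
noncomputable def rkfq0 : Fn3 := ⟨_, _, fun h1 h2 h3 => (enc_case (enc_sub h1 (cv1m.enc h2)) (enc_add (enc_mul h1 (bf1q0.enc h2 h3)) (enc_mul (enc_norm (enc_sub (enc_pnc _ 1) (lm0m.enc h1 h2))) (enc_norm (enc_sub (kf0q0.enc h2 h3) (enc_mul (c1g.enc h2) (bf1q0.enc h2 h3)))))) (enc_case (enc_sub h1 (cv2m.enc h2)) (enc_add (enc_mul h1 (bf2q0.enc h2 h3)) (enc_mul (enc_norm (enc_mul (enc_norm (enc_sub (enc_pnc _ 1) (lm1m.enc h1 h2))) (cv1m.enc h2))) (enc_norm (enc_sub (bf1q0.enc h2 h3) (bf2q0.enc h2 h3))))) (enc_case (enc_sub h1 (cv3m.enc h2)) (enc_add (enc_mul h1 (bf3q0.enc h2 h3)) (enc_mul (enc_norm (enc_mul (enc_norm (enc_sub (enc_pnc _ 1) (lm2m.enc h1 h2))) (cv2m.enc h2))) (enc_norm (enc_sub (bf2q0.enc h2 h3) (bf3q0.enc h2 h3))))) (enc_add (kf3q0.enc h2 h3) (enc_mul (lm3m.enc h1 h2) (enc_norm (enc_sub (kf4q0.enc h2 h3) (kf3q0.enc h2 h3))))))))⟩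
noncomputable def rsfq0 : Fn3 := ⟨_, _, fun h1 h2 h3 => (enc_case h1 (enc_neg (rkfq0.enc (enc_neg h1) h2 h3)) (rkfq0.enc h1 h2 h3))⟩
noncomputable def bf2q1_3 : Fn2 := ⟨_, _, fun h1 h2 => (enc_subr 13 32 h2)⟩
noncomputable def bf2q1 : Fn2 := ⟨_, _, fun h1 h2 => (enc_norm (enc_case (enc_subr 19 32 h1) (enc_add (enc_subr 467612219 62500000 (enc_scale 29026959 1953125 h1)) (enc_mul (enc_norm (bf2q1_3.enc h1 h2)) (enc_norm (enc_sub (enc_rat _ 81939143 62500000) (enc_scale 5121548 1953125 h1))))) (enc_case (enc_subr 4 5 h1) (enc_case (enc_subr 7 10 h1) (enc_add (enc_subr 5247609 19531250 (enc_scale 156778997 109375000 h1)) (enc_mul (enc_norm (bf2q1_3.enc h1 h2)) (enc_norm (enc_subr 14321789 31250000 (enc_scale 2412791 5468750 h1))))) (enc_add (enc_subr 218461 1000000 (enc_scale 136167 100000 h1)) (enc_mul (enc_norm (bf2q1_3.enc h1 h2)) (enc_norm (enc_subr 6119 12500 (enc_scale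 2429 5000 h1)))))) (enc_case (enc_subr 7 8 h1) (enc_add (enc_add (enc_scale 16163 25000 h1) (enc_rat _ 353659 1000000)) (enc_mul (enc_norm (bf2q1_3.enc h1 h2)) (enc_norm (enc_subr 18787 37500 (enc_scale 3751 7500 h1))))) (enc_case (enc_subr 19 20 h1) (enc_add (enc_add (enc_scale 48391 75000 h1) (enc_rat _ 1064407 3000000)) (enc_mul (enc_norm (bf2q1_3.enc h1 h2)) (enc_norm (enc_subr 12653 25000 (enc_scale 253 500 h1))))) (enc_add (enc_add (enc_scale 6449 10000 h1) (enc_rat _ 3551 10000)) (enc_mul (enc_norm (bf2q1_3.enc h1 h2)) (enc_norm (enc_subr 1271 2500 (enc_scale 1271 2500 h1))))))))))⟩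
noncomputable def rkfq1_35 : Fn3 := ⟨_, _, fun h1 h2 h3 => (enc_add (enc_mul h1 (bf2q1.enc h2 h3)) (enc_mul (enc_norm (enc_mul (enc_norm (enc_sub (enc_pnc _ 1) (lm1m.enc h1 h2))) (cv1m.enc h2))) (enc_norm (enc_sub (bf1q1.enc h2 h3) (bf2q1.enc h2 h3)))))⟩
noncomputable def rkfq1_37 : Fn3 := ⟨_, _, fun h1 h2 h3 => (enc_sub (enc_pnc _ 1) h2)⟩
noncomputable def rkfq1_38 : Fn3 := ⟨_, _, fun h1 h2 h3 => (gsg.enc (enc_norm (rkfq1_37.enc h1 h2 h3)))⟩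
noncomputable def rkfq1_44 : Fn3 := ⟨_, _, fun h1 h2 h3 => (enc_scale 3 2 (rkfq1_37.enc h1 h2 h3))⟩
noncomputable def rkfq1_46 : Fn3 := ⟨_, _, fun h1 h2 h3 => (enc_add (enc_pnc _ 1) (rkfq1_38.enc h1 h2 h3))⟩
noncomputable def rkfq1_67 : Fn3 := ⟨_, _, fun h1 h2 h3 => (enc_sub h1 (cv1m.enc h2))⟩
noncomputable def rkfq1 : Fn3 := ⟨_, _, fun h1 h2 h3 => (enc_case (rkfq1_67.enc h1 h2 h3) (enc_add (enc_mul h1 (bf1q1.enc h2 h3)) (enc_mul (enc_norm (enc_sub (enc_pnc _ 1) (lm0m.enc h1 h2))) (enc_norm (enc_sub (kf0q1.enc h2 h3) (enc_mul (c1g.enc h2) (bf1q1.enc h2 h3)))))) (enc_case (enc_sub h1 (cv2m.enc h2)) (enc_case (enc_subr 17 32 h2) (rkfq1_35.enc h1 h2 h3) (enc_case (enc_subr 21 32 h2) (enc_add (kf1q1.enc h2 h3) (enc_mul (enc_norm (enc_mul (enc_norm (rkfq1_67.enc h1 h2 h3)) (enc_inv (enc_sub (enc_add (swg.enc h2) (enc_rat _ 1 2)) (cv1m.enc h2))))) (enc_norm (enc_sub (enc_add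 (enc_add (enc_mul (enc_norm (enc_mul (enc_norm (enc_sub (rkfq1_38.enc h1 h2 h3) (rkfq1_44.enc h1 h2 h3))) (enc_norm (rkfq1_46.enc h1 h2 h3)))) (enc_inv (enc_sub (rkfq1_46.enc h1 h2 h3) (rkfq1_44.enc h1 h2 h3)))) (enc_mul (enc_norm (enc_sub (enc_half (rkfq1_37.enc h1 h2 h3)) (enc_mul (enc_scale 3 4 (enc_sq (enc_norm (rkfq1_37.enc h1 h2 h3)))) (enc_inv (rkfq1_38.enc h1 h2 h3))))) (enc_inv (enc_nat 2 (esg.enc (enc_norm (rkfq1_37.enc h1 h2 h3))))))) (enc_mul (kcg.enc (enc_norm (enc_sub (enc_scale 3 4 (rkfq1_37.enc h1 h2 h3)) (enc_half (rkfq1_38.enc h1 h2 h3)))) h3) (enc_norm (rkfq1_37.enc h1 h2 h3)))) (kf1q1.enc h2 h3))))) (rkfq1_35.enc h1 h2 h3))) (enc_case (enc_sub h1 (cv3m.enc h2)) (enc_add (enc_mul h1 (bf3q1.enc h2 h3)) (enc_mul (enc_norm (enc_sub (enc_pnc _ 1) (lm2m.enc h1 h2))) (enc_norm (enc_sub (kf2q1.enc h2 h3) (enc_mul (cv2m.enc h2) (bf3q1.enc h2 h3)))))) (enc_add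 (kf3q1.enc h2 h3) (enc_mul (lm3m.enc h1 h2) (enc_norm (enc_sub (kf4q1.enc h2 h3) (kf3q1.enc h2 h3))))))))⟩
noncomputable def rsfq1 : Fn3 := ⟨_, _, fun h1 h2 h3 => (enc_case h1 (enc_neg (rkfq1.enc (enc_neg h1) h2 h3)) (rkfq1.enc h1 h2 h3))⟩
noncomputable def lm3p : Fn2 := ⟨_, _, fun h1 h2 => (enc_lam (enc_norm (enc_sub h1 (cv3p.enc h2))) (enc_sub (c3g.enc h2) (cv3p.enc h2)))⟩
noncomputable def lm2p : Fn2 := ⟨_, _, fun h1 h2 => (enc_lam (enc_norm (enc_sub h1 (cv2p.enc h2))) (enc_sub (cv3p.enc h2) (cv2p.enc h2)))⟩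
noncomputable def bf2q2_3 : Fn2 := ⟨_, _, fun h1 h2 => (enc_subr 13 32 h2)⟩
noncomputable def bf2q2 : Fn2 := ⟨_, _, fun h1 h2 => (enc_norm (enc_case (enc_subr 45 32 h1) (enc_case (enc_subr 11 10 h1) (enc_case (enc_subr 103 100 h1) (enc_add (enc_sub (enc_rat _ 294899 150000) (enc_scale 6059 6000 h1)) (enc_mul (enc_norm (bf2q2_3.enc h1 h2)) (enc_norm (enc_sub (enc_rat _ 175807 100000) (enc_scale 1689 1000 h1))))) (enc_case (enc_subr 53 50 h1) (enc_add (enc_sub (enc_rat _ 2949299 1500000) (enc_scale 30301 30000 h1)) (enc_mul (enc_norm (bf2q2_3.enc h1 h2)) (enc_norm (enc_sub (enc_rat _ 87749 50000) (enc_scale 843 500 h1))))) (enc_add (enc_sub (enc_rat _ 3932699 2000000) (enc_scale 40407 40000 h1)) (enc_mul (enc_norm (bf2q2_3.enc h1 h2)) (enc_norm (enc_sub (enc_rat _ 350201 200000) (enc_scale 6729 4000 h1))))))) (enc_case (enc_subr 29 25 h1) (enc_add (enc_sub (enc_rat _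 1966487 1000000) (enc_scale 10103 10000 h1)) (enc_mul (enc_norm (bf2q2_3.enc h1 h2)) (enc_norm (enc_sub (enc_rat _ 174633 100000) (enc_scale 839 500 h1))))) (enc_case (enc_subr 5 4 h1) (enc_add (enc_sub (enc_rat _ 1966719 1000000) (enc_scale 2021 2000 h1)) (enc_mul (enc_norm (bf2q2_3.enc h1 h2)) (enc_norm (enc_sub (enc_rat _ 1567289 900000) (enc_scale 1883 1125 h1))))) (enc_add (enc_sub (enc_rat _ 737574089 375000000) (enc_scale 473726339 468750000 h1)) (enc_mul (enc_norm (bf2q2_3.enc h1 h2)) (enc_norm (enc_sub (enc_rat _ 325597 187500) (enc_scale 3130961 1875000 h1)))))))) (enc_add (enc_subr 3114392549 156250000 (enc_scale 4295678607 312500000 h1)) (enc_mul (enc_norm (bf2q2_3.enc h1 h2)) (enc_norm (enc_subr 441668727 62500000 (enc_scale 147232909 31250000 h1)))))))⟩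
noncomputable def lm1p : Fn2 := ⟨_, _, fun h1 h2 => (enc_lam (enc_norm (enc_sub h1 (cv1p.enc h2))) (enc_sub (cv2p.enc h2) (cv1p.enc h2)))⟩
noncomputable def kf1q2 : Fn2 := ⟨_, _, fun h1 h2 => (enc_norm (enc_mul (cv1p.enc h1) (bf1q2.enc h1 h2)))⟩
noncomputable def kf0q2 : Fn2 := ⟨_, _, fun h1 h2 => (enc_norm (enc_add (c1g.enc h1) (enc_mul (enc_norm (enc_subn 1 h1)) (kcg.enc (enc_neg (c1g.enc h1)) h2))))⟩
noncomputable def lm0p : Fn2 := ⟨_, _, fun h1 h2 => (enc_lam (enc_norm (enc_sub h1 (c1g.enc h2))) (enc_sub (cv1p.enc h2) (c1g.enc h2)))⟩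
noncomputable def n0b : Fn2 := ⟨_, _, fun h1 h2 => (enc_norm (enc_sub (enc_pnc _ 1) (enc_mul (enc_norm (enc_subn 1 h1)) (enc_norm (enc_subr 5659 35000 (enc_scale 4749 3500 (enc_subr 13 32 h2)))))))⟩
noncomputable def rkfq2_35 : Fn3 := ⟨_, _, fun h1 h2 h3 => (enc_add (enc_mul h1 (bf2q2.enc h2 h3)) (enc_mul (enc_norm (enc_mul (enc_norm (enc_sub (enc_pnc _ 1) (lm1p.enc h1 h2))) (cv1p.enc h2))) (enc_norm (enc_sub (bf1q2.enc h2 h3) (bf2q2.enc h2 h3)))))⟩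
noncomputable def rkfq2_36 : Fn3 := ⟨_, _, fun h1 h2 h3 => (enc_subn 1 h2)⟩
noncomputable def rkfq2_37 : Fn3 := ⟨_, _, fun h1 h2 h3 => (gsg.enc (enc_norm (rkfq2_36.enc h1 h2 h3)))⟩
noncomputable def rkfq2_43 : Fn3 := ⟨_, _, fun h1 h2 h3 => (enc_scale 3 2 (rkfq2_36.enc h1 h2 h3))⟩
noncomputable def rkfq2_45 : Fn3 := ⟨_, _, fun h1 h2 h3 => (enc_add (enc_pnc _ 1) (rkfq2_37.enc h1 h2 h3))⟩
noncomputable def rkfq2_67 : Fn3 := ⟨_, _, fun h1 h2 h3 => (enc_sub h1 (cv1p.enc h2))⟩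
noncomputable def rkfq2_84 : Fn3 := ⟨_, _, fun h1 h2 h3 => (enc_mul h1 (bf1q2.enc h2 h3))⟩
noncomputable def rkfq2_86 : Fn3 := ⟨_, _, fun h1 h2 h3 => (enc_sub (enc_pnc _ 1) (lm0p.enc h1 h2))⟩
noncomputable def rkfq2 : Fn3 := ⟨_, _, fun h1 h2 h3 => (enc_case (rkfq2_67.enc h1 h2 h3) (enc_case (enc_subr 577 500 h2) (enc_add (rkfq2_84.enc h1 h2 h3) (enc_mul (enc_norm (rkfq2_86.enc h1 h2 h3)) (enc_norm (enc_sub (kf0q2.enc h2 h3) (enc_mul (c1g.enc h2) (bf1q2.enc h2 h3)))))) (enc_case (enc_subr 2887 2500 h2) (enc_add (rkfq2_84.enc h1 h2 h3) (enc_mul (enc_norm (rkfq2_86.enc h1 h2 h3)) (enc_norm (enc_mul (c1g.enc h2) (enc_norm (enc_sub (n0b.enc h2 h3) (bf1q2.enc h2 h3))))))) (rkfq2_84.enc h1 h2 h3))) (enc_case (enc_sub h1 (cv2p.enc h2)) (enc_case (enc_subr 43 32 h2) (rkfq2_35.enc h1 h2 h3) (enc_case (enc_subr 47 32 h2) (enc_add (kf1q2.enc h2 h3) (enc_mul (enc_norm (enc_mul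 (enc_norm (rkfq2_67.enc h1 h2 h3)) (enc_inv (enc_sub (enc_subr 1 2 (swg.enc h2)) (cv1p.enc h2))))) (enc_norm (enc_sub (enc_add (enc_sub (enc_mul (enc_norm (enc_mul (enc_norm (enc_sub (rkfq2_37.enc h1 h2 h3) (rkfq2_43.enc h1 h2 h3))) (enc_norm (rkfq2_45.enc h1 h2 h3)))) (enc_inv (enc_sub (rkfq2_45.enc h1 h2 h3) (rkfq2_43.enc h1 h2 h3)))) (enc_mul (enc_norm (enc_sub (enc_half (rkfq2_36.enc h1 h2 h3)) (enc_mul (enc_scale 3 4 (enc_sq (enc_norm (rkfq2_36.enc h1 h2 h3)))) (enc_inv (rkfq2_37.enc h1 h2 h3))))) (enc_inv (enc_nat 2 (esg.enc (enc_norm (rkfq2_36.enc h1 h2 h3))))))) (enc_mul (kcg.enc (enc_norm (enc_sub (enc_scale 3 4 (rkfq2_36.enc h1 h2 h3)) (enc_half (rkfq2_37.enc h1 h2 h3)))) h3) (enc_norm (rkfq2_36.enc h1 h2 h3)))) (kf1q2.enc h2 h3))))) (rkfq2_35.enc h1 h2 h3))) (enc_case (enc_sub h1 (cv3p.enc h2)) (enc_add (enc_mul h1 (bf3q2.enc h2 h3)) (enc_mul (enc_norm (enc_sub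 (enc_pnc _ 1) (lm2p.enc h1 h2))) (enc_norm (enc_sub (kf2q2.enc h2 h3) (enc_mul (cv2p.enc h2) (bf3q2.enc h2 h3)))))) (enc_add (kf3q2.enc h2 h3) (enc_mul (lm3p.enc h1 h2) (enc_norm (enc_sub (kf4q2.enc h2 h3) (kf3q2.enc h2 h3))))))))⟩
noncomputable def rsfq2 : Fn3 := ⟨_, _, fun h1 h2 h3 => (enc_case h1 (enc_neg (rkfq2.enc (enc_neg h1) h2 h3)) (rkfq2.enc h1 h2 h3))⟩
noncomputable def cv2r : Fn1 := ⟨_, _, fun h1 => (enc_norm (enc_add (enc_scale 17 20 (enc_subr 1 2 (swg.enc h1))) (enc_scale 3 20 (c3g.enc h1))))⟩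
noncomputable def cv3r : Fn1 := ⟨_, _, fun h1 => (enc_norm (enc_add (enc_half (enc_subr 1 2 (swg.enc h1))) (enc_half (c3g.enc h1))))⟩
noncomputable def kf3q3 : Fn2 := ⟨_, _, fun h1 h2 => (enc_norm (enc_mul (cv3r.enc h1) (bf3q3.enc h1 h2)))⟩
noncomputable def kf4q3 : Fn2 := ⟨_, _, fun h1 h2 => (enc_norm (enc_sub (enc_mul (enc_norm (enc_subn 2 h1)) (kcg.enc (enc_norm (enc_sub (enc_scale 1 4 h1) (enc_half (c3g.enc h1)))) h2)) (enc_mul (enc_norm (enc_mul (enc_norm (enc_sub (enc_nat 2 (c3g.enc h1)) h1)) (enc_norm (enc_sub (enc_add (c3g.enc h1) (enc_pnc _ 3)) (enc_scale 3 2 h1))))) (enc_inv (enc_nat 4 (enc_subn 1 h1))))))⟩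
noncomputable def lm3r : Fn2 := ⟨_, _, fun h1 h2 => (enc_lam (enc_norm (enc_sub h1 (cv3r.enc h2))) (enc_sub (c3g.enc h2) (cv3r.enc h2)))⟩
noncomputable def lm2r : Fn2 := ⟨_, _, fun h1 h2 => (enc_lam (enc_norm (enc_sub h1 (cv2r.enc h2))) (enc_sub (cv3r.enc h2) (cv2r.enc h2)))⟩
noncomputable def lm1r : Fn2 := ⟨_, _, fun h1 h2 => (enc_lam (enc_norm (enc_sub h1 (cv1r.enc h2))) (enc_sub (cv2r.enc h2) (cv1r.enc h2)))⟩
noncomputable def rkfq3 : Fn3 := ⟨_, _, fun h1 h2 h3 => (enc_case (enc_sub h1 (cv1r.enc h2)) (enc_mul h1 (bf1q3.enc h2 h3)) (enc_case (enc_sub h1 (cv2r.enc h2)) (enc_add (enc_mul h1 (bf2q3.enc h2 h3)) (enc_mul (enc_norm (enc_mul (enc_norm (enc_sub (enc_pnc _ 1) (lm1r.enc h1 h2))) (cv1r.enc h2))) (enc_norm (enc_sub (bf1q3.enc h2 h3) (bf2q3.enc h2 h3))))) (enc_case (enc_sub h1 (cv3r.enc h2)) (enc_add (enc_mul h1 (bf3q3.enc h2 h3)) (enc_mul (enc_norm (enc_mul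 (enc_norm (enc_sub (enc_pnc _ 1) (lm2r.enc h1 h2))) (cv2r.enc h2))) (enc_norm (enc_sub (bf2q3.enc h2 h3) (bf3q3.enc h2 h3))))) (enc_add (kf3q3.enc h2 h3) (enc_mul (lm3r.enc h1 h2) (enc_norm (enc_sub (kf4q3.enc h2 h3) (kf3q3.enc h2 h3))))))))⟩
noncomputable def rsfq3 : Fn3 := ⟨_, _, fun h1 h2 h3 => (enc_case h1 (enc_neg (rkfq3.enc (enc_neg h1) h2 h3)) (rkfq3.enc h1 h2 h3))⟩
noncomputable def rxq0 : Fn3 := ⟨_, _, fun h1 h2 h3 => (enc_case (enc_sub h1 (cv1m.enc h2)) (enc_add (enc_mul h1 (bx1q0.enc h2 h3)) (enc_mul (enc_norm (enc_sub (enc_pnc _ 1) (lm0m.enc h1 h2))) (enc_norm (enc_sub (l0q0.enc h2 h3) (enc_mul (c1g.enc h2) (bx1q0.enc h2 h3)))))) (enc_case (enc_sub h1 (cv2m.enc h2)) (enc_add (enc_mul h1 (bx2q0.enc h2 h3)) (enc_mul (enc_norm (enc_mul (enc_norm (enc_sub (enc_pnc _ 1) (lm1m.enc h1 h2))) (cv1m.enc h2))) (enc_norm (enc_sub (bx1q0.enc h2 h3) (bx2q0.enc h2 h3)))))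 (enc_case (enc_sub h1 (cv3m.enc h2)) (enc_add (enc_mul h1 (bx3q0.enc h2 h3)) (enc_mul (enc_norm (enc_mul (enc_norm (enc_sub (enc_pnc _ 1) (lm2m.enc h1 h2))) (cv2m.enc h2))) (enc_norm (enc_sub (bx2q0.enc h2 h3) (bx3q0.enc h2 h3))))) (enc_add (l3q0.enc h2 h3) (enc_mul (lm3m.enc h1 h2) (enc_norm (enc_sub (l4q0.enc h2 h3) (l3q0.enc h2 h3))))))))⟩
noncomputable def rlq0 : Fn3 := ⟨_, _, fun h1 h2 h3 => (enc_case h1 (enc_neg (rxq0.enc (enc_neg h1) h2 h3)) (rxq0.enc h1 h2 h3))⟩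
noncomputable def bx2q1_3 : Fn2 := ⟨_, _, fun h1 h2 => (enc_subr 13 32 h2)⟩
noncomputable def bx2q1_17 : Fn2 := ⟨_, _, fun h1 h2 => (enc_sq (enc_norm (bx2q1_3.enc h1 h2)))⟩
noncomputable def bx2q1 : Fn2 := ⟨_, _, fun h1 h2 => (enc_norm (enc_case (enc_subr 19 32 h1) (enc_add (enc_add (enc_add (enc_scale 477957 312500000 h1) (enc_rat _ 28694543 625000000)) (enc_mul (enc_norm (bx2q1_3.enc h1 h2)) (enc_norm (enc_sub (enc_rat _ 1297171 15625000) (enc_scale 4064309 31250000 h1))))) (enc_mul (bx2q1_17.enc h1 h2) (enc_norm (enc_sub (enc_rat _ 12054 15625) (enc_scale 24108 15625 h1))))) (enc_case (enc_subr 4 5 h1) (enc_case (enc_subr 7 10 h1) (enc_add (enc_add (enc_sub (enc_rat _ 72797433 625000000) (enc_scale 14853577 109375000 h1)) (enc_mul (enc_norm (bx2q1_3.enc h1 h2)) (enc_norm (enc_sub (enc_rat _ 7785477 62500000) (enc_scale 7707977 43750000 h1))))) (enc_mul (bx2q1_17.enc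 h1 h2) (enc_norm (enc_subr 24529 12500 (enc_scale 24529 8750 h1))))) (enc_add (enc_sub (enc_rat _ 55279 500000) (enc_scale 2547 20000 h1)) (enc_mul (enc_norm (bx2q1_3.enc h1 h2)) (enc_norm (enc_subr 239 50000 (enc_scale 43 5000 h1)))))) (enc_case (enc_subr 7 8 h1) (enc_add (enc_sub (enc_rat _ 23779 500000) (enc_scale 243 5000 h1)) (enc_mul (enc_norm (bx2q1_3.enc h1 h2)) (enc_norm (enc_sub (enc_rat _ 239 30000) (enc_scale 11 1500 h1))))) (enc_case (enc_subr 19 20 h1) (enc_add (enc_sub (enc_rat _ 3787 93750) (enc_scale 3031 75000 h1)) (enc_mul (enc_norm (bx2q1_3.enc h1 h2)) (enc_norm (enc_sub (enc_rat _ 709 60000) (enc_scale 22 1875 h1))))) (enc_add (enc_sub (enc_rat _ 1001 25000) (enc_scale 1001 25000 h1)) (enc_mul (enc_norm (bx2q1_3.enc h1 h2)) (enc_norm (enc_sub (enc_rat _ 67 5000) (enc_scale 67 5000 h1))))))))))⟩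
noncomputable def rxq1_35 : Fn3 := ⟨_, _, fun h1 h2 h3 => (enc_add (enc_mul h1 (bx2q1.enc h2 h3)) (enc_mul (enc_norm (enc_mul (enc_norm (enc_sub (enc_pnc _ 1) (lm1m.enc h1 h2))) (cv1m.enc h2))) (enc_norm (enc_sub (bx1q1.enc h2 h3) (bx2q1.enc h2 h3)))))⟩
noncomputable def rxq1_37 : Fn3 := ⟨_, _, fun h1 h2 h3 => (enc_sub (enc_pnc _ 1) h2)⟩
noncomputable def rxq1_54 : Fn3 := ⟨_, _, fun h1 h2 h3 => (enc_sub h1 (cv1m.enc h2))⟩
noncomputable def rxq1 : Fn3 := ⟨_, _, fun h1 h2 h3 => (enc_case (rxq1_54.enc h1 h2 h3) (enc_add (enc_mul h1 (bx1q1.enc h2 h3)) (enc_mul (enc_norm (enc_sub (enc_pnc _ 1) (lm0m.enc h1 h2))) (enc_norm (enc_sub (l0q1.enc h2 h3) (enc_mul (c1g.enc h2) (bx1q1.enc h2 h3)))))) (enc_case (enc_sub h1 (cv2m.enc h2)) (enc_case (enc_subr 17 32 h2) (rxq1_35.enc h1 h2 h3) (enc_case (enc_subr 21 32 h2) (enc_add (l1q1.enc h2 h3) (enc_mul (enc_norm (enc_mul (enc_norm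 (rxq1_54.enc h1 h2 h3)) (enc_inv (enc_sub (enc_add (swg.enc h2) (enc_rat _ 1 2)) (cv1m.enc h2))))) (enc_norm (enc_sub (enc_sub (qsg.enc (enc_norm (rxq1_37.enc h1 h2 h3))) (enc_mul (enc_norm (enc_nat 2 (enc_sub (rxq1_37.enc h1 h2 h3) h3))) (enc_norm (enc_mul (esg.enc (enc_norm (rxq1_37.enc h1 h2 h3))) (kcg.enc (enc_norm (enc_sub (enc_scale 3 4 (rxq1_37.enc h1 h2 h3)) (enc_half (gsg.enc (enc_norm (rxq1_37.enc h1 h2 h3)))))) h3))))) (l1q1.enc h2 h3))))) (rxq1_35.enc h1 h2 h3))) (enc_case (enc_sub h1 (cv3m.enc h2)) (enc_add (enc_mul h1 (bx3q1.enc h2 h3)) (enc_mul (enc_norm (enc_sub (enc_pnc _ 1) (lm2m.enc h1 h2))) (enc_norm (enc_sub (l2q1.enc h2 h3) (enc_mul (cv2m.enc h2) (bx3q1.enc h2 h3)))))) (enc_add (l3q1.enc h2 h3) (enc_mul (lm3m.enc h1 h2) (enc_norm (enc_sub (l4q1.enc h2 h3) (l3q1.enc h2 h3))))))))⟩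
noncomputable def rlq1 : Fn3 := ⟨_, _, fun h1 h2 h3 => (enc_case h1 (enc_neg (rxq1.enc (enc_neg h1) h2 h3)) (rxq1.enc h1 h2 h3))⟩
noncomputable def bx2q2_3 : Fn2 := ⟨_, _, fun h1 h2 => (enc_subr 13 32 h2)⟩
noncomputable def bx2q2_80 : Fn2 := ⟨_, _, fun h1 h2 => (enc_sq (enc_norm (bx2q2_3.enc h1 h2)))⟩
noncomputable def bx2q2 : Fn2 := ⟨_, _, fun h1 h2 => (enc_norm (enc_case (enc_subr 45 32 h1) (enc_case (enc_subr 11 10 h1) (enc_case (enc_subr 103 100 h1) (enc_add (enc_subr 101459 3000000 (enc_scale 631 15000 h1)) (enc_mul (enc_norm (bx2q2_3.enc h1 h2)) (enc_norm (enc_sub (enc_rat _ 111641 300000) (enc_scale 7 24 h1))))) (enc_case (enc_subr 53 50 h1) (enc_add (enc_subr 28051 500000 (enc_scale 637 10000 h1)) (enc_mul (enc_norm (bx2q2_3.enc h1 h2)) (enc_norm (enc_sub (enc_rat _ 14689 37500) (enc_scale 233 750 h1))))) (enc_add (enc_subr 2927 50000 (enc_scale 33 500 h1))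 (enc_mul (enc_norm (bx2q2_3.enc h1 h2)) (enc_norm (enc_sub (enc_rat _ 46043 100000) (enc_scale 751 2000 h1))))))) (enc_case (enc_subr 29 25 h1) (enc_add (enc_subr 35267 600000 (enc_scale 3973 60000 h1)) (enc_mul (enc_norm (bx2q2_3.enc h1 h2)) (enc_norm (enc_sub (enc_rat _ 178609 300000) (enc_scale 2989 6000 h1))))) (enc_case (enc_subr 5 4 h1) (enc_add (enc_subr 462449 3000000 (enc_scale 4453 30000 h1)) (enc_mul (enc_norm (bx2q2_3.enc h1 h2)) (enc_norm (enc_sub (enc_rat _ 22781 36000) (enc_scale 2387 4500 h1))))) (enc_add (enc_add (enc_subr 463553 1000000 (enc_scale 98989 250000 h1)) (enc_mul (enc_norm (bx2q2_3.enc h1 h2)) (enc_norm (enc_sub (enc_rat _ 494491 15000000) (enc_scale 948241 18750000 h1))))) (enc_mul (bx2q2_80.enc h1 h2) (enc_norm (enc_sub (enc_rat _ 111751 18750) (enc_scale 223502 46875 h1)))))))) (enc_add (enc_add (enc_subr 25694873 312500000 (enc_scale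 24234541 156250000 h1)) (enc_mul (enc_norm (bx2q2_3.enc h1 h2)) (enc_norm (enc_subr 296226661 62500000 (enc_scale 49587881 15625000 h1))))) (enc_mul (bx2q2_80.enc h1 h2) (enc_norm (enc_subr 538713 62500 (enc_scale 179571 31250 h1)))))))⟩
noncomputable def l1q2 : Fn2 := ⟨_, _, fun h1 h2 => (enc_norm (enc_mul (cv1p.enc h1) (bx1q2.enc h1 h2)))⟩
noncomputable def l0q2_7 : Fn2 := ⟨_, _, fun h1 h2 => (enc_scale 3 4 h1)⟩
noncomputable def l0q2_8 : Fn2 := ⟨_, _, fun h1 h2 => (enc_half (c1g.enc h1))⟩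
noncomputable def l0q2 : Fn2 := ⟨_, _, fun h1 h2 => (enc_norm (enc_sub (txg.enc (enc_neg (c1g.enc h1)) (enc_norm (enc_add (l0q2_7.enc h1 h2) (l0q2_8.enc h1 h2))) h2) (txg.enc (c1g.enc h1) (enc_norm (enc_sub (l0q2_7.enc h1 h2) (l0q2_8.enc h1 h2))) h2)))⟩
noncomputable def n0x : Fn2 := ⟨_, _, fun h1 h2 => (enc_norm (enc_sub (enc_rat _ 397 35000) (enc_scale 313 3500 (enc_subr 13 32 h2))))⟩
noncomputable def rxq2_35 : Fn3 := ⟨_, _, fun h1 h2 h3 => (enc_add (enc_mul h1 (bx2q2.enc h2 h3)) (enc_mul (enc_norm (enc_mul (enc_norm (enc_sub (enc_pnc _ 1) (lm1p.enc h1 h2))) (cv1p.enc h2))) (enc_norm (enc_sub (bx1q2.enc h2 h3) (bx2q2.enc h2 h3)))))⟩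
noncomputable def rxq2_36 : Fn3 := ⟨_, _, fun h1 h2 h3 => (enc_subn 1 h2)⟩
noncomputable def rxq2_54 : Fn3 := ⟨_, _, fun h1 h2 h3 => (enc_sub h1 (cv1p.enc h2))⟩
noncomputable def rxq2_71 : Fn3 := ⟨_, _, fun h1 h2 h3 => (enc_mul h1 (bx1q2.enc h2 h3))⟩
noncomputable def rxq2_73 : Fn3 := ⟨_, _, fun h1 h2 h3 => (enc_sub (enc_pnc _ 1) (lm0p.enc h1 h2))⟩
noncomputable def rxq2 : Fn3 := ⟨_, _, fun h1 h2 h3 => (enc_case (rxq2_54.enc h1 h2 h3) (enc_case (enc_subr 577 500 h2) (enc_add (rxq2_71.enc h1 h2 h3) (enc_mul (enc_norm (rxq2_73.enc h1 h2 h3)) (enc_norm (enc_sub (l0q2.enc h2 h3) (enc_mul (c1g.enc h2) (bx1q2.enc h2 h3)))))) (enc_case (enc_subr 2887 2500 h2) (enc_add (rxq2_71.enc h1 h2 h3) (enc_mul (enc_norm (rxq2_73.enc h1 h2 h3)) (enc_norm (enc_mul (c1g.enc h2) (enc_norm (enc_sub (n0x.enc h2 h3) (bx1q2.enc h2 h3))))))) (rxq2_71.enc h1 h2 h3))) (enc_case (enc_sub h1 (cv2p.enc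 h2)) (enc_case (enc_subr 43 32 h2) (rxq2_35.enc h1 h2 h3) (enc_case (enc_subr 47 32 h2) (enc_add (l1q2.enc h2 h3) (enc_mul (enc_norm (enc_mul (enc_norm (rxq2_54.enc h1 h2 h3)) (enc_inv (enc_sub (enc_subr 1 2 (swg.enc h2)) (cv1p.enc h2))))) (enc_norm (enc_sub (enc_sub (qsg.enc (enc_norm (rxq2_36.enc h1 h2 h3))) (enc_mul (enc_norm (enc_nat 2 (enc_sub (rxq2_36.enc h1 h2 h3) h3))) (enc_norm (enc_mul (esg.enc (enc_norm (rxq2_36.enc h1 h2 h3))) (kcg.enc (enc_norm (enc_sub (enc_scale 3 4 (rxq2_36.enc h1 h2 h3)) (enc_half (gsg.enc (enc_norm (rxq2_36.enc h1 h2 h3)))))) h3))))) (l1q2.enc h2 h3))))) (rxq2_35.enc h1 h2 h3))) (enc_case (enc_sub h1 (cv3p.enc h2)) (enc_add (enc_mul h1 (bx3q2.enc h2 h3)) (enc_mul (enc_norm (enc_sub (enc_pnc _ 1) (lm2p.enc h1 h2))) (enc_norm (enc_sub (l2q2.enc h2 h3) (enc_mul (cv2p.enc h2) (bx3q2.enc h2 h3)))))) (enc_add (l3q2.enc h2 h3) (enc_mul (lm3p.enc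 h1 h2) (enc_norm (enc_sub (l4q2.enc h2 h3) (l3q2.enc h2 h3))))))))⟩
noncomputable def rlq2 : Fn3 := ⟨_, _, fun h1 h2 h3 => (enc_case h1 (enc_neg (rxq2.enc (enc_neg h1) h2 h3)) (rxq2.enc h1 h2 h3))⟩
noncomputable def l3q3 : Fn2 := ⟨_, _, fun h1 h2 => (enc_norm (enc_mul (cv3r.enc h1) (bx3q3.enc h1 h2)))⟩
noncomputable def l4q3_7 : Fn2 := ⟨_, _, fun h1 h2 => (enc_half (c3g.enc h1))⟩
noncomputable def l4q3_8 : Fn2 := ⟨_, _, fun h1 h2 => (enc_scale 1 4 h1)⟩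
noncomputable def l4q3_9 : Fn2 := ⟨_, _, fun h1 h2 => (enc_sub (l4q3_7.enc h1 h2) (l4q3_8.enc h1 h2))⟩
noncomputable def l4q3_12 : Fn2 := ⟨_, _, fun h1 h2 => (enc_add (enc_scale 1 4 (c3g.enc h1)) (enc_scale 3 8 h1))⟩
noncomputable def l4q3_14 : Fn2 := ⟨_, _, fun h1 h2 => (enc_half (l4q3_9.enc h1 h2))⟩
noncomputable def l4q3 : Fn2 := ⟨_, _, fun h1 h2 => (enc_norm (enc_sub (enc_nat 2 (txg.enc (enc_norm (enc_sub (l4q3_8.enc h1 h2) (l4q3_7.enc h1 h2))) (enc_norm (enc_add (l4q3_12.enc h1 h2) (l4q3_14.enc h1 h2))) h2)) (txg.enc (enc_norm (l4q3_9.enc h1 h2)) (enc_norm (enc_sub (l4q3_12.enc h1 h2) (l4q3_14.enc h1 h2))) h2)))⟩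
noncomputable def rxq3 : Fn3 := ⟨_, _, fun h1 h2 h3 => (enc_case (enc_sub h1 (cv1r.enc h2)) (enc_mul h1 (bx1q3.enc h2 h3)) (enc_case (enc_sub h1 (cv2r.enc h2)) (enc_add (enc_mul h1 (bx2q3.enc h2 h3)) (enc_mul (enc_norm (enc_mul (enc_norm (enc_sub (enc_pnc _ 1) (lm1r.enc h1 h2))) (cv1r.enc h2))) (enc_norm (enc_sub (bx1q3.enc h2 h3) (bx2q3.enc h2 h3))))) (enc_case (enc_sub h1 (cv3r.enc h2)) (enc_add (enc_mul h1 (bx3q3.enc h2 h3)) (enc_mul (enc_norm (enc_mul (enc_norm (enc_sub (enc_pnc _ 1) (lm2r.enc h1 h2))) (cv2r.enc h2))) (enc_norm (enc_sub (bx2q3.enc h2 h3) (bx3q3.enc h2 h3))))) (enc_add (l3q3.enc h2 h3) (enc_mul (lm3r.enc h1 h2) (enc_norm (enc_sub (l4q3.enc h2 h3) (l3q3.enc h2 h3))))))))⟩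
noncomputable def rlq3 : Fn3 := ⟨_, _, fun h1 h2 h3 => (enc_case h1 (enc_neg (rxq3.enc (enc_neg h1) h2 h3)) (rxq3.enc h1 h2 h3))⟩
noncomputable def mug3 : Fn1 := ⟨_, _, fun h1 => (enc_inv (enc_add (enc_nat 2 (gsg.enc h1)) (enc_pnc _ 3)))⟩
noncomputable def gug : Fn1 := ⟨_, _, fun h1 => (enc_norm (enc_add (enc_scale 3 4 h1) (enc_scale 3 2 (enc_sub (enc_pnc _ 1) (gsg.enc h1)))))⟩
noncomputable def kug_2 : Fn1 := ⟨_, _, fun h1 => (enc_sq h1)⟩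
noncomputable def kug : Fn1 := ⟨_, _, fun h1 => (enc_norm (enc_add (enc_add (enc_scale 3 4 h1) (enc_scale 3 2 (kug_2.enc h1))) (enc_mul (enc_norm (enc_mul (enc_scale 3 4 (kug_2.enc h1)) (enc_inv (gsg.enc h1)))) (gug.enc h1))))⟩
noncomputable def kp0q0_3 : Fn2 := ⟨_, _, fun h1 h2 => (enc_subr 13 32 h2)⟩
noncomputable def kp0q0_8 : Fn2 := ⟨_, _, fun h1 h2 => (enc_sub (enc_scale 3 4 h1) (enc_half (c1g.enc h1)))⟩
noncomputable def kp0q0 : Fn2 := ⟨_, _, fun h1 h2 => (enc_norm (enc_case (enc_add (kp0q0_8.enc h1 h2) (enc_rat _ 61 277)) (enc_mul h1 (enc_norm (enc_add (enc_subr 1568932316757 1550000000000 (enc_neg (enc_scale 7661459966757 775000000000 (kp0q0_8.enc h1 h2)))) (enc_mul (enc_norm (kp0q0_3.enc h1 h2)) (enc_norm (enc_subr 3159689800003 1550000000000 (enc_neg (enc_scale 12394558800003 775000000000 (kp0q0_8.enc h1 h2))))))))) (enc_case (enc_add (kp0q0_8.enc h1 h2)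 (enc_rat _ 59 566)) (enc_sub (kug.enc h1) (enc_mul h1 (enc_norm (enc_mul (kcg.enc (enc_norm (kp0q0_8.enc h1 h2)) h2) (enc_norm (enc_add (gug.enc h1) (enc_nat 2 (c1g.enc h1)))))))) (enc_mul h1 (enc_norm (enc_add (enc_sub (enc_rat _ 701384703541 1140000000000) (enc_scale 5182340523541 570000000000 (kp0q0_8.enc h1 h2))) (enc_mul (enc_norm (kp0q0_3.enc h1 h2)) (enc_norm (enc_subr 733063299977 1140000000000 (enc_neg (enc_scale 6059033900023 570000000000 (kp0q0_8.enc h1 h2))))))))))))⟩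
noncomputable def kn0q0 : Fn2 := ⟨_, _, fun h1 h2 => (enc_norm (enc_add (enc_mul (enc_norm (enc_add (enc_pnc _ 1) (enc_mul (mug3.enc h2) (gug.enc h2)))) (kf0q0.enc h1 h2)) (enc_mul (mug3.enc h2) (kp0q0.enc h1 h2))))⟩
noncomputable def kp0q1_9 : Fn2 := ⟨_, _, fun h1 h2 => (enc_sub (enc_scale 3 4 h1) (enc_half (c1g.enc h1)))⟩
noncomputable def kp0q1 : Fn2 := ⟨_, _, fun h1 h2 => (enc_norm (enc_mul (enc_norm (enc_subn 1 h1)) (enc_norm (enc_add (enc_sub (enc_rat _ 701384703541 1140000000000) (enc_scale 5182340523541 570000000000 (kp0q1_9.enc h1 h2))) (enc_mul (enc_norm (enc_subr 13 32 h2)) (enc_norm (enc_subr 733063299977 1140000000000 (enc_neg (enc_scale 6059033900023 570000000000 (kp0q1_9.enc h1 h2))))))))))⟩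
noncomputable def kn0q1 : Fn2 := ⟨_, _, fun h1 h2 => (enc_norm (enc_add (enc_mul (enc_norm (enc_add (enc_pnc _ 1) (enc_mul (mug3.enc h2) (gug.enc h2)))) (kf0q1.enc h1 h2)) (enc_mul (mug3.enc h2) (kp0q1.enc h1 h2))))⟩
noncomputable def kpc02_4 : Fn2 := ⟨_, _, fun h1 h2 => (enc_subr 13 32 h2)⟩
noncomputable def kpc02 : Fn2 := ⟨_, _, fun h1 h2 => (enc_norm (enc_mul (enc_norm (enc_subn 1 (yag.enc h1))) (enc_norm (enc_case (enc_subr 1 10 h1) (enc_add (enc_scale 31963 5000 h1) (enc_mul (enc_norm (kpc02_4.enc h1 h2)) (enc_scale 331 1000 h1))) (enc_add (enc_subr 734363 4000000 (enc_scale 3291403 400000 h1)) (enc_mul (enc_norm (kpc02_4.enc h1 h2)) (enc_norm (enc_subr 36203 25000 (enc_scale 74061 5000 h1)))))))))⟩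
noncomputable def knc02 : Fn2 := ⟨_, _, fun h1 h2 => (enc_norm (enc_add (enc_mul (enc_norm (enc_add (enc_pnc _ 1) (enc_mul (mug3.enc h2) (gug.enc h2)))) (kfc02.enc h1 h2)) (enc_mul (mug3.enc h2) (kpc02.enc h1 h2))))⟩
noncomputable def bd1q0 : Fn2 := ⟨_, _, fun h1 h2 => (enc_norm (enc_sub (enc_scale 123237 100000 h1) (enc_mul (enc_norm (enc_subr 13 32 h2)) (enc_scale 1 50000 h1))))⟩
noncomputable def kp1q0 : Fn2 := ⟨_, _, fun h1 h2 => (enc_norm (enc_mul (cv1m.enc h1) (bd1q0.enc h1 h2)))⟩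
noncomputable def kn1q0 : Fn2 := ⟨_, _, fun h1 h2 => (enc_norm (enc_add (enc_mul (enc_norm (enc_add (enc_pnc _ 1) (enc_mul (mug3.enc h2) (gug.enc h2)))) (kf1q0.enc h1 h2)) (enc_mul (mug3.enc h2) (kp1q0.enc h1 h2))))⟩
noncomputable def bd1q1_3 : Fn2 := ⟨_, _, fun h1 h2 => (enc_subr 13 32 h2)⟩
noncomputable def bd1q1_22 : Fn2 := ⟨_, _, fun h1 h2 => (enc_scale 13 625 h1)⟩
noncomputable def bd1q1_39 : Fn2 := ⟨_, _, fun h1 h2 => (enc_mul (enc_norm (bd1q1_3.enc h1 h2)) (enc_norm (enc_sub (enc_rat _ 1399 75000) (enc_scale 31 1500 h1))))⟩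
noncomputable def bd1q1 : Fn2 := ⟨_, _, fun h1 h2 => (enc_norm (enc_case (enc_subr 4 5 h1) (enc_case (enc_subr 7 10 h1) (enc_add (enc_subr 13907873 2000000 (enc_scale 1530613 200000 h1)) (enc_mul (enc_norm (bd1q1_3.enc h1 h2)) (enc_norm (enc_sub (enc_rat _ 3773 200000) (enc_scale 419 20000 h1))))) (enc_add (enc_subr 1390781 200000 (enc_scale 382651 50000 h1)) (enc_mul (enc_norm (bd1q1_3.enc h1 h2)) (enc_norm (enc_sub (enc_rat _ 469 25000) (bd1q1_22.enc h1 h2)))))) (enc_case (enc_subr 7 8 h1) (enc_add (enc_subr 20861603 3000000 (enc_scale 573973 75000 h1)) (bd1q1_39.enc h1 h2)) (enc_case (enc_subr 19 20 h1) (enc_add (enc_subr 6953821 1000000 (enc_scale 191323 25000 h1)) (bd1q1_39.enc h1 h2)) (enc_add (enc_subr 3476901 500000 (enc_scale 76529 10000 h1)) (enc_mul (enc_norm (bd1q1_3.enc h1 h2)) (enc_norm (enc_sub (enc_rat _ 939 50000) (bd1q1_22.enc h1 h2)))))))))⟩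
noncomputable def kp1q1 : Fn2 := ⟨_, _, fun h1 h2 => (enc_norm (enc_mul (cv1m.enc h1) (bd1q1.enc h1 h2)))⟩
noncomputable def kn1q1 : Fn2 := ⟨_, _, fun h1 h2 => (enc_norm (enc_add (enc_mul (enc_norm (enc_add (enc_pnc _ 1) (enc_mul (mug3.enc h2) (gug.enc h2)))) (kf1q1.enc h1 h2)) (enc_mul (mug3.enc h2) (kp1q1.enc h1 h2))))⟩
noncomputable def bd1q2_3 : Fn2 := ⟨_, _, fun h1 h2 => (enc_subr 13 32 h2)⟩
noncomputable def bd1q2_14 : Fn2 := ⟨_, _, fun h1 h2 => (enc_scale 331 1000 h1)⟩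
noncomputable def bd1q2_18 : Fn2 := ⟨_, _, fun h1 h2 => (enc_mul (enc_norm (bd1q2_3.enc h1 h2)) (enc_norm (enc_subr 331 1000 (bd1q2_14.enc h1 h2))))⟩
noncomputable def bd1q2_20 : Fn2 := ⟨_, _, fun h1 h2 => (enc_scale 191767 30000 h1)⟩
noncomputable def bd1q2 : Fn2 := ⟨_, _, fun h1 h2 => (enc_norm (enc_case (enc_subr 11 10 h1) (enc_case (enc_subr 53 50 h1) (enc_case (enc_subr 103 100 h1) (enc_add (enc_subr 63921 10000 (enc_scale 63921 10000 h1)) (bd1q2_18.enc h1 h2)) (enc_add (enc_subr 2397089 375000 (bd1q2_20.enc h1 h2)) (enc_mul (enc_norm (bd1q2_3.enc h1 h2)) (enc_norm (enc_subr 99403 300000 (enc_scale 497 1500 h1)))))) (enc_case (enc_subr 107 100 h1) (enc_add (enc_subr 159813 25000 (enc_scale 2557 400 h1)) (enc_mul (enc_norm (bd1q2_3.enc h1 h2)) (enc_norm (enc_subr 33099 100000 (bd1q2_14.enc h1 h2))))) (enc_add (enc_subr 1198651 187500 (enc_scale 191783 30000 h1))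 (enc_mul (enc_norm (bd1q2_3.enc h1 h2)) (enc_norm (enc_subr 99083 300000 (enc_scale 991 3000 h1))))))) (enc_case (enc_subr 231 200 h1) (enc_case (enc_subr 577 500 h1) (enc_add (enc_subr 86306447 13500000 (enc_scale 107882 16875 h1)) (enc_mul (enc_norm (bd1q2_3.enc h1 h2)) (enc_norm (enc_subr 894277 2700000 (enc_scale 4471 13500 h1))))) (enc_add (enc_subr 31963 5000 (enc_scale 31963 5000 h1)) (bd1q2_18.enc h1 h2))) (enc_case (enc_subr 5 4 h1) (enc_add (enc_subr 121453163 19000000 (enc_scale 60727 9500 h1)) (enc_mul (enc_norm (bd1q2_3.enc h1 h2)) (enc_norm (enc_subr 565837 1900000 (enc_scale 5743 19000 h1))))) (enc_case (enc_subr 27 20 h1) (enc_add (enc_subr 12784329 2000000 (enc_scale 639223 100000 h1)) (enc_mul (enc_norm (bd1q2_3.enc h1 h2)) (enc_norm (enc_subr 56471 200000 (enc_scale 2899 10000 h1))))) (enc_add (enc_subr 6392169 1000000 (bd1q2_20.enc h1 h2)) (enc_mul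 (enc_norm (bd1q2_3.enc h1 h2)) (enc_norm (enc_subr 27403 100000 (enc_scale 532 1875 h1))))))))))⟩
noncomputable def kpc12a : Fn2 := ⟨_, _, fun h1 h2 => (enc_norm (enc_mul (enc_norm (enc_add (enc_half h1) (enc_half (enc_subr 1 2 (swg.enc (yag.enc h1)))))) (bd1q2.enc (yag.enc h1) h2)))⟩
noncomputable def knc12a : Fn2 := ⟨_, _, fun h1 h2 => (enc_norm (enc_add (enc_mul (enc_norm (enc_add (enc_pnc _ 1) (enc_mul (mug3.enc h2) (gug.enc h2)))) (kfc12a.enc h1 h2)) (enc_mul (mug3.enc h2) (kpc12a.enc h1 h2))))⟩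
noncomputable def kpc12b : Fn2 := ⟨_, _, fun h1 h2 => (enc_norm (enc_mul (enc_norm (enc_half (enc_subr 1 2 (swg.enc h1)))) (bd1q2.enc h1 h2)))⟩
noncomputable def knc12b : Fn2 := ⟨_, _, fun h1 h2 => (enc_norm (enc_add (enc_mul (enc_norm (enc_add (enc_pnc _ 1) (enc_mul (mug3.enc h2) (gug.enc h2)))) (kfc12b.enc h1 h2)) (enc_mul (mug3.enc h2) (kpc12b.enc h1 h2))))⟩
noncomputable def bd1q3 : Fn2 := ⟨_, _, fun h1 h2 => (enc_norm (enc_add (enc_subr 27402723 1000000 (enc_scale 59181 4000 h1)) (enc_mul (enc_norm (enc_subr 13 32 h2)) (enc_norm (enc_subr 3 100000 (enc_scale 1 50000 h1))))))⟩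
noncomputable def kp1q3 : Fn2 := ⟨_, _, fun h1 h2 => (enc_norm (enc_mul (cv1r.enc h1) (bd1q3.enc h1 h2)))⟩
noncomputable def kn1q3 : Fn2 := ⟨_, _, fun h1 h2 => (enc_norm (enc_add (enc_mul (enc_norm (enc_add (enc_pnc _ 1) (enc_mul (mug3.enc h2) (gug.enc h2)))) (kf1q3.enc h1 h2)) (enc_mul (mug3.enc h2) (kp1q3.enc h1 h2))))⟩
noncomputable def bd2q0 : Fn2 := ⟨_, _, fun h1 h2 => (enc_norm (enc_add (enc_sub (enc_rat _ 816929 1000000) (enc_scale 1237329 500000 h1)) (enc_mul (enc_norm (enc_subr 13 32 h2)) (enc_norm (enc_sub (enc_rat _ 1 20000) (enc_scale 1 2500 h1))))))⟩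
noncomputable def kp2q0 : Fn2 := ⟨_, _, fun h1 h2 => (enc_norm (enc_mul (cv2m.enc h1) (bd2q0.enc h1 h2)))⟩
noncomputable def kn2q0 : Fn2 := ⟨_, _, fun h1 h2 => (enc_norm (enc_add (enc_mul (enc_norm (enc_add (enc_pnc _ 1) (enc_mul (mug3.enc h2) (gug.enc h2)))) (kf2q0.enc h1 h2)) (enc_mul (mug3.enc h2) (kp2q0.enc h1 h2))))⟩
noncomputable def kp2q1_4 : Fn2 := ⟨_, _, fun h1 h2 => (enc_subr 13 32 h2)⟩
noncomputable def kp2q1_81 : Fn2 := ⟨_, _, fun h1 h2 => (enc_sub (enc_pnc _ 1) h1)⟩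
noncomputable def kp2q1_82 : Fn2 := ⟨_, _, fun h1 h2 => (gsg.enc (enc_norm (kp2q1_81.enc h1 h2)))⟩
noncomputable def kp2q1_86 : Fn2 := ⟨_, _, fun h1 h2 => (esg.enc (enc_norm (kp2q1_81.enc h1 h2)))⟩
noncomputable def kp2q1_94 : Fn2 := ⟨_, _, fun h1 h2 => (enc_mul (enc_scale 3 4 (enc_sq (enc_norm (kp2q1_81.enc h1 h2)))) (enc_inv (kp2q1_82.enc h1 h2)))⟩
noncomputable def kp2q1_119 : Fn2 := ⟨_, _, fun h1 h2 => (enc_mul (cv1m.enc h1) (bd1q1.enc h1 h2))⟩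
noncomputable def kp2q1 : Fn2 := ⟨_, _, fun h1 h2 => (enc_norm (enc_case (enc_subr 17 32 h1) (enc_mul (cv2m.enc h1) (enc_norm (enc_add (enc_sub (enc_rat _ 381358697 125000000) (enc_scale 224365197 62500000 h1)) (enc_mul (enc_norm (kp2q1_4.enc h1 h2)) (enc_norm (enc_subr 62825169 15625000 (enc_scale 251298801 31250000 h1))))))) (enc_case (enc_subr 21 32 h1) (enc_add (kp2q1_119.enc h1 h2) (enc_mul (enc_norm (enc_mul (enc_norm (enc_sub (enc_sub (enc_add (kug.enc (enc_norm (kp2q1_81.enc h1 h2))) (enc_mul (enc_norm (enc_sub (enc_mul (enc_norm (enc_mul (enc_norm (kp2q1_94.enc h1 h2)) (enc_norm (enc_subn 3 (enc_nat 4 (kp2q1_82.enc h1 h2)))))) (kp2q1_86.enc h1 h2)) (enc_mul (qsg.enc (enc_norm (kp2q1_81.enc h1 h2))) (enc_norm (enc_sub (enc_half (kp2q1_81.enc h1 h2)) (kp2q1_94.enc h1 h2)))))) (enc_inv (enc_mul (enc_nat 2 (kp2q1_86.enc h1 h2)) (kp2q1_86.enc h1 h2))))) (enc_mul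 (enc_norm (enc_mul (enc_norm (kp2q1_81.enc h1 h2)) (kcg.enc (enc_norm (enc_sub (enc_scale 3 4 (kp2q1_81.enc h1 h2)) (enc_half (kp2q1_82.enc h1 h2)))) h2))) (enc_norm (enc_add (enc_add (enc_pnc _ 1) (gug.enc (enc_norm (kp2q1_81.enc h1 h2)))) (enc_nat 2 (kp2q1_82.enc h1 h2)))))) (kp2q1_119.enc h1 h2))) (enc_norm (enc_sub (cv2m.enc h1) (cv1m.enc h1))))) (enc_inv (enc_sub (enc_add (swg.enc h1) (enc_rat _ 1 2)) (cv1m.enc h1))))) (enc_mul (cv2m.enc h1) (enc_norm (enc_case (enc_subr 4 5 h1) (enc_case (enc_subr 7 10 h1) (enc_add (enc_sub (enc_rat _ 992741889 625000000) (enc_scale 49616251 31250000 h1)) (enc_mul (enc_norm (kp2q1_4.enc h1 h2)) (enc_norm (enc_sub (enc_rat _ 100312063 62500000) (enc_scale 4443293 2734375 h1))))) (enc_add (enc_sub (enc_rat _ 397291 250000) (enc_scale 158883 100000 h1)) (enc_mul (enc_norm (kp2q1_4.enc h1 h2)) (enc_norm (enc_sub (enc_rat _ 3949 2500)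 (enc_scale 15887 10000 h1)))))) (enc_case (enc_subr 7 8 h1) (enc_add (enc_sub (enc_rat _ 397509 250000) (enc_scale 9937 6250 h1)) (enc_mul (enc_norm (kp2q1_4.enc h1 h2)) (enc_norm (enc_sub (enc_rat _ 29143 18750) (enc_scale 5839 3750 h1))))) (enc_case (enc_subr 19 20 h1) (enc_add (enc_sub (enc_rat _ 2386069 1500000) (enc_scale 59651 37500 h1)) (enc_mul (enc_norm (kp2q1_4.enc h1 h2)) (enc_norm (enc_sub (enc_rat _ 461353 300000) (enc_scale 11537 7500 h1))))) (enc_add (enc_sub (enc_rat _ 39777 25000) (enc_scale 39777 25000 h1)) (enc_mul (enc_norm (kp2q1_4.enc h1 h2)) (enc_norm (enc_sub (enc_rat _ 7649 5000) (enc_scale 7649 5000 h1)))))))))))))⟩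
noncomputable def kn2q1 : Fn2 := ⟨_, _, fun h1 h2 => (enc_norm (enc_add (enc_mul (enc_norm (enc_add (enc_pnc _ 1) (enc_mul (mug3.enc h2) (gug.enc h2)))) (kf2q1.enc h1 h2)) (enc_mul (mug3.enc h2) (kp2q1.enc h1 h2))))⟩
noncomputable def kp2q2_4 : Fn2 := ⟨_, _, fun h1 h2 => (enc_subr 13 32 h2)⟩
noncomputable def kp2q2_12 : Fn2 := ⟨_, _, fun h1 h2 => (enc_subr 1069633 600000 (enc_scale 4307 3000 h1))⟩
noncomputable def kp2q2_89 : Fn2 := ⟨_, _, fun h1 h2 => (enc_subn 1 h1)⟩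
noncomputable def kp2q2_90 : Fn2 := ⟨_, _, fun h1 h2 => (gsg.enc (enc_norm (kp2q2_89.enc h1 h2)))⟩
noncomputable def kp2q2_94 : Fn2 := ⟨_, _, fun h1 h2 => (esg.enc (enc_norm (kp2q2_89.enc h1 h2)))⟩
noncomputable def kp2q2_102 : Fn2 := ⟨_, _, fun h1 h2 => (enc_mul (enc_scale 3 4 (enc_sq (enc_norm (kp2q2_89.enc h1 h2)))) (enc_inv (kp2q2_90.enc h1 h2)))⟩
noncomputable def kp2q2_125 : Fn2 := ⟨_, _, fun h1 h2 => (enc_mul (cv1p.enc h1) (bd1q2.enc h1 h2))⟩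
noncomputable def kp2q2 : Fn2 := ⟨_, _, fun h1 h2 => (enc_norm (enc_case (enc_subr 43 32 h1) (enc_mul (cv2p.enc h1) (enc_norm (enc_case (enc_subr 11 10 h1) (enc_case (enc_subr 103 100 h1) (enc_add (kp2q2_12.enc h1 h2) (enc_mul (enc_norm (kp2q2_4.enc h1 h2)) (enc_norm (enc_subr 65617 25000 (enc_scale 2491 1000 h1))))) (enc_case (enc_subr 53 50 h1) (enc_add (kp2q2_12.enc h1 h2) (enc_mul (enc_norm (kp2q2_4.enc h1 h2)) (enc_norm (enc_subr 262571 100000 (enc_scale 623 250 h1))))) (enc_add (enc_subr 111419 62500 (enc_scale 28713 20000 h1)) (enc_mul (enc_norm (kp2q2_4.enc h1 h2)) (enc_norm (enc_subr 525831 200000 (enc_scale 9981 4000 h1))))))) (enc_case (enc_subr 29 25 h1) (enc_add (enc_subr 2674001 1500000 (enc_scale 86137 60000 h1)) (enc_mul (enc_norm (kp2q2_4.enc h1 h2)) (enc_norm (enc_subr 790589 300000 (enc_scale 3001 1200 h1))))) (enc_case (enc_subr 5 4 h1) (enc_add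 (enc_subr 4010987 2250000 (enc_scale 25841 18000 h1)) (enc_mul (enc_norm (kp2q2_4.enc h1 h2)) (enc_norm (enc_subr 2378437 900000 (enc_scale 4513 1800 h1))))) (enc_add (enc_subr 89137153 50000000 (enc_scale 89729803 62500000 h1)) (enc_mul (enc_norm (kp2q2_4.enc h1 h2)) (enc_norm (enc_subr 99384281 37500000 (enc_scale 117808781 46875000 h1)))))))))) (enc_case (enc_subr 47 32 h1) (enc_add (kp2q2_125.enc h1 h2) (enc_mul (enc_norm (enc_mul (enc_norm (enc_sub (enc_add (enc_sub (kug.enc (enc_norm (kp2q2_89.enc h1 h2))) (enc_mul (enc_norm (enc_sub (enc_mul (enc_norm (enc_mul (enc_norm (kp2q2_102.enc h1 h2)) (enc_norm (enc_subn 3 (enc_nat 4 (kp2q2_90.enc h1 h2)))))) (kp2q2_94.enc h1 h2)) (enc_mul (qsg.enc (enc_norm (kp2q2_89.enc h1 h2))) (enc_norm (enc_sub (enc_half (kp2q2_89.enc h1 h2)) (kp2q2_102.enc h1 h2)))))) (enc_inv (enc_mul (enc_nat 2 (kp2q2_94.enc h1 h2)) (kp2q2_94.enc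 h1 h2))))) (enc_mul (enc_norm (enc_mul (enc_norm (kp2q2_89.enc h1 h2)) (kcg.enc (enc_norm (enc_sub (enc_scale 3 4 (kp2q2_89.enc h1 h2)) (enc_half (kp2q2_90.enc h1 h2)))) h2))) (enc_norm (enc_sub (enc_sub (enc_pnc _ 1) (gug.enc (enc_norm (kp2q2_89.enc h1 h2)))) (enc_nat 2 (kp2q2_90.enc h1 h2)))))) (kp2q2_125.enc h1 h2))) (enc_norm (enc_sub (cv2p.enc h1) (cv1p.enc h1))))) (enc_inv (enc_sub (enc_subr 1 2 (swg.enc h1)) (cv1p.enc h1))))) (enc_mul (cv2p.enc h1) (enc_norm (enc_add (enc_sub (enc_rat _ 39959864449 625000000) (enc_scale 6734347929 156250000 h1)) (enc_mul (enc_norm (kp2q2_4.enc h1 h2)) (enc_norm (enc_sub (enc_rat _ 1021568979 62500000) (enc_scale 21282648 1953125 h1))))))))))⟩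
noncomputable def kn2q2 : Fn2 := ⟨_, _, fun h1 h2 => (enc_norm (enc_add (enc_mul (enc_norm (enc_add (enc_pnc _ 1) (enc_mul (mug3.enc h2) (gug.enc h2)))) (kf2q2.enc h1 h2)) (enc_mul (mug3.enc h2) (kp2q2.enc h1 h2))))⟩
noncomputable def bd2q3 : Fn2 := ⟨_, _, fun h1 h2 => (enc_norm (enc_add (enc_subr 383384 15625 (enc_scale 191692 15625 h1)) (enc_mul (enc_norm (enc_subr 13 32 h2)) (enc_norm (enc_subr 1 6250 (enc_scale 1 12500 h1))))))⟩
noncomputable def kpc23 : Fn2 := ⟨_, _, fun h1 h2 => (enc_norm (enc_mul (enc_norm (enc_add (enc_scale 17 20 (enc_subr 1 2 (swg.enc (ycg.enc h1)))) (enc_scale 3 20 h1))) (bd2q3.enc (ycg.enc h1) h2)))⟩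
noncomputable def knc23 : Fn2 := ⟨_, _, fun h1 h2 => (enc_norm (enc_add (enc_mul (enc_norm (enc_add (enc_pnc _ 1) (enc_mul (mug3.enc h2) (gug.enc h2)))) (kfc23.enc h1 h2)) (enc_mul (mug3.enc h2) (kpc23.enc h1 h2))))⟩
noncomputable def bd3q0 : Fn2 := ⟨_, _, fun h1 h2 => (enc_norm (enc_add (enc_sub (enc_rat _ 469421 500000) (enc_scale 1501399 500000 h1)) (enc_mul (enc_norm (enc_subr 13 32 h2)) (enc_norm (enc_sub (enc_rat _ 7 50000) (enc_scale 11 12500 h1))))))⟩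
noncomputable def kp3q0 : Fn2 := ⟨_, _, fun h1 h2 => (enc_norm (enc_mul (cv3m.enc h1) (bd3q0.enc h1 h2)))⟩
noncomputable def kn3q0 : Fn2 := ⟨_, _, fun h1 h2 => (enc_norm (enc_add (enc_mul (enc_norm (enc_add (enc_pnc _ 1) (enc_mul (mug3.enc h2) (gug.enc h2)))) (kf3q0.enc h1 h2)) (enc_mul (mug3.enc h2) (kp3q0.enc h1 h2))))⟩
noncomputable def bd3q1_3 : Fn2 := ⟨_, _, fun h1 h2 => (enc_subr 13 32 h2)⟩
noncomputable def bd3q1 : Fn2 := ⟨_, _, fun h1 h2 => (enc_norm (enc_case (enc_subr 4 5 h1) (enc_case (enc_subr 7 10 h1) (enc_add (enc_sub (enc_rat _ 272317 200000) (enc_scale 68053 50000 h1)) (enc_mul (enc_norm (bd3q1_3.enc h1 h2)) (enc_norm (enc_subr 3139 200000 (enc_scale 63 4000 h1))))) (enc_add (enc_sub (enc_rat _ 170241 125000) (enc_scale 27231 20000 h1)) (enc_mul (enc_norm (bd3q1_3.enc h1 h2)) (enc_norm (enc_subr 769 50000 (enc_scale 153 10000 h1)))))) (enc_case (enc_subr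 7 8 h1) (enc_add (enc_sub (enc_rat _ 255493 187500) (enc_scale 51091 37500 h1)) (enc_mul (enc_norm (bd3q1_3.enc h1 h2)) (enc_norm (enc_subr 2263 150000 (enc_scale 28 1875 h1))))) (enc_case (enc_subr 19 20 h1) (enc_add (enc_sub (enc_rat _ 2045449 1500000) (enc_scale 25567 18750 h1)) (enc_mul (enc_norm (bd3q1_3.enc h1 h2)) (enc_norm (enc_subr 4631 300000 (enc_scale 23 1500 h1))))) (enc_add (enc_sub (enc_rat _ 34119 25000) (enc_scale 34119 25000 h1)) (enc_mul (enc_norm (bd3q1_3.enc h1 h2)) (enc_norm (enc_subr 87 5000 (enc_scale 87 5000 h1)))))))))⟩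
noncomputable def kp3q1 : Fn2 := ⟨_, _, fun h1 h2 => (enc_norm (enc_mul (cv3m.enc h1) (bd3q1.enc h1 h2)))⟩
noncomputable def kn3q1 : Fn2 := ⟨_, _, fun h1 h2 => (enc_norm (enc_add (enc_mul (enc_norm (enc_add (enc_pnc _ 1) (enc_mul (mug3.enc h2) (gug.enc h2)))) (kf3q1.enc h1 h2)) (enc_mul (mug3.enc h2) (kp3q1.enc h1 h2))))⟩
noncomputable def bd3q2_3 : Fn2 := ⟨_, _, fun h1 h2 => (enc_subr 13 32 h2)⟩
noncomputable def bd3q2_8 : Fn2 := ⟨_, _, fun h1 h2 => (enc_scale 301 75 h1)⟩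
noncomputable def bd3q2_12 : Fn2 := ⟨_, _, fun h1 h2 => (enc_scale 1 3000 h1)⟩
noncomputable def bd3q2_31 : Fn2 := ⟨_, _, fun h1 h2 => (enc_sub (enc_rat _ 721591 150000) (bd3q2_8.enc h1 h2))⟩
noncomputable def bd3q2 : Fn2 := ⟨_, _, fun h1 h2 => (enc_norm (enc_case (enc_subr 29 25 h1) (enc_case (enc_subr 53 50 h1) (enc_add (enc_sub (enc_rat _ 14431819 3000000) (bd3q2_8.enc h1 h2)) (enc_mul (enc_norm (bd3q2_3.enc h1 h2)) (enc_norm (enc_subr 17 37500 (bd3q2_12.enc h1 h2))))) (enc_case (enc_subr 11 10 h1) (enc_add (enc_sub (enc_rat _ 1924239 400000) (enc_scale 160533 40000 h1)) (enc_mul (enc_norm (bd3q2_3.enc h1 h2)) (enc_norm (enc_subr 73 200000 (enc_scale 1 4000 h1))))) (enc_add (bd3q2_31.enc h1 h2) (enc_mul (enc_norm (bd3q2_3.enc h1 h2)) (enc_norm (enc_subr 137 300000 (bd3q2_12.enc h1 h2))))))) (enc_case (enc_subr 5 4 h1) (enc_add (bd3q2_31.enc h1 h2) (enc_mul (enc_norm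 (bd3q2_3.enc h1 h2)) (enc_norm (enc_subr 59 180000 (enc_scale 1 4500 h1))))) (enc_case (enc_subr 27 20 h1) (enc_add (enc_sub (enc_rat _ 962123 200000) (enc_scale 200667 50000 h1)) (enc_mul (enc_norm (bd3q2_3.enc h1 h2)) (enc_norm (enc_subr 17 40000 (enc_scale 3 10000 h1))))) (enc_add (enc_sub (enc_rat _ 2405303 500000) (bd3q2_8.enc h1 h2)) (enc_mul (enc_norm (bd3q2_3.enc h1 h2)) (enc_norm (enc_subr 19 50000 (enc_scale 1 3750 h1)))))))))⟩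
noncomputable def kp3q2 : Fn2 := ⟨_, _, fun h1 h2 => (enc_norm (enc_mul (cv3p.enc h1) (bd3q2.enc h1 h2)))⟩
noncomputable def kn3q2 : Fn2 := ⟨_, _, fun h1 h2 => (enc_norm (enc_add (enc_mul (enc_norm (enc_add (enc_pnc _ 1) (enc_mul (mug3.enc h2) (gug.enc h2)))) (kf3q2.enc h1 h2)) (enc_mul (mug3.enc h2) (kp3q2.enc h1 h2))))⟩
noncomputable def bd3q3 : Fn2 := ⟨_, _, fun h1 h2 => (enc_norm (enc_add (enc_subr 1755801 250000 (enc_scale 1755801 500000 h1)) (enc_mul (enc_norm (enc_subr 13 32 h2)) (enc_norm (enc_sub (enc_rat _ 3 25000) (enc_scale 3 50000 h1))))))⟩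
noncomputable def kpc33 : Fn2 := ⟨_, _, fun h1 h2 => (enc_norm (enc_mul (enc_norm (enc_add (enc_half (enc_subr 1 2 (swg.enc (ycg.enc h1)))) (enc_half h1))) (bd3q3.enc (ycg.enc h1) h2)))⟩
noncomputable def knc33 : Fn2 := ⟨_, _, fun h1 h2 => (enc_norm (enc_add (enc_mul (enc_norm (enc_add (enc_pnc _ 1) (enc_mul (mug3.enc h2) (gug.enc h2)))) (kfc33.enc h1 h2)) (enc_mul (mug3.enc h2) (kpc33.enc h1 h2))))⟩
noncomputable def kp4q0 : Fn2 := ⟨_, _, fun h1 h2 => (enc_norm (enc_mul h1 (enc_norm (enc_add (enc_sub (enc_rat _ 4803 15625) (enc_scale 847611 200000 h1)) (enc_mul (enc_norm (enc_subr 13 32 h2)) (enc_norm (enc_subr 119 100000 (enc_neg (enc_scale 595679 100000 h1)))))))))⟩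
noncomputable def kn4q0 : Fn2 := ⟨_, _, fun h1 h2 => (enc_norm (enc_add (enc_mul (enc_norm (enc_add (enc_pnc _ 1) (enc_mul (mug3.enc h2) (gug.enc h2)))) (kf4q0.enc h1 h2)) (enc_mul (mug3.enc h2) (kp4q0.enc h1 h2))))⟩
noncomputable def kp4q1 : Fn2 := ⟨_, _, fun h1 h2 => (enc_norm (enc_mul (enc_norm (enc_subn 1 h1)) (enc_norm (enc_add (enc_sub (enc_rat _ 4803 15625) (enc_scale 847611 200000 h1)) (enc_mul (enc_norm (enc_subr 13 32 h2)) (enc_norm (enc_subr 119 100000 (enc_neg (enc_scale 595679 100000 h1)))))))))⟩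
noncomputable def kn4q1 : Fn2 := ⟨_, _, fun h1 h2 => (enc_norm (enc_add (enc_mul (enc_norm (enc_add (enc_pnc _ 1) (enc_mul (mug3.enc h2) (gug.enc h2)))) (kf4q1.enc h1 h2)) (enc_mul (mug3.enc h2) (kp4q1.enc h1 h2))))⟩
noncomputable def kp4q2_9 : Fn2 := ⟨_, _, fun h1 h2 => (enc_sub (enc_half (c3g.enc h1)) (enc_scale 1 4 h1))⟩
noncomputable def kp4q2 : Fn2 := ⟨_, _, fun h1 h2 => (enc_norm (enc_mul (enc_norm (enc_subn 1 h1)) (enc_norm (enc_add (enc_subr 773177 2000000 (enc_scale 8634503 1000000 (kp4q2_9.enc h1 h2))) (enc_mul (enc_norm (enc_subr 13 32 h2)) (enc_norm (enc_add (enc_scale 595833 100000 (kp4q2_9.enc h1 h2)) (enc_rat _ 595763 200000))))))))⟩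
noncomputable def kn4q2 : Fn2 := ⟨_, _, fun h1 h2 => (enc_norm (enc_add (enc_mul (enc_norm (enc_add (enc_pnc _ 1) (enc_mul (mug3.enc h2) (gug.enc h2)))) (kf4q2.enc h1 h2)) (enc_mul (mug3.enc h2) (kp4q2.enc h1 h2))))⟩
noncomputable def kpc43_9 : Fn2 := ⟨_, _, fun h1 h2 => (enc_sub (enc_half h1) (enc_scale 1 4 (ycg.enc h1)))⟩
noncomputable def kpc43 : Fn2 := ⟨_, _, fun h1 h2 => (enc_norm (enc_mul (enc_norm (enc_subn 2 (ycg.enc h1))) (enc_norm (enc_add (enc_subr 773177 2000000 (enc_scale 8634503 1000000 (kpc43_9.enc h1 h2))) (enc_mul (enc_norm (enc_subr 13 32 h2)) (enc_norm (enc_add (enc_scale 595833 100000 (kpc43_9.enc h1 h2)) (enc_rat _ 595763 200000))))))))⟩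
noncomputable def knc43 : Fn2 := ⟨_, _, fun h1 h2 => (enc_norm (enc_add (enc_mul (enc_norm (enc_add (enc_pnc _ 1) (enc_mul (mug3.enc h2) (gug.enc h2)))) (kfc43.enc h1 h2)) (enc_mul (mug3.enc h2) (kpc43.enc h1 h2))))⟩
noncomputable def bn3q0 : Fn2 := ⟨_, _, fun h1 h2 => (enc_norm (enc_add (enc_mul (enc_norm (enc_add (enc_pnc _ 1) (enc_mul (mug3.enc h2) (gug.enc h2)))) (bf3q0.enc h1 h2)) (enc_mul (mug3.enc h2) (bd3q0.enc h1 h2))))⟩
noncomputable def bn2q0 : Fn2 := ⟨_, _, fun h1 h2 => (enc_norm (enc_add (enc_mul (enc_norm (enc_add (enc_pnc _ 1) (enc_mul (mug3.enc h2) (gug.enc h2)))) (bf2q0.enc h1 h2)) (enc_mul (mug3.enc h2) (bd2q0.enc h1 h2))))⟩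
noncomputable def bn1q0 : Fn2 := ⟨_, _, fun h1 h2 => (enc_norm (enc_add (enc_mul (enc_norm (enc_add (enc_pnc _ 1) (enc_mul (mug3.enc h2) (gug.enc h2)))) (bf1q0.enc h1 h2)) (enc_mul (mug3.enc h2) (bd1q0.enc h1 h2))))⟩
noncomputable def rknq0 : Fn3 := ⟨_, _, fun h1 h2 h3 => (enc_case (enc_sub h1 (cv1m.enc h2)) (enc_add (enc_mul h1 (bn1q0.enc h2 h3)) (enc_mul (enc_norm (enc_sub (enc_pnc _ 1) (lm0m.enc h1 h2))) (enc_norm (enc_sub (kn0q0.enc h2 h3) (enc_mul (c1g.enc h2) (bn1q0.enc h2 h3)))))) (enc_case (enc_sub h1 (cv2m.enc h2)) (enc_add (enc_mul h1 (bn2q0.enc h2 h3)) (enc_mul (enc_norm (enc_mul (enc_norm (enc_sub (enc_pnc _ 1) (lm1m.enc h1 h2))) (cv1m.enc h2))) (enc_norm (enc_sub (bn1q0.enc h2 h3) (bn2q0.enc h2 h3))))) (enc_case (enc_sub h1 (cv3m.enc h2)) (enc_add (enc_mul h1 (bn3q0.enc h2 h3)) (enc_mul (enc_norm (enc_mul (enc_norm (enc_sub (enc_pnc _ 1) (lm2m.enc h1 h2)))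 (cv2m.enc h2))) (enc_norm (enc_sub (bn2q0.enc h2 h3) (bn3q0.enc h2 h3))))) (enc_add (kn3q0.enc h2 h3) (enc_mul (lm3m.enc h1 h2) (enc_norm (enc_sub (kn4q0.enc h2 h3) (kn3q0.enc h2 h3))))))))⟩
noncomputable def rsnq0 : Fn3 := ⟨_, _, fun h1 h2 h3 => (enc_case h1 (enc_neg (rknq0.enc (enc_neg h1) h2 h3)) (rknq0.enc h1 h2 h3))⟩
noncomputable def bn3q1 : Fn2 := ⟨_, _, fun h1 h2 => (enc_norm (enc_add (enc_mul (enc_norm (enc_add (enc_pnc _ 1) (enc_mul (mug3.enc h2) (gug.enc h2)))) (bf3q1.enc h1 h2)) (enc_mul (mug3.enc h2) (bd3q1.enc h1 h2))))⟩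
noncomputable def bd2q1_3 : Fn2 := ⟨_, _, fun h1 h2 => (enc_subr 13 32 h2)⟩
noncomputable def bd2q1 : Fn2 := ⟨_, _, fun h1 h2 => (enc_norm (enc_case (enc_subr 19 32 h1) (enc_add (enc_sub (enc_rat _ 381358697 125000000) (enc_scale 224365197 62500000 h1)) (enc_mul (enc_norm (bd2q1_3.enc h1 h2)) (enc_norm (enc_subr 62825169 15625000 (enc_scale 251298801 31250000 h1))))) (enc_case (enc_subr 4 5 h1) (enc_case (enc_subr 7 10 h1) (enc_add (enc_sub (enc_rat _ 992741889 625000000) (enc_scale 49616251 31250000 h1)) (enc_mul (enc_norm (bd2q1_3.enc h1 h2)) (enc_norm (enc_sub (enc_rat _ 100312063 62500000) (enc_scale 4443293 2734375 h1))))) (enc_add (enc_sub (enc_rat _ 397291 250000) (enc_scale 158883 100000 h1)) (enc_mul (enc_norm (bd2q1_3.enc h1 h2)) (enc_norm (enc_sub (enc_rat _ 3949 2500) (enc_scale 15887 10000 h1)))))) (enc_case (enc_subr 7 8 h1) (enc_add (enc_sub (enc_rat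 _ 397509 250000) (enc_scale 9937 6250 h1)) (enc_mul (enc_norm (bd2q1_3.enc h1 h2)) (enc_norm (enc_sub (enc_rat _ 29143 18750) (enc_scale 5839 3750 h1))))) (enc_case (enc_subr 19 20 h1) (enc_add (enc_sub (enc_rat _ 2386069 1500000) (enc_scale 59651 37500 h1)) (enc_mul (enc_norm (bd2q1_3.enc h1 h2)) (enc_norm (enc_sub (enc_rat _ 461353 300000) (enc_scale 11537 7500 h1))))) (enc_add (enc_sub (enc_rat _ 39777 25000) (enc_scale 39777 25000 h1)) (enc_mul (enc_norm (bd2q1_3.enc h1 h2)) (enc_norm (enc_sub (enc_rat _ 7649 5000) (enc_scale 7649 5000 h1))))))))))⟩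
noncomputable def bn2q1 : Fn2 := ⟨_, _, fun h1 h2 => (enc_norm (enc_add (enc_mul (enc_norm (enc_add (enc_pnc _ 1) (enc_mul (mug3.enc h2) (gug.enc h2)))) (bf2q1.enc h1 h2)) (enc_mul (mug3.enc h2) (bd2q1.enc h1 h2))))⟩
noncomputable def bn1q1 : Fn2 := ⟨_, _, fun h1 h2 => (enc_norm (enc_add (enc_mul (enc_norm (enc_add (enc_pnc _ 1) (enc_mul (mug3.enc h2) (gug.enc h2)))) (bf1q1.enc h1 h2)) (enc_mul (mug3.enc h2) (bd1q1.enc h1 h2))))⟩
noncomputable def rknq1_35 : Fn3 := ⟨_, _, fun h1 h2 h3 => (enc_add (enc_mul h1 (bn2q1.enc h2 h3)) (enc_mul (enc_norm (enc_mul (enc_norm (enc_sub (enc_pnc _ 1) (lm1m.enc h1 h2))) (cv1m.enc h2))) (enc_norm (enc_sub (bn1q1.enc h2 h3) (bn2q1.enc h2 h3)))))⟩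
noncomputable def rknq1_41 : Fn3 := ⟨_, _, fun h1 h2 h3 => (enc_sub (enc_pnc _ 1) h2)⟩
noncomputable def rknq1_42 : Fn3 := ⟨_, _, fun h1 h2 h3 => (gsg.enc (enc_norm (rknq1_41.enc h1 h2 h3)))⟩
noncomputable def rknq1_46 : Fn3 := ⟨_, _, fun h1 h2 h3 => (esg.enc (enc_norm (rknq1_41.enc h1 h2 h3)))⟩
noncomputable def rknq1_47 : Fn3 := ⟨_, _, fun h1 h2 h3 => (kcg.enc (enc_norm (enc_sub (enc_scale 3 4 (rknq1_41.enc h1 h2 h3)) (enc_half (rknq1_42.enc h1 h2 h3)))) h3)⟩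
noncomputable def rknq1_48 : Fn3 := ⟨_, _, fun h1 h2 h3 => (enc_scale 3 2 (rknq1_41.enc h1 h2 h3))⟩
noncomputable def rknq1_50 : Fn3 := ⟨_, _, fun h1 h2 h3 => (enc_add (enc_pnc _ 1) (rknq1_42.enc h1 h2 h3))⟩
noncomputable def rknq1_59 : Fn3 := ⟨_, _, fun h1 h2 h3 => (enc_mul (enc_scale 3 4 (enc_sq (enc_norm (rknq1_41.enc h1 h2 h3)))) (enc_inv (rknq1_42.enc h1 h2 h3)))⟩
noncomputable def rknq1_60 : Fn3 := ⟨_, _, fun h1 h2 h3 => (enc_sub (enc_half (rknq1_41.enc h1 h2 h3)) (rknq1_59.enc h1 h2 h3))⟩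
noncomputable def rknq1_61 : Fn3 := ⟨_, _, fun h1 h2 h3 => (enc_nat 2 (rknq1_46.enc h1 h2 h3))⟩
noncomputable def rknq1_96 : Fn3 := ⟨_, _, fun h1 h2 h3 => (enc_sub h1 (cv1m.enc h2))⟩
noncomputable def rknq1 : Fn3 := ⟨_, _, fun h1 h2 h3 => (enc_case (rknq1_96.enc h1 h2 h3) (enc_add (enc_mul h1 (bn1q1.enc h2 h3)) (enc_mul (enc_norm (enc_sub (enc_pnc _ 1) (lm0m.enc h1 h2))) (enc_norm (enc_sub (kn0q1.enc h2 h3) (enc_mul (c1g.enc h2) (bn1q1.enc h2 h3)))))) (enc_case (enc_sub h1 (cv2m.enc h2)) (enc_case (enc_subr 17 32 h2) (rknq1_35.enc h1 h2 h3) (enc_case (enc_subr 21 32 h2) (enc_add (kn1q1.enc h2 h3) (enc_mul (enc_norm (enc_mul (enc_norm (rknq1_96.enc h1 h2 h3)) (enc_inv (enc_sub (enc_add (swg.enc h2) (enc_rat _ 1 2)) (cv1m.enc h2))))) (enc_norm (enc_sub (enc_add (enc_mul (enc_norm (enc_add (enc_pnc _ 1) (enc_mul (mug3.enc h3) (gug.enc h3)))) (enc_norm (enc_add (enc_add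 (enc_mul (enc_norm (enc_mul (enc_norm (enc_sub (rknq1_42.enc h1 h2 h3) (rknq1_48.enc h1 h2 h3))) (enc_norm (rknq1_50.enc h1 h2 h3)))) (enc_inv (enc_sub (rknq1_50.enc h1 h2 h3) (rknq1_48.enc h1 h2 h3)))) (enc_mul (enc_norm (rknq1_60.enc h1 h2 h3)) (enc_inv (rknq1_61.enc h1 h2 h3)))) (enc_mul (rknq1_47.enc h1 h2 h3) (enc_norm (rknq1_41.enc h1 h2 h3)))))) (enc_mul (mug3.enc h3) (enc_norm (enc_sub (enc_add (kug.enc (enc_norm (rknq1_41.enc h1 h2 h3))) (enc_mul (enc_norm (enc_sub (enc_mul (enc_norm (enc_mul (enc_norm (rknq1_59.enc h1 h2 h3)) (enc_norm (enc_subn 3 (enc_nat 4 (rknq1_42.enc h1 h2 h3)))))) (rknq1_46.enc h1 h2 h3)) (enc_mul (qsg.enc (enc_norm (rknq1_41.enc h1 h2 h3))) (enc_norm (rknq1_60.enc h1 h2 h3))))) (enc_inv (enc_mul (rknq1_61.enc h1 h2 h3) (rknq1_46.enc h1 h2 h3))))) (enc_mul (enc_norm (enc_mul (enc_norm (rknq1_41.enc h1 h2 h3)) (rknq1_47.enc h1 h2 h3)))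 (enc_norm (enc_add (enc_add (enc_pnc _ 1) (gug.enc (enc_norm (rknq1_41.enc h1 h2 h3)))) (enc_nat 2 (rknq1_42.enc h1 h2 h3))))))))) (kn1q1.enc h2 h3))))) (rknq1_35.enc h1 h2 h3))) (enc_case (enc_sub h1 (cv3m.enc h2)) (enc_add (enc_mul h1 (bn3q1.enc h2 h3)) (enc_mul (enc_norm (enc_sub (enc_pnc _ 1) (lm2m.enc h1 h2))) (enc_norm (enc_sub (kn2q1.enc h2 h3) (enc_mul (cv2m.enc h2) (bn3q1.enc h2 h3)))))) (enc_add (kn3q1.enc h2 h3) (enc_mul (lm3m.enc h1 h2) (enc_norm (enc_sub (kn4q1.enc h2 h3) (kn3q1.enc h2 h3))))))))⟩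
noncomputable def rsnq1 : Fn3 := ⟨_, _, fun h1 h2 h3 => (enc_case h1 (enc_neg (rknq1.enc (enc_neg h1) h2 h3)) (rknq1.enc h1 h2 h3))⟩
noncomputable def bn3q2 : Fn2 := ⟨_, _, fun h1 h2 => (enc_norm (enc_add (enc_mul (enc_norm (enc_add (enc_pnc _ 1) (enc_mul (mug3.enc h2) (gug.enc h2)))) (bf3q2.enc h1 h2)) (enc_mul (mug3.enc h2) (bd3q2.enc h1 h2))))⟩
noncomputable def bd2q2_3 : Fn2 := ⟨_, _, fun h1 h2 => (enc_subr 13 32 h2)⟩
noncomputable def bd2q2_11 : Fn2 := ⟨_, _, fun h1 h2 => (enc_subr 1069633 600000 (enc_scale 4307 3000 h1))⟩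
noncomputable def bd2q2 : Fn2 := ⟨_, _, fun h1 h2 => (enc_norm (enc_case (enc_subr 45 32 h1) (enc_case (enc_subr 11 10 h1) (enc_case (enc_subr 103 100 h1) (enc_add (bd2q2_11.enc h1 h2) (enc_mul (enc_norm (bd2q2_3.enc h1 h2)) (enc_norm (enc_subr 65617 25000 (enc_scale 2491 1000 h1))))) (enc_case (enc_subr 53 50 h1) (enc_add (bd2q2_11.enc h1 h2) (enc_mul (enc_norm (bd2q2_3.enc h1 h2)) (enc_norm (enc_subr 262571 100000 (enc_scale 623 250 h1))))) (enc_add (enc_subr 111419 62500 (enc_scale 28713 20000 h1)) (enc_mul (enc_norm (bd2q2_3.enc h1 h2)) (enc_norm (enc_subr 525831 200000 (enc_scale 9981 4000 h1))))))) (enc_case (enc_subr 29 25 h1) (enc_add (enc_subr 2674001 1500000 (enc_scale 86137 60000 h1)) (enc_mul (enc_norm (bd2q2_3.enc h1 h2)) (enc_norm (enc_subr 790589 300000 (enc_scale 3001 1200 h1))))) (enc_case (enc_subr 5 4 h1) (enc_add (enc_subr 4010987 2250000 (enc_scale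 25841 18000 h1)) (enc_mul (enc_norm (bd2q2_3.enc h1 h2)) (enc_norm (enc_subr 2378437 900000 (enc_scale 4513 1800 h1))))) (enc_add (enc_subr 89137153 50000000 (enc_scale 89729803 62500000 h1)) (enc_mul (enc_norm (bd2q2_3.enc h1 h2)) (enc_norm (enc_subr 99384281 37500000 (enc_scale 117808781 46875000 h1)))))))) (enc_add (enc_sub (enc_rat _ 39959864449 625000000) (enc_scale 6734347929 156250000 h1)) (enc_mul (enc_norm (bd2q2_3.enc h1 h2)) (enc_norm (enc_sub (enc_rat _ 1021568979 62500000) (enc_scale 21282648 1953125 h1)))))))⟩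
noncomputable def bn2q2 : Fn2 := ⟨_, _, fun h1 h2 => (enc_norm (enc_add (enc_mul (enc_norm (enc_add (enc_pnc _ 1) (enc_mul (mug3.enc h2) (gug.enc h2)))) (bf2q2.enc h1 h2)) (enc_mul (mug3.enc h2) (bd2q2.enc h1 h2))))⟩
noncomputable def bn1q2 : Fn2 := ⟨_, _, fun h1 h2 => (enc_norm (enc_add (enc_mul (enc_norm (enc_add (enc_pnc _ 1) (enc_mul (mug3.enc h2) (gug.enc h2)))) (bf1q2.enc h1 h2)) (enc_mul (mug3.enc h2) (bd1q2.enc h1 h2))))⟩
noncomputable def kp1q2 : Fn2 := ⟨_, _, fun h1 h2 => (enc_norm (enc_mul (cv1p.enc h1) (bd1q2.enc h1 h2)))⟩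
noncomputable def kn1q2 : Fn2 := ⟨_, _, fun h1 h2 => (enc_norm (enc_add (enc_mul (enc_norm (enc_add (enc_pnc _ 1) (enc_mul (mug3.enc h2) (gug.enc h2)))) (kf1q2.enc h1 h2)) (enc_mul (mug3.enc h2) (kp1q2.enc h1 h2))))⟩
noncomputable def kp0q2_3 : Fn2 := ⟨_, _, fun h1 h2 => (enc_subr 13 32 h2)⟩
noncomputable def kp0q2 : Fn2 := ⟨_, _, fun h1 h2 => (enc_norm (enc_mul (enc_norm (enc_subn 1 h1)) (enc_norm (enc_case (enc_subr 1 10 (c1g.enc h1)) (enc_add (enc_scale 31963 5000 (c1g.enc h1)) (enc_mul (enc_norm (kp0q2_3.enc h1 h2)) (enc_scale 331 1000 (c1g.enc h1)))) (enc_add (enc_subr 734363 4000000 (enc_scale 3291403 400000 (c1g.enc h1))) (enc_mul (enc_norm (kp0q2_3.enc h1 h2)) (enc_norm (enc_subr 36203 25000 (enc_scale 74061 5000 (c1g.enc h1))))))))))⟩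
noncomputable def kn0q2 : Fn2 := ⟨_, _, fun h1 h2 => (enc_norm (enc_add (enc_mul (enc_norm (enc_add (enc_pnc _ 1) (enc_mul (mug3.enc h2) (gug.enc h2)))) (kf0q2.enc h1 h2)) (enc_mul (mug3.enc h2) (kp0q2.enc h1 h2))))⟩
noncomputable def n0d : Fn2 := ⟨_, _, fun h1 h2 => (enc_norm (enc_mul (enc_norm (enc_subn 1 h1)) (enc_norm (enc_add (enc_scale 331 1000 (enc_subr 13 32 h2)) (enc_rat _ 31963 5000)))))⟩
noncomputable def n0n : Fn2 := ⟨_, _, fun h1 h2 => (enc_norm (enc_add (enc_mul (enc_norm (enc_add (enc_pnc _ 1) (enc_mul (mug3.enc h2) (gug.enc h2)))) (n0b.enc h1 h2)) (enc_mul (mug3.enc h2) (n0d.enc h1 h2))))⟩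
noncomputable def rknq2_35 : Fn3 := ⟨_, _, fun h1 h2 h3 => (enc_add (enc_mul h1 (bn2q2.enc h2 h3)) (enc_mul (enc_norm (enc_mul (enc_norm (enc_sub (enc_pnc _ 1) (lm1p.enc h1 h2))) (cv1p.enc h2))) (enc_norm (enc_sub (bn1q2.enc h2 h3) (bn2q2.enc h2 h3)))))⟩
noncomputable def rknq2_40 : Fn3 := ⟨_, _, fun h1 h2 h3 => (enc_subn 1 h2)⟩
noncomputable def rknq2_41 : Fn3 := ⟨_, _, fun h1 h2 h3 => (gsg.enc (enc_norm (rknq2_40.enc h1 h2 h3)))⟩
noncomputable def rknq2_45 : Fn3 := ⟨_, _, fun h1 h2 h3 => (esg.enc (enc_norm (rknq2_40.enc h1 h2 h3)))⟩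
noncomputable def rknq2_46 : Fn3 := ⟨_, _, fun h1 h2 h3 => (kcg.enc (enc_norm (enc_sub (enc_scale 3 4 (rknq2_40.enc h1 h2 h3)) (enc_half (rknq2_41.enc h1 h2 h3)))) h3)⟩
noncomputable def rknq2_47 : Fn3 := ⟨_, _, fun h1 h2 h3 => (enc_scale 3 2 (rknq2_40.enc h1 h2 h3))⟩
noncomputable def rknq2_49 : Fn3 := ⟨_, _, fun h1 h2 h3 => (enc_add (enc_pnc _ 1) (rknq2_41.enc h1 h2 h3))⟩
noncomputable def rknq2_58 : Fn3 := ⟨_, _, fun h1 h2 h3 => (enc_mul (enc_scale 3 4 (enc_sq (enc_norm (rknq2_40.enc h1 h2 h3)))) (enc_inv (rknq2_41.enc h1 h2 h3)))⟩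
noncomputable def rknq2_59 : Fn3 := ⟨_, _, fun h1 h2 h3 => (enc_sub (enc_half (rknq2_40.enc h1 h2 h3)) (rknq2_58.enc h1 h2 h3))⟩
noncomputable def rknq2_60 : Fn3 := ⟨_, _, fun h1 h2 h3 => (enc_nat 2 (rknq2_45.enc h1 h2 h3))⟩
noncomputable def rknq2_94 : Fn3 := ⟨_, _, fun h1 h2 h3 => (enc_sub h1 (cv1p.enc h2))⟩
noncomputable def rknq2_111 : Fn3 := ⟨_, _, fun h1 h2 h3 => (enc_mul h1 (bn1q2.enc h2 h3))⟩
noncomputable def rknq2_113 : Fn3 := ⟨_, _, fun h1 h2 h3 => (enc_sub (enc_pnc _ 1) (lm0p.enc h1 h2))⟩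
noncomputable def rknq2 : Fn3 := ⟨_, _, fun h1 h2 h3 => (enc_case (rknq2_94.enc h1 h2 h3) (enc_case (enc_subr 577 500 h2) (enc_add (rknq2_111.enc h1 h2 h3) (enc_mul (enc_norm (rknq2_113.enc h1 h2 h3)) (enc_norm (enc_sub (kn0q2.enc h2 h3) (enc_mul (c1g.enc h2) (bn1q2.enc h2 h3)))))) (enc_case (enc_subr 2887 2500 h2) (enc_add (rknq2_111.enc h1 h2 h3) (enc_mul (enc_norm (rknq2_113.enc h1 h2 h3)) (enc_norm (enc_mul (c1g.enc h2) (enc_norm (enc_sub (n0n.enc h2 h3) (bn1q2.enc h2 h3))))))) (rknq2_111.enc h1 h2 h3))) (enc_case (enc_sub h1 (cv2p.enc h2)) (enc_case (enc_subr 43 32 h2) (rknq2_35.enc h1 h2 h3) (enc_case (enc_subr 47 32 h2) (enc_add (kn1q2.enc h2 h3) (enc_mul (enc_norm (enc_mul (enc_norm (rknq2_94.enc h1 h2 h3)) (enc_inv (enc_sub (enc_subr 1 2 (swg.enc h2)) (cv1p.enc h2))))) (enc_norm (enc_sub (enc_add (enc_mul (enc_norm (enc_add (enc_pnc _ 1) (enc_mul (mug3.enc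 h3) (gug.enc h3)))) (enc_norm (enc_add (enc_sub (enc_mul (enc_norm (enc_mul (enc_norm (enc_sub (rknq2_41.enc h1 h2 h3) (rknq2_47.enc h1 h2 h3))) (enc_norm (rknq2_49.enc h1 h2 h3)))) (enc_inv (enc_sub (rknq2_49.enc h1 h2 h3) (rknq2_47.enc h1 h2 h3)))) (enc_mul (enc_norm (rknq2_59.enc h1 h2 h3)) (enc_inv (rknq2_60.enc h1 h2 h3)))) (enc_mul (rknq2_46.enc h1 h2 h3) (enc_norm (rknq2_40.enc h1 h2 h3)))))) (enc_mul (mug3.enc h3) (enc_norm (enc_add (enc_sub (kug.enc (enc_norm (rknq2_40.enc h1 h2 h3))) (enc_mul (enc_norm (enc_sub (enc_mul (enc_norm (enc_mul (enc_norm (rknq2_58.enc h1 h2 h3)) (enc_norm (enc_subn 3 (enc_nat 4 (rknq2_41.enc h1 h2 h3)))))) (rknq2_45.enc h1 h2 h3)) (enc_mul (qsg.enc (enc_norm (rknq2_40.enc h1 h2 h3))) (enc_norm (rknq2_59.enc h1 h2 h3))))) (enc_inv (enc_mul (rknq2_60.enc h1 h2 h3) (rknq2_45.enc h1 h2 h3))))) (enc_mul (enc_norm (enc_mul (enc_norm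 (rknq2_40.enc h1 h2 h3)) (rknq2_46.enc h1 h2 h3))) (enc_norm (enc_sub (enc_sub (enc_pnc _ 1) (gug.enc (enc_norm (rknq2_40.enc h1 h2 h3)))) (enc_nat 2 (rknq2_41.enc h1 h2 h3))))))))) (kn1q2.enc h2 h3))))) (rknq2_35.enc h1 h2 h3))) (enc_case (enc_sub h1 (cv3p.enc h2)) (enc_add (enc_mul h1 (bn3q2.enc h2 h3)) (enc_mul (enc_norm (enc_sub (enc_pnc _ 1) (lm2p.enc h1 h2))) (enc_norm (enc_sub (kn2q2.enc h2 h3) (enc_mul (cv2p.enc h2) (bn3q2.enc h2 h3)))))) (enc_add (kn3q2.enc h2 h3) (enc_mul (lm3p.enc h1 h2) (enc_norm (enc_sub (kn4q2.enc h2 h3) (kn3q2.enc h2 h3))))))))⟩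
noncomputable def rsnq2 : Fn3 := ⟨_, _, fun h1 h2 h3 => (enc_case h1 (enc_neg (rknq2.enc (enc_neg h1) h2 h3)) (rknq2.enc h1 h2 h3))⟩
noncomputable def kp3q3 : Fn2 := ⟨_, _, fun h1 h2 => (enc_norm (enc_mul (cv3r.enc h1) (bd3q3.enc h1 h2)))⟩
noncomputable def kn3q3 : Fn2 := ⟨_, _, fun h1 h2 => (enc_norm (enc_add (enc_mul (enc_norm (enc_add (enc_pnc _ 1) (enc_mul (mug3.enc h2) (gug.enc h2)))) (kf3q3.enc h1 h2)) (enc_mul (mug3.enc h2) (kp3q3.enc h1 h2))))⟩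
noncomputable def kp4q3_9 : Fn2 := ⟨_, _, fun h1 h2 => (enc_sub (enc_half (c3g.enc h1)) (enc_scale 1 4 h1))⟩
noncomputable def kp4q3 : Fn2 := ⟨_, _, fun h1 h2 => (enc_norm (enc_mul (enc_norm (enc_subn 2 h1)) (enc_norm (enc_add (enc_subr 773177 2000000 (enc_scale 8634503 1000000 (kp4q3_9.enc h1 h2))) (enc_mul (enc_norm (enc_subr 13 32 h2)) (enc_norm (enc_add (enc_scale 595833 100000 (kp4q3_9.enc h1 h2)) (enc_rat _ 595763 200000))))))))⟩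
noncomputable def kn4q3 : Fn2 := ⟨_, _, fun h1 h2 => (enc_norm (enc_add (enc_mul (enc_norm (enc_add (enc_pnc _ 1) (enc_mul (mug3.enc h2) (gug.enc h2)))) (kf4q3.enc h1 h2)) (enc_mul (mug3.enc h2) (kp4q3.enc h1 h2))))⟩
noncomputable def bn3q3 : Fn2 := ⟨_, _, fun h1 h2 => (enc_norm (enc_add (enc_mul (enc_norm (enc_add (enc_pnc _ 1) (enc_mul (mug3.enc h2) (gug.enc h2)))) (bf3q3.enc h1 h2)) (enc_mul (mug3.enc h2) (bd3q3.enc h1 h2))))⟩
noncomputable def bn2q3 : Fn2 := ⟨_, _, fun h1 h2 => (enc_norm (enc_add (enc_mul (enc_norm (enc_add (enc_pnc _ 1) (enc_mul (mug3.enc h2) (gug.enc h2)))) (bf2q3.enc h1 h2)) (enc_mul (mug3.enc h2) (bd2q3.enc h1 h2))))⟩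
noncomputable def bn1q3 : Fn2 := ⟨_, _, fun h1 h2 => (enc_norm (enc_add (enc_mul (enc_norm (enc_add (enc_pnc _ 1) (enc_mul (mug3.enc h2) (gug.enc h2)))) (bf1q3.enc h1 h2)) (enc_mul (mug3.enc h2) (bd1q3.enc h1 h2))))⟩
noncomputable def rknq3 : Fn3 := ⟨_, _, fun h1 h2 h3 => (enc_case (enc_sub h1 (cv1r.enc h2)) (enc_mul h1 (bn1q3.enc h2 h3)) (enc_case (enc_sub h1 (cv2r.enc h2)) (enc_add (enc_mul h1 (bn2q3.enc h2 h3)) (enc_mul (enc_norm (enc_mul (enc_norm (enc_sub (enc_pnc _ 1) (lm1r.enc h1 h2))) (cv1r.enc h2))) (enc_norm (enc_sub (bn1q3.enc h2 h3) (bn2q3.enc h2 h3))))) (enc_case (enc_sub h1 (cv3r.enc h2)) (enc_add (enc_mul h1 (bn3q3.enc h2 h3)) (enc_mul (enc_norm (enc_mul (enc_norm (enc_sub (enc_pnc _ 1) (lm2r.enc h1 h2))) (cv2r.enc h2))) (enc_norm (enc_sub (bn2q3.enc h2 h3) (bn3q3.enc h2 h3))))) (enc_add (kn3q3.enc h2 h3) (enc_mul (lm3r.enc h1 h2) (enc_norm (enc_sub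 (kn4q3.enc h2 h3) (kn3q3.enc h2 h3))))))))⟩
noncomputable def rsnq3 : Fn3 := ⟨_, _, fun h1 h2 h3 => (enc_case h1 (enc_neg (rknq3.enc (enc_neg h1) h2 h3)) (rknq3.enc h1 h2 h3))⟩

noncomputable def ndF0q0 : Node := ⟨idf, c1g, kf0q0, l0q0⟩
noncomputable def ndF0q1 : Node := ⟨idf, c1g, kf0q1, l0q1⟩
noncomputable def ndF0q2 : Node := ⟨yag, idf, kfc02, lc02⟩
noncomputable def ndF1q0 : Node := ⟨idf, cv1m, kf1q0, l1q0⟩
noncomputable def ndF1q1 : Node := ⟨idf, cv1m, kf1q1, l1q1⟩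
noncomputable def ndF1q2a : Node := ⟨yag, xc12a, kfc12a, lc12a⟩
noncomputable def ndF1q2b : Node := ⟨idf, xc12b, kfc12b, lc12b⟩
noncomputable def ndF1q3 : Node := ⟨idf, cv1r, kf1q3, l1q3⟩
noncomputable def ndF2q0 : Node := ⟨idf, cv2m, kf2q0, l2q0⟩
noncomputable def ndF2q1 : Node := ⟨idf, cv2m, kf2q1, l2q1⟩
noncomputable def ndF2q2 : Node := ⟨idf, cv2p, kf2q2, l2q2⟩
noncomputable def ndF2q3 : Node := ⟨ycg, xc23, kfc23, lc23⟩
noncomputable def ndF3q0 : Node := ⟨idf, cv3m, kf3q0, l3q0⟩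
noncomputable def ndF3q1 : Node := ⟨idf, cv3m, kf3q1, l3q1⟩
noncomputable def ndF3q2 : Node := ⟨idf, cv3p, kf3q2, l3q2⟩
noncomputable def ndF3q3 : Node := ⟨ycg, xc33, kfc33, lc33⟩
noncomputable def ndF4q0 : Node := ⟨idf, c3g, kf4q0, l4q0⟩
noncomputable def ndF4q1 : Node := ⟨idf, c3g, kf4q1, l4q1⟩
noncomputable def ndF4q2 : Node := ⟨idf, c3g, kf4q2, l4q2⟩
noncomputable def ndF4q3 : Node := ⟨ycg, idf, kfc43, lc43⟩
noncomputable def pcF0 : Piece := ⟨rsfq0, rlq0⟩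
noncomputable def pcF1 : Piece := ⟨rsfq1, rlq1⟩
noncomputable def pcF2 : Piece := ⟨rsfq2, rlq2⟩
noncomputable def pcF3 : Piece := ⟨rsfq3, rlq3⟩
noncomputable def ndN0q0 : Node := ⟨idf, c1g, kn0q0, l0q0⟩
noncomputable def ndN0q1 : Node := ⟨idf, c1g, kn0q1, l0q1⟩
noncomputable def ndN0q2 : Node := ⟨yag, idf, knc02, lc02⟩
noncomputable def ndN1q0 : Node := ⟨idf, cv1m, kn1q0, l1q0⟩
noncomputable def ndN1q1 : Node := ⟨idf, cv1m, kn1q1, l1q1⟩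
noncomputable def ndN1q2a : Node := ⟨yag, xc12a, knc12a, lc12a⟩
noncomputable def ndN1q2b : Node := ⟨idf, xc12b, knc12b, lc12b⟩
noncomputable def ndN1q3 : Node := ⟨idf, cv1r, kn1q3, l1q3⟩
noncomputable def ndN2q0 : Node := ⟨idf, cv2m, kn2q0, l2q0⟩
noncomputable def ndN2q1 : Node := ⟨idf, cv2m, kn2q1, l2q1⟩
noncomputable def ndN2q2 : Node := ⟨idf, cv2p, kn2q2, l2q2⟩
noncomputable def ndN2q3 : Node := ⟨ycg, xc23, knc23, lc23⟩
noncomputable def ndN3q0 : Node := ⟨idf, cv3m, kn3q0, l3q0⟩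
noncomputable def ndN3q1 : Node := ⟨idf, cv3m, kn3q1, l3q1⟩
noncomputable def ndN3q2 : Node := ⟨idf, cv3p, kn3q2, l3q2⟩
noncomputable def ndN3q3 : Node := ⟨ycg, xc33, knc33, lc33⟩
noncomputable def ndN4q0 : Node := ⟨idf, c3g, kn4q0, l4q0⟩
noncomputable def ndN4q1 : Node := ⟨idf, c3g, kn4q1, l4q1⟩
noncomputable def ndN4q2 : Node := ⟨idf, c3g, kn4q2, l4q2⟩
noncomputable def ndN4q3 : Node := ⟨ycg, idf, knc43, lc43⟩
noncomputable def pcN0 : Piece := ⟨rsnq0, rlq0⟩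
noncomputable def pcN1 : Piece := ⟨rsnq1, rlq1⟩
noncomputable def pcN2 : Piece := ⟨rsnq2, rlq2⟩
noncomputable def pcN3 : Piece := ⟨rsnq3, rlq3⟩
noncomputable def ndF1q2 : Node := ⟨idf, cv1p, kf1q2, l1q2⟩
noncomputable def ndN1q2 : Node := ⟨idf, cv1p, kn1q2, l1q2⟩
end Pool.Agent.Strip051.G.I3_8_7_16.Tab
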