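import Pool.Agent.Strip051.PB.MolV
import Pool.Agent.Strip051.G.I3_8_7_16.MolC0
import Pool.Agent.Strip051.G.I3_8_7_16.MolC1
import Pool.Agent.Strip051.G.I3_8_7_16.Fact

/-! # The tight charts of a table: facts (generated) -/

set_option linter.all false

namespace Pool.Agent.Strip051.G.I3_8_7_16.Tab.Mo

open Pool.Agent.StripNear Pool.Agent.StripSquare Pool.Agent.Strip051.Sweep
open Pool.Agent.Strip051.LC Pool.Agent.Strip051.LC.MolN
open Pool.Agent.Strip051.PB Pool.Agent.Strip051.PB.Mol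
open Pool.Agent.Strip051.LC.Line (tau)
open Pool.Agent.Strip051.G.I3_8_7_16.Tab

theorem gsg_v : gsg.v = c1n := by funext y; simp [gsg, c1n]
theorem esg_v (y : ℝ) : esg.v y = y / 2 + c1n y - 1 := by
  simp only [esg, gsg_v]
  push_cast
  ring
theorem qsg_v (y : ℝ) : qsg.v y = (1 - c1n y) * (2 * c1n y - 1) := by
  simp only [qsg, gsg_v]
  push_cast
  ring
theorem gug_v (y : ℝ) : gug.v y = cR y := by
  simp only [gug, gsg_v]
  push_cast
  unfold cR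
  ring
theorem kug_v {y : ℝ} (h : y ^ 2 < 4 / 3) : kug.v y = y * cP y := by
  rw [cP_eq h]
  simp only [kug, kug_2, gsg_v, gug_v]
  push_cast
  ring
theorem kf0_t0 {y x : ℝ} (h0 : 0 < y) (h1 : y < 1) : kf0q0.v y x = (c1n y * cG y + kcg.v (psn y) x) * y := by
  have e := kA0_eq h0 h1
  unfold kA0 at e
  simp only [kf0q0, kf0q0_9, kf0q0_12, c1g_v]
  push_cast
  simp only [psn_def]
  linear_combination e
theorem l0_t0 {y x : ℝ} (a : -(61 / 277) < psn y) (b : psn y ≤ -(59 / 566)) : l0q0.v y x = cQ x y (kcg.v (psn y) x) := by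
  have e1 := y_psn y
  have e2 := y_psn' y
  simp only [l0q0, txg, txg_4, txg_6, txg_27, txg_30, txg_71, txg_92, txg_125, txg_143, txg_145, txg_147, txg_150, txg_176, txg_216, txg_237, txg_278, txg_280, txg_299, txg_343, txg_364, c1g_v]
  push_cast
  simp only [psn_def]
  (repeat first | rw [if_pos (by linarith)] | rw [if_neg (by linarith)])
  unfold cQ
  simp only [e1, e2]
  ring
theorem kp0_t0 {y x : ℝ} (h0 : 0 < y) (h1 : y < 1) (a : -(61 / 277) < psn y) (b : psn y ≤ -(59 / 566)) : kp0q0.v y x = (cP y - (cR y + 2 * c1n y) * kcg.v (psn y) x) * y := by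
  have h : y ^ 2 < 4 / 3 := by nlinarith
  have e := cP_eq h
  simp only [kp0q0, kp0q0_3, kp0q0_8, c1g_v, gug_v, kug_v h]
  push_cast
  simp only [psn_def]
  (repeat first | rw [if_pos (by linarith)] | rw [if_neg (by linarith)])
  linear_combination (-(y)) * e * 0
theorem kf0_t1 {y x : ℝ} (h0 : 0 < y) (h1 : y < 1) : kf0q1.v y x = (c1n y * cG y + kcg.v (psn y) x) * (y - 1) := by
  have e := kA1_eq h0 h1
  unfold kA1 at e
  simp only [kf0q1, kf0q1_10, c1g_v]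
  push_cast
  simp only [psn_def]
  linear_combination e
theorem nK_q1 {y x : ℝ} (a : 17 / 32 < y) (b : y ≤ 21 / 32) (b0 : 0 < y) (b2 : y < 1) : kf2q1.v y x = kf1q1.v y x + ((w3K true 1 kcg).v y x - kf1q1.v y x) * (cv2m.v y - cv1m.v y) * ((w3W true).v y - cv1m.v y)⁻¹ := by
  have z0 : 0 < (1 - y) := by linarith
  have z1 : (1 - y) < 1 := by linarith
  have z2 : (1 - y) ^ 2 < 4 / 3 := by nlinarith
  have e1 := kA0_eq z0 z1
  have e2 := wK2 (1 - y)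
  unfold kA0 at e1
  simp only [kf1q1, kf2q1, kf2q1_4, kf2q1_78, kf2q1_79, kf2q1_85, kf2q1_87, kf2q1_106, c1g_v, gsg_v, esg_v, qsg_v, gug_v, swg_v, swn_c', w3W, w3K, zf, cwK, kcz, hfs, cond_true, cond_false, c1f, cGf, cPf, cDf, cRf, exf, zcf]
  push_cast
  simp only [psn_def, kug_v z2]
  (repeat first | rw [if_pos (by linarith)] | rw [if_neg (by linarith)])
  skip
  linear_combination ((cv2m.v y - cv1m.v y) * (c1n (1 - y) + 1 / 2 - cv1m.v y)⁻¹) * (e1 + e2)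
theorem nX_q1 {y x : ℝ} (a : 17 / 32 < y) (b : y ≤ 21 / 32) (b0 : 0 < y) (b2 : y < 1) : l2q1.v y x = l1q1.v y x + ((w3Q true kcg).v y x - l1q1.v y x) * (cv2m.v y - cv1m.v y) * ((w3W true).v y - cv1m.v y)⁻¹ := by
  have z0 : 0 < (1 - y) := by linarith
  have z1 : (1 - y) < 1 := by linarith
  have z2 : (1 - y) ^ 2 < 4 / 3 := by nlinarith
  skip
  simp only [l1q1, l2q1, l2q1_4, l2q1_18, l2q1_93, l2q1_108, c1g_v, gsg_v, esg_v, qsg_v, gug_v, swg_v, swn_c', w3W, w3Q, zf, cwQ, kcz, hfs, cond_true, cond_false, c1f, cGf, cPf, cDf, cRf, exf, zcf]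
  push_cast
  simp only [psn_def, kug_v z2]
  (repeat first | rw [if_pos (by linarith)] | rw [if_neg (by linarith)])
  unfold cQ
  ring
theorem nD_q1 {y x : ℝ} (a : 17 / 32 < y) (b : y ≤ 21 / 32) (b0 : 0 < y) (b2 : y < 1) : kp2q1.v y x = kp1q1.v y x + ((w3D true 1 kcg).v y x - kp1q1.v y x) * (cv2m.v y - cv1m.v y) * ((w3W true).v y - cv1m.v y)⁻¹ := by
  have z0 : 0 < (1 - y) := by linarith
  have z1 : (1 - y) < 1 := by linarith
  have z2 : (1 - y) ^ 2 < 4 / 3 := by nlinarith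
  have e3 := wD2 z0 z1
  simp only [kp1q1, kp2q1, kp2q1_4, kp2q1_81, kp2q1_82, kp2q1_86, kp2q1_94, kp2q1_119, c1g_v, gsg_v, esg_v, qsg_v, gug_v, swg_v, swn_c', w3W, w3D, zf, cwD, kcz, hfs, cond_true, cond_false, c1f, cGf, cPf, cDf, cRf, exf, zcf]
  push_cast
  simp only [psn_def, kug_v z2]
  (repeat first | rw [if_pos (by linarith)] | rw [if_neg (by linarith)])
  skip
  linear_combination ((cv2m.v y - cv1m.v y) * (c1n (1 - y) + 1 / 2 - cv1m.v y)⁻¹) * e3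
theorem nK_q2 {y x : ℝ} (a : 43 / 32 < y) (b : y ≤ 47 / 32) (b0 : 1 < y) (b2 : y < 2) : kf2q2.v y x = kf1q2.v y x + ((w3K false 1 kcg).v y x - kf1q2.v y x) * (cv2p.v y - cv1p.v y) * ((w3W false).v y - cv1p.v y)⁻¹ := by
  have z0 : 0 < (y - 1) := by linarith
  have z1 : (y - 1) < 1 := by linarith
  have z2 : (y - 1) ^ 2 < 4 / 3 := by nlinarith
  have e1 := kA0_eq z0 z1
  have e2 := wK2 (y - 1)
  unfold kA0 at e1
  simp only [kf1q2, kf2q2, kf2q2_4, kf2q2_93, kf2q2_94, kf2q2_100, kf2q2_102, kf2q2_121, c1g_v, gsg_v, esg_v, qsg_v, gug_v, swg_v, swn_c, w3W, w3K, zf, cwK, kcz, hfs, cond_true, cond_false, c1f, cGf, cPf, cDf, cRf, exf, zcf]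
  push_cast
  simp only [psn_def, kug_v z2]
  (repeat first | rw [if_pos (by linarith)] | rw [if_neg (by linarith)])
  skip
  linear_combination ((cv2p.v y - cv1p.v y) * (c1n (y - 1) - 1 / 2 - cv1p.v y)⁻¹) * (e1 - e2)
theorem nX_q2 {y x : ℝ} (a : 43 / 32 < y) (b : y ≤ 47 / 32) (b0 : 1 < y) (b2 : y < 2) : l2q2.v y x = l1q2.v y x + ((w3Q false kcg).v y x - l1q2.v y x) * (cv2p.v y - cv1p.v y) * ((w3W false).v y - cv1p.v y)⁻¹ := by
  have z0 : 0 < (y - 1) := by linarith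
  have z1 : (y - 1) < 1 := by linarith
  have z2 : (y - 1) ^ 2 < 4 / 3 := by nlinarith
  skip
  simp only [l1q2, l2q2, l2q2_4, l2q2_81, l2q2_106, l2q2_121, c1g_v, gsg_v, esg_v, qsg_v, gug_v, swg_v, swn_c, w3W, w3Q, zf, cwQ, kcz, hfs, cond_true, cond_false, c1f, cGf, cPf, cDf, cRf, exf, zcf]
  push_cast
  simp only [psn_def, kug_v z2]
  (repeat first | rw [if_pos (by linarith)] | rw [if_neg (by linarith)])
  unfold cQ
  ring
theorem nD_q2 {y x : ℝ} (a : 43 / 32 < y) (b : y ≤ 47 / 32) (b0 : 1 < y) (b2 : y < 2) : kp2q2.v y x = kp1q2.v y x + ((w3D false 1 kcg).v y x - kp1q2.v y x) * (cv2p.v y - cv1p.v y) * ((w3W false).v y - cv1p.v y)⁻¹ := by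
  have z0 : 0 < (y - 1) := by linarith
  have z1 : (y - 1) < 1 := by linarith
  have z2 : (y - 1) ^ 2 < 4 / 3 := by nlinarith
  have e3 := wD2 z0 z1
  simp only [kp1q2, kp2q2, kp2q2_4, kp2q2_12, kp2q2_89, kp2q2_90, kp2q2_94, kp2q2_102, kp2q2_125, c1g_v, gsg_v, esg_v, qsg_v, gug_v, swg_v, swn_c, w3W, w3D, zf, cwD, kcz, hfs, cond_true, cond_false, c1f, cGf, cPf, cDf, cRf, exf, zcf]
  push_cast
  simp only [psn_def, kug_v z2]
  (repeat first | rw [if_pos (by linarith)] | rw [if_neg (by linarith)])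
  skip
  linear_combination (-((cv2p.v y - cv1p.v y) * (c1n (y - 1) - 1 / 2 - cv1p.v y)⁻¹)) * e3
theorem psr {y : ℝ} (a : 11 / 32 ≤ y) (b : y ≤ 15 / 32) : -(2195179 / 10000000) ≤ psn y ∧ psn y ≤ -(263463 / 2500000) :=
  ⟨psn_ge' (lo := 11 / 32) (r := 596663 / 625000) (by norm_num) a (by linarith) (by norm_num) (by norm_num) (by norm_num),
    psn_le' (hi := 15 / 32) (r := 4569477 / 5000000) (by linarith) b (by norm_num) (by norm_num) (by norm_num) (by norm_num)⟩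
theorem kcg_t {p x : ℝ} (a : -(2195179 / 10000000) ≤ p) (b : p ≤ -(263463 / 2500000)) : kcg.v p x = (-(180230354611 / 2887725000000) + (3227059987 / 11550900000) * (x - 13 / 32)) + (lnF true 2600041076827 2887725000000 false 276856073 57754500 13 32).v x * p + (lnF true 537241 500000 false 371 160 13 32).v x * p ^ 2 + (lnF true 190632005437 17910873668750000 true 902647370507 14328698935000000 13 32).v x * max (p - sgv true 4 25) 0 + (lnF false 1129569 250000 true 25151 12500 13 32).v x * max (p - sgv true 4 25) 0 ^ 2 := by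
  rcases le_or_gt p (-(4 / 25)) with c0 | c0
  · have m0 : max (p - sgv true 4 25) 0 = 0 := by
      rw [show sgv true 4 25 = -(4 / 25) by norm_num [sgv]]
      exact max_eq_right (by linarith)
    rw [m0]
    simp only [kcg, kcg_3, kcg_6, kcg_9, kcg_12, kcg_13, kcg_16, kcg_28, kcg_36, kcg_39, kcg_50, kcg_58, kcg_59, kcg_62, kcg_73, kcg_80, kcg_81, kcg_84, kcg_95, kcg_100, kcg_104, kcg_114, kcg_124, kcg_127, kcg_128, kcg_133, kcg_143, kcg_148, kcg_153, kcg_164, kcg_172, kcg_173, kcg_178, kcg_186, kcg_194, kcg_199, kcg_208, kcg_213, kcg_217, kcg_224, kcg_225, kcg_226, kcg_249, kcg_260, kcg_283, kcg_284, kcg_304, lnF, cnF, lqF, sgv, cond_true, cond_false]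
    push_cast
    (repeat first | rw [if_pos (by linarith)] | rw [if_neg (by linarith)])
    ring
  · have m0 : max (p - sgv true 4 25) 0 = p - (-(4 / 25)) := by
      rw [show sgv true 4 25 = -(4 / 25) by norm_num [sgv]]
      exact max_eq_left (by linarith)
    rw [m0]
    simp only [kcg, kcg_3, kcg_6, kcg_9, kcg_12, kcg_13, kcg_16, kcg_28, kcg_36, kcg_39, kcg_50, kcg_58, kcg_59, kcg_62, kcg_73, kcg_80, kcg_81, kcg_84, kcg_95, kcg_100, kcg_104, kcg_114, kcg_124, kcg_127, kcg_128, kcg_133, kcg_143, kcg_148, kcg_153, kcg_164, kcg_172, kcg_173, kcg_178, kcg_186, kcg_194, kcg_199, kcg_208, kcg_213, kcg_217, kcg_224, kcg_225, kcg_226, kcg_249, kcg_260, kcg_283, kcg_284, kcg_304, lnF, cnF, lqF, sgv, cond_true, cond_false]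
    push_cast
    (repeat first | rw [if_pos (by linarith)] | rw [if_neg (by linarith)])
    ring
theorem dq_t (x : ℝ) : DqOk kcg dq (-(2195179 / 10000000)) (-(263463 / 2500000)) x := by
  have b0 := dqQ_ok (f := fun p : ℝ => (-(180230354611 / 2887725000000) + (3227059987 / 11550900000) * (x - 13 / 32)) + (lnF true 2600041076827 2887725000000 false 276856073 57754500 13 32).v x * p + (lnF true 537241 500000 false 371 160 13 32).v x * p ^ 2) (s := (lnF true 2600041076827 2887725000000 false 276856073 57754500 13 32)) (e := (lnF true 537241 500000 false 371 160 13 32)) (A := (-(180230354611 / 2887725000000) + (3227059987 / 11550900000) * (x - 13 / 32))) (x := x) (lo := -(2195179 / 10000000)) (hi := -(263463 / 2500000)) (fun p _ _ => rfl)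
  have b1 := dqK2_ok (f := fun p : ℝ => kcg.v p x) (d := (lnF true 190632005437 17910873668750000 true 902647370507 14328698935000000 13 32)) (e := (lnF false 1129569 250000 true 25151 12500 13 32)) (s := true) (m := 4) (q := 25) b0 (fun p h1 h2 => kcg_t h1 h2)
  exact b1
theorem txg_l {p c x : ℝ} (a : -(1 / 2) ≤ p) (b : p ≤ -(1 / 2) + 100239 / 2000000) : txg.v p c x = (p + 1 / 2) * mL.v p x := by
  have hD : edv false p = p + 1 / 2 := by simp only [edv, cond_true, cond_false]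
  have e0 := hng_eq (D := p + 1 / 2) (d := 1 / 20) (by norm_num)
  rcases le_or_gt p (-(9 / 20)) with c0 | c0
  · have m0 : max (p + 1 / 2 - 1 / 20) 0 = 0 := max_eq_right (by linarith)
    rw [m0] at e0
    simp only [txg, txg_4, txg_6, txg_27, txg_30, txg_71, txg_92, txg_125, txg_143, txg_145, txg_147, txg_150, txg_176, txg_216, txg_237, txg_278, txg_280, txg_299, txg_343, txg_364, mL, exC, exH, exH2, exQ, lnF, cnF, lqF, sgv, hD, cond_true, cond_false]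
    push_cast
    simp only [m0]
    (repeat first | rw [if_pos (by linarith)] | rw [if_neg (by linarith)])
    linear_combination -(((-(109 / 7500000) + (-(3 / 80000)) * (x - 13 / 32)) + (-(15821 / 500000) + (-(5027 / 5000)) * (x - 13 / 32)) * 0)) * e0
  · have m0 : max (p + 1 / 2 - 1 / 20) 0 = p + 1 / 2 - 1 / 20 := max_eq_left (by linarith)
    rw [m0] at e0
    simp only [txg, txg_4, txg_6, txg_27, txg_30, txg_71, txg_92, txg_125, txg_143, txg_145, txg_147, txg_150, txg_176, txg_216, txg_237, txg_278, txg_280, txg_299, txg_343, txg_364, mL, exC, exH, exH2, exQ, lnF, cnF, lqF, sgv, hD, cond_true, cond_false]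
    push_cast
    simp only [m0]
    (repeat first | rw [if_pos (by linarith)] | rw [if_neg (by linarith)])
    linear_combination -(((-(109 / 7500000) + (-(3 / 80000)) * (x - 13 / 32)) + (-(15821 / 500000) + (-(5027 / 5000)) * (x - 13 / 32)) * (p + 1 / 2 - 1 / 20))) * e0
theorem txg_r {p c x : ℝ} (a : 1 / 2 - 100239 / 2000000 ≤ p) (b : p ≤ 1 / 2) : txg.v p c x = (p - 1 / 2) * mR.v p x := by
  have hD : edv true p = 1 / 2 - p := by simp only [edv, cond_true, cond_false]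
  have e0 := hng_eq (D := 1 / 2 - p) (d := 1 / 20) (by norm_num)
  rcases le_or_gt p (9 / 20) with c0 | c0
  · have m0 : max (1 / 2 - p - 1 / 20) 0 = 1 / 2 - p - 1 / 20 := max_eq_left (by linarith)
    rw [m0] at e0
    simp only [txg, txg_4, txg_6, txg_27, txg_30, txg_71, txg_92, txg_125, txg_143, txg_145, txg_147, txg_150, txg_176, txg_216, txg_237, txg_278, txg_280, txg_299, txg_343, txg_364, mR, exC, exH, exH2, exQ, lnF, cnF, lqF, sgv, hD, cond_true, cond_false]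
    push_cast
    simp only [m0]
    (repeat first | rw [if_pos (by linarith)] | rw [if_neg (by linarith)])
    linear_combination (((1027 / 50000000 + (3281 / 30000000) * (x - 13 / 32)) + (42609 / 500000 + (275183 / 100000) * (x - 13 / 32)) * (1 / 2 - p - 1 / 20))) * e0
  · have m0 : max (1 / 2 - p - 1 / 20) 0 = 0 := max_eq_right (by linarith)
    rw [m0] at e0
    simp only [txg, txg_4, txg_6, txg_27, txg_30, txg_71, txg_92, txg_125, txg_143, txg_145, txg_147, txg_150, txg_176, txg_216, txg_237, txg_278, txg_280, txg_299, txg_343, txg_364, mR, exC, exH, exH2, exQ, lnF, cnF, lqF, sgv, hD, cond_true, cond_false]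
    push_cast
    simp only [m0]
    (repeat first | rw [if_pos (by linarith)] | rw [if_neg (by linarith)])
    linear_combination (((1027 / 50000000 + (3281 / 30000000) * (x - 13 / 32)) + (42609 / 500000 + (275183 / 100000) * (x - 13 / 32)) * 0)) * e0
theorem kp_t {w x : ℝ} (a : 1 / 2 - 100239 / 2000000 ≤ w) (b : w ≤ 1 / 2) : kpc02.v w x = (yag.v w - 1) * kp.v w x := by
  simp only [kpc02, kpc02_4, kp, plA, plH, lnF, cnF, lqF, sgv, c1g_v, cond_true, cond_false]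
  push_cast
  skip
  (repeat first | rw [if_pos (by linarith)] | rw [if_neg (by linarith)])
  ring
theorem kb_t {y x : ℝ} (a : 1 / 2 - 18213 / 400000 ≤ psn y) (b : psn y ≤ 1 / 2) : kp0q1.v y x = (y - 1) * kb.v (psn y) x := by
  simp only [kp0q1, kp0q1_9, kb, plA, plH, lnF, cnF, lqF, sgv, c1g_v, cond_true, cond_false]
  push_cast
  simp only [psn_def]
  (repeat first | rw [if_pos (by linarith)] | rw [if_neg (by linarith)])
  ring
theorem kn_v (f g h : ℝ → ℝ → ℝ) (x y : ℝ) (e : h y x = (1 + mug3.v x * gug.v x) * f y x + mug3.v x * g y x) :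
    h y x = (1 + mun 3 x * cR x) * f y x + mun 3 x * g y x := by
  rw [e, mu_v, gug_v]
theorem on0 {y : ℝ} (h : InQ 0 y) : OnC (0 : Fin 5) 0 y := ⟨h, fun _ => by
  have h1 := h.2
  have h2 := h0_lt_one
  have h3 := h0_pos
  nlinarith⟩
theorem shK0 {y x : ℝ} (h : InQ 0 y) (a : 11 / 32 ≤ y) (b : y ≤ 15 / 32) : tKF 0 0 y x = (c1n y * cG y + kcg.v (psn y) x) * y :=
  (tbF_on (on0 h)).trans (kf0_t0 (y := y) (by linarith) (by linarith))
theorem shL0 {y x : ℝ} (h : InQ 0 y) (a : 11 / 32 ≤ y) (b : y ≤ 15 / 32) : tL 0 0 y x = cQ x y (kcg.v (psn y) x) :=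
  (tbF_on (on0 h)).trans (l0_t0 (lt_of_lt_of_le (by norm_num) (psr a b).1) ((psr a b).2.trans (by norm_num)))
theorem shN0 {y x : ℝ} (h : InQ 0 y) (a : 11 / 32 ≤ y) (b : y ≤ 15 / 32) : tKN 0 0 y x = (1 + mun 3 x * cR x) * ((c1n y * cG y + kcg.v (psn y) x) * y) + mun 3 x * ((cP y - (cR y + 2 * c1n y) * kcg.v (psn y) x) * y) := by
  rw [← kf0_t0 (by linarith) (by linarith), ← kp0_t0 (by linarith) (by linarith) (lt_of_lt_of_le (by norm_num) (psr a b).1) ((psr a b).2.trans (by norm_num))]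
  refine (tbF_on (on0 h)).trans (kn_v kf0q0.v kp0q0.v kn0q0.v x y ?_)
  simp only [kn0q0]
  push_cast
  ring
theorem on1 {y : ℝ} (h : InQ 1 y) : OnC (0 : Fin 5) 1 y := ⟨h, fun _ => by
  have h1 := h.2
  have h2 := h0_lt_one
  have h3 := h0_pos
  nlinarith⟩
theorem kcb {y x : ℝ} (a : 11 / 32 ≤ y) (b : y ≤ 15 / 32) (h1 : 3 / 8 ≤ x) (h2 : x ≤ 7 / 16) : |kcg.v (psn y) x| ≤ 1 / 2 := by
  have e := psr a b
  rw [kcg_t e.1 e.2]
  obtain ⟨e1, e2⟩ := e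
  rcases le_or_gt (psn y) (-(4 / 25)) with c0 | c0
  · have m0 : max (psn y - sgv true 4 25) 0 = 0 := by
      rw [show sgv true 4 25 = -(4 / 25) by norm_num [sgv]]
      exact max_eq_right (by linarith)
    rw [m0]
    simp only [lnF, cnF, lqF, sgv, cond_true, cond_false]
    push_cast
    rw [abs_le]
    have f1 := mul_nonneg (sub_nonneg.2 (show -(2195179 / 10000000) ≤ psn y by linarith)) (sub_nonneg.2 h1)
    have f2 := mul_nonneg (sub_nonneg.2 (show psn y ≤ -(4 / 25) by linarith)) (sub_nonneg.2 h1)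
    have f3 := mul_nonneg (sub_nonneg.2 (show -(2195179 / 10000000) ≤ psn y by linarith)) (sub_nonneg.2 h2)
    have f4 := mul_nonneg (sub_nonneg.2 (show psn y ≤ -(4 / 25) by linarith)) (sub_nonneg.2 h2)
    constructor <;> nlinarith
  · have m0 : max (psn y - sgv true 4 25) 0 = psn y - (-(4 / 25)) := by
      rw [show sgv true 4 25 = -(4 / 25) by norm_num [sgv]]
      exact max_eq_left (by linarith)
    rw [m0]
    simp only [lnF, cnF, lqF, sgv, cond_true, cond_false]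
    push_cast
    rw [abs_le]
    have f1 := mul_nonneg (sub_nonneg.2 (show -(4 / 25) ≤ psn y by linarith)) (sub_nonneg.2 h1)
    have f2 := mul_nonneg (sub_nonneg.2 (show psn y ≤ -(263463 / 2500000) by linarith)) (sub_nonneg.2 h1)
    have f3 := mul_nonneg (sub_nonneg.2 (show -(4 / 25) ≤ psn y by linarith)) (sub_nonneg.2 h2)
    have f4 := mul_nonneg (sub_nonneg.2 (show psn y ≤ -(263463 / 2500000) by linarith)) (sub_nonneg.2 h2)
    constructor <;> nlinarith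
theorem on2 {y : ℝ} (h : InQ 2 y) (h1 : h0 * y < 1) : OnC (0 : Fin 5) 2 y := ⟨h, fun _ => h1⟩
theorem spK {b x : ℝ} (u : ℝ) (hb : 0 ≤ b) (h : InQ 2 (1 + b)) (h1 : h0 * (1 + b) < 1) (b1 : b ≤ 1 / 32) : tKF 0 2 (1 + b) x = 1 / 2 + b * sp.rs.v u b x := by
  refine (tbF_on (on2 h h1)).trans ?_
  show kfc02.v (c1n (1 + b)) x = _
  have e := stP_k (kc := kcg) (mL := mL) (mR := mR) (kp := kp) (u := u) (b := b) (x := x) (by linarith) (by linarith)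
  have hy := yag_v (y := 1 + b) (by linarith) h1
  simp only [kfc02, hy]
  push_cast
  rw [add_sub_cancel_left]
  exact e
theorem wr {b : ℝ} (hb : 0 ≤ b) (b1 : b ≤ 1 / 32) : 1 / 2 - 100239 / 2000000 ≤ c1n (1 + b) ∧ c1n (1 + b) ≤ 1 / 2 :=
  ⟨c1n_ge (hi := 1 + 1 / 32) (by linarith) (by linarith) (by norm_num), c1n_half hb⟩
theorem pr {b : ℝ} (hb : b < 0) (b1 : -(1 / 32) ≤ b) : 1 / 2 - 18213 / 400000 ≤ psn (1 + b) ∧ psn (1 + b) ≤ 1 / 2 :=
  ⟨psn_ge' (lo := 1 - 1 / 32) (r := 54419 / 100000) (by norm_num) (by linarith) (by linarith) (by norm_num) (by norm_num) (by norm_num), psn_half hb.le (by linarith)⟩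
theorem spL {b x : ℝ} (u : ℝ) (hb : 0 ≤ b) (h : InQ 2 (1 + b)) (h1 : h0 * (1 + b) < 1) (b1 : b ≤ 1 / 32) : tL 0 2 (1 + b) x = b * sp.xk.v u b x := by
  refine (tbF_on (on2 h h1)).trans ?_
  show lc02.v (c1n (1 + b)) x = b * -(w1n b * (mL.v (-c1n (1 + b)) x + mR.v (c1n (1 + b)) x))
  obtain ⟨e1, e2⟩ := wr hb b1
  have hw := w1n_eq (b := b) (by linarith) (by linarith)
  have kL := fun c => txg_l (p := -c1n (1 + b)) (c := c) (x := x) (by linarith) (by linarith)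
  have kR := fun c => txg_r (p := c1n (1 + b)) (c := c) (x := x) (by linarith) e2
  simp only [lc02, lc02_7, lc02_8, kL, kR]
  linear_combination (-(mL.v (-c1n (1 + b)) x + mR.v (c1n (1 + b)) x)) * hw
theorem spD {b x : ℝ} (u : ℝ) (hb : 0 ≤ b) (h1 : h0 * (1 + b) < 1) (b1 : b ≤ 1 / 32) : kpc02.v (c1n (1 + b)) x = b * sp.k2.v u b x := by
  obtain ⟨e1, e2⟩ := wr hb b1
  rw [kp_t e1 e2, yag_v (by linarith) h1, add_sub_cancel_left]
  rfl
theorem spN {b x : ℝ} (hb : 0 ≤ b) (h : InQ 2 (1 + b)) (h1 : h0 * (1 + b) < 1) : tKN 0 2 (1 + b) x = (1 + mun 3 x * cR x) * tKF 0 2 (1 + b) x + mun 3 x * kpc02.v (c1n (1 + b)) x := by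
  rw [show tKF 0 2 (1 + b) x = kfc02.v (c1n (1 + b)) x from tbF_on (on2 h h1)]
  refine (tbF_on (on2 h h1)).trans (kn_v kfc02.v kpc02.v knc02.v x (c1n (1 + b)) ?_)
  simp only [knc02]
  push_cast
  ring
theorem smK {b x : ℝ} (u : ℝ) (hb : b < 0) (h : InQ 1 (1 + b)) (b1 : -(1 / 32) ≤ b) : tKF 0 1 (1 + b) x = 1 / 2 + b * sm.rs.v u b x := by
  refine (tbF_on (on1 h)).trans ?_
  show kf0q1.v (1 + b) x = _
  have e : kA1 (1 + b) + b * kcg.v (psn (1 + b)) x = 1 / 2 + b * sm.rs.v u b x := stM_k (kc := kcg) (mR := mR) (kb := kb) (u := u) (b := b) (x := x) (by linarith) (by linarith)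
  have e2 := kA1_eq (y := 1 + b) (by linarith) (by linarith)
  rw [kf0_t1 (by linarith) (by linarith)]
  linear_combination e - e2
theorem smL {b x : ℝ} (u : ℝ) (hb : b < 0) (h : InQ 1 (1 + b)) (b1 : -(1 / 32) ≤ b) : tL 0 1 (1 + b) x = b * sm.xk.v u b x := by
  refine (tbF_on (on1 h)).trans ?_
  show l0q1.v (1 + b) x = b * (mR.v (psn (1 + b)) x * (3 / 4 - w1n b / 2))
  obtain ⟨e1, e2⟩ := pr hb b1
  have hw := w1n_eq (b := b) (by linarith) (by linarith)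
  have hp := psn_def (1 + b)
  have kR := fun c => txg_r (p := psn (1 + b)) (c := c) (x := x) (by linarith) e2
  simp only [l0q1, c1g_v]
  push_cast
  simp only [psn_def, kR]
  linear_combination (-(mR.v (psn (1 + b)) x)) * hp - (mR.v (psn (1 + b)) x / 2) * hw
theorem smD {b x : ℝ} (u : ℝ) (hb : b < 0) (b1 : -(1 / 32) ≤ b) : kp0q1.v (1 + b) x = b * sm.k2.v u b x := by
  obtain ⟨e1, e2⟩ := pr hb b1
  rw [kb_t e1 e2, add_sub_cancel_left]
  rfl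
theorem smN {b x : ℝ} (h : InQ 1 (1 + b)) : tKN 0 1 (1 + b) x = (1 + mun 3 x * cR x) * tKF 0 1 (1 + b) x + mun 3 x * kp0q1.v (1 + b) x := by
  rw [show tKF 0 1 (1 + b) x = kf0q1.v (1 + b) x from tbF_on (on1 h)]
  refine (tbF_on (on1 h)).trans (kn_v kf0q1.v kp0q1.v kn0q1.v x (1 + b) ?_)
  simp only [kn0q1]
  push_cast
  ring
theorem rowK1 {b x : ℝ} (hb : 0 ≤ b) (b1 : b ≤ 1 / 32) : bf1q2.v (1 + b) x = 1 + b * rK1.v b x := by
  have e0 := hng_eq (D := b) (d := 3 / 100) (by norm_num)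
  rcases le_or_gt b (3 / 100) with c0 | c0
  · have m0 : max (b - 3 / 100) 0 = 0 := max_eq_right (by linarith)
    rw [m0] at e0
    simp only [bf1q2, bf1q2_3, bf1q2_91, rK1, exC, scH, lnF, cnF, lqF, sgv, cond_true, cond_false]
    push_cast
    (repeat first | rw [if_pos (by linarith)] | rw [if_neg (by linarith)])
    linear_combination -((10061 / 30000 + (47 / 750) * (x - 13 / 32))) * e0
  · have m0 : max (b - 3 / 100) 0 = b - 3 / 100 := max_eq_left (by linarith)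
    rw [m0] at e0
    simp only [bf1q2, bf1q2_3, bf1q2_91, rK1, exC, scH, lnF, cnF, lqF, sgv, cond_true, cond_false]
    push_cast
    (repeat first | rw [if_pos (by linarith)] | rw [if_neg (by linarith)])
    linear_combination -((10061 / 30000 + (47 / 750) * (x - 13 / 32))) * e0
theorem rowX1 {b x : ℝ} (hb : 0 ≤ b) (b1 : b ≤ 1 / 32) : bx1q2.v (1 + b) x = b * rX1.v b x := by
  have e0 := hng_eq (D := b) (d := 3 / 100) (by norm_num)
  rcases le_or_gt b (3 / 100) with c0 | c0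
  · have m0 : max (b - 3 / 100) 0 = 0 := max_eq_right (by linarith)
    rw [m0] at e0
    simp only [bx1q2, bx1q2_3, rX1, exC, scH, lnF, cnF, lqF, sgv, cond_true, cond_false]
    push_cast
    (repeat first | rw [if_pos (by linarith)] | rw [if_neg (by linarith)])
    linear_combination -((1169 / 15000 + (-(317 / 3000)) * (x - 13 / 32))) * e0
  · have m0 : max (b - 3 / 100) 0 = b - 3 / 100 := max_eq_left (by linarith)
    rw [m0] at e0
    simp only [bx1q2, bx1q2_3, rX1, exC, scH, lnF, cnF, lqF, sgv, cond_true, cond_false]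
    push_cast
    (repeat first | rw [if_pos (by linarith)] | rw [if_neg (by linarith)])
    linear_combination -((1169 / 15000 + (-(317 / 3000)) * (x - 13 / 32))) * e0
theorem rowD1 {b x : ℝ} (hb : 0 ≤ b) (b1 : b ≤ 1 / 32) : bd1q2.v (1 + b) x = b * rD1.v b x := by
  have e0 := hng_eq (D := b) (d := 3 / 100) (by norm_num)
  rcases le_or_gt b (3 / 100) with c0 | c0
  · have m0 : max (b - 3 / 100) 0 = 0 := max_eq_right (by linarith)
    rw [m0] at e0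
    simp only [bd1q2, bd1q2_3, bd1q2_14, bd1q2_18, bd1q2_20, rD1, exC, scH, lnF, cnF, lqF, sgv, cond_true, cond_false]
    push_cast
    (repeat first | rw [if_pos (by linarith)] | rw [if_neg (by linarith)])
    linear_combination -((1 / 7500 + (1 / 3000) * (x - 13 / 32))) * e0
  · have m0 : max (b - 3 / 100) 0 = b - 3 / 100 := max_eq_left (by linarith)
    rw [m0] at e0
    simp only [bd1q2, bd1q2_3, bd1q2_14, bd1q2_18, bd1q2_20, rD1, exC, scH, lnF, cnF, lqF, sgv, cond_true, cond_false]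
    push_cast
    (repeat first | rw [if_pos (by linarith)] | rw [if_neg (by linarith)])
    linear_combination -((1 / 7500 + (1 / 3000) * (x - 13 / 32))) * e0
theorem cx1 {b x : ℝ} (u : ℝ) : cv1p.v (1 + b) = (fXS 1 1 2).v u b x := by
  show _ = ((1 : ℕ) : ℝ) / (2 : ℕ) * c1n (1 + b) + ((1 : ℕ) : ℝ) / (2 : ℕ) * (c1n b - 1 / 2)
  rw [cv1p_v, swn_c, add_sub_cancel_left]
  push_cast
  ring
theorem sX1 {b x : ℝ} (u : ℝ) : crv PP 1 2 (1 + b) = sk1.xs.v u b x := ecv1q2.trans (cx1 u)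
theorem sk1K {b x : ℝ} (u : ℝ) (hb : 0 ≤ b) (h : InQ 2 (1 + b)) (b1 : b ≤ 1 / 32) : tKF 1 2 (1 + b) x = 1 / 2 + b * sk1.rs.v u b x := by
  have e := stK_k (r := 1) (p := 1) (q := 2) (s := rK1) (sx := rX1) (sd := rD1) (u := u) (b := b) (x := x) (by norm_num) (by linarith) (by linarith)
  refine (tbF_on (onc h (by decide))).trans ?_
  show kf1q2.v (1 + b) x = _
  simp only [kf1q2, rowK1 hb b1, cx1 (x := x) u]
  exact e
theorem sk1L {b x : ℝ} (u : ℝ) (hb : 0 ≤ b) (h : InQ 2 (1 + b)) (b1 : b ≤ 1 / 32) : tL 1 2 (1 + b) x = b * sk1.xk.v u b x := by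
  refine (tbF_on (onc h (by decide))).trans ?_
  show l1q2.v (1 + b) x = b * ((fXS 1 1 2).v u b x * rX1.v b x)
  simp only [l1q2, rowX1 hb b1, cx1 (x := x) u]
  ring
theorem sk1D {b x : ℝ} (u : ℝ) (hb : 0 ≤ b) (b1 : b ≤ 1 / 32) : kp1q2.v (1 + b) x = b * sk1.k2.v u b x := by
  show kp1q2.v (1 + b) x = b * ((fXS 1 1 2).v u b x * rD1.v b x)
  simp only [kp1q2, rowD1 hb b1, cx1 (x := x) u]
  ring
theorem sk1N {b x : ℝ} (h : InQ 2 (1 + b)) : tKN 1 2 (1 + b) x = (1 + mun 3 x * cR x) * tKF 1 2 (1 + b) x + mun 3 x * kp1q2.v (1 + b) x := by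
  rw [show tKF 1 2 (1 + b) x = kf1q2.v (1 + b) x from tbF_on (onc h (by decide))]
  refine (tbF_on (onc h (by decide))).trans (kn_v kf1q2.v kp1q2.v kn1q2.v x (1 + b) ?_)
  simp only [kn1q2]
  push_cast
  ring
theorem gK_1_1 {Y x : ℝ} (hF : SideOk PP tKF tL pcF x) (hq : InQ 1 Y) : LinB (fun X => (pcF 1).K.v X Y x) (cv1m.v Y) (cv2m.v Y) (kf1q1.v Y x) (kf2q1.v Y x) :=
  linT hF.pinK hq (fun X k1 k3 => hF.thK 1 X Y hq k1 k3) (1 : Fin 4) (ecv1q1) (ecv2q1) (tbF_on (onc hq (by decide))) (tbF_on (onc hq (by decide)))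
theorem gL_1_1 {Y x : ℝ} (hF : SideOk PP tKF tL pcF x) (hq : InQ 1 Y) : LinB (fun X => (pcF 1).L.v X Y x) (cv1m.v Y) (cv2m.v Y) (l1q1.v Y x) (l2q1.v Y x) :=
  linT hF.pinL hq (fun X k1 k3 => hF.thL 1 X Y hq k1 k3) (1 : Fin 4) (ecv1q1) (ecv2q1) (tbF_on (onc hq (by decide))) (tbF_on (onc hq (by decide)))
theorem gD_1_1 {Y x : ℝ} (hF : SideOk PP tKF tL pcF x) (hN : SideOk PP tKN tL pcN x) (hm : mun 3 x ≠ 0) (hq : InQ 1 Y) :
    LinB (fun X => ((pcN 1).K.v X Y x - (1 + mun 3 x * cR x) * (pcF 1).K.v X Y x) / mun 3 x) (cv1m.v Y) (cv2m.v Y) (kp1q1.v Y x) (kp2q1.v Y x) :=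
  linB_sub hm (linT hN.pinK hq (fun X k1 k3 => hN.thK 1 X Y hq k1 k3) (1 : Fin 4) (ecv1q1) (ecv2q1)
    ((tbF_on (onc hq (by decide))).trans (kn_v kf1q1.v kp1q1.v kn1q1.v x Y (by simp only [kn1q1]; push_cast; ring)))
    ((tbF_on (onc hq (by decide))).trans (kn_v kf2q1.v kp2q1.v kn2q1.v x Y (by simp only [kn2q1]; push_cast; ring)))) (gK_1_1 hF hq)
theorem gK_1_2 {Y x : ℝ} (hF : SideOk PP tKF tL pcF x) (hq : InQ 1 Y) : LinB (fun X => (pcF 1).K.v X Y x) (cv2m.v Y) (cv3m.v Y) (kf2q1.v Y x) (kf3q1.v Y x) :=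
  linT hF.pinK hq (fun X k1 k3 => hF.thK 1 X Y hq k1 k3) (2 : Fin 4) (ecv2q1) (ecv3q1) (tbF_on (onc hq (by decide))) (tbF_on (onc hq (by decide)))
theorem gL_1_2 {Y x : ℝ} (hF : SideOk PP tKF tL pcF x) (hq : InQ 1 Y) : LinB (fun X => (pcF 1).L.v X Y x) (cv2m.v Y) (cv3m.v Y) (l2q1.v Y x) (l3q1.v Y x) :=
  linT hF.pinL hq (fun X k1 k3 => hF.thL 1 X Y hq k1 k3) (2 : Fin 4) (ecv2q1) (ecv3q1) (tbF_on (onc hq (by decide))) (tbF_on (onc hq (by decide)))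
theorem gD_1_2 {Y x : ℝ} (hF : SideOk PP tKF tL pcF x) (hN : SideOk PP tKN tL pcN x) (hm : mun 3 x ≠ 0) (hq : InQ 1 Y) :
    LinB (fun X => ((pcN 1).K.v X Y x - (1 + mun 3 x * cR x) * (pcF 1).K.v X Y x) / mun 3 x) (cv2m.v Y) (cv3m.v Y) (kp2q1.v Y x) (kp3q1.v Y x) :=
  linB_sub hm (linT hN.pinK hq (fun X k1 k3 => hN.thK 1 X Y hq k1 k3) (2 : Fin 4) (ecv2q1) (ecv3q1)
    ((tbF_on (onc hq (by decide))).trans (kn_v kf2q1.v kp2q1.v kn2q1.v x Y (by simp only [kn2q1]; push_cast; ring)))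
    ((tbF_on (onc hq (by decide))).trans (kn_v kf3q1.v kp3q1.v kn3q1.v x Y (by simp only [kn3q1]; push_cast; ring)))) (gK_1_2 hF hq)
theorem gK_2_1 {Y x : ℝ} (hF : SideOk PP tKF tL pcF x) (hq : InQ 2 Y) : LinB (fun X => (pcF 2).K.v X Y x) (cv1p.v Y) (cv2p.v Y) (kf1q2.v Y x) (kf2q2.v Y x) :=
  linT hF.pinK hq (fun X k1 k3 => hF.thK 2 X Y hq k1 k3) (1 : Fin 4) (ecv1q2) (ecv2q2) (tbF_on (onc hq (by decide))) (tbF_on (onc hq (by decide)))
theorem gL_2_1 {Y x : ℝ} (hF : SideOk PP tKF tL pcF x) (hq : InQ 2 Y) : LinB (fun X => (pcF 2).L.v X Y x) (cv1p.v Y) (cv2p.v Y) (l1q2.v Y x) (l2q2.v Y x) :=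
  linT hF.pinL hq (fun X k1 k3 => hF.thL 2 X Y hq k1 k3) (1 : Fin 4) (ecv1q2) (ecv2q2) (tbF_on (onc hq (by decide))) (tbF_on (onc hq (by decide)))
theorem gD_2_1 {Y x : ℝ} (hF : SideOk PP tKF tL pcF x) (hN : SideOk PP tKN tL pcN x) (hm : mun 3 x ≠ 0) (hq : InQ 2 Y) :
    LinB (fun X => ((pcN 2).K.v X Y x - (1 + mun 3 x * cR x) * (pcF 2).K.v X Y x) / mun 3 x) (cv1p.v Y) (cv2p.v Y) (kp1q2.v Y x) (kp2q2.v Y x) :=
  linB_sub hm (linT hN.pinK hq (fun X k1 k3 => hN.thK 2 X Y hq k1 k3) (1 : Fin 4) (ecv1q2) (ecv2q2)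
    ((tbF_on (onc hq (by decide))).trans (kn_v kf1q2.v kp1q2.v kn1q2.v x Y (by simp only [kn1q2]; push_cast; ring)))
    ((tbF_on (onc hq (by decide))).trans (kn_v kf2q2.v kp2q2.v kn2q2.v x Y (by simp only [kn2q2]; push_cast; ring)))) (gK_2_1 hF hq)
theorem sKAp {X Y x : ℝ} (hF : SideOk PP tKF tL pcF x) (hq : InQ 2 Y) (a : 43 / 32 < Y) (b : Y ≤ 47 / 32)
    (t0 : 0 < (w3W false).v Y - cv1p.v Y) (t1 : 0 < cv2p.v Y - (w3W false).v Y) (t2 : 0 < cv2p.v Y - X)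
    (hX : (w3W false).v Y ≤ X) :
    (pcF 2).K.v X Y x = (w3K false 1 kcg).v Y x + sK_Ap.v X Y x * (X - (w3W false).v Y) :=
  rt0 (gK_2_1 hF hq) (nK_q2 a b (by linarith) (by linarith)) t0 t1 hX t2
theorem sLAp {X Y x : ℝ} (hF : SideOk PP tKF tL pcF x) (hq : InQ 2 Y) (a : 43 / 32 < Y) (b : Y ≤ 47 / 32)
    (t0 : 0 < (w3W false).v Y - cv1p.v Y) (t1 : 0 < cv2p.v Y - (w3W false).v Y) (t2 : 0 < cv2p.v Y - X)
    (hX : (w3W false).v Y ≤ X) :
    (pcF 2).L.v X Y x = (w3Q false kcg).v Y x + sX_Ap.v X Y x * (X - (w3W false).v Y) :=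
  rt0 (gL_2_1 hF hq) (nX_q2 a b (by linarith) (by linarith)) t0 t1 hX t2
theorem sDAp {X Y x : ℝ} (hF : SideOk PP tKF tL pcF x) (hN : SideOk PP tKN tL pcN x) (hm : mun 3 x ≠ 0) (hq : InQ 2 Y) (a : 43 / 32 < Y) (b : Y ≤ 47 / 32)
    (t0 : 0 < (w3W false).v Y - cv1p.v Y) (t1 : 0 < cv2p.v Y - (w3W false).v Y) (t2 : 0 < cv2p.v Y - X)
    (hX : (w3W false).v Y ≤ X) :
    ((pcN 2).K.v X Y x - (1 + mun 3 x * cR x) * (pcF 2).K.v X Y x) / mun 3 x = (w3D false 1 kcg).v Y x + sD_Ap.v X Y x * (X - (w3W false).v Y) :=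
  rt0 (gD_2_1 hF hN hm hq) (nD_q2 a b (by linarith) (by linarith)) t0 t1 hX t2
theorem sKApk1 {X Y x : ℝ} (hF : SideOk PP tKF tL pcF x) (hq : InQ 2 Y) (a : 43 / 32 < Y) (b : Y ≤ 47 / 32)
    (t0 : 0 < (w3W false).v Y - cv1p.v Y) (t1 : 0 < cv2p.v Y - (w3W false).v Y) (t2 : 0 < cv2p.v Y - X)
    (hX : (w3W false).v Y ≤ X) :
    (pcF 2).K.v X Y x = (w3K false 1 kcg).v Y x + sK_Apk1.v X Y x * (X - (w3W false).v Y) :=
  rt0 (gK_2_1 hF hq) (nK_q2 a b (by linarith) (by linarith)) t0 t1 hX t2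
theorem sLApk1 {X Y x : ℝ} (hF : SideOk PP tKF tL pcF x) (hq : InQ 2 Y) (a : 43 / 32 < Y) (b : Y ≤ 47 / 32)
    (t0 : 0 < (w3W false).v Y - cv1p.v Y) (t1 : 0 < cv2p.v Y - (w3W false).v Y) (t2 : 0 < cv2p.v Y - X)
    (hX : (w3W false).v Y ≤ X) :
    (pcF 2).L.v X Y x = (w3Q false kcg).v Y x + sX_Apk1.v X Y x * (X - (w3W false).v Y) :=
  rt0 (gL_2_1 hF hq) (nX_q2 a b (by linarith) (by linarith)) t0 t1 hX t2
theorem sDApk1 {X Y x : ℝ} (hF : SideOk PP tKF tL pcF x) (hN : SideOk PP tKN tL pcN x) (hm : mun 3 x ≠ 0) (hq : InQ 2 Y) (a : 43 / 32 < Y) (b : Y ≤ 47 / 32)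
    (t0 : 0 < (w3W false).v Y - cv1p.v Y) (t1 : 0 < cv2p.v Y - (w3W false).v Y) (t2 : 0 < cv2p.v Y - X)
    (hX : (w3W false).v Y ≤ X) :
    ((pcN 2).K.v X Y x - (1 + mun 3 x * cR x) * (pcF 2).K.v X Y x) / mun 3 x = (w3D false 1 kcg).v Y x + sD_Apk1.v X Y x * (X - (w3W false).v Y) :=
  rt0 (gD_2_1 hF hN hm hq) (nD_q2 a b (by linarith) (by linarith)) t0 t1 hX t2
theorem sKAm {X Y x : ℝ} (hF : SideOk PP tKF tL pcF x) (hq : InQ 2 Y) (a : 43 / 32 < Y) (b : Y ≤ 47 / 32)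
    (t0 : 0 < (w3W false).v Y - cv1p.v Y) (t1 : 0 < cv2p.v Y - (w3W false).v Y) (t2 : 0 < X - cv1p.v Y)
    (hX : X ≤ (w3W false).v Y) :
    (pcF 2).K.v X Y x = (w3K false 1 kcg).v Y x + sK_Am.v X Y x * (X - (w3W false).v Y) :=
  lf0 (gK_2_1 hF hq) (nK_q2 a b (by linarith) (by linarith)) t0 t1 hX t2
theorem sLAm {X Y x : ℝ} (hF : SideOk PP tKF tL pcF x) (hq : InQ 2 Y) (a : 43 / 32 < Y) (b : Y ≤ 47 / 32)
    (t0 : 0 < (w3W false).v Y - cv1p.v Y) (t1 : 0 < cv2p.v Y - (w3W false).v Y) (t2 : 0 < X - cv1p.v Y)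
    (hX : X ≤ (w3W false).v Y) :
    (pcF 2).L.v X Y x = (w3Q false kcg).v Y x + sX_Am.v X Y x * (X - (w3W false).v Y) :=
  lf0 (gL_2_1 hF hq) (nX_q2 a b (by linarith) (by linarith)) t0 t1 hX t2
theorem sDAm {X Y x : ℝ} (hF : SideOk PP tKF tL pcF x) (hN : SideOk PP tKN tL pcN x) (hm : mun 3 x ≠ 0) (hq : InQ 2 Y) (a : 43 / 32 < Y) (b : Y ≤ 47 / 32)
    (t0 : 0 < (w3W false).v Y - cv1p.v Y) (t1 : 0 < cv2p.v Y - (w3W false).v Y) (t2 : 0 < X - cv1p.v Y)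
    (hX : X ≤ (w3W false).v Y) :
    ((pcN 2).K.v X Y x - (1 + mun 3 x * cR x) * (pcF 2).K.v X Y x) / mun 3 x = (w3D false 1 kcg).v Y x + sD_Am.v X Y x * (X - (w3W false).v Y) :=
  lf0 (gD_2_1 hF hN hm hq) (nD_q2 a b (by linarith) (by linarith)) t0 t1 hX t2
theorem sKBp {X Y x : ℝ} (hF : SideOk PP tKF tL pcF x) (hq : InQ 1 Y) (a : 17 / 32 < Y) (b : Y ≤ 21 / 32)
    (t0 : 0 < (w3W true).v Y - cv1m.v Y) (t1 : 0 < cv2m.v Y - (w3W true).v Y) (t2 : 0 < X - cv1m.v Y)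
    (hX : X ≤ (w3W true).v Y) :
    (pcF 1).K.v X Y x = (w3K true 1 kcg).v Y x + sK_Bp.v X Y x * (X - (w3W true).v Y) :=
  lf0 (gK_1_1 hF hq) (nK_q1 a b (by linarith) (by linarith)) t0 t1 hX t2
theorem sLBp {X Y x : ℝ} (hF : SideOk PP tKF tL pcF x) (hq : InQ 1 Y) (a : 17 / 32 < Y) (b : Y ≤ 21 / 32)
    (t0 : 0 < (w3W true).v Y - cv1m.v Y) (t1 : 0 < cv2m.v Y - (w3W true).v Y) (t2 : 0 < X - cv1m.v Y)
    (hX : X ≤ (w3W true).v Y) :
    (pcF 1).L.v X Y x = (w3Q true kcg).v Y x + sX_Bp.v X Y x * (X - (w3W true).v Y) :=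
  lf0 (gL_1_1 hF hq) (nX_q1 a b (by linarith) (by linarith)) t0 t1 hX t2
theorem sDBp {X Y x : ℝ} (hF : SideOk PP tKF tL pcF x) (hN : SideOk PP tKN tL pcN x) (hm : mun 3 x ≠ 0) (hq : InQ 1 Y) (a : 17 / 32 < Y) (b : Y ≤ 21 / 32)
    (t0 : 0 < (w3W true).v Y - cv1m.v Y) (t1 : 0 < cv2m.v Y - (w3W true).v Y) (t2 : 0 < X - cv1m.v Y)
    (hX : X ≤ (w3W true).v Y) :
    ((pcN 1).K.v X Y x - (1 + mun 3 x * cR x) * (pcF 1).K.v X Y x) / mun 3 x = (w3D true 1 kcg).v Y x + sD_Bp.v X Y x * (X - (w3W true).v Y) :=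
  lf0 (gD_1_1 hF hN hm hq) (nD_q1 a b (by linarith) (by linarith)) t0 t1 hX t2
theorem sKBpk1 {X Y x : ℝ} (hF : SideOk PP tKF tL pcF x) (hq : InQ 1 Y) (a : 17 / 32 < Y) (b : Y ≤ 21 / 32)
    (t0 : 0 < (w3W true).v Y - cv1m.v Y) (t1 : 0 < cv2m.v Y - (w3W true).v Y) (t2 : 0 < X - cv1m.v Y)
    (hX : X ≤ (w3W true).v Y) :
    (pcF 1).K.v X Y x = (w3K true 1 kcg).v Y x + sK_Bpk1.v X Y x * (X - (w3W true).v Y) :=
  lf0 (gK_1_1 hF hq) (nK_q1 a b (by linarith) (by linarith)) t0 t1 hX t2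
theorem sLBpk1 {X Y x : ℝ} (hF : SideOk PP tKF tL pcF x) (hq : InQ 1 Y) (a : 17 / 32 < Y) (b : Y ≤ 21 / 32)
    (t0 : 0 < (w3W true).v Y - cv1m.v Y) (t1 : 0 < cv2m.v Y - (w3W true).v Y) (t2 : 0 < X - cv1m.v Y)
    (hX : X ≤ (w3W true).v Y) :
    (pcF 1).L.v X Y x = (w3Q true kcg).v Y x + sX_Bpk1.v X Y x * (X - (w3W true).v Y) :=
  lf0 (gL_1_1 hF hq) (nX_q1 a b (by linarith) (by linarith)) t0 t1 hX t2
theorem sDBpk1 {X Y x : ℝ} (hF : SideOk PP tKF tL pcF x) (hN : SideOk PP tKN tL pcN x) (hm : mun 3 x ≠ 0) (hq : InQ 1 Y) (a : 17 / 32 < Y) (b : Y ≤ 21 / 32)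
    (t0 : 0 < (w3W true).v Y - cv1m.v Y) (t1 : 0 < cv2m.v Y - (w3W true).v Y) (t2 : 0 < X - cv1m.v Y)
    (hX : X ≤ (w3W true).v Y) :
    ((pcN 1).K.v X Y x - (1 + mun 3 x * cR x) * (pcF 1).K.v X Y x) / mun 3 x = (w3D true 1 kcg).v Y x + sD_Bpk1.v X Y x * (X - (w3W true).v Y) :=
  lf0 (gD_1_1 hF hN hm hq) (nD_q1 a b (by linarith) (by linarith)) t0 t1 hX t2
theorem sKBm {X Y x : ℝ} (hF : SideOk PP tKF tL pcF x) (hq : InQ 1 Y) (a : 17 / 32 < Y) (b : Y ≤ 21 / 32)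
    (t0 : 0 < (w3W true).v Y - cv1m.v Y) (t1 : 0 < cv2m.v Y - (w3W true).v Y) (t2 : 0 < cv3m.v Y - X)
    (hX : (w3W true).v Y ≤ X) :
    (pcF 1).K.v X Y x = (w3K true 1 kcg).v Y x + sK_Bm.v X Y x * (X - (w3W true).v Y) :=
  rt1 (gK_1_1 hF hq) (gK_1_2 hF hq) (nK_q1 a b (by linarith) (by linarith)) t0 t1 hX t2
theorem sLBm {X Y x : ℝ} (hF : SideOk PP tKF tL pcF x) (hq : InQ 1 Y) (a : 17 / 32 < Y) (b : Y ≤ 21 / 32)
    (t0 : 0 < (w3W true).v Y - cv1m.v Y) (t1 : 0 < cv2m.v Y - (w3W true).v Y) (t2 : 0 < cv3m.v Y - X)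
    (hX : (w3W true).v Y ≤ X) :
    (pcF 1).L.v X Y x = (w3Q true kcg).v Y x + sX_Bm.v X Y x * (X - (w3W true).v Y) :=
  rt1 (gL_1_1 hF hq) (gL_1_2 hF hq) (nX_q1 a b (by linarith) (by linarith)) t0 t1 hX t2
theorem sDBm {X Y x : ℝ} (hF : SideOk PP tKF tL pcF x) (hN : SideOk PP tKN tL pcN x) (hm : mun 3 x ≠ 0) (hq : InQ 1 Y) (a : 17 / 32 < Y) (b : Y ≤ 21 / 32)
    (t0 : 0 < (w3W true).v Y - cv1m.v Y) (t1 : 0 < cv2m.v Y - (w3W true).v Y) (t2 : 0 < cv3m.v Y - X)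
    (hX : (w3W true).v Y ≤ X) :
    ((pcN 1).K.v X Y x - (1 + mun 3 x * cR x) * (pcF 1).K.v X Y x) / mun 3 x = (w3D true 1 kcg).v Y x + sD_Bm.v X Y x * (X - (w3W true).v Y) :=
  rt1 (gD_1_1 hF hN hm hq) (gD_1_2 hF hN hm hq) (nD_q1 a b (by linarith) (by linarith)) t0 t1 hX t2
theorem rX {x : ℝ} (x0 : 3 / 8 ≤ x) (x1 : x ≤ 7 / 16) : ((402653184 : ℕ) : ℝ) / S ≤ x ∧ x ≤ (((402653184 : ℕ) : ℝ) + (67108864 : ℕ)) / S := by
  unfold S
  push_cast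
  constructor <;> linarith
theorem xr {x : ℝ} (hx : ((402653184 : ℕ) : ℝ) / S ≤ x) (hx' : x ≤ (((402653184 : ℕ) : ℝ) + (67108864 : ℕ)) / S) : 3 / 8 ≤ x ∧ x ≤ 7 / 16 := by
  unfold S at hx hx'
  push_cast at hx hx'
  constructor <;> linarith
theorem w_Ap {u b x : ℝ} (x0 : 3 / 8 ≤ x) (x1 : x ≤ 7 / 16) (h1 : |u| < 1 / 32) (h2 : |b| < 1 / 32) (h3 : |u + b| < 1 / 32) (hb : 0 ≤ b) : (w3W false).v (1 + (x + u + b)) ≤ c1n (x + u) - sp.xs.v u b x := by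
  obtain ⟨u1, u2⟩ := abs_lt.1 h1
  obtain ⟨b1, b2⟩ := abs_lt.1 h2
  obtain ⟨v1, v2⟩ := abs_lt.1 h3
  have cm1 : c1n (1 + b) ≤ 1 / 2 := c1n_half hb
  have cm2 : c1n (x + u) ≥ c1n (x + u + b) := c1n_le' (by linarith) (by linarith)
  rw [w3W_A]
  show c1n (x + u + b) - 1 / 2 ≤ c1n (x + u) - c1n (1 + b)
  linarith
theorem zKAp {u b x : ℝ} (hF : SideOk PP tKF tL pcF x) (x0 : 3 / 8 ≤ x) (x1 : x ≤ 7 / 16) (h1 : |u| < 1 / 32) (h2 : |b| < 1 / 32) (h3 : |u + b| < 1 / 32) (hb : 0 ≤ b) (q3 : InQ 2 (1 + (x + u + b)))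
    (hc : ∀ G ∈ cx_Ap, 0 < G.v u b x) : (pcF 2).K.v (c1n (x + u) - sp.xs.v u b x) (1 + (x + u + b)) x =
    ((c1n (x + u + b) - 1 / 2) * cG (x + u + b) + kcg.v (psn (x + u + b)) x) * (x + u + b) + sK_Ap.v (c1n (x + u) - sp.xs.v u b x) (1 + (x + u + b)) x * (c1n (x + u) - sp.xs.v u b x - (c1n (x + u + b) - 1 / 2)) := by
  have hw := w_Ap x0 x1 h1 h2 h3 hb
  obtain ⟨u1, u2⟩ := abs_lt.1 h1
  obtain ⟨b1, b2⟩ := abs_lt.1 h2
  obtain ⟨v1, v2⟩ := abs_lt.1 h3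
  have y1 := q3.1
  have y2 := q3.2
  have c0 : 0 < (tCC (w3W false) cv1p).v (c1n (x + u) - sp.xs.v u b x) (1 + (x + u + b)) x := hc (f3A sp.xs (tCC (w3W false) cv1p)) (by unfold cx_Ap; simp only [List.mem_cons, true_or, or_true])
  have c1 : 0 < (tCC cv2p (w3W false)).v (c1n (x + u) - sp.xs.v u b x) (1 + (x + u + b)) x := hc (f3A sp.xs (tCC cv2p (w3W false))) (by unfold cx_Ap; simp only [List.mem_cons, true_or, or_true])
  have c2 : 0 < (tCX cv2p).v (c1n (x + u) - sp.xs.v u b x) (1 + (x + u + b)) x := hc (f3A sp.xs (tCX cv2p)) (by unfold cx_Ap; simp only [List.mem_cons, true_or, or_true])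
  refine (sKAp hF q3 (by linarith) (by linarith) c0 c1 c2 hw).trans ?_
  rw [w3K_A, w3W_A]
  push_cast
  ring
theorem zLAp {u b x : ℝ} (hF : SideOk PP tKF tL pcF x) (x0 : 3 / 8 ≤ x) (x1 : x ≤ 7 / 16) (h1 : |u| < 1 / 32) (h2 : |b| < 1 / 32) (h3 : |u + b| < 1 / 32) (hb : 0 ≤ b) (q3 : InQ 2 (1 + (x + u + b)))
    (hc : ∀ G ∈ cx_Ap, 0 < G.v u b x) : (pcF 2).L.v (c1n (x + u) - sp.xs.v u b x) (1 + (x + u + b)) x =
    cQ x (x + u + b) (kcg.v (psn (x + u + b)) x) + sX_Ap.v (c1n (x + u) - sp.xs.v u b x) (1 + (x + u + b)) x * (c1n (x + u) - sp.xs.v u b x - (c1n (x + u + b) - 1 / 2)) := by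
  have hw := w_Ap x0 x1 h1 h2 h3 hb
  obtain ⟨u1, u2⟩ := abs_lt.1 h1
  obtain ⟨b1, b2⟩ := abs_lt.1 h2
  obtain ⟨v1, v2⟩ := abs_lt.1 h3
  have y1 := q3.1
  have y2 := q3.2
  have c0 : 0 < (tCC (w3W false) cv1p).v (c1n (x + u) - sp.xs.v u b x) (1 + (x + u + b)) x := hc (f3A sp.xs (tCC (w3W false) cv1p)) (by unfold cx_Ap; simp only [List.mem_cons, true_or, or_true])
  have c1 : 0 < (tCC cv2p (w3W false)).v (c1n (x + u) - sp.xs.v u b x) (1 + (x + u + b)) x := hc (f3A sp.xs (tCC cv2p (w3W false))) (by unfold cx_Ap; simp only [List.mem_cons, true_or, or_true])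
  have c2 : 0 < (tCX cv2p).v (c1n (x + u) - sp.xs.v u b x) (1 + (x + u + b)) x := hc (f3A sp.xs (tCX cv2p)) (by unfold cx_Ap; simp only [List.mem_cons, true_or, or_true])
  refine (sLAp hF q3 (by linarith) (by linarith) c0 c1 c2 hw).trans ?_
  rw [w3Q_A, w3W_A]
theorem zDAp {u b x : ℝ} (hF : SideOk PP tKF tL pcF x) (hN : SideOk PP tKN tL pcN x) (x0 : 3 / 8 ≤ x) (x1 : x ≤ 7 / 16) (h1 : |u| < 1 / 32) (h2 : |b| < 1 / 32) (h3 : |u + b| < 1 / 32) (hb : 0 ≤ b) (q3 : InQ 2 (1 + (x + u + b)))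
    (hc : ∀ G ∈ cx_Ap, 0 < G.v u b x) : ((pcN 2).K.v (c1n (x + u) - sp.xs.v u b x) (1 + (x + u + b)) x - (1 + mun 3 x * cR x) * (pcF 2).K.v (c1n (x + u) - sp.xs.v u b x) (1 + (x + u + b)) x) / mun 3 x =
    (cP (x + u + b) - 1 / 2 * cD (x + u + b) - (cR (x + u + b) + 2 * c1n (x + u + b) - 1) * kcg.v (psn (x + u + b)) x) * (x + u + b) + sD_Ap.v (c1n (x + u) - sp.xs.v u b x) (1 + (x + u + b)) x * (c1n (x + u) - sp.xs.v u b x - (c1n (x + u + b) - 1 / 2)) := by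
  have hw := w_Ap x0 x1 h1 h2 h3 hb
  obtain ⟨u1, u2⟩ := abs_lt.1 h1
  obtain ⟨b1, b2⟩ := abs_lt.1 h2
  obtain ⟨v1, v2⟩ := abs_lt.1 h3
  have y1 := q3.1
  have y2 := q3.2
  have c0 : 0 < (tCC (w3W false) cv1p).v (c1n (x + u) - sp.xs.v u b x) (1 + (x + u + b)) x := hc (f3A sp.xs (tCC (w3W false) cv1p)) (by unfold cx_Ap; simp only [List.mem_cons, true_or, or_true])
  have c1 : 0 < (tCC cv2p (w3W false)).v (c1n (x + u) - sp.xs.v u b x) (1 + (x + u + b)) x := hc (f3A sp.xs (tCC cv2p (w3W false))) (by unfold cx_Ap; simp only [List.mem_cons, true_or, or_true])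
  have c2 : 0 < (tCX cv2p).v (c1n (x + u) - sp.xs.v u b x) (1 + (x + u + b)) x := hc (f3A sp.xs (tCX cv2p)) (by unfold cx_Ap; simp only [List.mem_cons, true_or, or_true])
  refine (sDAp hF hN (mun_ne x) q3 (by linarith) (by linarith) c0 c1 c2 hw).trans ?_
  rw [w3D_A, w3W_A]
  push_cast
  ring
theorem fF_Ap {a : ℕ} {x u b κ τ : ℝ} (hF : SideOk PP tKF tL pcF x) (hκ : κ * h0 = ken x)
    (x0 : 3 / 8 ≤ x) (x1 : x ≤ 7 / 16) (h1 : |u| < 1 / 32) (h2 : |b| < 1 / 32) (h3 : |u + b| < 1 / 32) (F : FactsA PP a 2 2 0 0 1 (-1) (x + u) (1 + b))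
    (t1 : tau (h0 * (x + u)) = h0 * τ) (K1 : tKF 0 a (x + u) x = (c1n (x + u) * cG (x + u) + kcg.v (psn (x + u)) x) * τ) (L1 : tL 0 a (x + u) x = cQ x (x + u) (kcg.v (psn (x + u)) x)) :
    StA (VF κ) PP tKF tL pcF a 2 2 0 0 1 (-1) x (x + u) (1 + b) := by
  obtain ⟨u1, u2⟩ := abs_lt.1 h1
  obtain ⟨b1, b2⟩ := abs_lt.1 h2
  obtain ⟨v1, v2⟩ := abs_lt.1 h3
  have qs := F.q2
  have hs1 := F.k0 rfl
  have hb : 0 ≤ b := by linarith [qs.1]
  have D : DomA u b x := ⟨by linarith, by linarith, by linarith, by linarith, by linarith, by linarith, by linarith, by linarith⟩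
  have hY : x + u + (1 + b) = 1 + (x + u + b) := by ring
  have q3 : InQ 2 (1 + (x + u + b)) := hY ▸ F.q3
  obtain ⟨p1, p2⟩ := psr (y := x + u) (by linarith) (by linarith)
  obtain ⟨p3, p4⟩ := psr (y := x + u + b) (by linarith) (by linarith)
  have hd := dqAp (dq_t x) hb (by linarith) (by linarith) (by linarith) (by linarith) p1 p2 p3 p4
  have hs : ∀ G ∈ sk_Ap, G.v u b x ≤ 0 := skPM (A := true) (v := 33554432) (u := u) (b := b) (x := x) (abs_le.2 ⟨by simp only [cond_true, cond_false]; unfold S; norm_num; linarith, by simp only [cond_true, cond_false]; unfold S; norm_num; linarith⟩)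
  obtain ⟨r1, r2⟩ := rX x0 x1
  have K := Cht.cert (ng := false) (r := 33554432) ct_0Ap (u := u) (b := b) (x := x) (by unfold S; norm_num; linarith) (by unfold S; norm_num; linarith) (by simp only [cond_true, cond_false]; linarith) (by simp only [cond_true, cond_false]; unfold S; norm_num; linarith) r1 r2
  have t3 := t3A2 F.q3
  have hit : ((T_Ap.a true).at_ u b x).it * (x + u + b) = 1 := by
    show (x + u + b)⁻¹ * _ = _
    exact inv_mul_cancel₀ (ne_of_gt (by linarith))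
  have hx : sp.xs.v u b x = 1 / 2 + b * sp.ws.v u b x := stP_x (by linarith) (by linarith)
  have hX : crv PP 0 2 (1 + b) = sp.xs.v u b x := crv0 2 (1 + b)
  have K3 : (∀ G ∈ cx_Ap, 0 < G.v u b x) → (pcF 2).K.v (c1n (x + u) - sp.xs.v u b x) (x + u + (1 + b)) x = ((c1n (x + u + b) - 1 / 2) * cG (x + u + b) + kcg.v (psn (x + u + b)) x) * (x + u + b) + sK_Ap.v (c1n (x + u) - sp.xs.v u b x) (1 + (x + u + b)) x * (c1n (x + u) - sp.xs.v u b x - (c1n (x + u + b) - 1 / 2)) := fun hc => by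
    rw [hY]
    exact zKAp hF x0 x1 h1 h2 h3 hb q3 hc
  have L3 : (∀ G ∈ cx_Ap, 0 < G.v u b x) → (pcF 2).L.v (c1n (x + u) - sp.xs.v u b x) (x + u + (1 + b)) x = cQ x (x + u + b) (kcg.v (psn (x + u + b)) x) + sX_Ap.v (c1n (x + u) - sp.xs.v u b x) (1 + (x + u + b)) x * (c1n (x + u) - sp.xs.v u b x - (c1n (x + u + b) - 1 / 2)) := fun hc => by
    rw [hY]
    exact zLAp hF x0 x1 h1 h2 h3 hb q3 hc
  exact farAp (T := T_Ap) (sk := sk_Ap) (cx := cx_Ap) D hb hκ hd hit t1 t3 hx hX K hs K1 (spK u hb qs hs1 (by linarith)) K3 L1 (spL u hb qs hs1 (by linarith)) L3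
theorem AF_022 {x κ y y' : ℝ} (hF : SideOk PP tKF tL pcF x) (hκ : κ * h0 = ken x) (x0 : 3 / 8 ≤ x) (x1 : x ≤ 7 / 16)
    (F : FactsA PP 0 2 2 0 0 1 (-1) y y') (h1 : |y - x| < 1 / 32) (h2 : |y' - 1| < 1 / 32) (h3 : |y + y' - (1 + x)| < 1 / 32) :
    StA (VF κ) PP tKF tL pcF 0 2 2 0 0 1 (-1) x y y' := by
  obtain ⟨u, rfl⟩ : ∃ u, y = x + u := ⟨y - x, by ring⟩
  obtain ⟨b, rfl⟩ : ∃ b, y' = 1 + b := ⟨y' - 1, by ring⟩
  rw [show x + u - x = u by ring] at h1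
  rw [show 1 + b - 1 = b by ring] at h2
  rw [show x + u + (1 + b) - (1 + x) = u + b by ring] at h3
  obtain ⟨u1, u2⟩ := abs_lt.1 h1
  exact fF_Ap hF hκ x0 x1 h1 h2 h3 F (t1_0 F.q1) (shK0 F.q1 (by linarith) (by linarith)) (shL0 F.q1 (by linarith) (by linarith))
theorem molF_A_022_00_0 {κ x : ℝ} (hκ : κ * h0 = ken x) (hx : ((402653184 : ℕ) : ℝ) / S ≤ x) (hx' : x ≤ (((402653184 : ℕ) : ℝ) + (67108864 : ℕ)) / S) :
    AltA (VF κ) PP tKF tL pcF [⟨0, 0, 1, 33554432⟩, ⟨1, 1, 0, 33554432⟩, ⟨2, 1, 1, 33554432⟩] 0 2 2 0 0 (sgb true) (sgb false) x := by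
  obtain ⟨x0, x1⟩ := xr hx hx'
  exact altA_s fun y y' F h1 h2 h3 => AF_022 (sideF hx hx') hκ x0 x1 F (h1.trans_eq (by norm_num)) (h2.trans_eq (by norm_num)) (h3.trans_eq (by norm_num))
theorem MF_202 {x κ y y' : ℝ} (hF : SideOk PP tKF tL pcF x) (hκ : κ * h0 = ken x) (x0 : 3 / 8 ≤ x) (x1 : x ≤ 7 / 16)
    (F : FactsA PP 2 0 2 0 0 1 (-1) y y') (h2 : |y - 1| < 1 / 32) (h1 : |y' - x| < 1 / 32) (h3 : |y + y' - (1 + x)| < 1 / 32) :
    StA (VF κ) PP tKF tL pcF 2 0 2 0 0 1 (-1) x y y' := by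
  have F2 := factsA_mirror F
  rw [neg_neg] at F2
  have h3' : |y' + y - (1 + x)| < 1 / 32 := by rwa [add_comm y' y]
  have H := AF_022 hF hκ x0 x1 F2 h1 h2 h3'
  obtain ⟨u1, u2⟩ := abs_lt.1 h1
  obtain ⟨b1, b2⟩ := abs_lt.1 h2
  have hX : (1 : ℝ) * crv PP 0 2 y + -1 * crv PP 0 0 y' ≠ 0 := by
    rw [crv0, crv0]
    have := c1n_lt (y := y') (z := y) (by linarith) (by linarith) (by nlinarith)
    intro h
    linarith
  refine StA.mirF hF F hX ?_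
  rw [neg_neg]
  exact H
theorem molF_A_202_00_1 {κ x : ℝ} (hκ : κ * h0 = ken x) (hx : ((402653184 : ℕ) : ℝ) / S ≤ x) (hx' : x ≤ (((402653184 : ℕ) : ℝ) + (67108864 : ℕ)) / S) :
    AltA (VF κ) PP tKF tL pcF [⟨0, 1, 0, 33554432⟩, ⟨1, 0, 1, 33554432⟩, ⟨2, 1, 1, 33554432⟩] 2 0 2 0 0 (sgb true) (sgb false) x := by
  obtain ⟨x0, x1⟩ := xr hx hx'
  exact altA_m fun y y' F h2 h1 h3 => MF_202 (sideF hx hx') hκ x0 x1 F (h2.trans_eq (by norm_num)) (h1.trans_eq (by norm_num)) (h3.trans_eq (by norm_num))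
theorem fN_Ap {a : ℕ} {x u b κ τ : ℝ} (hF : SideOk PP tKF tL pcF x) (hN : SideOk PP tKN tL pcN x) (hκ : κ * h0 = ken x)
    (x0 : 3 / 8 ≤ x) (x1 : x ≤ 7 / 16) (h1 : |u| < 1 / 32) (h2 : |b| < 1 / 32) (h3 : |u + b| < 1 / 32) (F : FactsA PP a 2 2 0 0 1 (-1) (x + u) (1 + b))
    (t1 : tau (h0 * (x + u)) = h0 * τ) (N1 : tKN 0 a (x + u) x = (1 + mun 3 x * cR x) * ((c1n (x + u) * cG (x + u) + kcg.v (psn (x + u)) x) * τ) + mun 3 x * ((cP (x + u) - (cR (x + u) + 2 * c1n (x + u)) * kcg.v (psn (x + u)) x) * τ)) (L1 : tL 0 a (x + u) x = cQ x (x + u) (kcg.v (psn (x + u)) x)) :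
    StA (VN 3 κ) PP tKN tL pcN a 2 2 0 0 1 (-1) x (x + u) (1 + b) := by
  obtain ⟨u1, u2⟩ := abs_lt.1 h1
  obtain ⟨b1, b2⟩ := abs_lt.1 h2
  obtain ⟨v1, v2⟩ := abs_lt.1 h3
  have qs := F.q2
  have hs1 := F.k0 rfl
  have hb : 0 ≤ b := by linarith [qs.1]
  have D : DomA u b x := ⟨by linarith, by linarith, by linarith, by linarith, by linarith, by linarith, by linarith, by linarith⟩
  have hY : x + u + (1 + b) = 1 + (x + u + b) := by ring
  have q3 : InQ 2 (1 + (x + u + b)) := hY ▸ F.q3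
  obtain ⟨p1, p2⟩ := psr (y := x + u) (by linarith) (by linarith)
  obtain ⟨p3, p4⟩ := psr (y := x + u + b) (by linarith) (by linarith)
  have hd := dqAp (dq_t x) hb (by linarith) (by linarith) (by linarith) (by linarith) p1 p2 p3 p4
  have hs : ∀ G ∈ sk_Ap, G.v u b x ≤ 0 := skPM (A := true) (v := 33554432) (u := u) (b := b) (x := x) (abs_le.2 ⟨by simp only [cond_true, cond_false]; unfold S; norm_num; linarith, by simp only [cond_true, cond_false]; unfold S; norm_num; linarith⟩)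
  obtain ⟨r1, r2⟩ := rX x0 x1
  have K := Cht.cert (ng := false) (r := 33554432) ct_1Ap (u := u) (b := b) (x := x) (by unfold S; norm_num; linarith) (by unfold S; norm_num; linarith) (by simp only [cond_true, cond_false]; linarith) (by simp only [cond_true, cond_false]; unfold S; norm_num; linarith) r1 r2
  have t3 := t3A2 F.q3
  have hit : ((T_Ap.a true).at_ u b x).it * (x + u + b) = 1 := by
    show (x + u + b)⁻¹ * _ = _
    exact inv_mul_cancel₀ (ne_of_gt (by linarith))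
  have hx : sp.xs.v u b x = 1 / 2 + b * sp.ws.v u b x := stP_x (by linarith) (by linarith)
  have hX : crv PP 0 2 (1 + b) = sp.xs.v u b x := crv0 2 (1 + b)
  have K3 : (∀ G ∈ cx_Ap, 0 < G.v u b x) → (pcF 2).K.v (c1n (x + u) - sp.xs.v u b x) (x + u + (1 + b)) x = ((c1n (x + u + b) - 1 / 2) * cG (x + u + b) + kcg.v (psn (x + u + b)) x) * (x + u + b) + sK_Ap.v (c1n (x + u) - sp.xs.v u b x) (1 + (x + u + b)) x * (c1n (x + u) - sp.xs.v u b x - (c1n (x + u + b) - 1 / 2)) := fun hc => by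
    rw [hY]
    exact zKAp hF x0 x1 h1 h2 h3 hb q3 hc
  have L3 : (∀ G ∈ cx_Ap, 0 < G.v u b x) → (pcF 2).L.v (c1n (x + u) - sp.xs.v u b x) (x + u + (1 + b)) x = cQ x (x + u + b) (kcg.v (psn (x + u + b)) x) + sX_Ap.v (c1n (x + u) - sp.xs.v u b x) (1 + (x + u + b)) x * (c1n (x + u) - sp.xs.v u b x - (c1n (x + u + b) - 1 / 2)) := fun hc => by
    rw [hY]
    exact zLAp hF x0 x1 h1 h2 h3 hb q3 hc
  have D3 : (∀ G ∈ cx_Ap, 0 < G.v u b x) → ((pcN 2).K.v (c1n (x + u) - sp.xs.v u b x) (x + u + (1 + b)) x - (1 + mun 3 x * cR x) * (pcF 2).K.v (c1n (x + u) - sp.xs.v u b x) (x + u + (1 + b)) x) / mun 3 x = (cP (x + u + b) - 1 / 2 * cD (x + u + b) - (cR (x + u + b) + 2 * c1n (x + u + b) - 1) * kcg.v (psn (x + u + b)) x) * (x + u + b) + sD_Ap.v (c1n (x + u) - sp.xs.v u b x) (1 + (x + u + b)) x * (c1n (x + u) - sp.xs.v u b x - (c1n (x + u + b) - 1 / 2)) := fun hc => by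
    rw [hY]
    exact zDAp hF hN x0 x1 h1 h2 h3 hb q3 hc
  exact nearAp (T := T_Ap) (sk := sk_Ap) (cx := cx_Ap) D hb hκ hd hit t1 t3 hx hX K hs (kcb (by linarith) (by linarith) x0 x1) N1 (spN hb qs hs1) (spK u hb qs hs1 (by linarith)) (spD u hb hs1 (by linarith)) (fun _ => div_mun) K3 D3 L1 (spL u hb qs hs1 (by linarith)) L3
theorem AN_022 {x κ y y' : ℝ} (hF : SideOk PP tKF tL pcF x) (hN : SideOk PP tKN tL pcN x) (hκ : κ * h0 = ken x) (x0 : 3 / 8 ≤ x) (x1 : x ≤ 7 / 16)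
    (F : FactsA PP 0 2 2 0 0 1 (-1) y y') (h1 : |y - x| < 1 / 32) (h2 : |y' - 1| < 1 / 32) (h3 : |y + y' - (1 + x)| < 1 / 32) :
    StA (VN 3 κ) PP tKN tL pcN 0 2 2 0 0 1 (-1) x y y' := by
  obtain ⟨u, rfl⟩ : ∃ u, y = x + u := ⟨y - x, by ring⟩
  obtain ⟨b, rfl⟩ : ∃ b, y' = 1 + b := ⟨y' - 1, by ring⟩
  rw [show x + u - x = u by ring] at h1
  rw [show 1 + b - 1 = b by ring] at h2
  rw [show x + u + (1 + b) - (1 + x) = u + b by ring] at h3
  obtain ⟨u1, u2⟩ := abs_lt.1 h1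
  exact fN_Ap hF hN hκ x0 x1 h1 h2 h3 F (t1_0 F.q1) (shN0 F.q1 (by linarith) (by linarith)) (shL0 F.q1 (by linarith) (by linarith))
theorem molN_A_022_00_0 {κ x : ℝ} (hκ : κ * h0 = ken x) (hx : ((402653184 : ℕ) : ℝ) / S ≤ x) (hx' : x ≤ (((402653184 : ℕ) : ℝ) + (67108864 : ℕ)) / S) :
    AltA (VN 3 κ) PP tKN tL pcN [⟨0, 0, 1, 33554432⟩, ⟨1, 1, 0, 33554432⟩, ⟨2, 1, 1, 33554432⟩] 0 2 2 0 0 (sgb true) (sgb false) x := by
  obtain ⟨x0, x1⟩ := xr hx hx'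
  exact altA_s fun y y' F h1 h2 h3 => AN_022 (sideF hx hx') (sideN hx hx') hκ x0 x1 F (h1.trans_eq (by norm_num)) (h2.trans_eq (by norm_num)) (h3.trans_eq (by norm_num))
theorem MN_202 {x κ y y' : ℝ} (hF : SideOk PP tKF tL pcF x) (hN : SideOk PP tKN tL pcN x) (hκ : κ * h0 = ken x) (x0 : 3 / 8 ≤ x) (x1 : x ≤ 7 / 16)
    (F : FactsA PP 2 0 2 0 0 1 (-1) y y') (h2 : |y - 1| < 1 / 32) (h1 : |y' - x| < 1 / 32) (h3 : |y + y' - (1 + x)| < 1 / 32) :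
    StA (VN 3 κ) PP tKN tL pcN 2 0 2 0 0 1 (-1) x y y' := by
  have F2 := factsA_mirror F
  rw [neg_neg] at F2
  have h3' : |y' + y - (1 + x)| < 1 / 32 := by rwa [add_comm y' y]
  have H := AN_022 hF hN hκ x0 x1 F2 h1 h2 h3'
  obtain ⟨u1, u2⟩ := abs_lt.1 h1
  obtain ⟨b1, b2⟩ := abs_lt.1 h2
  have hX : (1 : ℝ) * crv PP 0 2 y + -1 * crv PP 0 0 y' ≠ 0 := by
    rw [crv0, crv0]
    have := c1n_lt (y := y') (z := y) (by linarith) (by linarith) (by nlinarith)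
    intro h
    linarith
  refine StA.mirN hN F hX ?_
  rw [neg_neg]
  exact H
theorem molN_A_202_00_1 {κ x : ℝ} (hκ : κ * h0 = ken x) (hx : ((402653184 : ℕ) : ℝ) / S ≤ x) (hx' : x ≤ (((402653184 : ℕ) : ℝ) + (67108864 : ℕ)) / S) :
    AltA (VN 3 κ) PP tKN tL pcN [⟨0, 1, 0, 33554432⟩, ⟨1, 0, 1, 33554432⟩, ⟨2, 1, 1, 33554432⟩] 2 0 2 0 0 (sgb true) (sgb false) x := by
  obtain ⟨x0, x1⟩ := xr hx hx'
  exact altA_m fun y y' F h2 h1 h3 => MN_202 (sideF hx hx') (sideN hx hx') hκ x0 x1 F (h2.trans_eq (by norm_num)) (h1.trans_eq (by norm_num)) (h3.trans_eq (by norm_num))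
theorem w_Apk1 {u b x : ℝ} (x0 : 3 / 8 ≤ x) (x1 : x ≤ 7 / 16) (h1 : |u| < 1 / 32) (h2 : |b| < 1 / 32) (h3 : |u + b| < 1 / 32) (hb : 0 ≤ b) : (w3W false).v (1 + (x + u + b)) ≤ c1n (x + u) - sk1.xs.v u b x := by
  obtain ⟨u1, u2⟩ := abs_lt.1 h1
  obtain ⟨b1, b2⟩ := abs_lt.1 h2
  obtain ⟨v1, v2⟩ := abs_lt.1 h3
  have cm1 : (fXS 1 1 2).v u b x ≤ 1 / 2 := fXS_le (by norm_num) hb
  have cm2 : c1n (x + u) ≥ c1n (x + u + b) := c1n_le' (by linarith) (by linarith)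
  rw [w3W_A]
  show c1n (x + u + b) - 1 / 2 ≤ c1n (x + u) - (fXS 1 1 2).v u b x
  linarith
theorem zKApk1 {u b x : ℝ} (hF : SideOk PP tKF tL pcF x) (x0 : 3 / 8 ≤ x) (x1 : x ≤ 7 / 16) (h1 : |u| < 1 / 32) (h2 : |b| < 1 / 32) (h3 : |u + b| < 1 / 32) (hb : 0 ≤ b) (q3 : InQ 2 (1 + (x + u + b)))
    (hc : ∀ G ∈ cx_Apk1, 0 < G.v u b x) : (pcF 2).K.v (c1n (x + u) - sk1.xs.v u b x) (1 + (x + u + b)) x =
    ((c1n (x + u + b) - 1 / 2) * cG (x + u + b) + kcg.v (psn (x + u + b)) x) * (x + u + b) + sK_Apk1.v (c1n (x + u) - sk1.xs.v u b x) (1 + (x + u + b)) x * (c1n (x + u) - sk1.xs.v u b x - (c1n (x + u + b) - 1 / 2)) := by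
  have hw := w_Apk1 x0 x1 h1 h2 h3 hb
  obtain ⟨u1, u2⟩ := abs_lt.1 h1
  obtain ⟨b1, b2⟩ := abs_lt.1 h2
  obtain ⟨v1, v2⟩ := abs_lt.1 h3
  have y1 := q3.1
  have y2 := q3.2
  have c0 : 0 < (tCC (w3W false) cv1p).v (c1n (x + u) - sk1.xs.v u b x) (1 + (x + u + b)) x := hc (f3A sk1.xs (tCC (w3W false) cv1p)) (by unfold cx_Apk1; simp only [List.mem_cons, true_or, or_true])
  have c1 : 0 < (tCC cv2p (w3W false)).v (c1n (x + u) - sk1.xs.v u b x) (1 + (x + u + b)) x := hc (f3A sk1.xs (tCC cv2p (w3W false))) (by unfold cx_Apk1; simp only [List.mem_cons, true_or, or_true])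
  have c2 : 0 < (tCX cv2p).v (c1n (x + u) - sk1.xs.v u b x) (1 + (x + u + b)) x := hc (f3A sk1.xs (tCX cv2p)) (by unfold cx_Apk1; simp only [List.mem_cons, true_or, or_true])
  refine (sKApk1 hF q3 (by linarith) (by linarith) c0 c1 c2 hw).trans ?_
  rw [w3K_A, w3W_A]
  push_cast
  ring
theorem zLApk1 {u b x : ℝ} (hF : SideOk PP tKF tL pcF x) (x0 : 3 / 8 ≤ x) (x1 : x ≤ 7 / 16) (h1 : |u| < 1 / 32) (h2 : |b| < 1 / 32) (h3 : |u + b| < 1 / 32) (hb : 0 ≤ b) (q3 : InQ 2 (1 + (x + u + b)))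
    (hc : ∀ G ∈ cx_Apk1, 0 < G.v u b x) : (pcF 2).L.v (c1n (x + u) - sk1.xs.v u b x) (1 + (x + u + b)) x =
    cQ x (x + u + b) (kcg.v (psn (x + u + b)) x) + sX_Apk1.v (c1n (x + u) - sk1.xs.v u b x) (1 + (x + u + b)) x * (c1n (x + u) - sk1.xs.v u b x - (c1n (x + u + b) - 1 / 2)) := by
  have hw := w_Apk1 x0 x1 h1 h2 h3 hb
  obtain ⟨u1, u2⟩ := abs_lt.1 h1
  obtain ⟨b1, b2⟩ := abs_lt.1 h2
  obtain ⟨v1, v2⟩ := abs_lt.1 h3
  have y1 := q3.1
  have y2 := q3.2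
  have c0 : 0 < (tCC (w3W false) cv1p).v (c1n (x + u) - sk1.xs.v u b x) (1 + (x + u + b)) x := hc (f3A sk1.xs (tCC (w3W false) cv1p)) (by unfold cx_Apk1; simp only [List.mem_cons, true_or, or_true])
  have c1 : 0 < (tCC cv2p (w3W false)).v (c1n (x + u) - sk1.xs.v u b x) (1 + (x + u + b)) x := hc (f3A sk1.xs (tCC cv2p (w3W false))) (by unfold cx_Apk1; simp only [List.mem_cons, true_or, or_true])
  have c2 : 0 < (tCX cv2p).v (c1n (x + u) - sk1.xs.v u b x) (1 + (x + u + b)) x := hc (f3A sk1.xs (tCX cv2p)) (by unfold cx_Apk1; simp only [List.mem_cons, true_or, or_true])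
  refine (sLApk1 hF q3 (by linarith) (by linarith) c0 c1 c2 hw).trans ?_
  rw [w3Q_A, w3W_A]
theorem zDApk1 {u b x : ℝ} (hF : SideOk PP tKF tL pcF x) (hN : SideOk PP tKN tL pcN x) (x0 : 3 / 8 ≤ x) (x1 : x ≤ 7 / 16) (h1 : |u| < 1 / 32) (h2 : |b| < 1 / 32) (h3 : |u + b| < 1 / 32) (hb : 0 ≤ b) (q3 : InQ 2 (1 + (x + u + b)))
    (hc : ∀ G ∈ cx_Apk1, 0 < G.v u b x) : ((pcN 2).K.v (c1n (x + u) - sk1.xs.v u b x) (1 + (x + u + b)) x - (1 + mun 3 x * cR x) * (pcF 2).K.v (c1n (x + u) - sk1.xs.v u b x) (1 + (x + u + b)) x) / mun 3 x =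
    (cP (x + u + b) - 1 / 2 * cD (x + u + b) - (cR (x + u + b) + 2 * c1n (x + u + b) - 1) * kcg.v (psn (x + u + b)) x) * (x + u + b) + sD_Apk1.v (c1n (x + u) - sk1.xs.v u b x) (1 + (x + u + b)) x * (c1n (x + u) - sk1.xs.v u b x - (c1n (x + u + b) - 1 / 2)) := by
  have hw := w_Apk1 x0 x1 h1 h2 h3 hb
  obtain ⟨u1, u2⟩ := abs_lt.1 h1
  obtain ⟨b1, b2⟩ := abs_lt.1 h2
  obtain ⟨v1, v2⟩ := abs_lt.1 h3
  have y1 := q3.1
  have y2 := q3.2
  have c0 : 0 < (tCC (w3W false) cv1p).v (c1n (x + u) - sk1.xs.v u b x) (1 + (x + u + b)) x := hc (f3A sk1.xs (tCC (w3W false) cv1p)) (by unfold cx_Apk1; simp only [List.mem_cons, true_or, or_true])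
  have c1 : 0 < (tCC cv2p (w3W false)).v (c1n (x + u) - sk1.xs.v u b x) (1 + (x + u + b)) x := hc (f3A sk1.xs (tCC cv2p (w3W false))) (by unfold cx_Apk1; simp only [List.mem_cons, true_or, or_true])
  have c2 : 0 < (tCX cv2p).v (c1n (x + u) - sk1.xs.v u b x) (1 + (x + u + b)) x := hc (f3A sk1.xs (tCX cv2p)) (by unfold cx_Apk1; simp only [List.mem_cons, true_or, or_true])
  refine (sDApk1 hF hN (mun_ne x) q3 (by linarith) (by linarith) c0 c1 c2 hw).trans ?_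
  rw [w3D_A, w3W_A]
  push_cast
  ring
theorem fF_Apk1 {a : ℕ} {x u b κ τ : ℝ} (hF : SideOk PP tKF tL pcF x) (hκ : κ * h0 = ken x)
    (x0 : 3 / 8 ≤ x) (x1 : x ≤ 7 / 16) (h1 : |u| < 1 / 32) (h2 : |b| < 1 / 32) (h3 : |u + b| < 1 / 32) (F : FactsA PP a 2 2 0 1 1 (-1) (x + u) (1 + b))
    (t1 : tau (h0 * (x + u)) = h0 * τ) (K1 : tKF 0 a (x + u) x = (c1n (x + u) * cG (x + u) + kcg.v (psn (x + u)) x) * τ) (L1 : tL 0 a (x + u) x = cQ x (x + u) (kcg.v (psn (x + u)) x)) :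
    StA (VF κ) PP tKF tL pcF a 2 2 0 1 1 (-1) x (x + u) (1 + b) := by
  obtain ⟨u1, u2⟩ := abs_lt.1 h1
  obtain ⟨b1, b2⟩ := abs_lt.1 h2
  obtain ⟨v1, v2⟩ := abs_lt.1 h3
  have qs := F.q2
  have hb : 0 ≤ b := by linarith [qs.1]
  have D : DomA u b x := ⟨by linarith, by linarith, by linarith, by linarith, by linarith, by linarith, by linarith, by linarith⟩
  have hY : x + u + (1 + b) = 1 + (x + u + b) := by ring
  have q3 : InQ 2 (1 + (x + u + b)) := hY ▸ F.q3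
  obtain ⟨p1, p2⟩ := psr (y := x + u) (by linarith) (by linarith)
  obtain ⟨p3, p4⟩ := psr (y := x + u + b) (by linarith) (by linarith)
  have hd := dqAp (dq_t x) hb (by linarith) (by linarith) (by linarith) (by linarith) p1 p2 p3 p4
  have hs : ∀ G ∈ sk_Apk1, G.v u b x ≤ 0 := skPM (A := true) (v := 33554432) (u := u) (b := b) (x := x) (abs_le.2 ⟨by simp only [cond_true, cond_false]; unfold S; norm_num; linarith, by simp only [cond_true, cond_false]; unfold S; norm_num; linarith⟩)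
  obtain ⟨r1, r2⟩ := rX x0 x1
  have K := Cht.cert (ng := false) (r := 33554432) ct_0Apk1 (u := u) (b := b) (x := x) (by unfold S; norm_num; linarith) (by unfold S; norm_num; linarith) (by simp only [cond_true, cond_false]; linarith) (by simp only [cond_true, cond_false]; unfold S; norm_num; linarith) r1 r2
  have t3 := t3A2 F.q3
  have hit : ((T_Apk1.a true).at_ u b x).it * (x + u + b) = 1 := by
    show (x + u + b)⁻¹ * _ = _
    exact inv_mul_cancel₀ (ne_of_gt (by linarith))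
  have hx : sk1.xs.v u b x = 1 / 2 + b * sk1.ws.v u b x := stK_x (by norm_num) (by linarith) (by linarith)
  have hX : crv PP 1 2 (1 + b) = sk1.xs.v u b x := sX1 u
  have K3 : (∀ G ∈ cx_Apk1, 0 < G.v u b x) → (pcF 2).K.v (c1n (x + u) - sk1.xs.v u b x) (x + u + (1 + b)) x = ((c1n (x + u + b) - 1 / 2) * cG (x + u + b) + kcg.v (psn (x + u + b)) x) * (x + u + b) + sK_Apk1.v (c1n (x + u) - sk1.xs.v u b x) (1 + (x + u + b)) x * (c1n (x + u) - sk1.xs.v u b x - (c1n (x + u + b) - 1 / 2)) := fun hc => by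
    rw [hY]
    exact zKApk1 hF x0 x1 h1 h2 h3 hb q3 hc
  have L3 : (∀ G ∈ cx_Apk1, 0 < G.v u b x) → (pcF 2).L.v (c1n (x + u) - sk1.xs.v u b x) (x + u + (1 + b)) x = cQ x (x + u + b) (kcg.v (psn (x + u + b)) x) + sX_Apk1.v (c1n (x + u) - sk1.xs.v u b x) (1 + (x + u + b)) x * (c1n (x + u) - sk1.xs.v u b x - (c1n (x + u + b) - 1 / 2)) := fun hc => by
    rw [hY]
    exact zLApk1 hF x0 x1 h1 h2 h3 hb q3 hc
  exact farAp (T := T_Apk1) (sk := sk_Apk1) (cx := cx_Apk1) D hb hκ hd hit t1 t3 hx hX K hs K1 (sk1K u hb qs (by linarith)) K3 L1 (sk1L u hb qs (by linarith)) L3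
theorem AF1_022 {x κ y y' : ℝ} (hF : SideOk PP tKF tL pcF x) (hκ : κ * h0 = ken x) (x0 : 3 / 8 ≤ x) (x1 : x ≤ 7 / 16)
    (F : FactsA PP 0 2 2 0 1 1 (-1) y y') (h1 : |y - x| < 1 / 32) (h2 : |y' - 1| < 1 / 32) (h3 : |y + y' - (1 + x)| < 1 / 32) :
    StA (VF κ) PP tKF tL pcF 0 2 2 0 1 1 (-1) x y y' := by
  obtain ⟨u, rfl⟩ : ∃ u, y = x + u := ⟨y - x, by ring⟩
  obtain ⟨b, rfl⟩ : ∃ b, y' = 1 + b := ⟨y' - 1, by ring⟩
  rw [show x + u - x = u by ring] at h1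
  rw [show 1 + b - 1 = b by ring] at h2
  rw [show x + u + (1 + b) - (1 + x) = u + b by ring] at h3
  obtain ⟨u1, u2⟩ := abs_lt.1 h1
  exact fF_Apk1 hF hκ x0 x1 h1 h2 h3 F (t1_0 F.q1) (shK0 F.q1 (by linarith) (by linarith)) (shL0 F.q1 (by linarith) (by linarith))
theorem molF_A_022_01_0 {κ x : ℝ} (hκ : κ * h0 = ken x) (hx : ((402653184 : ℕ) : ℝ) / S ≤ x) (hx' : x ≤ (((402653184 : ℕ) : ℝ) + (67108864 : ℕ)) / S) :
    AltA (VF κ) PP tKF tL pcF [⟨0, 0, 1, 33554432⟩, ⟨1, 1, 0, 33554432⟩, ⟨2, 1, 1, 33554432⟩] 0 2 2 0 1 (sgb true) (sgb false) x := by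
  obtain ⟨x0, x1⟩ := xr hx hx'
  exact altA_s fun y y' F h1 h2 h3 => AF1_022 (sideF hx hx') hκ x0 x1 F (h1.trans_eq (by norm_num)) (h2.trans_eq (by norm_num)) (h3.trans_eq (by norm_num))
theorem fN_Apk1 {a : ℕ} {x u b κ τ : ℝ} (hF : SideOk PP tKF tL pcF x) (hN : SideOk PP tKN tL pcN x) (hκ : κ * h0 = ken x)
    (x0 : 3 / 8 ≤ x) (x1 : x ≤ 7 / 16) (h1 : |u| < 1 / 32) (h2 : |b| < 1 / 32) (h3 : |u + b| < 1 / 32) (F : FactsA PP a 2 2 0 1 1 (-1) (x + u) (1 + b))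
    (t1 : tau (h0 * (x + u)) = h0 * τ) (N1 : tKN 0 a (x + u) x = (1 + mun 3 x * cR x) * ((c1n (x + u) * cG (x + u) + kcg.v (psn (x + u)) x) * τ) + mun 3 x * ((cP (x + u) - (cR (x + u) + 2 * c1n (x + u)) * kcg.v (psn (x + u)) x) * τ)) (L1 : tL 0 a (x + u) x = cQ x (x + u) (kcg.v (psn (x + u)) x)) :
    StA (VN 3 κ) PP tKN tL pcN a 2 2 0 1 1 (-1) x (x + u) (1 + b) := by
  obtain ⟨u1, u2⟩ := abs_lt.1 h1
  obtain ⟨b1, b2⟩ := abs_lt.1 h2
  obtain ⟨v1, v2⟩ := abs_lt.1 h3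
  have qs := F.q2
  have hb : 0 ≤ b := by linarith [qs.1]
  have D : DomA u b x := ⟨by linarith, by linarith, by linarith, by linarith, by linarith, by linarith, by linarith, by linarith⟩
  have hY : x + u + (1 + b) = 1 + (x + u + b) := by ring
  have q3 : InQ 2 (1 + (x + u + b)) := hY ▸ F.q3
  obtain ⟨p1, p2⟩ := psr (y := x + u) (by linarith) (by linarith)
  obtain ⟨p3, p4⟩ := psr (y := x + u + b) (by linarith) (by linarith)
  have hd := dqAp (dq_t x) hb (by linarith) (by linarith) (by linarith) (by linarith) p1 p2 p3 p4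
  have hs : ∀ G ∈ sk_Apk1, G.v u b x ≤ 0 := skPM (A := true) (v := 33554432) (u := u) (b := b) (x := x) (abs_le.2 ⟨by simp only [cond_true, cond_false]; unfold S; norm_num; linarith, by simp only [cond_true, cond_false]; unfold S; norm_num; linarith⟩)
  obtain ⟨r1, r2⟩ := rX x0 x1
  have K := Cht.cert (ng := false) (r := 33554432) ct_1Apk1 (u := u) (b := b) (x := x) (by unfold S; norm_num; linarith) (by unfold S; norm_num; linarith) (by simp only [cond_true, cond_false]; linarith) (by simp only [cond_true, cond_false]; unfold S; norm_num; linarith) r1 r2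
  have t3 := t3A2 F.q3
  have hit : ((T_Apk1.a true).at_ u b x).it * (x + u + b) = 1 := by
    show (x + u + b)⁻¹ * _ = _
    exact inv_mul_cancel₀ (ne_of_gt (by linarith))
  have hx : sk1.xs.v u b x = 1 / 2 + b * sk1.ws.v u b x := stK_x (by norm_num) (by linarith) (by linarith)
  have hX : crv PP 1 2 (1 + b) = sk1.xs.v u b x := sX1 u
  have K3 : (∀ G ∈ cx_Apk1, 0 < G.v u b x) → (pcF 2).K.v (c1n (x + u) - sk1.xs.v u b x) (x + u + (1 + b)) x = ((c1n (x + u + b) - 1 / 2) * cG (x + u + b) + kcg.v (psn (x + u + b)) x) * (x + u + b) + sK_Apk1.v (c1n (x + u) - sk1.xs.v u b x) (1 + (x + u + b)) x * (c1n (x + u) - sk1.xs.v u b x - (c1n (x + u + b) - 1 / 2)) := fun hc => by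
    rw [hY]
    exact zKApk1 hF x0 x1 h1 h2 h3 hb q3 hc
  have L3 : (∀ G ∈ cx_Apk1, 0 < G.v u b x) → (pcF 2).L.v (c1n (x + u) - sk1.xs.v u b x) (x + u + (1 + b)) x = cQ x (x + u + b) (kcg.v (psn (x + u + b)) x) + sX_Apk1.v (c1n (x + u) - sk1.xs.v u b x) (1 + (x + u + b)) x * (c1n (x + u) - sk1.xs.v u b x - (c1n (x + u + b) - 1 / 2)) := fun hc => by
    rw [hY]
    exact zLApk1 hF x0 x1 h1 h2 h3 hb q3 hc
  have D3 : (∀ G ∈ cx_Apk1, 0 < G.v u b x) → ((pcN 2).K.v (c1n (x + u) - sk1.xs.v u b x) (x + u + (1 + b)) x - (1 + mun 3 x * cR x) * (pcF 2).K.v (c1n (x + u) - sk1.xs.v u b x) (x + u + (1 + b)) x) / mun 3 x = (cP (x + u + b) - 1 / 2 * cD (x + u + b) - (cR (x + u + b) + 2 * c1n (x + u + b) - 1) * kcg.v (psn (x + u + b)) x) * (x + u + b) + sD_Apk1.v (c1n (x + u) - sk1.xs.v u b x) (1 + (x + u + b)) x * (c1n (x + u) - sk1.xs.v u b x - (c1n (x + u + b) - 1 / 2)) := fun hc =>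 by
    rw [hY]
    exact zDApk1 hF hN x0 x1 h1 h2 h3 hb q3 hc
  exact nearAp (T := T_Apk1) (sk := sk_Apk1) (cx := cx_Apk1) D hb hκ hd hit t1 t3 hx hX K hs (kcb (by linarith) (by linarith) x0 x1) N1 (sk1N qs) (sk1K u hb qs (by linarith)) (sk1D u hb (by linarith)) (fun _ => div_mun) K3 D3 L1 (sk1L u hb qs (by linarith)) L3
theorem AN1_022 {x κ y y' : ℝ} (hF : SideOk PP tKF tL pcF x) (hN : SideOk PP tKN tL pcN x) (hκ : κ * h0 = ken x) (x0 : 3 / 8 ≤ x) (x1 : x ≤ 7 / 16)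
    (F : FactsA PP 0 2 2 0 1 1 (-1) y y') (h1 : |y - x| < 1 / 32) (h2 : |y' - 1| < 1 / 32) (h3 : |y + y' - (1 + x)| < 1 / 32) :
    StA (VN 3 κ) PP tKN tL pcN 0 2 2 0 1 1 (-1) x y y' := by
  obtain ⟨u, rfl⟩ : ∃ u, y = x + u := ⟨y - x, by ring⟩
  obtain ⟨b, rfl⟩ : ∃ b, y' = 1 + b := ⟨y' - 1, by ring⟩
  rw [show x + u - x = u by ring] at h1
  rw [show 1 + b - 1 = b by ring] at h2
  rw [show x + u + (1 + b) - (1 + x) = u + b by ring] at h3
  obtain ⟨u1, u2⟩ := abs_lt.1 h1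
  exact fN_Apk1 hF hN hκ x0 x1 h1 h2 h3 F (t1_0 F.q1) (shN0 F.q1 (by linarith) (by linarith)) (shL0 F.q1 (by linarith) (by linarith))
theorem molN_A_022_01_0 {κ x : ℝ} (hκ : κ * h0 = ken x) (hx : ((402653184 : ℕ) : ℝ) / S ≤ x) (hx' : x ≤ (((402653184 : ℕ) : ℝ) + (67108864 : ℕ)) / S) :
    AltA (VN 3 κ) PP tKN tL pcN [⟨0, 0, 1, 33554432⟩, ⟨1, 1, 0, 33554432⟩, ⟨2, 1, 1, 33554432⟩] 0 2 2 0 1 (sgb true) (sgb false) x := by
  obtain ⟨x0, x1⟩ := xr hx hx'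
  exact altA_s fun y y' F h1 h2 h3 => AN1_022 (sideF hx hx') (sideN hx hx') hκ x0 x1 F (h1.trans_eq (by norm_num)) (h2.trans_eq (by norm_num)) (h3.trans_eq (by norm_num))
theorem w_Am {u b x : ℝ} (x0 : 3 / 8 ≤ x) (x1 : x ≤ 7 / 16) (h1 : |u| < 1 / 32) (h2 : |b| < 1 / 32) (h3 : |u + b| < 1 / 32) (hb : b < 0) : c1n (x + u) - sm.xs.v u b x ≤ (w3W false).v (1 + (x + u + b)) := by
  obtain ⟨u1, u2⟩ := abs_lt.1 h1
  obtain ⟨b1, b2⟩ := abs_lt.1 h2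
  obtain ⟨v1, v2⟩ := abs_lt.1 h3
  have cm1 : c1n (1 + b) ≥ 1 / 2 := c1n_half' hb.le (by linarith)
  have cm2 : c1n (x + u) ≤ c1n (x + u + b) := c1n_le' (by linarith) (by linarith)
  rw [w3W_A]
  show c1n (x + u) - c1n (1 + b) ≤ c1n (x + u + b) - 1 / 2
  linarith
theorem zKAm {u b x : ℝ} (hF : SideOk PP tKF tL pcF x) (x0 : 3 / 8 ≤ x) (x1 : x ≤ 7 / 16) (h1 : |u| < 1 / 32) (h2 : |b| < 1 / 32) (h3 : |u + b| < 1 / 32) (hb : b < 0) (q3 : InQ 2 (1 + (x + u + b)))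
    (hc : ∀ G ∈ cx_Am, 0 < G.v u b x) : (pcF 2).K.v (c1n (x + u) - sm.xs.v u b x) (1 + (x + u + b)) x =
    ((c1n (x + u + b) - 1 / 2) * cG (x + u + b) + kcg.v (psn (x + u + b)) x) * (x + u + b) + sK_Am.v (c1n (x + u) - sm.xs.v u b x) (1 + (x + u + b)) x * (c1n (x + u) - sm.xs.v u b x - (c1n (x + u + b) - 1 / 2)) := by
  have hw := w_Am x0 x1 h1 h2 h3 hb
  obtain ⟨u1, u2⟩ := abs_lt.1 h1
  obtain ⟨b1, b2⟩ := abs_lt.1 h2
  obtain ⟨v1, v2⟩ := abs_lt.1 h3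
  have y1 := q3.1
  have y2 := q3.2
  have c0 : 0 < (tCC (w3W false) cv1p).v (c1n (x + u) - sm.xs.v u b x) (1 + (x + u + b)) x := hc (f3A sm.xs (tCC (w3W false) cv1p)) (by unfold cx_Am; simp only [List.mem_cons, true_or, or_true])
  have c1 : 0 < (tCC cv2p (w3W false)).v (c1n (x + u) - sm.xs.v u b x) (1 + (x + u + b)) x := hc (f3A sm.xs (tCC cv2p (w3W false))) (by unfold cx_Am; simp only [List.mem_cons, true_or, or_true])
  have c2 : 0 < (tXC cv1p).v (c1n (x + u) - sm.xs.v u b x) (1 + (x + u + b)) x := hc (f3A sm.xs (tXC cv1p)) (by unfold cx_Am; simp only [List.mem_cons, true_or, or_true])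
  refine (sKAm hF q3 (by linarith) (by linarith) c0 c1 c2 hw).trans ?_
  rw [w3K_A, w3W_A]
  push_cast
  ring
theorem zLAm {u b x : ℝ} (hF : SideOk PP tKF tL pcF x) (x0 : 3 / 8 ≤ x) (x1 : x ≤ 7 / 16) (h1 : |u| < 1 / 32) (h2 : |b| < 1 / 32) (h3 : |u + b| < 1 / 32) (hb : b < 0) (q3 : InQ 2 (1 + (x + u + b)))
    (hc : ∀ G ∈ cx_Am, 0 < G.v u b x) : (pcF 2).L.v (c1n (x + u) - sm.xs.v u b x) (1 + (x + u + b)) x =
    cQ x (x + u + b) (kcg.v (psn (x + u + b)) x) + sX_Am.v (c1n (x + u) - sm.xs.v u b x) (1 + (x + u + b)) x * (c1n (x + u) - sm.xs.v u b x - (c1n (x + u + b) - 1 / 2)) := by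
  have hw := w_Am x0 x1 h1 h2 h3 hb
  obtain ⟨u1, u2⟩ := abs_lt.1 h1
  obtain ⟨b1, b2⟩ := abs_lt.1 h2
  obtain ⟨v1, v2⟩ := abs_lt.1 h3
  have y1 := q3.1
  have y2 := q3.2
  have c0 : 0 < (tCC (w3W false) cv1p).v (c1n (x + u) - sm.xs.v u b x) (1 + (x + u + b)) x := hc (f3A sm.xs (tCC (w3W false) cv1p)) (by unfold cx_Am; simp only [List.mem_cons, true_or, or_true])
  have c1 : 0 < (tCC cv2p (w3W false)).v (c1n (x + u) - sm.xs.v u b x) (1 + (x + u + b)) x := hc (f3A sm.xs (tCC cv2p (w3W false))) (by unfold cx_Am; simp only [List.mem_cons, true_or, or_true])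
  have c2 : 0 < (tXC cv1p).v (c1n (x + u) - sm.xs.v u b x) (1 + (x + u + b)) x := hc (f3A sm.xs (tXC cv1p)) (by unfold cx_Am; simp only [List.mem_cons, true_or, or_true])
  refine (sLAm hF q3 (by linarith) (by linarith) c0 c1 c2 hw).trans ?_
  rw [w3Q_A, w3W_A]
theorem zDAm {u b x : ℝ} (hF : SideOk PP tKF tL pcF x) (hN : SideOk PP tKN tL pcN x) (x0 : 3 / 8 ≤ x) (x1 : x ≤ 7 / 16) (h1 : |u| < 1 / 32) (h2 : |b| < 1 / 32) (h3 : |u + b| < 1 / 32) (hb : b < 0) (q3 : InQ 2 (1 + (x + u + b)))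
    (hc : ∀ G ∈ cx_Am, 0 < G.v u b x) : ((pcN 2).K.v (c1n (x + u) - sm.xs.v u b x) (1 + (x + u + b)) x - (1 + mun 3 x * cR x) * (pcF 2).K.v (c1n (x + u) - sm.xs.v u b x) (1 + (x + u + b)) x) / mun 3 x =
    (cP (x + u + b) - 1 / 2 * cD (x + u + b) - (cR (x + u + b) + 2 * c1n (x + u + b) - 1) * kcg.v (psn (x + u + b)) x) * (x + u + b) + sD_Am.v (c1n (x + u) - sm.xs.v u b x) (1 + (x + u + b)) x * (c1n (x + u) - sm.xs.v u b x - (c1n (x + u + b) - 1 / 2)) := by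
  have hw := w_Am x0 x1 h1 h2 h3 hb
  obtain ⟨u1, u2⟩ := abs_lt.1 h1
  obtain ⟨b1, b2⟩ := abs_lt.1 h2
  obtain ⟨v1, v2⟩ := abs_lt.1 h3
  have y1 := q3.1
  have y2 := q3.2
  have c0 : 0 < (tCC (w3W false) cv1p).v (c1n (x + u) - sm.xs.v u b x) (1 + (x + u + b)) x := hc (f3A sm.xs (tCC (w3W false) cv1p)) (by unfold cx_Am; simp only [List.mem_cons, true_or, or_true])
  have c1 : 0 < (tCC cv2p (w3W false)).v (c1n (x + u) - sm.xs.v u b x) (1 + (x + u + b)) x := hc (f3A sm.xs (tCC cv2p (w3W false))) (by unfold cx_Am; simp only [List.mem_cons, true_or, or_true])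
  have c2 : 0 < (tXC cv1p).v (c1n (x + u) - sm.xs.v u b x) (1 + (x + u + b)) x := hc (f3A sm.xs (tXC cv1p)) (by unfold cx_Am; simp only [List.mem_cons, true_or, or_true])
  refine (sDAm hF hN (mun_ne x) q3 (by linarith) (by linarith) c0 c1 c2 hw).trans ?_
  rw [w3D_A, w3W_A]
  push_cast
  ring
theorem fF_Am {a : ℕ} {x u b κ τ : ℝ} (hF : SideOk PP tKF tL pcF x) (hκ : κ * h0 = ken x)
    (x0 : 3 / 8 ≤ x) (x1 : x ≤ 7 / 16) (h1 : |u| < 1 / 32) (h2 : |b| < 1 / 32) (h3 : |u + b| < 1 / 32) (F : FactsA PP a 1 2 0 0 1 (-1) (x + u) (1 + b))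
    (t1 : tau (h0 * (x + u)) = h0 * τ) (K1 : tKF 0 a (x + u) x = (c1n (x + u) * cG (x + u) + kcg.v (psn (x + u)) x) * τ) (L1 : tL 0 a (x + u) x = cQ x (x + u) (kcg.v (psn (x + u)) x)) :
    StA (VF κ) PP tKF tL pcF a 1 2 0 0 1 (-1) x (x + u) (1 + b) := by
  obtain ⟨u1, u2⟩ := abs_lt.1 h1
  obtain ⟨b1, b2⟩ := abs_lt.1 h2
  obtain ⟨v1, v2⟩ := abs_lt.1 h3
  have qs := F.q2
  have hs1 := F.k0 rfl
  have hb : b < 0 := by linarith [qs.2]
  have D : DomA u b x := ⟨by linarith, by linarith, by linarith, by linarith, by linarith, by linarith, by linarith, by linarith⟩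
  have hY : x + u + (1 + b) = 1 + (x + u + b) := by ring
  have q3 : InQ 2 (1 + (x + u + b)) := hY ▸ F.q3
  obtain ⟨p1, p2⟩ := psr (y := x + u) (by linarith) (by linarith)
  obtain ⟨p3, p4⟩ := psr (y := x + u + b) (by linarith) (by linarith)
  have hd := dqAm (dq_t x) hb (by linarith) (by linarith) (by linarith) (by linarith) p1 p2 p3 p4
  have hs : ∀ G ∈ sk_Am, G.v u b x ≤ 0 := skPM (A := true) (v := 33554432) (u := u) (b := b) (x := x) (abs_le.2 ⟨by simp only [cond_true, cond_false]; unfold S; norm_num; linarith, by simp only [cond_true, cond_false]; unfold S; norm_num; linarith⟩)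
  obtain ⟨r1, r2⟩ := rX x0 x1
  have K := Cht.cert (ng := true) (r := 33554432) ct_0Am (u := u) (b := b) (x := x) (by unfold S; norm_num; linarith) (by unfold S; norm_num; linarith) (by simp only [cond_true, cond_false]; linarith) (by simp only [cond_true, cond_false]; unfold S; norm_num; linarith) r1 r2
  have t3 := t3A2 F.q3
  have hit : ((T_Am.a false).at_ u b x).it * (x + u + b) = 1 := by
    show (x + u + b)⁻¹ * _ = _
    exact inv_mul_cancel₀ (ne_of_gt (by linarith))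
  have hx : sm.xs.v u b x = 1 / 2 + b * sm.ws.v u b x := stM_x (by linarith) (by linarith)
  have hX : crv PP 0 1 (1 + b) = sm.xs.v u b x := crv0 1 (1 + b)
  have K3 : (∀ G ∈ cx_Am, 0 < G.v u b x) → (pcF 2).K.v (c1n (x + u) - sm.xs.v u b x) (x + u + (1 + b)) x = ((c1n (x + u + b) - 1 / 2) * cG (x + u + b) + kcg.v (psn (x + u + b)) x) * (x + u + b) + sK_Am.v (c1n (x + u) - sm.xs.v u b x) (1 + (x + u + b)) x * (c1n (x + u) - sm.xs.v u b x - (c1n (x + u + b) - 1 / 2)) := fun hc => by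
    rw [hY]
    exact zKAm hF x0 x1 h1 h2 h3 hb q3 hc
  have L3 : (∀ G ∈ cx_Am, 0 < G.v u b x) → (pcF 2).L.v (c1n (x + u) - sm.xs.v u b x) (x + u + (1 + b)) x = cQ x (x + u + b) (kcg.v (psn (x + u + b)) x) + sX_Am.v (c1n (x + u) - sm.xs.v u b x) (1 + (x + u + b)) x * (c1n (x + u) - sm.xs.v u b x - (c1n (x + u + b) - 1 / 2)) := fun hc => by
    rw [hY]
    exact zLAm hF x0 x1 h1 h2 h3 hb q3 hc
  exact farAm (T := T_Am) (sk := sk_Am) (cx := cx_Am) D hb hκ hd hit t1 t3 hx hX K hs K1 (smK u hb qs (by linarith)) K3 L1 (smL u hb qs (by linarith)) L3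
theorem AF_012 {x κ y y' : ℝ} (hF : SideOk PP tKF tL pcF x) (hκ : κ * h0 = ken x) (x0 : 3 / 8 ≤ x) (x1 : x ≤ 7 / 16)
    (F : FactsA PP 0 1 2 0 0 1 (-1) y y') (h1 : |y - x| < 1 / 32) (h2 : |y' - 1| < 1 / 32) (h3 : |y + y' - (1 + x)| < 1 / 32) :
    StA (VF κ) PP tKF tL pcF 0 1 2 0 0 1 (-1) x y y' := by
  obtain ⟨u, rfl⟩ : ∃ u, y = x + u := ⟨y - x, by ring⟩
  obtain ⟨b, rfl⟩ : ∃ b, y' = 1 + b := ⟨y' - 1, by ring⟩
  rw [show x + u - x = u by ring] at h1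
  rw [show 1 + b - 1 = b by ring] at h2
  rw [show x + u + (1 + b) - (1 + x) = u + b by ring] at h3
  obtain ⟨u1, u2⟩ := abs_lt.1 h1
  exact fF_Am hF hκ x0 x1 h1 h2 h3 F (t1_0 F.q1) (shK0 F.q1 (by linarith) (by linarith)) (shL0 F.q1 (by linarith) (by linarith))
theorem molF_A_012_00_0 {κ x : ℝ} (hκ : κ * h0 = ken x) (hx : ((402653184 : ℕ) : ℝ) / S ≤ x) (hx' : x ≤ (((402653184 : ℕ) : ℝ) + (67108864 : ℕ)) / S) :
    AltA (VF κ) PP tKF tL pcF [⟨0, 0, 1, 33554432⟩, ⟨1, 1, 0, 33554432⟩, ⟨2, 1, 1, 33554432⟩] 0 1 2 0 0 (sgb true) (sgb false) x := by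
  obtain ⟨x0, x1⟩ := xr hx hx'
  exact altA_s fun y y' F h1 h2 h3 => AF_012 (sideF hx hx') hκ x0 x1 F (h1.trans_eq (by norm_num)) (h2.trans_eq (by norm_num)) (h3.trans_eq (by norm_num))
theorem MF_102 {x κ y y' : ℝ} (hF : SideOk PP tKF tL pcF x) (hκ : κ * h0 = ken x) (x0 : 3 / 8 ≤ x) (x1 : x ≤ 7 / 16)
    (F : FactsA PP 1 0 2 0 0 1 (-1) y y') (h2 : |y - 1| < 1 / 32) (h1 : |y' - x| < 1 / 32) (h3 : |y + y' - (1 + x)| < 1 / 32) :
    StA (VF κ) PP tKF tL pcF 1 0 2 0 0 1 (-1) x y y' := by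
  have F2 := factsA_mirror F
  rw [neg_neg] at F2
  have h3' : |y' + y - (1 + x)| < 1 / 32 := by rwa [add_comm y' y]
  have H := AF_012 hF hκ x0 x1 F2 h1 h2 h3'
  obtain ⟨u1, u2⟩ := abs_lt.1 h1
  obtain ⟨b1, b2⟩ := abs_lt.1 h2
  have hX : (1 : ℝ) * crv PP 0 1 y + -1 * crv PP 0 0 y' ≠ 0 := by
    rw [crv0, crv0]
    have := c1n_lt (y := y') (z := y) (by linarith) (by linarith) (by nlinarith)
    intro h
    linarith
  refine StA.mirF hF F hX ?_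
  rw [neg_neg]
  exact H
theorem molF_A_102_00_1 {κ x : ℝ} (hκ : κ * h0 = ken x) (hx : ((402653184 : ℕ) : ℝ) / S ≤ x) (hx' : x ≤ (((402653184 : ℕ) : ℝ) + (67108864 : ℕ)) / S) :
    AltA (VF κ) PP tKF tL pcF [⟨0, 1, 0, 33554432⟩, ⟨1, 0, 1, 33554432⟩, ⟨2, 1, 1, 33554432⟩] 1 0 2 0 0 (sgb true) (sgb false) x := by
  obtain ⟨x0, x1⟩ := xr hx hx'
  exact altA_m fun y y' F h2 h1 h3 => MF_102 (sideF hx hx') hκ x0 x1 F (h2.trans_eq (by norm_num)) (h1.trans_eq (by norm_num)) (h3.trans_eq (by norm_num))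
theorem fN_Am {a : ℕ} {x u b κ τ : ℝ} (hF : SideOk PP tKF tL pcF x) (hN : SideOk PP tKN tL pcN x) (hκ : κ * h0 = ken x)
    (x0 : 3 / 8 ≤ x) (x1 : x ≤ 7 / 16) (h1 : |u| < 1 / 32) (h2 : |b| < 1 / 32) (h3 : |u + b| < 1 / 32) (F : FactsA PP a 1 2 0 0 1 (-1) (x + u) (1 + b))
    (t1 : tau (h0 * (x + u)) = h0 * τ) (N1 : tKN 0 a (x + u) x = (1 + mun 3 x * cR x) * ((c1n (x + u) * cG (x + u) + kcg.v (psn (x + u)) x) * τ) + mun 3 x * ((cP (x + u) - (cR (x + u) + 2 * c1n (x + u)) * kcg.v (psn (x + u)) x) * τ)) (L1 : tL 0 a (x + u) x = cQ x (x + u) (kcg.v (psn (x + u)) x)) :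
    StA (VN 3 κ) PP tKN tL pcN a 1 2 0 0 1 (-1) x (x + u) (1 + b) := by
  obtain ⟨u1, u2⟩ := abs_lt.1 h1
  obtain ⟨b1, b2⟩ := abs_lt.1 h2
  obtain ⟨v1, v2⟩ := abs_lt.1 h3
  have qs := F.q2
  have hs1 := F.k0 rfl
  have hb : b < 0 := by linarith [qs.2]
  have D : DomA u b x := ⟨by linarith, by linarith, by linarith, by linarith, by linarith, by linarith, by linarith, by linarith⟩
  have hY : x + u + (1 + b) = 1 + (x + u + b) := by ring
  have q3 : InQ 2 (1 + (x + u + b)) := hY ▸ F.q3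
  obtain ⟨p1, p2⟩ := psr (y := x + u) (by linarith) (by linarith)
  obtain ⟨p3, p4⟩ := psr (y := x + u + b) (by linarith) (by linarith)
  have hd := dqAm (dq_t x) hb (by linarith) (by linarith) (by linarith) (by linarith) p1 p2 p3 p4
  have hs : ∀ G ∈ sk_Am, G.v u b x ≤ 0 := skPM (A := true) (v := 33554432) (u := u) (b := b) (x := x) (abs_le.2 ⟨by simp only [cond_true, cond_false]; unfold S; norm_num; linarith, by simp only [cond_true, cond_false]; unfold S; norm_num; linarith⟩)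
  obtain ⟨r1, r2⟩ := rX x0 x1
  have K := Cht.cert (ng := true) (r := 33554432) ct_1Am (u := u) (b := b) (x := x) (by unfold S; norm_num; linarith) (by unfold S; norm_num; linarith) (by simp only [cond_true, cond_false]; linarith) (by simp only [cond_true, cond_false]; unfold S; norm_num; linarith) r1 r2
  have t3 := t3A2 F.q3
  have hit : ((T_Am.a false).at_ u b x).it * (x + u + b) = 1 := by
    show (x + u + b)⁻¹ * _ = _
    exact inv_mul_cancel₀ (ne_of_gt (by linarith))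
  have hx : sm.xs.v u b x = 1 / 2 + b * sm.ws.v u b x := stM_x (by linarith) (by linarith)
  have hX : crv PP 0 1 (1 + b) = sm.xs.v u b x := crv0 1 (1 + b)
  have K3 : (∀ G ∈ cx_Am, 0 < G.v u b x) → (pcF 2).K.v (c1n (x + u) - sm.xs.v u b x) (x + u + (1 + b)) x = ((c1n (x + u + b) - 1 / 2) * cG (x + u + b) + kcg.v (psn (x + u + b)) x) * (x + u + b) + sK_Am.v (c1n (x + u) - sm.xs.v u b x) (1 + (x + u + b)) x * (c1n (x + u) - sm.xs.v u b x - (c1n (x + u + b) - 1 / 2)) := fun hc => by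
    rw [hY]
    exact zKAm hF x0 x1 h1 h2 h3 hb q3 hc
  have L3 : (∀ G ∈ cx_Am, 0 < G.v u b x) → (pcF 2).L.v (c1n (x + u) - sm.xs.v u b x) (x + u + (1 + b)) x = cQ x (x + u + b) (kcg.v (psn (x + u + b)) x) + sX_Am.v (c1n (x + u) - sm.xs.v u b x) (1 + (x + u + b)) x * (c1n (x + u) - sm.xs.v u b x - (c1n (x + u + b) - 1 / 2)) := fun hc => by
    rw [hY]
    exact zLAm hF x0 x1 h1 h2 h3 hb q3 hc
  have D3 : (∀ G ∈ cx_Am, 0 < G.v u b x) → ((pcN 2).K.v (c1n (x + u) - sm.xs.v u b x) (x + u + (1 + b)) x - (1 + mun 3 x * cR x) * (pcF 2).K.v (c1n (x + u) - sm.xs.v u b x) (x + u + (1 + b)) x) / mun 3 x = (cP (x + u + b) - 1 / 2 * cD (x + u + b) - (cR (x + u + b) + 2 * c1n (x + u + b) - 1) * kcg.v (psn (x + u + b)) x) * (x + u + b) + sD_Am.v (c1n (x + u) - sm.xs.v u b x) (1 + (x + u + b)) x * (c1n (x + u) - sm.xs.v u b x - (c1n (x + u + b) - 1 / 2)) := fun hc => by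
    rw [hY]
    exact zDAm hF hN x0 x1 h1 h2 h3 hb q3 hc
  exact nearAm (T := T_Am) (sk := sk_Am) (cx := cx_Am) D hb hκ hd hit t1 t3 hx hX K hs (kcb (by linarith) (by linarith) x0 x1) N1 (smN qs) (smK u hb qs (by linarith)) (smD u hb (by linarith)) (fun _ => div_mun) K3 D3 L1 (smL u hb qs (by linarith)) L3
theorem AN_012 {x κ y y' : ℝ} (hF : SideOk PP tKF tL pcF x) (hN : SideOk PP tKN tL pcN x) (hκ : κ * h0 = ken x) (x0 : 3 / 8 ≤ x) (x1 : x ≤ 7 / 16)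
    (F : FactsA PP 0 1 2 0 0 1 (-1) y y') (h1 : |y - x| < 1 / 32) (h2 : |y' - 1| < 1 / 32) (h3 : |y + y' - (1 + x)| < 1 / 32) :
    StA (VN 3 κ) PP tKN tL pcN 0 1 2 0 0 1 (-1) x y y' := by
  obtain ⟨u, rfl⟩ : ∃ u, y = x + u := ⟨y - x, by ring⟩
  obtain ⟨b, rfl⟩ : ∃ b, y' = 1 + b := ⟨y' - 1, by ring⟩
  rw [show x + u - x = u by ring] at h1
  rw [show 1 + b - 1 = b by ring] at h2
  rw [show x + u + (1 + b) - (1 + x) = u + b by ring] at h3
  obtain ⟨u1, u2⟩ := abs_lt.1 h1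
  exact fN_Am hF hN hκ x0 x1 h1 h2 h3 F (t1_0 F.q1) (shN0 F.q1 (by linarith) (by linarith)) (shL0 F.q1 (by linarith) (by linarith))
theorem molN_A_012_00_0 {κ x : ℝ} (hκ : κ * h0 = ken x) (hx : ((402653184 : ℕ) : ℝ) / S ≤ x) (hx' : x ≤ (((402653184 : ℕ) : ℝ) + (67108864 : ℕ)) / S) :
    AltA (VN 3 κ) PP tKN tL pcN [⟨0, 0, 1, 33554432⟩, ⟨1, 1, 0, 33554432⟩, ⟨2, 1, 1, 33554432⟩] 0 1 2 0 0 (sgb true) (sgb false) x := by
  obtain ⟨x0, x1⟩ := xr hx hx'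
  exact altA_s fun y y' F h1 h2 h3 => AN_012 (sideF hx hx') (sideN hx hx') hκ x0 x1 F (h1.trans_eq (by norm_num)) (h2.trans_eq (by norm_num)) (h3.trans_eq (by norm_num))
theorem MN_102 {x κ y y' : ℝ} (hF : SideOk PP tKF tL pcF x) (hN : SideOk PP tKN tL pcN x) (hκ : κ * h0 = ken x) (x0 : 3 / 8 ≤ x) (x1 : x ≤ 7 / 16)
    (F : FactsA PP 1 0 2 0 0 1 (-1) y y') (h2 : |y - 1| < 1 / 32) (h1 : |y' - x| < 1 / 32) (h3 : |y + y' - (1 + x)| < 1 / 32) :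
    StA (VN 3 κ) PP tKN tL pcN 1 0 2 0 0 1 (-1) x y y' := by
  have F2 := factsA_mirror F
  rw [neg_neg] at F2
  have h3' : |y' + y - (1 + x)| < 1 / 32 := by rwa [add_comm y' y]
  have H := AN_012 hF hN hκ x0 x1 F2 h1 h2 h3'
  obtain ⟨u1, u2⟩ := abs_lt.1 h1
  obtain ⟨b1, b2⟩ := abs_lt.1 h2
  have hX : (1 : ℝ) * crv PP 0 1 y + -1 * crv PP 0 0 y' ≠ 0 := by
    rw [crv0, crv0]
    have := c1n_lt (y := y') (z := y) (by linarith) (by linarith) (by nlinarith)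
    intro h
    linarith
  refine StA.mirN hN F hX ?_
  rw [neg_neg]
  exact H
theorem molN_A_102_00_1 {κ x : ℝ} (hκ : κ * h0 = ken x) (hx : ((402653184 : ℕ) : ℝ) / S ≤ x) (hx' : x ≤ (((402653184 : ℕ) : ℝ) + (67108864 : ℕ)) / S) :
    AltA (VN 3 κ) PP tKN tL pcN [⟨0, 1, 0, 33554432⟩, ⟨1, 0, 1, 33554432⟩, ⟨2, 1, 1, 33554432⟩] 1 0 2 0 0 (sgb true) (sgb false) x := by
  obtain ⟨x0, x1⟩ := xr hx hx'
  exact altA_m fun y y' F h2 h1 h3 => MN_102 (sideF hx hx') (sideN hx hx') hκ x0 x1 F (h2.trans_eq (by norm_num)) (h1.trans_eq (by norm_num)) (h3.trans_eq (by norm_num))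
theorem w_Bp {u b x : ℝ} (x0 : 3 / 8 ≤ x) (x1 : x ≤ 7 / 16) (h1 : |u| < 1 / 32) (h2 : |b| < 1 / 32) (h3 : |u - b| < 1 / 32) (hb : 0 ≤ b) : c1n (x + u) + sp.xs.v u b x ≤ (w3W true).v (1 - (x + u - b)) := by
  obtain ⟨u1, u2⟩ := abs_lt.1 h1
  obtain ⟨b1, b2⟩ := abs_lt.1 h2
  obtain ⟨v1, v2⟩ := abs_lt.1 h3
  have cm1 : c1n (1 + b) ≤ 1 / 2 := c1n_half hb
  have cm2 : c1n (x + u) ≤ c1n (x + u - b) := c1n_le' (by linarith) (by linarith)
  rw [w3W_B]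
  show c1n (x + u) + c1n (1 + b) ≤ c1n (x + u - b) + 1 / 2
  linarith
theorem zKBp {u b x : ℝ} (hF : SideOk PP tKF tL pcF x) (x0 : 3 / 8 ≤ x) (x1 : x ≤ 7 / 16) (h1 : |u| < 1 / 32) (h2 : |b| < 1 / 32) (h3 : |u - b| < 1 / 32) (hb : 0 ≤ b) (q3 : InQ 1 (1 - (x + u - b)))
    (hc : ∀ G ∈ cx_Bp, 0 < G.v u b x) : (pcF 1).K.v (c1n (x + u) + sp.xs.v u b x) (1 - (x + u - b)) x =
    -(((c1n (x + u - b) + 1 / 2) * cG (x + u - b) + kcg.v (psn (x + u - b)) x) * -(x + u - b)) + sK_Bp.v (c1n (x + u) + sp.xs.v u b x) (1 - (x + u - b)) x * (c1n (x + u) + sp.xs.v u b x - (c1n (x + u - b) + 1 / 2)) := by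
  have hw := w_Bp x0 x1 h1 h2 h3 hb
  obtain ⟨u1, u2⟩ := abs_lt.1 h1
  obtain ⟨b1, b2⟩ := abs_lt.1 h2
  obtain ⟨v1, v2⟩ := abs_lt.1 h3
  have y1 := q3.1
  have y2 := q3.2
  have c0 : 0 < (tCC (w3W true) cv1m).v (c1n (x + u) + sp.xs.v u b x) (1 - (x + u - b)) x := hc (f3B sp.xs (tCC (w3W true) cv1m)) (by unfold cx_Bp; simp only [List.mem_cons, true_or, or_true])
  have c1 : 0 < (tCC cv2m (w3W true)).v (c1n (x + u) + sp.xs.v u b x) (1 - (x + u - b)) x := hc (f3B sp.xs (tCC cv2m (w3W true))) (by unfold cx_Bp; simp only [List.mem_cons, true_or, or_true])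
  have c2 : 0 < (tXC cv1m).v (c1n (x + u) + sp.xs.v u b x) (1 - (x + u - b)) x := hc (f3B sp.xs (tXC cv1m)) (by unfold cx_Bp; simp only [List.mem_cons, true_or, or_true])
  refine (sKBp hF q3 (by linarith) (by linarith) c0 c1 c2 hw).trans ?_
  rw [w3K_B, w3W_B]
  push_cast
  ring
theorem zLBp {u b x : ℝ} (hF : SideOk PP tKF tL pcF x) (x0 : 3 / 8 ≤ x) (x1 : x ≤ 7 / 16) (h1 : |u| < 1 / 32) (h2 : |b| < 1 / 32) (h3 : |u - b| < 1 / 32) (hb : 0 ≤ b) (q3 : InQ 1 (1 - (x + u - b)))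
    (hc : ∀ G ∈ cx_Bp, 0 < G.v u b x) : (pcF 1).L.v (c1n (x + u) + sp.xs.v u b x) (1 - (x + u - b)) x =
    cQ x (x + u - b) (kcg.v (psn (x + u - b)) x) + sX_Bp.v (c1n (x + u) + sp.xs.v u b x) (1 - (x + u - b)) x * (c1n (x + u) + sp.xs.v u b x - (c1n (x + u - b) + 1 / 2)) := by
  have hw := w_Bp x0 x1 h1 h2 h3 hb
  obtain ⟨u1, u2⟩ := abs_lt.1 h1
  obtain ⟨b1, b2⟩ := abs_lt.1 h2
  obtain ⟨v1, v2⟩ := abs_lt.1 h3
  have y1 := q3.1
  have y2 := q3.2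
  have c0 : 0 < (tCC (w3W true) cv1m).v (c1n (x + u) + sp.xs.v u b x) (1 - (x + u - b)) x := hc (f3B sp.xs (tCC (w3W true) cv1m)) (by unfold cx_Bp; simp only [List.mem_cons, true_or, or_true])
  have c1 : 0 < (tCC cv2m (w3W true)).v (c1n (x + u) + sp.xs.v u b x) (1 - (x + u - b)) x := hc (f3B sp.xs (tCC cv2m (w3W true))) (by unfold cx_Bp; simp only [List.mem_cons, true_or, or_true])
  have c2 : 0 < (tXC cv1m).v (c1n (x + u) + sp.xs.v u b x) (1 - (x + u - b)) x := hc (f3B sp.xs (tXC cv1m)) (by unfold cx_Bp; simp only [List.mem_cons, true_or, or_true])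
  refine (sLBp hF q3 (by linarith) (by linarith) c0 c1 c2 hw).trans ?_
  rw [w3Q_B, w3W_B]
theorem zDBp {u b x : ℝ} (hF : SideOk PP tKF tL pcF x) (hN : SideOk PP tKN tL pcN x) (x0 : 3 / 8 ≤ x) (x1 : x ≤ 7 / 16) (h1 : |u| < 1 / 32) (h2 : |b| < 1 / 32) (h3 : |u - b| < 1 / 32) (hb : 0 ≤ b) (q3 : InQ 1 (1 - (x + u - b)))
    (hc : ∀ G ∈ cx_Bp, 0 < G.v u b x) : ((pcN 1).K.v (c1n (x + u) + sp.xs.v u b x) (1 - (x + u - b)) x - (1 + mun 3 x * cR x) * (pcF 1).K.v (c1n (x + u) + sp.xs.v u b x) (1 - (x + u - b)) x) / mun 3 x =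
    -((cP (x + u - b) + 1 / 2 * cD (x + u - b) - (cR (x + u - b) + 2 * c1n (x + u - b) + 1) * kcg.v (psn (x + u - b)) x) * -(x + u - b)) + sD_Bp.v (c1n (x + u) + sp.xs.v u b x) (1 - (x + u - b)) x * (c1n (x + u) + sp.xs.v u b x - (c1n (x + u - b) + 1 / 2)) := by
  have hw := w_Bp x0 x1 h1 h2 h3 hb
  obtain ⟨u1, u2⟩ := abs_lt.1 h1
  obtain ⟨b1, b2⟩ := abs_lt.1 h2
  obtain ⟨v1, v2⟩ := abs_lt.1 h3
  have y1 := q3.1
  have y2 := q3.2
  have c0 : 0 < (tCC (w3W true) cv1m).v (c1n (x + u) + sp.xs.v u b x) (1 - (x + u - b)) x := hc (f3B sp.xs (tCC (w3W true) cv1m)) (by unfold cx_Bp; simp only [List.mem_cons, true_or, or_true])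
  have c1 : 0 < (tCC cv2m (w3W true)).v (c1n (x + u) + sp.xs.v u b x) (1 - (x + u - b)) x := hc (f3B sp.xs (tCC cv2m (w3W true))) (by unfold cx_Bp; simp only [List.mem_cons, true_or, or_true])
  have c2 : 0 < (tXC cv1m).v (c1n (x + u) + sp.xs.v u b x) (1 - (x + u - b)) x := hc (f3B sp.xs (tXC cv1m)) (by unfold cx_Bp; simp only [List.mem_cons, true_or, or_true])
  refine (sDBp hF hN (mun_ne x) q3 (by linarith) (by linarith) c0 c1 c2 hw).trans ?_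
  rw [w3D_B, w3W_B]
  push_cast
  ring
theorem fF_Bp {a : ℕ} {x u b κ τ y' : ℝ} (hF : SideOk PP tKF tL pcF x) (hκ : κ * h0 = ken x)
    (x0 : 3 / 8 ≤ x) (x1 : x ≤ 7 / 16) (h1 : |u| < 1 / 32) (h2 : |b| < 1 / 32) (h3 : |u - b| < 1 / 32) (hy : y' = 1 + b - (x + u)) (F : FactsB PP a 1 2 0 0 1 (-1) (x + u) y')
    (t1 : tau (h0 * (x + u)) = h0 * τ) (K1 : tKF 0 a (x + u) x = (c1n (x + u) * cG (x + u) + kcg.v (psn (x + u)) x) * τ) (L1 : tL 0 a (x + u) x = cQ x (x + u) (kcg.v (psn (x + u)) x)) :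
    StB (VF κ) PP tKF tL pcF a 1 2 0 0 1 (-1) x (x + u) y' := by
  obtain ⟨u1, u2⟩ := abs_lt.1 h1
  obtain ⟨b1, b2⟩ := abs_lt.1 h2
  obtain ⟨v1, v2⟩ := abs_lt.1 h3
  have e0 : x + u + y' = 1 + b := by rw [hy]; ring
  have qs : InQ 2 (1 + b) := e0 ▸ F.q3
  have hs1 : h0 * (1 + b) < 1 := e0 ▸ F.k0 rfl
  have hb : 0 ≤ b := by linarith [qs.1]
  have D : DomB u b x := ⟨by linarith, by linarith, by linarith, by linarith, by linarith, by linarith, by linarith, by linarith⟩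
  have hY : y' = 1 - (x + u - b) := by rw [hy]; ring
  have q3 : InQ 1 (1 - (x + u - b)) := hY ▸ F.q2
  obtain ⟨p1, p2⟩ := psr (y := x + u) (by linarith) (by linarith)
  obtain ⟨p3, p4⟩ := psr (y := x + u - b) (by linarith) (by linarith)
  have hd := dqBp (dq_t x) hb (by linarith) (by linarith) (by linarith) (by linarith) p1 p2 p3 p4
  have hs : ∀ G ∈ sk_Bp, G.v u b x ≤ 0 := skPM (A := false) (v := 33554432) (u := u) (b := b) (x := x) (abs_le.2 ⟨by simp only [cond_true, cond_false]; unfold S; norm_num; linarith, by simp only [cond_true, cond_false]; unfold S; norm_num; linarith⟩)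
  obtain ⟨r1, r2⟩ := rX x0 x1
  have K := Cht.cert (ng := false) (r := 33554432) ct_0Bp (u := u) (b := b) (x := x) (by unfold S; norm_num; linarith) (by unfold S; norm_num; linarith) (by simp only [cond_true, cond_false]; linarith) (by simp only [cond_true, cond_false]; unfold S; norm_num; linarith) r1 r2
  have t3 := t3B1 F.q2 hy
  have hit : ((T_Bp.b true).at_ u b x).it * -(x + u - b) = 1 := by
    show -(x + u - b)⁻¹ * _ = _
    rw [neg_mul_neg]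
    exact inv_mul_cancel₀ (ne_of_gt (by linarith))
  have hx : sp.xs.v u b x = 1 / 2 + b * sp.ws.v u b x := stP_x (by linarith) (by linarith)
  have hX : crv PP 0 2 (1 + b) = sp.xs.v u b x := crv0 2 (1 + b)
  have od : 1 ≤ qqn (c1n (x + u) + sp.xs.v u b x) (1 - (x + u - b)) ∧ qqn (c1n (x + u) + sp.xs.v u b x) (1 - (x + u - b)) ≤ 3 ∧ c1n (x + u) + sp.xs.v u b x ≠ 0 := by
    have l1 := F.len1
    have l3 := F.len3
    have cp := c1n_pos' (y := x + u) (by nlinarith)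
    have cn : 0 ≤ c1n (1 + b) := Mol.c1n_nn (1 + b)
    have e : -1 * crv PP 0 2 (x + u + y') - 1 * crv PP 0 a (x + u) = -(c1n (x + u) + sp.xs.v u b x) := by
      rw [e0, hX, crv0]
      ring
    rw [e, qqn_neg, hY] at l1 l3
    refine ⟨l1, l3, ne_of_gt ?_⟩
    show 0 < c1n (x + u) + c1n (1 + b)
    linarith
  have eX : -sp.xs.v u b x - c1n (x + u) = -(c1n (x + u) + sp.xs.v u b x) := by ring
  have K3 : (∀ G ∈ cx_Bp, 0 < G.v u b x) → (pcF 1).K.v (-sp.xs.v u b x - c1n (x + u)) y' x = ((c1n (x + u - b) + 1 / 2) * cG (x + u - b) + kcg.v (psn (x + u - b)) x) * -(x + u - b) - sK_Bp.v (c1n (x + u) + sp.xs.v u b x) (1 - (x + u - b)) x * (c1n (x + u) + sp.xs.v u b x - (c1n (x + u - b) + 1 / 2)) := fun hc => by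
    rw [eX, hY, (hF.odd q3 od.1 od.2.1 od.2.2).1, zKBp hF x0 x1 h1 h2 h3 hb q3 hc]
    ring
  have L3 : (∀ G ∈ cx_Bp, 0 < G.v u b x) → (pcF 1).L.v (-sp.xs.v u b x - c1n (x + u)) y' x = -(cQ x (x + u - b) (kcg.v (psn (x + u - b)) x) + sX_Bp.v (c1n (x + u) + sp.xs.v u b x) (1 - (x + u - b)) x * (c1n (x + u) + sp.xs.v u b x - (c1n (x + u - b) + 1 / 2))) := fun hc => by
    rw [eX, hY, (hF.odd q3 od.1 od.2.1 od.2.2).2, zLBp hF x0 x1 h1 h2 h3 hb q3 hc]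
  exact farBp (T := T_Bp) (sk := sk_Bp) (cx := cx_Bp) D hb hκ hy hd hit t1 t3 hx hX K hs K1 (spK u hb qs hs1 (by linarith)) K3 L1 (spL u hb qs hs1 (by linarith)) L3
theorem BF_012 {x κ y y' : ℝ} (hF : SideOk PP tKF tL pcF x) (hκ : κ * h0 = ken x) (x0 : 3 / 8 ≤ x) (x1 : x ≤ 7 / 16)
    (F : FactsB PP 0 1 2 0 0 1 (-1) y y') (h1 : |y - x| < 1 / 32) (h3 : |y' - (1 - x)| < 1 / 32) (h2 : |y + y' - 1| < 1 / 32) :
    StB (VF κ) PP tKF tL pcF 0 1 2 0 0 1 (-1) x y y' := by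
  obtain ⟨u, rfl⟩ : ∃ u, y = x + u := ⟨y - x, by ring⟩
  obtain ⟨b, hy⟩ : ∃ b, y' = 1 + b - (x + u) := ⟨y' + (x + u) - 1, by ring⟩
  rw [show x + u - x = u by ring] at h1
  rw [show x + u + y' - 1 = b by rw [hy]; ring] at h2
  rw [show y' - (1 - x) = -(u - b) by rw [hy]; ring, abs_neg] at h3
  obtain ⟨u1, u2⟩ := abs_lt.1 h1
  exact fF_Bp hF hκ x0 x1 h1 h2 h3 hy F (t1_0 F.q1) (shK0 F.q1 (by linarith) (by linarith)) (shL0 F.q1 (by linarith) (by linarith))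
theorem molF_B_012_00_0 {κ x : ℝ} (hκ : κ * h0 = ken x) (hx : ((402653184 : ℕ) : ℝ) / S ≤ x) (hx' : x ≤ (((402653184 : ℕ) : ℝ) + (67108864 : ℕ)) / S) :
    AltB (VF κ) PP tKF tL pcF [⟨0, 0, 1, 33554432⟩, ⟨1, 1, 2, 33554432⟩, ⟨2, 1, 0, 33554432⟩] 0 1 2 0 0 (sgb true) (sgb false) x := by
  obtain ⟨x0, x1⟩ := xr hx hx'
  exact altB_s fun y y' F h1 h3 h2 => BF_012 (sideF hx hx') hκ x0 x1 F (h1.trans_eq (by norm_num)) (h3.trans_eq (by norm_num)) (h2.trans_eq (by norm_num))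
theorem fN_Bp {a : ℕ} {x u b κ τ y' : ℝ} (hF : SideOk PP tKF tL pcF x) (hN : SideOk PP tKN tL pcN x) (hκ : κ * h0 = ken x)
    (x0 : 3 / 8 ≤ x) (x1 : x ≤ 7 / 16) (h1 : |u| < 1 / 32) (h2 : |b| < 1 / 32) (h3 : |u - b| < 1 / 32) (hy : y' = 1 + b - (x + u)) (F : FactsB PP a 1 2 0 0 1 (-1) (x + u) y')
    (t1 : tau (h0 * (x + u)) = h0 * τ) (N1 : tKN 0 a (x + u) x = (1 + mun 3 x * cR x) * ((c1n (x + u) * cG (x + u) + kcg.v (psn (x + u)) x) * τ) + mun 3 x * ((cP (x + u) - (cR (x + u) + 2 * c1n (x + u)) * kcg.v (psn (x + u)) x) * τ)) (L1 : tL 0 a (x + u) x = cQ x (x + u) (kcg.v (psn (x + u)) x)) :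
    StB (VN 3 κ) PP tKN tL pcN a 1 2 0 0 1 (-1) x (x + u) y' := by
  obtain ⟨u1, u2⟩ := abs_lt.1 h1
  obtain ⟨b1, b2⟩ := abs_lt.1 h2
  obtain ⟨v1, v2⟩ := abs_lt.1 h3
  have e0 : x + u + y' = 1 + b := by rw [hy]; ring
  have qs : InQ 2 (1 + b) := e0 ▸ F.q3
  have hs1 : h0 * (1 + b) < 1 := e0 ▸ F.k0 rfl
  have hb : 0 ≤ b := by linarith [qs.1]
  have D : DomB u b x := ⟨by linarith, by linarith, by linarith, by linarith, by linarith, by linarith, by linarith, by linarith⟩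
  have hY : y' = 1 - (x + u - b) := by rw [hy]; ring
  have q3 : InQ 1 (1 - (x + u - b)) := hY ▸ F.q2
  obtain ⟨p1, p2⟩ := psr (y := x + u) (by linarith) (by linarith)
  obtain ⟨p3, p4⟩ := psr (y := x + u - b) (by linarith) (by linarith)
  have hd := dqBp (dq_t x) hb (by linarith) (by linarith) (by linarith) (by linarith) p1 p2 p3 p4
  have hs : ∀ G ∈ sk_Bp, G.v u b x ≤ 0 := skPM (A := false) (v := 33554432) (u := u) (b := b) (x := x) (abs_le.2 ⟨by simp only [cond_true, cond_false]; unfold S; norm_num; linarith, by simp only [cond_true, cond_false]; unfold S; norm_num; linarith⟩)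
  obtain ⟨r1, r2⟩ := rX x0 x1
  have K := Cht.cert (ng := false) (r := 33554432) ct_1Bp (u := u) (b := b) (x := x) (by unfold S; norm_num; linarith) (by unfold S; norm_num; linarith) (by simp only [cond_true, cond_false]; linarith) (by simp only [cond_true, cond_false]; unfold S; norm_num; linarith) r1 r2
  have t3 := t3B1 F.q2 hy
  have hit : ((T_Bp.b true).at_ u b x).it * -(x + u - b) = 1 := by
    show -(x + u - b)⁻¹ * _ = _
    rw [neg_mul_neg]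
    exact inv_mul_cancel₀ (ne_of_gt (by linarith))
  have hx : sp.xs.v u b x = 1 / 2 + b * sp.ws.v u b x := stP_x (by linarith) (by linarith)
  have hX : crv PP 0 2 (1 + b) = sp.xs.v u b x := crv0 2 (1 + b)
  have od : 1 ≤ qqn (c1n (x + u) + sp.xs.v u b x) (1 - (x + u - b)) ∧ qqn (c1n (x + u) + sp.xs.v u b x) (1 - (x + u - b)) ≤ 3 ∧ c1n (x + u) + sp.xs.v u b x ≠ 0 := by
    have l1 := F.len1
    have l3 := F.len3
    have cp := c1n_pos' (y := x + u) (by nlinarith)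
    have cn : 0 ≤ c1n (1 + b) := Mol.c1n_nn (1 + b)
    have e : -1 * crv PP 0 2 (x + u + y') - 1 * crv PP 0 a (x + u) = -(c1n (x + u) + sp.xs.v u b x) := by
      rw [e0, hX, crv0]
      ring
    rw [e, qqn_neg, hY] at l1 l3
    refine ⟨l1, l3, ne_of_gt ?_⟩
    show 0 < c1n (x + u) + c1n (1 + b)
    linarith
  have eX : -sp.xs.v u b x - c1n (x + u) = -(c1n (x + u) + sp.xs.v u b x) := by ring
  have K3 : (∀ G ∈ cx_Bp, 0 < G.v u b x) → (pcF 1).K.v (-sp.xs.v u b x - c1n (x + u)) y' x = ((c1n (x + u - b) + 1 / 2) * cG (x + u - b) + kcg.v (psn (x + u - b)) x) * -(x + u - b) - sK_Bp.v (c1n (x + u) + sp.xs.v u b x) (1 - (x + u - b)) x * (c1n (x + u) + sp.xs.v u b x - (c1n (x + u - b) + 1 / 2)) := fun hc => by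
    rw [eX, hY, (hF.odd q3 od.1 od.2.1 od.2.2).1, zKBp hF x0 x1 h1 h2 h3 hb q3 hc]
    ring
  have L3 : (∀ G ∈ cx_Bp, 0 < G.v u b x) → (pcF 1).L.v (-sp.xs.v u b x - c1n (x + u)) y' x = -(cQ x (x + u - b) (kcg.v (psn (x + u - b)) x) + sX_Bp.v (c1n (x + u) + sp.xs.v u b x) (1 - (x + u - b)) x * (c1n (x + u) + sp.xs.v u b x - (c1n (x + u - b) + 1 / 2))) := fun hc => by
    rw [eX, hY, (hF.odd q3 od.1 od.2.1 od.2.2).2, zLBp hF x0 x1 h1 h2 h3 hb q3 hc]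
  have D3 : (∀ G ∈ cx_Bp, 0 < G.v u b x) → ((pcN 1).K.v (-sp.xs.v u b x - c1n (x + u)) y' x - (1 + mun 3 x * cR x) * (pcF 1).K.v (-sp.xs.v u b x - c1n (x + u)) y' x) / mun 3 x = (cP (x + u - b) + 1 / 2 * cD (x + u - b) - (cR (x + u - b) + 2 * c1n (x + u - b) + 1) * kcg.v (psn (x + u - b)) x) * -(x + u - b) - sD_Bp.v (c1n (x + u) + sp.xs.v u b x) (1 - (x + u - b)) x * (c1n (x + u) + sp.xs.v u b x - (c1n (x + u - b) + 1 / 2)) := fun hc => by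
    have e := zDBp hF hN x0 x1 h1 h2 h3 hb q3 hc
    rw [eX, hY, (hF.odd q3 od.1 od.2.1 od.2.2).1, (hN.odd q3 od.1 od.2.1 od.2.2).1]
    rw [div_eq_iff (mun_ne x)] at e ⊢
    linear_combination -e
  exact nearBp (T := T_Bp) (sk := sk_Bp) (cx := cx_Bp) D hb hκ hy hd hit t1 t3 hx hX K hs (kcb (by linarith) (by linarith) x0 x1) N1 (spN hb qs hs1) (spK u hb qs hs1 (by linarith)) (spD u hb hs1 (by linarith)) (fun _ => div_mun) K3 D3 L1 (spL u hb qs hs1 (by linarith)) L3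
theorem BN_012 {x κ y y' : ℝ} (hF : SideOk PP tKF tL pcF x) (hN : SideOk PP tKN tL pcN x) (hκ : κ * h0 = ken x) (x0 : 3 / 8 ≤ x) (x1 : x ≤ 7 / 16)
    (F : FactsB PP 0 1 2 0 0 1 (-1) y y') (h1 : |y - x| < 1 / 32) (h3 : |y' - (1 - x)| < 1 / 32) (h2 : |y + y' - 1| < 1 / 32) :
    StB (VN 3 κ) PP tKN tL pcN 0 1 2 0 0 1 (-1) x y y' := by
  obtain ⟨u, rfl⟩ : ∃ u, y = x + u := ⟨y - x, by ring⟩
  obtain ⟨b, hy⟩ : ∃ b, y' = 1 + b - (x + u) := ⟨y' + (x + u) - 1, by ring⟩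
  rw [show x + u - x = u by ring] at h1
  rw [show x + u + y' - 1 = b by rw [hy]; ring] at h2
  rw [show y' - (1 - x) = -(u - b) by rw [hy]; ring, abs_neg] at h3
  obtain ⟨u1, u2⟩ := abs_lt.1 h1
  exact fN_Bp hF hN hκ x0 x1 h1 h2 h3 hy F (t1_0 F.q1) (shN0 F.q1 (by linarith) (by linarith)) (shL0 F.q1 (by linarith) (by linarith))
theorem molN_B_012_00_0 {κ x : ℝ} (hκ : κ * h0 = ken x) (hx : ((402653184 : ℕ) : ℝ) / S ≤ x) (hx' : x ≤ (((402653184 : ℕ) : ℝ) + (67108864 : ℕ)) / S) :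
    AltB (VN 3 κ) PP tKN tL pcN [⟨0, 0, 1, 33554432⟩, ⟨1, 1, 2, 33554432⟩, ⟨2, 1, 0, 33554432⟩] 0 1 2 0 0 (sgb true) (sgb false) x := by
  obtain ⟨x0, x1⟩ := xr hx hx'
  exact altB_s fun y y' F h1 h3 h2 => BN_012 (sideF hx hx') (sideN hx hx') hκ x0 x1 F (h1.trans_eq (by norm_num)) (h3.trans_eq (by norm_num)) (h2.trans_eq (by norm_num))
theorem w_Bpk1 {u b x : ℝ} (x0 : 3 / 8 ≤ x) (x1 : x ≤ 7 / 16) (h1 : |u| < 1 / 32) (h2 : |b| < 1 / 32) (h3 : |u - b| < 1 / 32) (hb : 0 ≤ b) : c1n (x + u) + sk1.xs.v u b x ≤ (w3W true).v (1 - (x + u - b)) := by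
  obtain ⟨u1, u2⟩ := abs_lt.1 h1
  obtain ⟨b1, b2⟩ := abs_lt.1 h2
  obtain ⟨v1, v2⟩ := abs_lt.1 h3
  have cm1 : (fXS 1 1 2).v u b x ≤ 1 / 2 := fXS_le (by norm_num) hb
  have cm2 : c1n (x + u) ≤ c1n (x + u - b) := c1n_le' (by linarith) (by linarith)
  rw [w3W_B]
  show c1n (x + u) + (fXS 1 1 2).v u b x ≤ c1n (x + u - b) + 1 / 2
  linarith
theorem zKBpk1 {u b x : ℝ} (hF : SideOk PP tKF tL pcF x) (x0 : 3 / 8 ≤ x) (x1 : x ≤ 7 / 16) (h1 : |u| < 1 / 32) (h2 : |b| < 1 / 32) (h3 : |u - b| < 1 / 32) (hb : 0 ≤ b) (q3 : InQ 1 (1 - (x + u - b)))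
    (hc : ∀ G ∈ cx_Bpk1, 0 < G.v u b x) : (pcF 1).K.v (c1n (x + u) + sk1.xs.v u b x) (1 - (x + u - b)) x =
    -(((c1n (x + u - b) + 1 / 2) * cG (x + u - b) + kcg.v (psn (x + u - b)) x) * -(x + u - b)) + sK_Bpk1.v (c1n (x + u) + sk1.xs.v u b x) (1 - (x + u - b)) x * (c1n (x + u) + sk1.xs.v u b x - (c1n (x + u - b) + 1 / 2)) := by
  have hw := w_Bpk1 x0 x1 h1 h2 h3 hb
  obtain ⟨u1, u2⟩ := abs_lt.1 h1
  obtain ⟨b1, b2⟩ := abs_lt.1 h2
  obtain ⟨v1, v2⟩ := abs_lt.1 h3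
  have y1 := q3.1
  have y2 := q3.2
  have c0 : 0 < (tCC (w3W true) cv1m).v (c1n (x + u) + sk1.xs.v u b x) (1 - (x + u - b)) x := hc (f3B sk1.xs (tCC (w3W true) cv1m)) (by unfold cx_Bpk1; simp only [List.mem_cons, true_or, or_true])
  have c1 : 0 < (tCC cv2m (w3W true)).v (c1n (x + u) + sk1.xs.v u b x) (1 - (x + u - b)) x := hc (f3B sk1.xs (tCC cv2m (w3W true))) (by unfold cx_Bpk1; simp only [List.mem_cons, true_or, or_true])
  have c2 : 0 < (tXC cv1m).v (c1n (x + u) + sk1.xs.v u b x) (1 - (x + u - b)) x := hc (f3B sk1.xs (tXC cv1m)) (by unfold cx_Bpk1; simp only [List.mem_cons, true_or, or_true])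
  refine (sKBpk1 hF q3 (by linarith) (by linarith) c0 c1 c2 hw).trans ?_
  rw [w3K_B, w3W_B]
  push_cast
  ring
theorem zLBpk1 {u b x : ℝ} (hF : SideOk PP tKF tL pcF x) (x0 : 3 / 8 ≤ x) (x1 : x ≤ 7 / 16) (h1 : |u| < 1 / 32) (h2 : |b| < 1 / 32) (h3 : |u - b| < 1 / 32) (hb : 0 ≤ b) (q3 : InQ 1 (1 - (x + u - b)))
    (hc : ∀ G ∈ cx_Bpk1, 0 < G.v u b x) : (pcF 1).L.v (c1n (x + u) + sk1.xs.v u b x) (1 - (x + u - b)) x =
    cQ x (x + u - b) (kcg.v (psn (x + u - b)) x) + sX_Bpk1.v (c1n (x + u) + sk1.xs.v u b x) (1 - (x + u - b)) x * (c1n (x + u) + sk1.xs.v u b x - (c1n (x + u - b) + 1 / 2)) := by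
  have hw := w_Bpk1 x0 x1 h1 h2 h3 hb
  obtain ⟨u1, u2⟩ := abs_lt.1 h1
  obtain ⟨b1, b2⟩ := abs_lt.1 h2
  obtain ⟨v1, v2⟩ := abs_lt.1 h3
  have y1 := q3.1
  have y2 := q3.2
  have c0 : 0 < (tCC (w3W true) cv1m).v (c1n (x + u) + sk1.xs.v u b x) (1 - (x + u - b)) x := hc (f3B sk1.xs (tCC (w3W true) cv1m)) (by unfold cx_Bpk1; simp only [List.mem_cons, true_or, or_true])
  have c1 : 0 < (tCC cv2m (w3W true)).v (c1n (x + u) + sk1.xs.v u b x) (1 - (x + u - b)) x := hc (f3B sk1.xs (tCC cv2m (w3W true))) (by unfold cx_Bpk1; simp only [List.mem_cons, true_or, or_true])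
  have c2 : 0 < (tXC cv1m).v (c1n (x + u) + sk1.xs.v u b x) (1 - (x + u - b)) x := hc (f3B sk1.xs (tXC cv1m)) (by unfold cx_Bpk1; simp only [List.mem_cons, true_or, or_true])
  refine (sLBpk1 hF q3 (by linarith) (by linarith) c0 c1 c2 hw).trans ?_
  rw [w3Q_B, w3W_B]
theorem zDBpk1 {u b x : ℝ} (hF : SideOk PP tKF tL pcF x) (hN : SideOk PP tKN tL pcN x) (x0 : 3 / 8 ≤ x) (x1 : x ≤ 7 / 16) (h1 : |u| < 1 / 32) (h2 : |b| < 1 / 32) (h3 : |u - b| < 1 / 32) (hb : 0 ≤ b) (q3 : InQ 1 (1 - (x + u - b)))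
    (hc : ∀ G ∈ cx_Bpk1, 0 < G.v u b x) : ((pcN 1).K.v (c1n (x + u) + sk1.xs.v u b x) (1 - (x + u - b)) x - (1 + mun 3 x * cR x) * (pcF 1).K.v (c1n (x + u) + sk1.xs.v u b x) (1 - (x + u - b)) x) / mun 3 x =
    -((cP (x + u - b) + 1 / 2 * cD (x + u - b) - (cR (x + u - b) + 2 * c1n (x + u - b) + 1) * kcg.v (psn (x + u - b)) x) * -(x + u - b)) + sD_Bpk1.v (c1n (x + u) + sk1.xs.v u b x) (1 - (x + u - b)) x * (c1n (x + u) + sk1.xs.v u b x - (c1n (x + u - b) + 1 / 2)) := by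
  have hw := w_Bpk1 x0 x1 h1 h2 h3 hb
  obtain ⟨u1, u2⟩ := abs_lt.1 h1
  obtain ⟨b1, b2⟩ := abs_lt.1 h2
  obtain ⟨v1, v2⟩ := abs_lt.1 h3
  have y1 := q3.1
  have y2 := q3.2
  have c0 : 0 < (tCC (w3W true) cv1m).v (c1n (x + u) + sk1.xs.v u b x) (1 - (x + u - b)) x := hc (f3B sk1.xs (tCC (w3W true) cv1m)) (by unfold cx_Bpk1; simp only [List.mem_cons, true_or, or_true])
  have c1 : 0 < (tCC cv2m (w3W true)).v (c1n (x + u) + sk1.xs.v u b x) (1 - (x + u - b)) x := hc (f3B sk1.xs (tCC cv2m (w3W true))) (by unfold cx_Bpk1; simp only [List.mem_cons, true_or, or_true])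
  have c2 : 0 < (tXC cv1m).v (c1n (x + u) + sk1.xs.v u b x) (1 - (x + u - b)) x := hc (f3B sk1.xs (tXC cv1m)) (by unfold cx_Bpk1; simp only [List.mem_cons, true_or, or_true])
  refine (sDBpk1 hF hN (mun_ne x) q3 (by linarith) (by linarith) c0 c1 c2 hw).trans ?_
  rw [w3D_B, w3W_B]
  push_cast
  ring
theorem fF_Bpk1 {a : ℕ} {x u b κ τ y' : ℝ} (hF : SideOk PP tKF tL pcF x) (hκ : κ * h0 = ken x)
    (x0 : 3 / 8 ≤ x) (x1 : x ≤ 7 / 16) (h1 : |u| < 1 / 32) (h2 : |b| < 1 / 32) (h3 : |u - b| < 1 / 32) (hy : y' = 1 + b - (x + u)) (F : FactsB PP a 1 2 0 1 1 (-1) (x + u) y')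
    (t1 : tau (h0 * (x + u)) = h0 * τ) (K1 : tKF 0 a (x + u) x = (c1n (x + u) * cG (x + u) + kcg.v (psn (x + u)) x) * τ) (L1 : tL 0 a (x + u) x = cQ x (x + u) (kcg.v (psn (x + u)) x)) :
    StB (VF κ) PP tKF tL pcF a 1 2 0 1 1 (-1) x (x + u) y' := by
  obtain ⟨u1, u2⟩ := abs_lt.1 h1
  obtain ⟨b1, b2⟩ := abs_lt.1 h2
  obtain ⟨v1, v2⟩ := abs_lt.1 h3
  have e0 : x + u + y' = 1 + b := by rw [hy]; ring
  have qs : InQ 2 (1 + b) := e0 ▸ F.q3
  have hb : 0 ≤ b := by linarith [qs.1]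
  have D : DomB u b x := ⟨by linarith, by linarith, by linarith, by linarith, by linarith, by linarith, by linarith, by linarith⟩
  have hY : y' = 1 - (x + u - b) := by rw [hy]; ring
  have q3 : InQ 1 (1 - (x + u - b)) := hY ▸ F.q2
  obtain ⟨p1, p2⟩ := psr (y := x + u) (by linarith) (by linarith)
  obtain ⟨p3, p4⟩ := psr (y := x + u - b) (by linarith) (by linarith)
  have hd := dqBp (dq_t x) hb (by linarith) (by linarith) (by linarith) (by linarith) p1 p2 p3 p4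
  have hs : ∀ G ∈ sk_Bpk1, G.v u b x ≤ 0 := skPM (A := false) (v := 33554432) (u := u) (b := b) (x := x) (abs_le.2 ⟨by simp only [cond_true, cond_false]; unfold S; norm_num; linarith, by simp only [cond_true, cond_false]; unfold S; norm_num; linarith⟩)
  obtain ⟨r1, r2⟩ := rX x0 x1
  have K := Cht.cert (ng := false) (r := 33554432) ct_0Bpk1 (u := u) (b := b) (x := x) (by unfold S; norm_num; linarith) (by unfold S; norm_num; linarith) (by simp only [cond_true, cond_false]; linarith) (by simp only [cond_true, cond_false]; unfold S; norm_num; linarith) r1 r2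
  have t3 := t3B1 F.q2 hy
  have hit : ((T_Bpk1.b true).at_ u b x).it * -(x + u - b) = 1 := by
    show -(x + u - b)⁻¹ * _ = _
    rw [neg_mul_neg]
    exact inv_mul_cancel₀ (ne_of_gt (by linarith))
  have hx : sk1.xs.v u b x = 1 / 2 + b * sk1.ws.v u b x := stK_x (by norm_num) (by linarith) (by linarith)
  have hX : crv PP 1 2 (1 + b) = sk1.xs.v u b x := sX1 u
  have od : 1 ≤ qqn (c1n (x + u) + sk1.xs.v u b x) (1 - (x + u - b)) ∧ qqn (c1n (x + u) + sk1.xs.v u b x) (1 - (x + u - b)) ≤ 3 ∧ c1n (x + u) + sk1.xs.v u b x ≠ 0 := by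
    have l1 := F.len1
    have l3 := F.len3
    have cp := c1n_pos' (y := x + u) (by nlinarith)
    have cn : 0 ≤ (fXS 1 1 2).v u b x := fXS_nn hb (by linarith)
    have e : -1 * crv PP 1 2 (x + u + y') - 1 * crv PP 0 a (x + u) = -(c1n (x + u) + sk1.xs.v u b x) := by
      rw [e0, hX, crv0]
      ring
    rw [e, qqn_neg, hY] at l1 l3
    refine ⟨l1, l3, ne_of_gt ?_⟩
    show 0 < c1n (x + u) + (fXS 1 1 2).v u b x
    linarith
  have eX : -sk1.xs.v u b x - c1n (x + u) = -(c1n (x + u) + sk1.xs.v u b x) := by ring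
  have K3 : (∀ G ∈ cx_Bpk1, 0 < G.v u b x) → (pcF 1).K.v (-sk1.xs.v u b x - c1n (x + u)) y' x = ((c1n (x + u - b) + 1 / 2) * cG (x + u - b) + kcg.v (psn (x + u - b)) x) * -(x + u - b) - sK_Bpk1.v (c1n (x + u) + sk1.xs.v u b x) (1 - (x + u - b)) x * (c1n (x + u) + sk1.xs.v u b x - (c1n (x + u - b) + 1 / 2)) := fun hc => by
    rw [eX, hY, (hF.odd q3 od.1 od.2.1 od.2.2).1, zKBpk1 hF x0 x1 h1 h2 h3 hb q3 hc]
    ring
  have L3 : (∀ G ∈ cx_Bpk1, 0 < G.v u b x) → (pcF 1).L.v (-sk1.xs.v u b x - c1n (x + u)) y' x = -(cQ x (x + u - b) (kcg.v (psn (x + u - b)) x) + sX_Bpk1.v (c1n (x + u) + sk1.xs.v u b x) (1 - (x + u - b)) x * (c1n (x + u) + sk1.xs.v u b x - (c1n (x + u - b) + 1 / 2))) := fun hc => by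
    rw [eX, hY, (hF.odd q3 od.1 od.2.1 od.2.2).2, zLBpk1 hF x0 x1 h1 h2 h3 hb q3 hc]
  exact farBp (T := T_Bpk1) (sk := sk_Bpk1) (cx := cx_Bpk1) D hb hκ hy hd hit t1 t3 hx hX K hs K1 (sk1K u hb qs (by linarith)) K3 L1 (sk1L u hb qs (by linarith)) L3
theorem BF1_012 {x κ y y' : ℝ} (hF : SideOk PP tKF tL pcF x) (hκ : κ * h0 = ken x) (x0 : 3 / 8 ≤ x) (x1 : x ≤ 7 / 16)
    (F : FactsB PP 0 1 2 0 1 1 (-1) y y') (h1 : |y - x| < 1 / 32) (h3 : |y' - (1 - x)| < 1 / 32) (h2 : |y + y' - 1| < 1 / 32) :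
    StB (VF κ) PP tKF tL pcF 0 1 2 0 1 1 (-1) x y y' := by
  obtain ⟨u, rfl⟩ : ∃ u, y = x + u := ⟨y - x, by ring⟩
  obtain ⟨b, hy⟩ : ∃ b, y' = 1 + b - (x + u) := ⟨y' + (x + u) - 1, by ring⟩
  rw [show x + u - x = u by ring] at h1
  rw [show x + u + y' - 1 = b by rw [hy]; ring] at h2
  rw [show y' - (1 - x) = -(u - b) by rw [hy]; ring, abs_neg] at h3
  obtain ⟨u1, u2⟩ := abs_lt.1 h1
  exact fF_Bpk1 hF hκ x0 x1 h1 h2 h3 hy F (t1_0 F.q1) (shK0 F.q1 (by linarith) (by linarith)) (shL0 F.q1 (by linarith) (by linarith))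
theorem molF_B_012_01_0 {κ x : ℝ} (hκ : κ * h0 = ken x) (hx : ((402653184 : ℕ) : ℝ) / S ≤ x) (hx' : x ≤ (((402653184 : ℕ) : ℝ) + (67108864 : ℕ)) / S) :
    AltB (VF κ) PP tKF tL pcF [⟨0, 0, 1, 33554432⟩, ⟨1, 1, 2, 33554432⟩, ⟨2, 1, 0, 33554432⟩] 0 1 2 0 1 (sgb true) (sgb false) x := by
  obtain ⟨x0, x1⟩ := xr hx hx'
  exact altB_s fun y y' F h1 h3 h2 => BF1_012 (sideF hx hx') hκ x0 x1 F (h1.trans_eq (by norm_num)) (h3.trans_eq (by norm_num)) (h2.trans_eq (by norm_num))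
theorem fN_Bpk1 {a : ℕ} {x u b κ τ y' : ℝ} (hF : SideOk PP tKF tL pcF x) (hN : SideOk PP tKN tL pcN x) (hκ : κ * h0 = ken x)
    (x0 : 3 / 8 ≤ x) (x1 : x ≤ 7 / 16) (h1 : |u| < 1 / 32) (h2 : |b| < 1 / 32) (h3 : |u - b| < 1 / 32) (hy : y' = 1 + b - (x + u)) (F : FactsB PP a 1 2 0 1 1 (-1) (x + u) y')
    (t1 : tau (h0 * (x + u)) = h0 * τ) (N1 : tKN 0 a (x + u) x = (1 + mun 3 x * cR x) * ((c1n (x + u) * cG (x + u) + kcg.v (psn (x + u)) x) * τ) + mun 3 x * ((cP (x + u) - (cR (x + u) + 2 * c1n (x + u)) * kcg.v (psn (x + u)) x) * τ)) (L1 : tL 0 a (x + u) x = cQ x (x + u) (kcg.v (psn (x + u)) x)) :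
    StB (VN 3 κ) PP tKN tL pcN a 1 2 0 1 1 (-1) x (x + u) y' := by
  obtain ⟨u1, u2⟩ := abs_lt.1 h1
  obtain ⟨b1, b2⟩ := abs_lt.1 h2
  obtain ⟨v1, v2⟩ := abs_lt.1 h3
  have e0 : x + u + y' = 1 + b := by rw [hy]; ring
  have qs : InQ 2 (1 + b) := e0 ▸ F.q3
  have hb : 0 ≤ b := by linarith [qs.1]
  have D : DomB u b x := ⟨by linarith, by linarith, by linarith, by linarith, by linarith, by linarith, by linarith, by linarith⟩
  have hY : y' = 1 - (x + u - b) := by rw [hy]; ring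
  have q3 : InQ 1 (1 - (x + u - b)) := hY ▸ F.q2
  obtain ⟨p1, p2⟩ := psr (y := x + u) (by linarith) (by linarith)
  obtain ⟨p3, p4⟩ := psr (y := x + u - b) (by linarith) (by linarith)
  have hd := dqBp (dq_t x) hb (by linarith) (by linarith) (by linarith) (by linarith) p1 p2 p3 p4
  have hs : ∀ G ∈ sk_Bpk1, G.v u b x ≤ 0 := skPM (A := false) (v := 33554432) (u := u) (b := b) (x := x) (abs_le.2 ⟨by simp only [cond_true, cond_false]; unfold S; norm_num; linarith, by simp only [cond_true, cond_false]; unfold S; norm_num; linarith⟩)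
  obtain ⟨r1, r2⟩ := rX x0 x1
  have K := Cht.cert (ng := false) (r := 33554432) ct_1Bpk1 (u := u) (b := b) (x := x) (by unfold S; norm_num; linarith) (by unfold S; norm_num; linarith) (by simp only [cond_true, cond_false]; linarith) (by simp only [cond_true, cond_false]; unfold S; norm_num; linarith) r1 r2
  have t3 := t3B1 F.q2 hy
  have hit : ((T_Bpk1.b true).at_ u b x).it * -(x + u - b) = 1 := by
    show -(x + u - b)⁻¹ * _ = _
    rw [neg_mul_neg]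
    exact inv_mul_cancel₀ (ne_of_gt (by linarith))
  have hx : sk1.xs.v u b x = 1 / 2 + b * sk1.ws.v u b x := stK_x (by norm_num) (by linarith) (by linarith)
  have hX : crv PP 1 2 (1 + b) = sk1.xs.v u b x := sX1 u
  have od : 1 ≤ qqn (c1n (x + u) + sk1.xs.v u b x) (1 - (x + u - b)) ∧ qqn (c1n (x + u) + sk1.xs.v u b x) (1 - (x + u - b)) ≤ 3 ∧ c1n (x + u) + sk1.xs.v u b x ≠ 0 := by
    have l1 := F.len1
    have l3 := F.len3
    have cp := c1n_pos' (y := x + u) (by nlinarith)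
    have cn : 0 ≤ (fXS 1 1 2).v u b x := fXS_nn hb (by linarith)
    have e : -1 * crv PP 1 2 (x + u + y') - 1 * crv PP 0 a (x + u) = -(c1n (x + u) + sk1.xs.v u b x) := by
      rw [e0, hX, crv0]
      ring
    rw [e, qqn_neg, hY] at l1 l3
    refine ⟨l1, l3, ne_of_gt ?_⟩
    show 0 < c1n (x + u) + (fXS 1 1 2).v u b x
    linarith
  have eX : -sk1.xs.v u b x - c1n (x + u) = -(c1n (x + u) + sk1.xs.v u b x) := by ring
  have K3 : (∀ G ∈ cx_Bpk1, 0 < G.v u b x) → (pcF 1).K.v (-sk1.xs.v u b x - c1n (x + u)) y' x = ((c1n (x + u - b) + 1 / 2) * cG (x + u - b) + kcg.v (psn (x + u - b)) x) * -(x + u - b) - sK_Bpk1.v (c1n (x + u) + sk1.xs.v u b x) (1 - (x + u - b)) x * (c1n (x + u) + sk1.xs.v u b x - (c1n (x + u - b) + 1 / 2)) := fun hc => by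
    rw [eX, hY, (hF.odd q3 od.1 od.2.1 od.2.2).1, zKBpk1 hF x0 x1 h1 h2 h3 hb q3 hc]
    ring
  have L3 : (∀ G ∈ cx_Bpk1, 0 < G.v u b x) → (pcF 1).L.v (-sk1.xs.v u b x - c1n (x + u)) y' x = -(cQ x (x + u - b) (kcg.v (psn (x + u - b)) x) + sX_Bpk1.v (c1n (x + u) + sk1.xs.v u b x) (1 - (x + u - b)) x * (c1n (x + u) + sk1.xs.v u b x - (c1n (x + u - b) + 1 / 2))) := fun hc => by
    rw [eX, hY, (hF.odd q3 od.1 od.2.1 od.2.2).2, zLBpk1 hF x0 x1 h1 h2 h3 hb q3 hc]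
  have D3 : (∀ G ∈ cx_Bpk1, 0 < G.v u b x) → ((pcN 1).K.v (-sk1.xs.v u b x - c1n (x + u)) y' x - (1 + mun 3 x * cR x) * (pcF 1).K.v (-sk1.xs.v u b x - c1n (x + u)) y' x) / mun 3 x = (cP (x + u - b) + 1 / 2 * cD (x + u - b) - (cR (x + u - b) + 2 * c1n (x + u - b) + 1) * kcg.v (psn (x + u - b)) x) * -(x + u - b) - sD_Bpk1.v (c1n (x + u) + sk1.xs.v u b x) (1 - (x + u - b)) x * (c1n (x + u) + sk1.xs.v u b x - (c1n (x + u - b) + 1 / 2)) := fun hc => by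
    have e := zDBpk1 hF hN x0 x1 h1 h2 h3 hb q3 hc
    rw [eX, hY, (hF.odd q3 od.1 od.2.1 od.2.2).1, (hN.odd q3 od.1 od.2.1 od.2.2).1]
    rw [div_eq_iff (mun_ne x)] at e ⊢
    linear_combination -e
  exact nearBp (T := T_Bpk1) (sk := sk_Bpk1) (cx := cx_Bpk1) D hb hκ hy hd hit t1 t3 hx hX K hs (kcb (by linarith) (by linarith) x0 x1) N1 (sk1N qs) (sk1K u hb qs (by linarith)) (sk1D u hb (by linarith)) (fun _ => div_mun) K3 D3 L1 (sk1L u hb qs (by linarith)) L3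
theorem BN1_012 {x κ y y' : ℝ} (hF : SideOk PP tKF tL pcF x) (hN : SideOk PP tKN tL pcN x) (hκ : κ * h0 = ken x) (x0 : 3 / 8 ≤ x) (x1 : x ≤ 7 / 16)
    (F : FactsB PP 0 1 2 0 1 1 (-1) y y') (h1 : |y - x| < 1 / 32) (h3 : |y' - (1 - x)| < 1 / 32) (h2 : |y + y' - 1| < 1 / 32) :
    StB (VN 3 κ) PP tKN tL pcN 0 1 2 0 1 1 (-1) x y y' := by
  obtain ⟨u, rfl⟩ : ∃ u, y = x + u := ⟨y - x, by ring⟩
  obtain ⟨b, hy⟩ : ∃ b, y' = 1 + b - (x + u) := ⟨y' + (x + u) - 1, by ring⟩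
  rw [show x + u - x = u by ring] at h1
  rw [show x + u + y' - 1 = b by rw [hy]; ring] at h2
  rw [show y' - (1 - x) = -(u - b) by rw [hy]; ring, abs_neg] at h3
  obtain ⟨u1, u2⟩ := abs_lt.1 h1
  exact fN_Bpk1 hF hN hκ x0 x1 h1 h2 h3 hy F (t1_0 F.q1) (shN0 F.q1 (by linarith) (by linarith)) (shL0 F.q1 (by linarith) (by linarith))
theorem molN_B_012_01_0 {κ x : ℝ} (hκ : κ * h0 = ken x) (hx : ((402653184 : ℕ) : ℝ) / S ≤ x) (hx' : x ≤ (((402653184 : ℕ) : ℝ) + (67108864 : ℕ)) / S) :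
    AltB (VN 3 κ) PP tKN tL pcN [⟨0, 0, 1, 33554432⟩, ⟨1, 1, 2, 33554432⟩, ⟨2, 1, 0, 33554432⟩] 0 1 2 0 1 (sgb true) (sgb false) x := by
  obtain ⟨x0, x1⟩ := xr hx hx'
  exact altB_s fun y y' F h1 h3 h2 => BN1_012 (sideF hx hx') (sideN hx hx') hκ x0 x1 F (h1.trans_eq (by norm_num)) (h3.trans_eq (by norm_num)) (h2.trans_eq (by norm_num))
theorem w_Bm {u b x : ℝ} (x0 : 3 / 8 ≤ x) (x1 : x ≤ 7 / 16) (h1 : |u| < 1 / 32) (h2 : |b| < 1 / 32) (h3 : |u - b| < 1 / 32) (hb : b < 0) : (w3W true).v (1 - (x + u - b)) ≤ c1n (x + u) + sm.xs.v u b x := by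
  obtain ⟨u1, u2⟩ := abs_lt.1 h1
  obtain ⟨b1, b2⟩ := abs_lt.1 h2
  obtain ⟨v1, v2⟩ := abs_lt.1 h3
  have cm1 : c1n (1 + b) ≥ 1 / 2 := c1n_half' hb.le (by linarith)
  have cm2 : c1n (x + u) ≥ c1n (x + u - b) := c1n_le' (by linarith) (by linarith)
  rw [w3W_B]
  show c1n (x + u - b) + 1 / 2 ≤ c1n (x + u) + c1n (1 + b)
  linarith
theorem zKBm {u b x : ℝ} (hF : SideOk PP tKF tL pcF x) (x0 : 3 / 8 ≤ x) (x1 : x ≤ 7 / 16) (h1 : |u| < 1 / 32) (h2 : |b| < 1 / 32) (h3 : |u - b| < 1 / 32) (hb : b < 0) (q3 : InQ 1 (1 - (x + u - b)))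
    (hc : ∀ G ∈ cx_Bm, 0 < G.v u b x) : (pcF 1).K.v (c1n (x + u) + sm.xs.v u b x) (1 - (x + u - b)) x =
    -(((c1n (x + u - b) + 1 / 2) * cG (x + u - b) + kcg.v (psn (x + u - b)) x) * -(x + u - b)) + sK_Bm.v (c1n (x + u) + sm.xs.v u b x) (1 - (x + u - b)) x * (c1n (x + u) + sm.xs.v u b x - (c1n (x + u - b) + 1 / 2)) := by
  have hw := w_Bm x0 x1 h1 h2 h3 hb
  obtain ⟨u1, u2⟩ := abs_lt.1 h1
  obtain ⟨b1, b2⟩ := abs_lt.1 h2
  obtain ⟨v1, v2⟩ := abs_lt.1 h3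
  have y1 := q3.1
  have y2 := q3.2
  have c0 : 0 < (tCC (w3W true) cv1m).v (c1n (x + u) + sm.xs.v u b x) (1 - (x + u - b)) x := hc (f3B sm.xs (tCC (w3W true) cv1m)) (by unfold cx_Bm; simp only [List.mem_cons, true_or, or_true])
  have c1 : 0 < (tCC cv2m (w3W true)).v (c1n (x + u) + sm.xs.v u b x) (1 - (x + u - b)) x := hc (f3B sm.xs (tCC cv2m (w3W true))) (by unfold cx_Bm; simp only [List.mem_cons, true_or, or_true])
  have c2 : 0 < (tCX cv3m).v (c1n (x + u) + sm.xs.v u b x) (1 - (x + u - b)) x := hc (f3B sm.xs (tCX cv3m)) (by unfold cx_Bm; simp only [List.mem_cons, true_or, or_true])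
  refine (sKBm hF q3 (by linarith) (by linarith) c0 c1 c2 hw).trans ?_
  rw [w3K_B, w3W_B]
  push_cast
  ring
theorem zLBm {u b x : ℝ} (hF : SideOk PP tKF tL pcF x) (x0 : 3 / 8 ≤ x) (x1 : x ≤ 7 / 16) (h1 : |u| < 1 / 32) (h2 : |b| < 1 / 32) (h3 : |u - b| < 1 / 32) (hb : b < 0) (q3 : InQ 1 (1 - (x + u - b)))
    (hc : ∀ G ∈ cx_Bm, 0 < G.v u b x) : (pcF 1).L.v (c1n (x + u) + sm.xs.v u b x) (1 - (x + u - b)) x =
    cQ x (x + u - b) (kcg.v (psn (x + u - b)) x) + sX_Bm.v (c1n (x + u) + sm.xs.v u b x) (1 - (x + u - b)) x * (c1n (x + u) + sm.xs.v u b x - (c1n (x + u - b) + 1 / 2)) := by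
  have hw := w_Bm x0 x1 h1 h2 h3 hb
  obtain ⟨u1, u2⟩ := abs_lt.1 h1
  obtain ⟨b1, b2⟩ := abs_lt.1 h2
  obtain ⟨v1, v2⟩ := abs_lt.1 h3
  have y1 := q3.1
  have y2 := q3.2
  have c0 : 0 < (tCC (w3W true) cv1m).v (c1n (x + u) + sm.xs.v u b x) (1 - (x + u - b)) x := hc (f3B sm.xs (tCC (w3W true) cv1m)) (by unfold cx_Bm; simp only [List.mem_cons, true_or, or_true])
  have c1 : 0 < (tCC cv2m (w3W true)).v (c1n (x + u) + sm.xs.v u b x) (1 - (x + u - b)) x := hc (f3B sm.xs (tCC cv2m (w3W true))) (by unfold cx_Bm; simp only [List.mem_cons, true_or, or_true])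
  have c2 : 0 < (tCX cv3m).v (c1n (x + u) + sm.xs.v u b x) (1 - (x + u - b)) x := hc (f3B sm.xs (tCX cv3m)) (by unfold cx_Bm; simp only [List.mem_cons, true_or, or_true])
  refine (sLBm hF q3 (by linarith) (by linarith) c0 c1 c2 hw).trans ?_
  rw [w3Q_B, w3W_B]
theorem zDBm {u b x : ℝ} (hF : SideOk PP tKF tL pcF x) (hN : SideOk PP tKN tL pcN x) (x0 : 3 / 8 ≤ x) (x1 : x ≤ 7 / 16) (h1 : |u| < 1 / 32) (h2 : |b| < 1 / 32) (h3 : |u - b| < 1 / 32) (hb : b < 0) (q3 : InQ 1 (1 - (x + u - b)))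
    (hc : ∀ G ∈ cx_Bm, 0 < G.v u b x) : ((pcN 1).K.v (c1n (x + u) + sm.xs.v u b x) (1 - (x + u - b)) x - (1 + mun 3 x * cR x) * (pcF 1).K.v (c1n (x + u) + sm.xs.v u b x) (1 - (x + u - b)) x) / mun 3 x =
    -((cP (x + u - b) + 1 / 2 * cD (x + u - b) - (cR (x + u - b) + 2 * c1n (x + u - b) + 1) * kcg.v (psn (x + u - b)) x) * -(x + u - b)) + sD_Bm.v (c1n (x + u) + sm.xs.v u b x) (1 - (x + u - b)) x * (c1n (x + u) + sm.xs.v u b x - (c1n (x + u - b) + 1 / 2)) := by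
  have hw := w_Bm x0 x1 h1 h2 h3 hb
  obtain ⟨u1, u2⟩ := abs_lt.1 h1
  obtain ⟨b1, b2⟩ := abs_lt.1 h2
  obtain ⟨v1, v2⟩ := abs_lt.1 h3
  have y1 := q3.1
  have y2 := q3.2
  have c0 : 0 < (tCC (w3W true) cv1m).v (c1n (x + u) + sm.xs.v u b x) (1 - (x + u - b)) x := hc (f3B sm.xs (tCC (w3W true) cv1m)) (by unfold cx_Bm; simp only [List.mem_cons, true_or, or_true])
  have c1 : 0 < (tCC cv2m (w3W true)).v (c1n (x + u) + sm.xs.v u b x) (1 - (x + u - b)) x := hc (f3B sm.xs (tCC cv2m (w3W true))) (by unfold cx_Bm; simp only [List.mem_cons, true_or, or_true])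
  have c2 : 0 < (tCX cv3m).v (c1n (x + u) + sm.xs.v u b x) (1 - (x + u - b)) x := hc (f3B sm.xs (tCX cv3m)) (by unfold cx_Bm; simp only [List.mem_cons, true_or, or_true])
  refine (sDBm hF hN (mun_ne x) q3 (by linarith) (by linarith) c0 c1 c2 hw).trans ?_
  rw [w3D_B, w3W_B]
  push_cast
  ring
theorem fF_Bm {a : ℕ} {x u b κ τ y' : ℝ} (hF : SideOk PP tKF tL pcF x) (hκ : κ * h0 = ken x)
    (x0 : 3 / 8 ≤ x) (x1 : x ≤ 7 / 16) (h1 : |u| < 1 / 32) (h2 : |b| < 1 / 32) (h3 : |u - b| < 1 / 32) (hy : y' = 1 + b - (x + u)) (F : FactsB PP a 1 1 0 0 1 (-1) (x + u) y')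
    (t1 : tau (h0 * (x + u)) = h0 * τ) (K1 : tKF 0 a (x + u) x = (c1n (x + u) * cG (x + u) + kcg.v (psn (x + u)) x) * τ) (L1 : tL 0 a (x + u) x = cQ x (x + u) (kcg.v (psn (x + u)) x)) :
    StB (VF κ) PP tKF tL pcF a 1 1 0 0 1 (-1) x (x + u) y' := by
  obtain ⟨u1, u2⟩ := abs_lt.1 h1
  obtain ⟨b1, b2⟩ := abs_lt.1 h2
  obtain ⟨v1, v2⟩ := abs_lt.1 h3
  have e0 : x + u + y' = 1 + b := by rw [hy]; ring
  have qs : InQ 1 (1 + b) := e0 ▸ F.q3
  have hs1 : h0 * (1 + b) < 1 := e0 ▸ F.k0 rfl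
  have hb : b < 0 := by linarith [qs.2]
  have D : DomB u b x := ⟨by linarith, by linarith, by linarith, by linarith, by linarith, by linarith, by linarith, by linarith⟩
  have hY : y' = 1 - (x + u - b) := by rw [hy]; ring
  have q3 : InQ 1 (1 - (x + u - b)) := hY ▸ F.q2
  obtain ⟨p1, p2⟩ := psr (y := x + u) (by linarith) (by linarith)
  obtain ⟨p3, p4⟩ := psr (y := x + u - b) (by linarith) (by linarith)
  have hd := dqBm (dq_t x) hb (by linarith) (by linarith) (by linarith) (by linarith) p1 p2 p3 p4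
  have hs : ∀ G ∈ sk_Bm, G.v u b x ≤ 0 := skPM (A := false) (v := 33554432) (u := u) (b := b) (x := x) (abs_le.2 ⟨by simp only [cond_true, cond_false]; unfold S; norm_num; linarith, by simp only [cond_true, cond_false]; unfold S; norm_num; linarith⟩)
  obtain ⟨r1, r2⟩ := rX x0 x1
  have K := Cht.cert (ng := true) (r := 33554432) ct_0Bm (u := u) (b := b) (x := x) (by unfold S; norm_num; linarith) (by unfold S; norm_num; linarith) (by simp only [cond_true, cond_false]; linarith) (by simp only [cond_true, cond_false]; unfold S; norm_num; linarith) r1 r2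
  have t3 := t3B1 F.q2 hy
  have hit : ((T_Bm.b false).at_ u b x).it * -(x + u - b) = 1 := by
    show -(x + u - b)⁻¹ * _ = _
    rw [neg_mul_neg]
    exact inv_mul_cancel₀ (ne_of_gt (by linarith))
  have hx : sm.xs.v u b x = 1 / 2 + b * sm.ws.v u b x := stM_x (by linarith) (by linarith)
  have hX : crv PP 0 1 (1 + b) = sm.xs.v u b x := crv0 1 (1 + b)
  have od : 1 ≤ qqn (c1n (x + u) + sm.xs.v u b x) (1 - (x + u - b)) ∧ qqn (c1n (x + u) + sm.xs.v u b x) (1 - (x + u - b)) ≤ 3 ∧ c1n (x + u) + sm.xs.v u b x ≠ 0 := by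
    have l1 := F.len1
    have l3 := F.len3
    have cp := c1n_pos' (y := x + u) (by nlinarith)
    have cn : 0 ≤ c1n (1 + b) := Mol.c1n_nn (1 + b)
    have e : -1 * crv PP 0 1 (x + u + y') - 1 * crv PP 0 a (x + u) = -(c1n (x + u) + sm.xs.v u b x) := by
      rw [e0, hX, crv0]
      ring
    rw [e, qqn_neg, hY] at l1 l3
    refine ⟨l1, l3, ne_of_gt ?_⟩
    show 0 < c1n (x + u) + c1n (1 + b)
    linarith
  have eX : -sm.xs.v u b x - c1n (x + u) = -(c1n (x + u) + sm.xs.v u b x) := by ring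
  have K3 : (∀ G ∈ cx_Bm, 0 < G.v u b x) → (pcF 1).K.v (-sm.xs.v u b x - c1n (x + u)) y' x = ((c1n (x + u - b) + 1 / 2) * cG (x + u - b) + kcg.v (psn (x + u - b)) x) * -(x + u - b) - sK_Bm.v (c1n (x + u) + sm.xs.v u b x) (1 - (x + u - b)) x * (c1n (x + u) + sm.xs.v u b x - (c1n (x + u - b) + 1 / 2)) := fun hc => by
    rw [eX, hY, (hF.odd q3 od.1 od.2.1 od.2.2).1, zKBm hF x0 x1 h1 h2 h3 hb q3 hc]
    ring
  have L3 : (∀ G ∈ cx_Bm, 0 < G.v u b x) → (pcF 1).L.v (-sm.xs.v u b x - c1n (x + u)) y' x = -(cQ x (x + u - b) (kcg.v (psn (x + u - b)) x) + sX_Bm.v (c1n (x + u) + sm.xs.v u b x) (1 - (x + u - b)) x * (c1n (x + u) + sm.xs.v u b x - (c1n (x + u - b) + 1 / 2))) := fun hc => by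
    rw [eX, hY, (hF.odd q3 od.1 od.2.1 od.2.2).2, zLBm hF x0 x1 h1 h2 h3 hb q3 hc]
  exact farBm (T := T_Bm) (sk := sk_Bm) (cx := cx_Bm) D hb hκ hy hd hit t1 t3 hx hX K hs K1 (smK u hb qs (by linarith)) K3 L1 (smL u hb qs (by linarith)) L3
theorem BF_011 {x κ y y' : ℝ} (hF : SideOk PP tKF tL pcF x) (hκ : κ * h0 = ken x) (x0 : 3 / 8 ≤ x) (x1 : x ≤ 7 / 16)
    (F : FactsB PP 0 1 1 0 0 1 (-1) y y') (h1 : |y - x| < 1 / 32) (h3 : |y' - (1 - x)| < 1 / 32) (h2 : |y + y' - 1| < 1 / 32) :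
    StB (VF κ) PP tKF tL pcF 0 1 1 0 0 1 (-1) x y y' := by
  obtain ⟨u, rfl⟩ : ∃ u, y = x + u := ⟨y - x, by ring⟩
  obtain ⟨b, hy⟩ : ∃ b, y' = 1 + b - (x + u) := ⟨y' + (x + u) - 1, by ring⟩
  rw [show x + u - x = u by ring] at h1
  rw [show x + u + y' - 1 = b by rw [hy]; ring] at h2
  rw [show y' - (1 - x) = -(u - b) by rw [hy]; ring, abs_neg] at h3
  obtain ⟨u1, u2⟩ := abs_lt.1 h1
  exact fF_Bm hF hκ x0 x1 h1 h2 h3 hy F (t1_0 F.q1) (shK0 F.q1 (by linarith) (by linarith)) (shL0 F.q1 (by linarith) (by linarith))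
theorem molF_B_011_00_0 {κ x : ℝ} (hκ : κ * h0 = ken x) (hx : ((402653184 : ℕ) : ℝ) / S ≤ x) (hx' : x ≤ (((402653184 : ℕ) : ℝ) + (67108864 : ℕ)) / S) :
    AltB (VF κ) PP tKF tL pcF [⟨0, 0, 1, 33554432⟩, ⟨1, 1, 2, 33554432⟩, ⟨2, 1, 0, 33554432⟩] 0 1 1 0 0 (sgb true) (sgb false) x := by
  obtain ⟨x0, x1⟩ := xr hx hx'
  exact altB_s fun y y' F h1 h3 h2 => BF_011 (sideF hx hx') hκ x0 x1 F (h1.trans_eq (by norm_num)) (h3.trans_eq (by norm_num)) (h2.trans_eq (by norm_num))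
theorem fN_Bm {a : ℕ} {x u b κ τ y' : ℝ} (hF : SideOk PP tKF tL pcF x) (hN : SideOk PP tKN tL pcN x) (hκ : κ * h0 = ken x)
    (x0 : 3 / 8 ≤ x) (x1 : x ≤ 7 / 16) (h1 : |u| < 1 / 32) (h2 : |b| < 1 / 32) (h3 : |u - b| < 1 / 32) (hy : y' = 1 + b - (x + u)) (F : FactsB PP a 1 1 0 0 1 (-1) (x + u) y')
    (t1 : tau (h0 * (x + u)) = h0 * τ) (N1 : tKN 0 a (x + u) x = (1 + mun 3 x * cR x) * ((c1n (x + u) * cG (x + u) + kcg.v (psn (x + u)) x) * τ) + mun 3 x * ((cP (x + u) - (cR (x + u) + 2 * c1n (x + u)) * kcg.v (psn (x + u)) x) * τ)) (L1 : tL 0 a (x + u) x = cQ x (x + u) (kcg.v (psn (x + u)) x)) :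
    StB (VN 3 κ) PP tKN tL pcN a 1 1 0 0 1 (-1) x (x + u) y' := by
  obtain ⟨u1, u2⟩ := abs_lt.1 h1
  obtain ⟨b1, b2⟩ := abs_lt.1 h2
  obtain ⟨v1, v2⟩ := abs_lt.1 h3
  have e0 : x + u + y' = 1 + b := by rw [hy]; ring
  have qs : InQ 1 (1 + b) := e0 ▸ F.q3
  have hs1 : h0 * (1 + b) < 1 := e0 ▸ F.k0 rfl
  have hb : b < 0 := by linarith [qs.2]
  have D : DomB u b x := ⟨by linarith, by linarith, by linarith, by linarith, by linarith, by linarith, by linarith, by linarith⟩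
  have hY : y' = 1 - (x + u - b) := by rw [hy]; ring
  have q3 : InQ 1 (1 - (x + u - b)) := hY ▸ F.q2
  obtain ⟨p1, p2⟩ := psr (y := x + u) (by linarith) (by linarith)
  obtain ⟨p3, p4⟩ := psr (y := x + u - b) (by linarith) (by linarith)
  have hd := dqBm (dq_t x) hb (by linarith) (by linarith) (by linarith) (by linarith) p1 p2 p3 p4
  have hs : ∀ G ∈ sk_Bm, G.v u b x ≤ 0 := skPM (A := false) (v := 33554432) (u := u) (b := b) (x := x) (abs_le.2 ⟨by simp only [cond_true, cond_false]; unfold S; norm_num; linarith, by simp only [cond_true, cond_false]; unfold S; norm_num; linarith⟩)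
  obtain ⟨r1, r2⟩ := rX x0 x1
  have K := Cht.cert (ng := true) (r := 33554432) ct_1Bm (u := u) (b := b) (x := x) (by unfold S; norm_num; linarith) (by unfold S; norm_num; linarith) (by simp only [cond_true, cond_false]; linarith) (by simp only [cond_true, cond_false]; unfold S; norm_num; linarith) r1 r2
  have t3 := t3B1 F.q2 hy
  have hit : ((T_Bm.b false).at_ u b x).it * -(x + u - b) = 1 := by
    show -(x + u - b)⁻¹ * _ = _
    rw [neg_mul_neg]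
    exact inv_mul_cancel₀ (ne_of_gt (by linarith))
  have hx : sm.xs.v u b x = 1 / 2 + b * sm.ws.v u b x := stM_x (by linarith) (by linarith)
  have hX : crv PP 0 1 (1 + b) = sm.xs.v u b x := crv0 1 (1 + b)
  have od : 1 ≤ qqn (c1n (x + u) + sm.xs.v u b x) (1 - (x + u - b)) ∧ qqn (c1n (x + u) + sm.xs.v u b x) (1 - (x + u - b)) ≤ 3 ∧ c1n (x + u) + sm.xs.v u b x ≠ 0 := by
    have l1 := F.len1
    have l3 := F.len3
    have cp := c1n_pos' (y := x + u) (by nlinarith)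
    have cn : 0 ≤ c1n (1 + b) := Mol.c1n_nn (1 + b)
    have e : -1 * crv PP 0 1 (x + u + y') - 1 * crv PP 0 a (x + u) = -(c1n (x + u) + sm.xs.v u b x) := by
      rw [e0, hX, crv0]
      ring
    rw [e, qqn_neg, hY] at l1 l3
    refine ⟨l1, l3, ne_of_gt ?_⟩
    show 0 < c1n (x + u) + c1n (1 + b)
    linarith
  have eX : -sm.xs.v u b x - c1n (x + u) = -(c1n (x + u) + sm.xs.v u b x) := by ring
  have K3 : (∀ G ∈ cx_Bm, 0 < G.v u b x) → (pcF 1).K.v (-sm.xs.v u b x - c1n (x + u)) y' x = ((c1n (x + u - b) + 1 / 2) * cG (x + u - b) + kcg.v (psn (x + u - b)) x) * -(x + u - b) - sK_Bm.v (c1n (x + u) + sm.xs.v u b x) (1 - (x + u - b)) x * (c1n (x + u) + sm.xs.v u b x - (c1n (x + u - b) + 1 / 2)) := fun hc => by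
    rw [eX, hY, (hF.odd q3 od.1 od.2.1 od.2.2).1, zKBm hF x0 x1 h1 h2 h3 hb q3 hc]
    ring
  have L3 : (∀ G ∈ cx_Bm, 0 < G.v u b x) → (pcF 1).L.v (-sm.xs.v u b x - c1n (x + u)) y' x = -(cQ x (x + u - b) (kcg.v (psn (x + u - b)) x) + sX_Bm.v (c1n (x + u) + sm.xs.v u b x) (1 - (x + u - b)) x * (c1n (x + u) + sm.xs.v u b x - (c1n (x + u - b) + 1 / 2))) := fun hc => by
    rw [eX, hY, (hF.odd q3 od.1 od.2.1 od.2.2).2, zLBm hF x0 x1 h1 h2 h3 hb q3 hc]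
  have D3 : (∀ G ∈ cx_Bm, 0 < G.v u b x) → ((pcN 1).K.v (-sm.xs.v u b x - c1n (x + u)) y' x - (1 + mun 3 x * cR x) * (pcF 1).K.v (-sm.xs.v u b x - c1n (x + u)) y' x) / mun 3 x = (cP (x + u - b) + 1 / 2 * cD (x + u - b) - (cR (x + u - b) + 2 * c1n (x + u - b) + 1) * kcg.v (psn (x + u - b)) x) * -(x + u - b) - sD_Bm.v (c1n (x + u) + sm.xs.v u b x) (1 - (x + u - b)) x * (c1n (x + u) + sm.xs.v u b x - (c1n (x + u - b) + 1 / 2)) := fun hc => by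
    have e := zDBm hF hN x0 x1 h1 h2 h3 hb q3 hc
    rw [eX, hY, (hF.odd q3 od.1 od.2.1 od.2.2).1, (hN.odd q3 od.1 od.2.1 od.2.2).1]
    rw [div_eq_iff (mun_ne x)] at e ⊢
    linear_combination -e
  exact nearBm (T := T_Bm) (sk := sk_Bm) (cx := cx_Bm) D hb hκ hy hd hit t1 t3 hx hX K hs (kcb (by linarith) (by linarith) x0 x1) N1 (smN qs) (smK u hb qs (by linarith)) (smD u hb (by linarith)) (fun _ => div_mun) K3 D3 L1 (smL u hb qs (by linarith)) L3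
theorem BN_011 {x κ y y' : ℝ} (hF : SideOk PP tKF tL pcF x) (hN : SideOk PP tKN tL pcN x) (hκ : κ * h0 = ken x) (x0 : 3 / 8 ≤ x) (x1 : x ≤ 7 / 16)
    (F : FactsB PP 0 1 1 0 0 1 (-1) y y') (h1 : |y - x| < 1 / 32) (h3 : |y' - (1 - x)| < 1 / 32) (h2 : |y + y' - 1| < 1 / 32) :
    StB (VN 3 κ) PP tKN tL pcN 0 1 1 0 0 1 (-1) x y y' := by
  obtain ⟨u, rfl⟩ : ∃ u, y = x + u := ⟨y - x, by ring⟩
  obtain ⟨b, hy⟩ : ∃ b, y' = 1 + b - (x + u) := ⟨y' + (x + u) - 1, by ring⟩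
  rw [show x + u - x = u by ring] at h1
  rw [show x + u + y' - 1 = b by rw [hy]; ring] at h2
  rw [show y' - (1 - x) = -(u - b) by rw [hy]; ring, abs_neg] at h3
  obtain ⟨u1, u2⟩ := abs_lt.1 h1
  exact fN_Bm hF hN hκ x0 x1 h1 h2 h3 hy F (t1_0 F.q1) (shN0 F.q1 (by linarith) (by linarith)) (shL0 F.q1 (by linarith) (by linarith))
theorem molN_B_011_00_0 {κ x : ℝ} (hκ : κ * h0 = ken x) (hx : ((402653184 : ℕ) : ℝ) / S ≤ x) (hx' : x ≤ (((402653184 : ℕ) : ℝ) + (67108864 : ℕ)) / S) :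
    AltB (VN 3 κ) PP tKN tL pcN [⟨0, 0, 1, 33554432⟩, ⟨1, 1, 2, 33554432⟩, ⟨2, 1, 0, 33554432⟩] 0 1 1 0 0 (sgb true) (sgb false) x := by
  obtain ⟨x0, x1⟩ := xr hx hx'
  exact altB_s fun y y' F h1 h3 h2 => BN_011 (sideF hx hx') (sideN hx hx') hκ x0 x1 F (h1.trans_eq (by norm_num)) (h3.trans_eq (by norm_num)) (h2.trans_eq (by norm_num))

end Pool.Agent.Strip051.G.I3_8_7_16.Tab.Mo
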