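import Pool.Agent.Strip051.G.I3_8_7_16.StF

/-! # Unit strips 1 (generated) -/

set_option linter.all false
set_option maxRecDepth 100000

namespace Pool.Agent.Strip051.G.I3_8_7_16.Tab.St.C

open Pool.Agent.Strip051.PB Pool.Agent.Strip051.PB.T Pool.Agent.StripNear Pool.Agent.Strip051.LC
open Pool.Agent.Strip051.G.I3_8_7_16.Tab Pool.Agent.Strip051.G.I3_8_7_16.Tab.St

noncomputable def cut_A00pm_012_s1 : Cut := Cut.of [[⟨4, 0, 0, 1449551462⟩], [⟨0, 0, 0, 67108864⟩, ⟨1, 1, 0, 67108864⟩, ⟨2, 1, 0, 67108864⟩], [⟨0, 0, 1, 33554432⟩, ⟨1, 1, 0, 33554432⟩, ⟨2, 1, 1, 33554432⟩]]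

noncomputable def xt_A00pm_012_s1 : Ext := strExt dd true true false .u0 .u0m .u2 .pnp 0 1 2 rfl rfl gf2 vv ndF0q0 ndF0q1

noncomputable def f_A00pm_012_s1 : ℕ → ℕ → ℕ → ℕ → Bool := onCell 1073741824 536870912 536870912 536870912 402653184 67108864
    (rowF 2 true true false .pnp 0 1 2 (qsf 0 536870912 536870912 536870912 2) ndF0q0 ndF0q1 pcF2 cut_A00pm_012_s1 xt_A00pm_012_s1)

def k0_A00pm_012_s1 : ∃ t, chk3 f_A00pm_012_s1 t 4 2 1 = true :=
  ⟨(a (l 3) (l 3)), by decide +kernel⟩

def k1_A00pm_012_s1 : ∃ t, chk3 f_A00pm_012_s1 t 4 12 1 = true :=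
  ⟨(a (l 3) (a (l 3) (a (l 3) (b (l 3) (a (a (l 3) (a (l 3) (a (l 3) (b (l 3) (b (l 3) (l 536263695)))))) (a (b (l 3) (a (b (l 3) (l 536262927)) (c (l 536447615) (l 536132479)))) (b (b (b (l 3) (c (l 536585231) (l 536258831))) (c (l 536537359) (l 536215055))) (c (a (l 536443263) (l 536437887)) (a (l 536128383) (l 536123519)))))))))), by decide +kernel⟩

def k2_A00pm_012_s1 : ∃ t, chk3 f_A00pm_012_s1 t 8 13 1 = true :=
  ⟨(l 3), by decide +kernel⟩

def k3_A00pm_012_s1 : ∃ t, chk3 f_A00pm_012_s1 t 18 13 1 = true :=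
  ⟨(a (l 3) (b (l 3) (a (l 3) (b (l 3) (a (l 3) (b (l 3) (a (l 535322895) (l 535362687)))))))), by decide +kernel⟩

def k4_A00pm_012_s1 : ∃ t, chk3 f_A00pm_012_s1 t 38 13 1 = true :=
  ⟨(b (b (l 3) (a (l 3) (a (b (l 3) (l 535862399)) (b (l 536253967) (l 535902847))))) (b (a (a (l 535622015) (l 535682943)) (a (l 535735167) (l 536048255))) (a (a (l 535454079) (l 535517823)) (a (l 535573887) (l 535623295))))), by decide +kernel⟩

def k5_A00pm_012_s1 : ∃ t, chk3 f_A00pm_012_s1 t 39 13 1 = true :=
  ⟨(b (a (a (b (b (l 3) (b (a (l 3) (a (l 3) (c (l 536269695) (l 535968639)))) (b (a (l 3) (a (c (c (a (l 536302351) (l 536305023)) (a (l 536162575) (l 536164991))) (c (c (l 536052495) (l 535975439)) (l 535855631))) (c (l 536239487) (l 535940479)))) (a (l 536060799) (c (a (a (l 536213007) (c (l 536284175) (l 536144911))) (b (l 536224271) (l 536214543))) (c (a (l 535995151) (l 535999503)) (c (l 535879439) (l 535798031)))))))) (a (b (l 536009855) (l 535929727)) (a (b (a (l 536019071) (a (l 536289919) (b (c (l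 536185983) (l 535890559)) (l 536003711)))) (l 535941759)) (b (c (b (a (l 536188175) (l 536190847)) (l 536149375)) (c (b (l 535971087) (l 535933055)) (l 535795471))) (l 535949183))))) (b (a (b (c (l 536334095) (l 536027919)) (a (b (l 536127247) (c (l 536233743) (l 535934735))) (b (l 536130431) (l 536092687)))) (b (c (l 536338047) (l 536031615)) (c (l 536261759) (l 535960447)))) (b (a (b (c (a (l 536194319) (l 536199039)) (c (l 535977999) (l 535820671))) (c (l 536157567) (l 535863935))) (b (c (l 536205183) (l 535907711)) (l 536293647))) (a (c (l 536099087) (l 535808527)) (c (l 536111231) (l 535819903)))))) (a (b (a (b (l 536192015) (l 536120847)) (c (l 536306303) (l 536001407))) (b (a (c (l 536194319) (l 535897103)) (l 536057103)) (c (l 536126735) (l 535833871)))) (b (a (c (l 536308863) (l 536003199)) (l 536161807)) (b (l 536065807) (a (l 535999359) (l 536008063)))))) (a (a (b (a (l 535810431) (l 536097039)) (l 535667471)) (b (a (l 536113423) (b (l 535897615) (l 535825791))) (a (l 535698815) (l 535717759))))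 (b (a (c (b (l 536055679) (l 535986047)) (b (l 535766399) (l 535699071))) (c (l 536047375) (l 535756559))) (a (c (l 536149887) (l 535596815)) (c (l 535918719) (l 535630863)))))), by decide +kernel⟩

def k6_A00pm_012_s1 : ∃ t, chk3 f_A00pm_012_s1 t 8 14 1 = true :=
  ⟨(b (l 3) (a (l 3) (a (l 3) (b (l 3) (a (b (l 3) (b (l 3) (a (l 3) (c (a (l 534033167) (l 534045311)) (l 533854335))))) (a (a (b (l 3) (c (b (l 534071679) (l 534055551)) (l 533879423))) (b (a (l 3) (b (l 3) (l 534014479))) (c (b (l 534080127) (l 534063743)) (l 533889151)))) (b (b (c (a (l 3) (l 534166911)) (l 533965951)) (c (a (l 534105471) (l 534148735)) (l 533947007))) (a (c (b (l 534088831) (l 534072447)) (l 533899135)) (b (l 534312463) (l 534294911)))))))))), by decide +kernel⟩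

def k7_A00pm_012_s1 : ∃ t, chk3 f_A00pm_012_s1 t 16 30 1 = true :=
  ⟨(b (l 3) (a (l 3) (a (l 3) (b (l 3) (a (l 3) (b (l 3) (a (b (l 3) (b (l 3) (l 14))) (a (b (c (b (l 3) (l 533628543)) (l 533729919)) (c (l 533894015) (l 533457791))) (b (c (b (l 533647887) (l 533646463)) (b (l 533478783) (l 533476991))) (c (l 533643279) (l 533473407))))))))))), by decide +kernel⟩

def k8_A00pm_012_s1 : ∃ t, chk3 f_A00pm_012_s1 t 17 60 1 = true :=
  ⟨(a (b (l 3) (b (a (l 3) (a (l 3) (c (a (c (l 534095631) (l 533876095)) (c (l 533982591) (l 533896831))) (a (l 533733247) (l 533753215))))) (a (l 3) (a (a (l 3) (c (a (l 533878143) (l 533890687)) (l 533697151))) (a (c (c (l 533948799) (l 533862783)) (l 533718911)) (c (l 534195839) (l 533738623))))))) (a (a (c (b (b (a (l 3) (l 534003727)) (a (l 534241295) (l 533988991))) (b (a (l 533959039) (l 533974911)) (a (l 533945471) (l 533961087)))) (b (b (a (l 3) (l 533818495)) (a (l 533786495) (l 533802367))) (b (a (l 533770879) (l 533786751)) (a (l 533756031) (l 533771647)))))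 (c (b (b (a (l 534017919) (l 534029695)) (a (l 534002815) (l 534014847))) (b (a (l 533988479) (l 534000255)) (a (l 533974655) (l 533986175)))) (b (b (l 533837439) (l 533820799)) (b (l 534073215) (l 534057855))))) (a (c (b (b (a (l 534039935) (l 534048127)) (a (l 534024831) (l 534033023))) (b (a (l 534010239) (l 534018431)) (l 534266383))) (b (b (l 533859455) (l 533842815)) (b (l 533826687) (l 533811071)))) (c (b (a (b (l 534056831) (l 534041471)) (l 534354959)) (a (b (l 534026879) (l 534012799)) (l 534323839))) (b (a (l 533864575) (l 533900927)) (a (l 533831807) (l 533866879))))))), by decide +kernel⟩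

def k9_A00pm_012_s1 : ∃ t, chk3 f_A00pm_012_s1 t 68 61 1 = true :=
  ⟨(b (a (a (l 3) (a (l 3) (a (l 3) (b (l 3) (b (l 3) (l 533664383)))))) (a (b (l 3) (c (b (a (l 3) (l 533785983)) (a (l 533763711) (l 533781119))) (b (l 533595519) (l 533589887)))) (b (b (l 3) (c (l 534082831) (l 533631103))) (c (b (l 534077823) (l 533804415)) (b (l 533625215) (l 533619327)))))) (a (b (b (a (l 3) (c (a (l 533720703) (l 533740671)) (l 533820287))) (a (c (a (l 533673343) (l 533695871)) (a (l 533501823) (l 533521023))) (c (a (l 533716863) (l 533736575)) (l 533815423)))) (a (b (a (c (c (l 533708559) (l 533629711)) (l 533497615)) (c (l 533692287) (l 533516671))) (a (c (l 533666943) (l 533493631)) (c (l 533688847) (l 533512575)))) (b (c (a (l 533713023) (l 533732479)) (a (l 533534847) (l 533551743))) (a (c (l 533709439) (l 533530239)) (l 533910031))))) (b (a (c (b (l 534035215) (l 534030719)) (b (l 533584511) (l 533579391))) (c (b (l 533799551) (l 533794687)) (b (l 533613695) (l 533608063)))) (a (b (c (l 534026367) (l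 533574271)) (c (l 533753727) (l 533569151))) (b (c (l 533790079) (l 533602687)) (c (l 533785471) (l 533597311))))))), by decide +kernel⟩

def k10_A00pm_012_s1 : ∃ t, chk3 f_A00pm_012_s1 t 69 61 1 = true :=
  ⟨(b (a (a (b (c (b (l 533849727) (l 533844095)) (l 533927695)) (c (b (l 533838719) (l 533833343)) (b (l 533651839) (l 533645695)))) (b (c (b (l 533876095) (l 533870207)) (l 533683583)) (c (b (l 533864575) (l 533858943)) (l 533670527)))) (b (a (c (b (l 533899135) (l 533893247)) (l 533705087)) (c (l 533914751) (l 533724287))) (a (c (l 534150783) (l 533691519)) (c (l 533902463) (l 533710463))))) (a (b (b (a (c (l 533828223) (l 533639807)) (l 534030351)) (a (c (l 533823103) (l 533633919)) (l 534024719))) (b (a (c (l 533818239) (l 533628031)) (l 533750799)) (a (c (l 533813375) (l 533622399)) (l 534013823)))) (b (a (c (l 534139519) (l 533678719)) (c (l 533890687) (l 533697407))) (a (c (l 534128255) (l 533934463)) (b (l 533790847) (l 533784959)))))), by decide +kernel⟩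

def k11_A00pm_012_s1 : ∃ t, chk3 f_A00pm_012_s1 t 35 61 1 = true :=
  ⟨(a (b (a (b (a (c (l 533932415) (l 533741439)) (c (l 533947775) (l 533756799))) (a (c (l 533919871) (l 533727615)) (l 534111247))) (a (b (l 533869839) (l 534124671)) (b (l 533881727) (l 533867903)))) (a (b (a (c (l 533907839) (l 533714047)) (l 534232447)) (a (b (l 533807487) (l 533801343)) (l 534085647))) (a (b (l 533843071) (l 533830271)) (b (l 533854591) (b (l 16759912) (l 16758632)))))) (b (a (b (a (l 533891967) (l 533900671)) (a (l 533878143) (l 533886847))) (a (b (l 533909631) (l 533895807)) (b (l 533945471) (l 533930879)))) (b (a (a (l 533864831) (l 533873535)) (b (l 534171151) (a (l 16756856) (c (l 16756288) (l 16754864))))) (a (b (a (l 16758472) (l 16757008)) (a (c (l 16757800) (l 16756512)) (l 16755744))) (a (b (c (l 16756264) (l 16754880)) (l 16754240)) (l 16753616)))))), by decide +kernel⟩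

def k12_A00pm_012_s1 : ∃ t, chk3 f_A00pm_012_s1 t 16 31 1 = true :=
  ⟨(b (a (l 14) (b (a (l 14) (a (l 14) (b (a (l 14) (a (l 14) (b (c (l 533640831) (l 533469823)) (l 14)))) (l 14)))) (l 14))) (l 14)), by decide +kernel⟩

def k13_A00pm_012_s1 : ∃ t, chk3 f_A00pm_012_s1 t 34 62 1 = true :=
  ⟨(a (a (b (a (b (b (a (c (l 533663871) (l 533489791)) (c (l 533685631) (l 533508479))) (a (l 14) (c (l 533682303) (l 533504383)))) (l 14)) (b (b (a (l 533888015) (l 533637391)) (a (l 533884175) (l 533633407))) (b (c (l 533975311) (l 533792527)) (l 14)))) (l 14)) (b (c (b (a (b (l 534018175) (l 533745535)) (b (l 533780863) (l 533776511))) (a (b (l 533741695) (l 533737855)) (b (l 533772415) (l 533768319)))) (b (a (b (l 533564287) (l 533559423)) (b (l 533592191) (l 533587071))) (a (b (l 533554815) (l 533550207)) (b (l 533581951) (l 533577087))))) (b (b (a (l 14) (a (l 14) (l 533679999))) (l 14)) (l 14)))) (b (a (c (a (b (b (l 533808511) (l 533803903)) (b (l 533799295) (l 533794943))) (b (b (l 533832831) (l 533827967))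 (b (l 16763768) (a (l 16762808) (l 16762088))))) (a (b (b (l 533617023) (l 533611647)) (b (l 533606271) (l 533601151))) (b (b (l 533639295) (l 533633663)) (b (l 16765528) (b (l 16761856) (l 16761136)))))) (a (b (c (l 534117759) (l 533922319)) (b (l 533749887) (a (b (l 16761256) (l 16760568)) (b (l 16760520) (l 16759824))))) (b (b (l 533779071) (l 533773695)) (b (b (l 16760800) (c (l 16760632) (l 16759544))) (c (l 16759648) (l 16758480)))))) (b (a (b (a (a (b (l 16762776) (l 16762072)) (b (l 16762048) (l 16761360))) (b (c (l 16761456) (l 16760432)) (l 16760240))) (c (a (l 16761128) (l 16759696)) (a (l 16760104) (l 16758560)))) (c (b (a (l 16759672) (l 16758240)) (a (l 16758264) (l 16756832))) (b (a (l 16758520) (l 16756984)) (a (l 16757024) (l 16755480))))) (a (a (l 14) (a (l 14) (b (l 16757312) (l 14)))) (c (b (l 16758752) (l 16754688)) (b (a (l 16755496) (l 16753960)) (l 16755808))))))), by decide +kernel⟩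

def k14_A00pm_012_s1 : ∃ t, chk3 f_A00pm_012_s1 t 35 62 1 = true :=
  ⟨(b (a (b (b (a (a (l 533795711) (l 533810047)) (a (c (l 16759328) (l 16758144)) (c (l 16757960) (l 16756672)))) (a (a (c (l 16760856) (l 16759784)) (c (l 16759464) (b (l 16758624) (l 16757952)))) (a (c (l 16758072) (l 16756792)) (l 16755944)))) (a (b (a (b (c (l 16759896) (l 16758752)) (l 16758656)) (l 16757520)) (c (l 16757480) (l 16756160))) (c (b (l 16755968) (l 16754600)) (b (l 16754552) (l 16753080))))) (b (a (c (b (l 16755784) (l 16754440)) (b (l 16754360) (l 16752920))) (c (a (l 16752944) (l 16751696)) (a (l 16751336) (l 16749960)))) (a (c (b (l 16753080) (l 16751704)) (b (l 16751464) (l 16749992))) (c (b (l 16750280) (l 16748904)) (a (l 16748424) (l 16747040)))))) (a (b (a (c (b (l 16756088) (l 16754680)) (b (l 16754672) (l 16753168))) (c (b (l 16753208) (l 16751792)) (b (l 16751592) (l 16750088)))) (a (c (b (l 16753256) (l 16751808)) (b (l 16751648) (l 16750104))) (c (b (l 16750368) (l 16748928)) (b (l 16748560) (l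 16747016))))) (b (a (c (b (l 16750312) (l 16748896)) (b (l 16748504) (l 16747000))) (c (l 16749424) (b (l 16745504) (l 16743992)))) (a (c (l 16749376) (b (l 16745472) (l 16743928))) (c (l 16743944) (l 16744312)))))), by decide +kernel⟩

def k15_A00pm_012_s1 : ∃ t, chk3 f_A00pm_012_s1 t 17 63 1 = true :=
  ⟨(b (a (a (l 14) (a (l 14) (a (l 14) (b (b (l 16751704) (l 14)) (l 14))))) (a (b (a (c (b (l 16750352) (l 16748872)) (b (l 16748544) (l 16746960))) (c (b (l 16747464) (l 16745984)) (b (l 16745456) (l 16743872)))) (a (a (l 14) (b (l 16745648) (l 14))) (c (b (l 16744488) (l 16742968)) (b (l 16742272) (l 16740648))))) (b (a (c (l 16743824) (l 16744200)) (c (l 16741016) (l 16738560))) (a (c (l 16740832) (l 16738376)) (c (l 16738016) (l 16735352)))))) (a (l 14) (b (a (a (l 14) (b (l 16740248) (l 14))) (a (c (l 16737760) (l 16735088)) (c (l 16734944) (l 16732064)))) (a (l 14) (b (c (l 16734000) (l 16731064)) (c (l 16732408) (l 16734608))))))), by decide +kernel⟩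

def k16_A00pm_012_s1 : ∃ t, chk3 f_A00pm_012_s1 t 36 14 1 = true :=
  ⟨(b (a (l 3) (b (l 3) (a (b (l 3) (c (l 534578559) (l 534372991))) (b (l 534689151) (l 534893183))))) (b (b (a (a (l 3) (a (l 534287887) (l 534322815))) (a (c (l 534520959) (l 534316159)) (l 534832399))) (a (a (c (a (b (l 3) (a (a (l 3) (l 534234895)) (l 534251135))) (l 534291071)) (a (b (l 3) (l 534054927)) (l 534103167))) (c (a (l 534329215) (l 534365055)) (l 534153599))) (a (c (l 534467711) (l 534262911)) (c (l 534613119) (l 534392447))))) (a (c (a (b (b (a (a (l 534209807) (a (l 534224911) (l 534235407))) (c (l 534301967) (l 534216319))) (a (c (l 534245391) (l 534160143)) (l 534513535))) (a (a (l 534159487) (l 534183807)) (b (l 534227071) (l 534209151)))) (b (b (a (l 534298239) (l 534333311)) (a (l 534282879) (l 534316927))) (a (l 534254863) (l 534290303)))) (b (a (b (a (l 534033423) (l 534071679)) (l 534034191)) (b (l 534121599) (l 534103679))) (a (a (l 533982335) (l 534022783)) (a (l 534058623) (l 534091135))))) (b (a (c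 (b (l 534433663) (l 534414719)) (l 534483583)) (b (l 534469647) (l 534715519))) (a (b (a (l 534264191) (l 534333055)) (l 534547983)) (b (l 534426639) (l 534675727))))))), by decide +kernel⟩

def k17_A00pm_012_s1 : ∃ t, chk3 f_A00pm_012_s1 t 37 14 1 = true :=
  ⟨(b (a (b (b (l 3) (a (l 534888319) (l 535001471))) (a (b (l 534817407) (l 534750591)) (b (l 534929279) (l 534860671)))) (b (a (b (l 535176831) (l 535100287)) (b (a (l 535243535) (l 535283471)) (l 535186959))) (a (b (l 535027327) (l 534957439)) (b (l 535113487) (l 535042943))))) (b (a (a (b (l 534955647) (l 534896143)) (b (l 534795391) (l 535002239))) (a (b (l 534890879) (l 534827903)) (b (l 534975759) (l 534911759)))) (b (a (a (c (l 534686079) (l 534451071)) (b (l 534691967) (l 534665855))) (a (c (l 534892415) (l 534636927)) (a (l 534833279) (l 534872703)))) (a (a (c (l 534910847) (l 534403711)) (c (l 534748031) (l 534498831))) (a (c (l 534842495) (b (l 16759192) (l 16757416))) (c (b (l 16759976) (l 16758424)) (b (l 16757608) (l 16755856)))))))),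 by decide +kernel⟩

def k18_A00pm_012_s1 : ∃ t, chk3 f_A00pm_012_s1 t 19 28 1 = true :=
  ⟨(a (a (b (a (b (b (l 535357567) (l 535319423)) (l 535262223)) (b (l 535402879) (l 535328527))) (a (b (l 535189007) (l 535118863)) (b (l 535256447) (l 535186703)))) (b (b (a (l 535461247) (l 535513215)) (a (l 535387775) (l 535441535))) (a (b (l 535316863) (l 535248255)) (b (l 535371903) (l 535304719))))) (a (b (a (b (l 535560575) (l 535490687)) (b (l 535604607) (l 535537423))) (a (b (l 535423247) (b (l 16763808) (l 16762632))) (b (l 535471887) (c (l 16763640) (l 16760704))))) (a (b (b (l 535646479) (l 535581967)) (b (c (l 16764936) (l 16762024)) (b (l 16761864) (l 16760696)))) (b (c (b (l 16767832) (l 16766128)) (b (l 16765232) (l 16763208))) (b (c (l 16764264) (l 16761008)) (b (l 16761040) (c (l 16761536) (a (l 16758216) (l 16757608))))))))), by decide +kernel⟩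

def k19_A00pm_012_s1 : ∃ t, chk3 f_A00pm_012_s1 t 19 58 1 = true :=
  ⟨(a (a (a (b (l 535051535) (l 534987279)) (b (l 535119887) (c (l 535187583) (l 534914431)))) (a (b (l 535182095) (c (l 535252607) (l 534974847))) (b (l 535239695) (c (l 535313279) (l 535031167))))) (a (c (b (a (l 16762208) (l 16761368)) (a (b (l 16760352) (a (l 16759216) (l 16758616))) (b (a (l 16759632) (l 16759016)) (b (l 16757832) (l 16756472))))) (b (a (l 535147279) (l 535197711)) (a (b (l 16757104) (a (l 16755864) (b (l 16755640) (l 16754672)))) (b (a (l 16756144) (b (l 16755920) (l 16754872))) (a (l 16754136) (l 16752824)))))) (b (c (a (b (l 16761168) (a (l 16760048) (l 16759336))) (b (a (l 16760432) (l 16759488)) (l 16757432))) (a (b (l 16757624) (a (b (l 16756896) (l 16756048)) (b (l 16756152) (l 16754928)))) (b (a (b (l 16757160) (l 16756224)) (l 16755584)) (l 16753544)))) (a (c (b (l 16757368) (l 16754648)) (b (l 16753576) (l 16750808))) (c (b (l 16754728) (l 16751992)) (b (l 16750800) (l 16748016))))))), by decide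 +kernel⟩

def k20_A00pm_012_s1 : ∃ t, chk3 f_A00pm_012_s1 t 19 59 1 = true :=
  ⟨(a (a (a (a (b (l 534910079) (b (l 16757832) (c (l 16757512) (l 16754696)))) (b (l 534945663) (b (l 16757184) (b (l 16755936) (c (l 16756440) (l 16753408)))))) (a (b (l 534979711) (b (c (l 16757952) (l 16755008)) (b (c (l 16756688) (l 16753584)) (l 16753920)))) (b (l 535012111) (b (b (l 16756320) (c (l 16756920) (l 16753760))) (l 16753480))))) (b (a (a (b (l 16758424) (l 16756888)) (b (l 16757840) (c (l 16757752) (b (l 16755048) (l 16754088))))) (a (b (l 16757248) (b (c (l 16757600) (l 16754240)) (l 16754728))) (b (c (l 16758192) (b (l 16755344) (l 16754392))) (l 16754232)))) (b (b (a (a (c (l 16757152) (l 16753928)) (l 16754552)) (l 16752792)) (a (l 16753776) (l 16751432))) (c (a (l 16753408) (l 16751136)) (a (l 16750000) (l 16747520)))))) (b (a (a (a (b (c (l 16757424) (b (l 16754536) (l 16753240))) (l 16753032)) (c (l 16754928) (l 16751296))) (c (b (l 16754448) (l 16751736)) (b (l 16750720) (l 16747936)))) (c (b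 (a (l 16751912) (l 16749216)) (a (l 16749160) (l 16746432))) (b (a (l 16748024) (l 16745192)) (a (l 16745208) (l 16742344))))) (a (b (c (a (l 16751472) (l 16749000)) (a (l 16747760) (l 16745120))) (c (a (l 16748744) (l 16746232)) (a (l 16744944) (l 16742272)))) (b (c (a (l 16746384) (l 16743616)) (a (l 16742360) (l 16739472))) (c (a (l 16743584) (l 16740792)) (a (l 16739480) (l 16736568))))))), by decide +kernel⟩

def k21_A00pm_012_s1 : ∃ t, chk3 f_A00pm_012_s1 t 36 30 1 = true :=
  ⟨(b (c (a (a (b (a (l 534403855) (l 534448255)) (b (l 534133775) (l 534117391))) (b (b (l 534247183) (l 534229631)) (a (l 534184063) (l 534220159)))) (a (b (b (l 534363263) (l 534344831)) (b (l 534326399) (l 16757984))) (b (l 534754319) (b (l 16758504) (a (l 16756896) (b (l 16756696) (l 16755656))))))) (a (a (b (a (l 533944447) (l 533984127)) (a (l 533908607) (l 533947007))) (b (a (l 534019711) (l 534052735)) (b (l 534008959) (l 533990271)))) (a (b (l 534405647) (b (l 16761160) (l 16756344))) (a (b (l 534229631) (l 534187279))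 (b (l 534284927) (b (l 16756256) (b (l 16754656) (l 16753528)))))))) (a (b (b (a (a (l 533988479) (l 534027903)) (l 534079247)) (a (a (l 533972863) (a (l 16756624) (l 16756032))) (b (a (l 16755776) (l 16754608)) (a (l 16754576) (l 16753376))))) (b (a (b (a (l 16755664) (l 16754520)) (c (l 16754600) (l 16752968))) (c (l 16752864) (l 16751016))) (a (c (l 16752600) (l 16750840)) (c (l 16750216) (l 16748192))))) (b (b (a (b (c (l 16756416) (l 16754640)) (a (l 16754824) (c (l 16754952) (l 16752992)))) (b (a (c (l 16755320) (l 16753272)) (l 16753440)) (c (l 16753640) (l 16751424)))) (a (a (b (l 16753656) (l 16752304)) (l 16752016)) (c (l 16751672) (l 16749336)))) (b (a (c (l 16750832) (l 16748672)) (c (l 16749000) (l 16746496))) (a (c (l 16748144) (l 16745808)) (c (l 16746264) (l 16743592))))))), by decide +kernel⟩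

def k22_A00pm_012_s1 : ∃ t, chk3 f_A00pm_012_s1 t 37 60 1 = true :=
  ⟨(a (b (a (b (l 534498575) (c (l 16758952) (l 534351487))) (b (c (l 16759320) (l 534465919)) (c (l 534698511) (b (l 16755784) (l 16754808))))) (b (a (a (l 534432127) (a (l 534471295) (b (l 16756000) (l 16752376)))) (b (c (a (l 16756584) (l 16755880)) (a (l 16754208) (b (l 16753624) (l 16753072)))) (c (a (l 16755584) (l 16754688)) (a (b (l 16753416) (l 16752824)) (l 16752064))))) (a (b (c (a (l 16755976) (l 16755264)) (a (l 16753768) (b (l 16753176) (l 16752536)))) (a (c (l 16754904) (l 16752592)) (l 16752776))) (c (b (l 16753864) (l 16752560)) (b (l 16751240) (l 16749864)))))) (b (b (c (a (l 16758024) (b (l 16757176) (a (l 16756648) (l 16755928)))) (a (l 534549263) (b (a (l 16754880) (l 16754080)) (a (l 16753904) (l 16753024))))) (a (b (a (l 16755864) (c (l 16756400) (l 16753720))) (c (a (l 16756144) (l 16755352)) (a (b (l 16753816) (l 16753288)) (l 16752584)))) (a (b (c (l 16755648) (l 16752808)) (l 16752936)) (b (l 16753200)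 (l 16751864))))) (b (a (c (a (l 16754392) (l 16753392)) (a (b (l 16752336) (l 16750960)) (l 16750520))) (c (l 16751872) (l 16748808))) (a (c (l 16751264) (l 16748312)) (c (l 16749216) (l 16746000)))))), by decide +kernel⟩

def k23_A00pm_012_s1 : ∃ t, chk3 f_A00pm_012_s1 t 37 61 1 = true :=
  ⟨(b (a (b (a (c (l 16752472) (b (l 16750664) (l 16749272))) (c (l 16750576) (l 16747760))) (a (c (l 16749816) (l 16747152)) (c (l 16747872) (l 16744912)))) (b (a (c (l 16748584) (l 16745488)) (c (l 16746504) (l 16743144))) (a (c (l 16745848) (l 16742600)) (c (l 16743736) (l 16740224))))) (a (b (a (c (l 16747096) (l 16744272)) (c (l 16745120) (l 16741992))) (a (c (l 16744320) (l 16741336)) (c (l 16742296) (l 16739016)))) (b (a (c (l 16743056) (l 16739656)) (c (l 16740912) (l 16737248))) (c (a (l 16740200) (l 16738024)) (a (b (l 16737400) (l 16735880)) (b (l 16734976) (l 16733440))))))), by decide +kernel⟩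

def k24_A00pm_012_s1 : ∃ t, chk3 f_A00pm_012_s1 t 38 30 1 = true :=
  ⟨(b (b (a (b (a (a (b (c (l 16756192) (l 16753216)) (l 16753448)) (a (l 16753304) (l 16752752))) (c (l 16752944) (l 16749648))) (a (c (l 16752432) (l 16749248)) (c (l 16750280) (l 16746856)))) (b (c (a (l 16750736) (l 16748424)) (a (l 16747216) (l 16744704))) (c (a (l 16748032) (l 16745672)) (a (l 16744392) (l 16741848))))) (a (b (a (c (l 16749768) (l 16746456)) (c (l 16747576) (l 16744032))) (a (c (l 16747072) (l 16743616)) (c (l 16744832) (l 16741152)))) (b (c (a (l 16745288) (l 16742896)) (a (l 16741528) (l 16738952))) (c (a (l 16742504) (l 16740080)) (a (l 16738624) (l 16736008)))))) (b (a (b (c (a (l 16744328) (l 16742056)) (a (l 16740728) (l 16738240))) (c (a (l 16741528) (l 16739232)) (a (l 16737784) (l 16735264)))) (b (c (a (l 16739688) (l 16737232)) (a (l 16735672) (l 16733032))) (c (a (l 16736832) (l 16734344)) (a (l 16732672) (l 16730008))))) (a (b (c (a (l 16738680) (l 16736352)) (a (l 16734784) (l 16732240))) (c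 (a (l 16735768) (l 16733424)) (a (l 16734344) (l 16729160)))) (b (c (a (l 16733936) (l 16731424)) (a (l 16729632) (l 16726944))) (c (a (l 16730992) (l 16728456)) (a (l 16726528) (l 16723824))))))), by decide +kernel⟩

def k25_A00pm_012_s1 : ∃ t, chk3 f_A00pm_012_s1 t 39 30 1 = true :=
  ⟨(b (a (b (b (c (a (l 16745992) (l 16743440)) (a (l 16742096) (l 16739384))) (c (a (l 16743208) (l 16740624)) (a (l 16739208) (l 16736472)))) (b (c (a (l 16740392) (l 16737784)) (a (l 16736280) (l 16733520))) (c (a (l 16737552) (l 16734912)) (a (l 16733312) (l 16730528))))) (b (c (b (a (l 16740768) (l 16737944)) (a (l 16737920) (l 16735072))) (b (a (l 16736568) (l 16733632)) (a (l 16733632) (l 16730672)))) (c (b (a (l 16735048) (l 16732184)) (a (l 16732152) (l 16729272))) (b (a (l 16730656) (l 16727680)) (a (l 16727648) (l 16724656)))))) (a (b (b (c (a (l 16734672) (l 16732008)) (a (l 16730312) (l 16727504))) (c (a (l 16731760) (l 16729072)) (a (l 16727264) (l 16724440)))) (b (c (a (l 16728816) (l 16726104)) (a (l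 16724176) (l 16721336))) (c (a (l 16725832) (l 16723104)) (a (l 16721048) (l 16718184))))) (b (c (b (a (l 16729232) (l 16726328)) (a (l 16726280) (l 16723360))) (b (a (l 16724608) (l 16721600)) (a (l 16721528) (l 16718504)))) (c (b (a (l 16723296) (l 16720360)) (a (l 16720272) (l 16717336))) (b (a (l 16718408) (l 16715376)) (a (l 16715248) (l 16712208))))))), by decide +kernel⟩

def k26_A00pm_012_s1 : ∃ t, chk3 f_A00pm_012_s1 t 18 62 1 = true :=
  ⟨(a (b (a (b (a (c (l 16749912) (l 16747968)) (c (l 16747504) (l 16745304))) (a (c (l 16747160) (l 16745032)) (c (l 16744728) (l 16742344)))) (b (a (c (l 16745392) (l 16742880)) (c (l 16743472) (l 16740624))) (a (c (l 16742584) (l 16739888)) (c (l 16740616) (l 16737592))))) (a (b (c (a (l 16744344) (l 16741888)) (a (l 16742024) (l 16739312))) (c (a (l 16741464) (l 16738984)) (a (l 16738952) (l 16736216)))) (b (a (c (l 16739704) (l 16736832)) (c (l 16737696) (l 16734496))) (a (c (l 16736760) (l 16733696)) (c (l 16734704) (l 16731320)))))) (b (a (b (a (c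 (l 16741480) (l 16738328)) (c (l 16739424) (l 16735976))) (a (c (l 16738584) (l 16735256)) (c (l 16736488) (l 16732872)))) (b (c (a (l 16737296) (l 16735088)) (a (b (l 16734344) (l 16732792)) (l 16731112))) (c (a (l 16734320) (l 16732088)) (a (l 16730432) (l 16727952))))) (a (b (c (a (l 16735624) (l 16733488)) (a (l 16732120) (l 16729696))) (c (a (l 16732600) (l 16730432)) (a (l 16728912) (l 16726464)))) (b (c (a (l 16731296) (l 16729032)) (a (l 16727240) (l 16724728))) (c (a (l 16728200) (l 16725912)) (a (l 16723976) (l 16721440))))))), by decide +kernel⟩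

def k27_A00pm_012_s1 : ∃ t, chk3 f_A00pm_012_s1 t 18 63 1 = true :=
  ⟨(b (a (a (b (c (a (l 16738512) (l 16736008)) (a (l 16735800) (l 16733048))) (c (a (l 16735488) (l 16732968)) (a (l 16732568) (l 16729800)))) (b (a (c (l 16733760) (l 16730496)) (c (l 16731656) (l 16728088))) (c (a (l 16730680) (l 16728544)) (a (l 16727224) (l 16724776))))) (a (b (c (a (l 16729512) (l 16727312)) (a (l 16725640) (l 16723160))) (c (a (l 16726360) (l 16724120)) (a (l 16722304) (l 16719792)))) (b (c (a (l 16725048) (l 16722736)) (a (l 16720648) (l 16718088))) (c (a (l 16721840) (l 16719496)) (a (l 16717248) (l 16714672)))))) (b (b (a (a (c (l 16731904) (l 16728712)) (c (l 16727248) (l 16723488))) (a (c (l 16722824) (l 16718480)) (c (l 16718208) (l 16713360)))) (a (a (c (l 16730336) (l 16727032)) (c (l 16725648) (l 16721784))) (a (c (l 16721184) (l 16716752)) (c (l 16716544) (l 16711608))))) (a (a (c (a (l 16729232) (l 16726680)) (b (l 16725344) (l 16723632))) (c (a (l 16724328) (c (l 16723104) (l 16721104))) (b (l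 16720064) (l 16718328)))) (a (c (a (c (l 16720912) (l 16718776)) (c (l 16718680) (l 16716416))) (b (l 16715008) (l 16713240))) (c (b (c (l 16716064) (l 16713648)) (c (l 16714400) (l 16711928))) (b (l 16709832) (l 16708048))))))), by decide +kernel⟩

def k28_A00pm_012_s1 : ∃ t, chk3 f_A00pm_012_s1 t 19 62 1 = true :=
  ⟨(a (b (a (b (c (a (l 16732800) (l 16730440)) (a (l 16728600) (l 16726016))) (c (a (l 16729776) (l 16727392)) (a (l 16725416) (l 16722816)))) (b (c (a (l 16727984) (l 16725440)) (a (l 16723376) (l 16720656))) (c (a (l 16724928) (l 16722376)) (a (l 16720160) (l 16717432))))) (a (b (c (a (l 16726696) (l 16724296)) (a (l 16722168) (l 16719552))) (c (a (l 16723560) (l 16721136)) (a (l 16718856) (l 16716232)))) (b (c (a (l 16721808) (l 16719248)) (a (l 16716880) (l 16714144))) (c (a (l 16718640) (l 16716064)) (a (l 16713544) (l 16710800)))))) (b (a (b (c (a (l 16722800) (l 16720064)) (a (l 16717864) (l 16715000))) (c (a (l 16719728) (l 16716984)) (a (l 16714632) (l 16711760)))) (c (b (a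 (l 16717224) (l 16714272)) (a (l 16714136) (l 16711176))) (b (a (l 16712048) (l 16709008)) (a (l 16708800) (l 16705760))))) (a (b (c (a (l 16716592) (l 16713848)) (a (l 16711344) (l 16708464))) (c (a (l 16713408) (l 16710664)) (a (l 16707992) (l 16705120)))) (b (c (a (l 16711000) (l 16708048)) (a (l 16705512) (l 16702464))) (c (a (l 16707824) (l 16704872)) (a (l 16702168) (l 16699128))))))), by decide +kernel⟩

def k29_A00pm_012_s1 : ∃ t, chk3 f_A00pm_012_s1 t 19 63 1 = true :=
  ⟨(b (a (a (b (c (a (l 16720360) (l 16717920)) (a (l 16715488) (l 16712840))) (c (a (l 16717104) (l 16714640)) (a (l 16712056) (l 16709392)))) (b (c (a (l 16715408) (l 16712824)) (a (l 16710144) (l 16707392))) (c (a (l 16712120) (l 16709528)) (a (l 16706680) (l 16703928))))) (a (b (c (a (l 16710168) (l 16707424)) (a (l 16704584) (l 16701704))) (c (a (l 16706864) (l 16704128)) (a (l 16701112) (l 16698240)))) (b (c (l 16708352) (l 16707728)) (c (l 16699824) (l 16693784))))) (a (b (a (c (a (l 16713776) (l 16711304)) (a (l 16708552)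 (l 16705880))) (c (l 16712712) (a (l 16703160) (l 16700392)))) (a (c (a (c (l 16711688) (l 16709080)) (l 16707904)) (b (l 16704536) (l 16702736))) (c (a (l 16705360) (l 16702760)) (b (l 16699088) (l 16697272))))) (a (b (c (l 16702136) (l 16696136)) (c (l 16698720) (l 16692544))) (b (c (l 16696488) (l 16690264)) (c (l 16693088) (l 16686688)))))), by decide +kernel⟩

def k30_A00pm_012_s1 : ∃ t, chk3 f_A00pm_012_s1 t 10 4 1 = true :=
  ⟨(a (a (l 3) (l 2)) (l 2)), by decide +kernel⟩

def k31_A00pm_012_s1 : ∃ t, chk3 f_A00pm_012_s1 t 40 10 1 = true :=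
  ⟨(l 3), by decide +kernel⟩

def k32_A00pm_012_s1 : ∃ t, chk3 f_A00pm_012_s1 t 41 20 1 = true :=
  ⟨(a (l 3) (b (l 2) (a (a (l 3) (a (b (l 2) (a (l 3) (a (b (l 3) (a (b (l 3) (b (l 3) (l 537909119))) (c (l 538098559) (l 537557375)))) (c (b (a (l 3) (b (l 2) (l 537923199))) (l 538292095)) (c (l 537564799) (b (c (l 537303423) (b (l 2) (l 537193599))) (l 537343103))))))) (b (l 2) (a (c (a (c (b (l 538214015) (l 538052479)) (l 537725311)) (c (l 537878655) (l 537601407))) (a (b (b (l 2) (l 537282943)) (l 537369983)) (c (l 537323647) (l 537045375)))) (a (a (b (b (l 2) (a (l 537347711) (l 537322879))) (l 537431935)) (b (b (l 2) (c (l 537587839) (l 537021055))) (l 537393279))) (b (b (l 2) (c (l 537595263) (l 537021311))) (a (l 537376895) (l 537376127)))))))) (b (l 2) (a (b (a (a (a (b (l 2) (l 537359999)) (l 2)) (l 2)) (l 2)) (a (a (a (c (l 537683071) (l 537108863)) (l 537450111)) (a (l 537527167) (l 537622399))) (a (a (c (l 538046079) (l 537422719)) (c (l 538181247) (l 537542783))) (a (a (l 537969279)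 (a (l 538028159) (l 538068351))) (b (l 7616858231) (l 16778320)))))) (a (b (l 2) (b (a (c (l 16778920) (l 16778280)) (l 2)) (c (l 16779184) (a (l 16778288) (l 16778616))))) (b (l 2) (b (l 2) (c (l 16780056) (l 16779104)))))))))), by decide +kernel⟩

def k33_A00pm_012_s1 : ∃ t, chk3 f_A00pm_012_s1 t 82 21 1 = true :=
  ⟨(a (l 3) (a (l 3) (b (l 3) (b (a (l 3) (a (l 3) (b (l 3) (a (l 3) (b (l 3) (a (b (l 3) (l 538677887)) (c (b (b (l 3) (b (a (l 3) (c (a (l 3) (l 539080063)) (l 538830095))) (a (l 538949759) (a (l 538954111) (c (l 539080063) (l 538829183)))))) (a (l 538940799) (a (l 538945151) (a (l 538947199) (b (l 538951183) (l 538944639)))))) (a (b (b (l 3) (b (l 3) (l 538429311))) (l 538421375)) (b (b (l 3) (a (b (l 3) (l 538432895)) (c (l 538567951) (b (l 538297983) (l 538298127))))) (a (l 538424959) (a (l 538426751) (b (l 538161679) (l 538424191))))))))))))) (b (a (l 3) (a (c (l 538844799) (l 538338175)) (c (a (l 538879103) (a (l 538896511) (a (l 538905215) (l 538911103)))) (a (l 538367359) (a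 (l 538381951) (a (l 538389375) (l 538394239))))))) (a (a (l 3) (c (l 538741631) (l 538246783))) (a (c (l 538787199) (l 538285695)) (c (c (l 538954111) (l 538709375)) (c (l 538455167) (l 538191743)))))))))), by decide +kernel⟩

def k34_A00pm_012_s1 : ∃ t, chk3 f_A00pm_012_s1 t 166 42 1 = true :=
  ⟨(a (a (b (l 3) (a (l 3) (a (l 3) (b (l 3) (b (l 3) (c (l 538786431) (l 538265215))))))) (b (a (l 3) (b (l 3) (c (c (a (a (l 3) (l 538666623)) (l 538618751)) (l 538391935)) (c (l 538128511) (a (a (l 3) (l 537876607)) (l 537828991)))))) (a (c (c (b (a (l 3) (l 538778239)) (l 538835327)) (l 538565503)) (c (l 538304639) (b (a (l 3) (l 537993343)) (l 538054783)))) (a (b (c (l 538595967) (l 538073215)) (l 538376831)) (c (l 538558335) (l 538037631)))))) (a (a (b (c (a (b (a (l 3) (l 538613887)) (l 538422911)) (c (l 538449023) (l 538187647))) (a (b (b (l 3) (l 537848959)) (l 537895807)) (c (l 537922687) (l 537654143)))) (c (l 538465407) (l 537944959))) (a (b (c (l 538238335) (l 537706879)) (l 538105983)) (b (c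 (l 538151295) (l 537618303)) (l 538031487)))) (a (a (b (a (l 537815935) (l 537766015)) (l 537950847)) (b (l 537954943) (l 537863295))) (a (b (c (l 537852287) (l 537310079)) (l 537772671)) (b (c (l 537798015) (l 537249407)) (l 537710207)))))), by decide +kernel⟩

def k35_A00pm_012_s1 : ∃ t, chk3 f_A00pm_012_s1 t 167 84 1 = true :=
  ⟨(a (c (a (a (a (l 537787775) (l 537809279)) (a (l 537855359) (l 537922175))) (a (a (l 538008191) (a (l 538085759) (l 538143103))) (a (a (l 538206079) (l 538275199)) (b (l 16778680) (l 16778792))))) (a (a (a (l 537231231) (l 537243263)) (a (l 537278847) (l 537334399))) (a (a (l 537407615) (a (l 537474687) (l 537524863))) (a (a (l 537580159) (l 537640831)) (b (l 537753471) (l 16778112)))))) (a (a (b (c (c (l 16779200) (l 16778840)) (b (l 16778304) (l 16778320))) (c (c (l 16779312) (l 16778928)) (b (l 16778344) (l 16778368)))) (a (a (b (c (l 538695071) (b (l 16778504) (l 16778520))) (c (l 538611615) (l 537940639))) (a (b (c (l 538726815) (l 538035359)) (c (l 538641055)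 (l 537966495))) (a (b (c (l 538741919) (l 538048671)) (c (l 538655135) (l 537979039))) (b (c (c (l 16779656) (l 16779240)) (b (l 16778616) (l 16778632))) (c (c (l 16779768) (l 16779320)) (b (l 16778648) (l 16778680))))))) (b (c (c (l 16779784) (l 16779360)) (b (l 16778712) (l 16778720))) (c (c (l 16779896) (l 16779432)) (b (l 16778744) (l 16778760)))))) (b (b (c (l 16780088) (l 16779104)) (c (l 16780128) (l 16779120))) (c (c (l 16780456) (l 16779928)) (b (l 16779128) (l 16779152)))))), by decide +kernel⟩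

def k36_A00pm_012_s1 : ∃ t, chk3 f_A00pm_012_s1 t 167 85 1 = true :=
  ⟨(a (a (a (a (l 537676159) (l 537666175)) (a (c (l 537953919) (l 537400191)) (c (l 537988223) (l 537424511)))) (a (a (c (l 538040447) (l 537465983)) (c (l 538111359) (l 538061439))) (a (a (c (l 538178687) (l 537581439)) (a (l 537915007) (l 537939583))) (a (l 537974399) (a (l 538007679) (l 538028927)))))) (a (a (b (c (c (l 16779456) (l 16779040)) (b (l 16778400) (l 16778440))) (b (l 16778920) (l 16778976))) (a (a (c (b (l 16779512) (l 16779648)) (b (l 537895327) (l 16778696))) (a (c (b (l 538576799) (l 16779728)) (b (l 537918623) (l 537887135))) (a (c (b (l 538589855) (l 16779760)) (b (l 537929631) (l 537897119))) (b (c (c (l 16779888) (l 16779424)) (b (l 16778704) (l 16778736))) (c (l 16779792) (b (l 16778776) (l 16778824))))))) (b (c (c (l 16780016) (l 16779528)) (b (l 16778792) (l 16778824))) (c (l 16779904) (b (l 16778864) (l 16778904)))))) (b (c (c (l 16780576) (l 16780016)) (b (l 16779168) (l 16779200))) (c (c (l 16780704)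 (l 16780120)) (b (l 16779232) (l 16779264)))))), by decide +kernel⟩

def k37_A00pm_012_s1 : ∃ t, chk3 f_A00pm_012_s1 t 664 43 1 = true :=
  ⟨(b (b (a (a (l 3) (b (l 3) (c (l 538888319) (l 538367103)))) (c (c (l 538948991) (l 538697343)) (c (l 538437247) (l 538169471)))) (a (b (a (c (l 538931839) (l 538410111)) (l 538640511)) (a (c (b (a (c (b (l 539068543) (b (l 539069567) (l 539069455))) (l 538818063)) (l 538927999)) (b (a (a (a (l 538950415) (l 538948223)) (l 538943359)) (l 538931839)) (a (a (l 538944639) (l 538941055)) (l 538932095)))) (b (a (c (l 538557455) (b (l 538286975) (b (l 538288255) (l 538288399)))) (l 538407551)) (b (a (a (a (l 538160911) (l 538427263)) (l 538422655)) (l 538411647)) (a (a (l 538424079) (l 538420607)) (l 538411903))))) (b (l 538646399) (c (c (l 539031311) (l 538781055)) (c (l 538521471) (l 538252815)))))) (a (b (l 538603391) (b (l 538610047) (a (l 538624527) (l 538606463)))) (b (l 538564479) (l 538574863))))) (a (b (a (b (b (a (c (a (l 538935423) (l 538934143)) (a (l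 538415743) (l 538414463))) (c (l 538928143) (l 538408463))) (a (c (l 539191167) (l 538404111)) (c (l 538919551) (l 538400639)))) (a (c (l 538902399) (l 538386047)) (c (l 538902911) (l 538385535)))) (a (b (c (c (l 539037967) (l 538787967)) (c (l 538528383) (l 538259471))) (c (l 538898303) (l 538112127))) (b (c (l 538901375) (l 538382351)) (c (l 538890111) (l 538372479))))) (a (c (a (l 538860159) (l 538864511)) (a (l 538347647) (l 538350719))) (c (a (l 538864255) (l 538860927)) (a (l 538349695) (l 538345855))))) (b (b (a (c (l 538878479) (l 538360591)) (c (l 538844287) (l 538327679))) (a (c (l 538873615) (l 538355983)) (c (l 538846079) (l 538329215)))) (a (c (b (l 538859903) (l 538841471)) (b (l 538343807) (l 538327167))) (c (b (l 538838143) (l 538824575)) (c (l 538448511) (l 538182527))))))), by decide +kernel⟩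

def k38_A00pm_012_s1 : ∃ t, chk3 f_A00pm_012_s1 t 665 43 1 = true :=
  ⟨(b (a (b (c (l 538737279) (l 538219903)) (c (l 538761599) (l 538247039))) (b (l 538385535) (l 538417791))) (b (a (b (a (l 538552847) (l 538513023)) (c (l 538795903) (l 538280831))) (b (l 538447119) (l 538464383))) (a (c (a (l 538807167) (l 538777983)) (a (l 538292095) (l 538263423))) (c (l 538726527) (a (l 538231167) (l 538195327)))))), by decide +kernel⟩

def k39_A00pm_012_s1 : ∃ t, chk3 f_A00pm_012_s1 t 333 43 1 = true :=
  ⟨(a (b (a (b (l 538276991) (l 538316415)) (a (l 538209919) (l 538145919))) (b (a (b (l 538350207) (l 538374271)) (b (l 538239871) (l 538270335))) (a (c (l 538646655) (l 538134655)) (l 538300031)))) (b (a (l 538039679) (a (l 537925503) (l 537865855))) (a (b (l 538663807) (l 538190463)) (b (a (l 16778488) (l 16778496)) (l 538606207))))), by decide +kernel⟩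

def k40_A00pm_012_s1 : ∃ t, chk3 f_A00pm_012_s1 t 167 43 1 = true :=
  ⟨(b (a (a (a (a (l 537826175) (l 537804159)) (a (l 537798527) (b (l 537782911) (l 16778456)))) (a (a (c (l 538109823) (l 537556863)) (c (l 538155903) (l 538129279))) (a (a (l 537916287) (a (l 537941631) (l 537959551))) (a (l 537984383) (a (l 538008703) (l 538024319)))))) (a (a (c (b (l 16779552) (l 16779736)) (b (l 16778616) (l 16778744))) (a (a (c (b (l 16779808) (l 16779984)) (b (l 16778800) (l 16778912))) (a (c (b (l 16779880) (l 16780056)) (b (l 16778848) (l 16778968))) (a (c (b (l 16779920) (l 16780088)) (b (l 16778880) (l 16778992))) (b (c (l 16779944) (l 16778896)) (c (l 16780112) (l 16779008)))))) (b (c (l 16780056) (l 16778976)) (c (l 16780224) (l 16779088))))) (b (c (c (l 16780856) (l 16780240)) (b (l 16779304) (l 16779352))) (c (l 16780704) (b (l 16779400) (l 16779456)))))) (a (b (a (a (a (l 16778520) (l 16778560)) (a (l 16778608) (l 537893759))) (a (a (c (l 16779176) (l 16778368)) (c (l 16779304) (l 16778448))) (a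 (a (l 16778984) (l 16779064)) (l 16779184)))) (a (a (l 537992575) (c (l 16779296) (l 16778488))) (a (a (l 16779016) (c (l 16779592) (l 16778656))) (a (a (l 16779224) (l 538039423)) (l 538070175))))) (a (a (b (c (l 16779952) (l 16778896)) (c (l 16780224) (l 16779096))) (a (a (b (c (l 16780192) (l 16779064)) (c (l 16780448) (l 16779248))) (a (b (c (l 16780264) (l 16779112)) (c (l 16780520) (l 16779296))) (a (b (c (l 16780296) (l 16779136)) (c (l 16780552) (l 16779320))) (b (c (l 16780320) (l 16779152)) (c (l 16780576) (l 16779336)))))) (b (c (l 16780424) (l 16779224)) (c (l 16780680) (l 16779408))))) (b (c (l 16780896) (l 16779552)) (c (l 16781136) (l 16779728)))))), by decide +kernel⟩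

def k41_A00pm_012_s1 : ∃ t, chk3 f_A00pm_012_s1 t 40 11 1 = true :=
  ⟨(a (l 3) (b (l 3) (a (a (l 3) (b (l 3) (l 537068159))) (b (a (l 3) (b (a (l 3) (l 537383551)) (a (b (l 3) (l 537224063)) (c (l 537464191) (l 537081215))))) (a (l 537109375) (a (l 537139839) (b (l 537173775) (l 537128063)))))))), by decide +kernel⟩

def k42_A00pm_012_s1 : ∃ t, chk3 f_A00pm_012_s1 t 82 11 1 = true :=
  ⟨(a (b (b (l 3) (a (a (l 3) (b (l 3) (l 537650047))) (c (a (l 537991551) (c (l 538178687) (l 537970815))) (a (l 537568639) (l 537642111))))) (b (a (a (b (l 537460351) (a (l 537332095) (l 537368959))) (b (l 537537151) (l 537691775))) (b (c (l 537858175) (l 537437311)) (c (l 537739647) (l 537323391)))) (a (b (a (l 537244031) (l 537306239)) (a (l 537165439) (l 537215871))) (b (a (l 537374335) (l 537445503)) (a (l 537273727) (l 537335935)))))) (b (a (c (b (a (c (b (l 3) (l 538445695)) (l 538284927)) (c (a (l 538840959) (l 538618239)) (l 538369663))) (a (c (l 538266239) (l 538052479)) (c (l 538354047) (l 538134911))))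 (b (a (c (l 538056575) (b (l 3) (l 537765503))) (c (l 538135423) (b (l 537946239) (l 537838207)))) (a (c (l 537830271) (l 537599615)) (c (l 537907327) (l 537671295))))) (a (c (b (c (a (l 538663807) (l 538710143)) (l 538455167)) (c (l 538442623) (l 538218111))) (b (c (l 538215039) (a (l 537947519) (l 537984383))) (c (l 537984895) (l 537743487)))) (b (c (a (c (l 538756479) (l 538520447)) (c (l 538803327) (l 538564223))) (a (c (l 538275455) (l 538021759)) (c (l 538315903) (b (l 538112895) (l 538004351))))) (c (a (l 538397055) (l 538440831)) (a (l 537922431) (l 537960319)))))) (a (b (c (a (l 537921151) (l 538003071)) (a (l 537487487) (l 537559167))) (b (a (l 537518463) (l 537592959)) (c (l 537638783) (l 537221503)))) (b (a (c (l 538354047) (b (l 537691263) (l 537572479))) (c (b (l 538231679) (l 538105215)) (b (l 537763967) (l 537643647)))) (a (b (l 537668223) (l 537538431)) (b (l 537743631) (l 537608319))))))), by decide +kernel⟩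

def k43_A00pm_012_s1 : ∃ t, chk3 f_A00pm_012_s1 t 166 44 1 = true :=
  ⟨(a (a (a (a (c (b (c (l 538897279) (l 538653567)) (l 538657663)) (b (a (l 538267775) (l 538273407)) (l 538160767))) (b (a (c (l 538784127) (l 538276479)) (c (l 538785663) (l 538277247))) (c (l 538670719) (l 538171519)))) (b (b (a (c (l 538808447) (l 538296847)) (c (l 538797439) (c (l 538416255) (l 538151807)))) (c (a (l 538758783) (l 538753407)) (a (l 538251135) (l 538244479)))) (c (a (l 538677119) (l 538677375)) (a (l 538175615) (l 538174335))))) (b (a (b (c (a (l 538780543) (l 538758783)) (a (l 538267775) (l 538246015))) (c (a (l 538742399) (l 538726527)) (a (l 538232703) (l 538216319)))) (b (c (l 538718079) (a (l 538220159) (l 538190719))) (c (l 538963327) (a (l 538196095) (l 538172031))))) (a (c (a (l 538672767) (l 538663807)) (a (l 538168447) (l 538158207))) (c (a (l 538651007) (l 538634111)) (a (l 538144383) (l 538126975)))))) (a (b (a (b (c (l 538651519) (l 538139519)) (c (l 538639999) (l 538129023))) (b (l 538318095)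 (c (l 16779440) (l 16778768)))) (a (c (b (l 538616959) (l 16779792)) (a (l 538106239) (l 538081919))) (c (b (l 16779688) (l 16779936)) (b (l 16778944) (l 16779104))))) (a (b (c (l 538482559) (l 538240127)) (c (l 538479743) (l 537970047))) (b (a (l 538152831) (l 538109055)) (b (l 16779440) (l 16779648)))))), by decide +kernel⟩

def k44_A00pm_012_s1 : ∃ t, chk3 f_A00pm_012_s1 t 167 44 1 = true :=
  ⟨(b (a (b (a (a (l 16779040) (c (l 16779584) (l 16778696))) (a (c (l 16779808) (l 16778824)) (a (a (l 16779480) (l 16779552)) (l 16779672)))) (a (a (l 16779272) (l 16779376)) (a (c (l 16780088) (l 16779024)) (a (l 16779752) (l 16779904))))) (b (c (a (l 16780680) (l 16781400)) (a (l 16779416) (l 16779912))) (c (l 16781304) (l 16779848)))) (b (a (a (a (l 16779496) (l 16779608)) (a (c (l 16780352) (l 16779208)) (a (l 16779976) (l 16780120)))) (c (l 16781560) (l 16780024))) (a (a (a (l 16779704) (l 16779816)) (a (c (l 16780608) (l 16779376)) (a (l 16780184) (l 16780336)))) (a (l 16780704) (l 16781288))))),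 by decide +kernel⟩

def k45_A00pm_012_s1 : ∃ t, chk3 f_A00pm_012_s1 t 83 45 1 = true :=
  ⟨(a (a (a (a (c (a (l 538473343) (l 538489471)) (a (l 537988479) (l 538002047))) (a (c (l 538500991) (l 538011007)) (b (a (l 538322047) (l 538323327)) (l 538208639)))) (a (c (a (l 538511231) (l 538779263)) (b (a (l 538070143) (l 538066047)) (l 537963391))) (c (a (l 538775679) (l 538768767)) (b (a (l 538058367) (l 538047359)) (l 537956991))))) (a (c (a (b (b (l 16780024) (l 16780248)) (l 538437247)) (b (l 538758527) (l 538411391))) (a (b (b (l 16779176) (l 16779312)) (l 537939583)) (b (b (l 16779256) (l 16779392)) (l 537910911)))) (a (b (b (l 538335503) (l 16779976)) (b (l 16780144) (l 16780296))) (b (b (l 16779840) (l 16780024)) (b (l 16780192) (l 16780344)))))) (b (b (a (a (a (l 16779904) (l 16780016)) (a (l 16780192) (a (l 16780384) (l 16780536)))) (a (l 16780896) (l 16781472))) (a (a (a (l 16780088) (l 16780208)) (a (l 16780384) (a (l 16780576) (l 16780720)))) (a (l 16781080) (l 16781648)))) (b (a (a (a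 (l 16780264) (l 16780376)) (a (l 16780560) (a (l 16780744) (l 16780888)))) (l 16781528)) (a (a (a (l 16780416) (l 16780536)) (a (l 16780720) (a (l 16780904) (l 16781048)))) (l 16781680))))), by decide +kernel⟩

def k46_A00pm_012_s1 : ∃ t, chk3 f_A00pm_012_s1 t 83 46 1 = true :=
  ⟨(a (a (a (a (c (l 538767487) (b (l 537818751) (l 537698431))) (c (b (l 538322559) (l 538197375)) (b (l 537841791) (l 537723007)))) (a (c (b (l 538337663) (l 538216319)) (b (l 537852543) (l 537737599))) (c (b (l 538341759) (l 538225791)) (b (l 537853055) (l 537742975))))) (a (a (c (b (l 538335615) (l 16781200)) (b (l 537843327) (l 16779768))) (c (b (l 16781064) (l 16781352)) (b (l 537824127) (l 16779848)))) (a (c (b (l 16781184) (l 16781480)) (b (l 16779792) (l 16779896))) (c (b (l 16781280) (l 16781576)) (b (l 16779816) (l 16779920)))))) (b (b (a (a (c (l 16781368) (l 16779832)) (a (l 16780864) (a (l 16781048) (l 16781192)))) (l 16781816)) (a (a (c (l 16781544) (l 16779912)) (a (l 16780984) (a (l 16781176) (l 16781312))))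 (l 16781928))) (c (a (a (c (l 16782208) (l 16781328)) (a (l 16782104) (a (l 16782328) (l 16782496)))) (l 16783224)) (a (a (a (l 16779960) (l 16780040)) (a (l 16780176) (a (l 16780320) (l 16780432)))) (l 16780920))))), by decide +kernel⟩

def k47_A00pm_012_s1 : ∃ t, chk3 f_A00pm_012_s1 t 166 47 1 = true :=
  ⟨(a (a (a (b (l 537801087) (l 537662847)) (b (l 537829503) (l 537690751))) (b (a (l 537849983) (l 537861503)) (b (l 16780320) (l 16780288)))) (a (a (b (l 537865343) (l 16780536)) (b (l 537861647) (l 16780648))) (a (b (l 16780776) (l 16780736)) (b (l 16780848) (l 16780816))))), by decide +kernel⟩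

def k48_A00pm_012_s1 : ∃ t, chk3 f_A00pm_012_s1 t 167 188 2 = true :=
  ⟨(c (a (a (l 16782400) (a (l 16782768) (l 16783104))) (l 16783984)) (b (a (a (l 16781440) (a (l 16781736) (l 16782016))) (l 16782752)) (c (a (a (l 16781704) (a (l 16782024) (l 16782312))) (l 16783088)) (b (c (b (c (a (a (l 16781400) (a (l 16781688) (l 16781968))) (l 16782696)) (a (a (l 16781280) (a (l 16781560) (l 16781832))) (l 16782544))) (c (a (a (l 16781400) (a (l 16781696) (l 16781968))) (l 16782696)) (a (a (l 16781280) (a (l 16781568) (l 16781832))) (l 16782544)))) (b (c (a (a (l 16781160) (a (l 16781432) (l 16781696))) (l 16782384)) (a (a (l 16781040) (a (l 16781304) (l 16781560))) (l 16782232))) (c (a (a (l 16781160) (a (l 16781440) (l 16781696))) (l 16782392)) (a (a (l 16781040) (a (l 16781304) (l 16781560))) (l 16782240))))) (c (a (a (l 16781352) (a (l 16781640) (l 16781912))) (l 16782632)) (b (a (a (l 16781104) (a (l 16781376) (l 16781632))) (l 16782320)) (a (a (l 16781112) (a (l 16781376) (l 16781640))) (l 16782320)))))))),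 by decide +kernel⟩

def k49_A00pm_012_s1 : ∃ t, chk3 f_A00pm_012_s1 t 167 189 2 = true :=
  ⟨(c (a (a (l 16782480) (a (l 16782856) (l 16783184))) (l 16784056)) (b (c (b (c (a (a (l 16781848) (a (l 16782176) (l 16782472))) (l 16783256)) (a (a (l 16781600) (a (l 16781912) (l 16782192))) (l 16782944))) (c (a (a (l 16781856) (a (l 16782184) (l 16782488))) (l 16783272)) (a (a (l 16781616) (a (l 16781920) (l 16782208))) (l 16782952)))) (b (c (a (a (l 16781360) (a (l 16781648) (l 16781920))) (l 16782632)) (a (a (l 16781112) (a (l 16781384) (l 16781640))) (l 16782320))) (c (a (a (l 16781368) (a (l 16781656) (l 16781928))) (l 16782640)) (a (a (l 16781112) (a (l 16781384) (l 16781640))) (l 16782320))))) (c (b (a (a (l 16781744) (a (l 16782064) (l 16782352))) (l 16783120)) (a (a (l 16781752) (a (l 16782064) (l 16782360))) (l 16783120))) (b (c (a (a (l 16781368) (a (l 16781656) (l 16781928))) (l 16782640)) (a (a (l 16781112) (a (l 16781384) (l 16781648))) (l 16782320))) (a (a (l 16781240) (a (l 16781520) (l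 16781784))) (l 16782480)))))), by decide +kernel⟩

def k50_A00pm_012_s1 : ∃ t, chk3 f_A00pm_012_s1 t 167 94 3 = true :=
  ⟨(a (a (a (l 16779960) (l 16780048)) (a (l 16780184) (a (l 16780328) (l 16780440)))) (l 16780912)), by decide +kernel⟩

def k51_A00pm_012_s1 : ∃ t, chk3 f_A00pm_012_s1 t 167 95 2 = true :=
  ⟨(b (c (b (c (a (a (l 16782768) (a (l 16783160) (l 16783504))) (l 16784408)) (a (a (l 16782264) (a (l 16782616) (l 16782936))) (l 16783768))) (c (a (a (l 16782792) (a (l 16783184) (l 16783528))) (l 16784424)) (a (a (l 16782272) (a (l 16782632) (l 16782944))) (l 16783776)))) (b (c (a (a (l 16781752) (a (l 16782072) (l 16782360))) (l 16783120)) (a (a (l 16781240) (a (l 16781520) (l 16781784))) (l 16782472))) (c (a (a (l 16781752) (a (l 16782072) (l 16782360))) (l 16783120)) (a (a (l 16781224) (a (l 16781504) (l 16781768))) (l 16782456))))) (c (b (a (a (l 16782544) (a (l 16782920) (l 16783248))) (l 16784104)) (a (a (l 16782560) (a (l 16782928) (l 16783256))) (l 16784096))) (b (c (a (a (l 16781752)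 (a (l 16782064) (l 16782352))) (l 16783104)) (a (a (l 16781208) (a (l 16781496) (l 16781752))) (l 16782432))) (a (a (l 16781472) (a (l 16781768) (l 16782040))) (l 16782744))))), by decide +kernel⟩

def k52_A00pm_012_s1 : ∃ t, chk3 f_A00pm_012_s1 t 167 95 3 = true :=
  ⟨(b (b (c (b (c (a (a (l 16780720) (a (l 16780968) (l 16781200))) (l 16781824)) (a (a (l 16780200) (a (l 16780408) (l 16780616))) (l 16781176))) (a (a (l 16780448) (a (l 16780672) (l 16780896))) (l 16781488))) (b (c (a (a (l 16779664) (a (l 16779840) (l 16780024))) (l 16780512)) (a (a (l 16779136) (a (l 16779272) (l 16779432))) (l 16779856))) (c (a (a (l 16779648) (a (l 16779824) (l 16780008))) (l 16780488)) (a (a (l 16779104) (a (l 16779248) (l 16779400))) (l 16779824))))) (c (b (a (a (l 16780432) (a (l 16780656) (l 16780880))) (l 16781464)) (a (a (l 16780416) (a (l 16780648) (l 16780864))) (l 16781448))) (b (c (a (a (l 16779624) (a (l 16779800) (l 16779984))) (l 16780464)) (a (a (l 16779080) (a (l 16779216) (l 16779376))) (l 16779792)))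 (a (a (l 16779328) (a (l 16779480) (l 16779648))) (l 16780096))))) (b (c (c (a (a (l 16780664) (a (l 16780912) (l 16781144))) (l 16781760)) (a (a (l 16780120) (a (l 16780328) (l 16780536))) (l 16781080))) (b (a (a (l 16779296) (a (l 16779456) (l 16779624))) (l 16780064)) (a (a (l 16779272) (a (l 16779424) (l 16779592))) (l 16780032)))) (c (c (a (a (l 16780640) (a (l 16780880) (l 16781112))) (l 16781720)) (a (a (l 16780080) (a (l 16780288) (l 16780488))) (l 16781024))) (a (a (l 16779224) (a (l 16779376) (l 16779544))) (l 16779984))))), by decide +kernel⟩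

def k53_A00pm_012_s1 : ∃ t, chk3 f_A00pm_012_s1 t 42 20 1 = true :=
  ⟨(b (l 2) (a (a (b (l 2) (a (a (b (l 2) (b (l 2) (b (l 2) (l 16780320)))) (l 2)) (l 2))) (l 2)) (l 2))), by decide +kernel⟩

def k54_A00pm_012_s1 : ∃ t, chk3 f_A00pm_012_s1 t 84 21 1 = true :=
  ⟨(b (a (b (c (b (a (c (l 16781720) (l 16781040)) (l 16783056)) (a (c (l 16781800) (l 16781096)) (l 16783096))) (b (a (b (l 16780040) (l 16780040)) (c (l 16781712) (l 16780832))) (a (b (l 16780048) (l 16780056)) (c (l 16781712) (l 16780800))))) (b (c (a (c (l 16781888) (l 16781160)) (l 16783152)) (a (b (l 16780072) (l 16780088)) (c (l 16781728) (l 16780792)))) (c (a (c (l 16782000) (l 16781240)) (l 16783216)) (a (b (l 16780104) (l 16780128)) (b (l 16781264) (l 16781272)))))) (c (b (b (l 16782968) (l 16782968)) (b (a (l 16784776) (l 16786424)) (a (l 16784816) (l 16786432)))) (b (b (a (l 16782504) (l 2)) (a (l 16782464) (l 16783688))) (b (a (l 16782440) (l 16783640)) (a (l 16782424) (l 16783600)))))) (b (b (a (a (c (c (l 16782120) (l 16781336))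 (b (l 16780152) (l 16780184))) (c (l 16783288) (b (l 16781280) (l 16781296)))) (c (c (l 16786328) (l 16784984)) (a (l 16782416) (l 16783560)))) (b (a (c (c (l 16783048) (l 16782128)) (a (l 16780224) (l 16781320))) (c (l 16785688) (l 16782984))) (a (c (c (l 16783120) (l 16782184)) (a (l 16780264) (l 16781344))) (c (l 16785712) (l 16782984))))) (b (b (a (c (c (l 16783192) (l 16782240)) (a (l 16780312) (l 16781368))) (c (l 16785744) (l 16782992))) (a (c (l 16782800) (l 16780888)) (c (l 16785792) (l 16783008)))) (b (a (c (l 16782896) (l 16780952)) (c (l 16785856) (l 16783032))) (c (a (l 16783008) (l 16785920)) (a (l 16781024) (l 16783072))))))), by decide +kernel⟩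

def k55_A00pm_012_s1 : ∃ t, chk3 f_A00pm_012_s1 t 85 21 1 = true :=
  ⟨(b (b (a (b (l 2) (c (l 16788968) (l 16785560))) (l 2)) (a (b (c (l 16788920) (l 16785472)) (c (l 16788888) (l 16785384))) (b (c (l 16792336) (l 16787984)) (c (l 16792240) (l 16787848))))) (b (b (a (c (l 16788864) (a (l 16784728) (l 16785912))) (c (l 16792160) (l 16787728))) (a (c (l 16786224) (a (l 16784672) (l 16785832))) (c (l 16792088) (l 16787608)))) (b (a (c (c (l 16789784) (l 16787936)) (a (l 16784648) (l 16785776))) (c (l 16792032) (l 16787504))) (c (a (l 16786288) (l 16792016)) (a (a (l 16784656) (l 16785752)) (l 16787440)))))), by decide +kernel⟩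

def k56_A00pm_012_s1 : ∃ t, chk3 f_A00pm_012_s1 t 43 10 1 = true :=
  ⟨(b (l 2) (b (a (b (l 2) (a (b (l 2) (l 16787792)) (l 2))) (l 2)) (a (b (b (a (c (l 16795552) (l 16790224)) (l 16795920)) (a (c (l 16795416) (l 16790056)) (c (l 16798856) (l 16792600)))) (b (a (c (l 16795304) (l 16789896)) (c (l 16798688) (l 16792384))) (a (c (l 16795232) (l 16789776)) (c (l 16798552) (l 16792208))))) (b (b (l 2) (a (l 16798800) (l 2))) (b (a (l 16788064) (l 16801696)) (c (l 16798488) (a (l 16794744) (l 16797384)))))))), by decide +kernel⟩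

def k57_A00pm_012_s1 : ∃ t, chk3 f_A00pm_012_s1 t 42 11 1 = true :=
  ⟨(b (a (b (b (b (c (a (c (l 16783696) (l 16782664)) (c (l 16786800) (l 16785328))) (a (b (l 16781104) (l 16781184)) (b (l 16783120) (l 16783184)))) (c (a (l 16783424) (l 16786264)) (a (l 16781312) (b (l 16783248) (l 16783312))))) (c (b (a (l 16783664) (l 16786480)) (a (l 16783888) (l 16786688))) (b (a (l 16781472) (l 16783416)) (a (l 16781616) (l 16783544))))) (b (c (b (a (l 16784104) (l 16786888)) (l 16785688)) (b (a (l 16781744) (l 16783656)) (l 16782800))) (c (b (l 16785872) (l 16786040)) (b (l 16782896) (l 16782976))))) (b (b (b (c (a (l 16786384) (l 16792048)) (a (b (l 16785216) (l 16785248)) (l 16787408))) (c (a (l 16789152) (l 16792128)) (a (l 16785312) (l 16787416)))) (c (b (a (l 16789336) (l 16792256)) (a (l 16789528) (l 16792408))) (b (a (l 16785408) (l 16787464)) (a (l 16785520) (l 16787536))))) (b (c (b (l 16791136) (l 16791296)) (b (a (l 16785616) (l 16787624)) (l 16786680))) (c (b (l 16791448) (l 16791584)) (b (l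 16786744) (l 16786784)))))) (a (b (b (c (b (l 16786192) (l 16786328)) (a (l 16782160) (l 16783984))) (c (a (l 16785192) (l 16787848)) (a (l 16782224) (l 16784016)))) (b (c (a (l 16785344) (l 16787952)) (a (l 16782184) (l 16783936))) (c (a (l 16785336) (l 16787912)) (a (l 16782008) (l 16783712))))) (b (b (c (b (l 16791696) (l 16791800)) (b (l 16786808) (l 16786816))) (c (b (l 16791888) (l 16791944)) (b (l 16786808) (l 16786768)))) (b (c (l 16789352) (a (l 16785736) (l 16787600))) (c (l 16791864) (l 16786376)))))), by decide +kernel⟩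

def k58_A00pm_012_s1 : ∃ t, chk3 f_A00pm_012_s1 t 43 11 1 = true :=
  ⟨(b (b (a (b (b (c (a (l 16795200) (l 16798456)) (a (l 16789680) (l 16792064))) (c (a (l 16795216) (l 16798408)) (a (l 16789632) (l 16791944)))) (b (c (a (l 16795272) (l 16798400)) (a (l 16789616) (l 16791872))) (c (a (l 16795376) (l 16798424)) (a (l 16789640) (l 16791824))))) (b (c (b (a (l 16801824) (l 16805304)) (a (l 16801712) (l 16805128))) (a (b (l 16794544) (l 16794368)) (b (l 16797128) (l 16796896)))) (c (a (b (l 16801632) (l 16801600)) (b (l 16804984) (l 16804888))) (a (b (l 16794232) (l 16794128)) (b (l 16796704) (l 16796536)))))) (b (a (c (b (a (l 16795504) (l 16798504)) (a (l 16795648) (l 16798608))) (b (a (l 16789680) (l 16791824)) (a (l 16789736) (l 16791840)))) (b (c (l 16797960) (a (l 16794056) (l 16796408))) (c (l 16803232) (a (l 16794024) (l 16796304))))) (a (c (b (l 16797240) (l 16797344)) (b (l 16790808) (l 16790824))) (c (b (l 16803272) (l 16803328)) (b (l 16795112) (l 16795080)))))) (b (b (a (c (b (l 16797424)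 (l 16797496)) (b (l 16790816) (l 16790792))) (c (l 16803424) (b (l 16795056) (l 16795008)))) (a (c (l 16797560) (l 16790712)) (c (l 16803464) (l 16794880)))) (b (a (c (l 16797544) (l 16790504)) (c (l 16803376) (l 16794616))) (a (c (l 16797368) (l 16790160)) (c (l 16803136) (l 16794200)))))), by decide +kernel⟩

def k59_A00pm_012_s1 : ∃ t, chk3 f_A00pm_012_s1 t 11 4 1 = true :=
  ⟨(l 2), by decide +kernel⟩

def k60_A00pm_012_s1 : ∃ t, chk3 f_A00pm_012_s1 t 11 10 1 = true :=
  ⟨(a (a (b (l 2) (b (l 2) (b (l 2) (a (b (l 2) (c (l 16811024) (l 16801544))) (l 2))))) (l 2)) (l 2)), by decide +kernel⟩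

def k61_A00pm_012_s1 : ∃ t, chk3 f_A00pm_012_s1 t 11 11 1 = true :=
  ⟨(a (b (a (b (a (b (b (a (l 16804320) (l 16807576)) (a (l 16793576) (l 16807256))) (a (b (l 16798592) (l 16798400)) (b (l 16806968) (l 16806712)))) (b (c (l 16807664) (a (l 16805336) (l 2))) (a (c (l 16815600) (l 16804608)) (c (l 16819416) (l 16807512))))) (b (a (c (a (l 16808120) (l 16811552)) (a (l 16798784) (l 16801328))) (c (a (l 16815096) (l 16818768)) (a (l 16803984) (l 16806760)))) (a (b (c (l 16809680) (l 16799784)) (c (l 16809656) (l 16799672))) (c (a (l 16814736) (l 16818280)) (a (l 16803480) (l 16806136)))))) (b (a (a (b (l 2) (l 16806376)) (l 2)) (l 2)) (a (b (b (l 16807512) (l 16807088)) (c (l 16823832) (l 16805096))) (b (c (l 16832584) (l 16817392)) (c (l 16831736) (l 16816424)))))) (b (a (b (a (c (b (l 16809632) (l 16809632)) (b (l 16799560) (l 16799464))) (b (c (l 16816264) (l 16804440)) (l 16804936))) (a (c (l 16809624) (l 16799312)) (c (l 16816056) (l 16804000)))) (b (a (c (l 16823280) (l 16809640)) (c (l 16830880)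 (l 16815440))) (a (c (l 16822904) (l 16809096)) (c (l 16830192) (l 16814600))))) (a (b (a (c (l 16809488) (l 16798984)) (c (l 16815872) (l 16803632))) (a (l 16803816) (l 16809272))) (b (a (c (l 16822536) (l 16808544)) (c (l 16829648) (l 16813880))) (a (l 16815016) (l 16821048)))))) (b (a (b (l 2) (a (b (l 2) (c (l 16840048) (l 16822904))) (l 2))) (l 2)) (a (b (a (b (c (l 16839072) (l 16821800)) (l 16818816)) (b (l 16838064) (l 16836872))) (b (a (l 16828360) (l 16835616)) (a (l 16827528) (l 16834464)))) (b (a (b (l 2) (l 16844872)) (l 2)) (a (b (l 16843496) (l 16842024)) (b (l 16851832) (l 16850240))))))), by decide +kernel⟩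

def k62_A00pm_012_s1 : ∃ t, chk3 f_A00pm_012_s1 t 40 12 1 = true :=
  ⟨(a (b (b (a (l 3) (a (l 3) (l 536830223))) (a (a (l 3) (c (l 536735615) (l 536399999))) (c (l 536816767) (a (l 536449663) (l 536497791))))) (b (a (a (a (b (b (b (l 3) (l 536431887)) (l 536409215)) (l 536367487)) (b (c (b (c (a (l 536663823) (l 536675855)) (b (l 536524303) (a (l 536499983) (l 536510847)))) (c (l 536625423) (l 536472335))) (b (c (b (l 536360719) (a (l 536337167) (l 536347151))) (b (a (l 536183311) (l 536193919)) (a (a (l 536171647) (l 536166927)) (l 536175375)))) (a (l 536237327) (b (l 536241679) (l 536229759))))) (c (l 536517903) (l 536197391)))) (a (b (b (b (l 536470143) (a (b (l 536447871) (l 536435215)) (l 536456063))) (c (b (l 536584063) (l 536563839)) (c (l 536334863) (l 536163343)))) (c (l 536522255) (b (l 536215679) (l 536187007)))) (b (b (l 536486783) (c (l 536599167) (l 536270351))) (c (l 536537983) (l 536214543))))) (b (a (b (l 536526463) (c (l 536646527) (l 536311567))) (c (l 536724095) (l 536381311)))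 (a (c (l 536570239) (l 536243215)) (c (l 536621695) (l 536288271))))) (a (a (c (l 536432143) (a (l 536119423) (l 536116607))) (b (c (l 536466447) (l 536149263)) (l 536254991))) (a (c (b (l 536495743) (l 536430463)) (b (l 536174719) (l 536114303))) (c (l 536498959) (b (l 536210303) (l 536143999))))))) (b (a (a (b (l 536877695) (l 536725631)) (b (l 536923519) (l 536774015))) (a (c (l 537071743) (l 536705151)) (c (l 537119615) (b (l 536820607) (l 536678271))))) (b (b (a (a (l 536607871) (l 536657791)) (a (l 536707455) (l 536755839))) (a (a (c (l 536676991) (l 536336511)) (l 536563471)) (a (l 536615295) (l 536667007)))) (a (a (c (l 536542335) (l 536213519)) (c (l 536589951) (l 536254847))) (a (c (l 536639871) (l 536298367)) (b (l 536568335) (l 536480271))))))), by decide +kernel⟩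

def k63_A00pm_012_s1 : ∃ t, chk3 f_A00pm_012_s1 t 40 13 1 = true :=
  ⟨(b (a (a (b (a (c (l 536312191) (l 536005503)) (c (l 536318591) (l 536010879))) (a (c (l 536190591) (l 535890559)) (l 536055311))) (b (a (c (l 536338559) (l 536027775)) (c (l 536367231) (l 536052351))) (a (l 536073487) (l 536097807)))) (a (b (a (c (l 536401791) (l 536082559)) (b (l 536317055) (l 16773464))) (a (b (l 16772696) (l 16771704)) (b (l 16772560) (l 16771552)))) (b (a (b (l 536626559) (l 16773400)) (b (l 16774248) (l 16773392))) (a (b (l 16772472) (l 16771456)) (b (l 16772448) (l 16771416)))))) (a (b (a (a (l 535927311) (l 535942415)) (a (l 535962895) (b (l 16770808) (l 16769584)))) (a (a (b (l 16769184) (l 16767664)) (b (l 16768816) (l 16767304))) (b (l 16768352) (c (l 16768304) (l 16765304))))) (a (b (b (a (l 16770592) (l 16770432)) (l 16769272)) (c (b (l 16769432) (l 16768080)) (b (l 16766320) (l 16764680)))) (b (a (b (l 16770328) (l 16769096)) (b (l 16770280) (l 16769048))) (b (a (l 16767744) (l 16767688)) (b (l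 16766600) (l 16765824))))))), by decide +kernel⟩

def k64_A00pm_012_s1 : ∃ t, chk3 f_A00pm_012_s1 t 82 12 1 = true :=
  ⟨(b (a (a (b (c (l 537260159) (l 536878719)) (c (l 537108863) (l 536731519))) (b (c (l 537360511) (l 536966783)) (c (l 537192831) (l 536805247)))) (a (b (a (l 537250687) (l 537309055)) (c (l 537291647) (l 536891775))) (b (a (l 537369727) (c (l 537642367) (l 537213311))) (a (c (l 537374079) (l 536963455)) (c (l 537429887) (l 537011839)))))) (a (b (a (c (l 536949887) (l 536577919)) (b (l 536883727) (l 536793871))) (a (b (l 536624911) (l 16775144)) (b (c (l 16777248) (l 16775032)) (l 16775392)))) (a (b (b (c (l 16778728) (l 16776672)) (c (l 16778344) (l 16776080))) (b (c (l 16777776) (l 16775304)) (l 16775760))) (b (a (b (l 16778136) (l 16777632)) (b (l 537081215) (l 16777944))) (a (b (l 16776944) (l 16776112)) (b (l 16777240) (l 16776392))))))), by decide +kernel⟩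

def k65_A00pm_012_s1 : ∃ t, chk3 f_A00pm_012_s1 t 82 13 1 = true :=
  ⟨(c (b (a (b (b (a (l 16775504) (l 16775840)) (l 16774864)) (b (l 16774008) (l 16773064))) (b (a (b (l 16776296) (l 16775456)) (b (l 16776880) (l 16775992))) (a (b (l 16774552) (l 16773568)) (b (l 16775048) (l 16774024))))) (a (b (b (l 16772040) (l 16770920)) (b (l 16769704) (a (l 16768160) (b (l 16768624) (l 16767112))))) (a (b (b (l 16772512) (l 16771360)) (b (b (l 16770432) (l 16769392)) (b (l 16767640) (l 16765048)))) (b (b (l 16772920) (b (l 16772040) (l 16771272))) (b (b (a (l 16770408) (l 16769744)) (l 16767832)) (l 16763920)))))) (b (a (b (b (l 16778392) (l 16772144)) (b (l 16771048) (l 16769864))) (b (a (b (l 16773408) (l 16772344)) (b (l 16773712) (l 16772600))) (a (b (l 16771200) (l 16769976)) (b (l 16771416) (l 16770144))))) (a (b (b (l 16768576) (l 16767192)) (a (b (l 16765712) (b (l 16764496) (l 16763536))) (b (l 16765672) (b (l 16764264) (a (l 16763120) (l 16762280)))))) (a (b (b (l 16768648) (l 16767232)) (b (b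 (l 16766080) (a (l 16765208) (l 16764856))) (b (l 16763160) (l 16760632)))) (b (b (l 16768784) (b (l 16767696) (a (l 16766912) (l 16766808)))) (b (b (a (l 16765880) (l 16765168)) (l 16763320)) (l 16759512))))))), by decide +kernel⟩

def k66_A00pm_012_s1 : ∃ t, chk3 f_A00pm_012_s1 t 166 12 1 = true :=
  ⟨(a (b (a (b (a (l 537480319) (l 537506431)) (b (l 16779488) (l 16779184))) (b (b (b (l 16780240) (l 16780176)) (l 16780048)) (b (l 16779816) (l 16779504)))) (c (b (b (l 16780224) (l 16779792)) (b (l 16779184) (l 16778400))) (b (b (l 16777592) (l 16776944)) (b (l 16776128) (l 16775136))))) (b (a (b (a (b (l 16780424) (l 16780256)) (b (l 16780544) (l 16780368))) (a (b (l 16780016) (l 16779696)) (b (l 16780128) (l 16779808)))) (a (b (b (l 16780632) (l 16780456)) (b (l 16780216) (l 16779904))) (b (b (l 16780704) (l 16780536)) (b (l 16780296) (l 16779984))))) (c (a (b (b (l 16780760) (l 16780328)) (b (l 16779704) (l 16778912))) (b (b (l 16781032) (l 16780600)) (b (l 16779992) (l 16779200)))) (a (b (b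 (l 16777896) (l 16777232)) (b (l 16776408) (l 16775408))) (b (b (l 16778008) (l 16777352)) (b (l 16776528) (l 16775536))))))), by decide +kernel⟩

def k67_A00pm_012_s1 : ∃ t, chk3 f_A00pm_012_s1 t 166 13 1 = true :=
  ⟨(b (c (a (b (b (l 16777520) (l 16776584)) (b (l 16775592) (l 16774528))) (b (a (b (l 16778000) (l 16777040)) (b (l 16778296) (l 16777328))) (a (b (l 16776016) (l 16774936)) (b (l 16776304) (b (l 16775496) (l 16774680)))))) (a (b (b (l 16774048) (l 16772896)) (b (l 16771656) (l 16770344))) (a (b (b (l 16774296) (l 16773112)) (b (l 16771848) (l 16770512))) (b (b (l 16774416) (l 16773232)) (b (l 16771976) (b (l 16770976) (a (l 16770240) (l 16770048)))))))) (b (a (b (c (b (l 16773680) (l 16772992)) (b (l 16769304) (a (l 16768536) (l 16768528)))) (c (b (a (l 16772248) (l 16771768)) (a (l 16770824) (l 16769400))) (b (a (l 16767688) (b (l 16767664) (l 16766680))) (a (l 16766216) (l 16764840))))) (b (b (a (c (l 16773936) (l 16769336)) (c (l 16773192) (a (l 16768992) (l 16768152)))) (a (c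 (l 16772584) (a (l 16768288) (l 16767664))) (l 16768568))) (c (l 16767960) (b (l 16764704) (l 16762256))))) (b (c (a (l 16766304) (l 16762816)) (a (l 16761840) (l 16758512))) (c (a (l 16761072) (l 16757552)) (a (l 16756760) (l 16753408)))))), by decide +kernel⟩

def k68_A00pm_012_s1 : ∃ t, chk3 f_A00pm_012_s1 t 167 48 1 = true :=
  ⟨(b (b (c (c (b (a (a (l 16782568) (a (l 16782936) (l 16783256))) (l 16784096)) (a (a (l 16782568) (a (l 16782936) (l 16783264))) (l 16784088))) (b (a (a (l 16781456) (a (l 16781752) (l 16782024))) (l 16782720)) (a (a (l 16781440) (a (l 16781736) (l 16782000))) (l 16782688)))) (b (c (a (a (l 16780320) (a (l 16780544) (l 16780760))) (l 16781320)) (a (a (l 16779160) (a (l 16779312) (l 16779480))) (l 16779912))) (a (a (l 16779688) (a (l 16779880) (l 16780064))) (l 16780552)))) (c (b (c (a (a (l 16782568) (a (l 16782936) (l 16783256))) (l 16784080)) (a (a (l 16781416) (a (l 16781712) (l 16781976))) (l 16782656))) (c (c (a (a (l 16782864) (a (l 16783248) (l 16783576))) (l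 16784424)) (a (a (l 16782280) (a (l 16782624) (l 16782928))) (l 16783704))) (a (a (l 16781392) (a (l 16781680) (l 16781944))) (l 16782624)))) (b (c (a (a (l 16780232) (a (l 16780456) (l 16780664))) (l 16781216)) (a (a (l 16779024) (a (l 16779176) (l 16779336))) (l 16779752))) (c (a (a (l 16780184) (a (l 16780408) (l 16780616))) (l 16781152)) (a (a (l 16778952) (a (l 16779104) (l 16779256))) (l 16779672)))))) (b (c (c (a (a (l 16782560) (a (l 16782928) (l 16783240))) (l 16784040)) (a (a (l 16781344) (a (l 16781640) (l 16781896))) (l 16782560))) (b (c (a (a (l 16780128) (a (l 16780352) (l 16780560))) (l 16781088)) (a (a (l 16778872) (a (l 16779016) (l 16779176))) (l 16779576))) (a (a (l 16779432) (a (l 16779616) (l 16779800))) (l 16780256)))) (a (a (c (l 16781912) (l 16779320)) (a (l 16780880) (a (l 16781056) (l 16781176)))) (a (l 16781464) (l 16781920))))), by decide +kernel⟩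

def k69_A00pm_012_s1 : ∃ t, chk3 f_A00pm_012_s1 t 167 49 1 = true :=
  ⟨(b (c (a (a (l 16781808) (a (l 16782136) (l 16782408))) (l 16783096)) (a (a (l 16779056) (a (l 16779240) (l 16779416))) (l 16779840))) (c (a (a (l 16781608) (a (l 16781936) (l 16782200))) (l 16782848)) (a (a (l 16778640) (a (l 16778824) (l 16778984))) (l 16779384)))), by decide +kernel⟩

def k70_A00pm_012_s1 : ∃ t, chk3 f_A00pm_012_s1 t 167 25 1 = true :=
  ⟨(b (b (c (a (a (l 16781328) (a (l 16781648) (l 16781912))) (l 16782528)) (a (a (l 16778136) (a (l 16778312) (l 16778472))) (l 16778840))) (c (a (a (l 16780912) (a (l 16781232) (l 16781480))) (l 16782064)) (a (a (l 16777488) (a (l 16777664) (l 16777816))) (l 16778152)))) (a (a (b (c (l 16780312) (l 16776672)) (c (l 16779536) (l 16775688))) (b (c (a (l 16780632) (l 16780880)) (a (l 16776856) (l 16777000))) (c (a (l 16779856) (l 16780088)) (a (l 16775872) (l 16776008))))) (a (a (c (b (l 16781096) (l 16780296)) (b (l 16777128) (l 16776120))) (a (a (c (b (l 16781232) (l 16780424))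 (b (l 16777200) (l 16776192))) (a (c (b (l 16781272) (l 16780464)) (b (l 16777224) (l 16776208))) (a (c (b (l 16781296) (l 16780480)) (b (l 16777240) (l 16776224))) (b (c (l 16781312) (l 16777248)) (c (l 16780496) (l 16776232)))))) (b (c (l 16781368) (l 16777280)) (c (l 16780552) (l 16776256))))) (b (c (l 16781648) (l 16777432)) (c (l 16780808) (l 16776400)))))), by decide +kernel⟩

def k71_A00pm_012_s1 : ∃ t, chk3 f_A00pm_012_s1 t 668 13 1 = true :=
  ⟨(b (c (b (b (l 16778624) (l 16777664)) (b (b (l 16776896) (l 16776280)) (b (a (l 16775584) (l 16775064)) (l 16773400)))) (b (b (l 16774576) (l 16773392)) (b (b (l 16772448) (l 16771728)) (b (a (l 16770952) (l 16770432)) (l 16771424))))) (b (b (c (l 16769704) (l 16765248)) (c (l 16764664) (l 16760384))) (b (c (l 16759496) (l 16755392)) (c (l 16754232) (l 16750288))))), by decide +kernel⟩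

def k72_A00pm_012_s1 : ∃ t, chk3 f_A00pm_012_s1 t 1338 13 1 = true :=
  ⟨(b (b (b (c (l 16778936) (l 16774752)) (c (l 16777960) (l 16773552))) (b (c (b (l 16777080) (l 16775840)) (b (l 16772512) (b (l 16771720) (l 16770816)))) (c (l 16772432) (l 16767944)))) (b (b (c (l 16767512) (l 16763216)) (c (l 16762456) (l 16758344))) (b (c (l 16757296) (l 16753352)) (c (l 16752048) (l 16748256))))), by decide +kernel⟩

def k73_A00pm_012_s1 : ∃ t, chk3 f_A00pm_012_s1 t 1339 13 1 = true :=
  ⟨(a (a (b (c (b (b (l 16779080) (l 16778104)) (b (b (l 16776984) (l 16774896)) (l 16771312))) (b (b (l 16774832) (l 16773632)) (b (b (l 16772392) (l 16770360)) (l 16766920)))) (b (b (c (l 16766392) (l 16762176)) (c (l 16761336) (l 16757304))) (b (c (l 16756176) (l 16752320)) (c (l 16750936) (l 16747240))))) (a (b (b (c (b (l 16779128) (l 16778144)) (b (l 16774864) (l 16773656))) (b (c (l 16775696) (b (l 16772216) (l 16770016))) (c (l 16770928) (l 16766568)))) (b (b (c (l 16766000) (l 16761824)) (c (l 16760944) (l 16756952)))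 (b (c (l 16755792) (l 16751968)) (c (l 16750560) (l 16746896))))) (a (b (b (c (b (l 16779152) (l 16778160)) (b (l 16774872) (l 16773672))) (b (c (l 16775504) (l 16770976)) (c (l 16770728) (l 16766384)))) (b (b (l 16769000) (c (l 16760744) (l 16756760))) (b (c (l 16755592) (l 16751784)) (c (l 16750360) (l 16746712))))) (b (b (c (b (l 16779160) (l 16778168)) (b (l 16774880) (l 16773672))) (b (c (l 16775360) (l 16770840)) (c (l 16770584) (l 16766248)))) (b (b (l 16768856) (c (l 16760600) (l 16756632))) (b (c (l 16755448) (l 16751656)) (c (l 16750224) (l 16746584)))))))) (b (b (b (b (l 16777344) (l 16776808)) (b (l 16776264) (c (l 16777624) (l 16773080)))) (b (c (l 16774640) (l 16770184)) (c (l 16769864) (l 16765600)))) (b (b (c (l 16764936) (l 16760856)) (c (l 16759880) (l 16755984))) (b (c (l 16754736) (l 16751008)) (c (l 16749528) (l 16745952)))))), by decide +kernel⟩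

def k74_A00pm_012_s1 : ∃ t, chk3 f_A00pm_012_s1 t 1340 13 1 = true :=
  ⟨(b (b (c (a (b (l 16779304) (b (c (l 16779280) (l 16777096)) (l 16776576))) (b (a (b (l 16779616) (c (l 16779832) (l 16777688))) (a (a (b (l 16779528) (l 16778096)) (b (b (l 16779696) (l 16778976)) (l 16777336))) (l 16778136))) (a (b (l 16777112) (l 16774832)) (b (l 16775552) (l 16773272))))) (a (b (l 16774952) (b (a (l 16773960) (l 16773672)) (l 16772128))) (b (a (b (l 16775280) (a (l 16774608) (l 16774336))) (a (a (b (l 16775192) (l 16773768)) (b (b (b (l 16775520) (l 16775280)) (l 16774664)) (l 16773096))) (l 16776496))) (a (b (l 16772752) (l 16770568)) (b (l 16776592) (l 16769168)))))) (a (b (c (l 16773080) (l 16768776)) (c (l 16768296) (l 16764176))) (b (b (a (l 16770456) (c (l 16770944) (l 16766936))) (a (l 16768144) (c (l 16768584) (l 16764664)))) (b (a (l 16765800) (c (l 16766184) (l 16762360))) (a (l 16763416) (c (l 16763760) (l 16760024))))))) (b (b (a (c (l 16763360) (l 16759432)) (a (c (l 16761632) (l 16757872))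 (c (b (l 16761304) (l 16758832)) (c (l 16757400) (l 16755528))))) (a (c (l 16758328) (l 16754568)) (c (a (l 16756616) (c (l 16758504) (l 16754256))) (a (l 16753032) (l 16762144))))) (b (a (c (l 16753200) (l 16749616)) (a (b (l 16751112) (l 16748592)) (c (b (l 16751288) (l 16748744)) (l 16746760)))) (a (c (l 16748016) (l 16744592)) (a (b (l 16746064) (l 16743512)) (c (b (l 16746184) (l 16743624)) (l 16741808))))))), by decide +kernel⟩

def k75_A00pm_012_s1 : ∃ t, chk3 f_A00pm_012_s1 t 1341 13 1 = true :=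
  ⟨(a (a (b (b (b (c (l 16778176) (b (l 16774904) (l 16772840))) (c (l 16773704) (l 16769616))) (b (c (l 16769048) (l 16765144)) (c (l 16764248) (l 16760536)))) (b (b (c (l 16759344) (l 16755816)) (c (l 16754360) (l 16751000))) (b (c (l 16749312) (l 16746120)) (c (l 16744216) (l 16741176))))) (a (b (b (b (c (l 16778224) (b (l 16774928) (l 16772864))) (c (l 16773736) (l 16769632))) (b (c (l 16769080) (l 16765160)) (c (l 16764280) (l 16760544)))) (b (b (c (l 16759368) (l 16755824)) (c (l 16754376) (l 16751000))) (b (c (l 16749320) (l 16746112)) (c (l 16744224) (l 16741168))))) (a (b (b (b (c (l 16778240) (b (l 16774944) (l 16772880))) (c (l 16773752) (l 16769640))) (b (c (l 16769096) (l 16765168)) (c (l 16764288) (l 16760552)))) (b (b (c (l 16759376) (l 16755824)) (c (l 16754384) (l 16751008))) (b (c (l 16749328) (l 16746112)) (c (l 16744224) (l 16741160))))) (b (b (b (c (l 16778256) (b (l 16774952) (l 16772880))) (c (l 16773768) (l 16769648))) (b (c (l 16769104) (l 16765176)) (c (l 16764296) (l 16760560))))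 (b (b (c (l 16759384) (l 16755824)) (c (l 16754392) (l 16751008))) (b (c (l 16749328) (l 16746112)) (c (l 16744224) (l 16741160)))))))) (b (b (b (c (l 16778320) (b (l 16774984) (l 16772920))) (c (l 16773824) (l 16769680))) (b (c (l 16769152) (l 16765200)) (c (l 16764336) (l 16760568)))) (b (b (c (l 16759416) (l 16755832)) (c (l 16754408) (l 16751008))) (b (c (l 16749344) (l 16746104)) (c (l 16744232) (l 16741144)))))), by decide +kernel⟩

def k76_A00pm_012_s1 : ∃ t, chk3 f_A00pm_012_s1 t 671 13 1 = true :=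
  ⟨(b (b (b (b (c (l 16779640) (l 16775136)) (l 16775304)) (c (l 16774072) (l 16769808))) (b (c (l 16769368) (l 16765296)) (c (l 16764520) (l 16760640)))) (b (b (c (l 16759560) (l 16755872)) (c (l 16754512) (l 16751016))) (b (c (l 16749408) (l 16746080)) (c (l 16744264) (l 16741088))))), by decide +kernel⟩

def k77_A00pm_012_s1 : ∃ t, chk3 f_A00pm_012_s1 t 21 12 1 = true :=
  ⟨(a (b (b (a (b (c (a (l 16785224) (l 16787712)) (a (l 16781712) (l 16783352))) (c (a (l 16785016) (l 16787416)) (a (l 16781328) (l 16782888)))) (b (c (l 16791592) (l 16785944)) (c (l 16791184) (l 16785384)))) (a (b (c (a (l 16784760) (l 16787056)) (a (l 16780880) (l 16782352))) (c (a (l 16784432) (l 16786624)) (a (l 16780360) (l 16781736)))) (b (c (l 16790664) (l 16784704)) (c (l 16790080) (l 16783952))))) (a (b (b (c (a (l 16784032) (l 16786112)) (a (l 16779744) (l 16781024))) (c (a (l 16783480) (l 16785464)) (a (l 16778992) (l 16780184)))) (b (a (c (l 16782760) (l 16778072)) (c (l 16784640) (l 16779176))) (a (c (l 16781864)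 (l 16776992)) (c (l 16783640) (l 16778000))))) (b (b (c (l 16789408) (l 16783112)) (a (l 16784512) (l 16786280))) (b (a (l 16783496) (l 16785176)) (l 16783088))))) (b (b (b (a (c (l 16797024) (l 16789656)) (l 16798152)) (a (l 16787488) (l 16797496))) (a (b (l 16791992) (l 16791136)) (b (l 16796648) (l 16795648)))) (b (a (b (l 16790192) (l 16789112)) (b (l 16794512) (l 16793248))) (a (b (l 16787864) (l 16786448)) (c (l 16795992) (l 16786112)))))), by decide +kernel⟩

def k78_A00pm_012_s1 : ∃ t, chk3 f_A00pm_012_s1 t 21 13 1 = true :=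
  ⟨(b (a (a (b (b (a (c (b (l 16780728) (l 16778616)) (b (l 16775760) (l 16773736))) (c (l 16781576) (l 16775880))) (a (c (l 16775104) (l 16770376)) (c (l 16776880) (l 16771400)))) (b (a (c (l 16770256) (l 16765744)) (l 16769200)) (a (c (l 16765264) (l 16760960)) (l 16764096)))) (b (b (a (l 16780312) (l 16781952)) (a (l 16775672) (l 16777312))) (b (a (l 16770512) (l 16771968)) (a (l 16765184) (l 16766416))))) (b (a (b (l 16784512) (l 16779992)) (b (l 16788272) (l 16783968))) (a (b (l 16774384) (l 16768536)) (b (l 16778064) (l 16771824))))) (a (a (b (b (a (c (l 16760152) (l 16756056)) (c (l 16761224) (l 16756464))) (c (a (l 16754960) (l 16755792)) (a (l 16751064) (l 16751256)))) (b (c (a (l 16749704) (l 16750288)) (l 16751208)) (c (a (l 16744408) (l 16744744)) (l 16740744)))) (b (b (c (l 16763080) (l 16757296)) (c (l 16757280) (l 16751768))) (b (c (l 16751408) (l 16746168)) (c (l 16745496) (l 16740504))))) (b (a (b (l 16762496) (l 16756368)) (b (l 16765376) (l 16758744))) (a (b (l 16750160) (l 16743904))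 (b (l 16752056) (l 16745312)))))), by decide +kernel⟩

def k79_A00pm_012_s1 : ∃ t, chk3 f_A00pm_012_s1 t 40 28 1 = true :=
  ⟨(a (b (b (a (c (l 16767232) (l 16764288)) (c (l 16766808) (l 16763488))) (a (c (l 16765552) (l 16762288)) (b (l 16763856) (l 16762912)))) (b (b (a (l 16762480) (c (l 16763672) (a (l 16760088) (l 16759592)))) (c (a (l 16763240) (a (l 16762704) (l 16761816))) (a (l 16759528) (a (b (l 16759192) (l 16758392)) (l 16757720))))) (a (a (b (c (l 16762288) (l 16758496)) (c (l 16760696) (b (l 16757360) (l 16756160)))) (b (c (l 16761752) (b (l 16758312) (l 16757368))) (l 16757440))) (c (b (l 16759880) (l 16757176)) (b (l 16755808) (l 16753096)))))) (b (b (a (b (l 16765208) (l 16764360)) (c (b (l 16766944) (a (l 16766136) (l 16765608))) (b (l 16762864) (a (l 16762008) (b (l 16761840) (l 16760864)))))) (a (b (c (l 16765328) (l 16761360)) (c (a (l 16764456) (l 16763840)) (a (l 16760424) (b (l 16760216) (l 16759136))))) (b (a (c (l 16764752) (b (l 16761048) (l 16760048))) (l 16761120)) (c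 (l 16761416) (l 16757168))))) (b (a (a (b (c (l 16762872) (b (l 16759328) (l 16758112))) (l 16758256)) (c (l 16760000) (l 16755816))) (c (l 16752136) (b (l 16754512) (l 16751808)))) (a (c (l 16750136) (b (l 16752592) (l 16749856))) (c (b (l 16753272) (l 16750504)) (b (l 16749080) (l 16746312))))))), by decide +kernel⟩

def k80_A00pm_012_s1 : ∃ t, chk3 f_A00pm_012_s1 t 40 29 1 = true :=
  ⟨(b (a (b (c (a (l 16750800) (b (l 16754448) (l 16751696))) (a (b (l 16753400) (l 16750656)) (b (l 16750360) (l 16747584)))) (c (a (b (l 16751928) (l 16749152)) (b (l 16748912) (l 16746104))) (a (b (l 16747880) (l 16745064)) (b (l 16744776) (l 16741928))))) (b (b (a (c (l 16751248) (l 16747088)) (c (l 16747704) (l 16743512))) (a (l 16746432) (c (l 16744888) (l 16740688)))) (a (c (b (l 16745640) (l 16742800)) (b (l 16741448) (l 16738576))) (c (b (l 16742048) (l 16739192)) (b (l 16737832) (l 16734952)))))) (a (b (a (c (b (l 16746344) (l 16743520)) (b (l 16742216) (l 16739336))) (c (b (l 16743264) (l 16740416)) (b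 (l 16739056) (l 16736160)))) (c (b (a (l 16740688) (l 16737560)) (a (l 16737832) (l 16734688))) (b (a (l 16736440) (l 16733240)) (a (l 16733512) (l 16730296))))) (b (c (a (b (l 16739944) (l 16737080)) (b (l 16736320) (l 16733440))) (a (b (l 16735688) (l 16732776)) (b (l 16732056) (l 16729136)))) (c (a (b (l 16734200) (l 16731320)) (b (l 16730560) (l 16727672))) (a (b (l 16729840) (l 16726896)) (b (l 16726200) (l 16723248))))))), by decide +kernel⟩

def k81_A00pm_012_s1 : ∃ t, chk3 f_A00pm_012_s1 t 82 14 1 = true :=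
  ⟨(b (b (a (b (b (a (c (l 16766408) (a (l 16762424) (l 16761760))) (l 16762472)) (c (l 16762952) (l 16758616))) (c (b (l 16760288) (l 16757592)) (b (l 16755992) (l 16753336)))) (b (c (b (l 16761128) (l 16758448)) (b (l 16756800) (l 16754176))) (c (b (l 16755744) (l 16753008)) (b (l 16751520) (l 16748832))))) (b (a (c (b (l 16754864) (l 16752112)) (b (l 16750640) (l 16747912))) (c (b (l 16750256) (l 16747488)) (b (l 16746112) (l 16743376)))) (a (c (b (l 16749336) (l 16746536)) (b (l 16745152) (l 16742368))) (c (b (l 16744696) (l 16741888)) (b (l 16740608) (l 16737816)))))) (b (b (a (c (b (l 16743720) (l 16740888)) (b (l 16739552) (l 16736720))) (c (b (l 16739072) (l 16736232)) (b (l 16735000) (l 16732168)))) (a (c (b (l 16738040) (l 16735168)) (b (l 16733856) (l 16730968))) (c (b (l 16733392) (l 16730528)) (b (l 16729320) (l 16726448))))) (b (c (a (b (l 16732296) (l 16729416)) (c (b (l 16728608) (l 16725760)) (b (l 16726688) (l 16723816)))) (a (b (l 16728064) (l 16725152)) (b (l 16723552) (l 16720656))))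 (c (a (b (l 16726536) (l 16723656)) (c (b (l 16722912) (l 16720064)) (b (l 16720952) (l 16718072)))) (a (b (l 16722224) (l 16719280)) (c (l 16717400) (l 16715152))))))), by decide +kernel⟩

def k82_A00pm_012_s1 : ∃ t, chk3 f_A00pm_012_s1 t 166 28 1 = true :=
  ⟨(b (b (a (c (l 16755720) (l 16751536)) (c (l 16752192) (l 16748184))) (c (a (l 16750280) (b (l 16748120) (l 16745392))) (a (l 16746208) (l 16742864)))) (b (c (a (l 16744760) (c (l 16742152) (l 16740360))) (a (l 16740768) (l 16737456))) (c (a (c (l 16740096) (l 16738256)) (c (l 16736600) (l 16734840))) (a (l 16735248) (l 16731976))))), by decide +kernel⟩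

def k83_A00pm_012_s1 : ∃ t, chk3 f_A00pm_012_s1 t 167 28 1 = true :=
  ⟨(b (a (a (b (c (l 16748888) (l 16745080)) (c (l 16743488) (l 16739792))) (a (b (c (l 16746728) (l 16743080)) (c (l 16741360) (l 16737832))) (a (a (b (c (l 16745640) (l 16742080)) (c (l 16740296) (l 16736856))) (a (b (c (l 16745264) (l 16741744)) (c (l 16739936) (l 16736520))) (a (b (c (l 16745072) (l 16741568)) (c (l 16739744) (l 16736344))) (b (c (l 16744936) (l 16741440)) (c (l 16739608) (l 16736224)))))) (b (c (l 16744256) (l 16740824)) (c (l 16738944) (l 16735624)))))) (a (a (b (a (c (l 16742784) (l 16739496)) (a (b (l 16740952) (l 16738384)) (c (b (l 16741048) (l 16738472)) (l 16736792)))) (a (c (l 16737520) (l 16734336)) (c (a (l 16735968) (c (l 16737872) (l 16733920))) (a (l 16732952) (l 16731728))))) (a (a (c (b (l 16739088) (l 16733944)) (b (l 16736176) (l 16731128))) (a (c (b (l 16739088) (l 16733936)) (b (l 16736168) (l 16731112))) (a (c (b (l 16739088) (l 16733936)) (b (l 16736160) (l 16731104))) (c (b (l 16739088)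 (l 16733928)) (b (l 16736152) (l 16731096)))))) (c (b (l 16739088) (l 16733920)) (b (l 16736136) (l 16731072))))) (c (b (l 16739080) (l 16733880)) (b (l 16736040) (l 16730952))))) (c (a (b (a (l 16738040) (a (l 16735960) (l 16734112))) (a (c (l 16733376) (l 16731728)) (a (l 16730536) (l 16728744)))) (b (a (a (a (l 16732232) (a (l 16730736) (b (l 16730712) (l 16728120)))) (l 16728760)) (l 16728664)) (a (a (a (l 16726928) (a (l 16725496) (c (l 16724840) (l 16723584)))) (l 16723584)) (l 16723448)))) (b (a (a (l 16734432) (l 16731560)) (a (a (a (l 16729120) (a (l 16727784) (l 16726608))) (l 16725992)) (l 16725808))) (a (a (l 16729016) (l 16726216)) (a (a (a (l 16723864) (a (l 16722584) (l 16721456))) (l 16720848)) (l 16720640)))))), by decide +kernel⟩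

def k84_A00pm_012_s1 : ∃ t, chk3 f_A00pm_012_s1 t 83 29 1 = true :=
  ⟨(a (a (b (b (c (c (l 16734472) (l 16732640)) (l 16729656)) (c (c (l 16728816) (l 16726984)) (l 16723992))) (b (c (b (l 16723656) (l 16720824)) (l 16718272)) (c (b (l 16717992) (l 16715168)) (l 16712512)))) (b (b (c (c (l 16731024) (l 16729288)) (l 16726432)) (c (b (l 16725976) (l 16723168)) (l 16720832))) (b (c (b (l 16720368) (l 16717568)) (l 16715176)) (c (b (l 16714784) (l 16712000)) (l 16709496))))) (b (c (a (b (a (c (l 16727872) (l 16726232)) (a (l 16725096) (l 16723360))) (a (c (l 16722352) (l 16720712)) (a (l 16719640) (l 16723208)))) (b (a (a (a (l 16721616) (a (l 16720240) (c (l 16719648) (l 16718392)))) (l 16718408)) (l 16718232)) (a (a (a (l 16716288) (c (a (l 16715632) (l 16714456)) (l 16719000))) (l 16713224)) (l 16713016)))) (b (a (a (l 16723536) (l 16720832)) (a (a (a (l 16718560) (l 16727296)) (l 16715672)) (l 16715424))) (a (a (l 16718000) (l 16715392)) (a (a (a (l 16713216) (l 16711552)) (l 16710456)) (l 16710176)))))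 (c (a (b (a (c (l 16716840) (l 16715184)) (a (l 16714184) (l 16712576))) (a (c (l 16711384) (l 16709672)) (a (l 16708768) (l 16707232)))) (b (a (a (a (l 16710984) (a (l 16709744) (l 16713896))) (l 16708056)) (l 16707816)) (a (a (a (l 16705712) (a (l 16704536) (l 16703512))) (l 16702928)) (l 16702656)))) (b (a (a (l 16712432) (l 16709912)) (c (b (l 16719184) (l 16716520)) (l 16716168))) (a (l 16715888) (a (b (l 16713224) (l 16710544)) (l 16699616))))))), by decide +kernel⟩

def k85_A00pm_012_s1 : ∃ t, chk3 f_A00pm_012_s1 t 21 14 1 = true :=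
  ⟨(b (a (b (a (b (c (a (l 16739080) (l 16739176)) (l 16735464)) (c (a (l 16733728) (l 16733600)) (l 16730152))) (c (b (l 16739560) (l 16733624)) (b (l 16734808) (l 16729080)))) (b (a (c (a (l 16728384) (l 16728024)) (l 16724800)) (c (l 16727696) (l 16723336))) (a (c (a (l 16723032) (l 16722456)) (l 16719416)) (a (l 16725296) (l 16719464))))) (b (b (a (l 16742864) (l 16738544)) (c (a (l 16734112) (l 16735128)) (l 16728312))) (a (b (a (l 16725144) (l 16725000)) (l 16724024)) (b (l 16725016) (l 16718288))))) (a (c (b (b (a (a (l 16717688) (l 16716896)) (l 16715904)) (a (a (l 16712344) (l 16711352)) (l 16710048))) (b (a (c (l 16712400) (l 16705648)) (l 16704248)) (a (c (l 16701824) (l 16700264)) (l 16698528)))) (b (b (a (l 16714000) (l 16711784)) (a (l 16708568) (l 16705992))) (b (a (l 16703112) (l 16700208)) (a (l 16697656) (l 16694440))))) (b (b (c (a (l 16714984) (l 16714528)) (l 16709176)) (c (a (l 16708696) (l 16707784)) (l 16702816))) (a (c (b (l 16702472) (l 16696360)) (l 16705088)) (b (l 16698360)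 (l 16691864)))))), by decide +kernel⟩

def k86_A00pm_012_s1 : ∃ t, chk3 f_A00pm_012_s1 t 40 30 1 = true :=
  ⟨(b (c (a (b (b (a (l 16734960) (l 16731800)) (a (l 16732072) (l 16728896))) (b (a (l 16729168) (l 16725976)) (a (l 16726240) (l 16723040)))) (b (a (b (l 16728416) (l 16725512)) (b (l 16724768) (l 16721864))) (a (b (l 16722584) (l 16719648)) (b (l 16718944) (l 16716008))))) (b (a (b (a (l 16730560) (l 16727336)) (a (l 16727584) (l 16724344))) (a (b (l 16723920) (l 16720928)) (b (l 16720272) (l 16717280)))) (a (b (a (l 16724576) (l 16721328)) (a (l 16721544) (l 16718288))) (a (b (l 16717912) (l 16714864)) (b (l 16714272) (l 16711240)))))) (a (b (c (b (a (l 16723288) (l 16720080)) (a (l 16720304) (l 16717096))) (b (a (l 16718480) (l 16715216)) (a (l 16715376) (l 16712120)))) (c (b (a (l 16717304) (l 16714096)) (a (l 16714272) (l 16711056))) (b (a (l 16712240) (l 16708984)) (a (l 16709072) (l 16705816))))) (b (c (b (a (l 16716688) (l 16713056)) (a (l 16713704) (l 16710088))) (a (b (l 16711800)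 (l 16708704)) (b (l 16708176) (l 16705096)))) (c (b (a (l 16710704) (l 16707104)) (a (l 16707680) (l 16704096))) (a (b (l 16705576) (l 16702416)) (b (l 16701984) (l 16698840))))))), by decide +kernel⟩

def k87_A00pm_012_s1 : ∃ t, chk3 f_A00pm_012_s1 t 41 30 1 = true :=
  ⟨(b (a (b (c (a (b (l 16720760) (l 16717864)) (b (c (l 16717216) (l 16715192)) (l 16718600))) (a (b (l 16716320) (l 16713344)) (l 16715672))) (b (c (a (l 16714960) (l 16715728)) (a (l 16710344) (l 16705992))) (c (a (l 16712048) (l 16712848)) (a (l 16707328) (l 16703008))))) (a (b (c (c (a (l 16717144) (l 16713992)) (a (l 16709936) (l 16706872))) (a (l 16706720) (l 16703792))) (c (c (a (l 16706288) (l 16703232)) (a (l 16704232) (l 16701256))) (a (l 16700880) (l 16698032)))) (c (c (b (a (a (l 16705952) (l 16703368)) (a (a (a (l 16701232) (a (l 16700096) (l 16699104))) (l 16698528)) (l 16698240))) (a (a (l 16700528) (l 16698064)) (a (a (a (l 16696040) (l 16705000)) (l 16693496)) (l 16693176)))) (b (a (l 16713176) (a (a (a (l 16699656)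 (l 16698120)) (l 16697096)) (l 16696776))) (a (l 16697248) (b (l 16704920) (l 16702280))))) (b (a (l 16699848) (b (l 16707632) (l 16694440))) (a (l 16694256) (b (l 16691728) (l 16689008))))))) (a (b (c (a (b (l 16709120) (l 16706176)) (b (l 16704720) (l 16701816))) (a (l 16708008) (l 16708992))) (c (a (b (l 16703208) (l 16700232)) (b (l 16698896) (l 16695960))) (a (l 16707080) (l 16692408)))) (a (b (c (c (a (l 16700648) (l 16697696)) (l 16702184)) (l 16703976)) (c (a (l 16704328) (l 16691032)) (l 16698032))) (c (b (a (a (l 16694112) (l 16691824)) (a (a (a (l 16689952) (c (l 16689416) (l 16687688))) (l 16687624)) (l 16687264))) (a (a (l 16688584) (l 16686408)) (a (a (a (l 16684648) (l 16683360)) (l 16682464)) (l 16682088)))) (b (a (l 16688592) (a (l 16695640) (l 16683560))) (a (l 16682848) (l 16689808))))))), by decide +kernel⟩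

def k88_A00pm_012_s1 : ∃ t, chk3 f_A00pm_012_s1 t 20 31 1 = true :=
  ⟨(a (b (b (a (c (b (a (l 16711208) (l 16708000)) (a (l 16708112) (l 16704904))) (b (a (l 16705864) (l 16702616)) (a (l 16702616) (l 16699368)))) (c (b (a (l 16704632) (l 16701064)) (a (l 16701552) (l 16698000))) (b (a (l 16699224) (l 16695664)) (l 16704680)))) (a (c (b (a (l 16704976) (l 16701784)) (a (l 16701808) (l 16698624))) (b (l 16708184) (l 16704856))) (c (b (a (l 16698440) (l 16694912)) (l 16704008)) (b (l 16690944) (l 16687648))))) (b (a (c (b (l 16697000) (l 16693752)) (b (l 16690992) (l 16687568))) (c (b (l 16690352) (l 16687160)) (b (l 16684312) (l 16680936)))) (a (b (c (l 16690456) (l 16684088)) (c (l 16687096) (l 16680552))) (b (c (l 16683920) (l 16677504)) (c (l 16680632) (l 16674024)))))) (c (a (b (b (a (b (l 16697232) (l 16694200)) (b (l 16693008) (l 16690024))) (a (b (l 16691152) (l 16688064)) (l 16696008))) (b (a (l 16683384) (l 16679400)) (b (l 16676600) (l 16673416)))) (b (a (b (b (l 16688032) (l 16685136))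 (b (l 16682216) (l 16679280))) (b (a (l 16692264) (b (l 16689968) (l 16687288))) (a (l 16676176) (b (l 16674096) (l 16671368))))) (b (a (l 16674816) (a (l 16670464) (l 16688192))) (a (l 16668744) (a (l 16664624) (l 16661576)))))) (a (b (b (a (l 16690296) (l 16686208)) (a (l 16683872) (l 16679872))) (b (a (l 16677288) (l 16673400)) (a (l 16670544) (l 16666752)))) (b (b (a (l 16681488) (a (l 16677008) (l 16684136))) (a (l 16675312) (a (l 16671040) (l 16667864)))) (b (a (l 16669000) (a (l 16664936) (l 16661936))) (a (l 16662520) (a (l 16658664) (l 16655840)))))))), by decide +kernel⟩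

def k89_A00pm_012_s1 : ∃ t, chk3 f_A00pm_012_s1 t 21 15 1 = true :=
  ⟨(b (a (b (b (c (a (c (l 16696552) (l 16694920)) (l 16692872)) (a (l 16692200) (l 16688688))) (c (a (l 16695704) (l 16687264)) (a (l 16686712) (l 16682920)))) (b (c (a (l 16685176) (l 16681680)) (l 16689592)) (c (a (l 16679856) (l 16676096)) (l 16673384)))) (b (a (c (b (l 16690328) (l 16684376)) (l 16692944)) (b (l 16685448) (l 16679104))) (b (c (l 16687456) (l 16671560)) (c (l 16681424) (l 16665352))))) (b (a (a (b (a (l 16673352) (l 16671184)) (l 16677120)) (b (l 16678512) (l 16662208))) (b (c (l 16664928) (l 16659104)) (c (l 16658912) (l 16652808)))) (b (a (c (l 16682248) (l 16655688)) (c (l 16652864) (l 16646440))) (a (c (l 16676528) (l 16649536)) (c (l 16646760) (l 16639968)))))), by decide +kernel⟩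

def k90_A00pm_012_s1 : ∃ t, chk3 f_A00pm_012_s1 t 11 6 1 = true :=
  ⟨(b (a (b (b (a (b (a (l 16803264) (l 16808664)) (a (l 16802544) (l 16807888))) (b (a (l 16814360) (l 16820360)) (l 16816448))) (a (b (a (l 16801632) (l 16806920)) (l 16803056)) (b (l 16815400) (l 16814160)))) (b (a (b (l 16801752) (l 16800248)) (b (l 16812704) (l 16810960))) (a (c (l 16803776) (b (l 16792368) (l 16790464))) (c (l 16815832) (b (l 16801152) (l 16798944)))))) (b (b (a (b (a (l 16826648) (l 16833416)) (l 16828936)) (b (l 16834024) (l 16843168))) (a (b (l 16827856) (l 16826528)) (b (l 16841664) (l 16840176)))) (b (a (l 16824104) (l 16837712)) (a (a (l 16795800) (l 16823176)) (c (l 16844896) (l 16821984)))))) (b (a (c (b (a (b (l 16800752) (l 16796888)) (b (l 16812264) (l 16808872))) (a (l 16786976) (l 16798640))) (b (a (b (l 16788344) (a (l 16782704) (l 16786712))) (b (l 16796504) (a (l 16791032) (l 16795696)))) (a (b (l 16778520) (l 16772032)) (b (l 16787120) (l 16780048))))) (c (b (a (b (l 16825656) (l 16822480))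 (l 16839208)) (a (b (l 16816552) (l 16808320)) (b (l 16832688) (l 16824184)))) (b (a (b (l 16806416) (a (l 16790240) (l 16806152))) (b (l 16817968) (c (l 16820544) (l 16809264)))) (a (b (a (l 16794896) (l 16800728)) (l 16790088)) (a (b (l 16807024) (l 16799016)) (b (a (l 16812000) (l 16815392)) (l 16805656))))))) (a (a (a (b (l 16765304) (b (l 16754536) (l 16747296))) (b (c (l 16774824) (l 16763312)) (l 16753840))) (b (c (l 16782736) (b (l 16772632) (l 16764904))) (a (l 16757264) (l 16761344)))) (b (a (c (l 16795216) (b (l 16782056) (l 16773680))) (c (l 16810032) (b (l 16793624) (l 16784608)))) (a (a (l 16766032) (l 16771248)) (b (l 16785104) (l 16775064))))))), by decide +kernel⟩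

def k91_A00pm_012_s1 : ∃ t, chk3 f_A00pm_012_s1 t 11 14 1 = true :=
  ⟨(b (a (a (b (b (c (l 16745472) (l 16736392)) (c (l 16737720) (l 16729072))) (c (b (l 16730000) (l 16722352)) (b (l 16721768) (l 16714488)))) (b (b (l 16746416) (l 16737744)) (b (l 16729176) (l 16720664)))) (b (a (b (l 16754320) (l 16744680)) (c (l 16768424) (l 16750584))) (a (b (l 16735040) (l 16725312)) (b (l 16743464) (l 16732688))))) (a (c (b (a (b (l 16714776) (l 16707288)) (b (l 16717088) (l 16708528))) (a (b (l 16699928) (l 16692704)) (b (l 16700120) (l 16691904)))) (b (a (b (l 16707248) (l 16700056)) (l 16703208)) (a (b (l 16692936) (l 16685888)) (b (l 16691136) (l 16683224))))) (b (a (b (l 16715752) (l 16706312)) (b (l 16721984) (l 16711256))) (a (c (b (l 16702584) (l 16693248)) (l 16686896)) (c (b (l 16707608) (l 16697032)) (l 16688856)))))), by decide +kernel⟩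

def k92_A00pm_012_s1 : ∃ t, chk3 f_A00pm_012_s1 t 11 15 1 = true :=
  ⟨(b (a (b (a (c (b (l 16685640) (l 16678704)) (b (l 16678928) (l 16672032))) (c (b (l 16683880) (l 16676024)) (b (l 16675448) (l 16667768)))) (b (a (c (l 16671880) (l 16665192)) (c (l 16668344) (l 16660192))) (a (c (l 16665160) (l 16658392)) (c (l 16660808) (l 16652704))))) (b (b (c (a (l 16684144) (l 16686720)) (a (l 16673752) (l 16674112))) (c (a (l 16675264) (l 16676680)) (a (l 16665184) (l 16664536)))) (a (c (b (l 16666592) (l 16658120)) (b (l 16656768) (l 16648480))) (c (b (l 16666896) (c (l 16660136) (l 16654552))) (b (l 16655152) (l 16645936)))))) (b (a (b (a (c (l 16658512) (l 16651608)) (c (l 16653408) (l 16645272))) (a (c (l 16651912) (l 16644816)) (c (l 16646104) (l 16637888)))) (a (c (b (l 16649840) (l 16641720)) (b (l 16640296) (l 16632216))) (a (b (l 16653536) (l 16644784)) (b (a (l 16642392) (l 16652584)) (l 6))))) (a (a (b (l 16652232) (l 16656000)) (b (c (l 16638896) (l 16630536)) (c (l 16631744) (l 16623184))))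 (a (b (c (l 16633744) (l 16624216)) (c (l 16625888) (l 16616272))) (a (b (l 16625704) (l 6)) (l 6)))))), by decide +kernel⟩

def k93_A00pm_012_s1 : ∃ t, chk3 f_A00pm_012_s1 t 3 2 1 = true :=
  ⟨(a (b (l 2) (b (l 2) (a (a (b (l 2) (a (b (l 2) (a (l 16859760) (l 2))) (l 2))) (l 2)) (l 2)))) (l 2)), by decide +kernel⟩

def k94_A00pm_012_s1 : ∃ t, chk3 f_A00pm_012_s1 t 3 6 1 = true :=
  ⟨(a (b (a (a (b (b (a (b (l 16861552) (l 16859664)) (a (l 16874608) (l 2))) (a (b (l 16857520) (l 16855712)) (l 16853928))) (b (a (l 16852728) (l 16870040)) (a (l 16848320) (l 16864760)))) (b (a (b (l 2) (l 16895304)) (l 2)) (b (a (l 16889768) (l 16911976)) (a (l 16883672) (l 16905176))))) (a (b (l 2) (b (l 2) (l 16899568))) (l 2))) (a (a (b (b (a (c (l 16855984) (b (l 16831000) (l 16827896))) (c (l 16874288) (l 16844032))) (a (c (b (l 16850200) (l 16842272)) (a (b (a (l 16797864) (l 16822344)) (l 16812816)) (b (l 16827672) (l 16820480)))) (c (l 16844592) (b (l 16838872) (l 16832776))))) (b (a (c (l 16827336) (b (l 16807448)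 (l 16797848))) (b (l 16795840) (l 16827296))) (a (b (l 16799440) (l 16788640)) (c (l 16824056) (l 16797232))))) (b (b (a (l 16877080) (l 16897736)) (a (c (l 16886280) (b (l 16855104) (l 16850184))) (c (l 16908528) (l 16870736)))) (b (a (c (l 16868744) (l 16836136)) (l 16874144)) (a (c (l 16844904) (l 16814088)) (l 16850648))))) (a (a (b (b (l 16921168) (l 16912392)) (b (l 16855952) (l 6))) (l 6)) (l 6)))) (l 6)), by decide +kernel⟩

def k95_A00pm_012_s1 : ∃ t, chk3 f_A00pm_012_s1 t 3 7 1 = true :=
  ⟨(a (b (a (b (a (b (a (c (l 16782512) (l 16761240)) (c (l 16799240) (l 16774312))) (a (l 16748688) (l 16761784))) (b (a (l 16804336) (l 16824416)) (a (l 16777560) (l 6)))) (a (b (a (b (l 16730896) (l 16719040)) (b (l 16742592) (l 16729672))) (a (c (b (l 16715576) (l 16703560)) (l 16693488)) (c (b (l 16726480) (l 16713184)) (l 16700656)))) (b (a (b (l 16756896) (l 16742944)) (l 6)) (l 6)))) (l 6)) (a (a (a (b (b (c (b (l 16691928) (l 16680584)) (b (l 16676832) (l 16666112))) (c (b (l 16669544) (c (l 16662104)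 (l 16655488))) (b (l 16655616) (l 16645360)))) (l 6)) (a (b (b (b (l 16689224) (l 6)) (l 6)) (l 6)) (l 6))) (l 6)) (l 6))) (l 6)), by decide +kernel⟩

theorem t96_A00pm_012_s1 : ∃ t, chk3 f_A00pm_012_s1 t 3 3 1 = true := ex3_b k94_A00pm_012_s1 k95_A00pm_012_s1

theorem t97_A00pm_012_s1 : ∃ t, chk3 f_A00pm_012_s1 t 3 1 1 = true := ex3_b k93_A00pm_012_s1 t96_A00pm_012_s1

theorem t98_A00pm_012_s1 : ∃ t, chk3 f_A00pm_012_s1 t 11 7 1 = true := ex3_b k91_A00pm_012_s1 k92_A00pm_012_s1

theorem t99_A00pm_012_s1 : ∃ t, chk3 f_A00pm_012_s1 t 11 3 1 = true := ex3_b k90_A00pm_012_s1 t98_A00pm_012_s1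

theorem t100_A00pm_012_s1 : ∃ t, chk3 f_A00pm_012_s1 t 20 30 1 = true := ex3_a k86_A00pm_012_s1 k87_A00pm_012_s1

theorem t101_A00pm_012_s1 : ∃ t, chk3 f_A00pm_012_s1 t 20 15 1 = true := ex3_b t100_A00pm_012_s1 k88_A00pm_012_s1

theorem t102_A00pm_012_s1 : ∃ t, chk3 f_A00pm_012_s1 t 10 15 1 = true := ex3_a t101_A00pm_012_s1 k89_A00pm_012_s1

theorem t103_A00pm_012_s1 : ∃ t, chk3 f_A00pm_012_s1 t 83 28 1 = true := ex3_a k82_A00pm_012_s1 k83_A00pm_012_s1

theorem t104_A00pm_012_s1 : ∃ t, chk3 f_A00pm_012_s1 t 83 14 1 = true := ex3_b t103_A00pm_012_s1 k84_A00pm_012_s1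

theorem t105_A00pm_012_s1 : ∃ t, chk3 f_A00pm_012_s1 t 41 14 1 = true := ex3_a k81_A00pm_012_s1 t104_A00pm_012_s1

theorem t106_A00pm_012_s1 : ∃ t, chk3 f_A00pm_012_s1 t 40 14 1 = true := ex3_b k79_A00pm_012_s1 k80_A00pm_012_s1

theorem t107_A00pm_012_s1 : ∃ t, chk3 f_A00pm_012_s1 t 20 14 1 = true := ex3_a t106_A00pm_012_s1 t105_A00pm_012_s1

theorem t108_A00pm_012_s1 : ∃ t, chk3 f_A00pm_012_s1 t 10 14 1 = true := ex3_a t107_A00pm_012_s1 k85_A00pm_012_s1

theorem t109_A00pm_012_s1 : ∃ t, chk3 f_A00pm_012_s1 t 10 7 1 = true := ex3_b t108_A00pm_012_s1 t102_A00pm_012_s1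

theorem t110_A00pm_012_s1 : ∃ t, chk3 f_A00pm_012_s1 t 21 6 1 = true := ex3_b k77_A00pm_012_s1 k78_A00pm_012_s1

theorem t111_A00pm_012_s1 : ∃ t, chk3 f_A00pm_012_s1 t 670 13 1 = true := ex3_a k74_A00pm_012_s1 k75_A00pm_012_s1

theorem t112_A00pm_012_s1 : ∃ t, chk3 f_A00pm_012_s1 t 335 13 1 = true := ex3_a t111_A00pm_012_s1 k76_A00pm_012_s1

theorem t113_A00pm_012_s1 : ∃ t, chk3 f_A00pm_012_s1 t 669 13 1 = true := ex3_a k72_A00pm_012_s1 k73_A00pm_012_s1

theorem t114_A00pm_012_s1 : ∃ t, chk3 f_A00pm_012_s1 t 334 13 1 = true := ex3_a k71_A00pm_012_s1 t113_A00pm_012_s1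

theorem t115_A00pm_012_s1 : ∃ t, chk3 f_A00pm_012_s1 t 167 13 1 = true := ex3_a t114_A00pm_012_s1 t112_A00pm_012_s1

theorem t116_A00pm_012_s1 : ∃ t, chk3 f_A00pm_012_s1 t 167 24 1 = true := ex3_b k68_A00pm_012_s1 k69_A00pm_012_s1

theorem t117_A00pm_012_s1 : ∃ t, chk3 f_A00pm_012_s1 t 167 12 1 = true := ex3_b t116_A00pm_012_s1 k70_A00pm_012_s1

theorem t118_A00pm_012_s1 : ∃ t, chk3 f_A00pm_012_s1 t 167 6 1 = true := ex3_b t117_A00pm_012_s1 t115_A00pm_012_s1

theorem t119_A00pm_012_s1 : ∃ t, chk3 f_A00pm_012_s1 t 166 6 1 = true := ex3_b k66_A00pm_012_s1 k67_A00pm_012_s1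

theorem t120_A00pm_012_s1 : ∃ t, chk3 f_A00pm_012_s1 t 83 6 1 = true := ex3_a t119_A00pm_012_s1 t118_A00pm_012_s1

theorem t121_A00pm_012_s1 : ∃ t, chk3 f_A00pm_012_s1 t 82 6 1 = true := ex3_b k64_A00pm_012_s1 k65_A00pm_012_s1

theorem t122_A00pm_012_s1 : ∃ t, chk3 f_A00pm_012_s1 t 41 6 1 = true := ex3_a t121_A00pm_012_s1 t120_A00pm_012_s1

theorem t123_A00pm_012_s1 : ∃ t, chk3 f_A00pm_012_s1 t 40 6 1 = true := ex3_b k62_A00pm_012_s1 k63_A00pm_012_s1

theorem t124_A00pm_012_s1 : ∃ t, chk3 f_A00pm_012_s1 t 20 6 1 = true := ex3_a t123_A00pm_012_s1 t122_A00pm_012_s1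

theorem t125_A00pm_012_s1 : ∃ t, chk3 f_A00pm_012_s1 t 10 6 1 = true := ex3_a t124_A00pm_012_s1 t110_A00pm_012_s1

theorem t126_A00pm_012_s1 : ∃ t, chk3 f_A00pm_012_s1 t 10 3 1 = true := ex3_b t125_A00pm_012_s1 t109_A00pm_012_s1

theorem t127_A00pm_012_s1 : ∃ t, chk3 f_A00pm_012_s1 t 5 3 1 = true := ex3_a t126_A00pm_012_s1 t99_A00pm_012_s1

theorem t128_A00pm_012_s1 : ∃ t, chk3 f_A00pm_012_s1 t 11 5 1 = true := ex3_b k60_A00pm_012_s1 k61_A00pm_012_s1

theorem t129_A00pm_012_s1 : ∃ t, chk3 f_A00pm_012_s1 t 11 2 1 = true := ex3_b k59_A00pm_012_s1 t128_A00pm_012_s1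

theorem t130_A00pm_012_s1 : ∃ t, chk3 f_A00pm_012_s1 t 21 11 1 = true := ex3_a k57_A00pm_012_s1 k58_A00pm_012_s1

theorem t131_A00pm_012_s1 : ∃ t, chk3 f_A00pm_012_s1 t 42 21 1 = true := ex3_a k54_A00pm_012_s1 k55_A00pm_012_s1

theorem t132_A00pm_012_s1 : ∃ t, chk3 f_A00pm_012_s1 t 42 10 1 = true := ex3_b k53_A00pm_012_s1 t131_A00pm_012_s1

theorem t133_A00pm_012_s1 : ∃ t, chk3 f_A00pm_012_s1 t 21 10 1 = true := ex3_a t132_A00pm_012_s1 k56_A00pm_012_s1

theorem t134_A00pm_012_s1 : ∃ t, chk3 f_A00pm_012_s1 t 21 5 1 = true := ex3_b t133_A00pm_012_s1 t130_A00pm_012_s1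

theorem t135_A00pm_012_s1 : ∃ t, chk3 f_A00pm_012_s1 t 167 95 1 = true := ex3_c k51_A00pm_012_s1 k52_A00pm_012_s1

theorem t136_A00pm_012_s1 : ∃ t, chk3 f_A00pm_012_s1 t 167 94 2 = true := ex3_b k48_A00pm_012_s1 k49_A00pm_012_s1

theorem t137_A00pm_012_s1 : ∃ t, chk3 f_A00pm_012_s1 t 167 94 1 = true := ex3_c t136_A00pm_012_s1 k50_A00pm_012_s1

theorem t138_A00pm_012_s1 : ∃ t, chk3 f_A00pm_012_s1 t 167 47 1 = true := ex3_b t137_A00pm_012_s1 t135_A00pm_012_s1

theorem t139_A00pm_012_s1 : ∃ t, chk3 f_A00pm_012_s1 t 83 47 1 = true := ex3_a k47_A00pm_012_s1 t138_A00pm_012_s1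

theorem t140_A00pm_012_s1 : ∃ t, chk3 f_A00pm_012_s1 t 83 23 1 = true := ex3_b k46_A00pm_012_s1 t139_A00pm_012_s1

theorem t141_A00pm_012_s1 : ∃ t, chk3 f_A00pm_012_s1 t 83 44 1 = true := ex3_a k43_A00pm_012_s1 k44_A00pm_012_s1

theorem t142_A00pm_012_s1 : ∃ t, chk3 f_A00pm_012_s1 t 83 22 1 = true := ex3_b t141_A00pm_012_s1 k45_A00pm_012_s1

theorem t143_A00pm_012_s1 : ∃ t, chk3 f_A00pm_012_s1 t 83 11 1 = true := ex3_b t142_A00pm_012_s1 t140_A00pm_012_s1

theorem t144_A00pm_012_s1 : ∃ t, chk3 f_A00pm_012_s1 t 41 11 1 = true := ex3_a k42_A00pm_012_s1 t143_A00pm_012_s1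

theorem t145_A00pm_012_s1 : ∃ t, chk3 f_A00pm_012_s1 t 20 11 1 = true := ex3_a k41_A00pm_012_s1 t144_A00pm_012_s1

theorem t146_A00pm_012_s1 : ∃ t, chk3 f_A00pm_012_s1 t 332 43 1 = true := ex3_a k37_A00pm_012_s1 k38_A00pm_012_s1

theorem t147_A00pm_012_s1 : ∃ t, chk3 f_A00pm_012_s1 t 166 43 1 = true := ex3_a t146_A00pm_012_s1 k39_A00pm_012_s1

theorem t148_A00pm_012_s1 : ∃ t, chk3 f_A00pm_012_s1 t 83 43 1 = true := ex3_a t147_A00pm_012_s1 k40_A00pm_012_s1

theorem t149_A00pm_012_s1 : ∃ t, chk3 f_A00pm_012_s1 t 167 42 1 = true := ex3_b k35_A00pm_012_s1 k36_A00pm_012_s1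

theorem t150_A00pm_012_s1 : ∃ t, chk3 f_A00pm_012_s1 t 83 42 1 = true := ex3_a k34_A00pm_012_s1 t149_A00pm_012_s1

theorem t151_A00pm_012_s1 : ∃ t, chk3 f_A00pm_012_s1 t 83 21 1 = true := ex3_b t150_A00pm_012_s1 t148_A00pm_012_s1

theorem t152_A00pm_012_s1 : ∃ t, chk3 f_A00pm_012_s1 t 41 21 1 = true := ex3_a k33_A00pm_012_s1 t151_A00pm_012_s1

theorem t153_A00pm_012_s1 : ∃ t, chk3 f_A00pm_012_s1 t 41 10 1 = true := ex3_b k32_A00pm_012_s1 t152_A00pm_012_s1

theorem t154_A00pm_012_s1 : ∃ t, chk3 f_A00pm_012_s1 t 20 10 1 = true := ex3_a k31_A00pm_012_s1 t153_A00pm_012_s1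

theorem t155_A00pm_012_s1 : ∃ t, chk3 f_A00pm_012_s1 t 20 5 1 = true := ex3_b t154_A00pm_012_s1 t145_A00pm_012_s1

theorem t156_A00pm_012_s1 : ∃ t, chk3 f_A00pm_012_s1 t 10 5 1 = true := ex3_a t155_A00pm_012_s1 t134_A00pm_012_s1

theorem t157_A00pm_012_s1 : ∃ t, chk3 f_A00pm_012_s1 t 10 2 1 = true := ex3_b k30_A00pm_012_s1 t156_A00pm_012_s1

theorem t158_A00pm_012_s1 : ∃ t, chk3 f_A00pm_012_s1 t 5 2 1 = true := ex3_a t157_A00pm_012_s1 t129_A00pm_012_s1

theorem t159_A00pm_012_s1 : ∃ t, chk3 f_A00pm_012_s1 t 5 1 1 = true := ex3_b t158_A00pm_012_s1 t127_A00pm_012_s1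

theorem t160_A00pm_012_s1 : ∃ t, chk3 f_A00pm_012_s1 t 19 31 1 = true := ex3_b k28_A00pm_012_s1 k29_A00pm_012_s1

theorem t161_A00pm_012_s1 : ∃ t, chk3 f_A00pm_012_s1 t 18 31 1 = true := ex3_b k26_A00pm_012_s1 k27_A00pm_012_s1

theorem t162_A00pm_012_s1 : ∃ t, chk3 f_A00pm_012_s1 t 9 31 1 = true := ex3_a t161_A00pm_012_s1 t160_A00pm_012_s1

theorem t163_A00pm_012_s1 : ∃ t, chk3 f_A00pm_012_s1 t 19 30 1 = true := ex3_a k24_A00pm_012_s1 k25_A00pm_012_s1

theorem t164_A00pm_012_s1 : ∃ t, chk3 f_A00pm_012_s1 t 37 30 1 = true := ex3_b k22_A00pm_012_s1 k23_A00pm_012_s1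

theorem t165_A00pm_012_s1 : ∃ t, chk3 f_A00pm_012_s1 t 18 30 1 = true := ex3_a k21_A00pm_012_s1 t164_A00pm_012_s1

theorem t166_A00pm_012_s1 : ∃ t, chk3 f_A00pm_012_s1 t 9 30 1 = true := ex3_a t165_A00pm_012_s1 t163_A00pm_012_s1

theorem t167_A00pm_012_s1 : ∃ t, chk3 f_A00pm_012_s1 t 9 15 1 = true := ex3_b t166_A00pm_012_s1 t162_A00pm_012_s1

theorem t168_A00pm_012_s1 : ∃ t, chk3 f_A00pm_012_s1 t 19 29 1 = true := ex3_b k19_A00pm_012_s1 k20_A00pm_012_s1

theorem t169_A00pm_012_s1 : ∃ t, chk3 f_A00pm_012_s1 t 19 14 1 = true := ex3_b k18_A00pm_012_s1 t168_A00pm_012_s1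

theorem t170_A00pm_012_s1 : ∃ t, chk3 f_A00pm_012_s1 t 18 14 1 = true := ex3_a k16_A00pm_012_s1 k17_A00pm_012_s1

theorem t171_A00pm_012_s1 : ∃ t, chk3 f_A00pm_012_s1 t 9 14 1 = true := ex3_a t170_A00pm_012_s1 t169_A00pm_012_s1

theorem t172_A00pm_012_s1 : ∃ t, chk3 f_A00pm_012_s1 t 9 7 1 = true := ex3_b t171_A00pm_012_s1 t167_A00pm_012_s1

theorem t173_A00pm_012_s1 : ∃ t, chk3 f_A00pm_012_s1 t 17 62 1 = true := ex3_a k13_A00pm_012_s1 k14_A00pm_012_s1

theorem t174_A00pm_012_s1 : ∃ t, chk3 f_A00pm_012_s1 t 17 31 1 = true := ex3_b t173_A00pm_012_s1 k15_A00pm_012_s1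

theorem t175_A00pm_012_s1 : ∃ t, chk3 f_A00pm_012_s1 t 8 31 1 = true := ex3_a k12_A00pm_012_s1 t174_A00pm_012_s1

theorem t176_A00pm_012_s1 : ∃ t, chk3 f_A00pm_012_s1 t 34 61 1 = true := ex3_a k9_A00pm_012_s1 k10_A00pm_012_s1

theorem t177_A00pm_012_s1 : ∃ t, chk3 f_A00pm_012_s1 t 17 61 1 = true := ex3_a t176_A00pm_012_s1 k11_A00pm_012_s1

theorem t178_A00pm_012_s1 : ∃ t, chk3 f_A00pm_012_s1 t 17 30 1 = true := ex3_b k8_A00pm_012_s1 t177_A00pm_012_s1

theorem t179_A00pm_012_s1 : ∃ t, chk3 f_A00pm_012_s1 t 8 30 1 = true := ex3_a k7_A00pm_012_s1 t178_A00pm_012_s1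

theorem t180_A00pm_012_s1 : ∃ t, chk3 f_A00pm_012_s1 t 8 15 1 = true := ex3_b t179_A00pm_012_s1 t175_A00pm_012_s1

theorem t181_A00pm_012_s1 : ∃ t, chk3 f_A00pm_012_s1 t 8 7 1 = true := ex3_b k6_A00pm_012_s1 t180_A00pm_012_s1

theorem t182_A00pm_012_s1 : ∃ t, chk3 f_A00pm_012_s1 t 4 7 1 = true := ex3_a t181_A00pm_012_s1 t172_A00pm_012_s1

theorem t183_A00pm_012_s1 : ∃ t, chk3 f_A00pm_012_s1 t 19 13 1 = true := ex3_a k4_A00pm_012_s1 k5_A00pm_012_s1

theorem t184_A00pm_012_s1 : ∃ t, chk3 f_A00pm_012_s1 t 9 13 1 = true := ex3_a k3_A00pm_012_s1 t183_A00pm_012_s1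

theorem t185_A00pm_012_s1 : ∃ t, chk3 f_A00pm_012_s1 t 4 13 1 = true := ex3_a k2_A00pm_012_s1 t184_A00pm_012_s1

theorem t186_A00pm_012_s1 : ∃ t, chk3 f_A00pm_012_s1 t 4 6 1 = true := ex3_b k1_A00pm_012_s1 t185_A00pm_012_s1

theorem t187_A00pm_012_s1 : ∃ t, chk3 f_A00pm_012_s1 t 4 3 1 = true := ex3_b t186_A00pm_012_s1 t182_A00pm_012_s1

theorem t188_A00pm_012_s1 : ∃ t, chk3 f_A00pm_012_s1 t 4 1 1 = true := ex3_b k0_A00pm_012_s1 t187_A00pm_012_s1

theorem t189_A00pm_012_s1 : ∃ t, chk3 f_A00pm_012_s1 t 2 1 1 = true := ex3_a t188_A00pm_012_s1 t159_A00pm_012_s1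

theorem t190_A00pm_012_s1 : ∃ t, chk3 f_A00pm_012_s1 t 1 1 1 = true := ex3_a t189_A00pm_012_s1 t97_A00pm_012_s1

theorem c_A00pm_012_s1 : CertF 0 536870912 536870912 536870912 402653184 67108864 true true false .pnp 0 1 2
    ndF0q0 ndF0q1 pcF2 cut_A00pm_012_s1 xt_A00pm_012_s1 :=
  certF2 (fam := true) (s1 := true) (s2 := false) (a := 0) (b := 1) (c := 2) (cn := .pnp) (n1 := ndF0q0) (n2 := ndF0q1) (pc := pcF2) (cut := cut_A00pm_012_s1) (xt := xt_A00pm_012_s1) (P1 := 0) (W1 := 536870912) (P2 := 536870912) (W2 := 536870912) (P3 := 402653184) (W3 := 67108864)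
    rfl (fun _ => rfl) t190_A00pm_012_s1

theorem s_A00pm_012_s1 {κ x : ℝ} (hκ : κ * h0 = ken x) (hx : ((402653184 : ℕ) : ℝ) / S ≤ x)
    (hx' : x ≤ (((402653184 : ℕ) : ℝ) + (67108864 : ℕ)) / S)
    (H : CutA (VF κ) PP tKF tL pcF (Cut.of [[⟨0, 0, 0, 67108864⟩, ⟨1, 1, 0, 67108864⟩, ⟨2, 1, 0, 67108864⟩], [⟨0, 0, 1, 33554432⟩, ⟨1, 1, 0, 33554432⟩, ⟨2, 1, 1, 33554432⟩]]) 0 1 2 0 0 (sgb true) (sgb false) x) :
    AltA (VF κ) PP tKF tL pcF [⟨3, 0, 0, 1449551462⟩] 0 1 2 0 0 (sgb true) (sgb false) x :=
  strip_altA (m := 1449551462) true rfl hκ covF00 covF01 hx hx' c_A00pm_012_s1 H ((okx hx hx').extA (T := tt) (sideF hx hx') hκ rfl rfl (.O 0 true) (.O 1 false) rfl)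

end Pool.Agent.Strip051.G.I3_8_7_16.Tab.St.C
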