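import Pool.Agent.Strip051.G.I3_8_7_16.StF

/-! # Unit strips 2 (generated) -/

set_option linter.all false
set_option maxRecDepth 100000

namespace Pool.Agent.Strip051.G.I3_8_7_16.Tab.St.C

open Pool.Agent.Strip051.PB Pool.Agent.Strip051.PB.T Pool.Agent.StripNear Pool.Agent.Strip051.LC
open Pool.Agent.Strip051.G.I3_8_7_16.Tab Pool.Agent.Strip051.G.I3_8_7_16.Tab.St

noncomputable def cut_A00pm_012_s3 : Cut := Cut.of [[⟨3, 0, 0, 2845415833⟩], [⟨0, 0, 0, 67108864⟩, ⟨1, 1, 0, 67108864⟩, ⟨2, 1, 0, 67108864⟩], [⟨0, 0, 1, 33554432⟩, ⟨1, 1, 0, 33554432⟩, ⟨2, 1, 1, 33554432⟩]]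

noncomputable def f_A00pm_012_s3 : ℕ → ℕ → ℕ → ℕ → Bool := onCell 0 536870912 536870912 536870912 402653184 67108864
    (rowF 0 true true false .pnp 0 1 2 (qsf 0 536870912 536870912 536870912 2) ndF0q0 ndF0q1 pcF2 cut_A00pm_012_s3 Ext.none)

def k0_A00pm_012_s3 : ∃ t, chk3 f_A00pm_012_s3 t 1 1 1 = true :=
  ⟨(l 6), by decide +kernel⟩

theorem c_A00pm_012_s3 : CertF 0 536870912 536870912 536870912 402653184 67108864 true true false .pnp 0 1 2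
    ndF0q0 ndF0q1 pcF2 cut_A00pm_012_s3 Ext.none :=
  certF0 (fam := true) (s1 := true) (s2 := false) (a := 0) (b := 1) (c := 2) (cn := .pnp) (n1 := ndF0q0) (n2 := ndF0q1) (pc := pcF2) (cut := cut_A00pm_012_s3) (xt := Ext.none) (P1 := 0) (W1 := 536870912) (P2 := 536870912) (W2 := 536870912) (P3 := 402653184) (W3 := 67108864)
    rfl k0_A00pm_012_s3

theorem s_A00pm_012_s3 {κ x : ℝ} (hκ : κ * h0 = ken x) (hx : ((402653184 : ℕ) : ℝ) / S ≤ x)
    (hx' : x ≤ (((402653184 : ℕ) : ℝ) + (67108864 : ℕ)) / S)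
    (H : CutA (VF κ) PP tKF tL pcF (Cut.of [[⟨0, 0, 0, 67108864⟩, ⟨1, 1, 0, 67108864⟩, ⟨2, 1, 0, 67108864⟩], [⟨0, 0, 1, 33554432⟩, ⟨1, 1, 0, 33554432⟩, ⟨2, 1, 1, 33554432⟩]]) 0 1 2 0 0 (sgb true) (sgb false) x) :
    AltA (VF κ) PP tKF tL pcF [⟨4, 0, 0, 2845415833⟩] 0 1 2 0 0 (sgb true) (sgb false) x :=
  strip_altA (m := 2845415833) false rfl hκ covF00 covF01 hx hx' c_A00pm_012_s3 H (noExt_A)

noncomputable def cut_A00pm_022_s1 : Cut := Cut.of [[⟨4, 0, 0, 1449551462⟩], [⟨0, 0, 0, 67108864⟩, ⟨1, 1, 0, 67108864⟩, ⟨2, 1, 0, 67108864⟩], [⟨0, 0, 1, 33554432⟩, ⟨1, 1, 0, 33554432⟩, ⟨2, 1, 1, 33554432⟩]]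

noncomputable def f_A00pm_022_s1 : ℕ → ℕ → ℕ → ℕ → Bool := onCell 1073741824 536870912 0 536870912 402653184 67108864
    (rowF 2 true true false .pp 0 2 2 (qsf 0 536870912 0 536870912 2) ndF0q0 ndF0q2 pcF2 cut_A00pm_022_s1 Ext.none)

def k0_A00pm_022_s1 : ∃ t, chk3 f_A00pm_022_s1 t 4 2 1 = true :=
  ⟨(a (l 1) (l 6)), by decide +kernel⟩

def k1_A00pm_022_s1 : ∃ t, chk3 f_A00pm_022_s1 t 4 6 1 = true :=
  ⟨(b (a (l 1) (a (l 1) (l 6))) (b (a (l 1) (a (a (l 1) (b (l 16634896) (a (l 16644432) (l 16639376)))) (a (b (l 16624456) (l 16631560)) (l 6)))) (a (l 1) (a (a (a (l 1) (b (b (l 1) (l 16657912)) (b (a (l 16661976) (l 16659464)) (a (l 16664528) (l 16661848))))) (b (a (b (l 16649608) (l 16652984)) (l 16646280)) (a (b (l 16655696) (l 16657832)) (l 16651608)))) (a (b (l 16638520) (l 16664736)) (b (l 16627768) (l 16633136))))))), by decide +kernel⟩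

def k2_A00pm_022_s1 : ∃ t, chk3 f_A00pm_022_s1 t 8 7 1 = true :=
  ⟨(b (b (a (l 1) (a (l 1) (a (l 1) (b (l 1) (b (a (l 1) (l 16680952)) (a (l 14) (l 16683560))))))) (a (l 1) (a (l 14) (a (l 14) (a (l 14) (a (l 14) (b (l 16686328) (l 16690480)))))))) (a (l 14) (a (l 14) (a (l 14) (a (l 14) (b (b (l 16694872) (l 16697416)) (b (l 16725632) (b (l 16716720) (b (l 16722696) (l 16726656)))))))))), by decide +kernel⟩

def k3_A00pm_022_s1 : ∃ t, chk3 f_A00pm_022_s1 t 9 7 1 = true :=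
  ⟨(b (a (b (a (b (a (b (a (l 1) (l 16669816)) (a (l 16675288) (l 16672352))) (b (l 16665576) (l 16667872))) (a (b (a (l 16677872) (l 16674776)) (l 16678696)) (l 16671104))) (b (a (l 16660912) (l 16655080)) (a (l 16664600) (l 16658120)))) (a (b (a (b (l 16680912) (l 16682960)) (l 16674864)) (a (l 16685712) (l 16677904))) (b (l 16674592) (l 16708024)))) (b (a (b (l 16646376) (l 16648488)) (b (l 16634832) (l 16635784))) (a (b (l 16649920) (l 16692464)) (l 16677776)))) (b (b (a (a (b (l 16725760) (l 16726816)) (l 16709104)) (l 16673392)) (a (a (b (l 16727624) (l 16686216)) (l 16714328)) (a (l 16704416) (l 16693944)))) (b (a (a (a (l 16732176) (l 16727216)) (a (l 16732920) (l 16728024))) (a (c (l 16721880) (l 16718896)) (l 16709704))) (b (a (a (a (l 16712728) (l 16707728)) (a (l 16702920) (l 16697992))) (a (c (l 16692440) (l 16688088)) (l 16700416))) (c (b (a (a (a (l 16720088) (l 16715336))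 (a (l 16710792) (l 16706088))) (a (l 16719632) (l 16688016))) (a (b (a (a (l 16723216) (l 16718456)) (a (l 16713912) (l 16709208))) (a (a (l 16725296) (a (l 16721656) (l 16719424))) (a (c (l 16717080) (l 16714888)) (c (l 16712488) (l 16710056))))) (a (a (b (l 16704320) (l 16711640)) (l 16710752)) (a (l 16694936) (l 16689336))))) (b (a (a (l 16725040) (l 16704216)) (a (l 16693608) (l 16682376))) (a (a (a (l 16720920) (l 16715616)) (a (l 16710512) (l 16705312))) (a (a (l 16700000) (l 16694544)) (a (l 16688920) (l 16683088)))))))))), by decide +kernel⟩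

def k4_A00pm_022_s1 : ∃ t, chk3 f_A00pm_022_s1 t 5 1 1 = true :=
  ⟨(b (l 6) (b (a (b (l 6) (a (a (b (l 6) (l 16661416)) (l 6)) (l 6))) (l 6)) (a (b (a (a (b (l 16623504) (l 16663672)) (a (b (l 16614696) (l 16611568)) (b (a (l 16610432) (l 16691272)) (l 16668496)))) (b (l 16636048) (l 16629904))) (a (b (a (l 16695944) (a (l 16707856) (c (l 16680072) (l 16678824)))) (b (a (l 16698040) (a (l 16646424) (a (l 16640816) (l 16678088)))) (a (b (l 16667512) (b (l 16673192) (a (l 16680248) (l 16673816)))) (b (a (l 16657528) (a (l 16651688) (l 16688704))) (a (b (l 16663048) (l 16687696)) (a (l 16658904) (a (l 16655088) (l 16673264)))))))) (b (l 16665560) (b (l 16665752) (b (l 16634280) (a (l 16667088) (l 16636744))))))) (b (l 6) (b (a (l 16647136) (l 6)) (b (a (l 16605808) (l 6)) (b (a (l 16616680) (l 6)) (a (a (l 16628056) (l 16620216)) (a (l 16613392) (l 6)))))))))), by decide +kernel⟩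

def k5_A00pm_022_s1 : ∃ t, chk3 f_A00pm_022_s1 t 3 1 1 = true :=
  ⟨(b (l 6) (l 6)), by decide +kernel⟩

theorem t6_A00pm_022_s1 : ∃ t, chk3 f_A00pm_022_s1 t 4 7 1 = true := ex3_a k2_A00pm_022_s1 k3_A00pm_022_s1

theorem t7_A00pm_022_s1 : ∃ t, chk3 f_A00pm_022_s1 t 4 3 1 = true := ex3_b k1_A00pm_022_s1 t6_A00pm_022_s1

theorem t8_A00pm_022_s1 : ∃ t, chk3 f_A00pm_022_s1 t 4 1 1 = true := ex3_b k0_A00pm_022_s1 t7_A00pm_022_s1

theorem t9_A00pm_022_s1 : ∃ t, chk3 f_A00pm_022_s1 t 2 1 1 = true := ex3_a t8_A00pm_022_s1 k4_A00pm_022_s1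

theorem t10_A00pm_022_s1 : ∃ t, chk3 f_A00pm_022_s1 t 1 1 1 = true := ex3_a t9_A00pm_022_s1 k5_A00pm_022_s1

theorem c_A00pm_022_s1 : CertF 0 536870912 0 536870912 402653184 67108864 true true false .pp 0 2 2
    ndF0q0 ndF0q2 pcF2 cut_A00pm_022_s1 Ext.none :=
  certF2 (fam := true) (s1 := true) (s2 := false) (a := 0) (b := 2) (c := 2) (cn := .pp) (n1 := ndF0q0) (n2 := ndF0q2) (pc := pcF2) (cut := cut_A00pm_022_s1) (xt := Ext.none) (P1 := 0) (W1 := 536870912) (P2 := 0) (W2 := 536870912) (P3 := 402653184) (W3 := 67108864)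
    rfl (fun _ => rfl) t10_A00pm_022_s1

theorem s_A00pm_022_s1 {κ x : ℝ} (hκ : κ * h0 = ken x) (hx : ((402653184 : ℕ) : ℝ) / S ≤ x)
    (hx' : x ≤ (((402653184 : ℕ) : ℝ) + (67108864 : ℕ)) / S)
    (H : CutA (VF κ) PP tKF tL pcF (Cut.of [[⟨0, 0, 0, 67108864⟩, ⟨1, 1, 0, 67108864⟩, ⟨2, 1, 0, 67108864⟩], [⟨0, 0, 1, 33554432⟩, ⟨1, 1, 0, 33554432⟩, ⟨2, 1, 1, 33554432⟩]]) 0 2 2 0 0 (sgb true) (sgb false) x) :
    AltA (VF κ) PP tKF tL pcF [⟨3, 0, 0, 1449551462⟩] 0 2 2 0 0 (sgb true) (sgb false) x :=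
  strip_altA (m := 1449551462) true rfl hκ covF00 covF02 hx hx' c_A00pm_022_s1 H (noExt_A)

noncomputable def cut_A00pm_022_s3 : Cut := Cut.of [[⟨3, 0, 0, 2845415833⟩], [⟨0, 0, 0, 67108864⟩, ⟨1, 1, 0, 67108864⟩, ⟨2, 1, 0, 67108864⟩], [⟨0, 0, 1, 33554432⟩, ⟨1, 1, 0, 33554432⟩, ⟨2, 1, 1, 33554432⟩]]

noncomputable def f_A00pm_022_s3 : ℕ → ℕ → ℕ → ℕ → Bool := onCell 1073741824 536870912 0 536870912 402653184 67108864
    (rowF 2 true true false .pp 0 2 2 (qsf 0 536870912 0 536870912 2) ndF0q0 ndF0q2 pcF2 cut_A00pm_022_s3 Ext.none)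

def k0_A00pm_022_s3 : ∃ t, chk3 f_A00pm_022_s3 t 1 1 1 = true :=
  ⟨(a (l 6) (b (l 6) (l 6))), by decide +kernel⟩

theorem c_A00pm_022_s3 : CertF 0 536870912 0 536870912 402653184 67108864 true true false .pp 0 2 2
    ndF0q0 ndF0q2 pcF2 cut_A00pm_022_s3 Ext.none :=
  certF2 (fam := true) (s1 := true) (s2 := false) (a := 0) (b := 2) (c := 2) (cn := .pp) (n1 := ndF0q0) (n2 := ndF0q2) (pc := pcF2) (cut := cut_A00pm_022_s3) (xt := Ext.none) (P1 := 0) (W1 := 536870912) (P2 := 0) (W2 := 536870912) (P3 := 402653184) (W3 := 67108864)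
    rfl (fun _ => rfl) k0_A00pm_022_s3

theorem s_A00pm_022_s3 {κ x : ℝ} (hκ : κ * h0 = ken x) (hx : ((402653184 : ℕ) : ℝ) / S ≤ x)
    (hx' : x ≤ (((402653184 : ℕ) : ℝ) + (67108864 : ℕ)) / S)
    (H : CutA (VF κ) PP tKF tL pcF (Cut.of [[⟨0, 0, 0, 67108864⟩, ⟨1, 1, 0, 67108864⟩, ⟨2, 1, 0, 67108864⟩], [⟨0, 0, 1, 33554432⟩, ⟨1, 1, 0, 33554432⟩, ⟨2, 1, 1, 33554432⟩]]) 0 2 2 0 0 (sgb true) (sgb false) x) :
    AltA (VF κ) PP tKF tL pcF [⟨4, 0, 0, 2845415833⟩] 0 2 2 0 0 (sgb true) (sgb false) x :=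
  strip_altA (m := 2845415833) false rfl hκ covF00 covF02 hx hx' c_A00pm_022_s3 H (noExt_A)

noncomputable def cut_A00pm_023_s1 : Cut := Cut.of [[⟨4, 0, 0, 1449551462⟩]]

noncomputable def f_A00pm_023_s1 : ℕ → ℕ → ℕ → ℕ → Bool := onCell 1610612736 536870912 0 536870912 402653184 67108864
    (rowF 2 true true false .up 0 2 3 (qsf 0 536870912 0 536870912 3) ndF0q0 ndF0q2 pcF3 cut_A00pm_023_s1 Ext.none)

def k0_A00pm_023_s1 : ∃ t, chk3 f_A00pm_023_s1 t 1 1 1 = true :=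
  ⟨(l 6), by decide +kernel⟩

theorem c_A00pm_023_s1 : CertF 0 536870912 0 536870912 402653184 67108864 true true false .up 0 2 3
    ndF0q0 ndF0q2 pcF3 cut_A00pm_023_s1 Ext.none :=
  certF2 (fam := true) (s1 := true) (s2 := false) (a := 0) (b := 2) (c := 3) (cn := .up) (n1 := ndF0q0) (n2 := ndF0q2) (pc := pcF3) (cut := cut_A00pm_023_s1) (xt := Ext.none) (P1 := 0) (W1 := 536870912) (P2 := 0) (W2 := 536870912) (P3 := 402653184) (W3 := 67108864)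
    rfl (fun _ => rfl) k0_A00pm_023_s1

theorem s_A00pm_023_s1 {κ x : ℝ} (hκ : κ * h0 = ken x) (hx : ((402653184 : ℕ) : ℝ) / S ≤ x)
    (hx' : x ≤ (((402653184 : ℕ) : ℝ) + (67108864 : ℕ)) / S) :
    AltA (VF κ) PP tKF tL pcF [⟨3, 0, 0, 1449551462⟩] 0 2 3 0 0 (sgb true) (sgb false) x :=
  strip_altA (m := 1449551462) true rfl hκ covF00 covF02 hx hx' c_A00pm_023_s1 cutA_nil (noExt_A)

noncomputable def cut_A00pm_023_s3 : Cut := Cut.of [[⟨3, 0, 0, 2845415833⟩]]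

noncomputable def f_A00pm_023_s3 : ℕ → ℕ → ℕ → ℕ → Bool := onCell 0 536870912 0 536870912 402653184 67108864
    (rowF 0 true true false .up 0 2 3 (qsf 0 536870912 0 536870912 3) ndF0q0 ndF0q2 pcF3 cut_A00pm_023_s3 Ext.none)

def k0_A00pm_023_s3 : ∃ t, chk3 f_A00pm_023_s3 t 1 1 1 = true :=
  ⟨(a (l 1) (b (a (b (a (l 1) (a (l 6) (b (l 16802696) (l 6)))) (l 6)) (b (a (b (a (l 16832760) (l 16847432)) (l 6)) (b (a (l 16766040) (b (l 16791024) (l 16853160))) (a (l 16892048) (l 16803704)))) (a (l 6) (l 6)))) (l 6))), by decide +kernel⟩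

theorem c_A00pm_023_s3 : CertF 0 536870912 0 536870912 402653184 67108864 true true false .up 0 2 3
    ndF0q0 ndF0q2 pcF3 cut_A00pm_023_s3 Ext.none :=
  certF0 (fam := true) (s1 := true) (s2 := false) (a := 0) (b := 2) (c := 3) (cn := .up) (n1 := ndF0q0) (n2 := ndF0q2) (pc := pcF3) (cut := cut_A00pm_023_s3) (xt := Ext.none) (P1 := 0) (W1 := 536870912) (P2 := 0) (W2 := 536870912) (P3 := 402653184) (W3 := 67108864)
    rfl k0_A00pm_023_s3

theorem s_A00pm_023_s3 {κ x : ℝ} (hκ : κ * h0 = ken x) (hx : ((402653184 : ℕ) : ℝ) / S ≤ x)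
    (hx' : x ≤ (((402653184 : ℕ) : ℝ) + (67108864 : ℕ)) / S) :
    AltA (VF κ) PP tKF tL pcF [⟨4, 0, 0, 2845415833⟩] 0 2 3 0 0 (sgb true) (sgb false) x :=
  strip_altA (m := 2845415833) false rfl hκ covF00 covF02 hx hx' c_A00pm_023_s3 cutA_nil (noExt_A)

noncomputable def cut_A00pm_101_s1 : Cut := Cut.of [[⟨4, 0, 0, 1449551462⟩], [⟨0, 1, 0, 67108864⟩, ⟨1, 0, 0, 67108864⟩, ⟨2, 1, 0, 67108864⟩]]

noncomputable def f_A00pm_101_s1 : ℕ → ℕ → ℕ → ℕ → Bool := onCell 536870912 536870912 536870912 536870912 402653184 67108864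
    (rowF 1 true true false .npn 1 0 1 (qsf 536870912 536870912 0 536870912 1) ndF0q1 ndF0q0 pcF1 cut_A00pm_101_s1 Ext.none)

def k0_A00pm_101_s1 : ∃ t, chk3 f_A00pm_101_s1 t 1 1 1 = true :=
  ⟨(b (l 3) (a (l 3) (b (l 3) (a (l 3) (b (l 3) (a (l 3) (b (l 3) (a (l 3) (l 14))))))))), by decide +kernel⟩

theorem c_A00pm_101_s1 : CertF 536870912 536870912 0 536870912 402653184 67108864 true true false .npn 1 0 1
    ndF0q1 ndF0q0 pcF1 cut_A00pm_101_s1 Ext.none :=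
  certF1 (fam := true) (s1 := true) (s2 := false) (a := 1) (b := 0) (c := 1) (cn := .npn) (n1 := ndF0q1) (n2 := ndF0q0) (pc := pcF1) (cut := cut_A00pm_101_s1) (xt := Ext.none) (P1 := 536870912) (W1 := 536870912) (P2 := 0) (W2 := 536870912) (P3 := 402653184) (W3 := 67108864)
    rfl (fun _ => rfl) k0_A00pm_101_s1

theorem s_A00pm_101_s1 {κ x : ℝ} (hκ : κ * h0 = ken x) (hx : ((402653184 : ℕ) : ℝ) / S ≤ x)
    (hx' : x ≤ (((402653184 : ℕ) : ℝ) + (67108864 : ℕ)) / S)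
    (H : CutA (VF κ) PP tKF tL pcF (Cut.of [[⟨0, 1, 0, 67108864⟩, ⟨1, 0, 0, 67108864⟩, ⟨2, 1, 0, 67108864⟩]]) 1 0 1 0 0 (sgb true) (sgb false) x) :
    AltA (VF κ) PP tKF tL pcF [⟨3, 0, 0, 1449551462⟩] 1 0 1 0 0 (sgb true) (sgb false) x :=
  strip_altA (m := 1449551462) true rfl hκ covF01 covF00 hx hx' c_A00pm_101_s1 H (noExt_A)

noncomputable def cut_A00pm_101_s3 : Cut := Cut.of [[⟨3, 0, 0, 2845415833⟩], [⟨0, 1, 0, 67108864⟩, ⟨1, 0, 0, 67108864⟩, ⟨2, 1, 0, 67108864⟩]]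

noncomputable def f_A00pm_101_s3 : ℕ → ℕ → ℕ → ℕ → Bool := onCell 536870912 536870912 0 536870912 402653184 67108864
    (rowF 0 true true false .npn 1 0 1 (qsf 536870912 536870912 0 536870912 1) ndF0q1 ndF0q0 pcF1 cut_A00pm_101_s3 Ext.none)

def k0_A00pm_101_s3 : ∃ t, chk3 f_A00pm_101_s3 t 1 1 1 = true :=
  ⟨(l 6), by decide +kernel⟩

theorem c_A00pm_101_s3 : CertF 536870912 536870912 0 536870912 402653184 67108864 true true false .npn 1 0 1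
    ndF0q1 ndF0q0 pcF1 cut_A00pm_101_s3 Ext.none :=
  certF0 (fam := true) (s1 := true) (s2 := false) (a := 1) (b := 0) (c := 1) (cn := .npn) (n1 := ndF0q1) (n2 := ndF0q0) (pc := pcF1) (cut := cut_A00pm_101_s3) (xt := Ext.none) (P1 := 536870912) (W1 := 536870912) (P2 := 0) (W2 := 536870912) (P3 := 402653184) (W3 := 67108864)
    rfl k0_A00pm_101_s3

theorem s_A00pm_101_s3 {κ x : ℝ} (hκ : κ * h0 = ken x) (hx : ((402653184 : ℕ) : ℝ) / S ≤ x)
    (hx' : x ≤ (((402653184 : ℕ) : ℝ) + (67108864 : ℕ)) / S)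
    (H : CutA (VF κ) PP tKF tL pcF (Cut.of [[⟨0, 1, 0, 67108864⟩, ⟨1, 0, 0, 67108864⟩, ⟨2, 1, 0, 67108864⟩]]) 1 0 1 0 0 (sgb true) (sgb false) x) :
    AltA (VF κ) PP tKF tL pcF [⟨4, 0, 0, 2845415833⟩] 1 0 1 0 0 (sgb true) (sgb false) x :=
  strip_altA (m := 2845415833) false rfl hκ covF01 covF00 hx hx' c_A00pm_101_s3 H (noExt_A)

end Pool.Agent.Strip051.G.I3_8_7_16.Tab.St.C
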