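import Pool.Agent.Strip051.G.I3_8_7_16.StF

/-! # Unit strips 3 (generated) -/

set_option linter.all false
set_option maxRecDepth 100000

namespace Pool.Agent.Strip051.G.I3_8_7_16.Tab.St.C

open Pool.Agent.Strip051.PB Pool.Agent.Strip051.PB.T Pool.Agent.StripNear Pool.Agent.Strip051.LC
open Pool.Agent.Strip051.G.I3_8_7_16.Tab Pool.Agent.Strip051.G.I3_8_7_16.Tab.St

noncomputable def cut_A00pm_102_s1 : Cut := Cut.of [[⟨4, 0, 0, 1449551462⟩], [⟨0, 1, 0, 67108864⟩, ⟨1, 0, 0, 67108864⟩, ⟨2, 1, 0, 67108864⟩], [⟨0, 1, 0, 33554432⟩, ⟨1, 0, 1, 33554432⟩, ⟨2, 1, 1, 33554432⟩]]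

noncomputable def xt_A00pm_102_s1 : Ext := strExt dd true true false .u0 .u0m .u2 .npp 1 0 2 rfl rfl gf2 vv ndF0q1 ndF0q0

noncomputable def f_A00pm_102_s1 : ℕ → ℕ → ℕ → ℕ → Bool := onCell 536870912 536870912 1073741824 536870912 402653184 67108864
    (rowF 1 true true false .npp 1 0 2 (qsf 536870912 536870912 0 536870912 2) ndF0q1 ndF0q0 pcF2 cut_A00pm_102_s1 xt_A00pm_102_s1)

def k0_A00pm_102_s1 : ∃ t, chk3 f_A00pm_102_s1 t 2 4 1 = true :=
  ⟨(b (l 3) (l 3)), by decide +kernel⟩

def k1_A00pm_102_s1 : ∃ t, chk3 f_A00pm_102_s1 t 4 10 1 = true :=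
  ⟨(b (b (l 3) (l 2)) (l 2)), by decide +kernel⟩

def k2_A00pm_102_s1 : ∃ t, chk3 f_A00pm_102_s1 t 10 40 1 = true :=
  ⟨(l 3), by decide +kernel⟩

def k3_A00pm_102_s1 : ∃ t, chk3 f_A00pm_102_s1 t 20 41 1 = true :=
  ⟨(b (l 3) (a (l 2) (b (b (l 3) (b (a (l 2) (b (l 3) (b (a (l 3) (b (a (l 3) (a (l 3) (l 537942671))) (c (l 538098575) (l 537557391)))) (c (a (a (l 2) (a (l 3) (l 538231695))) (l 538292111)) (c (l 537564815) (a (c (l 537303695) (a (l 2) (l 537193615))) (l 537343119))))))) (a (l 2) (b (c (b (c (a (l 538214031) (l 538052495)) (l 537725327)) (c (l 537878927) (l 537601679))) (a (a (l 2) (b (l 537282959) (l 537152911))) (b (l 537369999) (l 537248911)))) (a (a (l 2) (a (l 2) (b (b (l 537350799) (l 537319055)) (l 537318031)))) (b (b (c (l 537709199) (l 537154447)) (l 537393295)) (c (l 537656719) (l 537092239)))))))) (a (l 2) (b (a (b (b (b (a (l 2) (b (l 537343887) (l 2))) (l 2)) (l 2)) (l 2)) (b (b (b (c (l 537683343) (l 537108879)) (l 537450127)) (b (l 537527183) (l 537622415))) (b (b (l 537733519)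 (c (l 538181263) (l 537542799))) (b (b (l 537969295) (b (l 538028175) (l 538068367))) (a (l 3858761847) (l 16778320)))))) (b (a (l 2) (a (b (c (l 16778920) (l 16778280)) (l 2)) (c (l 16779184) (b (l 16778288) (l 16778616))))) (a (l 2) (a (l 2) (c (l 16780056) (l 16779104)))))))))), by decide +kernel⟩

def k4_A00pm_102_s1 : ∃ t, chk3 f_A00pm_102_s1 t 21 82 1 = true :=
  ⟨(b (l 3) (b (l 3) (a (l 3) (a (b (l 3) (b (l 3) (a (l 3) (b (l 3) (a (l 3) (a (a (l 3) (b (l 3) (c (b (a (l 3) (l 538949775)) (b (a (l 3) (l 538954127)) (c (a (c (l 539143567) (l 539020687)) (l 539079567)) (a (l 538831247) (l 538828687))))) (c (b (l 538564239) (a (b (l 3) (l 538570383)) (l 538567311))) (b (a (l 3) (l 538293135)) (a (b (l 3) (c (l 538368399) (l 538230927))) (b (l 538296719) (c (l 538366095) (l 538228879))))))))) (b (l 538677903) (b (l 538685839) (b (l 538689935) (b (c (l 538947215) (l 538426767)) (c (l 538947983) (l 538427279)))))))))))) (a (b (l 3) (b (c (l 538844815) (l 538338191)) (b (c (l 538879119) (l 538367375))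 (b (l 538509711) (b (l 538652047) (c (l 538910863) (l 538394255))))))) (b (b (l 3) (c (l 538741647) (l 538246799))) (b (c (l 538787215) (l 538285711)) (c (c (l 538954127) (l 538709391)) (c (l 538455183) (l 538191759)))))))))), by decide +kernel⟩

def k5_A00pm_102_s1 : ∃ t, chk3 f_A00pm_102_s1 t 42 166 1 = true :=
  ⟨(b (b (a (l 3) (b (l 3) (b (l 3) (a (l 3) (a (l 3) (c (l 538786447) (l 538265231))))))) (a (b (l 3) (a (l 3) (c (c (b (a (l 3) (l 538692751)) (l 538618767)) (l 538391951)) (c (l 538128527) (b (a (l 3) (l 537904271)) (l 537829007)))))) (b (c (c (a (b (l 3) (l 538778255)) (l 538835343)) (l 538565775)) (c (l 538304655) (a (b (l 3) (l 537993359)) (l 538054799)))) (b (a (c (l 538596239) (l 538073231)) (l 538376847)) (c (l 538558351) (l 538037903)))))) (b (b (a (c (b (a (a (l 3) (l 538379663)) (l 538422927)) (c (l 538449295) (l 538187919))) (c (l 537960335) (a (b (a (l 3) (l 537713807)) (l 537618063)) (l 537725071)))) (c (l 538465423) (l 537945231))) (b (a (c (l 538238351) (l 537707151)) (l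 538106255)) (a (c (l 538151567) (l 537618575)) (l 538031503)))) (b (a (b (a (l 537745039) (l 537835151)) (l 537888143)) (c (l 538167183) (l 537643663))) (b (a (c (l 537852559) (l 537310351)) (l 537772943)) (a (c (l 537798031) (l 537249679)) (l 537710223)))))), by decide +kernel⟩

def k6_A00pm_102_s1 : ∃ t, chk3 f_A00pm_102_s1 t 84 167 1 = true :=
  ⟨(b (c (b (b (b (l 537787791) (l 537809295)) (b (l 537855375) (l 537922447))) (b (b (l 538008207) (b (l 538085775) (l 538143119))) (b (b (l 538206095) (l 538275215)) (a (l 16778680) (l 16778792))))) (b (b (b (l 537231247) (l 537243279)) (b (l 537279119) (l 537334415))) (b (b (l 537407631) (b (l 537474703) (l 537524879))) (b (b (l 537580175) (l 537640847)) (a (l 537753487) (l 16778112)))))) (b (b (c (a (c (l 16779200) (l 16778840)) (c (l 16779312) (l 16778928))) (a (a (l 16778304) (l 16778320)) (a (l 16778344) (l 16778368)))) (b (b (c (a (l 538695071) (l 538611615)) (a (a (l 16778504) (l 16778520)) (l 537940639))) (b (c (a (l 538726559) (l 538641055)) (a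 (l 538035359) (l 537966495))) (b (c (a (l 538741919) (l 538655135)) (a (l 538048671) (l 537978783))) (a (c (c (l 16779656) (l 16779240)) (a (l 16778616) (l 16778632))) (c (c (l 16779768) (l 16779320)) (a (l 16778648) (l 16778680))))))) (a (c (c (l 16779784) (l 16779360)) (a (l 16778712) (l 16778720))) (c (c (l 16779896) (l 16779432)) (a (l 16778744) (l 16778760)))))) (a (a (c (l 16780088) (l 16779104)) (c (l 16780128) (l 16779120))) (c (c (l 16780456) (l 16779928)) (a (l 16779128) (l 16779152)))))), by decide +kernel⟩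

def k7_A00pm_102_s1 : ∃ t, chk3 f_A00pm_102_s1 t 85 167 1 = true :=
  ⟨(b (b (b (b (l 537676431) (l 537666447)) (b (c (l 537953935) (l 537400463)) (c (l 537988239) (l 537424783)))) (b (b (c (l 538040719) (l 537466255)) (b (a (l 537790351) (l 537814159)) (l 537837199))) (b (b (c (l 538178703) (l 537581711)) (b (l 537915023) (l 537939855))) (b (l 537974415) (a (l 538027407) (l 538014607)))))) (b (b (a (c (c (l 16779456) (l 16779040)) (a (l 16778400) (l 16778440))) (a (l 16778920) (l 16778976))) (b (b (c (a (l 16779512) (l 16779648)) (a (l 537895327) (l 16778696))) (b (c (a (l 538576799) (l 16779728)) (a (l 537918367) (l 537887135))) (b (c (a (l 538589855) (l 16779760)) (a (l 537929631) (l 537897119))) (a (c (c (l 16779888) (l 16779424)) (a (l 16778704) (l 16778736))) (c (l 16779792) (a (l 16778776) (l 16778824))))))) (a (c (c (l 16780016) (l 16779528)) (a (l 16778792) (l 16778824))) (c (l 16779904) (a (l 16778864) (l 16778904)))))) (a (c (c (l 16780576) (l 16780016)) (a (l 16779168) (l 16779200)))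 (c (c (l 16780704) (l 16780120)) (a (l 16779232) (l 16779264)))))), by decide +kernel⟩

def k8_A00pm_102_s1 : ∃ t, chk3 f_A00pm_102_s1 t 86 332 1 = true :=
  ⟨(b (b (a (b (l 3) (a (l 3) (c (l 538888335) (l 538367119)))) (a (c (c (l 539038351) (l 538787215)) (c (l 538526607) (l 538257295))) (b (a (a (l 538679951) (b (c (a (c (l 539068559) (l 538817679)) (a (l 538946191) (b (l 538950799) (l 538942863)))) (a (c (l 538557327) (l 538287503)) (a (l 538156575) (b (l 538429583) (l 538422159))))) (c (l 538928271) (l 538408079)))) (a (b (c (b (b (l 538950543) (l 538948239)) (l 538943375)) (b (b (c (l 538563215) (l 538293391)) (l 538427279)) (l 538422671))) (c (l 538931855) (l 538411663))) (b (b (c (l 538944655) (l 538423951)) (c (l 538941071) (l 538420623))) (c (l 538932111) (l 538411919))))) (a (c (l 538898575) (l 538379919)) (c (c (l 539031951) (l 538781327)) (c (l 538521743) (l 538253199))))))) (a (c (c (l 538949007) (l 538697359)) (c (l 538437263) (l 538169487))) (a (c (l 538838671) (l 538320783)) (a (c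 (l 538841231) (l 538325135)) (b (c (l 538871951) (l 538354319)) (l 538579599)))))) (a (b (c (l 538737295) (l 538219919)) (l 538385551)) (a (b (l 538501519) (l 538409871)) (a (b (l 538510735) (l 538421391)) (b (a (l 538515855) (l 538520719)) (l 538429583)))))), by decide +kernel⟩

def k9_A00pm_102_s1 : ∃ t, chk3 f_A00pm_102_s1 t 87 332 1 = true :=
  ⟨(b (b (a (b (a (b (c (b (l 538928783) (l 538928527)) (a (b (l 538415759) (l 538414479)) (l 538135695))) (a (c (l 539196815) (c (l 538541967) (l 538272655))) (c (l 538919567) (l 538400655)))) (c (b (l 538902415) (l 538902927)) (b (l 538386063) (l 538385551)))) (b (a (a (c (l 538916495) (l 538397071)) (c (l 538911119) (l 538392207))) (c (l 538898319) (l 538380687))) (a (c (l 538901391) (c (l 538515599) (l 538247311))) (c (l 538890127) (l 538372495))))) (b (c (b (l 538860175) (l 538864527)) (b (l 538347663) (l 538350735))) (b (c (l 538864271) (l 538349711)) (c (l 538860943) (l 538345871))))) (a (a (a (c (l 538859919) (l 538342543)) (b (b (l 538564239) (l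 538616463)) (l 538591631))) (b (c (l 538873487) (c (l 538488719) (l 538221455))) (c (l 538846095) (l 538329231)))) (a (c (b (l 538859919) (l 538838159)) (b (l 538343823) (l 538322319))) (c (b (l 538841487) (l 538824591)) (b (l 538327183) (l 538310031)))))) (a (a (b (c (l 538786703) (l 538271887)) (c (l 538700431) (l 538188175))) (b (c (l 538795919) (l 538280847)) (l 538733087))) (b (c (b (l 538807183) (l 538777999)) (b (l 538292111) (l 538263439))) (c (l 538726543) (l 538213263))))), by decide +kernel⟩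

def k10_A00pm_102_s1 : ∃ t, chk3 f_A00pm_102_s1 t 43 333 1 = true :=
  ⟨(b (a (b (a (l 538277007) (a (l 538306959) (l 538589327))) (a (l 538152847) (c (l 538439311) (l 537930639)))) (a (b (c (l 538616207) (l 538105487)) (c (l 538509711) (l 538000015))) (b (c (l 538646671) (l 538134671)) (l 538568591)))) (a (b (a (l 538009743) (l 538068623)) (b (l 537925775) (l 537866127))) (b (a (c (l 538387087) (l 537877903)) (l 538190479)) (a (b (l 16778488) (l 16778496)) (l 538338079))))), by decide +kernel⟩

def k11_A00pm_102_s1 : ∃ t, chk3 f_A00pm_102_s1 t 86 167 1 = true :=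
  ⟨(b (b (b (b (l 537826447) (a (l 537771663) (l 16778328))) (b (a (l 537769359) (l 16778384)) (a (l 537782927) (l 16778456)))) (b (b (c (l 538110095) (l 537825679)) (c (a (l 16778864) (l 16779064)) (a (l 16778128) (l 16778272)))) (a (b (b (l 537905039) (l 537942159)) (l 537997199)) (b (b (c (l 16779200) (l 16778360)) (b (l 16778840) (l 16778880))) (c (l 16779440) (l 16778536)))))) (b (b (a (c (l 16779552) (l 16778616)) (c (l 16779736) (l 16778744))) (b (b (a (c (l 16779808) (l 16778800)) (c (l 16779984) (l 16778912))) (b (a (c (l 16779880) (l 16778848)) (c (l 16780056) (l 16778968))) (b (a (c (l 16779920) (l 16778880)) (c (l 16780088) (l 16778992))) (a (c (l 16779944) (l 16778896)) (c (l 16780112) (l 16779008)))))) (a (c (l 16780056) (l 16778976)) (c (l 16780224) (l 16779088))))) (a (c (c (l 16780856) (l 16780240)) (a (l 16779304) (l 16779352))) (c (l 16780704) (a (l 16779400) (l 16779456)))))), by decide +kernel⟩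

def k12_A00pm_102_s1 : ∃ t, chk3 f_A00pm_102_s1 t 87 167 1 = true :=
  ⟨(b (a (b (b (b (l 16778520) (l 16778560)) (b (l 16778608) (c (l 16779056) (l 16778296)))) (b (b (c (l 16779176) (l 16778368)) (c (l 16779304) (l 16778448))) (b (b (l 16778984) (l 16779064)) (l 16779184)))) (b (b (c (l 16779152) (l 16778424)) (c (l 16779296) (l 16778488))) (b (b (l 16779016) (c (l 16779592) (l 16778656))) (a (b (l 16779200) (l 16779360)) (b (l 16779328) (l 16779488)))))) (b (b (a (c (l 16779952) (l 16778896)) (c (l 16780224) (l 16779096))) (b (b (a (c (l 16780192) (l 16779064)) (c (l 16780448) (l 16779248))) (b (a (c (l 16780264) (l 16779112)) (c (l 16780520) (l 16779296))) (b (a (c (l 16780296) (l 16779136)) (c (l 16780552) (l 16779320))) (a (c (l 16780320) (l 16779152)) (c (l 16780576) (l 16779336)))))) (a (c (l 16780424) (l 16779224)) (c (l 16780680) (l 16779408))))) (a (c (l 16780896) (l 16779552)) (c (l 16781136) (l 16779728))))), by decide +kernel⟩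

def k13_A00pm_102_s1 : ∃ t, chk3 f_A00pm_102_s1 t 11 40 1 = true :=
  ⟨(b (l 3) (a (l 3) (b (a (l 3) (b (l 3) (l 537067919))) (a (b (l 3) (a (b (l 3) (l 537383823)) (c (b (l 537427343) (l 537456015)) (b (l 537048463) (l 537074319))))) (b (l 537109135) (b (l 537139599) (c (l 537354383) (l 536974735)))))))), by decide +kernel⟩

def k14_A00pm_102_s1 : ∃ t, chk3 f_A00pm_102_s1 t 11 164 1 = true :=
  ⟨(a (a (l 3) (a (b (l 3) (c (b (l 538050191) (l 538134927)) (b (l 537624207) (l 537698447)))) (b (c (l 537808783) (l 537403535)) (c (b (l 537934223) (l 538017679)) (b (l 537513359) (l 537586575)))))) (a (b (a (c (l 537694351) (l 537293455)) (a (c (l 537618063) (l 537218191)) (b (l 537583247) (l 537390991)))) (a (c (l 537858191) (l 537437327)) (c (a (l 537770639) (l 537707407)) (a (l 537352847) (l 537293199))))) (a (b (b (l 537244047) (l 537306255)) (c (l 537608335) (l 537201551))) (b (b (l 537165455) (l 537215887)) (c (l 537499791) (l 537099663)))))), by decide +kernel⟩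

def k15_A00pm_102_s1 : ∃ t, chk3 f_A00pm_102_s1 t 11 165 1 = true :=
  ⟨(a (b (c (a (b (c (a (l 3) (l 538445711)) (l 538284943)) (c (a (c (l 538710159) (l 538599055)) (l 538535823)) (l 538637967))) (b (c (l 538265743) (l 538052239)) (c (l 538353807) (l 538134671)))) (a (b (c (l 538056335) (a (l 3) (l 537765519))) (c (l 538135183) (a (c (l 538008207) (l 537883535)) (l 537838223)))) (b (c (l 537830031) (l 537599375)) (c (l 537907087) (l 537671055))))) (a (a (b (b (c (l 538609295) (l 538127503)) (c (l 538654095) (l 538165903))) (c (b (l 538699407) (c (l 538864271) (l 538622863))) (b (l 538204815) (c (l 538372239) (l 538112911))))) (b (c (c (l 538626703) (l 538397071)) (c (l 538158735) (l 537911439))) (c (b (l 538580111) (l 538624911)) (b (l 538093967) (l 538132623))))) (b (c (c (l 538442383) (l 538217871)) (c (l 537984655) (l 537743247))) (c (b (l 538396815) (l 538440591)) (c (l 538062223) (b (l 537798031) (l 537834639))))))) (a (b (c (a (b (l 537982095) (l 538065039)) (b (l 537867663) (l 537950095)))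 (a (b (l 537545615) (l 537618063)) (b (l 537435023) (l 537507215)))) (b (a (c (l 538148239) (l 537691023)) (c (l 538033295) (l 537579919))) (a (c (l 538231695) (l 537763983)) (c (l 538115983) (l 537652111))))) (b (c (a (l 537763727) (l 537638799)) (a (l 537337487) (l 537221519))) (b (c (l 537813647) (l 537377935)) (c (l 538159759) (a (l 537513103) (l 537384079))))))), by decide +kernel⟩

def k16_A00pm_102_s1 : ∃ t, chk3 f_A00pm_102_s1 t 44 166 1 = true :=
  ⟨(b (b (b (b (c (a (c (l 538897295) (l 538653583)) (l 538657679)) (a (b (l 538267535) (l 538273423)) (l 538160783))) (a (b (c (l 538784143) (l 538276495)) (c (l 538785679) (l 538277263))) (c (l 538670735) (l 538171535)))) (a (a (c (b (l 538808463) (l 538797455)) (b (l 538296975) (l 538285199))) (c (b (l 538758799) (l 538753423)) (b (l 538251151) (l 538244495)))) (c (b (l 538676879) (l 538677391)) (b (l 538175631) (l 538174351))))) (a (b (c (a (b (l 538780559) (l 538758799)) (b (l 538742415) (l 538726543))) (a (b (l 538267791) (l 538246031)) (b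 (l 538232719) (l 538216335)))) (a (b (a (l 538484879) (l 538475151)) (l 538450575)) (c (l 538694799) (l 538184079)))) (b (c (b (l 538672783) (l 538663823)) (b (l 538168463) (l 538158223))) (c (b (l 538650767) (l 538634127)) (b (l 538144399) (l 538126991)))))) (b (a (b (a (c (l 538651535) (l 538139535)) (c (l 538640015) (l 538129039))) (a (c (l 538570895) (l 538059407)) (c (l 16779440) (l 16778768)))) (b (c (a (l 538616975) (l 16779792)) (b (l 538105999) (l 538081935))) (c (a (l 16779688) (l 16779936)) (a (l 16778944) (l 16779104))))) (b (b (a (a (l 16778936) (l 16779168)) (a (l 16779384) (l 16779584))) (a (l 538473615) (l 538477199))) (a (b (l 538421391) (l 538109071)) (a (l 16779440) (l 16779648)))))), by decide +kernel⟩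

def k17_A00pm_102_s1 : ∃ t, chk3 f_A00pm_102_s1 t 44 167 1 = true :=
  ⟨(a (b (a (b (b (l 16779040) (c (l 16779584) (l 16778696))) (b (c (l 16779808) (l 16778824)) (b (b (l 16779480) (l 16779552)) (l 16779672)))) (b (b (l 16779272) (l 16779376)) (b (c (l 16780088) (l 16779024)) (b (l 16779752) (l 16779904))))) (a (c (b (l 16780680) (l 16781400)) (b (l 16779416) (l 16779912))) (c (l 16781304) (l 16779848)))) (a (b (b (b (l 16779496) (l 16779608)) (b (c (l 16780352) (l 16779208)) (b (l 16779976) (l 16780120)))) (c (l 16781560) (l 16780024))) (b (b (b (l 16779704) (l 16779816)) (b (c (l 16780608) (l 16779376)) (b (l 16780184) (l 16780336)))) (b (l 16780704) (l 16781288))))), by decide +kernel⟩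

def k18_A00pm_102_s1 : ∃ t, chk3 f_A00pm_102_s1 t 45 83 1 = true :=
  ⟨(b (b (b (b (b (c (l 538472847) (l 537988239)) (a (a (l 538338959) (l 538280079)) (l 538189967))) (c (a (b (l 538560911) (l 538566287)) (l 538444943)) (a (b (l 538067343) (l 538070671)) (l 537957519)))) (b (c (a (b (l 538567567) (l 538564751)) (l 538454927)) (a (b (l 538070159) (l 538065807)) (l 537963407))) (c (a (a (l 538577807) (l 16780064)) (l 538451855)) (a (b (l 538058127) (l 538047375)) (l 537957007))))) (b (c (b (a (a (l 16780024) (l 16780248)) (l 538437263)) (a (l 538489999) (l 538411407))) (b (a (a (l 16779176) (l 16779312)) (l 537939343)) (a (l 537984911) (l 537910927)))) (b (a (b (l 538203279) (l 538173839)) (a (l 16780144) (l 16780296))) (a (a (l 16779840) (l 16780024)) (c (l 16780912) (l 16779632)))))) (a (a (b (b (b (l 16779904) (l 16780016)) (b (l 16780192) (b (l 16780384) (l 16780536)))) (b (l 16780896) (l 16781472))) (b (b (b (l 16780088) (l 16780208)) (b (l 16780384) (b (l 16780576) (l 16780720)))) (b (l 16781080)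 (l 16781648)))) (a (b (b (b (l 16780264) (l 16780376)) (b (l 16780560) (b (l 16780744) (l 16780888)))) (l 16781528)) (b (b (b (l 16780416) (l 16780536)) (b (l 16780720) (b (l 16780904) (l 16781048)))) (l 16781680))))), by decide +kernel⟩

def k19_A00pm_102_s1 : ∃ t, chk3 f_A00pm_102_s1 t 46 83 1 = true :=
  ⟨(b (b (b (b (a (c (l 538294671) (l 537818767)) (c (l 538170511) (l 537700239))) (a (c (l 538322319) (l 537841551)) (a (l 537994895) (l 16780024)))) (b (a (c (l 538337679) (l 537852559)) (a (l 538010767) (l 16780216))) (c (a (l 538341775) (l 538225551)) (a (l 537852815) (l 537742735))))) (b (b (c (a (l 538335631) (l 16781200)) (a (l 537843343) (l 16779768))) (c (a (l 16781064) (l 16781352)) (a (l 537824143) (l 16779848)))) (b (c (a (l 16781184) (l 16781480)) (a (l 16779792) (l 16779896))) (c (a (l 16781280) (l 16781576)) (a (l 16779816) (l 16779920)))))) (a (a (b (b (c (l 16781368) (l 16779832)) (b (l 16780864) (b (l 16781048) (l 16781192)))) (l 16781816)) (b (b (c (l 16781544) (l 16779912)) (b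 (l 16780984) (b (l 16781176) (l 16781312)))) (l 16781928))) (c (b (b (c (l 16782208) (l 16781328)) (b (l 16782104) (b (l 16782328) (l 16782496)))) (l 16783224)) (b (b (b (l 16779960) (l 16780040)) (b (l 16780176) (b (l 16780320) (l 16780432)))) (l 16780920))))), by decide +kernel⟩

def k20_A00pm_102_s1 : ∃ t, chk3 f_A00pm_102_s1 t 47 166 1 = true :=
  ⟨(a (b (b (b (l 537800335) (l 537829007)) (b (l 537848719) (l 537860751))) (b (a (b (l 16780568) (l 16780688)) (l 16780632)) (b (l 16780776) (l 16780848)))) (b (b (a (l 16779960) (l 16779928)) (a (l 16780320) (l 16780288))) (b (b (l 16780536) (l 16780648)) (c (l 16781760) (l 16779768))))), by decide +kernel⟩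

def k21_A00pm_102_s1 : ∃ t, chk3 f_A00pm_102_s1 t 188 167 2 = true :=
  ⟨(c (b (b (l 16782400) (b (l 16782768) (l 16783104))) (l 16783984)) (a (b (b (l 16781440) (b (l 16781736) (l 16782016))) (l 16782752)) (c (b (b (l 16781704) (b (l 16782024) (l 16782312))) (l 16783088)) (a (c (a (c (b (b (l 16781400) (b (l 16781688) (l 16781968))) (l 16782696)) (b (b (l 16781280) (b (l 16781560) (l 16781832))) (l 16782544))) (c (b (b (l 16781400) (b (l 16781696) (l 16781968))) (l 16782696)) (b (b (l 16781280) (b (l 16781568) (l 16781832))) (l 16782544)))) (a (c (b (b (l 16781160) (b (l 16781432) (l 16781696))) (l 16782384)) (b (b (l 16781040) (b (l 16781304) (l 16781560))) (l 16782232))) (c (b (b (l 16781160) (b (l 16781440) (l 16781696))) (l 16782392)) (b (b (l 16781040) (b (l 16781304) (l 16781560))) (l 16782240))))) (c (b (b (l 16781352) (b (l 16781640) (l 16781912))) (l 16782632)) (a (b (b (l 16781104) (b (l 16781376) (l 16781632))) (l 16782320)) (b (b (l 16781112) (b (l 16781376) (l 16781640))) (l 16782320)))))))),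 by decide +kernel⟩

def k22_A00pm_102_s1 : ∃ t, chk3 f_A00pm_102_s1 t 189 167 2 = true :=
  ⟨(c (b (b (l 16782480) (b (l 16782856) (l 16783184))) (l 16784056)) (a (c (a (c (b (b (l 16781848) (b (l 16782176) (l 16782472))) (l 16783256)) (b (b (l 16781600) (b (l 16781912) (l 16782192))) (l 16782944))) (c (b (b (l 16781856) (b (l 16782184) (l 16782488))) (l 16783272)) (b (b (l 16781616) (b (l 16781920) (l 16782208))) (l 16782952)))) (a (c (b (b (l 16781360) (b (l 16781648) (l 16781920))) (l 16782632)) (b (b (l 16781112) (b (l 16781384) (l 16781640))) (l 16782320))) (c (b (b (l 16781368) (b (l 16781656) (l 16781928))) (l 16782640)) (b (b (l 16781112) (b (l 16781384) (l 16781640))) (l 16782320))))) (c (a (b (b (l 16781744) (b (l 16782064) (l 16782352))) (l 16783120)) (b (b (l 16781752) (b (l 16782064) (l 16782360))) (l 16783120))) (a (c (b (b (l 16781368) (b (l 16781656) (l 16781928))) (l 16782640)) (b (b (l 16781112) (b (l 16781384) (l 16781648))) (l 16782320))) (b (b (l 16781240) (b (l 16781520) (l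 16781784))) (l 16782480)))))), by decide +kernel⟩

def k23_A00pm_102_s1 : ∃ t, chk3 f_A00pm_102_s1 t 94 167 3 = true :=
  ⟨(b (b (b (l 16779960) (l 16780048)) (b (l 16780184) (b (l 16780328) (l 16780440)))) (l 16780912)), by decide +kernel⟩

def k24_A00pm_102_s1 : ∃ t, chk3 f_A00pm_102_s1 t 95 167 2 = true :=
  ⟨(a (c (a (c (b (b (l 16782768) (b (l 16783160) (l 16783504))) (l 16784408)) (b (b (l 16782264) (b (l 16782616) (l 16782936))) (l 16783768))) (c (b (b (l 16782792) (b (l 16783184) (l 16783528))) (l 16784424)) (b (b (l 16782272) (b (l 16782632) (l 16782944))) (l 16783776)))) (a (c (b (b (l 16781752) (b (l 16782072) (l 16782360))) (l 16783120)) (b (b (l 16781240) (b (l 16781520) (l 16781784))) (l 16782472))) (c (b (b (l 16781752) (b (l 16782072) (l 16782360))) (l 16783120)) (b (b (l 16781224) (b (l 16781504) (l 16781768))) (l 16782456))))) (c (a (b (b (l 16782544) (b (l 16782920) (l 16783248))) (l 16784104)) (b (b (l 16782560) (b (l 16782928) (l 16783256))) (l 16784096))) (a (c (b (b (l 16781752)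 (b (l 16782064) (l 16782352))) (l 16783104)) (b (b (l 16781208) (b (l 16781496) (l 16781752))) (l 16782432))) (b (b (l 16781472) (b (l 16781768) (l 16782040))) (l 16782744))))), by decide +kernel⟩

def k25_A00pm_102_s1 : ∃ t, chk3 f_A00pm_102_s1 t 95 167 3 = true :=
  ⟨(a (a (c (a (c (b (b (l 16780720) (b (l 16780968) (l 16781200))) (l 16781824)) (b (b (l 16780200) (b (l 16780408) (l 16780616))) (l 16781176))) (b (b (l 16780448) (b (l 16780672) (l 16780896))) (l 16781488))) (a (c (b (b (l 16779664) (b (l 16779840) (l 16780024))) (l 16780512)) (b (b (l 16779136) (b (l 16779272) (l 16779432))) (l 16779856))) (c (b (b (l 16779648) (b (l 16779824) (l 16780008))) (l 16780488)) (b (b (l 16779104) (b (l 16779248) (l 16779400))) (l 16779824))))) (c (a (b (b (l 16780432) (b (l 16780656) (l 16780880))) (l 16781464)) (b (b (l 16780416) (b (l 16780648) (l 16780864))) (l 16781448))) (a (c (b (b (l 16779624) (b (l 16779800) (l 16779984))) (l 16780464)) (b (b (l 16779080) (b (l 16779216) (l 16779376))) (l 16779792)))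 (b (b (l 16779328) (b (l 16779480) (l 16779648))) (l 16780096))))) (a (c (c (b (b (l 16780664) (b (l 16780912) (l 16781144))) (l 16781760)) (b (b (l 16780120) (b (l 16780328) (l 16780536))) (l 16781080))) (a (b (b (l 16779296) (b (l 16779456) (l 16779624))) (l 16780064)) (b (b (l 16779272) (b (l 16779424) (l 16779592))) (l 16780032)))) (c (c (b (b (l 16780640) (b (l 16780880) (l 16781112))) (l 16781720)) (b (b (l 16780080) (b (l 16780288) (l 16780488))) (l 16781024))) (b (b (l 16779224) (b (l 16779376) (l 16779544))) (l 16779984))))), by decide +kernel⟩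

def k26_A00pm_102_s1 : ∃ t, chk3 f_A00pm_102_s1 t 20 42 1 = true :=
  ⟨(a (l 2) (b (b (a (l 2) (b (b (a (l 2) (a (l 2) (a (l 2) (l 16780320)))) (l 2)) (l 2))) (l 2)) (l 2))), by decide +kernel⟩

def k27_A00pm_102_s1 : ∃ t, chk3 f_A00pm_102_s1 t 21 84 1 = true :=
  ⟨(a (b (a (c (a (b (c (l 16781720) (l 16781040)) (l 16783056)) (b (c (l 16781800) (l 16781096)) (l 16783096))) (a (a (b (l 16780040) (l 16781272)) (b (l 16780040) (l 16781264))) (a (b (l 16780048) (l 16781256)) (b (l 16780056) (l 16781256))))) (a (c (b (c (l 16781888) (l 16781160)) (l 16783152)) (b (a (l 16780072) (l 16780088)) (c (l 16781728) (l 16780792)))) (c (b (c (l 16782000) (l 16781240)) (l 16783216)) (b (a (l 16780104) (l 16780128)) (a (l 16781264) (l 16781272)))))) (c (a (a (l 16782968) (l 16782968)) (a (b (l 16784776) (l 16786424)) (b (l 16784816) (l 16786432)))) (a (a (b (l 16782504) (l 2)) (b (l 16782464) (l 16783688))) (a (b (l 16782440) (l 16783640)) (b (l 16782424) (l 16783600)))))) (a (a (b (b (c (c (l 16782120) (l 16781336))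 (a (l 16780152) (l 16780184))) (c (l 16783288) (a (l 16781280) (l 16781296)))) (c (c (l 16786328) (l 16784984)) (b (l 16782416) (l 16783560)))) (a (b (c (c (l 16783048) (l 16782128)) (b (l 16780224) (l 16781320))) (c (l 16785688) (l 16782984))) (b (c (c (l 16783120) (l 16782184)) (b (l 16780264) (l 16781344))) (c (l 16785712) (l 16782984))))) (a (a (b (c (c (l 16783192) (l 16782240)) (b (l 16780312) (l 16781368))) (c (l 16785744) (l 16782992))) (b (c (l 16782800) (l 16780888)) (c (l 16785792) (l 16783008)))) (a (b (c (l 16782896) (l 16780952)) (c (l 16785856) (l 16783032))) (c (b (l 16783008) (l 16785920)) (b (l 16781024) (l 16783072))))))), by decide +kernel⟩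

def k28_A00pm_102_s1 : ∃ t, chk3 f_A00pm_102_s1 t 21 85 1 = true :=
  ⟨(a (a (b (a (l 2) (c (l 16788968) (l 16785560))) (l 2)) (b (a (c (l 16788920) (l 16785472)) (c (l 16788888) (l 16785384))) (a (c (l 16792336) (l 16787984)) (c (l 16792240) (l 16787848))))) (a (a (b (c (l 16788864) (b (l 16784728) (l 16785912))) (c (l 16792160) (l 16787728))) (b (c (l 16786224) (b (l 16784672) (l 16785832))) (c (l 16792088) (l 16787608)))) (a (b (c (c (l 16789784) (l 16787936)) (b (l 16784648) (l 16785776))) (c (l 16792032) (l 16787504))) (c (b (l 16786288) (l 16792016)) (b (b (l 16784656) (l 16785752)) (l 16787440)))))), by decide +kernel⟩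

def k29_A00pm_102_s1 : ∃ t, chk3 f_A00pm_102_s1 t 10 43 1 = true :=
  ⟨(a (l 2) (a (b (a (l 2) (b (a (l 2) (l 16787792)) (l 2))) (l 2)) (b (a (a (b (c (l 16795552) (l 16790224)) (l 16795920)) (b (c (l 16795416) (l 16790056)) (c (l 16798856) (l 16792600)))) (a (b (c (l 16795304) (l 16789896)) (c (l 16798688) (l 16792384))) (b (c (l 16795232) (l 16789776)) (c (l 16798552) (l 16792208))))) (a (a (l 2) (b (l 16798800) (l 2))) (a (b (l 16788064) (l 16801696)) (c (l 16798488) (b (l 16794744) (l 16797384)))))))), by decide +kernel⟩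

def k30_A00pm_102_s1 : ∃ t, chk3 f_A00pm_102_s1 t 11 42 1 = true :=
  ⟨(a (b (a (a (a (c (b (c (l 16783696) (l 16782664)) (c (l 16786800) (l 16785328))) (b (a (l 16781104) (l 16781184)) (a (l 16783120) (l 16783184)))) (c (b (l 16783424) (l 16786264)) (b (l 16781312) (a (l 16783248) (l 16783312))))) (c (a (b (l 16783664) (l 16786480)) (b (l 16783888) (l 16786688))) (a (b (l 16781472) (l 16783416)) (b (l 16781616) (l 16783544))))) (a (c (a (b (l 16784104) (l 16786888)) (l 16785688)) (a (b (l 16781744) (l 16783656)) (l 16782800))) (c (a (l 16785872) (l 16786040)) (a (l 16782896) (l 16782976))))) (a (a (a (c (b (l 16786384) (l 16792048)) (b (a (l 16785216) (l 16785248)) (l 16787408))) (c (b (l 16789152) (l 16792128)) (b (l 16785312) (l 16787416)))) (c (a (b (l 16789336) (l 16792256)) (b (l 16789528) (l 16792408))) (a (b (l 16785408) (l 16787464)) (b (l 16785520) (l 16787536))))) (a (c (a (l 16791136) (l 16791296)) (a (b (l 16785616) (l 16787624)) (l 16786680))) (c (a (l 16791448) (l 16791584)) (a (l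 16786744) (l 16786784)))))) (b (a (a (c (a (l 16786192) (l 16786328)) (b (l 16782160) (l 16783984))) (c (b (l 16785192) (l 16787848)) (b (l 16782224) (l 16784016)))) (a (c (b (l 16785344) (l 16787952)) (b (l 16782184) (l 16783936))) (c (b (l 16785336) (l 16787912)) (b (l 16782008) (l 16783712))))) (a (a (c (a (l 16791696) (l 16791800)) (a (l 16786808) (l 16786816))) (c (a (l 16791888) (l 16791944)) (a (l 16786808) (l 16786768)))) (a (c (l 16789352) (b (l 16785736) (l 16787600))) (c (l 16791864) (l 16786376)))))), by decide +kernel⟩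

def k31_A00pm_102_s1 : ∃ t, chk3 f_A00pm_102_s1 t 11 43 1 = true :=
  ⟨(a (a (b (a (a (c (b (l 16795200) (l 16798456)) (b (l 16789680) (l 16792064))) (c (b (l 16795216) (l 16798408)) (b (l 16789632) (l 16791944)))) (a (c (b (l 16795272) (l 16798400)) (b (l 16789616) (l 16791872))) (c (b (l 16795376) (l 16798424)) (b (l 16789640) (l 16791824))))) (a (c (a (b (l 16801824) (l 16805304)) (b (l 16801712) (l 16805128))) (b (a (l 16794544) (l 16794368)) (a (l 16797128) (l 16796896)))) (c (b (a (l 16801632) (l 16801600)) (a (l 16804984) (l 16804888))) (b (a (l 16794232) (l 16794128)) (a (l 16796704) (l 16796536)))))) (a (b (c (a (b (l 16795504) (l 16798504)) (b (l 16795648) (l 16798608))) (a (b (l 16789680) (l 16791824)) (b (l 16789736) (l 16791840)))) (a (c (l 16797960) (b (l 16794056) (l 16796408))) (c (l 16803232) (b (l 16794024) (l 16796304))))) (b (c (a (l 16797240) (l 16797344)) (a (l 16790808) (l 16790824))) (c (a (l 16803272) (l 16803328)) (a (l 16795112) (l 16795080)))))) (a (a (b (c (a (l 16797424)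 (l 16797496)) (a (l 16790816) (l 16790792))) (c (l 16803424) (a (l 16795056) (l 16795008)))) (b (c (l 16797560) (l 16790712)) (c (l 16803464) (l 16794880)))) (a (b (c (l 16797544) (l 16790504)) (c (l 16803376) (l 16794616))) (b (c (l 16797368) (l 16790160)) (c (l 16803136) (l 16794200)))))), by decide +kernel⟩

def k32_A00pm_102_s1 : ∃ t, chk3 f_A00pm_102_s1 t 4 11 1 = true :=
  ⟨(l 2), by decide +kernel⟩

def k33_A00pm_102_s1 : ∃ t, chk3 f_A00pm_102_s1 t 10 11 1 = true :=
  ⟨(b (b (a (l 2) (a (l 2) (a (l 2) (b (a (l 2) (c (l 16811024) (l 16801544))) (l 2))))) (l 2)) (l 2)), by decide +kernel⟩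

def k34_A00pm_102_s1 : ∃ t, chk3 f_A00pm_102_s1 t 11 11 1 = true :=
  ⟨(b (a (b (a (b (a (a (b (l 16804320) (l 16807576)) (b (l 16793576) (l 16807256))) (a (b (l 16798592) (l 16806968)) (b (l 16798400) (l 16806712)))) (a (c (l 16807664) (b (l 16805336) (l 2))) (b (c (l 16815600) (l 16804608)) (c (l 16819416) (l 16807512))))) (a (b (c (b (l 16808120) (l 16811552)) (b (l 16798784) (l 16801328))) (c (b (l 16815096) (l 16818768)) (b (l 16803984) (l 16806760)))) (b (a (c (l 16809680) (l 16799784)) (c (l 16809656) (l 16799672))) (c (b (l 16814736) (l 16818280)) (b (l 16803480) (l 16806136)))))) (a (a (l 2) (a (l 2) (b (l 16807920) (l 2)))) (b (a (a (l 16807512) (l 16807088)) (c (l 16823832) (l 16805096))) (a (c (l 16832584) (l 16817392)) (c (l 16831736) (l 16816424)))))) (a (b (a (b (c (a (l 16809632) (l 16809632)) (a (l 16799560) (l 16799464))) (a (c (l 16816264) (l 16804440)) (l 16804936))) (b (c (l 16809624) (l 16799312)) (c (l 16816056) (l 16804000)))) (a (b (c (l 16823280) (l 16809640)) (c (l 16830880)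 (l 16815440))) (b (c (l 16822904) (l 16809096)) (c (l 16830192) (l 16814600))))) (b (a (b (c (l 16809488) (l 16798984)) (c (l 16815872) (l 16803632))) (b (l 16803816) (l 16809272))) (a (b (c (l 16822536) (l 16808544)) (c (l 16829648) (l 16813880))) (b (l 16815016) (l 16821048)))))) (a (b (a (l 2) (b (a (l 2) (c (l 16840048) (l 16822904))) (l 2))) (l 2)) (b (a (b (a (c (l 16839072) (l 16821800)) (l 16818816)) (a (l 16838064) (l 16836872))) (a (b (l 16828360) (l 16835616)) (b (l 16827528) (l 16834464)))) (a (b (a (l 2) (l 16844872)) (l 2)) (b (a (l 16843496) (l 16842024)) (a (l 16851832) (l 16850240))))))), by decide +kernel⟩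

def k35_A00pm_102_s1 : ∃ t, chk3 f_A00pm_102_s1 t 2 3 1 = true :=
  ⟨(a (l 2) (b (a (l 2) (b (b (a (l 2) (b (a (l 2) (b (l 16859760) (l 2))) (l 2))) (l 2)) (l 2))) (l 2))), by decide +kernel⟩

def k36_A00pm_102_s1 : ∃ t, chk3 f_A00pm_102_s1 t 12 4 1 = true :=
  ⟨(b (l 3) (b (l 3) (b (l 3) (a (l 3) (b (a (l 3) (a (l 3) (b (l 3) (b (l 3) (c (l 536414863) (l 536102543)))))) (a (b (l 3) (b (a (l 3) (c (l 536543631) (l 536220815))) (a (a (l 3) (c (l 536578703) (l 536253071))) (c (l 536532367) (l 536210575))))) (b (c (b (c (l 536523151) (l 536374671)) (c (l 536520079) (l 536371343))) (a (b (l 3) (l 536165775)) (b (l 536102287) (l 536100751)))) (c (c (l 536511631) (l 536363151)) (b (l 536127631) (l 536122767)))))))))), by decide +kernel⟩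

def k37_A00pm_102_s1 : ∃ t, chk3 f_A00pm_102_s1 t 13 8 1 = true :=
  ⟨(l 3), by decide +kernel⟩

def k38_A00pm_102_s1 : ∃ t, chk3 f_A00pm_102_s1 t 13 18 1 = true :=
  ⟨(a (l 3) (b (l 3) (a (l 3) (b (l 3) (b (l 3) (a (l 3) (b (l 535322511) (l 535361935)))))))), by decide +kernel⟩

def k39_A00pm_102_s1 : ∃ t, chk3 f_A00pm_102_s1 t 13 38 1 = true :=
  ⟨(a (a (l 3) (b (l 3) (b (a (l 3) (l 535862415)) (a (c (l 536129423) (l 535832207)) (l 535902863))))) (a (b (b (l 535620751) (l 535681423)) (b (a (l 535778447) (l 535696015)) (a (l 535821455) (l 535741839)))) (b (a (l 535528479) (b (l 535415951) (l 535480207))) (b (l 535571231) (a (l 535663503) (l 535587215)))))), by decide +kernel⟩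

def k40_A00pm_102_s1 : ∃ t, chk3 f_A00pm_102_s1 t 26 78 1 = true :=
  ⟨(a (b (b (b (l 3) (a (l 3) (a (l 3) (a (l 3) (l 536064399))))) (a (l 3) (a (b (l 3) (c (l 536269711) (l 535968399))) (c (c (a (c (b (b (l 536336015) (l 536338575)) (l 536342159)) (b (b (a (l 3) (l 536263311)) (l 536270991)) (l 536274319))) (b (b (l 536281743) (c (l 536317839) (l 536250511))) (a (l 536293263) (l 536283023)))) (a (b (a (b (l 3) (l 536170127)) (b (c (l 536193423) (l 536120975)) (a (l 536162447) (l 536157583)))) (l 536167967)) (b (b (l 536142223) (a (l 536150159) (l 536140175))) (a (l 536153487) (l 536143759))))) (c (a (b (b (c (l 536051343) (l 535974287)) (a (l 536020623) (l 536011151))) (l 536018319)) (b (b (l 535993487) (l 535996303)) (a (l 536004495) (l 535995023)))) (a (b (c (l 535896463) (l 535814799)) (l 535859343)) (b (b (l 535835279) (l 535838351)) (l 535842191)))))))) (b (a (a (l 3) (c (l 536314511) (l 536009871))) (a (c (l 536274831) (l 535973007)) (a (c (l 536178319) (l 535945615)) (c (c (l 536294799)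 (l 536154767)) (c (l 536005519) (l 535847055)))))) (a (c (l 536338063) (l 536031375)) (a (l 536536863) (a (l 536375327) (c (l 536233615) (l 535934095))))))) (b (b (a (l 536009615) (l 535929487)) (a (b (b (l 536018575) (c (l 536164495) (l 535869839))) (a (a (c (l 536199567) (l 535903375)) (l 536036751)) (l 536007311))) (b (l 535941519) (l 535948687)))) (a (b (a (c (b (l 536194447) (l 536199055)) (c (l 535977871) (l 535820687))) (c (l 536157583) (l 535863951))) (a (c (a (l 536214927) (l 536195983)) (c (l 535985807) (l 535828111))) (c (l 536167823) (l 535873167)))) (b (c (l 536098959) (l 535808143)) (c (l 536110991) (l 535819663)))))), by decide +kernel⟩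

def k41_A00pm_102_s1 : ∃ t, chk3 f_A00pm_102_s1 t 26 79 1 = true :=
  ⟨(a (a (b (c (l 536340623) (l 536033679)) (c (l 536342159) (l 536034447))) (b (a (c (l 536287119) (l 535983503)) (b (a (l 536112271) (l 536094607)) (l 536108431))) (c (l 536276367) (l 535972751)))) (b (a (a (b (c (l 536212879) (l 535914383)) (l 536074383)) (c (l 536179855) (l 535883919))) (b (c (l 536121999) (l 535829647)) (l 536258591))) (a (b (a (l 536080015) (l 536048015)) (l 536069407)) (c (l 536145551) (l 535850383))))), by decide +kernel⟩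

def k42_A00pm_102_s1 : ∃ t, chk3 f_A00pm_102_s1 t 27 39 1 = true :=
  ⟨(b (a (b (a (b (l 535850639) (l 535867791)) (l 535781919)) (a (b (l 535883151) (l 535897231)) (l 536353567))) (b (a (l 535706255) (l 535632271)) (a (l 535744399) (l 535673487)))) (a (b (a (c (l 536055695) (l 535766159)) (c (l 535985807) (l 535698831))) (c (a (l 536080783) (l 536016015)) (a (l 535788687) (l 535725967)))) (b (a (l 535778959) (l 535711631)) (a (b (l 16770008) (l 16769584)) (l 535749407))))), by decide +kernel⟩

def k43_A00pm_102_s1 : ∃ t, chk3 f_A00pm_102_s1 t 14 8 1 = true :=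
  ⟨(a (l 3) (b (l 3) (b (l 3) (a (l 3) (b (a (l 3) (a (l 3) (b (l 3) (c (c (a (l 534218783) (l 534076815)) (a (l 534001295) (l 533993103))) (c (l 533904015) (l 533804175)))))) (b (c (a (a (l 3) (c (b (l 3) (l 534135695)) (l 534050191))) (a (c (b (l 534111119) (l 534119311)) (l 534033039)) (c (a (l 534104207) (l 534096527)) (l 534284687)))) (a (a (l 3) (l 533912975)) (a (l 533894799) (l 533877135)))) (c (b (a (a (l 3) (c (l 534144143) (l 534064015))) (a (c (l 534127503) (l 534046607)) (c (l 534111375) (l 534029967)))) (a (a (c (l 534206351) (l 534124687)) (l 534148239)) (a (l 534130575) (l 534113423)))) (a (a (l 533966735) (l 533947535)) (a (l 534197391) (l 534179103)))))))))), by decide +kernel⟩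

def k44_A00pm_102_s1 : ∃ t, chk3 f_A00pm_102_s1 t 30 16 1 = true :=
  ⟨(a (l 3) (b (l 3) (a (l 3) (b (l 3) (a (l 3) (b (l 3) (a (b (l 3) (b (a (l 3) (c (l 533628559) (l 533461391))) (a (c (c (l 533685647) (l 533608591)) (l 533479055)) (c (l 533646479) (l 533477263))))) (b (a (l 3) (l 14)) (b (a (c (l 533627279) (l 533459599)) (c (l 533625999) (l 533458063))) (a (c (l 533645199) (l 533475215)) (c (l 533643663) (l 533473423)))))))))))), by decide +kernel⟩

def k45_A00pm_102_s1 : ∃ t, chk3 f_A00pm_102_s1 t 60 17 1 = true :=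
  ⟨(b (a (l 3) (b (l 3) (b (b (l 3) (a (l 3) (a (c (c (l 533930127) (l 533844879)) (l 533702287)) (c (l 534150799) (l 533695375))))) (a (c (a (b (l 3) (l 533945743)) (b (l 533918351) (l 533939087))) (a (l 534016655) (l 534009231))) (c (a (b (l 533911951) (l 533932431)) (b (l 533905551) (l 533925775))) (a (l 534001951) (l 533994783))))))) (a (b (c (b (b (a (l 3) (a (l 533977999) (l 533970831))) (a (a (l 3) (l 534001295)) (a (l 533994127) (l 533986959)))) (a (a (c (l 534069391) (l 533985167)) (c (l 534061967) (l 533977487))) (a (b (l 534007951) (l 534019727)) (b (l 534000527) (l 534012303))))) (a (b (a (l 3) (l 533807247)) (a (l 533844111) (l 533835663))) (b (a (l 533799311) (l 533791375)) (a (l 533827471) (l 533819535))))) (b (a (c (a (l 534048287) (l 534040719)) (l 534128415)) (c (a (l 534033295) (l 534025615)) (a (l 533849231) (l 533841295)))) (a (c (b (l 534323999) (l 534096527)) (b (l 533874575) (l 533911439))) (c (b (l 534308639) (l 534080143)) (a (l 533881999) (l 533873551)))))) (b (b (a (c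 (a (b (l 533963919) (l 533979791)) (b (l 533957007) (l 533972879))) (a (l 533783695) (l 533776015))) (a (c (b (l 533950351) (l 533965967)) (l 533768591)) (c (b (l 533943695) (l 533959055)) (l 533761167)))) (a (c (a (l 534267167) (l 534260111)) (a (l 533811599) (l 533803919))) (a (c (l 534252943) (l 533796239)) (c (l 533977743) (l 533788559))))) (b (a (c (a (l 534018447) (l 534011279)) (a (l 533833103) (l 533825167))) (a (c (l 534004111) (l 533817487)) (c (l 533997199) (l 533809807)))) (a (c (a (l 534050959) (l 534043535)) (a (l 533865359) (l 533857167))) (a (c (l 534036367) (l 533849231)) (c (l 534029199) (l 533841295)))))))), by decide +kernel⟩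

def k46_A00pm_102_s1 : ∃ t, chk3 f_A00pm_102_s1 t 122 34 1 = true :=
  ⟨(b (a (b (l 3) (a (l 3) (b (l 3) (c (c (l 533990175) (l 533771919)) (l 533631375))))) (b (a (l 3) (a (l 3) (b (l 3) (c (l 534002831) (l 533557135))))) (a (b (a (l 3) (b (l 3) (l 533698191))) (c (a (l 533812111) (l 533809551)) (l 533625487))) (b (c (a (l 533773967) (l 533771663)) (a (l 533592719) (l 533589903))) (c (a (l 533806991) (l 533804687)) (l 533888143)))))) (b (a (a (c (b (c (l 533891727) (l 533806735)) (l 533876367)) (b (l 533664655) (l 533688719))) (c (b (a (l 533846927) (l 533844111)) (l 533870479)) (b (l 533658255) (l 533682063)))) (a (c (b (a (l 533841295) (l 533838735)) (l 533864591)) (b (l 533651855) (l 533675663))) (b (c (a (l 533836175) (l 533833359)) (l 533645711)) (c (l 533858959) (l 533669263))))) (a (a (c (b (l 533899407) (l 533919631)) (b (l 533710223) (l 533729423))) (c (b (l 533893263) (l 533913231)) (b (l 533703311) (l 533722511)))) (a (c (b (l 533887375) (l 533907087)) (b (l 533696655) (l 533715599)))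 (b (c (l 533881487) (l 533689999)) (c (l 533901199) (l 533708687))))))), by decide +kernel⟩

def k47_A00pm_102_s1 : ∃ t, chk3 f_A00pm_102_s1 t 246 34 1 = true :=
  ⟨(b (b (b (a (l 3) (c (a (b (l 3) (l 533697679)) (b (l 533673359) (l 533695887))) (a (l 533513103) (l 533511055)))) (a (c (a (l 533732239) (l 533730191)) (a (l 533554575) (l 533552015))) (c (a (l 533728143) (l 533726351)) (a (l 533549711) (l 533547407))))) (a (b (c (a (l 533769359) (l 533767311)) (a (l 533587343) (l 533584783))) (c (a (l 533802127) (l 533799823)) (a (l 533616527) (l 533613711)))) (b (c (a (l 533765007) (l 533762959)) (a (l 533582223) (l 533579663))) (c (a (l 533797263) (l 533794959)) (a (l 533610895) (l 533608079)))))) (b (a (b (c (a (l 533830799) (l 533828239)) (l 533639823)) (c (l 533853583) (l 533662863))) (a (b (l 534003599) (l 533759119)) (b (l 534000783) (l 533756303)))) (a (b (c (l 533875599) (l 533683599)) (c (l 533895055) (l 533702031))) (b (a (l 533780367) (l 533777551)) (a (l 533799311) (l 533796239)))))), by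 decide +kernel⟩

def k48_A00pm_102_s1 : ∃ t, chk3 f_A00pm_102_s1 t 247 34 1 = true :=
  ⟨(b (b (a (b (a (c (b (l 533671823) (l 533694095)) (b (l 533499535) (l 533518735))) (c (b (l 533670287) (l 533692303)) (b (l 533497487) (l 533516431)))) (a (c (l 533724303) (l 533545103)) (c (l 533722511) (l 533542799)))) (b (a (c (b (l 533668751) (l 533690511)) (b (l 533495439) (l 533514383))) (c (b (l 533667215) (l 533688975)) (l 533502863))) (a (c (l 533720463) (l 533540495)) (c (l 533718671) (l 533538191))))) (a (b (a (c (l 533760655) (l 533577103)) (c (l 533758607) (l 533574543))) (a (c (l 533792655) (l 533605519)) (c (l 533790351) (l 533602703)))) (b (a (c (l 533756559) (l 533571983)) (c (l 533754511) (l 533569679))) (a (c (l 533788047) (l 533600143)) (c (l 533785999) (l 533597583)))))) (b (a (b (a (l 533998223) (l 533995407)) (a (l 533753487) (l 533750671))) (b (a (l 533992847) (l 533990287)) (a (l 533747855) (l 533745295)))) (a (b (a (l 533774479) (l 533771663)) (a (l 533793423) (l 533790351))) (b (a (l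 533768847) (l 533766031)) (c (l 16767416) (l 16766600)))))), by decide +kernel⟩

def k49_A00pm_102_s1 : ∃ t, chk3 f_A00pm_102_s1 t 61 35 1 = true :=
  ⟨(b (a (a (b (a (c (b (l 533937039) (l 533952655)) (l 533753743)) (c (b (l 533930895) (l 533945999)) (l 533746575))) (a (c (l 533971087) (l 533781135)) (c (l 533964431) (l 533773711)))) (b (a (c (b (l 533924495) (l 533939599)) (l 533739663)) (b (c (l 533918351) (l 533725583)) (l 534109327))) (a (c (l 533958031) (l 533766543)) (c (l 534219919) (l 533759375))))) (c (a (a (b (b (l 533912207) (l 16768264)) (l 534213775)) (b (b (l 533906319) (l 16764448)) (l 534274703))) (b (a (b (l 16764624) (l 16763232)) (b (l 16763392) (l 16762000))) (c (a (l 16761376) (l 16760152)) (a (l 16760888) (l 16759624))))) (a (a (b (b (l 533718671) (l 16764880)) (l 533752463)) (b (b (l 16767720) (l 16763600)) (l 534013839))) (b (a (b (l 16763800) (l 16762304)) (b (l 16762480) (l 16760992))) (c (b (l 16760448) (l 16758976)) (a (l 16759784) (l 16758432))))))) (a (a (b (a (c (l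 533990543) (l 533802383)) (c (l 533983887) (l 533794959))) (a (b (l 533913999) (l 16764224)) (b (l 533907087) (l 16760440)))) (b (a (b (l 533882511) (l 16764568)) (b (l 533875599) (l 16763368))) (a (b (l 16763144) (l 16759264)) (b (l 16759320) (l 16758072))))) (a (b (a (b (l 16763584) (l 16759528)) (b (l 16759728) (l 16758288))) (b (c (l 16758072) (l 16756824)) (a (l 16756856) (c (l 16756288) (l 16754864))))) (b (a (b (l 16758472) (l 16757008)) (b (c (l 16757800) (l 16756512)) (l 16755744))) (b (a (c (l 16756264) (l 16754880)) (l 16754240)) (l 16753616)))))), by decide +kernel⟩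

def k50_A00pm_102_s1 : ∃ t, chk3 f_A00pm_102_s1 t 31 16 1 = true :=
  ⟨(a (b (l 14) (a (b (l 14) (a (b (l 14) (a (a (a (b (l 14) (b (l 14) (l 533561743))) (l 14)) (l 14)) (l 14))) (l 14))) (l 14))) (l 14)), by decide +kernel⟩

def k51_A00pm_102_s1 : ∃ t, chk3 f_A00pm_102_s1 t 62 68 1 = true :=
  ⟨(b (a (a (a (b (a (c (l 533944719) (l 533500815)) (c (l 533674639) (l 533498767))) (a (c (l 533716879) (l 533535887)) (c (l 533715087) (l 533533839)))) (b (a (c (l 533673103) (l 533496975)) (l 14)) (a (c (l 533713295) (l 533531535)) (c (l 533711503) (l 533529487))))) (a (a (b (l 14) (c (l 533709711) (l 533527183))) (l 14)) (l 14))) (l 14)) (a (a (c (a (a (b (l 533752463) (l 533783695)) (b (l 533750415) (l 533781391))) (a (b (l 533748367) (l 533779343)) (b (l 533746575) (l 533777295)))) (a (a (b (l 533567119) (l 533595023)) (b (l 533564815) (l 533592207))) (a (b (l 533562255) (l 533589647)) (b (l 533559951) (l 533587343))))) (a (a (b (c (l 533744527) (l 533557647)) (c (l 533774991) (l 533584783))) (b (c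 (l 533742735) (l 533555343)) (c (l 16766264) (l 16765592)))) (a (b (c (l 533740687) (l 533553039)) (c (l 16765600) (l 16764888))) (b (l 14) (c (l 16764936) (l 16764176)))))) (a (a (a (b (l 14) (c (l 16764256) (l 16763456))) (l 14)) (l 14)) (l 14)))), by decide +kernel⟩

def k52_A00pm_102_s1 : ∃ t, chk3 f_A00pm_102_s1 t 62 69 1 = true :=
  ⟨(a (b (c (c (b (a (a (b (l 16768256) (l 16767552)) (b (l 16766984) (l 16766288))) (a (l 16765352) (l 16764048))) (a (a (b (l 16766856) (l 16766160)) (l 16765240)) (a (l 16763968) (l 16762648)))) (b (a (a (b (l 16767992) (l 16767272)) (b (l 16766688) (l 16765968))) (a (l 16765000) (l 16763656))) (a (a (b (l 16766544) (l 16765824)) (l 16764888)) (a (l 16763568) (l 16762208))))) (c (b (a (a (b (l 16767712) (l 16766960)) (b (l 16766360) (l 16765616))) (a (l 16764624) (l 16763240))) (a (a (b (l 16766208) (l 16765464)) (l 16764496)) (a (l 16763136) (l 16761736)))) (b (a (a (b (l 16767400) (l 16766624)) (b (l 16766008) (l 16765240))) (a (l 16764216) (l 16762784))) (a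 (a (b (l 16765848) (l 16765080)) (l 16764080)) (a (l 16762672) (l 16761232)))))) (b (a (a (a (l 533763215) (l 533760655)) (a (l 533757839) (l 533755023))) (c (a (l 16762368) (a (l 16761368) (l 16760728))) (a (l 16761400) (a (l 16760344) (l 16759640))))) (a (c (a (l 16763536) (l 16762264)) (a (l 16762640) (l 16761288))) (a (a (l 16760800) (c (l 16760632) (l 16759544))) (c (l 16759648) (l 16758480)))))) (a (b (a (b (a (c (l 16762840) (l 16761936)) (b (l 16762072) (l 16761360))) (a (c (l 16761456) (l 16760432)) (l 16760240))) (c (b (l 16761128) (l 16759696)) (b (l 16760104) (l 16758560)))) (c (a (b (l 16759672) (l 16758240)) (b (l 16758264) (l 16756832))) (a (b (l 16758520) (l 16756984)) (b (l 16757024) (l 16755480))))) (b (a (a (b (l 14) (l 16758048)) (l 14)) (l 14)) (c (a (l 16758752) (l 16754688)) (a (b (l 16755496) (l 16753960)) (l 16755808)))))), by decide +kernel⟩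

def k53_A00pm_102_s1 : ∃ t, chk3 f_A00pm_102_s1 t 62 35 1 = true :=
  ⟨(a (b (a (b (b (c (a (l 16762144) (l 16760856)) (a (l 16761144) (l 16759784))) (c (a (l 16760752) (l 16759464)) (a (l 16759656) (a (l 16758624) (l 16757952))))) (a (b (c (l 16759328) (l 16758144)) (c (l 16757960) (l 16756672))) (b (c (l 16758072) (l 16756792)) (l 16755944)))) (b (a (b (a (c (l 16759896) (l 16758752)) (l 16758656)) (l 16757520)) (c (l 16757480) (l 16756160))) (c (a (l 16755968) (l 16754600)) (a (l 16754552) (l 16753080))))) (a (b (c (a (l 16755784) (l 16754440)) (a (l 16754360) (l 16752920))) (c (b (l 16752944) (l 16751696)) (b (l 16751336) (l 16749960)))) (b (c (a (l 16753080) (l 16751704)) (a (l 16751464) (l 16749992))) (c (a (l 16750280) (l 16748904)) (b (l 16748424) (l 16747040)))))) (b (a (b (c (a (l 16756088) (l 16754680)) (a (l 16754672) (l 16753168))) (c (a (l 16753208) (l 16751792)) (a (l 16751592) (l 16750088)))) (b (c (a (l 16753256) (l 16751808)) (a (l 16751648) (l 16750104))) (c (a (l 16750368) (l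 16748928)) (a (l 16748560) (l 16747016))))) (a (b (c (a (l 16750312) (l 16748896)) (a (l 16748504) (l 16747000))) (c (l 16749424) (a (l 16745504) (l 16743992)))) (b (c (l 16749376) (a (l 16745472) (l 16743928))) (c (l 16743944) (l 16744312)))))), by decide +kernel⟩

def k54_A00pm_102_s1 : ∃ t, chk3 f_A00pm_102_s1 t 63 17 1 = true :=
  ⟨(a (b (b (l 14) (a (a (b (l 14) (b (l 14) (l 16751704))) (l 14)) (l 14))) (b (a (b (c (a (l 16750352) (l 16748872)) (a (l 16748544) (l 16746960))) (c (a (l 16747464) (l 16745984)) (a (l 16745456) (l 16743872)))) (b (a (a (l 16746784) (l 14)) (l 14)) (c (a (l 16744488) (l 16742968)) (a (l 16742272) (l 16740648))))) (a (b (c (l 16743824) (l 16744200)) (c (l 16741016) (l 16738560))) (b (c (l 16740832) (l 16738376)) (c (l 16738016) (l 16735352)))))) (b (l 14) (a (b (a (b (l 14) (l 16740248)) (l 14)) (b (c (l 16737760) (l 16735088)) (c (l 16734944) (l 16732064)))) (b (l 14) (a (c (l 16734000) (l 16731064)) (c (l 16732408) (l 16734608))))))), by decide +kernel⟩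

def k55_A00pm_102_s1 : ∃ t, chk3 f_A00pm_102_s1 t 28 9 1 = true :=
  ⟨(b (b (a (l 3) (b (l 3) (a (b (l 3) (c (l 534796431) (l 534572687))) (a (b (l 3) (l 534642319)) (b (l 534467727) (l 534611087)))))) (a (b (a (l 3) (b (l 534888079) (l 535001231))) (b (a (l 535445023) (l 535100047)) (a (b (l 535511439) (l 535282975)) (b (l 535166351) (l 535206543))))) (b (a (b (l 534817055) (l 534928783)) (b (c (l 534862991) (l 534627727)) (l 535128095))) (b (a (l 535026575) (l 535224975)) (a (b (l 535092623) (l 535132815)) (a (l 535061647) (l 535027343))))))) (b (a (b (a (b (a (l 535357839) (l 535319695)) (l 535402639)) (b (l 535261471) (l 535327775))) (a (b (l 535460495) (l 535512719)) (b (l 535387023) (l 535440527)))) (b (a (b (l 535188255) (l 535255583)) (b (a (l 535137423) (l 535103119)) (c (l 535316879) (l 535044495)))) (a (b (l 535315999) (l 535371039)) (b (c (l 535380111) (l 535104143)) (a (l 16764896) (l 16763720)))))) (c (a (b (a (b (l 535695247) (l 16769344)) (b (l 16768488) (l 16767616))) (a (b (l 16768544)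 (l 16767832)) (b (l 16766824) (l 16766128)))) (a (b (b (l 16766584) (l 16765720)) (b (l 16764936) (l 16764264))) (b (b (l 16764496) (l 16763640)) (b (l 16762880) (a (l 16762752) (l 16761536)))))) (a (b (a (b (l 535415183) (l 16767368)) (b (l 535345295) (l 16765344))) (a (b (l 16766264) (l 16765232)) (b (l 16764240) (l 16763208)))) (a (b (b (l 535276943) (l 16763128)) (b (l 16762024) (l 16761008))) (a (b (b (l 16762504) (l 16761320)) (b (l 16760224) (l 16759224))) (b (b (l 16761232) (l 16760056)) (b (l 16758968) (b (l 16758216) (l 16757608)))))))))), by decide +kernel⟩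

def k56_A00pm_102_s1 : ∃ t, chk3 f_A00pm_102_s1 t 29 36 1 = true :=
  ⟨(a (b (a (b (l 3) (c (a (l 3) (l 534385551)) (l 534203023))) (c (b (a (b (l 3) (l 534304655)) (b (b (a (l 3) (c (l 534263439) (l 534179983))) (c (l 534286991) (l 534203279))) (l 534281103))) (a (l 534360463) (l 534336543))) (b (a (l 534097295) (b (a (l 534061455) (l 534050447)) (l 534093199))) (a (l 534168463) (l 534144399))))) (a (a (b (l 534439055) (l 534580879)) (b (l 534679951) (l 534551439))) (a (b (l 534653327) (l 534523279)) (b (l 534627871) (l 534764175))))) (b (c (a (b (a (b (c (b (l 534247823) (l 534271887)) (b (l 534164111) (l 534187151))) (c (a (l 534311823) (l 534300815)) (l 534219151))) (b (a (l 534206351) (l 534196879)) (l 534244751))) (a (b (l 534298511) (l 534332559)) (b (l 534282383) (l 534316431)))) (b (a (b (l 534450063) (l 534226319)) (b (l 534163599) (l 534208143))) (a (b (l 534265231) (l 534300303)) (b (l 534247311) (l 534282895))))) (a (b (a (b (l 534033551) (l 534073999)) (b (l 534013583) (l 534053775)))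 (a (l 534122127) (l 534104207))) (b (a (b (l 533993615) (l 534034063)) (b (l 533974159) (l 534014351))) (a (l 534085775) (l 534066319))))) (a (a (b (c (l 534433935) (l 534228367)) (c (l 534576015) (l 534354575))) (b (c (l 534414991) (l 534207887)) (c (l 534554255) (l 534331279)))) (b (a (c (l 534666783) (l 534188943)) (c (l 534649487) (l 534169743))) (a (c (l 534534543) (l 534309775)) (c (l 534516367) (l 534289295))))))), by decide +kernel⟩

def k57_A00pm_102_s1 : ∃ t, chk3 f_A00pm_102_s1 t 29 37 1 = true :=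
  ⟨(a (b (a (b (a (l 534704527) (l 534673807)) (a (l 534813071) (l 534781583))) (b (a (l 534644111) (l 534615183)) (a (l 534750607) (l 534720655)))) (a (b (a (l 534908815) (l 534876559)) (a (l 534993807) (l 534961039))) (b (a (l 534845071) (l 534814351)) (a (l 534929039) (l 534897807))))) (a (b (a (b (l 534856223) (l 534960527)) (b (c (l 534676623) (l 534440591)) (l 534934047))) (b (a (l 534784655) (l 534757151)) (a (l 534867743) (c (l 16761488) (l 16759304))))) (b (a (b (c (l 534654607) (l 534417039)) (c (l 534761103) (l 16766104))) (b (c (l 534634383) (l 534394511)) (c (l 16760984) (l 16759072)))) (a (b (c (l 16761232) (l 16759192)) (c (l 16759976) (l 16757608))) (b (c (l 16759656) (l 16757416)) (c (l 16758424) (l 16755856))))))), by decide +kernel⟩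

def k58_A00pm_102_s1 : ∃ t, chk3 f_A00pm_102_s1 t 58 19 1 = true :=
  ⟨(b (b (a (b (a (l 535069327) (l 535036559)) (a (l 535137423) (l 535104655))) (b (a (l 535004303) (l 534972815)) (a (l 535072399) (l 535041055)))) (a (a (b (l 535199375) (l 16762480)) (b (l 535166863) (l 16761192))) (b (a (l 535135007) (c (l 16760936) (l 16758152))) (a (c (l 16761264) (l 16758344)) (c (l 16759952) (l 16756848)))))) (b (a (b (a (l 16761400) (l 16760112)) (a (l 16760400) (l 16756504))) (b (c (a (l 16760352) (b (l 16759216) (l 16758616))) (a (l 16757104) (b (l 16755864) (a (l 16755640) (l 16754672))))) (b (a (c (l 16759632) (l 16756144)) (c (l 16757776) (l 16754136))) (a (c (l 16759016) (a (l 16755920) (l 16754872))) (l 16754736))))) (a (c (b (a (l 16761168) (b (l 16760048) (l 16759336))) (a (b (l 16760432) (l 16759488)) (l 16757432))) (b (a (l 16757624) (b (a (l 16756896) (l 16756048)) (a (l 16756152) (l 16754928)))) (a (b (a (l 16757160) (l 16756224)) (l 16755584)) (l 16753544)))) (b (c (a (l 16757368) (l 16754648))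 (a (l 16753576) (l 16750808))) (c (a (l 16754728) (l 16751992)) (a (l 16750800) (l 16748016))))))), by decide +kernel⟩

def k59_A00pm_102_s1 : ∃ t, chk3 f_A00pm_102_s1 t 59 19 1 = true :=
  ⟨(b (b (b (a (a (l 534942495) (c (l 16760296) (l 16757784))) (b (a (l 16757832) (c (l 16757512) (l 16754696))) (a (l 16757184) (a (l 16755936) (c (l 16756440) (l 16753408)))))) (b (a (a (l 16759648) (l 16758128)) (a (c (l 16757952) (l 16755008)) (a (c (l 16756688) (l 16753584)) (l 16753920)))) (a (a (l 16759024) (l 16757512)) (a (a (l 16756320) (c (l 16756920) (l 16753760))) (l 16753480))))) (a (b (b (a (l 16758424) (l 16756888)) (a (l 16757840) (c (l 16757752) (a (l 16755048) (l 16754088))))) (b (a (l 16757248) (a (c (l 16757600) (l 16754240)) (l 16754728))) (a (c (l 16758192) (a (l 16755344) (l 16754392))) (l 16754232)))) (a (a (b (b (c (l 16757152) (l 16753928)) (l 16754552)) (l 16752792)) (b (l 16753776) (l 16751432))) (c (b (l 16753408) (l 16751136)) (b (l 16750000) (l 16747520)))))) (a (b (b (b (a (c (l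 16757424) (a (l 16754536) (l 16753240))) (l 16753032)) (c (l 16754928) (l 16751296))) (c (a (l 16754448) (l 16751736)) (a (l 16750720) (l 16747936)))) (c (a (b (l 16751912) (l 16749216)) (b (l 16749160) (l 16746432))) (a (b (l 16748024) (l 16745192)) (b (l 16745208) (l 16742344))))) (b (a (c (b (l 16751472) (l 16749000)) (b (l 16747760) (l 16745120))) (c (b (l 16748744) (l 16746232)) (b (l 16744944) (l 16742272)))) (a (c (b (l 16746384) (l 16743616)) (b (l 16742360) (l 16739472))) (c (b (l 16743584) (l 16740792)) (b (l 16739480) (l 16736568))))))), by decide +kernel⟩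

def k60_A00pm_102_s1 : ∃ t, chk3 f_A00pm_102_s1 t 60 36 1 = true :=
  ⟨(c (b (a (b (a (b (l 534145679) (l 534189967)) (b (l 534128527) (l 534172047))) (a (b (l 534229391) (l 534265231)) (a (l 534236047) (l 534227087)))) (b (a (a (l 534140047) (l 534131855)) (b (l 16765208) (l 16761456))) (a (b (l 16762432) (l 16761320)) (b (l 16760344) (l 16759248))))) (b (a (a (l 534631455) (b (l 16762384) (l 16761560))) (a (b (l 16760408) (l 16759624)) (l 16757984))) (a (a (l 534900367) (b (l 16760776) (l 16760024))) (a (l 16758504) (b (l 16756896) (a (l 16756696) (l 16755656))))))) (b (a (b (a (b (l 533955215) (l 533994895)) (a (l 533963151) (l 533953935))) (a (l 534046863) (l 534295951))) (a (b (b (l 533918351) (l 16762568)) (b (l 16761320) (l 16760088))) (b (b (l 16761560) (l 16760304)) (b (l 16759072) (l 16757848))))) (b (a (a (l 534149519) (l 534666127)) (a (l 16761160) (l 16756344))) (a (a (l 534536847) (l 16761392)) (a (b (l 16757144) (l 16756256)) (b (l 16754984) (a (l 16754656) (l 16753528)))))))), by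 decide +kernel⟩

def k61_A00pm_102_s1 : ∃ t, chk3 f_A00pm_102_s1 t 61 36 1 = true :=
  ⟨(b (a (a (b (a (c (l 16760392) (l 16759184)) (c (l 16759280) (l 16757992))) (a (l 534354063) (l 534345359))) (b (c (a (l 16758160) (l 16756992)) (a (l 16756792) (l 16755544))) (a (b (l 16755776) (l 16754608)) (b (l 16754576) (l 16753376))))) (a (b (a (b (l 16755664) (l 16754520)) (c (l 16754600) (l 16752968))) (c (l 16752864) (l 16751016))) (b (c (l 16752600) (l 16750840)) (c (l 16750216) (l 16748192))))) (a (a (b (a (c (l 16756416) (l 16754640)) (b (l 16754824) (c (l 16754952) (l 16752992)))) (a (b (c (l 16755320) (l 16753272)) (l 16753440)) (c (l 16753640) (l 16751424)))) (b (b (a (l 16753656) (l 16752304)) (l 16752016)) (c (l 16751672) (l 16749336)))) (a (b (c (l 16750832) (l 16748672)) (c (l 16749000) (l 16746496))) (b (c (l 16748144) (l 16745808)) (c (l 16746264) (l 16743592)))))), by decide +kernel⟩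

def k62_A00pm_102_s1 : ∃ t, chk3 f_A00pm_102_s1 t 60 37 1 = true :=
  ⟨(b (a (a (b (c (l 534614927) (l 16761560)) (c (l 16759320) (a (l 16757688) (l 16756744)))) (b (c (l 16758952) (b (l 16757424) (l 16756560))) (a (c (l 16758040) (l 16755784)) (c (l 16757160) (l 16754808))))) (a (b (c (b (l 16757456) (l 16756752)) (b (l 16755384) (a (l 16755048) (l 16753992)))) (a (c (b (l 16756584) (l 16755880)) (b (l 16754208) (a (l 16753624) (l 16753072)))) (c (b (l 16755584) (l 16754688)) (b (a (l 16753416) (l 16752824)) (l 16752064))))) (b (a (c (b (l 16755976) (l 16755264)) (b (l 16753768) (a (l 16753176) (l 16752536)))) (b (c (l 16754904) (l 16752592)) (l 16752776))) (c (a (l 16753864) (l 16752560)) (a (l 16751240) (l 16749864)))))) (a (a (c (b (l 16758024) (a (l 16757176) (b (l 16756648) (l 16755928)))) (a (b (l 16756048) (b (l 16754880) (l 16754080))) (b (l 16755120) (b (l 16753904) (l 16753024))))) (b (a (b (l 16755864) (c (l 16756400) (l 16753720))) (c (b (l 16756144) (l 16755352)) (b (a (l 16753816)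 (l 16753288)) (l 16752584)))) (a (b (c (l 16755648) (l 16752808)) (l 16753200)) (b (l 16752936) (l 16751864))))) (a (b (c (b (l 16754392) (l 16753392)) (b (a (l 16752336) (l 16750960)) (l 16750520))) (c (l 16751872) (l 16748808))) (b (c (l 16751264) (l 16748312)) (c (l 16749216) (l 16746000)))))), by decide +kernel⟩

def k63_A00pm_102_s1 : ∃ t, chk3 f_A00pm_102_s1 t 61 37 1 = true :=
  ⟨(a (b (a (b (c (l 16752472) (a (l 16750664) (l 16749272))) (c (l 16750576) (l 16747760))) (b (c (l 16749816) (l 16747152)) (c (l 16747872) (l 16744912)))) (a (b (c (l 16748584) (l 16745488)) (c (l 16746504) (l 16743144))) (b (c (l 16745848) (l 16742600)) (c (l 16743736) (l 16740224))))) (b (a (b (c (l 16747096) (l 16744272)) (c (l 16745120) (l 16741992))) (b (c (l 16744320) (l 16741336)) (c (l 16742296) (l 16739016)))) (a (b (c (l 16743056) (l 16739656)) (c (l 16740912) (l 16737248))) (c (b (l 16740200) (l 16738024)) (b (a (l 16737400) (l 16735880)) (a (l 16734976) (l 16733440))))))), by decide +kernel⟩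

def k64_A00pm_102_s1 : ∃ t, chk3 f_A00pm_102_s1 t 30 38 1 = true :=
  ⟨(a (a (b (a (b (a (b (c (l 16756192) (l 16753216)) (l 16753696)) (c (l 16754400) (l 16751304))) (c (l 16752944) (l 16749648))) (b (c (l 16752432) (l 16749248)) (c (l 16750280) (l 16746856)))) (a (c (b (l 16750736) (l 16748424)) (b (l 16747216) (l 16744704))) (c (b (l 16748032) (l 16745672)) (b (l 16744392) (l 16741848))))) (b (a (b (c (l 16749768) (l 16746456)) (c (l 16747576) (l 16744032))) (b (c (l 16747072) (l 16743616)) (c (l 16744832) (l 16741152)))) (a (c (b (l 16745288) (l 16742896)) (b (l 16741528) (l 16738952))) (c (b (l 16742504) (l 16740080)) (b (l 16738624) (l 16736008)))))) (a (b (a (c (b (l 16744328) (l 16742056)) (b (l 16740728) (l 16738240))) (c (b (l 16741528) (l 16739232)) (b (l 16737784) (l 16735264)))) (a (c (b (l 16739688) (l 16737232)) (b (l 16735672) (l 16733032))) (c (b (l 16736832) (l 16734344)) (b (l 16732672) (l 16730008))))) (b (a (c (b (l 16738680) (l 16736352)) (b (l 16734784) (l 16732240))) (c (b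 (l 16735768) (l 16733424)) (b (l 16734344) (l 16729160)))) (a (c (b (l 16733936) (l 16731424)) (b (l 16729632) (l 16726944))) (c (b (l 16730992) (l 16728456)) (b (l 16726528) (l 16723824))))))), by decide +kernel⟩

def k65_A00pm_102_s1 : ∃ t, chk3 f_A00pm_102_s1 t 30 39 1 = true :=
  ⟨(a (b (a (a (c (b (l 16745992) (l 16743440)) (b (l 16742096) (l 16739384))) (c (b (l 16743208) (l 16740624)) (b (l 16739208) (l 16736472)))) (a (c (b (l 16740392) (l 16737784)) (b (l 16736280) (l 16733520))) (c (b (l 16737552) (l 16734912)) (b (l 16733312) (l 16730528))))) (a (c (a (b (l 16740768) (l 16737944)) (b (l 16737920) (l 16735072))) (a (b (l 16736568) (l 16733632)) (b (l 16733632) (l 16730672)))) (c (a (b (l 16735048) (l 16732184)) (b (l 16732152) (l 16729272))) (a (b (l 16730656) (l 16727680)) (b (l 16727648) (l 16724656)))))) (b (a (a (c (b (l 16734672) (l 16732008)) (b (l 16730312) (l 16727504))) (c (b (l 16731760) (l 16729072)) (b (l 16727264) (l 16724440)))) (a (c (b (l 16728816) (l 16726104)) (b (l 16724176)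 (l 16721336))) (c (b (l 16725832) (l 16723104)) (b (l 16721048) (l 16718184))))) (a (c (a (b (l 16729232) (l 16726328)) (b (l 16726280) (l 16723360))) (a (b (l 16724608) (l 16721600)) (b (l 16721528) (l 16718504)))) (c (a (b (l 16723296) (l 16720360)) (b (l 16720272) (l 16717336))) (a (b (l 16718408) (l 16715376)) (b (l 16715248) (l 16712208))))))), by decide +kernel⟩

def k66_A00pm_102_s1 : ∃ t, chk3 f_A00pm_102_s1 t 62 18 1 = true :=
  ⟨(b (a (b (a (b (c (l 16749912) (l 16747968)) (c (l 16747504) (l 16745304))) (b (c (l 16747160) (l 16745032)) (c (l 16744728) (l 16742344)))) (a (b (c (l 16745392) (l 16742880)) (c (l 16743472) (l 16740624))) (b (c (l 16742584) (l 16739888)) (c (l 16740616) (l 16737592))))) (b (a (c (b (l 16744344) (l 16741888)) (b (l 16742024) (l 16739312))) (c (b (l 16741464) (l 16738984)) (b (l 16738952) (l 16736216)))) (a (b (c (l 16739704) (l 16736832)) (c (l 16737696) (l 16734496))) (b (c (l 16736760) (l 16733696)) (c (l 16734704) (l 16731320)))))) (a (b (a (b (c (l 16741480)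 (l 16738328)) (c (l 16739424) (l 16735976))) (b (c (l 16738584) (l 16735256)) (c (l 16736488) (l 16732872)))) (a (c (b (l 16737296) (l 16735088)) (b (a (l 16734344) (l 16732792)) (l 16731112))) (c (b (l 16734320) (l 16732088)) (b (l 16730432) (l 16727952))))) (b (a (c (b (l 16735624) (l 16733488)) (b (l 16732120) (l 16729696))) (c (b (l 16732600) (l 16730432)) (b (l 16728912) (l 16726464)))) (a (c (b (l 16731296) (l 16729032)) (b (l 16727240) (l 16724728))) (c (b (l 16728200) (l 16725912)) (b (l 16723976) (l 16721440))))))), by decide +kernel⟩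

def k67_A00pm_102_s1 : ∃ t, chk3 f_A00pm_102_s1 t 63 18 1 = true :=
  ⟨(a (b (b (a (c (b (l 16738512) (l 16736008)) (b (l 16735800) (l 16733048))) (c (b (l 16735488) (l 16732968)) (b (l 16732568) (l 16729800)))) (a (b (c (l 16733760) (l 16730496)) (c (l 16731656) (l 16728088))) (c (b (l 16730680) (l 16728544)) (b (l 16727224) (l 16724776))))) (b (a (c (b (l 16729512) (l 16727312)) (b (l 16725640) (l 16723160))) (c (b (l 16726360) (l 16724120)) (b (l 16722304) (l 16719792)))) (a (c (b (l 16725048) (l 16722736)) (b (l 16720648) (l 16718088))) (c (b (l 16721840) (l 16719496)) (b (l 16717248) (l 16714672)))))) (b (a (b (c (b (l 16732400) (l 16729856)) (b (l 16729272) (l 16726488))) (c (b (l 16727536) (l 16725360)) (b (l 16723880) (l 16721400)))) (b (c (b (l 16729232) (l 16726680)) (a (l 16725344) (l 16723632))) (c (b (l 16724328) (c (l 16723104) (l 16721104))) (a (l 16720064) (l 16718328))))) (a (a (b (c (l 16722824) (l 16718480)) (c (l 16718208) (l 16713360))) (b (c (l 16721184) (l 16716752)) (c (l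 16716544) (l 16711608)))) (b (c (b (c (l 16720912) (l 16718776)) (c (l 16718680) (l 16716416))) (a (l 16715008) (l 16713240))) (c (c (a (l 16716064) (l 16714400)) (a (l 16713648) (l 16711928))) (a (l 16709832) (l 16708048))))))), by decide +kernel⟩

def k68_A00pm_102_s1 : ∃ t, chk3 f_A00pm_102_s1 t 62 19 1 = true :=
  ⟨(b (a (b (a (c (b (l 16732800) (l 16730440)) (b (l 16728600) (l 16726016))) (c (b (l 16729776) (l 16727392)) (b (l 16725416) (l 16722816)))) (a (c (b (l 16727984) (l 16725440)) (b (l 16723376) (l 16720656))) (c (b (l 16724928) (l 16722376)) (b (l 16720160) (l 16717432))))) (b (a (c (b (l 16726696) (l 16724296)) (b (l 16722168) (l 16719552))) (c (b (l 16723560) (l 16721136)) (b (l 16718856) (l 16716232)))) (a (c (b (l 16721808) (l 16719248)) (b (l 16716880) (l 16714144))) (c (b (l 16718640) (l 16716064)) (b (l 16713544) (l 16710800)))))) (a (b (a (c (b (l 16722800) (l 16720064)) (b (l 16717864) (l 16715000))) (c (b (l 16719728) (l 16716984)) (b (l 16714632) (l 16711760)))) (c (a (b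 (l 16717224) (l 16714272)) (b (l 16714136) (l 16711176))) (a (b (l 16712048) (l 16709008)) (b (l 16708800) (l 16705760))))) (b (a (c (b (l 16716592) (l 16713848)) (b (l 16711344) (l 16708464))) (c (b (l 16713408) (l 16710664)) (b (l 16707992) (l 16705120)))) (a (c (b (l 16711000) (l 16708048)) (b (l 16705512) (l 16702464))) (c (b (l 16707824) (l 16704872)) (b (l 16702168) (l 16699128))))))), by decide +kernel⟩

def k69_A00pm_102_s1 : ∃ t, chk3 f_A00pm_102_s1 t 63 19 1 = true :=
  ⟨(a (b (b (a (c (b (l 16720360) (l 16717920)) (b (l 16715488) (l 16712840))) (c (b (l 16717104) (l 16714640)) (b (l 16712056) (l 16709392)))) (a (c (b (l 16715408) (l 16712824)) (b (l 16710144) (l 16707392))) (c (b (l 16712120) (l 16709528)) (b (l 16706680) (l 16703928))))) (b (a (c (b (l 16710168) (l 16707424)) (b (l 16704584) (l 16701704))) (c (b (l 16706864) (l 16704128)) (b (l 16701112) (l 16698240)))) (a (c (l 16708352) (l 16707728)) (c (l 16699824) (l 16693784))))) (b (a (b (c (b (l 16713776) (l 16711304)) (b (l 16708552)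 (l 16705880))) (c (l 16712712) (b (l 16703160) (l 16700392)))) (b (c (b (c (l 16711688) (l 16709080)) (l 16707904)) (a (l 16704536) (l 16702736))) (c (b (l 16705360) (l 16702760)) (a (l 16699088) (l 16697272))))) (b (a (c (l 16702136) (l 16696136)) (c (l 16698720) (l 16692544))) (a (c (l 16696488) (l 16690264)) (c (l 16693088) (l 16686688)))))), by decide +kernel⟩

def k70_A00pm_102_s1 : ∃ t, chk3 f_A00pm_102_s1 t 24 40 1 = true :=
  ⟨(a (b (b (l 3) (c (l 536974735) (c (l 536714895) (l 536531087)))) (b (c (l 537075087) (b (l 536693647) (l 536737167))) (b (l 536967823) (c (l 537194383) (l 536820367))))) (b (b (b (l 3) (c (l 536735119) (l 536399503))) (c (l 536816527) (c (l 536561551) (l 536381071)))) (b (c (l 536921487) (b (l 536544399) (l 536589967))) (b (l 536820623) (c (l 537048207) (l 536677775)))))), by decide +kernel⟩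

def k71_A00pm_102_s1 : ∃ t, chk3 f_A00pm_102_s1 t 25 80 1 = true :=
  ⟨(a (b (a (b (a (c (b (a (l 3) (a (l 3) (l 536585359))) (a (b (c (l 536669071) (l 536514703)) (l 536609167)) (c (b (l 536658575) (l 536661135)) (b (l 536503951) (l 536506511))))) (b (a (l 3) (a (l 3) (l 536258959))) (a (b (b (l 3) (c (l 536350351) (l 536178831))) (l 536281231)) (c (b (a (l 536344463) (l 536337807)) (a (l 536346511) (l 536340367))) (b (a (c (l 536216463) (l 536128399)) (l 536166543)) (c (l 536215439) (l 536127631))))))) (b (l 536409119) (c (c (l 536638863) (b (l 536483727) (l 536486799))) (c (b (l 536321679) (l 536324495)) (b (l 536150927) (l 536153743)))))) (a (a (l 536483471) (a (c (l 536631439) (c (l 536385935) (l 536211599))) (c (l 536616591) (c (l 536372111) (l 536198543))))) (b (c (l 536573327) (c (l 536332175) (l 536160911))) (c (l 536598671) (l 536269967))))) (b (b (l 536098703) (c (l 536517775) (b (l 536198031) (l 536196495)))) (b (c (l 536522127) (l 536200847)) (c (l 536537743) (l 536214415))))) (a (a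 (c (b (l 536699279) (l 536746895)) (b (a (l 536363663) (l 536345999)) (l 536402831))) (c (b (l 536640655) (l 536698255)) (b (c (l 536393359) (l 536218255)) (l 536357775)))) (b (c (l 536569999) (c (l 536327823) (l 536155791))) (c (l 536621455) (l 536287887))))) (b (b (c (b (l 536433039) (l 536429967)) (b (l 536118671) (l 536115855))) (c (a (l 536466319) (l 536407183)) (a (l 536149135) (l 536094095)))) (c (b (a (l 536495503) (l 536430479)) (a (l 536536719) (l 536464783))) (b (a (l 536174479) (l 536114063)) (a (l 536210319) (l 536143759)))))), by decide +kernel⟩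

def k72_A00pm_102_s1 : ∃ t, chk3 f_A00pm_102_s1 t 25 81 1 = true :=
  ⟨(a (b (b (a (a (l 536630047) (c (l 536756111) (l 536408719))) (c (l 536675983) (l 536335759))) (a (a (l 536679311) (l 536637327)) (c (l 536732047) (l 536384655)))) (a (a (b (l 536727951) (l 536775823)) (b (l 536686991) (l 536735887))) (b (c (l 536787855) (l 536433551)) (c (l 16777096) (l 536481935))))) (b (c (b (l 536541583) (l 536588943)) (b (a (l 536251279) (l 536179343)) (a (l 536295055) (l 16774224)))) (b (c (l 536638863) (l 536297359)) (c (l 536691087) (a (l 16774848) (l 16774032)))))), by decide +kernel⟩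

def k73_A00pm_102_s1 : ∃ t, chk3 f_A00pm_102_s1 t 12 82 1 = true :=
  ⟨(a (b (b (a (c (l 537259663) (l 536878223)) (c (l 537108623) (l 536731023))) (a (c (l 537360015) (l 536966543)) (c (l 537192335) (l 536804751)))) (b (a (b (l 537250191) (a (l 537360271) (l 537260687))) (c (l 537291151) (l 536891279))) (a (b (c (l 537575823) (l 537155215)) (c (l 537641615) (l 537212815))) (b (c (l 537373327) (l 536962703)) (c (l 537429135) (l 537011343)))))) (b (a (a (b (c (l 16777736) (l 536620431)) (c (l 16778160) (l 16776360))) (b (c (l 16777384) (l 16775616)) (c (l 16777800) (l 16775784)))) (b (a (c (l 16776848) (l 16774880)) (l 16775144)) (a (c (l 16777248) (l 16775032)) (l 16775392)))) (a (b (a (c (l 16778728) (l 16776672)) (c (l 16778344) (l 16776080))) (a (c (l 16779456) (l 16777120)) (c (l 16779048) (l 16776496)))) (b (a (c (l 16777776) (l 16775304)) (l 16775760)) (b (a (l 16776944) (l 16776112)) (a (l 16777240) (l 16776392))))))), by decide +kernel⟩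

def k74_A00pm_102_s1 : ∃ t, chk3 f_A00pm_102_s1 t 24 166 1 = true :=
  ⟨(b (b (a (b (l 537479567) (l 537505679)) (a (l 16779488) (l 16779184))) (a (a (a (l 16780240) (l 16780176)) (l 16780048)) (a (l 16779816) (l 16779504)))) (b (a (b (a (l 16780424) (l 16780256)) (a (l 16780544) (l 16780368))) (c (a (l 16781264) (l 16781056)) (a (l 16778848) (l 16778416)))) (b (a (a (l 16780632) (l 16780456)) (a (l 16780216) (l 16779904))) (a (a (l 16780704) (l 16780536)) (a (l 16780296) (l 16779984)))))), by decide +kernel⟩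

def k75_A00pm_102_s1 : ∃ t, chk3 f_A00pm_102_s1 t 96 167 1 = true :=
  ⟨(a (c (c (a (b (b (l 16782568) (b (l 16782936) (l 16783256))) (l 16784096)) (b (b (l 16782568) (b (l 16782936) (l 16783264))) (l 16784088))) (a (b (b (l 16781456) (b (l 16781752) (l 16782024))) (l 16782720)) (b (b (l 16781440) (b (l 16781736) (l 16782000))) (l 16782688)))) (a (c (b (b (l 16780320) (b (l 16780544) (l 16780760))) (l 16781320)) (b (b (l 16779160) (b (l 16779312) (l 16779480))) (l 16779912))) (b (b (l 16779688) (b (l 16779880) (l 16780064))) (l 16780552)))) (c (a (c (b (b (l 16782568) (b (l 16782936) (l 16783256))) (l 16784080)) (b (b (l 16781416) (b (l 16781712) (l 16781976))) (l 16782656))) (c (c (b (b (l 16782864) (b (l 16783248) (l 16783576))) (l 16784424)) (b (b (l 16782280) (b (l 16782624) (l 16782928))) (l 16783704))) (b (b (l 16781392) (b (l 16781680) (l 16781944))) (l 16782624)))) (a (c (b (b (l 16780232) (b (l 16780456) (l 16780664))) (l 16781216)) (b (b (l 16779024) (b (l 16779176) (l 16779336))) (l 16779752)))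 (c (b (b (l 16780184) (b (l 16780408) (l 16780616))) (l 16781152)) (b (b (l 16778952) (b (l 16779104) (l 16779256))) (l 16779672)))))), by decide +kernel⟩

def k76_A00pm_102_s1 : ∃ t, chk3 f_A00pm_102_s1 t 97 167 1 = true :=
  ⟨(a (c (c (a (c (b (b (l 16782864) (b (l 16783248) (l 16783576))) (l 16784408)) (b (b (l 16782264) (b (l 16782616) (l 16782912))) (l 16783680))) (c (b (b (l 16782856) (b (l 16783240) (l 16783568))) (l 16784400)) (b (b (l 16782248) (b (l 16782600) (l 16782896))) (l 16783656)))) (a (a (b (b (l 16781368) (b (l 16781664) (l 16781920))) (l 16782592)) (b (b (l 16781352) (b (l 16781648) (l 16781904))) (l 16782568))) (a (b (b (l 16781336) (b (l 16781632) (l 16781888))) (l 16782544)) (b (b (l 16781320) (b (l 16781608) (l 16781872))) (l 16782528))))) (a (c (b (b (l 16780128) (b (l 16780352) (l 16780560))) (l 16781088)) (b (b (l 16778872) (b (l 16779016) (l 16779176))) (l 16779576))) (c (a (b (b (l 16780088) (b (l 16780304) (l 16780512))) (l 16781040)) (b (b (l 16780056) (b (l 16780272)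 (l 16780480))) (l 16781008))) (b (b (l 16778784) (b (l 16778936) (l 16779088))) (l 16779488))))) (c (c (b (b (l 16782536) (b (l 16782904) (l 16783208))) (l 16783992)) (a (a (b (b (l 16781304) (b (l 16781592) (l 16781848))) (l 16782504)) (b (b (l 16781280) (b (l 16781568) (l 16781832))) (l 16782472))) (b (b (l 16781248) (b (l 16781544) (l 16781792))) (l 16782440)))) (a (c (a (b (b (l 16780024) (b (l 16780240) (l 16780448))) (l 16780968)) (b (b (l 16779992) (b (l 16780208) (l 16780416))) (l 16780928))) (a (b (b (l 16778720) (b (l 16778872) (l 16779024))) (l 16779416)) (b (b (l 16778672) (b (l 16778824) (l 16778976))) (l 16779360)))) (b (b (l 16779272) (b (l 16779456) (l 16779640))) (l 16780080))))), by decide +kernel⟩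

def k77_A00pm_102_s1 : ∃ t, chk3 f_A00pm_102_s1 t 49 167 1 = true :=
  ⟨(a (c (b (b (l 16781808) (b (l 16782136) (l 16782408))) (l 16783096)) (b (b (l 16779056) (b (l 16779240) (l 16779416))) (l 16779840))) (c (b (b (l 16781608) (b (l 16781936) (l 16782200))) (l 16782848)) (b (b (l 16778640) (b (l 16778824) (l 16778984))) (l 16779384)))), by decide +kernel⟩

def k78_A00pm_102_s1 : ∃ t, chk3 f_A00pm_102_s1 t 25 166 1 = true :=
  ⟨(c (b (a (a (l 16780224) (l 16779792)) (a (l 16779184) (l 16778400))) (b (a (a (l 16780760) (l 16780328)) (a (l 16779704) (l 16778912))) (a (a (l 16781032) (l 16780600)) (a (l 16779992) (l 16779200))))) (b (a (a (l 16777592) (l 16776944)) (a (l 16776128) (l 16775136))) (b (a (a (l 16777896) (l 16777232)) (a (l 16776408) (l 16775408))) (a (a (l 16778008) (l 16777352)) (a (l 16776528) (l 16775536)))))), by decide +kernel⟩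

def k79_A00pm_102_s1 : ∃ t, chk3 f_A00pm_102_s1 t 25 167 1 = true :=
  ⟨(a (b (a (c (b (l 16781328) (b (l 16781648) (l 16781912))) (b (l 16778136) (b (l 16778312) (l 16778472)))) (c (b (l 16780912) (b (l 16781232) (l 16781480))) (b (l 16777488) (b (l 16777664) (l 16777816))))) (b (b (a (c (l 16782160) (l 16778616)) (c (l 16781720) (l 16777952))) (b (b (a (c (l 16782312) (l 16778712)) (c (l 16781864) (l 16778040))) (b (a (c (l 16782360) (l 16778736)) (c (l 16781904) (l 16778064))) (b (a (c (l 16782384) (l 16778752)) (c (l 16781928) (l 16778080))) (a (c (l 16782400) (l 16778760)) (c (l 16781944) (l 16778088)))))) (a (c (l 16782472) (l 16778800)) (c (l 16782008) (l 16778120))))) (a (c (l 16782776) (l 16778984)) (c (l 16782296) (l 16778288))))) (b (a (c (b (l 16780312) (b (l 16780632) (l 16780880))) (b (l 16776672) (b (l 16776856) (l 16777000)))) (c (b (l 16779536) (b (l 16779856) (l 16780088))) (b (l 16775688) (b (l 16775872) (l 16776008))))) (b (b (a (c (l 16781096) (l 16777128)) (c (l 16780296) (l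 16776120))) (b (b (a (c (l 16781232) (l 16777200)) (c (l 16780424) (l 16776192))) (b (a (c (l 16781272) (l 16777224)) (c (l 16780464) (l 16776208))) (b (a (c (l 16781296) (l 16777240)) (c (l 16780480) (l 16776224))) (a (c (l 16781312) (l 16777248)) (c (l 16780496) (l 16776232)))))) (a (c (l 16781368) (l 16777280)) (c (l 16780552) (l 16776256))))) (a (c (l 16781648) (l 16777432)) (c (l 16780808) (l 16776400)))))), by decide +kernel⟩

def k80_A00pm_102_s1 : ∃ t, chk3 f_A00pm_102_s1 t 13 40 1 = true :=
  ⟨(a (b (a (b (b (c (l 536310927) (l 536004239)) (c (l 536317327) (l 536009615))) (c (b (l 536337295) (l 536365967)) (b (l 536026511) (l 536051343)))) (b (a (b (c (l 536221839) (l 535920271)) (l 536084367)) (b (l 536016783) (l 536028047))) (a (c (l 536262543) (l 535954831)) (c (l 16772976) (l 16776264))))) (a (b (c (a (l 536453775) (l 16774416)) (b (l 536081295) (l 536115087))) (b (a (c (l 16775184) (l 16773248)) (l 16773400)) (a (l 16774248) (l 16773392)))) (b (c (a (l 16773632) (l 16772744)) (a (l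 16771544) (l 16770416))) (c (a (l 16773664) (l 16772752)) (a (l 16771160) (l 16770008)))))) (b (a (b (b (a (l 535957903) (l 16770552)) (a (l 16774024) (l 16770184))) (c (a (l 16771992) (l 16770896)) (a (l 16769808) (l 16768456)))) (b (c (a (l 16770136) (l 16768752)) (a (l 16767776) (l 16766112))) (a (l 16768352) (c (l 16768304) (l 16765304))))) (b (a (a (b (l 16770592) (l 16770432)) (l 16769272)) (c (a (l 16769432) (l 16768080)) (a (l 16766320) (l 16764680)))) (a (c (a (l 16771752) (l 16770640)) (a (l 16768760) (l 16767384))) (a (a (l 16768048) (l 16767336)) (a (l 16766600) (l 16765824))))))), by decide +kernel⟩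

def k81_A00pm_102_s1 : ∃ t, chk3 f_A00pm_102_s1 t 13 82 1 = true :=
  ⟨(c (a (b (a (a (b (l 16775504) (l 16775840)) (l 16774864)) (a (l 16774008) (l 16773064))) (a (b (a (l 16776296) (l 16775456)) (a (l 16776880) (l 16775992))) (b (a (l 16774552) (l 16773568)) (a (l 16775048) (l 16774024))))) (b (a (a (l 16772040) (l 16770920)) (a (l 16769704) (b (l 16768160) (a (l 16768624) (l 16767112))))) (b (a (a (l 16772512) (l 16771360)) (a (a (l 16770432) (l 16769392)) (a (l 16767640) (l 16765048)))) (a (a (l 16772920) (a (l 16772040) (l 16771272))) (a (a (b (l 16770408) (l 16769744)) (l 16767832)) (l 16763920)))))) (a (b (a (a (l 16778392) (l 16772144)) (a (l 16771048) (l 16769864))) (a (b (a (l 16773408) (l 16772344)) (a (l 16773712) (l 16772600))) (b (a (l 16771200) (l 16769976)) (a (l 16771416) (l 16770144))))) (b (a (a (l 16768576) (l 16767192)) (b (a (l 16765712) (a (l 16764496) (l 16763536))) (a (l 16765672) (a (l 16764264) (b (l 16763120) (l 16762280)))))) (b (a (a (l 16768648) (l 16767232)) (a (a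 (l 16766080) (b (l 16765208) (l 16764856))) (a (l 16763160) (l 16760632)))) (a (a (l 16768784) (a (l 16767696) (b (l 16766912) (l 16766808)))) (a (a (b (l 16765880) (l 16765168)) (l 16763320)) (l 16759512))))))), by decide +kernel⟩

def k82_A00pm_102_s1 : ∃ t, chk3 f_A00pm_102_s1 t 13 166 1 = true :=
  ⟨(a (c (b (a (a (l 16777520) (l 16776584)) (a (l 16775592) (l 16774528))) (a (b (a (l 16778000) (l 16777040)) (a (l 16778296) (l 16777328))) (a (c (l 16777176) (l 16775112)) (b (l 16774936) (a (l 16775496) (l 16774680)))))) (b (a (a (l 16774048) (l 16772896)) (a (l 16771656) (l 16770344))) (b (a (a (l 16774296) (l 16773112)) (a (l 16771848) (l 16770512))) (a (a (l 16774416) (l 16773232)) (a (l 16771976) (a (l 16770976) (b (l 16770240) (l 16770048)))))))) (a (b (a (c (a (l 16773680) (l 16772992)) (a (l 16769304) (b (l 16768536) (l 16768528)))) (c (a (b (l 16772248) (l 16771768)) (b (l 16770824) (l 16769400))) (a (b (l 16767688) (a (l 16767664) (l 16766680))) (b (l 16766216) (l 16764840))))) (a (a (b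 (c (l 16773936) (l 16769336)) (c (l 16773192) (b (l 16768992) (l 16768152)))) (b (c (l 16772584) (b (l 16768288) (l 16767664))) (l 16768568))) (c (l 16767960) (a (l 16764704) (l 16762256))))) (a (c (b (l 16766304) (l 16762816)) (b (l 16761840) (l 16758512))) (c (b (l 16761072) (l 16757552)) (b (l 16756760) (l 16753408)))))), by decide +kernel⟩

def k83_A00pm_102_s1 : ∃ t, chk3 f_A00pm_102_s1 t 13 668 1 = true :=
  ⟨(a (c (a (a (l 16778624) (l 16777664)) (a (a (l 16776896) (l 16776280)) (a (b (l 16775584) (l 16775064)) (l 16773400)))) (a (a (l 16774576) (l 16773392)) (a (a (l 16772448) (l 16771728)) (a (b (l 16770952) (l 16770432)) (l 16771424))))) (a (a (c (l 16769704) (l 16765248)) (c (l 16764664) (l 16760384))) (a (c (l 16759496) (l 16755392)) (c (l 16754232) (l 16750288))))), by decide +kernel⟩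

def k84_A00pm_102_s1 : ∃ t, chk3 f_A00pm_102_s1 t 13 1338 1 = true :=
  ⟨(a (a (c (a (l 16778936) (l 16777960)) (a (l 16774752) (l 16773552))) (a (c (a (l 16777080) (l 16775840)) (a (l 16772512) (a (l 16771720) (l 16770816)))) (c (l 16772432) (l 16767944)))) (a (a (c (l 16767512) (l 16763216)) (c (l 16762456) (l 16758344))) (a (c (l 16757296) (l 16753352)) (c (l 16752048) (l 16748256))))), by decide +kernel⟩

def k85_A00pm_102_s1 : ∃ t, chk3 f_A00pm_102_s1 t 13 1339 1 = true :=
  ⟨(b (b (a (c (a (a (l 16779080) (l 16778104)) (a (a (l 16776984) (l 16774896)) (l 16771312))) (a (a (l 16774832) (l 16773632)) (a (a (l 16772392) (l 16770360)) (l 16766920)))) (a (a (c (l 16766392) (l 16762176)) (c (l 16761336) (l 16757304))) (a (c (l 16756176) (l 16752320)) (c (l 16750936) (l 16747240))))) (b (a (c (a (a (l 16779128) (l 16778144)) (a (l 16775696) (l 16770928))) (a (a (l 16774864) (l 16773656)) (a (a (l 16772216) (l 16770016)) (l 16766568)))) (a (a (c (l 16766000) (l 16761824)) (c (l 16760944) (l 16756952)))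 (a (c (l 16755792) (l 16751968)) (c (l 16750560) (l 16746896))))) (b (a (c (a (a (l 16779152) (l 16778160)) (a (l 16775504) (l 16770728))) (a (a (l 16774872) (l 16773672)) (a (l 16770976) (l 16766384)))) (a (a (l 16769000) (c (l 16760744) (l 16756760))) (a (c (l 16755592) (l 16751784)) (c (l 16750360) (l 16746712))))) (a (a (c (a (l 16779160) (l 16778168)) (a (l 16774880) (l 16773672))) (a (c (l 16775360) (l 16770840)) (c (l 16770584) (l 16766248)))) (a (a (l 16768856) (c (l 16760600) (l 16756632))) (a (c (l 16755448) (l 16751656)) (c (l 16750224) (l 16746584)))))))) (a (a (a (a (l 16777344) (l 16776808)) (a (l 16776264) (c (l 16777624) (l 16773080)))) (a (c (l 16774640) (l 16770184)) (c (l 16769864) (l 16765600)))) (a (a (c (l 16764936) (l 16760856)) (c (l 16759880) (l 16755984))) (a (c (l 16754736) (l 16751008)) (c (l 16749528) (l 16745952)))))), by decide +kernel⟩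

def k86_A00pm_102_s1 : ∃ t, chk3 f_A00pm_102_s1 t 13 1340 1 = true :=
  ⟨(a (a (c (a (b (l 16779304) (b (a (l 16779616) (c (l 16779832) (l 16777688))) (b (b (a (l 16779528) (l 16778096)) (a (a (l 16779696) (l 16778976)) (l 16777336))) (l 16778136)))) (a (b (c (l 16779280) (l 16777096)) (b (l 16777112) (l 16775552))) (b (l 16776576) (b (l 16774832) (l 16773272))))) (b (a (l 16774952) (a (b (l 16773960) (l 16773672)) (l 16772128))) (a (b (a (l 16775280) (b (l 16774608) (l 16774336))) (b (b (a (l 16775192) (l 16773768)) (a (a (a (l 16775520) (l 16775280)) (l 16774664)) (l 16773096))) (l 16776496))) (b (a (l 16772752) (l 16770568)) (a (l 16776592) (l 16769168)))))) (b (a (c (l 16773080) (l 16768776)) (c (l 16768296) (l 16764176))) (a (a (b (l 16770456) (c (l 16770944) (l 16766936))) (b (l 16768144) (c (l 16768584) (l 16764664)))) (a (b (l 16765800) (c (l 16766184) (l 16762360))) (b (l 16763416) (c (l 16763760) (l 16760024))))))) (a (a (b (c (l 16763360) (l 16759432)) (b (c (l 16761632) (l 16757872))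 (c (a (l 16761304) (l 16758832)) (c (l 16757400) (l 16755528))))) (b (c (l 16758328) (l 16754568)) (c (b (l 16756616) (c (l 16758504) (l 16754256))) (b (l 16753032) (l 16762144))))) (a (b (c (l 16753200) (l 16749616)) (b (a (l 16751112) (l 16748592)) (c (a (l 16751288) (l 16748744)) (l 16746760)))) (b (c (l 16748016) (l 16744592)) (b (a (l 16746064) (l 16743512)) (c (a (l 16746184) (l 16743624)) (l 16741808))))))), by decide +kernel⟩

def k87_A00pm_102_s1 : ∃ t, chk3 f_A00pm_102_s1 t 13 1341 1 = true :=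
  ⟨(b (b (a (a (a (c (l 16778176) (a (l 16774904) (l 16772840))) (c (l 16773704) (l 16769616))) (a (c (l 16769048) (l 16765144)) (c (l 16764248) (l 16760536)))) (a (a (c (l 16759344) (l 16755816)) (c (l 16754360) (l 16751000))) (a (c (l 16749312) (l 16746120)) (c (l 16744216) (l 16741176))))) (b (a (a (a (c (l 16778224) (a (l 16774928) (l 16772864))) (c (l 16773736) (l 16769632))) (a (c (l 16769080) (l 16765160)) (c (l 16764280) (l 16760544)))) (a (a (c (l 16759368) (l 16755824)) (c (l 16754376) (l 16751000))) (a (c (l 16749320) (l 16746112)) (c (l 16744224) (l 16741168))))) (b (a (a (a (c (l 16778240) (a (l 16774944) (l 16772880))) (c (l 16773752) (l 16769640))) (a (c (l 16769096) (l 16765168)) (c (l 16764288) (l 16760552)))) (a (a (c (l 16759376) (l 16755824)) (c (l 16754384) (l 16751008))) (a (c (l 16749328) (l 16746112)) (c (l 16744224) (l 16741160))))) (a (a (a (c (l 16778256) (a (l 16774952) (l 16772880))) (c (l 16773768) (l 16769648))) (a (c (l 16769104) (l 16765176)) (c (l 16764296) (l 16760560))))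 (a (a (c (l 16759384) (l 16755824)) (c (l 16754392) (l 16751008))) (a (c (l 16749328) (l 16746112)) (c (l 16744224) (l 16741160)))))))) (a (a (a (c (l 16778320) (a (l 16774984) (l 16772920))) (c (l 16773824) (l 16769680))) (a (c (l 16769152) (l 16765200)) (c (l 16764336) (l 16760568)))) (a (a (c (l 16759416) (l 16755832)) (c (l 16754408) (l 16751008))) (a (c (l 16749344) (l 16746104)) (c (l 16744232) (l 16741144)))))), by decide +kernel⟩

def k88_A00pm_102_s1 : ∃ t, chk3 f_A00pm_102_s1 t 13 671 1 = true :=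
  ⟨(a (a (a (a (c (l 16779640) (l 16775136)) (l 16775304)) (c (l 16774072) (l 16769808))) (a (c (l 16769368) (l 16765296)) (c (l 16764520) (l 16760640)))) (a (a (c (l 16759560) (l 16755872)) (c (l 16754512) (l 16751016))) (a (c (l 16749408) (l 16746080)) (c (l 16744264) (l 16741088))))), by decide +kernel⟩

def k89_A00pm_102_s1 : ∃ t, chk3 f_A00pm_102_s1 t 12 21 1 = true :=
  ⟨(b (a (a (b (a (c (b (l 16785224) (l 16787712)) (b (l 16781712) (l 16783352))) (c (b (l 16785016) (l 16787416)) (b (l 16781328) (l 16782888)))) (a (c (l 16791592) (l 16785944)) (c (l 16791184) (l 16785384)))) (b (a (c (b (l 16784760) (l 16787056)) (b (l 16780880) (l 16782352))) (c (b (l 16784432) (l 16786624)) (b (l 16780360) (l 16781736)))) (a (c (l 16790664) (l 16784704)) (c (l 16790080) (l 16783952))))) (b (a (a (c (b (l 16784032) (l 16786112)) (b (l 16779744) (l 16781024))) (c (b (l 16783480) (l 16785464)) (b (l 16778992) (l 16780184)))) (a (b (c (l 16782760) (l 16778072)) (c (l 16784640) (l 16779176))) (b (c (l 16781864)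 (l 16776992)) (c (l 16783640) (l 16778000))))) (a (a (c (l 16789408) (l 16783112)) (b (l 16784512) (l 16786280))) (a (b (l 16783496) (l 16785176)) (l 16783088))))) (a (a (a (b (c (l 16797024) (l 16789656)) (l 16798152)) (b (l 16787488) (l 16797496))) (b (a (l 16791992) (l 16791136)) (a (l 16796648) (l 16795648)))) (a (b (a (l 16790192) (l 16789112)) (a (l 16794512) (l 16793248))) (b (a (l 16787864) (l 16786448)) (c (l 16795992) (l 16786112)))))), by decide +kernel⟩

def k90_A00pm_102_s1 : ∃ t, chk3 f_A00pm_102_s1 t 13 21 1 = true :=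
  ⟨(a (b (b (a (a (b (c (a (l 16780728) (l 16778616)) (a (l 16775760) (l 16773736))) (c (l 16781576) (l 16775880))) (b (c (l 16775104) (l 16770376)) (c (l 16776880) (l 16771400)))) (a (b (c (l 16770256) (l 16765744)) (l 16769200)) (b (c (l 16765264) (l 16760960)) (l 16764096)))) (a (a (b (l 16780312) (l 16781952)) (b (l 16775672) (l 16777312))) (a (b (l 16770512) (l 16771968)) (b (l 16765184) (l 16766416))))) (a (b (a (l 16784512) (l 16779992)) (a (l 16788272) (l 16783968))) (b (a (l 16774384) (l 16768536)) (a (l 16778064) (l 16771824))))) (b (b (a (a (b (c (l 16760152) (l 16756056)) (c (l 16761224) (l 16756464))) (c (b (l 16754960) (l 16755792)) (b (l 16751064) (l 16751256)))) (a (c (b (l 16749704) (l 16750288)) (l 16751208)) (c (b (l 16744408) (l 16744744)) (l 16740744)))) (a (a (c (l 16763080) (l 16757296)) (c (l 16757280) (l 16751768))) (a (c (l 16751408) (l 16746168)) (c (l 16745496) (l 16740504))))) (a (b (a (l 16762496) (l 16756368)) (a (l 16765376) (l 16758744))) (b (a (l 16750160) (l 16743904))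 (a (l 16752056) (l 16745312)))))), by decide +kernel⟩

def k91_A00pm_102_s1 : ∃ t, chk3 f_A00pm_102_s1 t 28 40 1 = true :=
  ⟨(b (b (a (a (c (l 16767232) (l 16764288)) (c (l 16765552) (l 16762288))) (c (a (l 16763728) (a (b (l 16762288) (l 16761752)) (b (l 16760696) (l 16759384)))) (a (a (l 16760664) (l 16759528)) (a (b (l 16758496) (a (l 16758312) (l 16757368))) (b (a (l 16757360) (l 16756160)) (l 16755384)))))) (a (a (a (l 16765624) (l 16764760)) (a (l 16763856) (l 16762912))) (a (a (c (l 16763672) (b (l 16760088) (l 16759592))) (c (b (l 16762704) (l 16761816)) (b (a (l 16759192) (l 16758392)) (l 16757720)))) (c (a (l 16759880) (l 16757176)) (a (l 16755808) (l 16753096)))))) (a (a (a (b (l 16765208) (c (l 16766944) (l 16762864))) (b (l 16764360) (c (b (l 16766136) (l 16765608)) (b (l 16762008) (a (l 16761840) (l 16760864)))))) (a (b (c (l 16765328) (l 16761360)) (b (c (l 16764752) (a (l 16761048) (l 16760048))) (l 16761120))) (b (c (b (l 16764456) (l 16763840)) (b (l 16760424) (a (l 16760216) (l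 16759136)))) (c (l 16761416) (l 16757168))))) (a (b (b (a (c (l 16762872) (a (l 16759328) (l 16758112))) (l 16758256)) (c (l 16760000) (l 16755816))) (c (l 16752136) (a (l 16754512) (l 16751808)))) (b (c (l 16750136) (a (l 16752592) (l 16749856))) (c (a (l 16753272) (l 16750504)) (a (l 16749080) (l 16746312))))))), by decide +kernel⟩

def k92_A00pm_102_s1 : ∃ t, chk3 f_A00pm_102_s1 t 29 40 1 = true :=
  ⟨(a (b (a (c (b (l 16750800) (a (l 16754448) (l 16751696))) (b (a (l 16753400) (l 16750656)) (a (l 16750360) (l 16747584)))) (c (b (a (l 16751928) (l 16749152)) (a (l 16748912) (l 16746104))) (b (a (l 16747880) (l 16745064)) (a (l 16744776) (l 16741928))))) (a (a (b (c (l 16751248) (l 16747088)) (c (l 16747704) (l 16743512))) (b (l 16746432) (c (l 16744888) (l 16740688)))) (b (c (a (l 16745640) (l 16742800)) (a (l 16741448) (l 16738576))) (c (a (l 16742048) (l 16739192)) (a (l 16737832) (l 16734952)))))) (b (a (b (c (a (l 16746344) (l 16743520)) (a (l 16742216) (l 16739336))) (c (a (l 16743264) (l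 16740416)) (a (l 16739056) (l 16736160)))) (c (a (b (l 16740688) (l 16737560)) (b (l 16737832) (l 16734688))) (a (b (l 16736440) (l 16733240)) (b (l 16733512) (l 16730296))))) (a (c (b (a (l 16739944) (l 16737080)) (a (l 16736320) (l 16733440))) (b (a (l 16735688) (l 16732776)) (a (l 16732056) (l 16729136)))) (c (b (a (l 16734200) (l 16731320)) (a (l 16730560) (l 16727672))) (b (a (l 16729840) (l 16726896)) (a (l 16726200) (l 16723248))))))), by decide +kernel⟩

def k93_A00pm_102_s1 : ∃ t, chk3 f_A00pm_102_s1 t 14 82 1 = true :=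
  ⟨(a (a (b (a (a (b (c (l 16766408) (b (l 16762424) (l 16761760))) (l 16762472)) (c (l 16762952) (l 16758616))) (c (a (l 16760288) (l 16757592)) (a (l 16755992) (l 16753336)))) (a (c (a (l 16761128) (l 16758448)) (a (l 16756800) (l 16754176))) (c (a (l 16755744) (l 16753008)) (a (l 16751520) (l 16748832))))) (a (b (c (a (l 16754864) (l 16752112)) (a (l 16750640) (l 16747912))) (c (a (l 16750256) (l 16747488)) (a (l 16746112) (l 16743376)))) (b (c (a (l 16749336) (l 16746536)) (a (l 16745152) (l 16742368))) (c (a (l 16744696) (l 16741888)) (a (l 16740608) (l 16737816)))))) (a (a (b (c (a (l 16743720) (l 16740888)) (a (l 16739552) (l 16736720))) (c (a (l 16739072) (l 16736232)) (a (l 16735000) (l 16732168)))) (b (c (a (l 16738040) (l 16735168)) (a (l 16733856) (l 16730968))) (c (a (l 16733392) (l 16730528)) (a (l 16729320) (l 16726448))))) (a (c (b (a (l 16732296) (l 16729416)) (c (a (l 16728608) (l 16725760)) (a (l 16726688) (l 16723816)))) (b (a (l 16728064) (l 16725152)) (a (l 16723552) (l 16720656))))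 (c (b (a (l 16726536) (l 16723656)) (c (a (l 16722912) (l 16720064)) (a (l 16720952) (l 16718072)))) (b (a (l 16722224) (l 16719280)) (c (l 16717400) (l 16715152))))))), by decide +kernel⟩

def k94_A00pm_102_s1 : ∃ t, chk3 f_A00pm_102_s1 t 28 166 1 = true :=
  ⟨(a (a (b (c (l 16755720) (l 16751536)) (c (l 16752192) (l 16748184))) (c (b (l 16750280) (a (l 16748120) (l 16745392))) (b (l 16746208) (l 16742864)))) (a (c (b (l 16744760) (c (l 16742152) (l 16740360))) (b (l 16740768) (l 16737456))) (c (b (c (l 16740096) (l 16738256)) (c (l 16736600) (l 16734840))) (b (l 16735248) (l 16731976))))), by decide +kernel⟩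

def k95_A00pm_102_s1 : ∃ t, chk3 f_A00pm_102_s1 t 28 167 1 = true :=
  ⟨(a (b (b (a (c (l 16748888) (l 16745080)) (c (l 16743488) (l 16739792))) (b (a (c (l 16746728) (l 16743080)) (c (l 16741360) (l 16737832))) (b (b (a (c (l 16745640) (l 16742080)) (c (l 16740296) (l 16736856))) (b (a (c (l 16745264) (l 16741744)) (c (l 16739936) (l 16736520))) (b (a (c (l 16745072) (l 16741568)) (c (l 16739744) (l 16736344))) (a (c (l 16744936) (l 16741440)) (c (l 16739608) (l 16736224)))))) (a (c (l 16744256) (l 16740824)) (c (l 16738944) (l 16735624)))))) (b (b (a (b (c (l 16742784) (l 16739496)) (b (a (l 16740952) (l 16738384)) (c (a (l 16741048) (l 16738472)) (l 16736792)))) (b (c (l 16737520) (l 16734336)) (c (b (l 16735968) (c (l 16737872) (l 16733920))) (b (l 16732952) (l 16731728))))) (b (b (c (a (l 16739088) (l 16733944)) (a (l 16736176) (l 16731128))) (b (c (a (l 16739088) (l 16733936)) (a (l 16736168) (l 16731112))) (b (c (a (l 16739088) (l 16733936)) (a (l 16736160) (l 16731104))) (c (a (l 16739088)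 (l 16733928)) (a (l 16736152) (l 16731096)))))) (c (a (l 16739088) (l 16733920)) (a (l 16736136) (l 16731072))))) (c (a (l 16739080) (l 16733880)) (a (l 16736040) (l 16730952))))) (c (b (a (b (l 16738040) (b (l 16735960) (l 16734112))) (b (c (l 16733376) (l 16731728)) (b (l 16730536) (l 16728744)))) (a (b (b (b (l 16732232) (b (l 16730736) (a (l 16730712) (l 16728120)))) (l 16728760)) (l 16728664)) (b (b (b (l 16726928) (b (l 16725496) (c (l 16724840) (l 16723584)))) (l 16723584)) (l 16723448)))) (a (b (b (l 16734432) (l 16731560)) (b (b (b (l 16729120) (b (l 16727784) (l 16726608))) (l 16725992)) (l 16725808))) (b (b (l 16729016) (l 16726216)) (b (b (b (l 16723864) (b (l 16722584) (l 16721456))) (l 16720848)) (l 16720640)))))), by decide +kernel⟩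

def k96_A00pm_102_s1 : ∃ t, chk3 f_A00pm_102_s1 t 29 83 1 = true :=
  ⟨(b (b (a (a (c (c (l 16734472) (l 16732640)) (l 16729656)) (c (c (l 16728816) (l 16726984)) (l 16723992))) (a (c (a (l 16723656) (l 16720824)) (l 16718272)) (c (a (l 16717992) (l 16715168)) (l 16712512)))) (a (a (c (c (l 16731024) (l 16729288)) (l 16726432)) (c (a (l 16725976) (l 16723168)) (l 16720832))) (a (c (a (l 16720368) (l 16717568)) (l 16715176)) (c (a (l 16714784) (l 16712000)) (l 16709496))))) (a (c (b (a (b (c (l 16727872) (l 16726232)) (b (l 16725096) (l 16723360))) (b (c (l 16722352) (l 16720712)) (b (l 16719640) (l 16723208)))) (a (b (b (b (l 16721616) (b (l 16720240) (c (l 16719648) (l 16718392)))) (l 16718408)) (l 16718232)) (b (b (b (l 16716288) (c (b (l 16715632) (l 16714456)) (l 16719000))) (l 16713224)) (l 16713016)))) (a (b (b (l 16723536) (l 16720832)) (b (b (b (l 16718560) (l 16727296)) (l 16715672)) (l 16715424))) (b (b (l 16718000) (l 16715392)) (b (b (b (l 16713216) (l 16711552)) (l 16710456)) (l 16710176)))))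 (c (b (a (b (c (l 16716840) (l 16715184)) (b (l 16714184) (l 16712576))) (b (c (l 16711384) (l 16709672)) (b (l 16708768) (l 16707232)))) (a (b (b (b (l 16710984) (b (l 16709744) (l 16713896))) (l 16708056)) (l 16707816)) (b (b (b (l 16705712) (b (l 16704536) (l 16703512))) (l 16702928)) (l 16702656)))) (a (b (b (l 16712432) (l 16709912)) (c (a (l 16719184) (l 16716520)) (l 16716168))) (b (l 16715888) (a (a (l 16713672) (l 16712336)) (l 16710320))))))), by decide +kernel⟩

def k97_A00pm_102_s1 : ∃ t, chk3 f_A00pm_102_s1 t 14 21 1 = true :=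
  ⟨(a (b (a (b (a (c (b (l 16739080) (l 16739176)) (l 16735464)) (c (b (l 16733728) (l 16733600)) (l 16730152))) (c (a (l 16739560) (l 16733624)) (a (l 16734808) (l 16729080)))) (a (b (c (b (l 16728384) (l 16728024)) (l 16724800)) (c (l 16727696) (l 16723336))) (b (c (a (l 16724080) (l 16721352)) (l 16719416)) (a (l 16721192) (l 16718280))))) (a (a (b (l 16742864) (l 16738544)) (c (b (l 16734112) (l 16735128)) (l 16728312))) (a (c (b (l 16727696) (l 16728216)) (l 16721928)) (b (l 16724024) (l 16718288))))) (b (c (a (a (b (a (l 16718632) (l 16715904)) (l 16715904)) (b (a (l 16713192) (l 16710472)) (l 16710048))) (a (b (c (l 16712400) (l 16705648)) (l 16704248)) (b (c (l 16701824) (l 16700264)) (l 16698528)))) (a (a (b (l 16714000) (l 16711784)) (b (l 16708568) (l 16705992))) (a (b (l 16703112) (l 16700208)) (b (l 16697656) (l 16694440))))) (a (a (c (b (l 16714984) (l 16714528)) (l 16709176)) (c (b (l 16708696) (l 16707784)) (l 16702816))) (b (c (a (l 16702472) (l 16696360)) (l 16705088)) (a (l 16698360)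 (l 16691864)))))), by decide +kernel⟩

def k98_A00pm_102_s1 : ∃ t, chk3 f_A00pm_102_s1 t 30 40 1 = true :=
  ⟨(a (c (b (a (a (b (l 16734960) (l 16731800)) (b (l 16732072) (l 16728896))) (a (b (l 16729168) (l 16725976)) (b (l 16726240) (l 16723040)))) (a (b (a (l 16728416) (l 16725512)) (a (l 16724768) (l 16721864))) (b (a (l 16722584) (l 16719648)) (a (l 16718944) (l 16716008))))) (a (b (a (b (l 16730560) (l 16727336)) (b (l 16727584) (l 16724344))) (b (a (l 16723920) (l 16720928)) (a (l 16720272) (l 16717280)))) (b (a (b (l 16724576) (l 16721328)) (b (l 16721544) (l 16718288))) (b (a (l 16717912) (l 16714864)) (a (l 16714272) (l 16711240)))))) (b (a (c (a (b (l 16723288) (l 16720080)) (b (l 16720304) (l 16717096))) (a (b (l 16718480) (l 16715216)) (b (l 16715376) (l 16712120)))) (c (a (b (l 16717304) (l 16714096)) (b (l 16714272) (l 16711056))) (a (b (l 16712240) (l 16708984)) (b (l 16709072) (l 16705816))))) (a (c (a (b (l 16716688) (l 16713056)) (b (l 16713704) (l 16710088))) (b (a (l 16711800)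 (l 16708704)) (a (l 16708176) (l 16705096)))) (c (a (b (l 16710704) (l 16707104)) (b (l 16707680) (l 16704096))) (b (a (l 16705576) (l 16702416)) (a (l 16701984) (l 16698840))))))), by decide +kernel⟩

def k99_A00pm_102_s1 : ∃ t, chk3 f_A00pm_102_s1 t 30 41 1 = true :=
  ⟨(a (b (a (c (a (b (l 16720760) (c (l 16717216) (l 16715192))) (b (l 16717864) (l 16718600))) (b (a (l 16716320) (l 16713344)) (l 16715672))) (a (c (b (l 16714960) (l 16715728)) (b (l 16710344) (l 16705992))) (c (b (l 16712048) (l 16712848)) (b (l 16707328) (l 16703008))))) (b (a (c (c (b (l 16717144) (l 16713992)) (b (l 16709936) (l 16706872))) (b (l 16706720) (l 16703792))) (c (c (b (l 16706288) (l 16703232)) (b (l 16704232) (l 16701256))) (b (l 16700880) (l 16698032)))) (c (c (a (b (b (l 16705952) (l 16703368)) (b (b (b (l 16701232) (b (l 16700096) (l 16699104))) (l 16698528)) (l 16698240))) (b (b (l 16700528) (l 16698064)) (b (b (b (l 16696040) (l 16705000)) (l 16693496)) (l 16693176)))) (a (b (l 16713176) (b (b (b (l 16699656)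 (l 16698120)) (l 16697096)) (l 16696776))) (b (l 16697248) (a (l 16704920) (l 16702280))))) (a (b (l 16699848) (a (l 16707632) (l 16694440))) (b (l 16694256) (a (l 16691728) (l 16689008))))))) (b (a (c (a (b (l 16709120) (l 16704720)) (b (l 16706176) (l 16701816))) (b (l 16708008) (l 16708992))) (c (b (a (l 16703208) (l 16700232)) (a (l 16698896) (l 16695960))) (b (l 16707080) (l 16692408)))) (b (a (c (c (b (l 16700648) (l 16697696)) (l 16702184)) (l 16703976)) (c (a (l 16693760) (l 16690904)) (l 16698032))) (c (a (b (b (l 16694112) (l 16691824)) (b (b (b (l 16689952) (c (l 16689416) (l 16687688))) (l 16687624)) (l 16687264))) (b (b (l 16688584) (l 16686408)) (b (b (b (l 16684648) (l 16683360)) (l 16682464)) (l 16682088)))) (a (b (l 16688592) (b (l 16695640) (l 16683560))) (b (l 16682848) (l 16689808))))))), by decide +kernel⟩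

def k100_A00pm_102_s1 : ∃ t, chk3 f_A00pm_102_s1 t 31 20 1 = true :=
  ⟨(b (a (a (b (c (a (b (l 16711208) (l 16708000)) (b (l 16708112) (l 16704904))) (a (b (l 16705864) (l 16702616)) (b (l 16702616) (l 16699368)))) (c (a (b (l 16704632) (l 16701064)) (b (l 16701552) (l 16698000))) (a (b (l 16699224) (l 16695664)) (l 16704680)))) (b (c (a (b (l 16704976) (l 16701784)) (b (l 16701808) (l 16698624))) (a (l 16708184) (l 16704856))) (c (a (b (l 16698440) (l 16694912)) (l 16704008)) (a (l 16690944) (l 16687648))))) (a (b (c (a (l 16697000) (l 16693752)) (a (l 16690992) (l 16687568))) (c (a (l 16690352) (l 16687160)) (a (l 16684312) (l 16680936)))) (b (a (c (l 16690456) (l 16684088)) (c (l 16687096) (l 16680552))) (a (c (l 16683920) (l 16677504)) (c (l 16680632) (l 16674024)))))) (c (b (a (a (b (a (l 16697232) (l 16694200)) (a (l 16693008) (l 16690024))) (b (a (l 16691152) (l 16688064)) (l 16696008))) (a (b (l 16683384) (l 16679400)) (a (l 16676600) (l 16673416)))) (a (b (a (a (l 16688032) (l 16685136))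 (a (l 16682216) (l 16679280))) (a (b (l 16692264) (a (l 16689968) (l 16687288))) (b (l 16676176) (a (l 16674096) (l 16671368))))) (a (b (l 16674816) (b (l 16670464) (l 16688192))) (b (l 16668744) (b (l 16664624) (l 16661576)))))) (b (a (a (b (l 16690296) (l 16686208)) (b (l 16683872) (l 16679872))) (a (b (l 16677288) (l 16673400)) (b (l 16670544) (l 16666752)))) (a (a (b (l 16681488) (b (l 16677008) (l 16684136))) (b (l 16675312) (b (l 16671040) (l 16667864)))) (a (b (l 16669000) (b (l 16664936) (l 16661936))) (b (l 16662520) (b (l 16658664) (l 16655840)))))))), by decide +kernel⟩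

def k101_A00pm_102_s1 : ∃ t, chk3 f_A00pm_102_s1 t 15 21 1 = true :=
  ⟨(a (b (a (a (c (b (c (l 16696552) (l 16694920)) (l 16692872)) (b (l 16692200) (l 16688688))) (c (b (l 16695704) (l 16687264)) (b (l 16686712) (l 16682920)))) (a (c (b (l 16685176) (l 16681680)) (l 16689592)) (c (b (l 16679856) (l 16676096)) (l 16673384)))) (a (a (b (a (l 16689480) (l 16686472)) (l 16685448)) (b (l 16692456) (l 16679104))) (a (c (l 16687456) (l 16671560)) (c (l 16681424) (l 16665352))))) (a (b (a (c (b (l 16674488) (l 16670496)) (l 16667592)) (b (l 16677120) (l 16662208))) (a (c (l 16664928) (l 16659104)) (c (l 16658912) (l 16652808)))) (a (b (c (l 16682248) (l 16655688)) (c (l 16652864) (l 16646440))) (b (c (l 16676528) (l 16649536)) (c (l 16646760) (l 16639968)))))), by decide +kernel⟩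

def k102_A00pm_102_s1 : ∃ t, chk3 f_A00pm_102_s1 t 6 11 1 = true :=
  ⟨(a (b (a (a (b (a (b (l 16803264) (l 16808664)) (b (l 16802544) (l 16807888))) (a (b (l 16814360) (l 16820360)) (l 16816448))) (b (a (b (l 16801632) (l 16806920)) (l 16803056)) (a (l 16815400) (l 16814160)))) (a (b (a (l 16801752) (l 16800248)) (a (l 16812704) (l 16810960))) (b (c (l 16803776) (a (l 16792368) (l 16790464))) (c (l 16815832) (a (l 16801152) (l 16798944)))))) (a (a (b (a (b (l 16826648) (l 16833416)) (l 16828936)) (a (l 16834024) (l 16843168))) (b (a (l 16827856) (l 16826528)) (a (l 16841664) (l 16840176)))) (a (b (l 16824104) (l 16837712)) (a (b (l 16821072) (l 16834576)) (b (l 16818648) (l 16832104)))))) (a (b (c (a (b (a (l 16800752) (l 16796888)) (a (l 16812264) (l 16808872))) (b (l 16786976) (l 16798640))) (a (b (a (l 16788344) (b (l 16782704) (l 16786712))) (a (l 16796504) (a (l 16794456) (l 16792152)))) (b (a (l 16778520) (l 16772032)) (a (l 16787120) (l 16780048))))) (c (a (b (a (l 16825656) (l 16822480))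 (l 16839208)) (b (a (l 16816552) (l 16808320)) (a (l 16832688) (l 16824184)))) (a (b (a (l 16806416) (b (l 16790240) (l 16806152))) (a (l 16817968) (c (l 16820544) (l 16809264)))) (b (a (a (l 16799584) (l 16795856)) (l 16790088)) (a (a (b (l 16808864) (l 16815320)) (l 16808440)) (c (l 16807728) (l 16796856))))))) (b (b (b (a (l 16765304) (a (l 16754536) (l 16747296))) (a (c (l 16774824) (l 16763312)) (l 16753840))) (a (c (l 16782736) (a (l 16772632) (l 16764904))) (a (l 16763416) (l 16754944)))) (a (b (c (l 16795216) (a (l 16782056) (l 16773680))) (c (l 16810032) (a (l 16793624) (l 16784608)))) (a (b (l 16773152) (l 16785104)) (b (l 16763864) (l 16775064))))))), by decide +kernel⟩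

def k103_A00pm_102_s1 : ∃ t, chk3 f_A00pm_102_s1 t 14 11 1 = true :=
  ⟨(a (b (b (a (a (c (l 16745472) (l 16736392)) (c (l 16737720) (l 16729072))) (c (a (l 16730000) (l 16722352)) (a (l 16721768) (l 16714488)))) (a (a (l 16746416) (l 16737744)) (a (l 16729176) (l 16720664)))) (a (b (a (l 16754320) (l 16744680)) (c (l 16768424) (l 16750584))) (b (a (l 16735040) (l 16725312)) (a (l 16743464) (l 16732688))))) (b (c (a (b (a (l 16714776) (l 16707288)) (a (l 16717088) (l 16708528))) (b (a (l 16699928) (l 16692704)) (a (l 16700120) (l 16691904)))) (a (b (a (l 16707248) (l 16700056)) (l 16703208)) (b (a (l 16692936) (l 16685888)) (a (l 16691136) (l 16683224))))) (a (a (b (l 16715752) (l 16721984)) (b (l 16706312) (l 16711256))) (b (c (a (l 16702584) (l 16693248)) (l 16686896)) (c (a (l 16707608) (l 16697032)) (l 16688856)))))), by decide +kernel⟩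

def k104_A00pm_102_s1 : ∃ t, chk3 f_A00pm_102_s1 t 15 11 1 = true :=
  ⟨(a (b (a (b (c (a (l 16685640) (l 16678704)) (a (l 16678928) (l 16672032))) (c (a (l 16683880) (l 16676024)) (a (l 16675448) (l 16667768)))) (a (b (c (l 16671880) (l 16665192)) (c (l 16668344) (l 16660192))) (b (c (l 16665160) (l 16658392)) (c (l 16660808) (l 16652704))))) (a (a (c (b (l 16684144) (l 16686720)) (b (l 16673752) (l 16674112))) (c (b (l 16675264) (l 16676680)) (b (l 16665184) (l 16664536)))) (b (c (a (l 16666592) (l 16658120)) (a (l 16656768) (l 16648480))) (c (a (l 16666896) (c (l 16660136) (l 16654552))) (a (l 16655152) (l 16645936)))))) (a (b (a (b (c (l 16658512) (l 16651608)) (c (l 16653408) (l 16645272))) (b (c (l 16651912) (l 16644816)) (c (l 16646104) (l 16637888)))) (b (c (a (l 16649840) (l 16641720)) (a (l 16640296) (l 16632216))) (a (c (b (l 16648352) (l 16647960)) (l 16636896)) (b (l 16644784) (l 6))))) (b (b (a (l 16652232) (l 16656000)) (a (c (l 16638896) (l 16630536)) (c (l 16631744) (l 16623184))))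 (b (a (c (l 16633744) (l 16624216)) (c (l 16625888) (l 16616272))) (a (b (l 16625704) (l 6)) (l 6)))))), by decide +kernel⟩

def k105_A00pm_102_s1 : ∃ t, chk3 f_A00pm_102_s1 t 6 3 1 = true :=
  ⟨(b (a (b (b (a (a (b (a (l 16861552) (l 16859664)) (b (l 16874608) (l 2))) (b (a (l 16857520) (l 16855712)) (l 16853928))) (a (b (l 16852728) (l 16870040)) (b (l 16848320) (l 16864760)))) (a (b (a (l 2) (l 16895304)) (l 2)) (a (b (l 16889768) (l 16911984)) (b (l 16883672) (l 16905176))))) (a (l 2) (a (l 2) (b (l 16899568) (l 2))))) (b (b (a (a (b (c (l 16855984) (a (l 16831000) (l 16827896))) (c (l 16874288) (l 16844032))) (b (c (a (l 16850200) (l 16842272)) (a (a (l 16804376) (b (l 16819208) (l 16826624))) (c (l 16822936) (l 16810184)))) (c (l 16844592) (a (l 16838872) (l 16832776))))) (a (b (c (l 16827336) (a (l 16807448) (l 16797848))) (a (l 16795840) (l 16827296))) (a (b (l 16799440) (l 16816288)) (b (l 16788640) (l 16804784))))) (a (a (b (l 16877080) (l 16897736)) (b (c (l 16886280) (a (l 16855104) (l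 16850184))) (c (l 16908528) (l 16870736)))) (a (b (c (l 16868744) (l 16836136)) (l 16874144)) (b (c (l 16844904) (l 16814088)) (l 16850648))))) (b (b (a (a (l 16921168) (l 16912392)) (a (l 16855952) (l 6))) (l 6)) (l 6)))) (l 6)), by decide +kernel⟩

def k106_A00pm_102_s1 : ∃ t, chk3 f_A00pm_102_s1 t 7 3 1 = true :=
  ⟨(b (a (b (a (b (a (b (c (l 16782512) (l 16761240)) (c (l 16799240) (l 16774312))) (b (l 16748688) (l 16761784))) (a (b (l 16804336) (l 16824416)) (b (l 16777560) (l 6)))) (b (a (b (a (l 16730896) (l 16719040)) (a (l 16742592) (l 16729672))) (b (c (a (l 16715576) (l 16703560)) (l 16693488)) (c (a (l 16726480) (l 16713184)) (l 16700656)))) (a (b (a (l 16756896) (l 16742944)) (l 6)) (l 6)))) (l 6)) (b (b (b (a (a (c (a (l 16691928) (l 16680584)) (a (l 16676832) (l 16666112))) (c (a (l 16669544) (c (l 16662104) (l 16655488))) (a (l 16655616) (l 16645360)))) (l 6)) (a (a (a (a (l 16694368) (l 16688048)) (l 6)) (l 6)) (l 6))) (l 6)) (l 6))) (l 6)), by decide +kernel⟩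

theorem t107_A00pm_102_s1 : ∃ t, chk3 f_A00pm_102_s1 t 3 3 1 = true := ex3_a k105_A00pm_102_s1 k106_A00pm_102_s1

theorem t108_A00pm_102_s1 : ∃ t, chk3 f_A00pm_102_s1 t 7 11 1 = true := ex3_a k103_A00pm_102_s1 k104_A00pm_102_s1

theorem t109_A00pm_102_s1 : ∃ t, chk3 f_A00pm_102_s1 t 3 11 1 = true := ex3_a k102_A00pm_102_s1 t108_A00pm_102_s1

theorem t110_A00pm_102_s1 : ∃ t, chk3 f_A00pm_102_s1 t 30 20 1 = true := ex3_b k98_A00pm_102_s1 k99_A00pm_102_s1

theorem t111_A00pm_102_s1 : ∃ t, chk3 f_A00pm_102_s1 t 15 20 1 = true := ex3_a t110_A00pm_102_s1 k100_A00pm_102_s1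

theorem t112_A00pm_102_s1 : ∃ t, chk3 f_A00pm_102_s1 t 15 10 1 = true := ex3_b t111_A00pm_102_s1 k101_A00pm_102_s1

theorem t113_A00pm_102_s1 : ∃ t, chk3 f_A00pm_102_s1 t 28 83 1 = true := ex3_b k94_A00pm_102_s1 k95_A00pm_102_s1

theorem t114_A00pm_102_s1 : ∃ t, chk3 f_A00pm_102_s1 t 14 83 1 = true := ex3_a t113_A00pm_102_s1 k96_A00pm_102_s1

theorem t115_A00pm_102_s1 : ∃ t, chk3 f_A00pm_102_s1 t 14 41 1 = true := ex3_b k93_A00pm_102_s1 t114_A00pm_102_s1

theorem t116_A00pm_102_s1 : ∃ t, chk3 f_A00pm_102_s1 t 14 40 1 = true := ex3_a k91_A00pm_102_s1 k92_A00pm_102_s1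

theorem t117_A00pm_102_s1 : ∃ t, chk3 f_A00pm_102_s1 t 14 20 1 = true := ex3_b t116_A00pm_102_s1 t115_A00pm_102_s1

theorem t118_A00pm_102_s1 : ∃ t, chk3 f_A00pm_102_s1 t 14 10 1 = true := ex3_b t117_A00pm_102_s1 k97_A00pm_102_s1

theorem t119_A00pm_102_s1 : ∃ t, chk3 f_A00pm_102_s1 t 7 10 1 = true := ex3_a t118_A00pm_102_s1 t112_A00pm_102_s1

theorem t120_A00pm_102_s1 : ∃ t, chk3 f_A00pm_102_s1 t 6 21 1 = true := ex3_a k89_A00pm_102_s1 k90_A00pm_102_s1

theorem t121_A00pm_102_s1 : ∃ t, chk3 f_A00pm_102_s1 t 13 670 1 = true := ex3_b k86_A00pm_102_s1 k87_A00pm_102_s1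

theorem t122_A00pm_102_s1 : ∃ t, chk3 f_A00pm_102_s1 t 13 335 1 = true := ex3_b t121_A00pm_102_s1 k88_A00pm_102_s1

theorem t123_A00pm_102_s1 : ∃ t, chk3 f_A00pm_102_s1 t 13 669 1 = true := ex3_b k84_A00pm_102_s1 k85_A00pm_102_s1

theorem t124_A00pm_102_s1 : ∃ t, chk3 f_A00pm_102_s1 t 13 334 1 = true := ex3_b k83_A00pm_102_s1 t123_A00pm_102_s1

theorem t125_A00pm_102_s1 : ∃ t, chk3 f_A00pm_102_s1 t 13 167 1 = true := ex3_b t124_A00pm_102_s1 t122_A00pm_102_s1

theorem t126_A00pm_102_s1 : ∃ t, chk3 f_A00pm_102_s1 t 13 83 1 = true := ex3_b k82_A00pm_102_s1 t125_A00pm_102_s1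

theorem t127_A00pm_102_s1 : ∃ t, chk3 f_A00pm_102_s1 t 13 41 1 = true := ex3_b k81_A00pm_102_s1 t126_A00pm_102_s1

theorem t128_A00pm_102_s1 : ∃ t, chk3 f_A00pm_102_s1 t 13 20 1 = true := ex3_b k80_A00pm_102_s1 t127_A00pm_102_s1

theorem t129_A00pm_102_s1 : ∃ t, chk3 f_A00pm_102_s1 t 25 83 1 = true := ex3_b k78_A00pm_102_s1 k79_A00pm_102_s1

theorem t130_A00pm_102_s1 : ∃ t, chk3 f_A00pm_102_s1 t 48 167 1 = true := ex3_a k75_A00pm_102_s1 k76_A00pm_102_s1

theorem t131_A00pm_102_s1 : ∃ t, chk3 f_A00pm_102_s1 t 24 167 1 = true := ex3_a t130_A00pm_102_s1 k77_A00pm_102_s1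

theorem t132_A00pm_102_s1 : ∃ t, chk3 f_A00pm_102_s1 t 24 83 1 = true := ex3_b k74_A00pm_102_s1 t131_A00pm_102_s1

theorem t133_A00pm_102_s1 : ∃ t, chk3 f_A00pm_102_s1 t 12 83 1 = true := ex3_a t132_A00pm_102_s1 t129_A00pm_102_s1

theorem t134_A00pm_102_s1 : ∃ t, chk3 f_A00pm_102_s1 t 12 41 1 = true := ex3_b k73_A00pm_102_s1 t133_A00pm_102_s1

theorem t135_A00pm_102_s1 : ∃ t, chk3 f_A00pm_102_s1 t 25 40 1 = true := ex3_b k71_A00pm_102_s1 k72_A00pm_102_s1

theorem t136_A00pm_102_s1 : ∃ t, chk3 f_A00pm_102_s1 t 12 40 1 = true := ex3_a k70_A00pm_102_s1 t135_A00pm_102_s1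

theorem t137_A00pm_102_s1 : ∃ t, chk3 f_A00pm_102_s1 t 12 20 1 = true := ex3_b t136_A00pm_102_s1 t134_A00pm_102_s1

theorem t138_A00pm_102_s1 : ∃ t, chk3 f_A00pm_102_s1 t 6 20 1 = true := ex3_a t137_A00pm_102_s1 t128_A00pm_102_s1

theorem t139_A00pm_102_s1 : ∃ t, chk3 f_A00pm_102_s1 t 6 10 1 = true := ex3_b t138_A00pm_102_s1 t120_A00pm_102_s1

theorem t140_A00pm_102_s1 : ∃ t, chk3 f_A00pm_102_s1 t 3 10 1 = true := ex3_a t139_A00pm_102_s1 t119_A00pm_102_s1

theorem t141_A00pm_102_s1 : ∃ t, chk3 f_A00pm_102_s1 t 3 5 1 = true := ex3_b t140_A00pm_102_s1 t109_A00pm_102_s1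

theorem t142_A00pm_102_s1 : ∃ t, chk3 f_A00pm_102_s1 t 31 19 1 = true := ex3_a k68_A00pm_102_s1 k69_A00pm_102_s1

theorem t143_A00pm_102_s1 : ∃ t, chk3 f_A00pm_102_s1 t 31 18 1 = true := ex3_a k66_A00pm_102_s1 k67_A00pm_102_s1

theorem t144_A00pm_102_s1 : ∃ t, chk3 f_A00pm_102_s1 t 31 9 1 = true := ex3_b t143_A00pm_102_s1 t142_A00pm_102_s1

theorem t145_A00pm_102_s1 : ∃ t, chk3 f_A00pm_102_s1 t 30 19 1 = true := ex3_b k64_A00pm_102_s1 k65_A00pm_102_s1

theorem t146_A00pm_102_s1 : ∃ t, chk3 f_A00pm_102_s1 t 30 37 1 = true := ex3_a k62_A00pm_102_s1 k63_A00pm_102_s1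

theorem t147_A00pm_102_s1 : ∃ t, chk3 f_A00pm_102_s1 t 30 36 1 = true := ex3_a k60_A00pm_102_s1 k61_A00pm_102_s1

theorem t148_A00pm_102_s1 : ∃ t, chk3 f_A00pm_102_s1 t 30 18 1 = true := ex3_b t147_A00pm_102_s1 t146_A00pm_102_s1

theorem t149_A00pm_102_s1 : ∃ t, chk3 f_A00pm_102_s1 t 30 9 1 = true := ex3_b t148_A00pm_102_s1 t145_A00pm_102_s1

theorem t150_A00pm_102_s1 : ∃ t, chk3 f_A00pm_102_s1 t 15 9 1 = true := ex3_a t149_A00pm_102_s1 t144_A00pm_102_s1

theorem t151_A00pm_102_s1 : ∃ t, chk3 f_A00pm_102_s1 t 29 19 1 = true := ex3_a k58_A00pm_102_s1 k59_A00pm_102_s1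

theorem t152_A00pm_102_s1 : ∃ t, chk3 f_A00pm_102_s1 t 29 18 1 = true := ex3_b k56_A00pm_102_s1 k57_A00pm_102_s1

theorem t153_A00pm_102_s1 : ∃ t, chk3 f_A00pm_102_s1 t 29 9 1 = true := ex3_b t152_A00pm_102_s1 t151_A00pm_102_s1

theorem t154_A00pm_102_s1 : ∃ t, chk3 f_A00pm_102_s1 t 14 9 1 = true := ex3_a k55_A00pm_102_s1 t153_A00pm_102_s1

theorem t155_A00pm_102_s1 : ∃ t, chk3 f_A00pm_102_s1 t 7 9 1 = true := ex3_a t154_A00pm_102_s1 t150_A00pm_102_s1

theorem t156_A00pm_102_s1 : ∃ t, chk3 f_A00pm_102_s1 t 62 34 1 = true := ex3_b k51_A00pm_102_s1 k52_A00pm_102_s1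

theorem t157_A00pm_102_s1 : ∃ t, chk3 f_A00pm_102_s1 t 62 17 1 = true := ex3_b t156_A00pm_102_s1 k53_A00pm_102_s1

theorem t158_A00pm_102_s1 : ∃ t, chk3 f_A00pm_102_s1 t 31 17 1 = true := ex3_a t157_A00pm_102_s1 k54_A00pm_102_s1

theorem t159_A00pm_102_s1 : ∃ t, chk3 f_A00pm_102_s1 t 31 8 1 = true := ex3_b k50_A00pm_102_s1 t158_A00pm_102_s1

theorem t160_A00pm_102_s1 : ∃ t, chk3 f_A00pm_102_s1 t 123 34 1 = true := ex3_a k47_A00pm_102_s1 k48_A00pm_102_s1

theorem t161_A00pm_102_s1 : ∃ t, chk3 f_A00pm_102_s1 t 61 34 1 = true := ex3_a k46_A00pm_102_s1 t160_A00pm_102_s1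

theorem t162_A00pm_102_s1 : ∃ t, chk3 f_A00pm_102_s1 t 61 17 1 = true := ex3_b t161_A00pm_102_s1 k49_A00pm_102_s1

theorem t163_A00pm_102_s1 : ∃ t, chk3 f_A00pm_102_s1 t 30 17 1 = true := ex3_a k45_A00pm_102_s1 t162_A00pm_102_s1

theorem t164_A00pm_102_s1 : ∃ t, chk3 f_A00pm_102_s1 t 30 8 1 = true := ex3_b k44_A00pm_102_s1 t163_A00pm_102_s1

theorem t165_A00pm_102_s1 : ∃ t, chk3 f_A00pm_102_s1 t 15 8 1 = true := ex3_a t164_A00pm_102_s1 t159_A00pm_102_s1

theorem t166_A00pm_102_s1 : ∃ t, chk3 f_A00pm_102_s1 t 7 8 1 = true := ex3_a k43_A00pm_102_s1 t165_A00pm_102_s1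

theorem t167_A00pm_102_s1 : ∃ t, chk3 f_A00pm_102_s1 t 7 4 1 = true := ex3_b t166_A00pm_102_s1 t155_A00pm_102_s1

theorem t168_A00pm_102_s1 : ∃ t, chk3 f_A00pm_102_s1 t 26 39 1 = true := ex3_b k40_A00pm_102_s1 k41_A00pm_102_s1

theorem t169_A00pm_102_s1 : ∃ t, chk3 f_A00pm_102_s1 t 13 39 1 = true := ex3_a t168_A00pm_102_s1 k42_A00pm_102_s1

theorem t170_A00pm_102_s1 : ∃ t, chk3 f_A00pm_102_s1 t 13 19 1 = true := ex3_b k39_A00pm_102_s1 t169_A00pm_102_s1

theorem t171_A00pm_102_s1 : ∃ t, chk3 f_A00pm_102_s1 t 13 9 1 = true := ex3_b k38_A00pm_102_s1 t170_A00pm_102_s1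

theorem t172_A00pm_102_s1 : ∃ t, chk3 f_A00pm_102_s1 t 13 4 1 = true := ex3_b k37_A00pm_102_s1 t171_A00pm_102_s1

theorem t173_A00pm_102_s1 : ∃ t, chk3 f_A00pm_102_s1 t 6 4 1 = true := ex3_a k36_A00pm_102_s1 t172_A00pm_102_s1

theorem t174_A00pm_102_s1 : ∃ t, chk3 f_A00pm_102_s1 t 3 4 1 = true := ex3_a t173_A00pm_102_s1 t167_A00pm_102_s1

theorem t175_A00pm_102_s1 : ∃ t, chk3 f_A00pm_102_s1 t 3 2 1 = true := ex3_b t174_A00pm_102_s1 t141_A00pm_102_s1

theorem t176_A00pm_102_s1 : ∃ t, chk3 f_A00pm_102_s1 t 3 1 1 = true := ex3_b t175_A00pm_102_s1 t107_A00pm_102_s1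

theorem t177_A00pm_102_s1 : ∃ t, chk3 f_A00pm_102_s1 t 5 11 1 = true := ex3_a k33_A00pm_102_s1 k34_A00pm_102_s1

theorem t178_A00pm_102_s1 : ∃ t, chk3 f_A00pm_102_s1 t 2 11 1 = true := ex3_a k32_A00pm_102_s1 t177_A00pm_102_s1

theorem t179_A00pm_102_s1 : ∃ t, chk3 f_A00pm_102_s1 t 11 21 1 = true := ex3_b k30_A00pm_102_s1 k31_A00pm_102_s1

theorem t180_A00pm_102_s1 : ∃ t, chk3 f_A00pm_102_s1 t 21 42 1 = true := ex3_b k27_A00pm_102_s1 k28_A00pm_102_s1

theorem t181_A00pm_102_s1 : ∃ t, chk3 f_A00pm_102_s1 t 10 42 1 = true := ex3_a k26_A00pm_102_s1 t180_A00pm_102_s1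

theorem t182_A00pm_102_s1 : ∃ t, chk3 f_A00pm_102_s1 t 10 21 1 = true := ex3_b t181_A00pm_102_s1 k29_A00pm_102_s1

theorem t183_A00pm_102_s1 : ∃ t, chk3 f_A00pm_102_s1 t 5 21 1 = true := ex3_a t182_A00pm_102_s1 t179_A00pm_102_s1

theorem t184_A00pm_102_s1 : ∃ t, chk3 f_A00pm_102_s1 t 95 167 1 = true := ex3_c k24_A00pm_102_s1 k25_A00pm_102_s1

theorem t185_A00pm_102_s1 : ∃ t, chk3 f_A00pm_102_s1 t 94 167 2 = true := ex3_a k21_A00pm_102_s1 k22_A00pm_102_s1

theorem t186_A00pm_102_s1 : ∃ t, chk3 f_A00pm_102_s1 t 94 167 1 = true := ex3_c t185_A00pm_102_s1 k23_A00pm_102_s1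

theorem t187_A00pm_102_s1 : ∃ t, chk3 f_A00pm_102_s1 t 47 167 1 = true := ex3_a t186_A00pm_102_s1 t184_A00pm_102_s1

theorem t188_A00pm_102_s1 : ∃ t, chk3 f_A00pm_102_s1 t 47 83 1 = true := ex3_b k20_A00pm_102_s1 t187_A00pm_102_s1

theorem t189_A00pm_102_s1 : ∃ t, chk3 f_A00pm_102_s1 t 23 83 1 = true := ex3_a k19_A00pm_102_s1 t188_A00pm_102_s1

theorem t190_A00pm_102_s1 : ∃ t, chk3 f_A00pm_102_s1 t 44 83 1 = true := ex3_b k16_A00pm_102_s1 k17_A00pm_102_s1

theorem t191_A00pm_102_s1 : ∃ t, chk3 f_A00pm_102_s1 t 22 83 1 = true := ex3_a t190_A00pm_102_s1 k18_A00pm_102_s1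

theorem t192_A00pm_102_s1 : ∃ t, chk3 f_A00pm_102_s1 t 11 83 1 = true := ex3_a t191_A00pm_102_s1 t189_A00pm_102_s1

theorem t193_A00pm_102_s1 : ∃ t, chk3 f_A00pm_102_s1 t 11 82 1 = true := ex3_b k14_A00pm_102_s1 k15_A00pm_102_s1

theorem t194_A00pm_102_s1 : ∃ t, chk3 f_A00pm_102_s1 t 11 41 1 = true := ex3_b t193_A00pm_102_s1 t192_A00pm_102_s1

theorem t195_A00pm_102_s1 : ∃ t, chk3 f_A00pm_102_s1 t 11 20 1 = true := ex3_b k13_A00pm_102_s1 t194_A00pm_102_s1

theorem t196_A00pm_102_s1 : ∃ t, chk3 f_A00pm_102_s1 t 43 167 1 = true := ex3_a k11_A00pm_102_s1 k12_A00pm_102_s1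

theorem t197_A00pm_102_s1 : ∃ t, chk3 f_A00pm_102_s1 t 43 332 1 = true := ex3_a k8_A00pm_102_s1 k9_A00pm_102_s1

theorem t198_A00pm_102_s1 : ∃ t, chk3 f_A00pm_102_s1 t 43 166 1 = true := ex3_b t197_A00pm_102_s1 k10_A00pm_102_s1

theorem t199_A00pm_102_s1 : ∃ t, chk3 f_A00pm_102_s1 t 43 83 1 = true := ex3_b t198_A00pm_102_s1 t196_A00pm_102_s1

theorem t200_A00pm_102_s1 : ∃ t, chk3 f_A00pm_102_s1 t 42 167 1 = true := ex3_a k6_A00pm_102_s1 k7_A00pm_102_s1

theorem t201_A00pm_102_s1 : ∃ t, chk3 f_A00pm_102_s1 t 42 83 1 = true := ex3_b k5_A00pm_102_s1 t200_A00pm_102_s1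

theorem t202_A00pm_102_s1 : ∃ t, chk3 f_A00pm_102_s1 t 21 83 1 = true := ex3_a t201_A00pm_102_s1 t199_A00pm_102_s1

theorem t203_A00pm_102_s1 : ∃ t, chk3 f_A00pm_102_s1 t 21 41 1 = true := ex3_b k4_A00pm_102_s1 t202_A00pm_102_s1

theorem t204_A00pm_102_s1 : ∃ t, chk3 f_A00pm_102_s1 t 10 41 1 = true := ex3_a k3_A00pm_102_s1 t203_A00pm_102_s1

theorem t205_A00pm_102_s1 : ∃ t, chk3 f_A00pm_102_s1 t 10 20 1 = true := ex3_b k2_A00pm_102_s1 t204_A00pm_102_s1

theorem t206_A00pm_102_s1 : ∃ t, chk3 f_A00pm_102_s1 t 5 20 1 = true := ex3_a t205_A00pm_102_s1 t195_A00pm_102_s1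

theorem t207_A00pm_102_s1 : ∃ t, chk3 f_A00pm_102_s1 t 5 10 1 = true := ex3_b t206_A00pm_102_s1 t183_A00pm_102_s1

theorem t208_A00pm_102_s1 : ∃ t, chk3 f_A00pm_102_s1 t 2 10 1 = true := ex3_a k1_A00pm_102_s1 t207_A00pm_102_s1

theorem t209_A00pm_102_s1 : ∃ t, chk3 f_A00pm_102_s1 t 2 5 1 = true := ex3_b t208_A00pm_102_s1 t178_A00pm_102_s1

theorem t210_A00pm_102_s1 : ∃ t, chk3 f_A00pm_102_s1 t 2 2 1 = true := ex3_b k0_A00pm_102_s1 t209_A00pm_102_s1

theorem t211_A00pm_102_s1 : ∃ t, chk3 f_A00pm_102_s1 t 2 1 1 = true := ex3_b t210_A00pm_102_s1 k35_A00pm_102_s1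

theorem t212_A00pm_102_s1 : ∃ t, chk3 f_A00pm_102_s1 t 1 1 1 = true := ex3_a t211_A00pm_102_s1 t176_A00pm_102_s1

theorem c_A00pm_102_s1 : CertF 536870912 536870912 0 536870912 402653184 67108864 true true false .npp 1 0 2
    ndF0q1 ndF0q0 pcF2 cut_A00pm_102_s1 xt_A00pm_102_s1 :=
  certF1 (fam := true) (s1 := true) (s2 := false) (a := 1) (b := 0) (c := 2) (cn := .npp) (n1 := ndF0q1) (n2 := ndF0q0) (pc := pcF2) (cut := cut_A00pm_102_s1) (xt := xt_A00pm_102_s1) (P1 := 536870912) (W1 := 536870912) (P2 := 0) (W2 := 536870912) (P3 := 402653184) (W3 := 67108864)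
    rfl (fun _ => rfl) t212_A00pm_102_s1

theorem s_A00pm_102_s1 {κ x : ℝ} (hκ : κ * h0 = ken x) (hx : ((402653184 : ℕ) : ℝ) / S ≤ x)
    (hx' : x ≤ (((402653184 : ℕ) : ℝ) + (67108864 : ℕ)) / S)
    (H : CutA (VF κ) PP tKF tL pcF (Cut.of [[⟨0, 1, 0, 67108864⟩, ⟨1, 0, 0, 67108864⟩, ⟨2, 1, 0, 67108864⟩], [⟨0, 1, 0, 33554432⟩, ⟨1, 0, 1, 33554432⟩, ⟨2, 1, 1, 33554432⟩]]) 1 0 2 0 0 (sgb true) (sgb false) x) :
    AltA (VF κ) PP tKF tL pcF [⟨3, 0, 0, 1449551462⟩] 1 0 2 0 0 (sgb true) (sgb false) x :=
  strip_altA (m := 1449551462) true rfl hκ covF01 covF00 hx hx' c_A00pm_102_s1 H ((okx hx hx').extA (T := tt) (sideF hx hx') hκ rfl rfl (.O 1 true) (.O 0 false) rfl)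

end Pool.Agent.Strip051.G.I3_8_7_16.Tab.St.C
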