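import Pool.Agent.Strip051.G.I3_8_7_16.StF

/-! # Unit strips 4 (generated) -/

set_option linter.all false
set_option maxRecDepth 100000

namespace Pool.Agent.Strip051.G.I3_8_7_16.Tab.St.C

open Pool.Agent.Strip051.PB Pool.Agent.Strip051.PB.T Pool.Agent.StripNear Pool.Agent.Strip051.LC
open Pool.Agent.Strip051.G.I3_8_7_16.Tab Pool.Agent.Strip051.G.I3_8_7_16.Tab.St

noncomputable def cut_A00pm_102_s3 : Cut := Cut.of [[⟨3, 0, 0, 2845415833⟩], [⟨0, 1, 0, 67108864⟩, ⟨1, 0, 0, 67108864⟩, ⟨2, 1, 0, 67108864⟩], [⟨0, 1, 0, 33554432⟩, ⟨1, 0, 1, 33554432⟩, ⟨2, 1, 1, 33554432⟩]]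

noncomputable def f_A00pm_102_s3 : ℕ → ℕ → ℕ → ℕ → Bool := onCell 536870912 536870912 0 536870912 402653184 67108864
    (rowF 0 true true false .npp 1 0 2 (qsf 536870912 536870912 0 536870912 2) ndF0q1 ndF0q0 pcF2 cut_A00pm_102_s3 Ext.none)

def k0_A00pm_102_s3 : ∃ t, chk3 f_A00pm_102_s3 t 1 1 1 = true :=
  ⟨(l 6), by decide +kernel⟩

theorem c_A00pm_102_s3 : CertF 536870912 536870912 0 536870912 402653184 67108864 true true false .npp 1 0 2
    ndF0q1 ndF0q0 pcF2 cut_A00pm_102_s3 Ext.none :=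
  certF0 (fam := true) (s1 := true) (s2 := false) (a := 1) (b := 0) (c := 2) (cn := .npp) (n1 := ndF0q1) (n2 := ndF0q0) (pc := pcF2) (cut := cut_A00pm_102_s3) (xt := Ext.none) (P1 := 536870912) (W1 := 536870912) (P2 := 0) (W2 := 536870912) (P3 := 402653184) (W3 := 67108864)
    rfl k0_A00pm_102_s3

theorem s_A00pm_102_s3 {κ x : ℝ} (hκ : κ * h0 = ken x) (hx : ((402653184 : ℕ) : ℝ) / S ≤ x)
    (hx' : x ≤ (((402653184 : ℕ) : ℝ) + (67108864 : ℕ)) / S)
    (H : CutA (VF κ) PP tKF tL pcF (Cut.of [[⟨0, 1, 0, 67108864⟩, ⟨1, 0, 0, 67108864⟩, ⟨2, 1, 0, 67108864⟩], [⟨0, 1, 0, 33554432⟩, ⟨1, 0, 1, 33554432⟩, ⟨2, 1, 1, 33554432⟩]]) 1 0 2 0 0 (sgb true) (sgb false) x) :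
    AltA (VF κ) PP tKF tL pcF [⟨4, 0, 0, 2845415833⟩] 1 0 2 0 0 (sgb true) (sgb false) x :=
  strip_altA (m := 2845415833) false rfl hκ covF01 covF00 hx hx' c_A00pm_102_s3 H (noExt_A)

noncomputable def cut_A00pm_112_s1 : Cut := Cut.of [[⟨4, 0, 0, 1449551462⟩]]

noncomputable def xt_A00pm_112_s1 : Ext := strExt dd true true false .u0 .u0m .u2 .dn 1 1 2 rfl rfl gf2 vv ndF0q1 ndF0q1

noncomputable def f_A00pm_112_s1 : ℕ → ℕ → ℕ → ℕ → Bool := onCell 536870912 536870912 1073741824 536870912 402653184 67108864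
    (rowF 1 true true false .dn 1 1 2 (qsf 536870912 536870912 536870912 536870912 2) ndF0q1 ndF0q1 pcF2 cut_A00pm_112_s1 xt_A00pm_112_s1)

def k0_A00pm_112_s1 : ∃ t, chk3 f_A00pm_112_s1 t 2 4 1 = true :=
  ⟨(b (l 3) (l 3)), by decide +kernel⟩

def k1_A00pm_112_s1 : ∃ t, chk3 f_A00pm_112_s1 t 2 40 1 = true :=
  ⟨(a (l 3) (a (l 3) (l 1))), by decide +kernel⟩

def k2_A00pm_112_s1 : ∃ t, chk3 f_A00pm_112_s1 t 4 82 1 = true :=
  ⟨(l 3), by decide +kernel⟩

def k3_A00pm_112_s1 : ∃ t, chk3 f_A00pm_112_s1 t 4 332 1 = true :=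
  ⟨(l 3), by decide +kernel⟩

def k4_A00pm_112_s1 : ∃ t, chk3 f_A00pm_112_s1 t 4 333 2 = true :=
  ⟨(b (a (a (l 3) (l 3)) (l 3)) (c (a (a (a (b (a (b (a (b (l 537949567) (l 537891711)) (l 3)) (a (l 537799551) (a (a (l 537717631) (b (l 3) (l 537648767))) (l 3)))) (l 3)) (a (b (a (b (b (l 537721215) (l 537702015)) (a (l 537721215) (l 537672063))) (a (a (b (b (l 537904511) (l 537629311)) (l 537647487)) (a (b (b (b (l 537614719) (l 537607807)) (l 537614719)) (l 537645439)) (b (b (b (c (b (l 537672063) (l 537660687)) (b (l 537527679) (l 537516159))) (a (l 537598847) (l 537596431))) (l 537613439)) (l 537652863)))) (a (b (c (b (b (c (l 537708671) (l 537770111)) (l 537685375)) (l 537706879)) (b (a (b (c (l 537556095) (l 537483647)) (l 537532543)) (l 537540735)) (l 537560959))) (l 537676927)) (b (b (l 3) (l 537663871)) (l 537707135))))) (a (a (l 537737087) (l 537712767)) (a (b (l 537693311) (l 537746303)) (l 537779583)))) (b (b (l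 3) (l 537842815)) (l 537932927)))) (l 3)) (l 3)) (l 3)) (a (a (a (b (a (b (a (l 537642623) (l 3)) (a (l 537518719) (a (l 537420415) (l 3)))) (l 3)) (a (b (a (a (l 537444991) (b (l 537393535) (l 537384575))) (a (b (b (a (l 537348991) (b (a (l 537326463) (b (l 537311103) (l 537299215))) (a (l 537319039) (l 537309199)))) (a (l 537341055) (a (l 537325183) (l 537322879)))) (a (l 537357183) (l 537356671))) (a (b (b (b (a (c (b (l 537373055) (l 537377151)) (l 537230207)) (l 3)) (l 537321855)) (l 537342335)) (l 537383295)) (b (b (l 3) (l 537371007)) (l 537412479))))) (a (a (l 537449343) (l 537421183)) (a (a (l 537418623) (l 537433983)) (l 537481343)))) (b (b (l 3) (l 537543551)) (l 537629567)))) (l 3)) (l 3)) (l 3)))), by decide +kernel⟩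

def k5_A00pm_112_s1 : ∃ t, chk3 f_A00pm_112_s1 t 4 333 6 = true :=
  ⟨(b (a (a (l 3) (l 3)) (l 3)) (a (a (a (b (a (b (a (l 537363583) (l 3)) (a (l 537237375) (a (l 537134207) (l 3)))) (l 3)) (a (b (a (b (b (l 537155199) (l 537133951)) (a (l 537153151) (l 537097343))) (a (b (b (a (l 537062271) (b (a (l 537038719) (b (l 537022591) (a (l 537020543) (l 537010447)))) (a (l 537031039) (a (l 537020799) (l 537017359))))) (a (l 537053055) (a (l 537036159) (l 537033087)))) (a (l 537067647) (l 537065343))) (a (b (a (b (b (c (b (l 537083775) (l 537087615)) (b (c (l 536975487) (l 536903295)) (l 536943231))) (l 537024895)) (l 537044095)) (b (b (l 3) (l 537038719)) (l 537058175))) (l 537090175)) (b (b (l 3) (l 537078911)) (l 537118335))))) (a (a (l 537162111) (l 537130623)) (a (a (l 537125247) (l 537138559)) (l 537183615)))) (b (b (l 3) (l 537245311)) (l 537326719)))) (l 3)) (l 3)) (l 3))), by decide +kernel⟩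

def k6_A00pm_112_s1 : ∃ t, chk3 f_A00pm_112_s1 t 4 333 7 = true :=
  ⟨(b (a (a (l 3) (l 3)) (l 3)) (a (a (a (b (a (b (a (a (l 537116543) (a (l 537067903) (l 3))) (l 3)) (a (l 536956031) (a (a (l 536863359) (b (l 3) (l 536787583))) (l 3)))) (l 3)) (a (b (a (b (b (l 536872319) (l 536850559)) (a (l 536869759) (l 536811135))) (a (a (b (b (b (l 536782207) (l 536770175)) (l 536766079)) (l 536778879)) (a (b (b (b (l 536751743) (l 536743295)) (l 536747647)) (l 536772735)) (b (b (a (b (b (l 536739967) (l 536732799)) (l 536732543)) (c (b (b (l 536801407) (l 536794495)) (l 536800895)) (b (b (l 536657535) (l 536650255)) (l 536656767)))) (l 536743439)) (l 536777087)))) (a (a (b (b (c (b (a (c (l 536829823) (l 536757887)) (l 536800127)) (l 536808063)) (b (c (b (l 536687231) (l 536690559)) (b (l 536615295) (l 536618367))) (l 536663423))) (l 536753791)) (l 536790911)) (b (b (b (l 3) (l 536748927)) (l 536767359)) (l 536804479))) (b (b (l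 3) (l 536787583)) (l 536824959))))) (a (a (l 536875647) (b (l 536827519) (l 536856959))) (a (a (l 536832639) (l 536844159)) (l 536886655)))) (b (b (l 3) (l 536947583)) (l 537024895)))) (l 3)) (l 3)) (l 3))), by decide +kernel⟩

def k7_A00pm_112_s1 : ∃ t, chk3 f_A00pm_112_s1 t 32 334 1 = true :=
  ⟨(b (a (b (a (b (a (l 537361023) (l 537355647)) (b (l 537420415) (l 537468031))) (a (b (b (l 537353599) (l 537407615)) (l 537491327)) (b (l 537444223) (l 537560447)))) (a (b (l 537544831) (l 537656959)) (b (a (l 537608575) (l 537681535)) (a (l 537732735) (l 537808767))))) (b (b (b (l 537565055) (l 537623679)) (l 537713535)) (b (l 537838463) (l 537969791)))) (b (b (a (a (c (l 538098303) (l 537462655)) (a (l 537865087) (l 537943935))) (l 538109311)) (a (a (c (l 538240639) (l 537590655)) (c (a (l 538340991) (l 538427007)) (a (l 537677439) (l 537754495)))) (b (l 538221439) (l 538300031)))) (a (a (b (b (l 538026367) (b (l 538086271)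 (l 538127231))) (b (l 538183295) (l 538250623))) (a (b (b (l 538125183) (l 538209151)) (l 538325375)) (b (b (l 538208895) (l 538293375)) (l 538410367)))) (b (b (l 538382719) (l 538470015)) (b (l 538551423) (l 538619519)))))), by decide +kernel⟩

def k8_A00pm_112_s1 : ∃ t, chk3 f_A00pm_112_s1 t 32 335 1 = true :=
  ⟨(b (b (a (c (a (c (l 16779072) (l 16778752)) (c (l 16779008) (l 16778712))) (a (a (l 16778280) (l 16778272)) (a (l 16778272) (l 16778272)))) (a (a (c (l 16778808) (l 16778264)) (l 16778504)) (a (l 16778464) (l 16778424)))) (b (b (a (c (a (l 538852511) (c (l 16779312) (l 16778984))) (a (a (l 16778488) (l 16778488)) (a (l 16778488) (l 16778488)))) (a (a (c (l 16779096) (l 16778480)) (l 16778752)) (a (l 16778712) (l 16778664)))) (b (a (c (a (l 538882463) (c (l 16779400) (l 16779056))) (a (a (l 16778552) (l 16778544)) (a (l 16778544) (l 16778552)))) (a (a (c (l 16779176) (l 16778536)) (l 16778824)) (a (l 16778784)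 (l 16778736)))) (b (a (a (c (l 538896799) (a (l 16778584) (l 16778576))) (a (l 538374559) (l 538184351))) (a (a (l 538790303) (l 16778856)) (a (l 16778816) (l 16778776)))) (a (a (a (a (l 16778992) (l 16778984)) (a (l 16778968) (l 16778968))) (a (a (l 16778960) (l 16778952)) (a (l 16778944) (l 16778936)))) (a (a (a (l 16778928) (l 16778912)) (l 16778880)) (a (l 16778840) (l 16778800))))))) (a (a (a (c (l 16779496) (l 16778696)) (a (l 16779080) (l 16779072))) (a (a (l 16779064) (l 16779064)) (a (l 16779056) (l 16779048)))) (a (a (a (l 16779032) (l 16779016)) (l 16778992)) (a (l 16778952) (l 16778904)))))) (a (a (a (c (l 16780048) (l 16779096)) (c (l 16780024) (c (l 16779328) (l 16778872)))) (a (c (l 16780000) (c (l 16779320) (l 16778872))) (c (l 16779968) (c (l 16779312) (l 16778880))))) (a (c (c (l 16780120) (l 16779704)) (a (l 16779088) (l 16779064))) (c (l 16779792) (a (l 16779040) (l 16779008)))))), by decide +kernel⟩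

def k9_A00pm_112_s1 : ∃ t, chk3 f_A00pm_112_s1 t 33 167 1 = true :=
  ⟨(b (a (b (b (b (b (l 3) (l 537873279)) (l 537966719)) (b (l 538096767) (l 538233215))) (b (b (l 538377599) (l 538532479)) (b (b (l 538657919) (l 538746495)) (b (l 538826111) (l 538888575))))) (b (b (l 3) (b (l 538358911) (l 538498175))) (b (b (l 538644351) (l 538799231)) (b (b (l 538922111) (l 539007615)) (b (l 539079039) (l 539128191)))))) (b (b (a (a (a (l 16778376) (l 16778328)) (a (l 16778280) (l 16778224))) (a (a (l 16778168) (l 16778112)) (a (l 16778048) (l 16777992)))) (b (b (a (a (c (l 16778840) (l 16778352)) (c (l 16778704) (l 16778272))) (a (c (l 16778568) (l 16778184)) (c (l 16778416) (l 16778088)))) (b (a (a (c (l 16778920) (l 16778416)) (c (l 16778792) (l 16778336))) (a (c (l 16778648) (l 16778240)) (c (l 16778496) (l 16778144)))) (b (a (a (c (l 16778960) (l 16778440)) (l 539141535)) (a (l 539223967) (l 539289759))) (a (a (c (l 16778992)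 (l 16778464)) (c (l 16778856) (l 16778384))) (a (c (l 16778712) (l 16778288)) (c (l 16778560) (l 16778192))))))) (a (a (a (l 16778856) (l 16778808)) (c (l 16778976) (l 16778472))) (a (c (l 16778832) (l 16778384)) (c (l 16778680) (l 16778280)))))) (a (a (a (l 16779328) (l 16779280)) (a (l 16779224) (l 16779160))) (a (c (l 16779368) (l 16778768)) (c (l 16779216) (l 16778672)))))), by decide +kernel⟩

def k10_A00pm_112_s1 : ∃ t, chk3 f_A00pm_112_s1 t 17 167 1 = true :=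
  ⟨(a (b (a (b (l 3) (b (b (l 538899071) (l 539045503)) (b (b (l 539157119) (l 539227007)) (b (a (l 539238271) (l 539318655)) (a (l 539270271) (l 539335807)))))) (a (b (l 3) (b (l 3) (b (b (l 539292287) (b (l 539350399) (l 539357311))) (b (a (l 539353471) (l 539364991)) (l 539362687))))) (l 539366719))) (b (b (a (b (b (a (l 539291007) (l 539345279)) (l 539331711)) (a (a (l 16778016) (l 16777952)) (a (l 16777896) (l 16777832)))) (a (b (b (l 539364479) (l 539365503)) (b (l 539365759) (a (l 16777816) (l 16777752)))) (l 539374639))) (b (b (a (a (a (l 16778152) (l 16778088)) (a (l 16778032) (l 16777968))) (a (a (l 16777904) (l 16777848)) (l 539375151))) (b (a (a (c (l 16778344) (l 16778040)) (c (l 16778200) (l 16777936))) (a (a (l 16777976) (l 16777912)) (l 539375151))) (b (a (a (l 539336863) (l 539364255)) (a (l 539367839) (l 539375407))) (a (a (c (l 16778416) (l 16778088)) (c (l 16778264) (l 16777984))) (a (c (l 16778120) (l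 16777880)) (c (l 16777992) (l 16777784))))))) (a (a (c (l 16778528) (l 16778176)) (c (l 16778384) (l 16778072))) (a (a (l 16778128) (l 16778072)) (l 539375711))))) (a (a (c (l 16779064) (l 16778560)) (c (l 16778904) (l 16778456))) (a (c (l 16778760) (l 16778352)) (c (l 16778624) (l 16778256)))))) (b (l 539387967) (b (b (l 539395375) (b (b (l 539395887) (b (l 539396143) (b (l 539396143) (a (a (c (l 16777880) (l 16777704)) (a (l 16777720) (l 16777680))) (a (a (l 16777648) (l 16777616)) (a (l 16777584) (l 16777552))))))) (l 539396703))) (l 539397983)))), by decide +kernel⟩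

def k11_A00pm_112_s1 : ∃ t, chk3 f_A00pm_112_s1 t 9 334 1 = true :=
  ⟨(b (a (l 3) (l 3)) (b (a (l 3) (a (l 3) (a (b (l 3) (a (l 3) (l 539138447))) (b (l 538809743) (l 538968207))))) (a (l 3) (a (l 539390031) (a (a (b (b (l 3) (b (l 539357327) (b (l 539372943) (l 539378831)))) (l 539365007)) (b (b (l 539244687) (b (l 539295631) (l 539320207))) (b (l 539612815) (l 539356047)))) (b (b (l 539090319) (l 539171727)) (b (l 539233167) (l 539268751)))))))), by decide +kernel⟩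

def k12_A00pm_112_s1 : ∃ t, chk3 f_A00pm_112_s1 t 9 670 1 = true :=
  ⟨(b (a (l 539415599) (a (l 539392303) (b (a (a (l 539367311) (l 539362959)) (b (l 539291791) (a (l 539334031) (l 539276431)))) (a (a (a (l 539373103) (a (l 16777688) (l 16777712))) (a (l 16777760) (l 16777816))) (a (a (l 16777880) (l 16777944)) (a (l 16778008) (l 16778072))))))) (b (b (a (l 539416623) (a (l 539393583) (a (a (a (l 16777776) (l 16777832)) (a (l 16777888) (l 16777952))) (a (a (l 16778008) (l 16778072)) (c (l 16778320) (l 16778016)))))) (b (a (l 539416879) (a (l 539393839) (a (a (a (l 16777840) (l 16777896)) (c (l 16778104) (l 16777864))) (a (c (l 16778248) (l 16777968)) (c (l 16778400) (l 16778072)))))) (b (a (l 539416879) (a (l 539394095) (a (a (l 539369119) (l 539371423)) (a (l 539357599) (l 539323807))))) (a (a (c (a (a (a (l 16777576) (l 16777552)) (a (l 16777528) (l 16777512))) (a (a (l 16777504) (l 16777488)) (a (l 16777488) (l 16777480))))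 (a (a (a (l 16777480) (l 16777464)) (a (l 16777448) (l 16777432))) (a (a (l 16777424) (l 16777416)) (a (l 16777416) (l 16777408))))) (c (a (a (a (l 16777480) (l 16777488)) (a (l 16777496) (l 16777512))) (a (a (l 16777528) (l 16777544)) (a (l 16777568) (l 16777592)))) (a (a (a (l 16777416) (l 16777416)) (a (l 16777424) (l 16777432))) (a (a (l 16777440) (l 16777456)) (a (l 16777472) (l 16777496)))))) (a (a (a (a (l 16777568) (l 16777600)) (a (l 16777632) (l 16777672))) (a (c (l 16777808) (l 16777648)) (c (l 16777912) (l 16777728)))) (a (a (a (l 16777896) (l 16777952)) (c (l 16778168) (l 16777912))) (a (c (l 16778312) (l 16778016)) (c (l 16778464) (l 16778120))))))))) (a (l 539417439) (a (l 539394655) (a (a (a (l 16777992) (l 16778048)) (c (l 16778280) (l 16777992))) (a (c (l 16778424) (l 16778096)) (c (l 16778576) (l 16778208)))))))), by decide +kernel⟩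

def k13_A00pm_112_s1 : ∃ t, chk3 f_A00pm_112_s1 t 9 671 1 = true :=
  ⟨(a (l 539419487) (a (l 539397215) (a (a (a (l 16778424) (l 16778480)) (c (l 16778776) (l 16778360))) (a (c (l 16778928) (l 16778464)) (c (l 16779080) (l 16778576)))))), by decide +kernel⟩

def k14_A00pm_112_s1 : ∃ t, chk3 f_A00pm_112_s1 t 20 82 1 = true :=
  ⟨(l 3), by decide +kernel⟩

def k15_A00pm_112_s1 : ∃ t, chk3 f_A00pm_112_s1 t 40 83 1 = true :=
  ⟨(b (a (l 3) (b (l 3) (b (l 3) (b (l 3) (b (l 3) (b (l 3) (l 537626255))))))) (b (a (b (b (l 3) (b (l 538248079) (l 538394767))) (b (b (l 538548879) (l 538712719)) (b (b (l 538843535) (l 538934415)) (b (l 539013263) (l 539070607))))) (b (b (b (b (l 537689231) (l 537753231)) (l 537850767)) (b (l 537986959) (l 538129551))) (b (b (l 538280847) (l 538442895)) (b (b (l 538574223) (l 538667151)) (b (l 538752143) (l 538820751)))))) (b (b (a (a (a (l 16778040) (l 16778104)) (a (l 16778160) (l 16778216))) (a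 (a (l 16778272) (l 16778328)) (a (l 16778376) (l 16778416)))) (b (b (a (a (c (l 16778472) (l 16778120)) (c (l 16778616) (l 16778216))) (a (c (l 16778752) (l 16778304)) (c (l 16778888) (l 16778376)))) (b (a (a (c (l 16778544) (l 16778176)) (c (l 16778696) (l 16778272))) (a (c (l 16778832) (l 16778360)) (c (l 16778968) (l 16778440)))) (b (a (a (l 539270303) (l 539198879)) (a (l 539111583) (c (l 16779008) (l 16778464)))) (a (a (c (l 16778608) (l 16778224)) (c (l 16778760) (l 16778320))) (a (c (l 16778896) (l 16778408)) (c (l 16779032) (l 16778488))))))) (a (a (c (l 16778728) (l 16778312)) (c (l 16778872) (l 16778408))) (a (c (l 16779016) (l 16778496)) (a (l 16778832) (l 16778888)))))) (a (a (c (l 16779232) (l 16778680)) (c (l 16779384) (l 16778784))) (a (a (l 16779176) (l 16779232)) (a (l 16779288) (l 16779344))))))), by decide +kernel⟩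

def k16_A00pm_112_s1 : ∃ t, chk3 f_A00pm_112_s1 t 41 332 1 = true :=
  ⟨(l 3), by decide +kernel⟩

def k17_A00pm_112_s1 : ∃ t, chk3 f_A00pm_112_s1 t 41 666 1 = true :=
  ⟨(a (l 3) (a (a (l 3) (a (l 3) (a (a (a (l 3) (l 1)) (l 1)) (l 1)))) (l 1))), by decide +kernel⟩

def k18_A00pm_112_s1 : ∃ t, chk3 f_A00pm_112_s1 t 82 1334 1 = true :=
  ⟨(b (l 3) (b (a (l 3) (a (l 3) (c (l 537615503) (l 537048207)))) (a (l 3) (a (a (l 3) (a (l 3) (c (l 537497999) (l 536923535)))) (c (l 537543567) (l 536972687)))))), by decide +kernel⟩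

def k19_A00pm_112_s1 : ∃ t, chk3 f_A00pm_112_s1 t 164 1335 1 = true :=
  ⟨(b (b (l 3) (l 537059471)) (b (l 537386895) (l 537446799))), by decide +kernel⟩

def k20_A00pm_112_s1 : ∃ t, chk3 f_A00pm_112_s1 t 165 2670 1 = true :=
  ⟨(a (a (b (b (b (l 3) (l 537192079)) (l 537213327)) (l 537256335)) (b (b (c (c (a (c (b (a (l 537669007) (c (l 537694607) (l 537622159))) (l 537682063)) (b (a (l 537524111) (c (l 537549455) (l 537477007))) (l 537536655))) (c (c (l 537704591) (l 537632143)) (b (l 537525391) (l 537521807)))) (a (b (a (l 537306767) (c (b (l 537370767) (l 537366415)) (b (l 537226127) (l 537221519)))) (l 537318799)) (b (c (l 537380751) (l 537236367)) (b (l 537305231) (l 537309071))))) (c (a (b (a (l 537017231) (a (b (l 3) (l 537014159)) (c (l 537079951) (b (l 536937871) (l 536933263))))) (a (l 537029519) (l 537023887))) (b (c (l 537092239) (l 536948111)) (c (l 537087631) (l 536943247)))) (a (a (b (b (l 3) (l 536730255))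 (l 536740239)) (a (b (b (l 3) (l 536725391)) (l 536735119)) (b (c (c (l 536827535) (l 536755343)) (c (l 536683407) (l 536611215))) (l 536732047)))) (c (b (c (l 536840079) (l 536768143)) (b (l 536799887) (l 536803215))) (c (b (l 536696207) (l 536690831)) (b (l 536624271) (l 536618895))))))) (a (a (l 537195663) (c (l 537481103) (l 536899471))) (a (c (l 537471631) (c (l 537035663) (l 536745871))) (c (l 537467535) (l 536887695))))) (a (c (l 537531791) (l 536945295)) (c (l 537511567) (a (l 536930703) (l 536923791)))))) (b (a (b (c (b (c (l 537623183) (l 537335439)) (c (l 537613711) (l 537325455))) (c (b (l 537048207) (l 537037711)) (b (l 536761231) (l 536750223)))) (c (c (l 537617039) (l 537327759)) (c (l 537038991) (a (l 536746127) (l 536756623))))) (b (c (l 537508751) (c (l 537079439) (l 536793999))) (c (l 537495695) (l 536921487)))) (a (b (c (l 537488783) (l 536908431)) (l 537219471)) (c (l 537505935) (l 536927887))))), by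 decide +kernel⟩

def k21_A00pm_112_s1 : ∃ t, chk3 f_A00pm_112_s1 t 165 2671 1 = true :=
  ⟨(a (a (l 537343631) (b (a (l 537292687) (l 537276047)) (a (l 537351311) (l 537334927)))) (b (a (l 536987791) (l 537249935)) (a (l 537310607) (l 537294735)))), by decide +kernel⟩

def k22_A00pm_112_s1 : ∃ t, chk3 f_A00pm_112_s1 t 83 667 1 = true :=
  ⟨(a (b (c (b (c (l 538214031) (l 537668751)) (l 537947791)) (c (l 537324175) (b (c (l 537182095) (l 537042319)) (l 536978063)))) (b (b (b (c (l 537595535) (l 537030799)) (c (l 537572751) (l 537006223))) (c (a (l 537535375) (l 537587855)) (a (l 536962447) (l 537021071)))) (b (c (l 537568399) (a (l 536974991) (l 537016975))) (a (l 537294223) (l 537317519))))) (b (l 1) (b (l 1) (c (l 537656975) (l 537092239))))), by decide +kernel⟩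

def k23_A00pm_112_s1 : ∃ t, chk3 f_A00pm_112_s1 t 82 167 1 = true :=
  ⟨(b (b (b (a (b (l 537537935) (l 537664399)) (a (b (b (a (l 537433231) (l 537405583)) (l 537487759)) (b (l 537550479) (l 537614223))) (b (b (l 537354895) (l 537412239)) (l 537502607)))) (a (b (l 537795983) (l 537934479)) (b (a (l 537712527) (l 537629327)) (a (l 537838223) (l 537763983))))) (a (b (b (l 538081679) (l 538239887)) (b (b (l 538368655) (l 538460047)) (l 538584463))) (a (b (b (l 537982863) (l 538138767)) (b (b (l 538265231) (l 538355599)) (l 16778232))) (b (b (l 537907855) (c (l 538398351) (l 537728911))) (b (b (l 538189967) (l 538280079)) (c (l 16778496) (l 16778016))))))) (b (b (a (a (l 16778464) (l 16778496)) (c (a (l 16778800) (l 16778840)) (a (l 16778264) (l 16778272)))) (b (b (a (a (l 16778696) (l 16778736)) (a (c (l 16779080) (l 16778472)) (c (l 16779120) (l 16778488)))) (b (a (a (l 16778768) (l 16778808)) (a (l 538530207) (c (l 16779208)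 (l 16778544)))) (b (a (a (l 16778800) (l 16778848)) (a (l 538811807) (c (l 16779248) (l 16778576)))) (a (a (l 16778824) (l 16778872)) (c (c (l 16779424) (l 16779088)) (a (l 16778584) (l 16778600))))))) (a (a (l 16778928) (l 16778976)) (c (c (l 16779552) (l 16779200)) (a (l 16778672) (l 16778688)))))) (a (c (l 16779808) (a (l 16779016) (l 16779048))) (a (a (l 16779472) (l 16779488)) (c (l 16779944) (l 16779096)))))), by decide +kernel⟩

def k24_A00pm_112_s1 : ∃ t, chk3 f_A00pm_112_s1 t 83 167 1 = true :=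
  ⟨(b (a (b (b (b (a (l 537356175) (b (l 537343887) (l 537378447))) (b (l 537421711) (l 537471887))) (b (l 537553295) (l 537673615))) (b (b (c (l 538127247) (l 537486991)) (c (l 538281359) (l 537625487))) (b (b (l 538073231) (b (l 538137999) (l 538182287))) (c (l 538627983) (l 537937039))))) (b (b (b (c (l 537683343) (l 537108879)) (l 537450127)) (b (l 537527183) (l 537622415))) (b (b (l 537733519) (c (l 538181263) (l 537542799))) (b (b (l 537969295) (b (l 538028175) (l 538068367))) (a (l 537918351) (l 16778320)))))) (b (b (a (c (a (l 16778864) (l 16778896)) (a (l 16778272) (l 16778272))) (c (c (l 16779104) (l 16778776)) (a (l 16778280) (l 16778288)))) (b (b (a (c (l 538947231) (a (l 16778488) (l 16778488))) (c (l 538805151) (a (l 16778488) (l 16778496)))) (b (a (c (l 538980511) (a (l 16778552) (l 16778544))) (c (l 538838175) (a (l 16778552) (l 16778560)))) (b (a (c (l 538996127) (a (l 16778576) (l 16778576))) (c (l 538854047)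 (a (l 16778584) (l 16778584)))) (a (a (a (l 16778952) (l 16778952)) (a (l 16778960) (l 16778968))) (a (a (l 16778976) (l 16778984)) (a (l 16778992) (l 1))))))) (a (a (a (l 16779056) (l 16779064)) (a (l 16779072) (l 16779072))) (a (a (l 16779080) (l 16779088)) (a (l 16779096) (l 16779112)))))) (a (a (c (l 16779976) (c (l 16779320) (l 16778880))) (c (l 16780000) (c (l 16779320) (l 16778872)))) (a (c (l 16780032) (c (l 16779328) (l 16778864))) (c (l 16780056) (l 16779104)))))), by decide +kernel⟩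

def k25_A00pm_112_s1 : ∃ t, chk3 f_A00pm_112_s1 t 21 41 1 = true :=
  ⟨(b (l 1) (a (b (l 1) (a (b (l 1) (b (l 1) (a (c (l 53720651431) (a (l 16779104) (l 1))) (l 1)))) (l 1))) (l 1))), by decide +kernel⟩

def k26_A00pm_112_s1 : ∃ t, chk3 f_A00pm_112_s1 t 11 41 1 = true :=
  ⟨(l 1), by decide +kernel⟩

def k27_A00pm_112_s1 : ∃ t, chk3 f_A00pm_112_s1 t 8 42 1 = true :=
  ⟨(a (a (b (b (a (a (a (b (c (l 16781352) (l 16780040)) (l 16779536)) (b (c (l 16781328) (l 16780048)) (l 16779536))) (a (b (c (l 16781312) (l 16780048)) (l 16779536)) (b (c (l 16781288) (l 16780056)) (l 16779536)))) (a (b (c (a (l 16781248) (l 16781200)) (a (l 16780048) (l 16780024))) (c (l 16782968) (l 16781296))) (a (b (a (l 16780576) (l 16780552)) (l 16782072)) (b (l 16780512) (l 16782016))))) (a (a (c (l 16785592) (b (l 16782496) (l 16783704))) (c (l 16785592) (b (l 16782536) (l 16783768)))) (a (c (l 16785560) (b (l 16782552) (l 16783800))) (c (l 16785464)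 (l 16783144))))) (a (a (b (c (l 16788944) (l 16785512)) (c (l 16792288) (l 16787920))) (b (c (l 16788992) (l 16785608)) (l 16790208))) (a (b (c (l 16789000) (l 16785672)) (l 16790288)) (b (l 16787312) (l 16790320))))) (b (b (b (a (a (a (l 16780456) (l 16780400)) (c (l 16780816) (l 16779808))) (a (c (l 16780656) (l 16779712)) (c (l 16780496) (l 16779608)))) (a (a (l 16781928) (l 16781808)) (a (l 16781672) (l 16781536)))) (a (a (c (l 16785328) (l 16783080)) (l 16784064)) (a (l 16783928) (l 16783784)))) (a (a (b (l 16787232) (l 16790288)) (b (l 16787120) (l 16790192))) (b (l 16786904) (l 16790000))))) (b (b (a (a (b (a (l 16779912) (l 16779776)) (a (l 16781392) (l 16781248))) (b (a (l 16779648) (l 16779528)) (a (l 16781112) (l 16780984)))) (l 539403359)) (a (a (a (l 16783632) (l 16783488)) (b (l 16782528) (l 16784016))) (a (l 16783048) (l 16782904)))) (a (a (b (l 16786592) (l 16789664)) (b (l 16786272) (l 16789328))) (a (a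 (l 16787584) (l 16787480)) (l 16782128))))), by decide +kernel⟩

def k28_A00pm_112_s1 : ∃ t, chk3 f_A00pm_112_s1 t 8 43 1 = true :=
  ⟨(a (a (a (b (a (b (l 16787712) (l 16795808)) (c (l 16797464) (l 16791720))) (a (c (l 16803968) (l 16796328)) (c (l 16804216) (l 16796608)))) (b (a (c (l 16797592) (l 16791896)) (l 16789584)) (a (c (l 16804440) (l 16796872)) (l 16800840)))) (a (b (a (l 16794864) (l 16794840)) (a (l 16800968) (l 16801032))) (b (a (l 16794752) (l 16794632)) (l 16801040)))) (a (a (b (l 16794408) (l 16800816)) (b (l 16794016) (l 16800472))) (b (a (l 16793696) (l 16793496)) (l 16799960)))), by decide +kernel⟩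

def k29_A00pm_112_s1 : ∃ t, chk3 f_A00pm_112_s1 t 9 21 1 = true :=
  ⟨(b (b (a (l 539433311) (a (l 539414879) (a (b (b (a (l 16779504) (l 16779616)) (a (l 16780912) (l 16781016))) (l 16783088)) (b (b (a (l 16779744) (l 16779880)) (a (l 16781144) (l 16781288))) (b (l 16782624) (l 16784048)))))) (b (a (l 539450975) (a (l 539437919) (a (l 16785976) (l 16786200)))) (c (a (l 539847263) (a (l 16790496) (l 16790784))) (a (l 539081567) (a (l 16787072) (l 16787256)))))) (a (l 539497567) (a (l 539494239) (a (l 16796488) (l 16796616))))), by decide +kernel⟩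

def k30_A00pm_112_s1 : ∃ t, chk3 f_A00pm_112_s1 t 10 42 1 = true :=
  ⟨(a (a (b (b (b (a (a (c (l 16780456) (l 16779576)) (c (l 16780616) (l 16779688))) (a (c (l 16780776) (l 16779784)) (c (l 16780928) (l 16779880)))) (a (a (l 16781424) (l 16781568)) (a (l 16781704) (l 16781840)))) (a (a (l 16783560) (l 16783704)) (a (l 16783856) (l 16784000)))) (a (b (l 16786496) (l 16789400)) (b (l 16786824) (l 16789744)))) (b (a (b (a (b (a (l 16780488) (l 16777920)) (l 16781960)) (b (c (b (l 16780776) (l 16781624)) (a (l 16780008) (l 16780040))) (c (l 16782880) (l 16781264)))) (a (l 16781512) (c (l 16785400) (l 16783112)))) (b (b (a (a (c (l 16781264) (c (l 16780352) (l 16779744))) (c (l 16781296) (l 16780048))) (a (c (l 16781320) (l 16780048)) (c (l 16781344) (l 16780040)))) (a (a (l 16782128) (l 16779520)) (a (l 16779536) (l 16779536)))) (a (a (l 16784320) (l 16779104)) (c (l 16785568) (b (l 16782544) (l 16783784)))))) (a (b (a (l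 16787040) (l 16787176)) (l 16790064)) (b (a (l 16787280) (l 16782080)) (a (l 16790248) (l 16790304)))))) (b (a (a (b (b (a (c (c (l 16781720) (l 12381593063)) (a (l 16780040) (l 16780040))) (l 1)) (a (a (l 16779536) (l 7012880951)) (c (l 16783096) (l 45667590039)))) (a (c (l 16782968) (b (l 16782504) (l 16783752))) (c (l 8623500535) (b (l 16782464) (l 16783688))))) (b (l 1) (a (c (l 48351948039) (l 43520104711)) (l 1)))) (l 1)) (a (a (b (a (c (l 16788992) (l 16785632)) (c (l 16788968) (l 16785560))) (a (l 16790304) (l 16785000))) (a (b (c (l 16788920) (l 16785472)) (c (l 16792336) (l 16787984))) (b (c (l 16788888) (l 16782768)) (c (l 16792240) (l 16787848))))) (a (a (b (l 1) (l 44056984167)) (l 1)) (l 1))))), by decide +kernel⟩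

def k31_A00pm_112_s1 : ∃ t, chk3 f_A00pm_112_s1 t 10 43 1 = true :=
  ⟨(b (a (a (a (l 16793848) (l 16794176)) (a (b (l 16793048) (l 16796056)) (b (l 16793288) (l 16796328)))) (a (a (b (a (l 16793328) (l 16793288)) (l 16796376)) (a (b (l 16793176) (l 16796264)) (b (l 16787792) (l 16796112)))) (a (a (b (l 7549768039) (l 16795920)) (b (l 44056989735) (l 8086644615))) (a (b (l 1) (l 44056995335)) (l 1))))) (a (a (l 16800128) (a (l 16800632) (l 16800944))) (a (a (b (l 16799480) (l 16802616)) (a (l 16800952) (l 16790336))) (a (a (b (l 16799040) (l 16802232)) (b (l 16798800) (l 16801976))) (a (b (l 16788064) (l 16801696)) (c (l 16798488) (l 7012903479))))))), by decide +kernel⟩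

def k32_A00pm_112_s1 : ∃ t, chk3 f_A00pm_112_s1 t 11 21 1 = true :=
  ⟨(a (b (l 1) (a (b (l 1) (a (a (c (l 47815107783) (l 41909512295)) (l 1)) (l 1))) (l 1))) (l 1)), by decide +kernel⟩

def k33_A00pm_112_s1 : ∃ t, chk3 f_A00pm_112_s1 t 4 11 1 = true :=
  ⟨(a (a (b (a (b (a (a (b (c (l 16810736) (l 16801216)) (l 16801416)) (b (l 16795776) (l 16812272))) (b (a (l 16796104) (l 16806856)) (c (l 16818504) (l 16807184)))) (a (b (c (l 16824920) (l 16811608)) (c (l 16832160) (l 16816912))) (b (c (l 16825688) (l 16812472)) (l 16804448)))) (b (a (b (a (l 16807080) (l 16807248)) (l 16802904)) (b (l 16807392) (l 16813752))) (a (b (l 16819704) (l 16826184)) (b (l 16820216) (l 16826784))))) (a (b (a (b (l 16809928) (l 16837480)) (b (l 16831968) (l 16838688))) (a (b (l 16844200) (l 16851056)) (b (l 16845576) (l 16852632)))) (b (a (b (l 16832848) (l 16839688)) (l 16837008)) (a (l 16829376) (l 16851304))))) (b (a (b (a (b (l 16807352)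 (l 16813920)) (l 16810432)) (a (l 16823880) (l 16824008))) (b (b (l 16806640) (l 16813440)) (l 16823960))) (a (b (a (l 16837568) (l 16838000)) (a (l 16852064) (l 16852624))) (b (l 16838424) (l 16853424))))) (a (b (b (a (b (l 16806160) (l 16812888)) (l 16809328)) (a (l 16823640) (l 16823264))) (a (b (l 16838552) (l 16854152)) (b (l 16838336) (l 16854392)))) (b (a (l 539594847) (l 539588447)) (a (b (l 16838000) (l 16854208)) (l 16835248))))), by decide +kernel⟩

def k34_A00pm_112_s1 : ∃ t, chk3 f_A00pm_112_s1 t 5 11 1 = true :=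
  ⟨(a (b (b (a (a (l 16809672) (b (a (l 16806904) (l 16807232)) (l 16813608))) (a (a (b (l 16807384) (l 16813880)) (b (l 16796816) (l 16813864))) (a (b (a (l 16807072) (l 16806848)) (l 16803104)) (b (a (b (l 16804920) (l 16808216)) (b (l 16804624) (l 16807904))) (a (l 16813232) (l 16812944)))))) (a (a (l 16823336) (l 16823816)) (a (a (l 16824080) (l 16824040)) (a (b (l 16820392) (l 16827352)) (b (l 16819960) (l 16827000)))))) (a (a (l 539750255) (l 16846296)) (b (a (l 16838584) (a (l 16838312) (l 16837936))) (a (l 16854392) (l 16853768))))) (b (a (b (a (b (b (a (a (l 16804320) (l 16793576)) (l 1)) (a (a (l 16807576) (l 16807256)) (c (l 16811920) (l 16801824)))) (a (c (b (l 16816232) (l 16820080)) (b (l 16805328) (l 16808280))) (a (c (l 16817656) (l 16806232)) (l 7549794887)))) (a (b (l 1) (c (l 48352005415) (l 42446407511))) (l 1))) (a (a (b (c (l 16825992) (l 16812832)) (l 16826488)) (a (b (l 16808312) (l 16825992)) (b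 (l 16807920) (l 16825608)))) (b (a (a (l 16807512) (l 16807088)) (c (l 16823824) (l 41372670407))) (a (c (l 16832576) (l 16817384)) (c (l 16831728) (l 16816424)))))) (a (b (l 1) (a (b (l 1) (l 42446427271)) (l 1))) (l 1))) (a (b (a (a (b (l 16833800) (l 16841296)) (b (l 16833192) (l 16840792))) (b (a (l 16832408) (c (l 16840040) (l 16822904))) (a (l 16840088) (l 16839192)))) (a (a (l 16853112) (l 16852584)) (b (a (l 16847984) (l 16847176)) (l 16855744)))) (b (a (b (a (l 9697305703) (l 16818816)) (a (l 16838056) (l 16836864))) (a (b (l 1) (l 16835608)) (l 1))) (a (b (a (l 16846152) (l 16844872)) (a (l 16854464) (l 16853296))) (b (a (l 16843496) (l 16842016)) (a (l 16851832) (l 16850232)))))))), by decide +kernel⟩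

def k35_A00pm_112_s1 : ∃ t, chk3 f_A00pm_112_s1 t 2 3 1 = true :=
  ⟨(a (b (b (a (b (a (a (b (b (l 16858984) (l 16866216)) (b (l 16873600) (l 16881136))) (b (a (l 16865128) (l 16866432)) (l 16839624))) (a (b (l 16846936) (l 16884296)) (b (l 16869208) (l 16886136)))) (a (b (a (l 16892840) (l 16897992)) (a (l 16908864) (l 16915240))) (a (b (l 16901608) (l 16919784)) (b (l 16904088) (l 16923112))))) (b (a (a (b (l 16870400) (l 16887584)) (l 16880048)) (a (l 16880376) (l 16880680))) (a (a (l 16915880) (l 16917760)) (a (l 16919320) (l 16920368))))) (b (a (a (a (l 16934432) (l 16942672)) (a (l 16949040) (l 16953840))) (a (a (l 16957704) (l 16960816)) (l 16922568))) (a (l 6) (l 6)))) (l 6)) (b (a (b (b (a (b (l 16871488) (l 16890664)) (a (l 16880584) (l 16879936))) (a (b (l 16910960) (l 16932584)) (a (l 16921824) (l 16920336)))) (b (a (l 16968536) (a (l 16969536) (l 16969000))) (l 6))) (b (b (a (a (b (l 16869736) (l 16888192))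 (b (a (l 16868864) (l 16868160)) (l 16886808))) (b (a (a (l 16867336) (l 16866368)) (b (l 16838784) (l 16868904))) (a (l 16843288) (b (l 16878248) (l 16887824))))) (a (a (l 16918896) (l 16917528)) (b (a (l 16905056) (l 16902904)) (l 16925776)))) (b (a (b (l 16953352) (l 16980080)) (b (l 16949464) (l 16975120))) (l 6)))) (l 6))), by decide +kernel⟩

def k36_A00pm_112_s1 : ∃ t, chk3 f_A00pm_112_s1 t 3 1 1 = true :=
  ⟨(b (a (b (l 1) (b (l 1) (a (b (l 1) (a (a (b (l 1) (a (l 27414084535) (l 1))) (l 1)) (l 1))) (l 1)))) (l 1)) (b (a (a (b (b (a (a (b (a (l 16861544) (l 16859648)) (b (l 16874600) (l 16884544))) (b (a (l 16857504) (l 1)) (a (l 16876064) (l 16873672)))) (a (b (l 1) (l 16870008)) (l 1))) (a (b (a (l 16899776) (l 16895296)) (a (l 16921504) (l 16917488))) (a (b (l 16889744) (l 16911968)) (b (l 16883632) (l 16905152))))) (b (a (a (l 16957504) (l 16911816)) (a (l 16948712) (l 16899544))) (l 6))) (b (b (l 1) (a (a (l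 66068832999) (l 1)) (l 1))) (b (b (a (a (l 16921144) (l 16912344)) (l 1)) (l 6)) (l 6)))) (b (l 1) (a (l 6) (l 1)))) (l 6))), by decide +kernel⟩

theorem t37_A00pm_112_s1 : ∃ t, chk3 f_A00pm_112_s1 t 2 11 1 = true := ex3_a k33_A00pm_112_s1 k34_A00pm_112_s1

theorem t38_A00pm_112_s1 : ∃ t, chk3 f_A00pm_112_s1 t 10 21 1 = true := ex3_b k30_A00pm_112_s1 k31_A00pm_112_s1

theorem t39_A00pm_112_s1 : ∃ t, chk3 f_A00pm_112_s1 t 5 21 1 = true := ex3_a t38_A00pm_112_s1 k32_A00pm_112_s1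

theorem t40_A00pm_112_s1 : ∃ t, chk3 f_A00pm_112_s1 t 8 21 1 = true := ex3_b k27_A00pm_112_s1 k28_A00pm_112_s1

theorem t41_A00pm_112_s1 : ∃ t, chk3 f_A00pm_112_s1 t 4 21 1 = true := ex3_a t40_A00pm_112_s1 k29_A00pm_112_s1

theorem t42_A00pm_112_s1 : ∃ t, chk3 f_A00pm_112_s1 t 2 21 1 = true := ex3_a t41_A00pm_112_s1 t39_A00pm_112_s1

theorem t43_A00pm_112_s1 : ∃ t, chk3 f_A00pm_112_s1 t 41 167 1 = true := ex3_a k23_A00pm_112_s1 k24_A00pm_112_s1

theorem t44_A00pm_112_s1 : ∃ t, chk3 f_A00pm_112_s1 t 165 1335 1 = true := ex3_b k20_A00pm_112_s1 k21_A00pm_112_s1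

theorem t45_A00pm_112_s1 : ∃ t, chk3 f_A00pm_112_s1 t 82 1335 1 = true := ex3_a k19_A00pm_112_s1 t44_A00pm_112_s1

theorem t46_A00pm_112_s1 : ∃ t, chk3 f_A00pm_112_s1 t 82 667 1 = true := ex3_b k18_A00pm_112_s1 t45_A00pm_112_s1

theorem t47_A00pm_112_s1 : ∃ t, chk3 f_A00pm_112_s1 t 41 667 1 = true := ex3_a t46_A00pm_112_s1 k22_A00pm_112_s1

theorem t48_A00pm_112_s1 : ∃ t, chk3 f_A00pm_112_s1 t 41 333 1 = true := ex3_b k17_A00pm_112_s1 t47_A00pm_112_s1

theorem t49_A00pm_112_s1 : ∃ t, chk3 f_A00pm_112_s1 t 41 166 1 = true := ex3_b k16_A00pm_112_s1 t48_A00pm_112_s1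

theorem t50_A00pm_112_s1 : ∃ t, chk3 f_A00pm_112_s1 t 41 83 1 = true := ex3_b t49_A00pm_112_s1 t43_A00pm_112_s1

theorem t51_A00pm_112_s1 : ∃ t, chk3 f_A00pm_112_s1 t 20 83 1 = true := ex3_a k15_A00pm_112_s1 t50_A00pm_112_s1

theorem t52_A00pm_112_s1 : ∃ t, chk3 f_A00pm_112_s1 t 20 41 1 = true := ex3_b k14_A00pm_112_s1 t51_A00pm_112_s1

theorem t53_A00pm_112_s1 : ∃ t, chk3 f_A00pm_112_s1 t 10 41 1 = true := ex3_a t52_A00pm_112_s1 k25_A00pm_112_s1

theorem t54_A00pm_112_s1 : ∃ t, chk3 f_A00pm_112_s1 t 5 41 1 = true := ex3_a t53_A00pm_112_s1 k26_A00pm_112_s1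

theorem t55_A00pm_112_s1 : ∃ t, chk3 f_A00pm_112_s1 t 9 335 1 = true := ex3_b k12_A00pm_112_s1 k13_A00pm_112_s1

theorem t56_A00pm_112_s1 : ∃ t, chk3 f_A00pm_112_s1 t 9 167 1 = true := ex3_b k11_A00pm_112_s1 t55_A00pm_112_s1

theorem t57_A00pm_112_s1 : ∃ t, chk3 f_A00pm_112_s1 t 32 167 1 = true := ex3_b k7_A00pm_112_s1 k8_A00pm_112_s1

theorem t58_A00pm_112_s1 : ∃ t, chk3 f_A00pm_112_s1 t 16 167 1 = true := ex3_a t57_A00pm_112_s1 k9_A00pm_112_s1

theorem t59_A00pm_112_s1 : ∃ t, chk3 f_A00pm_112_s1 t 8 167 1 = true := ex3_a t58_A00pm_112_s1 k10_A00pm_112_s1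

theorem t60_A00pm_112_s1 : ∃ t, chk3 f_A00pm_112_s1 t 4 167 1 = true := ex3_a t59_A00pm_112_s1 t56_A00pm_112_s1

theorem t61_A00pm_112_s1 : ∃ t, chk3 f_A00pm_112_s1 t 4 333 3 = true := ex3_c k5_A00pm_112_s1 k6_A00pm_112_s1

theorem t62_A00pm_112_s1 : ∃ t, chk3 f_A00pm_112_s1 t 4 333 1 = true := ex3_c k4_A00pm_112_s1 t61_A00pm_112_s1

theorem t63_A00pm_112_s1 : ∃ t, chk3 f_A00pm_112_s1 t 4 166 1 = true := ex3_b k3_A00pm_112_s1 t62_A00pm_112_s1

theorem t64_A00pm_112_s1 : ∃ t, chk3 f_A00pm_112_s1 t 4 83 1 = true := ex3_b t63_A00pm_112_s1 t60_A00pm_112_s1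

theorem t65_A00pm_112_s1 : ∃ t, chk3 f_A00pm_112_s1 t 4 41 1 = true := ex3_b k2_A00pm_112_s1 t64_A00pm_112_s1

theorem t66_A00pm_112_s1 : ∃ t, chk3 f_A00pm_112_s1 t 2 41 1 = true := ex3_a t65_A00pm_112_s1 t54_A00pm_112_s1

theorem t67_A00pm_112_s1 : ∃ t, chk3 f_A00pm_112_s1 t 2 20 1 = true := ex3_b k1_A00pm_112_s1 t66_A00pm_112_s1

theorem t68_A00pm_112_s1 : ∃ t, chk3 f_A00pm_112_s1 t 2 10 1 = true := ex3_b t67_A00pm_112_s1 t42_A00pm_112_s1

theorem t69_A00pm_112_s1 : ∃ t, chk3 f_A00pm_112_s1 t 2 5 1 = true := ex3_b t68_A00pm_112_s1 t37_A00pm_112_s1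

theorem t70_A00pm_112_s1 : ∃ t, chk3 f_A00pm_112_s1 t 2 2 1 = true := ex3_b k0_A00pm_112_s1 t69_A00pm_112_s1

theorem t71_A00pm_112_s1 : ∃ t, chk3 f_A00pm_112_s1 t 2 1 1 = true := ex3_b t70_A00pm_112_s1 k35_A00pm_112_s1

theorem t72_A00pm_112_s1 : ∃ t, chk3 f_A00pm_112_s1 t 1 1 1 = true := ex3_a t71_A00pm_112_s1 k36_A00pm_112_s1

theorem c_A00pm_112_s1 : CertF 536870912 536870912 536870912 536870912 402653184 67108864 true true false .dn 1 1 2
    ndF0q1 ndF0q1 pcF2 cut_A00pm_112_s1 xt_A00pm_112_s1 :=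
  certF1 (fam := true) (s1 := true) (s2 := false) (a := 1) (b := 1) (c := 2) (cn := .dn) (n1 := ndF0q1) (n2 := ndF0q1) (pc := pcF2) (cut := cut_A00pm_112_s1) (xt := xt_A00pm_112_s1) (P1 := 536870912) (W1 := 536870912) (P2 := 536870912) (W2 := 536870912) (P3 := 402653184) (W3 := 67108864)
    rfl (fun _ => rfl) t72_A00pm_112_s1

theorem s_A00pm_112_s1 {κ x : ℝ} (hκ : κ * h0 = ken x) (hx : ((402653184 : ℕ) : ℝ) / S ≤ x)
    (hx' : x ≤ (((402653184 : ℕ) : ℝ) + (67108864 : ℕ)) / S) :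
    AltA (VF κ) PP tKF tL pcF [⟨3, 0, 0, 1449551462⟩] 1 1 2 0 0 (sgb true) (sgb false) x :=
  strip_altA (m := 1449551462) true rfl hκ covF01 covF01 hx hx' c_A00pm_112_s1 cutA_nil ((okx hx hx').extA (T := tt) (sideF hx hx') hκ rfl rfl (.O 1 true) (.O 1 false) rfl)

noncomputable def cut_A00pm_112_s3 : Cut := Cut.of [[⟨3, 0, 0, 2845415833⟩]]

noncomputable def f_A00pm_112_s3 : ℕ → ℕ → ℕ → ℕ → Bool := onCell 536870912 536870912 1073741824 536870912 402653184 67108864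
    (rowF 1 true true false .dn 1 1 2 (qsf 536870912 536870912 536870912 536870912 2) ndF0q1 ndF0q1 pcF2 cut_A00pm_112_s3 Ext.none)

def k0_A00pm_112_s3 : ∃ t, chk3 f_A00pm_112_s3 t 1 1 1 = true :=
  ⟨(l 6), by decide +kernel⟩

theorem c_A00pm_112_s3 : CertF 536870912 536870912 536870912 536870912 402653184 67108864 true true false .dn 1 1 2
    ndF0q1 ndF0q1 pcF2 cut_A00pm_112_s3 Ext.none :=
  certF1 (fam := true) (s1 := true) (s2 := false) (a := 1) (b := 1) (c := 2) (cn := .dn) (n1 := ndF0q1) (n2 := ndF0q1) (pc := pcF2) (cut := cut_A00pm_112_s3) (xt := Ext.none) (P1 := 536870912) (W1 := 536870912) (P2 := 536870912) (W2 := 536870912) (P3 := 402653184) (W3 := 67108864)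
    rfl (fun _ => rfl) k0_A00pm_112_s3

theorem s_A00pm_112_s3 {κ x : ℝ} (hκ : κ * h0 = ken x) (hx : ((402653184 : ℕ) : ℝ) / S ≤ x)
    (hx' : x ≤ (((402653184 : ℕ) : ℝ) + (67108864 : ℕ)) / S) :
    AltA (VF κ) PP tKF tL pcF [⟨4, 0, 0, 2845415833⟩] 1 1 2 0 0 (sgb true) (sgb false) x :=
  strip_altA (m := 2845415833) false rfl hκ covF01 covF01 hx hx' c_A00pm_112_s3 cutA_nil (noExt_A)

noncomputable def cut_A00pm_113_s1 : Cut := Cut.of [[⟨4, 0, 0, 1449551462⟩], [⟨0, 1, 0, 67108864⟩, ⟨1, 1, 0, 67108864⟩, ⟨2, 2, 0, 16777216⟩]]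

noncomputable def f_A00pm_113_s1 : ℕ → ℕ → ℕ → ℕ → Bool := onCell 536870912 536870912 1610612736 536870912 402653184 67108864
    (rowF 1 true true false .nn 1 1 3 (qsf 536870912 536870912 536870912 536870912 3) ndF0q1 ndF0q1 pcF3 cut_A00pm_113_s1 Ext.none)

def k0_A00pm_113_s1 : ∃ t, chk3 f_A00pm_113_s1 t 1 1 1 = true :=
  ⟨(b (a (b (l 6) (l 6)) (l 6)) (l 6)), by decide +kernel⟩

theorem c_A00pm_113_s1 : CertF 536870912 536870912 536870912 536870912 402653184 67108864 true true false .nn 1 1 3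
    ndF0q1 ndF0q1 pcF3 cut_A00pm_113_s1 Ext.none :=
  certF1 (fam := true) (s1 := true) (s2 := false) (a := 1) (b := 1) (c := 3) (cn := .nn) (n1 := ndF0q1) (n2 := ndF0q1) (pc := pcF3) (cut := cut_A00pm_113_s1) (xt := Ext.none) (P1 := 536870912) (W1 := 536870912) (P2 := 536870912) (W2 := 536870912) (P3 := 402653184) (W3 := 67108864)
    rfl (fun _ => rfl) k0_A00pm_113_s1

theorem s_A00pm_113_s1 {κ x : ℝ} (hκ : κ * h0 = ken x) (hx : ((402653184 : ℕ) : ℝ) / S ≤ x)
    (hx' : x ≤ (((402653184 : ℕ) : ℝ) + (67108864 : ℕ)) / S)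
    (H : CutA (VF κ) PP tKF tL pcF (Cut.of [[⟨0, 1, 0, 67108864⟩, ⟨1, 1, 0, 67108864⟩, ⟨2, 2, 0, 16777216⟩]]) 1 1 3 0 0 (sgb true) (sgb false) x) :
    AltA (VF κ) PP tKF tL pcF [⟨3, 0, 0, 1449551462⟩] 1 1 3 0 0 (sgb true) (sgb false) x :=
  strip_altA (m := 1449551462) true rfl hκ covF01 covF01 hx hx' c_A00pm_113_s1 H (noExt_A)

noncomputable def cut_A00pm_113_s3 : Cut := Cut.of [[⟨3, 0, 0, 2845415833⟩], [⟨0, 1, 0, 67108864⟩, ⟨1, 1, 0, 67108864⟩, ⟨2, 2, 0, 16777216⟩]]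

noncomputable def f_A00pm_113_s3 : ℕ → ℕ → ℕ → ℕ → Bool := onCell 536870912 536870912 536870912 536870912 402653184 67108864
    (rowF 0 true true false .nn 1 1 3 (qsf 536870912 536870912 536870912 536870912 3) ndF0q1 ndF0q1 pcF3 cut_A00pm_113_s3 Ext.none)

def k0_A00pm_113_s3 : ∃ t, chk3 f_A00pm_113_s3 t 1 1 1 = true :=
  ⟨(a (l 6) (b (l 6) (b (a (l 6) (a (l 6) (b (l 6) (a (l 6) (a (l 6) (l 17033384)))))) (a (b (l 6) (a (l 6) (b (l 6) (b (l 6) (l 17033384))))) (a (b (l 6) (b (a (l 6) (l 16906240)) (a (b (l 16915000) (l 16902824)) (b (l 16883720) (l 16912504))))) (b (a (b (l 6) (l 16906240)) (a (b (l 16915000) (l 16883720)) (b (l 16902824) (l 16912504)))) (b (a (l 16873272) (a (a (l 16855064) (l 16889064)) (b (l 16887032) (a (l 16830160) (l 16826088))))) (a (b (b (l 16855064) (l 16889064)) (a (l 16887032) (b (l 16830160) (l 16826088)))) (b (a (l 16825816) (a (l 16834904) (b (l 16812312) (a (l 16804056) (l 16802296)))))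 (a (b (l 16834904) (a (l 16812312) (b (l 16804056) (l 16802296)))) (b (a (l 16801656) (a (l 16795640) (a (l 16793184) (l 16787096)))) (a (b (l 16795640) (b (l 16793184) (l 16787096))) (b (a (l 16789472) (l 14)) (l 14)))))))))))))), by decide +kernel⟩

theorem c_A00pm_113_s3 : CertF 536870912 536870912 536870912 536870912 402653184 67108864 true true false .nn 1 1 3
    ndF0q1 ndF0q1 pcF3 cut_A00pm_113_s3 Ext.none :=
  certF0 (fam := true) (s1 := true) (s2 := false) (a := 1) (b := 1) (c := 3) (cn := .nn) (n1 := ndF0q1) (n2 := ndF0q1) (pc := pcF3) (cut := cut_A00pm_113_s3) (xt := Ext.none) (P1 := 536870912) (W1 := 536870912) (P2 := 536870912) (W2 := 536870912) (P3 := 402653184) (W3 := 67108864)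
    rfl k0_A00pm_113_s3

theorem s_A00pm_113_s3 {κ x : ℝ} (hκ : κ * h0 = ken x) (hx : ((402653184 : ℕ) : ℝ) / S ≤ x)
    (hx' : x ≤ (((402653184 : ℕ) : ℝ) + (67108864 : ℕ)) / S)
    (H : CutA (VF κ) PP tKF tL pcF (Cut.of [[⟨0, 1, 0, 67108864⟩, ⟨1, 1, 0, 67108864⟩, ⟨2, 2, 0, 16777216⟩]]) 1 1 3 0 0 (sgb true) (sgb false) x) :
    AltA (VF κ) PP tKF tL pcF [⟨4, 0, 0, 2845415833⟩] 1 1 3 0 0 (sgb true) (sgb false) x :=
  strip_altA (m := 2845415833) false rfl hκ covF01 covF01 hx hx' c_A00pm_113_s3 H (noExt_A)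

noncomputable def cut_A00pm_123_s1 : Cut := Cut.of [[⟨4, 0, 0, 1449551462⟩], [⟨0, 1, 0, 67108864⟩, ⟨1, 1, 0, 67108864⟩, ⟨2, 2, 0, 16777216⟩]]

noncomputable def f_A00pm_123_s1 : ℕ → ℕ → ℕ → ℕ → Bool := onCell 536870912 536870912 0 536870912 402653184 67108864
    (rowF 0 true true false .npn 1 2 3 (qsf 536870912 536870912 0 536870912 3) ndF0q1 ndF0q2 pcF3 cut_A00pm_123_s1 Ext.none)

def k0_A00pm_123_s1 : ∃ t, chk3 f_A00pm_123_s1 t 1 1 1 = true :=
  ⟨(l 6), by decide +kernel⟩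

theorem c_A00pm_123_s1 : CertF 536870912 536870912 0 536870912 402653184 67108864 true true false .npn 1 2 3
    ndF0q1 ndF0q2 pcF3 cut_A00pm_123_s1 Ext.none :=
  certF0 (fam := true) (s1 := true) (s2 := false) (a := 1) (b := 2) (c := 3) (cn := .npn) (n1 := ndF0q1) (n2 := ndF0q2) (pc := pcF3) (cut := cut_A00pm_123_s1) (xt := Ext.none) (P1 := 536870912) (W1 := 536870912) (P2 := 0) (W2 := 536870912) (P3 := 402653184) (W3 := 67108864)
    rfl k0_A00pm_123_s1

theorem s_A00pm_123_s1 {κ x : ℝ} (hκ : κ * h0 = ken x) (hx : ((402653184 : ℕ) : ℝ) / S ≤ x)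
    (hx' : x ≤ (((402653184 : ℕ) : ℝ) + (67108864 : ℕ)) / S)
    (H : CutA (VF κ) PP tKF tL pcF (Cut.of [[⟨0, 1, 0, 67108864⟩, ⟨1, 1, 0, 67108864⟩, ⟨2, 2, 0, 16777216⟩]]) 1 2 3 0 0 (sgb true) (sgb false) x) :
    AltA (VF κ) PP tKF tL pcF [⟨3, 0, 0, 1449551462⟩] 1 2 3 0 0 (sgb true) (sgb false) x :=
  strip_altA (m := 1449551462) true rfl hκ covF01 covF02 hx hx' c_A00pm_123_s1 H (noExt_A)

noncomputable def cut_A00pm_123_s3 : Cut := Cut.of [[⟨3, 0, 0, 2845415833⟩], [⟨0, 1, 0, 67108864⟩, ⟨1, 1, 0, 67108864⟩, ⟨2, 2, 0, 16777216⟩]]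

noncomputable def xt_A00pm_123_s3 : Ext := strExt dd true true false .u0 .u2 .s2 .npn 1 2 3 rfl rfl gl3 vv ndF0q1 ndF0q2

noncomputable def f_A00pm_123_s3 : ℕ → ℕ → ℕ → ℕ → Bool := onCell 1610612736 536870912 0 536870912 402653184 67108864
    (rowF 2 true true false .npn 1 2 3 (qsf 536870912 536870912 0 536870912 3) ndF0q1 ndF0q2 pcF3 cut_A00pm_123_s3 xt_A00pm_123_s3)

def k0_A00pm_123_s3 : ∃ t, chk3 f_A00pm_123_s3 t 2 1 1 = true :=
  ⟨(b (a (b (l 1) (l 6)) (a (a (b (b (b (l 16790224) (l 16852024)) (l 16822888)) (b (l 16852080) (l 6))) (b (b (b (l 538774031) (l 538861583)) (a (l 16876472) (l 16868480))) (b (a (l 16926192) (l 16916880)) (l 6)))) (b (b (a (b (l 538844175) (l 538927119)) (b (l 538856207) (l 538928655))) (b (a (l 539024655) (l 539030031)) (a (l 16823344) (a (l 16849320) (l 16838304))))) (a (b (b (l 16846440) (l 16912592)) (a (l 6) (l 16902120))) (b (b (l 16823376) (a (l 16894248) (l 16881464))) (b (a (l 16917912)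 (l 16904160)) (l 16934544))))))) (a (l 6) (b (a (l 6) (l 6)) (l 6)))), by decide +kernel⟩

def k1_A00pm_123_s3 : ∃ t, chk3 f_A00pm_123_s3 t 6 1 1 = true :=
  ⟨(a (a (b (a (b (b (b (l 538838031) (l 538915087)) (b (l 539274511) (l 16785256))) (b (b (l 16847472) (l 16868680)) (b (l 16890456) (l 16870760)))) (b (b (b (l 4) (l 538907407)) (b (l 539548687) (l 539334927))) (b (b (l 16835728) (l 16856176)) (b (l 16877088) (l 16856312))))) (b (b (b (a (l 16934736) (l 16919224)) (a (l 6) (l 16934856))) (l 6)) (l 6))) (b (b (b (a (b (l 4) (l 538903567)) (l 4)) (b (a (l 539533839) (l 538959887)) (a (b (l 539034895) (l 16789016)) (b (l 538991119) (l 539016975))))) (b (b (a (a (l 16827088) (l 16821288)) (l 539069711)) (a (l 16801744) (l 16831096))) (b (a (l 16821728) (l 16818536)) (a (l 16841696) (l 16837528))))) (b (b (b (a (l 16903392) (l 16845744)) (b (l 16909968) (l 16916552))) (b (l 16920872) (l 16926024))) (l 6)))) (b (b (b (l 4)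 (a (b (a (l 538901007) (l 4)) (a (b (l 539460879) (l 539496463)) (b (l 538883855) (l 538919439)))) (b (l 4) (l 4)))) (a (b (a (b (a (l 539029263) (l 539002895)) (l 539357455)) (b (l 538975759) (l 539051279))) (b (a (l 539424015) (l 16824032)) (a (l 16823280) (l 539165967)))) (b (a (b (l 538940943) (l 539010575)) (b (l 538915343) (l 538972431))) (b (a (l 539067407) (l 539024143)) (a (l 16828128) (l 539876623)))))) (a (b (b (b (a (l 16830632) (l 16858112)) (a (l 16889904) (l 16874496))) (b (a (l 16901896) (l 16888152)) (l 16902224))) (b (b (l 16910496) (l 16921048)) (l 6))) (b (b (b (a (l 16844136) (l 16830608)) (a (l 16859624) (l 16845224))) (b (a (l 16894800) (l 16859152)) (a (l 16882984) (l 16869528)))) (b (b (l 16885160) (l 16895888)) (b (b (l 16905544) (l 16912816)) (l 16923200))))))), by decide +kernel⟩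

def k2_A00pm_123_s3 : ∃ t, chk3 f_A00pm_123_s3 t 14 1 1 = true :=
  ⟨(a (b (b (l 4) (b (b (l 4) (l 539180559)) (a (b (l 538976271) (l 539023119)) (b (l 538929935) (b (l 538963471) (l 539514127)))))) (b (b (b (a (l 539053071) (a (l 16808064) (l 538982671))) (a (l 16831352) (a (l 16821304) (l 16814768)))) (b (a (l 16844488) (l 16851424)) (a (l 16876728) (b (l 16839272) (l 16844528))))) (b (b (a (l 16865232) (l 16851760)) (l 16869224)) (b (b (l 16878552) (a (l 16892296) (l 16878256))) (c (l 16980432) (l 16974816)))))) (b (b (l 4) (b (l 4) (a (a (b (l 539168527) (b (l 538923023) (l 538935055))) (b (l 4) (l 538900239))) (b (l 4) (l 538861071))))) (b (a (b (b (a (l 538953231) (l 538924303)) (a (l 538975759) (l 538948111))) (b (a (l 16820320) (l 16813760)) (b (l 16825424) (l 16830824)))) (a (b (b (l 538896399) (l 539190799)) (b (l 539485455) (l 16818096))) (b (b (l 538870287) (l 539167247)) (b (l 539733775) (l 16811552))))) (b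 (b (a (b (l 16835784) (l 16840760)) (b (a (l 16825720) (l 16819040)) (l 16827264))) (a (l 16848768) (l 16834968))) (b (a (b (l 16857592) (l 16863896)) (b (l 16843288) (l 16849152))) (b (a (l 16869240) (l 16854232)) (l 16865456))))))), by decide +kernel⟩

def k3_A00pm_123_s3 : ∃ t, chk3 f_A00pm_123_s3 t 15 2 1 = true :=
  ⟨(l 4), by decide +kernel⟩

def k4_A00pm_123_s3 : ∃ t, chk3 f_A00pm_123_s3 t 30 3 1 = true :=
  ⟨(b (b (a (b (a (a (l 539925263) (l 539645711)) (l 4)) (a (l 538877711) (l 538860047))) (b (l 4) (a (l 539650831) (l 4)))) (a (b (a (b (l 538901007) (l 538918415)) (b (l 538885903) (l 538905615))) (a (b (l 16781624) (l 16807576)) (b (l 16796296) (l 539219727)))) (b (a (b (l 538874383) (l 538896911)) (b (l 539134991) (a (l 539160335) (l 539427343)))) (a (b (a (l 539190287) (l 16788488)) (l 16794752)) (b (a (l 539724815) (l 538919695)) (a (l 538950159) (l 538952463))))))) (b (b (a (a (b (l 16812424) (l 16817184))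 (b (l 16805872) (l 16810480))) (a (b (a (l 16800976) (l 16797704)) (l 16803824)) (b (a (l 16794424) (l 539257871)) (a (l 16798792) (l 16795408))))) (a (b (l 16818648) (l 16823568)) (a (b (c (l 16808992) (l 16807520)) (l 16812864)) (b (a (b (l 16802024) (l 16804160)) (l 16799600)) (b (a (l 16806352) (l 16802784)) (l 16806704)))))) (a (b (b (l 16828712) (l 16834000)) (b (l 16838664) (l 16841224))) (b (b (a (l 16817528) (l 16809920)) (l 16818208)) (b (a (l 16826512) (l 16818048)) (l 16824200)))))), by decide +kernel⟩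

def k5_A00pm_123_s3 : ∃ t, chk3 f_A00pm_123_s3 t 31 6 1 = true :=
  ⟨(b (l 4) (a (b (a (b (l 4) (a (l 539695375) (l 4))) (l 4)) (a (b (a (l 538920975) (l 538923023)) (a (l 538955791) (a (l 540032271) (l 538960911)))) (b (l 4) (a (b (l 540027151) (l 538974223)) (a (l 538968335) (l 4)))))) (l 4))), by decide +kernel⟩

def k6_A00pm_123_s3 : ∃ t, chk3 f_A00pm_123_s3 t 62 7 1 = true :=
  ⟨(b (a (a (b (b (b (l 539520783) (l 16788864)) (c (l 16792400) (l 16791552))) (b (l 16796112) (b (l 16799120) (l 16801176)))) (b (b (b (l 540063503) (l 539012111)) (b (c (l 16787832) (l 16787200)) (l 16789552))) (b (a (l 16793440) (l 16791648)) (b (l 16795480) (a (l 16798368) (l 16796456)))))) (b (b (a (b (l 538996239) (a (l 539018255) (l 539022351))) (b (a (l 539001359) (l 539004687)) (a (l 539026191) (l 539834127)))) (a (b (a (l 16784936) (l 539586063)) (a (l 16786912) (l 16785136))) (b (a (l 540128271) (c (l 540205583) (l 540593679))) (a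 (l 540698127) (a (l 16781992) (l 539363599)))))) (b (a (b (c (l 16788304) (l 16787592)) (l 16789872)) (b (a (l 16785232) (c (l 16783592) (l 16783160))) (a (l 16787080) (l 16785200)))) (a (b (l 16791752) (a (l 16794520) (l 16792632))) (a (l 16789792) (c (l 16788216) (l 16787440))))))) (b (a (b (l 16802168) (l 16805912)) (b (a (a (l 16797272) (b (l 16794432) (l 16796096))) (b (b (l 16790960) (a (l 16792864) (l 16790800))) (a (l 16794056) (l 16792056)))) (a (l 16799584) (l 16795304)))) (a (b (b (l 16808624) (l 16810152)) (l 16810896)) (b (a (l 16802616) (b (l 16797432) (l 16798704))) (a (l 16804032) (l 16799384)))))), by decide +kernel⟩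

def k7_A00pm_123_s3 : ∃ t, chk3 f_A00pm_123_s3 t 63 7 1 = true :=
  ⟨(a (b (b (a (b (b (l 4) (a (c (l 540446223) (l 540567823)) (l 4))) (b (a (b (l 539055631) (l 539072271)) (a (l 539336207) (l 4))) (a (a (l 539634959) (l 539905807)) (a (l 540176399) (l 540446735))))) (b (l 4) (a (a (b (l 4) (a (l 539374351) (l 539643407))) (l 4)) (l 4)))) (b (a (b (a (a (l 540476687) (l 540748047)) (b (l 540740879) (a (l 16780552) (l 539151375)))) (a (b (l 16782856) (l 16783728)) (a (c (l 16782016) (l 16781672)) (b (l 16780464) (l 14))))) (a (b (a (b (l 539133711) (l 539153423)) (b (l 539134991) (l 539154703))) (b (b (l 540778767) (l 14)) (l 14))) (b (a (b (l 4) (l 539155727)) (l 4)) (l 14)))) (a (a (b (l 16785024) (l 16786712)) (l 14)) (l 14)))) (a (a (b (b (b (l 16788360) (b (l 16789536) (l 16790352))) (l 16792048)) (b (l 16794592) (l 16795864))) (l 14)) (l 14))) (b (b (l 4) (b (b (l 4) (l 14)) (l 14))) (l 14))), by decide +kernel⟩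

theorem t8_A00pm_123_s3 : ∃ t, chk3 f_A00pm_123_s3 t 31 7 1 = true := ex3_a k6_A00pm_123_s3 k7_A00pm_123_s3

theorem t9_A00pm_123_s3 : ∃ t, chk3 f_A00pm_123_s3 t 31 3 1 = true := ex3_b k5_A00pm_123_s3 t8_A00pm_123_s3

theorem t10_A00pm_123_s3 : ∃ t, chk3 f_A00pm_123_s3 t 15 3 1 = true := ex3_a k4_A00pm_123_s3 t9_A00pm_123_s3

theorem t11_A00pm_123_s3 : ∃ t, chk3 f_A00pm_123_s3 t 15 1 1 = true := ex3_b k3_A00pm_123_s3 t10_A00pm_123_s3

theorem t12_A00pm_123_s3 : ∃ t, chk3 f_A00pm_123_s3 t 7 1 1 = true := ex3_a k2_A00pm_123_s3 t11_A00pm_123_s3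

theorem t13_A00pm_123_s3 : ∃ t, chk3 f_A00pm_123_s3 t 3 1 1 = true := ex3_a k1_A00pm_123_s3 t12_A00pm_123_s3

theorem t14_A00pm_123_s3 : ∃ t, chk3 f_A00pm_123_s3 t 1 1 1 = true := ex3_a k0_A00pm_123_s3 t13_A00pm_123_s3

theorem c_A00pm_123_s3 : CertF 536870912 536870912 0 536870912 402653184 67108864 true true false .npn 1 2 3
    ndF0q1 ndF0q2 pcF3 cut_A00pm_123_s3 xt_A00pm_123_s3 :=
  certF2 (fam := true) (s1 := true) (s2 := false) (a := 1) (b := 2) (c := 3) (cn := .npn) (n1 := ndF0q1) (n2 := ndF0q2) (pc := pcF3) (cut := cut_A00pm_123_s3) (xt := xt_A00pm_123_s3) (P1 := 536870912) (W1 := 536870912) (P2 := 0) (W2 := 536870912) (P3 := 402653184) (W3 := 67108864)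
    rfl (fun _ => rfl) t14_A00pm_123_s3

theorem s_A00pm_123_s3 {κ x : ℝ} (hκ : κ * h0 = ken x) (hx : ((402653184 : ℕ) : ℝ) / S ≤ x)
    (hx' : x ≤ (((402653184 : ℕ) : ℝ) + (67108864 : ℕ)) / S)
    (H : CutA (VF κ) PP tKF tL pcF (Cut.of [[⟨0, 1, 0, 67108864⟩, ⟨1, 1, 0, 67108864⟩, ⟨2, 2, 0, 16777216⟩]]) 1 2 3 0 0 (sgb true) (sgb false) x) :
    AltA (VF κ) PP tKF tL pcF [⟨4, 0, 0, 2845415833⟩] 1 2 3 0 0 (sgb true) (sgb false) x :=
  strip_altA (m := 2845415833) false rfl hκ covF01 covF02 hx hx' c_A00pm_123_s3 H ((okx hx hx').extA (T := tt) (sideF hx hx') hκ rfl rfl (.O 1 true) (.O 2 false) (Or.inr rfl))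

noncomputable def cut_A00pm_202_s1 : Cut := Cut.of [[⟨4, 0, 0, 1449551462⟩], [⟨0, 1, 0, 67108864⟩, ⟨1, 0, 0, 67108864⟩, ⟨2, 1, 0, 67108864⟩], [⟨0, 1, 0, 33554432⟩, ⟨1, 0, 1, 33554432⟩, ⟨2, 1, 1, 33554432⟩]]

noncomputable def f_A00pm_202_s1 : ℕ → ℕ → ℕ → ℕ → Bool := onCell 0 536870912 1073741824 536870912 402653184 67108864
    (rowF 1 true true false .pp 2 0 2 (qsf 0 536870912 0 536870912 2) ndF0q2 ndF0q0 pcF2 cut_A00pm_202_s1 Ext.none)

def k0_A00pm_202_s1 : ∃ t, chk3 f_A00pm_202_s1 t 2 1 1 = true :=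
  ⟨(b (b (b (l 1) (l 6)) (l 6)) (l 6)), by decide +kernel⟩

def k1_A00pm_202_s1 : ∃ t, chk3 f_A00pm_202_s1 t 6 4 1 = true :=
  ⟨(a (b (l 1) (b (l 1) (l 6))) (a (b (l 1) (b (b (l 1) (a (b (l 1) (l 16632336)) (b (l 16644432) (l 16639376)))) (b (a (l 16624456) (l 16631560)) (l 6)))) (b (l 1) (b (b (b (l 1) (a (a (l 1) (b (l 1) (l 16656696))) (a (b (l 16661976) (l 16659464)) (b (l 16664528) (l 16661848))))) (a (b (a (l 16649608) (b (l 16654232) (l 16651744))) (l 16646280)) (b (a (l 16655696) (l 16657832)) (l 16651608)))) (b (a (l 16638520) (l 16664736)) (a (l 16627768) (l 16633136))))))), by decide +kernel⟩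

def k2_A00pm_202_s1 : ∃ t, chk3 f_A00pm_202_s1 t 7 8 1 = true :=
  ⟨(a (a (b (l 1) (b (l 1) (b (l 1) (a (l 1) (a (b (l 1) (l 16680952)) (b (l 14) (l 16683560))))))) (b (l 1) (b (l 14) (b (l 14) (b (l 14) (a (a (l 16686008) (l 16688304)) (l 16691424))))))) (b (l 14) (b (l 14) (b (l 14) (b (l 14) (a (a (l 16694872) (l 16697416)) (a (l 16725632) (a (l 16716720) (a (l 16722696) (l 16726656)))))))))), by decide +kernel⟩

def k3_A00pm_202_s1 : ∃ t, chk3 f_A00pm_202_s1 t 7 9 1 = true :=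
  ⟨(a (b (a (b (a (b (a (b (l 1) (l 16669816)) (b (l 16675288) (l 16672352))) (a (l 16665576) (l 16667872))) (b (a (b (l 16677872) (l 16674776)) (l 16678696)) (l 16671104))) (a (b (l 16660912) (l 16655080)) (b (l 16664600) (l 16658120)))) (b (a (b (a (l 16680912) (l 16682960)) (l 16674864)) (b (l 16685712) (l 16677904))) (a (l 16674592) (l 16708024)))) (a (b (a (l 16646376) (l 16648488)) (a (l 16634832) (l 16635784))) (b (a (l 16649920) (l 16692464)) (l 16677776)))) (a (a (b (b (a (l 16725760) (l 16726816)) (l 16709104)) (l 16673392)) (b (b (a (l 16727624) (l 16686216)) (l 16714328)) (b (l 16704416) (l 16693944)))) (a (b (a (b (l 16694168) (l 16684480)) (b (l 16723200) (l 16692496))) (b (c (l 16721880) (l 16718896)) (l 16709704))) (a (b (b (b (l 16712728) (l 16707728)) (a (l 16698464) (l 16702424))) (b (c (l 16692440) (l 16688088)) (l 16700416))) (c (a (b (b (b (l 16720088) (l 16715336)) (b (l 16710792) (l 16706088))) (b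 (l 16719632) (l 16688016))) (b (b (b (l 16729504) (a (l 16718456) (l 16725784))) (b (b (l 16716112) (l 16713800)) (b (l 16711448) (l 16709048)))) (b (b (a (l 16704320) (l 16711640)) (l 16710752)) (b (l 16694936) (l 16689336))))) (a (b (b (l 16725040) (l 16704216)) (b (l 16693608) (l 16682376))) (b (b (b (l 16720920) (l 16715616)) (b (l 16710512) (l 16705312))) (b (b (l 16700000) (l 16694544)) (b (l 16688920) (l 16683088)))))))))), by decide +kernel⟩

def k4_A00pm_202_s1 : ∃ t, chk3 f_A00pm_202_s1 t 3 5 1 = true :=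
  ⟨(a (b (a (l 6) (b (b (a (l 6) (l 16661416)) (l 6)) (l 6))) (l 6)) (b (a (b (b (a (l 16623504) (l 16663672)) (b (a (l 16614696) (l 16611568)) (a (b (l 16610432) (l 16691272)) (l 16668496)))) (a (l 16636048) (l 16629904))) (b (a (b (l 16695944) (b (l 16707856) (c (l 16680072) (l 16678824)))) (a (b (l 16698040) (b (l 16646424) (b (l 16640816) (l 16678088)))) (b (a (l 16667512) (a (l 16673192) (b (l 16680248) (l 16673816)))) (a (b (l 16657528) (b (l 16651688) (l 16688704))) (b (a (l 16663048) (l 16687696)) (b (l 16658904) (b (l 16655088) (l 16673264)))))))) (a (l 16665560) (a (l 16665752) (a (l 16634280) (b (l 16667088) (l 16636744))))))) (a (l 6) (a (b (l 16647136) (l 6)) (a (b (l 16605808) (l 6)) (a (b (l 16616680) (l 6)) (b (b (l 16628056) (l 16620216)) (b (l 16613392) (l 6))))))))), by decide +kernel⟩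

def k5_A00pm_202_s1 : ∃ t, chk3 f_A00pm_202_s1 t 3 3 1 = true :=
  ⟨(l 6), by decide +kernel⟩

theorem t6_A00pm_202_s1 : ∃ t, chk3 f_A00pm_202_s1 t 7 4 1 = true := ex3_b k2_A00pm_202_s1 k3_A00pm_202_s1

theorem t7_A00pm_202_s1 : ∃ t, chk3 f_A00pm_202_s1 t 3 4 1 = true := ex3_a k1_A00pm_202_s1 t6_A00pm_202_s1

theorem t8_A00pm_202_s1 : ∃ t, chk3 f_A00pm_202_s1 t 3 2 1 = true := ex3_b t7_A00pm_202_s1 k4_A00pm_202_s1

theorem t9_A00pm_202_s1 : ∃ t, chk3 f_A00pm_202_s1 t 3 1 1 = true := ex3_b t8_A00pm_202_s1 k5_A00pm_202_s1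

theorem t10_A00pm_202_s1 : ∃ t, chk3 f_A00pm_202_s1 t 1 1 1 = true := ex3_a k0_A00pm_202_s1 t9_A00pm_202_s1

theorem c_A00pm_202_s1 : CertF 0 536870912 0 536870912 402653184 67108864 true true false .pp 2 0 2
    ndF0q2 ndF0q0 pcF2 cut_A00pm_202_s1 Ext.none :=
  certF1 (fam := true) (s1 := true) (s2 := false) (a := 2) (b := 0) (c := 2) (cn := .pp) (n1 := ndF0q2) (n2 := ndF0q0) (pc := pcF2) (cut := cut_A00pm_202_s1) (xt := Ext.none) (P1 := 0) (W1 := 536870912) (P2 := 0) (W2 := 536870912) (P3 := 402653184) (W3 := 67108864)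
    rfl (fun _ => rfl) t10_A00pm_202_s1

theorem s_A00pm_202_s1 {κ x : ℝ} (hκ : κ * h0 = ken x) (hx : ((402653184 : ℕ) : ℝ) / S ≤ x)
    (hx' : x ≤ (((402653184 : ℕ) : ℝ) + (67108864 : ℕ)) / S)
    (H : CutA (VF κ) PP tKF tL pcF (Cut.of [[⟨0, 1, 0, 67108864⟩, ⟨1, 0, 0, 67108864⟩, ⟨2, 1, 0, 67108864⟩], [⟨0, 1, 0, 33554432⟩, ⟨1, 0, 1, 33554432⟩, ⟨2, 1, 1, 33554432⟩]]) 2 0 2 0 0 (sgb true) (sgb false) x) :
    AltA (VF κ) PP tKF tL pcF [⟨3, 0, 0, 1449551462⟩] 2 0 2 0 0 (sgb true) (sgb false) x :=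
  strip_altA (m := 1449551462) true rfl hκ covF02 covF00 hx hx' c_A00pm_202_s1 H (noExt_A)

noncomputable def cut_A00pm_202_s3 : Cut := Cut.of [[⟨3, 0, 0, 2845415833⟩], [⟨0, 1, 0, 67108864⟩, ⟨1, 0, 0, 67108864⟩, ⟨2, 1, 0, 67108864⟩], [⟨0, 1, 0, 33554432⟩, ⟨1, 0, 1, 33554432⟩, ⟨2, 1, 1, 33554432⟩]]

noncomputable def f_A00pm_202_s3 : ℕ → ℕ → ℕ → ℕ → Bool := onCell 0 536870912 1073741824 536870912 402653184 67108864
    (rowF 1 true true false .pp 2 0 2 (qsf 0 536870912 0 536870912 2) ndF0q2 ndF0q0 pcF2 cut_A00pm_202_s3 Ext.none)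

def k0_A00pm_202_s3 : ∃ t, chk3 f_A00pm_202_s3 t 1 1 1 = true :=
  ⟨(a (b (l 6) (l 6)) (l 6)), by decide +kernel⟩

theorem c_A00pm_202_s3 : CertF 0 536870912 0 536870912 402653184 67108864 true true false .pp 2 0 2
    ndF0q2 ndF0q0 pcF2 cut_A00pm_202_s3 Ext.none :=
  certF1 (fam := true) (s1 := true) (s2 := false) (a := 2) (b := 0) (c := 2) (cn := .pp) (n1 := ndF0q2) (n2 := ndF0q0) (pc := pcF2) (cut := cut_A00pm_202_s3) (xt := Ext.none) (P1 := 0) (W1 := 536870912) (P2 := 0) (W2 := 536870912) (P3 := 402653184) (W3 := 67108864)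
    rfl (fun _ => rfl) k0_A00pm_202_s3

theorem s_A00pm_202_s3 {κ x : ℝ} (hκ : κ * h0 = ken x) (hx : ((402653184 : ℕ) : ℝ) / S ≤ x)
    (hx' : x ≤ (((402653184 : ℕ) : ℝ) + (67108864 : ℕ)) / S)
    (H : CutA (VF κ) PP tKF tL pcF (Cut.of [[⟨0, 1, 0, 67108864⟩, ⟨1, 0, 0, 67108864⟩, ⟨2, 1, 0, 67108864⟩], [⟨0, 1, 0, 33554432⟩, ⟨1, 0, 1, 33554432⟩, ⟨2, 1, 1, 33554432⟩]]) 2 0 2 0 0 (sgb true) (sgb false) x) :
    AltA (VF κ) PP tKF tL pcF [⟨4, 0, 0, 2845415833⟩] 2 0 2 0 0 (sgb true) (sgb false) x :=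
  strip_altA (m := 2845415833) false rfl hκ covF02 covF00 hx hx' c_A00pm_202_s3 H (noExt_A)

noncomputable def cut_A00pm_203_s1 : Cut := Cut.of [[⟨4, 0, 0, 1449551462⟩]]

noncomputable def f_A00pm_203_s1 : ℕ → ℕ → ℕ → ℕ → Bool := onCell 0 536870912 1610612736 536870912 402653184 67108864
    (rowF 1 true true false .up 2 0 3 (qsf 0 536870912 0 536870912 3) ndF0q2 ndF0q0 pcF3 cut_A00pm_203_s1 Ext.none)

def k0_A00pm_203_s1 : ∃ t, chk3 f_A00pm_203_s1 t 1 1 1 = true :=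
  ⟨(l 6), by decide +kernel⟩

theorem c_A00pm_203_s1 : CertF 0 536870912 0 536870912 402653184 67108864 true true false .up 2 0 3
    ndF0q2 ndF0q0 pcF3 cut_A00pm_203_s1 Ext.none :=
  certF1 (fam := true) (s1 := true) (s2 := false) (a := 2) (b := 0) (c := 3) (cn := .up) (n1 := ndF0q2) (n2 := ndF0q0) (pc := pcF3) (cut := cut_A00pm_203_s1) (xt := Ext.none) (P1 := 0) (W1 := 536870912) (P2 := 0) (W2 := 536870912) (P3 := 402653184) (W3 := 67108864)
    rfl (fun _ => rfl) k0_A00pm_203_s1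

theorem s_A00pm_203_s1 {κ x : ℝ} (hκ : κ * h0 = ken x) (hx : ((402653184 : ℕ) : ℝ) / S ≤ x)
    (hx' : x ≤ (((402653184 : ℕ) : ℝ) + (67108864 : ℕ)) / S) :
    AltA (VF κ) PP tKF tL pcF [⟨3, 0, 0, 1449551462⟩] 2 0 3 0 0 (sgb true) (sgb false) x :=
  strip_altA (m := 1449551462) true rfl hκ covF02 covF00 hx hx' c_A00pm_203_s1 cutA_nil (noExt_A)

noncomputable def cut_A00pm_203_s3 : Cut := Cut.of [[⟨3, 0, 0, 2845415833⟩]]

noncomputable def f_A00pm_203_s3 : ℕ → ℕ → ℕ → ℕ → Bool := onCell 0 536870912 0 536870912 402653184 67108864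
    (rowF 0 true true false .up 2 0 3 (qsf 0 536870912 0 536870912 3) ndF0q2 ndF0q0 pcF3 cut_A00pm_203_s3 Ext.none)

def k0_A00pm_203_s3 : ∃ t, chk3 f_A00pm_203_s3 t 1 1 1 = true :=
  ⟨(a (b (l 1) (b (a (b (l 1) (b (l 6) (a (l 16802696) (l 6)))) (l 6)) (a (b (a (b (l 16832760) (l 16847432)) (l 6)) (a (b (l 16766040) (a (l 16791024) (l 16853160))) (b (l 16892048) (l 16803704)))) (b (l 6) (l 6))))) (l 6)), by decide +kernel⟩

theorem c_A00pm_203_s3 : CertF 0 536870912 0 536870912 402653184 67108864 true true false .up 2 0 3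
    ndF0q2 ndF0q0 pcF3 cut_A00pm_203_s3 Ext.none :=
  certF0 (fam := true) (s1 := true) (s2 := false) (a := 2) (b := 0) (c := 3) (cn := .up) (n1 := ndF0q2) (n2 := ndF0q0) (pc := pcF3) (cut := cut_A00pm_203_s3) (xt := Ext.none) (P1 := 0) (W1 := 536870912) (P2 := 0) (W2 := 536870912) (P3 := 402653184) (W3 := 67108864)
    rfl k0_A00pm_203_s3

theorem s_A00pm_203_s3 {κ x : ℝ} (hκ : κ * h0 = ken x) (hx : ((402653184 : ℕ) : ℝ) / S ≤ x)
    (hx' : x ≤ (((402653184 : ℕ) : ℝ) + (67108864 : ℕ)) / S) :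
    AltA (VF κ) PP tKF tL pcF [⟨4, 0, 0, 2845415833⟩] 2 0 3 0 0 (sgb true) (sgb false) x :=
  strip_altA (m := 2845415833) false rfl hκ covF02 covF00 hx hx' c_A00pm_203_s3 cutA_nil (noExt_A)

noncomputable def cut_A00pm_213_s1 : Cut := Cut.of [[⟨4, 0, 0, 1449551462⟩], [⟨0, 1, 0, 67108864⟩, ⟨1, 1, 0, 67108864⟩, ⟨2, 2, 0, 16777216⟩]]

noncomputable def f_A00pm_213_s1 : ℕ → ℕ → ℕ → ℕ → Bool := onCell 0 536870912 536870912 536870912 402653184 67108864
    (rowF 0 true true false .pnn 2 1 3 (qsf 0 536870912 536870912 536870912 3) ndF0q2 ndF0q1 pcF3 cut_A00pm_213_s1 Ext.none)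

def k0_A00pm_213_s1 : ∃ t, chk3 f_A00pm_213_s1 t 1 1 1 = true :=
  ⟨(l 6), by decide +kernel⟩

theorem c_A00pm_213_s1 : CertF 0 536870912 536870912 536870912 402653184 67108864 true true false .pnn 2 1 3
    ndF0q2 ndF0q1 pcF3 cut_A00pm_213_s1 Ext.none :=
  certF0 (fam := true) (s1 := true) (s2 := false) (a := 2) (b := 1) (c := 3) (cn := .pnn) (n1 := ndF0q2) (n2 := ndF0q1) (pc := pcF3) (cut := cut_A00pm_213_s1) (xt := Ext.none) (P1 := 0) (W1 := 536870912) (P2 := 536870912) (W2 := 536870912) (P3 := 402653184) (W3 := 67108864)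
    rfl k0_A00pm_213_s1

theorem s_A00pm_213_s1 {κ x : ℝ} (hκ : κ * h0 = ken x) (hx : ((402653184 : ℕ) : ℝ) / S ≤ x)
    (hx' : x ≤ (((402653184 : ℕ) : ℝ) + (67108864 : ℕ)) / S)
    (H : CutA (VF κ) PP tKF tL pcF (Cut.of [[⟨0, 1, 0, 67108864⟩, ⟨1, 1, 0, 67108864⟩, ⟨2, 2, 0, 16777216⟩]]) 2 1 3 0 0 (sgb true) (sgb false) x) :
    AltA (VF κ) PP tKF tL pcF [⟨3, 0, 0, 1449551462⟩] 2 1 3 0 0 (sgb true) (sgb false) x :=
  strip_altA (m := 1449551462) true rfl hκ covF02 covF01 hx hx' c_A00pm_213_s1 H (noExt_A)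

noncomputable def cut_A00pm_213_s3 : Cut := Cut.of [[⟨3, 0, 0, 2845415833⟩], [⟨0, 1, 0, 67108864⟩, ⟨1, 1, 0, 67108864⟩, ⟨2, 2, 0, 16777216⟩]]

noncomputable def xt_A00pm_213_s3 : Ext := strExt dd true true false .u2 .u0m .s2m .pnn 2 1 3 rfl rfl gl3 vv ndF0q2 ndF0q1

noncomputable def f_A00pm_213_s3 : ℕ → ℕ → ℕ → ℕ → Bool := onCell 0 536870912 1610612736 536870912 402653184 67108864
    (rowF 1 true true false .pnn 2 1 3 (qsf 0 536870912 536870912 536870912 3) ndF0q2 ndF0q1 pcF3 cut_A00pm_213_s3 xt_A00pm_213_s3)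

def k0_A00pm_213_s3 : ∃ t, chk3 f_A00pm_213_s3 t 1 2 1 = true :=
  ⟨(a (b (a (l 1) (l 6)) (b (b (a (a (a (l 16790224) (l 16852024)) (l 16843864)) (a (l 16852080) (l 6))) (a (a (b (l 16790928) (a (l 16815272) (l 16835312))) (b (l 16876472) (l 16868480))) (a (b (l 16926192) (l 16916880)) (l 6)))) (b (a (a (a (l 539111183) (b (l 16826744) (l 16817600))) (b (l 16817256) (l 16807272))) (a (a (l 16846440) (l 16912592)) (b (l 6) (l 16902120)))) (a (a (a (l 538854927) (a (l 538913551) (l 538956815))) (a (b (l 16828288) (l 16776072)) (b (l 16849320) (l 16838304)))) (a (a (l 16823376) (b (l 16894248) (l 16881464))) (a (a (l 16863136) (l 16874856)) (l 16934544))))))) (b (l 6) (a (b (l 6) (l 6)) (l 6)))), by decide +kernel⟩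

def k1_A00pm_213_s3 : ∃ t, chk3 f_A00pm_213_s3 t 1 12 1 = true :=
  ⟨(b (a (a (a (a (b (l 538837263) (l 4)) (b (a (l 538892815) (l 538936847)) (a (l 538876175) (l 538931215)))) (a (b (a (l 16781880) (l 16812496)) (a (l 540052239) (l 539019535))) (b (l 16785256) (a (l 16790480) (l 16820960))))) (a (a (b (l 16847472) (l 16835728)) (b (l 16868680) (l 16856176))) (b (a (l 16890456) (l 16870760)) (a (l 16877088) (l 16856312))))) (a (a (a (b (l 16934736) (l 16919224)) (b (l 6) (l 16934856))) (l 6)) (l 6))) (a (a (a (a (l 4) (b (l 538902799) (l 4))) (a (b (a (l 540046863) (b (l 16783936) (l 540078863))) (a (a (l 539216655) (l 540310543)) (l 538969871))) (b (a (l 539568399) (l 16789016)) (a (a (l 538984975) (l 538995727)) (b (l 16801744) (l 16785784)))))) (a (a (b (b (l 16827088) (l 16821288)) (b (l 16794472) (l 16788656))) (b (l 16801744) (l 16831096))) (a (b (l 16821728) (l 16818536)) (b (l 16841696) (l 16837528))))) (a (a (a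 (b (l 16903392) (l 16845744)) (a (l 16909968) (l 16916552))) (a (l 16920872) (l 16926024))) (l 6)))), by decide +kernel⟩

def k2_A00pm_213_s3 : ∃ t, chk3 f_A00pm_213_s3 t 1 13 1 = true :=
  ⟨(a (a (a (l 4) (a (b (b (a (l 4) (l 538913039)) (l 4)) (l 4)) (b (b (a (a (l 538926863) (b (l 538952975) (l 538920975))) (b (l 539782159) (a (l 539204111) (l 538955791)))) (a (a (l 4) (a (l 4) (l 538895631))) (l 538919183))) (l 4)))) (a (b (a (b (b (l 539028239) (l 539002639)) (l 538974991)) (b (b (l 16821744) (l 16794744)) (l 539048463))) (a (a (l 539715855) (l 540556815)) (b (l 540617999) (l 538973455)))) (b (a (b (l 539422991) (l 16824032)) (b (l 16823280) (c (l 16800656) (l 16797840)))) (a (b (l 539067151) (l 539021839)) (b (l 16828128) (b (l 16797640) (l 16791408))))))) (b (a (a (a (b (l 16830632) (l 16858112)) (b (l 16889904) (l 16874496))) (a (b (l 16901896) (l 16888152)) (l 16902224))) (a (a (l 16910496) (l 16921048)) (l 6)))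 (a (a (a (b (l 16844136) (l 16830608)) (b (l 16859624) (l 16845224))) (a (b (l 16894800) (l 16859152)) (b (l 16882984) (l 16869528)))) (a (a (l 16885160) (l 16895888)) (a (a (l 16905544) (l 16912816)) (l 16923200)))))), by decide +kernel⟩

def k3_A00pm_213_s3 : ∃ t, chk3 f_A00pm_213_s3 t 1 14 1 = true :=
  ⟨(b (a (a (l 4) (a (a (l 4) (a (l 540507151) (l 538921231))) (a (b (l 540049167) (l 540002575)) (b (a (l 539278607) (l 539565583)) (a (l 540303119) (b (l 538988815) (l 538962959))))))) (a (a (a (b (b (l 16799784) (l 16814352)) (b (l 16808064) (l 539787279))) (b (l 16831352) (b (l 16821304) (l 16814768)))) (a (b (l 16844488) (l 16851424)) (b (l 16876728) (a (l 16839272) (l 16844528))))) (a (a (b (l 16865232) (l 16851760)) (l 16869224)) (a (a (l 16878552) (b (l 16892296) (l 16878256))) (c (l 16980432) (l 16974816)))))) (a (a (l 4) (a (l 4) (a (b (b (a (l 4) (l 538904591)) (l 4)) (l 4)) (b (a (b (l 539193615) (l 538893327))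 (l 539995151)) (a (l 4) (l 539670287)))))) (a (b (a (a (a (l 538933519) (l 539213839)) (a (l 539225359) (l 539773455))) (a (b (l 16820320) (l 16813760)) (a (l 16825424) (l 16830824)))) (a (a (a (l 538877711) (b (l 539438607) (l 539681295))) (a (b (l 538914575) (l 538889999)) (b (l 16798872) (l 538904591)))) (a (a (b (l 16804544) (l 16798336)) (b (l 16810072) (l 16782752))) (b (l 16818096) (l 16811552))))) (a (a (b (a (l 16835784) (l 16840760)) (a (b (l 16825720) (l 16819040)) (l 16827264))) (b (l 16848768) (l 16834968))) (a (b (a (l 16857592) (l 16863896)) (a (l 16843288) (l 16849152))) (a (b (l 16869240) (l 16854232)) (l 16865456))))))), by decide +kernel⟩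

def k4_A00pm_213_s3 : ∃ t, chk3 f_A00pm_213_s3 t 2 15 1 = true :=
  ⟨(l 4), by decide +kernel⟩

def k5_A00pm_213_s3 : ∃ t, chk3 f_A00pm_213_s3 t 3 30 1 = true :=
  ⟨(a (a (b (a (a (l 4) (b (l 539657999) (l 4))) (b (a (l 539405071) (l 538884111)) (a (l 539386383) (l 538866959)))) (a (l 4) (b (a (l 4) (l 538853135)) (l 4)))) (a (b (a (b (l 538900751) (l 538885391)) (b (l 538918159) (l 539173647))) (a (b (l 538873871) (b (l 539135503) (l 4))) (b (a (l 538889743) (l 538901519)) (b (l 538891791) (l 538890255))))) (b (a (b (l 16781624) (l 16796296)) (b (l 16807576) (b (l 16802752) (l 16799552)))) (a (b (a (l 538913807) (l 16791232)) (b (l 538919439) (l 538919695))) (b (l 16794752) (a (l 538941455) (l 539494927))))))) (a (a (b (b (a (l 16812424) (l 16817184)) (a (l 16805872) (l 16810480))) (a (b (b (l 16800976) (l 16797704)) (b (l 16794424) (c (l 16791488) (l 16790728)))) (b (l 16803824) (b (l 16798792) (l 16795408))))) (b (a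 (l 16818648) (l 16823568)) (b (a (c (l 16808992) (l 16807520)) (l 16812864)) (a (b (a (l 16802024) (l 16804160)) (l 16799600)) (a (b (l 16806352) (l 16802784)) (l 16806704)))))) (b (a (a (l 16828712) (l 16834000)) (a (l 16838664) (l 16841224))) (a (a (b (l 16817528) (l 16809920)) (l 16818208)) (a (b (l 16826512) (l 16818048)) (l 16824200)))))), by decide +kernel⟩

def k6_A00pm_213_s3 : ∃ t, chk3 f_A00pm_213_s3 t 6 31 1 = true :=
  ⟨(b (a (l 4) (a (b (a (l 4) (b (l 538889743) (l 4))) (l 4)) (b (a (b (l 538920719) (l 539191311)) (a (b (l 538945295) (l 539217423)) (b (l 16781976) (l 539773711)))) (a (l 4) (b (a (l 539758351) (l 540315663)) (a (l 4) (l 538978831))))))) (l 4)), by decide +kernel⟩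

def k7_A00pm_213_s3 : ∃ t, chk3 f_A00pm_213_s3 t 7 62 1 = true :=
  ⟨(a (b (b (a (a (a (l 540057103) (l 16788864)) (a (l 16790952) (l 16793032))) (a (l 16796112) (a (l 16799120) (l 16801176)))) (a (a (a (l 538989327) (l 539011599)) (a (c (l 16787832) (l 16787200)) (l 16789552))) (a (a (l 16791552) (l 16793528)) (a (l 16795480) (a (l 16796912) (l 16797912)))))) (a (a (b (a (l 538995727) (b (l 539286543) (l 539558927))) (a (a (l 539532815) (l 539813135)) (b (l 540099855) (l 540372239)))) (a (a (b (l 539843343) (a (l 539848719) (l 540124431))) (b (l 540394767) (b (l 539061775) (l 539067407)))) (a (b (l 540678671) (b (l 16782872) (l 539084047))) (b (l 16786512) (b (l 16783824) (l 539101455)))))) (a (a (b (c (l 16788304) (l 16787592)) (b (l 16785232) (c (l 16783592) (l 16783160)))) (b (l 16789872) (b (l 16787080) (l 16785200)))) (b (a (l 16791752) (b (l 16794520) (l 16792632))) (b (l 16789792) (a (l 16786968) (l 16788712)))))))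 (a (b (a (l 16802168) (l 16805912)) (a (b (a (b (l 16796384) (l 16794432)) (l 16797104)) (a (a (l 16790960) (b (l 16792864) (l 16790800))) (b (l 16794056) (l 16792056)))) (b (l 16799584) (l 16795304)))) (b (a (a (l 16808624) (l 16810152)) (l 16810896)) (a (b (l 16802616) (a (l 16797432) (l 16798704))) (b (l 16804032) (l 16799384)))))), by decide +kernel⟩

def k8_A00pm_213_s3 : ∃ t, chk3 f_A00pm_213_s3 t 7 63 1 = true :=
  ⟨(b (a (a (a (b (a (l 4) (a (l 4) (b (l 539040015) (l 4)))) (l 4)) (b (a (b (b (l 540406287) (l 540139535)) (b (l 540409871) (l 4))) (b (a (l 539089167) (l 539106831)) (a (l 539361807) (l 539648271)))) (a (l 4) (b (a (l 4) (l 540725007)) (l 4))))) (a (b (a (b (a (l 539662095) (l 540217871)) (a (l 540203535) (l 540759823))) (b (a (l 16782856) (l 16783728)) (a (b (l 16781424) (l 16780464)) (a (l 539184399) (l 14))))) (a (b (b (a (l 539133711) (l 539153167)) (a (l 539134991) (l 539154703))) (a (l 4) (a (l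 540759567) (l 14)))) (b (a (a (l 539704591) (l 14)) (l 14)) (l 14)))) (b (b (a (l 16785024) (l 16786712)) (l 14)) (l 14)))) (b (b (a (a (a (l 16788360) (a (l 16789536) (l 16790352))) (l 16792048)) (a (l 16794592) (l 16795864))) (l 14)) (l 14))) (a (a (l 4) (a (a (l 4) (l 14)) (l 14))) (l 14))), by decide +kernel⟩

theorem t9_A00pm_213_s3 : ∃ t, chk3 f_A00pm_213_s3 t 7 31 1 = true := ex3_b k7_A00pm_213_s3 k8_A00pm_213_s3

theorem t10_A00pm_213_s3 : ∃ t, chk3 f_A00pm_213_s3 t 3 31 1 = true := ex3_a k6_A00pm_213_s3 t9_A00pm_213_s3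

theorem t11_A00pm_213_s3 : ∃ t, chk3 f_A00pm_213_s3 t 3 15 1 = true := ex3_b k5_A00pm_213_s3 t10_A00pm_213_s3

theorem t12_A00pm_213_s3 : ∃ t, chk3 f_A00pm_213_s3 t 1 15 1 = true := ex3_a k4_A00pm_213_s3 t11_A00pm_213_s3

theorem t13_A00pm_213_s3 : ∃ t, chk3 f_A00pm_213_s3 t 1 7 1 = true := ex3_b k3_A00pm_213_s3 t12_A00pm_213_s3

theorem t14_A00pm_213_s3 : ∃ t, chk3 f_A00pm_213_s3 t 1 6 1 = true := ex3_b k1_A00pm_213_s3 k2_A00pm_213_s3

theorem t15_A00pm_213_s3 : ∃ t, chk3 f_A00pm_213_s3 t 1 3 1 = true := ex3_b t14_A00pm_213_s3 t13_A00pm_213_s3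

theorem t16_A00pm_213_s3 : ∃ t, chk3 f_A00pm_213_s3 t 1 1 1 = true := ex3_b k0_A00pm_213_s3 t15_A00pm_213_s3

theorem c_A00pm_213_s3 : CertF 0 536870912 536870912 536870912 402653184 67108864 true true false .pnn 2 1 3
    ndF0q2 ndF0q1 pcF3 cut_A00pm_213_s3 xt_A00pm_213_s3 :=
  certF1 (fam := true) (s1 := true) (s2 := false) (a := 2) (b := 1) (c := 3) (cn := .pnn) (n1 := ndF0q2) (n2 := ndF0q1) (pc := pcF3) (cut := cut_A00pm_213_s3) (xt := xt_A00pm_213_s3) (P1 := 0) (W1 := 536870912) (P2 := 536870912) (W2 := 536870912) (P3 := 402653184) (W3 := 67108864)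
    rfl (fun _ => rfl) t16_A00pm_213_s3

theorem s_A00pm_213_s3 {κ x : ℝ} (hκ : κ * h0 = ken x) (hx : ((402653184 : ℕ) : ℝ) / S ≤ x)
    (hx' : x ≤ (((402653184 : ℕ) : ℝ) + (67108864 : ℕ)) / S)
    (H : CutA (VF κ) PP tKF tL pcF (Cut.of [[⟨0, 1, 0, 67108864⟩, ⟨1, 1, 0, 67108864⟩, ⟨2, 2, 0, 16777216⟩]]) 2 1 3 0 0 (sgb true) (sgb false) x) :
    AltA (VF κ) PP tKF tL pcF [⟨4, 0, 0, 2845415833⟩] 2 1 3 0 0 (sgb true) (sgb false) x :=
  strip_altA (m := 2845415833) false rfl hκ covF02 covF01 hx hx' c_A00pm_213_s3 H ((okx hx hx').extA (T := tt) (sideF hx hx') hκ rfl rfl (.O 2 true) (.O 1 false) (Or.inr rfl))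

noncomputable def cut_A00mm_001_s1 : Cut := Cut.of [[⟨4, 0, 0, 1449551462⟩]]

noncomputable def f_A00mm_001_s1 : ℕ → ℕ → ℕ → ℕ → Bool := onCell 0 536870912 0 536870912 402653184 67108864
    (rowF 0 true false false .up 0 0 1 (qsf 0 536870912 0 536870912 1) ndF0q0 ndF0q0 pcF1 cut_A00mm_001_s1 Ext.none)

def k0_A00mm_001_s1 : ∃ t, chk3 f_A00mm_001_s1 t 1 1 1 = true :=
  ⟨(l 4), by decide +kernel⟩

theorem c_A00mm_001_s1 : CertF 0 536870912 0 536870912 402653184 67108864 true false false .up 0 0 1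
    ndF0q0 ndF0q0 pcF1 cut_A00mm_001_s1 Ext.none :=
  certF0 (fam := true) (s1 := false) (s2 := false) (a := 0) (b := 0) (c := 1) (cn := .up) (n1 := ndF0q0) (n2 := ndF0q0) (pc := pcF1) (cut := cut_A00mm_001_s1) (xt := Ext.none) (P1 := 0) (W1 := 536870912) (P2 := 0) (W2 := 536870912) (P3 := 402653184) (W3 := 67108864)
    rfl k0_A00mm_001_s1

theorem s_A00mm_001_s1 {κ x : ℝ} (hκ : κ * h0 = ken x) (hx : ((402653184 : ℕ) : ℝ) / S ≤ x)
    (hx' : x ≤ (((402653184 : ℕ) : ℝ) + (67108864 : ℕ)) / S) :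
    AltA (VF κ) PP tKF tL pcF [⟨3, 0, 0, 1449551462⟩] 0 0 1 0 0 (sgb false) (sgb false) x :=
  strip_altA (m := 1449551462) true rfl hκ covF00 covF00 hx hx' c_A00mm_001_s1 cutA_nil (noExt_A)

noncomputable def cut_A00mm_001_s3 : Cut := Cut.of [[⟨3, 0, 0, 2845415833⟩]]

noncomputable def f_A00mm_001_s3 : ℕ → ℕ → ℕ → ℕ → Bool := onCell 0 536870912 0 536870912 402653184 67108864
    (rowF 0 true false false .up 0 0 1 (qsf 0 536870912 0 536870912 1) ndF0q0 ndF0q0 pcF1 cut_A00mm_001_s3 Ext.none)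

def k0_A00mm_001_s3 : ∃ t, chk3 f_A00mm_001_s3 t 1 1 1 = true :=
  ⟨(l 4), by decide +kernel⟩

theorem c_A00mm_001_s3 : CertF 0 536870912 0 536870912 402653184 67108864 true false false .up 0 0 1
    ndF0q0 ndF0q0 pcF1 cut_A00mm_001_s3 Ext.none :=
  certF0 (fam := true) (s1 := false) (s2 := false) (a := 0) (b := 0) (c := 1) (cn := .up) (n1 := ndF0q0) (n2 := ndF0q0) (pc := pcF1) (cut := cut_A00mm_001_s3) (xt := Ext.none) (P1 := 0) (W1 := 536870912) (P2 := 0) (W2 := 536870912) (P3 := 402653184) (W3 := 67108864)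
    rfl k0_A00mm_001_s3

theorem s_A00mm_001_s3 {κ x : ℝ} (hκ : κ * h0 = ken x) (hx : ((402653184 : ℕ) : ℝ) / S ≤ x)
    (hx' : x ≤ (((402653184 : ℕ) : ℝ) + (67108864 : ℕ)) / S) :
    AltA (VF κ) PP tKF tL pcF [⟨4, 0, 0, 2845415833⟩] 0 0 1 0 0 (sgb false) (sgb false) x :=
  strip_altA (m := 2845415833) false rfl hκ covF00 covF00 hx hx' c_A00mm_001_s3 cutA_nil (noExt_A)

noncomputable def cut_A00mm_011_s1 : Cut := Cut.of [[⟨4, 0, 0, 1449551462⟩]]

noncomputable def f_A00mm_011_s1 : ℕ → ℕ → ℕ → ℕ → Bool := onCell 0 536870912 536870912 536870912 402653184 67108864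
    (rowF 0 true false false .pnn 0 1 1 (qsf 0 536870912 536870912 536870912 1) ndF0q0 ndF0q1 pcF1 cut_A00mm_011_s1 Ext.none)

def k0_A00mm_011_s1 : ∃ t, chk3 f_A00mm_011_s1 t 1 1 1 = true :=
  ⟨(l 6), by decide +kernel⟩

theorem c_A00mm_011_s1 : CertF 0 536870912 536870912 536870912 402653184 67108864 true false false .pnn 0 1 1
    ndF0q0 ndF0q1 pcF1 cut_A00mm_011_s1 Ext.none :=
  certF0 (fam := true) (s1 := false) (s2 := false) (a := 0) (b := 1) (c := 1) (cn := .pnn) (n1 := ndF0q0) (n2 := ndF0q1) (pc := pcF1) (cut := cut_A00mm_011_s1) (xt := Ext.none) (P1 := 0) (W1 := 536870912) (P2 := 536870912) (W2 := 536870912) (P3 := 402653184) (W3 := 67108864)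
    rfl k0_A00mm_011_s1

theorem s_A00mm_011_s1 {κ x : ℝ} (hκ : κ * h0 = ken x) (hx : ((402653184 : ℕ) : ℝ) / S ≤ x)
    (hx' : x ≤ (((402653184 : ℕ) : ℝ) + (67108864 : ℕ)) / S) :
    AltA (VF κ) PP tKF tL pcF [⟨3, 0, 0, 1449551462⟩] 0 1 1 0 0 (sgb false) (sgb false) x :=
  strip_altA (m := 1449551462) true rfl hκ covF00 covF01 hx hx' c_A00mm_011_s1 cutA_nil (noExt_A)

noncomputable def cut_A00mm_011_s3 : Cut := Cut.of [[⟨3, 0, 0, 2845415833⟩]]

noncomputable def f_A00mm_011_s3 : ℕ → ℕ → ℕ → ℕ → Bool := onCell 0 536870912 536870912 536870912 402653184 67108864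
    (rowF 0 true false false .pnn 0 1 1 (qsf 0 536870912 536870912 536870912 1) ndF0q0 ndF0q1 pcF1 cut_A00mm_011_s3 Ext.none)

def k0_A00mm_011_s3 : ∃ t, chk3 f_A00mm_011_s3 t 1 1 1 = true :=
  ⟨(a (l 5) (l 4)), by decide +kernel⟩

theorem c_A00mm_011_s3 : CertF 0 536870912 536870912 536870912 402653184 67108864 true false false .pnn 0 1 1
    ndF0q0 ndF0q1 pcF1 cut_A00mm_011_s3 Ext.none :=
  certF0 (fam := true) (s1 := false) (s2 := false) (a := 0) (b := 1) (c := 1) (cn := .pnn) (n1 := ndF0q0) (n2 := ndF0q1) (pc := pcF1) (cut := cut_A00mm_011_s3) (xt := Ext.none) (P1 := 0) (W1 := 536870912) (P2 := 536870912) (W2 := 536870912) (P3 := 402653184) (W3 := 67108864)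
    rfl k0_A00mm_011_s3

theorem s_A00mm_011_s3 {κ x : ℝ} (hκ : κ * h0 = ken x) (hx : ((402653184 : ℕ) : ℝ) / S ≤ x)
    (hx' : x ≤ (((402653184 : ℕ) : ℝ) + (67108864 : ℕ)) / S) :
    AltA (VF κ) PP tKF tL pcF [⟨4, 0, 0, 2845415833⟩] 0 1 1 0 0 (sgb false) (sgb false) x :=
  strip_altA (m := 2845415833) false rfl hκ covF00 covF01 hx hx' c_A00mm_011_s3 cutA_nil (noExt_A)

noncomputable def cut_A00mm_012_s1 : Cut := Cut.of [[⟨4, 0, 0, 1449551462⟩]]

noncomputable def f_A00mm_012_s1 : ℕ → ℕ → ℕ → ℕ → Bool := onCell 0 536870912 536870912 536870912 402653184 67108864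
    (rowF 0 true false false .pnp 0 1 2 (qsf 0 536870912 536870912 536870912 2) ndF0q0 ndF0q1 pcF2 cut_A00mm_012_s1 Ext.none)

def k0_A00mm_012_s1 : ∃ t, chk3 f_A00mm_012_s1 t 1 1 1 = true :=
  ⟨(l 6), by decide +kernel⟩

theorem c_A00mm_012_s1 : CertF 0 536870912 536870912 536870912 402653184 67108864 true false false .pnp 0 1 2
    ndF0q0 ndF0q1 pcF2 cut_A00mm_012_s1 Ext.none :=
  certF0 (fam := true) (s1 := false) (s2 := false) (a := 0) (b := 1) (c := 2) (cn := .pnp) (n1 := ndF0q0) (n2 := ndF0q1) (pc := pcF2) (cut := cut_A00mm_012_s1) (xt := Ext.none) (P1 := 0) (W1 := 536870912) (P2 := 536870912) (W2 := 536870912) (P3 := 402653184) (W3 := 67108864)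
    rfl k0_A00mm_012_s1

theorem s_A00mm_012_s1 {κ x : ℝ} (hκ : κ * h0 = ken x) (hx : ((402653184 : ℕ) : ℝ) / S ≤ x)
    (hx' : x ≤ (((402653184 : ℕ) : ℝ) + (67108864 : ℕ)) / S) :
    AltA (VF κ) PP tKF tL pcF [⟨3, 0, 0, 1449551462⟩] 0 1 2 0 0 (sgb false) (sgb false) x :=
  strip_altA (m := 1449551462) true rfl hκ covF00 covF01 hx hx' c_A00mm_012_s1 cutA_nil (noExt_A)

noncomputable def cut_A00mm_012_s3 : Cut := Cut.of [[⟨3, 0, 0, 2845415833⟩]]

noncomputable def f_A00mm_012_s3 : ℕ → ℕ → ℕ → ℕ → Bool := onCell 0 536870912 536870912 536870912 402653184 67108864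
    (rowF 0 true false false .pnp 0 1 2 (qsf 0 536870912 536870912 536870912 2) ndF0q0 ndF0q1 pcF2 cut_A00mm_012_s3 Ext.none)

def k0_A00mm_012_s3 : ∃ t, chk3 f_A00mm_012_s3 t 1 1 1 = true :=
  ⟨(b (l 4) (l 5)), by decide +kernel⟩

theorem c_A00mm_012_s3 : CertF 0 536870912 536870912 536870912 402653184 67108864 true false false .pnp 0 1 2
    ndF0q0 ndF0q1 pcF2 cut_A00mm_012_s3 Ext.none :=
  certF0 (fam := true) (s1 := false) (s2 := false) (a := 0) (b := 1) (c := 2) (cn := .pnp) (n1 := ndF0q0) (n2 := ndF0q1) (pc := pcF2) (cut := cut_A00mm_012_s3) (xt := Ext.none) (P1 := 0) (W1 := 536870912) (P2 := 536870912) (W2 := 536870912) (P3 := 402653184) (W3 := 67108864)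
    rfl k0_A00mm_012_s3

theorem s_A00mm_012_s3 {κ x : ℝ} (hκ : κ * h0 = ken x) (hx : ((402653184 : ℕ) : ℝ) / S ≤ x)
    (hx' : x ≤ (((402653184 : ℕ) : ℝ) + (67108864 : ℕ)) / S) :
    AltA (VF κ) PP tKF tL pcF [⟨4, 0, 0, 2845415833⟩] 0 1 2 0 0 (sgb false) (sgb false) x :=
  strip_altA (m := 2845415833) false rfl hκ covF00 covF01 hx hx' c_A00mm_012_s3 cutA_nil (noExt_A)

noncomputable def cut_A00mm_022_s1 : Cut := Cut.of [[⟨4, 0, 0, 1449551462⟩]]

noncomputable def f_A00mm_022_s1 : ℕ → ℕ → ℕ → ℕ → Bool := onCell 0 536870912 0 536870912 402653184 67108864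
    (rowF 0 true false false .pp 0 2 2 (qsf 0 536870912 0 536870912 2) ndF0q0 ndF0q2 pcF2 cut_A00mm_022_s1 Ext.none)

def k0_A00mm_022_s1 : ∃ t, chk3 f_A00mm_022_s1 t 1 1 1 = true :=
  ⟨(l 5), by decide +kernel⟩

theorem c_A00mm_022_s1 : CertF 0 536870912 0 536870912 402653184 67108864 true false false .pp 0 2 2
    ndF0q0 ndF0q2 pcF2 cut_A00mm_022_s1 Ext.none :=
  certF0 (fam := true) (s1 := false) (s2 := false) (a := 0) (b := 2) (c := 2) (cn := .pp) (n1 := ndF0q0) (n2 := ndF0q2) (pc := pcF2) (cut := cut_A00mm_022_s1) (xt := Ext.none) (P1 := 0) (W1 := 536870912) (P2 := 0) (W2 := 536870912) (P3 := 402653184) (W3 := 67108864)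
    rfl k0_A00mm_022_s1

theorem s_A00mm_022_s1 {κ x : ℝ} (hκ : κ * h0 = ken x) (hx : ((402653184 : ℕ) : ℝ) / S ≤ x)
    (hx' : x ≤ (((402653184 : ℕ) : ℝ) + (67108864 : ℕ)) / S) :
    AltA (VF κ) PP tKF tL pcF [⟨3, 0, 0, 1449551462⟩] 0 2 2 0 0 (sgb false) (sgb false) x :=
  strip_altA (m := 1449551462) true rfl hκ covF00 covF02 hx hx' c_A00mm_022_s1 cutA_nil (noExt_A)

noncomputable def cut_A00mm_022_s3 : Cut := Cut.of [[⟨3, 0, 0, 2845415833⟩]]

noncomputable def f_A00mm_022_s3 : ℕ → ℕ → ℕ → ℕ → Bool := onCell 0 536870912 0 536870912 402653184 67108864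
    (rowF 0 true false false .pp 0 2 2 (qsf 0 536870912 0 536870912 2) ndF0q0 ndF0q2 pcF2 cut_A00mm_022_s3 Ext.none)

def k0_A00mm_022_s3 : ∃ t, chk3 f_A00mm_022_s3 t 1 1 1 = true :=
  ⟨(l 5), by decide +kernel⟩

theorem c_A00mm_022_s3 : CertF 0 536870912 0 536870912 402653184 67108864 true false false .pp 0 2 2
    ndF0q0 ndF0q2 pcF2 cut_A00mm_022_s3 Ext.none :=
  certF0 (fam := true) (s1 := false) (s2 := false) (a := 0) (b := 2) (c := 2) (cn := .pp) (n1 := ndF0q0) (n2 := ndF0q2) (pc := pcF2) (cut := cut_A00mm_022_s3) (xt := Ext.none) (P1 := 0) (W1 := 536870912) (P2 := 0) (W2 := 536870912) (P3 := 402653184) (W3 := 67108864)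
    rfl k0_A00mm_022_s3

theorem s_A00mm_022_s3 {κ x : ℝ} (hκ : κ * h0 = ken x) (hx : ((402653184 : ℕ) : ℝ) / S ≤ x)
    (hx' : x ≤ (((402653184 : ℕ) : ℝ) + (67108864 : ℕ)) / S) :
    AltA (VF κ) PP tKF tL pcF [⟨4, 0, 0, 2845415833⟩] 0 2 2 0 0 (sgb false) (sgb false) x :=
  strip_altA (m := 2845415833) false rfl hκ covF00 covF02 hx hx' c_A00mm_022_s3 cutA_nil (noExt_A)

noncomputable def cut_A00mm_023_s1 : Cut := Cut.of [[⟨4, 0, 0, 1449551462⟩]]

noncomputable def f_A00mm_023_s1 : ℕ → ℕ → ℕ → ℕ → Bool := onCell 0 536870912 0 536870912 402653184 67108864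
    (rowF 0 true false false .up 0 2 3 (qsf 0 536870912 0 536870912 3) ndF0q0 ndF0q2 pcF3 cut_A00mm_023_s1 Ext.none)

def k0_A00mm_023_s1 : ∃ t, chk3 f_A00mm_023_s1 t 1 1 1 = true :=
  ⟨(l 5), by decide +kernel⟩

theorem c_A00mm_023_s1 : CertF 0 536870912 0 536870912 402653184 67108864 true false false .up 0 2 3
    ndF0q0 ndF0q2 pcF3 cut_A00mm_023_s1 Ext.none :=
  certF0 (fam := true) (s1 := false) (s2 := false) (a := 0) (b := 2) (c := 3) (cn := .up) (n1 := ndF0q0) (n2 := ndF0q2) (pc := pcF3) (cut := cut_A00mm_023_s1) (xt := Ext.none) (P1 := 0) (W1 := 536870912) (P2 := 0) (W2 := 536870912) (P3 := 402653184) (W3 := 67108864)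
    rfl k0_A00mm_023_s1

theorem s_A00mm_023_s1 {κ x : ℝ} (hκ : κ * h0 = ken x) (hx : ((402653184 : ℕ) : ℝ) / S ≤ x)
    (hx' : x ≤ (((402653184 : ℕ) : ℝ) + (67108864 : ℕ)) / S) :
    AltA (VF κ) PP tKF tL pcF [⟨3, 0, 0, 1449551462⟩] 0 2 3 0 0 (sgb false) (sgb false) x :=
  strip_altA (m := 1449551462) true rfl hκ covF00 covF02 hx hx' c_A00mm_023_s1 cutA_nil (noExt_A)

noncomputable def cut_A00mm_023_s3 : Cut := Cut.of [[⟨3, 0, 0, 2845415833⟩]]

noncomputable def f_A00mm_023_s3 : ℕ → ℕ → ℕ → ℕ → Bool := onCell 0 536870912 0 536870912 402653184 67108864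
    (rowF 0 true false false .up 0 2 3 (qsf 0 536870912 0 536870912 3) ndF0q0 ndF0q2 pcF3 cut_A00mm_023_s3 Ext.none)

def k0_A00mm_023_s3 : ∃ t, chk3 f_A00mm_023_s3 t 1 1 1 = true :=
  ⟨(l 5), by decide +kernel⟩

theorem c_A00mm_023_s3 : CertF 0 536870912 0 536870912 402653184 67108864 true false false .up 0 2 3
    ndF0q0 ndF0q2 pcF3 cut_A00mm_023_s3 Ext.none :=
  certF0 (fam := true) (s1 := false) (s2 := false) (a := 0) (b := 2) (c := 3) (cn := .up) (n1 := ndF0q0) (n2 := ndF0q2) (pc := pcF3) (cut := cut_A00mm_023_s3) (xt := Ext.none) (P1 := 0) (W1 := 536870912) (P2 := 0) (W2 := 536870912) (P3 := 402653184) (W3 := 67108864)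
    rfl k0_A00mm_023_s3

theorem s_A00mm_023_s3 {κ x : ℝ} (hκ : κ * h0 = ken x) (hx : ((402653184 : ℕ) : ℝ) / S ≤ x)
    (hx' : x ≤ (((402653184 : ℕ) : ℝ) + (67108864 : ℕ)) / S) :
    AltA (VF κ) PP tKF tL pcF [⟨4, 0, 0, 2845415833⟩] 0 2 3 0 0 (sgb false) (sgb false) x :=
  strip_altA (m := 2845415833) false rfl hκ covF00 covF02 hx hx' c_A00mm_023_s3 cutA_nil (noExt_A)

noncomputable def cut_A00mm_101_s1 : Cut := Cut.of [[⟨4, 0, 0, 1449551462⟩], [⟨0, 1, 0, 67108864⟩, ⟨1, 0, 0, 67108864⟩, ⟨2, 1, 0, 67108864⟩]]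

noncomputable def f_A00mm_101_s1 : ℕ → ℕ → ℕ → ℕ → Bool := onCell 536870912 536870912 0 536870912 402653184 67108864
    (rowF 0 true false false .npn 1 0 1 (qsf 536870912 536870912 0 536870912 1) ndF0q1 ndF0q0 pcF1 cut_A00mm_101_s1 Ext.none)

def k0_A00mm_101_s1 : ∃ t, chk3 f_A00mm_101_s1 t 1 1 1 = true :=
  ⟨(l 6), by decide +kernel⟩

theorem c_A00mm_101_s1 : CertF 536870912 536870912 0 536870912 402653184 67108864 true false false .npn 1 0 1
    ndF0q1 ndF0q0 pcF1 cut_A00mm_101_s1 Ext.none :=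
  certF0 (fam := true) (s1 := false) (s2 := false) (a := 1) (b := 0) (c := 1) (cn := .npn) (n1 := ndF0q1) (n2 := ndF0q0) (pc := pcF1) (cut := cut_A00mm_101_s1) (xt := Ext.none) (P1 := 536870912) (W1 := 536870912) (P2 := 0) (W2 := 536870912) (P3 := 402653184) (W3 := 67108864)
    rfl k0_A00mm_101_s1

theorem s_A00mm_101_s1 {κ x : ℝ} (hκ : κ * h0 = ken x) (hx : ((402653184 : ℕ) : ℝ) / S ≤ x)
    (hx' : x ≤ (((402653184 : ℕ) : ℝ) + (67108864 : ℕ)) / S)
    (H : CutA (VF κ) PP tKF tL pcF (Cut.of [[⟨0, 1, 0, 67108864⟩, ⟨1, 0, 0, 67108864⟩, ⟨2, 1, 0, 67108864⟩]]) 1 0 1 0 0 (sgb false) (sgb false) x) :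
    AltA (VF κ) PP tKF tL pcF [⟨3, 0, 0, 1449551462⟩] 1 0 1 0 0 (sgb false) (sgb false) x :=
  strip_altA (m := 1449551462) true rfl hκ covF01 covF00 hx hx' c_A00mm_101_s1 H (noExt_A)

noncomputable def cut_A00mm_101_s3 : Cut := Cut.of [[⟨3, 0, 0, 2845415833⟩], [⟨0, 1, 0, 67108864⟩, ⟨1, 0, 0, 67108864⟩, ⟨2, 1, 0, 67108864⟩]]

noncomputable def f_A00mm_101_s3 : ℕ → ℕ → ℕ → ℕ → Bool := onCell 536870912 536870912 0 536870912 402653184 67108864
    (rowF 0 true false false .npn 1 0 1 (qsf 536870912 536870912 0 536870912 1) ndF0q1 ndF0q0 pcF1 cut_A00mm_101_s3 Ext.none)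

def k0_A00mm_101_s3 : ∃ t, chk3 f_A00mm_101_s3 t 1 1 1 = true :=
  ⟨(a (l 4) (b (a (l 4) (b (a (l 4) (b (a (l 4) (b (l 14) (l 4))) (l 4))) (l 4))) (l 4))), by decide +kernel⟩

theorem c_A00mm_101_s3 : CertF 536870912 536870912 0 536870912 402653184 67108864 true false false .npn 1 0 1
    ndF0q1 ndF0q0 pcF1 cut_A00mm_101_s3 Ext.none :=
  certF0 (fam := true) (s1 := false) (s2 := false) (a := 1) (b := 0) (c := 1) (cn := .npn) (n1 := ndF0q1) (n2 := ndF0q0) (pc := pcF1) (cut := cut_A00mm_101_s3) (xt := Ext.none) (P1 := 536870912) (W1 := 536870912) (P2 := 0) (W2 := 536870912) (P3 := 402653184) (W3 := 67108864)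
    rfl k0_A00mm_101_s3

theorem s_A00mm_101_s3 {κ x : ℝ} (hκ : κ * h0 = ken x) (hx : ((402653184 : ℕ) : ℝ) / S ≤ x)
    (hx' : x ≤ (((402653184 : ℕ) : ℝ) + (67108864 : ℕ)) / S)
    (H : CutA (VF κ) PP tKF tL pcF (Cut.of [[⟨0, 1, 0, 67108864⟩, ⟨1, 0, 0, 67108864⟩, ⟨2, 1, 0, 67108864⟩]]) 1 0 1 0 0 (sgb false) (sgb false) x) :
    AltA (VF κ) PP tKF tL pcF [⟨4, 0, 0, 2845415833⟩] 1 0 1 0 0 (sgb false) (sgb false) x :=
  strip_altA (m := 2845415833) false rfl hκ covF01 covF00 hx hx' c_A00mm_101_s3 H (noExt_A)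

noncomputable def cut_A00mm_102_s1 : Cut := Cut.of [[⟨4, 0, 0, 1449551462⟩], [⟨0, 1, 0, 67108864⟩, ⟨1, 0, 0, 67108864⟩, ⟨2, 1, 0, 67108864⟩]]

noncomputable def f_A00mm_102_s1 : ℕ → ℕ → ℕ → ℕ → Bool := onCell 536870912 536870912 0 536870912 402653184 67108864
    (rowF 0 true false false .npp 1 0 2 (qsf 536870912 536870912 0 536870912 2) ndF0q1 ndF0q0 pcF2 cut_A00mm_102_s1 Ext.none)

def k0_A00mm_102_s1 : ∃ t, chk3 f_A00mm_102_s1 t 1 1 1 = true :=
  ⟨(l 6), by decide +kernel⟩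

theorem c_A00mm_102_s1 : CertF 536870912 536870912 0 536870912 402653184 67108864 true false false .npp 1 0 2
    ndF0q1 ndF0q0 pcF2 cut_A00mm_102_s1 Ext.none :=
  certF0 (fam := true) (s1 := false) (s2 := false) (a := 1) (b := 0) (c := 2) (cn := .npp) (n1 := ndF0q1) (n2 := ndF0q0) (pc := pcF2) (cut := cut_A00mm_102_s1) (xt := Ext.none) (P1 := 536870912) (W1 := 536870912) (P2 := 0) (W2 := 536870912) (P3 := 402653184) (W3 := 67108864)
    rfl k0_A00mm_102_s1

theorem s_A00mm_102_s1 {κ x : ℝ} (hκ : κ * h0 = ken x) (hx : ((402653184 : ℕ) : ℝ) / S ≤ x)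
    (hx' : x ≤ (((402653184 : ℕ) : ℝ) + (67108864 : ℕ)) / S)
    (H : CutA (VF κ) PP tKF tL pcF (Cut.of [[⟨0, 1, 0, 67108864⟩, ⟨1, 0, 0, 67108864⟩, ⟨2, 1, 0, 67108864⟩]]) 1 0 2 0 0 (sgb false) (sgb false) x) :
    AltA (VF κ) PP tKF tL pcF [⟨3, 0, 0, 1449551462⟩] 1 0 2 0 0 (sgb false) (sgb false) x :=
  strip_altA (m := 1449551462) true rfl hκ covF01 covF00 hx hx' c_A00mm_102_s1 H (noExt_A)

noncomputable def cut_A00mm_102_s3 : Cut := Cut.of [[⟨3, 0, 0, 2845415833⟩], [⟨0, 1, 0, 67108864⟩, ⟨1, 0, 0, 67108864⟩, ⟨2, 1, 0, 67108864⟩]]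

noncomputable def f_A00mm_102_s3 : ℕ → ℕ → ℕ → ℕ → Bool := onCell 536870912 536870912 0 536870912 402653184 67108864
    (rowF 0 true false false .npp 1 0 2 (qsf 536870912 536870912 0 536870912 2) ndF0q1 ndF0q0 pcF2 cut_A00mm_102_s3 Ext.none)

def k0_A00mm_102_s3 : ∃ t, chk3 f_A00mm_102_s3 t 1 1 1 = true :=
  ⟨(a (l 4) (b (a (l 4) (b (a (l 4) (a (l 4) (b (b (l 14) (l 4)) (l 4)))) (l 4))) (l 4))), by decide +kernel⟩

theorem c_A00mm_102_s3 : CertF 536870912 536870912 0 536870912 402653184 67108864 true false false .npp 1 0 2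
    ndF0q1 ndF0q0 pcF2 cut_A00mm_102_s3 Ext.none :=
  certF0 (fam := true) (s1 := false) (s2 := false) (a := 1) (b := 0) (c := 2) (cn := .npp) (n1 := ndF0q1) (n2 := ndF0q0) (pc := pcF2) (cut := cut_A00mm_102_s3) (xt := Ext.none) (P1 := 536870912) (W1 := 536870912) (P2 := 0) (W2 := 536870912) (P3 := 402653184) (W3 := 67108864)
    rfl k0_A00mm_102_s3

theorem s_A00mm_102_s3 {κ x : ℝ} (hκ : κ * h0 = ken x) (hx : ((402653184 : ℕ) : ℝ) / S ≤ x)
    (hx' : x ≤ (((402653184 : ℕ) : ℝ) + (67108864 : ℕ)) / S)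
    (H : CutA (VF κ) PP tKF tL pcF (Cut.of [[⟨0, 1, 0, 67108864⟩, ⟨1, 0, 0, 67108864⟩, ⟨2, 1, 0, 67108864⟩]]) 1 0 2 0 0 (sgb false) (sgb false) x) :
    AltA (VF κ) PP tKF tL pcF [⟨4, 0, 0, 2845415833⟩] 1 0 2 0 0 (sgb false) (sgb false) x :=
  strip_altA (m := 2845415833) false rfl hκ covF01 covF00 hx hx' c_A00mm_102_s3 H (noExt_A)

noncomputable def cut_A00mm_112_s1 : Cut := Cut.of [[⟨4, 0, 0, 1449551462⟩]]

noncomputable def f_A00mm_112_s1 : ℕ → ℕ → ℕ → ℕ → Bool := onCell 536870912 536870912 536870912 536870912 402653184 67108864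
    (rowF 0 true false false .dn 1 1 2 (qsf 536870912 536870912 536870912 536870912 2) ndF0q1 ndF0q1 pcF2 cut_A00mm_112_s1 Ext.none)

def k0_A00mm_112_s1 : ∃ t, chk3 f_A00mm_112_s1 t 1 1 1 = true :=
  ⟨(l 4), by decide +kernel⟩

theorem c_A00mm_112_s1 : CertF 536870912 536870912 536870912 536870912 402653184 67108864 true false false .dn 1 1 2
    ndF0q1 ndF0q1 pcF2 cut_A00mm_112_s1 Ext.none :=
  certF0 (fam := true) (s1 := false) (s2 := false) (a := 1) (b := 1) (c := 2) (cn := .dn) (n1 := ndF0q1) (n2 := ndF0q1) (pc := pcF2) (cut := cut_A00mm_112_s1) (xt := Ext.none) (P1 := 536870912) (W1 := 536870912) (P2 := 536870912) (W2 := 536870912) (P3 := 402653184) (W3 := 67108864)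
    rfl k0_A00mm_112_s1

theorem s_A00mm_112_s1 {κ x : ℝ} (hκ : κ * h0 = ken x) (hx : ((402653184 : ℕ) : ℝ) / S ≤ x)
    (hx' : x ≤ (((402653184 : ℕ) : ℝ) + (67108864 : ℕ)) / S) :
    AltA (VF κ) PP tKF tL pcF [⟨3, 0, 0, 1449551462⟩] 1 1 2 0 0 (sgb false) (sgb false) x :=
  strip_altA (m := 1449551462) true rfl hκ covF01 covF01 hx hx' c_A00mm_112_s1 cutA_nil (noExt_A)

noncomputable def cut_A00mm_112_s3 : Cut := Cut.of [[⟨3, 0, 0, 2845415833⟩]]

noncomputable def f_A00mm_112_s3 : ℕ → ℕ → ℕ → ℕ → Bool := onCell 536870912 536870912 536870912 536870912 402653184 67108864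
    (rowF 0 true false false .dn 1 1 2 (qsf 536870912 536870912 536870912 536870912 2) ndF0q1 ndF0q1 pcF2 cut_A00mm_112_s3 Ext.none)

def k0_A00mm_112_s3 : ∃ t, chk3 f_A00mm_112_s3 t 1 1 1 = true :=
  ⟨(l 4), by decide +kernel⟩

theorem c_A00mm_112_s3 : CertF 536870912 536870912 536870912 536870912 402653184 67108864 true false false .dn 1 1 2
    ndF0q1 ndF0q1 pcF2 cut_A00mm_112_s3 Ext.none :=
  certF0 (fam := true) (s1 := false) (s2 := false) (a := 1) (b := 1) (c := 2) (cn := .dn) (n1 := ndF0q1) (n2 := ndF0q1) (pc := pcF2) (cut := cut_A00mm_112_s3) (xt := Ext.none) (P1 := 536870912) (W1 := 536870912) (P2 := 536870912) (W2 := 536870912) (P3 := 402653184) (W3 := 67108864)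
    rfl k0_A00mm_112_s3

theorem s_A00mm_112_s3 {κ x : ℝ} (hκ : κ * h0 = ken x) (hx : ((402653184 : ℕ) : ℝ) / S ≤ x)
    (hx' : x ≤ (((402653184 : ℕ) : ℝ) + (67108864 : ℕ)) / S) :
    AltA (VF κ) PP tKF tL pcF [⟨4, 0, 0, 2845415833⟩] 1 1 2 0 0 (sgb false) (sgb false) x :=
  strip_altA (m := 2845415833) false rfl hκ covF01 covF01 hx hx' c_A00mm_112_s3 cutA_nil (noExt_A)

noncomputable def cut_A00mm_113_s1 : Cut := Cut.of [[⟨4, 0, 0, 1449551462⟩]]

noncomputable def f_A00mm_113_s1 : ℕ → ℕ → ℕ → ℕ → Bool := onCell 536870912 536870912 536870912 536870912 402653184 67108864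
    (rowF 0 true false false .nn 1 1 3 (qsf 536870912 536870912 536870912 536870912 3) ndF0q1 ndF0q1 pcF3 cut_A00mm_113_s1 Ext.none)

def k0_A00mm_113_s1 : ∃ t, chk3 f_A00mm_113_s1 t 1 1 1 = true :=
  ⟨(l 4), by decide +kernel⟩

theorem c_A00mm_113_s1 : CertF 536870912 536870912 536870912 536870912 402653184 67108864 true false false .nn 1 1 3
    ndF0q1 ndF0q1 pcF3 cut_A00mm_113_s1 Ext.none :=
  certF0 (fam := true) (s1 := false) (s2 := false) (a := 1) (b := 1) (c := 3) (cn := .nn) (n1 := ndF0q1) (n2 := ndF0q1) (pc := pcF3) (cut := cut_A00mm_113_s1) (xt := Ext.none) (P1 := 536870912) (W1 := 536870912) (P2 := 536870912) (W2 := 536870912) (P3 := 402653184) (W3 := 67108864)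
    rfl k0_A00mm_113_s1

theorem s_A00mm_113_s1 {κ x : ℝ} (hκ : κ * h0 = ken x) (hx : ((402653184 : ℕ) : ℝ) / S ≤ x)
    (hx' : x ≤ (((402653184 : ℕ) : ℝ) + (67108864 : ℕ)) / S) :
    AltA (VF κ) PP tKF tL pcF [⟨3, 0, 0, 1449551462⟩] 1 1 3 0 0 (sgb false) (sgb false) x :=
  strip_altA (m := 1449551462) true rfl hκ covF01 covF01 hx hx' c_A00mm_113_s1 cutA_nil (noExt_A)

noncomputable def cut_A00mm_113_s3 : Cut := Cut.of [[⟨3, 0, 0, 2845415833⟩]]

noncomputable def f_A00mm_113_s3 : ℕ → ℕ → ℕ → ℕ → Bool := onCell 536870912 536870912 536870912 536870912 402653184 67108864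
    (rowF 0 true false false .nn 1 1 3 (qsf 536870912 536870912 536870912 536870912 3) ndF0q1 ndF0q1 pcF3 cut_A00mm_113_s3 Ext.none)

def k0_A00mm_113_s3 : ∃ t, chk3 f_A00mm_113_s3 t 1 1 1 = true :=
  ⟨(l 4), by decide +kernel⟩

theorem c_A00mm_113_s3 : CertF 536870912 536870912 536870912 536870912 402653184 67108864 true false false .nn 1 1 3
    ndF0q1 ndF0q1 pcF3 cut_A00mm_113_s3 Ext.none :=
  certF0 (fam := true) (s1 := false) (s2 := false) (a := 1) (b := 1) (c := 3) (cn := .nn) (n1 := ndF0q1) (n2 := ndF0q1) (pc := pcF3) (cut := cut_A00mm_113_s3) (xt := Ext.none) (P1 := 536870912) (W1 := 536870912) (P2 := 536870912) (W2 := 536870912) (P3 := 402653184) (W3 := 67108864)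
    rfl k0_A00mm_113_s3

theorem s_A00mm_113_s3 {κ x : ℝ} (hκ : κ * h0 = ken x) (hx : ((402653184 : ℕ) : ℝ) / S ≤ x)
    (hx' : x ≤ (((402653184 : ℕ) : ℝ) + (67108864 : ℕ)) / S) :
    AltA (VF κ) PP tKF tL pcF [⟨4, 0, 0, 2845415833⟩] 1 1 3 0 0 (sgb false) (sgb false) x :=
  strip_altA (m := 2845415833) false rfl hκ covF01 covF01 hx hx' c_A00mm_113_s3 cutA_nil (noExt_A)

noncomputable def cut_A00mm_123_s1 : Cut := Cut.of [[⟨4, 0, 0, 1449551462⟩]]

noncomputable def f_A00mm_123_s1 : ℕ → ℕ → ℕ → ℕ → Bool := onCell 536870912 536870912 0 536870912 402653184 67108864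
    (rowF 0 true false false .npn 1 2 3 (qsf 536870912 536870912 0 536870912 3) ndF0q1 ndF0q2 pcF3 cut_A00mm_123_s1 Ext.none)

def k0_A00mm_123_s1 : ∃ t, chk3 f_A00mm_123_s1 t 1 1 1 = true :=
  ⟨(l 6), by decide +kernel⟩

theorem c_A00mm_123_s1 : CertF 536870912 536870912 0 536870912 402653184 67108864 true false false .npn 1 2 3
    ndF0q1 ndF0q2 pcF3 cut_A00mm_123_s1 Ext.none :=
  certF0 (fam := true) (s1 := false) (s2 := false) (a := 1) (b := 2) (c := 3) (cn := .npn) (n1 := ndF0q1) (n2 := ndF0q2) (pc := pcF3) (cut := cut_A00mm_123_s1) (xt := Ext.none) (P1 := 536870912) (W1 := 536870912) (P2 := 0) (W2 := 536870912) (P3 := 402653184) (W3 := 67108864)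
    rfl k0_A00mm_123_s1

theorem s_A00mm_123_s1 {κ x : ℝ} (hκ : κ * h0 = ken x) (hx : ((402653184 : ℕ) : ℝ) / S ≤ x)
    (hx' : x ≤ (((402653184 : ℕ) : ℝ) + (67108864 : ℕ)) / S) :
    AltA (VF κ) PP tKF tL pcF [⟨3, 0, 0, 1449551462⟩] 1 2 3 0 0 (sgb false) (sgb false) x :=
  strip_altA (m := 1449551462) true rfl hκ covF01 covF02 hx hx' c_A00mm_123_s1 cutA_nil (noExt_A)

noncomputable def cut_A00mm_123_s3 : Cut := Cut.of [[⟨3, 0, 0, 2845415833⟩]]

noncomputable def f_A00mm_123_s3 : ℕ → ℕ → ℕ → ℕ → Bool := onCell 536870912 536870912 0 536870912 402653184 67108864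
    (rowF 0 true false false .npn 1 2 3 (qsf 536870912 536870912 0 536870912 3) ndF0q1 ndF0q2 pcF3 cut_A00mm_123_s3 Ext.none)

def k0_A00mm_123_s3 : ∃ t, chk3 f_A00mm_123_s3 t 1 1 1 = true :=
  ⟨(a (l 5) (l 4)), by decide +kernel⟩

theorem c_A00mm_123_s3 : CertF 536870912 536870912 0 536870912 402653184 67108864 true false false .npn 1 2 3
    ndF0q1 ndF0q2 pcF3 cut_A00mm_123_s3 Ext.none :=
  certF0 (fam := true) (s1 := false) (s2 := false) (a := 1) (b := 2) (c := 3) (cn := .npn) (n1 := ndF0q1) (n2 := ndF0q2) (pc := pcF3) (cut := cut_A00mm_123_s3) (xt := Ext.none) (P1 := 536870912) (W1 := 536870912) (P2 := 0) (W2 := 536870912) (P3 := 402653184) (W3 := 67108864)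
    rfl k0_A00mm_123_s3

theorem s_A00mm_123_s3 {κ x : ℝ} (hκ : κ * h0 = ken x) (hx : ((402653184 : ℕ) : ℝ) / S ≤ x)
    (hx' : x ≤ (((402653184 : ℕ) : ℝ) + (67108864 : ℕ)) / S) :
    AltA (VF κ) PP tKF tL pcF [⟨4, 0, 0, 2845415833⟩] 1 2 3 0 0 (sgb false) (sgb false) x :=
  strip_altA (m := 2845415833) false rfl hκ covF01 covF02 hx hx' c_A00mm_123_s3 cutA_nil (noExt_A)

noncomputable def cut_A00mm_202_s1 : Cut := Cut.of [[⟨4, 0, 0, 1449551462⟩], [⟨0, 1, 0, 67108864⟩, ⟨1, 0, 0, 67108864⟩, ⟨2, 1, 0, 67108864⟩]]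

noncomputable def f_A00mm_202_s1 : ℕ → ℕ → ℕ → ℕ → Bool := onCell 0 536870912 0 536870912 402653184 67108864
    (rowF 0 true false false .pp 2 0 2 (qsf 0 536870912 0 536870912 2) ndF0q2 ndF0q0 pcF2 cut_A00mm_202_s1 Ext.none)

def k0_A00mm_202_s1 : ∃ t, chk3 f_A00mm_202_s1 t 1 1 1 = true :=
  ⟨(l 6), by decide +kernel⟩

theorem c_A00mm_202_s1 : CertF 0 536870912 0 536870912 402653184 67108864 true false false .pp 2 0 2
    ndF0q2 ndF0q0 pcF2 cut_A00mm_202_s1 Ext.none :=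
  certF0 (fam := true) (s1 := false) (s2 := false) (a := 2) (b := 0) (c := 2) (cn := .pp) (n1 := ndF0q2) (n2 := ndF0q0) (pc := pcF2) (cut := cut_A00mm_202_s1) (xt := Ext.none) (P1 := 0) (W1 := 536870912) (P2 := 0) (W2 := 536870912) (P3 := 402653184) (W3 := 67108864)
    rfl k0_A00mm_202_s1

theorem s_A00mm_202_s1 {κ x : ℝ} (hκ : κ * h0 = ken x) (hx : ((402653184 : ℕ) : ℝ) / S ≤ x)
    (hx' : x ≤ (((402653184 : ℕ) : ℝ) + (67108864 : ℕ)) / S)
    (H : CutA (VF κ) PP tKF tL pcF (Cut.of [[⟨0, 1, 0, 67108864⟩, ⟨1, 0, 0, 67108864⟩, ⟨2, 1, 0, 67108864⟩]]) 2 0 2 0 0 (sgb false) (sgb false) x) :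
    AltA (VF κ) PP tKF tL pcF [⟨3, 0, 0, 1449551462⟩] 2 0 2 0 0 (sgb false) (sgb false) x :=
  strip_altA (m := 1449551462) true rfl hκ covF02 covF00 hx hx' c_A00mm_202_s1 H (noExt_A)

noncomputable def cut_A00mm_202_s3 : Cut := Cut.of [[⟨3, 0, 0, 2845415833⟩], [⟨0, 1, 0, 67108864⟩, ⟨1, 0, 0, 67108864⟩, ⟨2, 1, 0, 67108864⟩]]

noncomputable def xt_A00mm_202_s3 : Ext := strExt dd true false false .u2 .u0m .s2m .pp 2 0 2 rfl rfl gl2 vv ndF0q2 ndF0q0

noncomputable def f_A00mm_202_s3 : ℕ → ℕ → ℕ → ℕ → Bool := onCell 0 536870912 0 536870912 402653184 67108864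
    (rowF 0 true false false .pp 2 0 2 (qsf 0 536870912 0 536870912 2) ndF0q2 ndF0q0 pcF2 cut_A00mm_202_s3 xt_A00mm_202_s3)

def k0_A00mm_202_s3 : ∃ t, chk3 f_A00mm_202_s3 t 2 2 1 = true :=
  ⟨(b (b (l 6) (a (l 6) (a (l 6) (b (b (l 6) (l 16659184)) (l 16647248))))) (a (b (l 6) (a (l 6) (b (l 6) (l 16739608)))) (b (a (b (l 6) (l 16667616)) (b (c (l 16706864) (l 16704376)) (a (l 16671896) (l 16764448)))) (a (b (l 16699720) (l 16769784)) (a (b (l 16702040) (l 16727976)) (b (l 16751560) (l 535638543))))))), by decide +kernel⟩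

def k1_A00mm_202_s3 : ∃ t, chk3 f_A00mm_202_s3 t 6 4 1 = true :=
  ⟨(b (a (b (a (l 6) (b (b (l 6) (l 16616328)) (l 16663256))) (b (a (l 6) (l 16627960)) (a (l 16609816) (l 16634680)))) (c (a (b (b (b (a (l 16632576) (l 16642528)) (l 16641336)) (b (l 16645048) (l 16648760))) (b (a (l 16648496) (l 16660096)) (l 16703936))) (b (b (b (a (l 16652752) (l 16663336)) (a (l 16656992) (l 16667896))) (a (l 16684296) (b (l 16672448) (l 16677008)))) (a (b (l 16671864) (l 16680584)) (b (l 16704864) (l 16693264))))) (a (b (b (b (l 16659528) (l 16632584)) (b (l 16637064) (l 16641504))) (b (l 16690072) (l 16698952))) (b (b (b (a (l 16644032) (l 16655296)) (a (l 16649016) (l 16660560))) (b (a (l 16653960) (l 16665792)) (l 16696440))) (a (b (l 16666232) (l 16676096)) (b (l 16699752) (l 16689232))))))) (a (b (a (l 16669768) (b (l 16641544) (l 16690600))) (a (l 16670408) (b (l 16656080) (l 16747872)))) (a (b (b (l 16709872) (l 16718600)) (b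 (l 16717184) (l 16716264))) (a (b (b (l 16687816) (l 16739552)) (b (l 16728760) (l 16739400))) (b (b (l 16722336) (l 16732768)) (b (l 16743600) (l 533916175))))))), by decide +kernel⟩

def k2_A00mm_202_s3 : ∃ t, chk3 f_A00mm_202_s3 t 7 16 1 = true :=
  ⟨(a (a (a (b (b (b (l 16690384) (l 16672016)) (b (l 16674608) (l 16677192))) (b (l 16702040) (l 16686232))) (b (a (b (b (l 16678272) (l 16680968)) (l 16685000)) (b (b (l 16684408) (l 16687168)) (l 16701776))) (b (b (l 16692224) (l 16694944)) (c (l 16701328) (l 16696712))))) (a (a (b (b (b (l 14) (l 16693552)) (b (l 16696368) (l 16699176))) (b (l 16703384) (l 16709008))) (b (b (l 14) (b (l 16703000) (l 16705872))) (b (b (l 16708744) (l 16711608)) (l 16726400)))) (b (a (b (l 14) (b (l 14) (l 16712760))) (l 14)) (a (b (b (l 16715688) (l 16718616)) (b (l 16721544) (l 16724480))) (b (b (l 14) (l 16725816)) (b (l 16728808) (l 16731800))))))) (a (a (b (l 14) (b (l 14) (b (a (c (l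 16737496) (l 16735040)) (l 14)) (a (c (l 16740424) (l 16738208)) (b (l 16751504) (l 16753056)))))) (l 14)) (l 14))), by decide +kernel⟩

def k3_A00mm_202_s3 : ∃ t, chk3 f_A00mm_202_s3 t 7 17 1 = true :=
  ⟨(a (a (b (a (b (l 16691416) (l 16696616)) (b (a (l 16701120) (l 16707800)) (l 16730904))) (a (b (l 16701864) (l 16707160)) (b (l 16736416) (l 16741984)))) (a (a (b (b (l 16714648) (l 16720320)) (b (l 16726024) (l 16731792))) (b (b (l 16721680) (l 16727472)) (b (l 16733304) (l 16749680)))) (a (a (b (b (l 16727064) (l 16732952)) (l 533727503)) (b (b (l 16730720) (l 16736664)) (l 533708047))) (a (b (b (l 16734424) (l 16740424)) (l 534225423)) (b (b (l 16743416) (l 16749480)) (b (l 533681167) (l 533656335))))))) (b (a (a (a (a (b (l 533972495) (l 533683471)) (b (b (l 16744288) (l 16747368)) (l 533930767))) (a (b (b (l 16748176) (l 16751280)) (b (l 16754400) (l 16762768))) (b (b (l 16757360) (l 16760496)) (a (l 533627151) (l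 533616399))))) (a (a (b (a (l 533624847) (l 533613839)) (a (l 533605647) (l 533594895))) (b (a (l 533602575) (l 533859855)) (a (l 533583887) (l 533572879)))) (a (a (b (a (l 533583887) (l 533578255)) (l 533561871)) (b (a (l 533572623) (l 14)) (l 534087439))) (b (l 14) (a (a (l 533543439) (l 533537807)) (a (l 533532175) (l 533526543))))))) (b (l 14) (b (b (l 14) (b (l 14) (l 4))) (l 4)))) (a (a (a (b (a (l 533660943) (l 533640207)) (a (l 533636367) (l 533616143))) (a (b (l 534156303) (l 533863951)) (a (l 533862159) (l 533851919)))) (a (a (b (a (l 533584655) (l 533573903)) (a (l 533561359) (l 533550863))) (a (a (l 533555215) (l 533549839)) (a (l 533544463) (l 533539087)))) (a (b (a (l 533541391) (l 533530383)) (l 4)) (l 4)))) (l 4)))), by decide +kernel⟩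

def k4_A00mm_202_s3 : ∃ t, chk3 f_A00mm_202_s3 t 7 9 1 = true :=
  ⟨(b (a (a (a (a (b (l 16711696) (l 16743560)) (b (l 16739680) (l 16750856))) (a (b (l 533802511) (l 533733135)) (b (l 533767951) (l 533700111)))) (a (a (b (l 534269455) (l 533934607)) (b (b (l 16755640) (l 533680911)) (l 534436623))) (a (b (a (l 533671439) (l 533652751)) (a (l 533607695) (l 533589775))) (a (b (l 533633807) (l 533571599)) (b (l 533883151) (l 533553167)))))) (a (a (a (a (b (l 534132239) (l 533534735)) (b (a (l 533582351) (l 533572623)) (l 4))) (b (a (a (l 533562639) (l 533552655)) (b (l 534354447) (l 4))) (l 4))) (l 4)) (l 4))) (a (a (a (b (l 535037711) (a (l 533622799) (l 533599247))) (a (b (l 533656079) (l 533570831)) (l 534924815))) (a (a (b (l 533860367) (l 533778447)) (a (l 534066191) (l 534318351))) (a (a (l 534301711) (l 534553359)) (l 4)))) (l 4))), by decide +kernel⟩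

def k5_A00mm_202_s3 : ∃ t, chk3 f_A00mm_202_s3 t 3 5 1 = true :=
  ⟨(a (a (b (a (b (l 16704600) (l 16747016)) (b (b (l 16716784) (l 16733232)) (a (l 16750600) (l 533845263)))) (a (b (l 536092943) (a (l 534852879) (l 534684943))) (b (a (l 534244367) (l 534086415)) (l 535504143)))) (b (a (a (b (l 533779983) (l 533697551)) (b (l 533778447) (l 533551119))) (a (b (l 534037007) (l 533674767)) (b (b (l 533539087) (l 533425167)) (l 534068751)))) (a (b (a (l 533926159) (l 534037007)) (a (l 534174479) (l 4))) (b (a (l 533611791) (l 4)) (l 4))))) (b (a (a (a (b (b (a (l 533527567) (l 533504015)) (l 534209807)) (l 534569743)) (b (b (a (l 533477391) (l 533449231)) (a (l 533377295) (l 4))) (l 4))) (l 4)) (l 4)) (l 4))), by decide +kernel⟩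

def k6_A00mm_202_s3 : ∃ t, chk3 f_A00mm_202_s3 t 1 3 1 = true :=
  ⟨(b (b (a (a (a (b (l 6) (l 16825832)) (b (l 16767656) (l 16833480))) (a (a (b (l 16753752) (l 16773688)) (b (l 16749320) (l 16788096))) (a (b (l 16780784) (b (l 16761848) (l 16778912))) (b (b (l 16770880) (l 535527695)) (l 535815695))))) (a (a (a (b (a (l 535173647) (l 534994959)) (a (l 535533327) (l 535341071))) (b (a (l 534813455) (l 534630159)) (l 4))) (l 4)) (l 4))) (a (a (a (b (l 16852560) (l 16852472)) (a (b (l 16819376) (l 16835032)) (b (l 16801768) (l 34460466103)))) (a (b (a (l 537254671) (b (l 16776600) (l 537171983))) (a (l 537938191) (l 537709583))) (a (b (b (l 536512783) (l 537421327)) (l 537443087)) (b (a (l 536405519) (l 536207631)) (a (l 537212175) (l 4)))))) (a (a (l 4) (l 4)) (l 4)))) (a (a (l 2) (a (l 2) (a (l 2) (l 4)))) (l 4))), by decide +kernel⟩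

theorem t7_A00mm_202_s3 : ∃ t, chk3 f_A00mm_202_s3 t 7 8 1 = true := ex3_b k2_A00mm_202_s3 k3_A00mm_202_s3

theorem t8_A00mm_202_s3 : ∃ t, chk3 f_A00mm_202_s3 t 7 4 1 = true := ex3_b t7_A00mm_202_s3 k4_A00mm_202_s3

theorem t9_A00mm_202_s3 : ∃ t, chk3 f_A00mm_202_s3 t 3 4 1 = true := ex3_a k1_A00mm_202_s3 t8_A00mm_202_s3

theorem t10_A00mm_202_s3 : ∃ t, chk3 f_A00mm_202_s3 t 3 2 1 = true := ex3_b t9_A00mm_202_s3 k5_A00mm_202_s3

theorem t11_A00mm_202_s3 : ∃ t, chk3 f_A00mm_202_s3 t 1 2 1 = true := ex3_a k0_A00mm_202_s3 t10_A00mm_202_s3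

theorem t12_A00mm_202_s3 : ∃ t, chk3 f_A00mm_202_s3 t 1 1 1 = true := ex3_b t11_A00mm_202_s3 k6_A00mm_202_s3

theorem c_A00mm_202_s3 : CertF 0 536870912 0 536870912 402653184 67108864 true false false .pp 2 0 2
    ndF0q2 ndF0q0 pcF2 cut_A00mm_202_s3 xt_A00mm_202_s3 :=
  certF0 (fam := true) (s1 := false) (s2 := false) (a := 2) (b := 0) (c := 2) (cn := .pp) (n1 := ndF0q2) (n2 := ndF0q0) (pc := pcF2) (cut := cut_A00mm_202_s3) (xt := xt_A00mm_202_s3) (P1 := 0) (W1 := 536870912) (P2 := 0) (W2 := 536870912) (P3 := 402653184) (W3 := 67108864)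
    rfl t12_A00mm_202_s3

theorem s_A00mm_202_s3 {κ x : ℝ} (hκ : κ * h0 = ken x) (hx : ((402653184 : ℕ) : ℝ) / S ≤ x)
    (hx' : x ≤ (((402653184 : ℕ) : ℝ) + (67108864 : ℕ)) / S)
    (H : CutA (VF κ) PP tKF tL pcF (Cut.of [[⟨0, 1, 0, 67108864⟩, ⟨1, 0, 0, 67108864⟩, ⟨2, 1, 0, 67108864⟩]]) 2 0 2 0 0 (sgb false) (sgb false) x) :
    AltA (VF κ) PP tKF tL pcF [⟨4, 0, 0, 2845415833⟩] 2 0 2 0 0 (sgb false) (sgb false) x :=
  strip_altA (m := 2845415833) false rfl hκ covF02 covF00 hx hx' c_A00mm_202_s3 H ((okx hx hx').extA (T := tt) (sideF hx hx') hκ rfl rfl (.O 2 false) (.O 0 false) (Or.inl rfl))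

noncomputable def cut_A00mm_203_s1 : Cut := Cut.of [[⟨4, 0, 0, 1449551462⟩]]

noncomputable def f_A00mm_203_s1 : ℕ → ℕ → ℕ → ℕ → Bool := onCell 0 536870912 0 536870912 402653184 67108864
    (rowF 0 true false false .up 2 0 3 (qsf 0 536870912 0 536870912 3) ndF0q2 ndF0q0 pcF3 cut_A00mm_203_s1 Ext.none)

def k0_A00mm_203_s1 : ∃ t, chk3 f_A00mm_203_s1 t 1 1 1 = true :=
  ⟨(l 6), by decide +kernel⟩

theorem c_A00mm_203_s1 : CertF 0 536870912 0 536870912 402653184 67108864 true false false .up 2 0 3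
    ndF0q2 ndF0q0 pcF3 cut_A00mm_203_s1 Ext.none :=
  certF0 (fam := true) (s1 := false) (s2 := false) (a := 2) (b := 0) (c := 3) (cn := .up) (n1 := ndF0q2) (n2 := ndF0q0) (pc := pcF3) (cut := cut_A00mm_203_s1) (xt := Ext.none) (P1 := 0) (W1 := 536870912) (P2 := 0) (W2 := 536870912) (P3 := 402653184) (W3 := 67108864)
    rfl k0_A00mm_203_s1

theorem s_A00mm_203_s1 {κ x : ℝ} (hκ : κ * h0 = ken x) (hx : ((402653184 : ℕ) : ℝ) / S ≤ x)
    (hx' : x ≤ (((402653184 : ℕ) : ℝ) + (67108864 : ℕ)) / S) :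
    AltA (VF κ) PP tKF tL pcF [⟨3, 0, 0, 1449551462⟩] 2 0 3 0 0 (sgb false) (sgb false) x :=
  strip_altA (m := 1449551462) true rfl hκ covF02 covF00 hx hx' c_A00mm_203_s1 cutA_nil (noExt_A)

noncomputable def cut_A00mm_203_s3 : Cut := Cut.of [[⟨3, 0, 0, 2845415833⟩]]

noncomputable def xt_A00mm_203_s3 : Ext := strExt dd true false false .u2 .u0m .s2m .up 2 0 3 rfl rfl gl3 vv ndF0q2 ndF0q0

noncomputable def f_A00mm_203_s3 : ℕ → ℕ → ℕ → ℕ → Bool := onCell 0 536870912 1610612736 536870912 402653184 67108864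
    (rowF 1 true false false .up 2 0 3 (qsf 0 536870912 0 536870912 3) ndF0q2 ndF0q0 pcF3 cut_A00mm_203_s3 xt_A00mm_203_s3)

def k0_A00mm_203_s3 : ∃ t, chk3 f_A00mm_203_s3 t 1 1 1 = true :=
  ⟨(a (b (a (b (a (b (b (l 16789032) (l 16809616)) (a (b (l 16823856) (l 16822616)) (b (l 16810032) (b (l 16808416) (l 16804928))))) (b (a (b (l 16781016) (l 16794848)) (b (b (l 16773872) (l 16781544)) (b (l 16786016) (l 16766792)))) (a (b (b (l 16797624) (l 16796704)) (b (a (l 16797344) (l 16790352)) (a (l 16793232) (l 538249231)))) (b (a (l 537844751) (l 537821199)) (a (b (l 538347023) (b (l 538173455) (l 538230031))) (b (l 538055439) (l 538445071))))))) (b (b (a (b (a (l 16816728) (a (l 16803992) (l 16795824))) (a (l 16810920) (a (l 16797912) (l 538551055)))) (a (a (l 540073743) (l 538413583)) (a (a (l 538376719) (l 4)) (l 4)))) (a (l 2) (l 2))) (l 2))) (b (b (a (a (b (b (l 16774056) (l 536993039)) (l 538456335)) (b (l 536779535) (l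 537323535))) (a (b (l 536712719) (l 4)) (l 4))) (a (a (b (l 537789199) (l 4)) (l 4)) (l 4))) (l 4))) (l 2)) (b (l 4) (l 2))), by decide +kernel⟩

theorem c_A00mm_203_s3 : CertF 0 536870912 0 536870912 402653184 67108864 true false false .up 2 0 3
    ndF0q2 ndF0q0 pcF3 cut_A00mm_203_s3 xt_A00mm_203_s3 :=
  certF1 (fam := true) (s1 := false) (s2 := false) (a := 2) (b := 0) (c := 3) (cn := .up) (n1 := ndF0q2) (n2 := ndF0q0) (pc := pcF3) (cut := cut_A00mm_203_s3) (xt := xt_A00mm_203_s3) (P1 := 0) (W1 := 536870912) (P2 := 0) (W2 := 536870912) (P3 := 402653184) (W3 := 67108864)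
    rfl (fun _ => rfl) k0_A00mm_203_s3

theorem s_A00mm_203_s3 {κ x : ℝ} (hκ : κ * h0 = ken x) (hx : ((402653184 : ℕ) : ℝ) / S ≤ x)
    (hx' : x ≤ (((402653184 : ℕ) : ℝ) + (67108864 : ℕ)) / S) :
    AltA (VF κ) PP tKF tL pcF [⟨4, 0, 0, 2845415833⟩] 2 0 3 0 0 (sgb false) (sgb false) x :=
  strip_altA (m := 2845415833) false rfl hκ covF02 covF00 hx hx' c_A00mm_203_s3 cutA_nil ((okx hx hx').extA (T := tt) (sideF hx hx') hκ rfl rfl (.O 2 false) (.O 0 false) (Or.inr rfl))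

noncomputable def cut_A00mm_213_s1 : Cut := Cut.of [[⟨4, 0, 0, 1449551462⟩]]

noncomputable def f_A00mm_213_s1 : ℕ → ℕ → ℕ → ℕ → Bool := onCell 0 536870912 536870912 536870912 402653184 67108864
    (rowF 0 true false false .pnn 2 1 3 (qsf 0 536870912 536870912 536870912 3) ndF0q2 ndF0q1 pcF3 cut_A00mm_213_s1 Ext.none)

def k0_A00mm_213_s1 : ∃ t, chk3 f_A00mm_213_s1 t 1 1 1 = true :=
  ⟨(l 6), by decide +kernel⟩

theorem c_A00mm_213_s1 : CertF 0 536870912 536870912 536870912 402653184 67108864 true false false .pnn 2 1 3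
    ndF0q2 ndF0q1 pcF3 cut_A00mm_213_s1 Ext.none :=
  certF0 (fam := true) (s1 := false) (s2 := false) (a := 2) (b := 1) (c := 3) (cn := .pnn) (n1 := ndF0q2) (n2 := ndF0q1) (pc := pcF3) (cut := cut_A00mm_213_s1) (xt := Ext.none) (P1 := 0) (W1 := 536870912) (P2 := 536870912) (W2 := 536870912) (P3 := 402653184) (W3 := 67108864)
    rfl k0_A00mm_213_s1

theorem s_A00mm_213_s1 {κ x : ℝ} (hκ : κ * h0 = ken x) (hx : ((402653184 : ℕ) : ℝ) / S ≤ x)
    (hx' : x ≤ (((402653184 : ℕ) : ℝ) + (67108864 : ℕ)) / S) :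
    AltA (VF κ) PP tKF tL pcF [⟨3, 0, 0, 1449551462⟩] 2 1 3 0 0 (sgb false) (sgb false) x :=
  strip_altA (m := 1449551462) true rfl hκ covF02 covF01 hx hx' c_A00mm_213_s1 cutA_nil (noExt_A)

noncomputable def cut_A00mm_213_s3 : Cut := Cut.of [[⟨3, 0, 0, 2845415833⟩]]

noncomputable def xt_A00mm_213_s3 : Ext := strExt dd true false false .u2 .u0m .s2m .pnn 2 1 3 rfl rfl gl3 vv ndF0q2 ndF0q1

noncomputable def f_A00mm_213_s3 : ℕ → ℕ → ℕ → ℕ → Bool := onCell 0 536870912 536870912 536870912 402653184 67108864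
    (rowF 0 true false false .pnn 2 1 3 (qsf 0 536870912 536870912 536870912 3) ndF0q2 ndF0q1 pcF3 cut_A00mm_213_s3 xt_A00mm_213_s3)

def k0_A00mm_213_s3 : ∃ t, chk3 f_A00mm_213_s3 t 1 1 1 = true :=
  ⟨(a (b (b (a (b (a (b (a (b (l 16783960) (b (l 16799424) (l 16774552))) (b (l 538608399) (l 538660879))) (a (b (a (l 538769167) (l 538727183)) (l 538771471)) (b (a (l 538701327) (l 4)) (l 4)))) (b (a (b (a (a (l 538584079) (l 538559247)) (l 4)) (l 4)) (l 4)) (l 4))) (a (b (a (l 538783503) (l 4)) (l 4)) (l 4))) (l 4)) (l 4)) (l 4)) (l 4)), by decide +kernel⟩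

theorem c_A00mm_213_s3 : CertF 0 536870912 536870912 536870912 402653184 67108864 true false false .pnn 2 1 3
    ndF0q2 ndF0q1 pcF3 cut_A00mm_213_s3 xt_A00mm_213_s3 :=
  certF0 (fam := true) (s1 := false) (s2 := false) (a := 2) (b := 1) (c := 3) (cn := .pnn) (n1 := ndF0q2) (n2 := ndF0q1) (pc := pcF3) (cut := cut_A00mm_213_s3) (xt := xt_A00mm_213_s3) (P1 := 0) (W1 := 536870912) (P2 := 536870912) (W2 := 536870912) (P3 := 402653184) (W3 := 67108864)
    rfl k0_A00mm_213_s3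

theorem s_A00mm_213_s3 {κ x : ℝ} (hκ : κ * h0 = ken x) (hx : ((402653184 : ℕ) : ℝ) / S ≤ x)
    (hx' : x ≤ (((402653184 : ℕ) : ℝ) + (67108864 : ℕ)) / S) :
    AltA (VF κ) PP tKF tL pcF [⟨4, 0, 0, 2845415833⟩] 2 1 3 0 0 (sgb false) (sgb false) x :=
  strip_altA (m := 2845415833) false rfl hκ covF02 covF01 hx hx' c_A00mm_213_s3 cutA_nil ((okx hx hx').extA (T := tt) (sideF hx hx') hκ rfl rfl (.O 2 false) (.O 1 false) (Or.inr rfl))

noncomputable def cut_A04pp_001_s1 : Cut := Cut.of [[⟨4, 0, 0, 1449551462⟩]]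

noncomputable def f_A04pp_001_s1 : ℕ → ℕ → ℕ → ℕ → Bool := onCell 0 536870912 0 536870912 402653184 67108864
    (rowF 0 true true true .up 0 0 1 (qsf 0 536870912 0 536870912 1) ndF0q0 ndF4q0 pcF1 cut_A04pp_001_s1 Ext.none)

def k0_A04pp_001_s1 : ∃ t, chk3 f_A04pp_001_s1 t 1 1 1 = true :=
  ⟨(l 4), by decide +kernel⟩

theorem c_A04pp_001_s1 : CertF 0 536870912 0 536870912 402653184 67108864 true true true .up 0 0 1
    ndF0q0 ndF4q0 pcF1 cut_A04pp_001_s1 Ext.none :=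
  certF0 (fam := true) (s1 := true) (s2 := true) (a := 0) (b := 0) (c := 1) (cn := .up) (n1 := ndF0q0) (n2 := ndF4q0) (pc := pcF1) (cut := cut_A04pp_001_s1) (xt := Ext.none) (P1 := 0) (W1 := 536870912) (P2 := 0) (W2 := 536870912) (P3 := 402653184) (W3 := 67108864)
    rfl k0_A04pp_001_s1

theorem s_A04pp_001_s1 {κ x : ℝ} (hκ : κ * h0 = ken x) (hx : ((402653184 : ℕ) : ℝ) / S ≤ x)
    (hx' : x ≤ (((402653184 : ℕ) : ℝ) + (67108864 : ℕ)) / S) :
    AltA (VF κ) PP tKF tL pcF [⟨3, 0, 0, 1449551462⟩] 0 0 1 0 4 (sgb true) (sgb true) x :=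
  strip_altA (m := 1449551462) true rfl hκ covF00 covF40 hx hx' c_A04pp_001_s1 cutA_nil (noExt_A)

noncomputable def cut_A04pp_011_s1 : Cut := Cut.of [[⟨4, 0, 0, 1449551462⟩]]

noncomputable def f_A04pp_011_s1 : ℕ → ℕ → ℕ → ℕ → Bool := onCell 0 536870912 536870912 536870912 402653184 67108864
    (rowF 0 true true true .pnn 0 1 1 (qsf 0 536870912 536870912 536870912 1) ndF0q0 ndF4q1 pcF1 cut_A04pp_011_s1 Ext.none)

def k0_A04pp_011_s1 : ∃ t, chk3 f_A04pp_011_s1 t 1 1 1 = true :=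
  ⟨(l 4), by decide +kernel⟩

theorem c_A04pp_011_s1 : CertF 0 536870912 536870912 536870912 402653184 67108864 true true true .pnn 0 1 1
    ndF0q0 ndF4q1 pcF1 cut_A04pp_011_s1 Ext.none :=
  certF0 (fam := true) (s1 := true) (s2 := true) (a := 0) (b := 1) (c := 1) (cn := .pnn) (n1 := ndF0q0) (n2 := ndF4q1) (pc := pcF1) (cut := cut_A04pp_011_s1) (xt := Ext.none) (P1 := 0) (W1 := 536870912) (P2 := 536870912) (W2 := 536870912) (P3 := 402653184) (W3 := 67108864)
    rfl k0_A04pp_011_s1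

theorem s_A04pp_011_s1 {κ x : ℝ} (hκ : κ * h0 = ken x) (hx : ((402653184 : ℕ) : ℝ) / S ≤ x)
    (hx' : x ≤ (((402653184 : ℕ) : ℝ) + (67108864 : ℕ)) / S) :
    AltA (VF κ) PP tKF tL pcF [⟨3, 0, 0, 1449551462⟩] 0 1 1 0 4 (sgb true) (sgb true) x :=
  strip_altA (m := 1449551462) true rfl hκ covF00 covF41 hx hx' c_A04pp_011_s1 cutA_nil (noExt_A)

noncomputable def cut_A04pp_012_s1 : Cut := Cut.of [[⟨4, 0, 0, 1449551462⟩]]

noncomputable def f_A04pp_012_s1 : ℕ → ℕ → ℕ → ℕ → Bool := onCell 0 536870912 536870912 536870912 402653184 67108864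
    (rowF 0 true true true .pnp 0 1 2 (qsf 0 536870912 536870912 536870912 2) ndF0q0 ndF4q1 pcF2 cut_A04pp_012_s1 Ext.none)

def k0_A04pp_012_s1 : ∃ t, chk3 f_A04pp_012_s1 t 1 1 1 = true :=
  ⟨(l 4), by decide +kernel⟩

theorem c_A04pp_012_s1 : CertF 0 536870912 536870912 536870912 402653184 67108864 true true true .pnp 0 1 2
    ndF0q0 ndF4q1 pcF2 cut_A04pp_012_s1 Ext.none :=
  certF0 (fam := true) (s1 := true) (s2 := true) (a := 0) (b := 1) (c := 2) (cn := .pnp) (n1 := ndF0q0) (n2 := ndF4q1) (pc := pcF2) (cut := cut_A04pp_012_s1) (xt := Ext.none) (P1 := 0) (W1 := 536870912) (P2 := 536870912) (W2 := 536870912) (P3 := 402653184) (W3 := 67108864)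
    rfl k0_A04pp_012_s1

theorem s_A04pp_012_s1 {κ x : ℝ} (hκ : κ * h0 = ken x) (hx : ((402653184 : ℕ) : ℝ) / S ≤ x)
    (hx' : x ≤ (((402653184 : ℕ) : ℝ) + (67108864 : ℕ)) / S) :
    AltA (VF κ) PP tKF tL pcF [⟨3, 0, 0, 1449551462⟩] 0 1 2 0 4 (sgb true) (sgb true) x :=
  strip_altA (m := 1449551462) true rfl hκ covF00 covF41 hx hx' c_A04pp_012_s1 cutA_nil (noExt_A)

noncomputable def cut_A04pp_022_s1 : Cut := Cut.of [[⟨4, 0, 0, 1449551462⟩]]

noncomputable def f_A04pp_022_s1 : ℕ → ℕ → ℕ → ℕ → Bool := onCell 0 536870912 1073741824 536870912 402653184 67108864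
    (rowF 0 true true true .pp 0 2 2 (qsf 0 536870912 1073741824 536870912 2) ndF0q0 ndF4q2 pcF2 cut_A04pp_022_s1 Ext.none)

def k0_A04pp_022_s1 : ∃ t, chk3 f_A04pp_022_s1 t 1 1 1 = true :=
  ⟨(l 4), by decide +kernel⟩

theorem c_A04pp_022_s1 : CertF 0 536870912 1073741824 536870912 402653184 67108864 true true true .pp 0 2 2
    ndF0q0 ndF4q2 pcF2 cut_A04pp_022_s1 Ext.none :=
  certF0 (fam := true) (s1 := true) (s2 := true) (a := 0) (b := 2) (c := 2) (cn := .pp) (n1 := ndF0q0) (n2 := ndF4q2) (pc := pcF2) (cut := cut_A04pp_022_s1) (xt := Ext.none) (P1 := 0) (W1 := 536870912) (P2 := 1073741824) (W2 := 536870912) (P3 := 402653184) (W3 := 67108864)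
    rfl k0_A04pp_022_s1

theorem s_A04pp_022_s1 {κ x : ℝ} (hκ : κ * h0 = ken x) (hx : ((402653184 : ℕ) : ℝ) / S ≤ x)
    (hx' : x ≤ (((402653184 : ℕ) : ℝ) + (67108864 : ℕ)) / S) :
    AltA (VF κ) PP tKF tL pcF [⟨3, 0, 0, 1449551462⟩] 0 2 2 0 4 (sgb true) (sgb true) x :=
  strip_altA (m := 1449551462) true rfl hκ covF00 covF42 hx hx' c_A04pp_022_s1 cutA_nil (noExt_A)

noncomputable def cut_A04pp_023_s1 : Cut := Cut.of [[⟨4, 0, 0, 1449551462⟩]]

noncomputable def f_A04pp_023_s1 : ℕ → ℕ → ℕ → ℕ → Bool := onCell 0 536870912 1073741824 536870912 402653184 67108864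
    (rowF 0 true true true .up 0 2 3 (qsf 0 536870912 1073741824 536870912 3) ndF0q0 ndF4q2 pcF3 cut_A04pp_023_s1 Ext.none)

def k0_A04pp_023_s1 : ∃ t, chk3 f_A04pp_023_s1 t 1 1 1 = true :=
  ⟨(l 4), by decide +kernel⟩

theorem c_A04pp_023_s1 : CertF 0 536870912 1073741824 536870912 402653184 67108864 true true true .up 0 2 3
    ndF0q0 ndF4q2 pcF3 cut_A04pp_023_s1 Ext.none :=
  certF0 (fam := true) (s1 := true) (s2 := true) (a := 0) (b := 2) (c := 3) (cn := .up) (n1 := ndF0q0) (n2 := ndF4q2) (pc := pcF3) (cut := cut_A04pp_023_s1) (xt := Ext.none) (P1 := 0) (W1 := 536870912) (P2 := 1073741824) (W2 := 536870912) (P3 := 402653184) (W3 := 67108864)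
    rfl k0_A04pp_023_s1

theorem s_A04pp_023_s1 {κ x : ℝ} (hκ : κ * h0 = ken x) (hx : ((402653184 : ℕ) : ℝ) / S ≤ x)
    (hx' : x ≤ (((402653184 : ℕ) : ℝ) + (67108864 : ℕ)) / S) :
    AltA (VF κ) PP tKF tL pcF [⟨3, 0, 0, 1449551462⟩] 0 2 3 0 4 (sgb true) (sgb true) x :=
  strip_altA (m := 1449551462) true rfl hκ covF00 covF42 hx hx' c_A04pp_023_s1 cutA_nil (noExt_A)

noncomputable def cut_A04pp_033_s1 : Cut := Cut.of [[⟨4, 0, 0, 1449551462⟩]]

noncomputable def f_A04pp_033_s1 : ℕ → ℕ → ℕ → ℕ → Bool := onCell 0 536870912 0 1230186008 402653184 67108864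
    (rowF 0 true true true .pnn 0 3 3 (qsf 0 536870912 0 1230186008 3) ndF0q0 ndF4q3 pcF3 cut_A04pp_033_s1 Ext.none)

def k0_A04pp_033_s1 : ∃ t, chk3 f_A04pp_033_s1 t 1 1 1 = true :=
  ⟨(l 4), by decide +kernel⟩

theorem c_A04pp_033_s1 : CertF 0 536870912 0 1230186008 402653184 67108864 true true true .pnn 0 3 3
    ndF0q0 ndF4q3 pcF3 cut_A04pp_033_s1 Ext.none :=
  certF0 (fam := true) (s1 := true) (s2 := true) (a := 0) (b := 3) (c := 3) (cn := .pnn) (n1 := ndF0q0) (n2 := ndF4q3) (pc := pcF3) (cut := cut_A04pp_033_s1) (xt := Ext.none) (P1 := 0) (W1 := 536870912) (P2 := 0) (W2 := 1230186008) (P3 := 402653184) (W3 := 67108864)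
    rfl k0_A04pp_033_s1

theorem s_A04pp_033_s1 {κ x : ℝ} (hκ : κ * h0 = ken x) (hx : ((402653184 : ℕ) : ℝ) / S ≤ x)
    (hx' : x ≤ (((402653184 : ℕ) : ℝ) + (67108864 : ℕ)) / S) :
    AltA (VF κ) PP tKF tL pcF [⟨3, 0, 0, 1449551462⟩] 0 3 3 0 4 (sgb true) (sgb true) x :=
  strip_altA (m := 1449551462) true rfl hκ covF00 covF43 hx hx' c_A04pp_033_s1 cutA_nil (noExt_A)

noncomputable def cut_A04pp_101_s1 : Cut := Cut.of [[⟨4, 0, 0, 1449551462⟩]]

noncomputable def f_A04pp_101_s1 : ℕ → ℕ → ℕ → ℕ → Bool := onCell 536870912 536870912 0 536870912 402653184 67108864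
    (rowF 0 true true true .npn 1 0 1 (qsf 536870912 536870912 0 536870912 1) ndF0q1 ndF4q0 pcF1 cut_A04pp_101_s1 Ext.none)

def k0_A04pp_101_s1 : ∃ t, chk3 f_A04pp_101_s1 t 1 1 1 = true :=
  ⟨(l 4), by decide +kernel⟩

theorem c_A04pp_101_s1 : CertF 536870912 536870912 0 536870912 402653184 67108864 true true true .npn 1 0 1
    ndF0q1 ndF4q0 pcF1 cut_A04pp_101_s1 Ext.none :=
  certF0 (fam := true) (s1 := true) (s2 := true) (a := 1) (b := 0) (c := 1) (cn := .npn) (n1 := ndF0q1) (n2 := ndF4q0) (pc := pcF1) (cut := cut_A04pp_101_s1) (xt := Ext.none) (P1 := 536870912) (W1 := 536870912) (P2 := 0) (W2 := 536870912) (P3 := 402653184) (W3 := 67108864)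
    rfl k0_A04pp_101_s1

theorem s_A04pp_101_s1 {κ x : ℝ} (hκ : κ * h0 = ken x) (hx : ((402653184 : ℕ) : ℝ) / S ≤ x)
    (hx' : x ≤ (((402653184 : ℕ) : ℝ) + (67108864 : ℕ)) / S) :
    AltA (VF κ) PP tKF tL pcF [⟨3, 0, 0, 1449551462⟩] 1 0 1 0 4 (sgb true) (sgb true) x :=
  strip_altA (m := 1449551462) true rfl hκ covF01 covF40 hx hx' c_A04pp_101_s1 cutA_nil (noExt_A)

noncomputable def cut_A04pp_102_s1 : Cut := Cut.of [[⟨4, 0, 0, 1449551462⟩]]

noncomputable def f_A04pp_102_s1 : ℕ → ℕ → ℕ → ℕ → Bool := onCell 536870912 536870912 0 536870912 402653184 67108864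
    (rowF 0 true true true .npp 1 0 2 (qsf 536870912 536870912 0 536870912 2) ndF0q1 ndF4q0 pcF2 cut_A04pp_102_s1 Ext.none)

def k0_A04pp_102_s1 : ∃ t, chk3 f_A04pp_102_s1 t 1 1 1 = true :=
  ⟨(l 4), by decide +kernel⟩

theorem c_A04pp_102_s1 : CertF 536870912 536870912 0 536870912 402653184 67108864 true true true .npp 1 0 2
    ndF0q1 ndF4q0 pcF2 cut_A04pp_102_s1 Ext.none :=
  certF0 (fam := true) (s1 := true) (s2 := true) (a := 1) (b := 0) (c := 2) (cn := .npp) (n1 := ndF0q1) (n2 := ndF4q0) (pc := pcF2) (cut := cut_A04pp_102_s1) (xt := Ext.none) (P1 := 536870912) (W1 := 536870912) (P2 := 0) (W2 := 536870912) (P3 := 402653184) (W3 := 67108864)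
    rfl k0_A04pp_102_s1

theorem s_A04pp_102_s1 {κ x : ℝ} (hκ : κ * h0 = ken x) (hx : ((402653184 : ℕ) : ℝ) / S ≤ x)
    (hx' : x ≤ (((402653184 : ℕ) : ℝ) + (67108864 : ℕ)) / S) :
    AltA (VF κ) PP tKF tL pcF [⟨3, 0, 0, 1449551462⟩] 1 0 2 0 4 (sgb true) (sgb true) x :=
  strip_altA (m := 1449551462) true rfl hκ covF01 covF40 hx hx' c_A04pp_102_s1 cutA_nil (noExt_A)

noncomputable def cut_A04pp_112_s1 : Cut := Cut.of [[⟨4, 0, 0, 1449551462⟩]]

noncomputable def f_A04pp_112_s1 : ℕ → ℕ → ℕ → ℕ → Bool := onCell 536870912 536870912 536870912 536870912 402653184 67108864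
    (rowF 0 true true true .dn 1 1 2 (qsf 536870912 536870912 536870912 536870912 2) ndF0q1 ndF4q1 pcF2 cut_A04pp_112_s1 Ext.none)

def k0_A04pp_112_s1 : ∃ t, chk3 f_A04pp_112_s1 t 1 1 1 = true :=
  ⟨(l 4), by decide +kernel⟩

theorem c_A04pp_112_s1 : CertF 536870912 536870912 536870912 536870912 402653184 67108864 true true true .dn 1 1 2
    ndF0q1 ndF4q1 pcF2 cut_A04pp_112_s1 Ext.none :=
  certF0 (fam := true) (s1 := true) (s2 := true) (a := 1) (b := 1) (c := 2) (cn := .dn) (n1 := ndF0q1) (n2 := ndF4q1) (pc := pcF2) (cut := cut_A04pp_112_s1) (xt := Ext.none) (P1 := 536870912) (W1 := 536870912) (P2 := 536870912) (W2 := 536870912) (P3 := 402653184) (W3 := 67108864)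
    rfl k0_A04pp_112_s1

theorem s_A04pp_112_s1 {κ x : ℝ} (hκ : κ * h0 = ken x) (hx : ((402653184 : ℕ) : ℝ) / S ≤ x)
    (hx' : x ≤ (((402653184 : ℕ) : ℝ) + (67108864 : ℕ)) / S) :
    AltA (VF κ) PP tKF tL pcF [⟨3, 0, 0, 1449551462⟩] 1 1 2 0 4 (sgb true) (sgb true) x :=
  strip_altA (m := 1449551462) true rfl hκ covF01 covF41 hx hx' c_A04pp_112_s1 cutA_nil (noExt_A)

noncomputable def cut_A04pp_113_s1 : Cut := Cut.of [[⟨4, 0, 0, 1449551462⟩]]

noncomputable def f_A04pp_113_s1 : ℕ → ℕ → ℕ → ℕ → Bool := onCell 536870912 536870912 536870912 536870912 402653184 67108864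
    (rowF 0 true true true .nn 1 1 3 (qsf 536870912 536870912 536870912 536870912 3) ndF0q1 ndF4q1 pcF3 cut_A04pp_113_s1 Ext.none)

def k0_A04pp_113_s1 : ∃ t, chk3 f_A04pp_113_s1 t 1 1 1 = true :=
  ⟨(l 4), by decide +kernel⟩

theorem c_A04pp_113_s1 : CertF 536870912 536870912 536870912 536870912 402653184 67108864 true true true .nn 1 1 3
    ndF0q1 ndF4q1 pcF3 cut_A04pp_113_s1 Ext.none :=
  certF0 (fam := true) (s1 := true) (s2 := true) (a := 1) (b := 1) (c := 3) (cn := .nn) (n1 := ndF0q1) (n2 := ndF4q1) (pc := pcF3) (cut := cut_A04pp_113_s1) (xt := Ext.none) (P1 := 536870912) (W1 := 536870912) (P2 := 536870912) (W2 := 536870912) (P3 := 402653184) (W3 := 67108864)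
    rfl k0_A04pp_113_s1

theorem s_A04pp_113_s1 {κ x : ℝ} (hκ : κ * h0 = ken x) (hx : ((402653184 : ℕ) : ℝ) / S ≤ x)
    (hx' : x ≤ (((402653184 : ℕ) : ℝ) + (67108864 : ℕ)) / S) :
    AltA (VF κ) PP tKF tL pcF [⟨3, 0, 0, 1449551462⟩] 1 1 3 0 4 (sgb true) (sgb true) x :=
  strip_altA (m := 1449551462) true rfl hκ covF01 covF41 hx hx' c_A04pp_113_s1 cutA_nil (noExt_A)

noncomputable def cut_A04pp_123_s1 : Cut := Cut.of [[⟨4, 0, 0, 1449551462⟩]]

noncomputable def f_A04pp_123_s1 : ℕ → ℕ → ℕ → ℕ → Bool := onCell 536870912 536870912 1073741824 536870912 402653184 67108864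
    (rowF 0 true true true .npn 1 2 3 (qsf 536870912 536870912 1073741824 536870912 3) ndF0q1 ndF4q2 pcF3 cut_A04pp_123_s1 Ext.none)

def k0_A04pp_123_s1 : ∃ t, chk3 f_A04pp_123_s1 t 1 1 1 = true :=
  ⟨(l 4), by decide +kernel⟩

theorem c_A04pp_123_s1 : CertF 536870912 536870912 1073741824 536870912 402653184 67108864 true true true .npn 1 2 3
    ndF0q1 ndF4q2 pcF3 cut_A04pp_123_s1 Ext.none :=
  certF0 (fam := true) (s1 := true) (s2 := true) (a := 1) (b := 2) (c := 3) (cn := .npn) (n1 := ndF0q1) (n2 := ndF4q2) (pc := pcF3) (cut := cut_A04pp_123_s1) (xt := Ext.none) (P1 := 536870912) (W1 := 536870912) (P2 := 1073741824) (W2 := 536870912) (P3 := 402653184) (W3 := 67108864)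
    rfl k0_A04pp_123_s1

theorem s_A04pp_123_s1 {κ x : ℝ} (hκ : κ * h0 = ken x) (hx : ((402653184 : ℕ) : ℝ) / S ≤ x)
    (hx' : x ≤ (((402653184 : ℕ) : ℝ) + (67108864 : ℕ)) / S) :
    AltA (VF κ) PP tKF tL pcF [⟨3, 0, 0, 1449551462⟩] 1 2 3 0 4 (sgb true) (sgb true) x :=
  strip_altA (m := 1449551462) true rfl hκ covF01 covF42 hx hx' c_A04pp_123_s1 cutA_nil (noExt_A)

noncomputable def cut_A04pp_133_s1 : Cut := Cut.of [[⟨4, 0, 0, 1449551462⟩]]

noncomputable def f_A04pp_133_s1 : ℕ → ℕ → ℕ → ℕ → Bool := onCell 536870912 536870912 0 1230186008 402653184 67108864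
    (rowF 0 true true true .dn 1 3 3 (qsf 536870912 536870912 0 1230186008 3) ndF0q1 ndF4q3 pcF3 cut_A04pp_133_s1 Ext.none)

def k0_A04pp_133_s1 : ∃ t, chk3 f_A04pp_133_s1 t 1 1 1 = true :=
  ⟨(l 4), by decide +kernel⟩

theorem c_A04pp_133_s1 : CertF 536870912 536870912 0 1230186008 402653184 67108864 true true true .dn 1 3 3
    ndF0q1 ndF4q3 pcF3 cut_A04pp_133_s1 Ext.none :=
  certF0 (fam := true) (s1 := true) (s2 := true) (a := 1) (b := 3) (c := 3) (cn := .dn) (n1 := ndF0q1) (n2 := ndF4q3) (pc := pcF3) (cut := cut_A04pp_133_s1) (xt := Ext.none) (P1 := 536870912) (W1 := 536870912) (P2 := 0) (W2 := 1230186008) (P3 := 402653184) (W3 := 67108864)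
    rfl k0_A04pp_133_s1

theorem s_A04pp_133_s1 {κ x : ℝ} (hκ : κ * h0 = ken x) (hx : ((402653184 : ℕ) : ℝ) / S ≤ x)
    (hx' : x ≤ (((402653184 : ℕ) : ℝ) + (67108864 : ℕ)) / S) :
    AltA (VF κ) PP tKF tL pcF [⟨3, 0, 0, 1449551462⟩] 1 3 3 0 4 (sgb true) (sgb true) x :=
  strip_altA (m := 1449551462) true rfl hκ covF01 covF43 hx hx' c_A04pp_133_s1 cutA_nil (noExt_A)

noncomputable def cut_A04pp_202_s1 : Cut := Cut.of [[⟨4, 0, 0, 1449551462⟩]]

noncomputable def f_A04pp_202_s1 : ℕ → ℕ → ℕ → ℕ → Bool := onCell 0 536870912 0 536870912 402653184 67108864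
    (rowF 0 true true true .pp 2 0 2 (qsf 0 536870912 0 536870912 2) ndF0q2 ndF4q0 pcF2 cut_A04pp_202_s1 Ext.none)

def k0_A04pp_202_s1 : ∃ t, chk3 f_A04pp_202_s1 t 1 1 1 = true :=
  ⟨(l 4), by decide +kernel⟩

theorem c_A04pp_202_s1 : CertF 0 536870912 0 536870912 402653184 67108864 true true true .pp 2 0 2
    ndF0q2 ndF4q0 pcF2 cut_A04pp_202_s1 Ext.none :=
  certF0 (fam := true) (s1 := true) (s2 := true) (a := 2) (b := 0) (c := 2) (cn := .pp) (n1 := ndF0q2) (n2 := ndF4q0) (pc := pcF2) (cut := cut_A04pp_202_s1) (xt := Ext.none) (P1 := 0) (W1 := 536870912) (P2 := 0) (W2 := 536870912) (P3 := 402653184) (W3 := 67108864)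
    rfl k0_A04pp_202_s1

theorem s_A04pp_202_s1 {κ x : ℝ} (hκ : κ * h0 = ken x) (hx : ((402653184 : ℕ) : ℝ) / S ≤ x)
    (hx' : x ≤ (((402653184 : ℕ) : ℝ) + (67108864 : ℕ)) / S) :
    AltA (VF κ) PP tKF tL pcF [⟨3, 0, 0, 1449551462⟩] 2 0 2 0 4 (sgb true) (sgb true) x :=
  strip_altA (m := 1449551462) true rfl hκ covF02 covF40 hx hx' c_A04pp_202_s1 cutA_nil (noExt_A)

noncomputable def cut_A04pp_203_s1 : Cut := Cut.of [[⟨4, 0, 0, 1449551462⟩]]

noncomputable def f_A04pp_203_s1 : ℕ → ℕ → ℕ → ℕ → Bool := onCell 0 536870912 0 536870912 402653184 67108864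
    (rowF 0 true true true .up 2 0 3 (qsf 0 536870912 0 536870912 3) ndF0q2 ndF4q0 pcF3 cut_A04pp_203_s1 Ext.none)

def k0_A04pp_203_s1 : ∃ t, chk3 f_A04pp_203_s1 t 1 1 1 = true :=
  ⟨(l 4), by decide +kernel⟩

theorem c_A04pp_203_s1 : CertF 0 536870912 0 536870912 402653184 67108864 true true true .up 2 0 3
    ndF0q2 ndF4q0 pcF3 cut_A04pp_203_s1 Ext.none :=
  certF0 (fam := true) (s1 := true) (s2 := true) (a := 2) (b := 0) (c := 3) (cn := .up) (n1 := ndF0q2) (n2 := ndF4q0) (pc := pcF3) (cut := cut_A04pp_203_s1) (xt := Ext.none) (P1 := 0) (W1 := 536870912) (P2 := 0) (W2 := 536870912) (P3 := 402653184) (W3 := 67108864)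
    rfl k0_A04pp_203_s1

theorem s_A04pp_203_s1 {κ x : ℝ} (hκ : κ * h0 = ken x) (hx : ((402653184 : ℕ) : ℝ) / S ≤ x)
    (hx' : x ≤ (((402653184 : ℕ) : ℝ) + (67108864 : ℕ)) / S) :
    AltA (VF κ) PP tKF tL pcF [⟨3, 0, 0, 1449551462⟩] 2 0 3 0 4 (sgb true) (sgb true) x :=
  strip_altA (m := 1449551462) true rfl hκ covF02 covF40 hx hx' c_A04pp_203_s1 cutA_nil (noExt_A)

noncomputable def cut_A04pp_213_s1 : Cut := Cut.of [[⟨4, 0, 0, 1449551462⟩]]

noncomputable def f_A04pp_213_s1 : ℕ → ℕ → ℕ → ℕ → Bool := onCell 0 536870912 536870912 536870912 402653184 67108864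
    (rowF 0 true true true .pnn 2 1 3 (qsf 0 536870912 536870912 536870912 3) ndF0q2 ndF4q1 pcF3 cut_A04pp_213_s1 Ext.none)

def k0_A04pp_213_s1 : ∃ t, chk3 f_A04pp_213_s1 t 1 1 1 = true :=
  ⟨(l 4), by decide +kernel⟩

theorem c_A04pp_213_s1 : CertF 0 536870912 536870912 536870912 402653184 67108864 true true true .pnn 2 1 3
    ndF0q2 ndF4q1 pcF3 cut_A04pp_213_s1 Ext.none :=
  certF0 (fam := true) (s1 := true) (s2 := true) (a := 2) (b := 1) (c := 3) (cn := .pnn) (n1 := ndF0q2) (n2 := ndF4q1) (pc := pcF3) (cut := cut_A04pp_213_s1) (xt := Ext.none) (P1 := 0) (W1 := 536870912) (P2 := 536870912) (W2 := 536870912) (P3 := 402653184) (W3 := 67108864)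
    rfl k0_A04pp_213_s1

theorem s_A04pp_213_s1 {κ x : ℝ} (hκ : κ * h0 = ken x) (hx : ((402653184 : ℕ) : ℝ) / S ≤ x)
    (hx' : x ≤ (((402653184 : ℕ) : ℝ) + (67108864 : ℕ)) / S) :
    AltA (VF κ) PP tKF tL pcF [⟨3, 0, 0, 1449551462⟩] 2 1 3 0 4 (sgb true) (sgb true) x :=
  strip_altA (m := 1449551462) true rfl hκ covF02 covF41 hx hx' c_A04pp_213_s1 cutA_nil (noExt_A)

noncomputable def cut_A04pm_001_s1 : Cut := Cut.of [[⟨4, 0, 0, 1449551462⟩]]

noncomputable def xt_A04pm_001_s1 : Ext := strExt dd true true false .u0 .s0m .u0m .up 0 0 1 rfl rfl gf1 vv ndF0q0 ndF4q0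

noncomputable def f_A04pm_001_s1 : ℕ → ℕ → ℕ → ℕ → Bool := onCell 0 536870912 536870912 536870912 402653184 67108864
    (rowF 1 true true false .up 0 0 1 (qsf 0 536870912 0 536870912 1) ndF0q0 ndF4q0 pcF1 cut_A04pm_001_s1 xt_A04pm_001_s1)

def k0_A04pm_001_s1 : ∃ t, chk3 f_A04pm_001_s1 t 1 1 1 = true :=
  ⟨(a (b (l 3) (b (b (l 3) (l 2)) (l 2))) (b (b (l 3) (a (l 3) (b (a (l 3) (a (b (l 3) (a (l 3) (l 541079823))) (b (b (l 3) (l 541533199)) (l 541217295)))) (a (a (b (l 3) (l 539483151)) (l 540251663)) (a (l 540525327) (b (l 541114127) (l 540536847))))))) (a (b (b (a (a (l 3) (b (l 3) (l 533180943))) (a (b (l 3) (a (l 534627599) (l 535437071))) (b (l 537758735) (l 536492815)))) (a (b (a (l 2) (l 530723599)) (l 2)) (b (a (l 533093391) (l 534906127)) (a (l 530596879) (l 532912911))))) (a (l 2) (b (a (l 2) (b (l 58082622679) (l 2))) (l 2)))) (b (b (a (b (a (l 538636303) (l 539313423)) (a (l 537608207) (l 538462479))) (a (b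 (l 539777807) (l 16812456)) (b (l 16826456) (l 16831776)))) (a (b (a (l 536326671) (l 16786160)) (a (l 534716943) (l 16760544))) (a (b (l 16806080) (l 16785792)) (b (l 16828400) (l 16812968))))) (a (b (b (a (l 16681128) (l 16712248)) (a (l 16585544) (l 16631816))) (a (l 2) (b (l 16506576) (l 2)))) (b (a (b (l 16745976) (l 16678944)) (b (l 16780840) (l 16725376))) (a (b (l 16573968) (l 16416712)) (l 16660688)))))))), by decide +kernel⟩

theorem c_A04pm_001_s1 : CertF 0 536870912 0 536870912 402653184 67108864 true true false .up 0 0 1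
    ndF0q0 ndF4q0 pcF1 cut_A04pm_001_s1 xt_A04pm_001_s1 :=
  certF1 (fam := true) (s1 := true) (s2 := false) (a := 0) (b := 0) (c := 1) (cn := .up) (n1 := ndF0q0) (n2 := ndF4q0) (pc := pcF1) (cut := cut_A04pm_001_s1) (xt := xt_A04pm_001_s1) (P1 := 0) (W1 := 536870912) (P2 := 0) (W2 := 536870912) (P3 := 402653184) (W3 := 67108864)
    rfl (fun _ => rfl) k0_A04pm_001_s1

theorem s_A04pm_001_s1 {κ x : ℝ} (hκ : κ * h0 = ken x) (hx : ((402653184 : ℕ) : ℝ) / S ≤ x)
    (hx' : x ≤ (((402653184 : ℕ) : ℝ) + (67108864 : ℕ)) / S) :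
    AltA (VF κ) PP tKF tL pcF [⟨3, 0, 0, 1449551462⟩] 0 0 1 0 4 (sgb true) (sgb false) x :=
  strip_altA (m := 1449551462) true rfl hκ covF00 covF40 hx hx' c_A04pm_001_s1 cutA_nil ((okx hx hx').extA (T := tt) (sideF hx hx') hκ rfl rfl (.O 0 true) (.N 0 false) (Or.inr rfl))

noncomputable def cut_A04pm_011_s1 : Cut := Cut.of [[⟨4, 0, 0, 1449551462⟩], [⟨0, 0, 0, 67108864⟩, ⟨1, 1, 0, 67108864⟩, ⟨2, 1, 0, 67108864⟩]]

noncomputable def xt_A04pm_011_s1 : Ext := strExt dd true true false .u0 .s0m .u0m .pnn 0 1 1 rfl rfl gf1 vv ndF0q0 ndF4q1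

noncomputable def f_A04pm_011_s1 : ℕ → ℕ → ℕ → ℕ → Bool := onCell 0 536870912 536870912 536870912 402653184 67108864
    (rowF 1 true true false .pnn 0 1 1 (qsf 0 536870912 536870912 536870912 1) ndF0q0 ndF4q1 pcF1 cut_A04pm_011_s1 xt_A04pm_011_s1)

def k0_A04pm_011_s1 : ∃ t, chk3 f_A04pm_011_s1 t 1 2 1 = true :=
  ⟨(a (l 3) (a (b (l 1) (l 3)) (l 1))), by decide +kernel⟩

def k1_A04pm_011_s1 : ∃ t, chk3 f_A04pm_011_s1 t 1 6 1 = true :=
  ⟨(b (a (l 3) (a (a (b (l 3) (a (l 3) (l 533182479))) (a (b (l 1) (l 535036943)) (l 1))) (l 1))) (b (a (l 3) (a (a (a (l 527569423) (l 530727183)) (a (l 533095695) (l 534907407))) (l 1))) (a (a (l 3) (a (l 3) (a (a (l 3) (l 525027855)) (l 525245711)))) (a (a (a (l 525613839) (l 527538703)) (a (l 530601999) (l 532915983))) (a (a (l 16739384) (l 1)) (l 1)))))), by decide +kernel⟩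

def k2_A04pm_011_s1 : ∃ t, chk3 f_A04pm_011_s1 t 2 7 1 = true :=
  ⟨(b (a (b (l 3) (a (l 3) (a (l 3) (a (l 3) (a (l 526375183) (l 526129167)))))) (a (a (b (l 3) (a (b (l 3) (l 524782095)) (b (l 524890639) (l 524869391)))) (b (a (l 524920335) (l 525028879)) (b (l 524749327) (l 525256207)))) (a (b (a (l 525150479) (l 525019919)) (b (l 525269007) (l 525251087))) (b (l 527126031) (l 527181071))))) (a (b (b (a (l 3) (a (a (l 3) (a (l 3) (l 524584975))) (a (l 524607503) (l 524669199)))) (a (a (l 3) (a (l 3) (a (l 3) (a (l 3) (l 524483599))))) (a (a (a (l 525025807) (l 524516111)) (a (l 524542223) (l 524567055))) (a (l 524851215) (l 524635663))))) (a (b (a (b (l 3) (l 14)) (a (a (b (l 3) (a (l 14) (l 524441359))) (a (l 525511439) (l 524718607))) (a (a (l 524461839) (l 524473103)) (a (l 524484111) (l 524494607))))) (a (l 14) (a (a (l 14) (a (l 14) (b (l 524480783) (l 14)))) (a (b (l 525813263) (l 526099215)) (a (l 524509199) (l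 524517647)))))) (a (a (a (b (l 525033231) (l 525321487)) (b (l 524519183) (l 524534799))) (b (a (l 524540687) (l 524561423)) (a (l 524551951) (l 524568335)))) (a (b (l 525107215) (l 525376271)) (b (l 524614927) (l 524607247)))))) (a (a (b (a (l 525229327) (l 525010703)) (a (l 525975311) (l 525210127))) (b (a (l 524841487) (l 524946447)) (a (l 524729103) (l 524805903)))) (a (b (b (l 525176591) (l 16661384)) (b (l 16639640) (l 16606632))) (b (l 525236751) (l 525241615)))))), by decide +kernel⟩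

def k3_A04pm_011_s1 : ∃ t, chk3 f_A04pm_011_s1 t 3 7 1 = true :=
  ⟨(a (a (b (b (a (l 526166031) (l 526356495)) (a (b (l 16693456) (l 16707216)) (l 526430735))) (b (a (l 526097167) (l 526102543)) (a (l 526958095) (l 16569200)))) (b (a (b (l 527369743) (l 526988303)) (b (l 16739200) (l 16638984))) (b (a (l 16606968) (l 16586024)) (a (l 16545216) (l 16442664))))) (b (a (b (a (l 16681960) (l 16712912)) (a (l 16586960) (l 16632920))) (b (l 1) (l 16703168))) (a (b (a (l 16484720) (l 16508368)) (a (l 16428224) (l 16417384))) (b (l 16608032) (l 16464584))))), by decide +kernel⟩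

theorem t4_A04pm_011_s1 : ∃ t, chk3 f_A04pm_011_s1 t 1 7 1 = true := ex3_a k2_A04pm_011_s1 k3_A04pm_011_s1

theorem t5_A04pm_011_s1 : ∃ t, chk3 f_A04pm_011_s1 t 1 3 1 = true := ex3_b k1_A04pm_011_s1 t4_A04pm_011_s1

theorem t6_A04pm_011_s1 : ∃ t, chk3 f_A04pm_011_s1 t 1 1 1 = true := ex3_b k0_A04pm_011_s1 t5_A04pm_011_s1

theorem c_A04pm_011_s1 : CertF 0 536870912 536870912 536870912 402653184 67108864 true true false .pnn 0 1 1
    ndF0q0 ndF4q1 pcF1 cut_A04pm_011_s1 xt_A04pm_011_s1 :=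
  certF1 (fam := true) (s1 := true) (s2 := false) (a := 0) (b := 1) (c := 1) (cn := .pnn) (n1 := ndF0q0) (n2 := ndF4q1) (pc := pcF1) (cut := cut_A04pm_011_s1) (xt := xt_A04pm_011_s1) (P1 := 0) (W1 := 536870912) (P2 := 536870912) (W2 := 536870912) (P3 := 402653184) (W3 := 67108864)
    rfl (fun _ => rfl) t6_A04pm_011_s1

theorem s_A04pm_011_s1 {κ x : ℝ} (hκ : κ * h0 = ken x) (hx : ((402653184 : ℕ) : ℝ) / S ≤ x)
    (hx' : x ≤ (((402653184 : ℕ) : ℝ) + (67108864 : ℕ)) / S)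
    (H : CutA (VF κ) PP tKF tL pcF (Cut.of [[⟨0, 0, 0, 67108864⟩, ⟨1, 1, 0, 67108864⟩, ⟨2, 1, 0, 67108864⟩]]) 0 1 1 0 4 (sgb true) (sgb false) x) :
    AltA (VF κ) PP tKF tL pcF [⟨3, 0, 0, 1449551462⟩] 0 1 1 0 4 (sgb true) (sgb false) x :=
  strip_altA (m := 1449551462) true rfl hκ covF00 covF41 hx hx' c_A04pm_011_s1 H ((okx hx hx').extA (T := tt) (sideF hx hx') hκ rfl rfl (.O 0 true) (.N 1 false) (Or.inr rfl))

noncomputable def cut_A04pm_012_s1 : Cut := Cut.of [[⟨4, 0, 0, 1449551462⟩], [⟨0, 0, 0, 67108864⟩, ⟨1, 1, 0, 67108864⟩, ⟨2, 1, 0, 67108864⟩]]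

noncomputable def f_A04pm_012_s1 : ℕ → ℕ → ℕ → ℕ → Bool := onCell 1073741824 536870912 536870912 536870912 402653184 67108864
    (rowF 2 true true false .pnp 0 1 2 (qsf 0 536870912 536870912 536870912 2) ndF0q0 ndF4q1 pcF2 cut_A04pm_012_s1 Ext.none)

def k0_A04pm_012_s1 : ∃ t, chk3 f_A04pm_012_s1 t 4 2 1 = true :=
  ⟨(b (a (b (a (b (l 16483952) (l 16381112)) (l 6)) (a (b (l 16276896) (l 16373888)) (b (l 16360592) (l 16296304)))) (l 6)) (a (b (a (b (l 16389888) (l 16410760)) (b (l 16309432) (l 16325272))) (a (b (l 16490336) (l 16531464)) (b (l 16429472) (l 16371632)))) (b (a (b (l 16310648) (l 16323728)) (l 6)) (a (b (l 16339240) (l 16358560)) (l 16425120))))), by decide +kernel⟩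

def k1_A04pm_012_s1 : ∃ t, chk3 f_A04pm_012_s1 t 8 3 1 = true :=
  ⟨(b (a (a (b (b (l 16569704) (l 16611816)) (b (l 16649936) (b (l 16634656) (l 16651912)))) (b (l 16560688) (b (l 16593096) (l 16594272)))) (b (b (l 16486024) (l 16520768)) (b (l 16557784) (a (l 16525000) (l 16499072))))) (a (b (a (a (b (b (l 16683384) (l 16700144)) (b (l 16716728) (b (l 16708064) (l 16716216)))) (b (l 16662560) (l 16688808))) (b (a (l 16643240) (l 16670208)) (b (l 16623336) (a (l 16692368) (l 16634032))))) (a (b (b (a (a (b (l 16731608) (l 14)) (l 16721048)) (l 16696632)) (a (l 14) (b (l 16699976) (l 14)))) (l 14)) (b (b (a (l 16689840) (l 16651920)) (a (b (l 16682272) (l 16691000)) (b (l 16664912) (l 16673360)))) (b (b (a (l 14) (l 16681640)) (l 14)) (l 14))))) (b (b (a (l 16626680) (l 16618824)) (a (b (l 16591640) (l 16651336)) (b (l 16560888) (l 16577592)))) (b (b (a (b (l 16622288) (l 16630664)) (l 16635576)) (a (b (l 16638880) (a (l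 16655712) (l 16638264))) (b (l 16605256) (l 16612784)))) (b (a (b (a (l 16663728) (l 16646016)) (a (l 16682072) (l 16653608))) (b (l 16641128) (a (l 16636024) (l 16618792)))) (a (b (a (l 14) (b (l 16659192) (l 14))) (l 14)) (a (b (b (l 16641408) (l 16644952)) (b (l 16648448) (l 14))) (b (l 16646664) (b (l 16630760) (c (l 16638608) (l 16629368))))))))))), by decide +kernel⟩

def k2_A04pm_012_s1 : ∃ t, chk3 f_A04pm_012_s1 t 9 3 1 = true :=
  ⟨(b (b (a (b (l 16381496) (l 16404816)) (b (l 16366744) (l 16384064))) (b (a (l 16516096) (l 16400032)) (a (l 16545904) (l 16420584)))) (b (b (a (b (l 16485120) (l 16584352)) (l 16527480)) (a (b (l 16599648) (a (l 16546272) (l 16515488))) (b (l 16461656) (l 16473680)))) (b (a (b (a (l 16561288) (l 16529320)) (a (b (l 16572152) (l 16579176)) (l 16542688))) (b (a (l 16499512) (l 16472152)) (a (l 16511712) (l 16483160)))) (a (b (a (b (l 16586040) (l 16634680)) (b (l 16552312) (l 16558520)))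 (a (b (a (l 16608144) (l 16590520)) (b (a (l 16613024) (l 16595224)) (a (l 16637200) (l 16598304)))) (b (l 16606512) (a (l 16600064) (l 16561936))))) (b (a (l 16565392) (l 16493744)) (a (b (l 16531848) (b (l 16535904) (l 16538560))) (b (l 16501392) (l 16548224)))))))), by decide +kernel⟩

def k3_A04pm_012_s1 : ∃ t, chk3 f_A04pm_012_s1 t 5 1 1 = true :=
  ⟨(b (b (l 6) (l 6)) (b (a (b (a (a (l 16365304) (l 6)) (l 6)) (a (a (l 16474024) (a (l 16383200) (a (l 16380560) (l 16378968)))) (b (l 6) (l 16374296)))) (l 6)) (a (b (a (a (b (l 16414304) (l 16433104)) (b (a (l 16402488) (l 16396424)) (a (l 16418656) (l 16411160)))) (b (l 16379552) (l 16389056))) (a (b (a (b (l 16447696) (l 16457304)) (a (l 16435792) (b (l 16423016) (l 16430960)))) (a (b (l 16466736) (b (l 16473504) (l 16519824))) (a (b (l 16448512) (l 16456640)) (b (a (l 16440576) (l 16436360)) (a (l 16448224) (b (l 16441928) (l 16487456))))))) (b (b (l 16397672) (l 16403648))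 (b (b (l 16408192) (l 16411176)) (b (l 16456056) (a (l 16430032) (l 16404472))))))) (a (b (l 6) (a (b (l 16371224) (b (l 16376320) (b (l 16378992) (l 16380752)))) (l 6))) (l 6))))), by decide +kernel⟩

def k4_A04pm_012_s1 : ∃ t, chk3 f_A04pm_012_s1 t 3 1 1 = true :=
  ⟨(b (l 6) (l 6)), by decide +kernel⟩

theorem t5_A04pm_012_s1 : ∃ t, chk3 f_A04pm_012_s1 t 4 3 1 = true := ex3_a k1_A04pm_012_s1 k2_A04pm_012_s1

theorem t6_A04pm_012_s1 : ∃ t, chk3 f_A04pm_012_s1 t 4 1 1 = true := ex3_b k0_A04pm_012_s1 t5_A04pm_012_s1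

theorem t7_A04pm_012_s1 : ∃ t, chk3 f_A04pm_012_s1 t 2 1 1 = true := ex3_a t6_A04pm_012_s1 k3_A04pm_012_s1

theorem t8_A04pm_012_s1 : ∃ t, chk3 f_A04pm_012_s1 t 1 1 1 = true := ex3_a t7_A04pm_012_s1 k4_A04pm_012_s1

theorem c_A04pm_012_s1 : CertF 0 536870912 536870912 536870912 402653184 67108864 true true false .pnp 0 1 2
    ndF0q0 ndF4q1 pcF2 cut_A04pm_012_s1 Ext.none :=
  certF2 (fam := true) (s1 := true) (s2 := false) (a := 0) (b := 1) (c := 2) (cn := .pnp) (n1 := ndF0q0) (n2 := ndF4q1) (pc := pcF2) (cut := cut_A04pm_012_s1) (xt := Ext.none) (P1 := 0) (W1 := 536870912) (P2 := 536870912) (W2 := 536870912) (P3 := 402653184) (W3 := 67108864)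
    rfl (fun _ => rfl) t8_A04pm_012_s1

theorem s_A04pm_012_s1 {κ x : ℝ} (hκ : κ * h0 = ken x) (hx : ((402653184 : ℕ) : ℝ) / S ≤ x)
    (hx' : x ≤ (((402653184 : ℕ) : ℝ) + (67108864 : ℕ)) / S)
    (H : CutA (VF κ) PP tKF tL pcF (Cut.of [[⟨0, 0, 0, 67108864⟩, ⟨1, 1, 0, 67108864⟩, ⟨2, 1, 0, 67108864⟩]]) 0 1 2 0 4 (sgb true) (sgb false) x) :
    AltA (VF κ) PP tKF tL pcF [⟨3, 0, 0, 1449551462⟩] 0 1 2 0 4 (sgb true) (sgb false) x :=
  strip_altA (m := 1449551462) true rfl hκ covF00 covF41 hx hx' c_A04pm_012_s1 H (noExt_A)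

noncomputable def cut_A04pm_022_s1 : Cut := Cut.of [[⟨4, 0, 0, 1449551462⟩], [⟨0, 0, 0, 67108864⟩, ⟨1, 1, 0, 67108864⟩, ⟨2, 1, 0, 67108864⟩]]

noncomputable def f_A04pm_022_s1 : ℕ → ℕ → ℕ → ℕ → Bool := onCell 0 536870912 1073741824 536870912 402653184 67108864
    (rowF 0 true true false .pp 0 2 2 (qsf 0 536870912 1073741824 536870912 2) ndF0q0 ndF4q2 pcF2 cut_A04pm_022_s1 Ext.none)

def k0_A04pm_022_s1 : ∃ t, chk3 f_A04pm_022_s1 t 4 2 1 = true :=
  ⟨(b (a (b (a (b (a (l 14) (b (l 14) (b (l 14) (a (l 14) (l 16651968))))) (a (b (a (l 14) (l 16703792)) (a (l 16700856) (l 16673240))) (b (a (l 16644136) (l 16668336)) (l 16641608)))) (b (b (b (a (l 14) (b (a (l 14) (b (l 16633864) (l 16630120))) (a (l 16642304) (l 16624440)))) (a (b (l 14) (l 16674552)) (b (l 16646568) (l 16617752)))) (b (a (a (l 16650552) (l 16632760)) (l 16605896)) (a (l 16667120) (l 16589840)))) (b (a (l 16683800) (l 16565784)) (a (l 16649672) (l 16534096)))))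 (b (a (a (a (c (l 16704152) (l 16701056)) (l 16675656)) (l 16634176)) (b (l 16601936) (a (l 16499528) (b (l 16481424) (l 16553176))))) (a (a (b (l 16649600) (l 16621704)) (a (l 16592568) (b (l 16495536) (l 16547056)))) (a (b (b (l 16476112) (l 16547112)) (l 16521608)) (l 16554272))))) (b (b (a (b (b (a (b (a (l 16635024) (l 16596096)) (l 16639448)) (a (l 16616792) (l 16557848))) (a (l 16628112) (l 16552232))) (a (l 16605536) (l 16531456))) (a (b (b (b (l 16536640) (l 16530152)) (l 16520536)) (l 16501888)) (b (b (l 16544832) (l 16491400)) (b (l 16480488) (a (l 16475664) (a (l 16466776) (l 16545760))))))) (a (b (b (l 16609856) (l 16596032)) (b (l 16582896) (a (l 16497760) (l 16642192)))) (b (b (a (l 16483768) (a (l 16550344) (l 16453536))) (a (a (l 16478048) (l 16551424)) (l 16447712))) (a (b (l 16544808) (l 16448592)) (l 16431352))))) (b (a (a (b (a (l 16483864) (l 16641320)) (l 16534288)) (b (l 16537136) (l 16428744))) (l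 16404560)) (l 16539736)))) (b (a (a (b (a (b (b (l 16515744) (l 16623824)) (l 16604032)) (l 16564448)) (l 16408960)) (l 16427488)) (a (l 16468584) (l 16345480))) (a (b (l 16480152) (l 16438704)) (a (l 16329536) (l 6))))), by decide +kernel⟩

def k1_A04pm_022_s1 : ∃ t, chk3 f_A04pm_022_s1 t 5 2 1 = true :=
  ⟨(b (b (a (b (a (b (b (a (b (l 16477592) (l 16472664)) (a (b (l 16458728) (a (l 16457176) (b (l 16453088) (l 16451280)))) (b (a (b (l 16451512) (a (l 16450920) (l 16448488))) (l 16486552)) (l 16442696)))) (a (a (l 16471392) (b (l 16461704) (a (l 16459952) (l 16455096)))) (a (c (l 16541128) (l 16520880)) (l 16436096)))) (a (b (a (b (l 16464240) (l 16544264)) (l 16533752)) (l 16528832)) (l 16426360))) (b (a (l 16463384) (l 16438120)) (l 16388408))) (a (l 16488784) (l 16357280))) (a (b (a (b (l 16372720) (l 16354440)) (l 6)) (l 6)) (l 6))) (a (b (a (l 16356576) (l 16313872)) (l 16286368)) (l 6))) (b (l 6) (l 6))), by decide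 +kernel⟩

def k2_A04pm_022_s1 : ∃ t, chk3 f_A04pm_022_s1 t 2 3 1 = true :=
  ⟨(b (a (b (a (a (l 16430904) (l 6)) (l 6)) (l 6)) (l 6)) (l 6)), by decide +kernel⟩

def k3_A04pm_022_s1 : ∃ t, chk3 f_A04pm_022_s1 t 3 1 1 = true :=
  ⟨(b (l 6) (l 6)), by decide +kernel⟩

theorem t4_A04pm_022_s1 : ∃ t, chk3 f_A04pm_022_s1 t 2 2 1 = true := ex3_a k0_A04pm_022_s1 k1_A04pm_022_s1

theorem t5_A04pm_022_s1 : ∃ t, chk3 f_A04pm_022_s1 t 2 1 1 = true := ex3_b t4_A04pm_022_s1 k2_A04pm_022_s1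

theorem t6_A04pm_022_s1 : ∃ t, chk3 f_A04pm_022_s1 t 1 1 1 = true := ex3_a t5_A04pm_022_s1 k3_A04pm_022_s1

theorem c_A04pm_022_s1 : CertF 0 536870912 1073741824 536870912 402653184 67108864 true true false .pp 0 2 2
    ndF0q0 ndF4q2 pcF2 cut_A04pm_022_s1 Ext.none :=
  certF0 (fam := true) (s1 := true) (s2 := false) (a := 0) (b := 2) (c := 2) (cn := .pp) (n1 := ndF0q0) (n2 := ndF4q2) (pc := pcF2) (cut := cut_A04pm_022_s1) (xt := Ext.none) (P1 := 0) (W1 := 536870912) (P2 := 1073741824) (W2 := 536870912) (P3 := 402653184) (W3 := 67108864)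
    rfl t6_A04pm_022_s1

theorem s_A04pm_022_s1 {κ x : ℝ} (hκ : κ * h0 = ken x) (hx : ((402653184 : ℕ) : ℝ) / S ≤ x)
    (hx' : x ≤ (((402653184 : ℕ) : ℝ) + (67108864 : ℕ)) / S)
    (H : CutA (VF κ) PP tKF tL pcF (Cut.of [[⟨0, 0, 0, 67108864⟩, ⟨1, 1, 0, 67108864⟩, ⟨2, 1, 0, 67108864⟩]]) 0 2 2 0 4 (sgb true) (sgb false) x) :
    AltA (VF κ) PP tKF tL pcF [⟨3, 0, 0, 1449551462⟩] 0 2 2 0 4 (sgb true) (sgb false) x :=
  strip_altA (m := 1449551462) true rfl hκ covF00 covF42 hx hx' c_A04pm_022_s1 H (noExt_A)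

noncomputable def cut_A04pm_023_s1 : Cut := Cut.of [[⟨4, 0, 0, 1449551462⟩]]

noncomputable def f_A04pm_023_s1 : ℕ → ℕ → ℕ → ℕ → Bool := onCell 1610612736 536870912 1073741824 536870912 402653184 67108864
    (rowF 2 true true false .up 0 2 3 (qsf 0 536870912 1073741824 536870912 3) ndF0q0 ndF4q2 pcF3 cut_A04pm_023_s1 Ext.none)

def k0_A04pm_023_s1 : ∃ t, chk3 f_A04pm_023_s1 t 1 1 1 = true :=
  ⟨(a (l 6) (l 6)), by decide +kernel⟩

theorem c_A04pm_023_s1 : CertF 0 536870912 1073741824 536870912 402653184 67108864 true true false .up 0 2 3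
    ndF0q0 ndF4q2 pcF3 cut_A04pm_023_s1 Ext.none :=
  certF2 (fam := true) (s1 := true) (s2 := false) (a := 0) (b := 2) (c := 3) (cn := .up) (n1 := ndF0q0) (n2 := ndF4q2) (pc := pcF3) (cut := cut_A04pm_023_s1) (xt := Ext.none) (P1 := 0) (W1 := 536870912) (P2 := 1073741824) (W2 := 536870912) (P3 := 402653184) (W3 := 67108864)
    rfl (fun _ => rfl) k0_A04pm_023_s1

theorem s_A04pm_023_s1 {κ x : ℝ} (hκ : κ * h0 = ken x) (hx : ((402653184 : ℕ) : ℝ) / S ≤ x)
    (hx' : x ≤ (((402653184 : ℕ) : ℝ) + (67108864 : ℕ)) / S) :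
    AltA (VF κ) PP tKF tL pcF [⟨3, 0, 0, 1449551462⟩] 0 2 3 0 4 (sgb true) (sgb false) x :=
  strip_altA (m := 1449551462) true rfl hκ covF00 covF42 hx hx' c_A04pm_023_s1 cutA_nil (noExt_A)

noncomputable def cut_A04pm_033_s1 : Cut := Cut.of [[⟨4, 0, 0, 1449551462⟩]]

noncomputable def f_A04pm_033_s1 : ℕ → ℕ → ℕ → ℕ → Bool := onCell 1610612736 536870912 0 1230186008 402653184 67108864
    (rowF 2 true true false .pnn 0 3 3 (qsf 0 536870912 0 1230186008 3) ndF0q0 ndF4q3 pcF3 cut_A04pm_033_s1 Ext.none)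

def k0_A04pm_033_s1 : ∃ t, chk3 f_A04pm_033_s1 t 1 1 1 = true :=
  ⟨(b (l 6) (l 6)), by decide +kernel⟩

theorem c_A04pm_033_s1 : CertF 0 536870912 0 1230186008 402653184 67108864 true true false .pnn 0 3 3
    ndF0q0 ndF4q3 pcF3 cut_A04pm_033_s1 Ext.none :=
  certF2 (fam := true) (s1 := true) (s2 := false) (a := 0) (b := 3) (c := 3) (cn := .pnn) (n1 := ndF0q0) (n2 := ndF4q3) (pc := pcF3) (cut := cut_A04pm_033_s1) (xt := Ext.none) (P1 := 0) (W1 := 536870912) (P2 := 0) (W2 := 1230186008) (P3 := 402653184) (W3 := 67108864)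
    rfl (fun _ => rfl) k0_A04pm_033_s1

theorem s_A04pm_033_s1 {κ x : ℝ} (hκ : κ * h0 = ken x) (hx : ((402653184 : ℕ) : ℝ) / S ≤ x)
    (hx' : x ≤ (((402653184 : ℕ) : ℝ) + (67108864 : ℕ)) / S) :
    AltA (VF κ) PP tKF tL pcF [⟨3, 0, 0, 1449551462⟩] 0 3 3 0 4 (sgb true) (sgb false) x :=
  strip_altA (m := 1449551462) true rfl hκ covF00 covF43 hx hx' c_A04pm_033_s1 cutA_nil (noExt_A)

noncomputable def cut_A04pm_101_s1 : Cut := Cut.of [[⟨4, 0, 0, 1449551462⟩]]

noncomputable def xt_A04pm_101_s1 : Ext := strExt dd true true false .u0 .s0m .u0m .npn 1 0 1 rfl rfl gf1 vv ndF0q1 ndF4q0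

noncomputable def f_A04pm_101_s1 : ℕ → ℕ → ℕ → ℕ → Bool := onCell 536870912 536870912 536870912 536870912 402653184 67108864
    (rowF 1 true true false .npn 1 0 1 (qsf 536870912 536870912 0 536870912 1) ndF0q1 ndF4q0 pcF1 cut_A04pm_101_s1 xt_A04pm_101_s1)

def k0_A04pm_101_s1 : ∃ t, chk3 f_A04pm_101_s1 t 1 1 1 = true :=
  ⟨(a (b (a (b (a (b (l 3) (a (a (l 3) (l 541796111)) (l 541690127))) (b (b (l 1) (a (l 541803279) (l 1))) (a (l 541568783) (l 541429775)))) (a (b (a (b (l 541649167) (b (l 541483279) (l 541253135))) (b (b (l 541485327) (l 541479183)) (b (l 16815216) (l 16824608)))) (a (b (a (l 16813424) (l 16823216)) (l 16834040)) (b (l 16837944) (l 16854000)))) (b (b (a (l 541366287) (l 16840568)) (a (l 16839896) (l 16860032))) (a (b (l 16857784) (l 16874208)) (l 16886896))))) (b (a (b (l 1) (a (b (l 1) (l 16847232)) (l 1))) (l 1)) (a (b (a (b (l 16862832) (l 16880712)) (l 16897472)) (a (l 16907816) (l 16928688))) (b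 (l 185791261111) (l 16965448))))) (b (a (a (b (a (b (l 16846176) (l 16853008)) (b (l 16866936) (l 16875224))) (a (l 16848064) (l 16874512))) (b (a (l 16893704) (l 16915664)) (b (l 16914216) (l 16911840)))) (a (b (a (l 16938192) (l 16960688)) (l 16966992)) (b (l 16993408) (l 17018424)))) (a (b (a (a (l 16794880) (l 16833168)) (a (l 16870192) (l 16905736))) (a (a (l 16644720) (l 16707952)) (a (l 16766800) (l 6)))) (a (b (l 16956672) (l 6)) (l 6))))) (b (a (b (l 1) (a (b (l 1) (l 17030448)) (l 1))) (l 1)) (b (a (a (l 6) (l 6)) (l 6)) (l 6)))), by decide +kernel⟩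

theorem c_A04pm_101_s1 : CertF 536870912 536870912 0 536870912 402653184 67108864 true true false .npn 1 0 1
    ndF0q1 ndF4q0 pcF1 cut_A04pm_101_s1 xt_A04pm_101_s1 :=
  certF1 (fam := true) (s1 := true) (s2 := false) (a := 1) (b := 0) (c := 1) (cn := .npn) (n1 := ndF0q1) (n2 := ndF4q0) (pc := pcF1) (cut := cut_A04pm_101_s1) (xt := xt_A04pm_101_s1) (P1 := 536870912) (W1 := 536870912) (P2 := 0) (W2 := 536870912) (P3 := 402653184) (W3 := 67108864)
    rfl (fun _ => rfl) k0_A04pm_101_s1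

theorem s_A04pm_101_s1 {κ x : ℝ} (hκ : κ * h0 = ken x) (hx : ((402653184 : ℕ) : ℝ) / S ≤ x)
    (hx' : x ≤ (((402653184 : ℕ) : ℝ) + (67108864 : ℕ)) / S) :
    AltA (VF κ) PP tKF tL pcF [⟨3, 0, 0, 1449551462⟩] 1 0 1 0 4 (sgb true) (sgb false) x :=
  strip_altA (m := 1449551462) true rfl hκ covF01 covF40 hx hx' c_A04pm_101_s1 cutA_nil ((okx hx hx').extA (T := tt) (sideF hx hx') hκ rfl rfl (.O 1 true) (.N 0 false) (Or.inr rfl))

noncomputable def cut_A04pm_102_s1 : Cut := Cut.of [[⟨4, 0, 0, 1449551462⟩]]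

noncomputable def f_A04pm_102_s1 : ℕ → ℕ → ℕ → ℕ → Bool := onCell 536870912 536870912 1073741824 536870912 402653184 67108864
    (rowF 1 true true false .npp 1 0 2 (qsf 536870912 536870912 0 536870912 2) ndF0q1 ndF4q0 pcF2 cut_A04pm_102_s1 Ext.none)

def k0_A04pm_102_s1 : ∃ t, chk3 f_A04pm_102_s1 t 1 1 1 = true :=
  ⟨(a (b (a (a (b (b (a (b (l 6) (l 6)) (l 6)) (l 6)) (l 2)) (l 6)) (l 6)) (l 6)) (l 6)), by decide +kernel⟩

theorem c_A04pm_102_s1 : CertF 536870912 536870912 0 536870912 402653184 67108864 true true false .npp 1 0 2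
    ndF0q1 ndF4q0 pcF2 cut_A04pm_102_s1 Ext.none :=
  certF1 (fam := true) (s1 := true) (s2 := false) (a := 1) (b := 0) (c := 2) (cn := .npp) (n1 := ndF0q1) (n2 := ndF4q0) (pc := pcF2) (cut := cut_A04pm_102_s1) (xt := Ext.none) (P1 := 536870912) (W1 := 536870912) (P2 := 0) (W2 := 536870912) (P3 := 402653184) (W3 := 67108864)
    rfl (fun _ => rfl) k0_A04pm_102_s1

theorem s_A04pm_102_s1 {κ x : ℝ} (hκ : κ * h0 = ken x) (hx : ((402653184 : ℕ) : ℝ) / S ≤ x)
    (hx' : x ≤ (((402653184 : ℕ) : ℝ) + (67108864 : ℕ)) / S) :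
    AltA (VF κ) PP tKF tL pcF [⟨3, 0, 0, 1449551462⟩] 1 0 2 0 4 (sgb true) (sgb false) x :=
  strip_altA (m := 1449551462) true rfl hκ covF01 covF40 hx hx' c_A04pm_102_s1 cutA_nil (noExt_A)

noncomputable def cut_A04pm_112_s1 : Cut := Cut.of [[⟨4, 0, 0, 1449551462⟩]]

noncomputable def f_A04pm_112_s1 : ℕ → ℕ → ℕ → ℕ → Bool := onCell 536870912 536870912 536870912 536870912 402653184 67108864
    (rowF 0 true true false .dn 1 1 2 (qsf 536870912 536870912 536870912 536870912 2) ndF0q1 ndF4q1 pcF2 cut_A04pm_112_s1 Ext.none)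

def k0_A04pm_112_s1 : ∃ t, chk3 f_A04pm_112_s1 t 1 1 1 = true :=
  ⟨(a (b (a (a (b (a (b (l 16526088) (l 6)) (l 6)) (l 6)) (l 6)) (l 6)) (l 6)) (l 6)), by decide +kernel⟩

theorem c_A04pm_112_s1 : CertF 536870912 536870912 536870912 536870912 402653184 67108864 true true false .dn 1 1 2
    ndF0q1 ndF4q1 pcF2 cut_A04pm_112_s1 Ext.none :=
  certF0 (fam := true) (s1 := true) (s2 := false) (a := 1) (b := 1) (c := 2) (cn := .dn) (n1 := ndF0q1) (n2 := ndF4q1) (pc := pcF2) (cut := cut_A04pm_112_s1) (xt := Ext.none) (P1 := 536870912) (W1 := 536870912) (P2 := 536870912) (W2 := 536870912) (P3 := 402653184) (W3 := 67108864)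
    rfl k0_A04pm_112_s1

theorem s_A04pm_112_s1 {κ x : ℝ} (hκ : κ * h0 = ken x) (hx : ((402653184 : ℕ) : ℝ) / S ≤ x)
    (hx' : x ≤ (((402653184 : ℕ) : ℝ) + (67108864 : ℕ)) / S) :
    AltA (VF κ) PP tKF tL pcF [⟨3, 0, 0, 1449551462⟩] 1 1 2 0 4 (sgb true) (sgb false) x :=
  strip_altA (m := 1449551462) true rfl hκ covF01 covF41 hx hx' c_A04pm_112_s1 cutA_nil (noExt_A)

noncomputable def cut_A04pm_113_s1 : Cut := Cut.of [[⟨4, 0, 0, 1449551462⟩]]

noncomputable def f_A04pm_113_s1 : ℕ → ℕ → ℕ → ℕ → Bool := onCell 536870912 536870912 1610612736 536870912 402653184 67108864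
    (rowF 1 true true false .nn 1 1 3 (qsf 536870912 536870912 536870912 536870912 3) ndF0q1 ndF4q1 pcF3 cut_A04pm_113_s1 Ext.none)

def k0_A04pm_113_s1 : ∃ t, chk3 f_A04pm_113_s1 t 1 1 1 = true :=
  ⟨(l 6), by decide +kernel⟩

theorem c_A04pm_113_s1 : CertF 536870912 536870912 536870912 536870912 402653184 67108864 true true false .nn 1 1 3
    ndF0q1 ndF4q1 pcF3 cut_A04pm_113_s1 Ext.none :=
  certF1 (fam := true) (s1 := true) (s2 := false) (a := 1) (b := 1) (c := 3) (cn := .nn) (n1 := ndF0q1) (n2 := ndF4q1) (pc := pcF3) (cut := cut_A04pm_113_s1) (xt := Ext.none) (P1 := 536870912) (W1 := 536870912) (P2 := 536870912) (W2 := 536870912) (P3 := 402653184) (W3 := 67108864)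
    rfl (fun _ => rfl) k0_A04pm_113_s1

theorem s_A04pm_113_s1 {κ x : ℝ} (hκ : κ * h0 = ken x) (hx : ((402653184 : ℕ) : ℝ) / S ≤ x)
    (hx' : x ≤ (((402653184 : ℕ) : ℝ) + (67108864 : ℕ)) / S) :
    AltA (VF κ) PP tKF tL pcF [⟨3, 0, 0, 1449551462⟩] 1 1 3 0 4 (sgb true) (sgb false) x :=
  strip_altA (m := 1449551462) true rfl hκ covF01 covF41 hx hx' c_A04pm_113_s1 cutA_nil (noExt_A)

noncomputable def cut_A04pm_123_s1 : Cut := Cut.of [[⟨4, 0, 0, 1449551462⟩]]

noncomputable def f_A04pm_123_s1 : ℕ → ℕ → ℕ → ℕ → Bool := onCell 536870912 536870912 1073741824 536870912 402653184 67108864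
    (rowF 0 true true false .npn 1 2 3 (qsf 536870912 536870912 1073741824 536870912 3) ndF0q1 ndF4q2 pcF3 cut_A04pm_123_s1 Ext.none)

def k0_A04pm_123_s1 : ∃ t, chk3 f_A04pm_123_s1 t 1 1 1 = true :=
  ⟨(l 6), by decide +kernel⟩

theorem c_A04pm_123_s1 : CertF 536870912 536870912 1073741824 536870912 402653184 67108864 true true false .npn 1 2 3
    ndF0q1 ndF4q2 pcF3 cut_A04pm_123_s1 Ext.none :=
  certF0 (fam := true) (s1 := true) (s2 := false) (a := 1) (b := 2) (c := 3) (cn := .npn) (n1 := ndF0q1) (n2 := ndF4q2) (pc := pcF3) (cut := cut_A04pm_123_s1) (xt := Ext.none) (P1 := 536870912) (W1 := 536870912) (P2 := 1073741824) (W2 := 536870912) (P3 := 402653184) (W3 := 67108864)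
    rfl k0_A04pm_123_s1

theorem s_A04pm_123_s1 {κ x : ℝ} (hκ : κ * h0 = ken x) (hx : ((402653184 : ℕ) : ℝ) / S ≤ x)
    (hx' : x ≤ (((402653184 : ℕ) : ℝ) + (67108864 : ℕ)) / S) :
    AltA (VF κ) PP tKF tL pcF [⟨3, 0, 0, 1449551462⟩] 1 2 3 0 4 (sgb true) (sgb false) x :=
  strip_altA (m := 1449551462) true rfl hκ covF01 covF42 hx hx' c_A04pm_123_s1 cutA_nil (noExt_A)

noncomputable def cut_A04pm_133_s1 : Cut := Cut.of [[⟨4, 0, 0, 1449551462⟩]]

noncomputable def f_A04pm_133_s1 : ℕ → ℕ → ℕ → ℕ → Bool := onCell 536870912 536870912 0 1230186008 402653184 67108864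
    (rowF 0 true true false .dn 1 3 3 (qsf 536870912 536870912 0 1230186008 3) ndF0q1 ndF4q3 pcF3 cut_A04pm_133_s1 Ext.none)

def k0_A04pm_133_s1 : ∃ t, chk3 f_A04pm_133_s1 t 1 1 1 = true :=
  ⟨(l 6), by decide +kernel⟩

theorem c_A04pm_133_s1 : CertF 536870912 536870912 0 1230186008 402653184 67108864 true true false .dn 1 3 3
    ndF0q1 ndF4q3 pcF3 cut_A04pm_133_s1 Ext.none :=
  certF0 (fam := true) (s1 := true) (s2 := false) (a := 1) (b := 3) (c := 3) (cn := .dn) (n1 := ndF0q1) (n2 := ndF4q3) (pc := pcF3) (cut := cut_A04pm_133_s1) (xt := Ext.none) (P1 := 536870912) (W1 := 536870912) (P2 := 0) (W2 := 1230186008) (P3 := 402653184) (W3 := 67108864)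
    rfl k0_A04pm_133_s1

theorem s_A04pm_133_s1 {κ x : ℝ} (hκ : κ * h0 = ken x) (hx : ((402653184 : ℕ) : ℝ) / S ≤ x)
    (hx' : x ≤ (((402653184 : ℕ) : ℝ) + (67108864 : ℕ)) / S) :
    AltA (VF κ) PP tKF tL pcF [⟨3, 0, 0, 1449551462⟩] 1 3 3 0 4 (sgb true) (sgb false) x :=
  strip_altA (m := 1449551462) true rfl hκ covF01 covF43 hx hx' c_A04pm_133_s1 cutA_nil (noExt_A)

noncomputable def cut_A04pm_202_s1 : Cut := Cut.of [[⟨4, 0, 0, 1449551462⟩]]

noncomputable def f_A04pm_202_s1 : ℕ → ℕ → ℕ → ℕ → Bool := onCell 0 536870912 0 536870912 402653184 67108864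
    (rowF 0 true true false .pp 2 0 2 (qsf 0 536870912 0 536870912 2) ndF0q2 ndF4q0 pcF2 cut_A04pm_202_s1 Ext.none)

def k0_A04pm_202_s1 : ∃ t, chk3 f_A04pm_202_s1 t 1 1 1 = true :=
  ⟨(l 6), by decide +kernel⟩

theorem c_A04pm_202_s1 : CertF 0 536870912 0 536870912 402653184 67108864 true true false .pp 2 0 2
    ndF0q2 ndF4q0 pcF2 cut_A04pm_202_s1 Ext.none :=
  certF0 (fam := true) (s1 := true) (s2 := false) (a := 2) (b := 0) (c := 2) (cn := .pp) (n1 := ndF0q2) (n2 := ndF4q0) (pc := pcF2) (cut := cut_A04pm_202_s1) (xt := Ext.none) (P1 := 0) (W1 := 536870912) (P2 := 0) (W2 := 536870912) (P3 := 402653184) (W3 := 67108864)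
    rfl k0_A04pm_202_s1

theorem s_A04pm_202_s1 {κ x : ℝ} (hκ : κ * h0 = ken x) (hx : ((402653184 : ℕ) : ℝ) / S ≤ x)
    (hx' : x ≤ (((402653184 : ℕ) : ℝ) + (67108864 : ℕ)) / S) :
    AltA (VF κ) PP tKF tL pcF [⟨3, 0, 0, 1449551462⟩] 2 0 2 0 4 (sgb true) (sgb false) x :=
  strip_altA (m := 1449551462) true rfl hκ covF02 covF40 hx hx' c_A04pm_202_s1 cutA_nil (noExt_A)

noncomputable def cut_A04pm_203_s1 : Cut := Cut.of [[⟨4, 0, 0, 1449551462⟩]]

noncomputable def f_A04pm_203_s1 : ℕ → ℕ → ℕ → ℕ → Bool := onCell 0 536870912 0 536870912 402653184 67108864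
    (rowF 0 true true false .up 2 0 3 (qsf 0 536870912 0 536870912 3) ndF0q2 ndF4q0 pcF3 cut_A04pm_203_s1 Ext.none)

def k0_A04pm_203_s1 : ∃ t, chk3 f_A04pm_203_s1 t 1 1 1 = true :=
  ⟨(l 6), by decide +kernel⟩

theorem c_A04pm_203_s1 : CertF 0 536870912 0 536870912 402653184 67108864 true true false .up 2 0 3
    ndF0q2 ndF4q0 pcF3 cut_A04pm_203_s1 Ext.none :=
  certF0 (fam := true) (s1 := true) (s2 := false) (a := 2) (b := 0) (c := 3) (cn := .up) (n1 := ndF0q2) (n2 := ndF4q0) (pc := pcF3) (cut := cut_A04pm_203_s1) (xt := Ext.none) (P1 := 0) (W1 := 536870912) (P2 := 0) (W2 := 536870912) (P3 := 402653184) (W3 := 67108864)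
    rfl k0_A04pm_203_s1

theorem s_A04pm_203_s1 {κ x : ℝ} (hκ : κ * h0 = ken x) (hx : ((402653184 : ℕ) : ℝ) / S ≤ x)
    (hx' : x ≤ (((402653184 : ℕ) : ℝ) + (67108864 : ℕ)) / S) :
    AltA (VF κ) PP tKF tL pcF [⟨3, 0, 0, 1449551462⟩] 2 0 3 0 4 (sgb true) (sgb false) x :=
  strip_altA (m := 1449551462) true rfl hκ covF02 covF40 hx hx' c_A04pm_203_s1 cutA_nil (noExt_A)

noncomputable def cut_A04pm_213_s1 : Cut := Cut.of [[⟨4, 0, 0, 1449551462⟩]]

noncomputable def f_A04pm_213_s1 : ℕ → ℕ → ℕ → ℕ → Bool := onCell 0 536870912 536870912 536870912 402653184 67108864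
    (rowF 0 true true false .pnn 2 1 3 (qsf 0 536870912 536870912 536870912 3) ndF0q2 ndF4q1 pcF3 cut_A04pm_213_s1 Ext.none)

def k0_A04pm_213_s1 : ∃ t, chk3 f_A04pm_213_s1 t 1 1 1 = true :=
  ⟨(l 6), by decide +kernel⟩

theorem c_A04pm_213_s1 : CertF 0 536870912 536870912 536870912 402653184 67108864 true true false .pnn 2 1 3
    ndF0q2 ndF4q1 pcF3 cut_A04pm_213_s1 Ext.none :=
  certF0 (fam := true) (s1 := true) (s2 := false) (a := 2) (b := 1) (c := 3) (cn := .pnn) (n1 := ndF0q2) (n2 := ndF4q1) (pc := pcF3) (cut := cut_A04pm_213_s1) (xt := Ext.none) (P1 := 0) (W1 := 536870912) (P2 := 536870912) (W2 := 536870912) (P3 := 402653184) (W3 := 67108864)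
    rfl k0_A04pm_213_s1

theorem s_A04pm_213_s1 {κ x : ℝ} (hκ : κ * h0 = ken x) (hx : ((402653184 : ℕ) : ℝ) / S ≤ x)
    (hx' : x ≤ (((402653184 : ℕ) : ℝ) + (67108864 : ℕ)) / S) :
    AltA (VF κ) PP tKF tL pcF [⟨3, 0, 0, 1449551462⟩] 2 1 3 0 4 (sgb true) (sgb false) x :=
  strip_altA (m := 1449551462) true rfl hκ covF02 covF41 hx hx' c_A04pm_213_s1 cutA_nil (noExt_A)

noncomputable def cut_A04mm_001_s1 : Cut := Cut.of [[⟨4, 0, 0, 1449551462⟩]]

noncomputable def f_A04mm_001_s1 : ℕ → ℕ → ℕ → ℕ → Bool := onCell 0 536870912 0 536870912 402653184 67108864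
    (rowF 0 true false false .up 0 0 1 (qsf 0 536870912 0 536870912 1) ndF0q0 ndF4q0 pcF1 cut_A04mm_001_s1 Ext.none)

def k0_A04mm_001_s1 : ∃ t, chk3 f_A04mm_001_s1 t 1 1 1 = true :=
  ⟨(l 4), by decide +kernel⟩

theorem c_A04mm_001_s1 : CertF 0 536870912 0 536870912 402653184 67108864 true false false .up 0 0 1
    ndF0q0 ndF4q0 pcF1 cut_A04mm_001_s1 Ext.none :=
  certF0 (fam := true) (s1 := false) (s2 := false) (a := 0) (b := 0) (c := 1) (cn := .up) (n1 := ndF0q0) (n2 := ndF4q0) (pc := pcF1) (cut := cut_A04mm_001_s1) (xt := Ext.none) (P1 := 0) (W1 := 536870912) (P2 := 0) (W2 := 536870912) (P3 := 402653184) (W3 := 67108864)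
    rfl k0_A04mm_001_s1

theorem s_A04mm_001_s1 {κ x : ℝ} (hκ : κ * h0 = ken x) (hx : ((402653184 : ℕ) : ℝ) / S ≤ x)
    (hx' : x ≤ (((402653184 : ℕ) : ℝ) + (67108864 : ℕ)) / S) :
    AltA (VF κ) PP tKF tL pcF [⟨3, 0, 0, 1449551462⟩] 0 0 1 0 4 (sgb false) (sgb false) x :=
  strip_altA (m := 1449551462) true rfl hκ covF00 covF40 hx hx' c_A04mm_001_s1 cutA_nil (noExt_A)

noncomputable def cut_A04mm_011_s1 : Cut := Cut.of [[⟨4, 0, 0, 1449551462⟩]]

noncomputable def f_A04mm_011_s1 : ℕ → ℕ → ℕ → ℕ → Bool := onCell 0 536870912 536870912 536870912 402653184 67108864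
    (rowF 0 true false false .pnn 0 1 1 (qsf 0 536870912 536870912 536870912 1) ndF0q0 ndF4q1 pcF1 cut_A04mm_011_s1 Ext.none)

def k0_A04mm_011_s1 : ∃ t, chk3 f_A04mm_011_s1 t 1 1 1 = true :=
  ⟨(l 4), by decide +kernel⟩

theorem c_A04mm_011_s1 : CertF 0 536870912 536870912 536870912 402653184 67108864 true false false .pnn 0 1 1
    ndF0q0 ndF4q1 pcF1 cut_A04mm_011_s1 Ext.none :=
  certF0 (fam := true) (s1 := false) (s2 := false) (a := 0) (b := 1) (c := 1) (cn := .pnn) (n1 := ndF0q0) (n2 := ndF4q1) (pc := pcF1) (cut := cut_A04mm_011_s1) (xt := Ext.none) (P1 := 0) (W1 := 536870912) (P2 := 536870912) (W2 := 536870912) (P3 := 402653184) (W3 := 67108864)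
    rfl k0_A04mm_011_s1

theorem s_A04mm_011_s1 {κ x : ℝ} (hκ : κ * h0 = ken x) (hx : ((402653184 : ℕ) : ℝ) / S ≤ x)
    (hx' : x ≤ (((402653184 : ℕ) : ℝ) + (67108864 : ℕ)) / S) :
    AltA (VF κ) PP tKF tL pcF [⟨3, 0, 0, 1449551462⟩] 0 1 1 0 4 (sgb false) (sgb false) x :=
  strip_altA (m := 1449551462) true rfl hκ covF00 covF41 hx hx' c_A04mm_011_s1 cutA_nil (noExt_A)

noncomputable def cut_A04mm_012_s1 : Cut := Cut.of [[⟨4, 0, 0, 1449551462⟩]]

noncomputable def f_A04mm_012_s1 : ℕ → ℕ → ℕ → ℕ → Bool := onCell 0 536870912 536870912 536870912 402653184 67108864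
    (rowF 0 true false false .pnp 0 1 2 (qsf 0 536870912 536870912 536870912 2) ndF0q0 ndF4q1 pcF2 cut_A04mm_012_s1 Ext.none)

def k0_A04mm_012_s1 : ∃ t, chk3 f_A04mm_012_s1 t 1 1 1 = true :=
  ⟨(l 4), by decide +kernel⟩

theorem c_A04mm_012_s1 : CertF 0 536870912 536870912 536870912 402653184 67108864 true false false .pnp 0 1 2
    ndF0q0 ndF4q1 pcF2 cut_A04mm_012_s1 Ext.none :=
  certF0 (fam := true) (s1 := false) (s2 := false) (a := 0) (b := 1) (c := 2) (cn := .pnp) (n1 := ndF0q0) (n2 := ndF4q1) (pc := pcF2) (cut := cut_A04mm_012_s1) (xt := Ext.none) (P1 := 0) (W1 := 536870912) (P2 := 536870912) (W2 := 536870912) (P3 := 402653184) (W3 := 67108864)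
    rfl k0_A04mm_012_s1

theorem s_A04mm_012_s1 {κ x : ℝ} (hκ : κ * h0 = ken x) (hx : ((402653184 : ℕ) : ℝ) / S ≤ x)
    (hx' : x ≤ (((402653184 : ℕ) : ℝ) + (67108864 : ℕ)) / S) :
    AltA (VF κ) PP tKF tL pcF [⟨3, 0, 0, 1449551462⟩] 0 1 2 0 4 (sgb false) (sgb false) x :=
  strip_altA (m := 1449551462) true rfl hκ covF00 covF41 hx hx' c_A04mm_012_s1 cutA_nil (noExt_A)

noncomputable def cut_A04mm_022_s1 : Cut := Cut.of [[⟨4, 0, 0, 1449551462⟩]]

noncomputable def f_A04mm_022_s1 : ℕ → ℕ → ℕ → ℕ → Bool := onCell 0 536870912 1073741824 536870912 402653184 67108864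
    (rowF 0 true false false .pp 0 2 2 (qsf 0 536870912 1073741824 536870912 2) ndF0q0 ndF4q2 pcF2 cut_A04mm_022_s1 Ext.none)

def k0_A04mm_022_s1 : ∃ t, chk3 f_A04mm_022_s1 t 1 1 1 = true :=
  ⟨(l 4), by decide +kernel⟩

theorem c_A04mm_022_s1 : CertF 0 536870912 1073741824 536870912 402653184 67108864 true false false .pp 0 2 2
    ndF0q0 ndF4q2 pcF2 cut_A04mm_022_s1 Ext.none :=
  certF0 (fam := true) (s1 := false) (s2 := false) (a := 0) (b := 2) (c := 2) (cn := .pp) (n1 := ndF0q0) (n2 := ndF4q2) (pc := pcF2) (cut := cut_A04mm_022_s1) (xt := Ext.none) (P1 := 0) (W1 := 536870912) (P2 := 1073741824) (W2 := 536870912) (P3 := 402653184) (W3 := 67108864)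
    rfl k0_A04mm_022_s1

theorem s_A04mm_022_s1 {κ x : ℝ} (hκ : κ * h0 = ken x) (hx : ((402653184 : ℕ) : ℝ) / S ≤ x)
    (hx' : x ≤ (((402653184 : ℕ) : ℝ) + (67108864 : ℕ)) / S) :
    AltA (VF κ) PP tKF tL pcF [⟨3, 0, 0, 1449551462⟩] 0 2 2 0 4 (sgb false) (sgb false) x :=
  strip_altA (m := 1449551462) true rfl hκ covF00 covF42 hx hx' c_A04mm_022_s1 cutA_nil (noExt_A)

noncomputable def cut_A04mm_023_s1 : Cut := Cut.of [[⟨4, 0, 0, 1449551462⟩]]

noncomputable def f_A04mm_023_s1 : ℕ → ℕ → ℕ → ℕ → Bool := onCell 0 536870912 1073741824 536870912 402653184 67108864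
    (rowF 0 true false false .up 0 2 3 (qsf 0 536870912 1073741824 536870912 3) ndF0q0 ndF4q2 pcF3 cut_A04mm_023_s1 Ext.none)

def k0_A04mm_023_s1 : ∃ t, chk3 f_A04mm_023_s1 t 1 1 1 = true :=
  ⟨(l 4), by decide +kernel⟩

theorem c_A04mm_023_s1 : CertF 0 536870912 1073741824 536870912 402653184 67108864 true false false .up 0 2 3
    ndF0q0 ndF4q2 pcF3 cut_A04mm_023_s1 Ext.none :=
  certF0 (fam := true) (s1 := false) (s2 := false) (a := 0) (b := 2) (c := 3) (cn := .up) (n1 := ndF0q0) (n2 := ndF4q2) (pc := pcF3) (cut := cut_A04mm_023_s1) (xt := Ext.none) (P1 := 0) (W1 := 536870912) (P2 := 1073741824) (W2 := 536870912) (P3 := 402653184) (W3 := 67108864)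
    rfl k0_A04mm_023_s1

theorem s_A04mm_023_s1 {κ x : ℝ} (hκ : κ * h0 = ken x) (hx : ((402653184 : ℕ) : ℝ) / S ≤ x)
    (hx' : x ≤ (((402653184 : ℕ) : ℝ) + (67108864 : ℕ)) / S) :
    AltA (VF κ) PP tKF tL pcF [⟨3, 0, 0, 1449551462⟩] 0 2 3 0 4 (sgb false) (sgb false) x :=
  strip_altA (m := 1449551462) true rfl hκ covF00 covF42 hx hx' c_A04mm_023_s1 cutA_nil (noExt_A)

noncomputable def cut_A04mm_033_s1 : Cut := Cut.of [[⟨4, 0, 0, 1449551462⟩]]

noncomputable def f_A04mm_033_s1 : ℕ → ℕ → ℕ → ℕ → Bool := onCell 0 536870912 0 1230186008 402653184 67108864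
    (rowF 0 true false false .pnn 0 3 3 (qsf 0 536870912 0 1230186008 3) ndF0q0 ndF4q3 pcF3 cut_A04mm_033_s1 Ext.none)

def k0_A04mm_033_s1 : ∃ t, chk3 f_A04mm_033_s1 t 1 1 1 = true :=
  ⟨(l 4), by decide +kernel⟩

theorem c_A04mm_033_s1 : CertF 0 536870912 0 1230186008 402653184 67108864 true false false .pnn 0 3 3
    ndF0q0 ndF4q3 pcF3 cut_A04mm_033_s1 Ext.none :=
  certF0 (fam := true) (s1 := false) (s2 := false) (a := 0) (b := 3) (c := 3) (cn := .pnn) (n1 := ndF0q0) (n2 := ndF4q3) (pc := pcF3) (cut := cut_A04mm_033_s1) (xt := Ext.none) (P1 := 0) (W1 := 536870912) (P2 := 0) (W2 := 1230186008) (P3 := 402653184) (W3 := 67108864)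
    rfl k0_A04mm_033_s1

theorem s_A04mm_033_s1 {κ x : ℝ} (hκ : κ * h0 = ken x) (hx : ((402653184 : ℕ) : ℝ) / S ≤ x)
    (hx' : x ≤ (((402653184 : ℕ) : ℝ) + (67108864 : ℕ)) / S) :
    AltA (VF κ) PP tKF tL pcF [⟨3, 0, 0, 1449551462⟩] 0 3 3 0 4 (sgb false) (sgb false) x :=
  strip_altA (m := 1449551462) true rfl hκ covF00 covF43 hx hx' c_A04mm_033_s1 cutA_nil (noExt_A)

noncomputable def cut_A04mm_101_s1 : Cut := Cut.of [[⟨4, 0, 0, 1449551462⟩]]

noncomputable def f_A04mm_101_s1 : ℕ → ℕ → ℕ → ℕ → Bool := onCell 536870912 536870912 0 536870912 402653184 67108864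
    (rowF 0 true false false .npn 1 0 1 (qsf 536870912 536870912 0 536870912 1) ndF0q1 ndF4q0 pcF1 cut_A04mm_101_s1 Ext.none)

def k0_A04mm_101_s1 : ∃ t, chk3 f_A04mm_101_s1 t 1 1 1 = true :=
  ⟨(l 4), by decide +kernel⟩

theorem c_A04mm_101_s1 : CertF 536870912 536870912 0 536870912 402653184 67108864 true false false .npn 1 0 1
    ndF0q1 ndF4q0 pcF1 cut_A04mm_101_s1 Ext.none :=
  certF0 (fam := true) (s1 := false) (s2 := false) (a := 1) (b := 0) (c := 1) (cn := .npn) (n1 := ndF0q1) (n2 := ndF4q0) (pc := pcF1) (cut := cut_A04mm_101_s1) (xt := Ext.none) (P1 := 536870912) (W1 := 536870912) (P2 := 0) (W2 := 536870912) (P3 := 402653184) (W3 := 67108864)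
    rfl k0_A04mm_101_s1

theorem s_A04mm_101_s1 {κ x : ℝ} (hκ : κ * h0 = ken x) (hx : ((402653184 : ℕ) : ℝ) / S ≤ x)
    (hx' : x ≤ (((402653184 : ℕ) : ℝ) + (67108864 : ℕ)) / S) :
    AltA (VF κ) PP tKF tL pcF [⟨3, 0, 0, 1449551462⟩] 1 0 1 0 4 (sgb false) (sgb false) x :=
  strip_altA (m := 1449551462) true rfl hκ covF01 covF40 hx hx' c_A04mm_101_s1 cutA_nil (noExt_A)

noncomputable def cut_A04mm_102_s1 : Cut := Cut.of [[⟨4, 0, 0, 1449551462⟩]]

noncomputable def f_A04mm_102_s1 : ℕ → ℕ → ℕ → ℕ → Bool := onCell 536870912 536870912 0 536870912 402653184 67108864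
    (rowF 0 true false false .npp 1 0 2 (qsf 536870912 536870912 0 536870912 2) ndF0q1 ndF4q0 pcF2 cut_A04mm_102_s1 Ext.none)

def k0_A04mm_102_s1 : ∃ t, chk3 f_A04mm_102_s1 t 1 1 1 = true :=
  ⟨(l 4), by decide +kernel⟩

theorem c_A04mm_102_s1 : CertF 536870912 536870912 0 536870912 402653184 67108864 true false false .npp 1 0 2
    ndF0q1 ndF4q0 pcF2 cut_A04mm_102_s1 Ext.none :=
  certF0 (fam := true) (s1 := false) (s2 := false) (a := 1) (b := 0) (c := 2) (cn := .npp) (n1 := ndF0q1) (n2 := ndF4q0) (pc := pcF2) (cut := cut_A04mm_102_s1) (xt := Ext.none) (P1 := 536870912) (W1 := 536870912) (P2 := 0) (W2 := 536870912) (P3 := 402653184) (W3 := 67108864)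
    rfl k0_A04mm_102_s1

theorem s_A04mm_102_s1 {κ x : ℝ} (hκ : κ * h0 = ken x) (hx : ((402653184 : ℕ) : ℝ) / S ≤ x)
    (hx' : x ≤ (((402653184 : ℕ) : ℝ) + (67108864 : ℕ)) / S) :
    AltA (VF κ) PP tKF tL pcF [⟨3, 0, 0, 1449551462⟩] 1 0 2 0 4 (sgb false) (sgb false) x :=
  strip_altA (m := 1449551462) true rfl hκ covF01 covF40 hx hx' c_A04mm_102_s1 cutA_nil (noExt_A)

noncomputable def cut_A04mm_112_s1 : Cut := Cut.of [[⟨4, 0, 0, 1449551462⟩]]

noncomputable def f_A04mm_112_s1 : ℕ → ℕ → ℕ → ℕ → Bool := onCell 536870912 536870912 536870912 536870912 402653184 67108864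
    (rowF 0 true false false .dn 1 1 2 (qsf 536870912 536870912 536870912 536870912 2) ndF0q1 ndF4q1 pcF2 cut_A04mm_112_s1 Ext.none)

def k0_A04mm_112_s1 : ∃ t, chk3 f_A04mm_112_s1 t 1 1 1 = true :=
  ⟨(l 4), by decide +kernel⟩

theorem c_A04mm_112_s1 : CertF 536870912 536870912 536870912 536870912 402653184 67108864 true false false .dn 1 1 2
    ndF0q1 ndF4q1 pcF2 cut_A04mm_112_s1 Ext.none :=
  certF0 (fam := true) (s1 := false) (s2 := false) (a := 1) (b := 1) (c := 2) (cn := .dn) (n1 := ndF0q1) (n2 := ndF4q1) (pc := pcF2) (cut := cut_A04mm_112_s1) (xt := Ext.none) (P1 := 536870912) (W1 := 536870912) (P2 := 536870912) (W2 := 536870912) (P3 := 402653184) (W3 := 67108864)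
    rfl k0_A04mm_112_s1

theorem s_A04mm_112_s1 {κ x : ℝ} (hκ : κ * h0 = ken x) (hx : ((402653184 : ℕ) : ℝ) / S ≤ x)
    (hx' : x ≤ (((402653184 : ℕ) : ℝ) + (67108864 : ℕ)) / S) :
    AltA (VF κ) PP tKF tL pcF [⟨3, 0, 0, 1449551462⟩] 1 1 2 0 4 (sgb false) (sgb false) x :=
  strip_altA (m := 1449551462) true rfl hκ covF01 covF41 hx hx' c_A04mm_112_s1 cutA_nil (noExt_A)

noncomputable def cut_A04mm_113_s1 : Cut := Cut.of [[⟨4, 0, 0, 1449551462⟩]]

noncomputable def f_A04mm_113_s1 : ℕ → ℕ → ℕ → ℕ → Bool := onCell 536870912 536870912 536870912 536870912 402653184 67108864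
    (rowF 0 true false false .nn 1 1 3 (qsf 536870912 536870912 536870912 536870912 3) ndF0q1 ndF4q1 pcF3 cut_A04mm_113_s1 Ext.none)

def k0_A04mm_113_s1 : ∃ t, chk3 f_A04mm_113_s1 t 1 1 1 = true :=
  ⟨(l 4), by decide +kernel⟩

theorem c_A04mm_113_s1 : CertF 536870912 536870912 536870912 536870912 402653184 67108864 true false false .nn 1 1 3
    ndF0q1 ndF4q1 pcF3 cut_A04mm_113_s1 Ext.none :=
  certF0 (fam := true) (s1 := false) (s2 := false) (a := 1) (b := 1) (c := 3) (cn := .nn) (n1 := ndF0q1) (n2 := ndF4q1) (pc := pcF3) (cut := cut_A04mm_113_s1) (xt := Ext.none) (P1 := 536870912) (W1 := 536870912) (P2 := 536870912) (W2 := 536870912) (P3 := 402653184) (W3 := 67108864)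
    rfl k0_A04mm_113_s1

theorem s_A04mm_113_s1 {κ x : ℝ} (hκ : κ * h0 = ken x) (hx : ((402653184 : ℕ) : ℝ) / S ≤ x)
    (hx' : x ≤ (((402653184 : ℕ) : ℝ) + (67108864 : ℕ)) / S) :
    AltA (VF κ) PP tKF tL pcF [⟨3, 0, 0, 1449551462⟩] 1 1 3 0 4 (sgb false) (sgb false) x :=
  strip_altA (m := 1449551462) true rfl hκ covF01 covF41 hx hx' c_A04mm_113_s1 cutA_nil (noExt_A)

noncomputable def cut_A04mm_123_s1 : Cut := Cut.of [[⟨4, 0, 0, 1449551462⟩]]

noncomputable def f_A04mm_123_s1 : ℕ → ℕ → ℕ → ℕ → Bool := onCell 536870912 536870912 1073741824 536870912 402653184 67108864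
    (rowF 0 true false false .npn 1 2 3 (qsf 536870912 536870912 1073741824 536870912 3) ndF0q1 ndF4q2 pcF3 cut_A04mm_123_s1 Ext.none)

def k0_A04mm_123_s1 : ∃ t, chk3 f_A04mm_123_s1 t 1 1 1 = true :=
  ⟨(l 4), by decide +kernel⟩

theorem c_A04mm_123_s1 : CertF 536870912 536870912 1073741824 536870912 402653184 67108864 true false false .npn 1 2 3
    ndF0q1 ndF4q2 pcF3 cut_A04mm_123_s1 Ext.none :=
  certF0 (fam := true) (s1 := false) (s2 := false) (a := 1) (b := 2) (c := 3) (cn := .npn) (n1 := ndF0q1) (n2 := ndF4q2) (pc := pcF3) (cut := cut_A04mm_123_s1) (xt := Ext.none) (P1 := 536870912) (W1 := 536870912) (P2 := 1073741824) (W2 := 536870912) (P3 := 402653184) (W3 := 67108864)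
    rfl k0_A04mm_123_s1

theorem s_A04mm_123_s1 {κ x : ℝ} (hκ : κ * h0 = ken x) (hx : ((402653184 : ℕ) : ℝ) / S ≤ x)
    (hx' : x ≤ (((402653184 : ℕ) : ℝ) + (67108864 : ℕ)) / S) :
    AltA (VF κ) PP tKF tL pcF [⟨3, 0, 0, 1449551462⟩] 1 2 3 0 4 (sgb false) (sgb false) x :=
  strip_altA (m := 1449551462) true rfl hκ covF01 covF42 hx hx' c_A04mm_123_s1 cutA_nil (noExt_A)

noncomputable def cut_A04mm_133_s1 : Cut := Cut.of [[⟨4, 0, 0, 1449551462⟩]]

noncomputable def f_A04mm_133_s1 : ℕ → ℕ → ℕ → ℕ → Bool := onCell 536870912 536870912 0 1230186008 402653184 67108864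
    (rowF 0 true false false .dn 1 3 3 (qsf 536870912 536870912 0 1230186008 3) ndF0q1 ndF4q3 pcF3 cut_A04mm_133_s1 Ext.none)

def k0_A04mm_133_s1 : ∃ t, chk3 f_A04mm_133_s1 t 1 1 1 = true :=
  ⟨(l 4), by decide +kernel⟩

theorem c_A04mm_133_s1 : CertF 536870912 536870912 0 1230186008 402653184 67108864 true false false .dn 1 3 3
    ndF0q1 ndF4q3 pcF3 cut_A04mm_133_s1 Ext.none :=
  certF0 (fam := true) (s1 := false) (s2 := false) (a := 1) (b := 3) (c := 3) (cn := .dn) (n1 := ndF0q1) (n2 := ndF4q3) (pc := pcF3) (cut := cut_A04mm_133_s1) (xt := Ext.none) (P1 := 536870912) (W1 := 536870912) (P2 := 0) (W2 := 1230186008) (P3 := 402653184) (W3 := 67108864)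
    rfl k0_A04mm_133_s1

theorem s_A04mm_133_s1 {κ x : ℝ} (hκ : κ * h0 = ken x) (hx : ((402653184 : ℕ) : ℝ) / S ≤ x)
    (hx' : x ≤ (((402653184 : ℕ) : ℝ) + (67108864 : ℕ)) / S) :
    AltA (VF κ) PP tKF tL pcF [⟨3, 0, 0, 1449551462⟩] 1 3 3 0 4 (sgb false) (sgb false) x :=
  strip_altA (m := 1449551462) true rfl hκ covF01 covF43 hx hx' c_A04mm_133_s1 cutA_nil (noExt_A)

noncomputable def cut_A04mm_202_s1 : Cut := Cut.of [[⟨4, 0, 0, 1449551462⟩]]

noncomputable def f_A04mm_202_s1 : ℕ → ℕ → ℕ → ℕ → Bool := onCell 0 536870912 0 536870912 402653184 67108864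
    (rowF 0 true false false .pp 2 0 2 (qsf 0 536870912 0 536870912 2) ndF0q2 ndF4q0 pcF2 cut_A04mm_202_s1 Ext.none)

def k0_A04mm_202_s1 : ∃ t, chk3 f_A04mm_202_s1 t 1 1 1 = true :=
  ⟨(l 4), by decide +kernel⟩

theorem c_A04mm_202_s1 : CertF 0 536870912 0 536870912 402653184 67108864 true false false .pp 2 0 2
    ndF0q2 ndF4q0 pcF2 cut_A04mm_202_s1 Ext.none :=
  certF0 (fam := true) (s1 := false) (s2 := false) (a := 2) (b := 0) (c := 2) (cn := .pp) (n1 := ndF0q2) (n2 := ndF4q0) (pc := pcF2) (cut := cut_A04mm_202_s1) (xt := Ext.none) (P1 := 0) (W1 := 536870912) (P2 := 0) (W2 := 536870912) (P3 := 402653184) (W3 := 67108864)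
    rfl k0_A04mm_202_s1

theorem s_A04mm_202_s1 {κ x : ℝ} (hκ : κ * h0 = ken x) (hx : ((402653184 : ℕ) : ℝ) / S ≤ x)
    (hx' : x ≤ (((402653184 : ℕ) : ℝ) + (67108864 : ℕ)) / S) :
    AltA (VF κ) PP tKF tL pcF [⟨3, 0, 0, 1449551462⟩] 2 0 2 0 4 (sgb false) (sgb false) x :=
  strip_altA (m := 1449551462) true rfl hκ covF02 covF40 hx hx' c_A04mm_202_s1 cutA_nil (noExt_A)

noncomputable def cut_A04mm_203_s1 : Cut := Cut.of [[⟨4, 0, 0, 1449551462⟩]]

noncomputable def f_A04mm_203_s1 : ℕ → ℕ → ℕ → ℕ → Bool := onCell 0 536870912 0 536870912 402653184 67108864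
    (rowF 0 true false false .up 2 0 3 (qsf 0 536870912 0 536870912 3) ndF0q2 ndF4q0 pcF3 cut_A04mm_203_s1 Ext.none)

def k0_A04mm_203_s1 : ∃ t, chk3 f_A04mm_203_s1 t 1 1 1 = true :=
  ⟨(l 4), by decide +kernel⟩

theorem c_A04mm_203_s1 : CertF 0 536870912 0 536870912 402653184 67108864 true false false .up 2 0 3
    ndF0q2 ndF4q0 pcF3 cut_A04mm_203_s1 Ext.none :=
  certF0 (fam := true) (s1 := false) (s2 := false) (a := 2) (b := 0) (c := 3) (cn := .up) (n1 := ndF0q2) (n2 := ndF4q0) (pc := pcF3) (cut := cut_A04mm_203_s1) (xt := Ext.none) (P1 := 0) (W1 := 536870912) (P2 := 0) (W2 := 536870912) (P3 := 402653184) (W3 := 67108864)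
    rfl k0_A04mm_203_s1

theorem s_A04mm_203_s1 {κ x : ℝ} (hκ : κ * h0 = ken x) (hx : ((402653184 : ℕ) : ℝ) / S ≤ x)
    (hx' : x ≤ (((402653184 : ℕ) : ℝ) + (67108864 : ℕ)) / S) :
    AltA (VF κ) PP tKF tL pcF [⟨3, 0, 0, 1449551462⟩] 2 0 3 0 4 (sgb false) (sgb false) x :=
  strip_altA (m := 1449551462) true rfl hκ covF02 covF40 hx hx' c_A04mm_203_s1 cutA_nil (noExt_A)

noncomputable def cut_A04mm_213_s1 : Cut := Cut.of [[⟨4, 0, 0, 1449551462⟩]]

noncomputable def f_A04mm_213_s1 : ℕ → ℕ → ℕ → ℕ → Bool := onCell 0 536870912 536870912 536870912 402653184 67108864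
    (rowF 0 true false false .pnn 2 1 3 (qsf 0 536870912 536870912 536870912 3) ndF0q2 ndF4q1 pcF3 cut_A04mm_213_s1 Ext.none)

def k0_A04mm_213_s1 : ∃ t, chk3 f_A04mm_213_s1 t 1 1 1 = true :=
  ⟨(l 4), by decide +kernel⟩

theorem c_A04mm_213_s1 : CertF 0 536870912 536870912 536870912 402653184 67108864 true false false .pnn 2 1 3
    ndF0q2 ndF4q1 pcF3 cut_A04mm_213_s1 Ext.none :=
  certF0 (fam := true) (s1 := false) (s2 := false) (a := 2) (b := 1) (c := 3) (cn := .pnn) (n1 := ndF0q2) (n2 := ndF4q1) (pc := pcF3) (cut := cut_A04mm_213_s1) (xt := Ext.none) (P1 := 0) (W1 := 536870912) (P2 := 536870912) (W2 := 536870912) (P3 := 402653184) (W3 := 67108864)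
    rfl k0_A04mm_213_s1

theorem s_A04mm_213_s1 {κ x : ℝ} (hκ : κ * h0 = ken x) (hx : ((402653184 : ℕ) : ℝ) / S ≤ x)
    (hx' : x ≤ (((402653184 : ℕ) : ℝ) + (67108864 : ℕ)) / S) :
    AltA (VF κ) PP tKF tL pcF [⟨3, 0, 0, 1449551462⟩] 2 1 3 0 4 (sgb false) (sgb false) x :=
  strip_altA (m := 1449551462) true rfl hκ covF02 covF41 hx hx' c_A04mm_213_s1 cutA_nil (noExt_A)

noncomputable def cut_B00pp_001_s1 : Cut := Cut.of [[⟨4, 0, 0, 1449551462⟩]]

noncomputable def f_B00pp_001_s1 : ℕ → ℕ → ℕ → ℕ → Bool := onCell 0 536870912 0 536870912 402653184 67108864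
    (rowF 1 false true true .up 0 0 1 (qsf 0 536870912 536870912 536870912 0) ndF0q0 ndF0q1 pcF0 cut_B00pp_001_s1 Ext.none)

def k0_B00pp_001_s1 : ∃ t, chk3 f_B00pp_001_s1 t 1 1 1 = true :=
  ⟨(l 3), by decide +kernel⟩

theorem c_B00pp_001_s1 : CertF 0 536870912 536870912 536870912 402653184 67108864 false true true .up 0 0 1
    ndF0q0 ndF0q1 pcF0 cut_B00pp_001_s1 Ext.none :=
  certF1 (fam := false) (s1 := true) (s2 := true) (a := 0) (b := 0) (c := 1) (cn := .up) (n1 := ndF0q0) (n2 := ndF0q1) (pc := pcF0) (cut := cut_B00pp_001_s1) (xt := Ext.none) (P1 := 0) (W1 := 536870912) (P2 := 536870912) (W2 := 536870912) (P3 := 402653184) (W3 := 67108864)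
    rfl (fun _ => rfl) k0_B00pp_001_s1

theorem s_B00pp_001_s1 {κ x : ℝ} (hκ : κ * h0 = ken x) (hx : ((402653184 : ℕ) : ℝ) / S ≤ x)
    (hx' : x ≤ (((402653184 : ℕ) : ℝ) + (67108864 : ℕ)) / S) :
    AltB (VF κ) PP tKF tL pcF [⟨3, 0, 0, 1449551462⟩] 0 0 1 0 0 (sgb true) (sgb true) x :=
  strip_altB (m := 1449551462) true rfl hκ covF00 covF01 hx hx' c_B00pp_001_s1 cutB_nil (noExt_B)

noncomputable def cut_B00pp_001_s3 : Cut := Cut.of [[⟨3, 0, 0, 2845415833⟩]]

noncomputable def f_B00pp_001_s3 : ℕ → ℕ → ℕ → ℕ → Bool := onCell 0 536870912 536870912 536870912 402653184 67108864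
    (rowF 0 false true true .up 0 0 1 (qsf 0 536870912 536870912 536870912 0) ndF0q0 ndF0q1 pcF0 cut_B00pp_001_s3 Ext.none)

def k0_B00pp_001_s3 : ∃ t, chk3 f_B00pp_001_s3 t 1 1 1 = true :=
  ⟨(l 6), by decide +kernel⟩

theorem c_B00pp_001_s3 : CertF 0 536870912 536870912 536870912 402653184 67108864 false true true .up 0 0 1
    ndF0q0 ndF0q1 pcF0 cut_B00pp_001_s3 Ext.none :=
  certF0 (fam := false) (s1 := true) (s2 := true) (a := 0) (b := 0) (c := 1) (cn := .up) (n1 := ndF0q0) (n2 := ndF0q1) (pc := pcF0) (cut := cut_B00pp_001_s3) (xt := Ext.none) (P1 := 0) (W1 := 536870912) (P2 := 536870912) (W2 := 536870912) (P3 := 402653184) (W3 := 67108864)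
    rfl k0_B00pp_001_s3

theorem s_B00pp_001_s3 {κ x : ℝ} (hκ : κ * h0 = ken x) (hx : ((402653184 : ℕ) : ℝ) / S ≤ x)
    (hx' : x ≤ (((402653184 : ℕ) : ℝ) + (67108864 : ℕ)) / S) :
    AltB (VF κ) PP tKF tL pcF [⟨4, 0, 0, 2845415833⟩] 0 0 1 0 0 (sgb true) (sgb true) x :=
  strip_altB (m := 2845415833) false rfl hκ covF00 covF01 hx hx' c_B00pp_001_s3 cutB_nil (noExt_B)

noncomputable def cut_B00pp_011_s1 : Cut := Cut.of [[⟨4, 0, 0, 1449551462⟩], [⟨0, 0, 0, 67108864⟩, ⟨1, 1, 0, 67108864⟩, ⟨2, 1, 0, 67108864⟩]]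

noncomputable def f_B00pp_011_s1 : ℕ → ℕ → ℕ → ℕ → Bool := onCell 536870912 536870912 536870912 536870912 402653184 67108864
    (rowF 2 false true true .pnn 0 1 1 (qsf 0 536870912 536870912 536870912 1) ndF0q0 ndF0q1 pcF1 cut_B00pp_011_s1 Ext.none)

def k0_B00pp_011_s1 : ∃ t, chk3 f_B00pp_011_s1 t 1 1 1 = true :=
  ⟨(a (l 3) (b (l 3) (a (l 3) (b (l 3) (b (l 3) (a (l 3) (b (l 3) (a (l 3) (l 14))))))))), by decide +kernel⟩

theorem c_B00pp_011_s1 : CertF 0 536870912 536870912 536870912 402653184 67108864 false true true .pnn 0 1 1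
    ndF0q0 ndF0q1 pcF1 cut_B00pp_011_s1 Ext.none :=
  certF2 (fam := false) (s1 := true) (s2 := true) (a := 0) (b := 1) (c := 1) (cn := .pnn) (n1 := ndF0q0) (n2 := ndF0q1) (pc := pcF1) (cut := cut_B00pp_011_s1) (xt := Ext.none) (P1 := 0) (W1 := 536870912) (P2 := 536870912) (W2 := 536870912) (P3 := 402653184) (W3 := 67108864)
    rfl (fun _ => rfl) k0_B00pp_011_s1

theorem s_B00pp_011_s1 {κ x : ℝ} (hκ : κ * h0 = ken x) (hx : ((402653184 : ℕ) : ℝ) / S ≤ x)
    (hx' : x ≤ (((402653184 : ℕ) : ℝ) + (67108864 : ℕ)) / S)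
    (H : CutB (VF κ) PP tKF tL pcF (Cut.of [[⟨0, 0, 0, 67108864⟩, ⟨1, 1, 0, 67108864⟩, ⟨2, 1, 0, 67108864⟩]]) 0 1 1 0 0 (sgb true) (sgb true) x) :
    AltB (VF κ) PP tKF tL pcF [⟨3, 0, 0, 1449551462⟩] 0 1 1 0 0 (sgb true) (sgb true) x :=
  strip_altB (m := 1449551462) true rfl hκ covF00 covF01 hx hx' c_B00pp_011_s1 H (noExt_B)

noncomputable def cut_B00pp_011_s3 : Cut := Cut.of [[⟨3, 0, 0, 2845415833⟩], [⟨0, 0, 0, 67108864⟩, ⟨1, 1, 0, 67108864⟩, ⟨2, 1, 0, 67108864⟩]]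

noncomputable def f_B00pp_011_s3 : ℕ → ℕ → ℕ → ℕ → Bool := onCell 0 536870912 536870912 536870912 402653184 67108864
    (rowF 0 false true true .pnn 0 1 1 (qsf 0 536870912 536870912 536870912 1) ndF0q0 ndF0q1 pcF1 cut_B00pp_011_s3 Ext.none)

def k0_B00pp_011_s3 : ∃ t, chk3 f_B00pp_011_s3 t 1 1 1 = true :=
  ⟨(l 6), by decide +kernel⟩

theorem c_B00pp_011_s3 : CertF 0 536870912 536870912 536870912 402653184 67108864 false true true .pnn 0 1 1
    ndF0q0 ndF0q1 pcF1 cut_B00pp_011_s3 Ext.none :=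
  certF0 (fam := false) (s1 := true) (s2 := true) (a := 0) (b := 1) (c := 1) (cn := .pnn) (n1 := ndF0q0) (n2 := ndF0q1) (pc := pcF1) (cut := cut_B00pp_011_s3) (xt := Ext.none) (P1 := 0) (W1 := 536870912) (P2 := 536870912) (W2 := 536870912) (P3 := 402653184) (W3 := 67108864)
    rfl k0_B00pp_011_s3

theorem s_B00pp_011_s3 {κ x : ℝ} (hκ : κ * h0 = ken x) (hx : ((402653184 : ℕ) : ℝ) / S ≤ x)
    (hx' : x ≤ (((402653184 : ℕ) : ℝ) + (67108864 : ℕ)) / S)
    (H : CutB (VF κ) PP tKF tL pcF (Cut.of [[⟨0, 0, 0, 67108864⟩, ⟨1, 1, 0, 67108864⟩, ⟨2, 1, 0, 67108864⟩]]) 0 1 1 0 0 (sgb true) (sgb true) x) :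
    AltB (VF κ) PP tKF tL pcF [⟨4, 0, 0, 2845415833⟩] 0 1 1 0 0 (sgb true) (sgb true) x :=
  strip_altB (m := 2845415833) false rfl hκ covF00 covF01 hx hx' c_B00pp_011_s3 H (noExt_B)

end Pool.Agent.Strip051.G.I3_8_7_16.Tab.St.C
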