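import Pool.Agent.Strip051.G.I3_8_7_16.Tab

/-! # Certificates F0 (generated) -/

set_option linter.all false
set_option maxRecDepth 100000

namespace Pool.Agent.Strip051.G.I3_8_7_16.Tab.C.FA00

open Pool.Agent.Strip051.PB Pool.Agent.Strip051.PB.T
open Pool.Agent.Strip051.G.I3_8_7_16.Tab

noncomputable def cut_pp_001 : Cut := Cut.of [[⟨3, 0, 0, 1449551462⟩], [⟨4, 0, 0, 2845415833⟩]]

noncomputable def f_pp_001 : ℕ → ℕ → ℕ → ℕ → Bool := onCell 0 536870912 0 536870912 402653184 67108864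
    (rowF 0 true true true .up 0 0 1 (qsf 0 536870912 0 536870912 1) ndF0q0 ndF0q0 pcF1 cut_pp_001 Ext.none)

def k0_pp_001 : ∃ t, chk3 f_pp_001 t 1 1 1 = true :=
  ⟨(l 4), by decide +kernel⟩

theorem c_pp_001 : CertF 0 536870912 0 536870912 402653184 67108864 true true true .up 0 0 1
    ndF0q0 ndF0q0 pcF1 cut_pp_001 Ext.none :=
  certF0 (fam := true) (s1 := true) (s2 := true) (a := 0) (b := 0) (c := 1) (cn := .up) (n1 := ndF0q0) (n2 := ndF0q0) (pc := pcF1) (cut := cut_pp_001) (xt := Ext.none) (P1 := 0) (W1 := 536870912) (P2 := 0) (W2 := 536870912) (P3 := 402653184) (W3 := 67108864)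
    rfl k0_pp_001

noncomputable def cut_pp_011 : Cut := Cut.of [[⟨3, 0, 0, 1449551462⟩], [⟨4, 0, 0, 2845415833⟩], [⟨0, 0, 0, 67108864⟩, ⟨1, 1, 0, 67108864⟩, ⟨2, 1, 0, 67108864⟩]]

noncomputable def f_pp_011 : ℕ → ℕ → ℕ → ℕ → Bool := onCell 0 536870912 536870912 536870912 402653184 67108864
    (rowF 0 true true true .pnn 0 1 1 (qsf 0 536870912 536870912 536870912 1) ndF0q0 ndF0q1 pcF1 cut_pp_011 Ext.none)

def k0_pp_011 : ∃ t, chk3 f_pp_011 t 1 1 1 = true :=
  ⟨(l 14), by decide +kernel⟩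

theorem c_pp_011 : CertF 0 536870912 536870912 536870912 402653184 67108864 true true true .pnn 0 1 1
    ndF0q0 ndF0q1 pcF1 cut_pp_011 Ext.none :=
  certF0 (fam := true) (s1 := true) (s2 := true) (a := 0) (b := 1) (c := 1) (cn := .pnn) (n1 := ndF0q0) (n2 := ndF0q1) (pc := pcF1) (cut := cut_pp_011) (xt := Ext.none) (P1 := 0) (W1 := 536870912) (P2 := 536870912) (W2 := 536870912) (P3 := 402653184) (W3 := 67108864)
    rfl k0_pp_011

noncomputable def cut_pp_012 : Cut := Cut.of [[⟨3, 0, 0, 1449551462⟩], [⟨4, 0, 0, 2845415833⟩], [⟨0, 0, 0, 67108864⟩, ⟨1, 1, 0, 67108864⟩, ⟨2, 1, 0, 67108864⟩]]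

noncomputable def f_pp_012 : ℕ → ℕ → ℕ → ℕ → Bool := onCell 0 536870912 536870912 536870912 402653184 67108864
    (rowF 0 true true true .pnp 0 1 2 (qsf 0 536870912 536870912 536870912 2) ndF0q0 ndF0q1 pcF2 cut_pp_012 Ext.none)

def k0_pp_012 : ∃ t, chk3 f_pp_012 t 1 1 1 = true :=
  ⟨(l 14), by decide +kernel⟩

theorem c_pp_012 : CertF 0 536870912 536870912 536870912 402653184 67108864 true true true .pnp 0 1 2
    ndF0q0 ndF0q1 pcF2 cut_pp_012 Ext.none :=
  certF0 (fam := true) (s1 := true) (s2 := true) (a := 0) (b := 1) (c := 2) (cn := .pnp) (n1 := ndF0q0) (n2 := ndF0q1) (pc := pcF2) (cut := cut_pp_012) (xt := Ext.none) (P1 := 0) (W1 := 536870912) (P2 := 536870912) (W2 := 536870912) (P3 := 402653184) (W3 := 67108864)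
    rfl k0_pp_012

noncomputable def cut_pp_022 : Cut := Cut.of [[⟨3, 0, 0, 1449551462⟩], [⟨4, 0, 0, 2845415833⟩], [⟨0, 0, 0, 67108864⟩, ⟨1, 1, 0, 67108864⟩, ⟨2, 1, 0, 67108864⟩]]

noncomputable def f_pp_022 : ℕ → ℕ → ℕ → ℕ → Bool := onCell 0 536870912 0 536870912 402653184 67108864
    (rowF 0 true true true .pp 0 2 2 (qsf 0 536870912 0 536870912 2) ndF0q0 ndF0q2 pcF2 cut_pp_022 Ext.none)

def k0_pp_022 : ∃ t, chk3 f_pp_022 t 1 1 1 = true :=
  ⟨(a (b (a (b (a (b (a (l 16468064) (a (l 16490992) (l 16516232))) (a (l 16577712) (l 16519400))) (a (b (l 16553472) (l 16577688)) (b (l 16601304) (l 16591832)))) (a (b (a (a (l 16528920) (l 16547192)) (l 16563472)) (a (a (b (l 16556112) (l 16575488)) (l 16631096)) (a (l 16611944) (l 16613696)))) (a (b (l 16569768) (b (l 16558968) (l 16588680))) (b (l 16613024) (l 16647248))))) (b (a (b (a (l 16646088) (l 16687656)) (a (l 16634072) (l 16672624))) (b (a (l 16726464) (l 16762536)) (a (l 16707856) (l 16739608)))) (a (b (a (l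 16652776) (l 16667616)) (a (c (l 16706864) (l 16704376)) (c (l 16740864) (l 16737304)))) (b (a (l 16699720) (l 16727840)) (l 14))))) (a (b (a (b (a (b (a (l 16594984) (l 16599968)) (a (a (l 16612952) (l 16616328)) (l 16642288))) (a (b (l 16604880) (l 16627960)) (b (l 16609816) (l 16634680)))) (a (b (a (a (b (l 16627680) (l 14)) (l 16657920)) (l 14)) (l 14)) (l 14))) (b (a (b (l 16669768) (l 14)) (l 14)) (l 14))) (l 14)) (l 14))) (b (b (a (a (b (a (l 16795760) (l 16825832)) (a (l 16767656) (l 16812504))) (b (a (l 16852560) (l 16852472)) (l 14))) (l 2)) (l 14)) (l 14))), by decide +kernel⟩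

theorem c_pp_022 : CertF 0 536870912 0 536870912 402653184 67108864 true true true .pp 0 2 2
    ndF0q0 ndF0q2 pcF2 cut_pp_022 Ext.none :=
  certF0 (fam := true) (s1 := true) (s2 := true) (a := 0) (b := 2) (c := 2) (cn := .pp) (n1 := ndF0q0) (n2 := ndF0q2) (pc := pcF2) (cut := cut_pp_022) (xt := Ext.none) (P1 := 0) (W1 := 536870912) (P2 := 0) (W2 := 536870912) (P3 := 402653184) (W3 := 67108864)
    rfl k0_pp_022

noncomputable def cut_pp_023 : Cut := Cut.of [[⟨3, 0, 0, 1449551462⟩], [⟨4, 0, 0, 2845415833⟩]]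

noncomputable def f_pp_023 : ℕ → ℕ → ℕ → ℕ → Bool := onCell 1610612736 536870912 0 536870912 402653184 67108864
    (rowF 2 true true true .up 0 2 3 (qsf 0 536870912 0 536870912 3) ndF0q0 ndF0q2 pcF3 cut_pp_023 Ext.none)

def k0_pp_023 : ∃ t, chk3 f_pp_023 t 1 1 1 = true :=
  ⟨(a (b (a (a (b (b (a (l 16789032) (l 14)) (l 14)) (l 14)) (l 14)) (l 14)) (l 4)) (l 2)), by decide +kernel⟩

theorem c_pp_023 : CertF 0 536870912 0 536870912 402653184 67108864 true true true .up 0 2 3
    ndF0q0 ndF0q2 pcF3 cut_pp_023 Ext.none :=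
  certF2 (fam := true) (s1 := true) (s2 := true) (a := 0) (b := 2) (c := 3) (cn := .up) (n1 := ndF0q0) (n2 := ndF0q2) (pc := pcF3) (cut := cut_pp_023) (xt := Ext.none) (P1 := 0) (W1 := 536870912) (P2 := 0) (W2 := 536870912) (P3 := 402653184) (W3 := 67108864)
    rfl (fun _ => rfl) k0_pp_023

noncomputable def cut_pp_101 : Cut := Cut.of [[⟨3, 0, 0, 1449551462⟩], [⟨4, 0, 0, 2845415833⟩]]

noncomputable def f_pp_101 : ℕ → ℕ → ℕ → ℕ → Bool := onCell 536870912 536870912 0 536870912 402653184 67108864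
    (rowF 0 true true true .npn 1 0 1 (qsf 536870912 536870912 0 536870912 1) ndF0q1 ndF0q0 pcF1 cut_pp_101 Ext.none)

def k0_pp_101 : ∃ t, chk3 f_pp_101 t 1 1 1 = true :=
  ⟨(l 14), by decide +kernel⟩

theorem c_pp_101 : CertF 536870912 536870912 0 536870912 402653184 67108864 true true true .npn 1 0 1
    ndF0q1 ndF0q0 pcF1 cut_pp_101 Ext.none :=
  certF0 (fam := true) (s1 := true) (s2 := true) (a := 1) (b := 0) (c := 1) (cn := .npn) (n1 := ndF0q1) (n2 := ndF0q0) (pc := pcF1) (cut := cut_pp_101) (xt := Ext.none) (P1 := 536870912) (W1 := 536870912) (P2 := 0) (W2 := 536870912) (P3 := 402653184) (W3 := 67108864)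
    rfl k0_pp_101

noncomputable def cut_pp_102 : Cut := Cut.of [[⟨3, 0, 0, 1449551462⟩], [⟨4, 0, 0, 2845415833⟩]]

noncomputable def f_pp_102 : ℕ → ℕ → ℕ → ℕ → Bool := onCell 536870912 536870912 0 536870912 402653184 67108864
    (rowF 0 true true true .npp 1 0 2 (qsf 536870912 536870912 0 536870912 2) ndF0q1 ndF0q0 pcF2 cut_pp_102 Ext.none)

def k0_pp_102 : ∃ t, chk3 f_pp_102 t 1 1 1 = true :=
  ⟨(l 14), by decide +kernel⟩

theorem c_pp_102 : CertF 536870912 536870912 0 536870912 402653184 67108864 true true true .npp 1 0 2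
    ndF0q1 ndF0q0 pcF2 cut_pp_102 Ext.none :=
  certF0 (fam := true) (s1 := true) (s2 := true) (a := 1) (b := 0) (c := 2) (cn := .npp) (n1 := ndF0q1) (n2 := ndF0q0) (pc := pcF2) (cut := cut_pp_102) (xt := Ext.none) (P1 := 536870912) (W1 := 536870912) (P2 := 0) (W2 := 536870912) (P3 := 402653184) (W3 := 67108864)
    rfl k0_pp_102

noncomputable def cut_pp_112 : Cut := Cut.of [[⟨3, 0, 0, 1449551462⟩], [⟨4, 0, 0, 2845415833⟩]]

noncomputable def f_pp_112 : ℕ → ℕ → ℕ → ℕ → Bool := onCell 536870912 536870912 536870912 536870912 402653184 67108864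
    (rowF 0 true true true .dn 1 1 2 (qsf 536870912 536870912 536870912 536870912 2) ndF0q1 ndF0q1 pcF2 cut_pp_112 Ext.none)

def k0_pp_112 : ∃ t, chk3 f_pp_112 t 1 1 1 = true :=
  ⟨(l 4), by decide +kernel⟩

theorem c_pp_112 : CertF 536870912 536870912 536870912 536870912 402653184 67108864 true true true .dn 1 1 2
    ndF0q1 ndF0q1 pcF2 cut_pp_112 Ext.none :=
  certF0 (fam := true) (s1 := true) (s2 := true) (a := 1) (b := 1) (c := 2) (cn := .dn) (n1 := ndF0q1) (n2 := ndF0q1) (pc := pcF2) (cut := cut_pp_112) (xt := Ext.none) (P1 := 536870912) (W1 := 536870912) (P2 := 536870912) (W2 := 536870912) (P3 := 402653184) (W3 := 67108864)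
    rfl k0_pp_112

noncomputable def cut_pp_113 : Cut := Cut.of [[⟨3, 0, 0, 1449551462⟩], [⟨4, 0, 0, 2845415833⟩]]

noncomputable def f_pp_113 : ℕ → ℕ → ℕ → ℕ → Bool := onCell 536870912 536870912 536870912 536870912 402653184 67108864
    (rowF 0 true true true .nn 1 1 3 (qsf 536870912 536870912 536870912 536870912 3) ndF0q1 ndF0q1 pcF3 cut_pp_113 Ext.none)

def k0_pp_113 : ∃ t, chk3 f_pp_113 t 1 1 1 = true :=
  ⟨(l 4), by decide +kernel⟩

theorem c_pp_113 : CertF 536870912 536870912 536870912 536870912 402653184 67108864 true true true .nn 1 1 3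
    ndF0q1 ndF0q1 pcF3 cut_pp_113 Ext.none :=
  certF0 (fam := true) (s1 := true) (s2 := true) (a := 1) (b := 1) (c := 3) (cn := .nn) (n1 := ndF0q1) (n2 := ndF0q1) (pc := pcF3) (cut := cut_pp_113) (xt := Ext.none) (P1 := 536870912) (W1 := 536870912) (P2 := 536870912) (W2 := 536870912) (P3 := 402653184) (W3 := 67108864)
    rfl k0_pp_113

noncomputable def cut_pp_123 : Cut := Cut.of [[⟨3, 0, 0, 1449551462⟩], [⟨4, 0, 0, 2845415833⟩]]

noncomputable def f_pp_123 : ℕ → ℕ → ℕ → ℕ → Bool := onCell 536870912 536870912 0 536870912 402653184 67108864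
    (rowF 0 true true true .npn 1 2 3 (qsf 536870912 536870912 0 536870912 3) ndF0q1 ndF0q2 pcF3 cut_pp_123 Ext.none)

def k0_pp_123 : ∃ t, chk3 f_pp_123 t 1 1 1 = true :=
  ⟨(a (l 14) (l 4)), by decide +kernel⟩

theorem c_pp_123 : CertF 536870912 536870912 0 536870912 402653184 67108864 true true true .npn 1 2 3
    ndF0q1 ndF0q2 pcF3 cut_pp_123 Ext.none :=
  certF0 (fam := true) (s1 := true) (s2 := true) (a := 1) (b := 2) (c := 3) (cn := .npn) (n1 := ndF0q1) (n2 := ndF0q2) (pc := pcF3) (cut := cut_pp_123) (xt := Ext.none) (P1 := 536870912) (W1 := 536870912) (P2 := 0) (W2 := 536870912) (P3 := 402653184) (W3 := 67108864)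
    rfl k0_pp_123

noncomputable def cut_pp_202 : Cut := Cut.of [[⟨3, 0, 0, 1449551462⟩], [⟨4, 0, 0, 2845415833⟩]]

noncomputable def f_pp_202 : ℕ → ℕ → ℕ → ℕ → Bool := onCell 0 536870912 0 536870912 402653184 67108864
    (rowF 0 true true true .pp 2 0 2 (qsf 0 536870912 0 536870912 2) ndF0q2 ndF0q0 pcF2 cut_pp_202 Ext.none)

def k0_pp_202 : ∃ t, chk3 f_pp_202 t 1 1 1 = true :=
  ⟨(l 5), by decide +kernel⟩

theorem c_pp_202 : CertF 0 536870912 0 536870912 402653184 67108864 true true true .pp 2 0 2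
    ndF0q2 ndF0q0 pcF2 cut_pp_202 Ext.none :=
  certF0 (fam := true) (s1 := true) (s2 := true) (a := 2) (b := 0) (c := 2) (cn := .pp) (n1 := ndF0q2) (n2 := ndF0q0) (pc := pcF2) (cut := cut_pp_202) (xt := Ext.none) (P1 := 0) (W1 := 536870912) (P2 := 0) (W2 := 536870912) (P3 := 402653184) (W3 := 67108864)
    rfl k0_pp_202

noncomputable def cut_pp_203 : Cut := Cut.of [[⟨3, 0, 0, 1449551462⟩], [⟨4, 0, 0, 2845415833⟩]]

noncomputable def f_pp_203 : ℕ → ℕ → ℕ → ℕ → Bool := onCell 0 536870912 0 536870912 402653184 67108864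
    (rowF 0 true true true .up 2 0 3 (qsf 0 536870912 0 536870912 3) ndF0q2 ndF0q0 pcF3 cut_pp_203 Ext.none)

def k0_pp_203 : ∃ t, chk3 f_pp_203 t 1 1 1 = true :=
  ⟨(l 5), by decide +kernel⟩

theorem c_pp_203 : CertF 0 536870912 0 536870912 402653184 67108864 true true true .up 2 0 3
    ndF0q2 ndF0q0 pcF3 cut_pp_203 Ext.none :=
  certF0 (fam := true) (s1 := true) (s2 := true) (a := 2) (b := 0) (c := 3) (cn := .up) (n1 := ndF0q2) (n2 := ndF0q0) (pc := pcF3) (cut := cut_pp_203) (xt := Ext.none) (P1 := 0) (W1 := 536870912) (P2 := 0) (W2 := 536870912) (P3 := 402653184) (W3 := 67108864)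
    rfl k0_pp_203

noncomputable def cut_pp_213 : Cut := Cut.of [[⟨3, 0, 0, 1449551462⟩], [⟨4, 0, 0, 2845415833⟩]]

noncomputable def f_pp_213 : ℕ → ℕ → ℕ → ℕ → Bool := onCell 0 536870912 536870912 536870912 402653184 67108864
    (rowF 0 true true true .pnn 2 1 3 (qsf 0 536870912 536870912 536870912 3) ndF0q2 ndF0q1 pcF3 cut_pp_213 Ext.none)

def k0_pp_213 : ∃ t, chk3 f_pp_213 t 1 1 1 = true :=
  ⟨(a (l 5) (l 4)), by decide +kernel⟩

theorem c_pp_213 : CertF 0 536870912 536870912 536870912 402653184 67108864 true true true .pnn 2 1 3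
    ndF0q2 ndF0q1 pcF3 cut_pp_213 Ext.none :=
  certF0 (fam := true) (s1 := true) (s2 := true) (a := 2) (b := 1) (c := 3) (cn := .pnn) (n1 := ndF0q2) (n2 := ndF0q1) (pc := pcF3) (cut := cut_pp_213) (xt := Ext.none) (P1 := 0) (W1 := 536870912) (P2 := 536870912) (W2 := 536870912) (P3 := 402653184) (W3 := 67108864)
    rfl k0_pp_213

noncomputable def cut_pm_001 : Cut := Cut.of [[⟨3, 0, 0, 1449551462⟩], [⟨4, 0, 0, 2845415833⟩]]

noncomputable def f_pm_001 : ℕ → ℕ → ℕ → ℕ → Bool := onCell 0 536870912 0 536870912 402653184 67108864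
    (rowF 0 true true false .up 0 0 1 (qsf 0 536870912 0 536870912 1) ndF0q0 ndF0q0 pcF1 cut_pm_001 Ext.none)

def k0_pm_001 : ∃ t, chk3 f_pm_001 t 1 1 1 = true :=
  ⟨(l 3), by decide +kernel⟩

theorem c_pm_001 : CertF 0 536870912 0 536870912 402653184 67108864 true true false .up 0 0 1
    ndF0q0 ndF0q0 pcF1 cut_pm_001 Ext.none :=
  certF0 (fam := true) (s1 := true) (s2 := false) (a := 0) (b := 0) (c := 1) (cn := .up) (n1 := ndF0q0) (n2 := ndF0q0) (pc := pcF1) (cut := cut_pm_001) (xt := Ext.none) (P1 := 0) (W1 := 536870912) (P2 := 0) (W2 := 536870912) (P3 := 402653184) (W3 := 67108864)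
    rfl k0_pm_001

noncomputable def cut_pm_011 : Cut := Cut.of [[⟨3, 0, 0, 1449551462⟩], [⟨4, 0, 0, 2845415833⟩], [⟨0, 0, 0, 67108864⟩, ⟨1, 1, 0, 67108864⟩, ⟨2, 1, 0, 67108864⟩]]

noncomputable def f_pm_011 : ℕ → ℕ → ℕ → ℕ → Bool := onCell 0 536870912 536870912 536870912 402653184 67108864
    (rowF 1 true true false .pnn 0 1 1 (qsf 0 536870912 536870912 536870912 1) ndF0q0 ndF0q1 pcF1 cut_pm_011 Ext.none)

def k0_pm_011 : ∃ t, chk3 f_pm_011 t 1 1 1 = true :=
  ⟨(l 6), by decide +kernel⟩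

theorem c_pm_011 : CertF 0 536870912 536870912 536870912 402653184 67108864 true true false .pnn 0 1 1
    ndF0q0 ndF0q1 pcF1 cut_pm_011 Ext.none :=
  certF1 (fam := true) (s1 := true) (s2 := false) (a := 0) (b := 1) (c := 1) (cn := .pnn) (n1 := ndF0q0) (n2 := ndF0q1) (pc := pcF1) (cut := cut_pm_011) (xt := Ext.none) (P1 := 0) (W1 := 536870912) (P2 := 536870912) (W2 := 536870912) (P3 := 402653184) (W3 := 67108864)
    rfl (fun _ => rfl) k0_pm_011

noncomputable def cut_pm_012 : Cut := Cut.of [[⟨3, 0, 0, 1449551462⟩], [⟨4, 0, 0, 2845415833⟩], [⟨0, 0, 0, 67108864⟩, ⟨1, 1, 0, 67108864⟩, ⟨2, 1, 0, 67108864⟩], [⟨0, 0, 1, 33554432⟩, ⟨1, 1, 0, 33554432⟩, ⟨2, 1, 1, 33554432⟩]]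

noncomputable def f_pm_012 : ℕ → ℕ → ℕ → ℕ → Bool := onCell 1073741824 536870912 536870912 536870912 402653184 67108864
    (rowF 2 true true false .pnp 0 1 2 (qsf 0 536870912 536870912 536870912 2) ndF0q0 ndF0q1 pcF2 cut_pm_012 Ext.none)

def k0_pm_012 : ∃ t, chk3 f_pm_012 t 2 1 1 = true :=
  ⟨(a (l 6) (b (l 6) (a (l 6) (b (l 6) (a (b (l 6) (l 6)) (b (l 6) (b (b (l 6) (a (l 6) (a (l 6) (a (l 6) (b (l 6) (l 16662136)))))) (b (a (l 6) (c (b (a (l 16648352) (l 16647960)) (a (l 16639528) (l 16638624))) (b (l 16636896) (l 16628000)))) (a (b (c (l 16633744) (l 16624216)) (c (l 16625888) (l 16616272))) (b (c (a (l 16630896) (l 16629512)) (l 16619240)) (c (a (l 16622424) (l 16620592)) (l 16610584)))))))))))), by decide +kernel⟩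

def k1_pm_012 : ∃ t, chk3 f_pm_012 t 3 2 1 = true :=
  ⟨(a (a (l 6) (l 2)) (l 2)), by decide +kernel⟩

def k2_pm_012 : ∃ t, chk3 f_pm_012 t 6 6 1 = true :=
  ⟨(b (a (l 6) (a (a (a (l 6) (l 2)) (l 2)) (l 2))) (a (a (l 6) (a (l 6) (b (l 6) (b (l 16874144) (l 16850648))))) (b (a (a (b (l 16921168) (l 16912392)) (l 16942920)) (b (l 2) (l 16980920))) (a (b (a (l 16855952) (l 16903320)) (a (l 16873976) (l 16899552))) (b (a (l 16953552) (l 16983024)) (a (l 16928408) (l 16958328))))))), by decide +kernel⟩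

def k3_pm_012 : ∃ t, chk3 f_pm_012 t 6 14 1 = true :=
  ⟨(a (b (a (l 6) (b (a (l 16804336) (l 16824416)) (a (l 16777560) (l 16796208)))) (a (a (l 6) (b (c (l 16746648) (l 16725616)) (c (b (l 16726480) (l 16713184)) (l 16700656)))) (b (a (c (l 16762208) (l 16737680)) (l 16766536)) (a (c (l 16733152) (l 16710720)) (c (l 16749360) (l 16723400)))))) (b (a (b (a (l 16847040) (l 16871928)) (a (l 16817488) (l 16841504))) (b (a (l 16898544) (l 16927544)) (a (l 16866816) (l 16894856)))) (a (b (a (l 16786184) (l 16808656)) (a (c (l 16768656) (l 16738896)) (c (l 16791336) (l 16757504)))) (b (a (l 16832440) (l 16859056)) (a (l 16795888) (l 16818288)))))), by decide +kernel⟩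

def k4_pm_012 : ∃ t, chk3 f_pm_012 t 12 15 1 = true :=
  ⟨(b (a (b (a (a (l 6) (b (l 16685856) (l 16674504))) (c (b (l 16700168) (l 16687312)) (b (l 16682296) (l 16670216)))) (a (c (b (l 16669544) (c (l 16662104) (l 16655488))) (b (l 16655616) (l 16645360))) (c (b (l 16674880) (c (l 16666680) (l 16658880))) (b (l 16658488) (l 16647032))))) (b (a (c (b (l 16711448) (l 16697224)) (b (l 16690504) (l 16677208))) (c (b (l 16725880) (l 16710344)) (l 16694328))) (a (c (b (l 16683336) (c (l 16674200) (l 16665088))) (b (l 16664176) (l 16651304))) (c (b (l 16694920) (c (l 16685080) (l 16674480))) (b (l 16672688) (l 16658520)))))) (a (b (a (c (b (c (l 16651552) (l 16645144)) (c (l 16641296) (l 16635064))) (b (l 16635320) (l 16625480))) (c (b (c (l 16654784) (l 16647280)) (c (l 16643240) (l 16635992))) (b (l 16635848) (l 16624928)))) (a (b (c (c (l 16631320) (l 16625224)) (l 16615832)) (c (a (l 16619184) (l 16618240)) (l 16606352))) (c (b (c (l 16632040) (l 16625008)) (c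 (l 16642144) (l 16614312))) (b (l 16614248) (l 16603800))))) (b (a (c (a (b (l 16654848) (l 16642400)) (b (l 16658296) (l 16645096))) (b (l 16638824) (l 16626656))) (c (a (b (l 16662536) (l 16648560)) (b (l 16667664) (a (l 16651688) (l 16654032)))) (b (l 16644664) (l 16631016)))) (a (c (a (b (l 16630312) (l 16618576)) (b (l 16632296) (l 16630368))) (b (l 16614792) (l 16603224))) (c (b (c (a (l 16639504) (l 16643296)) (a (l 16630480) (l 16633624))) (c (a (l 16626192) (l 16629192)) (a (l 16617496) (l 16619888)))) (b (c (l 16622528) (l 16613064)) (c (l 16609512) (l 16600368)))))))), by decide +kernel⟩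

def k5_pm_012 : ∃ t, chk3 f_pm_012 t 13 30 1 = true :=
  ⟨(a (b (a (c (b (l 16743304) (l 16726472)) (l 16707552)) (c (b (l 16764024) (l 16745872)) (l 16723776))) (a (c (b (l 16709768) (l 16693224)) (b (l 16684176) (l 16668736))) (c (b (l 16727800) (a (l 16705368) (l 16714480))) (b (l 16698552) (l 16681856))))) (b (a (b (l 16767752) (l 16769736)) (b (l 16787984) (l 16767312))) (a (b (c (l 16746056) (l 16713400)) (c (a (l 16722800) (l 16730296)) (l 16695176))) (b (c (l 16770360) (l 16728688)) (c (l 16742848) (l 16708664)))))), by decide +kernel⟩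

def k6_pm_012 : ∃ t, chk3 f_pm_012 t 26 31 1 = true :=
  ⟨(b (a (c (a (b (l 16673608) (c (l 16663392) (l 16652568))) (b (l 16680416) (c (l 16669760) (l 16658160)))) (b (l 16653416) (c (l 16644008) (l 16632768)))) (c (b (a (l 16687976) (l 16696368)) (a (c (l 16677040) (l 16664608)) (c (l 16685128) (l 16671840)))) (b (a (l 16662032) (l 16668656)) (a (l 16645984) (l 16651944))))) (a (a (c (b (b (l 16646496) (l 16639008)) (c (b (l 16636664) (l 16629312)) (l 16623024))) (b (l 16621928) (l 16607992))) (c (b (c (b (l 16657488) (l 16649424)) (l 16642368)) (c (b (l 16641504) (l 16633720)) (b (l 16630752) (l 16623184)))) (b (l 16625656) (c (l 16616272) (l 16605552))))) (c (b (a (c (b (l 16664128) (l 16655640)) (b (l 16652112) (l 16643888))) (c (b (l 16671664) (c (l 16665928) (l 16659640))) (b (l 16658808) (l 16650208)))) (a (c (a (b (l 16645736) (l 16637608)) (b (l 16648856) (l 16640488))) (b (l 16635776) (l 16627752))) (c (b (a (l 16652200) (c (l 16658904) (l 16652648)))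 (a (c (l 16646568) (l 16640648)) (c (b (l 16652232) (l 16647816)) (l 16643904)))) (b (a (l 16640104) (l 16643272)) (a (l 16631776) (l 16634728)))))) (b (a (c (l 16636088) (l 16624184)) (c (l 16641800) (l 16629104))) (b (a (l 16618488) (c (l 16629376) (l 16617072))) (a (l 16610816) (c (l 16621200) (l 16609160)))))))), by decide +kernel⟩

def k7_pm_012 : ∃ t, chk3 f_pm_012 t 27 62 1 = true :=
  ⟨(a (c (b (a (l 16703832) (l 16710320)) (a (c (b (l 16696840) (l 16687368)) (l 16678080)) (c (l 16697872) (l 16683256)))) (b (a (l 16674592) (l 16679784)) (a (c (l 16664096) (l 16650136)) (c (l 16668680) (l 16654144))))) (b (c (a (l 16717400) (l 16725128)) (a (l 16685528) (l 16691880))) (c (a (c (l 16714680) (l 16688976)) (c (l 30) (l 16695272))) (a (c (l 16673792) (l 16658656)) (c (l 16679464) (l 16663704)))))), by decide +kernel⟩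

def k8_pm_012 : ∃ t, chk3 f_pm_012 t 54 63 1 = true :=
  ⟨(c (b (a (c (b (l 16677968) (a (l 16667624) (l 16669728))) (b (l 16664424) (l 16655408))) (c (b (l 16682960) (c (l 16676568) (l 16669680))) (b (l 16668864) (l 16659360)))) (a (c (b (a (c (l 16661712) (l 16655296)) (c (b (l 16665984) (l 16661280)) (l 16657096))) (a (c (b (l 16654880) (c (l 16651904) (l 16648792))) (b (l 16648568) (l 16644112))) (c (a (b (l 16656160) (l 16651536)) (b (l 16657048) (c (l 30) (l 16650768)))) (a (l 16647488) (b (l 16650600) (l 16645984)))))) (b (a (l 16645680) (l 16647296)) (a (c (l 16640064) (l 16633792)) (c (a (l 16641136) (l 16641880)) (l 16635120))))) (a (c (b (c (l 16665656) (l 16659000)) (c (b (l 16658432) (c (l 30) (a (l 16651600) (l 30)))) (b (l 16651896) (c (l 16648800) (l 16645576))))) (b (l 16649024) (c (b (l 16645360) (l 16640728)) (l 16636544)))) (c (c (l 30) (b (l 16661024) (b (l 16653728) (a (l 16648448) (l 16649328))))) (b (l 16650864) (c (b (l 16647072) (l 16642320))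 (l 16638080))))))) (b (a (c (b (l 16650896) (l 16642176)) (l 16633168)) (c (b (l 16654800) (l 16645624)) (l 16636320))) (a (c (b (l 16633528) (a (l 16624392) (l 16625552))) (b (l 16620600) (l 16612296))) (b (c (l 16636512) (l 16623104)) (c (a (l 16626808) (l 16628168)) (l 16614376)))))), by decide +kernel⟩

def k9_pm_012 : ∃ t, chk3 f_pm_012 t 55 63 1 = true :=
  ⟨(c (b (a (c (b (l 16688464) (c (l 30) (l 16674504))) (b (l 16673808) (c (l 16667360) (l 16660224)))) (c (l 30) (b (l 16679288) (c (l 16672432) (l 16665024))))) (b (a (c (c (l 30) (a (l 16663168) (l 30))) (c (a (l 16656264) (l 16658408)) (a (l 16649368) (l 16651384)))) (c (l 30) (c (a (l 16660664) (l 30)) (a (l 16653520) (l 16655776))))) (a (a (c (c (l 30) (b (l 16655664) (c (l 30) (a (l 16648568) (l 30))))) (c (b (l 16648896) (l 16646632)) (b (l 16642128) (l 16637328)))) (c (l 30) (b (c (l 16650832) (l 16643944)) (c (a (l 16645352) (l 16646280)) (l 16639016))))) (c (l 30) (c (a (b (l 16652896) (c (l 30)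 (l 16646008))) (l 30)) (a (b (l 16645880) (l 16640824)) (b (l 16647936) (c (l 16644496) (l 16640976))))))))) (b (b (a (l 16662360) (c (l 16664088) (l 16648912))) (a (c (l 16649520) (l 16635272)) (c (l 16653920) (l 16639128)))) (a (c (b (c (l 16643408) (l 16636456)) (c (a (l 16633000) (l 16634640)) (a (l 16626272) (l 16627800)))) (b (l 16626032) (c (l 16620248) (l 16613464)))) (a (b (c (l 16642800) (l 16628512)) (c (b (l 16635376) (l 16640936)) (l 16618992))) (c (b (l 16644864) (c (b (l 16640808) (l 16635704)) (l 16631168))) (b (l 16630320) (l 16620552))))))), by decide +kernel⟩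

def k10_pm_012 : ∃ t, chk3 f_pm_012 t 7 6 1 = true :=
  ⟨(a (b (l 2) (a (b (l 2) (b (l 2) (l 16996912))) (l 2))) (l 2)), by decide +kernel⟩

def k11_pm_012 : ∃ t, chk3 f_pm_012 t 14 14 1 = true :=
  ⟨(b (a (b (l 16968944) (a (l 16924088) (l 16951448))) (b (l 2) (l 16966848))) (a (b (a (l 16890152) (l 16898152)) (a (l 16852480) (l 16841720))) (b (a (l 16945976) (l 16970792)) (a (l 16849544) (l 16876176))))), by decide +kernel⟩

def k12_pm_012 : ∃ t, chk3 f_pm_012 t 14 30 1 = true :=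
  ⟨(a (b (a (c (l 16804896) (l 16778536)) (c (l 16817496) (l 16807048))) (a (b (c (l 16770456) (l 16746304)) (c (l 16755024) (l 16724456))) (b (c (l 16828608) (l 16768480)) (c (l 16753096) (l 16742504))))) (b (a (b (l 16863840) (l 16802144)) (a (l 16813008) (l 16826688))) (a (a (b (l 16814504) (l 16759104)) (b (l 16830848) (l 16758296))) (b (c (l 16911384) (l 16817008)) (c (a (l 16885304) (l 16899920)) (l 16751336)))))), by decide +kernel⟩

def k13_pm_012 : ∃ t, chk3 f_pm_012 t 14 62 1 = true :=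
  ⟨(a (a (b (c (a (l 16725392) (l 16727288)) (a (l 16698872) (l 16706432))) (b (c (c (l 16718456) (l 16711728)) (a (l 16682832) (l 16689648))) (c (a (l 16710624) (l 16709472)) (a (l 16672216) (l 16699472))))) (c (b (a (l 16727856) (l 16727056)) (a (a (l 16718096) (l 16717560)) (a (l 16715336) (l 16715384)))) (b (a (l 16714536) (l 16723096)) (a (b (l 16697032) (l 16706304)) (c (l 30) (l 16689568)))))) (a (c (a (b (l 16766920) (c (l 16806816) (l 16717208))) (b (l 16826624) (b (l 16829464) (l 16774640)))) (b (a (l 16719640) (l 16718664)) (a (c (l 16711464) (l 16697240)) (c (l 16711464) (l 30))))) (b (c (a (l 16864320) (l 16880064)) (b (l 16732344) (l 16724112))) (c (a (c (l 16863776) (l 16797536)) (l 16795216)) (a (c (l 16710296) (l 16706912)) (b (l 16776952) (l 16699608))))))), by decide +kernel⟩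

def k14_pm_012 : ∃ t, chk3 f_pm_012 t 28 126 1 = true :=
  ⟨(a (c (a (c (l 30) (b (l 16685336) (c (l 30) (l 16670360)))) (c (b (l 16698704) (l 30)) (l 30))) (a (c (b (l 16669536) (c (l 16662672) (l 16654992))) (b (l 16653776) (l 16643488))) (c (b (l 16675560) (c (l 16668264) (l 16660304))) (b (l 16659184) (l 16648368))))) (c (a (c (b (a (l 16758632) (l 16770176)) (b (l 16689648) (l 16685376))) (l 30)) (b (c (l 16765872) (l 16693432)) (c (a (l 16745080) (l 16777320)) (l 30)))) (a (c (b (l 16682176) (a (l 16668728) (l 30))) (b (l 16665176) (a (l 16652368) (l 16655232)))) (c (l 30) (b (l 16671688) (a (l 16658216) (l 16661336))))))), by decide +kernel⟩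

def k15_pm_012 : ∃ t, chk3 f_pm_012 t 28 127 1 = true :=
  ⟨(a (b (c (a (c (l 30) (c (l 30) (a (l 16658160) (l 30)))) (l 30)) (a (c (c (a (l 16650752) (l 16653128)) (a (l 16643344) (l 16645592))) (c (l 16637000) (l 16629536))) (a (c (c (l 16655640) (l 16647968)) (l 16636472)) (c (c (l 30) (l 16650472)) (l 16638768))))) (c (a (a (c (l 30) (c (l 30) (b (l 16650112) (c (l 30) (l 16642984))))) (l 30)) (l 30)) (a (c (c (a (b (l 16642856) (l 16637616)) (b (l 16645024) (c (l 16641472) (l 16637832)))) (a (l 16633032) (b (l 16637648) (l 16632376)))) (c (a (l 16625832) (l 16627680)) (l 16619488))) (c (c (a (b (l 16647320) (c (l 30) (l 16639952))) (l 30)) (a (b (l 16639816) (l 16634408)) (b (l 16642104) (c (l 16638432) (l 16634672))))) (c (a (l 16629656) (b (l 16634472) (l 16629032))) (a (l 16622208) (l 16624176))))))) (b (c (c (a (a (l 30) (c (l 16730912) (l 30))) (a (c (l 16763768) (l 30)) (c (l 16775280) (l 16726960)))) (l 30)) (a (c (c (l 30) (a (l 16653112) (l 30)))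 (c (a (l 16645176) (l 16647808)) (a (l 16637232) (l 16639728)))) (c (l 30) (a (c (l 16650592) (l 16642368)) (c (l 30) (l 16645128)))))) (c (a (l 30) (c (c (b (a (l 16751440) (l 16763296)) (a (l 30) (l 16755024))) (l 30)) (l 30))) (a (a (c (c (l 30) (b (l 16644528) (c (l 30) (l 16636912)))) (c (b (l 16636760) (l 16631176)) (l 16626264))) (c (l 30) (c (b (l 16639176) (c (l 16635392) (l 16631504))) (b (l 16631280) (l 16625672))))) (c (l 30) (a (c (b (l 16641720) (c (l 30) (l 16633864))) (b (l 16633688) (l 16627936))) (c (l 30) (b (l 16636240) (c (l 16632344) (l 16628320)))))))))), by decide +kernel⟩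

def k16_pm_012 : ∃ t, chk3 f_pm_012 t 29 63 1 = true :=
  ⟨(b (a (c (a (c (b (l 16807784) (a (l 16788208) (l 16798744))) (b (l 16694752) (a (l 16683600) (l 16726288)))) (c (b (l 16827432) (l 16813968)) (b (l 16757640) (a (l 16737176) (l 16768728))))) (a (c (l 30) (b (l 16678608) (a (l 16664536) (l 30)))) (c (b (l 16687816) (l 30)) (l 30)))) (c (a (c (l 16818680) (b (l 16798352) (a (l 16779000) (l 16788968)))) (c (l 16857392) (b (l 16816968) (l 16803392)))) (a (c (b (l 16687848) (a (l 16687536) (l 16719120))) (l 30)) (b (c (l 16749608) (l 16682232)) (c (a (l 16750408) (l 16760416)) (l 30)))))) (a (c (a (b (c (a (l 16731000) (l 16783912)) (a (l 30) (c (l 16723008) (l 30)))) (c (b (a (l 16739968) (l 16772248)) (a (c (l 16766728) (l 30)) (l 16722256))) (l 30))) (a (b (c (l 16794552) (c (l 16755144) (l 30))) (c (b (l 16783208) (l 16775384)) (b (c (l 16742800) (l 30)) (l 30)))) (b (c (l 16804864) (c (l 16765976) (l 16719080))) (c (l 16790072) (c (a (l 16747064) (l 16752624))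 (l 30)))))) (a (a (c (l 30) (a (c (l 30) (b (l 16647272) (b (l 16638224) (l 16632216)))) (l 30))) (l 30)) (l 30))) (c (b (a (c (l 16819776) (a (l 16721760) (l 16774080))) (c (l 16838616) (a (l 16784160) (l 16793936)))) (c (a (b (l 16809216) (l 16801928)) (l 16825208)) (a (b (a (l 16730728) (l 16762392)) (a (c (l 16756760) (l 30)) (c (l 16767504) (l 16741176)))) (a (a (l 16766288) (l 16771456)) (l 16779064))))) (c (a (b (a (l 30) (c (l 16715224) (l 30))) (l 30)) (c (b (a (l 16746768) (l 16757024)) (b (a (l 16734448) (l 16745024)) (a (l 30) (l 16736768)))) (b (a (l 30) (l 16711448)) (l 30)))) (l 30))))), by decide +kernel⟩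

def k17_pm_012 : ∃ t, chk3 f_pm_012 t 15 14 1 = true :=
  ⟨(b (l 2) (a (a (b (l 2) (l 16963584)) (l 2)) (l 2))), by decide +kernel⟩

def k18_pm_012 : ∃ t, chk3 f_pm_012 t 30 30 1 = true :=
  ⟨(b (a (b (l 16939328) (l 16900952)) (a (l 16949400) (l 2))) (a (a (b (l 16896160) (c (l 16913880) (l 16838400))) (b (l 16909944) (l 16848528))) (b (a (l 16923352) (l 16936128)) (a (l 16904376) (l 16917912))))), by decide +kernel⟩

def k19_pm_012 : ∃ t, chk3 f_pm_012 t 30 62 1 = true :=
  ⟨(a (c (b (a (l 16894864) (l 16908976)) (a (l 16874112) (l 16889112))) (b (a (l 16793240) (l 16809408)) (a (c (l 16788584) (l 16703552)) (b (l 16811648) (l 16777568))))) (a (b (c (l 16922416) (l 16845896)) (c (l 16903416) (b (l 16827792) (l 16815200)))) (b (c (l 16935432) (l 16861064)) (c (l 16917048) (b (l 16843488) (l 16831240)))))), by decide +kernel⟩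

def k20_pm_012 : ∃ t, chk3 f_pm_012 t 30 63 1 = true :=
  ⟨(b (a (c (a (c (l 16874064) (l 16807168)) (l 16825408)) (a (b (c (l 16789280) (l 16681128)) (c (a (l 16770144) (l 16779592)) (a (l 16702136) (l 16712184)))) (c (b (l 16806912) (l 16793264)) (b (l 16762808) (a (l 16742920) (l 16752408)))))) (c (a (l 16882600) (l 16897152)) (a (a (b (l 16797816) (l 16742032)) (b (l 16806200) (l 16771664))) (a (a (l 16753344) (l 16788904)) (a (l 16793008) (l 16797080)))))) (a (c (b (a (c (l 16856320) (l 16808072)) (l 16849448)) (a (c (l 16843648) (b (l 16797432) (l 16790096))) (c (l 16860976) (l 16812400)))) (b (c (a (a (l 16712904) (l 16764680)) (a (l 16774224) (l 16783496))) (a (a (l 30) (c (l 16707736) (l 30))) (a (c (l 16738712) (l 30)) (c (l 16748440) (l 16704088))))) (c (a (b (a (l 16721880) (l 16752992)) (a (c (l 16747248) (l 30)) (c (l 16757432) (l 16732456)))) (a (a (l 16735504) (l 16761368)) (l 16747616))) (c (a (l 30) (a (b (l 16726448) (l 30)) (a (l 16729872)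 (l 16734864)))) (l 30))))) (c (a (b (l 16865664) (l 16853584)) (b (l 16880920) (l 16869448))) (b (a (c (l 16796912) (a (l 16725368) (l 16755664))) (c (l 16813896) (a (l 16764712) (l 16773568)))) (a (c (b (l 16786216) (l 16778856)) (b (a (l 16713416) (l 16744000)) (a (c (l 16738176) (l 30)) (c (l 16747832) (l 16724112))))) (b (a (l 16734432) (l 16743216)) (c (l 16796696) (a (l 16745504) (l 16754752))))))))), by decide +kernel⟩

def k21_pm_012 : ∃ t, chk3 f_pm_012 t 31 15 1 = true :=
  ⟨(b (b (l 2) (a (b (l 2) (a (l 16940968) (l 2))) (l 2))) (b (a (b (a (l 16860616) (l 16957864)) (a (c (l 16942064) (b (l 16872704) (l 16861712))) (c (l 16976488) (l 16908888)))) (b (l 2) (a (l 16977160) (l 2)))) (a (b (c (a (l 16924456) (l 16962432)) (a (b (l 16850328) (c (l 16858848) (l 16818176))) (b (l 16894952) (l 16885336)))) (a (c (l 16842432) (b (a (l 16771312) (l 16838960)) (c (l 16835216) (a (b (l 16781184) (l 16773992)) (l 16784720))))) (c (l 16947320) (c (l 16868576) (b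 (l 16856424) (a (l 16832544) (l 16858192))))))) (b (c (l 17012728) (a (l 16932000) (l 16969856))) (c (l 16950568) (a (b (l 16920176) (l 16849128)) (l 16915936))))))), by decide +kernel⟩

theorem s22_pm_012 : ∃ t, chk3 f_pm_012 t 30 31 1 = true := ex3_b k19_pm_012 k20_pm_012

theorem s23_pm_012 : ∃ t, chk3 f_pm_012 t 30 15 1 = true := ex3_b k18_pm_012 s22_pm_012

theorem s24_pm_012 : ∃ t, chk3 f_pm_012 t 15 15 1 = true := ex3_a s23_pm_012 k21_pm_012

theorem s25_pm_012 : ∃ t, chk3 f_pm_012 t 15 7 1 = true := ex3_b k17_pm_012 s24_pm_012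

theorem s26_pm_012 : ∃ t, chk3 f_pm_012 t 28 63 1 = true := ex3_b k14_pm_012 k15_pm_012

theorem s27_pm_012 : ∃ t, chk3 f_pm_012 t 14 63 1 = true := ex3_a s26_pm_012 k16_pm_012

theorem s28_pm_012 : ∃ t, chk3 f_pm_012 t 14 31 1 = true := ex3_b k13_pm_012 s27_pm_012

theorem s29_pm_012 : ∃ t, chk3 f_pm_012 t 14 15 1 = true := ex3_b k12_pm_012 s28_pm_012

theorem s30_pm_012 : ∃ t, chk3 f_pm_012 t 14 7 1 = true := ex3_b k11_pm_012 s29_pm_012

theorem s31_pm_012 : ∃ t, chk3 f_pm_012 t 7 7 1 = true := ex3_a s30_pm_012 s25_pm_012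

theorem s32_pm_012 : ∃ t, chk3 f_pm_012 t 7 3 1 = true := ex3_b k10_pm_012 s31_pm_012

theorem s33_pm_012 : ∃ t, chk3 f_pm_012 t 27 63 1 = true := ex3_a k8_pm_012 k9_pm_012

theorem s34_pm_012 : ∃ t, chk3 f_pm_012 t 27 31 1 = true := ex3_b k7_pm_012 s33_pm_012

theorem s35_pm_012 : ∃ t, chk3 f_pm_012 t 13 31 1 = true := ex3_a k6_pm_012 s34_pm_012

theorem s36_pm_012 : ∃ t, chk3 f_pm_012 t 13 15 1 = true := ex3_b k5_pm_012 s35_pm_012

theorem s37_pm_012 : ∃ t, chk3 f_pm_012 t 6 15 1 = true := ex3_a k4_pm_012 s36_pm_012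

theorem s38_pm_012 : ∃ t, chk3 f_pm_012 t 6 7 1 = true := ex3_b k3_pm_012 s37_pm_012

theorem s39_pm_012 : ∃ t, chk3 f_pm_012 t 6 3 1 = true := ex3_b k2_pm_012 s38_pm_012

theorem s40_pm_012 : ∃ t, chk3 f_pm_012 t 3 3 1 = true := ex3_a s39_pm_012 s32_pm_012

theorem s41_pm_012 : ∃ t, chk3 f_pm_012 t 3 1 1 = true := ex3_b k1_pm_012 s40_pm_012

theorem s42_pm_012 : ∃ t, chk3 f_pm_012 t 1 1 1 = true := ex3_a k0_pm_012 s41_pm_012

theorem c_pm_012 : CertF 0 536870912 536870912 536870912 402653184 67108864 true true false .pnp 0 1 2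
    ndF0q0 ndF0q1 pcF2 cut_pm_012 Ext.none :=
  certF2 (fam := true) (s1 := true) (s2 := false) (a := 0) (b := 1) (c := 2) (cn := .pnp) (n1 := ndF0q0) (n2 := ndF0q1) (pc := pcF2) (cut := cut_pm_012) (xt := Ext.none) (P1 := 0) (W1 := 536870912) (P2 := 536870912) (W2 := 536870912) (P3 := 402653184) (W3 := 67108864)
    rfl (fun _ => rfl) s42_pm_012

noncomputable def cut_pm_022 : Cut := Cut.of [[⟨3, 0, 0, 1449551462⟩], [⟨4, 0, 0, 2845415833⟩], [⟨0, 0, 0, 67108864⟩, ⟨1, 1, 0, 67108864⟩, ⟨2, 1, 0, 67108864⟩], [⟨0, 0, 1, 33554432⟩, ⟨1, 1, 0, 33554432⟩, ⟨2, 1, 1, 33554432⟩]]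

noncomputable def f_pm_022 : ℕ → ℕ → ℕ → ℕ → Bool := onCell 1073741824 536870912 0 536870912 402653184 67108864
    (rowF 2 true true false .pp 0 2 2 (qsf 0 536870912 0 536870912 2) ndF0q0 ndF0q2 pcF2 cut_pm_022 Ext.none)

def k0_pm_022 : ∃ t, chk3 f_pm_022 t 2 1 1 = true :=
  ⟨(a (b (b (l 1) (a (l 1) (a (l 1) (b (l 1) (a (l 1) (b (l 1) (l 16574488))))))) (b (a (l 1) (a (b (l 1) (b (a (l 1) (b (l 16634896) (l 6))) (l 6))) (b (b (a (l 16599744) (l 16588056)) (a (b (l 16610160) (l 16617296)) (l 16602464))) (a (b (b (l 16624456) (l 16631560)) (b (l 16638520) (l 6))) (b (l 16617104) (b (l 16627768) (l 16633136))))))) (l 6))) (b (b (a (a (a (l 1) (b (l 16480480) (l 85395477751))) (b (l 16547928) (l 16512704))) (b (a (l 16622624) (l 16570152)) (a (b (l 16547832) (l 16519424)) (b (l 16582488) (l 16572952))))) (a (b (a (a (l 16530784) (l 16514800)) (l 16529488)) (a (a (b (l 16548352) (l 16561336)) (l 16582264)) (b (l 16508120) (l 16523096)))) (b (a (a (l 16503496) (l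 16523944)) (l 16577632)) (a (l 16532488) (l 16602680))))) (b (a (b (a (a (b (l 16575400) (l 16590352)) (l 16643200)) (a (l 16597472) (l 16561208))) (a (a (b (l 16605520) (l 16640440)) (b (l 16593328) (b (l 16604912) (a (l 16614120) (l 16670688))))) (b (l 16615832) (l 16653440)))) (b (b (l 16581368) (l 16593240)) (a (a (l 16646568) (b (l 16537632) (l 16558216))) (b (l 16513368) (l 16536752))))) (a (a (b (a (b (l 16623504) (l 6)) (b (a (l 16614696) (a (l 16610432) (l 16649328))) (a (l 6) (l 16668496)))) (l 6)) (b (b (l 16636048) (l 16608936)) (b (l 16665560) (l 6)))) (b (a (b (l 16553328) (l 16578264)) (b (l 16543016) (l 16559408))) (b (a (l 16647136) (l 16631176)) (b (a (l 16605808) (l 16590976)) (b (a (l 16616680) (l 16602544)) (a (a (l 6) (l 16620216)) (a (l 16613392) (c (l 16612824) (l 16602584)))))))))))), by decide +kernel⟩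

def k1_pm_022 : ∃ t, chk3 f_pm_022 t 6 2 1 = true :=
  ⟨(b (a (b (a (l 16619936) (l 16667112)) (a (b (l 16636208) (l 16630352)) (b (l 16687600) (l 16689920)))) (b (a (l 16711736) (l 16754392)) (a (b (l 16734696) (l 16745584)) (b (l 16780328) (l 16798288))))) (a (a (b (l 16604016) (l 16593336)) (b (l 16655664) (l 16609976))) (b (a (l 16712176) (b (l 16790536) (l 16755544))) (a (l 16654200) (l 16702240))))), by decide +kernel⟩

def k2_pm_022 : ∃ t, chk3 f_pm_022 t 6 6 1 = true :=
  ⟨(a (b (a (l 16603400) (l 16604432)) (a (l 16569048) (l 16605600))) (b (a (l 16676192) (l 16687176)) (a (b (l 16541808) (l 16527904)) (b (l 16559816) (a (l 16514624) (l 16516208)))))), by decide +kernel⟩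

def k3_pm_022 : ∃ t, chk3 f_pm_022 t 12 7 1 = true :=
  ⟨(b (a (b (l 16514648) (l 16545232)) (b (l 16527744) (l 16556504))) (b (a (l 16619024) (b (l 16540504) (l 16558424))) (b (a (l 16622672) (c (l 16583040) (l 16570800))) (b (a (a (l 16595208) (l 16592224)) (c (l 16619416) (l 16584056))) (a (c (a (l 16609320) (l 16607624)) (a (l 16597760) (l 16594520))) (c (a (b (l 16605448) (l 16610616)) (a (l 16609936) (l 16633008))) (a (l 16593112) (l 16593864)))))))), by decide +kernel⟩

def k4_pm_022 : ∃ t, chk3 f_pm_022 t 13 14 1 = true :=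
  ⟨(b (a (b (l 16501376) (l 16505032)) (a (l 16522824) (l 16516768))) (a (l 16574800) (a (l 16509488) (l 16503336)))), by decide +kernel⟩

def k5_pm_022 : ∃ t, chk3 f_pm_022 t 13 30 1 = true :=
  ⟨(a (a (l 16570512) (l 16615488)) (a (b (l 16542024) (l 16564984)) (b (l 16539376) (l 16564728)))), by decide +kernel⟩

def k6_pm_022 : ∃ t, chk3 f_pm_022 t 13 31 1 = true :=
  ⟨(a (b (a (l 16579816) (c (l 16594024) (l 16576296))) (b (a (l 16627264) (c (l 16612616) (l 16592312))) (a (c (b (l 16613528) (a (l 16638792) (a (l 16620544) (l 16643592)))) (b (l 16594560) (l 16599728))) (c (a (b (l 16619688) (c (b (l 16629896) (l 16633256)) (l 16620656))) (b (l 16624888) (a (c (l 16656840) (l 16624392)) (c (b (l 16637256) (c (l 16643808) (l 16637816))) (l 16627176))))) (a (l 16622456) (b (l 16602504) (c (l 16614120) (l 16602448)))))))) (b (a (c (l 16619992) (l 16579408)) (c (l 16622744) (l 16580912))) (b (a (c (a (l 16618528) (l 16620496)) (l 16596968)) (c (a (l 16622888) (l 16625640))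 (l 16600296))) (a (c (b (a (l 16628848) (l 16631344)) (a (c (b (l 16640184) (a (c (l 16656720) (l 16640088)) (a (c (l 16647344) (l 16641128)) (c (l 16653360) (l 16641840))))) (a (l 16650160) (a (l 16630072) (l 16630696)))) (c (b (l 16643128) (c (a (a (l 16648912) (l 30)) (l 30)) (a (l 16642968) (b (l 16643600) (l 16645520))))) (b (l 16630568) (c (a (l 16636616) (l 16638096)) (l 16630944)))))) (a (b (l 16605328) (c (b (l 16615912) (l 16629560)) (l 16605240))) (b (l 16607016) (c (b (l 16618016) (l 16642304)) (l 16606992))))) (c (a (b (l 16655176) (c (a (b (l 16645576) (a (c (l 30) (l 16645816)) (l 30))) (l 30)) (b (l 16633472) (c (a (l 16639680) (b (l 16640408) (l 16642344))) (a (l 16633112) (l 16634696)))))) (c (l 30) (b (l 16630976) (b (l 16636792) (c (a (a (l 16642720) (l 30)) (l 30)) (a (l 16636384) (b (l 16637216) (l 16639168)))))))) (b (c (l 16616640) (l 16603864)) (a (c (a (l 16621536) (l 16633400)) (l 16609104)) (b (l 16637632) (c (c (a (l 16629592) (l 16631280))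 (l 16623576)) (l 16613296)))))))))), by decide +kernel⟩

def k7_pm_022 : ∃ t, chk3 f_pm_022 t 7 2 1 = true :=
  ⟨(b (a (b (a (l 16795192) (l 16834184)) (a (l 16836680) (b (l 16868584) (l 16895312)))) (b (a (l 16871208) (l 16906160)) (a (b (l 16911336) (l 16942208)) (b (l 16953080) (l 16988888))))) (a (b (a (b (l 16918136) (l 16819736)) (b (b (l 16916688) (l 16942000)) (l 16892360))) (a (l 16776720) (b (l 16844144) (l 16792096)))) (b (a (b (a (l 16961816) (l 16989368)) (b (a (l 16965304) (l 17005488)) (l 16961680))) (b (a (l 17015432) (l 17041392)) (b (a (b (l 17041096) (l 17045368)) (l 17074464)) (a (l 17031664) (b (a (l 17073312) (l 17094608)) (l 17076472)))))) (a (b (l 16922080) (l 16864592)) (b (a (l 16996152) (l 17054832)) (a (l 16943952) (l 17016576))))))), by decide +kernel⟩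

def k8_pm_022 : ∃ t, chk3 f_pm_022 t 7 6 1 = true :=
  ⟨(a (b (a (l 16680784) (l 16705784)) (a (b (l 16579120) (l 16543152)) (b (l 16608736) (l 16576144)))) (a (b (l 16773064) (b (l 16702560) (a (l 16634488) (l 16681168)))) (b (b (l 16931640) (l 16887696)) (a (b (l 16799048) (l 16759488)) (l 16880504))))), by decide +kernel⟩

def k9_pm_022 : ∃ t, chk3 f_pm_022 t 14 14 1 = true :=
  ⟨(b (a (b (l 16499776) (a (l 16484904) (l 16479288))) (b (a (l 16492104) (l 16549216)) (a (b (l 16474472) (l 16472424)) (b (l 16531720) (l 16588584))))) (a (a (l 16519104) (l 16535640)) (a (b (l 16489176) (l 16515872)) (c (l 16634840) (l 16493936))))), by decide +kernel⟩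

def k10_pm_022 : ∃ t, chk3 f_pm_022 t 14 30 1 = true :=
  ⟨(b (a (a (l 16537832) (l 16537400)) (a (l 16546352) (l 16660064))) (a (a (l 16565792) (l 16588880)) (a (c (l 16640552) (l 16561288)) (c (l 16687568) (l 16574176))))), by decide +kernel⟩

def k11_pm_022 : ∃ t, chk3 f_pm_022 t 28 31 1 = true :=
  ⟨(b (a (c (l 16627016) (l 16583864)) (c (b (l 16615816) (l 16614448)) (l 16588096))) (b (a (c (a (l 16628784) (l 16632336)) (l 16625984)) (a (c (l 30) (l 16609544)) (c (l 16669104) (l 16613128)))) (a (c (a (c (l 30) (b (l 16634464) (a (b (l 16639560) (a (c (l 30) (l 16639616)) (l 30))) (l 30)))) (l 30)) (b (c (l 16643736) (l 16609112)) (a (c (b (l 16626680) (c (a (l 16633080) (b (l 16634008) (l 16635984))) (a (l 16626048) (l 16627848)))) (a (l 16613776) (l 16615352))) (c (b (l 16630440) (a (c (a (l 16636504) (l 30)) (l 16629760)) (c (l 30) (l 16637032)))) (b (l 16616104) (a (l 16618864) (l 16631200))))))) (b (c (a (l 30) (c (l 16714304) (l 30))) (a (l 16621280)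 (l 16646416))) (a (c (l 30) (c (a (b (l 16633552) (a (c (l 30) (l 16633392)) (l 30))) (l 30)) (b (l 16619856) (c (a (l 16626432) (l 16639064)) (a (l 16618928) (l 16620952)))))) (c (a (l 30) (c (c (l 16745512) (l 30)) (l 30))) (c (l 30) (b (l 16624080) (a (c (a (l 16630272) (l 30)) (l 16623096)) (c (l 30) (l 16635848))))))))))), by decide +kernel⟩

def k12_pm_022 : ∃ t, chk3 f_pm_022 t 29 31 1 = true :=
  ⟨(b (a (c (b (l 16667480) (l 16686640)) (l 16614936)) (b (l 16710664) (a (l 16686800) (l 16689000)))) (b (a (c (a (l 16694376) (l 16718288)) (a (l 16617152) (l 16621760))) (c (a (l 16740912) (l 16762232)) (a (l 30) (l 16655712)))) (a (a (c (c (b (l 16738568) (b (l 16746384) (c (l 16765792) (a (l 30) (l 16743408))))) (l 30)) (b (l 16640592) (c (l 30) (a (b (l 16627552) (a (c (l 30) (l 16627144)) (l 30))) (l 30))))) (c (b (c (l 16761456) (l 16705880)) (c (a (l 16766168) (l 16777192)) (a (l 30) (c (l 16736128) (l 30))))) (l 30))) (a (c (b (c (l 16783056) (l 16728960))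 (c (l 16793120) (b (l 16736816) (a (c (l 16750000) (l 30)) (l 16726616))))) (l 30)) (a (c (b (l 16771880) (c (l 16808312) (l 16755712))) (l 30)) (c (c (l 16813152) (l 16740056)) (a (l 30) (c (c (l 16724656) (l 30)) (l 30))))))))), by decide +kernel⟩

def k13_pm_022 : ∃ t, chk3 f_pm_022 t 15 14 1 = true :=
  ⟨(a (b (b (a (l 16601008) (l 16648136)) (a (b (l 16583800) (b (l 16574920) (l 16574024))) (b (l 16631360) (a (l 16629968) (l 16652360))))) (a (b (l 16608736) (l 16634776)) (b (l 16735192) (l 16760792)))) (b (a (b (l 16730952) (a (b (l 16685528) (l 16675264)) (l 16743208))) (l 16837408)) (a (a (b (l 16682496) (l 16707216)) (l 16756256)) (b (l 16831160) (l 16851368))))), by decide +kernel⟩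

def k14_pm_022 : ∃ t, chk3 f_pm_022 t 15 15 1 = true :=
  ⟨(a (b (a (b (l 16706160) (c (l 16729824) (l 16622336))) (b (l 16789648) (a (l 16706832) (l 16725968)))) (b (b (a (l 16723656) (c (l 16792384) (l 16692448))) (a (c (l 16773352) (l 16669480)) (c (l 16809704) (l 16711144)))) (b (a (c (a (l 16782320) (l 16801232)) (a (l 16678584) (l 16700192))) (c (a (l 16819032) (l 16835800)) (a (l 16720592) (l 16739880)))) (a (c (a (b (l 16796832) (c (l 16832160) (l 16781264))) (b (l 16815464) (l 16804176))) (b (a (c (l 16719896) (l 30)) (c (l 16740520) (l 16690592))) (b (a (c (l 16727736) (l 30)) (a (l 16676248) (l 16686504))) (c (a (a (c (l 16740504) (l 30)) (l 16717232)) (a (l 16748376) (l 16758264))) (c (a (l 30) (a (l 30) (l 16721392))) (l 30)))))) (c (a (l 16837744) (l 16854152)) (b (a (l 16693704) (l 16733656)) (c (a (l 16770032) (l 16788192)) (a (b (l 16719112) (a (c (l 16731464) (l 30)) (l 16708296))) (a (l 16736344) (l 16745760)))))))))) (b (a (a (b (l 16734920)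 (l 16765216)) (l 16807736)) (a (l 16860736) (l 16909640))) (b (a (a (c (l 16843920) (l 16752048)) (l 16851480)) (l 16902104)) (a (b (a (c (l 16868864) (l 16757848)) (l 16874952)) (a (c (l 16886208) (b (l 16750784) (c (l 16824272) (a (l 16765376) (l 16794400))))) (b (l 16845136) (c (l 16935248) (a (l 16821632) (l 16868040)))))) (c (b (l 16977272) (l 16990736)) (b (l 16908696) (a (b (l 16896336) (l 16883032)) (l 16944656)))))))), by decide +kernel⟩

theorem s15_pm_022 : ∃ t, chk3 f_pm_022 t 15 7 1 = true := ex3_b k13_pm_022 k14_pm_022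

theorem s16_pm_022 : ∃ t, chk3 f_pm_022 t 14 31 1 = true := ex3_a k11_pm_022 k12_pm_022

theorem s17_pm_022 : ∃ t, chk3 f_pm_022 t 14 15 1 = true := ex3_b k10_pm_022 s16_pm_022

theorem s18_pm_022 : ∃ t, chk3 f_pm_022 t 14 7 1 = true := ex3_b k9_pm_022 s17_pm_022

theorem s19_pm_022 : ∃ t, chk3 f_pm_022 t 7 7 1 = true := ex3_a s18_pm_022 s15_pm_022

theorem s20_pm_022 : ∃ t, chk3 f_pm_022 t 7 3 1 = true := ex3_b k8_pm_022 s19_pm_022

theorem s21_pm_022 : ∃ t, chk3 f_pm_022 t 7 1 1 = true := ex3_b k7_pm_022 s20_pm_022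

theorem s22_pm_022 : ∃ t, chk3 f_pm_022 t 13 15 1 = true := ex3_b k5_pm_022 k6_pm_022

theorem s23_pm_022 : ∃ t, chk3 f_pm_022 t 13 7 1 = true := ex3_b k4_pm_022 s22_pm_022

theorem s24_pm_022 : ∃ t, chk3 f_pm_022 t 6 7 1 = true := ex3_a k3_pm_022 s23_pm_022

theorem s25_pm_022 : ∃ t, chk3 f_pm_022 t 6 3 1 = true := ex3_b k2_pm_022 s24_pm_022

theorem s26_pm_022 : ∃ t, chk3 f_pm_022 t 6 1 1 = true := ex3_b k1_pm_022 s25_pm_022

theorem s27_pm_022 : ∃ t, chk3 f_pm_022 t 3 1 1 = true := ex3_a s26_pm_022 s21_pm_022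

theorem s28_pm_022 : ∃ t, chk3 f_pm_022 t 1 1 1 = true := ex3_a k0_pm_022 s27_pm_022

theorem c_pm_022 : CertF 0 536870912 0 536870912 402653184 67108864 true true false .pp 0 2 2
    ndF0q0 ndF0q2 pcF2 cut_pm_022 Ext.none :=
  certF2 (fam := true) (s1 := true) (s2 := false) (a := 0) (b := 2) (c := 2) (cn := .pp) (n1 := ndF0q0) (n2 := ndF0q2) (pc := pcF2) (cut := cut_pm_022) (xt := Ext.none) (P1 := 0) (W1 := 536870912) (P2 := 0) (W2 := 536870912) (P3 := 402653184) (W3 := 67108864)
    rfl (fun _ => rfl) s28_pm_022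

noncomputable def cut_pm_023 : Cut := Cut.of [[⟨3, 0, 0, 1449551462⟩], [⟨4, 0, 0, 2845415833⟩]]

noncomputable def f_pm_023 : ℕ → ℕ → ℕ → ℕ → Bool := onCell 0 536870912 0 536870912 402653184 67108864
    (rowF 0 true true false .up 0 2 3 (qsf 0 536870912 0 536870912 3) ndF0q0 ndF0q2 pcF3 cut_pm_023 Ext.none)

def k0_pm_023 : ∃ t, chk3 f_pm_023 t 1 1 1 = true :=
  ⟨(a (l 1) (b (a (a (l 1) (a (b (b (l 1) (l 1)) (l 1)) (b (b (l 16802696) (l 16821872)) (b (l 94522886839) (l 112239643639))))) (b (a (b (a (l 16832760) (l 16847432)) (a (l 16862448) (l 16884776))) (b (a (l 16828952) (l 14)) (a (l 16892048) (l 16845648)))) (a (b (a (l 16892912) (l 16927224)) (a (l 16878800) (l 16936592))) (b (a (l 16940768) (l 16939920)) (a (l 16970808) (b (l 16982832) (l 16991176))))))) (a (b (l 1) (l 1)) (b (a (b (a (l 16793952) (l 16885240)) (a (l 175053385607) (l 137472541127))) (b (a (l 16934744) (l 16966536)) (a (l 16886432) (l 16931232)))) (a (b (a (l 1) (b (l 193843901495) (l 1)))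 (l 1)) (b (a (b (l 16840680) (l 138546270967)) (b (l 16899008) (b (l 16884128) (l 16893144)))) (a (b (l 160558091479) (l 1)) (b (l 16913632) (a (l 126198518183) (b (l 16951056) (c (l 16999696) (b (l 16931776) (l 16940384))))))))))))), by decide +kernel⟩

theorem c_pm_023 : CertF 0 536870912 0 536870912 402653184 67108864 true true false .up 0 2 3
    ndF0q0 ndF0q2 pcF3 cut_pm_023 Ext.none :=
  certF0 (fam := true) (s1 := true) (s2 := false) (a := 0) (b := 2) (c := 3) (cn := .up) (n1 := ndF0q0) (n2 := ndF0q2) (pc := pcF3) (cut := cut_pm_023) (xt := Ext.none) (P1 := 0) (W1 := 536870912) (P2 := 0) (W2 := 536870912) (P3 := 402653184) (W3 := 67108864)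
    rfl k0_pm_023

noncomputable def cut_pm_101 : Cut := Cut.of [[⟨3, 0, 0, 1449551462⟩], [⟨4, 0, 0, 2845415833⟩], [⟨0, 1, 0, 67108864⟩, ⟨1, 0, 0, 67108864⟩, ⟨2, 1, 0, 67108864⟩]]

noncomputable def f_pm_101 : ℕ → ℕ → ℕ → ℕ → Bool := onCell 536870912 536870912 536870912 536870912 402653184 67108864
    (rowF 1 true true false .npn 1 0 1 (qsf 536870912 536870912 0 536870912 1) ndF0q1 ndF0q0 pcF1 cut_pm_101 Ext.none)

def k0_pm_101 : ∃ t, chk3 f_pm_101 t 1 1 1 = true :=
  ⟨(l 6), by decide +kernel⟩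

theorem c_pm_101 : CertF 536870912 536870912 0 536870912 402653184 67108864 true true false .npn 1 0 1
    ndF0q1 ndF0q0 pcF1 cut_pm_101 Ext.none :=
  certF1 (fam := true) (s1 := true) (s2 := false) (a := 1) (b := 0) (c := 1) (cn := .npn) (n1 := ndF0q1) (n2 := ndF0q0) (pc := pcF1) (cut := cut_pm_101) (xt := Ext.none) (P1 := 536870912) (W1 := 536870912) (P2 := 0) (W2 := 536870912) (P3 := 402653184) (W3 := 67108864)
    rfl (fun _ => rfl) k0_pm_101

noncomputable def cut_pm_102 : Cut := Cut.of [[⟨3, 0, 0, 1449551462⟩], [⟨4, 0, 0, 2845415833⟩], [⟨0, 1, 0, 67108864⟩, ⟨1, 0, 0, 67108864⟩, ⟨2, 1, 0, 67108864⟩], [⟨0, 1, 0, 33554432⟩, ⟨1, 0, 1, 33554432⟩, ⟨2, 1, 1, 33554432⟩]]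

noncomputable def f_pm_102 : ℕ → ℕ → ℕ → ℕ → Bool := onCell 536870912 536870912 1073741824 536870912 402653184 67108864
    (rowF 1 true true false .npp 1 0 2 (qsf 536870912 536870912 0 536870912 2) ndF0q1 ndF0q0 pcF2 cut_pm_102 Ext.none)

def k0_pm_102 : ∃ t, chk3 f_pm_102 t 2 1 1 = true :=
  ⟨(b (l 6) (b (b (l 6) (l 2)) (l 2))), by decide +kernel⟩

def k1_pm_102 : ∃ t, chk3 f_pm_102 t 3 2 1 = true :=
  ⟨(b (l 6) (b (l 6) (a (l 6) (a (l 6) (b (l 6) (a (a (l 6) (a (l 6) (a (l 6) (b (l 6) (a (l 16671536) (l 16669232)))))) (a (b (l 6) (c (a (b (l 16648352) (l 16647960)) (b (l 16639528) (l 16638624))) (a (l 16636896) (l 16628000)))) (b (a (c (l 16633744) (l 16624216)) (c (l 16625888) (l 16616272))) (a (c (b (l 16630896) (l 16629512)) (l 16619240)) (c (b (l 16622424) (l 16620592)) (l 16610584))))))))))), by decide +kernel⟩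

def k2_pm_102 : ∃ t, chk3 f_pm_102 t 6 6 1 = true :=
  ⟨(a (b (l 6) (a (l 2) (a (l 2) (b (l 16920536) (l 2))))) (b (a (l 6) (b (l 6) (b (l 6) (a (l 16874144) (l 16850648))))) (a (b (b (a (l 16921168) (l 16912392)) (l 16942920)) (a (l 2) (l 16980920))) (b (a (b (l 16855952) (l 16903320)) (b (l 16873976) (l 16899552))) (a (b (l 16953552) (l 16983024)) (b (l 16928408) (l 16958328))))))), by decide +kernel⟩

def k3_pm_102 : ∃ t, chk3 f_pm_102 t 14 6 1 = true :=
  ⟨(b (a (b (l 6) (a (b (l 16804336) (l 16824416)) (b (l 16777560) (l 16796208)))) (b (b (l 6) (a (c (l 16746648) (l 16725616)) (c (a (l 16726480) (l 16713184)) (l 16700656)))) (a (b (c (l 16762208) (l 16737680)) (l 16766536)) (b (c (l 16733152) (l 16710720)) (c (l 16749360) (l 16723400)))))) (a (b (a (b (l 16847040) (l 16871928)) (b (l 16817488) (l 16841504))) (a (b (l 16898544) (l 16927544)) (b (l 16866816) (l 16894856)))) (b (a (b (l 16786184) (l 16808656)) (b (c (l 16768656) (l 16738896)) (c (l 16791336)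 (l 16757504)))) (a (b (l 16832440) (l 16859056)) (b (l 16795888) (l 16818288)))))), by decide +kernel⟩

def k4_pm_102 : ∃ t, chk3 f_pm_102 t 15 12 1 = true :=
  ⟨(a (b (a (b (b (l 6) (a (l 16685856) (l 16674504))) (c (a (l 16700168) (l 16687312)) (a (l 16682296) (l 16670216)))) (b (c (a (l 16669544) (c (l 16662104) (l 16655488))) (a (l 16655616) (l 16645360))) (c (a (l 16674880) (c (l 16666680) (l 16658880))) (a (l 16658488) (l 16647032))))) (a (b (c (a (l 16711448) (l 16697224)) (a (l 16690504) (l 16677208))) (c (a (l 16725880) (l 16710344)) (l 16694328))) (b (c (a (l 16683336) (c (l 16674200) (l 16665088))) (a (l 16664176) (l 16651304))) (c (a (l 16694920) (c (l 16685080) (l 16674480))) (a (l 16672688) (l 16658520)))))) (b (a (b (c (a (c (l 16651552) (l 16645144)) (c (l 16641296) (l 16635064))) (a (l 16635320) (l 16625480))) (c (a (c (l 16654784) (l 16647280)) (c (l 16643240) (l 16635992))) (a (l 16635848) (l 16624928)))) (b (c (a (c (l 16631320) (l 16625224))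 (b (l 16619184) (l 16618240))) (a (l 16615832) (l 16606352))) (c (a (c (l 16632040) (l 16625008)) (c (l 16642144) (l 16614312))) (a (l 16614248) (l 16603800))))) (a (b (c (a (c (l 16660816) (l 16652064)) (a (l 16646800) (l 16640488))) (a (l 16638824) (l 16626656))) (c (a (a (l 16668680) (l 16661312)) (c (b (l 16653240) (l 16657856)) (l 16645696))) (a (l 16644664) (l 16631016)))) (b (c (a (a (l 16634272) (l 16628144)) (a (l 16643080) (l 16637136))) (a (l 16614792) (l 16603224))) (c (a (c (b (l 16639504) (l 16643296)) (b (l 16630480) (l 16633624))) (c (b (l 16626192) (l 16629192)) (b (l 16617496) (l 16619888)))) (a (c (l 16622528) (l 16613064)) (c (l 16609512) (l 16600368)))))))), by decide +kernel⟩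

def k5_pm_102 : ∃ t, chk3 f_pm_102 t 30 13 1 = true :=
  ⟨(b (a (b (c (a (l 16743304) (l 16726472)) (l 16707552)) (c (a (l 16764024) (l 16745872)) (l 16723776))) (b (c (a (l 16709768) (l 16693224)) (a (l 16684176) (l 16668736))) (c (a (l 16727800) (b (l 16705368) (l 16714480))) (a (l 16698552) (l 16681856))))) (a (b (a (l 16767752) (l 16769736)) (a (l 16787984) (l 16767312))) (b (a (c (l 16746056) (l 16713400)) (c (b (l 16722800) (l 16730296)) (l 16695176))) (a (c (l 16770360) (l 16728688)) (c (l 16742848) (l 16708664)))))), by decide +kernel⟩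

def k6_pm_102 : ∃ t, chk3 f_pm_102 t 31 26 1 = true :=
  ⟨(a (b (c (b (a (l 16673608) (c (l 16663392) (l 16652568))) (a (l 16680416) (c (l 16669760) (l 16658160)))) (a (l 16653416) (c (l 16644008) (l 16632768)))) (c (a (b (l 16687976) (l 16696368)) (b (c (l 16677040) (l 16664608)) (c (l 16685128) (l 16671840)))) (a (b (l 16662032) (l 16668656)) (b (l 16645984) (l 16651944))))) (b (b (c (a (a (l 16646496) (l 16639008)) (c (a (l 16636664) (l 16629312)) (l 16623024))) (a (l 16621928) (l 16607992))) (c (a (c (a (l 16657488) (l 16649424)) (l 16642368)) (c (a (l 16641504) (l 16633720)) (a (l 16630752) (l 16623184)))) (a (l 16625656) (c (l 16616272) (l 16605552))))) (c (a (b (c (a (l 16664128) (l 16655640)) (a (l 16652112) (l 16643888))) (c (a (l 16671664) (c (l 16665928) (l 16659640))) (a (l 16658808) (l 16650208)))) (b (c (a (c (l 16650152) (l 16644408)) (a (l 16641064) (l 16647456))) (a (l 16635776) (l 16627752))) (c (a (b (l 16652200) (c (l 16658904) (l 16652648)))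 (b (c (l 16646568) (l 16640648)) (c (a (l 16652232) (l 16647816)) (l 16643904)))) (a (b (l 16640104) (l 16643272)) (b (l 16631776) (l 16634728)))))) (a (b (c (l 16636088) (l 16624184)) (c (l 16641800) (l 16629104))) (a (b (l 16618488) (c (l 16629376) (l 16617072))) (b (l 16610816) (c (l 16621200) (l 16609160)))))))), by decide +kernel⟩

def k7_pm_102 : ∃ t, chk3 f_pm_102 t 62 27 1 = true :=
  ⟨(b (c (a (b (l 16703832) (l 16710320)) (b (c (a (l 16696840) (l 16687368)) (l 16678080)) (c (l 16697872) (l 16683256)))) (a (b (l 16674592) (l 16679784)) (b (c (l 16664096) (l 16650136)) (c (l 16668680) (l 16654144))))) (a (c (b (l 16717400) (l 16725128)) (b (l 16685528) (l 16691880))) (c (b (c (l 16714680) (l 16688976)) (c (l 30) (l 16695272))) (b (c (l 16673792) (l 16658656)) (c (l 16679464) (l 16663704)))))), by decide +kernel⟩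

def k8_pm_102 : ∃ t, chk3 f_pm_102 t 63 54 1 = true :=
  ⟨(c (a (b (c (a (l 16677968) (b (l 16667624) (l 16669728))) (a (l 16664424) (l 16655408))) (c (a (l 16682960) (c (l 16676568) (l 16669680))) (a (l 16668864) (l 16659360)))) (b (c (a (b (c (l 16661712) (l 16655296)) (c (a (l 16665984) (l 16661280)) (l 16657096))) (b (c (a (l 16654880) (c (l 16651904) (l 16648792))) (a (l 16648568) (l 16644112))) (c (b (a (l 16656160) (l 16651536)) (a (l 16657048) (c (l 30) (l 16650768)))) (b (l 16647488) (a (l 16650600) (l 16645984)))))) (a (b (l 16645680) (l 16647296)) (b (c (l 16640064) (l 16633792)) (c (b (l 16641136) (l 16641880)) (l 16635120))))) (b (c (a (c (l 16665656) (l 16659000)) (c (a (l 16658432) (c (l 30) (b (l 16651600) (l 30)))) (a (l 16651896) (c (l 16648800) (l 16645576))))) (a (l 16649024) (c (a (l 16645360) (l 16640728)) (l 16636544)))) (c (c (l 30) (a (l 16661024) (a (l 16653728) (b (l 16648448) (l 16649328))))) (a (l 16650864) (c (a (l 16647072) (l 16642320))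 (l 16638080))))))) (a (b (c (a (l 16650896) (l 16642176)) (l 16633168)) (c (a (l 16654800) (l 16645624)) (l 16636320))) (b (c (a (l 16633528) (b (l 16624392) (l 16625552))) (a (l 16620600) (l 16612296))) (a (c (l 16636512) (l 16623104)) (c (b (l 16626808) (l 16628168)) (l 16614376)))))), by decide +kernel⟩

def k9_pm_102 : ∃ t, chk3 f_pm_102 t 63 55 1 = true :=
  ⟨(c (a (b (c (a (l 16688464) (c (l 30) (l 16674504))) (a (l 16673808) (c (l 16667360) (l 16660224)))) (c (l 30) (a (l 16679288) (c (l 16672432) (l 16665024))))) (a (b (c (c (l 30) (b (l 16663168) (l 30))) (c (b (l 16656264) (l 16658408)) (b (l 16649368) (l 16651384)))) (c (l 30) (c (b (l 16660664) (l 30)) (b (l 16653520) (l 16655776))))) (b (b (c (c (l 30) (a (l 16655664) (c (l 30) (b (l 16648568) (l 30))))) (c (a (l 16648896) (l 16646632)) (a (l 16642128) (l 16637328)))) (c (l 30) (a (c (l 16650832) (l 16643944)) (c (a (l 16647072) (l 16644568)) (l 16639016))))) (c (l 30) (c (b (a (l 16652896) (c (l 30)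 (l 16646008))) (l 30)) (b (a (l 16645880) (l 16640824)) (a (l 16647936) (c (l 16644496) (l 16640976))))))))) (a (a (b (l 16662360) (c (l 16664088) (l 16648912))) (b (c (l 16649520) (l 16635272)) (c (l 16653920) (l 16639128)))) (b (c (a (c (l 16643408) (l 16636456)) (c (b (l 16633000) (l 16634640)) (b (l 16626272) (l 16627800)))) (a (l 16626032) (c (l 16620248) (l 16613464)))) (b (a (c (l 16642800) (l 16628512)) (c (a (l 16635376) (l 16640936)) (l 16618992))) (c (a (l 16644864) (c (a (l 16640808) (l 16635704)) (l 16631168))) (a (l 16630320) (l 16620552))))))), by decide +kernel⟩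

def k10_pm_102 : ∃ t, chk3 f_pm_102 t 6 7 1 = true :=
  ⟨(b (a (l 2) (b (a (l 2) (a (l 2) (l 16996912))) (l 2))) (l 2)), by decide +kernel⟩

def k11_pm_102 : ∃ t, chk3 f_pm_102 t 14 14 1 = true :=
  ⟨(a (b (a (l 16968944) (b (l 16924088) (l 16951448))) (a (l 2) (l 16966848))) (b (a (b (l 16890152) (l 16898152)) (b (l 16852480) (l 16841720))) (a (b (l 16945976) (l 16970792)) (b (l 16849544) (l 16876176))))), by decide +kernel⟩

def k12_pm_102 : ∃ t, chk3 f_pm_102 t 30 14 1 = true :=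
  ⟨(b (a (b (c (l 16804896) (l 16778536)) (c (l 16817496) (l 16807048))) (b (a (c (l 16770456) (l 16746304)) (c (l 16755024) (l 16724456))) (a (c (l 16828608) (l 16768480)) (c (l 16753096) (l 16742504))))) (a (b (a (l 16863840) (l 16802144)) (b (l 16813008) (l 16826688))) (b (a (c (l 16882352) (l 16784232)) (b (l 16759104) (l 16758296))) (a (c (l 16911384) (l 16817008)) (c (b (l 16885304) (l 16899920)) (l 16751336)))))), by decide +kernel⟩

def k13_pm_102 : ∃ t, chk3 f_pm_102 t 62 14 1 = true :=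
  ⟨(b (b (a (c (b (l 16725392) (l 16727288)) (b (l 16698872) (l 16706432))) (a (c (c (l 16718456) (l 16711728)) (b (l 16682832) (l 16689648))) (c (b (l 16710624) (l 16709472)) (b (l 16672216) (l 16699472))))) (c (a (b (l 16727856) (l 16727056)) (a (b (l 16727376) (l 16748736)) (b (l 16706880) (l 16708120)))) (a (b (l 16714536) (l 16723096)) (a (b (l 16697032) (l 16704864)) (b (l 16706304) (l 16692688)))))) (b (c (b (a (l 16766920) (c (l 16806816) (l 16717208))) (a (l 16826624) (a (l 16829464) (l 16774640)))) (a (b (l 16719640) (l 16718664)) (b (c (l 16711464) (l 16697240)) (c (l 16711464) (l 30))))) (a (c (b (l 16864320) (l 16880064)) (a (l 16732344) (l 16724112))) (c (b (c (l 16863776) (l 16797536)) (l 16795216)) (b (c (l 16710296) (l 16706912)) (a (l 16776952) (l 16699608))))))), by decide +kernel⟩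

def k14_pm_102 : ∃ t, chk3 f_pm_102 t 126 28 1 = true :=
  ⟨(b (c (b (c (l 30) (a (l 16685336) (c (l 30) (l 16670360)))) (c (a (l 16698704) (l 30)) (l 30))) (b (c (a (l 16669536) (c (l 16662672) (l 16654992))) (a (l 16653776) (l 16643488))) (c (a (l 16675560) (c (l 16668264) (l 16660304))) (a (l 16659184) (l 16648368))))) (c (b (c (a (b (l 16758632) (l 16770176)) (a (l 16689648) (l 16685376))) (l 30)) (a (c (l 16765872) (l 16693432)) (c (b (l 16745080) (l 16777320)) (l 30)))) (b (c (a (l 16682176) (b (l 16668728) (l 30))) (a (l 16665176) (b (l 16652368) (l 16655232)))) (c (l 30) (a (l 16671688) (b (l 16658216) (l 16661336))))))), by decide +kernel⟩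

def k15_pm_102 : ∃ t, chk3 f_pm_102 t 127 28 1 = true :=
  ⟨(b (a (c (b (c (l 30) (c (l 30) (b (l 16658160) (l 30)))) (l 30)) (b (c (c (b (l 16650752) (l 16653128)) (b (l 16643344) (l 16645592))) (c (l 16637000) (l 16629536))) (b (c (c (l 16655640) (l 16647968)) (l 16636472)) (c (c (l 30) (l 16650472)) (l 16638768))))) (c (b (b (c (l 30) (c (l 30) (a (l 16650112) (c (l 30) (l 16642984))))) (l 30)) (l 30)) (b (c (c (b (a (l 16642856) (l 16637616)) (a (l 16645024) (c (l 16641472) (l 16637832)))) (b (l 16633032) (a (l 16637648) (l 16632376)))) (c (b (l 16625832) (l 16627680)) (l 16619488))) (c (c (b (a (l 16647320) (c (l 30) (l 16639952))) (l 30)) (b (a (l 16639816) (l 16634408)) (a (l 16642104) (c (l 16638432) (l 16634672))))) (c (b (l 16629656) (a (l 16634472) (l 16629032))) (b (l 16622208) (l 16624176))))))) (a (c (c (b (b (l 30) (c (l 16730912) (l 30))) (b (c (l 16763768) (l 30)) (c (l 16775280) (l 16726960)))) (l 30)) (b (c (c (l 30) (b (l 16653112) (l 30)))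 (c (b (l 16645176) (l 16647808)) (b (l 16637232) (l 16639728)))) (c (l 30) (b (c (l 16650592) (l 16642368)) (c (l 30) (l 16645128)))))) (c (b (l 30) (c (c (a (b (l 16751440) (l 16763296)) (b (l 30) (l 16755024))) (l 30)) (l 30))) (b (b (c (c (l 30) (a (l 16644528) (c (l 30) (l 16636912)))) (c (a (l 16636760) (l 16631176)) (l 16626264))) (c (l 30) (c (a (l 16639176) (c (l 16635392) (l 16631504))) (a (l 16631280) (l 16625672))))) (c (l 30) (b (c (a (l 16641720) (c (l 30) (l 16633864))) (a (l 16633688) (l 16627936))) (c (l 30) (a (l 16636240) (c (l 16632344) (l 16628320)))))))))), by decide +kernel⟩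

def k16_pm_102 : ∃ t, chk3 f_pm_102 t 63 29 1 = true :=
  ⟨(a (b (c (b (c (a (l 16807784) (b (l 16788208) (l 16798744))) (a (l 16694752) (b (l 16683600) (l 16726288)))) (c (a (l 16827432) (l 16813968)) (a (l 16757640) (b (l 16737176) (l 16768728))))) (b (c (l 30) (a (l 16678608) (b (l 16664536) (l 30)))) (c (a (l 16687816) (l 30)) (l 30)))) (c (b (c (l 16818680) (a (l 16798352) (b (l 16779000) (l 16788968)))) (c (l 16857392) (a (l 16816968) (l 16803392)))) (b (c (a (l 16687848) (b (l 16687536) (l 16719120))) (l 30)) (a (c (l 16749608) (l 16682232)) (c (b (l 16750408) (l 16760416)) (l 30)))))) (b (c (b (a (c (b (l 16731000) (l 16783912)) (b (l 30) (c (l 16723008) (l 30)))) (c (a (b (l 16739968) (l 16772248)) (b (c (l 16766728) (l 30)) (l 16722256))) (l 30))) (b (a (c (l 16794552) (c (l 16755144) (l 30))) (c (a (l 16783208) (l 16775384)) (a (c (l 16742800) (l 30)) (l 30)))) (a (c (l 16804864) (c (l 16765976) (l 16719080))) (c (l 16790072) (c (a (l 16753968) (l 16745696))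 (l 30)))))) (b (b (c (l 30) (b (c (l 30) (a (l 16647272) (a (l 16638224) (l 16632216)))) (l 30))) (l 30)) (l 30))) (c (a (b (c (l 16819776) (b (l 16721760) (l 16774080))) (c (l 16838616) (b (l 16784160) (l 16793936)))) (c (b (a (l 16809216) (l 16801928)) (l 16825208)) (b (a (b (l 16730728) (l 16762392)) (b (c (l 16756760) (l 30)) (c (l 16767504) (l 16741176)))) (b (a (l 16772776) (l 16764936)) (l 16779064))))) (c (b (a (b (l 30) (c (l 16715224) (l 30))) (l 30)) (c (a (b (l 16746768) (l 16757024)) (a (b (l 16734448) (l 16745024)) (b (l 30) (l 16736768)))) (a (b (l 30) (l 16711448)) (l 30)))) (l 30))))), by decide +kernel⟩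

def k17_pm_102 : ∃ t, chk3 f_pm_102 t 14 15 1 = true :=
  ⟨(a (l 2) (b (b (a (l 2) (l 16963584)) (l 2)) (l 2))), by decide +kernel⟩

def k18_pm_102 : ∃ t, chk3 f_pm_102 t 30 30 1 = true :=
  ⟨(a (b (a (l 16939328) (l 16900952)) (b (l 16949400) (l 2))) (b (b (a (l 16896160) (c (l 16913880) (l 16838400))) (a (l 16909944) (l 16848528))) (a (b (l 16923352) (l 16936128)) (b (l 16904376) (l 16917912))))), by decide +kernel⟩

def k19_pm_102 : ∃ t, chk3 f_pm_102 t 62 30 1 = true :=
  ⟨(b (c (a (b (l 16894864) (l 16908976)) (b (l 16874112) (l 16889112))) (a (b (l 16793240) (l 16809408)) (b (c (l 16788584) (l 16703552)) (a (l 16811648) (l 16777568))))) (b (a (c (l 16922416) (l 16845896)) (c (l 16903416) (a (l 16827792) (l 16815200)))) (a (c (l 16935432) (l 16861064)) (c (l 16917048) (a (l 16843488) (l 16831240)))))), by decide +kernel⟩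

def k20_pm_102 : ∃ t, chk3 f_pm_102 t 63 30 1 = true :=
  ⟨(a (b (c (b (c (l 16874064) (l 16807168)) (l 16825408)) (b (a (c (l 16789280) (l 16681128)) (c (b (l 16770144) (l 16779592)) (b (l 16702136) (l 16712184)))) (c (a (l 16806912) (l 16793264)) (a (l 16762808) (b (l 16742920) (l 16752408)))))) (c (b (l 16882600) (l 16897152)) (b (a (c (l 16823536) (l 16780536)) (b (l 16742032) (l 16771664))) (a (c (l 16839464) (l 16797568)) (b (l 16801104) (l 16809408)))))) (b (c (a (b (c (l 16856320) (l 16808072)) (l 16849448)) (b (c (l 16843648) (a (l 16797432) (l 16790096))) (c (l 16860976) (l 16812400)))) (a (c (b (b (l 16712904) (l 16764680)) (b (l 16774224) (l 16783496))) (b (b (l 30) (c (l 16707736) (l 30))) (b (c (l 16738712) (l 30)) (c (l 16748440) (l 16704088))))) (c (b (a (b (l 16721880) (l 16752992)) (b (c (l 16747248) (l 30)) (c (l 16757432) (l 16732456)))) (b (a (l 16762832) (l 16754992)) (l 16747616))) (c (b (l 30) (a (b (l 16726448) (l 16736472)) (b (l 30)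 (l 16728240)))) (l 30))))) (c (b (a (l 16865664) (l 16853584)) (a (l 16880920) (l 16869448))) (a (b (c (l 16796912) (b (l 16725368) (l 16755664))) (c (l 16813896) (b (l 16764712) (l 16773568)))) (b (c (a (l 16786216) (l 16778856)) (a (b (l 16713416) (l 16744000)) (b (c (l 16738176) (l 30)) (c (l 16747832) (l 16724112))))) (a (b (l 16734432) (l 16743216)) (c (l 16796696) (b (l 16745504) (l 16754752))))))))), by decide +kernel⟩

def k21_pm_102 : ∃ t, chk3 f_pm_102 t 15 31 1 = true :=
  ⟨(a (a (l 2) (b (a (l 2) (b (l 16940968) (l 2))) (l 2))) (a (b (a (b (l 16860616) (l 16957864)) (b (c (l 16942064) (a (l 16872704) (l 16861712))) (c (l 16976488) (l 16908888)))) (a (l 2) (b (l 16977160) (l 2)))) (b (a (c (b (l 16924456) (l 16962432)) (b (a (l 16850328) (c (l 16858848) (l 16818176))) (a (l 16894952) (l 16885336)))) (b (c (l 16842432) (a (b (l 16771312) (l 16838960)) (c (l 16835216) (b (a (l 16781184) (l 16773992)) (l 16784720))))) (c (l 16947320) (c (l 16868576) (a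 (l 16856424) (b (l 16832544) (l 16858192))))))) (a (c (l 17012728) (b (l 16932000) (l 16969856))) (c (l 16950568) (b (a (l 16920176) (l 16849128)) (l 16915936))))))), by decide +kernel⟩

theorem s22_pm_102 : ∃ t, chk3 f_pm_102 t 31 30 1 = true := ex3_a k19_pm_102 k20_pm_102

theorem s23_pm_102 : ∃ t, chk3 f_pm_102 t 15 30 1 = true := ex3_a k18_pm_102 s22_pm_102

theorem s24_pm_102 : ∃ t, chk3 f_pm_102 t 15 15 1 = true := ex3_b s23_pm_102 k21_pm_102

theorem s25_pm_102 : ∃ t, chk3 f_pm_102 t 7 15 1 = true := ex3_a k17_pm_102 s24_pm_102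

theorem s26_pm_102 : ∃ t, chk3 f_pm_102 t 63 28 1 = true := ex3_a k14_pm_102 k15_pm_102

theorem s27_pm_102 : ∃ t, chk3 f_pm_102 t 63 14 1 = true := ex3_b s26_pm_102 k16_pm_102

theorem s28_pm_102 : ∃ t, chk3 f_pm_102 t 31 14 1 = true := ex3_a k13_pm_102 s27_pm_102

theorem s29_pm_102 : ∃ t, chk3 f_pm_102 t 15 14 1 = true := ex3_a k12_pm_102 s28_pm_102

theorem s30_pm_102 : ∃ t, chk3 f_pm_102 t 7 14 1 = true := ex3_a k11_pm_102 s29_pm_102

theorem s31_pm_102 : ∃ t, chk3 f_pm_102 t 7 7 1 = true := ex3_b s30_pm_102 s25_pm_102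

theorem s32_pm_102 : ∃ t, chk3 f_pm_102 t 3 7 1 = true := ex3_a k10_pm_102 s31_pm_102

theorem s33_pm_102 : ∃ t, chk3 f_pm_102 t 63 27 1 = true := ex3_b k8_pm_102 k9_pm_102

theorem s34_pm_102 : ∃ t, chk3 f_pm_102 t 31 27 1 = true := ex3_a k7_pm_102 s33_pm_102

theorem s35_pm_102 : ∃ t, chk3 f_pm_102 t 31 13 1 = true := ex3_b k6_pm_102 s34_pm_102

theorem s36_pm_102 : ∃ t, chk3 f_pm_102 t 15 13 1 = true := ex3_a k5_pm_102 s35_pm_102

theorem s37_pm_102 : ∃ t, chk3 f_pm_102 t 15 6 1 = true := ex3_b k4_pm_102 s36_pm_102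

theorem s38_pm_102 : ∃ t, chk3 f_pm_102 t 7 6 1 = true := ex3_a k3_pm_102 s37_pm_102

theorem s39_pm_102 : ∃ t, chk3 f_pm_102 t 3 6 1 = true := ex3_a k2_pm_102 s38_pm_102

theorem s40_pm_102 : ∃ t, chk3 f_pm_102 t 3 3 1 = true := ex3_b s39_pm_102 s32_pm_102

theorem s41_pm_102 : ∃ t, chk3 f_pm_102 t 3 1 1 = true := ex3_b k1_pm_102 s40_pm_102

theorem s42_pm_102 : ∃ t, chk3 f_pm_102 t 1 1 1 = true := ex3_a k0_pm_102 s41_pm_102

theorem c_pm_102 : CertF 536870912 536870912 0 536870912 402653184 67108864 true true false .npp 1 0 2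
    ndF0q1 ndF0q0 pcF2 cut_pm_102 Ext.none :=
  certF1 (fam := true) (s1 := true) (s2 := false) (a := 1) (b := 0) (c := 2) (cn := .npp) (n1 := ndF0q1) (n2 := ndF0q0) (pc := pcF2) (cut := cut_pm_102) (xt := Ext.none) (P1 := 536870912) (W1 := 536870912) (P2 := 0) (W2 := 536870912) (P3 := 402653184) (W3 := 67108864)
    rfl (fun _ => rfl) s42_pm_102

noncomputable def cut_pm_112 : Cut := Cut.of [[⟨3, 0, 0, 1449551462⟩], [⟨4, 0, 0, 2845415833⟩]]

noncomputable def f_pm_112 : ℕ → ℕ → ℕ → ℕ → Bool := onCell 536870912 536870912 1073741824 536870912 402653184 67108864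
    (rowF 1 true true false .dn 1 1 2 (qsf 536870912 536870912 536870912 536870912 2) ndF0q1 ndF0q1 pcF2 cut_pm_112 Ext.none)

def k0_pm_112 : ∃ t, chk3 f_pm_112 t 2 1 1 = true :=
  ⟨(b (l 6) (a (b (b (l 6) (a (b (a (a (l 16934432) (l 16942672)) (a (l 16949040) (l 16953840))) (a (b (a (l 16960320) (l 16971888)) (a (l 16971592) (l 16989696))) (b (l 16983704) (l 17002992)))) (a (b (a (l 16957704) (l 16960816)) (l 17007520)) (b (l 16943544) (l 17015584))))) (b (a (a (b (a (l 16969112) (l 16995736)) (a (b (l 16961792) (l 16955416)) (l 16967848))) (b (b (l 17014296) (l 17022944)) (a (l 17014672) (l 17035752)))) (b (a (l 17033392) (l 17047704)) (a (l 17051208) (l 17062864)))) (a (a (b (b (a (a (l 16939288) (l 16955920)) (l 16978848)) (a (b (l 16941032) (a (l 16926888) (l 16944552))) (b (l 16972960) (l 16968512)))) (a (b (b (a (l 16932632) (l 16949488)) (c (l 16989440) (l 16926272))) (a (b (l 16970896) (l 16972848)) (a (l 16990480) (l 16995784)))) (b (b (l 16972256) (l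 16984832)) (a (l 17003296) (l 17012528))))) (b (b (l 16998080) (a (l 16998080) (l 17023240))) (b (a (l 17003608) (l 17025416)) (a (l 17025000) (l 17039824))))) (b (a (b (l 17058520) (l 17014760)) (l 17075824)) (a (b (l 17033536) (l 17060552)) (b (l 17040208) (l 17063000))))))) (b (b (l 6) (a (b (a (l 16968536) (a (l 16969536) (l 16969000))) (a (l 17021896) (l 17025408))) (b (b (l 6) (a (l 16980080) (l 16975120))) (a (l 17002104) (a (l 17020552) (l 17017040)))))) (b (a (a (b (l 17067696) (l 17078792)) (b (l 17089448) (l 17099808))) (b (a (l 17090104) (b (l 17068952) (l 17088096))) (a (l 17125080) (l 17111856)))) (b (a (a (l 17087992) (l 17104072)) (l 17136432)) (a (a (l 17095200) (l 17107048)) (l 17130656))))))), by decide +kernel⟩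

def k1_pm_112 : ∃ t, chk3 f_pm_112 t 3 2 1 = true :=
  ⟨(a (l 6) (l 1)), by decide +kernel⟩

def k2_pm_112 : ∃ t, chk3 f_pm_112 t 3 6 1 = true :=
  ⟨(a (a (b (l 6) (b (a (b (l 6) (l 16968800)) (a (l 16948712) (l 16920520))) (a (l 16969512) (b (l 16986936) (l 17014016))))) (b (a (l 6) (l 1)) (b (a (b (a (l 16921144) (l 16912344)) (l 16942872)) (a (l 45130905127) (l 1))) (a (a (l 16990896) (l 16980896)) (a (b (l 16953520) (l 16983008)) (l 45667811127)))))) (b (l 1) (a (b (l 1) (a (b (l 1) (l 63384525479)) (l 1))) (l 1)))), by decide +kernel⟩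

def k3_pm_112 : ∃ t, chk3 f_pm_112 t 3 7 1 = true :=
  ⟨(a (b (a (b (a (l 17037232) (l 17039536)) (a (l 17066120) (l 17071472))) (b (a (l 17026816) (a (l 17015432) (l 16996888))) (a (l 17056352) (a (l 17048216) (l 17038880))))) (a (b (a (l 17112976) (l 17094248)) (a (l 17130040) (l 17113552))) (b (a (l 17082552) (a (l 17072912) (l 17067160))) (a (l 17099608) (l 17091272))))) (b (a (a (b (a (l 16968888) (l 48352159367)) (a (l 17015960) (l 16966832))) (b (a (l 41372784407) (l 1)) (a (b (l 16945944) (l 16970776)) (b (l 16870472) (l 16876144))))) (a (b (l 1) (a (b (l 1) (l 69826866695)) (l 1))) (l 1))) (a (a (b (b (l 17031840) (l 17047352)) (a (l 17058312) (l 17064648))) (b (b (a (l 16992824) (l 16963568)) (a (l 17011848) (l 16985320))) (b (a (l 17034984) (l 17013992)) (l 17053808)))) (b (a (a (b (c (l 16961944) (l 16836552)) (b (l 16949392) (l 16961080))) (b (b (l 1) (l 92375431111)) (b (l 49425794967) (a (l 16936120) (l 16917904))))) (a (b (l 1) (b (l 1) (a (l 113313392503)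 (l 1)))) (l 1))) (a (b (a (b (l 16979032) (l 17002216)) (b (a (l 16957160) (l 16940968)) (l 16978528))) (a (l 17032608) (l 16974776))) (b (a (b (a (l 16860616) (l 121903312391)) (a (l 16957864) (l 16858816))) (a (b (l 1) (l 132103905607)) (l 1))) (a (a (l 17003256) (b (l 16977152) (l 17008208))) (a (b (l 54794596743) (l 16998792)) (b (l 145525758663) (l 58552752103)))))))))), by decide +kernel⟩

theorem s4_pm_112 : ∃ t, chk3 f_pm_112 t 3 3 1 = true := ex3_b k2_pm_112 k3_pm_112

theorem s5_pm_112 : ∃ t, chk3 f_pm_112 t 3 1 1 = true := ex3_b k1_pm_112 s4_pm_112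

theorem s6_pm_112 : ∃ t, chk3 f_pm_112 t 1 1 1 = true := ex3_a k0_pm_112 s5_pm_112

theorem c_pm_112 : CertF 536870912 536870912 536870912 536870912 402653184 67108864 true true false .dn 1 1 2
    ndF0q1 ndF0q1 pcF2 cut_pm_112 Ext.none :=
  certF1 (fam := true) (s1 := true) (s2 := false) (a := 1) (b := 1) (c := 2) (cn := .dn) (n1 := ndF0q1) (n2 := ndF0q1) (pc := pcF2) (cut := cut_pm_112) (xt := Ext.none) (P1 := 536870912) (W1 := 536870912) (P2 := 536870912) (W2 := 536870912) (P3 := 402653184) (W3 := 67108864)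
    rfl (fun _ => rfl) s6_pm_112

noncomputable def cut_pm_113 : Cut := Cut.of [[⟨3, 0, 0, 1449551462⟩], [⟨4, 0, 0, 2845415833⟩], [⟨0, 1, 0, 67108864⟩, ⟨1, 1, 0, 67108864⟩, ⟨2, 2, 0, 16777216⟩]]

noncomputable def f_pm_113 : ℕ → ℕ → ℕ → ℕ → Bool := onCell 536870912 536870912 536870912 536870912 402653184 67108864
    (rowF 0 true true false .nn 1 1 3 (qsf 536870912 536870912 536870912 536870912 3) ndF0q1 ndF0q1 pcF3 cut_pm_113 Ext.none)

def k0_pm_113 : ∃ t, chk3 f_pm_113 t 2 1 1 = true :=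
  ⟨(b (b (l 1) (a (l 1) (a (l 1) (b (l 1) (l 57479290407))))) (b (b (a (l 1) (a (l 45668082679) (l 17148432))) (a (a (l 1) (a (l 1) (l 17163272))) (a (l 66069686279) (l 17127528)))) (a (b (a (a (l 1) (b (l 1) (l 17098528))) (b (a (l 17156800) (l 17177872)) (a (l 17128080) (l 17144656)))) (a (b (a (b (l 1) (l 17036136)) (b (l 17084992) (l 17076352))) (a (b (a (l 17016680) (l 17041192)) (a (b (l 17011464) (c (l 17036016) (a (l 16971848) (l 16986528)))) (b (l 17035440) (c (l 17057152) (a (l 16978648) (l 16979744)))))) (b (a (l 17060088) (l 17074384)) (a (b (l 17053808) (c (l 17072960) (a (l 17000392) (l 17030200)))) (c (l 17086128) (b (l 17047368) (l 17020464))))))) (b (a (b (l 17110352) (l 17099528)) (l 17095552)) (a (b (l 17089216) (b (l 17081664) (a (l 17051856) (l 17079584)))) (b (l 17098504) (a (l 17086208) (l 17087792))))))) (b (b (a (l 17205264) (l 17103616)) (a (c (l 17152776) (l 17150264)) (l 17095200))) (a (b (a (l 17098368) (l 17113824)) (a (b (l 17099072)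 (a (l 17087496) (l 17085560))) (b (l 17091720) (l 17078696)))) (b (l 17091704) (b (l 17068016) (a (l 17063608) (l 17044056))))))))), by decide +kernel⟩

def k1_pm_113 : ∃ t, chk3 f_pm_113 t 3 2 1 = true :=
  ⟨(a (a (b (l 1) (b (l 45668082679) (l 17148432))) (b (b (l 1) (b (l 1) (l 17163272))) (b (l 51037300743) (l 17127528)))) (b (a (b (b (l 1) (a (l 1) (l 17098528))) (a (b (l 17156800) (l 17177872)) (b (l 17128080) (l 17144656)))) (b (a (b (a (l 1) (l 17036136)) (a (l 17084992) (l 17076352))) (b (a (b (l 17016680) (l 17041192)) (b (a (l 17011464) (c (l 17036016) (b (l 16971848) (l 16986528)))) (a (l 17035440) (c (l 17057152) (b (l 16978648) (l 16979744)))))) (a (b (l 17060088) (l 17074384)) (b (a (l 17053808) (c (l 17072960) (b (l 17000392) (l 17030200)))) (c (l 17086128) (a (l 17047368) (l 17020464))))))) (a (b (a (l 17110352) (l 17099528)) (l 17095552)) (b (a (l 17089216) (a (l 17081664) (b (l 17051856) (l 17079584)))) (a (l 17098504) (b (l 17086208) (l 17087792)))))))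 (a (a (b (l 17205264) (l 17103616)) (b (c (l 17152776) (l 17150264)) (l 17095200))) (b (a (b (l 17098368) (l 17113824)) (b (a (l 17099072) (b (l 17087496) (l 17085560))) (a (l 17091720) (l 17078696)))) (a (l 17091704) (a (l 17068016) (b (l 17063608) (l 17044056)))))))), by decide +kernel⟩

def k2_pm_113 : ∃ t, chk3 f_pm_113 t 3 3 1 = true :=
  ⟨(b (a (b (a (l 17138616) (l 17102520)) (a (l 17102520) (l 17071144))) (a (b (a (l 17069632) (l 17050256)) (l 17017184)) (b (a (l 17056520) (a (l 17020888) (l 17007520))) (a (b (l 16994528) (l 16966992)) (a (l 16961280) (l 16970472)))))) (a (b (a (b (l 17069632) (l 17050256)) (l 17017184)) (a (b (l 17056520) (b (l 17020888) (l 17007520))) (b (a (l 16994528) (l 16966992)) (b (l 16961280) (l 16970472))))) (a (b (l 17090256) (b (a (l 16937696) (l 16906240)) (a (b (l 16915000) (l 16902824)) (a (l 16987728) (l 14))))) (b (a (b (l 16937696) (l 16906240)) (b (a (l 16915000) (l 16902824)) (b (l 16987728) (l 14)))) (b (a (l 16873272)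 (l 14)) (l 14)))))), by decide +kernel⟩

theorem s3_pm_113 : ∃ t, chk3 f_pm_113 t 3 1 1 = true := ex3_b k1_pm_113 k2_pm_113

theorem s4_pm_113 : ∃ t, chk3 f_pm_113 t 1 1 1 = true := ex3_a k0_pm_113 s3_pm_113

theorem c_pm_113 : CertF 536870912 536870912 536870912 536870912 402653184 67108864 true true false .nn 1 1 3
    ndF0q1 ndF0q1 pcF3 cut_pm_113 Ext.none :=
  certF0 (fam := true) (s1 := true) (s2 := false) (a := 1) (b := 1) (c := 3) (cn := .nn) (n1 := ndF0q1) (n2 := ndF0q1) (pc := pcF3) (cut := cut_pm_113) (xt := Ext.none) (P1 := 536870912) (W1 := 536870912) (P2 := 536870912) (W2 := 536870912) (P3 := 402653184) (W3 := 67108864)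
    rfl s4_pm_113

noncomputable def cut_pm_123 : Cut := Cut.of [[⟨3, 0, 0, 1449551462⟩], [⟨4, 0, 0, 2845415833⟩], [⟨0, 1, 0, 67108864⟩, ⟨1, 1, 0, 67108864⟩, ⟨2, 2, 0, 16777216⟩]]

noncomputable def f_pm_123 : ℕ → ℕ → ℕ → ℕ → Bool := onCell 536870912 536870912 0 536870912 402653184 67108864
    (rowF 0 true true false .npn 1 2 3 (qsf 536870912 536870912 0 536870912 3) ndF0q1 ndF0q2 pcF3 cut_pm_123 Ext.none)

def k0_pm_123 : ∃ t, chk3 f_pm_123 t 2 2 1 = true :=
  ⟨(a (b (a (b (l 14) (a (a (l 16879560) (l 14)) (l 14))) (l 14)) (a (b (a (a (l 16933320) (l 16926336)) (a (l 16917064) (l 16906440))) (a (b (l 16975480) (l 16955952)) (b (l 16957576) (l 16925136)))) (b (a (b (l 14) (l 16881936)) (l 14)) (a (b (l 16891096) (l 16923592)) (a (b (l 16913000) (l 16944232)) (b (l 14) (l 16929504))))))) (a (b (l 14) (b (l 14) (b (l 14) (a (a (l 16893928) (l 14)) (l 14))))) (l 14))), by decide +kernel⟩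

def k1_pm_123 : ∃ t, chk3 f_pm_123 t 2 6 1 = true :=
  ⟨(a (a (b (a (b (l 16991192) (l 16979200)) (b (l 16994480) (l 16987328))) (a (b (l 16967416) (l 16954952)) (b (l 16980688) (l 16974160)))) (b (a (b (l 16985384) (l 16984408)) (b (a (l 16971976) (l 16959656)) (l 16973560))) (a (b (l 16982464) (l 16981216)) (b (l 16975880) (l 16979304))))) (a (b (a (b (a (l 16945888) (l 16931096)) (a (l 16961304) (l 16951744))) (b (a (l 16915360) (l 14)) (a (l 16940088) (b (l 16921864) (l 16932096))))) (a (b (a (l 16966808) (l 16959400)) (l 16970856)) (b (l 16945624) (l 16956640)))) (b (a (b (l 14) (b (l 14) (a (l 16918536) (l 14)))) (l 14)) (b (a (l 16922880) (b (l 14) (l 16902216))) (a (l 16937328) (l 16914952)))))), by decide +kernel⟩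

def k2_pm_123 : ∃ t, chk3 f_pm_123 t 2 7 1 = true :=
  ⟨(a (a (b (b (a (l 16940856) (l 16967048)) (a (b (l 16930488) (l 16939376)) (b (l 16961336) (l 16969128)))) (b (a (a (l 16952856) (l 16973456)) (a (l 16989224) (l 17001032))) (a (c (a (l 17016336) (l 17036400)) (b (a (l 16949144) (l 16973728)) (a (a (l 16959936) (a (l 16970840) (l 16977624))) (b (l 16988008) (a (l 16991920) (l 17003336)))))) (c (a (l 17051400) (l 17062264)) (a (b (l 16992808) (a (a (l 17005936) (l 17010568)) (l 17016912))) (b (l 17007384) (c (l 17038976) (l 17016776)))))))) (b (b (a (l 16980120) (l 16983456)) (a (b (l 16979104) (l 16985696)) (b (l 16986872) (l 16993064)))) (a (b (l 17012992) (b (l 17042576) (a (l 17038752) (l 17066256)))) (b (l 17019928) (a (l 17059504) (l 17060880)))))) (a (b (a (b (l 16979528) (a (l 16990648) (l 16989160))) (b (l 16969144) (a (l 16985880) (l 16980784)))) (a (b (a (l 17019936) (l 17018072)) (a (l 17060456) (l 17058448))) (b (l 17011824) (l 17051696)))) (a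 (b (b (l 16953040) (l 16970808)) (b (l 16998464) (l 17037136))) (b (b (l 16933192) (l 16953712)) (b (l 17002152) (l 17018328)))))), by decide +kernel⟩

def k3_pm_123 : ∃ t, chk3 f_pm_123 t 3 1 1 = true :=
  ⟨(b (l 14) (a (b (a (b (l 14) (a (b (l 14) (l 16889728)) (l 14))) (l 14)) (a (a (b (b (l 16910200) (l 16932776)) (b (b (l 16952152) (l 16968656)) (l 16995784))) (b (b (l 16884864) (a (l 16915000) (l 16902408))) (b (b (l 16928912) (l 16944520)) (l 16970240)))) (a (b (b (l 14) (l 16882744)) (b (b (l 16903344) (l 16918456)) (l 16942632))) (b (l 14) (b (l 14) (l 16934832)))))) (b (l 14) (a (l 14) (l 14))))), by decide +kernel⟩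

theorem s4_pm_123 : ∃ t, chk3 f_pm_123 t 2 3 1 = true := ex3_b k1_pm_123 k2_pm_123

theorem s5_pm_123 : ∃ t, chk3 f_pm_123 t 2 1 1 = true := ex3_b k0_pm_123 s4_pm_123

theorem s6_pm_123 : ∃ t, chk3 f_pm_123 t 1 1 1 = true := ex3_a s5_pm_123 k3_pm_123

theorem c_pm_123 : CertF 536870912 536870912 0 536870912 402653184 67108864 true true false .npn 1 2 3
    ndF0q1 ndF0q2 pcF3 cut_pm_123 Ext.none :=
  certF0 (fam := true) (s1 := true) (s2 := false) (a := 1) (b := 2) (c := 3) (cn := .npn) (n1 := ndF0q1) (n2 := ndF0q2) (pc := pcF3) (cut := cut_pm_123) (xt := Ext.none) (P1 := 536870912) (W1 := 536870912) (P2 := 0) (W2 := 536870912) (P3 := 402653184) (W3 := 67108864)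
    rfl s6_pm_123

noncomputable def cut_pm_202 : Cut := Cut.of [[⟨3, 0, 0, 1449551462⟩], [⟨4, 0, 0, 2845415833⟩], [⟨0, 1, 0, 67108864⟩, ⟨1, 0, 0, 67108864⟩, ⟨2, 1, 0, 67108864⟩], [⟨0, 1, 0, 33554432⟩, ⟨1, 0, 1, 33554432⟩, ⟨2, 1, 1, 33554432⟩]]

noncomputable def f_pm_202 : ℕ → ℕ → ℕ → ℕ → Bool := onCell 0 536870912 1073741824 536870912 402653184 67108864
    (rowF 1 true true false .pp 2 0 2 (qsf 0 536870912 0 536870912 2) ndF0q2 ndF0q0 pcF2 cut_pm_202 Ext.none)

def k0_pm_202 : ∃ t, chk3 f_pm_202 t 2 1 1 = true :=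
  ⟨(b (b (a (l 1) (a (l 1) (a (l 1) (b (l 1) (b (l 1) (b (l 1) (l 16574488))))))) (a (b (a (b (b (l 1) (l 16501456)) (l 16547928)) (b (b (l 1) (a (l 16486400) (l 16496800))) (l 16533672))) (a (b (l 16622624) (l 16570152)) (b (a (l 16547832) (l 16519424)) (a (l 16582488) (l 16572952))))) (b (a (b (b (a (l 16524864) (l 16536240)) (l 16535768)) (l 16529488)) (b (b (a (l 16548352) (l 16561336)) (l 16582264)) (a (l 16508120) (l 16523096)))) (a (b (b (l 16503496) (l 16523944)) (l 16577632)) (b (l 16532488) (l 16602680)))))) (b (a (b (a (b (l 16619936) (l 16667112)) (b (a (l 16636208) (l 16630352)) (a (l 16687600) (l 16689920)))) (a (b (l 16711736) (l 16754392)) (b (a (l 16734696) (l 16745584)) (a (l 16780328) (l 16798288))))) (b (a (b (l 16604016) (l 16655664)) (b (l 16593336) (l 16609976))) (a (b (l 16712176) (a (l 16790536) (l 16755544))) (b (l 16654200) (l 16702240))))) (a (b (a (b (l 16795192) (l 16834184)) (b (l 16836680) (a (l 16868584) (l 16895312)))) (a (b (l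 16871208) (l 16906160)) (b (a (l 16911336) (l 16942208)) (a (l 16953080) (l 16988888))))) (b (a (b (a (l 16918136) (l 16819736)) (a (a (l 16916688) (l 16942000)) (l 16892360))) (b (l 16776720) (a (l 16844144) (l 16792096)))) (a (b (a (b (l 16961816) (l 16989368)) (b (l 16953312) (a (l 17005488) (l 16983544)))) (a (b (l 17015432) (l 17041392)) (a (b (a (l 17041096) (l 17045368)) (l 17074464)) (b (l 17031664) (a (b (l 17073312) (l 17094608)) (l 17076472)))))) (b (a (l 16922080) (l 16864592)) (a (b (l 16996152) (l 17054832)) (b (l 16943952) (l 17016576))))))))), by decide +kernel⟩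

def k1_pm_202 : ∃ t, chk3 f_pm_202 t 3 2 1 = true :=
  ⟨(b (a (b (l 1) (a (b (l 1) (b (a (l 16599744) (a (l 16610160) (l 16617296))) (a (l 16588056) (l 16602464)))) (b (a (b (l 1) (a (b (l 1) (l 16632336)) (l 6))) (l 6)) (b (a (a (l 16624456) (l 16631560)) (a (l 16638520) (l 6))) (a (l 16617104) (a (l 16627768) (l 16633136))))))) (l 6)) (a (b (a (b (b (a (l 16575400) (l 16590352)) (a (l 16561736) (l 16577416))) (b (l 16597472) (l 16561208))) (b (b (a (l 16605520) (l 16640440)) (a (l 16593328) (a (l 16604912) (b (l 16614120) (l 16670688))))) (a (l 16615832) (l 16653440)))) (a (a (l 16581368) (l 16593240)) (b (b (l 16646568) (a (l 16537632) (l 16558216))) (a (l 16513368) (l 16536752))))) (b (b (a (b (a (l 16623504) (l 6)) (a (b (l 16614696) (b (l 16610432) (l 16649328))) (b (l 6) (l 16668496)))) (l 6)) (a (a (l 16636048) (l 16608936)) (a (l 16665560) (l 6)))) (a (b (a (l 16553328) (l 16578264)) (a (l 16543016) (l 16559408))) (a (b (l 16647136) (l 16610208)) (a (b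 (l 16605808) (l 16590976)) (a (b (l 16616680) (l 16602544)) (b (b (l 6) (l 16620216)) (b (l 16613392) (c (l 16612824) (l 16602584))))))))))), by decide +kernel⟩

def k2_pm_202 : ∃ t, chk3 f_pm_202 t 6 6 1 = true :=
  ⟨(b (a (b (l 16603400) (l 16604432)) (b (l 16569048) (l 16605600))) (a (b (l 16676192) (l 16666208)) (a (b (l 16541808) (l 16559816)) (b (l 16527904) (b (l 16514624) (l 16516208)))))), by decide +kernel⟩

def k3_pm_202 : ∃ t, chk3 f_pm_202 t 7 12 1 = true :=
  ⟨(a (a (b (l 16514648) (l 16527744)) (a (l 16552184) (l 16589456))) (a (b (l 16619024) (a (l 16540504) (l 16558424))) (a (b (l 16622672) (c (l 16583040) (l 16570800))) (a (b (b (l 16595208) (l 16592224)) (c (l 16619416) (l 16584056))) (b (c (b (l 16609320) (l 16607624)) (b (l 16597760) (l 16594520))) (c (b (a (l 16605448) (l 16610616)) (b (l 16609936) (l 16633008))) (b (l 16593112) (l 16593864)))))))), by decide +kernel⟩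

def k4_pm_202 : ∃ t, chk3 f_pm_202 t 14 13 1 = true :=
  ⟨(a (b (c (l 16548352) (l 16523672)) (b (l 16522824) (l 16516768))) (b (l 16574800) (b (l 16509488) (l 16503336)))), by decide +kernel⟩

def k5_pm_202 : ∃ t, chk3 f_pm_202 t 30 13 1 = true :=
  ⟨(b (b (l 16570512) (l 16615488)) (b (a (l 16542024) (l 16564984)) (a (l 16539376) (l 16564728)))), by decide +kernel⟩

def k6_pm_202 : ∃ t, chk3 f_pm_202 t 31 13 1 = true :=
  ⟨(b (a (b (l 16579816) (c (l 16594024) (l 16576296))) (a (b (l 16627264) (c (l 16612616) (l 16592312))) (b (c (a (l 16613528) (b (l 16638792) (b (l 16620544) (l 16643592)))) (a (l 16594560) (l 16599728))) (c (b (a (l 16619688) (c (a (l 16629896) (l 16633256)) (l 16620656))) (a (l 16624888) (b (c (l 16656840) (l 16624392)) (c (a (l 16637256) (c (l 16643808) (l 16637816))) (l 16627176))))) (b (l 16622456) (a (l 16602504) (c (l 16614120) (l 16602448)))))))) (a (b (c (l 16599024) (l 16579408)) (c (l 16622744) (l 16580912))) (a (b (c (b (l 16618528)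 (l 16620496)) (l 16596968)) (c (b (l 16622888) (l 16625640)) (l 16600296))) (b (c (a (b (l 16628848) (l 16631344)) (b (c (a (l 16640184) (b (c (l 16656720) (l 16640088)) (a (l 16643680) (c (b (l 16648288) (l 16649072)) (l 16642400))))) (b (l 16650160) (b (l 16630072) (l 16630696)))) (c (a (l 16643128) (c (b (b (l 16648912) (l 30)) (l 30)) (b (l 16642968) (a (l 16643600) (l 16645520))))) (a (l 16630568) (c (b (l 16636616) (l 16638096)) (l 16630944)))))) (b (a (l 16605328) (c (a (l 16615912) (l 16629560)) (l 16605240))) (a (l 16607016) (c (a (l 16618016) (l 16642304)) (l 16606992))))) (c (b (a (l 16655176) (c (a (l 16646456) (b (b (c (l 30) (l 16645816)) (l 30)) (l 30))) (a (l 16633472) (c (b (l 16639680) (a (l 16640408) (l 16642344))) (b (l 16633112) (l 16634696)))))) (c (l 30) (a (l 16630976) (a (l 16636792) (c (b (b (l 16642720) (l 30)) (l 30)) (b (l 16636384) (a (l 16637216) (l 16639168)))))))) (a (c (l 16616640) (l 16603864)) (b (c (b (l 16621536) (l 16633400))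 (l 16609104)) (a (l 16637632) (c (c (b (l 16629592) (l 16631280)) (l 16623576)) (l 16613296)))))))))), by decide +kernel⟩

def k7_pm_202 : ∃ t, chk3 f_pm_202 t 6 7 1 = true :=
  ⟨(b (a (b (l 16659808) (l 16705784)) (b (a (l 16579120) (l 16543152)) (a (l 16608736) (l 16576144)))) (b (a (l 16773064) (a (l 16702560) (b (l 16634488) (l 16681168)))) (a (a (l 16931640) (l 16887696)) (b (a (l 16799048) (l 16759488)) (l 16880504))))), by decide +kernel⟩

def k8_pm_202 : ∃ t, chk3 f_pm_202 t 14 14 1 = true :=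
  ⟨(a (b (a (l 16499776) (b (l 16484904) (l 16479288))) (a (b (l 16492104) (l 16549216)) (b (a (l 16474472) (l 16472424)) (a (l 16531720) (l 16588584))))) (b (b (l 16519104) (l 16535640)) (b (a (l 16489176) (l 16515872)) (c (l 16634840) (l 16493936))))), by decide +kernel⟩

def k9_pm_202 : ∃ t, chk3 f_pm_202 t 30 14 1 = true :=
  ⟨(a (b (b (l 16537832) (l 16537400)) (b (l 16546352) (l 16660064))) (b (b (l 16565792) (l 16588880)) (b (c (l 16640552) (l 16561288)) (c (l 16687568) (l 16574176))))), by decide +kernel⟩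

def k10_pm_202 : ∃ t, chk3 f_pm_202 t 31 28 1 = true :=
  ⟨(a (b (c (l 16627016) (l 16583864)) (c (a (l 16615816) (l 16614448)) (l 16588096))) (a (b (c (b (l 16628784) (l 16632336)) (l 16625984)) (b (c (l 30) (l 16609544)) (c (l 16669104) (l 16613128)))) (b (c (b (c (l 30) (a (l 16634464) (a (l 16640560) (b (b (c (l 30) (l 16639616)) (l 30)) (l 30))))) (l 30)) (a (c (l 16643736) (l 16609112)) (b (c (a (l 16626680) (c (b (l 16633080) (a (l 16634008) (l 16635984))) (b (l 16626048) (l 16627848)))) (b (l 16613776) (l 16615352))) (c (a (l 16630440) (b (c (b (l 16636504) (l 30)) (l 16629760)) (c (l 30) (l 16637032)))) (a (l 16616104) (b (l 16618864) (l 16631200))))))) (a (c (b (l 30) (c (l 16714304) (l 30))) (b (l 16621280) (l 16646416))) (b (c (l 30) (c (a (l 16634664) (b (b (c (l 30) (l 16633392)) (l 30)) (l 30))) (a (l 16619856) (c (b (l 16626432) (l 16639064)) (b (l 16618928) (l 16620952)))))) (c (b (l 30) (c (c (l 16745512) (l 30)) (l 30))) (c (l 30) (a (l 16624080)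 (b (c (b (l 16630272) (l 30)) (l 16623096)) (c (l 30) (l 16635848))))))))))), by decide +kernel⟩

def k11_pm_202 : ∃ t, chk3 f_pm_202 t 31 29 1 = true :=
  ⟨(a (b (c (a (l 16667480) (l 16686640)) (l 16614936)) (a (l 16710664) (b (l 16686800) (l 16689000)))) (a (b (c (b (l 16694376) (l 16718288)) (b (l 16617152) (l 16621760))) (c (b (l 16740912) (l 16762232)) (b (l 30) (l 16655712)))) (b (b (c (c (a (l 16738568) (a (l 16746384) (c (l 16765792) (b (l 30) (l 16743408))))) (l 30)) (a (l 16640592) (c (l 30) (a (l 16628800) (b (b (c (l 30) (l 16627144)) (l 30)) (l 30)))))) (c (a (c (l 16761456) (l 16705880)) (c (b (l 16766168) (l 16777192)) (b (l 30) (c (l 16736128) (l 30))))) (l 30))) (b (c (a (c (l 16783056) (l 16728960)) (c (l 16793120) (a (l 16736816) (b (c (l 16750000) (l 30)) (l 16726616))))) (l 30)) (b (c (a (l 16771880) (c (l 16808312) (l 16755712))) (l 30)) (c (c (l 16813152) (l 16740056)) (a (l 16677464) (c (c (l 16727232) (l 30)) (l 30))))))))), by decide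 +kernel⟩

def k12_pm_202 : ∃ t, chk3 f_pm_202 t 14 15 1 = true :=
  ⟨(b (a (a (b (l 16601008) (l 16648136)) (b (a (l 16583800) (a (l 16574920) (l 16574024))) (a (l 16631360) (b (l 16629968) (l 16652360))))) (b (a (l 16608736) (l 16634776)) (a (l 16735192) (l 16760792)))) (a (b (a (l 16730952) (b (a (l 16685528) (l 16675264)) (l 16743208))) (l 16837408)) (b (b (a (l 16682496) (l 16707216)) (l 16756256)) (a (l 16831160) (l 16851368))))), by decide +kernel⟩

def k13_pm_202 : ∃ t, chk3 f_pm_202 t 15 15 1 = true :=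
  ⟨(b (a (b (a (l 16685192) (c (l 16729824) (l 16622336))) (a (l 16789648) (b (l 16706832) (l 16725968)))) (a (a (b (l 16723656) (c (l 16792384) (l 16692448))) (b (c (l 16773352) (l 16669480)) (c (l 16809704) (l 16711144)))) (a (b (c (b (l 16782320) (l 16801232)) (b (l 16678584) (l 16700192))) (c (b (l 16819032) (l 16835800)) (b (l 16720592) (l 16739880)))) (b (c (b (a (l 16796832) (c (l 16832160) (l 16781264))) (a (l 16815464) (l 16804176))) (a (b (c (l 16719896) (l 30)) (c (l 16740520) (l 16690592))) (a (b (c (l 16727736) (l 30)) (b (l 16676248) (l 16686504))) (c (b (b (c (l 16740504) (l 30)) (l 16717232)) (b (l 16748376) (l 16758264))) (c (b (l 30) (b (l 30) (l 16721392))) (l 30)))))) (c (b (l 16837744) (l 16854152)) (a (b (l 16693704) (l 16733656)) (c (b (l 16770032) (l 16788192)) (b (a (l 16719112) (b (c (l 16731464) (l 30)) (l 16708296))) (b (l 16736344) (l 16745760)))))))))) (a (b (b (a (l 16734920) (l 16765216)) (l 16807736)) (b (l 16860736) (l 16909640)))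 (a (b (b (c (l 16843920) (l 16752048)) (l 16851480)) (l 16902104)) (b (a (b (c (l 16868864) (l 16757848)) (l 16874952)) (b (c (l 16886208) (a (l 16750784) (c (l 16824272) (b (l 16765376) (l 16794400))))) (a (l 16845136) (c (l 16935248) (b (l 16821632) (l 16868040)))))) (c (a (l 16977272) (l 16990736)) (a (l 16908696) (b (a (l 16896336) (l 16883032)) (l 16944656)))))))), by decide +kernel⟩

theorem s14_pm_202 : ∃ t, chk3 f_pm_202 t 7 15 1 = true := ex3_a k12_pm_202 k13_pm_202

theorem s15_pm_202 : ∃ t, chk3 f_pm_202 t 31 14 1 = true := ex3_b k10_pm_202 k11_pm_202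

theorem s16_pm_202 : ∃ t, chk3 f_pm_202 t 15 14 1 = true := ex3_a k9_pm_202 s15_pm_202

theorem s17_pm_202 : ∃ t, chk3 f_pm_202 t 7 14 1 = true := ex3_a k8_pm_202 s16_pm_202

theorem s18_pm_202 : ∃ t, chk3 f_pm_202 t 7 7 1 = true := ex3_b s17_pm_202 s14_pm_202

theorem s19_pm_202 : ∃ t, chk3 f_pm_202 t 3 7 1 = true := ex3_a k7_pm_202 s18_pm_202

theorem s20_pm_202 : ∃ t, chk3 f_pm_202 t 15 13 1 = true := ex3_a k5_pm_202 k6_pm_202

theorem s21_pm_202 : ∃ t, chk3 f_pm_202 t 7 13 1 = true := ex3_a k4_pm_202 s20_pm_202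

theorem s22_pm_202 : ∃ t, chk3 f_pm_202 t 7 6 1 = true := ex3_b k3_pm_202 s21_pm_202

theorem s23_pm_202 : ∃ t, chk3 f_pm_202 t 3 6 1 = true := ex3_a k2_pm_202 s22_pm_202

theorem s24_pm_202 : ∃ t, chk3 f_pm_202 t 3 3 1 = true := ex3_b s23_pm_202 s19_pm_202

theorem s25_pm_202 : ∃ t, chk3 f_pm_202 t 3 1 1 = true := ex3_b k1_pm_202 s24_pm_202

theorem s26_pm_202 : ∃ t, chk3 f_pm_202 t 1 1 1 = true := ex3_a k0_pm_202 s25_pm_202

theorem c_pm_202 : CertF 0 536870912 0 536870912 402653184 67108864 true true false .pp 2 0 2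
    ndF0q2 ndF0q0 pcF2 cut_pm_202 Ext.none :=
  certF1 (fam := true) (s1 := true) (s2 := false) (a := 2) (b := 0) (c := 2) (cn := .pp) (n1 := ndF0q2) (n2 := ndF0q0) (pc := pcF2) (cut := cut_pm_202) (xt := Ext.none) (P1 := 0) (W1 := 536870912) (P2 := 0) (W2 := 536870912) (P3 := 402653184) (W3 := 67108864)
    rfl (fun _ => rfl) s26_pm_202

noncomputable def cut_pm_203 : Cut := Cut.of [[⟨3, 0, 0, 1449551462⟩], [⟨4, 0, 0, 2845415833⟩]]

noncomputable def f_pm_203 : ℕ → ℕ → ℕ → ℕ → Bool := onCell 0 536870912 0 536870912 402653184 67108864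
    (rowF 0 true true false .up 2 0 3 (qsf 0 536870912 0 536870912 3) ndF0q2 ndF0q0 pcF3 cut_pm_203 Ext.none)

def k0_pm_203 : ∃ t, chk3 f_pm_203 t 1 1 1 = true :=
  ⟨(a (b (l 1) (b (b (l 1) (b (a (a (l 1) (l 1)) (l 1)) (a (a (l 16802696) (l 16821872)) (a (l 94522886839) (l 112239643639))))) (a (b (a (b (l 16832760) (l 16847432)) (b (l 16862448) (l 16884776))) (a (b (l 16828952) (l 14)) (b (l 16892048) (l 16845648)))) (b (a (b (l 16892912) (l 16927224)) (b (l 16878800) (l 16936592))) (a (b (l 16940768) (l 16939920)) (b (l 16970808) (a (l 16982832) (l 16991176)))))))) (b (l 1) (b (a (l 1) (l 1)) (a (b (a (b (l 16793952) (l 16885240)) (b (l 175053385607) (l 137472541127))) (a (b (l 16934744) (l 16966536)) (b (l 16886432) (l 16931232)))) (b (a (b (l 1) (a (l 193843901495) (l 1))) (l 1)) (a (b (a (l 16840680) (l 138546270967)) (a (l 16899008) (a (l 16884128) (l 16893144)))) (b (a (l 160558091479) (l 1)) (a (l 16913632) (b (l 126198518183) (a (l 16951056) (c (l 16999696)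 (a (l 16931776) (l 16940384))))))))))))), by decide +kernel⟩

theorem c_pm_203 : CertF 0 536870912 0 536870912 402653184 67108864 true true false .up 2 0 3
    ndF0q2 ndF0q0 pcF3 cut_pm_203 Ext.none :=
  certF0 (fam := true) (s1 := true) (s2 := false) (a := 2) (b := 0) (c := 3) (cn := .up) (n1 := ndF0q2) (n2 := ndF0q0) (pc := pcF3) (cut := cut_pm_203) (xt := Ext.none) (P1 := 0) (W1 := 536870912) (P2 := 0) (W2 := 536870912) (P3 := 402653184) (W3 := 67108864)
    rfl k0_pm_203

noncomputable def cut_pm_213 : Cut := Cut.of [[⟨3, 0, 0, 1449551462⟩], [⟨4, 0, 0, 2845415833⟩], [⟨0, 1, 0, 67108864⟩, ⟨1, 1, 0, 67108864⟩, ⟨2, 2, 0, 16777216⟩]]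

noncomputable def f_pm_213 : ℕ → ℕ → ℕ → ℕ → Bool := onCell 0 536870912 536870912 536870912 402653184 67108864
    (rowF 0 true true false .pnn 2 1 3 (qsf 0 536870912 536870912 536870912 3) ndF0q2 ndF0q1 pcF3 cut_pm_213 Ext.none)

def k0_pm_213 : ∃ t, chk3 f_pm_213 t 2 1 1 = true :=
  ⟨(b (b (a (b (a (l 14) (b (b (l 16879560) (l 14)) (l 14))) (l 14)) (b (a (b (b (l 16933320) (l 16926336)) (b (l 16917064) (l 16906440))) (b (a (l 16975480) (l 16955952)) (a (l 16957576) (l 16925136)))) (a (b (a (l 14) (l 16881936)) (l 14)) (b (a (l 16891096) (l 16923592)) (a (b (l 16913000) (l 14)) (a (l 16907880) (l 16923832))))))) (b (a (l 14) (a (l 14) (a (l 14) (b (b (l 16893928) (l 14)) (l 14))))) (l 14))) (l 14)), by decide +kernel⟩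

def k1_pm_213 : ∃ t, chk3 f_pm_213 t 6 2 1 = true :=
  ⟨(b (b (a (b (a (l 16991192) (l 16979200)) (a (l 16994480) (l 16987328))) (b (a (l 16967416) (l 16954952)) (a (l 16980688) (l 16974160)))) (a (b (a (l 16985384) (l 16984408)) (a (b (l 16971976) (l 16959656)) (l 16973560))) (b (a (l 16982464) (l 16981216)) (a (l 16975880) (l 16979304))))) (b (a (b (a (b (l 16945888) (l 16931096)) (b (l 16961304) (l 16951744))) (a (b (l 16915360) (l 14)) (b (l 16940088) (a (l 16921864) (l 16932096))))) (b (a (b (l 16966808) (l 16959400)) (l 16970856)) (a (l 16945624) (l 16956640)))) (a (b (a (l 14) (a (l 14) (b (l 16918536) (l 14)))) (l 14)) (a (b (l 16922880) (a (l 14) (l 16902216))) (b (l 16937328) (l 16914952)))))), by decide +kernel⟩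

def k2_pm_213 : ∃ t, chk3 f_pm_213 t 7 2 1 = true :=
  ⟨(b (b (a (a (b (l 16940856) (l 16967048)) (b (a (l 16930488) (l 16939376)) (a (l 16961336) (l 16969128)))) (a (b (b (l 16952856) (l 16973456)) (b (l 16989224) (l 17001032))) (b (c (b (l 17016336) (l 17036400)) (a (b (l 16949144) (l 16973728)) (b (a (l 16962640) (b (l 16964520) (l 16979000))) (a (l 16988008) (b (l 16991920) (l 17003336)))))) (c (b (l 17051400) (l 17062264)) (b (a (l 16992808) (a (l 17007664) (b (l 17013352) (l 17022056)))) (a (l 17007384) (c (l 17038976) (l 17016776)))))))) (a (a (b (l 16980120) (l 16983456)) (b (a (l 16979104) (l 16985696)) (a (l 16986872) (l 16993064)))) (b (a (l 17012992) (a (l 17042576) (b (l 17038752) (l 17066256)))) (a (l 17019928) (b (l 17059504) (l 17060880)))))) (b (a (b (a (l 16979528) (b (l 16990648) (l 16989160))) (a (l 16969144) (b (l 16985880) (l 16980784)))) (b (a (b (l 17019936) (l 17018072)) (b (l 17060456) (l 17058448))) (a (l 17011824) (l 17051696)))) (b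 (a (a (l 16953040) (l 16970808)) (a (l 16998464) (l 17037136))) (a (a (l 16933192) (l 16953712)) (a (l 17002152) (l 17018328)))))), by decide +kernel⟩

def k3_pm_213 : ∃ t, chk3 f_pm_213 t 3 3 1 = true :=
  ⟨(b (a (b (a (l 14) (b (a (l 14) (l 16889728)) (l 14))) (l 14)) (b (b (a (a (l 16910200) (l 16932776)) (a (a (l 16952152) (l 16968656)) (l 16995784))) (a (a (l 16884864) (b (l 16915000) (l 16902408))) (a (a (l 16928912) (l 16944520)) (l 16970240)))) (b (a (a (l 14) (l 16882744)) (a (a (l 16903344) (l 16918456)) (l 16942632))) (a (l 14) (a (l 14) (l 16934832)))))) (a (l 14) (b (l 14) (l 14)))), by decide +kernel⟩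

theorem s4_pm_213 : ∃ t, chk3 f_pm_213 t 3 2 1 = true := ex3_a k1_pm_213 k2_pm_213

theorem s5_pm_213 : ∃ t, chk3 f_pm_213 t 3 1 1 = true := ex3_b s4_pm_213 k3_pm_213

theorem s6_pm_213 : ∃ t, chk3 f_pm_213 t 1 1 1 = true := ex3_a k0_pm_213 s5_pm_213

theorem c_pm_213 : CertF 0 536870912 536870912 536870912 402653184 67108864 true true false .pnn 2 1 3
    ndF0q2 ndF0q1 pcF3 cut_pm_213 Ext.none :=
  certF0 (fam := true) (s1 := true) (s2 := false) (a := 2) (b := 1) (c := 3) (cn := .pnn) (n1 := ndF0q2) (n2 := ndF0q1) (pc := pcF3) (cut := cut_pm_213) (xt := Ext.none) (P1 := 0) (W1 := 536870912) (P2 := 536870912) (W2 := 536870912) (P3 := 402653184) (W3 := 67108864)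
    rfl s6_pm_213

noncomputable def cut_mm_001 : Cut := Cut.of [[⟨3, 0, 0, 1449551462⟩], [⟨4, 0, 0, 2845415833⟩]]

noncomputable def f_mm_001 : ℕ → ℕ → ℕ → ℕ → Bool := onCell 0 536870912 0 536870912 402653184 67108864
    (rowF 0 true false false .up 0 0 1 (qsf 0 536870912 0 536870912 1) ndF0q0 ndF0q0 pcF1 cut_mm_001 Ext.none)

def k0_mm_001 : ∃ t, chk3 f_mm_001 t 1 1 1 = true :=
  ⟨(l 4), by decide +kernel⟩

theorem c_mm_001 : CertF 0 536870912 0 536870912 402653184 67108864 true false false .up 0 0 1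
    ndF0q0 ndF0q0 pcF1 cut_mm_001 Ext.none :=
  certF0 (fam := true) (s1 := false) (s2 := false) (a := 0) (b := 0) (c := 1) (cn := .up) (n1 := ndF0q0) (n2 := ndF0q0) (pc := pcF1) (cut := cut_mm_001) (xt := Ext.none) (P1 := 0) (W1 := 536870912) (P2 := 0) (W2 := 536870912) (P3 := 402653184) (W3 := 67108864)
    rfl k0_mm_001

noncomputable def cut_mm_011 : Cut := Cut.of [[⟨3, 0, 0, 1449551462⟩], [⟨4, 0, 0, 2845415833⟩]]

noncomputable def f_mm_011 : ℕ → ℕ → ℕ → ℕ → Bool := onCell 0 536870912 536870912 536870912 402653184 67108864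
    (rowF 0 true false false .pnn 0 1 1 (qsf 0 536870912 536870912 536870912 1) ndF0q0 ndF0q1 pcF1 cut_mm_011 Ext.none)

def k0_mm_011 : ∃ t, chk3 f_mm_011 t 1 1 1 = true :=
  ⟨(l 14), by decide +kernel⟩

theorem c_mm_011 : CertF 0 536870912 536870912 536870912 402653184 67108864 true false false .pnn 0 1 1
    ndF0q0 ndF0q1 pcF1 cut_mm_011 Ext.none :=
  certF0 (fam := true) (s1 := false) (s2 := false) (a := 0) (b := 1) (c := 1) (cn := .pnn) (n1 := ndF0q0) (n2 := ndF0q1) (pc := pcF1) (cut := cut_mm_011) (xt := Ext.none) (P1 := 0) (W1 := 536870912) (P2 := 536870912) (W2 := 536870912) (P3 := 402653184) (W3 := 67108864)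
    rfl k0_mm_011

noncomputable def cut_mm_012 : Cut := Cut.of [[⟨3, 0, 0, 1449551462⟩], [⟨4, 0, 0, 2845415833⟩]]

noncomputable def f_mm_012 : ℕ → ℕ → ℕ → ℕ → Bool := onCell 0 536870912 536870912 536870912 402653184 67108864
    (rowF 0 true false false .pnp 0 1 2 (qsf 0 536870912 536870912 536870912 2) ndF0q0 ndF0q1 pcF2 cut_mm_012 Ext.none)

def k0_mm_012 : ∃ t, chk3 f_mm_012 t 1 1 1 = true :=
  ⟨(l 14), by decide +kernel⟩

theorem c_mm_012 : CertF 0 536870912 536870912 536870912 402653184 67108864 true false false .pnp 0 1 2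
    ndF0q0 ndF0q1 pcF2 cut_mm_012 Ext.none :=
  certF0 (fam := true) (s1 := false) (s2 := false) (a := 0) (b := 1) (c := 2) (cn := .pnp) (n1 := ndF0q0) (n2 := ndF0q1) (pc := pcF2) (cut := cut_mm_012) (xt := Ext.none) (P1 := 0) (W1 := 536870912) (P2 := 536870912) (W2 := 536870912) (P3 := 402653184) (W3 := 67108864)
    rfl k0_mm_012

noncomputable def cut_mm_022 : Cut := Cut.of [[⟨3, 0, 0, 1449551462⟩], [⟨4, 0, 0, 2845415833⟩]]

noncomputable def f_mm_022 : ℕ → ℕ → ℕ → ℕ → Bool := onCell 0 536870912 0 536870912 402653184 67108864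
    (rowF 0 true false false .pp 0 2 2 (qsf 0 536870912 0 536870912 2) ndF0q0 ndF0q2 pcF2 cut_mm_022 Ext.none)

def k0_mm_022 : ∃ t, chk3 f_mm_022 t 1 1 1 = true :=
  ⟨(l 5), by decide +kernel⟩

theorem c_mm_022 : CertF 0 536870912 0 536870912 402653184 67108864 true false false .pp 0 2 2
    ndF0q0 ndF0q2 pcF2 cut_mm_022 Ext.none :=
  certF0 (fam := true) (s1 := false) (s2 := false) (a := 0) (b := 2) (c := 2) (cn := .pp) (n1 := ndF0q0) (n2 := ndF0q2) (pc := pcF2) (cut := cut_mm_022) (xt := Ext.none) (P1 := 0) (W1 := 536870912) (P2 := 0) (W2 := 536870912) (P3 := 402653184) (W3 := 67108864)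
    rfl k0_mm_022

noncomputable def cut_mm_023 : Cut := Cut.of [[⟨3, 0, 0, 1449551462⟩], [⟨4, 0, 0, 2845415833⟩]]

noncomputable def f_mm_023 : ℕ → ℕ → ℕ → ℕ → Bool := onCell 0 536870912 0 536870912 402653184 67108864
    (rowF 0 true false false .up 0 2 3 (qsf 0 536870912 0 536870912 3) ndF0q0 ndF0q2 pcF3 cut_mm_023 Ext.none)

def k0_mm_023 : ∃ t, chk3 f_mm_023 t 1 1 1 = true :=
  ⟨(l 5), by decide +kernel⟩

theorem c_mm_023 : CertF 0 536870912 0 536870912 402653184 67108864 true false false .up 0 2 3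
    ndF0q0 ndF0q2 pcF3 cut_mm_023 Ext.none :=
  certF0 (fam := true) (s1 := false) (s2 := false) (a := 0) (b := 2) (c := 3) (cn := .up) (n1 := ndF0q0) (n2 := ndF0q2) (pc := pcF3) (cut := cut_mm_023) (xt := Ext.none) (P1 := 0) (W1 := 536870912) (P2 := 0) (W2 := 536870912) (P3 := 402653184) (W3 := 67108864)
    rfl k0_mm_023

noncomputable def cut_mm_101 : Cut := Cut.of [[⟨3, 0, 0, 1449551462⟩], [⟨4, 0, 0, 2845415833⟩], [⟨0, 1, 0, 67108864⟩, ⟨1, 0, 0, 67108864⟩, ⟨2, 1, 0, 67108864⟩]]

noncomputable def f_mm_101 : ℕ → ℕ → ℕ → ℕ → Bool := onCell 536870912 536870912 0 536870912 402653184 67108864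
    (rowF 0 true false false .npn 1 0 1 (qsf 536870912 536870912 0 536870912 1) ndF0q1 ndF0q0 pcF1 cut_mm_101 Ext.none)

def k0_mm_101 : ∃ t, chk3 f_mm_101 t 1 1 1 = true :=
  ⟨(l 14), by decide +kernel⟩

theorem c_mm_101 : CertF 536870912 536870912 0 536870912 402653184 67108864 true false false .npn 1 0 1
    ndF0q1 ndF0q0 pcF1 cut_mm_101 Ext.none :=
  certF0 (fam := true) (s1 := false) (s2 := false) (a := 1) (b := 0) (c := 1) (cn := .npn) (n1 := ndF0q1) (n2 := ndF0q0) (pc := pcF1) (cut := cut_mm_101) (xt := Ext.none) (P1 := 536870912) (W1 := 536870912) (P2 := 0) (W2 := 536870912) (P3 := 402653184) (W3 := 67108864)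
    rfl k0_mm_101

noncomputable def cut_mm_102 : Cut := Cut.of [[⟨3, 0, 0, 1449551462⟩], [⟨4, 0, 0, 2845415833⟩], [⟨0, 1, 0, 67108864⟩, ⟨1, 0, 0, 67108864⟩, ⟨2, 1, 0, 67108864⟩]]

noncomputable def f_mm_102 : ℕ → ℕ → ℕ → ℕ → Bool := onCell 536870912 536870912 0 536870912 402653184 67108864
    (rowF 0 true false false .npp 1 0 2 (qsf 536870912 536870912 0 536870912 2) ndF0q1 ndF0q0 pcF2 cut_mm_102 Ext.none)

def k0_mm_102 : ∃ t, chk3 f_mm_102 t 1 1 1 = true :=
  ⟨(l 14), by decide +kernel⟩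

theorem c_mm_102 : CertF 536870912 536870912 0 536870912 402653184 67108864 true false false .npp 1 0 2
    ndF0q1 ndF0q0 pcF2 cut_mm_102 Ext.none :=
  certF0 (fam := true) (s1 := false) (s2 := false) (a := 1) (b := 0) (c := 2) (cn := .npp) (n1 := ndF0q1) (n2 := ndF0q0) (pc := pcF2) (cut := cut_mm_102) (xt := Ext.none) (P1 := 536870912) (W1 := 536870912) (P2 := 0) (W2 := 536870912) (P3 := 402653184) (W3 := 67108864)
    rfl k0_mm_102

noncomputable def cut_mm_112 : Cut := Cut.of [[⟨3, 0, 0, 1449551462⟩], [⟨4, 0, 0, 2845415833⟩]]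

noncomputable def f_mm_112 : ℕ → ℕ → ℕ → ℕ → Bool := onCell 536870912 536870912 536870912 536870912 402653184 67108864
    (rowF 0 true false false .dn 1 1 2 (qsf 536870912 536870912 536870912 536870912 2) ndF0q1 ndF0q1 pcF2 cut_mm_112 Ext.none)

def k0_mm_112 : ∃ t, chk3 f_mm_112 t 1 1 1 = true :=
  ⟨(l 4), by decide +kernel⟩

theorem c_mm_112 : CertF 536870912 536870912 536870912 536870912 402653184 67108864 true false false .dn 1 1 2
    ndF0q1 ndF0q1 pcF2 cut_mm_112 Ext.none :=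
  certF0 (fam := true) (s1 := false) (s2 := false) (a := 1) (b := 1) (c := 2) (cn := .dn) (n1 := ndF0q1) (n2 := ndF0q1) (pc := pcF2) (cut := cut_mm_112) (xt := Ext.none) (P1 := 536870912) (W1 := 536870912) (P2 := 536870912) (W2 := 536870912) (P3 := 402653184) (W3 := 67108864)
    rfl k0_mm_112

noncomputable def cut_mm_113 : Cut := Cut.of [[⟨3, 0, 0, 1449551462⟩], [⟨4, 0, 0, 2845415833⟩]]

noncomputable def f_mm_113 : ℕ → ℕ → ℕ → ℕ → Bool := onCell 536870912 536870912 536870912 536870912 402653184 67108864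
    (rowF 0 true false false .nn 1 1 3 (qsf 536870912 536870912 536870912 536870912 3) ndF0q1 ndF0q1 pcF3 cut_mm_113 Ext.none)

def k0_mm_113 : ∃ t, chk3 f_mm_113 t 1 1 1 = true :=
  ⟨(l 4), by decide +kernel⟩

theorem c_mm_113 : CertF 536870912 536870912 536870912 536870912 402653184 67108864 true false false .nn 1 1 3
    ndF0q1 ndF0q1 pcF3 cut_mm_113 Ext.none :=
  certF0 (fam := true) (s1 := false) (s2 := false) (a := 1) (b := 1) (c := 3) (cn := .nn) (n1 := ndF0q1) (n2 := ndF0q1) (pc := pcF3) (cut := cut_mm_113) (xt := Ext.none) (P1 := 536870912) (W1 := 536870912) (P2 := 536870912) (W2 := 536870912) (P3 := 402653184) (W3 := 67108864)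
    rfl k0_mm_113

noncomputable def cut_mm_123 : Cut := Cut.of [[⟨3, 0, 0, 1449551462⟩], [⟨4, 0, 0, 2845415833⟩]]

noncomputable def f_mm_123 : ℕ → ℕ → ℕ → ℕ → Bool := onCell 536870912 536870912 0 536870912 402653184 67108864
    (rowF 0 true false false .npn 1 2 3 (qsf 536870912 536870912 0 536870912 3) ndF0q1 ndF0q2 pcF3 cut_mm_123 Ext.none)

def k0_mm_123 : ∃ t, chk3 f_mm_123 t 1 1 1 = true :=
  ⟨(a (l 5) (l 4)), by decide +kernel⟩

theorem c_mm_123 : CertF 536870912 536870912 0 536870912 402653184 67108864 true false false .npn 1 2 3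
    ndF0q1 ndF0q2 pcF3 cut_mm_123 Ext.none :=
  certF0 (fam := true) (s1 := false) (s2 := false) (a := 1) (b := 2) (c := 3) (cn := .npn) (n1 := ndF0q1) (n2 := ndF0q2) (pc := pcF3) (cut := cut_mm_123) (xt := Ext.none) (P1 := 536870912) (W1 := 536870912) (P2 := 0) (W2 := 536870912) (P3 := 402653184) (W3 := 67108864)
    rfl k0_mm_123

noncomputable def cut_mm_202 : Cut := Cut.of [[⟨3, 0, 0, 1449551462⟩], [⟨4, 0, 0, 2845415833⟩], [⟨0, 1, 0, 67108864⟩, ⟨1, 0, 0, 67108864⟩, ⟨2, 1, 0, 67108864⟩]]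

noncomputable def f_mm_202 : ℕ → ℕ → ℕ → ℕ → Bool := onCell 0 536870912 0 536870912 402653184 67108864
    (rowF 0 true false false .pp 2 0 2 (qsf 0 536870912 0 536870912 2) ndF0q2 ndF0q0 pcF2 cut_mm_202 Ext.none)

def k0_mm_202 : ∃ t, chk3 f_mm_202 t 1 1 1 = true :=
  ⟨(b (a (b (a (b (a (b (l 16489040) (b (l 16490992) (l 16516232))) (b (l 16598688) (l 16519400))) (a (b (l 16553472) (l 16601304)) (b (l 16582928) (l 16591832)))) (b (a (b (b (l 16528920) (l 16568160)) (l 16563472)) (b (b (a (l 16556112) (l 16575488)) (l 16646824)) (b (l 16632912) (l 16634664)))) (a (b (l 16569768) (l 16634000)) (b (a (l 16558968) (l 16588680)) (l 16647248))))) (a (b (a (b (l 16646088) (l 16687656)) (b (l 16634072) (l 16672624))) (a (b (l 16726464) (l 16762536)) (b (l 16707856) (l 16739608)))) (b (a (b (l 16652776) (l 16667616)) (a (b (l 16637912) (l 16671896)) (b (l 16647664) (l 14)))) (a (b (l 16699720) (l 16748808)) (l 14))))) (b (a (b (a (b (b (a (l 16615960) (b (l 16612952)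 (l 16616328))) (a (l 16599968) (l 16642288))) (a (b (l 16604880) (l 16609816)) (b (l 16627960) (l 16634680)))) (b (a (a (b (a (l 16627072) (l 16632184)) (l 14)) (l 14)) (l 14)) (l 14))) (a (b (a (l 16669768) (l 14)) (l 14)) (l 14))) (l 14)) (l 14))) (a (a (b (b (a (b (l 16795760) (l 16825832)) (b (l 16767656) (l 16833480))) (a (b (l 16852560) (l 16852472)) (l 14))) (l 2)) (l 14)) (l 14))), by decide +kernel⟩

theorem c_mm_202 : CertF 0 536870912 0 536870912 402653184 67108864 true false false .pp 2 0 2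
    ndF0q2 ndF0q0 pcF2 cut_mm_202 Ext.none :=
  certF0 (fam := true) (s1 := false) (s2 := false) (a := 2) (b := 0) (c := 2) (cn := .pp) (n1 := ndF0q2) (n2 := ndF0q0) (pc := pcF2) (cut := cut_mm_202) (xt := Ext.none) (P1 := 0) (W1 := 536870912) (P2 := 0) (W2 := 536870912) (P3 := 402653184) (W3 := 67108864)
    rfl k0_mm_202

noncomputable def cut_mm_203 : Cut := Cut.of [[⟨3, 0, 0, 1449551462⟩], [⟨4, 0, 0, 2845415833⟩]]

noncomputable def f_mm_203 : ℕ → ℕ → ℕ → ℕ → Bool := onCell 0 536870912 1610612736 536870912 402653184 67108864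
    (rowF 1 true false false .up 2 0 3 (qsf 0 536870912 0 536870912 3) ndF0q2 ndF0q0 pcF3 cut_mm_203 Ext.none)

def k0_mm_203 : ∃ t, chk3 f_mm_203 t 1 1 1 = true :=
  ⟨(a (b (b (b (a (a (b (l 16789032) (l 14)) (l 14)) (l 14)) (l 14)) (l 14)) (l 2)) (l 14)), by decide +kernel⟩

theorem c_mm_203 : CertF 0 536870912 0 536870912 402653184 67108864 true false false .up 2 0 3
    ndF0q2 ndF0q0 pcF3 cut_mm_203 Ext.none :=
  certF1 (fam := true) (s1 := false) (s2 := false) (a := 2) (b := 0) (c := 3) (cn := .up) (n1 := ndF0q2) (n2 := ndF0q0) (pc := pcF3) (cut := cut_mm_203) (xt := Ext.none) (P1 := 0) (W1 := 536870912) (P2 := 0) (W2 := 536870912) (P3 := 402653184) (W3 := 67108864)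
    rfl (fun _ => rfl) k0_mm_203

noncomputable def cut_mm_213 : Cut := Cut.of [[⟨3, 0, 0, 1449551462⟩], [⟨4, 0, 0, 2845415833⟩]]

noncomputable def f_mm_213 : ℕ → ℕ → ℕ → ℕ → Bool := onCell 0 536870912 536870912 536870912 402653184 67108864
    (rowF 0 true false false .pnn 2 1 3 (qsf 0 536870912 536870912 536870912 3) ndF0q2 ndF0q1 pcF3 cut_mm_213 Ext.none)

def k0_mm_213 : ∃ t, chk3 f_mm_213 t 1 1 1 = true :=
  ⟨(a (l 14) (l 4)), by decide +kernel⟩

theorem c_mm_213 : CertF 0 536870912 536870912 536870912 402653184 67108864 true false false .pnn 2 1 3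
    ndF0q2 ndF0q1 pcF3 cut_mm_213 Ext.none :=
  certF0 (fam := true) (s1 := false) (s2 := false) (a := 2) (b := 1) (c := 3) (cn := .pnn) (n1 := ndF0q2) (n2 := ndF0q1) (pc := pcF3) (cut := cut_mm_213) (xt := Ext.none) (P1 := 0) (W1 := 536870912) (P2 := 536870912) (W2 := 536870912) (P3 := 402653184) (W3 := 67108864)
    rfl k0_mm_213

end Pool.Agent.Strip051.G.I3_8_7_16.Tab.C.FA00

namespace Pool.Agent.Strip051.G.I3_8_7_16.Tab.C.FA01

open Pool.Agent.Strip051.PB Pool.Agent.Strip051.PB.T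
open Pool.Agent.Strip051.G.I3_8_7_16.Tab

noncomputable def f_pp_001 : ℕ → ℕ → ℕ → ℕ → Bool := onCell 0 536870912 0 536870912 402653184 67108864
    (rowF 0 true true true .up 0 0 1 (qsf 0 536870912 0 536870912 1) ndF0q0 ndF1q0 pcF1 Cut.none Ext.none)

def k0_pp_001 : ∃ t, chk3 f_pp_001 t 1 1 1 = true :=
  ⟨(l 4), by decide +kernel⟩

theorem c_pp_001 : CertF 0 536870912 0 536870912 402653184 67108864 true true true .up 0 0 1
    ndF0q0 ndF1q0 pcF1 Cut.none Ext.none :=
  certF0 (fam := true) (s1 := true) (s2 := true) (a := 0) (b := 0) (c := 1) (cn := .up) (n1 := ndF0q0) (n2 := ndF1q0) (pc := pcF1) (cut := Cut.none) (xt := Ext.none) (P1 := 0) (W1 := 536870912) (P2 := 0) (W2 := 536870912) (P3 := 402653184) (W3 := 67108864)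
    rfl k0_pp_001

noncomputable def f_pp_011 : ℕ → ℕ → ℕ → ℕ → Bool := onCell 0 536870912 536870912 536870912 402653184 67108864
    (rowF 0 true true true .pnn 0 1 1 (qsf 0 536870912 536870912 536870912 1) ndF0q0 ndF1q1 pcF1 Cut.none Ext.none)

def k0_pp_011 : ∃ t, chk3 f_pp_011 t 1 1 1 = true :=
  ⟨(l 4), by decide +kernel⟩

theorem c_pp_011 : CertF 0 536870912 536870912 536870912 402653184 67108864 true true true .pnn 0 1 1
    ndF0q0 ndF1q1 pcF1 Cut.none Ext.none :=
  certF0 (fam := true) (s1 := true) (s2 := true) (a := 0) (b := 1) (c := 1) (cn := .pnn) (n1 := ndF0q0) (n2 := ndF1q1) (pc := pcF1) (cut := Cut.none) (xt := Ext.none) (P1 := 0) (W1 := 536870912) (P2 := 536870912) (W2 := 536870912) (P3 := 402653184) (W3 := 67108864)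
    rfl k0_pp_011

noncomputable def f_pp_012 : ℕ → ℕ → ℕ → ℕ → Bool := onCell 0 536870912 536870912 536870912 402653184 67108864
    (rowF 0 true true true .pnp 0 1 2 (qsf 0 536870912 536870912 536870912 2) ndF0q0 ndF1q1 pcF2 Cut.none Ext.none)

def k0_pp_012 : ∃ t, chk3 f_pp_012 t 1 1 1 = true :=
  ⟨(l 4), by decide +kernel⟩

theorem c_pp_012 : CertF 0 536870912 536870912 536870912 402653184 67108864 true true true .pnp 0 1 2
    ndF0q0 ndF1q1 pcF2 Cut.none Ext.none :=
  certF0 (fam := true) (s1 := true) (s2 := true) (a := 0) (b := 1) (c := 2) (cn := .pnp) (n1 := ndF0q0) (n2 := ndF1q1) (pc := pcF2) (cut := Cut.none) (xt := Ext.none) (P1 := 0) (W1 := 536870912) (P2 := 536870912) (W2 := 536870912) (P3 := 402653184) (W3 := 67108864)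
    rfl k0_pp_012

noncomputable def cut_pp_022_a : Cut := Cut.of [[⟨0, 0, 0, 67108864⟩, ⟨1, 1, 0, 67108864⟩, ⟨2, 1, 0, 67108864⟩]]

noncomputable def f_pp_022_a : ℕ → ℕ → ℕ → ℕ → Bool := onCell 0 536870912 0 536870912 402653184 67108864
    (rowF 0 true true true .pp 0 2 2 (qsf 0 536870912 0 536870912 2) ndF0q0 ndF1q2a pcF2 cut_pp_022_a Ext.none)

def k0_pp_022_a : ∃ t, chk3 f_pp_022_a t 2 1 1 = true :=
  ⟨(a (b (a (b (a (b (l 16518328) (l 16532296)) (l 16645848)) (b (a (a (l 16547064) (l 16557504)) (l 16594552)) (a (a (l 16571432) (l 16583336)) (a (l 16595520) (l 16608104))))) (b (b (l 16605944) (a (l 16590208) (l 16592024))) (a (b (l 16617920) (a (l 16621168) (l 16634880))) (b (l 16665472) (b (l 16648264) (l 16708104)))))) (b (a (a (b (a (b (l 16592928) (l 16609240)) (b (l 16605616) (l 16622264))) (b (a (l 16648120) (l 16640368)) (a (a (l 16643608) (l 16650192)) (a (l 16656816) (l 16663488))))) (b (b (a (l 16618576) (l 16631928)) (a (l 16635552) (l 16649216)))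 (b (a (l 16653832) (l 16688616)) (a (b (l 16668448) (l 16678744)) (a (l 16705256) (l 16734432)))))) (b (b (a (l 16715656) (a (l 16676504) (l 4))) (a (a (l 16663344) (l 16700360)) (l 4))) (a (a (b (l 16725200) (a (l 16743592) (l 4))) (l 4)) (l 4)))) (a (b (a (b (a (a (b (l 16660120) (l 16672784)) (l 16699920)) (b (l 16697568) (a (l 16685984) (l 16692648)))) (a (a (b (l 16686792) (l 6)) (b (l 16693416) (a (l 6) (l 16709928)))) (b (a (l 16700072) (l 16727816)) (a (c (l 16736592) (l 16735200)) (a (l 16741320) (l 16745528)))))) (b (a (b (a (l 16686664) (l 16693776)) (a (l 16699560) (l 16728736))) (b (a (l 16702272) (l 4)) (l 4))) (a (b (a (l 16735728) (l 4)) (l 4)) (l 4)))) (a (a (l 6) (a (b (l 6) (l 4)) (l 4))) (l 4))) (l 4)))) (b (a (a (b (l 16707896) (b (l 16697184) (b (l 16725272) (l 38352698935)))) (b (l 2382325767) (b (b (l 16704304) (l 16724512)) (l 4)))) (b (a (b (l 16650520) (a (l 16683992) (l 16705504))) (b (l 16736008) (l 23320403287))) (l 4))) (l 4))), by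 decide +kernel⟩

def k1_pp_022_a : ∃ t, chk3 f_pp_022_a t 3 1 1 = true :=
  ⟨(b (a (a (b (b (a (b (l 16749936) (l 4)) (l 4)) (l 4)) (l 4)) (l 4)) (l 4)) (l 4)), by decide +kernel⟩

theorem s2_pp_022_a : ∃ t, chk3 f_pp_022_a t 1 1 1 = true := ex3_a k0_pp_022_a k1_pp_022_a

theorem c_pp_022_a : CertF 0 536870912 0 536870912 402653184 67108864 true true true .pp 0 2 2
    ndF0q0 ndF1q2a pcF2 cut_pp_022_a Ext.none :=
  certF0 (fam := true) (s1 := true) (s2 := true) (a := 0) (b := 2) (c := 2) (cn := .pp) (n1 := ndF0q0) (n2 := ndF1q2a) (pc := pcF2) (cut := cut_pp_022_a) (xt := Ext.none) (P1 := 0) (W1 := 536870912) (P2 := 0) (W2 := 536870912) (P3 := 402653184) (W3 := 67108864)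
    rfl s2_pp_022_a

noncomputable def cut_pp_022_b : Cut := Cut.of [[⟨0, 0, 0, 67108864⟩, ⟨1, 1, 0, 67108864⟩, ⟨2, 1, 0, 67108864⟩]]

noncomputable def f_pp_022_b : ℕ → ℕ → ℕ → ℕ → Bool := onCell 0 536870912 1239849684 370763052 402653184 67108864
    (rowF 0 true true true .pp 0 2 2 (qsf 0 536870912 1239849684 370763052 2) ndF0q0 ndF1q2b pcF2 cut_pp_022_b Ext.none)

def k0_pp_022_b : ∃ t, chk3 f_pp_022_b t 1 1 1 = true :=
  ⟨(a (b (a (b (a (b (a (a (l 16471040) (l 16477120)) (b (l 16504968) (l 16469624))) (a (l 16485064) (l 16442280))) (b (b (l 16614840) (l 16562592)) (a (l 16446528) (l 16478720)))) (a (b (a (l 16380552) (l 16390704)) (a (l 16291368) (l 16337592))) (b (a (l 16408768) (l 16457920)) (a (l 16395208) (l 16464088))))) (b (a (b (a (l 16609760) (l 16643120)) (a (l 16520016) (l 16613504))) (b (a (b (l 16624144) (l 16623264)) (b (l 16712360) (l 16666352))) (a (l 16693312) (l 4)))) (a (b (a (l 16518216) (l 16586656)) (a (l 16580832) (l 4))) (l 4)))) (a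 (b (a (b (a (l 16265512) (l 16332136)) (a (l 16268928) (l 16494744))) (b (a (l 16449200) (l 4)) (l 4))) (a (b (a (l 16552224) (l 4)) (l 4)) (l 4))) (l 4))) (b (a (b (a (b (b (a (l 23857231783) (l 4)) (l 4)) (l 4)) (l 4)) (l 4)) (l 2)) (l 2))), by decide +kernel⟩

theorem c_pp_022_b : CertF 0 536870912 1239849684 370763052 402653184 67108864 true true true .pp 0 2 2
    ndF0q0 ndF1q2b pcF2 cut_pp_022_b Ext.none :=
  certF0 (fam := true) (s1 := true) (s2 := true) (a := 0) (b := 2) (c := 2) (cn := .pp) (n1 := ndF0q0) (n2 := ndF1q2b) (pc := pcF2) (cut := cut_pp_022_b) (xt := Ext.none) (P1 := 0) (W1 := 536870912) (P2 := 1239849684) (W2 := 370763052) (P3 := 402653184) (W3 := 67108864)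
    rfl k0_pp_022_b

noncomputable def f_pp_023_a : ℕ → ℕ → ℕ → ℕ → Bool := onCell 1610612736 536870912 0 536870912 402653184 67108864
    (rowF 2 true true true .up 0 2 3 (qsf 0 536870912 0 536870912 3) ndF0q0 ndF1q2a pcF3 Cut.none Ext.none)

def k0_pp_023_a : ∃ t, chk3 f_pp_023_a t 1 1 1 = true :=
  ⟨(a (l 4) (l 2)), by decide +kernel⟩

theorem c_pp_023_a : CertF 0 536870912 0 536870912 402653184 67108864 true true true .up 0 2 3
    ndF0q0 ndF1q2a pcF3 Cut.none Ext.none :=
  certF2 (fam := true) (s1 := true) (s2 := true) (a := 0) (b := 2) (c := 3) (cn := .up) (n1 := ndF0q0) (n2 := ndF1q2a) (pc := pcF3) (cut := Cut.none) (xt := Ext.none) (P1 := 0) (W1 := 536870912) (P2 := 0) (W2 := 536870912) (P3 := 402653184) (W3 := 67108864)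
    rfl (fun _ => rfl) k0_pp_023_a

noncomputable def f_pp_023_b : ℕ → ℕ → ℕ → ℕ → Bool := onCell 1610612736 536870912 1239849684 370763052 402653184 67108864
    (rowF 2 true true true .up 0 2 3 (qsf 0 536870912 1239849684 370763052 3) ndF0q0 ndF1q2b pcF3 Cut.none Ext.none)

def k0_pp_023_b : ∃ t, chk3 f_pp_023_b t 1 1 1 = true :=
  ⟨(a (l 4) (l 4)), by decide +kernel⟩

theorem c_pp_023_b : CertF 0 536870912 1239849684 370763052 402653184 67108864 true true true .up 0 2 3
    ndF0q0 ndF1q2b pcF3 Cut.none Ext.none :=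
  certF2 (fam := true) (s1 := true) (s2 := true) (a := 0) (b := 2) (c := 3) (cn := .up) (n1 := ndF0q0) (n2 := ndF1q2b) (pc := pcF3) (cut := Cut.none) (xt := Ext.none) (P1 := 0) (W1 := 536870912) (P2 := 1239849684) (W2 := 370763052) (P3 := 402653184) (W3 := 67108864)
    rfl (fun _ => rfl) k0_pp_023_b

noncomputable def f_pp_033 : ℕ → ℕ → ℕ → ℕ → Bool := onCell 0 536870912 1610612736 536870912 402653184 67108864
    (rowF 0 true true true .pnn 0 3 3 (qsf 0 536870912 1610612736 536870912 3) ndF0q0 ndF1q3 pcF3 Cut.none Ext.none)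

def k0_pp_033 : ∃ t, chk3 f_pp_033 t 1 1 1 = true :=
  ⟨(a (b (l 4) (l 4)) (l 4)), by decide +kernel⟩

theorem c_pp_033 : CertF 0 536870912 1610612736 536870912 402653184 67108864 true true true .pnn 0 3 3
    ndF0q0 ndF1q3 pcF3 Cut.none Ext.none :=
  certF0 (fam := true) (s1 := true) (s2 := true) (a := 0) (b := 3) (c := 3) (cn := .pnn) (n1 := ndF0q0) (n2 := ndF1q3) (pc := pcF3) (cut := Cut.none) (xt := Ext.none) (P1 := 0) (W1 := 536870912) (P2 := 1610612736) (W2 := 536870912) (P3 := 402653184) (W3 := 67108864)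
    rfl k0_pp_033

noncomputable def f_pp_101 : ℕ → ℕ → ℕ → ℕ → Bool := onCell 536870912 536870912 0 536870912 402653184 67108864
    (rowF 0 true true true .npn 1 0 1 (qsf 536870912 536870912 0 536870912 1) ndF0q1 ndF1q0 pcF1 Cut.none Ext.none)

def k0_pp_101 : ∃ t, chk3 f_pp_101 t 1 1 1 = true :=
  ⟨(l 5), by decide +kernel⟩

theorem c_pp_101 : CertF 536870912 536870912 0 536870912 402653184 67108864 true true true .npn 1 0 1
    ndF0q1 ndF1q0 pcF1 Cut.none Ext.none :=
  certF0 (fam := true) (s1 := true) (s2 := true) (a := 1) (b := 0) (c := 1) (cn := .npn) (n1 := ndF0q1) (n2 := ndF1q0) (pc := pcF1) (cut := Cut.none) (xt := Ext.none) (P1 := 536870912) (W1 := 536870912) (P2 := 0) (W2 := 536870912) (P3 := 402653184) (W3 := 67108864)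
    rfl k0_pp_101

noncomputable def f_pp_102 : ℕ → ℕ → ℕ → ℕ → Bool := onCell 536870912 536870912 0 536870912 402653184 67108864
    (rowF 0 true true true .npp 1 0 2 (qsf 536870912 536870912 0 536870912 2) ndF0q1 ndF1q0 pcF2 Cut.none Ext.none)

def k0_pp_102 : ∃ t, chk3 f_pp_102 t 1 1 1 = true :=
  ⟨(l 5), by decide +kernel⟩

theorem c_pp_102 : CertF 536870912 536870912 0 536870912 402653184 67108864 true true true .npp 1 0 2
    ndF0q1 ndF1q0 pcF2 Cut.none Ext.none :=
  certF0 (fam := true) (s1 := true) (s2 := true) (a := 1) (b := 0) (c := 2) (cn := .npp) (n1 := ndF0q1) (n2 := ndF1q0) (pc := pcF2) (cut := Cut.none) (xt := Ext.none) (P1 := 536870912) (W1 := 536870912) (P2 := 0) (W2 := 536870912) (P3 := 402653184) (W3 := 67108864)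
    rfl k0_pp_102

noncomputable def f_pp_112 : ℕ → ℕ → ℕ → ℕ → Bool := onCell 536870912 536870912 536870912 536870912 402653184 67108864
    (rowF 0 true true true .dn 1 1 2 (qsf 536870912 536870912 536870912 536870912 2) ndF0q1 ndF1q1 pcF2 Cut.none Ext.none)

def k0_pp_112 : ∃ t, chk3 f_pp_112 t 1 1 1 = true :=
  ⟨(l 4), by decide +kernel⟩

theorem c_pp_112 : CertF 536870912 536870912 536870912 536870912 402653184 67108864 true true true .dn 1 1 2
    ndF0q1 ndF1q1 pcF2 Cut.none Ext.none :=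
  certF0 (fam := true) (s1 := true) (s2 := true) (a := 1) (b := 1) (c := 2) (cn := .dn) (n1 := ndF0q1) (n2 := ndF1q1) (pc := pcF2) (cut := Cut.none) (xt := Ext.none) (P1 := 536870912) (W1 := 536870912) (P2 := 536870912) (W2 := 536870912) (P3 := 402653184) (W3 := 67108864)
    rfl k0_pp_112

noncomputable def f_pp_113 : ℕ → ℕ → ℕ → ℕ → Bool := onCell 536870912 536870912 536870912 536870912 402653184 67108864
    (rowF 0 true true true .nn 1 1 3 (qsf 536870912 536870912 536870912 536870912 3) ndF0q1 ndF1q1 pcF3 Cut.none Ext.none)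

def k0_pp_113 : ∃ t, chk3 f_pp_113 t 1 1 1 = true :=
  ⟨(l 4), by decide +kernel⟩

theorem c_pp_113 : CertF 536870912 536870912 536870912 536870912 402653184 67108864 true true true .nn 1 1 3
    ndF0q1 ndF1q1 pcF3 Cut.none Ext.none :=
  certF0 (fam := true) (s1 := true) (s2 := true) (a := 1) (b := 1) (c := 3) (cn := .nn) (n1 := ndF0q1) (n2 := ndF1q1) (pc := pcF3) (cut := Cut.none) (xt := Ext.none) (P1 := 536870912) (W1 := 536870912) (P2 := 536870912) (W2 := 536870912) (P3 := 402653184) (W3 := 67108864)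
    rfl k0_pp_113

noncomputable def f_pp_123_a : ℕ → ℕ → ℕ → ℕ → Bool := onCell 536870912 536870912 0 536870912 402653184 67108864
    (rowF 0 true true true .npn 1 2 3 (qsf 536870912 536870912 0 536870912 3) ndF0q1 ndF1q2a pcF3 Cut.none Ext.none)

def k0_pp_123_a : ∃ t, chk3 f_pp_123_a t 1 1 1 = true :=
  ⟨(l 4), by decide +kernel⟩

theorem c_pp_123_a : CertF 536870912 536870912 0 536870912 402653184 67108864 true true true .npn 1 2 3
    ndF0q1 ndF1q2a pcF3 Cut.none Ext.none :=
  certF0 (fam := true) (s1 := true) (s2 := true) (a := 1) (b := 2) (c := 3) (cn := .npn) (n1 := ndF0q1) (n2 := ndF1q2a) (pc := pcF3) (cut := Cut.none) (xt := Ext.none) (P1 := 536870912) (W1 := 536870912) (P2 := 0) (W2 := 536870912) (P3 := 402653184) (W3 := 67108864)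
    rfl k0_pp_123_a

noncomputable def f_pp_123_b : ℕ → ℕ → ℕ → ℕ → Bool := onCell 536870912 536870912 1239849684 370763052 402653184 67108864
    (rowF 0 true true true .npn 1 2 3 (qsf 536870912 536870912 1239849684 370763052 3) ndF0q1 ndF1q2b pcF3 Cut.none Ext.none)

def k0_pp_123_b : ∃ t, chk3 f_pp_123_b t 1 1 1 = true :=
  ⟨(l 4), by decide +kernel⟩

theorem c_pp_123_b : CertF 536870912 536870912 1239849684 370763052 402653184 67108864 true true true .npn 1 2 3
    ndF0q1 ndF1q2b pcF3 Cut.none Ext.none :=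
  certF0 (fam := true) (s1 := true) (s2 := true) (a := 1) (b := 2) (c := 3) (cn := .npn) (n1 := ndF0q1) (n2 := ndF1q2b) (pc := pcF3) (cut := Cut.none) (xt := Ext.none) (P1 := 536870912) (W1 := 536870912) (P2 := 1239849684) (W2 := 370763052) (P3 := 402653184) (W3 := 67108864)
    rfl k0_pp_123_b

noncomputable def f_pp_133 : ℕ → ℕ → ℕ → ℕ → Bool := onCell 536870912 536870912 1610612736 536870912 402653184 67108864
    (rowF 0 true true true .dn 1 3 3 (qsf 536870912 536870912 1610612736 536870912 3) ndF0q1 ndF1q3 pcF3 Cut.none Ext.none)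

def k0_pp_133 : ∃ t, chk3 f_pp_133 t 1 1 1 = true :=
  ⟨(l 4), by decide +kernel⟩

theorem c_pp_133 : CertF 536870912 536870912 1610612736 536870912 402653184 67108864 true true true .dn 1 3 3
    ndF0q1 ndF1q3 pcF3 Cut.none Ext.none :=
  certF0 (fam := true) (s1 := true) (s2 := true) (a := 1) (b := 3) (c := 3) (cn := .dn) (n1 := ndF0q1) (n2 := ndF1q3) (pc := pcF3) (cut := Cut.none) (xt := Ext.none) (P1 := 536870912) (W1 := 536870912) (P2 := 1610612736) (W2 := 536870912) (P3 := 402653184) (W3 := 67108864)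
    rfl k0_pp_133

noncomputable def f_pp_202 : ℕ → ℕ → ℕ → ℕ → Bool := onCell 0 536870912 0 536870912 402653184 67108864
    (rowF 0 true true true .pp 2 0 2 (qsf 0 536870912 0 536870912 2) ndF0q2 ndF1q0 pcF2 Cut.none Ext.none)

def k0_pp_202 : ∃ t, chk3 f_pp_202 t 1 1 1 = true :=
  ⟨(l 5), by decide +kernel⟩

theorem c_pp_202 : CertF 0 536870912 0 536870912 402653184 67108864 true true true .pp 2 0 2
    ndF0q2 ndF1q0 pcF2 Cut.none Ext.none :=
  certF0 (fam := true) (s1 := true) (s2 := true) (a := 2) (b := 0) (c := 2) (cn := .pp) (n1 := ndF0q2) (n2 := ndF1q0) (pc := pcF2) (cut := Cut.none) (xt := Ext.none) (P1 := 0) (W1 := 536870912) (P2 := 0) (W2 := 536870912) (P3 := 402653184) (W3 := 67108864)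
    rfl k0_pp_202

noncomputable def f_pp_203 : ℕ → ℕ → ℕ → ℕ → Bool := onCell 0 536870912 0 536870912 402653184 67108864
    (rowF 0 true true true .up 2 0 3 (qsf 0 536870912 0 536870912 3) ndF0q2 ndF1q0 pcF3 Cut.none Ext.none)

def k0_pp_203 : ∃ t, chk3 f_pp_203 t 1 1 1 = true :=
  ⟨(l 5), by decide +kernel⟩

theorem c_pp_203 : CertF 0 536870912 0 536870912 402653184 67108864 true true true .up 2 0 3
    ndF0q2 ndF1q0 pcF3 Cut.none Ext.none :=
  certF0 (fam := true) (s1 := true) (s2 := true) (a := 2) (b := 0) (c := 3) (cn := .up) (n1 := ndF0q2) (n2 := ndF1q0) (pc := pcF3) (cut := Cut.none) (xt := Ext.none) (P1 := 0) (W1 := 536870912) (P2 := 0) (W2 := 536870912) (P3 := 402653184) (W3 := 67108864)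
    rfl k0_pp_203

noncomputable def f_pp_213 : ℕ → ℕ → ℕ → ℕ → Bool := onCell 0 536870912 536870912 536870912 402653184 67108864
    (rowF 0 true true true .pnn 2 1 3 (qsf 0 536870912 536870912 536870912 3) ndF0q2 ndF1q1 pcF3 Cut.none Ext.none)

def k0_pp_213 : ∃ t, chk3 f_pp_213 t 1 1 1 = true :=
  ⟨(l 4), by decide +kernel⟩

theorem c_pp_213 : CertF 0 536870912 536870912 536870912 402653184 67108864 true true true .pnn 2 1 3
    ndF0q2 ndF1q1 pcF3 Cut.none Ext.none :=
  certF0 (fam := true) (s1 := true) (s2 := true) (a := 2) (b := 1) (c := 3) (cn := .pnn) (n1 := ndF0q2) (n2 := ndF1q1) (pc := pcF3) (cut := Cut.none) (xt := Ext.none) (P1 := 0) (W1 := 536870912) (P2 := 536870912) (W2 := 536870912) (P3 := 402653184) (W3 := 67108864)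
    rfl k0_pp_213

noncomputable def f_pm_001 : ℕ → ℕ → ℕ → ℕ → Bool := onCell 0 536870912 0 536870912 402653184 67108864
    (rowF 0 true true false .up 0 0 1 (qsf 0 536870912 0 536870912 1) ndF0q0 ndF1q0 pcF1 Cut.none Ext.none)

def k0_pm_001 : ∃ t, chk3 f_pm_001 t 1 1 1 = true :=
  ⟨(l 3), by decide +kernel⟩

theorem c_pm_001 : CertF 0 536870912 0 536870912 402653184 67108864 true true false .up 0 0 1
    ndF0q0 ndF1q0 pcF1 Cut.none Ext.none :=
  certF0 (fam := true) (s1 := true) (s2 := false) (a := 0) (b := 0) (c := 1) (cn := .up) (n1 := ndF0q0) (n2 := ndF1q0) (pc := pcF1) (cut := Cut.none) (xt := Ext.none) (P1 := 0) (W1 := 536870912) (P2 := 0) (W2 := 536870912) (P3 := 402653184) (W3 := 67108864)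
    rfl k0_pm_001

noncomputable def f_pm_011 : ℕ → ℕ → ℕ → ℕ → Bool := onCell 0 536870912 536870912 536870912 402653184 67108864
    (rowF 1 true true false .pnn 0 1 1 (qsf 0 536870912 536870912 536870912 1) ndF0q0 ndF1q1 pcF1 Cut.none Ext.none)

def k0_pm_011 : ∃ t, chk3 f_pm_011 t 1 1 1 = true :=
  ⟨(l 3), by decide +kernel⟩

theorem c_pm_011 : CertF 0 536870912 536870912 536870912 402653184 67108864 true true false .pnn 0 1 1
    ndF0q0 ndF1q1 pcF1 Cut.none Ext.none :=
  certF1 (fam := true) (s1 := true) (s2 := false) (a := 0) (b := 1) (c := 1) (cn := .pnn) (n1 := ndF0q0) (n2 := ndF1q1) (pc := pcF1) (cut := Cut.none) (xt := Ext.none) (P1 := 0) (W1 := 536870912) (P2 := 536870912) (W2 := 536870912) (P3 := 402653184) (W3 := 67108864)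
    rfl (fun _ => rfl) k0_pm_011

noncomputable def f_pm_012 : ℕ → ℕ → ℕ → ℕ → Bool := onCell 0 536870912 1073741824 536870912 402653184 67108864
    (rowF 1 true true false .pnp 0 1 2 (qsf 0 536870912 536870912 536870912 2) ndF0q0 ndF1q1 pcF2 Cut.none Ext.none)

def k0_pm_012 : ∃ t, chk3 f_pm_012 t 2 1 1 = true :=
  ⟨(b (b (l 3) (b (b (b (a (a (l 2) (l 3)) (l 3)) (a (l 2) (b (l 3) (b (a (l 3) (a (l 3) (l 16733032))) (b (a (a (l 3) (l 16663864)) (a (l 16695152) (l 16724992))) (a (a (l 16625704) (l 16658472)) (l 16705384))))))) (a (l 2) (a (a (a (l 2) (l 16586864)) (a (b (l 16626008) (l 16581312)) (l 16662600))) (a (l 16645344) (l 16676744))))) (a (l 2) (a (a (l 2) (b (a (l 2) (l 16529176)) (l 2))) (a (b (a (l 16546768) (l 16564176)) (b (l 16483576) (l 2))) (b (l 16589544) (l 16578384))))))) (b (a (l 2) (b (a (l 2) (a (l 2) (b (l 16392224) (l 2)))) (l 2))) (l 2))), by decide +kernel⟩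

def k1_pm_012 : ∃ t, chk3 f_pm_012 t 3 1 1 = true :=
  ⟨(b (b (b (l 3) (a (l 3) (b (l 3) (a (l 3) (b (l 3) (l 16905200)))))) (b (b (b (a (a (l 3) (l 220285080135)) (a (l 149954986311) (l 16868576))) (a (b (a (l 171966532951) (l 16826072)) (b (a (l 16772880) (l 16812040)) (b (a (l 16765328) (l 16804968)) (a (l 16760552) (l 16800416))))) (b (a (l 16844504) (l 16841240)) (b (a (l 16830824) (l 16827704)) (b (a (l 16824000) (l 16820984)) (a (l 16819552) (l 16816544))))))) (a (a (a (l 16705792) (l 16731464)) (l 16761176)) (a (l 16781200) (l 16778296)))) (a (a (a (l 16701680) (l 16626136)) (a (l 16629424) (l 16647672))) (a (l 16705592) (l 16679408))))) (b (a (a (b (a (a (l 16344240) (l 16508152)) (b (l 16459464) (l 16351280))) (a (l 2) (l 16296848))) (b (a (l 16434176) (l 16455312)) (a (l 16305232) (l 16318112)))) (a (b (l 16579152) (l 16367944)) (b (l 16612992) (l 16604000)))) (a (b (a (l 2) (a (l 2) (l 16310736))) (l 2)) (a (b (a (l 16338176) (l 16442872)) (a (l 2)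 (l 16507224))) (b (a (l 16582952) (l 16683624)) (a (l 16642536) (l 16743024))))))), by decide +kernel⟩

theorem s2_pm_012 : ∃ t, chk3 f_pm_012 t 1 1 1 = true := ex3_a k0_pm_012 k1_pm_012

theorem c_pm_012 : CertF 0 536870912 536870912 536870912 402653184 67108864 true true false .pnp 0 1 2
    ndF0q0 ndF1q1 pcF2 Cut.none Ext.none :=
  certF1 (fam := true) (s1 := true) (s2 := false) (a := 0) (b := 1) (c := 2) (cn := .pnp) (n1 := ndF0q0) (n2 := ndF1q1) (pc := pcF2) (cut := Cut.none) (xt := Ext.none) (P1 := 0) (W1 := 536870912) (P2 := 536870912) (W2 := 536870912) (P3 := 402653184) (W3 := 67108864)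
    rfl (fun _ => rfl) s2_pm_012

noncomputable def cut_pm_022_a : Cut := Cut.of [[⟨0, 0, 0, 67108864⟩, ⟨1, 1, 0, 67108864⟩, ⟨2, 1, 0, 67108864⟩], [⟨0, 0, 1, 33554432⟩, ⟨1, 1, 0, 33554432⟩, ⟨2, 1, 1, 33554432⟩]]

noncomputable def f_pm_022_a : ℕ → ℕ → ℕ → ℕ → Bool := onCell 1073741824 536870912 0 536870912 402653184 67108864
    (rowF 2 true true false .pp 0 2 2 (qsf 0 536870912 0 536870912 2) ndF0q0 ndF1q2a pcF2 cut_pm_022_a Ext.none)

def k0_pm_022_a : ∃ t, chk3 f_pm_022_a t 4 2 1 = true :=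
  ⟨(b (l 1) (a (l 1) (a (l 1) (b (l 1) (a (l 1) (b (l 1) (a (l 1) (b (l 16586616) (l 16590696))))))))), by decide +kernel⟩

def k1_pm_022_a : ∃ t, chk3 f_pm_022_a t 8 3 1 = true :=
  ⟨(b (l 1) (b (a (l 1) (b (a (l 1) (a (l 1) (b (l 1) (b (a (l 1) (c (l 16682736) (l 16676272))) (a (l 6) (c (l 16684808) (l 16678952))))))) (a (l 6) (a (l 6) (a (l 6) (a (l 6) (b (l 16684208) (l 16688208)))))))) (a (l 6) (a (l 6) (a (l 6) (a (l 6) (b (b (l 16692952) (l 16695728)) (b (l 16725216) (b (l 16716480) (c (l 16725944) (l 16723184))))))))))), by decide +kernel⟩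

def k2_pm_022_a : ∃ t, chk3 f_pm_022_a t 9 6 1 = true :=
  ⟨(a (b (l 1) (a (b (l 1) (a (l 1) (b (b (l 1) (l 16653368)) (b (c (l 16659784) (l 16652456)) (a (l 16660840) (l 16657280)))))) (b (a (b (l 1) (b (l 1) (l 16641400))) (b (l 16629136) (c (l 16637608) (l 16630000)))) (b (a (a (l 16657480) (l 16643696)) (l 16638768)) (a (c (l 16653832) (l 16647304)) (l 16643712)))))) (b (a (b (a (l 1) (l 16604256)) (a (b (l 1) (l 16619000)) (b (l 16609704) (l 16613560)))) (b (a (b (l 16597960) (l 16601208)) (l 59089023463)) (a (b (l 16604616) (l 16608160)) (l 16601232)))) (a (b (a (b (l 16633800) (l 16627744)) (b (l 16617544) (l 16621632))) (b (a (l 16632256) (l 16625808)) (l 16633456))) (b (a (l 16613760) (l 16607944)) (l 16639232))))), by decide +kernel⟩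

def k3_pm_022_a : ∃ t, chk3 f_pm_022_a t 9 7 1 = true :=
  ⟨(b (a (b (a (b (a (b (a (l 1) (c (l 16670552) (l 16663616))) (a (c (l 16676568) (l 16669864)) (l 64994737463))) (b (c (l 16664904) (l 16658424)) (l 16664120))) (a (b (a (c (l 16678912) (l 16672736)) (l 16672200)) (c (l 16678904) (l 16673472))) (b (l 16666456) (l 16668416)))) (b (a (l 16655552) (l 16648216)) (a (l 16659616) (l 16651848)))) (a (b (a (b (l 16678248) (l 16680168)) (l 16671040)) (a (l 16682928) (l 16674232))) (b (l 16669072) (l 16681976)))) (b (a (b (l 16637400) (l 16640400)) (l 16645456)) (a (c (l 16685696) (l 16684312)) (l 16647776)))) (a (a (b (b (a (l 16686256) (l 16677032)) (l 16715184)) (b (a (l 16731736) (l 16737264)) (b (a (l 16712480) (l 16707480)) (b (a (l 16718544) (l 16713528)) (a (c (l 16724216) (l 16720864)) (c (c (l 16723008) (l 16718512)) (l 16715560))))))) (b (l 16705112) (b (c (l 16720696) (l 16728856)) (b (c (l 16701976) (l 16698368)) (b (c (l 16713576) (l 16704064)) (c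 (a (a (l 16716072) (l 16713768)) (a (l 16711416) (l 16709016))) (a (l 16710456) (l 16705264)))))))) (a (b (l 16706376) (b (c (l 16700552) (l 16676416)) (b (c (l 16692240) (l 16687784)) (c (b (l 16719528) (a (c (l 16717096) (l 16704016)) (l 16710720))) (a (b (l 16696176) (l 16699944)) (l 16703104)))))) (b (l 16695848) (b (l 16688208) (a (b (l 16682008) (c (l 16703296) (l 16686992))) (b (l 16676344) (b (l 16682264) (l 16686216))))))))), by decide +kernel⟩

def k4_pm_022_a : ∃ t, chk3 f_pm_022_a t 5 1 1 = true :=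
  ⟨(b (a (b (a (b (l 16525616) (a (l 1) (l 16531064))) (b (l 16499280) (a (l 16518912) (l 16505736)))) (a (a (b (b (l 16553280) (l 16562128)) (b (a (l 16574280) (l 16569464)) (a (l 16605184) (l 16579656)))) (b (b (l 16542664) (l 16551856)) (b (l 16561936) (a (l 16574944) (a (l 16571360) (l 16589384)))))) (b (a (l 16536160) (l 16524088)) (a (l 16578128) (l 16546056))))) (b (a (a (l 16547224) (l 16530992)) (l 16514576)) (b (a (l 16546328) (l 16474648)) (a (l 16591232) (l 16543968))))) (b (a (a (a (b (b (a (l 16590408) (l 16585816)) (l 16593552)) (b (l 16599456) (l 16605696))) (a (b (b (l 16581240) (l 16585984)) (l 16615152)) (a (b (l 16580272) (l 16590192)) (b (a (l 16578608) (l 16577424)) (l 16650856))))) (b (b (l 16585672) (l 16568160)) (b (l 16571816) (l 16575752)))) (b (a (b (l 16544240) (l 16546168)) (l 16585728)) (a (b (l 16547112) (l 16548288)) (b (l 16522288) (l 16520304))))) (a (b (a (a (b (l 16610624) (l 16611288)) (a (b (l 16600824) (l 16600400)) (b (l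 16637416) (l 16615584)))) (b (a (l 16585544) (l 16570320)) (l 16596112))) (a (b (a (l 16673880) (a (l 16638136) (l 16677208))) (a (b (l 16655392) (b (l 16667136) (b (l 16672992) (a (l 16680184) (l 16673744))))) (b (a (l 16645480) (a (l 16639672) (l 16655752))) (a (b (l 16657032) (c (l 16667752) (l 16661560))) (b (a (l 16651088) (l 16667024)) (a (l 16658696) (a (l 16654856) (l 16652040)))))))) (b (l 16662864) (b (l 16643280) (b (l 16633504) (a (l 16645848) (l 16636480))))))) (b (a (l 16612344) (l 16600384)) (b (a (l 16623560) (l 16607848)) (b (a (l 16604352) (l 16589648)) (b (a (l 16615928) (l 16601856)) (a (a (l 16627800) (l 16619960)) (a (l 16613144) (c (l 16612624) (l 16602328))))))))))), by decide +kernel⟩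

def k5_pm_022_a : ∃ t, chk3 f_pm_022_a t 6 2 1 = true :=
  ⟨(a (b (b (l 16561640) (l 16491032)) (b (l 16510928) (a (l 16472384) (l 16438224)))) (b (a (b (l 16530112) (l 16489456)) (l 16606808)) (a (b (l 16454120) (l 16444168)) (b (l 16472752) (l 16430904))))), by decide +kernel⟩

def k6_pm_022_a : ∃ t, chk3 f_pm_022_a t 6 6 1 = true :=
  ⟨(a (b (a (b (l 16497368) (l 16501856)) (l 16535096)) (a (l 16494320) (l 16464920))) (b (a (b (l 16430472) (l 16468136)) (b (l 16401440) (l 16432912))) (a (l 16494240) (l 16500664)))), by decide +kernel⟩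

def k7_pm_022_a : ∃ t, chk3 f_pm_022_a t 12 7 1 = true :=
  ⟨(b (b (l 16548720) (c (l 16581784) (l 16577784))) (b (a (l 16596096) (l 16590008)) (b (a (l 16579608) (l 16618048)) (a (b (l 16613816) (c (a (l 16609144) (l 16607464)) (a (l 16597520) (l 16594296)))) (a (b (l 16590640) (c (l 16628872) (l 16592912))) (b (l 16591800) (c (a (l 16609832) (l 16611944)) (l 16593696)))))))), by decide +kernel⟩

def k8_pm_022_a : ∃ t, chk3 f_pm_022_a t 13 7 1 = true :=
  ⟨(b (a (b (l 16497560) (l 16532864)) (a (l 16554968) (l 16549384))) (b (a (a (l 16548656) (l 16552064)) (a (l 16553824) (l 16574696))) (a (b (a (l 16579256) (l 16605744)) (b (a (l 16595512) (c (l 16612536) (l 16591992))) (a (c (a (b (l 16611800) (l 16617784)) (c (l 16644392) (l 16613392))) (b (l 16594352) (l 16599656))) (c (a (b (l 16619632) (c (l 16652536) (l 16620632))) (b (l 16624864) (a (c (l 16635864) (l 16624376)) (c (c (l 16652496) (l 16636072)) (l 16627160))))) (a (l 16601368) (c (l 16632024) (l 16599576)))))))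 (b (a (c (l 16599312) (l 16579208)) (l 16644496)) (b (a (c (l 16640520) (l 16596856)) (c (l 16624784) (l 16600504))) (a (c (b (a (l 16628880) (l 16631464)) (b (a (c (l 16640216) (l 16628048)) (c (l 16643208) (l 16630616))) (a (c (a (c (l 16646240) (l 16640096)) (a (c (l 16647360) (l 16641136)) (c (l 16648136) (l 16641856)))) (a (l 16630880) (l 16642600))) (c (b (l 16656528) (c (a (c (l 14) (l 16648704)) (l 14)) (a (l 16643912) (l 16645528)))) (c (a (l 16636624) (l 16638120)) (l 16630952)))))) (a (c (a (l 16613872) (l 16614792)) (l 16602256)) (c (a (l 16615832) (l 16637928)) (l 16603920)))) (c (a (b (l 16634424) (c (a (b (l 16645688) (a (c (l 14) (l 16645856)) (l 14))) (l 14)) (b (l 16633560) (c (a (l 16639712) (l 16646656)) (a (l 16633136) (l 16634728)))))) (b (l 16637800) (c (l 14) (b (l 16636936) (a (c (a (l 16642760) (l 14)) (l 16636424)) (c (l 14) (l 16648720))))))) (b (l 16631328) (a (c (a (l 16621560) (l 16622952)) (l 16609104)) (b (l 16616736) (c (a (l 16626216)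 (l 16638344)) (l 16613312)))))))))))), by decide +kernel⟩

def k9_pm_022_a : ∃ t, chk3 f_pm_022_a t 7 2 1 = true :=
  ⟨(a (b (b (l 16653744) (l 16672152)) (a (b (l 16491544) (l 16436768)) (b (l 16518832) (l 16472960)))) (b (a (l 16682472) (l 16821968)) (a (b (l 16621904) (l 16592200)) (b (l 16765368) (l 16739624))))), by decide +kernel⟩

def k10_pm_022_a : ∃ t, chk3 f_pm_022_a t 14 6 1 = true :=
  ⟨(b (a (b (l 16397120) (l 16412088)) (l 16443712)) (a (c (l 16485536) (l 16459656)) (b (a (l 16404344) (l 16464408)) (l 16436864)))), by decide +kernel⟩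

def k11_pm_022_a : ∃ t, chk3 f_pm_022_a t 14 14 1 = true :=
  ⟨(a (b (l 16477360) (l 16545936)) (b (l 16492104) (l 16556432))), by decide +kernel⟩

def k12_pm_022_a : ∃ t, chk3 f_pm_022_a t 14 30 1 = true :=
  ⟨(a (a (l 16575920) (l 16578656)) (b (l 16580112) (a (l 16585480) (l 16637320)))), by decide +kernel⟩

def k13_pm_022_a : ∃ t, chk3 f_pm_022_a t 28 31 1 = true :=
  ⟨(b (a (l 16638424) (c (l 16628208) (l 16590120))) (b (a (c (l 16631520) (l 16605592)) (c (l 16636416) (l 16612344))) (a (c (a (b (l 16641608) (c (l 14) (a (c (l 14) (c (l 14) (l 16644352))) (l 14)))) (l 14)) (b (a (l 16614560) (l 16617920)) (a (b (l 16640840) (c (c (a (l 16633128) (l 16645536)) (a (l 16626088) (l 16627896))) (c (l 16619896) (l 16612800)))) (b (l 16644416) (a (c (c (a (l 16636568) (l 14)) (l 16629816)) (l 16618912)) (c (c (l 14) (l 16631856)) (l 16631248))))))) (a (c (l 14) (b (l 16621736) (c (a (c (l 14) (c (l 14) (l 16640688))) (l 14)) (b (l 16620056) (c (a (l 16626504) (l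 16628656)) (a (l 16618984) (l 16621016))))))) (c (a (l 14) (a (l 14) (c (c (l 16743952) (l 14)) (l 14)))) (c (l 14) (b (l 16618560) (b (l 16624328) (a (c (a (l 16630352) (l 14)) (l 16623168)) (c (l 14) (l 16625448))))))))))), by decide +kernel⟩

def k14_pm_022_a : ∃ t, chk3 f_pm_022_a t 29 31 1 = true :=
  ⟨(b (a (c (l 16680840) (l 16596952)) (c (l 16727816) (l 16616488))) (b (a (c (a (l 16696248) (l 16720416)) (l 16620976)) (c (a (l 16743280) (l 16764824)) (l 16624840))) (b (a (c (a (l 16690008) (l 16713784)) (a (l 16630808) (l 14))) (c (a (l 16757216) (l 16778352)) (c (l 16645816) (l 14)))) (a (a (c (c (a (a (l 16719496) (l 16746416)) (l 16734200)) (l 14)) (c (l 14) (a (c (l 14) (c (l 14) (l 16634392))) (l 14)))) (c (b (c (l 16769736) (l 16714440)) (a (c (l 16768968) (l 14)) (c (l 16779968) (a (l 14) (l 16696736))))) (l 14))) (a (c (c (l 16793552) (b (l 16737392) (a (c (l 16750200) (l 14)) (l 16747784)))) (l 14)) (a (c (c (l 16808768) (l 16756128)) (l 14)) (c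 (c (l 16818544) (l 16766592)) (c (c (l 16727632) (l 14)) (l 14))))))))), by decide +kernel⟩

def k15_pm_022_a : ∃ t, chk3 f_pm_022_a t 15 3 1 = true :=
  ⟨(b (a (b (b (l 16571104) (l 16556800)) (b (a (l 16540112) (l 16611496)) (l 16625040))) (b (a (l 16667128) (l 16770368)) (b (a (l 16733984) (l 16760872)) (a (l 16664760) (l 16775152))))) (b (a (b (a (l 16570544) (l 16616712)) (a (l 16614096) (l 16658800))) (b (a (l 16697264) (l 16807048)) (a (l 16738512) (l 16845200)))) (a (b (a (b (l 16653744) (l 16683936)) (b (l 16696952) (l 16725752))) (b (a (c (l 16769872) (l 16664376)) (a (l 16747456) (l 16766312))) (b (a (c (l 16794840) (a (l 16680904) (l 16702712))) (a (l 16688824) (l 16707000))) (a (c (a (b (l 16798248) (c (l 16832656) (l 16781720))) (b (l 16816976) (l 16804688))) (b (a (l 16695448) (l 16716832)) (b (a (c (l 16728360) (l 14)) (c (l 16748872) (l 16699160))) (c (a (a (c (l 16740720) (l 14)) (l 16717448)) (a (l 16748600) (l 16758488))) (c (a (l 14) (a (l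 14) (l 16721608))) (l 14)))))) (c (a (l 16838808) (l 16855264)) (b (a (l 16737024) (l 16756088)) (c (a (l 16770512) (l 16788696)) (a (a (c (l 16729296) (l 14)) (a (l 16724648) (l 16729560))) (a (l 16736816) (l 16746240)))))))))) (b (a (b (l 16774456) (l 16801128)) (l 16888448)) (b (a (a (l 16803176) (l 16855152)) (l 16924616)) (a (c (b (l 16895336) (a (l 16887208) (l 16932000))) (b (l 16725400) (a (b (l 16793984) (a (c (l 16811192) (l 16765816)) (l 16774392))) (b (l 16847744) (c (l 16875712) (l 16793832)))))) (b (l 16943784) (c (l 16991176) (a (b (l 16896744) (l 16904144)) (l 16944688)))))))))), by decide +kernel⟩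

theorem s16_pm_022_a : ∃ t, chk3 f_pm_022_a t 14 31 1 = true := ex3_a k13_pm_022_a k14_pm_022_a

theorem s17_pm_022_a : ∃ t, chk3 f_pm_022_a t 14 15 1 = true := ex3_b k12_pm_022_a s16_pm_022_a

theorem s18_pm_022_a : ∃ t, chk3 f_pm_022_a t 14 7 1 = true := ex3_b k11_pm_022_a s17_pm_022_a

theorem s19_pm_022_a : ∃ t, chk3 f_pm_022_a t 14 3 1 = true := ex3_b k10_pm_022_a s18_pm_022_a

theorem s20_pm_022_a : ∃ t, chk3 f_pm_022_a t 7 3 1 = true := ex3_a s19_pm_022_a k15_pm_022_a

theorem s21_pm_022_a : ∃ t, chk3 f_pm_022_a t 7 1 1 = true := ex3_b k9_pm_022_a s20_pm_022_a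

theorem s22_pm_022_a : ∃ t, chk3 f_pm_022_a t 6 7 1 = true := ex3_a k7_pm_022_a k8_pm_022_a

theorem s23_pm_022_a : ∃ t, chk3 f_pm_022_a t 6 3 1 = true := ex3_b k6_pm_022_a s22_pm_022_a

theorem s24_pm_022_a : ∃ t, chk3 f_pm_022_a t 6 1 1 = true := ex3_b k5_pm_022_a s23_pm_022_a

theorem s25_pm_022_a : ∃ t, chk3 f_pm_022_a t 3 1 1 = true := ex3_a s24_pm_022_a s21_pm_022_a

theorem s26_pm_022_a : ∃ t, chk3 f_pm_022_a t 9 3 1 = true := ex3_b k2_pm_022_a k3_pm_022_a

theorem s27_pm_022_a : ∃ t, chk3 f_pm_022_a t 4 3 1 = true := ex3_a k1_pm_022_a s26_pm_022_a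

theorem s28_pm_022_a : ∃ t, chk3 f_pm_022_a t 4 1 1 = true := ex3_b k0_pm_022_a s27_pm_022_a

theorem s29_pm_022_a : ∃ t, chk3 f_pm_022_a t 2 1 1 = true := ex3_a s28_pm_022_a k4_pm_022_a

theorem s30_pm_022_a : ∃ t, chk3 f_pm_022_a t 1 1 1 = true := ex3_a s29_pm_022_a s25_pm_022_a

theorem c_pm_022_a : CertF 0 536870912 0 536870912 402653184 67108864 true true false .pp 0 2 2
    ndF0q0 ndF1q2a pcF2 cut_pm_022_a Ext.none :=
  certF2 (fam := true) (s1 := true) (s2 := false) (a := 0) (b := 2) (c := 2) (cn := .pp) (n1 := ndF0q0) (n2 := ndF1q2a) (pc := pcF2) (cut := cut_pm_022_a) (xt := Ext.none) (P1 := 0) (W1 := 536870912) (P2 := 0) (W2 := 536870912) (P3 := 402653184) (W3 := 67108864)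
    rfl (fun _ => rfl) s30_pm_022_a

noncomputable def cut_pm_022_b : Cut := Cut.of [[⟨0, 0, 0, 67108864⟩, ⟨1, 1, 0, 67108864⟩, ⟨2, 1, 0, 67108864⟩], [⟨0, 0, 1, 33554432⟩, ⟨1, 1, 0, 33554432⟩, ⟨2, 1, 1, 33554432⟩]]

noncomputable def f_pm_022_b : ℕ → ℕ → ℕ → ℕ → Bool := onCell 0 536870912 1073741824 536870912 402653184 67108864
    (rowF 1 true true false .pp 0 2 2 (qsf 0 536870912 1239849684 370763052 2) ndF0q0 ndF1q2b pcF2 cut_pm_022_b Ext.none)

def k0_pm_022_b : ∃ t, chk3 f_pm_022_b t 1 1 1 = true :=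
  ⟨(a (b (a (b (l 1) (a (b (a (b (a (l 16570888) (l 1)) (a (l 16483376) (l 16502312))) (b (l 1) (l 154651853287))) (b (a (l 16486392) (l 16460472)) (a (l 16349072) (l 16386224)))) (b (l 1) (a (b (l 16517760) (l 16444120)) (l 51572790839))))) (l 1)) (b (a (b (a (a (a (l 16276184) (l 16281984)) (l 16367168)) (a (l 16383920) (a (l 16460248) (l 16495176)))) (a (b (a (l 16148904) (l 16258560)) (a (l 16146544) (l 16235960))) (b (a (l 16340168) (l 16415288)) (l 16419448)))) (b (a (a (b (l 16539568) (l 16508744)) (l 50499243415)) (l 1)) (a (b (a (l 16484496) (l 16548736)) (l 16496368)) (b (l 81100990423) (a (l 16590832) (l 16651000)))))) (a (b (a (b (a (l 16131760) (l 16221200)) (l 16175264)) (b (l 16341720) (l 16338576))) (b (a (l 16188040) (l 16349048)) (a (l 16275784) (l 16376752)))) (b (a (b (l 16481288) (l 16476840)) (b (l 16605872) (l 16600504))) (a (b (l 16485248) (l 16516712)) (b (l 16606968) (l 16643128))))))) (b (l 1) (b (l 1) (a (b (a (a (l 100965282263) (l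 120829611111)) (l 1)) (a (b (l 16726664) (l 16768752)) (b (l 178274854215) (l 142841478103)))) (l 1))))), by decide +kernel⟩

theorem c_pm_022_b : CertF 0 536870912 1239849684 370763052 402653184 67108864 true true false .pp 0 2 2
    ndF0q0 ndF1q2b pcF2 cut_pm_022_b Ext.none :=
  certF1 (fam := true) (s1 := true) (s2 := false) (a := 0) (b := 2) (c := 2) (cn := .pp) (n1 := ndF0q0) (n2 := ndF1q2b) (pc := pcF2) (cut := cut_pm_022_b) (xt := Ext.none) (P1 := 0) (W1 := 536870912) (P2 := 1239849684) (W2 := 370763052) (P3 := 402653184) (W3 := 67108864)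
    rfl (fun _ => rfl) k0_pm_022_b

noncomputable def f_pm_023_a : ℕ → ℕ → ℕ → ℕ → Bool := onCell 0 536870912 0 536870912 402653184 67108864
    (rowF 0 true true false .up 0 2 3 (qsf 0 536870912 0 536870912 3) ndF0q0 ndF1q2a pcF3 Cut.none Ext.none)

def k0_pm_023_a : ∃ t, chk3 f_pm_023_a t 1 1 1 = true :=
  ⟨(a (l 1) (b (a (a (l 1) (b (l 134251245351) (a (l 1) (l 171832232135)))) (a (b (l 16877128) (a (l 16796856) (l 16859264))) (b (a (l 16934904) (l 16954016)) (l 16920000)))) (a (b (l 1) (l 1)) (b (b (a (l 151967944487) (l 16892776)) (a (a (l 147136108311) (l 148209835623)) (a (l 16840472) (l 16891568)))) (a (b (l 176127055943) (l 1)) (b (a (l 151431213575) (l 16902200)) (a (l 224445772167) (b (l 16928144) (a (l 183106845079) (b (l 16958544) (c (l 17002336) (l 16938544)))))))))))), by decide +kernel⟩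

theorem c_pm_023_a : CertF 0 536870912 0 536870912 402653184 67108864 true true false .up 0 2 3
    ndF0q0 ndF1q2a pcF3 Cut.none Ext.none :=
  certF0 (fam := true) (s1 := true) (s2 := false) (a := 0) (b := 2) (c := 3) (cn := .up) (n1 := ndF0q0) (n2 := ndF1q2a) (pc := pcF3) (cut := Cut.none) (xt := Ext.none) (P1 := 0) (W1 := 536870912) (P2 := 0) (W2 := 536870912) (P3 := 402653184) (W3 := 67108864)
    rfl k0_pm_023_a

end Pool.Agent.Strip051.G.I3_8_7_16.Tab.C.FA01

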