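import Pool.Agent.Strip051.G.I3_8_7_16.Tab

/-! # Certificates F1 (generated) -/

set_option linter.all false
set_option maxRecDepth 100000

namespace Pool.Agent.Strip051.G.I3_8_7_16.Tab.C.FA01

open Pool.Agent.Strip051.PB Pool.Agent.Strip051.PB.T
open Pool.Agent.Strip051.G.I3_8_7_16.Tab

noncomputable def f_pm_023_b : ℕ → ℕ → ℕ → ℕ → Bool := onCell 0 536870912 1610612736 536870912 402653184 67108864
    (rowF 1 true true false .up 0 2 3 (qsf 0 536870912 1239849684 370763052 3) ndF0q0 ndF1q2b pcF3 Cut.none Ext.none)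

def k0_pm_023_b : ∃ t, chk3 f_pm_023_b t 1 1 1 = true :=
  ⟨(b (a (b (a (b (a (b (l 16611824) (l 16733600)) (b (l 16610464) (l 16715720))) (a (l 16888064) (l 16852000))) (b (a (b (l 16628560) (l 16714336)) (b (l 16663904) (l 16730120))) (a (l 16828432) (l 16817504)))) (a (b (l 17013440) (l 2)) (b (a (l 16949464) (l 16916128)) (l 17013840)))) (b (a (b (a (b (l 16713392) (l 16764104)) (b (l 39225276071) (l 16816704))) (a (l 16821816) (l 16847432))) (a (b (l 220150914439) (a (l 16885784) (l 16917720))) (b (l 1) (l 211561243895)))) (a (b (a (l 16890440) (l 16876840)) (l 16935832)) (b (a (l 16885568) (a (l 16913160) (l 245921044871))) (a (l 16889936) (l 16880576)))))) (b (a (b (a (l 2) (l 17165200)) (l 2)) (a (b (a (l 17006992) (l 16966880)) (b (l 17009600) (l 4))) (b (a (l 16924584) (l 16886640)) (b (l 16936424) (l 4))))) (b (l 4) (l 4)))), by decide +kernel⟩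

theorem c_pm_023_b : CertF 0 536870912 1239849684 370763052 402653184 67108864 true true false .up 0 2 3
    ndF0q0 ndF1q2b pcF3 Cut.none Ext.none :=
  certF1 (fam := true) (s1 := true) (s2 := false) (a := 0) (b := 2) (c := 3) (cn := .up) (n1 := ndF0q0) (n2 := ndF1q2b) (pc := pcF3) (cut := Cut.none) (xt := Ext.none) (P1 := 0) (W1 := 536870912) (P2 := 1239849684) (W2 := 370763052) (P3 := 402653184) (W3 := 67108864)
    rfl (fun _ => rfl) k0_pm_023_b

noncomputable def f_pm_033 : ℕ → ℕ → ℕ → ℕ → Bool := onCell 1610612736 536870912 1610612736 536870912 402653184 67108864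
    (rowF 2 true true false .pnn 0 3 3 (qsf 0 536870912 1610612736 536870912 3) ndF0q0 ndF1q3 pcF3 Cut.none Ext.none)

def k0_pm_033 : ∃ t, chk3 f_pm_033 t 1 1 1 = true :=
  ⟨(a (b (a (b (a (b (a (l 16509152) (l 16657072)) (l 251288583783)) (b (l 16822816) (l 16840560))) (a (l 1) (b (l 16879776) (l 1)))) (b (a (b (l 16954024) (l 16984384)) (b (l 17015224) (l 17050064))) (a (b (l 17022904) (l 17076888)) (l 17108360)))) (a (l 1) (a (l 1) (b (l 17367560) (l 1))))) (a (b (a (b (b (l 17036160) (l 17068232)) (a (l 17117320) (l 4))) (l 4)) (l 4)) (l 4))), by decide +kernel⟩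

theorem c_pm_033 : CertF 0 536870912 1610612736 536870912 402653184 67108864 true true false .pnn 0 3 3
    ndF0q0 ndF1q3 pcF3 Cut.none Ext.none :=
  certF2 (fam := true) (s1 := true) (s2 := false) (a := 0) (b := 3) (c := 3) (cn := .pnn) (n1 := ndF0q0) (n2 := ndF1q3) (pc := pcF3) (cut := Cut.none) (xt := Ext.none) (P1 := 0) (W1 := 536870912) (P2 := 1610612736) (W2 := 536870912) (P3 := 402653184) (W3 := 67108864)
    rfl (fun _ => rfl) k0_pm_033

noncomputable def cut_pm_101 : Cut := Cut.of [[⟨0, 1, 0, 67108864⟩, ⟨1, 0, 0, 67108864⟩, ⟨2, 1, 0, 67108864⟩]]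

noncomputable def f_pm_101 : ℕ → ℕ → ℕ → ℕ → Bool := onCell 536870912 536870912 0 536870912 402653184 67108864
    (rowF 2 true true false .npn 1 0 1 (qsf 536870912 536870912 0 536870912 1) ndF0q1 ndF1q0 pcF1 cut_pm_101 Ext.none)

def k0_pm_101 : ∃ t, chk3 f_pm_101 t 1 1 1 = true :=
  ⟨(a (l 3) (b (a (l 3) (b (a (l 3) (a (l 3) (a (l 3) (b (b (l 6) (l 3)) (l 3))))) (l 3))) (l 3))), by decide +kernel⟩

theorem c_pm_101 : CertF 536870912 536870912 0 536870912 402653184 67108864 true true false .npn 1 0 1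
    ndF0q1 ndF1q0 pcF1 cut_pm_101 Ext.none :=
  certF2 (fam := true) (s1 := true) (s2 := false) (a := 1) (b := 0) (c := 1) (cn := .npn) (n1 := ndF0q1) (n2 := ndF1q0) (pc := pcF1) (cut := cut_pm_101) (xt := Ext.none) (P1 := 536870912) (W1 := 536870912) (P2 := 0) (W2 := 536870912) (P3 := 402653184) (W3 := 67108864)
    rfl (fun _ => rfl) k0_pm_101

noncomputable def cut_pm_102 : Cut := Cut.of [[⟨0, 1, 0, 67108864⟩, ⟨1, 0, 0, 67108864⟩, ⟨2, 1, 0, 67108864⟩]]

noncomputable def f_pm_102 : ℕ → ℕ → ℕ → ℕ → Bool := onCell 536870912 536870912 1073741824 536870912 402653184 67108864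
    (rowF 1 true true false .npp 1 0 2 (qsf 536870912 536870912 0 536870912 2) ndF0q1 ndF1q0 pcF2 cut_pm_102 Ext.none)

def k0_pm_102 : ∃ t, chk3 f_pm_102 t 2 1 1 = true :=
  ⟨(b (b (b (l 3) (b (a (l 3) (a (b (l 3) (a (l 334101884455) (l 16946952))) (b (l 150492017447) (l 16969336)))) (a (a (l 2) (a (b (a (l 2) (l 154250103447)) (l 2)) (b (l 160692592983) (l 16960568)))) (a (b (a (l 16954560) (l 16945560)) (l 16949544)) (l 17060208))))) (b (b (b (a (a (l 2) (l 169215409703)) (a (l 16949312) (l 16886168))) (a (l 2) (b (l 17099016) (l 17045840)))) (a (l 2) (l 17041840))) (a (l 2) (l 16992456)))) (b (a (l 2) (a (l 2) (l 16837656))) (l 2))), by decide +kernel⟩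

def k1_pm_102 : ∃ t, chk3 f_pm_102 t 3 1 1 = true :=
  ⟨(b (b (b (a (b (l 3) (a (b (l 3) (l 133849004631)) (b (a (l 3) (l 16905736)) (l 16965536)))) (a (a (b (b (l 3) (l 155323659655)) (b (l 16881048) (l 16825336))) (b (b (l 3) (a (l 152639281287) (b (l 114521455927) (l 16818064)))) (b (l 16855336) (l 16799400)))) (b (a (a (b (b (l 3) (l 201494454615)) (b (l 16833688) (l 16803392))) (b (b (l 3) (b (l 6) (l 28622016423))) (b (l 16818144) (l 16788816)))) (b (l 6) (a (b (l 6) (l 16775088)) (l 6)))) (a (b (a (l 16792752) (l 16780248)) (l 16777784)) (a (b (l 16766736) (l 16756024)) (b (l 16773448) (l 16741168))))))) (a (b (b (a (l 16956600) (l 16887968)) (a (l 16877896) (l 16831144))) (a (l 16958336) (a (l 16819544) (l 16801432)))) (a (b (a (l 16846160) (l 16791112)) (l 16775184)) (a (b (l 16765912) (l 16750552)) (b (a (l 16742208) (l 16726192)) (l 16716024)))))) (a (b (b (a (l 16817664) (l 16823712)) (l 17000496)) (a (l 16826016) (l 16815568))) (b (a (b (b (l 16787432)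 (l 16776688)) (l 16766664)) (a (b (b (l 16737536) (l 16726320)) (l 16714680)) (b (b (l 16701648) (l 16754232)) (l 16678336)))) (a (l 16758264) (a (l 16700328) (l 16661472)))))) (b (a (b (l 16895552) (l 16857368)) (b (a (l 16752976) (l 16764456)) (a (l 16749320) (a (l 16696248) (l 16714640))))) (a (b (l 16862672) (l 2)) (b (a (l 16800288) (l 16783168)) (a (l 16976392) (l 16979784)))))), by decide +kernel⟩

theorem s2_pm_102 : ∃ t, chk3 f_pm_102 t 1 1 1 = true := ex3_a k0_pm_102 k1_pm_102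

theorem c_pm_102 : CertF 536870912 536870912 0 536870912 402653184 67108864 true true false .npp 1 0 2
    ndF0q1 ndF1q0 pcF2 cut_pm_102 Ext.none :=
  certF1 (fam := true) (s1 := true) (s2 := false) (a := 1) (b := 0) (c := 2) (cn := .npp) (n1 := ndF0q1) (n2 := ndF1q0) (pc := pcF2) (cut := cut_pm_102) (xt := Ext.none) (P1 := 536870912) (W1 := 536870912) (P2 := 0) (W2 := 536870912) (P3 := 402653184) (W3 := 67108864)
    rfl (fun _ => rfl) s2_pm_102

noncomputable def f_pm_112 : ℕ → ℕ → ℕ → ℕ → Bool := onCell 536870912 536870912 1073741824 536870912 402653184 67108864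
    (rowF 1 true true false .dn 1 1 2 (qsf 536870912 536870912 536870912 536870912 2) ndF0q1 ndF1q1 pcF2 Cut.none Ext.none)

def k0_pm_112 : ∃ t, chk3 f_pm_112 t 1 1 1 = true :=
  ⟨(a (b (b (b (l 3) (a (b (l 3) (a (b (l 3) (l 16871120)) (b (a (l 16861104) (l 140157029399)) (a (l 16849024) (l 16840648))))) (a (b (l 1) (b (l 1) (l 337725479687))) (l 1)))) (b (b (b (a (a (l 16849928) (l 16834088)) (a (l 160558374583) (l 1))) (a (b (a (l 16834648) (l 16827096)) (b (a (l 16827376) (l 16823312)) (b (a (l 16823496) (l 16820376)) (a (l 16820608) (l 16817808))))) (a (b (l 130493477991) (l 16826520)) (l 1)))) (a (a (l 16801264) (l 16809536)) (a (l 16823288) (l 354368660503)))) (a (a (l 16759144) (l 16796960)) (a (l 16827984) (l 16873288))))) (b (a (a (b (l 16735968) (a (l 16720128) (l 16772824))) (b (l 16802960) (l 16831064))) (b (a (l 16851336) (l 16907736)) (a (l 16888704) (l 16949232)))) (a (b (a (a (l 16758456) (l 16812640)) (l 16873888)) (a (l 16843768) (a (l 16905968) (l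 16938576)))) (b (a (l 16934480) (l 16993840)) (a (l 16977992) (l 17025424)))))) (b (b (l 1) (a (b (l 1) (l 337188899015)) (l 1))) (b (a (b (l 133715429127) (l 17085688)) (b (l 1) (a (l 17188440) (l 1)))) (a (b (l 17139072) (l 17141312)) (b (a (l 17210312) (l 17386064)) (a (l 17180384) (l 17268960))))))), by decide +kernel⟩

theorem c_pm_112 : CertF 536870912 536870912 536870912 536870912 402653184 67108864 true true false .dn 1 1 2
    ndF0q1 ndF1q1 pcF2 Cut.none Ext.none :=
  certF1 (fam := true) (s1 := true) (s2 := false) (a := 1) (b := 1) (c := 2) (cn := .dn) (n1 := ndF0q1) (n2 := ndF1q1) (pc := pcF2) (cut := Cut.none) (xt := Ext.none) (P1 := 536870912) (W1 := 536870912) (P2 := 536870912) (W2 := 536870912) (P3 := 402653184) (W3 := 67108864)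
    rfl (fun _ => rfl) k0_pm_112

noncomputable def f_pm_113 : ℕ → ℕ → ℕ → ℕ → Bool := onCell 536870912 536870912 536870912 536870912 402653184 67108864
    (rowF 0 true true false .nn 1 1 3 (qsf 536870912 536870912 536870912 536870912 3) ndF0q1 ndF1q1 pcF3 Cut.none Ext.none)

def k0_pm_113 : ∃ t, chk3 f_pm_113 t 1 1 1 = true :=
  ⟨(a (b (a (l 1) (b (l 1) (l 294239627463))) (a (a (b (l 1) (b (l 16767024) (l 16817632))) (b (b (l 1) (l 16865152)) (b (l 156800412391) (l 16947576)))) (b (a (l 266859145463) (l 17027080)) (a (b (l 17004232) (l 17036816)) (l 17075744))))) (b (a (a (l 268470079975) (b (l 17188208) (l 17129632))) (b (a (l 17204944) (l 17234296)) (a (l 17132504) (b (l 17132712) (l 17080720))))) (a (b (a (l 17073352) (l 17079824)) (a (l 17081232) (l 17042864))) (b (a (b (l 17064576) (l 17029464)) (b (l 17029520) (a (l 16990056) (l 16958176)))) (a (b (a (l 17012416) (l 16979408)) (a (l 16983296) (l 16982808))) (b (a (l 16937200) (l 16895840)) (b (a (l 16903712)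 (l 16863008)) (a (l 16887496) (l 4))))))))), by decide +kernel⟩

theorem c_pm_113 : CertF 536870912 536870912 536870912 536870912 402653184 67108864 true true false .nn 1 1 3
    ndF0q1 ndF1q1 pcF3 Cut.none Ext.none :=
  certF0 (fam := true) (s1 := true) (s2 := false) (a := 1) (b := 1) (c := 3) (cn := .nn) (n1 := ndF0q1) (n2 := ndF1q1) (pc := pcF3) (cut := Cut.none) (xt := Ext.none) (P1 := 536870912) (W1 := 536870912) (P2 := 536870912) (W2 := 536870912) (P3 := 402653184) (W3 := 67108864)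
    rfl k0_pm_113

noncomputable def cut_pm_123_a : Cut := Cut.of [[⟨0, 1, 0, 67108864⟩, ⟨1, 1, 0, 67108864⟩, ⟨2, 2, 0, 16777216⟩]]

noncomputable def f_pm_123_a : ℕ → ℕ → ℕ → ℕ → Bool := onCell 1610612736 536870912 0 536870912 402653184 67108864
    (rowF 2 true true false .npn 1 2 3 (qsf 536870912 536870912 0 536870912 3) ndF0q1 ndF1q2a pcF3 cut_pm_123_a Ext.none)

def k0_pm_123_a : ∃ t, chk3 f_pm_123_a t 2 1 1 = true :=
  ⟨(b (a (a (l 1) (b (l 1) (a (l 1) (l 16926752)))) (a (b (l 16980000) (a (l 16946656) (l 16955664))) (b (a (l 16950088) (l 16930728)) (a (l 16954496) (l 16945280))))) (a (b (a (l 1) (b (a (l 1) (l 16928432)) (a (l 16904576) (l 16936384)))) (a (b (a (l 1) (b (l 16894504) (l 16934808))) (b (a (b (l 16918440) (l 16945472)) (b (l 16968432) (l 16991952))) (a (b (a (l 16959496) (l 16986440)) (c (a (l 17020152) (l 17042136)) (a (b (l 16951848) (a (l 16960720) (l 16975592))) (b (l 16979752) (a (l 16989056) (l 17000952)))))) (b (a (l 17008288) (l 17024888))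 (c (a (l 17059256) (l 17071680)) (a (b (l 17002280) (a (l 17011408) (l 17020520))) (a (l 17022040) (l 17029208)))))))) (b (a (b (l 16934512) (l 16971352)) (b (l 16960160) (l 16992576))) (b (a (l 17011096) (l 17027200)) (a (b (l 17042200) (c (l 17083648) (a (l 17038320) (l 17047520)))) (a (l 17062032) (l 17064736))))))) (b (a (b (a (l 16949528) (l 16958848)) (a (l 16956800) (l 16965752))) (a (b (l 16958792) (l 16967176)) (b (l 16952216) (l 16960488)))) (a (b (b (a (l 16973744) (l 16979048)) (a (l 17002160) (l 17004040))) (b (a (l 17032944) (l 17031176)) (a (a (l 17065400) (l 17064328)) (a (l 17061376) (l 17056544))))) (b (a (b (l 16978064) (l 16998280)) (b (l 16971032) (l 16987272))) (a (b (l 17022472) (l 17046336)) (l 17081568))))))), by decide +kernel⟩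

def k1_pm_123_a : ∃ t, chk3 f_pm_123_a t 3 1 1 = true :=
  ⟨(a (b (a (b (a (l 16905560) (l 16878192)) (a (l 16992904) (l 17055160))) (b (a (l 16851632) (l 16827216)) (a (l 17009104) (l 16961336)))) (b (a (a (a (l 16947400) (l 16939928)) (l 17115688)) (a (l 17010688) (l 16881824))) (a (a (b (l 17028296) (l 17040328)) (b (l 16989192) (b (l 16967200) (l 16981592)))) (b (a (l 17009568) (l 17006128)) (a (l 16948584) (l 16920704)))))) (a (b (a (b (l 16911008) (l 16913816)) (b (a (b (l 16795960) (l 16799056)) (l 94724166167)) (l 16806592))) (b (a (l 16876672) (a (l 16835832) (l 16822560))) (a (b (l 16874904) (a (l 16962136) (l 16968504))) (b (l 16847384) (b (l 16963656) (a (l 16872800) (l 16857184))))))) (b (a (a (b (l 147337631975) (l 16794480)) (b (l 4) (b (l 80228712199) (l 16795232)))) (a (b (l 4) (b (l 4) (l 111904325991))) (l 4))) (a (b (a (l 16893640) (b (l 16794304) (l 16801952))) (b (b (l 16816136) (l 16864104)) (a (b (l 16836248) (l 16841104)) (b (l 16862352) (a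 (l 16828672) (l 16830624)))))) (a (b (b (b (l 103851229687) (l 98482557511)) (a (l 16792640) (l 16848280))) (b (a (l 16801112) (l 16877440)) (b (l 16803936) (b (a (l 16811176) (l 16802128)) (a (l 16811296) (l 16802088)))))) (b (a (b (l 4) (c (l 16881064) (l 16881752))) (l 4)) (b (b (a (a (l 16786088) (l 16783224)) (a (l 16841576) (l 4))) (b (a (l 16786984) (a (l 16821088) (l 4))) (a (l 16788680) (l 6)))) (a (a (b (l 16793176) (b (l 16795136) (l 16795016))) (l 6)) (l 6))))))))), by decide +kernel⟩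

theorem s2_pm_123_a : ∃ t, chk3 f_pm_123_a t 1 1 1 = true := ex3_a k0_pm_123_a k1_pm_123_a

theorem c_pm_123_a : CertF 536870912 536870912 0 536870912 402653184 67108864 true true false .npn 1 2 3
    ndF0q1 ndF1q2a pcF3 cut_pm_123_a Ext.none :=
  certF2 (fam := true) (s1 := true) (s2 := false) (a := 1) (b := 2) (c := 3) (cn := .npn) (n1 := ndF0q1) (n2 := ndF1q2a) (pc := pcF3) (cut := cut_pm_123_a) (xt := Ext.none) (P1 := 536870912) (W1 := 536870912) (P2 := 0) (W2 := 536870912) (P3 := 402653184) (W3 := 67108864)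
    rfl (fun _ => rfl) s2_pm_123_a

noncomputable def cut_pm_123_b : Cut := Cut.of [[⟨0, 1, 0, 67108864⟩, ⟨1, 1, 0, 67108864⟩, ⟨2, 2, 0, 16777216⟩]]

noncomputable def f_pm_123_b : ℕ → ℕ → ℕ → ℕ → Bool := onCell 1610612736 536870912 1239849684 370763052 402653184 67108864
    (rowF 2 true true false .npn 1 2 3 (qsf 536870912 536870912 1239849684 370763052 3) ndF0q1 ndF1q2b pcF3 cut_pm_123_b Ext.none)

def k0_pm_123_b : ∃ t, chk3 f_pm_123_b t 1 1 1 = true :=
  ⟨(a (b (a (l 1) (b (a (b (a (l 16940040) (l 16913416)) (l 1)) (b (a (l 16918312) (l 16898504)) (a (l 16892688) (l 16879720)))) (a (l 1) (b (l 16901576) (l 1))))) (l 1)) (a (b (a (b (b (a (l 16875672) (b (l 16856640) (l 16850400))) (a (l 16864464) (l 16849264))) (b (l 16864080) (l 16882808))) (b (b (a (b (l 16833520) (l 16831328)) (b (l 16813288) (l 16816568))) (a (l 16836960) (l 16830064))) (a (l 16973232) (l 16869624)))) (a (l 1) (b (a (l 16923776) (l 16921216)) (l 1)))) (a (b (b (b (a (a (l 16805912) (l 16807432))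 (a (l 16811448) (l 4))) (a (l 16834552) (l 4))) (a (b (l 16861528) (l 4)) (l 4))) (l 4)) (l 4)))), by decide +kernel⟩

theorem c_pm_123_b : CertF 536870912 536870912 1239849684 370763052 402653184 67108864 true true false .npn 1 2 3
    ndF0q1 ndF1q2b pcF3 cut_pm_123_b Ext.none :=
  certF2 (fam := true) (s1 := true) (s2 := false) (a := 1) (b := 2) (c := 3) (cn := .npn) (n1 := ndF0q1) (n2 := ndF1q2b) (pc := pcF3) (cut := cut_pm_123_b) (xt := Ext.none) (P1 := 536870912) (W1 := 536870912) (P2 := 1239849684) (W2 := 370763052) (P3 := 402653184) (W3 := 67108864)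
    rfl (fun _ => rfl) k0_pm_123_b

noncomputable def f_pm_133 : ℕ → ℕ → ℕ → ℕ → Bool := onCell 536870912 536870912 1610612736 536870912 402653184 67108864
    (rowF 0 true true false .dn 1 3 3 (qsf 536870912 536870912 1610612736 536870912 3) ndF0q1 ndF1q3 pcF3 Cut.none Ext.none)

def k0_pm_133 : ∃ t, chk3 f_pm_133 t 1 1 1 = true :=
  ⟨(l 4), by decide +kernel⟩

theorem c_pm_133 : CertF 536870912 536870912 1610612736 536870912 402653184 67108864 true true false .dn 1 3 3
    ndF0q1 ndF1q3 pcF3 Cut.none Ext.none :=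
  certF0 (fam := true) (s1 := true) (s2 := false) (a := 1) (b := 3) (c := 3) (cn := .dn) (n1 := ndF0q1) (n2 := ndF1q3) (pc := pcF3) (cut := Cut.none) (xt := Ext.none) (P1 := 536870912) (W1 := 536870912) (P2 := 1610612736) (W2 := 536870912) (P3 := 402653184) (W3 := 67108864)
    rfl k0_pm_133

noncomputable def cut_pm_202 : Cut := Cut.of [[⟨0, 1, 0, 67108864⟩, ⟨1, 0, 0, 67108864⟩, ⟨2, 1, 0, 67108864⟩]]

noncomputable def f_pm_202 : ℕ → ℕ → ℕ → ℕ → Bool := onCell 0 536870912 0 536870912 402653184 67108864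
    (rowF 0 true true false .pp 2 0 2 (qsf 0 536870912 0 536870912 2) ndF0q2 ndF1q0 pcF2 cut_pm_202 Ext.none)

def k0_pm_202 : ∃ t, chk3 f_pm_202 t 2 1 1 = true :=
  ⟨(b (b (a (b (b (a (l 16540424) (b (l 16519000) (l 16477048))) (a (l 16505440) (l 16536216))) (a (l 16574008) (l 16757512))) (b (b (a (b (l 16574848) (l 16486352)) (b (a (l 16540264) (l 16560920)) (l 16529296))) (a (l 16505432) (l 16499880))) (a (b (l 16566512) (l 16626336)) (l 16736080)))) (a (b (l 16796600) (l 16738768)) (b (a (l 16703704) (l 16824360)) (a (l 16794400) (l 16818688))))) (b (a (b (l 16774904) (a (l 16766880) (l 16815200))) (b (l 16887176) (l 16927816))) (b (a (l 2) (a (l 2) (l 16957832))) (l 2)))), by decide +kernel⟩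

def k1_pm_202 : ∃ t, chk3 f_pm_202 t 3 1 1 = true :=
  ⟨(b (a (b (b (b (a (b (a (l 16582776) (l 16626504)) (l 16618736)) (b (b (a (a (l 16626256) (l 16637600)) (a (b (l 16650384) (l 16647320)) (b (b (l 16661488) (l 16660112)) (l 16657976)))) (a (l 16624984) (l 16647776))) (a (l 16613424) (l 16637320)))) (a (l 16555624) (b (l 16630600) (l 16590872)))) (a (l 16592144) (l 16677440))) (b (a (l 16647048) (l 16607968)) (b (l 16714640) (a (l 16831640) (l 16745888))))) (b (b (a (b (b (a (b (b (a (c (l 16674096) (l 16667296)) (a (l 16678968) (l 16684688))) (l 16673120)) (l 16668392)) (b (b (l 6) (a (l 16690160) (l 6))) (l 16711856))) (a (l 16659056) (l 16700632))) (b (a (l 16645312) (l 16664624)) (l 16681680))) (b (a (b (l 6) (b (l 6) (l 16699944))) (l 6)) (a (l 16730064) (a (l 16724160) (b (l 6) (l 16721536)))))) (a (b (b (l 16717104) (a (l 16592232) (l 16617040))) (a (l 16572344) (a (l 16585248) (l 16799384)))) (b (a (l 16647496) (l 16757416)) (a (b (l 16632560) (a (l 16634160)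 (l 16634224))) (l 16674064))))) (a (b (l 16595032) (l 16653504)) (b (b (b (a (l 16616968) (a (l 16649208) (l 16670888))) (a (l 16611128) (l 16694112))) (l 16625968)) (l 16758952))))) (b (a (b (a (l 16932768) (l 16859416)) (a (l 17041984) (l 17125568))) (b (a (b (l 16730200) (l 16793168)) (a (l 16700824) (l 16670208))) (a (l 16907640) (b (l 16754696) (l 16808392))))) (a (b (a (l 17066384) (l 17165824)) (l 2)) (b (a (b (l 17055512) (l 17146320)) (a (l 16966368) (l 16875832))) (a (l 17194128) (b (l 17061280) (l 17147976))))))), by decide +kernel⟩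

theorem s2_pm_202 : ∃ t, chk3 f_pm_202 t 1 1 1 = true := ex3_a k0_pm_202 k1_pm_202

theorem c_pm_202 : CertF 0 536870912 0 536870912 402653184 67108864 true true false .pp 2 0 2
    ndF0q2 ndF1q0 pcF2 cut_pm_202 Ext.none :=
  certF0 (fam := true) (s1 := true) (s2 := false) (a := 2) (b := 0) (c := 2) (cn := .pp) (n1 := ndF0q2) (n2 := ndF1q0) (pc := pcF2) (cut := cut_pm_202) (xt := Ext.none) (P1 := 0) (W1 := 536870912) (P2 := 0) (W2 := 536870912) (P3 := 402653184) (W3 := 67108864)
    rfl s2_pm_202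

noncomputable def f_pm_203 : ℕ → ℕ → ℕ → ℕ → Bool := onCell 0 536870912 1610612736 536870912 402653184 67108864
    (rowF 1 true true false .up 2 0 3 (qsf 0 536870912 0 536870912 3) ndF0q2 ndF1q0 pcF3 Cut.none Ext.none)

def k0_pm_203 : ∃ t, chk3 f_pm_203 t 1 1 1 = true :=
  ⟨(b (a (b (b (a (l 16779464) (l 16838528)) (a (l 16795144) (l 16845984))) (a (l 4) (b (l 16840360) (l 2)))) (b (a (b (l 16930688) (l 16928384)) (b (l 16997224) (l 17049760))) (a (l 2) (l 2)))) (l 2)), by decide +kernel⟩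

theorem c_pm_203 : CertF 0 536870912 0 536870912 402653184 67108864 true true false .up 2 0 3
    ndF0q2 ndF1q0 pcF3 Cut.none Ext.none :=
  certF1 (fam := true) (s1 := true) (s2 := false) (a := 2) (b := 0) (c := 3) (cn := .up) (n1 := ndF0q2) (n2 := ndF1q0) (pc := pcF3) (cut := Cut.none) (xt := Ext.none) (P1 := 0) (W1 := 536870912) (P2 := 0) (W2 := 536870912) (P3 := 402653184) (W3 := 67108864)
    rfl (fun _ => rfl) k0_pm_203

noncomputable def f_pm_213 : ℕ → ℕ → ℕ → ℕ → Bool := onCell 0 536870912 1610612736 536870912 402653184 67108864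
    (rowF 1 true true false .pnn 2 1 3 (qsf 0 536870912 536870912 536870912 3) ndF0q2 ndF1q1 pcF3 Cut.none Ext.none)

def k0_pm_213 : ∃ t, chk3 f_pm_213 t 1 1 1 = true :=
  ⟨(a (b (b (b (l 1) (l 468185813527)) (b (a (l 4) (l 16954360)) (l 52848905207))) (l 4)) (b (b (a (l 172907146999) (b (l 17185112) (l 17139432))) (b (a (l 17044944) (l 17094400)) (l 17194872))) (b (b (l 17152488) (a (l 4) (l 16912712))) (b (a (l 4) (l 16855416)) (l 4))))), by decide +kernel⟩

theorem c_pm_213 : CertF 0 536870912 536870912 536870912 402653184 67108864 true true false .pnn 2 1 3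
    ndF0q2 ndF1q1 pcF3 Cut.none Ext.none :=
  certF1 (fam := true) (s1 := true) (s2 := false) (a := 2) (b := 1) (c := 3) (cn := .pnn) (n1 := ndF0q2) (n2 := ndF1q1) (pc := pcF3) (cut := Cut.none) (xt := Ext.none) (P1 := 0) (W1 := 536870912) (P2 := 536870912) (W2 := 536870912) (P3 := 402653184) (W3 := 67108864)
    rfl (fun _ => rfl) k0_pm_213

noncomputable def f_mm_001 : ℕ → ℕ → ℕ → ℕ → Bool := onCell 0 536870912 0 536870912 402653184 67108864
    (rowF 0 true false false .up 0 0 1 (qsf 0 536870912 0 536870912 1) ndF0q0 ndF1q0 pcF1 Cut.none Ext.none)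

def k0_mm_001 : ∃ t, chk3 f_mm_001 t 1 1 1 = true :=
  ⟨(l 4), by decide +kernel⟩

theorem c_mm_001 : CertF 0 536870912 0 536870912 402653184 67108864 true false false .up 0 0 1
    ndF0q0 ndF1q0 pcF1 Cut.none Ext.none :=
  certF0 (fam := true) (s1 := false) (s2 := false) (a := 0) (b := 0) (c := 1) (cn := .up) (n1 := ndF0q0) (n2 := ndF1q0) (pc := pcF1) (cut := Cut.none) (xt := Ext.none) (P1 := 0) (W1 := 536870912) (P2 := 0) (W2 := 536870912) (P3 := 402653184) (W3 := 67108864)
    rfl k0_mm_001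

noncomputable def f_mm_011 : ℕ → ℕ → ℕ → ℕ → Bool := onCell 0 536870912 536870912 536870912 402653184 67108864
    (rowF 0 true false false .pnn 0 1 1 (qsf 0 536870912 536870912 536870912 1) ndF0q0 ndF1q1 pcF1 Cut.none Ext.none)

def k0_mm_011 : ∃ t, chk3 f_mm_011 t 1 1 1 = true :=
  ⟨(l 4), by decide +kernel⟩

theorem c_mm_011 : CertF 0 536870912 536870912 536870912 402653184 67108864 true false false .pnn 0 1 1
    ndF0q0 ndF1q1 pcF1 Cut.none Ext.none :=
  certF0 (fam := true) (s1 := false) (s2 := false) (a := 0) (b := 1) (c := 1) (cn := .pnn) (n1 := ndF0q0) (n2 := ndF1q1) (pc := pcF1) (cut := Cut.none) (xt := Ext.none) (P1 := 0) (W1 := 536870912) (P2 := 536870912) (W2 := 536870912) (P3 := 402653184) (W3 := 67108864)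
    rfl k0_mm_011

noncomputable def f_mm_012 : ℕ → ℕ → ℕ → ℕ → Bool := onCell 0 536870912 536870912 536870912 402653184 67108864
    (rowF 0 true false false .pnp 0 1 2 (qsf 0 536870912 536870912 536870912 2) ndF0q0 ndF1q1 pcF2 Cut.none Ext.none)

def k0_mm_012 : ∃ t, chk3 f_mm_012 t 1 1 1 = true :=
  ⟨(l 4), by decide +kernel⟩

theorem c_mm_012 : CertF 0 536870912 536870912 536870912 402653184 67108864 true false false .pnp 0 1 2
    ndF0q0 ndF1q1 pcF2 Cut.none Ext.none :=
  certF0 (fam := true) (s1 := false) (s2 := false) (a := 0) (b := 1) (c := 2) (cn := .pnp) (n1 := ndF0q0) (n2 := ndF1q1) (pc := pcF2) (cut := Cut.none) (xt := Ext.none) (P1 := 0) (W1 := 536870912) (P2 := 536870912) (W2 := 536870912) (P3 := 402653184) (W3 := 67108864)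
    rfl k0_mm_012

noncomputable def f_mm_022_a : ℕ → ℕ → ℕ → ℕ → Bool := onCell 0 536870912 0 536870912 402653184 67108864
    (rowF 0 true false false .pp 0 2 2 (qsf 0 536870912 0 536870912 2) ndF0q0 ndF1q2a pcF2 Cut.none Ext.none)

def k0_mm_022_a : ∃ t, chk3 f_mm_022_a t 1 1 1 = true :=
  ⟨(l 5), by decide +kernel⟩

theorem c_mm_022_a : CertF 0 536870912 0 536870912 402653184 67108864 true false false .pp 0 2 2
    ndF0q0 ndF1q2a pcF2 Cut.none Ext.none :=
  certF0 (fam := true) (s1 := false) (s2 := false) (a := 0) (b := 2) (c := 2) (cn := .pp) (n1 := ndF0q0) (n2 := ndF1q2a) (pc := pcF2) (cut := Cut.none) (xt := Ext.none) (P1 := 0) (W1 := 536870912) (P2 := 0) (W2 := 536870912) (P3 := 402653184) (W3 := 67108864)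
    rfl k0_mm_022_a

noncomputable def f_mm_022_b : ℕ → ℕ → ℕ → ℕ → Bool := onCell 0 536870912 1239849684 370763052 402653184 67108864
    (rowF 0 true false false .pp 0 2 2 (qsf 0 536870912 1239849684 370763052 2) ndF0q0 ndF1q2b pcF2 Cut.none Ext.none)

def k0_mm_022_b : ∃ t, chk3 f_mm_022_b t 1 1 1 = true :=
  ⟨(l 5), by decide +kernel⟩

theorem c_mm_022_b : CertF 0 536870912 1239849684 370763052 402653184 67108864 true false false .pp 0 2 2
    ndF0q0 ndF1q2b pcF2 Cut.none Ext.none :=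
  certF0 (fam := true) (s1 := false) (s2 := false) (a := 0) (b := 2) (c := 2) (cn := .pp) (n1 := ndF0q0) (n2 := ndF1q2b) (pc := pcF2) (cut := Cut.none) (xt := Ext.none) (P1 := 0) (W1 := 536870912) (P2 := 1239849684) (W2 := 370763052) (P3 := 402653184) (W3 := 67108864)
    rfl k0_mm_022_b

noncomputable def f_mm_023_a : ℕ → ℕ → ℕ → ℕ → Bool := onCell 0 536870912 0 536870912 402653184 67108864
    (rowF 0 true false false .up 0 2 3 (qsf 0 536870912 0 536870912 3) ndF0q0 ndF1q2a pcF3 Cut.none Ext.none)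

def k0_mm_023_a : ∃ t, chk3 f_mm_023_a t 1 1 1 = true :=
  ⟨(l 5), by decide +kernel⟩

theorem c_mm_023_a : CertF 0 536870912 0 536870912 402653184 67108864 true false false .up 0 2 3
    ndF0q0 ndF1q2a pcF3 Cut.none Ext.none :=
  certF0 (fam := true) (s1 := false) (s2 := false) (a := 0) (b := 2) (c := 3) (cn := .up) (n1 := ndF0q0) (n2 := ndF1q2a) (pc := pcF3) (cut := Cut.none) (xt := Ext.none) (P1 := 0) (W1 := 536870912) (P2 := 0) (W2 := 536870912) (P3 := 402653184) (W3 := 67108864)
    rfl k0_mm_023_a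

noncomputable def f_mm_023_b : ℕ → ℕ → ℕ → ℕ → Bool := onCell 0 536870912 1239849684 370763052 402653184 67108864
    (rowF 0 true false false .up 0 2 3 (qsf 0 536870912 1239849684 370763052 3) ndF0q0 ndF1q2b pcF3 Cut.none Ext.none)

def k0_mm_023_b : ∃ t, chk3 f_mm_023_b t 1 1 1 = true :=
  ⟨(l 5), by decide +kernel⟩

theorem c_mm_023_b : CertF 0 536870912 1239849684 370763052 402653184 67108864 true false false .up 0 2 3
    ndF0q0 ndF1q2b pcF3 Cut.none Ext.none :=
  certF0 (fam := true) (s1 := false) (s2 := false) (a := 0) (b := 2) (c := 3) (cn := .up) (n1 := ndF0q0) (n2 := ndF1q2b) (pc := pcF3) (cut := Cut.none) (xt := Ext.none) (P1 := 0) (W1 := 536870912) (P2 := 1239849684) (W2 := 370763052) (P3 := 402653184) (W3 := 67108864)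
    rfl k0_mm_023_b

noncomputable def f_mm_033 : ℕ → ℕ → ℕ → ℕ → Bool := onCell 0 536870912 1610612736 536870912 402653184 67108864
    (rowF 0 true false false .pnn 0 3 3 (qsf 0 536870912 1610612736 536870912 3) ndF0q0 ndF1q3 pcF3 Cut.none Ext.none)

def k0_mm_033 : ∃ t, chk3 f_mm_033 t 1 1 1 = true :=
  ⟨(l 5), by decide +kernel⟩

theorem c_mm_033 : CertF 0 536870912 1610612736 536870912 402653184 67108864 true false false .pnn 0 3 3
    ndF0q0 ndF1q3 pcF3 Cut.none Ext.none :=
  certF0 (fam := true) (s1 := false) (s2 := false) (a := 0) (b := 3) (c := 3) (cn := .pnn) (n1 := ndF0q0) (n2 := ndF1q3) (pc := pcF3) (cut := Cut.none) (xt := Ext.none) (P1 := 0) (W1 := 536870912) (P2 := 1610612736) (W2 := 536870912) (P3 := 402653184) (W3 := 67108864)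
    rfl k0_mm_033

noncomputable def cut_mm_101 : Cut := Cut.of [[⟨0, 1, 0, 67108864⟩, ⟨1, 0, 0, 67108864⟩, ⟨2, 1, 0, 67108864⟩]]

noncomputable def f_mm_101 : ℕ → ℕ → ℕ → ℕ → Bool := onCell 536870912 536870912 0 536870912 402653184 67108864
    (rowF 0 true false false .npn 1 0 1 (qsf 536870912 536870912 0 536870912 1) ndF0q1 ndF1q0 pcF1 cut_mm_101 Ext.none)

def k0_mm_101 : ∃ t, chk3 f_mm_101 t 1 1 1 = true :=
  ⟨(a (l 4) (b (a (l 4) (b (a (l 4) (b (a (l 4) (b (l 6) (l 4))) (l 4))) (l 4))) (l 4))), by decide +kernel⟩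

theorem c_mm_101 : CertF 536870912 536870912 0 536870912 402653184 67108864 true false false .npn 1 0 1
    ndF0q1 ndF1q0 pcF1 cut_mm_101 Ext.none :=
  certF0 (fam := true) (s1 := false) (s2 := false) (a := 1) (b := 0) (c := 1) (cn := .npn) (n1 := ndF0q1) (n2 := ndF1q0) (pc := pcF1) (cut := cut_mm_101) (xt := Ext.none) (P1 := 536870912) (W1 := 536870912) (P2 := 0) (W2 := 536870912) (P3 := 402653184) (W3 := 67108864)
    rfl k0_mm_101

noncomputable def cut_mm_102 : Cut := Cut.of [[⟨0, 1, 0, 67108864⟩, ⟨1, 0, 0, 67108864⟩, ⟨2, 1, 0, 67108864⟩]]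

noncomputable def f_mm_102 : ℕ → ℕ → ℕ → ℕ → Bool := onCell 536870912 536870912 0 536870912 402653184 67108864
    (rowF 0 true false false .npp 1 0 2 (qsf 536870912 536870912 0 536870912 2) ndF0q1 ndF1q0 pcF2 cut_mm_102 Ext.none)

def k0_mm_102 : ∃ t, chk3 f_mm_102 t 1 1 1 = true :=
  ⟨(a (l 4) (b (a (l 4) (b (a (l 4) (a (l 4) (b (b (l 6) (l 4)) (l 4)))) (l 4))) (l 4))), by decide +kernel⟩

theorem c_mm_102 : CertF 536870912 536870912 0 536870912 402653184 67108864 true false false .npp 1 0 2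
    ndF0q1 ndF1q0 pcF2 cut_mm_102 Ext.none :=
  certF0 (fam := true) (s1 := false) (s2 := false) (a := 1) (b := 0) (c := 2) (cn := .npp) (n1 := ndF0q1) (n2 := ndF1q0) (pc := pcF2) (cut := cut_mm_102) (xt := Ext.none) (P1 := 536870912) (W1 := 536870912) (P2 := 0) (W2 := 536870912) (P3 := 402653184) (W3 := 67108864)
    rfl k0_mm_102

noncomputable def f_mm_112 : ℕ → ℕ → ℕ → ℕ → Bool := onCell 536870912 536870912 536870912 536870912 402653184 67108864
    (rowF 0 true false false .dn 1 1 2 (qsf 536870912 536870912 536870912 536870912 2) ndF0q1 ndF1q1 pcF2 Cut.none Ext.none)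

def k0_mm_112 : ∃ t, chk3 f_mm_112 t 1 1 1 = true :=
  ⟨(l 4), by decide +kernel⟩

theorem c_mm_112 : CertF 536870912 536870912 536870912 536870912 402653184 67108864 true false false .dn 1 1 2
    ndF0q1 ndF1q1 pcF2 Cut.none Ext.none :=
  certF0 (fam := true) (s1 := false) (s2 := false) (a := 1) (b := 1) (c := 2) (cn := .dn) (n1 := ndF0q1) (n2 := ndF1q1) (pc := pcF2) (cut := Cut.none) (xt := Ext.none) (P1 := 536870912) (W1 := 536870912) (P2 := 536870912) (W2 := 536870912) (P3 := 402653184) (W3 := 67108864)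
    rfl k0_mm_112

noncomputable def f_mm_113 : ℕ → ℕ → ℕ → ℕ → Bool := onCell 536870912 536870912 536870912 536870912 402653184 67108864
    (rowF 0 true false false .nn 1 1 3 (qsf 536870912 536870912 536870912 536870912 3) ndF0q1 ndF1q1 pcF3 Cut.none Ext.none)

def k0_mm_113 : ∃ t, chk3 f_mm_113 t 1 1 1 = true :=
  ⟨(l 4), by decide +kernel⟩

theorem c_mm_113 : CertF 536870912 536870912 536870912 536870912 402653184 67108864 true false false .nn 1 1 3
    ndF0q1 ndF1q1 pcF3 Cut.none Ext.none :=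
  certF0 (fam := true) (s1 := false) (s2 := false) (a := 1) (b := 1) (c := 3) (cn := .nn) (n1 := ndF0q1) (n2 := ndF1q1) (pc := pcF3) (cut := Cut.none) (xt := Ext.none) (P1 := 536870912) (W1 := 536870912) (P2 := 536870912) (W2 := 536870912) (P3 := 402653184) (W3 := 67108864)
    rfl k0_mm_113

noncomputable def f_mm_123_a : ℕ → ℕ → ℕ → ℕ → Bool := onCell 536870912 536870912 0 536870912 402653184 67108864
    (rowF 0 true false false .npn 1 2 3 (qsf 536870912 536870912 0 536870912 3) ndF0q1 ndF1q2a pcF3 Cut.none Ext.none)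

def k0_mm_123_a : ∃ t, chk3 f_mm_123_a t 1 1 1 = true :=
  ⟨(l 4), by decide +kernel⟩

theorem c_mm_123_a : CertF 536870912 536870912 0 536870912 402653184 67108864 true false false .npn 1 2 3
    ndF0q1 ndF1q2a pcF3 Cut.none Ext.none :=
  certF0 (fam := true) (s1 := false) (s2 := false) (a := 1) (b := 2) (c := 3) (cn := .npn) (n1 := ndF0q1) (n2 := ndF1q2a) (pc := pcF3) (cut := Cut.none) (xt := Ext.none) (P1 := 536870912) (W1 := 536870912) (P2 := 0) (W2 := 536870912) (P3 := 402653184) (W3 := 67108864)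
    rfl k0_mm_123_a

noncomputable def f_mm_123_b : ℕ → ℕ → ℕ → ℕ → Bool := onCell 536870912 536870912 1239849684 370763052 402653184 67108864
    (rowF 0 true false false .npn 1 2 3 (qsf 536870912 536870912 1239849684 370763052 3) ndF0q1 ndF1q2b pcF3 Cut.none Ext.none)

def k0_mm_123_b : ∃ t, chk3 f_mm_123_b t 1 1 1 = true :=
  ⟨(l 4), by decide +kernel⟩

theorem c_mm_123_b : CertF 536870912 536870912 1239849684 370763052 402653184 67108864 true false false .npn 1 2 3
    ndF0q1 ndF1q2b pcF3 Cut.none Ext.none :=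
  certF0 (fam := true) (s1 := false) (s2 := false) (a := 1) (b := 2) (c := 3) (cn := .npn) (n1 := ndF0q1) (n2 := ndF1q2b) (pc := pcF3) (cut := Cut.none) (xt := Ext.none) (P1 := 536870912) (W1 := 536870912) (P2 := 1239849684) (W2 := 370763052) (P3 := 402653184) (W3 := 67108864)
    rfl k0_mm_123_b

noncomputable def f_mm_133 : ℕ → ℕ → ℕ → ℕ → Bool := onCell 536870912 536870912 1610612736 536870912 402653184 67108864
    (rowF 0 true false false .dn 1 3 3 (qsf 536870912 536870912 1610612736 536870912 3) ndF0q1 ndF1q3 pcF3 Cut.none Ext.none)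

def k0_mm_133 : ∃ t, chk3 f_mm_133 t 1 1 1 = true :=
  ⟨(l 4), by decide +kernel⟩

theorem c_mm_133 : CertF 536870912 536870912 1610612736 536870912 402653184 67108864 true false false .dn 1 3 3
    ndF0q1 ndF1q3 pcF3 Cut.none Ext.none :=
  certF0 (fam := true) (s1 := false) (s2 := false) (a := 1) (b := 3) (c := 3) (cn := .dn) (n1 := ndF0q1) (n2 := ndF1q3) (pc := pcF3) (cut := Cut.none) (xt := Ext.none) (P1 := 536870912) (W1 := 536870912) (P2 := 1610612736) (W2 := 536870912) (P3 := 402653184) (W3 := 67108864)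
    rfl k0_mm_133

noncomputable def cut_mm_202 : Cut := Cut.of [[⟨0, 1, 0, 67108864⟩, ⟨1, 0, 0, 67108864⟩, ⟨2, 1, 0, 67108864⟩]]

noncomputable def f_mm_202 : ℕ → ℕ → ℕ → ℕ → Bool := onCell 0 536870912 0 536870912 402653184 67108864
    (rowF 0 true false false .pp 2 0 2 (qsf 0 536870912 0 536870912 2) ndF0q2 ndF1q0 pcF2 cut_mm_202 Ext.none)

def k0_mm_202 : ∃ t, chk3 f_mm_202 t 1 1 1 = true :=
  ⟨(b (a (b (a (b (a (b (l 16486312) (l 16494360)) (b (l 16595904) (l 16489800))) (a (l 16559968) (l 16552656))) (b (b (a (b (l 16527392) (l 16522160)) (b (a (l 16554544) (l 16573888)) (l 16563912))) (a (l 16514936) (l 16563648))) (b (l 16671624) (l 16625072)))) (a (b (l 16777224) (l 16679440)) (a (b (l 16623544) (l 16660968)) (b (l 16678800) (l 16688784))))) (b (a (b (b (a (b (a (l 16614336) (b (l 16612112) (l 16613920))) (l 16648464)) (b (b (a (b (l 16652352) (l 16632624)) (b (a (l 16646816) (l 16657664)) (l 16653856))) (a (l 16634520) (l 16656224))) (a (l 16638464) (l 16661104))))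 (a (b (l 16610016) (l 16593104)) (a (l 16647104) (l 16671536)))) (a (b (l 16621200) (l 16634688)) (b (a (l 16660888) (l 16690784)) (l 16767296)))) (b (a (b (b (a (b (b (a (l 16689968) (b (l 16701424) (l 16681416))) (l 16697816)) (l 16700616)) (b (a (b (l 6) (l 16695640)) (l 6)) (a (l 16698744) (l 16712496)))) (a (b (l 16683448) (l 16687328)) (b (l 16751880) (l 16714312)))) (b (a (l 16693304) (l 16752808)) (a (l 16702696) (l 16738520)))) (b (a (b (l 6) (a (b (l 6) (l 16737160)) (l 6))) (l 6)) (a (b (a (l 16729328) (l 4)) (l 4)) (l 4)))) (a (b (a (l 16747560) (l 4)) (l 4)) (l 4)))) (a (b (a (l 16862944) (l 4)) (l 4)) (l 4)))) (a (b (a (b (a (l 16700096) (l 16670352)) (l 16842832)) (b (l 46942966551) (l 4))) (l 4)) (l 4))), by decide +kernel⟩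

theorem c_mm_202 : CertF 0 536870912 0 536870912 402653184 67108864 true false false .pp 2 0 2
    ndF0q2 ndF1q0 pcF2 cut_mm_202 Ext.none :=
  certF0 (fam := true) (s1 := false) (s2 := false) (a := 2) (b := 0) (c := 2) (cn := .pp) (n1 := ndF0q2) (n2 := ndF1q0) (pc := pcF2) (cut := cut_mm_202) (xt := Ext.none) (P1 := 0) (W1 := 536870912) (P2 := 0) (W2 := 536870912) (P3 := 402653184) (W3 := 67108864)
    rfl k0_mm_202

noncomputable def f_mm_203 : ℕ → ℕ → ℕ → ℕ → Bool := onCell 0 536870912 0 536870912 402653184 67108864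
    (rowF 0 true false false .up 2 0 3 (qsf 0 536870912 0 536870912 3) ndF0q2 ndF1q0 pcF3 Cut.none Ext.none)

def k0_mm_203 : ∃ t, chk3 f_mm_203 t 1 1 1 = true :=
  ⟨(b (l 1) (a (b (b (l 1) (a (l 16819936) (l 4))) (l 4)) (l 4))), by decide +kernel⟩

theorem c_mm_203 : CertF 0 536870912 0 536870912 402653184 67108864 true false false .up 2 0 3
    ndF0q2 ndF1q0 pcF3 Cut.none Ext.none :=
  certF0 (fam := true) (s1 := false) (s2 := false) (a := 2) (b := 0) (c := 3) (cn := .up) (n1 := ndF0q2) (n2 := ndF1q0) (pc := pcF3) (cut := Cut.none) (xt := Ext.none) (P1 := 0) (W1 := 536870912) (P2 := 0) (W2 := 536870912) (P3 := 402653184) (W3 := 67108864)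
    rfl k0_mm_203

noncomputable def f_mm_213 : ℕ → ℕ → ℕ → ℕ → Bool := onCell 0 536870912 536870912 536870912 402653184 67108864
    (rowF 0 true false false .pnn 2 1 3 (qsf 0 536870912 536870912 536870912 3) ndF0q2 ndF1q1 pcF3 Cut.none Ext.none)

def k0_mm_213 : ∃ t, chk3 f_mm_213 t 1 1 1 = true :=
  ⟨(l 4), by decide +kernel⟩

theorem c_mm_213 : CertF 0 536870912 536870912 536870912 402653184 67108864 true false false .pnn 2 1 3
    ndF0q2 ndF1q1 pcF3 Cut.none Ext.none :=
  certF0 (fam := true) (s1 := false) (s2 := false) (a := 2) (b := 1) (c := 3) (cn := .pnn) (n1 := ndF0q2) (n2 := ndF1q1) (pc := pcF3) (cut := Cut.none) (xt := Ext.none) (P1 := 0) (W1 := 536870912) (P2 := 536870912) (W2 := 536870912) (P3 := 402653184) (W3 := 67108864)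
    rfl k0_mm_213

end Pool.Agent.Strip051.G.I3_8_7_16.Tab.C.FA01

namespace Pool.Agent.Strip051.G.I3_8_7_16.Tab.C.FA02

open Pool.Agent.Strip051.PB Pool.Agent.Strip051.PB.T
open Pool.Agent.Strip051.G.I3_8_7_16.Tab

noncomputable def f_pp_001 : ℕ → ℕ → ℕ → ℕ → Bool := onCell 0 536870912 0 536870912 402653184 67108864
    (rowF 0 true true true .up 0 0 1 (qsf 0 536870912 0 536870912 1) ndF0q0 ndF2q0 pcF1 Cut.none Ext.none)

def k0_pp_001 : ∃ t, chk3 f_pp_001 t 1 1 1 = true :=
  ⟨(l 4), by decide +kernel⟩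

theorem c_pp_001 : CertF 0 536870912 0 536870912 402653184 67108864 true true true .up 0 0 1
    ndF0q0 ndF2q0 pcF1 Cut.none Ext.none :=
  certF0 (fam := true) (s1 := true) (s2 := true) (a := 0) (b := 0) (c := 1) (cn := .up) (n1 := ndF0q0) (n2 := ndF2q0) (pc := pcF1) (cut := Cut.none) (xt := Ext.none) (P1 := 0) (W1 := 536870912) (P2 := 0) (W2 := 536870912) (P3 := 402653184) (W3 := 67108864)
    rfl k0_pp_001

noncomputable def f_pp_011 : ℕ → ℕ → ℕ → ℕ → Bool := onCell 0 536870912 536870912 536870912 402653184 67108864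
    (rowF 0 true true true .pnn 0 1 1 (qsf 0 536870912 536870912 536870912 1) ndF0q0 ndF2q1 pcF1 Cut.none Ext.none)

def k0_pp_011 : ∃ t, chk3 f_pp_011 t 1 1 1 = true :=
  ⟨(l 4), by decide +kernel⟩

theorem c_pp_011 : CertF 0 536870912 536870912 536870912 402653184 67108864 true true true .pnn 0 1 1
    ndF0q0 ndF2q1 pcF1 Cut.none Ext.none :=
  certF0 (fam := true) (s1 := true) (s2 := true) (a := 0) (b := 1) (c := 1) (cn := .pnn) (n1 := ndF0q0) (n2 := ndF2q1) (pc := pcF1) (cut := Cut.none) (xt := Ext.none) (P1 := 0) (W1 := 536870912) (P2 := 536870912) (W2 := 536870912) (P3 := 402653184) (W3 := 67108864)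
    rfl k0_pp_011

noncomputable def f_pp_012 : ℕ → ℕ → ℕ → ℕ → Bool := onCell 0 536870912 536870912 536870912 402653184 67108864
    (rowF 0 true true true .pnp 0 1 2 (qsf 0 536870912 536870912 536870912 2) ndF0q0 ndF2q1 pcF2 Cut.none Ext.none)

def k0_pp_012 : ∃ t, chk3 f_pp_012 t 1 1 1 = true :=
  ⟨(l 4), by decide +kernel⟩

theorem c_pp_012 : CertF 0 536870912 536870912 536870912 402653184 67108864 true true true .pnp 0 1 2
    ndF0q0 ndF2q1 pcF2 Cut.none Ext.none :=
  certF0 (fam := true) (s1 := true) (s2 := true) (a := 0) (b := 1) (c := 2) (cn := .pnp) (n1 := ndF0q0) (n2 := ndF2q1) (pc := pcF2) (cut := Cut.none) (xt := Ext.none) (P1 := 0) (W1 := 536870912) (P2 := 536870912) (W2 := 536870912) (P3 := 402653184) (W3 := 67108864)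
    rfl k0_pp_012

noncomputable def f_pp_022 : ℕ → ℕ → ℕ → ℕ → Bool := onCell 0 536870912 1073741824 536870912 402653184 67108864
    (rowF 0 true true true .pp 0 2 2 (qsf 0 536870912 1073741824 536870912 2) ndF0q0 ndF2q2 pcF2 Cut.none Ext.none)

def k0_pp_022 : ∃ t, chk3 f_pp_022 t 1 1 1 = true :=
  ⟨(l 4), by decide +kernel⟩

theorem c_pp_022 : CertF 0 536870912 1073741824 536870912 402653184 67108864 true true true .pp 0 2 2
    ndF0q0 ndF2q2 pcF2 Cut.none Ext.none :=
  certF0 (fam := true) (s1 := true) (s2 := true) (a := 0) (b := 2) (c := 2) (cn := .pp) (n1 := ndF0q0) (n2 := ndF2q2) (pc := pcF2) (cut := Cut.none) (xt := Ext.none) (P1 := 0) (W1 := 536870912) (P2 := 1073741824) (W2 := 536870912) (P3 := 402653184) (W3 := 67108864)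
    rfl k0_pp_022

noncomputable def f_pp_023 : ℕ → ℕ → ℕ → ℕ → Bool := onCell 0 536870912 1073741824 536870912 402653184 67108864
    (rowF 0 true true true .up 0 2 3 (qsf 0 536870912 1073741824 536870912 3) ndF0q0 ndF2q2 pcF3 Cut.none Ext.none)

def k0_pp_023 : ∃ t, chk3 f_pp_023 t 1 1 1 = true :=
  ⟨(l 4), by decide +kernel⟩

theorem c_pp_023 : CertF 0 536870912 1073741824 536870912 402653184 67108864 true true true .up 0 2 3
    ndF0q0 ndF2q2 pcF3 Cut.none Ext.none :=
  certF0 (fam := true) (s1 := true) (s2 := true) (a := 0) (b := 2) (c := 3) (cn := .up) (n1 := ndF0q0) (n2 := ndF2q2) (pc := pcF3) (cut := Cut.none) (xt := Ext.none) (P1 := 0) (W1 := 536870912) (P2 := 1073741824) (W2 := 536870912) (P3 := 402653184) (W3 := 67108864)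
    rfl k0_pp_023

noncomputable def f_pp_033 : ℕ → ℕ → ℕ → ℕ → Bool := onCell 0 536870912 0 1230186008 402653184 67108864
    (rowF 0 true true true .pnn 0 3 3 (qsf 0 536870912 0 1230186008 3) ndF0q0 ndF2q3 pcF3 Cut.none Ext.none)

def k0_pp_033 : ∃ t, chk3 f_pp_033 t 1 1 1 = true :=
  ⟨(b (l 4) (l 4)), by decide +kernel⟩

theorem c_pp_033 : CertF 0 536870912 0 1230186008 402653184 67108864 true true true .pnn 0 3 3
    ndF0q0 ndF2q3 pcF3 Cut.none Ext.none :=
  certF0 (fam := true) (s1 := true) (s2 := true) (a := 0) (b := 3) (c := 3) (cn := .pnn) (n1 := ndF0q0) (n2 := ndF2q3) (pc := pcF3) (cut := Cut.none) (xt := Ext.none) (P1 := 0) (W1 := 536870912) (P2 := 0) (W2 := 1230186008) (P3 := 402653184) (W3 := 67108864)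
    rfl k0_pp_033

noncomputable def f_pp_101 : ℕ → ℕ → ℕ → ℕ → Bool := onCell 536870912 536870912 0 536870912 402653184 67108864
    (rowF 0 true true true .npn 1 0 1 (qsf 536870912 536870912 0 536870912 1) ndF0q1 ndF2q0 pcF1 Cut.none Ext.none)

def k0_pp_101 : ∃ t, chk3 f_pp_101 t 1 1 1 = true :=
  ⟨(l 5), by decide +kernel⟩

theorem c_pp_101 : CertF 536870912 536870912 0 536870912 402653184 67108864 true true true .npn 1 0 1
    ndF0q1 ndF2q0 pcF1 Cut.none Ext.none :=
  certF0 (fam := true) (s1 := true) (s2 := true) (a := 1) (b := 0) (c := 1) (cn := .npn) (n1 := ndF0q1) (n2 := ndF2q0) (pc := pcF1) (cut := Cut.none) (xt := Ext.none) (P1 := 536870912) (W1 := 536870912) (P2 := 0) (W2 := 536870912) (P3 := 402653184) (W3 := 67108864)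
    rfl k0_pp_101

noncomputable def f_pp_102 : ℕ → ℕ → ℕ → ℕ → Bool := onCell 536870912 536870912 0 536870912 402653184 67108864
    (rowF 0 true true true .npp 1 0 2 (qsf 536870912 536870912 0 536870912 2) ndF0q1 ndF2q0 pcF2 Cut.none Ext.none)

def k0_pp_102 : ∃ t, chk3 f_pp_102 t 1 1 1 = true :=
  ⟨(l 5), by decide +kernel⟩

theorem c_pp_102 : CertF 536870912 536870912 0 536870912 402653184 67108864 true true true .npp 1 0 2
    ndF0q1 ndF2q0 pcF2 Cut.none Ext.none :=
  certF0 (fam := true) (s1 := true) (s2 := true) (a := 1) (b := 0) (c := 2) (cn := .npp) (n1 := ndF0q1) (n2 := ndF2q0) (pc := pcF2) (cut := Cut.none) (xt := Ext.none) (P1 := 536870912) (W1 := 536870912) (P2 := 0) (W2 := 536870912) (P3 := 402653184) (W3 := 67108864)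
    rfl k0_pp_102

noncomputable def f_pp_112 : ℕ → ℕ → ℕ → ℕ → Bool := onCell 536870912 536870912 536870912 536870912 402653184 67108864
    (rowF 0 true true true .dn 1 1 2 (qsf 536870912 536870912 536870912 536870912 2) ndF0q1 ndF2q1 pcF2 Cut.none Ext.none)

def k0_pp_112 : ∃ t, chk3 f_pp_112 t 1 1 1 = true :=
  ⟨(l 4), by decide +kernel⟩

theorem c_pp_112 : CertF 536870912 536870912 536870912 536870912 402653184 67108864 true true true .dn 1 1 2
    ndF0q1 ndF2q1 pcF2 Cut.none Ext.none :=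
  certF0 (fam := true) (s1 := true) (s2 := true) (a := 1) (b := 1) (c := 2) (cn := .dn) (n1 := ndF0q1) (n2 := ndF2q1) (pc := pcF2) (cut := Cut.none) (xt := Ext.none) (P1 := 536870912) (W1 := 536870912) (P2 := 536870912) (W2 := 536870912) (P3 := 402653184) (W3 := 67108864)
    rfl k0_pp_112

noncomputable def f_pp_113 : ℕ → ℕ → ℕ → ℕ → Bool := onCell 536870912 536870912 536870912 536870912 402653184 67108864
    (rowF 0 true true true .nn 1 1 3 (qsf 536870912 536870912 536870912 536870912 3) ndF0q1 ndF2q1 pcF3 Cut.none Ext.none)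

def k0_pp_113 : ∃ t, chk3 f_pp_113 t 1 1 1 = true :=
  ⟨(l 4), by decide +kernel⟩

theorem c_pp_113 : CertF 536870912 536870912 536870912 536870912 402653184 67108864 true true true .nn 1 1 3
    ndF0q1 ndF2q1 pcF3 Cut.none Ext.none :=
  certF0 (fam := true) (s1 := true) (s2 := true) (a := 1) (b := 1) (c := 3) (cn := .nn) (n1 := ndF0q1) (n2 := ndF2q1) (pc := pcF3) (cut := Cut.none) (xt := Ext.none) (P1 := 536870912) (W1 := 536870912) (P2 := 536870912) (W2 := 536870912) (P3 := 402653184) (W3 := 67108864)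
    rfl k0_pp_113

noncomputable def f_pp_123 : ℕ → ℕ → ℕ → ℕ → Bool := onCell 536870912 536870912 1073741824 536870912 402653184 67108864
    (rowF 0 true true true .npn 1 2 3 (qsf 536870912 536870912 1073741824 536870912 3) ndF0q1 ndF2q2 pcF3 Cut.none Ext.none)

def k0_pp_123 : ∃ t, chk3 f_pp_123 t 1 1 1 = true :=
  ⟨(l 4), by decide +kernel⟩

theorem c_pp_123 : CertF 536870912 536870912 1073741824 536870912 402653184 67108864 true true true .npn 1 2 3
    ndF0q1 ndF2q2 pcF3 Cut.none Ext.none :=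
  certF0 (fam := true) (s1 := true) (s2 := true) (a := 1) (b := 2) (c := 3) (cn := .npn) (n1 := ndF0q1) (n2 := ndF2q2) (pc := pcF3) (cut := Cut.none) (xt := Ext.none) (P1 := 536870912) (W1 := 536870912) (P2 := 1073741824) (W2 := 536870912) (P3 := 402653184) (W3 := 67108864)
    rfl k0_pp_123

noncomputable def f_pp_133 : ℕ → ℕ → ℕ → ℕ → Bool := onCell 536870912 536870912 0 1230186008 402653184 67108864
    (rowF 0 true true true .dn 1 3 3 (qsf 536870912 536870912 0 1230186008 3) ndF0q1 ndF2q3 pcF3 Cut.none Ext.none)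

def k0_pp_133 : ∃ t, chk3 f_pp_133 t 1 1 1 = true :=
  ⟨(b (l 2) (l 4)), by decide +kernel⟩

theorem c_pp_133 : CertF 536870912 536870912 0 1230186008 402653184 67108864 true true true .dn 1 3 3
    ndF0q1 ndF2q3 pcF3 Cut.none Ext.none :=
  certF0 (fam := true) (s1 := true) (s2 := true) (a := 1) (b := 3) (c := 3) (cn := .dn) (n1 := ndF0q1) (n2 := ndF2q3) (pc := pcF3) (cut := Cut.none) (xt := Ext.none) (P1 := 536870912) (W1 := 536870912) (P2 := 0) (W2 := 1230186008) (P3 := 402653184) (W3 := 67108864)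
    rfl k0_pp_133

noncomputable def f_pp_202 : ℕ → ℕ → ℕ → ℕ → Bool := onCell 0 536870912 0 536870912 402653184 67108864
    (rowF 0 true true true .pp 2 0 2 (qsf 0 536870912 0 536870912 2) ndF0q2 ndF2q0 pcF2 Cut.none Ext.none)

def k0_pp_202 : ∃ t, chk3 f_pp_202 t 1 1 1 = true :=
  ⟨(l 5), by decide +kernel⟩

theorem c_pp_202 : CertF 0 536870912 0 536870912 402653184 67108864 true true true .pp 2 0 2
    ndF0q2 ndF2q0 pcF2 Cut.none Ext.none :=
  certF0 (fam := true) (s1 := true) (s2 := true) (a := 2) (b := 0) (c := 2) (cn := .pp) (n1 := ndF0q2) (n2 := ndF2q0) (pc := pcF2) (cut := Cut.none) (xt := Ext.none) (P1 := 0) (W1 := 536870912) (P2 := 0) (W2 := 536870912) (P3 := 402653184) (W3 := 67108864)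
    rfl k0_pp_202

noncomputable def f_pp_203 : ℕ → ℕ → ℕ → ℕ → Bool := onCell 0 536870912 0 536870912 402653184 67108864
    (rowF 0 true true true .up 2 0 3 (qsf 0 536870912 0 536870912 3) ndF0q2 ndF2q0 pcF3 Cut.none Ext.none)

def k0_pp_203 : ∃ t, chk3 f_pp_203 t 1 1 1 = true :=
  ⟨(l 5), by decide +kernel⟩

theorem c_pp_203 : CertF 0 536870912 0 536870912 402653184 67108864 true true true .up 2 0 3
    ndF0q2 ndF2q0 pcF3 Cut.none Ext.none :=
  certF0 (fam := true) (s1 := true) (s2 := true) (a := 2) (b := 0) (c := 3) (cn := .up) (n1 := ndF0q2) (n2 := ndF2q0) (pc := pcF3) (cut := Cut.none) (xt := Ext.none) (P1 := 0) (W1 := 536870912) (P2 := 0) (W2 := 536870912) (P3 := 402653184) (W3 := 67108864)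
    rfl k0_pp_203

noncomputable def f_pp_213 : ℕ → ℕ → ℕ → ℕ → Bool := onCell 0 536870912 536870912 536870912 402653184 67108864
    (rowF 0 true true true .pnn 2 1 3 (qsf 0 536870912 536870912 536870912 3) ndF0q2 ndF2q1 pcF3 Cut.none Ext.none)

def k0_pp_213 : ∃ t, chk3 f_pp_213 t 1 1 1 = true :=
  ⟨(l 4), by decide +kernel⟩

theorem c_pp_213 : CertF 0 536870912 536870912 536870912 402653184 67108864 true true true .pnn 2 1 3
    ndF0q2 ndF2q1 pcF3 Cut.none Ext.none :=
  certF0 (fam := true) (s1 := true) (s2 := true) (a := 2) (b := 1) (c := 3) (cn := .pnn) (n1 := ndF0q2) (n2 := ndF2q1) (pc := pcF3) (cut := Cut.none) (xt := Ext.none) (P1 := 0) (W1 := 536870912) (P2 := 536870912) (W2 := 536870912) (P3 := 402653184) (W3 := 67108864)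
    rfl k0_pp_213

noncomputable def f_pm_001 : ℕ → ℕ → ℕ → ℕ → Bool := onCell 0 536870912 0 536870912 402653184 67108864
    (rowF 0 true true false .up 0 0 1 (qsf 0 536870912 0 536870912 1) ndF0q0 ndF2q0 pcF1 Cut.none Ext.none)

def k0_pm_001 : ∃ t, chk3 f_pm_001 t 1 1 1 = true :=
  ⟨(a (l 3) (b (l 3) (a (l 3) (b (l 3) (a (l 3) (b (l 3) (a (l 3) (b (l 3) (a (b (l 3) (a (l 3) (c (l 234244387031) (a (b (l 3) (c (l 225654430919) (a (l 219211953719) (l 92510430631)))) (l 97342274487))))) (b (l 210085161159) (a (l 100563537431) (l 17256464)))))))))))), by decide +kernel⟩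

theorem c_pm_001 : CertF 0 536870912 0 536870912 402653184 67108864 true true false .up 0 0 1
    ndF0q0 ndF2q0 pcF1 Cut.none Ext.none :=
  certF0 (fam := true) (s1 := true) (s2 := false) (a := 0) (b := 0) (c := 1) (cn := .up) (n1 := ndF0q0) (n2 := ndF2q0) (pc := pcF1) (cut := Cut.none) (xt := Ext.none) (P1 := 0) (W1 := 536870912) (P2 := 0) (W2 := 536870912) (P3 := 402653184) (W3 := 67108864)
    rfl k0_pm_001

noncomputable def cut_pm_011 : Cut := Cut.of [[⟨0, 0, 0, 67108864⟩, ⟨1, 1, 0, 67108864⟩, ⟨2, 1, 0, 67108864⟩]]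

noncomputable def f_pm_011 : ℕ → ℕ → ℕ → ℕ → Bool := onCell 536870912 536870912 536870912 536870912 402653184 67108864
    (rowF 2 true true false .pnn 0 1 1 (qsf 0 536870912 536870912 536870912 1) ndF0q0 ndF2q1 pcF1 cut_pm_011 Ext.none)

def k0_pm_011 : ∃ t, chk3 f_pm_011 t 2 1 1 = true :=
  ⟨(l 3), by decide +kernel⟩

def k1_pm_011 : ∃ t, chk3 f_pm_011 t 3 4 1 = true :=
  ⟨(a (l 3) (b (a (l 3) (b (a (l 3) (b (b (a (a (l 3) (a (l 107542655495) (l 17195776))) (l 17090216)) (a (c (l 61371800823) (a (l 3) (l 81235809047))) (c (l 17101864) (l 17055016)))) (a (a (l 3) (a (b (l 59223887111) (l 42043755111)) (b (l 16967560) (l 16807104)))) (b (c (l 17004944) (l 16917696)) (a (l 16775904) (l 16846384)))))) (a (l 3) (a (a (l 3) (c (b (b (l 16846800) (l 16830112)) (b (l 16812672) (l 27011281351))) (b (b (l 16757560) (l 16717816)) (l 34527320055)))) (b (a (b (l 16787296) (l 16768288)) (b (l 16772384) (l 16752048))) (a (c (l 16789048) (l 16645312)) (b (l 16730744) (l 16708352))))))))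 (a (l 3) (a (l 3) (b (a (a (l 3) (a (b (c (l 190756838583) (l 110762990407)) (l 3)) (b (b (l 16658392) (l 16657744)) (c (l 16654984) (l 16643608))))) (b (a (b (l 16663752) (l 16640840)) (c (l 16729984) (l 16615336))) (a (c (l 16639200) (l 16619456)) (c (l 16680888) (l 16586760))))) (a (a (l 3) (a (l 3) (b (c (l 16669912) (l 16634992)) (c (l 16653392) (l 16628824))))) (b (a (c (l 16651424) (l 16611480)) (c (l 16605408) (l 16579528))) (a (c (l 16650440) (l 16605880)) (c (l 16596880) (l 16574688)))))))))), by decide +kernel⟩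

def k2_pm_011 : ∃ t, chk3 f_pm_011 t 3 5 1 = true :=
  ⟨(a (l 3) (a (l 3) (b (a (l 3) (b (a (a (l 3) (a (l 3) (b (c (l 16668536) (l 16624920)) (c (l 16664688) (l 16622848))))) (b (a (c (l 16645224) (l 16602472)) (c (l 16592496) (l 16571984))) (a (c (b (l 16621720) (l 16620544)) (l 16622104)) (c (l 16590368) (l 16571368))))) (a (a (l 3) (b (c (b (l 32379823015) (l 3)) (l 38285376151)) (l 3))) (b (a (c (l 16662680) (l 16601800)) (c (l 16590768) (l 16572832))) (a (c (l 16621384) (l 16603400)) (l 16604936)))))) (a (l 3) (a (l 3) (b (a (b (c (l 16620520) (l 16603816)) (c (l 16619856) (l 16604584))) (b (l 16584536) (l 16585264))) (a (b (l 16633176) (l 16632952)) (b (l 16585872) (l 16586152))))))))), by decide +kernel⟩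

def k3_pm_011 : ∃ t, chk3 f_pm_011 t 3 3 1 = true :=
  ⟨(a (l 3) (b (a (l 3) (a (l 3) (a (l 3) (b (b (a (b (l 16611760) (l 16611784)) (b (l 16586360) (l 16586760))) (a (b (l 16633240) (l 16649160)) (b (l 16587576) (l 16614288)))) (b (a (b (l 16653120) (l 16667712)) (l 16657472)) (a (l 3) (b (l 16658680) (l 16673640)))))))) (a (l 3) (a (l 3) (a (l 3) (a (l 3) (a (b (b (b (l 16694960) (l 16710456)) (b (l 16720936) (l 3))) (l 3)) (b (b (l 16701072) (b (l 16703656) (b (l 16726128) (l 16724120)))) (b (b (b (l 16732544) (l 6)) (l 6)) (l 6)))))))))), by decide +kernel⟩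

theorem s4_pm_011 : ∃ t, chk3 f_pm_011 t 3 2 1 = true := ex3_b k1_pm_011 k2_pm_011

theorem s5_pm_011 : ∃ t, chk3 f_pm_011 t 3 1 1 = true := ex3_b s4_pm_011 k3_pm_011

theorem s6_pm_011 : ∃ t, chk3 f_pm_011 t 1 1 1 = true := ex3_a k0_pm_011 s5_pm_011

theorem c_pm_011 : CertF 0 536870912 536870912 536870912 402653184 67108864 true true false .pnn 0 1 1
    ndF0q0 ndF2q1 pcF1 cut_pm_011 Ext.none :=
  certF2 (fam := true) (s1 := true) (s2 := false) (a := 0) (b := 1) (c := 1) (cn := .pnn) (n1 := ndF0q0) (n2 := ndF2q1) (pc := pcF1) (cut := cut_pm_011) (xt := Ext.none) (P1 := 0) (W1 := 536870912) (P2 := 536870912) (W2 := 536870912) (P3 := 402653184) (W3 := 67108864)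
    rfl (fun _ => rfl) s6_pm_011

noncomputable def cut_pm_012 : Cut := Cut.of [[⟨0, 0, 0, 67108864⟩, ⟨1, 1, 0, 67108864⟩, ⟨2, 1, 0, 67108864⟩]]

noncomputable def f_pm_012 : ℕ → ℕ → ℕ → ℕ → Bool := onCell 1073741824 536870912 536870912 536870912 402653184 67108864
    (rowF 2 true true false .pnp 0 1 2 (qsf 0 536870912 536870912 536870912 2) ndF0q0 ndF2q1 pcF2 cut_pm_012 Ext.none)

def k0_pm_012 : ∃ t, chk3 f_pm_012 t 4 4 1 = true :=
  ⟨(b (a (b (b (a (a (b (l 17139768) (l 16985312)) (l 17051120)) (l 2)) (a (a (b (a (l 16934248) (l 16937016)) (a (c (l 16886568) (l 16748064)) (l 16825296))) (l 16798176)) (a (l 16838984) (l 2)))) (b (a (a (a (a (b (l 16725784) (l 16683624)) (l 16689296)) (l 16745112)) (l 16733784)) (l 16723472)) (a (a (a (c (b (l 16778816) (l 16756856)) (b (l 16664304) (l 16639456))) (l 16700208)) (l 16690048)) (l 16681832)))) (b (l 2) (a (l 16716192) (l 2)))) (a (a (a (b (b (a (c (b (l 16733712) (l 16709320)) (a (l 16582232) (l 16596632))) (l 16650624))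 (a (c (b (l 16641680) (a (l 16659280) (l 16654016))) (a (l 16587096) (l 16549472))) (l 16595608))) (a (a (b (c (b (l 16630848) (l 16600984)) (l 16580152)) (c (b (l 16578328) (l 16575800)) (l 16554832))) (b (l 16575160) (l 16570280))) (b (l 16534888) (l 16524016)))) (b (b (l 16640560) (l 16585608)) (a (l 16515728) (l 16490664)))) (b (a (l 16609936) (l 16614192)) (b (l 16525344) (l 16439952)))) (a (b (l 16631984) (l 16529576)) (b (l 16676680) (l 16587080))))), by decide +kernel⟩

def k1_pm_012 : ∃ t, chk3 f_pm_012 t 4 5 1 = true :=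
  ⟨(a (b (a (a (b (a (b (c (b (l 16586296) (l 16563952)) (l 16565688)) (c (b (l 16563048) (l 16562640)) (l 16565504))) (b (l 16521784) (l 16521552))) (a (b (c (a (l 16598440) (l 16556056)) (l 16567664)) (c (l 16566672) (l 16549880))) (b (l 16523928) (l 16527496)))) (b (b (l 16470976) (l 16471800)) (b (l 16475136) (l 16479944)))) (b (a (l 16422736) (l 16359768)) (a (l 16451944) (l 16359880)))) (a (a (a (b (b (c (l 16567304) (l 16551568)) (l 16602528)) (b (l 16582464) (l 16561928))) (b (l 16551552) (l 16533024))) (b (l 16526248) (l 16530512))) (b (l 16491944) (l 16498952)))) (b (a (b (l 16505240) (l 16345416)) (b (l 16477104) (l 16337904))) (a (b (l 16331432) (a (l 16365696) (l 16362688))) (b (l 16349776) (l 16366656))))), by decide +kernel⟩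

def k2_pm_012 : ∃ t, chk3 f_pm_012 t 5 2 1 = true :=
  ⟨(b (a (b (l 2) (a (a (l 16682016) (l 2)) (l 2))) (l 2)) (a (b (a (a (b (l 16543960) (l 16422272)) (b (l 16591480) (l 16480976))) (b (l 16663976) (l 16569120))) (a (a (l 16375896) (a (l 16388680) (l 16399648))) (l 16419760))) (b (b (l 2) (l 16736832)) (a (l 16528624) (l 16668496))))), by decide +kernel⟩

def k3_pm_012 : ∃ t, chk3 f_pm_012 t 8 3 1 = true :=
  ⟨(b (a (b (a (b (b (l 16610896) (l 16611224)) (b (l 16590840) (l 16606872))) (b (l 16552688) (l 16547008))) (a (b (b (l 16611144) (l 16625960)) (b (l 16640632) (l 16656616))) (b (l 16564432) (b (l 16569208) (l 16586328))))) (b (b (l 16487112) (a (b (l 16473208) (l 16496544)) (l 16507896))) (a (b (l 16561208) (l 16592296)) (b (l 16496328) (l 16524136))))) (a (b (a (b (a (c (l 16692832) (l 16681480)) (l 16675992)) (a (b (l 16697040) (c (l 16714264) (l 16714296))) (b (l 16659808) (l 16697448)))) (b (b (l 16624168) (l 16640752)) (b (l 16677912) (a (l 16659944) (l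 16643720))))) (a (b (a (b (b (l 16721800) (l 16730184)) (l 6)) (b (b (l 16688768) (l 16717816)) (b (l 16720568) (l 6)))) (l 6)) (b (b (a (l 16696648) (l 16658880)) (a (b (l 16687264) (l 16715856)) (b (l 16670032) (l 16677352)))) (b (a (l 6) (b (l 16684600) (l 6))) (l 6))))) (b (b (a (b (l 16573904) (l 16589304)) (l 16594624)) (b (a (l 16604440) (l 16573760)) (a (l 16619192) (l 16587504)))) (b (b (a (a (l 16641992) (l 16625256)) (l 16600848)) (a (a (l 16671992) (l 16639000)) (b (l 16610624) (l 16617008)))) (b (a (b (a (l 16666752) (l 16649088)) (a (l 16694600) (l 16655696))) (b (l 16644272) (a (l 16638152) (l 16620968)))) (a (b (a (l 6) (b (l 16660600) (l 6))) (l 6)) (b (a (l 16660128) (l 16626936)) (a (b (l 16649032) (l 6)) (b (l 16631360) (c (l 16638816) (l 16629544))))))))))), by decide +kernel⟩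

def k4_pm_012 : ∃ t, chk3 f_pm_012 t 9 3 1 = true :=
  ⟨(b (b (a (b (l 16463904) (a (l 16468944) (l 16431080))) (b (l 16388704) (a (l 16418368) (l 16410576)))) (a (b (a (l 16474064) (l 16452600)) (a (l 16498424) (l 16473280))) (b (l 16427616) (l 16483912)))) (b (a (b (a (l 16523992) (l 16495808)) (a (b (l 16543400) (l 16556056)) (l 16561024))) (b (a (l 16470520) (l 16448568)) (a (l 16490816) (l 16465632)))) (b (a (b (a (l 16568464) (l 16536224)) (a (l 16611912) (l 16547336))) (b (a (l 16506272) (l 16478952)) (a (l 16516288) (l 16487792)))) (a (b (a (b (l 16589216) (l 16615888)) (b (l 16555416) (l 16560656))) (a (b (a (l 16609400) (l 16591776)) (a (b (l 16613632) (l 16616424)) (c (l 16602616) (l 16591456)))) (b (l 16586776) (a (l 16600456) (l 16562328))))) (b (a (l 16547000) (l 16496376)) (a (b (l 16533080) (c (l 16544640) (l 16530256))) (b (l 16502656) (l 16527656)))))))), by decide +kernel⟩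

def k5_pm_012 : ∃ t, chk3 f_pm_012 t 5 3 1 = true :=
  ⟨(b (a (b (a (a (b (l 16392112) (l 16407152)) (b (l 16401952) (a (l 16408128) (l 16411880)))) (b (l 16416120) (l 16415920))) (a (a (b (l 16412224) (l 16419304)) (b (l 16473256) (l 16516656))) (b (l 16406704) (l 16400544)))) (b (b (l 16455080) (l 16503280)) (b (l 16478488) (a (l 16390912) (l 16396576))))) (a (b (a (a (b (l 16430360) (l 16443832)) (b (a (l 16419544) (l 16415344)) (a (l 16430088) (l 16423784)))) (b (l 16399008) (l 16402176))) (a (a (b (b (l 16454808) (l 16462168)) (b (l 16469504) (b (l 16474840) (l 16478312)))) (b (a (l 16442144) (a (l 16435304) (l 16431976))) (a (b (l 16451488) (l 16457576)) (b (a (l 16443728) (l 16439728)) (a (l 16449216) (a (l 16445888) (l 16443928))))))) (b (b (l 16406424) (l 16409664)) (b (a (l 16425336) (l 16401520)) (b (l 16436760) (a (l 16430576) (l 16405016))))))) (b (b (a (l 16379200) (l 16372536)) (a (l 16372032) (l 16354928))) (b (a (b (l 16370024) (l 16369528)) (b (l 16344648)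 (l 16339576))) (a (b (l 16411504) (a (l 16422880) (l 16380608))) (b (l 16335424) (a (l 16340616) (l 16324144)))))))), by decide +kernel⟩

def k6_pm_012 : ∃ t, chk3 f_pm_012 t 3 1 1 = true :=
  ⟨(b (a (b (l 2) (a (b (l 2) (a (l 16787744) (l 2))) (l 2))) (l 2)) (a (b (a (b (a (l 16576440) (a (l 16713976) (l 16777792))) (b (l 16557048) (l 16433392))) (b (a (b (l 2) (l 16825664)) (l 2)) (a (b (l 16735328) (l 16613224)) (b (l 16861264) (l 16771600))))) (a (b (b (a (l 16382080) (l 16407984)) (a (l 16351720) (l 16365696))) (b (a (b (l 16333208) (l 16322200)) (b (l 16337416) (l 16320368))) (a (b (l 16312888) (a (l 16310488) (l 16299952))) (b (l 16326040) (c (l 16332328) (l 16269176)))))) (b (a (b (l 16451248) (l 16396320)) (b (l 16652704) (l 16502016))) (b (a (a (l 16341264) (l 16354976)) (a (l 16380352) (l 16411336))) (a (b (a (l 16309960) (l 16319008)) (a (c (l 16314160) (l 16266912)) (c (l 16321512) (l 16270552)))) (b (a (l 16338888) (l 16371136)) (a (l 16312968) (l 16341296))))))))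 (b (a (b (l 2) (a (b (l 2) (l 16898104)) (l 2))) (l 2)) (a (b (a (b (l 16812608) (l 16699840)) (b (l 16933688) (l 16852656))) (a (b (b (l 16597288) (l 16472696)) (a (b (l 16403984) (l 16376392)) (b (l 16485232) (l 16403216)))) (b (a (l 16703520) (l 16784976)) (b (l 16416288) (a (l 16512896) (l 16622592)))))) (b (a (b (l 2) (l 16965816)) (l 2)) (a (b (a (l 16856912) (l 16917816)) (a (l 16684512) (l 16823392))) (b (l 16948512) (a (l 16855312) (l 16861080))))))))), by decide +kernel⟩

theorem s7_pm_012 : ∃ t, chk3 f_pm_012 t 4 3 1 = true := ex3_a k3_pm_012 k4_pm_012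

theorem s8_pm_012 : ∃ t, chk3 f_pm_012 t 2 3 1 = true := ex3_a s7_pm_012 k5_pm_012

theorem s9_pm_012 : ∃ t, chk3 f_pm_012 t 4 2 1 = true := ex3_b k0_pm_012 k1_pm_012

theorem s10_pm_012 : ∃ t, chk3 f_pm_012 t 2 2 1 = true := ex3_a s9_pm_012 k2_pm_012

theorem s11_pm_012 : ∃ t, chk3 f_pm_012 t 2 1 1 = true := ex3_b s10_pm_012 s8_pm_012

theorem s12_pm_012 : ∃ t, chk3 f_pm_012 t 1 1 1 = true := ex3_a s11_pm_012 k6_pm_012

theorem c_pm_012 : CertF 0 536870912 536870912 536870912 402653184 67108864 true true false .pnp 0 1 2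
    ndF0q0 ndF2q1 pcF2 cut_pm_012 Ext.none :=
  certF2 (fam := true) (s1 := true) (s2 := false) (a := 0) (b := 1) (c := 2) (cn := .pnp) (n1 := ndF0q0) (n2 := ndF2q1) (pc := pcF2) (cut := cut_pm_012) (xt := Ext.none) (P1 := 0) (W1 := 536870912) (P2 := 536870912) (W2 := 536870912) (P3 := 402653184) (W3 := 67108864)
    rfl (fun _ => rfl) s12_pm_012

noncomputable def f_pm_022 : ℕ → ℕ → ℕ → ℕ → Bool := onCell 0 536870912 1073741824 536870912 402653184 67108864
    (rowF 1 true true false .pp 0 2 2 (qsf 0 536870912 1073741824 536870912 2) ndF0q0 ndF2q2 pcF2 Cut.none Ext.none)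

def k0_pm_022 : ∃ t, chk3 f_pm_022 t 2 4 1 = true :=
  ⟨(b (l 3) (a (b (a (a (b (a (b (l 3) (a (l 41506595591) (l 3))) (l 3)) (a (b (a (c (l 16654992) (l 16647344)) (l 16652120)) (a (l 16639320) (l 16640168))) (b (l 16652720) (l 16640784)))) (b (l 3) (a (l 16709200) (l 16711728)))) (b (l 3) (a (a (b (a (l 16675704) (l 78013912471)) (a (l 16658520) (l 16670304))) (b (b (l 3) (a (a (l 16691376) (b (l 254510210039) (l 208339326951))) (l 293164927495))) (a (b (l 16706768) (l 16677512)) (b (a (b (l 278132524455) (l 209413063799)) (l 312492269399)) (a (l 16685816) (l 262026387527)))))) (a (b (l 1) (b (l 1) (l 316787246807))) (l 1))))) (a (a (b (a (a (b (l 16627272) (l 16615240)) (l 16622144)) (l 16622824)) (a (b (a (l 16603272) (l 16604200)) (a (l 16591584) (l 16592480))) (l 16620120))) (b (a (l 16664376) (l 16620456)) (b (l 16666896) (l 16655168)))) (a (b (a (l 16701744) (b (a (l 16665112) (b (l 16680440) (l 16672352))) (l 16654440))) (b (l 16688664) (l 16671792))) (b (a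 (b (a (b (a (l 264710736791) (l 316250354951)) (l 223908536951)) (l 317324104615)) (a (l 16671416) (b (l 285111826567) (l 143914797847)))) (b (l 1) (l 321619061511))) (a (b (a (l 16655504) (l 16666656)) (l 16645304)) (b (a (b (l 261489496679) (l 144451659895)) (l 295312377351)) (a (l 16662080) (b (l 262563229127) (l 149283475879))))))))) (a (b (l 1) (b (l 1) (a (a (b (l 1) (l 299070432599)) (l 1)) (l 1)))) (l 1)))), by decide +kernel⟩

def k1_pm_022 : ∃ t, chk3 f_pm_022 t 2 10 1 = true :=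
  ⟨(b (b (b (a (a (a (a (l 16582776) (l 16583464)) (l 16644832)) (a (l 16633256) (a (l 16629224) (l 16673136)))) (a (a (a (a (b (l 192233130775) (l 156262767399)) (l 297459842871)) (l 1)) (l 1)) (l 1))) (a (a (a (a (l 16575576) (l 16576240)) (l 16616624)) (a (l 16570528) (a (l 16610200) (l 16634312)))) (a (a (a (a (l 16651408) (b (l 237867148391) (l 16657512))) (l 302828529703)) (l 1)) (l 1)))) (b (a (a (a (a (l 16569992) (l 16570624)) (l 16569096)) (a (l 16561744) (l 16663944))) (a (a (a (l 16636448) (a (l 245920183495) (l 354368128935))) (l 1)) (l 1))) (a (a (a (a (b (l 16567408) (b (l 16567768) (a (l 16568192) (l 16568784)))) (b (l 16568008) (l 16568488))) (b (l 16566512) (l 16567016))) (a (l 16602360) (l 16659336))) (a (b (a (a (l 16619456) (l 220687280183)) (l 1)) (a (a (l 16605736) (a (l 16622656) (l 139619776263))) (a (l 302291622103) (l 1)))) (l 1))))) (a (a (a (a (a (b (l 16559616) (l 16543024)) (l 16551720)) (l 16551976)) (l 16550464)) (c (l 16639072) (l 16647064)))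 (a (a (b (l 16677176) (l 16622624)) (b (a (b (l 270616208519) (l 16639848)) (l 304975973271)) (a (l 16595224) (l 170221334903)))) (a (b (l 1) (a (l 308734051943) (l 1))) (l 1))))), by decide +kernel⟩

def k2_pm_022 : ∃ t, chk3 f_pm_022 t 2 11 1 = true :=
  ⟨(a (a (a (b (a (a (c (l 16550520) (l 16510264)) (l 16520560)) (l 16520640)) (a (c (a (l 16503888) (l 16503400)) (l 16483272)) (l 16493704))) (b (l 16518920) (l 16491640))) (a (b (l 16512160) (l 16484736)) (l 16527560))) (a (a (b (l 16570472) (l 16453552)) (b (a (l 16567568) (l 16633776)) (l 16555288))) (b (a (b (a (l 170758168311) (l 313029003831)) (a (l 16578888) (l 170758154055))) (b (l 1) (a (l 316787087415) (l 1)))) (a (a (l 16532136) (l 16620208)) (b (a (l 171831884279) (l 320545174039)) (a (l 16567184) (l 172905617559))))))), by decide +kernel⟩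

def k3_pm_022 : ∃ t, chk3 f_pm_022 t 2 3 1 = true :=
  ⟨(a (b (b (a (a (b (a (c (l 16482680) (l 16460496)) (l 16471440)) (a (c (l 16466776) (l 16442880)) (l 16454192))) (b (l 16468904) (l 16451016))) (a (l 16452008) (l 16439752))) (a (a (b (a (b (l 16446264) (a (l 16462936) (l 16441560))) (l 16441904)) (a (b (a (l 16468008) (l 16442976)) (a (l 16465792) (l 16458008))) (b (l 16439632) (l 16448896)))) (b (l 16437936) (a (l 16438144) (l 16435240)))) (b (l 16423888) (l 16421256)))) (b (a (a (b (a (b (l 16486968) (l 16519288)) (l 16503552)) (a (b (l 16586128) (l 16695320)) (l 16595120))) (b (a (l 16464760) (l 16452112)) (l 16594488))) (b (a (l 16438312) (l 16424640)) (a (l 16474816) (l 16447040)))) (a (b (a (b (a (l 16791976) (l 16747616)) (a (l 16876720) (l 16835112))) (b (l 16683176) (l 16772408))) (a (b (a (b (l 16900792) (l 16866000)) (l 16866656)) (a (l 16792544) (l 16852856))) (b (l 16810216) (l 16807368)))) (b (a (l 16653792) (l 16589232)) (a (l 16741968) (l 16686200))))))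 (b (b (a (c (l 16515080) (l 16515240)) (a (l 16573208) (b (a (l 16522336) (l 16549104)) (l 16474504)))) (a (b (l 16388048) (l 16384416)) (b (a (l 16340808) (l 16409480)) (l 16339296)))) (b (a (l 16444304) (l 16357880)) (a (b (a (l 16541736) (l 16507536)) (a (l 16641400) (l 16610744))) (l 16531088))))), by decide +kernel⟩

def k4_pm_022 : ∃ t, chk3 f_pm_022 t 3 1 1 = true :=
  ⟨(b (b (l 1) (b (l 1) (a (a (b (l 1) (a (b (l 1) (a (l 324840135063) (l 1))) (l 1))) (l 1)) (l 1)))) (b (a (b (a (b (a (a (b (l 173979354343) (l 16561672)) (b (l 328598229159) (l 178274320631))) (b (l 1) (a (l 332893198711) (l 1)))) (a (a (l 16518832) (l 16548064)) (b (a (l 182569291495) (l 334503818919)) (a (l 16564296) (l 187401138519))))) (a (a (b (l 1) (l 338798740055)) (l 1)) (l 1))) (a (b (a (l 16475240) (b (l 16553232) (l 16526376))) (l 16549704)) (b (a (b (a (l 192769862471) (l 336651336327)) (a (l 16577600) (l 198138593367))) (b (l 1) (l 342020091015))) (a (b (l 16569120) (l 16540536))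 (b (a (l 214244746871) (l 337725137607)) (a (l 16599968) (l 223371582503))))))) (b (l 1) (a (b (l 1) (a (l 344167589511) (l 1))) (l 1)))) (a (b (a (b (l 16434752) (l 16359344)) (b (a (l 16494672) (l 16579496)) (l 16506192))) (a (b (l 16472104) (l 16580376)) (b (l 16548728) (l 16633840)))) (b (a (b (a (b (l 239477792647) (l 152504725895)) (l 345778410151)) (a (l 16638336) (l 241088555511))) (a (l 344704912295) (l 1))) (a (b (a (l 16662216) (l 16758192)) (l 16754064)) (b (a (b (l 260416127351) (l 16859920)) (l 369938000551)) (a (l 16875568) (l 282428131607)))))))), by decide +kernel⟩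

theorem s5_pm_022 : ∃ t, chk3 f_pm_022 t 2 5 1 = true := ex3_b k1_pm_022 k2_pm_022

theorem s6_pm_022 : ∃ t, chk3 f_pm_022 t 2 2 1 = true := ex3_b k0_pm_022 s5_pm_022

theorem s7_pm_022 : ∃ t, chk3 f_pm_022 t 2 1 1 = true := ex3_b s6_pm_022 k3_pm_022

theorem s8_pm_022 : ∃ t, chk3 f_pm_022 t 1 1 1 = true := ex3_a s7_pm_022 k4_pm_022

theorem c_pm_022 : CertF 0 536870912 1073741824 536870912 402653184 67108864 true true false .pp 0 2 2
    ndF0q0 ndF2q2 pcF2 Cut.none Ext.none :=
  certF1 (fam := true) (s1 := true) (s2 := false) (a := 0) (b := 2) (c := 2) (cn := .pp) (n1 := ndF0q0) (n2 := ndF2q2) (pc := pcF2) (cut := Cut.none) (xt := Ext.none) (P1 := 0) (W1 := 536870912) (P2 := 1073741824) (W2 := 536870912) (P3 := 402653184) (W3 := 67108864)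
    rfl (fun _ => rfl) s8_pm_022

noncomputable def f_pm_023 : ℕ → ℕ → ℕ → ℕ → Bool := onCell 0 536870912 1073741824 536870912 402653184 67108864
    (rowF 0 true true false .up 0 2 3 (qsf 0 536870912 1073741824 536870912 3) ndF0q0 ndF2q2 pcF3 Cut.none Ext.none)

def k0_pm_023 : ∃ t, chk3 f_pm_023 t 1 1 1 = true :=
  ⟨(a (b (a (l 1) (b (l 1) (a (l 1) (l 193306115719)))) (b (a (b (l 1) (a (l 1) (l 231961174007))) (b (l 207265207335) (a (l 246457200935) (l 16793144)))) (a (b (a (l 280279834231) (l 275448147511)) (a (b (l 315713754567) (a (l 216929354775) (l 16881440))) (b (l 16909104) (l 16928656)))) (b (a (l 16854928) (l 16914504)) (b (l 16959512) (l 16975096)))))) (b (a (a (b (l 1) (l 202970315079)) (b (l 234645763383) (l 234646246071))) (b (a (l 270616579047) (b (l 268469533399) (l 16966480))) (a (l 16864680) (l 16926184)))) (b (a (b (l 16861224) (a (l 16873128) (l 16913240))) (b (l 17015424) (a (l 16923768) (l 16914248)))) (a (b (a (l 16940976) (l 16943920)) (a (l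 16973864) (l 16962152))) (b (a (b (l 16929528) (l 16929856)) (b (l 16910000) (l 16910096))) (a (b (l 16929928) (l 16947984)) (b (l 16899648) (a (l 16927560) (b (l 16897456) (l 4)))))))))), by decide +kernel⟩

theorem c_pm_023 : CertF 0 536870912 1073741824 536870912 402653184 67108864 true true false .up 0 2 3
    ndF0q0 ndF2q2 pcF3 Cut.none Ext.none :=
  certF0 (fam := true) (s1 := true) (s2 := false) (a := 0) (b := 2) (c := 3) (cn := .up) (n1 := ndF0q0) (n2 := ndF2q2) (pc := pcF3) (cut := Cut.none) (xt := Ext.none) (P1 := 0) (W1 := 536870912) (P2 := 1073741824) (W2 := 536870912) (P3 := 402653184) (W3 := 67108864)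
    rfl k0_pm_023

noncomputable def f_pm_033 : ℕ → ℕ → ℕ → ℕ → Bool := onCell 1610612736 536870912 0 1230186008 402653184 67108864
    (rowF 2 true true false .pnn 0 3 3 (qsf 0 536870912 0 1230186008 3) ndF0q0 ndF2q3 pcF3 Cut.none Ext.none)

def k0_pm_033 : ∃ t, chk3 f_pm_033 t 1 1 1 = true :=
  ⟨(a (b (l 1) (b (a (l 1) (a (l 1) (b (l 1) (l 17207192)))) (a (b (l 1) (a (b (l 1) (a (b (l 1) (l 16901568)) (l 16942368))) (b (l 17007904) (l 16969376)))) (b (a (l 353295753111) (l 17106208)) (a (b (l 17031296) (l 16995400)) (b (l 17044440) (l 17008720))))))) (a (b (l 1) (b (a (b (l 1) (l 17172816)) (b (l 17170168) (l 17120072))) (b (a (l 17098816) (l 17073376)) (a (l 17172456) (b (l 17030720) (l 16993488)))))) (b (l 4) (b (l 4) (a (b (l 17031048) (b (l 16999352) (l 16970384))) (a (b (l 4) (l 16951792)) (l 4))))))), by decide +kernel⟩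

theorem c_pm_033 : CertF 0 536870912 0 1230186008 402653184 67108864 true true false .pnn 0 3 3
    ndF0q0 ndF2q3 pcF3 Cut.none Ext.none :=
  certF2 (fam := true) (s1 := true) (s2 := false) (a := 0) (b := 3) (c := 3) (cn := .pnn) (n1 := ndF0q0) (n2 := ndF2q3) (pc := pcF3) (cut := Cut.none) (xt := Ext.none) (P1 := 0) (W1 := 536870912) (P2 := 0) (W2 := 1230186008) (P3 := 402653184) (W3 := 67108864)
    rfl (fun _ => rfl) k0_pm_033

noncomputable def f_pm_101 : ℕ → ℕ → ℕ → ℕ → Bool := onCell 536870912 536870912 0 536870912 402653184 67108864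
    (rowF 2 true true false .npn 1 0 1 (qsf 536870912 536870912 0 536870912 1) ndF0q1 ndF2q0 pcF1 Cut.none Ext.none)

def k0_pm_101 : ∃ t, chk3 f_pm_101 t 1 1 1 = true :=
  ⟨(a (l 3) (b (a (l 3) (a (l 3) (b (a (a (l 3) (b (b (l 125259005783) (l 16918168)) (b (l 16943576) (l 16967336)))) (b (b (l 16866960) (l 16893384)) (b (l 16919776) (l 16944768)))) (a (a (l 3) (a (l 3) (b (l 16996584) (l 17059624)))) (b (a (l 16985592) (l 16972160)) (a (l 17069144) (l 17013400))))))) (a (l 3) (b (a (l 3) (a (b (a (l 3) (b (l 150492301991) (l 85530935783))) (l 3)) (b (b (l 17052784) (a (l 17085576) (l 17068728))) (b (a (l 17114424) (l 17095312)) (a (l 17149008) (l 17126312)))))) (a (l 3) (a (l 3) (b (b (a (l 17189816) (l 17163848)) (a (l 174114704759) (l 17208608))) (b (a (a (l 275046571831) (l 17243632)) (l 17264552)) (a (b (l 206327106567) (l 427920568839)) (l 46742099751)))))))))), by decide +kernel⟩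

theorem c_pm_101 : CertF 536870912 536870912 0 536870912 402653184 67108864 true true false .npn 1 0 1
    ndF0q1 ndF2q0 pcF1 Cut.none Ext.none :=
  certF2 (fam := true) (s1 := true) (s2 := false) (a := 1) (b := 0) (c := 1) (cn := .npn) (n1 := ndF0q1) (n2 := ndF2q0) (pc := pcF1) (cut := Cut.none) (xt := Ext.none) (P1 := 536870912) (W1 := 536870912) (P2 := 0) (W2 := 536870912) (P3 := 402653184) (W3 := 67108864)
    rfl (fun _ => rfl) k0_pm_101

noncomputable def f_pm_102 : ℕ → ℕ → ℕ → ℕ → Bool := onCell 536870912 536870912 1073741824 536870912 402653184 67108864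
    (rowF 1 true true false .npp 1 0 2 (qsf 536870912 536870912 0 536870912 2) ndF0q1 ndF2q0 pcF2 Cut.none Ext.none)

def k0_pm_102 : ∃ t, chk3 f_pm_102 t 1 1 1 = true :=
  ⟨(a (b (b (a (b (a (b (l 17273616) (l 17243552)) (a (l 17167608) (l 17123096))) (a (l 17191592) (l 17066352))) (b (a (b (l 17111216) (l 17050472)) (l 17082080)) (a (l 16991296) (l 16943744)))) (a (b (l 108549724727) (l 2)) (b (a (b (l 16917304) (l 16905960)) (l 17080848)) (a (l 16875280) (l 16865064))))) (b (a (l 2) (l 17021968)) (l 2))) (b (a (a (b (b (l 16978912) (l 16910680)) (b (l 17069840) (l 16880192))) (b (b (l 16941520) (l 16886656)) (b (l 16881880) (l 16916048)))) (b (a (b (b (l 16915024) (l 16885424)) (l 16871792)) (b (b (a (b (l 16885272) (l 16871008)) (b (l 16862176) (l 16851320))) (a (l 16860712) (l 16837448))) (a (l 16895160) (l 16868104)))) (a (l 16964000) (b (l 16937560) (l 17048112))))) (b (a (b (l 16925256) (l 16948760)) (b (l 17093048) (l 17141824))) (a (b (l 16962208) (l 2)) (b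 (l 17105496) (l 17103920)))))), by decide +kernel⟩

theorem c_pm_102 : CertF 536870912 536870912 0 536870912 402653184 67108864 true true false .npp 1 0 2
    ndF0q1 ndF2q0 pcF2 Cut.none Ext.none :=
  certF1 (fam := true) (s1 := true) (s2 := false) (a := 1) (b := 0) (c := 2) (cn := .npp) (n1 := ndF0q1) (n2 := ndF2q0) (pc := pcF2) (cut := Cut.none) (xt := Ext.none) (P1 := 536870912) (W1 := 536870912) (P2 := 0) (W2 := 536870912) (P3 := 402653184) (W3 := 67108864)
    rfl (fun _ => rfl) k0_pm_102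

noncomputable def f_pm_112 : ℕ → ℕ → ℕ → ℕ → Bool := onCell 1073741824 536870912 536870912 536870912 402653184 67108864
    (rowF 2 true true false .dn 1 1 2 (qsf 536870912 536870912 536870912 536870912 2) ndF0q1 ndF2q1 pcF2 Cut.none Ext.none)

def k0_pm_112 : ∃ t, chk3 f_pm_112 t 2 1 1 = true :=
  ⟨(b (a (b (b (a (b (a (b (b (l 292092064199) (l 284038736919)) (l 243236270551)) (b (l 16993936) (l 16831104))) (a (a (l 1) (l 343630730391)) (b (l 16723504) (l 16681904)))) (b (a (b (l 16935824) (l 16812664)) (l 16854944)) (a (l 16716208) (l 16746376)))) (a (a (l 1) (b (l 329672016615) (l 1))) (b (a (l 16632064) (l 16676688)) (a (l 16529792) (l 16587136))))) (a (l 1) (b (a (l 1) (b (l 16477256) (l 1))) (l 1)))) (b (b (a (b (a (a (l 16851064) (l 16853720)) (l 16864440)) (a (a (l 16778344) (l 16802544)) (l 16841336))) (b (l 16910424) (l 16925168))) (a (a (a (l 16682016) (b (l 16748544) (l 16679080))) (l 16769512)) (b (l 16894784) (l 16855568)))) (a (b (a (a (l 125660759591)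 (b (l 16591488) (l 16481008))) (l 119218722695)) (a (l 1) (l 16439464))) (b (b (l 16803688) (l 16736832)) (b (l 16652048) (l 16541656)))))) (a (l 1) (b (a (l 1) (b (b (l 16453832) (l 1)) (l 1))) (l 1)))), by decide +kernel⟩

def k1_pm_112 : ∃ t, chk3 f_pm_112 t 3 1 1 = true :=
  ⟨(b (a (b (a (b (b (l 16991040) (l 17030120)) (l 17001664)) (b (b (l 17069944) (l 17117456)) (l 17102144))) (a (b (l 16940648) (a (l 16787744) (l 16886816))) (b (l 17065328) (a (l 16969488) (l 17038992))))) (b (a (b (b (l 17137312) (l 17186328)) (l 17178392)) (b (b (l 17171512) (l 17215632)) (l 17225432))) (a (b (l 17159296) (l 17124968)) (b (l 17290584) (l 17210632))))) (a (b (a (b (b (l 115997474727) (l 120829220103)) (b (l 162168184551) (l 1))) (b (a (b (l 16894080) (l 16825656)) (l 16959264)) (a (l 86469403447) (l 131566805927)))) (a (l 1) (b (a (l 1) (b (l 16652432) (l 1))) (l 1)))) (a (b (b (a (l 17041128) (l 17105760)) (a (l 16934088) (l 17026736))) (b (a (b (l 16812512) (l 16699552))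 (b (l 16933680) (l 16852552))) (a (l 1) (l 305512401895)))) (b (b (a (l 17159384) (l 17202736)) (a (l 17099368) (l 17145480))) (b (a (b (l 17028680) (l 16965808)) (l 17052456)) (a (b (l 16867760) (l 309807583959)) (b (l 16948496) (l 195454489895)))))))), by decide +kernel⟩

theorem s2_pm_112 : ∃ t, chk3 f_pm_112 t 1 1 1 = true := ex3_a k0_pm_112 k1_pm_112

theorem c_pm_112 : CertF 536870912 536870912 536870912 536870912 402653184 67108864 true true false .dn 1 1 2
    ndF0q1 ndF2q1 pcF2 Cut.none Ext.none :=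
  certF2 (fam := true) (s1 := true) (s2 := false) (a := 1) (b := 1) (c := 2) (cn := .dn) (n1 := ndF0q1) (n2 := ndF2q1) (pc := pcF2) (cut := Cut.none) (xt := Ext.none) (P1 := 536870912) (W1 := 536870912) (P2 := 536870912) (W2 := 536870912) (P3 := 402653184) (W3 := 67108864)
    rfl (fun _ => rfl) s2_pm_112

noncomputable def f_pm_113 : ℕ → ℕ → ℕ → ℕ → Bool := onCell 536870912 536870912 1610612736 536870912 402653184 67108864
    (rowF 1 true true false .nn 1 1 3 (qsf 536870912 536870912 536870912 536870912 3) ndF0q1 ndF2q1 pcF3 Cut.none Ext.none)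

def k0_pm_113 : ∃ t, chk3 f_pm_113 t 1 1 1 = true :=
  ⟨(a (b (b (a (a (b (a (l 17007952) (l 17084096)) (l 267999727799)) (b (l 17162432) (l 17210728))) (a (b (l 17225456) (l 17270024)) (b (l 17255664) (l 17298512)))) (a (a (l 2) (b (l 17279680) (l 2))) (b (a (l 17331632) (l 17346760)) (l 17418480)))) (b (a (l 2) (b (l 354437423719) (l 2))) (l 2))) (b (a (b (b (a (l 17258824) (l 17242872)) (l 17284768)) (b (l 17311320) (l 17332504))) (b (b (a (l 17214512) (a (l 17193016) (l 17176416))) (a (l 17226864) (l 17182728))) (b (a (l 17231296) (l 17170048)) (l 17192864)))) (b (a (b (l 17354072) (l 17379024)) (b (l 17200672) (l 4))) (l 4)))), by decide +kernel⟩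

theorem c_pm_113 : CertF 536870912 536870912 536870912 536870912 402653184 67108864 true true false .nn 1 1 3
    ndF0q1 ndF2q1 pcF3 Cut.none Ext.none :=
  certF1 (fam := true) (s1 := true) (s2 := false) (a := 1) (b := 1) (c := 3) (cn := .nn) (n1 := ndF0q1) (n2 := ndF2q1) (pc := pcF3) (cut := Cut.none) (xt := Ext.none) (P1 := 536870912) (W1 := 536870912) (P2 := 536870912) (W2 := 536870912) (P3 := 402653184) (W3 := 67108864)
    rfl (fun _ => rfl) k0_pm_113

noncomputable def f_pm_123 : ℕ → ℕ → ℕ → ℕ → Bool := onCell 536870912 536870912 1610612736 536870912 402653184 67108864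
    (rowF 1 true true false .npn 1 2 3 (qsf 536870912 536870912 1073741824 536870912 3) ndF0q1 ndF2q2 pcF3 Cut.none Ext.none)

def k0_pm_123 : ∃ t, chk3 f_pm_123 t 1 1 1 = true :=
  ⟨(a (b (a (b (b (a (b (l 276522859815) (l 174517619415)) (a (l 299071545415) (l 1))) (a (l 17061464) (l 246458426007))) (a (l 17053720) (b (l 17081912) (l 17003256)))) (b (b (l 1) (a (a (l 294239704983) (l 1)) (l 1))) (b (a (l 227131204231) (l 313030127367)) (a (l 17066088) (l 17319264))))) (a (b (a (b (l 16912584) (a (l 16901152) (l 16896032))) (b (l 16936568) (l 16893184))) (b (a (l 16890880) (l 17001384)) (b (a (l 16886368) (l 16866440)) (a (l 4) (b (l 16859952) (l 4)))))) (b (a (b (l 16980184) (l 16907712)) (b (l 17024728) (l 16938336))) (b (l 16924872) (b (a (l 16852952) (l 16833952)) (b (l 17090208) (a (l 16997464) (l 17027880)))))))) (b (a (b (l 1) (a (l 314640721831) (l 1))) (l 1)) (b (a (a (b (l 17219976) (l 17050792)) (b (l 348463389031) (l 336652139335))) (a (b (l 1) (l 408592824119))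 (l 1))) (b (a (a (l 16884360) (l 17154304)) (a (a (l 16921696) (l 314640735927)) (a (l 373159189095) (l 1)))) (b (a (l 16878024) (a (l 16858968) (l 17102008))) (a (b (l 16897504) (b (l 16807160) (b (l 16803800) (l 17028592)))) (b (a (l 16827512) (l 17084936)) (b (a (l 16813120) (l 16815784)) (a (b (l 16806560) (b (l 16804048) (l 16824176))) (b (l 16810488) (b (l 16807912) (l 1223764259847)))))))))))), by decide +kernel⟩

theorem c_pm_123 : CertF 536870912 536870912 1073741824 536870912 402653184 67108864 true true false .npn 1 2 3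
    ndF0q1 ndF2q2 pcF3 Cut.none Ext.none :=
  certF1 (fam := true) (s1 := true) (s2 := false) (a := 1) (b := 2) (c := 3) (cn := .npn) (n1 := ndF0q1) (n2 := ndF2q2) (pc := pcF3) (cut := Cut.none) (xt := Ext.none) (P1 := 536870912) (W1 := 536870912) (P2 := 1073741824) (W2 := 536870912) (P3 := 402653184) (W3 := 67108864)
    rfl (fun _ => rfl) k0_pm_123

noncomputable def f_pm_133 : ℕ → ℕ → ℕ → ℕ → Bool := onCell 536870912 536870912 0 1230186008 402653184 67108864
    (rowF 0 true true false .dn 1 3 3 (qsf 536870912 536870912 0 1230186008 3) ndF0q1 ndF2q3 pcF3 Cut.none Ext.none)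

def k0_pm_133 : ∃ t, chk3 f_pm_133 t 1 1 1 = true :=
  ⟨(b (l 2) (b (l 2) (a (l 4) (l 2)))), by decide +kernel⟩

theorem c_pm_133 : CertF 536870912 536870912 0 1230186008 402653184 67108864 true true false .dn 1 3 3
    ndF0q1 ndF2q3 pcF3 Cut.none Ext.none :=
  certF0 (fam := true) (s1 := true) (s2 := false) (a := 1) (b := 3) (c := 3) (cn := .dn) (n1 := ndF0q1) (n2 := ndF2q3) (pc := pcF3) (cut := Cut.none) (xt := Ext.none) (P1 := 536870912) (W1 := 536870912) (P2 := 0) (W2 := 1230186008) (P3 := 402653184) (W3 := 67108864)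
    rfl k0_pm_133

noncomputable def f_pm_202 : ℕ → ℕ → ℕ → ℕ → Bool := onCell 0 536870912 0 536870912 402653184 67108864
    (rowF 0 true true false .pp 2 0 2 (qsf 0 536870912 0 536870912 2) ndF0q2 ndF2q0 pcF2 Cut.none Ext.none)

def k0_pm_202 : ∃ t, chk3 f_pm_202 t 1 1 1 = true :=
  ⟨(a (b (b (a (b (b (l 16636080) (l 16681352)) (l 16745376)) (b (b (a (l 16654304) (l 16667008)) (l 16728440)) (l 16861416))) (a (b (l 16816416) (l 16861992)) (b (l 16868616) (l 16937600)))) (b (b (a (l 16882496) (l 16979648)) (a (l 4) (l 16988840))) (b (a (l 2) (l 16945208)) (l 2)))) (b (a (b (b (b (a (l 16675488) (l 16699848)) (l 16720760)) (a (l 16799480) (l 16800120))) (b (l 17156288) (l 17018288))) (b (b (a (b (b (l 16743072) (l 16744536)) (l 16752896)) (a (b (b (l 16793304) (l 16789192)) (l 16789088)) (b (a (b (l 16821864) (l 16817200)) (b (l 16842440) (l 16837184))) (l 16823968)))) (a (l 16793448) (l 16820952))) (a (b (l 16905992) (l 17052184)) (b (l 16893192) (l 17035448))))) (b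 (a (b (l 17104248) (l 17162232)) (b (a (l 17193552) (l 17238544)) (l 17598384))) (a (b (l 17146872) (l 2)) (b (l 17285680) (l 17276880)))))), by decide +kernel⟩

theorem c_pm_202 : CertF 0 536870912 0 536870912 402653184 67108864 true true false .pp 2 0 2
    ndF0q2 ndF2q0 pcF2 Cut.none Ext.none :=
  certF0 (fam := true) (s1 := true) (s2 := false) (a := 2) (b := 0) (c := 2) (cn := .pp) (n1 := ndF0q2) (n2 := ndF2q0) (pc := pcF2) (cut := Cut.none) (xt := Ext.none) (P1 := 0) (W1 := 536870912) (P2 := 0) (W2 := 536870912) (P3 := 402653184) (W3 := 67108864)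
    rfl k0_pm_202

noncomputable def f_pm_203 : ℕ → ℕ → ℕ → ℕ → Bool := onCell 0 536870912 1610612736 536870912 402653184 67108864
    (rowF 1 true true false .up 2 0 3 (qsf 0 536870912 0 536870912 3) ndF0q2 ndF2q0 pcF3 Cut.none Ext.none)

def k0_pm_203 : ∃ t, chk3 f_pm_203 t 1 1 1 = true :=
  ⟨(b (a (b (l 23857989207) (l 4)) (b (b (l 17118704) (l 17021456)) (l 17189072))) (l 2)), by decide +kernel⟩

theorem c_pm_203 : CertF 0 536870912 0 536870912 402653184 67108864 true true false .up 2 0 3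
    ndF0q2 ndF2q0 pcF3 Cut.none Ext.none :=
  certF1 (fam := true) (s1 := true) (s2 := false) (a := 2) (b := 0) (c := 3) (cn := .up) (n1 := ndF0q2) (n2 := ndF2q0) (pc := pcF3) (cut := Cut.none) (xt := Ext.none) (P1 := 0) (W1 := 536870912) (P2 := 0) (W2 := 536870912) (P3 := 402653184) (W3 := 67108864)
    rfl (fun _ => rfl) k0_pm_203

noncomputable def f_pm_213 : ℕ → ℕ → ℕ → ℕ → Bool := onCell 0 536870912 536870912 536870912 402653184 67108864
    (rowF 0 true true false .pnn 2 1 3 (qsf 0 536870912 536870912 536870912 3) ndF0q2 ndF2q1 pcF3 Cut.none Ext.none)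

def k0_pm_213 : ∃ t, chk3 f_pm_213 t 1 1 1 = true :=
  ⟨(a (l 4) (b (b (b (a (l 17057552) (a (l 17086232) (l 17146024))) (a (l 4) (l 17274344))) (a (l 4) (b (l 17090944) (l 4)))) (l 4))), by decide +kernel⟩

theorem c_pm_213 : CertF 0 536870912 536870912 536870912 402653184 67108864 true true false .pnn 2 1 3
    ndF0q2 ndF2q1 pcF3 Cut.none Ext.none :=
  certF0 (fam := true) (s1 := true) (s2 := false) (a := 2) (b := 1) (c := 3) (cn := .pnn) (n1 := ndF0q2) (n2 := ndF2q1) (pc := pcF3) (cut := Cut.none) (xt := Ext.none) (P1 := 0) (W1 := 536870912) (P2 := 536870912) (W2 := 536870912) (P3 := 402653184) (W3 := 67108864)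
    rfl k0_pm_213

noncomputable def f_mm_001 : ℕ → ℕ → ℕ → ℕ → Bool := onCell 0 536870912 0 536870912 402653184 67108864
    (rowF 0 true false false .up 0 0 1 (qsf 0 536870912 0 536870912 1) ndF0q0 ndF2q0 pcF1 Cut.none Ext.none)

def k0_mm_001 : ∃ t, chk3 f_mm_001 t 1 1 1 = true :=
  ⟨(l 4), by decide +kernel⟩

theorem c_mm_001 : CertF 0 536870912 0 536870912 402653184 67108864 true false false .up 0 0 1
    ndF0q0 ndF2q0 pcF1 Cut.none Ext.none :=
  certF0 (fam := true) (s1 := false) (s2 := false) (a := 0) (b := 0) (c := 1) (cn := .up) (n1 := ndF0q0) (n2 := ndF2q0) (pc := pcF1) (cut := Cut.none) (xt := Ext.none) (P1 := 0) (W1 := 536870912) (P2 := 0) (W2 := 536870912) (P3 := 402653184) (W3 := 67108864)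
    rfl k0_mm_001

noncomputable def f_mm_011 : ℕ → ℕ → ℕ → ℕ → Bool := onCell 0 536870912 536870912 536870912 402653184 67108864
    (rowF 0 true false false .pnn 0 1 1 (qsf 0 536870912 536870912 536870912 1) ndF0q0 ndF2q1 pcF1 Cut.none Ext.none)

def k0_mm_011 : ∃ t, chk3 f_mm_011 t 1 1 1 = true :=
  ⟨(l 4), by decide +kernel⟩

theorem c_mm_011 : CertF 0 536870912 536870912 536870912 402653184 67108864 true false false .pnn 0 1 1
    ndF0q0 ndF2q1 pcF1 Cut.none Ext.none :=
  certF0 (fam := true) (s1 := false) (s2 := false) (a := 0) (b := 1) (c := 1) (cn := .pnn) (n1 := ndF0q0) (n2 := ndF2q1) (pc := pcF1) (cut := Cut.none) (xt := Ext.none) (P1 := 0) (W1 := 536870912) (P2 := 536870912) (W2 := 536870912) (P3 := 402653184) (W3 := 67108864)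
    rfl k0_mm_011

noncomputable def f_mm_012 : ℕ → ℕ → ℕ → ℕ → Bool := onCell 0 536870912 536870912 536870912 402653184 67108864
    (rowF 0 true false false .pnp 0 1 2 (qsf 0 536870912 536870912 536870912 2) ndF0q0 ndF2q1 pcF2 Cut.none Ext.none)

def k0_mm_012 : ∃ t, chk3 f_mm_012 t 1 1 1 = true :=
  ⟨(l 4), by decide +kernel⟩

theorem c_mm_012 : CertF 0 536870912 536870912 536870912 402653184 67108864 true false false .pnp 0 1 2
    ndF0q0 ndF2q1 pcF2 Cut.none Ext.none :=
  certF0 (fam := true) (s1 := false) (s2 := false) (a := 0) (b := 1) (c := 2) (cn := .pnp) (n1 := ndF0q0) (n2 := ndF2q1) (pc := pcF2) (cut := Cut.none) (xt := Ext.none) (P1 := 0) (W1 := 536870912) (P2 := 536870912) (W2 := 536870912) (P3 := 402653184) (W3 := 67108864)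
    rfl k0_mm_012

noncomputable def f_mm_022 : ℕ → ℕ → ℕ → ℕ → Bool := onCell 0 536870912 1073741824 536870912 402653184 67108864
    (rowF 0 true false false .pp 0 2 2 (qsf 0 536870912 1073741824 536870912 2) ndF0q0 ndF2q2 pcF2 Cut.none Ext.none)

def k0_mm_022 : ∃ t, chk3 f_mm_022 t 1 1 1 = true :=
  ⟨(l 4), by decide +kernel⟩

theorem c_mm_022 : CertF 0 536870912 1073741824 536870912 402653184 67108864 true false false .pp 0 2 2
    ndF0q0 ndF2q2 pcF2 Cut.none Ext.none :=
  certF0 (fam := true) (s1 := false) (s2 := false) (a := 0) (b := 2) (c := 2) (cn := .pp) (n1 := ndF0q0) (n2 := ndF2q2) (pc := pcF2) (cut := Cut.none) (xt := Ext.none) (P1 := 0) (W1 := 536870912) (P2 := 1073741824) (W2 := 536870912) (P3 := 402653184) (W3 := 67108864)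
    rfl k0_mm_022

noncomputable def f_mm_023 : ℕ → ℕ → ℕ → ℕ → Bool := onCell 0 536870912 1073741824 536870912 402653184 67108864
    (rowF 0 true false false .up 0 2 3 (qsf 0 536870912 1073741824 536870912 3) ndF0q0 ndF2q2 pcF3 Cut.none Ext.none)

def k0_mm_023 : ∃ t, chk3 f_mm_023 t 1 1 1 = true :=
  ⟨(l 4), by decide +kernel⟩

theorem c_mm_023 : CertF 0 536870912 1073741824 536870912 402653184 67108864 true false false .up 0 2 3
    ndF0q0 ndF2q2 pcF3 Cut.none Ext.none :=
  certF0 (fam := true) (s1 := false) (s2 := false) (a := 0) (b := 2) (c := 3) (cn := .up) (n1 := ndF0q0) (n2 := ndF2q2) (pc := pcF3) (cut := Cut.none) (xt := Ext.none) (P1 := 0) (W1 := 536870912) (P2 := 1073741824) (W2 := 536870912) (P3 := 402653184) (W3 := 67108864)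
    rfl k0_mm_023

noncomputable def f_mm_033 : ℕ → ℕ → ℕ → ℕ → Bool := onCell 0 536870912 0 1230186008 402653184 67108864
    (rowF 0 true false false .pnn 0 3 3 (qsf 0 536870912 0 1230186008 3) ndF0q0 ndF2q3 pcF3 Cut.none Ext.none)

def k0_mm_033 : ∃ t, chk3 f_mm_033 t 1 1 1 = true :=
  ⟨(l 5), by decide +kernel⟩

theorem c_mm_033 : CertF 0 536870912 0 1230186008 402653184 67108864 true false false .pnn 0 3 3
    ndF0q0 ndF2q3 pcF3 Cut.none Ext.none :=
  certF0 (fam := true) (s1 := false) (s2 := false) (a := 0) (b := 3) (c := 3) (cn := .pnn) (n1 := ndF0q0) (n2 := ndF2q3) (pc := pcF3) (cut := Cut.none) (xt := Ext.none) (P1 := 0) (W1 := 536870912) (P2 := 0) (W2 := 1230186008) (P3 := 402653184) (W3 := 67108864)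
    rfl k0_mm_033

noncomputable def f_mm_101 : ℕ → ℕ → ℕ → ℕ → Bool := onCell 536870912 536870912 0 536870912 402653184 67108864
    (rowF 0 true false false .npn 1 0 1 (qsf 536870912 536870912 0 536870912 1) ndF0q1 ndF2q0 pcF1 Cut.none Ext.none)

def k0_mm_101 : ∃ t, chk3 f_mm_101 t 1 1 1 = true :=
  ⟨(a (l 4) (l 4)), by decide +kernel⟩

theorem c_mm_101 : CertF 536870912 536870912 0 536870912 402653184 67108864 true false false .npn 1 0 1
    ndF0q1 ndF2q0 pcF1 Cut.none Ext.none :=
  certF0 (fam := true) (s1 := false) (s2 := false) (a := 1) (b := 0) (c := 1) (cn := .npn) (n1 := ndF0q1) (n2 := ndF2q0) (pc := pcF1) (cut := Cut.none) (xt := Ext.none) (P1 := 536870912) (W1 := 536870912) (P2 := 0) (W2 := 536870912) (P3 := 402653184) (W3 := 67108864)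
    rfl k0_mm_101

noncomputable def f_mm_102 : ℕ → ℕ → ℕ → ℕ → Bool := onCell 536870912 536870912 0 536870912 402653184 67108864
    (rowF 0 true false false .npp 1 0 2 (qsf 536870912 536870912 0 536870912 2) ndF0q1 ndF2q0 pcF2 Cut.none Ext.none)

def k0_mm_102 : ∃ t, chk3 f_mm_102 t 1 1 1 = true :=
  ⟨(a (l 4) (l 4)), by decide +kernel⟩

theorem c_mm_102 : CertF 536870912 536870912 0 536870912 402653184 67108864 true false false .npp 1 0 2
    ndF0q1 ndF2q0 pcF2 Cut.none Ext.none :=
  certF0 (fam := true) (s1 := false) (s2 := false) (a := 1) (b := 0) (c := 2) (cn := .npp) (n1 := ndF0q1) (n2 := ndF2q0) (pc := pcF2) (cut := Cut.none) (xt := Ext.none) (P1 := 536870912) (W1 := 536870912) (P2 := 0) (W2 := 536870912) (P3 := 402653184) (W3 := 67108864)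
    rfl k0_mm_102

noncomputable def f_mm_112 : ℕ → ℕ → ℕ → ℕ → Bool := onCell 536870912 536870912 536870912 536870912 402653184 67108864
    (rowF 0 true false false .dn 1 1 2 (qsf 536870912 536870912 536870912 536870912 2) ndF0q1 ndF2q1 pcF2 Cut.none Ext.none)

def k0_mm_112 : ∃ t, chk3 f_mm_112 t 1 1 1 = true :=
  ⟨(l 4), by decide +kernel⟩

theorem c_mm_112 : CertF 536870912 536870912 536870912 536870912 402653184 67108864 true false false .dn 1 1 2
    ndF0q1 ndF2q1 pcF2 Cut.none Ext.none :=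
  certF0 (fam := true) (s1 := false) (s2 := false) (a := 1) (b := 1) (c := 2) (cn := .dn) (n1 := ndF0q1) (n2 := ndF2q1) (pc := pcF2) (cut := Cut.none) (xt := Ext.none) (P1 := 536870912) (W1 := 536870912) (P2 := 536870912) (W2 := 536870912) (P3 := 402653184) (W3 := 67108864)
    rfl k0_mm_112

noncomputable def f_mm_113 : ℕ → ℕ → ℕ → ℕ → Bool := onCell 536870912 536870912 536870912 536870912 402653184 67108864
    (rowF 0 true false false .nn 1 1 3 (qsf 536870912 536870912 536870912 536870912 3) ndF0q1 ndF2q1 pcF3 Cut.none Ext.none)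

def k0_mm_113 : ∃ t, chk3 f_mm_113 t 1 1 1 = true :=
  ⟨(l 4), by decide +kernel⟩

theorem c_mm_113 : CertF 536870912 536870912 536870912 536870912 402653184 67108864 true false false .nn 1 1 3
    ndF0q1 ndF2q1 pcF3 Cut.none Ext.none :=
  certF0 (fam := true) (s1 := false) (s2 := false) (a := 1) (b := 1) (c := 3) (cn := .nn) (n1 := ndF0q1) (n2 := ndF2q1) (pc := pcF3) (cut := Cut.none) (xt := Ext.none) (P1 := 536870912) (W1 := 536870912) (P2 := 536870912) (W2 := 536870912) (P3 := 402653184) (W3 := 67108864)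
    rfl k0_mm_113

noncomputable def f_mm_123 : ℕ → ℕ → ℕ → ℕ → Bool := onCell 536870912 536870912 1073741824 536870912 402653184 67108864
    (rowF 0 true false false .npn 1 2 3 (qsf 536870912 536870912 1073741824 536870912 3) ndF0q1 ndF2q2 pcF3 Cut.none Ext.none)

def k0_mm_123 : ∃ t, chk3 f_mm_123 t 1 1 1 = true :=
  ⟨(l 4), by decide +kernel⟩

theorem c_mm_123 : CertF 536870912 536870912 1073741824 536870912 402653184 67108864 true false false .npn 1 2 3
    ndF0q1 ndF2q2 pcF3 Cut.none Ext.none :=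
  certF0 (fam := true) (s1 := false) (s2 := false) (a := 1) (b := 2) (c := 3) (cn := .npn) (n1 := ndF0q1) (n2 := ndF2q2) (pc := pcF3) (cut := Cut.none) (xt := Ext.none) (P1 := 536870912) (W1 := 536870912) (P2 := 1073741824) (W2 := 536870912) (P3 := 402653184) (W3 := 67108864)
    rfl k0_mm_123

noncomputable def f_mm_133 : ℕ → ℕ → ℕ → ℕ → Bool := onCell 1610612736 536870912 0 1230186008 402653184 67108864
    (rowF 2 true false false .dn 1 3 3 (qsf 536870912 536870912 0 1230186008 3) ndF0q1 ndF2q3 pcF3 Cut.none Ext.none)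

def k0_mm_133 : ∃ t, chk3 f_mm_133 t 1 1 1 = true :=
  ⟨(l 5), by decide +kernel⟩

theorem c_mm_133 : CertF 536870912 536870912 0 1230186008 402653184 67108864 true false false .dn 1 3 3
    ndF0q1 ndF2q3 pcF3 Cut.none Ext.none :=
  certF2 (fam := true) (s1 := false) (s2 := false) (a := 1) (b := 3) (c := 3) (cn := .dn) (n1 := ndF0q1) (n2 := ndF2q3) (pc := pcF3) (cut := Cut.none) (xt := Ext.none) (P1 := 536870912) (W1 := 536870912) (P2 := 0) (W2 := 1230186008) (P3 := 402653184) (W3 := 67108864)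
    rfl (fun _ => rfl) k0_mm_133

noncomputable def f_mm_202 : ℕ → ℕ → ℕ → ℕ → Bool := onCell 0 536870912 0 536870912 402653184 67108864
    (rowF 0 true false false .pp 2 0 2 (qsf 0 536870912 0 536870912 2) ndF0q2 ndF2q0 pcF2 Cut.none Ext.none)

def k0_mm_202 : ∃ t, chk3 f_mm_202 t 1 1 1 = true :=
  ⟨(b (a (b (b (a (b (l 16620312) (l 16664152)) (b (a (l 16627344) (l 16646248)) (l 16741648))) (a (l 16723712) (l 6677727719))) (a (b (l 16779496) (l 16815168)) (l 4))) (b (a (b (b (a (l 16678016) (b (l 16709288) (l 4))) (l 19025820391)) (l 4)) (l 4)) (l 4))) (l 4)), by decide +kernel⟩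

theorem c_mm_202 : CertF 0 536870912 0 536870912 402653184 67108864 true false false .pp 2 0 2
    ndF0q2 ndF2q0 pcF2 Cut.none Ext.none :=
  certF0 (fam := true) (s1 := false) (s2 := false) (a := 2) (b := 0) (c := 2) (cn := .pp) (n1 := ndF0q2) (n2 := ndF2q0) (pc := pcF2) (cut := Cut.none) (xt := Ext.none) (P1 := 0) (W1 := 536870912) (P2 := 0) (W2 := 536870912) (P3 := 402653184) (W3 := 67108864)
    rfl k0_mm_202

noncomputable def f_mm_203 : ℕ → ℕ → ℕ → ℕ → Bool := onCell 0 536870912 1610612736 536870912 402653184 67108864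
    (rowF 1 true false false .up 2 0 3 (qsf 0 536870912 0 536870912 3) ndF0q2 ndF2q0 pcF3 Cut.none Ext.none)

def k0_mm_203 : ∃ t, chk3 f_mm_203 t 1 1 1 = true :=
  ⟨(l 4), by decide +kernel⟩

theorem c_mm_203 : CertF 0 536870912 0 536870912 402653184 67108864 true false false .up 2 0 3
    ndF0q2 ndF2q0 pcF3 Cut.none Ext.none :=
  certF1 (fam := true) (s1 := false) (s2 := false) (a := 2) (b := 0) (c := 3) (cn := .up) (n1 := ndF0q2) (n2 := ndF2q0) (pc := pcF3) (cut := Cut.none) (xt := Ext.none) (P1 := 0) (W1 := 536870912) (P2 := 0) (W2 := 536870912) (P3 := 402653184) (W3 := 67108864)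
    rfl (fun _ => rfl) k0_mm_203

noncomputable def f_mm_213 : ℕ → ℕ → ℕ → ℕ → Bool := onCell 0 536870912 536870912 536870912 402653184 67108864
    (rowF 0 true false false .pnn 2 1 3 (qsf 0 536870912 536870912 536870912 3) ndF0q2 ndF2q1 pcF3 Cut.none Ext.none)

def k0_mm_213 : ∃ t, chk3 f_mm_213 t 1 1 1 = true :=
  ⟨(l 4), by decide +kernel⟩

theorem c_mm_213 : CertF 0 536870912 536870912 536870912 402653184 67108864 true false false .pnn 2 1 3
    ndF0q2 ndF2q1 pcF3 Cut.none Ext.none :=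
  certF0 (fam := true) (s1 := false) (s2 := false) (a := 2) (b := 1) (c := 3) (cn := .pnn) (n1 := ndF0q2) (n2 := ndF2q1) (pc := pcF3) (cut := Cut.none) (xt := Ext.none) (P1 := 0) (W1 := 536870912) (P2 := 536870912) (W2 := 536870912) (P3 := 402653184) (W3 := 67108864)
    rfl k0_mm_213

end Pool.Agent.Strip051.G.I3_8_7_16.Tab.C.FA02

namespace Pool.Agent.Strip051.G.I3_8_7_16.Tab.C.FA03

open Pool.Agent.Strip051.PB Pool.Agent.Strip051.PB.T
open Pool.Agent.Strip051.G.I3_8_7_16.Tab

noncomputable def f_pp_001 : ℕ → ℕ → ℕ → ℕ → Bool := onCell 0 536870912 0 536870912 402653184 67108864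
    (rowF 0 true true true .up 0 0 1 (qsf 0 536870912 0 536870912 1) ndF0q0 ndF3q0 pcF1 Cut.none Ext.none)

def k0_pp_001 : ∃ t, chk3 f_pp_001 t 1 1 1 = true :=
  ⟨(l 4), by decide +kernel⟩

theorem c_pp_001 : CertF 0 536870912 0 536870912 402653184 67108864 true true true .up 0 0 1
    ndF0q0 ndF3q0 pcF1 Cut.none Ext.none :=
  certF0 (fam := true) (s1 := true) (s2 := true) (a := 0) (b := 0) (c := 1) (cn := .up) (n1 := ndF0q0) (n2 := ndF3q0) (pc := pcF1) (cut := Cut.none) (xt := Ext.none) (P1 := 0) (W1 := 536870912) (P2 := 0) (W2 := 536870912) (P3 := 402653184) (W3 := 67108864)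
    rfl k0_pp_001

noncomputable def f_pp_011 : ℕ → ℕ → ℕ → ℕ → Bool := onCell 0 536870912 536870912 536870912 402653184 67108864
    (rowF 0 true true true .pnn 0 1 1 (qsf 0 536870912 536870912 536870912 1) ndF0q0 ndF3q1 pcF1 Cut.none Ext.none)

def k0_pp_011 : ∃ t, chk3 f_pp_011 t 1 1 1 = true :=
  ⟨(l 4), by decide +kernel⟩

theorem c_pp_011 : CertF 0 536870912 536870912 536870912 402653184 67108864 true true true .pnn 0 1 1
    ndF0q0 ndF3q1 pcF1 Cut.none Ext.none :=
  certF0 (fam := true) (s1 := true) (s2 := true) (a := 0) (b := 1) (c := 1) (cn := .pnn) (n1 := ndF0q0) (n2 := ndF3q1) (pc := pcF1) (cut := Cut.none) (xt := Ext.none) (P1 := 0) (W1 := 536870912) (P2 := 536870912) (W2 := 536870912) (P3 := 402653184) (W3 := 67108864)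
    rfl k0_pp_011

noncomputable def f_pp_012 : ℕ → ℕ → ℕ → ℕ → Bool := onCell 0 536870912 536870912 536870912 402653184 67108864
    (rowF 0 true true true .pnp 0 1 2 (qsf 0 536870912 536870912 536870912 2) ndF0q0 ndF3q1 pcF2 Cut.none Ext.none)

def k0_pp_012 : ∃ t, chk3 f_pp_012 t 1 1 1 = true :=
  ⟨(l 4), by decide +kernel⟩

theorem c_pp_012 : CertF 0 536870912 536870912 536870912 402653184 67108864 true true true .pnp 0 1 2
    ndF0q0 ndF3q1 pcF2 Cut.none Ext.none :=
  certF0 (fam := true) (s1 := true) (s2 := true) (a := 0) (b := 1) (c := 2) (cn := .pnp) (n1 := ndF0q0) (n2 := ndF3q1) (pc := pcF2) (cut := Cut.none) (xt := Ext.none) (P1 := 0) (W1 := 536870912) (P2 := 536870912) (W2 := 536870912) (P3 := 402653184) (W3 := 67108864)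
    rfl k0_pp_012

noncomputable def f_pp_022 : ℕ → ℕ → ℕ → ℕ → Bool := onCell 0 536870912 1073741824 536870912 402653184 67108864
    (rowF 0 true true true .pp 0 2 2 (qsf 0 536870912 1073741824 536870912 2) ndF0q0 ndF3q2 pcF2 Cut.none Ext.none)

def k0_pp_022 : ∃ t, chk3 f_pp_022 t 1 1 1 = true :=
  ⟨(l 4), by decide +kernel⟩

theorem c_pp_022 : CertF 0 536870912 1073741824 536870912 402653184 67108864 true true true .pp 0 2 2
    ndF0q0 ndF3q2 pcF2 Cut.none Ext.none :=
  certF0 (fam := true) (s1 := true) (s2 := true) (a := 0) (b := 2) (c := 2) (cn := .pp) (n1 := ndF0q0) (n2 := ndF3q2) (pc := pcF2) (cut := Cut.none) (xt := Ext.none) (P1 := 0) (W1 := 536870912) (P2 := 1073741824) (W2 := 536870912) (P3 := 402653184) (W3 := 67108864)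
    rfl k0_pp_022

noncomputable def f_pp_023 : ℕ → ℕ → ℕ → ℕ → Bool := onCell 0 536870912 1073741824 536870912 402653184 67108864
    (rowF 0 true true true .up 0 2 3 (qsf 0 536870912 1073741824 536870912 3) ndF0q0 ndF3q2 pcF3 Cut.none Ext.none)

def k0_pp_023 : ∃ t, chk3 f_pp_023 t 1 1 1 = true :=
  ⟨(l 4), by decide +kernel⟩

theorem c_pp_023 : CertF 0 536870912 1073741824 536870912 402653184 67108864 true true true .up 0 2 3
    ndF0q0 ndF3q2 pcF3 Cut.none Ext.none :=
  certF0 (fam := true) (s1 := true) (s2 := true) (a := 0) (b := 2) (c := 3) (cn := .up) (n1 := ndF0q0) (n2 := ndF3q2) (pc := pcF3) (cut := Cut.none) (xt := Ext.none) (P1 := 0) (W1 := 536870912) (P2 := 1073741824) (W2 := 536870912) (P3 := 402653184) (W3 := 67108864)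
    rfl k0_pp_023

noncomputable def f_pp_033 : ℕ → ℕ → ℕ → ℕ → Bool := onCell 0 536870912 0 1230186008 402653184 67108864
    (rowF 0 true true true .pnn 0 3 3 (qsf 0 536870912 0 1230186008 3) ndF0q0 ndF3q3 pcF3 Cut.none Ext.none)

def k0_pp_033 : ∃ t, chk3 f_pp_033 t 1 1 1 = true :=
  ⟨(b (l 4) (l 4)), by decide +kernel⟩

theorem c_pp_033 : CertF 0 536870912 0 1230186008 402653184 67108864 true true true .pnn 0 3 3
    ndF0q0 ndF3q3 pcF3 Cut.none Ext.none :=
  certF0 (fam := true) (s1 := true) (s2 := true) (a := 0) (b := 3) (c := 3) (cn := .pnn) (n1 := ndF0q0) (n2 := ndF3q3) (pc := pcF3) (cut := Cut.none) (xt := Ext.none) (P1 := 0) (W1 := 536870912) (P2 := 0) (W2 := 1230186008) (P3 := 402653184) (W3 := 67108864)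
    rfl k0_pp_033

noncomputable def f_pp_101 : ℕ → ℕ → ℕ → ℕ → Bool := onCell 536870912 536870912 0 536870912 402653184 67108864
    (rowF 0 true true true .npn 1 0 1 (qsf 536870912 536870912 0 536870912 1) ndF0q1 ndF3q0 pcF1 Cut.none Ext.none)

def k0_pp_101 : ∃ t, chk3 f_pp_101 t 1 1 1 = true :=
  ⟨(l 4), by decide +kernel⟩

theorem c_pp_101 : CertF 536870912 536870912 0 536870912 402653184 67108864 true true true .npn 1 0 1
    ndF0q1 ndF3q0 pcF1 Cut.none Ext.none :=
  certF0 (fam := true) (s1 := true) (s2 := true) (a := 1) (b := 0) (c := 1) (cn := .npn) (n1 := ndF0q1) (n2 := ndF3q0) (pc := pcF1) (cut := Cut.none) (xt := Ext.none) (P1 := 536870912) (W1 := 536870912) (P2 := 0) (W2 := 536870912) (P3 := 402653184) (W3 := 67108864)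
    rfl k0_pp_101

noncomputable def f_pp_102 : ℕ → ℕ → ℕ → ℕ → Bool := onCell 536870912 536870912 0 536870912 402653184 67108864
    (rowF 0 true true true .npp 1 0 2 (qsf 536870912 536870912 0 536870912 2) ndF0q1 ndF3q0 pcF2 Cut.none Ext.none)

def k0_pp_102 : ∃ t, chk3 f_pp_102 t 1 1 1 = true :=
  ⟨(l 4), by decide +kernel⟩

theorem c_pp_102 : CertF 536870912 536870912 0 536870912 402653184 67108864 true true true .npp 1 0 2
    ndF0q1 ndF3q0 pcF2 Cut.none Ext.none :=
  certF0 (fam := true) (s1 := true) (s2 := true) (a := 1) (b := 0) (c := 2) (cn := .npp) (n1 := ndF0q1) (n2 := ndF3q0) (pc := pcF2) (cut := Cut.none) (xt := Ext.none) (P1 := 536870912) (W1 := 536870912) (P2 := 0) (W2 := 536870912) (P3 := 402653184) (W3 := 67108864)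
    rfl k0_pp_102

noncomputable def f_pp_112 : ℕ → ℕ → ℕ → ℕ → Bool := onCell 536870912 536870912 536870912 536870912 402653184 67108864
    (rowF 0 true true true .dn 1 1 2 (qsf 536870912 536870912 536870912 536870912 2) ndF0q1 ndF3q1 pcF2 Cut.none Ext.none)

def k0_pp_112 : ∃ t, chk3 f_pp_112 t 1 1 1 = true :=
  ⟨(l 4), by decide +kernel⟩

theorem c_pp_112 : CertF 536870912 536870912 536870912 536870912 402653184 67108864 true true true .dn 1 1 2
    ndF0q1 ndF3q1 pcF2 Cut.none Ext.none :=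
  certF0 (fam := true) (s1 := true) (s2 := true) (a := 1) (b := 1) (c := 2) (cn := .dn) (n1 := ndF0q1) (n2 := ndF3q1) (pc := pcF2) (cut := Cut.none) (xt := Ext.none) (P1 := 536870912) (W1 := 536870912) (P2 := 536870912) (W2 := 536870912) (P3 := 402653184) (W3 := 67108864)
    rfl k0_pp_112

noncomputable def f_pp_113 : ℕ → ℕ → ℕ → ℕ → Bool := onCell 536870912 536870912 536870912 536870912 402653184 67108864
    (rowF 0 true true true .nn 1 1 3 (qsf 536870912 536870912 536870912 536870912 3) ndF0q1 ndF3q1 pcF3 Cut.none Ext.none)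

def k0_pp_113 : ∃ t, chk3 f_pp_113 t 1 1 1 = true :=
  ⟨(l 4), by decide +kernel⟩

theorem c_pp_113 : CertF 536870912 536870912 536870912 536870912 402653184 67108864 true true true .nn 1 1 3
    ndF0q1 ndF3q1 pcF3 Cut.none Ext.none :=
  certF0 (fam := true) (s1 := true) (s2 := true) (a := 1) (b := 1) (c := 3) (cn := .nn) (n1 := ndF0q1) (n2 := ndF3q1) (pc := pcF3) (cut := Cut.none) (xt := Ext.none) (P1 := 536870912) (W1 := 536870912) (P2 := 536870912) (W2 := 536870912) (P3 := 402653184) (W3 := 67108864)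
    rfl k0_pp_113

noncomputable def f_pp_123 : ℕ → ℕ → ℕ → ℕ → Bool := onCell 536870912 536870912 1073741824 536870912 402653184 67108864
    (rowF 0 true true true .npn 1 2 3 (qsf 536870912 536870912 1073741824 536870912 3) ndF0q1 ndF3q2 pcF3 Cut.none Ext.none)

def k0_pp_123 : ∃ t, chk3 f_pp_123 t 1 1 1 = true :=
  ⟨(l 4), by decide +kernel⟩

theorem c_pp_123 : CertF 536870912 536870912 1073741824 536870912 402653184 67108864 true true true .npn 1 2 3
    ndF0q1 ndF3q2 pcF3 Cut.none Ext.none :=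
  certF0 (fam := true) (s1 := true) (s2 := true) (a := 1) (b := 2) (c := 3) (cn := .npn) (n1 := ndF0q1) (n2 := ndF3q2) (pc := pcF3) (cut := Cut.none) (xt := Ext.none) (P1 := 536870912) (W1 := 536870912) (P2 := 1073741824) (W2 := 536870912) (P3 := 402653184) (W3 := 67108864)
    rfl k0_pp_123

noncomputable def f_pp_133 : ℕ → ℕ → ℕ → ℕ → Bool := onCell 536870912 536870912 0 1230186008 402653184 67108864
    (rowF 0 true true true .dn 1 3 3 (qsf 536870912 536870912 0 1230186008 3) ndF0q1 ndF3q3 pcF3 Cut.none Ext.none)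

def k0_pp_133 : ∃ t, chk3 f_pp_133 t 1 1 1 = true :=
  ⟨(l 4), by decide +kernel⟩

theorem c_pp_133 : CertF 536870912 536870912 0 1230186008 402653184 67108864 true true true .dn 1 3 3
    ndF0q1 ndF3q3 pcF3 Cut.none Ext.none :=
  certF0 (fam := true) (s1 := true) (s2 := true) (a := 1) (b := 3) (c := 3) (cn := .dn) (n1 := ndF0q1) (n2 := ndF3q3) (pc := pcF3) (cut := Cut.none) (xt := Ext.none) (P1 := 536870912) (W1 := 536870912) (P2 := 0) (W2 := 1230186008) (P3 := 402653184) (W3 := 67108864)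
    rfl k0_pp_133

noncomputable def f_pp_202 : ℕ → ℕ → ℕ → ℕ → Bool := onCell 0 536870912 0 536870912 402653184 67108864
    (rowF 0 true true true .pp 2 0 2 (qsf 0 536870912 0 536870912 2) ndF0q2 ndF3q0 pcF2 Cut.none Ext.none)

def k0_pp_202 : ∃ t, chk3 f_pp_202 t 1 1 1 = true :=
  ⟨(l 5), by decide +kernel⟩

theorem c_pp_202 : CertF 0 536870912 0 536870912 402653184 67108864 true true true .pp 2 0 2
    ndF0q2 ndF3q0 pcF2 Cut.none Ext.none :=
  certF0 (fam := true) (s1 := true) (s2 := true) (a := 2) (b := 0) (c := 2) (cn := .pp) (n1 := ndF0q2) (n2 := ndF3q0) (pc := pcF2) (cut := Cut.none) (xt := Ext.none) (P1 := 0) (W1 := 536870912) (P2 := 0) (W2 := 536870912) (P3 := 402653184) (W3 := 67108864)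
    rfl k0_pp_202

noncomputable def f_pp_203 : ℕ → ℕ → ℕ → ℕ → Bool := onCell 0 536870912 0 536870912 402653184 67108864
    (rowF 0 true true true .up 2 0 3 (qsf 0 536870912 0 536870912 3) ndF0q2 ndF3q0 pcF3 Cut.none Ext.none)

def k0_pp_203 : ∃ t, chk3 f_pp_203 t 1 1 1 = true :=
  ⟨(l 5), by decide +kernel⟩

theorem c_pp_203 : CertF 0 536870912 0 536870912 402653184 67108864 true true true .up 2 0 3
    ndF0q2 ndF3q0 pcF3 Cut.none Ext.none :=
  certF0 (fam := true) (s1 := true) (s2 := true) (a := 2) (b := 0) (c := 3) (cn := .up) (n1 := ndF0q2) (n2 := ndF3q0) (pc := pcF3) (cut := Cut.none) (xt := Ext.none) (P1 := 0) (W1 := 536870912) (P2 := 0) (W2 := 536870912) (P3 := 402653184) (W3 := 67108864)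
    rfl k0_pp_203

noncomputable def f_pp_213 : ℕ → ℕ → ℕ → ℕ → Bool := onCell 0 536870912 536870912 536870912 402653184 67108864
    (rowF 0 true true true .pnn 2 1 3 (qsf 0 536870912 536870912 536870912 3) ndF0q2 ndF3q1 pcF3 Cut.none Ext.none)

def k0_pp_213 : ∃ t, chk3 f_pp_213 t 1 1 1 = true :=
  ⟨(l 4), by decide +kernel⟩

theorem c_pp_213 : CertF 0 536870912 536870912 536870912 402653184 67108864 true true true .pnn 2 1 3
    ndF0q2 ndF3q1 pcF3 Cut.none Ext.none :=
  certF0 (fam := true) (s1 := true) (s2 := true) (a := 2) (b := 1) (c := 3) (cn := .pnn) (n1 := ndF0q2) (n2 := ndF3q1) (pc := pcF3) (cut := Cut.none) (xt := Ext.none) (P1 := 0) (W1 := 536870912) (P2 := 536870912) (W2 := 536870912) (P3 := 402653184) (W3 := 67108864)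
    rfl k0_pp_213

noncomputable def f_pm_001 : ℕ → ℕ → ℕ → ℕ → Bool := onCell 0 536870912 536870912 536870912 402653184 67108864
    (rowF 1 true true false .up 0 0 1 (qsf 0 536870912 0 536870912 1) ndF0q0 ndF3q0 pcF1 Cut.none Ext.none)

def k0_pm_001 : ∃ t, chk3 f_pm_001 t 1 1 1 = true :=
  ⟨(b (l 3) (a (b (l 3) (l 2)) (b (l 3) (a (b (b (l 3) (l 2)) (l 2)) (b (a (b (l 3) (a (b (b (l 3) (l 2)) (l 2)) (b (c (l 76940702583) (b (l 105931582567) (l 76403695015))) (l 33386920631)))) (b (a (l 3) (b (l 3) (a (l 80161797287) (l 82309285111)))) (b (a (a (l 81235489383) (l 83919820999)) (a (l 66203069623) (l 16897416))) (a (l 16886264) (l 16883112))))) (a (a (l 2) (b (l 16892080) (l 2))) (b (a (l 16865968) (l 16861016)) (a (l 16833304) (l 16824272))))))))), by decide +kernel⟩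

theorem c_pm_001 : CertF 0 536870912 0 536870912 402653184 67108864 true true false .up 0 0 1
    ndF0q0 ndF3q0 pcF1 Cut.none Ext.none :=
  certF1 (fam := true) (s1 := true) (s2 := false) (a := 0) (b := 0) (c := 1) (cn := .up) (n1 := ndF0q0) (n2 := ndF3q0) (pc := pcF1) (cut := Cut.none) (xt := Ext.none) (P1 := 0) (W1 := 536870912) (P2 := 0) (W2 := 536870912) (P3 := 402653184) (W3 := 67108864)
    rfl (fun _ => rfl) k0_pm_001

noncomputable def cut_pm_011 : Cut := Cut.of [[⟨0, 0, 0, 67108864⟩, ⟨1, 1, 0, 67108864⟩, ⟨2, 1, 0, 67108864⟩]]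

noncomputable def f_pm_011 : ℕ → ℕ → ℕ → ℕ → Bool := onCell 0 536870912 536870912 536870912 402653184 67108864
    (rowF 1 true true false .pnn 0 1 1 (qsf 0 536870912 536870912 536870912 1) ndF0q0 ndF3q1 pcF1 cut_pm_011 Ext.none)

def k0_pm_011 : ∃ t, chk3 f_pm_011 t 1 2 1 = true :=
  ⟨(l 3), by decide +kernel⟩

def k1_pm_011 : ∃ t, chk3 f_pm_011 t 2 3 1 = true :=
  ⟨(b (l 3) (a (b (l 3) (a (b (l 3) (b (l 3) (a (l 6) (b (a (b (l 3) (l 6)) (b (a (l 3) (b (l 3) (a (l 3) (l 16742720)))) (b (a (a (l 132237967847) (l 16746992)) (a (l 16742768) (l 16738568))) (a (c (l 16755488) (l 16744816)) (l 16736656))))) (a (l 6) (a (b (a (l 6) (l 16736848)) (l 6)) (b (c (l 16741136) (l 16730512)) (l 16733048)))))))) (b (l 3) (b (a (b (l 3) (a (l 3) (b (l 3) (a (c (l 16739544) (l 16742688)) (l 16736200))))) (a (b (l 3) (a (b (a (l 3) (l 16717544)) (l 16711552)) (l 26474329399))) (b (a (l 3) (l 16727104)) (l 16712816)))) (a (b (a (a (a (b (a (l 16752144) (l 16739496)) (l 16732376)) (b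 (l 16746744) (l 16728168))) (b (c (l 16740072) (l 16740376)) (l 16742776))) (b (a (l 16742136) (l 16712488)) (a (l 16734224) (l 16725568)))) (a (b (b (l 16738400) (l 16737016)) (b (l 16732992) (l 16728960))) (b (l 16700976) (l 16692968)))) (b (a (a (l 16720760) (l 16711896)) (l 16697592)) (a (l 16687400) (l 16682464)))))))) (b (l 3) (b (a (a (l 3) (b (l 3) (b (l 3) (a (l 16721400) (l 16699008))))) (a (b (l 3) (b (a (c (l 24863703959) (l 16680600)) (c (l 16698992) (l 16668240))) (a (l 16686976) (l 16653688)))) (b (a (l 3) (b (l 3) (c (l 29695520679) (l 16661344)))) (b (a (l 16702584) (l 16668568)) (l 16676480))))) (a (b (a (b (a (l 16722680) (l 16704848)) (a (l 16699392) (l 16686408))) (a (b (l 16692432) (l 16673728)) (l 16691600))) (a (b (l 16685184) (l 16667176)) (b (l 16669864) (l 16630480)))) (a (b (b (l 16682552) (l 16642408)) (b (l 16623424) (l 16604632))) (b (l 16668096) (l 16608552)))))))), by decide +kernel⟩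

def k2_pm_011 : ∃ t, chk3 f_pm_011 t 3 3 1 = true :=
  ⟨(b (l 3) (a (b (a (l 3) (b (l 3) (b (l 3) (a (b (l 3) (a (l 44727828519) (l 16633064))) (b (a (l 51707072951) (l 47412239815)) (a (l 16598808) (l 16606088))))))) (a (b (a (b (b (a (l 3) (l 33990476727)) (a (l 32916725847) (l 16659736))) (a (l 16665632) (l 16629600))) (b (a (b (l 37211672919) (l 16622448)) (l 43654092743)) (a (l 16613168) (l 16574032)))) (a (b (l 16618664) (l 16558712)) (b (l 16564560) (l 16504440)))) (b (a (b (a (l 16636136) (l 16592168)) (l 16584520)) (b (a (l 16566320) (l 16554400)) (l 16512568))) (a (b (l 16523864) (l 16463944)) (b (l 16473456) (l 16435136)))))) (b (a (b (l 3) (a (b (b (l 3) (a (l 3) (l 54391554007))) (a (b (l 16671312) (l 16623736)) (b (l 16665280) (l 16641208)))) (b (a (b (l 3) (l 16703440)) (l 88080331127)) (a (l 16669744) (l 16686064))))) (b (l 1) (b (l 1) (a (l 91838407607) (l 1))))) (a (b (a (b (a (l 16577272) (l 16599312)) (l 16516224)) (b (l 16631200) (l 16572392)))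 (b (a (l 16425528) (l 16498928)) (l 16425016))) (b (a (b (l 16672448) (l 16624112)) (l 87543429559)) (a (l 16717544) (l 16698088))))))), by decide +kernel⟩

theorem s3_pm_011 : ∃ t, chk3 f_pm_011 t 1 3 1 = true := ex3_a k1_pm_011 k2_pm_011

theorem s4_pm_011 : ∃ t, chk3 f_pm_011 t 1 1 1 = true := ex3_b k0_pm_011 s3_pm_011

theorem c_pm_011 : CertF 0 536870912 536870912 536870912 402653184 67108864 true true false .pnn 0 1 1
    ndF0q0 ndF3q1 pcF1 cut_pm_011 Ext.none :=
  certF1 (fam := true) (s1 := true) (s2 := false) (a := 0) (b := 1) (c := 1) (cn := .pnn) (n1 := ndF0q0) (n2 := ndF3q1) (pc := pcF1) (cut := cut_pm_011) (xt := Ext.none) (P1 := 0) (W1 := 536870912) (P2 := 536870912) (W2 := 536870912) (P3 := 402653184) (W3 := 67108864)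
    rfl (fun _ => rfl) s4_pm_011

noncomputable def cut_pm_012 : Cut := Cut.of [[⟨0, 0, 0, 67108864⟩, ⟨1, 1, 0, 67108864⟩, ⟨2, 1, 0, 67108864⟩]]

noncomputable def f_pm_012 : ℕ → ℕ → ℕ → ℕ → Bool := onCell 1073741824 536870912 536870912 536870912 402653184 67108864
    (rowF 2 true true false .pnp 0 1 2 (qsf 0 536870912 536870912 536870912 2) ndF0q0 ndF3q1 pcF2 cut_pm_012 Ext.none)

def k0_pm_012 : ∃ t, chk3 f_pm_012 t 4 2 1 = true :=
  ⟨(b (a (b (a (b (a (b (l 16571776) (l 16534864)) (l 16575288)) (a (b (l 16515504) (l 16450184)) (l 16494968))) (b (a (l 16602728) (l 2)) (a (l 16521992) (l 16555392)))) (a (a (b (a (l 16499800) (l 16381544)) (l 16396648)) (b (l 16398056) (l 16304336))) (b (l 16507752) (l 16341880)))) (b (a (b (l 2) (l 16612688)) (l 2)) (a (b (l 16523320) (l 16419248)) (b (l 16615776) (l 16520480))))) (a (a (b (a (b (l 16436344) (l 16486888)) (b (l 16340136) (l 16385136))) (b (a (l 16528064) (l 16440992)) (a (l 16561656) (l 16457408)))) (b (b (l 16310624)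 (l 16346528)) (b (l 16389288) (l 16418624)))) (b (a (b (l 16340616) (l 16344200)) (b (l 16407208) (l 16370936))) (a (b (l 16352792) (l 16388512)) (b (l 16368568) (l 16370704)))))), by decide +kernel⟩

def k1_pm_012 : ∃ t, chk3 f_pm_012 t 8 3 1 = true :=
  ⟨(b (a (b (a (b (l 16611344) (a (l 16609752) (l 16580816))) (c (l 16578912) (l 16573264))) (a (b (a (b (l 16586408) (l 16619800)) (l 16584848)) (b (l 16659880) (l 16662160))) (b (l 16565608) (b (l 16557184) (l 16578824))))) (b (b (l 16452624) (l 16490744)) (a (b (l 16499824) (b (l 16530688) (l 16550728))) (b (l 16498280) (l 16556496))))) (b (a (a (a (b (b (l 16659560) (l 16676576)) (b (l 16695456) (l 16713744))) (b (l 16646112) (b (l 16658112) (c (l 16697256) (l 16696208))))) (b (b (l 16598584) (l 16658600)) (b (a (l 16642048) (l 16626288)) (a (l 16659192) (l 16642872))))) (b (a (b (l 16569208) (l 16586064)) (b (l 16540816) (l 16556480))) (b (a (l 16602464) (l 16571712)) (a (a (l 16626464) (l 16610208)) (l 16586504)))))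 (a (b (a (a (b (b (l 16716624) (l 16725336)) (l 6)) (b (b (l 16688752) (l 16718136)) (b (a (l 6) (l 16700800)) (l 6)))) (b (a (b (l 16671688) (l 16679816)) (l 16679848)) (a (b (l 16687600) (l 16705712)) (b (l 16670304) (l 16677640))))) (a (l 6) (b (a (l 6) (b (a (l 6) (l 16680448)) (l 6))) (l 6)))) (b (b (a (a (l 16641944) (l 16625168)) (b (l 16597232) (l 16604176))) (a (b (a (l 16652968) (l 16635808)) (a (l 16660040) (l 16642608))) (b (l 16610768) (l 16638152)))) (b (a (b (a (l 16666992) (l 16649304)) (a (b (l 16672144) (l 6)) (l 16676856))) (b (a (l 16632008) (l 16615064)) (a (l 16638320) (l 16621112)))) (a (b (a (l 6) (b (l 16660744) (l 6))) (l 6)) (b (a (b (l 16642984) (l 16646056)) (l 16648016)) (a (b (l 16649096) (l 6)) (b (l 16631424) (c (l 16638840) (l 16629560))))))))))), by decide +kernel⟩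

def k2_pm_012 : ∃ t, chk3 f_pm_012 t 9 3 1 = true :=
  ⟨(b (b (a (b (l 16431104) (l 16457072)) (b (l 16378552) (l 16392880))) (a (b (l 16507968) (a (l 16489184) (l 16464680))) (b (l 16411376) (l 16517728)))) (b (a (b (a (l 16541120) (l 16492320)) (a (b (l 16541408) (l 16555080)) (b (l 16511480) (l 16524024)))) (b (a (l 16467248) (l 16445312)) (b (l 16492592) (l 16544952)))) (b (a (b (a (l 16568312) (l 16536168)) (a (b (l 16577648) (l 16583576)) (l 16568504))) (b (a (l 16506256) (l 16478896)) (a (l 16516504) (l 16487968)))) (a (b (a (b (l 16589376) (a (l 16603824) (l 16586432))) (b (l 16555600) (l 16560816))) (a (b (a (l 16609504) (l 16591880)) (a (b (l 16613688) (l 16616440)) (c (l 16602664) (l 16591480)))) (b (l 16597368) (a (l 16600496) (l 16562376))))) (b (a (b (l 16523856) (l 16528584)) (l 16517504)) (a (b (l 16533184) (c (l 16544696) (l 16530280))) (b (l 16502752) (l 16527688)))))))), by decide +kernel⟩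

def k3_pm_012 : ∃ t, chk3 f_pm_012 t 5 1 1 = true :=
  ⟨(b (b (a (b (l 2) (a (l 16670616) (l 2))) (l 2)) (a (b (a (a (l 16438448) (b (l 16558296) (l 16442832))) (l 16597472)) (a (a (l 16384392) (a (l 16394592) (l 16401184))) (l 16414728))) (b (a (l 16713960) (l 2)) (a (l 16508400) (l 16649840))))) (b (a (a (b (a (l 16382496) (a (l 16384864) (l 16408384))) (a (b (l 16396048) (l 16410976)) (a (l 16396712) (a (l 16394976) (l 16395472))))) (b (l 16396512) (b (l 16388624) (l 16390360)))) (b (a (l 16414152) (l 16432024)) (b (l 16422104) (a (l 16381528) (l 16388120))))) (a (b (a (a (b (l 16426824) (l 16442416)) (b (a (l 16415568) (l 16410600)) (a (l 16428360) (l 16463488)))) (b (l 16393944) (l 16420656))) (a (a (b (b (l 16454600) (l 16462240)) (b (l 16469600) (b (l 16474904) (l 16478336)))) (b (a (l 16441904) (b (l 16430632) (l 16478336))) (a (b (l 16451496) (l 16457600)) (b (a (l 16443656) (l 16439568)) (a (l 16449216) (a (l 16445864) (l 16443888))))))) (b (b (l 16405480)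 (l 16409232)) (b (a (l 16425136) (l 16401328)) (b (l 16436680) (a (l 16430552) (l 16404992))))))) (b (b (a (l 16374568) (l 16368440)) (a (l 16369776) (l 16352968))) (b (a (b (l 16369200) (l 16369160)) (b (l 16344000) (l 16339320))) (a (b (a (l 16379536) (l 16359984)) (a (l 16422832) (l 16380568))) (b (l 16356280) (a (l 16340584) (l 16324120))))))))), by decide +kernel⟩

def k4_pm_012 : ∃ t, chk3 f_pm_012 t 3 1 1 = true :=
  ⟨(b (a (b (l 2) (a (b (l 2) (a (l 16771280) (l 2))) (l 2))) (l 2)) (a (b (a (b (a (l 16569832) (l 16714664)) (b (a (l 16430040) (l 16540192)) (a (l 16408776) (l 16425136)))) (b (a (l 16833824) (l 2)) (a (b (l 16697952) (l 16577560)) (b (l 16829360) (l 16738784))))) (a (b (b (a (l 16378624) (l 16401040)) (a (l 16350152) (l 16364592))) (b (a (b (l 16332800) (l 16322096)) (b (l 16337296) (l 16320464))) (a (b (l 16312864) (a (l 16310480) (l 16299968))) (b (l 16347104) (a (l 16292936) (l 16310752)))))) (b (a (b (l 16428336) (a (l 16385112) (l 16396112)))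 (b (l 16622216) (l 16474304))) (b (a (a (l 16341480) (l 16355352)) (a (l 16375800) (l 16397504))) (a (b (a (l 16310152) (l 16319280)) (a (c (l 16314272) (l 16266944)) (c (l 16321648) (l 16270608)))) (b (a (l 16339328) (l 16370152)) (a (l 16334096) (l 16341536)))))))) (b (a (b (l 2) (a (b (l 2) (l 16869784)) (l 2))) (l 2)) (a (b (a (b (l 16784528) (l 16674120)) (b (l 16909808) (l 16830344))) (a (b (l 16453928) (a (b (l 16395936) (b (l 16382840) (l 16369288))) (b (l 16474016) (l 16398976)))) (b (a (l 16685928) (l 16768600)) (b (l 16406104) (a (l 16508944) (l 16618888)))))) (b (a (b (l 2) (l 16947072)) (l 2)) (a (b (a (l 16841752) (l 16903888)) (a (l 16678008) (l 16817360))) (b (l 16938816) (a (l 16850264) (l 16857352))))))))), by decide +kernel⟩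

theorem s5_pm_012 : ∃ t, chk3 f_pm_012 t 4 3 1 = true := ex3_a k1_pm_012 k2_pm_012

theorem s6_pm_012 : ∃ t, chk3 f_pm_012 t 4 1 1 = true := ex3_b k0_pm_012 s5_pm_012

theorem s7_pm_012 : ∃ t, chk3 f_pm_012 t 2 1 1 = true := ex3_a s6_pm_012 k3_pm_012

theorem s8_pm_012 : ∃ t, chk3 f_pm_012 t 1 1 1 = true := ex3_a s7_pm_012 k4_pm_012

theorem c_pm_012 : CertF 0 536870912 536870912 536870912 402653184 67108864 true true false .pnp 0 1 2
    ndF0q0 ndF3q1 pcF2 cut_pm_012 Ext.none :=
  certF2 (fam := true) (s1 := true) (s2 := false) (a := 0) (b := 1) (c := 2) (cn := .pnp) (n1 := ndF0q0) (n2 := ndF3q1) (pc := pcF2) (cut := cut_pm_012) (xt := Ext.none) (P1 := 0) (W1 := 536870912) (P2 := 536870912) (W2 := 536870912) (P3 := 402653184) (W3 := 67108864)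
    rfl (fun _ => rfl) s8_pm_012

noncomputable def f_pm_022 : ℕ → ℕ → ℕ → ℕ → Bool := onCell 0 536870912 1073741824 536870912 402653184 67108864
    (rowF 1 true true false .pp 0 2 2 (qsf 0 536870912 1073741824 536870912 2) ndF0q0 ndF3q2 pcF2 Cut.none Ext.none)

def k0_pm_022 : ∃ t, chk3 f_pm_022 t 1 1 1 = true :=
  ⟨(a (b (b (l 3) (b (b (b (l 3) (b (l 3) (b (l 3) (a (b (a (l 16489488) (l 3)) (a (l 16484072) (l 16522096))) (a (b (l 3) (l 16564368)) (l 1)))))) (a (a (l 16436112) (l 16495584)) (a (a (l 16485408) (l 16549832)) (b (l 1) (l 16623952))))) (a (a (l 16392360) (l 16386232)) (a (b (l 16425696) (l 16376224)) (b (l 122976499399) (l 16381096)))))) (b (a (a (b (l 16328440) (l 16250152)) (b (l 16326616) (l 16276040))) (a (b (l 16333928) (l 16287448)) (b (l 16338416) (l 16294256)))) (a (a (b (l 16196560) (b (l 16157464) (l 16260320))) (l 16252280)) (a (l 16232128) (l 16250712))))) (b (b (l 1) (b (l 1) (a (a (b (l 1) (l 124050034183)) (l 1)) (l 1)))) (a (b (a (b (l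 16413552) (l 16309024)) (b (l 84321604727) (l 93985291783))) (a (l 16352856) (b (l 16320704) (l 16546888)))) (b (a (b (l 1) (l 118144427703)) (l 1)) (a (b (l 125660694935) (l 16631664)) (b (l 136398270583) (a (l 16704392) (l 162168352135)))))))), by decide +kernel⟩

theorem c_pm_022 : CertF 0 536870912 1073741824 536870912 402653184 67108864 true true false .pp 0 2 2
    ndF0q0 ndF3q2 pcF2 Cut.none Ext.none :=
  certF1 (fam := true) (s1 := true) (s2 := false) (a := 0) (b := 2) (c := 2) (cn := .pp) (n1 := ndF0q0) (n2 := ndF3q2) (pc := pcF2) (cut := Cut.none) (xt := Ext.none) (P1 := 0) (W1 := 536870912) (P2 := 1073741824) (W2 := 536870912) (P3 := 402653184) (W3 := 67108864)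
    rfl (fun _ => rfl) k0_pm_022

noncomputable def f_pm_023 : ℕ → ℕ → ℕ → ℕ → Bool := onCell 0 536870912 1073741824 536870912 402653184 67108864
    (rowF 0 true true false .up 0 2 3 (qsf 0 536870912 1073741824 536870912 3) ndF0q0 ndF3q2 pcF3 Cut.none Ext.none)

def k0_pm_023 : ∃ t, chk3 f_pm_023 t 1 1 1 = true :=
  ⟨(a (b (a (l 1) (b (l 1) (l 154114617463))) (b (a (l 153578033591) (l 92374738423)) (a (b (l 164852070023) (a (l 144450940503) (l 16640496))) (a (b (l 16703096) (l 16877488)) (l 16967648))))) (b (a (b (a (l 1) (l 175052778247)) (a (l 16482592) (l 16750448))) (a (b (l 176126743479) (l 16918040)) (b (a (l 16766288) (l 16873824)) (l 17012712)))) (a (b (l 16944056) (b (l 17065376) (l 17099040))) (b (l 17077232) (b (l 17094064) (a (l 17094072) (a (l 17075232) (b (l 17063960) (a (l 17058984) (b (l 17052752) (l 17046864))))))))))), by decide +kernel⟩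

theorem c_pm_023 : CertF 0 536870912 1073741824 536870912 402653184 67108864 true true false .up 0 2 3
    ndF0q0 ndF3q2 pcF3 Cut.none Ext.none :=
  certF0 (fam := true) (s1 := true) (s2 := false) (a := 0) (b := 2) (c := 3) (cn := .up) (n1 := ndF0q0) (n2 := ndF3q2) (pc := pcF3) (cut := Cut.none) (xt := Ext.none) (P1 := 0) (W1 := 536870912) (P2 := 1073741824) (W2 := 536870912) (P3 := 402653184) (W3 := 67108864)
    rfl k0_pm_023

noncomputable def f_pm_033 : ℕ → ℕ → ℕ → ℕ → Bool := onCell 1610612736 536870912 0 1230186008 402653184 67108864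
    (rowF 2 true true false .pnn 0 3 3 (qsf 0 536870912 0 1230186008 3) ndF0q0 ndF3q3 pcF3 Cut.none Ext.none)

def k0_pm_033 : ∃ t, chk3 f_pm_033 t 1 1 1 = true :=
  ⟨(a (b (l 1) (b (a (l 1) (b (l 1) (a (l 1) (l 17183080)))) (b (a (l 1) (a (b (l 17104976) (l 17035552)) (l 17099088))) (a (a (b (l 1) (b (l 295311776679) (l 16533712))) (b (l 16861600) (l 16816808))) (a (a (l 17168272) (l 16986872)) (l 17267584)))))) (a (b (l 1) (b (a (b (l 1) (l 17163000)) (b (l 17171392) (l 17130256))) (b (a (l 17148056) (l 17098416)) (b (l 17122008) (l 17271800))))) (b (b (l 4) (l 4)) (a (b (b (l 17107512) (l 17087120)) (b (l 17073120) (b (l 17058568) (l 17038984)))) (b (a (l 17060176) (l 4)) (a (b (l 17048008) (l 17025648)) (b (a (l 17033464) (l 4)) (a (l 17012568) (b (l 17008768) (l 16989928)))))))))), by decide +kernel⟩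

theorem c_pm_033 : CertF 0 536870912 0 1230186008 402653184 67108864 true true false .pnn 0 3 3
    ndF0q0 ndF3q3 pcF3 Cut.none Ext.none :=
  certF2 (fam := true) (s1 := true) (s2 := false) (a := 0) (b := 3) (c := 3) (cn := .pnn) (n1 := ndF0q0) (n2 := ndF3q3) (pc := pcF3) (cut := Cut.none) (xt := Ext.none) (P1 := 0) (W1 := 536870912) (P2 := 0) (W2 := 1230186008) (P3 := 402653184) (W3 := 67108864)
    rfl (fun _ => rfl) k0_pm_033

noncomputable def f_pm_101 : ℕ → ℕ → ℕ → ℕ → Bool := onCell 536870912 536870912 536870912 536870912 402653184 67108864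
    (rowF 1 true true false .npn 1 0 1 (qsf 536870912 536870912 0 536870912 1) ndF0q1 ndF3q0 pcF1 Cut.none Ext.none)

def k0_pm_101 : ∃ t, chk3 f_pm_101 t 2 1 1 = true :=
  ⟨(b (a (l 3) (b (a (b (l 1) (l 3)) (l 1)) (l 3))) (b (a (l 3) (b (l 3) (b (l 3) (a (a (l 97878809975) (l 70498454535)) (a (l 72109100695) (b (l 78551519351) (l 17044952))))))) (a (a (b (b (a (b (l 3) (a (l 84456755575) (l 87677950423))) (b (l 276656618263) (a (l 16926224) (l 16934896)))) (a (b (a (l 16901120) (l 16906936)) (l 16890816)) (b (l 16919064) (l 16906656)))) (b (a (l 16868184) (l 16884872)) (a (l 16829480) (l 16846584)))) (b (b (a (b (l 89825541287) (l 16948792)) (l 16972528)) (a (l 16932840) (l 16953576))) (b (l 16919168) (l 16885144)))) (b (a (b (a (l 16990264) (l 17006048)) (l 16982360)) (b (a (l 17019120) (l 17028496)) (l 17011096))) (a (b (l 16965448) (l 16940424)) (b (l 17001440) (l 16987200))))))), by decide +kernel⟩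

def k1_pm_101 : ∃ t, chk3 f_pm_101 t 3 1 1 = true :=
  ⟨(b (a (b (l 1) (a (b (l 1) (l 3)) (l 1))) (l 1)) (a (b (b (l 3) (a (b (l 3) (a (b (l 81235904391) (l 17050904)) (a (l 80162190807) (b (l 17069400) (l 17051568))))) (b (b (l 3) (b (l 3) (b (a (l 3) (l 1)) (a (a (l 3) (a (l 3) (a (l 3) (l 320680288951)))) (a (l 907345998631) (l 1)))))) (b (b (a (a (l 17073096) (l 17113240)) (a (c (l 315177492743) (b (l 742526610727) (l 135325652471))) (l 1))) (a (l 17061248) (a (l 17054288) (l 419867311863)))) (a (l 17047656) (l 17057696)))))) (b (a (b (a (l 17033584) (l 17033656)) (l 17022240)) (b (a (l 17027864) (l 17015472)) (l 17009384))) (a (b (l 17018464) (l 17014904)) (b (l 17009152) (l 17014912))))) (b (a (a (b (l 1) (b (l 1) (l 703871846535))) (l 1)) (l 1)) (b (a (b (a (l 16996080) (l 431678540087)) (a (l 16980816) (l 16953048))) (b (l 1) (l 17087168))) (a (a (l 16985816) (l 16957440)) (b (l 16896800) (l 16910232))))))), by decide +kernel⟩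

theorem s2_pm_101 : ∃ t, chk3 f_pm_101 t 1 1 1 = true := ex3_a k0_pm_101 k1_pm_101

theorem c_pm_101 : CertF 536870912 536870912 0 536870912 402653184 67108864 true true false .npn 1 0 1
    ndF0q1 ndF3q0 pcF1 Cut.none Ext.none :=
  certF1 (fam := true) (s1 := true) (s2 := false) (a := 1) (b := 0) (c := 1) (cn := .npn) (n1 := ndF0q1) (n2 := ndF3q0) (pc := pcF1) (cut := Cut.none) (xt := Ext.none) (P1 := 536870912) (W1 := 536870912) (P2 := 0) (W2 := 536870912) (P3 := 402653184) (W3 := 67108864)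
    rfl (fun _ => rfl) s2_pm_101

noncomputable def f_pm_102 : ℕ → ℕ → ℕ → ℕ → Bool := onCell 536870912 536870912 1073741824 536870912 402653184 67108864
    (rowF 1 true true false .npp 1 0 2 (qsf 536870912 536870912 0 536870912 2) ndF0q1 ndF3q0 pcF2 Cut.none Ext.none)

def k0_pm_102 : ∃ t, chk3 f_pm_102 t 1 1 1 = true :=
  ⟨(a (b (a (b (b (a (b (a (l 16806672) (l 16824936)) (l 16784488)) (a (l 16835448) (l 16866248))) (a (l 66136246135) (l 16817120))) (a (l 2) (l 16815024))) (b (b (a (b (l 16927496) (l 16901896)) (b (l 16981952) (l 16958840))) (a (l 16886600) (l 16949528))) (a (l 16899160) (l 16976776)))) (b (a (l 2) (b (l 16963768) (l 2))) (l 2))) (b (b (a (b (a (b (l 17018584) (l 16999040)) (l 17124328)) (a (l 16997376) (l 17024192))) (a (b (b (l 17004568) (l 17000584)) (l 17029040)) (a (b (l 16970544) (l 17033936)) (b (l 16934416) (l 17078584))))) (a (b (l 17048224) (l 17088488)) (a (b (l 17092544) (l 17152376)) (b (a (l 17117528) (l 17160296)) (l 17191976)))))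 (b (a (b (l 17120360) (l 17138360)) (b (a (l 17193888) (l 17227360)) (l 17227080))) (a (b (l 17137024) (l 2)) (b (l 17225264) (l 17205608)))))), by decide +kernel⟩

theorem c_pm_102 : CertF 536870912 536870912 0 536870912 402653184 67108864 true true false .npp 1 0 2
    ndF0q1 ndF3q0 pcF2 Cut.none Ext.none :=
  certF1 (fam := true) (s1 := true) (s2 := false) (a := 1) (b := 0) (c := 2) (cn := .npp) (n1 := ndF0q1) (n2 := ndF3q0) (pc := pcF2) (cut := Cut.none) (xt := Ext.none) (P1 := 536870912) (W1 := 536870912) (P2 := 0) (W2 := 536870912) (P3 := 402653184) (W3 := 67108864)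
    rfl (fun _ => rfl) k0_pm_102

noncomputable def f_pm_112 : ℕ → ℕ → ℕ → ℕ → Bool := onCell 536870912 536870912 1073741824 536870912 402653184 67108864
    (rowF 1 true true false .dn 1 1 2 (qsf 536870912 536870912 536870912 536870912 2) ndF0q1 ndF3q1 pcF2 Cut.none Ext.none)

def k0_pm_112 : ∃ t, chk3 f_pm_112 t 1 1 1 = true :=
  ⟨(a (b (a (b (b (a (a (a (b (l 16581872) (l 16559352)) (l 163242006647)) (l 171831944439)) (l 299070668135)) (a (a (l 16589792) (l 16652928)) (l 16757968))) (a (b (l 16635912) (l 16683472)) (b (l 16790960) (l 16838952)))) (a (b (l 293165229543) (l 16928688)) (b (l 1) (l 17020128)))) (b (a (b (a (l 16744416) (l 16894224)) (a (b (l 16793152) (l 16829640)) (l 16951792))) (b (l 17046352) (a (l 17052016) (l 17128584)))) (a (b (a (a (l 16850704) (l 16926176)) (l 17013360)) (a (b (l 16947360) (a (l 16898568) (l 16977368))) (b (l 17058288) (l 17067520)))) (b (a (l 17101768) (l 17169936)) (a (l 17146304) (l 17209208)))))) (b (a (b (l 1) (l 260954034615))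 (l 1)) (b (a (b (l 17186416) (l 17219016)) (b (l 1) (l 17287296))) (a (b (l 17245624) (l 17267792)) (l 17447080))))), by decide +kernel⟩

theorem c_pm_112 : CertF 536870912 536870912 536870912 536870912 402653184 67108864 true true false .dn 1 1 2
    ndF0q1 ndF3q1 pcF2 Cut.none Ext.none :=
  certF1 (fam := true) (s1 := true) (s2 := false) (a := 1) (b := 1) (c := 2) (cn := .dn) (n1 := ndF0q1) (n2 := ndF3q1) (pc := pcF2) (cut := Cut.none) (xt := Ext.none) (P1 := 536870912) (W1 := 536870912) (P2 := 536870912) (W2 := 536870912) (P3 := 402653184) (W3 := 67108864)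
    rfl (fun _ => rfl) k0_pm_112

noncomputable def f_pm_113 : ℕ → ℕ → ℕ → ℕ → Bool := onCell 536870912 536870912 1610612736 536870912 402653184 67108864
    (rowF 1 true true false .nn 1 1 3 (qsf 536870912 536870912 536870912 536870912 3) ndF0q1 ndF3q1 pcF3 Cut.none Ext.none)

def k0_pm_113 : ∃ t, chk3 f_pm_113 t 1 1 1 = true :=
  ⟨(b (a (b (a (a (b (a (l 17009840) (l 17082760)) (l 267999750663)) (b (l 17159264) (l 17210704))) (a (b (l 17223168) (l 17270832)) (b (l 17259088) (l 17303120)))) (a (a (l 2) (b (l 17277216) (l 2))) (b (a (l 17331736) (l 17351048)) (l 17436088)))) (b (a (b (l 17274632) (l 17296352)) (b (l 17243736) (l 17231256))) (a (b (l 17316456) (l 17336280)) (b (l 17216224) (l 17202216))))) (a (b (a (l 2) (b (l 351753047287) (l 2))) (l 2)) (a (b (b (l 17355616) (l 17376456)) (l 4)) (l 4)))), by decide +kernel⟩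

theorem c_pm_113 : CertF 536870912 536870912 536870912 536870912 402653184 67108864 true true false .nn 1 1 3
    ndF0q1 ndF3q1 pcF3 Cut.none Ext.none :=
  certF1 (fam := true) (s1 := true) (s2 := false) (a := 1) (b := 1) (c := 3) (cn := .nn) (n1 := ndF0q1) (n2 := ndF3q1) (pc := pcF3) (cut := Cut.none) (xt := Ext.none) (P1 := 536870912) (W1 := 536870912) (P2 := 536870912) (W2 := 536870912) (P3 := 402653184) (W3 := 67108864)
    rfl (fun _ => rfl) k0_pm_113

noncomputable def f_pm_123 : ℕ → ℕ → ℕ → ℕ → Bool := onCell 536870912 536870912 1610612736 536870912 402653184 67108864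
    (rowF 1 true true false .npn 1 2 3 (qsf 536870912 536870912 1073741824 536870912 3) ndF0q1 ndF3q2 pcF3 Cut.none Ext.none)

def k0_pm_123 : ∃ t, chk3 f_pm_123 t 1 1 1 = true :=
  ⟨(b (a (a (b (a (a (l 234109508119) (l 238404526871)) (b (l 240015201975) (l 251826568295))) (a (l 17042456) (l 17052512))) (b (a (b (l 1) (l 264175101719)) (l 1)) (a (b (l 17084592) (l 17081248)) (l 266859635703)))) (a (a (b (l 1) (l 252364200391)) (l 1)) (l 1))) (b (a (a (l 17214880) (a (l 17061816) (l 17074336))) (b (a (a (l 17115864) (l 17117480)) (l 1)) (a (l 17061208) (a (l 17047880) (l 1))))) (b (a (a (l 17053240) (l 17022608)) (a (a (l 17005384) (l 16993528)) (a (l 16978728) (l 16943512)))) (a (b (a (l 17039184) (l 17000696)) (a (b (l 17031528) (b (l 17027568) (l 17024424))) (b (l 16990040) (b (l 16985568) (a (l 16995288) (l 16972976)))))) (b (a (l 17210504) (l 16918984)) (a (b (l 16942944) (b (l 16937488) (b (l 16937496) (l 4)))) (b (l 16901208) (l 4)))))))), by decide +kernel⟩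

theorem c_pm_123 : CertF 536870912 536870912 1073741824 536870912 402653184 67108864 true true false .npn 1 2 3
    ndF0q1 ndF3q2 pcF3 Cut.none Ext.none :=
  certF1 (fam := true) (s1 := true) (s2 := false) (a := 1) (b := 2) (c := 3) (cn := .npn) (n1 := ndF0q1) (n2 := ndF3q2) (pc := pcF3) (cut := Cut.none) (xt := Ext.none) (P1 := 536870912) (W1 := 536870912) (P2 := 1073741824) (W2 := 536870912) (P3 := 402653184) (W3 := 67108864)
    rfl (fun _ => rfl) k0_pm_123

noncomputable def f_pm_133 : ℕ → ℕ → ℕ → ℕ → Bool := onCell 536870912 536870912 0 1230186008 402653184 67108864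
    (rowF 0 true true false .dn 1 3 3 (qsf 536870912 536870912 0 1230186008 3) ndF0q1 ndF3q3 pcF3 Cut.none Ext.none)

def k0_pm_133 : ∃ t, chk3 f_pm_133 t 1 1 1 = true :=
  ⟨(b (l 2) (b (l 2) (a (b (l 2) (a (b (l 2) (l 4)) (l 2))) (l 2)))), by decide +kernel⟩

theorem c_pm_133 : CertF 536870912 536870912 0 1230186008 402653184 67108864 true true false .dn 1 3 3
    ndF0q1 ndF3q3 pcF3 Cut.none Ext.none :=
  certF0 (fam := true) (s1 := true) (s2 := false) (a := 1) (b := 3) (c := 3) (cn := .dn) (n1 := ndF0q1) (n2 := ndF3q3) (pc := pcF3) (cut := Cut.none) (xt := Ext.none) (P1 := 536870912) (W1 := 536870912) (P2 := 0) (W2 := 1230186008) (P3 := 402653184) (W3 := 67108864)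
    rfl k0_pm_133

noncomputable def f_pm_202 : ℕ → ℕ → ℕ → ℕ → Bool := onCell 0 536870912 1073741824 536870912 402653184 67108864
    (rowF 1 true true false .pp 2 0 2 (qsf 0 536870912 0 536870912 2) ndF0q2 ndF3q0 pcF2 Cut.none Ext.none)

def k0_pm_202 : ∃ t, chk3 f_pm_202 t 1 1 1 = true :=
  ⟨(a (b (b (b (l 1) (a (l 1) (a (l 1) (l 16672248)))) (b (a (b (l 16689472) (l 16768464)) (b (l 16770840) (l 16845856))) (a (l 16872560) (l 16950984)))) (b (b (a (l 16987752) (l 17073048)) (l 17329736)) (b (l 17079000) (l 4)))) (b (b (a (b (l 1) (a (l 16737768) (l 16809400))) (b (a (b (l 1) (l 16808728)) (a (b (l 16841096) (l 16881608)) (b (l 16892992) (l 16934288)))) (a (b (l 16870080) (l 16937184)) (b (l 16965144) (l 17041032))))) (a (b (a (l 16895344) (l 16965536)) (l 17074552)) (b (a (l 17051640) (l 17178080)) (l 17290656)))) (b (a (l 17403016) (b (l 17252928) (l 17237512))) (b (l 17294552) (l 17153544))))), by decide +kernel⟩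

theorem c_pm_202 : CertF 0 536870912 0 536870912 402653184 67108864 true true false .pp 2 0 2
    ndF0q2 ndF3q0 pcF2 Cut.none Ext.none :=
  certF1 (fam := true) (s1 := true) (s2 := false) (a := 2) (b := 0) (c := 2) (cn := .pp) (n1 := ndF0q2) (n2 := ndF3q0) (pc := pcF2) (cut := Cut.none) (xt := Ext.none) (P1 := 0) (W1 := 536870912) (P2 := 0) (W2 := 536870912) (P3 := 402653184) (W3 := 67108864)
    rfl (fun _ => rfl) k0_pm_202

noncomputable def f_pm_203 : ℕ → ℕ → ℕ → ℕ → Bool := onCell 0 536870912 1610612736 536870912 402653184 67108864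
    (rowF 1 true true false .up 2 0 3 (qsf 0 536870912 0 536870912 3) ndF0q2 ndF3q0 pcF3 Cut.none Ext.none)

def k0_pm_203 : ∃ t, chk3 f_pm_203 t 1 1 1 = true :=
  ⟨(b (a (l 4) (b (b (l 17318824) (l 17179848)) (l 4))) (l 2)), by decide +kernel⟩

theorem c_pm_203 : CertF 0 536870912 0 536870912 402653184 67108864 true true false .up 2 0 3
    ndF0q2 ndF3q0 pcF3 Cut.none Ext.none :=
  certF1 (fam := true) (s1 := true) (s2 := false) (a := 2) (b := 0) (c := 3) (cn := .up) (n1 := ndF0q2) (n2 := ndF3q0) (pc := pcF3) (cut := Cut.none) (xt := Ext.none) (P1 := 0) (W1 := 536870912) (P2 := 0) (W2 := 536870912) (P3 := 402653184) (W3 := 67108864)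
    rfl (fun _ => rfl) k0_pm_203

noncomputable def f_pm_213 : ℕ → ℕ → ℕ → ℕ → Bool := onCell 0 536870912 1610612736 536870912 402653184 67108864
    (rowF 1 true true false .pnn 2 1 3 (qsf 0 536870912 536870912 536870912 3) ndF0q2 ndF3q1 pcF3 Cut.none Ext.none)

def k0_pm_213 : ∃ t, chk3 f_pm_213 t 1 1 1 = true :=
  ⟨(b (a (l 4) (b (b (l 17140480) (l 17116720)) (l 4))) (l 4)), by decide +kernel⟩

theorem c_pm_213 : CertF 0 536870912 536870912 536870912 402653184 67108864 true true false .pnn 2 1 3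
    ndF0q2 ndF3q1 pcF3 Cut.none Ext.none :=
  certF1 (fam := true) (s1 := true) (s2 := false) (a := 2) (b := 1) (c := 3) (cn := .pnn) (n1 := ndF0q2) (n2 := ndF3q1) (pc := pcF3) (cut := Cut.none) (xt := Ext.none) (P1 := 0) (W1 := 536870912) (P2 := 536870912) (W2 := 536870912) (P3 := 402653184) (W3 := 67108864)
    rfl (fun _ => rfl) k0_pm_213

noncomputable def f_mm_001 : ℕ → ℕ → ℕ → ℕ → Bool := onCell 0 536870912 0 536870912 402653184 67108864
    (rowF 0 true false false .up 0 0 1 (qsf 0 536870912 0 536870912 1) ndF0q0 ndF3q0 pcF1 Cut.none Ext.none)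

def k0_mm_001 : ∃ t, chk3 f_mm_001 t 1 1 1 = true :=
  ⟨(l 4), by decide +kernel⟩

theorem c_mm_001 : CertF 0 536870912 0 536870912 402653184 67108864 true false false .up 0 0 1
    ndF0q0 ndF3q0 pcF1 Cut.none Ext.none :=
  certF0 (fam := true) (s1 := false) (s2 := false) (a := 0) (b := 0) (c := 1) (cn := .up) (n1 := ndF0q0) (n2 := ndF3q0) (pc := pcF1) (cut := Cut.none) (xt := Ext.none) (P1 := 0) (W1 := 536870912) (P2 := 0) (W2 := 536870912) (P3 := 402653184) (W3 := 67108864)
    rfl k0_mm_001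

noncomputable def f_mm_011 : ℕ → ℕ → ℕ → ℕ → Bool := onCell 0 536870912 536870912 536870912 402653184 67108864
    (rowF 0 true false false .pnn 0 1 1 (qsf 0 536870912 536870912 536870912 1) ndF0q0 ndF3q1 pcF1 Cut.none Ext.none)

def k0_mm_011 : ∃ t, chk3 f_mm_011 t 1 1 1 = true :=
  ⟨(l 4), by decide +kernel⟩

theorem c_mm_011 : CertF 0 536870912 536870912 536870912 402653184 67108864 true false false .pnn 0 1 1
    ndF0q0 ndF3q1 pcF1 Cut.none Ext.none :=
  certF0 (fam := true) (s1 := false) (s2 := false) (a := 0) (b := 1) (c := 1) (cn := .pnn) (n1 := ndF0q0) (n2 := ndF3q1) (pc := pcF1) (cut := Cut.none) (xt := Ext.none) (P1 := 0) (W1 := 536870912) (P2 := 536870912) (W2 := 536870912) (P3 := 402653184) (W3 := 67108864)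
    rfl k0_mm_011

noncomputable def f_mm_012 : ℕ → ℕ → ℕ → ℕ → Bool := onCell 0 536870912 536870912 536870912 402653184 67108864
    (rowF 0 true false false .pnp 0 1 2 (qsf 0 536870912 536870912 536870912 2) ndF0q0 ndF3q1 pcF2 Cut.none Ext.none)

def k0_mm_012 : ∃ t, chk3 f_mm_012 t 1 1 1 = true :=
  ⟨(l 4), by decide +kernel⟩

theorem c_mm_012 : CertF 0 536870912 536870912 536870912 402653184 67108864 true false false .pnp 0 1 2
    ndF0q0 ndF3q1 pcF2 Cut.none Ext.none :=
  certF0 (fam := true) (s1 := false) (s2 := false) (a := 0) (b := 1) (c := 2) (cn := .pnp) (n1 := ndF0q0) (n2 := ndF3q1) (pc := pcF2) (cut := Cut.none) (xt := Ext.none) (P1 := 0) (W1 := 536870912) (P2 := 536870912) (W2 := 536870912) (P3 := 402653184) (W3 := 67108864)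
    rfl k0_mm_012

noncomputable def f_mm_022 : ℕ → ℕ → ℕ → ℕ → Bool := onCell 0 536870912 1073741824 536870912 402653184 67108864
    (rowF 0 true false false .pp 0 2 2 (qsf 0 536870912 1073741824 536870912 2) ndF0q0 ndF3q2 pcF2 Cut.none Ext.none)

def k0_mm_022 : ∃ t, chk3 f_mm_022 t 1 1 1 = true :=
  ⟨(l 4), by decide +kernel⟩

theorem c_mm_022 : CertF 0 536870912 1073741824 536870912 402653184 67108864 true false false .pp 0 2 2
    ndF0q0 ndF3q2 pcF2 Cut.none Ext.none :=
  certF0 (fam := true) (s1 := false) (s2 := false) (a := 0) (b := 2) (c := 2) (cn := .pp) (n1 := ndF0q0) (n2 := ndF3q2) (pc := pcF2) (cut := Cut.none) (xt := Ext.none) (P1 := 0) (W1 := 536870912) (P2 := 1073741824) (W2 := 536870912) (P3 := 402653184) (W3 := 67108864)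
    rfl k0_mm_022

noncomputable def f_mm_023 : ℕ → ℕ → ℕ → ℕ → Bool := onCell 0 536870912 1073741824 536870912 402653184 67108864
    (rowF 0 true false false .up 0 2 3 (qsf 0 536870912 1073741824 536870912 3) ndF0q0 ndF3q2 pcF3 Cut.none Ext.none)

def k0_mm_023 : ∃ t, chk3 f_mm_023 t 1 1 1 = true :=
  ⟨(l 4), by decide +kernel⟩

theorem c_mm_023 : CertF 0 536870912 1073741824 536870912 402653184 67108864 true false false .up 0 2 3
    ndF0q0 ndF3q2 pcF3 Cut.none Ext.none :=
  certF0 (fam := true) (s1 := false) (s2 := false) (a := 0) (b := 2) (c := 3) (cn := .up) (n1 := ndF0q0) (n2 := ndF3q2) (pc := pcF3) (cut := Cut.none) (xt := Ext.none) (P1 := 0) (W1 := 536870912) (P2 := 1073741824) (W2 := 536870912) (P3 := 402653184) (W3 := 67108864)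
    rfl k0_mm_023

noncomputable def f_mm_033 : ℕ → ℕ → ℕ → ℕ → Bool := onCell 0 536870912 0 1230186008 402653184 67108864
    (rowF 0 true false false .pnn 0 3 3 (qsf 0 536870912 0 1230186008 3) ndF0q0 ndF3q3 pcF3 Cut.none Ext.none)

def k0_mm_033 : ∃ t, chk3 f_mm_033 t 1 1 1 = true :=
  ⟨(l 5), by decide +kernel⟩

theorem c_mm_033 : CertF 0 536870912 0 1230186008 402653184 67108864 true false false .pnn 0 3 3
    ndF0q0 ndF3q3 pcF3 Cut.none Ext.none :=
  certF0 (fam := true) (s1 := false) (s2 := false) (a := 0) (b := 3) (c := 3) (cn := .pnn) (n1 := ndF0q0) (n2 := ndF3q3) (pc := pcF3) (cut := Cut.none) (xt := Ext.none) (P1 := 0) (W1 := 536870912) (P2 := 0) (W2 := 1230186008) (P3 := 402653184) (W3 := 67108864)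
    rfl k0_mm_033

noncomputable def f_mm_101 : ℕ → ℕ → ℕ → ℕ → Bool := onCell 536870912 536870912 0 536870912 402653184 67108864
    (rowF 0 true false false .npn 1 0 1 (qsf 536870912 536870912 0 536870912 1) ndF0q1 ndF3q0 pcF1 Cut.none Ext.none)

def k0_mm_101 : ∃ t, chk3 f_mm_101 t 1 1 1 = true :=
  ⟨(l 4), by decide +kernel⟩

theorem c_mm_101 : CertF 536870912 536870912 0 536870912 402653184 67108864 true false false .npn 1 0 1
    ndF0q1 ndF3q0 pcF1 Cut.none Ext.none :=
  certF0 (fam := true) (s1 := false) (s2 := false) (a := 1) (b := 0) (c := 1) (cn := .npn) (n1 := ndF0q1) (n2 := ndF3q0) (pc := pcF1) (cut := Cut.none) (xt := Ext.none) (P1 := 536870912) (W1 := 536870912) (P2 := 0) (W2 := 536870912) (P3 := 402653184) (W3 := 67108864)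
    rfl k0_mm_101

noncomputable def f_mm_102 : ℕ → ℕ → ℕ → ℕ → Bool := onCell 536870912 536870912 0 536870912 402653184 67108864
    (rowF 0 true false false .npp 1 0 2 (qsf 536870912 536870912 0 536870912 2) ndF0q1 ndF3q0 pcF2 Cut.none Ext.none)

def k0_mm_102 : ∃ t, chk3 f_mm_102 t 1 1 1 = true :=
  ⟨(l 4), by decide +kernel⟩

theorem c_mm_102 : CertF 536870912 536870912 0 536870912 402653184 67108864 true false false .npp 1 0 2
    ndF0q1 ndF3q0 pcF2 Cut.none Ext.none :=
  certF0 (fam := true) (s1 := false) (s2 := false) (a := 1) (b := 0) (c := 2) (cn := .npp) (n1 := ndF0q1) (n2 := ndF3q0) (pc := pcF2) (cut := Cut.none) (xt := Ext.none) (P1 := 536870912) (W1 := 536870912) (P2 := 0) (W2 := 536870912) (P3 := 402653184) (W3 := 67108864)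
    rfl k0_mm_102

noncomputable def f_mm_112 : ℕ → ℕ → ℕ → ℕ → Bool := onCell 536870912 536870912 536870912 536870912 402653184 67108864
    (rowF 0 true false false .dn 1 1 2 (qsf 536870912 536870912 536870912 536870912 2) ndF0q1 ndF3q1 pcF2 Cut.none Ext.none)

def k0_mm_112 : ∃ t, chk3 f_mm_112 t 1 1 1 = true :=
  ⟨(l 4), by decide +kernel⟩

theorem c_mm_112 : CertF 536870912 536870912 536870912 536870912 402653184 67108864 true false false .dn 1 1 2
    ndF0q1 ndF3q1 pcF2 Cut.none Ext.none :=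
  certF0 (fam := true) (s1 := false) (s2 := false) (a := 1) (b := 1) (c := 2) (cn := .dn) (n1 := ndF0q1) (n2 := ndF3q1) (pc := pcF2) (cut := Cut.none) (xt := Ext.none) (P1 := 536870912) (W1 := 536870912) (P2 := 536870912) (W2 := 536870912) (P3 := 402653184) (W3 := 67108864)
    rfl k0_mm_112

noncomputable def f_mm_113 : ℕ → ℕ → ℕ → ℕ → Bool := onCell 536870912 536870912 536870912 536870912 402653184 67108864
    (rowF 0 true false false .nn 1 1 3 (qsf 536870912 536870912 536870912 536870912 3) ndF0q1 ndF3q1 pcF3 Cut.none Ext.none)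

def k0_mm_113 : ∃ t, chk3 f_mm_113 t 1 1 1 = true :=
  ⟨(l 4), by decide +kernel⟩

theorem c_mm_113 : CertF 536870912 536870912 536870912 536870912 402653184 67108864 true false false .nn 1 1 3
    ndF0q1 ndF3q1 pcF3 Cut.none Ext.none :=
  certF0 (fam := true) (s1 := false) (s2 := false) (a := 1) (b := 1) (c := 3) (cn := .nn) (n1 := ndF0q1) (n2 := ndF3q1) (pc := pcF3) (cut := Cut.none) (xt := Ext.none) (P1 := 536870912) (W1 := 536870912) (P2 := 536870912) (W2 := 536870912) (P3 := 402653184) (W3 := 67108864)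
    rfl k0_mm_113

noncomputable def f_mm_123 : ℕ → ℕ → ℕ → ℕ → Bool := onCell 536870912 536870912 1073741824 536870912 402653184 67108864
    (rowF 0 true false false .npn 1 2 3 (qsf 536870912 536870912 1073741824 536870912 3) ndF0q1 ndF3q2 pcF3 Cut.none Ext.none)

def k0_mm_123 : ∃ t, chk3 f_mm_123 t 1 1 1 = true :=
  ⟨(l 4), by decide +kernel⟩

theorem c_mm_123 : CertF 536870912 536870912 1073741824 536870912 402653184 67108864 true false false .npn 1 2 3
    ndF0q1 ndF3q2 pcF3 Cut.none Ext.none :=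
  certF0 (fam := true) (s1 := false) (s2 := false) (a := 1) (b := 2) (c := 3) (cn := .npn) (n1 := ndF0q1) (n2 := ndF3q2) (pc := pcF3) (cut := Cut.none) (xt := Ext.none) (P1 := 536870912) (W1 := 536870912) (P2 := 1073741824) (W2 := 536870912) (P3 := 402653184) (W3 := 67108864)
    rfl k0_mm_123

noncomputable def f_mm_133 : ℕ → ℕ → ℕ → ℕ → Bool := onCell 536870912 536870912 0 1230186008 402653184 67108864
    (rowF 0 true false false .dn 1 3 3 (qsf 536870912 536870912 0 1230186008 3) ndF0q1 ndF3q3 pcF3 Cut.none Ext.none)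

def k0_mm_133 : ∃ t, chk3 f_mm_133 t 1 1 1 = true :=
  ⟨(l 4), by decide +kernel⟩

theorem c_mm_133 : CertF 536870912 536870912 0 1230186008 402653184 67108864 true false false .dn 1 3 3
    ndF0q1 ndF3q3 pcF3 Cut.none Ext.none :=
  certF0 (fam := true) (s1 := false) (s2 := false) (a := 1) (b := 3) (c := 3) (cn := .dn) (n1 := ndF0q1) (n2 := ndF3q3) (pc := pcF3) (cut := Cut.none) (xt := Ext.none) (P1 := 536870912) (W1 := 536870912) (P2 := 0) (W2 := 1230186008) (P3 := 402653184) (W3 := 67108864)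
    rfl k0_mm_133

noncomputable def f_mm_202 : ℕ → ℕ → ℕ → ℕ → Bool := onCell 0 536870912 0 536870912 402653184 67108864
    (rowF 0 true false false .pp 2 0 2 (qsf 0 536870912 0 536870912 2) ndF0q2 ndF3q0 pcF2 Cut.none Ext.none)

def k0_mm_202 : ∃ t, chk3 f_mm_202 t 1 1 1 = true :=
  ⟨(b (a (b (a (b (b (l 16726224) (l 16790800)) (l 4)) (l 4)) (l 4)) (l 4)) (l 4)), by decide +kernel⟩

theorem c_mm_202 : CertF 0 536870912 0 536870912 402653184 67108864 true false false .pp 2 0 2
    ndF0q2 ndF3q0 pcF2 Cut.none Ext.none :=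
  certF0 (fam := true) (s1 := false) (s2 := false) (a := 2) (b := 0) (c := 2) (cn := .pp) (n1 := ndF0q2) (n2 := ndF3q0) (pc := pcF2) (cut := Cut.none) (xt := Ext.none) (P1 := 0) (W1 := 536870912) (P2 := 0) (W2 := 536870912) (P3 := 402653184) (W3 := 67108864)
    rfl k0_mm_202

noncomputable def f_mm_203 : ℕ → ℕ → ℕ → ℕ → Bool := onCell 0 536870912 1610612736 536870912 402653184 67108864
    (rowF 1 true false false .up 2 0 3 (qsf 0 536870912 0 536870912 3) ndF0q2 ndF3q0 pcF3 Cut.none Ext.none)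

def k0_mm_203 : ∃ t, chk3 f_mm_203 t 1 1 1 = true :=
  ⟨(l 4), by decide +kernel⟩

theorem c_mm_203 : CertF 0 536870912 0 536870912 402653184 67108864 true false false .up 2 0 3
    ndF0q2 ndF3q0 pcF3 Cut.none Ext.none :=
  certF1 (fam := true) (s1 := false) (s2 := false) (a := 2) (b := 0) (c := 3) (cn := .up) (n1 := ndF0q2) (n2 := ndF3q0) (pc := pcF3) (cut := Cut.none) (xt := Ext.none) (P1 := 0) (W1 := 536870912) (P2 := 0) (W2 := 536870912) (P3 := 402653184) (W3 := 67108864)
    rfl (fun _ => rfl) k0_mm_203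

noncomputable def f_mm_213 : ℕ → ℕ → ℕ → ℕ → Bool := onCell 0 536870912 536870912 536870912 402653184 67108864
    (rowF 0 true false false .pnn 2 1 3 (qsf 0 536870912 536870912 536870912 3) ndF0q2 ndF3q1 pcF3 Cut.none Ext.none)

def k0_mm_213 : ∃ t, chk3 f_mm_213 t 1 1 1 = true :=
  ⟨(l 4), by decide +kernel⟩

theorem c_mm_213 : CertF 0 536870912 536870912 536870912 402653184 67108864 true false false .pnn 2 1 3
    ndF0q2 ndF3q1 pcF3 Cut.none Ext.none :=
  certF0 (fam := true) (s1 := false) (s2 := false) (a := 2) (b := 1) (c := 3) (cn := .pnn) (n1 := ndF0q2) (n2 := ndF3q1) (pc := pcF3) (cut := Cut.none) (xt := Ext.none) (P1 := 0) (W1 := 536870912) (P2 := 536870912) (W2 := 536870912) (P3 := 402653184) (W3 := 67108864)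
    rfl k0_mm_213

end Pool.Agent.Strip051.G.I3_8_7_16.Tab.C.FA03

namespace Pool.Agent.Strip051.G.I3_8_7_16.Tab.C.FA04

open Pool.Agent.Strip051.PB Pool.Agent.Strip051.PB.T
open Pool.Agent.Strip051.G.I3_8_7_16.Tab

noncomputable def cut_pp_001 : Cut := Cut.of [[⟨3, 0, 0, 1449551462⟩]]

noncomputable def f_pp_001 : ℕ → ℕ → ℕ → ℕ → Bool := onCell 0 536870912 0 536870912 402653184 67108864
    (rowF 0 true true true .up 0 0 1 (qsf 0 536870912 0 536870912 1) ndF0q0 ndF4q0 pcF1 cut_pp_001 Ext.none)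

def k0_pp_001 : ∃ t, chk3 f_pp_001 t 1 1 1 = true :=
  ⟨(l 4), by decide +kernel⟩

theorem c_pp_001 : CertF 0 536870912 0 536870912 402653184 67108864 true true true .up 0 0 1
    ndF0q0 ndF4q0 pcF1 cut_pp_001 Ext.none :=
  certF0 (fam := true) (s1 := true) (s2 := true) (a := 0) (b := 0) (c := 1) (cn := .up) (n1 := ndF0q0) (n2 := ndF4q0) (pc := pcF1) (cut := cut_pp_001) (xt := Ext.none) (P1 := 0) (W1 := 536870912) (P2 := 0) (W2 := 536870912) (P3 := 402653184) (W3 := 67108864)
    rfl k0_pp_001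

noncomputable def cut_pp_011 : Cut := Cut.of [[⟨3, 0, 0, 1449551462⟩]]

noncomputable def f_pp_011 : ℕ → ℕ → ℕ → ℕ → Bool := onCell 0 536870912 536870912 536870912 402653184 67108864
    (rowF 0 true true true .pnn 0 1 1 (qsf 0 536870912 536870912 536870912 1) ndF0q0 ndF4q1 pcF1 cut_pp_011 Ext.none)

def k0_pp_011 : ∃ t, chk3 f_pp_011 t 1 1 1 = true :=
  ⟨(l 4), by decide +kernel⟩

theorem c_pp_011 : CertF 0 536870912 536870912 536870912 402653184 67108864 true true true .pnn 0 1 1
    ndF0q0 ndF4q1 pcF1 cut_pp_011 Ext.none :=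
  certF0 (fam := true) (s1 := true) (s2 := true) (a := 0) (b := 1) (c := 1) (cn := .pnn) (n1 := ndF0q0) (n2 := ndF4q1) (pc := pcF1) (cut := cut_pp_011) (xt := Ext.none) (P1 := 0) (W1 := 536870912) (P2 := 536870912) (W2 := 536870912) (P3 := 402653184) (W3 := 67108864)
    rfl k0_pp_011

noncomputable def cut_pp_012 : Cut := Cut.of [[⟨3, 0, 0, 1449551462⟩]]

noncomputable def f_pp_012 : ℕ → ℕ → ℕ → ℕ → Bool := onCell 0 536870912 536870912 536870912 402653184 67108864
    (rowF 0 true true true .pnp 0 1 2 (qsf 0 536870912 536870912 536870912 2) ndF0q0 ndF4q1 pcF2 cut_pp_012 Ext.none)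

def k0_pp_012 : ∃ t, chk3 f_pp_012 t 1 1 1 = true :=
  ⟨(l 4), by decide +kernel⟩

theorem c_pp_012 : CertF 0 536870912 536870912 536870912 402653184 67108864 true true true .pnp 0 1 2
    ndF0q0 ndF4q1 pcF2 cut_pp_012 Ext.none :=
  certF0 (fam := true) (s1 := true) (s2 := true) (a := 0) (b := 1) (c := 2) (cn := .pnp) (n1 := ndF0q0) (n2 := ndF4q1) (pc := pcF2) (cut := cut_pp_012) (xt := Ext.none) (P1 := 0) (W1 := 536870912) (P2 := 536870912) (W2 := 536870912) (P3 := 402653184) (W3 := 67108864)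
    rfl k0_pp_012

noncomputable def cut_pp_022 : Cut := Cut.of [[⟨3, 0, 0, 1449551462⟩]]

noncomputable def f_pp_022 : ℕ → ℕ → ℕ → ℕ → Bool := onCell 0 536870912 1073741824 536870912 402653184 67108864
    (rowF 0 true true true .pp 0 2 2 (qsf 0 536870912 1073741824 536870912 2) ndF0q0 ndF4q2 pcF2 cut_pp_022 Ext.none)

def k0_pp_022 : ∃ t, chk3 f_pp_022 t 1 1 1 = true :=
  ⟨(l 4), by decide +kernel⟩

theorem c_pp_022 : CertF 0 536870912 1073741824 536870912 402653184 67108864 true true true .pp 0 2 2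
    ndF0q0 ndF4q2 pcF2 cut_pp_022 Ext.none :=
  certF0 (fam := true) (s1 := true) (s2 := true) (a := 0) (b := 2) (c := 2) (cn := .pp) (n1 := ndF0q0) (n2 := ndF4q2) (pc := pcF2) (cut := cut_pp_022) (xt := Ext.none) (P1 := 0) (W1 := 536870912) (P2 := 1073741824) (W2 := 536870912) (P3 := 402653184) (W3 := 67108864)
    rfl k0_pp_022

noncomputable def cut_pp_023 : Cut := Cut.of [[⟨3, 0, 0, 1449551462⟩]]

noncomputable def f_pp_023 : ℕ → ℕ → ℕ → ℕ → Bool := onCell 0 536870912 1073741824 536870912 402653184 67108864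
    (rowF 0 true true true .up 0 2 3 (qsf 0 536870912 1073741824 536870912 3) ndF0q0 ndF4q2 pcF3 cut_pp_023 Ext.none)

def k0_pp_023 : ∃ t, chk3 f_pp_023 t 1 1 1 = true :=
  ⟨(l 4), by decide +kernel⟩

theorem c_pp_023 : CertF 0 536870912 1073741824 536870912 402653184 67108864 true true true .up 0 2 3
    ndF0q0 ndF4q2 pcF3 cut_pp_023 Ext.none :=
  certF0 (fam := true) (s1 := true) (s2 := true) (a := 0) (b := 2) (c := 3) (cn := .up) (n1 := ndF0q0) (n2 := ndF4q2) (pc := pcF3) (cut := cut_pp_023) (xt := Ext.none) (P1 := 0) (W1 := 536870912) (P2 := 1073741824) (W2 := 536870912) (P3 := 402653184) (W3 := 67108864)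
    rfl k0_pp_023

noncomputable def cut_pp_033 : Cut := Cut.of [[⟨3, 0, 0, 1449551462⟩]]

noncomputable def f_pp_033 : ℕ → ℕ → ℕ → ℕ → Bool := onCell 0 536870912 0 1230186008 402653184 67108864
    (rowF 0 true true true .pnn 0 3 3 (qsf 0 536870912 0 1230186008 3) ndF0q0 ndF4q3 pcF3 cut_pp_033 Ext.none)

def k0_pp_033 : ∃ t, chk3 f_pp_033 t 1 1 1 = true :=
  ⟨(l 4), by decide +kernel⟩

theorem c_pp_033 : CertF 0 536870912 0 1230186008 402653184 67108864 true true true .pnn 0 3 3
    ndF0q0 ndF4q3 pcF3 cut_pp_033 Ext.none :=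
  certF0 (fam := true) (s1 := true) (s2 := true) (a := 0) (b := 3) (c := 3) (cn := .pnn) (n1 := ndF0q0) (n2 := ndF4q3) (pc := pcF3) (cut := cut_pp_033) (xt := Ext.none) (P1 := 0) (W1 := 536870912) (P2 := 0) (W2 := 1230186008) (P3 := 402653184) (W3 := 67108864)
    rfl k0_pp_033

noncomputable def cut_pp_101 : Cut := Cut.of [[⟨3, 0, 0, 1449551462⟩]]

noncomputable def f_pp_101 : ℕ → ℕ → ℕ → ℕ → Bool := onCell 536870912 536870912 0 536870912 402653184 67108864
    (rowF 0 true true true .npn 1 0 1 (qsf 536870912 536870912 0 536870912 1) ndF0q1 ndF4q0 pcF1 cut_pp_101 Ext.none)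

def k0_pp_101 : ∃ t, chk3 f_pp_101 t 1 1 1 = true :=
  ⟨(l 4), by decide +kernel⟩

theorem c_pp_101 : CertF 536870912 536870912 0 536870912 402653184 67108864 true true true .npn 1 0 1
    ndF0q1 ndF4q0 pcF1 cut_pp_101 Ext.none :=
  certF0 (fam := true) (s1 := true) (s2 := true) (a := 1) (b := 0) (c := 1) (cn := .npn) (n1 := ndF0q1) (n2 := ndF4q0) (pc := pcF1) (cut := cut_pp_101) (xt := Ext.none) (P1 := 536870912) (W1 := 536870912) (P2 := 0) (W2 := 536870912) (P3 := 402653184) (W3 := 67108864)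
    rfl k0_pp_101

noncomputable def cut_pp_102 : Cut := Cut.of [[⟨3, 0, 0, 1449551462⟩]]

noncomputable def f_pp_102 : ℕ → ℕ → ℕ → ℕ → Bool := onCell 536870912 536870912 0 536870912 402653184 67108864
    (rowF 0 true true true .npp 1 0 2 (qsf 536870912 536870912 0 536870912 2) ndF0q1 ndF4q0 pcF2 cut_pp_102 Ext.none)

def k0_pp_102 : ∃ t, chk3 f_pp_102 t 1 1 1 = true :=
  ⟨(l 4), by decide +kernel⟩

theorem c_pp_102 : CertF 536870912 536870912 0 536870912 402653184 67108864 true true true .npp 1 0 2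
    ndF0q1 ndF4q0 pcF2 cut_pp_102 Ext.none :=
  certF0 (fam := true) (s1 := true) (s2 := true) (a := 1) (b := 0) (c := 2) (cn := .npp) (n1 := ndF0q1) (n2 := ndF4q0) (pc := pcF2) (cut := cut_pp_102) (xt := Ext.none) (P1 := 536870912) (W1 := 536870912) (P2 := 0) (W2 := 536870912) (P3 := 402653184) (W3 := 67108864)
    rfl k0_pp_102

noncomputable def cut_pp_112 : Cut := Cut.of [[⟨3, 0, 0, 1449551462⟩]]

noncomputable def f_pp_112 : ℕ → ℕ → ℕ → ℕ → Bool := onCell 536870912 536870912 536870912 536870912 402653184 67108864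
    (rowF 0 true true true .dn 1 1 2 (qsf 536870912 536870912 536870912 536870912 2) ndF0q1 ndF4q1 pcF2 cut_pp_112 Ext.none)

def k0_pp_112 : ∃ t, chk3 f_pp_112 t 1 1 1 = true :=
  ⟨(l 4), by decide +kernel⟩

theorem c_pp_112 : CertF 536870912 536870912 536870912 536870912 402653184 67108864 true true true .dn 1 1 2
    ndF0q1 ndF4q1 pcF2 cut_pp_112 Ext.none :=
  certF0 (fam := true) (s1 := true) (s2 := true) (a := 1) (b := 1) (c := 2) (cn := .dn) (n1 := ndF0q1) (n2 := ndF4q1) (pc := pcF2) (cut := cut_pp_112) (xt := Ext.none) (P1 := 536870912) (W1 := 536870912) (P2 := 536870912) (W2 := 536870912) (P3 := 402653184) (W3 := 67108864)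
    rfl k0_pp_112

noncomputable def cut_pp_113 : Cut := Cut.of [[⟨3, 0, 0, 1449551462⟩]]

noncomputable def f_pp_113 : ℕ → ℕ → ℕ → ℕ → Bool := onCell 536870912 536870912 536870912 536870912 402653184 67108864
    (rowF 0 true true true .nn 1 1 3 (qsf 536870912 536870912 536870912 536870912 3) ndF0q1 ndF4q1 pcF3 cut_pp_113 Ext.none)

def k0_pp_113 : ∃ t, chk3 f_pp_113 t 1 1 1 = true :=
  ⟨(l 4), by decide +kernel⟩

theorem c_pp_113 : CertF 536870912 536870912 536870912 536870912 402653184 67108864 true true true .nn 1 1 3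
    ndF0q1 ndF4q1 pcF3 cut_pp_113 Ext.none :=
  certF0 (fam := true) (s1 := true) (s2 := true) (a := 1) (b := 1) (c := 3) (cn := .nn) (n1 := ndF0q1) (n2 := ndF4q1) (pc := pcF3) (cut := cut_pp_113) (xt := Ext.none) (P1 := 536870912) (W1 := 536870912) (P2 := 536870912) (W2 := 536870912) (P3 := 402653184) (W3 := 67108864)
    rfl k0_pp_113

noncomputable def cut_pp_123 : Cut := Cut.of [[⟨3, 0, 0, 1449551462⟩]]

noncomputable def f_pp_123 : ℕ → ℕ → ℕ → ℕ → Bool := onCell 536870912 536870912 1073741824 536870912 402653184 67108864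
    (rowF 0 true true true .npn 1 2 3 (qsf 536870912 536870912 1073741824 536870912 3) ndF0q1 ndF4q2 pcF3 cut_pp_123 Ext.none)

def k0_pp_123 : ∃ t, chk3 f_pp_123 t 1 1 1 = true :=
  ⟨(l 4), by decide +kernel⟩

theorem c_pp_123 : CertF 536870912 536870912 1073741824 536870912 402653184 67108864 true true true .npn 1 2 3
    ndF0q1 ndF4q2 pcF3 cut_pp_123 Ext.none :=
  certF0 (fam := true) (s1 := true) (s2 := true) (a := 1) (b := 2) (c := 3) (cn := .npn) (n1 := ndF0q1) (n2 := ndF4q2) (pc := pcF3) (cut := cut_pp_123) (xt := Ext.none) (P1 := 536870912) (W1 := 536870912) (P2 := 1073741824) (W2 := 536870912) (P3 := 402653184) (W3 := 67108864)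
    rfl k0_pp_123

noncomputable def cut_pp_133 : Cut := Cut.of [[⟨3, 0, 0, 1449551462⟩]]

noncomputable def f_pp_133 : ℕ → ℕ → ℕ → ℕ → Bool := onCell 536870912 536870912 0 1230186008 402653184 67108864
    (rowF 0 true true true .dn 1 3 3 (qsf 536870912 536870912 0 1230186008 3) ndF0q1 ndF4q3 pcF3 cut_pp_133 Ext.none)

def k0_pp_133 : ∃ t, chk3 f_pp_133 t 1 1 1 = true :=
  ⟨(l 4), by decide +kernel⟩

theorem c_pp_133 : CertF 536870912 536870912 0 1230186008 402653184 67108864 true true true .dn 1 3 3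
    ndF0q1 ndF4q3 pcF3 cut_pp_133 Ext.none :=
  certF0 (fam := true) (s1 := true) (s2 := true) (a := 1) (b := 3) (c := 3) (cn := .dn) (n1 := ndF0q1) (n2 := ndF4q3) (pc := pcF3) (cut := cut_pp_133) (xt := Ext.none) (P1 := 536870912) (W1 := 536870912) (P2 := 0) (W2 := 1230186008) (P3 := 402653184) (W3 := 67108864)
    rfl k0_pp_133

noncomputable def cut_pp_202 : Cut := Cut.of [[⟨3, 0, 0, 1449551462⟩]]

noncomputable def f_pp_202 : ℕ → ℕ → ℕ → ℕ → Bool := onCell 0 536870912 0 536870912 402653184 67108864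
    (rowF 0 true true true .pp 2 0 2 (qsf 0 536870912 0 536870912 2) ndF0q2 ndF4q0 pcF2 cut_pp_202 Ext.none)

def k0_pp_202 : ∃ t, chk3 f_pp_202 t 1 1 1 = true :=
  ⟨(l 4), by decide +kernel⟩

theorem c_pp_202 : CertF 0 536870912 0 536870912 402653184 67108864 true true true .pp 2 0 2
    ndF0q2 ndF4q0 pcF2 cut_pp_202 Ext.none :=
  certF0 (fam := true) (s1 := true) (s2 := true) (a := 2) (b := 0) (c := 2) (cn := .pp) (n1 := ndF0q2) (n2 := ndF4q0) (pc := pcF2) (cut := cut_pp_202) (xt := Ext.none) (P1 := 0) (W1 := 536870912) (P2 := 0) (W2 := 536870912) (P3 := 402653184) (W3 := 67108864)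
    rfl k0_pp_202

noncomputable def cut_pp_203 : Cut := Cut.of [[⟨3, 0, 0, 1449551462⟩]]

noncomputable def f_pp_203 : ℕ → ℕ → ℕ → ℕ → Bool := onCell 0 536870912 0 536870912 402653184 67108864
    (rowF 0 true true true .up 2 0 3 (qsf 0 536870912 0 536870912 3) ndF0q2 ndF4q0 pcF3 cut_pp_203 Ext.none)

def k0_pp_203 : ∃ t, chk3 f_pp_203 t 1 1 1 = true :=
  ⟨(l 4), by decide +kernel⟩

theorem c_pp_203 : CertF 0 536870912 0 536870912 402653184 67108864 true true true .up 2 0 3
    ndF0q2 ndF4q0 pcF3 cut_pp_203 Ext.none :=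
  certF0 (fam := true) (s1 := true) (s2 := true) (a := 2) (b := 0) (c := 3) (cn := .up) (n1 := ndF0q2) (n2 := ndF4q0) (pc := pcF3) (cut := cut_pp_203) (xt := Ext.none) (P1 := 0) (W1 := 536870912) (P2 := 0) (W2 := 536870912) (P3 := 402653184) (W3 := 67108864)
    rfl k0_pp_203

noncomputable def cut_pp_213 : Cut := Cut.of [[⟨3, 0, 0, 1449551462⟩]]

noncomputable def f_pp_213 : ℕ → ℕ → ℕ → ℕ → Bool := onCell 0 536870912 536870912 536870912 402653184 67108864
    (rowF 0 true true true .pnn 2 1 3 (qsf 0 536870912 536870912 536870912 3) ndF0q2 ndF4q1 pcF3 cut_pp_213 Ext.none)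

def k0_pp_213 : ∃ t, chk3 f_pp_213 t 1 1 1 = true :=
  ⟨(l 4), by decide +kernel⟩

theorem c_pp_213 : CertF 0 536870912 536870912 536870912 402653184 67108864 true true true .pnn 2 1 3
    ndF0q2 ndF4q1 pcF3 cut_pp_213 Ext.none :=
  certF0 (fam := true) (s1 := true) (s2 := true) (a := 2) (b := 1) (c := 3) (cn := .pnn) (n1 := ndF0q2) (n2 := ndF4q1) (pc := pcF3) (cut := cut_pp_213) (xt := Ext.none) (P1 := 0) (W1 := 536870912) (P2 := 536870912) (W2 := 536870912) (P3 := 402653184) (W3 := 67108864)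
    rfl k0_pp_213

noncomputable def cut_pm_001 : Cut := Cut.of [[⟨3, 0, 0, 1449551462⟩]]

noncomputable def f_pm_001 : ℕ → ℕ → ℕ → ℕ → Bool := onCell 0 536870912 0 536870912 402653184 67108864
    (rowF 0 true true false .up 0 0 1 (qsf 0 536870912 0 536870912 1) ndF0q0 ndF4q0 pcF1 cut_pm_001 Ext.none)

def k0_pm_001 : ∃ t, chk3 f_pm_001 t 1 1 1 = true :=
  ⟨(a (l 3) (b (l 6) (a (l 6) (b (l 6) (a (l 6) (b (l 6) (a (l 6) (b (l 6) (l 16579456))))))))), by decide +kernel⟩

theorem c_pm_001 : CertF 0 536870912 0 536870912 402653184 67108864 true true false .up 0 0 1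
    ndF0q0 ndF4q0 pcF1 cut_pm_001 Ext.none :=
  certF0 (fam := true) (s1 := true) (s2 := false) (a := 0) (b := 0) (c := 1) (cn := .up) (n1 := ndF0q0) (n2 := ndF4q0) (pc := pcF1) (cut := cut_pm_001) (xt := Ext.none) (P1 := 0) (W1 := 536870912) (P2 := 0) (W2 := 536870912) (P3 := 402653184) (W3 := 67108864)
    rfl k0_pm_001

noncomputable def cut_pm_011 : Cut := Cut.of [[⟨3, 0, 0, 1449551462⟩], [⟨0, 0, 0, 67108864⟩, ⟨1, 1, 0, 67108864⟩, ⟨2, 1, 0, 67108864⟩]]

noncomputable def f_pm_011 : ℕ → ℕ → ℕ → ℕ → Bool := onCell 0 536870912 536870912 536870912 402653184 67108864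
    (rowF 1 true true false .pnn 0 1 1 (qsf 0 536870912 536870912 536870912 1) ndF0q0 ndF4q1 pcF1 cut_pm_011 Ext.none)

def k0_pm_011 : ∃ t, chk3 f_pm_011 t 1 1 1 = true :=
  ⟨(b (l 6) (a (l 6) (b (l 6) (a (l 6) (b (l 6) (a (l 6) (b (l 6) (l 16464584)))))))), by decide +kernel⟩

theorem c_pm_011 : CertF 0 536870912 536870912 536870912 402653184 67108864 true true false .pnn 0 1 1
    ndF0q0 ndF4q1 pcF1 cut_pm_011 Ext.none :=
  certF1 (fam := true) (s1 := true) (s2 := false) (a := 0) (b := 1) (c := 1) (cn := .pnn) (n1 := ndF0q0) (n2 := ndF4q1) (pc := pcF1) (cut := cut_pm_011) (xt := Ext.none) (P1 := 0) (W1 := 536870912) (P2 := 536870912) (W2 := 536870912) (P3 := 402653184) (W3 := 67108864)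
    rfl (fun _ => rfl) k0_pm_011

noncomputable def cut_pm_012 : Cut := Cut.of [[⟨3, 0, 0, 1449551462⟩], [⟨0, 0, 0, 67108864⟩, ⟨1, 1, 0, 67108864⟩, ⟨2, 1, 0, 67108864⟩]]

noncomputable def f_pm_012 : ℕ → ℕ → ℕ → ℕ → Bool := onCell 0 536870912 536870912 536870912 402653184 67108864
    (rowF 0 true true false .pnp 0 1 2 (qsf 0 536870912 536870912 536870912 2) ndF0q0 ndF4q1 pcF2 cut_pm_012 Ext.none)

def k0_pm_012 : ∃ t, chk3 f_pm_012 t 2 1 1 = true :=
  ⟨(b (l 6) (a (l 6) (b (l 6) (a (l 6) (b (b (l 6) (a (l 6) (a (l 6) (b (l 6) (l 16392056))))) (b (a (l 6) (l 16443480)) (a (b (l 16419056) (a (l 16391336) (l 16368992))) (b (l 16356824) (c (l 16354568) (l 16323824)))))))))), by decide +kernel⟩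

def k1_pm_012 : ∃ t, chk3 f_pm_012 t 3 2 1 = true :=
  ⟨(a (b (l 6) (a (l 6) (b (l 6) (a (l 6) (l 16412032))))) (b (a (b (l 6) (a (l 6) (b (l 6) (l 16294200)))) (b (a (b (l 6) (l 176663717079)) (l 84858812087)) (a (l 16295720) (l 16414056)))) (a (b (a (b (l 6) (l 16324744)) (l 16317736)) (a (l 16341680) (l 16335512))) (b (a (l 16316488) (l 16426320)) (l 16381024))))), by decide +kernel⟩

def k2_pm_012 : ∃ t, chk3 f_pm_012 t 6 3 1 = true :=
  ⟨(a (b (b (l 6) (a (l 6) (b (a (l 6) (b (l 16385760) (a (l 16385200) (b (l 16381888) (l 16378272))))) (a (b (a (l 6) (b (l 16387024) (l 16383864))) (a (l 16427176) (l 16380896))) (b (l 16523688) (l 16375000)))))) (b (a (b (a (b (l 6) (b (l 6) (l 16393144))) (b (b (l 16431928) (l 16387288)) (l 16381928))) (l 16373184)) (b (l 16368600) (l 16349744))) (b (a (l 16347656) (l 16326624)) (a (b (l 16325560) (c (l 16326704) (l 16291472))) (b (l 16306592) (c (l 16311904) (l 16271240))))))) (b (b (a (b (l 16394720) (b (l 16377336) (a (l 16380256)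 (a (l 16376592) (b (l 16375456) (l 16373416)))))) (a (b (l 16365080) (b (l 16369424) (l 16473592))) (l 16362072))) (b (a (a (b (a (l 16380384) (b (l 16378128) (l 16373824))) (l 16477808)) (b (l 16454240) (l 16373096))) (l 16368776)) (l 16406976))) (b (a (b (l 16356600) (l 16340392)) (b (l 16358944) (l 16347200))) (b (a (l 16320384) (b (l 16335432) (l 16325048))) (a (b (l 16302952) (a (l 16288968) (c (l 16315816) (l 16266856)))) (b (a (l 16311080) (l 16326136)) (a (c (l 16329560) (l 16276048)) (c (l 16355392) (l 16295784))))))))), by decide +kernel⟩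

def k3_pm_012 : ∃ t, chk3 f_pm_012 t 7 3 1 = true :=
  ⟨(b (a (b (a (l 16353472) (l 16343520)) (a (l 16357712) (l 16345424))) (b (l 16434224) (a (b (l 16392496) (l 16431432)) (b (l 16572144) (l 16612744))))) (a (b (a (b (l 16356664) (a (l 16357368) (l 16351024))) (b (l 16341704) (l 16346496))) (a (b (a (l 16454840) (l 16357320)) (a (b (l 16352616) (l 16358016)) (b (l 16373200) (l 16449784)))) (b (b (l 16369480) (l 16409936)) (b (l 16433520) (a (l 16440552) (l 16559224)))))) (b (a (b (l 16479360) (l 16539760)) (b (l 16661928) (l 16717256))) (a (b (a (l 16560096) (l 16656256)) (a (b (l 16620064) (l 16661400)) (l 16728768))) (b (l 16776584) (a (b (l 16789864) (l 16803120)) (b (l 16841928) (l 16821392)))))))), by decide +kernel⟩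

theorem s4_pm_012 : ∃ t, chk3 f_pm_012 t 3 3 1 = true := ex3_a k2_pm_012 k3_pm_012

theorem s5_pm_012 : ∃ t, chk3 f_pm_012 t 3 1 1 = true := ex3_b k1_pm_012 s4_pm_012

theorem s6_pm_012 : ∃ t, chk3 f_pm_012 t 1 1 1 = true := ex3_a k0_pm_012 s5_pm_012

theorem c_pm_012 : CertF 0 536870912 536870912 536870912 402653184 67108864 true true false .pnp 0 1 2
    ndF0q0 ndF4q1 pcF2 cut_pm_012 Ext.none :=
  certF0 (fam := true) (s1 := true) (s2 := false) (a := 0) (b := 1) (c := 2) (cn := .pnp) (n1 := ndF0q0) (n2 := ndF4q1) (pc := pcF2) (cut := cut_pm_012) (xt := Ext.none) (P1 := 0) (W1 := 536870912) (P2 := 536870912) (W2 := 536870912) (P3 := 402653184) (W3 := 67108864)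
    rfl s6_pm_012

noncomputable def cut_pm_022 : Cut := Cut.of [[⟨3, 0, 0, 1449551462⟩], [⟨0, 0, 0, 67108864⟩, ⟨1, 1, 0, 67108864⟩, ⟨2, 1, 0, 67108864⟩]]

noncomputable def f_pm_022 : ℕ → ℕ → ℕ → ℕ → Bool := onCell 1073741824 536870912 1073741824 536870912 402653184 67108864
    (rowF 2 true true false .pp 0 2 2 (qsf 0 536870912 1073741824 536870912 2) ndF0q0 ndF4q2 pcF2 cut_pm_022 Ext.none)

def k0_pm_022 : ∃ t, chk3 f_pm_022 t 2 1 1 = true :=
  ⟨(a (l 6) (b (a (l 6) (b (b (b (a (b (a (l 16384160) (l 16361664)) (l 16376520)) (b (a (l 16341272) (l 16323200)) (l 16334096))) (a (l 16380192) (l 16335752))) (b (a (l 6) (l 16334320)) (l 16495064))) (b (a (l 6) (l 16363120)) (l 6)))) (l 6))), by decide +kernel⟩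

def k1_pm_022 : ∃ t, chk3 f_pm_022 t 3 1 1 = true :=
  ⟨(b (a (b (a (b (b (a (b (c (l 16317784) (l 16283264)) (l 16300632)) (b (c (l 16301592) (l 16261904)) (l 16278248))) (a (l 16299200) (l 16272248))) (b (l 16382472) (l 16310080))) (b (b (a (b (a (l 16298888) (c (l 16303752) (l 16256032))) (l 16268952)) (b (a (c (l 16318792) (l 16266240)) (l 16317472)) (l 16288560))) (a (l 16256640) (l 16267416))) (b (a (l 16241192) (l 16240952)) (l 16302288)))) (a (b (b (l 16294568) (l 16229624)) (b (l 16218376) (a (l 16271032) (l 16171448)))) (b (a (l 16237304) (l 16178856)) (a (l 16132792) (l 16113896))))) (b (a (b (a (b (b (a (l 16349928) (b (l 16391152) (l 16383312))) (l 16344424)) (l 16310104)) (b (b (a (l 16455504) (l 16573384)) (a (l 16413784) (l 16553336))) (l 16405160))) (a (l 16399360) (l 16321728))) (b (a (b (a (l 16665472) (l 16752592)) (a (l 16613816) (l 16718904))) (b (a (l 16783696) (l 16783928)) (a (l 16752776) (l 16749648)))) (a (b (l 16579680) (l 16487808)) (b (a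 (l 16703448) (l 16714792)) (l 16639024))))) (a (b (a (l 16182320) (l 16205520)) (l 16256520)) (b (a (l 16374200) (l 16545184)) (a (l 16280736) (l 16466536)))))) (a (b (a (b (a (b (l 16388856) (l 6)) (l 90227259239)) (a (l 1) (l 394095989095))) (b (a (b (l 16139088) (l 16204440)) (l 16071736)) (a (l 229276822839) (l 16274800)))) (a (l 1) (b (a (l 1) (l 376916368551)) (l 1)))) (b (a (b (l 16084616) (l 16244152)) (b (a (l 16256712) (l 16440936)) (l 16388952))) (a (b (l 269542088183) (l 394096283335)) (b (b (l 16457720) (l 16522248)) (b (l 16590816) (l 16660264))))))), by decide +kernel⟩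

theorem s2_pm_022 : ∃ t, chk3 f_pm_022 t 1 1 1 = true := ex3_a k0_pm_022 k1_pm_022

theorem c_pm_022 : CertF 0 536870912 1073741824 536870912 402653184 67108864 true true false .pp 0 2 2
    ndF0q0 ndF4q2 pcF2 cut_pm_022 Ext.none :=
  certF2 (fam := true) (s1 := true) (s2 := false) (a := 0) (b := 2) (c := 2) (cn := .pp) (n1 := ndF0q0) (n2 := ndF4q2) (pc := pcF2) (cut := cut_pm_022) (xt := Ext.none) (P1 := 0) (W1 := 536870912) (P2 := 1073741824) (W2 := 536870912) (P3 := 402653184) (W3 := 67108864)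
    rfl (fun _ => rfl) s2_pm_022

noncomputable def cut_pm_023 : Cut := Cut.of [[⟨3, 0, 0, 1449551462⟩]]

noncomputable def f_pm_023 : ℕ → ℕ → ℕ → ℕ → Bool := onCell 0 536870912 1073741824 536870912 402653184 67108864
    (rowF 0 true true false .up 0 2 3 (qsf 0 536870912 1073741824 536870912 3) ndF0q0 ndF4q2 pcF3 cut_pm_023 Ext.none)

def k0_pm_023 : ∃ t, chk3 f_pm_023 t 1 1 1 = true :=
  ⟨(a (b (b (l 1) (a (l 1) (b (l 1) (l 280278820247)))) (b (a (a (l 1) (l 229276450951)) (b (l 285648518663) (l 255583959815))) (a (b (l 313029121751) (l 323767357015)) (b (l 16875104) (l 16998024))))) (b (a (b (b (l 1) (a (l 1) (l 308733485239))) (b (a (l 276521191863) (l 16625304)) (l 242699017367))) (b (b (a (l 357052261879) (b (l 400002507751) (l 235182771799))) (a (l 354367903079) (l 16987408))) (a (b (l 16904368) (l 16998536)) (l 17079128)))) (b (a (b (l 16861696) (l 16970912)) (a (l 17068744) (l 17101136))) (a (b (l 17032768) (l 17058216)) (a (l 17067928) (b (a (l 17074232) (l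 17066952)) (b (l 17046560) (a (l 17034112) (a (l 17017840) (b (l 17015288) (l 16997952))))))))))), by decide +kernel⟩

theorem c_pm_023 : CertF 0 536870912 1073741824 536870912 402653184 67108864 true true false .up 0 2 3
    ndF0q0 ndF4q2 pcF3 cut_pm_023 Ext.none :=
  certF0 (fam := true) (s1 := true) (s2 := false) (a := 0) (b := 2) (c := 3) (cn := .up) (n1 := ndF0q0) (n2 := ndF4q2) (pc := pcF3) (cut := cut_pm_023) (xt := Ext.none) (P1 := 0) (W1 := 536870912) (P2 := 1073741824) (W2 := 536870912) (P3 := 402653184) (W3 := 67108864)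
    rfl k0_pm_023

noncomputable def cut_pm_033 : Cut := Cut.of [[⟨3, 0, 0, 1449551462⟩]]

noncomputable def f_pm_033 : ℕ → ℕ → ℕ → ℕ → Bool := onCell 1610612736 536870912 0 1230186008 402653184 67108864
    (rowF 2 true true false .pnn 0 3 3 (qsf 0 536870912 0 1230186008 3) ndF0q0 ndF4q3 pcF3 cut_pm_033 Ext.none)

def k0_pm_033 : ∃ t, chk3 f_pm_033 t 1 1 1 = true :=
  ⟨(a (b (l 1) (b (a (l 1) (b (l 1) (b (l 1) (l 468723229079)))) (b (a (l 1) (b (l 418794109607) (l 17102576))) (a (b (l 403761498423) (l 357053584247)) (b (l 17070472) (l 17044936)))))) (a (b (l 1) (b (b (a (l 1) (l 17335672)) (a (l 17171840) (l 17114464))) (b (b (l 17097192) (l 17077520)) (b (l 17065288) (l 17060336))))) (b (b (l 4) (a (l 17198632) (a (l 17077920) (l 4)))) (a (b (b (l 17085880) (l 17058832)) (b (l 17041208) (b (l 17035704) (l 17038648)))) (b (a (b (l 17033704) (l 17019856)) (a (l 17153528) (b (l 4) (a (l 16994848) (l 16993840))))) (b (a (l 17014544) (a (l 16998832) (l 16989016))) (a (l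 17035664) (a (l 17003064) (l 16988816))))))))), by decide +kernel⟩

theorem c_pm_033 : CertF 0 536870912 0 1230186008 402653184 67108864 true true false .pnn 0 3 3
    ndF0q0 ndF4q3 pcF3 cut_pm_033 Ext.none :=
  certF2 (fam := true) (s1 := true) (s2 := false) (a := 0) (b := 3) (c := 3) (cn := .pnn) (n1 := ndF0q0) (n2 := ndF4q3) (pc := pcF3) (cut := cut_pm_033) (xt := Ext.none) (P1 := 0) (W1 := 536870912) (P2 := 0) (W2 := 1230186008) (P3 := 402653184) (W3 := 67108864)
    rfl (fun _ => rfl) k0_pm_033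

noncomputable def cut_pm_101 : Cut := Cut.of [[⟨3, 0, 0, 1449551462⟩]]

noncomputable def f_pm_101 : ℕ → ℕ → ℕ → ℕ → Bool := onCell 536870912 536870912 536870912 536870912 402653184 67108864
    (rowF 1 true true false .npn 1 0 1 (qsf 536870912 536870912 0 536870912 1) ndF0q1 ndF4q0 pcF1 cut_pm_101 Ext.none)

def k0_pm_101 : ∃ t, chk3 f_pm_101 t 1 1 1 = true :=
  ⟨(a (b (b (l 6) (a (l 6) (b (l 6) (a (l 6) (l 16965448))))) (b (a (l 6) (a (b (a (l 6) (l 16960688)) (l 16966992)) (b (l 16993408) (l 17018424)))) (a (b (a (l 6) (a (l 16870192) (l 16905736))) (a (a (l 16644720) (l 16707952)) (a (l 16766800) (l 16820712)))) (a (b (l 16956672) (l 16892552)) (b (l 17021584) (l 16979472)))))) (b (a (b (l 1) (a (b (l 1) (l 17030448)) (l 1))) (l 1)) (b (b (a (a (l 17042488) (a (l 17085376) (l 1))) (l 1)) (a (a (l 17066120) (l 17166952)) (a (l 17451952) (l 1)))) (a (b (a (l 17082872) (l 17140512)) (a (l 17059960) (l 17145056))) (a (b (l 17246096) (l 17235048)) (b (l 17369024) (l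 17348136))))))), by decide +kernel⟩

theorem c_pm_101 : CertF 536870912 536870912 0 536870912 402653184 67108864 true true false .npn 1 0 1
    ndF0q1 ndF4q0 pcF1 cut_pm_101 Ext.none :=
  certF1 (fam := true) (s1 := true) (s2 := false) (a := 1) (b := 0) (c := 1) (cn := .npn) (n1 := ndF0q1) (n2 := ndF4q0) (pc := pcF1) (cut := cut_pm_101) (xt := Ext.none) (P1 := 536870912) (W1 := 536870912) (P2 := 0) (W2 := 536870912) (P3 := 402653184) (W3 := 67108864)
    rfl (fun _ => rfl) k0_pm_101

noncomputable def cut_pm_102 : Cut := Cut.of [[⟨3, 0, 0, 1449551462⟩]]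

noncomputable def f_pm_102 : ℕ → ℕ → ℕ → ℕ → Bool := onCell 536870912 536870912 1073741824 536870912 402653184 67108864
    (rowF 1 true true false .npp 1 0 2 (qsf 536870912 536870912 0 536870912 2) ndF0q1 ndF4q0 pcF2 cut_pm_102 Ext.none)

def k0_pm_102 : ∃ t, chk3 f_pm_102 t 1 1 1 = true :=
  ⟨(a (b (a (b (a (b (a (b (l 16530888) (l 16524752)) (l 16616720)) (a (l 2) (l 16629896))) (b (b (l 16733800) (l 16740856)) (a (l 16719280) (l 16797976)))) (b (a (l 2) (l 186395412247)) (l 2))) (b (a (b (b (l 16861432) (l 16874464)) (l 16899168)) (b (l 16975168) (l 17012720))) (a (b (l 16939616) (l 16983736)) (b (l 17054264) (l 17096456))))) (a (l 2) (b (b (a (l 2) (l 17136888)) (l 2)) (l 2)))) (b (b (a (b (a (a (l 17046840) (l 17092840)) (l 17165920)) (a (l 17109424) (l 17195664))) (a (b (l 17258448) (l 17273760)) (b (l 17357008) (l 17356688)))) (a (a (b (l 17147736) (l 17184280)) (b (l 17223144) (l 17248216))) (b (a (l 17286696) (l 17347880)) (l 17534160)))) (b (a (a (a (l 17217200)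 (l 17246848)) (l 17471440)) (b (l 17324040) (l 17321264))) (a (b (a (l 2) (l 17301040)) (l 2)) (b (l 17314240) (l 17553488)))))), by decide +kernel⟩

theorem c_pm_102 : CertF 536870912 536870912 0 536870912 402653184 67108864 true true false .npp 1 0 2
    ndF0q1 ndF4q0 pcF2 cut_pm_102 Ext.none :=
  certF1 (fam := true) (s1 := true) (s2 := false) (a := 1) (b := 0) (c := 2) (cn := .npp) (n1 := ndF0q1) (n2 := ndF4q0) (pc := pcF2) (cut := cut_pm_102) (xt := Ext.none) (P1 := 536870912) (W1 := 536870912) (P2 := 0) (W2 := 536870912) (P3 := 402653184) (W3 := 67108864)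
    rfl (fun _ => rfl) k0_pm_102

noncomputable def cut_pm_112 : Cut := Cut.of [[⟨3, 0, 0, 1449551462⟩]]

noncomputable def f_pm_112 : ℕ → ℕ → ℕ → ℕ → Bool := onCell 536870912 536870912 1073741824 536870912 402653184 67108864
    (rowF 1 true true false .dn 1 1 2 (qsf 536870912 536870912 536870912 536870912 2) ndF0q1 ndF4q1 pcF2 cut_pm_112 Ext.none)

def k0_pm_112 : ∃ t, chk3 f_pm_112 t 1 1 1 = true :=
  ⟨(a (b (b (a (a (b (a (l 16528096) (l 16619232)) (l 16583184)) (b (l 16738216) (l 16760848))) (a (l 198676505591) (l 1))) (a (a (b (l 16613000) (l 16658000)) (b (l 16797160) (l 16841576))) (a (l 16960344) (l 17074368)))) (b (a (b (a (l 16712776) (l 16889688)) (a (a (l 16725864) (l 16820944)) (l 16939136))) (a (b (l 17025496) (l 17067032)) (b (l 17134480) (l 17169856)))) (a (b (a (a (l 16811136) (l 16890816)) (l 16992168)) (a (b (l 16916456) (a (l 16884592) (l 16956744))) (b (l 17033256) (l 17047744)))) (a (b (l 17106456) (l 17142744)) (b (l 17201496) (l 17230680))))))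 (b (b (l 1) (a (a (l 17164544) (l 1)) (l 1))) (b (a (b (l 17244400) (l 17266904)) (l 244848277271)) (a (a (l 17275176) (l 17302520)) (b (l 17309208) (l 17295888)))))), by decide +kernel⟩

theorem c_pm_112 : CertF 536870912 536870912 536870912 536870912 402653184 67108864 true true false .dn 1 1 2
    ndF0q1 ndF4q1 pcF2 cut_pm_112 Ext.none :=
  certF1 (fam := true) (s1 := true) (s2 := false) (a := 1) (b := 1) (c := 2) (cn := .dn) (n1 := ndF0q1) (n2 := ndF4q1) (pc := pcF2) (cut := cut_pm_112) (xt := Ext.none) (P1 := 536870912) (W1 := 536870912) (P2 := 536870912) (W2 := 536870912) (P3 := 402653184) (W3 := 67108864)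
    rfl (fun _ => rfl) k0_pm_112

noncomputable def cut_pm_113 : Cut := Cut.of [[⟨3, 0, 0, 1449551462⟩]]

noncomputable def f_pm_113 : ℕ → ℕ → ℕ → ℕ → Bool := onCell 536870912 536870912 1610612736 536870912 402653184 67108864
    (rowF 1 true true false .nn 1 1 3 (qsf 536870912 536870912 536870912 536870912 3) ndF0q1 ndF4q1 pcF3 cut_pm_113 Ext.none)

def k0_pm_113 : ∃ t, chk3 f_pm_113 t 1 1 1 = true :=
  ⟨(a (b (b (a (a (b (a (l 17014888) (l 17079304)) (l 319002698359)) (b (l 17151176) (l 17211144))) (a (b (l 17220200) (l 17270160)) (l 17290680))) (a (a (l 2) (b (l 17287360) (l 2))) (b (a (l 17332192) (l 17353496)) (l 382891403991)))) (b (a (l 2) (b (l 389334015175) (l 2))) (l 2))) (a (b (b (b (l 17300816) (l 17314112)) (b (l 17326672) (l 17340280))) (b (b (l 17357344) (l 17378312)) (l 4))) (b (b (b (l 17273360) (l 17256152)) (b (l 17236520) (l 17230736))) (l 4)))), by decide +kernel⟩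

theorem c_pm_113 : CertF 536870912 536870912 536870912 536870912 402653184 67108864 true true false .nn 1 1 3
    ndF0q1 ndF4q1 pcF3 cut_pm_113 Ext.none :=
  certF1 (fam := true) (s1 := true) (s2 := false) (a := 1) (b := 1) (c := 3) (cn := .nn) (n1 := ndF0q1) (n2 := ndF4q1) (pc := pcF3) (cut := cut_pm_113) (xt := Ext.none) (P1 := 536870912) (W1 := 536870912) (P2 := 536870912) (W2 := 536870912) (P3 := 402653184) (W3 := 67108864)
    rfl (fun _ => rfl) k0_pm_113

noncomputable def cut_pm_123 : Cut := Cut.of [[⟨3, 0, 0, 1449551462⟩]]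

noncomputable def f_pm_123 : ℕ → ℕ → ℕ → ℕ → Bool := onCell 536870912 536870912 1610612736 536870912 402653184 67108864
    (rowF 1 true true false .npn 1 2 3 (qsf 536870912 536870912 1073741824 536870912 3) ndF0q1 ndF4q2 pcF3 cut_pm_123 Ext.none)

def k0_pm_123 : ∃ t, chk3 f_pm_123 t 1 1 1 = true :=
  ⟨(b (a (b (a (b (a (b (a (l 16996184) (l 442952248999)) (l 110092731815)) (l 474628251863)) (a (l 17109192) (l 453690658583))) (b (l 1) (a (l 498788286599) (l 1)))) (a (a (b (l 17138472) (l 17143584)) (b (l 17215224) (l 17201672))) (b (a (l 17332736) (l 17489440)) (a (l 17291936) (l 17406288))))) (b (l 1) (b (l 1) (a (a (l 17530920) (l 1)) (l 1))))) (b (a (a (b (a (l 17130464) (l 17174024)) (l 17247664)) (b (l 17275296) (a (l 17175944) (l 17220192)))) (a (b (a (l 17397472) (l 17477488)) (b (l 17333856) (l 4))) (l 4))) (a (b (a (a (l 17070032) (l 17087024)) (a (l 17103144) (l 17124064))) (a (b (l 17038328) (b (l 17014232) (l 4))) (l 4))) (b (l 4) (l 4))))), by decide +kernel⟩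

theorem c_pm_123 : CertF 536870912 536870912 1073741824 536870912 402653184 67108864 true true false .npn 1 2 3
    ndF0q1 ndF4q2 pcF3 cut_pm_123 Ext.none :=
  certF1 (fam := true) (s1 := true) (s2 := false) (a := 1) (b := 2) (c := 3) (cn := .npn) (n1 := ndF0q1) (n2 := ndF4q2) (pc := pcF3) (cut := cut_pm_123) (xt := Ext.none) (P1 := 536870912) (W1 := 536870912) (P2 := 1073741824) (W2 := 536870912) (P3 := 402653184) (W3 := 67108864)
    rfl (fun _ => rfl) k0_pm_123

noncomputable def cut_pm_133 : Cut := Cut.of [[⟨3, 0, 0, 1449551462⟩]]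

noncomputable def f_pm_133 : ℕ → ℕ → ℕ → ℕ → Bool := onCell 536870912 536870912 0 1230186008 402653184 67108864
    (rowF 0 true true false .dn 1 3 3 (qsf 536870912 536870912 0 1230186008 3) ndF0q1 ndF4q3 pcF3 cut_pm_133 Ext.none)

def k0_pm_133 : ∃ t, chk3 f_pm_133 t 1 1 1 = true :=
  ⟨(b (l 2) (b (l 2) (a (b (l 2) (l 4)) (l 2)))), by decide +kernel⟩

theorem c_pm_133 : CertF 536870912 536870912 0 1230186008 402653184 67108864 true true false .dn 1 3 3
    ndF0q1 ndF4q3 pcF3 cut_pm_133 Ext.none :=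
  certF0 (fam := true) (s1 := true) (s2 := false) (a := 1) (b := 3) (c := 3) (cn := .dn) (n1 := ndF0q1) (n2 := ndF4q3) (pc := pcF3) (cut := cut_pm_133) (xt := Ext.none) (P1 := 536870912) (W1 := 536870912) (P2 := 0) (W2 := 1230186008) (P3 := 402653184) (W3 := 67108864)
    rfl k0_pm_133

noncomputable def cut_pm_202 : Cut := Cut.of [[⟨3, 0, 0, 1449551462⟩]]

noncomputable def f_pm_202 : ℕ → ℕ → ℕ → ℕ → Bool := onCell 0 536870912 0 536870912 402653184 67108864
    (rowF 0 true true false .pp 2 0 2 (qsf 0 536870912 0 536870912 2) ndF0q2 ndF4q0 pcF2 cut_pm_202 Ext.none)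

def k0_pm_202 : ∃ t, chk3 f_pm_202 t 1 1 1 = true :=
  ⟨(a (l 4) (a (b (b (b (a (l 17334256) (l 17364288)) (a (l 4) (l 17367456))) (b (l 17298904) (l 17254152))) (l 4)) (b (b (b (a (b (l 17384368) (l 17397320)) (b (a (l 17379048) (l 17430368)) (a (l 17415328) (l 17415056)))) (a (l 17389104) (a (l 17396040) (l 17400424)))) (a (b (l 17354840) (l 17320184)) (b (l 17377784) (l 17354296)))) (b (b (a (l 17284824) (l 17330312)) (a (l 17249968) (l 17304016))) (a (l 4) (b (l 17274968) (l 17244400))))))), by decide +kernel⟩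

theorem c_pm_202 : CertF 0 536870912 0 536870912 402653184 67108864 true true false .pp 2 0 2
    ndF0q2 ndF4q0 pcF2 cut_pm_202 Ext.none :=
  certF0 (fam := true) (s1 := true) (s2 := false) (a := 2) (b := 0) (c := 2) (cn := .pp) (n1 := ndF0q2) (n2 := ndF4q0) (pc := pcF2) (cut := cut_pm_202) (xt := Ext.none) (P1 := 0) (W1 := 536870912) (P2 := 0) (W2 := 536870912) (P3 := 402653184) (W3 := 67108864)
    rfl k0_pm_202

noncomputable def cut_pm_203 : Cut := Cut.of [[⟨3, 0, 0, 1449551462⟩]]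

noncomputable def f_pm_203 : ℕ → ℕ → ℕ → ℕ → Bool := onCell 0 536870912 1610612736 536870912 402653184 67108864
    (rowF 1 true true false .up 2 0 3 (qsf 0 536870912 0 536870912 3) ndF0q2 ndF4q0 pcF3 cut_pm_203 Ext.none)

def k0_pm_203 : ∃ t, chk3 f_pm_203 t 1 1 1 = true :=
  ⟨(a (l 4) (b (l 4) (l 2))), by decide +kernel⟩

theorem c_pm_203 : CertF 0 536870912 0 536870912 402653184 67108864 true true false .up 2 0 3
    ndF0q2 ndF4q0 pcF3 cut_pm_203 Ext.none :=
  certF1 (fam := true) (s1 := true) (s2 := false) (a := 2) (b := 0) (c := 3) (cn := .up) (n1 := ndF0q2) (n2 := ndF4q0) (pc := pcF3) (cut := cut_pm_203) (xt := Ext.none) (P1 := 0) (W1 := 536870912) (P2 := 0) (W2 := 536870912) (P3 := 402653184) (W3 := 67108864)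
    rfl (fun _ => rfl) k0_pm_203

noncomputable def cut_pm_213 : Cut := Cut.of [[⟨3, 0, 0, 1449551462⟩]]

noncomputable def f_pm_213 : ℕ → ℕ → ℕ → ℕ → Bool := onCell 0 536870912 536870912 536870912 402653184 67108864
    (rowF 0 true true false .pnn 2 1 3 (qsf 0 536870912 536870912 536870912 3) ndF0q2 ndF4q1 pcF3 cut_pm_213 Ext.none)

def k0_pm_213 : ∃ t, chk3 f_pm_213 t 1 1 1 = true :=
  ⟨(a (l 4) (b (l 4) (l 4))), by decide +kernel⟩

theorem c_pm_213 : CertF 0 536870912 536870912 536870912 402653184 67108864 true true false .pnn 2 1 3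
    ndF0q2 ndF4q1 pcF3 cut_pm_213 Ext.none :=
  certF0 (fam := true) (s1 := true) (s2 := false) (a := 2) (b := 1) (c := 3) (cn := .pnn) (n1 := ndF0q2) (n2 := ndF4q1) (pc := pcF3) (cut := cut_pm_213) (xt := Ext.none) (P1 := 0) (W1 := 536870912) (P2 := 536870912) (W2 := 536870912) (P3 := 402653184) (W3 := 67108864)
    rfl k0_pm_213

noncomputable def cut_mm_001 : Cut := Cut.of [[⟨3, 0, 0, 1449551462⟩]]

noncomputable def f_mm_001 : ℕ → ℕ → ℕ → ℕ → Bool := onCell 0 536870912 0 536870912 402653184 67108864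
    (rowF 0 true false false .up 0 0 1 (qsf 0 536870912 0 536870912 1) ndF0q0 ndF4q0 pcF1 cut_mm_001 Ext.none)

def k0_mm_001 : ∃ t, chk3 f_mm_001 t 1 1 1 = true :=
  ⟨(l 4), by decide +kernel⟩

theorem c_mm_001 : CertF 0 536870912 0 536870912 402653184 67108864 true false false .up 0 0 1
    ndF0q0 ndF4q0 pcF1 cut_mm_001 Ext.none :=
  certF0 (fam := true) (s1 := false) (s2 := false) (a := 0) (b := 0) (c := 1) (cn := .up) (n1 := ndF0q0) (n2 := ndF4q0) (pc := pcF1) (cut := cut_mm_001) (xt := Ext.none) (P1 := 0) (W1 := 536870912) (P2 := 0) (W2 := 536870912) (P3 := 402653184) (W3 := 67108864)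
    rfl k0_mm_001

noncomputable def cut_mm_011 : Cut := Cut.of [[⟨3, 0, 0, 1449551462⟩]]

noncomputable def f_mm_011 : ℕ → ℕ → ℕ → ℕ → Bool := onCell 0 536870912 536870912 536870912 402653184 67108864
    (rowF 0 true false false .pnn 0 1 1 (qsf 0 536870912 536870912 536870912 1) ndF0q0 ndF4q1 pcF1 cut_mm_011 Ext.none)

def k0_mm_011 : ∃ t, chk3 f_mm_011 t 1 1 1 = true :=
  ⟨(l 4), by decide +kernel⟩

theorem c_mm_011 : CertF 0 536870912 536870912 536870912 402653184 67108864 true false false .pnn 0 1 1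
    ndF0q0 ndF4q1 pcF1 cut_mm_011 Ext.none :=
  certF0 (fam := true) (s1 := false) (s2 := false) (a := 0) (b := 1) (c := 1) (cn := .pnn) (n1 := ndF0q0) (n2 := ndF4q1) (pc := pcF1) (cut := cut_mm_011) (xt := Ext.none) (P1 := 0) (W1 := 536870912) (P2 := 536870912) (W2 := 536870912) (P3 := 402653184) (W3 := 67108864)
    rfl k0_mm_011

noncomputable def cut_mm_012 : Cut := Cut.of [[⟨3, 0, 0, 1449551462⟩]]

noncomputable def f_mm_012 : ℕ → ℕ → ℕ → ℕ → Bool := onCell 0 536870912 536870912 536870912 402653184 67108864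
    (rowF 0 true false false .pnp 0 1 2 (qsf 0 536870912 536870912 536870912 2) ndF0q0 ndF4q1 pcF2 cut_mm_012 Ext.none)

def k0_mm_012 : ∃ t, chk3 f_mm_012 t 1 1 1 = true :=
  ⟨(l 4), by decide +kernel⟩

theorem c_mm_012 : CertF 0 536870912 536870912 536870912 402653184 67108864 true false false .pnp 0 1 2
    ndF0q0 ndF4q1 pcF2 cut_mm_012 Ext.none :=
  certF0 (fam := true) (s1 := false) (s2 := false) (a := 0) (b := 1) (c := 2) (cn := .pnp) (n1 := ndF0q0) (n2 := ndF4q1) (pc := pcF2) (cut := cut_mm_012) (xt := Ext.none) (P1 := 0) (W1 := 536870912) (P2 := 536870912) (W2 := 536870912) (P3 := 402653184) (W3 := 67108864)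
    rfl k0_mm_012

noncomputable def cut_mm_022 : Cut := Cut.of [[⟨3, 0, 0, 1449551462⟩]]

noncomputable def f_mm_022 : ℕ → ℕ → ℕ → ℕ → Bool := onCell 0 536870912 1073741824 536870912 402653184 67108864
    (rowF 0 true false false .pp 0 2 2 (qsf 0 536870912 1073741824 536870912 2) ndF0q0 ndF4q2 pcF2 cut_mm_022 Ext.none)

def k0_mm_022 : ∃ t, chk3 f_mm_022 t 1 1 1 = true :=
  ⟨(l 4), by decide +kernel⟩

theorem c_mm_022 : CertF 0 536870912 1073741824 536870912 402653184 67108864 true false false .pp 0 2 2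
    ndF0q0 ndF4q2 pcF2 cut_mm_022 Ext.none :=
  certF0 (fam := true) (s1 := false) (s2 := false) (a := 0) (b := 2) (c := 2) (cn := .pp) (n1 := ndF0q0) (n2 := ndF4q2) (pc := pcF2) (cut := cut_mm_022) (xt := Ext.none) (P1 := 0) (W1 := 536870912) (P2 := 1073741824) (W2 := 536870912) (P3 := 402653184) (W3 := 67108864)
    rfl k0_mm_022

noncomputable def cut_mm_023 : Cut := Cut.of [[⟨3, 0, 0, 1449551462⟩]]

noncomputable def f_mm_023 : ℕ → ℕ → ℕ → ℕ → Bool := onCell 0 536870912 1073741824 536870912 402653184 67108864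
    (rowF 0 true false false .up 0 2 3 (qsf 0 536870912 1073741824 536870912 3) ndF0q0 ndF4q2 pcF3 cut_mm_023 Ext.none)

def k0_mm_023 : ∃ t, chk3 f_mm_023 t 1 1 1 = true :=
  ⟨(l 4), by decide +kernel⟩

theorem c_mm_023 : CertF 0 536870912 1073741824 536870912 402653184 67108864 true false false .up 0 2 3
    ndF0q0 ndF4q2 pcF3 cut_mm_023 Ext.none :=
  certF0 (fam := true) (s1 := false) (s2 := false) (a := 0) (b := 2) (c := 3) (cn := .up) (n1 := ndF0q0) (n2 := ndF4q2) (pc := pcF3) (cut := cut_mm_023) (xt := Ext.none) (P1 := 0) (W1 := 536870912) (P2 := 1073741824) (W2 := 536870912) (P3 := 402653184) (W3 := 67108864)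
    rfl k0_mm_023

noncomputable def cut_mm_033 : Cut := Cut.of [[⟨3, 0, 0, 1449551462⟩]]

noncomputable def f_mm_033 : ℕ → ℕ → ℕ → ℕ → Bool := onCell 0 536870912 0 1230186008 402653184 67108864
    (rowF 0 true false false .pnn 0 3 3 (qsf 0 536870912 0 1230186008 3) ndF0q0 ndF4q3 pcF3 cut_mm_033 Ext.none)

def k0_mm_033 : ∃ t, chk3 f_mm_033 t 1 1 1 = true :=
  ⟨(l 4), by decide +kernel⟩

theorem c_mm_033 : CertF 0 536870912 0 1230186008 402653184 67108864 true false false .pnn 0 3 3
    ndF0q0 ndF4q3 pcF3 cut_mm_033 Ext.none :=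
  certF0 (fam := true) (s1 := false) (s2 := false) (a := 0) (b := 3) (c := 3) (cn := .pnn) (n1 := ndF0q0) (n2 := ndF4q3) (pc := pcF3) (cut := cut_mm_033) (xt := Ext.none) (P1 := 0) (W1 := 536870912) (P2 := 0) (W2 := 1230186008) (P3 := 402653184) (W3 := 67108864)
    rfl k0_mm_033

noncomputable def cut_mm_101 : Cut := Cut.of [[⟨3, 0, 0, 1449551462⟩]]

noncomputable def f_mm_101 : ℕ → ℕ → ℕ → ℕ → Bool := onCell 536870912 536870912 0 536870912 402653184 67108864
    (rowF 0 true false false .npn 1 0 1 (qsf 536870912 536870912 0 536870912 1) ndF0q1 ndF4q0 pcF1 cut_mm_101 Ext.none)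

def k0_mm_101 : ∃ t, chk3 f_mm_101 t 1 1 1 = true :=
  ⟨(l 4), by decide +kernel⟩

theorem c_mm_101 : CertF 536870912 536870912 0 536870912 402653184 67108864 true false false .npn 1 0 1
    ndF0q1 ndF4q0 pcF1 cut_mm_101 Ext.none :=
  certF0 (fam := true) (s1 := false) (s2 := false) (a := 1) (b := 0) (c := 1) (cn := .npn) (n1 := ndF0q1) (n2 := ndF4q0) (pc := pcF1) (cut := cut_mm_101) (xt := Ext.none) (P1 := 536870912) (W1 := 536870912) (P2 := 0) (W2 := 536870912) (P3 := 402653184) (W3 := 67108864)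
    rfl k0_mm_101

noncomputable def cut_mm_102 : Cut := Cut.of [[⟨3, 0, 0, 1449551462⟩]]

noncomputable def f_mm_102 : ℕ → ℕ → ℕ → ℕ → Bool := onCell 536870912 536870912 0 536870912 402653184 67108864
    (rowF 0 true false false .npp 1 0 2 (qsf 536870912 536870912 0 536870912 2) ndF0q1 ndF4q0 pcF2 cut_mm_102 Ext.none)

def k0_mm_102 : ∃ t, chk3 f_mm_102 t 1 1 1 = true :=
  ⟨(l 4), by decide +kernel⟩

theorem c_mm_102 : CertF 536870912 536870912 0 536870912 402653184 67108864 true false false .npp 1 0 2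
    ndF0q1 ndF4q0 pcF2 cut_mm_102 Ext.none :=
  certF0 (fam := true) (s1 := false) (s2 := false) (a := 1) (b := 0) (c := 2) (cn := .npp) (n1 := ndF0q1) (n2 := ndF4q0) (pc := pcF2) (cut := cut_mm_102) (xt := Ext.none) (P1 := 536870912) (W1 := 536870912) (P2 := 0) (W2 := 536870912) (P3 := 402653184) (W3 := 67108864)
    rfl k0_mm_102

noncomputable def cut_mm_112 : Cut := Cut.of [[⟨3, 0, 0, 1449551462⟩]]

noncomputable def f_mm_112 : ℕ → ℕ → ℕ → ℕ → Bool := onCell 536870912 536870912 536870912 536870912 402653184 67108864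
    (rowF 0 true false false .dn 1 1 2 (qsf 536870912 536870912 536870912 536870912 2) ndF0q1 ndF4q1 pcF2 cut_mm_112 Ext.none)

def k0_mm_112 : ∃ t, chk3 f_mm_112 t 1 1 1 = true :=
  ⟨(l 4), by decide +kernel⟩

theorem c_mm_112 : CertF 536870912 536870912 536870912 536870912 402653184 67108864 true false false .dn 1 1 2
    ndF0q1 ndF4q1 pcF2 cut_mm_112 Ext.none :=
  certF0 (fam := true) (s1 := false) (s2 := false) (a := 1) (b := 1) (c := 2) (cn := .dn) (n1 := ndF0q1) (n2 := ndF4q1) (pc := pcF2) (cut := cut_mm_112) (xt := Ext.none) (P1 := 536870912) (W1 := 536870912) (P2 := 536870912) (W2 := 536870912) (P3 := 402653184) (W3 := 67108864)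
    rfl k0_mm_112

noncomputable def cut_mm_113 : Cut := Cut.of [[⟨3, 0, 0, 1449551462⟩]]

noncomputable def f_mm_113 : ℕ → ℕ → ℕ → ℕ → Bool := onCell 536870912 536870912 536870912 536870912 402653184 67108864
    (rowF 0 true false false .nn 1 1 3 (qsf 536870912 536870912 536870912 536870912 3) ndF0q1 ndF4q1 pcF3 cut_mm_113 Ext.none)

def k0_mm_113 : ∃ t, chk3 f_mm_113 t 1 1 1 = true :=
  ⟨(l 4), by decide +kernel⟩

theorem c_mm_113 : CertF 536870912 536870912 536870912 536870912 402653184 67108864 true false false .nn 1 1 3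
    ndF0q1 ndF4q1 pcF3 cut_mm_113 Ext.none :=
  certF0 (fam := true) (s1 := false) (s2 := false) (a := 1) (b := 1) (c := 3) (cn := .nn) (n1 := ndF0q1) (n2 := ndF4q1) (pc := pcF3) (cut := cut_mm_113) (xt := Ext.none) (P1 := 536870912) (W1 := 536870912) (P2 := 536870912) (W2 := 536870912) (P3 := 402653184) (W3 := 67108864)
    rfl k0_mm_113

noncomputable def cut_mm_123 : Cut := Cut.of [[⟨3, 0, 0, 1449551462⟩]]

noncomputable def f_mm_123 : ℕ → ℕ → ℕ → ℕ → Bool := onCell 536870912 536870912 1073741824 536870912 402653184 67108864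
    (rowF 0 true false false .npn 1 2 3 (qsf 536870912 536870912 1073741824 536870912 3) ndF0q1 ndF4q2 pcF3 cut_mm_123 Ext.none)

def k0_mm_123 : ∃ t, chk3 f_mm_123 t 1 1 1 = true :=
  ⟨(l 4), by decide +kernel⟩

theorem c_mm_123 : CertF 536870912 536870912 1073741824 536870912 402653184 67108864 true false false .npn 1 2 3
    ndF0q1 ndF4q2 pcF3 cut_mm_123 Ext.none :=
  certF0 (fam := true) (s1 := false) (s2 := false) (a := 1) (b := 2) (c := 3) (cn := .npn) (n1 := ndF0q1) (n2 := ndF4q2) (pc := pcF3) (cut := cut_mm_123) (xt := Ext.none) (P1 := 536870912) (W1 := 536870912) (P2 := 1073741824) (W2 := 536870912) (P3 := 402653184) (W3 := 67108864)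
    rfl k0_mm_123

noncomputable def cut_mm_133 : Cut := Cut.of [[⟨3, 0, 0, 1449551462⟩]]

noncomputable def f_mm_133 : ℕ → ℕ → ℕ → ℕ → Bool := onCell 536870912 536870912 0 1230186008 402653184 67108864
    (rowF 0 true false false .dn 1 3 3 (qsf 536870912 536870912 0 1230186008 3) ndF0q1 ndF4q3 pcF3 cut_mm_133 Ext.none)

def k0_mm_133 : ∃ t, chk3 f_mm_133 t 1 1 1 = true :=
  ⟨(l 4), by decide +kernel⟩

theorem c_mm_133 : CertF 536870912 536870912 0 1230186008 402653184 67108864 true false false .dn 1 3 3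
    ndF0q1 ndF4q3 pcF3 cut_mm_133 Ext.none :=
  certF0 (fam := true) (s1 := false) (s2 := false) (a := 1) (b := 3) (c := 3) (cn := .dn) (n1 := ndF0q1) (n2 := ndF4q3) (pc := pcF3) (cut := cut_mm_133) (xt := Ext.none) (P1 := 536870912) (W1 := 536870912) (P2 := 0) (W2 := 1230186008) (P3 := 402653184) (W3 := 67108864)
    rfl k0_mm_133

noncomputable def cut_mm_202 : Cut := Cut.of [[⟨3, 0, 0, 1449551462⟩]]

noncomputable def f_mm_202 : ℕ → ℕ → ℕ → ℕ → Bool := onCell 0 536870912 0 536870912 402653184 67108864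
    (rowF 0 true false false .pp 2 0 2 (qsf 0 536870912 0 536870912 2) ndF0q2 ndF4q0 pcF2 cut_mm_202 Ext.none)

def k0_mm_202 : ∃ t, chk3 f_mm_202 t 1 1 1 = true :=
  ⟨(l 4), by decide +kernel⟩

theorem c_mm_202 : CertF 0 536870912 0 536870912 402653184 67108864 true false false .pp 2 0 2
    ndF0q2 ndF4q0 pcF2 cut_mm_202 Ext.none :=
  certF0 (fam := true) (s1 := false) (s2 := false) (a := 2) (b := 0) (c := 2) (cn := .pp) (n1 := ndF0q2) (n2 := ndF4q0) (pc := pcF2) (cut := cut_mm_202) (xt := Ext.none) (P1 := 0) (W1 := 536870912) (P2 := 0) (W2 := 536870912) (P3 := 402653184) (W3 := 67108864)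
    rfl k0_mm_202

noncomputable def cut_mm_203 : Cut := Cut.of [[⟨3, 0, 0, 1449551462⟩]]

noncomputable def f_mm_203 : ℕ → ℕ → ℕ → ℕ → Bool := onCell 0 536870912 0 536870912 402653184 67108864
    (rowF 0 true false false .up 2 0 3 (qsf 0 536870912 0 536870912 3) ndF0q2 ndF4q0 pcF3 cut_mm_203 Ext.none)

def k0_mm_203 : ∃ t, chk3 f_mm_203 t 1 1 1 = true :=
  ⟨(l 4), by decide +kernel⟩

theorem c_mm_203 : CertF 0 536870912 0 536870912 402653184 67108864 true false false .up 2 0 3
    ndF0q2 ndF4q0 pcF3 cut_mm_203 Ext.none :=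
  certF0 (fam := true) (s1 := false) (s2 := false) (a := 2) (b := 0) (c := 3) (cn := .up) (n1 := ndF0q2) (n2 := ndF4q0) (pc := pcF3) (cut := cut_mm_203) (xt := Ext.none) (P1 := 0) (W1 := 536870912) (P2 := 0) (W2 := 536870912) (P3 := 402653184) (W3 := 67108864)
    rfl k0_mm_203

noncomputable def cut_mm_213 : Cut := Cut.of [[⟨3, 0, 0, 1449551462⟩]]

noncomputable def f_mm_213 : ℕ → ℕ → ℕ → ℕ → Bool := onCell 0 536870912 536870912 536870912 402653184 67108864
    (rowF 0 true false false .pnn 2 1 3 (qsf 0 536870912 536870912 536870912 3) ndF0q2 ndF4q1 pcF3 cut_mm_213 Ext.none)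

def k0_mm_213 : ∃ t, chk3 f_mm_213 t 1 1 1 = true :=
  ⟨(l 4), by decide +kernel⟩

theorem c_mm_213 : CertF 0 536870912 536870912 536870912 402653184 67108864 true false false .pnn 2 1 3
    ndF0q2 ndF4q1 pcF3 cut_mm_213 Ext.none :=
  certF0 (fam := true) (s1 := false) (s2 := false) (a := 2) (b := 1) (c := 3) (cn := .pnn) (n1 := ndF0q2) (n2 := ndF4q1) (pc := pcF3) (cut := cut_mm_213) (xt := Ext.none) (P1 := 0) (W1 := 536870912) (P2 := 536870912) (W2 := 536870912) (P3 := 402653184) (W3 := 67108864)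
    rfl k0_mm_213

end Pool.Agent.Strip051.G.I3_8_7_16.Tab.C.FA04

namespace Pool.Agent.Strip051.G.I3_8_7_16.Tab.C.FA11

open Pool.Agent.Strip051.PB Pool.Agent.Strip051.PB.T
open Pool.Agent.Strip051.G.I3_8_7_16.Tab

noncomputable def f_pp_001 : ℕ → ℕ → ℕ → ℕ → Bool := onCell 0 536870912 0 536870912 402653184 67108864
    (rowF 0 true true true .up 0 0 1 (qsf 0 536870912 0 536870912 1) ndF1q0 ndF1q0 pcF1 Cut.none Ext.none)

def k0_pp_001 : ∃ t, chk3 f_pp_001 t 1 1 1 = true :=
  ⟨(l 4), by decide +kernel⟩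

theorem c_pp_001 : CertF 0 536870912 0 536870912 402653184 67108864 true true true .up 0 0 1
    ndF1q0 ndF1q0 pcF1 Cut.none Ext.none :=
  certF0 (fam := true) (s1 := true) (s2 := true) (a := 0) (b := 0) (c := 1) (cn := .up) (n1 := ndF1q0) (n2 := ndF1q0) (pc := pcF1) (cut := Cut.none) (xt := Ext.none) (P1 := 0) (W1 := 536870912) (P2 := 0) (W2 := 536870912) (P3 := 402653184) (W3 := 67108864)
    rfl k0_pp_001

noncomputable def f_pp_011 : ℕ → ℕ → ℕ → ℕ → Bool := onCell 0 536870912 536870912 536870912 402653184 67108864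
    (rowF 0 true true true .pnn 0 1 1 (qsf 0 536870912 536870912 536870912 1) ndF1q0 ndF1q1 pcF1 Cut.none Ext.none)

def k0_pp_011 : ∃ t, chk3 f_pp_011 t 1 1 1 = true :=
  ⟨(l 4), by decide +kernel⟩

theorem c_pp_011 : CertF 0 536870912 536870912 536870912 402653184 67108864 true true true .pnn 0 1 1
    ndF1q0 ndF1q1 pcF1 Cut.none Ext.none :=
  certF0 (fam := true) (s1 := true) (s2 := true) (a := 0) (b := 1) (c := 1) (cn := .pnn) (n1 := ndF1q0) (n2 := ndF1q1) (pc := pcF1) (cut := Cut.none) (xt := Ext.none) (P1 := 0) (W1 := 536870912) (P2 := 536870912) (W2 := 536870912) (P3 := 402653184) (W3 := 67108864)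
    rfl k0_pp_011

noncomputable def f_pp_012 : ℕ → ℕ → ℕ → ℕ → Bool := onCell 0 536870912 536870912 536870912 402653184 67108864
    (rowF 0 true true true .pnp 0 1 2 (qsf 0 536870912 536870912 536870912 2) ndF1q0 ndF1q1 pcF2 Cut.none Ext.none)

def k0_pp_012 : ∃ t, chk3 f_pp_012 t 1 1 1 = true :=
  ⟨(l 4), by decide +kernel⟩

theorem c_pp_012 : CertF 0 536870912 536870912 536870912 402653184 67108864 true true true .pnp 0 1 2
    ndF1q0 ndF1q1 pcF2 Cut.none Ext.none :=
  certF0 (fam := true) (s1 := true) (s2 := true) (a := 0) (b := 1) (c := 2) (cn := .pnp) (n1 := ndF1q0) (n2 := ndF1q1) (pc := pcF2) (cut := Cut.none) (xt := Ext.none) (P1 := 0) (W1 := 536870912) (P2 := 536870912) (W2 := 536870912) (P3 := 402653184) (W3 := 67108864)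
    rfl k0_pp_012

noncomputable def cut_pp_022_a : Cut := Cut.of [[⟨0, 0, 0, 67108864⟩, ⟨1, 1, 0, 67108864⟩, ⟨2, 1, 0, 67108864⟩]]

noncomputable def f_pp_022_a : ℕ → ℕ → ℕ → ℕ → Bool := onCell 0 536870912 0 536870912 402653184 67108864
    (rowF 0 true true true .pp 0 2 2 (qsf 0 536870912 0 536870912 2) ndF1q0 ndF1q2a pcF2 cut_pp_022_a Ext.none)

def k0_pp_022_a : ∃ t, chk3 f_pp_022_a t 1 1 1 = true :=
  ⟨(a (b (a (a (b (a (b (l 16515600) (l 16529520)) (l 16534920)) (a (a (b (l 16545536) (l 16569848)) (b (l 16553448) (l 16579072))) (b (l 16567000) (l 16658720)))) (b (a (l 16551616) (l 16578552)) (a (b (l 16614408) (l 16673040)) (l 4)))) (a (b (l 27615162407) (l 4)) (l 4))) (a (a (a (a (b (b (b (l 16591304) (l 16607600)) (a (b (l 16623064) (l 16642776)) (l 16700888))) (b (b (a (b (l 16659296) (l 16671968)) (l 16691648)) (a (a (l 6) (l 16715664)) (a (l 16739440) (l 16743376)))) (l 6))) (b (b (l 16630528) (a (l 16706216) (l 16713424))) (b (b (a (l 16698840) (l 4)) (l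 4)) (l 4)))) (b (b (a (l 16664352) (l 16641136)) (b (a (l 16653088) (l 4)) (l 4))) (l 4))) (l 4)) (l 4))) (l 4)), by decide +kernel⟩

theorem c_pp_022_a : CertF 0 536870912 0 536870912 402653184 67108864 true true true .pp 0 2 2
    ndF1q0 ndF1q2a pcF2 cut_pp_022_a Ext.none :=
  certF0 (fam := true) (s1 := true) (s2 := true) (a := 0) (b := 2) (c := 2) (cn := .pp) (n1 := ndF1q0) (n2 := ndF1q2a) (pc := pcF2) (cut := cut_pp_022_a) (xt := Ext.none) (P1 := 0) (W1 := 536870912) (P2 := 0) (W2 := 536870912) (P3 := 402653184) (W3 := 67108864)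
    rfl k0_pp_022_a

noncomputable def cut_pp_022_b : Cut := Cut.of [[⟨0, 0, 0, 67108864⟩, ⟨1, 1, 0, 67108864⟩, ⟨2, 1, 0, 67108864⟩]]

noncomputable def f_pp_022_b : ℕ → ℕ → ℕ → ℕ → Bool := onCell 0 536870912 1073741824 536870912 402653184 67108864
    (rowF 1 true true true .pp 0 2 2 (qsf 0 536870912 1239849684 370763052 2) ndF1q0 ndF1q2b pcF2 cut_pp_022_b Ext.none)

def k0_pp_022_b : ∃ t, chk3 f_pp_022_b t 1 1 1 = true :=
  ⟨(b (a (b (l 1) (a (b (a (a (b (a (l 16548976) (l 1)) (l 16591080)) (b (l 1) (l 16566392))) (l 1)) (a (a (b (l 16452432) (l 16401096)) (l 16551320)) (b (l 148209673655) (l 16573560)))) (l 1))) (l 1)) (b (a (a (b (a (a (l 16418568) (l 16401656)) (l 16642816)) (a (b (l 16323672) (l 16308368)) (l 16453000))) (b (a (b (l 16703040) (l 16597472)) (l 1)) (l 4))) (l 1)) (a (a (b (a (l 16373088) (l 4)) (l 4)) (l 4)) (l 4)))), by decide +kernel⟩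

theorem c_pp_022_b : CertF 0 536870912 1239849684 370763052 402653184 67108864 true true true .pp 0 2 2
    ndF1q0 ndF1q2b pcF2 cut_pp_022_b Ext.none :=
  certF1 (fam := true) (s1 := true) (s2 := true) (a := 0) (b := 2) (c := 2) (cn := .pp) (n1 := ndF1q0) (n2 := ndF1q2b) (pc := pcF2) (cut := cut_pp_022_b) (xt := Ext.none) (P1 := 0) (W1 := 536870912) (P2 := 1239849684) (W2 := 370763052) (P3 := 402653184) (W3 := 67108864)
    rfl (fun _ => rfl) k0_pp_022_b

noncomputable def f_pp_023_a : ℕ → ℕ → ℕ → ℕ → Bool := onCell 1610612736 536870912 0 536870912 402653184 67108864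
    (rowF 2 true true true .up 0 2 3 (qsf 0 536870912 0 536870912 3) ndF1q0 ndF1q2a pcF3 Cut.none Ext.none)

def k0_pp_023_a : ∃ t, chk3 f_pp_023_a t 1 1 1 = true :=
  ⟨(l 4), by decide +kernel⟩

theorem c_pp_023_a : CertF 0 536870912 0 536870912 402653184 67108864 true true true .up 0 2 3
    ndF1q0 ndF1q2a pcF3 Cut.none Ext.none :=
  certF2 (fam := true) (s1 := true) (s2 := true) (a := 0) (b := 2) (c := 3) (cn := .up) (n1 := ndF1q0) (n2 := ndF1q2a) (pc := pcF3) (cut := Cut.none) (xt := Ext.none) (P1 := 0) (W1 := 536870912) (P2 := 0) (W2 := 536870912) (P3 := 402653184) (W3 := 67108864)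
    rfl (fun _ => rfl) k0_pp_023_a

noncomputable def f_pp_023_b : ℕ → ℕ → ℕ → ℕ → Bool := onCell 1610612736 536870912 1239849684 370763052 402653184 67108864
    (rowF 2 true true true .up 0 2 3 (qsf 0 536870912 1239849684 370763052 3) ndF1q0 ndF1q2b pcF3 Cut.none Ext.none)

def k0_pp_023_b : ∃ t, chk3 f_pp_023_b t 1 1 1 = true :=
  ⟨(a (l 4) (l 4)), by decide +kernel⟩

theorem c_pp_023_b : CertF 0 536870912 1239849684 370763052 402653184 67108864 true true true .up 0 2 3
    ndF1q0 ndF1q2b pcF3 Cut.none Ext.none :=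
  certF2 (fam := true) (s1 := true) (s2 := true) (a := 0) (b := 2) (c := 3) (cn := .up) (n1 := ndF1q0) (n2 := ndF1q2b) (pc := pcF3) (cut := Cut.none) (xt := Ext.none) (P1 := 0) (W1 := 536870912) (P2 := 1239849684) (W2 := 370763052) (P3 := 402653184) (W3 := 67108864)
    rfl (fun _ => rfl) k0_pp_023_b

noncomputable def f_pp_033 : ℕ → ℕ → ℕ → ℕ → Bool := onCell 0 536870912 1610612736 536870912 402653184 67108864
    (rowF 0 true true true .pnn 0 3 3 (qsf 0 536870912 1610612736 536870912 3) ndF1q0 ndF1q3 pcF3 Cut.none Ext.none)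

def k0_pp_033 : ∃ t, chk3 f_pp_033 t 1 1 1 = true :=
  ⟨(a (b (l 4) (l 4)) (l 4)), by decide +kernel⟩

theorem c_pp_033 : CertF 0 536870912 1610612736 536870912 402653184 67108864 true true true .pnn 0 3 3
    ndF1q0 ndF1q3 pcF3 Cut.none Ext.none :=
  certF0 (fam := true) (s1 := true) (s2 := true) (a := 0) (b := 3) (c := 3) (cn := .pnn) (n1 := ndF1q0) (n2 := ndF1q3) (pc := pcF3) (cut := Cut.none) (xt := Ext.none) (P1 := 0) (W1 := 536870912) (P2 := 1610612736) (W2 := 536870912) (P3 := 402653184) (W3 := 67108864)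
    rfl k0_pp_033

noncomputable def f_pp_101 : ℕ → ℕ → ℕ → ℕ → Bool := onCell 536870912 536870912 0 536870912 402653184 67108864
    (rowF 0 true true true .npn 1 0 1 (qsf 536870912 536870912 0 536870912 1) ndF1q1 ndF1q0 pcF1 Cut.none Ext.none)

def k0_pp_101 : ∃ t, chk3 f_pp_101 t 1 1 1 = true :=
  ⟨(l 4), by decide +kernel⟩

theorem c_pp_101 : CertF 536870912 536870912 0 536870912 402653184 67108864 true true true .npn 1 0 1
    ndF1q1 ndF1q0 pcF1 Cut.none Ext.none :=
  certF0 (fam := true) (s1 := true) (s2 := true) (a := 1) (b := 0) (c := 1) (cn := .npn) (n1 := ndF1q1) (n2 := ndF1q0) (pc := pcF1) (cut := Cut.none) (xt := Ext.none) (P1 := 536870912) (W1 := 536870912) (P2 := 0) (W2 := 536870912) (P3 := 402653184) (W3 := 67108864)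
    rfl k0_pp_101

noncomputable def f_pp_102 : ℕ → ℕ → ℕ → ℕ → Bool := onCell 536870912 536870912 0 536870912 402653184 67108864
    (rowF 0 true true true .npp 1 0 2 (qsf 536870912 536870912 0 536870912 2) ndF1q1 ndF1q0 pcF2 Cut.none Ext.none)

def k0_pp_102 : ∃ t, chk3 f_pp_102 t 1 1 1 = true :=
  ⟨(l 4), by decide +kernel⟩

theorem c_pp_102 : CertF 536870912 536870912 0 536870912 402653184 67108864 true true true .npp 1 0 2
    ndF1q1 ndF1q0 pcF2 Cut.none Ext.none :=
  certF0 (fam := true) (s1 := true) (s2 := true) (a := 1) (b := 0) (c := 2) (cn := .npp) (n1 := ndF1q1) (n2 := ndF1q0) (pc := pcF2) (cut := Cut.none) (xt := Ext.none) (P1 := 536870912) (W1 := 536870912) (P2 := 0) (W2 := 536870912) (P3 := 402653184) (W3 := 67108864)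
    rfl k0_pp_102

noncomputable def f_pp_112 : ℕ → ℕ → ℕ → ℕ → Bool := onCell 536870912 536870912 536870912 536870912 402653184 67108864
    (rowF 0 true true true .dn 1 1 2 (qsf 536870912 536870912 536870912 536870912 2) ndF1q1 ndF1q1 pcF2 Cut.none Ext.none)

def k0_pp_112 : ∃ t, chk3 f_pp_112 t 1 1 1 = true :=
  ⟨(l 4), by decide +kernel⟩

theorem c_pp_112 : CertF 536870912 536870912 536870912 536870912 402653184 67108864 true true true .dn 1 1 2
    ndF1q1 ndF1q1 pcF2 Cut.none Ext.none :=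
  certF0 (fam := true) (s1 := true) (s2 := true) (a := 1) (b := 1) (c := 2) (cn := .dn) (n1 := ndF1q1) (n2 := ndF1q1) (pc := pcF2) (cut := Cut.none) (xt := Ext.none) (P1 := 536870912) (W1 := 536870912) (P2 := 536870912) (W2 := 536870912) (P3 := 402653184) (W3 := 67108864)
    rfl k0_pp_112

noncomputable def f_pp_113 : ℕ → ℕ → ℕ → ℕ → Bool := onCell 536870912 536870912 536870912 536870912 402653184 67108864
    (rowF 0 true true true .nn 1 1 3 (qsf 536870912 536870912 536870912 536870912 3) ndF1q1 ndF1q1 pcF3 Cut.none Ext.none)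

def k0_pp_113 : ∃ t, chk3 f_pp_113 t 1 1 1 = true :=
  ⟨(l 4), by decide +kernel⟩

theorem c_pp_113 : CertF 536870912 536870912 536870912 536870912 402653184 67108864 true true true .nn 1 1 3
    ndF1q1 ndF1q1 pcF3 Cut.none Ext.none :=
  certF0 (fam := true) (s1 := true) (s2 := true) (a := 1) (b := 1) (c := 3) (cn := .nn) (n1 := ndF1q1) (n2 := ndF1q1) (pc := pcF3) (cut := Cut.none) (xt := Ext.none) (P1 := 536870912) (W1 := 536870912) (P2 := 536870912) (W2 := 536870912) (P3 := 402653184) (W3 := 67108864)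
    rfl k0_pp_113

noncomputable def f_pp_123_a : ℕ → ℕ → ℕ → ℕ → Bool := onCell 536870912 536870912 0 536870912 402653184 67108864
    (rowF 0 true true true .npn 1 2 3 (qsf 536870912 536870912 0 536870912 3) ndF1q1 ndF1q2a pcF3 Cut.none Ext.none)

def k0_pp_123_a : ∃ t, chk3 f_pp_123_a t 1 1 1 = true :=
  ⟨(l 4), by decide +kernel⟩

theorem c_pp_123_a : CertF 536870912 536870912 0 536870912 402653184 67108864 true true true .npn 1 2 3
    ndF1q1 ndF1q2a pcF3 Cut.none Ext.none :=
  certF0 (fam := true) (s1 := true) (s2 := true) (a := 1) (b := 2) (c := 3) (cn := .npn) (n1 := ndF1q1) (n2 := ndF1q2a) (pc := pcF3) (cut := Cut.none) (xt := Ext.none) (P1 := 536870912) (W1 := 536870912) (P2 := 0) (W2 := 536870912) (P3 := 402653184) (W3 := 67108864)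
    rfl k0_pp_123_a

noncomputable def f_pp_123_b : ℕ → ℕ → ℕ → ℕ → Bool := onCell 536870912 536870912 1239849684 370763052 402653184 67108864
    (rowF 0 true true true .npn 1 2 3 (qsf 536870912 536870912 1239849684 370763052 3) ndF1q1 ndF1q2b pcF3 Cut.none Ext.none)

def k0_pp_123_b : ∃ t, chk3 f_pp_123_b t 1 1 1 = true :=
  ⟨(l 4), by decide +kernel⟩

theorem c_pp_123_b : CertF 536870912 536870912 1239849684 370763052 402653184 67108864 true true true .npn 1 2 3
    ndF1q1 ndF1q2b pcF3 Cut.none Ext.none :=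
  certF0 (fam := true) (s1 := true) (s2 := true) (a := 1) (b := 2) (c := 3) (cn := .npn) (n1 := ndF1q1) (n2 := ndF1q2b) (pc := pcF3) (cut := Cut.none) (xt := Ext.none) (P1 := 536870912) (W1 := 536870912) (P2 := 1239849684) (W2 := 370763052) (P3 := 402653184) (W3 := 67108864)
    rfl k0_pp_123_b

noncomputable def f_pp_133 : ℕ → ℕ → ℕ → ℕ → Bool := onCell 536870912 536870912 1610612736 536870912 402653184 67108864
    (rowF 0 true true true .dn 1 3 3 (qsf 536870912 536870912 1610612736 536870912 3) ndF1q1 ndF1q3 pcF3 Cut.none Ext.none)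

def k0_pp_133 : ∃ t, chk3 f_pp_133 t 1 1 1 = true :=
  ⟨(l 4), by decide +kernel⟩

theorem c_pp_133 : CertF 536870912 536870912 1610612736 536870912 402653184 67108864 true true true .dn 1 3 3
    ndF1q1 ndF1q3 pcF3 Cut.none Ext.none :=
  certF0 (fam := true) (s1 := true) (s2 := true) (a := 1) (b := 3) (c := 3) (cn := .dn) (n1 := ndF1q1) (n2 := ndF1q3) (pc := pcF3) (cut := Cut.none) (xt := Ext.none) (P1 := 536870912) (W1 := 536870912) (P2 := 1610612736) (W2 := 536870912) (P3 := 402653184) (W3 := 67108864)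
    rfl k0_pp_133

noncomputable def f_pp_202_a : ℕ → ℕ → ℕ → ℕ → Bool := onCell 0 536870912 0 536870912 402653184 67108864
    (rowF 0 true true true .pp 2 0 2 (qsf 0 536870912 0 536870912 2) ndF1q2a ndF1q0 pcF2 Cut.none Ext.none)

def k0_pp_202_a : ∃ t, chk3 f_pp_202_a t 1 1 1 = true :=
  ⟨(l 5), by decide +kernel⟩

theorem c_pp_202_a : CertF 0 536870912 0 536870912 402653184 67108864 true true true .pp 2 0 2
    ndF1q2a ndF1q0 pcF2 Cut.none Ext.none :=
  certF0 (fam := true) (s1 := true) (s2 := true) (a := 2) (b := 0) (c := 2) (cn := .pp) (n1 := ndF1q2a) (n2 := ndF1q0) (pc := pcF2) (cut := Cut.none) (xt := Ext.none) (P1 := 0) (W1 := 536870912) (P2 := 0) (W2 := 536870912) (P3 := 402653184) (W3 := 67108864)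
    rfl k0_pp_202_a

noncomputable def f_pp_202_b : ℕ → ℕ → ℕ → ℕ → Bool := onCell 1239849684 370763052 0 536870912 402653184 67108864
    (rowF 0 true true true .pp 2 0 2 (qsf 1239849684 370763052 0 536870912 2) ndF1q2b ndF1q0 pcF2 Cut.none Ext.none)

def k0_pp_202_b : ∃ t, chk3 f_pp_202_b t 1 1 1 = true :=
  ⟨(l 5), by decide +kernel⟩

theorem c_pp_202_b : CertF 1239849684 370763052 0 536870912 402653184 67108864 true true true .pp 2 0 2
    ndF1q2b ndF1q0 pcF2 Cut.none Ext.none :=
  certF0 (fam := true) (s1 := true) (s2 := true) (a := 2) (b := 0) (c := 2) (cn := .pp) (n1 := ndF1q2b) (n2 := ndF1q0) (pc := pcF2) (cut := Cut.none) (xt := Ext.none) (P1 := 1239849684) (W1 := 370763052) (P2 := 0) (W2 := 536870912) (P3 := 402653184) (W3 := 67108864)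
    rfl k0_pp_202_b

noncomputable def f_pp_203_a : ℕ → ℕ → ℕ → ℕ → Bool := onCell 0 536870912 0 536870912 402653184 67108864
    (rowF 0 true true true .up 2 0 3 (qsf 0 536870912 0 536870912 3) ndF1q2a ndF1q0 pcF3 Cut.none Ext.none)

def k0_pp_203_a : ∃ t, chk3 f_pp_203_a t 1 1 1 = true :=
  ⟨(l 5), by decide +kernel⟩

theorem c_pp_203_a : CertF 0 536870912 0 536870912 402653184 67108864 true true true .up 2 0 3
    ndF1q2a ndF1q0 pcF3 Cut.none Ext.none :=
  certF0 (fam := true) (s1 := true) (s2 := true) (a := 2) (b := 0) (c := 3) (cn := .up) (n1 := ndF1q2a) (n2 := ndF1q0) (pc := pcF3) (cut := Cut.none) (xt := Ext.none) (P1 := 0) (W1 := 536870912) (P2 := 0) (W2 := 536870912) (P3 := 402653184) (W3 := 67108864)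
    rfl k0_pp_203_a

noncomputable def f_pp_203_b : ℕ → ℕ → ℕ → ℕ → Bool := onCell 1239849684 370763052 0 536870912 402653184 67108864
    (rowF 0 true true true .up 2 0 3 (qsf 1239849684 370763052 0 536870912 3) ndF1q2b ndF1q0 pcF3 Cut.none Ext.none)

def k0_pp_203_b : ∃ t, chk3 f_pp_203_b t 1 1 1 = true :=
  ⟨(l 5), by decide +kernel⟩

theorem c_pp_203_b : CertF 1239849684 370763052 0 536870912 402653184 67108864 true true true .up 2 0 3
    ndF1q2b ndF1q0 pcF3 Cut.none Ext.none :=
  certF0 (fam := true) (s1 := true) (s2 := true) (a := 2) (b := 0) (c := 3) (cn := .up) (n1 := ndF1q2b) (n2 := ndF1q0) (pc := pcF3) (cut := Cut.none) (xt := Ext.none) (P1 := 1239849684) (W1 := 370763052) (P2 := 0) (W2 := 536870912) (P3 := 402653184) (W3 := 67108864)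
    rfl k0_pp_203_b

noncomputable def f_pp_213_a : ℕ → ℕ → ℕ → ℕ → Bool := onCell 0 536870912 536870912 536870912 402653184 67108864
    (rowF 0 true true true .pnn 2 1 3 (qsf 0 536870912 536870912 536870912 3) ndF1q2a ndF1q1 pcF3 Cut.none Ext.none)

def k0_pp_213_a : ∃ t, chk3 f_pp_213_a t 1 1 1 = true :=
  ⟨(l 4), by decide +kernel⟩

theorem c_pp_213_a : CertF 0 536870912 536870912 536870912 402653184 67108864 true true true .pnn 2 1 3
    ndF1q2a ndF1q1 pcF3 Cut.none Ext.none :=
  certF0 (fam := true) (s1 := true) (s2 := true) (a := 2) (b := 1) (c := 3) (cn := .pnn) (n1 := ndF1q2a) (n2 := ndF1q1) (pc := pcF3) (cut := Cut.none) (xt := Ext.none) (P1 := 0) (W1 := 536870912) (P2 := 536870912) (W2 := 536870912) (P3 := 402653184) (W3 := 67108864)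
    rfl k0_pp_213_a

noncomputable def f_pp_213_b : ℕ → ℕ → ℕ → ℕ → Bool := onCell 1239849684 370763052 536870912 536870912 402653184 67108864
    (rowF 0 true true true .pnn 2 1 3 (qsf 1239849684 370763052 536870912 536870912 3) ndF1q2b ndF1q1 pcF3 Cut.none Ext.none)

def k0_pp_213_b : ∃ t, chk3 f_pp_213_b t 1 1 1 = true :=
  ⟨(l 4), by decide +kernel⟩

theorem c_pp_213_b : CertF 1239849684 370763052 536870912 536870912 402653184 67108864 true true true .pnn 2 1 3
    ndF1q2b ndF1q1 pcF3 Cut.none Ext.none :=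
  certF0 (fam := true) (s1 := true) (s2 := true) (a := 2) (b := 1) (c := 3) (cn := .pnn) (n1 := ndF1q2b) (n2 := ndF1q1) (pc := pcF3) (cut := Cut.none) (xt := Ext.none) (P1 := 1239849684) (W1 := 370763052) (P2 := 536870912) (W2 := 536870912) (P3 := 402653184) (W3 := 67108864)
    rfl k0_pp_213_b

noncomputable def f_pp_303 : ℕ → ℕ → ℕ → ℕ → Bool := onCell 1610612736 536870912 0 536870912 402653184 67108864
    (rowF 0 true true true .npn 3 0 3 (qsf 1610612736 536870912 0 536870912 3) ndF1q3 ndF1q0 pcF3 Cut.none Ext.none)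

def k0_pp_303 : ∃ t, chk3 f_pp_303 t 1 1 1 = true :=
  ⟨(l 5), by decide +kernel⟩

theorem c_pp_303 : CertF 1610612736 536870912 0 536870912 402653184 67108864 true true true .npn 3 0 3
    ndF1q3 ndF1q0 pcF3 Cut.none Ext.none :=
  certF0 (fam := true) (s1 := true) (s2 := true) (a := 3) (b := 0) (c := 3) (cn := .npn) (n1 := ndF1q3) (n2 := ndF1q0) (pc := pcF3) (cut := Cut.none) (xt := Ext.none) (P1 := 1610612736) (W1 := 536870912) (P2 := 0) (W2 := 536870912) (P3 := 402653184) (W3 := 67108864)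
    rfl k0_pp_303

noncomputable def f_pp_313 : ℕ → ℕ → ℕ → ℕ → Bool := onCell 1610612736 536870912 536870912 536870912 402653184 67108864
    (rowF 0 true true true .dn 3 1 3 (qsf 1610612736 536870912 536870912 536870912 3) ndF1q3 ndF1q1 pcF3 Cut.none Ext.none)

def k0_pp_313 : ∃ t, chk3 f_pp_313 t 1 1 1 = true :=
  ⟨(l 4), by decide +kernel⟩

theorem c_pp_313 : CertF 1610612736 536870912 536870912 536870912 402653184 67108864 true true true .dn 3 1 3
    ndF1q3 ndF1q1 pcF3 Cut.none Ext.none :=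
  certF0 (fam := true) (s1 := true) (s2 := true) (a := 3) (b := 1) (c := 3) (cn := .dn) (n1 := ndF1q3) (n2 := ndF1q1) (pc := pcF3) (cut := Cut.none) (xt := Ext.none) (P1 := 1610612736) (W1 := 536870912) (P2 := 536870912) (W2 := 536870912) (P3 := 402653184) (W3 := 67108864)
    rfl k0_pp_313

noncomputable def f_pm_001 : ℕ → ℕ → ℕ → ℕ → Bool := onCell 0 536870912 0 536870912 402653184 67108864
    (rowF 0 true true false .up 0 0 1 (qsf 0 536870912 0 536870912 1) ndF1q0 ndF1q0 pcF1 Cut.none Ext.none)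

def k0_pm_001 : ∃ t, chk3 f_pm_001 t 1 1 1 = true :=
  ⟨(l 3), by decide +kernel⟩

theorem c_pm_001 : CertF 0 536870912 0 536870912 402653184 67108864 true true false .up 0 0 1
    ndF1q0 ndF1q0 pcF1 Cut.none Ext.none :=
  certF0 (fam := true) (s1 := true) (s2 := false) (a := 0) (b := 0) (c := 1) (cn := .up) (n1 := ndF1q0) (n2 := ndF1q0) (pc := pcF1) (cut := Cut.none) (xt := Ext.none) (P1 := 0) (W1 := 536870912) (P2 := 0) (W2 := 536870912) (P3 := 402653184) (W3 := 67108864)
    rfl k0_pm_001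

noncomputable def f_pm_011 : ℕ → ℕ → ℕ → ℕ → Bool := onCell 0 536870912 536870912 536870912 402653184 67108864
    (rowF 1 true true false .pnn 0 1 1 (qsf 0 536870912 536870912 536870912 1) ndF1q0 ndF1q1 pcF1 Cut.none Ext.none)

def k0_pm_011 : ∃ t, chk3 f_pm_011 t 1 1 1 = true :=
  ⟨(l 3), by decide +kernel⟩

theorem c_pm_011 : CertF 0 536870912 536870912 536870912 402653184 67108864 true true false .pnn 0 1 1
    ndF1q0 ndF1q1 pcF1 Cut.none Ext.none :=
  certF1 (fam := true) (s1 := true) (s2 := false) (a := 0) (b := 1) (c := 1) (cn := .pnn) (n1 := ndF1q0) (n2 := ndF1q1) (pc := pcF1) (cut := Cut.none) (xt := Ext.none) (P1 := 0) (W1 := 536870912) (P2 := 536870912) (W2 := 536870912) (P3 := 402653184) (W3 := 67108864)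
    rfl (fun _ => rfl) k0_pm_011

noncomputable def f_pm_012 : ℕ → ℕ → ℕ → ℕ → Bool := onCell 1073741824 536870912 536870912 536870912 402653184 67108864
    (rowF 2 true true false .pnp 0 1 2 (qsf 0 536870912 536870912 536870912 2) ndF1q0 ndF1q1 pcF2 Cut.none Ext.none)

def k0_pm_012 : ∃ t, chk3 f_pm_012 t 1 1 1 = true :=
  ⟨(a (a (l 3) (a (a (a (l 3) (b (a (l 3) (a (l 3) (l 153713572599))) (a (l 3) (b (a (l 3) (a (l 16787216) (l 16784088))) (a (b (l 16703760) (l 16646024)) (b (a (l 16698840) (l 16695144)) (a (l 16640768) (l 16636800)))))))) (b (l 16882416) (b (l 16756024) (b (l 16661960) (l 16601304))))) (b (l 16847816) (b (l 16667224) (b (l 16558080) (l 16491040)))))) (b (b (l 2) (l 16825096)) (b (a (l 16707224) (l 16854832)) (a (b (l 16482104) (l 16446584)) (b (l 16806488) (l 16705640)))))), by decide +kernel⟩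

theorem c_pm_012 : CertF 0 536870912 536870912 536870912 402653184 67108864 true true false .pnp 0 1 2
    ndF1q0 ndF1q1 pcF2 Cut.none Ext.none :=
  certF2 (fam := true) (s1 := true) (s2 := false) (a := 0) (b := 1) (c := 2) (cn := .pnp) (n1 := ndF1q0) (n2 := ndF1q1) (pc := pcF2) (cut := Cut.none) (xt := Ext.none) (P1 := 0) (W1 := 536870912) (P2 := 536870912) (W2 := 536870912) (P3 := 402653184) (W3 := 67108864)
    rfl (fun _ => rfl) k0_pm_012

noncomputable def cut_pm_022_a : Cut := Cut.of [[⟨0, 0, 0, 67108864⟩, ⟨1, 1, 0, 67108864⟩, ⟨2, 1, 0, 67108864⟩]]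

noncomputable def f_pm_022_a : ℕ → ℕ → ℕ → ℕ → Bool := onCell 0 536870912 0 536870912 402653184 67108864
    (rowF 0 true true false .pp 0 2 2 (qsf 0 536870912 0 536870912 2) ndF1q0 ndF1q2a pcF2 cut_pm_022_a Ext.none)

def k0_pm_022_a : ∃ t, chk3 f_pm_022_a t 2 1 1 = true :=
  ⟨(b (a (a (a (b (a (b (l 16504584) (l 16520800)) (l 16501792)) (a (b (a (l 16548752) (l 16539864)) (b (l 16565520) (a (a (l 16607136) (l 16582920)) (l 16577304)))) (l 16668080))) (b (l 16452176) (l 16636672))) (b (l 16489248) (l 16567328))) (a (b (l 16617176) (l 16552400)) (b (l 16793400) (b (l 16709184) (l 16663544))))) (a (b (a (a (b (a (a (b (l 16618216) (a (l 16612256) (l 16609496))) (l 16640872)) (b (l 16582064) (l 16597368))) (a (a (b (b (l 16623120) (l 16632480)) (a (b (l 16644528) (a (l 16677880) (l 16655088))) (l 16646744))) (b (l 16621624) (l 16641536))) (l 16684880))) (b (b (l 16557072) (a (a (l 16588264) (l 16726648)) (l 16609176))) (a (l 16671856) (b (a (l 16591160) (l 16583000))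 (l 16604600))))) (a (b (l 16525864) (a (b (l 16570712) (l 16694936)) (l 16562424))) (l 16521520))) (a (b (a (a (b (a (a (b (b (l 16686048) (l 16681536)) (a (b (l 16688656) (l 6)) (l 16679280))) (l 16691224)) (l 16664512)) (a (a (l 6) (l 16715968)) (l 16688896))) (b (l 16652992) (l 16697256))) (b (l 16630616) (l 16650888))) (a (b (a (l 6) (a (l 6) (l 16698296))) (l 6)) (b (l 16716440) (b (l 16723776) (a (l 6) (l 16721384)))))) (b (a (b (a (l 16608472) (l 16653568)) (l 16617664)) (b (l 16566784) (l 16773520))) (b (a (l 16646736) (a (l 16630984) (l 16727856))) (a (l 16757104) (l 16673528)))))) (b (a (l 16566616) (a (l 16584088) (l 16638160))) (a (b (l 16555984) (a (b (l 16609400) (a (b (l 16647400) (l 16670568)) (l 16650720))) (l 16616640))) (b (l 16587912) (l 16657232)))))), by decide +kernel⟩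

def k1_pm_022_a : ∃ t, chk3 f_pm_022_a t 3 1 1 = true :=
  ⟨(b (a (a (b (l 16893352) (l 17047632)) (b (l 16964016) (l 17155992))) (a (b (l 2) (l 17057696)) (l 2))) (a (b (a (b (l 16761920) (l 16707376)) (b (l 16953616) (l 16862552))) (a (b (l 16670464) (a (l 16640416) (l 16676952))) (b (l 16788232) (a (l 16719728) (l 16767024))))) (b (a (b (l 17124400) (l 17091624)) (l 2)) (a (b (l 17050592) (b (l 16897432) (l 16851408))) (b (l 17165120) (a (l 17025616) (l 17124656))))))), by decide +kernel⟩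

theorem s2_pm_022_a : ∃ t, chk3 f_pm_022_a t 1 1 1 = true := ex3_a k0_pm_022_a k1_pm_022_a

theorem c_pm_022_a : CertF 0 536870912 0 536870912 402653184 67108864 true true false .pp 0 2 2
    ndF1q0 ndF1q2a pcF2 cut_pm_022_a Ext.none :=
  certF0 (fam := true) (s1 := true) (s2 := false) (a := 0) (b := 2) (c := 2) (cn := .pp) (n1 := ndF1q0) (n2 := ndF1q2a) (pc := pcF2) (cut := cut_pm_022_a) (xt := Ext.none) (P1 := 0) (W1 := 536870912) (P2 := 0) (W2 := 536870912) (P3 := 402653184) (W3 := 67108864)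
    rfl s2_pm_022_a

noncomputable def cut_pm_022_b : Cut := Cut.of [[⟨0, 0, 0, 67108864⟩, ⟨1, 1, 0, 67108864⟩, ⟨2, 1, 0, 67108864⟩]]

noncomputable def f_pm_022_b : ℕ → ℕ → ℕ → ℕ → Bool := onCell 0 536870912 1073741824 536870912 402653184 67108864
    (rowF 1 true true false .pp 0 2 2 (qsf 0 536870912 1239849684 370763052 2) ndF1q0 ndF1q2b pcF2 cut_pm_022_b Ext.none)

def k0_pm_022_b : ∃ t, chk3 f_pm_022_b t 1 1 1 = true :=
  ⟨(a (b (a (b (l 1) (b (a (a (a (b (l 16567904) (l 16479192)) (l 16631432)) (l 74121395175)) (l 1)) (a (a (a (b (l 16408456) (l 16311352)) (l 16378136)) (l 16410296)) (a (l 16500192) (l 16587480))))) (l 1)) (b (a (b (a (a (a (l 16287680) (l 16252984)) (l 16331776)) (l 16586304)) (a (a (b (l 16180744) (l 16180280)) (l 16325376)) (l 16486728))) (b (a (l 16666224) (l 1)) (a (l 16646856) (l 16822640)))) (a (b (a (a (b (l 16146728) (l 16147216)) (l 16293384)) (b (l 16435856) (l 16419632))) (a (b (a (l 16154408) (l 16251240)) (l 16282072)) (l 16344040)))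 (b (a (l 16604456) (l 16769112)) (l 16589136))))) (b (l 1) (b (l 1) (a (b (l 269006045191) (l 16907336)) (l 1))))), by decide +kernel⟩

theorem c_pm_022_b : CertF 0 536870912 1239849684 370763052 402653184 67108864 true true false .pp 0 2 2
    ndF1q0 ndF1q2b pcF2 cut_pm_022_b Ext.none :=
  certF1 (fam := true) (s1 := true) (s2 := false) (a := 0) (b := 2) (c := 2) (cn := .pp) (n1 := ndF1q0) (n2 := ndF1q2b) (pc := pcF2) (cut := cut_pm_022_b) (xt := Ext.none) (P1 := 0) (W1 := 536870912) (P2 := 1239849684) (W2 := 370763052) (P3 := 402653184) (W3 := 67108864)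
    rfl (fun _ => rfl) k0_pm_022_b

noncomputable def f_pm_023_a : ℕ → ℕ → ℕ → ℕ → Bool := onCell 1610612736 536870912 0 536870912 402653184 67108864
    (rowF 2 true true false .up 0 2 3 (qsf 0 536870912 0 536870912 3) ndF1q0 ndF1q2a pcF3 Cut.none Ext.none)

def k0_pm_023_a : ∃ t, chk3 f_pm_023_a t 1 1 1 = true :=
  ⟨(a (a (a (b (l 16866528) (l 16963912)) (b (l 16896464) (a (l 16973256) (l 17243376)))) (b (a (l 16888984) (l 2)) (a (l 153646697831) (l 2)))) (l 2)), by decide +kernel⟩

theorem c_pm_023_a : CertF 0 536870912 0 536870912 402653184 67108864 true true false .up 0 2 3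
    ndF1q0 ndF1q2a pcF3 Cut.none Ext.none :=
  certF2 (fam := true) (s1 := true) (s2 := false) (a := 0) (b := 2) (c := 3) (cn := .up) (n1 := ndF1q0) (n2 := ndF1q2a) (pc := pcF3) (cut := Cut.none) (xt := Ext.none) (P1 := 0) (W1 := 536870912) (P2 := 0) (W2 := 536870912) (P3 := 402653184) (W3 := 67108864)
    rfl (fun _ => rfl) k0_pm_023_a

noncomputable def f_pm_023_b : ℕ → ℕ → ℕ → ℕ → Bool := onCell 1610612736 536870912 1239849684 370763052 402653184 67108864
    (rowF 2 true true false .up 0 2 3 (qsf 0 536870912 1239849684 370763052 3) ndF1q0 ndF1q2b pcF3 Cut.none Ext.none)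

def k0_pm_023_b : ∃ t, chk3 f_pm_023_b t 1 1 1 = true :=
  ⟨(a (a (b (a (l 16740040) (l 16826288)) (a (b (l 16677088) (a (l 16614784) (l 16727680))) (l 16856416))) (a (b (l 16862608) (l 16923328)) (b (l 16887392) (l 16967152)))) (a (l 4) (l 4))), by decide +kernel⟩

theorem c_pm_023_b : CertF 0 536870912 1239849684 370763052 402653184 67108864 true true false .up 0 2 3
    ndF1q0 ndF1q2b pcF3 Cut.none Ext.none :=
  certF2 (fam := true) (s1 := true) (s2 := false) (a := 0) (b := 2) (c := 3) (cn := .up) (n1 := ndF1q0) (n2 := ndF1q2b) (pc := pcF3) (cut := Cut.none) (xt := Ext.none) (P1 := 0) (W1 := 536870912) (P2 := 1239849684) (W2 := 370763052) (P3 := 402653184) (W3 := 67108864)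
    rfl (fun _ => rfl) k0_pm_023_b

noncomputable def f_pm_033 : ℕ → ℕ → ℕ → ℕ → Bool := onCell 0 536870912 1610612736 536870912 402653184 67108864
    (rowF 1 true true false .pnn 0 3 3 (qsf 0 536870912 1610612736 536870912 3) ndF1q0 ndF1q3 pcF3 Cut.none Ext.none)

def k0_pm_033 : ∃ t, chk3 f_pm_033 t 1 1 1 = true :=
  ⟨(b (b (a (a (b (a (b (l 16532040) (l 16665888)) (l 16628928)) (a (l 16838832) (l 16833600))) (b (l 1) (l 16825192))) (l 1)) (a (b (a (l 16999104) (l 16947536)) (a (l 17100256) (l 17036072))) (b (l 1) (l 245921251447)))) (b (l 4) (l 4))), by decide +kernel⟩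

theorem c_pm_033 : CertF 0 536870912 1610612736 536870912 402653184 67108864 true true false .pnn 0 3 3
    ndF1q0 ndF1q3 pcF3 Cut.none Ext.none :=
  certF1 (fam := true) (s1 := true) (s2 := false) (a := 0) (b := 3) (c := 3) (cn := .pnn) (n1 := ndF1q0) (n2 := ndF1q3) (pc := pcF3) (cut := Cut.none) (xt := Ext.none) (P1 := 0) (W1 := 536870912) (P2 := 1610612736) (W2 := 536870912) (P3 := 402653184) (W3 := 67108864)
    rfl (fun _ => rfl) k0_pm_033

noncomputable def f_pm_101 : ℕ → ℕ → ℕ → ℕ → Bool := onCell 536870912 536870912 0 536870912 402653184 67108864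
    (rowF 2 true true false .npn 1 0 1 (qsf 536870912 536870912 0 536870912 1) ndF1q1 ndF1q0 pcF1 Cut.none Ext.none)

def k0_pm_101 : ∃ t, chk3 f_pm_101 t 1 1 1 = true :=
  ⟨(l 3), by decide +kernel⟩

theorem c_pm_101 : CertF 536870912 536870912 0 536870912 402653184 67108864 true true false .npn 1 0 1
    ndF1q1 ndF1q0 pcF1 Cut.none Ext.none :=
  certF2 (fam := true) (s1 := true) (s2 := false) (a := 1) (b := 0) (c := 1) (cn := .npn) (n1 := ndF1q1) (n2 := ndF1q0) (pc := pcF1) (cut := Cut.none) (xt := Ext.none) (P1 := 536870912) (W1 := 536870912) (P2 := 0) (W2 := 536870912) (P3 := 402653184) (W3 := 67108864)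
    rfl (fun _ => rfl) k0_pm_101

noncomputable def f_pm_102 : ℕ → ℕ → ℕ → ℕ → Bool := onCell 536870912 536870912 1073741824 536870912 402653184 67108864
    (rowF 1 true true false .npp 1 0 2 (qsf 536870912 536870912 0 536870912 2) ndF1q1 ndF1q0 pcF2 Cut.none Ext.none)

def k0_pm_102 : ∃ t, chk3 f_pm_102 t 1 1 1 = true :=
  ⟨(b (b (l 3) (b (b (b (l 3) (a (b (l 3) (b (l 3) (l 153713572599))) (b (l 3) (a (b (l 3) (b (l 16787216) (l 16784088))) (b (a (l 16703760) (l 16646024)) (a (b (l 16698840) (l 16695144)) (b (l 16640768) (l 16636800)))))))) (a (l 16882416) (a (l 16756024) (a (l 16661960) (l 16601304))))) (a (l 16847816) (a (l 16667224) (a (l 16558080) (l 16491040)))))) (a (a (l 2) (l 16825096)) (a (b (l 16707224) (l 16854832)) (b (l 16602464) (l 16786824))))), by decide +kernel⟩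

theorem c_pm_102 : CertF 536870912 536870912 0 536870912 402653184 67108864 true true false .npp 1 0 2
    ndF1q1 ndF1q0 pcF2 Cut.none Ext.none :=
  certF1 (fam := true) (s1 := true) (s2 := false) (a := 1) (b := 0) (c := 2) (cn := .npp) (n1 := ndF1q1) (n2 := ndF1q0) (pc := pcF2) (cut := Cut.none) (xt := Ext.none) (P1 := 536870912) (W1 := 536870912) (P2 := 0) (W2 := 536870912) (P3 := 402653184) (W3 := 67108864)
    rfl (fun _ => rfl) k0_pm_102

noncomputable def f_pm_112 : ℕ → ℕ → ℕ → ℕ → Bool := onCell 1073741824 536870912 536870912 536870912 402653184 67108864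
    (rowF 2 true true false .dn 1 1 2 (qsf 536870912 536870912 536870912 536870912 2) ndF1q1 ndF1q1 pcF2 Cut.none Ext.none)

def k0_pm_112 : ∃ t, chk3 f_pm_112 t 1 1 1 = true :=
  ⟨(a (a (l 3) (b (a (a (a (l 3) (a (l 3) (a (l 3) (a (l 16909816) (l 16848000))))) (l 16920632)) (l 16871816)) (a (l 1) (b (l 16916608) (l 1))))) (b (a (l 17231544) (l 17343608)) (b (l 17052200) (l 365106030247)))), by decide +kernel⟩

theorem c_pm_112 : CertF 536870912 536870912 536870912 536870912 402653184 67108864 true true false .dn 1 1 2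
    ndF1q1 ndF1q1 pcF2 Cut.none Ext.none :=
  certF2 (fam := true) (s1 := true) (s2 := false) (a := 1) (b := 1) (c := 2) (cn := .dn) (n1 := ndF1q1) (n2 := ndF1q1) (pc := pcF2) (cut := Cut.none) (xt := Ext.none) (P1 := 536870912) (W1 := 536870912) (P2 := 536870912) (W2 := 536870912) (P3 := 402653184) (W3 := 67108864)
    rfl (fun _ => rfl) k0_pm_112

noncomputable def f_pm_113 : ℕ → ℕ → ℕ → ℕ → Bool := onCell 536870912 536870912 536870912 536870912 402653184 67108864
    (rowF 0 true true false .nn 1 1 3 (qsf 536870912 536870912 536870912 536870912 3) ndF1q1 ndF1q1 pcF3 Cut.none Ext.none)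

def k0_pm_113 : ∃ t, chk3 f_pm_113 t 1 1 1 = true :=
  ⟨(a (b (l 287260287239) (b (l 17120240) (l 17187280))) (b (a (l 17120240) (l 17187280)) (b (a (l 17165048) (l 17085488)) (a (l 17085488) (b (l 16988080) (a (l 16959760) (b (l 16891936) (a (l 16874688) (b (l 16836752) (a (l 16827488) (l 16800656))))))))))), by decide +kernel⟩

theorem c_pm_113 : CertF 536870912 536870912 536870912 536870912 402653184 67108864 true true false .nn 1 1 3
    ndF1q1 ndF1q1 pcF3 Cut.none Ext.none :=
  certF0 (fam := true) (s1 := true) (s2 := false) (a := 1) (b := 1) (c := 3) (cn := .nn) (n1 := ndF1q1) (n2 := ndF1q1) (pc := pcF3) (cut := Cut.none) (xt := Ext.none) (P1 := 536870912) (W1 := 536870912) (P2 := 536870912) (W2 := 536870912) (P3 := 402653184) (W3 := 67108864)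
    rfl k0_pm_113

noncomputable def f_pm_123_a : ℕ → ℕ → ℕ → ℕ → Bool := onCell 1610612736 536870912 0 536870912 402653184 67108864
    (rowF 2 true true false .npn 1 2 3 (qsf 536870912 536870912 0 536870912 3) ndF1q1 ndF1q2a pcF3 Cut.none Ext.none)

def k0_pm_123_a : ∃ t, chk3 f_pm_123_a t 1 1 1 = true :=
  ⟨(a (a (b (l 193845249751) (a (l 17229224) (l 17175544))) (b (a (l 17038200) (l 16929592)) (a (l 17124560) (l 17030152)))) (a (b (a (l 16870456) (l 4)) (a (l 16954416) (l 16988448))) (a (b (l 4) (b (l 4) (l 16859416))) (l 4)))), by decide +kernel⟩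

theorem c_pm_123_a : CertF 536870912 536870912 0 536870912 402653184 67108864 true true false .npn 1 2 3
    ndF1q1 ndF1q2a pcF3 Cut.none Ext.none :=
  certF2 (fam := true) (s1 := true) (s2 := false) (a := 1) (b := 2) (c := 3) (cn := .npn) (n1 := ndF1q1) (n2 := ndF1q2a) (pc := pcF3) (cut := Cut.none) (xt := Ext.none) (P1 := 536870912) (W1 := 536870912) (P2 := 0) (W2 := 536870912) (P3 := 402653184) (W3 := 67108864)
    rfl (fun _ => rfl) k0_pm_123_a

noncomputable def f_pm_123_b : ℕ → ℕ → ℕ → ℕ → Bool := onCell 1610612736 536870912 1239849684 370763052 402653184 67108864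
    (rowF 2 true true false .npn 1 2 3 (qsf 536870912 536870912 1239849684 370763052 3) ndF1q1 ndF1q2b pcF3 Cut.none Ext.none)

def k0_pm_123_b : ∃ t, chk3 f_pm_123_b t 1 1 1 = true :=
  ⟨(a (a (l 1) (a (l 282965155223) (l 16992592))) (a (l 4) (l 4))), by decide +kernel⟩

theorem c_pm_123_b : CertF 536870912 536870912 1239849684 370763052 402653184 67108864 true true false .npn 1 2 3
    ndF1q1 ndF1q2b pcF3 Cut.none Ext.none :=
  certF2 (fam := true) (s1 := true) (s2 := false) (a := 1) (b := 2) (c := 3) (cn := .npn) (n1 := ndF1q1) (n2 := ndF1q2b) (pc := pcF3) (cut := Cut.none) (xt := Ext.none) (P1 := 536870912) (W1 := 536870912) (P2 := 1239849684) (W2 := 370763052) (P3 := 402653184) (W3 := 67108864)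
    rfl (fun _ => rfl) k0_pm_123_b

noncomputable def f_pm_133 : ℕ → ℕ → ℕ → ℕ → Bool := onCell 536870912 536870912 1610612736 536870912 402653184 67108864
    (rowF 0 true true false .dn 1 3 3 (qsf 536870912 536870912 1610612736 536870912 3) ndF1q1 ndF1q3 pcF3 Cut.none Ext.none)

def k0_pm_133 : ∃ t, chk3 f_pm_133 t 1 1 1 = true :=
  ⟨(l 4), by decide +kernel⟩

theorem c_pm_133 : CertF 536870912 536870912 1610612736 536870912 402653184 67108864 true true false .dn 1 3 3
    ndF1q1 ndF1q3 pcF3 Cut.none Ext.none :=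
  certF0 (fam := true) (s1 := true) (s2 := false) (a := 1) (b := 3) (c := 3) (cn := .dn) (n1 := ndF1q1) (n2 := ndF1q3) (pc := pcF3) (cut := Cut.none) (xt := Ext.none) (P1 := 536870912) (W1 := 536870912) (P2 := 1610612736) (W2 := 536870912) (P3 := 402653184) (W3 := 67108864)
    rfl k0_pm_133

noncomputable def cut_pm_202_a : Cut := Cut.of [[⟨0, 1, 0, 67108864⟩, ⟨1, 0, 0, 67108864⟩, ⟨2, 1, 0, 67108864⟩]]

noncomputable def f_pm_202_a : ℕ → ℕ → ℕ → ℕ → Bool := onCell 0 536870912 0 536870912 402653184 67108864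
    (rowF 0 true true false .pp 2 0 2 (qsf 0 536870912 0 536870912 2) ndF1q2a ndF1q0 pcF2 cut_pm_202_a Ext.none)

def k0_pm_202_a : ∃ t, chk3 f_pm_202_a t 2 1 1 = true :=
  ⟨(b (b (b (b (a (b (a (l 16504584) (l 16520800)) (a (l 16481456) (l 16499528))) (b (a (b (l 16548752) (l 16539864)) (a (l 16586488) (a (l 16577208) (b (l 16588184) (l 16581552))))) (a (l 16525352) (l 16557056)))) (a (l 16452176) (l 16636672))) (a (l 16489248) (l 16567328))) (b (a (l 16617176) (l 16552400)) (a (l 16793400) (a (l 16709184) (l 16663544))))) (b (b (a (l 16893352) (a (l 16889040) (l 16825008))) (a (l 16964016) (l 17176960))) (b (a (l 2) (l 17057696)) (l 2)))), by decide +kernel⟩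

def k1_pm_202_a : ∃ t, chk3 f_pm_202_a t 3 1 1 = true :=
  ⟨(b (a (b (b (b (a (b (b (a (l 16618216) (b (l 16612256) (l 16609496))) (a (l 16592096) (l 16605384))) (a (l 16582064) (l 16597368))) (b (b (a (a (l 16623120) (l 16653456)) (b (a (l 16644528) (b (l 16677880) (l 16655088))) (l 16646744))) (a (l 16621624) (l 16641536))) (l 16705848))) (a (a (l 16557072) (b (b (l 16588264) (l 16726648)) (l 16609176))) (b (l 16671856) (a (b (l 16591160) (l 16583000)) (l 16604600))))) (a (l 16500904) (b (b (a (l 16570712) (l 16694936)) (l 16562424)) (l 16529616)))) (b (l 16566616) (b (l 16584088) (l 16638160)))) (b (b (a (b (b (a (b (b (a (a (l 16686048) (l 16681536)) (b (a (l 16688656) (l 6)) (l 16679280))) (l 16691224)) (l 16664512)) (b (b (l 6) (l 16705488)) (l 16688896))) (a (l 16652992) (l 16697256))) (a (l 16630616) (l 16650888))) (b (a (b (l 6) (b (l 6) (l 16698296))) (l 6)) (a (l 16716440) (a (l 16723776) (l 16779504))))) (a (b (a (b (l 16608472) (l 16653568)) (l 16617664))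 (a (l 16566784) (l 16773520))) (a (b (l 16646736) (b (l 16630984) (l 16733104))) (b (l 16736136) (l 16673528))))) (b (a (l 16555984) (b (a (l 16609400) (b (a (l 16647400) (l 16670568)) (l 16650720))) (l 16616640))) (a (l 16587912) (l 16636264))))) (b (a (b (a (l 16761920) (l 16707376)) (a (l 16953616) (l 16862552))) (b (a (l 16670464) (b (l 16640416) (l 16676952))) (a (l 16788232) (b (l 16719728) (l 16767024))))) (a (b (a (l 17124400) (l 17091624)) (l 2)) (b (a (l 17050592) (a (l 16897432) (l 16851408))) (a (l 17165120) (b (l 17025616) (l 17124656))))))), by decide +kernel⟩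

theorem s2_pm_202_a : ∃ t, chk3 f_pm_202_a t 1 1 1 = true := ex3_a k0_pm_202_a k1_pm_202_a

theorem c_pm_202_a : CertF 0 536870912 0 536870912 402653184 67108864 true true false .pp 2 0 2
    ndF1q2a ndF1q0 pcF2 cut_pm_202_a Ext.none :=
  certF0 (fam := true) (s1 := true) (s2 := false) (a := 2) (b := 0) (c := 2) (cn := .pp) (n1 := ndF1q2a) (n2 := ndF1q0) (pc := pcF2) (cut := cut_pm_202_a) (xt := Ext.none) (P1 := 0) (W1 := 536870912) (P2 := 0) (W2 := 536870912) (P3 := 402653184) (W3 := 67108864)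
    rfl s2_pm_202_a

noncomputable def cut_pm_202_b : Cut := Cut.of [[⟨0, 1, 0, 67108864⟩, ⟨1, 0, 0, 67108864⟩, ⟨2, 1, 0, 67108864⟩]]

noncomputable def f_pm_202_b : ℕ → ℕ → ℕ → ℕ → Bool := onCell 1073741824 536870912 0 536870912 402653184 67108864
    (rowF 2 true true false .pp 2 0 2 (qsf 1239849684 370763052 0 536870912 2) ndF1q2b ndF1q0 pcF2 cut_pm_202_b Ext.none)

def k0_pm_202_b : ∃ t, chk3 f_pm_202_b t 1 1 1 = true :=
  ⟨(a (b (b (a (l 1) (a (b (b (b (a (l 22581808487) (l 16479192)) (l 16631432)) (l 74121395175)) (l 1)) (b (b (b (a (l 16408456) (l 16311352)) (l 16378136)) (l 16410296)) (b (l 16500192) (l 16587480))))) (l 1)) (l 1)) (a (b (b (a (b (b (b (l 16287680) (l 16252984)) (l 16331776)) (l 16586304)) (b (b (a (l 16180744) (l 16180280)) (l 16325376)) (l 16486728))) (a (b (l 16666224) (l 1)) (b (l 16646856) (l 16822640)))) (l 1)) (b (b (a (b (b (a (l 16146728) (l 16147216)) (l 16293384)) (a (l 16435856) (l 16419632))) (b (a (b (l 16154408) (l 16251240)) (l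 16282072)) (l 16344040))) (a (b (l 16604456) (l 16769112)) (l 16589136))) (b (a (l 269006045191) (l 16907336)) (l 1))))), by decide +kernel⟩

theorem c_pm_202_b : CertF 1239849684 370763052 0 536870912 402653184 67108864 true true false .pp 2 0 2
    ndF1q2b ndF1q0 pcF2 cut_pm_202_b Ext.none :=
  certF2 (fam := true) (s1 := true) (s2 := false) (a := 2) (b := 0) (c := 2) (cn := .pp) (n1 := ndF1q2b) (n2 := ndF1q0) (pc := pcF2) (cut := cut_pm_202_b) (xt := Ext.none) (P1 := 1239849684) (W1 := 370763052) (P2 := 0) (W2 := 536870912) (P3 := 402653184) (W3 := 67108864)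
    rfl (fun _ => rfl) k0_pm_202_b

noncomputable def f_pm_203_a : ℕ → ℕ → ℕ → ℕ → Bool := onCell 0 536870912 1610612736 536870912 402653184 67108864
    (rowF 1 true true false .up 2 0 3 (qsf 0 536870912 0 536870912 3) ndF1q2a ndF1q0 pcF3 Cut.none Ext.none)

def k0_pm_203_a : ∃ t, chk3 f_pm_203_a t 1 1 1 = true :=
  ⟨(b (b (a (b (l 16866528) (l 16896464)) (b (l 16963912) (a (l 16970352) (l 17014928)))) (a (b (l 16888984) (l 2)) (b (l 153646697831) (l 2)))) (l 2)), by decide +kernel⟩

theorem c_pm_203_a : CertF 0 536870912 0 536870912 402653184 67108864 true true false .up 2 0 3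
    ndF1q2a ndF1q0 pcF3 Cut.none Ext.none :=
  certF1 (fam := true) (s1 := true) (s2 := false) (a := 2) (b := 0) (c := 3) (cn := .up) (n1 := ndF1q2a) (n2 := ndF1q0) (pc := pcF3) (cut := Cut.none) (xt := Ext.none) (P1 := 0) (W1 := 536870912) (P2 := 0) (W2 := 536870912) (P3 := 402653184) (W3 := 67108864)
    rfl (fun _ => rfl) k0_pm_203_a

noncomputable def f_pm_203_b : ℕ → ℕ → ℕ → ℕ → Bool := onCell 1239849684 370763052 1610612736 536870912 402653184 67108864
    (rowF 1 true true false .up 2 0 3 (qsf 1239849684 370763052 0 536870912 3) ndF1q2b ndF1q0 pcF3 Cut.none Ext.none)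

def k0_pm_203_b : ∃ t, chk3 f_pm_203_b t 1 1 1 = true :=
  ⟨(b (b (a (b (l 16740040) (l 16826288)) (b (a (l 16677088) (b (l 16614784) (l 16727680))) (l 16856416))) (b (a (l 16862608) (l 16923328)) (a (l 16887392) (l 16967152)))) (b (l 4) (l 4))), by decide +kernel⟩

theorem c_pm_203_b : CertF 1239849684 370763052 0 536870912 402653184 67108864 true true false .up 2 0 3
    ndF1q2b ndF1q0 pcF3 Cut.none Ext.none :=
  certF1 (fam := true) (s1 := true) (s2 := false) (a := 2) (b := 0) (c := 3) (cn := .up) (n1 := ndF1q2b) (n2 := ndF1q0) (pc := pcF3) (cut := Cut.none) (xt := Ext.none) (P1 := 1239849684) (W1 := 370763052) (P2 := 0) (W2 := 536870912) (P3 := 402653184) (W3 := 67108864)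
    rfl (fun _ => rfl) k0_pm_203_b

noncomputable def f_pm_213_a : ℕ → ℕ → ℕ → ℕ → Bool := onCell 0 536870912 1610612736 536870912 402653184 67108864
    (rowF 1 true true false .pnn 2 1 3 (qsf 0 536870912 536870912 536870912 3) ndF1q2a ndF1q1 pcF3 Cut.none Ext.none)

def k0_pm_213_a : ∃ t, chk3 f_pm_213_a t 1 1 1 = true :=
  ⟨(b (b (a (l 193845249751) (b (l 17229224) (l 17175544))) (a (b (l 17038200) (l 16929592)) (b (l 17124560) (l 17030152)))) (b (a (b (l 16870456) (l 4)) (b (l 16954408) (l 17030384))) (b (a (l 4) (a (l 4) (l 16859416))) (l 4)))), by decide +kernel⟩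

theorem c_pm_213_a : CertF 0 536870912 536870912 536870912 402653184 67108864 true true false .pnn 2 1 3
    ndF1q2a ndF1q1 pcF3 Cut.none Ext.none :=
  certF1 (fam := true) (s1 := true) (s2 := false) (a := 2) (b := 1) (c := 3) (cn := .pnn) (n1 := ndF1q2a) (n2 := ndF1q1) (pc := pcF3) (cut := Cut.none) (xt := Ext.none) (P1 := 0) (W1 := 536870912) (P2 := 536870912) (W2 := 536870912) (P3 := 402653184) (W3 := 67108864)
    rfl (fun _ => rfl) k0_pm_213_a

noncomputable def f_pm_213_b : ℕ → ℕ → ℕ → ℕ → Bool := onCell 1239849684 370763052 1610612736 536870912 402653184 67108864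
    (rowF 1 true true false .pnn 2 1 3 (qsf 1239849684 370763052 536870912 536870912 3) ndF1q2b ndF1q1 pcF3 Cut.none Ext.none)

def k0_pm_213_b : ∃ t, chk3 f_pm_213_b t 1 1 1 = true :=
  ⟨(b (b (l 1) (b (l 282965155223) (l 16992592))) (b (l 4) (l 4))), by decide +kernel⟩

theorem c_pm_213_b : CertF 1239849684 370763052 536870912 536870912 402653184 67108864 true true false .pnn 2 1 3
    ndF1q2b ndF1q1 pcF3 Cut.none Ext.none :=
  certF1 (fam := true) (s1 := true) (s2 := false) (a := 2) (b := 1) (c := 3) (cn := .pnn) (n1 := ndF1q2b) (n2 := ndF1q1) (pc := pcF3) (cut := Cut.none) (xt := Ext.none) (P1 := 1239849684) (W1 := 370763052) (P2 := 536870912) (W2 := 536870912) (P3 := 402653184) (W3 := 67108864)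
    rfl (fun _ => rfl) k0_pm_213_b

noncomputable def f_pm_303 : ℕ → ℕ → ℕ → ℕ → Bool := onCell 1610612736 536870912 0 536870912 402653184 67108864
    (rowF 2 true true false .npn 3 0 3 (qsf 1610612736 536870912 0 536870912 3) ndF1q3 ndF1q0 pcF3 Cut.none Ext.none)

def k0_pm_303 : ∃ t, chk3 f_pm_303 t 1 1 1 = true :=
  ⟨(a (a (b (b (a (b (a (l 16532040) (l 16665888)) (l 16628928)) (b (l 16838832) (l 16833600))) (a (l 1) (l 16825192))) (l 1)) (b (a (b (l 16999104) (l 16947536)) (b (l 17100256) (l 17036072))) (a (l 1) (l 245921251447)))) (a (l 4) (l 4))), by decide +kernel⟩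

theorem c_pm_303 : CertF 1610612736 536870912 0 536870912 402653184 67108864 true true false .npn 3 0 3
    ndF1q3 ndF1q0 pcF3 Cut.none Ext.none :=
  certF2 (fam := true) (s1 := true) (s2 := false) (a := 3) (b := 0) (c := 3) (cn := .npn) (n1 := ndF1q3) (n2 := ndF1q0) (pc := pcF3) (cut := Cut.none) (xt := Ext.none) (P1 := 1610612736) (W1 := 536870912) (P2 := 0) (W2 := 536870912) (P3 := 402653184) (W3 := 67108864)
    rfl (fun _ => rfl) k0_pm_303

noncomputable def f_pm_313 : ℕ → ℕ → ℕ → ℕ → Bool := onCell 1610612736 536870912 536870912 536870912 402653184 67108864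
    (rowF 0 true true false .dn 3 1 3 (qsf 1610612736 536870912 536870912 536870912 3) ndF1q3 ndF1q1 pcF3 Cut.none Ext.none)

def k0_pm_313 : ∃ t, chk3 f_pm_313 t 1 1 1 = true :=
  ⟨(l 4), by decide +kernel⟩

theorem c_pm_313 : CertF 1610612736 536870912 536870912 536870912 402653184 67108864 true true false .dn 3 1 3
    ndF1q3 ndF1q1 pcF3 Cut.none Ext.none :=
  certF0 (fam := true) (s1 := true) (s2 := false) (a := 3) (b := 1) (c := 3) (cn := .dn) (n1 := ndF1q3) (n2 := ndF1q1) (pc := pcF3) (cut := Cut.none) (xt := Ext.none) (P1 := 1610612736) (W1 := 536870912) (P2 := 536870912) (W2 := 536870912) (P3 := 402653184) (W3 := 67108864)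
    rfl k0_pm_313

noncomputable def f_mm_001 : ℕ → ℕ → ℕ → ℕ → Bool := onCell 0 536870912 0 536870912 402653184 67108864
    (rowF 0 true false false .up 0 0 1 (qsf 0 536870912 0 536870912 1) ndF1q0 ndF1q0 pcF1 Cut.none Ext.none)

def k0_mm_001 : ∃ t, chk3 f_mm_001 t 1 1 1 = true :=
  ⟨(l 4), by decide +kernel⟩

theorem c_mm_001 : CertF 0 536870912 0 536870912 402653184 67108864 true false false .up 0 0 1
    ndF1q0 ndF1q0 pcF1 Cut.none Ext.none :=
  certF0 (fam := true) (s1 := false) (s2 := false) (a := 0) (b := 0) (c := 1) (cn := .up) (n1 := ndF1q0) (n2 := ndF1q0) (pc := pcF1) (cut := Cut.none) (xt := Ext.none) (P1 := 0) (W1 := 536870912) (P2 := 0) (W2 := 536870912) (P3 := 402653184) (W3 := 67108864)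
    rfl k0_mm_001

noncomputable def f_mm_011 : ℕ → ℕ → ℕ → ℕ → Bool := onCell 0 536870912 536870912 536870912 402653184 67108864
    (rowF 0 true false false .pnn 0 1 1 (qsf 0 536870912 536870912 536870912 1) ndF1q0 ndF1q1 pcF1 Cut.none Ext.none)

def k0_mm_011 : ∃ t, chk3 f_mm_011 t 1 1 1 = true :=
  ⟨(l 4), by decide +kernel⟩

theorem c_mm_011 : CertF 0 536870912 536870912 536870912 402653184 67108864 true false false .pnn 0 1 1
    ndF1q0 ndF1q1 pcF1 Cut.none Ext.none :=
  certF0 (fam := true) (s1 := false) (s2 := false) (a := 0) (b := 1) (c := 1) (cn := .pnn) (n1 := ndF1q0) (n2 := ndF1q1) (pc := pcF1) (cut := Cut.none) (xt := Ext.none) (P1 := 0) (W1 := 536870912) (P2 := 536870912) (W2 := 536870912) (P3 := 402653184) (W3 := 67108864)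
    rfl k0_mm_011

noncomputable def f_mm_012 : ℕ → ℕ → ℕ → ℕ → Bool := onCell 0 536870912 536870912 536870912 402653184 67108864
    (rowF 0 true false false .pnp 0 1 2 (qsf 0 536870912 536870912 536870912 2) ndF1q0 ndF1q1 pcF2 Cut.none Ext.none)

def k0_mm_012 : ∃ t, chk3 f_mm_012 t 1 1 1 = true :=
  ⟨(l 4), by decide +kernel⟩

theorem c_mm_012 : CertF 0 536870912 536870912 536870912 402653184 67108864 true false false .pnp 0 1 2
    ndF1q0 ndF1q1 pcF2 Cut.none Ext.none :=
  certF0 (fam := true) (s1 := false) (s2 := false) (a := 0) (b := 1) (c := 2) (cn := .pnp) (n1 := ndF1q0) (n2 := ndF1q1) (pc := pcF2) (cut := Cut.none) (xt := Ext.none) (P1 := 0) (W1 := 536870912) (P2 := 536870912) (W2 := 536870912) (P3 := 402653184) (W3 := 67108864)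
    rfl k0_mm_012

noncomputable def f_mm_022_a : ℕ → ℕ → ℕ → ℕ → Bool := onCell 0 536870912 0 536870912 402653184 67108864
    (rowF 0 true false false .pp 0 2 2 (qsf 0 536870912 0 536870912 2) ndF1q0 ndF1q2a pcF2 Cut.none Ext.none)

def k0_mm_022_a : ∃ t, chk3 f_mm_022_a t 1 1 1 = true :=
  ⟨(l 5), by decide +kernel⟩

theorem c_mm_022_a : CertF 0 536870912 0 536870912 402653184 67108864 true false false .pp 0 2 2
    ndF1q0 ndF1q2a pcF2 Cut.none Ext.none :=
  certF0 (fam := true) (s1 := false) (s2 := false) (a := 0) (b := 2) (c := 2) (cn := .pp) (n1 := ndF1q0) (n2 := ndF1q2a) (pc := pcF2) (cut := Cut.none) (xt := Ext.none) (P1 := 0) (W1 := 536870912) (P2 := 0) (W2 := 536870912) (P3 := 402653184) (W3 := 67108864)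
    rfl k0_mm_022_a

noncomputable def f_mm_022_b : ℕ → ℕ → ℕ → ℕ → Bool := onCell 0 536870912 1239849684 370763052 402653184 67108864
    (rowF 0 true false false .pp 0 2 2 (qsf 0 536870912 1239849684 370763052 2) ndF1q0 ndF1q2b pcF2 Cut.none Ext.none)

def k0_mm_022_b : ∃ t, chk3 f_mm_022_b t 1 1 1 = true :=
  ⟨(l 5), by decide +kernel⟩

theorem c_mm_022_b : CertF 0 536870912 1239849684 370763052 402653184 67108864 true false false .pp 0 2 2
    ndF1q0 ndF1q2b pcF2 Cut.none Ext.none :=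
  certF0 (fam := true) (s1 := false) (s2 := false) (a := 0) (b := 2) (c := 2) (cn := .pp) (n1 := ndF1q0) (n2 := ndF1q2b) (pc := pcF2) (cut := Cut.none) (xt := Ext.none) (P1 := 0) (W1 := 536870912) (P2 := 1239849684) (W2 := 370763052) (P3 := 402653184) (W3 := 67108864)
    rfl k0_mm_022_b

noncomputable def f_mm_023_a : ℕ → ℕ → ℕ → ℕ → Bool := onCell 0 536870912 0 536870912 402653184 67108864
    (rowF 0 true false false .up 0 2 3 (qsf 0 536870912 0 536870912 3) ndF1q0 ndF1q2a pcF3 Cut.none Ext.none)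

def k0_mm_023_a : ∃ t, chk3 f_mm_023_a t 1 1 1 = true :=
  ⟨(l 5), by decide +kernel⟩

theorem c_mm_023_a : CertF 0 536870912 0 536870912 402653184 67108864 true false false .up 0 2 3
    ndF1q0 ndF1q2a pcF3 Cut.none Ext.none :=
  certF0 (fam := true) (s1 := false) (s2 := false) (a := 0) (b := 2) (c := 3) (cn := .up) (n1 := ndF1q0) (n2 := ndF1q2a) (pc := pcF3) (cut := Cut.none) (xt := Ext.none) (P1 := 0) (W1 := 536870912) (P2 := 0) (W2 := 536870912) (P3 := 402653184) (W3 := 67108864)
    rfl k0_mm_023_a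

noncomputable def f_mm_023_b : ℕ → ℕ → ℕ → ℕ → Bool := onCell 0 536870912 1239849684 370763052 402653184 67108864
    (rowF 0 true false false .up 0 2 3 (qsf 0 536870912 1239849684 370763052 3) ndF1q0 ndF1q2b pcF3 Cut.none Ext.none)

def k0_mm_023_b : ∃ t, chk3 f_mm_023_b t 1 1 1 = true :=
  ⟨(l 5), by decide +kernel⟩

theorem c_mm_023_b : CertF 0 536870912 1239849684 370763052 402653184 67108864 true false false .up 0 2 3
    ndF1q0 ndF1q2b pcF3 Cut.none Ext.none :=
  certF0 (fam := true) (s1 := false) (s2 := false) (a := 0) (b := 2) (c := 3) (cn := .up) (n1 := ndF1q0) (n2 := ndF1q2b) (pc := pcF3) (cut := Cut.none) (xt := Ext.none) (P1 := 0) (W1 := 536870912) (P2 := 1239849684) (W2 := 370763052) (P3 := 402653184) (W3 := 67108864)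
    rfl k0_mm_023_b

noncomputable def f_mm_033 : ℕ → ℕ → ℕ → ℕ → Bool := onCell 0 536870912 1610612736 536870912 402653184 67108864
    (rowF 0 true false false .pnn 0 3 3 (qsf 0 536870912 1610612736 536870912 3) ndF1q0 ndF1q3 pcF3 Cut.none Ext.none)

def k0_mm_033 : ∃ t, chk3 f_mm_033 t 1 1 1 = true :=
  ⟨(l 5), by decide +kernel⟩

theorem c_mm_033 : CertF 0 536870912 1610612736 536870912 402653184 67108864 true false false .pnn 0 3 3
    ndF1q0 ndF1q3 pcF3 Cut.none Ext.none :=
  certF0 (fam := true) (s1 := false) (s2 := false) (a := 0) (b := 3) (c := 3) (cn := .pnn) (n1 := ndF1q0) (n2 := ndF1q3) (pc := pcF3) (cut := Cut.none) (xt := Ext.none) (P1 := 0) (W1 := 536870912) (P2 := 1610612736) (W2 := 536870912) (P3 := 402653184) (W3 := 67108864)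
    rfl k0_mm_033

noncomputable def f_mm_101 : ℕ → ℕ → ℕ → ℕ → Bool := onCell 536870912 536870912 0 536870912 402653184 67108864
    (rowF 0 true false false .npn 1 0 1 (qsf 536870912 536870912 0 536870912 1) ndF1q1 ndF1q0 pcF1 Cut.none Ext.none)

def k0_mm_101 : ∃ t, chk3 f_mm_101 t 1 1 1 = true :=
  ⟨(l 4), by decide +kernel⟩

theorem c_mm_101 : CertF 536870912 536870912 0 536870912 402653184 67108864 true false false .npn 1 0 1
    ndF1q1 ndF1q0 pcF1 Cut.none Ext.none :=
  certF0 (fam := true) (s1 := false) (s2 := false) (a := 1) (b := 0) (c := 1) (cn := .npn) (n1 := ndF1q1) (n2 := ndF1q0) (pc := pcF1) (cut := Cut.none) (xt := Ext.none) (P1 := 536870912) (W1 := 536870912) (P2 := 0) (W2 := 536870912) (P3 := 402653184) (W3 := 67108864)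
    rfl k0_mm_101

noncomputable def f_mm_102 : ℕ → ℕ → ℕ → ℕ → Bool := onCell 536870912 536870912 0 536870912 402653184 67108864
    (rowF 0 true false false .npp 1 0 2 (qsf 536870912 536870912 0 536870912 2) ndF1q1 ndF1q0 pcF2 Cut.none Ext.none)

def k0_mm_102 : ∃ t, chk3 f_mm_102 t 1 1 1 = true :=
  ⟨(l 4), by decide +kernel⟩

theorem c_mm_102 : CertF 536870912 536870912 0 536870912 402653184 67108864 true false false .npp 1 0 2
    ndF1q1 ndF1q0 pcF2 Cut.none Ext.none :=
  certF0 (fam := true) (s1 := false) (s2 := false) (a := 1) (b := 0) (c := 2) (cn := .npp) (n1 := ndF1q1) (n2 := ndF1q0) (pc := pcF2) (cut := Cut.none) (xt := Ext.none) (P1 := 536870912) (W1 := 536870912) (P2 := 0) (W2 := 536870912) (P3 := 402653184) (W3 := 67108864)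
    rfl k0_mm_102

noncomputable def f_mm_112 : ℕ → ℕ → ℕ → ℕ → Bool := onCell 536870912 536870912 536870912 536870912 402653184 67108864
    (rowF 0 true false false .dn 1 1 2 (qsf 536870912 536870912 536870912 536870912 2) ndF1q1 ndF1q1 pcF2 Cut.none Ext.none)

def k0_mm_112 : ∃ t, chk3 f_mm_112 t 1 1 1 = true :=
  ⟨(l 4), by decide +kernel⟩

theorem c_mm_112 : CertF 536870912 536870912 536870912 536870912 402653184 67108864 true false false .dn 1 1 2
    ndF1q1 ndF1q1 pcF2 Cut.none Ext.none :=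
  certF0 (fam := true) (s1 := false) (s2 := false) (a := 1) (b := 1) (c := 2) (cn := .dn) (n1 := ndF1q1) (n2 := ndF1q1) (pc := pcF2) (cut := Cut.none) (xt := Ext.none) (P1 := 536870912) (W1 := 536870912) (P2 := 536870912) (W2 := 536870912) (P3 := 402653184) (W3 := 67108864)
    rfl k0_mm_112

noncomputable def f_mm_113 : ℕ → ℕ → ℕ → ℕ → Bool := onCell 536870912 536870912 536870912 536870912 402653184 67108864
    (rowF 0 true false false .nn 1 1 3 (qsf 536870912 536870912 536870912 536870912 3) ndF1q1 ndF1q1 pcF3 Cut.none Ext.none)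

def k0_mm_113 : ∃ t, chk3 f_mm_113 t 1 1 1 = true :=
  ⟨(l 4), by decide +kernel⟩

theorem c_mm_113 : CertF 536870912 536870912 536870912 536870912 402653184 67108864 true false false .nn 1 1 3
    ndF1q1 ndF1q1 pcF3 Cut.none Ext.none :=
  certF0 (fam := true) (s1 := false) (s2 := false) (a := 1) (b := 1) (c := 3) (cn := .nn) (n1 := ndF1q1) (n2 := ndF1q1) (pc := pcF3) (cut := Cut.none) (xt := Ext.none) (P1 := 536870912) (W1 := 536870912) (P2 := 536870912) (W2 := 536870912) (P3 := 402653184) (W3 := 67108864)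
    rfl k0_mm_113

noncomputable def f_mm_123_a : ℕ → ℕ → ℕ → ℕ → Bool := onCell 536870912 536870912 0 536870912 402653184 67108864
    (rowF 0 true false false .npn 1 2 3 (qsf 536870912 536870912 0 536870912 3) ndF1q1 ndF1q2a pcF3 Cut.none Ext.none)

def k0_mm_123_a : ∃ t, chk3 f_mm_123_a t 1 1 1 = true :=
  ⟨(l 4), by decide +kernel⟩

theorem c_mm_123_a : CertF 536870912 536870912 0 536870912 402653184 67108864 true false false .npn 1 2 3
    ndF1q1 ndF1q2a pcF3 Cut.none Ext.none :=
  certF0 (fam := true) (s1 := false) (s2 := false) (a := 1) (b := 2) (c := 3) (cn := .npn) (n1 := ndF1q1) (n2 := ndF1q2a) (pc := pcF3) (cut := Cut.none) (xt := Ext.none) (P1 := 536870912) (W1 := 536870912) (P2 := 0) (W2 := 536870912) (P3 := 402653184) (W3 := 67108864)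
    rfl k0_mm_123_a

noncomputable def f_mm_123_b : ℕ → ℕ → ℕ → ℕ → Bool := onCell 536870912 536870912 1239849684 370763052 402653184 67108864
    (rowF 0 true false false .npn 1 2 3 (qsf 536870912 536870912 1239849684 370763052 3) ndF1q1 ndF1q2b pcF3 Cut.none Ext.none)

def k0_mm_123_b : ∃ t, chk3 f_mm_123_b t 1 1 1 = true :=
  ⟨(l 4), by decide +kernel⟩

theorem c_mm_123_b : CertF 536870912 536870912 1239849684 370763052 402653184 67108864 true false false .npn 1 2 3
    ndF1q1 ndF1q2b pcF3 Cut.none Ext.none :=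
  certF0 (fam := true) (s1 := false) (s2 := false) (a := 1) (b := 2) (c := 3) (cn := .npn) (n1 := ndF1q1) (n2 := ndF1q2b) (pc := pcF3) (cut := Cut.none) (xt := Ext.none) (P1 := 536870912) (W1 := 536870912) (P2 := 1239849684) (W2 := 370763052) (P3 := 402653184) (W3 := 67108864)
    rfl k0_mm_123_b

noncomputable def f_mm_133 : ℕ → ℕ → ℕ → ℕ → Bool := onCell 536870912 536870912 1610612736 536870912 402653184 67108864
    (rowF 0 true false false .dn 1 3 3 (qsf 536870912 536870912 1610612736 536870912 3) ndF1q1 ndF1q3 pcF3 Cut.none Ext.none)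

def k0_mm_133 : ∃ t, chk3 f_mm_133 t 1 1 1 = true :=
  ⟨(l 4), by decide +kernel⟩

theorem c_mm_133 : CertF 536870912 536870912 1610612736 536870912 402653184 67108864 true false false .dn 1 3 3
    ndF1q1 ndF1q3 pcF3 Cut.none Ext.none :=
  certF0 (fam := true) (s1 := false) (s2 := false) (a := 1) (b := 3) (c := 3) (cn := .dn) (n1 := ndF1q1) (n2 := ndF1q3) (pc := pcF3) (cut := Cut.none) (xt := Ext.none) (P1 := 536870912) (W1 := 536870912) (P2 := 1610612736) (W2 := 536870912) (P3 := 402653184) (W3 := 67108864)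
    rfl k0_mm_133

noncomputable def cut_mm_202_a : Cut := Cut.of [[⟨0, 1, 0, 67108864⟩, ⟨1, 0, 0, 67108864⟩, ⟨2, 1, 0, 67108864⟩]]

noncomputable def f_mm_202_a : ℕ → ℕ → ℕ → ℕ → Bool := onCell 0 536870912 0 536870912 402653184 67108864
    (rowF 0 true false false .pp 2 0 2 (qsf 0 536870912 0 536870912 2) ndF1q2a ndF1q0 pcF2 cut_mm_202_a Ext.none)

def k0_mm_202_a : ∃ t, chk3 f_mm_202_a t 1 1 1 = true :=
  ⟨(b (a (b (b (a (b (a (l 16515600) (l 16529520)) (l 16597832)) (b (a (b (l 16545536) (l 16553448)) (b (l 16590816) (l 16579072))) (a (l 16567000) (l 16679688)))) (a (b (l 16551616) (l 16578552)) (b (a (l 16614408) (l 16673040)) (l 4)))) (b (a (l 27615162407) (l 4)) (l 4))) (b (b (b (b (a (a (a (l 16591304) (l 16607600)) (b (a (l 16623064) (l 16642776)) (a (l 16628040) (l 16647768)))) (a (a (b (a (l 16659296) (l 16671968)) (l 16691648)) (b (b (l 6) (l 16726152)) (b (l 16739440) (l 16743376)))) (l 6))) (a (a (l 16630528) (b (l 16706216) (l 16713424))) (a (a (b (l 16698840)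 (l 4)) (l 4)) (l 4)))) (a (a (a (l 16663432) (l 16725696)) (a (b (l 16653088) (l 4)) (l 4))) (l 4))) (l 4)) (l 4))) (l 4)), by decide +kernel⟩

theorem c_mm_202_a : CertF 0 536870912 0 536870912 402653184 67108864 true false false .pp 2 0 2
    ndF1q2a ndF1q0 pcF2 cut_mm_202_a Ext.none :=
  certF0 (fam := true) (s1 := false) (s2 := false) (a := 2) (b := 0) (c := 2) (cn := .pp) (n1 := ndF1q2a) (n2 := ndF1q0) (pc := pcF2) (cut := cut_mm_202_a) (xt := Ext.none) (P1 := 0) (W1 := 536870912) (P2 := 0) (W2 := 536870912) (P3 := 402653184) (W3 := 67108864)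
    rfl k0_mm_202_a

noncomputable def cut_mm_202_b : Cut := Cut.of [[⟨0, 1, 0, 67108864⟩, ⟨1, 0, 0, 67108864⟩, ⟨2, 1, 0, 67108864⟩]]

noncomputable def f_mm_202_b : ℕ → ℕ → ℕ → ℕ → Bool := onCell 1073741824 536870912 0 536870912 402653184 67108864
    (rowF 2 true false false .pp 2 0 2 (qsf 1239849684 370763052 0 536870912 2) ndF1q2b ndF1q0 pcF2 cut_mm_202_b Ext.none)

def k0_mm_202_b : ∃ t, chk3 f_mm_202_b t 1 1 1 = true :=
  ⟨(a (b (a (l 1) (b (a (b (b (a (b (l 16548976) (l 1)) (l 16591080)) (a (l 1) (l 16566392))) (l 1)) (b (b (a (l 16452432) (l 16401096)) (l 16551320)) (a (l 148209673655) (l 16573560)))) (l 1))) (l 1)) (a (b (b (a (b (b (l 16418568) (l 16401656)) (l 16642816)) (b (a (l 16323672) (l 16308368)) (l 16453000))) (a (b (a (l 16703040) (l 16597472)) (l 1)) (l 4))) (l 1)) (b (b (a (b (l 16373088) (l 4)) (l 4)) (l 4)) (l 4)))), by decide +kernel⟩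

theorem c_mm_202_b : CertF 1239849684 370763052 0 536870912 402653184 67108864 true false false .pp 2 0 2
    ndF1q2b ndF1q0 pcF2 cut_mm_202_b Ext.none :=
  certF2 (fam := true) (s1 := false) (s2 := false) (a := 2) (b := 0) (c := 2) (cn := .pp) (n1 := ndF1q2b) (n2 := ndF1q0) (pc := pcF2) (cut := cut_mm_202_b) (xt := Ext.none) (P1 := 1239849684) (W1 := 370763052) (P2 := 0) (W2 := 536870912) (P3 := 402653184) (W3 := 67108864)
    rfl (fun _ => rfl) k0_mm_202_b

noncomputable def f_mm_203_a : ℕ → ℕ → ℕ → ℕ → Bool := onCell 0 536870912 1610612736 536870912 402653184 67108864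
    (rowF 1 true false false .up 2 0 3 (qsf 0 536870912 0 536870912 3) ndF1q2a ndF1q0 pcF3 Cut.none Ext.none)

def k0_mm_203_a : ∃ t, chk3 f_mm_203_a t 1 1 1 = true :=
  ⟨(l 4), by decide +kernel⟩

theorem c_mm_203_a : CertF 0 536870912 0 536870912 402653184 67108864 true false false .up 2 0 3
    ndF1q2a ndF1q0 pcF3 Cut.none Ext.none :=
  certF1 (fam := true) (s1 := false) (s2 := false) (a := 2) (b := 0) (c := 3) (cn := .up) (n1 := ndF1q2a) (n2 := ndF1q0) (pc := pcF3) (cut := Cut.none) (xt := Ext.none) (P1 := 0) (W1 := 536870912) (P2 := 0) (W2 := 536870912) (P3 := 402653184) (W3 := 67108864)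
    rfl (fun _ => rfl) k0_mm_203_a

noncomputable def f_mm_203_b : ℕ → ℕ → ℕ → ℕ → Bool := onCell 1239849684 370763052 1610612736 536870912 402653184 67108864
    (rowF 1 true false false .up 2 0 3 (qsf 1239849684 370763052 0 536870912 3) ndF1q2b ndF1q0 pcF3 Cut.none Ext.none)

def k0_mm_203_b : ∃ t, chk3 f_mm_203_b t 1 1 1 = true :=
  ⟨(b (l 4) (l 4)), by decide +kernel⟩

theorem c_mm_203_b : CertF 1239849684 370763052 0 536870912 402653184 67108864 true false false .up 2 0 3
    ndF1q2b ndF1q0 pcF3 Cut.none Ext.none :=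
  certF1 (fam := true) (s1 := false) (s2 := false) (a := 2) (b := 0) (c := 3) (cn := .up) (n1 := ndF1q2b) (n2 := ndF1q0) (pc := pcF3) (cut := Cut.none) (xt := Ext.none) (P1 := 1239849684) (W1 := 370763052) (P2 := 0) (W2 := 536870912) (P3 := 402653184) (W3 := 67108864)
    rfl (fun _ => rfl) k0_mm_203_b

noncomputable def f_mm_213_a : ℕ → ℕ → ℕ → ℕ → Bool := onCell 0 536870912 536870912 536870912 402653184 67108864
    (rowF 0 true false false .pnn 2 1 3 (qsf 0 536870912 536870912 536870912 3) ndF1q2a ndF1q1 pcF3 Cut.none Ext.none)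

def k0_mm_213_a : ∃ t, chk3 f_mm_213_a t 1 1 1 = true :=
  ⟨(l 4), by decide +kernel⟩

theorem c_mm_213_a : CertF 0 536870912 536870912 536870912 402653184 67108864 true false false .pnn 2 1 3
    ndF1q2a ndF1q1 pcF3 Cut.none Ext.none :=
  certF0 (fam := true) (s1 := false) (s2 := false) (a := 2) (b := 1) (c := 3) (cn := .pnn) (n1 := ndF1q2a) (n2 := ndF1q1) (pc := pcF3) (cut := Cut.none) (xt := Ext.none) (P1 := 0) (W1 := 536870912) (P2 := 536870912) (W2 := 536870912) (P3 := 402653184) (W3 := 67108864)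
    rfl k0_mm_213_a

noncomputable def f_mm_213_b : ℕ → ℕ → ℕ → ℕ → Bool := onCell 1239849684 370763052 536870912 536870912 402653184 67108864
    (rowF 0 true false false .pnn 2 1 3 (qsf 1239849684 370763052 536870912 536870912 3) ndF1q2b ndF1q1 pcF3 Cut.none Ext.none)

def k0_mm_213_b : ∃ t, chk3 f_mm_213_b t 1 1 1 = true :=
  ⟨(l 4), by decide +kernel⟩

theorem c_mm_213_b : CertF 1239849684 370763052 536870912 536870912 402653184 67108864 true false false .pnn 2 1 3
    ndF1q2b ndF1q1 pcF3 Cut.none Ext.none :=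
  certF0 (fam := true) (s1 := false) (s2 := false) (a := 2) (b := 1) (c := 3) (cn := .pnn) (n1 := ndF1q2b) (n2 := ndF1q1) (pc := pcF3) (cut := Cut.none) (xt := Ext.none) (P1 := 1239849684) (W1 := 370763052) (P2 := 536870912) (W2 := 536870912) (P3 := 402653184) (W3 := 67108864)
    rfl k0_mm_213_b

noncomputable def f_mm_303 : ℕ → ℕ → ℕ → ℕ → Bool := onCell 1610612736 536870912 0 536870912 402653184 67108864
    (rowF 0 true false false .npn 3 0 3 (qsf 1610612736 536870912 0 536870912 3) ndF1q3 ndF1q0 pcF3 Cut.none Ext.none)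

def k0_mm_303 : ∃ t, chk3 f_mm_303 t 1 1 1 = true :=
  ⟨(a (b (l 4) (l 4)) (l 4)), by decide +kernel⟩

theorem c_mm_303 : CertF 1610612736 536870912 0 536870912 402653184 67108864 true false false .npn 3 0 3
    ndF1q3 ndF1q0 pcF3 Cut.none Ext.none :=
  certF0 (fam := true) (s1 := false) (s2 := false) (a := 3) (b := 0) (c := 3) (cn := .npn) (n1 := ndF1q3) (n2 := ndF1q0) (pc := pcF3) (cut := Cut.none) (xt := Ext.none) (P1 := 1610612736) (W1 := 536870912) (P2 := 0) (W2 := 536870912) (P3 := 402653184) (W3 := 67108864)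
    rfl k0_mm_303

noncomputable def f_mm_313 : ℕ → ℕ → ℕ → ℕ → Bool := onCell 1610612736 536870912 536870912 536870912 402653184 67108864
    (rowF 0 true false false .dn 3 1 3 (qsf 1610612736 536870912 536870912 536870912 3) ndF1q3 ndF1q1 pcF3 Cut.none Ext.none)

def k0_mm_313 : ∃ t, chk3 f_mm_313 t 1 1 1 = true :=
  ⟨(l 4), by decide +kernel⟩

theorem c_mm_313 : CertF 1610612736 536870912 536870912 536870912 402653184 67108864 true false false .dn 3 1 3
    ndF1q3 ndF1q1 pcF3 Cut.none Ext.none :=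
  certF0 (fam := true) (s1 := false) (s2 := false) (a := 3) (b := 1) (c := 3) (cn := .dn) (n1 := ndF1q3) (n2 := ndF1q1) (pc := pcF3) (cut := Cut.none) (xt := Ext.none) (P1 := 1610612736) (W1 := 536870912) (P2 := 536870912) (W2 := 536870912) (P3 := 402653184) (W3 := 67108864)
    rfl k0_mm_313

end Pool.Agent.Strip051.G.I3_8_7_16.Tab.C.FA11

namespace Pool.Agent.Strip051.G.I3_8_7_16.Tab.C.FA12

open Pool.Agent.Strip051.PB Pool.Agent.Strip051.PB.T
open Pool.Agent.Strip051.G.I3_8_7_16.Tab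

noncomputable def f_pp_001 : ℕ → ℕ → ℕ → ℕ → Bool := onCell 0 536870912 0 536870912 402653184 67108864
    (rowF 0 true true true .up 0 0 1 (qsf 0 536870912 0 536870912 1) ndF1q0 ndF2q0 pcF1 Cut.none Ext.none)

def k0_pp_001 : ∃ t, chk3 f_pp_001 t 1 1 1 = true :=
  ⟨(l 4), by decide +kernel⟩

theorem c_pp_001 : CertF 0 536870912 0 536870912 402653184 67108864 true true true .up 0 0 1
    ndF1q0 ndF2q0 pcF1 Cut.none Ext.none :=
  certF0 (fam := true) (s1 := true) (s2 := true) (a := 0) (b := 0) (c := 1) (cn := .up) (n1 := ndF1q0) (n2 := ndF2q0) (pc := pcF1) (cut := Cut.none) (xt := Ext.none) (P1 := 0) (W1 := 536870912) (P2 := 0) (W2 := 536870912) (P3 := 402653184) (W3 := 67108864)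
    rfl k0_pp_001

noncomputable def f_pp_011 : ℕ → ℕ → ℕ → ℕ → Bool := onCell 0 536870912 536870912 536870912 402653184 67108864
    (rowF 0 true true true .pnn 0 1 1 (qsf 0 536870912 536870912 536870912 1) ndF1q0 ndF2q1 pcF1 Cut.none Ext.none)

def k0_pp_011 : ∃ t, chk3 f_pp_011 t 1 1 1 = true :=
  ⟨(l 4), by decide +kernel⟩

theorem c_pp_011 : CertF 0 536870912 536870912 536870912 402653184 67108864 true true true .pnn 0 1 1
    ndF1q0 ndF2q1 pcF1 Cut.none Ext.none :=
  certF0 (fam := true) (s1 := true) (s2 := true) (a := 0) (b := 1) (c := 1) (cn := .pnn) (n1 := ndF1q0) (n2 := ndF2q1) (pc := pcF1) (cut := Cut.none) (xt := Ext.none) (P1 := 0) (W1 := 536870912) (P2 := 536870912) (W2 := 536870912) (P3 := 402653184) (W3 := 67108864)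
    rfl k0_pp_011

noncomputable def f_pp_012 : ℕ → ℕ → ℕ → ℕ → Bool := onCell 0 536870912 536870912 536870912 402653184 67108864
    (rowF 0 true true true .pnp 0 1 2 (qsf 0 536870912 536870912 536870912 2) ndF1q0 ndF2q1 pcF2 Cut.none Ext.none)

def k0_pp_012 : ∃ t, chk3 f_pp_012 t 1 1 1 = true :=
  ⟨(l 4), by decide +kernel⟩

theorem c_pp_012 : CertF 0 536870912 536870912 536870912 402653184 67108864 true true true .pnp 0 1 2
    ndF1q0 ndF2q1 pcF2 Cut.none Ext.none :=
  certF0 (fam := true) (s1 := true) (s2 := true) (a := 0) (b := 1) (c := 2) (cn := .pnp) (n1 := ndF1q0) (n2 := ndF2q1) (pc := pcF2) (cut := Cut.none) (xt := Ext.none) (P1 := 0) (W1 := 536870912) (P2 := 536870912) (W2 := 536870912) (P3 := 402653184) (W3 := 67108864)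
    rfl k0_pp_012

noncomputable def f_pp_022 : ℕ → ℕ → ℕ → ℕ → Bool := onCell 0 536870912 1073741824 536870912 402653184 67108864
    (rowF 0 true true true .pp 0 2 2 (qsf 0 536870912 1073741824 536870912 2) ndF1q0 ndF2q2 pcF2 Cut.none Ext.none)

def k0_pp_022 : ∃ t, chk3 f_pp_022 t 1 1 1 = true :=
  ⟨(l 4), by decide +kernel⟩

theorem c_pp_022 : CertF 0 536870912 1073741824 536870912 402653184 67108864 true true true .pp 0 2 2
    ndF1q0 ndF2q2 pcF2 Cut.none Ext.none :=
  certF0 (fam := true) (s1 := true) (s2 := true) (a := 0) (b := 2) (c := 2) (cn := .pp) (n1 := ndF1q0) (n2 := ndF2q2) (pc := pcF2) (cut := Cut.none) (xt := Ext.none) (P1 := 0) (W1 := 536870912) (P2 := 1073741824) (W2 := 536870912) (P3 := 402653184) (W3 := 67108864)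
    rfl k0_pp_022

noncomputable def f_pp_023 : ℕ → ℕ → ℕ → ℕ → Bool := onCell 0 536870912 1073741824 536870912 402653184 67108864
    (rowF 0 true true true .up 0 2 3 (qsf 0 536870912 1073741824 536870912 3) ndF1q0 ndF2q2 pcF3 Cut.none Ext.none)

def k0_pp_023 : ∃ t, chk3 f_pp_023 t 1 1 1 = true :=
  ⟨(l 4), by decide +kernel⟩

theorem c_pp_023 : CertF 0 536870912 1073741824 536870912 402653184 67108864 true true true .up 0 2 3
    ndF1q0 ndF2q2 pcF3 Cut.none Ext.none :=
  certF0 (fam := true) (s1 := true) (s2 := true) (a := 0) (b := 2) (c := 3) (cn := .up) (n1 := ndF1q0) (n2 := ndF2q2) (pc := pcF3) (cut := Cut.none) (xt := Ext.none) (P1 := 0) (W1 := 536870912) (P2 := 1073741824) (W2 := 536870912) (P3 := 402653184) (W3 := 67108864)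
    rfl k0_pp_023

noncomputable def f_pp_033 : ℕ → ℕ → ℕ → ℕ → Bool := onCell 0 536870912 0 1230186008 402653184 67108864
    (rowF 0 true true true .pnn 0 3 3 (qsf 0 536870912 0 1230186008 3) ndF1q0 ndF2q3 pcF3 Cut.none Ext.none)

def k0_pp_033 : ∃ t, chk3 f_pp_033 t 1 1 1 = true :=
  ⟨(b (l 4) (l 4)), by decide +kernel⟩

theorem c_pp_033 : CertF 0 536870912 0 1230186008 402653184 67108864 true true true .pnn 0 3 3
    ndF1q0 ndF2q3 pcF3 Cut.none Ext.none :=
  certF0 (fam := true) (s1 := true) (s2 := true) (a := 0) (b := 3) (c := 3) (cn := .pnn) (n1 := ndF1q0) (n2 := ndF2q3) (pc := pcF3) (cut := Cut.none) (xt := Ext.none) (P1 := 0) (W1 := 536870912) (P2 := 0) (W2 := 1230186008) (P3 := 402653184) (W3 := 67108864)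
    rfl k0_pp_033

noncomputable def f_pp_101 : ℕ → ℕ → ℕ → ℕ → Bool := onCell 536870912 536870912 0 536870912 402653184 67108864
    (rowF 0 true true true .npn 1 0 1 (qsf 536870912 536870912 0 536870912 1) ndF1q1 ndF2q0 pcF1 Cut.none Ext.none)

def k0_pp_101 : ∃ t, chk3 f_pp_101 t 1 1 1 = true :=
  ⟨(l 4), by decide +kernel⟩

theorem c_pp_101 : CertF 536870912 536870912 0 536870912 402653184 67108864 true true true .npn 1 0 1
    ndF1q1 ndF2q0 pcF1 Cut.none Ext.none :=
  certF0 (fam := true) (s1 := true) (s2 := true) (a := 1) (b := 0) (c := 1) (cn := .npn) (n1 := ndF1q1) (n2 := ndF2q0) (pc := pcF1) (cut := Cut.none) (xt := Ext.none) (P1 := 536870912) (W1 := 536870912) (P2 := 0) (W2 := 536870912) (P3 := 402653184) (W3 := 67108864)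
    rfl k0_pp_101

noncomputable def f_pp_102 : ℕ → ℕ → ℕ → ℕ → Bool := onCell 536870912 536870912 0 536870912 402653184 67108864
    (rowF 0 true true true .npp 1 0 2 (qsf 536870912 536870912 0 536870912 2) ndF1q1 ndF2q0 pcF2 Cut.none Ext.none)

def k0_pp_102 : ∃ t, chk3 f_pp_102 t 1 1 1 = true :=
  ⟨(l 4), by decide +kernel⟩

theorem c_pp_102 : CertF 536870912 536870912 0 536870912 402653184 67108864 true true true .npp 1 0 2
    ndF1q1 ndF2q0 pcF2 Cut.none Ext.none :=
  certF0 (fam := true) (s1 := true) (s2 := true) (a := 1) (b := 0) (c := 2) (cn := .npp) (n1 := ndF1q1) (n2 := ndF2q0) (pc := pcF2) (cut := Cut.none) (xt := Ext.none) (P1 := 536870912) (W1 := 536870912) (P2 := 0) (W2 := 536870912) (P3 := 402653184) (W3 := 67108864)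
    rfl k0_pp_102

noncomputable def f_pp_112 : ℕ → ℕ → ℕ → ℕ → Bool := onCell 536870912 536870912 536870912 536870912 402653184 67108864
    (rowF 0 true true true .dn 1 1 2 (qsf 536870912 536870912 536870912 536870912 2) ndF1q1 ndF2q1 pcF2 Cut.none Ext.none)

def k0_pp_112 : ∃ t, chk3 f_pp_112 t 1 1 1 = true :=
  ⟨(l 4), by decide +kernel⟩

theorem c_pp_112 : CertF 536870912 536870912 536870912 536870912 402653184 67108864 true true true .dn 1 1 2
    ndF1q1 ndF2q1 pcF2 Cut.none Ext.none :=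
  certF0 (fam := true) (s1 := true) (s2 := true) (a := 1) (b := 1) (c := 2) (cn := .dn) (n1 := ndF1q1) (n2 := ndF2q1) (pc := pcF2) (cut := Cut.none) (xt := Ext.none) (P1 := 536870912) (W1 := 536870912) (P2 := 536870912) (W2 := 536870912) (P3 := 402653184) (W3 := 67108864)
    rfl k0_pp_112

noncomputable def f_pp_113 : ℕ → ℕ → ℕ → ℕ → Bool := onCell 536870912 536870912 536870912 536870912 402653184 67108864
    (rowF 0 true true true .nn 1 1 3 (qsf 536870912 536870912 536870912 536870912 3) ndF1q1 ndF2q1 pcF3 Cut.none Ext.none)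

def k0_pp_113 : ∃ t, chk3 f_pp_113 t 1 1 1 = true :=
  ⟨(l 4), by decide +kernel⟩

theorem c_pp_113 : CertF 536870912 536870912 536870912 536870912 402653184 67108864 true true true .nn 1 1 3
    ndF1q1 ndF2q1 pcF3 Cut.none Ext.none :=
  certF0 (fam := true) (s1 := true) (s2 := true) (a := 1) (b := 1) (c := 3) (cn := .nn) (n1 := ndF1q1) (n2 := ndF2q1) (pc := pcF3) (cut := Cut.none) (xt := Ext.none) (P1 := 536870912) (W1 := 536870912) (P2 := 536870912) (W2 := 536870912) (P3 := 402653184) (W3 := 67108864)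
    rfl k0_pp_113

noncomputable def f_pp_123 : ℕ → ℕ → ℕ → ℕ → Bool := onCell 536870912 536870912 1073741824 536870912 402653184 67108864
    (rowF 0 true true true .npn 1 2 3 (qsf 536870912 536870912 1073741824 536870912 3) ndF1q1 ndF2q2 pcF3 Cut.none Ext.none)

def k0_pp_123 : ∃ t, chk3 f_pp_123 t 1 1 1 = true :=
  ⟨(l 4), by decide +kernel⟩

theorem c_pp_123 : CertF 536870912 536870912 1073741824 536870912 402653184 67108864 true true true .npn 1 2 3
    ndF1q1 ndF2q2 pcF3 Cut.none Ext.none :=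
  certF0 (fam := true) (s1 := true) (s2 := true) (a := 1) (b := 2) (c := 3) (cn := .npn) (n1 := ndF1q1) (n2 := ndF2q2) (pc := pcF3) (cut := Cut.none) (xt := Ext.none) (P1 := 536870912) (W1 := 536870912) (P2 := 1073741824) (W2 := 536870912) (P3 := 402653184) (W3 := 67108864)
    rfl k0_pp_123

noncomputable def f_pp_133 : ℕ → ℕ → ℕ → ℕ → Bool := onCell 536870912 536870912 0 1230186008 402653184 67108864
    (rowF 0 true true true .dn 1 3 3 (qsf 536870912 536870912 0 1230186008 3) ndF1q1 ndF2q3 pcF3 Cut.none Ext.none)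

def k0_pp_133 : ∃ t, chk3 f_pp_133 t 1 1 1 = true :=
  ⟨(l 4), by decide +kernel⟩

theorem c_pp_133 : CertF 536870912 536870912 0 1230186008 402653184 67108864 true true true .dn 1 3 3
    ndF1q1 ndF2q3 pcF3 Cut.none Ext.none :=
  certF0 (fam := true) (s1 := true) (s2 := true) (a := 1) (b := 3) (c := 3) (cn := .dn) (n1 := ndF1q1) (n2 := ndF2q3) (pc := pcF3) (cut := Cut.none) (xt := Ext.none) (P1 := 536870912) (W1 := 536870912) (P2 := 0) (W2 := 1230186008) (P3 := 402653184) (W3 := 67108864)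
    rfl k0_pp_133

noncomputable def f_pp_202_a : ℕ → ℕ → ℕ → ℕ → Bool := onCell 0 536870912 0 536870912 402653184 67108864
    (rowF 0 true true true .pp 2 0 2 (qsf 0 536870912 0 536870912 2) ndF1q2a ndF2q0 pcF2 Cut.none Ext.none)

def k0_pp_202_a : ∃ t, chk3 f_pp_202_a t 1 1 1 = true :=
  ⟨(l 5), by decide +kernel⟩

theorem c_pp_202_a : CertF 0 536870912 0 536870912 402653184 67108864 true true true .pp 2 0 2
    ndF1q2a ndF2q0 pcF2 Cut.none Ext.none :=
  certF0 (fam := true) (s1 := true) (s2 := true) (a := 2) (b := 0) (c := 2) (cn := .pp) (n1 := ndF1q2a) (n2 := ndF2q0) (pc := pcF2) (cut := Cut.none) (xt := Ext.none) (P1 := 0) (W1 := 536870912) (P2 := 0) (W2 := 536870912) (P3 := 402653184) (W3 := 67108864)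
    rfl k0_pp_202_a

noncomputable def f_pp_202_b : ℕ → ℕ → ℕ → ℕ → Bool := onCell 1239849684 370763052 0 536870912 402653184 67108864
    (rowF 0 true true true .pp 2 0 2 (qsf 1239849684 370763052 0 536870912 2) ndF1q2b ndF2q0 pcF2 Cut.none Ext.none)

def k0_pp_202_b : ∃ t, chk3 f_pp_202_b t 1 1 1 = true :=
  ⟨(l 5), by decide +kernel⟩

theorem c_pp_202_b : CertF 1239849684 370763052 0 536870912 402653184 67108864 true true true .pp 2 0 2
    ndF1q2b ndF2q0 pcF2 Cut.none Ext.none :=
  certF0 (fam := true) (s1 := true) (s2 := true) (a := 2) (b := 0) (c := 2) (cn := .pp) (n1 := ndF1q2b) (n2 := ndF2q0) (pc := pcF2) (cut := Cut.none) (xt := Ext.none) (P1 := 1239849684) (W1 := 370763052) (P2 := 0) (W2 := 536870912) (P3 := 402653184) (W3 := 67108864)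
    rfl k0_pp_202_b

noncomputable def f_pp_203_a : ℕ → ℕ → ℕ → ℕ → Bool := onCell 0 536870912 0 536870912 402653184 67108864
    (rowF 0 true true true .up 2 0 3 (qsf 0 536870912 0 536870912 3) ndF1q2a ndF2q0 pcF3 Cut.none Ext.none)

def k0_pp_203_a : ∃ t, chk3 f_pp_203_a t 1 1 1 = true :=
  ⟨(l 5), by decide +kernel⟩

theorem c_pp_203_a : CertF 0 536870912 0 536870912 402653184 67108864 true true true .up 2 0 3
    ndF1q2a ndF2q0 pcF3 Cut.none Ext.none :=
  certF0 (fam := true) (s1 := true) (s2 := true) (a := 2) (b := 0) (c := 3) (cn := .up) (n1 := ndF1q2a) (n2 := ndF2q0) (pc := pcF3) (cut := Cut.none) (xt := Ext.none) (P1 := 0) (W1 := 536870912) (P2 := 0) (W2 := 536870912) (P3 := 402653184) (W3 := 67108864)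
    rfl k0_pp_203_a

noncomputable def f_pp_203_b : ℕ → ℕ → ℕ → ℕ → Bool := onCell 1239849684 370763052 0 536870912 402653184 67108864
    (rowF 0 true true true .up 2 0 3 (qsf 1239849684 370763052 0 536870912 3) ndF1q2b ndF2q0 pcF3 Cut.none Ext.none)

def k0_pp_203_b : ∃ t, chk3 f_pp_203_b t 1 1 1 = true :=
  ⟨(l 5), by decide +kernel⟩

theorem c_pp_203_b : CertF 1239849684 370763052 0 536870912 402653184 67108864 true true true .up 2 0 3
    ndF1q2b ndF2q0 pcF3 Cut.none Ext.none :=
  certF0 (fam := true) (s1 := true) (s2 := true) (a := 2) (b := 0) (c := 3) (cn := .up) (n1 := ndF1q2b) (n2 := ndF2q0) (pc := pcF3) (cut := Cut.none) (xt := Ext.none) (P1 := 1239849684) (W1 := 370763052) (P2 := 0) (W2 := 536870912) (P3 := 402653184) (W3 := 67108864)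
    rfl k0_pp_203_b

noncomputable def f_pp_213_a : ℕ → ℕ → ℕ → ℕ → Bool := onCell 0 536870912 536870912 536870912 402653184 67108864
    (rowF 0 true true true .pnn 2 1 3 (qsf 0 536870912 536870912 536870912 3) ndF1q2a ndF2q1 pcF3 Cut.none Ext.none)

def k0_pp_213_a : ∃ t, chk3 f_pp_213_a t 1 1 1 = true :=
  ⟨(l 4), by decide +kernel⟩

theorem c_pp_213_a : CertF 0 536870912 536870912 536870912 402653184 67108864 true true true .pnn 2 1 3
    ndF1q2a ndF2q1 pcF3 Cut.none Ext.none :=
  certF0 (fam := true) (s1 := true) (s2 := true) (a := 2) (b := 1) (c := 3) (cn := .pnn) (n1 := ndF1q2a) (n2 := ndF2q1) (pc := pcF3) (cut := Cut.none) (xt := Ext.none) (P1 := 0) (W1 := 536870912) (P2 := 536870912) (W2 := 536870912) (P3 := 402653184) (W3 := 67108864)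
    rfl k0_pp_213_a

noncomputable def f_pp_213_b : ℕ → ℕ → ℕ → ℕ → Bool := onCell 1239849684 370763052 536870912 536870912 402653184 67108864
    (rowF 0 true true true .pnn 2 1 3 (qsf 1239849684 370763052 536870912 536870912 3) ndF1q2b ndF2q1 pcF3 Cut.none Ext.none)

def k0_pp_213_b : ∃ t, chk3 f_pp_213_b t 1 1 1 = true :=
  ⟨(l 4), by decide +kernel⟩

theorem c_pp_213_b : CertF 1239849684 370763052 536870912 536870912 402653184 67108864 true true true .pnn 2 1 3
    ndF1q2b ndF2q1 pcF3 Cut.none Ext.none :=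
  certF0 (fam := true) (s1 := true) (s2 := true) (a := 2) (b := 1) (c := 3) (cn := .pnn) (n1 := ndF1q2b) (n2 := ndF2q1) (pc := pcF3) (cut := Cut.none) (xt := Ext.none) (P1 := 1239849684) (W1 := 370763052) (P2 := 536870912) (W2 := 536870912) (P3 := 402653184) (W3 := 67108864)
    rfl k0_pp_213_b

noncomputable def f_pp_303 : ℕ → ℕ → ℕ → ℕ → Bool := onCell 1610612736 536870912 0 536870912 402653184 67108864
    (rowF 0 true true true .npn 3 0 3 (qsf 1610612736 536870912 0 536870912 3) ndF1q3 ndF2q0 pcF3 Cut.none Ext.none)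

def k0_pp_303 : ∃ t, chk3 f_pp_303 t 1 1 1 = true :=
  ⟨(l 4), by decide +kernel⟩

theorem c_pp_303 : CertF 1610612736 536870912 0 536870912 402653184 67108864 true true true .npn 3 0 3
    ndF1q3 ndF2q0 pcF3 Cut.none Ext.none :=
  certF0 (fam := true) (s1 := true) (s2 := true) (a := 3) (b := 0) (c := 3) (cn := .npn) (n1 := ndF1q3) (n2 := ndF2q0) (pc := pcF3) (cut := Cut.none) (xt := Ext.none) (P1 := 1610612736) (W1 := 536870912) (P2 := 0) (W2 := 536870912) (P3 := 402653184) (W3 := 67108864)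
    rfl k0_pp_303

noncomputable def f_pp_313 : ℕ → ℕ → ℕ → ℕ → Bool := onCell 1610612736 536870912 536870912 536870912 402653184 67108864
    (rowF 0 true true true .dn 3 1 3 (qsf 1610612736 536870912 536870912 536870912 3) ndF1q3 ndF2q1 pcF3 Cut.none Ext.none)

def k0_pp_313 : ∃ t, chk3 f_pp_313 t 1 1 1 = true :=
  ⟨(l 4), by decide +kernel⟩

theorem c_pp_313 : CertF 1610612736 536870912 536870912 536870912 402653184 67108864 true true true .dn 3 1 3
    ndF1q3 ndF2q1 pcF3 Cut.none Ext.none :=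
  certF0 (fam := true) (s1 := true) (s2 := true) (a := 3) (b := 1) (c := 3) (cn := .dn) (n1 := ndF1q3) (n2 := ndF2q1) (pc := pcF3) (cut := Cut.none) (xt := Ext.none) (P1 := 1610612736) (W1 := 536870912) (P2 := 536870912) (W2 := 536870912) (P3 := 402653184) (W3 := 67108864)
    rfl k0_pp_313

noncomputable def f_pm_001 : ℕ → ℕ → ℕ → ℕ → Bool := onCell 0 536870912 0 536870912 402653184 67108864
    (rowF 0 true true false .up 0 0 1 (qsf 0 536870912 0 536870912 1) ndF1q0 ndF2q0 pcF1 Cut.none Ext.none)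

def k0_pm_001 : ∃ t, chk3 f_pm_001 t 1 1 1 = true :=
  ⟨(a (l 3) (l 3)), by decide +kernel⟩

theorem c_pm_001 : CertF 0 536870912 0 536870912 402653184 67108864 true true false .up 0 0 1
    ndF1q0 ndF2q0 pcF1 Cut.none Ext.none :=
  certF0 (fam := true) (s1 := true) (s2 := false) (a := 0) (b := 0) (c := 1) (cn := .up) (n1 := ndF1q0) (n2 := ndF2q0) (pc := pcF1) (cut := Cut.none) (xt := Ext.none) (P1 := 0) (W1 := 536870912) (P2 := 0) (W2 := 536870912) (P3 := 402653184) (W3 := 67108864)
    rfl k0_pm_001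

noncomputable def cut_pm_011 : Cut := Cut.of [[⟨0, 0, 0, 67108864⟩, ⟨1, 1, 0, 67108864⟩, ⟨2, 1, 0, 67108864⟩]]

noncomputable def f_pm_011 : ℕ → ℕ → ℕ → ℕ → Bool := onCell 0 536870912 536870912 536870912 402653184 67108864
    (rowF 1 true true false .pnn 0 1 1 (qsf 0 536870912 536870912 536870912 1) ndF1q0 ndF2q1 pcF1 cut_pm_011 Ext.none)

def k0_pm_011 : ∃ t, chk3 f_pm_011 t 1 1 1 = true :=
  ⟨(b (l 3) (a (a (b (l 3) (b (l 3) (a (b (l 3) (a (b (l 3) (l 6)) (l 3))) (l 3)))) (l 3)) (l 3))), by decide +kernel⟩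

theorem c_pm_011 : CertF 0 536870912 536870912 536870912 402653184 67108864 true true false .pnn 0 1 1
    ndF1q0 ndF2q1 pcF1 cut_pm_011 Ext.none :=
  certF1 (fam := true) (s1 := true) (s2 := false) (a := 0) (b := 1) (c := 1) (cn := .pnn) (n1 := ndF1q0) (n2 := ndF2q1) (pc := pcF1) (cut := cut_pm_011) (xt := Ext.none) (P1 := 0) (W1 := 536870912) (P2 := 536870912) (W2 := 536870912) (P3 := 402653184) (W3 := 67108864)
    rfl (fun _ => rfl) k0_pm_011

noncomputable def cut_pm_012 : Cut := Cut.of [[⟨0, 0, 0, 67108864⟩, ⟨1, 1, 0, 67108864⟩, ⟨2, 1, 0, 67108864⟩]]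

noncomputable def f_pm_012 : ℕ → ℕ → ℕ → ℕ → Bool := onCell 1073741824 536870912 536870912 536870912 402653184 67108864
    (rowF 2 true true false .pnp 0 1 2 (qsf 0 536870912 536870912 536870912 2) ndF1q0 ndF2q1 pcF2 cut_pm_012 Ext.none)

def k0_pm_012 : ∃ t, chk3 f_pm_012 t 1 1 1 = true :=
  ⟨(a (b (a (a (l 3) (b (b (b (l 2) (l 16786704)) (a (l 16657968) (l 16694408))) (b (a (l 16434816) (l 16485656)) (a (l 16487264) (l 16451000))))) (b (a (a (a (b (l 2) (l 16726480)) (l 2)) (l 2)) (l 2)) (a (a (a (b (l 16546016) (l 16438408)) (a (l 16624320) (l 16632120))) (l 16614856)) (b (l 16761640) (l 16607576))))) (a (a (b (b (l 3) (a (l 3) (l 16615080))) (a (b (l 3) (a (b (l 3) (l 6)) (b (b (l 16678208) (l 16709440)) (b (a (l 6) (l 16690592)) (l 6))))) (b (b (l 16606984) (l 16681560)) (b (a (l 16670696) (l 16618080)) (b (a (l 16664520) (l 16630848)) (a (b (l 16672744) (l 6)) (l 16640176))))))) (b (b (a (l 16529760) (l 16489616)) (a (l 16544608) (l 16500240))) (b (a (a (l 16570088)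 (l 16542096)) (l 16546080)) (a (b (l 16633704) (b (l 16580616) (l 16587872))) (b (l 16513016) (l 16521224)))))) (a (b (a (a (l 16495128) (l 16479632)) (l 16474376)) (b (a (l 16476952) (l 16453344)) (a (b (l 16475208) (l 16601640)) (l 16439056)))) (b (l 16447000) (b (l 16409304) (l 16381488)))))) (b (b (l 2) (a (b (l 2) (l 16875648)) (l 2))) (a (b (a (l 16525936) (l 16794008)) (b (l 16359592) (a (l 16325568) (l 16297320)))) (a (b (l 16979400) (l 16659416)) (b (l 2) (l 16942264)))))), by decide +kernel⟩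

theorem c_pm_012 : CertF 0 536870912 536870912 536870912 402653184 67108864 true true false .pnp 0 1 2
    ndF1q0 ndF2q1 pcF2 cut_pm_012 Ext.none :=
  certF2 (fam := true) (s1 := true) (s2 := false) (a := 0) (b := 1) (c := 2) (cn := .pnp) (n1 := ndF1q0) (n2 := ndF2q1) (pc := pcF2) (cut := cut_pm_012) (xt := Ext.none) (P1 := 0) (W1 := 536870912) (P2 := 536870912) (W2 := 536870912) (P3 := 402653184) (W3 := 67108864)
    rfl (fun _ => rfl) k0_pm_012

noncomputable def f_pm_022 : ℕ → ℕ → ℕ → ℕ → Bool := onCell 0 536870912 1073741824 536870912 402653184 67108864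
    (rowF 1 true true false .pp 0 2 2 (qsf 0 536870912 1073741824 536870912 2) ndF1q0 ndF2q2 pcF2 Cut.none Ext.none)

def k0_pm_022 : ∃ t, chk3 f_pm_022 t 2 2 1 = true :=
  ⟨(b (b (a (b (l 3) (a (a (l 3) (a (l 3) (l 3))) (a (b (l 1) (b (l 1) (l 282964501735))) (l 1)))) (l 1)) (b (a (a (a (a (b (a (b (l 3) (a (l 44190964631) (l 16663280))) (l 16690864)) (a (b (a (l 16650808) (l 16650912)) (l 16638840)) (l 16644896))) (b (l 16732296) (l 16644384))) (b (l 16715144) (l 16641128))) (a (b (a (l 16753288) (l 284038256487)) (a (l 16676872) (l 16702528))) (b (l 1) (l 295849411943)))) (l 1)) (a (a (a (b (a (a (b (l 16626720) (l 16614624)) (l 16620472)) (l 16619656)) (a (a (b (l 16602584) (l 16591088)) (l 16596816)) (l 16596288))) (a (l 16732184) (l 16645096))) (b (a (l 16655528) (l 16706272)) (a (l 16617376) (l 16670336)))) (a (a (l 350073309399) (l 1)) (l 1))))) (a (b (a (b (a (b (a (a (l 16578664) (l 16578984)) (l 16578960)) (a (b (l 16569488) (b (l 16566808) (b (l 16567088)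 (l 16588752)))) (l 16653496))) (b (l 16576816) (l 16629824))) (a (a (a (b (l 16559216) (l 16542624)) (l 16550584)) (l 16549856)) (l 16546672))) (b (b (l 16604088) (l 16556968)) (l 16531344))) (a (a (a (a (b (b (l 16548088) (l 16512712)) (c (l 16503544) (l 16482384))) (l 16505624)) (l 16504672)) (l 16501232)) (l 16486400))) (b (b (a (b (l 351683862135) (a (l 16682736) (l 16776312))) (l 1)) (a (l 161094653207) (l 398928517879))) (a (l 16499912) (l 261489873063))))), by decide +kernel⟩

def k1_pm_022 : ∃ t, chk3 f_pm_022 t 2 3 1 = true :=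
  ⟨(a (b (b (a (a (a (a (b (l 16492600) (l 16476112)) (l 16462144)) (l 16460848)) (l 16456896)) (l 16442176)) (a (a (a (b (a (b (l 16446360) (l 16462832)) (l 16442856)) (b (a (l 16468016) (l 16443000)) (l 16483456))) (b (l 16441200) (l 16444952))) (b (l 16436648) (l 16436320))) (l 16420920))) (b (a (a (b (a (b (l 16487720) (l 16520496)) (l 16485344)) (a (b (l 16587808) (l 16697504)) (l 16600288))) (b (l 16464280) (l 16539904))) (a (l 16465800) (l 16444928))) (a (a (b (a (b (l 16794576) (l 16879664)) (l 16801232)) (a (b (b (l 16903448) (l 16867848)) (l 16793344)) (b (l 16872840) (l 16833920)))) (b (l 16743264) (l 16811624))) (b (l 16638856) (l 16701824))))) (b (b (l 16431720) (l 16354448)) (b (l 16394720) (a (b (l 16536768) (l 16629464)) (l 16530496))))), by decide +kernel⟩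

def k2_pm_022 : ∃ t, chk3 f_pm_022 t 3 1 1 = true :=
  ⟨(b (b (l 1) (a (b (l 1) (a (l 399465414663) (l 1))) (l 1))) (b (a (b (a (l 16601256) (l 425772073575)) (l 151968026983)) (b (l 1) (l 446710171431))) (b (a (l 16340688) (l 405908187895)) (a (l 16523960) (l 201360015367))))), by decide +kernel⟩

theorem s3_pm_022 : ∃ t, chk3 f_pm_022 t 2 1 1 = true := ex3_b k0_pm_022 k1_pm_022

theorem s4_pm_022 : ∃ t, chk3 f_pm_022 t 1 1 1 = true := ex3_a s3_pm_022 k2_pm_022

theorem c_pm_022 : CertF 0 536870912 1073741824 536870912 402653184 67108864 true true false .pp 0 2 2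
    ndF1q0 ndF2q2 pcF2 Cut.none Ext.none :=
  certF1 (fam := true) (s1 := true) (s2 := false) (a := 0) (b := 2) (c := 2) (cn := .pp) (n1 := ndF1q0) (n2 := ndF2q2) (pc := pcF2) (cut := Cut.none) (xt := Ext.none) (P1 := 0) (W1 := 536870912) (P2 := 1073741824) (W2 := 536870912) (P3 := 402653184) (W3 := 67108864)
    rfl (fun _ => rfl) s4_pm_022

noncomputable def f_pm_023 : ℕ → ℕ → ℕ → ℕ → Bool := onCell 1610612736 536870912 1073741824 536870912 402653184 67108864
    (rowF 2 true true false .up 0 2 3 (qsf 0 536870912 1073741824 536870912 3) ndF1q0 ndF2q2 pcF3 Cut.none Ext.none)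

def k0_pm_023 : ∃ t, chk3 f_pm_023 t 1 1 1 = true :=
  ⟨(a (b (a (b (l 16882336) (l 16784192)) (l 219681733479)) (a (b (b (l 16770032) (l 16792352)) (b (a (l 16818832) (l 16871696)) (a (b (l 16894360) (a (l 16866056) (l 16889464))) (l 16916888)))) (b (b (l 16918536) (l 16921768)) (b (l 16934792) (a (l 16949016) (l 16973624)))))) (b (a (a (l 17116288) (l 2)) (l 2)) (a (b (a (l 16945264) (l 16956016)) (a (l 16973392) (l 16982912))) (a (b (l 17019624) (l 16963136)) (l 4))))), by decide +kernel⟩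

theorem c_pm_023 : CertF 0 536870912 1073741824 536870912 402653184 67108864 true true false .up 0 2 3
    ndF1q0 ndF2q2 pcF3 Cut.none Ext.none :=
  certF2 (fam := true) (s1 := true) (s2 := false) (a := 0) (b := 2) (c := 3) (cn := .up) (n1 := ndF1q0) (n2 := ndF2q2) (pc := pcF3) (cut := Cut.none) (xt := Ext.none) (P1 := 0) (W1 := 536870912) (P2 := 1073741824) (W2 := 536870912) (P3 := 402653184) (W3 := 67108864)
    rfl (fun _ => rfl) k0_pm_023

noncomputable def f_pm_033 : ℕ → ℕ → ℕ → ℕ → Bool := onCell 1610612736 536870912 0 1230186008 402653184 67108864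
    (rowF 2 true true false .pnn 0 3 3 (qsf 0 536870912 0 1230186008 3) ndF1q0 ndF2q3 pcF3 Cut.none Ext.none)

def k0_pm_033 : ∃ t, chk3 f_pm_033 t 1 1 1 = true :=
  ⟨(b (a (l 1) (a (l 1) (b (l 4) (l 4)))) (b (a (b (l 1) (a (l 1) (a (l 1) (l 796751385655)))) (a (a (b (l 1) (l 17169928)) (a (l 17155464) (l 4))) (l 4))) (b (a (a (l 1) (a (l 678102648967) (l 17109840))) (a (a (l 17114392) (l 17090312)) (l 4))) (a (a (a (b (l 1) (a (b (l 1) (l 300144453047)) (l 274911848055))) (b (l 638910519559) (l 16955040))) (a (l 17004736) (l 17031656))) (a (a (l 17044888) (l 17039720)) (l 4)))))), by decide +kernel⟩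

theorem c_pm_033 : CertF 0 536870912 0 1230186008 402653184 67108864 true true false .pnn 0 3 3
    ndF1q0 ndF2q3 pcF3 Cut.none Ext.none :=
  certF2 (fam := true) (s1 := true) (s2 := false) (a := 0) (b := 3) (c := 3) (cn := .pnn) (n1 := ndF1q0) (n2 := ndF2q3) (pc := pcF3) (cut := Cut.none) (xt := Ext.none) (P1 := 0) (W1 := 536870912) (P2 := 0) (W2 := 1230186008) (P3 := 402653184) (W3 := 67108864)
    rfl (fun _ => rfl) k0_pm_033

noncomputable def f_pm_101 : ℕ → ℕ → ℕ → ℕ → Bool := onCell 536870912 536870912 0 536870912 402653184 67108864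
    (rowF 2 true true false .npn 1 0 1 (qsf 536870912 536870912 0 536870912 1) ndF1q1 ndF2q0 pcF1 Cut.none Ext.none)

def k0_pm_101 : ∃ t, chk3 f_pm_101 t 1 1 1 = true :=
  ⟨(a (l 3) (l 3)), by decide +kernel⟩

theorem c_pm_101 : CertF 536870912 536870912 0 536870912 402653184 67108864 true true false .npn 1 0 1
    ndF1q1 ndF2q0 pcF1 Cut.none Ext.none :=
  certF2 (fam := true) (s1 := true) (s2 := false) (a := 1) (b := 0) (c := 1) (cn := .npn) (n1 := ndF1q1) (n2 := ndF2q0) (pc := pcF1) (cut := Cut.none) (xt := Ext.none) (P1 := 536870912) (W1 := 536870912) (P2 := 0) (W2 := 536870912) (P3 := 402653184) (W3 := 67108864)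
    rfl (fun _ => rfl) k0_pm_101

noncomputable def f_pm_102 : ℕ → ℕ → ℕ → ℕ → Bool := onCell 536870912 536870912 1073741824 536870912 402653184 67108864
    (rowF 1 true true false .npp 1 0 2 (qsf 536870912 536870912 0 536870912 2) ndF1q1 ndF2q0 pcF2 Cut.none Ext.none)

def k0_pm_102 : ∃ t, chk3 f_pm_102 t 1 1 1 = true :=
  ⟨(a (b (b (b (l 3) (b (l 16912424) (l 16881752))) (b (b (b (l 16860920) (b (l 16851208) (a (l 2) (l 16817576)))) (l 16826736)) (l 16806888))) (b (l 16802656) (l 2))) (b (b (b (l 3) (a (l 17016552) (b (l 3) (l 104320595159)))) (b (b (b (a (l 16840200) (l 16756192)) (b (a (l 16848488) (l 16759904)) (a (b (l 16852544) (l 16853008)) (b (l 16762736) (b (l 16762936) (l 16760568)))))) (a (l 16861416) (l 16763512))) (a (l 16892488) (l 16783816)))) (b (a (l 16968952) (l 16934112)) (b (l 16984632) (l 17001080))))), by decide +kernel⟩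

theorem c_pm_102 : CertF 536870912 536870912 0 536870912 402653184 67108864 true true false .npp 1 0 2
    ndF1q1 ndF2q0 pcF2 Cut.none Ext.none :=
  certF1 (fam := true) (s1 := true) (s2 := false) (a := 1) (b := 0) (c := 2) (cn := .npp) (n1 := ndF1q1) (n2 := ndF2q0) (pc := pcF2) (cut := Cut.none) (xt := Ext.none) (P1 := 536870912) (W1 := 536870912) (P2 := 0) (W2 := 536870912) (P3 := 402653184) (W3 := 67108864)
    rfl (fun _ => rfl) k0_pm_102

noncomputable def f_pm_112 : ℕ → ℕ → ℕ → ℕ → Bool := onCell 1073741824 536870912 536870912 536870912 402653184 67108864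
    (rowF 2 true true false .dn 1 1 2 (qsf 536870912 536870912 536870912 536870912 2) ndF1q1 ndF2q1 pcF2 Cut.none Ext.none)

def k0_pm_112 : ∃ t, chk3 f_pm_112 t 1 1 1 = true :=
  ⟨(a (b (a (a (l 3) (b (b (b (a (l 3) (l 16771600)) (l 16741280)) (l 350073861143)) (b (l 353295155143) (l 1)))) (b (a (a (a (b (l 16782384) (l 16771472)) (a (b (l 16803336) (l 16781776)) (b (l 16818256) (l 16801088)))) (b (l 16855344) (l 16829160))) (b (l 16944048) (l 16929744))) (a (a (a (l 355979521799) (a (l 269543313111) (l 271690821559))) (l 273838327255)) (l 16856192)))) (a (l 1) (a (l 1) (b (l 350610693447) (l 1))))) (b (b (a (b (l 17230576) (l 17111896)) (a (b (l 17323072) (l 17242104)) (b (l 17443952) (l 17295952)))) (a (b (l 17082816) (l 17040928)) (a (l 17214536) (l 17266184)))) (a (b (l 355442538231) (l 365642880055)) (a (l 303365823527) (b (l 17272816) (l 17220088)))))), by decide +kernel⟩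

theorem c_pm_112 : CertF 536870912 536870912 536870912 536870912 402653184 67108864 true true false .dn 1 1 2
    ndF1q1 ndF2q1 pcF2 Cut.none Ext.none :=
  certF2 (fam := true) (s1 := true) (s2 := false) (a := 1) (b := 1) (c := 2) (cn := .dn) (n1 := ndF1q1) (n2 := ndF2q1) (pc := pcF2) (cut := Cut.none) (xt := Ext.none) (P1 := 536870912) (W1 := 536870912) (P2 := 536870912) (W2 := 536870912) (P3 := 402653184) (W3 := 67108864)
    rfl (fun _ => rfl) k0_pm_112

end Pool.Agent.Strip051.G.I3_8_7_16.Tab.C.FA12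

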