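import Pool.Agent.Strip051.G.I3_8_7_16.StF

/-! # Unit strips 5 (generated) -/

set_option linter.all false
set_option maxRecDepth 100000

namespace Pool.Agent.Strip051.G.I3_8_7_16.Tab.St.C

open Pool.Agent.Strip051.PB Pool.Agent.Strip051.PB.T Pool.Agent.StripNear Pool.Agent.Strip051.LC
open Pool.Agent.Strip051.G.I3_8_7_16.Tab Pool.Agent.Strip051.G.I3_8_7_16.Tab.St

noncomputable def cut_B00pp_012_s1 : Cut := Cut.of [[⟨4, 0, 0, 1449551462⟩], [⟨0, 0, 0, 67108864⟩, ⟨1, 1, 0, 67108864⟩, ⟨2, 1, 0, 67108864⟩]]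

noncomputable def xt_B00pp_012_s1 : Ext := strExt dd false true true .u0 .u2 .u0m .pnp 0 1 2 rfl rfl gf1 vv ndF0q0 ndF0q2

noncomputable def f_B00pp_012_s1 : ℕ → ℕ → ℕ → ℕ → Bool := onCell 0 536870912 0 536870912 402653184 67108864
    (rowF 0 false true true .pnp 0 1 2 (qsf 0 536870912 0 536870912 1) ndF0q0 ndF0q2 pcF1 cut_B00pp_012_s1 xt_B00pp_012_s1)

def k0_B00pp_012_s1 : ∃ t, chk3 f_B00pp_012_s1 t 2 2 1 = true :=
  ⟨(a (a (l 2) (b (l 2) (a (l 2) (b (l 2) (a (l 2) (b (l 2) (a (l 2) (l 16636272)))))))) (b (b (l 6) (a (l 6) (a (l 6) (l 16743744)))) (a (b (a (l 6) (b (l 6) (l 16702504))) (a (a (b (l 535077391) (l 16689560)) (b (l 16648728) (l 16662704))) (b (a (l 16663632) (l 16678040)) (b (l 16722576) (l 535906575))))) (b (a (b (l 16681368) (l 16688352)) (b (l 16706240) (l 16712544))) (a (b (a (l 16691696) (l 16704352)) (a (l 16704720) (l 16716864))) (b (l 535223823) (l 535048207))))))), by decide +kernel⟩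

def k1_B00pp_012_s1 : ∃ t, chk3 f_B00pp_012_s1 t 4 3 1 = true :=
  ⟨(b (a (l 2) (a (b (l 2) (a (b (l 2) (a (l 2) (l 534449679))) (a (b (l 533662735) (l 534075663)) (b (l 533691919) (l 533839119))))) (b (b (a (a (l 2) (l 16681160)) (a (l 534090767) (l 16654368))) (a (a (l 533864463) (l 534166543)) (a (l 16710928) (l 16718440)))) (a (a (b (l 533724175) (l 533873679)) (b (l 534028303) (l 534180111))) (b (a (l 534067471) (l 533841679)) (a (l 533953039) (l 533729295))))))) (b (a (b (a (l 2) (a (l 2) (a (l 2) (a (l 534156815) (l 533900303))))) (a (l 2) (a (l 14) (b (a (l 14) (a (l 14) (l 533291791))) (b (a (l 14) (l 534050319)) (a (l 14) (a (l 14) (l 533234447)))))))) (a (a (b (b (a (l 533402895) (l 533431055)) (a (l 533891599) (l 533384719))) (b (a (l 534114063) (l 533877775)) (a (b (l 533812751) (l 534059023)) (c (l 533868815) (l 534069775))))) (b (a (a (l 533501455) (l 533719311)) (b (l 533495311) (l 533453071)))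 (a (b (l 533643791) (l 533603087)) (a (l 533386511) (l 533406223))))) (b (a (a (a (l 533773583) (l 533793039)) (a (l 533813007) (l 533565455))) (b (l 534433551) (l 534400783))) (a (a (b (l 533453327) (l 533416719)) (l 534016015)) (b (l 534367759) (l 3)))))) (a (c (a (l 14) (a (l 14) (a (l 14) (a (l 14) (b (b (l 533232911) (l 533195023)) (l 3)))))) (a (l 14) (a (l 14) (a (l 14) (b (a (l 14) (b (l 533167631) (l 533116175))) (l 3)))))) (b (b (b (a (a (a (a (l 533227535) (l 533244175)) (l 533535503)) (a (l 533305103) (l 3))) (l 3)) (a (a (a (a (l 533205519) (l 533222671)) (l 533514511)) (l 3)) (l 3))) (l 3)) (l 3))))), by decide +kernel⟩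

def k2_B00pp_012_s1 : ∃ t, chk3 f_B00pp_012_s1 t 5 3 1 = true :=
  ⟨(b (a (a (b (a (b (l 16707616) (l 534575119)) (b (l 16722520) (l 534411023))) (a (b (a (l 533888271) (l 533938447)) (c (l 534651919) (l 534560527))) (b (l 534822927) (l 534985999)))) (b (a (b (l 16736920) (l 534255119)) (b (l 16750464) (l 534364943))) (a (b (l 534933775) (l 534281743)) (b (l 534232335) (l 534109199))))) (b (a (b (a (l 534621711) (l 534728207)) (a (l 534471439) (l 534572303))) (b (l 535680015) (l 535242255))) (a (b (a (l 534330895) (l 534423311)) (a (l 534198287) (l 3))) (b (a (l 534505487) (l 534574863)) (l 3))))) (b (b (a (a (a (b (l 534268175) (l 534508047)) (b (l 534375695) (l 534330383))) (a (b (l 533933071) (l 3)) (l 3))) (l 3)) (l 3)) (l 3))), by decide +kernel⟩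

def k3_B00pp_012_s1 : ∃ t, chk3 f_B00pp_012_s1 t 3 1 1 = true :=
  ⟨(b (a (b (b (a (a (l 6) (l 16744968)) (a (l 16758016) (l 16766400))) (a (a (l 16765264) (b (l 16739904) (l 16740016))) (a (b (l 16752152) (l 16751752)) (b (l 16760168) (l 16759728))))) (a (a (b (b (l 16726728) (l 16774112)) (b (l 535422735) (l 535235855))) (b (a (l 535804943) (l 535878671)) (b (l 535592463) (l 535374607)))) (b (a (a (l 535935759) (l 535969807)) (l 536023311)) (a (b (l 535643919) (l 535966223)) (b (l 535690767) (l 535443215)))))) (b (a (b (a (l 16771608) (b (l 16776152) (l 16771528))) (b (a (l 16765720) (l 536487951)) (a (l 536307215) (l 536293647)))) (b (a (b (l 16776760) (l 536687631)) (b (l 536991503) (l 536890127))) (a (b (b (l 536533519) (l 536415247)) (b (l 536286479) (l 536234255))) (b (l 536792335) (b (l 536655375) (l 3)))))) (a (b (a (l 536027919) (l 535990799)) (b (l 535643663) (l 3))) (b (a (l 536064271) (l 3))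 (l 3))))) (a (b (b (a (a (b (l 535042575) (l 534849295)) (b (l 535150351) (l 3))) (l 3)) (l 3)) (l 3)) (l 3))), by decide +kernel⟩

theorem t4_B00pp_012_s1 : ∃ t, chk3 f_B00pp_012_s1 t 2 3 1 = true := ex3_a k1_B00pp_012_s1 k2_B00pp_012_s1

theorem t5_B00pp_012_s1 : ∃ t, chk3 f_B00pp_012_s1 t 2 1 1 = true := ex3_b k0_B00pp_012_s1 t4_B00pp_012_s1

theorem t6_B00pp_012_s1 : ∃ t, chk3 f_B00pp_012_s1 t 1 1 1 = true := ex3_a t5_B00pp_012_s1 k3_B00pp_012_s1

theorem c_B00pp_012_s1 : CertF 0 536870912 0 536870912 402653184 67108864 false true true .pnp 0 1 2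
    ndF0q0 ndF0q2 pcF1 cut_B00pp_012_s1 xt_B00pp_012_s1 :=
  certF0 (fam := false) (s1 := true) (s2 := true) (a := 0) (b := 1) (c := 2) (cn := .pnp) (n1 := ndF0q0) (n2 := ndF0q2) (pc := pcF1) (cut := cut_B00pp_012_s1) (xt := xt_B00pp_012_s1) (P1 := 0) (W1 := 536870912) (P2 := 0) (W2 := 536870912) (P3 := 402653184) (W3 := 67108864)
    rfl t6_B00pp_012_s1

theorem s_B00pp_012_s1 {κ x : ℝ} (hκ : κ * h0 = ken x) (hx : ((402653184 : ℕ) : ℝ) / S ≤ x)
    (hx' : x ≤ (((402653184 : ℕ) : ℝ) + (67108864 : ℕ)) / S)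
    (H : CutB (VF κ) PP tKF tL pcF (Cut.of [[⟨0, 0, 0, 67108864⟩, ⟨1, 1, 0, 67108864⟩, ⟨2, 1, 0, 67108864⟩]]) 0 1 2 0 0 (sgb true) (sgb true) x) :
    AltB (VF κ) PP tKF tL pcF [⟨3, 0, 0, 1449551462⟩] 0 1 2 0 0 (sgb true) (sgb true) x :=
  strip_altB (m := 1449551462) true rfl hκ covF00 covF02 hx hx' c_B00pp_012_s1 H ((okx hx hx').extB (T := tt) (sideF hx hx') hκ rfl rfl (.O 0 true) (.O 2 true) (Or.inr rfl))

noncomputable def cut_B00pp_012_s3 : Cut := Cut.of [[⟨3, 0, 0, 2845415833⟩], [⟨0, 0, 0, 67108864⟩, ⟨1, 1, 0, 67108864⟩, ⟨2, 1, 0, 67108864⟩]]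

noncomputable def f_B00pp_012_s3 : ℕ → ℕ → ℕ → ℕ → Bool := onCell 0 536870912 0 536870912 402653184 67108864
    (rowF 0 false true true .pnp 0 1 2 (qsf 0 536870912 0 536870912 1) ndF0q0 ndF0q2 pcF1 cut_B00pp_012_s3 Ext.none)

def k0_B00pp_012_s3 : ∃ t, chk3 f_B00pp_012_s3 t 1 1 1 = true :=
  ⟨(l 6), by decide +kernel⟩

theorem c_B00pp_012_s3 : CertF 0 536870912 0 536870912 402653184 67108864 false true true .pnp 0 1 2
    ndF0q0 ndF0q2 pcF1 cut_B00pp_012_s3 Ext.none :=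
  certF0 (fam := false) (s1 := true) (s2 := true) (a := 0) (b := 1) (c := 2) (cn := .pnp) (n1 := ndF0q0) (n2 := ndF0q2) (pc := pcF1) (cut := cut_B00pp_012_s3) (xt := Ext.none) (P1 := 0) (W1 := 536870912) (P2 := 0) (W2 := 536870912) (P3 := 402653184) (W3 := 67108864)
    rfl k0_B00pp_012_s3

theorem s_B00pp_012_s3 {κ x : ℝ} (hκ : κ * h0 = ken x) (hx : ((402653184 : ℕ) : ℝ) / S ≤ x)
    (hx' : x ≤ (((402653184 : ℕ) : ℝ) + (67108864 : ℕ)) / S)
    (H : CutB (VF κ) PP tKF tL pcF (Cut.of [[⟨0, 0, 0, 67108864⟩, ⟨1, 1, 0, 67108864⟩, ⟨2, 1, 0, 67108864⟩]]) 0 1 2 0 0 (sgb true) (sgb true) x) :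
    AltB (VF κ) PP tKF tL pcF [⟨4, 0, 0, 2845415833⟩] 0 1 2 0 0 (sgb true) (sgb true) x :=
  strip_altB (m := 2845415833) false rfl hκ covF00 covF02 hx hx' c_B00pp_012_s3 H (noExt_B)

noncomputable def cut_B00pp_022_s1 : Cut := Cut.of [[⟨4, 0, 0, 1449551462⟩], [⟨0, 0, 0, 67108864⟩, ⟨1, 1, 0, 67108864⟩, ⟨2, 1, 0, 67108864⟩]]

noncomputable def f_B00pp_022_s1 : ℕ → ℕ → ℕ → ℕ → Bool := onCell 1073741824 536870912 0 536870912 402653184 67108864
    (rowF 2 false true true .pp 0 2 2 (qsf 0 536870912 0 536870912 2) ndF0q0 ndF0q2 pcF2 cut_B00pp_022_s1 Ext.none)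

def k0_B00pp_022_s1 : ∃ t, chk3 f_B00pp_022_s1 t 4 2 1 = true :=
  ⟨(b (l 6) (a (a (b (l 6) (b (l 6) (l 16694272))) (l 6)) (l 6))), by decide +kernel⟩

def k1_B00pp_022_s1 : ∃ t, chk3 f_B00pp_022_s1 t 4 3 1 = true :=
  ⟨(a (b (a (b (a (b (l 16680616) (a (l 16683368) (l 16652280))) (l 16691192)) (a (a (b (a (b (l 16678920) (l 16709152)) (l 16678208)) (a (b (b (l 16715952) (l 16698824)) (a (c (l 16718800) (l 16703280)) (l 16703024))) (b (l 16691240) (l 16698752)))) (b (l 16669976) (c (l 16729864) (l 16726512)))) (b (l 16694848) (l 16720656)))) (b (a (l 16651112) (l 16672840)) (b (a (l 16637856) (l 16680792)) (a (a (l 16659048) (l 16701440)) (b (l 16654176) (l 16664384)))))) (a (b (b (a (a (a (a (b (b (l 16721960) (a (l 16726464) (l 16714552))) (b (b (l 16718120) (l 14)) (l 14))) (b (l 16710512) (l 16718120))) (b (l 16706176) (l 16713712))) (b (l 16697320) (l 16725696))) (b (l 16720824) (l 16730680))) (l 14))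 (l 14)) (a (b (b (a (b (l 16676200) (l 16687816)) (b (l 16675744) (l 16686704))) (l 14)) (l 14)) (a (b (b (b (l 16674968) (b (l 16682696) (l 14))) (l 14)) (l 1)) (b (a (b (b (l 16674176) (b (l 16681560) (l 14))) (l 14)) (b (b (l 16673536) (b (l 55867930999) (l 16685432))) (l 1))) (l 1)))))) (b (b (a (b (l 6) (a (l 16618384) (l 16616496))) (l 6)) (a (b (a (b (l 16633120) (l 16643248)) (b (l 16631184) (a (l 16641808) (l 16640424)))) (a (b (a (l 16653704) (b (l 16650432) (l 16655448))) (a (b (l 16660952) (l 16665512)) (b (l 74658366183) (l 40835507175)))) (b (a (b (l 16649312) (l 112239318695)) (l 1)) (l 1)))) (b (b (a (l 16627920) (l 1)) (l 1)) (l 1)))) (b (a (b (a (b (a (b (l 74658391687) (a (l 16675072) (l 16674168))) (b (l 16668400) (l 1))) (a (b (l 16679176) (l 1)) (l 1))) (l 1)) (l 1)) (l 1)) (l 1)))), by decide +kernel⟩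

def k2_B00pp_022_s1 : ∃ t, chk3 f_B00pp_022_s1 t 5 1 1 = true :=
  ⟨(b (l 6) (b (l 1) (l 1))), by decide +kernel⟩

def k3_B00pp_022_s1 : ∃ t, chk3 f_B00pp_022_s1 t 3 1 1 = true :=
  ⟨(l 1), by decide +kernel⟩

theorem t4_B00pp_022_s1 : ∃ t, chk3 f_B00pp_022_s1 t 4 1 1 = true := ex3_b k0_B00pp_022_s1 k1_B00pp_022_s1

theorem t5_B00pp_022_s1 : ∃ t, chk3 f_B00pp_022_s1 t 2 1 1 = true := ex3_a t4_B00pp_022_s1 k2_B00pp_022_s1

theorem t6_B00pp_022_s1 : ∃ t, chk3 f_B00pp_022_s1 t 1 1 1 = true := ex3_a t5_B00pp_022_s1 k3_B00pp_022_s1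

theorem c_B00pp_022_s1 : CertF 0 536870912 0 536870912 402653184 67108864 false true true .pp 0 2 2
    ndF0q0 ndF0q2 pcF2 cut_B00pp_022_s1 Ext.none :=
  certF2 (fam := false) (s1 := true) (s2 := true) (a := 0) (b := 2) (c := 2) (cn := .pp) (n1 := ndF0q0) (n2 := ndF0q2) (pc := pcF2) (cut := cut_B00pp_022_s1) (xt := Ext.none) (P1 := 0) (W1 := 536870912) (P2 := 0) (W2 := 536870912) (P3 := 402653184) (W3 := 67108864)
    rfl (fun _ => rfl) t6_B00pp_022_s1

theorem s_B00pp_022_s1 {κ x : ℝ} (hκ : κ * h0 = ken x) (hx : ((402653184 : ℕ) : ℝ) / S ≤ x)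
    (hx' : x ≤ (((402653184 : ℕ) : ℝ) + (67108864 : ℕ)) / S)
    (H : CutB (VF κ) PP tKF tL pcF (Cut.of [[⟨0, 0, 0, 67108864⟩, ⟨1, 1, 0, 67108864⟩, ⟨2, 1, 0, 67108864⟩]]) 0 2 2 0 0 (sgb true) (sgb true) x) :
    AltB (VF κ) PP tKF tL pcF [⟨3, 0, 0, 1449551462⟩] 0 2 2 0 0 (sgb true) (sgb true) x :=
  strip_altB (m := 1449551462) true rfl hκ covF00 covF02 hx hx' c_B00pp_022_s1 H (noExt_B)

noncomputable def cut_B00pp_022_s3 : Cut := Cut.of [[⟨3, 0, 0, 2845415833⟩], [⟨0, 0, 0, 67108864⟩, ⟨1, 1, 0, 67108864⟩, ⟨2, 1, 0, 67108864⟩]]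

noncomputable def f_B00pp_022_s3 : ℕ → ℕ → ℕ → ℕ → Bool := onCell 0 536870912 0 536870912 402653184 67108864
    (rowF 0 false true true .pp 0 2 2 (qsf 0 536870912 0 536870912 2) ndF0q0 ndF0q2 pcF2 cut_B00pp_022_s3 Ext.none)

def k0_B00pp_022_s3 : ∃ t, chk3 f_B00pp_022_s3 t 1 1 1 = true :=
  ⟨(l 6), by decide +kernel⟩

theorem c_B00pp_022_s3 : CertF 0 536870912 0 536870912 402653184 67108864 false true true .pp 0 2 2
    ndF0q0 ndF0q2 pcF2 cut_B00pp_022_s3 Ext.none :=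
  certF0 (fam := false) (s1 := true) (s2 := true) (a := 0) (b := 2) (c := 2) (cn := .pp) (n1 := ndF0q0) (n2 := ndF0q2) (pc := pcF2) (cut := cut_B00pp_022_s3) (xt := Ext.none) (P1 := 0) (W1 := 536870912) (P2 := 0) (W2 := 536870912) (P3 := 402653184) (W3 := 67108864)
    rfl k0_B00pp_022_s3

theorem s_B00pp_022_s3 {κ x : ℝ} (hκ : κ * h0 = ken x) (hx : ((402653184 : ℕ) : ℝ) / S ≤ x)
    (hx' : x ≤ (((402653184 : ℕ) : ℝ) + (67108864 : ℕ)) / S)
    (H : CutB (VF κ) PP tKF tL pcF (Cut.of [[⟨0, 0, 0, 67108864⟩, ⟨1, 1, 0, 67108864⟩, ⟨2, 1, 0, 67108864⟩]]) 0 2 2 0 0 (sgb true) (sgb true) x) :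
    AltB (VF κ) PP tKF tL pcF [⟨4, 0, 0, 2845415833⟩] 0 2 2 0 0 (sgb true) (sgb true) x :=
  strip_altB (m := 2845415833) false rfl hκ covF00 covF02 hx hx' c_B00pp_022_s3 H (noExt_B)

noncomputable def cut_B00pp_101_s1 : Cut := Cut.of [[⟨4, 0, 0, 1449551462⟩]]

noncomputable def f_B00pp_101_s1 : ℕ → ℕ → ℕ → ℕ → Bool := onCell 536870912 536870912 536870912 536870912 402653184 67108864
    (rowF 0 false true true .npn 1 0 1 (qsf 536870912 536870912 536870912 536870912 0) ndF0q1 ndF0q1 pcF0 cut_B00pp_101_s1 Ext.none)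

def k0_B00pp_101_s1 : ∃ t, chk3 f_B00pp_101_s1 t 1 1 1 = true :=
  ⟨(l 3), by decide +kernel⟩

theorem c_B00pp_101_s1 : CertF 536870912 536870912 536870912 536870912 402653184 67108864 false true true .npn 1 0 1
    ndF0q1 ndF0q1 pcF0 cut_B00pp_101_s1 Ext.none :=
  certF0 (fam := false) (s1 := true) (s2 := true) (a := 1) (b := 0) (c := 1) (cn := .npn) (n1 := ndF0q1) (n2 := ndF0q1) (pc := pcF0) (cut := cut_B00pp_101_s1) (xt := Ext.none) (P1 := 536870912) (W1 := 536870912) (P2 := 536870912) (W2 := 536870912) (P3 := 402653184) (W3 := 67108864)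
    rfl k0_B00pp_101_s1

theorem s_B00pp_101_s1 {κ x : ℝ} (hκ : κ * h0 = ken x) (hx : ((402653184 : ℕ) : ℝ) / S ≤ x)
    (hx' : x ≤ (((402653184 : ℕ) : ℝ) + (67108864 : ℕ)) / S) :
    AltB (VF κ) PP tKF tL pcF [⟨3, 0, 0, 1449551462⟩] 1 0 1 0 0 (sgb true) (sgb true) x :=
  strip_altB (m := 1449551462) true rfl hκ covF01 covF01 hx hx' c_B00pp_101_s1 cutB_nil (noExt_B)

noncomputable def cut_B00pp_101_s3 : Cut := Cut.of [[⟨3, 0, 0, 2845415833⟩]]

noncomputable def f_B00pp_101_s3 : ℕ → ℕ → ℕ → ℕ → Bool := onCell 536870912 536870912 536870912 536870912 402653184 67108864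
    (rowF 0 false true true .npn 1 0 1 (qsf 536870912 536870912 536870912 536870912 0) ndF0q1 ndF0q1 pcF0 cut_B00pp_101_s3 Ext.none)

def k0_B00pp_101_s3 : ∃ t, chk3 f_B00pp_101_s3 t 1 1 1 = true :=
  ⟨(l 3), by decide +kernel⟩

theorem c_B00pp_101_s3 : CertF 536870912 536870912 536870912 536870912 402653184 67108864 false true true .npn 1 0 1
    ndF0q1 ndF0q1 pcF0 cut_B00pp_101_s3 Ext.none :=
  certF0 (fam := false) (s1 := true) (s2 := true) (a := 1) (b := 0) (c := 1) (cn := .npn) (n1 := ndF0q1) (n2 := ndF0q1) (pc := pcF0) (cut := cut_B00pp_101_s3) (xt := Ext.none) (P1 := 536870912) (W1 := 536870912) (P2 := 536870912) (W2 := 536870912) (P3 := 402653184) (W3 := 67108864)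
    rfl k0_B00pp_101_s3

theorem s_B00pp_101_s3 {κ x : ℝ} (hκ : κ * h0 = ken x) (hx : ((402653184 : ℕ) : ℝ) / S ≤ x)
    (hx' : x ≤ (((402653184 : ℕ) : ℝ) + (67108864 : ℕ)) / S) :
    AltB (VF κ) PP tKF tL pcF [⟨4, 0, 0, 2845415833⟩] 1 0 1 0 0 (sgb true) (sgb true) x :=
  strip_altB (m := 2845415833) false rfl hκ covF01 covF01 hx hx' c_B00pp_101_s3 cutB_nil (noExt_B)

noncomputable def cut_B00pp_102_s1 : Cut := Cut.of [[⟨4, 0, 0, 1449551462⟩]]

noncomputable def f_B00pp_102_s1 : ℕ → ℕ → ℕ → ℕ → Bool := onCell 0 536870912 0 536870912 402653184 67108864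
    (rowF 2 false true true .npp 1 0 2 (qsf 536870912 536870912 0 536870912 0) ndF0q1 ndF0q2 pcF0 cut_B00pp_102_s1 Ext.none)

def k0_B00pp_102_s1 : ∃ t, chk3 f_B00pp_102_s1 t 1 1 1 = true :=
  ⟨(a (b (l 3) (l 3)) (l 3)), by decide +kernel⟩

theorem c_B00pp_102_s1 : CertF 536870912 536870912 0 536870912 402653184 67108864 false true true .npp 1 0 2
    ndF0q1 ndF0q2 pcF0 cut_B00pp_102_s1 Ext.none :=
  certF2 (fam := false) (s1 := true) (s2 := true) (a := 1) (b := 0) (c := 2) (cn := .npp) (n1 := ndF0q1) (n2 := ndF0q2) (pc := pcF0) (cut := cut_B00pp_102_s1) (xt := Ext.none) (P1 := 536870912) (W1 := 536870912) (P2 := 0) (W2 := 536870912) (P3 := 402653184) (W3 := 67108864)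
    rfl (fun _ => rfl) k0_B00pp_102_s1

theorem s_B00pp_102_s1 {κ x : ℝ} (hκ : κ * h0 = ken x) (hx : ((402653184 : ℕ) : ℝ) / S ≤ x)
    (hx' : x ≤ (((402653184 : ℕ) : ℝ) + (67108864 : ℕ)) / S) :
    AltB (VF κ) PP tKF tL pcF [⟨3, 0, 0, 1449551462⟩] 1 0 2 0 0 (sgb true) (sgb true) x :=
  strip_altB (m := 1449551462) true rfl hκ covF01 covF02 hx hx' c_B00pp_102_s1 cutB_nil (noExt_B)

noncomputable def cut_B00pp_102_s3 : Cut := Cut.of [[⟨3, 0, 0, 2845415833⟩]]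

noncomputable def f_B00pp_102_s3 : ℕ → ℕ → ℕ → ℕ → Bool := onCell 536870912 536870912 0 536870912 402653184 67108864
    (rowF 0 false true true .npp 1 0 2 (qsf 536870912 536870912 0 536870912 0) ndF0q1 ndF0q2 pcF0 cut_B00pp_102_s3 Ext.none)

def k0_B00pp_102_s3 : ∃ t, chk3 f_B00pp_102_s3 t 1 1 1 = true :=
  ⟨(l 6), by decide +kernel⟩

theorem c_B00pp_102_s3 : CertF 536870912 536870912 0 536870912 402653184 67108864 false true true .npp 1 0 2
    ndF0q1 ndF0q2 pcF0 cut_B00pp_102_s3 Ext.none :=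
  certF0 (fam := false) (s1 := true) (s2 := true) (a := 1) (b := 0) (c := 2) (cn := .npp) (n1 := ndF0q1) (n2 := ndF0q2) (pc := pcF0) (cut := cut_B00pp_102_s3) (xt := Ext.none) (P1 := 536870912) (W1 := 536870912) (P2 := 0) (W2 := 536870912) (P3 := 402653184) (W3 := 67108864)
    rfl k0_B00pp_102_s3

theorem s_B00pp_102_s3 {κ x : ℝ} (hκ : κ * h0 = ken x) (hx : ((402653184 : ℕ) : ℝ) / S ≤ x)
    (hx' : x ≤ (((402653184 : ℕ) : ℝ) + (67108864 : ℕ)) / S) :
    AltB (VF κ) PP tKF tL pcF [⟨4, 0, 0, 2845415833⟩] 1 0 2 0 0 (sgb true) (sgb true) x :=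
  strip_altB (m := 2845415833) false rfl hκ covF01 covF02 hx hx' c_B00pp_102_s3 cutB_nil (noExt_B)

noncomputable def cut_B00pp_112_s1 : Cut := Cut.of [[⟨4, 0, 0, 1449551462⟩]]

noncomputable def xt_B00pp_112_s1 : Ext := strExt dd false true true .u0 .u2 .u0m .dn 1 1 2 rfl rfl gf1 vv ndF0q1 ndF0q2

noncomputable def f_B00pp_112_s1 : ℕ → ℕ → ℕ → ℕ → Bool := onCell 536870912 536870912 0 536870912 402653184 67108864
    (rowF 0 false true true .dn 1 1 2 (qsf 536870912 536870912 0 536870912 1) ndF0q1 ndF0q2 pcF1 cut_B00pp_112_s1 xt_B00pp_112_s1)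

def k0_B00pp_112_s1 : ∃ t, chk3 f_B00pp_112_s1 t 1 1 1 = true :=
  ⟨(a (a (b (b (a (b (a (b (a (l 16781216) (l 537191183)) (l 537088015)) (b (l 537285135) (l 537220623))) (a (b (l 537013007) (l 3)) (l 3))) (b (a (l 537369615) (l 3)) (l 3))) (l 3)) (l 3)) (l 3)) (l 1)), by decide +kernel⟩

theorem c_B00pp_112_s1 : CertF 536870912 536870912 0 536870912 402653184 67108864 false true true .dn 1 1 2
    ndF0q1 ndF0q2 pcF1 cut_B00pp_112_s1 xt_B00pp_112_s1 :=
  certF0 (fam := false) (s1 := true) (s2 := true) (a := 1) (b := 1) (c := 2) (cn := .dn) (n1 := ndF0q1) (n2 := ndF0q2) (pc := pcF1) (cut := cut_B00pp_112_s1) (xt := xt_B00pp_112_s1) (P1 := 536870912) (W1 := 536870912) (P2 := 0) (W2 := 536870912) (P3 := 402653184) (W3 := 67108864)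
    rfl k0_B00pp_112_s1

theorem s_B00pp_112_s1 {κ x : ℝ} (hκ : κ * h0 = ken x) (hx : ((402653184 : ℕ) : ℝ) / S ≤ x)
    (hx' : x ≤ (((402653184 : ℕ) : ℝ) + (67108864 : ℕ)) / S) :
    AltB (VF κ) PP tKF tL pcF [⟨3, 0, 0, 1449551462⟩] 1 1 2 0 0 (sgb true) (sgb true) x :=
  strip_altB (m := 1449551462) true rfl hκ covF01 covF02 hx hx' c_B00pp_112_s1 cutB_nil ((okx hx hx').extB (T := tt) (sideF hx hx') hκ rfl rfl (.O 1 true) (.O 2 true) (Or.inr rfl))

noncomputable def cut_B00pp_112_s3 : Cut := Cut.of [[⟨3, 0, 0, 2845415833⟩]]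

noncomputable def f_B00pp_112_s3 : ℕ → ℕ → ℕ → ℕ → Bool := onCell 536870912 536870912 0 536870912 402653184 67108864
    (rowF 0 false true true .dn 1 1 2 (qsf 536870912 536870912 0 536870912 1) ndF0q1 ndF0q2 pcF1 cut_B00pp_112_s3 Ext.none)

def k0_B00pp_112_s3 : ∃ t, chk3 f_B00pp_112_s3 t 1 1 1 = true :=
  ⟨(l 6), by decide +kernel⟩

theorem c_B00pp_112_s3 : CertF 536870912 536870912 0 536870912 402653184 67108864 false true true .dn 1 1 2
    ndF0q1 ndF0q2 pcF1 cut_B00pp_112_s3 Ext.none :=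
  certF0 (fam := false) (s1 := true) (s2 := true) (a := 1) (b := 1) (c := 2) (cn := .dn) (n1 := ndF0q1) (n2 := ndF0q2) (pc := pcF1) (cut := cut_B00pp_112_s3) (xt := Ext.none) (P1 := 536870912) (W1 := 536870912) (P2 := 0) (W2 := 536870912) (P3 := 402653184) (W3 := 67108864)
    rfl k0_B00pp_112_s3

theorem s_B00pp_112_s3 {κ x : ℝ} (hκ : κ * h0 = ken x) (hx : ((402653184 : ℕ) : ℝ) / S ≤ x)
    (hx' : x ≤ (((402653184 : ℕ) : ℝ) + (67108864 : ℕ)) / S) :
    AltB (VF κ) PP tKF tL pcF [⟨4, 0, 0, 2845415833⟩] 1 1 2 0 0 (sgb true) (sgb true) x :=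
  strip_altB (m := 2845415833) false rfl hκ covF01 covF02 hx hx' c_B00pp_112_s3 cutB_nil (noExt_B)

noncomputable def cut_B00pp_202_s1 : Cut := Cut.of [[⟨4, 0, 0, 1449551462⟩]]

noncomputable def f_B00pp_202_s1 : ℕ → ℕ → ℕ → ℕ → Bool := onCell 0 536870912 0 536870912 402653184 67108864
    (rowF 0 false true true .pp 2 0 2 (qsf 0 536870912 0 536870912 0) ndF0q2 ndF0q2 pcF0 cut_B00pp_202_s1 Ext.none)

def k0_B00pp_202_s1 : ∃ t, chk3 f_B00pp_202_s1 t 1 1 1 = true :=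
  ⟨(l 3), by decide +kernel⟩

theorem c_B00pp_202_s1 : CertF 0 536870912 0 536870912 402653184 67108864 false true true .pp 2 0 2
    ndF0q2 ndF0q2 pcF0 cut_B00pp_202_s1 Ext.none :=
  certF0 (fam := false) (s1 := true) (s2 := true) (a := 2) (b := 0) (c := 2) (cn := .pp) (n1 := ndF0q2) (n2 := ndF0q2) (pc := pcF0) (cut := cut_B00pp_202_s1) (xt := Ext.none) (P1 := 0) (W1 := 536870912) (P2 := 0) (W2 := 536870912) (P3 := 402653184) (W3 := 67108864)
    rfl k0_B00pp_202_s1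

theorem s_B00pp_202_s1 {κ x : ℝ} (hκ : κ * h0 = ken x) (hx : ((402653184 : ℕ) : ℝ) / S ≤ x)
    (hx' : x ≤ (((402653184 : ℕ) : ℝ) + (67108864 : ℕ)) / S) :
    AltB (VF κ) PP tKF tL pcF [⟨3, 0, 0, 1449551462⟩] 2 0 2 0 0 (sgb true) (sgb true) x :=
  strip_altB (m := 1449551462) true rfl hκ covF02 covF02 hx hx' c_B00pp_202_s1 cutB_nil (noExt_B)

noncomputable def cut_B00pp_202_s3 : Cut := Cut.of [[⟨3, 0, 0, 2845415833⟩]]

noncomputable def f_B00pp_202_s3 : ℕ → ℕ → ℕ → ℕ → Bool := onCell 0 536870912 0 536870912 402653184 67108864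
    (rowF 0 false true true .pp 2 0 2 (qsf 0 536870912 0 536870912 0) ndF0q2 ndF0q2 pcF0 cut_B00pp_202_s3 Ext.none)

def k0_B00pp_202_s3 : ∃ t, chk3 f_B00pp_202_s3 t 1 1 1 = true :=
  ⟨(l 3), by decide +kernel⟩

theorem c_B00pp_202_s3 : CertF 0 536870912 0 536870912 402653184 67108864 false true true .pp 2 0 2
    ndF0q2 ndF0q2 pcF0 cut_B00pp_202_s3 Ext.none :=
  certF0 (fam := false) (s1 := true) (s2 := true) (a := 2) (b := 0) (c := 2) (cn := .pp) (n1 := ndF0q2) (n2 := ndF0q2) (pc := pcF0) (cut := cut_B00pp_202_s3) (xt := Ext.none) (P1 := 0) (W1 := 536870912) (P2 := 0) (W2 := 536870912) (P3 := 402653184) (W3 := 67108864)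
    rfl k0_B00pp_202_s3

theorem s_B00pp_202_s3 {κ x : ℝ} (hκ : κ * h0 = ken x) (hx : ((402653184 : ℕ) : ℝ) / S ≤ x)
    (hx' : x ≤ (((402653184 : ℕ) : ℝ) + (67108864 : ℕ)) / S) :
    AltB (VF κ) PP tKF tL pcF [⟨4, 0, 0, 2845415833⟩] 2 0 2 0 0 (sgb true) (sgb true) x :=
  strip_altB (m := 2845415833) false rfl hκ covF02 covF02 hx hx' c_B00pp_202_s3 cutB_nil (noExt_B)

noncomputable def cut_B00pm_001_s1 : Cut := Cut.of [[⟨4, 0, 0, 1449551462⟩]]

noncomputable def f_B00pm_001_s1 : ℕ → ℕ → ℕ → ℕ → Bool := onCell 0 536870912 536870912 536870912 402653184 67108864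
    (rowF 0 false true false .up 0 0 1 (qsf 0 536870912 536870912 536870912 0) ndF0q0 ndF0q1 pcF0 cut_B00pm_001_s1 Ext.none)

def k0_B00pm_001_s1 : ∃ t, chk3 f_B00pm_001_s1 t 1 1 1 = true :=
  ⟨(l 6), by decide +kernel⟩

theorem c_B00pm_001_s1 : CertF 0 536870912 536870912 536870912 402653184 67108864 false true false .up 0 0 1
    ndF0q0 ndF0q1 pcF0 cut_B00pm_001_s1 Ext.none :=
  certF0 (fam := false) (s1 := true) (s2 := false) (a := 0) (b := 0) (c := 1) (cn := .up) (n1 := ndF0q0) (n2 := ndF0q1) (pc := pcF0) (cut := cut_B00pm_001_s1) (xt := Ext.none) (P1 := 0) (W1 := 536870912) (P2 := 536870912) (W2 := 536870912) (P3 := 402653184) (W3 := 67108864)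
    rfl k0_B00pm_001_s1

theorem s_B00pm_001_s1 {κ x : ℝ} (hκ : κ * h0 = ken x) (hx : ((402653184 : ℕ) : ℝ) / S ≤ x)
    (hx' : x ≤ (((402653184 : ℕ) : ℝ) + (67108864 : ℕ)) / S) :
    AltB (VF κ) PP tKF tL pcF [⟨3, 0, 0, 1449551462⟩] 0 0 1 0 0 (sgb true) (sgb false) x :=
  strip_altB (m := 1449551462) true rfl hκ covF00 covF01 hx hx' c_B00pm_001_s1 cutB_nil (noExt_B)

noncomputable def cut_B00pm_001_s3 : Cut := Cut.of [[⟨3, 0, 0, 2845415833⟩]]

noncomputable def xt_B00pm_001_s3 : Ext := strExt dd false true false .u0 .u0m .s0m .up 0 0 1 rfl rfl gl0 vv ndF0q0 ndF0q1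

noncomputable def f_B00pm_001_s3 : ℕ → ℕ → ℕ → ℕ → Bool := onCell 0 536870912 536870912 536870912 402653184 67108864
    (rowF 0 false true false .up 0 0 1 (qsf 0 536870912 536870912 536870912 0) ndF0q0 ndF0q1 pcF0 cut_B00pm_001_s3 xt_B00pm_001_s3)

def k0_B00pm_001_s3 : ∃ t, chk3 f_B00pm_001_s3 t 2 1 1 = true :=
  ⟨(b (l 4) (b (b (l 4) (l 2)) (l 2))), by decide +kernel⟩

def k1_B00pm_001_s3 : ∃ t, chk3 f_B00pm_001_s3 t 6 1 1 = true :=
  ⟨(b (b (l 4) (l 4)) (b (b (b (a (l 4) (a (l 4) (a (l 538108943) (l 537979407)))) (a (a (l 4) (a (l 4) (b (l 4) (l 537676559)))) (a (a (b (l 537736463) (l 537756431)) (b (a (l 537823759) (b (c (l 538457615) (l 537330703)) (l 537868559))) (l 537837327))) (b (a (c (l 538522383) (b (l 537453583) (l 537420815))) (b (l 538124047) (l 538083087))) (a (a (l 537896463) (l 537952015)) (c (l 538548495) (l 537522959))))))) (a (a (l 2) (b (a (l 2) (b (b (a (l 2) (l 537812495)) (l 2))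 (l 2))) (l 2))) (a (b (b (a (b (l 537822991) (l 537902095)) (l 537888783)) (a (b (a (l 2) (l 538000655)) (l 2)) (b (l 537983503) (l 538083855)))) (a (l 2) (b (b (a (l 2) (l 23186150263)) (l 2)) (l 2)))) (b (a (b (c (l 538462991) (l 537402895)) (l 537744655)) (b (c (l 538510095) (l 537496847)) (l 538031631))) (a (b (a (l 538212111) (l 538172943)) (a (l 2) (c (l 33923677239) (l 34460478135)))) (b (l 537604367) (b (l 538287375) (l 17280611815)))))))) (b (a (l 2) (b (a (l 2) (a (l 2) (b (a (l 2) (l 44661066935)) (l 2)))) (l 2))) (l 2)))), by decide +kernel⟩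

def k2_B00pm_001_s3 : ∃ t, chk3 f_B00pm_001_s3 t 7 2 1 = true :=
  ⟨(b (l 4) (b (a (l 4) (a (a (l 4) (b (l 4) (b (l 4) (a (l 539395087) (b (b (l 4) (l 539428367)) (l 539398159)))))) (a (a (b (l 4) (b (l 4) (b (a (c (l 539830031) (l 539121935)) (l 539488015)) (c (l 539777295) (a (l 539064335) (l 539083791)))))) (b (l 4) (b (l 539608335) (b (l 539511055) (l 539454479))))) (b (b (l 4) (b (l 4) (l 539746063))) (b (l 539651343) (b (l 539554831) (l 539494415))))))) (a (b (a (l 4) (a (l 4) (l 539127311))) (a (b (a (l 4) (a (l 4) (l 538803215))) (l 538606351)) (b (a (c (l 539327503) (l 538438927)) (l 538970895)) (c (a (l 539218191) (l 539288079)) (a (a (l 538285583) (l 538352911)) (l 538440719)))))) (a (a (b (l 539202575) (b (l 539052047) (l 538948879))) (b (l 539269391) (b (l 539123983) (l 539024911)))) (a (a (b (b (a (l 539350031) (l 539364367)) (l 539264527)) (b (l 539171343) (l 539075087))) (b (b (b (l 539405071)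 (l 539359759)) (l 539291663)) (b (l 539200015) (l 539105295)))) (b (b (b (l 539442959) (l 539396111)) (a (l 539316751) (l 539340047))) (b (l 539239183) (c (l 16847760) (l 538809103))))))))), by decide +kernel⟩

def k3_B00pm_001_s3 : ∃ t, chk3 f_B00pm_001_s3 t 7 12 1 = true :=
  ⟨(a (b (a (c (a (l 538867727) (l 538960143)) (a (l 537885455) (l 538022927))) (a (b (c (l 539094031) (l 538199567)) (l 538267407)) (b (c (l 539174671) (l 538324751)) (c (l 539063311) (l 538212367))))) (a (b (a (l 538222095) (l 538330895)) (a (l 538139663) (l 538239759))) (a (b (c (l 538881295) (l 537987599)) (c (l 538781455) (l 537892111))) (b (c (l 538957071) (l 538106639)) (c (l 538853135) (l 538006799)))))) (a (a (b (b (l 538838543) (c (l 539134223) (l 538327567))) (b (c (l 539027727) (l 538221071)) (c (l 538921999) (l 538118415)))) (b (b (l 538919439) (l 538275855)) (c (b (l 539091471) (l 16851560)) (b (l 538328079) (l 538224399)))))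 (b (a (a (b (l 538972943) (l 538868751)) (b (l 539005199) (l 538902799))) (b (c (l 16858784) (l 538710287)) (c (l 16868960) (l 538609679)))) (c (a (b (l 539147279) (l 16874264)) (b (l 16878296) (l 16886664))) (a (a (b (l 538402063) (l 16828896)) (b (l 16840392) (l 16844784))) (b (a (l 16845776) (l 16851216)) (a (l 16850224) (l 16855712)))))))), by decide +kernel⟩

def k4_B00pm_001_s3 : ∃ t, chk3 f_B00pm_001_s3 t 7 13 1 = true :=
  ⟨(a (b (b (a (a (l 537547791) (l 538168591)) (a (c (l 538693903) (l 537813007)) (c (l 538758159) (l 537918735)))) (a (a (l 537805327) (l 537862159)) (a (a (l 538175759) (l 538209039)) (c (l 16854824) (l 537851151))))) (b (a (a (l 538127631) (b (l 538130447) (l 16746552))) (a (c (l 16854160) (l 537747471)) (c (l 16863392) (l 537813775)))) (a (a (l 537728783) (l 538218511)) (a (c (l 16866008) (l 16760720)) (c (l 16873712) (l 537818895)))))) (b (a (c (b (a (l 16858064) (l 16869768))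 (a (l 16865632) (l 16877040))) (b (a (l 538024463) (l 538126607)) (a (l 537945871) (l 538040591)))) (a (b (c (l 16881856) (a (l 16842904) (l 16848336))) (c (l 16888888) (a (l 16845968) (l 16851376)))) (a (c (l 538924815) (b (l 16853808) (l 16856816))) (b (l 538120463) (l 6))))) (a (a (b (c (l 16873512) (l 537890575)) (c (l 16882600) (l 537868303))) (b (c (l 16884360) (l 537972495)) (l 6))) (a (b (c (l 16895744) (b (l 16850840) (l 6))) (l 6)) (l 6))))), by decide +kernel⟩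

def k5_B00pm_001_s3 : ∃ t, chk3 f_B00pm_001_s3 t 7 7 1 = true :=
  ⟨(b (a (b (a (a (b (a (l 17817520071) (l 16814408)) (a (l 2) (l 55398545335))) (b (l 537847567) (c (l 16906808) (l 16860248)))) (b (a (c (l 16882208) (l 16836176)) (c (l 16887384) (l 16839552))) (l 6))) (a (a (l 2) (l 6)) (l 6))) (l 6)) (l 6)), by decide +kernel⟩

theorem t6_B00pm_001_s3 : ∃ t, chk3 f_B00pm_001_s3 t 7 6 1 = true := ex3_b k3_B00pm_001_s3 k4_B00pm_001_s3

theorem t7_B00pm_001_s3 : ∃ t, chk3 f_B00pm_001_s3 t 7 3 1 = true := ex3_b t6_B00pm_001_s3 k5_B00pm_001_s3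

theorem t8_B00pm_001_s3 : ∃ t, chk3 f_B00pm_001_s3 t 7 1 1 = true := ex3_b k2_B00pm_001_s3 t7_B00pm_001_s3

theorem t9_B00pm_001_s3 : ∃ t, chk3 f_B00pm_001_s3 t 3 1 1 = true := ex3_a k1_B00pm_001_s3 t8_B00pm_001_s3

theorem t10_B00pm_001_s3 : ∃ t, chk3 f_B00pm_001_s3 t 1 1 1 = true := ex3_a k0_B00pm_001_s3 t9_B00pm_001_s3

theorem c_B00pm_001_s3 : CertF 0 536870912 536870912 536870912 402653184 67108864 false true false .up 0 0 1
    ndF0q0 ndF0q1 pcF0 cut_B00pm_001_s3 xt_B00pm_001_s3 :=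
  certF0 (fam := false) (s1 := true) (s2 := false) (a := 0) (b := 0) (c := 1) (cn := .up) (n1 := ndF0q0) (n2 := ndF0q1) (pc := pcF0) (cut := cut_B00pm_001_s3) (xt := xt_B00pm_001_s3) (P1 := 0) (W1 := 536870912) (P2 := 536870912) (W2 := 536870912) (P3 := 402653184) (W3 := 67108864)
    rfl t10_B00pm_001_s3

theorem s_B00pm_001_s3 {κ x : ℝ} (hκ : κ * h0 = ken x) (hx : ((402653184 : ℕ) : ℝ) / S ≤ x)
    (hx' : x ≤ (((402653184 : ℕ) : ℝ) + (67108864 : ℕ)) / S) :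
    AltB (VF κ) PP tKF tL pcF [⟨4, 0, 0, 2845415833⟩] 0 0 1 0 0 (sgb true) (sgb false) x :=
  strip_altB (m := 2845415833) false rfl hκ covF00 covF01 hx hx' c_B00pm_001_s3 cutB_nil ((okx hx hx').extB (T := tt) (sideF hx hx') hκ rfl rfl (.O 0 true) (.O 1 false) (Or.inl rfl))

noncomputable def cut_B00pm_011_s1 : Cut := Cut.of [[⟨4, 0, 0, 1449551462⟩], [⟨0, 0, 0, 67108864⟩, ⟨1, 1, 0, 67108864⟩, ⟨2, 1, 0, 67108864⟩], [⟨0, 0, 1, 33554432⟩, ⟨1, 1, 2, 33554432⟩, ⟨2, 1, 0, 33554432⟩]]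

noncomputable def f_B00pm_011_s1 : ℕ → ℕ → ℕ → ℕ → Bool := onCell 0 536870912 536870912 536870912 402653184 67108864
    (rowF 0 false true false .pnn 0 1 1 (qsf 0 536870912 536870912 536870912 1) ndF0q0 ndF0q1 pcF1 cut_B00pm_011_s1 Ext.none)

def k0_B00pm_011_s1 : ∃ t, chk3 f_B00pm_011_s1 t 1 1 1 = true :=
  ⟨(l 6), by decide +kernel⟩

theorem c_B00pm_011_s1 : CertF 0 536870912 536870912 536870912 402653184 67108864 false true false .pnn 0 1 1
    ndF0q0 ndF0q1 pcF1 cut_B00pm_011_s1 Ext.none :=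
  certF0 (fam := false) (s1 := true) (s2 := false) (a := 0) (b := 1) (c := 1) (cn := .pnn) (n1 := ndF0q0) (n2 := ndF0q1) (pc := pcF1) (cut := cut_B00pm_011_s1) (xt := Ext.none) (P1 := 0) (W1 := 536870912) (P2 := 536870912) (W2 := 536870912) (P3 := 402653184) (W3 := 67108864)
    rfl k0_B00pm_011_s1

theorem s_B00pm_011_s1 {κ x : ℝ} (hκ : κ * h0 = ken x) (hx : ((402653184 : ℕ) : ℝ) / S ≤ x)
    (hx' : x ≤ (((402653184 : ℕ) : ℝ) + (67108864 : ℕ)) / S)
    (H : CutB (VF κ) PP tKF tL pcF (Cut.of [[⟨0, 0, 0, 67108864⟩, ⟨1, 1, 0, 67108864⟩, ⟨2, 1, 0, 67108864⟩], [⟨0, 0, 1, 33554432⟩, ⟨1, 1, 2, 33554432⟩, ⟨2, 1, 0, 33554432⟩]]) 0 1 1 0 0 (sgb true) (sgb false) x) :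
    AltB (VF κ) PP tKF tL pcF [⟨3, 0, 0, 1449551462⟩] 0 1 1 0 0 (sgb true) (sgb false) x :=
  strip_altB (m := 1449551462) true rfl hκ covF00 covF01 hx hx' c_B00pm_011_s1 H (noExt_B)

noncomputable def cut_B00pm_011_s3 : Cut := Cut.of [[⟨3, 0, 0, 2845415833⟩], [⟨0, 0, 0, 67108864⟩, ⟨1, 1, 0, 67108864⟩, ⟨2, 1, 0, 67108864⟩], [⟨0, 0, 1, 33554432⟩, ⟨1, 1, 2, 33554432⟩, ⟨2, 1, 0, 33554432⟩]]

noncomputable def xt_B00pm_011_s3 : Ext := strExt dd false true false .u0 .u0m .s0m .pnn 0 1 1 rfl rfl gl1 vv ndF0q0 ndF0q1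

noncomputable def f_B00pm_011_s3 : ℕ → ℕ → ℕ → ℕ → Bool := onCell 0 536870912 536870912 536870912 402653184 67108864
    (rowF 0 false true false .pnn 0 1 1 (qsf 0 536870912 536870912 536870912 1) ndF0q0 ndF0q1 pcF1 cut_B00pm_011_s3 xt_B00pm_011_s3)

def k0_B00pm_011_s3 : ∃ t, chk3 f_B00pm_011_s3 t 2 2 1 = true :=
  ⟨(l 4), by decide +kernel⟩

def k1_B00pm_011_s3 : ∃ t, chk3 f_B00pm_011_s3 t 4 6 1 = true :=
  ⟨(l 4), by decide +kernel⟩

def k2_B00pm_011_s3 : ∃ t, chk3 f_B00pm_011_s3 t 4 14 1 = true :=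
  ⟨(b (l 4) (a (l 4) (a (l 4) (a (l 4) (b (l 4) (a (l 533072911) (l 532899343))))))), by decide +kernel⟩

def k3_B00pm_011_s3 : ∃ t, chk3 f_B00pm_011_s3 t 4 30 1 = true :=
  ⟨(a (b (l 4) (a (l 4) (a (l 4) (a (l 4) (b (l 4) (a (l 4) (l 532747023))))))) (a (a (b (l 4) (a (b (l 4) (l 534067215)) (b (l 532620047) (l 532970255)))) (b (b (l 4) (l 534002447)) (a (b (l 532578831) (l 532678159)) (b (l 532503567) (l 532636175))))) (a (b (b (l 533955855) (l 533928975)) (b (l 533630479) (l 533864719))) (b (b (l 533889551) (l 533867535)) (b (l 533842959) (l 533815567)))))), by decide +kernel⟩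

def k4_B00pm_011_s3 : ∃ t, chk3 f_B00pm_011_s3 t 8 31 1 = true :=
  ⟨(b (b (a (l 4) (a (a (l 4) (a (l 4) (l 533960719))) (a (a (l 533678095) (l 533395727)) (a (l 533382159) (l 533100559))))) (a (l 14) (a (a (a (l 14) (a (l 14) (l 533819663))) (a (b (l 533777167) (l 534095119)) (b (l 532955407) (l 533271823)))) (a (a (b (l 532939791) (l 532986639)) (l 534022671)) (a (l 533739279) (l 533456399)))))) (a (l 14) (b (a (b (a (l 14) (a (l 14) (l 533858319))) (l 14)) (a (b (a (l 533034767) (l 533017615)) (b (a (b (l 16751608) (l 14)) (b (l 16747696) (l 16745752))) (a (l 14) (l 16742344)))) (a (b (l 533001487) (b (l 16753000) (l 16737984))) (b (b (l 16745912) (l 16742344)) (c (l 16746312) (l 16746392)))))) (a (l 14) (a (a (l 14) (a (l 14) (b (l 16734272) (l 14)))) (b (c (l 16728768) (l 16726312)) (l 16730928))))))), by decide +kernel⟩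

def k5_B00pm_011_s3 : ∃ t, chk3 f_B00pm_011_s3 t 9 31 1 = true :=
  ⟨(b (a (a (a (b (a (l 532819215) (l 532806415)) (b (l 533946383) (l 533990159))) (b (a (l 532793871) (l 532781071)) (c (l 532577551) (l 533687311)))) (b (a (l 532760335) (l 532735759)) (b (a (l 532822287) (l 16737992)) (a (b (l 16730560) (l 16726880)) (a (l 16722280) (l 16717904)))))) (b (a (a (l 532961039) (l 532614927)) (b (l 16733928) (l 16725912))) (a (a (b (l 16729424) (l 16732152)) (b (l 16720248) (l 16722920))) (b (l 16717864) (l 16710248))))) (a (b (a (a (b (b (c (l 16750224) (l 16750392)) (c (l 16746360) (l 16746520))) (b (l 16742096) (l 16737568))) (b (a (c (l 16741856) (l 16742152)) (l 16748200)) (l 16720568))) (b (a (l 16741544) (l 16711608)) (l 16717792))) (a (b (a (l 16725480) (l 16722024)) (a (l 16723280) (l 16715768))) (b (b (l 16721648) (l 16718336)) (l 16704744)))) (b (a (b (l 16719032) (l 16710968)) (b (l 16702960) (l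 16696016))) (a (b (l 16704784) (l 16700856)) (b (l 16690032) (l 16665992)))))), by decide +kernel⟩

def k6_B00pm_011_s3 : ∃ t, chk3 f_B00pm_011_s3 t 5 6 1 = true :=
  ⟨(b (l 4) (b (l 4) (a (l 4) (a (a (l 4) (b (l 4) (a (l 4) (l 533628431)))) (a (b (l 4) (l 533647375)) (b (l 533590287) (l 533653519))))))), by decide +kernel⟩

def k7_B00pm_011_s3 : ∃ t, chk3 f_B00pm_011_s3 t 5 14 1 = true :=
  ⟨(a (a (b (l 4) (a (b (l 4) (a (l 532992527) (l 533084431))) (a (b (l 533735439) (l 533976847)) (b (l 533273615) (l 533789199))))) (b (b (l 4) (a (l 534193679) (l 534039311))) (a (a (b (l 533344271) (l 533865743)) (b (l 533411087) (l 533668879))) (b (l 534307343) (a (l 533468431) (l 533532431)))))) (a (b (a (b (l 533584143) (l 533867279)) (b (a (l 533635087) (l 533662479)) (l 534213903))) (b (a (l 534147599) (l 534238479)) (a (a (l 533592335) (l 533648143)) (a (l 533699855) (l 533746959))))) (b (a (b (a (l 533683983)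 (l 533700111)) (l 534272015)) (b (l 533982479) (l 534039823))) (b (a (l 534310415) (l 534093327)) (a (c (l 533961743) (l 533664015)) (c (l 534026255) (l 533730319))))))), by decide +kernel⟩

def k8_B00pm_011_s3 : ∃ t, chk3 f_B00pm_011_s3 t 5 15 1 = true :=
  ⟨(b (a (a (a (b (c (l 533916687) (l 533705231)) (b (l 533775119) (l 533752335))) (a (b (l 533145103) (l 533108495)) (b (l 533231631) (l 533200143)))) (b (a (a (l 533313295) (l 533390095)) (a (l 533462799) (l 533532943))) (b (a (l 533601295) (l 533757199)) (a (a (l 16712128) (l 16727664)) (a (l 16722304) (l 16717080)))))) (a (b (a (a (l 533598479) (l 533659919)) (a (l 533717519) (l 533770767))) (a (a (b (l 16683808) (l 16712112)) (b (l 16721192) (l 16665696))) (b (b (l 16716952) (a (l 16671368) (l 16666696))) (l 16691504)))) (b (a (c (l 533994255) (l 533699343)) (b (l 533909263) (a (l 16708744) (b (l 16663888) (l 16659320))))) (b (a (b (a (l 16668120)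 (l 16663376)) (l 16660944)) (a (l 16699024) (l 16654008))) (a (l 16684688) (l 16668472)))))) (a (b (a (b (a (b (l 16721136) (l 16713136)) (b (l 16709184) (l 16700624))) (a (l 16700864) (l 16698120))) (b (a (a (l 16695584) (l 16710208)) (c (l 16705408) (l 16699232))) (a (l 16674240) (c (l 16685256) (l 16680456))))) (a (b (a (l 16685312) (l 16671280)) (a (l 16685144) (l 16661472))) (b (b (a (l 16640248) (l 16668120)) (a (l 16674064) (l 16659840))) (b (l 16663752) (l 16663136))))) (b (a (a (b (l 16694224) (l 16675744)) (b (l 16688072) (l 16630000))) (a (b (l 16683304) (l 16669448)) (b (l 16679592) (l 16667952)))) (b (b (a (c (l 16662208) (l 16656024)) (a (l 16615656) (l 16616240))) (a (a (l 16629488) (l 16608072)) (a (l 16609216) (l 16611328)))) (a (a (l 16646936) (l 16603464)) (a (l 16605528) (l 16629128))))))), by decide +kernel⟩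

def k9_B00pm_011_s3 : ∃ t, chk3 f_B00pm_011_s3 t 3 2 1 = true :=
  ⟨(a (b (l 1) (l 4)) (l 1)), by decide +kernel⟩

def k10_B00pm_011_s3 : ∃ t, chk3 f_B00pm_011_s3 t 3 6 1 = true :=
  ⟨(a (b (a (b (l 4) (a (l 4) (a (l 4) (l 535846415)))) (a (b (l 1) (b (l 1) (l 536205583))) (l 1))) (a (b (a (b (l 4) (l 533703951)) (b (a (l 534845967) (l 535318287)) (a (l 534409743) (l 534933263)))) (a (a (l 534136079) (l 533814287)) (a (b (l 533934607) (l 533518095)) (b (l 534517263) (l 534066447))))) (b (a (b (l 535899151) (l 535573007)) (b (l 1) (a (l 536080399) (l 1)))) (a (b (a (l 535008527) (l 535424783)) (a (l 534613007) (l 535073295))) (a (b (l 535781391) (l 535465231)) (b (l 536095503) (l 535807503))))))) (b (l 1) (a (b (l 1) (a (a (b (l 1) (l 536107023)) (l 1)) (l 1))) (l 1)))), by decide +kernel⟩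

def k11_B00pm_011_s3 : ∃ t, chk3 f_B00pm_011_s3 t 6 7 1 = true :=
  ⟨(b (b (a (a (b (a (l 533711887) (l 533684751)) (a (l 533785103) (l 533775119))) (a (b (l 533630735) (l 533739279)) (b (l 533575183) (l 533675023)))) (a (a (b (l 534186255) (l 533723663)) (b (l 534697743) (l 534563087))) (b (a (l 535130127) (l 535504655)) (a (l 535310863) (l 535454479))))) (a (a (b (a (l 534122767) (l 533861135)) (a (l 534456591) (l 534211087))) (b (a (l 533842959) (l 533797903)) (a (l 534210319) (l 534183951)))) (a (b (a (l 533991695) (l 533860879)) (a (b (l 16626760) (b (l 16621272) (l 16639992))) (b (l 16608424) (c (b (l 16622960) (l 16612928)) (b (l 16598736) (l 16597384)))))) (a (a (b (l 16684168) (b (l 16610656) (b (l 16594520) (l 6)))) (b (l 16691688) (b (l 16620576) (l 6)))) (b (b (l 16669336) (l 16652368)) (l 6)))))) (a (b (a (a (b (b (l 16705288) (b (l 16698952) (l 16683968))) (b (c (l 16655712) (l 16642688)) (c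 (l 16649368) (l 16635984)))) (b (b (b (l 16654536) (l 16692736)) (b (l 16678144) (l 16645624))) (b (l 16664032) (c (l 16645784) (l 16631224))))) (b (a (a (b (l 16686624) (l 16640600)) (b (l 16670088) (l 16636872))) (b (b (l 16672336) (l 16630192)) (l 16663056))) (a (b (c (l 16644808) (l 16629936)) (c (l 16642664) (l 16627040))) (b (c (l 16639904) (l 16624208)) (l 6))))) (b (a (a (b (l 16655640) (l 16667152)) (b (c (l 16639880) (l 16624936)) (l 6))) (l 6)) (a (b (b (a (l 16617424) (l 6)) (l 6)) (l 6)) (l 6)))) (b (a (b (a (b (a (l 16621704) (l 16618048)) (c (l 16632680) (l 16617280))) (b (c (l 16618512) (l 16604200)) (l 6))) (l 6)) (l 6)) (l 6)))), by decide +kernel⟩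

def k12_B00pm_011_s3 : ∃ t, chk3 f_B00pm_011_s3 t 7 7 1 = true :=
  ⟨(b (a (b (a (b (a (l 535830799) (l 16737184)) (a (l 535542031) (l 16716368))) (b (l 1) (l 6))) (b (a (a (b (l 16683584) (l 6)) (l 6)) (l 6)) (l 6))) (l 6)) (l 6)), by decide +kernel⟩

theorem t13_B00pm_011_s3 : ∃ t, chk3 f_B00pm_011_s3 t 3 7 1 = true := ex3_a k11_B00pm_011_s3 k12_B00pm_011_s3

theorem t14_B00pm_011_s3 : ∃ t, chk3 f_B00pm_011_s3 t 3 3 1 = true := ex3_b k10_B00pm_011_s3 t13_B00pm_011_s3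

theorem t15_B00pm_011_s3 : ∃ t, chk3 f_B00pm_011_s3 t 3 1 1 = true := ex3_b k9_B00pm_011_s3 t14_B00pm_011_s3

theorem t16_B00pm_011_s3 : ∃ t, chk3 f_B00pm_011_s3 t 5 7 1 = true := ex3_b k7_B00pm_011_s3 k8_B00pm_011_s3

theorem t17_B00pm_011_s3 : ∃ t, chk3 f_B00pm_011_s3 t 5 3 1 = true := ex3_b k6_B00pm_011_s3 t16_B00pm_011_s3

theorem t18_B00pm_011_s3 : ∃ t, chk3 f_B00pm_011_s3 t 4 31 1 = true := ex3_a k4_B00pm_011_s3 k5_B00pm_011_s3

theorem t19_B00pm_011_s3 : ∃ t, chk3 f_B00pm_011_s3 t 4 15 1 = true := ex3_b k3_B00pm_011_s3 t18_B00pm_011_s3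

theorem t20_B00pm_011_s3 : ∃ t, chk3 f_B00pm_011_s3 t 4 7 1 = true := ex3_b k2_B00pm_011_s3 t19_B00pm_011_s3

theorem t21_B00pm_011_s3 : ∃ t, chk3 f_B00pm_011_s3 t 4 3 1 = true := ex3_b k1_B00pm_011_s3 t20_B00pm_011_s3

theorem t22_B00pm_011_s3 : ∃ t, chk3 f_B00pm_011_s3 t 2 3 1 = true := ex3_a t21_B00pm_011_s3 t17_B00pm_011_s3

theorem t23_B00pm_011_s3 : ∃ t, chk3 f_B00pm_011_s3 t 2 1 1 = true := ex3_b k0_B00pm_011_s3 t22_B00pm_011_s3

theorem t24_B00pm_011_s3 : ∃ t, chk3 f_B00pm_011_s3 t 1 1 1 = true := ex3_a t23_B00pm_011_s3 t15_B00pm_011_s3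

theorem c_B00pm_011_s3 : CertF 0 536870912 536870912 536870912 402653184 67108864 false true false .pnn 0 1 1
    ndF0q0 ndF0q1 pcF1 cut_B00pm_011_s3 xt_B00pm_011_s3 :=
  certF0 (fam := false) (s1 := true) (s2 := false) (a := 0) (b := 1) (c := 1) (cn := .pnn) (n1 := ndF0q0) (n2 := ndF0q1) (pc := pcF1) (cut := cut_B00pm_011_s3) (xt := xt_B00pm_011_s3) (P1 := 0) (W1 := 536870912) (P2 := 536870912) (W2 := 536870912) (P3 := 402653184) (W3 := 67108864)
    rfl t24_B00pm_011_s3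

theorem s_B00pm_011_s3 {κ x : ℝ} (hκ : κ * h0 = ken x) (hx : ((402653184 : ℕ) : ℝ) / S ≤ x)
    (hx' : x ≤ (((402653184 : ℕ) : ℝ) + (67108864 : ℕ)) / S)
    (H : CutB (VF κ) PP tKF tL pcF (Cut.of [[⟨0, 0, 0, 67108864⟩, ⟨1, 1, 0, 67108864⟩, ⟨2, 1, 0, 67108864⟩], [⟨0, 0, 1, 33554432⟩, ⟨1, 1, 2, 33554432⟩, ⟨2, 1, 0, 33554432⟩]]) 0 1 1 0 0 (sgb true) (sgb false) x) :
    AltB (VF κ) PP tKF tL pcF [⟨4, 0, 0, 2845415833⟩] 0 1 1 0 0 (sgb true) (sgb false) x :=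
  strip_altB (m := 2845415833) false rfl hκ covF00 covF01 hx hx' c_B00pm_011_s3 H ((okx hx hx').extB (T := tt) (sideF hx hx') hκ rfl rfl (.O 0 true) (.O 1 false) (Or.inr rfl))

noncomputable def cut_B00pm_012_s1 : Cut := Cut.of [[⟨4, 0, 0, 1449551462⟩], [⟨0, 0, 0, 67108864⟩, ⟨1, 1, 0, 67108864⟩, ⟨2, 1, 0, 67108864⟩], [⟨0, 0, 1, 33554432⟩, ⟨1, 1, 2, 33554432⟩, ⟨2, 1, 0, 33554432⟩]]

noncomputable def f_B00pm_012_s1 : ℕ → ℕ → ℕ → ℕ → Bool := onCell 0 536870912 0 536870912 402653184 67108864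
    (rowF 0 false true false .pnp 0 1 2 (qsf 0 536870912 0 536870912 1) ndF0q0 ndF0q2 pcF1 cut_B00pm_012_s1 Ext.none)

def k0_B00pm_012_s1 : ∃ t, chk3 f_B00pm_012_s1 t 1 1 1 = true :=
  ⟨(a (l 6) (b (a (b (a (l 6) (b (a (l 6) (l 16781560)) (l 6))) (l 6)) (b (b (a (a (l 16786768) (l 16788400)) (a (l 16787704) (b (l 16784376) (l 16791440)))) (a (l 6) (a (l 16811024) (l 16807816)))) (l 6))) (l 6))), by decide +kernel⟩

theorem c_B00pm_012_s1 : CertF 0 536870912 0 536870912 402653184 67108864 false true false .pnp 0 1 2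
    ndF0q0 ndF0q2 pcF1 cut_B00pm_012_s1 Ext.none :=
  certF0 (fam := false) (s1 := true) (s2 := false) (a := 0) (b := 1) (c := 2) (cn := .pnp) (n1 := ndF0q0) (n2 := ndF0q2) (pc := pcF1) (cut := cut_B00pm_012_s1) (xt := Ext.none) (P1 := 0) (W1 := 536870912) (P2 := 0) (W2 := 536870912) (P3 := 402653184) (W3 := 67108864)
    rfl k0_B00pm_012_s1

theorem s_B00pm_012_s1 {κ x : ℝ} (hκ : κ * h0 = ken x) (hx : ((402653184 : ℕ) : ℝ) / S ≤ x)
    (hx' : x ≤ (((402653184 : ℕ) : ℝ) + (67108864 : ℕ)) / S)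
    (H : CutB (VF κ) PP tKF tL pcF (Cut.of [[⟨0, 0, 0, 67108864⟩, ⟨1, 1, 0, 67108864⟩, ⟨2, 1, 0, 67108864⟩], [⟨0, 0, 1, 33554432⟩, ⟨1, 1, 2, 33554432⟩, ⟨2, 1, 0, 33554432⟩]]) 0 1 2 0 0 (sgb true) (sgb false) x) :
    AltB (VF κ) PP tKF tL pcF [⟨3, 0, 0, 1449551462⟩] 0 1 2 0 0 (sgb true) (sgb false) x :=
  strip_altB (m := 1449551462) true rfl hκ covF00 covF02 hx hx' c_B00pm_012_s1 H (noExt_B)

noncomputable def cut_B00pm_012_s3 : Cut := Cut.of [[⟨3, 0, 0, 2845415833⟩], [⟨0, 0, 0, 67108864⟩, ⟨1, 1, 0, 67108864⟩, ⟨2, 1, 0, 67108864⟩], [⟨0, 0, 1, 33554432⟩, ⟨1, 1, 2, 33554432⟩, ⟨2, 1, 0, 33554432⟩]]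

noncomputable def f_B00pm_012_s3 : ℕ → ℕ → ℕ → ℕ → Bool := onCell 0 536870912 0 536870912 402653184 67108864
    (rowF 0 false true false .pnp 0 1 2 (qsf 0 536870912 0 536870912 1) ndF0q0 ndF0q2 pcF1 cut_B00pm_012_s3 Ext.none)

def k0_B00pm_012_s3 : ∃ t, chk3 f_B00pm_012_s3 t 1 1 1 = true :=
  ⟨(a (b (l 6) (b (a (a (l 2) (a (a (a (l 2) (l 6)) (l 6)) (l 6))) (l 6)) (a (b (a (a (l 2) (b (a (l 2) (a (l 2) (l 16626168))) (a (l 14) (a (l 14) (l 16654408))))) (b (a (a (b (l 16594000) (l 16606128)) (l 16594080)) (b (l 6) (l 16633104))) (a (a (l 16657696) (l 16638816)) (a (l 16610208) (l 16645312))))) (a (a (l 14) (a (l 14) (a (l 14) (a (l 14) (b (l 16684064) (b (l 16688704) (l 16727976))))))) (b (a (a (b (l 16648056) (l 16684824)) (b (l 16637864) (l 16652432))) (b (l 16665800) (l 16678416))) (b (a (a (l 16706744) (l 16688824)) (a (l 16697672) (l 16644184))) (a (b (a (l 16714528) (l 16700904)) (a (c (l 16724192)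 (l 16722880)) (l 16709240))) (a (a (l 16694944) (l 16667360)) (l 16678680))))))) (b (a (a (b (l 6) (l 16636656)) (l 6)) (l 6)) (a (b (a (b (l 16607744) (l 16659480)) (l 16639784)) (b (a (l 16670040) (l 16608536)) (a (b (l 16678408) (l 16684240)) (a (l 16622144) (l 16611064))))) (b (l 6) (b (a (a (l 16594752) (l 6)) (l 6)) (a (a (l 16642280) (b (l 16592176) (l 16597536))) (a (l 16618288) (l 6)))))))))) (b (l 6) (a (l 6) (l 6)))), by decide +kernel⟩

theorem c_B00pm_012_s3 : CertF 0 536870912 0 536870912 402653184 67108864 false true false .pnp 0 1 2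
    ndF0q0 ndF0q2 pcF1 cut_B00pm_012_s3 Ext.none :=
  certF0 (fam := false) (s1 := true) (s2 := false) (a := 0) (b := 1) (c := 2) (cn := .pnp) (n1 := ndF0q0) (n2 := ndF0q2) (pc := pcF1) (cut := cut_B00pm_012_s3) (xt := Ext.none) (P1 := 0) (W1 := 536870912) (P2 := 0) (W2 := 536870912) (P3 := 402653184) (W3 := 67108864)
    rfl k0_B00pm_012_s3

theorem s_B00pm_012_s3 {κ x : ℝ} (hκ : κ * h0 = ken x) (hx : ((402653184 : ℕ) : ℝ) / S ≤ x)
    (hx' : x ≤ (((402653184 : ℕ) : ℝ) + (67108864 : ℕ)) / S)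
    (H : CutB (VF κ) PP tKF tL pcF (Cut.of [[⟨0, 0, 0, 67108864⟩, ⟨1, 1, 0, 67108864⟩, ⟨2, 1, 0, 67108864⟩], [⟨0, 0, 1, 33554432⟩, ⟨1, 1, 2, 33554432⟩, ⟨2, 1, 0, 33554432⟩]]) 0 1 2 0 0 (sgb true) (sgb false) x) :
    AltB (VF κ) PP tKF tL pcF [⟨4, 0, 0, 2845415833⟩] 0 1 2 0 0 (sgb true) (sgb false) x :=
  strip_altB (m := 2845415833) false rfl hκ covF00 covF02 hx hx' c_B00pm_012_s3 H (noExt_B)

noncomputable def cut_B00pm_022_s1 : Cut := Cut.of [[⟨4, 0, 0, 1449551462⟩], [⟨0, 0, 0, 67108864⟩, ⟨1, 1, 0, 67108864⟩, ⟨2, 1, 0, 67108864⟩]]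

noncomputable def f_B00pm_022_s1 : ℕ → ℕ → ℕ → ℕ → Bool := onCell 1073741824 536870912 0 536870912 402653184 67108864
    (rowF 2 false true false .pp 0 2 2 (qsf 0 536870912 0 536870912 2) ndF0q0 ndF0q2 pcF2 cut_B00pm_022_s1 Ext.none)

def k0_B00pm_022_s1 : ∃ t, chk3 f_B00pm_022_s1 t 1 1 1 = true :=
  ⟨(l 6), by decide +kernel⟩

theorem c_B00pm_022_s1 : CertF 0 536870912 0 536870912 402653184 67108864 false true false .pp 0 2 2
    ndF0q0 ndF0q2 pcF2 cut_B00pm_022_s1 Ext.none :=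
  certF2 (fam := false) (s1 := true) (s2 := false) (a := 0) (b := 2) (c := 2) (cn := .pp) (n1 := ndF0q0) (n2 := ndF0q2) (pc := pcF2) (cut := cut_B00pm_022_s1) (xt := Ext.none) (P1 := 0) (W1 := 536870912) (P2 := 0) (W2 := 536870912) (P3 := 402653184) (W3 := 67108864)
    rfl (fun _ => rfl) k0_B00pm_022_s1

theorem s_B00pm_022_s1 {κ x : ℝ} (hκ : κ * h0 = ken x) (hx : ((402653184 : ℕ) : ℝ) / S ≤ x)
    (hx' : x ≤ (((402653184 : ℕ) : ℝ) + (67108864 : ℕ)) / S)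
    (H : CutB (VF κ) PP tKF tL pcF (Cut.of [[⟨0, 0, 0, 67108864⟩, ⟨1, 1, 0, 67108864⟩, ⟨2, 1, 0, 67108864⟩]]) 0 2 2 0 0 (sgb true) (sgb false) x) :
    AltB (VF κ) PP tKF tL pcF [⟨3, 0, 0, 1449551462⟩] 0 2 2 0 0 (sgb true) (sgb false) x :=
  strip_altB (m := 1449551462) true rfl hκ covF00 covF02 hx hx' c_B00pm_022_s1 H (noExt_B)

noncomputable def cut_B00pm_022_s3 : Cut := Cut.of [[⟨3, 0, 0, 2845415833⟩], [⟨0, 0, 0, 67108864⟩, ⟨1, 1, 0, 67108864⟩, ⟨2, 1, 0, 67108864⟩]]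

noncomputable def f_B00pm_022_s3 : ℕ → ℕ → ℕ → ℕ → Bool := onCell 0 536870912 0 536870912 402653184 67108864
    (rowF 0 false true false .pp 0 2 2 (qsf 0 536870912 0 536870912 2) ndF0q0 ndF0q2 pcF2 cut_B00pm_022_s3 Ext.none)

def k0_B00pm_022_s3 : ∃ t, chk3 f_B00pm_022_s3 t 1 1 1 = true :=
  ⟨(a (b (l 6) (a (b (b (l 6) (a (a (a (a (b (l 16668712) (b (l 16641744) (l 16694240))) (b (l 16618728) (l 16680048))) (b (l 16606496) (l 16687360))) (b (l 6) (b (l 16676368) (l 16663224)))) (a (b (l 6) (l 6)) (l 6)))) (a (a (b (b (a (a (b (a (l 16665728) (l 16660944)) (a (l 16698456) (l 16672472))) (b (l 16653696) (l 16664880))) (b (l 16680912) (l 16691376))) (l 14)) (l 14)) (a (b (b (l 16665560) (l 14)) (l 14)) (b (b (b (l 16602632) (l 16619536)) (b (l 47814753687) (b (l 16650360) (l 1)))) (l 1)))) (b (a (b (a (b (l 16597944) (l 16613864)) (l 1)) (l 1)) (l 1)) (l 1)))) (b (l 1) (l 1)))) (l 1)), by decide +kernel⟩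

theorem c_B00pm_022_s3 : CertF 0 536870912 0 536870912 402653184 67108864 false true false .pp 0 2 2
    ndF0q0 ndF0q2 pcF2 cut_B00pm_022_s3 Ext.none :=
  certF0 (fam := false) (s1 := true) (s2 := false) (a := 0) (b := 2) (c := 2) (cn := .pp) (n1 := ndF0q0) (n2 := ndF0q2) (pc := pcF2) (cut := cut_B00pm_022_s3) (xt := Ext.none) (P1 := 0) (W1 := 536870912) (P2 := 0) (W2 := 536870912) (P3 := 402653184) (W3 := 67108864)
    rfl k0_B00pm_022_s3

theorem s_B00pm_022_s3 {κ x : ℝ} (hκ : κ * h0 = ken x) (hx : ((402653184 : ℕ) : ℝ) / S ≤ x)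
    (hx' : x ≤ (((402653184 : ℕ) : ℝ) + (67108864 : ℕ)) / S)
    (H : CutB (VF κ) PP tKF tL pcF (Cut.of [[⟨0, 0, 0, 67108864⟩, ⟨1, 1, 0, 67108864⟩, ⟨2, 1, 0, 67108864⟩]]) 0 2 2 0 0 (sgb true) (sgb false) x) :
    AltB (VF κ) PP tKF tL pcF [⟨4, 0, 0, 2845415833⟩] 0 2 2 0 0 (sgb true) (sgb false) x :=
  strip_altB (m := 2845415833) false rfl hκ covF00 covF02 hx hx' c_B00pm_022_s3 H (noExt_B)

noncomputable def cut_B00pm_101_s1 : Cut := Cut.of [[⟨4, 0, 0, 1449551462⟩], [⟨0, 1, 0, 33554432⟩, ⟨1, 0, 0, 33554432⟩, ⟨2, 1, 0, 33554432⟩]]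

noncomputable def f_B00pm_101_s1 : ℕ → ℕ → ℕ → ℕ → Bool := onCell 0 536870912 536870912 536870912 402653184 67108864
    (rowF 2 false true false .npn 1 0 1 (qsf 536870912 536870912 536870912 536870912 0) ndF0q1 ndF0q1 pcF0 cut_B00pm_101_s1 Ext.none)

def k0_B00pm_101_s1 : ∃ t, chk3 f_B00pm_101_s1 t 1 1 1 = true :=
  ⟨(a (b (l 6) (b (l 6) (a (b (a (l 6) (l 6)) (a (b (b (a (l 16916536) (l 6)) (a (b (a (l 16891376) (l 16904840)) (a (l 16877136) (l 16891128))) (b (l 16924912) (l 16911952)))) (b (a (a (b (l 16859648) (l 16840896)) (l 16866088)) (a (l 16881512) (l 16896608))) (a (a (b (a (l 14) (l 16825304)) (l 14)) (b (l 16838648) (a (l 16803488) (l 16823512)))) (a (b (l 16855920) (l 16837456)) (l 16864128))))) (b (l 6) (b (a (l 16918368) (l 16945440)) (a (a (l 16880832) (l 16896840)) (l 16919544)))))) (b (l 6) (a (b (l 6) (b (l 6) (a (l 16947216) (l 6)))) (l 6)))))) (l 6)), by decide +kernel⟩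

theorem c_B00pm_101_s1 : CertF 536870912 536870912 536870912 536870912 402653184 67108864 false true false .npn 1 0 1
    ndF0q1 ndF0q1 pcF0 cut_B00pm_101_s1 Ext.none :=
  certF2 (fam := false) (s1 := true) (s2 := false) (a := 1) (b := 0) (c := 1) (cn := .npn) (n1 := ndF0q1) (n2 := ndF0q1) (pc := pcF0) (cut := cut_B00pm_101_s1) (xt := Ext.none) (P1 := 536870912) (W1 := 536870912) (P2 := 536870912) (W2 := 536870912) (P3 := 402653184) (W3 := 67108864)
    rfl (fun _ => rfl) k0_B00pm_101_s1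

theorem s_B00pm_101_s1 {κ x : ℝ} (hκ : κ * h0 = ken x) (hx : ((402653184 : ℕ) : ℝ) / S ≤ x)
    (hx' : x ≤ (((402653184 : ℕ) : ℝ) + (67108864 : ℕ)) / S)
    (H : CutB (VF κ) PP tKF tL pcF (Cut.of [[⟨0, 1, 0, 33554432⟩, ⟨1, 0, 0, 33554432⟩, ⟨2, 1, 0, 33554432⟩]]) 1 0 1 0 0 (sgb true) (sgb false) x) :
    AltB (VF κ) PP tKF tL pcF [⟨3, 0, 0, 1449551462⟩] 1 0 1 0 0 (sgb true) (sgb false) x :=
  strip_altB (m := 1449551462) true rfl hκ covF01 covF01 hx hx' c_B00pm_101_s1 H (noExt_B)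

noncomputable def cut_B00pm_101_s3 : Cut := Cut.of [[⟨3, 0, 0, 2845415833⟩], [⟨0, 1, 0, 33554432⟩, ⟨1, 0, 0, 33554432⟩, ⟨2, 1, 0, 33554432⟩]]

noncomputable def xt_B00pm_101_s3 : Ext := strExt dd false true false .u0 .u0m .s0m .npn 1 0 1 rfl rfl gl0 vv ndF0q1 ndF0q1

noncomputable def f_B00pm_101_s3 : ℕ → ℕ → ℕ → ℕ → Bool := onCell 536870912 536870912 536870912 536870912 402653184 67108864
    (rowF 0 false true false .npn 1 0 1 (qsf 536870912 536870912 536870912 536870912 0) ndF0q1 ndF0q1 pcF0 cut_B00pm_101_s3 xt_B00pm_101_s3)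

def k0_B00pm_101_s3 : ∃ t, chk3 f_B00pm_101_s3 t 4 2 1 = true :=
  ⟨(b (a (b (l 4) (a (b (l 4) (a (l 4) (b (l 4) (l 539992079)))) (b (a (l 4) (l 540193039)) (a (b (a (l 4) (l 540077839)) (a (l 539998479) (l 539998991))) (b (l 540084751) (c (l 540287503) (l 539735055))))))) (b (a (a (l 4) (l 1)) (l 1)) (a (b (l 540179983) (b (l 540086799) (l 540020239))) (b (a (l 540142351) (l 1)) (a (l 540040463) (l 540022031)))))) (a (b (b (a (c (a (b (a (l 4) (l 540242447)) (a (b (a (l 540187919) (l 540189455)) (l 540121615)) (b (l 540189967) (l 540142607)))) (b (l 540239375) (b (l 540187919) (l 540146959)))) (b (a (a (l 4) (l 539580431)) (l 539609103)) (a (a (b (a (b (l 4) (l 539480591)) (b (l 539515663) (a (l 539492111) (l 539497999)))) (a (l 539436815) (l 539448079))) (b (b (l 539532047) (l 539511311)) (b (l 539486479) (l 539458575)))) (b (l 539551759) (l 539509007))))) (b (a (l 539938575) (l 539941391)) (a (b (l 539882255)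 (l 539844111)) (l 539874575)))) (a (a (b (a (l 539689743) (l 539713039)) (a (l 539564815) (l 539589647))) (b (b (l 539772687) (l 539713807)) (l 539624463))) (a (b (l 539772687) (l 539662351)) (b (l 539790863) (l 16846304))))) (a (a (b (b (l 539468559) (a (l 16826696) (l 16832816))) (b (a (l 16837400) (l 16843448)) (c (l 16860696) (l 16840128)))) (b (b (l 539514383) (l 16842152)) (b (l 16852696) (l 16862576)))) (b (a (b (l 16844192) (l 16855096)) (b (l 16857656) (l 16868416))) (a (b (l 16865480) (l 16875248)) (l 16883400))))) (b (b (a (b (l 539951119) (l 539884815)) (b (l 539943439) (l 539880975))) (a (b (l 539808527) (l 539719183)) (b (l 539811343) (l 16894928)))) (b (a (b (l 16878056) (l 16888688)) (a (l 16904312) (l 16918192))) (a (b (l 16898680) (l 16908008)) (a (l 16923840) (l 16937408))))))), by decide +kernel⟩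

def k1_B00pm_101_s3 : ∃ t, chk3 f_B00pm_101_s3 t 5 2 1 = true :=
  ⟨(b (a (b (l 1) (a (a (b (l 1) (l 539997967)) (l 1)) (l 1))) (l 1)) (b (a (a (b (b (l 539912207) (l 539857167)) (b (l 16911576) (l 16923088))) (a (b (l 54794705143) (l 16938392)) (b (l 1) (l 16952128)))) (a (b (l 1) (l 6)) (l 1))) (b (a (a (a (l 16932056) (l 16945840)) (l 6)) (l 6)) (a (l 6) (l 6))))), by decide +kernel⟩

def k2_B00pm_101_s3 : ∃ t, chk3 f_B00pm_101_s3 t 2 3 1 = true :=
  ⟨(a (b (a (b (b (a (a (c (b (l 16871600) (l 16881680)) (b (l 16847464) (l 16853912))) (b (l 16871648) (l 16879864))) (a (b (l 16884232) (l 16892408)) (l 16901168))) (a (a (a (b (l 16872136) (l 16878544)) (b (l 16878104) (l 16884496))) (b (l 16887216) (l 16893584))) (a (b (l 16899720) (l 16906056)) (l 16915632)))) (a (a (b (b (a (l 16884016) (l 16889928)) (l 6)) (l 6)) (l 6)) (l 6))) (b (b (a (b (l 16916608) (l 16924488)) (l 6)) (l 6)) (l 6))) (l 6)) (b (l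 6) (l 6))), by decide +kernel⟩

def k3_B00pm_101_s3 : ∃ t, chk3 f_B00pm_101_s3 t 3 1 1 = true :=
  ⟨(b (a (b (l 1) (l 6)) (l 1)) (l 6)), by decide +kernel⟩

theorem t4_B00pm_101_s3 : ∃ t, chk3 f_B00pm_101_s3 t 2 2 1 = true := ex3_a k0_B00pm_101_s3 k1_B00pm_101_s3

theorem t5_B00pm_101_s3 : ∃ t, chk3 f_B00pm_101_s3 t 2 1 1 = true := ex3_b t4_B00pm_101_s3 k2_B00pm_101_s3

theorem t6_B00pm_101_s3 : ∃ t, chk3 f_B00pm_101_s3 t 1 1 1 = true := ex3_a t5_B00pm_101_s3 k3_B00pm_101_s3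

theorem c_B00pm_101_s3 : CertF 536870912 536870912 536870912 536870912 402653184 67108864 false true false .npn 1 0 1
    ndF0q1 ndF0q1 pcF0 cut_B00pm_101_s3 xt_B00pm_101_s3 :=
  certF0 (fam := false) (s1 := true) (s2 := false) (a := 1) (b := 0) (c := 1) (cn := .npn) (n1 := ndF0q1) (n2 := ndF0q1) (pc := pcF0) (cut := cut_B00pm_101_s3) (xt := xt_B00pm_101_s3) (P1 := 536870912) (W1 := 536870912) (P2 := 536870912) (W2 := 536870912) (P3 := 402653184) (W3 := 67108864)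
    rfl t6_B00pm_101_s3

theorem s_B00pm_101_s3 {κ x : ℝ} (hκ : κ * h0 = ken x) (hx : ((402653184 : ℕ) : ℝ) / S ≤ x)
    (hx' : x ≤ (((402653184 : ℕ) : ℝ) + (67108864 : ℕ)) / S)
    (H : CutB (VF κ) PP tKF tL pcF (Cut.of [[⟨0, 1, 0, 33554432⟩, ⟨1, 0, 0, 33554432⟩, ⟨2, 1, 0, 33554432⟩]]) 1 0 1 0 0 (sgb true) (sgb false) x) :
    AltB (VF κ) PP tKF tL pcF [⟨4, 0, 0, 2845415833⟩] 1 0 1 0 0 (sgb true) (sgb false) x :=
  strip_altB (m := 2845415833) false rfl hκ covF01 covF01 hx hx' c_B00pm_101_s3 H ((okx hx hx').extB (T := tt) (sideF hx hx') hκ rfl rfl (.O 1 true) (.O 1 false) (Or.inl rfl))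

noncomputable def cut_B00pm_102_s1 : Cut := Cut.of [[⟨4, 0, 0, 1449551462⟩], [⟨0, 1, 0, 67108864⟩, ⟨1, 0, 0, 67108864⟩, ⟨2, 1, 0, 67108864⟩]]

noncomputable def xt_B00pm_102_s1 : Ext := strExt dd false true false .u0 .u2 .u0m .npp 1 0 2 rfl rfl gf0 vv ndF0q1 ndF0q2

noncomputable def f_B00pm_102_s1 : ℕ → ℕ → ℕ → ℕ → Bool := onCell 536870912 536870912 0 536870912 402653184 67108864
    (rowF 0 false true false .npp 1 0 2 (qsf 536870912 536870912 0 536870912 0) ndF0q1 ndF0q2 pcF0 cut_B00pm_102_s1 xt_B00pm_102_s1)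

def k0_B00pm_102_s1 : ∃ t, chk3 f_B00pm_102_s1 t 2 1 1 = true :=
  ⟨(b (b (a (l 2) (a (b (a (a (l 2) (l 3)) (l 3)) (a (b (l 539372559) (b (l 539247375) (l 539205647))) (b (l 539645199) (a (l 538938127) (b (l 539239183) (l 539242767)))))) (b (l 3) (b (l 3) (a (l 539313423) (l 3)))))) (a (a (l 2) (b (l 2) (a (l 2) (l 55398612583)))) (a (b (a (b (a (l 16834848) (l 16823888)) (l 16851624)) (a (a (l 539213071) (l 539239439)) (l 539275023))) (b (a (l 16874224) (l 16811304)) (a (l 16896736) (l 16876112)))) (b (a (l 539381263) (l 539273487)) (b (l 539892751) (a (l 16811592) (l 539342607))))))) (a (b (l 6) (l 6)) (b (b (a (a (a (l 16851088) (l 16840984)) (l 16909496)) (a (b (l 16875992) (l 16898152)) (c (l 539307791) (l 539233295)))) (a (l 6) (b (a (l 16921112) (l 16896432)) (a (l 6) (l 16921480))))) (l 6)))), by decide +kernel⟩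

def k1_B00pm_102_s1 : ∃ t, chk3 f_B00pm_102_s1 t 3 1 1 = true :=
  ⟨(b (b (l 3) (a (a (a (b (l 539052815) (b (l 539109135) (l 539145487))) (b (l 3) (b (l 538952719) (l 538978831)))) (l 3)) (l 3))) (a (b (a (b (a (a (l 539201807) (l 539120911)) (l 539279119)) (a (b (l 16868928) (l 16893016)) (b (l 539048207) (l 16862592)))) (b (a (l 539987215) (l 538858255)) (a (a (l 539000335) (l 538971151)) (l 540016911)))) (b (a (b (a (l 16916432) (b (l 16880808) (l 16892944))) (l 16923896)) (a (b (a (l 16865536) (l 16851736)) (b (l 16877176) (l 16889920))) (b (l 539015439) (b (l 16849176) (a (l 16869024) (l 16854624)))))) (a (l 6) (a (l 16884912) (b (l 16883120) (l 16916232)))))) (b (b (l 3) (a (a (a (l 538912527) (l 538895631)) (a (l 538876687) (l 3))) (l 3))) (b (a (a (b (l 539789327) (a (b (l 16828048) (l 16840048)) (l 539011343))) (a (c (l 540318991) (l 540573967)) (a (l 539757327) (l 540026639)))) (b (l 3) (a (a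 (l 540619279) (a (l 539010831) (l 3))) (l 3)))) (a (b (a (b (a (l 16852976) (l 16879664)) (l 16860296)) (a (b (l 16843952) (a (l 16839416) (l 16873032))) (b (l 539053327) (b (l 16817488) (a (l 16826784) (l 16819736)))))) (a (l 16844376) (a (l 16861632) (b (l 16834592) (l 16853880))))) (b (b (a (a (l 540145167) (a (l 539076879) (l 539360527))) (l 3)) (a (a (a (b (l 16806392) (l 16812480)) (l 539110415)) (a (l 539123471) (l 539676943))) (l 14))) (a (b (b (a (a (l 16817768) (b (l 16809448) (l 16812144))) (a (l 16803104) (l 14))) (a (l 16820688) (l 14))) (a (l 16835744) (l 14))) (l 14)))))))), by decide +kernel⟩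

theorem t2_B00pm_102_s1 : ∃ t, chk3 f_B00pm_102_s1 t 1 1 1 = true := ex3_a k0_B00pm_102_s1 k1_B00pm_102_s1

theorem c_B00pm_102_s1 : CertF 536870912 536870912 0 536870912 402653184 67108864 false true false .npp 1 0 2
    ndF0q1 ndF0q2 pcF0 cut_B00pm_102_s1 xt_B00pm_102_s1 :=
  certF0 (fam := false) (s1 := true) (s2 := false) (a := 1) (b := 0) (c := 2) (cn := .npp) (n1 := ndF0q1) (n2 := ndF0q2) (pc := pcF0) (cut := cut_B00pm_102_s1) (xt := xt_B00pm_102_s1) (P1 := 536870912) (W1 := 536870912) (P2 := 0) (W2 := 536870912) (P3 := 402653184) (W3 := 67108864)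
    rfl t2_B00pm_102_s1

theorem s_B00pm_102_s1 {κ x : ℝ} (hκ : κ * h0 = ken x) (hx : ((402653184 : ℕ) : ℝ) / S ≤ x)
    (hx' : x ≤ (((402653184 : ℕ) : ℝ) + (67108864 : ℕ)) / S)
    (H : CutB (VF κ) PP tKF tL pcF (Cut.of [[⟨0, 1, 0, 67108864⟩, ⟨1, 0, 0, 67108864⟩, ⟨2, 1, 0, 67108864⟩]]) 1 0 2 0 0 (sgb true) (sgb false) x) :
    AltB (VF κ) PP tKF tL pcF [⟨3, 0, 0, 1449551462⟩] 1 0 2 0 0 (sgb true) (sgb false) x :=
  strip_altB (m := 1449551462) true rfl hκ covF01 covF02 hx hx' c_B00pm_102_s1 H ((okx hx hx').extB (T := tt) (sideF hx hx') hκ rfl rfl (.O 1 true) (.O 2 false) (Or.inl rfl))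

noncomputable def cut_B00pm_102_s3 : Cut := Cut.of [[⟨3, 0, 0, 2845415833⟩], [⟨0, 1, 0, 67108864⟩, ⟨1, 0, 0, 67108864⟩, ⟨2, 1, 0, 67108864⟩]]

noncomputable def f_B00pm_102_s3 : ℕ → ℕ → ℕ → ℕ → Bool := onCell 536870912 536870912 0 536870912 402653184 67108864
    (rowF 0 false true false .npp 1 0 2 (qsf 536870912 536870912 0 536870912 0) ndF0q1 ndF0q2 pcF0 cut_B00pm_102_s3 Ext.none)

def k0_B00pm_102_s3 : ∃ t, chk3 f_B00pm_102_s3 t 1 1 1 = true :=
  ⟨(l 6), by decide +kernel⟩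

theorem c_B00pm_102_s3 : CertF 536870912 536870912 0 536870912 402653184 67108864 false true false .npp 1 0 2
    ndF0q1 ndF0q2 pcF0 cut_B00pm_102_s3 Ext.none :=
  certF0 (fam := false) (s1 := true) (s2 := false) (a := 1) (b := 0) (c := 2) (cn := .npp) (n1 := ndF0q1) (n2 := ndF0q2) (pc := pcF0) (cut := cut_B00pm_102_s3) (xt := Ext.none) (P1 := 536870912) (W1 := 536870912) (P2 := 0) (W2 := 536870912) (P3 := 402653184) (W3 := 67108864)
    rfl k0_B00pm_102_s3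

theorem s_B00pm_102_s3 {κ x : ℝ} (hκ : κ * h0 = ken x) (hx : ((402653184 : ℕ) : ℝ) / S ≤ x)
    (hx' : x ≤ (((402653184 : ℕ) : ℝ) + (67108864 : ℕ)) / S)
    (H : CutB (VF κ) PP tKF tL pcF (Cut.of [[⟨0, 1, 0, 67108864⟩, ⟨1, 0, 0, 67108864⟩, ⟨2, 1, 0, 67108864⟩]]) 1 0 2 0 0 (sgb true) (sgb false) x) :
    AltB (VF κ) PP tKF tL pcF [⟨4, 0, 0, 2845415833⟩] 1 0 2 0 0 (sgb true) (sgb false) x :=
  strip_altB (m := 2845415833) false rfl hκ covF01 covF02 hx hx' c_B00pm_102_s3 H (noExt_B)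

noncomputable def cut_B00pm_112_s1 : Cut := Cut.of [[⟨4, 0, 0, 1449551462⟩]]

noncomputable def xt_B00pm_112_s1 : Ext := strExt dd false true false .u0 .u2 .u0m .dn 1 1 2 rfl rfl gf1 vv ndF0q1 ndF0q2

noncomputable def f_B00pm_112_s1 : ℕ → ℕ → ℕ → ℕ → Bool := onCell 536870912 536870912 0 536870912 402653184 67108864
    (rowF 2 false true false .dn 1 1 2 (qsf 536870912 536870912 0 536870912 1) ndF0q1 ndF0q2 pcF1 cut_B00pm_112_s1 xt_B00pm_112_s1)

def k0_B00pm_112_s1 : ∃ t, chk3 f_B00pm_112_s1 t 1 1 1 = true :=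
  ⟨(a (a (b (b (a (b (a (b (l 3) (l 537706511)) (b (l 537519631) (l 537574671))) (a (b (a (l 537771791) (l 537721615)) (b (a (l 537758991) (l 16790320)) (l 537734927))) (b (a (l 537648911) (l 16790016)) (a (l 16795648) (l 16798592))))) (b (b (l 537395983) (a (l 537481999) (l 16769152))) (b (a (l 16752008) (l 16798352)) (a (l 16802864) (l 16808120))))) (a (a (b (a (b (l 16798640) (l 16809000)) (l 16796648)) (a (l 16825584) (l 16829328))) (b (a (l 16810400) (l 16813768)) (l 16835944))) (a (b (l 16819024) (l 6)) (b (l 16826992) (l 6))))) (b (l 6) (l 6))) (b (a (b (b (a (a (l 16767880) (l 16789392)) (l 1)) (a (l 16807272) (l 1))) (b (a (l 16835264) (l 1)) (l 6))) (l 1)) (l 6))) (l 1)), by decide +kernel⟩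

theorem c_B00pm_112_s1 : CertF 536870912 536870912 0 536870912 402653184 67108864 false true false .dn 1 1 2
    ndF0q1 ndF0q2 pcF1 cut_B00pm_112_s1 xt_B00pm_112_s1 :=
  certF2 (fam := false) (s1 := true) (s2 := false) (a := 1) (b := 1) (c := 2) (cn := .dn) (n1 := ndF0q1) (n2 := ndF0q2) (pc := pcF1) (cut := cut_B00pm_112_s1) (xt := xt_B00pm_112_s1) (P1 := 536870912) (W1 := 536870912) (P2 := 0) (W2 := 536870912) (P3 := 402653184) (W3 := 67108864)
    rfl (fun _ => rfl) k0_B00pm_112_s1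

theorem s_B00pm_112_s1 {κ x : ℝ} (hκ : κ * h0 = ken x) (hx : ((402653184 : ℕ) : ℝ) / S ≤ x)
    (hx' : x ≤ (((402653184 : ℕ) : ℝ) + (67108864 : ℕ)) / S) :
    AltB (VF κ) PP tKF tL pcF [⟨3, 0, 0, 1449551462⟩] 1 1 2 0 0 (sgb true) (sgb false) x :=
  strip_altB (m := 1449551462) true rfl hκ covF01 covF02 hx hx' c_B00pm_112_s1 cutB_nil ((okx hx hx').extB (T := tt) (sideF hx hx') hκ rfl rfl (.O 1 true) (.O 2 false) (Or.inr rfl))

noncomputable def cut_B00pm_112_s3 : Cut := Cut.of [[⟨3, 0, 0, 2845415833⟩]]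

noncomputable def f_B00pm_112_s3 : ℕ → ℕ → ℕ → ℕ → Bool := onCell 536870912 536870912 0 536870912 402653184 67108864
    (rowF 0 false true false .dn 1 1 2 (qsf 536870912 536870912 0 536870912 1) ndF0q1 ndF0q2 pcF1 cut_B00pm_112_s3 Ext.none)

def k0_B00pm_112_s3 : ∃ t, chk3 f_B00pm_112_s3 t 1 1 1 = true :=
  ⟨(l 6), by decide +kernel⟩

theorem c_B00pm_112_s3 : CertF 536870912 536870912 0 536870912 402653184 67108864 false true false .dn 1 1 2
    ndF0q1 ndF0q2 pcF1 cut_B00pm_112_s3 Ext.none :=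
  certF0 (fam := false) (s1 := true) (s2 := false) (a := 1) (b := 1) (c := 2) (cn := .dn) (n1 := ndF0q1) (n2 := ndF0q2) (pc := pcF1) (cut := cut_B00pm_112_s3) (xt := Ext.none) (P1 := 536870912) (W1 := 536870912) (P2 := 0) (W2 := 536870912) (P3 := 402653184) (W3 := 67108864)
    rfl k0_B00pm_112_s3

theorem s_B00pm_112_s3 {κ x : ℝ} (hκ : κ * h0 = ken x) (hx : ((402653184 : ℕ) : ℝ) / S ≤ x)
    (hx' : x ≤ (((402653184 : ℕ) : ℝ) + (67108864 : ℕ)) / S) :
    AltB (VF κ) PP tKF tL pcF [⟨4, 0, 0, 2845415833⟩] 1 1 2 0 0 (sgb true) (sgb false) x :=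
  strip_altB (m := 2845415833) false rfl hκ covF01 covF02 hx hx' c_B00pm_112_s3 cutB_nil (noExt_B)

noncomputable def cut_B00pm_202_s1 : Cut := Cut.of [[⟨4, 0, 0, 1449551462⟩], [⟨0, 1, 0, 67108864⟩, ⟨1, 0, 0, 67108864⟩, ⟨2, 1, 0, 67108864⟩]]

noncomputable def f_B00pm_202_s1 : ℕ → ℕ → ℕ → ℕ → Bool := onCell 0 536870912 0 536870912 402653184 67108864
    (rowF 0 false true false .pp 2 0 2 (qsf 0 536870912 0 536870912 0) ndF0q2 ndF0q2 pcF0 cut_B00pm_202_s1 Ext.none)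

def k0_B00pm_202_s1 : ∃ t, chk3 f_B00pm_202_s1 t 1 1 1 = true :=
  ⟨(a (l 3) (b (l 3) (b (l 3) (a (l 3) (b (l 3) (a (l 3) (l 14))))))), by decide +kernel⟩

theorem c_B00pm_202_s1 : CertF 0 536870912 0 536870912 402653184 67108864 false true false .pp 2 0 2
    ndF0q2 ndF0q2 pcF0 cut_B00pm_202_s1 Ext.none :=
  certF0 (fam := false) (s1 := true) (s2 := false) (a := 2) (b := 0) (c := 2) (cn := .pp) (n1 := ndF0q2) (n2 := ndF0q2) (pc := pcF0) (cut := cut_B00pm_202_s1) (xt := Ext.none) (P1 := 0) (W1 := 536870912) (P2 := 0) (W2 := 536870912) (P3 := 402653184) (W3 := 67108864)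
    rfl k0_B00pm_202_s1

theorem s_B00pm_202_s1 {κ x : ℝ} (hκ : κ * h0 = ken x) (hx : ((402653184 : ℕ) : ℝ) / S ≤ x)
    (hx' : x ≤ (((402653184 : ℕ) : ℝ) + (67108864 : ℕ)) / S)
    (H : CutB (VF κ) PP tKF tL pcF (Cut.of [[⟨0, 1, 0, 67108864⟩, ⟨1, 0, 0, 67108864⟩, ⟨2, 1, 0, 67108864⟩]]) 2 0 2 0 0 (sgb true) (sgb false) x) :
    AltB (VF κ) PP tKF tL pcF [⟨3, 0, 0, 1449551462⟩] 2 0 2 0 0 (sgb true) (sgb false) x :=
  strip_altB (m := 1449551462) true rfl hκ covF02 covF02 hx hx' c_B00pm_202_s1 H (noExt_B)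

noncomputable def cut_B00pm_202_s3 : Cut := Cut.of [[⟨3, 0, 0, 2845415833⟩], [⟨0, 1, 0, 67108864⟩, ⟨1, 0, 0, 67108864⟩, ⟨2, 1, 0, 67108864⟩]]

noncomputable def f_B00pm_202_s3 : ℕ → ℕ → ℕ → ℕ → Bool := onCell 0 536870912 0 536870912 402653184 67108864
    (rowF 0 false true false .pp 2 0 2 (qsf 0 536870912 0 536870912 0) ndF0q2 ndF0q2 pcF0 cut_B00pm_202_s3 Ext.none)

def k0_B00pm_202_s3 : ∃ t, chk3 f_B00pm_202_s3 t 1 1 1 = true :=
  ⟨(l 6), by decide +kernel⟩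

theorem c_B00pm_202_s3 : CertF 0 536870912 0 536870912 402653184 67108864 false true false .pp 2 0 2
    ndF0q2 ndF0q2 pcF0 cut_B00pm_202_s3 Ext.none :=
  certF0 (fam := false) (s1 := true) (s2 := false) (a := 2) (b := 0) (c := 2) (cn := .pp) (n1 := ndF0q2) (n2 := ndF0q2) (pc := pcF0) (cut := cut_B00pm_202_s3) (xt := Ext.none) (P1 := 0) (W1 := 536870912) (P2 := 0) (W2 := 536870912) (P3 := 402653184) (W3 := 67108864)
    rfl k0_B00pm_202_s3

theorem s_B00pm_202_s3 {κ x : ℝ} (hκ : κ * h0 = ken x) (hx : ((402653184 : ℕ) : ℝ) / S ≤ x)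
    (hx' : x ≤ (((402653184 : ℕ) : ℝ) + (67108864 : ℕ)) / S)
    (H : CutB (VF κ) PP tKF tL pcF (Cut.of [[⟨0, 1, 0, 67108864⟩, ⟨1, 0, 0, 67108864⟩, ⟨2, 1, 0, 67108864⟩]]) 2 0 2 0 0 (sgb true) (sgb false) x) :
    AltB (VF κ) PP tKF tL pcF [⟨4, 0, 0, 2845415833⟩] 2 0 2 0 0 (sgb true) (sgb false) x :=
  strip_altB (m := 2845415833) false rfl hκ covF02 covF02 hx hx' c_B00pm_202_s3 H (noExt_B)

noncomputable def cut_B00mm_001_s1 : Cut := Cut.of [[⟨4, 0, 0, 1449551462⟩]]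

noncomputable def f_B00mm_001_s1 : ℕ → ℕ → ℕ → ℕ → Bool := onCell 0 536870912 0 536870912 402653184 67108864
    (rowF 1 false false false .up 0 0 1 (qsf 0 536870912 536870912 536870912 0) ndF0q0 ndF0q1 pcF0 cut_B00mm_001_s1 Ext.none)

def k0_B00mm_001_s1 : ∃ t, chk3 f_B00mm_001_s1 t 1 1 1 = true :=
  ⟨(l 3), by decide +kernel⟩

theorem c_B00mm_001_s1 : CertF 0 536870912 536870912 536870912 402653184 67108864 false false false .up 0 0 1
    ndF0q0 ndF0q1 pcF0 cut_B00mm_001_s1 Ext.none :=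
  certF1 (fam := false) (s1 := false) (s2 := false) (a := 0) (b := 0) (c := 1) (cn := .up) (n1 := ndF0q0) (n2 := ndF0q1) (pc := pcF0) (cut := cut_B00mm_001_s1) (xt := Ext.none) (P1 := 0) (W1 := 536870912) (P2 := 536870912) (W2 := 536870912) (P3 := 402653184) (W3 := 67108864)
    rfl (fun _ => rfl) k0_B00mm_001_s1

theorem s_B00mm_001_s1 {κ x : ℝ} (hκ : κ * h0 = ken x) (hx : ((402653184 : ℕ) : ℝ) / S ≤ x)
    (hx' : x ≤ (((402653184 : ℕ) : ℝ) + (67108864 : ℕ)) / S) :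
    AltB (VF κ) PP tKF tL pcF [⟨3, 0, 0, 1449551462⟩] 0 0 1 0 0 (sgb false) (sgb false) x :=
  strip_altB (m := 1449551462) true rfl hκ covF00 covF01 hx hx' c_B00mm_001_s1 cutB_nil (noExt_B)

noncomputable def cut_B00mm_001_s3 : Cut := Cut.of [[⟨3, 0, 0, 2845415833⟩]]

noncomputable def f_B00mm_001_s3 : ℕ → ℕ → ℕ → ℕ → Bool := onCell 0 536870912 536870912 536870912 402653184 67108864
    (rowF 0 false false false .up 0 0 1 (qsf 0 536870912 536870912 536870912 0) ndF0q0 ndF0q1 pcF0 cut_B00mm_001_s3 Ext.none)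

def k0_B00mm_001_s3 : ∃ t, chk3 f_B00mm_001_s3 t 1 1 1 = true :=
  ⟨(l 6), by decide +kernel⟩

theorem c_B00mm_001_s3 : CertF 0 536870912 536870912 536870912 402653184 67108864 false false false .up 0 0 1
    ndF0q0 ndF0q1 pcF0 cut_B00mm_001_s3 Ext.none :=
  certF0 (fam := false) (s1 := false) (s2 := false) (a := 0) (b := 0) (c := 1) (cn := .up) (n1 := ndF0q0) (n2 := ndF0q1) (pc := pcF0) (cut := cut_B00mm_001_s3) (xt := Ext.none) (P1 := 0) (W1 := 536870912) (P2 := 536870912) (W2 := 536870912) (P3 := 402653184) (W3 := 67108864)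
    rfl k0_B00mm_001_s3

theorem s_B00mm_001_s3 {κ x : ℝ} (hκ : κ * h0 = ken x) (hx : ((402653184 : ℕ) : ℝ) / S ≤ x)
    (hx' : x ≤ (((402653184 : ℕ) : ℝ) + (67108864 : ℕ)) / S) :
    AltB (VF κ) PP tKF tL pcF [⟨4, 0, 0, 2845415833⟩] 0 0 1 0 0 (sgb false) (sgb false) x :=
  strip_altB (m := 2845415833) false rfl hκ covF00 covF01 hx hx' c_B00mm_001_s3 cutB_nil (noExt_B)

noncomputable def cut_B00mm_011_s1 : Cut := Cut.of [[⟨4, 0, 0, 1449551462⟩]]

noncomputable def f_B00mm_011_s1 : ℕ → ℕ → ℕ → ℕ → Bool := onCell 0 536870912 536870912 536870912 402653184 67108864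
    (rowF 1 false false false .pnn 0 1 1 (qsf 0 536870912 536870912 536870912 1) ndF0q0 ndF0q1 pcF1 cut_B00mm_011_s1 Ext.none)

def k0_B00mm_011_s1 : ∃ t, chk3 f_B00mm_011_s1 t 1 1 1 = true :=
  ⟨(l 5), by decide +kernel⟩

theorem c_B00mm_011_s1 : CertF 0 536870912 536870912 536870912 402653184 67108864 false false false .pnn 0 1 1
    ndF0q0 ndF0q1 pcF1 cut_B00mm_011_s1 Ext.none :=
  certF1 (fam := false) (s1 := false) (s2 := false) (a := 0) (b := 1) (c := 1) (cn := .pnn) (n1 := ndF0q0) (n2 := ndF0q1) (pc := pcF1) (cut := cut_B00mm_011_s1) (xt := Ext.none) (P1 := 0) (W1 := 536870912) (P2 := 536870912) (W2 := 536870912) (P3 := 402653184) (W3 := 67108864)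
    rfl (fun _ => rfl) k0_B00mm_011_s1

theorem s_B00mm_011_s1 {κ x : ℝ} (hκ : κ * h0 = ken x) (hx : ((402653184 : ℕ) : ℝ) / S ≤ x)
    (hx' : x ≤ (((402653184 : ℕ) : ℝ) + (67108864 : ℕ)) / S) :
    AltB (VF κ) PP tKF tL pcF [⟨3, 0, 0, 1449551462⟩] 0 1 1 0 0 (sgb false) (sgb false) x :=
  strip_altB (m := 1449551462) true rfl hκ covF00 covF01 hx hx' c_B00mm_011_s1 cutB_nil (noExt_B)

noncomputable def cut_B00mm_011_s3 : Cut := Cut.of [[⟨3, 0, 0, 2845415833⟩]]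

noncomputable def f_B00mm_011_s3 : ℕ → ℕ → ℕ → ℕ → Bool := onCell 0 536870912 536870912 536870912 402653184 67108864
    (rowF 0 false false false .pnn 0 1 1 (qsf 0 536870912 536870912 536870912 1) ndF0q0 ndF0q1 pcF1 cut_B00mm_011_s3 Ext.none)

def k0_B00mm_011_s3 : ∃ t, chk3 f_B00mm_011_s3 t 1 1 1 = true :=
  ⟨(l 6), by decide +kernel⟩

theorem c_B00mm_011_s3 : CertF 0 536870912 536870912 536870912 402653184 67108864 false false false .pnn 0 1 1
    ndF0q0 ndF0q1 pcF1 cut_B00mm_011_s3 Ext.none :=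
  certF0 (fam := false) (s1 := false) (s2 := false) (a := 0) (b := 1) (c := 1) (cn := .pnn) (n1 := ndF0q0) (n2 := ndF0q1) (pc := pcF1) (cut := cut_B00mm_011_s3) (xt := Ext.none) (P1 := 0) (W1 := 536870912) (P2 := 536870912) (W2 := 536870912) (P3 := 402653184) (W3 := 67108864)
    rfl k0_B00mm_011_s3

theorem s_B00mm_011_s3 {κ x : ℝ} (hκ : κ * h0 = ken x) (hx : ((402653184 : ℕ) : ℝ) / S ≤ x)
    (hx' : x ≤ (((402653184 : ℕ) : ℝ) + (67108864 : ℕ)) / S) :
    AltB (VF κ) PP tKF tL pcF [⟨4, 0, 0, 2845415833⟩] 0 1 1 0 0 (sgb false) (sgb false) x :=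
  strip_altB (m := 2845415833) false rfl hκ covF00 covF01 hx hx' c_B00mm_011_s3 cutB_nil (noExt_B)

noncomputable def cut_B00mm_012_s1 : Cut := Cut.of [[⟨4, 0, 0, 1449551462⟩]]

noncomputable def f_B00mm_012_s1 : ℕ → ℕ → ℕ → ℕ → Bool := onCell 0 536870912 0 536870912 402653184 67108864
    (rowF 0 false false false .pnp 0 1 2 (qsf 0 536870912 0 536870912 1) ndF0q0 ndF0q2 pcF1 cut_B00mm_012_s1 Ext.none)

def k0_B00mm_012_s1 : ∃ t, chk3 f_B00mm_012_s1 t 1 1 1 = true :=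
  ⟨(l 5), by decide +kernel⟩

theorem c_B00mm_012_s1 : CertF 0 536870912 0 536870912 402653184 67108864 false false false .pnp 0 1 2
    ndF0q0 ndF0q2 pcF1 cut_B00mm_012_s1 Ext.none :=
  certF0 (fam := false) (s1 := false) (s2 := false) (a := 0) (b := 1) (c := 2) (cn := .pnp) (n1 := ndF0q0) (n2 := ndF0q2) (pc := pcF1) (cut := cut_B00mm_012_s1) (xt := Ext.none) (P1 := 0) (W1 := 536870912) (P2 := 0) (W2 := 536870912) (P3 := 402653184) (W3 := 67108864)
    rfl k0_B00mm_012_s1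

theorem s_B00mm_012_s1 {κ x : ℝ} (hκ : κ * h0 = ken x) (hx : ((402653184 : ℕ) : ℝ) / S ≤ x)
    (hx' : x ≤ (((402653184 : ℕ) : ℝ) + (67108864 : ℕ)) / S) :
    AltB (VF κ) PP tKF tL pcF [⟨3, 0, 0, 1449551462⟩] 0 1 2 0 0 (sgb false) (sgb false) x :=
  strip_altB (m := 1449551462) true rfl hκ covF00 covF02 hx hx' c_B00mm_012_s1 cutB_nil (noExt_B)

noncomputable def cut_B00mm_012_s3 : Cut := Cut.of [[⟨3, 0, 0, 2845415833⟩]]

noncomputable def f_B00mm_012_s3 : ℕ → ℕ → ℕ → ℕ → Bool := onCell 0 536870912 0 536870912 402653184 67108864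
    (rowF 0 false false false .pnp 0 1 2 (qsf 0 536870912 0 536870912 1) ndF0q0 ndF0q2 pcF1 cut_B00mm_012_s3 Ext.none)

def k0_B00mm_012_s3 : ∃ t, chk3 f_B00mm_012_s3 t 1 1 1 = true :=
  ⟨(l 5), by decide +kernel⟩

theorem c_B00mm_012_s3 : CertF 0 536870912 0 536870912 402653184 67108864 false false false .pnp 0 1 2
    ndF0q0 ndF0q2 pcF1 cut_B00mm_012_s3 Ext.none :=
  certF0 (fam := false) (s1 := false) (s2 := false) (a := 0) (b := 1) (c := 2) (cn := .pnp) (n1 := ndF0q0) (n2 := ndF0q2) (pc := pcF1) (cut := cut_B00mm_012_s3) (xt := Ext.none) (P1 := 0) (W1 := 536870912) (P2 := 0) (W2 := 536870912) (P3 := 402653184) (W3 := 67108864)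
    rfl k0_B00mm_012_s3

theorem s_B00mm_012_s3 {κ x : ℝ} (hκ : κ * h0 = ken x) (hx : ((402653184 : ℕ) : ℝ) / S ≤ x)
    (hx' : x ≤ (((402653184 : ℕ) : ℝ) + (67108864 : ℕ)) / S) :
    AltB (VF κ) PP tKF tL pcF [⟨4, 0, 0, 2845415833⟩] 0 1 2 0 0 (sgb false) (sgb false) x :=
  strip_altB (m := 2845415833) false rfl hκ covF00 covF02 hx hx' c_B00mm_012_s3 cutB_nil (noExt_B)

noncomputable def cut_B00mm_022_s1 : Cut := Cut.of [[⟨4, 0, 0, 1449551462⟩]]

noncomputable def f_B00mm_022_s1 : ℕ → ℕ → ℕ → ℕ → Bool := onCell 0 536870912 0 536870912 402653184 67108864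
    (rowF 0 false false false .pp 0 2 2 (qsf 0 536870912 0 536870912 2) ndF0q0 ndF0q2 pcF2 cut_B00mm_022_s1 Ext.none)

def k0_B00mm_022_s1 : ∃ t, chk3 f_B00mm_022_s1 t 1 1 1 = true :=
  ⟨(l 5), by decide +kernel⟩

theorem c_B00mm_022_s1 : CertF 0 536870912 0 536870912 402653184 67108864 false false false .pp 0 2 2
    ndF0q0 ndF0q2 pcF2 cut_B00mm_022_s1 Ext.none :=
  certF0 (fam := false) (s1 := false) (s2 := false) (a := 0) (b := 2) (c := 2) (cn := .pp) (n1 := ndF0q0) (n2 := ndF0q2) (pc := pcF2) (cut := cut_B00mm_022_s1) (xt := Ext.none) (P1 := 0) (W1 := 536870912) (P2 := 0) (W2 := 536870912) (P3 := 402653184) (W3 := 67108864)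
    rfl k0_B00mm_022_s1

theorem s_B00mm_022_s1 {κ x : ℝ} (hκ : κ * h0 = ken x) (hx : ((402653184 : ℕ) : ℝ) / S ≤ x)
    (hx' : x ≤ (((402653184 : ℕ) : ℝ) + (67108864 : ℕ)) / S) :
    AltB (VF κ) PP tKF tL pcF [⟨3, 0, 0, 1449551462⟩] 0 2 2 0 0 (sgb false) (sgb false) x :=
  strip_altB (m := 1449551462) true rfl hκ covF00 covF02 hx hx' c_B00mm_022_s1 cutB_nil (noExt_B)

noncomputable def cut_B00mm_022_s3 : Cut := Cut.of [[⟨3, 0, 0, 2845415833⟩]]

noncomputable def f_B00mm_022_s3 : ℕ → ℕ → ℕ → ℕ → Bool := onCell 0 536870912 0 536870912 402653184 67108864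
    (rowF 0 false false false .pp 0 2 2 (qsf 0 536870912 0 536870912 2) ndF0q0 ndF0q2 pcF2 cut_B00mm_022_s3 Ext.none)

def k0_B00mm_022_s3 : ∃ t, chk3 f_B00mm_022_s3 t 1 1 1 = true :=
  ⟨(l 5), by decide +kernel⟩

theorem c_B00mm_022_s3 : CertF 0 536870912 0 536870912 402653184 67108864 false false false .pp 0 2 2
    ndF0q0 ndF0q2 pcF2 cut_B00mm_022_s3 Ext.none :=
  certF0 (fam := false) (s1 := false) (s2 := false) (a := 0) (b := 2) (c := 2) (cn := .pp) (n1 := ndF0q0) (n2 := ndF0q2) (pc := pcF2) (cut := cut_B00mm_022_s3) (xt := Ext.none) (P1 := 0) (W1 := 536870912) (P2 := 0) (W2 := 536870912) (P3 := 402653184) (W3 := 67108864)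
    rfl k0_B00mm_022_s3

theorem s_B00mm_022_s3 {κ x : ℝ} (hκ : κ * h0 = ken x) (hx : ((402653184 : ℕ) : ℝ) / S ≤ x)
    (hx' : x ≤ (((402653184 : ℕ) : ℝ) + (67108864 : ℕ)) / S) :
    AltB (VF κ) PP tKF tL pcF [⟨4, 0, 0, 2845415833⟩] 0 2 2 0 0 (sgb false) (sgb false) x :=
  strip_altB (m := 2845415833) false rfl hκ covF00 covF02 hx hx' c_B00mm_022_s3 cutB_nil (noExt_B)

noncomputable def cut_B00mm_101_s1 : Cut := Cut.of [[⟨4, 0, 0, 1449551462⟩]]

noncomputable def f_B00mm_101_s1 : ℕ → ℕ → ℕ → ℕ → Bool := onCell 536870912 536870912 536870912 536870912 402653184 67108864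
    (rowF 0 false false false .npn 1 0 1 (qsf 536870912 536870912 536870912 536870912 0) ndF0q1 ndF0q1 pcF0 cut_B00mm_101_s1 Ext.none)

def k0_B00mm_101_s1 : ∃ t, chk3 f_B00mm_101_s1 t 1 1 1 = true :=
  ⟨(l 3), by decide +kernel⟩

theorem c_B00mm_101_s1 : CertF 536870912 536870912 536870912 536870912 402653184 67108864 false false false .npn 1 0 1
    ndF0q1 ndF0q1 pcF0 cut_B00mm_101_s1 Ext.none :=
  certF0 (fam := false) (s1 := false) (s2 := false) (a := 1) (b := 0) (c := 1) (cn := .npn) (n1 := ndF0q1) (n2 := ndF0q1) (pc := pcF0) (cut := cut_B00mm_101_s1) (xt := Ext.none) (P1 := 536870912) (W1 := 536870912) (P2 := 536870912) (W2 := 536870912) (P3 := 402653184) (W3 := 67108864)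
    rfl k0_B00mm_101_s1

theorem s_B00mm_101_s1 {κ x : ℝ} (hκ : κ * h0 = ken x) (hx : ((402653184 : ℕ) : ℝ) / S ≤ x)
    (hx' : x ≤ (((402653184 : ℕ) : ℝ) + (67108864 : ℕ)) / S) :
    AltB (VF κ) PP tKF tL pcF [⟨3, 0, 0, 1449551462⟩] 1 0 1 0 0 (sgb false) (sgb false) x :=
  strip_altB (m := 1449551462) true rfl hκ covF01 covF01 hx hx' c_B00mm_101_s1 cutB_nil (noExt_B)

noncomputable def cut_B00mm_101_s3 : Cut := Cut.of [[⟨3, 0, 0, 2845415833⟩]]

noncomputable def f_B00mm_101_s3 : ℕ → ℕ → ℕ → ℕ → Bool := onCell 536870912 536870912 536870912 536870912 402653184 67108864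
    (rowF 0 false false false .npn 1 0 1 (qsf 536870912 536870912 536870912 536870912 0) ndF0q1 ndF0q1 pcF0 cut_B00mm_101_s3 Ext.none)

def k0_B00mm_101_s3 : ∃ t, chk3 f_B00mm_101_s3 t 1 1 1 = true :=
  ⟨(l 3), by decide +kernel⟩

theorem c_B00mm_101_s3 : CertF 536870912 536870912 536870912 536870912 402653184 67108864 false false false .npn 1 0 1
    ndF0q1 ndF0q1 pcF0 cut_B00mm_101_s3 Ext.none :=
  certF0 (fam := false) (s1 := false) (s2 := false) (a := 1) (b := 0) (c := 1) (cn := .npn) (n1 := ndF0q1) (n2 := ndF0q1) (pc := pcF0) (cut := cut_B00mm_101_s3) (xt := Ext.none) (P1 := 536870912) (W1 := 536870912) (P2 := 536870912) (W2 := 536870912) (P3 := 402653184) (W3 := 67108864)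
    rfl k0_B00mm_101_s3

theorem s_B00mm_101_s3 {κ x : ℝ} (hκ : κ * h0 = ken x) (hx : ((402653184 : ℕ) : ℝ) / S ≤ x)
    (hx' : x ≤ (((402653184 : ℕ) : ℝ) + (67108864 : ℕ)) / S) :
    AltB (VF κ) PP tKF tL pcF [⟨4, 0, 0, 2845415833⟩] 1 0 1 0 0 (sgb false) (sgb false) x :=
  strip_altB (m := 2845415833) false rfl hκ covF01 covF01 hx hx' c_B00mm_101_s3 cutB_nil (noExt_B)

noncomputable def cut_B00mm_102_s1 : Cut := Cut.of [[⟨4, 0, 0, 1449551462⟩]]

noncomputable def f_B00mm_102_s1 : ℕ → ℕ → ℕ → ℕ → Bool := onCell 536870912 536870912 0 536870912 402653184 67108864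
    (rowF 0 false false false .npp 1 0 2 (qsf 536870912 536870912 0 536870912 0) ndF0q1 ndF0q2 pcF0 cut_B00mm_102_s1 Ext.none)

def k0_B00mm_102_s1 : ∃ t, chk3 f_B00mm_102_s1 t 1 1 1 = true :=
  ⟨(a (l 5) (l 3)), by decide +kernel⟩

theorem c_B00mm_102_s1 : CertF 536870912 536870912 0 536870912 402653184 67108864 false false false .npp 1 0 2
    ndF0q1 ndF0q2 pcF0 cut_B00mm_102_s1 Ext.none :=
  certF0 (fam := false) (s1 := false) (s2 := false) (a := 1) (b := 0) (c := 2) (cn := .npp) (n1 := ndF0q1) (n2 := ndF0q2) (pc := pcF0) (cut := cut_B00mm_102_s1) (xt := Ext.none) (P1 := 536870912) (W1 := 536870912) (P2 := 0) (W2 := 536870912) (P3 := 402653184) (W3 := 67108864)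
    rfl k0_B00mm_102_s1

theorem s_B00mm_102_s1 {κ x : ℝ} (hκ : κ * h0 = ken x) (hx : ((402653184 : ℕ) : ℝ) / S ≤ x)
    (hx' : x ≤ (((402653184 : ℕ) : ℝ) + (67108864 : ℕ)) / S) :
    AltB (VF κ) PP tKF tL pcF [⟨3, 0, 0, 1449551462⟩] 1 0 2 0 0 (sgb false) (sgb false) x :=
  strip_altB (m := 1449551462) true rfl hκ covF01 covF02 hx hx' c_B00mm_102_s1 cutB_nil (noExt_B)

noncomputable def cut_B00mm_102_s3 : Cut := Cut.of [[⟨3, 0, 0, 2845415833⟩]]

noncomputable def f_B00mm_102_s3 : ℕ → ℕ → ℕ → ℕ → Bool := onCell 536870912 536870912 0 536870912 402653184 67108864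
    (rowF 0 false false false .npp 1 0 2 (qsf 536870912 536870912 0 536870912 0) ndF0q1 ndF0q2 pcF0 cut_B00mm_102_s3 Ext.none)

def k0_B00mm_102_s3 : ∃ t, chk3 f_B00mm_102_s3 t 1 1 1 = true :=
  ⟨(l 6), by decide +kernel⟩

theorem c_B00mm_102_s3 : CertF 536870912 536870912 0 536870912 402653184 67108864 false false false .npp 1 0 2
    ndF0q1 ndF0q2 pcF0 cut_B00mm_102_s3 Ext.none :=
  certF0 (fam := false) (s1 := false) (s2 := false) (a := 1) (b := 0) (c := 2) (cn := .npp) (n1 := ndF0q1) (n2 := ndF0q2) (pc := pcF0) (cut := cut_B00mm_102_s3) (xt := Ext.none) (P1 := 536870912) (W1 := 536870912) (P2 := 0) (W2 := 536870912) (P3 := 402653184) (W3 := 67108864)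
    rfl k0_B00mm_102_s3

theorem s_B00mm_102_s3 {κ x : ℝ} (hκ : κ * h0 = ken x) (hx : ((402653184 : ℕ) : ℝ) / S ≤ x)
    (hx' : x ≤ (((402653184 : ℕ) : ℝ) + (67108864 : ℕ)) / S) :
    AltB (VF κ) PP tKF tL pcF [⟨4, 0, 0, 2845415833⟩] 1 0 2 0 0 (sgb false) (sgb false) x :=
  strip_altB (m := 2845415833) false rfl hκ covF01 covF02 hx hx' c_B00mm_102_s3 cutB_nil (noExt_B)

noncomputable def cut_B00mm_112_s1 : Cut := Cut.of [[⟨4, 0, 0, 1449551462⟩]]

noncomputable def f_B00mm_112_s1 : ℕ → ℕ → ℕ → ℕ → Bool := onCell 536870912 536870912 0 536870912 402653184 67108864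
    (rowF 2 false false false .dn 1 1 2 (qsf 536870912 536870912 0 536870912 1) ndF0q1 ndF0q2 pcF1 cut_B00mm_112_s1 Ext.none)

def k0_B00mm_112_s1 : ∃ t, chk3 f_B00mm_112_s1 t 1 1 1 = true :=
  ⟨(l 5), by decide +kernel⟩

theorem c_B00mm_112_s1 : CertF 536870912 536870912 0 536870912 402653184 67108864 false false false .dn 1 1 2
    ndF0q1 ndF0q2 pcF1 cut_B00mm_112_s1 Ext.none :=
  certF2 (fam := false) (s1 := false) (s2 := false) (a := 1) (b := 1) (c := 2) (cn := .dn) (n1 := ndF0q1) (n2 := ndF0q2) (pc := pcF1) (cut := cut_B00mm_112_s1) (xt := Ext.none) (P1 := 536870912) (W1 := 536870912) (P2 := 0) (W2 := 536870912) (P3 := 402653184) (W3 := 67108864)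
    rfl (fun _ => rfl) k0_B00mm_112_s1

theorem s_B00mm_112_s1 {κ x : ℝ} (hκ : κ * h0 = ken x) (hx : ((402653184 : ℕ) : ℝ) / S ≤ x)
    (hx' : x ≤ (((402653184 : ℕ) : ℝ) + (67108864 : ℕ)) / S) :
    AltB (VF κ) PP tKF tL pcF [⟨3, 0, 0, 1449551462⟩] 1 1 2 0 0 (sgb false) (sgb false) x :=
  strip_altB (m := 1449551462) true rfl hκ covF01 covF02 hx hx' c_B00mm_112_s1 cutB_nil (noExt_B)

noncomputable def cut_B00mm_112_s3 : Cut := Cut.of [[⟨3, 0, 0, 2845415833⟩]]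

noncomputable def f_B00mm_112_s3 : ℕ → ℕ → ℕ → ℕ → Bool := onCell 536870912 536870912 0 536870912 402653184 67108864
    (rowF 0 false false false .dn 1 1 2 (qsf 536870912 536870912 0 536870912 1) ndF0q1 ndF0q2 pcF1 cut_B00mm_112_s3 Ext.none)

def k0_B00mm_112_s3 : ∃ t, chk3 f_B00mm_112_s3 t 1 1 1 = true :=
  ⟨(l 6), by decide +kernel⟩

theorem c_B00mm_112_s3 : CertF 536870912 536870912 0 536870912 402653184 67108864 false false false .dn 1 1 2
    ndF0q1 ndF0q2 pcF1 cut_B00mm_112_s3 Ext.none :=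
  certF0 (fam := false) (s1 := false) (s2 := false) (a := 1) (b := 1) (c := 2) (cn := .dn) (n1 := ndF0q1) (n2 := ndF0q2) (pc := pcF1) (cut := cut_B00mm_112_s3) (xt := Ext.none) (P1 := 536870912) (W1 := 536870912) (P2 := 0) (W2 := 536870912) (P3 := 402653184) (W3 := 67108864)
    rfl k0_B00mm_112_s3

theorem s_B00mm_112_s3 {κ x : ℝ} (hκ : κ * h0 = ken x) (hx : ((402653184 : ℕ) : ℝ) / S ≤ x)
    (hx' : x ≤ (((402653184 : ℕ) : ℝ) + (67108864 : ℕ)) / S) :
    AltB (VF κ) PP tKF tL pcF [⟨4, 0, 0, 2845415833⟩] 1 1 2 0 0 (sgb false) (sgb false) x :=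
  strip_altB (m := 2845415833) false rfl hκ covF01 covF02 hx hx' c_B00mm_112_s3 cutB_nil (noExt_B)

noncomputable def cut_B00mm_202_s1 : Cut := Cut.of [[⟨4, 0, 0, 1449551462⟩]]

noncomputable def f_B00mm_202_s1 : ℕ → ℕ → ℕ → ℕ → Bool := onCell 0 536870912 0 536870912 402653184 67108864
    (rowF 0 false false false .pp 2 0 2 (qsf 0 536870912 0 536870912 0) ndF0q2 ndF0q2 pcF0 cut_B00mm_202_s1 Ext.none)

def k0_B00mm_202_s1 : ∃ t, chk3 f_B00mm_202_s1 t 1 1 1 = true :=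
  ⟨(l 3), by decide +kernel⟩

theorem c_B00mm_202_s1 : CertF 0 536870912 0 536870912 402653184 67108864 false false false .pp 2 0 2
    ndF0q2 ndF0q2 pcF0 cut_B00mm_202_s1 Ext.none :=
  certF0 (fam := false) (s1 := false) (s2 := false) (a := 2) (b := 0) (c := 2) (cn := .pp) (n1 := ndF0q2) (n2 := ndF0q2) (pc := pcF0) (cut := cut_B00mm_202_s1) (xt := Ext.none) (P1 := 0) (W1 := 536870912) (P2 := 0) (W2 := 536870912) (P3 := 402653184) (W3 := 67108864)
    rfl k0_B00mm_202_s1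

theorem s_B00mm_202_s1 {κ x : ℝ} (hκ : κ * h0 = ken x) (hx : ((402653184 : ℕ) : ℝ) / S ≤ x)
    (hx' : x ≤ (((402653184 : ℕ) : ℝ) + (67108864 : ℕ)) / S) :
    AltB (VF κ) PP tKF tL pcF [⟨3, 0, 0, 1449551462⟩] 2 0 2 0 0 (sgb false) (sgb false) x :=
  strip_altB (m := 1449551462) true rfl hκ covF02 covF02 hx hx' c_B00mm_202_s1 cutB_nil (noExt_B)

noncomputable def cut_B00mm_202_s3 : Cut := Cut.of [[⟨3, 0, 0, 2845415833⟩]]

noncomputable def f_B00mm_202_s3 : ℕ → ℕ → ℕ → ℕ → Bool := onCell 0 536870912 0 536870912 402653184 67108864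
    (rowF 0 false false false .pp 2 0 2 (qsf 0 536870912 0 536870912 0) ndF0q2 ndF0q2 pcF0 cut_B00mm_202_s3 Ext.none)

def k0_B00mm_202_s3 : ∃ t, chk3 f_B00mm_202_s3 t 1 1 1 = true :=
  ⟨(l 3), by decide +kernel⟩

theorem c_B00mm_202_s3 : CertF 0 536870912 0 536870912 402653184 67108864 false false false .pp 2 0 2
    ndF0q2 ndF0q2 pcF0 cut_B00mm_202_s3 Ext.none :=
  certF0 (fam := false) (s1 := false) (s2 := false) (a := 2) (b := 0) (c := 2) (cn := .pp) (n1 := ndF0q2) (n2 := ndF0q2) (pc := pcF0) (cut := cut_B00mm_202_s3) (xt := Ext.none) (P1 := 0) (W1 := 536870912) (P2 := 0) (W2 := 536870912) (P3 := 402653184) (W3 := 67108864)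
    rfl k0_B00mm_202_s3

theorem s_B00mm_202_s3 {κ x : ℝ} (hκ : κ * h0 = ken x) (hx : ((402653184 : ℕ) : ℝ) / S ≤ x)
    (hx' : x ≤ (((402653184 : ℕ) : ℝ) + (67108864 : ℕ)) / S) :
    AltB (VF κ) PP tKF tL pcF [⟨4, 0, 0, 2845415833⟩] 2 0 2 0 0 (sgb false) (sgb false) x :=
  strip_altB (m := 2845415833) false rfl hκ covF02 covF02 hx hx' c_B00mm_202_s3 cutB_nil (noExt_B)

noncomputable def cut_B04pp_001_s1 : Cut := Cut.of [[⟨4, 0, 0, 1449551462⟩]]

noncomputable def f_B04pp_001_s1 : ℕ → ℕ → ℕ → ℕ → Bool := onCell 0 536870912 0 536870912 402653184 67108864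
    (rowF 1 false true true .up 0 0 1 (qsf 0 536870912 536870912 536870912 0) ndF0q0 ndF4q1 pcF0 cut_B04pp_001_s1 Ext.none)

def k0_B04pp_001_s1 : ∃ t, chk3 f_B04pp_001_s1 t 1 1 1 = true :=
  ⟨(l 3), by decide +kernel⟩

theorem c_B04pp_001_s1 : CertF 0 536870912 536870912 536870912 402653184 67108864 false true true .up 0 0 1
    ndF0q0 ndF4q1 pcF0 cut_B04pp_001_s1 Ext.none :=
  certF1 (fam := false) (s1 := true) (s2 := true) (a := 0) (b := 0) (c := 1) (cn := .up) (n1 := ndF0q0) (n2 := ndF4q1) (pc := pcF0) (cut := cut_B04pp_001_s1) (xt := Ext.none) (P1 := 0) (W1 := 536870912) (P2 := 536870912) (W2 := 536870912) (P3 := 402653184) (W3 := 67108864)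
    rfl (fun _ => rfl) k0_B04pp_001_s1

theorem s_B04pp_001_s1 {κ x : ℝ} (hκ : κ * h0 = ken x) (hx : ((402653184 : ℕ) : ℝ) / S ≤ x)
    (hx' : x ≤ (((402653184 : ℕ) : ℝ) + (67108864 : ℕ)) / S) :
    AltB (VF κ) PP tKF tL pcF [⟨3, 0, 0, 1449551462⟩] 0 0 1 0 4 (sgb true) (sgb true) x :=
  strip_altB (m := 1449551462) true rfl hκ covF00 covF41 hx hx' c_B04pp_001_s1 cutB_nil (noExt_B)

noncomputable def cut_B04pp_011_s1 : Cut := Cut.of [[⟨4, 0, 0, 1449551462⟩], [⟨0, 0, 0, 67108864⟩, ⟨1, 1, 0, 67108864⟩, ⟨2, 1, 0, 67108864⟩]]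

noncomputable def f_B04pp_011_s1 : ℕ → ℕ → ℕ → ℕ → Bool := onCell 0 536870912 536870912 536870912 402653184 67108864
    (rowF 1 false true true .pnn 0 1 1 (qsf 0 536870912 536870912 536870912 1) ndF0q0 ndF4q1 pcF1 cut_B04pp_011_s1 Ext.none)

def k0_B04pp_011_s1 : ∃ t, chk3 f_B04pp_011_s1 t 1 1 1 = true :=
  ⟨(b (l 3) (a (b (l 3) (a (b (l 3) (a (b (l 3) (a (l 14) (l 3))) (l 3))) (l 3))) (l 3))), by decide +kernel⟩

theorem c_B04pp_011_s1 : CertF 0 536870912 536870912 536870912 402653184 67108864 false true true .pnn 0 1 1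
    ndF0q0 ndF4q1 pcF1 cut_B04pp_011_s1 Ext.none :=
  certF1 (fam := false) (s1 := true) (s2 := true) (a := 0) (b := 1) (c := 1) (cn := .pnn) (n1 := ndF0q0) (n2 := ndF4q1) (pc := pcF1) (cut := cut_B04pp_011_s1) (xt := Ext.none) (P1 := 0) (W1 := 536870912) (P2 := 536870912) (W2 := 536870912) (P3 := 402653184) (W3 := 67108864)
    rfl (fun _ => rfl) k0_B04pp_011_s1

theorem s_B04pp_011_s1 {κ x : ℝ} (hκ : κ * h0 = ken x) (hx : ((402653184 : ℕ) : ℝ) / S ≤ x)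
    (hx' : x ≤ (((402653184 : ℕ) : ℝ) + (67108864 : ℕ)) / S)
    (H : CutB (VF κ) PP tKF tL pcF (Cut.of [[⟨0, 0, 0, 67108864⟩, ⟨1, 1, 0, 67108864⟩, ⟨2, 1, 0, 67108864⟩]]) 0 1 1 0 4 (sgb true) (sgb true) x) :
    AltB (VF κ) PP tKF tL pcF [⟨3, 0, 0, 1449551462⟩] 0 1 1 0 4 (sgb true) (sgb true) x :=
  strip_altB (m := 1449551462) true rfl hκ covF00 covF41 hx hx' c_B04pp_011_s1 H (noExt_B)

noncomputable def cut_B04pp_012_s1 : Cut := Cut.of [[⟨4, 0, 0, 1449551462⟩], [⟨0, 0, 0, 67108864⟩, ⟨1, 1, 0, 67108864⟩, ⟨2, 1, 0, 67108864⟩]]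

noncomputable def f_B04pp_012_s1 : ℕ → ℕ → ℕ → ℕ → Bool := onCell 0 536870912 536870912 536870912 402653184 67108864
    (rowF 1 false true true .pnp 0 1 2 (qsf 0 536870912 1073741824 536870912 1) ndF0q0 ndF4q2 pcF1 cut_B04pp_012_s1 Ext.none)

def k0_B04pp_012_s1 : ∃ t, chk3 f_B04pp_012_s1 t 1 1 1 = true :=
  ⟨(b (l 3) (a (b (l 3) (a (a (a (b (l 1) (b (l 3) (l 14))) (l 3)) (l 3)) (l 3))) (l 3))), by decide +kernel⟩

theorem c_B04pp_012_s1 : CertF 0 536870912 1073741824 536870912 402653184 67108864 false true true .pnp 0 1 2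
    ndF0q0 ndF4q2 pcF1 cut_B04pp_012_s1 Ext.none :=
  certF1 (fam := false) (s1 := true) (s2 := true) (a := 0) (b := 1) (c := 2) (cn := .pnp) (n1 := ndF0q0) (n2 := ndF4q2) (pc := pcF1) (cut := cut_B04pp_012_s1) (xt := Ext.none) (P1 := 0) (W1 := 536870912) (P2 := 1073741824) (W2 := 536870912) (P3 := 402653184) (W3 := 67108864)
    rfl (fun _ => rfl) k0_B04pp_012_s1

theorem s_B04pp_012_s1 {κ x : ℝ} (hκ : κ * h0 = ken x) (hx : ((402653184 : ℕ) : ℝ) / S ≤ x)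
    (hx' : x ≤ (((402653184 : ℕ) : ℝ) + (67108864 : ℕ)) / S)
    (H : CutB (VF κ) PP tKF tL pcF (Cut.of [[⟨0, 0, 0, 67108864⟩, ⟨1, 1, 0, 67108864⟩, ⟨2, 1, 0, 67108864⟩]]) 0 1 2 0 4 (sgb true) (sgb true) x) :
    AltB (VF κ) PP tKF tL pcF [⟨3, 0, 0, 1449551462⟩] 0 1 2 0 4 (sgb true) (sgb true) x :=
  strip_altB (m := 1449551462) true rfl hκ covF00 covF42 hx hx' c_B04pp_012_s1 H (noExt_B)

noncomputable def cut_B04pp_022_s1 : Cut := Cut.of [[⟨4, 0, 0, 1449551462⟩], [⟨0, 0, 0, 67108864⟩, ⟨1, 1, 0, 67108864⟩, ⟨2, 1, 0, 67108864⟩]]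

noncomputable def xt_B04pp_022_s1 : Ext := strExt dd false true true .u0 .s2 .u2 .pp 0 2 2 rfl rfl gf2 vv ndF0q0 ndF4q2

noncomputable def f_B04pp_022_s1 : ℕ → ℕ → ℕ → ℕ → Bool := onCell 0 536870912 1073741824 536870912 402653184 67108864
    (rowF 1 false true true .pp 0 2 2 (qsf 0 536870912 1073741824 536870912 2) ndF0q0 ndF4q2 pcF2 cut_B04pp_022_s1 xt_B04pp_022_s1)

def k0_B04pp_022_s1 : ∃ t, chk3 f_B04pp_022_s1 t 8 8 1 = true :=
  ⟨(b (a (b (l 14) (a (l 14) (a (l 14) (a (l 14) (b (l 14) (b (l 14) (l 16758800))))))) (a (a (b (l 14) (a (b (l 14) (a (l 526369663) (l 525846399))) (b (a (l 14) (l 525798783)) (a (l 525591423) (l 525604991))))) (b (l 3) (a (b (b (l 526611583) (l 526376575)) (a (l 525618303) (l 525631615))) (b (c (l 527260799) (l 527089279)) (a (l 525644927) (l 525657983)))))) (b (l 3) (a (b (a (b (l 3) (l 525629311)) (l 3)) (a (l 527012479) (l 526234751))) (b (l 3) (a (l 525725311) (l 525752703)))))))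 (a (a (b (a (l 14) (b (l 14) (l 16727104))) (a (b (l 16683888) (l 16669448)) (a (l 16724456) (l 16728328)))) (b (b (b (a (l 14) (l 16749648)) (a (l 16724584) (l 16731952))) (a (l 16734720) (c (l 16742632) (l 16741592)))) (a (b (l 16699328) (l 16684976)) (b (l 16706880) (l 16692536))))) (b (a (a (b (b (a (l 16744616) (l 16748208)) (l 16749680)) (c (l 16749824) (l 16748936))) (a (b (b (l 16762248) (l 16744536)) (l 16754744)) (b (l 526899839) (l 16758256)))) (a (b (a (l 525856639) (l 525887103)) (b (l 16756560) (l 16738936))) (b (a (l 525917055) (l 525947007)) (b (l 16763376) (l 16756240))))) (a (b (a (l 16735104) (l 16742264)) (a (l 16700000) (l 16707112))) (a (b (l 16749240) (l 16714176)) (b (l 16756072) (l 16742008))))))), by decide +kernel⟩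

def k1_B04pp_022_s1 : ∃ t, chk3 f_B04pp_022_s1 t 9 8 1 = true :=
  ⟨(a (b (b (l 3) (a (a (b (l 3) (a (l 525779839) (l 3))) (l 3)) (l 3))) (a (b (a (b (a (l 525976959) (l 526006911)) (l 527791231)) (b (l 526843775) (l 526249343))) (a (b (l 527408511) (l 16748728)) (b (l 526406527) (l 16755304)))) (b (a (b (l 526101119) (l 526317439)) (b (l 3) (l 526385279))) (a (b (l 526477439) (l 16761744)) (l 528216703))))) (b (l 3) (a (b (b (l 3) (a (l 526452863) (l 3))) (a (l 527751039) (l 527017087))) (b (l 3) (a (l 526820479) (l 526893183)))))), by decide +kernel⟩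

def k2_B04pp_022_s1 : ∃ t, chk3 f_B04pp_022_s1 t 4 9 1 = true :=
  ⟨(a (b (b (a (a (a (l 16648976) (l 16656960)) (a (l 16664808) (l 16714464))) (a (a (l 16722048) (l 16729528)) (a (l 16726144) (l 16733096)))) (a (a (a (l 16623096) (l 16631344)) (l 16685384)) (a (l 16701112) (b (l 16680496) (l 16668400))))) (a (b (a (l 16601168) (l 16617832)) (a (l 16574240) (l 16591120))) (b (a (l 16633984) (l 16649632)) (a (l 16607488) (l 16623360))))) (b (b (a (a (b (l 16738760) (l 16705600)) (b (a (l 16727512) (l 16754760)) (l 16739352))) (a (a (l 528790799) (l 528622351)) (b (l 528011135) (l 527518335)))) (a (a (b (l 16694160) (l 16682816)) (l 16732720)) (a (a (l 16752328) (l 16758168)) (a (l 16742864) (l 16748384))))) (a (b (a (l 16706752) (l 16720560)) (a (l 16638744) (l 16653584))) (b (a (l 16733064) (l 16744336)) (b (l 16721840) (l 16751936)))))), by decide +kernel⟩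

def k3_B04pp_022_s1 : ∃ t, chk3 f_B04pp_022_s1 t 5 4 1 = true :=
  ⟨(b (a (b (l 3) (a (b (l 3) (a (b (l 3) (l 527075967)) (l 3))) (l 3))) (l 3)) (b (a (a (b (a (b (l 527328895) (l 527665791)) (b (l 527502463) (l 527845759))) (a (l 529236495) (l 528618111))) (b (a (l 528672639) (l 528336255)) (a (l 528552831) (l 528766335)))) (b (l 3) (a (a (l 528991103) (l 529229439)) (b (l 3) (l 529745023))))) (a (a (b (a (l 16755072) (l 16754896)) (a (l 16691416) (l 16785648))) (b (a (l 528999551) (l 529207935)) (a (l 16753576) (l 16762912)))) (a (b (a (l 529423231) (l 529648511)) (b (l 529975679) (l 16760112))) (b (l 529999487) (b (l 530146943) (l 530174335))))))), by decide +kernel⟩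

def k4_B04pp_022_s1 : ∃ t, chk3 f_B04pp_022_s1 t 4 10 1 = true :=
  ⟨(b (b (a (a (a (l 16545648) (l 16562464)) (l 16670480)) (a (l 16701112) (a (l 16639408) (l 16737872)))) (a (a (a (l 16595368) (l 16611368)) (a (l 16626824) (l 16641728))) (a (a (l 16656224) (l 16670352)) (a (l 16684304) (l 16698120))))) (a (a (l 16558816) (l 16589264)) (a (l 16618144) (l 16646504)))), by decide +kernel⟩

def k5_B04pp_022_s1 : ∃ t, chk3 f_B04pp_022_s1 t 5 80 1 = true :=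
  ⟨(a (a (l 16679896) (l 16784184)) (a (l 16801848) (l 530174335))), by decide +kernel⟩

def k6_B04pp_022_s1 : ∃ t, chk3 f_B04pp_022_s1 t 5 162 2 = true :=
  ⟨(b (c (b (a (a (l 16675712) (l 16695896)) (a (l 16713112) (l 16728664))) (a (a (l 16674152) (l 16694648)) (a (l 16711856) (l 16727416)))) (b (a (a (l 16674520) (l 16695048)) (a (l 16712552) (l 16728264))) (a (a (l 16672944) (l 16693784)) (a (l 16711280) (l 16727008))))) (c (b (a (a (l 16672504) (l 16693408)) (a (l 16710608) (l 16726184))) (a (a (l 16670768) (l 16692176)) (a (l 16709376) (l 16724960)))) (b (a (a (l 16671296) (l 16692528)) (a (l 16710024) (l 16725768))) (a (a (l 16669560) (l 16691280)) (a (l 16708768) (l 16724528)))))), by decide +kernel⟩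

def k7_B04pp_022_s1 : ∃ t, chk3 f_B04pp_022_s1 t 5 162 3 = true :=
  ⟨(c (b (b (c (a (a (l 16673528) (l 16694328)) (a (l 16712056) (l 16727920))) (b (a (a (l 16673264) (l 16694144)) (a (l 16712032) (l 16727992))) (a (a (l 16672480) (l 16693496)) (a (l 16711384) (l 16727352))))) (c (a (a (l 16671952) (l 16693048)) (a (l 16710776) (l 16726648))) (b (a (a (l 16671688) (l 16692856)) (a (l 16710736) (l 16726712))) (a (a (l 16670880) (l 16692208)) (a (l 16710096) (l 16726080)))))) (b (a (a (l 16669952) (l 16691512)) (a (l 16709320) (l 16725264))) (a (a (l 16668208) (l 16690248)) (a (l 16708056) (l 16724008))))) (b (b (c (b (a (a (l 16672528) (l 16693600)) (a (l 16711648) (l 16727712))) (c (a (a (l 16671928) (l 16693088)) (a (l 16711096) (l 16727144))) (a (a (l 16671552) (l 16692808)) (a (l 16710896) (l 16727000))))) (b (a (a (l 16671752) (l 16693024)) (a (l 16711232) (l 16727416))) (c (b (a (a (l 16671384) (l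 16692680)) (a (l 16710856) (l 16727016))) (a (a (l 16670992) (l 16692352)) (a (l 16710528) (l 16726688)))) (b (a (a (l 16670992) (l 16692384)) (a (l 16710640) (l 16726856))) (a (a (l 16670592) (l 16692056)) (a (l 16710312) (l 16726536))))))) (c (b (a (a (l 16670952) (l 16692296)) (a (l 16710344) (l 16726432))) (a (a (l 16670136) (l 16691648)) (a (l 16709696) (l 16725792)))) (b (a (a (l 16670168) (l 16691712)) (a (l 16709928) (l 16726128))) (a (a (l 16669360) (l 16691056)) (a (l 16709280) (l 16725480)))))) (b (a (a (l 16668456) (l 16690376)) (a (l 16708512) (l 16724672))) (a (a (l 16666712) (l 16689088)) (a (l 16707232) (l 16723408)))))), by decide +kernel⟩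

def k8_B04pp_022_s1 : ∃ t, chk3 f_B04pp_022_s1 t 5 163 1 = true :=
  ⟨(c (c (a (a (l 16665784) (l 16688744)) (a (l 16706272) (l 16721880))) (a (a (l 16664608) (l 16687816)) (a (l 16705632) (l 16721416)))) (c (a (a (l 16663280) (l 16686752)) (a (l 16704872) (l 16720864))) (a (a (l 16661816) (l 16685560)) (a (l 16704008) (l 16720216))))), by decide +kernel⟩

def k9_B04pp_022_s1 : ∃ t, chk3 f_B04pp_022_s1 t 5 41 1 = true :=
  ⟨(b (a (a (l 16650192) (l 16760880)) (a (l 16781560) (l 16798152))) (c (b (a (l 16732416) (a (l 16689272) (l 16708608))) (a (a (l 16619672) (l 16646944)) (a (b (l 16678672) (l 16668848)) (b (l 16703256) (l 16696200))))) (b (a (l 16730808) (a (l 16687384) (l 16706848))) (a (a (l 16618800) (l 16646080)) (a (b (l 16677248) (l 16667976)) (b (l 16701448) (l 16694648))))))), by decide +kernel⟩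

def k10_B04pp_022_s1 : ∃ t, chk3 f_B04pp_022_s1 t 5 21 1 = true :=
  ⟨(a (a (l 16675120) (l 16704400)) (a (l 16734248) (l 16742504))), by decide +kernel⟩

def k11_B04pp_022_s1 : ∃ t, chk3 f_B04pp_022_s1 t 2 11 1 = true :=
  ⟨(a (a (a (b (l 16511288) (l 16383816)) (b (l 16544024) (l 16420136))) (a (b (l 16492408) (l 16456864)) (b (l 16525000) (l 16494944)))) (a (b (a (l 16558816) (l 16594280)) (a (l 16535312) (l 16575232))) (b (a (l 16629064) (l 16656880)) (l 16718600)))), by decide +kernel⟩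

def k12_B04pp_022_s1 : ∃ t, chk3 f_B04pp_022_s1 t 2 3 1 = true :=
  ⟨(b (a (b (a (a (b (l 16345552) (l 16313832)) (l 16455352)) (a (l 16501184) (l 16548600))) (a (l 6) (b (l 16509456) (l 6)))) (b (a (b (l 16618536) (l 16587944)) (b (l 16684720) (l 16738672))) (b (a (l 16671176) (l 16792976)) (l 6)))) (l 6)), by decide +kernel⟩

def k13_B04pp_022_s1 : ∃ t, chk3 f_B04pp_022_s1 t 3 1 1 = true :=
  ⟨(b (b (b (l 3) (a (b (l 3) (a (b (a (l 530518655) (l 3)) (a (b (l 530620031) (l 530580607)) (b (l 531106431) (l 531015295)))) (b (l 3) (a (b (l 3) (l 531563647)) (l 3))))) (l 3))) (b (a (b (b (a (b (a (l 531064959) (l 532304143)) (a (a (l 16734368) (l 16741000)) (l 532615695))) (a (b (a (l 531128959) (l 532025615)) (a (l 531368319) (l 531704703))) (b (l 532457599) (l 533069183)))) (a (a (b (b (l 16730816) (l 16726848)) (b (l 16722920) (b (l 16720256) (l 16717312)))) (b (b (l 16785664) (l 16824064)) (b (l 16820512)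 (b (l 16734208) (l 16732784))))) (b (a (b (l 531767167) (l 533053967)) (b (l 533499007) (l 533782655))) (b (b (a (l 16750808) (l 16785888)) (a (l 16749824) (l 16764248))) (a (b (l 16769904) (l 16748232)) (a (b (l 16760672) (l 16760176)) (l 2))))))) (b (a (a (l 16709240) (l 16726280)) (a (l 16830176) (l 16772864))) (a (a (l 16697560) (l 16720824)) (a (l 16747344) (l 2))))) (b (b (b (b (l 3) (l 2)) (l 2)) (l 2)) (l 2))) (a (b (a (a (l 16691528) (l 16730536)) (a (l 16757248) (l 2))) (a (l 16739416) (l 2))) (l 2)))) (a (b (b (a (b (l 16775176) (l 2)) (l 2)) (l 2)) (l 2)) (l 2))), by decide +kernel⟩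

theorem t14_B04pp_022_s1 : ∃ t, chk3 f_B04pp_022_s1 t 5 162 1 = true := ex3_c k6_B04pp_022_s1 k7_B04pp_022_s1

theorem t15_B04pp_022_s1 : ∃ t, chk3 f_B04pp_022_s1 t 5 81 1 = true := ex3_b t14_B04pp_022_s1 k8_B04pp_022_s1

theorem t16_B04pp_022_s1 : ∃ t, chk3 f_B04pp_022_s1 t 5 40 1 = true := ex3_b k5_B04pp_022_s1 t15_B04pp_022_s1

theorem t17_B04pp_022_s1 : ∃ t, chk3 f_B04pp_022_s1 t 5 20 1 = true := ex3_b t16_B04pp_022_s1 k9_B04pp_022_s1

theorem t18_B04pp_022_s1 : ∃ t, chk3 f_B04pp_022_s1 t 5 10 1 = true := ex3_b t17_B04pp_022_s1 k10_B04pp_022_s1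

theorem t19_B04pp_022_s1 : ∃ t, chk3 f_B04pp_022_s1 t 2 10 1 = true := ex3_a k4_B04pp_022_s1 t18_B04pp_022_s1

theorem t20_B04pp_022_s1 : ∃ t, chk3 f_B04pp_022_s1 t 2 5 1 = true := ex3_b t19_B04pp_022_s1 k11_B04pp_022_s1

theorem t21_B04pp_022_s1 : ∃ t, chk3 f_B04pp_022_s1 t 4 8 1 = true := ex3_a k0_B04pp_022_s1 k1_B04pp_022_s1

theorem t22_B04pp_022_s1 : ∃ t, chk3 f_B04pp_022_s1 t 4 4 1 = true := ex3_b t21_B04pp_022_s1 k2_B04pp_022_s1

theorem t23_B04pp_022_s1 : ∃ t, chk3 f_B04pp_022_s1 t 2 4 1 = true := ex3_a t22_B04pp_022_s1 k3_B04pp_022_s1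

theorem t24_B04pp_022_s1 : ∃ t, chk3 f_B04pp_022_s1 t 2 2 1 = true := ex3_b t23_B04pp_022_s1 t20_B04pp_022_s1

theorem t25_B04pp_022_s1 : ∃ t, chk3 f_B04pp_022_s1 t 2 1 1 = true := ex3_b t24_B04pp_022_s1 k12_B04pp_022_s1

theorem t26_B04pp_022_s1 : ∃ t, chk3 f_B04pp_022_s1 t 1 1 1 = true := ex3_a t25_B04pp_022_s1 k13_B04pp_022_s1

theorem c_B04pp_022_s1 : CertF 0 536870912 1073741824 536870912 402653184 67108864 false true true .pp 0 2 2
    ndF0q0 ndF4q2 pcF2 cut_B04pp_022_s1 xt_B04pp_022_s1 :=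
  certF1 (fam := false) (s1 := true) (s2 := true) (a := 0) (b := 2) (c := 2) (cn := .pp) (n1 := ndF0q0) (n2 := ndF4q2) (pc := pcF2) (cut := cut_B04pp_022_s1) (xt := xt_B04pp_022_s1) (P1 := 0) (W1 := 536870912) (P2 := 1073741824) (W2 := 536870912) (P3 := 402653184) (W3 := 67108864)
    rfl (fun _ => rfl) t26_B04pp_022_s1

theorem s_B04pp_022_s1 {κ x : ℝ} (hκ : κ * h0 = ken x) (hx : ((402653184 : ℕ) : ℝ) / S ≤ x)
    (hx' : x ≤ (((402653184 : ℕ) : ℝ) + (67108864 : ℕ)) / S)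
    (H : CutB (VF κ) PP tKF tL pcF (Cut.of [[⟨0, 0, 0, 67108864⟩, ⟨1, 1, 0, 67108864⟩, ⟨2, 1, 0, 67108864⟩]]) 0 2 2 0 4 (sgb true) (sgb true) x) :
    AltB (VF κ) PP tKF tL pcF [⟨3, 0, 0, 1449551462⟩] 0 2 2 0 4 (sgb true) (sgb true) x :=
  strip_altB (m := 1449551462) true rfl hκ covF00 covF42 hx hx' c_B04pp_022_s1 H ((okx hx hx').extB (T := tt) (sideF hx hx') hκ rfl rfl (.O 0 true) (.N 2 true) rfl)

noncomputable def cut_B04pp_023_s1 : Cut := Cut.of [[⟨4, 0, 0, 1449551462⟩]]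

noncomputable def xt_B04pp_023_s1 : Ext := strExt dd false true true .u0 .s2 .u2 .up 0 2 3 rfl rfl gf2 vv ndF0q0 ndF4q3

noncomputable def f_B04pp_023_s1 : ℕ → ℕ → ℕ → ℕ → Bool := onCell 1073741824 536870912 0 1230186008 402653184 67108864
    (rowF 2 false true true .up 0 2 3 (qsf 0 536870912 0 1230186008 2) ndF0q0 ndF4q3 pcF2 cut_B04pp_023_s1 xt_B04pp_023_s1)

def k0_B04pp_023_s1 : ∃ t, chk3 f_B04pp_023_s1 t 1 2 1 = true :=
  ⟨(a (l 2) (a (l 2) (l 6))), by decide +kernel⟩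

def k1_B04pp_023_s1 : ∃ t, chk3 f_B04pp_023_s1 t 1 6 1 = true :=
  ⟨(a (a (l 2) (a (l 2) (b (l 2) (a (l 2) (b (l 2) (l 16828800)))))) (a (b (a (l 2) (b (l 16906728) (l 16908224))) (a (b (l 16780728) (l 16776752)) (b (l 16907400) (l 16905112)))) (l 6))), by decide +kernel⟩

def k2_B04pp_023_s1 : ∃ t, chk3 f_B04pp_023_s1 t 4 7 1 = true :=
  ⟨(b (l 2) (l 3)), by decide +kernel⟩

def k3_B04pp_023_s1 : ∃ t, chk3 f_B04pp_023_s1 t 40 7 1 = true :=
  ⟨(b (l 3) (b (l 3) (a (b (l 3) (a (l 3) (l 534092159))) (b (b (l 535899007) (l 535288703)) (l 534186111))))), by decide +kernel⟩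

def k4_B04pp_023_s1 : ∃ t, chk3 f_B04pp_023_s1 t 41 14 1 = true :=
  ⟨(a (l 3) (a (b (l 2) (b (l 2) (a (b (l 3) (a (l 3) (l 537846655))) (b (a (l 538195071) (b (l 2) (l 539041151))) (a (l 537882751) (l 537926783)))))) (b (l 2) (a (b (l 2) (b (a (b (l 539912319) (a (l 538195583) (l 16777896))) (a (b (l 18891151879) (l 16778056)) (a (a (l 538180991) (l 538170495)) (l 538166943)))) (a (b (l 538035327) (l 537875583)) (a (b (l 16778144) (l 16778200)) (a (l 537921919) (l 16778328)))))) (b (l 2) (b (b (l 16778480) (l 16778560)) (l 16778608))))))), by decide +kernel⟩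

def k5_B04pp_023_s1 : ∃ t, chk3 f_B04pp_023_s1 t 41 15 1 = true :=
  ⟨(b (a (b (a (l 3) (b (a (l 3) (a (l 3) (b (l 3) (l 537468287)))) (a (l 3) (l 537250943)))) (a (l 536675711) (b (l 536908671) (l 536504959)))) (b (a (a (b (b (l 537621887) (a (l 537475455) (l 537486463))) (b (a (l 537339263) (l 537345919)) (a (l 537190015) (l 16777480)))) (b (b (a (l 537654143) (l 537688703)) (a (l 537502847) (l 16777808))) (a (l 537281663) (l 537295231)))) (b (a (a (b (l 16778040) (l 16778016)) (a (l 16783424) (a (l 16778256) (l 16778296)))) (l 16778512)) (a (a (l 16783120) (a (l 16777968) (l 16778032))) (l 16778192)))) (a (a (b (a (l 536937343) (l 536945791)) (l 536544639)) (b (a (l 16777336) (l 16777368)) (b (l 16776808) (l 16776264)))) (b (a (a (l 16777408) (l 16777456)) (l 16777536)) (a (a (l 16776456) (l 16776408)) (l 16776352)))))) (a (b (a (l 535677055) (b (l 536016767) (l 535432831))) (a (l 534545279) (b (l 534751871)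 (l 533939071)))) (b (a (a (b (l 16775464) (l 16773336)) (b (l 16775088) (l 16772688))) (c (a (a (b (l 16778128) (l 16776440)) (a (l 16777432) (l 16777456))) (l 16777528)) (a (a (b (l 16771592) (l 16768072)) (a (l 16780072) (l 16779824))) (l 16768760)))) (b (a (a (l 16769992) (l 16769016)) (a (l 16778544) (l 16767192))) (a (a (l 16764976) (l 16763624)) (a (l 16762288) (l 16761048))))))), by decide +kernel⟩

def k6_B04pp_023_s1 : ∃ t, chk3 f_B04pp_023_s1 t 21 7 1 = true :=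
  ⟨(b (a (b (l 2) (b (b (l 2) (l 165993784567)) (a (b (l 10838077063) (l 16779960)) (l 16782824)))) (b (b (l 2) (l 16790344)) (b (l 16789384) (l 16787280)))) (b (b (a (b (a (l 16779576) (l 16781544)) (l 16779648)) (l 16784216)) (a (b (l 16778328) (l 16776352)) (l 16779248))) (b (a (b (l 16773456) (l 16769360)) (l 16770040)) (b (l 16761032) (l 16751840))))), by decide +kernel⟩

def k7_B04pp_023_s1 : ∃ t, chk3 f_B04pp_023_s1 t 11 7 1 = true :=
  ⟨(b (b (a (b (l 16805440) (l 16803584)) (l 16782512)) (a (b (l 16801576) (l 16797736)) (l 16879776))) (a (b (b (l 16792304) (l 16784088)) (b (l 16770240) (l 16747192))) (b (b (l 16805800) (l 16793816)) (b (l 16774032) (l 16742536))))), by decide +kernel⟩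

def k8_B04pp_023_s1 : ∃ t, chk3 f_B04pp_023_s1 t 3 7 1 = true :=
  ⟨(a (b (b (a (a (l 16845944) (l 16867288)) (l 16901072)) (a (a (l 16835912) (l 16856496)) (l 16887992))) (b (a (a (l 16814624) (l 16830240)) (l 16856016)) (a (b (l 16785320) (l 16742192)) (l 16781016)))) (l 6)), by decide +kernel⟩

theorem t9_B04pp_023_s1 : ∃ t, chk3 f_B04pp_023_s1 t 41 7 1 = true := ex3_b k4_B04pp_023_s1 k5_B04pp_023_s1

theorem t10_B04pp_023_s1 : ∃ t, chk3 f_B04pp_023_s1 t 20 7 1 = true := ex3_a k3_B04pp_023_s1 t9_B04pp_023_s1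

theorem t11_B04pp_023_s1 : ∃ t, chk3 f_B04pp_023_s1 t 10 7 1 = true := ex3_a t10_B04pp_023_s1 k6_B04pp_023_s1

theorem t12_B04pp_023_s1 : ∃ t, chk3 f_B04pp_023_s1 t 5 7 1 = true := ex3_a t11_B04pp_023_s1 k7_B04pp_023_s1

theorem t13_B04pp_023_s1 : ∃ t, chk3 f_B04pp_023_s1 t 2 7 1 = true := ex3_a k2_B04pp_023_s1 t12_B04pp_023_s1

theorem t14_B04pp_023_s1 : ∃ t, chk3 f_B04pp_023_s1 t 1 7 1 = true := ex3_a t13_B04pp_023_s1 k8_B04pp_023_s1

theorem t15_B04pp_023_s1 : ∃ t, chk3 f_B04pp_023_s1 t 1 3 1 = true := ex3_b k1_B04pp_023_s1 t14_B04pp_023_s1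

theorem t16_B04pp_023_s1 : ∃ t, chk3 f_B04pp_023_s1 t 1 1 1 = true := ex3_b k0_B04pp_023_s1 t15_B04pp_023_s1

theorem c_B04pp_023_s1 : CertF 0 536870912 0 1230186008 402653184 67108864 false true true .up 0 2 3
    ndF0q0 ndF4q3 pcF2 cut_B04pp_023_s1 xt_B04pp_023_s1 :=
  certF2 (fam := false) (s1 := true) (s2 := true) (a := 0) (b := 2) (c := 3) (cn := .up) (n1 := ndF0q0) (n2 := ndF4q3) (pc := pcF2) (cut := cut_B04pp_023_s1) (xt := xt_B04pp_023_s1) (P1 := 0) (W1 := 536870912) (P2 := 0) (W2 := 1230186008) (P3 := 402653184) (W3 := 67108864)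
    rfl (fun _ => rfl) t16_B04pp_023_s1

theorem s_B04pp_023_s1 {κ x : ℝ} (hκ : κ * h0 = ken x) (hx : ((402653184 : ℕ) : ℝ) / S ≤ x)
    (hx' : x ≤ (((402653184 : ℕ) : ℝ) + (67108864 : ℕ)) / S) :
    AltB (VF κ) PP tKF tL pcF [⟨3, 0, 0, 1449551462⟩] 0 2 3 0 4 (sgb true) (sgb true) x :=
  strip_altB (m := 1449551462) true rfl hκ covF00 covF43 hx hx' c_B04pp_023_s1 cutB_nil ((okx hx hx').extB (T := tt) (sideF hx hx') hκ rfl rfl (.O 0 true) (.N 3 true) rfl)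

noncomputable def cut_B04pp_033_s1 : Cut := Cut.of [[⟨4, 0, 0, 1449551462⟩]]

noncomputable def f_B04pp_033_s1 : ℕ → ℕ → ℕ → ℕ → Bool := onCell 1610612736 536870912 0 1230186008 402653184 67108864
    (rowF 2 false true true .pnn 0 3 3 (qsf 0 536870912 0 1230186008 3) ndF0q0 ndF4q3 pcF3 cut_B04pp_033_s1 Ext.none)

def k0_B04pp_033_s1 : ∃ t, chk3 f_B04pp_033_s1 t 1 1 1 = true :=
  ⟨(b (l 6) (l 6)), by decide +kernel⟩

theorem c_B04pp_033_s1 : CertF 0 536870912 0 1230186008 402653184 67108864 false true true .pnn 0 3 3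
    ndF0q0 ndF4q3 pcF3 cut_B04pp_033_s1 Ext.none :=
  certF2 (fam := false) (s1 := true) (s2 := true) (a := 0) (b := 3) (c := 3) (cn := .pnn) (n1 := ndF0q0) (n2 := ndF4q3) (pc := pcF3) (cut := cut_B04pp_033_s1) (xt := Ext.none) (P1 := 0) (W1 := 536870912) (P2 := 0) (W2 := 1230186008) (P3 := 402653184) (W3 := 67108864)
    rfl (fun _ => rfl) k0_B04pp_033_s1

theorem s_B04pp_033_s1 {κ x : ℝ} (hκ : κ * h0 = ken x) (hx : ((402653184 : ℕ) : ℝ) / S ≤ x)
    (hx' : x ≤ (((402653184 : ℕ) : ℝ) + (67108864 : ℕ)) / S) :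
    AltB (VF κ) PP tKF tL pcF [⟨3, 0, 0, 1449551462⟩] 0 3 3 0 4 (sgb true) (sgb true) x :=
  strip_altB (m := 1449551462) true rfl hκ covF00 covF43 hx hx' c_B04pp_033_s1 cutB_nil (noExt_B)

noncomputable def cut_B04pp_101_s1 : Cut := Cut.of [[⟨4, 0, 0, 1449551462⟩]]

noncomputable def f_B04pp_101_s1 : ℕ → ℕ → ℕ → ℕ → Bool := onCell 536870912 536870912 536870912 536870912 402653184 67108864
    (rowF 0 false true true .npn 1 0 1 (qsf 536870912 536870912 536870912 536870912 0) ndF0q1 ndF4q1 pcF0 cut_B04pp_101_s1 Ext.none)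

def k0_B04pp_101_s1 : ∃ t, chk3 f_B04pp_101_s1 t 1 1 1 = true :=
  ⟨(a (l 3) (l 5)), by decide +kernel⟩

theorem c_B04pp_101_s1 : CertF 536870912 536870912 536870912 536870912 402653184 67108864 false true true .npn 1 0 1
    ndF0q1 ndF4q1 pcF0 cut_B04pp_101_s1 Ext.none :=
  certF0 (fam := false) (s1 := true) (s2 := true) (a := 1) (b := 0) (c := 1) (cn := .npn) (n1 := ndF0q1) (n2 := ndF4q1) (pc := pcF0) (cut := cut_B04pp_101_s1) (xt := Ext.none) (P1 := 536870912) (W1 := 536870912) (P2 := 536870912) (W2 := 536870912) (P3 := 402653184) (W3 := 67108864)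
    rfl k0_B04pp_101_s1

theorem s_B04pp_101_s1 {κ x : ℝ} (hκ : κ * h0 = ken x) (hx : ((402653184 : ℕ) : ℝ) / S ≤ x)
    (hx' : x ≤ (((402653184 : ℕ) : ℝ) + (67108864 : ℕ)) / S) :
    AltB (VF κ) PP tKF tL pcF [⟨3, 0, 0, 1449551462⟩] 1 0 1 0 4 (sgb true) (sgb true) x :=
  strip_altB (m := 1449551462) true rfl hκ covF01 covF41 hx hx' c_B04pp_101_s1 cutB_nil (noExt_B)

noncomputable def cut_B04pp_102_s1 : Cut := Cut.of [[⟨4, 0, 0, 1449551462⟩]]

noncomputable def f_B04pp_102_s1 : ℕ → ℕ → ℕ → ℕ → Bool := onCell 536870912 536870912 1073741824 536870912 402653184 67108864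
    (rowF 0 false true true .npp 1 0 2 (qsf 536870912 536870912 1073741824 536870912 0) ndF0q1 ndF4q2 pcF0 cut_B04pp_102_s1 Ext.none)

def k0_B04pp_102_s1 : ∃ t, chk3 f_B04pp_102_s1 t 1 1 1 = true :=
  ⟨(a (l 3) (b (l 5) (l 3))), by decide +kernel⟩

theorem c_B04pp_102_s1 : CertF 536870912 536870912 1073741824 536870912 402653184 67108864 false true true .npp 1 0 2
    ndF0q1 ndF4q2 pcF0 cut_B04pp_102_s1 Ext.none :=
  certF0 (fam := false) (s1 := true) (s2 := true) (a := 1) (b := 0) (c := 2) (cn := .npp) (n1 := ndF0q1) (n2 := ndF4q2) (pc := pcF0) (cut := cut_B04pp_102_s1) (xt := Ext.none) (P1 := 536870912) (W1 := 536870912) (P2 := 1073741824) (W2 := 536870912) (P3 := 402653184) (W3 := 67108864)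
    rfl k0_B04pp_102_s1

theorem s_B04pp_102_s1 {κ x : ℝ} (hκ : κ * h0 = ken x) (hx : ((402653184 : ℕ) : ℝ) / S ≤ x)
    (hx' : x ≤ (((402653184 : ℕ) : ℝ) + (67108864 : ℕ)) / S) :
    AltB (VF κ) PP tKF tL pcF [⟨3, 0, 0, 1449551462⟩] 1 0 2 0 4 (sgb true) (sgb true) x :=
  strip_altB (m := 1449551462) true rfl hκ covF01 covF42 hx hx' c_B04pp_102_s1 cutB_nil (noExt_B)

noncomputable def cut_B04pp_112_s1 : Cut := Cut.of [[⟨4, 0, 0, 1449551462⟩]]

noncomputable def f_B04pp_112_s1 : ℕ → ℕ → ℕ → ℕ → Bool := onCell 536870912 536870912 1073741824 536870912 402653184 67108864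
    (rowF 0 false true true .dn 1 1 2 (qsf 536870912 536870912 1073741824 536870912 1) ndF0q1 ndF4q2 pcF1 cut_B04pp_112_s1 Ext.none)

def k0_B04pp_112_s1 : ∃ t, chk3 f_B04pp_112_s1 t 1 1 1 = true :=
  ⟨(a (l 3) (b (l 5) (l 3))), by decide +kernel⟩

theorem c_B04pp_112_s1 : CertF 536870912 536870912 1073741824 536870912 402653184 67108864 false true true .dn 1 1 2
    ndF0q1 ndF4q2 pcF1 cut_B04pp_112_s1 Ext.none :=
  certF0 (fam := false) (s1 := true) (s2 := true) (a := 1) (b := 1) (c := 2) (cn := .dn) (n1 := ndF0q1) (n2 := ndF4q2) (pc := pcF1) (cut := cut_B04pp_112_s1) (xt := Ext.none) (P1 := 536870912) (W1 := 536870912) (P2 := 1073741824) (W2 := 536870912) (P3 := 402653184) (W3 := 67108864)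
    rfl k0_B04pp_112_s1

theorem s_B04pp_112_s1 {κ x : ℝ} (hκ : κ * h0 = ken x) (hx : ((402653184 : ℕ) : ℝ) / S ≤ x)
    (hx' : x ≤ (((402653184 : ℕ) : ℝ) + (67108864 : ℕ)) / S) :
    AltB (VF κ) PP tKF tL pcF [⟨3, 0, 0, 1449551462⟩] 1 1 2 0 4 (sgb true) (sgb true) x :=
  strip_altB (m := 1449551462) true rfl hκ covF01 covF42 hx hx' c_B04pp_112_s1 cutB_nil (noExt_B)

noncomputable def cut_B04pp_113_s1 : Cut := Cut.of [[⟨4, 0, 0, 1449551462⟩], [⟨0, 1, 0, 67108864⟩, ⟨1, 1, 0, 67108864⟩, ⟨2, 2, 0, 16777216⟩]]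

noncomputable def f_B04pp_113_s1 : ℕ → ℕ → ℕ → ℕ → Bool := onCell 536870912 536870912 0 1230186008 402653184 67108864
    (rowF 2 false true true .nn 1 1 3 (qsf 536870912 536870912 0 1230186008 1) ndF0q1 ndF4q3 pcF1 cut_B04pp_113_s1 Ext.none)

def k0_B04pp_113_s1 : ∃ t, chk3 f_B04pp_113_s1 t 1 1 1 = true :=
  ⟨(b (a (l 2) (a (l 2) (b (a (l 2) (a (l 2) (b (l 14) (l 3)))) (l 3)))) (b (a (a (l 2) (b (l 2) (a (l 2) (l 3)))) (a (l 3) (l 3))) (a (a (b (l 2) (l 3)) (l 3)) (l 3)))), by decide +kernel⟩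

theorem c_B04pp_113_s1 : CertF 536870912 536870912 0 1230186008 402653184 67108864 false true true .nn 1 1 3
    ndF0q1 ndF4q3 pcF1 cut_B04pp_113_s1 Ext.none :=
  certF2 (fam := false) (s1 := true) (s2 := true) (a := 1) (b := 1) (c := 3) (cn := .nn) (n1 := ndF0q1) (n2 := ndF4q3) (pc := pcF1) (cut := cut_B04pp_113_s1) (xt := Ext.none) (P1 := 536870912) (W1 := 536870912) (P2 := 0) (W2 := 1230186008) (P3 := 402653184) (W3 := 67108864)
    rfl (fun _ => rfl) k0_B04pp_113_s1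

theorem s_B04pp_113_s1 {κ x : ℝ} (hκ : κ * h0 = ken x) (hx : ((402653184 : ℕ) : ℝ) / S ≤ x)
    (hx' : x ≤ (((402653184 : ℕ) : ℝ) + (67108864 : ℕ)) / S)
    (H : CutB (VF κ) PP tKF tL pcF (Cut.of [[⟨0, 1, 0, 67108864⟩, ⟨1, 1, 0, 67108864⟩, ⟨2, 2, 0, 16777216⟩]]) 1 1 3 0 4 (sgb true) (sgb true) x) :
    AltB (VF κ) PP tKF tL pcF [⟨3, 0, 0, 1449551462⟩] 1 1 3 0 4 (sgb true) (sgb true) x :=
  strip_altB (m := 1449551462) true rfl hκ covF01 covF43 hx hx' c_B04pp_113_s1 H (noExt_B)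

noncomputable def cut_B04pp_123_s1 : Cut := Cut.of [[⟨4, 0, 0, 1449551462⟩], [⟨0, 1, 0, 67108864⟩, ⟨1, 1, 0, 67108864⟩, ⟨2, 2, 0, 16777216⟩]]

noncomputable def xt_B04pp_123_s1 : Ext := strExt dd false true true .u0 .s2 .u2 .npn 1 2 3 rfl rfl gf2 vv ndF0q1 ndF4q3

noncomputable def f_B04pp_123_s1 : ℕ → ℕ → ℕ → ℕ → Bool := onCell 1073741824 536870912 0 1230186008 402653184 67108864
    (rowF 2 false true true .npn 1 2 3 (qsf 536870912 536870912 0 1230186008 2) ndF0q1 ndF4q3 pcF2 cut_B04pp_123_s1 xt_B04pp_123_s1)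

def k0_B04pp_123_s1 : ∃ t, chk3 f_B04pp_123_s1 t 1 2 1 = true :=
  ⟨(b (a (a (a (b (a (l 14) (a (l 14) (a (l 14) (b (l 16791072) (a (l 16786192) (l 16787640)))))) (a (l 3) (b (a (l 14) (b (a (l 537593231) (b (l 16780944) (l 537607567))) (l 537561231))) (l 3)))) (b (a (b (l 16795160) (l 16793144)) (l 16799408)) (a (b (a (b (a (l 16783144) (l 16786880)) (a (l 537675151) (l 16783016))) (b (l 16791496) (l 16789008))) (a (l 538801295) (b (a (l 16783352) (l 16787552)) (l 538026127)))) (b (l 16798200) (a (b (l 16793328) (l 16789856)) (l 16798232)))))) (a (b (l 17231456) (a (b (l 16807888) (l 16799512)) (l 16814328))) (b (l 6) (l 16836760)))) (a (l 6) (l 6))) (a (a (a (l 3) (a (b (b (a (l 3) (l 538050703)) (l 3)) (l 3)) (a (b (b (l 538258319) (l 539400335)) (l 3)) (b (b (b (l 16794960) (l 16791192)) (l 540081951)) (b (a (l 538524559) (l 538569615)) (a (l 3) (l 538654239))))))) (a (a (a (b (b (l 16800584) (a (l 16792520)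 (l 16797720))) (b (a (l 538630943) (b (l 16791456) (l 16787352))) (a (b (l 538675855) (l 538744719)) (l 538854175)))) (a (b (l 16887160) (b (b (l 16798088) (l 16793712)) (b (l 539470367) (a (l 16784424) (l 16787584))))) (b (l 16801928) (a (b (l 16800400) (c (l 16836752) (l 16832696))) (b (a (l 16801712) (l 16801480)) (a (l 16795352) (l 16796992))))))) (b (l 16811376) (a (b (l 16807416) (l 16803872)) (l 16902576)))) (b (l 16850056) (a (l 17000040) (l 16850000))))) (a (a (b (l 16866536) (l 17040448)) (l 6)) (l 6)))), by decide +kernel⟩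

def k1_B04pp_123_s1 : ∃ t, chk3 f_B04pp_123_s1 t 4 6 1 = true :=
  ⟨(l 3), by decide +kernel⟩

def k2_B04pp_123_s1 : ∃ t, chk3 f_B04pp_123_s1 t 40 6 1 = true :=
  ⟨(b (b (a (l 3) (b (l 538905999) (l 538952591))) (l 3)) (l 3)), by decide +kernel⟩

def k3_B04pp_123_s1 : ∃ t, chk3 f_B04pp_123_s1 t 82 6 1 = true :=
  ⟨(b (b (a (l 540355359) (b (l 539091087) (l 539161375))) (b (a (l 539107983) (l 539177759)) (a (l 3) (b (l 539172751) (a (l 3) (a (l 3) (l 539159439))))))) (l 3)), by decide +kernel⟩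

def k4_B04pp_123_s1 : ∃ t, chk3 f_B04pp_123_s1 t 83 12 1 = true :=
  ⟨(b (b (a (a (l 16786616) (l 16788160)) (a (l 16789696) (l 16791376))) (a (a (l 16783472) (l 16784952)) (a (l 16817864) (l 16788008)))) (b (a (a (b (l 16781304) (l 539204127)) (a (l 16781736) (l 16782424))) (a (a (l 16783112) (l 16783840)) (l 16784992))) (a (a (b (l 539186463) (b (l 539159583) (l 539173775))) (b (a (l 16779888) (l 16780552)) (a (l 539145615) (l 16779512)))) (a (a (b (l 16781216) (l 16780152)) (a (l 16791704) (l 16792072))) (l 16782520))))), by decide +kernel⟩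

def k5_B04pp_123_s1 : ∃ t, chk3 f_B04pp_123_s1 t 166 13 1 = true :=
  ⟨(b (b (a (a (l 539219087) (l 539203983)) (a (l 539165071) (b (l 539118991) (l 539080335)))) (a (l 3) (b (a (l 3) (b (l 539019663) (l 538979983))) (l 3)))) (l 3)), by decide +kernel⟩

def k6_B04pp_123_s1 : ∃ t, chk3 f_B04pp_123_s1 t 334 13 1 = true :=
  ⟨(a (b (b (b (l 539082895) (b (l 16783880) (l 539812495))) (b (l 539143567) (l 539192463))) (b (b (l 539206031) (l 3)) (l 3))) (a (b (b (b (l 16779784) (l 16779016)) (b (l 539238543) (l 539248527))) (b (b (l 539174543) (b (l 539011727) (l 3))) (l 3))) (a (a (b (b (b (l 16780024) (l 16779256)) (b (l 16778592) (l 539249807))) (b (b (l 539108751) (l 538904207)) (l 3))) (a (b (b (b (l 16780096) (l 16779328)) (b (l 16778664) (l 539245711))) (b (b (l 539078287) (l 538895503)) (l 3))) (a (b (b (b (l 16780136) (l 16779368)) (b (l 16778696) (l 539242383))) (b (b (l 539065743) (l 538893455)) (l 3)))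 (b (b (b (l 16780160) (l 16779392)) (b (l 16778720) (l 539240079))) (b (b (l 539059855) (l 538892687)) (l 3)))))) (b (b (b (l 16780264) (l 16779504)) (b (l 16778824) (l 539228303))) (b (b (l 539038351) (l 538893199)) (l 538814543)))))), by decide +kernel⟩

def k7_B04pp_123_s1 : ∃ t, chk3 f_B04pp_123_s1 t 335 13 1 = true :=
  ⟨(a (a (b (b (b (l 16780552) (l 16779792)) (b (l 16779096) (l 16778424))) (b (b (b (l 16777992) (l 16777776)) (a (l 538894735) (b (l 16777672) (l 16777528)))) (l 538815279))) (a (a (b (b (l 16790904) (b (l 16779320) (l 16778624))) (b (b (l 538997151) (b (l 16777784) (l 16777632))) (b (l 538844463) (l 538786351)))) (a (b (b (l 16790976) (b (l 16779384) (l 16778680))) (b (b (l 16778128) (b (l 16777832) (l 16777688))) (b (b (l 16777568) (l 16777480)) (b (l 16777408) (l 538770735))))) (a (b (b (l 16791008) (b (l 16779416) (l 16778704))) (b (b (l 16778160) (b (l 16777864) (l 16777712))) (b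 (b (l 16777592) (l 16777504)) (b (l 16777432) (l 16777392))))) (b (b (l 16791032) (b (l 16779440) (l 16778728))) (b (b (l 16778176) (b (l 16777880) (l 16777736))) (b (b (l 16777616) (l 16777520)) (b (l 16777448) (l 16777408)))))))) (b (b (l 16791136) (b (l 16779536) (l 16778816))) (b (b (l 16778264) (b (l 16777968) (l 16777816))) (b (b (l 16777696) (l 16777600)) (b (l 16777528) (l 16777480))))))) (b (b (b (l 16781488) (l 16780736)) (b (l 16779960) (l 16779208))) (b (b (l 16778648) (b (l 16778336) (l 16778176))) (l 538818399)))), by decide +kernel⟩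

def k8_B04pp_123_s1 : ∃ t, chk3 f_B04pp_123_s1 t 21 6 1 = true :=
  ⟨(b (a (b (l 16796104) (b (l 16791184) (l 16788744))) (b (l 16806856) (l 16801136))) (b (a (b (b (l 16787368) (l 16786480)) (a (b (l 16782920) (l 16782064)) (l 16787664))) (b (l 16797720) (l 16795424))) (b (a (a (a (b (l 16780160) (l 16779728)) (l 16782360)) (l 16786008)) (l 16793344)) (a (a (l 538828639) (l 16785008)) (l 16792048))))), by decide +kernel⟩

def k9_B04pp_123_s1 : ∃ t, chk3 f_B04pp_123_s1 t 11 6 1 = true :=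
  ⟨(b (a (b (l 16822888) (l 16817000)) (b (l 16843136) (l 16838544))) (a (b (a (l 16807184) (l 16817704)) (a (l 16802432) (l 16812592))) (b (l 16833096) (l 16828816)))), by decide +kernel⟩

def k10_B04pp_123_s1 : ∃ t, chk3 f_B04pp_123_s1 t 3 6 1 = true :=
  ⟨(a (b (a (b (l 16871976) (l 16868536)) (b (l 16906744) (l 16908336))) (a (b (a (l 16854920) (l 16875384)) (a (l 16849936) (l 16872360))) (b (l 16907720) (l 1)))) (l 6)), by decide +kernel⟩

def k11_B04pp_123_s1 : ∃ t, chk3 f_B04pp_123_s1 t 4 7 1 = true :=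
  ⟨(b (l 3) (l 3)), by decide +kernel⟩

def k12_B04pp_123_s1 : ∃ t, chk3 f_B04pp_123_s1 t 40 7 1 = true :=
  ⟨(b (l 3) (b (l 3) (l 1))), by decide +kernel⟩

def k13_B04pp_123_s1 : ∃ t, chk3 f_B04pp_123_s1 t 82 14 1 = true :=
  ⟨(l 3), by decide +kernel⟩

def k14_B04pp_123_s1 : ∃ t, chk3 f_B04pp_123_s1 t 166 14 1 = true :=
  ⟨(b (l 3) (b (a (l 3) (b (l 3) (a (l 3) (a (l 3) (l 538482047))))) (b (a (l 3) (a (l 538195071) (b (a (l 538368895) (l 538358143)) (l 539041151)))) (l 1)))), by decide +kernel⟩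

def k15_B04pp_123_s1 : ∃ t, chk3 f_B04pp_123_s1 t 167 28 1 = true :=
  ⟨(a (b (l 3) (b (l 538543679) (a (l 3) (a (b (l 3) (l 538464383)) (a (a (l 538444159) (l 539518847)) (l 538446207)))))) (a (a (b (l 538680111) (b (l 538549807) (b (b (l 16777432) (l 16777488)) (c (l 16777704) (l 16777432))))) (a (a (b (b (l 538719023) (l 538641199)) (b (l 538551087) (b (l 16777600) (l 16777704)))) (a (b (b (b (l 538736943) (l 538700847)) (b (l 538661935) (l 16777416))) (b (b (l 16777472) (l 16777552)) (b (l 16777640) (l 16777744)))) (a (b (b (b (l 16777368) (b (l 16777368) (l 16777376))) (b (l 16777392) (l 16777440))) (b (b (l 16777496) (l 16777576)) (b (l 16777664) (l 16777768)))) (b (b (b (l 16777384) (l 16777392)) (b (l 16777408) (l 16777456))) (b (b (l 16777512) (l 16777584)) (b (l 16777672) (l 16777784))))))) (b (b (b (l 16777464) (l 16777464)) (b (l 16777480) (l 16777520))) (b (b (l 16777576) (l 16777648)) (b (l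 16777736) (l 16777840)))))) (b (l 538684255) (b (l 538554975) (b (l 16778016) (l 16778112)))))), by decide +kernel⟩

def k16_B04pp_123_s1 : ∃ t, chk3 f_B04pp_123_s1 t 167 29 1 = true :=
  ⟨(a (a (b (b (l 538510719) (l 538422655)) (b (b (l 539912319) (a (l 538195583) (l 1))) (l 1))) (a (b (b (l 538432639) (l 538355071)) (b (b (l 538257023) (l 1)) (l 1))) (a (a (b (b (l 538400127) (l 538324095)) (b (l 538180991) (l 1))) (a (b (b (l 538390911) (l 538314623)) (b (l 538173311) (l 1))) (a (b (b (l 538386559) (l 538309759)) (b (l 538169215) (l 1))) (b (b (l 538383999) (l 538306687)) (b (l 538166655) (l 1)))))) (b (b (l 538364799) (b (l 16777824) (l 16777976))) (b (l 538166943) (l 1)))))) (a (a (b (b (b (l 16777688) (l 16777824)) (b (l 16777960) (l 16778112))) (b (l 538145183) (l 1))) (a (a (b (b (l 538369439) (l 538271903)) (b (l 16783640) (l 1))) (a (b (b (b (l 16777864) (l 16777984)) (b (l 16778120) (l 16778256)))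 (b (l 16778424) (l 1))) (a (b (b (b (l 16777880) (l 16778008)) (b (l 16778136) (l 16778272))) (b (l 16778440) (l 1))) (b (b (b (l 16777896) (l 16778016)) (b (l 16778152) (l 16778280))) (b (l 16778448) (l 1)))))) (b (b (b (l 16777952) (l 16778080)) (b (l 16778200) (l 16778328))) (b (l 16778488) (l 1))))) (b (b (b (l 16778224) (l 16778328)) (b (l 16778448) (l 16778560))) (b (l 16778688) (l 1))))), by decide +kernel⟩

def k17_B04pp_123_s1 : ∃ t, chk3 f_B04pp_123_s1 t 41 15 1 = true :=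
  ⟨(l 1), by decide +kernel⟩

def k18_B04pp_123_s1 : ∃ t, chk3 f_B04pp_123_s1 t 21 7 1 = true :=
  ⟨(b (b (b (l 538736991) (b (l 538626911) (a (a (b (l 16780088) (l 16780128)) (l 16783920)) (l 16790128)))) (a (a (a (b (b (l 16779344) (l 16776872)) (b (l 16779528) (l 1))) (b (b (l 16781096) (l 16781112)) (l 1))) (b (l 16783816) (l 1))) (b (l 16789400) (l 1)))) (l 1)), by decide +kernel⟩

def k19_B04pp_123_s1 : ∃ t, chk3 f_B04pp_123_s1 t 11 7 1 = true :=
  ⟨(b (b (a (b (l 16805448) (l 16803616)) (l 67142471191)) (l 1)) (l 1)), by decide +kernel⟩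

def k20_B04pp_123_s1 : ∃ t, chk3 f_B04pp_123_s1 t 3 7 1 = true :=
  ⟨(l 1), by decide +kernel⟩

theorem t21_B04pp_123_s1 : ∃ t, chk3 f_B04pp_123_s1 t 167 14 1 = true := ex3_b k15_B04pp_123_s1 k16_B04pp_123_s1

theorem t22_B04pp_123_s1 : ∃ t, chk3 f_B04pp_123_s1 t 83 14 1 = true := ex3_a k14_B04pp_123_s1 t21_B04pp_123_s1

theorem t23_B04pp_123_s1 : ∃ t, chk3 f_B04pp_123_s1 t 41 14 1 = true := ex3_a k13_B04pp_123_s1 t22_B04pp_123_s1

theorem t24_B04pp_123_s1 : ∃ t, chk3 f_B04pp_123_s1 t 41 7 1 = true := ex3_b t23_B04pp_123_s1 k17_B04pp_123_s1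

theorem t25_B04pp_123_s1 : ∃ t, chk3 f_B04pp_123_s1 t 20 7 1 = true := ex3_a k12_B04pp_123_s1 t24_B04pp_123_s1

theorem t26_B04pp_123_s1 : ∃ t, chk3 f_B04pp_123_s1 t 10 7 1 = true := ex3_a t25_B04pp_123_s1 k18_B04pp_123_s1

theorem t27_B04pp_123_s1 : ∃ t, chk3 f_B04pp_123_s1 t 5 7 1 = true := ex3_a t26_B04pp_123_s1 k19_B04pp_123_s1

theorem t28_B04pp_123_s1 : ∃ t, chk3 f_B04pp_123_s1 t 2 7 1 = true := ex3_a k11_B04pp_123_s1 t27_B04pp_123_s1

theorem t29_B04pp_123_s1 : ∃ t, chk3 f_B04pp_123_s1 t 1 7 1 = true := ex3_a t28_B04pp_123_s1 k20_B04pp_123_s1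

theorem t30_B04pp_123_s1 : ∃ t, chk3 f_B04pp_123_s1 t 167 13 1 = true := ex3_a k6_B04pp_123_s1 k7_B04pp_123_s1

theorem t31_B04pp_123_s1 : ∃ t, chk3 f_B04pp_123_s1 t 83 13 1 = true := ex3_a k5_B04pp_123_s1 t30_B04pp_123_s1

theorem t32_B04pp_123_s1 : ∃ t, chk3 f_B04pp_123_s1 t 83 6 1 = true := ex3_b k4_B04pp_123_s1 t31_B04pp_123_s1

theorem t33_B04pp_123_s1 : ∃ t, chk3 f_B04pp_123_s1 t 41 6 1 = true := ex3_a k3_B04pp_123_s1 t32_B04pp_123_s1

theorem t34_B04pp_123_s1 : ∃ t, chk3 f_B04pp_123_s1 t 20 6 1 = true := ex3_a k2_B04pp_123_s1 t33_B04pp_123_s1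

theorem t35_B04pp_123_s1 : ∃ t, chk3 f_B04pp_123_s1 t 10 6 1 = true := ex3_a t34_B04pp_123_s1 k8_B04pp_123_s1

theorem t36_B04pp_123_s1 : ∃ t, chk3 f_B04pp_123_s1 t 5 6 1 = true := ex3_a t35_B04pp_123_s1 k9_B04pp_123_s1

theorem t37_B04pp_123_s1 : ∃ t, chk3 f_B04pp_123_s1 t 2 6 1 = true := ex3_a k1_B04pp_123_s1 t36_B04pp_123_s1

theorem t38_B04pp_123_s1 : ∃ t, chk3 f_B04pp_123_s1 t 1 6 1 = true := ex3_a t37_B04pp_123_s1 k10_B04pp_123_s1

theorem t39_B04pp_123_s1 : ∃ t, chk3 f_B04pp_123_s1 t 1 3 1 = true := ex3_b t38_B04pp_123_s1 t29_B04pp_123_s1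

theorem t40_B04pp_123_s1 : ∃ t, chk3 f_B04pp_123_s1 t 1 1 1 = true := ex3_b k0_B04pp_123_s1 t39_B04pp_123_s1

theorem c_B04pp_123_s1 : CertF 536870912 536870912 0 1230186008 402653184 67108864 false true true .npn 1 2 3
    ndF0q1 ndF4q3 pcF2 cut_B04pp_123_s1 xt_B04pp_123_s1 :=
  certF2 (fam := false) (s1 := true) (s2 := true) (a := 1) (b := 2) (c := 3) (cn := .npn) (n1 := ndF0q1) (n2 := ndF4q3) (pc := pcF2) (cut := cut_B04pp_123_s1) (xt := xt_B04pp_123_s1) (P1 := 536870912) (W1 := 536870912) (P2 := 0) (W2 := 1230186008) (P3 := 402653184) (W3 := 67108864)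
    rfl (fun _ => rfl) t40_B04pp_123_s1

theorem s_B04pp_123_s1 {κ x : ℝ} (hκ : κ * h0 = ken x) (hx : ((402653184 : ℕ) : ℝ) / S ≤ x)
    (hx' : x ≤ (((402653184 : ℕ) : ℝ) + (67108864 : ℕ)) / S)
    (H : CutB (VF κ) PP tKF tL pcF (Cut.of [[⟨0, 1, 0, 67108864⟩, ⟨1, 1, 0, 67108864⟩, ⟨2, 2, 0, 16777216⟩]]) 1 2 3 0 4 (sgb true) (sgb true) x) :
    AltB (VF κ) PP tKF tL pcF [⟨3, 0, 0, 1449551462⟩] 1 2 3 0 4 (sgb true) (sgb true) x :=
  strip_altB (m := 1449551462) true rfl hκ covF01 covF43 hx hx' c_B04pp_123_s1 H ((okx hx hx').extB (T := tt) (sideF hx hx') hκ rfl rfl (.O 1 true) (.N 3 true) rfl)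

noncomputable def cut_B04pp_133_s1 : Cut := Cut.of [[⟨4, 0, 0, 1449551462⟩]]

noncomputable def f_B04pp_133_s1 : ℕ → ℕ → ℕ → ℕ → Bool := onCell 1610612736 536870912 0 1230186008 402653184 67108864
    (rowF 2 false true true .dn 1 3 3 (qsf 536870912 536870912 0 1230186008 3) ndF0q1 ndF4q3 pcF3 cut_B04pp_133_s1 Ext.none)

def k0_B04pp_133_s1 : ∃ t, chk3 f_B04pp_133_s1 t 1 1 1 = true :=
  ⟨(b (l 6) (l 1)), by decide +kernel⟩

theorem c_B04pp_133_s1 : CertF 536870912 536870912 0 1230186008 402653184 67108864 false true true .dn 1 3 3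
    ndF0q1 ndF4q3 pcF3 cut_B04pp_133_s1 Ext.none :=
  certF2 (fam := false) (s1 := true) (s2 := true) (a := 1) (b := 3) (c := 3) (cn := .dn) (n1 := ndF0q1) (n2 := ndF4q3) (pc := pcF3) (cut := cut_B04pp_133_s1) (xt := Ext.none) (P1 := 536870912) (W1 := 536870912) (P2 := 0) (W2 := 1230186008) (P3 := 402653184) (W3 := 67108864)
    rfl (fun _ => rfl) k0_B04pp_133_s1

theorem s_B04pp_133_s1 {κ x : ℝ} (hκ : κ * h0 = ken x) (hx : ((402653184 : ℕ) : ℝ) / S ≤ x)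
    (hx' : x ≤ (((402653184 : ℕ) : ℝ) + (67108864 : ℕ)) / S) :
    AltB (VF κ) PP tKF tL pcF [⟨3, 0, 0, 1449551462⟩] 1 3 3 0 4 (sgb true) (sgb true) x :=
  strip_altB (m := 1449551462) true rfl hκ covF01 covF43 hx hx' c_B04pp_133_s1 cutB_nil (noExt_B)

noncomputable def cut_B04pp_202_s1 : Cut := Cut.of [[⟨4, 0, 0, 1449551462⟩]]

noncomputable def f_B04pp_202_s1 : ℕ → ℕ → ℕ → ℕ → Bool := onCell 0 536870912 1073741824 536870912 402653184 67108864
    (rowF 0 false true true .pp 2 0 2 (qsf 0 536870912 1073741824 536870912 0) ndF0q2 ndF4q2 pcF0 cut_B04pp_202_s1 Ext.none)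

def k0_B04pp_202_s1 : ∃ t, chk3 f_B04pp_202_s1 t 1 1 1 = true :=
  ⟨(l 5), by decide +kernel⟩

theorem c_B04pp_202_s1 : CertF 0 536870912 1073741824 536870912 402653184 67108864 false true true .pp 2 0 2
    ndF0q2 ndF4q2 pcF0 cut_B04pp_202_s1 Ext.none :=
  certF0 (fam := false) (s1 := true) (s2 := true) (a := 2) (b := 0) (c := 2) (cn := .pp) (n1 := ndF0q2) (n2 := ndF4q2) (pc := pcF0) (cut := cut_B04pp_202_s1) (xt := Ext.none) (P1 := 0) (W1 := 536870912) (P2 := 1073741824) (W2 := 536870912) (P3 := 402653184) (W3 := 67108864)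
    rfl k0_B04pp_202_s1

theorem s_B04pp_202_s1 {κ x : ℝ} (hκ : κ * h0 = ken x) (hx : ((402653184 : ℕ) : ℝ) / S ≤ x)
    (hx' : x ≤ (((402653184 : ℕ) : ℝ) + (67108864 : ℕ)) / S) :
    AltB (VF κ) PP tKF tL pcF [⟨3, 0, 0, 1449551462⟩] 2 0 2 0 4 (sgb true) (sgb true) x :=
  strip_altB (m := 1449551462) true rfl hκ covF02 covF42 hx hx' c_B04pp_202_s1 cutB_nil (noExt_B)

noncomputable def cut_B04pp_203_s1 : Cut := Cut.of [[⟨4, 0, 0, 1449551462⟩]]

noncomputable def f_B04pp_203_s1 : ℕ → ℕ → ℕ → ℕ → Bool := onCell 0 536870912 0 1230186008 402653184 67108864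
    (rowF 0 false true true .up 2 0 3 (qsf 0 536870912 0 1230186008 0) ndF0q2 ndF4q3 pcF0 cut_B04pp_203_s1 Ext.none)

def k0_B04pp_203_s1 : ∃ t, chk3 f_B04pp_203_s1 t 1 1 1 = true :=
  ⟨(b (l 2) (b (l 2) (a (l 5) (l 3)))), by decide +kernel⟩

theorem c_B04pp_203_s1 : CertF 0 536870912 0 1230186008 402653184 67108864 false true true .up 2 0 3
    ndF0q2 ndF4q3 pcF0 cut_B04pp_203_s1 Ext.none :=
  certF0 (fam := false) (s1 := true) (s2 := true) (a := 2) (b := 0) (c := 3) (cn := .up) (n1 := ndF0q2) (n2 := ndF4q3) (pc := pcF0) (cut := cut_B04pp_203_s1) (xt := Ext.none) (P1 := 0) (W1 := 536870912) (P2 := 0) (W2 := 1230186008) (P3 := 402653184) (W3 := 67108864)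
    rfl k0_B04pp_203_s1

theorem s_B04pp_203_s1 {κ x : ℝ} (hκ : κ * h0 = ken x) (hx : ((402653184 : ℕ) : ℝ) / S ≤ x)
    (hx' : x ≤ (((402653184 : ℕ) : ℝ) + (67108864 : ℕ)) / S) :
    AltB (VF κ) PP tKF tL pcF [⟨3, 0, 0, 1449551462⟩] 2 0 3 0 4 (sgb true) (sgb true) x :=
  strip_altB (m := 1449551462) true rfl hκ covF02 covF43 hx hx' c_B04pp_203_s1 cutB_nil (noExt_B)

noncomputable def cut_B04pp_213_s1 : Cut := Cut.of [[⟨4, 0, 0, 1449551462⟩], [⟨0, 1, 0, 67108864⟩, ⟨1, 1, 0, 67108864⟩, ⟨2, 2, 0, 16777216⟩]]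

noncomputable def f_B04pp_213_s1 : ℕ → ℕ → ℕ → ℕ → Bool := onCell 0 536870912 0 1230186008 402653184 67108864
    (rowF 0 false true true .pnn 2 1 3 (qsf 0 536870912 0 1230186008 1) ndF0q2 ndF4q3 pcF1 cut_B04pp_213_s1 Ext.none)

def k0_B04pp_213_s1 : ∃ t, chk3 f_B04pp_213_s1 t 1 1 1 = true :=
  ⟨(a (b (l 3) (l 5)) (b (b (a (l 3) (b (a (l 3) (l 14)) (l 3))) (l 3)) (b (l 3) (l 3)))), by decide +kernel⟩

theorem c_B04pp_213_s1 : CertF 0 536870912 0 1230186008 402653184 67108864 false true true .pnn 2 1 3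
    ndF0q2 ndF4q3 pcF1 cut_B04pp_213_s1 Ext.none :=
  certF0 (fam := false) (s1 := true) (s2 := true) (a := 2) (b := 1) (c := 3) (cn := .pnn) (n1 := ndF0q2) (n2 := ndF4q3) (pc := pcF1) (cut := cut_B04pp_213_s1) (xt := Ext.none) (P1 := 0) (W1 := 536870912) (P2 := 0) (W2 := 1230186008) (P3 := 402653184) (W3 := 67108864)
    rfl k0_B04pp_213_s1

theorem s_B04pp_213_s1 {κ x : ℝ} (hκ : κ * h0 = ken x) (hx : ((402653184 : ℕ) : ℝ) / S ≤ x)
    (hx' : x ≤ (((402653184 : ℕ) : ℝ) + (67108864 : ℕ)) / S)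
    (H : CutB (VF κ) PP tKF tL pcF (Cut.of [[⟨0, 1, 0, 67108864⟩, ⟨1, 1, 0, 67108864⟩, ⟨2, 2, 0, 16777216⟩]]) 2 1 3 0 4 (sgb true) (sgb true) x) :
    AltB (VF κ) PP tKF tL pcF [⟨3, 0, 0, 1449551462⟩] 2 1 3 0 4 (sgb true) (sgb true) x :=
  strip_altB (m := 1449551462) true rfl hκ covF02 covF43 hx hx' c_B04pp_213_s1 H (noExt_B)

noncomputable def cut_B04pm_001_s1 : Cut := Cut.of [[⟨4, 0, 0, 1449551462⟩]]

noncomputable def f_B04pm_001_s1 : ℕ → ℕ → ℕ → ℕ → Bool := onCell 0 536870912 536870912 536870912 402653184 67108864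
    (rowF 0 false true false .up 0 0 1 (qsf 0 536870912 536870912 536870912 0) ndF0q0 ndF4q1 pcF0 cut_B04pm_001_s1 Ext.none)

def k0_B04pm_001_s1 : ∃ t, chk3 f_B04pm_001_s1 t 1 1 1 = true :=
  ⟨(l 4), by decide +kernel⟩

theorem c_B04pm_001_s1 : CertF 0 536870912 536870912 536870912 402653184 67108864 false true false .up 0 0 1
    ndF0q0 ndF4q1 pcF0 cut_B04pm_001_s1 Ext.none :=
  certF0 (fam := false) (s1 := true) (s2 := false) (a := 0) (b := 0) (c := 1) (cn := .up) (n1 := ndF0q0) (n2 := ndF4q1) (pc := pcF0) (cut := cut_B04pm_001_s1) (xt := Ext.none) (P1 := 0) (W1 := 536870912) (P2 := 536870912) (W2 := 536870912) (P3 := 402653184) (W3 := 67108864)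
    rfl k0_B04pm_001_s1

theorem s_B04pm_001_s1 {κ x : ℝ} (hκ : κ * h0 = ken x) (hx : ((402653184 : ℕ) : ℝ) / S ≤ x)
    (hx' : x ≤ (((402653184 : ℕ) : ℝ) + (67108864 : ℕ)) / S) :
    AltB (VF κ) PP tKF tL pcF [⟨3, 0, 0, 1449551462⟩] 0 0 1 0 4 (sgb true) (sgb false) x :=
  strip_altB (m := 1449551462) true rfl hκ covF00 covF41 hx hx' c_B04pm_001_s1 cutB_nil (noExt_B)

noncomputable def cut_B04pm_011_s1 : Cut := Cut.of [[⟨4, 0, 0, 1449551462⟩]]

noncomputable def f_B04pm_011_s1 : ℕ → ℕ → ℕ → ℕ → Bool := onCell 0 536870912 536870912 536870912 402653184 67108864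
    (rowF 0 false true false .pnn 0 1 1 (qsf 0 536870912 536870912 536870912 1) ndF0q0 ndF4q1 pcF1 cut_B04pm_011_s1 Ext.none)

def k0_B04pm_011_s1 : ∃ t, chk3 f_B04pm_011_s1 t 1 1 1 = true :=
  ⟨(l 4), by decide +kernel⟩

theorem c_B04pm_011_s1 : CertF 0 536870912 536870912 536870912 402653184 67108864 false true false .pnn 0 1 1
    ndF0q0 ndF4q1 pcF1 cut_B04pm_011_s1 Ext.none :=
  certF0 (fam := false) (s1 := true) (s2 := false) (a := 0) (b := 1) (c := 1) (cn := .pnn) (n1 := ndF0q0) (n2 := ndF4q1) (pc := pcF1) (cut := cut_B04pm_011_s1) (xt := Ext.none) (P1 := 0) (W1 := 536870912) (P2 := 536870912) (W2 := 536870912) (P3 := 402653184) (W3 := 67108864)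
    rfl k0_B04pm_011_s1

theorem s_B04pm_011_s1 {κ x : ℝ} (hκ : κ * h0 = ken x) (hx : ((402653184 : ℕ) : ℝ) / S ≤ x)
    (hx' : x ≤ (((402653184 : ℕ) : ℝ) + (67108864 : ℕ)) / S) :
    AltB (VF κ) PP tKF tL pcF [⟨3, 0, 0, 1449551462⟩] 0 1 1 0 4 (sgb true) (sgb false) x :=
  strip_altB (m := 1449551462) true rfl hκ covF00 covF41 hx hx' c_B04pm_011_s1 cutB_nil (noExt_B)

noncomputable def cut_B04pm_012_s1 : Cut := Cut.of [[⟨4, 0, 0, 1449551462⟩]]

noncomputable def f_B04pm_012_s1 : ℕ → ℕ → ℕ → ℕ → Bool := onCell 0 536870912 1073741824 536870912 402653184 67108864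
    (rowF 0 false true false .pnp 0 1 2 (qsf 0 536870912 1073741824 536870912 1) ndF0q0 ndF4q2 pcF1 cut_B04pm_012_s1 Ext.none)

def k0_B04pm_012_s1 : ∃ t, chk3 f_B04pm_012_s1 t 1 1 1 = true :=
  ⟨(l 4), by decide +kernel⟩

theorem c_B04pm_012_s1 : CertF 0 536870912 1073741824 536870912 402653184 67108864 false true false .pnp 0 1 2
    ndF0q0 ndF4q2 pcF1 cut_B04pm_012_s1 Ext.none :=
  certF0 (fam := false) (s1 := true) (s2 := false) (a := 0) (b := 1) (c := 2) (cn := .pnp) (n1 := ndF0q0) (n2 := ndF4q2) (pc := pcF1) (cut := cut_B04pm_012_s1) (xt := Ext.none) (P1 := 0) (W1 := 536870912) (P2 := 1073741824) (W2 := 536870912) (P3 := 402653184) (W3 := 67108864)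
    rfl k0_B04pm_012_s1

theorem s_B04pm_012_s1 {κ x : ℝ} (hκ : κ * h0 = ken x) (hx : ((402653184 : ℕ) : ℝ) / S ≤ x)
    (hx' : x ≤ (((402653184 : ℕ) : ℝ) + (67108864 : ℕ)) / S) :
    AltB (VF κ) PP tKF tL pcF [⟨3, 0, 0, 1449551462⟩] 0 1 2 0 4 (sgb true) (sgb false) x :=
  strip_altB (m := 1449551462) true rfl hκ covF00 covF42 hx hx' c_B04pm_012_s1 cutB_nil (noExt_B)

noncomputable def cut_B04pm_022_s1 : Cut := Cut.of [[⟨4, 0, 0, 1449551462⟩]]

noncomputable def f_B04pm_022_s1 : ℕ → ℕ → ℕ → ℕ → Bool := onCell 0 536870912 1073741824 536870912 402653184 67108864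
    (rowF 0 false true false .pp 0 2 2 (qsf 0 536870912 1073741824 536870912 2) ndF0q0 ndF4q2 pcF2 cut_B04pm_022_s1 Ext.none)

def k0_B04pm_022_s1 : ∃ t, chk3 f_B04pm_022_s1 t 1 1 1 = true :=
  ⟨(l 4), by decide +kernel⟩

theorem c_B04pm_022_s1 : CertF 0 536870912 1073741824 536870912 402653184 67108864 false true false .pp 0 2 2
    ndF0q0 ndF4q2 pcF2 cut_B04pm_022_s1 Ext.none :=
  certF0 (fam := false) (s1 := true) (s2 := false) (a := 0) (b := 2) (c := 2) (cn := .pp) (n1 := ndF0q0) (n2 := ndF4q2) (pc := pcF2) (cut := cut_B04pm_022_s1) (xt := Ext.none) (P1 := 0) (W1 := 536870912) (P2 := 1073741824) (W2 := 536870912) (P3 := 402653184) (W3 := 67108864)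
    rfl k0_B04pm_022_s1

theorem s_B04pm_022_s1 {κ x : ℝ} (hκ : κ * h0 = ken x) (hx : ((402653184 : ℕ) : ℝ) / S ≤ x)
    (hx' : x ≤ (((402653184 : ℕ) : ℝ) + (67108864 : ℕ)) / S) :
    AltB (VF κ) PP tKF tL pcF [⟨3, 0, 0, 1449551462⟩] 0 2 2 0 4 (sgb true) (sgb false) x :=
  strip_altB (m := 1449551462) true rfl hκ covF00 covF42 hx hx' c_B04pm_022_s1 cutB_nil (noExt_B)

noncomputable def cut_B04pm_023_s1 : Cut := Cut.of [[⟨4, 0, 0, 1449551462⟩]]

noncomputable def f_B04pm_023_s1 : ℕ → ℕ → ℕ → ℕ → Bool := onCell 0 536870912 0 1230186008 402653184 67108864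
    (rowF 0 false true false .up 0 2 3 (qsf 0 536870912 0 1230186008 2) ndF0q0 ndF4q3 pcF2 cut_B04pm_023_s1 Ext.none)

def k0_B04pm_023_s1 : ∃ t, chk3 f_B04pm_023_s1 t 1 1 1 = true :=
  ⟨(l 6), by decide +kernel⟩

theorem c_B04pm_023_s1 : CertF 0 536870912 0 1230186008 402653184 67108864 false true false .up 0 2 3
    ndF0q0 ndF4q3 pcF2 cut_B04pm_023_s1 Ext.none :=
  certF0 (fam := false) (s1 := true) (s2 := false) (a := 0) (b := 2) (c := 3) (cn := .up) (n1 := ndF0q0) (n2 := ndF4q3) (pc := pcF2) (cut := cut_B04pm_023_s1) (xt := Ext.none) (P1 := 0) (W1 := 536870912) (P2 := 0) (W2 := 1230186008) (P3 := 402653184) (W3 := 67108864)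
    rfl k0_B04pm_023_s1

theorem s_B04pm_023_s1 {κ x : ℝ} (hκ : κ * h0 = ken x) (hx : ((402653184 : ℕ) : ℝ) / S ≤ x)
    (hx' : x ≤ (((402653184 : ℕ) : ℝ) + (67108864 : ℕ)) / S) :
    AltB (VF κ) PP tKF tL pcF [⟨3, 0, 0, 1449551462⟩] 0 2 3 0 4 (sgb true) (sgb false) x :=
  strip_altB (m := 1449551462) true rfl hκ covF00 covF43 hx hx' c_B04pm_023_s1 cutB_nil (noExt_B)

noncomputable def cut_B04pm_033_s1 : Cut := Cut.of [[⟨4, 0, 0, 1449551462⟩]]

noncomputable def f_B04pm_033_s1 : ℕ → ℕ → ℕ → ℕ → Bool := onCell 0 536870912 0 1230186008 402653184 67108864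
    (rowF 0 false true false .pnn 0 3 3 (qsf 0 536870912 0 1230186008 3) ndF0q0 ndF4q3 pcF3 cut_B04pm_033_s1 Ext.none)

def k0_B04pm_033_s1 : ∃ t, chk3 f_B04pm_033_s1 t 1 1 1 = true :=
  ⟨(l 6), by decide +kernel⟩

theorem c_B04pm_033_s1 : CertF 0 536870912 0 1230186008 402653184 67108864 false true false .pnn 0 3 3
    ndF0q0 ndF4q3 pcF3 cut_B04pm_033_s1 Ext.none :=
  certF0 (fam := false) (s1 := true) (s2 := false) (a := 0) (b := 3) (c := 3) (cn := .pnn) (n1 := ndF0q0) (n2 := ndF4q3) (pc := pcF3) (cut := cut_B04pm_033_s1) (xt := Ext.none) (P1 := 0) (W1 := 536870912) (P2 := 0) (W2 := 1230186008) (P3 := 402653184) (W3 := 67108864)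
    rfl k0_B04pm_033_s1

theorem s_B04pm_033_s1 {κ x : ℝ} (hκ : κ * h0 = ken x) (hx : ((402653184 : ℕ) : ℝ) / S ≤ x)
    (hx' : x ≤ (((402653184 : ℕ) : ℝ) + (67108864 : ℕ)) / S) :
    AltB (VF κ) PP tKF tL pcF [⟨3, 0, 0, 1449551462⟩] 0 3 3 0 4 (sgb true) (sgb false) x :=
  strip_altB (m := 1449551462) true rfl hκ covF00 covF43 hx hx' c_B04pm_033_s1 cutB_nil (noExt_B)

noncomputable def cut_B04pm_101_s1 : Cut := Cut.of [[⟨4, 0, 0, 1449551462⟩]]

noncomputable def f_B04pm_101_s1 : ℕ → ℕ → ℕ → ℕ → Bool := onCell 536870912 536870912 536870912 536870912 402653184 67108864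
    (rowF 0 false true false .npn 1 0 1 (qsf 536870912 536870912 536870912 536870912 0) ndF0q1 ndF4q1 pcF0 cut_B04pm_101_s1 Ext.none)

def k0_B04pm_101_s1 : ∃ t, chk3 f_B04pm_101_s1 t 1 1 1 = true :=
  ⟨(l 4), by decide +kernel⟩

theorem c_B04pm_101_s1 : CertF 536870912 536870912 536870912 536870912 402653184 67108864 false true false .npn 1 0 1
    ndF0q1 ndF4q1 pcF0 cut_B04pm_101_s1 Ext.none :=
  certF0 (fam := false) (s1 := true) (s2 := false) (a := 1) (b := 0) (c := 1) (cn := .npn) (n1 := ndF0q1) (n2 := ndF4q1) (pc := pcF0) (cut := cut_B04pm_101_s1) (xt := Ext.none) (P1 := 536870912) (W1 := 536870912) (P2 := 536870912) (W2 := 536870912) (P3 := 402653184) (W3 := 67108864)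
    rfl k0_B04pm_101_s1

theorem s_B04pm_101_s1 {κ x : ℝ} (hκ : κ * h0 = ken x) (hx : ((402653184 : ℕ) : ℝ) / S ≤ x)
    (hx' : x ≤ (((402653184 : ℕ) : ℝ) + (67108864 : ℕ)) / S) :
    AltB (VF κ) PP tKF tL pcF [⟨3, 0, 0, 1449551462⟩] 1 0 1 0 4 (sgb true) (sgb false) x :=
  strip_altB (m := 1449551462) true rfl hκ covF01 covF41 hx hx' c_B04pm_101_s1 cutB_nil (noExt_B)

noncomputable def cut_B04pm_102_s1 : Cut := Cut.of [[⟨4, 0, 0, 1449551462⟩]]

noncomputable def f_B04pm_102_s1 : ℕ → ℕ → ℕ → ℕ → Bool := onCell 536870912 536870912 1073741824 536870912 402653184 67108864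
    (rowF 0 false true false .npp 1 0 2 (qsf 536870912 536870912 1073741824 536870912 0) ndF0q1 ndF4q2 pcF0 cut_B04pm_102_s1 Ext.none)

def k0_B04pm_102_s1 : ∃ t, chk3 f_B04pm_102_s1 t 1 1 1 = true :=
  ⟨(l 6), by decide +kernel⟩

theorem c_B04pm_102_s1 : CertF 536870912 536870912 1073741824 536870912 402653184 67108864 false true false .npp 1 0 2
    ndF0q1 ndF4q2 pcF0 cut_B04pm_102_s1 Ext.none :=
  certF0 (fam := false) (s1 := true) (s2 := false) (a := 1) (b := 0) (c := 2) (cn := .npp) (n1 := ndF0q1) (n2 := ndF4q2) (pc := pcF0) (cut := cut_B04pm_102_s1) (xt := Ext.none) (P1 := 536870912) (W1 := 536870912) (P2 := 1073741824) (W2 := 536870912) (P3 := 402653184) (W3 := 67108864)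
    rfl k0_B04pm_102_s1

theorem s_B04pm_102_s1 {κ x : ℝ} (hκ : κ * h0 = ken x) (hx : ((402653184 : ℕ) : ℝ) / S ≤ x)
    (hx' : x ≤ (((402653184 : ℕ) : ℝ) + (67108864 : ℕ)) / S) :
    AltB (VF κ) PP tKF tL pcF [⟨3, 0, 0, 1449551462⟩] 1 0 2 0 4 (sgb true) (sgb false) x :=
  strip_altB (m := 1449551462) true rfl hκ covF01 covF42 hx hx' c_B04pm_102_s1 cutB_nil (noExt_B)

noncomputable def cut_B04pm_112_s1 : Cut := Cut.of [[⟨4, 0, 0, 1449551462⟩]]

noncomputable def f_B04pm_112_s1 : ℕ → ℕ → ℕ → ℕ → Bool := onCell 536870912 536870912 1073741824 536870912 402653184 67108864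
    (rowF 0 false true false .dn 1 1 2 (qsf 536870912 536870912 1073741824 536870912 1) ndF0q1 ndF4q2 pcF1 cut_B04pm_112_s1 Ext.none)

def k0_B04pm_112_s1 : ∃ t, chk3 f_B04pm_112_s1 t 1 1 1 = true :=
  ⟨(l 6), by decide +kernel⟩

theorem c_B04pm_112_s1 : CertF 536870912 536870912 1073741824 536870912 402653184 67108864 false true false .dn 1 1 2
    ndF0q1 ndF4q2 pcF1 cut_B04pm_112_s1 Ext.none :=
  certF0 (fam := false) (s1 := true) (s2 := false) (a := 1) (b := 1) (c := 2) (cn := .dn) (n1 := ndF0q1) (n2 := ndF4q2) (pc := pcF1) (cut := cut_B04pm_112_s1) (xt := Ext.none) (P1 := 536870912) (W1 := 536870912) (P2 := 1073741824) (W2 := 536870912) (P3 := 402653184) (W3 := 67108864)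
    rfl k0_B04pm_112_s1

theorem s_B04pm_112_s1 {κ x : ℝ} (hκ : κ * h0 = ken x) (hx : ((402653184 : ℕ) : ℝ) / S ≤ x)
    (hx' : x ≤ (((402653184 : ℕ) : ℝ) + (67108864 : ℕ)) / S) :
    AltB (VF κ) PP tKF tL pcF [⟨3, 0, 0, 1449551462⟩] 1 1 2 0 4 (sgb true) (sgb false) x :=
  strip_altB (m := 1449551462) true rfl hκ covF01 covF42 hx hx' c_B04pm_112_s1 cutB_nil (noExt_B)

noncomputable def cut_B04pm_113_s1 : Cut := Cut.of [[⟨4, 0, 0, 1449551462⟩], [⟨0, 1, 0, 67108864⟩, ⟨1, 1, 0, 67108864⟩, ⟨2, 2, 0, 16777216⟩]]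

noncomputable def f_B04pm_113_s1 : ℕ → ℕ → ℕ → ℕ → Bool := onCell 536870912 536870912 0 1230186008 402653184 67108864
    (rowF 0 false true false .nn 1 1 3 (qsf 536870912 536870912 0 1230186008 1) ndF0q1 ndF4q3 pcF1 cut_B04pm_113_s1 Ext.none)

def k0_B04pm_113_s1 : ∃ t, chk3 f_B04pm_113_s1 t 1 1 1 = true :=
  ⟨(b (a (l 2) (a (l 2) (b (a (l 2) (b (a (l 2) (l 14)) (l 16985256))) (a (l 6) (b (l 16842648) (l 6)))))) (b (l 6) (l 6))), by decide +kernel⟩

theorem c_B04pm_113_s1 : CertF 536870912 536870912 0 1230186008 402653184 67108864 false true false .nn 1 1 3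
    ndF0q1 ndF4q3 pcF1 cut_B04pm_113_s1 Ext.none :=
  certF0 (fam := false) (s1 := true) (s2 := false) (a := 1) (b := 1) (c := 3) (cn := .nn) (n1 := ndF0q1) (n2 := ndF4q3) (pc := pcF1) (cut := cut_B04pm_113_s1) (xt := Ext.none) (P1 := 536870912) (W1 := 536870912) (P2 := 0) (W2 := 1230186008) (P3 := 402653184) (W3 := 67108864)
    rfl k0_B04pm_113_s1

theorem s_B04pm_113_s1 {κ x : ℝ} (hκ : κ * h0 = ken x) (hx : ((402653184 : ℕ) : ℝ) / S ≤ x)
    (hx' : x ≤ (((402653184 : ℕ) : ℝ) + (67108864 : ℕ)) / S)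
    (H : CutB (VF κ) PP tKF tL pcF (Cut.of [[⟨0, 1, 0, 67108864⟩, ⟨1, 1, 0, 67108864⟩, ⟨2, 2, 0, 16777216⟩]]) 1 1 3 0 4 (sgb true) (sgb false) x) :
    AltB (VF κ) PP tKF tL pcF [⟨3, 0, 0, 1449551462⟩] 1 1 3 0 4 (sgb true) (sgb false) x :=
  strip_altB (m := 1449551462) true rfl hκ covF01 covF43 hx hx' c_B04pm_113_s1 H (noExt_B)

noncomputable def cut_B04pm_123_s1 : Cut := Cut.of [[⟨4, 0, 0, 1449551462⟩], [⟨0, 1, 0, 67108864⟩, ⟨1, 1, 0, 67108864⟩, ⟨2, 2, 0, 16777216⟩]]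

noncomputable def f_B04pm_123_s1 : ℕ → ℕ → ℕ → ℕ → Bool := onCell 1073741824 536870912 0 1230186008 402653184 67108864
    (rowF 2 false true false .npn 1 2 3 (qsf 536870912 536870912 0 1230186008 2) ndF0q1 ndF4q3 pcF2 cut_B04pm_123_s1 Ext.none)

def k0_B04pm_123_s1 : ∃ t, chk3 f_B04pm_123_s1 t 1 1 1 = true :=
  ⟨(b (a (a (b (a (b (a (l 14) (b (l 16795680) (l 16810856))) (l 16838048)) (b (l 16987216) (l 6))) (b (l 6) (l 6))) (b (b (l 6) (l 6)) (l 6))) (l 6)) (l 6)), by decide +kernel⟩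

theorem c_B04pm_123_s1 : CertF 536870912 536870912 0 1230186008 402653184 67108864 false true false .npn 1 2 3
    ndF0q1 ndF4q3 pcF2 cut_B04pm_123_s1 Ext.none :=
  certF2 (fam := false) (s1 := true) (s2 := false) (a := 1) (b := 2) (c := 3) (cn := .npn) (n1 := ndF0q1) (n2 := ndF4q3) (pc := pcF2) (cut := cut_B04pm_123_s1) (xt := Ext.none) (P1 := 536870912) (W1 := 536870912) (P2 := 0) (W2 := 1230186008) (P3 := 402653184) (W3 := 67108864)
    rfl (fun _ => rfl) k0_B04pm_123_s1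

theorem s_B04pm_123_s1 {κ x : ℝ} (hκ : κ * h0 = ken x) (hx : ((402653184 : ℕ) : ℝ) / S ≤ x)
    (hx' : x ≤ (((402653184 : ℕ) : ℝ) + (67108864 : ℕ)) / S)
    (H : CutB (VF κ) PP tKF tL pcF (Cut.of [[⟨0, 1, 0, 67108864⟩, ⟨1, 1, 0, 67108864⟩, ⟨2, 2, 0, 16777216⟩]]) 1 2 3 0 4 (sgb true) (sgb false) x) :
    AltB (VF κ) PP tKF tL pcF [⟨3, 0, 0, 1449551462⟩] 1 2 3 0 4 (sgb true) (sgb false) x :=
  strip_altB (m := 1449551462) true rfl hκ covF01 covF43 hx hx' c_B04pm_123_s1 H (noExt_B)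

noncomputable def cut_B04pm_133_s1 : Cut := Cut.of [[⟨4, 0, 0, 1449551462⟩]]

noncomputable def f_B04pm_133_s1 : ℕ → ℕ → ℕ → ℕ → Bool := onCell 1610612736 536870912 0 1230186008 402653184 67108864
    (rowF 2 false true false .dn 1 3 3 (qsf 536870912 536870912 0 1230186008 3) ndF0q1 ndF4q3 pcF3 cut_B04pm_133_s1 Ext.none)

def k0_B04pm_133_s1 : ∃ t, chk3 f_B04pm_133_s1 t 1 1 1 = true :=
  ⟨(l 6), by decide +kernel⟩

theorem c_B04pm_133_s1 : CertF 536870912 536870912 0 1230186008 402653184 67108864 false true false .dn 1 3 3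
    ndF0q1 ndF4q3 pcF3 cut_B04pm_133_s1 Ext.none :=
  certF2 (fam := false) (s1 := true) (s2 := false) (a := 1) (b := 3) (c := 3) (cn := .dn) (n1 := ndF0q1) (n2 := ndF4q3) (pc := pcF3) (cut := cut_B04pm_133_s1) (xt := Ext.none) (P1 := 536870912) (W1 := 536870912) (P2 := 0) (W2 := 1230186008) (P3 := 402653184) (W3 := 67108864)
    rfl (fun _ => rfl) k0_B04pm_133_s1

theorem s_B04pm_133_s1 {κ x : ℝ} (hκ : κ * h0 = ken x) (hx : ((402653184 : ℕ) : ℝ) / S ≤ x)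
    (hx' : x ≤ (((402653184 : ℕ) : ℝ) + (67108864 : ℕ)) / S) :
    AltB (VF κ) PP tKF tL pcF [⟨3, 0, 0, 1449551462⟩] 1 3 3 0 4 (sgb true) (sgb false) x :=
  strip_altB (m := 1449551462) true rfl hκ covF01 covF43 hx hx' c_B04pm_133_s1 cutB_nil (noExt_B)

noncomputable def cut_B04pm_202_s1 : Cut := Cut.of [[⟨4, 0, 0, 1449551462⟩]]

noncomputable def f_B04pm_202_s1 : ℕ → ℕ → ℕ → ℕ → Bool := onCell 0 536870912 1073741824 536870912 402653184 67108864
    (rowF 0 false true false .pp 2 0 2 (qsf 0 536870912 1073741824 536870912 0) ndF0q2 ndF4q2 pcF0 cut_B04pm_202_s1 Ext.none)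

def k0_B04pm_202_s1 : ∃ t, chk3 f_B04pm_202_s1 t 1 1 1 = true :=
  ⟨(a (b (l 6) (b (l 6) (l 6))) (l 6)), by decide +kernel⟩

theorem c_B04pm_202_s1 : CertF 0 536870912 1073741824 536870912 402653184 67108864 false true false .pp 2 0 2
    ndF0q2 ndF4q2 pcF0 cut_B04pm_202_s1 Ext.none :=
  certF0 (fam := false) (s1 := true) (s2 := false) (a := 2) (b := 0) (c := 2) (cn := .pp) (n1 := ndF0q2) (n2 := ndF4q2) (pc := pcF0) (cut := cut_B04pm_202_s1) (xt := Ext.none) (P1 := 0) (W1 := 536870912) (P2 := 1073741824) (W2 := 536870912) (P3 := 402653184) (W3 := 67108864)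
    rfl k0_B04pm_202_s1

theorem s_B04pm_202_s1 {κ x : ℝ} (hκ : κ * h0 = ken x) (hx : ((402653184 : ℕ) : ℝ) / S ≤ x)
    (hx' : x ≤ (((402653184 : ℕ) : ℝ) + (67108864 : ℕ)) / S) :
    AltB (VF κ) PP tKF tL pcF [⟨3, 0, 0, 1449551462⟩] 2 0 2 0 4 (sgb true) (sgb false) x :=
  strip_altB (m := 1449551462) true rfl hκ covF02 covF42 hx hx' c_B04pm_202_s1 cutB_nil (noExt_B)

noncomputable def cut_B04pm_203_s1 : Cut := Cut.of [[⟨4, 0, 0, 1449551462⟩]]

noncomputable def f_B04pm_203_s1 : ℕ → ℕ → ℕ → ℕ → Bool := onCell 0 536870912 0 1230186008 402653184 67108864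
    (rowF 0 false true false .up 2 0 3 (qsf 0 536870912 0 1230186008 0) ndF0q2 ndF4q3 pcF0 cut_B04pm_203_s1 Ext.none)

def k0_B04pm_203_s1 : ∃ t, chk3 f_B04pm_203_s1 t 1 1 1 = true :=
  ⟨(b (l 2) (b (l 2) (a (b (b (l 2) (a (a (l 16800664) (l 16815392)) (a (l 16830816) (l 6)))) (a (b (a (l 16795984) (l 16808688)) (l 17002392)) (l 6))) (l 6)))), by decide +kernel⟩

theorem c_B04pm_203_s1 : CertF 0 536870912 0 1230186008 402653184 67108864 false true false .up 2 0 3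
    ndF0q2 ndF4q3 pcF0 cut_B04pm_203_s1 Ext.none :=
  certF0 (fam := false) (s1 := true) (s2 := false) (a := 2) (b := 0) (c := 3) (cn := .up) (n1 := ndF0q2) (n2 := ndF4q3) (pc := pcF0) (cut := cut_B04pm_203_s1) (xt := Ext.none) (P1 := 0) (W1 := 536870912) (P2 := 0) (W2 := 1230186008) (P3 := 402653184) (W3 := 67108864)
    rfl k0_B04pm_203_s1

theorem s_B04pm_203_s1 {κ x : ℝ} (hκ : κ * h0 = ken x) (hx : ((402653184 : ℕ) : ℝ) / S ≤ x)
    (hx' : x ≤ (((402653184 : ℕ) : ℝ) + (67108864 : ℕ)) / S) :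
    AltB (VF κ) PP tKF tL pcF [⟨3, 0, 0, 1449551462⟩] 2 0 3 0 4 (sgb true) (sgb false) x :=
  strip_altB (m := 1449551462) true rfl hκ covF02 covF43 hx hx' c_B04pm_203_s1 cutB_nil (noExt_B)

noncomputable def cut_B04pm_213_s1 : Cut := Cut.of [[⟨4, 0, 0, 1449551462⟩], [⟨0, 1, 0, 67108864⟩, ⟨1, 1, 0, 67108864⟩, ⟨2, 2, 0, 16777216⟩]]

noncomputable def xt_B04pm_213_s1 : Ext := strExt dd false true false .u2 .s2m .u0m .pnn 2 1 3 rfl rfl gf1 vv ndF0q2 ndF4q3

noncomputable def f_B04pm_213_s1 : ℕ → ℕ → ℕ → ℕ → Bool := onCell 0 536870912 0 1230186008 402653184 67108864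
    (rowF 0 false true false .pnn 2 1 3 (qsf 0 536870912 0 1230186008 1) ndF0q2 ndF4q3 pcF1 cut_B04pm_213_s1 xt_B04pm_213_s1)

def k0_B04pm_213_s1 : ∃ t, chk3 f_B04pm_213_s1 t 1 1 1 = true :=
  ⟨(b (a (b (l 3) (a (l 3) (b (l 3) (a (b (l 3) (l 538026255)) (b (l 537919247) (l 537964815)))))) (b (a (a (l 3) (b (l 3) (a (l 3) (l 537474575)))) (b (a (a (l 3) (l 14)) (l 14)) (a (a (b (l 537409039) (l 537516815)) (b (a (l 537393167) (l 14)) (l 16788376))) (b (b (l 14) (l 16790024)) (l 16798952))))) (a (b (a (a (l 537748239) (l 537713935)) (a (l 537687567) (l 537668367))) (a (b (l 537841679) (l 16801728)) (b (l 16806216) (l 16823176)))) (b (a (b (l 16796112) (l 16810328)) (l 16823152)) (a (l 16837760) (l 16864704)))))) (b (b (a (a (a (l 3) (a (l 3) (b (l 3) (l 538027023)))) (a (l 538041871) (b (l 537996815) (l 16813656)))) (a (a (l 16912344) (l 16853672)) (l 6))) (a (a (a (b (a (l 3) (l 538135823)) (l 538158607))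 (b (a (l 538141711) (l 538084111)) (b (l 538151695) (l 16808992)))) (a (b (l 16807784) (l 16830576)) (l 17013048))) (a (b (l 16876600) (l 6)) (l 6)))) (a (a (b (a (b (l 538360335) (l 16928720)) (b (l 16831632) (l 16895880))) (l 1)) (b (b (l 16884512) (b (l 17271792) (l 6))) (l 6))) (l 6)))), by decide +kernel⟩

theorem c_B04pm_213_s1 : CertF 0 536870912 0 1230186008 402653184 67108864 false true false .pnn 2 1 3
    ndF0q2 ndF4q3 pcF1 cut_B04pm_213_s1 xt_B04pm_213_s1 :=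
  certF0 (fam := false) (s1 := true) (s2 := false) (a := 2) (b := 1) (c := 3) (cn := .pnn) (n1 := ndF0q2) (n2 := ndF4q3) (pc := pcF1) (cut := cut_B04pm_213_s1) (xt := xt_B04pm_213_s1) (P1 := 0) (W1 := 536870912) (P2 := 0) (W2 := 1230186008) (P3 := 402653184) (W3 := 67108864)
    rfl k0_B04pm_213_s1

theorem s_B04pm_213_s1 {κ x : ℝ} (hκ : κ * h0 = ken x) (hx : ((402653184 : ℕ) : ℝ) / S ≤ x)
    (hx' : x ≤ (((402653184 : ℕ) : ℝ) + (67108864 : ℕ)) / S)
    (H : CutB (VF κ) PP tKF tL pcF (Cut.of [[⟨0, 1, 0, 67108864⟩, ⟨1, 1, 0, 67108864⟩, ⟨2, 2, 0, 16777216⟩]]) 2 1 3 0 4 (sgb true) (sgb false) x) :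
    AltB (VF κ) PP tKF tL pcF [⟨3, 0, 0, 1449551462⟩] 2 1 3 0 4 (sgb true) (sgb false) x :=
  strip_altB (m := 1449551462) true rfl hκ covF02 covF43 hx hx' c_B04pm_213_s1 H ((okx hx hx').extB (T := tt) (sideF hx hx') hκ rfl rfl (.O 2 true) (.N 3 false) (Or.inr rfl))

noncomputable def cut_B04mm_001_s1 : Cut := Cut.of [[⟨4, 0, 0, 1449551462⟩]]

noncomputable def f_B04mm_001_s1 : ℕ → ℕ → ℕ → ℕ → Bool := onCell 0 536870912 0 536870912 402653184 67108864
    (rowF 1 false false false .up 0 0 1 (qsf 0 536870912 536870912 536870912 0) ndF0q0 ndF4q1 pcF0 cut_B04mm_001_s1 Ext.none)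

def k0_B04mm_001_s1 : ∃ t, chk3 f_B04mm_001_s1 t 1 1 1 = true :=
  ⟨(l 3), by decide +kernel⟩

theorem c_B04mm_001_s1 : CertF 0 536870912 536870912 536870912 402653184 67108864 false false false .up 0 0 1
    ndF0q0 ndF4q1 pcF0 cut_B04mm_001_s1 Ext.none :=
  certF1 (fam := false) (s1 := false) (s2 := false) (a := 0) (b := 0) (c := 1) (cn := .up) (n1 := ndF0q0) (n2 := ndF4q1) (pc := pcF0) (cut := cut_B04mm_001_s1) (xt := Ext.none) (P1 := 0) (W1 := 536870912) (P2 := 536870912) (W2 := 536870912) (P3 := 402653184) (W3 := 67108864)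
    rfl (fun _ => rfl) k0_B04mm_001_s1

theorem s_B04mm_001_s1 {κ x : ℝ} (hκ : κ * h0 = ken x) (hx : ((402653184 : ℕ) : ℝ) / S ≤ x)
    (hx' : x ≤ (((402653184 : ℕ) : ℝ) + (67108864 : ℕ)) / S) :
    AltB (VF κ) PP tKF tL pcF [⟨3, 0, 0, 1449551462⟩] 0 0 1 0 4 (sgb false) (sgb false) x :=
  strip_altB (m := 1449551462) true rfl hκ covF00 covF41 hx hx' c_B04mm_001_s1 cutB_nil (noExt_B)

noncomputable def cut_B04mm_011_s1 : Cut := Cut.of [[⟨4, 0, 0, 1449551462⟩]]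

noncomputable def f_B04mm_011_s1 : ℕ → ℕ → ℕ → ℕ → Bool := onCell 0 536870912 536870912 536870912 402653184 67108864
    (rowF 1 false false false .pnn 0 1 1 (qsf 0 536870912 536870912 536870912 1) ndF0q0 ndF4q1 pcF1 cut_B04mm_011_s1 Ext.none)

def k0_B04mm_011_s1 : ∃ t, chk3 f_B04mm_011_s1 t 1 1 1 = true :=
  ⟨(l 5), by decide +kernel⟩

theorem c_B04mm_011_s1 : CertF 0 536870912 536870912 536870912 402653184 67108864 false false false .pnn 0 1 1
    ndF0q0 ndF4q1 pcF1 cut_B04mm_011_s1 Ext.none :=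
  certF1 (fam := false) (s1 := false) (s2 := false) (a := 0) (b := 1) (c := 1) (cn := .pnn) (n1 := ndF0q0) (n2 := ndF4q1) (pc := pcF1) (cut := cut_B04mm_011_s1) (xt := Ext.none) (P1 := 0) (W1 := 536870912) (P2 := 536870912) (W2 := 536870912) (P3 := 402653184) (W3 := 67108864)
    rfl (fun _ => rfl) k0_B04mm_011_s1

theorem s_B04mm_011_s1 {κ x : ℝ} (hκ : κ * h0 = ken x) (hx : ((402653184 : ℕ) : ℝ) / S ≤ x)
    (hx' : x ≤ (((402653184 : ℕ) : ℝ) + (67108864 : ℕ)) / S) :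
    AltB (VF κ) PP tKF tL pcF [⟨3, 0, 0, 1449551462⟩] 0 1 1 0 4 (sgb false) (sgb false) x :=
  strip_altB (m := 1449551462) true rfl hκ covF00 covF41 hx hx' c_B04mm_011_s1 cutB_nil (noExt_B)

noncomputable def cut_B04mm_012_s1 : Cut := Cut.of [[⟨4, 0, 0, 1449551462⟩]]

noncomputable def f_B04mm_012_s1 : ℕ → ℕ → ℕ → ℕ → Bool := onCell 0 536870912 1073741824 536870912 402653184 67108864
    (rowF 0 false false false .pnp 0 1 2 (qsf 0 536870912 1073741824 536870912 1) ndF0q0 ndF4q2 pcF1 cut_B04mm_012_s1 Ext.none)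

def k0_B04mm_012_s1 : ∃ t, chk3 f_B04mm_012_s1 t 1 1 1 = true :=
  ⟨(l 5), by decide +kernel⟩

theorem c_B04mm_012_s1 : CertF 0 536870912 1073741824 536870912 402653184 67108864 false false false .pnp 0 1 2
    ndF0q0 ndF4q2 pcF1 cut_B04mm_012_s1 Ext.none :=
  certF0 (fam := false) (s1 := false) (s2 := false) (a := 0) (b := 1) (c := 2) (cn := .pnp) (n1 := ndF0q0) (n2 := ndF4q2) (pc := pcF1) (cut := cut_B04mm_012_s1) (xt := Ext.none) (P1 := 0) (W1 := 536870912) (P2 := 1073741824) (W2 := 536870912) (P3 := 402653184) (W3 := 67108864)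
    rfl k0_B04mm_012_s1

theorem s_B04mm_012_s1 {κ x : ℝ} (hκ : κ * h0 = ken x) (hx : ((402653184 : ℕ) : ℝ) / S ≤ x)
    (hx' : x ≤ (((402653184 : ℕ) : ℝ) + (67108864 : ℕ)) / S) :
    AltB (VF κ) PP tKF tL pcF [⟨3, 0, 0, 1449551462⟩] 0 1 2 0 4 (sgb false) (sgb false) x :=
  strip_altB (m := 1449551462) true rfl hκ covF00 covF42 hx hx' c_B04mm_012_s1 cutB_nil (noExt_B)

noncomputable def cut_B04mm_022_s1 : Cut := Cut.of [[⟨4, 0, 0, 1449551462⟩]]

noncomputable def f_B04mm_022_s1 : ℕ → ℕ → ℕ → ℕ → Bool := onCell 0 536870912 1073741824 536870912 402653184 67108864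
    (rowF 0 false false false .pp 0 2 2 (qsf 0 536870912 1073741824 536870912 2) ndF0q0 ndF4q2 pcF2 cut_B04mm_022_s1 Ext.none)

def k0_B04mm_022_s1 : ∃ t, chk3 f_B04mm_022_s1 t 1 1 1 = true :=
  ⟨(l 5), by decide +kernel⟩

theorem c_B04mm_022_s1 : CertF 0 536870912 1073741824 536870912 402653184 67108864 false false false .pp 0 2 2
    ndF0q0 ndF4q2 pcF2 cut_B04mm_022_s1 Ext.none :=
  certF0 (fam := false) (s1 := false) (s2 := false) (a := 0) (b := 2) (c := 2) (cn := .pp) (n1 := ndF0q0) (n2 := ndF4q2) (pc := pcF2) (cut := cut_B04mm_022_s1) (xt := Ext.none) (P1 := 0) (W1 := 536870912) (P2 := 1073741824) (W2 := 536870912) (P3 := 402653184) (W3 := 67108864)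
    rfl k0_B04mm_022_s1

theorem s_B04mm_022_s1 {κ x : ℝ} (hκ : κ * h0 = ken x) (hx : ((402653184 : ℕ) : ℝ) / S ≤ x)
    (hx' : x ≤ (((402653184 : ℕ) : ℝ) + (67108864 : ℕ)) / S) :
    AltB (VF κ) PP tKF tL pcF [⟨3, 0, 0, 1449551462⟩] 0 2 2 0 4 (sgb false) (sgb false) x :=
  strip_altB (m := 1449551462) true rfl hκ covF00 covF42 hx hx' c_B04mm_022_s1 cutB_nil (noExt_B)

noncomputable def cut_B04mm_023_s1 : Cut := Cut.of [[⟨4, 0, 0, 1449551462⟩]]

noncomputable def f_B04mm_023_s1 : ℕ → ℕ → ℕ → ℕ → Bool := onCell 0 536870912 0 1230186008 402653184 67108864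
    (rowF 0 false false false .up 0 2 3 (qsf 0 536870912 0 1230186008 2) ndF0q0 ndF4q3 pcF2 cut_B04mm_023_s1 Ext.none)

def k0_B04mm_023_s1 : ∃ t, chk3 f_B04mm_023_s1 t 1 1 1 = true :=
  ⟨(l 5), by decide +kernel⟩

theorem c_B04mm_023_s1 : CertF 0 536870912 0 1230186008 402653184 67108864 false false false .up 0 2 3
    ndF0q0 ndF4q3 pcF2 cut_B04mm_023_s1 Ext.none :=
  certF0 (fam := false) (s1 := false) (s2 := false) (a := 0) (b := 2) (c := 3) (cn := .up) (n1 := ndF0q0) (n2 := ndF4q3) (pc := pcF2) (cut := cut_B04mm_023_s1) (xt := Ext.none) (P1 := 0) (W1 := 536870912) (P2 := 0) (W2 := 1230186008) (P3 := 402653184) (W3 := 67108864)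
    rfl k0_B04mm_023_s1

theorem s_B04mm_023_s1 {κ x : ℝ} (hκ : κ * h0 = ken x) (hx : ((402653184 : ℕ) : ℝ) / S ≤ x)
    (hx' : x ≤ (((402653184 : ℕ) : ℝ) + (67108864 : ℕ)) / S) :
    AltB (VF κ) PP tKF tL pcF [⟨3, 0, 0, 1449551462⟩] 0 2 3 0 4 (sgb false) (sgb false) x :=
  strip_altB (m := 1449551462) true rfl hκ covF00 covF43 hx hx' c_B04mm_023_s1 cutB_nil (noExt_B)

noncomputable def cut_B04mm_033_s1 : Cut := Cut.of [[⟨4, 0, 0, 1449551462⟩]]

noncomputable def f_B04mm_033_s1 : ℕ → ℕ → ℕ → ℕ → Bool := onCell 0 536870912 0 1230186008 402653184 67108864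
    (rowF 0 false false false .pnn 0 3 3 (qsf 0 536870912 0 1230186008 3) ndF0q0 ndF4q3 pcF3 cut_B04mm_033_s1 Ext.none)

def k0_B04mm_033_s1 : ∃ t, chk3 f_B04mm_033_s1 t 1 1 1 = true :=
  ⟨(l 5), by decide +kernel⟩

theorem c_B04mm_033_s1 : CertF 0 536870912 0 1230186008 402653184 67108864 false false false .pnn 0 3 3
    ndF0q0 ndF4q3 pcF3 cut_B04mm_033_s1 Ext.none :=
  certF0 (fam := false) (s1 := false) (s2 := false) (a := 0) (b := 3) (c := 3) (cn := .pnn) (n1 := ndF0q0) (n2 := ndF4q3) (pc := pcF3) (cut := cut_B04mm_033_s1) (xt := Ext.none) (P1 := 0) (W1 := 536870912) (P2 := 0) (W2 := 1230186008) (P3 := 402653184) (W3 := 67108864)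
    rfl k0_B04mm_033_s1

theorem s_B04mm_033_s1 {κ x : ℝ} (hκ : κ * h0 = ken x) (hx : ((402653184 : ℕ) : ℝ) / S ≤ x)
    (hx' : x ≤ (((402653184 : ℕ) : ℝ) + (67108864 : ℕ)) / S) :
    AltB (VF κ) PP tKF tL pcF [⟨3, 0, 0, 1449551462⟩] 0 3 3 0 4 (sgb false) (sgb false) x :=
  strip_altB (m := 1449551462) true rfl hκ covF00 covF43 hx hx' c_B04mm_033_s1 cutB_nil (noExt_B)

noncomputable def cut_B04mm_101_s1 : Cut := Cut.of [[⟨4, 0, 0, 1449551462⟩], [⟨0, 1, 0, 67108864⟩, ⟨1, 0, 0, 67108864⟩, ⟨2, 1, 0, 67108864⟩]]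

noncomputable def f_B04mm_101_s1 : ℕ → ℕ → ℕ → ℕ → Bool := onCell 536870912 536870912 0 536870912 402653184 67108864
    (rowF 1 false false false .npn 1 0 1 (qsf 536870912 536870912 536870912 536870912 0) ndF0q1 ndF4q1 pcF0 cut_B04mm_101_s1 Ext.none)

def k0_B04mm_101_s1 : ∃ t, chk3 f_B04mm_101_s1 t 1 1 1 = true :=
  ⟨(a (l 3) (b (a (l 3) (b (a (l 3) (b (a (l 3) (b (l 14) (l 3))) (l 3))) (l 3))) (l 3))), by decide +kernel⟩

theorem c_B04mm_101_s1 : CertF 536870912 536870912 536870912 536870912 402653184 67108864 false false false .npn 1 0 1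
    ndF0q1 ndF4q1 pcF0 cut_B04mm_101_s1 Ext.none :=
  certF1 (fam := false) (s1 := false) (s2 := false) (a := 1) (b := 0) (c := 1) (cn := .npn) (n1 := ndF0q1) (n2 := ndF4q1) (pc := pcF0) (cut := cut_B04mm_101_s1) (xt := Ext.none) (P1 := 536870912) (W1 := 536870912) (P2 := 536870912) (W2 := 536870912) (P3 := 402653184) (W3 := 67108864)
    rfl (fun _ => rfl) k0_B04mm_101_s1

theorem s_B04mm_101_s1 {κ x : ℝ} (hκ : κ * h0 = ken x) (hx : ((402653184 : ℕ) : ℝ) / S ≤ x)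
    (hx' : x ≤ (((402653184 : ℕ) : ℝ) + (67108864 : ℕ)) / S)
    (H : CutB (VF κ) PP tKF tL pcF (Cut.of [[⟨0, 1, 0, 67108864⟩, ⟨1, 0, 0, 67108864⟩, ⟨2, 1, 0, 67108864⟩]]) 1 0 1 0 4 (sgb false) (sgb false) x) :
    AltB (VF κ) PP tKF tL pcF [⟨3, 0, 0, 1449551462⟩] 1 0 1 0 4 (sgb false) (sgb false) x :=
  strip_altB (m := 1449551462) true rfl hκ covF01 covF41 hx hx' c_B04mm_101_s1 H (noExt_B)

noncomputable def cut_B04mm_102_s1 : Cut := Cut.of [[⟨4, 0, 0, 1449551462⟩], [⟨0, 1, 0, 67108864⟩, ⟨1, 0, 0, 67108864⟩, ⟨2, 1, 0, 67108864⟩]]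

noncomputable def f_B04mm_102_s1 : ℕ → ℕ → ℕ → ℕ → Bool := onCell 536870912 536870912 0 536870912 402653184 67108864
    (rowF 1 false false false .npp 1 0 2 (qsf 536870912 536870912 1073741824 536870912 0) ndF0q1 ndF4q2 pcF0 cut_B04mm_102_s1 Ext.none)

def k0_B04mm_102_s1 : ∃ t, chk3 f_B04mm_102_s1 t 1 1 1 = true :=
  ⟨(b (a (l 3) (a (l 3) (b (a (l 3) (a (l 3) (b (b (l 14) (l 3)) (l 3)))) (l 3)))) (l 3)), by decide +kernel⟩

theorem c_B04mm_102_s1 : CertF 536870912 536870912 1073741824 536870912 402653184 67108864 false false false .npp 1 0 2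
    ndF0q1 ndF4q2 pcF0 cut_B04mm_102_s1 Ext.none :=
  certF1 (fam := false) (s1 := false) (s2 := false) (a := 1) (b := 0) (c := 2) (cn := .npp) (n1 := ndF0q1) (n2 := ndF4q2) (pc := pcF0) (cut := cut_B04mm_102_s1) (xt := Ext.none) (P1 := 536870912) (W1 := 536870912) (P2 := 1073741824) (W2 := 536870912) (P3 := 402653184) (W3 := 67108864)
    rfl (fun _ => rfl) k0_B04mm_102_s1

theorem s_B04mm_102_s1 {κ x : ℝ} (hκ : κ * h0 = ken x) (hx : ((402653184 : ℕ) : ℝ) / S ≤ x)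
    (hx' : x ≤ (((402653184 : ℕ) : ℝ) + (67108864 : ℕ)) / S)
    (H : CutB (VF κ) PP tKF tL pcF (Cut.of [[⟨0, 1, 0, 67108864⟩, ⟨1, 0, 0, 67108864⟩, ⟨2, 1, 0, 67108864⟩]]) 1 0 2 0 4 (sgb false) (sgb false) x) :
    AltB (VF κ) PP tKF tL pcF [⟨3, 0, 0, 1449551462⟩] 1 0 2 0 4 (sgb false) (sgb false) x :=
  strip_altB (m := 1449551462) true rfl hκ covF01 covF42 hx hx' c_B04mm_102_s1 H (noExt_B)

noncomputable def cut_B04mm_112_s1 : Cut := Cut.of [[⟨4, 0, 0, 1449551462⟩]]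

noncomputable def f_B04mm_112_s1 : ℕ → ℕ → ℕ → ℕ → Bool := onCell 536870912 536870912 1073741824 536870912 402653184 67108864
    (rowF 2 false false false .dn 1 1 2 (qsf 536870912 536870912 1073741824 536870912 1) ndF0q1 ndF4q2 pcF1 cut_B04mm_112_s1 Ext.none)

def k0_B04mm_112_s1 : ∃ t, chk3 f_B04mm_112_s1 t 1 1 1 = true :=
  ⟨(a (l 3) (l 5)), by decide +kernel⟩

theorem c_B04mm_112_s1 : CertF 536870912 536870912 1073741824 536870912 402653184 67108864 false false false .dn 1 1 2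
    ndF0q1 ndF4q2 pcF1 cut_B04mm_112_s1 Ext.none :=
  certF2 (fam := false) (s1 := false) (s2 := false) (a := 1) (b := 1) (c := 2) (cn := .dn) (n1 := ndF0q1) (n2 := ndF4q2) (pc := pcF1) (cut := cut_B04mm_112_s1) (xt := Ext.none) (P1 := 536870912) (W1 := 536870912) (P2 := 1073741824) (W2 := 536870912) (P3 := 402653184) (W3 := 67108864)
    rfl (fun _ => rfl) k0_B04mm_112_s1

theorem s_B04mm_112_s1 {κ x : ℝ} (hκ : κ * h0 = ken x) (hx : ((402653184 : ℕ) : ℝ) / S ≤ x)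
    (hx' : x ≤ (((402653184 : ℕ) : ℝ) + (67108864 : ℕ)) / S) :
    AltB (VF κ) PP tKF tL pcF [⟨3, 0, 0, 1449551462⟩] 1 1 2 0 4 (sgb false) (sgb false) x :=
  strip_altB (m := 1449551462) true rfl hκ covF01 covF42 hx hx' c_B04mm_112_s1 cutB_nil (noExt_B)

noncomputable def cut_B04mm_113_s1 : Cut := Cut.of [[⟨4, 0, 0, 1449551462⟩]]

noncomputable def f_B04mm_113_s1 : ℕ → ℕ → ℕ → ℕ → Bool := onCell 536870912 536870912 0 1230186008 402653184 67108864
    (rowF 0 false false false .nn 1 1 3 (qsf 536870912 536870912 0 1230186008 1) ndF0q1 ndF4q3 pcF1 cut_B04mm_113_s1 Ext.none)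

def k0_B04mm_113_s1 : ∃ t, chk3 f_B04mm_113_s1 t 1 1 1 = true :=
  ⟨(b (l 5) (a (l 5) (b (a (l 5) (l 3)) (l 3)))), by decide +kernel⟩

theorem c_B04mm_113_s1 : CertF 536870912 536870912 0 1230186008 402653184 67108864 false false false .nn 1 1 3
    ndF0q1 ndF4q3 pcF1 cut_B04mm_113_s1 Ext.none :=
  certF0 (fam := false) (s1 := false) (s2 := false) (a := 1) (b := 1) (c := 3) (cn := .nn) (n1 := ndF0q1) (n2 := ndF4q3) (pc := pcF1) (cut := cut_B04mm_113_s1) (xt := Ext.none) (P1 := 536870912) (W1 := 536870912) (P2 := 0) (W2 := 1230186008) (P3 := 402653184) (W3 := 67108864)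
    rfl k0_B04mm_113_s1

theorem s_B04mm_113_s1 {κ x : ℝ} (hκ : κ * h0 = ken x) (hx : ((402653184 : ℕ) : ℝ) / S ≤ x)
    (hx' : x ≤ (((402653184 : ℕ) : ℝ) + (67108864 : ℕ)) / S) :
    AltB (VF κ) PP tKF tL pcF [⟨3, 0, 0, 1449551462⟩] 1 1 3 0 4 (sgb false) (sgb false) x :=
  strip_altB (m := 1449551462) true rfl hκ covF01 covF43 hx hx' c_B04mm_113_s1 cutB_nil (noExt_B)

noncomputable def cut_B04mm_123_s1 : Cut := Cut.of [[⟨4, 0, 0, 1449551462⟩]]

noncomputable def f_B04mm_123_s1 : ℕ → ℕ → ℕ → ℕ → Bool := onCell 1073741824 536870912 0 1230186008 402653184 67108864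
    (rowF 2 false false false .npn 1 2 3 (qsf 536870912 536870912 0 1230186008 2) ndF0q1 ndF4q3 pcF2 cut_B04mm_123_s1 Ext.none)

def k0_B04mm_123_s1 : ∃ t, chk3 f_B04mm_123_s1 t 1 1 1 = true :=
  ⟨(b (l 5) (l 5)), by decide +kernel⟩

theorem c_B04mm_123_s1 : CertF 536870912 536870912 0 1230186008 402653184 67108864 false false false .npn 1 2 3
    ndF0q1 ndF4q3 pcF2 cut_B04mm_123_s1 Ext.none :=
  certF2 (fam := false) (s1 := false) (s2 := false) (a := 1) (b := 2) (c := 3) (cn := .npn) (n1 := ndF0q1) (n2 := ndF4q3) (pc := pcF2) (cut := cut_B04mm_123_s1) (xt := Ext.none) (P1 := 536870912) (W1 := 536870912) (P2 := 0) (W2 := 1230186008) (P3 := 402653184) (W3 := 67108864)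
    rfl (fun _ => rfl) k0_B04mm_123_s1

theorem s_B04mm_123_s1 {κ x : ℝ} (hκ : κ * h0 = ken x) (hx : ((402653184 : ℕ) : ℝ) / S ≤ x)
    (hx' : x ≤ (((402653184 : ℕ) : ℝ) + (67108864 : ℕ)) / S) :
    AltB (VF κ) PP tKF tL pcF [⟨3, 0, 0, 1449551462⟩] 1 2 3 0 4 (sgb false) (sgb false) x :=
  strip_altB (m := 1449551462) true rfl hκ covF01 covF43 hx hx' c_B04mm_123_s1 cutB_nil (noExt_B)

noncomputable def cut_B04mm_133_s1 : Cut := Cut.of [[⟨4, 0, 0, 1449551462⟩]]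

noncomputable def f_B04mm_133_s1 : ℕ → ℕ → ℕ → ℕ → Bool := onCell 1610612736 536870912 0 1230186008 402653184 67108864
    (rowF 2 false false false .dn 1 3 3 (qsf 536870912 536870912 0 1230186008 3) ndF0q1 ndF4q3 pcF3 cut_B04mm_133_s1 Ext.none)

def k0_B04mm_133_s1 : ∃ t, chk3 f_B04mm_133_s1 t 1 1 1 = true :=
  ⟨(l 5), by decide +kernel⟩

theorem c_B04mm_133_s1 : CertF 536870912 536870912 0 1230186008 402653184 67108864 false false false .dn 1 3 3
    ndF0q1 ndF4q3 pcF3 cut_B04mm_133_s1 Ext.none :=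
  certF2 (fam := false) (s1 := false) (s2 := false) (a := 1) (b := 3) (c := 3) (cn := .dn) (n1 := ndF0q1) (n2 := ndF4q3) (pc := pcF3) (cut := cut_B04mm_133_s1) (xt := Ext.none) (P1 := 536870912) (W1 := 536870912) (P2 := 0) (W2 := 1230186008) (P3 := 402653184) (W3 := 67108864)
    rfl (fun _ => rfl) k0_B04mm_133_s1

theorem s_B04mm_133_s1 {κ x : ℝ} (hκ : κ * h0 = ken x) (hx : ((402653184 : ℕ) : ℝ) / S ≤ x)
    (hx' : x ≤ (((402653184 : ℕ) : ℝ) + (67108864 : ℕ)) / S) :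
    AltB (VF κ) PP tKF tL pcF [⟨3, 0, 0, 1449551462⟩] 1 3 3 0 4 (sgb false) (sgb false) x :=
  strip_altB (m := 1449551462) true rfl hκ covF01 covF43 hx hx' c_B04mm_133_s1 cutB_nil (noExt_B)

noncomputable def cut_B04mm_202_s1 : Cut := Cut.of [[⟨4, 0, 0, 1449551462⟩], [⟨0, 1, 0, 67108864⟩, ⟨1, 0, 0, 67108864⟩, ⟨2, 1, 0, 67108864⟩]]

noncomputable def xt_B04mm_202_s1 : Ext := strExt dd false false false .u2 .s2m .u0m .pp 2 0 2 rfl rfl gf0 vv ndF0q2 ndF4q2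

noncomputable def f_B04mm_202_s1 : ℕ → ℕ → ℕ → ℕ → Bool := onCell 0 536870912 0 536870912 402653184 67108864
    (rowF 1 false false false .pp 2 0 2 (qsf 0 536870912 1073741824 536870912 0) ndF0q2 ndF4q2 pcF0 cut_B04mm_202_s1 xt_B04mm_202_s1)

def k0_B04mm_202_s1 : ∃ t, chk3 f_B04mm_202_s1 t 1 2 1 = true :=
  ⟨(a (b (a (l 6) (b (a (l 6) (b (l 6) (l 16695488))) (a (b (l 6) (l 16725632)) (b (l 16701584) (l 16682296))))) (a (b (l 6) (a (l 6) (l 16696200))) (a (b (l 16699472) (l 16923136)) (b (b (l 16660232) (l 16665528)) (a (l 16771352) (l 16783232)))))) (b (a (b (b (a (b (l 16686168) (l 16691536)) (a (l 16908912) (b (l 16705136) (l 16696256)))) (a (l 16694280) (l 16685920))) (a (b (l 16674816) (l 16741136)) (a (b (l 16667528) (l 16763472)) (b (a (l 16758336) (l 16775400)) (l 533079055))))) (b (a (b (a (b (l 16709288) (l 16704096)) (b (a (l 16717224) (l 16724552)) (l 16717976))) (a (b (l 16699928) (l 16779488))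 (a (b (l 16793160) (l 16765312)) (b (b (l 16720944) (l 16730808)) (l 16763496))))) (b (a (b (l 14) (a (b (l 14) (l 16764224)) (l 14))) (l 14)) (a (a (b (b (l 16763024) (l 16771072)) (a (l 531429903) (l 531336207))) (a (a (l 531288847) (l 531242511)) (a (l 532805903) (b (l 531205647) (l 3))))) (b (a (a (a (l 531156751) (a (l 531132687) (l 531108879))) (l 3)) (l 3)) (l 3))))) (a (a (b (b (l 16763216) (l 16768568)) (a (l 531789071) (l 531618319))) (a (b (l 531604495) (l 531436047)) (b (a (l 531488271) (l 531397391)) (a (l 531315727) (l 3))))) (b (a (a (a (l 531303951) (l 532281103)) (l 3)) (l 3)) (l 3))))) (a (a (b (b (a (l 16660160) (l 16679664)) (l 16778344)) (a (l 534757903) (l 533065487))) (b (a (b (l 16790912) (l 532301327)) (a (l 532012047) (l 531849487))) (a (b (l 532391183) (l 532388367)) (b (l 532038671) (l 3))))) (b (a (a (a (b (l 531593999) (l 531714319)) (b (l 531428367) (l 3))) (l 3)) (l 3)) (l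 3))))), by decide +kernel⟩

def k1_B04mm_202_s1 : ∃ t, chk3 f_B04mm_202_s1 t 1 3 1 = true :=
  ⟨(a (a (b (b (a (l 16706152) (l 16689760)) (a (l 16751168) (l 16748576))) (l 2)) (b (a (b (l 16779256) (b (l 16830648) (l 535925263))) (a (b (l 535064079) (l 535490831)) (b (l 533337359) (b (l 534395663) (l 535195663))))) (a (l 2) (a (l 2) (l 3))))) (b (a (a (b (a (b (l 533024015) (l 532777231)) (b (l 532642831) (l 3))) (l 3)) (l 3)) (l 3)) (l 3))), by decide +kernel⟩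

theorem t2_B04mm_202_s1 : ∃ t, chk3 f_B04mm_202_s1 t 1 1 1 = true := ex3_b k0_B04mm_202_s1 k1_B04mm_202_s1

theorem c_B04mm_202_s1 : CertF 0 536870912 1073741824 536870912 402653184 67108864 false false false .pp 2 0 2
    ndF0q2 ndF4q2 pcF0 cut_B04mm_202_s1 xt_B04mm_202_s1 :=
  certF1 (fam := false) (s1 := false) (s2 := false) (a := 2) (b := 0) (c := 2) (cn := .pp) (n1 := ndF0q2) (n2 := ndF4q2) (pc := pcF0) (cut := cut_B04mm_202_s1) (xt := xt_B04mm_202_s1) (P1 := 0) (W1 := 536870912) (P2 := 1073741824) (W2 := 536870912) (P3 := 402653184) (W3 := 67108864)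
    rfl (fun _ => rfl) t2_B04mm_202_s1

theorem s_B04mm_202_s1 {κ x : ℝ} (hκ : κ * h0 = ken x) (hx : ((402653184 : ℕ) : ℝ) / S ≤ x)
    (hx' : x ≤ (((402653184 : ℕ) : ℝ) + (67108864 : ℕ)) / S)
    (H : CutB (VF κ) PP tKF tL pcF (Cut.of [[⟨0, 1, 0, 67108864⟩, ⟨1, 0, 0, 67108864⟩, ⟨2, 1, 0, 67108864⟩]]) 2 0 2 0 4 (sgb false) (sgb false) x) :
    AltB (VF κ) PP tKF tL pcF [⟨3, 0, 0, 1449551462⟩] 2 0 2 0 4 (sgb false) (sgb false) x :=
  strip_altB (m := 1449551462) true rfl hκ covF02 covF42 hx hx' c_B04mm_202_s1 H ((okx hx hx').extB (T := tt) (sideF hx hx') hκ rfl rfl (.O 2 false) (.N 2 false) (Or.inl rfl))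

noncomputable def cut_B04mm_203_s1 : Cut := Cut.of [[⟨4, 0, 0, 1449551462⟩]]

noncomputable def xt_B04mm_203_s1 : Ext := strExt dd false false false .u2 .s2m .u0m .up 2 0 3 rfl rfl gf0 vv ndF0q2 ndF4q3

noncomputable def f_B04mm_203_s1 : ℕ → ℕ → ℕ → ℕ → Bool := onCell 0 536870912 0 1230186008 402653184 67108864
    (rowF 0 false false false .up 2 0 3 (qsf 0 536870912 0 1230186008 0) ndF0q2 ndF4q3 pcF0 cut_B04mm_203_s1 xt_B04mm_203_s1)

def k0_B04mm_203_s1 : ∃ t, chk3 f_B04mm_203_s1 t 1 1 1 = true :=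
  ⟨(b (l 2) (b (l 2) (a (a (b (b (l 2) (b (l 2) (a (l 538683919) (a (l 537623823) (l 3))))) (a (b (b (l 16788896) (l 16785512)) (l 16773072)) (b (a (b (b (l 537437455) (l 16781728)) (l 16781000)) (b (l 537357583) (l 537079567))) (b (l 16796408) (l 16763328))))) (b (l 3) (b (a (b (l 3) (l 537057551)) (l 3)) (a (b (l 536681743) (l 536213519)) (a (l 536333071) (l 3)))))) (l 3)))), by decide +kernel⟩

theorem c_B04mm_203_s1 : CertF 0 536870912 0 1230186008 402653184 67108864 false false false .up 2 0 3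
    ndF0q2 ndF4q3 pcF0 cut_B04mm_203_s1 xt_B04mm_203_s1 :=
  certF0 (fam := false) (s1 := false) (s2 := false) (a := 2) (b := 0) (c := 3) (cn := .up) (n1 := ndF0q2) (n2 := ndF4q3) (pc := pcF0) (cut := cut_B04mm_203_s1) (xt := xt_B04mm_203_s1) (P1 := 0) (W1 := 536870912) (P2 := 0) (W2 := 1230186008) (P3 := 402653184) (W3 := 67108864)
    rfl k0_B04mm_203_s1

theorem s_B04mm_203_s1 {κ x : ℝ} (hκ : κ * h0 = ken x) (hx : ((402653184 : ℕ) : ℝ) / S ≤ x)
    (hx' : x ≤ (((402653184 : ℕ) : ℝ) + (67108864 : ℕ)) / S) :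
    AltB (VF κ) PP tKF tL pcF [⟨3, 0, 0, 1449551462⟩] 2 0 3 0 4 (sgb false) (sgb false) x :=
  strip_altB (m := 1449551462) true rfl hκ covF02 covF43 hx hx' c_B04mm_203_s1 cutB_nil ((okx hx hx').extB (T := tt) (sideF hx hx') hκ rfl rfl (.O 2 false) (.N 3 false) (Or.inl rfl))

noncomputable def cut_B04mm_213_s1 : Cut := Cut.of [[⟨4, 0, 0, 1449551462⟩]]

noncomputable def xt_B04mm_213_s1 : Ext := strExt dd false false false .u2 .s2m .u0m .pnn 2 1 3 rfl rfl gf1 vv ndF0q2 ndF4q3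

noncomputable def f_B04mm_213_s1 : ℕ → ℕ → ℕ → ℕ → Bool := onCell 0 536870912 0 1230186008 402653184 67108864
    (rowF 0 false false false .pnn 2 1 3 (qsf 0 536870912 0 1230186008 1) ndF0q2 ndF4q3 pcF1 cut_B04mm_213_s1 xt_B04mm_213_s1)

def k0_B04mm_213_s1 : ∃ t, chk3 f_B04mm_213_s1 t 1 1 1 = true :=
  ⟨(b (a (l 3) (b (l 5) (l 3))) (b (b (l 3) (a (a (l 3) (l 3)) (l 3))) (a (a (b (a (b (l 538332175) (b (l 538700303) (a (l 16824256) (l 539169551)))) (b (l 3) (a (l 538831887) (a (l 538759183) (l 3))))) (l 1)) (b (l 3) (b (a (l 1) (l 3)) (l 1)))) (l 3)))), by decide +kernel⟩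

theorem c_B04mm_213_s1 : CertF 0 536870912 0 1230186008 402653184 67108864 false false false .pnn 2 1 3
    ndF0q2 ndF4q3 pcF1 cut_B04mm_213_s1 xt_B04mm_213_s1 :=
  certF0 (fam := false) (s1 := false) (s2 := false) (a := 2) (b := 1) (c := 3) (cn := .pnn) (n1 := ndF0q2) (n2 := ndF4q3) (pc := pcF1) (cut := cut_B04mm_213_s1) (xt := xt_B04mm_213_s1) (P1 := 0) (W1 := 536870912) (P2 := 0) (W2 := 1230186008) (P3 := 402653184) (W3 := 67108864)
    rfl k0_B04mm_213_s1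

theorem s_B04mm_213_s1 {κ x : ℝ} (hκ : κ * h0 = ken x) (hx : ((402653184 : ℕ) : ℝ) / S ≤ x)
    (hx' : x ≤ (((402653184 : ℕ) : ℝ) + (67108864 : ℕ)) / S) :
    AltB (VF κ) PP tKF tL pcF [⟨3, 0, 0, 1449551462⟩] 2 1 3 0 4 (sgb false) (sgb false) x :=
  strip_altB (m := 1449551462) true rfl hκ covF02 covF43 hx hx' c_B04mm_213_s1 cutB_nil ((okx hx hx').extB (T := tt) (sideF hx hx') hκ rfl rfl (.O 2 false) (.N 3 false) (Or.inr rfl))

noncomputable def cut_B40pp_001_s1 : Cut := Cut.of [[⟨4, 0, 0, 1449551462⟩]]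

noncomputable def xt_B40pp_001_s1 : Ext := strExt dd false true true .s0 .u0 .u0m .up 0 0 1 rfl rfl gf0 vv ndF4q0 ndF0q1

noncomputable def f_B40pp_001_s1 : ℕ → ℕ → ℕ → ℕ → Bool := onCell 0 536870912 536870912 536870912 402653184 67108864
    (rowF 2 false true true .up 0 0 1 (qsf 0 536870912 536870912 536870912 0) ndF4q0 ndF0q1 pcF0 cut_B40pp_001_s1 xt_B40pp_001_s1)

def k0_B40pp_001_s1 : ∃ t, chk3 f_B40pp_001_s1 t 1 1 1 = true :=
  ⟨(a (b (l 3) (b (b (l 3) (l 2)) (l 2))) (a (b (l 3) (b (b (a (a (l 3) (l 535036687)) (a (l 536214031) (l 537128463))) (a (l 531691279) (a (l 533742095) (l 535092751)))) (b (a (l 2) (b (l 532211215) (l 2))) (l 2)))) (b (b (l 3) (b (a (l 3) (b (a (l 3) (l 540488719)) (a (l 540020495) (l 540067599)))) (a (l 539256079) (a (l 539584527) (l 539703055))))) (b (a (b (b (l 538428943) (l 537774863)) (a (l 536134927) (l 536965903))) (b (a (l 538760207) (l 538988559)) (b (l 16813960) (l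 16801352)))) (a (b (b (l 16713288) (l 16642288)) (b (l 16532216) (l 2))) (b (l 536501007) (b (l 16665976) (l 6)))))))), by decide +kernel⟩

theorem c_B40pp_001_s1 : CertF 0 536870912 536870912 536870912 402653184 67108864 false true true .up 0 0 1
    ndF4q0 ndF0q1 pcF0 cut_B40pp_001_s1 xt_B40pp_001_s1 :=
  certF2 (fam := false) (s1 := true) (s2 := true) (a := 0) (b := 0) (c := 1) (cn := .up) (n1 := ndF4q0) (n2 := ndF0q1) (pc := pcF0) (cut := cut_B40pp_001_s1) (xt := xt_B40pp_001_s1) (P1 := 0) (W1 := 536870912) (P2 := 536870912) (W2 := 536870912) (P3 := 402653184) (W3 := 67108864)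
    rfl (fun _ => rfl) k0_B40pp_001_s1

theorem s_B40pp_001_s1 {κ x : ℝ} (hκ : κ * h0 = ken x) (hx : ((402653184 : ℕ) : ℝ) / S ≤ x)
    (hx' : x ≤ (((402653184 : ℕ) : ℝ) + (67108864 : ℕ)) / S) :
    AltB (VF κ) PP tKF tL pcF [⟨3, 0, 0, 1449551462⟩] 0 0 1 4 0 (sgb true) (sgb true) x :=
  strip_altB (m := 1449551462) true rfl hκ covF40 covF01 hx hx' c_B40pp_001_s1 cutB_nil ((okx hx hx').extB (T := tt) (sideF hx hx') hκ rfl rfl (.N 0 true) (.O 1 true) (Or.inl rfl))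

noncomputable def cut_B40pp_011_s1 : Cut := Cut.of [[⟨4, 0, 0, 1449551462⟩]]

noncomputable def xt_B40pp_011_s1 : Ext := strExt dd false true true .s0 .u0 .u0m .pnn 0 1 1 rfl rfl gf1 vv ndF4q0 ndF0q1

noncomputable def f_B40pp_011_s1 : ℕ → ℕ → ℕ → ℕ → Bool := onCell 536870912 536870912 536870912 536870912 402653184 67108864
    (rowF 2 false true true .pnn 0 1 1 (qsf 0 536870912 536870912 536870912 1) ndF4q0 ndF0q1 pcF1 cut_B40pp_011_s1 xt_B40pp_011_s1)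

def k0_B40pp_011_s1 : ∃ t, chk3 f_B40pp_011_s1 t 1 1 1 = true :=
  ⟨(a (a (b (b (b (a (l 3) (b (l 1) (l 542232335))) (a (a (b (l 3) (l 541848591)) (l 541663759)) (a (l 541575439) (l 541653263)))) (a (b (a (b (a (l 541773583) (l 541678607)) (l 541364239)) (b (l 541547535) (l 541261839))) (a (b (l 540958223) (l 16840072)) (b (l 16842472) (l 16859792)))) (b (b (l 541295119) (a (l 16842728) (l 16862248))) (a (b (l 16861856) (l 16879248)) (l 16890640))))) (b (a (b (a (l 539850255) (l 16878208)) (a (l 16848472) (l 16874904))) (b (b (l 16903512) (l 16913016)) (l 16913344))) (b (a (l 16790656) (l 16869536)) (l 6)))) (a (b (b (b (l 1) (a (a (l 126198286423) (l 1)) (l 1))) (b (a (b (l 16862984) (l 16881872)) (l 16897280)) (a (l 16910232) (l 16929768)))) (b (b (l 16951024) (l 16962248)) (l 6))) (b (b (l 1) (b (l 201360547943) (l 16966000))) (b (b (l 16992368) (l 6)) (l 6))))) (b (a (b (l 1) (a (b (l 1) (l 17034008))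 (l 1))) (l 1)) (a (b (b (l 6) (l 6)) (l 6)) (l 6)))), by decide +kernel⟩

theorem c_B40pp_011_s1 : CertF 0 536870912 536870912 536870912 402653184 67108864 false true true .pnn 0 1 1
    ndF4q0 ndF0q1 pcF1 cut_B40pp_011_s1 xt_B40pp_011_s1 :=
  certF2 (fam := false) (s1 := true) (s2 := true) (a := 0) (b := 1) (c := 1) (cn := .pnn) (n1 := ndF4q0) (n2 := ndF0q1) (pc := pcF1) (cut := cut_B40pp_011_s1) (xt := xt_B40pp_011_s1) (P1 := 0) (W1 := 536870912) (P2 := 536870912) (W2 := 536870912) (P3 := 402653184) (W3 := 67108864)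
    rfl (fun _ => rfl) k0_B40pp_011_s1

theorem s_B40pp_011_s1 {κ x : ℝ} (hκ : κ * h0 = ken x) (hx : ((402653184 : ℕ) : ℝ) / S ≤ x)
    (hx' : x ≤ (((402653184 : ℕ) : ℝ) + (67108864 : ℕ)) / S) :
    AltB (VF κ) PP tKF tL pcF [⟨3, 0, 0, 1449551462⟩] 0 1 1 4 0 (sgb true) (sgb true) x :=
  strip_altB (m := 1449551462) true rfl hκ covF40 covF01 hx hx' c_B40pp_011_s1 cutB_nil ((okx hx hx').extB (T := tt) (sideF hx hx') hκ rfl rfl (.N 0 true) (.O 1 true) (Or.inr rfl))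

noncomputable def cut_B40pp_012_s1 : Cut := Cut.of [[⟨4, 0, 0, 1449551462⟩]]

noncomputable def f_B40pp_012_s1 : ℕ → ℕ → ℕ → ℕ → Bool := onCell 0 536870912 0 536870912 402653184 67108864
    (rowF 0 false true true .pnp 0 1 2 (qsf 0 536870912 0 536870912 1) ndF4q0 ndF0q2 pcF1 cut_B40pp_012_s1 Ext.none)

def k0_B40pp_012_s1 : ∃ t, chk3 f_B40pp_012_s1 t 1 1 1 = true :=
  ⟨(a (l 6) (l 6)), by decide +kernel⟩

theorem c_B40pp_012_s1 : CertF 0 536870912 0 536870912 402653184 67108864 false true true .pnp 0 1 2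
    ndF4q0 ndF0q2 pcF1 cut_B40pp_012_s1 Ext.none :=
  certF0 (fam := false) (s1 := true) (s2 := true) (a := 0) (b := 1) (c := 2) (cn := .pnp) (n1 := ndF4q0) (n2 := ndF0q2) (pc := pcF1) (cut := cut_B40pp_012_s1) (xt := Ext.none) (P1 := 0) (W1 := 536870912) (P2 := 0) (W2 := 536870912) (P3 := 402653184) (W3 := 67108864)
    rfl k0_B40pp_012_s1

theorem s_B40pp_012_s1 {κ x : ℝ} (hκ : κ * h0 = ken x) (hx : ((402653184 : ℕ) : ℝ) / S ≤ x)
    (hx' : x ≤ (((402653184 : ℕ) : ℝ) + (67108864 : ℕ)) / S) :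
    AltB (VF κ) PP tKF tL pcF [⟨3, 0, 0, 1449551462⟩] 0 1 2 4 0 (sgb true) (sgb true) x :=
  strip_altB (m := 1449551462) true rfl hκ covF40 covF02 hx hx' c_B40pp_012_s1 cutB_nil (noExt_B)

noncomputable def cut_B40pp_022_s1 : Cut := Cut.of [[⟨4, 0, 0, 1449551462⟩]]

noncomputable def f_B40pp_022_s1 : ℕ → ℕ → ℕ → ℕ → Bool := onCell 1073741824 536870912 0 536870912 402653184 67108864
    (rowF 2 false true true .pp 0 2 2 (qsf 0 536870912 0 536870912 2) ndF4q0 ndF0q2 pcF2 cut_B40pp_022_s1 Ext.none)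

def k0_B40pp_022_s1 : ∃ t, chk3 f_B40pp_022_s1 t 1 1 1 = true :=
  ⟨(l 6), by decide +kernel⟩

theorem c_B40pp_022_s1 : CertF 0 536870912 0 536870912 402653184 67108864 false true true .pp 0 2 2
    ndF4q0 ndF0q2 pcF2 cut_B40pp_022_s1 Ext.none :=
  certF2 (fam := false) (s1 := true) (s2 := true) (a := 0) (b := 2) (c := 2) (cn := .pp) (n1 := ndF4q0) (n2 := ndF0q2) (pc := pcF2) (cut := cut_B40pp_022_s1) (xt := Ext.none) (P1 := 0) (W1 := 536870912) (P2 := 0) (W2 := 536870912) (P3 := 402653184) (W3 := 67108864)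
    rfl (fun _ => rfl) k0_B40pp_022_s1

theorem s_B40pp_022_s1 {κ x : ℝ} (hκ : κ * h0 = ken x) (hx : ((402653184 : ℕ) : ℝ) / S ≤ x)
    (hx' : x ≤ (((402653184 : ℕ) : ℝ) + (67108864 : ℕ)) / S) :
    AltB (VF κ) PP tKF tL pcF [⟨3, 0, 0, 1449551462⟩] 0 2 2 4 0 (sgb true) (sgb true) x :=
  strip_altB (m := 1449551462) true rfl hκ covF40 covF02 hx hx' c_B40pp_022_s1 cutB_nil (noExt_B)

noncomputable def cut_B40pp_101_s1 : Cut := Cut.of [[⟨4, 0, 0, 1449551462⟩], [⟨0, 1, 0, 67108864⟩, ⟨1, 0, 0, 67108864⟩, ⟨2, 1, 0, 67108864⟩]]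

noncomputable def xt_B40pp_101_s1 : Ext := strExt dd false true true .s0 .u0 .u0m .npn 1 0 1 rfl rfl gf0 vv ndF4q1 ndF0q1

noncomputable def f_B40pp_101_s1 : ℕ → ℕ → ℕ → ℕ → Bool := onCell 536870912 536870912 536870912 536870912 402653184 67108864
    (rowF 0 false true true .npn 1 0 1 (qsf 536870912 536870912 536870912 536870912 0) ndF4q1 ndF0q1 pcF0 cut_B40pp_101_s1 xt_B40pp_101_s1)

def k0_B40pp_101_s1 : ∃ t, chk3 f_B40pp_101_s1 t 1 1 1 = true :=
  ⟨(a (b (l 3) (b (a (b (a (a (l 534842895) (l 3)) (l 3)) (a (b (l 534200847) (l 533781263)) (b (l 528408591) (l 529523215)))) (b (l 3) (a (b (l 3) (l 529877263)) (l 3)))) (a (b (a (b (l 533077007) (l 16622488)) (b (l 530434831) (l 531193871))) (a (b (l 16572416) (l 6)) (b (l 16534240) (l 16468320)))) (b (a (a (l 530521615) (l 530815247)) (b (a (l 529602575) (l 529365775)) (a (l 530373135) (l 530146063)))) (b (a (l 16664096) (l 531970319)) (a (l 16509632) (l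 16635504))))))) (b (l 3) (a (b (l 3) (b (b (l 3) (a (a (l 529872143) (l 529746703)) (a (l 530063119) (l 3)))) (a (a (b (l 530508047) (l 16587320)) (b (l 530257167) (l 16697776))) (a (b (l 530198543) (l 530648079)) (b (a (l 530288399) (l 530302479)) (l 532267535)))))) (b (l 3) (b (l 3) (b (a (b (l 3) (a (a (l 530445327) (l 530445839)) (a (l 530426383) (l 3)))) (l 3)) (b (a (a (l 531654927) (a (l 530655247) (l 530626575))) (a (a (a (l 530659343) (l 14)) (l 14)) (l 3))) (a (a (l 531340047) (a (l 530877455) (l 530861327))) (a (a (a (l 530895375) (l 14)) (l 14)) (l 14)))))))))), by decide +kernel⟩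

theorem c_B40pp_101_s1 : CertF 536870912 536870912 536870912 536870912 402653184 67108864 false true true .npn 1 0 1
    ndF4q1 ndF0q1 pcF0 cut_B40pp_101_s1 xt_B40pp_101_s1 :=
  certF0 (fam := false) (s1 := true) (s2 := true) (a := 1) (b := 0) (c := 1) (cn := .npn) (n1 := ndF4q1) (n2 := ndF0q1) (pc := pcF0) (cut := cut_B40pp_101_s1) (xt := xt_B40pp_101_s1) (P1 := 536870912) (W1 := 536870912) (P2 := 536870912) (W2 := 536870912) (P3 := 402653184) (W3 := 67108864)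
    rfl k0_B40pp_101_s1

theorem s_B40pp_101_s1 {κ x : ℝ} (hκ : κ * h0 = ken x) (hx : ((402653184 : ℕ) : ℝ) / S ≤ x)
    (hx' : x ≤ (((402653184 : ℕ) : ℝ) + (67108864 : ℕ)) / S)
    (H : CutB (VF κ) PP tKF tL pcF (Cut.of [[⟨0, 1, 0, 67108864⟩, ⟨1, 0, 0, 67108864⟩, ⟨2, 1, 0, 67108864⟩]]) 1 0 1 4 0 (sgb true) (sgb true) x) :
    AltB (VF κ) PP tKF tL pcF [⟨3, 0, 0, 1449551462⟩] 1 0 1 4 0 (sgb true) (sgb true) x :=
  strip_altB (m := 1449551462) true rfl hκ covF41 covF01 hx hx' c_B40pp_101_s1 H ((okx hx hx').extB (T := tt) (sideF hx hx') hκ rfl rfl (.N 1 true) (.O 1 true) (Or.inl rfl))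

noncomputable def cut_B40pp_102_s1 : Cut := Cut.of [[⟨4, 0, 0, 1449551462⟩], [⟨0, 1, 0, 67108864⟩, ⟨1, 0, 0, 67108864⟩, ⟨2, 1, 0, 67108864⟩]]

noncomputable def f_B40pp_102_s1 : ℕ → ℕ → ℕ → ℕ → Bool := onCell 536870912 536870912 0 536870912 402653184 67108864
    (rowF 0 false true true .npp 1 0 2 (qsf 536870912 536870912 0 536870912 0) ndF4q1 ndF0q2 pcF0 cut_B40pp_102_s1 Ext.none)

def k0_B40pp_102_s1 : ∃ t, chk3 f_B40pp_102_s1 t 1 1 1 = true :=
  ⟨(a (b (l 6) (a (l 6) (b (l 6) (b (l 6) (a (l 16514416) (l 16537504)))))) (b (l 6) (b (a (l 6) (b (l 6) (a (l 16650072) (a (l 16657504) (l 16665104))))) (a (b (a (l 16603568) (l 16617616)) (b (a (l 16574216) (l 16604816)) (a (l 16560392) (l 16710928)))) (a (b (b (l 16640192) (l 16640424)) (b (a (l 16634176) (l 16657208)) (a (l 16688144) (b (l 16667504) (l 16682304))))) (a (b (l 16747168) (a (b (l 16675904) (b (l 16690000) (l 16706568))) (b (l 16689184) (b (l 16706208)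 (l 14))))) (a (b (l 16676544) (b (l 16703024) (l 14))) (b (l 16770048) (l 14))))))))), by decide +kernel⟩

theorem c_B40pp_102_s1 : CertF 536870912 536870912 0 536870912 402653184 67108864 false true true .npp 1 0 2
    ndF4q1 ndF0q2 pcF0 cut_B40pp_102_s1 Ext.none :=
  certF0 (fam := false) (s1 := true) (s2 := true) (a := 1) (b := 0) (c := 2) (cn := .npp) (n1 := ndF4q1) (n2 := ndF0q2) (pc := pcF0) (cut := cut_B40pp_102_s1) (xt := Ext.none) (P1 := 536870912) (W1 := 536870912) (P2 := 0) (W2 := 536870912) (P3 := 402653184) (W3 := 67108864)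
    rfl k0_B40pp_102_s1

theorem s_B40pp_102_s1 {κ x : ℝ} (hκ : κ * h0 = ken x) (hx : ((402653184 : ℕ) : ℝ) / S ≤ x)
    (hx' : x ≤ (((402653184 : ℕ) : ℝ) + (67108864 : ℕ)) / S)
    (H : CutB (VF κ) PP tKF tL pcF (Cut.of [[⟨0, 1, 0, 67108864⟩, ⟨1, 0, 0, 67108864⟩, ⟨2, 1, 0, 67108864⟩]]) 1 0 2 4 0 (sgb true) (sgb true) x) :
    AltB (VF κ) PP tKF tL pcF [⟨3, 0, 0, 1449551462⟩] 1 0 2 4 0 (sgb true) (sgb true) x :=
  strip_altB (m := 1449551462) true rfl hκ covF41 covF02 hx hx' c_B40pp_102_s1 H (noExt_B)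

noncomputable def cut_B40pp_112_s1 : Cut := Cut.of [[⟨4, 0, 0, 1449551462⟩]]

noncomputable def f_B40pp_112_s1 : ℕ → ℕ → ℕ → ℕ → Bool := onCell 536870912 536870912 0 536870912 402653184 67108864
    (rowF 2 false true true .dn 1 1 2 (qsf 536870912 536870912 0 536870912 1) ndF4q1 ndF0q2 pcF1 cut_B40pp_112_s1 Ext.none)

def k0_B40pp_112_s1 : ∃ t, chk3 f_B40pp_112_s1 t 1 1 1 = true :=
  ⟨(a (l 6) (l 1)), by decide +kernel⟩

theorem c_B40pp_112_s1 : CertF 536870912 536870912 0 536870912 402653184 67108864 false true true .dn 1 1 2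
    ndF4q1 ndF0q2 pcF1 cut_B40pp_112_s1 Ext.none :=
  certF2 (fam := false) (s1 := true) (s2 := true) (a := 1) (b := 1) (c := 2) (cn := .dn) (n1 := ndF4q1) (n2 := ndF0q2) (pc := pcF1) (cut := cut_B40pp_112_s1) (xt := Ext.none) (P1 := 536870912) (W1 := 536870912) (P2 := 0) (W2 := 536870912) (P3 := 402653184) (W3 := 67108864)
    rfl (fun _ => rfl) k0_B40pp_112_s1

theorem s_B40pp_112_s1 {κ x : ℝ} (hκ : κ * h0 = ken x) (hx : ((402653184 : ℕ) : ℝ) / S ≤ x)
    (hx' : x ≤ (((402653184 : ℕ) : ℝ) + (67108864 : ℕ)) / S) :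
    AltB (VF κ) PP tKF tL pcF [⟨3, 0, 0, 1449551462⟩] 1 1 2 4 0 (sgb true) (sgb true) x :=
  strip_altB (m := 1449551462) true rfl hκ covF41 covF02 hx hx' c_B40pp_112_s1 cutB_nil (noExt_B)

noncomputable def cut_B40pp_202_s1 : Cut := Cut.of [[⟨4, 0, 0, 1449551462⟩], [⟨0, 1, 0, 67108864⟩, ⟨1, 0, 0, 67108864⟩, ⟨2, 1, 0, 67108864⟩]]

noncomputable def f_B40pp_202_s1 : ℕ → ℕ → ℕ → ℕ → Bool := onCell 0 536870912 0 536870912 402653184 67108864
    (rowF 2 false true true .pp 2 0 2 (qsf 1073741824 536870912 0 536870912 0) ndF4q2 ndF0q2 pcF0 cut_B40pp_202_s1 Ext.none)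

def k0_B40pp_202_s1 : ∃ t, chk3 f_B40pp_202_s1 t 1 1 1 = true :=
  ⟨(a (b (a (l 6) (l 6)) (b (a (a (b (a (l 16685760) (l 16683520)) (a (b (l 16694320) (l 16700200)) (l 16686616))) (b (l 6) (a (l 16671696) (l 16658368)))) (l 1)) (a (b (a (a (b (l 16704312) (l 14)) (b (l 16689664) (a (l 14) (l 16695816)))) (a (b (l 16675032) (l 1)) (l 1))) (a (a (l 14) (a (l 14) (l 1))) (l 1))) (l 1)))) (l 1)), by decide +kernel⟩

theorem c_B40pp_202_s1 : CertF 1073741824 536870912 0 536870912 402653184 67108864 false true true .pp 2 0 2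
    ndF4q2 ndF0q2 pcF0 cut_B40pp_202_s1 Ext.none :=
  certF2 (fam := false) (s1 := true) (s2 := true) (a := 2) (b := 0) (c := 2) (cn := .pp) (n1 := ndF4q2) (n2 := ndF0q2) (pc := pcF0) (cut := cut_B40pp_202_s1) (xt := Ext.none) (P1 := 1073741824) (W1 := 536870912) (P2 := 0) (W2 := 536870912) (P3 := 402653184) (W3 := 67108864)
    rfl (fun _ => rfl) k0_B40pp_202_s1

theorem s_B40pp_202_s1 {κ x : ℝ} (hκ : κ * h0 = ken x) (hx : ((402653184 : ℕ) : ℝ) / S ≤ x)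
    (hx' : x ≤ (((402653184 : ℕ) : ℝ) + (67108864 : ℕ)) / S)
    (H : CutB (VF κ) PP tKF tL pcF (Cut.of [[⟨0, 1, 0, 67108864⟩, ⟨1, 0, 0, 67108864⟩, ⟨2, 1, 0, 67108864⟩]]) 2 0 2 4 0 (sgb true) (sgb true) x) :
    AltB (VF κ) PP tKF tL pcF [⟨3, 0, 0, 1449551462⟩] 2 0 2 4 0 (sgb true) (sgb true) x :=
  strip_altB (m := 1449551462) true rfl hκ covF42 covF02 hx hx' c_B40pp_202_s1 H (noExt_B)

noncomputable def cut_B40pm_001_s1 : Cut := Cut.of [[⟨4, 0, 0, 1449551462⟩]]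

noncomputable def f_B40pm_001_s1 : ℕ → ℕ → ℕ → ℕ → Bool := onCell 0 536870912 536870912 536870912 402653184 67108864
    (rowF 0 false true false .up 0 0 1 (qsf 0 536870912 536870912 536870912 0) ndF4q0 ndF0q1 pcF0 cut_B40pm_001_s1 Ext.none)

def k0_B40pm_001_s1 : ∃ t, chk3 f_B40pm_001_s1 t 1 1 1 = true :=
  ⟨(l 4), by decide +kernel⟩

theorem c_B40pm_001_s1 : CertF 0 536870912 536870912 536870912 402653184 67108864 false true false .up 0 0 1
    ndF4q0 ndF0q1 pcF0 cut_B40pm_001_s1 Ext.none :=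
  certF0 (fam := false) (s1 := true) (s2 := false) (a := 0) (b := 0) (c := 1) (cn := .up) (n1 := ndF4q0) (n2 := ndF0q1) (pc := pcF0) (cut := cut_B40pm_001_s1) (xt := Ext.none) (P1 := 0) (W1 := 536870912) (P2 := 536870912) (W2 := 536870912) (P3 := 402653184) (W3 := 67108864)
    rfl k0_B40pm_001_s1

theorem s_B40pm_001_s1 {κ x : ℝ} (hκ : κ * h0 = ken x) (hx : ((402653184 : ℕ) : ℝ) / S ≤ x)
    (hx' : x ≤ (((402653184 : ℕ) : ℝ) + (67108864 : ℕ)) / S) :
    AltB (VF κ) PP tKF tL pcF [⟨3, 0, 0, 1449551462⟩] 0 0 1 4 0 (sgb true) (sgb false) x :=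
  strip_altB (m := 1449551462) true rfl hκ covF40 covF01 hx hx' c_B40pm_001_s1 cutB_nil (noExt_B)

noncomputable def cut_B40pm_011_s1 : Cut := Cut.of [[⟨4, 0, 0, 1449551462⟩]]

noncomputable def f_B40pm_011_s1 : ℕ → ℕ → ℕ → ℕ → Bool := onCell 0 536870912 536870912 536870912 402653184 67108864
    (rowF 0 false true false .pnn 0 1 1 (qsf 0 536870912 536870912 536870912 1) ndF4q0 ndF0q1 pcF1 cut_B40pm_011_s1 Ext.none)

def k0_B40pm_011_s1 : ∃ t, chk3 f_B40pm_011_s1 t 1 1 1 = true :=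
  ⟨(l 4), by decide +kernel⟩

theorem c_B40pm_011_s1 : CertF 0 536870912 536870912 536870912 402653184 67108864 false true false .pnn 0 1 1
    ndF4q0 ndF0q1 pcF1 cut_B40pm_011_s1 Ext.none :=
  certF0 (fam := false) (s1 := true) (s2 := false) (a := 0) (b := 1) (c := 1) (cn := .pnn) (n1 := ndF4q0) (n2 := ndF0q1) (pc := pcF1) (cut := cut_B40pm_011_s1) (xt := Ext.none) (P1 := 0) (W1 := 536870912) (P2 := 536870912) (W2 := 536870912) (P3 := 402653184) (W3 := 67108864)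
    rfl k0_B40pm_011_s1

theorem s_B40pm_011_s1 {κ x : ℝ} (hκ : κ * h0 = ken x) (hx : ((402653184 : ℕ) : ℝ) / S ≤ x)
    (hx' : x ≤ (((402653184 : ℕ) : ℝ) + (67108864 : ℕ)) / S) :
    AltB (VF κ) PP tKF tL pcF [⟨3, 0, 0, 1449551462⟩] 0 1 1 4 0 (sgb true) (sgb false) x :=
  strip_altB (m := 1449551462) true rfl hκ covF40 covF01 hx hx' c_B40pm_011_s1 cutB_nil (noExt_B)

noncomputable def cut_B40pm_012_s1 : Cut := Cut.of [[⟨4, 0, 0, 1449551462⟩]]

noncomputable def f_B40pm_012_s1 : ℕ → ℕ → ℕ → ℕ → Bool := onCell 0 536870912 0 536870912 402653184 67108864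
    (rowF 0 false true false .pnp 0 1 2 (qsf 0 536870912 0 536870912 1) ndF4q0 ndF0q2 pcF1 cut_B40pm_012_s1 Ext.none)

def k0_B40pm_012_s1 : ∃ t, chk3 f_B40pm_012_s1 t 1 1 1 = true :=
  ⟨(l 6), by decide +kernel⟩

theorem c_B40pm_012_s1 : CertF 0 536870912 0 536870912 402653184 67108864 false true false .pnp 0 1 2
    ndF4q0 ndF0q2 pcF1 cut_B40pm_012_s1 Ext.none :=
  certF0 (fam := false) (s1 := true) (s2 := false) (a := 0) (b := 1) (c := 2) (cn := .pnp) (n1 := ndF4q0) (n2 := ndF0q2) (pc := pcF1) (cut := cut_B40pm_012_s1) (xt := Ext.none) (P1 := 0) (W1 := 536870912) (P2 := 0) (W2 := 536870912) (P3 := 402653184) (W3 := 67108864)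
    rfl k0_B40pm_012_s1

theorem s_B40pm_012_s1 {κ x : ℝ} (hκ : κ * h0 = ken x) (hx : ((402653184 : ℕ) : ℝ) / S ≤ x)
    (hx' : x ≤ (((402653184 : ℕ) : ℝ) + (67108864 : ℕ)) / S) :
    AltB (VF κ) PP tKF tL pcF [⟨3, 0, 0, 1449551462⟩] 0 1 2 4 0 (sgb true) (sgb false) x :=
  strip_altB (m := 1449551462) true rfl hκ covF40 covF02 hx hx' c_B40pm_012_s1 cutB_nil (noExt_B)

noncomputable def cut_B40pm_022_s1 : Cut := Cut.of [[⟨4, 0, 0, 1449551462⟩]]

noncomputable def f_B40pm_022_s1 : ℕ → ℕ → ℕ → ℕ → Bool := onCell 0 536870912 0 536870912 402653184 67108864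
    (rowF 0 false true false .pp 0 2 2 (qsf 0 536870912 0 536870912 2) ndF4q0 ndF0q2 pcF2 cut_B40pm_022_s1 Ext.none)

def k0_B40pm_022_s1 : ∃ t, chk3 f_B40pm_022_s1 t 1 1 1 = true :=
  ⟨(l 6), by decide +kernel⟩

theorem c_B40pm_022_s1 : CertF 0 536870912 0 536870912 402653184 67108864 false true false .pp 0 2 2
    ndF4q0 ndF0q2 pcF2 cut_B40pm_022_s1 Ext.none :=
  certF0 (fam := false) (s1 := true) (s2 := false) (a := 0) (b := 2) (c := 2) (cn := .pp) (n1 := ndF4q0) (n2 := ndF0q2) (pc := pcF2) (cut := cut_B40pm_022_s1) (xt := Ext.none) (P1 := 0) (W1 := 536870912) (P2 := 0) (W2 := 536870912) (P3 := 402653184) (W3 := 67108864)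
    rfl k0_B40pm_022_s1

theorem s_B40pm_022_s1 {κ x : ℝ} (hκ : κ * h0 = ken x) (hx : ((402653184 : ℕ) : ℝ) / S ≤ x)
    (hx' : x ≤ (((402653184 : ℕ) : ℝ) + (67108864 : ℕ)) / S) :
    AltB (VF κ) PP tKF tL pcF [⟨3, 0, 0, 1449551462⟩] 0 2 2 4 0 (sgb true) (sgb false) x :=
  strip_altB (m := 1449551462) true rfl hκ covF40 covF02 hx hx' c_B40pm_022_s1 cutB_nil (noExt_B)

noncomputable def cut_B40pm_101_s1 : Cut := Cut.of [[⟨4, 0, 0, 1449551462⟩]]

noncomputable def f_B40pm_101_s1 : ℕ → ℕ → ℕ → ℕ → Bool := onCell 536870912 536870912 536870912 536870912 402653184 67108864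
    (rowF 0 false true false .npn 1 0 1 (qsf 536870912 536870912 536870912 536870912 0) ndF4q1 ndF0q1 pcF0 cut_B40pm_101_s1 Ext.none)

def k0_B40pm_101_s1 : ∃ t, chk3 f_B40pm_101_s1 t 1 1 1 = true :=
  ⟨(l 4), by decide +kernel⟩

theorem c_B40pm_101_s1 : CertF 536870912 536870912 536870912 536870912 402653184 67108864 false true false .npn 1 0 1
    ndF4q1 ndF0q1 pcF0 cut_B40pm_101_s1 Ext.none :=
  certF0 (fam := false) (s1 := true) (s2 := false) (a := 1) (b := 0) (c := 1) (cn := .npn) (n1 := ndF4q1) (n2 := ndF0q1) (pc := pcF0) (cut := cut_B40pm_101_s1) (xt := Ext.none) (P1 := 536870912) (W1 := 536870912) (P2 := 536870912) (W2 := 536870912) (P3 := 402653184) (W3 := 67108864)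
    rfl k0_B40pm_101_s1

theorem s_B40pm_101_s1 {κ x : ℝ} (hκ : κ * h0 = ken x) (hx : ((402653184 : ℕ) : ℝ) / S ≤ x)
    (hx' : x ≤ (((402653184 : ℕ) : ℝ) + (67108864 : ℕ)) / S) :
    AltB (VF κ) PP tKF tL pcF [⟨3, 0, 0, 1449551462⟩] 1 0 1 4 0 (sgb true) (sgb false) x :=
  strip_altB (m := 1449551462) true rfl hκ covF41 covF01 hx hx' c_B40pm_101_s1 cutB_nil (noExt_B)

noncomputable def cut_B40pm_102_s1 : Cut := Cut.of [[⟨4, 0, 0, 1449551462⟩]]

noncomputable def f_B40pm_102_s1 : ℕ → ℕ → ℕ → ℕ → Bool := onCell 536870912 536870912 0 536870912 402653184 67108864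
    (rowF 0 false true false .npp 1 0 2 (qsf 536870912 536870912 0 536870912 0) ndF4q1 ndF0q2 pcF0 cut_B40pm_102_s1 Ext.none)

def k0_B40pm_102_s1 : ∃ t, chk3 f_B40pm_102_s1 t 1 1 1 = true :=
  ⟨(l 6), by decide +kernel⟩

theorem c_B40pm_102_s1 : CertF 536870912 536870912 0 536870912 402653184 67108864 false true false .npp 1 0 2
    ndF4q1 ndF0q2 pcF0 cut_B40pm_102_s1 Ext.none :=
  certF0 (fam := false) (s1 := true) (s2 := false) (a := 1) (b := 0) (c := 2) (cn := .npp) (n1 := ndF4q1) (n2 := ndF0q2) (pc := pcF0) (cut := cut_B40pm_102_s1) (xt := Ext.none) (P1 := 536870912) (W1 := 536870912) (P2 := 0) (W2 := 536870912) (P3 := 402653184) (W3 := 67108864)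
    rfl k0_B40pm_102_s1

theorem s_B40pm_102_s1 {κ x : ℝ} (hκ : κ * h0 = ken x) (hx : ((402653184 : ℕ) : ℝ) / S ≤ x)
    (hx' : x ≤ (((402653184 : ℕ) : ℝ) + (67108864 : ℕ)) / S) :
    AltB (VF κ) PP tKF tL pcF [⟨3, 0, 0, 1449551462⟩] 1 0 2 4 0 (sgb true) (sgb false) x :=
  strip_altB (m := 1449551462) true rfl hκ covF41 covF02 hx hx' c_B40pm_102_s1 cutB_nil (noExt_B)

noncomputable def cut_B40pm_112_s1 : Cut := Cut.of [[⟨4, 0, 0, 1449551462⟩]]

noncomputable def f_B40pm_112_s1 : ℕ → ℕ → ℕ → ℕ → Bool := onCell 536870912 536870912 0 536870912 402653184 67108864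
    (rowF 0 false true false .dn 1 1 2 (qsf 536870912 536870912 0 536870912 1) ndF4q1 ndF0q2 pcF1 cut_B40pm_112_s1 Ext.none)

def k0_B40pm_112_s1 : ∃ t, chk3 f_B40pm_112_s1 t 1 1 1 = true :=
  ⟨(l 6), by decide +kernel⟩

theorem c_B40pm_112_s1 : CertF 536870912 536870912 0 536870912 402653184 67108864 false true false .dn 1 1 2
    ndF4q1 ndF0q2 pcF1 cut_B40pm_112_s1 Ext.none :=
  certF0 (fam := false) (s1 := true) (s2 := false) (a := 1) (b := 1) (c := 2) (cn := .dn) (n1 := ndF4q1) (n2 := ndF0q2) (pc := pcF1) (cut := cut_B40pm_112_s1) (xt := Ext.none) (P1 := 536870912) (W1 := 536870912) (P2 := 0) (W2 := 536870912) (P3 := 402653184) (W3 := 67108864)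
    rfl k0_B40pm_112_s1

theorem s_B40pm_112_s1 {κ x : ℝ} (hκ : κ * h0 = ken x) (hx : ((402653184 : ℕ) : ℝ) / S ≤ x)
    (hx' : x ≤ (((402653184 : ℕ) : ℝ) + (67108864 : ℕ)) / S) :
    AltB (VF κ) PP tKF tL pcF [⟨3, 0, 0, 1449551462⟩] 1 1 2 4 0 (sgb true) (sgb false) x :=
  strip_altB (m := 1449551462) true rfl hκ covF41 covF02 hx hx' c_B40pm_112_s1 cutB_nil (noExt_B)

noncomputable def cut_B40pm_202_s1 : Cut := Cut.of [[⟨4, 0, 0, 1449551462⟩]]

noncomputable def f_B40pm_202_s1 : ℕ → ℕ → ℕ → ℕ → Bool := onCell 0 536870912 0 536870912 402653184 67108864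
    (rowF 2 false true false .pp 2 0 2 (qsf 1073741824 536870912 0 536870912 0) ndF4q2 ndF0q2 pcF0 cut_B40pm_202_s1 Ext.none)

def k0_B40pm_202_s1 : ∃ t, chk3 f_B40pm_202_s1 t 1 1 1 = true :=
  ⟨(l 6), by decide +kernel⟩

theorem c_B40pm_202_s1 : CertF 1073741824 536870912 0 536870912 402653184 67108864 false true false .pp 2 0 2
    ndF4q2 ndF0q2 pcF0 cut_B40pm_202_s1 Ext.none :=
  certF2 (fam := false) (s1 := true) (s2 := false) (a := 2) (b := 0) (c := 2) (cn := .pp) (n1 := ndF4q2) (n2 := ndF0q2) (pc := pcF0) (cut := cut_B40pm_202_s1) (xt := Ext.none) (P1 := 1073741824) (W1 := 536870912) (P2 := 0) (W2 := 536870912) (P3 := 402653184) (W3 := 67108864)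
    rfl (fun _ => rfl) k0_B40pm_202_s1

theorem s_B40pm_202_s1 {κ x : ℝ} (hκ : κ * h0 = ken x) (hx : ((402653184 : ℕ) : ℝ) / S ≤ x)
    (hx' : x ≤ (((402653184 : ℕ) : ℝ) + (67108864 : ℕ)) / S) :
    AltB (VF κ) PP tKF tL pcF [⟨3, 0, 0, 1449551462⟩] 2 0 2 4 0 (sgb true) (sgb false) x :=
  strip_altB (m := 1449551462) true rfl hκ covF42 covF02 hx hx' c_B40pm_202_s1 cutB_nil (noExt_B)

noncomputable def cut_B40mm_001_s1 : Cut := Cut.of [[⟨4, 0, 0, 1449551462⟩]]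

noncomputable def f_B40mm_001_s1 : ℕ → ℕ → ℕ → ℕ → Bool := onCell 0 536870912 536870912 536870912 402653184 67108864
    (rowF 0 false false false .up 0 0 1 (qsf 0 536870912 536870912 536870912 0) ndF4q0 ndF0q1 pcF0 cut_B40mm_001_s1 Ext.none)

def k0_B40mm_001_s1 : ∃ t, chk3 f_B40mm_001_s1 t 1 1 1 = true :=
  ⟨(l 5), by decide +kernel⟩

theorem c_B40mm_001_s1 : CertF 0 536870912 536870912 536870912 402653184 67108864 false false false .up 0 0 1
    ndF4q0 ndF0q1 pcF0 cut_B40mm_001_s1 Ext.none :=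
  certF0 (fam := false) (s1 := false) (s2 := false) (a := 0) (b := 0) (c := 1) (cn := .up) (n1 := ndF4q0) (n2 := ndF0q1) (pc := pcF0) (cut := cut_B40mm_001_s1) (xt := Ext.none) (P1 := 0) (W1 := 536870912) (P2 := 536870912) (W2 := 536870912) (P3 := 402653184) (W3 := 67108864)
    rfl k0_B40mm_001_s1

theorem s_B40mm_001_s1 {κ x : ℝ} (hκ : κ * h0 = ken x) (hx : ((402653184 : ℕ) : ℝ) / S ≤ x)
    (hx' : x ≤ (((402653184 : ℕ) : ℝ) + (67108864 : ℕ)) / S) :
    AltB (VF κ) PP tKF tL pcF [⟨3, 0, 0, 1449551462⟩] 0 0 1 4 0 (sgb false) (sgb false) x :=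
  strip_altB (m := 1449551462) true rfl hκ covF40 covF01 hx hx' c_B40mm_001_s1 cutB_nil (noExt_B)

noncomputable def cut_B40mm_011_s1 : Cut := Cut.of [[⟨4, 0, 0, 1449551462⟩]]

noncomputable def f_B40mm_011_s1 : ℕ → ℕ → ℕ → ℕ → Bool := onCell 0 536870912 536870912 536870912 402653184 67108864
    (rowF 0 false false false .pnn 0 1 1 (qsf 0 536870912 536870912 536870912 1) ndF4q0 ndF0q1 pcF1 cut_B40mm_011_s1 Ext.none)

def k0_B40mm_011_s1 : ∃ t, chk3 f_B40mm_011_s1 t 1 1 1 = true :=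
  ⟨(l 5), by decide +kernel⟩

theorem c_B40mm_011_s1 : CertF 0 536870912 536870912 536870912 402653184 67108864 false false false .pnn 0 1 1
    ndF4q0 ndF0q1 pcF1 cut_B40mm_011_s1 Ext.none :=
  certF0 (fam := false) (s1 := false) (s2 := false) (a := 0) (b := 1) (c := 1) (cn := .pnn) (n1 := ndF4q0) (n2 := ndF0q1) (pc := pcF1) (cut := cut_B40mm_011_s1) (xt := Ext.none) (P1 := 0) (W1 := 536870912) (P2 := 536870912) (W2 := 536870912) (P3 := 402653184) (W3 := 67108864)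
    rfl k0_B40mm_011_s1

theorem s_B40mm_011_s1 {κ x : ℝ} (hκ : κ * h0 = ken x) (hx : ((402653184 : ℕ) : ℝ) / S ≤ x)
    (hx' : x ≤ (((402653184 : ℕ) : ℝ) + (67108864 : ℕ)) / S) :
    AltB (VF κ) PP tKF tL pcF [⟨3, 0, 0, 1449551462⟩] 0 1 1 4 0 (sgb false) (sgb false) x :=
  strip_altB (m := 1449551462) true rfl hκ covF40 covF01 hx hx' c_B40mm_011_s1 cutB_nil (noExt_B)

noncomputable def cut_B40mm_012_s1 : Cut := Cut.of [[⟨4, 0, 0, 1449551462⟩]]

noncomputable def f_B40mm_012_s1 : ℕ → ℕ → ℕ → ℕ → Bool := onCell 0 536870912 0 536870912 402653184 67108864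
    (rowF 0 false false false .pnp 0 1 2 (qsf 0 536870912 0 536870912 1) ndF4q0 ndF0q2 pcF1 cut_B40mm_012_s1 Ext.none)

def k0_B40mm_012_s1 : ∃ t, chk3 f_B40mm_012_s1 t 1 1 1 = true :=
  ⟨(l 5), by decide +kernel⟩

theorem c_B40mm_012_s1 : CertF 0 536870912 0 536870912 402653184 67108864 false false false .pnp 0 1 2
    ndF4q0 ndF0q2 pcF1 cut_B40mm_012_s1 Ext.none :=
  certF0 (fam := false) (s1 := false) (s2 := false) (a := 0) (b := 1) (c := 2) (cn := .pnp) (n1 := ndF4q0) (n2 := ndF0q2) (pc := pcF1) (cut := cut_B40mm_012_s1) (xt := Ext.none) (P1 := 0) (W1 := 536870912) (P2 := 0) (W2 := 536870912) (P3 := 402653184) (W3 := 67108864)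
    rfl k0_B40mm_012_s1

theorem s_B40mm_012_s1 {κ x : ℝ} (hκ : κ * h0 = ken x) (hx : ((402653184 : ℕ) : ℝ) / S ≤ x)
    (hx' : x ≤ (((402653184 : ℕ) : ℝ) + (67108864 : ℕ)) / S) :
    AltB (VF κ) PP tKF tL pcF [⟨3, 0, 0, 1449551462⟩] 0 1 2 4 0 (sgb false) (sgb false) x :=
  strip_altB (m := 1449551462) true rfl hκ covF40 covF02 hx hx' c_B40mm_012_s1 cutB_nil (noExt_B)

noncomputable def cut_B40mm_022_s1 : Cut := Cut.of [[⟨4, 0, 0, 1449551462⟩]]

noncomputable def f_B40mm_022_s1 : ℕ → ℕ → ℕ → ℕ → Bool := onCell 0 536870912 0 536870912 402653184 67108864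
    (rowF 0 false false false .pp 0 2 2 (qsf 0 536870912 0 536870912 2) ndF4q0 ndF0q2 pcF2 cut_B40mm_022_s1 Ext.none)

def k0_B40mm_022_s1 : ∃ t, chk3 f_B40mm_022_s1 t 1 1 1 = true :=
  ⟨(l 5), by decide +kernel⟩

theorem c_B40mm_022_s1 : CertF 0 536870912 0 536870912 402653184 67108864 false false false .pp 0 2 2
    ndF4q0 ndF0q2 pcF2 cut_B40mm_022_s1 Ext.none :=
  certF0 (fam := false) (s1 := false) (s2 := false) (a := 0) (b := 2) (c := 2) (cn := .pp) (n1 := ndF4q0) (n2 := ndF0q2) (pc := pcF2) (cut := cut_B40mm_022_s1) (xt := Ext.none) (P1 := 0) (W1 := 536870912) (P2 := 0) (W2 := 536870912) (P3 := 402653184) (W3 := 67108864)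
    rfl k0_B40mm_022_s1

theorem s_B40mm_022_s1 {κ x : ℝ} (hκ : κ * h0 = ken x) (hx : ((402653184 : ℕ) : ℝ) / S ≤ x)
    (hx' : x ≤ (((402653184 : ℕ) : ℝ) + (67108864 : ℕ)) / S) :
    AltB (VF κ) PP tKF tL pcF [⟨3, 0, 0, 1449551462⟩] 0 2 2 4 0 (sgb false) (sgb false) x :=
  strip_altB (m := 1449551462) true rfl hκ covF40 covF02 hx hx' c_B40mm_022_s1 cutB_nil (noExt_B)

noncomputable def cut_B40mm_101_s1 : Cut := Cut.of [[⟨4, 0, 0, 1449551462⟩]]

noncomputable def f_B40mm_101_s1 : ℕ → ℕ → ℕ → ℕ → Bool := onCell 0 536870912 536870912 536870912 402653184 67108864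
    (rowF 2 false false false .npn 1 0 1 (qsf 536870912 536870912 536870912 536870912 0) ndF4q1 ndF0q1 pcF0 cut_B40mm_101_s1 Ext.none)

def k0_B40mm_101_s1 : ∃ t, chk3 f_B40mm_101_s1 t 1 1 1 = true :=
  ⟨(l 5), by decide +kernel⟩

theorem c_B40mm_101_s1 : CertF 536870912 536870912 536870912 536870912 402653184 67108864 false false false .npn 1 0 1
    ndF4q1 ndF0q1 pcF0 cut_B40mm_101_s1 Ext.none :=
  certF2 (fam := false) (s1 := false) (s2 := false) (a := 1) (b := 0) (c := 1) (cn := .npn) (n1 := ndF4q1) (n2 := ndF0q1) (pc := pcF0) (cut := cut_B40mm_101_s1) (xt := Ext.none) (P1 := 536870912) (W1 := 536870912) (P2 := 536870912) (W2 := 536870912) (P3 := 402653184) (W3 := 67108864)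
    rfl (fun _ => rfl) k0_B40mm_101_s1

theorem s_B40mm_101_s1 {κ x : ℝ} (hκ : κ * h0 = ken x) (hx : ((402653184 : ℕ) : ℝ) / S ≤ x)
    (hx' : x ≤ (((402653184 : ℕ) : ℝ) + (67108864 : ℕ)) / S) :
    AltB (VF κ) PP tKF tL pcF [⟨3, 0, 0, 1449551462⟩] 1 0 1 4 0 (sgb false) (sgb false) x :=
  strip_altB (m := 1449551462) true rfl hκ covF41 covF01 hx hx' c_B40mm_101_s1 cutB_nil (noExt_B)

noncomputable def cut_B40mm_102_s1 : Cut := Cut.of [[⟨4, 0, 0, 1449551462⟩]]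

noncomputable def f_B40mm_102_s1 : ℕ → ℕ → ℕ → ℕ → Bool := onCell 536870912 536870912 0 536870912 402653184 67108864
    (rowF 0 false false false .npp 1 0 2 (qsf 536870912 536870912 0 536870912 0) ndF4q1 ndF0q2 pcF0 cut_B40mm_102_s1 Ext.none)

def k0_B40mm_102_s1 : ∃ t, chk3 f_B40mm_102_s1 t 1 1 1 = true :=
  ⟨(l 5), by decide +kernel⟩

theorem c_B40mm_102_s1 : CertF 536870912 536870912 0 536870912 402653184 67108864 false false false .npp 1 0 2
    ndF4q1 ndF0q2 pcF0 cut_B40mm_102_s1 Ext.none :=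
  certF0 (fam := false) (s1 := false) (s2 := false) (a := 1) (b := 0) (c := 2) (cn := .npp) (n1 := ndF4q1) (n2 := ndF0q2) (pc := pcF0) (cut := cut_B40mm_102_s1) (xt := Ext.none) (P1 := 536870912) (W1 := 536870912) (P2 := 0) (W2 := 536870912) (P3 := 402653184) (W3 := 67108864)
    rfl k0_B40mm_102_s1

theorem s_B40mm_102_s1 {κ x : ℝ} (hκ : κ * h0 = ken x) (hx : ((402653184 : ℕ) : ℝ) / S ≤ x)
    (hx' : x ≤ (((402653184 : ℕ) : ℝ) + (67108864 : ℕ)) / S) :
    AltB (VF κ) PP tKF tL pcF [⟨3, 0, 0, 1449551462⟩] 1 0 2 4 0 (sgb false) (sgb false) x :=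
  strip_altB (m := 1449551462) true rfl hκ covF41 covF02 hx hx' c_B40mm_102_s1 cutB_nil (noExt_B)

noncomputable def cut_B40mm_112_s1 : Cut := Cut.of [[⟨4, 0, 0, 1449551462⟩]]

noncomputable def f_B40mm_112_s1 : ℕ → ℕ → ℕ → ℕ → Bool := onCell 536870912 536870912 0 536870912 402653184 67108864
    (rowF 0 false false false .dn 1 1 2 (qsf 536870912 536870912 0 536870912 1) ndF4q1 ndF0q2 pcF1 cut_B40mm_112_s1 Ext.none)

def k0_B40mm_112_s1 : ∃ t, chk3 f_B40mm_112_s1 t 1 1 1 = true :=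
  ⟨(l 5), by decide +kernel⟩

theorem c_B40mm_112_s1 : CertF 536870912 536870912 0 536870912 402653184 67108864 false false false .dn 1 1 2
    ndF4q1 ndF0q2 pcF1 cut_B40mm_112_s1 Ext.none :=
  certF0 (fam := false) (s1 := false) (s2 := false) (a := 1) (b := 1) (c := 2) (cn := .dn) (n1 := ndF4q1) (n2 := ndF0q2) (pc := pcF1) (cut := cut_B40mm_112_s1) (xt := Ext.none) (P1 := 536870912) (W1 := 536870912) (P2 := 0) (W2 := 536870912) (P3 := 402653184) (W3 := 67108864)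
    rfl k0_B40mm_112_s1

theorem s_B40mm_112_s1 {κ x : ℝ} (hκ : κ * h0 = ken x) (hx : ((402653184 : ℕ) : ℝ) / S ≤ x)
    (hx' : x ≤ (((402653184 : ℕ) : ℝ) + (67108864 : ℕ)) / S) :
    AltB (VF κ) PP tKF tL pcF [⟨3, 0, 0, 1449551462⟩] 1 1 2 4 0 (sgb false) (sgb false) x :=
  strip_altB (m := 1449551462) true rfl hκ covF41 covF02 hx hx' c_B40mm_112_s1 cutB_nil (noExt_B)

noncomputable def cut_B40mm_202_s1 : Cut := Cut.of [[⟨4, 0, 0, 1449551462⟩]]

noncomputable def f_B40mm_202_s1 : ℕ → ℕ → ℕ → ℕ → Bool := onCell 1073741824 536870912 0 536870912 402653184 67108864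
    (rowF 0 false false false .pp 2 0 2 (qsf 1073741824 536870912 0 536870912 0) ndF4q2 ndF0q2 pcF0 cut_B40mm_202_s1 Ext.none)

def k0_B40mm_202_s1 : ∃ t, chk3 f_B40mm_202_s1 t 1 1 1 = true :=
  ⟨(l 5), by decide +kernel⟩

theorem c_B40mm_202_s1 : CertF 1073741824 536870912 0 536870912 402653184 67108864 false false false .pp 2 0 2
    ndF4q2 ndF0q2 pcF0 cut_B40mm_202_s1 Ext.none :=
  certF0 (fam := false) (s1 := false) (s2 := false) (a := 2) (b := 0) (c := 2) (cn := .pp) (n1 := ndF4q2) (n2 := ndF0q2) (pc := pcF0) (cut := cut_B40mm_202_s1) (xt := Ext.none) (P1 := 1073741824) (W1 := 536870912) (P2 := 0) (W2 := 536870912) (P3 := 402653184) (W3 := 67108864)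
    rfl k0_B40mm_202_s1

theorem s_B40mm_202_s1 {κ x : ℝ} (hκ : κ * h0 = ken x) (hx : ((402653184 : ℕ) : ℝ) / S ≤ x)
    (hx' : x ≤ (((402653184 : ℕ) : ℝ) + (67108864 : ℕ)) / S) :
    AltB (VF κ) PP tKF tL pcF [⟨3, 0, 0, 1449551462⟩] 2 0 2 4 0 (sgb false) (sgb false) x :=
  strip_altB (m := 1449551462) true rfl hκ covF42 covF02 hx hx' c_B40mm_202_s1 cutB_nil (noExt_B)

end Pool.Agent.Strip051.G.I3_8_7_16.Tab.St.C
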