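import Pool.Agent.Strip051.G.I3_8_7_16.Tab

/-! # Certificates F3 (generated) -/

set_option linter.all false
set_option maxRecDepth 100000

namespace Pool.Agent.Strip051.G.I3_8_7_16.Tab.C.FB01

open Pool.Agent.Strip051.PB Pool.Agent.Strip051.PB.T
open Pool.Agent.Strip051.G.I3_8_7_16.Tab

noncomputable def cut_pp_012_a : Cut := Cut.of [[⟨0, 0, 0, 67108864⟩, ⟨1, 1, 0, 67108864⟩, ⟨2, 1, 0, 67108864⟩]]

noncomputable def f_pp_012_a : ℕ → ℕ → ℕ → ℕ → Bool := onCell 536870912 536870912 0 536870912 402653184 67108864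
    (rowF 2 false true true .pnp 0 1 2 (qsf 0 536870912 0 536870912 1) ndF0q0 ndF1q2a pcF1 cut_pp_012_a Ext.none)

def k0_pp_012_a : ∃ t, chk3 f_pp_012_a t 2 1 1 = true :=
  ⟨(l 3), by decide +kernel⟩

def k1_pp_012_a : ∃ t, chk3 f_pp_012_a t 12 2 1 = true :=
  ⟨(b (l 3) (l 3)), by decide +kernel⟩

def k2_pp_012_a : ∃ t, chk3 f_pp_012_a t 26 4 1 = true :=
  ⟨(b (a (b (c (a (b (a (b (l 52781127415) (l 3)) (b (l 16775512) (l 51707383607))) (a (l 3) (l 53854876727))) (b (a (l 16772480) (l 16767368)) (a (b (l 51170510567) (l 50096775271)) (b (l 16773296) (l 50633637399))))) (a (b (a (b (l 55465473223) (l 3)) (b (l 16771472) (l 54928600247))) (a (l 3) (l 55465479815))) (b (a (l 16768624) (l 16763912)) (a (b (l 53854856231) (l 53317991271)) (b (l 16769208) (l 53317983031)))))) (a (l 3) (a (l 3) (b (c (l 50096775975) (l 53317986503)) (l 3))))) (b (a (b (l 16758080) (c (l 16767616) (l 16763912))) (l 16751736)) (c (a (b (a (b (l 48486156919) (l 49023028791)) (l 46875541911)) (a (l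 3) (l 48486158247))) (b (l 16765056) (a (b (l 47949280455) (l 47949281719)) (l 16769904)))) (a (b (a (b (l 51707372647) (l 51707373863)) (b (l 16766744) (l 51170499079))) (a (l 3) (b (l 51170500423) (l 3)))) (b (l 16761344) (a (b (l 51170496167) (l 50633626871)) (l 49023010103))))))) (a (l 3) (b (a (l 3) (a (l 3) (b (c (l 47412410935) (a (l 49559887175) (l 48486141191))) (l 3)))) (l 3)))), by decide +kernel⟩

def k3_pp_012_a : ∃ t, chk3 f_pp_012_a t 27 4 1 = true :=
  ⟨(b (b (a (l 16757064) (l 16736464)) (a (a (b (l 16753136) (l 16760448)) (l 16746640)) (l 16752288))) (a (b (a (c (b (a (l 44191185751) (l 16766928)) (a (l 46338671991) (l 44728050487))) (b (a (b (l 16765864) (l 49023008583)) (l 16762792)) (a (l 48486145879) (b (l 47412397687) (l 47412398599))))) (b (l 16757496) (a (c (l 43654308711) (l 46338653575)) (l 16761824)))) (a (l 3) (b (c (a (l 44728053255) (l 43654302407)) (a (b (l 47412395687) (l 3)) (b (l 16764464) (l 46875521783)))) (l 3)))) (b (a (l 16750960)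 (l 16740936)) (a (b (c (l 16773544) (a (l 16761360) (l 16756664))) (a (b (c (l 43117436855) (l 45264910759)) (l 43117432503)) (c (l 40433080071) (l 43654296039)))) (b (l 16751272) (c (l 16759712) (l 16755832))))))), by decide +kernel⟩

def k4_pp_012_a : ∃ t, chk3 f_pp_012_a t 13 5 1 = true :=
  ⟨(a (l 3) (b (a (l 3) (b (a (b (a (l 3) (b (l 42043687559) (l 3))) (l 3)) (b (a (b (l 43117422023) (l 41506813479)) (c (l 16763752) (l 42043676567))) (a (l 3) (c (l 38822462647) (l 40433066487))))) (l 3))) (l 3))), by decide +kernel⟩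

def k5_pp_012_a : ∃ t, chk3 f_pp_012_a t 6 3 1 = true :=
  ⟨(l 3), by decide +kernel⟩

def k6_pp_012_a : ∃ t, chk3 f_pp_012_a t 14 2 1 = true :=
  ⟨(b (a (b (b (l 16728496) (l 16743712)) (a (b (l 16726000) (a (l 16744736) (l 16734920))) (l 16755536))) (b (l 16701448) (a (l 16716112) (l 16698776)))) (a (b (a (b (a (b (l 16754512) (a (c (l 37748721703) (l 40433067031)) (l 16758352))) (b (l 16744816) (l 16751168))) (a (b (a (b (l 37211845047) (l 3)) (b (l 39896192583) (l 37211841847))) (l 3)) (c (b (l 34527490951) (a (l 35064361607) (l 35064362919))) (b (a (l 39359318359) (l 16753000)) (a (l 37211836775) (b (l 16757408) (l 36674965463))))))) (b (a (l 16738360) (l 16728808)) (a (b (l 16747824) (c (l 16755752) (a (l 16754288) (l 16749688)))) (l 16741424)))) (a (b (a (l 3) (b (a (l 3) (c (l 32380008823) (l 34527484119))) (l 3))) (l 3)) (b (a (b (a (b (c (l 16762648) (l 37211833239)) (l 33453740951)) (c (l 16759432) (l 36138089399))) (a (l 3) (b (c (l 31306263735) (l 32916867927))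 (l 3)))) (b (c (l 16752296) (l 16748696)) (a (c (l 31306262455) (b (l 16755328) (l 33453736023))) (c (l 16755976) (l 16752248))))) (a (l 3) (b (a (c (l 28621907639) (l 30769383479)) (c (l 29158780919) (a (l 32379990183) (l 32916864103)))) (l 3)))))) (b (a (b (l 16714784) (a (l 16732040) (l 16722784))) (b (l 16696864) (l 16709264))) (a (b (a (b (l 16741232) (l 16747232)) (l 16735008)) (a (a (b (c (l 16757208) (l 33453731079)) (b (c (l 28621905079) (l 29695638839)) (l 3))) (b (l 16750832) (c (l 28085032679) (b (l 16753312) (l 30769377751))))) (b (l 16743960) (a (a (l 16753248) (l 16750968)) (l 16747560))))) (b (a (l 16725904) (l 16716992)) (a (b (l 16734872) (l 16740776)) (l 16728888))))))), by decide +kernel⟩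

def k7_pp_012_a : ∃ t, chk3 f_pp_012_a t 15 2 1 = true :=
  ⟨(b (a (b (l 16650816) (l 16716760)) (b (l 16624464) (l 16687512))) (a (b (a (l 16727960) (l 16690752)) (a (b (l 16703984) (a (l 16720120) (l 16711512))) (b (l 16687272) (l 16698880)))) (b (a (l 16654168) (l 16638992)) (a (b (l 16671120) (l 16682496)) (b (l 16655344) (l 16666376)))))), by decide +kernel⟩

def k8_pp_012_a : ∃ t, chk3 f_pp_012_a t 14 3 1 = true :=
  ⟨(b (a (l 3) (b (a (b (a (b (a (l 3) (b (l 25937544631) (l 3))) (l 3)) (b (a (c (l 27011293143) (b (l 30232504087) (l 26474412343))) (c (l 28085025911) (b (l 16750120) (l 16752984)))) (a (l 3) (b (c (l 26474417367) (l 27011280951)) (l 3))))) (l 3)) (b (a (b (c (l 16748216) (l 16755384)) (a (b (l 16753200) (a (l 27548148759) (l 16754944))) (a (l 16751288) (l 16749056)))) (b (l 16737696) (c (l 16745040) (l 16741872)))) (a (b (a (b (c (l 41506798295) (l 43117404375)) (l 3)) (b (c (l 16756056) (l 27011275207)) (a (l 39359310295) (c (l 16757712) (l 25400663127)))))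 (l 3)) (a (a (b (c (l 16754160) (l 28085014551)) (b (l 41506781719) (l 3))) (b (l 16750392) (b (c (l 16756192) (l 27548143943)) (l 45264888887)))) (b (l 16747096) (b (l 16751416) (a (b (l 16754640) (l 41506788919)) (l 30769366919)))))))) (a (l 3) (b (a (l 3) (b (a (l 3) (b (c (l 38822439927) (a (l 3) (l 40969919591))) (l 3))) (l 3))) (l 3))))) (l 3)), by decide +kernel⟩

def k9_pp_012_a : ∃ t, chk3 f_pp_012_a t 30 6 1 = true :=
  ⟨(b (a (b (a (b (l 16728904) (l 16734728)) (l 16723176)) (b (a (l 16751016) (l 16731864)) (a (a (b (l 16747040) (l 16749920)) (l 16744128)) (l 16737648)))) (b (a (l 16714656) (l 16706280)) (a (b (l 16723328) (l 16729104)) (l 16717768)))) (a (b (a (b (b (a (c (l 26474408023) (a (l 26474400887) (l 16750208))) (l 16748456)) (a (a (c (l 41506793687) (l 43654271703)) (b (l 28621883063) (l 41506788071))) (c (l 16752696) (l 16749888)))) (a (b (c (l 37211829239) (a (l 3) (l 38822434823))) (l 3)) (a (b (c (l 37211827879) (l 42043656423)) (l 3)) (b (c (l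 16754440) (c (l 16752440) (l 24326915943))) (c (l 38285566583) (l 40433045127)))))) (a (b (c (l 16746928) (l 16744144)) (b (l 16752528) (a (b (l 28085011047) (a (l 40433044759) (l 45801751863))) (l 16751720)))) (b (l 16741280) (c (l 16748296) (l 16756208))))) (a (l 3) (b (a (b (a (c (l 33990600359) (l 37211821079)) (c (l 36674955847) (b (l 44191139975) (l 38822433607)))) (l 3)) (b (a (c (l 16753608) (l 16751192)) (l 16750296)) (a (c (l 34527473319) (l 38285565239)) (b (l 16752448) (l 37748690279))))) (a (l 3) (b (a (l 3) (c (l 32379990407) (l 35601211991))) (l 3)))))) (b (a (b (l 16734864) (a (l 16742760) (l 16738480))) (b (l 16726368) (l 16732088))) (a (b (a (b (l 16747072) (a (l 16751024) (l 16748872))) (c (l 16745312) (l 16743056))) (b (a (a (a (l 32379983287) (l 22179433943)) (l 16751752)) (l 16748536)) (a (a (l 32379982967) (c (l 24863795879) (l 27548146903))) (c (l 16752288) (l 16755688))))) (a (b (l 16739952) (a (l 16746768) (l 16744632))) (b (l 16735696) (l 16741440))))))),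 by decide +kernel⟩

def k10_pp_012_a : ∃ t, chk3 f_pp_012_a t 31 6 1 = true :=
  ⟨(b (a (b (l 16714832) (a (l 16709392) (l 16701056))) (b (l 16698456) (a (l 16692760) (l 16684496)))) (a (b (a (b (l 16717920) (l 16723616)) (l 16733352)) (a (b (l 16729336) (c (l 16735960) (l 16744608))) (b (l 16720912) (l 16726664)))) (a (b (l 16704024) (b (l 16712552) (l 16718312))) (b (l 16695712) (b (l 16704232) (l 16710008)))))), by decide +kernel⟩

def k11_pp_012_a : ∃ t, chk3 f_pp_012_a t 30 7 1 = true :=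
  ⟨(b (a (l 3) (b (a (b (a (l 3) (a (b (l 29695629991) (l 3)) (b (l 20031953735) (l 25937539559)))) (l 3)) (b (c (a (b (l 16751040) (c (l 13589510023) (l 15736992279))) (b (l 16746760) (l 16750184))) (a (b (l 16749392) (a (l 16756544) (l 16751864))) (b (l 16745152) (l 16748680)))) (a (a (l 3) (b (a (l 11442024551) (l 15200119495)) (l 3))) (b (a (c (l 16754704) (l 16753312)) (l 16751920)) (c (a (l 28085028743) (l 13052639991)) (a (l 32916853943) (l 12515766471))))))) (a (l 3) (b (a (l 3) (b (a (l 3) (c (l 25400677191) (l 30232502567))) (l 3))) (l 3))))) (l 3)), by decide +kernel⟩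

def k12_pp_012_a : ∃ t, chk3 f_pp_012_a t 31 7 1 = true :=
  ⟨(b (a (b (a (a (b (c (l 16744208) (l 16742688)) (b (l 16753976) (a (a (l 16754240) (l 16753176)) (l 16751576)))) (b (l 16739256) (b (l 16744496) (l 16748392)))) (b (c (l 16744144) (l 16742656)) (a (c (l 16753304) (l 16752056)) (l 16748504)))) (a (b (a (a (b (b (l 16758720) (l 13052640631)) (l 3)) (b (c (l 16761504) (l 16760280)) (b (a (l 16759208) (l 16758224)) (l 29158766087)))) (b (c (l 16758304) (l 16756440)) (a (b (l 16756640) (a (l 16759208) (l 16758184))) (c (l 16756088) (l 16754952))))) (a (l 3) (b (b (a (a (l 3) (l 14663255127)) (a (l 16759192) (l 16758136))) (a (l 3) (c (l 11978904903) (l 10368290279)))) (a (l 3) (a (l 3) (b (l 8220807879) (l 3))))))) (b (b (a (l 16748240) (l 16744016)) (a (c (l 16758128) (l 16757024)) (l 16748120))) (a (a (c (b (c (l 16763560) (l 16763080)) (b (l 12515775959) (a (l 3) (l 16762664)))) (b (c (l 16762560) (l 16761992)) (b (l 11442032183) (a (l 3) (l 16761752))))) (b (c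 (l 16755944) (l 16754912)) (b (l 16758600) (l 6)))) (b (c (l 16757992) (l 16756984)) (l 6)))))) (b (a (b (l 16735088) (a (l 16733832) (l 16729664))) (b (l 16737280) (a (l 16725512) (l 16721376)))) (a (b (a (c (l 16752864) (l 16751776)) (l 16748152)) (a (b (l 16748040) (l 6)) (l 6))) (a (b (l 16733488) (l 6)) (l 6))))) (a (a (l 3) (b (l 6) (l 3))) (l 6))), by decide +kernel⟩

theorem s13_pp_012_a : ∃ t, chk3 f_pp_012_a t 15 7 1 = true := ex3_a k11_pp_012_a k12_pp_012_a

theorem s14_pp_012_a : ∃ t, chk3 f_pp_012_a t 15 6 1 = true := ex3_a k9_pp_012_a k10_pp_012_a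

theorem s15_pp_012_a : ∃ t, chk3 f_pp_012_a t 15 3 1 = true := ex3_b s14_pp_012_a s13_pp_012_a

theorem s16_pp_012_a : ∃ t, chk3 f_pp_012_a t 7 3 1 = true := ex3_a k8_pp_012_a s15_pp_012_a

theorem s17_pp_012_a : ∃ t, chk3 f_pp_012_a t 7 2 1 = true := ex3_a k6_pp_012_a k7_pp_012_a

theorem s18_pp_012_a : ∃ t, chk3 f_pp_012_a t 7 1 1 = true := ex3_b s17_pp_012_a s16_pp_012_a

theorem s19_pp_012_a : ∃ t, chk3 f_pp_012_a t 13 4 1 = true := ex3_a k2_pp_012_a k3_pp_012_a

theorem s20_pp_012_a : ∃ t, chk3 f_pp_012_a t 13 2 1 = true := ex3_b s19_pp_012_a k4_pp_012_a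

theorem s21_pp_012_a : ∃ t, chk3 f_pp_012_a t 6 2 1 = true := ex3_a k1_pp_012_a s20_pp_012_a

theorem s22_pp_012_a : ∃ t, chk3 f_pp_012_a t 6 1 1 = true := ex3_b s21_pp_012_a k5_pp_012_a

theorem s23_pp_012_a : ∃ t, chk3 f_pp_012_a t 3 1 1 = true := ex3_a s22_pp_012_a s18_pp_012_a

theorem s24_pp_012_a : ∃ t, chk3 f_pp_012_a t 1 1 1 = true := ex3_a k0_pp_012_a s23_pp_012_a

theorem c_pp_012_a : CertF 0 536870912 0 536870912 402653184 67108864 false true true .pnp 0 1 2
    ndF0q0 ndF1q2a pcF1 cut_pp_012_a Ext.none :=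
  certF2 (fam := false) (s1 := true) (s2 := true) (a := 0) (b := 1) (c := 2) (cn := .pnp) (n1 := ndF0q0) (n2 := ndF1q2a) (pc := pcF1) (cut := cut_pp_012_a) (xt := Ext.none) (P1 := 0) (W1 := 536870912) (P2 := 0) (W2 := 536870912) (P3 := 402653184) (W3 := 67108864)
    rfl (fun _ => rfl) s24_pp_012_a

noncomputable def cut_pp_012_b : Cut := Cut.of [[⟨0, 0, 0, 67108864⟩, ⟨1, 1, 0, 67108864⟩, ⟨2, 1, 0, 67108864⟩]]

noncomputable def f_pp_012_b : ℕ → ℕ → ℕ → ℕ → Bool := onCell 536870912 536870912 1239849684 370763052 402653184 67108864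
    (rowF 2 false true true .pnp 0 1 2 (qsf 0 536870912 1239849684 370763052 1) ndF0q0 ndF1q2b pcF1 cut_pp_012_b Ext.none)

def k0_pp_012_b : ∃ t, chk3 f_pp_012_b t 2 1 1 = true :=
  ⟨(b (l 3) (l 2)), by decide +kernel⟩

def k1_pp_012_b : ∃ t, chk3 f_pp_012_b t 3 2 1 = true :=
  ⟨(a (b (a (a (l 3) (b (l 3) (l 3))) (a (b (a (b (a (b (a (a (b (c (l 52781125255) (l 56002341911)) (l 56539216743)) (c (l 16780544) (l 16775288))) (c (l 16776848) (l 16771880))) (c (l 54391751991) (l 55465488343))) (b (l 16766968) (l 16772840))) (a (b (l 59223601815) (l 61907965831)) (b (l 16779504) (l 68350400663)))) (b (b (l 16772208) (l 16756776)) (a (l 16772144) (l 16760752)))) (a (a (l 3) (b (c (l 58686769687) (b (l 65666055959) (l 63518577175))) (a (l 3) (b (l 62981721767) (l 56002394839))))) (a (b (c (l 16795544) (l 16781288)) (c (l 16817936) (b (l 16793832) (l 55465535511)))) (b (l 16776560) (l 16795888))))) (b (a (b (l 16752864) (l 16742968)) (b (l 16710208) (l 16718904))) (a (b (l 16757680)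 (l 16776384)) (l 16781496))))) (a (l 3) (a (a (l 3) (a (b (c (b (l 16843824) (l 16873040)) (b (b (l 65666101815) (l 64055487047)) (l 60834287351))) (l 3)) (b (b (l 16819104) (c (l 16860720) (l 16831200))) (b (l 65666152439) (l 16888256))))) (b (a (b (l 16798992) (l 16825488)) (l 16782424)) (a (b (l 16855816) (l 16889480)) (l 16841528)))))) (a (b (b (a (a (l 16754840) (l 16692176)) (a (l 16672920) (l 16655232))) (a (a (l 16712448) (l 16686072)) (a (l 16660480) (l 16636888)))) (a (b (a (l 16751288) (l 16719344)) (a (l 16808768) (l 16773704))) (b (l 16672864) (l 16719776)))) (b (a (b (l 16673152) (l 16646600)) (b (l 16644688) (l 16587864))) (a (b (l 16616288) (l 16648320)) (b (l 16565664) (l 16583944)))))), by decide +kernel⟩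

def k2_pp_012_b : ∃ t, chk3 f_pp_012_b t 3 3 1 = true :=
  ⟨(a (a (l 2) (b (a (l 3) (b (a (b (l 16928424) (l 16973264)) (b (l 16897424) (l 16941400))) (a (l 2) (l 16998824)))) (l 2))) (a (b (b (a (a (l 16884040) (l 16846664)) (l 16787840)) (a (a (l 16970800) (l 16941880)) (l 16892296))) (b (a (l 2) (l 16978384)) (l 2))) (b (a (b (l 16706280) (l 16805288)) (b (l 16625888) (l 16696592))) (b (a (l 16924880) (l 16848528)) (a (l 17004216) (l 16961424)))))), by decide +kernel⟩

theorem s3_pp_012_b : ∃ t, chk3 f_pp_012_b t 3 1 1 = true := ex3_b k1_pp_012_b k2_pp_012_b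

theorem s4_pp_012_b : ∃ t, chk3 f_pp_012_b t 1 1 1 = true := ex3_a k0_pp_012_b s3_pp_012_b

theorem c_pp_012_b : CertF 0 536870912 1239849684 370763052 402653184 67108864 false true true .pnp 0 1 2
    ndF0q0 ndF1q2b pcF1 cut_pp_012_b Ext.none :=
  certF2 (fam := false) (s1 := true) (s2 := true) (a := 0) (b := 1) (c := 2) (cn := .pnp) (n1 := ndF0q0) (n2 := ndF1q2b) (pc := pcF1) (cut := cut_pp_012_b) (xt := Ext.none) (P1 := 0) (W1 := 536870912) (P2 := 1239849684) (W2 := 370763052) (P3 := 402653184) (W3 := 67108864)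
    rfl (fun _ => rfl) s4_pp_012_b

noncomputable def cut_pp_022_a : Cut := Cut.of [[⟨0, 0, 0, 67108864⟩, ⟨1, 1, 0, 67108864⟩, ⟨2, 1, 0, 67108864⟩]]

noncomputable def f_pp_022_a : ℕ → ℕ → ℕ → ℕ → Bool := onCell 1073741824 536870912 0 536870912 402653184 67108864
    (rowF 2 false true true .pp 0 2 2 (qsf 0 536870912 0 536870912 2) ndF0q0 ndF1q2a pcF2 cut_pp_022_a Ext.none)

def k0_pp_022_a : ∃ t, chk3 f_pp_022_a t 8 1 1 = true :=
  ⟨(b (b (a (b (l 16659912) (a (l 16624352) (l 16603856))) (b (l 16557640) (l 16571088))) (a (b (a (b (l 16638584) (l 16648400)) (l 16621336)) (a (b (a (l 16673944) (l 16652176)) (a (b (l 16669952) (l 16674232)) (l 16660664))) (b (l 16634616) (l 16642848)))) (b (l 16648568) (b (l 16659888) (l 16667432))))) (b (a (a (b (a (b (b (l 16678528) (a (l 16685720) (l 16679976))) (a (b (l 16690096) (c (l 16698024) (l 16690808))) (l 16686504))) (b (l 16669104) (l 16677632))) (a (b (a (b (c (l 16702192) (l 16695544)) (c (l 16706384) (l 16700360))) (l 16705800))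 (b (a (c (l 16710600) (l 16705272)) (l 16702040)) (a (c (l 16714864) (l 16710296)) (l 16706632)))) (b (l 16686304) (b (l 16692936) (l 16697448))))) (b (b (l 16651008) (l 16701200)) (b (b (l 16665504) (l 16711680)) (b (l 16715960) (l 16720304))))) (b (a (l 16692480) (l 16673832)) (b (a (l 16662392) (l 16690696)) (a (c (l 16708592) (l 16712840)) (b (l 16653208) (a (l 16664432) (l 16662704))))))) (a (b (b (b (a (a (a (c (l 16719656) (l 16715816)) (l 16711736)) (l 16702472)) (l 16704184)) (b (a (a (a (l 16722120) (l 16716040)) (l 16706712)) (l 16709856)) (l 6))) (l 6)) (l 6)) (a (b (b (b (a (l 16678440) (l 16676808)) (a (l 16689408) (l 16697792))) (l 6)) (l 6)) (a (b (b (b (l 16674920) (b (l 16682504) (l 6))) (l 6)) (l 1)) (a (b (b (b (l 16673328) (b (c (l 16683440) (l 16677760)) (l 6))) (l 6)) (l 1)) (b (b (b (b (l 16669744) (l 16674512)) (b (c (l 37614342439) (l 43519909127)) (c (l 16687120) (l 16680440)))) (l 1)) (l 1)))))))), by decide +kernel⟩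

def k1_pp_022_a : ∃ t, chk3 f_pp_022_a t 9 1 1 = true :=
  ⟨(b (b (a (l 16577664) (b (l 16527208) (l 16539424))) (a (b (l 16579656) (b (l 16639512) (b (l 16649520) (l 16655808)))) (b (a (l 16559224) (l 16557728)) (a (b (l 16577288) (l 16590144)) (b (l 16575752) (b (l 91301263495) (l 75195146839))))))) (b (b (a (a (b (l 16603104) (l 16618832)) (b (l 16602784) (a (l 16617400) (l 16616152)))) (a (b (a (l 16601832) (l 98280613415)) (a (b (l 16611240) (l 67142126903)) (b (l 16609736) (l 16616136)))) (b (a (l 63384004359) (l 16619208)) (l 1)))) (a (b (a (b (l 16631480) (l 16650888)) (b (a (l 16629064) (l 77342691271)) (a (l 84858904311) (l 37614265991)))) (a (b (a (l 16650728) (c (l 16651544) (l 16645224))) (a (b (l 16657984) (c (l 16665912) (l 16659784))) (b (a (l 16656088) (l 16654664)) (c (l 16674192) (l 16656304))))) (b (a (c (l 44056736919) (l 53720396647)) (l 1)) (l 1)))) (b (a (b (a (l 16646088) (l 1)) (l 1)) (l 1)) (l 1)))) (c (a (b (b (a (b (a (b (a (l 16671464) (l 16670400))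 (a (l 16686784) (l 16675120))) (l 16670800)) (a (b (l 16680536) (l 1)) (l 1))) (l 1)) (l 1)) (l 1)) (l 1)) (a (b (b (a (b (a (b (l 61236627175) (l 22045058743)) (l 16662784)) (a (b (l 16673216) (l 1)) (l 1))) (l 1)) (l 1)) (l 1)) (l 1))))), by decide +kernel⟩

def k2_pp_022_a : ∃ t, chk3 f_pp_022_a t 5 1 1 = true :=
  ⟨(b (a (b (a (b (l 16519608) (l 63383879015)) (b (l 1) (l 1))) (a (a (b (l 71973862343) (b (l 47277827591) (b (l 16582760) (l 1)))) (b (l 141230210759) (l 1))) (l 1))) (l 1)) (b (l 1) (l 1))), by decide +kernel⟩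

def k3_pp_022_a : ∃ t, chk3 f_pp_022_a t 3 1 1 = true :=
  ⟨(l 1), by decide +kernel⟩

theorem s4_pp_022_a : ∃ t, chk3 f_pp_022_a t 4 1 1 = true := ex3_a k0_pp_022_a k1_pp_022_a

theorem s5_pp_022_a : ∃ t, chk3 f_pp_022_a t 2 1 1 = true := ex3_a s4_pp_022_a k2_pp_022_a

theorem s6_pp_022_a : ∃ t, chk3 f_pp_022_a t 1 1 1 = true := ex3_a s5_pp_022_a k3_pp_022_a

theorem c_pp_022_a : CertF 0 536870912 0 536870912 402653184 67108864 false true true .pp 0 2 2
    ndF0q0 ndF1q2a pcF2 cut_pp_022_a Ext.none :=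
  certF2 (fam := false) (s1 := true) (s2 := true) (a := 0) (b := 2) (c := 2) (cn := .pp) (n1 := ndF0q0) (n2 := ndF1q2a) (pc := pcF2) (cut := cut_pp_022_a) (xt := Ext.none) (P1 := 0) (W1 := 536870912) (P2 := 0) (W2 := 536870912) (P3 := 402653184) (W3 := 67108864)
    rfl (fun _ => rfl) s6_pp_022_a

noncomputable def cut_pp_022_b : Cut := Cut.of [[⟨0, 0, 0, 67108864⟩, ⟨1, 1, 0, 67108864⟩, ⟨2, 1, 0, 67108864⟩]]

noncomputable def f_pp_022_b : ℕ → ℕ → ℕ → ℕ → Bool := onCell 0 536870912 1073741824 536870912 402653184 67108864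
    (rowF 1 false true true .pp 0 2 2 (qsf 0 536870912 1239849684 370763052 2) ndF0q0 ndF1q2b pcF2 cut_pp_022_b Ext.none)

def k0_pp_022_b : ∃ t, chk3 f_pp_022_b t 1 1 1 = true :=
  ⟨(a (b (a (b (b (a (l 1) (b (a (l 1) (l 16649360)) (a (l 88080119223) (l 16549800)))) (a (a (b (l 1) (l 153041364487)) (b (a (l 1) (l 16589912)) (l 16605248))) (a (b (l 16524968) (l 16463744)) (l 16483408)))) (a (b (a (b (a (l 16589336) (l 16499232)) (l 16509632)) (b (l 16499536) (l 16390512))) (a (b (l 16439336) (a (l 16335848) (l 16285080))) (l 16363112))) (b (a (l 16408064) (l 16372664)) (l 16340736)))) (b (b (a (b (b (l 30634991447) (l 16605976)) (l 16565096)) (b (l 16591848) (l 16500624))) (a (l 16546888) (l 16490816))) (a (b (a (l 16322824) (l 16338072)) (l 16294920)) (b (l 16337200) (l 16320448))))) (b (a (b (a (b (l 16319904) (l 16220976)) (a (l 16180704) (l 16183736))) (a (b (a (l 16127248) (l 16135512)) (l 16152392)) (b (l 16145712) (l 16225104)))) (b (a (l 16235464) (l 16565616)) (a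 (l 16510600) (l 16753000)))) (a (b (a (b (l 16098352) (l 16115448)) (l 16441456)) (a (b (l 16272480) (l 16442968)) (b (l 16620760) (l 2)))) (b (a (l 16719072) (l 2)) (l 2))))) (b (a (b (a (b (b (l 16547984) (l 16504368)) (l 16440312)) (b (b (l 16588304) (l 16550712)) (l 16545552))) (a (b (l 16415080) (l 16618720)) (b (l 16688200) (l 16809992)))) (b (a (b (b (l 16714040) (l 16742488)) (l 16791392)) (b (l 16926584) (l 16935432))) (a (l 16893520) (l 2)))) (b (a (b (l 16854080) (l 2)) (l 2)) (l 2)))), by decide +kernel⟩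

theorem c_pp_022_b : CertF 0 536870912 1239849684 370763052 402653184 67108864 false true true .pp 0 2 2
    ndF0q0 ndF1q2b pcF2 cut_pp_022_b Ext.none :=
  certF1 (fam := false) (s1 := true) (s2 := true) (a := 0) (b := 2) (c := 2) (cn := .pp) (n1 := ndF0q0) (n2 := ndF1q2b) (pc := pcF2) (cut := cut_pp_022_b) (xt := Ext.none) (P1 := 0) (W1 := 536870912) (P2 := 1239849684) (W2 := 370763052) (P3 := 402653184) (W3 := 67108864)
    rfl (fun _ => rfl) k0_pp_022_b

noncomputable def f_pp_023 : ℕ → ℕ → ℕ → ℕ → Bool := onCell 0 536870912 1073741824 536870912 402653184 67108864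
    (rowF 1 false true true .up 0 2 3 (qsf 0 536870912 1610612736 536870912 2) ndF0q0 ndF1q3 pcF2 Cut.none Ext.none)

def k0_pp_023 : ∃ t, chk3 f_pp_023 t 1 1 1 = true :=
  ⟨(a (b (a (l 1) (b (l 1) (b (l 1) (l 169684305511)))) (b (a (b (l 1) (a (l 1) (l 172905172039))) (b (l 188474677767) (a (l 16490432) (l 16760352)))) (a (b (a (l 177200031463) (l 16345648)) (a (b (l 186326785047) (l 16355984)) (b (l 16577448) (l 16699352)))) (b (a (l 16704816) (l 16908376)) (a (l 16876768) (l 17014144)))))) (b (a (b (a (l 1) (l 213171052151)) (a (l 198675505399) (l 219077052679))) (b (a (l 258268549959) (b (l 17041480) (l 17025504))) (a (l 16954440) (l 17020920)))) (b (a (b (l 16949680) (l 16981984)) (b (l 17033248) (l 17065080))) (a (b (l 17061176) (l 17099088)) (b (l 17090912) (l 17078704)))))), by decide +kernel⟩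

theorem c_pp_023 : CertF 0 536870912 1610612736 536870912 402653184 67108864 false true true .up 0 2 3
    ndF0q0 ndF1q3 pcF2 Cut.none Ext.none :=
  certF1 (fam := false) (s1 := true) (s2 := true) (a := 0) (b := 2) (c := 3) (cn := .up) (n1 := ndF0q0) (n2 := ndF1q3) (pc := pcF2) (cut := Cut.none) (xt := Ext.none) (P1 := 0) (W1 := 536870912) (P2 := 1610612736) (W2 := 536870912) (P3 := 402653184) (W3 := 67108864)
    rfl (fun _ => rfl) k0_pp_023

noncomputable def f_pp_033 : ℕ → ℕ → ℕ → ℕ → Bool := onCell 1610612736 536870912 1610612736 536870912 402653184 67108864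
    (rowF 2 false true true .pnn 0 3 3 (qsf 0 536870912 1610612736 536870912 3) ndF0q0 ndF1q3 pcF3 Cut.none Ext.none)

def k0_pp_033 : ∃ t, chk3 f_pp_033 t 1 1 1 = true :=
  ⟨(a (b (a (b (a (b (b (l 112775761559) (l 16648664)) (l 16802944)) (b (l 361884322471) (l 16840560))) (a (l 16989096) (l 17005960))) (b (a (l 416108745591) (l 1)) (a (l 17049384) (l 447785111399)))) (a (b (a (l 17063448) (l 17070456)) (a (l 17025640) (l 17029976))) (b (a (l 17079232) (l 17100608)) (a (l 17028184) (l 17029200))))) (a (b (a (b (l 1) (l 484829408343)) (l 1)) (l 4)) (l 4))), by decide +kernel⟩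

theorem c_pp_033 : CertF 0 536870912 1610612736 536870912 402653184 67108864 false true true .pnn 0 3 3
    ndF0q0 ndF1q3 pcF3 Cut.none Ext.none :=
  certF2 (fam := false) (s1 := true) (s2 := true) (a := 0) (b := 3) (c := 3) (cn := .pnn) (n1 := ndF0q0) (n2 := ndF1q3) (pc := pcF3) (cut := Cut.none) (xt := Ext.none) (P1 := 0) (W1 := 536870912) (P2 := 1610612736) (W2 := 536870912) (P3 := 402653184) (W3 := 67108864)
    rfl (fun _ => rfl) k0_pp_033

noncomputable def f_pp_101 : ℕ → ℕ → ℕ → ℕ → Bool := onCell 536870912 536870912 536870912 536870912 402653184 67108864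
    (rowF 0 false true true .npn 1 0 1 (qsf 536870912 536870912 536870912 536870912 0) ndF0q1 ndF1q1 pcF0 Cut.none Ext.none)

def k0_pp_101 : ∃ t, chk3 f_pp_101 t 1 1 1 = true :=
  ⟨(l 3), by decide +kernel⟩

theorem c_pp_101 : CertF 536870912 536870912 536870912 536870912 402653184 67108864 false true true .npn 1 0 1
    ndF0q1 ndF1q1 pcF0 Cut.none Ext.none :=
  certF0 (fam := false) (s1 := true) (s2 := true) (a := 1) (b := 0) (c := 1) (cn := .npn) (n1 := ndF0q1) (n2 := ndF1q1) (pc := pcF0) (cut := Cut.none) (xt := Ext.none) (P1 := 536870912) (W1 := 536870912) (P2 := 536870912) (W2 := 536870912) (P3 := 402653184) (W3 := 67108864)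
    rfl k0_pp_101

noncomputable def f_pp_102_a : ℕ → ℕ → ℕ → ℕ → Bool := onCell 536870912 536870912 0 536870912 402653184 67108864
    (rowF 0 false true true .npp 1 0 2 (qsf 536870912 536870912 0 536870912 0) ndF0q1 ndF1q2a pcF0 Cut.none Ext.none)

def k0_pp_102_a : ∃ t, chk3 f_pp_102_a t 1 1 1 = true :=
  ⟨(l 3), by decide +kernel⟩

theorem c_pp_102_a : CertF 536870912 536870912 0 536870912 402653184 67108864 false true true .npp 1 0 2
    ndF0q1 ndF1q2a pcF0 Cut.none Ext.none :=
  certF0 (fam := false) (s1 := true) (s2 := true) (a := 1) (b := 0) (c := 2) (cn := .npp) (n1 := ndF0q1) (n2 := ndF1q2a) (pc := pcF0) (cut := Cut.none) (xt := Ext.none) (P1 := 536870912) (W1 := 536870912) (P2 := 0) (W2 := 536870912) (P3 := 402653184) (W3 := 67108864)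
    rfl k0_pp_102_a

noncomputable def f_pp_102_b : ℕ → ℕ → ℕ → ℕ → Bool := onCell 536870912 536870912 0 536870912 402653184 67108864
    (rowF 1 false true true .npp 1 0 2 (qsf 536870912 536870912 1239849684 370763052 0) ndF0q1 ndF1q2b pcF0 Cut.none Ext.none)

def k0_pp_102_b : ∃ t, chk3 f_pp_102_b t 1 1 1 = true :=
  ⟨(l 3), by decide +kernel⟩

theorem c_pp_102_b : CertF 536870912 536870912 1239849684 370763052 402653184 67108864 false true true .npp 1 0 2
    ndF0q1 ndF1q2b pcF0 Cut.none Ext.none :=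
  certF1 (fam := false) (s1 := true) (s2 := true) (a := 1) (b := 0) (c := 2) (cn := .npp) (n1 := ndF0q1) (n2 := ndF1q2b) (pc := pcF0) (cut := Cut.none) (xt := Ext.none) (P1 := 536870912) (W1 := 536870912) (P2 := 1239849684) (W2 := 370763052) (P3 := 402653184) (W3 := 67108864)
    rfl (fun _ => rfl) k0_pp_102_b

noncomputable def f_pp_112_a : ℕ → ℕ → ℕ → ℕ → Bool := onCell 536870912 536870912 0 536870912 402653184 67108864
    (rowF 0 false true true .dn 1 1 2 (qsf 536870912 536870912 0 536870912 1) ndF0q1 ndF1q2a pcF1 Cut.none Ext.none)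

def k0_pp_112_a : ∃ t, chk3 f_pp_112_a t 1 1 1 = true :=
  ⟨(l 3), by decide +kernel⟩

theorem c_pp_112_a : CertF 536870912 536870912 0 536870912 402653184 67108864 false true true .dn 1 1 2
    ndF0q1 ndF1q2a pcF1 Cut.none Ext.none :=
  certF0 (fam := false) (s1 := true) (s2 := true) (a := 1) (b := 1) (c := 2) (cn := .dn) (n1 := ndF0q1) (n2 := ndF1q2a) (pc := pcF1) (cut := Cut.none) (xt := Ext.none) (P1 := 536870912) (W1 := 536870912) (P2 := 0) (W2 := 536870912) (P3 := 402653184) (W3 := 67108864)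
    rfl k0_pp_112_a

noncomputable def f_pp_112_b : ℕ → ℕ → ℕ → ℕ → Bool := onCell 536870912 536870912 1239849684 370763052 402653184 67108864
    (rowF 0 false true true .dn 1 1 2 (qsf 536870912 536870912 1239849684 370763052 1) ndF0q1 ndF1q2b pcF1 Cut.none Ext.none)

def k0_pp_112_b : ∃ t, chk3 f_pp_112_b t 1 1 1 = true :=
  ⟨(a (b (l 3) (a (b (a (b (a (b (l 3) (a (l 119353430519) (l 3))) (l 3)) (a (b (l 91436125399) (l 16981888)) (b (l 121501133383) (l 105394985911)))) (l 3)) (a (b (a (l 16962096) (a (l 16996488) (l 98952554311))) (a (l 16993176) (l 17050664))) (b (a (b (l 125259290487) (l 106468837159)) (l 3)) (a (b (l 17040328) (l 17059216)) (b (l 129554299623) (l 113448177975)))))) (l 3))) (l 3)), by decide +kernel⟩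

theorem c_pp_112_b : CertF 536870912 536870912 1239849684 370763052 402653184 67108864 false true true .dn 1 1 2
    ndF0q1 ndF1q2b pcF1 Cut.none Ext.none :=
  certF0 (fam := false) (s1 := true) (s2 := true) (a := 1) (b := 1) (c := 2) (cn := .dn) (n1 := ndF0q1) (n2 := ndF1q2b) (pc := pcF1) (cut := Cut.none) (xt := Ext.none) (P1 := 536870912) (W1 := 536870912) (P2 := 1239849684) (W2 := 370763052) (P3 := 402653184) (W3 := 67108864)
    rfl k0_pp_112_b

noncomputable def cut_pp_113 : Cut := Cut.of [[⟨0, 1, 0, 67108864⟩, ⟨1, 1, 0, 67108864⟩, ⟨2, 2, 0, 16777216⟩]]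

noncomputable def f_pp_113 : ℕ → ℕ → ℕ → ℕ → Bool := onCell 536870912 536870912 536870912 536870912 402653184 67108864
    (rowF 1 false true true .nn 1 1 3 (qsf 536870912 536870912 1610612736 536870912 1) ndF0q1 ndF1q3 pcF1 cut_pp_113 Ext.none)

def k0_pp_113 : ∃ t, chk3 f_pp_113 t 1 1 1 = true :=
  ⟨(b (a (l 3) (l 3)) (a (b (a (b (l 1) (b (l 1) (a (l 1) (l 331283640007)))) (l 3)) (a (a (b (l 239478327895) (l 16949376)) (b (a (l 17094704) (l 17068312)) (l 17152456))) (b (a (b (l 129554120535) (l 17163968)) (b (l 306721664631) (l 17095256))) (a (l 17141520) (l 17101128))))) (b (l 3) (a (b (a (l 314774696919) (l 3)) (a (l 17228328) (b (l 267529978759) (l 16963080)))) (b (l 3) (a (b (a (l 384567666199) (l 429127895431)) (a (l 16910600) (l 204715950791))) (b (l 3) (a (b (l 483351747783) (l 174114171655)) (b (l 3) (b (l 531133211623) (a (l 162839753031) (b (l 551534232007) (a (l 16792360) (l 6)))))))))))))), by decide +kernel⟩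

theorem c_pp_113 : CertF 536870912 536870912 1610612736 536870912 402653184 67108864 false true true .nn 1 1 3
    ndF0q1 ndF1q3 pcF1 cut_pp_113 Ext.none :=
  certF1 (fam := false) (s1 := true) (s2 := true) (a := 1) (b := 1) (c := 3) (cn := .nn) (n1 := ndF0q1) (n2 := ndF1q3) (pc := pcF1) (cut := cut_pp_113) (xt := Ext.none) (P1 := 536870912) (W1 := 536870912) (P2 := 1610612736) (W2 := 536870912) (P3 := 402653184) (W3 := 67108864)
    rfl (fun _ => rfl) k0_pp_113

noncomputable def cut_pp_123 : Cut := Cut.of [[⟨0, 1, 0, 67108864⟩, ⟨1, 1, 0, 67108864⟩, ⟨2, 2, 0, 16777216⟩]]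

noncomputable def f_pp_123 : ℕ → ℕ → ℕ → ℕ → Bool := onCell 536870912 536870912 1073741824 536870912 402653184 67108864
    (rowF 1 false true true .npn 1 2 3 (qsf 536870912 536870912 1610612736 536870912 2) ndF0q1 ndF1q3 pcF2 cut_pp_123 Ext.none)

def k0_pp_123 : ∃ t, chk3 f_pp_123 t 1 1 1 = true :=
  ⟨(a (b (a (b (a (b (l 17126192) (l 17080096)) (b (l 17144312) (l 17082568))) (a (l 17036448) (l 17017096))) (b (b (a (l 17121360) (l 17072840)) (l 17027656)) (a (l 16975432) (l 16941576)))) (a (b (b (l 17013624) (l 17024432)) (b (l 17154120) (l 16998280))) (b (b (l 16928648) (a (l 16967904) (l 16919000))) (a (b (l 16954744) (l 2)) (l 2))))) (b (a (b (b (a (l 17007096) (l 16934536)) (a (l 16935256) (l 16864256))) (a (l 16859408) (l 16883888))) (b (b (a (b (l 16877336) (l 16822864)) (b (a (l 16884312) (b (a (l 16800088) (a (l 16806024) (b (l 6) (l 16770944)))) (l 16774320))) (l 295916560199))) (a (l 16792448) (l 312023052647))) (a (b (l 16730848) (l 2)) (l 2)))) (a (b (a (b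 (l 16854392) (l 2)) (l 2)) (l 2)) (l 2)))), by decide +kernel⟩

theorem c_pp_123 : CertF 536870912 536870912 1610612736 536870912 402653184 67108864 false true true .npn 1 2 3
    ndF0q1 ndF1q3 pcF2 cut_pp_123 Ext.none :=
  certF1 (fam := false) (s1 := true) (s2 := true) (a := 1) (b := 2) (c := 3) (cn := .npn) (n1 := ndF0q1) (n2 := ndF1q3) (pc := pcF2) (cut := cut_pp_123) (xt := Ext.none) (P1 := 536870912) (W1 := 536870912) (P2 := 1610612736) (W2 := 536870912) (P3 := 402653184) (W3 := 67108864)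
    rfl (fun _ => rfl) k0_pp_123

noncomputable def f_pp_133 : ℕ → ℕ → ℕ → ℕ → Bool := onCell 536870912 536870912 1610612736 536870912 402653184 67108864
    (rowF 0 false true true .dn 1 3 3 (qsf 536870912 536870912 1610612736 536870912 3) ndF0q1 ndF1q3 pcF3 Cut.none Ext.none)

def k0_pp_133 : ∃ t, chk3 f_pp_133 t 1 1 1 = true :=
  ⟨(a (b (l 1) (a (b (l 1) (a (l 404835096807) (l 1))) (l 1))) (l 1)), by decide +kernel⟩

theorem c_pp_133 : CertF 536870912 536870912 1610612736 536870912 402653184 67108864 false true true .dn 1 3 3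
    ndF0q1 ndF1q3 pcF3 Cut.none Ext.none :=
  certF0 (fam := false) (s1 := true) (s2 := true) (a := 1) (b := 3) (c := 3) (cn := .dn) (n1 := ndF0q1) (n2 := ndF1q3) (pc := pcF3) (cut := Cut.none) (xt := Ext.none) (P1 := 536870912) (W1 := 536870912) (P2 := 1610612736) (W2 := 536870912) (P3 := 402653184) (W3 := 67108864)
    rfl k0_pp_133

noncomputable def f_pp_202_a : ℕ → ℕ → ℕ → ℕ → Bool := onCell 0 536870912 0 536870912 402653184 67108864
    (rowF 0 false true true .pp 2 0 2 (qsf 0 536870912 0 536870912 0) ndF0q2 ndF1q2a pcF0 Cut.none Ext.none)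

def k0_pp_202_a : ∃ t, chk3 f_pp_202_a t 1 1 1 = true :=
  ⟨(l 3), by decide +kernel⟩

theorem c_pp_202_a : CertF 0 536870912 0 536870912 402653184 67108864 false true true .pp 2 0 2
    ndF0q2 ndF1q2a pcF0 Cut.none Ext.none :=
  certF0 (fam := false) (s1 := true) (s2 := true) (a := 2) (b := 0) (c := 2) (cn := .pp) (n1 := ndF0q2) (n2 := ndF1q2a) (pc := pcF0) (cut := Cut.none) (xt := Ext.none) (P1 := 0) (W1 := 536870912) (P2 := 0) (W2 := 536870912) (P3 := 402653184) (W3 := 67108864)
    rfl k0_pp_202_a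

noncomputable def f_pp_202_b : ℕ → ℕ → ℕ → ℕ → Bool := onCell 0 536870912 1239849684 370763052 402653184 67108864
    (rowF 0 false true true .pp 2 0 2 (qsf 0 536870912 1239849684 370763052 0) ndF0q2 ndF1q2b pcF0 Cut.none Ext.none)

def k0_pp_202_b : ∃ t, chk3 f_pp_202_b t 1 1 1 = true :=
  ⟨(l 3), by decide +kernel⟩

theorem c_pp_202_b : CertF 0 536870912 1239849684 370763052 402653184 67108864 false true true .pp 2 0 2
    ndF0q2 ndF1q2b pcF0 Cut.none Ext.none :=
  certF0 (fam := false) (s1 := true) (s2 := true) (a := 2) (b := 0) (c := 2) (cn := .pp) (n1 := ndF0q2) (n2 := ndF1q2b) (pc := pcF0) (cut := Cut.none) (xt := Ext.none) (P1 := 0) (W1 := 536870912) (P2 := 1239849684) (W2 := 370763052) (P3 := 402653184) (W3 := 67108864)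
    rfl k0_pp_202_b

noncomputable def f_pp_203 : ℕ → ℕ → ℕ → ℕ → Bool := onCell 0 536870912 0 536870912 402653184 67108864
    (rowF 1 false true true .up 2 0 3 (qsf 0 536870912 1610612736 536870912 0) ndF0q2 ndF1q3 pcF0 Cut.none Ext.none)

def k0_pp_203 : ∃ t, chk3 f_pp_203 t 1 1 1 = true :=
  ⟨(l 3), by decide +kernel⟩

theorem c_pp_203 : CertF 0 536870912 1610612736 536870912 402653184 67108864 false true true .up 2 0 3
    ndF0q2 ndF1q3 pcF0 Cut.none Ext.none :=
  certF1 (fam := false) (s1 := true) (s2 := true) (a := 2) (b := 0) (c := 3) (cn := .up) (n1 := ndF0q2) (n2 := ndF1q3) (pc := pcF0) (cut := Cut.none) (xt := Ext.none) (P1 := 0) (W1 := 536870912) (P2 := 1610612736) (W2 := 536870912) (P3 := 402653184) (W3 := 67108864)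
    rfl (fun _ => rfl) k0_pp_203

noncomputable def cut_pp_213 : Cut := Cut.of [[⟨0, 1, 0, 67108864⟩, ⟨1, 1, 0, 67108864⟩, ⟨2, 2, 0, 16777216⟩]]

noncomputable def f_pp_213 : ℕ → ℕ → ℕ → ℕ → Bool := onCell 0 536870912 1610612736 536870912 402653184 67108864
    (rowF 0 false true true .pnn 2 1 3 (qsf 0 536870912 1610612736 536870912 1) ndF0q2 ndF1q3 pcF1 cut_pp_213 Ext.none)

def k0_pp_213 : ∃ t, chk3 f_pp_213 t 1 1 1 = true :=
  ⟨(b (l 3) (a (l 3) (b (l 3) (a (l 3) (b (l 3) (a (l 3) (b (l 3) (b (l 3) (b (l 3) (l 6)))))))))), by decide +kernel⟩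

theorem c_pp_213 : CertF 0 536870912 1610612736 536870912 402653184 67108864 false true true .pnn 2 1 3
    ndF0q2 ndF1q3 pcF1 cut_pp_213 Ext.none :=
  certF0 (fam := false) (s1 := true) (s2 := true) (a := 2) (b := 1) (c := 3) (cn := .pnn) (n1 := ndF0q2) (n2 := ndF1q3) (pc := pcF1) (cut := cut_pp_213) (xt := Ext.none) (P1 := 0) (W1 := 536870912) (P2 := 1610612736) (W2 := 536870912) (P3 := 402653184) (W3 := 67108864)
    rfl k0_pp_213

noncomputable def f_pm_001 : ℕ → ℕ → ℕ → ℕ → Bool := onCell 0 536870912 536870912 536870912 402653184 67108864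
    (rowF 0 false true false .up 0 0 1 (qsf 0 536870912 536870912 536870912 0) ndF0q0 ndF1q1 pcF0 Cut.none Ext.none)

def k0_pm_001 : ∃ t, chk3 f_pm_001 t 1 1 1 = true :=
  ⟨(l 4), by decide +kernel⟩

theorem c_pm_001 : CertF 0 536870912 536870912 536870912 402653184 67108864 false true false .up 0 0 1
    ndF0q0 ndF1q1 pcF0 Cut.none Ext.none :=
  certF0 (fam := false) (s1 := true) (s2 := false) (a := 0) (b := 0) (c := 1) (cn := .up) (n1 := ndF0q0) (n2 := ndF1q1) (pc := pcF0) (cut := Cut.none) (xt := Ext.none) (P1 := 0) (W1 := 536870912) (P2 := 536870912) (W2 := 536870912) (P3 := 402653184) (W3 := 67108864)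
    rfl k0_pm_001

noncomputable def f_pm_011 : ℕ → ℕ → ℕ → ℕ → Bool := onCell 0 536870912 536870912 536870912 402653184 67108864
    (rowF 0 false true false .pnn 0 1 1 (qsf 0 536870912 536870912 536870912 1) ndF0q0 ndF1q1 pcF1 Cut.none Ext.none)

def k0_pm_011 : ∃ t, chk3 f_pm_011 t 1 1 1 = true :=
  ⟨(l 4), by decide +kernel⟩

theorem c_pm_011 : CertF 0 536870912 536870912 536870912 402653184 67108864 false true false .pnn 0 1 1
    ndF0q0 ndF1q1 pcF1 Cut.none Ext.none :=
  certF0 (fam := false) (s1 := true) (s2 := false) (a := 0) (b := 1) (c := 1) (cn := .pnn) (n1 := ndF0q0) (n2 := ndF1q1) (pc := pcF1) (cut := Cut.none) (xt := Ext.none) (P1 := 0) (W1 := 536870912) (P2 := 536870912) (W2 := 536870912) (P3 := 402653184) (W3 := 67108864)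
    rfl k0_pm_011

noncomputable def cut_pm_012_a : Cut := Cut.of [[⟨0, 0, 0, 67108864⟩, ⟨1, 1, 0, 67108864⟩, ⟨2, 1, 0, 67108864⟩], [⟨0, 0, 1, 33554432⟩, ⟨1, 1, 2, 33554432⟩, ⟨2, 1, 0, 33554432⟩]]

noncomputable def f_pm_012_a : ℕ → ℕ → ℕ → ℕ → Bool := onCell 536870912 536870912 0 536870912 402653184 67108864
    (rowF 2 false true false .pnp 0 1 2 (qsf 0 536870912 0 536870912 1) ndF0q0 ndF1q2a pcF1 cut_pm_012_a Ext.none)

def k0_pm_012_a : ∃ t, chk3 f_pm_012_a t 8 1 1 = true :=
  ⟨(b (l 2) (b (l 2) (a (b (l 2) (b (a (l 2) (b (l 16885968) (l 16813144))) (a (b (l 17066032) (a (l 17133112) (a (l 17077904) (l 17037800)))) (b (a (l 16953056) (l 16844688)) (b (a (l 16967432) (l 16746928)) (c (a (l 17010064) (l 16856536)) (a (l 16882376) (b (l 16772224) (a (l 16845840) (a (l 16823360) (l 16772320))))))))))) (b (a (b (l 2) (l 16801312)) (b (l 16781440) (l 16775048))) (b (a (b (l 16800784) (l 16801848)) (l 16770408)) (b (a (a (l 16811032) (l 16795032)) (b (l 16768880) (l 16768808)))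 (a (b (a (l 16729560) (l 16775632)) (c (a (l 16841432) (l 16846280)) (b (a (l 16768096) (l 16749600)) (a (c (a (l 16796872) (l 16788128)) (a (l 16729312) (l 16740936))) (c (l 16753608) (b (l 16726216) (a (l 16710640) (c (l 16733832) (l 14))))))))) (b (c (l 16819272) (l 16635448)) (c (a (b (l 16828864) (l 16808648)) (b (l 16810816) (c (l 16836720) (l 16786024)))) (b (a (l 16730112) (l 16709440)) (b (a (c (l 16755328) (l 16705952)) (c (l 16735168) (l 14))) (a (a (c (l 16760616) (c (l 16723816) (l 14))) (c (l 16750784) (l 14))) (c (a (l 16719688) (c (l 16742984) (l 14))) (l 14)))))))))))))), by decide +kernel⟩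

def k1_pm_012_a : ∃ t, chk3 f_pm_012_a t 9 2 1 = true :=
  ⟨(b (l 2) (a (l 2) (l 16778792))), by decide +kernel⟩

def k2_pm_012_a : ∃ t, chk3 f_pm_012_a t 9 6 1 = true :=
  ⟨(b (a (l 2) (l 16738384)) (a (l 16760768) (l 16700352))), by decide +kernel⟩

def k3_pm_012_a : ∃ t, chk3 f_pm_012_a t 9 14 1 = true :=
  ⟨(a (b (l 16739528) (l 16726688)) (b (l 16665448) (l 16641512))), by decide +kernel⟩

def k4_pm_012_a : ∃ t, chk3 f_pm_012_a t 9 30 1 = true :=
  ⟨(a (a (l 16671584) (l 16692752)) (b (l 16625072) (l 16615480))), by decide +kernel⟩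

def k5_pm_012_a : ∃ t, chk3 f_pm_012_a t 9 62 1 = true :=
  ⟨(a (a (b (l 16730008) (l 16729128)) (c (l 16740632) (l 16629592))) (a (l 16635024) (l 16616448))), by decide +kernel⟩

def k6_pm_012_a : ∃ t, chk3 f_pm_012_a t 9 63 1 = true :=
  ⟨(a (b (a (c (l 16760504) (l 16634104)) (a (l 16631992) (l 16660112))) (a (a (b (c (l 16791616) (l 16687512)) (a (c (c (l 16822784) (l 16771072)) (c (c (l 16732288) (l 14)) (l 14))) (c (c (l 16813128) (l 16760728)) (l 14)))) (c (b (l 16771184) (c (l 16798080) (b (l 16744560) (a (l 16729168) (c (l 16752584) (l 14)))))) (l 14))) (b (c (a (l 16749472) (l 16726408)) (a (l 14) (l 16636704))) (c (b (a (c (l 16776888) (l 16721968)) (c (l 16754424) (l 14))) (c (a (a (l 16782328) (l 16771384)) (a (l 16739128) (c (l 16762672) (l 14)))) (a (a (c (l 16741424) (l 14)) (l 14)) (l 14)))) (a (l 14) (c (l 14) (a (l 14) (a (l 14) (c (l 14) (l 16627048)))))))))) (b (a (c (l 16648408) (l 16622808)) (c (l 16642608) (l 16614536))) (a (a (c (c (b (l 16730944)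 (a (c (l 16750976) (l 14)) (l 14))) (l 14)) (b (l 16631472) (c (l 14) (b (l 16626920) (a (c (l 14) (l 16626312)) (c (a (l 14) (l 16631224)) (l 16623992))))))) (c (l 14) (b (l 16626800) (b (l 16650992) (c (a (l 14) (a (l 14) (c (l 14) (l 16634312)))) (c (a (l 16629496) (l 16627304)) (a (l 16621808) (l 16619744)))))))) (a (c (l 14) (b (l 16622584) (b (l 16625776) (a (c (c (l 14) (l 16643160)) (l 16621512)) (c (c (a (l 14) (l 16637392)) (l 16630600)) (l 16619624)))))) (b (c (l 16646960) (l 16618824)) (b (c (l 16663496) (l 16621992)) (c (a (l 14) (a (l 14) (c (l 14) (c (l 14) (l 16640472))))) (c (c (a (l 16646336) (l 16633888)) (a (l 16628648) (l 16626808))) (c (l 16620576) (l 16613440)))))))))), by decide +kernel⟩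

def k7_pm_012_a : ∃ t, chk3 f_pm_012_a t 5 2 1 = true :=
  ⟨(a (b (a (l 16791912) (l 16749768)) (a (l 16733312) (l 16667120))) (b (l 16671120) (b (l 16587352) (l 16547792)))), by decide +kernel⟩

def k8_pm_012_a : ∃ t, chk3 f_pm_012_a t 10 6 1 = true :=
  ⟨(b (a (l 16672832) (l 16580688)) (a (l 16679832) (l 16535840))), by decide +kernel⟩

def k9_pm_012_a : ∃ t, chk3 f_pm_012_a t 10 7 1 = true :=
  ⟨(b (a (b (l 16566112) (l 16565632)) (b (l 16541944) (l 16556616))) (b (a (b (l 16579992) (l 16592560)) (a (l 16579472) (l 16576992))) (a (b (a (l 16609256) (l 16603536)) (b (a (c (l 16634256) (l 16607912)) (c (l 16627720) (l 16603016))) (a (b (c (a (l 16642736) (l 16638944)) (l 16634984)) (b (c (a (l 16664480) (l 16663296)) (a (l 16618664) (l 16615760))) (c (a (c (l 14) (a (c (l 14) (l 16644256)) (c (a (l 14) (l 16643536)) (l 16637168)))) (c (a (l 14) (a (l 14) (c (l 14) (l 16646600)))) (c (a (b (l 16641592) (l 16642736)) (l 16640424)) (a (l 16635432) (l 16633800))))) (a (c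 (a (l 16639048) (l 16626888)) (l 16613904)) (c (c (l 16627928) (l 16621248)) (l 16611232)))))) (b (c (a (l 16635584) (l 16632672)) (l 16609152)) (b (c (a (l 16659928) (l 16657024)) (a (l 16613272) (l 16611216))) (c (a (c (b (l 16647120) (c (a (l 14) (c (l 14) (l 16649064))) (a (l 16645888) (l 16644256)))) (c (a (l 16638800) (l 16637272)) (l 16631568))) (a (c (c (b (l 16647856) (l 16649032)) (l 16642152)) (l 16632712)) (c (c (l 16646928) (l 16640736)) (l 16631456)))) (a (c (l 16621880) (l 16608968)) (c (l 16619624) (l 16607144))))))))) (b (a (l 16600112) (l 16597824)) (b (a (c (l 16623776) (l 16600304)) (l 16630832)) (b (a (c (a (l 16630896) (l 16629920)) (l 16606512)) (c (l 16627616) (l 16604872))) (a (c (b (a (l 16634280) (l 16633288)) (a (c (a (c (l 16645976) (l 16639864)) (l 16642464)) (a (l 16630696) (l 16630344))) (c (c (l 16644536) (l 16638552)) (l 16629592)))) (a (c (l 16617232) (l 16605112)) (l 16610632))) (c (a (c (a (l 16639216) (l 16638312)) (l 16627128)) (c (l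 16647264) (l 16625432))) (c (l 16625368) (l 16603464)))))))))), by decide +kernel⟩

def k10_pm_012_a : ∃ t, chk3 f_pm_012_a t 11 3 1 = true :=
  ⟨(b (b (l 16565752) (a (l 16524432) (l 16510888))) (b (a (b (l 16533528) (l 16549000)) (b (l 16521240) (l 16538360))) (b (a (b (l 16564608) (l 16577720)) (l 16603904)) (b (a (a (l 16594192) (l 16590440)) (a (l 16586400) (l 16581912))) (a (b (a (l 16627200) (l 16602680)) (a (a (c (b (l 16624456) (c (l 16634440) (l 16623448))) (l 16604928)) (c (b (l 16622080) (l 16647552)) (l 16603344))) (c (a (l 16643352) (l 16620376)) (l 16622568)))) (b (a (l 16599000) (l 16595032)) (a (c (b (l 16614776) (l 16619456)) (l 16599088)) (c (l 16612504) (l 16596496))))))))), by decide +kernel⟩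

def k11_pm_012_a : ∃ t, chk3 f_pm_012_a t 3 2 1 = true :=
  ⟨(a (a (b (a (l 16622392) (l 16586224)) (a (l 16529688) (b (l 16514432) (l 16483688)))) (b (a (l 16556648) (l 16528552)) (a (l 16545264) (l 16550888)))) (a (b (a (l 16542176) (b (l 16488024) (l 16457664))) (a (l 16556720) (l 16472480))) (b (a (b (l 16461016) (l 16436656)) (l 16471216)) (a (l 16511560) (b (l 16419512) (l 16446872)))))), by decide +kernel⟩

def k12_pm_012_a : ∃ t, chk3 f_pm_012_a t 3 3 1 = true :=
  ⟨(a (b (a (b (a (l 16492752) (l 16468936)) (a (l 16492040) (l 16514472))) (b (a (l 16460696) (l 16456024)) (a (l 16491952) (l 16494952)))) (b (a (b (a (l 16505384) (l 16510280)) (a (l 16524336) (l 16553416))) (b (a (l 16493296) (l 16502432)) (b (l 16581088) (l 16605088)))) (a (b (a (l 16613432) (b (l 16553688) (l 16591768))) (a (b (l 16596120) (b (l 16610208) (a (l 16621880) (l 16597712)))) (b (a (l 16568760) (l 16569568)) (a (l 16610600) (l 16612600))))) (b (a (l 16616504) (l 16634272)) (b (a (l 16626632)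 (l 16626704)) (b (a (l 16602136) (l 16645848)) (a (l 16656456) (l 16680320)))))))) (b (a (b (a (l 16452016) (l 16449880)) (a (l 16498984) (l 16531832))) (a (b (l 16483496) (b (l 16502896) (a (l 16507688) (l 16542744)))) (b (a (l 16482176) (l 16536232)) (a (b (l 16523000) (l 16556096)) (b (l 16535432) (l 16568784)))))) (a (b (a (b (l 16512832) (l 16568584)) (b (l 16542008) (a (l 16571160) (l 16587352)))) (b (a (l 16643072) (b (l 16620440) (l 16653832))) (b (a (l 16670504) (a (l 16668008) (l 16683776))) (a (a (l 16692136) (b (l 16676768) (l 16691704))) (a (a (l 16694400) (l 16711824)) (b (l 16703976) (c (l 16720528) (l 16719384)))))))) (b (a (b (a (l 16585840) (l 16600160)) (a (l 16644816) (l 16670216))) (a (b (l 16613848) (b (l 16621824) (l 16642544))) (b (a (l 16602776) (l 16609184)) (a (l 16668832) (b (l 16638816) (l 6)))))) (b (a (a (b (l 16655208) (l 16656448)) (b (l 16670680) (b (l 16666640) (l 16699136)))) (a (b (a (l 16661000) (l 6)) (l 6)) (l 6))) (a (a (b (l 16696776)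 (b (l 16708704) (a (l 16730952) (l 6)))) (b (b (a (l 16686048) (l 6)) (l 6)) (l 6))) (l 6))))))), by decide +kernel⟩

theorem s13_pm_012_a : ∃ t, chk3 f_pm_012_a t 3 1 1 = true := ex3_b k11_pm_012_a k12_pm_012_a

theorem s14_pm_012_a : ∃ t, chk3 f_pm_012_a t 10 3 1 = true := ex3_b k8_pm_012_a k9_pm_012_a

theorem s15_pm_012_a : ∃ t, chk3 f_pm_012_a t 5 3 1 = true := ex3_a s14_pm_012_a k10_pm_012_a

theorem s16_pm_012_a : ∃ t, chk3 f_pm_012_a t 5 1 1 = true := ex3_b k7_pm_012_a s15_pm_012_a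

theorem s17_pm_012_a : ∃ t, chk3 f_pm_012_a t 9 31 1 = true := ex3_b k5_pm_012_a k6_pm_012_a

theorem s18_pm_012_a : ∃ t, chk3 f_pm_012_a t 9 15 1 = true := ex3_b k4_pm_012_a s17_pm_012_a

theorem s19_pm_012_a : ∃ t, chk3 f_pm_012_a t 9 7 1 = true := ex3_b k3_pm_012_a s18_pm_012_a

theorem s20_pm_012_a : ∃ t, chk3 f_pm_012_a t 9 3 1 = true := ex3_b k2_pm_012_a s19_pm_012_a

theorem s21_pm_012_a : ∃ t, chk3 f_pm_012_a t 9 1 1 = true := ex3_b k1_pm_012_a s20_pm_012_a

theorem s22_pm_012_a : ∃ t, chk3 f_pm_012_a t 4 1 1 = true := ex3_a k0_pm_012_a s21_pm_012_a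

theorem s23_pm_012_a : ∃ t, chk3 f_pm_012_a t 2 1 1 = true := ex3_a s22_pm_012_a s16_pm_012_a

theorem s24_pm_012_a : ∃ t, chk3 f_pm_012_a t 1 1 1 = true := ex3_a s23_pm_012_a s13_pm_012_a

theorem c_pm_012_a : CertF 0 536870912 0 536870912 402653184 67108864 false true false .pnp 0 1 2
    ndF0q0 ndF1q2a pcF1 cut_pm_012_a Ext.none :=
  certF2 (fam := false) (s1 := true) (s2 := false) (a := 0) (b := 1) (c := 2) (cn := .pnp) (n1 := ndF0q0) (n2 := ndF1q2a) (pc := pcF1) (cut := cut_pm_012_a) (xt := Ext.none) (P1 := 0) (W1 := 536870912) (P2 := 0) (W2 := 536870912) (P3 := 402653184) (W3 := 67108864)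
    rfl (fun _ => rfl) s24_pm_012_a

noncomputable def cut_pm_012_b : Cut := Cut.of [[⟨0, 0, 0, 67108864⟩, ⟨1, 1, 0, 67108864⟩, ⟨2, 1, 0, 67108864⟩], [⟨0, 0, 1, 33554432⟩, ⟨1, 1, 2, 33554432⟩, ⟨2, 1, 0, 33554432⟩]]

noncomputable def f_pm_012_b : ℕ → ℕ → ℕ → ℕ → Bool := onCell 0 536870912 536870912 536870912 402653184 67108864
    (rowF 1 false true false .pnp 0 1 2 (qsf 0 536870912 1239849684 370763052 1) ndF0q0 ndF1q2b pcF1 cut_pm_012_b Ext.none)

def k0_pm_012_b : ∃ t, chk3 f_pm_012_b t 1 1 1 = true :=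
  ⟨(a (b (l 1) (b (l 1) (a (l 1) (b (a (l 1) (a (b (l 1) (l 16653640)) (b (l 16640704) (l 16544576)))) (a (b (a (l 1) (l 25803180647)) (b (a (l 1) (l 16513808)) (a (l 16562280) (l 16421000)))) (b (a (b (l 16497864) (l 16468232)) (l 16398488)) (a (l 16367712) (l 16301144)))))))) (b (b (l 1) (a (l 1) (a (b (l 1) (a (l 243236151191) (l 98818060919))) (b (a (l 247531276759) (l 16820744)) (l 26340454023))))) (a (b (a (b (l 1) (a (l 211560405447) (b (l 16662936) (l 16569720)))) (b (a (l 230887980391) (b (l 16735104) (l 16638584))) (a (l 16659464) (b (l 16539344) (l 16432320))))) (a (b (b (a (l 16535424) (l 16468272)) (a (l 16474392) (l 16358128))) (b (a (l 16321184) (l 16261048)) (a (l 16264008) (l 16236672)))) (b (a (l 16436992) (l 16282592)) (a (l 16291928) (b (l 16242440) (l 16222088)))))) (b (b (a (a (l 16690504) (l 16583832)) (l 16647528)) (a (a (l 16433256) (l 16387144)) (a (l 16518328) (l 16630512)))) (a (b (a (l 16271624) (l 16346328)) (b (l 16267680) (l 16272880))) (b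 (a (l 16518944) (l 16658176)) (a (l 16449200) (l 16710048)))))))), by decide +kernel⟩

theorem c_pm_012_b : CertF 0 536870912 1239849684 370763052 402653184 67108864 false true false .pnp 0 1 2
    ndF0q0 ndF1q2b pcF1 cut_pm_012_b Ext.none :=
  certF1 (fam := false) (s1 := true) (s2 := false) (a := 0) (b := 1) (c := 2) (cn := .pnp) (n1 := ndF0q0) (n2 := ndF1q2b) (pc := pcF1) (cut := cut_pm_012_b) (xt := Ext.none) (P1 := 0) (W1 := 536870912) (P2 := 1239849684) (W2 := 370763052) (P3 := 402653184) (W3 := 67108864)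
    rfl (fun _ => rfl) k0_pm_012_b

noncomputable def cut_pm_022_a : Cut := Cut.of [[⟨0, 0, 0, 67108864⟩, ⟨1, 1, 0, 67108864⟩, ⟨2, 1, 0, 67108864⟩]]

noncomputable def f_pm_022_a : ℕ → ℕ → ℕ → ℕ → Bool := onCell 0 536870912 0 536870912 402653184 67108864
    (rowF 0 false true false .pp 0 2 2 (qsf 0 536870912 0 536870912 2) ndF0q0 ndF1q2a pcF2 cut_pm_022_a Ext.none)

def k0_pm_022_a : ∃ t, chk3 f_pm_022_a t 1 1 1 = true :=
  ⟨(a (b (a (a (b (b (l 16589840) (a (l 16508296) (l 16476792))) (a (b (l 16566320) (a (l 16556000) (l 16536608))) (a (l 16612816) (l 16530840)))) (b (b (l 16452640) (l 16498112)) (b (a (l 16452384) (l 16448744)) (a (l 16477296) (b (l 16465280) (l 16479840)))))) (a (b (a (l 16513304) (l 16506392)) (a (b (l 16442064) (a (l 16465784) (l 1))) (l 1))) (l 1))) (a (b (a (a (a (b (b (l 16576496) (l 16592256)) (b (l 16609696) (l 16691936))) (b (l 16605352) (l 16672744))) (b (l 16593608) (b (l 16599944) (a (l 16590128) (l 16650048))))) (b (a (b (l 16504528) (l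 16589576)) (b (l 16517984) (a (l 16519776) (l 1)))) (a (b (a (l 16553840) (l 16549056)) (a (b (l 16574848) (l 16589856)) (l 41372265655))) (b (a (l 16542824) (l 1)) (l 1))))) (a (a (b (b (a (b (l 16687216) (l 16699680)) (l 16669536)) (l 6)) (l 6)) (a (b (b (a (l 16666800) (l 16664872)) (l 6)) (l 6)) (b (b (b (l 16611088) (l 36003633127)) (a (l 6) (a (l 6) (l 1)))) (l 1)))) (b (b (a (a (b (l 16605152) (l 16620432)) (l 1)) (l 1)) (l 1)) (l 1)))) (b (l 1) (l 1)))) (l 1)), by decide +kernel⟩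

theorem c_pm_022_a : CertF 0 536870912 0 536870912 402653184 67108864 false true false .pp 0 2 2
    ndF0q0 ndF1q2a pcF2 cut_pm_022_a Ext.none :=
  certF0 (fam := false) (s1 := true) (s2 := false) (a := 0) (b := 2) (c := 2) (cn := .pp) (n1 := ndF0q0) (n2 := ndF1q2a) (pc := pcF2) (cut := cut_pm_022_a) (xt := Ext.none) (P1 := 0) (W1 := 536870912) (P2 := 0) (W2 := 536870912) (P3 := 402653184) (W3 := 67108864)
    rfl k0_pm_022_a

noncomputable def cut_pm_022_b : Cut := Cut.of [[⟨0, 0, 0, 67108864⟩, ⟨1, 1, 0, 67108864⟩, ⟨2, 1, 0, 67108864⟩]]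

noncomputable def f_pm_022_b : ℕ → ℕ → ℕ → ℕ → Bool := onCell 0 536870912 1073741824 536870912 402653184 67108864
    (rowF 1 false true false .pp 0 2 2 (qsf 0 536870912 1239849684 370763052 2) ndF0q0 ndF1q2b pcF2 cut_pm_022_b Ext.none)

def k0_pm_022_b : ∃ t, chk3 f_pm_022_b t 1 1 1 = true :=
  ⟨(a (b (b (a (a (b (l 1) (a (b (l 1) (l 92375133639)) (b (l 16612848) (l 16530552)))) (b (a (b (l 1) (l 111165330823)) (b (l 16527528) (l 16449664))) (a (l 16557856) (l 16388552)))) (b (a (a (l 16506160) (b (l 16373104) (l 16325888))) (b (a (l 16325072) (l 16283352)) (l 16345600))) (a (b (l 16322064) (l 16252048)) (b (l 16262680) (l 16179816))))) (a (a (a (b (b (l 16576368) (l 16434328)) (l 16456568)) (b (l 16435304) (l 16266200))) (b (l 16381280) (l 16237864))) (b (a (l 16229760) (l 16180880)) (a (l 16092872) (l 16185368))))) (b (a (b (a (a (l 16322560) (l 16176056)) (l 16086792)) (a (l 16245376) (l 16231624))) (b (a (l 16180408) (l 16526552)) (l 16656104))) (a (b (a (l 16364616)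 (l 16594504)) (l 465165452919)) (b (l 16850048) (l 2))))) (b (a (b (b (a (b (a (l 16249728) (l 16226408)) (l 16308928)) (b (a (b (l 16222456) (l 16210176)) (b (l 16226264) (l 16217112))) (a (l 16192248) (l 16203856)))) (a (b (l 16172360) (l 16140952)) (b (l 16220720) (l 16397368)))) (b (a (l 16230744) (l 16603976)) (a (l 16551456) (l 16799872)))) (b (b (a (b (a (b (l 16246152) (l 16271992)) (b (l 16264056) (l 16504136))) (a (l 16400792) (l 16599288))) (b (a (a (l 16406728) (l 16615792)) (b (l 16681992) (l 16823768))) (a (l 16753912) (l 16872328)))) (a (b (l 16629360) (l 16730184)) (l 16909280))) (a (b (l 16848312) (l 2)) (l 2)))) (a (b (b (l 16858800) (l 2)) (l 2)) (l 2)))), by decide +kernel⟩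

theorem c_pm_022_b : CertF 0 536870912 1239849684 370763052 402653184 67108864 false true false .pp 0 2 2
    ndF0q0 ndF1q2b pcF2 cut_pm_022_b Ext.none :=
  certF1 (fam := false) (s1 := true) (s2 := false) (a := 0) (b := 2) (c := 2) (cn := .pp) (n1 := ndF0q0) (n2 := ndF1q2b) (pc := pcF2) (cut := cut_pm_022_b) (xt := Ext.none) (P1 := 0) (W1 := 536870912) (P2 := 1239849684) (W2 := 370763052) (P3 := 402653184) (W3 := 67108864)
    rfl (fun _ => rfl) k0_pm_022_b

noncomputable def f_pm_023 : ℕ → ℕ → ℕ → ℕ → Bool := onCell 0 536870912 1073741824 536870912 402653184 67108864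
    (rowF 1 false true false .up 0 2 3 (qsf 0 536870912 1610612736 536870912 2) ndF0q0 ndF1q3 pcF2 Cut.none Ext.none)

def k0_pm_023 : ∃ t, chk3 f_pm_023 t 1 1 1 = true :=
  ⟨(a (b (b (l 1) (a (l 1) (b (l 1) (l 184179189079)))) (b (a (b (l 1) (l 225518197351)) (b (l 264173779271) (l 16689192))) (a (b (l 291017165399) (l 333967902487)) (b (l 16882672) (l 17000832))))) (b (a (a (b (l 1) (l 244846387511)) (b (b (l 1) (l 198674919095)) (b (l 16550384) (l 16770504)))) (b (b (a (l 194379966087) (b (a (l 219613126727) (l 229276811447)) (l 83247972951))) (a (l 239477494679) (l 16839632))) (a (b (l 16796688) (l 16929016)) (l 16991752)))) (a (b (b (l 16848496) (l 16968424)) (l 17308728)) (b (a (l 17040344) (l 17072544)) (l 17072528))))), by decide +kernel⟩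

theorem c_pm_023 : CertF 0 536870912 1610612736 536870912 402653184 67108864 false true false .up 0 2 3
    ndF0q0 ndF1q3 pcF2 Cut.none Ext.none :=
  certF1 (fam := false) (s1 := true) (s2 := false) (a := 0) (b := 2) (c := 3) (cn := .up) (n1 := ndF0q0) (n2 := ndF1q3) (pc := pcF2) (cut := Cut.none) (xt := Ext.none) (P1 := 0) (W1 := 536870912) (P2 := 1610612736) (W2 := 536870912) (P3 := 402653184) (W3 := 67108864)
    rfl (fun _ => rfl) k0_pm_023

noncomputable def f_pm_033 : ℕ → ℕ → ℕ → ℕ → Bool := onCell 1610612736 536870912 1610612736 536870912 402653184 67108864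
    (rowF 2 false true false .pnn 0 3 3 (qsf 0 536870912 1610612736 536870912 3) ndF0q0 ndF1q3 pcF3 Cut.none Ext.none)

def k0_pm_033 : ∃ t, chk3 f_pm_033 t 1 1 1 = true :=
  ⟨(a (b (a (a (b (l 4) (l 17056344)) (l 4)) (l 4)) (a (a (b (l 17062672) (l 17023552)) (b (l 17069984) (l 17023008))) (a (b (l 4) (l 17022088)) (l 4)))) (l 4)), by decide +kernel⟩

theorem c_pm_033 : CertF 0 536870912 1610612736 536870912 402653184 67108864 false true false .pnn 0 3 3
    ndF0q0 ndF1q3 pcF3 Cut.none Ext.none :=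
  certF2 (fam := false) (s1 := true) (s2 := false) (a := 0) (b := 3) (c := 3) (cn := .pnn) (n1 := ndF0q0) (n2 := ndF1q3) (pc := pcF3) (cut := Cut.none) (xt := Ext.none) (P1 := 0) (W1 := 536870912) (P2 := 1610612736) (W2 := 536870912) (P3 := 402653184) (W3 := 67108864)
    rfl (fun _ => rfl) k0_pm_033

noncomputable def f_pm_101 : ℕ → ℕ → ℕ → ℕ → Bool := onCell 0 536870912 536870912 536870912 402653184 67108864
    (rowF 2 false true false .npn 1 0 1 (qsf 536870912 536870912 536870912 536870912 0) ndF0q1 ndF1q1 pcF0 Cut.none Ext.none)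

def k0_pm_101 : ∃ t, chk3 f_pm_101 t 1 1 1 = true :=
  ⟨(a (b (l 4) (a (b (a (b (l 4) (a (l 17097440) (l 4))) (l 4)) (a (b (a (l 17131600) (l 17132480)) (a (l 17100104) (l 17117920))) (b (b (l 4) (l 17312248)) (a (l 17128848) (l 17124192))))) (b (l 4) (b (l 4) (a (b (l 17301056) (a (l 17105680) (l 17079800))) (a (l 17046480) (l 4))))))) (l 4)), by decide +kernel⟩

theorem c_pm_101 : CertF 536870912 536870912 536870912 536870912 402653184 67108864 false true false .npn 1 0 1
    ndF0q1 ndF1q1 pcF0 Cut.none Ext.none :=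
  certF2 (fam := false) (s1 := true) (s2 := false) (a := 1) (b := 0) (c := 1) (cn := .npn) (n1 := ndF0q1) (n2 := ndF1q1) (pc := pcF0) (cut := Cut.none) (xt := Ext.none) (P1 := 536870912) (W1 := 536870912) (P2 := 536870912) (W2 := 536870912) (P3 := 402653184) (W3 := 67108864)
    rfl (fun _ => rfl) k0_pm_101

noncomputable def cut_pm_102_a : Cut := Cut.of [[⟨0, 1, 0, 67108864⟩, ⟨1, 0, 0, 67108864⟩, ⟨2, 1, 0, 67108864⟩]]

noncomputable def f_pm_102_a : ℕ → ℕ → ℕ → ℕ → Bool := onCell 536870912 536870912 0 536870912 402653184 67108864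
    (rowF 0 false true false .npp 1 0 2 (qsf 536870912 536870912 0 536870912 0) ndF0q1 ndF1q2a pcF0 cut_pm_102_a Ext.none)

def k0_pm_102_a : ∃ t, chk3 f_pm_102_a t 2 1 1 = true :=
  ⟨(b (a (a (l 2) (b (l 2) (l 17114960))) (a (b (a (l 16930584) (l 16889040)) (b (l 16957608) (l 16976392))) (b (b (l 16859008) (l 16836472)) (b (l 16861272) (l 16888768))))) (b (a (a (l 2) (l 17103448)) (a (l 17000928) (a (l 16944544) (l 16912872)))) (a (b (a (l 113918253079) (l 17130704)) (a (a (a (b (l 2) (l 17240344)) (l 17230080)) (l 17225920)) (b (l 17152160) (l 17169832)))) (a (b (l 17040400) (a (l 17097720) (l 17063176))) (b (l 16932520) (b (l 17006928) (l 17032744))))))), by decide +kernel⟩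

def k1_pm_102_a : ∃ t, chk3 f_pm_102_a t 12 2 1 = true :=
  ⟨(b (a (b (l 16788928) (l 16797608)) (b (a (l 16797984) (b (a (l 16791864) (b (a (l 16785824) (l 16782696)) (l 16788808))) (l 16796352))) (l 16796072))) (b (l 16866096) (l 16824104))), by decide +kernel⟩

def k2_pm_102_a : ∃ t, chk3 f_pm_102_a t 26 4 1 = true :=
  ⟨(b (a (b (a (c (b (a (b (l 109689441719) (l 16782984)) (b (l 121500597703) (a (l 107005089735) (l 115058149927)))) (a (l 16786928) (l 16783432))) (b (a (b (a (l 103246986055) (l 110763175591)) (l 16778184)) (b (l 119353105543) (a (l 105394467879) (l 113447528327)))) (a (l 16781624) (l 16778440)))) (c (b (l 3) (a (b (a (l 109689442439) (l 117205631751)) (l 101636372999)) (b (l 3) (a (l 111836924135) (l 119889984391))))) (b (l 3) (a (b (a (l 107541949607) (l 115595010055)) (l 100025751063)) (b (l 3) (a (l 110226302151) (l 118279362631))))))) (a (l 16789344) (b (a (l 16782440) (a (l 16779832) (c (l 104320735639) (l 102710113031)))) (l 16785392)))) (c (b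 (l 3) (a (b (a (b (l 116668758663) (l 106468216263)) (b (l 3) (l 118816240151))) (a (l 16782928) (b (l 108615697591) (l 16780432)))) (b (l 3) (a (b (l 121500592471) (a (l 105394471463) (l 114521273271))) (l 131701135495))))) (b (l 3) (a (b (a (b (a (l 112910654631) (l 120963715143)) (a (l 16774984) (l 107005075719))) (b (l 3) (l 117205618199))) (a (l 16777608) (b (a (l 16773824) (l 110226298887)) (l 16775296)))) (b (l 3) (a (b (l 119889970503) (a (l 104320719911) (l 112910651079))) (l 123111191783))))))) (a (l 16796992) (b (a (l 16785448) (b (c (a (l 16780480) (b (a (l 108615694391) (l 117742496279)) (l 16777848))) (a (l 16775240) (b (a (l 107005072007) (l 116131874135)) (l 16772816)))) (l 16780840))) (l 16790472)))), by decide +kernel⟩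

def k3_pm_102_a : ∃ t, chk3 f_pm_102_a t 27 4 1 = true :=
  ⟨(b (l 3) (a (b (a (c (b (a (b (l 3) (l 116131882887)) (l 3)) (a (l 101099493991) (b (l 118816234871) (l 106468208519)))) (b (a (b (l 3) (a (l 110763165879) (l 119889968087))) (l 3)) (a (b (l 102710104983) (l 16773856)) (b (a (l 113984388807) (l 123648062023)) (l 105394456903))))) (a (a (b (l 3) (c (l 122037457431) (l 120963706311))) (l 3)) (l 3))) (a (b (l 16778232) (l 16782824)) (b (a (b (a (l 100025740007) (b (l 117742487031) (l 103783834871))) (l 16773736)) (b (a (l 122574323031) (l 3)) (c (l 111836911991) (a (l 105394453223) (l 116131868007))))) (a (l 16777352) (b (l 16772288) (l 16774744)))))) (b (l 3) (a (b (a (b (l 3) (l 127406157191)) (l 3)) (a (b (a (b (l 115058130503) (l 16769936)) (l 120963708279)) (a (l 16771808) (l 102173219207))) (b (l 3) (a (b (l 120963707799) (l 108615678919)) (l 125795543847))))) (l 3))))), by decide +kernel⟩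

def k4_pm_102_a : ∃ t, chk3 f_pm_102_a t 13 5 1 = true :=
  ⟨(b (a (a (l 16798008) (l 16799016)) (a (b (l 16785808) (l 16793280)) (b (a (b (a (l 16774488) (b (a (l 16770320) (l 108615673447)) (l 16771792))) (l 16777304)) (b (c (a (b (l 123111192727) (l 110226295031)) (l 129016768391)) (a (b (l 122037441847) (a (l 16766400) (l 113447509351))) (l 126869275799))) (a (l 16771496) (b (a (l 107541934727) (b (l 127943024775) (l 113984382983))) (l 16768736))))) (a (l 16783944) (l 16776656))))) (a (l 16794224) (a (l 16798648) (l 16792112)))), by decide +kernel⟩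

def k5_pm_102_a : ∃ t, chk3 f_pm_102_a t 7 2 1 = true :=
  ⟨(a (b (l 3) (a (b (a (b (a (b (l 3) (a (b (l 130627375799) (a (b (l 117205607031) (l 103246955271)) (l 123648055751))) (l 3))) (l 3)) (a (b (c (a (l 102710093911) (b (l 122037446295) (l 109152548631))) (a (b (l 103783825415) (l 16767184)) (b (a (l 117742471735) (l 130627370519)) (l 108615668743)))) (l 16771280)) (b (a (b (l 3) (a (l 123111177319) (l 3))) (l 3)) (a (b (a (l 103783823575) (b (l 124184923847) (l 111300023927))) (l 16766512)) (b (l 131701113127) (c (l 117205606247) (a (l 110763148327) (l 123111175975)))))))) (l 3)) (a (b (a (l 16778248) (b (a (l 16770152) (b (a (l 16765952) (l 103246950567)) (l 16767392))) (l 16772944))) (l 16783328)) (b (a (b (c (a (b (l 122037441591) (l 108078802087)) (l 129016759239)) (a (b (a (l 116668725559) (l 129016753431)) (a (l 16762152) (l 110763146167))) (b (l 3) (l 125795526967)))) (a (l 16767040) (b (a (l 103246948647) (b (l 124184919351) (l 110763148519))) (l 16764264))))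 (b (l 3) (a (b (a (l 130090497335) (l 3)) (c (l 117742472503) (a (l 110763144055) (l 123648042647)))) (l 3)))) (a (l 16772216) (b (a (b (a (l 16763712) (l 103246946935)) (l 16765144)) (b (a (b (l 124721788087) (l 111300017255)) (l 131164237031)) (a (l 16762160) (b (l 116131854055) (l 16760776))))) (l 16766784)))))) (b (l 3) (a (b (l 3) (a (b (a (b (l 3) (a (b (l 3) (l 120963690903)) (l 3))) (l 3)) (a (b (a (l 103783816183) (b (l 126332398743) (l 112373756967))) (l 16762072)) (b (a (l 132774847735) (l 3)) (a (b (l 117205593799) (l 16759720)) (b (l 3) (l 122574301607)))))) (l 3))) (l 3))))) (l 3)), by decide +kernel⟩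

def k6_pm_102_a : ∃ t, chk3 f_pm_102_a t 6 3 1 = true :=
  ⟨(b (b (a (l 16914632) (a (l 16813144) (l 16834880))) (a (l 16883560) (a (l 16843600) (l 16817368)))) (a (b (l 17087808) (a (l 16981320) (l 16956640))) (b (a (l 16881600) (l 16854512)) (a (l 16931520) (b (l 16890288) (l 16919088)))))), by decide +kernel⟩

def k7_pm_102_a : ∃ t, chk3 f_pm_102_a t 14 6 1 = true :=
  ⟨(a (a (b (l 16793272) (l 16735072)) (b (b (l 16777592) (l 16785928)) (l 16787304))) (b (a (b (a (a (l 16768072) (b (b (c (l 103246951223) (l 103783814359)) (l 16762984)) (l 16766576))) (b (a (b (a (b (l 128479880407) (l 113984367671)) (l 134385458535)) (a (l 16760048) (b (l 119353075463) (l 103246941719)))) (b (l 3) (a (b (l 3) (l 125258654231)) (l 3)))) (a (l 16762688) (b (a (b (l 109689399767) (l 16759176)) (b (l 131164233095) (a (l 105931295319) (l 121500557607)))) (a (l 16760984) (l 16759048)))))) (a (l 16775448) (b (l 16765528) (l 16770232)))) (b (a (b (l 3) (a (b (l 137069804775) (a (b (a (l 115058107015)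 (l 130627361927)) (l 105394424407)) (b (l 3) (l 127943006999)))) (l 3))) (l 3)) (a (b (a (a (l 16760728) (b (c (l 108615660631) (l 109689395511)) (l 16760008))) (b (a (b (l 134385456839) (a (l 109689390183) (l 126332394071))) (l 3)) (a (l 101636328455) (b (a (l 119353072567) (l 134922327575)) (l 108615648759))))) (a (l 16764536) (b (l 16759552) (l 16761936)))) (b (a (b (l 3) (a (b (l 3) (l 131701101767)) (l 3))) (l 3)) (a (b (a (b (a (l 105394422487) (l 122574297239)) (l 16757328)) (b (l 138143551687) (a (l 116668717591) (l 131701101639)))) (a (l 16759112) (b (l 107005035671) (l 16757848)))) (b (l 3) (c (a (b (l 129553620775) (l 113984366183)) (l 137069811815)) (a (b (l 129553614439) (l 114521230871)) (l 137069805415))))))))) (a (b (l 16780608) (l 16786544)) (b (a (l 16769680) (b (a (l 16761744) (b (a (l 16757776) (a (c (l 108078783223) (l 109689393479)) (b (l 134922326759) (l 105394422087)))) (l 16759224))) (l 16764592))) (a (l 16778712) (l 16771560)))))), by decide +kernel⟩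

def k8_pm_102_a : ∃ t, chk3 f_pm_102_a t 15 6 1 = true :=
  ⟨(a (b (l 3) (a (b (a (b (a (b (a (a (c (l 128479878343) (l 134922323207)) (l 137069808679)) (l 3)) (a (b (a (l 16756344) (b (l 139217294343) (l 16755728))) (l 16757072)) (a (b (l 137606680679) (b (l 111300001479) (l 16756000))) (c (l 135459199463) (l 135459193607))))) (b (l 3) (l 3))) (a (b (a (l 16758840) (b (l 16753816) (l 16757616))) (l 16760288)) (b (a (b (a (b (l 140827906439) (l 109152517911)) (l 136532938263)) (a (l 16756264) (c (l 112373751783) (l 113447488135)))) (a (c (l 135996069687) (l 137069805879)) (l 3))) (a (l 16757584) (a (c (l 103783815223) (l 105394422311)) (b (c (l 141901650791) (l 141364774551)) (l 16755944))))))) (b (l 3) (a (b (l 3) (a (b (a (l 135459195911) (l 3)) (a (b (l 142438519047) (l 104857550695)) (l 138143550855))) (l 3))) (l 3)))) (a (b (a (l 16763792) (l 16760192)) (l 16766624)) (b (a (b (a (a (l 16756808) (b (c (l 108615652151) (l 110763130439)) (l 16756504))) (b (c (l 139754165847)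 (l 138680418919)) (a (l 16755624) (b (l 141901647575) (l 110226259783))))) (a (l 16758688) (l 16756920))) (b (a (c (l 137606680535) (l 136532933543)) (l 3)) (a (a (b (c (l 113447492535) (l 115594971479)) (l 16756176)) (b (l 141364776199) (l 107541906007))) (b (l 3) (c (l 140827907287) (l 139754160887)))))) (a (l 16761264) (b (a (l 16757472) (b (a (l 16755584) (b (l 142975389287) (l 16755008))) (l 16756296))) (l 16758888)))))) (b (l 3) (a (b (l 3) (a (b (a (b (l 140827904151) (a (l 111836873351) (l 141364776087))) (l 3)) (c (a (l 16757224) (b (l 128479875927) (l 112373748295))) (a (l 16755280) (b (l 130090484679) (l 115594972199))))) (b (l 3) (a (b (l 3) (l 136532936759)) (l 3))))) (l 3))))) (l 3)), by decide +kernel⟩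

def k9_pm_102_a : ∃ t, chk3 f_pm_102_a t 14 7 1 = true :=
  ⟨(b (b (a (l 16815328) (a (l 16793696) (l 16782288))) (a (l 16835784) (a (l 16812656) (l 16797320)))) (a (b (l 16860552) (l 16889528)) (b (a (l 16836000) (l 16818528)) (b (l 16848752) (l 16864584))))), by decide +kernel⟩

def k10_pm_102_a : ∃ t, chk3 f_pm_102_a t 30 14 1 = true :=
  ⟨(a (b (a (l 16795784) (b (l 16764640) (l 16770704))) (l 16813880)) (b (a (b (a (b (l 16757936) (l 16760832)) (b (a (b (a (l 107541906695) (l 124721777943)) (l 16756080)) (b (l 141364774279) (a (l 118816198967) (l 134922324935)))) (a (l 16758240) (b (l 109689397559) (l 16757256))))) (b (l 16762024) (l 16765352))) (b (a (b (l 3) (a (b (l 133311712615) (a (l 16755984) (l 122037425175))) (b (l 3) (l 140291034215)))) (l 3)) (a (b (a (l 16757744) (b (a (l 116131846279) (l 133311714023)) (c (l 107005044999) (l 109152526007)))) (l 16760200)) (b (a (b (l 3) (a (l 127943006071) (l 3))) (l 3)) (a (b (a (l 16757224) (l 119353073079)) (l 16758536))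 (b (l 139754165735) (a (l 113447494775) (l 132237975239)))))))) (a (b (l 16770656) (l 16777768)) (b (a (l 16765464) (b (a (l 16761152) (b (c (l 104857564103) (l 107541916247)) (l 16760344))) (l 16763824))) (a (l 16772608) (l 16769176)))))), by decide +kernel⟩

def k11_pm_102_a : ∃ t, chk3 f_pm_102_a t 31 14 1 = true :=
  ⟨(a (b (l 3) (a (b (a (b (a (b (a (b (l 135459201607) (l 119889946727)) (l 142975393847)) (a (l 16759088) (b (l 127406139639) (l 109152530391)))) (b (l 3) (a (l 137606686391) (l 3)))) (a (b (l 16760416) (l 16762176)) (b (a (b (l 116668723159) (l 16759608)) (b (l 141901654615) (l 126332399719))) (c (l 104320696807) (l 107541920039))))) (b (l 3) (a (b (l 3) (a (b (l 133848592663) (l 116131854167)) (l 141901655799))) (l 3)))) (a (b (a (l 16764832) (l 16763160)) (l 16767568)) (b (a (b (a (l 16761024) (b (l 125795530743) (l 108078792823))) (l 16762376)) (b (a (b (l 3) (l 133311723703)) (l 3)) (a (b (l 115594985239) (l 16761576)) (b (l 140827916679) (a (l 114521243111)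 (l 133848596039)))))) (a (l 16765056) (a (l 16763808) (a (l 16763184) (b (l 108615667367) (l 16763664)))))))) (b (l 3) (a (b (l 3) (a (b (a (b (a (l 127943016903) (l 144049143591)) (a (l 16761912) (l 119889954151))) (b (l 3) (l 140291047767))) (a (l 16763048) (b (a (l 114521245847) (l 6)) (l 6)))) (b (l 3) (l 6)))) (l 3))))) (l 3)), by decide +kernel⟩

def k12_pm_102_a : ∃ t, chk3 f_pm_102_a t 15 15 1 = true :=
  ⟨(a (b (a (a (l 16826784) (l 16818720)) (a (c (l 16832184) (l 16821032)) (b (l 16778112) (l 16786736)))) (a (b (l 16821640) (l 16837816)) (b (a (l 16807272) (l 6)) (l 6)))) (b (a (a (b (a (l 16773032) (b (l 16767824) (l 6))) (l 6)) (l 6)) (l 6)) (l 6))), by decide +kernel⟩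

theorem s13_pm_102_a : ∃ t, chk3 f_pm_102_a t 15 14 1 = true := ex3_a k10_pm_102_a k11_pm_102_a

theorem s14_pm_102_a : ∃ t, chk3 f_pm_102_a t 15 7 1 = true := ex3_b s13_pm_102_a k12_pm_102_a

theorem s15_pm_102_a : ∃ t, chk3 f_pm_102_a t 7 7 1 = true := ex3_a k9_pm_102_a s14_pm_102_a

theorem s16_pm_102_a : ∃ t, chk3 f_pm_102_a t 7 6 1 = true := ex3_a k7_pm_102_a k8_pm_102_a

theorem s17_pm_102_a : ∃ t, chk3 f_pm_102_a t 7 3 1 = true := ex3_b s16_pm_102_a s15_pm_102_a

theorem s18_pm_102_a : ∃ t, chk3 f_pm_102_a t 3 3 1 = true := ex3_a k6_pm_102_a s17_pm_102_a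

theorem s19_pm_102_a : ∃ t, chk3 f_pm_102_a t 13 4 1 = true := ex3_a k2_pm_102_a k3_pm_102_a

theorem s20_pm_102_a : ∃ t, chk3 f_pm_102_a t 13 2 1 = true := ex3_b s19_pm_102_a k4_pm_102_a

theorem s21_pm_102_a : ∃ t, chk3 f_pm_102_a t 6 2 1 = true := ex3_a k1_pm_102_a s20_pm_102_a

theorem s22_pm_102_a : ∃ t, chk3 f_pm_102_a t 3 2 1 = true := ex3_a s21_pm_102_a k5_pm_102_a

theorem s23_pm_102_a : ∃ t, chk3 f_pm_102_a t 3 1 1 = true := ex3_b s22_pm_102_a s18_pm_102_a

theorem s24_pm_102_a : ∃ t, chk3 f_pm_102_a t 1 1 1 = true := ex3_a k0_pm_102_a s23_pm_102_a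

theorem c_pm_102_a : CertF 536870912 536870912 0 536870912 402653184 67108864 false true false .npp 1 0 2
    ndF0q1 ndF1q2a pcF0 cut_pm_102_a Ext.none :=
  certF0 (fam := false) (s1 := true) (s2 := false) (a := 1) (b := 0) (c := 2) (cn := .npp) (n1 := ndF0q1) (n2 := ndF1q2a) (pc := pcF0) (cut := cut_pm_102_a) (xt := Ext.none) (P1 := 536870912) (W1 := 536870912) (P2 := 0) (W2 := 536870912) (P3 := 402653184) (W3 := 67108864)
    rfl s24_pm_102_a

noncomputable def cut_pm_102_b : Cut := Cut.of [[⟨0, 1, 0, 67108864⟩, ⟨1, 0, 0, 67108864⟩, ⟨2, 1, 0, 67108864⟩]]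

noncomputable def f_pm_102_b : ℕ → ℕ → ℕ → ℕ → Bool := onCell 536870912 536870912 0 536870912 402653184 67108864
    (rowF 1 false true false .npp 1 0 2 (qsf 536870912 536870912 1239849684 370763052 0) ndF0q1 ndF1q2b pcF0 cut_pm_102_b Ext.none)

def k0_pm_102_b : ∃ t, chk3 f_pm_102_b t 1 1 1 = true :=
  ⟨(b (a (l 1) (a (l 1) (l 3))) (a (b (l 1) (a (l 1) (b (a (l 1) (a (l 256121133463) (b (l 168074421991) (l 16795752)))) (a (a (l 287259730231) (l 195454983735)) (b (l 16901504) (l 16797008)))))) (b (a (b (a (l 1) (l 3)) (a (b (a (l 1) (b (l 1) (a (l 1) (a (l 1) (b (l 1) (a (l 1) (c (l 16779640) (l 16776024)))))))) (a (l 143915218743) (a (b (l 16797368) (l 16794720)) (b (a (l 16786448) (b (a (l 16783120) (l 16781720)) (l 16786232))) (l 16793360))))) (a (a (b (a (b (l 1) (b (l 3) (a (a (b (l 1) (c (l 110763185607) (l 109152563975))) (l 3)) (l 3)))) (l 3)) (a (a (b (b (c (l 91435838903) (l 88751472711)) (l 16784112)) (l 16790720)) (b (l 203641854679) (l 127943052647))) (b (l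 3) (a (l 136533005943) (l 3))))) (l 3)) (l 3)))) (l 3)) (a (a (b (b (a (a (l 16787152) (l 16801496)) (a (l 16807304) (l 16807488))) (a (l 16816576) (l 16829944))) (a (l 16850584) (b (l 16856840) (l 16888672)))) (b (a (c (a (b (b (a (l 16807288) (l 138680525175)) (l 141901758183)) (b (l 16836584) (l 16853720))) (b (a (l 155323532599) (l 3)) (b (l 135996232743) (l 133848788039)))) (a (b (a (b (l 16793600) (l 16803688)) (b (l 141364849991) (l 145122947287))) (a (l 16821504) (b (l 16814712) (l 16828640)))) (b (a (b (l 3) (l 142438609799)) (l 3)) (a (b (a (l 142975508487) (l 168208440039)) (l 138680570711)) (b (l 3) (l 202031337287)))))) (l 3)) (a (b (a (l 16866168) (b (a (l 16860728) (l 134922541223)) (l 138143735031))) (a (l 16904952) (l 16915672))) (a (b (l 237464909159) (b (l 135996380551) (l 132775211143))) (l 3))))) (l 3))))), by decide +kernel⟩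

theorem c_pm_102_b : CertF 536870912 536870912 1239849684 370763052 402653184 67108864 false true false .npp 1 0 2
    ndF0q1 ndF1q2b pcF0 cut_pm_102_b Ext.none :=
  certF1 (fam := false) (s1 := true) (s2 := false) (a := 1) (b := 0) (c := 2) (cn := .npp) (n1 := ndF0q1) (n2 := ndF1q2b) (pc := pcF0) (cut := cut_pm_102_b) (xt := Ext.none) (P1 := 536870912) (W1 := 536870912) (P2 := 1239849684) (W2 := 370763052) (P3 := 402653184) (W3 := 67108864)
    rfl (fun _ => rfl) k0_pm_102_b

noncomputable def f_pm_112_a : ℕ → ℕ → ℕ → ℕ → Bool := onCell 536870912 536870912 0 536870912 402653184 67108864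
    (rowF 2 false true false .dn 1 1 2 (qsf 536870912 536870912 0 536870912 1) ndF0q1 ndF1q2a pcF1 Cut.none Ext.none)

def k0_pm_112_a : ∃ t, chk3 f_pm_112_a t 1 1 1 = true :=
  ⟨(a (a (a (b (b (a (b (l 16816064) (l 16843640)) (b (l 16816920) (l 16843496))) (a (b (l 16956488) (l 16841808)) (a (l 16826560) (l 16820256)))) (b (a (b (l 16856648) (a (l 16905120) (l 16850688))) (b (l 16815448) (a (l 16811648) (l 16793632)))) (a (b (a (l 16961544) (b (l 16860720) (l 16872952))) (b (a (l 17025432) (b (l 16885984) (l 16813160))) (a (a (l 209950781479) (l 212098119991)) (b (l 211023875239) (l 1))))) (b (a (b (l 16803696) (l 16801328)) (l 16778488)) (b (a (l 172905995047) (l 1)) (l 1)))))) (b (b (a (l 16818720) (l 16811072)) (a (l 16806560) (l 16778816))) (b (a (b (l 16784368) (l 16760832)) (b (l 16738448) (l 16700544))) (b (a (b (l 16739624) (l 1)) (l 1)) (l 1))))) (b (a (b (a (l 16791936) (l 16749848)) (a (l 16733416) (l 1))) (l 1)) (b (l 1) (l 1)))) (l 1)), by decide +kernel⟩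

theorem c_pm_112_a : CertF 536870912 536870912 0 536870912 402653184 67108864 false true false .dn 1 1 2
    ndF0q1 ndF1q2a pcF1 Cut.none Ext.none :=
  certF2 (fam := false) (s1 := true) (s2 := false) (a := 1) (b := 1) (c := 2) (cn := .dn) (n1 := ndF0q1) (n2 := ndF1q2a) (pc := pcF1) (cut := Cut.none) (xt := Ext.none) (P1 := 536870912) (W1 := 536870912) (P2 := 0) (W2 := 536870912) (P3 := 402653184) (W3 := 67108864)
    rfl (fun _ => rfl) k0_pm_112_a

noncomputable def f_pm_112_b : ℕ → ℕ → ℕ → ℕ → Bool := onCell 536870912 536870912 536870912 536870912 402653184 67108864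
    (rowF 1 false true false .dn 1 1 2 (qsf 536870912 536870912 1239849684 370763052 1) ndF0q1 ndF1q2b pcF1 Cut.none Ext.none)

def k0_pm_112_b : ∃ t, chk3 f_pm_112_b t 1 1 1 = true :=
  ⟨(a (b (b (b (a (a (l 1) (b (l 245920565959) (l 162705500007))) (b (a (l 102576224055) (l 16869248)) (a (l 16815432) (l 16896480)))) (a (a (a (l 189549404871) (l 16831696)) (l 16884192)) (a (l 16833096) (l 16934200)))) (a (a (b (a (l 16793512) (l 16778728)) (a (l 16728184) (l 16756704))) (b (l 16795688) (l 16815632))) (b (a (l 16869816) (l 16975312)) (a (l 16911672) (l 17006640))))) (b (a (a (b (a (l 16706760) (l 16766464)) (a (l 16725384) (l 16802376))) (b (l 16851464) (l 16897296))) (a (b (l 16953424) (l 16993248)) (b (l 17031136) (l 17050824)))) (a (a (b (a (l 16770488) (l 16857056)) (a (l 16831752) (l 16921832))) (b (l 16949848) (l 17008504))) (a (b (l 17031608) (l 2)) (l 2))))) (b (b (a (b (a (b (l 16973880) (l 17021368)) (a (b (l 16998416) (l 17067168)) (b (a (l 104321032439) (l 249813158087))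 (l 102710467719)))) (a (l 17088976) (b (l 82846298615) (l 17122088)))) (a (b (l 3) (a (b (l 238002145991) (l 127943659239)) (l 3))) (l 3))) (a (a (a (l 17065216) (l 17265384)) (b (a (l 17164608) (l 17133040)) (l 17132288))) (a (b (a (l 369468349927) (l 2)) (l 2)) (l 2)))) (b (a (a (l 17076376) (l 2)) (l 2)) (l 2)))), by decide +kernel⟩

theorem c_pm_112_b : CertF 536870912 536870912 1239849684 370763052 402653184 67108864 false true false .dn 1 1 2
    ndF0q1 ndF1q2b pcF1 Cut.none Ext.none :=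
  certF1 (fam := false) (s1 := true) (s2 := false) (a := 1) (b := 1) (c := 2) (cn := .dn) (n1 := ndF0q1) (n2 := ndF1q2b) (pc := pcF1) (cut := Cut.none) (xt := Ext.none) (P1 := 536870912) (W1 := 536870912) (P2 := 1239849684) (W2 := 370763052) (P3 := 402653184) (W3 := 67108864)
    rfl (fun _ => rfl) k0_pm_112_b

noncomputable def cut_pm_113 : Cut := Cut.of [[⟨0, 1, 0, 67108864⟩, ⟨1, 1, 0, 67108864⟩, ⟨2, 2, 0, 16777216⟩]]

noncomputable def f_pm_113 : ℕ → ℕ → ℕ → ℕ → Bool := onCell 536870912 536870912 536870912 536870912 402653184 67108864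
    (rowF 1 false true false .nn 1 1 3 (qsf 536870912 536870912 1610612736 536870912 1) ndF0q1 ndF1q3 pcF1 cut_pm_113 Ext.none)

def k0_pm_113 : ∃ t, chk3 f_pm_113 t 1 1 1 = true :=
  ⟨(a (b (b (l 1) (a (l 1) (a (l 1) (b (l 1) (l 16974768))))) (b (a (a (l 1) (b (l 1) (l 16863632))) (a (b (l 16927032) (l 16959336)) (b (l 16999120) (l 17021424)))) (a (a (b (l 159484225191) (a (l 16741016) (l 16840728))) (b (l 134251727735) (l 16944280))) (a (b (l 16992744) (l 17028720)) (b (l 17042392) (l 17063440)))))) (b (b (a (b (l 1) (b (l 1) (a (l 1) (l 17121280)))) (a (b (l 3) (b (l 356113932535) (l 172504009239))) (l 3))) (a (b (a (l 17032728) (l 17098880)) (a (l 17040096) (l 17163640))) (a (b (a (l 130091199943) (l 3)) (a (l 17090800) (l 167672266903))) (l 3)))) (b (a (b (a (l 17046608) (l 17063896)) (a (l 17050352) (l 17046344))) (a (b (l 72109104983) (l 17015488)) (a (b (l 158008488503) (l 146734018375)) (l 3)))) (a (b (a (l 17051496) (l 17025824)) (a (l 17052064) (l 17004784)))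 (a (b (l 16975024) (l 16934576)) (a (b (b (l 16940352) (l 16892016)) (l 16873224)) (b (a (a (l 16967192) (l 256792461655)) (l 3)) (b (a (l 16854664) (a (l 316921815815) (l 3))) (a (l 16826592) (b (a (l 16816144) (l 359871344215)) (b (a (l 16805600) (a (l 16796656) (l 387251730855))) (a (l 16798800) (a (l 16789744) (l 6)))))))))))))), by decide +kernel⟩

theorem c_pm_113 : CertF 536870912 536870912 1610612736 536870912 402653184 67108864 false true false .nn 1 1 3
    ndF0q1 ndF1q3 pcF1 cut_pm_113 Ext.none :=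
  certF1 (fam := false) (s1 := true) (s2 := false) (a := 1) (b := 1) (c := 3) (cn := .nn) (n1 := ndF0q1) (n2 := ndF1q3) (pc := pcF1) (cut := cut_pm_113) (xt := Ext.none) (P1 := 536870912) (W1 := 536870912) (P2 := 1610612736) (W2 := 536870912) (P3 := 402653184) (W3 := 67108864)
    rfl (fun _ => rfl) k0_pm_113

noncomputable def cut_pm_123 : Cut := Cut.of [[⟨0, 1, 0, 67108864⟩, ⟨1, 1, 0, 67108864⟩, ⟨2, 2, 0, 16777216⟩]]

noncomputable def f_pm_123 : ℕ → ℕ → ℕ → ℕ → Bool := onCell 536870912 536870912 1073741824 536870912 402653184 67108864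
    (rowF 1 false true false .npn 1 2 3 (qsf 536870912 536870912 1610612736 536870912 2) ndF0q1 ndF1q3 pcF2 cut_pm_123 Ext.none)

def k0_pm_123 : ∃ t, chk3 f_pm_123 t 1 1 1 = true :=
  ⟨(a (b (a (b (a (b (a (b (l 16821344) (l 16882808)) (l 16938584)) (l 16983040)) (b (l 17022584) (l 17052752))) (a (l 17053376) (l 17067480))) (b (a (b (l 17077312) (l 17067048)) (l 17059152)) (a (l 17037488) (l 16966896)))) (a (b (a (l 17072104) (l 17044784)) (a (l 17036376) (b (l 17007872) (l 225587339207)))) (b (a (b (l 16996864) (l 16961424)) (b (l 16900096) (l 16844552))) (a (b (l 16910792) (l 2)) (l 2))))) (b (a (b (a (l 17007480) (b (l 16974328) (l 16887592))) (a (l 16872360) (b (l 16947968) (l 657767913175)))) (b (b (b (a (l 16912440) (a (l 16836944) (b (a (l 16808384) (a (l 16787064) (b (l 6) (l 981500678423)))) (a (l 16784120) (l 974521344855))))) (a (l 16862040) (a (l 16788360) (l 967542041015)))) (a (a (l 16817808) (l 16769320)) (a (l 907412785799) (l 2)))) (a (b (b (l 771047704615)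 (l 2)) (l 2)) (l 2)))) (a (b (a (b (l 16783376) (l 2)) (l 2)) (l 2)) (l 2)))), by decide +kernel⟩

theorem c_pm_123 : CertF 536870912 536870912 1610612736 536870912 402653184 67108864 false true false .npn 1 2 3
    ndF0q1 ndF1q3 pcF2 cut_pm_123 Ext.none :=
  certF1 (fam := false) (s1 := true) (s2 := false) (a := 1) (b := 2) (c := 3) (cn := .npn) (n1 := ndF0q1) (n2 := ndF1q3) (pc := pcF2) (cut := cut_pm_123) (xt := Ext.none) (P1 := 536870912) (W1 := 536870912) (P2 := 1610612736) (W2 := 536870912) (P3 := 402653184) (W3 := 67108864)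
    rfl (fun _ => rfl) k0_pm_123

noncomputable def f_pm_133 : ℕ → ℕ → ℕ → ℕ → Bool := onCell 536870912 536870912 1610612736 536870912 402653184 67108864
    (rowF 0 false true false .dn 1 3 3 (qsf 536870912 536870912 1610612736 536870912 3) ndF0q1 ndF1q3 pcF3 Cut.none Ext.none)

def k0_pm_133 : ∃ t, chk3 f_pm_133 t 1 1 1 = true :=
  ⟨(a (b (l 1) (a (b (l 1) (a (l 17151640) (l 1))) (l 1))) (l 1)), by decide +kernel⟩

theorem c_pm_133 : CertF 536870912 536870912 1610612736 536870912 402653184 67108864 false true false .dn 1 3 3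
    ndF0q1 ndF1q3 pcF3 Cut.none Ext.none :=
  certF0 (fam := false) (s1 := true) (s2 := false) (a := 1) (b := 3) (c := 3) (cn := .dn) (n1 := ndF0q1) (n2 := ndF1q3) (pc := pcF3) (cut := Cut.none) (xt := Ext.none) (P1 := 536870912) (W1 := 536870912) (P2 := 1610612736) (W2 := 536870912) (P3 := 402653184) (W3 := 67108864)
    rfl k0_pm_133

noncomputable def cut_pm_202_a : Cut := Cut.of [[⟨0, 1, 0, 67108864⟩, ⟨1, 0, 0, 67108864⟩, ⟨2, 1, 0, 67108864⟩]]

noncomputable def f_pm_202_a : ℕ → ℕ → ℕ → ℕ → Bool := onCell 0 536870912 0 536870912 402653184 67108864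
    (rowF 0 false true false .pp 2 0 2 (qsf 0 536870912 0 536870912 0) ndF0q2 ndF1q2a pcF0 cut_pm_202_a Ext.none)

def k0_pm_202_a : ∃ t, chk3 f_pm_202_a t 1 1 1 = true :=
  ⟨(a (l 3) (b (l 3) (a (l 3) (b (l 3) (a (l 3) (b (l 3) (l 6))))))), by decide +kernel⟩

theorem c_pm_202_a : CertF 0 536870912 0 536870912 402653184 67108864 false true false .pp 2 0 2
    ndF0q2 ndF1q2a pcF0 cut_pm_202_a Ext.none :=
  certF0 (fam := false) (s1 := true) (s2 := false) (a := 2) (b := 0) (c := 2) (cn := .pp) (n1 := ndF0q2) (n2 := ndF1q2a) (pc := pcF0) (cut := cut_pm_202_a) (xt := Ext.none) (P1 := 0) (W1 := 536870912) (P2 := 0) (W2 := 536870912) (P3 := 402653184) (W3 := 67108864)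
    rfl k0_pm_202_a

noncomputable def cut_pm_202_b : Cut := Cut.of [[⟨0, 1, 0, 67108864⟩, ⟨1, 0, 0, 67108864⟩, ⟨2, 1, 0, 67108864⟩]]

noncomputable def f_pm_202_b : ℕ → ℕ → ℕ → ℕ → Bool := onCell 0 536870912 1239849684 370763052 402653184 67108864
    (rowF 0 false true false .pp 2 0 2 (qsf 0 536870912 1239849684 370763052 0) ndF0q2 ndF1q2b pcF0 cut_pm_202_b Ext.none)

def k0_pm_202_b : ∃ t, chk3 f_pm_202_b t 1 1 1 = true :=
  ⟨(l 3), by decide +kernel⟩

theorem c_pm_202_b : CertF 0 536870912 1239849684 370763052 402653184 67108864 false true false .pp 2 0 2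
    ndF0q2 ndF1q2b pcF0 cut_pm_202_b Ext.none :=
  certF0 (fam := false) (s1 := true) (s2 := false) (a := 2) (b := 0) (c := 2) (cn := .pp) (n1 := ndF0q2) (n2 := ndF1q2b) (pc := pcF0) (cut := cut_pm_202_b) (xt := Ext.none) (P1 := 0) (W1 := 536870912) (P2 := 1239849684) (W2 := 370763052) (P3 := 402653184) (W3 := 67108864)
    rfl k0_pm_202_b

noncomputable def f_pm_203 : ℕ → ℕ → ℕ → ℕ → Bool := onCell 0 536870912 0 536870912 402653184 67108864
    (rowF 1 false true false .up 2 0 3 (qsf 0 536870912 1610612736 536870912 0) ndF0q2 ndF1q3 pcF0 Cut.none Ext.none)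

def k0_pm_203 : ∃ t, chk3 f_pm_203 t 1 1 1 = true :=
  ⟨(l 3), by decide +kernel⟩

theorem c_pm_203 : CertF 0 536870912 1610612736 536870912 402653184 67108864 false true false .up 2 0 3
    ndF0q2 ndF1q3 pcF0 Cut.none Ext.none :=
  certF1 (fam := false) (s1 := true) (s2 := false) (a := 2) (b := 0) (c := 3) (cn := .up) (n1 := ndF0q2) (n2 := ndF1q3) (pc := pcF0) (cut := Cut.none) (xt := Ext.none) (P1 := 0) (W1 := 536870912) (P2 := 1610612736) (W2 := 536870912) (P3 := 402653184) (W3 := 67108864)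
    rfl (fun _ => rfl) k0_pm_203

noncomputable def cut_pm_213 : Cut := Cut.of [[⟨0, 1, 0, 67108864⟩, ⟨1, 1, 0, 67108864⟩, ⟨2, 2, 0, 16777216⟩]]

noncomputable def f_pm_213 : ℕ → ℕ → ℕ → ℕ → Bool := onCell 0 536870912 1610612736 536870912 402653184 67108864
    (rowF 0 false true false .pnn 2 1 3 (qsf 0 536870912 1610612736 536870912 1) ndF0q2 ndF1q3 pcF1 cut_pm_213 Ext.none)

def k0_pm_213 : ∃ t, chk3 f_pm_213 t 1 1 1 = true :=
  ⟨(b (l 3) (a (l 3) (b (l 3) (a (l 3) (a (l 3) (b (l 3) (a (l 3) (a (l 3) (b (l 3) (b (l 3) (b (l 3) (l 6)))))))))))), by decide +kernel⟩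

theorem c_pm_213 : CertF 0 536870912 1610612736 536870912 402653184 67108864 false true false .pnn 2 1 3
    ndF0q2 ndF1q3 pcF1 cut_pm_213 Ext.none :=
  certF0 (fam := false) (s1 := true) (s2 := false) (a := 2) (b := 1) (c := 3) (cn := .pnn) (n1 := ndF0q2) (n2 := ndF1q3) (pc := pcF1) (cut := cut_pm_213) (xt := Ext.none) (P1 := 0) (W1 := 536870912) (P2 := 1610612736) (W2 := 536870912) (P3 := 402653184) (W3 := 67108864)
    rfl k0_pm_213

noncomputable def f_mm_001 : ℕ → ℕ → ℕ → ℕ → Bool := onCell 0 536870912 536870912 536870912 402653184 67108864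
    (rowF 0 false false false .up 0 0 1 (qsf 0 536870912 536870912 536870912 0) ndF0q0 ndF1q1 pcF0 Cut.none Ext.none)

def k0_mm_001 : ∃ t, chk3 f_mm_001 t 1 1 1 = true :=
  ⟨(l 3), by decide +kernel⟩

theorem c_mm_001 : CertF 0 536870912 536870912 536870912 402653184 67108864 false false false .up 0 0 1
    ndF0q0 ndF1q1 pcF0 Cut.none Ext.none :=
  certF0 (fam := false) (s1 := false) (s2 := false) (a := 0) (b := 0) (c := 1) (cn := .up) (n1 := ndF0q0) (n2 := ndF1q1) (pc := pcF0) (cut := Cut.none) (xt := Ext.none) (P1 := 0) (W1 := 536870912) (P2 := 536870912) (W2 := 536870912) (P3 := 402653184) (W3 := 67108864)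
    rfl k0_mm_001

noncomputable def f_mm_011 : ℕ → ℕ → ℕ → ℕ → Bool := onCell 0 536870912 536870912 536870912 402653184 67108864
    (rowF 0 false false false .pnn 0 1 1 (qsf 0 536870912 536870912 536870912 1) ndF0q0 ndF1q1 pcF1 Cut.none Ext.none)

def k0_mm_011 : ∃ t, chk3 f_mm_011 t 1 1 1 = true :=
  ⟨(l 3), by decide +kernel⟩

theorem c_mm_011 : CertF 0 536870912 536870912 536870912 402653184 67108864 false false false .pnn 0 1 1
    ndF0q0 ndF1q1 pcF1 Cut.none Ext.none :=
  certF0 (fam := false) (s1 := false) (s2 := false) (a := 0) (b := 1) (c := 1) (cn := .pnn) (n1 := ndF0q0) (n2 := ndF1q1) (pc := pcF1) (cut := Cut.none) (xt := Ext.none) (P1 := 0) (W1 := 536870912) (P2 := 536870912) (W2 := 536870912) (P3 := 402653184) (W3 := 67108864)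
    rfl k0_mm_011

noncomputable def f_mm_012_a : ℕ → ℕ → ℕ → ℕ → Bool := onCell 0 536870912 0 536870912 402653184 67108864
    (rowF 0 false false false .pnp 0 1 2 (qsf 0 536870912 0 536870912 1) ndF0q0 ndF1q2a pcF1 Cut.none Ext.none)

def k0_mm_012_a : ∃ t, chk3 f_mm_012_a t 1 1 1 = true :=
  ⟨(l 5), by decide +kernel⟩

theorem c_mm_012_a : CertF 0 536870912 0 536870912 402653184 67108864 false false false .pnp 0 1 2
    ndF0q0 ndF1q2a pcF1 Cut.none Ext.none :=
  certF0 (fam := false) (s1 := false) (s2 := false) (a := 0) (b := 1) (c := 2) (cn := .pnp) (n1 := ndF0q0) (n2 := ndF1q2a) (pc := pcF1) (cut := Cut.none) (xt := Ext.none) (P1 := 0) (W1 := 536870912) (P2 := 0) (W2 := 536870912) (P3 := 402653184) (W3 := 67108864)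
    rfl k0_mm_012_a

noncomputable def f_mm_012_b : ℕ → ℕ → ℕ → ℕ → Bool := onCell 0 536870912 1239849684 370763052 402653184 67108864
    (rowF 0 false false false .pnp 0 1 2 (qsf 0 536870912 1239849684 370763052 1) ndF0q0 ndF1q2b pcF1 Cut.none Ext.none)

def k0_mm_012_b : ∃ t, chk3 f_mm_012_b t 1 1 1 = true :=
  ⟨(l 5), by decide +kernel⟩

theorem c_mm_012_b : CertF 0 536870912 1239849684 370763052 402653184 67108864 false false false .pnp 0 1 2
    ndF0q0 ndF1q2b pcF1 Cut.none Ext.none :=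
  certF0 (fam := false) (s1 := false) (s2 := false) (a := 0) (b := 1) (c := 2) (cn := .pnp) (n1 := ndF0q0) (n2 := ndF1q2b) (pc := pcF1) (cut := Cut.none) (xt := Ext.none) (P1 := 0) (W1 := 536870912) (P2 := 1239849684) (W2 := 370763052) (P3 := 402653184) (W3 := 67108864)
    rfl k0_mm_012_b

noncomputable def f_mm_022_a : ℕ → ℕ → ℕ → ℕ → Bool := onCell 0 536870912 0 536870912 402653184 67108864
    (rowF 0 false false false .pp 0 2 2 (qsf 0 536870912 0 536870912 2) ndF0q0 ndF1q2a pcF2 Cut.none Ext.none)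

def k0_mm_022_a : ∃ t, chk3 f_mm_022_a t 1 1 1 = true :=
  ⟨(l 5), by decide +kernel⟩

theorem c_mm_022_a : CertF 0 536870912 0 536870912 402653184 67108864 false false false .pp 0 2 2
    ndF0q0 ndF1q2a pcF2 Cut.none Ext.none :=
  certF0 (fam := false) (s1 := false) (s2 := false) (a := 0) (b := 2) (c := 2) (cn := .pp) (n1 := ndF0q0) (n2 := ndF1q2a) (pc := pcF2) (cut := Cut.none) (xt := Ext.none) (P1 := 0) (W1 := 536870912) (P2 := 0) (W2 := 536870912) (P3 := 402653184) (W3 := 67108864)
    rfl k0_mm_022_a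

noncomputable def f_mm_022_b : ℕ → ℕ → ℕ → ℕ → Bool := onCell 0 536870912 1239849684 370763052 402653184 67108864
    (rowF 0 false false false .pp 0 2 2 (qsf 0 536870912 1239849684 370763052 2) ndF0q0 ndF1q2b pcF2 Cut.none Ext.none)

def k0_mm_022_b : ∃ t, chk3 f_mm_022_b t 1 1 1 = true :=
  ⟨(l 5), by decide +kernel⟩

theorem c_mm_022_b : CertF 0 536870912 1239849684 370763052 402653184 67108864 false false false .pp 0 2 2
    ndF0q0 ndF1q2b pcF2 Cut.none Ext.none :=
  certF0 (fam := false) (s1 := false) (s2 := false) (a := 0) (b := 2) (c := 2) (cn := .pp) (n1 := ndF0q0) (n2 := ndF1q2b) (pc := pcF2) (cut := Cut.none) (xt := Ext.none) (P1 := 0) (W1 := 536870912) (P2 := 1239849684) (W2 := 370763052) (P3 := 402653184) (W3 := 67108864)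
    rfl k0_mm_022_b

noncomputable def f_mm_023 : ℕ → ℕ → ℕ → ℕ → Bool := onCell 0 536870912 1610612736 536870912 402653184 67108864
    (rowF 0 false false false .up 0 2 3 (qsf 0 536870912 1610612736 536870912 2) ndF0q0 ndF1q3 pcF2 Cut.none Ext.none)

def k0_mm_023 : ∃ t, chk3 f_mm_023 t 1 1 1 = true :=
  ⟨(l 5), by decide +kernel⟩

theorem c_mm_023 : CertF 0 536870912 1610612736 536870912 402653184 67108864 false false false .up 0 2 3
    ndF0q0 ndF1q3 pcF2 Cut.none Ext.none :=
  certF0 (fam := false) (s1 := false) (s2 := false) (a := 0) (b := 2) (c := 3) (cn := .up) (n1 := ndF0q0) (n2 := ndF1q3) (pc := pcF2) (cut := Cut.none) (xt := Ext.none) (P1 := 0) (W1 := 536870912) (P2 := 1610612736) (W2 := 536870912) (P3 := 402653184) (W3 := 67108864)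
    rfl k0_mm_023

noncomputable def f_mm_033 : ℕ → ℕ → ℕ → ℕ → Bool := onCell 0 536870912 1610612736 536870912 402653184 67108864
    (rowF 0 false false false .pnn 0 3 3 (qsf 0 536870912 1610612736 536870912 3) ndF0q0 ndF1q3 pcF3 Cut.none Ext.none)

def k0_mm_033 : ∃ t, chk3 f_mm_033 t 1 1 1 = true :=
  ⟨(l 5), by decide +kernel⟩

theorem c_mm_033 : CertF 0 536870912 1610612736 536870912 402653184 67108864 false false false .pnn 0 3 3
    ndF0q0 ndF1q3 pcF3 Cut.none Ext.none :=
  certF0 (fam := false) (s1 := false) (s2 := false) (a := 0) (b := 3) (c := 3) (cn := .pnn) (n1 := ndF0q0) (n2 := ndF1q3) (pc := pcF3) (cut := Cut.none) (xt := Ext.none) (P1 := 0) (W1 := 536870912) (P2 := 1610612736) (W2 := 536870912) (P3 := 402653184) (W3 := 67108864)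
    rfl k0_mm_033

noncomputable def f_mm_101 : ℕ → ℕ → ℕ → ℕ → Bool := onCell 536870912 536870912 536870912 536870912 402653184 67108864
    (rowF 0 false false false .npn 1 0 1 (qsf 536870912 536870912 536870912 536870912 0) ndF0q1 ndF1q1 pcF0 Cut.none Ext.none)

def k0_mm_101 : ∃ t, chk3 f_mm_101 t 1 1 1 = true :=
  ⟨(l 3), by decide +kernel⟩

theorem c_mm_101 : CertF 536870912 536870912 536870912 536870912 402653184 67108864 false false false .npn 1 0 1
    ndF0q1 ndF1q1 pcF0 Cut.none Ext.none :=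
  certF0 (fam := false) (s1 := false) (s2 := false) (a := 1) (b := 0) (c := 1) (cn := .npn) (n1 := ndF0q1) (n2 := ndF1q1) (pc := pcF0) (cut := Cut.none) (xt := Ext.none) (P1 := 536870912) (W1 := 536870912) (P2 := 536870912) (W2 := 536870912) (P3 := 402653184) (W3 := 67108864)
    rfl k0_mm_101

noncomputable def f_mm_102_a : ℕ → ℕ → ℕ → ℕ → Bool := onCell 536870912 536870912 0 536870912 402653184 67108864
    (rowF 0 false false false .npp 1 0 2 (qsf 536870912 536870912 0 536870912 0) ndF0q1 ndF1q2a pcF0 Cut.none Ext.none)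

def k0_mm_102_a : ∃ t, chk3 f_mm_102_a t 1 1 1 = true :=
  ⟨(l 3), by decide +kernel⟩

theorem c_mm_102_a : CertF 536870912 536870912 0 536870912 402653184 67108864 false false false .npp 1 0 2
    ndF0q1 ndF1q2a pcF0 Cut.none Ext.none :=
  certF0 (fam := false) (s1 := false) (s2 := false) (a := 1) (b := 0) (c := 2) (cn := .npp) (n1 := ndF0q1) (n2 := ndF1q2a) (pc := pcF0) (cut := Cut.none) (xt := Ext.none) (P1 := 536870912) (W1 := 536870912) (P2 := 0) (W2 := 536870912) (P3 := 402653184) (W3 := 67108864)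
    rfl k0_mm_102_a

noncomputable def f_mm_102_b : ℕ → ℕ → ℕ → ℕ → Bool := onCell 536870912 536870912 1239849684 370763052 402653184 67108864
    (rowF 0 false false false .npp 1 0 2 (qsf 536870912 536870912 1239849684 370763052 0) ndF0q1 ndF1q2b pcF0 Cut.none Ext.none)

def k0_mm_102_b : ∃ t, chk3 f_mm_102_b t 1 1 1 = true :=
  ⟨(l 5), by decide +kernel⟩

theorem c_mm_102_b : CertF 536870912 536870912 1239849684 370763052 402653184 67108864 false false false .npp 1 0 2
    ndF0q1 ndF1q2b pcF0 Cut.none Ext.none :=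
  certF0 (fam := false) (s1 := false) (s2 := false) (a := 1) (b := 0) (c := 2) (cn := .npp) (n1 := ndF0q1) (n2 := ndF1q2b) (pc := pcF0) (cut := Cut.none) (xt := Ext.none) (P1 := 536870912) (W1 := 536870912) (P2 := 1239849684) (W2 := 370763052) (P3 := 402653184) (W3 := 67108864)
    rfl k0_mm_102_b

noncomputable def f_mm_112_a : ℕ → ℕ → ℕ → ℕ → Bool := onCell 536870912 536870912 0 536870912 402653184 67108864
    (rowF 0 false false false .dn 1 1 2 (qsf 536870912 536870912 0 536870912 1) ndF0q1 ndF1q2a pcF1 Cut.none Ext.none)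

def k0_mm_112_a : ∃ t, chk3 f_mm_112_a t 1 1 1 = true :=
  ⟨(l 3), by decide +kernel⟩

theorem c_mm_112_a : CertF 536870912 536870912 0 536870912 402653184 67108864 false false false .dn 1 1 2
    ndF0q1 ndF1q2a pcF1 Cut.none Ext.none :=
  certF0 (fam := false) (s1 := false) (s2 := false) (a := 1) (b := 1) (c := 2) (cn := .dn) (n1 := ndF0q1) (n2 := ndF1q2a) (pc := pcF1) (cut := Cut.none) (xt := Ext.none) (P1 := 536870912) (W1 := 536870912) (P2 := 0) (W2 := 536870912) (P3 := 402653184) (W3 := 67108864)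
    rfl k0_mm_112_a

noncomputable def f_mm_112_b : ℕ → ℕ → ℕ → ℕ → Bool := onCell 536870912 536870912 1239849684 370763052 402653184 67108864
    (rowF 0 false false false .dn 1 1 2 (qsf 536870912 536870912 1239849684 370763052 1) ndF0q1 ndF1q2b pcF1 Cut.none Ext.none)

def k0_mm_112_b : ∃ t, chk3 f_mm_112_b t 1 1 1 = true :=
  ⟨(l 5), by decide +kernel⟩

theorem c_mm_112_b : CertF 536870912 536870912 1239849684 370763052 402653184 67108864 false false false .dn 1 1 2
    ndF0q1 ndF1q2b pcF1 Cut.none Ext.none :=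
  certF0 (fam := false) (s1 := false) (s2 := false) (a := 1) (b := 1) (c := 2) (cn := .dn) (n1 := ndF0q1) (n2 := ndF1q2b) (pc := pcF1) (cut := Cut.none) (xt := Ext.none) (P1 := 536870912) (W1 := 536870912) (P2 := 1239849684) (W2 := 370763052) (P3 := 402653184) (W3 := 67108864)
    rfl k0_mm_112_b

noncomputable def f_mm_113 : ℕ → ℕ → ℕ → ℕ → Bool := onCell 536870912 536870912 1610612736 536870912 402653184 67108864
    (rowF 0 false false false .nn 1 1 3 (qsf 536870912 536870912 1610612736 536870912 1) ndF0q1 ndF1q3 pcF1 Cut.none Ext.none)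

def k0_mm_113 : ∃ t, chk3 f_mm_113 t 1 1 1 = true :=
  ⟨(l 5), by decide +kernel⟩

theorem c_mm_113 : CertF 536870912 536870912 1610612736 536870912 402653184 67108864 false false false .nn 1 1 3
    ndF0q1 ndF1q3 pcF1 Cut.none Ext.none :=
  certF0 (fam := false) (s1 := false) (s2 := false) (a := 1) (b := 1) (c := 3) (cn := .nn) (n1 := ndF0q1) (n2 := ndF1q3) (pc := pcF1) (cut := Cut.none) (xt := Ext.none) (P1 := 536870912) (W1 := 536870912) (P2 := 1610612736) (W2 := 536870912) (P3 := 402653184) (W3 := 67108864)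
    rfl k0_mm_113

noncomputable def f_mm_123 : ℕ → ℕ → ℕ → ℕ → Bool := onCell 536870912 536870912 1610612736 536870912 402653184 67108864
    (rowF 0 false false false .npn 1 2 3 (qsf 536870912 536870912 1610612736 536870912 2) ndF0q1 ndF1q3 pcF2 Cut.none Ext.none)

def k0_mm_123 : ∃ t, chk3 f_mm_123 t 1 1 1 = true :=
  ⟨(l 5), by decide +kernel⟩

theorem c_mm_123 : CertF 536870912 536870912 1610612736 536870912 402653184 67108864 false false false .npn 1 2 3
    ndF0q1 ndF1q3 pcF2 Cut.none Ext.none :=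
  certF0 (fam := false) (s1 := false) (s2 := false) (a := 1) (b := 2) (c := 3) (cn := .npn) (n1 := ndF0q1) (n2 := ndF1q3) (pc := pcF2) (cut := Cut.none) (xt := Ext.none) (P1 := 536870912) (W1 := 536870912) (P2 := 1610612736) (W2 := 536870912) (P3 := 402653184) (W3 := 67108864)
    rfl k0_mm_123

noncomputable def f_mm_133 : ℕ → ℕ → ℕ → ℕ → Bool := onCell 536870912 536870912 1610612736 536870912 402653184 67108864
    (rowF 0 false false false .dn 1 3 3 (qsf 536870912 536870912 1610612736 536870912 3) ndF0q1 ndF1q3 pcF3 Cut.none Ext.none)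

def k0_mm_133 : ∃ t, chk3 f_mm_133 t 1 1 1 = true :=
  ⟨(l 5), by decide +kernel⟩

theorem c_mm_133 : CertF 536870912 536870912 1610612736 536870912 402653184 67108864 false false false .dn 1 3 3
    ndF0q1 ndF1q3 pcF3 Cut.none Ext.none :=
  certF0 (fam := false) (s1 := false) (s2 := false) (a := 1) (b := 3) (c := 3) (cn := .dn) (n1 := ndF0q1) (n2 := ndF1q3) (pc := pcF3) (cut := Cut.none) (xt := Ext.none) (P1 := 536870912) (W1 := 536870912) (P2 := 1610612736) (W2 := 536870912) (P3 := 402653184) (W3 := 67108864)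
    rfl k0_mm_133

noncomputable def f_mm_202_a : ℕ → ℕ → ℕ → ℕ → Bool := onCell 0 536870912 0 536870912 402653184 67108864
    (rowF 0 false false false .pp 2 0 2 (qsf 0 536870912 0 536870912 0) ndF0q2 ndF1q2a pcF0 Cut.none Ext.none)

def k0_mm_202_a : ∃ t, chk3 f_mm_202_a t 1 1 1 = true :=
  ⟨(l 3), by decide +kernel⟩

theorem c_mm_202_a : CertF 0 536870912 0 536870912 402653184 67108864 false false false .pp 2 0 2
    ndF0q2 ndF1q2a pcF0 Cut.none Ext.none :=
  certF0 (fam := false) (s1 := false) (s2 := false) (a := 2) (b := 0) (c := 2) (cn := .pp) (n1 := ndF0q2) (n2 := ndF1q2a) (pc := pcF0) (cut := Cut.none) (xt := Ext.none) (P1 := 0) (W1 := 536870912) (P2 := 0) (W2 := 536870912) (P3 := 402653184) (W3 := 67108864)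
    rfl k0_mm_202_a

noncomputable def f_mm_202_b : ℕ → ℕ → ℕ → ℕ → Bool := onCell 0 536870912 1239849684 370763052 402653184 67108864
    (rowF 0 false false false .pp 2 0 2 (qsf 0 536870912 1239849684 370763052 0) ndF0q2 ndF1q2b pcF0 Cut.none Ext.none)

def k0_mm_202_b : ∃ t, chk3 f_mm_202_b t 1 1 1 = true :=
  ⟨(l 3), by decide +kernel⟩

theorem c_mm_202_b : CertF 0 536870912 1239849684 370763052 402653184 67108864 false false false .pp 2 0 2
    ndF0q2 ndF1q2b pcF0 Cut.none Ext.none :=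
  certF0 (fam := false) (s1 := false) (s2 := false) (a := 2) (b := 0) (c := 2) (cn := .pp) (n1 := ndF0q2) (n2 := ndF1q2b) (pc := pcF0) (cut := Cut.none) (xt := Ext.none) (P1 := 0) (W1 := 536870912) (P2 := 1239849684) (W2 := 370763052) (P3 := 402653184) (W3 := 67108864)
    rfl k0_mm_202_b

noncomputable def f_mm_203 : ℕ → ℕ → ℕ → ℕ → Bool := onCell 0 536870912 0 536870912 402653184 67108864
    (rowF 1 false false false .up 2 0 3 (qsf 0 536870912 1610612736 536870912 0) ndF0q2 ndF1q3 pcF0 Cut.none Ext.none)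

def k0_mm_203 : ∃ t, chk3 f_mm_203 t 1 1 1 = true :=
  ⟨(l 3), by decide +kernel⟩

theorem c_mm_203 : CertF 0 536870912 1610612736 536870912 402653184 67108864 false false false .up 2 0 3
    ndF0q2 ndF1q3 pcF0 Cut.none Ext.none :=
  certF1 (fam := false) (s1 := false) (s2 := false) (a := 2) (b := 0) (c := 3) (cn := .up) (n1 := ndF0q2) (n2 := ndF1q3) (pc := pcF0) (cut := Cut.none) (xt := Ext.none) (P1 := 0) (W1 := 536870912) (P2 := 1610612736) (W2 := 536870912) (P3 := 402653184) (W3 := 67108864)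
    rfl (fun _ => rfl) k0_mm_203

noncomputable def f_mm_213 : ℕ → ℕ → ℕ → ℕ → Bool := onCell 0 536870912 1610612736 536870912 402653184 67108864
    (rowF 0 false false false .pnn 2 1 3 (qsf 0 536870912 1610612736 536870912 1) ndF0q2 ndF1q3 pcF1 Cut.none Ext.none)

def k0_mm_213 : ∃ t, chk3 f_mm_213 t 1 1 1 = true :=
  ⟨(a (l 3) (l 5)), by decide +kernel⟩

theorem c_mm_213 : CertF 0 536870912 1610612736 536870912 402653184 67108864 false false false .pnn 2 1 3
    ndF0q2 ndF1q3 pcF1 Cut.none Ext.none :=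
  certF0 (fam := false) (s1 := false) (s2 := false) (a := 2) (b := 1) (c := 3) (cn := .pnn) (n1 := ndF0q2) (n2 := ndF1q3) (pc := pcF1) (cut := Cut.none) (xt := Ext.none) (P1 := 0) (W1 := 536870912) (P2 := 1610612736) (W2 := 536870912) (P3 := 402653184) (W3 := 67108864)
    rfl k0_mm_213

end Pool.Agent.Strip051.G.I3_8_7_16.Tab.C.FB01

namespace Pool.Agent.Strip051.G.I3_8_7_16.Tab.C.FB02

open Pool.Agent.Strip051.PB Pool.Agent.Strip051.PB.T
open Pool.Agent.Strip051.G.I3_8_7_16.Tab

noncomputable def f_pp_001 : ℕ → ℕ → ℕ → ℕ → Bool := onCell 0 536870912 0 536870912 402653184 67108864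
    (rowF 1 false true true .up 0 0 1 (qsf 0 536870912 536870912 536870912 0) ndF0q0 ndF2q1 pcF0 Cut.none Ext.none)

def k0_pp_001 : ∃ t, chk3 f_pp_001 t 1 1 1 = true :=
  ⟨(l 3), by decide +kernel⟩

theorem c_pp_001 : CertF 0 536870912 536870912 536870912 402653184 67108864 false true true .up 0 0 1
    ndF0q0 ndF2q1 pcF0 Cut.none Ext.none :=
  certF1 (fam := false) (s1 := true) (s2 := true) (a := 0) (b := 0) (c := 1) (cn := .up) (n1 := ndF0q0) (n2 := ndF2q1) (pc := pcF0) (cut := Cut.none) (xt := Ext.none) (P1 := 0) (W1 := 536870912) (P2 := 536870912) (W2 := 536870912) (P3 := 402653184) (W3 := 67108864)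
    rfl (fun _ => rfl) k0_pp_001

noncomputable def cut_pp_011 : Cut := Cut.of [[⟨0, 0, 0, 67108864⟩, ⟨1, 1, 0, 67108864⟩, ⟨2, 1, 0, 67108864⟩]]

noncomputable def f_pp_011 : ℕ → ℕ → ℕ → ℕ → Bool := onCell 0 536870912 536870912 536870912 402653184 67108864
    (rowF 1 false true true .pnn 0 1 1 (qsf 0 536870912 536870912 536870912 1) ndF0q0 ndF2q1 pcF1 cut_pp_011 Ext.none)

def k0_pp_011 : ∃ t, chk3 f_pp_011 t 1 1 1 = true :=
  ⟨(b (l 3) (a (b (l 3) (a (b (l 3) (a (b (l 3) (a (l 6) (l 3))) (l 3))) (l 3))) (l 3))), by decide +kernel⟩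

theorem c_pp_011 : CertF 0 536870912 536870912 536870912 402653184 67108864 false true true .pnn 0 1 1
    ndF0q0 ndF2q1 pcF1 cut_pp_011 Ext.none :=
  certF1 (fam := false) (s1 := true) (s2 := true) (a := 0) (b := 1) (c := 1) (cn := .pnn) (n1 := ndF0q0) (n2 := ndF2q1) (pc := pcF1) (cut := cut_pp_011) (xt := Ext.none) (P1 := 0) (W1 := 536870912) (P2 := 536870912) (W2 := 536870912) (P3 := 402653184) (W3 := 67108864)
    rfl (fun _ => rfl) k0_pp_011

noncomputable def f_pp_012 : ℕ → ℕ → ℕ → ℕ → Bool := onCell 0 536870912 536870912 536870912 402653184 67108864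
    (rowF 1 false true true .pnp 0 1 2 (qsf 0 536870912 1073741824 536870912 1) ndF0q0 ndF2q2 pcF1 Cut.none Ext.none)

def k0_pp_012 : ∃ t, chk3 f_pp_012 t 1 1 1 = true :=
  ⟨(a (l 3) (l 3)), by decide +kernel⟩

theorem c_pp_012 : CertF 0 536870912 1073741824 536870912 402653184 67108864 false true true .pnp 0 1 2
    ndF0q0 ndF2q2 pcF1 Cut.none Ext.none :=
  certF1 (fam := false) (s1 := true) (s2 := true) (a := 0) (b := 1) (c := 2) (cn := .pnp) (n1 := ndF0q0) (n2 := ndF2q2) (pc := pcF1) (cut := Cut.none) (xt := Ext.none) (P1 := 0) (W1 := 536870912) (P2 := 1073741824) (W2 := 536870912) (P3 := 402653184) (W3 := 67108864)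
    rfl (fun _ => rfl) k0_pp_012

noncomputable def f_pp_022 : ℕ → ℕ → ℕ → ℕ → Bool := onCell 0 536870912 1073741824 536870912 402653184 67108864
    (rowF 1 false true true .pp 0 2 2 (qsf 0 536870912 1073741824 536870912 2) ndF0q0 ndF2q2 pcF2 Cut.none Ext.none)

def k0_pp_022 : ∃ t, chk3 f_pp_022 t 4 2 1 = true :=
  ⟨(b (b (l 3) (b (a (b (b (l 3) (b (l 3) (a (a (a (l 46338432023) (l 16652360)) (l 16644632)) (l 12515560743)))) (a (a (b (a (c (l 16652248) (l 16644120)) (l 16643392)) (a (l 16636392) (l 16631600))) (b (l 16635896) (l 16624272))) (a (l 16640960) (l 16609600)))) (b (a (b (l 3) (l 16609824)) (l 16655784)) (a (l 16656536) (l 16571496)))) (a (b (a (a (a (b (l 16624392) (l 16612392)) (b (l 16619696) (l 16607792))) (b (l 16612512) (l 16600752))) (a (l 16596888) (l 16586856))) (a (a (b (a (l 16600456) (l 16595944)) (a (l 16588872) (l 16584536))) (b (l 16589016) (l 16577968))) (a (l 16595424) (l 16564976)))) (b (a (l 16571352) (l 16549768)) (a (l 16571464) (l 16530464))))))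 (b (a (b (b (a (a (a (l 16597520) (l 16572776)) (l 16567008)) (l 16576040)) (a (a (b (l 16565920) (b (l 16563640) (b (l 16564200) (a (l 16566464) (l 16563736))))) (b (l 16559144) (b (l 16557400) (l 16558656)))) (b (l 16548512) (b (l 16547560) (l 16549504))))) (a (a (a (c (b (l 16566456) (l 16550520)) (l 16551048)) (l 16568320)) (l 16564664)) (a (l 16538536) (l 16533088)))) (b (b (a (l 16538336) (l 16520800)) (a (b (l 16533480) (l 16535824)) (l 16626464))) (a (l 16524440) (l 16511960)))) (a (a (b (a (a (c (b (l 16535656) (l 16521888)) (l 16508944)) (l 16538360)) (l 16535672)) (a (a (b (l 16499040) (l 16487168)) (l 16491936)) (l 16490224))) (b (l 16550752) (l 16486232))) (a (b (l 16499856) (a (l 16481448) (l 16476776))) (b (l 16592864) (a (l 16475176) (l 16476456))))))), by decide +kernel⟩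

def k1_pp_022 : ∃ t, chk3 f_pp_022 t 5 2 1 = true :=
  ⟨(b (b (l 3) (a (b (b (a (l 16610872) (l 16512264)) (a (l 16548512) (l 16524144))) (b (a (l 16527248) (l 16503584)) (a (l 16509984) (l 16488680)))) (b (b (a (l 16516048) (l 16484544)) (a (l 16497208) (l 16507072))) (b (a (l 16477264) (l 16511224)) (a (l 16463736) (l 16460112)))))) (b (a (b (b (l 16534944) (a (l 16547648) (l 16592208))) (a (l 16538672) (l 16508664))) (b (b (a (l 16462032) (l 16452792)) (a (l 16580136) (l 16516280))) (a (l 16488992) (l 16494992)))) (a (a (b (l 16524736) (l 16486424)) (b (l 16488768) (l 16502584))) (a (b (l 16500088) (l 16520720)) (b (l 16512864) (a (l 16541584) (l 16578088))))))), by decide +kernel⟩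

def k2_pp_022 : ∃ t, chk3 f_pp_022 t 2 6 1 = true :=
  ⟨(a (b (a (a (a (b (c (l 16482616) (l 16459680)) (c (l 16467640) (l 16443024))) (b (l 16470568) (b (l 16459176) (l 16452696)))) (b (a (l 16469232) (l 16466392)) (a (b (l 16458216) (l 16456024)) (l 16462576)))) (a (b (a (l 16466704) (l 16469944)) (a (l 16472632) (l 16483736))) (b (l 16483016) (l 16504032)))) (a (a (b (a (b (a (l 16447144) (l 16447536)) (a (c (l 16457064) (l 16429912)) (l 16447968))) (b (l 16451352) (l 16457736))) (a (b (c (l 16472408) (l 16441848)) (l 16479104)) (b (l 16473528) (l 16498720)))) (b (b (l 16468424) (l 16479480)) (a (l 16504608) (l 16524784)))) (b (a (a (l 16496288) (l 16513304)) (l 16547304)) (a (b (l 16548784) (l 16640464)) (b (l 16653296) (l 16685032)))))) (b (a (a (b (l 16503576) (l 16531872)) (b (l 16526728) (a (l 16591200) (l 16612880)))) (a (b (a (l 16563560) (l 16592376)) (l 16633872)) (b (l 16630584) (l 16699456)))) (a (b (a (b (l 16615024) (l 16645576)) (l 16643368)) (a (b (l 16658000)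 (l 16669184)) (l 16688344))) (b (l 16727008) (l 2))))), by decide +kernel⟩

def k3_pp_022 : ∃ t, chk3 f_pp_022 t 2 7 1 = true :=
  ⟨(a (b (a (a (b (a (b (l 16507768) (l 16543736)) (l 16553208)) (a (b (l 16646696) (l 16748808)) (b (l 16711208) (l 16800880)))) (b (a (l 16604256) (l 16686336)) (a (b (l 16765072) (a (l 16825744) (l 16819896))) (b (l 16784632) (l 16786800))))) (a (b (a (b (l 16699152) (l 16753096)) (b (l 16723800) (l 16730624))) (a (l 16751792) (l 16726408))) (b (b (l 16693272) (l 16697800)) (l 16718832)))) (a (b (a (b (a (l 16837952) (a (l 16861240) (l 16853888))) (a (a (b (l 16888528) (l 16912200)) (l 16889616)) (l 16850568))) (b (a (l 16817656) (l 16775176)) (l 16787136))) (a (b (a (l 16839408) (l 16792880)) (l 16728504)) (b (l 16756256) (l 2)))) (b (a (l 16752200) (l 2)) (l 2)))) (b (a (b (l 16717944) (l 2)) (l 2)) (l 2))), by decide +kernel⟩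

def k4_pp_022 : ∃ t, chk3 f_pp_022 t 3 4 1 = true :=
  ⟨(a (b (b (l 3) (b (l 3) (b (l 3) (a (a (l 3) (l 16517240)) (a (l 16500800) (a (l 16453528) (l 16570152))))))) (a (b (b (a (l 16518312) (c (l 16503184) (l 16459368))) (a (l 16478864) (l 16449440))) (b (a (l 16435472) (a (l 16421368) (l 16416696))) (a (l 16435792) (l 16431344)))) (b (b (a (b (l 16474984) (l 16448832)) (a (l 16448288) (b (l 16516176) (l 16526688)))) (a (a (l 16406424) (l 16440192)) (a (l 16495080) (l 16587232)))) (a (b (a (l 16415928) (l 16473032)) (l 16483840)) (b (a (l 16525184) (b (l 16570416) (l 16598760))) (a (b (l 16553544) (l 16581832)) (l 16653800))))))) (b (b (l 3) (b (l 3) (a (a (b (l 3) (a (l 53854767319) (c (l 16657552) (l 16544984)))) (a (b (l 3) (a (b (a (l 16625296) (l 105394455447)) (a (l 16633824) (l 16660152))) (l 16737152))) (b (l 1477099724311) (l 16784592)))) (a (b (l 124721874455) (l 16940648)) (l 2))))) (a (b (a (b (a (b (l 16564224) (l 16573920)) (b (a (l 16597464) (b (l 16641056)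 (l 16634184))) (a (l 16700160) (l 16666200)))) (a (b (a (l 16573472) (l 16604768)) (a (l 16594160) (l 16641544))) (b (l 16682040) (l 16723800)))) (b (a (b (l 16710088) (l 16752560)) (l 16841464)) (l 16860168))) (a (b (a (l 16677136) (l 16779384)) (l 16797432)) (l 16946696))) (b (a (b (l 16983696) (l 2)) (l 2)) (l 2))))), by decide +kernel⟩

def k5_pp_022 : ∃ t, chk3 f_pp_022 t 3 5 1 = true :=
  ⟨(a (b (a (b (a (b (l 16450720) (l 16520248)) (b (l 16450120) (l 16522560))) (a (l 16501736) (b (l 16563472) (l 16572896)))) (b (a (b (a (l 16498592) (l 16557240)) (b (l 16568872) (l 16576712))) (b (l 16678640) (l 16740912))) (a (b (l 16642624) (l 16699944)) (l 16821928)))) (a (a (b (a (l 16526768) (l 16571528)) (l 16634792)) (b (l 16647944) (l 16741904))) (a (l 16822000) (l 2)))) (a (b (b (a (b (l 16855632) (l 2)) (l 2)) (l 2)) (l 2)) (l 2))), by decide +kernel⟩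

def k6_pp_022 : ∃ t, chk3 f_pp_022 t 3 3 1 = true :=
  ⟨(b (a (a (b (a (l 16755640) (l 2)) (l 2)) (l 2)) (l 2)) (l 2)), by decide +kernel⟩

theorem s7_pp_022 : ∃ t, chk3 f_pp_022 t 3 2 1 = true := ex3_b k4_pp_022 k5_pp_022

theorem s8_pp_022 : ∃ t, chk3 f_pp_022 t 3 1 1 = true := ex3_b s7_pp_022 k6_pp_022

theorem s9_pp_022 : ∃ t, chk3 f_pp_022 t 2 3 1 = true := ex3_b k2_pp_022 k3_pp_022

theorem s10_pp_022 : ∃ t, chk3 f_pp_022 t 2 2 1 = true := ex3_a k0_pp_022 k1_pp_022

theorem s11_pp_022 : ∃ t, chk3 f_pp_022 t 2 1 1 = true := ex3_b s10_pp_022 s9_pp_022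

theorem s12_pp_022 : ∃ t, chk3 f_pp_022 t 1 1 1 = true := ex3_a s11_pp_022 s8_pp_022

theorem c_pp_022 : CertF 0 536870912 1073741824 536870912 402653184 67108864 false true true .pp 0 2 2
    ndF0q0 ndF2q2 pcF2 Cut.none Ext.none :=
  certF1 (fam := false) (s1 := true) (s2 := true) (a := 0) (b := 2) (c := 2) (cn := .pp) (n1 := ndF0q0) (n2 := ndF2q2) (pc := pcF2) (cut := Cut.none) (xt := Ext.none) (P1 := 0) (W1 := 536870912) (P2 := 1073741824) (W2 := 536870912) (P3 := 402653184) (W3 := 67108864)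
    rfl (fun _ => rfl) s12_pp_022

noncomputable def f_pp_023 : ℕ → ℕ → ℕ → ℕ → Bool := onCell 1073741824 536870912 0 1230186008 402653184 67108864
    (rowF 2 false true true .up 0 2 3 (qsf 0 536870912 0 1230186008 2) ndF0q0 ndF2q3 pcF2 Cut.none Ext.none)

def k0_pp_023 : ∃ t, chk3 f_pp_023 t 1 1 1 = true :=
  ⟨(b (a (l 2) (a (l 2) (b (a (l 2) (l 17025896)) (a (b (l 17002208) (l 16993424)) (b (l 17046408) (l 17049896)))))) (b (a (a (l 2) (b (l 2) (a (l 2) (b (l 2) (l 16904504))))) (a (a (b (l 2) (l 17014280)) (b (l 16942280) (b (l 16937648) (l 16931960)))) (b (a (l 16985072) (l 17038984)) (a (l 16972360) (l 17018104))))) (a (a (b (l 2) (a (b (l 2) (a (l 3) (a (l 3) (a (b (l 16907384) (l 16846832)) (b (l 16894888) (l 16832760)))))) (b (a (a (b (l 2) (l 16920728)) (l 16917760)) (l 16934592)) (a (b (a (l 16877472) (l 16855696)) (a (l 16812128) (l 16787952))) (b (l 16824352) (l 16753136)))))) (b (a (a (b (l 2) (l 17012936)) (b (l 16909488) (l 16888832))) (b (l 16898664) (l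 16875160))) (a (b (a (a (l 16868296) (l 16852280)) (l 16835656)) (a (a (l 16762672) (b (l 16780496) (l 16706928))) (l 16729032))) (b (l 16821168) (b (l 16749424) (l 16679480)))))) (a (b (a (b (l 16902280) (l 16878912)) (b (l 16922744) (l 16901616))) (a (b (l 16827384) (l 16728800)) (b (l 16854872) (b (l 16792992) (l 16733296))))) (a (b (b (l 16955192) (l 16937000)) (b (l 16903032) (b (l 16854240) (l 16806560)))) (b (a (l 16973672) (l 16987752)) (b (a (l 16948840) (l 16942016)) (a (l 16904024) (b (l 16909608) (l 16869608)))))))))), by decide +kernel⟩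

theorem c_pp_023 : CertF 0 536870912 0 1230186008 402653184 67108864 false true true .up 0 2 3
    ndF0q0 ndF2q3 pcF2 Cut.none Ext.none :=
  certF2 (fam := false) (s1 := true) (s2 := true) (a := 0) (b := 2) (c := 3) (cn := .up) (n1 := ndF0q0) (n2 := ndF2q3) (pc := pcF2) (cut := Cut.none) (xt := Ext.none) (P1 := 0) (W1 := 536870912) (P2 := 0) (W2 := 1230186008) (P3 := 402653184) (W3 := 67108864)
    rfl (fun _ => rfl) k0_pp_023

noncomputable def f_pp_033 : ℕ → ℕ → ℕ → ℕ → Bool := onCell 1610612736 536870912 0 1230186008 402653184 67108864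
    (rowF 2 false true true .pnn 0 3 3 (qsf 0 536870912 0 1230186008 3) ndF0q0 ndF2q3 pcF3 Cut.none Ext.none)

def k0_pp_033 : ∃ t, chk3 f_pp_033 t 1 1 1 = true :=
  ⟨(a (b (a (b (a (l 16989312) (l 16995672)) (a (l 17022680) (l 17035328))) (b (a (l 16993880) (l 16993200)) (a (l 17036192) (l 17033048)))) (b (a (b (a (l 17044872) (l 17070808)) (a (l 17041200) (l 17072400))) (b (l 17210440) (a (l 17097320) (l 17127144)))) (a (b (b (l 17039456) (l 17018552)) (b (a (l 16972992) (l 17006640)) (a (b (l 16944712) (a (l 16902000) (l 16931824))) (l 349537189335)))) (b (a (l 17079400) (l 17137336)) (b (a (l 17053120) (l 1)) (l 1)))))) (a (b (a (b (l 4) (l 17056000)) (l 4)) (b (a (b (l 17107264) (l 17174920)) (b (l 17149616) (l 17231720))) (l 1))) (b (l 4) (b (l 4) (l 1))))), by decide +kernel⟩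

theorem c_pp_033 : CertF 0 536870912 0 1230186008 402653184 67108864 false true true .pnn 0 3 3
    ndF0q0 ndF2q3 pcF3 Cut.none Ext.none :=
  certF2 (fam := false) (s1 := true) (s2 := true) (a := 0) (b := 3) (c := 3) (cn := .pnn) (n1 := ndF0q0) (n2 := ndF2q3) (pc := pcF3) (cut := Cut.none) (xt := Ext.none) (P1 := 0) (W1 := 536870912) (P2 := 0) (W2 := 1230186008) (P3 := 402653184) (W3 := 67108864)
    rfl (fun _ => rfl) k0_pp_033

noncomputable def f_pp_101 : ℕ → ℕ → ℕ → ℕ → Bool := onCell 536870912 536870912 536870912 536870912 402653184 67108864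
    (rowF 0 false true true .npn 1 0 1 (qsf 536870912 536870912 536870912 536870912 0) ndF0q1 ndF2q1 pcF0 Cut.none Ext.none)

def k0_pp_101 : ∃ t, chk3 f_pp_101 t 1 1 1 = true :=
  ⟨(a (l 3) (l 5)), by decide +kernel⟩

theorem c_pp_101 : CertF 536870912 536870912 536870912 536870912 402653184 67108864 false true true .npn 1 0 1
    ndF0q1 ndF2q1 pcF0 Cut.none Ext.none :=
  certF0 (fam := false) (s1 := true) (s2 := true) (a := 1) (b := 0) (c := 1) (cn := .npn) (n1 := ndF0q1) (n2 := ndF2q1) (pc := pcF0) (cut := Cut.none) (xt := Ext.none) (P1 := 536870912) (W1 := 536870912) (P2 := 536870912) (W2 := 536870912) (P3 := 402653184) (W3 := 67108864)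
    rfl k0_pp_101

noncomputable def f_pp_102 : ℕ → ℕ → ℕ → ℕ → Bool := onCell 536870912 536870912 0 536870912 402653184 67108864
    (rowF 1 false true true .npp 1 0 2 (qsf 536870912 536870912 1073741824 536870912 0) ndF0q1 ndF2q2 pcF0 Cut.none Ext.none)

def k0_pp_102 : ∃ t, chk3 f_pp_102 t 1 1 1 = true :=
  ⟨(l 3), by decide +kernel⟩

theorem c_pp_102 : CertF 536870912 536870912 1073741824 536870912 402653184 67108864 false true true .npp 1 0 2
    ndF0q1 ndF2q2 pcF0 Cut.none Ext.none :=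
  certF1 (fam := false) (s1 := true) (s2 := true) (a := 1) (b := 0) (c := 2) (cn := .npp) (n1 := ndF0q1) (n2 := ndF2q2) (pc := pcF0) (cut := Cut.none) (xt := Ext.none) (P1 := 536870912) (W1 := 536870912) (P2 := 1073741824) (W2 := 536870912) (P3 := 402653184) (W3 := 67108864)
    rfl (fun _ => rfl) k0_pp_102

noncomputable def f_pp_112 : ℕ → ℕ → ℕ → ℕ → Bool := onCell 536870912 536870912 1073741824 536870912 402653184 67108864
    (rowF 0 false true true .dn 1 1 2 (qsf 536870912 536870912 1073741824 536870912 1) ndF0q1 ndF2q2 pcF1 Cut.none Ext.none)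

def k0_pp_112 : ∃ t, chk3 f_pp_112 t 1 1 1 = true :=
  ⟨(a (l 3) (l 3)), by decide +kernel⟩

theorem c_pp_112 : CertF 536870912 536870912 1073741824 536870912 402653184 67108864 false true true .dn 1 1 2
    ndF0q1 ndF2q2 pcF1 Cut.none Ext.none :=
  certF0 (fam := false) (s1 := true) (s2 := true) (a := 1) (b := 1) (c := 2) (cn := .dn) (n1 := ndF0q1) (n2 := ndF2q2) (pc := pcF1) (cut := Cut.none) (xt := Ext.none) (P1 := 536870912) (W1 := 536870912) (P2 := 1073741824) (W2 := 536870912) (P3 := 402653184) (W3 := 67108864)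
    rfl k0_pp_112

noncomputable def cut_pp_113 : Cut := Cut.of [[⟨0, 1, 0, 67108864⟩, ⟨1, 1, 0, 67108864⟩, ⟨2, 2, 0, 16777216⟩]]

noncomputable def f_pp_113 : ℕ → ℕ → ℕ → ℕ → Bool := onCell 536870912 536870912 0 1230186008 402653184 67108864
    (rowF 2 false true true .nn 1 1 3 (qsf 536870912 536870912 0 1230186008 1) ndF0q1 ndF2q3 pcF1 cut_pp_113 Ext.none)

def k0_pp_113 : ∃ t, chk3 f_pp_113 t 1 1 1 = true :=
  ⟨(b (a (l 2) (a (l 2) (a (l 3) (a (l 3) (b (b (l 6) (l 3)) (l 3)))))) (a (b (l 3) (a (l 3) (l 3))) (b (a (l 3) (l 3)) (l 3)))), by decide +kernel⟩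

theorem c_pp_113 : CertF 536870912 536870912 0 1230186008 402653184 67108864 false true true .nn 1 1 3
    ndF0q1 ndF2q3 pcF1 cut_pp_113 Ext.none :=
  certF2 (fam := false) (s1 := true) (s2 := true) (a := 1) (b := 1) (c := 3) (cn := .nn) (n1 := ndF0q1) (n2 := ndF2q3) (pc := pcF1) (cut := cut_pp_113) (xt := Ext.none) (P1 := 536870912) (W1 := 536870912) (P2 := 0) (W2 := 1230186008) (P3 := 402653184) (W3 := 67108864)
    rfl (fun _ => rfl) k0_pp_113

noncomputable def cut_pp_123 : Cut := Cut.of [[⟨0, 1, 0, 67108864⟩, ⟨1, 1, 0, 67108864⟩, ⟨2, 2, 0, 16777216⟩]]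

noncomputable def f_pp_123 : ℕ → ℕ → ℕ → ℕ → Bool := onCell 1073741824 536870912 0 1230186008 402653184 67108864
    (rowF 2 false true true .npn 1 2 3 (qsf 536870912 536870912 0 1230186008 2) ndF0q1 ndF2q3 pcF2 cut_pp_123 Ext.none)

def k0_pp_123 : ∃ t, chk3 f_pp_123 t 1 2 1 = true :=
  ⟨(b (a (b (a (a (a (l 6) (l 16791568)) (l 16798600)) (a (l 16821680) (l 16853488))) (a (b (a (a (l 6) (l 16798616)) (l 16804088)) (b (a (a (a (a (l 3) (a (l 215989923159) (l 16800656))) (l 16844488)) (l 16805432)) (l 16809232)) (a (a (a (a (l 3) (a (l 213842452071) (l 16806896))) (a (l 16808328) (l 16809144))) (l 16811144)) (l 16813616)))) (a (l 16821736) (l 16850312)))) (a (a (l 16900496) (l 16957808)) (a (l 17006304) (l 17026112)))) (a (a (a (a (b (a (a (l 3) (b (b (l 210084371143) (l 206863161111)) (l 3))) (b (a (a (l 16818880) (l 16819704)) (l 16819952)) (a (a (l 16835544) (l 16836096)) (l 16836712)))) (a (l 3) (b (a (l 190757135479) (l 16855288)) (a (l 181093505527) (l 16876040)))))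 (a (b (l 16892088) (b (l 16855640) (l 16876504))) (b (l 16829544) (l 16886160)))) (b (l 16850072) (a (l 16968592) (l 16860904)))) (a (a (b (l 16830376) (l 16862984)) (l 16846224)) (b (l 16855304) (l 16866344)))) (a (a (l 16897792) (b (l 16947544) (l 16945160))) (a (b (l 17002200) (l 16993520)) (b (l 17046552) (l 17050416)))))), by decide +kernel⟩

def k1_pp_123 : ∃ t, chk3 f_pp_123 t 1 3 1 = true :=
  ⟨(b (a (a (a (b (a (a (l 3) (a (l 3) (b (l 16899552) (l 16924624)))) (b (a (l 16920376) (l 16897504)) (a (a (l 16924720) (l 16923616)) (l 16921392)))) (a (b (b (l 3) (l 3)) (l 3)) (a (b (a (l 16949864) (l 16948432)) (b (l 16966528) (l 16976688))) (b (l 16945192) (b (l 16961120) (l 16970360)))))) (b (a (b (l 16894584) (l 16916824)) (l 16983624)) (a (b (l 16938144) (l 16997856)) (b (l 16927384) (l 16941224))))) (b (a (a (l 16891656) (l 16886160)) (b (l 16879536) (l 16889528))) (a (a (a (l 16925176) (l 17064384)) (l 16909872)) (b (l 16900024) (l 16904504))))) (a (a (b (l 16904728)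 (b (l 16907312) (l 16908072))) (b (l 16942376) (b (l 16937912) (l 1)))) (a (b (l 16985680) (l 1)) (l 1)))) (a (a (b (a (a (l 3) (b (a (b (l 112911148071) (a (l 3) (l 16989960))) (b (l 16977664) (l 16981896))) (a (a (l 3) (b (l 134385944711) (l 135459655719))) (b (l 16982112) (a (l 16980880) (l 16973568)))))) (a (b (a (l 16970952) (l 16961624)) (a (b (l 16970080) (l 16963144)) (l 16955112))) (b (l 16946344) (l 16976768)))) (a (a (l 3) (a (b (a (l 3) (b (l 16977536) (l 3))) (l 3)) (b (b (a (l 16969272) (l 16960616)) (a (l 16946776) (l 16936104))) (b (a (l 16907352) (l 16894848)) (l 1))))) (a (b (a (b (l 16948088) (l 16920704)) (l 16917712)) (b (a (l 16877392) (l 1)) (l 1))) (b (b (l 16907216) (l 16874184)) (l 1))))) (b (a (a (b (l 16967240) (l 17096800)) (b (l 16909488) (l 16888776))) (b (l 16898680) (l 1))) (a (b (a (a (l 16868128) (l 1)) (l 1)) (l 1)) (l 1)))) (l 1))), by decide +kernel⟩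

theorem s2_pp_123 : ∃ t, chk3 f_pp_123 t 1 1 1 = true := ex3_b k0_pp_123 k1_pp_123

theorem c_pp_123 : CertF 536870912 536870912 0 1230186008 402653184 67108864 false true true .npn 1 2 3
    ndF0q1 ndF2q3 pcF2 cut_pp_123 Ext.none :=
  certF2 (fam := false) (s1 := true) (s2 := true) (a := 1) (b := 2) (c := 3) (cn := .npn) (n1 := ndF0q1) (n2 := ndF2q3) (pc := pcF2) (cut := cut_pp_123) (xt := Ext.none) (P1 := 536870912) (W1 := 536870912) (P2 := 0) (W2 := 1230186008) (P3 := 402653184) (W3 := 67108864)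
    rfl (fun _ => rfl) s2_pp_123

noncomputable def f_pp_133 : ℕ → ℕ → ℕ → ℕ → Bool := onCell 536870912 536870912 0 1230186008 402653184 67108864
    (rowF 0 false true true .dn 1 3 3 (qsf 536870912 536870912 0 1230186008 3) ndF0q1 ndF2q3 pcF3 Cut.none Ext.none)

def k0_pp_133 : ∃ t, chk3 f_pp_133 t 1 1 1 = true :=
  ⟨(b (b (a (a (l 566970048871) (l 1)) (l 1)) (l 1)) (l 1)), by decide +kernel⟩

theorem c_pp_133 : CertF 536870912 536870912 0 1230186008 402653184 67108864 false true true .dn 1 3 3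
    ndF0q1 ndF2q3 pcF3 Cut.none Ext.none :=
  certF0 (fam := false) (s1 := true) (s2 := true) (a := 1) (b := 3) (c := 3) (cn := .dn) (n1 := ndF0q1) (n2 := ndF2q3) (pc := pcF3) (cut := Cut.none) (xt := Ext.none) (P1 := 536870912) (W1 := 536870912) (P2 := 0) (W2 := 1230186008) (P3 := 402653184) (W3 := 67108864)
    rfl k0_pp_133

noncomputable def f_pp_202 : ℕ → ℕ → ℕ → ℕ → Bool := onCell 0 536870912 1073741824 536870912 402653184 67108864
    (rowF 0 false true true .pp 2 0 2 (qsf 0 536870912 1073741824 536870912 0) ndF0q2 ndF2q2 pcF0 Cut.none Ext.none)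

def k0_pp_202 : ∃ t, chk3 f_pp_202 t 1 1 1 = true :=
  ⟨(l 3), by decide +kernel⟩

theorem c_pp_202 : CertF 0 536870912 1073741824 536870912 402653184 67108864 false true true .pp 2 0 2
    ndF0q2 ndF2q2 pcF0 Cut.none Ext.none :=
  certF0 (fam := false) (s1 := true) (s2 := true) (a := 2) (b := 0) (c := 2) (cn := .pp) (n1 := ndF0q2) (n2 := ndF2q2) (pc := pcF0) (cut := Cut.none) (xt := Ext.none) (P1 := 0) (W1 := 536870912) (P2 := 1073741824) (W2 := 536870912) (P3 := 402653184) (W3 := 67108864)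
    rfl k0_pp_202

noncomputable def f_pp_203 : ℕ → ℕ → ℕ → ℕ → Bool := onCell 0 536870912 0 1230186008 402653184 67108864
    (rowF 0 false true true .up 2 0 3 (qsf 0 536870912 0 1230186008 0) ndF0q2 ndF2q3 pcF0 Cut.none Ext.none)

def k0_pp_203 : ∃ t, chk3 f_pp_203 t 1 1 1 = true :=
  ⟨(b (l 2) (l 3)), by decide +kernel⟩

theorem c_pp_203 : CertF 0 536870912 0 1230186008 402653184 67108864 false true true .up 2 0 3
    ndF0q2 ndF2q3 pcF0 Cut.none Ext.none :=
  certF0 (fam := false) (s1 := true) (s2 := true) (a := 2) (b := 0) (c := 3) (cn := .up) (n1 := ndF0q2) (n2 := ndF2q3) (pc := pcF0) (cut := Cut.none) (xt := Ext.none) (P1 := 0) (W1 := 536870912) (P2 := 0) (W2 := 1230186008) (P3 := 402653184) (W3 := 67108864)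
    rfl k0_pp_203

noncomputable def cut_pp_213 : Cut := Cut.of [[⟨0, 1, 0, 67108864⟩, ⟨1, 1, 0, 67108864⟩, ⟨2, 2, 0, 16777216⟩]]

noncomputable def f_pp_213 : ℕ → ℕ → ℕ → ℕ → Bool := onCell 0 536870912 0 1230186008 402653184 67108864
    (rowF 0 false true true .pnn 2 1 3 (qsf 0 536870912 0 1230186008 1) ndF0q2 ndF2q3 pcF1 cut_pp_213 Ext.none)

def k0_pp_213 : ∃ t, chk3 f_pp_213 t 1 1 1 = true :=
  ⟨(b (a (l 3) (b (a (l 3) (a (l 3) (b (l 6) (l 3)))) (l 3))) (l 3)), by decide +kernel⟩

theorem c_pp_213 : CertF 0 536870912 0 1230186008 402653184 67108864 false true true .pnn 2 1 3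
    ndF0q2 ndF2q3 pcF1 cut_pp_213 Ext.none :=
  certF0 (fam := false) (s1 := true) (s2 := true) (a := 2) (b := 1) (c := 3) (cn := .pnn) (n1 := ndF0q2) (n2 := ndF2q3) (pc := pcF1) (cut := cut_pp_213) (xt := Ext.none) (P1 := 0) (W1 := 536870912) (P2 := 0) (W2 := 1230186008) (P3 := 402653184) (W3 := 67108864)
    rfl k0_pp_213

noncomputable def f_pm_001 : ℕ → ℕ → ℕ → ℕ → Bool := onCell 0 536870912 536870912 536870912 402653184 67108864
    (rowF 0 false true false .up 0 0 1 (qsf 0 536870912 536870912 536870912 0) ndF0q0 ndF2q1 pcF0 Cut.none Ext.none)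

def k0_pm_001 : ∃ t, chk3 f_pm_001 t 1 1 1 = true :=
  ⟨(l 4), by decide +kernel⟩

theorem c_pm_001 : CertF 0 536870912 536870912 536870912 402653184 67108864 false true false .up 0 0 1
    ndF0q0 ndF2q1 pcF0 Cut.none Ext.none :=
  certF0 (fam := false) (s1 := true) (s2 := false) (a := 0) (b := 0) (c := 1) (cn := .up) (n1 := ndF0q0) (n2 := ndF2q1) (pc := pcF0) (cut := Cut.none) (xt := Ext.none) (P1 := 0) (W1 := 536870912) (P2 := 536870912) (W2 := 536870912) (P3 := 402653184) (W3 := 67108864)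
    rfl k0_pm_001

noncomputable def f_pm_011 : ℕ → ℕ → ℕ → ℕ → Bool := onCell 0 536870912 536870912 536870912 402653184 67108864
    (rowF 0 false true false .pnn 0 1 1 (qsf 0 536870912 536870912 536870912 1) ndF0q0 ndF2q1 pcF1 Cut.none Ext.none)

def k0_pm_011 : ∃ t, chk3 f_pm_011 t 1 1 1 = true :=
  ⟨(l 4), by decide +kernel⟩

theorem c_pm_011 : CertF 0 536870912 536870912 536870912 402653184 67108864 false true false .pnn 0 1 1
    ndF0q0 ndF2q1 pcF1 Cut.none Ext.none :=
  certF0 (fam := false) (s1 := true) (s2 := false) (a := 0) (b := 1) (c := 1) (cn := .pnn) (n1 := ndF0q0) (n2 := ndF2q1) (pc := pcF1) (cut := Cut.none) (xt := Ext.none) (P1 := 0) (W1 := 536870912) (P2 := 536870912) (W2 := 536870912) (P3 := 402653184) (W3 := 67108864)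
    rfl k0_pm_011

noncomputable def f_pm_012 : ℕ → ℕ → ℕ → ℕ → Bool := onCell 0 536870912 1073741824 536870912 402653184 67108864
    (rowF 0 false true false .pnp 0 1 2 (qsf 0 536870912 1073741824 536870912 1) ndF0q0 ndF2q2 pcF1 Cut.none Ext.none)

def k0_pm_012 : ∃ t, chk3 f_pm_012 t 1 1 1 = true :=
  ⟨(a (b (l 4) (l 4)) (b (a (b (b (a (a (l 4) (a (b (l 16478632) (l 4)) (b (l 16412360) (l 16375256)))) (a (b (l 16444344) (l 16337864)) (b (l 16384968) (l 16335992)))) (a (a (l 4) (l 4)) (a (b (l 16434240) (l 16458224)) (b (l 16358432) (l 16371520))))) (a (l 4) (b (a (b (l 16454424) (l 4)) (b (l 16377464) (l 16376880))) (a (l 4) (b (l 16371224) (l 16358752)))))) (b (b (a (b (a (l 16338000) (b (l 16349296) (l 16273272))) (a (l 16317872) (l 16305624))) (a (b (b (l 16447552) (l 16402392)) (l 16372488)) (b (b (l 16524672) (l 16507840)) (l 16487872)))) (a (a (l 16422504) (l 16357440)) (a (l 16359416) (b (l 16473088) (l 16468496))))) (a (b (a (l 16386744) (l 16398240)) (a (l 16392920)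 (l 16418384))) (b (a (b (l 16400360) (l 16421544)) (b (l 16475288) (l 16492624))) (a (l 16447120) (l 16534888)))))) (b (a (a (l 4) (b (a (l 4) (b (l 16347312) (l 4))) (l 4))) (b (a (a (b (l 16387144) (l 16378464)) (b (l 16425800) (l 16426800))) (a (l 16534448) (b (l 16595360) (l 16642928)))) (a (b (a (l 25467215783) (l 16443368)) (a (b (l 16363696) (l 16453784)) (b (l 16424104) (l 16433920)))) (b (a (b (l 16532376) (l 16557128)) (l 16688344)) (a (l 16603560) (l 16742968)))))) (a (l 4) (b (a (b (a (a (l 4) (b (l 16394512) (l 86536199655))) (b (l 16453344) (l 16453472))) (a (a (l 2) (l 141296993623)) (a (l 92978646007) (l 16452360)))) (a (b (l 16675496) (a (l 16716360) (l 16788488))) (b (l 16807344) (l 16876896)))) (a (b (a (l 2) (l 167066839943)) (l 2)) (b (a (a (b (l 16778624) (l 16818056)) (l 75262464743)) (l 16948096)) (a (b (l 197131927991) (l 2)) (b (l 16950304) (l 16883416)))))))))), by decide +kernel⟩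

theorem c_pm_012 : CertF 0 536870912 1073741824 536870912 402653184 67108864 false true false .pnp 0 1 2
    ndF0q0 ndF2q2 pcF1 Cut.none Ext.none :=
  certF0 (fam := false) (s1 := true) (s2 := false) (a := 0) (b := 1) (c := 2) (cn := .pnp) (n1 := ndF0q0) (n2 := ndF2q2) (pc := pcF1) (cut := Cut.none) (xt := Ext.none) (P1 := 0) (W1 := 536870912) (P2 := 1073741824) (W2 := 536870912) (P3 := 402653184) (W3 := 67108864)
    rfl k0_pm_012

noncomputable def f_pm_022 : ℕ → ℕ → ℕ → ℕ → Bool := onCell 1073741824 536870912 1073741824 536870912 402653184 67108864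
    (rowF 2 false true false .pp 0 2 2 (qsf 0 536870912 1073741824 536870912 2) ndF0q0 ndF2q2 pcF2 Cut.none Ext.none)

def k0_pm_022 : ∃ t, chk3 f_pm_022 t 1 1 1 = true :=
  ⟨(a (b (l 4) (b (l 4) (a (b (a (a (b (a (b (l 4) (l 16389864)) (l 4)) (a (a (l 16443448) (l 16435616)) (l 16454304))) (b (l 4) (l 16408288))) (l 4)) (a (b (a (a (b (l 16755816) (l 16866200)) (l 16761992)) (a (l 16712112) (l 16661256))) (a (b (l 16884784) (l 16878384)) (l 16798448))) (b (a (l 16585048) (l 4)) (a (l 16718296) (l 16640552))))) (l 4)))) (l 4)), by decide +kernel⟩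

theorem c_pm_022 : CertF 0 536870912 1073741824 536870912 402653184 67108864 false true false .pp 0 2 2
    ndF0q0 ndF2q2 pcF2 Cut.none Ext.none :=
  certF2 (fam := false) (s1 := true) (s2 := false) (a := 0) (b := 2) (c := 2) (cn := .pp) (n1 := ndF0q0) (n2 := ndF2q2) (pc := pcF2) (cut := Cut.none) (xt := Ext.none) (P1 := 0) (W1 := 536870912) (P2 := 1073741824) (W2 := 536870912) (P3 := 402653184) (W3 := 67108864)
    rfl (fun _ => rfl) k0_pm_022

noncomputable def f_pm_023 : ℕ → ℕ → ℕ → ℕ → Bool := onCell 0 536870912 0 1230186008 402653184 67108864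
    (rowF 0 false true false .up 0 2 3 (qsf 0 536870912 0 1230186008 2) ndF0q0 ndF2q3 pcF2 Cut.none Ext.none)

def k0_pm_023 : ∃ t, chk3 f_pm_023 t 1 1 1 = true :=
  ⟨(a (b (l 2) (l 4)) (b (a (l 2) (b (a (l 2) (l 17018824)) (a (b (l 17022992) (l 17045288)) (l 17046872)))) (b (b (a (l 4) (a (l 17069824) (l 17083864))) (a (l 4) (a (l 17083096) (l 17105104)))) (a (l 4) (a (b (b (l 17068672) (l 17035792)) (b (l 16970856) (a (l 16825352) (l 16884576)))) (b (b (l 17104920) (l 17089168)) (b (l 17050616) (b (l 16998608) (a (l 16914176) (l 16983064)))))))))), by decide +kernel⟩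

theorem c_pm_023 : CertF 0 536870912 0 1230186008 402653184 67108864 false true false .up 0 2 3
    ndF0q0 ndF2q3 pcF2 Cut.none Ext.none :=
  certF0 (fam := false) (s1 := true) (s2 := false) (a := 0) (b := 2) (c := 3) (cn := .up) (n1 := ndF0q0) (n2 := ndF2q3) (pc := pcF2) (cut := Cut.none) (xt := Ext.none) (P1 := 0) (W1 := 536870912) (P2 := 0) (W2 := 1230186008) (P3 := 402653184) (W3 := 67108864)
    rfl k0_pm_023

noncomputable def f_pm_033 : ℕ → ℕ → ℕ → ℕ → Bool := onCell 1610612736 536870912 0 1230186008 402653184 67108864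
    (rowF 2 false true false .pnn 0 3 3 (qsf 0 536870912 0 1230186008 3) ndF0q0 ndF2q3 pcF3 Cut.none Ext.none)

def k0_pm_033 : ∃ t, chk3 f_pm_033 t 1 1 1 = true :=
  ⟨(b (a (a (a (b (l 16989960) (l 17029256)) (b (l 16993400) (l 17027352))) (b (a (l 16993400) (l 4)) (l 4))) (l 4)) (a (b (a (a (l 61976230711) (l 4)) (l 4)) (l 4)) (l 4))), by decide +kernel⟩

theorem c_pm_033 : CertF 0 536870912 0 1230186008 402653184 67108864 false true false .pnn 0 3 3
    ndF0q0 ndF2q3 pcF3 Cut.none Ext.none :=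
  certF2 (fam := false) (s1 := true) (s2 := false) (a := 0) (b := 3) (c := 3) (cn := .pnn) (n1 := ndF0q0) (n2 := ndF2q3) (pc := pcF3) (cut := Cut.none) (xt := Ext.none) (P1 := 0) (W1 := 536870912) (P2 := 0) (W2 := 1230186008) (P3 := 402653184) (W3 := 67108864)
    rfl (fun _ => rfl) k0_pm_033

noncomputable def f_pm_101 : ℕ → ℕ → ℕ → ℕ → Bool := onCell 536870912 536870912 536870912 536870912 402653184 67108864
    (rowF 0 false true false .npn 1 0 1 (qsf 536870912 536870912 536870912 536870912 0) ndF0q1 ndF2q1 pcF0 Cut.none Ext.none)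

def k0_pm_101 : ∃ t, chk3 f_pm_101 t 1 1 1 = true :=
  ⟨(l 4), by decide +kernel⟩

theorem c_pm_101 : CertF 536870912 536870912 536870912 536870912 402653184 67108864 false true false .npn 1 0 1
    ndF0q1 ndF2q1 pcF0 Cut.none Ext.none :=
  certF0 (fam := false) (s1 := true) (s2 := false) (a := 1) (b := 0) (c := 1) (cn := .npn) (n1 := ndF0q1) (n2 := ndF2q1) (pc := pcF0) (cut := Cut.none) (xt := Ext.none) (P1 := 536870912) (W1 := 536870912) (P2 := 536870912) (W2 := 536870912) (P3 := 402653184) (W3 := 67108864)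
    rfl k0_pm_101

noncomputable def f_pm_102 : ℕ → ℕ → ℕ → ℕ → Bool := onCell 536870912 536870912 1073741824 536870912 402653184 67108864
    (rowF 0 false true false .npp 1 0 2 (qsf 536870912 536870912 1073741824 536870912 0) ndF0q1 ndF2q2 pcF0 Cut.none Ext.none)

def k0_pm_102 : ∃ t, chk3 f_pm_102 t 1 1 1 = true :=
  ⟨(a (b (a (b (a (b (b (a (a (l 16789000) (b (l 16815496) (l 16803664))) (b (a (l 16836912) (l 16867352)) (l 16846152))) (a (a (l 2) (l 16795872)) (l 16839944))) (a (l 2) (l 16838232))) (b (a (b (l 16901304) (l 16887184)) (b (l 16942296) (l 16922984))) (a (l 16877752) (l 16905544)))) (b (a (l 2) (b (l 16891272) (l 2))) (l 2))) (b (a (a (b (l 16958784) (l 16922544)) (b (l 16977312) (l 16931136))) (b (b (l 17009752) (l 16974600)) (l 17015520))) (a (b (l 16944928) (l 16861048)) (b (b (l 16894936) (l 16870624)) (l 16844136))))) (a (l 2) (b (b (l 16700544) (l 2)) (l 2)))) (b (a (b (b (a (b (l 17007704) (l 16966472)) (b (l 16982360) (l 16938248))) (a (b (l 16930328)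 (l 16897976)) (b (l 16899392) (l 16872152)))) (a (b (l 16864080) (l 16852224)) (l 16877256))) (b (b (a (b (l 16936192) (l 16913256)) (b (a (l 16938360) (b (l 16874320) (l 16856632))) (a (l 16860288) (a (l 16863416) (l 16842600))))) (a (a (l 16863456) (l 16861576)) (a (l 16856208) (l 16805744)))) (a (b (l 16878416) (l 16857704)) (a (l 16932944) (b (l 16743480) (l 16725024)))))) (a (b (b (l 16934768) (l 16954128)) (b (l 16904112) (l 2))) (b (a (b (l 16831064) (l 16801336)) (b (a (l 16715048) (l 16646928)) (a (l 16684896) (l 16628192)))) (a (b (a (l 16829408) (l 16773840)) (b (l 16825304) (l 2))) (b (a (l 16710640) (l 16629840)) (b (a (l 16773224) (l 16721640)) (l 16876896)))))))), by decide +kernel⟩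

theorem c_pm_102 : CertF 536870912 536870912 1073741824 536870912 402653184 67108864 false true false .npp 1 0 2
    ndF0q1 ndF2q2 pcF0 Cut.none Ext.none :=
  certF0 (fam := false) (s1 := true) (s2 := false) (a := 1) (b := 0) (c := 2) (cn := .npp) (n1 := ndF0q1) (n2 := ndF2q2) (pc := pcF0) (cut := Cut.none) (xt := Ext.none) (P1 := 536870912) (W1 := 536870912) (P2 := 1073741824) (W2 := 536870912) (P3 := 402653184) (W3 := 67108864)
    rfl k0_pm_102

noncomputable def f_pm_112 : ℕ → ℕ → ℕ → ℕ → Bool := onCell 536870912 536870912 536870912 536870912 402653184 67108864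
    (rowF 1 false true false .dn 1 1 2 (qsf 536870912 536870912 1073741824 536870912 1) ndF0q1 ndF2q2 pcF1 Cut.none Ext.none)

def k0_pm_112 : ∃ t, chk3 f_pm_112 t 2 1 1 = true :=
  ⟨(b (a (b (b (a (b (a (a (b (l 16578664) (l 16568520)) (b (a (l 16601848) (l 16625816)) (l 16607928))) (b (l 16693392) (l 16678288))) (a (a (l 16557536) (l 16602816)) (l 16670360))) (b (a (l 16765432) (l 16821056)) (l 16784392))) (a (b (a (l 16577776) (l 16675920)) (l 16638616)) (b (l 16797496) (l 16818544)))) (b (a (b (l 16655944) (a (l 16619864) (l 16738120))) (a (l 16820792) (l 16900200))) (a (a (l 16667536) (b (l 16772704) (l 16812392))) (a (l 16890184) (l 16969096))))) (b (b (a (b (a (b (l 16860472) (l 16854408)) (l 16873768)) (l 16893768)) (b (l 16913912) (l 16980704))) (a (b (l 16918336) (l 16946448)) (a (l 17000824) (l 17038200)))) (b (a (a (l 16964424) (l 17016184)) (a (l 17055784) (l 17089176))) (a (a (l 17031120) (l 17079456)) (a (l 17110672) (l 16978600)))))) (a (b (b (a (a (b (l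 16730216) (a (l 16741696) (l 16810584))) (b (l 16854128) (l 16901400))) (a (b (l 16952424) (l 17000424)) (l 17052984))) (a (a (b (l 16823144) (l 16876512)) (b (l 16950008) (l 17001080))) (a (l 17066424) (b (l 17115040) (l 17132616))))) (a (b (a (b (l 16934776) (l 16995520)) (b (l 17054048) (a (l 17073680) (l 17089224)))) (a (b (a (b (l 17011480) (l 17022024)) (b (l 17055592) (l 17027440))) (a (l 16963280) (l 16960600))) (b (a (l 17037800) (l 17031920)) (l 16967424)))) (b (b (a (l 17153576) (l 17110720)) (a (l 17081456) (l 17078016))) (a (l 17012472) (l 2))))) (b (b (a (a (l 17106432) (b (l 17129008) (l 17146176))) (b (a (l 17138976) (l 17122040)) (l 17122712))) (a (a (b (l 17143728) (l 17127248)) (l 17376768)) (l 17117344))) (a (b (l 74726869319) (l 2)) (l 2))))), by decide +kernel⟩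

def k1_pm_112 : ∃ t, chk3 f_pm_112 t 3 1 1 = true :=
  ⟨(b (b (a (b (a (b (l 16999008) (l 17055776)) (b (l 17126432) (l 17152256))) (a (l 17090200) (l 17248424))) (b (a (a (l 17230032) (l 17203080)) (b (a (l 17086096) (l 17139400)) (l 413492646135))) (a (a (l 17203104) (l 17165448)) (l 17373872)))) (a (b (a (l 17330288) (b (l 17132592) (l 17096320))) (a (a (l 17117240) (l 16868512)) (l 17076784))) (a (b (l 17299040) (l 2)) (l 2)))) (b (a (a (b (l 17100976) (l 2)) (l 2)) (l 2)) (l 2))), by decide +kernel⟩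

theorem s2_pm_112 : ∃ t, chk3 f_pm_112 t 1 1 1 = true := ex3_a k0_pm_112 k1_pm_112

theorem c_pm_112 : CertF 536870912 536870912 1073741824 536870912 402653184 67108864 false true false .dn 1 1 2
    ndF0q1 ndF2q2 pcF1 Cut.none Ext.none :=
  certF1 (fam := false) (s1 := true) (s2 := false) (a := 1) (b := 1) (c := 2) (cn := .dn) (n1 := ndF0q1) (n2 := ndF2q2) (pc := pcF1) (cut := Cut.none) (xt := Ext.none) (P1 := 536870912) (W1 := 536870912) (P2 := 1073741824) (W2 := 536870912) (P3 := 402653184) (W3 := 67108864)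
    rfl (fun _ => rfl) s2_pm_112

noncomputable def cut_pm_113 : Cut := Cut.of [[⟨0, 1, 0, 67108864⟩, ⟨1, 1, 0, 67108864⟩, ⟨2, 2, 0, 16777216⟩]]

noncomputable def f_pm_113 : ℕ → ℕ → ℕ → ℕ → Bool := onCell 536870912 536870912 0 1230186008 402653184 67108864
    (rowF 0 false true false .nn 1 1 3 (qsf 536870912 536870912 0 1230186008 1) ndF0q1 ndF2q3 pcF1 cut_pm_113 Ext.none)

def k0_pm_113 : ∃ t, chk3 f_pm_113 t 1 1 1 = true :=
  ⟨(b (a (l 2) (a (l 2) (b (a (l 2) (a (l 2) (b (l 6) (b (l 6) (l 16844800))))) (a (b (l 16891736) (l 16915464)) (b (a (l 16844328) (a (l 16826016) (l 16830848))) (a (l 16876728) (l 16896448))))))) (b (a (b (l 2) (a (l 2) (a (l 2) (l 17233336)))) (a (b (a (l 2) (l 17011192)) (a (l 17120648) (l 17041728))) (a (b (l 16953056) (l 17007456)) (b (a (l 16930712) (l 16933096)) (a (l 16998592) (l 16998144)))))) (b (a (a (l 2) (a (l 17438280) (l 17203096))) (a (a (l 17129104) (l 17079720)) (a (l 17082136) (b (l 17045440) (l 17092472))))) (a (a (a (b (l 2)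 (a (b (l 2) (l 17049784)) (l 17124152))) (b (l 17223848) (l 17165824))) (a (b (l 17214736) (l 17175600)) (b (l 17176712) (l 17155640)))) (a (a (l 17131176) (b (l 17112264) (l 17135856))) (a (a (a (l 17163072) (a (l 17149720) (l 17138504))) (l 17124608)) (b (l 17236400) (a (l 17107768) (l 17076000))))))))), by decide +kernel⟩

theorem c_pm_113 : CertF 536870912 536870912 0 1230186008 402653184 67108864 false true false .nn 1 1 3
    ndF0q1 ndF2q3 pcF1 cut_pm_113 Ext.none :=
  certF0 (fam := false) (s1 := true) (s2 := false) (a := 1) (b := 1) (c := 3) (cn := .nn) (n1 := ndF0q1) (n2 := ndF2q3) (pc := pcF1) (cut := cut_pm_113) (xt := Ext.none) (P1 := 536870912) (W1 := 536870912) (P2 := 0) (W2 := 1230186008) (P3 := 402653184) (W3 := 67108864)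
    rfl k0_pm_113

noncomputable def cut_pm_123 : Cut := Cut.of [[⟨0, 1, 0, 67108864⟩, ⟨1, 1, 0, 67108864⟩, ⟨2, 2, 0, 16777216⟩]]

noncomputable def f_pm_123 : ℕ → ℕ → ℕ → ℕ → Bool := onCell 536870912 536870912 0 1230186008 402653184 67108864
    (rowF 0 false true false .npn 1 2 3 (qsf 536870912 536870912 0 1230186008 2) ndF0q1 ndF2q3 pcF2 cut_pm_123 Ext.none)

def k0_pm_123 : ∃ t, chk3 f_pm_123 t 1 1 1 = true :=
  ⟨(b (b (a (a (a (l 17022040) (l 17010096)) (a (b (l 16975928) (l 16990776)) (l 16926336))) (a (a (l 16873072) (l 16833784)) (a (a (l 16817400) (l 16895528)) (a (b (l 16794688) (l 16817296)) (b (l 6) (a (l 16812952) (l 643204928135))))))) (a (a (a (l 17049424) (l 17043328)) (a (b (l 17010048) (l 17041848)) (b (l 16973688) (l 17014600)))) (a (a (l 16948488) (l 16919288)) (a (b (l 16869136) (l 16935352)) (b (a (l 16863992) (l 605087212615)) (l 593276457271)))))) (b (a (a (b (a (l 17092064) (l 17093672)) (a (l 17124936) (l 17141696))) (b (a (l 17088104) (l 17074312))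 (a (l 17153600) (l 17158576)))) (a (a (b (l 17051992) (l 17146760)) (a (l 89691544247) (l 61237542055))) (a (b (l 17016592) (l 1)) (l 1)))) (a (a (b (a (b (l 17142912) (l 17146808)) (b (l 17180536) (l 17206128))) (b (a (l 17137528) (l 81102466343)) (a (b (l 95597524647) (a (l 124587956983) (l 394097324327))) (b (l 386581799111) (l 1))))) (a (b (b (l 17215448) (l 17263984)) (b (l 353833065847) (l 1))) (b (l 275449837191) (l 1)))) (l 1)))), by decide +kernel⟩

theorem c_pm_123 : CertF 536870912 536870912 0 1230186008 402653184 67108864 false true false .npn 1 2 3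
    ndF0q1 ndF2q3 pcF2 cut_pm_123 Ext.none :=
  certF0 (fam := false) (s1 := true) (s2 := false) (a := 1) (b := 2) (c := 3) (cn := .npn) (n1 := ndF0q1) (n2 := ndF2q3) (pc := pcF2) (cut := cut_pm_123) (xt := Ext.none) (P1 := 536870912) (W1 := 536870912) (P2 := 0) (W2 := 1230186008) (P3 := 402653184) (W3 := 67108864)
    rfl k0_pm_123

noncomputable def f_pm_133 : ℕ → ℕ → ℕ → ℕ → Bool := onCell 536870912 536870912 0 1230186008 402653184 67108864
    (rowF 0 false true false .dn 1 3 3 (qsf 536870912 536870912 0 1230186008 3) ndF0q1 ndF2q3 pcF3 Cut.none Ext.none)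

def k0_pm_133 : ∃ t, chk3 f_pm_133 t 1 1 1 = true :=
  ⟨(b (b (a (a (l 17075816) (l 1)) (l 1)) (l 1)) (l 1)), by decide +kernel⟩

theorem c_pm_133 : CertF 536870912 536870912 0 1230186008 402653184 67108864 false true false .dn 1 3 3
    ndF0q1 ndF2q3 pcF3 Cut.none Ext.none :=
  certF0 (fam := false) (s1 := true) (s2 := false) (a := 1) (b := 3) (c := 3) (cn := .dn) (n1 := ndF0q1) (n2 := ndF2q3) (pc := pcF3) (cut := Cut.none) (xt := Ext.none) (P1 := 536870912) (W1 := 536870912) (P2 := 0) (W2 := 1230186008) (P3 := 402653184) (W3 := 67108864)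
    rfl k0_pm_133

noncomputable def f_pm_202 : ℕ → ℕ → ℕ → ℕ → Bool := onCell 0 536870912 0 536870912 402653184 67108864
    (rowF 1 false true false .pp 2 0 2 (qsf 0 536870912 1073741824 536870912 0) ndF0q2 ndF2q2 pcF0 Cut.none Ext.none)

def k0_pm_202 : ∃ t, chk3 f_pm_202 t 2 1 1 = true :=
  ⟨(l 3), by decide +kernel⟩

def k1_pm_202 : ∃ t, chk3 f_pm_202 t 3 2 1 = true :=
  ⟨(a (a (l 3) (a (l 3) (b (b (b (a (b (a (l 3) (a (l 3) (b (b (l 129016545031) (l 124721566391)) (l 126332182983)))) (l 3)) (a (b (b (a (b (l 16655832) (l 16654312)) (l 16655200)) (a (l 16650840) (l 16652504))) (b (l 16646952) (l 16641912))) (b (l 16653824) (l 16647272)))) (a (l 3) (b (l 154786356919) (l 16625352)))) (b (a (l 3) (l 151028207783)) (l 146196278535))) (b (b (l 145122495367) (l 3)) (l 3))))) (b (b (a (b (a (a (b (l 16651264) (l 16691200)) (l 16647440)) (l 16675488)) (a (a (b (l 16641152) (l 16631096)) (l 16639384)) (l 16651128))) (a (b (b (a (l 16760040) (l 16794424)) (l 16754920)) (l 16723496))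 (b (a (b (l 16842816) (l 16806304)) (b (l 16849520) (l 16836280))) (l 16794752)))) (a (b (a (b (l 16621656) (l 16609848)) (l 16683232)) (a (l 16570416) (l 16593928))) (a (b (l 16683608) (l 16644184)) (l 16738160)))) (a (b (b (a (l 16566680) (l 16566224)) (l 94656754343)) (a (b (l 104320250919) (l 160691702887)) (l 16526328))) (b (a (l 16649080) (b (l 16685992) (l 16652112))) (a (l 16569312) (l 16621712)))))), by decide +kernel⟩

def k2_pm_202 : ∃ t, chk3 f_pm_202 t 3 3 1 = true :=
  ⟨(b (a (l 3) (a (b (a (a (b (l 225653023591) (l 3)) (b (l 16484176) (l 161765433767))) (b (l 16511840) (l 16506192))) (a (a (l 3) (b (l 162839121591) (b (l 163375884503) (l 163375992775)))) (a (b (l 16480608) (l 16489528)) (l 16601592)))) (b (a (l 16655856) (l 16592040)) (a (b (l 16539488) (l 16524040)) (b (l 16585160) (l 16572576)))))) (a (l 3) (b (a (a (a (l 3) (a (l 3) (b (b (l 162302678375) (l 162839304263)) (b (a (l 3) (b (l 151565393463) (l 16680640))) (l 3))))) (b (a (b (l 16545720) (l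 16591920)) (l 16558592)) (a (b (b (l 16644992) (a (l 16768344) (l 16646200))) (l 16741720)) (b (l 16624616) (l 16695456))))) (a (b (l 16544416) (a (l 16640696) (l 16627576))) (l 16578584))) (a (a (l 3) (b (b (l 16834216) (l 16937888)) (l 2))) (b (a (b (l 16737744) (l 16848600)) (l 16700424)) (a (l 16997504) (l 16908320))))))), by decide +kernel⟩

theorem s3_pm_202 : ∃ t, chk3 f_pm_202 t 3 1 1 = true := ex3_b k1_pm_202 k2_pm_202

theorem s4_pm_202 : ∃ t, chk3 f_pm_202 t 1 1 1 = true := ex3_a k0_pm_202 s3_pm_202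

theorem c_pm_202 : CertF 0 536870912 1073741824 536870912 402653184 67108864 false true false .pp 2 0 2
    ndF0q2 ndF2q2 pcF0 Cut.none Ext.none :=
  certF1 (fam := false) (s1 := true) (s2 := false) (a := 2) (b := 0) (c := 2) (cn := .pp) (n1 := ndF0q2) (n2 := ndF2q2) (pc := pcF0) (cut := Cut.none) (xt := Ext.none) (P1 := 0) (W1 := 536870912) (P2 := 1073741824) (W2 := 536870912) (P3 := 402653184) (W3 := 67108864)
    rfl (fun _ => rfl) s4_pm_202

noncomputable def f_pm_203 : ℕ → ℕ → ℕ → ℕ → Bool := onCell 0 536870912 0 1230186008 402653184 67108864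
    (rowF 0 false true false .up 2 0 3 (qsf 0 536870912 0 1230186008 0) ndF0q2 ndF2q3 pcF0 Cut.none Ext.none)

def k0_pm_203 : ∃ t, chk3 f_pm_203 t 1 1 1 = true :=
  ⟨(b (l 2) (b (l 2) (a (l 3) (b (l 2) (a (l 3) (a (b (a (l 3) (l 2)) (a (l 3) (b (a (l 116132184759) (l 16917624)) (a (l 16845616) (l 16857552))))) (b (l 2) (a (b (l 16932928) (l 16876672)) (l 17076712))))))))), by decide +kernel⟩

theorem c_pm_203 : CertF 0 536870912 0 1230186008 402653184 67108864 false true false .up 2 0 3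
    ndF0q2 ndF2q3 pcF0 Cut.none Ext.none :=
  certF0 (fam := false) (s1 := true) (s2 := false) (a := 2) (b := 0) (c := 3) (cn := .up) (n1 := ndF0q2) (n2 := ndF2q3) (pc := pcF0) (cut := Cut.none) (xt := Ext.none) (P1 := 0) (W1 := 536870912) (P2 := 0) (W2 := 1230186008) (P3 := 402653184) (W3 := 67108864)
    rfl k0_pm_203

noncomputable def cut_pm_213 : Cut := Cut.of [[⟨0, 1, 0, 67108864⟩, ⟨1, 1, 0, 67108864⟩, ⟨2, 2, 0, 16777216⟩]]

noncomputable def f_pm_213 : ℕ → ℕ → ℕ → ℕ → Bool := onCell 0 536870912 0 1230186008 402653184 67108864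
    (rowF 0 false true false .pnn 2 1 3 (qsf 0 536870912 0 1230186008 1) ndF0q2 ndF2q3 pcF1 cut_pm_213 Ext.none)

def k0_pm_213 : ∃ t, chk3 f_pm_213 t 1 1 1 = true :=
  ⟨(b (a (l 3) (a (l 3) (b (a (l 3) (a (l 3) (b (l 6) (a (b (l 6) (b (l 424832709159) (l 283098801911))) (b (l 6) (b (l 16801400) (l 16808976))))))) (a (l 3) (b (b (a (l 3) (a (b (l 275045753527) (l 266992706807)) (l 16822080))) (a (l 3) (b (l 251960365047) (l 247128558007)))) (a (a (l 3) (b (l 414095397959) (l 242833622423))) (b (a (l 16858496) (l 16864352)) (l 16906752)))))))) (b (a (l 3) (a (l 3) (b (a (l 3) (a (a (b (l 3) (l 257329228935)) (b (l 230485686951) (l 16929800))) (b (l 16912784) (l 16942152)))) (a (a (l 3) (b (l 3) (a (l 3) (l 204715967543)))) (a (b (a (l 214916545095) (l 16959016)) (b (l 16975048) (l 16987712))) (b (l 16973032) (l 17003224))))))) (a (l 3) (a (l 3) (b (a (a (l 3) (b (b (l 195589181191) (l 185388647239)) (a (l 3) (b (l 174651251815) (l 163913821319))))) (a (b (b (l 16999080) (l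 17008304)) (b (l 17014176) (l 17015680))) (b (l 17029976) (l 17047728)))) (a (b (a (l 3) (a (b (l 216527125991) (l 144049511623)) (b (l 16982800) (l 16965856)))) (a (l 3) (b (a (l 133312067031) (l 16934792)) (l 1)))) (b (a (b (l 17012168) (l 17001128)) (l 17050264)) (a (b (l 16978136) (l 16940920)) (l 17213104))))))))), by decide +kernel⟩

theorem c_pm_213 : CertF 0 536870912 0 1230186008 402653184 67108864 false true false .pnn 2 1 3
    ndF0q2 ndF2q3 pcF1 cut_pm_213 Ext.none :=
  certF0 (fam := false) (s1 := true) (s2 := false) (a := 2) (b := 1) (c := 3) (cn := .pnn) (n1 := ndF0q2) (n2 := ndF2q3) (pc := pcF1) (cut := cut_pm_213) (xt := Ext.none) (P1 := 0) (W1 := 536870912) (P2 := 0) (W2 := 1230186008) (P3 := 402653184) (W3 := 67108864)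
    rfl k0_pm_213

noncomputable def f_mm_001 : ℕ → ℕ → ℕ → ℕ → Bool := onCell 0 536870912 0 536870912 402653184 67108864
    (rowF 1 false false false .up 0 0 1 (qsf 0 536870912 536870912 536870912 0) ndF0q0 ndF2q1 pcF0 Cut.none Ext.none)

def k0_mm_001 : ∃ t, chk3 f_mm_001 t 1 1 1 = true :=
  ⟨(l 3), by decide +kernel⟩

theorem c_mm_001 : CertF 0 536870912 536870912 536870912 402653184 67108864 false false false .up 0 0 1
    ndF0q0 ndF2q1 pcF0 Cut.none Ext.none :=
  certF1 (fam := false) (s1 := false) (s2 := false) (a := 0) (b := 0) (c := 1) (cn := .up) (n1 := ndF0q0) (n2 := ndF2q1) (pc := pcF0) (cut := Cut.none) (xt := Ext.none) (P1 := 0) (W1 := 536870912) (P2 := 536870912) (W2 := 536870912) (P3 := 402653184) (W3 := 67108864)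
    rfl (fun _ => rfl) k0_mm_001

noncomputable def f_mm_011 : ℕ → ℕ → ℕ → ℕ → Bool := onCell 0 536870912 536870912 536870912 402653184 67108864
    (rowF 1 false false false .pnn 0 1 1 (qsf 0 536870912 536870912 536870912 1) ndF0q0 ndF2q1 pcF1 Cut.none Ext.none)

def k0_mm_011 : ∃ t, chk3 f_mm_011 t 1 1 1 = true :=
  ⟨(l 5), by decide +kernel⟩

theorem c_mm_011 : CertF 0 536870912 536870912 536870912 402653184 67108864 false false false .pnn 0 1 1
    ndF0q0 ndF2q1 pcF1 Cut.none Ext.none :=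
  certF1 (fam := false) (s1 := false) (s2 := false) (a := 0) (b := 1) (c := 1) (cn := .pnn) (n1 := ndF0q0) (n2 := ndF2q1) (pc := pcF1) (cut := Cut.none) (xt := Ext.none) (P1 := 0) (W1 := 536870912) (P2 := 536870912) (W2 := 536870912) (P3 := 402653184) (W3 := 67108864)
    rfl (fun _ => rfl) k0_mm_011

noncomputable def f_mm_012 : ℕ → ℕ → ℕ → ℕ → Bool := onCell 0 536870912 1073741824 536870912 402653184 67108864
    (rowF 0 false false false .pnp 0 1 2 (qsf 0 536870912 1073741824 536870912 1) ndF0q0 ndF2q2 pcF1 Cut.none Ext.none)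

def k0_mm_012 : ∃ t, chk3 f_mm_012 t 1 1 1 = true :=
  ⟨(l 5), by decide +kernel⟩

theorem c_mm_012 : CertF 0 536870912 1073741824 536870912 402653184 67108864 false false false .pnp 0 1 2
    ndF0q0 ndF2q2 pcF1 Cut.none Ext.none :=
  certF0 (fam := false) (s1 := false) (s2 := false) (a := 0) (b := 1) (c := 2) (cn := .pnp) (n1 := ndF0q0) (n2 := ndF2q2) (pc := pcF1) (cut := Cut.none) (xt := Ext.none) (P1 := 0) (W1 := 536870912) (P2 := 1073741824) (W2 := 536870912) (P3 := 402653184) (W3 := 67108864)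
    rfl k0_mm_012

noncomputable def f_mm_022 : ℕ → ℕ → ℕ → ℕ → Bool := onCell 0 536870912 1073741824 536870912 402653184 67108864
    (rowF 0 false false false .pp 0 2 2 (qsf 0 536870912 1073741824 536870912 2) ndF0q0 ndF2q2 pcF2 Cut.none Ext.none)

def k0_mm_022 : ∃ t, chk3 f_mm_022 t 1 1 1 = true :=
  ⟨(l 5), by decide +kernel⟩

theorem c_mm_022 : CertF 0 536870912 1073741824 536870912 402653184 67108864 false false false .pp 0 2 2
    ndF0q0 ndF2q2 pcF2 Cut.none Ext.none :=
  certF0 (fam := false) (s1 := false) (s2 := false) (a := 0) (b := 2) (c := 2) (cn := .pp) (n1 := ndF0q0) (n2 := ndF2q2) (pc := pcF2) (cut := Cut.none) (xt := Ext.none) (P1 := 0) (W1 := 536870912) (P2 := 1073741824) (W2 := 536870912) (P3 := 402653184) (W3 := 67108864)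
    rfl k0_mm_022

noncomputable def f_mm_023 : ℕ → ℕ → ℕ → ℕ → Bool := onCell 0 536870912 0 1230186008 402653184 67108864
    (rowF 0 false false false .up 0 2 3 (qsf 0 536870912 0 1230186008 2) ndF0q0 ndF2q3 pcF2 Cut.none Ext.none)

def k0_mm_023 : ∃ t, chk3 f_mm_023 t 1 1 1 = true :=
  ⟨(l 5), by decide +kernel⟩

theorem c_mm_023 : CertF 0 536870912 0 1230186008 402653184 67108864 false false false .up 0 2 3
    ndF0q0 ndF2q3 pcF2 Cut.none Ext.none :=
  certF0 (fam := false) (s1 := false) (s2 := false) (a := 0) (b := 2) (c := 3) (cn := .up) (n1 := ndF0q0) (n2 := ndF2q3) (pc := pcF2) (cut := Cut.none) (xt := Ext.none) (P1 := 0) (W1 := 536870912) (P2 := 0) (W2 := 1230186008) (P3 := 402653184) (W3 := 67108864)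
    rfl k0_mm_023

noncomputable def f_mm_033 : ℕ → ℕ → ℕ → ℕ → Bool := onCell 0 536870912 0 1230186008 402653184 67108864
    (rowF 0 false false false .pnn 0 3 3 (qsf 0 536870912 0 1230186008 3) ndF0q0 ndF2q3 pcF3 Cut.none Ext.none)

def k0_mm_033 : ∃ t, chk3 f_mm_033 t 1 1 1 = true :=
  ⟨(l 5), by decide +kernel⟩

theorem c_mm_033 : CertF 0 536870912 0 1230186008 402653184 67108864 false false false .pnn 0 3 3
    ndF0q0 ndF2q3 pcF3 Cut.none Ext.none :=
  certF0 (fam := false) (s1 := false) (s2 := false) (a := 0) (b := 3) (c := 3) (cn := .pnn) (n1 := ndF0q0) (n2 := ndF2q3) (pc := pcF3) (cut := Cut.none) (xt := Ext.none) (P1 := 0) (W1 := 536870912) (P2 := 0) (W2 := 1230186008) (P3 := 402653184) (W3 := 67108864)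
    rfl k0_mm_033

noncomputable def cut_mm_101 : Cut := Cut.of [[⟨0, 1, 0, 67108864⟩, ⟨1, 0, 0, 67108864⟩, ⟨2, 1, 0, 67108864⟩]]

noncomputable def f_mm_101 : ℕ → ℕ → ℕ → ℕ → Bool := onCell 536870912 536870912 0 536870912 402653184 67108864
    (rowF 1 false false false .npn 1 0 1 (qsf 536870912 536870912 536870912 536870912 0) ndF0q1 ndF2q1 pcF0 cut_mm_101 Ext.none)

def k0_mm_101 : ∃ t, chk3 f_mm_101 t 1 1 1 = true :=
  ⟨(a (l 3) (a (l 3) (b (b (a (l 3) (b (a (l 3) (b (l 6) (l 3))) (l 3))) (l 3)) (l 2)))), by decide +kernel⟩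

theorem c_mm_101 : CertF 536870912 536870912 536870912 536870912 402653184 67108864 false false false .npn 1 0 1
    ndF0q1 ndF2q1 pcF0 cut_mm_101 Ext.none :=
  certF1 (fam := false) (s1 := false) (s2 := false) (a := 1) (b := 0) (c := 1) (cn := .npn) (n1 := ndF0q1) (n2 := ndF2q1) (pc := pcF0) (cut := cut_mm_101) (xt := Ext.none) (P1 := 536870912) (W1 := 536870912) (P2 := 536870912) (W2 := 536870912) (P3 := 402653184) (W3 := 67108864)
    rfl (fun _ => rfl) k0_mm_101

noncomputable def f_mm_102 : ℕ → ℕ → ℕ → ℕ → Bool := onCell 536870912 536870912 0 536870912 402653184 67108864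
    (rowF 1 false false false .npp 1 0 2 (qsf 536870912 536870912 1073741824 536870912 0) ndF0q1 ndF2q2 pcF0 Cut.none Ext.none)

def k0_mm_102 : ∃ t, chk3 f_mm_102 t 1 1 1 = true :=
  ⟨(l 3), by decide +kernel⟩

theorem c_mm_102 : CertF 536870912 536870912 1073741824 536870912 402653184 67108864 false false false .npp 1 0 2
    ndF0q1 ndF2q2 pcF0 Cut.none Ext.none :=
  certF1 (fam := false) (s1 := false) (s2 := false) (a := 1) (b := 0) (c := 2) (cn := .npp) (n1 := ndF0q1) (n2 := ndF2q2) (pc := pcF0) (cut := Cut.none) (xt := Ext.none) (P1 := 536870912) (W1 := 536870912) (P2 := 1073741824) (W2 := 536870912) (P3 := 402653184) (W3 := 67108864)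
    rfl (fun _ => rfl) k0_mm_102

noncomputable def f_mm_112 : ℕ → ℕ → ℕ → ℕ → Bool := onCell 536870912 536870912 1073741824 536870912 402653184 67108864
    (rowF 2 false false false .dn 1 1 2 (qsf 536870912 536870912 1073741824 536870912 1) ndF0q1 ndF2q2 pcF1 Cut.none Ext.none)

def k0_mm_112 : ∃ t, chk3 f_mm_112 t 1 1 1 = true :=
  ⟨(l 5), by decide +kernel⟩

theorem c_mm_112 : CertF 536870912 536870912 1073741824 536870912 402653184 67108864 false false false .dn 1 1 2
    ndF0q1 ndF2q2 pcF1 Cut.none Ext.none :=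
  certF2 (fam := false) (s1 := false) (s2 := false) (a := 1) (b := 1) (c := 2) (cn := .dn) (n1 := ndF0q1) (n2 := ndF2q2) (pc := pcF1) (cut := Cut.none) (xt := Ext.none) (P1 := 536870912) (W1 := 536870912) (P2 := 1073741824) (W2 := 536870912) (P3 := 402653184) (W3 := 67108864)
    rfl (fun _ => rfl) k0_mm_112

noncomputable def f_mm_113 : ℕ → ℕ → ℕ → ℕ → Bool := onCell 536870912 536870912 0 1230186008 402653184 67108864
    (rowF 0 false false false .nn 1 1 3 (qsf 536870912 536870912 0 1230186008 1) ndF0q1 ndF2q3 pcF1 Cut.none Ext.none)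

def k0_mm_113 : ∃ t, chk3 f_mm_113 t 1 1 1 = true :=
  ⟨(b (l 5) (l 5)), by decide +kernel⟩

theorem c_mm_113 : CertF 536870912 536870912 0 1230186008 402653184 67108864 false false false .nn 1 1 3
    ndF0q1 ndF2q3 pcF1 Cut.none Ext.none :=
  certF0 (fam := false) (s1 := false) (s2 := false) (a := 1) (b := 1) (c := 3) (cn := .nn) (n1 := ndF0q1) (n2 := ndF2q3) (pc := pcF1) (cut := Cut.none) (xt := Ext.none) (P1 := 536870912) (W1 := 536870912) (P2 := 0) (W2 := 1230186008) (P3 := 402653184) (W3 := 67108864)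
    rfl k0_mm_113

noncomputable def f_mm_123 : ℕ → ℕ → ℕ → ℕ → Bool := onCell 536870912 536870912 0 1230186008 402653184 67108864
    (rowF 0 false false false .npn 1 2 3 (qsf 536870912 536870912 0 1230186008 2) ndF0q1 ndF2q3 pcF2 Cut.none Ext.none)

def k0_mm_123 : ∃ t, chk3 f_mm_123 t 1 1 1 = true :=
  ⟨(b (l 5) (l 5)), by decide +kernel⟩

theorem c_mm_123 : CertF 536870912 536870912 0 1230186008 402653184 67108864 false false false .npn 1 2 3
    ndF0q1 ndF2q3 pcF2 Cut.none Ext.none :=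
  certF0 (fam := false) (s1 := false) (s2 := false) (a := 1) (b := 2) (c := 3) (cn := .npn) (n1 := ndF0q1) (n2 := ndF2q3) (pc := pcF2) (cut := Cut.none) (xt := Ext.none) (P1 := 536870912) (W1 := 536870912) (P2 := 0) (W2 := 1230186008) (P3 := 402653184) (W3 := 67108864)
    rfl k0_mm_123

noncomputable def f_mm_133 : ℕ → ℕ → ℕ → ℕ → Bool := onCell 1610612736 536870912 0 1230186008 402653184 67108864
    (rowF 2 false false false .dn 1 3 3 (qsf 536870912 536870912 0 1230186008 3) ndF0q1 ndF2q3 pcF3 Cut.none Ext.none)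

def k0_mm_133 : ∃ t, chk3 f_mm_133 t 1 1 1 = true :=
  ⟨(l 5), by decide +kernel⟩

theorem c_mm_133 : CertF 536870912 536870912 0 1230186008 402653184 67108864 false false false .dn 1 3 3
    ndF0q1 ndF2q3 pcF3 Cut.none Ext.none :=
  certF2 (fam := false) (s1 := false) (s2 := false) (a := 1) (b := 3) (c := 3) (cn := .dn) (n1 := ndF0q1) (n2 := ndF2q3) (pc := pcF3) (cut := Cut.none) (xt := Ext.none) (P1 := 536870912) (W1 := 536870912) (P2 := 0) (W2 := 1230186008) (P3 := 402653184) (W3 := 67108864)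
    rfl (fun _ => rfl) k0_mm_133

noncomputable def f_mm_202 : ℕ → ℕ → ℕ → ℕ → Bool := onCell 0 536870912 1073741824 536870912 402653184 67108864
    (rowF 0 false false false .pp 2 0 2 (qsf 0 536870912 1073741824 536870912 0) ndF0q2 ndF2q2 pcF0 Cut.none Ext.none)

def k0_mm_202 : ∃ t, chk3 f_mm_202 t 1 1 1 = true :=
  ⟨(l 3), by decide +kernel⟩

theorem c_mm_202 : CertF 0 536870912 1073741824 536870912 402653184 67108864 false false false .pp 2 0 2
    ndF0q2 ndF2q2 pcF0 Cut.none Ext.none :=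
  certF0 (fam := false) (s1 := false) (s2 := false) (a := 2) (b := 0) (c := 2) (cn := .pp) (n1 := ndF0q2) (n2 := ndF2q2) (pc := pcF0) (cut := Cut.none) (xt := Ext.none) (P1 := 0) (W1 := 536870912) (P2 := 1073741824) (W2 := 536870912) (P3 := 402653184) (W3 := 67108864)
    rfl k0_mm_202

noncomputable def f_mm_203 : ℕ → ℕ → ℕ → ℕ → Bool := onCell 0 536870912 0 1230186008 402653184 67108864
    (rowF 0 false false false .up 2 0 3 (qsf 0 536870912 0 1230186008 0) ndF0q2 ndF2q3 pcF0 Cut.none Ext.none)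

def k0_mm_203 : ∃ t, chk3 f_mm_203 t 1 1 1 = true :=
  ⟨(b (l 2) (l 3)), by decide +kernel⟩

theorem c_mm_203 : CertF 0 536870912 0 1230186008 402653184 67108864 false false false .up 2 0 3
    ndF0q2 ndF2q3 pcF0 Cut.none Ext.none :=
  certF0 (fam := false) (s1 := false) (s2 := false) (a := 2) (b := 0) (c := 3) (cn := .up) (n1 := ndF0q2) (n2 := ndF2q3) (pc := pcF0) (cut := Cut.none) (xt := Ext.none) (P1 := 0) (W1 := 536870912) (P2 := 0) (W2 := 1230186008) (P3 := 402653184) (W3 := 67108864)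
    rfl k0_mm_203

noncomputable def f_mm_213 : ℕ → ℕ → ℕ → ℕ → Bool := onCell 0 536870912 0 1230186008 402653184 67108864
    (rowF 0 false false false .pnn 2 1 3 (qsf 0 536870912 0 1230186008 1) ndF0q2 ndF2q3 pcF1 Cut.none Ext.none)

def k0_mm_213 : ∃ t, chk3 f_mm_213 t 1 1 1 = true :=
  ⟨(b (a (l 3) (l 5)) (l 3)), by decide +kernel⟩

theorem c_mm_213 : CertF 0 536870912 0 1230186008 402653184 67108864 false false false .pnn 2 1 3
    ndF0q2 ndF2q3 pcF1 Cut.none Ext.none :=
  certF0 (fam := false) (s1 := false) (s2 := false) (a := 2) (b := 1) (c := 3) (cn := .pnn) (n1 := ndF0q2) (n2 := ndF2q3) (pc := pcF1) (cut := Cut.none) (xt := Ext.none) (P1 := 0) (W1 := 536870912) (P2 := 0) (W2 := 1230186008) (P3 := 402653184) (W3 := 67108864)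
    rfl k0_mm_213

end Pool.Agent.Strip051.G.I3_8_7_16.Tab.C.FB02

namespace Pool.Agent.Strip051.G.I3_8_7_16.Tab.C.FB03

open Pool.Agent.Strip051.PB Pool.Agent.Strip051.PB.T
open Pool.Agent.Strip051.G.I3_8_7_16.Tab

noncomputable def f_pp_001 : ℕ → ℕ → ℕ → ℕ → Bool := onCell 0 536870912 0 536870912 402653184 67108864
    (rowF 1 false true true .up 0 0 1 (qsf 0 536870912 536870912 536870912 0) ndF0q0 ndF3q1 pcF0 Cut.none Ext.none)

def k0_pp_001 : ∃ t, chk3 f_pp_001 t 1 1 1 = true :=
  ⟨(l 3), by decide +kernel⟩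

theorem c_pp_001 : CertF 0 536870912 536870912 536870912 402653184 67108864 false true true .up 0 0 1
    ndF0q0 ndF3q1 pcF0 Cut.none Ext.none :=
  certF1 (fam := false) (s1 := true) (s2 := true) (a := 0) (b := 0) (c := 1) (cn := .up) (n1 := ndF0q0) (n2 := ndF3q1) (pc := pcF0) (cut := Cut.none) (xt := Ext.none) (P1 := 0) (W1 := 536870912) (P2 := 536870912) (W2 := 536870912) (P3 := 402653184) (W3 := 67108864)
    rfl (fun _ => rfl) k0_pp_001

noncomputable def cut_pp_011 : Cut := Cut.of [[⟨0, 0, 0, 67108864⟩, ⟨1, 1, 0, 67108864⟩, ⟨2, 1, 0, 67108864⟩]]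

noncomputable def f_pp_011 : ℕ → ℕ → ℕ → ℕ → Bool := onCell 0 536870912 536870912 536870912 402653184 67108864
    (rowF 1 false true true .pnn 0 1 1 (qsf 0 536870912 536870912 536870912 1) ndF0q0 ndF3q1 pcF1 cut_pp_011 Ext.none)

def k0_pp_011 : ∃ t, chk3 f_pp_011 t 1 1 1 = true :=
  ⟨(b (l 3) (a (b (l 3) (a (b (l 3) (a (b (l 3) (a (l 6) (l 3))) (l 3))) (l 3))) (l 3))), by decide +kernel⟩

theorem c_pp_011 : CertF 0 536870912 536870912 536870912 402653184 67108864 false true true .pnn 0 1 1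
    ndF0q0 ndF3q1 pcF1 cut_pp_011 Ext.none :=
  certF1 (fam := false) (s1 := true) (s2 := true) (a := 0) (b := 1) (c := 1) (cn := .pnn) (n1 := ndF0q0) (n2 := ndF3q1) (pc := pcF1) (cut := cut_pp_011) (xt := Ext.none) (P1 := 0) (W1 := 536870912) (P2 := 536870912) (W2 := 536870912) (P3 := 402653184) (W3 := 67108864)
    rfl (fun _ => rfl) k0_pp_011

noncomputable def f_pp_012 : ℕ → ℕ → ℕ → ℕ → Bool := onCell 0 536870912 536870912 536870912 402653184 67108864
    (rowF 1 false true true .pnp 0 1 2 (qsf 0 536870912 1073741824 536870912 1) ndF0q0 ndF3q2 pcF1 Cut.none Ext.none)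

def k0_pp_012 : ∃ t, chk3 f_pp_012 t 1 1 1 = true :=
  ⟨(l 3), by decide +kernel⟩

theorem c_pp_012 : CertF 0 536870912 1073741824 536870912 402653184 67108864 false true true .pnp 0 1 2
    ndF0q0 ndF3q2 pcF1 Cut.none Ext.none :=
  certF1 (fam := false) (s1 := true) (s2 := true) (a := 0) (b := 1) (c := 2) (cn := .pnp) (n1 := ndF0q0) (n2 := ndF3q2) (pc := pcF1) (cut := Cut.none) (xt := Ext.none) (P1 := 0) (W1 := 536870912) (P2 := 1073741824) (W2 := 536870912) (P3 := 402653184) (W3 := 67108864)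
    rfl (fun _ => rfl) k0_pp_012

noncomputable def f_pp_022 : ℕ → ℕ → ℕ → ℕ → Bool := onCell 0 536870912 1073741824 536870912 402653184 67108864
    (rowF 1 false true true .pp 0 2 2 (qsf 0 536870912 1073741824 536870912 2) ndF0q0 ndF3q2 pcF2 Cut.none Ext.none)

def k0_pp_022 : ∃ t, chk3 f_pp_022 t 2 1 1 = true :=
  ⟨(b (b (l 3) (b (b (b (l 3) (b (a (l 3) (a (a (l 3) (l 16742448)) (b (l 16884672) (l 16849872)))) (a (b (a (a (l 3) (l 16525208)) (a (l 16579440) (l 16632960))) (b (a (a (l 16466464) (l 16521080)) (a (l 16575736) (l 16629600))) (a (a (l 16463928) (l 16518840)) (l 16600640)))) (b (a (a (l 16685280) (l 16736824)) (a (l 16788776) (l 16841968))) (b (a (a (l 16682192) (l 16733944)) (a (l 16786048) (l 16839344))) (a (l 16706232) (l 16810624))))))) (a (a (a (l 16443944) (l 16501072)) (a (l 16557624) (l 16612880))) (a (a (l 16666432) (l 16718816)) (a (l 16771280) (l 16824712))))) (a (a (a (b (l 16450184) (l 16374616)) (l 16453520)) (a (l 16513904) (l 16571864))) (a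 (a (l 16627176) (l 16680560)) (a (l 16733448) (l 16786832)))))) (b (a (a (b (a (l 16327104) (l 16394336)) (a (l 16267368) (l 16337520))) (b (a (l 16458104) (l 16518200)) (a (l 16402984) (l 16463760)))) (b (a (a (l 16574600) (l 16628216)) (l 16705768)) (a (a (l 16519032) (l 16622112)) (b (l 16759536) (l 2))))) (b (a (a (a (l 16209424) (l 16281424)) (b (l 16388512) (l 16506552))) (a (b (l 16681032) (l 2)) (l 2))) (a (a (a (a (l 16190752) (l 16307128)) (l 16310464)) (b (l 16629232) (l 2))) (l 2))))), by decide +kernel⟩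

def k1_pp_022 : ∃ t, chk3 f_pp_022 t 3 1 1 = true :=
  ⟨(b (b (b (l 3) (a (l 3) (b (l 3) (a (l 3) (l 2))))) (b (b (b (b (a (l 3) (a (a (l 3) (l 2)) (l 2))) (a (a (a (l 3) (l 144049542247)) (b (a (l 3) (a (l 3) (a (l 156397871991) (l 160692874535)))) (a (l 160155774247) (c (l 17128776) (l 17064392))))) (l 2))) (a (b (a (b (a (l 16904160) (l 16962696)) (a (l 16900816) (l 16959288))) (b (a (l 17025536) (l 17092744)) (a (l 17022032) (l 17089080)))) (b (a (a (l 16897344) (l 16955816)) (a (l 17018488) (l 17085400))) (b (a (l 16923232) (l 17048424)) (a (l 16921680) (l 17046776))))) (l 2))) (a (a (l 16908336) (l 17032592)) (l 2))) (a (a (l 16869464) (l 16986616)) (l 2)))) (b (a (b (a (l 16868880) (l 2)) (l 2)) (l 2)) (l 2))), by decide +kernel⟩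

theorem s2_pp_022 : ∃ t, chk3 f_pp_022 t 1 1 1 = true := ex3_a k0_pp_022 k1_pp_022

theorem c_pp_022 : CertF 0 536870912 1073741824 536870912 402653184 67108864 false true true .pp 0 2 2
    ndF0q0 ndF3q2 pcF2 Cut.none Ext.none :=
  certF1 (fam := false) (s1 := true) (s2 := true) (a := 0) (b := 2) (c := 2) (cn := .pp) (n1 := ndF0q0) (n2 := ndF3q2) (pc := pcF2) (cut := Cut.none) (xt := Ext.none) (P1 := 0) (W1 := 536870912) (P2 := 1073741824) (W2 := 536870912) (P3 := 402653184) (W3 := 67108864)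
    rfl (fun _ => rfl) s2_pp_022

noncomputable def f_pp_023 : ℕ → ℕ → ℕ → ℕ → Bool := onCell 1073741824 536870912 0 1230186008 402653184 67108864
    (rowF 2 false true true .up 0 2 3 (qsf 0 536870912 0 1230186008 2) ndF0q0 ndF3q3 pcF2 Cut.none Ext.none)

def k0_pp_023 : ∃ t, chk3 f_pp_023 t 1 1 1 = true :=
  ⟨(b (a (l 2) (a (l 2) (b (a (l 2) (l 17228936)) (a (l 16965600) (a (l 16960528) (l 16999768)))))) (b (a (a (l 2) (a (l 2) (b (l 2) (b (l 2) (l 17007104))))) (a (b (a (l 2) (l 16892664)) (a (b (l 16889424) (l 16900600)) (b (l 16907040) (l 16913984)))) (a (b (l 16956376) (l 16932688)) (b (a (l 16934072) (l 16970888)) (l 17090680))))) (a (a (a (l 3) (b (l 2) (a (l 3) (b (a (l 3) (b (l 122037979047) (l 3))) (l 3))))) (a (a (a (b (b (l 2) (b (l 2) (l 386111135895))) (b (b (a (l 16997744) (l 16986144)) (l 16959392)) (b (l 16952712) (a (l 3) (l 16891672))))) (b (b (l 2) (a (b (l 2) (l 16979152)) (a (l 16972272) (a (l 16969304) (l 16966960))))) (a (b (l 16948792) (b (l 16929528)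 (l 16853000))) (a (b (l 16961392) (b (l 16918504) (l 16861296))) (b (a (l 16957328) (l 16954672)) (a (b (l 16913184) (l 16855168)) (l 16883320))))))) (b (b (l 16833712) (l 16888936)) (b (l 16848096) (b (l 16882416) (l 16819560))))) (b (b (a (l 16923096) (l 16911872)) (a (l 16926528) (l 16908544))) (b (b (l 16897440) (l 16867872)) (b (a (l 16838088) (l 16803968)) (a (l 16769632) (l 16729488))))))) (a (b (a (b (l 16905256) (l 16892696)) (b (l 16912216) (l 16890336))) (b (a (b (l 16861608) (l 16823848)) (b (l 16849776) (l 16804056))) (a (b (l 16766696) (a (l 16697528) (l 16671608))) (b (l 16737152) (a (l 16650672) (l 16634416)))))) (a (b (b (l 16929576) (l 16901776)) (b (l 16829832) (b (l 16726536) (a (l 16623344) (l 16618240))))) (b (b (l 16958072) (l 16924768)) (b (b (l 16871560) (l 16814424)) (b (l 16733024) (a (l 16619872) (l 16619160)))))))))), by decide +kernel⟩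

theorem c_pp_023 : CertF 0 536870912 0 1230186008 402653184 67108864 false true true .up 0 2 3
    ndF0q0 ndF3q3 pcF2 Cut.none Ext.none :=
  certF2 (fam := false) (s1 := true) (s2 := true) (a := 0) (b := 2) (c := 3) (cn := .up) (n1 := ndF0q0) (n2 := ndF3q3) (pc := pcF2) (cut := Cut.none) (xt := Ext.none) (P1 := 0) (W1 := 536870912) (P2 := 0) (W2 := 1230186008) (P3 := 402653184) (W3 := 67108864)
    rfl (fun _ => rfl) k0_pp_023

noncomputable def f_pp_033 : ℕ → ℕ → ℕ → ℕ → Bool := onCell 1610612736 536870912 0 1230186008 402653184 67108864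
    (rowF 2 false true true .pnn 0 3 3 (qsf 0 536870912 0 1230186008 3) ndF0q0 ndF3q3 pcF3 Cut.none Ext.none)

def k0_pp_033 : ∃ t, chk3 f_pp_033 t 1 1 1 = true :=
  ⟨(a (b (a (b (a (l 16988064) (l 16998096)) (a (l 17106424) (b (l 17025376) (l 17038744)))) (b (a (l 16997200) (l 16994368)) (a (l 17039248) (l 17045448)))) (b (a (b (l 17144688) (a (l 17006608) (l 17041568))) (b (a (l 17074208) (l 17098384)) (a (l 17078864) (l 17118304)))) (b (a (b (l 17010520) (a (l 16949288) (l 16983976))) (a (b (l 17073216) (l 17035752)) (l 356517025831))) (a (b (a (l 16842808) (l 16872528)) (a (b (l 16691720) (b (l 16581328) (l 16491544))) (l 266321062775))) (b (a (l 16930688) (l 1)) (l 1)))))) (a (b (b (a (l 17019192) (l 4)) (a (l 17053352) (l 17068920))) (b (a (b (l 17116280) (l 17164592)) (b (l 17151160) (l 17228152))) (l 1))) (b (b (l 4) (l 4)) (a (b (b (l 17199440) (l 1)) (l 1)) (l 1))))), by decide +kernel⟩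

theorem c_pp_033 : CertF 0 536870912 0 1230186008 402653184 67108864 false true true .pnn 0 3 3
    ndF0q0 ndF3q3 pcF3 Cut.none Ext.none :=
  certF2 (fam := false) (s1 := true) (s2 := true) (a := 0) (b := 3) (c := 3) (cn := .pnn) (n1 := ndF0q0) (n2 := ndF3q3) (pc := pcF3) (cut := Cut.none) (xt := Ext.none) (P1 := 0) (W1 := 536870912) (P2 := 0) (W2 := 1230186008) (P3 := 402653184) (W3 := 67108864)
    rfl (fun _ => rfl) k0_pp_033

noncomputable def f_pp_101 : ℕ → ℕ → ℕ → ℕ → Bool := onCell 536870912 536870912 536870912 536870912 402653184 67108864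
    (rowF 0 false true true .npn 1 0 1 (qsf 536870912 536870912 536870912 536870912 0) ndF0q1 ndF3q1 pcF0 Cut.none Ext.none)

def k0_pp_101 : ∃ t, chk3 f_pp_101 t 1 1 1 = true :=
  ⟨(a (l 3) (l 5)), by decide +kernel⟩

theorem c_pp_101 : CertF 536870912 536870912 536870912 536870912 402653184 67108864 false true true .npn 1 0 1
    ndF0q1 ndF3q1 pcF0 Cut.none Ext.none :=
  certF0 (fam := false) (s1 := true) (s2 := true) (a := 1) (b := 0) (c := 1) (cn := .npn) (n1 := ndF0q1) (n2 := ndF3q1) (pc := pcF0) (cut := Cut.none) (xt := Ext.none) (P1 := 536870912) (W1 := 536870912) (P2 := 536870912) (W2 := 536870912) (P3 := 402653184) (W3 := 67108864)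
    rfl k0_pp_101

noncomputable def f_pp_102 : ℕ → ℕ → ℕ → ℕ → Bool := onCell 536870912 536870912 1073741824 536870912 402653184 67108864
    (rowF 0 false true true .npp 1 0 2 (qsf 536870912 536870912 1073741824 536870912 0) ndF0q1 ndF3q2 pcF0 Cut.none Ext.none)

def k0_pp_102 : ∃ t, chk3 f_pp_102 t 1 1 1 = true :=
  ⟨(l 3), by decide +kernel⟩

theorem c_pp_102 : CertF 536870912 536870912 1073741824 536870912 402653184 67108864 false true true .npp 1 0 2
    ndF0q1 ndF3q2 pcF0 Cut.none Ext.none :=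
  certF0 (fam := false) (s1 := true) (s2 := true) (a := 1) (b := 0) (c := 2) (cn := .npp) (n1 := ndF0q1) (n2 := ndF3q2) (pc := pcF0) (cut := Cut.none) (xt := Ext.none) (P1 := 536870912) (W1 := 536870912) (P2 := 1073741824) (W2 := 536870912) (P3 := 402653184) (W3 := 67108864)
    rfl k0_pp_102

noncomputable def f_pp_112 : ℕ → ℕ → ℕ → ℕ → Bool := onCell 536870912 536870912 1073741824 536870912 402653184 67108864
    (rowF 0 false true true .dn 1 1 2 (qsf 536870912 536870912 1073741824 536870912 1) ndF0q1 ndF3q2 pcF1 Cut.none Ext.none)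

def k0_pp_112 : ∃ t, chk3 f_pp_112 t 1 1 1 = true :=
  ⟨(l 3), by decide +kernel⟩

theorem c_pp_112 : CertF 536870912 536870912 1073741824 536870912 402653184 67108864 false true true .dn 1 1 2
    ndF0q1 ndF3q2 pcF1 Cut.none Ext.none :=
  certF0 (fam := false) (s1 := true) (s2 := true) (a := 1) (b := 1) (c := 2) (cn := .dn) (n1 := ndF0q1) (n2 := ndF3q2) (pc := pcF1) (cut := Cut.none) (xt := Ext.none) (P1 := 536870912) (W1 := 536870912) (P2 := 1073741824) (W2 := 536870912) (P3 := 402653184) (W3 := 67108864)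
    rfl k0_pp_112

noncomputable def cut_pp_113 : Cut := Cut.of [[⟨0, 1, 0, 67108864⟩, ⟨1, 1, 0, 67108864⟩, ⟨2, 2, 0, 16777216⟩]]

noncomputable def f_pp_113 : ℕ → ℕ → ℕ → ℕ → Bool := onCell 536870912 536870912 0 1230186008 402653184 67108864
    (rowF 2 false true true .nn 1 1 3 (qsf 536870912 536870912 0 1230186008 1) ndF0q1 ndF3q3 pcF1 cut_pp_113 Ext.none)

def k0_pp_113 : ∃ t, chk3 f_pp_113 t 1 1 1 = true :=
  ⟨(b (a (l 2) (a (l 2) (b (a (l 2) (a (l 2) (b (l 6) (l 3)))) (l 3)))) (a (b (l 3) (a (b (l 2) (l 3)) (l 3))) (b (l 3) (l 3)))), by decide +kernel⟩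

theorem c_pp_113 : CertF 536870912 536870912 0 1230186008 402653184 67108864 false true true .nn 1 1 3
    ndF0q1 ndF3q3 pcF1 cut_pp_113 Ext.none :=
  certF2 (fam := false) (s1 := true) (s2 := true) (a := 1) (b := 1) (c := 3) (cn := .nn) (n1 := ndF0q1) (n2 := ndF3q3) (pc := pcF1) (cut := cut_pp_113) (xt := Ext.none) (P1 := 536870912) (W1 := 536870912) (P2 := 0) (W2 := 1230186008) (P3 := 402653184) (W3 := 67108864)
    rfl (fun _ => rfl) k0_pp_113

noncomputable def cut_pp_123 : Cut := Cut.of [[⟨0, 1, 0, 67108864⟩, ⟨1, 1, 0, 67108864⟩, ⟨2, 2, 0, 16777216⟩]]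

noncomputable def f_pp_123 : ℕ → ℕ → ℕ → ℕ → Bool := onCell 1073741824 536870912 0 1230186008 402653184 67108864
    (rowF 2 false true true .npn 1 2 3 (qsf 536870912 536870912 0 1230186008 2) ndF0q1 ndF3q3 pcF2 cut_pp_123 Ext.none)

def k0_pp_123 : ∃ t, chk3 f_pp_123 t 1 2 1 = true :=
  ⟨(b (a (a (a (a (b (l 6) (b (l 6) (l 3))) (b (b (l 16789472) (l 16787896)) (a (b (l 6) (a (b (a (b (l 223506099255) (l 3)) (b (l 16791832) (l 227801071111))) (a (l 3) (b (l 215989914023) (l 3)))) (b (a (l 16793160) (l 16793592)) (a (l 193978220311) (l 16796952))))) (b (l 16791208) (a (b (l 16794320) (l 16797376)) (l 16797248)))))) (a (b (l 16795152) (l 16796808)) (l 16862472))) (a (a (l 16932968) (l 16813320)) (l 16835400))) (a (a (l 16878848) (l 16933184)) (a (b (l 16999640) (l 16969520)) (b (l 17024096) (l 17022352))))) (a (a (a (a (l 3) (b (a (b (a (l 3) (b (a (l 189683249351) (l 157470996199)) (l 3))) (l 3)) (b (a (b (l 16811712) (l 194515103015)) (b (l 16801592) (l 16805904))) (a (b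 (l 228338035815) (l 3)) (a (l 152102353271) (l 154249817255))))) (a (l 3) (b (a (l 3) (b (l 225116773303) (l 3))) (l 3))))) (a (b (a (b (l 16826176) (a (l 16813840) (l 16814288))) (b (l 16805832) (l 16815200))) (a (b (a (a (l 153713022935) (l 16852344)) (l 16826400)) (a (b (l 249812867143) (l 3)) (a (l 134922596327) (l 16884056)))) (b (l 16826976) (a (l 16842304) (l 16842528))))) (b (l 16810688) (a (b (l 16827424) (l 16842648)) (l 16834320))))) (a (a (b (l 16811416) (a (l 16832240) (l 16828928))) (l 17051048)) (b (l 16824880) (l 16836872)))) (a (a (b (l 16851760) (l 16854656)) (b (l 16889416) (l 16880928))) (a (b (l 16937304) (l 16910848)) (b (l 16994904) (l 16967784)))))), by decide +kernel⟩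

def k1_pp_123 : ∃ t, chk3 f_pp_123 t 1 3 1 = true :=
  ⟨(b (a (a (a (l 3) (b (b (a (a (l 3) (b (l 213305771447) (l 228875055543))) (a (l 16861800) (l 16860840))) (a (a (l 3) (a (l 3) (l 211158319271))) (a (a (l 16906968) (l 16885048)) (l 16883576)))) (a (l 3) (a (b (b (l 191294161335) (a (l 200957859303) (l 16921696))) (a (l 3) (b (l 195052297287) (l 203105403623)))) (b (l 16953000) (a (b (l 16935952) (l 16952824)) (l 16941320))))))) (a (a (a (b (b (l 16858064) (l 16901720)) (b (l 16906848) (l 16957408))) (b (l 16884504) (a (b (l 16902784) (l 16931088)) (a (l 16935352) (l 16910864))))) (b (l 16858632) (b (l 16890592) (l 16915288)))) (b (b (l 16852520) (l 16866744)) (b (l 16884240) (a (l 16905792) (l 16900328)))))) (a (b (a (l 16872336) (l 16934712)) (a (b (l 16889440) (l 16900656)) (b (l 16907272) (l 1)))) (a (b (l 17019944) (l 1)) (l 1)))) (a (a (a (l 3) (a (l 3) (b (b (a (l 3) (b (a (l 16970136) (l 16965632)) (l 160692587031))) (a (l 3) (b (l 154787000423) (l 139754659367))))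 (b (a (l 3) (b (l 122037984679) (l 1))) (l 1))))) (a (a (a (a (b (b (b (l 16961080) (l 16976360)) (l 17014472)) (b (b (l 16997696) (l 1)) (l 1))) (b (b (l 16963992) (l 16922544)) (b (l 1) (l 1)))) (b (a (b (l 16959408) (l 16956632)) (a (b (l 16955560) (l 16972232)) (a (b (l 16952808) (l 16969264)) (b (l 16950144) (l 16966912))))) (l 1))) (b (b (b (l 16933736) (l 16943344)) (b (l 16949904) (l 16950608))) (l 1))) (b (b (a (l 16923064) (l 16911824)) (l 1)) (l 1)))) (l 1))), by decide +kernel⟩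

theorem s2_pp_123 : ∃ t, chk3 f_pp_123 t 1 1 1 = true := ex3_b k0_pp_123 k1_pp_123

theorem c_pp_123 : CertF 536870912 536870912 0 1230186008 402653184 67108864 false true true .npn 1 2 3
    ndF0q1 ndF3q3 pcF2 cut_pp_123 Ext.none :=
  certF2 (fam := false) (s1 := true) (s2 := true) (a := 1) (b := 2) (c := 3) (cn := .npn) (n1 := ndF0q1) (n2 := ndF3q3) (pc := pcF2) (cut := cut_pp_123) (xt := Ext.none) (P1 := 536870912) (W1 := 536870912) (P2 := 0) (W2 := 1230186008) (P3 := 402653184) (W3 := 67108864)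
    rfl (fun _ => rfl) s2_pp_123

noncomputable def f_pp_133 : ℕ → ℕ → ℕ → ℕ → Bool := onCell 536870912 536870912 0 1230186008 402653184 67108864
    (rowF 0 false true true .dn 1 3 3 (qsf 536870912 536870912 0 1230186008 3) ndF0q1 ndF3q3 pcF3 Cut.none Ext.none)

def k0_pp_133 : ∃ t, chk3 f_pp_133 t 1 1 1 = true :=
  ⟨(b (b (a (a (a (l 17177584) (l 1)) (l 1)) (l 1)) (l 1)) (l 1)), by decide +kernel⟩

theorem c_pp_133 : CertF 536870912 536870912 0 1230186008 402653184 67108864 false true true .dn 1 3 3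
    ndF0q1 ndF3q3 pcF3 Cut.none Ext.none :=
  certF0 (fam := false) (s1 := true) (s2 := true) (a := 1) (b := 3) (c := 3) (cn := .dn) (n1 := ndF0q1) (n2 := ndF3q3) (pc := pcF3) (cut := Cut.none) (xt := Ext.none) (P1 := 536870912) (W1 := 536870912) (P2 := 0) (W2 := 1230186008) (P3 := 402653184) (W3 := 67108864)
    rfl k0_pp_133

noncomputable def f_pp_202 : ℕ → ℕ → ℕ → ℕ → Bool := onCell 0 536870912 1073741824 536870912 402653184 67108864
    (rowF 0 false true true .pp 2 0 2 (qsf 0 536870912 1073741824 536870912 0) ndF0q2 ndF3q2 pcF0 Cut.none Ext.none)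

def k0_pp_202 : ∃ t, chk3 f_pp_202 t 1 1 1 = true :=
  ⟨(a (l 5) (l 3)), by decide +kernel⟩

theorem c_pp_202 : CertF 0 536870912 1073741824 536870912 402653184 67108864 false true true .pp 2 0 2
    ndF0q2 ndF3q2 pcF0 Cut.none Ext.none :=
  certF0 (fam := false) (s1 := true) (s2 := true) (a := 2) (b := 0) (c := 2) (cn := .pp) (n1 := ndF0q2) (n2 := ndF3q2) (pc := pcF0) (cut := Cut.none) (xt := Ext.none) (P1 := 0) (W1 := 536870912) (P2 := 1073741824) (W2 := 536870912) (P3 := 402653184) (W3 := 67108864)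
    rfl k0_pp_202

noncomputable def f_pp_203 : ℕ → ℕ → ℕ → ℕ → Bool := onCell 0 536870912 0 1230186008 402653184 67108864
    (rowF 0 false true true .up 2 0 3 (qsf 0 536870912 0 1230186008 0) ndF0q2 ndF3q3 pcF0 Cut.none Ext.none)

def k0_pp_203 : ∃ t, chk3 f_pp_203 t 1 1 1 = true :=
  ⟨(b (l 2) (l 3)), by decide +kernel⟩

theorem c_pp_203 : CertF 0 536870912 0 1230186008 402653184 67108864 false true true .up 2 0 3
    ndF0q2 ndF3q3 pcF0 Cut.none Ext.none :=
  certF0 (fam := false) (s1 := true) (s2 := true) (a := 2) (b := 0) (c := 3) (cn := .up) (n1 := ndF0q2) (n2 := ndF3q3) (pc := pcF0) (cut := Cut.none) (xt := Ext.none) (P1 := 0) (W1 := 536870912) (P2 := 0) (W2 := 1230186008) (P3 := 402653184) (W3 := 67108864)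
    rfl k0_pp_203

noncomputable def cut_pp_213 : Cut := Cut.of [[⟨0, 1, 0, 67108864⟩, ⟨1, 1, 0, 67108864⟩, ⟨2, 2, 0, 16777216⟩]]

noncomputable def f_pp_213 : ℕ → ℕ → ℕ → ℕ → Bool := onCell 0 536870912 0 1230186008 402653184 67108864
    (rowF 0 false true true .pnn 2 1 3 (qsf 0 536870912 0 1230186008 1) ndF0q2 ndF3q3 pcF1 cut_pp_213 Ext.none)

def k0_pp_213 : ∃ t, chk3 f_pp_213 t 1 1 1 = true :=
  ⟨(b (a (l 3) (b (a (l 3) (a (l 3) (b (l 6) (l 3)))) (l 3))) (l 3)), by decide +kernel⟩

theorem c_pp_213 : CertF 0 536870912 0 1230186008 402653184 67108864 false true true .pnn 2 1 3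
    ndF0q2 ndF3q3 pcF1 cut_pp_213 Ext.none :=
  certF0 (fam := false) (s1 := true) (s2 := true) (a := 2) (b := 1) (c := 3) (cn := .pnn) (n1 := ndF0q2) (n2 := ndF3q3) (pc := pcF1) (cut := cut_pp_213) (xt := Ext.none) (P1 := 0) (W1 := 536870912) (P2 := 0) (W2 := 1230186008) (P3 := 402653184) (W3 := 67108864)
    rfl k0_pp_213

noncomputable def f_pm_001 : ℕ → ℕ → ℕ → ℕ → Bool := onCell 0 536870912 536870912 536870912 402653184 67108864
    (rowF 0 false true false .up 0 0 1 (qsf 0 536870912 536870912 536870912 0) ndF0q0 ndF3q1 pcF0 Cut.none Ext.none)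

def k0_pm_001 : ∃ t, chk3 f_pm_001 t 1 1 1 = true :=
  ⟨(l 4), by decide +kernel⟩

theorem c_pm_001 : CertF 0 536870912 536870912 536870912 402653184 67108864 false true false .up 0 0 1
    ndF0q0 ndF3q1 pcF0 Cut.none Ext.none :=
  certF0 (fam := false) (s1 := true) (s2 := false) (a := 0) (b := 0) (c := 1) (cn := .up) (n1 := ndF0q0) (n2 := ndF3q1) (pc := pcF0) (cut := Cut.none) (xt := Ext.none) (P1 := 0) (W1 := 536870912) (P2 := 536870912) (W2 := 536870912) (P3 := 402653184) (W3 := 67108864)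
    rfl k0_pm_001

noncomputable def f_pm_011 : ℕ → ℕ → ℕ → ℕ → Bool := onCell 0 536870912 536870912 536870912 402653184 67108864
    (rowF 0 false true false .pnn 0 1 1 (qsf 0 536870912 536870912 536870912 1) ndF0q0 ndF3q1 pcF1 Cut.none Ext.none)

def k0_pm_011 : ∃ t, chk3 f_pm_011 t 1 1 1 = true :=
  ⟨(l 4), by decide +kernel⟩

theorem c_pm_011 : CertF 0 536870912 536870912 536870912 402653184 67108864 false true false .pnn 0 1 1
    ndF0q0 ndF3q1 pcF1 Cut.none Ext.none :=
  certF0 (fam := false) (s1 := true) (s2 := false) (a := 0) (b := 1) (c := 1) (cn := .pnn) (n1 := ndF0q0) (n2 := ndF3q1) (pc := pcF1) (cut := Cut.none) (xt := Ext.none) (P1 := 0) (W1 := 536870912) (P2 := 536870912) (W2 := 536870912) (P3 := 402653184) (W3 := 67108864)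
    rfl k0_pm_011

noncomputable def f_pm_012 : ℕ → ℕ → ℕ → ℕ → Bool := onCell 0 536870912 1073741824 536870912 402653184 67108864
    (rowF 0 false true false .pnp 0 1 2 (qsf 0 536870912 1073741824 536870912 1) ndF0q0 ndF3q2 pcF1 Cut.none Ext.none)

def k0_pm_012 : ∃ t, chk3 f_pm_012 t 1 1 1 = true :=
  ⟨(l 4), by decide +kernel⟩

theorem c_pm_012 : CertF 0 536870912 1073741824 536870912 402653184 67108864 false true false .pnp 0 1 2
    ndF0q0 ndF3q2 pcF1 Cut.none Ext.none :=
  certF0 (fam := false) (s1 := true) (s2 := false) (a := 0) (b := 1) (c := 2) (cn := .pnp) (n1 := ndF0q0) (n2 := ndF3q2) (pc := pcF1) (cut := Cut.none) (xt := Ext.none) (P1 := 0) (W1 := 536870912) (P2 := 1073741824) (W2 := 536870912) (P3 := 402653184) (W3 := 67108864)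
    rfl k0_pm_012

noncomputable def f_pm_022 : ℕ → ℕ → ℕ → ℕ → Bool := onCell 0 536870912 1073741824 536870912 402653184 67108864
    (rowF 0 false true false .pp 0 2 2 (qsf 0 536870912 1073741824 536870912 2) ndF0q0 ndF3q2 pcF2 Cut.none Ext.none)

def k0_pm_022 : ∃ t, chk3 f_pm_022 t 1 1 1 = true :=
  ⟨(l 4), by decide +kernel⟩

theorem c_pm_022 : CertF 0 536870912 1073741824 536870912 402653184 67108864 false true false .pp 0 2 2
    ndF0q0 ndF3q2 pcF2 Cut.none Ext.none :=
  certF0 (fam := false) (s1 := true) (s2 := false) (a := 0) (b := 2) (c := 2) (cn := .pp) (n1 := ndF0q0) (n2 := ndF3q2) (pc := pcF2) (cut := Cut.none) (xt := Ext.none) (P1 := 0) (W1 := 536870912) (P2 := 1073741824) (W2 := 536870912) (P3 := 402653184) (W3 := 67108864)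
    rfl k0_pm_022

noncomputable def f_pm_023 : ℕ → ℕ → ℕ → ℕ → Bool := onCell 0 536870912 0 1230186008 402653184 67108864
    (rowF 0 false true false .up 0 2 3 (qsf 0 536870912 0 1230186008 2) ndF0q0 ndF3q3 pcF2 Cut.none Ext.none)

def k0_pm_023 : ∃ t, chk3 f_pm_023 t 1 1 1 = true :=
  ⟨(a (b (l 2) (l 4)) (b (a (l 2) (b (a (l 2) (l 17012664)) (a (b (l 17018032) (l 4)) (b (l 17026160) (l 17051040))))) (b (a (l 4) (b (l 4) (l 4))) (l 4)))), by decide +kernel⟩

theorem c_pm_023 : CertF 0 536870912 0 1230186008 402653184 67108864 false true false .up 0 2 3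
    ndF0q0 ndF3q3 pcF2 Cut.none Ext.none :=
  certF0 (fam := false) (s1 := true) (s2 := false) (a := 0) (b := 2) (c := 3) (cn := .up) (n1 := ndF0q0) (n2 := ndF3q3) (pc := pcF2) (cut := Cut.none) (xt := Ext.none) (P1 := 0) (W1 := 536870912) (P2 := 0) (W2 := 1230186008) (P3 := 402653184) (W3 := 67108864)
    rfl k0_pm_023

noncomputable def f_pm_033 : ℕ → ℕ → ℕ → ℕ → Bool := onCell 1610612736 536870912 0 1230186008 402653184 67108864
    (rowF 2 false true false .pnn 0 3 3 (qsf 0 536870912 0 1230186008 3) ndF0q0 ndF3q3 pcF3 Cut.none Ext.none)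

def k0_pm_033 : ∃ t, chk3 f_pm_033 t 1 1 1 = true :=
  ⟨(b (a (a (b (l 16997488) (a (l 17032856) (l 4))) (b (a (l 16996016) (l 4)) (l 4))) (l 4)) (l 4)), by decide +kernel⟩

theorem c_pm_033 : CertF 0 536870912 0 1230186008 402653184 67108864 false true false .pnn 0 3 3
    ndF0q0 ndF3q3 pcF3 Cut.none Ext.none :=
  certF2 (fam := false) (s1 := true) (s2 := false) (a := 0) (b := 3) (c := 3) (cn := .pnn) (n1 := ndF0q0) (n2 := ndF3q3) (pc := pcF3) (cut := Cut.none) (xt := Ext.none) (P1 := 0) (W1 := 536870912) (P2 := 0) (W2 := 1230186008) (P3 := 402653184) (W3 := 67108864)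
    rfl (fun _ => rfl) k0_pm_033

noncomputable def f_pm_101 : ℕ → ℕ → ℕ → ℕ → Bool := onCell 536870912 536870912 536870912 536870912 402653184 67108864
    (rowF 0 false true false .npn 1 0 1 (qsf 536870912 536870912 536870912 536870912 0) ndF0q1 ndF3q1 pcF0 Cut.none Ext.none)

def k0_pm_101 : ∃ t, chk3 f_pm_101 t 1 1 1 = true :=
  ⟨(l 4), by decide +kernel⟩

theorem c_pm_101 : CertF 536870912 536870912 536870912 536870912 402653184 67108864 false true false .npn 1 0 1
    ndF0q1 ndF3q1 pcF0 Cut.none Ext.none :=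
  certF0 (fam := false) (s1 := true) (s2 := false) (a := 1) (b := 0) (c := 1) (cn := .npn) (n1 := ndF0q1) (n2 := ndF3q1) (pc := pcF0) (cut := Cut.none) (xt := Ext.none) (P1 := 536870912) (W1 := 536870912) (P2 := 536870912) (W2 := 536870912) (P3 := 402653184) (W3 := 67108864)
    rfl k0_pm_101

noncomputable def f_pm_102 : ℕ → ℕ → ℕ → ℕ → Bool := onCell 536870912 536870912 1073741824 536870912 402653184 67108864
    (rowF 0 false true false .npp 1 0 2 (qsf 536870912 536870912 1073741824 536870912 0) ndF0q1 ndF3q2 pcF0 Cut.none Ext.none)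

def k0_pm_102 : ∃ t, chk3 f_pm_102 t 1 1 1 = true :=
  ⟨(a (a (l 4) (b (b (l 4) (a (l 4) (b (l 4) (a (l 4) (l 17125360))))) (b (b (a (l 2) (a (l 2) (l 17157720))) (l 2)) (l 2)))) (b (a (b (a (b (a (l 4) (l 17089208)) (a (l 17089440) (l 17121160))) (b (a (l 17117176) (l 17133688)) (l 17147752))) (a (b (l 17138816) (l 17167144)) (b (l 17170472) (l 17189440)))) (b (a (b (a (l 17138240) (l 17130064)) (l 17147216)) (b (b (l 17162200) (l 17091144)) (a (l 17126648) (l 17124032)))) (b (a (l 17168504) (a (l 17156312) (b (l 17158536) (l 17176888)))) (a (a (l 17189624) (l 17181488)) (a (l 17177992) (l 17192488)))))) (a (b (b (a (l 17184816) (l 17197808)) (a (l 252968178135) (a (l 17177048) (l 17176632)))) (b (a (l 2) (a (l 2) (l 17104840))) (l 2))) (b (a (b (a (l 17191264) (l 17183976)) (a (l 17161184) (l 17141848))) (b (l 17176768) (a (l 17139592) (l 17197128)))) (a (b (b (l 17098728) (l 17076440)) (a (l 2) (l 17076184))) (b (b (l 17159280) (l 17158752)) (l 17154224))))))), by decide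 +kernel⟩

theorem c_pm_102 : CertF 536870912 536870912 1073741824 536870912 402653184 67108864 false true false .npp 1 0 2
    ndF0q1 ndF3q2 pcF0 Cut.none Ext.none :=
  certF0 (fam := false) (s1 := true) (s2 := false) (a := 1) (b := 0) (c := 2) (cn := .npp) (n1 := ndF0q1) (n2 := ndF3q2) (pc := pcF0) (cut := Cut.none) (xt := Ext.none) (P1 := 536870912) (W1 := 536870912) (P2 := 1073741824) (W2 := 536870912) (P3 := 402653184) (W3 := 67108864)
    rfl k0_pm_102

noncomputable def f_pm_112 : ℕ → ℕ → ℕ → ℕ → Bool := onCell 536870912 536870912 1073741824 536870912 402653184 67108864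
    (rowF 2 false true false .dn 1 1 2 (qsf 536870912 536870912 1073741824 536870912 1) ndF0q1 ndF3q2 pcF1 Cut.none Ext.none)

def k0_pm_112 : ∃ t, chk3 f_pm_112 t 1 1 1 = true :=
  ⟨(a (b (a (b (l 4) (a (b (l 4) (l 17045216)) (l 4))) (l 4)) (a (a (b (b (l 17164560) (b (l 17229136) (a (l 17243040) (l 17241624)))) (a (b (b (l 17204976) (l 17164144)) (l 17166984)) (b (b (l 17246904) (l 17222744)) (l 17209192)))) (b (b (l 17078280) (l 17194632)) (b (l 17477424) (a (l 17222864) (l 17234208))))) (b (a (l 56607354087) (l 4)) (a (b (l 17209504) (b (l 17254240) (l 17244528))) (b (l 17145280) (l 17229824)))))) (b (l 4) (a (b (l 4) (b (l 4) (a (l 17176464) (l 17058352)))) (l 4)))), by decide +kernel⟩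

theorem c_pm_112 : CertF 536870912 536870912 1073741824 536870912 402653184 67108864 false true false .dn 1 1 2
    ndF0q1 ndF3q2 pcF1 Cut.none Ext.none :=
  certF2 (fam := false) (s1 := true) (s2 := false) (a := 1) (b := 1) (c := 2) (cn := .dn) (n1 := ndF0q1) (n2 := ndF3q2) (pc := pcF1) (cut := Cut.none) (xt := Ext.none) (P1 := 536870912) (W1 := 536870912) (P2 := 1073741824) (W2 := 536870912) (P3 := 402653184) (W3 := 67108864)
    rfl (fun _ => rfl) k0_pm_112

noncomputable def cut_pm_113 : Cut := Cut.of [[⟨0, 1, 0, 67108864⟩, ⟨1, 1, 0, 67108864⟩, ⟨2, 2, 0, 16777216⟩]]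

noncomputable def f_pm_113 : ℕ → ℕ → ℕ → ℕ → Bool := onCell 536870912 536870912 0 1230186008 402653184 67108864
    (rowF 0 false true false .nn 1 1 3 (qsf 536870912 536870912 0 1230186008 1) ndF0q1 ndF3q3 pcF1 cut_pm_113 Ext.none)

def k0_pm_113 : ∃ t, chk3 f_pm_113 t 1 1 1 = true :=
  ⟨(b (a (l 2) (a (l 2) (b (a (l 2) (a (l 2) (b (l 6) (l 16800104)))) (a (b (l 16903944) (l 16936696)) (b (l 16963152) (l 16877648)))))) (b (a (b (l 2) (a (l 2) (a (l 2) (l 17328648)))) (a (b (a (l 2) (l 17087664)) (a (l 17233640) (l 17133864))) (b (a (l 16983904) (l 16934280)) (a (l 17041328) (l 17003480))))) (a (a (b (l 2) (l 4)) (b (a (b (l 17346744) (l 17309072)) (l 17301208)) (a (b (l 17266344) (l 17214568)) (b (l 17285368) (l 17258584))))) (b (a (a (l 17248200) (l 17178704)) (a (l 17108104) (b (l 17056080) (l 17090872)))) (a (b (a (l 17258184) (l 17205296)) (a (l 17254088) (b (l 17211592) (l 17213680)))) (a (b (l 17150024) (b (l 17165944) (a (b (l 17181592) (l 17183792)) (l 17165944))))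 (b (a (l 17125528) (b (l 17122008) (l 17138184))) (b (l 17147688) (a (a (l 17159080) (l 17160216)) (l 17167936)))))))))), by decide +kernel⟩

theorem c_pm_113 : CertF 536870912 536870912 0 1230186008 402653184 67108864 false true false .nn 1 1 3
    ndF0q1 ndF3q3 pcF1 cut_pm_113 Ext.none :=
  certF0 (fam := false) (s1 := true) (s2 := false) (a := 1) (b := 1) (c := 3) (cn := .nn) (n1 := ndF0q1) (n2 := ndF3q3) (pc := pcF1) (cut := cut_pm_113) (xt := Ext.none) (P1 := 536870912) (W1 := 536870912) (P2 := 0) (W2 := 1230186008) (P3 := 402653184) (W3 := 67108864)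
    rfl k0_pm_113

noncomputable def cut_pm_123 : Cut := Cut.of [[⟨0, 1, 0, 67108864⟩, ⟨1, 1, 0, 67108864⟩, ⟨2, 2, 0, 16777216⟩]]

noncomputable def f_pm_123 : ℕ → ℕ → ℕ → ℕ → Bool := onCell 1073741824 536870912 0 1230186008 402653184 67108864
    (rowF 2 false true false .npn 1 2 3 (qsf 536870912 536870912 0 1230186008 2) ndF0q1 ndF3q3 pcF2 cut_pm_123 Ext.none)

def k0_pm_123 : ∃ t, chk3 f_pm_123 t 1 1 1 = true :=
  ⟨(b (b (a (a (a (b (a (l 6) (l 16798064)) (a (l 16845552) (l 16830536))) (b (l 16808736) (l 16845376))) (a (l 16855368) (l 16903096))) (a (a (b (l 16930248) (l 16974144)) (l 17052072)) (a (l 17011632) (l 17017840)))) (a (a (a (b (l 16883520) (l 16974456)) (a (l 16952752) (l 16967984))) (b (a (l 16950944) (l 16987864)) (a (l 17033928) (l 17053864)))) (a (a (l 17040936) (l 17047640)) (a (l 17048040) (l 17146448))))) (b (a (a (b (a (l 17101432) (l 17116320)) (a (b (l 17207832) (l 17262936)) (l 17210392))) (a (b (l 17120432) (l 17177880)) (b (l 17116584) (l 17141872))))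 (a (a (b (l 17105992) (l 17107144)) (b (l 17089440) (l 4))) (a (b (l 17073800) (l 1)) (l 1)))) (a (a (a (b (b (l 17288360) (l 17255952)) (l 4)) (b (b (l 17221128) (l 17153104)) (l 4))) (b (a (b (l 17151968) (l 4)) (l 4)) (l 4))) (l 1)))), by decide +kernel⟩

theorem c_pm_123 : CertF 536870912 536870912 0 1230186008 402653184 67108864 false true false .npn 1 2 3
    ndF0q1 ndF3q3 pcF2 cut_pm_123 Ext.none :=
  certF2 (fam := false) (s1 := true) (s2 := false) (a := 1) (b := 2) (c := 3) (cn := .npn) (n1 := ndF0q1) (n2 := ndF3q3) (pc := pcF2) (cut := cut_pm_123) (xt := Ext.none) (P1 := 536870912) (W1 := 536870912) (P2 := 0) (W2 := 1230186008) (P3 := 402653184) (W3 := 67108864)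
    rfl (fun _ => rfl) k0_pm_123

noncomputable def f_pm_133 : ℕ → ℕ → ℕ → ℕ → Bool := onCell 536870912 536870912 0 1230186008 402653184 67108864
    (rowF 0 false true false .dn 1 3 3 (qsf 536870912 536870912 0 1230186008 3) ndF0q1 ndF3q3 pcF3 Cut.none Ext.none)

def k0_pm_133 : ∃ t, chk3 f_pm_133 t 1 1 1 = true :=
  ⟨(b (b (a (a (a (l 16976112) (l 1)) (l 1)) (l 1)) (l 1)) (l 1)), by decide +kernel⟩

theorem c_pm_133 : CertF 536870912 536870912 0 1230186008 402653184 67108864 false true false .dn 1 3 3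
    ndF0q1 ndF3q3 pcF3 Cut.none Ext.none :=
  certF0 (fam := false) (s1 := true) (s2 := false) (a := 1) (b := 3) (c := 3) (cn := .dn) (n1 := ndF0q1) (n2 := ndF3q3) (pc := pcF3) (cut := Cut.none) (xt := Ext.none) (P1 := 536870912) (W1 := 536870912) (P2 := 0) (W2 := 1230186008) (P3 := 402653184) (W3 := 67108864)
    rfl k0_pm_133

end Pool.Agent.Strip051.G.I3_8_7_16.Tab.C.FB03

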