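import Pool.Agent.Strip051.G.I3_8_7_16.Tab

/-! # Certificates N0 (generated) -/

set_option linter.all false
set_option maxRecDepth 100000

namespace Pool.Agent.Strip051.G.I3_8_7_16.Tab.C.NA00

open Pool.Agent.Strip051.PB Pool.Agent.Strip051.PB.T
open Pool.Agent.Strip051.G.I3_8_7_16.Tab

noncomputable def f_pp_001 : ℕ → ℕ → ℕ → ℕ → Bool := onCell 0 536870912 0 536870912 402653184 67108864
    (rowN 3 0 true true true .up 0 0 1 (qsf 0 536870912 0 536870912 1) ndN0q0 ndN0q0 pcN1 Cut.none Ext.none)

def k0_pp_001 : ∃ t, chk3 f_pp_001 t 1 1 1 = true :=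
  ⟨(l 4), by decide +kernel⟩

theorem c_pp_001 : CertN 0 536870912 0 536870912 402653184 67108864 3 true true true .up 0 0 1
    ndN0q0 ndN0q0 pcN1 Cut.none Ext.none :=
  certN0 (fam := true) (s1 := true) (s2 := true) (a := 0) (b := 0) (c := 1) (cn := .up) (n1 := ndN0q0) (n2 := ndN0q0) (pc := pcN1) (cut := Cut.none) (xt := Ext.none) (P1 := 0) (W1 := 536870912) (P2 := 0) (W2 := 536870912) (P3 := 402653184) (W3 := 67108864) (N0 := 3)
    rfl k0_pp_001

noncomputable def cut_pp_011 : Cut := Cut.of [[⟨0, 0, 0, 67108864⟩, ⟨1, 1, 0, 67108864⟩, ⟨2, 1, 0, 67108864⟩]]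

noncomputable def f_pp_011 : ℕ → ℕ → ℕ → ℕ → Bool := onCell 0 536870912 536870912 536870912 402653184 67108864
    (rowN 3 0 true true true .pnn 0 1 1 (qsf 0 536870912 536870912 536870912 1) ndN0q0 ndN0q1 pcN1 cut_pp_011 Ext.none)

def k0_pp_011 : ∃ t, chk3 f_pp_011 t 1 1 1 = true :=
  ⟨(a (b (l 4) (b (l 4) (a (b (l 4) (a (b (l 4) (a (l 6) (l 4))) (l 4))) (l 4)))) (l 4)), by decide +kernel⟩

theorem c_pp_011 : CertN 0 536870912 536870912 536870912 402653184 67108864 3 true true true .pnn 0 1 1
    ndN0q0 ndN0q1 pcN1 cut_pp_011 Ext.none :=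
  certN0 (fam := true) (s1 := true) (s2 := true) (a := 0) (b := 1) (c := 1) (cn := .pnn) (n1 := ndN0q0) (n2 := ndN0q1) (pc := pcN1) (cut := cut_pp_011) (xt := Ext.none) (P1 := 0) (W1 := 536870912) (P2 := 536870912) (W2 := 536870912) (P3 := 402653184) (W3 := 67108864) (N0 := 3)
    rfl k0_pp_011

noncomputable def cut_pp_012 : Cut := Cut.of [[⟨0, 0, 0, 67108864⟩, ⟨1, 1, 0, 67108864⟩, ⟨2, 1, 0, 67108864⟩]]

noncomputable def f_pp_012 : ℕ → ℕ → ℕ → ℕ → Bool := onCell 0 536870912 536870912 536870912 402653184 67108864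
    (rowN 3 0 true true true .pnp 0 1 2 (qsf 0 536870912 536870912 536870912 2) ndN0q0 ndN0q1 pcN2 cut_pp_012 Ext.none)

def k0_pp_012 : ∃ t, chk3 f_pp_012 t 1 1 1 = true :=
  ⟨(b (l 4) (a (b (l 4) (a (b (l 4) (a (b (l 4) (a (l 6) (l 4))) (l 4))) (l 4))) (l 4))), by decide +kernel⟩

theorem c_pp_012 : CertN 0 536870912 536870912 536870912 402653184 67108864 3 true true true .pnp 0 1 2
    ndN0q0 ndN0q1 pcN2 cut_pp_012 Ext.none :=
  certN0 (fam := true) (s1 := true) (s2 := true) (a := 0) (b := 1) (c := 2) (cn := .pnp) (n1 := ndN0q0) (n2 := ndN0q1) (pc := pcN2) (cut := cut_pp_012) (xt := Ext.none) (P1 := 0) (W1 := 536870912) (P2 := 536870912) (W2 := 536870912) (P3 := 402653184) (W3 := 67108864) (N0 := 3)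
    rfl k0_pp_012

noncomputable def cut_pp_022 : Cut := Cut.of [[⟨0, 0, 0, 67108864⟩, ⟨1, 1, 0, 67108864⟩, ⟨2, 1, 0, 67108864⟩]]

noncomputable def f_pp_022 : ℕ → ℕ → ℕ → ℕ → Bool := onCell 0 536870912 0 536870912 402653184 67108864
    (rowN 3 0 true true true .pp 0 2 2 (qsf 0 536870912 0 536870912 2) ndN0q0 ndN0q2 pcN2 cut_pp_022 Ext.none)

def k0_pp_022 : ∃ t, chk3 f_pp_022 t 2 2 1 = true :=
  ⟨(a (b (a (a (b (l 16437640) (l 16514648)) (b (l 16447784) (l 16500760))) (b (a (l 16502408) (l 16506736)) (a (l 16505272) (l 16532504)))) (a (b (a (b (a (l 16477424) (l 16480616)) (l 16542224)) (a (l 16516952) (l 16499728))) (a (a (a (l 16591776) (l 16595792)) (b (l 16526352) (l 16550408))) (a (l 16630416) (a (l 16594192) (l 16597944))))) (b (a (l 16546920) (l 16568528)) (a (a (l 16624424) (b (l 16552904) (l 16604792))) (b (l 16562512) (l 16637944)))))) (b (a (b (a (l 16533712) (l 16562624)) (a (l 16560880) (l 16590512))) (b (a (l 16594448) (l 16629448)) (a (l 16622192) (l 16656016)))) (a (b (a (l 16598656)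 (l 16608624)) (a (b (l 16598952) (l 16654888)) (a (l 16675616) (l 16692376)))) (a (b (l 16682968) (a (l 16709448) (l 16726792))) (b (l 16716760) (b (l 16699512) (l 16770504))))))), by decide +kernel⟩

def k1_pp_022 : ∃ t, chk3 f_pp_022 t 4 6 1 = true :=
  ⟨(a (b (a (a (b (l 16606184) (a (l 16605224) (l 16590024))) (b (l 16595432) (a (l 16595744) (l 16601416)))) (b (a (l 16584504) (l 16594376)) (a (a (l 16607040) (l 16612624)) (l 16662840)))) (a (b (a (a (b (l 16601640) (l 16613688)) (b (l 16607800) (l 16620072))) (a (b (l 16613912) (l 16626408)) (l 16668328))) (a (a (b (l 16647104) (c (l 16642784) (l 16635352))) (b (l 16632728) (l 16666808))) (a (b (l 16639264) (l 16673528)) (b (l 16645744) (l 16680184))))) (a (b (a (l 16653472) (l 16659552)) (b (a (l 16652168) (l 16658552)) (a (l 16665816) (l 16672368)))) (b (a (l 16665584) (l 16671576)) (a (b (l 16664888) (l 16678880)) (b (l 16671176) (l 16685336))))))) (b (a (b (b (l 16643560) (l 16657864)) (a (l 16673784) (l 16684608))) (b (a (l 16644296) (l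 16622472)) (a (l 16695336) (a (l 16682432) (l 16687832))))) (b (a (a (c (l 16704464) (l 16693208)) (c (l 16715936) (l 16710544))) (b (a (l 16675496) (l 16707880)) (a (l 16711232) (l 16723016)))) (a (b (a (l 16711976) (l 16724328)) (a (c (l 16718144) (l 16713688)) (a (l 16725448) (l 16731752)))) (a (b (l 16736568) (a (l 16738024) (l 16744272))) (b (l 16748688) (a (l 16750488) (l 16756672)))))))), by decide +kernel⟩

def k2_pp_022 : ∃ t, chk3 f_pp_022 t 16 14 1 = true :=
  ⟨(a (b (a (b (a (l 16671792) (l 16675280)) (a (c (l 16667936) (l 16661984)) (c (l 16671400) (l 16665640)))) (b (c (l 16662648) (l 16656344)) (a (l 16687792) (l 16696552)))) (a (b (a (l 6) (c (l 16696480) (l 16702056))) (l 6)) (b (a (c (l 16700000) (l 16705760)) (c (l 16703496) (l 16709440))) (a (l 6) (b (l 16713136) (l 6)))))) (b (b (a (c (l 16669336) (l 16663408)) (c (l 16675976) (l 16670400))) (a (a (l 16700064) (l 16703560)) (a (l 16707040) (l 16710504)))) (b (a (b (c (l 16694416) (l 16689936)) (c (l 16712520) (l 16697992)))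 (b (c (l 16701288) (l 16697176)) (c (l 16708976) (l 16705296)))) (a (b (a (l 16716752) (l 16720360)) (a (l 6) (c (l 16719696) (l 16716632)))) (b (a (l 16723952) (l 16727528)) (a (c (l 16723224) (l 16720344)) (c (l 16726736) (l 16724040)))))))), by decide +kernel⟩

def k3_pp_022 : ∃ t, chk3 f_pp_022 t 17 14 1 = true :=
  ⟨(b (a (b (a (c (l 16682560) (l 16677344)) (l 16707624)) (a (a (l 16713952) (l 16717384)) (a (l 16720808) (l 16724216)))) (b (a (l 16714280) (l 16720888)) (a (a (l 16727616) (l 16730992)) (a (l 16734368) (l 16737720))))) (b (a (a (b (c (l 16708112) (l 16704352)) (c (l 16715856) (l 16712536))) (b (l 16728896) (c (l 16722672) (l 16719712)))) (a (b (l 16730536) (c (l 16729440) (l 16726832))) (b (c (l 16728248) (l 16725536)) (c (l 16746648) (l 16744384))))) (a (a (a (b (l 16731080) (c (l 16730232) (l 16727720))) (b (l 16734624) (c (l 16733712) (l 16731376)))) (a (b (l 16738152) (c (l 16737184) (l 16735024))) (b (l 16741664) (c (l 16740632) (l 16738656))))) (a (a (b (l 16745168) (c (l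 16754560) (l 16752752))) (b (l 16746032) (c (l 16752736) (l 16751112)))) (a (b (c (l 16742600) (l 16740688)) (c (l 16756152) (l 16754696))) (b (a (l 16754720) (l 16756440)) (b (l 16761976) (a (l 16765440) (l 16767184))))))))), by decide +kernel⟩

def k4_pp_022 : ∃ t, chk3 f_pp_022 t 16 15 1 = true :=
  ⟨(b (a (l 6) (b (a (l 6) (b (a (c (l 16742032) (l 16739608)) (c (l 16740328) (l 16743328))) (a (l 6) (c (b (l 16741488) (l 16745832)) (b (l 16739592) (l 16744176)))))) (l 6))) (l 6)), by decide +kernel⟩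

def k5_pp_022 : ∃ t, chk3 f_pp_022 t 34 60 1 = true :=
  ⟨(a (b (a (c (l 16743848) (l 16741792)) (c (l 16747360) (l 16745480))) (a (c (b (l 16745032) (l 16749392)) (b (l 16743320) (l 16747912))) (b (c (l 16748560) (l 16747024)) (c (l 16758168) (l 16756872))))) (a (b (c (l 16751176) (b (l 16741664) (l 16746160))) (b (c (l 16752064) (l 16750720)) (c (l 16761688) (l 16760576)))) (c (b (c (l 16754712) (l 16753944)) (b (l 16760808) (c (l 16765440) (l 16764960)))) (b (c (l 16753184) (l 16752432)) (b (l 16759632) (c (l 16764496) (l 16764032))))))), by decide +kernel⟩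

def k6_pp_022 : ∃ t, chk3 f_pp_022 t 34 122 1 = true :=
  ⟨(a (a (b (c (l 16757080) (l 16755840)) (l 6)) (a (b (c (l 16756472) (l 16755368)) (c (l 16763576) (l 16762712))) (b (c (l 16758240) (l 16757232)) (c (l 16765352) (l 16764576))))) (a (a (b (c (l 16760008) (l 16759088)) (c (c (l 16767304) (l 16766952)) (c (l 16766608) (l 16766272)))) (c (b (l 16764392) (c (l 16769048) (l 16768744))) (b (l 16766184) (c (l 16768448) (l 16768160))))) (a (b (c (l 16766152) (l 16765408)) (b (c (l 16766904) (l 16766344)) (c (c (l 16769288) (l 16769056)) (c (l 16768840) (l 16768624))))) (b (c (c (l 16765456) (l 16765120)) (c (l 16767416) (l 16767096))) (b (c (l 16771288) (l 16770808)) (c (c (l 16773648) (l 16773464)) (c (l 16773288) (l 16773120)))))))), by decide +kernel⟩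

def k7_pp_022 : ∃ t, chk3 f_pp_022 t 68 123 1 = true :=
  ⟨(a (l 6) (a (l 6) (b (b (c (l 16766136) (l 16768168)) (a (l 6) (c (l 16768872) (l 16768424)))) (l 6)))), by decide +kernel⟩

def k8_pp_022 : ∃ t, chk3 f_pp_022 t 69 246 1 = true :=
  ⟨(a (c (a (b (l 16770536) (c (l 16771616) (l 16771424))) (a (b (l 16769248) (c (l 16771624) (l 16771456))) (b (l 16772752) (a (l 16774824) (l 16775272))))) (a (b (l 16770032) (c (l 16771232) (l 16771040))) (b (c (l 16769376) (l 16769176)) (a (c (l 16771304) (l 16771152)) (l 16773464))))) (b (c (a (a (l 16773640) (l 16774520)) (c (l 16774600) (l 16774472))) (a (a (l 16773288) (a (l 16773984) (l 16774448))) (a (l 16773832) (l 16775416)))) (a (b (c (c (l 16775208) (l 16775080)) (l 16773928)) (c (c (l 16775688) (l 16775600)) (c (l 16775512) (l 16775432)))) (b (c (c (l 16776296) (l 16776216)) (c (l 16776144) (l 16776080))) (a (c (c (l 16777000) (l 16776936)) (c (l 16776232) (l 16776184))) (c (b (l 16777400) (c (a (l 16778040) (b (c (l 16777872) (l 20099106135))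 (a (l 52848232039) (l 94187292519)))) (a (l 16778080) (a (b (l 16778344) (l 53921973959)) (b (l 36205233815) (l 132305127447)))))) (b (c (c (l 16777608) (l 16776312)) (l 16776656)) (c (a (l 16778104) (a (b (l 16777056) (c (l 55532586503) (l 57680070151))) (b (l 37278975671) (l 130157642503)))) (a (l 16777792) (b (a (l 16777064) (a (l 16777288) (l 62511908343))) (a (c (l 60364424663) (l 66806875447)) (l 132841997047)))))))))))), by decide +kernel⟩

def k9_pp_022 : ∃ t, chk3 f_pp_022 t 138 247 1 = true :=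
  ⟨(b (c (a (a (l 6) (b (l 16775008) (l 16775512))) (a (b (l 16775896) (l 16775744)) (b (l 16775472) (l 16776792)))) (a (a (l 6) (b (l 16774736) (l 16774640))) (c (a (l 16775016) (l 16775936)) (b (l 16774776) (l 16776016))))) (a (l 6) (b (a (c (c (l 16776936) (l 16776880)) (c (l 16776824) (l 16776120))) (c (b (c (l 16776872) (l 16776824)) (a (l 16777424) (b (c (l 16777832) (l 16777856)) (c (a (l 31373395271) (l 80228648583)) (a (c (l 30836524263) (l 31373395191)) (l 81302390551)))))) (b (a (l 16777192) (l 16777128)) (a (c (l 16776648) (l 16776656)) (c (c (b (l 16777712) (a (l 31910266119) (l 82376132263))) (b (l 16777712) (a (l 32447137047) (l 83449874087)))) (b (c (l 16777720) (l 16777720)) (a (c (l 33520878871) (l 35131491607)) (c (l 85060486823) (l 87207970455))))))))) (a (c (a (l 6) (b (b (l 16777904) (l 6)) (l 6))) (b (c (b (l 16777632) (l 6)) (b (c (l 16776336) (l 16776344)) (l 6))) (l 6))) (c (b (a (a (b (l 16778040) (c (c (l 61438166375) (l 61975037383)) (c (l 62511908311) (l 63048779223))))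 (b (c (c (l 47479522599) (l 48016393527)) (c (l 48553264455) (l 49090135447))) (l 4))) (a (c (l 141431931879) (l 140358190087)) (l 4))) (l 4)) (b (a (a (c (b (l 16777744) (a (l 55532586503) (l 85060486839))) (b (l 16777752) (b (l 49627006439) (l 96871646839)))) (a (b (c (l 33520878983) (l 35131491719)) (l 4)) (b (c (l 67343746631) (l 69491230343)) (l 4)))) (b (a (c (l 132305127399) (l 132305126087)) (l 4)) (l 4))) (l 4))))))), by decide +kernel⟩

def k10_pp_022 : ∃ t, chk3 f_pp_022 t 278 494 1 = true :=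
  ⟨(b (a (c (l 16776360) (l 16776224)) (c (c (l 16776944) (l 16776888)) (c (l 16776680) (l 16776680)))) (a (c (c (a (l 16777320) (b (l 16776160) (c (l 16777816) (l 16777832)))) (b (l 16777200) (a (l 16776256) (c (l 16777848) (l 16777864))))) (c (a (l 16777224) (b (l 16776104) (c (l 16777872) (b (l 16778016) (l 16777752))))) (a (l 16776560) (b (l 16776120) (a (l 16776760) (b (l 16778176) (l 22783460871))))))) (c (b (c (a (l 16777968) (b (l 13656655191) (a (l 43184555479) (l 90429196023)))) (a (l 16778000) (a (a (l 16777736) (b (l 16778344) (l 59827553767))) (b (l 26541557191) (l 92039808855))))) (a (b (a (c (l 16777112) (l 16777792)) (c (c (l 56606328199) (l 57143199127)) (c (l 57680070055) (l 58216941047)))) (a (c (l 70564972199) (c (l 71638713911) (l 72175584839))) (l 4))) (l 4))) (a (b (c (l 16776720) (l 16776896)) (a (c (b (l 16777816) (c (l 73249326663) (l 74323068567))) (b (l 16777824) (c (l 75933681303) (l 79691777591)))) (b (c (c (l 59290682887) (l 60901295623)) (c (l 61975037479) (l 64659391991)))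 (l 4)))) (b (b (c (c (l 16777944) (l 13119784391)) (c (l 13119784391) (l 13656655319))) (a (c (c (l 41037071799) (l 42110813639)) (c (l 43184555463) (l 46405780839))) (c (l 125325805495) (l 128010158727)))) (l 4)))))), by decide +kernel⟩

def k11_pp_022 : ∃ t, chk3 f_pp_022 t 279 494 1 = true :=
  ⟨(b (a (b (c (c (a (l 16776328) (c (l 16777888) (l 16777904))) (a (l 16776328) (c (l 7214204295) (c (l 16777928) (l 16777936))))) (c (a (l 16776360) (a (l 16776816) (b (l 16778240) (l 31910266487)))) (a (l 16776376) (a (l 16778144) (a (l 16778368) (b (l 16777016) (l 49627006471))))))) (c (b (a (l 16778064) (a (c (l 48016393783) (a (l 16777960) (l 65733133847))) (a (l 94724163751) (l 4)))) (b (a (c (l 22783460775) (l 22783460983)) (l 4)) (a (a (a (l 16777184) (l 42647684935)) (l 90966067303)) (l 4)))) (b (c (a (l 16776952) (a (c (l 50700748215) (l 51774490087)) (l 130157642439))) (a (l 16778280) (a (c (l 54458844599) (l 56606328247)) (l 132305126087)))) (a (a (c (l 16777848) (l 16777856)) (c (c (l 64122521143)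 (l 65733133879)) (c (l 67880617527) (l 72175584727)))) (l 4))))) (a (a (b (c (c (b (l 16777840) (l 79691777767)) (b (l 16777864) (l 81302390695))) (c (b (l 16777880) (l 82376132599)) (b (l 16777888) (l 85060487143)))) (l 4)) (b (b (c (c (l 66270004935) (l 67343746903)) (c (c (l 69491230311) (l 71101843047)) (c (l 73249326695) (l 87744840903)))) (l 4)) (l 4))) (l 4))) (b (b (b (a (a (a (c (c (l 67880617415) (l 69491230247)) (c (l 72175584807) (l 76470552103))) (l 4)) (l 4)) (l 4)) (l 4)) (l 4)) (l 4))), by decide +kernel⟩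

def k12_pp_022 : ∃ t, chk3 f_pp_022 t 139 495 1 = true :=
  ⟨(a (b (a (c (b (a (c (b (l 16776832) (a (l 16777080) (a (l 37815846183) (l 70028101095)))) (a (l 16777560) (b (l 16777016) (a (l 38352717127) (l 71638713847))))) (c (b (a (l 35668362663) (l 86134228679)) (l 140895060935)) (b (a (c (l 35668362535) (l 36205233463)) (l 85597357911)) (l 138747577319)))) (a (a (b (b (a (l 38352717447) (l 86134228871)) (l 94187292823)) (l 4)) (l 4)) (l 4))) (b (b (c (a (l 16776880) (c (a (l 36742104391) (l 88281712343)) (a (l 37815846215) (l 88281712343)))) (a (l 16777544) (a (c (l 38889588055) (l 39963329879)) (l 88281712663)))) (c (a (a (l 16777776) (a (l 39426459063) (l 73249326711))) (l 137673835511)) (a (a (l 16777784) (a (l 41573942711) (l 75933681303))) (a (l 132305126135) (l 4))))) (a (b (a (a (c (l 61438166583) (l 63585650311)) (c (l 92576679575) (l 95797905031))) (l 4)) (l 4)) (l 4)))) (l 4)) (l 4)) (l 4)), by decide +kernel⟩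

def k13_pp_022 : ∃ t, chk3 f_pp_022 t 35 60 1 = true :=
  ⟨(b (b (a (a (c (l 16750400) (l 16748944)) (c (l 16753848) (l 16752560))) (a (c (l 16757272) (l 16756168)) (c (l 16765928) (l 16765000)))) (c (a (a (l 16754696) (l 16763392)) (a (c (l 16761816) (l 16761368)) (c (l 16770440) (l 16770080)))) (a (a (l 16753472) (l 16762344)) (c (a (l 16760928) (l 16769728)) (a (l 16760504) (l 16769392)))))) (a (c (a (b (l 16761664) (a (l 16767824) (l 16769560))) (a (b (l 16761648) (c (l 16766224) (l 16765896))) (b (l 16768616) (c (l 16770560) (l 16770280))))) (a (b (l 16760672) (a (l 16767016) (l 16766232))) (b (c (l 16767136) (l 16764120)) (a (c (l 16770832) (l 16770528)) (a (l 16772048) (l 16772952)))))) (b (a (a (c (l 16770344) (l 16769656)) (c (l 16772064) (l 16771464))) (c (c (l 16772144) (l 16772224)) (c (l 16772320) (l 16772096)))) (a (a (c (b (l 16773656) (l 16773256)) (l 16771368)) (c (c (l 16773976) (l 16773776)) (c (l 16773600) (l 16773432)))) (b (c (c (l 16775424) (l 16775264)) (c (l 16775112)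 (l 16774984))) (a (c (l 16776712) (l 16776248)) (b (a (c (l 16777448) (l 16777288)) (c (l 16778400) (c (l 16775872) (l 16775912)))) (a (c (c (l 16778056) (l 16776816)) (c (l 16776544) (b (l 16775864) (l 16777944)))) (a (b (c (l 16776664) (l 16778072)) (b (c (l 16778568) (c (l 16777312) (l 16777328))) (c (c (l 64659392935) (l 66806876791)) (c (l 69491231511) (l 77007423943))))) (b (a (c (l 16778440) (l 16778848)) (c (c (l 38889588983) (l 39963331063)) (c (l 42110814759) (l 48553265399)))) (b (c (l 88281714247) (c (l 95797905879) (l 106535323927))) (l 4)))))))))))), by decide +kernel⟩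

def k14_pp_022 : ∃ t, chk3 f_pp_022 t 70 244 1 = true :=
  ⟨(a (a (c (c (l 16769808) (l 16769512)) (c (l 16767920) (l 16767648))) (b (c (l 16767664) (l 16772368)) (c (l 16773840) (l 16773424)))) (a (c (b (l 16772024) (l 16773624)) (c (l 16772200) (l 16772672))) (b (c (c (l 16773864) (l 16773672)) (l 16773408)) (c (c (l 16776088) (l 16775952)) (c (l 16775832) (l 16775728)))))), by decide +kernel⟩

def k15_pp_022 : ∃ t, chk3 f_pp_022 t 140 245 1 = true :=
  ⟨(c (c (a (c (l 16773736) (l 16773728)) (a (a (l 16774696) (l 16775128)) (b (l 16775304) (l 16776240)))) (a (b (l 16772944) (l 16773936)) (a (b (l 16771648) (l 16775264)) (b (l 16775160) (l 16776152))))) (b (a (a (l 16772192) (l 16773120)) (l 16773512)) (a (a (l 16774584) (l 16775512)) (a (l 16775776) (a (l 16775808) (l 16776928)))))), by decide +kernel⟩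

def k16_pp_022 : ∃ t, chk3 f_pp_022 t 141 490 1 = true :=
  ⟨(a (c (c (l 16775944) (l 16775832)) (c (l 16775728) (l 16775632))) (b (c (c (l 16776448) (l 16776360)) (c (l 16776288) (l 16776224))) (a (c (l 16777104) (c (l 16776472) (l 16776504))) (c (b (c (l 16777872) (l 16777920)) (c (a (l 15804139431) (b (a (l 16777968) (l 80228648951)) (l 132841997239))) (a (b (l 16778216) (l 28152170391)) (b (a (l 16778000) (l 82913003543)) (l 131231385847))))) (c (b (l 16778288) (a (c (l 15267268503) (l 15804139431)) (b (a (l 16778024) (l 87207970839)) (l 130694513623)))) (b (c (l 16777976) (l 16777984)) (b (a (l 16776952) (a (l 16778032) (l 100629743287))) (a (c (l 32984008343) (l 35131491991)) (l 132305126343))))))))), by decide +kernel⟩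

def k17_pp_022 : ∃ t, chk3 f_pp_022 t 282 491 1 = true :=
  ⟨(b (a (c (l 16776504) (l 16776360)) (b (c (l 16777088) (l 16777752)) (a (c (l 16777496) (l 16777576)) (c (l 16778128) (a (l 16776728) (l 16778424)))))) (a (c (c (a (l 16777456) (a (l 16777904) (b (l 16776496) (c (l 33520879319) (l 34057750279))))) (a (l 16777480) (a (l 16777944) (b (l 16776544) (b (l 16777144) (l 65733134343)))))) (c (c (b (l 16776112) (b (l 16778016) (a (l 16776792) (c (l 39963330295) (l 40500201207))))) (a (l 16776216) (b (l 16777744) (a (l 16778376) (b (l 16777176) (l 85060486359)))))) (c (a (l 16776224) (a (l 16777992) (b (l 16776600) (b (l 16777184) (l 85060486503))))) (a (l 16776240) (b (l 16777768) (a (l 16777080) (b (l 16777184) (l 87207970231)))))))) (c (b (c (a (l 16777952) (b (c (l 42110813863) (l 42110814055)) (l 125325804359))) (a (l 9898559319) (b (a (l 16777928) (l 71101843511)) (l 124252062551)))) (a (b (a (a (l 37815847095) (l 70028102103)) (l 94724164423)) (l 4)) (l 4))) (b (c (a (c (l 16778016) (l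 16778024)) (a (b (l 16777296) (l 88281712679)) (b (l 74323068999) (l 4)))) (a (c (l 16778032) (l 9898559255)) (a (b (l 16777304) (l 96334776183)) (b (l 83986745063) (l 4))))) (a (b (c (a (l 54995715991) (l 98482260071)) (a (l 56606328567) (l 110293419799))) (l 4)) (l 4)))))), by decide +kernel⟩

def k18_pp_022 : ∃ t, chk3 f_pp_022 t 283 491 1 = true :=
  ⟨(b (a (b (c (b (c (l 16778032) (l 16778080)) (a (l 16776840) (a (l 28152170743) (a (l 71638714855) (l 94724164151))))) (a (c (l 16776688) (l 16778024)) (a (c (l 16778456) (l 16778144)) (c (b (l 16777256) (l 80228649095)) (b (l 16777264) (l 88818583415)))))) (b (c (c (a (l 16778184) (l 129620771703)) (a (l 23857203175) (l 127473288087))) (c (a (l 24394074135) (a (l 97945388839) (l 4))) (a (c (l 28152170055) (l 28152170231)) (l 129083900807)))) (a (a (c (c (l 56069457655) (l 58216941495)) (c (l 60901296071) (l 74323068375))) (c (l 94724164471) (c (l 103314098023) (l 108682807207)))) (l 4)))) (a (b (b (c (c (l 89355454007) (a (l 63585650679) (l 96334776423)))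 (c (a (l 67343747063) (l 103850968999)) (a (l 79691777623) (l 109219678167)))) (l 4)) (l 4)) (l 4))) (l 4)), by decide +kernel⟩

def k19_pp_022 : ∃ t, chk3 f_pp_022 t 142 244 1 = true :=
  ⟨(b (c (a (l 16775504) (c (l 16776464) (l 16776520))) (a (l 16775232) (c (l 16776432) (l 16776192)))) (a (c (a (l 16776664) (b (l 16777624) (a (l 16777280) (c (l 16777872) (l 16777928))))) (b (l 16777008) (b (l 16777000) (a (l 16778152) (c (l 16778384) (a (l 16777776) (l 16778376))))))) (b (a (c (l 16777240) (c (l 16776664) (l 16776368))) (c (b (c (l 16778056) (l 2919237863)) (b (a (l 16778376) (c (l 69491231127) (l 71101844151))) (a (c (l 43721427175) (l 44795169127)) (l 4)))) (c (b (a (l 16777848) (l 15267268871)) (b (a (l 16777120) (a (l 74859939351) (l 109756548999))) (a (c (l 48016394199) (l 49627006951)) (l 4)))) (b (c (l 16778336) (c (l 16778176) (l 16778176))) (b (a (l 16777144) (a (l 84523615751) (l 112977774599))) (a (c (l 54458844999) (l 58216941367)) (l 4))))))) (a (a (c (b (l 16778128) (a (b (l 16778568)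 (l 80765520855)) (c (l 75933682215) (l 77544295239)))) (b (l 16778528) (b (a (l 21172849255) (c (l 74859939719) (l 89892324919))) (c (l 121030837047) (l 123715191591))))) (b (c (c (b (l 16778520) (l 65196263767)) (b (l 16778568) (l 66806876775))) (c (b (l 16778592) (a (l 57143199543) (l 111367161591))) (b (l 16778280) (a (l 75396810055) (l 112977774535))))) (l 4))) (a (a (b (b (c (l 86134230039) (c (l 96334776231) (l 104924710807))) (l 4)) (l 4)) (l 4)) (l 4)))))), by decide +kernel⟩

def k20_pp_022 : ∃ t, chk3 f_pp_022 t 143 244 1 = true :=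
  ⟨(b (a (b (c (a (l 16777960) (a (l 16778128) (b (l 16776392) (c (l 16778456) (l 21172849031))))) (c (a (l 16775320) (a (l 16776248) (b (l 16779088) (c (l 16778216) (l 22783461511))))) (a (l 16775368) (b (l 16776192) (a (l 16776664) (c (l 23857203367) (l 25467816103))))))) (a (a (c (c (l 16777792) (l 16777856)) (c (l 16777896) (l 16777928))) (b (c (l 16776736) (l 16778136)) (c (b (c (l 16777952) (l 16778320)) (c (l 73786198503) (l 75396811511))) (c (b (l 32447138023) (l 78081166071)) (b (l 37278976087) (a (l 89892324999) (l 111367161847))))))) (c (c (b (a (c (l 33520879687) (l 34057750647)) (l 122104579079)) (l 140895061767)) (b (a (a (l 16778536) (l 52311361991)) (l 121567708199)) (l 139284449079))) (b (b (c (a (l 16777216) (l 82913004343)) (a (l 16777240) (l 88818584183))) (a (c (a (l 16777424) (l 104387839591)) (a (l 16777432) (l 104924710887))) (l 4))) (c (l 138747578167) (a (l 134452610343) (l 4))))))) (b (b (a (a (c (l 16778648) (c (l 16778392) (l 16778408))) (c (b (c (l 16778360) (l 39963330887))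 (c (l 82376133223) (l 84523617079))) (c (b (l 42647685495) (l 87207971719)) (b (l 49627007047) (l 94187293383))))) (a (a (c (l 132305126599) (c (l 130694513879) (l 132841997495))) (l 4)) (l 4))) (a (a (b (c (c (l 59827554663) (l 61975038503)) (c (l 64659393239) (a (l 16777456) (l 111367161975)))) (c (l 131768256871) (c (l 131768255559) (l 133915739175)))) (l 4)) (l 4))) (l 4))) (a (b (b (a (a (b (c (c (l 48016394471) (l 49090136519)) (c (c (l 53385103335) (l 55532586983)) (a (l 16777400) (l 99556001655)))) (c (l 92576681463) (c (l 127473288135) (l 130157642663)))) (l 4)) (l 4)) (l 4)) (l 4)) (l 4))), by decide +kernel⟩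

def k21_pp_022 : ∃ t, chk3 f_pp_022 t 71 245 1 = true :=
  ⟨(a (b (a (b (a (c (c (b (l 16777512) (b (l 16778120) (a (l 16776904) (l 57143199959)))) (b (l 16776256) (a (l 16776744) (a (l 16778184) (a (l 46405781607) (l 63048780151)))))) (c (a (l 16776392) (b (l 16777920) (b (l 16778504) (a (l 16778056) (l 94187292679))))) (a (l 16776416) (b (l 16777944) (b (l 16778520) (a (l 16778064) (l 107072194295))))))) (c (b (a (a (l 16778328) (c (l 31373396023) (l 31910267015))) (b (c (l 61438167319) (a (l 16778056) (l 94724163735))) (a (l 94724164519) (l 4)))) (a (a (c (l 80765520423) (l 83986746087)) (l 4)) (l 4))) (b (b (a (l 16778352) (a (c (l 16778064) (l 60364424775)) (a (l 94724164679) (l 4)))) (a (a (l 16778584) (c (l 66806876151) (l 82913003015))) (c (l 130694513751) (l 132841997383)))) (a (b (c (a (l 81302390743) (l 4)) (l 120493966711)) (l 4)) (l 4))))) (b (a (b (c (a (c (l 31373396023) (l 32447137767)) (a (l 94724164455) (l 4))) (a (a (l 16778536) (c (l 56069457863) (l 73249326631))) (c (l 131231384599)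 (l 133378868231)))) (a (a (c (c (l 67343746919) (l 69491230775)) (c (l 73249327159) (l 92576679319))) (l 4)) (l 4))) (l 4)) (l 4))) (l 4)) (l 4)) (l 4)), by decide +kernel⟩

def k22_pp_022 : ∃ t, chk3 f_pp_022 t 140 492 1 = true :=
  ⟨(a (a (c (c (l 16775904) (l 16775808)) (c (l 16775720) (l 16775648))) (b (c (l 16776160) (l 16776008)) (c (a (l 16777088) (l 16777552)) (c (l 16776648) (c (l 16776664) (l 16776680)))))) (b (a (c (l 16777040) (c (c (l 16776304) (l 16776296)) (l 16776320))) (c (b (c (l 16777704) (l 16777744)) (c (a (l 16778200) (b (c (l 34594620999) (l 34594621031)) (l 79154907431))) (a (l 16778232) (a (b (l 16778504) (l 74323068855)) (b (l 60364425159) (l 4)))))) (b (a (l 16777488) (a (l 16776640) (l 16778256))) (c (a (b (l 16778072) (l 16778128)) (a (b (l 16777216) (l 75933681751)) (b (l 63048779719) (l 4)))) (a (c (l 16778280) (l 16778280)) (a (b (l 16777224) (l 81839261607)) (b (l 66806876103) (l 4)))))))) (a (b (c (c (a (l 16776440) (a (l 16776912) (c (l 27078428231) (l 27078428279))))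 (b (l 16776592) (a (l 16776688) (a (l 16778464) (l 55532586727))))) (b (c (l 16776624) (l 16776648)) (b (c (l 16778232) (c (l 16778248) (l 16778248))) (a (l 16776824) (a (l 16778256) (a (l 79691778471) (l 4))))))) (b (c (a (c (l 16777704) (l 16777736)) (a (c (l 67343746823) (l 68954359671)) (l 4))) (a (c (l 16777760) (l 16778104)) (a (c (l 70564972567) (l 73786198023)) (l 4)))) (a (c (c (a (l 16777944) (l 80765519687)) (a (l 16777968) (l 82376132615))) (c (a (l 34057750199) (l 84523616263)) (a (l 36742104775) (l 88281712631)))) (l 4)))) (a (b (c (a (b (c (l 16777976) (l 37815846599)) (l 94724164279)) (c (l 131768255399) (l 130157642695))) (b (c (a (l 39963330279) (l 89892325447)) (a (l 42647684855) (l 96334776215))) (a (c (l 97408518247) (l 104924710791)) (l 4)))) (l 4)) (l 4))))), by decide +kernel⟩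

def k23_pp_022 : ∃ t, chk3 f_pp_022 t 280 493 1 = true :=
  ⟨(b (a (c (c (a (l 16777384) (b (l 16776224) (a (l 16776840) (b (l 16776944) (l 43721426423))))) (a (l 16777336) (b (l 16776224) (b (l 16776824) (c (l 23857202615) (l 23857202647)))))) (c (b (l 16777256) (b (l 16776544) (a (l 16776632) (a (l 16777096) (l 42647684839))))) (c (b (l 16775968) (b (l 16776560) (a (l 16777960) (a (l 16777104) (l 47479522711))))) (b (l 16775984) (a (l 16777768) (a (l 16776912) (b (l 16777024) (l 54458844391)))))))) (c (b (c (a (l 16778120) (b (c (l 27078428087) (l 27078428135)) (a (l 62511908567) (l 4)))) (a (l 16778152) (a (b (l 16778424) (l 63585650487)) (b (l 50163877575) (l 4))))) (a (a (c (b (l 16777904) (l 90966067031)) (b (l 16777936) (l 123715192775))) (b (c (l 75933681431) (l 77007423431)) (l 4))) (l 4))) (b (c (a (l 16778184) (b (a (l 16777136) (l 51774490487)) (a (l 65196263399) (l 4)))) (a (l 16778200) (a (b (l 16777144) (c (l 82913002663) (l 87744840855))) (b (c (l 59827553671) (l 68417488087))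 (l 4))))) (a (b (c (a (l 16778040) (l 79154907095)) (a (l 30836524663) (l 81302390887))) (a (c (l 94724163687) (l 96334776407)) (l 4))) (l 4))))) (a (c (b (b (c (a (l 16778288) (a (l 57680070295) (l 94187292567))) (a (l 16778320) (a (l 58753812231) (l 130157643863)))) (a (a (c (l 16777872) (l 16777904)) (c (l 71101843159) (l 72175585175))) (l 4))) (a (a (c (l 132841997191) (l 131768255399)) (l 4)) (l 4))) (b (b (c (a (l 16778344) (a (c (l 60901295671) (l 63585650199)) (l 129620771639))) (a (l 16778352) (a (c (l 66270004743) (l 81302389863)) (l 131768255271)))) (a (a (c (l 16777920) (l 16777928)) (c (l 74323068823) (c (l 82376132087) (l 94187291895)))) (l 4))) (a (b (a (c (l 89355454519) (l 90429196327)) (l 4)) (l 4)) (l 4)))) (l 4))), by decide +kernel⟩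

def k24_pp_022 : ∃ t, chk3 f_pp_022 t 281 493 1 = true :=
  ⟨(b (b (b (a (a (a (c (l 94724164215) (c (l 96871647303) (l 104387839815))) (l 4)) (l 4)) (l 4)) (l 4)) (l 4)) (l 4)), by decide +kernel⟩

def k25_pp_022 : ∃ t, chk3 f_pp_022 t 141 246 1 = true :=
  ⟨(b (a (b (a (c (b (a (b (c (l 16777784) (l 16778144)) (a (b (l 16778272) (l 69491231079)) (l 94187293447))) (b (c (l 82913003879) (l 83986745735)) (l 4))) (a (c (l 140895061351) (l 139284448647)) (l 4))) (b (a (c (b (l 16778168) (a (l 45868910327) (l 97408518279))) (b (l 16877881239) (a (l 49627006711) (l 103314098087)))) (a (b (c (l 81302390935) (l 91502937831)) (l 4)) (l 4))) (a (b (c (l 132841998695) (l 131768255559)) (l 4)) (l 4)))) (l 4)) (l 4)) (l 4)) (l 4)), by decide +kernel⟩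

def k26_pp_022 : ∃ t, chk3 f_pp_022 t 70 247 1 = true :=
  ⟨(l 4), by decide +kernel⟩

def k27_pp_022 : ∃ t, chk3 f_pp_022 t 71 123 1 = true :=
  ⟨(l 4), by decide +kernel⟩

def k28_pp_022 : ∃ t, chk3 f_pp_022 t 17 31 1 = true :=
  ⟨(b (a (b (a (l 6) (b (a (a (l 6) (a (l 6) (l 4))) (l 4)) (l 4))) (l 4)) (l 4)) (l 4)), by decide +kernel⟩

def k29_pp_022 : ∃ t, chk3 f_pp_022 t 18 28 1 = true :=
  ⟨(b (a (a (l 16727456) (l 16733976)) (a (l 16740456) (l 16746896))) (a (a (b (l 16717856) (l 16746640)) (b (l 16745448) (l 16753312))) (a (b (l 16752024) (l 16754704)) (b (l 16758552) (a (l 16764896) (l 16768184)))))), by decide +kernel⟩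

def k30_pp_022 : ∃ t, chk3 f_pp_022 t 36 29 1 = true :=
  ⟨(b (b (a (c (l 16734856) (l 16732488)) (c (l 16751912) (l 16749880))) (a (c (l 16753312) (l 16748768)) (a (l 16757440) (l 16763440)))) (b (a (c (a (l 16759816) (l 16763160)) (a (l 16758248) (l 16761768))) (a (c (l 16766496) (l 16765272)) (c (l 16769816) (l 16768760)))) (a (a (b (l 16762816) (c (l 16765048) (l 16769296))) (b (c (l 16758936) (l 16757880)) (c (l 16768424) (l 16767600)))) (a (c (b (l 16767536) (l 16771792)) (b (l 16766648) (l 16771128))) (c (b (l 16770872) (l 16775144)) (b (l 16770152) (l 16774648))))))), by decide +kernel⟩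

def k31_pp_022 : ∃ t, chk3 f_pp_022 t 37 58 1 = true :=
  ⟨(a (c (b (l 16758440) (a (l 16764880) (l 16768152))) (b (l 16756728) (a (l 16763528) (l 16766968)))) (b (c (l 16764920) (l 16763528)) (c (a (l 16771424) (l 16774680)) (a (l 16770392) (l 16768560))))), by decide +kernel⟩

def k32_pp_022 : ∃ t, chk3 f_pp_022 t 37 118 1 = true :=
  ⟨(a (a (c (l 16770512) (l 16769608)) (c (l 16771840) (l 16773072))) (b (a (l 16774640) (c (l 16775648) (l 16775104))) (a (c (l 16775920) (b (l 16774992) (l 16777400))) (b (a (l 16777888) (c (l 16780216) (l 16779200))) (a (c (c (l 16778120) (l 16778288)) (c (l 16779728) (b (l 16780376) (l 16779256)))) (b (c (a (l 16776680) (b (l 16780112) (a (l 16780256) (l 130694519447)))) (a (l 16779528) (b (c (l 16777640) (l 16777680)) (a (l 70564975703) (l 134989481447))))) (a (c (b (l 48553268983) (a (l 89355458295) (l 4))) (b (c (l 54995718455) (l 75396811431)) (a (l 96871651239) (l 4)))) (c (l 133378870071) (c (l 131768257303) (l 133915740855)))))))))), by decide +kernel⟩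

def k33_pp_022 : ∃ t, chk3 f_pp_022 t 74 119 1 = true :=
  ⟨(b (a (c (l 16774200) (l 16773640)) (a (c (l 16776688) (l 16776248)) (b (l 16777056) (a (l 16779096) (c (l 16780200) (l 16777824)))))) (a (b (c (l 16777400) (l 16777016)) (a (c (l 16778720) (l 16778592)) (a (c (l 16776288) (l 16776504)) (b (c (l 16775440) (l 16775656)) (c (c (b (l 16776560) (l 16778632)) (l 19025366887)) (b (l 16779424) (c (l 33520881383) (c (l 38352719159) (l 41573944567))))))))) (b (a (c (l 16777584) (a (l 16774584) (l 16779416))) (b (a (c (l 16776056) (l 16776272)) (a (c (l 16779608) (l 16779784)) (c (b (l 16779840) (l 70564975559)) (b (l 16777376) (c (l 88281713255) (l 90966068279)))))) (b (c (a (l 16779840) (b (l 83986749063) (l 128010159847))) (a (c (l 16777352) (l 16777392)) (c (l 121567708599) (l 124252063095)))) (a (c (a (l 16779568) (l 119957100903)) (a (c (l 16777680) (l 16777688)) (b (l 101166617399) (l 109219679975)))) (l 4))))) (a (b (c (a (l 16779312) (b (c (l 16778752) (l 37815848791)) (a (l 73249330151)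 (l 125325805287)))) (a (c (l 16779464) (l 16779520)) (b (c (l 41037074375) (a (l 16777392) (l 81839262535))) (a (c (l 94724164215) (l 96871648487)) (l 128547030711))))) (a (a (c (b (l 16778824) (l 93113554215)) (b (c (l 16777608) (l 16777624)) (b (l 99019133799) (l 4)))) (b (c (c (l 82913005303) (l 87744843559)) (b (l 91502941175) (l 110830292375))) (l 4))) (l 4))) (b (a (b (c (l 132305127351) (a (l 133378869991) (l 4))) (l 4)) (l 4)) (l 4)))))), by decide +kernel⟩

def k34_pp_022 : ∃ t, chk3 f_pp_022 t 75 119 1 = true :=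
  ⟨(b (a (b (c (b (l 16776792) (a (l 16779720) (a (l 16776360) (a (l 16779896) (b (l 16780112) (l 90429199991)))))) (a (l 16779232) (b (l 16778304) (a (l 16779208) (b (l 16780008) (a (l 16779696) (l 96871651255))))))) (a (c (b (l 16778672) (a (l 16779600) (a (b (l 16780120) (l 117809617207)) (b (l 79691781239) (l 4))))) (b (c (l 16778856) (l 16778928)) (a (c (l 16779752) (l 16779152)) (a (b (l 16780256) (l 97945392951)) (c (l 121030837751) (l 123715192231)))))) (b (b (a (c (l 34594624519) (c (l 16778920) (l 44258299863))) (c (l 128010159927) (a (l 131768255831) (l 4)))) (a (c (a (l 64659395527) (l 130694519527)) (c (l 82376135831) (l 116198999143))) (l 4))) (a (a (a (c (l 128547031239) (l 128547031191)) (l 4)) (l 4)) (l 4))))) (b (a (b (a (c (c (l 16779816) (l 16779296)) (c (l 29225914951) (b (l 16777136) (l 70564972695)))) (b (c (a (l 16780312) (l 93650425495)) (a (l 59827557415) (l 99556005831))) (c (l 129620772871) (a (l 133915739671) (l 4))))) (a (b (c (a (l 77544297719) (l 128547036071)) (c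 (l 118883353943) (l 121567708439))) (l 4)) (l 4))) (l 4)) (l 4))) (a (b (a (b (a (b (c (a (l 55532589783) (l 128010164775)) (a (c (l 16778936) (l 81302391511)) (l 134452610439))) (c (l 131231385719) (a (l 132841997943) (l 4)))) (l 4)) (l 4)) (l 4)) (l 4)) (l 4))), by decide +kernel⟩

def k35_pp_022 : ∃ t, chk3 f_pp_022 t 19 28 1 = true :=
  ⟨(b (a (b (c (l 16753944) (l 16751304)) (a (l 16757184) (l 16763584))) (a (b (l 16762096) (l 16769952)) (b (l 16768376) (l 16765800)))) (a (a (b (l 16759808) (c (l 16763376) (l 16761856))) (b (l 16766264) (c (l 16769736) (l 16768512)))) (b (a (l 16767440) (c (l 16774400) (l 16773296))) (a (a (l 16773960) (c (l 16777640) (l 16776760))) (b (a (l 16778320) (c (l 16782848) (l 16780856))) (b (a (l 16780088) (a (l 16783800) (b (c (l 16782576) (l 16782968)) (a (c (l 16783288) (l 16778272)) (c (l 94187300551) (l 125862676455)))))) (a (c (l 16780176) (l 16780680)) (a (b (c (l 16781712) (c (l 16780664) (l 45868915671))) (a (c (l 68417495767) (c (l 89355457239) (l 94187295735)))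 (c (l 130157644583) (l 133915740823)))) (b (c (l 129083903207) (a (l 134989482279) (l 4))) (l 4)))))))))), by decide +kernel⟩

def k36_pp_022 : ∃ t, chk3 f_pp_022 t 38 58 1 = true :=
  ⟨(b (a (c (l 16771368) (l 16770280)) (a (l 16775728) (c (l 16776752) (b (l 16776512) (l 16778960))))) (a (b (c (l 16774848) (l 16774096)) (a (l 16776384) (c (a (l 16777168) (l 16780680)) (a (l 16777280) (b (l 16772992) (l 16779936)))))) (b (a (c (l 16777056) (b (l 16781144) (l 16779568))) (b (a (l 16778760) (a (l 16781272) (c (l 16780960) (c (l 16779912) (l 27615303623))))) (a (a (c (l 16776376) (l 16781960)) (b (l 16782280) (c (b (l 16780464) (l 90429201959)) (c (l 67343751383) (l 83986747751))))) (b (a (c (l 50700754295) (c (l 56606332615) (l 75933683415))) (c (l 124252063943) (b (l 119420228295) (l 4)))) (a (c (l 130157644439) (b (l 134452611095) (l 4))) (l 4)))))) (a (b (a (c (l 16780328) (l 16780688)) (b (c (l 16779424) (c (l 16779672) (l 16779768))) (c (a (l 38352722359) (b (l 77544299543) (l 130157649351)))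 (a (c (l 16780432) (l 67880618375)) (c (l 119957096183) (l 122641450647)))))) (a (a (b (c (l 16776768) (l 16777056)) (c (b (l 16780408) (l 115125262919)) (b (l 54458849639) (a (l 96871650791) (l 112977777367))))) (b (c (c (l 16780032) (l 50163881559)) (b (l 16777784) (a (l 16777832) (l 117809615511)))) (c (l 130694515367) (b (l 133378869271) (l 4))))) (a (b (b (c (l 122104584999) (l 128010162359)) (l 4)) (l 4)) (l 4)))) (b (a (b (a (c (b (l 63048784375) (l 127473294343)) (c (l 81302395559) (l 112977775207))) (c (l 128547032183) (l 128547032055))) (l 4)) (l 4)) (l 4)))))), by decide +kernel⟩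

def k37_pp_022 : ∃ t, chk3 f_pp_022 t 39 58 1 = true :=
  ⟨(b (a (b (a (l 16780272) (c (b (l 16778200) (a (l 16774760) (a (l 16776624) (a (l 16780120) (l 48016400871))))) (a (l 16778992) (b (l 16779960) (a (l 16782256) (b (l 16777456) (a (l 16780680) (l 112977776839)))))))) (a (b (c (l 16779304) (l 16779768)) (a (c (l 16781112) (l 16781504)) (a (b (l 16782400) (c (l 62511915191) (b (l 16778088) (l 104387845079)))) (b (c (l 52311367191) (c (l 60364429095) (l 77544296727))) (c (b (l 130694514823) (l 4)) (l 133915740727)))))) (b (a (b (c (l 16782264) (l 16779992)) (c (a (l 16780432) (l 115125265927)) (a (l 44795174279) (b (l 104924713303) (l 126399547655))))) (b (a (c (l 78081172295) (b (l 93113552919) (l 117809616711))) (c (l 129620779287) (l 128010161159))) (l 4))) (a (a (b (c (l 124252071847) (b (l 119957099751) (l 126399548071))) (l 4)) (l 4)) (l 4))))) (b (a (b (a (c (l 16781936) (c (l 16782272) (l 16781096))) (b (a (c (l 16782968) (l 16778024)) (c (l 78081172071) (b (l 95797908167) (l 118346487959))))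 (a (c (l 117272749655) (b (l 109756552519) (l 126399547719))) (l 4)))) (a (b (c (a (l 16780648) (l 125862684647)) (a (c (l 16778064) (l 81839264007)) (l 131768256727))) (c (l 131231387239) (a (l 133915740759) (l 4)))) (l 4))) (b (a (b (c (l 131231387751) (a (l 128010161207) (l 4))) (l 4)) (l 4)) (l 4))) (l 4))) (a (b (a (b (a (a (b (c (l 16780104) (l 16780376)) (c (b (l 79154912327) (l 129083902279)) (b (l 101166616823) (l 126936418535)))) (b (c (a (l 66806881175) (l 94187298695)) (b (l 75396815751) (l 134989481831))) (l 4))) (b (c (l 132842000423) (a (l 128547032039) (l 4))) (l 4))) (l 4)) (l 4)) (l 4)) (l 4))), by decide +kernel⟩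

def k38_pp_022 : ∃ t, chk3 f_pp_022 t 19 59 1 = true :=
  ⟨(a (b (a (b (a (b (c (l 16777856) (l 16775504)) (a (c (l 16779608) (l 16779928)) (b (c (l 16776088) (l 16781616)) (c (a (l 16779624) (b (l 47479527239) (a (l 84523619415) (l 125325805495)))) (a (l 16779864) (b (c (l 16777840) (l 73249328311)) (a (l 97408522151) (l 127473289079)))))))) (b (b (a (c (l 16775496) (l 16775808)) (a (b (l 16781056) (c (l 16780288) (l 42647689239))) (c (b (l 62511913367) (l 128010165255)) (b (c (l 83449875767) (l 86671101879)) (l 134452613511))))) (a (a (l 16781824) (c (b (l 16779872) (l 54995720295)) (c (l 42110817143) (b (l 16777512) (l 79691779623))))) (a (c (b (l 80765524839) (l 129083907559)) (c (l 119957096199) (l 122641450663))) (l 4)))) (a (b (b (c (a (l 16780144) (l 121567714103)) (a (l 16780336) (a (l 117809614839) (l 4)))) (a (c (l 70028106231) (a (l 70564975847) (l 116735873367))) (l 4))) (a (c (l 132305128151) (b (l 132841999719) (l 4))) (l 4))) (l 4)))) (a (b (a (a (a (c (l 16779152) (l 16780056))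 (b (l 16781776) (c (l 51237623703) (b (l 16777680) (l 96871651239))))) (c (b (l 16779912) (a (l 82376137527) (l 130157644071))) (b (c (l 16780080) (l 32447140615)) (b (a (l 82376135671) (l 127473288871)) (l 128010160471))))) (b (a (c (b (l 63048784215) (l 129083901879)) (b (a (l 16777848) (l 117809614679)) (a (l 116199002295) (l 4)))) (l 4)) (l 4))) (a (b (a (a (b (c (l 94187296535) (l 101703489287)) (l 4)) (l 4)) (l 4)) (l 4)) (l 4))) (l 4))) (b (a (b (a (b (a (c (l 130157644951) (b (l 127473289703) (l 4))) (l 4)) (l 4)) (l 4)) (l 4)) (l 4)) (l 4))) (l 4)) (l 4)), by decide +kernel⟩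

def k39_pp_022 : ∃ t, chk3 f_pp_022 t 72 120 1 = true :=
  ⟨(b (a (c (l 16769336) (l 16769880)) (c (c (l 16772880) (l 16772568)) (l 16770816))) (b (a (a (l 16771408) (l 16773152)) (c (l 16773352) (l 16772936))) (a (c (l 16772144) (l 16771672)) (c (a (l 16774696) (l 16776392)) (a (l 16774352) (l 16776128)))))), by decide +kernel⟩

def k40_pp_022 : ∃ t, chk3 f_pp_022 t 73 240 1 = true :=
  ⟨(a (c (c (l 16774904) (l 16774672)) (a (l 16774784) (l 16776552))) (b (a (l 16776032) (a (l 16777312) (c (l 16779624) (l 16777208)))) (a (c (l 16777080) (c (l 16775872) (l 16775296))) (b (a (c (l 16775488) (l 16775672)) (c (c (l 16779304) (l 16779408)) (c (l 16779480) (l 7751077447)))) (b (c (a (l 16776672) (a (l 44258300055) (l 92039812039))) (a (l 16779448) (a (c (l 51774491479) (l 71101843351)) (b (l 96871650055) (l 4))))) (a (c (c (l 34594622983) (c (l 35131493687) (l 36205235575))) (a (l 16779896) (c (l 63585651831) (l 79154907527)))) (a (a (c (l 130694516503) (l 134452611559)) (l 4)) (l 4)))))))), by decide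 +kernel⟩

def k41_pp_022 : ∃ t, chk3 f_pp_022 t 73 241 1 = true :=
  ⟨(a (b (c (a (l 16775896) (a (l 16777160) (a (l 16777992) (l 16779280)))) (b (l 16776072) (b (a (l 16773264) (l 16778248)) (a (l 16776568) (c (l 16778992) (l 16779040)))))) (a (b (c (l 16776240) (l 16776416)) (c (a (l 16778520) (a (l 16778800) (b (l 16777064) (b (l 54458846919) (l 93113553015))))) (a (l 16778664) (a (c (l 16778248) (l 16778280)) (b (l 16779800) (c (l 72712457751) (b (l 77544294567) (l 116735871559)))))))) (b (b (a (c (l 16776416) (l 16776560)) (c (a (l 16778968) (c (l 74323070439) (l 77007425111))) (a (c (l 16777416) (l 16777440)) (c (l 81302392407) (l 99556002391))))) (a (c (c (a (l 16779472) (l 16778736)) (l 23857204455)) (a (l 16779640) (c (l 43721427991) (l 49627007895)))) (a (c (l 88281715495) (c (l 123178321015) (l 125862675527))) (l 4)))) (b (a (c (a (c (l 53921975399) (l 52848233735)) (l 131231384967)) (a (c (l 56069459239) (c (l 72712456359) (l 76470552727))) (c (l 132841997703) (l 134989481303)))) (l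 4)) (l 4))))) (b (a (a (c (b (l 16778768) (b (c (l 28689042727) (c (l 29225913271) (l 29762784423))) (a (c (l 61975039287) (l 64659393991)) (l 130157643303)))) (b (l 16778928) (b (a (l 16779768) (c (l 52848233607) (l 60901297031))) (a (c (l 69491232135) (l 89892325623)) (c (l 131231385127) (l 133378868727)))))) (b (c (b (l 16779616) (a (l 36205236183) (l 83449877287))) (b (c (l 16779728) (l 16778456)) (a (c (l 16778832) (l 46405782407)) (c (l 89355456343) (l 104387841095))))) (a (b (c (l 125325806135) (b (l 96334779047) (l 4))) (l 4)) (l 4)))) (b (b (a (a (c (c (l 70028103127) (l 72712457911)) (c (l 78618037783) (l 95261035191))) (l 4)) (l 4)) (l 4)) (l 4))) (l 4))), by decide +kernel⟩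

def k42_pp_022 : ∃ t, chk3 f_pp_022 t 72 242 1 = true :=
  ⟨(a (c (b (l 16774992) (a (l 16775696) (c (l 16776808) (l 16776688)))) (b (l 16775296) (a (l 16775408) (a (l 16775448) (a (l 16776352) (b (l 16774872) (l 16779056))))))) (b (a (c (l 16776896) (c (l 16775400) (l 16775416))) (b (a (c (l 16777616) (l 16775144)) (c (l 16778856) (c (l 16776344) (l 16779008)))) (a (c (c (l 16778488) (l 16778568)) (c (b (l 16778904) (l 16778360)) (c (l 16778664) (l 16778680)))) (a (c (b (l 16778416) (c (l 71638715687) (l 73786199575))) (b (l 16779176) (c (b (l 70028102135) (l 110293420599)) (b (l 83449874583) (l 133915739207))))) (b (c (c (l 59290684567) (l 60901297447)) (b (c (l 16777528) (l 16778848)) (c (l 104924711127) (l 110830291207)))) (l 4)))))) (a (b (c (b (l 16777192) (a (l 16778680) (a (l 16776992) (b (l 16778704) (l 76470554343))))) (a (l 16778416) (a (l 16778680) (b (l 16779560) (b (c (l 16777456) (l 16777472)) (c (l 85597358727) (l 99019131159))))))) (b (a (c (c (l 16778120) (l 16778192)) (c (l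 16778248) (l 16778280))) (a (c (c (l 64122522759) (b (l 51774491191) (l 95261035559))) (c (b (l 61438167143) (l 101703486343)) (b (l 75396810519) (l 114051516951)))) (l 4))) (a (c (a (c (l 16778592) (l 29762783895)) (c (l 77007424807) (b (l 72712457079) (l 128547030247)))) (c (a (l 31373396711) (b (l 81302391271) (l 130157642983))) (a (c (l 36205234455) (l 38889589031)) (b (l 93650421975) (l 130157642935))))) (l 4)))) (b (a (b (c (a (c (l 35668363991) (l 37278976855)) (c (l 83986746823) (l 118883356295))) (a (c (l 38889589751) (c (l 45332040135) (l 48016394711))) (c (l 121567708231) (l 124252062743)))) (a (c (l 131768257143) (c (l 131768255831) (l 134989481255))) (l 4))) (l 4)) (l 4))))), by decide +kernel⟩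

def k43_pp_022 : ∃ t, chk3 f_pp_022 t 144 243 1 = true :=
  ⟨(b (a (c (a (l 16777488) (a (l 16777536) (b (l 16778024) (a (l 16778808) (b (l 16776760) (b (l 16778656) (l 85060488439))))))) (c (b (l 16777208) (a (l 16775536) (a (l 16777776) (a (l 16778232) (b (l 16776840) (l 55532587719)))))) (a (c (l 16777416) (l 16777440)) (b (l 16775256) (b (l 16777728) (a (l 16776880) (a (l 16777320) (l 59290683767)))))))) (b (a (c (c (l 16778920) (l 16778344)) (c (l 16778400) (b (l 16778704) (l 16778168)))) (a (b (c (l 16776880) (l 16778288)) (b (c (c (l 16778712) (l 16778768)) (c (l 16778464) (l 54458845335))) (c (l 84523617975) (c (l 91502938871) (l 104387840391))))) (b (a (c (l 29225913463) (c (l 16777400) (l 16777416))) (c (c (l 59290683943) (l 61975038711)) (c (l 66270006023) (l 85597357943)))) (c (l 133915740903) (c (l 131231385047) (l 133378868663)))))) (a (a (c (b (c (l 16778488) (l 16778552)) (b (c (l 78081166039) (l 80765520711)) (l 4))) (b (c (l 16778592) (l 26004687431)) (c (b (l 85060488007) (l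 4)) (l 123178321559)))) (b (c (c (l 70028102791) (b (l 63048780375) (l 129083901015))) (b (c (l 63585651303) (l 81302390887)) (c (l 131231384663) (l 134452610087)))) (l 4))) (l 4)))) (a (b (b (a (c (l 16778600) (c (l 16778024) (l 16778056))) (b (c (a (l 31910267895) (l 92576681703)) (a (c (l 16778720) (l 16778080)) (c (l 130694513671) (l 133915739111)))) (a (c (c (l 73249327751) (l 75933682439)) (c (l 80228649735) (l 95797905495))) (l 4)))) (a (c (a (c (l 16778392) (l 16778448)) (b (a (l 16778680) (l 78618037383)) (l 92576681623))) (c (a (l 16778488) (b (l 52848232967) (l 97945389927))) (a (l 16778512) (b (l 60901296327) (l 130157642647))))) (l 4))) (b (b (a (a (c (c (l 68954360311) (l 71101844151)) (c (l 74859940535) (l 80765520551))) (l 4)) (l 4)) (a (l 4) (l 4))) (l 4))) (l 4))), by decide +kernel⟩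

def k44_pp_022 : ∃ t, chk3 f_pp_022 t 145 243 1 = true :=
  ⟨(b (a (b (b (b (a (a (c (l 88818585351) (a (l 94187294247) (l 4))) (l 4)) (l 4)) (l 4)) (l 4)) (l 4)) (l 4)) (l 4)), by decide +kernel⟩

def k45_pp_022 : ∃ t, chk3 f_pp_022 t 73 121 1 = true :=
  ⟨(b (a (b (a (b (b (a (c (c (l 16778344) (l 16778752)) (a (l 16779520) (c (l 35131493223) (l 39426460487)))) (a (c (c (l 78618037671) (l 114588386263)) (c (l 117272740823) (l 119957095335))) (l 4))) (a (b (c (a (l 16778664) (l 92039811191)) (a (l 16779080) (c (l 107609066023) (l 111904033591)))) (a (c (l 69491232567) (c (l 80228649527) (l 94187292887))) (l 4))) (l 4))) (b (a (a (c (l 131768255975) (c (l 131231385079) (l 133378868679))) (l 4)) (l 4)) (l 4))) (l 4)) (l 4)) (l 4)) (l 4)), by decide +kernel⟩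

def k46_pp_022 : ∃ t, chk3 f_pp_022 t 37 60 1 = true :=
  ⟨(b (a (b (a (b (a (a (b (l 16778888) (c (l 16779040) (l 16779208))) (c (b (l 16776088) (b (c (l 16778504) (l 16778608)) (a (l 52848234951) (l 126936417655)))) (b (l 16778896) (b (c (l 16778672) (l 29762784839)) (a (c (l 60364426407) (l 78081165591)) (b (l 97408521127) (l 4))))))) (b (b (a (c (l 16779568) (l 16779720)) (c (a (l 61438169943) (l 128547030567)) (a (c (l 70564973863) (l 83986746151)) (b (l 94724167063) (l 4))))) (a (c (c (l 46942654583) (c (l 48016395975) (l 49090137831))) (a (l 33520881783) (b (l 72175587895) (l 97408521207)))) (l 4))) (b (a (a (c (l 87744844583) (b (l 94187295607) (l 127473288583))) (l 4)) (l 4)) (l 4)))) (a (b (b (a (c (c (l 40500203207) (c (l 41573944823) (l 42647686711))) (a (l 16778704) (c (l 75933683175) (l 91502938935)))) (c (l 132841999735) (c (l 131231385687) (l 133378869271)))) (a (a (c (l 79691780983) (c (l 87744843447) (l 101166615703))) (l 4)) (l 4))) (l 4)) (l 4))) (l 4)) (l 4)) (l 4)) (l 4)),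 by decide +kernel⟩

def k47_pp_022 : ∃ t, chk3 f_pp_022 t 18 61 1 = true :=
  ⟨(l 4), by decide +kernel⟩

def k48_pp_022 : ∃ t, chk3 f_pp_022 t 19 30 1 = true :=
  ⟨(l 4), by decide +kernel⟩

def k49_pp_022 : ∃ t, chk3 f_pp_022 t 9 31 1 = true :=
  ⟨(l 4), by decide +kernel⟩

def k50_pp_022 : ∃ t, chk3 f_pp_022 t 10 12 1 = true :=
  ⟨(a (b (c (l 16671080) (l 16666432)) (a (l 16695968) (l 16728048))) (b (l 16720816) (a (l 16739352) (l 16750800)))), by decide +kernel⟩

def k51_pp_022 : ∃ t, chk3 f_pp_022 t 20 13 1 = true :=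
  ⟨(b (a (a (l 16745216) (l 16751080)) (a (l 16756992) (l 16752440))) (b (a (l 16758160) (l 16766376)) (a (a (l 16762832) (l 16768992)) (a (l 16773840) (b (l 16777336) (c (l 16786448) (l 16782416))))))), by decide +kernel⟩

def k52_pp_022 : ∃ t, chk3 f_pp_022 t 21 26 1 = true :=
  ⟨(a (c (l 16764192) (l 16765128)) (b (l 16754696) (a (l 16767840) (l 16776816)))), by decide +kernel⟩

def k53_pp_022 : ∃ t, chk3 f_pp_022 t 21 27 1 = true :=
  ⟨(b (a (a (l 16771616) (b (l 16773712) (l 16784336))) (c (b (a (l 16782232) (l 16781680)) (a (b (l 16769656) (l 16785728)) (b (a (l 16787408) (b (l 16784560) (a (l 16786720) (l 121567713191)))) (a (b (l 71101860935) (l 129620776423)) (l 134452619655))))) (b (b (l 16786160) (a (l 16765680) (l 16785816))) (a (b (l 16792096) (b (l 16785616) (a (l 16775424) (l 47479537783)))) (b (a (l 16788528) (b (a (l 16779616) (l 111367170983)) (a (l 115125267767) (l 123178325431)))) (a (b (a (l 16779640) (l 116735881047)) (a (l 136063225687) (l 125325810231))) (b (l 126936423959)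 (l 4)))))))) (a (b (a (l 16785656) (b (l 16787488) (a (l 16785360) (a (c (l 16788264) (l 16783832)) (b (l 16786864) (c (l 94187307783) (l 120493973879))))))) (a (b (c (l 16783048) (l 16784144)) (a (c (l 16786296) (c (l 16787024) (l 16782096))) (b (a (l 16786192) (c (l 75933694807) (b (l 16778664) (l 116199008263)))) (a (c (l 86134243463) (b (l 103850973207) (l 136063225223))) (c (l 125862690871) (l 126936421767)))))) (b (c (a (b (l 16783496) (a (l 16783680) (l 131231388103))) (b (a (l 125862678359) (l 4)) (l 4))) (a (b (a (l 16778040) (l 82913007031)) (a (b (l 16779240) (l 114588394935)) (l 134989484183))) (b (a (l 133915741847) (l 4)) (l 4)))) (a (b (a (c (l 129620776055) (l 125325808375)) (l 4)) (l 4)) (l 4))))) (b (a (b (c (a (c (l 16783080) (l 35131505479)) (b (a (l 16778608) (l 131768259111)) (a (l 130157646983) (l 4)))) (a (b (l 16777928) (a (l 16779072) (l 102777233895))) (b (a (l 96334782455) (l 135526355207)) (a (l 124252066567) (l 4))))) (a (b (a (c (l 88818598887) (l 102240368647)) (c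 (l 125862680343) (l 124252067127))) (a (c (l 124788939207) (l 125862680503)) (l 4))) (l 4))) (l 4)) (l 4)))), by decide +kernel⟩

def k54_pp_022 : ∃ t, chk3 f_pp_022 t 11 12 1 = true :=
  ⟨(a (b (a (l 16707056) (l 16746336)) (a (l 16762424) (a (l 16776632) (l 16786224)))) (b (a (l 16764864) (l 16783544)) (a (b (l 16770024) (a (l 16784400) (b (l 16768040) (c (l 16797264) (l 16788840))))) (c (b (l 16787384) (b (a (l 16796816) (b (l 16791800) (l 88818621079))) (a (b (l 56069487031) (a (l 91502965239) (l 124252071831))) (b (a (l 129083909127) (l 4)) (l 4))))) (b (l 16795552) (b (a (l 16778120) (b (l 57680098119) (a (l 16782512) (l 119957102007)))) (a (b (a (l 16781584) (l 100092892439)) (a (l 114051530551) (l 121030845239))) (b (a (l 120493973575) (l 4)) (l 4))))))))), by decide +kernel⟩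

def k55_pp_022 : ∃ t, chk3 f_pp_022 t 22 13 1 = true :=
  ⟨(b (b (a (a (l 16765664) (l 16775432)) (a (l 16785216) (b (l 16768752) (a (l 16786864) (c (l 41037096231) (b (l 16779032) (b (l 16780864) (l 114588399767)))))))) (a (c (b (l 16785112) (a (l 16770040) (b (l 16787416) (a (l 16789832) (b (l 92576700935) (l 129620778199)))))) (b (l 16787128) (a (l 16792752) (b (a (l 16776192) (l 16780016)) (a (b (l 16779480) (l 75933694855)) (a (l 116735880935) (l 123715197239))))))) (b (c (a (b (l 16796944) (a (l 16778584) (a (l 16789544) (l 93113573911)))) (a (b (l 76470576247) (b (l 121030844087) (l 4))) (a (l 136063232743) (l 128010172791)))) (a (b (l 16788104) (a (l 16779792) (b (l 94187301047) (l 129620775863)))) (b (a (b (l 16779824) (l 117272755207)) (l 123715203831)) (a (l 126936425095) (l 4))))) (a (c (b (a (b (l 16789512) (l 131231389831)) (b (l 124788941607) (l 4))) (b (l 126936430215) (l 4))) (b (a (b (l 93113569383) (l 123178325655)) (l 127473297175)) (a (l 126936427543) (l 4)))) (l 4))))) (b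 (a (b (a (b (a (l 16776496) (b (l 16789880) (a (l 16790016) (c (l 16786440) (l 119420235655))))) (a (a (c (l 16789784) (l 57680084599)) (c (l 82913020775) (a (l 100629751495) (l 124252065607)))) (b (a (c (l 89892345463) (l 136600096935)) (c (l 123715198327) (l 124788939463))) (l 4)))) (c (a (b (c (l 126936422839) (l 127473296311)) (l 4)) (l 4)) (b (a (b (l 124252071527) (l 126399553159)) (l 4)) (l 4)))) (a (a (b (c (l 134452617543) (a (l 127473293911) (l 4))) (l 4)) (l 4)) (l 4))) (l 4)) (l 4))), by decide +kernel⟩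

def k56_pp_022 : ∃ t, chk3 f_pp_022 t 23 13 1 = true :=
  ⟨(b (b (a (b (c (a (l 16787368) (a (b (l 16780464) (l 120493971239)) (b (l 92039837207) (l 126399557559)))) (a (a (l 16776640) (l 16790952)) (b (a (l 16781512) (l 118883368279)) (a (l 123715206871) (l 125862685303))))) (c (a (b (a (l 16790608) (b (l 88281742087) (l 119957102887))) (a (b (l 89355480023) (l 124252071223)) (l 4))) (b (l 126936433415) (l 4))) (a (b (a (l 70028119351) (b (l 117272757415) (l 121567714775))) (a (b (l 117809616343) (l 124788941159)) (l 4))) (b (a (l 125862686407) (l 4)) (l 4))))) (b (a (b (a (c (l 125325814647) (l 125325813415)) (l 4)) (l 4)) (l 4)) (l 4))) (l 4)) (l 4)), by decide +kernel⟩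

def k57_pp_022 : ∃ t, chk3 f_pp_022 t 20 56 1 = true :=
  ⟨(a (a (b (l 16774632) (l 16777336)) (b (l 16770360) (b (l 16782216) (a (l 16780344) (a (l 16784072) (c (l 16775640) (l 16781568))))))) (b (a (c (l 16777640) (a (l 16786688) (l 16781144))) (c (b (b (l 16783232) (a (l 16773168) (l 34057762663))) (a (b (l 16776056) (a (l 16782880) (b (l 16783560) (l 94187304679)))) (a (b (l 66270017399) (b (l 129083904263) (l 4))) (a (l 134989485863) (l 128010165879))))) (b (a (l 16783184) (a (l 16776280) (a (l 16783168) (b (l 16777760) (l 97408523079))))) (a (b (l 16787320) (a (l 16778232) (b (l 91502941767) (l 133915741079)))) (b (a (b (l 16778936) (l 111904039175)) (b (l 135526354327) (l 4))) (a (l 128010163127) (l 4))))))) (a (b (a (l 16784424) (c (b (l 16782160) (a (l 16783568) (b (l 90429207591) (l 125862678935)))) (c (b (l 16782696) (a (l 53921982295) (l 125325806871))) (b (l 16782912) (a (l 75933684279) (l 128010161207)))))) (a (c (a (b (l 16787104) (b (l 16783648) (l 118346494759))) (b (l 57680081559)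 (l 131231388535))) (b (a (l 16777256) (b (l 16778576) (c (l 99019135767) (l 104387847255)))) (a (b (l 60364433911) (a (l 112440909063) (l 124788935863))) (b (l 126399549015) (l 4))))) (b (a (c (l 129083904087) (b (l 134452612055) (l 4))) (l 4)) (l 4)))) (b (a (c (b (a (b (l 78081174871) (l 131231387303)) (l 128547045687)) (l 4)) (b (a (b (l 100629748407) (l 134452612567)) (l 127473292983)) (l 4))) (l 4)) (l 4))))), by decide +kernel⟩

def k58_pp_022 : ∃ t, chk3 f_pp_022 t 20 57 1 = true :=
  ⟨(a (b (a (b (a (l 16776544) (l 16781264)) (a (c (l 16781824) (l 16782528)) (a (c (l 16780344) (l 16780944)) (b (l 16784280) (b (c (l 16783336) (c (l 16778352) (l 16778416))) (a (c (l 16781320) (l 92039816791)) (c (l 130157644823) (l 125862677367)))))))) (b (a (b (l 16784752) (a (l 16781192) (c (l 35668372103) (c (l 39963337783) (b (l 16777856) (l 82376136471)))))) (c (b (a (l 16782752) (b (l 67880627367) (a (l 95261043511) (l 4)))) (a (b (l 80228658679) (l 131231398151)) (l 4))) (b (a (l 31373404679) (b (a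 (l 16778608) (l 117272747175)) (l 135526354007))) (a (b (a (l 97408521879) (l 126399548103)) (l 125862678311)) (l 4))))) (a (b (c (a (b (l 16782960) (l 70028111111)) (c (l 125862678215) (l 125862679543))) (a (b (l 16778144) (a (l 16778344) (l 119420231047))) (c (l 128547032695) (l 131231392263)))) (a (a (b (c (l 132305128087) (l 136063224359)) (l 4)) (l 4)) (l 4))) (l 4)))) (a (b (a (b (c (l 16781096) (a (l 16785680) (c (l 16782680) (l 16782824)))) (a (b (l 16782352) (c (l 44795176327) (a (l 16778016) (l 96334779207)))) (b (a (c (l 16780640) (l 88818585815)) (c (l 130157644295) (l 136063224231))) (c (l 130157645575) (a (l 126399548151) (l 4)))))) (c (b (a (b (l 59827562695) (l 124252064695)) (l 133378872759)) (l 4)) (b (a (b (a (l 16778328) (l 108145941175)) (a (l 120493972055) (l 125862678119))) (b (l 128010162231) (l 4))) (l 4)))) (a (b (a (b (a (c (l 84523622487) (l 103850972423)) (c (l 125862677815) (l 127473290359))) (l 4)) (l 4)) (l 4)) (l 4))) (l 4))) (b (a (b (a (b (a (c (l 131768260295)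 (b (l 126936420663) (l 4))) (l 4)) (l 4)) (l 4)) (l 4)) (l 4)) (l 4))), by decide +kernel⟩

def k59_pp_022 : ∃ t, chk3 f_pp_022 t 21 28 1 = true :=
  ⟨(b (a (b (a (b (a (c (b (a (l 16783776) (b (l 90966079015) (l 130157646007))) (a (b (l 92039821495) (l 124788937607)) (l 4))) (b (a (l 52848242775) (b (l 113514652327) (l 124788936615))) (a (b (l 133378870183) (l 126399549975)) (l 4)))) (b (a (c (l 126399562551) (l 126399551575)) (l 4)) (l 4))) (l 4)) (l 4)) (l 4)) (l 4)) (l 4)), by decide +kernel⟩

def k60_pp_022 : ∃ t, chk3 f_pp_022 t 10 29 1 = true :=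
  ⟨(l 4), by decide +kernel⟩

def k61_pp_022 : ∃ t, chk3 f_pp_022 t 10 15 1 = true :=
  ⟨(l 4), by decide +kernel⟩

def k62_pp_022 : ∃ t, chk3 f_pp_022 t 11 7 1 = true :=
  ⟨(l 4), by decide +kernel⟩

def k63_pp_022 : ∃ t, chk3 f_pp_022 t 3 2 1 = true :=
  ⟨(a (b (a (b (a (l 16667672) (l 16708688)) (a (l 16691784) (l 16709832))) (b (a (l 16772504) (l 16805848)) (a (l 16763816) (l 20501770535)))) (a (b (a (b (l 16681920) (l 16716192)) (b (l 16717912) (l 16751000))) (a (b (l 16776784) (a (l 16750344) (l 16789336))) (a (b (l 16740048) (l 16806896)) (b (l 16757048) (b (l 16774560) (b (l 16804552) (a (l 16785456) (b (l 16802680) (a (l 16781200) (l 110293442087)))))))))) (b (a (a (l 16778040) (l 16794376)) (b (l 16790664) (a (l 16780888) (l 16799368)))) (a (b (a (l 16773104) (a (l 16783784) (b (l 16785704) (c (l 16789632) (l 16787784))))) (c (a (b (a (l 16783360) (l 16808312)) (b (a (l 16802248) (b (l 86134276871) (l 124788952039))) (a (b (l 115125269655) (l 126399566167)) (l 4)))) (b (b (a (l 16782152)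 (b (l 16803888) (l 121030853367))) (a (b (l 16804136) (l 122641467159)) (l 4))) (l 4))) (a (b (a (l 16786448) (b (l 16789128) (l 95261075959))) (a (b (l 94724207719) (l 122641484439)) (b (l 120493978839) (l 4)))) (b (a (b (l 16782232) (l 118883365319)) (b (l 117272772967) (l 4))) (l 4))))) (b (b (a (l 16786712) (b (l 16801152) (l 94187355991))) (a (b (a (l 16783624) (l 82913066839)) (a (c (l 83449927047) (l 80765557351)) (l 126936459111))) (b (a (l 137136983383) (l 4)) (l 4)))) (b (a (a (a (b (l 119957115911) (l 4)) (l 4)) (l 4)) (l 4)) (l 4))))))) (b (l 2) (b (l 2) (b (l 2) (l 4))))), by decide +kernel⟩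

def k64_pp_022 : ∃ t, chk3 f_pp_022 t 3 3 1 = true :=
  ⟨(a (b (a (b (a (b (a (b (l 16751680) (l 16799984)) (b (l 16790728) (c (b (l 16800640) (a (l 16803536) (b (l 88818624647) (a (l 109219695623) (l 122641465351))))) (b (a (l 16778600) (l 16784480)) (a (b (l 16783312) (l 87744852119)) (a (l 119420240919) (l 123178330887))))))) (b (a (c (b (a (l 16775408) (l 53385139015)) (a (b (l 16781256) (l 80228686631)) (c (l 130157654471) (a (l 129083909175) (l 126399561047))))) (b (a (l 16778064) (a (l 16782952) (l 91502949607))) (a (b (l 16782760) (a (l 16780568) (l 130694519319))) (b (a (l 118346503127) (l 123178330567)) (l 125862694263))))) (b (a (b (a (c (l 16780264) (l 16785552)) (b (l 110293435671) (l 121567718903))) (a (b (l 117809620119) (l 121567719655)) (l 4))) (l 4)) (l 4))) (a (b (a (c (b (a (l 129620778519) (l 123715204775)) (l 4)) (b (a (l 118883359655) (l 124252074007)) (l 4))) (l 4)) (l 4)) (l 4)))) (b (a (b (b (a (l 16778392) (l 16795312)) (a (l 16800024) (c (l 87208020567) (b (l 108145956935)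 (l 115662136423))))) (b (a (a (c (l 89355492647) (l 113514666663)) (c (l 132305141847) (l 118346491607))) (b (a (l 121567720407) (l 4)) (l 4))) (a (b (a (l 123178339799) (l 4)) (l 4)) (l 4)))) (b (b (a (c (l 87208019479) (b (l 16781160) (l 129620779559))) (b (a (l 110293442119) (l 122104594887)) (l 4))) (a (b (a (l 118346493767) (l 4)) (l 4)) (l 4))) (l 4))) (l 4))) (l 4)) (b (l 4) (l 4))) (l 4)) (l 4)), by decide +kernel⟩

theorem s65_pp_022 : ∃ t, chk3 f_pp_022 t 3 1 1 = true := ex3_b k63_pp_022 k64_pp_022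

theorem s66_pp_022 : ∃ t, chk3 f_pp_022 t 20 28 1 = true := ex3_b k57_pp_022 k58_pp_022

theorem s67_pp_022 : ∃ t, chk3 f_pp_022 t 10 28 1 = true := ex3_a s66_pp_022 k59_pp_022

theorem s68_pp_022 : ∃ t, chk3 f_pp_022 t 10 14 1 = true := ex3_b s67_pp_022 k60_pp_022

theorem s69_pp_022 : ∃ t, chk3 f_pp_022 t 10 7 1 = true := ex3_b s68_pp_022 k61_pp_022

theorem s70_pp_022 : ∃ t, chk3 f_pp_022 t 5 7 1 = true := ex3_a s69_pp_022 k62_pp_022

theorem s71_pp_022 : ∃ t, chk3 f_pp_022 t 11 13 1 = true := ex3_a k55_pp_022 k56_pp_022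

theorem s72_pp_022 : ∃ t, chk3 f_pp_022 t 11 6 1 = true := ex3_b k54_pp_022 s71_pp_022

theorem s73_pp_022 : ∃ t, chk3 f_pp_022 t 21 13 1 = true := ex3_b k52_pp_022 k53_pp_022

theorem s74_pp_022 : ∃ t, chk3 f_pp_022 t 10 13 1 = true := ex3_a k51_pp_022 s73_pp_022

theorem s75_pp_022 : ∃ t, chk3 f_pp_022 t 10 6 1 = true := ex3_b k50_pp_022 s74_pp_022

theorem s76_pp_022 : ∃ t, chk3 f_pp_022 t 5 6 1 = true := ex3_a s75_pp_022 s72_pp_022

theorem s77_pp_022 : ∃ t, chk3 f_pp_022 t 5 3 1 = true := ex3_b s76_pp_022 s70_pp_022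

theorem s78_pp_022 : ∃ t, chk3 f_pp_022 t 72 243 1 = true := ex3_a k43_pp_022 k44_pp_022

theorem s79_pp_022 : ∃ t, chk3 f_pp_022 t 72 121 1 = true := ex3_b k42_pp_022 s78_pp_022

theorem s80_pp_022 : ∃ t, chk3 f_pp_022 t 36 121 1 = true := ex3_a s79_pp_022 k45_pp_022

theorem s81_pp_022 : ∃ t, chk3 f_pp_022 t 73 120 1 = true := ex3_b k40_pp_022 k41_pp_022

theorem s82_pp_022 : ∃ t, chk3 f_pp_022 t 36 120 1 = true := ex3_a k39_pp_022 s81_pp_022

theorem s83_pp_022 : ∃ t, chk3 f_pp_022 t 36 60 1 = true := ex3_b s82_pp_022 s80_pp_022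

theorem s84_pp_022 : ∃ t, chk3 f_pp_022 t 18 60 1 = true := ex3_a s83_pp_022 k46_pp_022

theorem s85_pp_022 : ∃ t, chk3 f_pp_022 t 18 30 1 = true := ex3_b s84_pp_022 k47_pp_022

theorem s86_pp_022 : ∃ t, chk3 f_pp_022 t 9 30 1 = true := ex3_a s85_pp_022 k48_pp_022

theorem s87_pp_022 : ∃ t, chk3 f_pp_022 t 9 15 1 = true := ex3_b s86_pp_022 k49_pp_022

theorem s88_pp_022 : ∃ t, chk3 f_pp_022 t 19 58 1 = true := ex3_a k36_pp_022 k37_pp_022

theorem s89_pp_022 : ∃ t, chk3 f_pp_022 t 19 29 1 = true := ex3_b s88_pp_022 k38_pp_022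

theorem s90_pp_022 : ∃ t, chk3 f_pp_022 t 19 14 1 = true := ex3_b k35_pp_022 s89_pp_022

theorem s91_pp_022 : ∃ t, chk3 f_pp_022 t 37 119 1 = true := ex3_a k33_pp_022 k34_pp_022

theorem s92_pp_022 : ∃ t, chk3 f_pp_022 t 37 59 1 = true := ex3_b k32_pp_022 s91_pp_022

theorem s93_pp_022 : ∃ t, chk3 f_pp_022 t 37 29 1 = true := ex3_b k31_pp_022 s92_pp_022

theorem s94_pp_022 : ∃ t, chk3 f_pp_022 t 18 29 1 = true := ex3_a k30_pp_022 s93_pp_022

theorem s95_pp_022 : ∃ t, chk3 f_pp_022 t 18 14 1 = true := ex3_b k29_pp_022 s94_pp_022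

theorem s96_pp_022 : ∃ t, chk3 f_pp_022 t 9 14 1 = true := ex3_a s95_pp_022 s90_pp_022

theorem s97_pp_022 : ∃ t, chk3 f_pp_022 t 9 7 1 = true := ex3_b s96_pp_022 s87_pp_022

theorem s98_pp_022 : ∃ t, chk3 f_pp_022 t 140 493 1 = true := ex3_a k23_pp_022 k24_pp_022

theorem s99_pp_022 : ∃ t, chk3 f_pp_022 t 140 246 1 = true := ex3_b k22_pp_022 s98_pp_022

theorem s100_pp_022 : ∃ t, chk3 f_pp_022 t 70 246 1 = true := ex3_a s99_pp_022 k25_pp_022

theorem s101_pp_022 : ∃ t, chk3 f_pp_022 t 70 123 1 = true := ex3_b s100_pp_022 k26_pp_022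

theorem s102_pp_022 : ∃ t, chk3 f_pp_022 t 35 123 1 = true := ex3_a s101_pp_022 k27_pp_022

theorem s103_pp_022 : ∃ t, chk3 f_pp_022 t 71 244 1 = true := ex3_a k19_pp_022 k20_pp_022

theorem s104_pp_022 : ∃ t, chk3 f_pp_022 t 71 122 1 = true := ex3_b s103_pp_022 k21_pp_022

theorem s105_pp_022 : ∃ t, chk3 f_pp_022 t 141 491 1 = true := ex3_a k17_pp_022 k18_pp_022

theorem s106_pp_022 : ∃ t, chk3 f_pp_022 t 141 245 1 = true := ex3_b k16_pp_022 s105_pp_022

theorem s107_pp_022 : ∃ t, chk3 f_pp_022 t 70 245 1 = true := ex3_a k15_pp_022 s106_pp_022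

theorem s108_pp_022 : ∃ t, chk3 f_pp_022 t 70 122 1 = true := ex3_b k14_pp_022 s107_pp_022

theorem s109_pp_022 : ∃ t, chk3 f_pp_022 t 35 122 1 = true := ex3_a s108_pp_022 s104_pp_022

theorem s110_pp_022 : ∃ t, chk3 f_pp_022 t 35 61 1 = true := ex3_b s109_pp_022 s102_pp_022

theorem s111_pp_022 : ∃ t, chk3 f_pp_022 t 35 30 1 = true := ex3_b k13_pp_022 s110_pp_022

theorem s112_pp_022 : ∃ t, chk3 f_pp_022 t 139 494 1 = true := ex3_a k10_pp_022 k11_pp_022

theorem s113_pp_022 : ∃ t, chk3 f_pp_022 t 139 247 1 = true := ex3_b s112_pp_022 k12_pp_022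

theorem s114_pp_022 : ∃ t, chk3 f_pp_022 t 69 247 1 = true := ex3_a k9_pp_022 s113_pp_022

theorem s115_pp_022 : ∃ t, chk3 f_pp_022 t 69 123 1 = true := ex3_b k8_pp_022 s114_pp_022

theorem s116_pp_022 : ∃ t, chk3 f_pp_022 t 34 123 1 = true := ex3_a k7_pp_022 s115_pp_022

theorem s117_pp_022 : ∃ t, chk3 f_pp_022 t 34 61 1 = true := ex3_b k6_pp_022 s116_pp_022

theorem s118_pp_022 : ∃ t, chk3 f_pp_022 t 34 30 1 = true := ex3_b k5_pp_022 s117_pp_022

theorem s119_pp_022 : ∃ t, chk3 f_pp_022 t 17 30 1 = true := ex3_a s118_pp_022 s111_pp_022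

theorem s120_pp_022 : ∃ t, chk3 f_pp_022 t 17 15 1 = true := ex3_b s119_pp_022 k28_pp_022

theorem s121_pp_022 : ∃ t, chk3 f_pp_022 t 8 15 1 = true := ex3_a k4_pp_022 s120_pp_022

theorem s122_pp_022 : ∃ t, chk3 f_pp_022 t 8 14 1 = true := ex3_a k2_pp_022 k3_pp_022

theorem s123_pp_022 : ∃ t, chk3 f_pp_022 t 8 7 1 = true := ex3_b s122_pp_022 s121_pp_022

theorem s124_pp_022 : ∃ t, chk3 f_pp_022 t 4 7 1 = true := ex3_a s123_pp_022 s97_pp_022

theorem s125_pp_022 : ∃ t, chk3 f_pp_022 t 4 3 1 = true := ex3_b k1_pp_022 s124_pp_022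

theorem s126_pp_022 : ∃ t, chk3 f_pp_022 t 2 3 1 = true := ex3_a s125_pp_022 s77_pp_022

theorem s127_pp_022 : ∃ t, chk3 f_pp_022 t 2 1 1 = true := ex3_b k0_pp_022 s126_pp_022

theorem s128_pp_022 : ∃ t, chk3 f_pp_022 t 1 1 1 = true := ex3_a s127_pp_022 s65_pp_022

theorem c_pp_022 : CertN 0 536870912 0 536870912 402653184 67108864 3 true true true .pp 0 2 2
    ndN0q0 ndN0q2 pcN2 cut_pp_022 Ext.none :=
  certN0 (fam := true) (s1 := true) (s2 := true) (a := 0) (b := 2) (c := 2) (cn := .pp) (n1 := ndN0q0) (n2 := ndN0q2) (pc := pcN2) (cut := cut_pp_022) (xt := Ext.none) (P1 := 0) (W1 := 536870912) (P2 := 0) (W2 := 536870912) (P3 := 402653184) (W3 := 67108864) (N0 := 3)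
    rfl s128_pp_022

noncomputable def f_pp_023 : ℕ → ℕ → ℕ → ℕ → Bool := onCell 1610612736 536870912 0 536870912 402653184 67108864
    (rowN 3 2 true true true .up 0 2 3 (qsf 0 536870912 0 536870912 3) ndN0q0 ndN0q2 pcN3 Cut.none Ext.none)

def k0_pp_023 : ∃ t, chk3 f_pp_023 t 4 2 1 = true :=
  ⟨(a (b (b (a (l 16834192) (l 16837584)) (a (b (l 16809856) (l 16796976)) (b (l 16806352) (a (l 16791864) (l 16785840))))) (b (a (b (l 16807072) (b (a (l 16782064) (l 16776104)) (a (l 16799864) (b (b (l 16795752) (l 79154987975)) (a (l 104387895319) (l 139284450023)))))) (b (a (b (l 16781000) (l 16796240)) (b (l 16775600) (a (l 16795120) (b (l 16779272) (l 79154967799))))) (a (a (b (b (l 16773912) (l 55532585031)) (l 135526352743)) (b (b (l 16801600) (l 94724238023)) (l 4))) (b (a (b (b (l 16806376) (l 97408576935)) (l 4)) (l 4)) (l 4))))) (a (b (a (b (a (l 97945446151) (l 129620784183)) (l 4)) (l 4)) (l 4)) (l 4)))) (b (b (a (a (l 16830792) (l 16823528)) (a (l 16815080) (b (l 16818088) (l 16795704))))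 (a (b (a (l 16797152) (l 16790120)) (a (l 16800800) (b (l 16778624) (a (l 16797160) (l 16814744))))) (b (a (l 16784128) (b (l 16783640) (a (l 16780584) (l 16804040)))) (a (b (a (l 16778160) (b (l 16779728) (l 16788504))) (a (b (l 16809488) (a (l 71101889543) (l 78081200471))) (b (a (l 69491284935) (l 77544331927)) (l 94724201511)))) (b (a (b (l 16788544) (a (l 67880679079) (b (l 16796896) (l 90966108663)))) (b (b (l 16816152) (a (l 16797064) (l 65196328199))) (b (a (l 74323111127) (l 71101887079)) (l 4)))) (a (b (a (l 91502978839) (l 4)) (l 4)) (l 4))))))) (b (b (a (a (b (a (l 16795768) (l 51237689415)) (a (b (l 63048836119) (l 109219697175)) (b (l 99556025991) (l 4)))) (b (a (b (l 16809384) (l 94724191559)) (b (a (l 66806942103) (l 93650454055)) (l 4))) (l 4))) (l 4)) (l 4)) (l 4)))), by decide +kernel⟩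

def k1_pp_023 : ∃ t, chk3 f_pp_023 t 5 2 1 = true :=
  ⟨(a (b (b (a (b (l 16807616) (a (l 16790568) (l 16828864))) (l 2)) (a (b (a (b (l 16804344) (b (a (l 16786624) (l 55532652279)) (a (a (l 16794448) (l 59290744903)) (b (l 62511972695) (l 74323112375))))) (b (b (a (l 16785520) (l 16793000)) (a (l 16794048) (b (l 104790554999) (l 69491273527)))) (b (a (b (l 62511971335) (l 74859983031)) (l 77007465783)) (l 4)))) (a (a (b (b (a (l 73786240551) (l 74323112439)) (l 4)) (l 4)) (l 4)) (l 4))) (l 2))) (l 4)) (l 2)), by decide +kernel⟩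

def k2_pp_023 : ∃ t, chk3 f_pp_023 t 2 3 1 = true :=
  ⟨(l 4), by decide +kernel⟩

def k3_pp_023 : ∃ t, chk3 f_pp_023 t 3 1 1 = true :=
  ⟨(l 2), by decide +kernel⟩

theorem s4_pp_023 : ∃ t, chk3 f_pp_023 t 2 2 1 = true := ex3_a k0_pp_023 k1_pp_023

theorem s5_pp_023 : ∃ t, chk3 f_pp_023 t 2 1 1 = true := ex3_b s4_pp_023 k2_pp_023

theorem s6_pp_023 : ∃ t, chk3 f_pp_023 t 1 1 1 = true := ex3_a s5_pp_023 k3_pp_023

theorem c_pp_023 : CertN 0 536870912 0 536870912 402653184 67108864 3 true true true .up 0 2 3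
    ndN0q0 ndN0q2 pcN3 Cut.none Ext.none :=
  certN2 (fam := true) (s1 := true) (s2 := true) (a := 0) (b := 2) (c := 3) (cn := .up) (n1 := ndN0q0) (n2 := ndN0q2) (pc := pcN3) (cut := Cut.none) (xt := Ext.none) (P1 := 0) (W1 := 536870912) (P2 := 0) (W2 := 536870912) (P3 := 402653184) (W3 := 67108864) (N0 := 3)
    rfl (fun _ => rfl) s6_pp_023

noncomputable def f_pp_101 : ℕ → ℕ → ℕ → ℕ → Bool := onCell 536870912 536870912 0 536870912 402653184 67108864
    (rowN 3 0 true true true .npn 1 0 1 (qsf 536870912 536870912 0 536870912 1) ndN0q1 ndN0q0 pcN1 Cut.none Ext.none)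

def k0_pp_101 : ∃ t, chk3 f_pp_101 t 1 1 1 = true :=
  ⟨(a (l 4) (l 5)), by decide +kernel⟩

theorem c_pp_101 : CertN 536870912 536870912 0 536870912 402653184 67108864 3 true true true .npn 1 0 1
    ndN0q1 ndN0q0 pcN1 Cut.none Ext.none :=
  certN0 (fam := true) (s1 := true) (s2 := true) (a := 1) (b := 0) (c := 1) (cn := .npn) (n1 := ndN0q1) (n2 := ndN0q0) (pc := pcN1) (cut := Cut.none) (xt := Ext.none) (P1 := 536870912) (W1 := 536870912) (P2 := 0) (W2 := 536870912) (P3 := 402653184) (W3 := 67108864) (N0 := 3)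
    rfl k0_pp_101

noncomputable def f_pp_102 : ℕ → ℕ → ℕ → ℕ → Bool := onCell 536870912 536870912 0 536870912 402653184 67108864
    (rowN 3 0 true true true .npp 1 0 2 (qsf 536870912 536870912 0 536870912 2) ndN0q1 ndN0q0 pcN2 Cut.none Ext.none)

def k0_pp_102 : ∃ t, chk3 f_pp_102 t 1 1 1 = true :=
  ⟨(a (l 4) (l 5)), by decide +kernel⟩

theorem c_pp_102 : CertN 536870912 536870912 0 536870912 402653184 67108864 3 true true true .npp 1 0 2
    ndN0q1 ndN0q0 pcN2 Cut.none Ext.none :=
  certN0 (fam := true) (s1 := true) (s2 := true) (a := 1) (b := 0) (c := 2) (cn := .npp) (n1 := ndN0q1) (n2 := ndN0q0) (pc := pcN2) (cut := Cut.none) (xt := Ext.none) (P1 := 536870912) (W1 := 536870912) (P2 := 0) (W2 := 536870912) (P3 := 402653184) (W3 := 67108864) (N0 := 3)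
    rfl k0_pp_102

noncomputable def f_pp_112 : ℕ → ℕ → ℕ → ℕ → Bool := onCell 536870912 536870912 536870912 536870912 402653184 67108864
    (rowN 3 0 true true true .dn 1 1 2 (qsf 536870912 536870912 536870912 536870912 2) ndN0q1 ndN0q1 pcN2 Cut.none Ext.none)

def k0_pp_112 : ∃ t, chk3 f_pp_112 t 1 1 1 = true :=
  ⟨(l 4), by decide +kernel⟩

theorem c_pp_112 : CertN 536870912 536870912 536870912 536870912 402653184 67108864 3 true true true .dn 1 1 2
    ndN0q1 ndN0q1 pcN2 Cut.none Ext.none :=
  certN0 (fam := true) (s1 := true) (s2 := true) (a := 1) (b := 1) (c := 2) (cn := .dn) (n1 := ndN0q1) (n2 := ndN0q1) (pc := pcN2) (cut := Cut.none) (xt := Ext.none) (P1 := 536870912) (W1 := 536870912) (P2 := 536870912) (W2 := 536870912) (P3 := 402653184) (W3 := 67108864) (N0 := 3)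
    rfl k0_pp_112

noncomputable def f_pp_113 : ℕ → ℕ → ℕ → ℕ → Bool := onCell 536870912 536870912 536870912 536870912 402653184 67108864
    (rowN 3 0 true true true .nn 1 1 3 (qsf 536870912 536870912 536870912 536870912 3) ndN0q1 ndN0q1 pcN3 Cut.none Ext.none)

def k0_pp_113 : ∃ t, chk3 f_pp_113 t 1 1 1 = true :=
  ⟨(l 4), by decide +kernel⟩

theorem c_pp_113 : CertN 536870912 536870912 536870912 536870912 402653184 67108864 3 true true true .nn 1 1 3
    ndN0q1 ndN0q1 pcN3 Cut.none Ext.none :=
  certN0 (fam := true) (s1 := true) (s2 := true) (a := 1) (b := 1) (c := 3) (cn := .nn) (n1 := ndN0q1) (n2 := ndN0q1) (pc := pcN3) (cut := Cut.none) (xt := Ext.none) (P1 := 536870912) (W1 := 536870912) (P2 := 536870912) (W2 := 536870912) (P3 := 402653184) (W3 := 67108864) (N0 := 3)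
    rfl k0_pp_113

noncomputable def f_pp_123 : ℕ → ℕ → ℕ → ℕ → Bool := onCell 536870912 536870912 0 536870912 402653184 67108864
    (rowN 3 0 true true true .npn 1 2 3 (qsf 536870912 536870912 0 536870912 3) ndN0q1 ndN0q2 pcN3 Cut.none Ext.none)

def k0_pp_123 : ∃ t, chk3 f_pp_123 t 1 1 1 = true :=
  ⟨(a (b (a (a (b (b (a (a (b (l 16798192) (b (l 16787096) (a (l 16786216) (l 46405881527)))) (b (l 16791768) (b (a (l 16787120) (l 16833536)) (a (b (l 16795816) (l 78081207543)) (b (l 78618078135) (l 4)))))) (b (a (b (l 16790008) (l 16820240)) (b (l 16810040) (a (b (l 16794864) (l 72712532951)) (l 80765559607)))) (a (b (a (b (l 16795360) (l 72175662535)) (l 81302431575)) (l 4)) (l 4)))) (a (b (a (b (a (b (l 59290745719) (l 77007466263)) (b (l 77007466007) (l 4))) (l 4)) (l 4)) (l 4)) (l 4))) (l 4)) (b (b (a (b (a (b (a (l 67343830295) (l 81302429223)) (l 4)) (l 4)) (l 4)) (l 4)) (l 4)) (l 4))) (l 4)) (l 4)) (l 4)), by decide +kernel⟩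

theorem c_pp_123 : CertN 536870912 536870912 0 536870912 402653184 67108864 3 true true true .npn 1 2 3
    ndN0q1 ndN0q2 pcN3 Cut.none Ext.none :=
  certN0 (fam := true) (s1 := true) (s2 := true) (a := 1) (b := 2) (c := 3) (cn := .npn) (n1 := ndN0q1) (n2 := ndN0q2) (pc := pcN3) (cut := Cut.none) (xt := Ext.none) (P1 := 536870912) (W1 := 536870912) (P2 := 0) (W2 := 536870912) (P3 := 402653184) (W3 := 67108864) (N0 := 3)
    rfl k0_pp_123

noncomputable def f_pp_202 : ℕ → ℕ → ℕ → ℕ → Bool := onCell 0 536870912 0 536870912 402653184 67108864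
    (rowN 3 0 true true true .pp 2 0 2 (qsf 0 536870912 0 536870912 2) ndN0q2 ndN0q0 pcN2 Cut.none Ext.none)

def k0_pp_202 : ∃ t, chk3 f_pp_202 t 1 1 1 = true :=
  ⟨(l 5), by decide +kernel⟩

theorem c_pp_202 : CertN 0 536870912 0 536870912 402653184 67108864 3 true true true .pp 2 0 2
    ndN0q2 ndN0q0 pcN2 Cut.none Ext.none :=
  certN0 (fam := true) (s1 := true) (s2 := true) (a := 2) (b := 0) (c := 2) (cn := .pp) (n1 := ndN0q2) (n2 := ndN0q0) (pc := pcN2) (cut := Cut.none) (xt := Ext.none) (P1 := 0) (W1 := 536870912) (P2 := 0) (W2 := 536870912) (P3 := 402653184) (W3 := 67108864) (N0 := 3)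
    rfl k0_pp_202

noncomputable def f_pp_203 : ℕ → ℕ → ℕ → ℕ → Bool := onCell 0 536870912 0 536870912 402653184 67108864
    (rowN 3 0 true true true .up 2 0 3 (qsf 0 536870912 0 536870912 3) ndN0q2 ndN0q0 pcN3 Cut.none Ext.none)

def k0_pp_203 : ∃ t, chk3 f_pp_203 t 1 1 1 = true :=
  ⟨(l 5), by decide +kernel⟩

theorem c_pp_203 : CertN 0 536870912 0 536870912 402653184 67108864 3 true true true .up 2 0 3
    ndN0q2 ndN0q0 pcN3 Cut.none Ext.none :=
  certN0 (fam := true) (s1 := true) (s2 := true) (a := 2) (b := 0) (c := 3) (cn := .up) (n1 := ndN0q2) (n2 := ndN0q0) (pc := pcN3) (cut := Cut.none) (xt := Ext.none) (P1 := 0) (W1 := 536870912) (P2 := 0) (W2 := 536870912) (P3 := 402653184) (W3 := 67108864) (N0 := 3)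
    rfl k0_pp_203

noncomputable def f_pp_213 : ℕ → ℕ → ℕ → ℕ → Bool := onCell 0 536870912 536870912 536870912 402653184 67108864
    (rowN 3 0 true true true .pnn 2 1 3 (qsf 0 536870912 536870912 536870912 3) ndN0q2 ndN0q1 pcN3 Cut.none Ext.none)

def k0_pp_213 : ∃ t, chk3 f_pp_213 t 1 1 1 = true :=
  ⟨(a (l 5) (l 4)), by decide +kernel⟩

theorem c_pp_213 : CertN 0 536870912 536870912 536870912 402653184 67108864 3 true true true .pnn 2 1 3
    ndN0q2 ndN0q1 pcN3 Cut.none Ext.none :=
  certN0 (fam := true) (s1 := true) (s2 := true) (a := 2) (b := 1) (c := 3) (cn := .pnn) (n1 := ndN0q2) (n2 := ndN0q1) (pc := pcN3) (cut := Cut.none) (xt := Ext.none) (P1 := 0) (W1 := 536870912) (P2 := 536870912) (W2 := 536870912) (P3 := 402653184) (W3 := 67108864) (N0 := 3)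
    rfl k0_pp_213

noncomputable def f_pm_001 : ℕ → ℕ → ℕ → ℕ → Bool := onCell 0 536870912 0 536870912 402653184 67108864
    (rowN 3 0 true true false .up 0 0 1 (qsf 0 536870912 0 536870912 1) ndN0q0 ndN0q0 pcN1 Cut.none Ext.none)

def k0_pm_001 : ∃ t, chk3 f_pm_001 t 1 1 1 = true :=
  ⟨(l 3), by decide +kernel⟩

theorem c_pm_001 : CertN 0 536870912 0 536870912 402653184 67108864 3 true true false .up 0 0 1
    ndN0q0 ndN0q0 pcN1 Cut.none Ext.none :=
  certN0 (fam := true) (s1 := true) (s2 := false) (a := 0) (b := 0) (c := 1) (cn := .up) (n1 := ndN0q0) (n2 := ndN0q0) (pc := pcN1) (cut := Cut.none) (xt := Ext.none) (P1 := 0) (W1 := 536870912) (P2 := 0) (W2 := 536870912) (P3 := 402653184) (W3 := 67108864) (N0 := 3)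
    rfl k0_pm_001

noncomputable def cut_pm_011 : Cut := Cut.of [[⟨0, 0, 0, 67108864⟩, ⟨1, 1, 0, 67108864⟩, ⟨2, 1, 0, 67108864⟩]]

noncomputable def f_pm_011 : ℕ → ℕ → ℕ → ℕ → Bool := onCell 536870912 536870912 536870912 536870912 402653184 67108864
    (rowN 3 2 true true false .pnn 0 1 1 (qsf 0 536870912 536870912 536870912 1) ndN0q0 ndN0q1 pcN1 cut_pm_011 Ext.none)

def k0_pm_011 : ∃ t, chk3 f_pm_011 t 1 1 1 = true :=
  ⟨(a (l 3) (b (l 3) (a (l 3) (b (l 3) (a (l 3) (b (l 3) (a (l 3) (b (l 3) (l 6))))))))), by decide +kernel⟩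

theorem c_pm_011 : CertN 0 536870912 536870912 536870912 402653184 67108864 3 true true false .pnn 0 1 1
    ndN0q0 ndN0q1 pcN1 cut_pm_011 Ext.none :=
  certN2 (fam := true) (s1 := true) (s2 := false) (a := 0) (b := 1) (c := 1) (cn := .pnn) (n1 := ndN0q0) (n2 := ndN0q1) (pc := pcN1) (cut := cut_pm_011) (xt := Ext.none) (P1 := 0) (W1 := 536870912) (P2 := 536870912) (W2 := 536870912) (P3 := 402653184) (W3 := 67108864) (N0 := 3)
    rfl (fun _ => rfl) k0_pm_011

end Pool.Agent.Strip051.G.I3_8_7_16.Tab.C.NA00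

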