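import Pool.Agent.Strip051.G.I3_8_7_16.Tab

/-! # Certificates N2 (generated) -/

set_option linter.all false
set_option maxRecDepth 100000

namespace Pool.Agent.Strip051.G.I3_8_7_16.Tab.C.NA00

open Pool.Agent.Strip051.PB Pool.Agent.Strip051.PB.T
open Pool.Agent.Strip051.G.I3_8_7_16.Tab

noncomputable def cut_pm_022 : Cut := Cut.of [[⟨0, 0, 0, 67108864⟩, ⟨1, 1, 0, 67108864⟩, ⟨2, 1, 0, 67108864⟩], [⟨0, 0, 1, 33554432⟩, ⟨1, 1, 0, 33554432⟩, ⟨2, 1, 1, 33554432⟩]]

noncomputable def f_pm_022 : ℕ → ℕ → ℕ → ℕ → Bool := onCell 1073741824 536870912 0 536870912 402653184 67108864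
    (rowN 3 2 true true false .pp 0 2 2 (qsf 0 536870912 0 536870912 2) ndN0q0 ndN0q2 pcN2 cut_pm_022 Ext.none)

def k0_pm_022 : ∃ t, chk3 f_pm_022 t 4 2 1 = true :=
  ⟨(b (l 1) (a (l 1) (a (l 1) (b (l 1) (b (l 1) (a (l 1) (l 16521320))))))), by decide +kernel⟩

def k1_pm_022 : ∃ t, chk3 f_pm_022 t 8 3 1 = true :=
  ⟨(b (l 1) (b (a (l 1) (b (a (l 1) (a (l 1) (b (l 1) (b (a (l 1) (l 16674200)) (a (l 6) (l 16666952)))))) (a (l 6) (a (l 6) (a (l 6) (a (l 6) (b (l 16671032) (l 16677424)))))))) (a (l 6) (a (l 6) (a (l 6) (a (l 6) (b (b (l 16705648) (l 16701464)) (b (l 16718096) (c (l 16725528) (l 16724456)))))))))), by decide +kernel⟩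

def k2_pm_022 : ∃ t, chk3 f_pm_022 t 9 6 1 = true :=
  ⟨(b (a (l 1) (b (a (l 16552160) (l 16594296)) (a (b (l 16569008) (l 16580920)) (l 16606672)))) (a (b (a (l 1) (b (a (l 1) (l 16600752)) (a (l 16639336) (b (l 16610208) (l 16616640))))) (a (a (l 1) (b (b (l 1) (a (l 1) (b (l 1) (l 16639712)))) (b (a (l 16644256) (c (l 16646312) (l 16637520))) (a (c (l 16650928) (l 16642776)) (l 16644504))))) (b (a (b (a (l 16629272) (l 16626832)) (a (b (l 16634184) (l 16639336)) (l 16633360))) (b (l 16623144) (c (l 16634200) (l 16625040)))) (b (a (c (l 16643024) (l 16634088)) (c (l 16638672) (l 16629544))) (a (l 16651416) (l 16636208)))))) (b (a (b (l 16614232) (a (l 16608480) (l 16603456))) (b (l 16583024) (l 16616776))) (a (b (a (b (l 16618200) (l 16624784)) (c (l 16620904) (l 16611936))) (a (b (a (l 16630840) (l 16628584)) (l 16631544)) (b (l 16646088) (l 16626920)))) (b (a (l 16632432) (l 16606344)) (a (b (l 16620448) (l 16622336)) (b (l 16615672) (l 16617768)))))))), by decide +kernel⟩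

def k3_pm_022 : ∃ t, chk3 f_pm_022 t 9 7 1 = true :=
  ⟨(b (a (b (a (b (a (b (a (l 1) (c (l 16655904) (l 16648368))) (a (l 16668280) (l 16655112))) (b (c (l 16652120) (l 16644464)) (l 16661544))) (a (b (c (l 16662656) (l 16656176)) (l 16683472)) (c (l 16668784) (l 16672920)))) (b (a (c (l 16658696) (l 16651152)) (c (l 16643144) (l 16635448))) (a (c (l 16652536) (l 16646080)) (c (l 16646904) (l 16640320))))) (a (b (a (b (l 16665528) (l 16668560)) (b (l 16659264) (l 16662000))) (a (c (l 16696144) (l 16670960)) (b (l 16664728) (l 16667440)))) (b (a (c (l 16656888) (l 16651520)) (l 16668976)) (a (l 16680080) (l 16652280))))) (b (a (b (a (c (l 16638160) (l 16630312)) (l 16650304)) (a (l 16659072) (l 16632632))) (b (a (l 16624416) (l 16619560)) (c (l 16649112) (l 16642008)))) (a (b (b (l 16658976) (l 16660744)) (c (l 16665552) (l 16661072))) (b (a (l 16630112) (l 16624472)) (a (l 16632880) (l 16626816)))))) (a (a (b (b (a (b (l 16677568) (l 16680536)) (b (l 16670128) (l 16672792)))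 (a (c (l 16706952) (l 16704824)) (c (l 16677752) (l 16675672)))) (b (a (c (l 16712128) (l 16711064)) (l 16692304)) (b (l 16711144) (a (l 16722368) (l 16714424))))) (a (b (b (l 16684848) (l 16689472)) (b (l 16693896) (c (l 16703824) (l 16702024)))) (b (b (l 16656456) (l 16681448)) (b (l 16685240) (l 16705216))))) (b (a (b (a (l 16649240) (l 16642248)) (c (l 16681408) (l 16679296))) (b (a (l 16635496) (l 16629008)) (c (l 16656608) (l 16654192)))) (b (a (l 16675448) (l 16657328)) (a (a (l 16696760) (l 16677496)) (c (l 16675120) (l 16662488))))))), by decide +kernel⟩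

def k4_pm_022 : ∃ t, chk3 f_pm_022 t 5 2 1 = true :=
  ⟨(b (a (b (a (b (l 16429128) (l 16475760)) (b (l 16444984) (a (l 16447304) (l 16455440)))) (a (a (l 1) (l 16464480)) (b (l 16473992) (l 16430984)))) (b (a (l 16549864) (l 16488064)) (a (a (l 16507368) (l 16539032)) (b (l 16537088) (l 16486432))))) (a (b (a (a (l 16469672) (l 16479904)) (l 16496328)) (a (b (l 16477712) (a (l 16510664) (l 16499400))) (b (l 16463432) (l 16481264)))) (b (a (b (l 16461920) (l 16459136)) (b (l 16476696) (l 16468464))) (a (l 16518912) (b (l 16460712) (l 16452640)))))), by decide +kernel⟩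

def k5_pm_022 : ∃ t, chk3 f_pm_022 t 5 6 1 = true :=
  ⟨(a (b (a (b (a (l 16531120) (l 16519864)) (a (l 16575016) (l 16542920))) (b (l 16564800) (a (l 16531272) (l 16519040)))) (a (a (b (b (l 16572448) (l 16585328)) (b (a (l 16601144) (l 16595872)) (a (b (l 16610776) (l 16613216)) (l 16638592)))) (b (b (l 16561480) (l 16574472)) (b (l 16587800) (c (a (l 16606816) (a (l 16603136) (a (l 16601224) (l 16620656)))) (a (l 16597312) (a (l 16593616) (a (l 16591704) (l 16611192)))))))) (b (a (l 16619608) (l 16586752)) (a (b (l 16576656) (b (l 16586880) (l 16591928))) (b (l 16565040) (l 16599368)))))) (b (a (b (l 16475272) (a (l 16527088) (l 16492432))) (b (l 16465984) (l 16533264))) (a (a (b (l 16553304) (b (l 16552880) (l 16566792))) (b (l 16540136) (b (l 16540096) (l 16554424)))) (b (a (l 16526216) (l 16511328)) (a (b (l 16526592) (l 16541104)) (l 16561576)))))), by decide +kernel⟩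

def k6_pm_022 : ∃ t, chk3 f_pm_022 t 5 7 1 = true :=
  ⟨(a (a (a (b (b (b (a (l 16614768) (l 16610032)) (a (l 16616904) (l 16611936))) (b (a (l 16619016) (l 16613800)) (a (l 16621016) (l 16615552)))) (b (b (a (l 16622848) (l 16617104)) (c (l 16643952) (l 16640952))) (b (l 16659344) (l 16665240)))) (b (a (b (b (l 16605400) (l 16607216)) (b (l 16608992) (l 16610624))) (a (b (b (l 16602032) (l 16603944)) (b (l 16605808) (l 16607536))) (b (a (l 16622656) (b (l 16599424) (l 16601904))) (a (l 16626856) (b (l 16604224) (l 16606408)))))) (a (b (b (l 16612072) (l 16613232)) (b (l 16635008) (l 16614360))) (b (a (b (l 16609056) (l 16610304)) (a (b (l 16608496) (l 16609984)) (b (l 16608384) (l 16610088)))) (a (b (l 16611184) (l 16611568)) (a (b (l 16611112) (l 16611752)) (b (l 16632408) (l 16633264)))))))) (b (b (a (b (l 16593672) (l 16595496)) (b (l 16582848) (l 16583392))) (a (b (l 16597256) (l 16598848)) (b (l 16583832) (l 16584072)))) (b (a (b (l 16600248) (l 16601296)) (b (l 16584008)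 (l 16583536))) (a (b (l 16622912) (b (l 16602032) (l 16622864))) (b (l 16603448) (l 16622608)))))) (b (b (a (a (b (l 16571832) (l 16571032)) (b (l 16560472) (l 16558288))) (b (a (l 16548464) (l 16535520)) (a (l 16544984) (l 16530880)))) (a (b (a (l 16570072) (l 16555792)) (a (l 16568792) (l 16552856))) (a (a (l 16542600) (l 16534384)) (l 16563504)))) (a (b (b (a (l 16567144) (l 16549376)) (c (l 16599064) (l 16595208))) (b (c (l 16604944) (l 16591792)) (a (l 16578960) (l 16558488)))) (b (a (c (l 16571104) (l 16567720)) (c (l 16549192) (l 16504760))) (b (l 16538848) (a (l 16549864) (l 16543368))))))), by decide +kernel⟩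

def k7_pm_022 : ∃ t, chk3 f_pm_022 t 6 2 1 = true :=
  ⟨(a (b (b (a (l 16511656) (l 16537568)) (a (b (l 16518776) (l 16512824)) (b (l 16546424) (l 16545776)))) (b (a (b (l 16497640) (l 16483800)) (b (l 16525344) (l 16506264))) (a (b (l 16470480) (l 16477784)) (b (l 16487416) (l 16468456))))) (b (b (a (l 16566360) (l 16599136)) (a (b (l 16575544) (l 16579272)) (b (l 16609272) (l 16616856)))) (b (a (b (l 16561512) (l 16537496)) (b (l 16608264) (l 16577904))) (a (b (l 16513920) (l 16490168)) (b (l 16548880) (l 16519672)))))), by decide +kernel⟩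

def k8_pm_022 : ∃ t, chk3 f_pm_022 t 6 6 1 = true :=
  ⟨(a (b (a (c (l 16500344) (l 16494760)) (a (l 16499592) (l 16504064))) (b (a (l 16549664) (a (l 16437216) (l 16415544))) (a (b (l 16530056) (l 16566056)) (a (l 16510072) (l 16489064))))) (b (a (b (l 16507544) (l 16502984)) (b (l 16489728) (l 16500896))) (a (b (c (l 16459352) (l 16452536)) (a (l 16465440) (l 16438496))) (b (a (l 16445928) (l 16431856)) (b (l 16456784) (l 16442096)))))), by decide +kernel⟩

def k9_pm_022 : ∃ t, chk3 f_pm_022 t 12 7 1 = true :=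
  ⟨(b (b (a (b (a (l 16521400) (l 16505800)) (l 16570784)) (b (c (l 16522936) (l 16496704)) (l 16514168))) (a (a (l 16566216) (l 16546376)) (b (l 16520688) (l 16504584)))) (b (a (a (l 16508960) (l 16505736)) (b (l 16491112) (c (l 16518400) (l 16510360)))) (a (b (c (l 16541448) (l 16535152)) (a (l 16560312) (c (l 16521976) (l 16512376)))) (a (b (l 16516224) (c (l 16567120) (l 16513152))) (b (l 16540560) (c (b (l 16525112) (l 16560232)) (l 16559336))))))), by decide +kernel⟩

def k10_pm_022 : ∃ t, chk3 f_pm_022 t 13 14 1 = true :=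
  ⟨(a (b (a (b (l 16467136) (l 16461280)) (b (l 16462280) (l 16436584))) (a (l 16456280) (l 16480704))) (b (a (b (l 16415680) (l 16413256)) (b (l 16396536) (a (l 16397424) (l 16396680)))) (a (c (l 16466808) (l 16457784)) (c (l 16468688) (l 16458672))))), by decide +kernel⟩

def k11_pm_022 : ∃ t, chk3 f_pm_022 t 13 30 1 = true :=
  ⟨(a (a (b (l 16473072) (l 16499384)) (c (b (l 16464528) (l 16494672)) (l 16529520))) (b (a (l 16486104) (l 16523848)) (a (c (l 16505192) (l 16488240)) (c (a (l 16512304) (l 16514632)) (l 16515152))))), by decide +kernel⟩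

def k12_pm_022 : ∃ t, chk3 f_pm_022 t 26 31 1 = true :=
  ⟨(b (a (c (l 16534112) (l 16498488)) (c (b (l 16518160) (l 16555336)) (l 16550408))) (a (c (b (l 16535680) (c (b (l 16551880) (l 16580968)) (l 16567560))) (b (l 16518648) (a (l 16529952) (l 16535456)))) (b (c (a (l 16546680) (l 16576576)) (a (l 16527152) (l 16534296))) (c (a (c (b (l 16564408) (l 16594128)) (l 16579096)) (c (b (l 16574424) (a (l 16601832) (b (l 16584096) (c (a (l 16590360) (b (l 16592128) (l 16594416))) (l 16596184))))) (b (l 16563080) (a (l 16569280) (b (l 16572152) (l 16587040)))))) (a (l 16563088) (a (l 16568896) (a (l 16572064) (c (l 16580248) (l 16547304))))))))), by decide +kernel⟩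

def k13_pm_022 : ∃ t, chk3 f_pm_022 t 27 62 1 = true :=
  ⟨(a (c (a (l 16558168) (b (l 16534160) (l 16551104))) (a (l 16517176) (l 16542224))) (c (b (l 16558272) (l 16583856)) (b (l 16515992) (l 16529408)))), by decide +kernel⟩

def k14_pm_022 : ∃ t, chk3 f_pm_022 t 27 63 1 = true :=
  ⟨(a (b (c (a (c (l 16569216) (l 16557816)) (c (l 16572528) (l 16560680))) (a (l 16561672) (l 16542888))) (c (b (a (c (a (l 16581536) (l 16583160)) (l 16585792)) (c (l 16583688) (l 16571232))) (a (c (b (a (l 16587928) (l 16588584)) (b (a (l 16601344) (l 16601776)) (a (c (l 16595808) (l 16589528)) (c (a (l 16596160) (l 16596424)) (l 16589920))))) (a (b (l 16575616) (c (l 16582352) (l 16576088))) (c (l 16580944) (l 16574640)))) (b (c (c (l 16592440) (l 16586064)) (l 16576488)) (c (c (a (a (l 16601016) (l 14)) (l 14)) (a (c (l 16591096) (l 16587880)) (c (l 16596912) (l 16588408)))) (c (a (l 16583048) (l 16583512)) (a (l 16576600) (l 16576968))))))) (b (a (c (l 16557976) (l 16545864)) (l 16552504))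 (a (c (a (l 16575400) (l 16565168)) (a (l 16552464) (l 16552528))) (c (a (l 16565280) (l 16565472)) (l 16552448)))))) (b (c (a (c (l 16573152) (l 16560984)) (c (l 16573944) (l 16561464))) (a (l 16542704) (l 16542696))) (c (b (a (c (l 16584640) (l 16571848)) (c (l 14) (l 16572816))) (a (b (c (c (l 14) (l 16587184)) (l 16587832)) (c (c (l 14) (a (c (l 14) (l 16594272)) (l 14))) (c (a (l 16589304) (c (l 16591632) (l 16583024))) (a (l 16577432) (l 16577984))))) (c (l 14) (c (a (b (l 16581576) (c (l 14) (l 16588984))) (l 14)) (b (l 16575192) (a (l 16583872) (c (l 16586352) (l 16577648)))))))) (b (a (l 16573568) (c (l 16559640) (l 16546432))) (b (a (c (l 16564200) (l 16551024)) (c (l 16565048) (l 16551504))) (a (c (a (l 16567472) (l 16567888)) (l 16554272)) (c (c (a (l 16571808) (l 16572456)) (a (l 16564976) (l 16565528))) (c (l 16558352) (l 16551456))))))))), by decide +kernel⟩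

def k15_pm_022 : ∃ t, chk3 f_pm_022 t 7 2 1 = true :=
  ⟨(b (a (b (a (l 16636384) (l 16678368)) (a (l 16654792) (l 16701448))) (b (a (l 16724968) (l 16792448)) (a (l 16754800) (l 16823600)))) (a (b (a (b (l 16662008) (l 16629896)) (b (l 16719888) (l 16696904))) (a (b (l 16594832) (l 16559456)) (b (l 16656416) (l 16615408)))) (a (b (b (l 16784432) (l 16781080)) (b (l 16736280) (l 16707784))) (b (b (l 16857504) (a (l 16853344) (l 16893680))) (b (l 16850144) (l 16821904)))))), by decide +kernel⟩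

def k16_pm_022 : ∃ t, chk3 f_pm_022 t 14 6 1 = true :=
  ⟨(b (a (b (l 16523344) (l 16507408)) (b (l 16573520) (l 16530864))) (a (b (a (l 16442368) (l 16456968)) (a (l 16427912) (l 16439664))) (b (a (l 16476136) (l 16537544)) (a (l 16481824) (l 16488856))))), by decide +kernel⟩

def k17_pm_022 : ∃ t, chk3 f_pm_022 t 14 14 1 = true :=
  ⟨(b (a (a (b (l 16402048) (l 16419368)) (b (l 16412120) (b (l 16398216) (l 16405104)))) (b (a (l 16418832) (l 16526896)) (a (b (l 16395424) (c (l 16484448) (l 16374080))) (b (l 16492360) (c (l 16542232) (l 16392000)))))) (a (a (b (l 16429672) (l 16484272)) (b (c (l 16437472) (l 16403624)) (l 16476528))) (c (a (b (l 16501008) (l 16526760)) (b (l 16557192) (l 16582152))) (a (l 16453240) (b (l 16408880) (l 16437200)))))), by decide +kernel⟩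

def k18_pm_022 : ∃ t, chk3 f_pm_022 t 14 30 1 = true :=
  ⟨(a (b (a (c (l 16503152) (l 16465880)) (c (l 16495264) (l 16461936))) (a (c (l 16534544) (l 16493864)) (c (b (l 16520040) (l 16537656)) (l 16491400)))) (b (a (c (l 16597704) (l 16457904)) (c (l 16610216) (l 16469032))) (a (c (a (l 16573784) (l 16601832)) (l 16511008)) (c (a (l 16628504) (l 16653896)) (b (l 16495208) (l 16513728)))))), by decide +kernel⟩

def k19_pm_022 : ∃ t, chk3 f_pm_022 t 28 31 1 = true :=
  ⟨(b (a (c (b (l 16537000) (a (l 16552712) (l 16553320))) (b (l 16514672) (l 16528856))) (c (b (l 16550880) (a (l 14) (l 16590384))) (b (l 16514096) (l 16561048)))) (a (b (c (c (l 14) (a (l 16562288) (l 16563464))) (a (l 16543024) (l 16564672))) (c (a (c (l 14) (c (l 14) (b (l 16570776) (a (b (l 16576280) (c (l 14) (l 16578464))) (l 14))))) (l 14)) (b (a (c (l 16560624) (l 16547056)) (c (l 16561984) (l 16548048))) (b (a (c (l 16576768) (l 16552352)) (c (c (l 16571480) (l 16564336)) (l 16553592))) (a (a (c (c (l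 16583688) (l 16566184)) (l 16555624)) (c (c (c (l 16575832) (l 16572272)) (l 16566928)) (l 16556224))) (a (c (c (c (l 14) (l 16573200)) (l 16567784)) (l 16567416)) (c (c (l 14) (c (l 16570568) (l 16566904))) (c (l 16561408) (l 16554056))))))))) (b (c (a (l 14) (c (b (l 16640424) (l 16650256)) (l 14))) (a (l 16565712) (c (l 16553112) (l 16539216)))) (c (a (l 14) (a (l 14) (a (l 14) (c (c (l 16692560) (l 14)) (l 14))))) (a (c (c (l 14) (b (l 16560168) (a (b (l 16565744) (a (l 16569520) (l 14))) (l 14)))) (b (l 16549424) (b (l 16576208) (c (a (l 16562368) (b (l 16562424) (l 16569688))) (a (l 16554920) (l 16555880)))))) (c (l 14) (b (l 16551216) (b (c (l 16561088) (l 16553520)) (c (a (a (l 16564304) (l 14)) (l 14)) (a (l 16556960) (b (l 16557120) (l 16569648)))))))))))), by decide +kernel⟩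

def k20_pm_022 : ∃ t, chk3 f_pm_022 t 29 31 1 = true :=
  ⟨(b (a (c (a (b (l 16600336) (l 16619072)) (b (l 16627880) (l 16646272))) (b (l 16514824) (a (l 16531032) (l 16532592)))) (c (a (b (l 16654096) (l 16672104)) (b (l 16678968) (l 16696608))) (b (l 16533112) (a (l 14) (l 16567104))))) (a (b (c (a (c (l 16651696) (l 14)) (c (l 16698568) (b (l 16627096) (l 16637184)))) (c (l 14) (a (l 16540864) (l 16543024)))) (a (c (c (a (c (l 16702456) (l 14)) (b (l 16693832) (c (l 16720208) (l 16687312)))) (l 14)) (c (l 14) (b (l 16553440) (a (b (l 16559136) (a (c (l 14) (l 16559104)) (l 14))) (l 14))))) (c (a (c (b (l 16706624) (l 16716456)) (l 14)) (c (l 16723920) (b (l 16654064) (c (l 16680584) (l 14))))) (l 14)))) (a (c (b (c (l 16723120) (l 16637456)) (c (b (l 16737112) (l 16746640)) (a (c (l 16688160) (l 14)) (b (l 16679648) (c (l 16705496) (l 16674040)))))) (l 14)) (a (c (b (l 16709008) (c (l 16759064) (b (l 16691928) (l 16701936)))) (l 14)) (c (b (l 16720712) (c (l 16770136) (l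 16687840))) (a (l 14) (b (l 16597776) (c (c (l 16665552) (l 14)) (l 14))))))))), by decide +kernel⟩

def k21_pm_022 : ∃ t, chk3 f_pm_022 t 15 6 1 = true :=
  ⟨(a (b (b (l 16681360) (l 16633728)) (b (a (l 16599560) (l 16652120)) (a (l 16610848) (l 16642688)))) (b (b (l 16796216) (l 16729472)) (b (a (l 16712976) (l 16779744)) (a (b (l 16692904) (l 16679328)) (l 16758768))))), by decide +kernel⟩

def k22_pm_022 : ∃ t, chk3 f_pm_022 t 30 7 1 = true :=
  ⟨(b (b (b (a (l 16544016) (l 16597632)) (a (b (l 16530872) (c (l 16637176) (l 16515736))) (b (l 16585024) (c (l 16665376) (l 16614456))))) (a (b (c (l 16608072) (l 16467168)) (c (l 16632368) (l 16515688))) (b (c (l 16654200) (l 16520288)) (c (l 16677768) (l 16588928))))) (b (a (b (c (l 16659552) (l 16609416)) (c (a (l 16677992) (l 16700864)) (a (l 16546264) (l 16572536)))) (a (b (l 16629072) (c (l 16722528) (l 16597472))) (b (l 16630816) (c (l 16743064) (l 16621176))))) (b (a (c (a (b (l 16702568) (l 16719808)) (b (l 16724912) (l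 16741768))) (a (b (l 16574128) (l 16593664)) (b (l 16599776) (l 16618880)))) (c (a (l 16754272) (l 16774144)) (a (b (l 16624144) (l 16642824)) (b (l 16647288) (l 16665560))))) (a (c (b (a (c (l 16768304) (l 16706936)) (l 16759240)) (a (c (l 16786176) (b (l 16721200) (l 16730912))) (c (l 16806528) (l 16747952)))) (b (a (c (b (l 16640064) (l 16650080)) (l 14)) (c (l 16669008) (b (l 16603072) (l 16613440)))) (b (a (c (a (l 16654144) (l 16666264)) (l 14)) (c (l 16683848) (c (l 16638992) (l 14)))) (c (a (a (c (l 16679784) (l 14)) (c (l 16691568) (l 16661480))) (a (l 16688216) (l 16699576))) (a (l 14) (a (l 14) (c (l 16655472) (l 14)))))))) (c (a (b (l 16779632) (l 16797272)) (b (l 16798936) (l 16816160))) (b (a (a (l 16614472) (l 16646880)) (c (l 16713264) (l 16655584))) (a (c (b (l 16706208) (l 16716072)) (b (a (l 16642016) (l 16653664)) (a (c (l 16667104) (l 14)) (c (l 16678440) (l 16649640))))) (c (l 16732224) (b (l 16670592) (a (l 16675280) (l 16686216))))))))))), by decide +kernel⟩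

def k23_pm_022 : ∃ t, chk3 f_pm_022 t 31 7 1 = true :=
  ⟨(b (b (a (b (l 16665400) (a (b (l 16632800) (l 16624984)) (l 16672480))) (b (l 16743016) (l 16732376))) (a (a (b (l 16632872) (l 16657176)) (b (l 16675312) (l 16698856))) (b (a (l 16715104) (l 16752232)) (l 16755928)))) (b (a (b (a (c (l 16744312) (l 16623792)) (l 16724872)) (a (c (l 16772032) (l 16655168)) (l 16690152))) (b (a (l 16762528) (l 16797224)) (a (l 16768376) (l 16824888)))) (a (b (a (c (l 16802000) (b (l 16680336) (l 16697912))) (c (l 16836712) (b (l 16721664) (l 16738840)))) (c (a (b (l 16825832) (l 16843664)) (l 16871104)) (a (b (a (l 16705728) (l 16726280)) (b (a (l 16719904) (l 16741136)) (a (a (l 16682616) (l 16693408)) (l 16752536)))) (b (l 16758440) (c (l 16805640) (l 16734224)))))) (b (c (l 16888296) (a (l 16771200) (l 16811808))) (c (l 16923080) (a (b (l 16801200) (l 16822792)) (l 16851704))))))), by decide +kernel⟩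

theorem s24_pm_022 : ∃ t, chk3 f_pm_022 t 15 7 1 = true := ex3_a k22_pm_022 k23_pm_022

theorem s25_pm_022 : ∃ t, chk3 f_pm_022 t 15 3 1 = true := ex3_b k21_pm_022 s24_pm_022

theorem s26_pm_022 : ∃ t, chk3 f_pm_022 t 14 31 1 = true := ex3_a k19_pm_022 k20_pm_022

theorem s27_pm_022 : ∃ t, chk3 f_pm_022 t 14 15 1 = true := ex3_b k18_pm_022 s26_pm_022

theorem s28_pm_022 : ∃ t, chk3 f_pm_022 t 14 7 1 = true := ex3_b k17_pm_022 s27_pm_022

theorem s29_pm_022 : ∃ t, chk3 f_pm_022 t 14 3 1 = true := ex3_b k16_pm_022 s28_pm_022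

theorem s30_pm_022 : ∃ t, chk3 f_pm_022 t 7 3 1 = true := ex3_a s29_pm_022 s25_pm_022

theorem s31_pm_022 : ∃ t, chk3 f_pm_022 t 7 1 1 = true := ex3_b k15_pm_022 s30_pm_022

theorem s32_pm_022 : ∃ t, chk3 f_pm_022 t 27 31 1 = true := ex3_b k13_pm_022 k14_pm_022

theorem s33_pm_022 : ∃ t, chk3 f_pm_022 t 13 31 1 = true := ex3_a k12_pm_022 s32_pm_022

theorem s34_pm_022 : ∃ t, chk3 f_pm_022 t 13 15 1 = true := ex3_b k11_pm_022 s33_pm_022

theorem s35_pm_022 : ∃ t, chk3 f_pm_022 t 13 7 1 = true := ex3_b k10_pm_022 s34_pm_022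

theorem s36_pm_022 : ∃ t, chk3 f_pm_022 t 6 7 1 = true := ex3_a k9_pm_022 s35_pm_022

theorem s37_pm_022 : ∃ t, chk3 f_pm_022 t 6 3 1 = true := ex3_b k8_pm_022 s36_pm_022

theorem s38_pm_022 : ∃ t, chk3 f_pm_022 t 6 1 1 = true := ex3_b k7_pm_022 s37_pm_022

theorem s39_pm_022 : ∃ t, chk3 f_pm_022 t 3 1 1 = true := ex3_a s38_pm_022 s31_pm_022

theorem s40_pm_022 : ∃ t, chk3 f_pm_022 t 5 3 1 = true := ex3_b k5_pm_022 k6_pm_022

theorem s41_pm_022 : ∃ t, chk3 f_pm_022 t 5 1 1 = true := ex3_b k4_pm_022 s40_pm_022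

theorem s42_pm_022 : ∃ t, chk3 f_pm_022 t 9 3 1 = true := ex3_b k2_pm_022 k3_pm_022

theorem s43_pm_022 : ∃ t, chk3 f_pm_022 t 4 3 1 = true := ex3_a k1_pm_022 s42_pm_022

theorem s44_pm_022 : ∃ t, chk3 f_pm_022 t 4 1 1 = true := ex3_b k0_pm_022 s43_pm_022

theorem s45_pm_022 : ∃ t, chk3 f_pm_022 t 2 1 1 = true := ex3_a s44_pm_022 s41_pm_022

theorem s46_pm_022 : ∃ t, chk3 f_pm_022 t 1 1 1 = true := ex3_a s45_pm_022 s39_pm_022

theorem c_pm_022 : CertN 0 536870912 0 536870912 402653184 67108864 3 true true false .pp 0 2 2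
    ndN0q0 ndN0q2 pcN2 cut_pm_022 Ext.none :=
  certN2 (fam := true) (s1 := true) (s2 := false) (a := 0) (b := 2) (c := 2) (cn := .pp) (n1 := ndN0q0) (n2 := ndN0q2) (pc := pcN2) (cut := cut_pm_022) (xt := Ext.none) (P1 := 0) (W1 := 536870912) (P2 := 0) (W2 := 536870912) (P3 := 402653184) (W3 := 67108864) (N0 := 3)
    rfl (fun _ => rfl) s46_pm_022

noncomputable def f_pm_023 : ℕ → ℕ → ℕ → ℕ → Bool := onCell 0 536870912 0 536870912 402653184 67108864
    (rowN 3 0 true true false .up 0 2 3 (qsf 0 536870912 0 536870912 3) ndN0q0 ndN0q2 pcN3 Cut.none Ext.none)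

def k0_pm_023 : ∃ t, chk3 f_pm_023 t 1 1 1 = true :=
  ⟨(a (l 1) (b (a (a (l 1) (a (b (b (l 1) (l 1)) (l 1)) (b (b (l 16873224) (l 16921896)) (b (b (l 16961424) (l 59626511943)) (b (l 62310852967) (l 113313587607)))))) (b (a (b (a (l 16886784) (l 16882160)) (a (l 16946632) (l 16948784))) (b (a (l 16866032) (a (l 16852240) (l 16845080))) (a (l 16935008) (l 16897048)))) (a (b (a (b (l 16996696) (l 17032416)) (l 17026408)) (a (b (l 17049632) (l 17035520)) (l 16998856))) (b (a (l 17017184) (l 17002456)) (a (l 17027280) (l 17131144)))))) (a (b (l 1) (l 1)) (b (a (a (a (b (l 93986386215) (l 1)) (b (l 88080854359) (l 110629583031))) (b (a (l 17076520) (l 17111296)) (b (c (l 17137392) (l 17077512)) (l 107945151095)))) (a (b (l 17121320) (c (l 17161480) (l 17109616))) (b (l 17108520) (l 17139480)))) (a (a (l 1) (b (b (l 125125171879) (l 1)) (l 1))) (b (a (b (a (l 17159336) (l 17168424)) (c (l 17189120) (l 122440773415))) (b (l 17184368) (l 17177168))) (a (c (l 144452839831) (l 134788932599))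 (b (l 17189776) (l 70901227319))))))))), by decide +kernel⟩

theorem c_pm_023 : CertN 0 536870912 0 536870912 402653184 67108864 3 true true false .up 0 2 3
    ndN0q0 ndN0q2 pcN3 Cut.none Ext.none :=
  certN0 (fam := true) (s1 := true) (s2 := false) (a := 0) (b := 2) (c := 3) (cn := .up) (n1 := ndN0q0) (n2 := ndN0q2) (pc := pcN3) (cut := Cut.none) (xt := Ext.none) (P1 := 0) (W1 := 536870912) (P2 := 0) (W2 := 536870912) (P3 := 402653184) (W3 := 67108864) (N0 := 3)
    rfl k0_pm_023

noncomputable def cut_pm_101 : Cut := Cut.of [[⟨0, 1, 0, 67108864⟩, ⟨1, 0, 0, 67108864⟩, ⟨2, 1, 0, 67108864⟩]]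

noncomputable def f_pm_101 : ℕ → ℕ → ℕ → ℕ → Bool := onCell 536870912 536870912 536870912 536870912 402653184 67108864
    (rowN 3 1 true true false .npn 1 0 1 (qsf 536870912 536870912 0 536870912 1) ndN0q1 ndN0q0 pcN1 cut_pm_101 Ext.none)

def k0_pm_101 : ∃ t, chk3 f_pm_101 t 1 1 1 = true :=
  ⟨(b (l 3) (a (l 3) (b (l 3) (a (l 3) (b (l 3) (a (l 3) (b (l 3) (a (l 3) (l 6))))))))), by decide +kernel⟩

theorem c_pm_101 : CertN 536870912 536870912 0 536870912 402653184 67108864 3 true true false .npn 1 0 1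
    ndN0q1 ndN0q0 pcN1 cut_pm_101 Ext.none :=
  certN1 (fam := true) (s1 := true) (s2 := false) (a := 1) (b := 0) (c := 1) (cn := .npn) (n1 := ndN0q1) (n2 := ndN0q0) (pc := pcN1) (cut := cut_pm_101) (xt := Ext.none) (P1 := 536870912) (W1 := 536870912) (P2 := 0) (W2 := 536870912) (P3 := 402653184) (W3 := 67108864) (N0 := 3)
    rfl (fun _ => rfl) k0_pm_101

end Pool.Agent.Strip051.G.I3_8_7_16.Tab.C.NA00

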