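import Pool.Agent.Strip051.G.I3_8_7_16.Tab

/-! # Certificates N3 (generated) -/

set_option linter.all false
set_option maxRecDepth 100000

namespace Pool.Agent.Strip051.G.I3_8_7_16.Tab.C.NA00

open Pool.Agent.Strip051.PB Pool.Agent.Strip051.PB.T
open Pool.Agent.Strip051.G.I3_8_7_16.Tab

noncomputable def cut_pm_102 : Cut := Cut.of [[⟨0, 1, 0, 67108864⟩, ⟨1, 0, 0, 67108864⟩, ⟨2, 1, 0, 67108864⟩], [⟨0, 1, 0, 33554432⟩, ⟨1, 0, 1, 33554432⟩, ⟨2, 1, 1, 33554432⟩]]

noncomputable def f_pm_102 : ℕ → ℕ → ℕ → ℕ → Bool := onCell 536870912 536870912 1073741824 536870912 402653184 67108864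
    (rowN 3 1 true true false .npp 1 0 2 (qsf 536870912 536870912 0 536870912 2) ndN0q1 ndN0q0 pcN2 cut_pm_102 Ext.none)

def k0_pm_102 : ∃ t, chk3 f_pm_102 t 2 4 1 = true :=
  ⟨(a (l 3) (l 3)), by decide +kernel⟩

def k1_pm_102 : ∃ t, chk3 f_pm_102 t 4 5 1 = true :=
  ⟨(b (b (b (l 3) (l 2)) (l 2)) (l 2)), by decide +kernel⟩

def k2_pm_102 : ∃ t, chk3 f_pm_102 t 5 40 1 = true :=
  ⟨(a (l 3) (a (l 3) (b (l 3) (a (b (l 3) (a (l 284172508087) (l 154786641799))) (b (l 425906419831) (c (l 54928696023) (l 157470997207))))))), by decide +kernel⟩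

def k3_pm_102 : ∃ t, chk3 f_pm_102 t 5 82 1 = true :=
  ⟨(a (a (l 3) (a (l 3) (b (l 3) (a (b (l 3) (b (l 3) (a (l 3) (b (l 3) (c (a (l 3) (b (l 3) (a (a (l 3) (b (l 3) (a (c (l 182167064423) (c (l 182703930903) (b (l 3) (c (l 176798348583) (l 176798346439))))) (c (l 164987194935) (c (l 164987190519) (l 165524057127)))))) (c (l 164987195015) (a (l 164987186535) (l 153176026135)))))) (a (l 3) (b (l 3) (a (c (b (l 3) (a (l 3) (c (b (a (l 3) (l 330343422887)) (b (a (l 3) (l 320142875447)) (a (a (l 182703922055) (a (l 181630180135) (c (l 173040247735) (l 173040245639)))) (l 16797112)))) (b (a (l 3) (l 332490904887)) (a (a (l 192367596839) (b (l 3) (a (l 181630178567) (b (c (l 176798340583) (l 177335210887)) (l 16796040))))) (c (l 154249762375) (l 154249761607))))))) (b (l 3) (a (l 3) (c (b (a (l 3) (l 334638385959)) (b (a (l 3) (l 323900967703)) (a (c (c (l 180019563335) (l 180019562375)) (l 180019561335)) (l 16795256)))) (b (l 262697680119) (a (c (l 178408946647) (l 178408944695)) (l 154249755431)))))))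 (c (c (l 164987182151) (l 164987180615)) (c (l 165524048823) (l 166060915687))))))))))) (b (l 3) (a (b (l 3) (c (a (b (l 3) (a (l 164987186791) (l 152639155111))) (l 164450316135)) (a (b (l 3) (c (l 164987181639) (l 165524049079))) (l 164450310743)))) (b (l 311016070855) (c (l 151565414087) (l 152102281127))))))))) (a (a (b (l 3) (a (b (l 310479197367) (a (a (l 153176025511) (l 152102284775)) (l 16794976))) (b (l 159618480551) (l 16793208)))) (b (a (l 291688707671) (l 153712903943)) (b (a (l 16791304) (l 16788952)) (l 16810824)))) (a (a (b (l 16787160) (l 16787040)) (b (l 16784776) (l 16786816))) (b (l 16826088) (l 16769824))))), by decide +kernel⟩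

def k4_pm_102 : ∃ t, chk3 f_pm_102 t 10 166 1 = true :=
  ⟨(a (a (l 2) (b (l 3) (a (l 2) (a (b (l 197736310039) (l 16798856)) (b (l 195588826439) (l 16798656)))))) (a (b (a (b (l 3) (b (l 3) (a (l 3) (l 187535761623)))) (a (b (l 3) (c (l 184851414087) (l 188072631079))) (b (b (l 3) (c (l 195588837223) (l 199883787255))) (c (l 118279420487) (l 109689478055))))) (b (a (a (l 186998891639) (l 112373834983)) (c (l 16802632) (l 16794416))) (a (l 16798360) (l 16797968)))) (b (a (b (a (a (b (l 3) (c (l 184851411879) (l 188072629831))) (b (b (l 3) (c (l 181093315031) (c (l 182703920951) (l 183240789767)))) (c (l 16803304) (l 107541993175)))) (b (c (a (a (c (l 178945839591) (l 181093314519)) (b (c (l 178945839079) (l 181093314167)) (l 16803344))) (a (b (c (c (l 142975492503) (l 144586100839)) (b (c (a (l 179482705175) (c (l 16802888) (l 167671545399))) (a (l 180556442711) (a (l 16800224) (l 16800184)))) (l 16801224))) (l 16803256)) (c (l 16805264) (l 16798360)))) (a (a (c (l 182167051111) (l 182703913735)) (b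 (c (b (l 183240791751) (l 108078864199)) (b (l 183240789271) (l 108078861351))) (l 16794920))) (b (a (c (b (c (a (l 181093309367) (a (l 16798104) (l 16798072))) (a (l 181093307719) (a (l 16796016) (l 16795984)))) (l 16797008)) (b (c (a (l 181630176215) (a (l 16793952) (l 16793928))) (a (l 181630171975) (a (l 16791912) (l 16791896)))) (l 16792896))) (c (l 16796848) (l 16792776))) (c (l 16796848) (l 16792784))))) (a (c (l 16803128) (l 16794784)) (c (l 16802920) (l 16794664))))) (c (a (l 16802848) (l 16802504)) (a (l 16794584) (l 16794408)))) (a (b (a (c (l 16802488) (l 16794368)) (l 16797792)) (l 16797752)) (b (l 16796920) (l 16796624)))) (a (b (l 16798016) (l 16797592)) (b (l 16796920) (l 16796728)))))), by decide +kernel⟩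

def k5_pm_102 : ∃ t, chk3 f_pm_102 t 10 167 1 = true :=
  ⟨(b (a (a (l 2) (a (l 2) (b (l 16798176) (l 16797544)))) (a (b (a (l 16797848) (l 16797528)) (a (l 16797280) (l 16797016))) (b (a (l 16797224) (l 16796584)) (a (l 16796784) (l 16796352))))) (a (a (l 2) (l 16796608)) (a (l 16796216) (l 16795880)))), by decide +kernel⟩

def k6_pm_102 : ∃ t, chk3 f_pm_102 t 11 83 1 = true :=
  ⟨(b (a (a (b (a (l 16795064) (l 16792848)) (a (l 16794728) (l 16792728))) (b (l 16789944) (l 16790512))) (a (a (l 16811880) (l 16808408)) (l 16782832))) (a (b (a (b (l 16793808) (l 16793872)) (b (l 16791608) (l 16792472))) (a (l 16793880) (l 16793984))) (b (a (c (l 16810776) (l 16806472)) (l 16806680)) (l 16815440)))), by decide +kernel⟩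

def k7_pm_102 : ∃ t, chk3 f_pm_102 t 5 21 1 = true :=
  ⟨(a (b (a (a (l 2) (b (l 16793232) (l 2))) (a (b (l 16793408) (l 16791760)) (b (l 16794192) (l 16797680)))) (a (l 2) (l 16796872))) (b (c (a (a (l 16841816) (l 16790952)) (l 16804880)) (a (a (a (l 16797416) (l 16796056)) (l 16785944)) (l 16808136))) (a (l 16798216) (a (l 16762752) (l 16774296))))), by decide +kernel⟩

def k8_pm_102 : ∃ t, chk3 f_pm_102 t 5 11 1 = true :=
  ⟨(a (a (l 2) (a (l 2) (b (l 16792832) (l 2)))) (b (a (a (l 16789648) (l 16826472)) (a (l 16784728) (l 16787496))) (a (a (l 2) (l 16829240)) (a (l 16825744) (l 16822528))))), by decide +kernel⟩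

def k9_pm_102 : ∃ t, chk3 f_pm_102 t 2 3 1 = true :=
  ⟨(a (l 2) (b (a (l 2) (b (b (a (l 2) (l 16870384)) (l 2)) (l 2))) (l 2))), by decide +kernel⟩

def k10_pm_102 : ∃ t, chk3 f_pm_102 t 6 4 1 = true :=
  ⟨(b (l 3) (b (a (l 3) (b (l 3) (a (l 3) (b (l 3) (a (l 3) (b (l 3) (a (l 3) (b (a (l 3) (l 57612976263)) (c (l 16785952) (l 32916915943)))))))))) (a (b (l 3) (a (l 3) (a (b (l 3) (b (l 3) (a (c (l 16793256) (l 16791368)) (l 16791696)))) (b (b (l 3) (a (l 3) (c (l 42043720263) (l 82845917703)))) (b (a (l 82309050951) (l 16792224)) (a (l 16783616) (l 16785552))))))) (b (a (b (l 3) (a (l 3) (b (a (l 3) (b (l 3) (l 86604009559))) (a (b (l 3) (l 84993401895)) (c (l 16781960) (l 16791616)))))) (a (b (b (a (l 3) (b (l 3) (c (l 51707394375) (l 48486163463)))) (b (a (l 3) (a (l 88751489623) (l 16780080))) (a (c (l 51170527591) (l 89288362183)) (l 28621952311)))) (b (a (c (l 16787432) (l 31843178087)) (l 16787680)) (a (l 16793528) (l 16782224)))) (b (a (b (c (a (l 76940328967) (l 16780944)) (b (l 62981687767)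 (l 16785600))) (c (l 16782464) (l 16781176))) (b (c (l 16781832) (l 16780640)) (l 16780512))) (a (c (l 16782064) (l 16779904)) (c (l 16780384) (l 16777760)))))) (a (b (a (a (b (l 3) (l 62444824567)) (b (c (l 16791760) (l 71034755111)) (l 16783600))) (b (a (c (l 16783104) (l 16782016)) (l 16783688)) (a (l 16784376) (l 16783848)))) (a (b (a (l 16784576) (l 16785112)) (a (l 16785904) (l 16785512))) (a (l 16792520) (l 16794040)))) (a (b (a (c (l 16784056) (l 16781608)) (c (l 16782832) (l 16779936))) (a (l 16792640) (l 16788344))) (b (a (c (l 16781256) (l 16777920)) (c (l 16779408) (l 16775608))) (a (c (l 16780824) (l 16776264)) (c (l 16778920) (l 16773920)))))))))), by decide +kernel⟩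

def k11_pm_102 : ∃ t, chk3 f_pm_102 t 14 8 1 = true :=
  ⟨(b (l 3) (a (l 3) (b (l 3) (a (l 3) (b (a (l 3) (b (l 3) (a (l 3) (b (a (l 3) (b (l 3) (c (l 89825222775) (a (l 3) (l 102173247575))))) (b (a (l 3) (c (c (l 49559902199) (l 49023031431)) (c (l 49023031399) (l 48486160407)))) (a (c (l 69424127751) (a (l 96804542279) (l 57076094551))) (c (l 16778016) (l 16777720)))))))) (a (b (a (l 3) (b (l 3) (a (l 3) (b (l 3) (c (l 72645352135) (l 72645352919)))))) (a (b (l 3) (a (b (l 3) (c (l 74255965927) (l 73719095207))) (c (c (l 39359356855) (l 38822485767)) (c (l 38285614711) (l 37748743719))))) (b (c (a (b (l 101099511927) (l 46875549447)) (c (l 16781080) (l 16780928))) (a (b (l 99488904007) (l 45264936391)) (c (l 16780752) (l 16780560)))) (c (l 16777608) (l 16779752))))) (b (a (a (a (b (l 3) (b (l 103783869335) (l 27011326695))) (b (c (l 95730803463) (l 91435835847)) (c (l 16781040) (l 22716357015)))) (b (b (a (l 3) (c (l 80161544183) (l 86603995303))) (c (l 41506839415) (c (l 41506838167) (l 40969967143))))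 (c (l 16777720) (l 16777336)))) (b (a (c (c (l 16780720) (l 16780576)) (c (l 16780416) (l 16780240))) (c (l 16776904) (l 16776472))) (c (l 16778584) (l 16778024)))) (b (a (c (c (l 16776928) (l 16776688)) (c (l 16776432) (l 16776160))) (c (l 16774408) (l 16773672))) (c (a (l 16775336) (l 16772928)) (a (l 16774632) (l 16772000))))))))))), by decide +kernel⟩

def k12_pm_102 : ∃ t, chk3 f_pm_102 t 15 16 1 = true :=
  ⟨(a (b (l 3) (a (l 3) (b (l 3) (a (l 3) (b (l 3) (a (l 3) (b (a (l 3) (a (l 3) (l 6))) (a (b (b (l 3) (b (l 3) (a (l 3) (c (l 110226312983) (a (l 3) (l 67276637959)))))) (b (a (l 3) (a (a (l 3) (c (l 76940315687) (l 76403444743))) (c (c (l 23790094503) (l 23253223527)) (c (l 22716352535) (l 22716352455))))) (a (a (l 3) (a (c (l 67276637671) (l 68350379735)) (c (l 62444800951) (l 61907930055)))) (c (c (l 16778584) (l 16778536)) (c (l 16778488) (l 16778440)))))) (a (a (c (b (b (l 116668763927) (b (l 61907929975) (l 16778768))) (c (l 16776920) (l 16776864))) (b (b (l 111300054759) (b (l 61371059111)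 (l 16778688))) (c (l 16776800) (l 16776736)))) (b (b (a (c (l 70497864487) (l 70497864631)) (l 6)) (c (l 16778504) (l 16778408))) (c (l 16777792) (l 16777648)))) (a (b (b (l 6) (c (l 16776784) (l 16776664))) (c (l 16777384) (l 16777216))) (b (l 6) (c (l 16776976) (l 16776784))))))))))))) (b (l 6) (a (b (l 6) (a (b (l 6) (a (b (l 6) (a (b (l 6) (a (a (c (l 16775256) (l 16775032)) (l 6)) (l 6))) (l 6))) (l 6))) (l 6))) (l 6)))), by decide +kernel⟩

def k13_pm_102 : ∃ t, chk3 f_pm_102 t 60 34 1 = true :=
  ⟨(b (l 3) (a (l 3) (b (a (l 3) (b (l 3) (a (a (l 3) (b (l 3) (b (l 3) (c (l 67276640471) (l 66202898375))))) (a (b (c (l 93583316855) (b (l 3) (l 86603993079))) (c (c (l 23790096103) (l 23253225255)) (c (l 28085063319) (l 22716354199)))) (c (b (b (l 65666027959) (l 16779088)) (l 16777200)) (b (b (l 64592286199) (l 16778936)) (l 16776984))))))) (a (b (a (l 3) (b (l 3) (c (a (l 87140867351) (c (l 45264933047) (l 44728062359))) (a (b (l 3) (l 87677735159)) (c (l 44728062215) (l 44728062071)))))) (a (b (a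 (l 3) (b (l 3) (c (l 67813511527) (l 67813511863)))) (c (a (b (l 86603993159) (l 16779264)) (l 16780464)) (a (b (l 87677735335) (l 16779120)) (l 16780264)))) (a (b (c (c (l 16779288) (l 16779208)) (c (l 16779120) (l 16779024))) (c (l 16777232) (l 16776976))) (c (l 16776984) (l 16776712))))) (a (c (b (b (a (b (l 64592284999) (l 46875545719)) (l 16779000)) (l 16778536)) (c (l 16776056) (l 16775880))) (b (b (a (b (l 95730801271) (l 46875545783)) (l 16779472)) (l 16778304)) (c (l 16775704) (l 16775520)))) (b (c (c (l 16776352) (l 16776200)) (c (l 16776048) (l 16775888))) (c (l 16777208) (l 16776728)))))))), by decide +kernel⟩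

def k14_pm_102 : ∃ t, chk3 f_pm_102 t 122 68 1 = true :=
  ⟨(b (a (l 3) (b (l 3) (a (l 3) (b (l 3) (b (l 3) (a (l 3) (a (l 3) (c (l 79087800007) (l 78014058023))))))))) (a (b (l 3) (a (l 3) (b (a (l 3) (a (l 3) (c (l 106468217191) (l 101636378887)))) (b (a (l 3) (c (c (l 54928608519) (l 54391737511)) (c (l 54391737719) (l 54928608679)))) (a (a (l 3) (c (l 71034735655) (l 71034735927))) (c (l 16778896) (l 16778752))))))) (b (a (b (l 3) (a (l 3) (c (b (l 92509573239) (c (l 48486157431) (l 47949286423))) (b (a (l 3) (l 94120185159)) (c (l 47949286487) (l 47949286711)))))) (b (b (a (l 3) (a (c (l 65666026983) (l 65129156055)) (c (l 16778872) (l 16778760)))) (a (a (c (l 67276638231) (l 68350380423)) (c (l 53317995991) (l 52781124967))) (c (l 16778632) (l 16778504)))) (a (a (c (c (l 16778888) (l 16778832)) (c (l 16778776) (l 16778712))) (c (l 16777216) (l 16777064))) (c (l 16776656) (l 16777776))))) (b (c (a (c (a (b (a (l 3) (l 62981671543)) (l 16778696)) (l 16777288)) (a (b (a (l 3) (l 63518542359)) (l 16778640))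 (l 16777216))) (c (l 16776200) (l 16776080))) (a (c (a (b (l 73182219719) (l 16778912)) (l 16777136)) (a (b (l 86067121751) (l 16778848)) (l 16777056))) (c (l 16775960) (l 16775840)))) (a (c (c (l 16776792) (l 16776688)) (c (l 16776592) (l 16776480))) (c (l 16776568) (l 16776248))))))), by decide +kernel⟩

def k15_pm_102 : ∃ t, chk3 f_pm_102 t 246 136 1 = true :=
  ⟨(b (a (l 3) (b (a (l 3) (b (l 3) (c (a (l 86603991719) (c (l 47412414727) (l 47412414663))) (a (l 78550927623) (c (l 47412414759) (l 47412414839)))))) (b (b (a (l 3) (c (c (l 23253223655) (l 23253223591)) (c (l 22179481847) (l 21642610999)))) (a (a (l 3) (c (l 82309024423) (l 81772153463))) (c (l 16778640) (l 16778536)))) (a (a (c (l 76940316263) (l 76403445303)) (c (l 20568869911) (c (l 16777472) (l 16777416)))) (c (l 16776984) (l 16776856)))))) (a (b (b (a (l 3) (a (l 3) (c (l 64592285063) (c (l 62444800487) (l 62981671479))))) (b (a (l 3) (c (c (l 42043705751) (l 33990642327)) (c (l 42043705927) (l 42043705991)))) (c (a (l 97878282247)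 (l 16778792)) (a (l 79624670007) (l 16778776))))) (c (c (a (b (a (l 64592283831) (l 16778304)) (l 16778784)) (l 16776976)) (a (b (a (l 89825216887) (l 16778264)) (l 16778736)) (l 16776904))) (c (a (b (a (l 90898958887) (l 16778216)) (l 16778680)) (l 16776824)) (a (b (a (l 91435829879) (l 16778824)) (l 16778616)) (l 16776752))))) (b (a (c (c (l 16778416) (l 16778352)) (c (l 16778288) (l 16778216))) (c (l 16776952) (l 16777424))) (c (c (l 16775832) (l 16775720)) (c (l 16776912) (l 16775488)))))), by decide +kernel⟩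

def k16_pm_102 : ∃ t, chk3 f_pm_102 t 247 136 1 = true :=
  ⟨(b (a (c (a (c (b (a (b (l 57612962135) (l 16777336)) (l 16778488)) (l 16776472)) (b (a (b (l 57612962071) (l 16777296)) (l 16778440)) (l 16776392))) (b (c (l 16776592) (l 16776520)) (l 16776944))) (a (b (b (a (c (l 58149832919) (l 58149832999)) (l 16778600)) (l 16777664)) (c (l 16776304) (l 16776216))) (b (c (l 16776448) (l 16776368)) (l 16776720)))) (b (a (c (c (l 16775800) (l 16775704)) (c (l 16775600) (l 16775504))) (c (l 16776248) (l 16776000))) (c (c (l 16774504) (l 16774352)) (c (l 16774200) (l 16774048))))) (b (c (c (a (l 16775184) (l 16773616)) (a (l 16775048) (l 16773424))) (c (a (l 16774912) (l 16773232)) (a (l 16774784) (l 16773048)))) (c (a (c (l 16774296) (l 16774120)) (c (l 16772728) (l 16772504))) (a (c (l 16773952) (l 16773784)) (l 16773472))))), by decide +kernel⟩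

def k17_pm_102 : ∃ t, chk3 f_pm_102 t 123 137 1 = true :=
  ⟨(a (a (c (b (a (b (l 16777456) (l 16775904)) (b (l 16776032) (l 16775136))) (b (a (l 16775008) (l 16774248)) (l 16775056))) (a (b (b (l 16777288) (l 16775656)) (c (l 16774296) (l 16774112))) (b (c (l 16776696) (l 16776568)) (l 16774696)))) (c (b (a (b (l 16775264) (l 16774368)) (a (l 16775544) (l 16775152))) (c (l 16774096) (l 16773840))) (b (b (a (l 16774984) (l 16774152)) (l 16774904)) (c (l 16773584) (l 16772032))))) (c (b (a (b (a (l 16773704) (l 16772912)) (l 16773728)) (c (l 16772088) (l 16772448))) (c (a (l 16771264) (l 16769720)) (a (l 16770944) (l 16769344)))) (b (c (a (l 16773176) (l 16772160)) (a (l 16773608) (l 16770576))) (c (a (l 16770640) (l 16768984)) (a (l 16770344) (l 16768632)))))), by decide +kernel⟩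

def k18_pm_102 : ∃ t, chk3 f_pm_102 t 122 69 1 = true :=
  ⟨(b (a (b (a (b (b (l 3) (a (l 3) (c (c (l 59760446695) (l 59760446919)) (c (l 59760446967) (l 60297317911))))) (c (a (b (c (l 61371059207) (l 81772154119)) (l 41506836679)) (l 16779296)) (a (b (c (l 82309025255) (l 82309025383)) (c (l 16779024) (l 16778960))) (c (l 16777376) (l 16777288))))) (a (b (a (c (c (l 33453771959) (l 32916901095)) (c (l 33453771895) (l 33453771911))) (c (l 16777480) (l 16777328))) (c (l 16776808) (l 16776584))) (c (c (l 16776576) (l 16776464)) (c (l 16776344) (l 16776224))))) (c (a (a (a (l 16778416) (l 16778064)) (l 16777536)) (c (l 16775240) (l 16775056))) (a (a (a (l 16778200) (l 16777824)) (l 16777248)) (c (l 16774872) (l 16774680))))) (c (b (a (b (l 16777176) (l 16774992)) (c (l 16774048) (l 16773832))) (a (c (l 16773816) (l 16773568)) (c (l 16772368) (l 16772064)))) (b (c (a (l 16776496) (l 16773616)) (a (l 16776328) (l 16773392))) (a (c (l 16773328) (l 16773088)) (c (l 16771760) (l 16771464)))))) (b (a (c (a (c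 (l 16774968) (l 16774760)) (c (l 16773568) (l 16773304))) (a (c (l 16774552) (l 16774336)) (l 16774208))) (a (c (l 16773296) (l 16773952)) (c (l 16773136) (l 16772368)))) (a (a (c (l 16775800) (l 16775208)) (c (l 16771752) (l 16771040))) (a (c (l 16770304) (l 16769480)) (c (l 16768840) (l 16767904)))))), by decide +kernel⟩

def k19_pm_102 : ∃ t, chk3 f_pm_102 t 123 69 1 = true :=
  ⟨(b (b (a (c (c (a (l 16772576) (l 16771088)) (a (l 16772296) (l 16770744))) (c (a (l 16772024) (l 16770416)) (a (l 16771752) (l 16770088)))) (a (c (c (l 16769576) (l 16769176)) (l 16769912)) (c (c (l 16768048) (l 16767584)) (l 16769544)))) (a (a (c (c (l 16770904) (l 16770536)) (l 16772624)) (c (c (l 16769416) (l 16768992)) (l 16771000))) (a (c (l 16768984) (l 16766728)) (c (l 16768736) (l 16765064))))) (b (c (a (a (l 16771648) (l 16767520)) (a (l 16765992) (l 16764440))) (a (a (l 16768144) (l 16766520)) (c (l 16766960) (l 16763784)))) (c (a (a (l 16767352) (l 16765848)) (c (l 16765056) (l 16763224))) (a (c (l 16765768) (l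 16765232)) (c (l 16762560) (l 16761912)))))), by decide +kernel⟩

def k20_pm_102 : ∃ t, chk3 f_pm_102 t 60 70 1 = true :=
  ⟨(a (b (a (b (l 3) (a (l 3) (a (b (l 3) (c (l 88751477815) (l 89825221575))) (b (c (l 65129156519) (l 65666028055)) (c (l 40433096055) (l 39896224919)))))) (a (a (b (l 3) (b (c (l 56002352039) (l 56002352647)) (l 16780320))) (b (b (l 3) (c (l 74255963991) (l 71571608599))) (c (l 16780224) (l 16779952)))) (b (c (b (a (l 63518543511) (l 44728063159)) (c (l 16780496) (l 16780392))) (b (c (a (l 100025763847) (l 44728062135)) (a (l 101636376423) (l 44728062279))) (c (l 16780280) (l 16780152)))) (c (l 16777976) (l 16777616))))) (b (c (a (a (b (a (l 3) (l 66202899815)) (c (l 16779904) (l 26474452359))) (c (l 16780264) (l 16780120))) (c (l 16775808) (l 16775576))) (a (a (b (a (l 3) (l 66202900375)) (c (l 26474452119) (l 25937580951))) (c (l 16779968) (l 16779808))) (c (l 16775344) (l 16777720)))) (a (c (c (l 16778048) (l 16776536)) (c (l 16776320) (l 16776104))) (c (c (l 16774240) (l 16773920))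 (c (l 16773592) (l 16773264)))))) (a (c (b (b (a (a (l 16779936) (l 16776664)) (l 16778280)) (c (l 16776128) (l 16775864))) (c (b (l 16773224) (l 16771656)) (b (l 16772872) (l 16771208)))) (b (a (b (c (l 16776768) (l 16776616)) (l 16774880)) (b (l 16777872) (l 16773424))) (b (a (l 16773072) (l 16771616)) (l 16772520)))) (c (c (b (b (a (l 16774432) (l 16773072)) (l 16772152)) (b (l 16770560) (l 16768992))) (b (b (a (l 16774168) (l 16772752)) (l 16771768)) (b (l 16770088) (l 16768424)))) (c (b (b (a (l 16773904) (l 16772432)) (l 16771384)) (b (l 16769624) (l 16767872))) (b (b (l 16774184) (l 16771008)) (b (l 16769160) (l 16767328))))))), by decide +kernel⟩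

def k21_pm_102 : ∃ t, chk3 f_pm_102 t 60 71 1 = true :=
  ⟨(a (a (a (b (b (a (l 16780976) (l 16780328)) (l 16777672)) (c (l 16774416) (l 16773416))) (b (b (a (l 16779664) (l 16779000)) (l 16775032)) (c (l 16773152) (l 16774656)))) (a (b (b (a (l 16778328) (l 16777648)) (l 16775000)) (c (l 16771864) (l 16773256))) (b (c (c (l 16771272) (l 16770776)) (l 16772672)) (c (l 16770560) (l 16771840))))) (c (b (b (a (l 16772448) (l 16769728)) (a (l 16768240) (l 16765512))) (b (a (l 16766664) (l 16763936)) (a (l 16765248) (l 16762536)))) (b (b (a (l 16768768) (l 16765816)) (a (l 16767008) (l 16764056))) (a (a (l 16770408) (l 16768952)) (c (l 16764552) (l 16763696)))))), by decide +kernel⟩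

def k22_pm_102 : ∃ t, chk3 f_pm_102 t 61 35 1 = true :=
  ⟨(b (a (a (c (b (a (b (l 16771512) (l 16769856)) (b (l 16770080) (l 16768440))) (c (b (l 16767824) (l 16766248)) (b (l 16767224) (l 16765568)))) (b (c (b (l 16772808) (l 16768408)) (a (l 16772248) (l 16770680))) (b (a (l 16767120) (l 16765592)) (l 16767192)))) (a (b (b (c (l 16768640) (l 16767648)) (c (l 16767000) (l 16765840))) (c (c (l 16764928) (l 16764200)) (l 16765768))) (c (b (c (l 16767976) (l 16768672)) (c (l 16763504) (l 16762712))) (b (c (l 16765456) (l 16764880)) (l 16764200))))) (c (b (a (c (a (l 16766528) (l 16766368)) (b (l 16764632) (l 16762952))) (c (a (l 16762264) (l 16760760)) (a (l 16761472) (l 16759912)))) (a (c (a (l 16762056) (l 16760592)) (b (l 16761288) (l 16759632))) (c (a (l 16759112) (l 16757592)) (a (l 16758152) (l 16756576))))) (b (b (a (c (l 16763992) (l 16763376)) (c (l 16760784) (l 16760064))) (a (l 16763840) (l 16761248))) (b (a (l 16762704) (l 16756840)) (a (l 16758304) (l 16755048)))))) (b (b (a (a (c (l 16766928)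 (l 16762800)) (c (l 16764056) (l 16759704))) (a (c (l 16761112) (l 16756536)) (c (a (l 16756232) (c (l 16755152) (l 16754016))) (a (l 16754120) (l 16752384))))) (a (a (c (l 16762712) (l 16761032)) (c (l 16759840) (l 16757944))) (c (a (l 16756896) (a (l 16754552) (l 16758040))) (a (l 16754776) (a (l 16752288) (l 16750480)))))) (b (a (a (c (l 16761136) (l 16759288)) (c (l 16758272) (l 16756200))) (c (a (c (l 16755888) (l 16754720)) (a (c (l 16753504) (l 16752264)) (l 16750704))) (a (l 16753016) (a (l 16750472) (l 16748336))))) (a (c (a (l 16759760) (l 16756912)) (a (l 16757704) (l 16754632))) (a (a (a (l 16753864) (l 16753104)) (c (c (l 16753760) (l 16752464)) (l 16750584))) (c (l 16749984) (l 16747488))))))), by decide +kernel⟩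

def k23_pm_102 : ∃ t, chk3 f_pm_102 t 62 68 1 = true :=
  ⟨(a (b (a (a (c (a (c (b (l 16774408) (l 16771984)) (b (l 16774888) (l 16771728))) (c (b (l 16774256) (l 16771184)) (b (l 16772744) (l 16770904)))) (a (c (b (l 16774712) (l 16771480)) (b (l 16774544) (l 16771240))) (b (c (l 16772544) (l 16772352)) (l 16771808)))) (a (b (b (l 6) (c (l 16771568) (l 16771080))) (c (l 16771208) (l 16772248))) (b (l 6) (c (l 16770720) (l 16768752))))) (a (a (b (l 6) (c (l 16771200) (l 16767872))) (l 6)) (l 6))) (a (c (c (a (b (l 16769856) (l 16768160)) (b (l 16768272) (l 16766584))) (a (b (l 16769504) (l 16767728)) (b (l 16767864) (l 16766096)))) (a (b (c (l 16769168) (l 16768848)) (l 16769728)) (b (c (l 16767472) (l 16767096)) (l 16768016)))) (c (a (b (a (l 16766832) (l 16766016)) (l 16766024)) (b (a (l 16765184) (l 6)) (l 16765688))) (a (b (l 16768152) (l 16763656)) (b (l 16763768) (l 16761904)))))) (a (b (l 6) (b (l 6) (a (c (l 16761400) (l 16760128)) (l 6)))) (l 6))), by decide +kernel⟩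

def k24_pm_102 : ∃ t, chk3 f_pm_102 t 62 69 1 = true :=
  ⟨(a (b (c (a (a (b (l 16767544) (l 16764544)) (b (l 16767256) (l 16762960))) (a (b (l 16763016) (l 16761344)) (b (l 16761384) (a (l 16760128) (l 16759264))))) (a (a (b (l 16765240) (l 16763384)) (c (l 16764200) (l 16764944))) (a (c (l 16763816) (l 16760576)) (b (l 16760056) (l 16758184))))) (b (a (a (c (l 16762880) (l 16761552)) (c (l 16761296) (l 16759856))) (a (c (l 16759696) (l 16758144)) (a (c (l 16758416) (l 16756800)) (c (l 16762776) (l 16755888))))) (a (c (c (l 16762160) (l 16760040)) (c (l 16759272) (l 16758520))) (a (c (c (l 16758408) (l 16757528)) (l 16756264)) (c (l 16761368) (l 16754376)))))) (c (a (a (b (a (b (l 16760120) (a (l 16758632) (l 16758160))) (b (c (l 16759624) (l 16758864)) (l 16757320))) (l 16760120)) (b (c (l 16759688) (l 16761536)) (l 16757912))) (a (b (l 16759712) (l 16750448)) (b (l 6) (l 16748224)))) (a (a (b (b (c (l 16758568) (l 16757896)) (c (l 16756720) (l 16755976))) (l 16753216)) (b (l 16760440) (l 16751040)))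 (b (c (l 16757528) (l 16756848)) (l 16753008))))), by decide +kernel⟩

def k25_pm_102 : ∃ t, chk3 f_pm_102 t 62 35 1 = true :=
  ⟨(a (b (c (a (b (a (c (l 16759232) (l 16758328)) (b (l 16757992) (a (l 16756736) (l 16755888)))) (b (a (c (l 16756784) (l 16755760)) (l 16757112)) (a (c (l 16757760) (l 16754040)) (l 16752416)))) (b (a (a (b (l 16761984) (l 16754816)) (l 16759976)) (l 16758304)) (c (l 16755872) (l 16754832)))) (a (b (a (l 16762272) (b (l 16756224) (c (l 16754832) (l 16753912)))) (a (b (l 16754288) (l 16757704)) (c (l 16757160) (l 16750920)))) (b (a (b (c (l 16754864) (l 16753984)) (l 16752344)) (l 16751216)) (l 16753344)))) (a (c (b (c (l 16756272) (l 16755128)) (l 16751672)) (b (l 16753480) (l 16754560))) (b (c (l 16751224) (l 16743856)) (c (l 16741920) (l 16739664))))) (c (b (a (b (c (l 16755440) (l 16749272)) (l 16750872)) (b (l 16750504) (l 16741128))) (a (b (l 16741480) (l 16737384)) (b (l 16736944) (l 16732816)))) (b (a (b (l 16753184) (l 16743720)) (b (l 16743552) (l 16739304))) (a (b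 (l 16739448) (l 16735232)) (b (l 16735016) (l 16730768)))))), by decide +kernel⟩

def k26_pm_102 : ∃ t, chk3 f_pm_102 t 63 17 1 = true :=
  ⟨(b (a (a (b (l 6) (b (l 6) (c (l 16750112) (l 16748608)))) (l 6)) (l 6)) (a (a (b (a (c (l 16745048) (l 16743344)) (c (l 16742776) (l 16735880))) (b (l 16741928) (l 16737712))) (b (b (a (l 16736552) (l 6)) (l 16741664)) (c (l 16736176) (l 16734392)))) (a (b (b (l 6) (l 16737112)) (a (l 16731824) (l 16729528))) (b (l 6) (c (l 16726872) (l 16725312)))))), by decide +kernel⟩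

def k27_pm_102 : ∃ t, chk3 f_pm_102 t 28 18 1 = true :=
  ⟨(b (b (l 3) (a (l 3) (a (b (l 3) (a (l 3) (b (l 3) (c (l 53854873335) (l 97878292679))))) (b (a (l 3) (b (l 3) (a (c (l 102173250199) (l 103783862103)) (b (l 95730805159) (l 16784304))))) (c (b (a (a (l 3) (l 70497872743)) (l 16779656)) (a (l 16785048) (l 16779040))) (b (a (l 75329713079) (l 16784344)) (a (l 28085070903) (l 16778248)))))))) (a (b (a (l 3) (b (a (l 3) (b (l 3) (c (l 59760454567) (l 102710142247)))) (a (b (c (l 57612971639) (l 102173250663)) (c (l 16784832) (l 16784240))) (b (c (l 16784768) (l 46338683335)) (l 16780200))))) (a (b (a (b (l 3) (l 56539233927)) (b (l 54391749767) (l 16780664))) (c (l 16781168) (l 16785280))) (b (c (l 16780408) (a (l 16779832) (l 16778720))) (c (l 16779304) (l 16777688))))) (b (a (b (a (a (b (l 3) (l 62444811575)) (b (l 94120193287) (l 16779848))) (b (c (l 16785016) (l 35064393111)) (l 16779560))) (c (l 16784760) (a (l 16779128) (l 16777728)))) (a (b (a (l 16784288) (l 16778328)) (l 16776808)) (b (l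 16782368) (l 16775160)))) (a (c (b (l 16778104) (l 16776800)) (a (l 16786856) (l 16785256))) (c (b (l 16775248) (l 16773928)) (b (l 16773184) (l 16771320))))))), by decide +kernel⟩

def k28_pm_102 : ∃ t, chk3 f_pm_102 t 29 36 1 = true :=
  ⟨(a (b (a (b (l 3) (a (l 3) (b (a (l 3) (b (l 3) (l 98415162871))) (c (a (l 68350387303) (l 16781832)) (a (l 68350388631) (l 16781416)))))) (b (a (b (l 3) (a (l 3) (c (b (l 3) (l 16781320)) (l 80698422247)))) (b (a (b (l 3) (c (l 103246991015) (l 105394474071))) (b (l 105931355879) (c (l 16778720) (l 16781048)))) (a (c (l 37211874567) (c (l 16781288) (l 36138130695))) (l 16780864)))) (c (a (a (b (l 53854872823) (l 16778760)) (l 2852136439)) (b (l 16777704) (l 16776416))) (a (b (a (l 53318002839) (l 16778512)) (l 16777744)) (b (l 16777088) (l 16775592)))))) (b (c (a (a (b (a (l 91435836711) (l 16781608)) (l 16779352)) (l 16783640)) (a (l 16776584) (l 16774616))) (a (b (a (a (l 90362095527) (l 45264938519)) (l 16778320)) (a (l 16778784) (l 16777064))) (a (l 16775672)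 (l 16773456)))) (a (c (a (l 16777992) (l 16776272)) (a (l 16777080) (l 16775128))) (c (a (l 16774432) (l 16772496)) (a (l 16773040) (l 16770864)))))) (b (a (c (b (a (b (c (l 16781008) (l 16780800)) (l 16776992)) (c (l 16775688) (l 16775312))) (a (l 16780216) (l 16772792))) (b (a (b (c (l 16780576) (l 16780336)) (l 16776352)) (c (l 16774928) (l 16774528))) (a (l 16779272) (l 16776856)))) (c (a (b (c (l 16773456) (l 16772968)) (l 16770528)) (b (c (l 16771144) (l 16770528)) (l 16773432))) (a (b (c (l 16772464) (l 16771952)) (l 16774352)) (b (c (l 16769912) (l 16769296)) (l 16771784))))) (c (a (a (b (l 16772544) (l 16770488)) (b (l 16770408) (l 16768416))) (b (a (l 16768208) (l 16765936)) (a (l 16766288) (l 16764088)))) (a (a (b (l 16771152) (l 16768608)) (b (l 16768776) (l 16766288))) (b (a (l 16766336) (l 16763824)) (a (l 16763912) (l 16761464))))))), by decide +kernel⟩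

def k29_pm_102 : ∃ t, chk3 f_pm_102 t 29 37 1 = true :=
  ⟨(c (a (a (b (b (l 16780472) (l 16773528)) (b (l 16772048) (l 16770752))) (b (b (a (l 16772536) (l 16770648)) (a (l 16770880) (l 16769032))) (b (a (l 16769440) (l 16767624)) (a (l 16768184) (l 16766392))))) (b (a (b (a (l 16768688) (l 16766672)) (a (l 16767112) (l 16765136))) (b (a (l 16764592) (l 16762456)) (a (l 16763104) (l 16761016)))) (a (b (a (l 16765736) (l 16763792)) (a (l 16764536) (l 16762624))) (a (b (l 16761800) (l 16760656)) (b (c (l 16760808) (l 16758680)) (c (l 16759840) (l 16757432))))))) (a (b (b (a (a (l 16774680) (l 16772704)) (a (l 16770648) (l 16768512))) (a (l 16771496) (a (l 16768472) (l 16766368)))) (a (b (l 16769472) (l 16767640)) (b (a (l 16766496) (l 16764416)) (a (l 16764688) (l 16762640))))) (b (a (b (a (l 16766304) (l 16764032)) (a (l 16764200) (l 16761968))) (b (a (l 16761696) (l 16759304)) (a (l 16759672) (l 16757320)))) (a (b (a (l 16762280) (l 16760080)) (a (l 16760528) (l 16758352))) (b (a (l 16757816) (c (l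 16756560) (l 16754440))) (a (c (l 16757248) (l 16754984)) (a (l 16754400) (l 16753240)))))))), by decide +kernel⟩

def k30_pm_102 : ∃ t, chk3 f_pm_102 t 28 38 1 = true :=
  ⟨(c (a (b (a (l 16785816) (l 16788176)) (a (l 16778352) (l 16776040))) (b (a (b (l 16775656) (l 16774664)) (b (l 16772784) (l 16771808))) (a (l 16783936) (b (l 16770992) (l 16770320))))) (a (b (a (b (l 16778704) (l 16777264)) (b (l 16776040) (l 16774512))) (a (l 16775256) (b (l 16773120) (l 16771856)))) (b (a (b (l 16772992) (l 16771440)) (b (l 16769624) (l 16768088))) (a (b (l 16770040) (l 16768784)) (b (l 16766696) (l 16765456)))))), by decide +kernel⟩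

def k31_pm_102 : ∃ t, chk3 f_pm_102 t 58 38 1 = true :=
  ⟨(b (a (c (b (l 16769640) (l 16768688)) (b (l 16765968) (l 16764456))) (c (a (b (l 16767104) (l 16766176)) (b (l 16765328) (l 16764416))) (b (a (l 16763048) (l 16761016)) (a (l 16761560) (l 16759544))))) (a (a (b (l 16766360) (l 16765424)) (c (l 16766720) (a (l 16761976) (l 16761032)))) (c (a (b (l 16765400) (l 16764776)) (b (l 16763664) (l 16763056))) (a (b (l 16760216) (l 16759016)) (b (l 16758216) (c (l 16758552) (l 16755512))))))), by decide +kernel⟩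

def k32_pm_102 : ∃ t, chk3 f_pm_102 t 59 76 1 = true :=
  ⟨(a (c (a (b (l 16763496) (l 16762608)) (b (l 16761608) (l 16760736))) (b (a (l 16758920) (l 16756768)) (a (l 16757472) (c (l 16756688) (l 16753984))))) (a (c (b (c (l 16760944) (l 16758392)) (a (c (l 16760656) (l 16757864)) (b (l 16758472) (a (b (l 16758440) (l 16758040)) (b (l 16757720) (l 16756888)))))) (b (c (l 16755840) (l 16753288)) (a (c (l 16755064) (l 16752256)) (b (l 16752880) (a (b (l 16752664) (l 16752152)) (b (l 16751912) (l 16751032))))))) (c (b (a (c (l 16759424) (b (l 16757112) (l 16756520))) (b (c (l 16758616) (l 16755968)) (a (b (l 16757232) (l 16756768)) (a (l 16756328) (l 16755704))))) (b (a (a (b (l 16757832) (l 16757408)) (a (l 16756976) (l 16756392))) (l 16754856)) (l 16754280))) (b (a (a (l 16753152) (b (l 16752952) (l 16752160))) (b (c (l 16753320) (l 16750680)) (a (b (l 16751760) (l 16751192)) (b (l 16750944) (l 16750032))))) (b (a (a (b (l 16752208) (l 16751672)) (b (l 16751432) (l 16750536))) (l 16749232)) (c (l 16749976)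 (l 16747104))))))), by decide +kernel⟩

def k33_pm_102 : ∃ t, chk3 f_pm_102 t 59 77 1 = true :=
  ⟨(a (a (c (b (l 16761864) (b (l 16760032) (a (l 16761528) (a (a (l 16760880) (l 16760512)) (l 16759776))))) (b (c (l 16757592) (l 16754720)) (b (c (l 16756752) (l 16753664)) (a (c (l 16756768) (l 16753568)) (a (b (l 16754536) (l 16754008)) (b (l 16753784) (l 16752840))))))) (c (b (a (l 16760440) (b (l 16759672) (c (a (l 16760936) (l 16760112)) (a (l 16757880) (l 16757048))))) (a (b (a (a (l 16760248) (l 16759896)) (l 16759184)) (l 16757904)) (l 16756376))) (b (a (c (l 16756016) (l 16753056)) (b (l 16753776) (a (b (l 16753592) (l 16750472)) (c (l 16753976) (l 16750896))))) (b (a (a (b (l 16754064) (l 16753552)) (b (l 16753320) (l 16752416))) (l 16751112)) (l 16750328))))) (c (a (b (a (b (c (a (l 16760280) (l 16759456)) (a (l 16757304) (l 16756464))) (l 16756752)) (l 16755208)) (c (l 16754160) (l 16751104))) (b (c (l 16752952) (l 16750032)) (l 16747608))) (a (b (b (a (a (b (l 16753120) (a (l 16752864) (l 16752408)))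 (c (l 16753472) (l 16750464))) (l 16750200)) (c (l 16750984) (l 16747960))) (c (l 16748040) (l 16744960))) (b (c (l 16747112) (l 16744184)) (l 16752136))))), by decide +kernel⟩

def k34_pm_102 : ∃ t, chk3 f_pm_102 t 14 78 1 = true :=
  ⟨(a (b (a (a (l 16775576) (l 16772992)) (a (c (l 16772616) (l 16767672)) (c (l 16769808) (l 16764360)))) (a (a (l 16774888) (l 16772304)) (a (c (l 16772240) (l 16766704)) (c (l 16769456) (a (l 16764256) (l 16762552)))))) (a (a (a (c (l 16767336) (b (l 16761712) (l 16760792))) (c (b (l 16765960) (l 16765648)) (b (l 16759872) (l 16758968)))) (c (a (b (l 16764320) (b (c (l 16765544) (l 16762184)) (a (l 16764096) (l 16762400)))) (a (b (c (l 16764504) (l 16761264)) (c (l 16762648) (b (l 16760200) (l 16758152)))) (b (b (l 16762160) (c (l 16763024) (l 16759680))) (l 16758384)))) (a (a (b (l 16758448) (b (l 16757768) (a (l 16757504) (b (l 16757160) (l 16756632))))) (b (l 16757480) (b (c (l 16758336) (b (l 16755184) (l 16754760))) (c (l 16757160) (l 16753624))))) (a (b (a (l 16756744)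 (b (l 16756496) (b (l 16756136) (l 16755752)))) (a (b (b (l 16755992) (l 16755144)) (l 16753560)) (l 16753416))) (b (b (c (l 16757280) (l 16754000)) (a (b (l 16755512) (l 16754824)) (l 16754144))) (l 16751584)))))) (a (a (c (b (b (a (c (l 16762400) (b (l 16759504) (l 16758832))) (l 16758448)) (l 16757704)) (l 16754576)) (b (b (a (b (a (l 16755024) (l 16754224)) (l 16753856)) (l 16751936)) (l 16751096)) (c (l 16749592) (l 16746240)))) (c (b (l 16753672) (l 16749472)) (b (c (l 16748872) (l 16745656)) (l 16743008)))) (a (c (b (l 16748608) (l 16744336)) (b (l 16742384) (l 16738064))) (c (b (l 16743512) (l 16739184)) (b (l 16737472) (l 16733096))))))), by decide +kernel⟩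

def k35_pm_102 : ∃ t, chk3 f_pm_102 t 14 79 1 = true :=
  ⟨(a (a (a (c (l 16776816) (l 16781832)) (c (l 16774496) (b (l 16768928) (l 16768264)))) (a (c (b (l 16772032) (l 16772016)) (b (l 16765896) (l 16765264))) (c (a (l 16769944) (b (l 16768552) (b (l 16768568) (l 16768288)))) (b (a (l 16763472) (l 16761784)) (a (l 16762872) (a (l 16761624) (b (l 16760904) (b (l 16760632) (l 16760200))))))))) (a (a (c (b (a (l 16766976) (b (a (l 16765928) (l 16764720)) (a (l 16765304) (l 16763120)))) (a (b (a (l 16767248) (l 16765800)) (l 16764944)) (l 16760976))) (b (a (c (l 16761728) (b (l 16758472) (l 16757968))) (b (a (l 16758848) (b (l 16757896) (a (l 16757896) (l 16756928)))) (a (b (a (l 16758792) (l 16758104)) (l 16757736)) (l 16755872)))) (a (b (a (c (l 16761712) (l 16757976)) (c (l 16760240) (b (l 16756944) (l 16756016)))) (c (l 16759320) (l 16758136))) (c (l 16755504) (l 16751808))))) (a (c (b (c (l 16762224) (l 16758712)) (l 16755864)) (b (a (b (l 16755680) (l 16753448)) (l 16752104)) (l 16748752))) (c (b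 (l 16755328) (l 16750696)) (b (l 16748432) (l 16743792))))) (a (a (c (b (l 16750184) (l 16745480)) (b (l 16743488) (l 16738784))) (b (a (l 16743040) (l 16740496)) (l 16742256))) (c (b (l 16742456) (l 16732368)) (b (l 16741496) (l 16736672)))))), by decide +kernel⟩

def k36_pm_102 : ∃ t, chk3 f_pm_102 t 60 36 1 = true :=
  ⟨(c (a (b (b (a (c (l 16768752) (l 16768016)) (c (l 16766288) (l 16765432))) (a (c (l 16766256) (l 16765304)) (c (l 16763832) (l 16762760)))) (a (b (l 16763592) (l 16767072)) (b (c (l 16761840) (l 16760520)) (c (l 16760288) (l 16758704))))) (b (a (b (c (l 16763752) (l 16762776)) (c (l 16761336) (l 16760144))) (b (c (l 16761144) (l 16760048)) (c (l 16758768) (l 16757456)))) (a (b (c (l 16759408) (l 16757968)) (c (l 16757944) (l 16756224))) (b (c (l 16756912) (l 16755344)) (a (c (l 16756128) (l 16754320)) (b (l 16754328) (a (l 16753880) (b (l 16753400) (l 16752912))))))))) (a (b (b (a (c (l 16767288) (l 16766552)) (c (l 16764584) (l 16763744))) (a (l 16769136) (l 16763800))) (a (b (l 16761232)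 (l 16758944)) (b (l 16758576) (c (l 16757136) (l 16755584))))) (b (a (b (c (l 16761816) (l 16760864)) (l 16761008)) (b (c (l 16758976) (l 16757912)) (c (l 16756168) (l 16754896)))) (b (a (c (l 16756552) (l 16755144)) (c (l 16753808) (l 16752288))) (a (c (l 16754536) (l 16752856)) (a (l 16751648) (b (l 16750760) (c (a (l 16751016) (l 16750232)) (l 16748688))))))))), by decide +kernel⟩

def k37_pm_102 : ∃ t, chk3 f_pm_102 t 61 36 1 = true :=
  ⟨(a (c (b (a (b (c (l 16758464) (l 16757248)) (c (l 16756128) (l 16754696))) (a (b (l 16755744) (a (l 16753640) (b (l 16753576) (l 16752272)))) (b (c (l 16754952) (l 16753592)) (b (c (l 16758336) (l 16751584)) (l 16750752))))) (a (b (a (c (l 16754960) (l 16753304)) (b (l 16758344) (a (a (l 16752856) (l 16752456)) (l 16751688)))) (a (b (c (a (l 16754192) (l 16753384)) (a (l 16752344) (l 16751528))) (l 16756832)) (l 16755240))) (b (a (a (b (l 16751960) (l 16750512)) (l 16750104)) (l 16748392)) (c (l 16747440) (l 16745600))))) (b (a (b (c (l 16756056) (l 16754896)) (c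 (l 16753288) (l 16751904))) (a (b (l 16753200) (b (l 16751048) (l 16749536))) (b (l 16751616) (b (l 16754624) (l 16747656))))) (a (b (a (l 16750872) (b (l 16749880) (c (l 16749544) (l 16747840)))) (a (b (a (l 16749624) (l 16748784)) (l 16747752)) (l 16746288))) (b (a (b (l 16748152) (l 16746512)) (l 16745088)) (l 16753384))))) (b (a (c (b (a (b (l 16758624) (c (l 16752752) (l 16751304))) (c (l 16756680) (l 16750040))) (c (l 16754224) (l 16747464))) (b (a (b (l 16750736) (l 16749192)) (l 16753240)) (l 16755744))) (c (b (l 16752552) (l 16754152)) (b (l 16755136) (l 16740816)))) (c (a (b (l 16750184) (l 16752328)) (b (l 16740320) (l 16737144))) (a (b (l 16741728) (l 16738352)) (b (l 16737224) (l 16733776)))))), by decide +kernel⟩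

def k38_pm_102 : ∃ t, chk3 f_pm_102 t 60 74 1 = true :=
  ⟨(a (c (a (b (c (l 16761120) (l 16759400)) (c (l 16759864) (l 16757872))) (a (b (l 16758568) (l 16757208)) (b (l 16757408) (b (l 16756408) (l 16755784))))) (b (a (c (l 16757696) (l 16755992)) (c (l 16755224) (l 16753400))) (a (c (l 16755888) (l 16753912)) (a (l 16753040) (a (l 16752096) (l 16751464)))))) (a (b (a (c (c (l 16757224) (l 16755264)) (l 16752360)) (b (c (l 16755392) (l 16751520)) (c (c (c (l 16756208) (l 16755160)) (l 16753600)) (c (l 16751528) (l 16749480))))) (c (a (b (c (l 16756312) (l 16754152)) (c (a (b (l 16756216) (l 16755832)) (b (l 16755512) (l 16754872))) (a (b (l 16753960) (l 16753512)) (b (l 16753232) (l 16752552))))) (b (a (b (l 16754488) (a (l 16756912) (l 16753832))) (c (l 16758392) (l 16757488))) (l 16757576))) (a (b (l 16750936) (c (a (b (l 16751720) (l 16751216)) (b (l 16750968) (l 16750248))) (a (l 16749168) (b (l 16748728) (l 16747960))))) (b (a (b (l 16750168) (l 16752232)) (b (l 16749360) (l 16748520))) (l 16747808)))))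 (b (b (b (c (a (l 16754328) (c (l 16757688) (l 16751728))) (a (l 16750400) (c (l 16749736) (l 16747760)))) (c (a (c (a (l 16755336) (l 16754616)) (l 16755488)) (l 16751968)) (a (c (l 16750840) (l 16748840)) (l 16747912)))) (c (a (a (b (a (l 16754104) (l 16753736)) (l 16758600)) (l 16752576)) (l 16750808)) (a (a (b (l 16749728) (l 16749088)) (l 16748368)) (l 16746648)))) (a (c (c (l 16751888) (l 16749664)) (c (l 16747464) (l 16745280))) (c (l 16753656) (l 16744072)))))), by decide +kernel⟩

def k39_pm_102 : ∃ t, chk3 f_pm_102 t 60 75 1 = true :=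
  ⟨(a (b (a (a (c (l 16758168) (l 16753712)) (c (c (l 16758248) (l 16755944)) (c (l 16753648) (l 16751360)))) (c (b (a (l 16756296) (c (a (l 16756576) (b (l 16756144) (l 16755648))) (a (l 16754216) (b (l 16753792) (l 16753248))))) (b (a (c (l 16757016) (l 16754608)) (a (a (l 16755040) (l 16754512)) (l 16753616))) (a (a (l 16755832) (a (l 16755352) (l 16754880))) (l 16753384)))) (a (b (l 16751712) (a (l 16751144) (b (l 16750720) (a (l 16750408) (l 16749936))))) (a (b (c (l 16751880) (l 16749552)) (c (l 16755976) (l 16753544))) (b (b (a (l 16750504) (l 16750128)) (l 16754912)) (l 16748344)))))) (a (c (a (a (l 16757336) (b (l 16757072) (b (l 16756696) (l 16756008)))) (a (b (l 16756544) (b (a (l 16756248) (l 16755880)) (l 16755424))) (b (a (l 16756072) (b (l 16756000) (l 16755560))) (l 16754632)))) (b (a (l 16752464) (a (l 16751568) (a (l 16754984) (b (l 16751000) (l 16750456))))) (b (a (l 16751864) (a (a (l 16751080) (l 16750696)) (l 16749888))) (a (c (l 16752680) (l 16750080)) (l 16754832))))) (c (c (b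 (a (b (a (l 16756688) (l 16755600)) (l 16755376)) (l 16753384)) (l 16752912)) (b (a (b (a (l 16754168) (l 16753080)) (l 16752824)) (l 16750880)) (l 16750344))) (a (a (b (a (b (l 16750632) (l 16749896)) (l 16755024)) (l 16748264)) (l 16753240)) (c (l 16747504) (l 16745000)))))) (c (a (b (a (b (c (l 16759536) (l 16757168)) (l 16751424)) (a (l 16755712) (l 16749280))) (c (l 16754152) (l 16756920))) (b (c (l 16752696) (l 16745136)) (c (l 16744032) (l 16741624)))) (a (a (b (a (b (l 16754208) (l 16747192)) (l 16752160)) (l 16743912)) (b (l 16750424) (l 16741576))) (b (c (l 16742840) (l 16740568)) (l 16748528))))), by decide +kernel⟩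

def k40_pm_102 : ∃ t, chk3 f_pm_102 t 61 37 1 = true :=
  ⟨(a (b (b (c (a (a (l 16754488) (l 16746896)) (l 16748608)) (a (c (l 16745064) (l 16743088)) (l 16739488))) (c (a (c (l 16745928) (l 16743784)) (l 16750552)) (a (l 16751096) (l 16735968)))) (b (c (a (l 16751968) (l 16736632)) (a (l 16737032) (l 16732328))) (c (a (l 16737952) (l 16733056)) (a (l 16733320) (l 16728568))))) (b (c (a (a (l 16746000) (l 16746224)) (c (l 16743560) (l 16731192))) (a (c (l 16744520) (l 16732136)) (l 16738904))) (c (a (c (l 16741496) (l 16728872)) (l 16735496)) (a (l 16736184) (l 16720928))))), by decide +kernel⟩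

def k41_pm_102 : ∃ t, chk3 f_pm_102 t 31 18 1 = true :=
  ⟨(a (a (a (b (b (a (c (l 16747312) (l 16749880)) (c (l 16745024) (l 16737160))) (c (b (l 16735664) (l 16732416)) (l 16741424))) (b (c (l 16737784) (l 16723728)) (c (l 16720064) (l 16716136)))) (b (b (c (c (l 16742240) (l 16746176)) (l 16739048)) (c (l 16739808) (l 16726344))) (b (c (l 16722448) (l 16719024)) (c (l 16715104) (l 16711336))))) (b (b (a (c (l 16736968) (l 16739784)) (c (l 16737568) (l 16724776))) (a (c (l 16724584) (l 16721744)) (c (l 16719816) (l 16717112)))) (a (b (c (l 16717568) (l 16714312)) (l 16718792)) (b (l 16721592) (l 16713880))))) (b (b (a (a (c (l 16722416) (l 16720232)) (a (l 16738800) (l 16736480))) (a (l 16732984) (l 16728312))) (a (a (c (l 16715032) (l 16712472)) (l 16729968)) (a (l 16725216) (l 16720448)))) (b (a (a (l 16727248) (l 16722408)) (c (l 16716408) (l 16713888))) (a (b (l 16718992) (l 16714984)) (c (l 16708520) (l 16705744)))))), by decide +kernel⟩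

def k42_pm_102 : ∃ t, chk3 f_pm_102 t 30 19 1 = true :=
  ⟨(b (a (b (a (c (a (b (a (b (a (b (l 16756632) (l 16756112)) (l 16755352)) (l 16754192)) (c (l 16753976) (l 16751296))) (c (l 16751664) (l 16754128))) (b (c (l 16755552) (l 16752928)) (l 16750584))) (a (b (b (a (a (b (l 16753928) (l 16750688)) (l 16753264)) (l 16748208)) (c (l 16748904) (l 16746192))) (c (l 16756600) (l 16753824))) (b (c (l 16755544) (l 16742448)) (l 16750440)))) (b (c (a (c (l 16745384) (l 16742832)) (l 16749688)) (a (l 16749504) (l 16734256))) (c (a (l 16750872) (l 16735408)) (a (l 16735152) (l 16730336))))) (a (c (b (a (l 16751760) (l 16741512)) (a (l 16742560) (l 16737496))) (a (b (l 16751320) (l 16736776)) (b (l 16736000) (l 16731880)))) (c (a (c (l 16746272) (l 16743576)) (b (l 16731456) (l 16727320))) (a (c (l 16740880) (l 16738184)) (l 16734640))))) (a (b (c (a (c (l 16744048) (l 16741608)) (b (l 16729312) (l 16725416))) (a (b (l 16729480) (l 16725504)) (l 16733152))) (c (a (l 16734792) (l 16729720)) (a (l 16729744) (l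 16714360)))) (a (b (c (l 16732848) (l 16717832)) (c (l 16714144) (l 16709448))) (b (c (l 16717344) (l 16712984)) (l 16719896))))) (a (b (a (a (b (a (l 16747216) (l 16744704)) (l 16741552)) (b (l 16742888) (l 16736472))) (c (a (l 16736368) (l 16731200)) (a (l 16730856) (l 16715400)))) (a (c (b (l 16737264) (l 16721848)) (a (l 16731496) (l 16715976))) (c (b (l 16716336) (l 16711352)) (c (l 16720264) (l 16728040))))) (a (b (c (a (l 16715560) (l 16710400)) (a (l 16710424) (l 16705456))) (c (l 16716488) (l 16708872))) (b (c (l 16714488) (l 16708512)) (c (l 16703480) (l 16688392)))))), by decide +kernel⟩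

def k43_pm_102 : ∃ t, chk3 f_pm_102 t 31 19 1 = true :=
  ⟨(a (a (b (b (c (a (l 16712304) (l 16707256)) (l 16716176)) (c (l 16711896) (l 16707656))) (b (c (l 16702880) (l 16688120)) (c (l 16682672) (l 16678472)))) (b (b (c (l 16710144) (l 16706408)) (c (l 16691176) (l 16687320))) (c (b (l 16682120) (l 16672384)) (b (l 16678232) (l 16668584))))) (b (b (a (c (l 16689488) (l 16686144)) (l 16698768)) (a (c (l 16680912) (l 16677456)) (l 16690064))) (a (b (l 16691032) (l 16681384)) (b (l 16680944) (l 16671344))))), by decide +kernel⟩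

def k44_pm_102 : ∃ t, chk3 f_pm_102 t 6 40 1 = true :=
  ⟨(a (a (a (a (b (l 3) (l 16812752)) (b (l 106468286807) (l 16798888))) (a (b (l 101636425495) (l 16801976)) (b (b (l 103247043431) (l 16782416)) (b (l 16784024) (l 16783680))))) (b (b (a (a (l 16792544) (l 16806280)) (a (l 16786536) (l 16786744))) (a (a (l 16786000) (l 16787632)) (l 16787616))) (a (b (a (l 16786768) (l 16788624)) (l 16808624)) (b (l 16788360) (l 16789288))))) (b (b (a (a (l 16786064) (l 16794472)) (a (c (l 16783376) (l 16778512)) (a (l 16778176) (l 16776064)))) (a (a (l 16786296) (l 16784016)) (a (c (l 16783680) (l 16778152)) (a (l 16778168) (l 16776088))))) (b (a (a (l 16786712) (l 16784296)) (a (c (l 16784296) (l 16778064)) (a (l 16778456) (l 16776416)))) (a (a (l 16787360) (l 16784872)) (a (c (l 16785232) (l 16778280)) (c (l 16781984) (a (l 16775240) (l 16773016)))))))), by decide +kernel⟩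

def k45_pm_102 : ∃ t, chk3 f_pm_102 t 6 82 1 = true :=
  ⟨(a (a (a (b (l 16773208) (l 16772512)) (b (l 16781392) (l 16780960))) (a (b (l 16787368) (l 16787272)) (b (l 16790128) (a (l 16791064) (l 16791504))))) (a (a (b (l 16788352) (c (l 16793328) (l 16786328))) (b (c (l 16789240) (l 16782312)) (c (l 16791112) (l 16783360)))) (a (a (b (l 16783552) (l 16784984)) (b (l 16781888) (c (l 16787392) (b (l 16778608) (l 16778960))))) (b (a (l 16780072) (c (a (l 16782552) (l 16780544)) (a (l 16773912) (b (l 16772696) (l 16771504))))) (b (a (c (l 16784880) (a (l 16777104) (l 16775376))) (c (l 16779040) (l 16770208))) (a (c (l 16783440) (a (l 16776320) (l 16772672))) (l 16770200))))))), by decide +kernel⟩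

def k46_pm_102 : ∃ t, chk3 f_pm_102 t 6 83 1 = true :=
  ⟨(b (b (a (a (a (l 16772440) (l 16780952)) (a (l 16787448) (l 16792160))) (a (a (l 16791352) (c (l 16792840) (l 16784440))) (a (a (l 16786176) (a (l 16783992) (l 16781032))) (a (l 16774352) (l 16764976))))) (a (a (a (l 16772624) (l 16781120)) (a (l 16787704) (l 16792768))) (a (a (l 16792480) (a (l 16790464) (l 16788640))) (a (a (c (l 16789200) (b (l 16781352) (l 16779456))) (l 16777088)) (a (l 16767952) (l 16758416)))))) (b (a (a (a (l 16804152) (l 16802224)) (a (b (l 16787864) (l 16788080)) (b (l 16793192) (l 16793496)))) (a (a (b (l 16793368) (a (l 16794632) (l 16792968))) (b (a (l 16791184) (c (l 16792016) (l 16782928))) (a (a (l 16790880) (l 16788248)) (l 16782352)))) (a (c (a (l 16780256) (l 16771072)) (a (l 16771880) (l 16763160))) (a (c (l 16761488) (l 16754064)) (c (l 16751616) (l 16744696)))))) (a (a (a (l 16773400) (l 16781784)) (a (l 16788464) (l 16793896))) (a (b (b (b (a (a (l 16795048) (l 16792112)) (l 16781208)) (a (a (b (l 16794720)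 (c (l 16798024) (l 16789464))) (b (l 16789912) (l 16787232))) (a (l 16780816) (l 16772464)))) (a (l 16789888) (l 16774064))) (a (l 16790504) (l 16774544))) (b (b (a (b (l 16763816) (a (l 16763656) (l 16754512))) (b (l 16745024) (a (l 16745120) (l 16735560)))) (a (l 16756368) (l 16737600))) (a (l 16756744) (l 16737864))))))), by decide +kernel⟩

def k47_pm_102 : ∃ t, chk3 f_pm_102 t 6 21 1 = true :=
  ⟨(a (a (a (b (l 16776592) (l 16782856)) (b (l 16784328) (l 16789968))) (a (b (l 16790808) (l 16796048)) (b (a (l 16794976) (l 16797408)) (l 16801216)))) (a (a (b (a (a (l 16798464) (l 16797096)) (c (l 16797568) (l 16787128))) (a (l 16803848) (l 16801120))) (b (a (c (l 16789904) (l 16779792)) (c (l 16780496) (l 16770904))) (a (c (l 16802112) (l 16788320)) (c (l 16794304) (l 16780800))))) (a (b (a (c (l 16770768) (l 16761712)) (c (l 16760672) (l 16752168))) (a (c (l 16784552) (l 16771568)) (c (l 16773080) (l 16760800)))) (b (a (c (l 16750288) (l 16742368)) (c (l 16739720) (l 16732384))) (a (c (l 16761416) (l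 16749848)) (c (l 16749480) (l 16738648))))))), by decide +kernel⟩

def k48_pm_102 : ∃ t, chk3 f_pm_102 t 6 11 1 = true :=
  ⟨(a (b (a (a (l 16793848) (l 16800336)) (a (l 16806152) (b (l 16807464) (l 16815072)))) (a (a (l 16818848) (l 16819696)) (a (l 16824096) (l 16828680)))) (a (b (a (b (a (l 16810464) (l 16809248)) (a (l 16818000) (l 16818208))) (a (b (l 16803456) (l 16812896)) (b (a (l 16798664) (l 16795288)) (l 16805752)))) (a (b (a (l 16826872) (l 16828024)) (l 16837912)) (a (b (l 16824320) (l 16837184)) (b (l 16816480) (l 16829296))))) (b (a (b (a (b (l 16776888) (l 16791832)) (b (l 16777008) (a (l 16785832) (l 16780872)))) (c (l 16803752) (a (l 16788048) (l 16779920)))) (b (c (a (l 16776000) (l 16762504)) (a (b (l 16757440) (l 16763552)) (l 16747920))) (c (a (l 16789800) (l 16778040)) (a (b (l 16768984) (l 16772912)) (b (l 16757088) (c (l 16767632) (l 16757784))))))) (a (b (c (l 16815024) (a (l 16796488) (l 16787648))) (c (l 16828424) (a (l 16806928) (l 16797392)))) (b (b (c (l 16792992) (a (l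 16776408) (l 16766784))) (c (l 16798360) (a (l 16780400) (l 16770400)))) (c (l 16807376) (a (l 16787320) (c (l 16783032) (l 16770416))))))))), by decide +kernel⟩

def k49_pm_102 : ∃ t, chk3 f_pm_102 t 28 40 1 = true :=
  ⟨(b (a (a (c (l 16777072) (b (l 16770528) (l 16770256))) (c (b (l 16774680) (l 16775128)) (b (l 16767792) (l 16767568)))) (a (c (b (l 16772232) (a (l 16773000) (b (l 16771368) (l 16770024)))) (b (a (l 16765592) (l 16764072)) (a (a (l 16765784) (b (l 16765072) (l 16764680))) (b (c (l 16767400) (a (l 16762176) (l 16760904))) (c (l 16763992) (l 16759904)))))) (a (b (c (b (l 16770032) (c (l 16771400) (l 16767544))) (b (c (l 16764352) (l 16760512)) (c (a (l 16764520) (l 16762960)) (a (l 16760552) (l 16758984))))) (c (l 16766328) (c (l 16760448) (l 16756448)))) (c (b (b (a (l 16768448) (l 16766296)) (l 16765112)) (l 16761208)) (b (a (b (a (l 16761200) (l 16760384)) (l 16758616)) (l 16757424)) (l 16753544)))))) (a (a (b (c (l 16778040) (l 16770280)) (c (a (l 16779464) (l 16777528)) (a (l 16771112)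 (b (l 16769736) (c (l 16771064) (l 16766680)))))) (c (b (a (l 16776280) (b (l 16774840) (l 16774056))) (a (l 16774488) (l 16769728))) (b (a (l 16768184) (b (l 16766672) (a (l 16766680) (l 16764816)))) (a (a (b (l 16768288) (l 16765832)) (l 16765064)) (l 16761448))))) (a (b (c (a (l 16770816) (l 16765800)) (a (b (a (l 16764968) (l 16762832)) (l 16761224)) (l 16757808))) (c (l 16762144) (l 16754208))) (c (b (l 16758120) (l 16751768)) (b (c (l 16752400) (l 16748512)) (l 16744296)))))), by decide +kernel⟩

def k50_pm_102 : ∃ t, chk3 f_pm_102 t 29 40 1 = true :=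
  ⟨(a (b (a (c (b (c (l 16760528) (l 16756872)) (l 16753456)) (a (b (l 16753760) (l 16748608)) (b (l 16748840) (l 16743616)))) (c (b (l 16748328) (l 16742936)) (b (a (l 16743856) (l 16738832)) (l 16746528)))) (a (c (b (l 16747664) (l 16741192)) (b (l 16740456) (l 16734184))) (c (b (l 16737040) (l 16730496)) (b (l 16730288) (l 16723960))))) (b (a (c (b (l 16737784) (l 16732304)) (b (l 16741720) (l 16725848))) (c (b (l 16727200) (l 16721656)) (b (l 16721080) (l 16715640)))) (b (a (c (l 16726336) (l 16720040)) (l 16723232)) (a (l 16727232) (l 16716776))))), by decide +kernel⟩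

def k51_pm_102 : ∃ t, chk3 f_pm_102 t 14 41 1 = true :=
  ⟨(b (a (a (b (a (a (b (a (l 16773040) (l 16773928)) (l 16771520)) (l 16768512)) (c (l 16765232) (l 16757088))) (a (c (l 16766832) (l 16758608)) (c (l 16756664) (l 16748936)))) (a (c (b (l 16754960) (l 16746256)) (b (l 16747288) (l 16739016))) (b (c (l 16744456) (l 16737264)) (c (l 16735688) (l 16728944))))) (a (a (b (c (l 16733808) (l 16727104)) (l 16732424)) (b (l 16730480) (l 16721992))) (a (b (l 16720000) (l 16711600)) (b (l 16709600) (l 16701328))))) (a (b (a (a (c (l 16755248) (l 16747760)) (c (l 16744968) (l 16737984))) (a (c (l 16734536) (l 16728064)) (c (l 16724032) (l 16718064)))) (a (b (a (c (l 16741528) (l 16735128)) (c (l 16731328) (l 16725432))) (b (b (a (b (l 16730432) (l 16736392)) (b (l 16720616) (l 16726696))) (l 16718384)) (l 16723768))) (b (a (c (l 16721072) (l 16715680)) (c (l 16710816) (l 16705920))) (b (b (b (a (l 16710792) (l 16701008)) (a (c (l 16708592) (l 16704392)) (c (l 16698736) (l 16695000)))) (a (l 16703928) (l 16694392)))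 (a (l 16703976) (l 16694368)))))) (a (a (c (b (l 16713512) (b (l 16700624) (a (l 16713904) (l 16708992)))) (b (l 16708040) (b (l 16696200) (a (l 16710240) (l 16705552))))) (b (c (l 16703032) (l 16698040)) (a (b (l 16691016) (c (l 16704112) (l 16700896))) (b (l 16686104) (c (l 16699264) (l 16696272)))))) (c (b (a (l 16692648) (l 16682432)) (b (a (l 16680544) (l 16691744)) (b (a (l 16692192) (l 16682864)) (l 16683776)))) (b (a (l 16688128) (l 16678352)) (b (a (l 16677040) (l 16667680)) (a (l 16689408) (l 16680432)))))))), by decide +kernel⟩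

def k52_pm_102 : ∃ t, chk3 f_pm_102 t 14 21 1 = true :=
  ⟨(a (a (b (a (c (l 16729040) (l 16722296)) (c (l 16718312) (l 16712160))) (a (c (l 16737376) (l 16727288)) (c (l 16725168) (l 16715832)))) (b (a (c (l 16707608) (l 16702032)) (c (l 16696976) (l 16691960))) (a (c (l 16712944) (l 16704352)) (c (l 16700768) (l 16692912))))) (a (b (a (c (l 16686448) (l 16681976)) (c (l 16676072) (l 16672120))) (a (c (l 16688696) (l 16681552)) (c (l 16676776) (l 16670328)))) (a (b (c (l 16686856) (l 16662432)) (c (l 16665064) (l 16659280))) (b (c (l 16676920) (l 16673928)) (c (l 16653632) (l 16648472)))))), by decide +kernel⟩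

def k53_pm_102 : ∃ t, chk3 f_pm_102 t 15 10 1 = true :=
  ⟨(b (b (a (a (b (a (b (a (l 16716368) (l 16711184)) (l 16718744)) (c (l 16713728) (l 16708504))) (a (a (l 16714736) (l 16706936)) (c (l 16701656) (l 16696792)))) (b (a (c (l 16703256) (l 16687960)) (c (l 16682384) (l 16677976))) (a (c (l 16691256) (l 16676328)) (c (l 16670480) (l 16666456))))) (a (a (b (c (l 16672072) (l 16668072)) (c (l 16660304) (l 16656680))) (b (l 16681016) (l 16669584))) (a (b (l 16671048) (l 16659816)) (a (l 16668376) (l 16663488))))) (a (b (b (a (a (l 16699304) (l 16678648)) (a (l 16668600) (l 16658688))) (a (a (l 16691184) (l 16670704)) (a (l 16660856) (l 16672120)))) (b (a (a (a (l 16673008) (l 16668136)) (l 16681872)) (a (l 16672368) (l 16663016))) (a (b (a (l 16680840) (l 16671656)) (a (l 16672616) (l 16663832))) (b (c (l 16664376) (l 16657296)) (c (l 16652080) (l 16650712)))))) (b (b (a (a (l 16648896) (l 16660200)) (l 16645928)) (a (c (l 16659144) (l 16656536)) (l 16639168))) (a (b (l 16659760) (b (l 16643872) (a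 (l 16646768) (l 16643288)))) (b (l 16636200) (b (l 16636696) (a (l 16639528) (l 16635512)))))))) (a (a (b (a (l 16665976) (l 16656728)) (a (c (l 16642496) (l 16637920)) (l 16650632))) (b (c (l 16644080) (l 16642456)) (a (l 16640344) (l 16630328)))) (a (b (a (l 16639376) (l 16631240)) (a (l 16620560) (l 16611032))) (b (a (l 16628040) (c (l 16625840) (l 16623208))) (b (l 16608696) (l 16596480)))))), by decide +kernel⟩

def k54_pm_102 : ∃ t, chk3 f_pm_102 t 14 11 1 = true :=
  ⟨(a (b (a (b (a (c (l 16748952) (l 16735256)) (c (l 16735232) (l 16722440))) (c (a (l 16764272) (l 16748808)) (a (b (l 16743384) (l 16749928)) (b (l 16729536) (l 16735320))))) (b (a (c (l 16721448) (l 16709560)) (c (l 16707672) (l 16696688))) (c (a (l 16733424) (l 16717992)) (a (l 16717968) (l 16703600))))) (a (b (c (a (b (l 16776224) (l 16782064)) (b (l 16761576) (l 16769464))) (a (b (c (l 16760912) (l 16750560)) (l 16759944)) (a (b (l 16745856) (l 16751560)) (b (l 16738152) (l 16744984))))) (b (c (l 16781424) (a (l 16763664) (l 16752392)))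 (c (l 16787016) (a (l 16767904) (l 16756216))))) (b (a (c (b (l 16744888) (l 16753848)) (b (l 16726568) (c (l 16738640) (l 16728360)))) (c (l 16732048) (b (l 16711048) (l 16717144)))) (a (b (c (l 16761904) (a (l 16743400) (l 16736392))) (c (l 16767968) (l 16723152))) (c (b (l 16745336) (l 16753544)) (b (c (l 16729576) (l 16718928)) (c (l 16736384) (a (l 16728648) (l 16721360))))))))) (b (a (b (a (c (l 16693976) (l 16683880)) (c (l 16680416) (l 16671192))) (a (c (l 16702600) (l 16689264)) (c (l 16687328) (l 16675040)))) (a (b (c (l 16667088) (l 16658704)) (c (l 16672264) (l 16661000))) (b (c (l 16654040) (l 16646464)) (c (l 16657504) (l 16647224))))) (a (b (b (a (l 16703552) (l 16698008)) (a (c (l 16718608) (l 16700816)) (c (l 16701080) (l 16684544)))) (c (a (b (l 16726752) (l 16736048)) (b (l 16708288) (l 16716552))) (a (b (l 16707048) (c (l 16719808) (l 16719320))) (b (l 16689928) (l 16696280))))) (b (a (c (b (l 16678448) (l 16683720)) (l 16687464)) (c (b (l 16662320) (l 16666648)) (l 16672040))) (a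 (c (b (l 16689976) (l 16697264)) (b (l 16672944) (l 16678408))) (c (b (l 16671936) (l 16678224)) (b (l 16656200) (l 16660760)))))))), by decide +kernel⟩

def k55_pm_102 : ∃ t, chk3 f_pm_102 t 15 11 1 = true :=
  ⟨(a (b (a (c (a (b (l 16641328) (l 16643088)) (b (l 16628960) (l 16629040))) (b (a (l 16634512) (l 16622856)) (a (l 16633752) (l 16620608)))) (b (a (l 16635208) (l 16623848)) (a (c (l 16615392) (l 16607808)) (l 16619744)))) (a (b (a (c (b (l 16646544) (l 16649928)) (l 16635944)) (c (l 16642728) (l 16621184))) (a (c (b (l 16654232) (l 16659512)) (b (l 16639768) (l 16643408))) (c (b (l 16636928) (l 16641200)) (b (l 16623696) (l 16626424))))) (c (a (b (l 16616816) (b (l 16620072) (l 16623344))) (b (l 16601832) (b (l 16603680) (l 16605968)))) (b (a (l 16606800) (l 16592816)) (a (l 16629784) (l 16593136)))))) (a (a (b (b (l 16612808) (l 16607272)) (b (l 16604264) (c (l 16588320) (l 16577928)))) (b (b (l 16602088) (l 16595192)) (b (l 16590664) (c (l 16572480) (l 16563192))))) (b (b (l 16599672) (c (l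 16590368) (l 16586192))) (a (b (l 16577504) (l 16574032)) (b (l 16564792) (l 16559768)))))), by decide +kernel⟩

def k56_pm_102 : ∃ t, chk3 f_pm_102 t 6 6 1 = true :=
  ⟨(a (b (a (b (a (l 16864000) (l 16859264)) (a (l 2) (l 16912848))) (b (a (l 16853880) (l 16853000)) (a (l 16906368) (l 16899680)))) (b (a (l 2) (a (l 2) (l 16962664))) (l 2))) (b (a (b (a (b (l 16849544) (l 16862480)) (b (a (l 16850624) (l 16844168)) (a (l 16864688) (l 16861024)))) (a (l 16892016) (b (l 16878504) (l 16898176)))) (b (a (b (c (l 16844096) (l 16793480)) (c (l 16861920) (l 16828752))) (b (c (l 16821432) (a (l 16798448) (l 16787088))) (a (l 16828056) (l 16773672)))) (a (b (l 16863624) (l 16883968)) (b (c (l 16856640) (l 16821000)) (l 16858136))))) (a (b (b (a (l 16936608) (l 16926760)) (l 16966976)) (a (l 2) (l 17019384))) (b (a (b (l 16909032) (l 16943248)) (b (l 16879624) (l 16906480))) (a (b (l 16983944) (l 17026752)) (b (l 16944552) (l 16988048))))))), by decide +kernel⟩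

def k57_pm_102 : ∃ t, chk3 f_pm_102 t 28 12 1 = true :=
  ⟨(b (a (b (c (a (l 16802888) (l 16789840)) (a (l 16754256) (c (l 16769672) (l 16756104)))) (c (l 16811072) (a (l 16786992) (l 16773808)))) (b (c (a (l 16776320) (l 16762368)) (a (b (l 16748040) (l 16752480)) (c (l 16743408) (b (l 16728928) (l 16732544))))) (b (c (l 16778744) (a (l 16757488) (l 16743672))) (c (l 16785712) (a (l 16763056) (l 16748776)))))) (a (b (c (l 16828256) (a (l 16801120) (l 16787080))) (c (l 16847856) (l 16810152))) (b (c (l 16797288) (a (l 16772496) (l 16736520))) (c (l 16815120) (a (l 16787296) (l 16771344)))))), by decide +kernel⟩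

def k58_pm_102 : ∃ t, chk3 f_pm_102 t 29 12 1 = true :=
  ⟨(b (a (b (a (c (b (c (l 16750232) (l 16738552)) (l 16750656)) (b (c (l 16726760) (a (l 16718912) (l 16711224))) (c (l 16731792) (l 16719080)))) (c (b (l 16725984) (c (l 16740432) (l 16728480))) (a (b (l 16708384) (l 16714680)) (b (l 16698936) (a (l 16708776) (l 16704392)))))) (b (c (a (l 16756248) (l 16740800)) (a (l 16708536) (c (l 16721520) (l 16708536)))) (c (a (l 16762432) (l 16746440)) (a (l 16734128) (l 16698192))))) (b (a (c (b (l 16705616) (c (l 16720800) (l 16709536))) (b (l 16684864) (c (l 16698168) (l 16697168)))) (c (b (l 16685560) (l 16693992)) (b (l 16666288) (l 16683320)))) (a (c (b (a (l 16728664) (l 16719408)) (l 16709184)) (b (a (l 16693224) (c (l 16701224) (l 16688960))) (c (l 16710536) (l 16697328)))) (a (c (b (l 16709128) (l 16696472)) (b (l 16685576) (c (l 16698464) (l 16685672)))) (c (b (l 16698072) (c (l 16713896) (l 16701656))) (b (l 16675352) (c (l 16689320) (l 16676880)))))))) (a (b (c (a (l 16772832) (l 16756008))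 (a (c (l 16749816) (l 16734360)) (a (l 16730344) (l 16701432)))) (c (a (l 16789000) (l 16771040)) (a (l 16754904) (c (l 16746376) (l 16729832))))) (b (b (c (a (l 16735840) (c (l 16725360) (l 16712160))) (a (l 16687136) (c (l 16698856) (l 16685456)))) (c (a (l 16742136) (l 16724472)) (a (l 16712840) (c (l 16703424) (l 16689272))))) (b (c (a (l 16749056) (l 16730792)) (a (l 16718168) (l 16680160))) (c (a (l 16756640) (l 16737760)) (a (l 16724104) (l 16706496))))))), by decide +kernel⟩

def k59_pm_102 : ∃ t, chk3 f_pm_102 t 14 13 1 = true :=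
  ⟨(a (b (a (b (l 16828312) (l 16871864)) (a (b (l 16824528) (l 16845984)) (b (l 16786136) (l 16827784)))) (a (b (l 16899616) (l 16938880)) (b (l 16859552) (l 16891128)))) (b (a (b (c (l 16777424) (a (l 16770288) (l 16752432))) (c (l 16819424) (a (l 16788216) (l 16769344)))) (b (c (a (l 16769248) (l 16749416)) (a (l 16713208) (c (l 16724152) (l 16707216)))) (c (a (l 16788664) (l 16767560)) (a (l 16750040) (b (l 16726432) (l 16734448)))))) (a (b (c (l 16849384) (l 16797488)) (l 16783592)) (b (c (a (l 16814104) (l 16787704)) (a (l 16766976) (l 16745968))) (c (l 16818720) (a (l 16784832) (l 16762408))))))), by decide +kernel⟩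

def k60_pm_102 : ∃ t, chk3 f_pm_102 t 30 24 1 = true :=
  ⟨(a (b (a (c (b (l 16665816) (l 16678432)) (b (l 16648000) (l 16674544))) (c (b (l 16667432) (c (l 16657240) (l 16648272))) (b (l 16630064) (l 16634664)))) (a (a (c (b (l 16687128) (l 16697104)) (b (l 16665224) (c (l 16679224) (l 16667176)))) (c (b (l 16676264) (l 16685648)) (b (l 16655176) (l 16662616)))) (c (b (c (l 16665072) (l 16655216)) (c (l 16674072) (l 16673768))) (b (l 16659928) (c (l 16662896) (l 16662416)))))) (b (a (c (b (l 16627560) (l 16643272)) (b (l 16612544) (l 16616160))) (c (b (l 16609160) (l 16634280)) (l 16617648))) (a (c (b (c (l 16643592) (l 16634520)) (c (l 16656664) (l 16662432))) (b (l 16641728) (c (l 16631424) (l 16621304)))) (c (b (c (l 16622632) (l 16614312)) (c (l 16639768) (l 16620136))) (b (l 16601712) (l 16627256)))))), by decide +kernel⟩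

def k61_pm_102 : ∃ t, chk3 f_pm_102 t 60 25 1 = true :=
  ⟨(b (a (a (c (b (c (l 16711856) (l 16699104)) (l 16711120)) (b (c (l 16686256) (l 16673304)) (l 16683904))) (c (b (c (l 16701632) (l 16689240)) (l 16702168)) (b (b (l 16668928) (l 16672416)) (l 16675560)))) (a (c (b (c (l 16690352) (l 16678368)) (c (l 16699232) (l 16675864))) (a (b (l 16673416) (l 16669208)) (b (l 16657440) (b (l 16663632) (l 16665984))))) (c (b (l 16672512) (c (l 16680760) (b (l 16674240) (l 16678440)))) (b (l 16659744) (b (l 16666120) (a (l 16661656) (l 16656872))))))) (c (a (b (c (l 16719392) (l 16705272)) (l 16697704)) (a (b (l 16698416) (l 16704264)) (b (a (l 16691432) (l 16686776)) (l 16673648)))) (a (b (c (l 16691064) (l 16676776)) (c (l 16696240) (l 16681176))) (a (b (l 16670960) (l 16675304)) (b (c (l 16669024) (l 16655528)) (l 16661088)))))), by decide +kernel⟩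

def k62_pm_102 : ∃ t, chk3 f_pm_102 t 61 25 1 = true :=
  ⟨(b (a (a (c (b (l 16671296) (c (l 16676952) (l 16664864))) (b (l 16659408) (c (l 16663176) (l 16661400)))) (c (b (l 16659704) (c (l 16664480) (l 16652856))) (b (l 16627728) (c (l 16641152) (l 16629368))))) (a (c (b (l 16658728) (c (l 16652184) (l 16641016))) (b (l 16617136) (l 16645096))) (c (b (l 16647408) (c (l 16640016) (l 16629304))) (b (l 16606680) (l 16634072))))) (a (c (b (b (c (a (l 16684408) (l 16672776)) (a (l 16671616) (l 16660400))) (a (l 16660048) (c (l 16677440) (l 16664616)))) (c (a (l 16691816) (l 16681976)) (a (l 16678088) (l 16668576)))) (b (b (a (c (l 16658736) (l 16645768)) (c (l 16647952) (l 16635416))) (a (l 16654488) (c (l 16651704) (l 16638712)))) (c (a (l 16664280) (l 16655112)) (a (l 16650384) (l 16641560))))) (c (b (a (b (l 16659304) (c (l 16665616) (l 16653216))) (c (l 16649960) (l 16648776))) (a (c (b (l 16659792) (l 16673448)) (b (c (l 16660648) (l 16654208)) (l 16660216))) (c (b (l 16658264) (c (l 16666128) (l 16659720)))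 (b (l 16645856) (a (l 16652912) (l 16647496)))))) (b (a (b (l 16651088) (a (l 16653144) (l 16631536))) (c (l 16626560) (l 16614744))) (a (c (b (c (l 16647744) (l 16641264)) (l 16646904)) (b (l 16641984) (l 16633520))) (c (b (l 16643864) (c (l 16643000) (l 16633888))) (b (l 16620816) (c (l 16627384) (l 16620864))))))))), by decide +kernel⟩

def k63_pm_102 : ∃ t, chk3 f_pm_102 t 31 12 1 = true :=
  ⟨(b (a (a (b (c (b (l 16591288) (l 16594392)) (l 16579648)) (c (b (l 16619432) (c (l 16607728) (l 16599368))) (b (l 16583200) (l 16586728)))) (b (c (l 16595856) (l 16563144)) (c (b (l 16579040) (l 16603976)) (l 16587344)))) (a (b (c (l 16557664) (l 16547208)) (c (b (l 16560256) (l 16563120)) (l 16548528))) (b (l 16557408) (c (l 16542888) (l 16531320))))) (a (b (c (a (a (b (l 16636232) (a (l 16646784) (l 16619952))) (b (l 16604232) (l 16626968))) (a (b (l 16593376) (l 16620744)) (b (l 16582680) (l 16588464)))) (a (b (l 16612224) (c (l 16622880) (l 16591736))) (b (l 16571208) (l 16596640)))) (a (a (c (b (c (l 16647784)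 (l 16626104)) (c (b (l 16645112) (l 16650728)) (b (l 16633200) (l 16646184)))) (b (c (l 16614848) (l 16603528)) (c (b (l 16621216) (l 16636328)) (b (l 16609168) (l 16613288))))) (c (b (c (l 16645768) (l 16614072)) (c (b (l 16632112) (l 16637392)) (b (l 16620688) (l 16625488)))) (b (l 16618848) (c (l 16632288) (l 16599528))))) (a (c (b (c (l 16612456) (l 16602200)) (c (b (l 16619272) (l 16624216)) (l 16631496))) (b (l 16586712) (c (l 16599296) (l 16588016)))) (c (b (c (l 16600288) (l 16590496)) (c (l 16619352) (l 16598176))) (b (l 16575712) (l 16603032)))))) (b (a (c (b (l 16566960) (c (l 16576000) (l 16567696))) (b (l 16551808) (l 16555168))) (c (b (l 16546640) (l 16550336)) (l 16534096))) (a (a (c (b (l 16604616) (c (l 16596216) (l 16586016))) (b (l 16564888) (l 16570632))) (c (c (b (l 16576520) (l 16583760)) (l 16591640)) (l 16577632))) (c (b (l 16576056) (c (l 16586424) (l 16556440))) (b (l 16538608) (l 16542880))))))), by decide +kernel⟩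

def k64_pm_102 : ∃ t, chk3 f_pm_102 t 30 26 1 = true :=
  ⟨(a (b (c (a (b (l 16725656) (l 16733312)) (b (c (l 16713256) (l 16698248)) (l 16691768))) (a (b (l 16673136) (l 16700136)) (b (c (l 16683168) (l 16668008)) (c (l 16688960) (l 16673016))))) (c (a (b (l 16741672) (l 16750768)) (b (l 16720408) (l 16728800))) (a (b (l 16706816) (l 16714184)) (b (c (l 16695400) (l 16678648)) (c (l 16702528) (l 16684952)))))) (b (c (a (b (a (l 16669808) (a (l 16683272) (l 16657288))) (a (l 16697240) (l 16665904))) (b (c (a (l 16677624) (c (l 16670760) (l 16664064))) (a (l 16663840) (c (l 16657352) (l 16650624)))) (c (a (l 16683760) (l 16673200)) (a (l 16669232) (l 16648552))))) (a (b (c (a (l 16668968) (l 16659480)) (a (l 16654336) (l 16645200))) (a (l 16656096) (a (l 16659360) (l 16654544)))) (b (c (a (l 16649992) (c (l 16643880) (l 16637120))) (a (l 16636072) (l 16626944))) (c (a (l 16654640) (l 16644816)) (a (l 16639984) (l 16630536)))))) (c (a (b (c (l 16706944) (l 16670096)) (c (l 16715016) (l 16698320))) (b (c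 (a (l 16690568) (l 16679632)) (a (l 16675264) (l 16664712))) (c (a (l 16698080) (l 16686760)) (a (l 16681976) (l 16671064))))) (a (a (b (l 16672128) (l 16678344)) (b (l 16651688) (c (l 16676336) (l 16659736)))) (b (c (a (l 16659904) (l 16649744)) (a (l 16644488) (l 16634720))) (c (a (l 16665832) (l 16644832)) (a (l 16649632) (l 16637880)))))))), by decide +kernel⟩

def k65_pm_102 : ∃ t, chk3 f_pm_102 t 30 27 1 = true :=
  ⟨(a (b (c (a (l 16763552) (b (l 16736704) (l 16744128))) (a (b (l 16721328) (l 16728184)) (b (l 16679152) (l 16706152)))) (c (a (l 16780608) (l 16751944)) (a (l 16739528) (b (l 16712760) (l 16719936))))) (b (c (a (b (c (l 16722448) (l 16705016)) (l 16720168)) (a (b (l 16675480) (l 16702136)) (b (b (l 16683704) (l 16686160)) (l 16669120)))) (a (a (b (l 16684136) (l 16689496)) (b (l 16652480) (l 16678368))) (b (c (a (l 16671192) (l 16639304)) (a (l 16654296) (l 16635936))) (c (a (l 16675968) (l 16664584)) (a (l 16658456) (l 16647520)))))) (c (a (b (l 16729456) (l 16732008)) (b (c (l 16701328)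 (l 16672232)) (c (l 16705008) (l 16699512)))) (a (b (c (l 16699064) (l 16680232)) (c (l 16705696) (l 16686184))) (a (b (l 16651256) (l 16656864)) (b (c (l 16669432) (l 16651768)) (c (l 16674864) (l 16656584)))))))), by decide +kernel⟩

def k66_pm_102 : ∃ t, chk3 f_pm_102 t 124 52 1 = true :=
  ⟨(c (b (a (a (c (b (l 16658384) (l 16661096)) (b (l 16645408) (l 16647760))) (c (b (l 16652672) (l 16655952)) (b (l 16645152) (l 16642800)))) (a (c (b (l 16646392) (l 16650696)) (b (l 16633856) (l 16637728))) (c (b (l 16639624) (c (l 16648080) (l 16641720))) (b (l 16627344) (c (l 16635344) (l 16628952)))))) (b (c (a (l 16661232) (l 16640280)) (a (l 16647624) (l 16637536))) (c (a (l 16664096) (l 16642968)) (a (l 16650128) (l 16639864))))) (b (a (a (c (b (l 16632368) (l 16634360)) (l 16630504)) (c (b (l 16637568) (l 16629584)) (b (l 16614184) (l 16616304)))) (a (c (b (l 16621264) (l 16624704)) (b (l 16608608) (l 16611616))) (b (l 16629792) (c (c (l 16622544) (l 16616120)) (l 16606464))))) (c (a (c (l 16638472) (l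 16631536)) (c (l 16628576) (l 16621832))) (a (l 16621096) (c (l 16615064) (l 16608288)))))), by decide +kernel⟩

def k67_pm_102 : ∃ t, chk3 f_pm_102 t 125 52 1 = true :=
  ⟨(c (b (c (a (b (l 16639976) (a (l 16638528) (l 16631664))) (b (l 16616144) (l 16631888))) (a (a (b (l 16620840) (l 16636496)) (l 16632576)) (b (l 16604760) (l 16630512)))) (a (c (b (a (c (l 16646040) (l 16639584)) (b (l 16635968) (l 16638152))) (c (l 16646112) (l 16639520))) (b (a (c (l 16633112) (l 16626624)) (b (l 16623344) (l 16625304))) (c (l 16632920) (l 16626304)))) (a (c (b (c (l 16633584) (l 16627352)) (c (l 16637968) (l 16631520))) (b (c (l 16621112) (l 16614856)) (c (l 16625064) (l 16618592)))) (c (b (l 16623520) (b (l 16633064) (a (l 16631480) (l 16628608)))) (b (l 16611304) (b (l 16625712) (l 16627672))))))) (b (c (a (b (l 16605656) (c (l 16634360) (l 16607152))) (l 16616408)) (a (b (l 16593656) (l 16618744)) (l 16583720))) (a (c (b (a (l 16627352) (c (l 16614624) (l 16608224))) (l 16616352)) (b (a (l 16603808) (l 16598584))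 (l 16603032))) (a (c (b (l 16605448) (l 16619352)) (b (l 16592856) (l 16595848))) (c (b (l 16599040) (c (l 16617024) (l 16600152))) (b (l 16586720) (l 16590552))))))), by decide +kernel⟩

def k68_pm_102 : ∃ t, chk3 f_pm_102 t 62 53 1 = true :=
  ⟨(c (a (b (c (a (l 16647728) (c (l 16661296) (l 16643752))) (a (c (l 16657808) (l 16650528)) (c (l 16636680) (l 16634848)))) (c (a (l 16654472) (b (l 16662480) (l 16665824))) (a (b (l 16658592) (l 16661744)) (b (l 16647776) (l 16650744))))) (b (c (a (a (l 16639096) (a (l 16645496) (l 16637528))) (c (b (l 16632720) (l 16630192)) (b (l 16631392) (l 16633928)))) (a (a (l 16635744) (a (l 16631800) (l 16629176))) (c (b (l 16624800) (l 16627160)) (b (l 16618208) (l 16620384))))) (c (a (b (l 16640792) (c (l 16658088) (l 16650760))) (b (c (l 16633072) (l 16631384)) (c (l 16636120) (a (l 16642304) (l 16636672))))) (a (b (c (l 16640560) (l 16633400)) (c (l 16643424) (l 16636080))) (a (b (l 16628896) (l 16631528)) (b (l 16623512) (a (l 16627424) (l 16624688)))))))) (a (b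 (c (a (c (l 16643240) (l 16635936)) (c (l 16632992) (l 16625888))) (a (l 16630192) (c (l 16618768) (l 16611632)))) (c (a (b (l 16643440) (l 16646208)) (b (l 16633032) (l 16635616))) (a (b (l 16628240) (l 16630624)) (b (l 16618240) (l 16620448))))) (b (b (c (a (l 16618296) (l 16618768)) (a (l 16604632) (l 16595016))) (c (a (l 16625632) (c (l 16613600) (l 16606808))) (a (l 16606368) (l 16596584)))) (c (a (b (c (l 16626232) (l 16619048)) (c (l 16628728) (l 16621360))) (a (b (l 16614864) (l 16617136)) (b (l 16609688) (l 16617112)))) (a (b (l 16608256) (c (l 16613984) (l 16606600))) (b (l 16598304) (c (l 16603752) (l 16596576)))))))), by decide +kernel⟩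

def k69_pm_102 : ∃ t, chk3 f_pm_102 t 63 52 1 = true :=
  ⟨(a (c (b (c (a (b (l 16602976) (l 16628856)) (l 16613208)) (a (l 16615248) (l 16581632))) (c (a (a (b (l 16616584) (c (l 16630576) (l 16629608))) (b (l 16609696) (l 16625680))) (b (l 16620424) (c (l 16618104) (l 16601744)))) (a (b (l 16622280) (a (a (l 16621968) (l 16608120)) (l 16603024))) (b (l 16588160) (l 16613880))))) (b (c (a (l 16583128) (l 16571000)) (l 16587072)) (c (a (b (l 16589448) (c (l 16618112) (l 16590952))) (l 16599896)) (a (b (l 16577536) (l 16581648)) (l 16567320))))) (a (c (b (c (l 16579296) (l 16569192)) (c (a (l 16612728) (l 16584976)) (l 16598328))) (b (l 16553992) (l 16581776))) (c (b (l 16582728) (c (l 16595888) (l 16564440))) (b (l 16542520) (l 16548696))))), by decide +kernel⟩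

def k70_pm_102 : ∃ t, chk3 f_pm_102 t 126 53 2 = true :=
  ⟨(b (c (a (a (b (a (l 16627936) (c (l 16628320) (l 16621920))) (l 16630392)) (b (c (b (l 16622616) (l 16624824)) (b (l 16616352) (l 16618456))) (c (l 16626864) (l 16620360)))) (b (a (a (c (l 16629184) (l 16612472)) (l 16622528)) (c (l 16609704) (l 16603656))) (c (a (b (c (l 16622160) (l 16618984)) (l 16621968)) (b (l 16624560) (c (l 16621136) (l 16619928)))) (a (b (l 16619456) (l 16615520)) (b (l 16607840) (l 16615176)))))) (a (b (c (a (b (l 16616256) (l 16617488)) (b (l 16610080) (l 16612072))) (a (l 16610384) (b (l 16603792) (l 16605688)))) (c (l 16619128) (l 16609928))) (a (b (c (l 16614992) (l 16598304)) (c (b (l 16607848) (l 16609072)) (l 16612488))) (b (l 16594560) (b (l 16608952) (a (l 16601872) (l 16599032))))))) (c (a (a (b (l 16630088) (c (l 16638016) (l 16631048))) (b (c (l 16629496) (l 16622816)) (c (l 16632296) (l 16625432)))) (b (c (a (l 16623880) (l 16618280)) (a (l 16617304) (l 16611808))) (c (a (c (l 16628272) (l 16624896)) (c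 (l 16622544) (l 16619216))) (a (c (l 16621512) (l 16618136)) (c (l 16615888) (l 16612568)))))) (a (b (c (a (l 16621544) (l 16616128)) (l 16617320)) (c (a (l 16624080) (l 16618568)) (a (l 16617096) (l 16611688)))) (b (c (a (l 16610720) (l 16605320)) (l 16611960)) (c (a (l 16613064) (l 16612816)) (a (l 16606296) (l 16600904))))))), by decide +kernel⟩

def k71_pm_102 : ∃ t, chk3 f_pm_102 t 126 53 3 = true :=
  ⟨(b (a (c (b (a (l 16612488) (c (l 16598280) (l 16591920))) (l 16610536)) (b (a (l 16587728) (l 16582368)) (l 16586840))) (c (a (b (l 16588976) (l 16602840)) (b (l 16582408) (c (l 16589848) (l 16583528)))) (b (l 16573360) (c (l 16590296) (l 16573416))))) (c (a (b (c (l 16605320) (l 16598552)) (c (a (l 16610104) (l 16604808)) (l 16600512))) (b (c (l 16594920) (l 16588368)) (c (l 16607360) (l 16590136)))) (a (b (l 16588384) (c (l 16593552) (l 16586592))) (b (l 16578504) (l 16601000))))), by decide +kernel⟩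

def k72_pm_102 : ∃ t, chk3 f_pm_102 t 127 53 2 = true :=
  ⟨(b (a (c (b (c (l 16609448) (l 16593120)) (c (a (b (l 16606824) (c (l 16611280) (l 16608176))) (l 16600992)) (a (b (l 16600728) (l 16603512)) (l 16594976)))) (b (l 16605312) (a (c (l 16595944) (l 16589768)) (l 16585936)))) (c (b (l 16603016) (c (l 16600616) (l 16584320))) (b (l 16570888) (l 16575592)))) (c (a (b (c (a (a (l 16614072) (b (l 16615720) (l 16611896))) (a (b (l 16607168) (l 16609088)) (b (l 16603560) (a (l 16606904) (l 16605328))))) (a (b (c (l 16607176) (l 16604016)) (l 16606888)) (b (l 16599136) (c (l 16613280) (l 16599640))))) (c (a (b (l 16614544) (l 16615832)) (b (l 16608896) (l 16615376))) (a (c (l 16610280) (l 16607008)) (c (l 16604680) (l 16601456))))) (b (c (a (b (l 16598008) (c (l 16612936) (l 16599360))) (l 16592088)) (a (b (l 16591952) (l 16594720)) (l 16586104))) (c (a (b (a (l 16604648) (a (l 16602456) (l 16600864))) (l 16609680)) (a (b (l 16598264) (l 16600168)) (b (l 16594616) (a (l 16597960) (l 16601600))))) (a (b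 (c (l 16608848) (l 16595216)) (l 16598056)) (b (l 16590256) (c (l 16599128) (l 16590752))))))) (a (b (c (a (b (l 16599264) (l 16600464)) (b (l 16592928) (l 16594904))) (a (l 16603920) (b (l 16586712) (l 16588584)))) (c (a (l 16612576) (l 16596624)) (a (l 16595528) (l 16590168)))) (b (c (a (l 16587192) (l 16580120)) (l 16588080)) (c (a (b (l 16590496) (l 16591680)) (b (l 16584088) (l 16586048))) (a (l 16595192) (b (l 16577920) (l 16579768)))))))), by decide +kernel⟩

def k73_pm_102 : ∃ t, chk3 f_pm_102 t 127 53 3 = true :=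
  ⟨(b (c (a (b (l 16572608) (c (l 16580232) (l 16574112))) (l 16561784)) (a (l 16583848) (l 16550352))) (c (a (a (b (l 16594328) (l 16585680)) (b (l 16588600) (l 16580480))) (b (l 16589464) (a (l 16585664) (l 16579872)))) (a (b (c (l 16571328) (l 16564976)) (l 16570024)) (b (l 16556336) (c (l 16562704) (l 16556400)))))), by decide +kernel⟩

def k74_pm_102 : ∃ t, chk3 f_pm_102 t 62 54 1 = true :=
  ⟨(c (a (b (c (a (l 16681328) (b (l 16668552) (l 16670648))) (a (b (l 16664360) (l 16666432)) (b (l 16653144) (l 16654976)))) (c (a (l 16686296) (l 16674024)) (a (l 16669776) (c (l 16661976) (l 16653928))))) (b (c (a (b (l 16646448) (l 16637800)) (a (b (l 16648232) (l 16649880)) (b (a (l 16643880) (l 16640984)) (l 16633472)))) (a (b (c (l 16645696) (l 16638192)) (c (l 16647352) (l 16639720))) (a (b (l 16633560) (l 16629728)) (b (c (l 16631600) (l 16624360)) (c (l 16632944) (l 16625592)))))) (c (a (c (l 16665656) (l 16647376)) (c (b (l 16652376) (l 14)) (b (l 16644864) (l 16646624)))) (a (b (l 16634760) (l 16636584))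 (b (c (l 16626856) (l 16624568)) (c (l 16628496) (l 16626088))))))) (a (b (c (a (b (l 16648496) (l 16650288)) (b (l 16637704) (l 16639264))) (a (b (l 16632584) (l 16634096)) (b (l 16622216) (l 16623512)))) (c (a (l 16637480) (b (l 16640952) (l 16642760))) (a (b (l 16635728) (l 16637488)) (b (l 16624920) (l 16626456))))) (b (c (a (b (c (l 16630688) (l 16623168)) (c (l 16632088) (l 16624440))) (a (b (l 16618864) (l 16620024)) (b (l 16618736) (c (l 16618232) (l 16610856))))) (a (b (c (l 16615632) (l 16608088)) (c (l 16616776) (l 16609112))) (b (c (l 16605200) (l 16597880)) (c (l 16606128) (l 16598680))))) (c (a (b (c (l 16633600) (l 16625824)) (c (l 16635232) (l 16627328))) (b (c (l 16622272) (l 16614728)) (c (l 16618424) (l 16615992)))) (a (b (c (l 16618032) (l 16610240)) (c (l 16619408) (l 16611480))) (b (c (l 16607168) (l 16599592)) (c (l 16608312) (l 16600616)))))))), by decide +kernel⟩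

def k75_pm_102 : ∃ t, chk3 f_pm_102 t 62 55 1 = true :=
  ⟨(c (a (b (c (a (l 16694472) (l 16678992)) (a (l 16674704) (c (l 16666528) (l 16658208)))) (c (a (l 16720568) (l 14)) (a (l 16680208) (l 16667336)))) (b (b (c (a (l 16665032) (c (l 14) (l 16648504))) (a (l 16628056) (c (l 16640744) (l 16622480)))) (c (l 14) (a (l 16651104) (c (l 16642624) (l 16624232))))) (c (l 14) (a (b (l 16653320) (l 16655664)) (b (c (l 16644632) (l 16636600)) (c (l 14) (l 16638608))))))) (a (b (c (a (l 16636592) (b (l 16644696) (l 16646760))) (a (b (l 16639384) (l 16641408)) (b (l 16628120) (l 16629904)))) (c (a (l 16662480) (b (l 16648960) (l 16651296))) (a (l 16634208) (b (l 16631824) (l 16633872))))) (b (c (a (b (c (l 16636992) (l 16628952)) (c (l 16638872) (l 16630704))) (b (c (l 16619936) (l 16617384)) (c (l 16621568) (l 16616264)))) (a (b (c (l 16620904) (l 16612848)) (c (l 16622520) (l 16614328))) (b (c (l 16609576) (l 16601752)) (c (l 16610952) (l 16603000))))) (c (a (b (l 16626248) (l 16628328)) (b (c (l 16618080)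 (l 16615272)) (c (l 16619952) (l 16617016)))) (a (b (c (l 16624264) (l 16615936)) (c (l 16626136) (l 16617672))) (b (c (l 16612448) (l 16604376)) (c (l 16611448) (l 16605864)))))))), by decide +kernel⟩

def k76_pm_102 : ∃ t, chk3 f_pm_102 t 126 54 2 = true :=
  ⟨(b (c (a (b (c (a (l 16640200) (l 16634368)) (a (l 16633088) (l 16627360))) (c (a (l 16641656) (l 16635696)) (a (l 16634432) (l 16623336)))) (b (c (a (c (l 16630264) (l 16626816)) (c (l 16621800) (l 16621032))) (a (c (l 16623368) (l 16619920)) (c (l 16617632) (l 16614240)))) (c (a (b (l 16629432) (l 16630064)) (b (l 16623528) (l 16624088))) (a (b (l 16622456) (l 16623024)) (b (l 16616656) (l 16617168)))))) (a (b (c (a (l 16625968) (l 16620352)) (a (l 16618840) (l 16613328))) (c (a (l 16627200) (l 16621456)) (a (l 16619952) (l 16614320)))) (a (b (c (l 16614736) (l 16607824)) (c (b (l 16615472) (l 16615984)) (l 16608704))) (b (c (l 16611760) (l 16602336)) (c (b (l 16609776) (l 16610232)) (l 16607024)))))) (c (a (b (c (a (l 16643224) (l 16637136))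 (a (l 16635880) (l 16629904))) (c (l 14) (a (l 16637448) (l 16631336)))) (b (c (a (l 16625808) (c (l 14) (l 16623232))) (a (l 16621312) (c (l 16619728) (l 16616224)))) (c (l 14) (a (l 16620000) (c (l 16620928) (l 16617376)))))) (a (b (c (a (l 16628528) (l 16622664)) (a (l 16621168) (l 16615424))) (c (a (l 16629976) (l 16623984)) (a (l 16622504) (l 16616624)))) (b (c (a (l 16616808) (c (l 16612720) (l 16609216))) (a (l 16609680) (l 16603952))) (c (a (l 16618008) (c (l 16613816) (l 16610256))) (a (l 16610760) (c (l 16606688) (l 16603128)))))))), by decide +kernel⟩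

def k77_pm_102 : ∃ t, chk3 f_pm_102 t 127 108 2 = true :=
  ⟨(c (a (a (b (b (c (l 16616704) (l 16610048)) (c (l 16617152) (l 16610448))) (c (b (l 16617624) (c (l 14) (l 16616424))) (b (l 16610864) (l 16611312)))) (b (b (c (l 16612912) (l 16604392)) (c (a (l 16612784) (l 16609880)) (l 16604728))) (c (b (c (l 16613400) (l 16610080)) (c (l 14) (l 16610496))) (b (l 16605088) (l 16608096))))) (a (b (b (c (l 16610440) (l 16598752)) (c (a (l 16606968) (l 16604072)) (l 16599024))) (c (b (c (l 16607496) (l 16604232)) (c (l 14) (l 16604584))) (b (l 16599328) (l 16604888)))) (b (b (c (l 16609944) (l 16593120)) (c (l 16604968) (l 16593336))) (c (b (c (l 16601608) (l 16598400)) (c (l 14) (l 16598688))) (b (l 16593576) (l 16593832)))))) (a (a (b (c (l 16608792) (l 16596856)) (c (b (l 16604096) (l 16604496)) (l 16602736))) (b (c (l 16608456) (l 16591384)) (c (b (l 16598432) (l 16598768)) (l 16591912)))) (b (c (a (l 16592408) (l 16586864)) (l 16593696)) (a (c (b (l 16592784) (l 16593056)) (l 16586336)) (b (l 16583920)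 (l 16594600)))))), by decide +kernel⟩

def k78_pm_102 : ∃ t, chk3 f_pm_102 t 127 109 2 = true :=
  ⟨(c (a (b (b (a (c (l 16618648) (l 16611784)) (c (c (l 14) (l 16610944)) (l 16608504))) (c (l 14) (a (l 16612280) (a (l 16607808) (l 16604824))))) (c (l 14) (a (b (l 16612800) (c (l 14) (l 16611600))) (c (b (l 16608488) (l 14)) (b (l 16605056) (l 16605528)))))) (b (b (a (c (c (l 14) (l 16604968)) (l 16605232)) (c (c (l 14) (l 16599008)) (l 16594120))) (c (l 14) (a (a (l 16601848) (l 16598872)) (l 16599664)))) (c (l 14) (b (c (a (l 16602440) (l 16596400)) (a (l 16599072) (l 16593096))) (c (l 14) (a (l 16599472) (l 16593432))))))) (a (b (c (a (c (l 16606856) (l 16603408)) (c (l 16601008) (l 16597616))) (a (l 16603472) (l 16592528))) (c (a (b (l 16605832) (l 16606328)) (b (l 16599912) (l 16600352))) (a (c (l 16600824) (l 16597312)) (c (l 16594960) (l 16591520))))) (b (c (a (c (l 16595176) (l 16591840)) (l 16598200)) (a (l 16586840) (l 16581160))) (c (a (b (l 16594016) (l 16594384)) (c (l 16595184) (l 16586616)))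 (a (l 16597912) (l 16581632)))))), by decide +kernel⟩

def k79_pm_102 : ∃ t, chk3 f_pm_102 t 63 54 3 = true :=
  ⟨(a (b (c (a (b (c (a (l 16611704) (l 16606296)) (l 16601904)) (c (b (l 16609696) (l 16610192)) (b (l 16602520) (l 16602952)))) (b (c (a (l 16600904) (l 16595520)) (l 16591336)) (c (b (l 16598736) (l 16599112)) (b (l 16591784) (l 16592104))))) (a (b (c (l 16594808) (l 16587696)) (c (l 16595520) (l 16588296))) (b (l 16591496) (c (l 16584952) (l 16577952))))) (c (a (b (c (a (l 16613800) (l 16608168)) (a (l 16606424) (l 16600904))) (c (a (l 16615016) (l 16609256)) (a (l 16607520) (l 16601880)))) (b (c (a (l 16602536) (l 16596928)) (a (l 16595392) (l 16589888))) (c (a (l 16603512) (l 16597776)) (a (l 16596248) (l 16590632))))) (a (b (c (l 16596328) (l 16588992)) (c (l 16597248) (l 16589792))) (b (c (l 16585536) (l 16578424)) (c (l 16596712) (l 16579008)))))) (b (c (a (b (c (l 16597952) (l 16580816)) (c (b (l 16587824) (l 16588088)) (l 16581192))) (b (c (l 16576776) (l 16570344)) (c (l 16587520)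 (l 16570504)))) (a (b (l 16570816) (l 16592016)) (b (l 16560680) (l 16560696)))) (c (a (b (c (a (l 16591320) (l 16585736)) (l 16581664)) (c (a (l 16592056) (l 16586344)) (l 16592720))) (a (b (l 16576816) (l 16587744)) (b (l 16571312) (l 16571640)))) (a (b (l 16592328) (c (l 16575264) (l 16568280))) (b (l 16560792) (l 16560984)))))), by decide +kernel⟩

def k80_pm_102 : ∃ t, chk3 f_pm_102 t 126 55 2 = true :=
  ⟨(b (b (c (b (c (l 14) (a (l 16635592) (a (l 16626288) (l 16620104)))) (l 14)) (a (c (a (l 16631544) (l 16625424)) (a (l 16623944) (l 16617944))) (c (a (l 16616688) (c (l 16615016) (l 16611400))) (a (l 16614576) (c (l 16607784) (l 16604168)))))) (c (l 14) (a (c (a (l 16633224) (l 16626968)) (a (l 16625512) (l 16619376))) (c (a (l 16615480) (c (l 16613704) (l 16612656))) (a (c (l 16615128) (l 16611392)) (c (l 16608984) (l 16605312))))))) (c (l 14) (a (b (c (a (l 16635024) (l 16628640)) (a (l 16627192) (l 16620928))) (c (l 14) (a (l 16628992) (l 16622592)))) (b (c (a (l 16617016) (c (l 14) (l 16611400)))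 (a (c (l 16616568) (l 16612776)) (c (l 16610296) (l 16606568)))) (c (l 14) (a (c (l 16618128) (l 16614280)) (c (l 16609096) (l 16607936)))))))), by decide +kernel⟩

def k81_pm_102 : ∃ t, chk3 f_pm_102 t 127 55 2 = true :=
  ⟨(b (c (b (b (c (l 14) (c (l 14) (a (a (l 16612160) (l 16606024)) (a (l 16599904) (l 16593800))))) (l 14)) (l 14)) (a (b (c (a (b (l 16606848) (l 16607400)) (b (l 16603424) (a (l 16602816) (l 16599768)))) (a (c (l 16601784) (l 16598232)) (c (l 16601048) (l 16592304)))) (c (b (c (a (l 16609768) (l 16603560)) (a (l 16606176) (l 16600032))) (c (l 14) (a (l 16606768) (l 16600552)))) (a (b (l 16600784) (l 16601328)) (b (l 16594728) (l 16595216))))) (b (c (a (b (l 16600024) (l 16600112)) (b (l 16588760) (l 16594360))) (a (c (l 16589832) (l 16586400)) (l 16592680))) (c (b (c (a (l 16597376) (l 16591200)) (a (l 16593904) (l 16587792))) (c (l 14) (a (l 16594360) (l 16588176)))) (a (a (l 16595664) (l 16592632)) (c (l 16595048) (l 16581136))))))) (c (l 14) (a (b (b (a (c (c (l 14) (l 16607376))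 (l 16601904)) (c (c (l 14) (l 16601104)) (l 16600968))) (c (l 14) (a (l 16602504) (a (l 16597824) (l 16594704))))) (c (l 14) (b (c (a (l 16604992) (l 16598640)) (a (l 16601288) (l 16595000))) (c (l 14) (a (l 16601928) (l 16595576)))))) (b (b (a (c (c (l 14) (l 16594840)) (l 16594800)) (c (c (l 14) (l 16588592)) (l 16583408))) (c (l 14) (a (l 16595272) (l 16594296)))) (c (l 14) (b (c (a (l 16592312) (l 16585992)) (a (l 16588736) (l 16582480))) (c (l 14) (a (l 16589240) (l 16582928))))))))), by decide +kernel⟩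

def k82_pm_102 : ∃ t, chk3 f_pm_102 t 126 55 3 = true :=
  ⟨(b (c (a (b (c (a (l 16616344) (l 16610464)) (a (l 16608728) (l 16602968))) (c (a (l 16617784) (l 16611776)) (a (l 16610048) (l 16604160)))) (b (c (a (l 16604592) (l 16598736)) (a (l 16597216) (l 16591480))) (c (a (l 16605776) (c (l 16601632) (l 16597952))) (a (l 16598288) (l 16592432))))) (a (b (a (l 16607768) (l 16602184)) (c (a (l 16602296) (l 16596536)) (l 16591720))) (b (c (l 16594888) (l 16579688)) (c (a (l 16590792) (l 16585056)) (l 16580472))))) (c (a (b (c (a (l 16619344) (l 16613208)) (a (l 16611480) (l 16605472))) (c (a (l 16621024) (l 16614752)) (a (l 16613040) (l 16606904)))) (b (c (a (c (l 16608976) (l 16605184)) (c (l 16602832) (l 16599096))) (a (l 16599480) (l 16593496))) (c (a (c (l 16610424) (l 16606568)) (c (l 16604144) (l 16600352))) (a (l 16600776) (c (l 16596560) (l 16592768)))))) (a (b (c (a (l 16603608) (l 16597728)) (l 16594160)) (c (a (l 16605040) (l 16599040)) (a (l 16597032) (l 16591160)))) (b (c (a (l 16591864) (l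 16586008)) (l 16591856)) (c (a (l 16593048) (l 16587064)) (a (l 16585304) (l 16579456))))))), by decide +kernel⟩

def k83_pm_102 : ∃ t, chk3 f_pm_102 t 127 55 3 = true :=
  ⟨(b (c (a (b (c (a (l 16598128) (l 16587056)) (a (l 16585760) (l 16580048))) (c (a (c (l 16595632) (l 16592016)) (l 16595736)) (a (l 16586584) (l 16580760)))) (b (c (a (l 16581240) (l 16575440)) (l 16582000)) (c (a (l 16581928) (l 16576000)) (a (l 16574944) (l 16569144))))) (a (b (c (l 16575824) (l 16568736)) (c (l 16586968) (l 16569288))) (b (l 16582240) (c (l 16565112) (l 16558168))))) (c (a (b (c (a (c (l 16596704) (l 16593032)) (c (l 16595832) (l 16586976))) (a (l 16598008) (l 16581568))) (c (a (b (l 16595720) (l 16596320)) (b (l 16589536) (l 16590072))) (a (c (l 16590432) (l 16586696)) (l 16587720)))) (b (c (a (c (l 16584480) (l 16580944)) (l 16587144)) (a (l 16575624) (l 16569704))) (c (a (a (l 16590392) (l 16592544)) (c (l 16579176) (l 16575656))) (a (l 16576416) (l 16570360))))) (a (b (c (a (l 16580168) (l 16574344)) (l 16569944))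 (c (a (l 16581096) (l 16575144)) (l 16581192))) (a (b (l 16564976) (l 16576096)) (b (l 16559256) (l 16559760)))))), by decide +kernel⟩

def k84_pm_102 : ∃ t, chk3 f_pm_102 t 6 7 1 = true :=
  ⟨(b (a (l 2) (b (a (l 2) (a (l 2) (l 17004288))) (l 2))) (l 2)), by decide +kernel⟩

def k85_pm_102 : ∃ t, chk3 f_pm_102 t 14 14 1 = true :=
  ⟨(a (b (a (l 16937704) (b (l 16931016) (l 16971896))) (a (l 2) (b (l 17010136) (l 2)))) (b (a (b (b (l 16850704) (l 16869288)) (l 16879616)) (b (c (l 16811408) (l 16772672)) (a (l 16839968) (l 16793816)))) (a (b (l 16920024) (l 16978496)) (b (a (l 16923072) (l 16812336)) (l 16887664))))), by decide +kernel⟩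

def k86_pm_102 : ∃ t, chk3 f_pm_102 t 30 14 1 = true :=
  ⟨(b (a (b (c (a (l 16840008) (l 16751376)) (a (l 16756640) (b (l 16727648) (l 16735920)))) (a (l 16748272) (c (l 16851248) (l 16739456)))) (a (b (c (b (l 16733328) (l 16796328)) (b (l 16681832) (l 16710168))) (c (b (l 16816224) (l 16835008)) (b (l 16718088) (l 16718248)))) (c (b (b (l 16680152) (l 16702928)) (b (l 16703440) (l 16786624))) (a (b (b (l 16684008) (l 16690680)) (c (l 16707776) (l 16691120))) (b (b (c (l 16680856) (l 16661936)) (l 16656648)) (b (l 16684328) (l 16696376))))))) (a (b (a (c (l 16908720) (l 16786408)) (b (l 16748888) (l 16745720))) (a (l 16805536) (c (l 16922360) (l 16778728)))) (b (c (a (l 16861216) (b (l 16826704) (l 16844760))) (a (c (l 16729256) (l 16724512)) (b (l 16685032) (l 16705536)))) (b (a (c (l 16886408) (l 16713720)) (c (l 16861856) (l 16704032))) (a (l 16737208) (c (l 16879128) (l 16702848))))))), by decide +kernel⟩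

def k87_pm_102 : ∃ t, chk3 f_pm_102 t 62 28 1 = true :=
  ⟨(b (c (a (b (c (l 16694600) (a (l 16687912) (l 16672880))) (a (l 16677928) (c (l 16751888) (l 14)))) (c (a (b (l 16666848) (l 16692192)) (b (l 14) (l 16652496))) (b (b (a (l 16658144) (c (l 14) (l 16640744))) (l 14)) (l 14)))) (a (b (c (a (l 16667968) (b (l 16653768) (l 16656392))) (a (l 16628608) (b (l 16636064) (l 16638392)))) (c (a (l 16674000) (l 16639608)) (a (l 16655000) (b (l 16640856) (l 16643448))))) (b (c (a (b (l 16620048) (l 16643368)) (b (c (l 16632448) (l 16613648)) (c (l 16634584) (l 16615656)))) (a (b (c (l 16628144) (l 16619536)) (l 16615424)) (b (c (l 16610568) (l 16607480)) (c (l 16612448) (l 16609216))))) (c (a (b (l 16645856) (l 16648472)) (b (c (l 16636856) (l 16628280)) (c (l 14) (l 16630560)))) (a (b (l 16617632) (l 16619968)) (a (b (l 16618568) (l 16620712)) (b (l 16612224) (l 16608976)))))))) (c (a (b (c (l 16761984) (l 16685600)) (c (l 16804184) (l 16687264))) (a (b (c (l 16758072) (l 16657912)) (c (l 16780632) (l 16681960)))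 (b (c (b (l 16734224) (l 16746336)) (l 14)) (c (l 16763832) (l 16642296))))) (a (a (b (c (l 16681248) (l 16660904)) (l 16656800)) (b (c (l 16666608) (b (l 16646160) (l 16648984))) (c (l 14) (l 16653448)))) (b (b (c (a (l 16651224) (c (l 14) (l 16632960))) (a (l 16611944) (c (l 16613616) (l 16604744)))) (c (l 14) (a (l 16635488) (c (l 16626496) (l 16607000))))) (c (l 14) (a (b (l 16638184) (l 16640984)) (b (c (l 16629000) (l 16619848)) (c (l 14) (l 16622320))))))))), by decide +kernel⟩

def k88_pm_102 : ∃ t, chk3 f_pm_102 t 126 56 1 = true :=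
  ⟨(c (b (b (b (c (l 14) (c (l 14) (a (l 16616688) (a (l 16617432) (l 16610952))))) (l 14)) (l 14)) (c (a (c (l 16648600) (l 14)) (l 14)) (l 14))) (b (c (a (b (c (a (l 16622824) (l 16616424)) (a (l 16614720) (l 16608448))) (c (a (l 16624752) (l 16618208)) (a (l 16616520) (l 16610112)))) (b (c (a (c (l 16611984) (l 16608072)) (a (l 16605240) (l 16602056))) (a (c (l 16604152) (l 16600232)) (c (l 16597872) (l 16594016)))) (b (c (a (l 16611256) (l 16604768)) (a (l 16603328) (l 16596984))) (c (a (l 16612112) (l 16605560)) (a (l 16604128) (l 16597712)))))) (a (b (c (a (l 16606600) (l 16600464)) (a (l 16598464) (l 16592464))) (c (a (l 16608272) (l 16602008)) (a (l 16600008) (l 16593888)))) (b (c (a (l 16594344) (l 16588232)) (a (l 16586480) (l 16580504))) (c (a (l 16595752) (c (l 16591472) (l 16587552))) (a (l 16587768) (l 16581672)))))) (c (a (b (c (a (l 16626808) (l 16620128)) (a (l 16618448) (l 16611904))) (c (l 14) (a (l 16620512) (l 16613824)))) (b (b (c (a (l 16613000) (l 16606376)) (a (l 16604952) (l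 16598472))) (c (l 14) (a (l 16605808) (l 16599256)))) (b (c (l 14) (a (l 16606696) (l 16600072))) (c (l 14) (a (l 16607616) (l 16600920)))))) (a (b (c (a (l 16610072) (l 16603672)) (a (l 16601688) (l 16595424))) (c (a (l 16612008) (l 16605464)) (a (l 16603488) (l 16597096)))) (b (c (a (c (l 16599312) (l 16595264)) (c (l 16592904) (l 16588920))) (a (l 16589184) (l 16582952))) (c (a (c (l 16600992) (l 16596888)) (c (l 16594448) (l 16590408))) (a (l 16590712) (c (l 16586368) (l 16582328))))))))), by decide +kernel⟩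

def k89_pm_102 : ∃ t, chk3 f_pm_102 t 127 56 2 = true :=
  ⟨(b (b (b (b (c (l 14) (c (l 14) (a (a (l 16604304) (l 16597872)) (a (l 16594320) (l 16590288))))) (l 14)) (l 14)) (l 14)) (l 14)), by decide +kernel⟩

def k90_pm_102 : ∃ t, chk3 f_pm_102 t 127 112 3 = true :=
  ⟨(c (a (b (c (a (b (l 16596952) (l 16597616)) (b (l 16595880) (a (l 16592824) (l 16589632)))) (a (c (l 16591608) (l 16587824)) (c (l 16585360) (l 16581640)))) (c (b (c (a (l 16600208) (l 16593720)) (a (l 16596392) (l 16589968))) (c (l 14) (a (l 16597088) (l 16590600)))) (a (b (l 16590648) (l 16591312)) (b (l 16584336) (l 16584928))))) (b (c (b (a (l 16589576) (l 16578048)) (a (l 16590104) (l 16588992))) (a (c (l 16579128) (l 16575480)) (l 16571120))) (b (c (a (c (l 16587248) (l 16583568)) (l 16584224)) (a (l 16578040) (l 16571752))) (a (c (c (l 14) (l 16584128)) (l 16578560)) (c (c (l 14) (l 16577672)) (l 16572208)))))) (a (b (c (a (l 16582136) (l 16576064)) (a (l 16574552) (l 16568608))) (c (a (c (l 16585216) (l 16581368)) (l 16587568))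 (a (l 16575584) (l 16569520)))) (b (c (a (l 16570000) (l 16563960)) (l 16559728)) (c (a (l 16570888) (l 16564712)) (l 16570936))))), by decide +kernel⟩

def k91_pm_102 : ∃ t, chk3 f_pm_102 t 127 113 3 = true :=
  ⟨(c (a (b (b (a (c (c (l 14) (l 16597824)) (l 16592000)) (c (c (l 14) (l 16591264)) (l 16590792))) (c (l 14) (a (l 16592720) (a (l 16587824) (l 16584568))))) (c (l 14) (b (c (a (l 16595432) (l 16588808)) (a (l 16591496) (l 16584936))) (c (l 14) (a (l 16592256) (l 16585632)))))) (b (b (c (b (a (l 16590368) (l 16585128)) (l 14)) (a (l 16589600) (l 16572696))) (c (l 14) (a (l 16584936) (l 16573200)))) (c (l 14) (b (a (c (l 16582192) (l 16578400)) (l 16584224)) (c (l 14) (a (l 16579016) (l 16572424))))))) (a (b (c (a (c (l 16586504) (l 16582600)) (c (l 16580128) (l 16576296))) (a (l 16576736) (l 16570536))) (c (a (b (l 16585576) (l 16586296)) (b (l 16579128) (l 16579776))) (a (l 16583240) (l 16582152)))) (b (c (a (c (l 16573760) (l 16570000)) (l 16565576)) (a (l 16564360) (l 16558192))) (c (a (c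 (l 16580136) (l 16571080)) (c (l 16568416) (l 16564672))) (a (l 16565352) (l 16559056)))))), by decide +kernel⟩

def k92_pm_102 : ∃ t, chk3 f_pm_102 t 126 57 1 = true :=
  ⟨(c (a (c (b (c (l 16737048) (l 16643176)) (b (l 16740096) (l 16751976))) (b (l 14) (c (l 16637792) (l 14)))) (c (c (b (b (l 16711280) (l 16724208)) (l 16742888)) (b (l 14) (b (l 16705392) (l 16717992)))) (l 14))) (b (c (b (b (c (l 14) (a (l 16608256) (a (l 16608568) (l 16601800)))) (l 14)) (l 14)) (a (b (c (a (l 16614072) (l 16607384)) (a (l 16605416) (l 16598888))) (c (a (l 16616264) (l 16609440)) (a (l 16607472) (l 16600808)))) (b (c (a (c (l 16602808) (l 16598632)) (a (l 16595728) (l 16592408))) (a (l 16594992) (c (l 16587920) (l 16583816)))) (b (c (a (l 16602136) (l 16595376)) (a (l 16593696) (l 16587088))) (c (a (l 16603128) (l 16596288)) (a (l 16594616) (l 16587936))))))) (c (l 14) (a (b (c (a (l 16618568) (l 16611616)) (a (l 16609648) (l 16602856))) (c (l 14) (a (l 16611928) (l 16605000)))) (b (b (c (a (l 16604144) (l 16597240))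 (a (l 16595568) (l 16588824))) (c (l 14) (a (l 16596552) (l 16589736)))) (b (c (l 14) (a (l 16597560) (l 16590680))) (c (l 14) (a (l 16598600) (l 16591648))))))))), by decide +kernel⟩

def k93_pm_102 : ∃ t, chk3 f_pm_102 t 127 57 1 = true :=
  ⟨(c (c (c (a (b (b (l 14) (a (l 16709248) (l 14))) (b (l 16717208) (l 16729904))) (b (l 14) (b (a (l 16701808) (l 14)) (a (l 16714912) (l 16704560))))) (a (b (l 14) (b (l 14) (a (l 16703040) (l 14)))) (l 14))) (l 14)) (a (b (c (b (b (b (c (l 14) (a (l 16594840) (l 16588128))) (l 14)) (l 14)) (l 14)) (b (c (a (b (l 16587040) (l 16587824)) (b (l 16585704) (l 16583784))) (a (c (l 16581392) (l 16577368)) (c (l 16574888) (l 16570936)))) (c (b (c (a (l 16590664) (l 16583896)) (a (l 16586600) (l 16579912))) (c (l 14) (a (l 16587424) (l 16580664)))) (a (a (l 16582536) (l 16584472)) (a (l 16581168) (l 16577864)))))) (c (l 14) (b (b (a (c (c (l 14) (l 16588280)) (l 16582088)) (c (c (l 14) (l 16581448)) (l 16575368))) (c (l 14) (a (l 16582928) (l 16581384)))) (c (l 14) (b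 (a (l 16583808) (c (l 16579000) (l 16574888))) (c (l 14) (a (l 16582592) (l 16575704)))))))) (b (c (b (b (b (c (l 14) (a (l 16584048) (l 16579984))) (l 14)) (l 14)) (l 14)) (b (c (a (b (l 16573888) (l 16579768)) (b (l 16567344) (l 16567904))) (a (l 16576944) (l 16560032))) (b (c (a (c (l 16577144) (l 16573240)) (l 16578984)) (a (l 16567368) (l 16560832))) (c (c (l 14) (a (l 16573920) (l 16567192))) (a (l 16568008) (l 16561400)))))) (c (l 14) (b (b (a (c (c (l 14) (l 16574624)) (l 16568672)) (c (c (l 14) (l 16567824)) (l 16561992))) (c (l 14) (a (l 16574616) (l 16562616)))) (b (c (l 14) (a (l 16575992) (l 16573760))) (c (l 14) (c (l 14) (a (l 16568824) (l 16561968)))))))))), by decide +kernel⟩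

def k94_pm_102 : ∃ t, chk3 f_pm_102 t 62 29 1 = true :=
  ⟨(b (c (b (a (c (l 16824176) (l 16750552)) (c (l 16773032) (a (l 16746576) (b (l 16723056) (l 16734520))))) (a (l 16775496) (c (l 16814448) (a (l 16768008) (l 16751152))))) (a (a (b (l 16679744) (l 16680504)) (b (a (l 16665888) (l 16635392)) (l 16641824))) (b (c (a (l 16648792) (l 14)) (b (a (l 16643904) (c (l 14) (l 16624896))) (l 14))) (c (a (l 16671632) (l 16632024)) (l 14))))) (c (a (b (l 16835920) (l 16853408)) (b (c (l 16833784) (l 16759424)) (l 16784160))) (a (b (c (l 16739264) (l 16667176)) (l 16670840)) (b (a (c (l 16735240) (l 16639688)) (c (b (l 16711968) (l 16722960)) (l 14))) (a (l 16645832) (c (l 16738904) (l 16622048))))))), by decide +kernel⟩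

def k95_pm_102 : ∃ t, chk3 f_pm_102 t 63 29 2 = true :=
  ⟨(b (a (c (b (a (l 16769136) (b (l 16745496) (l 16757160))) (a (l 16790880) (l 16774048))) (c (b (a (l 16703968) (b (l 16699528) (l 16711784))) (a (l 16747816) (l 16708592))) (b (a (l 16632376) (l 14)) (a (l 16697960) (b (l 16693688) (l 16705680)))))) (a (c (b (b (c (l 16742232) (l 16710664)) (l 16738632)) (b (l 16750456) (l 16761952))) (b (b (l 14) (c (a (l 16696864) (l 14)) (l 14))) (b (c (l 16704192) (l 14)) (c (l 16716296) (a (l 16690792) (l 14)))))) (c (b (a (b (l 16669528) (l 16724040)) (b (c (l 16717552) (l 14)) (l 16692984))) (b (l 16689432) (l 16743376))) (b (l 14) (c (b (a (l 16688840) (l 14)) (a (l 16701344) (l 16691024))) (l 14)))))) (a (b (c (l 16803568) (a (l 16755416) (b (l 16732000) (l 16743176)))) (c (l 16823416) (a (l 16776280) (l 16759376)))) (c (b (a (l 16778616) (b (l 16755048) (l 16766392))) (a (l 16799752) (l 16782832))) (a (b (b (c (l 16728080) (l 16697872)) (l 16703672)) (b (l 16735984) (l 16747016))) (b (a (b (l 16656104)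 (l 16710080)) (b (c (l 16703448) (l 14)) (l 16658088))) (b (c (l 16732096) (l 16701712)) (l 16728440))))))), by decide +kernel⟩

def k96_pm_102 : ∃ t, chk3 f_pm_102 t 63 29 3 = true :=
  ⟨(a (b (b (b (b (c (l 14) (c (l 14) (a (l 16599704) (a (l 16599656) (l 16592640))))) (l 14)) (l 14)) (c (a (b (l 14) (l 16618416)) (l 14)) (l 14))) (c (c (b (a (l 16692072) (b (l 16687968) (l 16699704))) (a (l 16734984) (l 16695776))) (b (a (l 16621712) (l 14)) (a (l 16686312) (b (l 16682368) (l 16693872))))) (b (l 14) (a (b (l 14) (l 16608320)) (l 14))))) (b (b (b (b (b (c (l 14) (c (l 14) (a (a (l 16585400) (l 16578416)) (a (l 16576680) (l 16574968))))) (l 14)) (l 14)) (l 14)) (l 14)) (c (a (b (b (l 14) (c (a (l 16684856) (l 14)) (l 14))) (b (c (l 16691696) (l 14)) (c (l 16703304) (a (l 16679056) (l 14))))) (b (l 14) (c (b (a (l 16676424) (l 14)) (a (l 16688408) (l 16678144))) (l 14)))) (l 14)))), by decide +kernel⟩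

def k97_pm_102 : ∃ t, chk3 f_pm_102 t 14 15 1 = true :=
  ⟨(a (l 2) (b (b (a (l 2) (c (l 17016976) (l 16958072))) (l 2)) (l 2))), by decide +kernel⟩

def k98_pm_102 : ∃ t, chk3 f_pm_102 t 30 30 1 = true :=
  ⟨(a (b (c (l 16972864) (l 16838976)) (a (l 2) (l 16962496))) (b (a (b (l 16842952) (l 16906072)) (c (l 16909256) (b (l 16767472) (l 16833304)))) (a (c (l 16973112) (l 16899272)) (b (l 16855920) (l 16918504))))), by decide +kernel⟩

def k99_pm_102 : ∃ t, chk3 f_pm_102 t 62 30 1 = true :=
  ⟨(b (c (a (b (l 16871040) (l 16890920)) (b (l 16844016) (l 16841088))) (a (b (a (l 16741096) (c (l 16790816) (l 16741440))) (a (l 16807032) (l 16788824))) (b (c (l 16725376) (a (l 16724296) (b (l 16701296) (l 16711840)))) (a (b (l 16764688) (l 16776232)) (b (l 16747968) (l 16695168)))))) (c (a (l 16921760) (b (l 16882320) (l 16903360))) (a (b (l 16822432) (l 16846008)) (b (a (l 16795200) (c (l 16801008) (l 16751416))) (c (l 16834056) (l 16787288)))))), by decide +kernel⟩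

def k100_pm_102 : ∃ t, chk3 f_pm_102 t 63 30 1 = true :=
  ⟨(b (c (a (b (c (l 16842176) (l 16767120)) (l 16812616)) (b (c (l 16811816) (a (l 16763016) (b (l 16739640) (l 16750536)))) (c (l 16831096) (a (l 16783336) (l 16766336))))) (a (c (b (a (l 16742288) (b (l 16719104) (l 16729832))) (a (l 16762328) (l 16745392))) (c (b (a (l 16680680) (b (l 16676904) (l 16688168))) (a (l 16722712) (l 16683560))) (b (b (l 14) (a (l 16679928) (l 14))) (a (l 16675168) (b (l 16671560) (l 16682608)))))) (a (c (b (b (c (l 16714600) (l 16685672)) (l 16690368)) (b (l 16722232) (l 16732832))) (b (b (l 14) (a (l 16596864) (l 14))) (c (b (l 16679800) (l 16690952)) (b (l 14) (a (l 16667896) (l 14)))))) (c (c (b (b (l 16695104) (l 16706576)) (l 16723232)) (b (b (a (l 16670456) (l 14)) (a (l 16682200) (l 16671968))) (b (l 16688672) (l 16699920)))) (c (b (l 14) (b (a (l 16664640) (l 14)) (a (l 16676152) (l 16665960)))) (l 14)))))) (c (a (b (c (l 16877672) (l 16826376)) (l 16872784)) (b (c (l 16849312) (l 16794584)) (a (l 16848560)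 (l 16832760)))) (a (b (a (c (l 16783024) (b (l 16725224) (l 16737472))) (c (l 16744472) (b (l 16706816) (a (l 16722216) (l 16712648))))) (a (l 16740480) (c (l 16788344) (b (l 16730000) (l 16743592))))) (b (c (a (l 16748216) (b (l 16725056) (l 16735536))) (c (a (l 16686168) (b (l 16682416) (l 16693448))) (a (b (l 16674088) (l 16685016)) (b (a (l 16658992) (l 14)) (a (l 16670272) (l 16660128)))))) (a (c (b (l 16763400) (l 16775096)) (b (a (l 16714392) (l 16704584)) (l 16680288))) (b (c (l 16745736) (c (l 16704192) (l 16676344))) (c (l 16756096) (a (l 16674800) (l 16675224))))))))), by decide +kernel⟩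

def k101_pm_102 : ∃ t, chk3 f_pm_102 t 15 31 1 = true :=
  ⟨(a (a (l 2) (b (c (l 17003408) (a (l 2) (l 16921440))) (l 2))) (a (b (a (b (l 16852744) (l 16946024)) (c (l 16944936) (b (l 16841952) (l 16878368)))) (c (l 17010016) (a (l 2) (l 16927840)))) (b (c (a (b (l 16900920) (l 16933688)) (b (l 16827888) (l 16905624))) (a (b (a (l 16815456) (l 16754960)) (l 16803840)) (b (a (b (l 16745568) (l 16788400)) (b (c (l 16772600) (a (l 16724608) (l 16692712))) (l 16726768))) (c (l 16834568) (a (l 16796192) (l 16777016)))))) (c (a (l 16978168) (l 16954488)) (a (b (l 16882624) (l 16916584)) (b (c (l 16872848) (l 16828480)) (l 16887904))))))), by decide +kernel⟩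

theorem s102_pm_102 : ∃ t, chk3 f_pm_102 t 31 30 1 = true := ex3_a k99_pm_102 k100_pm_102

theorem s103_pm_102 : ∃ t, chk3 f_pm_102 t 15 30 1 = true := ex3_a k98_pm_102 s102_pm_102

theorem s104_pm_102 : ∃ t, chk3 f_pm_102 t 15 15 1 = true := ex3_b s103_pm_102 k101_pm_102

theorem s105_pm_102 : ∃ t, chk3 f_pm_102 t 7 15 1 = true := ex3_a k97_pm_102 s104_pm_102

theorem s106_pm_102 : ∃ t, chk3 f_pm_102 t 63 29 1 = true := ex3_c k95_pm_102 k96_pm_102

theorem s107_pm_102 : ∃ t, chk3 f_pm_102 t 31 29 1 = true := ex3_a k94_pm_102 s106_pm_102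

theorem s108_pm_102 : ∃ t, chk3 f_pm_102 t 63 57 1 = true := ex3_a k92_pm_102 k93_pm_102

theorem s109_pm_102 : ∃ t, chk3 f_pm_102 t 127 56 3 = true := ex3_b k90_pm_102 k91_pm_102

theorem s110_pm_102 : ∃ t, chk3 f_pm_102 t 127 56 1 = true := ex3_c k89_pm_102 s109_pm_102

theorem s111_pm_102 : ∃ t, chk3 f_pm_102 t 63 56 1 = true := ex3_a k88_pm_102 s110_pm_102

theorem s112_pm_102 : ∃ t, chk3 f_pm_102 t 63 28 1 = true := ex3_b s111_pm_102 s108_pm_102

theorem s113_pm_102 : ∃ t, chk3 f_pm_102 t 31 28 1 = true := ex3_a k87_pm_102 s112_pm_102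

theorem s114_pm_102 : ∃ t, chk3 f_pm_102 t 31 14 1 = true := ex3_b s113_pm_102 s107_pm_102

theorem s115_pm_102 : ∃ t, chk3 f_pm_102 t 15 14 1 = true := ex3_a k86_pm_102 s114_pm_102

theorem s116_pm_102 : ∃ t, chk3 f_pm_102 t 7 14 1 = true := ex3_a k85_pm_102 s115_pm_102

theorem s117_pm_102 : ∃ t, chk3 f_pm_102 t 7 7 1 = true := ex3_b s116_pm_102 s105_pm_102

theorem s118_pm_102 : ∃ t, chk3 f_pm_102 t 3 7 1 = true := ex3_a k84_pm_102 s117_pm_102

theorem s119_pm_102 : ∃ t, chk3 f_pm_102 t 63 55 3 = true := ex3_a k82_pm_102 k83_pm_102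

theorem s120_pm_102 : ∃ t, chk3 f_pm_102 t 63 55 2 = true := ex3_a k80_pm_102 k81_pm_102

theorem s121_pm_102 : ∃ t, chk3 f_pm_102 t 63 55 1 = true := ex3_c s120_pm_102 s119_pm_102

theorem s122_pm_102 : ∃ t, chk3 f_pm_102 t 127 54 2 = true := ex3_b k77_pm_102 k78_pm_102

theorem s123_pm_102 : ∃ t, chk3 f_pm_102 t 63 54 2 = true := ex3_a k76_pm_102 s122_pm_102

theorem s124_pm_102 : ∃ t, chk3 f_pm_102 t 63 54 1 = true := ex3_c s123_pm_102 k79_pm_102

theorem s125_pm_102 : ∃ t, chk3 f_pm_102 t 63 27 1 = true := ex3_b s124_pm_102 s121_pm_102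

theorem s126_pm_102 : ∃ t, chk3 f_pm_102 t 62 27 1 = true := ex3_b k74_pm_102 k75_pm_102

theorem s127_pm_102 : ∃ t, chk3 f_pm_102 t 31 27 1 = true := ex3_a s126_pm_102 s125_pm_102

theorem s128_pm_102 : ∃ t, chk3 f_pm_102 t 127 53 1 = true := ex3_c k72_pm_102 k73_pm_102

theorem s129_pm_102 : ∃ t, chk3 f_pm_102 t 126 53 1 = true := ex3_c k70_pm_102 k71_pm_102

theorem s130_pm_102 : ∃ t, chk3 f_pm_102 t 63 53 1 = true := ex3_a s129_pm_102 s128_pm_102

theorem s131_pm_102 : ∃ t, chk3 f_pm_102 t 63 26 1 = true := ex3_b k69_pm_102 s130_pm_102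

theorem s132_pm_102 : ∃ t, chk3 f_pm_102 t 62 52 1 = true := ex3_a k66_pm_102 k67_pm_102

theorem s133_pm_102 : ∃ t, chk3 f_pm_102 t 62 26 1 = true := ex3_b s132_pm_102 k68_pm_102

theorem s134_pm_102 : ∃ t, chk3 f_pm_102 t 31 26 1 = true := ex3_a s133_pm_102 s131_pm_102

theorem s135_pm_102 : ∃ t, chk3 f_pm_102 t 31 13 1 = true := ex3_b s134_pm_102 s127_pm_102

theorem s136_pm_102 : ∃ t, chk3 f_pm_102 t 30 13 1 = true := ex3_b k64_pm_102 k65_pm_102

theorem s137_pm_102 : ∃ t, chk3 f_pm_102 t 15 13 1 = true := ex3_a s136_pm_102 s135_pm_102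

theorem s138_pm_102 : ∃ t, chk3 f_pm_102 t 30 25 1 = true := ex3_a k61_pm_102 k62_pm_102

theorem s139_pm_102 : ∃ t, chk3 f_pm_102 t 30 12 1 = true := ex3_b k60_pm_102 s138_pm_102

theorem s140_pm_102 : ∃ t, chk3 f_pm_102 t 15 12 1 = true := ex3_a s139_pm_102 k63_pm_102

theorem s141_pm_102 : ∃ t, chk3 f_pm_102 t 15 6 1 = true := ex3_b s140_pm_102 s137_pm_102

theorem s142_pm_102 : ∃ t, chk3 f_pm_102 t 14 12 1 = true := ex3_a k57_pm_102 k58_pm_102

theorem s143_pm_102 : ∃ t, chk3 f_pm_102 t 14 6 1 = true := ex3_b s142_pm_102 k59_pm_102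

theorem s144_pm_102 : ∃ t, chk3 f_pm_102 t 7 6 1 = true := ex3_a s143_pm_102 s141_pm_102

theorem s145_pm_102 : ∃ t, chk3 f_pm_102 t 3 6 1 = true := ex3_a k56_pm_102 s144_pm_102

theorem s146_pm_102 : ∃ t, chk3 f_pm_102 t 3 3 1 = true := ex3_b s145_pm_102 s118_pm_102

theorem s147_pm_102 : ∃ t, chk3 f_pm_102 t 7 11 1 = true := ex3_a k54_pm_102 k55_pm_102

theorem s148_pm_102 : ∃ t, chk3 f_pm_102 t 14 40 1 = true := ex3_a k49_pm_102 k50_pm_102

theorem s149_pm_102 : ∃ t, chk3 f_pm_102 t 14 20 1 = true := ex3_b s148_pm_102 k51_pm_102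

theorem s150_pm_102 : ∃ t, chk3 f_pm_102 t 14 10 1 = true := ex3_b s149_pm_102 k52_pm_102

theorem s151_pm_102 : ∃ t, chk3 f_pm_102 t 7 10 1 = true := ex3_a s150_pm_102 k53_pm_102

theorem s152_pm_102 : ∃ t, chk3 f_pm_102 t 7 5 1 = true := ex3_b s151_pm_102 s147_pm_102

theorem s153_pm_102 : ∃ t, chk3 f_pm_102 t 6 41 1 = true := ex3_b k45_pm_102 k46_pm_102

theorem s154_pm_102 : ∃ t, chk3 f_pm_102 t 6 20 1 = true := ex3_b k44_pm_102 s153_pm_102

theorem s155_pm_102 : ∃ t, chk3 f_pm_102 t 6 10 1 = true := ex3_b s154_pm_102 k47_pm_102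

theorem s156_pm_102 : ∃ t, chk3 f_pm_102 t 6 5 1 = true := ex3_b s155_pm_102 k48_pm_102

theorem s157_pm_102 : ∃ t, chk3 f_pm_102 t 3 5 1 = true := ex3_a s156_pm_102 s152_pm_102

theorem s158_pm_102 : ∃ t, chk3 f_pm_102 t 15 19 1 = true := ex3_a k42_pm_102 k43_pm_102

theorem s159_pm_102 : ∃ t, chk3 f_pm_102 t 60 37 1 = true := ex3_b k38_pm_102 k39_pm_102

theorem s160_pm_102 : ∃ t, chk3 f_pm_102 t 30 37 1 = true := ex3_a s159_pm_102 k40_pm_102

theorem s161_pm_102 : ∃ t, chk3 f_pm_102 t 30 36 1 = true := ex3_a k36_pm_102 k37_pm_102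

theorem s162_pm_102 : ∃ t, chk3 f_pm_102 t 30 18 1 = true := ex3_b s161_pm_102 s160_pm_102

theorem s163_pm_102 : ∃ t, chk3 f_pm_102 t 15 18 1 = true := ex3_a s162_pm_102 k41_pm_102

theorem s164_pm_102 : ∃ t, chk3 f_pm_102 t 15 9 1 = true := ex3_b s163_pm_102 s158_pm_102

theorem s165_pm_102 : ∃ t, chk3 f_pm_102 t 14 39 1 = true := ex3_b k34_pm_102 k35_pm_102

theorem s166_pm_102 : ∃ t, chk3 f_pm_102 t 59 38 1 = true := ex3_b k32_pm_102 k33_pm_102

theorem s167_pm_102 : ∃ t, chk3 f_pm_102 t 29 38 1 = true := ex3_a k31_pm_102 s166_pm_102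

theorem s168_pm_102 : ∃ t, chk3 f_pm_102 t 14 38 1 = true := ex3_a k30_pm_102 s167_pm_102

theorem s169_pm_102 : ∃ t, chk3 f_pm_102 t 14 19 1 = true := ex3_b s168_pm_102 s165_pm_102

theorem s170_pm_102 : ∃ t, chk3 f_pm_102 t 29 18 1 = true := ex3_b k28_pm_102 k29_pm_102

theorem s171_pm_102 : ∃ t, chk3 f_pm_102 t 14 18 1 = true := ex3_a k27_pm_102 s170_pm_102

theorem s172_pm_102 : ∃ t, chk3 f_pm_102 t 14 9 1 = true := ex3_b s171_pm_102 s169_pm_102

theorem s173_pm_102 : ∃ t, chk3 f_pm_102 t 7 9 1 = true := ex3_a s172_pm_102 s164_pm_102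

theorem s174_pm_102 : ∃ t, chk3 f_pm_102 t 62 34 1 = true := ex3_b k23_pm_102 k24_pm_102

theorem s175_pm_102 : ∃ t, chk3 f_pm_102 t 62 17 1 = true := ex3_b s174_pm_102 k25_pm_102

theorem s176_pm_102 : ∃ t, chk3 f_pm_102 t 31 17 1 = true := ex3_a s175_pm_102 k26_pm_102

theorem s177_pm_102 : ∃ t, chk3 f_pm_102 t 60 35 1 = true := ex3_b k20_pm_102 k21_pm_102

theorem s178_pm_102 : ∃ t, chk3 f_pm_102 t 30 35 1 = true := ex3_a s177_pm_102 k22_pm_102

theorem s179_pm_102 : ∃ t, chk3 f_pm_102 t 61 69 1 = true := ex3_a k18_pm_102 k19_pm_102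

theorem s180_pm_102 : ∃ t, chk3 f_pm_102 t 123 136 1 = true := ex3_a k15_pm_102 k16_pm_102

theorem s181_pm_102 : ∃ t, chk3 f_pm_102 t 123 68 1 = true := ex3_b s180_pm_102 k17_pm_102

theorem s182_pm_102 : ∃ t, chk3 f_pm_102 t 61 68 1 = true := ex3_a k14_pm_102 s181_pm_102

theorem s183_pm_102 : ∃ t, chk3 f_pm_102 t 61 34 1 = true := ex3_b s182_pm_102 s179_pm_102

theorem s184_pm_102 : ∃ t, chk3 f_pm_102 t 30 34 1 = true := ex3_a k13_pm_102 s183_pm_102

theorem s185_pm_102 : ∃ t, chk3 f_pm_102 t 30 17 1 = true := ex3_b s184_pm_102 s178_pm_102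

theorem s186_pm_102 : ∃ t, chk3 f_pm_102 t 15 17 1 = true := ex3_a s185_pm_102 s176_pm_102

theorem s187_pm_102 : ∃ t, chk3 f_pm_102 t 15 8 1 = true := ex3_b k12_pm_102 s186_pm_102

theorem s188_pm_102 : ∃ t, chk3 f_pm_102 t 7 8 1 = true := ex3_a k11_pm_102 s187_pm_102

theorem s189_pm_102 : ∃ t, chk3 f_pm_102 t 7 4 1 = true := ex3_b s188_pm_102 s173_pm_102

theorem s190_pm_102 : ∃ t, chk3 f_pm_102 t 3 4 1 = true := ex3_a k10_pm_102 s189_pm_102

theorem s191_pm_102 : ∃ t, chk3 f_pm_102 t 3 2 1 = true := ex3_b s190_pm_102 s157_pm_102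

theorem s192_pm_102 : ∃ t, chk3 f_pm_102 t 3 1 1 = true := ex3_b s191_pm_102 s146_pm_102

theorem s193_pm_102 : ∃ t, chk3 f_pm_102 t 10 83 1 = true := ex3_b k4_pm_102 k5_pm_102

theorem s194_pm_102 : ∃ t, chk3 f_pm_102 t 5 83 1 = true := ex3_a s193_pm_102 k6_pm_102

theorem s195_pm_102 : ∃ t, chk3 f_pm_102 t 5 41 1 = true := ex3_b k3_pm_102 s194_pm_102

theorem s196_pm_102 : ∃ t, chk3 f_pm_102 t 5 20 1 = true := ex3_b k2_pm_102 s195_pm_102

theorem s197_pm_102 : ∃ t, chk3 f_pm_102 t 5 10 1 = true := ex3_b s196_pm_102 k7_pm_102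

theorem s198_pm_102 : ∃ t, chk3 f_pm_102 t 5 5 1 = true := ex3_b s197_pm_102 k8_pm_102

theorem s199_pm_102 : ∃ t, chk3 f_pm_102 t 2 5 1 = true := ex3_a k1_pm_102 s198_pm_102

theorem s200_pm_102 : ∃ t, chk3 f_pm_102 t 2 2 1 = true := ex3_b k0_pm_102 s199_pm_102

theorem s201_pm_102 : ∃ t, chk3 f_pm_102 t 2 1 1 = true := ex3_b s200_pm_102 k9_pm_102

theorem s202_pm_102 : ∃ t, chk3 f_pm_102 t 1 1 1 = true := ex3_a s201_pm_102 s192_pm_102

theorem c_pm_102 : CertN 536870912 536870912 0 536870912 402653184 67108864 3 true true false .npp 1 0 2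
    ndN0q1 ndN0q0 pcN2 cut_pm_102 Ext.none :=
  certN1 (fam := true) (s1 := true) (s2 := false) (a := 1) (b := 0) (c := 2) (cn := .npp) (n1 := ndN0q1) (n2 := ndN0q0) (pc := pcN2) (cut := cut_pm_102) (xt := Ext.none) (P1 := 536870912) (W1 := 536870912) (P2 := 0) (W2 := 536870912) (P3 := 402653184) (W3 := 67108864) (N0 := 3)
    rfl (fun _ => rfl) s202_pm_102

end Pool.Agent.Strip051.G.I3_8_7_16.Tab.C.NA00

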