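import Pool.Agent.Strip051.G.I3_8_7_16.Tab

/-! # Certificates N4 (generated) -/

set_option linter.all false
set_option maxRecDepth 100000

namespace Pool.Agent.Strip051.G.I3_8_7_16.Tab.C.NA00

open Pool.Agent.Strip051.PB Pool.Agent.Strip051.PB.T
open Pool.Agent.Strip051.G.I3_8_7_16.Tab

noncomputable def f_pm_112 : ℕ → ℕ → ℕ → ℕ → Bool := onCell 536870912 536870912 1073741824 536870912 402653184 67108864
    (rowN 3 1 true true false .dn 1 1 2 (qsf 536870912 536870912 536870912 536870912 2) ndN0q1 ndN0q1 pcN2 Cut.none Ext.none)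

def k0_pm_112 : ∃ t, chk3 f_pm_112 t 2 4 1 = true :=
  ⟨(a (l 3) (l 3)), by decide +kernel⟩

def k1_pm_112 : ∃ t, chk3 f_pm_112 t 4 10 1 = true :=
  ⟨(b (b (l 3) (b (l 3) (b (a (a (a (b (l 3) (b (l 3) (a (c (l 181093323255) (l 184314537991)) (l 188609505863)))) (l 3)) (l 3)) (l 3)) (a (b (b (a (a (a (l 16798320) (l 16798656)) (a (l 184851410775) (l 191293861719))) (l 3)) (a (a (a (l 16797632) (b (l 16798112) (l 16797736))) (a (b (l 16798448) (l 16798056)) (b (l 16798760) (l 16798368)))) (a (a (b (l 16799048) (l 16798656)) (b (l 3) (l 16798904))) (a (l 191293863303) (l 3))))) (a (a (l 16796632) (l 16797208)) (a (a (l 16797656) (l 16797904)) (a (l 16798104) (l 16798256))))) (b (a (l 3) (b (l 3) (a (a (l 3) (b (l 3) (l 16799056))) (a (b (l 16799216) (l 16798840)) (b (l 16798952) (l 16798576)))))) (a (a (a (l 16798352) (l 16798400)) (a (l 16798400) (l 16798344))) (a (a (l 16798240) (l 16798080)) (a (l 16797880) (l 16797624))))))))) (a (b (c (a (b (a (l 16796208) (l 16796616))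 (l 16832968)) (b (a (l 16797336) (l 16797880)) (l 16853336))) (a (b (a (l 16790344) (l 16790184)) (l 16830072)) (b (a (l 16790448) (l 16790720)) (l 16848816)))) (a (l 16830016) (l 16824184))) (b (b (a (a (l 16794408) (l 16794432)) (a (l 16794288) (l 16793968))) (c (a (l 16811736) (l 16853512)) (a (l 16827712) (l 16848720)))) (a (l 16800736) (l 16780992))))), by decide +kernel⟩

def k2_pm_112 : ∃ t, chk3 f_pm_112 t 5 10 1 = true :=
  ⟨(b (b (a (l 3) (l 1)) (b (a (a (l 3) (l 1)) (l 1)) (b (a (a (b (l 3) (a (b (l 3) (a (l 3) (l 193441344119))) (b (a (l 3) (a (l 197736310039) (l 1))) (a (c (l 186462032663) (l 189683247095)) (c (l 16803064) (l 16794560)))))) (l 1)) (l 1)) (a (a (b (a (b (a (l 187535765383) (l 134385545079)) (a (b (l 16798656) (l 16798288)) (b (l 16798336) (l 16797968)))) (b (a (l 16798512) (l 16798176)) (a (l 16808328) (l 16797544)))) (a (l 16797176) (l 16796608))) (b (l 1) (a (l 16796216) (l 1)))) (l 1))))) (a (b (b (a (a (l 16793512) (l 16814200)) (a (l 16814384)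 (l 1))) (a (a (l 16788240) (l 16789008)) (l 16836088))) (a (l 16802344) (l 16817872))) (b (l 1) (a (l 91301734583) (l 1))))), by decide +kernel⟩

def k3_pm_112 : ∃ t, chk3 f_pm_112 t 2 11 1 = true :=
  ⟨(a (a (b (a (b (l 16782392) (l 16801168)) (b (l 16787976) (l 16806368))) (a (a (l 16826192) (l 16830400)) (l 16834896))) (a (b (b (l 16790584) (l 16808864)) (l 16837584)) (b (l 16831256) (l 16839168)))) (a (a (b (b (l 16788760) (l 16808240)) (l 16838288)) (b (b (l 16783288) (l 16805456)) (l 16836752))) (b (a (a (l 16789608) (l 16807656)) (b (l 1) (l 16791528))) (b (a (l 16820064) (l 16813400)) (a (l 16842768) (l 16835080)))))), by decide +kernel⟩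

def k4_pm_112 : ∃ t, chk3 f_pm_112 t 2 3 1 = true :=
  ⟨(a (b (b (a (a (b (a (l 16864472) (l 16869872)) (a (l 16906880) (l 16914216))) (b (l 16875712) (l 16922072))) (b (a (l 16880776) (l 16882800)) (a (l 16929088) (l 16933784)))) (a (b (a (a (l 16954528) (l 16964032)) (l 16975064)) (a (b (a (l 16992136) (l 17005784)) (a (l 17008848) (l 17034936))) (l 17035088))) (b (a (l 16984720) (l 16991368)) (a (l 17048864) (l 17058112))))) (b (a (a (b (a (l 16958728) (l 16980064)) (a (b (l 16965504) (l 16912696)) (l 16965128))) (b (a (l 17071168) (l 17082440)) (a (l 17069992) (l 17103528)))) (b (a (l 17093632) (l 17109328)) (a (l 17083184) (l 17137272)))) (a (a (b (b (a (a (l 16950568) (l 16975864)) (l 17011096)) (a (c (l 16984328) (a (l 16898624) (l 16928072))) (c (l 17027296) (l 16968616)))) (a (b (c (l 16981880) (b (l 16906016) (l 16908472))) (a (b (l 16936832) (l 16941728)) (l 16922176))) (b (c (l 17024328) (l 16962136)) (c (l 17029256) (l 16965808))))) (b (b (l 17074592) (a (l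 17041400) (l 17081184))) (a (b (l 17035352) (l 17036640)) (b (l 17073168) (l 17071088))))) (b (a (a (b (l 17130688) (l 17119848)) (l 17085160)) (l 17140216)) (a (b (l 17105144) (l 17118760)) (a (l 17062840) (l 17183736))))))) (b (a (a (b (b (l 16884296) (l 16935832)) (b (l 16996488) (l 17065368))) (b (b (l 16882064) (l 16936136)) (b (l 16997184) (l 17069376)))) (a (b (b (l 16878256) (l 16931056)) (b (l 16994632) (l 17066760))) (b (b (a (l 16873480) (l 16868744)) (l 16925824)) (b (l 16987848) (l 17062832))))) (a (b (b (a (l 17131440) (l 17151624)) (a (l 17153960) (l 17175888))) (a (b (l 17173016) (l 17188176)) (b (l 17188760) (l 17198856)))) (a (b (b (l 17152288) (l 17201392)) (b (l 17206288) (l 17210208))) (b (b (l 17143264) (l 17187952)) (l 17230512)))))), by decide +kernel⟩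

def k5_pm_112 : ∃ t, chk3 f_pm_112 t 3 2 1 = true :=
  ⟨(a (b (l 1) (b (l 1) (a (b (l 1) (a (l 53720808727) (l 1))) (l 1)))) (l 1)), by decide +kernel⟩

def k6_pm_112 : ∃ t, chk3 f_pm_112 t 3 6 1 = true :=
  ⟨(a (a (b (a (b (a (l 16863960) (l 16858808)) (a (l 16919248) (l 16912832))) (b (a (l 16851712) (l 1)) (a (l 16906320) (l 16899176)))) (b (a (l 16980216) (a (l 16971136) (l 16962640))) (a (l 17053272) (l 17021432)))) (b (a (b (l 1) (a (l 16889640) (l 1))) (l 1)) (b (a (b (l 16932672) (l 16966928)) (a (l 39225342759) (l 1))) (a (a (l 17030208) (l 17019360)) (a (b (l 16983912) (l 17026736)) (l 24192943831)))))) (b (l 1) (a (a (b (l 1) (a (l 33856521223) (l 1))) (l 1)) (l 1)))), by decide +kernel⟩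

def k7_pm_112 : ∃ t, chk3 f_pm_112 t 3 7 1 = true :=
  ⟨(a (b (b (a (a (l 17099760) (l 17100080)) (a (l 17086288) (a (l 17073984) (l 17004264)))) (a (a (l 17162360) (l 17125168)) (a (l 17130280) (a (l 17122120) (l 17109256))))) (a (a (a (l 17216208) (l 17206112)) (b (l 17178776) (l 17204280))) (a (b (l 17146664) (l 17191664)) (b (a (l 17158104) (l 17130824)) (l 17163744))))) (b (a (a (b (a (l 16916672) (b (l 16930720) (l 16971864))) (a (l 17071880) (b (l 17010120) (l 17044568)))) (b (a (b (l 1) (l 16900304)) (l 1)) (a (b (l 16919992) (l 16999456)) (b (l 46204503463) (l 16887632))))) (a (b (l 1) (a (b (l 1) (l 55868142823)) (l 1))) (l 1))) (a (a (b (a (l 17127392) (l 17088960)) (a (l 17126384) (l 17138408))) (b (b (a (l 17032992) (c (l 17016960) (l 16958056))) (a (l 17062152) (l 17020728))) (b (a (l 17090920) (l 17054320)) (l 17124320)))) (a (b (a (a (b (l 16950632) (l 16987024)) (b (l 60700098743) (l 16962488))) (b (b (l 1) (l 63921164615)) (c (l 81638227319) (a (l 16899256)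 (l 62310653239))))) (a (b (c (l 17042728) (l 16986032)) (l 17054376)) (b (c (l 17003392) (a (l 16948800) (l 16921432))) (c (l 17046696) (l 16988608))))) (b (a (b (l 1) (c (l 108481644423) (a (l 79490441207) (l 1)))) (l 1)) (a (b (c (l 78953846855) (a (l 51573267287) (l 58015707767))) (c (l 17010000) (a (l 16953728) (l 16927832)))) (b (c (l 114387191239) (a (l 83248594295) (l 1))) (c (l 78953858935) (a (l 54257629623) (b (l 89154129927) (l 16887896))))))))))), by decide +kernel⟩

theorem s8_pm_112 : ∃ t, chk3 f_pm_112 t 3 3 1 = true := ex3_b k6_pm_112 k7_pm_112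

theorem s9_pm_112 : ∃ t, chk3 f_pm_112 t 3 1 1 = true := ex3_b k5_pm_112 s8_pm_112

theorem s10_pm_112 : ∃ t, chk3 f_pm_112 t 2 10 1 = true := ex3_a k1_pm_112 k2_pm_112

theorem s11_pm_112 : ∃ t, chk3 f_pm_112 t 2 5 1 = true := ex3_b s10_pm_112 k3_pm_112

theorem s12_pm_112 : ∃ t, chk3 f_pm_112 t 2 2 1 = true := ex3_b k0_pm_112 s11_pm_112

theorem s13_pm_112 : ∃ t, chk3 f_pm_112 t 2 1 1 = true := ex3_b s12_pm_112 k4_pm_112

theorem s14_pm_112 : ∃ t, chk3 f_pm_112 t 1 1 1 = true := ex3_a s13_pm_112 s9_pm_112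

theorem c_pm_112 : CertN 536870912 536870912 536870912 536870912 402653184 67108864 3 true true false .dn 1 1 2
    ndN0q1 ndN0q1 pcN2 Cut.none Ext.none :=
  certN1 (fam := true) (s1 := true) (s2 := false) (a := 1) (b := 1) (c := 2) (cn := .dn) (n1 := ndN0q1) (n2 := ndN0q1) (pc := pcN2) (cut := Cut.none) (xt := Ext.none) (P1 := 536870912) (W1 := 536870912) (P2 := 536870912) (W2 := 536870912) (P3 := 402653184) (W3 := 67108864) (N0 := 3)
    rfl (fun _ => rfl) s14_pm_112

noncomputable def cut_pm_113 : Cut := Cut.of [[⟨0, 1, 0, 67108864⟩, ⟨1, 1, 0, 67108864⟩, ⟨2, 2, 0, 16777216⟩]]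

noncomputable def f_pm_113 : ℕ → ℕ → ℕ → ℕ → Bool := onCell 536870912 536870912 536870912 536870912 402653184 67108864
    (rowN 3 0 true true false .nn 1 1 3 (qsf 536870912 536870912 536870912 536870912 3) ndN0q1 ndN0q1 pcN3 cut_pm_113 Ext.none)

def k0_pm_113 : ∃ t, chk3 f_pm_113 t 2 1 1 = true :=
  ⟨(b (b (l 1) (a (l 1) (a (l 1) (b (l 1) (a (l 1) (l 17221216)))))) (b (a (b (l 1) (a (l 1) (a (l 1) (l 56942754663)))) (a (a (b (l 1) (l 17186816)) (b (l 17181360) (l 17185352))) (b (c (l 17300584) (l 45131840407)) (b (l 17192216) (l 17170904))))) (a (b (b (a (l 1) (a (l 17164848) (l 17103416))) (a (a (l 1) (l 17273200)) (a (l 17230832) (l 17201392)))) (b (a (a (l 17217240) (l 17286352)) (l 17352184)) (a (a (a (l 17229968) (l 17264040)) (l 17272360)) (l 17335592)))) (b (a (b (a (b (l 17173464) (l 17173320)) (l 17184936)) (a (l 17178264) (l 17158696))) (a (b (l 17154264) (l 17140560)) (b (l 17143360) (l 17123304)))) (b (a (a (l 17178400) (l 17152536)) (a (l 17128960) (l 17105888)))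 (a (l 17218800) (l 17097120))))))), by decide +kernel⟩

def k1_pm_113 : ∃ t, chk3 f_pm_113 t 3 2 1 = true :=
  ⟨(a (b (a (l 1) (b (l 1) (b (l 1) (l 56942754663)))) (b (a (b (l 1) (l 17181360)) (b (l 17186816) (l 17185352))) (a (c (l 17300584) (l 45131840407)) (a (l 17192216) (l 17170904))))) (b (a (a (b (l 1) (b (l 17164848) (l 17103416))) (b (b (l 1) (l 17273200)) (b (l 17230832) (l 17201392)))) (a (b (b (l 17217240) (l 17286352)) (l 17352184)) (b (b (b (l 17229968) (l 17264040)) (l 17272360)) (l 17335592)))) (a (b (a (b (a (l 17173464) (l 17173320)) (l 17184936)) (b (l 17178264) (l 17158696))) (b (a (l 17154264) (l 17140560)) (a (l 17143360) (l 17123304)))) (a (b (b (l 17178400) (l 17152536)) (a (l 17121520) (l 17133848))) (b (l 17218800) (l 17097120)))))), by decide +kernel⟩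

def k2_pm_113 : ∃ t, chk3 f_pm_113 t 3 3 1 = true :=
  ⟨(b (a (b (a (l 17371464) (c (l 17192032) (l 17306872))) (a (c (l 17192032) (l 17306872)) (l 17326904))) (a (b (a (l 17122824) (b (l 17105192) (l 17084888))) (a (l 17081744) (b (l 17061168) (l 17033232)))) (b (b (a (l 17082472) (l 17055336)) (a (l 17057832) (l 17026776))) (a (b (l 17114856) (c (l 17110832) (l 17163280))) (b (l 16996608) (a (l 16974008) (l 16954096))))))) (a (b (a (b (l 17122824) (a (l 17105192) (l 17084888))) (b (l 17081744) (a (l 17061168) (l 17033232)))) (a (a (b (l 17082472) (l 17055336)) (b (l 17057832) (l 17026776))) (b (a (l 17114856) (c (l 17110832) (l 17163280))) (a (l 16996608) (b (l 16974008) (l 16954096)))))) (a (b (b (l 17081456) (a (l 17000552) (l 16963008))) (a (b (l 16966592) (l 16929696)) (b (l 16928512) (b (l 16902464) (l 16881432))))) (b (b (a (l 16966592) (l 16929696)) (a (l 16928512) (a (l 16902464) (l 16881432)))) (b (a (l 16887456) (a (b (l 16872672) (l 16852120)) (b (l 16852896)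 (l 16833536)))) (a (b (a (l 16872672) (l 16852120)) (a (l 16852896) (l 16833536))) (b (a (l 16831528) (a (l 16818944) (b (l 16814080) (l 16804720)))) (a (b (l 16818944) (a (l 16814080) (l 16804720))) (b (a (l 16804112) (a (l 16797768) (l 16803488))) (a (b (l 16797768) (l 16803488)) (b (a (l 16790592) (l 6)) (l 6)))))))))))), by decide +kernel⟩

theorem s3_pm_113 : ∃ t, chk3 f_pm_113 t 3 1 1 = true := ex3_b k1_pm_113 k2_pm_113

theorem s4_pm_113 : ∃ t, chk3 f_pm_113 t 1 1 1 = true := ex3_a k0_pm_113 s3_pm_113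

theorem c_pm_113 : CertN 536870912 536870912 536870912 536870912 402653184 67108864 3 true true false .nn 1 1 3
    ndN0q1 ndN0q1 pcN3 cut_pm_113 Ext.none :=
  certN0 (fam := true) (s1 := true) (s2 := false) (a := 1) (b := 1) (c := 3) (cn := .nn) (n1 := ndN0q1) (n2 := ndN0q1) (pc := pcN3) (cut := cut_pm_113) (xt := Ext.none) (P1 := 536870912) (W1 := 536870912) (P2 := 536870912) (W2 := 536870912) (P3 := 402653184) (W3 := 67108864) (N0 := 3)
    rfl s4_pm_113

noncomputable def cut_pm_123 : Cut := Cut.of [[⟨0, 1, 0, 67108864⟩, ⟨1, 1, 0, 67108864⟩, ⟨2, 2, 0, 16777216⟩]]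

noncomputable def f_pm_123 : ℕ → ℕ → ℕ → ℕ → Bool := onCell 1610612736 536870912 0 536870912 402653184 67108864
    (rowN 3 2 true true false .npn 1 2 3 (qsf 536870912 536870912 0 536870912 3) ndN0q1 ndN0q2 pcN3 cut_pm_123 Ext.none)

def k0_pm_123 : ∃ t, chk3 f_pm_123 t 2 1 1 = true :=
  ⟨(b (a (b (l 1) (a (l 1) (b (l 1) (a (l 1) (b (l 1) (l 17085384)))))) (b (a (b (a (a (l 1) (l 16843864)) (a (l 16835128) (l 16825320))) (a (l 16894064) (a (l 16901248) (l 16889840)))) (b (a (a (l 16814952) (b (l 16794384) (l 16817280))) (a (b (b (l 16821120) (l 16791536)) (l 16806160)) (b (b (a (l 70565058503) (l 84523652247)) (l 16821160)) (l 16796184)))) (a (a (l 16876952) (l 16863264)) (b (l 16847872) (l 16857616))))) (a (b (a (l 16932672) (l 16890008)) (a (b (l 17062968) (l 17103008)) (l 17062120))) (b (a (l 16943656) (l 16909312)) (a (l 17024488) (l 16983688)))))) (a (b (a (l 1) (b (a (l 1) (l 17070896)) (a (a (l 17141032) (l 17167992)) (b (l 17139488) (l 17178696))))) (a (b (a (l 1)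 (b (l 17163512) (l 17167968))) (a (b (l 39225767399) (c (l 17249808) (l 17172208))) (b (l 17234152) (l 17255888)))) (b (a (b (l 17198680) (l 17219400)) (b (l 17195848) (l 17211360))) (a (b (l 17236600) (l 17250296)) (l 17219680))))) (b (a (b (a (l 17130312) (l 17111800)) (a (l 17159096) (l 17135952))) (a (b (l 17080096) (l 17091304)) (b (a (l 17041120) (l 17017344)) (l 17046200)))) (a (b (a (l 17186160) (l 17137464)) (a (l 17171384) (l 17132280))) (a (b (l 17094496) (l 17096592)) (b (l 17055008) (l 17063976))))))), by decide +kernel⟩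

def k1_pm_123 : ∃ t, chk3 f_pm_123 t 6 2 1 = true :=
  ⟨(a (b (a (b (b (a (b (l 4) (a (l 72175670535) (l 86134262679))) (l 4)) (a (b (l 56069539847) (l 16792272)) (b (a (l 73786269927) (l 88818614007)) (a (l 16789112) (l 16812936))))) (b (a (l 16807808) (l 16796584)) (a (l 16835184) (l 16820656)))) (b (b (l 4) (a (b (l 4) (a (l 75933737399) (l 92039834759))) (l 4))) (b (a (b (a (l 16788936) (l 66806955607)) (l 16791680)) (b (a (b (l 84523643863) (l 74860009927)) (l 97945408391)) (a (l 16788624) (l 71638774215)))) (a (l 16806856) (l 16815488))))) (b (a (b (l 16795032) (l 16890776)) (b (l 16846576) (l 16854440))) (a (l 16889624) (b (l 16884744) (l 16915408))))) (b (b (l 4) (a (b (a (b (l 4) (a (b (l 4) (l 82376183351)) (l 4))) (l 4)) (a (b (a (l 16809536) (b (l 86671137815) (l 16791552))) (l 16810192)) (b (a (b (l 4) (l 89355478295)) (l 4)) (a (l 65733192471) (b (l 91502958695) (l 79691826231)))))) (b (l 4) (l 4)))) (a (a (b (b (l 16803368) (l 16807624)) (l 16870048)) (b (b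 (a (l 16793936) (l 16809952)) (l 16812648)) (l 16850920))) (b (b (a (b (a (b (l 82376168103) (l 16788544)) (a (l 87207980551) (l 97408531159))) (a (l 16788144) (b (l 75396863815) (l 16786632)))) (b (l 4) (a (b (a (l 87744866151) (l 4)) (a (l 16789328) (l 82913041703))) (l 4)))) (a (a (l 16801616) (l 16794888)) (b (a (l 16786496) (b (a (l 16799672) (l 86671119239)) (l 16805104))) (a (l 16793240) (l 16787736))))) (b (a (l 16778752) (a (l 16808624) (l 16801000))) (a (l 16844720) (l 16826688))))))), by decide +kernel⟩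

def k2_pm_123 : ∃ t, chk3 f_pm_123 t 6 3 1 = true :=
  ⟨(b (a (b (a (b (l 16978112) (l 16990944)) (b (l 16936496) (l 16951472))) (a (l 17005120) (l 16968016))) (b (a (b (l 16896952) (l 16913288)) (a (l 16876696) (l 16900048))) (b (a (a (l 16936368) (l 16939688)) (a (l 16985024) (l 16883176))) (a (l 16938112) (a (l 16912888) (l 16895984)))))) (a (a (b (l 17019240) (l 17032328)) (b (l 17110896) (a (l 17050768) (l 17056000)))) (b (b (a (l 16947400) (l 16914288)) (a (l 16956320) (l 16923480))) (a (a (l 17061064) (l 17044928)) (b (l 17016056) (l 16940152)))))), by decide +kernel⟩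

def k3_pm_123 : ∃ t, chk3 f_pm_123 t 14 2 1 = true :=
  ⟨(b (l 4) (a (b (b (l 4) (a (b (a (b (l 4) (a (l 83449904695) (l 4))) (l 4)) (a (b (a (l 16786648) (l 80228688807)) (l 16785608)) (b (a (l 84523631095) (l 4)) (a (l 16798360) (l 83986761799))))) (l 4))) (a (b (a (l 16814872) (a (l 16789176) (b (l 16805992) (l 16790112)))) (l 16809768)) (b (b (a (b (a (l 81302417703) (l 4)) (a (l 16785208) (l 79154939111))) (b (l 4) (a (l 86671111575) (l 4)))) (a (l 16807008) (b (a (l 71101879767) (l 83986752887)) (a (l 16784520) (l 16798320))))) (b (a (l 16793592) (l 16787176)) (l 16798816))))) (b (l 4) (a (b (a (b (l 4) (b (l 4) (a (b (l 77544303175) (l 80228678647)) (l 4)))) (l 4)) (a (b (a (l 65733175351) (b (b (l 81302402279) (l 78618068839)) (l 16783752))) (l 16788248)) (b (b (l 4) (a (b (l 79691797927) (l 16795840)) (a (l 79691787223) (l 4)))) (a (l 16784184) (b (a (l 16794936) (l 72175608439)) (l 16783384)))))) (b (l 4) (a (b (l 4) (a (a (b (l 80765529463) (l 16783536)) (b (l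 4) (l 71101867639))) (a (b (l 4) (l 78081171415)) (l 4)))) (l 4))))))), by decide +kernel⟩

def k4_pm_123 : ∃ t, chk3 f_pm_123 t 14 3 1 = true :=
  ⟨(b (a (b (a (b (l 16830072) (l 16848264)) (b (l 16833568) (l 16830368))) (a (b (l 16864728) (l 16942016)) (b (l 16846576) (a (l 16887440) (l 16899696))))) (b (a (b (b (a (l 16796208) (l 16810040)) (l 16821624)) (l 16849624)) (b (a (b (a (l 16784512) (b (a (l 16782952) (l 70028126215)) (l 16783392))) (l 16810512)) (b (a (b (a (b (l 4) (l 16783864)) (l 4)) (a (l 16782552) (l 69491254967))) (a (b (l 4) (a (l 71101861479) (l 76470557847))) (l 4))) (a (l 16784712) (a (l 16782816) (b (l 68954382935) (l 16782776)))))) (a (l 16800712) (b (l 16789600) (l 16796584))))) (a (b (l 16828616) (l 16844176)) (b (a (l 16815400) (l 16806768)) (l 16825552))))) (b (a (b (a (l 16889464) (l 16872792)) (l 16952896)) (b (a (l 16918416) (a (l 16884608) (l 16833984))) (l 16855600))) (b (a (l 16898032) (a (l 16871456) (l 16853448))) (a (l 16904968) (l 16888976))))),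 by decide +kernel⟩

def k5_pm_123 : ∃ t, chk3 f_pm_123 t 15 2 1 = true :=
  ⟨(l 4), by decide +kernel⟩

def k6_pm_123 : ∃ t, chk3 f_pm_123 t 30 12 1 = true :=
  ⟨(a (b (a (b (l 4) (a (b (b (l 4) (a (l 16788512) (l 70028104247))) (a (l 16782016) (l 76470586119))) (b (l 4) (a (b (l 69491232375) (l 76470573351)) (a (l 80228653671) (l 4)))))) (l 4)) (a (b (a (l 16805592) (b (a (l 16781776) (b (l 78081184695) (l 16781664))) (l 16783088))) (l 16799712)) (b (a (a (b (b (l 4) (l 78081182935)) (l 16781520)) (b (l 4) (b (l 77544309911) (l 16781392)))) (b (l 4) (a (b (l 4) (l 77007436823)) (l 4)))) (b (a (l 16782840) (a (l 16781232) (b (a (l 16782064) (l 74323075735)) (l 16781144)))) (a (l 16785616) (l 16782496)))))) (b (l 4) (a (b (l 4) (a (b (a (b (l 4) (a (l 16785712) (l 73249331351))) (l 4)) (a (l 70028122039) (b (a (l 70028114935) (l 66270005911)) (l 70564990743)))) (a (a (b (l 4) (b (l 4) (l 74859948727))) (l 4)) (l 4)))) (l 4)))), by decide +kernel⟩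

def k7_pm_123 : ∃ t, chk3 f_pm_123 t 30 13 1 = true :=
  ⟨(a (b (a (l 16819856) (a (l 16814200) (a (l 16811456) (l 16801792)))) (a (l 16812032) (l 16803224))) (b (a (a (b (b (l 16782064) (l 16784656)) (l 16788856)) (b (b (a (c (l 71638735543) (l 72175600439)) (a (b (l 72175588935) (l 16780728)) (b (l 4) (l 69491242375)))) (a (l 16782256) (l 16780912))) (l 16795816))) (b (a (b (a (a (b (l 4) (l 65733133031)) (l 4)) (l 4)) (b (a (a (l 16786024) (c (l 75396819671) (l 16779744))) (l 4)) (a (l 16780368) (a (l 70028113463) (c (l 72175588727) (l 68954358599)))))) (l 4)) (a (b (a (l 16781624) (c (l 16786336) (l 16790192))) (l 16793728)) (b (a (b (c (a (l 70028111783) (l 60901294903)) (a (l 72712454615) (l 16775864))) (c (l 72175601735) (l 72175595991))) (b (l 4) (a (b (l 4) (l 73249334359)) (l 4)))) (a (l 16780896) (b (a (l 16779976) (c (l 70028111623) (l 68417492839))) (l 16780104))))))) (a (b (l 16792472) (l 16797616)) (b (a (l 16787056) (b (a (l 16783192) (l 16781552)) (l 16784768)))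 (l 16809800))))), by decide +kernel⟩

def k8_pm_123 : ∃ t, chk3 f_pm_123 t 30 7 1 = true :=
  ⟨(b (b (a (a (l 16822528) (l 16816024)) (a (l 16806496) (a (l 16799704) (l 16816248)))) (b (a (l 16827304) (a (l 16814184) (l 16805280))) (a (l 16830928) (a (l 16817688) (l 16808624))))) (b (a (l 16835232) (l 16838200)) (a (l 16839712) (a (l 16825632) (l 16816384))))), by decide +kernel⟩

def k9_pm_123 : ∃ t, chk3 f_pm_123 t 31 6 1 = true :=
  ⟨(a (b (l 4) (b (a (b (l 4) (a (b (l 4) (a (b (a (a (l 58216938759) (l 4)) (l 4)) (c (a (l 70564985175) (l 67880619975)) (a (l 16779360) (l 64122518807)))) (l 4))) (l 4))) (l 4)) (a (b (a (b (a (c (l 71638731095) (l 70564984711)) (b (a (b (l 64122521719) (l 77007433527)) (l 4)) (a (l 16779696) (c (l 70564984055) (l 68417494871))))) (a (l 16782192) (l 16785816))) (b (a (b (l 4) (a (a (a (l 59827556967) (l 58753810711)) (l 4)) (l 4))) (l 4)) (a (b (a (c (l 16780104) (l 16778920)) (c (b (l 58753812391) (l 73249335111)) (b (l 16778376) (l 16779128))))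 (c (l 16780216) (l 16779176))) (b (l 4) (b (a (c (l 67343750951) (l 63048780391)) (l 4)) (a (l 68417497575) (a (l 59290683959) (l 4)))))))) (a (b (l 16783624) (l 16785896)) (b (a (l 16791552) (a (l 16779896) (b (c (l 70564980471) (l 66806881111)) (l 16779632)))) (a (l 16783232) (l 16791984))))) (a (b (l 4) (b (a (b (a (a (b (l 4) (l 70028107431)) (l 4)) (l 4)) (b (a (c (l 16782440) (l 16778760)) (a (l 53385102135) (l 4))) (a (l 16779248) (a (l 16784600) (l 58216942279))))) (l 4)) (a (b (c (l 71101855447) (l 68417496359)) (l 16780320)) (b (b (a (a (a (l 16779296) (l 16778952)) (l 4)) (l 4)) (a (a (l 16779080) (l 67343749175)) (l 4))) (b (a (l 16779080) (a (l 64122524983) (a (l 16778792) (l 4)))) (a (l 16779392) (c (l 16779408) (l 16778504)))))))) (b (l 4) (a (b (l 4) (b (l 4) (b (l 4) (a (a (a (l 51774492583) (l 4)) (l 4)) (l 4))))) (l 4))))))) (l 4)), by decide +kernel⟩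

def k10_pm_123 : ∃ t, chk3 f_pm_123 t 62 7 1 = true :=
  ⟨(b (b (a (b (a (l 16789136) (l 16794704)) (c (l 16812240) (l 16804400))) (a (b (b (a (l 16792320) (c (l 16785736) (l 16785024))) (b (l 16792944) (l 16783448))) (c (l 16796472) (l 16796168))) (b (a (a (b (b (b (a (l 16781576) (a (l 56606332407) (l 16777256))) (l 69491238231)) (l 16779360)) (l 16780728)) (a (b (b (b (l 4) (a (l 60901301031) (l 50700748487))) (l 16784112)) (l 16780080)) (b (b (l 4) (b (c (l 59827558567) (l 16778456)) (l 16778784))) (l 16784896)))) (b (a (b (l 4) (b (l 4) (a (c (l 68417493751) (l 16778480)) (a (l 122104591271) (l 4))))) (l 4)) (b (a (a (l 16778880) (c (l 68954365975) (l 63585654055))) (c (a (b (l 42647682711) (l 16781752)) (b (l 4) (l 44795166263))) (b (a (c (l 16777976) (l 16777672)) (l 4)) (a (l 16778352) (c (l 16776696) (l 16777720)))))) (a (l 16779472) (a (l 16778888) (c (l 68417494423) (l 65196267399))))))) (a (b (l 16782176) (l 16783992)) (b (a (l 16786064) (a (l 16780152) (l 16784952)))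 (l 16782168)))))) (b (a (l 16806312) (a (l 16789280) (c (l 16796208) (l 16796016)))) (a (a (l 16802112) (l 16818760)) (a (l 16793296) (l 16799104))))) (b (a (l 16824864) (b (a (l 16816944) (a (l 16813760) (l 16811688))) (l 16796064))) (a (l 16844064) (b (l 16797704) (l 16799120))))), by decide +kernel⟩

def k11_pm_123 : ∃ t, chk3 f_pm_123 t 126 28 1 = true :=
  ⟨(a (b (a (b (l 4) (a (b (l 4) (b (a (a (l 114051527271) (l 4)) (l 4)) (a (c (l 16778944) (l 16778224)) (a (b (l 4) (l 16778664)) (l 4))))) (l 4))) (l 4)) (a (b (b (b (b (a (c (l 75396816951) (l 16779520)) (l 4)) (a (l 16778640) (a (a (l 16778640) (l 4)) (l 4)))) (a (l 16778880) (c (a (l 16778816) (a (l 49090137703) (l 4))) (a (l 16778152) (a (l 16778096) (l 4)))))) (a (l 16779496) (a (l 16778864) (c (l 68954366039) (l 64659396087))))) (a (l 16786040) (c (l 16780144) (l 16779664)))) (b (a (b (l 4) (b (b (a (a (l 16778176) (l 4)) (l 4)) (a (c (l 54458846743) (l 48553264135)) (l 4))) (c (a (l 16778704) (a (l 48016395655)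 (l 60364425863))) (a (l 16778096) (a (l 39963329319) (l 16778896)))))) (l 4)) (b (b (a (a (l 16778632) (c (l 16781272) (l 16778064))) (a (a (c (l 45868911639) (l 37278974247)) (l 4)) (l 4))) (a (l 16778800) (a (c (l 63048782775) (l 16779344)) (a (b (l 4) (a (l 16778424) (l 16778312))) (l 4))))) (a (l 16779400) (a (l 16778744) (b (c (l 64122525223) (l 59290685351)) (l 16778520)))))))) (b (l 4) (a (b (l 4) (a (b (l 4) (c (a (b (a (c (l 38889588695) (l 35668362391)) (l 4)) (c (l 61975040999) (l 60901298759))) (b (l 4) (a (c (l 32984007639) (l 29762781287)) (l 4)))) (a (a (b (b (l 4) (l 16778032)) (l 16778032)) (b (l 4) (l 16778632))) (a (b (l 4) (b (l 4) (l 16777944))) (l 4))))) (l 4))) (l 4)))), by decide +kernel⟩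

def k12_pm_123 : ∃ t, chk3 f_pm_123 t 126 29 1 = true :=
  ⟨(a (b (a (c (l 16788240) (l 16787936)) (b (b (a (l 16780224) (l 16784552)) (l 16780576)) (l 16786992))) (a (l 16785792) (l 6))) (b (a (b (a (b (a (l 16781264) (a (c (l 16778592) (l 16778120)) (b (c (l 53921976007) (c (l 16778088) (l 16777864))) (l 16778312)))) (l 16783112)) (b (a (a (c (b (a (l 29225911127) (l 4)) (l 16778424)) (b (b (l 4) (l 16777832)) (l 16777936))) (b (l 4) (a (c (l 16778448) (l 16777944)) (b (l 4) (l 16779560))))) (a (a (b (l 4) (b (l 4) (a (l 16778120) (l 16777992)))) (l 4)) (l 4))) (a (c (l 16778736) (l 16778304)) (b (b (c (a (l 16778416) (l 16778040)) (a (l 16777920) (l 16779256))) (c (l 62511911335) (l 59290684615))) (l 6))))) (a (l 16780336) (l 6))) (b (a (b (l 4) (b (b (l 4) (l 6)) (l 6))) (l 4)) (l 6))) (l 6))), by decide +kernel⟩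

def k13_pm_123 : ∃ t, chk3 f_pm_123 t 126 15 1 = true :=
  ⟨(a (a (a (b (b (l 16810144) (l 16791216)) (l 16814624)) (l 6)) (l 6)) (l 6)), by decide +kernel⟩

def k14_pm_123 : ∃ t, chk3 f_pm_123 t 127 7 1 = true :=
  ⟨(b (b (l 4) (b (b (l 4) (l 6)) (l 6))) (l 6)), by decide +kernel⟩

theorem s15_pm_123 : ∃ t, chk3 f_pm_123 t 126 14 1 = true := ex3_b k11_pm_123 k12_pm_123

theorem s16_pm_123 : ∃ t, chk3 f_pm_123 t 126 7 1 = true := ex3_b s15_pm_123 k13_pm_123

theorem s17_pm_123 : ∃ t, chk3 f_pm_123 t 63 7 1 = true := ex3_a s16_pm_123 k14_pm_123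

theorem s18_pm_123 : ∃ t, chk3 f_pm_123 t 31 7 1 = true := ex3_a k10_pm_123 s17_pm_123

theorem s19_pm_123 : ∃ t, chk3 f_pm_123 t 31 3 1 = true := ex3_b k9_pm_123 s18_pm_123

theorem s20_pm_123 : ∃ t, chk3 f_pm_123 t 30 6 1 = true := ex3_b k6_pm_123 k7_pm_123

theorem s21_pm_123 : ∃ t, chk3 f_pm_123 t 30 3 1 = true := ex3_b s20_pm_123 k8_pm_123

theorem s22_pm_123 : ∃ t, chk3 f_pm_123 t 15 3 1 = true := ex3_a s21_pm_123 s19_pm_123

theorem s23_pm_123 : ∃ t, chk3 f_pm_123 t 15 1 1 = true := ex3_b k5_pm_123 s22_pm_123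

theorem s24_pm_123 : ∃ t, chk3 f_pm_123 t 14 1 1 = true := ex3_b k3_pm_123 k4_pm_123

theorem s25_pm_123 : ∃ t, chk3 f_pm_123 t 7 1 1 = true := ex3_a s24_pm_123 s23_pm_123

theorem s26_pm_123 : ∃ t, chk3 f_pm_123 t 6 1 1 = true := ex3_b k1_pm_123 k2_pm_123

theorem s27_pm_123 : ∃ t, chk3 f_pm_123 t 3 1 1 = true := ex3_a s26_pm_123 s25_pm_123

theorem s28_pm_123 : ∃ t, chk3 f_pm_123 t 1 1 1 = true := ex3_a k0_pm_123 s27_pm_123

theorem c_pm_123 : CertN 536870912 536870912 0 536870912 402653184 67108864 3 true true false .npn 1 2 3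
    ndN0q1 ndN0q2 pcN3 cut_pm_123 Ext.none :=
  certN2 (fam := true) (s1 := true) (s2 := false) (a := 1) (b := 2) (c := 3) (cn := .npn) (n1 := ndN0q1) (n2 := ndN0q2) (pc := pcN3) (cut := cut_pm_123) (xt := Ext.none) (P1 := 536870912) (W1 := 536870912) (P2 := 0) (W2 := 536870912) (P3 := 402653184) (W3 := 67108864) (N0 := 3)
    rfl (fun _ => rfl) s28_pm_123

noncomputable def cut_pm_202 : Cut := Cut.of [[⟨0, 1, 0, 67108864⟩, ⟨1, 0, 0, 67108864⟩, ⟨2, 1, 0, 67108864⟩], [⟨0, 1, 0, 33554432⟩, ⟨1, 0, 1, 33554432⟩, ⟨2, 1, 1, 33554432⟩]]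

noncomputable def f_pm_202 : ℕ → ℕ → ℕ → ℕ → Bool := onCell 0 536870912 1073741824 536870912 402653184 67108864
    (rowN 3 1 true true false .pp 2 0 2 (qsf 0 536870912 0 536870912 2) ndN0q2 ndN0q0 pcN2 cut_pm_202 Ext.none)

def k0_pm_202 : ∃ t, chk3 f_pm_202 t 2 1 1 = true :=
  ⟨(b (b (a (l 1) (b (l 1) (b (l 1) (a (l 1) (b (l 1) (a (l 1) (l 16542296))))))) (a (b (a (b (b (l 1) (a (l 16432856) (l 16440072))) (a (l 16444984) (b (l 16447304) (l 16455440)))) (a (b (l 16460128) (l 16473992)) (b (l 16475488) (l 16430984)))) (a (b (b (l 16482344) (l 16472128)) (l 16509032)) (b (a (l 16515352) (l 16466256)) (a (l 16537088) (l 16486432))))) (b (a (b (b (a (l 16462248) (l 16476616)) (l 16479904)) (l 16496328)) (b (b (a (l 16492640) (l 16510664)) (l 16553496)) (a (l 16463432) (l 16481264)))) (a (b (a (l 16461920) (l 16459136)) (a (l 16476696) (l 16468464))) (b (l 16518912) (a (l 16460712) (l 16452640))))))) (b (b (a (a (b (l 16511656) (l 16537568)) (b (a (l 16518776) (l 16512824))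 (a (l 16546424) (l 16545776)))) (a (b (a (l 16497640) (l 16483800)) (a (l 16525344) (l 16506264))) (b (b (l 16503800) (l 16508968)) (a (l 16487416) (l 16468456))))) (a (a (b (l 16566360) (l 16599136)) (b (a (l 16575544) (l 16579272)) (a (l 16609272) (l 16616856)))) (a (b (a (l 16561512) (l 16537496)) (a (l 16608264) (l 16577904))) (b (a (l 16513920) (l 16490168)) (a (l 16548880) (l 16519672)))))) (a (b (a (b (l 16636384) (l 16678368)) (b (l 16654792) (l 16701448))) (a (b (l 16724968) (l 16792448)) (b (l 16754800) (l 16823600)))) (b (a (b (a (l 16662008) (l 16629896)) (a (l 16719888) (l 16696904))) (b (a (l 16594832) (l 16559456)) (a (l 16656416) (l 16615408)))) (b (a (a (l 16784432) (l 16781080)) (a (l 16736280) (l 16707784))) (a (a (l 16857504) (b (l 16853344) (l 16893680))) (a (l 16850144) (l 16821904)))))))), by decide +kernel⟩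

def k1_pm_202 : ∃ t, chk3 f_pm_202 t 3 8 1 = true :=
  ⟨(a (l 1) (a (b (l 1) (a (b (l 1) (b (l 1) (a (l 1) (b (a (l 1) (l 6)) (a (c (l 16666848) (l 16660480)) (l 16666952)))))) (b (l 6) (b (l 6) (b (l 6) (b (l 6) (a (l 16671032) (l 16677424)))))))) (b (l 6) (b (l 6) (b (l 6) (b (l 6) (a (a (l 16705648) (l 16701464)) (a (l 16718096) (c (l 16725528) (l 16724456)))))))))), by decide +kernel⟩

def k2_pm_202 : ∃ t, chk3 f_pm_202 t 6 9 1 = true :=
  ⟨(a (b (l 1) (a (b (b (l 1) (l 16549608)) (b (l 16544464) (l 16539208))) (b (a (l 16569008) (b (l 16583432) (l 16578368))) (l 16606672)))) (b (a (b (l 1) (a (b (l 1) (l 16600752)) (b (a (l 1) (l 16621552)) (a (l 16610208) (l 16616640))))) (b (b (l 1) (a (a (l 1) (b (l 1) (a (l 1) (l 16641680)))) (b (a (l 16644256) (c (l 16650928) (l 16642776))) (a (c (l 16646312) (l 16637520)) (l 16644504))))) (a (b (a (b (l 16629272) (l 16626832)) (a (a (l 16632136) (l 16639024)) (c (l 16640664) (l 16631480)))) (a (l 16623144) (c (l 16634200) (l 16625040))))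 (a (b (c (l 16643024) (l 16634088)) (c (l 16638672) (l 16629544))) (b (l 16651416) (l 16636208)))))) (a (b (a (b (l 16595768) (l 16590720)) (b (l 16608480) (l 16603456))) (a (l 16583024) (l 16616776))) (b (a (b (a (l 16618200) (l 16624784)) (c (l 16620904) (l 16611936))) (a (b (a (l 16629144) (l 16630216)) (l 16646088)) (b (l 16631544) (l 16626920)))) (a (b (l 16632432) (l 16606344)) (b (a (l 16620448) (l 16622336)) (a (l 16615672) (l 16617768)))))))), by decide +kernel⟩

def k3_pm_202 : ∃ t, chk3 f_pm_202 t 7 9 1 = true :=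
  ⟨(a (b (a (b (a (b (a (b (l 1) (c (l 16655904) (l 16648368))) (b (c (l 16661208) (l 16654272)) (l 16655112))) (a (c (l 16652120) (l 16644464)) (l 16661544))) (b (a (c (l 16662656) (l 16656176)) (l 16683472)) (c (l 16668784) (l 16662432)))) (a (b (c (l 16658696) (l 16651152)) (c (l 16643144) (l 16635448))) (b (c (l 16652536) (l 16646080)) (c (l 16646904) (l 16640320))))) (b (a (a (b (l 16665528) (l 16659264)) (b (l 16668560) (l 16662000))) (b (c (l 16696144) (l 16670960)) (a (l 16664728) (l 16667440)))) (a (b (a (l 16653016) (l 16655448)) (l 16668976)) (b (l 16680080) (l 16652280))))) (a (b (a (b (c (l 16638160) (l 16630312)) (l 16650304)) (b (l 16659072) (l 16632632))) (a (b (l 16624416) (l 16619560)) (c (l 16649112) (l 16642008)))) (b (a (a (l 16658976) (l 16660744)) (c (l 16665552) (l 16661072))) (a (b (l 16630112) (l 16624472)) (b (l 16632880) (l 16626816)))))) (b (b (a (a (b (a (l 16677568) (l 16680536)) (a (l 16670128) (l 16672792))) (b (c (l 16706952) (l 16704824))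 (c (l 16677752) (l 16675672)))) (a (b (c (l 16712128) (l 16711064)) (l 16692304)) (a (l 16711144) (b (l 16722368) (l 16714424))))) (b (a (a (l 16684848) (l 16689472)) (a (l 16693896) (c (l 16703824) (l 16702024)))) (a (a (l 16656456) (l 16681448)) (a (l 16685240) (l 16705216))))) (a (b (a (b (l 16649240) (l 16642248)) (c (l 16681408) (l 16679296))) (a (b (l 16635496) (l 16629008)) (c (l 16656608) (l 16654192)))) (a (b (l 16672824) (l 16657328)) (a (b (l 16678080) (l 16659728)) (b (l 16696096) (l 16677776))))))), by decide +kernel⟩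

def k4_pm_202 : ∃ t, chk3 f_pm_202 t 6 5 1 = true :=
  ⟨(b (a (b (a (b (l 16531120) (l 16519864)) (b (l 16575016) (l 16542920))) (a (l 16564800) (b (l 16531272) (l 16519040)))) (b (b (a (a (l 16572448) (l 16585328)) (a (b (l 16601144) (l 16595872)) (b (a (l 16610776) (l 16613216)) (l 16638592)))) (a (a (l 16561480) (l 16574472)) (a (l 16587800) (c (b (l 16606816) (b (l 16603136) (b (l 16601224) (l 16620656)))) (b (l 16597312) (b (l 16593616) (b (l 16591704) (l 16611192)))))))) (a (b (l 16619608) (l 16586752)) (b (a (l 16576656) (a (l 16586880) (l 16591928))) (a (l 16565040) (l 16599368)))))) (a (b (a (l 16475272) (b (l 16527088) (l 16492432))) (a (l 16465984) (l 16533264))) (b (b (a (l 16553304) (a (l 16552880) (l 16566792))) (a (l 16540136) (a (l 16540096) (l 16554424)))) (a (b (l 16526216) (l 16511328)) (b (l 16596896) (l 16561576)))))), by decide +kernel⟩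

def k5_pm_202 : ∃ t, chk3 f_pm_202 t 7 5 1 = true :=
  ⟨(b (b (b (a (a (a (b (l 16614768) (l 16610032)) (b (l 16616904) (l 16611936))) (a (b (l 16619016) (l 16613800)) (b (l 16621016) (l 16615552)))) (a (a (b (l 16622848) (l 16617104)) (c (l 16643952) (l 16640952))) (a (l 16659344) (l 16665240)))) (a (b (a (a (l 16605400) (l 16607216)) (a (l 16608992) (l 16610624))) (b (a (a (l 16602032) (l 16603944)) (a (l 16605808) (l 16607536))) (a (b (l 16622656) (a (l 16599424) (l 16601904))) (b (l 16626856) (a (l 16604224) (l 16606408)))))) (b (a (a (l 16612072) (l 16613232)) (a (l 16635008) (l 16614360))) (a (b (a (l 16609056) (l 16610304)) (b (a (l 16608496) (l 16609984)) (a (l 16608384) (l 16610088)))) (b (c (l 16644344) (l 16652104)) (b (c (l 16647320) (l 16651848)) (a (l 16632408) (l 16633264)))))))) (a (a (b (a (l 16593672) (l 16595496)) (a (l 16582848) (l 16583392))) (b (a (l 16597256) (l 16598848)) (a (l 16583832) (l 16584072)))) (a (b (a (l 16600248) (l 16601296)) (a (l 16584008)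 (l 16583536))) (b (a (l 16622912) (a (l 16602032) (l 16622864))) (a (l 16603448) (l 16622608)))))) (a (a (b (b (a (l 16571832) (l 16571032)) (a (l 16560472) (l 16558288))) (a (b (l 16548464) (l 16535520)) (b (l 16544984) (l 16530880)))) (b (a (b (l 16570072) (l 16555792)) (b (l 16568792) (l 16552856))) (b (a (l 16540752) (l 16535976)) (l 16563504)))) (b (a (a (b (l 16567144) (l 16549376)) (c (l 16599064) (l 16595208))) (a (c (l 16604944) (l 16591792)) (b (l 16578960) (l 16558488)))) (a (b (c (l 16571104) (l 16567720)) (c (l 16549192) (l 16504760))) (a (l 16538848) (a (l 16541736) (l 16561272))))))), by decide +kernel⟩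

def k6_pm_202 : ∃ t, chk3 f_pm_202 t 6 6 1 = true :=
  ⟨(b (a (b (c (l 16500344) (l 16494760)) (b (l 16499592) (l 16504064))) (a (b (l 16549664) (b (l 16437216) (l 16415544))) (b (a (l 16530056) (l 16566056)) (b (l 16510072) (l 16489064))))) (a (b (a (l 16507544) (l 16502984)) (a (l 16489728) (l 16500896))) (b (a (c (l 16459352) (l 16452536)) (b (l 16465440) (l 16438496))) (a (b (l 16445928) (l 16431856)) (a (l 16456784) (l 16442096)))))), by decide +kernel⟩

def k7_pm_202 : ∃ t, chk3 f_pm_202 t 7 12 1 = true :=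
  ⟨(a (a (b (a (b (l 16521400) (l 16505800)) (l 16570784)) (a (c (l 16522936) (l 16496704)) (l 16514168))) (b (b (l 16566216) (l 16546376)) (a (l 16520688) (l 16504584)))) (a (b (b (l 16537792) (l 16505736)) (b (l 16513552) (c (l 16507440) (l 16499520)))) (c (b (a (l 16541448) (a (l 16536944) (l 16548192))) (a (b (l 16499992) (l 16504576)) (b (l 16567120) (a (l 16525112) (l 16560232))))) (b (a (l 16535152) (l 16565504)) (a (l 16533096) (b (l 16513152) (l 16559336))))))), by decide +kernel⟩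

def k8_pm_202 : ∃ t, chk3 f_pm_202 t 14 13 1 = true :=
  ⟨(b (a (b (a (l 16467136) (l 16461280)) (a (l 16462280) (l 16436584))) (b (l 16456280) (l 16480704))) (a (b (a (l 16415680) (l 16413256)) (a (l 16396536) (b (l 16397424) (l 16396680)))) (b (c (l 16466808) (l 16457784)) (c (l 16468688) (l 16458672))))), by decide +kernel⟩

def k9_pm_202 : ∃ t, chk3 f_pm_202 t 30 13 1 = true :=
  ⟨(b (b (a (l 16473072) (l 16499384)) (c (a (l 16464528) (l 16494672)) (l 16529520))) (a (b (l 16486104) (l 16523848)) (b (c (l 16505192) (l 16488240)) (c (b (l 16512304) (l 16514632)) (l 16515152))))), by decide +kernel⟩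

def k10_pm_202 : ∃ t, chk3 f_pm_202 t 31 26 1 = true :=
  ⟨(a (b (c (l 16534112) (l 16498488)) (c (a (l 16518160) (l 16555336)) (l 16550408))) (b (c (a (l 16535680) (c (a (l 16551880) (l 16580968)) (l 16567560))) (a (l 16518648) (b (l 16529952) (l 16535456)))) (a (c (b (l 16546680) (l 16576576)) (b (l 16527152) (l 16534296))) (c (b (c (a (l 16564408) (l 16594128)) (l 16579096)) (c (a (l 16574424) (b (l 16601832) (a (l 16584096) (c (b (l 16590360) (a (l 16592128) (l 16594416))) (l 16596184))))) (a (l 16563080) (b (l 16569280) (a (l 16572152) (l 16587040)))))) (b (l 16563088) (a (l 16546040) (a (l 16572984) (c (l 16577768) (l 16550056))))))))), by decide +kernel⟩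

def k11_pm_202 : ∃ t, chk3 f_pm_202 t 62 27 1 = true :=
  ⟨(b (c (b (l 16558168) (a (l 16534160) (l 16551104))) (b (l 16517176) (l 16542224))) (c (a (l 16558272) (l 16583856)) (a (l 16515992) (l 16529408)))), by decide +kernel⟩

def k12_pm_202 : ∃ t, chk3 f_pm_202 t 63 27 1 = true :=
  ⟨(b (a (c (b (c (l 16569216) (l 16557816)) (c (l 16572528) (l 16560680))) (b (l 16561672) (l 16542888))) (c (a (b (c (b (l 16581536) (l 16583160)) (l 16585792)) (c (l 16583688) (l 16571232))) (b (c (a (b (l 16587928) (l 16588584)) (a (b (l 16601344) (l 16601776)) (b (c (l 16595808) (l 16589528)) (c (b (l 16596160) (l 16596424)) (l 16589920))))) (b (a (l 16575616) (c (l 16582352) (l 16576088))) (c (l 16580944) (l 16574640)))) (a (c (c (l 16592440) (l 16586064)) (l 16576488)) (c (c (b (b (l 16601016) (l 14)) (l 14)) (b (c (l 16591096) (l 16587880)) (c (l 16596912) (l 16588408)))) (c (b (l 16583048) (l 16583512)) (b (l 16576600) (l 16576968))))))) (a (b (c (l 16557976) (l 16545864)) (l 16552504))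 (b (c (b (l 16575400) (l 16565168)) (b (l 16552464) (l 16552528))) (c (b (l 16565280) (l 16565472)) (l 16552448)))))) (a (c (b (c (l 16573152) (l 16560984)) (c (l 16573944) (l 16561464))) (b (l 16542704) (l 16542696))) (c (b (c (c (l 14) (a (l 16581448) (b (a (l 16586872) (c (l 14) (l 16594272))) (l 14)))) (a (l 16571848) (a (l 16587832) (c (b (l 16589304) (c (l 16591632) (l 16583024))) (b (l 16577432) (l 16577984)))))) (c (l 14) (a (l 16572816) (c (b (a (l 16581576) (c (l 14) (l 16588984))) (l 14)) (a (l 16575192) (b (l 16583872) (c (l 16586352) (l 16577648)))))))) (a (b (l 16573568) (c (l 16559640) (l 16546432))) (a (b (c (l 16564200) (l 16551024)) (c (l 16565048) (l 16551504))) (b (c (b (l 16567472) (l 16567888)) (l 16554272)) (c (c (b (l 16571808) (l 16572456)) (b (l 16564976) (l 16565528))) (c (l 16558352) (l 16551456))))))))), by decide +kernel⟩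

def k13_pm_202 : ∃ t, chk3 f_pm_202 t 6 14 1 = true :=
  ⟨(a (b (a (l 16523344) (l 16507408)) (a (l 16573520) (l 16530864))) (b (a (b (l 16442368) (l 16456968)) (b (l 16427912) (l 16439664))) (a (b (l 16476136) (l 16537544)) (b (l 16481824) (l 16488856))))), by decide +kernel⟩

def k14_pm_202 : ∃ t, chk3 f_pm_202 t 14 14 1 = true :=
  ⟨(a (b (a (b (l 16402048) (l 16412120)) (b (l 16419368) (a (l 16398216) (l 16405104)))) (a (b (l 16418832) (l 16526896)) (b (a (l 16395424) (c (l 16484448) (l 16374080))) (a (l 16492360) (c (l 16542232) (l 16392000)))))) (a (b (b (l 16429672) (c (l 16437472) (l 16403624))) (b (c (l 16501008) (l 16395880)) (c (l 16557192) (l 16408880)))) (b (b (l 16484272) (l 16476528)) (b (c (l 16526760) (l 16426600)) (c (l 16582152) (l 16437200)))))), by decide +kernel⟩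

def k15_pm_202 : ∃ t, chk3 f_pm_202 t 30 14 1 = true :=
  ⟨(b (a (b (c (l 16503152) (l 16465880)) (c (l 16495264) (l 16461936))) (b (c (l 16534544) (l 16493864)) (c (a (l 16520040) (l 16537656)) (l 16491400)))) (a (b (c (l 16597704) (l 16457904)) (c (l 16610216) (l 16469032))) (b (c (b (l 16573784) (l 16601832)) (l 16511008)) (c (b (l 16628504) (l 16653896)) (a (l 16495208) (l 16513728)))))), by decide +kernel⟩

def k16_pm_202 : ∃ t, chk3 f_pm_202 t 31 28 1 = true :=
  ⟨(a (b (c (a (l 16537000) (b (l 16552712) (l 16553320))) (a (l 16514672) (l 16528856))) (c (a (l 16545640) (b (l 14) (l 16590384))) (a (l 16514096) (l 16550568)))) (b (a (c (c (l 14) (b (l 16562288) (l 16563464))) (b (l 16543024) (l 16564672))) (c (b (c (l 14) (c (l 14) (a (l 16570776) (b (a (l 16576280) (c (l 14) (l 16578464))) (l 14))))) (l 14)) (a (b (c (l 16560624) (l 16547056)) (c (l 16561984) (l 16548048))) (a (b (c (l 16576768) (l 16552352)) (c (c (l 16571480) (l 16564336)) (l 16553592))) (b (b (c (c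 (l 16583688) (l 16566184)) (l 16555624)) (c (c (c (l 16575832) (l 16572272)) (l 16566928)) (l 16556224))) (b (c (c (c (l 14) (l 16573200)) (l 16567784)) (l 16567416)) (c (c (l 14) (c (l 16570568) (l 16566904))) (c (l 16561408) (l 16554056))))))))) (a (c (b (l 14) (c (a (l 16640424) (l 16650256)) (l 14))) (b (l 16565712) (c (l 16553112) (l 16539216)))) (c (b (l 14) (b (l 14) (b (l 14) (c (c (l 16692560) (l 14)) (l 14))))) (b (c (c (l 14) (a (l 16560168) (b (a (l 16565744) (c (l 14) (l 16567944))) (l 14)))) (a (l 16549424) (a (l 16576208) (c (b (l 16562368) (a (l 16562424) (l 16569688))) (b (l 16554920) (l 16555880)))))) (c (l 14) (a (l 16551216) (a (c (l 16561088) (l 16553520)) (c (b (b (l 16564304) (l 14)) (l 14)) (b (l 16556960) (a (l 16557120) (l 16569648)))))))))))), by decide +kernel⟩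

def k17_pm_202 : ∃ t, chk3 f_pm_202 t 31 29 1 = true :=
  ⟨(a (b (c (b (a (l 16600336) (l 16619072)) (a (l 16627880) (l 16646272))) (a (l 16514824) (b (l 16531032) (l 16532592)))) (c (b (a (l 16654096) (l 16672104)) (a (l 16678968) (l 16696608))) (a (l 16533112) (b (l 14) (l 16567104))))) (b (a (c (b (c (l 16651696) (l 14)) (c (l 16698568) (a (l 16627096) (l 16637184)))) (c (l 14) (b (l 16540864) (l 16543024)))) (b (c (c (b (c (l 16702456) (l 14)) (a (l 16693832) (c (l 16720208) (l 16687312)))) (l 14)) (c (l 14) (a (l 16553440) (b (a (l 16559136) (b (c (l 14) (l 16559104)) (l 14))) (l 14))))) (c (b (c (a (l 16706624) (l 16716456)) (l 14)) (c (l 16723920) (a (l 16654064) (c (l 16680584) (l 14))))) (l 14)))) (b (c (a (c (l 16723120) (l 16637456)) (c (a (l 16737112) (l 16746640)) (b (c (l 16688160) (l 14)) (a (l 16679648) (c (l 16705496) (l 16674040)))))) (l 14)) (b (c (a (l 16709008) (c (l 16759064) (a (l 16691928) (l 16701936)))) (l 14)) (c (a (l 16720712) (c (l 16770136)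 (l 16708808))) (b (l 14) (a (l 16597776) (c (c (l 16665552) (l 14)) (l 14))))))))), by decide +kernel⟩

def k18_pm_202 : ∃ t, chk3 f_pm_202 t 6 15 1 = true :=
  ⟨(b (a (a (l 16681360) (l 16633728)) (a (b (l 16599560) (l 16652120)) (b (l 16610848) (l 16621720)))) (a (a (l 16796216) (l 16729472)) (a (b (l 16712976) (l 16779744)) (b (a (l 16692904) (l 16679328)) (l 16758768))))), by decide +kernel⟩

def k19_pm_202 : ∃ t, chk3 f_pm_202 t 14 15 1 = true :=
  ⟨(b (a (a (b (l 16544016) (l 16597632)) (b (a (l 16530872) (c (l 16637176) (l 16515736))) (a (l 16585024) (c (l 16665376) (l 16614456))))) (b (a (c (l 16608072) (l 16467168)) (c (l 16632368) (l 16515688))) (a (c (l 16654200) (l 16520288)) (c (l 16677768) (l 16588928))))) (a (b (a (l 16665400) (b (a (l 16632800) (l 16624984)) (l 16672480))) (a (l 16743016) (l 16732376))) (b (b (a (l 16632872) (l 16657176)) (a (l 16675312) (l 16698856))) (a (b (l 16715104) (l 16752232)) (l 16755928))))), by decide +kernel⟩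

def k20_pm_202 : ∃ t, chk3 f_pm_202 t 30 15 1 = true :=
  ⟨(b (b (a (c (l 16659552) (l 16609416)) (c (b (l 16677992) (l 16700864)) (b (l 16546264) (l 16572536)))) (b (a (l 16629072) (c (l 16722528) (l 16597472))) (a (l 16630816) (c (l 16743064) (l 16621176))))) (b (a (b (c (l 16744312) (l 16623792)) (l 16724872)) (b (c (l 16772032) (l 16655168)) (l 16690152))) (a (b (l 16762528) (l 16797224)) (b (l 16768376) (l 16824888))))), by decide +kernel⟩

def k21_pm_202 : ∃ t, chk3 f_pm_202 t 31 15 1 = true :=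
  ⟨(b (a (b (c (b (a (l 16702568) (l 16719808)) (a (l 16724912) (l 16741768))) (b (a (l 16574128) (l 16593664)) (a (l 16599776) (l 16618880)))) (c (b (l 16754272) (l 16774144)) (b (a (l 16624144) (l 16642824)) (a (l 16647288) (l 16665560))))) (b (c (c (b (l 16777208) (l 16797768)) (a (b (l 16706936) (l 16729280)) (b (a (l 16721200) (l 16730912)) (l 16747952)))) (a (b (c (l 16624088) (l 14)) (c (l 16669008) (a (l 16603072) (l 16613440)))) (a (b (c (b (l 16654144) (l 16666264)) (l 14)) (c (l 16683848) (c (l 16638992) (l 14)))) (c (b (b (c (l 16679784) (l 14)) (c (l 16691568) (l 16661480))) (b (l 16688216) (l 16699576))) (b (l 14) (b (l 14) (c (l 16655472) (l 14)))))))) (c (b (a (l 16779632) (l 16797272)) (a (l 16798936) (l 16816160))) (b (b (a (l 16635440) (c (l 16705672) (a (l 16642016) (c (l 16667104) (l 14))))) (a (l 16646880) (c (l 16716504) (a (l 16653664) (c (l 16678440) (l 16649640)))))) (a (c (l 16713264) (l 16655584)) (c (l 16732224) (a (l 16670592) (b (l 16675280)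 (l 16686216))))))))) (b (a (b (c (l 16802000) (a (l 16680336) (l 16697912))) (c (l 16836712) (a (l 16721664) (l 16738840)))) (c (b (a (l 16825832) (l 16843664)) (l 16871104)) (b (a (b (l 16705728) (l 16726280)) (a (b (l 16719904) (l 16741136)) (b (b (l 16682616) (l 16693408)) (l 16752536)))) (a (l 16758440) (c (l 16805640) (l 16755200)))))) (a (c (l 16888296) (b (l 16771200) (l 16811808))) (c (l 16923080) (b (a (l 16801200) (l 16822792)) (l 16851704)))))), by decide +kernel⟩

theorem s22_pm_202 : ∃ t, chk3 f_pm_202 t 15 15 1 = true := ex3_a k20_pm_202 k21_pm_202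

theorem s23_pm_202 : ∃ t, chk3 f_pm_202 t 7 15 1 = true := ex3_a k19_pm_202 s22_pm_202

theorem s24_pm_202 : ∃ t, chk3 f_pm_202 t 3 15 1 = true := ex3_a k18_pm_202 s23_pm_202

theorem s25_pm_202 : ∃ t, chk3 f_pm_202 t 31 14 1 = true := ex3_b k16_pm_202 k17_pm_202

theorem s26_pm_202 : ∃ t, chk3 f_pm_202 t 15 14 1 = true := ex3_a k15_pm_202 s25_pm_202

theorem s27_pm_202 : ∃ t, chk3 f_pm_202 t 7 14 1 = true := ex3_a k14_pm_202 s26_pm_202

theorem s28_pm_202 : ∃ t, chk3 f_pm_202 t 3 14 1 = true := ex3_a k13_pm_202 s27_pm_202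

theorem s29_pm_202 : ∃ t, chk3 f_pm_202 t 3 7 1 = true := ex3_b s28_pm_202 s24_pm_202

theorem s30_pm_202 : ∃ t, chk3 f_pm_202 t 31 27 1 = true := ex3_a k11_pm_202 k12_pm_202

theorem s31_pm_202 : ∃ t, chk3 f_pm_202 t 31 13 1 = true := ex3_b k10_pm_202 s30_pm_202

theorem s32_pm_202 : ∃ t, chk3 f_pm_202 t 15 13 1 = true := ex3_a k9_pm_202 s31_pm_202

theorem s33_pm_202 : ∃ t, chk3 f_pm_202 t 7 13 1 = true := ex3_a k8_pm_202 s32_pm_202

theorem s34_pm_202 : ∃ t, chk3 f_pm_202 t 7 6 1 = true := ex3_b k7_pm_202 s33_pm_202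

theorem s35_pm_202 : ∃ t, chk3 f_pm_202 t 3 6 1 = true := ex3_a k6_pm_202 s34_pm_202

theorem s36_pm_202 : ∃ t, chk3 f_pm_202 t 3 3 1 = true := ex3_b s35_pm_202 s29_pm_202

theorem s37_pm_202 : ∃ t, chk3 f_pm_202 t 3 5 1 = true := ex3_a k4_pm_202 k5_pm_202

theorem s38_pm_202 : ∃ t, chk3 f_pm_202 t 3 9 1 = true := ex3_a k2_pm_202 k3_pm_202

theorem s39_pm_202 : ∃ t, chk3 f_pm_202 t 3 4 1 = true := ex3_b k1_pm_202 s38_pm_202

theorem s40_pm_202 : ∃ t, chk3 f_pm_202 t 3 2 1 = true := ex3_b s39_pm_202 s37_pm_202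

theorem s41_pm_202 : ∃ t, chk3 f_pm_202 t 3 1 1 = true := ex3_b s40_pm_202 s36_pm_202

theorem s42_pm_202 : ∃ t, chk3 f_pm_202 t 1 1 1 = true := ex3_a k0_pm_202 s41_pm_202

theorem c_pm_202 : CertN 0 536870912 0 536870912 402653184 67108864 3 true true false .pp 2 0 2
    ndN0q2 ndN0q0 pcN2 cut_pm_202 Ext.none :=
  certN1 (fam := true) (s1 := true) (s2 := false) (a := 2) (b := 0) (c := 2) (cn := .pp) (n1 := ndN0q2) (n2 := ndN0q0) (pc := pcN2) (cut := cut_pm_202) (xt := Ext.none) (P1 := 0) (W1 := 536870912) (P2 := 0) (W2 := 536870912) (P3 := 402653184) (W3 := 67108864) (N0 := 3)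
    rfl (fun _ => rfl) s42_pm_202

noncomputable def f_pm_203 : ℕ → ℕ → ℕ → ℕ → Bool := onCell 0 536870912 0 536870912 402653184 67108864
    (rowN 3 0 true true false .up 2 0 3 (qsf 0 536870912 0 536870912 3) ndN0q2 ndN0q0 pcN3 Cut.none Ext.none)

def k0_pm_203 : ∃ t, chk3 f_pm_203 t 1 1 1 = true :=
  ⟨(a (b (l 1) (b (b (l 1) (b (a (a (l 1) (l 1)) (l 1)) (a (a (l 16873224) (l 16921896)) (a (a (l 16961424) (l 59626511943)) (a (l 62310852967) (l 113313587607)))))) (a (b (a (b (l 16886784) (l 16882160)) (b (l 16946632) (l 16948784))) (a (b (l 16866032) (b (l 16852240) (l 16845080))) (b (l 16935008) (l 16897048)))) (b (a (b (a (l 16996696) (l 17032416)) (l 17026408)) (b (a (l 17049632) (l 17035520)) (l 16998856))) (a (b (l 17017184) (l 17002456)) (b (l 17027280) (l 17131144))))))) (b (l 1) (b (a (l 1) (l 1)) (a (b (b (a (a (l 84859582359) (l 88617676279)) (a (l 105797710407) (l 1))) (a (b (l 17076520) (l 17111296)) (a (c (l 17137392) (l 17077512)) (l 107945151095)))) (b (a (l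 17121320) (c (l 17161480) (l 17109616))) (a (l 17108520) (l 17139480)))) (b (a (a (b (l 1) (l 125125171879)) (l 1)) (l 1)) (a (b (a (b (l 17159336) (l 17168424)) (c (l 17189120) (l 122440773415))) (a (l 17184368) (l 17177168))) (b (c (l 144452839831) (l 134788932599)) (a (l 17189776) (l 70901227319))))))))), by decide +kernel⟩

theorem c_pm_203 : CertN 0 536870912 0 536870912 402653184 67108864 3 true true false .up 2 0 3
    ndN0q2 ndN0q0 pcN3 Cut.none Ext.none :=
  certN0 (fam := true) (s1 := true) (s2 := false) (a := 2) (b := 0) (c := 3) (cn := .up) (n1 := ndN0q2) (n2 := ndN0q0) (pc := pcN3) (cut := Cut.none) (xt := Ext.none) (P1 := 0) (W1 := 536870912) (P2 := 0) (W2 := 536870912) (P3 := 402653184) (W3 := 67108864) (N0 := 3)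
    rfl k0_pm_203

noncomputable def cut_pm_213 : Cut := Cut.of [[⟨0, 1, 0, 67108864⟩, ⟨1, 1, 0, 67108864⟩, ⟨2, 2, 0, 16777216⟩]]

noncomputable def f_pm_213 : ℕ → ℕ → ℕ → ℕ → Bool := onCell 0 536870912 1610612736 536870912 402653184 67108864
    (rowN 3 1 true true false .pnn 2 1 3 (qsf 0 536870912 536870912 536870912 3) ndN0q2 ndN0q1 pcN3 cut_pm_213 Ext.none)

def k0_pm_213 : ∃ t, chk3 f_pm_213 t 1 2 1 = true :=
  ⟨(a (b (a (l 1) (b (l 1) (a (l 1) (b (l 1) (a (l 1) (l 17085384)))))) (a (b (a (b (b (l 1) (l 16843864)) (b (l 16835128) (l 16825320))) (b (l 16894064) (b (l 16901248) (l 16889840)))) (a (b (b (l 16814952) (a (l 16794384) (l 16817280))) (b (a (a (l 16821120) (l 16791536)) (l 16806160)) (a (a (b (l 70565058503) (l 84523652247)) (l 16821160)) (l 16796184)))) (b (b (l 16876952) (l 16863264)) (a (l 16847872) (l 16857616))))) (b (a (b (l 16932672) (l 16890008)) (b (a (l 17062968) (l 17103008)) (l 17062120))) (a (b (l 16943656) (l 16909312)) (b (l 17024488) (l 16983688))))))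 (b (a (b (l 1) (a (b (l 1) (l 17070896)) (b (b (l 17141032) (l 17167992)) (a (l 17139488) (l 17178696))))) (b (a (b (l 1) (a (l 17163512) (l 17167968))) (b (a (l 39225767399) (c (l 17249808) (l 17172208))) (a (l 17234152) (l 17255888)))) (a (b (a (l 17198680) (l 17219400)) (a (l 17195848) (l 17211360))) (b (a (l 17236600) (l 17250296)) (l 17219680))))) (a (b (a (b (l 17130312) (l 17111800)) (b (l 17159096) (l 17135952))) (b (a (l 17080096) (l 17091304)) (a (a (l 17023280) (l 17034152)) (l 17046200)))) (b (a (a (l 17166088) (l 17327504)) (a (l 17216800) (l 17254928))) (a (b (l 17094496) (l 17055008)) (b (l 17096592) (l 17063976))))))), by decide +kernel⟩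

def k1_pm_213 : ∃ t, chk3 f_pm_213 t 2 6 1 = true :=
  ⟨(b (a (b (a (a (b (a (l 4) (b (l 72175670535) (l 86134262679))) (l 4)) (b (a (l 56069539847) (l 16792272)) (a (b (l 73786269927) (l 88818614007)) (b (l 16789112) (l 16812936))))) (a (b (l 16807808) (l 16796584)) (b (l 16835184) (l 16820656)))) (a (a (l 4) (b (a (l 4) (b (l 75933737399) (l 92039834759))) (l 4))) (a (b (a (b (l 16788936) (l 66806955607)) (l 16791680)) (a (b (a (l 84523643863) (l 74860009927)) (l 97945408391)) (b (l 16788624) (l 71638774215)))) (b (l 16806856) (l 16815488))))) (a (b (a (l 16795032) (l 16890776)) (a (l 16846576) (l 16854440))) (b (l 16889624) (a (l 16884744) (l 16915408))))) (a (a (l 4) (b (a (b (a (l 4) (b (a (l 4) (l 82376183351)) (l 4))) (l 4)) (b (a (b (l 16809536) (a (l 86671137815) (l 16791552))) (l 16810192)) (a (b (a (l 4) (l 89355478295)) (l 4)) (b (l 65733192471) (a (l 91502958695) (l 79691826231)))))) (a (l 4) (l 4)))) (b (b (a (a (l 16803368) (l 16807624)) (l 16870048)) (a (a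 (b (l 16793936) (l 16809952)) (l 16812648)) (l 16850920))) (a (a (b (a (b (a (l 82376168103) (l 16788544)) (b (l 87207980551) (l 97408531159))) (b (l 16788144) (a (l 75396863815) (l 16786632)))) (a (l 4) (b (a (b (l 87744866151) (l 4)) (b (l 16789328) (l 82913041703))) (l 4)))) (b (b (l 16801616) (l 16794888)) (a (b (l 16786496) (a (b (l 16799672) (l 86671119319)) (l 16805104))) (b (l 16793240) (l 16787736))))) (a (b (l 16778752) (b (l 16808624) (l 16801000))) (b (l 16844720) (l 16826688))))))), by decide +kernel⟩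

def k2_pm_213 : ∃ t, chk3 f_pm_213 t 3 6 1 = true :=
  ⟨(a (b (a (b (a (l 16978112) (l 16990944)) (a (l 16936496) (l 16951472))) (b (l 17005120) (l 16968016))) (a (b (a (l 16896952) (l 16913288)) (b (l 16876696) (l 16900048))) (a (b (b (l 16936368) (l 16939688)) (b (l 16985024) (l 16883176))) (b (l 16938112) (b (l 16912888) (l 16895984)))))) (b (a (b (l 17019240) (l 17110896)) (b (l 17032328) (a (l 16997080) (l 17005144)))) (a (a (b (l 16947400) (l 16914288)) (b (l 16956320) (l 16923480))) (b (b (l 17061064) (l 17044928)) (a (l 17016056) (l 16940152)))))), by decide +kernel⟩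

def k3_pm_213 : ∃ t, chk3 f_pm_213 t 2 14 1 = true :=
  ⟨(a (l 4) (b (a (a (l 4) (b (a (b (a (l 4) (b (l 83449904695) (l 4))) (l 4)) (b (a (b (l 16786648) (l 80228688807)) (l 16785608)) (a (b (l 84523631095) (l 4)) (b (l 16798360) (l 83986761799))))) (l 4))) (b (a (b (l 16814872) (a (a (l 66270053143) (l 16786280)) (l 16791688))) (l 16809768)) (a (a (b (a (b (l 81302417703) (l 4)) (b (l 16785208) (l 79154939111))) (a (l 4) (b (l 86671111575) (l 4)))) (b (l 16807008) (a (b (l 71101879767) (l 83986752887)) (b (l 16784520) (l 16798400))))) (a (b (l 16793592) (l 16787176)) (l 16798816))))) (a (l 4) (b (a (b (a (l 4) (a (l 4) (b (a (l 77544303175) (l 80228678647)) (l 4)))) (l 4)) (b (a (b (l 65733175351) (a (a (l 81302402279) (l 78618068839)) (l 16783752))) (l 16788248)) (a (a (l 4) (a (b (l 79691797927) (l 4)) (b (l 16795840) (l 79691787367)))) (b (l 16784184) (a (b (l 16794936) (l 72175608439)) (l 16783384)))))) (a (l 4) (b (a (l 4) (b (a (a (l 4) (l 80228658631)) (b (l 16783536)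 (l 71101867639))) (a (l 4) (b (l 78081171415) (l 4))))) (l 4))))))), by decide +kernel⟩

def k4_pm_213 : ∃ t, chk3 f_pm_213 t 3 14 1 = true :=
  ⟨(a (b (a (a (b (l 16830072) (l 16833568)) (b (l 16848264) (l 16830368))) (a (b (l 16864728) (l 16846576)) (b (l 16942016) (a (l 16858528) (l 16865264))))) (a (b (a (a (b (l 16796208) (l 16810040)) (l 16821624)) (l 16849624)) (a (b (a (b (l 16784512) (a (b (l 16782952) (l 70028126215)) (l 16783392))) (l 16810512)) (a (b (a (b (a (l 4) (l 16783864)) (l 4)) (b (l 16782552) (l 69491254967))) (a (l 4) (a (l 4) (b (l 16788848) (l 4))))) (a (b (l 16783392) (b (l 16782264) (l 68954382935))) (l 16795208)))) (b (l 16800712) (a (l 16789600) (l 16796584))))) (b (a (l 16828616) (l 16844176)) (a (b (l 16815400) (l 16806768)) (l 16825552))))) (a (b (a (b (l 16889464) (l 16872792)) (l 16952896)) (a (b (l 16918416) (b (l 16884608) (l 16833984))) (l 16855600))) (a (b (l 16898032) (b (l 16871456) (l 16853448))) (b (l 16904968) (l 16888976))))), by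 decide +kernel⟩

def k5_pm_213 : ∃ t, chk3 f_pm_213 t 2 15 1 = true :=
  ⟨(l 4), by decide +kernel⟩

def k6_pm_213 : ∃ t, chk3 f_pm_213 t 12 30 1 = true :=
  ⟨(b (a (b (a (l 4) (b (a (a (l 4) (b (l 16788512) (l 70028104247))) (b (l 16782016) (l 76470586119))) (a (l 4) (a (b (l 69491232375) (l 4)) (b (l 76470573351) (l 68417489255)))))) (l 4)) (b (a (b (l 16805592) (a (b (l 16781776) (a (l 78081184695) (l 16781664))) (l 16783088))) (l 16799712)) (a (b (b (a (a (l 4) (l 78081182935)) (l 16781520)) (a (l 4) (a (l 77544309911) (l 16781392)))) (a (l 4) (b (a (l 4) (l 77007436823)) (l 4)))) (a (b (l 16782840) (b (l 16781232) (a (b (l 16782064) (l 74323075735)) (l 16781144)))) (b (l 16785616) (l 16782496)))))) (a (l 4) (b (a (l 4) (b (a (b (a (l 4) (b (l 16787024) (l 73249331527))) (l 4)) (b (l 69491251127) (a (b (l 70028114935) (l 66270005911)) (l 70564990743)))) (a (l 4) (a (l 4) (a (l 4) (b (l 74859948151) (l 4))))))) (l 4)))), by decide +kernel⟩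

def k7_pm_213 : ∃ t, chk3 f_pm_213 t 13 30 1 = true :=
  ⟨(b (a (b (l 16819856) (a (a (l 16786888) (l 16789880)) (l 16794328))) (b (l 16812032) (l 16803224))) (a (b (b (a (a (l 16782064) (l 16784656)) (l 16788856)) (a (a (b (c (l 71101864311) (l 72175600439)) (a (b (l 72175588935) (l 4)) (c (l 72175603015) (l 72175594695)))) (b (l 16782256) (l 16780912))) (l 16795816))) (a (b (a (a (l 4) (b (b (l 65733133031) (l 4)) (l 4))) (a (b (b (l 16786024) (c (l 75396819671) (l 16779744))) (l 4)) (b (l 16780368) (b (l 70028113463) (c (l 72175588727) (l 68954358599)))))) (l 4)) (b (a (b (l 16781624) (c (l 16786336) (l 16790192))) (l 16793728)) (a (b (a (c (b (l 70028111783) (l 60901294903)) (b (l 72712454615) (l 16775864))) (c (l 72175601735) (l 72175595991))) (a (l 4) (b (a (l 4) (l 73249334359)) (l 4)))) (b (l 16780896) (a (b (l 16779976) (c (l 70028111623) (l 68417492839))) (l 16780104))))))) (b (a (l 16792472) (l 16797616)) (a (b (l 16787056) (a (b (l 16783192) (l 16781552)) (l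 16784768))) (l 16809800))))), by decide +kernel⟩

def k8_pm_213 : ∃ t, chk3 f_pm_213 t 7 30 1 = true :=
  ⟨(a (a (b (b (l 16822528) (l 16816024)) (b (l 16806496) (b (l 16799704) (l 16816248)))) (a (b (l 16827304) (b (l 16814184) (l 16805280))) (b (l 16830928) (b (l 16817688) (l 16808624))))) (a (b (l 16835232) (l 16838200)) (b (l 16839712) (a (l 16820088) (l 16821832))))), by decide +kernel⟩

def k9_pm_213 : ∃ t, chk3 f_pm_213 t 6 31 1 = true :=
  ⟨(b (a (l 4) (b (a (a (l 4) (b (a (l 4) (b (a (a (l 4) (b (l 60364424503) (l 4))) (c (b (l 70564985175) (l 67880619975)) (b (l 16779360) (l 64122518807)))) (l 4))) (l 4))) (a (b (a (b (c (l 71638731095) (l 70564984711)) (a (b (a (l 64122521719) (l 77007433527)) (l 4)) (b (l 16779696) (c (l 70564984055) (l 68417494871))))) (b (l 16782192) (l 16785816))) (a (b (a (l 4) (a (l 4) (b (a (l 57680070487) (l 68954365031)) (l 4)))) (l 4)) (b (a (b (c (l 16780104) (l 16778920)) (c (a (l 58753812391) (l 73249335111)) (a (l 16778376) (l 16779128))))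 (c (l 16780216) (l 16779176))) (a (l 4) (a (b (c (l 67343750951) (l 63048780391)) (l 4)) (b (l 68417497575) (a (l 4) (l 56606327207)))))))) (b (a (l 16783624) (l 16785896)) (a (b (l 16791552) (a (b (l 16779512) (c (l 70564980471) (l 66806881111))) (l 16779984))) (b (l 16783232) (l 16791984)))))) (a (l 4) (b (a (l 4) (a (b (a (a (l 4) (b (b (l 70028107431) (l 4)) (l 4))) (a (b (c (l 16782440) (l 16778760)) (b (l 53385102135) (l 4))) (b (l 16779248) (b (l 16784600) (l 58216942279))))) (l 4)) (b (a (c (l 71101855447) (l 68417496359)) (l 16780320)) (a (a (b (b (a (l 16778920) (l 16779320)) (l 4)) (l 4)) (b (b (l 16779080) (l 67343749175)) (l 4))) (a (b (l 16779080) (b (l 64122524983) (a (l 4) (l 16778824)))) (b (l 16779392) (c (l 16779408) (l 16778504)))))))) (a (l 4) (b (a (l 4) (a (l 4) (a (l 4) (a (l 4) (b (b (l 59290685815) (l 4)) (l 4)))))) (l 4))))))) (l 4)), by decide +kernel⟩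

def k10_pm_213 : ∃ t, chk3 f_pm_213 t 7 62 1 = true :=
  ⟨(a (a (b (a (b (l 16789136) (l 16794704)) (c (l 16812240) (l 16804400))) (b (a (a (b (l 16792320) (c (l 16785736) (l 16785024))) (a (l 16792944) (l 16783448))) (c (l 16796472) (l 16796168))) (a (b (b (a (a (a (b (l 16781576) (a (l 4) (l 64659396455))) (l 69491238231)) (l 16779360)) (l 16780728)) (b (a (a (a (l 4) (a (l 49627006295) (l 68954364807))) (l 16784112)) (l 16780080)) (a (a (l 4) (a (c (l 59827558567) (l 16778456)) (l 16778784))) (l 16784896)))) (a (b (a (l 4) (a (l 4) (b (c (l 68417493751) (l 16778480)) (a (l 4) (l 38352715271))))) (l 4)) (a (b (b (l 16778880) (c (l 68954365975) (l 63585654055))) (c (a (b (l 42647682711) (l 4)) (b (l 16781752) (l 44795166263))) (a (b (c (l 16777976) (l 16777672)) (l 4)) (b (l 16778352) (c (l 16776696) (l 16777720)))))) (b (l 16779472) (a (c (l 67343752151) (l 64122524935)) (l 16778888)))))) (b (a (l 16782176) (l 16783992)) (a (a (a (l 16784944) (l 16780152)) (l 16786072))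 (l 16782168)))))) (a (b (l 16806312) (b (l 16789280) (c (l 16796208) (l 16796016)))) (b (b (l 16802112) (l 16818760)) (b (l 16793296) (l 16799104))))) (a (b (l 16824864) (a (a (b (l 16795464) (l 16812208)) (l 16815272)) (l 16796064))) (b (l 16844064) (a (l 16797704) (l 16799120))))), by decide +kernel⟩

def k11_pm_213 : ∃ t, chk3 f_pm_213 t 28 126 1 = true :=
  ⟨(b (a (b (a (l 4) (b (a (l 4) (a (a (l 4) (b (l 113514656327) (l 4))) (b (c (l 16778944) (l 16778224)) (a (l 4) (b (l 16778664) (l 4)))))) (l 4))) (l 4)) (b (a (a (a (a (b (c (l 75396816951) (l 16779520)) (l 4)) (b (l 16778640) (b (b (l 16778640) (l 4)) (l 4)))) (b (l 16778880) (c (b (l 16778816) (b (l 49090137703) (l 4))) (b (l 16778152) (a (l 4) (l 16778088)))))) (b (l 16779496) (b (l 16778864) (c (l 68954366039) (l 64659396087))))) (b (l 16786040) (c (l 16780144) (l 16779664)))) (a (b (a (l 4) (c (a (b (a (l 16776888) (l 54458846743)) (l 4)) (b (l 16778704) (b (l 48016395655) (l 60364425863)))) (b (a (a (l 16779032)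 (l 48553264135)) (l 16778096)) (a (l 4) (b (l 39963329319) (l 16778896)))))) (l 4)) (a (a (b (b (l 16778632) (c (l 16781272) (l 16778064))) (b (b (c (l 45868911639) (l 37278974247)) (l 4)) (l 4))) (b (l 16778800) (b (c (l 63048782775) (l 16779344)) (a (l 4) (b (a (l 16778320) (l 16778424)) (l 4)))))) (b (l 16779400) (b (l 16778744) (a (c (l 64122525223) (l 59290685351)) (l 16778520)))))))) (a (l 4) (b (a (l 4) (b (a (l 4) (c (b (a (b (c (l 38889588695) (l 35668362391)) (l 4)) (c (l 61975040999) (l 60901298759))) (a (l 4) (b (c (l 32984007639) (l 29762781287)) (l 4)))) (b (a (a (l 4) (b (l 16778032) (l 4))) (c (l 16779376) (l 16778496))) (a (l 4) (a (l 4) (b (l 16777944) (l 4))))))) (l 4))) (l 4)))), by decide +kernel⟩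

def k12_pm_213 : ∃ t, chk3 f_pm_213 t 29 126 1 = true :=
  ⟨(b (a (b (c (l 16788240) (l 16787936)) (a (a (b (l 16780224) (l 16784552)) (l 16780576)) (l 16786992))) (b (l 16785792) (l 6))) (a (b (a (b (a (b (l 16781264) (b (c (l 16778592) (l 16778120)) (a (c (l 53921976007) (c (l 16778088) (l 16777864))) (l 16778312)))) (l 16783112)) (a (b (b (c (a (a (l 4) (l 16778328)) (l 16778424)) (a (a (l 4) (l 16777832)) (l 16777936))) (a (l 4) (a (c (l 16778240) (l 16777768)) (a (l 16779224) (l 16778160))))) (b (b (a (l 4) (a (l 4) (a (l 4) (l 16778168)))) (l 4)) (l 4))) (b (c (l 16778736) (l 16778304)) (a (a (c (b (l 16778416) (l 16778040)) (b (l 16777920) (l 16779256))) (c (l 62511911335) (l 59290684615))) (l 6))))) (b (l 16780336) (l 6))) (a (b (a (l 4) (a (a (l 4) (l 6)) (l 6))) (l 4)) (l 6))) (l 6))), by decide +kernel⟩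

def k13_pm_213 : ∃ t, chk3 f_pm_213 t 15 126 1 = true :=
  ⟨(b (a (a (b (l 16804368) (l 6)) (l 16800184)) (a (l 16791496) (l 16792720))) (l 6)), by decide +kernel⟩

def k14_pm_213 : ∃ t, chk3 f_pm_213 t 7 127 1 = true :=
  ⟨(a (a (l 4) (a (a (l 4) (l 6)) (l 6))) (l 6)), by decide +kernel⟩

theorem s15_pm_213 : ∃ t, chk3 f_pm_213 t 14 126 1 = true := ex3_a k11_pm_213 k12_pm_213

theorem s16_pm_213 : ∃ t, chk3 f_pm_213 t 7 126 1 = true := ex3_a s15_pm_213 k13_pm_213

theorem s17_pm_213 : ∃ t, chk3 f_pm_213 t 7 63 1 = true := ex3_b s16_pm_213 k14_pm_213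

theorem s18_pm_213 : ∃ t, chk3 f_pm_213 t 7 31 1 = true := ex3_b k10_pm_213 s17_pm_213

theorem s19_pm_213 : ∃ t, chk3 f_pm_213 t 3 31 1 = true := ex3_a k9_pm_213 s18_pm_213

theorem s20_pm_213 : ∃ t, chk3 f_pm_213 t 6 30 1 = true := ex3_a k6_pm_213 k7_pm_213

theorem s21_pm_213 : ∃ t, chk3 f_pm_213 t 3 30 1 = true := ex3_a s20_pm_213 k8_pm_213

theorem s22_pm_213 : ∃ t, chk3 f_pm_213 t 3 15 1 = true := ex3_b s21_pm_213 s19_pm_213

theorem s23_pm_213 : ∃ t, chk3 f_pm_213 t 1 15 1 = true := ex3_a k5_pm_213 s22_pm_213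

theorem s24_pm_213 : ∃ t, chk3 f_pm_213 t 1 14 1 = true := ex3_a k3_pm_213 k4_pm_213

theorem s25_pm_213 : ∃ t, chk3 f_pm_213 t 1 7 1 = true := ex3_b s24_pm_213 s23_pm_213

theorem s26_pm_213 : ∃ t, chk3 f_pm_213 t 1 6 1 = true := ex3_a k1_pm_213 k2_pm_213

theorem s27_pm_213 : ∃ t, chk3 f_pm_213 t 1 3 1 = true := ex3_b s26_pm_213 s25_pm_213

theorem s28_pm_213 : ∃ t, chk3 f_pm_213 t 1 1 1 = true := ex3_b k0_pm_213 s27_pm_213

theorem c_pm_213 : CertN 0 536870912 536870912 536870912 402653184 67108864 3 true true false .pnn 2 1 3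
    ndN0q2 ndN0q1 pcN3 cut_pm_213 Ext.none :=
  certN1 (fam := true) (s1 := true) (s2 := false) (a := 2) (b := 1) (c := 3) (cn := .pnn) (n1 := ndN0q2) (n2 := ndN0q1) (pc := pcN3) (cut := cut_pm_213) (xt := Ext.none) (P1 := 0) (W1 := 536870912) (P2 := 536870912) (W2 := 536870912) (P3 := 402653184) (W3 := 67108864) (N0 := 3)
    rfl (fun _ => rfl) s28_pm_213

noncomputable def f_mm_001 : ℕ → ℕ → ℕ → ℕ → Bool := onCell 0 536870912 0 536870912 402653184 67108864
    (rowN 3 0 true false false .up 0 0 1 (qsf 0 536870912 0 536870912 1) ndN0q0 ndN0q0 pcN1 Cut.none Ext.none)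

def k0_mm_001 : ∃ t, chk3 f_mm_001 t 1 1 1 = true :=
  ⟨(l 4), by decide +kernel⟩

theorem c_mm_001 : CertN 0 536870912 0 536870912 402653184 67108864 3 true false false .up 0 0 1
    ndN0q0 ndN0q0 pcN1 Cut.none Ext.none :=
  certN0 (fam := true) (s1 := false) (s2 := false) (a := 0) (b := 0) (c := 1) (cn := .up) (n1 := ndN0q0) (n2 := ndN0q0) (pc := pcN1) (cut := Cut.none) (xt := Ext.none) (P1 := 0) (W1 := 536870912) (P2 := 0) (W2 := 536870912) (P3 := 402653184) (W3 := 67108864) (N0 := 3)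
    rfl k0_mm_001

noncomputable def f_mm_011 : ℕ → ℕ → ℕ → ℕ → Bool := onCell 0 536870912 536870912 536870912 402653184 67108864
    (rowN 3 0 true false false .pnn 0 1 1 (qsf 0 536870912 536870912 536870912 1) ndN0q0 ndN0q1 pcN1 Cut.none Ext.none)

def k0_mm_011 : ∃ t, chk3 f_mm_011 t 1 1 1 = true :=
  ⟨(a (l 5) (l 4)), by decide +kernel⟩

theorem c_mm_011 : CertN 0 536870912 536870912 536870912 402653184 67108864 3 true false false .pnn 0 1 1
    ndN0q0 ndN0q1 pcN1 Cut.none Ext.none :=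
  certN0 (fam := true) (s1 := false) (s2 := false) (a := 0) (b := 1) (c := 1) (cn := .pnn) (n1 := ndN0q0) (n2 := ndN0q1) (pc := pcN1) (cut := Cut.none) (xt := Ext.none) (P1 := 0) (W1 := 536870912) (P2 := 536870912) (W2 := 536870912) (P3 := 402653184) (W3 := 67108864) (N0 := 3)
    rfl k0_mm_011

noncomputable def f_mm_012 : ℕ → ℕ → ℕ → ℕ → Bool := onCell 0 536870912 536870912 536870912 402653184 67108864
    (rowN 3 0 true false false .pnp 0 1 2 (qsf 0 536870912 536870912 536870912 2) ndN0q0 ndN0q1 pcN2 Cut.none Ext.none)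

def k0_mm_012 : ∃ t, chk3 f_mm_012 t 1 1 1 = true :=
  ⟨(b (l 4) (l 5)), by decide +kernel⟩

theorem c_mm_012 : CertN 0 536870912 536870912 536870912 402653184 67108864 3 true false false .pnp 0 1 2
    ndN0q0 ndN0q1 pcN2 Cut.none Ext.none :=
  certN0 (fam := true) (s1 := false) (s2 := false) (a := 0) (b := 1) (c := 2) (cn := .pnp) (n1 := ndN0q0) (n2 := ndN0q1) (pc := pcN2) (cut := Cut.none) (xt := Ext.none) (P1 := 0) (W1 := 536870912) (P2 := 536870912) (W2 := 536870912) (P3 := 402653184) (W3 := 67108864) (N0 := 3)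
    rfl k0_mm_012

noncomputable def f_mm_022 : ℕ → ℕ → ℕ → ℕ → Bool := onCell 0 536870912 0 536870912 402653184 67108864
    (rowN 3 0 true false false .pp 0 2 2 (qsf 0 536870912 0 536870912 2) ndN0q0 ndN0q2 pcN2 Cut.none Ext.none)

def k0_mm_022 : ∃ t, chk3 f_mm_022 t 1 1 1 = true :=
  ⟨(l 5), by decide +kernel⟩

theorem c_mm_022 : CertN 0 536870912 0 536870912 402653184 67108864 3 true false false .pp 0 2 2
    ndN0q0 ndN0q2 pcN2 Cut.none Ext.none :=
  certN0 (fam := true) (s1 := false) (s2 := false) (a := 0) (b := 2) (c := 2) (cn := .pp) (n1 := ndN0q0) (n2 := ndN0q2) (pc := pcN2) (cut := Cut.none) (xt := Ext.none) (P1 := 0) (W1 := 536870912) (P2 := 0) (W2 := 536870912) (P3 := 402653184) (W3 := 67108864) (N0 := 3)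
    rfl k0_mm_022

noncomputable def f_mm_023 : ℕ → ℕ → ℕ → ℕ → Bool := onCell 0 536870912 0 536870912 402653184 67108864
    (rowN 3 0 true false false .up 0 2 3 (qsf 0 536870912 0 536870912 3) ndN0q0 ndN0q2 pcN3 Cut.none Ext.none)

def k0_mm_023 : ∃ t, chk3 f_mm_023 t 1 1 1 = true :=
  ⟨(l 5), by decide +kernel⟩

theorem c_mm_023 : CertN 0 536870912 0 536870912 402653184 67108864 3 true false false .up 0 2 3
    ndN0q0 ndN0q2 pcN3 Cut.none Ext.none :=
  certN0 (fam := true) (s1 := false) (s2 := false) (a := 0) (b := 2) (c := 3) (cn := .up) (n1 := ndN0q0) (n2 := ndN0q2) (pc := pcN3) (cut := Cut.none) (xt := Ext.none) (P1 := 0) (W1 := 536870912) (P2 := 0) (W2 := 536870912) (P3 := 402653184) (W3 := 67108864) (N0 := 3)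
    rfl k0_mm_023

noncomputable def cut_mm_101 : Cut := Cut.of [[⟨0, 1, 0, 67108864⟩, ⟨1, 0, 0, 67108864⟩, ⟨2, 1, 0, 67108864⟩]]

noncomputable def f_mm_101 : ℕ → ℕ → ℕ → ℕ → Bool := onCell 536870912 536870912 0 536870912 402653184 67108864
    (rowN 3 0 true false false .npn 1 0 1 (qsf 536870912 536870912 0 536870912 1) ndN0q1 ndN0q0 pcN1 cut_mm_101 Ext.none)

def k0_mm_101 : ∃ t, chk3 f_mm_101 t 1 1 1 = true :=
  ⟨(a (l 4) (b (a (l 4) (b (a (l 4) (b (a (l 4) (b (l 6) (l 4))) (l 4))) (l 4))) (l 4))), by decide +kernel⟩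

theorem c_mm_101 : CertN 536870912 536870912 0 536870912 402653184 67108864 3 true false false .npn 1 0 1
    ndN0q1 ndN0q0 pcN1 cut_mm_101 Ext.none :=
  certN0 (fam := true) (s1 := false) (s2 := false) (a := 1) (b := 0) (c := 1) (cn := .npn) (n1 := ndN0q1) (n2 := ndN0q0) (pc := pcN1) (cut := cut_mm_101) (xt := Ext.none) (P1 := 536870912) (W1 := 536870912) (P2 := 0) (W2 := 536870912) (P3 := 402653184) (W3 := 67108864) (N0 := 3)
    rfl k0_mm_101

noncomputable def cut_mm_102 : Cut := Cut.of [[⟨0, 1, 0, 67108864⟩, ⟨1, 0, 0, 67108864⟩, ⟨2, 1, 0, 67108864⟩]]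

noncomputable def f_mm_102 : ℕ → ℕ → ℕ → ℕ → Bool := onCell 536870912 536870912 0 536870912 402653184 67108864
    (rowN 3 0 true false false .npp 1 0 2 (qsf 536870912 536870912 0 536870912 2) ndN0q1 ndN0q0 pcN2 cut_mm_102 Ext.none)

def k0_mm_102 : ∃ t, chk3 f_mm_102 t 1 1 1 = true :=
  ⟨(a (l 4) (b (a (l 4) (b (a (l 4) (b (a (l 4) (b (l 6) (l 4))) (l 4))) (l 4))) (l 4))), by decide +kernel⟩

theorem c_mm_102 : CertN 536870912 536870912 0 536870912 402653184 67108864 3 true false false .npp 1 0 2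
    ndN0q1 ndN0q0 pcN2 cut_mm_102 Ext.none :=
  certN0 (fam := true) (s1 := false) (s2 := false) (a := 1) (b := 0) (c := 2) (cn := .npp) (n1 := ndN0q1) (n2 := ndN0q0) (pc := pcN2) (cut := cut_mm_102) (xt := Ext.none) (P1 := 536870912) (W1 := 536870912) (P2 := 0) (W2 := 536870912) (P3 := 402653184) (W3 := 67108864) (N0 := 3)
    rfl k0_mm_102

noncomputable def f_mm_112 : ℕ → ℕ → ℕ → ℕ → Bool := onCell 536870912 536870912 536870912 536870912 402653184 67108864
    (rowN 3 0 true false false .dn 1 1 2 (qsf 536870912 536870912 536870912 536870912 2) ndN0q1 ndN0q1 pcN2 Cut.none Ext.none)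

def k0_mm_112 : ∃ t, chk3 f_mm_112 t 1 1 1 = true :=
  ⟨(l 4), by decide +kernel⟩

theorem c_mm_112 : CertN 536870912 536870912 536870912 536870912 402653184 67108864 3 true false false .dn 1 1 2
    ndN0q1 ndN0q1 pcN2 Cut.none Ext.none :=
  certN0 (fam := true) (s1 := false) (s2 := false) (a := 1) (b := 1) (c := 2) (cn := .dn) (n1 := ndN0q1) (n2 := ndN0q1) (pc := pcN2) (cut := Cut.none) (xt := Ext.none) (P1 := 536870912) (W1 := 536870912) (P2 := 536870912) (W2 := 536870912) (P3 := 402653184) (W3 := 67108864) (N0 := 3)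
    rfl k0_mm_112

noncomputable def f_mm_113 : ℕ → ℕ → ℕ → ℕ → Bool := onCell 536870912 536870912 536870912 536870912 402653184 67108864
    (rowN 3 0 true false false .nn 1 1 3 (qsf 536870912 536870912 536870912 536870912 3) ndN0q1 ndN0q1 pcN3 Cut.none Ext.none)

def k0_mm_113 : ∃ t, chk3 f_mm_113 t 1 1 1 = true :=
  ⟨(l 4), by decide +kernel⟩

theorem c_mm_113 : CertN 536870912 536870912 536870912 536870912 402653184 67108864 3 true false false .nn 1 1 3
    ndN0q1 ndN0q1 pcN3 Cut.none Ext.none :=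
  certN0 (fam := true) (s1 := false) (s2 := false) (a := 1) (b := 1) (c := 3) (cn := .nn) (n1 := ndN0q1) (n2 := ndN0q1) (pc := pcN3) (cut := Cut.none) (xt := Ext.none) (P1 := 536870912) (W1 := 536870912) (P2 := 536870912) (W2 := 536870912) (P3 := 402653184) (W3 := 67108864) (N0 := 3)
    rfl k0_mm_113

noncomputable def f_mm_123 : ℕ → ℕ → ℕ → ℕ → Bool := onCell 536870912 536870912 0 536870912 402653184 67108864
    (rowN 3 0 true false false .npn 1 2 3 (qsf 536870912 536870912 0 536870912 3) ndN0q1 ndN0q2 pcN3 Cut.none Ext.none)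

def k0_mm_123 : ∃ t, chk3 f_mm_123 t 1 1 1 = true :=
  ⟨(a (l 5) (l 4)), by decide +kernel⟩

theorem c_mm_123 : CertN 536870912 536870912 0 536870912 402653184 67108864 3 true false false .npn 1 2 3
    ndN0q1 ndN0q2 pcN3 Cut.none Ext.none :=
  certN0 (fam := true) (s1 := false) (s2 := false) (a := 1) (b := 2) (c := 3) (cn := .npn) (n1 := ndN0q1) (n2 := ndN0q2) (pc := pcN3) (cut := Cut.none) (xt := Ext.none) (P1 := 536870912) (W1 := 536870912) (P2 := 0) (W2 := 536870912) (P3 := 402653184) (W3 := 67108864) (N0 := 3)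
    rfl k0_mm_123

end Pool.Agent.Strip051.G.I3_8_7_16.Tab.C.NA00

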