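import Pool.Agent.Strip051.G.I3_8_7_16.Tab

/-! # Certificates N5 (generated) -/

set_option linter.all false
set_option maxRecDepth 100000

namespace Pool.Agent.Strip051.G.I3_8_7_16.Tab.C.NA00

open Pool.Agent.Strip051.PB Pool.Agent.Strip051.PB.T
open Pool.Agent.Strip051.G.I3_8_7_16.Tab

noncomputable def cut_mm_202 : Cut := Cut.of [[⟨0, 1, 0, 67108864⟩, ⟨1, 0, 0, 67108864⟩, ⟨2, 1, 0, 67108864⟩]]

noncomputable def f_mm_202 : ℕ → ℕ → ℕ → ℕ → Bool := onCell 0 536870912 0 536870912 402653184 67108864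
    (rowN 3 0 true false false .pp 2 0 2 (qsf 0 536870912 0 536870912 2) ndN0q2 ndN0q0 pcN2 cut_mm_202 Ext.none)

def k0_mm_202 : ∃ t, chk3 f_mm_202 t 2 2 1 = true :=
  ⟨(b (a (b (b (a (l 16458616) (l 16525136)) (a (l 16447784) (l 16500760))) (a (b (l 16502408) (l 16506736)) (b (l 16505272) (l 16553480)))) (b (a (b (a (b (l 16477424) (l 16480616)) (l 16563192)) (b (l 16516952) (l 16499728))) (b (b (a (l 16519288) (l 16541648)) (a (l 16526352) (l 16550408))) (a (b (l 16533224) (l 16539920)) (b (l 16558984) (l 16567392))))) (a (b (l 16546920) (l 16568528)) (b (a (l 16570600) (b (l 16575648) (l 16604792))) (a (l 16583480) (l 16637944)))))) (a (b (a (b (l 16533712) (l 16562624)) (b (l 16560880) (l 16590512))) (a (b (l 16594448) (l 16629448)) (b (l 16622192) (l 16656016)))) (b (a (b (l 16598656) (l 16608624)) (b (a (l 16598952) (l 16654888)) (b (l 16675616) (l 16692376)))) (a (b (l 16682968) (l 16716760)) (b (b (l 16709448) (l 16726792)) (a (l 16720488) (l 16770504))))))), by decide +kernel⟩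

def k1_mm_202 : ∃ t, chk3 f_mm_202 t 6 4 1 = true :=
  ⟨(b (a (b (b (a (b (l 16561672) (l 16566832)) (b (l 16605224) (l 16590024))) (a (l 16595432) (b (l 16595744) (l 16601416)))) (a (b (l 16605472) (l 16594376)) (b (a (l 16603392) (l 16616104)) (l 16662840)))) (b (a (a (b (b (l 16601640) (l 16607800)) (l 16637896)) (b (b (l 16613688) (l 16620072)) (b (l 16626408) (l 16632688)))) (b (b (a (l 16647104) (c (l 16642784) (l 16635352))) (a (l 16632728) (l 16666808))) (b (a (l 16639264) (l 16673528)) (a (l 16645744) (l 16680184))))) (a (b (b (l 16674448) (l 16659552)) (a (l 16640792) (l 16675248))) (b (a (b (l 16652168) (l 16658552)) (b (l 16665816) (l 16672368))) (a (b (l 16664888) (l 16671176)) (b (l 16678880) (l 16685336))))))) (a (b (a (a (l 16643560) (l 16657864)) (b (l 16673784) (l 16684608))) (a (b (l 16644296) (l 16622472)) (a (l 16693000) (b (l 16660744) (l 16671712))))) (a (a (b (b (l 16652480) (l 16664048)) (b (l 16675496) (l 16707880))) (b (b (l 16687376) (l 16699360)) (b (l 16711232)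 (l 16723016)))) (b (a (b (l 16711976) (l 16724328)) (b (a (l 16712256) (l 16719552)) (b (l 16725448) (l 16731752)))) (b (a (l 16736568) (b (l 16738024) (l 16744272))) (a (l 16748688) (b (l 16750488) (l 16756672)))))))), by decide +kernel⟩

def k2_mm_202 : ∃ t, chk3 f_mm_202 t 14 16 1 = true :=
  ⟨(b (a (b (a (b (l 16671792) (l 16675280)) (b (c (l 16667936) (l 16661984)) (c (l 16671400) (l 16665640)))) (a (c (l 16683616) (l 16656344)) (b (c (l 16674848) (l 16669272)) (l 16691312)))) (b (a (b (l 6) (c (l 16696480) (l 16691568))) (l 6)) (a (b (c (l 16700000) (l 16695272)) (c (l 16703496) (l 16698960))) (b (l 6) (a (l 16713136) (l 6)))))) (a (a (b (c (l 16669336) (l 16663408)) (c (l 16675976) (l 16670400))) (b (b (l 16700064) (l 16703560)) (b (l 16707040) (l 16710504)))) (a (b (a (c (l 16694416) (l 16689936)) (c (l 16712520) (l 16697992))) (a (c (l 16701288) (l 16697176)) (c (l 16708976) (l 16705296)))) (b (a (b (l 16716752) (l 16720360)) (b (l 6) (c (l 16719696) (l 16716632)))) (a (b (l 16723952)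 (l 16727528)) (b (c (l 16723224) (l 16720344)) (c (l 16726736) (l 16724040)))))))), by decide +kernel⟩

def k3_mm_202 : ∃ t, chk3 f_mm_202 t 14 17 1 = true :=
  ⟨(a (b (a (b (c (l 16682560) (l 16677344)) (l 16707624)) (b (b (l 16713952) (l 16717384)) (b (l 16720808) (l 16724216)))) (a (b (l 16714280) (l 16720888)) (b (b (l 16727616) (l 16730992)) (a (l 16711200) (l 16739912))))) (a (b (b (a (c (l 16708112) (l 16704352)) (c (l 16715856) (l 16712536))) (a (l 16726272) (c (l 16722672) (l 16719712)))) (b (a (l 16730536) (c (l 16729440) (l 16726832))) (a (c (l 16728248) (l 16725536)) (c (l 16746648) (l 16744384))))) (b (b (b (a (l 16731080) (c (l 16730232) (l 16727720))) (a (l 16734624) (c (l 16733712) (l 16731376)))) (b (a (l 16738152) (c (l 16737184) (l 16735024))) (a (l 16741664) (c (l 16740632) (l 16738656))))) (b (b (a (l 16745168) (c (l 16754560) (l 16752752))) (a (l 16746032) (c (l 16752736) (l 16751112)))) (b (a (c (l 16742600) (l 16740688)) (c (l 16756152) (l 16754696))) (a (a (l 16742984)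 (l 16757696)) (a (l 16761976) (a (l 16765224) (l 16762160))))))))), by decide +kernel⟩

def k4_mm_202 : ∃ t, chk3 f_mm_202 t 15 16 1 = true :=
  ⟨(a (b (l 6) (a (b (l 6) (a (b (c (l 16736792) (l 16739608)) (c (l 16740328) (l 16738088))) (b (l 6) (c (a (l 16741488) (l 16745832)) (a (l 16739592) (l 16744176)))))) (l 6))) (l 6)), by decide +kernel⟩

def k5_mm_202 : ∃ t, chk3 f_mm_202 t 60 34 1 = true :=
  ⟨(b (a (b (c (l 16743848) (l 16741792)) (c (l 16747360) (l 16745480))) (b (c (a (l 16745032) (l 16749392)) (a (l 16743320) (l 16747912))) (a (c (l 16748560) (l 16747024)) (c (l 16758168) (l 16756872))))) (a (a (b (l 16747808) (l 16751368)) (b (c (l 16747744) (l 16746160)) (c (l 16751224) (l 16749824)))) (c (a (b (l 16752064) (l 16760808)) (b (l 16761688) (c (l 16765440) (l 16764960)))) (a (b (l 16750720) (l 16759632)) (b (l 16760576) (c (l 16764496) (l 16764032))))))), by decide +kernel⟩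

def k6_mm_202 : ∃ t, chk3 f_mm_202 t 122 34 1 = true :=
  ⟨(b (b (a (c (l 16757408) (l 16756168)) (l 6)) (b (a (c (l 16756472) (l 16755368)) (c (l 16763576) (l 16762712))) (a (c (l 16758240) (l 16757232)) (c (l 16765352) (l 16764248))))) (b (b (a (c (l 16760008) (l 16759088)) (c (c (l 16767304) (l 16766952)) (c (l 16766608) (l 16766272)))) (c (a (l 16764392) (c (l 16767736) (l 16768744))) (a (l 16766184) (c (l 16768448) (l 16768160))))) (b (a (c (l 16766152) (l 16765408)) (a (c (l 16766904) (l 16766344)) (c (c (l 16769288) (l 16769056)) (c (l 16768840) (l 16768624))))) (a (c (c (l 16765456) (l 16767744)) (c (l 16767416) (l 16767096))) (a (c (l 16771288) (l 16770808)) (c (c (l 16773648) (l 16773464)) (c (l 16773288) (l 16773120)))))))), by decide +kernel⟩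

def k7_mm_202 : ∃ t, chk3 f_mm_202 t 123 68 1 = true :=
  ⟨(b (l 6) (b (l 6) (a (a (c (l 16766136) (l 16768168)) (a (c (l 16767856) (l 16767352)) (l 6))) (l 6)))), by decide +kernel⟩

def k8_mm_202 : ∃ t, chk3 f_mm_202 t 246 69 1 = true :=
  ⟨(b (c (a (b (l 16770536) (c (l 16769792) (l 16769584))) (a (b (l 16772256) (a (l 16773744) (l 16774320))) (b (l 16771768) (a (l 16774896) (l 16775144))))) (a (b (l 16770032) (c (l 16769376) (l 16769176))) (b (c (l 16771232) (l 16771040)) (b (c (l 16771304) (l 16771152)) (l 16773464))))) (a (c (b (b (l 16773640) (l 16774520)) (c (l 16774600) (l 16774472))) (a (b (l 16773152) (l 16775008)) (b (a (l 16774056) (l 16774656)) (l 16775232)))) (b (a (c (c (l 16775208) (l 16775080)) (l 16773928)) (c (c (l 16775688) (l 16775600)) (c (l 16775512) (l 16775432)))) (a (c (c (l 16776296) (l 16776216)) (c (l 16776144) (l 16776080))) (b (c (c (l 16777000) (l 16776936)) (c (l 16776232) (l 16776184))) (c (a (l 16777400) (c (b (l 16778040) (a (c (l 16777872) (l 20099106135))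 (b (l 52848232039) (l 94187292519)))) (b (l 16778080) (a (b (l 16778344) (l 36205233815)) (b (l 53921973959) (l 132305127447)))))) (a (c (c (l 16777608) (l 16776312)) (l 16776656)) (c (b (l 16778104) (a (b (l 16777056) (l 37278975671)) (b (c (l 55532586503) (l 57143199239)) (l 130157642503)))) (b (l 16777792) (a (a (l 16778432) (b (l 16777160) (l 79691777111))) (b (c (l 60364424663) (l 66806875447)) (l 132841997047)))))))))))), by decide +kernel⟩

def k9_mm_202 : ∃ t, chk3 f_mm_202 t 247 138 1 = true :=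
  ⟨(a (c (b (b (l 6) (a (l 16775008) (l 16775512))) (a (b (l 16775896) (l 16775472)) (c (l 16776224) (l 16776144)))) (b (b (l 6) (a (l 16774736) (l 16774640))) (c (b (l 16775016) (l 16775936)) (a (l 16774776) (l 16776016))))) (b (l 6) (a (b (c (c (l 16776936) (l 16776880)) (c (l 16776824) (l 16776120))) (c (a (c (l 16776872) (l 16776824)) (b (l 16777424) (a (c (l 16777832) (l 16777856)) (c (b (l 31373395271) (l 80228648583)) (b (c (l 30836524263) (l 31373395191)) (l 81302390551)))))) (a (b (l 16777192) (l 16777128)) (b (c (l 16776648) (l 16776656)) (c (c (a (l 16777712) (b (l 31910266119) (l 81839261351))) (a (l 16777712) (b (l 32447137047) (l 83449874087)))) (a (c (l 16777720) (l 16777720)) (b (c (l 33520878871) (l 35131491607)) (c (l 85060486823) (l 86671099543))))))))) (b (c (a (c (a (l 16777000) (l 6)) (a (l 16777616) (l 6))) (l 6)) (a (c (a (l 16777632) (l 6)) (a (c (l 16776336) (l 16776344)) (l 6))) (l 6))) (c (a (b (b (a (l 16778040) (c (c (l 61438166375) (l 61975037383)) (c (l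 62511908311) (l 63048779223)))) (a (c (c (l 47479522599) (l 48016393527)) (c (l 48553264455) (l 49090135447))) (l 4))) (a (c (l 140358189975) (l 138747577271)) (l 4))) (l 4)) (a (b (b (c (a (l 16777744) (a (l 48016393639) (l 94187292295))) (a (l 16777752) (a (l 49627006439) (l 96871646839)))) (b (a (c (l 33520878983) (l 35131491719)) (l 4)) (a (c (l 67343746631) (l 69491230343)) (l 4)))) (a (b (c (l 132305127399) (l 132305126087)) (l 4)) (l 4))) (l 4))))))), by decide +kernel⟩

def k10_mm_202 : ∃ t, chk3 f_mm_202 t 494 278 1 = true :=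
  ⟨(a (b (c (l 16776360) (l 16776224)) (c (c (l 16776944) (l 16776888)) (c (l 16776680) (l 16776680)))) (b (c (c (b (l 16777320) (a (l 16776160) (c (l 16777816) (l 16777832)))) (a (l 16777200) (b (l 16776256) (c (l 16777848) (l 16777864))))) (c (b (l 16777224) (a (l 16776104) (c (l 16777872) (a (l 16778016) (l 16777752))))) (a (l 16777128) (b (l 16776304) (a (l 16776712) (b (l 16778264) (l 22783460871))))))) (c (a (c (b (l 16777968) (a (l 13656655191) (b (l 43184555479) (l 90429196023)))) (b (l 16778000) (a (a (l 16777016) (l 20635977303)) (b (a (l 16777912) (l 66270004743)) (l 92039808855))))) (b (a (a (c (l 16777896) (l 18488493623)) (c (b (l 16777872) (l 83449873895)) (b (l 16777896) (l 85060486743)))) (b (c (l 70564972199) (c (l 71638713911) (l 72175584839))) (l 4))) (l 4))) (b (a (c (l 16776720) (l 16776896)) (b (c (a (l 16777816) (c (l 72712455831) (l 74323068567))) (a (l 16777824) (c (l 75933681303) (l 79691777591)))) (a (c (c (l 59290682887) (l 60901295623)) (c (l 61975037479)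 (l 64659391991))) (l 4)))) (a (a (b (l 16777968) (a (l 16778176) (c (l 45332039095) (l 48553264567)))) (b (c (c (l 41037071799) (l 42110813639)) (c (l 43184555463) (l 46405780839))) (c (l 125325805495) (l 128010158727)))) (l 4)))))), by decide +kernel⟩

def k11_mm_202 : ∃ t, chk3 f_mm_202 t 494 279 1 = true :=
  ⟨(a (b (a (c (c (b (l 16776328) (c (l 16777888) (l 16777864))) (b (l 16776328) (c (l 7214204295) (c (l 16777928) (l 16777936))))) (c (b (l 16776360) (a (l 16776776) (b (l 16778328) (l 31910266487)))) (b (l 16776376) (a (l 16778096) (a (l 16778392) (b (l 16777128) (l 56606328263))))))) (c (a (b (l 16778064) (b (c (l 48016393783) (a (l 16777944) (l 72712455751))) (a (l 94724163719) (l 4)))) (a (b (c (l 22783460775) (l 22783460983)) (l 4)) (b (b (a (l 16777872) (l 35131492135)) (l 90966067303)) (l 4)))) (a (c (b (l 16776952) (b (c (l 50700748215) (l 51774490087)) (l 130157642439))) (b (l 16778280) (b (c (l 54458844599) (l 56606328247)) (l 132305126087)))) (b (b (c (l 16777848) (l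 16777856)) (c (c (l 64122521143) (l 65733133879)) (c (l 67880617527) (l 72175584727)))) (l 4))))) (a (b (b (c (c (a (l 16777840) (l 79691777767)) (a (l 16777864) (l 81302390695))) (c (a (l 16777880) (l 82376132599)) (a (l 16777888) (l 85060487143)))) (a (c (c (l 66270004935) (l 67343746903)) (c (c (l 69491230311) (l 71101843047)) (c (l 73249326695) (l 87744840903)))) (l 4))) (l 4)) (l 4))) (a (a (a (b (b (b (c (c (l 67880617415) (l 69491230247)) (c (l 72175584807) (l 76470552103))) (l 4)) (l 4)) (l 4)) (l 4)) (l 4)) (l 4))), by decide +kernel⟩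

def k12_mm_202 : ∃ t, chk3 f_mm_202 t 495 139 1 = true :=
  ⟨(b (a (b (c (a (b (c (a (l 16776832) (a (l 16777784) (b (l 16777176) (l 77544293815)))) (a (l 16776856) (a (l 16777976) (b (l 16777856) (l 79154906647))))) (c (a (b (l 35668362663) (l 84523615943)) (l 140895060935)) (a (b (c (l 35668362535) (l 36205233463)) (l 85597357911)) (l 138747577319)))) (b (a (b (a (b (l 38352717447) (l 86134228871)) (l 94187292823)) (l 4)) (l 4)) (l 4))) (a (a (c (b (l 16776880) (c (b (l 36742104391) (l 88281712343)) (b (l 37815846215) (l 88281712343)))) (b (l 16777544) (b (c (l 38889588055) (l 39963329879)) (l 88281712663)))) (c (b (a (l 14730397047) (b (l 16777872) (l 80765519479))) (l 137673835511)) (b (b (l 16777784) (a (l 37815846215) (l 83986744935))) (b (l 132305126135) (l 4))))) (b (a (b (a (c (l 58753811911) (l 60901295639)) (c (l 95797905079) (l 101703484935))) (l 4)) (l 4)) (l 4)))) (l 4)) (l 4)) (l 4)), by decide +kernel⟩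

def k13_mm_202 : ∃ t, chk3 f_mm_202 t 60 35 1 = true :=
  ⟨(a (a (b (b (c (l 16750400) (l 16748944)) (c (l 16753848) (l 16752560))) (b (c (l 16757272) (l 16756168)) (c (l 16765928) (l 16765000)))) (c (b (b (l 16754696) (l 16763392)) (b (c (l 16761816) (l 16761368)) (c (l 16770440) (l 16770080)))) (b (b (l 16753472) (l 16762344)) (c (b (l 16760928) (l 16769728)) (b (l 16760504) (l 16769392)))))) (b (c (a (b (l 16761664) (c (l 16767960) (l 16767544))) (a (b (l 16767584) (c (l 16765984) (l 16765648))) (b (l 16767176) (c (l 16769488) (l 16769216))))) (a (b (l 16760672) (c (l 16767136) (l 16764120))) (b (a (l 16766768) (l 16766480)) (a (c (l 16765328) (l 16765024)) (b (l 16766600) (l 16773672)))))) (a (b (b (c (l 16770344) (l 16769656)) (c (l 16772064) (l 16771464))) (c (c (l 16772224) (l 16772224)) (c (l 16772320) (l 16772096)))) (b (a (c (c (l 16773328) (l 16773088)) (l 16770776)) (c (b (l 16773256) (l 16774992)) (c (l 16773856) (l 16773696)))) (a (c (c (l 16775424) (l 16775264)) (c (l 16775112)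 (l 16774984))) (b (c (l 16776712) (c (l 16775888) (l 16775792))) (a (a (c (l 16777592) (l 16777512)) (c (l 16776864) (c (l 16777616) (l 16776352)))) (b (c (c (l 16778056) (l 16776816)) (c (l 16776544) (a (l 16775864) (l 16777944)))) (b (a (c (l 16776664) (l 16778072)) (a (c (l 16778568) (c (l 16777312) (l 16777328))) (c (c (l 64659392935) (l 66806876791)) (c (l 69491231511) (l 77007423943))))) (a (a (c (l 16777088) (l 16778480)) (c (c (l 43184556327) (l 44795169143)) (c (l 48016394647) (l 56069457991)))) (a (c (l 88281714247) (c (l 95797905879) (l 106535323927))) (l 4)))))))))))), by decide +kernel⟩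

def k14_mm_202 : ∃ t, chk3 f_mm_202 t 244 70 1 = true :=
  ⟨(b (b (c (c (l 16769808) (l 16769512)) (c (l 16767920) (l 16767648))) (a (c (l 16767664) (l 16772368)) (c (l 16773840) (l 16773424)))) (b (c (a (l 16772024) (l 16773624)) (c (l 16772200) (l 16772672))) (a (c (c (l 16773864) (l 16773672)) (l 16773408)) (c (c (l 16776088) (l 16775952)) (c (l 16775832) (l 16775728)))))), by decide +kernel⟩

def k15_mm_202 : ∃ t, chk3 f_mm_202 t 245 140 1 = true :=
  ⟨(c (c (b (c (l 16773736) (l 16773728)) (a (a (l 16771696) (l 16775432)) (a (l 16776560) (l 16776376)))) (b (a (l 16772944) (l 16773936)) (b (a (l 16771648) (l 16775264)) (a (l 16775160) (l 16776152))))) (a (b (a (l 16772056) (l 16773248)) (l 16773512)) (a (b (l 16774448) (l 16774984)) (b (l 16774336) (a (l 16775880) (l 16776808)))))), by decide +kernel⟩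

def k16_mm_202 : ∃ t, chk3 f_mm_202 t 490 141 1 = true :=
  ⟨(b (c (c (l 16775944) (l 16775832)) (c (l 16775728) (l 16775632))) (a (c (c (l 16776448) (l 16776360)) (c (l 16776288) (l 16776224))) (b (c (l 16777104) (c (l 16776472) (l 16776504))) (c (a (c (l 16777872) (l 16777920)) (c (b (l 15804139431) (a (b (l 16777968) (l 80228648951)) (l 132305126327))) (b (a (l 16778216) (l 28152170391)) (a (b (l 16778000) (l 82913003543)) (l 131231385847))))) (c (a (l 16778288) (b (c (l 15267268503) (l 15804139431)) (a (b (l 16778024) (l 87207970839)) (l 130694513623)))) (a (c (l 16777976) (l 16777984)) (a (b (l 16776952) (b (l 16778032) (l 100629743287))) (b (c (l 32984008343) (l 35131491991)) (l 132305126343))))))))), by decide +kernel⟩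

def k17_mm_202 : ∃ t, chk3 f_mm_202 t 491 282 1 = true :=
  ⟨(a (b (c (l 16776504) (l 16776360)) (a (c (l 16777088) (l 16777752)) (b (c (l 16777496) (l 16777576)) (c (l 16778128) (b (l 16776728) (l 16778424)))))) (b (c (c (b (l 16777456) (a (l 16776344) (a (l 16776952) (c (l 38352717447) (l 38352717479))))) (a (l 16777392) (a (l 16776680) (a (l 6140462951) (b (l 16778184) (l 52311361447)))))) (c (c (a (l 16776112) (a (l 16778016) (b (l 16776792) (c (l 39963330295) (l 40500201207))))) (a (l 16776128) (b (l 16777920) (a (l 16777024) (a (l 16777960) (l 56069457687)))))) (c (a (l 16776144) (b (l 16777928) (a (l 16777032) (a (l 16777968) (l 64122521271))))) (a (l 16776152) (a (l 16778048) (a (l 6140462807) (b (l 16776920) (l 73249326519)))))))) (c (a (c (b (l 16777952) (a (c (l 42110813863) (l 42110814055)) (l 125325804359))) (b (l 9898559319) (a (a (l 16778136) (l 60901296103)) (l 124252062551)))) (a (b (b (a (l 16778312) (l 77007423911)) (l 94724164423)) (l 4)) (l 4))) (a (c (b (c (l 16778016)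 (l 16778024)) (b (a (l 16777296) (l 88281712679)) (a (l 74323068999) (l 4)))) (b (c (l 16778032) (l 9898559255)) (b (a (l 16777304) (l 96334776183)) (a (l 83986745063) (l 4))))) (b (a (c (b (l 54995715991) (l 98482260071)) (b (l 56606328567) (l 110293419799))) (l 4)) (l 4)))))), by decide +kernel⟩

def k18_mm_202 : ∃ t, chk3 f_mm_202 t 491 283 1 = true :=
  ⟨(a (b (a (c (a (c (l 16778032) (l 16778080)) (b (l 16776840) (b (l 28152170743) (a (l 70028102087) (l 94724164183))))) (a (c (l 16778112) (l 16778136)) (b (l 16778208) (b (c (l 16777992) (l 16777344)) (c (l 80228649095) (l 88818583415)))))) (a (c (c (b (l 16778184) (l 129620771703)) (b (l 23857203175) (l 127473288087))) (c (b (l 24394074135) (b (l 97945388839) (l 4))) (b (c (l 28152170055) (l 28152170231)) (l 129083900807)))) (b (b (c (c (l 56069457655) (l 58216941495)) (c (l 60901296071) (l 74323068375))) (c (l 94724164471) (c (l 103314098023) (l 108682807207)))) (l 4)))) (a (a (b (c (c (l 89355454007) (b (l 63585650679) (l 96334776423)))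 (c (b (l 67343747063) (l 103850968999)) (b (l 79691777623) (l 109219678167)))) (l 4)) (l 4)) (l 4))) (l 4)), by decide +kernel⟩

def k19_mm_202 : ∃ t, chk3 f_mm_202 t 244 142 1 = true :=
  ⟨(a (c (b (l 16775504) (c (l 16776464) (l 16776520))) (b (l 16775232) (c (l 16776432) (l 16776192)))) (b (c (b (l 16776664) (a (l 16777624) (a (l 16777184) (c (l 16777960) (l 16778016))))) (a (l 16777008) (a (l 16777000) (b (l 16778152) (c (l 16778384) (b (l 16777776) (l 16778376))))))) (a (b (c (l 16777240) (c (l 16776664) (l 16776368))) (c (a (c (l 16778056) (l 2919237863)) (a (b (l 16778376) (c (l 69491231127) (l 71101844151))) (b (c (l 43721427175) (l 44795169127)) (l 4)))) (c (a (b (l 16777848) (l 15267268871)) (a (b (l 16777120) (b (l 74859939351) (l 109756548999))) (b (c (l 48016394199) (l 49627006951)) (l 4)))) (a (c (l 16778336) (c (l 16778176) (l 16778176))) (a (b (l 16777144) (b (l 84523615751) (l 112977774599))) (b (c (l 54458844999) (l 58216941367)) (l 4))))))) (b (b (c (a (l 16778128) (a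 (c (l 39963330759) (l 40500201751)) (b (l 80765520855) (l 4)))) (a (l 16778528) (a (b (l 21172849255) (c (l 74859939719) (l 89892324919))) (c (l 121030837047) (l 123715191591))))) (a (c (c (a (l 16778520) (l 65196263767)) (a (l 16778568) (l 66806876775))) (c (a (l 16778592) (b (l 57143199543) (l 111367161591))) (a (l 16778280) (b (l 75396810055) (l 112977774535))))) (l 4))) (a (a (b (c (c (l 87744842183) (l 122104580247)) (c (l 124252062583) (l 126936417127))) (l 4)) (l 4)) (l 4)))))), by decide +kernel⟩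

def k20_mm_202 : ∃ t, chk3 f_mm_202 t 244 143 1 = true :=
  ⟨(a (b (a (c (b (l 16777960) (a (l 16777384) (b (l 16776560) (c (l 16778456) (l 21172849031))))) (c (b (l 16775320) (a (l 16776160) (b (l 16777952) (c (l 16778216) (l 22783461511))))) (b (l 16775368) (a (l 16776192) (b (l 16776664) (c (l 23857203367) (l 25467816103))))))) (b (a (c (l 16778392) (c (l 16776504) (l 16777840))) (b (c (l 16778224) (c (l 16778288) (l 16778312))) (c (a (c (l 16777952) (l 16778320)) (c (l 73786198503) (l 75396811511))) (c (a (l 32447138023) (l 78081166071)) (a (l 37278976087) (b (l 89892324999) (l 111367161847))))))) (c (c (a (b (c (l 33520879687) (l 34057750647)) (l 122104579079)) (l 140895061767)) (a (b (a (l 16778496) (l 57143200247)) (l 121567708199)) (l 139284449079))) (a (a (c (b (l 16777216) (l 82913004343)) (b (l 16777240) (l 88818584183))) (b (c (b (l 16777424) (l 104387839591)) (b (l 16777432) (l 104924710887))) (l 4))) (c (l 138747578167) (b (l 134452610343) (l 4))))))) (a (a (b (b (c (l 16778648)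 (c (l 16778392) (l 16778408))) (c (a (c (l 16778360) (l 39963330887)) (c (l 82376133223) (l 84523617079))) (c (a (l 42647685495) (l 87207971719)) (a (l 49627007047) (l 94187293383))))) (a (b (c (l 131231384711) (c (l 130694513815) (l 132841997431))) (l 4)) (l 4))) (b (b (a (c (c (l 59827554663) (l 61975038503)) (c (l 64659393239) (b (l 16777456) (l 111367161975)))) (c (l 131768256871) (c (l 131768255559) (l 133915739175)))) (l 4)) (l 4))) (l 4))) (b (a (a (b (b (a (c (c (l 48016394471) (l 49090136519)) (c (c (l 53385103335) (l 55532586983)) (b (l 16777400) (l 99556001655)))) (c (l 92576681463) (c (l 127473288135) (l 130157642663)))) (l 4)) (l 4)) (l 4)) (l 4)) (l 4))), by decide +kernel⟩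

def k21_mm_202 : ∃ t, chk3 f_mm_202 t 245 71 1 = true :=
  ⟨(b (a (b (a (b (c (c (a (l 16777512) (a (l 16778120) (b (l 16776904) (l 57143199959)))) (a (l 16776256) (a (l 16778168) (b (l 16778256) (a (l 46405781415) (l 75396810919)))))) (c (a (l 16776304) (b (l 16778096) (a (l 16778504) (b (l 16778056) (l 94187292679))))) (a (l 16776328) (b (l 16778120) (a (l 16778520) (b (l 16778064) (l 107072194295))))))) (c (a (b (a (l 16776968) (c (l 35668363399) (l 36205234391))) (a (c (l 61438167319) (b (l 16778056) (l 94724163735))) (b (l 94724164519) (l 4)))) (b (b (c (l 80765520423) (l 83986746087)) (l 4)) (l 4))) (a (a (b (l 16778352) (a (b (l 16778688) (l 95261035479)) (c (l 84523616487) (l 90966067399)))) (b (b (l 16778584) (c (l 66806876151) (l 82913003015))) (c (l 130694513751) (l 132841997383)))) (b (a (c (b (l 81302390743) (l 4)) (l 120493966711)) (l 4)) (l 4))))) (a (b (a (c (b (c (l 31373396023) (l 32447137767)) (b (l 94724164455) (l 4))) (b (b (l 16778536) (c (l 56069457863) (l 73249326631)))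 (c (l 131231384599) (l 133378868231)))) (b (b (c (c (l 67343746919) (l 69491230775)) (c (l 73249327159) (l 92576679319))) (l 4)) (l 4))) (l 4)) (l 4))) (l 4)) (l 4)) (l 4)), by decide +kernel⟩

def k22_mm_202 : ∃ t, chk3 f_mm_202 t 492 140 1 = true :=
  ⟨(b (b (c (c (l 16775904) (l 16775808)) (c (l 16775720) (l 16775648))) (a (c (l 16776160) (l 16776008)) (c (b (l 16777088) (l 16777552)) (c (l 16776648) (c (l 16776664) (l 16776680)))))) (a (b (c (l 16777040) (c (c (l 16776304) (l 16776296)) (l 16776320))) (c (a (c (l 16777704) (l 16777744)) (c (b (l 16778200) (a (c (l 34594620999) (l 34594621031)) (l 79154907431))) (b (l 16778232) (a (b (l 16778504) (l 60364425159)) (b (l 74323068855) (l 4)))))) (a (a (l 16776944) (b (l 16776376) (l 16778296))) (c (b (a (l 16778072) (l 16778128)) (b (a (l 16777216) (l 75933681751)) (a (l 63048779719) (l 4)))) (b (c (l 16778280) (l 16778280)) (b (a (l 16777224) (l 81302390695)) (a (l 66806876103) (l 4)))))))) (b (a (c (c (b (l 16776440) (a (l 16776872)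 (c (l 30836524551) (l 30836524583)))) (a (l 16776592) (b (l 16776688) (b (l 16778464) (l 55532586727))))) (a (c (l 16776624) (l 16776648)) (a (c (l 16778232) (c (l 16778248) (l 16778248))) (b (l 16776824) (b (l 16778256) (b (l 79691778471) (l 4))))))) (a (c (b (c (l 16777704) (l 16777736)) (b (c (l 67343746823) (l 68954359671)) (l 4))) (b (c (l 16777760) (l 16778104)) (b (c (l 70564972567) (l 73786198023)) (l 4)))) (b (c (c (b (l 16777944) (l 80765519687)) (b (l 16777968) (l 82376132615))) (c (b (l 34057750199) (l 84523616263)) (b (l 36742104775) (l 88281712631)))) (l 4)))) (a (b (c (b (a (c (l 16777976) (l 37815846599)) (l 94724164279)) (c (l 131768255399) (l 130157642695))) (a (c (b (l 39963330279) (l 89892325447)) (b (l 42647684855) (l 96334776215))) (b (c (l 97408518247) (l 104924710791)) (l 4)))) (l 4)) (l 4))))), by decide +kernel⟩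

def k23_mm_202 : ∃ t, chk3 f_mm_202 t 493 280 1 = true :=
  ⟨(a (b (c (c (b (l 16777384) (a (l 16776224) (a (l 16776792) (a (l 16777096) (l 33520879175))))) (a (l 16777264) (b (l 16776408) (a (l 16776824) (c (l 23857202615) (l 23857202647)))))) (c (a (l 16777256) (a (l 16776544) (b (l 16776632) (b (l 16777096) (l 42647684839))))) (c (a (l 16775968) (a (l 16776560) (a (l 16778168) (b (l 16776744) (l 36742104631))))) (a (l 16775984) (b (l 16777768) (a (l 16776872) (a (l 16777160) (l 38889588231)))))))) (c (a (c (b (l 16778120) (a (c (l 27078428087) (l 27078428135)) (b (l 62511908567) (l 4)))) (b (l 16778152) (a (b (l 16778424) (l 50163877575)) (b (l 63585650487) (l 4))))) (b (b (c (a (l 16777904) (l 90966067031)) (a (l 16777936) (l 123715192775))) (a (c (l 75933681431) (l 77007423431)) (l 4))) (l 4))) (a (c (b (l 16778184) (a (b (l 16777136) (l 51774490487)) (b (l 65196263399) (l 4)))) (b (l 16778200) (b (a (l 16777144) (c (l 82913002663) (l 87744840855))) (a (c (l 59827553671) (l 63048778967))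 (l 4))))) (b (a (c (b (l 16778040) (l 79154907095)) (b (l 30836524663) (l 81302390887))) (b (c (l 94724163687) (l 96334776407)) (l 4))) (l 4))))) (b (c (a (a (c (b (l 16778288) (b (l 57680070295) (l 94187292567))) (b (l 16778320) (b (l 58753812231) (l 130157643863)))) (b (b (c (l 16777872) (l 16777904)) (c (l 71101843207) (l 72175585175))) (l 4))) (a (b (c (l 130694513479) (l 128547029863)) (l 4)) (l 4))) (a (a (c (b (l 16778344) (b (c (l 60901295671) (l 63585650199)) (l 129620771639))) (b (l 16778352) (b (c (l 66270004743) (l 81302389863)) (l 131768255271)))) (b (b (c (l 16777920) (l 16777928)) (c (l 74323068823) (c (l 82376132087) (l 94187291895)))) (l 4))) (b (a (b (c (l 87207970871) (l 90429196327)) (l 4)) (l 4)) (l 4)))) (l 4))), by decide +kernel⟩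

def k24_mm_202 : ∃ t, chk3 f_mm_202 t 493 281 1 = true :=
  ⟨(a (a (a (b (b (b (c (l 94724164215) (c (l 96871647303) (l 104387839815))) (l 4)) (l 4)) (l 4)) (l 4)) (l 4)) (l 4)), by decide +kernel⟩

def k25_mm_202 : ∃ t, chk3 f_mm_202 t 246 141 1 = true :=
  ⟨(a (b (a (b (c (a (b (a (c (l 16777784) (l 16778144)) (b (a (l 16778272) (l 69491231079)) (l 94187293447))) (a (c (l 82913003879) (l 83986745735)) (l 4))) (a (c (l 142505674247) (l 140358190647)) (l 4))) (a (b (c (a (l 16778168) (b (l 45868910327) (l 97408518279))) (a (l 16877881239) (b (l 49627006711) (l 104924710823)))) (a (a (c (l 83449874663) (l 87207971031)) (l 4)) (l 4))) (a (b (c (l 132841998695) (l 131768255559)) (l 4)) (l 4)))) (l 4)) (l 4)) (l 4)) (l 4)), by decide +kernel⟩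

def k26_mm_202 : ∃ t, chk3 f_mm_202 t 247 70 1 = true :=
  ⟨(l 4), by decide +kernel⟩

def k27_mm_202 : ∃ t, chk3 f_mm_202 t 123 71 1 = true :=
  ⟨(l 4), by decide +kernel⟩

def k28_mm_202 : ∃ t, chk3 f_mm_202 t 31 17 1 = true :=
  ⟨(a (b (a (b (l 6) (a (b (b (l 6) (b (l 6) (l 4))) (l 4)) (l 4))) (l 4)) (l 4)) (l 4)), by decide +kernel⟩

def k29_mm_202 : ∃ t, chk3 f_mm_202 t 28 18 1 = true :=
  ⟨(b (a (b (l 16727456) (l 16733976)) (b (a (l 16717856) (l 16746640)) (a (l 16745448) (l 16753312)))) (a (b (l 16740456) (l 16746896)) (a (b (l 16752024) (l 16758552)) (b (l 16754704) (a (l 16764520) (l 16758072)))))), by decide +kernel⟩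

def k30_mm_202 : ∃ t, chk3 f_mm_202 t 29 36 1 = true :=
  ⟨(a (a (b (c (l 16734856) (l 16732488)) (c (l 16751912) (l 16749880))) (b (c (l 16753312) (l 16748768)) (b (l 16757440) (l 16762784)))) (a (b (c (b (l 16759816) (l 16763160)) (b (l 16758248) (l 16761768))) (b (c (l 16766496) (l 16765272)) (c (l 16769816) (l 16767448)))) (a (b (b (l 16762816) (c (l 16758936) (l 16757880))) (b (c (l 16767536) (l 16766648)) (c (l 16770872) (l 16770152)))) (b (b (c (l 16765048) (l 16764056)) (c (l 16768424) (l 16767600))) (b (c (l 16771792) (l 16771128)) (c (l 16775144) (l 16774648))))))), by decide +kernel⟩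

def k31_mm_202 : ∃ t, chk3 f_mm_202 t 58 37 1 = true :=
  ⟨(b (c (a (l 16758440) (b (l 16764880) (l 16768152))) (a (l 16756728) (b (l 16763528) (l 16766968)))) (a (c (l 16764920) (l 16763528)) (c (b (l 16771424) (l 16774680)) (b (l 16770392) (l 16768560))))), by decide +kernel⟩

def k32_mm_202 : ∃ t, chk3 f_mm_202 t 118 37 1 = true :=
  ⟨(b (b (a (l 16770528) (a (l 16768496) (l 16770648))) (c (l 16771840) (l 16773072))) (a (b (l 16774640) (c (l 16775648) (l 16775104))) (b (c (l 16775920) (a (l 16774992) (l 16777400))) (a (b (l 16777888) (c (l 16780216) (l 16779200))) (b (c (c (l 16778120) (l 16778288)) (c (l 16779728) (a (l 16780376) (l 16779256)))) (a (c (b (l 16776680) (a (l 16780112) (b (l 16780256) (l 130694519447)))) (b (l 16779528) (a (c (l 16777640) (l 16777680)) (b (l 70564975703) (l 134989481447))))) (b (c (a (l 48553268983) (b (l 89355458295) (l 4))) (a (c (l 54995718455) (l 75396811431)) (b (l 96871651239) (l 4)))) (c (l 133378870071) (c (l 131768257303) (l 133915740855)))))))))),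 by decide +kernel⟩

def k33_mm_202 : ∃ t, chk3 f_mm_202 t 119 74 1 = true :=
  ⟨(a (b (c (l 16774200) (l 16773640)) (b (c (l 16776688) (l 16776248)) (a (l 16777056) (a (l 16778936) (c (l 16777736) (l 16775352)))))) (b (a (c (l 16777400) (l 16777016)) (b (c (l 16778720) (l 16778592)) (b (c (l 16776288) (l 16776504)) (a (c (l 16775440) (l 16775656)) (c (c (a (l 16776560) (l 16778632)) (l 19025366887)) (a (l 16779424) (c (l 33520881383) (c (l 38352719159) (l 41573944567))))))))) (a (b (c (l 16777584) (b (l 16774584) (l 16779416))) (a (a (c (l 16778912) (l 16779120)) (b (c (l 16776448) (l 16779264)) (c (b (l 16779984) (l 70564975559)) (c (l 48016396407) (b (l 16777528) (l 90966068279)))))) (a (c (b (l 16779840) (a (l 83986749063) (l 128010159847))) (b (c (l 16777352) (l 16777392)) (c (l 121567708599) (l 124252063095)))) (b (c (b (l 16779568) (l 119957100903)) (b (c (l 16777680) (l 16777688)) (a (l 101166617399) (l 109219679975)))) (l 4))))) (b (a (c (b (l 16779312) (a (c (l 16778752) (l 37815848791))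 (b (l 73249330151) (l 125325805287)))) (b (c (l 16779464) (l 16779520)) (a (c (l 41037074375) (b (l 16777392) (l 81839262535))) (b (c (l 94724164215) (l 96871648487)) (l 128547030711))))) (b (b (c (a (l 16778824) (l 93113554215)) (a (c (l 16777608) (l 16777624)) (a (l 99019133799) (l 4)))) (a (c (c (l 82913005303) (l 87744843559)) (a (l 91502941175) (l 110830292375))) (l 4))) (l 4))) (a (b (a (c (l 132305127351) (b (l 133378869991) (l 4))) (l 4)) (l 4)) (l 4)))))), by decide +kernel⟩

def k34_mm_202 : ∃ t, chk3 f_mm_202 t 119 75 1 = true :=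
  ⟨(a (b (a (c (a (l 16776792) (b (l 16779720) (b (l 16776360) (a (l 16779832) (b (l 16780232) (l 90429199991)))))) (b (l 16779232) (a (l 16778304) (b (l 16779208) (a (l 16780008) (b (l 16779696) (l 96871651255))))))) (b (c (a (l 16778672) (b (l 16779680) (b (a (l 16780120) (l 117809617207)) (a (l 79691781239) (l 4))))) (a (c (l 16778856) (l 16778928)) (b (c (l 16779752) (l 16779152)) (b (a (l 16780256) (l 97945392951)) (c (l 121030837751) (l 123715192231)))))) (a (a (b (c (l 34594624519) (c (l 16778920) (l 44258299863))) (c (l 128010159927) (b (l 131768255831) (l 4)))) (b (c (b (l 64659395527) (l 130694519527)) (c (l 82376135831) (l 116198999143))) (l 4))) (a (a (b (c (l 125325805575) (l 128010160087)) (l 4)) (l 4)) (l 4))))) (a (b (a (b (c (c (l 16779816) (l 16779296)) (c (l 29225914951) (a (l 16777136) (l 70564972695)))) (a (c (b (l 16780312) (l 93650425495)) (b (l 59827557415) (l 99556005831))) (c (l 129620772871) (b (l 133915739671) (l 4))))) (b (a (c (b (l 77544297719) (l 128547036071))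 (c (l 118883353943) (l 121567708439))) (l 4)) (l 4))) (l 4)) (l 4))) (b (a (b (a (b (a (c (b (l 55532589783) (l 128010164775)) (b (c (l 16778936) (l 81302391511)) (l 134452610439))) (c (l 131231385719) (b (l 132841997943) (l 4)))) (l 4)) (l 4)) (l 4)) (l 4)) (l 4))), by decide +kernel⟩

def k35_mm_202 : ∃ t, chk3 f_mm_202 t 28 19 1 = true :=
  ⟨(a (b (a (c (l 16753944) (l 16751304)) (b (l 16757184) (l 16763584))) (b (a (l 16762096) (l 16769952)) (a (l 16768376) (l 16765800)))) (b (a (b (l 16759808) (l 16766264)) (b (c (l 16763376) (l 16761856)) (c (l 16769736) (l 16768512)))) (a (b (l 16767440) (c (l 16774400) (l 16773296))) (b (b (l 16773960) (c (l 16777640) (l 16776760))) (a (b (l 16778320) (c (l 16782848) (l 16780856))) (a (b (l 16780088) (b (l 16783800) (a (c (l 16782576) (l 16782968)) (b (c (l 16783288) (l 16778272)) (c (l 94187300551) (l 125862676455)))))) (b (c (l 16780176) (l 16780680)) (b (a (c (l 16781712) (c (l 16780664) (l 45868915671))) (b (c (l 68417495767) (c (l 89355457239)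 (l 94187295735))) (c (l 130157644583) (l 133915740823)))) (a (c (l 129083903207) (b (l 134452611367) (l 4))) (l 4)))))))))), by decide +kernel⟩

def k36_mm_202 : ∃ t, chk3 f_mm_202 t 58 38 1 = true :=
  ⟨(a (b (c (l 16771368) (l 16770280)) (b (l 16775728) (c (l 16776752) (a (l 16776512) (l 16778960))))) (b (a (c (l 16774848) (l 16774096)) (b (l 16776384) (c (b (l 16777168) (l 16780680)) (a (l 16777000) (b (l 16773544) (l 16779936)))))) (a (b (c (l 16777056) (a (l 16781144) (l 16779568))) (a (b (l 16779088) (a (l 16781136) (c (l 16781096) (c (l 16780032) (l 26541562023))))) (b (b (c (l 16776376) (l 16781960)) (a (l 16782280) (c (a (l 16780464) (l 90429201959)) (c (l 67343751383) (l 83986747751))))) (a (b (c (l 50700754295) (c (l 56606332615) (l 75933683415))) (c (l 124252063943) (a (l 119420228295) (l 4)))) (b (c (l 130157644439) (a (l 134452611095) (l 4))) (l 4)))))) (b (a (b (c (l 16780328) (l 16780688)) (a (c (l 16779424) (c (l 16779672) (l 16779768))) (c (b (l 38352722359) (a (l 77544299543)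 (l 130157649351))) (b (c (l 16780432) (l 67880618375)) (c (l 119957096183) (l 122641450647)))))) (b (b (a (c (l 16776768) (l 16777056)) (c (a (l 16780408) (l 115125262919)) (a (l 54458849639) (b (l 96871650791) (l 112977777367))))) (a (c (c (l 16779952) (l 50163881559)) (a (l 16777784) (b (l 16777832) (l 117809615511)))) (c (l 130694515367) (a (l 133378869271) (l 4))))) (a (a (b (c (l 122104584999) (l 128010162359)) (l 4)) (l 4)) (l 4)))) (a (b (a (b (c (a (l 63048784375) (l 127473294343)) (c (l 81302395559) (l 112977775207))) (c (l 128547032183) (l 128547032055))) (l 4)) (l 4)) (l 4)))))), by decide +kernel⟩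

def k37_mm_202 : ∃ t, chk3 f_mm_202 t 58 39 1 = true :=
  ⟨(a (b (a (b (l 16780272) (c (a (l 16778200) (a (l 16775248) (a (l 16781624) (b (l 16775904) (l 55532593895))))) (b (l 16778992) (a (l 16779960) (a (l 16782136) (a (l 16781144) (b (l 16777960) (l 112440907047)))))))) (b (a (c (l 16779304) (l 16779768)) (b (c (l 16781112) (l 16781504)) (b (a (l 16782400) (c (l 62511915191) (a (l 16778088) (l 104387845079)))) (a (c (l 52311367191) (c (l 60364429095) (l 77544296727))) (c (a (l 130694514823) (l 4)) (l 133915740727)))))) (a (b (a (c (l 16782264) (l 16779992)) (c (b (l 16780432) (l 115125265927)) (b (l 44795174279) (a (l 104924713303) (l 126399547655))))) (a (b (c (l 78081172295) (a (l 93113552919) (l 117809616711))) (c (l 129620779287) (l 128010161159))) (l 4))) (b (a (b (c (l 124252071847) (a (l 119957099751) (l 126399548071))) (l 4)) (l 4)) (l 4))))) (a (b (a (b (c (l 16781936) (c (l 16782272) (l 16781096))) (a (b (c (l 16782968) (l 16778024)) (c (l 80765526631) (a (l 95797908167)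 (l 118346487959)))) (b (c (l 117272749655) (a (l 109756552519) (l 126399547719))) (l 4)))) (b (a (c (b (l 16780648) (l 125862684647)) (b (c (l 16778064) (l 81839264007)) (l 131768256727))) (c (l 131231387239) (b (l 133915740759) (l 4)))) (l 4))) (a (b (a (c (l 131231387751) (b (l 128010161207) (l 4))) (l 4)) (l 4)) (l 4))) (l 4))) (b (a (b (a (b (b (a (c (l 16780104) (l 16780376)) (c (a (l 79154912327) (l 129083902279)) (a (l 101166616823) (l 126936418535)))) (a (c (b (l 66806881175) (l 94187298695)) (a (l 75396815751) (l 134989481831))) (l 4))) (a (c (l 132842000423) (b (l 128547032039) (l 4))) (l 4))) (l 4)) (l 4)) (l 4)) (l 4))), by decide +kernel⟩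

def k38_mm_202 : ∃ t, chk3 f_mm_202 t 59 19 1 = true :=
  ⟨(b (a (b (a (b (a (c (l 16777856) (l 16775504)) (b (c (l 16779608) (l 16779928)) (a (c (l 16776088) (l 16781616)) (c (b (l 16779624) (a (l 47479527239) (b (l 84523619415) (l 125325805495)))) (b (l 16779864) (a (c (l 16777840) (l 73249328311)) (b (l 97408522151) (l 127473289079)))))))) (a (a (b (c (l 16775496) (l 16775808)) (b (a (l 16781056) (c (l 16780288) (l 42647689239))) (c (a (l 62511913367) (l 128010165255)) (a (c (l 83449875767) (l 86671101879)) (l 134452613511))))) (b (b (l 16781824) (c (a (l 16779872) (l 54995720295)) (c (l 42110817223) (a (l 16777512) (l 79691779623))))) (b (c (a (l 80765524839) (l 129083907559)) (c (l 119957096199) (l 122641450663))) (l 4)))) (b (a (a (c (b (l 16780144) (l 121567714103)) (b (l 16780336) (b (l 117809614839) (l 4)))) (b (c (l 70028106231) (b (l 70564975847) (l 116735873367))) (l 4))) (b (c (l 132305128151) (a (l 132841999719) (l 4))) (l 4))) (l 4)))) (b (a (b (b (b (c (l 16779152) (l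 16780056)) (a (l 16781776) (c (l 51237623703) (a (l 16777680) (l 96871651239))))) (c (a (l 16779912) (b (l 82376137527) (l 130157644071))) (a (c (l 16780080) (l 32447140615)) (a (b (l 82376135671) (l 127473288871)) (l 128010160471))))) (a (b (c (a (l 63048784215) (l 129083901879)) (a (b (l 16777848) (l 117809614679)) (b (l 116199002295) (l 4)))) (l 4)) (l 4))) (b (a (a (b (b (c (l 94187296535) (l 101703489287)) (l 4)) (l 4)) (l 4)) (l 4)) (l 4))) (l 4))) (a (b (a (b (a (b (c (l 130157644951) (a (l 127473289703) (l 4))) (l 4)) (l 4)) (l 4)) (l 4)) (l 4)) (l 4))) (l 4)) (l 4)), by decide +kernel⟩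

def k39_mm_202 : ∃ t, chk3 f_mm_202 t 120 72 1 = true :=
  ⟨(a (b (c (l 16769336) (l 16769880)) (c (c (l 16772880) (l 16772568)) (l 16770816))) (a (b (b (l 16771408) (l 16773152)) (c (l 16773352) (l 16772936))) (b (c (l 16772144) (l 16771672)) (c (b (l 16774696) (l 16776392)) (b (l 16774352) (l 16776128)))))), by decide +kernel⟩

def k40_mm_202 : ∃ t, chk3 f_mm_202 t 240 73 1 = true :=
  ⟨(b (c (c (l 16774904) (l 16774672)) (b (l 16774784) (l 16776552))) (a (b (l 16776032) (a (l 16777184) (c (l 16777152) (l 16777368)))) (b (c (l 16777080) (c (l 16775872) (l 16775296))) (a (b (c (l 16775488) (l 16775672)) (c (c (l 16779304) (l 16779408)) (c (l 16779480) (l 7751077447)))) (a (c (b (l 16776672) (b (l 44258300055) (l 92039812039))) (b (l 16779448) (b (c (l 51774491479) (l 71101843351)) (a (l 96871650055) (l 4))))) (b (c (c (l 34594622983) (c (l 35131493687) (l 36205235575))) (b (l 16779896) (c (l 63585651831) (l 79154907527)))) (a (c (l 130694514295) (b (l 96871650119) (l 4))) (l 4)))))))),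 by decide +kernel⟩

def k41_mm_202 : ∃ t, chk3 f_mm_202 t 241 73 1 = true :=
  ⟨(b (a (c (a (l 16776520) (a (l 16777008) (b (l 16776712) (l 16779032)))) (a (l 16776072) (a (b (l 16773264) (l 16778248)) (b (l 16776568) (c (l 16778992) (l 16779040)))))) (b (a (c (l 16776240) (l 16776416)) (c (b (l 16778520) (a (l 16779368) (b (l 16778528) (a (l 54458846919) (l 93113553015))))) (b (l 16778664) (a (l 16779496) (c (b (l 16777304) (l 72712457751)) (b (l 16777336) (a (l 77544294567) (l 116735871559)))))))) (a (a (b (c (l 16776416) (l 16776560)) (c (b (l 16778968) (c (l 74323070439) (l 77007425111))) (b (c (l 16777416) (l 16777440)) (c (l 81302392407) (l 99556002391))))) (b (c (c (b (l 16779472) (l 16778736)) (l 23857204455)) (b (l 16779640) (c (l 43721427991) (l 49627007895)))) (b (c (l 88281715495) (c (l 123178321015) (l 125862675527))) (l 4)))) (a (b (c (b (c (l 53921975399) (l 52848233735)) (l 131231384967)) (b (c (l 56069459239) (c (l 72712456359) (l 76470552727))) (c (l 132841997703) (l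 134989481303)))) (l 4)) (l 4))))) (a (b (b (c (a (l 16778768) (a (c (l 28689042727) (c (l 29225913271) (l 29762784423))) (b (c (l 61975039287) (l 64659393991)) (l 130157643303)))) (a (l 16778928) (a (b (l 16779768) (c (l 52848233607) (l 60901297031))) (b (c (l 69491232135) (l 89892325623)) (c (l 131231385127) (l 133378868727)))))) (a (c (a (l 16779616) (b (l 36205236183) (l 83449877287))) (a (c (l 16779728) (l 16778456)) (b (c (l 16778832) (l 46405782407)) (c (l 89355456343) (l 104387841095))))) (b (a (c (l 125325806135) (a (l 96334779047) (l 4))) (l 4)) (l 4)))) (a (a (b (b (c (c (l 70028103127) (l 72712457911)) (c (l 78618037783) (l 95261035191))) (l 4)) (l 4)) (l 4)) (l 4))) (l 4))), by decide +kernel⟩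

def k42_mm_202 : ∃ t, chk3 f_mm_202 t 242 72 1 = true :=
  ⟨(b (a (c (l 16774992) (l 16775296)) (c (b (l 16775696) (c (l 16776808) (l 16776688))) (b (l 16775408) (a (l 16775312) (a (l 16777744) (b (l 16775288) (l 16778480))))))) (a (b (c (l 16776896) (c (l 16775400) (l 16775416))) (a (b (c (l 16777616) (l 16775144)) (c (l 16778856) (c (l 16776344) (l 16779008)))) (b (c (c (l 16778488) (l 16778568)) (c (a (l 16778904) (l 16778688)) (c (l 16778664) (l 16778680)))) (b (c (a (l 16778416) (c (l 71638715687) (l 73786199575))) (a (l 16779176) (c (a (l 70028102135) (l 110293420599)) (a (l 83449874583) (l 133915739207))))) (a (c (c (l 59290684567) (l 60901297447)) (a (c (l 16777528) (l 16778848)) (c (l 104924711127) (l 110830291207)))) (l 4)))))) (b (a (c (a (l 16777192) (b (l 16778680) (b (l 16776992) (a (l 16778704) (l 76470554343))))) (b (l 16778416) (b (l 16778680) (a (l 16779560) (a (c (l 16777456) (l 16777472)) (c (l 85597358727) (l 99019131159))))))) (a (b (c (c (l 16778120) (l 16778192))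 (c (l 16778248) (l 16778280))) (b (c (c (l 64122522759) (a (l 51774491191) (l 95261035559))) (c (a (l 61438167143) (l 101703486343)) (a (l 75396810519) (l 114051516951)))) (l 4))) (b (c (b (c (l 16778592) (l 29762783895)) (c (l 77007424807) (a (l 72712457079) (l 128547030247)))) (c (b (l 31373396711) (a (l 81302391271) (l 130157642983))) (b (c (l 36205234455) (l 38889589031)) (a (l 93650421975) (l 130157642935))))) (l 4)))) (a (b (a (c (b (c (l 35668363991) (l 37278976855)) (c (l 83986746823) (l 118883356295))) (b (c (l 38889589751) (c (l 45332040135) (l 48016394711))) (c (l 121567708231) (l 124252062743)))) (b (c (l 131231386231) (c (l 131768255831) (l 134989481255))) (l 4))) (l 4)) (l 4))))), by decide +kernel⟩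

def k43_mm_202 : ∃ t, chk3 f_mm_202 t 243 144 1 = true :=
  ⟨(a (b (c (b (l 16777488) (a (l 16777784) (a (l 16778904) (a (l 16778848) (b (l 16776968) (a (l 45332040759) (l 73249328407))))))) (c (a (l 16777208) (a (l 16777728) (b (l 16775928) (a (l 16778272) (b (l 16777048) (l 58216942119)))))) (b (c (l 16777416) (l 16777440)) (a (l 16775256) (a (l 16777728) (a (l 16778304) (b (l 16777072) (l 67343747287)))))))) (a (b (c (c (l 16778920) (l 16778344)) (c (l 16778400) (a (l 16778704) (l 16778168)))) (b (a (c (l 16776880) (l 16778288)) (a (c (c (l 16778712) (l 16778768)) (c (l 16778464) (l 54458845335))) (c (l 84523617975) (c (l 91502938871) (l 104387840391))))) (a (a (c (l 16778608) (c (l 16777360) (l 16777384))) (c (c (l 65196264039) (l 67880618807)) (c (l 73249327767) (l 90429196279)))) (c (l 133915740903) (c (l 131231385047) (l 133378868663)))))) (b (b (c (a (c (l 16778488) (l 16778552)) (a (c (l 78081166039) (l 80765520711)) (l 4))) (a (c (l 16778592) (l 26004687431)) (c (a (l 85060488007)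 (l 4)) (l 123178321559)))) (a (c (c (l 70028102791) (a (l 63048780375) (l 129083901015))) (a (c (l 63585651303) (l 81302390887)) (c (l 131231384663) (l 134452610087)))) (l 4))) (l 4)))) (b (a (a (b (c (l 16778600) (c (l 16778024) (l 16778056))) (a (c (b (l 31910267895) (l 92576681703)) (b (c (l 16778720) (l 16778080)) (c (l 130694513671) (l 133915739111)))) (b (c (c (l 73249327751) (l 75933682439)) (c (l 80228649735) (l 95797905495))) (l 4)))) (b (c (a (b (l 16776920) (a (l 39426460583) (l 67343748311))) (b (l 27078429591) (l 92576681623))) (c (b (l 16778488) (a (l 52848232967) (l 97945389927))) (b (l 16778512) (a (l 60901296327) (l 130157642647))))) (l 4))) (a (a (b (b (c (c (l 68954360311) (l 71101844151)) (c (l 74859940535) (l 80765520551))) (l 4)) (l 4)) (b (l 4) (l 4))) (l 4))) (l 4))), by decide +kernel⟩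

def k44_mm_202 : ∃ t, chk3 f_mm_202 t 243 145 1 = true :=
  ⟨(a (b (a (a (a (b (b (c (l 88818585351) (b (l 94187294247) (l 4))) (l 4)) (l 4)) (l 4)) (l 4)) (l 4)) (l 4)) (l 4)), by decide +kernel⟩

def k45_mm_202 : ∃ t, chk3 f_mm_202 t 121 73 1 = true :=
  ⟨(a (b (a (b (a (a (b (c (c (l 16778344) (l 16778752)) (b (l 16779520) (c (l 35131493223) (l 39426460487)))) (b (c (c (l 78618037671) (l 114588386263)) (c (l 117272740823) (l 119957095335))) (l 4))) (b (a (c (b (l 16778664) (l 92039811191)) (b (l 16779080) (c (l 107609066023) (l 111904033591)))) (b (c (l 69491232567) (c (l 80228649527) (l 94187292887))) (l 4))) (l 4))) (a (b (b (c (l 131768255975) (c (l 131231385079) (l 133378868679))) (l 4)) (l 4)) (l 4))) (l 4)) (l 4)) (l 4)) (l 4)), by decide +kernel⟩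

def k46_mm_202 : ∃ t, chk3 f_mm_202 t 60 37 1 = true :=
  ⟨(a (b (a (b (a (b (b (a (l 16778888) (c (l 16779040) (l 16779208))) (c (a (l 16776088) (a (c (l 16778504) (l 16778608)) (b (l 52848234951) (l 126936417655)))) (a (l 16778896) (a (c (l 16778672) (l 29762784839)) (b (c (l 60364426407) (l 78081165591)) (a (l 97408521127) (l 4))))))) (a (a (b (c (l 16779568) (l 16779720)) (c (b (l 61438169943) (l 128547030567)) (b (c (l 70564973863) (l 83986746151)) (a (l 94724167063) (l 4))))) (b (c (c (l 46942654583) (c (l 48016395975) (l 49090137831))) (b (l 33520881783) (a (l 72175587895) (l 97408521207)))) (l 4))) (a (b (b (c (l 87744844583) (a (l 94187295607) (l 127473288583))) (l 4)) (l 4)) (l 4)))) (b (a (a (b (c (c (l 40500203207) (c (l 41573944823) (l 42647686711))) (b (l 16778704) (c (l 75933683175) (l 91502938935)))) (c (l 132841999735) (c (l 131231385687) (l 133378869271)))) (b (b (c (l 79691780983) (c (l 87744843447) (l 101166615703))) (l 4)) (l 4))) (l 4)) (l 4))) (l 4)) (l 4)) (l 4))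 (l 4)), by decide +kernel⟩

def k47_mm_202 : ∃ t, chk3 f_mm_202 t 61 18 1 = true :=
  ⟨(l 4), by decide +kernel⟩

def k48_mm_202 : ∃ t, chk3 f_mm_202 t 30 19 1 = true :=
  ⟨(l 4), by decide +kernel⟩

def k49_mm_202 : ∃ t, chk3 f_mm_202 t 31 9 1 = true :=
  ⟨(l 4), by decide +kernel⟩

def k50_mm_202 : ∃ t, chk3 f_mm_202 t 12 10 1 = true :=
  ⟨(b (a (c (l 16671080) (l 16666432)) (b (l 16716936) (l 16728048))) (a (l 16720816) (b (l 16739352) (l 16750800)))), by decide +kernel⟩

def k51_mm_202 : ∃ t, chk3 f_mm_202 t 13 20 1 = true :=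
  ⟨(a (b (b (l 16745216) (l 16751080)) (a (l 16731016) (l 16746760))) (a (b (l 16758160) (l 16766376)) (b (b (l 16762832) (l 16768992)) (b (l 16773840) (a (l 16777336) (c (l 16786448) (l 16782416))))))), by decide +kernel⟩

def k52_mm_202 : ∃ t, chk3 f_mm_202 t 26 21 1 = true :=
  ⟨(a (b (l 16742816) (l 16754696)) (b (l 16758784) (b (l 16767840) (l 16776816)))), by decide +kernel⟩

def k53_mm_202 : ∃ t, chk3 f_mm_202 t 27 21 1 = true :=
  ⟨(a (b (b (l 16771616) (a (l 16773712) (l 16784336))) (c (a (b (l 16782232) (l 16781680)) (b (a (l 16769656) (l 16785728)) (a (b (l 16787408) (a (l 16784560) (b (l 16786720) (l 121567713191)))) (b (a (l 71101860935) (l 129083905511)) (l 134452619655))))) (a (a (l 16786160) (b (l 16765680) (l 16785816))) (b (a (l 16792096) (a (l 16785616) (b (l 16775424) (l 47479537783)))) (a (b (l 16788528) (a (b (l 16779616) (l 111367170983)) (b (l 115125267767) (l 123178325431)))) (b (a (b (l 16779640) (l 116735881047)) (b (l 135526354775) (l 125325810231))) (a (l 126936423959)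 (l 4)))))))) (b (a (b (l 16783032) (a (l 16787488) (b (l 16785360) (b (c (l 16788264) (l 16783832)) (a (l 16786864) (c (l 94187307783) (l 120493973879))))))) (b (a (c (l 16783048) (l 16784144)) (b (c (l 16786296) (c (l 16787024) (l 16782096))) (a (b (l 16786192) (c (l 75933694807) (a (l 16778664) (l 116199008263)))) (b (c (l 86134243463) (a (l 103850973207) (l 136063225223))) (c (l 125862690871) (l 126936421767)))))) (a (c (b (a (l 16783496) (b (l 16783680) (l 131231388103))) (a (b (l 125862678359) (l 4)) (l 4))) (b (a (b (l 16778040) (l 82913007031)) (b (a (l 16779240) (l 114588394935)) (l 134989484183))) (a (b (l 133915741847) (l 4)) (l 4)))) (b (a (b (c (l 129620776055) (l 125325808375)) (l 4)) (l 4)) (l 4))))) (a (b (a (c (b (c (l 16783080) (l 35131505479)) (a (b (l 16778608) (l 131768259111)) (b (l 130157646983) (l 4)))) (b (a (l 16777928) (b (l 16779072) (l 102777233895))) (a (b (l 96334782455) (l 135526355207)) (b (l 124252066567) (l 4))))) (b (a (b (c (l 88818598887) (l 102240368647))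 (c (l 125862680343) (l 124252067127))) (b (c (l 124788939207) (l 126399551415)) (l 4))) (l 4))) (l 4)) (l 4)))), by decide +kernel⟩

def k54_mm_202 : ∃ t, chk3 f_mm_202 t 12 11 1 = true :=
  ⟨(b (a (b (l 16707056) (l 16746336)) (b (l 16762424) (b (l 16776632) (l 16786224)))) (a (b (l 16764864) (l 16794032)) (b (a (l 16770024) (b (l 16784400) (a (l 16768040) (c (l 16797264) (l 16788840))))) (c (a (l 16787384) (a (b (l 16796816) (a (l 16791800) (l 88818621079))) (b (a (l 56069487031) (b (l 91502965239) (l 124252071831))) (a (b (l 129083909127) (l 4)) (l 4))))) (a (l 16795552) (a (b (l 16778120) (a (l 57680098119) (b (l 16782512) (l 119957102007)))) (b (a (b (l 16781584) (l 100092892615)) (b (l 114051530551) (l 121030845239))) (a (b (l 120493973575) (l 4)) (l 4))))))))), by decide +kernel⟩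

def k55_mm_202 : ∃ t, chk3 f_mm_202 t 13 22 1 = true :=
  ⟨(a (a (b (b (l 16765664) (l 16775432)) (b (l 16785216) (a (l 16768752) (b (l 16786864) (c (l 41037096231) (a (l 16779032) (a (l 16780864) (l 114588399767)))))))) (b (c (a (l 16785112) (b (l 16770040) (a (l 16787416) (b (l 16789832) (a (l 92576700935) (l 129620778199)))))) (a (l 16787128) (b (l 16792752) (a (b (l 16776192) (l 16780016)) (b (a (l 16779480) (l 75933694855)) (b (l 116735880935) (l 123715197239))))))) (a (c (b (a (l 16796944) (b (l 16778584) (b (l 16789544) (l 93113573911)))) (b (a (l 76470576247) (a (l 121030844087) (l 4))) (b (l 136063232743) (l 128010172791)))) (b (a (l 16788104) (b (l 16779792) (a (l 94187301047) (l 129620775863)))) (a (b (a (l 16779824) (l 117272755207)) (l 123715203831)) (b (l 126936425095) (l 4))))) (b (c (a (b (a (l 16789512) (l 131231389831)) (a (l 124788941607) (l 4))) (a (l 126936430215) (l 4))) (a (b (a (l 93113569383) (l 123178325655)) (l 127473297175)) (b (l 126936427543) (l 4)))) (l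 4))))) (a (b (a (b (a (b (l 16776496) (a (l 16789880) (b (l 16790016) (c (l 16786440) (l 119420235655))))) (b (a (c (l 16779224) (l 16779928)) (c (l 87744862263) (b (l 16778920) (l 123715195415)))) (a (b (c (l 89892345463) (l 136600096935)) (c (l 123715198327) (l 124788939463))) (l 4)))) (c (a (b (c (l 126936422839) (l 127473296311)) (l 4)) (l 4)) (a (b (a (l 124252071527) (l 126399553159)) (l 4)) (l 4)))) (b (a (b (c (l 134452617543) (a (l 124252068151) (l 4))) (l 4)) (l 4)) (l 4))) (l 4)) (l 4))), by decide +kernel⟩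

def k56_mm_202 : ∃ t, chk3 f_mm_202 t 13 23 1 = true :=
  ⟨(a (a (b (a (c (b (l 16787368) (b (a (l 16780464) (l 120493971239)) (a (l 92039837207) (l 126399557559)))) (b (b (l 16776640) (l 16790952)) (a (b (l 16781512) (l 118883368279)) (b (l 123715206871) (l 125862685303))))) (c (b (a (b (l 16790608) (a (l 88281742087) (l 119957102887))) (b (a (l 89355480023) (l 124252071223)) (l 4))) (a (l 126936433415) (l 4))) (b (a (b (l 70028119351) (a (l 117272757415) (l 121567714775))) (b (a (l 117809616343) (l 124788941159)) (l 4))) (a (b (l 125862686407) (l 4)) (l 4))))) (a (b (a (b (c (l 125325814647) (l 125325813415)) (l 4)) (l 4)) (l 4)) (l 4))) (l 4)) (l 4)), by decide +kernel⟩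

def k57_mm_202 : ∃ t, chk3 f_mm_202 t 56 20 1 = true :=
  ⟨(b (b (a (l 16774632) (l 16777336)) (a (l 16770360) (a (l 16782216) (b (l 16780344) (a (l 16783848) (c (l 16775872) (l 16781768))))))) (a (b (c (l 16777640) (b (l 16786688) (l 16781144))) (c (a (a (l 16783232) (b (l 16773168) (l 34057762663))) (b (a (l 16776056) (b (l 16782880) (a (l 16783560) (l 94187304679)))) (a (b (l 66270017399) (a (l 131768258135) (l 4))) (a (l 130157647863) (l 4))))) (a (a (l 16784208) (b (l 16784592) (a (l 16783248) (b (l 16778160) (l 93650432759))))) (b (a (l 16787320) (b (l 16778232) (a (l 91502941767) (l 133915741079)))) (a (b (a (l 16778936) (l 111904039175)) (a (l 135526354327) (l 4))) (b (l 128010163127) (l 4))))))) (b (a (b (l 16784424) (c (a (l 16782160) (b (l 16783568) (a (l 90429207591) (l 125862678935)))) (c (a (l 16782696) (b (l 53921982295) (l 125325806871))) (a (l 16782912) (b (l 75933684279) (l 128010161207)))))) (b (c (b (a (l 16787104) (a (l 16783648) (l 118346494759))) (a (l 57680081559)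 (l 131231388535))) (a (b (l 16777256) (a (l 16778576) (c (l 99019135767) (l 104387847255)))) (b (a (l 60364433911) (b (l 112440909063) (l 124788935863))) (a (l 126399549015) (l 4))))) (a (b (c (l 129083904087) (a (l 134452612055) (l 4))) (l 4)) (l 4)))) (a (b (c (a (b (a (l 78081174871) (l 131231387303)) (l 128547045687)) (l 4)) (a (b (a (l 100629748407) (l 134452612567)) (l 127473292983)) (l 4))) (l 4)) (l 4))))), by decide +kernel⟩

def k58_mm_202 : ∃ t, chk3 f_mm_202 t 57 20 1 = true :=
  ⟨(b (a (b (a (b (l 16776544) (l 16781264)) (b (c (l 16781824) (l 16782528)) (b (c (l 16780344) (l 16780944)) (a (l 16784280) (a (c (l 16783336) (c (l 16778352) (l 16778416))) (b (c (l 16781320) (l 92039816791)) (c (l 130157644823) (l 125862677367)))))))) (a (b (a (l 16784752) (b (l 16781192) (c (l 35668372103) (c (l 39963337783) (a (l 16777856) (l 82376136471)))))) (c (a (b (l 16782752) (a (l 67880627367) (b (l 95261043511) (l 4)))) (b (a (l 80228658679) (l 131231398151)) (l 4))) (a (b (l 31373404679)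 (a (b (l 16778608) (l 117272747175)) (l 135526354007))) (b (a (b (l 97408521879) (l 126399548103)) (l 125862678311)) (l 4))))) (b (a (c (b (a (l 16782960) (l 70028111111)) (c (l 125862678215) (l 125862679543))) (b (a (l 16778144) (b (l 16778344) (l 119420231047))) (c (l 128547032695) (l 131231392263)))) (a (b (b (c (l 132305128087) (l 136063224359)) (l 4)) (l 4)) (l 4))) (l 4)))) (b (a (b (a (c (l 16781096) (b (l 16785680) (c (l 16782680) (l 16782824)))) (b (a (l 16782352) (c (l 44795176327) (b (l 16778016) (l 96334779207)))) (a (b (c (l 16780640) (l 88818585815)) (c (l 130157644295) (l 136063224231))) (c (l 130157645575) (b (l 126399548151) (l 4)))))) (c (a (b (a (l 59827562695) (l 124252064695)) (l 133378872759)) (l 4)) (a (b (a (b (l 16778328) (l 108145941175)) (b (l 120493972055) (l 125862678119))) (a (l 128010162231) (l 4))) (l 4)))) (b (a (b (a (b (c (l 84523622487) (l 103850972423)) (c (l 125862677815) (l 127473290359))) (l 4)) (l 4)) (l 4)) (l 4))) (l 4))) (a (b (a (b (a (b (c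 (l 131768260295) (a (l 126936420663) (l 4))) (l 4)) (l 4)) (l 4)) (l 4)) (l 4)) (l 4))), by decide +kernel⟩

def k59_mm_202 : ∃ t, chk3 f_mm_202 t 28 21 1 = true :=
  ⟨(a (b (a (b (a (b (c (a (b (l 16783776) (a (l 90966079015) (l 130157646007))) (b (a (l 92039821495) (l 124788937607)) (l 4))) (a (b (l 52848242775) (a (l 113514652327) (l 124788936615))) (b (a (l 133378870183) (l 126399549975)) (l 4)))) (a (b (c (l 126399562551) (l 126399551575)) (l 4)) (l 4))) (l 4)) (l 4)) (l 4)) (l 4)) (l 4)), by decide +kernel⟩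

def k60_mm_202 : ∃ t, chk3 f_mm_202 t 29 10 1 = true :=
  ⟨(l 4), by decide +kernel⟩

def k61_mm_202 : ∃ t, chk3 f_mm_202 t 15 10 1 = true :=
  ⟨(l 4), by decide +kernel⟩

def k62_mm_202 : ∃ t, chk3 f_mm_202 t 7 11 1 = true :=
  ⟨(l 4), by decide +kernel⟩

def k63_mm_202 : ∃ t, chk3 f_mm_202 t 2 3 1 = true :=
  ⟨(b (a (b (a (b (l 16667672) (l 16708688)) (b (l 16691784) (l 16709832))) (a (b (l 16772504) (l 16805848)) (b (l 16763816) (a (l 16790800) (l 16784048))))) (b (a (b (a (l 16681920) (l 16716192)) (a (l 16717912) (l 16751000))) (b (a (l 16776784) (b (l 16750344) (l 16789336))) (b (a (l 16740048) (l 16806896)) (a (l 16757048) (a (l 16774560) (a (l 16804552) (b (l 16785456) (a (l 16802680) (b (l 16781200) (l 110293442087)))))))))) (a (b (b (l 16778040) (l 16794376)) (a (l 16790664) (b (l 16780888) (l 16799368)))) (b (a (b (l 16773104) (a (l 16782600) (b (l 16787832) (c (l 16789632) (l 16787784))))) (c (b (a (b (l 16783360) (l 16808312)) (a (b (l 16802248) (a (l 86134276871) (l 124788952039)))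 (b (a (l 115125269655) (l 126399566167)) (l 4)))) (a (a (b (l 16782152) (a (l 16803888) (l 121030853367))) (b (a (l 16804136) (l 122641467159)) (l 4))) (l 4))) (b (a (b (l 16786448) (a (l 16789128) (l 94724205047))) (b (a (l 95261078807) (l 122641484439)) (a (l 120493978839) (l 4)))) (a (b (a (l 16782232) (l 118883365319)) (a (l 117272772967) (l 4))) (l 4))))) (a (a (b (l 16786712) (a (l 16801152) (l 94187355991))) (b (a (b (l 16783624) (l 82913066839)) (b (c (l 83449927047) (l 80765557351)) (l 126936459111))) (a (b (l 137136983383) (l 4)) (l 4)))) (a (a (b (b (b (l 119957115911) (l 4)) (l 4)) (l 4)) (l 4)) (l 4))))))) (a (l 2) (a (l 2) (a (l 2) (l 4))))), by decide +kernel⟩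

def k64_mm_202 : ∃ t, chk3 f_mm_202 t 3 3 1 = true :=
  ⟨(b (a (b (a (b (a (b (a (l 16751680) (l 16799984)) (a (l 16790728) (c (a (l 16800640) (b (l 16803536) (a (l 88818624647) (b (l 109219695623) (l 122641465351))))) (a (b (l 16778600) (l 16784480)) (b (a (l 16783312) (l 87744852119)) (b (l 119420240919) (l 123178330887))))))) (a (b (c (a (b (l 16775408) (l 53385139015)) (b (a (l 16781256) (l 80228686631)) (c (l 130157654471) (a (l 128010167015) (l 126399561543))))) (a (b (l 16778064) (b (l 16782952) (l 91502949607))) (b (a (l 16782760) (b (l 16780568) (l 130694519319))) (a (b (l 118346503127) (l 123178330567)) (l 125862694263))))) (a (b (a (b (c (l 16780264) (l 16785552)) (a (l 110293435671) (l 121567718903))) (b (a (l 117809620119) (l 121567719655)) (l 4))) (l 4)) (l 4))) (b (a (b (c (a (b (l 129620778519) (l 123715204775)) (l 4)) (a (b (l 118883359655) (l 124252074007)) (l 4))) (l 4)) (l 4)) (l 4)))) (a (b (a (a (b (l 16778392) (l 16795312)) (b (l 16800024) (c (l 87208020567) (a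 (l 108145956935) (l 115662136423))))) (a (b (b (c (l 89355492647) (l 113514666663)) (c (l 132305141847) (l 118346491607))) (a (b (l 121567720407) (l 4)) (l 4))) (b (a (b (l 123178339799) (l 4)) (l 4)) (l 4)))) (a (a (b (c (l 87208019479) (a (l 16781160) (l 129620779559))) (a (b (l 110293442119) (l 122104594887)) (l 4))) (b (a (b (l 118346493767) (l 4)) (l 4)) (l 4))) (l 4))) (l 4))) (l 4)) (a (l 4) (l 4))) (l 4)) (l 4)), by decide +kernel⟩

theorem s65_mm_202 : ∃ t, chk3 f_mm_202 t 1 3 1 = true := ex3_a k63_mm_202 k64_mm_202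

theorem s66_mm_202 : ∃ t, chk3 f_mm_202 t 28 20 1 = true := ex3_a k57_mm_202 k58_mm_202

theorem s67_mm_202 : ∃ t, chk3 f_mm_202 t 28 10 1 = true := ex3_b s66_mm_202 k59_mm_202

theorem s68_mm_202 : ∃ t, chk3 f_mm_202 t 14 10 1 = true := ex3_a s67_mm_202 k60_mm_202

theorem s69_mm_202 : ∃ t, chk3 f_mm_202 t 7 10 1 = true := ex3_a s68_mm_202 k61_mm_202

theorem s70_mm_202 : ∃ t, chk3 f_mm_202 t 7 5 1 = true := ex3_b s69_mm_202 k62_mm_202

theorem s71_mm_202 : ∃ t, chk3 f_mm_202 t 13 11 1 = true := ex3_b k55_mm_202 k56_mm_202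

theorem s72_mm_202 : ∃ t, chk3 f_mm_202 t 6 11 1 = true := ex3_a k54_mm_202 s71_mm_202

theorem s73_mm_202 : ∃ t, chk3 f_mm_202 t 13 21 1 = true := ex3_a k52_mm_202 k53_mm_202

theorem s74_mm_202 : ∃ t, chk3 f_mm_202 t 13 10 1 = true := ex3_b k51_mm_202 s73_mm_202

theorem s75_mm_202 : ∃ t, chk3 f_mm_202 t 6 10 1 = true := ex3_a k50_mm_202 s74_mm_202

theorem s76_mm_202 : ∃ t, chk3 f_mm_202 t 6 5 1 = true := ex3_b s75_mm_202 s72_mm_202

theorem s77_mm_202 : ∃ t, chk3 f_mm_202 t 3 5 1 = true := ex3_a s76_mm_202 s70_mm_202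

theorem s78_mm_202 : ∃ t, chk3 f_mm_202 t 243 72 1 = true := ex3_b k43_mm_202 k44_mm_202

theorem s79_mm_202 : ∃ t, chk3 f_mm_202 t 121 72 1 = true := ex3_a k42_mm_202 s78_mm_202

theorem s80_mm_202 : ∃ t, chk3 f_mm_202 t 121 36 1 = true := ex3_b s79_mm_202 k45_mm_202

theorem s81_mm_202 : ∃ t, chk3 f_mm_202 t 120 73 1 = true := ex3_a k40_mm_202 k41_mm_202

theorem s82_mm_202 : ∃ t, chk3 f_mm_202 t 120 36 1 = true := ex3_b k39_mm_202 s81_mm_202

theorem s83_mm_202 : ∃ t, chk3 f_mm_202 t 60 36 1 = true := ex3_a s82_mm_202 s80_mm_202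

theorem s84_mm_202 : ∃ t, chk3 f_mm_202 t 60 18 1 = true := ex3_b s83_mm_202 k46_mm_202

theorem s85_mm_202 : ∃ t, chk3 f_mm_202 t 30 18 1 = true := ex3_a s84_mm_202 k47_mm_202

theorem s86_mm_202 : ∃ t, chk3 f_mm_202 t 30 9 1 = true := ex3_b s85_mm_202 k48_mm_202

theorem s87_mm_202 : ∃ t, chk3 f_mm_202 t 15 9 1 = true := ex3_a s86_mm_202 k49_mm_202

theorem s88_mm_202 : ∃ t, chk3 f_mm_202 t 58 19 1 = true := ex3_b k36_mm_202 k37_mm_202

theorem s89_mm_202 : ∃ t, chk3 f_mm_202 t 29 19 1 = true := ex3_a s88_mm_202 k38_mm_202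

theorem s90_mm_202 : ∃ t, chk3 f_mm_202 t 14 19 1 = true := ex3_a k35_mm_202 s89_mm_202

theorem s91_mm_202 : ∃ t, chk3 f_mm_202 t 119 37 1 = true := ex3_b k33_mm_202 k34_mm_202

theorem s92_mm_202 : ∃ t, chk3 f_mm_202 t 59 37 1 = true := ex3_a k32_mm_202 s91_mm_202

theorem s93_mm_202 : ∃ t, chk3 f_mm_202 t 29 37 1 = true := ex3_a k31_mm_202 s92_mm_202

theorem s94_mm_202 : ∃ t, chk3 f_mm_202 t 29 18 1 = true := ex3_b k30_mm_202 s93_mm_202

theorem s95_mm_202 : ∃ t, chk3 f_mm_202 t 14 18 1 = true := ex3_a k29_mm_202 s94_mm_202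

theorem s96_mm_202 : ∃ t, chk3 f_mm_202 t 14 9 1 = true := ex3_b s95_mm_202 s90_mm_202

theorem s97_mm_202 : ∃ t, chk3 f_mm_202 t 7 9 1 = true := ex3_a s96_mm_202 s87_mm_202

theorem s98_mm_202 : ∃ t, chk3 f_mm_202 t 493 140 1 = true := ex3_b k23_mm_202 k24_mm_202

theorem s99_mm_202 : ∃ t, chk3 f_mm_202 t 246 140 1 = true := ex3_a k22_mm_202 s98_mm_202

theorem s100_mm_202 : ∃ t, chk3 f_mm_202 t 246 70 1 = true := ex3_b s99_mm_202 k25_mm_202

theorem s101_mm_202 : ∃ t, chk3 f_mm_202 t 123 70 1 = true := ex3_a s100_mm_202 k26_mm_202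

theorem s102_mm_202 : ∃ t, chk3 f_mm_202 t 123 35 1 = true := ex3_b s101_mm_202 k27_mm_202

theorem s103_mm_202 : ∃ t, chk3 f_mm_202 t 244 71 1 = true := ex3_b k19_mm_202 k20_mm_202

theorem s104_mm_202 : ∃ t, chk3 f_mm_202 t 122 71 1 = true := ex3_a s103_mm_202 k21_mm_202

theorem s105_mm_202 : ∃ t, chk3 f_mm_202 t 491 141 1 = true := ex3_b k17_mm_202 k18_mm_202

theorem s106_mm_202 : ∃ t, chk3 f_mm_202 t 245 141 1 = true := ex3_a k16_mm_202 s105_mm_202

theorem s107_mm_202 : ∃ t, chk3 f_mm_202 t 245 70 1 = true := ex3_b k15_mm_202 s106_mm_202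

theorem s108_mm_202 : ∃ t, chk3 f_mm_202 t 122 70 1 = true := ex3_a k14_mm_202 s107_mm_202

theorem s109_mm_202 : ∃ t, chk3 f_mm_202 t 122 35 1 = true := ex3_b s108_mm_202 s104_mm_202

theorem s110_mm_202 : ∃ t, chk3 f_mm_202 t 61 35 1 = true := ex3_a s109_mm_202 s102_mm_202

theorem s111_mm_202 : ∃ t, chk3 f_mm_202 t 30 35 1 = true := ex3_a k13_mm_202 s110_mm_202

theorem s112_mm_202 : ∃ t, chk3 f_mm_202 t 494 139 1 = true := ex3_b k10_mm_202 k11_mm_202

theorem s113_mm_202 : ∃ t, chk3 f_mm_202 t 247 139 1 = true := ex3_a s112_mm_202 k12_mm_202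

theorem s114_mm_202 : ∃ t, chk3 f_mm_202 t 247 69 1 = true := ex3_b k9_mm_202 s113_mm_202

theorem s115_mm_202 : ∃ t, chk3 f_mm_202 t 123 69 1 = true := ex3_a k8_mm_202 s114_mm_202

theorem s116_mm_202 : ∃ t, chk3 f_mm_202 t 123 34 1 = true := ex3_b k7_mm_202 s115_mm_202

theorem s117_mm_202 : ∃ t, chk3 f_mm_202 t 61 34 1 = true := ex3_a k6_mm_202 s116_mm_202

theorem s118_mm_202 : ∃ t, chk3 f_mm_202 t 30 34 1 = true := ex3_a k5_mm_202 s117_mm_202

theorem s119_mm_202 : ∃ t, chk3 f_mm_202 t 30 17 1 = true := ex3_b s118_mm_202 s111_mm_202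

theorem s120_mm_202 : ∃ t, chk3 f_mm_202 t 15 17 1 = true := ex3_a s119_mm_202 k28_mm_202

theorem s121_mm_202 : ∃ t, chk3 f_mm_202 t 15 8 1 = true := ex3_b k4_mm_202 s120_mm_202

theorem s122_mm_202 : ∃ t, chk3 f_mm_202 t 14 8 1 = true := ex3_b k2_mm_202 k3_mm_202

theorem s123_mm_202 : ∃ t, chk3 f_mm_202 t 7 8 1 = true := ex3_a s122_mm_202 s121_mm_202

theorem s124_mm_202 : ∃ t, chk3 f_mm_202 t 7 4 1 = true := ex3_b s123_mm_202 s97_mm_202

theorem s125_mm_202 : ∃ t, chk3 f_mm_202 t 3 4 1 = true := ex3_a k1_mm_202 s124_mm_202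

theorem s126_mm_202 : ∃ t, chk3 f_mm_202 t 3 2 1 = true := ex3_b s125_mm_202 s77_mm_202

theorem s127_mm_202 : ∃ t, chk3 f_mm_202 t 1 2 1 = true := ex3_a k0_mm_202 s126_mm_202

theorem s128_mm_202 : ∃ t, chk3 f_mm_202 t 1 1 1 = true := ex3_b s127_mm_202 s65_mm_202

theorem c_mm_202 : CertN 0 536870912 0 536870912 402653184 67108864 3 true false false .pp 2 0 2
    ndN0q2 ndN0q0 pcN2 cut_mm_202 Ext.none :=
  certN0 (fam := true) (s1 := false) (s2 := false) (a := 2) (b := 0) (c := 2) (cn := .pp) (n1 := ndN0q2) (n2 := ndN0q0) (pc := pcN2) (cut := cut_mm_202) (xt := Ext.none) (P1 := 0) (W1 := 536870912) (P2 := 0) (W2 := 536870912) (P3 := 402653184) (W3 := 67108864) (N0 := 3)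
    rfl s128_mm_202

noncomputable def f_mm_203 : ℕ → ℕ → ℕ → ℕ → Bool := onCell 0 536870912 1610612736 536870912 402653184 67108864
    (rowN 3 1 true false false .up 2 0 3 (qsf 0 536870912 0 536870912 3) ndN0q2 ndN0q0 pcN3 Cut.none Ext.none)

def k0_mm_203 : ∃ t, chk3 f_mm_203 t 2 4 1 = true :=
  ⟨(b (a (a (b (l 16834192) (l 16837584)) (b (a (l 16809856) (l 16796976)) (a (l 16806352) (b (l 16791864) (l 16785840))))) (a (b (a (l 16807072) (a (b (l 16782064) (l 16776104)) (b (l 16799864) (a (a (l 16795752) (l 79154987975)) (b (l 104387895319) (l 139284450023)))))) (a (b (a (l 16781000) (l 16796240)) (a (l 16775600) (b (l 16795120) (a (l 16779272) (l 79154967799))))) (b (b (a (a (l 16773912) (l 55532585031)) (l 135526352743)) (a (a (l 16801600) (l 94724238023)) (l 4))) (a (b (a (a (l 16806376) (l 97408576935)) (l 4)) (l 4)) (l 4))))) (b (a (a (b (b (l 97945446151) (l 129620784183)) (l 4)) (l 4)) (l 4)) (l 4)))) (a (a (b (b (l 16830792) (l 16823528)) (b (l 16815080) (a (l 16818088) (l 16795704))))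 (b (a (b (l 16797152) (l 16790120)) (b (l 16800800) (a (l 16778624) (b (l 16797160) (l 16814744))))) (a (b (l 16784128) (a (l 16783640) (b (l 16780584) (l 16804040)))) (b (a (b (l 16778160) (a (l 16779728) (l 16788504))) (b (a (l 16809488) (b (l 71101889543) (l 78081200471))) (a (b (l 69491284935) (l 77544331927)) (l 94724201511)))) (a (b (a (l 16788544) (b (l 67880679079) (a (l 16796896) (l 90966108663)))) (a (a (l 16816152) (b (l 16797064) (l 65196328199))) (a (b (l 74323111127) (l 71101887079)) (l 4)))) (b (a (b (l 91502978839) (l 4)) (l 4)) (l 4))))))) (a (a (b (b (a (b (l 16795768) (l 51237689415)) (b (a (l 63048836119) (l 109219697175)) (a (l 99556025991) (l 4)))) (a (b (a (l 16809384) (l 94724191559)) (a (b (l 66806942103) (l 93650454055)) (l 4))) (l 4))) (l 4)) (l 4)) (l 4)))), by decide +kernel⟩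

def k1_mm_203 : ∃ t, chk3 f_mm_203 t 2 5 1 = true :=
  ⟨(b (a (a (b (a (l 16807616) (b (l 16790568) (l 16828864))) (l 2)) (b (a (b (a (l 16804344) (a (b (l 16786624) (l 55532652279)) (b (b (l 16794448) (l 59290744903)) (a (l 62511972695) (l 74323112375))))) (a (a (b (l 16785520) (l 16793000)) (b (l 16794048) (a (l 104790554999) (l 69491273527)))) (a (b (a (l 62511971335) (l 74859983031)) (l 77007465783)) (l 4)))) (b (a (a (b (b (l 73786240551) (l 74323112439)) (l 4)) (l 4)) (l 4)) (l 4))) (l 2))) (l 4)) (l 2)), by decide +kernel⟩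

def k2_mm_203 : ∃ t, chk3 f_mm_203 t 2 3 1 = true :=
  ⟨(l 2), by decide +kernel⟩

def k3_mm_203 : ∃ t, chk3 f_mm_203 t 3 1 1 = true :=
  ⟨(b (l 4) (l 2)), by decide +kernel⟩

theorem s4_mm_203 : ∃ t, chk3 f_mm_203 t 2 2 1 = true := ex3_b k0_mm_203 k1_mm_203

theorem s5_mm_203 : ∃ t, chk3 f_mm_203 t 2 1 1 = true := ex3_b s4_mm_203 k2_mm_203

theorem s6_mm_203 : ∃ t, chk3 f_mm_203 t 1 1 1 = true := ex3_a s5_mm_203 k3_mm_203

theorem c_mm_203 : CertN 0 536870912 0 536870912 402653184 67108864 3 true false false .up 2 0 3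
    ndN0q2 ndN0q0 pcN3 Cut.none Ext.none :=
  certN1 (fam := true) (s1 := false) (s2 := false) (a := 2) (b := 0) (c := 3) (cn := .up) (n1 := ndN0q2) (n2 := ndN0q0) (pc := pcN3) (cut := Cut.none) (xt := Ext.none) (P1 := 0) (W1 := 536870912) (P2 := 0) (W2 := 536870912) (P3 := 402653184) (W3 := 67108864) (N0 := 3)
    rfl (fun _ => rfl) s6_mm_203

noncomputable def f_mm_213 : ℕ → ℕ → ℕ → ℕ → Bool := onCell 0 536870912 536870912 536870912 402653184 67108864
    (rowN 3 0 true false false .pnn 2 1 3 (qsf 0 536870912 536870912 536870912 3) ndN0q2 ndN0q1 pcN3 Cut.none Ext.none)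

def k0_mm_213 : ∃ t, chk3 f_mm_213 t 1 1 1 = true :=
  ⟨(a (b (b (b (a (a (b (b (a (l 16798192) (a (l 16787096) (b (l 16786216) (l 46405881527)))) (a (l 16791768) (a (b (l 16787120) (l 16833536)) (b (a (l 16795816) (l 78081207543)) (a (l 78618078135) (l 4)))))) (a (b (a (l 16790008) (l 16820240)) (a (l 16810040) (b (a (l 16794864) (l 72712532951)) (l 80765559607)))) (b (a (b (a (l 16795360) (l 72175662535)) (l 81302431575)) (l 4)) (l 4)))) (b (a (b (a (b (a (l 59290745719) (l 77007466263)) (a (l 77544336919) (l 4))) (l 4)) (l 4)) (l 4)) (l 4))) (l 4)) (a (a (b (a (b (a (b (l 67343830295) (l 81302429223)) (l 4)) (l 4)) (l 4)) (l 4)) (l 4)) (l 4))) (l 4)) (l 4)) (l 4)), by decide +kernel⟩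

theorem c_mm_213 : CertN 0 536870912 536870912 536870912 402653184 67108864 3 true false false .pnn 2 1 3
    ndN0q2 ndN0q1 pcN3 Cut.none Ext.none :=
  certN0 (fam := true) (s1 := false) (s2 := false) (a := 2) (b := 1) (c := 3) (cn := .pnn) (n1 := ndN0q2) (n2 := ndN0q1) (pc := pcN3) (cut := Cut.none) (xt := Ext.none) (P1 := 0) (W1 := 536870912) (P2 := 536870912) (W2 := 536870912) (P3 := 402653184) (W3 := 67108864) (N0 := 3)
    rfl k0_mm_213

end Pool.Agent.Strip051.G.I3_8_7_16.Tab.C.NA00

namespace Pool.Agent.Strip051.G.I3_8_7_16.Tab.C.NA01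

open Pool.Agent.Strip051.PB Pool.Agent.Strip051.PB.T
open Pool.Agent.Strip051.G.I3_8_7_16.Tab

noncomputable def f_pp_001 : ℕ → ℕ → ℕ → ℕ → Bool := onCell 0 536870912 0 536870912 402653184 67108864
    (rowN 3 0 true true true .up 0 0 1 (qsf 0 536870912 0 536870912 1) ndN0q0 ndN1q0 pcN1 Cut.none Ext.none)

def k0_pp_001 : ∃ t, chk3 f_pp_001 t 1 1 1 = true :=
  ⟨(l 4), by decide +kernel⟩

theorem c_pp_001 : CertN 0 536870912 0 536870912 402653184 67108864 3 true true true .up 0 0 1
    ndN0q0 ndN1q0 pcN1 Cut.none Ext.none :=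
  certN0 (fam := true) (s1 := true) (s2 := true) (a := 0) (b := 0) (c := 1) (cn := .up) (n1 := ndN0q0) (n2 := ndN1q0) (pc := pcN1) (cut := Cut.none) (xt := Ext.none) (P1 := 0) (W1 := 536870912) (P2 := 0) (W2 := 536870912) (P3 := 402653184) (W3 := 67108864) (N0 := 3)
    rfl k0_pp_001

noncomputable def f_pp_011 : ℕ → ℕ → ℕ → ℕ → Bool := onCell 0 536870912 536870912 536870912 402653184 67108864
    (rowN 3 0 true true true .pnn 0 1 1 (qsf 0 536870912 536870912 536870912 1) ndN0q0 ndN1q1 pcN1 Cut.none Ext.none)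

def k0_pp_011 : ∃ t, chk3 f_pp_011 t 1 1 1 = true :=
  ⟨(l 4), by decide +kernel⟩

theorem c_pp_011 : CertN 0 536870912 536870912 536870912 402653184 67108864 3 true true true .pnn 0 1 1
    ndN0q0 ndN1q1 pcN1 Cut.none Ext.none :=
  certN0 (fam := true) (s1 := true) (s2 := true) (a := 0) (b := 1) (c := 1) (cn := .pnn) (n1 := ndN0q0) (n2 := ndN1q1) (pc := pcN1) (cut := Cut.none) (xt := Ext.none) (P1 := 0) (W1 := 536870912) (P2 := 536870912) (W2 := 536870912) (P3 := 402653184) (W3 := 67108864) (N0 := 3)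
    rfl k0_pp_011

noncomputable def f_pp_012 : ℕ → ℕ → ℕ → ℕ → Bool := onCell 0 536870912 536870912 536870912 402653184 67108864
    (rowN 3 0 true true true .pnp 0 1 2 (qsf 0 536870912 536870912 536870912 2) ndN0q0 ndN1q1 pcN2 Cut.none Ext.none)

def k0_pp_012 : ∃ t, chk3 f_pp_012 t 1 1 1 = true :=
  ⟨(l 4), by decide +kernel⟩

theorem c_pp_012 : CertN 0 536870912 536870912 536870912 402653184 67108864 3 true true true .pnp 0 1 2
    ndN0q0 ndN1q1 pcN2 Cut.none Ext.none :=
  certN0 (fam := true) (s1 := true) (s2 := true) (a := 0) (b := 1) (c := 2) (cn := .pnp) (n1 := ndN0q0) (n2 := ndN1q1) (pc := pcN2) (cut := Cut.none) (xt := Ext.none) (P1 := 0) (W1 := 536870912) (P2 := 536870912) (W2 := 536870912) (P3 := 402653184) (W3 := 67108864) (N0 := 3)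
    rfl k0_pp_012

noncomputable def cut_pp_022_a : Cut := Cut.of [[⟨0, 0, 0, 67108864⟩, ⟨1, 1, 0, 67108864⟩, ⟨2, 1, 0, 67108864⟩]]

noncomputable def f_pp_022_a : ℕ → ℕ → ℕ → ℕ → Bool := onCell 0 536870912 0 536870912 402653184 67108864
    (rowN 3 0 true true true .pp 0 2 2 (qsf 0 536870912 0 536870912 2) ndN0q0 ndN1q2a pcN2 cut_pp_022_a Ext.none)

def k0_pp_022_a : ∃ t, chk3 f_pp_022_a t 2 2 1 = true :=
  ⟨(a (a (b (a (a (b (l 16476448) (l 16491072)) (l 16579912)) (b (l 16524504) (l 16564448))) (a (b (a (l 16512480) (l 16526472)) (a (b (l 16532416) (l 16547920)) (l 16618176))) (b (a (l 16540472) (l 16554504)) (a (l 16633136) (l 16627144))))) (b (a (b (l 16546672) (l 16590160)) (b (l 16549384) (l 16617432))) (a (a (b (l 16568672) (l 16642160)) (b (l 16583080) (l 16657328))) (b (l 16668280) (a (l 16672776) (l 16711000)))))) (a (b (a (a (l 16646672) (l 16682584)) (a (l 16698472) (b (l 16614016) (l 16648504)))) (b (a (b (l 16650192) (l 16688568)) (b (l 16709480) (l 16753104))) (a (a (l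 20635911911) (l 24394053239)) (l 4)))) (a (b (b (l 16661144) (a (l 16690184) (l 16713416))) (l 4)) (b (b (l 16745072) (a (l 16738456) (l 4))) (l 4))))), by decide +kernel⟩

def k1_pp_022_a : ∃ t, chk3 f_pp_022_a t 2 3 1 = true :=
  ⟨(a (b (a (a (b (b (a (l 16586056) (l 16580520)) (a (a (l 16580136) (l 16587944)) (l 16641528))) (a (b (a (l 16621960) (l 16608800)) (a (b (l 16617960) (l 16630064)) (b (l 16625728) (l 16637784)))) (b (a (l 16616584) (l 16624344)) (a (l 16681424) (l 16689104))))) (b (b (a (l 16595912) (l 16611288)) (a (l 16636056) (l 16651520))) (a (b (b (l 16630480) (l 16662312)) (a (l 16696752) (l 16704376))) (b (c (l 16696352) (l 16690264)) (b (l 16710360) (a (l 16697400) (l 16707040))))))) (b (a (b (a (l 16626688) (l 16642136)) (a (l 16687960) (l 16715904))) (a (b (l 16680744) (l 4)) (l 4))) (a (a (b (b (l 16682984) (l 16716232)) (b (l 4) (l 4))) (l 4)) (l 4)))) (a (b (a (b (a (b (a (l 16643264) (l 16650944)) (a (l 16678904) (l 16686560))) (a (b (l 16658576) (l 16694176))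 (b (l 16687144) (l 16701744)))) (b (a (a (a (l 6) (l 16676008)) (a (l 16700824) (l 16704648))) (a (a (l 16708456) (l 16712256)) (b (l 16713768) (l 16722192)))) (b (a (a (l 6) (l 16715400)) (a (l 16723032) (c (l 16732160) (l 16730064)))) (a (l 6) (a (a (l 6) (l 16733680)) (a (l 16737968) (l 4))))))) (b (b (a (a (l 16694704) (l 16702592)) (a (l 16711920) (l 4))) (a (c (a (l 16710984) (l 16720024)) (a (l 16708048) (l 16717056))) (l 4))) (a (b (a (b (l 16722104) (l 16731256)) (l 4)) (l 4)) (l 4)))) (a (a (l 6) (a (b (l 6) (l 4)) (l 4))) (l 4))) (l 4))) (l 4)), by decide +kernel⟩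

def k2_pp_022_a : ∃ t, chk3 f_pp_022_a t 3 1 1 = true :=
  ⟨(a (b (a (b (b (a (l 10435527383) (l 4)) (l 4)) (l 4)) (l 4)) (l 4)) (l 4)), by decide +kernel⟩

theorem s3_pp_022_a : ∃ t, chk3 f_pp_022_a t 2 1 1 = true := ex3_b k0_pp_022_a k1_pp_022_a

theorem s4_pp_022_a : ∃ t, chk3 f_pp_022_a t 1 1 1 = true := ex3_a s3_pp_022_a k2_pp_022_a

theorem c_pp_022_a : CertN 0 536870912 0 536870912 402653184 67108864 3 true true true .pp 0 2 2
    ndN0q0 ndN1q2a pcN2 cut_pp_022_a Ext.none :=
  certN0 (fam := true) (s1 := true) (s2 := true) (a := 0) (b := 2) (c := 2) (cn := .pp) (n1 := ndN0q0) (n2 := ndN1q2a) (pc := pcN2) (cut := cut_pp_022_a) (xt := Ext.none) (P1 := 0) (W1 := 536870912) (P2 := 0) (W2 := 536870912) (P3 := 402653184) (W3 := 67108864) (N0 := 3)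
    rfl s4_pp_022_a

noncomputable def cut_pp_022_b : Cut := Cut.of [[⟨0, 0, 0, 67108864⟩, ⟨1, 1, 0, 67108864⟩, ⟨2, 1, 0, 67108864⟩]]

noncomputable def f_pp_022_b : ℕ → ℕ → ℕ → ℕ → Bool := onCell 0 536870912 1239849684 370763052 402653184 67108864
    (rowN 3 0 true true true .pp 0 2 2 (qsf 0 536870912 1239849684 370763052 2) ndN0q0 ndN1q2b pcN2 cut_pp_022_b Ext.none)

def k0_pp_022_b : ∃ t, chk3 f_pp_022_b t 1 1 1 = true :=
  ⟨(a (b (a (b (a (b (a (a (l 16492848) (l 16503672)) (b (l 16518376) (l 16459800))) (a (a (l 16372776) (l 16386088)) (l 16491056))) (b (a (b (l 16498016) (l 16484912)) (b (l 16521560) (l 16513120))) (a (b (l 16432744) (l 16405048)) (l 16538656)))) (a (b (a (l 16373624) (l 16390056)) (a (l 16255416) (l 16285440))) (b (a (l 16413056) (l 16444640)) (a (l 16347376) (l 16427104))))) (b (a (b (a (b (l 16548288) (l 16545944)) (b (l 16579344) (l 16542744))) (a (b (l 16506456) (l 16493680)) (l 16636032))) (b (a (b (l 16615600) (l 16588296)) (b (l 16721328) (l 16686480)))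 (a (b (l 16612240) (l 16625344)) (l 4)))) (a (b (a (b (l 16488176) (l 16493904)) (l 16635040)) (a (l 16561824) (l 4))) (l 4)))) (a (b (a (a (b (l 16198496) (l 16193552)) (b (l 16270568) (b (l 16383680) (l 4)))) (b (a (l 16408424) (l 4)) (l 4))) (a (b (a (l 16515728) (l 4)) (l 4)) (l 4))) (l 4))) (b (a (b (a (b (b (a (b (l 16749208) (l 16714680)) (l 4)) (l 4)) (l 4)) (l 4)) (l 4)) (l 2)) (l 2))), by decide +kernel⟩

theorem c_pp_022_b : CertN 0 536870912 1239849684 370763052 402653184 67108864 3 true true true .pp 0 2 2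
    ndN0q0 ndN1q2b pcN2 cut_pp_022_b Ext.none :=
  certN0 (fam := true) (s1 := true) (s2 := true) (a := 0) (b := 2) (c := 2) (cn := .pp) (n1 := ndN0q0) (n2 := ndN1q2b) (pc := pcN2) (cut := cut_pp_022_b) (xt := Ext.none) (P1 := 0) (W1 := 536870912) (P2 := 1239849684) (W2 := 370763052) (P3 := 402653184) (W3 := 67108864) (N0 := 3)
    rfl k0_pp_022_b

noncomputable def f_pp_023_a : ℕ → ℕ → ℕ → ℕ → Bool := onCell 1610612736 536870912 0 536870912 402653184 67108864
    (rowN 3 2 true true true .up 0 2 3 (qsf 0 536870912 0 536870912 3) ndN0q0 ndN1q2a pcN3 Cut.none Ext.none)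

def k0_pp_023_a : ∃ t, chk3 f_pp_023_a t 1 1 1 = true :=
  ⟨(a (l 4) (l 2)), by decide +kernel⟩

theorem c_pp_023_a : CertN 0 536870912 0 536870912 402653184 67108864 3 true true true .up 0 2 3
    ndN0q0 ndN1q2a pcN3 Cut.none Ext.none :=
  certN2 (fam := true) (s1 := true) (s2 := true) (a := 0) (b := 2) (c := 3) (cn := .up) (n1 := ndN0q0) (n2 := ndN1q2a) (pc := pcN3) (cut := Cut.none) (xt := Ext.none) (P1 := 0) (W1 := 536870912) (P2 := 0) (W2 := 536870912) (P3 := 402653184) (W3 := 67108864) (N0 := 3)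
    rfl (fun _ => rfl) k0_pp_023_a

noncomputable def f_pp_023_b : ℕ → ℕ → ℕ → ℕ → Bool := onCell 1610612736 536870912 1239849684 370763052 402653184 67108864
    (rowN 3 2 true true true .up 0 2 3 (qsf 0 536870912 1239849684 370763052 3) ndN0q0 ndN1q2b pcN3 Cut.none Ext.none)

def k0_pp_023_b : ∃ t, chk3 f_pp_023_b t 1 1 1 = true :=
  ⟨(a (l 4) (l 4)), by decide +kernel⟩

theorem c_pp_023_b : CertN 0 536870912 1239849684 370763052 402653184 67108864 3 true true true .up 0 2 3
    ndN0q0 ndN1q2b pcN3 Cut.none Ext.none :=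
  certN2 (fam := true) (s1 := true) (s2 := true) (a := 0) (b := 2) (c := 3) (cn := .up) (n1 := ndN0q0) (n2 := ndN1q2b) (pc := pcN3) (cut := Cut.none) (xt := Ext.none) (P1 := 0) (W1 := 536870912) (P2 := 1239849684) (W2 := 370763052) (P3 := 402653184) (W3 := 67108864) (N0 := 3)
    rfl (fun _ => rfl) k0_pp_023_b

noncomputable def f_pp_033 : ℕ → ℕ → ℕ → ℕ → Bool := onCell 0 536870912 1610612736 536870912 402653184 67108864
    (rowN 3 0 true true true .pnn 0 3 3 (qsf 0 536870912 1610612736 536870912 3) ndN0q0 ndN1q3 pcN3 Cut.none Ext.none)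

def k0_pp_033 : ∃ t, chk3 f_pp_033 t 1 1 1 = true :=
  ⟨(a (b (l 4) (l 4)) (l 4)), by decide +kernel⟩

theorem c_pp_033 : CertN 0 536870912 1610612736 536870912 402653184 67108864 3 true true true .pnn 0 3 3
    ndN0q0 ndN1q3 pcN3 Cut.none Ext.none :=
  certN0 (fam := true) (s1 := true) (s2 := true) (a := 0) (b := 3) (c := 3) (cn := .pnn) (n1 := ndN0q0) (n2 := ndN1q3) (pc := pcN3) (cut := Cut.none) (xt := Ext.none) (P1 := 0) (W1 := 536870912) (P2 := 1610612736) (W2 := 536870912) (P3 := 402653184) (W3 := 67108864) (N0 := 3)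
    rfl k0_pp_033

noncomputable def f_pp_101 : ℕ → ℕ → ℕ → ℕ → Bool := onCell 536870912 536870912 0 536870912 402653184 67108864
    (rowN 3 0 true true true .npn 1 0 1 (qsf 536870912 536870912 0 536870912 1) ndN0q1 ndN1q0 pcN1 Cut.none Ext.none)

def k0_pp_101 : ∃ t, chk3 f_pp_101 t 1 1 1 = true :=
  ⟨(l 5), by decide +kernel⟩

theorem c_pp_101 : CertN 536870912 536870912 0 536870912 402653184 67108864 3 true true true .npn 1 0 1
    ndN0q1 ndN1q0 pcN1 Cut.none Ext.none :=
  certN0 (fam := true) (s1 := true) (s2 := true) (a := 1) (b := 0) (c := 1) (cn := .npn) (n1 := ndN0q1) (n2 := ndN1q0) (pc := pcN1) (cut := Cut.none) (xt := Ext.none) (P1 := 536870912) (W1 := 536870912) (P2 := 0) (W2 := 536870912) (P3 := 402653184) (W3 := 67108864) (N0 := 3)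
    rfl k0_pp_101

noncomputable def f_pp_102 : ℕ → ℕ → ℕ → ℕ → Bool := onCell 536870912 536870912 0 536870912 402653184 67108864
    (rowN 3 0 true true true .npp 1 0 2 (qsf 536870912 536870912 0 536870912 2) ndN0q1 ndN1q0 pcN2 Cut.none Ext.none)

def k0_pp_102 : ∃ t, chk3 f_pp_102 t 1 1 1 = true :=
  ⟨(l 5), by decide +kernel⟩

theorem c_pp_102 : CertN 536870912 536870912 0 536870912 402653184 67108864 3 true true true .npp 1 0 2
    ndN0q1 ndN1q0 pcN2 Cut.none Ext.none :=
  certN0 (fam := true) (s1 := true) (s2 := true) (a := 1) (b := 0) (c := 2) (cn := .npp) (n1 := ndN0q1) (n2 := ndN1q0) (pc := pcN2) (cut := Cut.none) (xt := Ext.none) (P1 := 536870912) (W1 := 536870912) (P2 := 0) (W2 := 536870912) (P3 := 402653184) (W3 := 67108864) (N0 := 3)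
    rfl k0_pp_102

noncomputable def f_pp_112 : ℕ → ℕ → ℕ → ℕ → Bool := onCell 536870912 536870912 536870912 536870912 402653184 67108864
    (rowN 3 0 true true true .dn 1 1 2 (qsf 536870912 536870912 536870912 536870912 2) ndN0q1 ndN1q1 pcN2 Cut.none Ext.none)

def k0_pp_112 : ∃ t, chk3 f_pp_112 t 1 1 1 = true :=
  ⟨(l 4), by decide +kernel⟩

theorem c_pp_112 : CertN 536870912 536870912 536870912 536870912 402653184 67108864 3 true true true .dn 1 1 2
    ndN0q1 ndN1q1 pcN2 Cut.none Ext.none :=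
  certN0 (fam := true) (s1 := true) (s2 := true) (a := 1) (b := 1) (c := 2) (cn := .dn) (n1 := ndN0q1) (n2 := ndN1q1) (pc := pcN2) (cut := Cut.none) (xt := Ext.none) (P1 := 536870912) (W1 := 536870912) (P2 := 536870912) (W2 := 536870912) (P3 := 402653184) (W3 := 67108864) (N0 := 3)
    rfl k0_pp_112

noncomputable def f_pp_113 : ℕ → ℕ → ℕ → ℕ → Bool := onCell 536870912 536870912 536870912 536870912 402653184 67108864
    (rowN 3 0 true true true .nn 1 1 3 (qsf 536870912 536870912 536870912 536870912 3) ndN0q1 ndN1q1 pcN3 Cut.none Ext.none)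

def k0_pp_113 : ∃ t, chk3 f_pp_113 t 1 1 1 = true :=
  ⟨(l 4), by decide +kernel⟩

theorem c_pp_113 : CertN 536870912 536870912 536870912 536870912 402653184 67108864 3 true true true .nn 1 1 3
    ndN0q1 ndN1q1 pcN3 Cut.none Ext.none :=
  certN0 (fam := true) (s1 := true) (s2 := true) (a := 1) (b := 1) (c := 3) (cn := .nn) (n1 := ndN0q1) (n2 := ndN1q1) (pc := pcN3) (cut := Cut.none) (xt := Ext.none) (P1 := 536870912) (W1 := 536870912) (P2 := 536870912) (W2 := 536870912) (P3 := 402653184) (W3 := 67108864) (N0 := 3)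
    rfl k0_pp_113

noncomputable def f_pp_123_a : ℕ → ℕ → ℕ → ℕ → Bool := onCell 536870912 536870912 0 536870912 402653184 67108864
    (rowN 3 0 true true true .npn 1 2 3 (qsf 536870912 536870912 0 536870912 3) ndN0q1 ndN1q2a pcN3 Cut.none Ext.none)

def k0_pp_123_a : ∃ t, chk3 f_pp_123_a t 1 1 1 = true :=
  ⟨(l 4), by decide +kernel⟩

theorem c_pp_123_a : CertN 536870912 536870912 0 536870912 402653184 67108864 3 true true true .npn 1 2 3
    ndN0q1 ndN1q2a pcN3 Cut.none Ext.none :=
  certN0 (fam := true) (s1 := true) (s2 := true) (a := 1) (b := 2) (c := 3) (cn := .npn) (n1 := ndN0q1) (n2 := ndN1q2a) (pc := pcN3) (cut := Cut.none) (xt := Ext.none) (P1 := 536870912) (W1 := 536870912) (P2 := 0) (W2 := 536870912) (P3 := 402653184) (W3 := 67108864) (N0 := 3)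
    rfl k0_pp_123_a

noncomputable def f_pp_123_b : ℕ → ℕ → ℕ → ℕ → Bool := onCell 536870912 536870912 1239849684 370763052 402653184 67108864
    (rowN 3 0 true true true .npn 1 2 3 (qsf 536870912 536870912 1239849684 370763052 3) ndN0q1 ndN1q2b pcN3 Cut.none Ext.none)

def k0_pp_123_b : ∃ t, chk3 f_pp_123_b t 1 1 1 = true :=
  ⟨(l 4), by decide +kernel⟩

theorem c_pp_123_b : CertN 536870912 536870912 1239849684 370763052 402653184 67108864 3 true true true .npn 1 2 3
    ndN0q1 ndN1q2b pcN3 Cut.none Ext.none :=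
  certN0 (fam := true) (s1 := true) (s2 := true) (a := 1) (b := 2) (c := 3) (cn := .npn) (n1 := ndN0q1) (n2 := ndN1q2b) (pc := pcN3) (cut := Cut.none) (xt := Ext.none) (P1 := 536870912) (W1 := 536870912) (P2 := 1239849684) (W2 := 370763052) (P3 := 402653184) (W3 := 67108864) (N0 := 3)
    rfl k0_pp_123_b

noncomputable def f_pp_133 : ℕ → ℕ → ℕ → ℕ → Bool := onCell 536870912 536870912 1610612736 536870912 402653184 67108864
    (rowN 3 0 true true true .dn 1 3 3 (qsf 536870912 536870912 1610612736 536870912 3) ndN0q1 ndN1q3 pcN3 Cut.none Ext.none)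

def k0_pp_133 : ∃ t, chk3 f_pp_133 t 1 1 1 = true :=
  ⟨(l 4), by decide +kernel⟩

theorem c_pp_133 : CertN 536870912 536870912 1610612736 536870912 402653184 67108864 3 true true true .dn 1 3 3
    ndN0q1 ndN1q3 pcN3 Cut.none Ext.none :=
  certN0 (fam := true) (s1 := true) (s2 := true) (a := 1) (b := 3) (c := 3) (cn := .dn) (n1 := ndN0q1) (n2 := ndN1q3) (pc := pcN3) (cut := Cut.none) (xt := Ext.none) (P1 := 536870912) (W1 := 536870912) (P2 := 1610612736) (W2 := 536870912) (P3 := 402653184) (W3 := 67108864) (N0 := 3)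
    rfl k0_pp_133

noncomputable def f_pp_202 : ℕ → ℕ → ℕ → ℕ → Bool := onCell 0 536870912 0 536870912 402653184 67108864
    (rowN 3 0 true true true .pp 2 0 2 (qsf 0 536870912 0 536870912 2) ndN0q2 ndN1q0 pcN2 Cut.none Ext.none)

def k0_pp_202 : ∃ t, chk3 f_pp_202 t 1 1 1 = true :=
  ⟨(l 5), by decide +kernel⟩

theorem c_pp_202 : CertN 0 536870912 0 536870912 402653184 67108864 3 true true true .pp 2 0 2
    ndN0q2 ndN1q0 pcN2 Cut.none Ext.none :=
  certN0 (fam := true) (s1 := true) (s2 := true) (a := 2) (b := 0) (c := 2) (cn := .pp) (n1 := ndN0q2) (n2 := ndN1q0) (pc := pcN2) (cut := Cut.none) (xt := Ext.none) (P1 := 0) (W1 := 536870912) (P2 := 0) (W2 := 536870912) (P3 := 402653184) (W3 := 67108864) (N0 := 3)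
    rfl k0_pp_202

noncomputable def f_pp_203 : ℕ → ℕ → ℕ → ℕ → Bool := onCell 0 536870912 0 536870912 402653184 67108864
    (rowN 3 0 true true true .up 2 0 3 (qsf 0 536870912 0 536870912 3) ndN0q2 ndN1q0 pcN3 Cut.none Ext.none)

def k0_pp_203 : ∃ t, chk3 f_pp_203 t 1 1 1 = true :=
  ⟨(l 5), by decide +kernel⟩

theorem c_pp_203 : CertN 0 536870912 0 536870912 402653184 67108864 3 true true true .up 2 0 3
    ndN0q2 ndN1q0 pcN3 Cut.none Ext.none :=
  certN0 (fam := true) (s1 := true) (s2 := true) (a := 2) (b := 0) (c := 3) (cn := .up) (n1 := ndN0q2) (n2 := ndN1q0) (pc := pcN3) (cut := Cut.none) (xt := Ext.none) (P1 := 0) (W1 := 536870912) (P2 := 0) (W2 := 536870912) (P3 := 402653184) (W3 := 67108864) (N0 := 3)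
    rfl k0_pp_203

noncomputable def f_pp_213 : ℕ → ℕ → ℕ → ℕ → Bool := onCell 0 536870912 536870912 536870912 402653184 67108864
    (rowN 3 0 true true true .pnn 2 1 3 (qsf 0 536870912 536870912 536870912 3) ndN0q2 ndN1q1 pcN3 Cut.none Ext.none)

def k0_pp_213 : ∃ t, chk3 f_pp_213 t 1 1 1 = true :=
  ⟨(l 4), by decide +kernel⟩

theorem c_pp_213 : CertN 0 536870912 536870912 536870912 402653184 67108864 3 true true true .pnn 2 1 3
    ndN0q2 ndN1q1 pcN3 Cut.none Ext.none :=
  certN0 (fam := true) (s1 := true) (s2 := true) (a := 2) (b := 1) (c := 3) (cn := .pnn) (n1 := ndN0q2) (n2 := ndN1q1) (pc := pcN3) (cut := Cut.none) (xt := Ext.none) (P1 := 0) (W1 := 536870912) (P2 := 536870912) (W2 := 536870912) (P3 := 402653184) (W3 := 67108864) (N0 := 3)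
    rfl k0_pp_213

noncomputable def f_pm_001 : ℕ → ℕ → ℕ → ℕ → Bool := onCell 0 536870912 0 536870912 402653184 67108864
    (rowN 3 0 true true false .up 0 0 1 (qsf 0 536870912 0 536870912 1) ndN0q0 ndN1q0 pcN1 Cut.none Ext.none)

def k0_pm_001 : ∃ t, chk3 f_pm_001 t 1 1 1 = true :=
  ⟨(l 3), by decide +kernel⟩

theorem c_pm_001 : CertN 0 536870912 0 536870912 402653184 67108864 3 true true false .up 0 0 1
    ndN0q0 ndN1q0 pcN1 Cut.none Ext.none :=
  certN0 (fam := true) (s1 := true) (s2 := false) (a := 0) (b := 0) (c := 1) (cn := .up) (n1 := ndN0q0) (n2 := ndN1q0) (pc := pcN1) (cut := Cut.none) (xt := Ext.none) (P1 := 0) (W1 := 536870912) (P2 := 0) (W2 := 536870912) (P3 := 402653184) (W3 := 67108864) (N0 := 3)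
    rfl k0_pm_001

noncomputable def f_pm_011 : ℕ → ℕ → ℕ → ℕ → Bool := onCell 0 536870912 536870912 536870912 402653184 67108864
    (rowN 3 1 true true false .pnn 0 1 1 (qsf 0 536870912 536870912 536870912 1) ndN0q0 ndN1q1 pcN1 Cut.none Ext.none)

def k0_pm_011 : ∃ t, chk3 f_pm_011 t 1 1 1 = true :=
  ⟨(l 3), by decide +kernel⟩

theorem c_pm_011 : CertN 0 536870912 536870912 536870912 402653184 67108864 3 true true false .pnn 0 1 1
    ndN0q0 ndN1q1 pcN1 Cut.none Ext.none :=
  certN1 (fam := true) (s1 := true) (s2 := false) (a := 0) (b := 1) (c := 1) (cn := .pnn) (n1 := ndN0q0) (n2 := ndN1q1) (pc := pcN1) (cut := Cut.none) (xt := Ext.none) (P1 := 0) (W1 := 536870912) (P2 := 536870912) (W2 := 536870912) (P3 := 402653184) (W3 := 67108864) (N0 := 3)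
    rfl (fun _ => rfl) k0_pm_011

noncomputable def f_pm_012 : ℕ → ℕ → ℕ → ℕ → Bool := onCell 1073741824 536870912 536870912 536870912 402653184 67108864
    (rowN 3 2 true true false .pnp 0 1 2 (qsf 0 536870912 536870912 536870912 2) ndN0q0 ndN1q1 pcN2 Cut.none Ext.none)

def k0_pm_012 : ∃ t, chk3 f_pm_012 t 4 1 1 = true :=
  ⟨(b (a (l 3) (a (l 3) (b (b (l 2) (a (l 3) (b (l 2) (a (l 439865581095) (b (l 2) (l 211695402199)))))) (b (a (l 3) (a (l 3) (b (b (l 206326750391) (b (l 200958052743) (l 198810533975))) (l 3)))) (l 3))))) (l 3)), by decide +kernel⟩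

def k1_pm_012 : ∃ t, chk3 f_pm_012 t 5 2 1 = true :=
  ⟨(a (b (a (a (b (l 2) (b (l 2) (a (l 17033824) (l 2)))) (l 2)) (l 2)) (a (a (b (b (a (b (l 17046632) (c (l 17079304) (a (l 17032424) (l 17030952)))) (l 17046640)) (a (c (l 180020240247) (b (a (l 181630657863) (l 17039520)) (l 177872588487))) (b (l 17061136) (l 17070624)))) (a (b (c (l 176262167735) (a (l 3) (l 173577620471))) (l 3)) (b (b (l 17081616) (l 17095736)) (a (l 166598272311) (l 17107536))))) (a (b (b (l 17043824) (a (l 17065000) (l 17065208))) (b (l 17049072) (a (l 17127992) (l 17122232)))) (a (b (b (l 17042872) (l 17065864)) (b (l 17094656) (l 17116776))) (b (a (b (l 17043000) (l 17066896)) (b (l 17041888) (l 17067768))) (a (b (l 17097384) (l 17113008)) (l 17122336)))))) (b (b (l 17038784) (l 17076424)) (b (l 17121512) (l 17091736))))) (b (l 2) (b (a (l 17067592) (l 2)) (b (l 17236656) (l 17091712))))), by decide +kernel⟩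

def k2_pm_012 : ∃ t, chk3 f_pm_012 t 5 3 1 = true :=
  ⟨(a (b (a (a (b (a (l 3) (b (c (l 17127488) (l 163377018295)) (c (l 186999407015) (l 180019978615)))) (l 3)) (a (b (b (a (l 17080856) (l 17075544)) (a (l 130090925095) (l 17024080))) (b (a (l 161229331559) (l 153713138087)) (a (l 3) (l 139217517799)))) (a (b (b (l 17070448) (l 17018768)) (b (a (l 16968792) (l 16965720)) (a (l 16912400) (l 16909304)))) (b (a (b (l 17066896) (l 17015096)) (b (l 17064720) (l 17012944))) (a (b (l 16962552) (a (l 16906872) (l 16905360))) (b (l 16959432) (l 16903248))))))) (b (b (l 17046584) (l 16994792)) (b (a (l 16947728) (l 16927008)) (a (l 16890368) (l 16865472))))) (a (a (l 3) (a (b (l 3) (l 3)) (a (b (b (a (l 16846856) (l 16843632)) (a (l 3) (l 16769544))) (l 3)) (b (a (b (a (l 16841048) (l 16839448)) (a (l 16766704) (l 16764968))) (b (l 16837280) (l 16762648))) (a (b (a (l 16685448) (l 16683496)) (b (l 16620248) (l 3))) (b (l 16680952) (l 16594680))))))) (b (b (a (l 16824056) (l 16799160)) (a (l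 16748584) (l 16722312))) (b (b (l 16673208) (l 16629576)) (b (l 16584784) (a (l 16555104) (l 16522864))))))) (a (b (b (l 16987280) (b (l 16897800) (l 16829728))) (b (b (l 16757152) (l 16679744)) (b (b (l 16614368) (l 16568384)) (b (l 16520832) (l 16472136))))) (b (b (l 16949720) (l 16821320)) (b (b (l 16699704) (l 16613664)) (b (l 16524000) (b (l 16449816) (l 16398448))))))), by decide +kernel⟩

def k3_pm_012 : ∃ t, chk3 f_pm_012 t 3 1 1 = true :=
  ⟨(b (a (b (l 2) (a (b (l 2) (l 17169368)) (l 2))) (l 2)) (a (b (a (b (b (l 16884264) (l 16846096)) (b (l 16788728) (l 16707584))) (b (a (l 16776504) (l 2)) (a (l 16646752) (l 16666952)))) (b (a (a (b (l 16641360) (l 16543592)) (l 16654072)) (a (l 16541736) (b (l 16495088) (l 16340936)))) (a (b (a (l 16464800) (l 16358088)) (a (b (l 16368960) (l 16315536)) (l 16245384))) (b (l 16225080) (l 16312776))))) (b (a (b (l 2) (b (l 2) (l 16736976))) (l 2)) (a (b (b (l 16665368) (l 16563824)) (b (l 16433232) (l 16257944))) (b (b (l 2) (l 17049320)) (b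 (l 16735488) (a (l 16559312) (l 16719568)))))))), by decide +kernel⟩

theorem s4_pm_012 : ∃ t, chk3 f_pm_012 t 5 1 1 = true := ex3_b k1_pm_012 k2_pm_012

theorem s5_pm_012 : ∃ t, chk3 f_pm_012 t 2 1 1 = true := ex3_a k0_pm_012 s4_pm_012

theorem s6_pm_012 : ∃ t, chk3 f_pm_012 t 1 1 1 = true := ex3_a s5_pm_012 k3_pm_012

theorem c_pm_012 : CertN 0 536870912 536870912 536870912 402653184 67108864 3 true true false .pnp 0 1 2
    ndN0q0 ndN1q1 pcN2 Cut.none Ext.none :=
  certN2 (fam := true) (s1 := true) (s2 := false) (a := 0) (b := 1) (c := 2) (cn := .pnp) (n1 := ndN0q0) (n2 := ndN1q1) (pc := pcN2) (cut := Cut.none) (xt := Ext.none) (P1 := 0) (W1 := 536870912) (P2 := 536870912) (W2 := 536870912) (P3 := 402653184) (W3 := 67108864) (N0 := 3)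
    rfl (fun _ => rfl) s6_pm_012

noncomputable def cut_pm_022_a : Cut := Cut.of [[⟨0, 0, 0, 67108864⟩, ⟨1, 1, 0, 67108864⟩, ⟨2, 1, 0, 67108864⟩], [⟨0, 0, 1, 33554432⟩, ⟨1, 1, 0, 33554432⟩, ⟨2, 1, 1, 33554432⟩]]

noncomputable def f_pm_022_a : ℕ → ℕ → ℕ → ℕ → Bool := onCell 1073741824 536870912 0 536870912 402653184 67108864
    (rowN 3 2 true true false .pp 0 2 2 (qsf 0 536870912 0 536870912 2) ndN0q0 ndN1q2a pcN2 cut_pm_022_a Ext.none)

def k0_pm_022_a : ∃ t, chk3 f_pm_022_a t 4 1 1 = true :=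
  ⟨(b (a (l 1) (b (l 1) (a (l 1) (b (l 1) (a (l 1) (b (l 1) (a (l 1) (l 16548776)))))))) (a (b (l 1) (b (a (l 1) (b (a (l 1) (a (l 1) (b (l 1) (b (l 16655696) (l 16659592))))) (a (l 6) (a (l 6) (b (l 16665384) (l 16683768)))))) (a (l 6) (a (l 6) (a (l 6) (a (l 6) (b (b (l 16679456) (l 16708184)) (b (l 16694664) (l 16725216))))))))) (b (b (a (l 1) (a (b (l 16568136) (a (l 16579920) (l 16574784))) (b (a (l 16561224) (l 16556752)) (l 16588344)))) (a (b (a (l 1) (a (l 16602976) (b (l 16593792) (l 16600176)))) (a (a (l 1) (b (l 16619880) (l 16627744))) (b (a (l 16613368) (l 16607056)) (l 16638696)))) (a (b (a (l 16591264) (l 16585680)) (b (l 16598008) (l 16605080))) (b (l 16598664) (b (l 16586648) (l 16593352)))))) (b (a (a (b (a (b (l 16663656) (l 16650520)) (b (l 16635656) (l 16643208))) (a (b (l 16657936) (l 16665512)) (b (l 16650280) (l 16657520)))) (b (b (l 16646224) (a (l 16635888) (l 16628800))) (b (a (l 16642616) (l 16635192)) (a (l 16649496) (l 16641728))))) (b (a (a (l 16639632) (l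 16633168)) (b (l 16599992) (l 16606040))) (a (b (l 16645544) (l 16651584)) (a (l 16638320) (l 16610912))))) (a (b (a (a (b (l 16694304) (l 16680816)) (b (l 16664992) (l 16672080))) (b (c (l 16674224) (l 16672688)) (l 16672144))) (b (a (a (l 16708936) (l 16699776)) (l 16686080)) (a (b (l 16711560) (a (l 16701520) (l 16693584))) (a (l 16708432) (l 16695032))))) (b (a (b (a (l 16640616) (l 16633056)) (l 16663552)) (b (l 16643392) (l 16648424))) (a (b (l 16668776) (b (l 16678544) (l 16696240))) (b (l 16652872) (c (l 16662392) (l 16662632)))))))))), by decide +kernel⟩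

def k1_pm_022_a : ∃ t, chk3 f_pm_022_a t 5 2 1 = true :=
  ⟨(a (b (a (b (l 16506136) (a (l 1) (l 16472960))) (b (l 16483608) (l 16497928))) (a (b (a (b (l 16499024) (l 16511784)) (b (l 16488312) (l 16501152))) (a (b (l 16526360) (b (l 16538368) (l 16545048))) (a (b (l 16518480) (l 16534384)) (b (l 16513144) (a (l 16530688) (a (l 16528736) (l 16527152))))))) (b (a (l 16483848) (l 16472320)) (b (l 16541376) (a (l 16521624) (l 16510592)))))) (b (a (b (l 16416480) (a (l 16437616) (l 16424544))) (b (l 16387912) (l 16403496))) (a (b (l 16537960) (b (l 16475888) (l 16535088))) (b (b (l 16420152) (l 16434056)) (b (l 16449936) (l 16467776)))))), by decide +kernel⟩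

def k2_pm_022_a : ∃ t, chk3 f_pm_022_a t 5 3 1 = true :=
  ⟨(b (a (a (a (b (b (l 16550224) (l 16558008)) (b (l 16588744) (a (l 16581992) (l 16577080)))) (a (b (b (l 16543816) (l 16551408)) (b (l 16561008) (l 16572712))) (b (a (l 16565728) (a (l 16564416) (b (l 16538040) (l 16546584)))) (a (b (l 16558184) (l 16570032)) (b (a (l 16557288) (l 16556832)) (c (l 16614312) (l 16607688))))))) (b (b (a (l 16533128) (l 16523400)) (a (l 16540824) (l 16530072))) (b (a (l 16550544) (l 16538512)) (a (l 16562384) (l 16549096))))) (a (b (b (a (l 16513352) (l 16502832)) (l 16534808)) (b (l 16562168) (a (l 16535568) (l 16521784)))) (b (b (l 16548448) (l 16491664)) (b (l 16494992) (l 16542256))))) (a (a (a (b (b (b (l 16589136) (l 16594816)) (c (l 16645792) (l 16621416))) (b (a (l 16656848) (l 16650904)) (b (l 16638968) (l 16664264)))) (b (a (b (l 16584912) (l 16594712)) (b (a (l 16582336) (b (l 16620888) (l 16647560))) (a (l 16592144) (a (l 16591984) (l 16592192))))) (a (b (l 16624992) (l 16632208)) (a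 (b (l 16601424) (l 16639992)) (a (b (l 16601464) (b (l 16606968) (l 16610280))) (b (l 16643800) (b (l 16607504) (l 16631872)))))))) (a (b (b (l 16574608) (l 16605056)) (b (b (l 16590912) (l 16594736)) (b (l 16597760) (l 16632000)))) (b (b (l 16559952) (l 16567760)) (b (b (l 16573144) (l 16575888)) (b (l 16577640) (l 16599928)))))) (b (a (a (b (l 16544984) (l 16550912)) (b (l 16529560) (l 16533384))) (b (l 16568184) (c (l 16548664) (l 16545608)))) (a (a (b (l 16597472) (a (l 16582976) (l 16571592))) (b (l 16577296) (l 16564272))) (a (b (l 16513856) (l 16567280)) (b (l 16511720) (c (l 16557648) (l 16552472)))))))), by decide +kernel⟩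

def k3_pm_022_a : ∃ t, chk3 f_pm_022_a t 6 2 1 = true :=
  ⟨(a (b (b (l 16426840) (a (l 16371960) (l 16345200))) (b (a (l 16460136) (l 16367808)) (a (b (l 16420896) (l 16439456)) (l 16481360)))) (b (a (b (l 16406080) (l 16351864)) (b (l 16403352) (l 16384104))) (a (b (l 16386512) (b (l 16389272) (l 16430200))) (b (l 16349376) (a (l 16347368) (l 16329208)))))), by decide +kernel⟩

def k4_pm_022_a : ∃ t, chk3 f_pm_022_a t 6 6 1 = true :=
  ⟨(a (b (a (b (l 16501480) (l 16468120)) (b (l 16448800) (l 16461568))) (a (b (l 16467904) (l 16490152)) (a (l 16486320) (l 16468440)))) (a (b (a (b (l 16399488) (l 16416320)) (b (l 16377944) (l 16397136))) (a (l 16469872) (b (l 16391128) (l 16378664)))) (b (b (l 16413408) (a (l 16379952) (l 16364760))) (a (b (l 16374048) (l 16357120)) (l 16386296))))), by decide +kernel⟩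

def k5_pm_022_a : ∃ t, chk3 f_pm_022_a t 12 7 1 = true :=
  ⟨(b (a (b (l 16532160) (a (l 16474096) (l 16451208))) (b (l 16490216) (l 16463920))) (b (a (l 16527048) (b (l 16494360) (l 16516184))) (a (b (l 16538632) (a (l 16539368) (l 16559224))) (b (c (l 16545040) (l 16512704)) (a (c (l 16546504) (l 16513248)) (c (b (l 16525840) (l 16560464)) (l 16538568))))))), by decide +kernel⟩

def k6_pm_022_a : ∃ t, chk3 f_pm_022_a t 13 14 1 = true :=
  ⟨(a (b (l 16443520) (a (l 16464304) (l 16468888))) (b (l 16443632) (a (l 16452208) (l 16456192)))), by decide +kernel⟩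

def k7_pm_022_a : ∃ t, chk3 f_pm_022_a t 13 30 1 = true :=
  ⟨(a (a (l 16510752) (b (l 16463928) (l 16511632))) (a (b (l 16471648) (l 16521880)) (b (l 16479752) (l 16530024)))), by decide +kernel⟩

def k8_pm_022_a : ∃ t, chk3 f_pm_022_a t 26 31 1 = true :=
  ⟨(b (a (l 16549216) (c (l 16549528) (l 16509888))) (a (c (b (l 16536600) (b (l 16547760) (c (l 16581136) (l 16550568)))) (b (l 16519136) (l 16553672))) (b (c (a (l 16547752) (l 16556776)) (l 16552264)) (c (b (a (l 16559720) (l 16590304)) (a (c (l 16594320) (l 16562432)) (c (a (l 16602040) (a (l 16606200) (b (l 16585856) (c (l 16598600) (l 16587192))))) (a (l 16569448) (b (l 16572416) (l 16587128)))))) (a (l 16563288) (a (l 16569120) (c (l 16579368) (l 16546480)))))))), by decide +kernel⟩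

def k9_pm_022_a : ∃ t, chk3 f_pm_022_a t 27 31 1 = true :=
  ⟨(b (a (c (b (l 16534736) (l 16550648)) (l 16562880)) (c (b (l 16541728) (l 16555544)) (l 16546144))) (a (b (c (a (l 16564848) (l 16568144)) (a (l 16541560) (l 16543928))) (c (b (a (c (l 16582864) (l 16570664)) (l 16599192)) (b (a (c (a (l 16588272) (l 16588952)) (l 16597056)) (c (l 16589672) (l 16576840))) (a (c (a (c (b (l 16594152) (l 16595864)) (l 16593968)) (c (a (l 16595376) (l 16595632)) (l 16594392))) (a (c (l 16582456) (l 16576184)) (l 16588776))) (c (c (a (a (l 16601152) (l 14)) (l 14)) (a (l 16594856) (a (l 16590024) (l 16590328)))) (c (a (l 16583168) (l 16583632)) (a (l 16576712) (l 16577088))))))) (b (a (l 16573312) (l 16553024)) (a (c (a (l 16586040) (l 16565336)) (a (l 16552584) (l 16552656))) (c (a (l 16565464) (l 16565672)) (l 16552600)))))) (b (c (a (l 16568832) (l 16569696)) (l 16564976)) (c (b (a (l 16600088) (l 16601352)) (a (c (a (b (l 16590584) (a (c (l 14) (l 16590656)) (l 14))) (l 14)) (b (l 16577744)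 (a (c (l 16594680) (l 16577560)) (c (a (l 16584680) (l 16585032)) (l 16578120))))) (c (l 14) (b (l 16579024) (c (a (a (l 16585408) (l 14)) (l 14)) (a (l 16578776) (a (l 16579328) (l 16579736)))))))) (b (a (l 16553208) (l 16553752)) (a (b (l 16578888) (c (a (l 16567584) (l 16568000)) (l 16554368))) (a (c (b (l 16565176) (l 16579008)) (l 16553232)) (c (c (l 16581360) (l 16563976)) (l 16553616))))))))), by decide +kernel⟩

def k10_pm_022_a : ∃ t, chk3 f_pm_022_a t 7 2 1 = true :=
  ⟨(a (b (a (b (l 16429680) (l 16381232)) (b (l 16470816) (l 16414048))) (a (b (l 16359784) (l 16364944)) (b (l 16392064) (l 16379248)))) (b (a (l 16576472) (b (l 16725136) (l 16700496))) (a (b (l 16543280) (a (l 16494560) (l 16562336))) (b (l 16682680) (a (l 16632080) (l 16703288)))))), by decide +kernel⟩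

def k11_pm_022_a : ∃ t, chk3 f_pm_022_a t 14 6 1 = true :=
  ⟨(b (a (b (l 16374832) (a (l 16367872) (l 16325688))) (a (l 16348016) (l 16451296))) (a (a (l 16388960) (b (l 16327168) (l 16330592))) (b (a (l 16330536) (l 16471688)) (a (l 16363648) (l 16435104))))), by decide +kernel⟩

def k12_pm_022_a : ∃ t, chk3 f_pm_022_a t 14 14 1 = true :=
  ⟨(a (b (a (l 16403960) (l 16408544)) (a (l 16462480) (l 16464264))) (b (a (l 16404504) (l 16469968)) (a (l 16451800) (l 16513904)))), by decide +kernel⟩

def k13_pm_022_a : ∃ t, chk3 f_pm_022_a t 14 30 1 = true :=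
  ⟨(a (a (b (l 16484376) (l 16510752)) (b (l 16482992) (l 16510328))) (b (a (l 16493416) (l 16553312)) (a (l 16524976) (c (l 16652024) (l 16513968))))), by decide +kernel⟩

def k14_pm_022_a : ∃ t, chk3 f_pm_022_a t 28 31 1 = true :=
  ⟨(b (a (c (l 16570696) (l 16525328)) (c (l 16570984) (l 16526344))) (b (a (c (a (l 16570920) (l 16572520)) (a (l 16544680) (l 16545584))) (c (a (l 14) (l 16613184)) (a (l 16546864) (l 16548544)))) (a (c (a (c (l 14) (b (l 16575192) (a (b (l 16580232) (a (c (l 14) (l 16580160)) (l 14))) (l 14)))) (l 14)) (b (a (l 16554664) (l 16555952)) (a (a (c (b (l 16566368) (c (l 16573352) (l 16566320))) (l 16554104)) (c (c (a (l 16582688) (l 16580504)) (l 16575816)) (l 16565168))) (c (b (l 16568416) (c (a (a (l 16574920) (l 14)) (l 14)) (a (l 16567936) (b (l 16567992) (l 16575056))))) (b (l 16554024) (c (a (l 16560696) (l 16561560)) (l 16559056))))))) (b (c (a (l 14) (c (l 16661784) (l 14))) (a (l 16578616) (l 16580728))) (a (c (l 14) (c (a (b (l 16569944) (a (c (l 14)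 (l 16569696)) (l 14))) (l 14)) (b (l 16555728) (c (a (l 16562528) (b (l 16562688) (l 16575016))) (a (l 16555072) (l 16556048)))))) (c (a (l 14) (c (c (l 16694744) (l 14)) (l 14))) (c (l 14) (b (l 16557856) (c (a (a (l 16564488) (l 14)) (l 14)) (a (l 16557128) (b (l 16557392) (l 16559256)))))))))))), by decide +kernel⟩

def k15_pm_022_a : ∃ t, chk3 f_pm_022_a t 29 31 1 = true :=
  ⟨(b (a (c (a (l 16615520) (l 16643280)) (l 16549880)) (c (a (l 16669600) (l 16694560)) (l 16549216))) (a (a (b (c (l 16620696) (l 16550632)) (c (c (a (c (l 16703536) (l 14)) (b (l 16695456) (l 16683352))) (l 14)) (b (l 16572792) (c (l 14) (a (b (l 16559736) (a (c (l 14) (l 16559296)) (l 14))) (l 14)))))) (b (c (l 16647672) (l 16553248)) (c (a (b (l 16654400) (c (l 16717016) (l 14))) (b (l 16667328) (c (l 16729352) (c (l 16681136) (l 14))))) (l 14)))) (a (c (b (l 16694224) (c (b (l 16738872) (l 16747232)) (a (c (l 16689280) (l 14)) (b (l 16681344) (l 16658896))))) (l 14)) (b (c (l 16718432) (l 16591072)) (a (c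 (c (l 16760272) (b (l 16693656) (l 16702520))) (l 14)) (c (c (l 16771368) (l 16709992)) (a (l 14) (c (c (l 16666696) (l 14)) (l 14))))))))), by decide +kernel⟩

def k16_pm_022_a : ∃ t, chk3 f_pm_022_a t 15 3 1 = true :=
  ⟨(b (a (b (a (l 16608920) (l 16567568)) (b (a (l 16496216) (l 16533400)) (a (l 16495720) (l 16549968)))) (b (a (l 16615880) (l 16691360)) (b (a (l 16603344) (l 16682920)) (a (l 16617592) (l 16695368))))) (b (a (b (a (l 16528280) (l 16581064)) (a (l 16570144) (l 16620920))) (a (b (l 16647912) (l 16686184)) (b (l 16724912) (l 16761112)))) (a (b (a (b (l 16607544) (l 16603024)) (b (l 16656456) (l 16641232))) (b (a (c (a (l 16718232) (l 16740608)) (b (l 16594840) (l 16612080))) (c (l 16771960) (a (l 16640448) (l 16663584)))) (a (b (c (a (l 16741328) (l 16762992)) (a (l 16617296) (l 16642176))) (c (a (c (l 16787440) (b (l 16723016) (l 16731520))) (c (l 16807824) (l 16749200))) (b (a (c (l 16661992) (l 14)) (c (l 16685648) (l 16625712))) (a (c (a (c (l 16680368) (l 14)) (b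 (l 16674840) (l 16679432))) (l 14)) (a (c (l 16688816) (l 14)) (c (l 16700184) (c (l 16656064) (l 14)))))))) (c (b (l 16793352) (a (l 16798576) (l 16817488))) (b (a (l 16665784) (l 16688176)) (a (b (c (l 16708064) (l 16649680)) (c (l 16716688) (a (c (l 16667712) (l 14)) (b (l 16662352) (l 16646008))))) (c (l 16733488) (b (l 16672440) (a (l 16675896) (l 16686840)))))))))) (b (a (b (l 16719640) (a (l 16725160) (l 16763264))) (b (l 16791848) (l 16816376))) (a (b (a (c (l 16809352) (l 16695928)) (l 16706120)) (c (a (b (l 16829592) (l 16844936)) (l 16873376)) (a (b (l 16719584) (a (b (l 16721728) (a (l 16704208) (l 16714984))) (b (l 16742848) (l 16753104)))) (b (l 16761496) (c (l 16806696) (l 16756200)))))) (b (a (l 16826816) (l 16863296)) (c (l 16925024) (b (l 16824136) (a (l 16823688) (l 16862800)))))))))), by decide +kernel⟩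

theorem s17_pm_022_a : ∃ t, chk3 f_pm_022_a t 14 31 1 = true := ex3_a k14_pm_022_a k15_pm_022_a

theorem s18_pm_022_a : ∃ t, chk3 f_pm_022_a t 14 15 1 = true := ex3_b k13_pm_022_a s17_pm_022_a

theorem s19_pm_022_a : ∃ t, chk3 f_pm_022_a t 14 7 1 = true := ex3_b k12_pm_022_a s18_pm_022_a

theorem s20_pm_022_a : ∃ t, chk3 f_pm_022_a t 14 3 1 = true := ex3_b k11_pm_022_a s19_pm_022_a

theorem s21_pm_022_a : ∃ t, chk3 f_pm_022_a t 7 3 1 = true := ex3_a s20_pm_022_a k16_pm_022_a

theorem s22_pm_022_a : ∃ t, chk3 f_pm_022_a t 7 1 1 = true := ex3_b k10_pm_022_a s21_pm_022_a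

theorem s23_pm_022_a : ∃ t, chk3 f_pm_022_a t 13 31 1 = true := ex3_a k8_pm_022_a k9_pm_022_a

theorem s24_pm_022_a : ∃ t, chk3 f_pm_022_a t 13 15 1 = true := ex3_b k7_pm_022_a s23_pm_022_a

theorem s25_pm_022_a : ∃ t, chk3 f_pm_022_a t 13 7 1 = true := ex3_b k6_pm_022_a s24_pm_022_a

theorem s26_pm_022_a : ∃ t, chk3 f_pm_022_a t 6 7 1 = true := ex3_a k5_pm_022_a s25_pm_022_a

theorem s27_pm_022_a : ∃ t, chk3 f_pm_022_a t 6 3 1 = true := ex3_b k4_pm_022_a s26_pm_022_a

theorem s28_pm_022_a : ∃ t, chk3 f_pm_022_a t 6 1 1 = true := ex3_b k3_pm_022_a s27_pm_022_a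

theorem s29_pm_022_a : ∃ t, chk3 f_pm_022_a t 3 1 1 = true := ex3_a s28_pm_022_a s22_pm_022_a

theorem s30_pm_022_a : ∃ t, chk3 f_pm_022_a t 5 1 1 = true := ex3_b k1_pm_022_a k2_pm_022_a

theorem s31_pm_022_a : ∃ t, chk3 f_pm_022_a t 2 1 1 = true := ex3_a k0_pm_022_a s30_pm_022_a

theorem s32_pm_022_a : ∃ t, chk3 f_pm_022_a t 1 1 1 = true := ex3_a s31_pm_022_a s29_pm_022_a

theorem c_pm_022_a : CertN 0 536870912 0 536870912 402653184 67108864 3 true true false .pp 0 2 2
    ndN0q0 ndN1q2a pcN2 cut_pm_022_a Ext.none :=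
  certN2 (fam := true) (s1 := true) (s2 := false) (a := 0) (b := 2) (c := 2) (cn := .pp) (n1 := ndN0q0) (n2 := ndN1q2a) (pc := pcN2) (cut := cut_pm_022_a) (xt := Ext.none) (P1 := 0) (W1 := 536870912) (P2 := 0) (W2 := 536870912) (P3 := 402653184) (W3 := 67108864) (N0 := 3)
    rfl (fun _ => rfl) s32_pm_022_a

noncomputable def cut_pm_022_b : Cut := Cut.of [[⟨0, 0, 0, 67108864⟩, ⟨1, 1, 0, 67108864⟩, ⟨2, 1, 0, 67108864⟩], [⟨0, 0, 1, 33554432⟩, ⟨1, 1, 0, 33554432⟩, ⟨2, 1, 1, 33554432⟩]]

noncomputable def f_pm_022_b : ℕ → ℕ → ℕ → ℕ → Bool := onCell 0 536870912 1073741824 536870912 402653184 67108864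
    (rowN 3 1 true true false .pp 0 2 2 (qsf 0 536870912 1239849684 370763052 2) ndN0q0 ndN1q2b pcN2 cut_pm_022_b Ext.none)

def k0_pm_022_b : ∃ t, chk3 f_pm_022_b t 1 1 1 = true :=
  ⟨(a (b (a (b (l 1) (a (b (b (a (a (l 16562880) (l 1)) (l 1)) (b (a (l 16496784) (l 1)) (a (l 16404216) (l 16514136)))) (a (b (l 16374152) (l 16296376)) (b (l 33855741367) (l 16346608)))) (b (l 1) (a (b (l 104185907143) (l 16422856)) (a (l 85395474103) (l 1)))))) (l 1)) (b (a (b (a (a (l 16263336) (l 16313272)) (a (l 16364584) (l 16448080))) (a (b (a (l 16137736) (l 16187496)) (l 16208784)) (b (a (l 16238608) (l 16291064)) (l 16310544)))) (b (a (a (a (l 16456480) (l 16503416)) (l 25266050519)) (l 1)) (a (b (a (l 16365792) (l 16442128)) (a (l 16306800) (l 16362616))) (b (a (l 16521056) (l 1)) (a (l 16442824) (l 16526792)))))) (b (a (a (b (l 16113728) (l 16069976)) (b (l 16235624) (l 16169976))) (a (b (l 16383984) (l 16296160)) (b (a (l 16388000) (l 16452176)) (l 16456424)))) (a (b (a (l 16078560) (l 16207656))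 (a (l 16269200) (l 16360248))) (a (b (l 16328640) (l 16455456)) (b (l 16445136) (l 16548784))))))) (b (l 1) (b (l 1) (a (b (a (b (a (l 16542336) (l 1)) (a (l 16497288) (l 16573992))) (l 1)) (a (b (l 44056675495) (l 16648256)) (b (l 122977028327) (a (l 16737248) (l 127808892951))))) (l 1))))), by decide +kernel⟩

theorem c_pm_022_b : CertN 0 536870912 1239849684 370763052 402653184 67108864 3 true true false .pp 0 2 2
    ndN0q0 ndN1q2b pcN2 cut_pm_022_b Ext.none :=
  certN1 (fam := true) (s1 := true) (s2 := false) (a := 0) (b := 2) (c := 2) (cn := .pp) (n1 := ndN0q0) (n2 := ndN1q2b) (pc := pcN2) (cut := cut_pm_022_b) (xt := Ext.none) (P1 := 0) (W1 := 536870912) (P2 := 1239849684) (W2 := 370763052) (P3 := 402653184) (W3 := 67108864) (N0 := 3)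
    rfl (fun _ => rfl) k0_pm_022_b

noncomputable def f_pm_023_a : ℕ → ℕ → ℕ → ℕ → Bool := onCell 0 536870912 0 536870912 402653184 67108864
    (rowN 3 0 true true false .up 0 2 3 (qsf 0 536870912 0 536870912 3) ndN0q0 ndN1q2a pcN3 Cut.none Ext.none)

def k0_pm_023_a : ∃ t, chk3 f_pm_023_a t 1 1 1 = true :=
  ⟨(a (l 1) (b (a (a (l 1) (b (a (l 95059774775) (l 16975472)) (a (l 1) (l 125124730311)))) (a (b (a (l 17028376) (l 17056672)) (a (l 17017984) (l 17075136))) (b (l 16895888) (a (l 17089792) (l 17096112))))) (a (b (l 1) (l 1)) (b (a (a (b (l 17027296) (l 110092468423)) (b (l 17094200) (b (l 17105776) (l 17109904)))) (a (b (l 17116144) (l 17137704)) (b (l 17128904) (l 17156936)))) (a (b (a (l 1) (l 132641350391)) (l 1)) (a (b (l 124588461175) (l 141768273479)) (b (l 17182280) (l 121903941655)))))))), by decide +kernel⟩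

theorem c_pm_023_a : CertN 0 536870912 0 536870912 402653184 67108864 3 true true false .up 0 2 3
    ndN0q0 ndN1q2a pcN3 Cut.none Ext.none :=
  certN0 (fam := true) (s1 := true) (s2 := false) (a := 0) (b := 2) (c := 3) (cn := .up) (n1 := ndN0q0) (n2 := ndN1q2a) (pc := pcN3) (cut := Cut.none) (xt := Ext.none) (P1 := 0) (W1 := 536870912) (P2 := 0) (W2 := 536870912) (P3 := 402653184) (W3 := 67108864) (N0 := 3)
    rfl k0_pm_023_a

noncomputable def f_pm_023_b : ℕ → ℕ → ℕ → ℕ → Bool := onCell 0 536870912 1610612736 536870912 402653184 67108864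
    (rowN 3 1 true true false .up 0 2 3 (qsf 0 536870912 1239849684 370763052 3) ndN0q0 ndN1q2b pcN3 Cut.none Ext.none)

def k0_pm_023_b : ∃ t, chk3 f_pm_023_b t 1 1 1 = true :=
  ⟨(b (a (b (a (b (a (l 16495472) (b (l 16476272) (l 16617784))) (a (l 16803472) (l 16801448))) (b (a (b (l 16559816) (l 16666656)) (b (l 16657384) (l 16730528))) (a (l 16808264) (l 16826184)))) (a (b (a (l 2) (l 16990872)) (l 2)) (b (a (l 16962856) (l 16939760)) (l 17057656)))) (b (a (b (a (b (l 16777552) (l 16816152)) (a (l 16897984) (l 64995441623))) (a (l 16862840) (b (l 16932184) (l 16926400)))) (a (b (a (l 173443536535) (l 119756615287)) (b (l 17024832) (l 16997160))) (b (l 1) (a (l 115998428407) (l 153579125719))))) (a (b (a (l 16924648) (l 16926400)) (a (l 16996328) (l 16958648))) (b (a (l 16951152) (a (l 16986840) (l 17103824))) (a (l 16936456) (l 16930648)))))) (b (a (a (l 2) (b (b (l 17113816) (l 2)) (l 2))) (a (b (a (l 17066496) (l 17019072)) (a (l 4) (l 17061472))) (b (a (l 16976936) (l 16937832))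 (a (l 17029056) (l 17034696))))) (b (l 4) (l 4)))), by decide +kernel⟩

theorem c_pm_023_b : CertN 0 536870912 1239849684 370763052 402653184 67108864 3 true true false .up 0 2 3
    ndN0q0 ndN1q2b pcN3 Cut.none Ext.none :=
  certN1 (fam := true) (s1 := true) (s2 := false) (a := 0) (b := 2) (c := 3) (cn := .up) (n1 := ndN0q0) (n2 := ndN1q2b) (pc := pcN3) (cut := Cut.none) (xt := Ext.none) (P1 := 0) (W1 := 536870912) (P2 := 1239849684) (W2 := 370763052) (P3 := 402653184) (W3 := 67108864) (N0 := 3)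
    rfl (fun _ => rfl) k0_pm_023_b

noncomputable def f_pm_033 : ℕ → ℕ → ℕ → ℕ → Bool := onCell 1610612736 536870912 1610612736 536870912 402653184 67108864
    (rowN 3 2 true true false .pnn 0 3 3 (qsf 0 536870912 1610612736 536870912 3) ndN0q0 ndN1q3 pcN3 Cut.none Ext.none)

def k0_pm_033 : ∃ t, chk3 f_pm_033 t 1 1 1 = true :=
  ⟨(a (b (a (b (a (b (a (l 16178816) (l 16450960)) (l 122438946167)) (b (a (l 16659440) (l 16812064)) (l 16710656))) (a (l 1) (b (l 16707360) (l 1)))) (b (a (b (l 16962400) (l 16971640)) (b (l 17065000) (l 17092560))) (a (b (l 16987160) (l 17022552)) (b (l 17119936) (l 17149000))))) (a (l 1) (a (l 1) (b (l 301756389351) (l 1))))) (a (b (a (b (b (l 17106104) (l 17136472)) (a (l 17168184) (l 4))) (l 4)) (l 4)) (l 4))), by decide +kernel⟩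

theorem c_pm_033 : CertN 0 536870912 1610612736 536870912 402653184 67108864 3 true true false .pnn 0 3 3
    ndN0q0 ndN1q3 pcN3 Cut.none Ext.none :=
  certN2 (fam := true) (s1 := true) (s2 := false) (a := 0) (b := 3) (c := 3) (cn := .pnn) (n1 := ndN0q0) (n2 := ndN1q3) (pc := pcN3) (cut := Cut.none) (xt := Ext.none) (P1 := 0) (W1 := 536870912) (P2 := 1610612736) (W2 := 536870912) (P3 := 402653184) (W3 := 67108864) (N0 := 3)
    rfl (fun _ => rfl) k0_pm_033

noncomputable def cut_pm_101 : Cut := Cut.of [[⟨0, 1, 0, 67108864⟩, ⟨1, 0, 0, 67108864⟩, ⟨2, 1, 0, 67108864⟩]]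

noncomputable def f_pm_101 : ℕ → ℕ → ℕ → ℕ → Bool := onCell 536870912 536870912 0 536870912 402653184 67108864
    (rowN 3 2 true true false .npn 1 0 1 (qsf 536870912 536870912 0 536870912 1) ndN0q1 ndN1q0 pcN1 cut_pm_101 Ext.none)

def k0_pm_101 : ∃ t, chk3 f_pm_101 t 1 1 1 = true :=
  ⟨(a (l 3) (b (a (l 3) (b (a (l 3) (a (l 3) (a (l 3) (b (b (l 6) (l 3)) (l 3))))) (l 3))) (l 3))), by decide +kernel⟩

theorem c_pm_101 : CertN 536870912 536870912 0 536870912 402653184 67108864 3 true true false .npn 1 0 1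
    ndN0q1 ndN1q0 pcN1 cut_pm_101 Ext.none :=
  certN2 (fam := true) (s1 := true) (s2 := false) (a := 1) (b := 0) (c := 1) (cn := .npn) (n1 := ndN0q1) (n2 := ndN1q0) (pc := pcN1) (cut := cut_pm_101) (xt := Ext.none) (P1 := 536870912) (W1 := 536870912) (P2 := 0) (W2 := 536870912) (P3 := 402653184) (W3 := 67108864) (N0 := 3)
    rfl (fun _ => rfl) k0_pm_101

noncomputable def cut_pm_102 : Cut := Cut.of [[⟨0, 1, 0, 67108864⟩, ⟨1, 0, 0, 67108864⟩, ⟨2, 1, 0, 67108864⟩]]

noncomputable def f_pm_102 : ℕ → ℕ → ℕ → ℕ → Bool := onCell 536870912 536870912 1073741824 536870912 402653184 67108864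
    (rowN 3 1 true true false .npp 1 0 2 (qsf 536870912 536870912 0 536870912 2) ndN0q1 ndN1q0 pcN2 cut_pm_102 Ext.none)

def k0_pm_102 : ∃ t, chk3 f_pm_102 t 2 1 1 = true :=
  ⟨(b (b (b (l 3) (b (a (l 3) (a (a (l 403895107655) (l 216527144327)) (a (l 192904913207) (l 17050288)))) (a (a (l 2) (b (a (l 160088664391) (l 16999440)) (l 146667069639))) (a (b (a (l 16986648) (l 16973656)) (l 16977344)) (l 17120232))))) (b (b (b (a (a (l 2) (l 141835247495)) (a (l 16973248) (l 16924352))) (a (l 2) (a (b (l 16965152) (l 16938864)) (l 16899952)))) (a (l 2) (a (l 16919912) (l 16867240)))) (a (l 2) (l 17046576)))) (b (a (l 2) (a (l 2) (l 16822432))) (l 2))), by decide +kernel⟩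

def k1_pm_102 : ∃ t, chk3 f_pm_102 t 3 1 1 = true :=
  ⟨(b (b (b (a (b (l 3) (a (b (l 3) (l 145660333223)) (a (l 112911069447) (b (l 16873824) (l 16857928))))) (a (a (b (b (l 3) (l 109689696407)) (b (l 16869776) (a (l 16840088) (l 16827136)))) (b (b (l 3) (a (l 89288505975) (l 85530374247))) (b (b (l 16910512) (l 16882352)) (l 16890848)))) (b (b (a (b (l 3) (a (l 105394597255) (b (l 6) (l 16850560)))) (l 6)) (a (b (a (l 16861192) (l 16803360)) (a (l 16854008) (l 16837840))) (b (l 6) (a (l 16780848) (l 6))))) (b (a (a (l 16863160) (l 16788712)) (a (l 16770560) (a (l 16754968) (l 6)))) (a (l 16786952) (a (l 16756424) (l 16734968))))))) (a (b (a (b (l 16950824) (l 16892416)) (b (l 16896184) (l 16921896))) (a (l 17012536) (l 16855728))) (a (b (a (b (l 16817088) (l 16804912)) (l 16802720)) (a (l 16812656) (l 16785760))) (a (b (l 16832304) (l 16742784)) (b (a (l 16736152) (l 16713592)) (l 16695888)))))) (a (b (b (a (l 16923824) (b (l 16806752) (l 16811544))) (l 16958496)) (a (l 16820416) (l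 16792480))) (b (a (b (b (l 16783872) (l 16760536)) (l 16739616)) (b (b (a (l 16719032) (l 16671872)) (a (l 16697464) (l 16695808))) (l 16654608))) (a (l 16719560) (a (l 16648112) (l 16599880)))))) (b (a (b (l 16899456) (l 16832112)) (b (a (l 16695712) (l 16601744)) (a (l 16681344) (l 16790416)))) (b (a (l 16854360) (a (l 16763232) (l 16677000))) (a (l 2) (a (b (l 16812264) (l 2)) (b (l 16793976) (l 16881456))))))), by decide +kernel⟩

theorem s2_pm_102 : ∃ t, chk3 f_pm_102 t 1 1 1 = true := ex3_a k0_pm_102 k1_pm_102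

theorem c_pm_102 : CertN 536870912 536870912 0 536870912 402653184 67108864 3 true true false .npp 1 0 2
    ndN0q1 ndN1q0 pcN2 cut_pm_102 Ext.none :=
  certN1 (fam := true) (s1 := true) (s2 := false) (a := 1) (b := 0) (c := 2) (cn := .npp) (n1 := ndN0q1) (n2 := ndN1q0) (pc := pcN2) (cut := cut_pm_102) (xt := Ext.none) (P1 := 536870912) (W1 := 536870912) (P2 := 0) (W2 := 536870912) (P3 := 402653184) (W3 := 67108864) (N0 := 3)
    rfl (fun _ => rfl) s2_pm_102

noncomputable def f_pm_112 : ℕ → ℕ → ℕ → ℕ → Bool := onCell 536870912 536870912 1073741824 536870912 402653184 67108864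
    (rowN 3 1 true true false .dn 1 1 2 (qsf 536870912 536870912 536870912 536870912 2) ndN0q1 ndN1q1 pcN2 Cut.none Ext.none)

def k0_pm_112 : ∃ t, chk3 f_pm_112 t 1 1 1 = true :=
  ⟨(a (b (b (b (l 3) (b (a (l 3) (l 1)) (a (a (b (l 3) (a (b (l 384030995655) (a (l 17041408) (l 17033408))) (l 222969739463))) (b (a (l 393694646855) (l 16997848)) (a (l 17007512) (l 16993120)))) (a (a (l 326988434135) (l 1)) (l 1))))) (b (b (b (a (a (a (b (l 17035832) (l 17035152)) (l 17018576)) (a (l 17003040) (l 16988656))) (a (l 16970056) (l 1))) (a (b (a (a (l 17036416) (l 17018520)) (l 16993376)) (a (b (l 17092320) (b (l 17070912) (l 17068744))) (b (l 16989616) (b (l 16981296) (l 16972152))))) (a (b (l 16959496) (l 16933408)) (l 1)))) (a (a (a (l 17058352) (l 17019288)) (l 16969000)) (a (l 16912832) (l 16862256)))) (a (a (a (l 17050776) (l 17057416)) (l 17005624)) (a (l 16909360) (l 16819592))))) (b (a (b (a (l 16900696) (l 16916080)) (a (l 16869160) (l 16804752))) (b (l 17038216) (l 17002640))) (b (a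 (a (a (l 16664320) (l 16737688)) (l 16808680)) (a (l 16851952) (l 16939176))) (a (a (a (l 16733984) (l 16800128)) (a (l 16847312) (l 16884600))) (a (l 16922448) (l 16988024)))))) (b (b (l 1) (a (b (l 1) (l 255047894999)) (l 1))) (b (a (b (l 17000144) (l 16837272)) (b (l 1) (a (l 16705056) (l 1)))) (b (a (l 16862328) (a (l 16749080) (l 16746728))) (a (a (l 16965624) (l 16899880)) (a (l 16962808) (b (l 16781280) (l 16863296)))))))), by decide +kernel⟩

theorem c_pm_112 : CertN 536870912 536870912 536870912 536870912 402653184 67108864 3 true true false .dn 1 1 2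
    ndN0q1 ndN1q1 pcN2 Cut.none Ext.none :=
  certN1 (fam := true) (s1 := true) (s2 := false) (a := 1) (b := 1) (c := 2) (cn := .dn) (n1 := ndN0q1) (n2 := ndN1q1) (pc := pcN2) (cut := Cut.none) (xt := Ext.none) (P1 := 536870912) (W1 := 536870912) (P2 := 536870912) (W2 := 536870912) (P3 := 402653184) (W3 := 67108864) (N0 := 3)
    rfl (fun _ => rfl) k0_pm_112

noncomputable def f_pm_113 : ℕ → ℕ → ℕ → ℕ → Bool := onCell 536870912 536870912 536870912 536870912 402653184 67108864
    (rowN 3 0 true true false .nn 1 1 3 (qsf 536870912 536870912 536870912 536870912 3) ndN0q1 ndN1q1 pcN3 Cut.none Ext.none)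

def k0_pm_113 : ∃ t, chk3 f_pm_113 t 1 1 1 = true :=
  ⟨(a (b (a (l 1) (b (l 1) (a (l 1) (l 16870008)))) (a (a (b (l 1) (b (l 16663976) (a (l 16671312) (l 16788848)))) (b (b (l 1) (l 16801784)) (b (l 16842816) (l 16924752)))) (b (a (b (l 16865928) (l 16914360)) (l 17034800)) (a (b (l 16979800) (l 17055816)) (b (l 17064968) (l 17130464)))))) (b (a (b (l 148747715895) (a (l 16958832) (l 17058424))) (b (a (l 17144880) (l 17137536)) (a (l 17132352) (b (l 17105496) (l 17077440))))) (a (b (a (l 17035496) (l 17065704)) (a (l 17119088) (a (l 17100832) (l 17074720)))) (b (a (b (l 17074848) (l 17047096)) (b (l 17101496) (a (l 17006968) (l 16978008)))) (a (b (a (l 17043912) (l 17006072)) (a (l 17036952) (b (l 16989080) (l 16974592)))) (b (a (l 17058104) (l 17119928)) (b (a (l 16930544) (l 16887048)) (a (l 16930080) (l 4))))))))), by decide +kernel⟩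

theorem c_pm_113 : CertN 536870912 536870912 536870912 536870912 402653184 67108864 3 true true false .nn 1 1 3
    ndN0q1 ndN1q1 pcN3 Cut.none Ext.none :=
  certN0 (fam := true) (s1 := true) (s2 := false) (a := 1) (b := 1) (c := 3) (cn := .nn) (n1 := ndN0q1) (n2 := ndN1q1) (pc := pcN3) (cut := Cut.none) (xt := Ext.none) (P1 := 536870912) (W1 := 536870912) (P2 := 536870912) (W2 := 536870912) (P3 := 402653184) (W3 := 67108864) (N0 := 3)
    rfl k0_pm_113

noncomputable def cut_pm_123_a : Cut := Cut.of [[⟨0, 1, 0, 67108864⟩, ⟨1, 1, 0, 67108864⟩, ⟨2, 2, 0, 16777216⟩]]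

noncomputable def f_pm_123_a : ℕ → ℕ → ℕ → ℕ → Bool := onCell 1610612736 536870912 0 536870912 402653184 67108864
    (rowN 3 2 true true false .npn 1 2 3 (qsf 536870912 536870912 0 536870912 3) ndN0q1 ndN1q2a pcN3 cut_pm_123_a Ext.none)

def k0_pm_123_a : ∃ t, chk3 f_pm_123_a t 2 1 1 = true :=
  ⟨(b (a (a (l 1) (b (l 1) (a (l 1) (l 17177912)))) (a (b (l 67143030215) (a (l 17098544) (l 17090312))) (b (l 17081856) (l 17057568)))) (a (b (a (l 1) (a (b (l 1) (l 17142608)) (b (l 17134920) (l 17148544)))) (a (a (b (l 1) (b (l 17206408) (a (l 17233648) (l 17246216)))) (b (b (l 17175072) (l 17202360)) (b (l 17229384) (l 17254744)))) (a (b (l 17203576) (l 17326920)) (b (l 17202000) (l 17227664))))) (b (a (b (l 17127520) (l 17153144)) (b (l 17082384) (l 17097736))) (a (a (b (l 17184608) (l 17185472)) (b (l 17160584) (l 17143632))) (b (l 17253440) (a (l 17105688) (l 17071272))))))), by decide +kernel⟩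

def k1_pm_123_a : ∃ t, chk3 f_pm_123_a t 3 1 1 = true :=
  ⟨(a (b (a (b (a (l 16942624) (l 16921064)) (a (l 17007848) (l 16969584))) (a (b (l 16881272) (l 16929536)) (b (l 16845632) (l 16888128)))) (b (a (a (l 17038344) (l 17000328)) (a (l 16960024) (l 16919080))) (b (a (c (l 17128440) (l 17187832)) (a (l 16966040) (l 16929632))) (a (a (l 17038192) (l 17005640)) (a (l 16972784) (l 16938848)))))) (a (b (b (a (l 16942920) (a (l 16910992) (b (l 16807352) (l 16809080)))) (a (l 16847896) (l 16941328))) (b (a (l 16983736) (a (l 16871656) (l 16916640))) (b (a (l 16893288) (l 16856544)) (a (l 16924272) (b (l 16864000) (l 16868496)))))) (b (a (b (a (l 123715320519) (l 4)) (a (l 16885136) (c (l 67881090887) (l 68417957047)))) (a (b (l 4) (b (l 4) (l 106535716279))) (l 4))) (a (b (a (l 16941480) (b (l 16797736) (l 16804480))) (b (a (l 16828888) (l 16854568)) (a (b (l 16836032) (l 16839968)) (b (l 16817552) (l 16821048))))) (a (b (b (l 16970272) (a (l 16793760) (l 16869448))) (b (b (l 16836392) (l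 16840584)) (b (l 16801376) (b (l 16803232) (l 16824680))))) (b (b (l 4) (a (l 16902968) (l 4))) (b (b (a (l 16908632) (a (l 16843408) (l 4))) (a (b (l 16786040) (l 16787208)) (a (b (l 16819912) (l 6)) (l 6)))) (a (a (a (b (l 16792176) (l 16814944)) (l 6)) (l 6)) (l 6))))))))), by decide +kernel⟩

theorem s2_pm_123_a : ∃ t, chk3 f_pm_123_a t 1 1 1 = true := ex3_a k0_pm_123_a k1_pm_123_a

theorem c_pm_123_a : CertN 536870912 536870912 0 536870912 402653184 67108864 3 true true false .npn 1 2 3
    ndN0q1 ndN1q2a pcN3 cut_pm_123_a Ext.none :=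
  certN2 (fam := true) (s1 := true) (s2 := false) (a := 1) (b := 2) (c := 3) (cn := .npn) (n1 := ndN0q1) (n2 := ndN1q2a) (pc := pcN3) (cut := cut_pm_123_a) (xt := Ext.none) (P1 := 536870912) (W1 := 536870912) (P2 := 0) (W2 := 536870912) (P3 := 402653184) (W3 := 67108864) (N0 := 3)
    rfl (fun _ => rfl) s2_pm_123_a

noncomputable def cut_pm_123_b : Cut := Cut.of [[⟨0, 1, 0, 67108864⟩, ⟨1, 1, 0, 67108864⟩, ⟨2, 2, 0, 16777216⟩]]

noncomputable def f_pm_123_b : ℕ → ℕ → ℕ → ℕ → Bool := onCell 1610612736 536870912 1239849684 370763052 402653184 67108864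
    (rowN 3 2 true true false .npn 1 2 3 (qsf 536870912 536870912 1239849684 370763052 3) ndN0q1 ndN1q2b pcN3 cut_pm_123_b Ext.none)

def k0_pm_123_b : ∃ t, chk3 f_pm_123_b t 1 1 1 = true :=
  ⟨(a (b (a (l 1) (b (a (b (a (l 42446821143) (b (l 17021536) (l 16993016))) (l 1)) (b (a (b (l 16994928) (l 16971232)) (l 16951832)) (a (l 16947720) (l 16927664)))) (b (a (l 1) (l 83249356327)) (l 1)))) (l 1)) (a (b (a (b (b (a (l 16917912) (l 16926584)) (a (l 16905080) (l 16883352))) (b (l 17053832) (l 16934128))) (b (b (a (b (l 16855608) (l 16855040)) (b (l 16828064) (l 16836008))) (a (l 16866640) (l 16858960))) (a (b (l 16896232) (l 16935136)) (b (l 16899808) (l 16938760))))) (a (l 1) (b (a (l 17014928) (l 16990824)) (l 1)))) (a (b (b (a (b (a (l 16822408) (l 16826336)) (l 16864720)) (b (a (l 16835480) (l 4)) (l 4))) (a (b (l 16902296) (l 4)) (l 4))) (l 4)) (l 4)))), by decide +kernel⟩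

theorem c_pm_123_b : CertN 536870912 536870912 1239849684 370763052 402653184 67108864 3 true true false .npn 1 2 3
    ndN0q1 ndN1q2b pcN3 cut_pm_123_b Ext.none :=
  certN2 (fam := true) (s1 := true) (s2 := false) (a := 1) (b := 2) (c := 3) (cn := .npn) (n1 := ndN0q1) (n2 := ndN1q2b) (pc := pcN3) (cut := cut_pm_123_b) (xt := Ext.none) (P1 := 536870912) (W1 := 536870912) (P2 := 1239849684) (W2 := 370763052) (P3 := 402653184) (W3 := 67108864) (N0 := 3)
    rfl (fun _ => rfl) k0_pm_123_b

noncomputable def f_pm_133 : ℕ → ℕ → ℕ → ℕ → Bool := onCell 536870912 536870912 1610612736 536870912 402653184 67108864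
    (rowN 3 0 true true false .dn 1 3 3 (qsf 536870912 536870912 1610612736 536870912 3) ndN0q1 ndN1q3 pcN3 Cut.none Ext.none)

def k0_pm_133 : ∃ t, chk3 f_pm_133 t 1 1 1 = true :=
  ⟨(l 4), by decide +kernel⟩

theorem c_pm_133 : CertN 536870912 536870912 1610612736 536870912 402653184 67108864 3 true true false .dn 1 3 3
    ndN0q1 ndN1q3 pcN3 Cut.none Ext.none :=
  certN0 (fam := true) (s1 := true) (s2 := false) (a := 1) (b := 3) (c := 3) (cn := .dn) (n1 := ndN0q1) (n2 := ndN1q3) (pc := pcN3) (cut := Cut.none) (xt := Ext.none) (P1 := 536870912) (W1 := 536870912) (P2 := 1610612736) (W2 := 536870912) (P3 := 402653184) (W3 := 67108864) (N0 := 3)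
    rfl k0_pm_133

noncomputable def cut_pm_202 : Cut := Cut.of [[⟨0, 1, 0, 67108864⟩, ⟨1, 0, 0, 67108864⟩, ⟨2, 1, 0, 67108864⟩]]

noncomputable def f_pm_202 : ℕ → ℕ → ℕ → ℕ → Bool := onCell 0 536870912 0 536870912 402653184 67108864
    (rowN 3 0 true true false .pp 2 0 2 (qsf 0 536870912 0 536870912 2) ndN0q2 ndN1q0 pcN2 cut_pm_202 Ext.none)

def k0_pm_202 : ∃ t, chk3 f_pm_202 t 2 1 1 = true :=
  ⟨(b (a (b (b (b (a (b (l 16460000) (l 16462200)) (a (b (l 16452712) (l 16471744)) (l 16460584))) (a (l 16486616) (a (l 16495008) (l 16500488)))) (a (l 16539904) (l 16714568))) (b (l 16681232) (l 16682592))) (b (b (b (b (a (l 16458544) (l 16579056)) (l 16587472)) (a (l 16494600) (l 16496336))) (b (a (l 16536568) (l 16522840)) (a (l 16576208) (l 16558352)))) (b (a (l 16629352) (l 16628760)) (a (l 16703528) (l 16711120))))) (b (a (b (l 16721272) (l 16767960)) (b (l 16774664) (l 16823376))) (b (a (l 2) (l 16861128)) (l 2)))), by decide +kernel⟩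

def k1_pm_202 : ∃ t, chk3 f_pm_202 t 3 2 1 = true :=
  ⟨(a (a (b (b (b (a (a (l 16578864) (l 16614472)) (b (l 16627280) (l 16543152))) (l 16528480)) (l 16529920)) (b (l 16590656) (l 16794968))) (b (b (b (b (a (b (a (l 16593424) (l 16610216)) (l 16592200)) (b (a (a (l 16623080) (c (l 16656936) (l 16637808))) (b (a (b (l 16641552) (l 16640104)) (l 16645504)) (l 16640064))) (a (l 16618136) (l 16634472)))) (a (l 16576952) (b (l 16617200) (l 16607736)))) (a (l 16543704) (l 16602384))) (l 16637032)) (b (l 16562832) (b (l 16608696) (l 16650672))))) (b (b (a (b (b (b (b (a (a (c (l 16656792) (l 16649552)) (c (l 16667752) (l 16661672))) (l 6)) (a (a (l 16650168) (l 16661424)) (a (l 16674024) (l 6)))) (a (l 16671928) (a (l 16668632) (l 16682208)))) (a (b (l 16644920) (l 16638064)) (b (l 16688880) (l 16660440)))) (a (b (l 16688952) (l 16608104)) (b (l 16649352) (l 16634800)))) (b (a (b (l 6) (a (l 16705832) (l 6))) (l 6)) (a (l 16751272) (a (l 16735728) (b (l 6) (l 16711440)))))) (a (b (a (b (l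 16586296) (l 16563688)) (b (l 16619752) (l 16601336))) (a (l 16544088) (a (l 16558768) (b (a (l 16794296) (l 16595576)) (l 16587304))))) (b (a (l 16675480) (l 16718400)) (a (b (l 16608328) (a (l 16772256) (l 16598664))) (l 16707592))))) (a (b (l 16552376) (l 16583968)) (b (b (a (l 16804416) (b (a (l 16800488) (l 16633792)) (l 16757240))) (l 16575104)) (l 16568272))))), by decide +kernel⟩

def k2_pm_202 : ∃ t, chk3 f_pm_202 t 3 3 1 = true :=
  ⟨(b (a (b (a (l 16789160) (l 16726552)) (a (l 16869064) (l 16878112))) (b (a (b (l 16631184) (l 16670864)) (a (l 16603944) (l 16580576))) (a (l 16744168) (b (l 16632168) (l 16662464))))) (a (b (a (l 16935024) (l 16969384)) (l 2)) (b (a (b (l 16859784) (l 16953832)) (a (l 16795600) (l 16709312))) (a (l 17023864) (b (l 16900392) (l 16981632)))))), by decide +kernel⟩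

theorem s3_pm_202 : ∃ t, chk3 f_pm_202 t 3 1 1 = true := ex3_b k1_pm_202 k2_pm_202

theorem s4_pm_202 : ∃ t, chk3 f_pm_202 t 1 1 1 = true := ex3_a k0_pm_202 s3_pm_202

theorem c_pm_202 : CertN 0 536870912 0 536870912 402653184 67108864 3 true true false .pp 2 0 2
    ndN0q2 ndN1q0 pcN2 cut_pm_202 Ext.none :=
  certN0 (fam := true) (s1 := true) (s2 := false) (a := 2) (b := 0) (c := 2) (cn := .pp) (n1 := ndN0q2) (n2 := ndN1q0) (pc := pcN2) (cut := cut_pm_202) (xt := Ext.none) (P1 := 0) (W1 := 536870912) (P2 := 0) (W2 := 536870912) (P3 := 402653184) (W3 := 67108864) (N0 := 3)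
    rfl s4_pm_202

end Pool.Agent.Strip051.G.I3_8_7_16.Tab.C.NA01

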