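import Pool.Agent.Strip051.G.I3_8_7_16.Tab

/-! # Certificates N6 (generated) -/

set_option linter.all false
set_option maxRecDepth 100000

namespace Pool.Agent.Strip051.G.I3_8_7_16.Tab.C.NA01

open Pool.Agent.Strip051.PB Pool.Agent.Strip051.PB.T
open Pool.Agent.Strip051.G.I3_8_7_16.Tab

noncomputable def f_pm_203 : ℕ → ℕ → ℕ → ℕ → Bool := onCell 0 536870912 1610612736 536870912 402653184 67108864
    (rowN 3 1 true true false .up 2 0 3 (qsf 0 536870912 0 536870912 3) ndN0q2 ndN1q0 pcN3 Cut.none Ext.none)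

def k0_pm_203 : ∃ t, chk3 f_pm_203 t 1 1 1 = true :=
  ⟨(b (b (a (b (a (l 16789600) (l 16888264)) (a (l 16795944) (l 16865456))) (a (b (l 17029376) (l 16982952)) (b (l 17137256) (l 17092352)))) (a (b (a (l 4) (l 16852312)) (l 2)) (a (l 2) (l 2)))) (l 2)), by decide +kernel⟩

theorem c_pm_203 : CertN 0 536870912 0 536870912 402653184 67108864 3 true true false .up 2 0 3
    ndN0q2 ndN1q0 pcN3 Cut.none Ext.none :=
  certN1 (fam := true) (s1 := true) (s2 := false) (a := 2) (b := 0) (c := 3) (cn := .up) (n1 := ndN0q2) (n2 := ndN1q0) (pc := pcN3) (cut := Cut.none) (xt := Ext.none) (P1 := 0) (W1 := 536870912) (P2 := 0) (W2 := 536870912) (P3 := 402653184) (W3 := 67108864) (N0 := 3)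
    rfl (fun _ => rfl) k0_pm_203

noncomputable def f_pm_213 : ℕ → ℕ → ℕ → ℕ → Bool := onCell 0 536870912 1610612736 536870912 402653184 67108864
    (rowN 3 1 true true false .pnn 2 1 3 (qsf 0 536870912 536870912 536870912 3) ndN0q2 ndN1q1 pcN3 Cut.none Ext.none)

def k0_pm_213 : ∃ t, chk3 f_pm_213 t 1 1 1 = true :=
  ⟨(a (b (b (b (l 1) (l 132104495511)) (a (l 4) (b (l 16850584) (l 16870424)))) (l 4)) (b (b (a (b (l 1) (l 16973064)) (b (l 17122480) (l 17084840))) (a (b (l 16926816) (l 16910816)) (b (l 17042432) (l 16999616)))) (b (b (a (l 48554035031) (l 16968160)) (a (l 4) (l 17021720))) (b (a (l 4) (b (l 16894056) (l 4))) (l 4))))), by decide +kernel⟩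

theorem c_pm_213 : CertN 0 536870912 536870912 536870912 402653184 67108864 3 true true false .pnn 2 1 3
    ndN0q2 ndN1q1 pcN3 Cut.none Ext.none :=
  certN1 (fam := true) (s1 := true) (s2 := false) (a := 2) (b := 1) (c := 3) (cn := .pnn) (n1 := ndN0q2) (n2 := ndN1q1) (pc := pcN3) (cut := Cut.none) (xt := Ext.none) (P1 := 0) (W1 := 536870912) (P2 := 536870912) (W2 := 536870912) (P3 := 402653184) (W3 := 67108864) (N0 := 3)
    rfl (fun _ => rfl) k0_pm_213

noncomputable def f_mm_001 : ℕ → ℕ → ℕ → ℕ → Bool := onCell 0 536870912 0 536870912 402653184 67108864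
    (rowN 3 0 true false false .up 0 0 1 (qsf 0 536870912 0 536870912 1) ndN0q0 ndN1q0 pcN1 Cut.none Ext.none)

def k0_mm_001 : ∃ t, chk3 f_mm_001 t 1 1 1 = true :=
  ⟨(l 4), by decide +kernel⟩

theorem c_mm_001 : CertN 0 536870912 0 536870912 402653184 67108864 3 true false false .up 0 0 1
    ndN0q0 ndN1q0 pcN1 Cut.none Ext.none :=
  certN0 (fam := true) (s1 := false) (s2 := false) (a := 0) (b := 0) (c := 1) (cn := .up) (n1 := ndN0q0) (n2 := ndN1q0) (pc := pcN1) (cut := Cut.none) (xt := Ext.none) (P1 := 0) (W1 := 536870912) (P2 := 0) (W2 := 536870912) (P3 := 402653184) (W3 := 67108864) (N0 := 3)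
    rfl k0_mm_001

noncomputable def f_mm_011 : ℕ → ℕ → ℕ → ℕ → Bool := onCell 0 536870912 536870912 536870912 402653184 67108864
    (rowN 3 0 true false false .pnn 0 1 1 (qsf 0 536870912 536870912 536870912 1) ndN0q0 ndN1q1 pcN1 Cut.none Ext.none)

def k0_mm_011 : ∃ t, chk3 f_mm_011 t 1 1 1 = true :=
  ⟨(l 4), by decide +kernel⟩

theorem c_mm_011 : CertN 0 536870912 536870912 536870912 402653184 67108864 3 true false false .pnn 0 1 1
    ndN0q0 ndN1q1 pcN1 Cut.none Ext.none :=
  certN0 (fam := true) (s1 := false) (s2 := false) (a := 0) (b := 1) (c := 1) (cn := .pnn) (n1 := ndN0q0) (n2 := ndN1q1) (pc := pcN1) (cut := Cut.none) (xt := Ext.none) (P1 := 0) (W1 := 536870912) (P2 := 536870912) (W2 := 536870912) (P3 := 402653184) (W3 := 67108864) (N0 := 3)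
    rfl k0_mm_011

noncomputable def f_mm_012 : ℕ → ℕ → ℕ → ℕ → Bool := onCell 0 536870912 536870912 536870912 402653184 67108864
    (rowN 3 0 true false false .pnp 0 1 2 (qsf 0 536870912 536870912 536870912 2) ndN0q0 ndN1q1 pcN2 Cut.none Ext.none)

def k0_mm_012 : ∃ t, chk3 f_mm_012 t 1 1 1 = true :=
  ⟨(l 4), by decide +kernel⟩

theorem c_mm_012 : CertN 0 536870912 536870912 536870912 402653184 67108864 3 true false false .pnp 0 1 2
    ndN0q0 ndN1q1 pcN2 Cut.none Ext.none :=
  certN0 (fam := true) (s1 := false) (s2 := false) (a := 0) (b := 1) (c := 2) (cn := .pnp) (n1 := ndN0q0) (n2 := ndN1q1) (pc := pcN2) (cut := Cut.none) (xt := Ext.none) (P1 := 0) (W1 := 536870912) (P2 := 536870912) (W2 := 536870912) (P3 := 402653184) (W3 := 67108864) (N0 := 3)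
    rfl k0_mm_012

noncomputable def f_mm_022_a : ℕ → ℕ → ℕ → ℕ → Bool := onCell 0 536870912 0 536870912 402653184 67108864
    (rowN 3 0 true false false .pp 0 2 2 (qsf 0 536870912 0 536870912 2) ndN0q0 ndN1q2a pcN2 Cut.none Ext.none)

def k0_mm_022_a : ∃ t, chk3 f_mm_022_a t 1 1 1 = true :=
  ⟨(l 5), by decide +kernel⟩

theorem c_mm_022_a : CertN 0 536870912 0 536870912 402653184 67108864 3 true false false .pp 0 2 2
    ndN0q0 ndN1q2a pcN2 Cut.none Ext.none :=
  certN0 (fam := true) (s1 := false) (s2 := false) (a := 0) (b := 2) (c := 2) (cn := .pp) (n1 := ndN0q0) (n2 := ndN1q2a) (pc := pcN2) (cut := Cut.none) (xt := Ext.none) (P1 := 0) (W1 := 536870912) (P2 := 0) (W2 := 536870912) (P3 := 402653184) (W3 := 67108864) (N0 := 3)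
    rfl k0_mm_022_a

noncomputable def f_mm_022_b : ℕ → ℕ → ℕ → ℕ → Bool := onCell 0 536870912 1239849684 370763052 402653184 67108864
    (rowN 3 0 true false false .pp 0 2 2 (qsf 0 536870912 1239849684 370763052 2) ndN0q0 ndN1q2b pcN2 Cut.none Ext.none)

def k0_mm_022_b : ∃ t, chk3 f_mm_022_b t 1 1 1 = true :=
  ⟨(l 5), by decide +kernel⟩

theorem c_mm_022_b : CertN 0 536870912 1239849684 370763052 402653184 67108864 3 true false false .pp 0 2 2
    ndN0q0 ndN1q2b pcN2 Cut.none Ext.none :=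
  certN0 (fam := true) (s1 := false) (s2 := false) (a := 0) (b := 2) (c := 2) (cn := .pp) (n1 := ndN0q0) (n2 := ndN1q2b) (pc := pcN2) (cut := Cut.none) (xt := Ext.none) (P1 := 0) (W1 := 536870912) (P2 := 1239849684) (W2 := 370763052) (P3 := 402653184) (W3 := 67108864) (N0 := 3)
    rfl k0_mm_022_b

noncomputable def f_mm_023_a : ℕ → ℕ → ℕ → ℕ → Bool := onCell 0 536870912 0 536870912 402653184 67108864
    (rowN 3 0 true false false .up 0 2 3 (qsf 0 536870912 0 536870912 3) ndN0q0 ndN1q2a pcN3 Cut.none Ext.none)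

def k0_mm_023_a : ∃ t, chk3 f_mm_023_a t 1 1 1 = true :=
  ⟨(l 5), by decide +kernel⟩

theorem c_mm_023_a : CertN 0 536870912 0 536870912 402653184 67108864 3 true false false .up 0 2 3
    ndN0q0 ndN1q2a pcN3 Cut.none Ext.none :=
  certN0 (fam := true) (s1 := false) (s2 := false) (a := 0) (b := 2) (c := 3) (cn := .up) (n1 := ndN0q0) (n2 := ndN1q2a) (pc := pcN3) (cut := Cut.none) (xt := Ext.none) (P1 := 0) (W1 := 536870912) (P2 := 0) (W2 := 536870912) (P3 := 402653184) (W3 := 67108864) (N0 := 3)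
    rfl k0_mm_023_a

noncomputable def f_mm_023_b : ℕ → ℕ → ℕ → ℕ → Bool := onCell 0 536870912 1239849684 370763052 402653184 67108864
    (rowN 3 0 true false false .up 0 2 3 (qsf 0 536870912 1239849684 370763052 3) ndN0q0 ndN1q2b pcN3 Cut.none Ext.none)

def k0_mm_023_b : ∃ t, chk3 f_mm_023_b t 1 1 1 = true :=
  ⟨(l 5), by decide +kernel⟩

theorem c_mm_023_b : CertN 0 536870912 1239849684 370763052 402653184 67108864 3 true false false .up 0 2 3
    ndN0q0 ndN1q2b pcN3 Cut.none Ext.none :=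
  certN0 (fam := true) (s1 := false) (s2 := false) (a := 0) (b := 2) (c := 3) (cn := .up) (n1 := ndN0q0) (n2 := ndN1q2b) (pc := pcN3) (cut := Cut.none) (xt := Ext.none) (P1 := 0) (W1 := 536870912) (P2 := 1239849684) (W2 := 370763052) (P3 := 402653184) (W3 := 67108864) (N0 := 3)
    rfl k0_mm_023_b

noncomputable def f_mm_033 : ℕ → ℕ → ℕ → ℕ → Bool := onCell 0 536870912 1610612736 536870912 402653184 67108864
    (rowN 3 0 true false false .pnn 0 3 3 (qsf 0 536870912 1610612736 536870912 3) ndN0q0 ndN1q3 pcN3 Cut.none Ext.none)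

def k0_mm_033 : ∃ t, chk3 f_mm_033 t 1 1 1 = true :=
  ⟨(l 5), by decide +kernel⟩

theorem c_mm_033 : CertN 0 536870912 1610612736 536870912 402653184 67108864 3 true false false .pnn 0 3 3
    ndN0q0 ndN1q3 pcN3 Cut.none Ext.none :=
  certN0 (fam := true) (s1 := false) (s2 := false) (a := 0) (b := 3) (c := 3) (cn := .pnn) (n1 := ndN0q0) (n2 := ndN1q3) (pc := pcN3) (cut := Cut.none) (xt := Ext.none) (P1 := 0) (W1 := 536870912) (P2 := 1610612736) (W2 := 536870912) (P3 := 402653184) (W3 := 67108864) (N0 := 3)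
    rfl k0_mm_033

noncomputable def cut_mm_101 : Cut := Cut.of [[⟨0, 1, 0, 67108864⟩, ⟨1, 0, 0, 67108864⟩, ⟨2, 1, 0, 67108864⟩]]

noncomputable def f_mm_101 : ℕ → ℕ → ℕ → ℕ → Bool := onCell 536870912 536870912 0 536870912 402653184 67108864
    (rowN 3 0 true false false .npn 1 0 1 (qsf 536870912 536870912 0 536870912 1) ndN0q1 ndN1q0 pcN1 cut_mm_101 Ext.none)

def k0_mm_101 : ∃ t, chk3 f_mm_101 t 1 1 1 = true :=
  ⟨(a (l 4) (b (a (l 4) (b (a (l 4) (a (l 4) (b (b (l 6) (l 4)) (l 2)))) (l 4))) (l 4))), by decide +kernel⟩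

theorem c_mm_101 : CertN 536870912 536870912 0 536870912 402653184 67108864 3 true false false .npn 1 0 1
    ndN0q1 ndN1q0 pcN1 cut_mm_101 Ext.none :=
  certN0 (fam := true) (s1 := false) (s2 := false) (a := 1) (b := 0) (c := 1) (cn := .npn) (n1 := ndN0q1) (n2 := ndN1q0) (pc := pcN1) (cut := cut_mm_101) (xt := Ext.none) (P1 := 536870912) (W1 := 536870912) (P2 := 0) (W2 := 536870912) (P3 := 402653184) (W3 := 67108864) (N0 := 3)
    rfl k0_mm_101

noncomputable def cut_mm_102 : Cut := Cut.of [[⟨0, 1, 0, 67108864⟩, ⟨1, 0, 0, 67108864⟩, ⟨2, 1, 0, 67108864⟩]]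

noncomputable def f_mm_102 : ℕ → ℕ → ℕ → ℕ → Bool := onCell 536870912 536870912 0 536870912 402653184 67108864
    (rowN 3 0 true false false .npp 1 0 2 (qsf 536870912 536870912 0 536870912 2) ndN0q1 ndN1q0 pcN2 cut_mm_102 Ext.none)

def k0_mm_102 : ∃ t, chk3 f_mm_102 t 1 1 1 = true :=
  ⟨(a (l 4) (b (a (l 4) (b (a (l 4) (a (l 4) (b (b (l 6) (l 4)) (l 4)))) (l 4))) (l 4))), by decide +kernel⟩

theorem c_mm_102 : CertN 536870912 536870912 0 536870912 402653184 67108864 3 true false false .npp 1 0 2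
    ndN0q1 ndN1q0 pcN2 cut_mm_102 Ext.none :=
  certN0 (fam := true) (s1 := false) (s2 := false) (a := 1) (b := 0) (c := 2) (cn := .npp) (n1 := ndN0q1) (n2 := ndN1q0) (pc := pcN2) (cut := cut_mm_102) (xt := Ext.none) (P1 := 536870912) (W1 := 536870912) (P2 := 0) (W2 := 536870912) (P3 := 402653184) (W3 := 67108864) (N0 := 3)
    rfl k0_mm_102

noncomputable def f_mm_112 : ℕ → ℕ → ℕ → ℕ → Bool := onCell 536870912 536870912 536870912 536870912 402653184 67108864
    (rowN 3 0 true false false .dn 1 1 2 (qsf 536870912 536870912 536870912 536870912 2) ndN0q1 ndN1q1 pcN2 Cut.none Ext.none)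

def k0_mm_112 : ∃ t, chk3 f_mm_112 t 1 1 1 = true :=
  ⟨(l 4), by decide +kernel⟩

theorem c_mm_112 : CertN 536870912 536870912 536870912 536870912 402653184 67108864 3 true false false .dn 1 1 2
    ndN0q1 ndN1q1 pcN2 Cut.none Ext.none :=
  certN0 (fam := true) (s1 := false) (s2 := false) (a := 1) (b := 1) (c := 2) (cn := .dn) (n1 := ndN0q1) (n2 := ndN1q1) (pc := pcN2) (cut := Cut.none) (xt := Ext.none) (P1 := 536870912) (W1 := 536870912) (P2 := 536870912) (W2 := 536870912) (P3 := 402653184) (W3 := 67108864) (N0 := 3)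
    rfl k0_mm_112

noncomputable def f_mm_113 : ℕ → ℕ → ℕ → ℕ → Bool := onCell 536870912 536870912 536870912 536870912 402653184 67108864
    (rowN 3 0 true false false .nn 1 1 3 (qsf 536870912 536870912 536870912 536870912 3) ndN0q1 ndN1q1 pcN3 Cut.none Ext.none)

def k0_mm_113 : ∃ t, chk3 f_mm_113 t 1 1 1 = true :=
  ⟨(l 4), by decide +kernel⟩

theorem c_mm_113 : CertN 536870912 536870912 536870912 536870912 402653184 67108864 3 true false false .nn 1 1 3
    ndN0q1 ndN1q1 pcN3 Cut.none Ext.none :=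
  certN0 (fam := true) (s1 := false) (s2 := false) (a := 1) (b := 1) (c := 3) (cn := .nn) (n1 := ndN0q1) (n2 := ndN1q1) (pc := pcN3) (cut := Cut.none) (xt := Ext.none) (P1 := 536870912) (W1 := 536870912) (P2 := 536870912) (W2 := 536870912) (P3 := 402653184) (W3 := 67108864) (N0 := 3)
    rfl k0_mm_113

noncomputable def f_mm_123_a : ℕ → ℕ → ℕ → ℕ → Bool := onCell 536870912 536870912 0 536870912 402653184 67108864
    (rowN 3 0 true false false .npn 1 2 3 (qsf 536870912 536870912 0 536870912 3) ndN0q1 ndN1q2a pcN3 Cut.none Ext.none)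

def k0_mm_123_a : ∃ t, chk3 f_mm_123_a t 1 1 1 = true :=
  ⟨(l 4), by decide +kernel⟩

theorem c_mm_123_a : CertN 536870912 536870912 0 536870912 402653184 67108864 3 true false false .npn 1 2 3
    ndN0q1 ndN1q2a pcN3 Cut.none Ext.none :=
  certN0 (fam := true) (s1 := false) (s2 := false) (a := 1) (b := 2) (c := 3) (cn := .npn) (n1 := ndN0q1) (n2 := ndN1q2a) (pc := pcN3) (cut := Cut.none) (xt := Ext.none) (P1 := 536870912) (W1 := 536870912) (P2 := 0) (W2 := 536870912) (P3 := 402653184) (W3 := 67108864) (N0 := 3)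
    rfl k0_mm_123_a

noncomputable def f_mm_123_b : ℕ → ℕ → ℕ → ℕ → Bool := onCell 536870912 536870912 1239849684 370763052 402653184 67108864
    (rowN 3 0 true false false .npn 1 2 3 (qsf 536870912 536870912 1239849684 370763052 3) ndN0q1 ndN1q2b pcN3 Cut.none Ext.none)

def k0_mm_123_b : ∃ t, chk3 f_mm_123_b t 1 1 1 = true :=
  ⟨(l 4), by decide +kernel⟩

theorem c_mm_123_b : CertN 536870912 536870912 1239849684 370763052 402653184 67108864 3 true false false .npn 1 2 3
    ndN0q1 ndN1q2b pcN3 Cut.none Ext.none :=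
  certN0 (fam := true) (s1 := false) (s2 := false) (a := 1) (b := 2) (c := 3) (cn := .npn) (n1 := ndN0q1) (n2 := ndN1q2b) (pc := pcN3) (cut := Cut.none) (xt := Ext.none) (P1 := 536870912) (W1 := 536870912) (P2 := 1239849684) (W2 := 370763052) (P3 := 402653184) (W3 := 67108864) (N0 := 3)
    rfl k0_mm_123_b

noncomputable def f_mm_133 : ℕ → ℕ → ℕ → ℕ → Bool := onCell 536870912 536870912 1610612736 536870912 402653184 67108864
    (rowN 3 0 true false false .dn 1 3 3 (qsf 536870912 536870912 1610612736 536870912 3) ndN0q1 ndN1q3 pcN3 Cut.none Ext.none)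

def k0_mm_133 : ∃ t, chk3 f_mm_133 t 1 1 1 = true :=
  ⟨(l 4), by decide +kernel⟩

theorem c_mm_133 : CertN 536870912 536870912 1610612736 536870912 402653184 67108864 3 true false false .dn 1 3 3
    ndN0q1 ndN1q3 pcN3 Cut.none Ext.none :=
  certN0 (fam := true) (s1 := false) (s2 := false) (a := 1) (b := 3) (c := 3) (cn := .dn) (n1 := ndN0q1) (n2 := ndN1q3) (pc := pcN3) (cut := Cut.none) (xt := Ext.none) (P1 := 536870912) (W1 := 536870912) (P2 := 1610612736) (W2 := 536870912) (P3 := 402653184) (W3 := 67108864) (N0 := 3)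
    rfl k0_mm_133

noncomputable def cut_mm_202 : Cut := Cut.of [[⟨0, 1, 0, 67108864⟩, ⟨1, 0, 0, 67108864⟩, ⟨2, 1, 0, 67108864⟩]]

noncomputable def f_mm_202 : ℕ → ℕ → ℕ → ℕ → Bool := onCell 0 536870912 0 536870912 402653184 67108864
    (rowN 3 0 true false false .pp 2 0 2 (qsf 0 536870912 0 536870912 2) ndN0q2 ndN1q0 pcN2 cut_mm_202 Ext.none)

def k0_mm_202 : ∃ t, chk3 f_mm_202 t 1 1 1 = true :=
  ⟨(b (a (b (a (b (b (a (l 16444640) (l 16527632)) (a (l 16479712) (l 16480704))) (a (l 16557984) (l 16542136))) (b (b (a (a (l 16492120) (l 16555408)) (b (a (l 16515472) (l 16537912)) (l 16548288))) (a (l 16491736) (l 16547816))) (b (l 16674656) (l 16615168)))) (a (b (l 16717136) (l 16679880)) (b (a (l 16642064) (l 16672208)) (a (l 16699224) (l 16716616))))) (b (a (b (b (a (b (b (a (l 16559856) (l 16603456)) (a (l 16561336) (l 16584672))) (a (l 16563344) (l 16587720))) (b (a (b (b (l 16626272) (l 16606728)) (l 16608808)) (b (b (a (l 16623656) (l 16636560)) (l 16652824))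 (l 16655304))) (a (l 16633728) (l 16639384)))) (a (l 16664056) (b (l 16694376) (l 16659120)))) (a (b (l 16609344) (l 16657416)) (b (a (l 16656904) (l 16690888)) (l 16773536)))) (b (a (a (b (b (b (a (b (l 16671008) (l 16651920)) (b (b (l 16684664) (l 16664704)) (l 16666200))) (a (l 16654672) (l 16669120))) (l 16696136)) (b (l 16673984) (l 16696768))) (b (b (b (b (l 6) (a (l 16681288) (l 6))) (a (l 16684368) (l 16731952))) (b (l 16717472) (l 16721360))) (b (l 16751872) (l 16733800)))) (b (a (b (l 6) (b (l 6) (a (l 16732168) (l 6)))) (l 6)) (a (b (b (l 16792960) (l 4)) (l 4)) (l 4)))) (a (a (b (l 16744352) (l 4)) (l 4)) (l 4)))) (a (b (a (l 16875280) (l 4)) (l 4)) (l 4)))) (a (b (a (b (a (l 16700200) (l 16696392)) (l 16735328)) (b (l 41574346439) (l 4))) (l 4)) (l 4))), by decide +kernel⟩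

theorem c_mm_202 : CertN 0 536870912 0 536870912 402653184 67108864 3 true false false .pp 2 0 2
    ndN0q2 ndN1q0 pcN2 cut_mm_202 Ext.none :=
  certN0 (fam := true) (s1 := false) (s2 := false) (a := 2) (b := 0) (c := 2) (cn := .pp) (n1 := ndN0q2) (n2 := ndN1q0) (pc := pcN2) (cut := cut_mm_202) (xt := Ext.none) (P1 := 0) (W1 := 536870912) (P2 := 0) (W2 := 536870912) (P3 := 402653184) (W3 := 67108864) (N0 := 3)
    rfl k0_mm_202

noncomputable def f_mm_203 : ℕ → ℕ → ℕ → ℕ → Bool := onCell 0 536870912 0 536870912 402653184 67108864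
    (rowN 3 0 true false false .up 2 0 3 (qsf 0 536870912 0 536870912 3) ndN0q2 ndN1q0 pcN3 Cut.none Ext.none)

def k0_mm_203 : ∃ t, chk3 f_mm_203 t 1 1 1 = true :=
  ⟨(b (l 1) (a (b (b (l 1) (a (l 16777952) (l 4))) (l 4)) (l 4))), by decide +kernel⟩

theorem c_mm_203 : CertN 0 536870912 0 536870912 402653184 67108864 3 true false false .up 2 0 3
    ndN0q2 ndN1q0 pcN3 Cut.none Ext.none :=
  certN0 (fam := true) (s1 := false) (s2 := false) (a := 2) (b := 0) (c := 3) (cn := .up) (n1 := ndN0q2) (n2 := ndN1q0) (pc := pcN3) (cut := Cut.none) (xt := Ext.none) (P1 := 0) (W1 := 536870912) (P2 := 0) (W2 := 536870912) (P3 := 402653184) (W3 := 67108864) (N0 := 3)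
    rfl k0_mm_203

noncomputable def f_mm_213 : ℕ → ℕ → ℕ → ℕ → Bool := onCell 0 536870912 536870912 536870912 402653184 67108864
    (rowN 3 0 true false false .pnn 2 1 3 (qsf 0 536870912 536870912 536870912 3) ndN0q2 ndN1q1 pcN3 Cut.none Ext.none)

def k0_mm_213 : ∃ t, chk3 f_mm_213 t 1 1 1 = true :=
  ⟨(l 4), by decide +kernel⟩

theorem c_mm_213 : CertN 0 536870912 536870912 536870912 402653184 67108864 3 true false false .pnn 2 1 3
    ndN0q2 ndN1q1 pcN3 Cut.none Ext.none :=
  certN0 (fam := true) (s1 := false) (s2 := false) (a := 2) (b := 1) (c := 3) (cn := .pnn) (n1 := ndN0q2) (n2 := ndN1q1) (pc := pcN3) (cut := Cut.none) (xt := Ext.none) (P1 := 0) (W1 := 536870912) (P2 := 536870912) (W2 := 536870912) (P3 := 402653184) (W3 := 67108864) (N0 := 3)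
    rfl k0_mm_213

end Pool.Agent.Strip051.G.I3_8_7_16.Tab.C.NA01

namespace Pool.Agent.Strip051.G.I3_8_7_16.Tab.C.NA02

open Pool.Agent.Strip051.PB Pool.Agent.Strip051.PB.T
open Pool.Agent.Strip051.G.I3_8_7_16.Tab

noncomputable def f_pp_001 : ℕ → ℕ → ℕ → ℕ → Bool := onCell 0 536870912 0 536870912 402653184 67108864
    (rowN 3 0 true true true .up 0 0 1 (qsf 0 536870912 0 536870912 1) ndN0q0 ndN2q0 pcN1 Cut.none Ext.none)

def k0_pp_001 : ∃ t, chk3 f_pp_001 t 1 1 1 = true :=
  ⟨(l 4), by decide +kernel⟩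

theorem c_pp_001 : CertN 0 536870912 0 536870912 402653184 67108864 3 true true true .up 0 0 1
    ndN0q0 ndN2q0 pcN1 Cut.none Ext.none :=
  certN0 (fam := true) (s1 := true) (s2 := true) (a := 0) (b := 0) (c := 1) (cn := .up) (n1 := ndN0q0) (n2 := ndN2q0) (pc := pcN1) (cut := Cut.none) (xt := Ext.none) (P1 := 0) (W1 := 536870912) (P2 := 0) (W2 := 536870912) (P3 := 402653184) (W3 := 67108864) (N0 := 3)
    rfl k0_pp_001

noncomputable def f_pp_011 : ℕ → ℕ → ℕ → ℕ → Bool := onCell 0 536870912 536870912 536870912 402653184 67108864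
    (rowN 3 0 true true true .pnn 0 1 1 (qsf 0 536870912 536870912 536870912 1) ndN0q0 ndN2q1 pcN1 Cut.none Ext.none)

def k0_pp_011 : ∃ t, chk3 f_pp_011 t 1 1 1 = true :=
  ⟨(l 4), by decide +kernel⟩

theorem c_pp_011 : CertN 0 536870912 536870912 536870912 402653184 67108864 3 true true true .pnn 0 1 1
    ndN0q0 ndN2q1 pcN1 Cut.none Ext.none :=
  certN0 (fam := true) (s1 := true) (s2 := true) (a := 0) (b := 1) (c := 1) (cn := .pnn) (n1 := ndN0q0) (n2 := ndN2q1) (pc := pcN1) (cut := Cut.none) (xt := Ext.none) (P1 := 0) (W1 := 536870912) (P2 := 536870912) (W2 := 536870912) (P3 := 402653184) (W3 := 67108864) (N0 := 3)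
    rfl k0_pp_011

noncomputable def f_pp_012 : ℕ → ℕ → ℕ → ℕ → Bool := onCell 0 536870912 536870912 536870912 402653184 67108864
    (rowN 3 0 true true true .pnp 0 1 2 (qsf 0 536870912 536870912 536870912 2) ndN0q0 ndN2q1 pcN2 Cut.none Ext.none)

def k0_pp_012 : ∃ t, chk3 f_pp_012 t 1 1 1 = true :=
  ⟨(l 4), by decide +kernel⟩

theorem c_pp_012 : CertN 0 536870912 536870912 536870912 402653184 67108864 3 true true true .pnp 0 1 2
    ndN0q0 ndN2q1 pcN2 Cut.none Ext.none :=
  certN0 (fam := true) (s1 := true) (s2 := true) (a := 0) (b := 1) (c := 2) (cn := .pnp) (n1 := ndN0q0) (n2 := ndN2q1) (pc := pcN2) (cut := Cut.none) (xt := Ext.none) (P1 := 0) (W1 := 536870912) (P2 := 536870912) (W2 := 536870912) (P3 := 402653184) (W3 := 67108864) (N0 := 3)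
    rfl k0_pp_012

noncomputable def f_pp_022 : ℕ → ℕ → ℕ → ℕ → Bool := onCell 0 536870912 1073741824 536870912 402653184 67108864
    (rowN 3 0 true true true .pp 0 2 2 (qsf 0 536870912 1073741824 536870912 2) ndN0q0 ndN2q2 pcN2 Cut.none Ext.none)

def k0_pp_022 : ∃ t, chk3 f_pp_022 t 1 1 1 = true :=
  ⟨(l 4), by decide +kernel⟩

theorem c_pp_022 : CertN 0 536870912 1073741824 536870912 402653184 67108864 3 true true true .pp 0 2 2
    ndN0q0 ndN2q2 pcN2 Cut.none Ext.none :=
  certN0 (fam := true) (s1 := true) (s2 := true) (a := 0) (b := 2) (c := 2) (cn := .pp) (n1 := ndN0q0) (n2 := ndN2q2) (pc := pcN2) (cut := Cut.none) (xt := Ext.none) (P1 := 0) (W1 := 536870912) (P2 := 1073741824) (W2 := 536870912) (P3 := 402653184) (W3 := 67108864) (N0 := 3)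
    rfl k0_pp_022

noncomputable def f_pp_023 : ℕ → ℕ → ℕ → ℕ → Bool := onCell 0 536870912 1073741824 536870912 402653184 67108864
    (rowN 3 0 true true true .up 0 2 3 (qsf 0 536870912 1073741824 536870912 3) ndN0q0 ndN2q2 pcN3 Cut.none Ext.none)

def k0_pp_023 : ∃ t, chk3 f_pp_023 t 1 1 1 = true :=
  ⟨(l 4), by decide +kernel⟩

theorem c_pp_023 : CertN 0 536870912 1073741824 536870912 402653184 67108864 3 true true true .up 0 2 3
    ndN0q0 ndN2q2 pcN3 Cut.none Ext.none :=
  certN0 (fam := true) (s1 := true) (s2 := true) (a := 0) (b := 2) (c := 3) (cn := .up) (n1 := ndN0q0) (n2 := ndN2q2) (pc := pcN3) (cut := Cut.none) (xt := Ext.none) (P1 := 0) (W1 := 536870912) (P2 := 1073741824) (W2 := 536870912) (P3 := 402653184) (W3 := 67108864) (N0 := 3)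
    rfl k0_pp_023

noncomputable def f_pp_033 : ℕ → ℕ → ℕ → ℕ → Bool := onCell 0 536870912 0 1230186008 402653184 67108864
    (rowN 3 0 true true true .pnn 0 3 3 (qsf 0 536870912 0 1230186008 3) ndN0q0 ndN2q3 pcN3 Cut.none Ext.none)

def k0_pp_033 : ∃ t, chk3 f_pp_033 t 1 1 1 = true :=
  ⟨(b (l 4) (l 4)), by decide +kernel⟩

theorem c_pp_033 : CertN 0 536870912 0 1230186008 402653184 67108864 3 true true true .pnn 0 3 3
    ndN0q0 ndN2q3 pcN3 Cut.none Ext.none :=
  certN0 (fam := true) (s1 := true) (s2 := true) (a := 0) (b := 3) (c := 3) (cn := .pnn) (n1 := ndN0q0) (n2 := ndN2q3) (pc := pcN3) (cut := Cut.none) (xt := Ext.none) (P1 := 0) (W1 := 536870912) (P2 := 0) (W2 := 1230186008) (P3 := 402653184) (W3 := 67108864) (N0 := 3)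
    rfl k0_pp_033

noncomputable def f_pp_101 : ℕ → ℕ → ℕ → ℕ → Bool := onCell 536870912 536870912 0 536870912 402653184 67108864
    (rowN 3 0 true true true .npn 1 0 1 (qsf 536870912 536870912 0 536870912 1) ndN0q1 ndN2q0 pcN1 Cut.none Ext.none)

def k0_pp_101 : ∃ t, chk3 f_pp_101 t 1 1 1 = true :=
  ⟨(l 5), by decide +kernel⟩

theorem c_pp_101 : CertN 536870912 536870912 0 536870912 402653184 67108864 3 true true true .npn 1 0 1
    ndN0q1 ndN2q0 pcN1 Cut.none Ext.none :=
  certN0 (fam := true) (s1 := true) (s2 := true) (a := 1) (b := 0) (c := 1) (cn := .npn) (n1 := ndN0q1) (n2 := ndN2q0) (pc := pcN1) (cut := Cut.none) (xt := Ext.none) (P1 := 536870912) (W1 := 536870912) (P2 := 0) (W2 := 536870912) (P3 := 402653184) (W3 := 67108864) (N0 := 3)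
    rfl k0_pp_101

noncomputable def f_pp_102 : ℕ → ℕ → ℕ → ℕ → Bool := onCell 536870912 536870912 0 536870912 402653184 67108864
    (rowN 3 0 true true true .npp 1 0 2 (qsf 536870912 536870912 0 536870912 2) ndN0q1 ndN2q0 pcN2 Cut.none Ext.none)

def k0_pp_102 : ∃ t, chk3 f_pp_102 t 1 1 1 = true :=
  ⟨(l 5), by decide +kernel⟩

theorem c_pp_102 : CertN 536870912 536870912 0 536870912 402653184 67108864 3 true true true .npp 1 0 2
    ndN0q1 ndN2q0 pcN2 Cut.none Ext.none :=
  certN0 (fam := true) (s1 := true) (s2 := true) (a := 1) (b := 0) (c := 2) (cn := .npp) (n1 := ndN0q1) (n2 := ndN2q0) (pc := pcN2) (cut := Cut.none) (xt := Ext.none) (P1 := 536870912) (W1 := 536870912) (P2 := 0) (W2 := 536870912) (P3 := 402653184) (W3 := 67108864) (N0 := 3)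
    rfl k0_pp_102

noncomputable def f_pp_112 : ℕ → ℕ → ℕ → ℕ → Bool := onCell 536870912 536870912 536870912 536870912 402653184 67108864
    (rowN 3 0 true true true .dn 1 1 2 (qsf 536870912 536870912 536870912 536870912 2) ndN0q1 ndN2q1 pcN2 Cut.none Ext.none)

def k0_pp_112 : ∃ t, chk3 f_pp_112 t 1 1 1 = true :=
  ⟨(l 4), by decide +kernel⟩

theorem c_pp_112 : CertN 536870912 536870912 536870912 536870912 402653184 67108864 3 true true true .dn 1 1 2
    ndN0q1 ndN2q1 pcN2 Cut.none Ext.none :=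
  certN0 (fam := true) (s1 := true) (s2 := true) (a := 1) (b := 1) (c := 2) (cn := .dn) (n1 := ndN0q1) (n2 := ndN2q1) (pc := pcN2) (cut := Cut.none) (xt := Ext.none) (P1 := 536870912) (W1 := 536870912) (P2 := 536870912) (W2 := 536870912) (P3 := 402653184) (W3 := 67108864) (N0 := 3)
    rfl k0_pp_112

noncomputable def f_pp_113 : ℕ → ℕ → ℕ → ℕ → Bool := onCell 536870912 536870912 536870912 536870912 402653184 67108864
    (rowN 3 0 true true true .nn 1 1 3 (qsf 536870912 536870912 536870912 536870912 3) ndN0q1 ndN2q1 pcN3 Cut.none Ext.none)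

def k0_pp_113 : ∃ t, chk3 f_pp_113 t 1 1 1 = true :=
  ⟨(l 4), by decide +kernel⟩

theorem c_pp_113 : CertN 536870912 536870912 536870912 536870912 402653184 67108864 3 true true true .nn 1 1 3
    ndN0q1 ndN2q1 pcN3 Cut.none Ext.none :=
  certN0 (fam := true) (s1 := true) (s2 := true) (a := 1) (b := 1) (c := 3) (cn := .nn) (n1 := ndN0q1) (n2 := ndN2q1) (pc := pcN3) (cut := Cut.none) (xt := Ext.none) (P1 := 536870912) (W1 := 536870912) (P2 := 536870912) (W2 := 536870912) (P3 := 402653184) (W3 := 67108864) (N0 := 3)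
    rfl k0_pp_113

noncomputable def f_pp_123 : ℕ → ℕ → ℕ → ℕ → Bool := onCell 536870912 536870912 1073741824 536870912 402653184 67108864
    (rowN 3 0 true true true .npn 1 2 3 (qsf 536870912 536870912 1073741824 536870912 3) ndN0q1 ndN2q2 pcN3 Cut.none Ext.none)

def k0_pp_123 : ∃ t, chk3 f_pp_123 t 1 1 1 = true :=
  ⟨(l 4), by decide +kernel⟩

theorem c_pp_123 : CertN 536870912 536870912 1073741824 536870912 402653184 67108864 3 true true true .npn 1 2 3
    ndN0q1 ndN2q2 pcN3 Cut.none Ext.none :=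
  certN0 (fam := true) (s1 := true) (s2 := true) (a := 1) (b := 2) (c := 3) (cn := .npn) (n1 := ndN0q1) (n2 := ndN2q2) (pc := pcN3) (cut := Cut.none) (xt := Ext.none) (P1 := 536870912) (W1 := 536870912) (P2 := 1073741824) (W2 := 536870912) (P3 := 402653184) (W3 := 67108864) (N0 := 3)
    rfl k0_pp_123

noncomputable def f_pp_133 : ℕ → ℕ → ℕ → ℕ → Bool := onCell 536870912 536870912 0 1230186008 402653184 67108864
    (rowN 3 0 true true true .dn 1 3 3 (qsf 536870912 536870912 0 1230186008 3) ndN0q1 ndN2q3 pcN3 Cut.none Ext.none)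

def k0_pp_133 : ∃ t, chk3 f_pp_133 t 1 1 1 = true :=
  ⟨(b (l 2) (l 4)), by decide +kernel⟩

theorem c_pp_133 : CertN 536870912 536870912 0 1230186008 402653184 67108864 3 true true true .dn 1 3 3
    ndN0q1 ndN2q3 pcN3 Cut.none Ext.none :=
  certN0 (fam := true) (s1 := true) (s2 := true) (a := 1) (b := 3) (c := 3) (cn := .dn) (n1 := ndN0q1) (n2 := ndN2q3) (pc := pcN3) (cut := Cut.none) (xt := Ext.none) (P1 := 536870912) (W1 := 536870912) (P2 := 0) (W2 := 1230186008) (P3 := 402653184) (W3 := 67108864) (N0 := 3)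
    rfl k0_pp_133

noncomputable def f_pp_202 : ℕ → ℕ → ℕ → ℕ → Bool := onCell 0 536870912 0 536870912 402653184 67108864
    (rowN 3 0 true true true .pp 2 0 2 (qsf 0 536870912 0 536870912 2) ndN0q2 ndN2q0 pcN2 Cut.none Ext.none)

def k0_pp_202 : ∃ t, chk3 f_pp_202 t 1 1 1 = true :=
  ⟨(l 5), by decide +kernel⟩

theorem c_pp_202 : CertN 0 536870912 0 536870912 402653184 67108864 3 true true true .pp 2 0 2
    ndN0q2 ndN2q0 pcN2 Cut.none Ext.none :=
  certN0 (fam := true) (s1 := true) (s2 := true) (a := 2) (b := 0) (c := 2) (cn := .pp) (n1 := ndN0q2) (n2 := ndN2q0) (pc := pcN2) (cut := Cut.none) (xt := Ext.none) (P1 := 0) (W1 := 536870912) (P2 := 0) (W2 := 536870912) (P3 := 402653184) (W3 := 67108864) (N0 := 3)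
    rfl k0_pp_202

noncomputable def f_pp_203 : ℕ → ℕ → ℕ → ℕ → Bool := onCell 0 536870912 0 536870912 402653184 67108864
    (rowN 3 0 true true true .up 2 0 3 (qsf 0 536870912 0 536870912 3) ndN0q2 ndN2q0 pcN3 Cut.none Ext.none)

def k0_pp_203 : ∃ t, chk3 f_pp_203 t 1 1 1 = true :=
  ⟨(l 5), by decide +kernel⟩

theorem c_pp_203 : CertN 0 536870912 0 536870912 402653184 67108864 3 true true true .up 2 0 3
    ndN0q2 ndN2q0 pcN3 Cut.none Ext.none :=
  certN0 (fam := true) (s1 := true) (s2 := true) (a := 2) (b := 0) (c := 3) (cn := .up) (n1 := ndN0q2) (n2 := ndN2q0) (pc := pcN3) (cut := Cut.none) (xt := Ext.none) (P1 := 0) (W1 := 536870912) (P2 := 0) (W2 := 536870912) (P3 := 402653184) (W3 := 67108864) (N0 := 3)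
    rfl k0_pp_203

noncomputable def f_pp_213 : ℕ → ℕ → ℕ → ℕ → Bool := onCell 0 536870912 536870912 536870912 402653184 67108864
    (rowN 3 0 true true true .pnn 2 1 3 (qsf 0 536870912 536870912 536870912 3) ndN0q2 ndN2q1 pcN3 Cut.none Ext.none)

def k0_pp_213 : ∃ t, chk3 f_pp_213 t 1 1 1 = true :=
  ⟨(l 4), by decide +kernel⟩

theorem c_pp_213 : CertN 0 536870912 536870912 536870912 402653184 67108864 3 true true true .pnn 2 1 3
    ndN0q2 ndN2q1 pcN3 Cut.none Ext.none :=
  certN0 (fam := true) (s1 := true) (s2 := true) (a := 2) (b := 1) (c := 3) (cn := .pnn) (n1 := ndN0q2) (n2 := ndN2q1) (pc := pcN3) (cut := Cut.none) (xt := Ext.none) (P1 := 0) (W1 := 536870912) (P2 := 536870912) (W2 := 536870912) (P3 := 402653184) (W3 := 67108864) (N0 := 3)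
    rfl k0_pp_213

noncomputable def f_pm_001 : ℕ → ℕ → ℕ → ℕ → Bool := onCell 0 536870912 0 536870912 402653184 67108864
    (rowN 3 0 true true false .up 0 0 1 (qsf 0 536870912 0 536870912 1) ndN0q0 ndN2q0 pcN1 Cut.none Ext.none)

def k0_pm_001 : ∃ t, chk3 f_pm_001 t 1 1 1 = true :=
  ⟨(a (l 3) (b (l 3) (a (l 3) (b (l 3) (a (l 3) (b (l 3) (a (l 3) (b (l 3) (a (b (l 3) (a (l 3) (c (l 251424341351) (b (l 3) (a (l 242834375735) (l 132238992375)))))) (b (l 236391946247) (a (l 135997118999) (l 17304672)))))))))))), by decide +kernel⟩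

theorem c_pm_001 : CertN 0 536870912 0 536870912 402653184 67108864 3 true true false .up 0 0 1
    ndN0q0 ndN2q0 pcN1 Cut.none Ext.none :=
  certN0 (fam := true) (s1 := true) (s2 := false) (a := 0) (b := 0) (c := 1) (cn := .up) (n1 := ndN0q0) (n2 := ndN2q0) (pc := pcN1) (cut := Cut.none) (xt := Ext.none) (P1 := 0) (W1 := 536870912) (P2 := 0) (W2 := 536870912) (P3 := 402653184) (W3 := 67108864) (N0 := 3)
    rfl k0_pm_001

noncomputable def cut_pm_011 : Cut := Cut.of [[⟨0, 0, 0, 67108864⟩, ⟨1, 1, 0, 67108864⟩, ⟨2, 1, 0, 67108864⟩]]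

noncomputable def f_pm_011 : ℕ → ℕ → ℕ → ℕ → Bool := onCell 536870912 536870912 536870912 536870912 402653184 67108864
    (rowN 3 2 true true false .pnn 0 1 1 (qsf 0 536870912 536870912 536870912 1) ndN0q0 ndN2q1 pcN1 cut_pm_011 Ext.none)

def k0_pm_011 : ∃ t, chk3 f_pm_011 t 2 1 1 = true :=
  ⟨(l 3), by decide +kernel⟩

def k1_pm_011 : ∃ t, chk3 f_pm_011 t 6 4 1 = true :=
  ⟨(l 3), by decide +kernel⟩

def k2_pm_011 : ∃ t, chk3 f_pm_011 t 14 8 1 = true :=
  ⟨(l 3), by decide +kernel⟩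

def k3_pm_011 : ∃ t, chk3 f_pm_011 t 15 16 1 = true :=
  ⟨(b (a (l 3) (b (a (c (l 17093272) (a (l 3) (l 17038400))) (c (l 17084840) (l 17004992))) (a (a (l 3) (c (l 17012288) (a (l 67276837191) (l 16877376)))) (a (l 16857672) (l 16945136))))) (a (l 3) (a (a (l 3) (b (c (l 46875656455) (c (l 16764480) (a (b (l 16831912) (l 46338542135)) (l 16746608)))) (b (c (l 37748687735) (a (c (l 16720296) (a (l 3) (l 16665176))) (c (l 16733784) (l 16679152)))) (b (c (c (l 16800128) (l 16721904)) (a (c (l 33453516615) (l 35600884439)) (l 16609704))) (c (a (c (l 16772688) (l 48485948663)) (l 16737512)) (a (a (l 3) (c (l 16609664) (l 37748326951))) (c (l 16645200) (l 16583032)))))))) (b (a (c (l 16895280) (a (l 16719832) (l 16773784))) (l 16684352)) (c (a (b (l 16807704) (c (l 16776296) (l 16713768))) (b (l 16796808) (l 16733968))) (a (a (b (l 16698112) (l 16581768)) (l 16547568)) (b (l 16675392) (a (l 16605088) (l 16595288))))))))), by decide +kernel⟩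

def k4_pm_011 : ∃ t, chk3 f_pm_011 t 30 17 1 = true :=
  ⟨(l 3), by decide +kernel⟩

def k5_pm_011 : ∃ t, chk3 f_pm_011 t 62 17 1 = true :=
  ⟨(b (a (l 3) (c (b (a (c (l 46338556263) (a (l 3) (b (l 16690632) (l 16660136)))) (c (l 16743768) (b (l 16685360) (l 16675584)))) (a (a (l 3) (c (l 47949120599) (b (l 49022750663) (l 47412117863)))) (c (l 16724896) (b (l 16665640) (l 16655512))))) (a (a (l 3) (b (c (b (c (l 16644184) (l 33990279207)) (a (l 29158435383) (l 16617440))) (b (c (l 34527106951) (l 34527087767)) (c (l 32916495143) (l 33453334071)))) (c (b (a (l 26474082791) (l 16607200)) (a (l 38285244615) (l 16596768))) (b (c (l 31305882359) (l 31842712055)) (c (l 29695255911) (l 16538800)))))) (b (c (b (l 16621904) (l 16611592)) (b (l 16557936) (l 16547072))) (c (b (l 16601104) (l 16590416)) (b (l 16557000) (l 16545760))))))) (a (l 3) (a (a (l 3) (a (b (l 3) (l 3)) (c (b (c (b (l 16714296) (l 16704544)) (b (l 16650488) (l 16619232))) (c (b (l 16694600) (l 16684464))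 (b (l 16608752) (l 25400357895)))) (b (c (b (l 16586144) (l 16575328)) (b (l 16521264) (l 16509896))) (c (b (l 16585280) (l 16574048)) (b (l 16498320) (l 16486536))))))) (c (b (c (b (l 16710304) (l 16700328)) (b (l 16645184) (l 16613688))) (c (b (l 16690160) (l 16679792)) (a (b (l 16626256) (l 16615432)) (l 16595128)))) (b (c (b (l 16579536) (l 16578936)) (b (l 16534312) (l 16522656))) (c (a (b (l 16560024) (l 16548632)) (l 16569456)) (b (l 16510784) (l 16477720)))))))), by decide +kernel⟩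

def k6_pm_011 : ∃ t, chk3 f_pm_011 t 63 17 1 = true :=
  ⟨(b (a (b (c (b (l 16707816) (l 16676840)) (a (c (l 16607616) (l 16541384)) (l 16564320))) (c (c (l 16716080) (a (l 16652656) (l 16644704))) (a (c (l 16585792) (l 16518376)) (l 16541080)))) (b (c (l 16690416) (l 16548872)) (c (l 16668600) (l 16545360)))) (a (c (b (a (c (l 16698752) (l 16631240)) (l 16657408)) (a (c (l 16677664) (l 16608960)) (l 16613960))) (b (a (c (l 16563184) (l 16494568)) (l 16516992)) (c (a (l 16539688) (l 16527904)) (l 16441888)))) (b (c (l 16603968) (l 16540912)) (c (a (l 16626464) (l 16617976)) (l 16556376))))), by decide +kernel⟩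

def k7_pm_011 : ∃ t, chk3 f_pm_011 t 14 9 1 = true :=
  ⟨(l 3), by decide +kernel⟩

def k8_pm_011 : ∃ t, chk3 f_pm_011 t 30 9 1 = true :=
  ⟨(l 3), by decide +kernel⟩

def k9_pm_011 : ∃ t, chk3 f_pm_011 t 31 18 1 = true :=
  ⟨(a (a (l 3) (b (c (a (a (l 3) (b (c (b (l 40432819367) (l 64055118519)) (b (l 38285264023) (l 33453427991))) (l 3))) (b (c (b (l 16648248) (a (l 16660520) (l 16656344))) (b (a (l 16604392) (l 16599304)) (a (l 16593144) (l 16587824)))) (c (b (a (l 16649624) (l 16645240)) (a (l 16617528) (l 16633896))) (b (a (l 16581672) (l 16576120)) (a (l 16590936) (l 16564176)))))) (b (a (a (l 3) (c (b (l 38285206263) (l 36674591975)) (l 27010716327))) (c (a (b (l 16537024) (l 16525192)) (l 16566728)) (l 16467008))) (a (l 3) (c (a (b (l 16513136) (l 16500832)) (l 16542104)) (l 16457616))))) (a (l 3) (c (b (c (b (a (l 27010982183) (l 16622304)) (a (l 25400368775) (l 16610440))) (b (a (l 16578960) (l 16551968)) (a (l 16587688) (l 16539472)))) (c (b (a (l 23789755015)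 (l 16598312)) (a (l 22716012263) (l 16585896))) (c (b (l 26474053511) (l 25937158359)) (l 30231979703)))) (b (c (c (l 32379444903) (l 16469232)) (l 16462712)) (c (l 16486936) (l 16467912))))))) (a (b (c (b (a (c (l 16655712) (l 16585776)) (l 16590536)) (a (b (l 16603288) (l 16591296)) (l 16587096))) (b (c (a (l 16536232) (l 16502504)) (l 16436640)) (a (c (l 16510832) (l 16440080)) (l 16438728)))) (c (b (a (b (l 16589528) (l 16587480)) (c (l 16599032) (l 16524072))) (a (b (l 16595624) (l 16592984)) (c (l 16573080) (l 16496696)))) (b (c (l 16466440) (l 16436712)) (l 16477784)))) (b (c (b (a (l 16602184) (l 16592832)) (a (l 16576848) (l 16566568))) (b (c (l 16483288) (l 16406352)) (l 16416112))) (c (b (a (l 16550392) (l 16539112)) (a (l 16543672) (l 16510392))) (b (l 16405920) (l 16411768)))))), by decide +kernel⟩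

def k10_pm_011 : ∃ t, chk3 f_pm_011 t 31 19 1 = true :=
  ⟨(a (a (l 3) (a (l 3) (c (b (c (b (b (a (l 21105399063) (l 16573216)) (a (l 19494780423) (l 16560264))) (c (b (l 22179126919) (l 21642232855)) (l 25937049367))) (b (c (l 28084514167) (l 16487920)) (l 16510976))) (b (c (b (l 24326445127) (l 16520544)) (l 16500656)) (c (l 21105247271) (l 16506216)))) (b (b (l 16498432) (l 16482920)) (b (l 16488544) (l 16494312)))))) (b (c (a (b (c (a (b (l 16564496) (l 16551136)) (l 16545904)) (l 16487152)) (c (a (b (l 16537480) (l 16523520)) (l 16517464)) (l 16490488))) (b (c (l 16527896) (l 16445992)) (c (l 16518736) (l 16435160)))) (a (b (l 16472896) (l 16478656)) (l 16462760))) (c (a (b (c (a (l 16501976) (l 16487688)) (l 16475248)) (c (l 16509704) (l 16481120))) (b (l 16465936) (l 16472160))) (a (b (l 16463600) (l 16469648)) (l 16454376))))), by decide +kernel⟩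

def k11_pm_011 : ∃ t, chk3 f_pm_011 t 3 5 1 = true :=
  ⟨(a (l 3) (a (l 3) (b (a (l 3) (b (a (a (l 3) (a (l 3) (a (l 3) (b (c (b (l 16511712) (l 16517616)) (l 18420885063)) (c (b (l 16527352) (l 16540296)) (b (l 16512032) (l 16524640))))))) (b (c (a (b (c (l 16515584) (l 16487112)) (l 16517872)) (b (l 16457512) (l 16463920))) (a (b (l 16475824) (l 16482096)) (l 16446432))) (a (c (b (a (l 16534224) (l 16495288)) (l 16557688)) (b (l 16489896) (l 16500840))) (c (b (l 16470416) (l 16478536)) (l 16502896))))) (a (b (a (l 3) (a (l 3) (b (b (l 19494703271) (l 18957859015)) (l 3)))) (l 3)) (b (a (c (b (l 16547928) (l 16535592)) (b (l 16511832) (l 16520472))) (c (b (l 16488200) (l 16497856)) (l 16499768))) (a (c (b (l 16543296) (l 16550184)) (l 16531936)) (c (l 16510408) (l 16496392))))))) (a (l 3) (a (l 3) (b (a (b (c (a (l 16567840) (l 16550488)) (l 16544840)) (c (l 16606864) (l 16556576))) (b (c (l 16524280) (l 16510672)) (c (l 16536640) (l 16523608)))) (a (b (c (l 16600496)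 (l 16566944)) (c (l 16608048) (l 16575824))) (b (l 16580440) (l 16592280))))))))), by decide +kernel⟩

def k12_pm_011 : ∃ t, chk3 f_pm_011 t 3 3 1 = true :=
  ⟨(a (l 3) (b (a (l 3) (a (l 3) (a (l 3) (b (b (a (b (c (l 16614184) (l 16583560)) (c (l 16598288) (l 16590488))) (b (l 16600104) (l 16585920))) (a (a (l 3) (b (l 16592704) (l 16623560))) (b (l 16592008) (c (l 16604608) (l 16600144))))) (b (a (a (l 3) (b (l 16621240) (l 16660160))) (b (c (l 16623664) (l 16619256)) (c (l 16641944) (l 16637656)))) (a (l 3) (b (b (l 16652976) (l 16661568)) (a (l 16673056) (l 16667552))))))))) (a (l 3) (a (l 3) (b (a (l 3) (a (l 3) (b (b (a (c (l 16688600) (l 16674816)) (c (l 16664992) (l 16661480))) (a (b (l 16699192) (l 16707272)) (c (l 16691704) (l 16699040)))) (b (a (a (l 3) (b (l 16712112) (l 16720112))) (b (l 16702304) (c (l 16711664) (l 16698544)))) (a (l 3) (a (b (l 16721648) (a (l 16726008) (l 16728016))) (b (l 16715120) (l 16723128)))))))) (a (l 3) (b (a (l 3) (b (a (l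 3) (b (b (a (l 16730352) (l 16729112)) (l 6)) (l 6))) (l 6))) (l 6)))))))), by decide +kernel⟩

theorem s13_pm_011 : ∃ t, chk3 f_pm_011 t 31 9 1 = true := ex3_b k9_pm_011 k10_pm_011

theorem s14_pm_011 : ∃ t, chk3 f_pm_011 t 15 9 1 = true := ex3_a k8_pm_011 s13_pm_011

theorem s15_pm_011 : ∃ t, chk3 f_pm_011 t 7 9 1 = true := ex3_a k7_pm_011 s14_pm_011

theorem s16_pm_011 : ∃ t, chk3 f_pm_011 t 31 17 1 = true := ex3_a k5_pm_011 k6_pm_011

theorem s17_pm_011 : ∃ t, chk3 f_pm_011 t 15 17 1 = true := ex3_a k4_pm_011 s16_pm_011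

theorem s18_pm_011 : ∃ t, chk3 f_pm_011 t 15 8 1 = true := ex3_b k3_pm_011 s17_pm_011

theorem s19_pm_011 : ∃ t, chk3 f_pm_011 t 7 8 1 = true := ex3_a k2_pm_011 s18_pm_011

theorem s20_pm_011 : ∃ t, chk3 f_pm_011 t 7 4 1 = true := ex3_b s19_pm_011 s15_pm_011

theorem s21_pm_011 : ∃ t, chk3 f_pm_011 t 3 4 1 = true := ex3_a k1_pm_011 s20_pm_011

theorem s22_pm_011 : ∃ t, chk3 f_pm_011 t 3 2 1 = true := ex3_b s21_pm_011 k11_pm_011

theorem s23_pm_011 : ∃ t, chk3 f_pm_011 t 3 1 1 = true := ex3_b s22_pm_011 k12_pm_011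

theorem s24_pm_011 : ∃ t, chk3 f_pm_011 t 1 1 1 = true := ex3_a k0_pm_011 s23_pm_011

theorem c_pm_011 : CertN 0 536870912 536870912 536870912 402653184 67108864 3 true true false .pnn 0 1 1
    ndN0q0 ndN2q1 pcN1 cut_pm_011 Ext.none :=
  certN2 (fam := true) (s1 := true) (s2 := false) (a := 0) (b := 1) (c := 1) (cn := .pnn) (n1 := ndN0q0) (n2 := ndN2q1) (pc := pcN1) (cut := cut_pm_011) (xt := Ext.none) (P1 := 0) (W1 := 536870912) (P2 := 536870912) (W2 := 536870912) (P3 := 402653184) (W3 := 67108864) (N0 := 3)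
    rfl (fun _ => rfl) s24_pm_011

noncomputable def cut_pm_012 : Cut := Cut.of [[⟨0, 0, 0, 67108864⟩, ⟨1, 1, 0, 67108864⟩, ⟨2, 1, 0, 67108864⟩]]

noncomputable def f_pm_012 : ℕ → ℕ → ℕ → ℕ → Bool := onCell 1073741824 536870912 536870912 536870912 402653184 67108864
    (rowN 3 2 true true false .pnp 0 1 2 (qsf 0 536870912 536870912 536870912 2) ndN0q0 ndN2q1 pcN2 cut_pm_012 Ext.none)

def k0_pm_012 : ∃ t, chk3 f_pm_012 t 4 4 1 = true :=
  ⟨(b (a (b (a (b (a (b (l 17010008) (l 16912288)) (l 16921728)) (a (a (b (l 16811088) (c (l 16752176) (l 16619384))) (b (l 16796272) (l 16678336))) (b (l 16777744) (l 16670432)))) (b (l 2) (a (l 16715464) (l 2)))) (a (a (b (a (b (c (l 16681144) (l 16534968)) (l 16585672)) (b (l 16606648) (l 16587440))) (a (b (l 16560824) (l 16534880)) (l 16550960))) (b (a (l 16596584) (l 16597464)) (a (l 16555280) (l 16559248)))) (a (b (l 16602304) (l 16565208)) (l 16598512)))) (b (l 2) (a (a (l 16620440) (l 2)) (l 2)))) (a (a (b (b (a (a (b (l 16549720)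 (l 16552848)) (l 16496688)) (l 16505392)) (a (c (a (b (l 16531752) (l 16502472)) (l 16521552)) (l 16406536)) (l 16467248))) (a (a (b (c (b (l 16471784) (l 16439616)) (l 16384664)) (c (l 16431664) (l 16398152))) (b (l 16372024) (l 16390152))) (a (b (l 16377536) (l 16332896)) (l 16350760)))) (b (a (b (l 16521464) (l 16466200)) (b (l 16538672) (l 16490920))) (a (b (l 16402568) (l 16332536)) (l 16398584)))) (a (b (a (l 16538208) (l 16568664)) (a (l 16434288) (l 16471800))) (b (l 16623800) (l 16531640))))), by decide +kernel⟩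

def k1_pm_012 : ∃ t, chk3 f_pm_012 t 4 5 1 = true :=
  ⟨(a (b (a (a (b (b (b (l 16449968) (l 16446584)) (a (l 16474152) (l 16398488))) (b (b (l 16488512) (l 16495360)) (c (l 16492648) (l 16481672)))) (b (c (b (l 16355216) (l 16371248)) (l 16397512)) (b (l 16400280) (a (l 16387672) (l 16350152))))) (b (b (l 16313024) (l 16349000)) (b (l 16324384) (l 16345616)))) (b (a (a (a (c (l 16535616) (l 16523960)) (l 16493704)) (a (l 16456288) (l 16395664))) (a (l 16377032) (l 16316488))) (a (a (b (l 16563152) (l 16563408)) (a (l 16485560) (l 16407584))) (a (l 16406944) (l 16346464))))) (b (a (b (a (l 16292392) (l 16341400)) (b (l 16279176) (l 16293256))) (b (a (l 16393472) (l 16446120)) (l 16314464))) (a (b (l 16357752) (a (l 16348224) (l 16339096))) (b (l 16310512) (l 16330088))))), by decide +kernel⟩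

def k2_pm_012 : ∃ t, chk3 f_pm_012 t 5 2 1 = true :=
  ⟨(b (a (b (l 2) (a (a (b (l 2) (l 16602728)) (l 2)) (l 2))) (l 2)) (b (a (a (a (b (l 16499744) (l 16367288)) (b (a (l 16542128) (l 16570992)) (a (l 16418176) (l 16452152)))) (b (l 16644024) (l 16535680))) (b (l 2) (a (l 16668360) (l 2)))) (a (a (a (l 16323960) (a (l 16331080) (l 16340272))) (l 16392400)) (a (l 16485536) (l 16645464))))), by decide +kernel⟩

def k3_pm_012 : ∃ t, chk3 f_pm_012 t 8 3 1 = true :=
  ⟨(b (b (a (a (b (a (c (l 16575488) (l 16567744)) (l 16539448)) (b (l 16587232) (l 16598392))) (b (l 16510424) (l 16537688))) (b (a (l 16444856) (l 16426616)) (a (b (l 16436088) (l 16455096)) (l 16482472)))) (a (a (a (b (b (c (l 16593568) (l 16589680)) (l 16610544)) (b (l 16649504) (l 16666840))) (b (b (l 16540336) (l 16551992)) (b (l 16570480) (c (l 16618528) (l 16615440))))) (b (c (l 16549536) (l 16548240)) (c (l 16611992) (l 16595808)))) (b (a (l 16503888) (l 16482984)) (b (l 16537952) (l 16551960)))))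 (b (a (a (b (b (a (a (l 16669856) (l 16655640)) (l 16634112)) (a (a (l 16696928) (l 16672304)) (a (l 16658072) (l 16643728)))) (b (a (a (c (l 16704096) (l 16701480)) (l 16688736)) (l 16688424)) (a (a (b (l 16714952) (a (l 16726504) (l 16698560))) (c (l 16706024) (l 16703936))) (c (l 16695216) (l 16693344))))) (b (b (l 16600768) (l 16628360)) (a (b (l 16638712) (l 16655184)) (l 16640952)))) (a (b (l 16573880) (b (l 16578272) (l 16595480))) (b (l 16513352) (b (l 16515448) (l 16531456))))) (a (a (b (b (b (a (a (a (l 16724064) (l 16706608)) (l 16717088)) (l 16706424)) (a (a (l 6) (b (l 16723120) (l 6))) (c (l 16704696) (l 16703328)))) (a (l 6) (a (l 6) (l 16703776)))) (l 6)) (b (b (a (l 16671480) (l 16647216)) (a (b (l 16684216) (l 16693568)) (l 16660200))) (b (a (l 6) (b (l 16658168) (l 6))) (l 6)))) (b (b (a (l 16618120) (l 16549032)) (a (a (l 16626296) (l 16618880)) (c (l 16608056) (l 16604096)))) (b (a (a (b (l 16655392) (l 16664296)) (b (l 16610928) (l 16619616)))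 (a (l 16613120) (l 16569504))) (a (b (a (l 6) (l 16628312)) (l 6)) (b (a (l 16604848) (l 16581832)) (a (l 16613320) (l 16590056))))))))), by decide +kernel⟩

def k4_pm_012 : ∃ t, chk3 f_pm_012 t 9 3 1 = true :=
  ⟨(b (b (a (b (a (l 16369704) (l 16359160)) (b (l 16423184) (l 16454576))) (b (a (l 16351584) (l 16347184)) (a (l 16363376) (l 16357680)))) (a (b (a (l 16433072) (l 16385728)) (a (l 16472256) (l 16398464))) (b (a (l 16365152) (l 16350904)) (a (l 16371792) (l 16350896))))) (b (a (b (a (l 16517112) (l 16438768)) (a (c (l 16547520) (l 16542288)) (l 16505000))) (b (a (l 16385944) (l 16359248)) (b (l 16447944) (l 16457888)))) (b (a (a (b (l 16525528) (l 16561832)) (b (l 16462320) (l 16476480))) (a (a (l 16439200) (l 16420312)) (l 16435992))) (a (a (b (a (l 16546840) (l 16524160)) (b (l 16547208) (l 16576056))) (b (l 16490912) (b (l 16501904) (l 16509280)))) (a (b (l 16449256) (l 16462680)) (b (l 16410992) (l 16422968))))))), by decide +kernel⟩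

def k5_pm_012 : ∃ t, chk3 f_pm_012 t 5 3 1 = true :=
  ⟨(b (a (a (a (b (b (l 16345424) (l 16355480)) (b (l 16343592) (l 16336432))) (b (a (b (l 16346480) (l 16357288)) (b (l 16352192) (l 16382968))) (a (l 16335272) (b (l 16349456) (l 16332304))))) (b (b (l 16350136) (l 16354376)) (b (l 16341760) (l 16323368)))) (b (b (l 16356064) (l 16341856)) (b (l 16341544) (a (l 16304792) (l 16293464))))) (a (b (a (a (b (l 16338456) (l 16347864)) (b (a (l 16327408) (l 16367696)) (a (l 16332328) (a (l 16327080) (l 16326160))))) (b (l 16306128) (l 16299968))) (a (a (b (l 16383864) (b (l 16376968) (l 16387136))) (a (b (l 16343432) (l 16359104)) (a (b (l 16336048) (l 16349720)) (b (l 16333560) (a (l 16346776) (l 16345280)))))) (b (b (l 16300536) (l 16302824)) (b (l 16306448) (l 16332184))))) (b (b (a (l 16281280) (l 16266592)) (a (l 16259016) (l 16237608))) (b (a (l 16248208) (l 16210016)) (a (b (l 16245448) (l 16245600)) (b (l 16197504) (l 16191824))))))), by decide +kernel⟩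

def k6_pm_012 : ∃ t, chk3 f_pm_012 t 3 1 1 = true :=
  ⟨(b (a (b (l 2) (a (b (l 2) (a (l 16785656) (l 2))) (l 2))) (l 2)) (a (b (a (b (a (l 16502488) (b (l 16773872) (l 16655120))) (b (l 16383816) (l 16295528))) (b (a (l 16859992) (l 2)) (a (b (l 16688456) (l 16526840)) (b (l 16844704) (l 16718720))))) (a (b (b (l 16259048) (a (l 16227112) (l 16225192))) (b (a (l 16192312) (l 16186304)) (a (l 16159072) (l 16145336)))) (b (a (b (l 16327200) (l 16233328)) (b (l 16556592) (l 16363576))) (a (b (l 16189064) (l 16143648)) (b (l 16211384) (l 16163816)))))) (b (a (b (l 2) (a (l 16932232) (l 2))) (l 2)) (a (b (a (b (l 16754552) (l 16593968)) (b (l 16913648) (l 16789816))) (a (b (l 16403024) (l 16193112)) (b (l 16629920) (l 16441752)))) (b (a (l 16995976) (l 2)) (a (b (l 16822424) (l 16663216)) (b (l 16950488) (l 16819672)))))))), by decide +kernel⟩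

theorem s7_pm_012 : ∃ t, chk3 f_pm_012 t 4 3 1 = true := ex3_a k3_pm_012 k4_pm_012

theorem s8_pm_012 : ∃ t, chk3 f_pm_012 t 2 3 1 = true := ex3_a s7_pm_012 k5_pm_012

theorem s9_pm_012 : ∃ t, chk3 f_pm_012 t 4 2 1 = true := ex3_b k0_pm_012 k1_pm_012

theorem s10_pm_012 : ∃ t, chk3 f_pm_012 t 2 2 1 = true := ex3_a s9_pm_012 k2_pm_012

theorem s11_pm_012 : ∃ t, chk3 f_pm_012 t 2 1 1 = true := ex3_b s10_pm_012 s8_pm_012

theorem s12_pm_012 : ∃ t, chk3 f_pm_012 t 1 1 1 = true := ex3_a s11_pm_012 k6_pm_012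

theorem c_pm_012 : CertN 0 536870912 536870912 536870912 402653184 67108864 3 true true false .pnp 0 1 2
    ndN0q0 ndN2q1 pcN2 cut_pm_012 Ext.none :=
  certN2 (fam := true) (s1 := true) (s2 := false) (a := 0) (b := 1) (c := 2) (cn := .pnp) (n1 := ndN0q0) (n2 := ndN2q1) (pc := pcN2) (cut := cut_pm_012) (xt := Ext.none) (P1 := 0) (W1 := 536870912) (P2 := 536870912) (W2 := 536870912) (P3 := 402653184) (W3 := 67108864) (N0 := 3)
    rfl (fun _ => rfl) s12_pm_012

noncomputable def f_pm_022 : ℕ → ℕ → ℕ → ℕ → Bool := onCell 0 536870912 1073741824 536870912 402653184 67108864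
    (rowN 3 1 true true false .pp 0 2 2 (qsf 0 536870912 1073741824 536870912 2) ndN0q0 ndN2q2 pcN2 Cut.none Ext.none)

def k0_pm_022 : ∃ t, chk3 f_pm_022 t 2 4 1 = true :=
  ⟨(b (l 3) (a (b (a (b (a (a (b (l 3) (a (b (l 3) (c (l 54391483527) (l 56538952839))) (l 3))) (l 3)) (l 3)) (b (a (b (a (a (c (l 16642464) (l 16633560)) (l 16643016)) (l 16649984)) (a (a (l 16630528) (l 16635448)) (l 16642376))) (a (l 16675544) (l 16661864))) (a (a (a (c (l 16623408) (l 16614408)) (l 16623968)) (l 16630936)) (a (l 16639312) (l 16646584))))) (b (l 3) (b (a (a (l 16688976) (l 111165680887)) (l 1)) (a (a (l 16652672) (l 16678432)) (a (l 264710709943) (l 1)))))) (a (b (a (a (b (a (l 16603376) (l 16608384)) (l 16590088)) (b (l 16615424) (l 16599704))) (a (l 16647600) (l 16665496))) (a (a (b (l 16574056) (l 16558320)) (b (l 16583800) (l 16567912))) (a (l 16605504) (l 16613160)))) (b (a (c (l 16675576) (l 16676464)) (a (b (l 103112611607) (l 16661880)) (b (l 1) (l 241088362215)))) (a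 (l 16644696) (a (l 16636568) (b (l 111702528295) (l 16649560))))))) (b (l 1) (a (a (b (l 1) (a (b (l 1) (l 244309563287)) (l 1))) (l 1)) (l 1))))), by decide +kernel⟩

def k1_pm_022 : ∃ t, chk3 f_pm_022 t 2 5 1 = true :=
  ⟨(b (b (b (a (a (a (a (l 16565720) (b (l 16556280) (l 16549880))) (b (l 16588392) (l 16560864))) (a (a (l 16635704) (l 16619152)) (b (l 16643080) (l 16599496)))) (a (a (a (b (l 115997480951) (l 16655232)) (b (l 1) (l 303365335959))) (l 1)) (l 1))) (a (a (a (b (a (l 16537792) (l 16546312)) (a (b (l 16538136) (b (l 16541648) (c (l 16553928) (a (l 16533128) (l 16537952))))) (b (l 16546616) (b (l 16550096) (l 16553352))))) (b (l 16557272) (b (l 16557544) (b (l 16561000) (l 16585208))))) (a (b (l 16568008) (b (l 16568352) (a (l 16570648) (l 16574960)))) (b (l 16573656) (b (l 16574272) (l 16642080))))) (a (a (b (a (l 16585080) (l 119218687735)) (b (l 16616232) (l 16611192))) (b (l 1) (a (l 163242122599) (l 1)))) (l 1)))) (a (a (a (a (b (c (l 16543376)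 (l 16524208)) (l 16510696)) (b (l 16542344) (l 16518920))) (a (l 16537920) (l 16544312))) (a (l 16593960) (l 16579136))) (a (a (a (l 16559216) (l 16558008)) (b (l 178811212599) (l 16582400))) (a (l 304975809015) (l 1))))) (a (a (a (b (a (l 16477504) (l 16485504)) (l 16440744)) (b (l 16495864) (l 16454248))) (a (b (l 16506136) (l 16463912)) (b (l 16511920) (l 16469192)))) (a (a (b (l 16512416) (l 16469320)) (l 16567944)) (b (a (a (l 16581408) (l 161094488023)) (a (l 253973081415) (l 1))) (a (l 16504904) (a (l 16548296) (l 178274213415))))))), by decide +kernel⟩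

def k2_pm_022 : ∃ t, chk3 f_pm_022 t 2 3 1 = true :=
  ⟨(a (b (b (a (a (b (l 16404416) (l 16373328)) (l 16400424)) (a (l 16408816) (l 16413040))) (a (b (a (b (l 16353816) (l 16342016)) (l 16357856)) (a (b (l 16337896) (l 16342720)) (l 16342344))) (b (l 16366544) (l 16349120)))) (b (a (b (a (l 16366016) (l 16350472)) (a (l 16490032) (l 16421416))) (b (a (l 16345152) (l 16344320)) (a (l 16364992) (l 16352144)))) (a (b (a (l 16704312) (l 16636256)) (a (b (a (l 16814856) (l 16796680)) (l 16814328)) (l 16768272))) (b (a (l 16573568) (l 16519944)) (a (l 16711984) (l 16660952)))))) (b (b (a (a (l 16412352) (l 16405200)) (b (b (l 16566512) (l 16510344)) (l 16463664))) (a (b (l 16362288) (l 16341840)) (l 16468808))) (b (a (l 16334576) (l 16295016)) (a (b (a (l 16480000) (l 16450360)) (a (l 16618064) (l 16586560))) (l 16491376))))), by decide +kernel⟩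

def k3_pm_022 : ∃ t, chk3 f_pm_022 t 3 1 1 = true :=
  ⟨(b (b (l 1) (b (l 1) (a (a (a (b (l 1) (l 275984786807)) (l 1)) (l 1)) (l 1)))) (b (a (b (a (a (b (a (l 16525664) (l 192769733351)) (l 16480928)) (b (l 290480343079) (a (l 16516280) (l 203507186327)))) (a (b (l 1) (l 297459721479)) (l 1))) (a (b (a (l 16395176) (l 16478592)) (l 16493536)) (b (a (b (l 212634042695) (l 136935336935)) (l 284574886519)) (a (l 16512456) (l 216929051815))))) (b (l 1) (a (b (l 1) (a (l 282427467591) (l 1))) (l 1)))) (b (a (a (b (l 16309560) (l 16300992)) (a (l 16477560) (l 16620248))) (a (b (a (l 223908550887) (l 316787293863)) (a (l 16603824) (l 227666745991))) (a (l 329135562807) (l 1)))) (a (a (l 16491480) (l 16566216)) (a (b (l 16680496) (l 16721376)) (b (a (l 216392773895) (l 333967604167)) (a (l 16835952) (l 192233830311)))))))), by decide +kernel⟩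

theorem s4_pm_022 : ∃ t, chk3 f_pm_022 t 2 2 1 = true := ex3_b k0_pm_022 k1_pm_022

theorem s5_pm_022 : ∃ t, chk3 f_pm_022 t 2 1 1 = true := ex3_b s4_pm_022 k2_pm_022

theorem s6_pm_022 : ∃ t, chk3 f_pm_022 t 1 1 1 = true := ex3_a s5_pm_022 k3_pm_022

theorem c_pm_022 : CertN 0 536870912 1073741824 536870912 402653184 67108864 3 true true false .pp 0 2 2
    ndN0q0 ndN2q2 pcN2 Cut.none Ext.none :=
  certN1 (fam := true) (s1 := true) (s2 := false) (a := 0) (b := 2) (c := 2) (cn := .pp) (n1 := ndN0q0) (n2 := ndN2q2) (pc := pcN2) (cut := Cut.none) (xt := Ext.none) (P1 := 0) (W1 := 536870912) (P2 := 1073741824) (W2 := 536870912) (P3 := 402653184) (W3 := 67108864) (N0 := 3)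
    rfl (fun _ => rfl) s6_pm_022

noncomputable def f_pm_023 : ℕ → ℕ → ℕ → ℕ → Bool := onCell 0 536870912 1073741824 536870912 402653184 67108864
    (rowN 3 0 true true false .up 0 2 3 (qsf 0 536870912 1073741824 536870912 3) ndN0q0 ndN2q2 pcN3 Cut.none Ext.none)

def k0_pm_023 : ∃ t, chk3 f_pm_023 t 1 1 1 = true :=
  ⟨(a (b (a (l 1) (b (l 1) (b (l 1) (l 156799484663)))) (b (a (b (l 1) (a (l 1) (l 166999462759))) (b (a (l 16280608) (l 16583632)) (a (l 183106032103) (l 16755560)))) (a (b (a (l 174515302903) (l 192769452087)) (a (b (l 16424288) (l 16546896)) (b (l 16693768) (l 16782080)))) (b (a (l 16739512) (l 16883152)) (b (l 17146160) (l 16967152)))))) (b (a (b (a (l 1) (l 205118247991)) (a (l 190622646023) (l 216929502407))) (b (a (l 236794015799) (b (l 249678879511) (l 17066976))) (a (l 16983944) (l 17027344)))) (b (a (b (a (l 16798152) (l 16917208)) (a (l 16889800) (l 16951880))) (b (a (l 16964328) (l 16967912)) (a (l 16968000) (l 16958792)))) (a (b (a (l 16954488)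 (l 16974344)) (a (l 17002088) (b (l 16984856) (l 17001880)))) (b (a (b (l 16967440) (l 16967768)) (b (l 16950168) (l 16952056))) (a (b (l 16969448) (l 16981648)) (b (l 16942656) (a (l 16971304) (b (l 16941816) (l 4)))))))))), by decide +kernel⟩

theorem c_pm_023 : CertN 0 536870912 1073741824 536870912 402653184 67108864 3 true true false .up 0 2 3
    ndN0q0 ndN2q2 pcN3 Cut.none Ext.none :=
  certN0 (fam := true) (s1 := true) (s2 := false) (a := 0) (b := 2) (c := 3) (cn := .up) (n1 := ndN0q0) (n2 := ndN2q2) (pc := pcN3) (cut := Cut.none) (xt := Ext.none) (P1 := 0) (W1 := 536870912) (P2 := 1073741824) (W2 := 536870912) (P3 := 402653184) (W3 := 67108864) (N0 := 3)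
    rfl k0_pm_023

noncomputable def f_pm_033 : ℕ → ℕ → ℕ → ℕ → Bool := onCell 1610612736 536870912 0 1230186008 402653184 67108864
    (rowN 3 2 true true false .pnn 0 3 3 (qsf 0 536870912 0 1230186008 3) ndN0q0 ndN2q3 pcN3 Cut.none Ext.none)

def k0_pm_033 : ∃ t, chk3 f_pm_033 t 1 1 1 = true :=
  ⟨(a (b (l 1) (b (a (l 1) (a (l 1) (b (l 1) (l 17146400)))) (a (b (l 1) (b (a (l 1) (l 16623408)) (a (b (l 16214928) (a (l 16263720) (l 16415704))) (b (l 16673176) (l 16711880))))) (b (a (b (l 16917728) (l 16902392)) (b (l 17090384) (l 17077416))) (b (a (l 16919096) (l 17075056)) (a (l 16946016) (l 17075352))))))) (b (a (l 1) (l 4)) (a (b (a (b (l 1) (l 17193928)) (b (l 17204088) (l 17352192))) (b (a (l 17179440) (b (l 17173952) (l 17164168))) (a (b (l 17139488) (l 17125104)) (b (l 17149464) (l 17125520))))) (b (l 4) (a (b (a (l 17156056) (l 4)) (b (l 17128800) (l 17109824))) (b (l 4) (a (l 17096624) (l 4)))))))), by decide +kernel⟩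

theorem c_pm_033 : CertN 0 536870912 0 1230186008 402653184 67108864 3 true true false .pnn 0 3 3
    ndN0q0 ndN2q3 pcN3 Cut.none Ext.none :=
  certN2 (fam := true) (s1 := true) (s2 := false) (a := 0) (b := 3) (c := 3) (cn := .pnn) (n1 := ndN0q0) (n2 := ndN2q3) (pc := pcN3) (cut := Cut.none) (xt := Ext.none) (P1 := 0) (W1 := 536870912) (P2 := 0) (W2 := 1230186008) (P3 := 402653184) (W3 := 67108864) (N0 := 3)
    rfl (fun _ => rfl) k0_pm_033

noncomputable def f_pm_101 : ℕ → ℕ → ℕ → ℕ → Bool := onCell 536870912 536870912 0 536870912 402653184 67108864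
    (rowN 3 2 true true false .npn 1 0 1 (qsf 536870912 536870912 0 536870912 1) ndN0q1 ndN2q0 pcN1 Cut.none Ext.none)

def k0_pm_101 : ∃ t, chk3 f_pm_101 t 1 1 1 = true :=
  ⟨(a (l 3) (b (a (l 3) (a (l 3) (b (a (b (a (l 3) (b (l 124185389703) (l 16926112))) (b (l 133849183191) (l 115058660615))) (b (a (l 16980296) (l 16847744)) (b (l 16924768) (l 17002736)))) (a (a (l 3) (a (l 3) (b (l 17093624) (l 17139464)))) (b (a (l 17114304) (l 16995944)) (a (l 17165712) (l 17042872))))))) (a (l 3) (a (l 3) (a (b (b (a (l 3) (b (l 17138248) (l 122575178503))) (l 3)) (l 3)) (b (b (b (l 17105448) (a (l 17119400) (l 17098048))) (b (l 17157232) (l 17232232))) (b (b (a (l 17229408) (l 17196104)) (a (l 165524836695) (l 17245560))) (b (a (b (l 17201760) (l 180557183111)) (l 17309400)) (a (b (a (l 1525955878375) (l 17286952)) (l 460669781607)) (l 91839286983)))))))))), by decide +kernel⟩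

theorem c_pm_101 : CertN 536870912 536870912 0 536870912 402653184 67108864 3 true true false .npn 1 0 1
    ndN0q1 ndN2q0 pcN1 Cut.none Ext.none :=
  certN2 (fam := true) (s1 := true) (s2 := false) (a := 1) (b := 0) (c := 1) (cn := .npn) (n1 := ndN0q1) (n2 := ndN2q0) (pc := pcN1) (cut := Cut.none) (xt := Ext.none) (P1 := 536870912) (W1 := 536870912) (P2 := 0) (W2 := 536870912) (P3 := 402653184) (W3 := 67108864) (N0 := 3)
    rfl (fun _ => rfl) k0_pm_101

noncomputable def f_pm_102 : ℕ → ℕ → ℕ → ℕ → Bool := onCell 536870912 536870912 1073741824 536870912 402653184 67108864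
    (rowN 3 1 true true false .npp 1 0 2 (qsf 536870912 536870912 0 536870912 2) ndN0q1 ndN2q0 pcN2 Cut.none Ext.none)

def k0_pm_102 : ∃ t, chk3 f_pm_102 t 1 1 1 = true :=
  ⟨(a (b (b (a (b (a (a (l 17331088) (l 17244784)) (b (l 17177648) (l 17129296))) (a (l 17193944) (l 17053680))) (b (a (b (l 17162936) (l 17049752)) (l 17254488)) (a (l 17039880) (l 16933896)))) (a (b (a (l 2) (b (l 16984840) (l 2))) (l 2)) (b (b (b (a (l 16925368) (l 16894336)) (l 16978240)) (l 16921552)) (l 17036248)))) (b (a (l 2) (b (l 16871720) (l 2))) (l 2))) (b (a (b (b (a (l 17172008) (b (l 16960792) (l 16920056))) (a (l 16947440) (l 17007936))) (b (b (b (l 16886336) (l 16891448)) (l 16904784)) (l 16941504))) (b (b (a (b (l 17044992) (l 16864744)) (b (a (b (l 16843704) (l 16829040)) (l 16788904)) (a (l 16816432) (l 16770872)))) (a (b (l 16852312) (l 16881040)) (a (l 16852960) (l 16796792)))) (a (l 17008072) (b (l 16900352) (l 17031536))))) (b (a (b (l 16989152) (l 17022184)) (b (l 17180440)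 (l 17178208))) (a (b (l 17039008) (l 2)) (b (l 17181984) (l 17179144)))))), by decide +kernel⟩

theorem c_pm_102 : CertN 536870912 536870912 0 536870912 402653184 67108864 3 true true false .npp 1 0 2
    ndN0q1 ndN2q0 pcN2 Cut.none Ext.none :=
  certN1 (fam := true) (s1 := true) (s2 := false) (a := 1) (b := 0) (c := 2) (cn := .npp) (n1 := ndN0q1) (n2 := ndN2q0) (pc := pcN2) (cut := Cut.none) (xt := Ext.none) (P1 := 536870912) (W1 := 536870912) (P2 := 0) (W2 := 536870912) (P3 := 402653184) (W3 := 67108864) (N0 := 3)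
    rfl (fun _ => rfl) k0_pm_102

noncomputable def f_pm_112 : ℕ → ℕ → ℕ → ℕ → Bool := onCell 1073741824 536870912 536870912 536870912 402653184 67108864
    (rowN 3 2 true true false .dn 1 1 2 (qsf 536870912 536870912 536870912 536870912 2) ndN0q1 ndN2q1 pcN2 Cut.none Ext.none)

def k0_pm_112 : ∃ t, chk3 f_pm_112 t 2 1 1 = true :=
  ⟨(b (a (b (b (a (b (a (b (a (l 255047529655) (l 16921736)) (a (l 263636916503) (l 219613442119))) (b (l 16875512) (a (l 16715472) (l 16714720)))) (a (a (l 1) (b (l 16596608) (l 1))) (b (l 169147445031) (l 158409986023)))) (b (a (b (l 16841456) (l 16728448)) (l 16800760)) (a (b (l 16651168) (l 16614720)) (l 16699192)))) (a (a (l 1) (b (b (l 226055724887) (l 1)) (l 1))) (b (a (b (l 16574592) (l 16530376)) (l 16623800)) (a (l 218002642295) (l 16532064))))) (b (a (l 1) (b (a (l 1) (l 16422272)) (l 1))) (l 1))) (b (a (b (b (a (a (l 16825248) (a (l 16841064) (l 16853264))) (l 16886664)) (a (a (l 16757816) (l 17009248)) (l 16864072))) (a (a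 (b (l 16687184) (l 16602736)) (a (l 16682528) (a (l 16700920) (l 16713304)))) (b (l 16803656) (l 16731520)))) (b (b (l 16980352) (l 16989640)) (b (l 16941416) (l 16884912)))) (b (a (a (a (b (l 16499904) (l 1)) (b (a (l 16542136) (l 16571000)) (l 193306506839))) (b (l 16644024) (l 16535712))) (b (l 16815760) (l 16732048))) (a (a (l 1) (l 16369304)) (a (l 16484800) (l 16644896)))))) (a (l 1) (b (a (l 1) (b (b (l 16332824) (l 1)) (l 1))) (l 1)))), by decide +kernel⟩

def k1_pm_112 : ∃ t, chk3 f_pm_112 t 3 1 1 = true :=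
  ⟨(b (a (b (b (a (b (l 17100208) (l 17132896)) (b (l 17192424) (l 17237856))) (a (l 17079984) (l 17206064))) (a (b (b (l 17010224) (l 16955344)) (a (l 16785664) (l 16906544))) (b (a (l 17106608) (l 17175312)) (a (l 17010120) (l 17097912))))) (b (a (b (b (l 17249320) (l 17301752)) (l 17288576)) (b (b (l 17261720) (l 17317408)) (l 17327080))) (b (a (l 17255000) (a (l 17309608) (l 17333048))) (a (l 17205256) (l 17303048))))) (a (b (a (b (a (l 16500184) (l 145525280407)) (a (l 1) (l 16387816))) (b (a (l 16860000) (l 16983208)) (a (l 133177127943) (l 16786072)))) (a (l 1) (b (a (l 1) (l 211022843191)) (l 1)))) (a (b (b (a (l 17087240) (l 17170072)) (a (l 16932240) (l 17053136))) (b (a (l 154651818711) (l 16856344)) (a (l 1) (l 214244031431)))) (b (a (b (l 17237472) (l 17149512)) (b (l 17289960) (l 17218112))) (b (a (l 16995984) (l 17094952)) (a (l 195454175895) (l 196528384823))))))), by decide +kernel⟩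

theorem s2_pm_112 : ∃ t, chk3 f_pm_112 t 1 1 1 = true := ex3_a k0_pm_112 k1_pm_112

theorem c_pm_112 : CertN 536870912 536870912 536870912 536870912 402653184 67108864 3 true true false .dn 1 1 2
    ndN0q1 ndN2q1 pcN2 Cut.none Ext.none :=
  certN2 (fam := true) (s1 := true) (s2 := false) (a := 1) (b := 1) (c := 2) (cn := .dn) (n1 := ndN0q1) (n2 := ndN2q1) (pc := pcN2) (cut := Cut.none) (xt := Ext.none) (P1 := 536870912) (W1 := 536870912) (P2 := 536870912) (W2 := 536870912) (P3 := 402653184) (W3 := 67108864) (N0 := 3)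
    rfl (fun _ => rfl) s2_pm_112

noncomputable def f_pm_113 : ℕ → ℕ → ℕ → ℕ → Bool := onCell 536870912 536870912 1610612736 536870912 402653184 67108864
    (rowN 3 1 true true false .nn 1 1 3 (qsf 536870912 536870912 536870912 536870912 3) ndN0q1 ndN2q1 pcN3 Cut.none Ext.none)

def k0_pm_113 : ∃ t, chk3 f_pm_113 t 1 1 1 = true :=
  ⟨(a (b (b (a (a (b (l 16754744) (l 16810720)) (b (l 17058872) (l 17104168))) (b (a (l 17229176) (l 17320672)) (a (l 17271440) (l 17356144)))) (a (a (l 2) (b (l 17186504) (l 2))) (b (a (l 17329960) (l 17397808)) (l 17450944)))) (b (b (a (l 2) (l 315245931111)) (l 2)) (l 2))) (b (a (b (b (a (l 17356960) (b (l 17352320) (l 17362344))) (l 17382512)) (b (l 17396920) (l 17404808))) (b (b (a (l 17587392) (b (a (l 17311472) (l 17270272)) (l 17293440))) (a (l 17331936) (l 17443712))) (b (a (l 17320216) (b (l 17251912) (l 17236664))) (l 17260784)))) (b (b (a (l 17411384) (l 17390488)) (a (l 17607016) (l 4))) (l 4)))), by decide +kernel⟩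

theorem c_pm_113 : CertN 536870912 536870912 536870912 536870912 402653184 67108864 3 true true false .nn 1 1 3
    ndN0q1 ndN2q1 pcN3 Cut.none Ext.none :=
  certN1 (fam := true) (s1 := true) (s2 := false) (a := 1) (b := 1) (c := 3) (cn := .nn) (n1 := ndN0q1) (n2 := ndN2q1) (pc := pcN3) (cut := Cut.none) (xt := Ext.none) (P1 := 536870912) (W1 := 536870912) (P2 := 536870912) (W2 := 536870912) (P3 := 402653184) (W3 := 67108864) (N0 := 3)
    rfl (fun _ => rfl) k0_pm_113

noncomputable def f_pm_123 : ℕ → ℕ → ℕ → ℕ → Bool := onCell 536870912 536870912 1610612736 536870912 402653184 67108864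
    (rowN 3 1 true true false .npn 1 2 3 (qsf 536870912 536870912 1073741824 536870912 3) ndN0q1 ndN2q2 pcN3 Cut.none Ext.none)

def k0_pm_123 : ∃ t, chk3 f_pm_123 t 1 1 1 = true :=
  ⟨(a (b (a (b (a (b (l 194381904407) (l 17153216)) (b (l 218541408103) (l 17241824))) (a (l 17274832) (l 17109384))) (b (a (l 266859458151) (l 1)) (a (l 218541288327) (l 216930705015)))) (a (b (a (b (l 16961376) (l 16932152)) (l 16948944)) (b (a (b (l 16920096) (l 16919760)) (b (l 16893920) (l 16887400))) (b (a (l 16924264) (l 16884584)) (a (l 4) (b (l 16882968) (l 4)))))) (b (a (l 17053400) (l 17218432)) (b (l 16908056) (b (a (l 16857472) (l 16825672)) (a (b (l 16861592) (l 16878880)) (b (l 16827888) (l 16877456)))))))) (b (a (b (l 1) (a (l 280817862535) (l 1))) (l 1)) (b (a (a (l 17165032) (l 304977202247)) (a (l 481607350599) (l 1))) (b (a (a (l 16885144) (l 16895760)) (a (l 337189261063) (a (l 377454409927) (l 1)))) (b (a (l 16867496) (a (l 16841464) (l 16874248))) (a (b (l 17025592)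 (b (l 16785280) (a (l 16794320) (l 17008224)))) (b (a (l 16808464) (l 17043824)) (b (a (l 16793280) (l 16837672)) (a (b (l 16787552) (l 16970616)) (b (l 16790872) (l 1233427896823))))))))))), by decide +kernel⟩

theorem c_pm_123 : CertN 536870912 536870912 1073741824 536870912 402653184 67108864 3 true true false .npn 1 2 3
    ndN0q1 ndN2q2 pcN3 Cut.none Ext.none :=
  certN1 (fam := true) (s1 := true) (s2 := false) (a := 1) (b := 2) (c := 3) (cn := .npn) (n1 := ndN0q1) (n2 := ndN2q2) (pc := pcN3) (cut := Cut.none) (xt := Ext.none) (P1 := 536870912) (W1 := 536870912) (P2 := 1073741824) (W2 := 536870912) (P3 := 402653184) (W3 := 67108864) (N0 := 3)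
    rfl (fun _ => rfl) k0_pm_123

noncomputable def f_pm_133 : ℕ → ℕ → ℕ → ℕ → Bool := onCell 536870912 536870912 0 1230186008 402653184 67108864
    (rowN 3 0 true true false .dn 1 3 3 (qsf 536870912 536870912 0 1230186008 3) ndN0q1 ndN2q3 pcN3 Cut.none Ext.none)

def k0_pm_133 : ∃ t, chk3 f_pm_133 t 1 1 1 = true :=
  ⟨(b (l 2) (b (l 2) (a (l 4) (l 2)))), by decide +kernel⟩

theorem c_pm_133 : CertN 536870912 536870912 0 1230186008 402653184 67108864 3 true true false .dn 1 3 3
    ndN0q1 ndN2q3 pcN3 Cut.none Ext.none :=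
  certN0 (fam := true) (s1 := true) (s2 := false) (a := 1) (b := 3) (c := 3) (cn := .dn) (n1 := ndN0q1) (n2 := ndN2q3) (pc := pcN3) (cut := Cut.none) (xt := Ext.none) (P1 := 536870912) (W1 := 536870912) (P2 := 0) (W2 := 1230186008) (P3 := 402653184) (W3 := 67108864) (N0 := 3)
    rfl k0_pm_133

noncomputable def f_pm_202 : ℕ → ℕ → ℕ → ℕ → Bool := onCell 0 536870912 0 536870912 402653184 67108864
    (rowN 3 0 true true false .pp 2 0 2 (qsf 0 536870912 0 536870912 2) ndN0q2 ndN2q0 pcN2 Cut.none Ext.none)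

def k0_pm_202 : ∃ t, chk3 f_pm_202 t 1 1 1 = true :=
  ⟨(a (b (b (a (b (b (l 16491216) (l 16551368)) (l 16650520)) (b (b (a (l 16501680) (l 16548376)) (a (l 16580712) (l 16602928))) (l 16929328))) (a (b (l 16785400) (l 16896552)) (b (l 16811776) (l 16940184)))) (b (b (a (l 16968784) (l 17049360)) (a (l 4) (l 17117048))) (b (l 17087592) (l 2)))) (b (a (b (b (a (l 16546120) (l 16674184)) (a (l 16705472) (l 16711584))) (b (a (l 16832472) (l 16842776)) (l 16983064))) (b (b (a (b (l 16644240) (l 16661232)) (a (b (l 16695064) (l 16698656)) (b (l 16738976) (l 16733032)))) (a (l 16713384) (l 16741288))) (b (a (l 16837480) (l 16828808)) (a (l 16997984) (l 16982760))))) (b (a (b (l 17124576) (l 17253736)) (b (a (l 17171408) (l 17197592)) (a (l 17353208) (l 17414432)))) (a (b (l 17327136) (l 2)) (b (l 17347560) (l 17295512)))))), by decide +kernel⟩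

theorem c_pm_202 : CertN 0 536870912 0 536870912 402653184 67108864 3 true true false .pp 2 0 2
    ndN0q2 ndN2q0 pcN2 Cut.none Ext.none :=
  certN0 (fam := true) (s1 := true) (s2 := false) (a := 2) (b := 0) (c := 2) (cn := .pp) (n1 := ndN0q2) (n2 := ndN2q0) (pc := pcN2) (cut := Cut.none) (xt := Ext.none) (P1 := 0) (W1 := 536870912) (P2 := 0) (W2 := 536870912) (P3 := 402653184) (W3 := 67108864) (N0 := 3)
    rfl k0_pm_202

noncomputable def f_pm_203 : ℕ → ℕ → ℕ → ℕ → Bool := onCell 0 536870912 1610612736 536870912 402653184 67108864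
    (rowN 3 1 true true false .up 2 0 3 (qsf 0 536870912 0 536870912 3) ndN0q2 ndN2q0 pcN3 Cut.none Ext.none)

def k0_pm_203 : ∃ t, chk3 f_pm_203 t 1 1 1 = true :=
  ⟨(b (b (a (b (l 17069816) (l 4)) (b (l 17299056) (l 17165464))) (a (l 4) (b (l 17109728) (l 2)))) (l 2)), by decide +kernel⟩

theorem c_pm_203 : CertN 0 536870912 0 536870912 402653184 67108864 3 true true false .up 2 0 3
    ndN0q2 ndN2q0 pcN3 Cut.none Ext.none :=
  certN1 (fam := true) (s1 := true) (s2 := false) (a := 2) (b := 0) (c := 3) (cn := .up) (n1 := ndN0q2) (n2 := ndN2q0) (pc := pcN3) (cut := Cut.none) (xt := Ext.none) (P1 := 0) (W1 := 536870912) (P2 := 0) (W2 := 536870912) (P3 := 402653184) (W3 := 67108864) (N0 := 3)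
    rfl (fun _ => rfl) k0_pm_203

noncomputable def f_pm_213 : ℕ → ℕ → ℕ → ℕ → Bool := onCell 0 536870912 536870912 536870912 402653184 67108864
    (rowN 3 0 true true false .pnn 2 1 3 (qsf 0 536870912 536870912 536870912 3) ndN0q2 ndN2q1 pcN3 Cut.none Ext.none)

def k0_pm_213 : ∃ t, chk3 f_pm_213 t 1 1 1 = true :=
  ⟨(a (l 4) (b (b (b (a (b (l 17073352) (l 4)) (a (l 17161528) (l 17226264))) (a (l 4) (a (l 17134504) (l 17206488)))) (a (l 4) (b (a (l 4) (l 17418880)) (l 4)))) (l 4))), by decide +kernel⟩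

theorem c_pm_213 : CertN 0 536870912 536870912 536870912 402653184 67108864 3 true true false .pnn 2 1 3
    ndN0q2 ndN2q1 pcN3 Cut.none Ext.none :=
  certN0 (fam := true) (s1 := true) (s2 := false) (a := 2) (b := 1) (c := 3) (cn := .pnn) (n1 := ndN0q2) (n2 := ndN2q1) (pc := pcN3) (cut := Cut.none) (xt := Ext.none) (P1 := 0) (W1 := 536870912) (P2 := 536870912) (W2 := 536870912) (P3 := 402653184) (W3 := 67108864) (N0 := 3)
    rfl k0_pm_213

noncomputable def f_mm_001 : ℕ → ℕ → ℕ → ℕ → Bool := onCell 0 536870912 0 536870912 402653184 67108864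
    (rowN 3 0 true false false .up 0 0 1 (qsf 0 536870912 0 536870912 1) ndN0q0 ndN2q0 pcN1 Cut.none Ext.none)

def k0_mm_001 : ∃ t, chk3 f_mm_001 t 1 1 1 = true :=
  ⟨(l 4), by decide +kernel⟩

theorem c_mm_001 : CertN 0 536870912 0 536870912 402653184 67108864 3 true false false .up 0 0 1
    ndN0q0 ndN2q0 pcN1 Cut.none Ext.none :=
  certN0 (fam := true) (s1 := false) (s2 := false) (a := 0) (b := 0) (c := 1) (cn := .up) (n1 := ndN0q0) (n2 := ndN2q0) (pc := pcN1) (cut := Cut.none) (xt := Ext.none) (P1 := 0) (W1 := 536870912) (P2 := 0) (W2 := 536870912) (P3 := 402653184) (W3 := 67108864) (N0 := 3)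
    rfl k0_mm_001

noncomputable def f_mm_011 : ℕ → ℕ → ℕ → ℕ → Bool := onCell 0 536870912 536870912 536870912 402653184 67108864
    (rowN 3 0 true false false .pnn 0 1 1 (qsf 0 536870912 536870912 536870912 1) ndN0q0 ndN2q1 pcN1 Cut.none Ext.none)

def k0_mm_011 : ∃ t, chk3 f_mm_011 t 1 1 1 = true :=
  ⟨(l 4), by decide +kernel⟩

theorem c_mm_011 : CertN 0 536870912 536870912 536870912 402653184 67108864 3 true false false .pnn 0 1 1
    ndN0q0 ndN2q1 pcN1 Cut.none Ext.none :=
  certN0 (fam := true) (s1 := false) (s2 := false) (a := 0) (b := 1) (c := 1) (cn := .pnn) (n1 := ndN0q0) (n2 := ndN2q1) (pc := pcN1) (cut := Cut.none) (xt := Ext.none) (P1 := 0) (W1 := 536870912) (P2 := 536870912) (W2 := 536870912) (P3 := 402653184) (W3 := 67108864) (N0 := 3)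
    rfl k0_mm_011

noncomputable def f_mm_012 : ℕ → ℕ → ℕ → ℕ → Bool := onCell 0 536870912 536870912 536870912 402653184 67108864
    (rowN 3 0 true false false .pnp 0 1 2 (qsf 0 536870912 536870912 536870912 2) ndN0q0 ndN2q1 pcN2 Cut.none Ext.none)

def k0_mm_012 : ∃ t, chk3 f_mm_012 t 1 1 1 = true :=
  ⟨(l 4), by decide +kernel⟩

theorem c_mm_012 : CertN 0 536870912 536870912 536870912 402653184 67108864 3 true false false .pnp 0 1 2
    ndN0q0 ndN2q1 pcN2 Cut.none Ext.none :=
  certN0 (fam := true) (s1 := false) (s2 := false) (a := 0) (b := 1) (c := 2) (cn := .pnp) (n1 := ndN0q0) (n2 := ndN2q1) (pc := pcN2) (cut := Cut.none) (xt := Ext.none) (P1 := 0) (W1 := 536870912) (P2 := 536870912) (W2 := 536870912) (P3 := 402653184) (W3 := 67108864) (N0 := 3)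
    rfl k0_mm_012

noncomputable def f_mm_022 : ℕ → ℕ → ℕ → ℕ → Bool := onCell 0 536870912 1073741824 536870912 402653184 67108864
    (rowN 3 0 true false false .pp 0 2 2 (qsf 0 536870912 1073741824 536870912 2) ndN0q0 ndN2q2 pcN2 Cut.none Ext.none)

def k0_mm_022 : ∃ t, chk3 f_mm_022 t 1 1 1 = true :=
  ⟨(l 4), by decide +kernel⟩

theorem c_mm_022 : CertN 0 536870912 1073741824 536870912 402653184 67108864 3 true false false .pp 0 2 2
    ndN0q0 ndN2q2 pcN2 Cut.none Ext.none :=
  certN0 (fam := true) (s1 := false) (s2 := false) (a := 0) (b := 2) (c := 2) (cn := .pp) (n1 := ndN0q0) (n2 := ndN2q2) (pc := pcN2) (cut := Cut.none) (xt := Ext.none) (P1 := 0) (W1 := 536870912) (P2 := 1073741824) (W2 := 536870912) (P3 := 402653184) (W3 := 67108864) (N0 := 3)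
    rfl k0_mm_022

noncomputable def f_mm_023 : ℕ → ℕ → ℕ → ℕ → Bool := onCell 0 536870912 1073741824 536870912 402653184 67108864
    (rowN 3 0 true false false .up 0 2 3 (qsf 0 536870912 1073741824 536870912 3) ndN0q0 ndN2q2 pcN3 Cut.none Ext.none)

def k0_mm_023 : ∃ t, chk3 f_mm_023 t 1 1 1 = true :=
  ⟨(l 4), by decide +kernel⟩

theorem c_mm_023 : CertN 0 536870912 1073741824 536870912 402653184 67108864 3 true false false .up 0 2 3
    ndN0q0 ndN2q2 pcN3 Cut.none Ext.none :=
  certN0 (fam := true) (s1 := false) (s2 := false) (a := 0) (b := 2) (c := 3) (cn := .up) (n1 := ndN0q0) (n2 := ndN2q2) (pc := pcN3) (cut := Cut.none) (xt := Ext.none) (P1 := 0) (W1 := 536870912) (P2 := 1073741824) (W2 := 536870912) (P3 := 402653184) (W3 := 67108864) (N0 := 3)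
    rfl k0_mm_023

noncomputable def f_mm_033 : ℕ → ℕ → ℕ → ℕ → Bool := onCell 0 536870912 0 1230186008 402653184 67108864
    (rowN 3 0 true false false .pnn 0 3 3 (qsf 0 536870912 0 1230186008 3) ndN0q0 ndN2q3 pcN3 Cut.none Ext.none)

def k0_mm_033 : ∃ t, chk3 f_mm_033 t 1 1 1 = true :=
  ⟨(l 5), by decide +kernel⟩

theorem c_mm_033 : CertN 0 536870912 0 1230186008 402653184 67108864 3 true false false .pnn 0 3 3
    ndN0q0 ndN2q3 pcN3 Cut.none Ext.none :=
  certN0 (fam := true) (s1 := false) (s2 := false) (a := 0) (b := 3) (c := 3) (cn := .pnn) (n1 := ndN0q0) (n2 := ndN2q3) (pc := pcN3) (cut := Cut.none) (xt := Ext.none) (P1 := 0) (W1 := 536870912) (P2 := 0) (W2 := 1230186008) (P3 := 402653184) (W3 := 67108864) (N0 := 3)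
    rfl k0_mm_033

noncomputable def f_mm_101 : ℕ → ℕ → ℕ → ℕ → Bool := onCell 536870912 536870912 0 536870912 402653184 67108864
    (rowN 3 0 true false false .npn 1 0 1 (qsf 536870912 536870912 0 536870912 1) ndN0q1 ndN2q0 pcN1 Cut.none Ext.none)

def k0_mm_101 : ∃ t, chk3 f_mm_101 t 1 1 1 = true :=
  ⟨(a (l 4) (l 4)), by decide +kernel⟩

theorem c_mm_101 : CertN 536870912 536870912 0 536870912 402653184 67108864 3 true false false .npn 1 0 1
    ndN0q1 ndN2q0 pcN1 Cut.none Ext.none :=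
  certN0 (fam := true) (s1 := false) (s2 := false) (a := 1) (b := 0) (c := 1) (cn := .npn) (n1 := ndN0q1) (n2 := ndN2q0) (pc := pcN1) (cut := Cut.none) (xt := Ext.none) (P1 := 536870912) (W1 := 536870912) (P2 := 0) (W2 := 536870912) (P3 := 402653184) (W3 := 67108864) (N0 := 3)
    rfl k0_mm_101

noncomputable def f_mm_102 : ℕ → ℕ → ℕ → ℕ → Bool := onCell 536870912 536870912 0 536870912 402653184 67108864
    (rowN 3 0 true false false .npp 1 0 2 (qsf 536870912 536870912 0 536870912 2) ndN0q1 ndN2q0 pcN2 Cut.none Ext.none)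

def k0_mm_102 : ∃ t, chk3 f_mm_102 t 1 1 1 = true :=
  ⟨(a (l 4) (l 4)), by decide +kernel⟩

theorem c_mm_102 : CertN 536870912 536870912 0 536870912 402653184 67108864 3 true false false .npp 1 0 2
    ndN0q1 ndN2q0 pcN2 Cut.none Ext.none :=
  certN0 (fam := true) (s1 := false) (s2 := false) (a := 1) (b := 0) (c := 2) (cn := .npp) (n1 := ndN0q1) (n2 := ndN2q0) (pc := pcN2) (cut := Cut.none) (xt := Ext.none) (P1 := 536870912) (W1 := 536870912) (P2 := 0) (W2 := 536870912) (P3 := 402653184) (W3 := 67108864) (N0 := 3)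
    rfl k0_mm_102

noncomputable def f_mm_112 : ℕ → ℕ → ℕ → ℕ → Bool := onCell 536870912 536870912 536870912 536870912 402653184 67108864
    (rowN 3 0 true false false .dn 1 1 2 (qsf 536870912 536870912 536870912 536870912 2) ndN0q1 ndN2q1 pcN2 Cut.none Ext.none)

def k0_mm_112 : ∃ t, chk3 f_mm_112 t 1 1 1 = true :=
  ⟨(l 4), by decide +kernel⟩

theorem c_mm_112 : CertN 536870912 536870912 536870912 536870912 402653184 67108864 3 true false false .dn 1 1 2
    ndN0q1 ndN2q1 pcN2 Cut.none Ext.none :=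
  certN0 (fam := true) (s1 := false) (s2 := false) (a := 1) (b := 1) (c := 2) (cn := .dn) (n1 := ndN0q1) (n2 := ndN2q1) (pc := pcN2) (cut := Cut.none) (xt := Ext.none) (P1 := 536870912) (W1 := 536870912) (P2 := 536870912) (W2 := 536870912) (P3 := 402653184) (W3 := 67108864) (N0 := 3)
    rfl k0_mm_112

noncomputable def f_mm_113 : ℕ → ℕ → ℕ → ℕ → Bool := onCell 536870912 536870912 536870912 536870912 402653184 67108864
    (rowN 3 0 true false false .nn 1 1 3 (qsf 536870912 536870912 536870912 536870912 3) ndN0q1 ndN2q1 pcN3 Cut.none Ext.none)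

def k0_mm_113 : ∃ t, chk3 f_mm_113 t 1 1 1 = true :=
  ⟨(l 4), by decide +kernel⟩

theorem c_mm_113 : CertN 536870912 536870912 536870912 536870912 402653184 67108864 3 true false false .nn 1 1 3
    ndN0q1 ndN2q1 pcN3 Cut.none Ext.none :=
  certN0 (fam := true) (s1 := false) (s2 := false) (a := 1) (b := 1) (c := 3) (cn := .nn) (n1 := ndN0q1) (n2 := ndN2q1) (pc := pcN3) (cut := Cut.none) (xt := Ext.none) (P1 := 536870912) (W1 := 536870912) (P2 := 536870912) (W2 := 536870912) (P3 := 402653184) (W3 := 67108864) (N0 := 3)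
    rfl k0_mm_113

noncomputable def f_mm_123 : ℕ → ℕ → ℕ → ℕ → Bool := onCell 536870912 536870912 1073741824 536870912 402653184 67108864
    (rowN 3 0 true false false .npn 1 2 3 (qsf 536870912 536870912 1073741824 536870912 3) ndN0q1 ndN2q2 pcN3 Cut.none Ext.none)

def k0_mm_123 : ∃ t, chk3 f_mm_123 t 1 1 1 = true :=
  ⟨(l 4), by decide +kernel⟩

theorem c_mm_123 : CertN 536870912 536870912 1073741824 536870912 402653184 67108864 3 true false false .npn 1 2 3
    ndN0q1 ndN2q2 pcN3 Cut.none Ext.none :=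
  certN0 (fam := true) (s1 := false) (s2 := false) (a := 1) (b := 2) (c := 3) (cn := .npn) (n1 := ndN0q1) (n2 := ndN2q2) (pc := pcN3) (cut := Cut.none) (xt := Ext.none) (P1 := 536870912) (W1 := 536870912) (P2 := 1073741824) (W2 := 536870912) (P3 := 402653184) (W3 := 67108864) (N0 := 3)
    rfl k0_mm_123

noncomputable def f_mm_133 : ℕ → ℕ → ℕ → ℕ → Bool := onCell 1610612736 536870912 0 1230186008 402653184 67108864
    (rowN 3 2 true false false .dn 1 3 3 (qsf 536870912 536870912 0 1230186008 3) ndN0q1 ndN2q3 pcN3 Cut.none Ext.none)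

def k0_mm_133 : ∃ t, chk3 f_mm_133 t 1 1 1 = true :=
  ⟨(l 5), by decide +kernel⟩

theorem c_mm_133 : CertN 536870912 536870912 0 1230186008 402653184 67108864 3 true false false .dn 1 3 3
    ndN0q1 ndN2q3 pcN3 Cut.none Ext.none :=
  certN2 (fam := true) (s1 := false) (s2 := false) (a := 1) (b := 3) (c := 3) (cn := .dn) (n1 := ndN0q1) (n2 := ndN2q3) (pc := pcN3) (cut := Cut.none) (xt := Ext.none) (P1 := 536870912) (W1 := 536870912) (P2 := 0) (W2 := 1230186008) (P3 := 402653184) (W3 := 67108864) (N0 := 3)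
    rfl (fun _ => rfl) k0_mm_133

noncomputable def f_mm_202 : ℕ → ℕ → ℕ → ℕ → Bool := onCell 0 536870912 0 536870912 402653184 67108864
    (rowN 3 0 true false false .pp 2 0 2 (qsf 0 536870912 0 536870912 2) ndN0q2 ndN2q0 pcN2 Cut.none Ext.none)

def k0_mm_202 : ∃ t, chk3 f_mm_202 t 1 1 1 = true :=
  ⟨(b (a (b (b (a (b (l 16470776) (l 16538040)) (b (l 16492528) (l 16562192))) (a (l 16644976) (b (l 16625544) (l 16681272)))) (a (b (l 16766720) (l 16855424)) (l 4))) (b (a (b (b (a (l 16544592) (l 16634016)) (l 8824995975)) (l 4)) (l 4)) (l 4))) (l 4)), by decide +kernel⟩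

theorem c_mm_202 : CertN 0 536870912 0 536870912 402653184 67108864 3 true false false .pp 2 0 2
    ndN0q2 ndN2q0 pcN2 Cut.none Ext.none :=
  certN0 (fam := true) (s1 := false) (s2 := false) (a := 2) (b := 0) (c := 2) (cn := .pp) (n1 := ndN0q2) (n2 := ndN2q0) (pc := pcN2) (cut := Cut.none) (xt := Ext.none) (P1 := 0) (W1 := 536870912) (P2 := 0) (W2 := 536870912) (P3 := 402653184) (W3 := 67108864) (N0 := 3)
    rfl k0_mm_202

noncomputable def f_mm_203 : ℕ → ℕ → ℕ → ℕ → Bool := onCell 0 536870912 1610612736 536870912 402653184 67108864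
    (rowN 3 1 true false false .up 2 0 3 (qsf 0 536870912 0 536870912 3) ndN0q2 ndN2q0 pcN3 Cut.none Ext.none)

def k0_mm_203 : ∃ t, chk3 f_mm_203 t 1 1 1 = true :=
  ⟨(l 4), by decide +kernel⟩

theorem c_mm_203 : CertN 0 536870912 0 536870912 402653184 67108864 3 true false false .up 2 0 3
    ndN0q2 ndN2q0 pcN3 Cut.none Ext.none :=
  certN1 (fam := true) (s1 := false) (s2 := false) (a := 2) (b := 0) (c := 3) (cn := .up) (n1 := ndN0q2) (n2 := ndN2q0) (pc := pcN3) (cut := Cut.none) (xt := Ext.none) (P1 := 0) (W1 := 536870912) (P2 := 0) (W2 := 536870912) (P3 := 402653184) (W3 := 67108864) (N0 := 3)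
    rfl (fun _ => rfl) k0_mm_203

noncomputable def f_mm_213 : ℕ → ℕ → ℕ → ℕ → Bool := onCell 0 536870912 536870912 536870912 402653184 67108864
    (rowN 3 0 true false false .pnn 2 1 3 (qsf 0 536870912 536870912 536870912 3) ndN0q2 ndN2q1 pcN3 Cut.none Ext.none)

def k0_mm_213 : ∃ t, chk3 f_mm_213 t 1 1 1 = true :=
  ⟨(l 4), by decide +kernel⟩

theorem c_mm_213 : CertN 0 536870912 536870912 536870912 402653184 67108864 3 true false false .pnn 2 1 3
    ndN0q2 ndN2q1 pcN3 Cut.none Ext.none :=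
  certN0 (fam := true) (s1 := false) (s2 := false) (a := 2) (b := 1) (c := 3) (cn := .pnn) (n1 := ndN0q2) (n2 := ndN2q1) (pc := pcN3) (cut := Cut.none) (xt := Ext.none) (P1 := 0) (W1 := 536870912) (P2 := 536870912) (W2 := 536870912) (P3 := 402653184) (W3 := 67108864) (N0 := 3)
    rfl k0_mm_213

end Pool.Agent.Strip051.G.I3_8_7_16.Tab.C.NA02

namespace Pool.Agent.Strip051.G.I3_8_7_16.Tab.C.NA03

open Pool.Agent.Strip051.PB Pool.Agent.Strip051.PB.T
open Pool.Agent.Strip051.G.I3_8_7_16.Tab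

noncomputable def f_pp_001 : ℕ → ℕ → ℕ → ℕ → Bool := onCell 0 536870912 0 536870912 402653184 67108864
    (rowN 3 0 true true true .up 0 0 1 (qsf 0 536870912 0 536870912 1) ndN0q0 ndN3q0 pcN1 Cut.none Ext.none)

def k0_pp_001 : ∃ t, chk3 f_pp_001 t 1 1 1 = true :=
  ⟨(l 4), by decide +kernel⟩

theorem c_pp_001 : CertN 0 536870912 0 536870912 402653184 67108864 3 true true true .up 0 0 1
    ndN0q0 ndN3q0 pcN1 Cut.none Ext.none :=
  certN0 (fam := true) (s1 := true) (s2 := true) (a := 0) (b := 0) (c := 1) (cn := .up) (n1 := ndN0q0) (n2 := ndN3q0) (pc := pcN1) (cut := Cut.none) (xt := Ext.none) (P1 := 0) (W1 := 536870912) (P2 := 0) (W2 := 536870912) (P3 := 402653184) (W3 := 67108864) (N0 := 3)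
    rfl k0_pp_001

noncomputable def f_pp_011 : ℕ → ℕ → ℕ → ℕ → Bool := onCell 0 536870912 536870912 536870912 402653184 67108864
    (rowN 3 0 true true true .pnn 0 1 1 (qsf 0 536870912 536870912 536870912 1) ndN0q0 ndN3q1 pcN1 Cut.none Ext.none)

def k0_pp_011 : ∃ t, chk3 f_pp_011 t 1 1 1 = true :=
  ⟨(l 4), by decide +kernel⟩

theorem c_pp_011 : CertN 0 536870912 536870912 536870912 402653184 67108864 3 true true true .pnn 0 1 1
    ndN0q0 ndN3q1 pcN1 Cut.none Ext.none :=
  certN0 (fam := true) (s1 := true) (s2 := true) (a := 0) (b := 1) (c := 1) (cn := .pnn) (n1 := ndN0q0) (n2 := ndN3q1) (pc := pcN1) (cut := Cut.none) (xt := Ext.none) (P1 := 0) (W1 := 536870912) (P2 := 536870912) (W2 := 536870912) (P3 := 402653184) (W3 := 67108864) (N0 := 3)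
    rfl k0_pp_011

noncomputable def f_pp_012 : ℕ → ℕ → ℕ → ℕ → Bool := onCell 0 536870912 536870912 536870912 402653184 67108864
    (rowN 3 0 true true true .pnp 0 1 2 (qsf 0 536870912 536870912 536870912 2) ndN0q0 ndN3q1 pcN2 Cut.none Ext.none)

def k0_pp_012 : ∃ t, chk3 f_pp_012 t 1 1 1 = true :=
  ⟨(l 4), by decide +kernel⟩

theorem c_pp_012 : CertN 0 536870912 536870912 536870912 402653184 67108864 3 true true true .pnp 0 1 2
    ndN0q0 ndN3q1 pcN2 Cut.none Ext.none :=
  certN0 (fam := true) (s1 := true) (s2 := true) (a := 0) (b := 1) (c := 2) (cn := .pnp) (n1 := ndN0q0) (n2 := ndN3q1) (pc := pcN2) (cut := Cut.none) (xt := Ext.none) (P1 := 0) (W1 := 536870912) (P2 := 536870912) (W2 := 536870912) (P3 := 402653184) (W3 := 67108864) (N0 := 3)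
    rfl k0_pp_012

noncomputable def f_pp_022 : ℕ → ℕ → ℕ → ℕ → Bool := onCell 0 536870912 1073741824 536870912 402653184 67108864
    (rowN 3 0 true true true .pp 0 2 2 (qsf 0 536870912 1073741824 536870912 2) ndN0q0 ndN3q2 pcN2 Cut.none Ext.none)

def k0_pp_022 : ∃ t, chk3 f_pp_022 t 1 1 1 = true :=
  ⟨(l 4), by decide +kernel⟩

theorem c_pp_022 : CertN 0 536870912 1073741824 536870912 402653184 67108864 3 true true true .pp 0 2 2
    ndN0q0 ndN3q2 pcN2 Cut.none Ext.none :=
  certN0 (fam := true) (s1 := true) (s2 := true) (a := 0) (b := 2) (c := 2) (cn := .pp) (n1 := ndN0q0) (n2 := ndN3q2) (pc := pcN2) (cut := Cut.none) (xt := Ext.none) (P1 := 0) (W1 := 536870912) (P2 := 1073741824) (W2 := 536870912) (P3 := 402653184) (W3 := 67108864) (N0 := 3)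
    rfl k0_pp_022

noncomputable def f_pp_023 : ℕ → ℕ → ℕ → ℕ → Bool := onCell 0 536870912 1073741824 536870912 402653184 67108864
    (rowN 3 0 true true true .up 0 2 3 (qsf 0 536870912 1073741824 536870912 3) ndN0q0 ndN3q2 pcN3 Cut.none Ext.none)

def k0_pp_023 : ∃ t, chk3 f_pp_023 t 1 1 1 = true :=
  ⟨(l 4), by decide +kernel⟩

theorem c_pp_023 : CertN 0 536870912 1073741824 536870912 402653184 67108864 3 true true true .up 0 2 3
    ndN0q0 ndN3q2 pcN3 Cut.none Ext.none :=
  certN0 (fam := true) (s1 := true) (s2 := true) (a := 0) (b := 2) (c := 3) (cn := .up) (n1 := ndN0q0) (n2 := ndN3q2) (pc := pcN3) (cut := Cut.none) (xt := Ext.none) (P1 := 0) (W1 := 536870912) (P2 := 1073741824) (W2 := 536870912) (P3 := 402653184) (W3 := 67108864) (N0 := 3)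
    rfl k0_pp_023

noncomputable def f_pp_033 : ℕ → ℕ → ℕ → ℕ → Bool := onCell 0 536870912 0 1230186008 402653184 67108864
    (rowN 3 0 true true true .pnn 0 3 3 (qsf 0 536870912 0 1230186008 3) ndN0q0 ndN3q3 pcN3 Cut.none Ext.none)

def k0_pp_033 : ∃ t, chk3 f_pp_033 t 1 1 1 = true :=
  ⟨(b (l 4) (l 4)), by decide +kernel⟩

theorem c_pp_033 : CertN 0 536870912 0 1230186008 402653184 67108864 3 true true true .pnn 0 3 3
    ndN0q0 ndN3q3 pcN3 Cut.none Ext.none :=
  certN0 (fam := true) (s1 := true) (s2 := true) (a := 0) (b := 3) (c := 3) (cn := .pnn) (n1 := ndN0q0) (n2 := ndN3q3) (pc := pcN3) (cut := Cut.none) (xt := Ext.none) (P1 := 0) (W1 := 536870912) (P2 := 0) (W2 := 1230186008) (P3 := 402653184) (W3 := 67108864) (N0 := 3)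
    rfl k0_pp_033

noncomputable def f_pp_101 : ℕ → ℕ → ℕ → ℕ → Bool := onCell 536870912 536870912 0 536870912 402653184 67108864
    (rowN 3 0 true true true .npn 1 0 1 (qsf 536870912 536870912 0 536870912 1) ndN0q1 ndN3q0 pcN1 Cut.none Ext.none)

def k0_pp_101 : ∃ t, chk3 f_pp_101 t 1 1 1 = true :=
  ⟨(l 4), by decide +kernel⟩

theorem c_pp_101 : CertN 536870912 536870912 0 536870912 402653184 67108864 3 true true true .npn 1 0 1
    ndN0q1 ndN3q0 pcN1 Cut.none Ext.none :=
  certN0 (fam := true) (s1 := true) (s2 := true) (a := 1) (b := 0) (c := 1) (cn := .npn) (n1 := ndN0q1) (n2 := ndN3q0) (pc := pcN1) (cut := Cut.none) (xt := Ext.none) (P1 := 536870912) (W1 := 536870912) (P2 := 0) (W2 := 536870912) (P3 := 402653184) (W3 := 67108864) (N0 := 3)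
    rfl k0_pp_101

noncomputable def f_pp_102 : ℕ → ℕ → ℕ → ℕ → Bool := onCell 536870912 536870912 0 536870912 402653184 67108864
    (rowN 3 0 true true true .npp 1 0 2 (qsf 536870912 536870912 0 536870912 2) ndN0q1 ndN3q0 pcN2 Cut.none Ext.none)

def k0_pp_102 : ∃ t, chk3 f_pp_102 t 1 1 1 = true :=
  ⟨(l 4), by decide +kernel⟩

theorem c_pp_102 : CertN 536870912 536870912 0 536870912 402653184 67108864 3 true true true .npp 1 0 2
    ndN0q1 ndN3q0 pcN2 Cut.none Ext.none :=
  certN0 (fam := true) (s1 := true) (s2 := true) (a := 1) (b := 0) (c := 2) (cn := .npp) (n1 := ndN0q1) (n2 := ndN3q0) (pc := pcN2) (cut := Cut.none) (xt := Ext.none) (P1 := 536870912) (W1 := 536870912) (P2 := 0) (W2 := 536870912) (P3 := 402653184) (W3 := 67108864) (N0 := 3)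
    rfl k0_pp_102

noncomputable def f_pp_112 : ℕ → ℕ → ℕ → ℕ → Bool := onCell 536870912 536870912 536870912 536870912 402653184 67108864
    (rowN 3 0 true true true .dn 1 1 2 (qsf 536870912 536870912 536870912 536870912 2) ndN0q1 ndN3q1 pcN2 Cut.none Ext.none)

def k0_pp_112 : ∃ t, chk3 f_pp_112 t 1 1 1 = true :=
  ⟨(l 4), by decide +kernel⟩

theorem c_pp_112 : CertN 536870912 536870912 536870912 536870912 402653184 67108864 3 true true true .dn 1 1 2
    ndN0q1 ndN3q1 pcN2 Cut.none Ext.none :=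
  certN0 (fam := true) (s1 := true) (s2 := true) (a := 1) (b := 1) (c := 2) (cn := .dn) (n1 := ndN0q1) (n2 := ndN3q1) (pc := pcN2) (cut := Cut.none) (xt := Ext.none) (P1 := 536870912) (W1 := 536870912) (P2 := 536870912) (W2 := 536870912) (P3 := 402653184) (W3 := 67108864) (N0 := 3)
    rfl k0_pp_112

noncomputable def f_pp_113 : ℕ → ℕ → ℕ → ℕ → Bool := onCell 536870912 536870912 536870912 536870912 402653184 67108864
    (rowN 3 0 true true true .nn 1 1 3 (qsf 536870912 536870912 536870912 536870912 3) ndN0q1 ndN3q1 pcN3 Cut.none Ext.none)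

def k0_pp_113 : ∃ t, chk3 f_pp_113 t 1 1 1 = true :=
  ⟨(l 4), by decide +kernel⟩

theorem c_pp_113 : CertN 536870912 536870912 536870912 536870912 402653184 67108864 3 true true true .nn 1 1 3
    ndN0q1 ndN3q1 pcN3 Cut.none Ext.none :=
  certN0 (fam := true) (s1 := true) (s2 := true) (a := 1) (b := 1) (c := 3) (cn := .nn) (n1 := ndN0q1) (n2 := ndN3q1) (pc := pcN3) (cut := Cut.none) (xt := Ext.none) (P1 := 536870912) (W1 := 536870912) (P2 := 536870912) (W2 := 536870912) (P3 := 402653184) (W3 := 67108864) (N0 := 3)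
    rfl k0_pp_113

noncomputable def f_pp_123 : ℕ → ℕ → ℕ → ℕ → Bool := onCell 536870912 536870912 1073741824 536870912 402653184 67108864
    (rowN 3 0 true true true .npn 1 2 3 (qsf 536870912 536870912 1073741824 536870912 3) ndN0q1 ndN3q2 pcN3 Cut.none Ext.none)

def k0_pp_123 : ∃ t, chk3 f_pp_123 t 1 1 1 = true :=
  ⟨(l 4), by decide +kernel⟩

theorem c_pp_123 : CertN 536870912 536870912 1073741824 536870912 402653184 67108864 3 true true true .npn 1 2 3
    ndN0q1 ndN3q2 pcN3 Cut.none Ext.none :=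
  certN0 (fam := true) (s1 := true) (s2 := true) (a := 1) (b := 2) (c := 3) (cn := .npn) (n1 := ndN0q1) (n2 := ndN3q2) (pc := pcN3) (cut := Cut.none) (xt := Ext.none) (P1 := 536870912) (W1 := 536870912) (P2 := 1073741824) (W2 := 536870912) (P3 := 402653184) (W3 := 67108864) (N0 := 3)
    rfl k0_pp_123

noncomputable def f_pp_133 : ℕ → ℕ → ℕ → ℕ → Bool := onCell 536870912 536870912 0 1230186008 402653184 67108864
    (rowN 3 0 true true true .dn 1 3 3 (qsf 536870912 536870912 0 1230186008 3) ndN0q1 ndN3q3 pcN3 Cut.none Ext.none)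

def k0_pp_133 : ∃ t, chk3 f_pp_133 t 1 1 1 = true :=
  ⟨(l 4), by decide +kernel⟩

theorem c_pp_133 : CertN 536870912 536870912 0 1230186008 402653184 67108864 3 true true true .dn 1 3 3
    ndN0q1 ndN3q3 pcN3 Cut.none Ext.none :=
  certN0 (fam := true) (s1 := true) (s2 := true) (a := 1) (b := 3) (c := 3) (cn := .dn) (n1 := ndN0q1) (n2 := ndN3q3) (pc := pcN3) (cut := Cut.none) (xt := Ext.none) (P1 := 536870912) (W1 := 536870912) (P2 := 0) (W2 := 1230186008) (P3 := 402653184) (W3 := 67108864) (N0 := 3)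
    rfl k0_pp_133

noncomputable def f_pp_202 : ℕ → ℕ → ℕ → ℕ → Bool := onCell 0 536870912 0 536870912 402653184 67108864
    (rowN 3 0 true true true .pp 2 0 2 (qsf 0 536870912 0 536870912 2) ndN0q2 ndN3q0 pcN2 Cut.none Ext.none)

def k0_pp_202 : ∃ t, chk3 f_pp_202 t 1 1 1 = true :=
  ⟨(l 5), by decide +kernel⟩

theorem c_pp_202 : CertN 0 536870912 0 536870912 402653184 67108864 3 true true true .pp 2 0 2
    ndN0q2 ndN3q0 pcN2 Cut.none Ext.none :=
  certN0 (fam := true) (s1 := true) (s2 := true) (a := 2) (b := 0) (c := 2) (cn := .pp) (n1 := ndN0q2) (n2 := ndN3q0) (pc := pcN2) (cut := Cut.none) (xt := Ext.none) (P1 := 0) (W1 := 536870912) (P2 := 0) (W2 := 536870912) (P3 := 402653184) (W3 := 67108864) (N0 := 3)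
    rfl k0_pp_202

noncomputable def f_pp_203 : ℕ → ℕ → ℕ → ℕ → Bool := onCell 0 536870912 0 536870912 402653184 67108864
    (rowN 3 0 true true true .up 2 0 3 (qsf 0 536870912 0 536870912 3) ndN0q2 ndN3q0 pcN3 Cut.none Ext.none)

def k0_pp_203 : ∃ t, chk3 f_pp_203 t 1 1 1 = true :=
  ⟨(l 5), by decide +kernel⟩

theorem c_pp_203 : CertN 0 536870912 0 536870912 402653184 67108864 3 true true true .up 2 0 3
    ndN0q2 ndN3q0 pcN3 Cut.none Ext.none :=
  certN0 (fam := true) (s1 := true) (s2 := true) (a := 2) (b := 0) (c := 3) (cn := .up) (n1 := ndN0q2) (n2 := ndN3q0) (pc := pcN3) (cut := Cut.none) (xt := Ext.none) (P1 := 0) (W1 := 536870912) (P2 := 0) (W2 := 536870912) (P3 := 402653184) (W3 := 67108864) (N0 := 3)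
    rfl k0_pp_203

noncomputable def f_pp_213 : ℕ → ℕ → ℕ → ℕ → Bool := onCell 0 536870912 536870912 536870912 402653184 67108864
    (rowN 3 0 true true true .pnn 2 1 3 (qsf 0 536870912 536870912 536870912 3) ndN0q2 ndN3q1 pcN3 Cut.none Ext.none)

def k0_pp_213 : ∃ t, chk3 f_pp_213 t 1 1 1 = true :=
  ⟨(l 4), by decide +kernel⟩

theorem c_pp_213 : CertN 0 536870912 536870912 536870912 402653184 67108864 3 true true true .pnn 2 1 3
    ndN0q2 ndN3q1 pcN3 Cut.none Ext.none :=
  certN0 (fam := true) (s1 := true) (s2 := true) (a := 2) (b := 1) (c := 3) (cn := .pnn) (n1 := ndN0q2) (n2 := ndN3q1) (pc := pcN3) (cut := Cut.none) (xt := Ext.none) (P1 := 0) (W1 := 536870912) (P2 := 536870912) (W2 := 536870912) (P3 := 402653184) (W3 := 67108864) (N0 := 3)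
    rfl k0_pp_213

noncomputable def f_pm_001 : ℕ → ℕ → ℕ → ℕ → Bool := onCell 0 536870912 536870912 536870912 402653184 67108864
    (rowN 3 1 true true false .up 0 0 1 (qsf 0 536870912 0 536870912 1) ndN0q0 ndN3q0 pcN1 Cut.none Ext.none)

def k0_pm_001 : ∃ t, chk3 f_pm_001 t 1 1 1 = true :=
  ⟨(b (l 3) (a (b (l 3) (l 2)) (b (l 3) (a (b (b (l 3) (l 2)) (l 2)) (b (a (b (l 3) (a (b (b (l 3) (l 2)) (l 2)) (b (c (a (l 62982044071) (l 65666380471)) (a (b (l 3) (b (l 169819214519) (l 52714222471))) (b (l 148881250791) (l 71571808663)))) (c (l 49493169607) (a (l 78483985559) (l 16864952)))))) (b (a (l 3) (b (l 3) (a (l 86067432263) (l 69961298679)))) (a (b (c (l 68350773127) (a (b (l 66739984567) (l 16881448)) (l 71571843271))) (a (l 16897472) (l 16900536))) (b (a (c (l 16954160) (l 16891816)) (l 16924320)) (a (l 16903240) (l 16904320)))))) (a (a (l 2) (b (b (l 74189091415) (l 2)) (l 2))) (b (a (b (l 16877800) (l 16855656)) (b (l 16882088) (l 16859336))) (a (l 69357110471)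 (l 16820632))))))))), by decide +kernel⟩

theorem c_pm_001 : CertN 0 536870912 0 536870912 402653184 67108864 3 true true false .up 0 0 1
    ndN0q0 ndN3q0 pcN1 Cut.none Ext.none :=
  certN1 (fam := true) (s1 := true) (s2 := false) (a := 0) (b := 0) (c := 1) (cn := .up) (n1 := ndN0q0) (n2 := ndN3q0) (pc := pcN1) (cut := Cut.none) (xt := Ext.none) (P1 := 0) (W1 := 536870912) (P2 := 0) (W2 := 536870912) (P3 := 402653184) (W3 := 67108864) (N0 := 3)
    rfl (fun _ => rfl) k0_pm_001

noncomputable def cut_pm_011 : Cut := Cut.of [[⟨0, 0, 0, 67108864⟩, ⟨1, 1, 0, 67108864⟩, ⟨2, 1, 0, 67108864⟩]]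

noncomputable def f_pm_011 : ℕ → ℕ → ℕ → ℕ → Bool := onCell 0 536870912 536870912 536870912 402653184 67108864
    (rowN 3 1 true true false .pnn 0 1 1 (qsf 0 536870912 536870912 536870912 1) ndN0q0 ndN3q1 pcN1 cut_pm_011 Ext.none)

def k0_pm_011 : ∃ t, chk3 f_pm_011 t 1 2 1 = true :=
  ⟨(l 3), by decide +kernel⟩

def k1_pm_011 : ∃ t, chk3 f_pm_011 t 2 6 1 = true :=
  ⟨(l 3), by decide +kernel⟩

def k2_pm_011 : ∃ t, chk3 f_pm_011 t 4 14 1 = true :=
  ⟨(l 3), by decide +kernel⟩

def k3_pm_011 : ∃ t, chk3 f_pm_011 t 8 15 1 = true :=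
  ⟨(b (l 3) (a (b (l 3) (l 6)) (b (l 3) (b (a (b (l 3) (l 6)) (b (a (l 3) (a (l 3) (b (l 3) (b (l 3) (c (l 16743952) (l 16747368)))))) (a (a (a (l 6) (b (b (l 3) (l 6)) (l 6))) (c (b (c (l 23790039079) (l 27548134023)) (l 16743688)) (b (c (l 31306229015) (l 35064323751)) (l 16747336)))) (a (c (b (c (l 16750024) (l 16749224)) (l 16739824)) (b (c (l 16748368) (l 16747464)) (l 16738088))) (b (c (l 16740536) (l 16743920)) (l 16740288)))))) (a (l 6) (a (a (l 6) (b (c (l 16742112) (l 16745712)) (l 6))) (b (b (a (l 16744896) (l 16730464)) (l 16738368)) (c (l 16732520) (l 16730560))))))))), by decide +kernel⟩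

def k4_pm_011 : ∃ t, chk3 f_pm_011 t 9 30 1 = true :=
  ⟨(l 3), by decide +kernel⟩

def k5_pm_011 : ∃ t, chk3 f_pm_011 t 9 62 1 = true :=
  ⟨(a (b (l 3) (a (l 3) (b (l 3) (a (b (l 3) (a (c (l 33453692887) (l 40433009991)) (c (l 16736256) (l 16733656)))) (c (b (c (l 25937490759) (l 29695584535)) (c (l 16736280) (l 16734960))) (b (c (l 32916807895) (l 36674901367)) (c (l 16733560) (l 16732080)))))))) (a (b (l 3) (b (a (a (l 3) (b (l 3) (a (l 37748638455) (l 36674895271)))) (a (b (l 3) (c (l 16731120) (l 16727920))) (c (c (l 30232444007) (l 34527408055)) (l 38285501239)))) (b (c (a (c (l 16733080) (l 16731648)) (l 16724528)) (a (l 19495025975) (l 16721240))) (a (a (l 16728232) (l 16713704)) (l 16718136))))) (b (b (l 3) (b (l 3) (a (l 3) (c (l 37211753847) (l 41506716295))))) (b (b (c (a (l 35064275207) (l 16710648)) (a (l 39359238183) (l 16706368))) (a (a (l 16722528) (l 16719096)) (l 16716568))) (a (a (l 16714968) (l 16722016)) (l 16711600)))))), by decide +kernel⟩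

def k6_pm_011 : ∃ t, chk3 f_pm_011 t 9 63 1 = true :=
  ⟨(a (b (a (b (a (a (b (l 3) (c (l 31306222615) (l 38822406359))) (b (a (l 3) (c (l 34527444375) (l 41506762199))) (c (l 16742624) (l 16740512)))) (a (c (b (l 32379957847) (l 16733496)) (b (l 39896146439) (l 16731248))) (b (c (l 16739456) (l 16737096)) (l 16736296)))) (a (c (b (l 16741936) (l 16730144)) (b (c (l 16743680) (l 16742584)) (l 16728040))) (c (c (l 16735688) (l 16734568)) (l 16731456)))) (a (a (b (c (l 8220752983) (l 11978846151)) (l 16728008)) (b (c (l 16734568) (l 16731920)) (l 16724016))) (b (c (l 16728656) (l 16725816)) (l 16718008)))) (a (b (a (c (l 16733800) (l 16731632)) (c (l 16715520) (l 16713072))) (a (c (l 16714264) (l 16712008)) (l 16715696))) (b (c (l 16712928) (l 16711376)) (c (l 16705168) (l 16702200))))) (b (b (a (a (a (l 16721232) (l 16717192)) (l 16711096)) (c (l 16706992) (l 16708360))) (a (c (l 16707504) (l 16704224)) (c (l 16702480) (l 16677640)))) (a (b (a (l 16690248) (l 16682112))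 (l 16687544)) (a (l 16679824) (l 16682360))))), by decide +kernel⟩

def k7_pm_011 : ∃ t, chk3 f_pm_011 t 5 14 1 = true :=
  ⟨(l 3), by decide +kernel⟩

def k8_pm_011 : ∃ t, chk3 f_pm_011 t 10 15 1 = true :=
  ⟨(b (a (l 3) (b (l 3) (b (l 3) (a (b (l 3) (c (a (l 46338542279) (l 32379888231)) (a (l 51707241303) (l 33990495655)))) (c (b (a (l 31306156887) (l 16715112)) (a (l 16691152) (l 16683624))) (a (b (l 37748590871) (l 16683728)) (l 30232384087))))))) (b (a (b (a (b (a (l 3) (a (l 3) (c (l 40432974391) (l 46338544871)))) (b (c (a (l 37211750199) (l 16718128)) (a (l 41506711463) (l 16712848))) (c (a (l 16719624) (l 16702480)) (a (l 16714840) (l 16697248))))) (b (c (a (c (l 32916781127) (l 35601130103)) (l 35601120823)) (a (b (l 46338540711) (l 16710848)) (l 38285470503))) (c (a (l 16698360) (l 16691544)) (a (l 16692664) (l 16685432))))) (b (a (c (a (l 16701440) (l 16694752)) (a (l 16696728) (l 16689600))) (c (l 16705592) (l 16699784))) (a (c (l 16708872) (l 16704016))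 (l 16692496)))) (b (b (a (a (c (l 16695032) (l 16688424)) (l 16702816)) (c (l 16676856) (l 16669392))) (a (c (l 16702008) (l 16674352)) (l 16683672))) (a (c (l 16686464) (l 16679896)) (l 16673376)))) (a (b (a (a (l 16694848) (l 16687864)) (c (l 16680104) (l 16653464))) (a (c (l 16673840) (l 16648128)) (l 16657312))) (b (a (l 16662824) (l 16626704)) (a (l 16642744) (l 16606552)))))), by decide +kernel⟩

def k9_pm_011 : ∃ t, chk3 f_pm_011 t 11 15 1 = true :=
  ⟨(b (a (b (l 3) (b (a (a (l 3) (b (l 3) (l 31843005031))) (c (a (l 29695519351) (l 27011154775)) (a (l 28621771607) (l 28084887703)))) (a (c (a (l 29158648551) (l 16694000)) (b (l 25937414167) (l 16663688))) (c (l 16681184) (l 16672624))))) (b (a (l 3) (b (l 3) (a (a (l 22179304087) (l 17884331527)) (l 16810570983)))) (b (a (a (a (l 25400530343) (l 16682024)) (l 18958066711)) (c (l 16663584) (l 16654584))) (a (l 16668784) (l 16637792))))) (a (b (a (b (c (l 16655928) (l 16647976)) (l 16631184)) (b (l 16655832)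 (l 16614048))) (b (a (l 16610680) (l 16593544)) (a (l 16590488) (l 16573352)))) (a (b (b (l 16616240) (l 16595464)) (l 16585896)) (b (l 16627392) (l 16565672))))), by decide +kernel⟩

def k10_pm_011 : ∃ t, chk3 f_pm_011 t 3 6 1 = true :=
  ⟨(l 3), by decide +kernel⟩

def k11_pm_011 : ∃ t, chk3 f_pm_011 t 6 7 1 = true :=
  ⟨(b (a (l 3) (b (l 3) (a (b (l 3) (b (l 3) (a (c (l 40969594407) (l 16583864)) (a (c (l 51706922679) (l 16543008)) (c (b (c (l 39895931463) (l 16533392)) (l 16540336)) (l 16521040)))))) (b (l 3) (b (b (l 3) (c (a (a (l 3) (l 37748478775)) (a (l 43654053479) (l 49022757111))) (a (l 66202362967) (a (l 49559482263) (l 16561648))))) (c (a (b (a (l 44190899543) (l 45801535687)) (a (l 16552176) (l 16566200))) (b (a (l 16597176) (l 16609984)) (l 16586992))) (a (b (l 50096213255) (l 16490104)) (b (l 16514712) (l 16472392))))))))) (a (b (a (b (b (a (l 3) (c (l 21642394183) (l 16656744))) (a (c (l 16672608) (l 16653128)) (l 16653200))) (a (c (l 16650896) (l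 16642336)) (l 16631744))) (b (a (b (c (l 16628560) (l 16620768)) (l 16603488)) (b (c (l 16595480) (l 16588920)) (l 16571016))) (b (l 16608664) (l 16566984)))) (a (b (a (l 16583888) (l 16558840)) (l 16573432)) (b (l 16557640) (l 16518416)))) (b (c (a (b (b (a (l 16557672) (l 16523576)) (l 16557240)) (l 16537272)) (b (a (b (l 16550096) (l 16484496)) (b (l 16560120) (l 16520344))) (a (l 16441104) (l 16451264)))) (a (b (a (l 16563288) (l 16522304)) (l 16523616)) (b (b (a (l 16474824) (l 16459040)) (l 16466440)) (b (l 16434232) (l 16421592))))) (a (b (l 16486304) (l 16448864)) (b (c (l 16406592) (l 16400072)) (l 16375552)))))), by decide +kernel⟩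

def k12_pm_011 : ∃ t, chk3 f_pm_011 t 7 7 1 = true :=
  ⟨(b (a (b (l 3) (b (a (b (l 3) (a (l 3) (b (l 3) (c (a (l 47412140663) (l 48485904327)) (a (l 43117141687) (l 49022716119)))))) (b (a (l 3) (l 1)) (b (a (a (l 3) (b (l 3) (c (l 51170306055) (l 52243968215)))) (l 1)) (a (c (a (l 53317762231) (l 16694248)) (a (l 57075774135) (l 15199846439))) (c (l 94522650791) (l 95596304375)))))) (a (b (a (c (b (a (l 44727790615) (l 49559622679)) (a (l 16637080) (l 16648888))) (b (a (l 45801461143) (l 49022708103)) (a (l 16531304) (l 16542840)))) (c (b (a (l 55465197031) (l 16683736)) (l 16666440)) (b (a (l 50633327799) (l 16581024)) (l 16560008)))) (a (c (b (l 16629008) (l 16614136)) (l 16572200)) (c (l 16647336) (l 16534768)))) (a (b (c (a (l 16689272) (l 16700408)) (a (l 16584368) (l 16595224))) (c (l 16672344) (l 16559624))) (b (c (l 16717024) (l 16632432)) (l 16640520)))))) (b (l 1) (a (b (l 1) (a (l 85932630807) (l 1))) (l 1)))) (a (b (a (b (a (b (l 16613336) (l 16488960))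 (b (l 16558584) (l 16522160))) (a (l 16503096) (l 16459568))) (b (a (b (l 16586680) (l 16553872)) (l 16620528)) (a (l 16497600) (l 16533704)))) (a (b (c (l 16418968) (l 16372336)) (c (a (l 16333016) (l 16333312)) (l 16338336))) (b (l 16556384) (l 16493656)))) (b (a (b (a (l 16627456) (l 16654440)) (a (l 16568112) (l 16600936))) (b (l 1) (l 58552159031))) (a (b (l 16515760) (l 16452664)) (b (l 16581328) (l 16532408)))))), by decide +kernel⟩

theorem s13_pm_011 : ∃ t, chk3 f_pm_011 t 3 7 1 = true := ex3_a k11_pm_011 k12_pm_011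

theorem s14_pm_011 : ∃ t, chk3 f_pm_011 t 3 3 1 = true := ex3_b k10_pm_011 s13_pm_011

theorem s15_pm_011 : ∃ t, chk3 f_pm_011 t 5 15 1 = true := ex3_a k8_pm_011 k9_pm_011

theorem s16_pm_011 : ∃ t, chk3 f_pm_011 t 5 7 1 = true := ex3_b k7_pm_011 s15_pm_011

theorem s17_pm_011 : ∃ t, chk3 f_pm_011 t 9 31 1 = true := ex3_b k5_pm_011 k6_pm_011

theorem s18_pm_011 : ∃ t, chk3 f_pm_011 t 9 15 1 = true := ex3_b k4_pm_011 s17_pm_011

theorem s19_pm_011 : ∃ t, chk3 f_pm_011 t 4 15 1 = true := ex3_a k3_pm_011 s18_pm_011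

theorem s20_pm_011 : ∃ t, chk3 f_pm_011 t 4 7 1 = true := ex3_b k2_pm_011 s19_pm_011

theorem s21_pm_011 : ∃ t, chk3 f_pm_011 t 2 7 1 = true := ex3_a s20_pm_011 s16_pm_011

theorem s22_pm_011 : ∃ t, chk3 f_pm_011 t 2 3 1 = true := ex3_b k1_pm_011 s21_pm_011

theorem s23_pm_011 : ∃ t, chk3 f_pm_011 t 1 3 1 = true := ex3_a s22_pm_011 s14_pm_011

theorem s24_pm_011 : ∃ t, chk3 f_pm_011 t 1 1 1 = true := ex3_b k0_pm_011 s23_pm_011

theorem c_pm_011 : CertN 0 536870912 536870912 536870912 402653184 67108864 3 true true false .pnn 0 1 1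
    ndN0q0 ndN3q1 pcN1 cut_pm_011 Ext.none :=
  certN1 (fam := true) (s1 := true) (s2 := false) (a := 0) (b := 1) (c := 1) (cn := .pnn) (n1 := ndN0q0) (n2 := ndN3q1) (pc := pcN1) (cut := cut_pm_011) (xt := Ext.none) (P1 := 0) (W1 := 536870912) (P2 := 536870912) (W2 := 536870912) (P3 := 402653184) (W3 := 67108864) (N0 := 3)
    rfl (fun _ => rfl) s24_pm_011

noncomputable def cut_pm_012 : Cut := Cut.of [[⟨0, 0, 0, 67108864⟩, ⟨1, 1, 0, 67108864⟩, ⟨2, 1, 0, 67108864⟩]]

noncomputable def f_pm_012 : ℕ → ℕ → ℕ → ℕ → Bool := onCell 0 536870912 1073741824 536870912 402653184 67108864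
    (rowN 3 1 true true false .pnp 0 1 2 (qsf 0 536870912 536870912 536870912 2) ndN0q0 ndN3q1 pcN2 cut_pm_012 Ext.none)

def k0_pm_012 : ∃ t, chk3 f_pm_012 t 2 8 1 = true :=
  ⟨(a (b (a (a (l 6) (b (b (b (a (l 6) (a (l 6) (l 16726208))) (a (l 6) (a (l 6) (l 16721408)))) (a (l 6) (a (l 6) (l 16706344)))) (a (l 6) (a (l 6) (a (l 6) (l 16679928)))))) (b (b (a (a (a (b (l 16723376) (l 16713304)) (a (l 16712264) (l 16708200))) (a (l 16702088) (l 16693896))) (a (c (l 16682776) (l 16680200)) (l 16685752))) (a (a (b (l 16699120) (l 16688904)) (l 16669808)) (a (l 16661136) (l 16644352)))) (a (a (b (l 16675304) (l 16645680)) (a (l 16654304) (l 16644776))) (a (l 16630424) (l 16613136))))) (a (a (b (l 6) (l 2)) (a (b (l 6) (b (l 6) (l 2))) (b (a (l 6) (b (l 16639224) (l 16624216))) (a (b (l 6) (l 16602280)) (b (l 16609216) (a (l 16596208) (l 16592152))))))) (a (a (a (b (b (l 16630408) (l 16615632)) (b (l 16600872) (l 16586072))) (b (b (l 16621592) (l 16607048)) (l 16606240)))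 (b (a (l 16626592) (l 16617784)) (b (l 16580024) (l 16565848)))) (b (a (l 16593872) (l 16565392)) (a (b (l 16563288) (l 16549736)) (l 16560816)))))) (a (b (b (b (a (a (l 16648640) (l 16612864)) (l 16653184)) (a (l 16651360) (l 16610216))) (a (c (l 16620224) (l 16628760)) (l 16576552))) (a (a (b (l 16547472) (l 16523072)) (l 16549640)) (c (l 16545992) (l 16542704)))) (b (a (b (b (l 16599320) (l 16556224)) (l 16532864)) (b (l 16571504) (l 16484320))) (a (l 16520064) (l 16466864))))), by decide +kernel⟩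

def k1_pm_012 : ∃ t, chk3 f_pm_012 t 2 9 1 = true :=
  ⟨(a (a (a (l 2) (a (l 2) (b (b (a (l 2) (b (l 16578664) (l 2))) (l 2)) (l 2)))) (a (a (b (b (a (b (l 16570784) (l 16555040)) (b (l 16562920) (l 16547384))) (a (l 2) (l 16523928))) (l 2)) (b (b (b (l 16551144) (l 16535944)) (a (b (l 16524272) (l 16508960)) (b (l 16516888) (l 16501816)))) (b (a (l 2) (l 16479576)) (l 2)))) (b (a (b (l 16549144) (l 16498536)) (b (l 16512848) (l 16484272))) (a (b (a (l 16493824) (l 16466176)) (l 16483168)) (b (l 16456256) (a (l 16432112) (l 16426112))))))) (a (a (b (b (a (l 16497392) (l 16481944)) (a (l 16470144) (l 16456008))) (b (a (l 16443280) (l 16430544)) (a (l 16417240) (l 16405728)))) (b (a (l 16517504) (l 16461816)) (b (l 16411896) (l 16389232)))) (b (a (b (l 16452032) (l 16410488)) (l 16437600)) (a (b (l 16389784) (l 16369688)) (l 16425704))))), by decide +kernel⟩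

def k2_pm_012 : ∃ t, chk3 f_pm_012 t 2 5 1 = true :=
  ⟨(a (a (l 2) (b (a (l 2) (b (b (a (l 2) (l 16403096)) (l 2)) (l 2))) (l 2))) (a (b (b (a (b (a (a (l 16395104) (l 16389856)) (l 16382168)) (b (a (l 16375088) (l 16365784)) (a (l 2) (b (l 16358944) (l 16398176))))) (b (l 16388728) (b (l 16352880) (b (l 16346840) (a (l 16348440) (l 16341336)))))) (a (a (l 2) (l 16386552)) (a (b (l 16332424) (l 16301512)) (b (l 16326064) (l 16296200))))) (a (l 2) (b (a (l 2) (l 16250080)) (l 2)))) (b (b (b (a (l 16351032) (l 16338616)) (a (b (l 16338368) (b (l 16333464) (l 16332160))) (b (l 16327800) (l 16429104)))) (a (a (l 16306280) (l 16302320)) (l 16298312))) (a (b (a (b (l 16262288) (l 16232080)) (l 16266624)) (a (l 2) (l 16186112))) (b (l 16245744) (a (l 16188160) (l 16191936))))))), by decide +kernel⟩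

def k3_pm_012 : ∃ t, chk3 f_pm_012 t 2 3 1 = true :=
  ⟨(b (a (l 2) (a (l 2) (b (a (l 2) (b (l 16152096) (l 2))) (l 2)))) (l 2)), by decide +kernel⟩

def k4_pm_012 : ∃ t, chk3 f_pm_012 t 3 2 1 = true :=
  ⟨(a (b (b (a (a (b (c (l 16526968) (l 16522800)) (l 16419672)) (b (l 16475640) (l 16380792))) (b (a (l 16411424) (l 16407248)) (a (l 16373896) (l 16364392)))) (a (b (a (l 16396384) (l 16363272)) (a (l 16349536) (l 16343088))) (b (a (l 16361800) (l 16357808)) (a (l 16347088) (l 16348520))))) (b (b (b (a (a (l 16331192) (l 16329096)) (l 16337832)) (a (b (l 16342904) (a (l 16341840) (l 16322800))) (b (l 16334576) (a (l 16332824) (l 16339200))))) (a (a (l 16298192) (l 16304848)) (l 16385880))) (a (a (b (l 16251432) (l 16201144)) (b (l 16264920) (l 16220944))) (a (l 16269808) (l 16291728))))) (b (b (a (b (a (l 16386856) (l 16351072)) (a (l 16349488) (l 16339856))) (a (b (l 16353184) (l 16334944)) (b (l 16449160) (l 16431184)))) (a (b (l 16387488) (l 16344304)) (b (a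 (l 16344736) (l 16422640)) (l 16359472)))) (b (b (b (a (l 16342664) (l 16361600)) (a (b (l 16341960) (l 16401976)) (b (l 16362336) (l 16427200)))) (a (l 16336920) (l 16372704))) (a (l 16376792) (l 16400552))))), by decide +kernel⟩

def k5_pm_012 : ∃ t, chk3 f_pm_012 t 3 3 1 = true :=
  ⟨(b (a (b (a (a (b (a (l 16142704) (l 16153224)) (l 16091576)) (b (l 16173688) (l 16123392))) (a (b (l 16211096) (l 16167896)) (l 16227264))) (a (a (l 2) (b (l 16070504) (l 2))) (a (b (l 16121568) (l 16082832)) (b (l 16170336) (l 16139960))))) (b (a (a (l 16257704) (l 16285720)) (a (l 16362768) (l 16530800))) (a (b (a (l 16212232) (l 16244544)) (a (l 16189640) (l 16233904))) (b (l 16494360) (l 16467032))))) (a (b (a (l 2) (a (l 2) (b (l 16119712) (l 2)))) (l 2)) (b (a (a (b (l 16175576) (l 16162160)) (b (l 16281048) (l 16331288))) (a (b (l 16483192) (l 16528944)) (l 16672424))) (a (b (l 16243616) (l 2)) (b (a (l 16571416) (l 16734696)) (a (l 16554496) (l 16732760))))))), by decide +kernel⟩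

theorem s6_pm_012 : ∃ t, chk3 f_pm_012 t 3 1 1 = true := ex3_b k4_pm_012 k5_pm_012

theorem s7_pm_012 : ∃ t, chk3 f_pm_012 t 2 4 1 = true := ex3_b k0_pm_012 k1_pm_012

theorem s8_pm_012 : ∃ t, chk3 f_pm_012 t 2 2 1 = true := ex3_b s7_pm_012 k2_pm_012

theorem s9_pm_012 : ∃ t, chk3 f_pm_012 t 2 1 1 = true := ex3_b s8_pm_012 k3_pm_012

theorem s10_pm_012 : ∃ t, chk3 f_pm_012 t 1 1 1 = true := ex3_a s9_pm_012 s6_pm_012

theorem c_pm_012 : CertN 0 536870912 536870912 536870912 402653184 67108864 3 true true false .pnp 0 1 2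
    ndN0q0 ndN3q1 pcN2 cut_pm_012 Ext.none :=
  certN1 (fam := true) (s1 := true) (s2 := false) (a := 0) (b := 1) (c := 2) (cn := .pnp) (n1 := ndN0q0) (n2 := ndN3q1) (pc := pcN2) (cut := cut_pm_012) (xt := Ext.none) (P1 := 0) (W1 := 536870912) (P2 := 536870912) (W2 := 536870912) (P3 := 402653184) (W3 := 67108864) (N0 := 3)
    rfl (fun _ => rfl) s10_pm_012

noncomputable def f_pm_022 : ℕ → ℕ → ℕ → ℕ → Bool := onCell 0 536870912 1073741824 536870912 402653184 67108864
    (rowN 3 1 true true false .pp 0 2 2 (qsf 0 536870912 1073741824 536870912 2) ndN0q0 ndN3q2 pcN2 Cut.none Ext.none)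

def k0_pm_022 : ∃ t, chk3 f_pm_022 t 1 1 1 = true :=
  ⟨(a (b (b (l 3) (b (b (b (l 3) (b (l 3) (b (l 3) (a (b (a (l 16471808) (l 3)) (a (l 16440544) (l 16442128))) (a (b (l 3) (l 16444136)) (l 1)))))) (a (a (l 16431472) (l 16433064)) (a (l 16477224) (a (l 16438608) (l 1))))) (a (a (a (l 16319288) (l 16330352)) (b (l 16357576) (l 16326960))) (a (a (l 16354496) (l 16356528)) (a (l 16402208) (l 55330572167)))))) (b (a (a (b (a (l 16232120) (l 16232944)) (l 16188904)) (b (l 16297400) (l 16150024))) (a (b (l 16301040) (l 16154696)) (b (a (l 16245040) (l 16253440)) (l 16189216)))) (b (a (a (l 16074280) (l 16078832)) (a (l 16084840) (l 16101184))) (a (a (b (l 16049032) (l 16258152)) (l 16235360)) (a (l 16300040) (l 16354584)))))) (b (b (l 1) (b (l 1) (a (a (a (b (l 1) (l 16329648)) (l 1)) (l 1)) (l 1)))) (a (b (a (b (a (l 16328352) (l 81637143287)) (a (l 16190136) (l 16211632))) (b (a (l 112238625223) (l 1)) (a (l 114386186471) (l 114386187543)))) (a (b (l 16139976) (l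 16410400)) (b (a (l 16189664) (l 16214528)) (l 16481048)))) (b (a (b (l 1) (a (l 112238553223) (l 1))) (l 1)) (a (b (a (l 16247280) (l 148208973511)) (a (l 16532304) (l 16567296))) (b (a (l 144450902103) (l 1)) (a (l 193843188983) (l 202433367735)))))))), by decide +kernel⟩

theorem c_pm_022 : CertN 0 536870912 1073741824 536870912 402653184 67108864 3 true true false .pp 0 2 2
    ndN0q0 ndN3q2 pcN2 Cut.none Ext.none :=
  certN1 (fam := true) (s1 := true) (s2 := false) (a := 0) (b := 2) (c := 2) (cn := .pp) (n1 := ndN0q0) (n2 := ndN3q2) (pc := pcN2) (cut := Cut.none) (xt := Ext.none) (P1 := 0) (W1 := 536870912) (P2 := 1073741824) (W2 := 536870912) (P3 := 402653184) (W3 := 67108864) (N0 := 3)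
    rfl (fun _ => rfl) k0_pm_022

noncomputable def f_pm_023 : ℕ → ℕ → ℕ → ℕ → Bool := onCell 0 536870912 1073741824 536870912 402653184 67108864
    (rowN 3 0 true true false .up 0 2 3 (qsf 0 536870912 1073741824 536870912 3) ndN0q0 ndN3q2 pcN3 Cut.none Ext.none)

def k0_pm_023 : ∃ t, chk3 f_pm_023 t 1 1 1 = true :=
  ⟨(a (b (a (l 1) (b (l 1) (a (l 1) (l 126197299047)))) (b (a (a (l 1) (l 120291761527)) (a (l 108480505047) (l 16642240))) (a (b (l 147672217079) (a (l 135861004391) (l 16628616))) (a (b (l 16698392) (l 16888928)) (l 16983952))))) (b (a (b (a (l 1) (b (l 1) (l 16309592))) (a (l 170220980743) (l 16599280))) (a (b (l 191695651543) (l 16908664)) (b (a (l 225518711111) (l 252362518311)) (l 17017768)))) (a (b (a (l 16871496) (l 17006408)) (a (l 17079584) (l 17113656))) (b (l 17092552) (a (l 17114504) (b (l 17101792) (a (l 17093080) (b (l 17079960) (a (l 17075424) (l 17062480)))))))))), by decide +kernel⟩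

theorem c_pm_023 : CertN 0 536870912 1073741824 536870912 402653184 67108864 3 true true false .up 0 2 3
    ndN0q0 ndN3q2 pcN3 Cut.none Ext.none :=
  certN0 (fam := true) (s1 := true) (s2 := false) (a := 0) (b := 2) (c := 3) (cn := .up) (n1 := ndN0q0) (n2 := ndN3q2) (pc := pcN3) (cut := Cut.none) (xt := Ext.none) (P1 := 0) (W1 := 536870912) (P2 := 1073741824) (W2 := 536870912) (P3 := 402653184) (W3 := 67108864) (N0 := 3)
    rfl k0_pm_023

noncomputable def f_pm_033 : ℕ → ℕ → ℕ → ℕ → Bool := onCell 1610612736 536870912 0 1230186008 402653184 67108864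
    (rowN 3 2 true true false .pnn 0 3 3 (qsf 0 536870912 0 1230186008 3) ndN0q0 ndN3q3 pcN3 Cut.none Ext.none)

def k0_pm_033 : ∃ t, chk3 f_pm_033 t 1 1 1 = true :=
  ⟨(a (b (l 1) (b (a (l 1) (b (l 1) (a (l 1) (l 17126104)))) (b (a (l 1) (a (b (l 16921312) (l 16904136)) (b (l 17082368) (l 17077632)))) (a (b (a (l 1) (l 16633232)) (a (b (l 16246136) (l 16312344)) (b (l 16681512) (l 16719256)))) (b (a (l 16922168) (l 17081544)) (a (l 16952296) (l 17088472))))))) (b (a (l 1) (b (l 4) (l 4))) (a (b (b (a (l 1) (l 17202648)) (a (l 17183504) (l 17186800))) (b (a (b (l 17162744) (l 17157248)) (l 17178336)) (b (a (l 17153976) (l 17170488)) (a (l 17147664) (l 17154536))))) (b (a (b (l 17156192) (l 17156272)) (a (l 17315288) (l 4))) (a (b (a (l 17166864) (l 17152416)) (b (l 17148784) (l 17135656))) (b (a (l 17132984) (a (l 17116384) (l 4))) (a (l 17120800) (a (l 17108600) (b (l 17100112) (l 17089272)))))))))), by decide +kernel⟩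

theorem c_pm_033 : CertN 0 536870912 0 1230186008 402653184 67108864 3 true true false .pnn 0 3 3
    ndN0q0 ndN3q3 pcN3 Cut.none Ext.none :=
  certN2 (fam := true) (s1 := true) (s2 := false) (a := 0) (b := 3) (c := 3) (cn := .pnn) (n1 := ndN0q0) (n2 := ndN3q3) (pc := pcN3) (cut := Cut.none) (xt := Ext.none) (P1 := 0) (W1 := 536870912) (P2 := 0) (W2 := 1230186008) (P3 := 402653184) (W3 := 67108864) (N0 := 3)
    rfl (fun _ => rfl) k0_pm_033

noncomputable def f_pm_101 : ℕ → ℕ → ℕ → ℕ → Bool := onCell 536870912 536870912 536870912 536870912 402653184 67108864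
    (rowN 3 1 true true false .npn 1 0 1 (qsf 536870912 536870912 0 536870912 1) ndN0q1 ndN3q0 pcN1 Cut.none Ext.none)

def k0_pm_101 : ∃ t, chk3 f_pm_101 t 2 1 1 = true :=
  ⟨(b (a (l 3) (b (a (b (l 1) (l 3)) (l 1)) (l 3))) (b (a (l 3) (b (l 3) (b (l 3) (a (a (l 156934860151) (l 75330549639)) (a (l 79625535127) (a (l 17158272) (l 17185560))))))) (a (b (a (b (a (b (l 3) (a (l 73182529623) (l 76403757943))) (b (l 203105392007) (a (l 79088123191) (l 16972592)))) (a (b (a (l 16928072) (l 16934552)) (l 16911240)) (b (l 16948672) (l 16929744)))) (b (a (b (l 77477651447) (l 16989352)) (b (l 17030688) (l 17012872))) (a (l 16963120) (l 16988592)))) (a (b (a (b (l 16890152) (l 16866904)) (l 16898720)) (a (l 16826464) (l 16847240))) (b (a (l 16925888) (l 16955680)) (a (l 16878000) (l 16913144))))) (b (a (b (a (l 17064976) (l 17064392)) (a (l 17013080) (l 17035224))) (b (a (l 17081632) (l 17094200)) (l 17060896))) (a (b (a (l 16984824) (l 17011728)) (a (l 16948648) (l 16982712)))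 (b (l 17044128) (l 17026760))))))), by decide +kernel⟩

def k1_pm_101 : ∃ t, chk3 f_pm_101 t 3 1 1 = true :=
  ⟨(b (a (b (l 1) (a (b (l 1) (l 3)) (l 1))) (l 1)) (a (b (b (l 3) (a (b (l 3) (a (b (l 17166272) (l 17136112)) (b (l 17254376) (l 17138448)))) (b (b (l 3) (b (l 3) (a (a (l 3) (l 329270491751)) (a (l 787624044839) (l 1))))) (a (b (a (b (l 17179016) (l 17160728)) (b (l 17181792) (l 17161944))) (l 17133936)) (a (b (a (l 680786684343) (l 695819056183)) (l 17134600)) (l 706019568119)))))) (b (a (b (a (l 17101152) (l 17101352)) (l 17073968)) (b (b (l 17160960) (l 17075592)) (a (l 17062576) (l 17042488)))) (a (b (l 17063760) (l 17061144)) (b (l 17046160) (l 17055512))))) (b (a (b (l 1) (b (l 1) (a (l 774739064951) (l 1)))) (l 1)) (b (a (b (b (l 981434175975) (l 170222701767)) (l 17099048)) (b (l 1) (l 898219549703))) (a (b (l 16981232) (l 16997200)) (b (l 16898272) (l 16881712))))))), by decide +kernel⟩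

theorem s2_pm_101 : ∃ t, chk3 f_pm_101 t 1 1 1 = true := ex3_a k0_pm_101 k1_pm_101

theorem c_pm_101 : CertN 536870912 536870912 0 536870912 402653184 67108864 3 true true false .npn 1 0 1
    ndN0q1 ndN3q0 pcN1 Cut.none Ext.none :=
  certN1 (fam := true) (s1 := true) (s2 := false) (a := 1) (b := 0) (c := 1) (cn := .npn) (n1 := ndN0q1) (n2 := ndN3q0) (pc := pcN1) (cut := Cut.none) (xt := Ext.none) (P1 := 536870912) (W1 := 536870912) (P2 := 0) (W2 := 536870912) (P3 := 402653184) (W3 := 67108864) (N0 := 3)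
    rfl (fun _ => rfl) s2_pm_101

noncomputable def f_pm_102 : ℕ → ℕ → ℕ → ℕ → Bool := onCell 536870912 536870912 1073741824 536870912 402653184 67108864
    (rowN 3 1 true true false .npp 1 0 2 (qsf 536870912 536870912 0 536870912 2) ndN0q1 ndN3q0 pcN2 Cut.none Ext.none)

def k0_pm_102 : ∃ t, chk3 f_pm_102 t 1 1 1 = true :=
  ⟨(a (b (a (b (b (a (b (a (l 16761752) (l 16783592)) (l 16908344)) (a (l 16801328) (l 16841240))) (a (b (l 16722200) (l 2)) (l 16795344))) (a (l 2) (l 23186729367))) (b (a (b (a (l 16882104) (l 16922168)) (l 16884368)) (b (b (l 16991872) (l 16966992)) (l 16964488))) (a (l 17151360) (l 17017560)))) (b (a (l 2) (b (l 17014008) (l 2))) (l 2))) (b (a (b (a (b (l 17069312) (l 17023280)) (b (l 17042088) (l 17051096))) (a (l 17094304) (l 17143760))) (b (a (b (b (l 17014368) (l 17008808)) (l 17044080)) (b (a (l 16954496) (l 16892984)) (l 17135304))) (a (b (l 17127312) (l 17204008)) (b (l 17153696) (l 17226272))))) (b (a (b (l 17195360) (l 17220000))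 (a (b (l 17257176) (l 17286088)) (l 17287640))) (a (b (l 17222320) (l 2)) (b (l 17301152) (l 17286928)))))), by decide +kernel⟩

theorem c_pm_102 : CertN 536870912 536870912 0 536870912 402653184 67108864 3 true true false .npp 1 0 2
    ndN0q1 ndN3q0 pcN2 Cut.none Ext.none :=
  certN1 (fam := true) (s1 := true) (s2 := false) (a := 1) (b := 0) (c := 2) (cn := .npp) (n1 := ndN0q1) (n2 := ndN3q0) (pc := pcN2) (cut := Cut.none) (xt := Ext.none) (P1 := 536870912) (W1 := 536870912) (P2 := 0) (W2 := 536870912) (P3 := 402653184) (W3 := 67108864) (N0 := 3)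
    rfl (fun _ => rfl) k0_pm_102

noncomputable def f_pm_112 : ℕ → ℕ → ℕ → ℕ → Bool := onCell 536870912 536870912 1073741824 536870912 402653184 67108864
    (rowN 3 1 true true false .dn 1 1 2 (qsf 536870912 536870912 536870912 536870912 2) ndN0q1 ndN3q1 pcN2 Cut.none Ext.none)

def k0_pm_112 : ∃ t, chk3 f_pm_112 t 1 1 1 = true :=
  ⟨(a (b (a (b (b (a (a (b (l 16519816) (l 16516736)) (b (l 16586840) (l 16594736))) (l 222298224343)) (a (b (l 16567016) (l 16582440)) (l 16736272))) (a (b (l 16614568) (l 16669104)) (b (l 16792576) (l 16855128)))) (b (b (l 1) (a (l 16934080) (l 1))) (a (b (l 16932272) (l 16994392)) (l 17078392)))) (b (a (b (a (l 16731312) (l 16919704)) (a (b (l 16779864) (l 16815616)) (l 16984104))) (b (l 17110328) (a (l 17112560) (l 17207504)))) (a (b (a (b (l 16854408) (l 16892960)) (l 17050840)) (a (b (l 16929400) (l 16941816)) (b (l 17099240) (l 17119344)))) (b (l 17381400) (a (l 17218560) (l 17291864)))))) (b (a (b (l 1) (a (l 233036832919) (l 1)))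 (l 1)) (b (a (b (l 17279216) (l 17311832)) (b (l 1) (l 17374736))) (a (b (l 17337664) (l 17358624)) (b (l 17372712) (l 17362760)))))), by decide +kernel⟩

theorem c_pm_112 : CertN 536870912 536870912 536870912 536870912 402653184 67108864 3 true true false .dn 1 1 2
    ndN0q1 ndN3q1 pcN2 Cut.none Ext.none :=
  certN1 (fam := true) (s1 := true) (s2 := false) (a := 1) (b := 1) (c := 2) (cn := .dn) (n1 := ndN0q1) (n2 := ndN3q1) (pc := pcN2) (cut := Cut.none) (xt := Ext.none) (P1 := 536870912) (W1 := 536870912) (P2 := 536870912) (W2 := 536870912) (P3 := 402653184) (W3 := 67108864) (N0 := 3)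
    rfl (fun _ => rfl) k0_pm_112

noncomputable def f_pm_113 : ℕ → ℕ → ℕ → ℕ → Bool := onCell 536870912 536870912 1610612736 536870912 402653184 67108864
    (rowN 3 1 true true false .nn 1 1 3 (qsf 536870912 536870912 536870912 536870912 3) ndN0q1 ndN3q1 pcN3 Cut.none Ext.none)

def k0_pm_113 : ∃ t, chk3 f_pm_113 t 1 1 1 = true :=
  ⟨(b (a (b (a (a (b (l 16754728) (l 16810384)) (b (l 17059096) (l 17104152))) (a (b (l 17229624) (l 17273144)) (b (l 17323112) (l 17359504)))) (a (a (l 2) (b (l 17182576) (l 2))) (b (a (l 17330360) (l 17401552)) (l 17468448)))) (b (a (b (l 17379192) (l 17390520)) (b (l 17351584) (l 17325672))) (a (b (l 17399088) (l 17406800)) (b (l 17295912) (l 17266856))))) (b (a (b (a (l 2) (l 330815165847)) (l 2)) (a (b (l 17412256) (l 17584168)) (l 4))) (a (l 2) (l 4)))), by decide +kernel⟩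

theorem c_pm_113 : CertN 536870912 536870912 536870912 536870912 402653184 67108864 3 true true false .nn 1 1 3
    ndN0q1 ndN3q1 pcN3 Cut.none Ext.none :=
  certN1 (fam := true) (s1 := true) (s2 := false) (a := 1) (b := 1) (c := 3) (cn := .nn) (n1 := ndN0q1) (n2 := ndN3q1) (pc := pcN3) (cut := Cut.none) (xt := Ext.none) (P1 := 536870912) (W1 := 536870912) (P2 := 536870912) (W2 := 536870912) (P3 := 402653184) (W3 := 67108864) (N0 := 3)
    rfl (fun _ => rfl) k0_pm_113

noncomputable def f_pm_123 : ℕ → ℕ → ℕ → ℕ → Bool := onCell 536870912 536870912 1610612736 536870912 402653184 67108864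
    (rowN 3 1 true true false .npn 1 2 3 (qsf 536870912 536870912 1073741824 536870912 3) ndN0q1 ndN3q2 pcN3 Cut.none Ext.none)

def k0_pm_123 : ∃ t, chk3 f_pm_123 t 1 1 1 = true :=
  ⟨(b (a (a (b (a (b (a (l 16816552) (l 290480566151)) (l 16958800)) (b (l 328062000439) (l 331820438919))) (a (l 17059264) (l 17083240))) (b (a (b (l 1) (l 368327701767)) (l 1)) (a (b (l 17182056) (l 17130184)) (l 369402154583)))) (a (a (b (l 1) (l 373697286183)) (l 1)) (l 1))) (b (a (a (a (l 17092040) (l 17084840)) (a (l 17091592) (l 17117544))) (a (b (a (l 17203344) (l 17253240)) (a (l 17113432) (l 17148224))) (b (l 1) (a (l 17174104) (l 1))))) (a (b (a (l 17062152) (l 17032304)) (b (a (l 17043232) (l 16998168)) (a (b (l 17033520) (a (l 17039160) (l 17012904))) (b (l 16982024) (b (l 16974936) (l 17181800)))))) (b (a (a (l 17031496) (l 17039136)) (a (b (l 17080424) (l 17017736)) (l 203508676151))) (b (a (l 16972384) (l 16973232)) (a (b (l 16946312) (l 151633298743)) (b (l 17027424) (l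 4)))))))), by decide +kernel⟩

theorem c_pm_123 : CertN 536870912 536870912 1073741824 536870912 402653184 67108864 3 true true false .npn 1 2 3
    ndN0q1 ndN3q2 pcN3 Cut.none Ext.none :=
  certN1 (fam := true) (s1 := true) (s2 := false) (a := 1) (b := 2) (c := 3) (cn := .npn) (n1 := ndN0q1) (n2 := ndN3q2) (pc := pcN3) (cut := Cut.none) (xt := Ext.none) (P1 := 536870912) (W1 := 536870912) (P2 := 1073741824) (W2 := 536870912) (P3 := 402653184) (W3 := 67108864) (N0 := 3)
    rfl (fun _ => rfl) k0_pm_123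

noncomputable def f_pm_133 : ℕ → ℕ → ℕ → ℕ → Bool := onCell 536870912 536870912 0 1230186008 402653184 67108864
    (rowN 3 0 true true false .dn 1 3 3 (qsf 536870912 536870912 0 1230186008 3) ndN0q1 ndN3q3 pcN3 Cut.none Ext.none)

def k0_pm_133 : ∃ t, chk3 f_pm_133 t 1 1 1 = true :=
  ⟨(b (l 2) (b (l 2) (a (b (l 2) (a (b (l 2) (l 4)) (l 2))) (l 2)))), by decide +kernel⟩

theorem c_pm_133 : CertN 536870912 536870912 0 1230186008 402653184 67108864 3 true true false .dn 1 3 3
    ndN0q1 ndN3q3 pcN3 Cut.none Ext.none :=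
  certN0 (fam := true) (s1 := true) (s2 := false) (a := 1) (b := 3) (c := 3) (cn := .dn) (n1 := ndN0q1) (n2 := ndN3q3) (pc := pcN3) (cut := Cut.none) (xt := Ext.none) (P1 := 536870912) (W1 := 536870912) (P2 := 0) (W2 := 1230186008) (P3 := 402653184) (W3 := 67108864) (N0 := 3)
    rfl k0_pm_133

noncomputable def f_pm_202 : ℕ → ℕ → ℕ → ℕ → Bool := onCell 0 536870912 0 536870912 402653184 67108864
    (rowN 3 0 true true false .pp 2 0 2 (qsf 0 536870912 0 536870912 2) ndN0q2 ndN3q0 pcN2 Cut.none Ext.none)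

def k0_pm_202 : ∃ t, chk3 f_pm_202 t 1 1 1 = true :=
  ⟨(a (b (b (a (b (b (l 16600184) (l 16713512)) (l 16868880)) (b (b (l 16651720) (l 16755056)) (l 16911368))) (a (b (l 17042808) (l 4)) (b (l 17101792) (l 17249680)))) (b (b (a (l 4) (l 17191856)) (l 4)) (l 4))) (b (a (b (b (a (l 16746448) (l 16777864)) (l 16948416)) (b (l 17144152) (l 17338200))) (b (b (a (b (l 16862008) (l 16848256)) (l 16855952)) (a (l 16975568) (l 17003688))) (b (a (l 17177808) (l 17212944)) (l 17340032)))) (b (a (b (l 17285320) (l 17224640)) (b (l 17303344) (a (l 17278048) (l 17296800)))) (a (b (l 17175192) (l 2)) (b (a (l 17249072) (l 17286064)) (a (l 17207504) (l 17259824))))))), by decide +kernel⟩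

theorem c_pm_202 : CertN 0 536870912 0 536870912 402653184 67108864 3 true true false .pp 2 0 2
    ndN0q2 ndN3q0 pcN2 Cut.none Ext.none :=
  certN0 (fam := true) (s1 := true) (s2 := false) (a := 2) (b := 0) (c := 2) (cn := .pp) (n1 := ndN0q2) (n2 := ndN3q0) (pc := pcN2) (cut := Cut.none) (xt := Ext.none) (P1 := 0) (W1 := 536870912) (P2 := 0) (W2 := 536870912) (P3 := 402653184) (W3 := 67108864) (N0 := 3)
    rfl k0_pm_202

noncomputable def f_pm_203 : ℕ → ℕ → ℕ → ℕ → Bool := onCell 0 536870912 1610612736 536870912 402653184 67108864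
    (rowN 3 1 true true false .up 2 0 3 (qsf 0 536870912 0 536870912 3) ndN0q2 ndN3q0 pcN3 Cut.none Ext.none)

def k0_pm_203 : ∃ t, chk3 f_pm_203 t 1 1 1 = true :=
  ⟨(a (l 4) (b (b (b (l 17186112) (l 17156560)) (l 4)) (l 2))), by decide +kernel⟩

theorem c_pm_203 : CertN 0 536870912 0 536870912 402653184 67108864 3 true true false .up 2 0 3
    ndN0q2 ndN3q0 pcN3 Cut.none Ext.none :=
  certN1 (fam := true) (s1 := true) (s2 := false) (a := 2) (b := 0) (c := 3) (cn := .up) (n1 := ndN0q2) (n2 := ndN3q0) (pc := pcN3) (cut := Cut.none) (xt := Ext.none) (P1 := 0) (W1 := 536870912) (P2 := 0) (W2 := 536870912) (P3 := 402653184) (W3 := 67108864) (N0 := 3)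
    rfl (fun _ => rfl) k0_pm_203

noncomputable def f_pm_213 : ℕ → ℕ → ℕ → ℕ → Bool := onCell 0 536870912 1610612736 536870912 402653184 67108864
    (rowN 3 1 true true false .pnn 2 1 3 (qsf 0 536870912 536870912 536870912 3) ndN0q2 ndN3q1 pcN3 Cut.none Ext.none)

def k0_pm_213 : ∃ t, chk3 f_pm_213 t 1 1 1 = true :=
  ⟨(a (l 4) (b (b (b (l 17233024) (l 17254776)) (l 4)) (l 4))), by decide +kernel⟩

theorem c_pm_213 : CertN 0 536870912 536870912 536870912 402653184 67108864 3 true true false .pnn 2 1 3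
    ndN0q2 ndN3q1 pcN3 Cut.none Ext.none :=
  certN1 (fam := true) (s1 := true) (s2 := false) (a := 2) (b := 1) (c := 3) (cn := .pnn) (n1 := ndN0q2) (n2 := ndN3q1) (pc := pcN3) (cut := Cut.none) (xt := Ext.none) (P1 := 0) (W1 := 536870912) (P2 := 536870912) (W2 := 536870912) (P3 := 402653184) (W3 := 67108864) (N0 := 3)
    rfl (fun _ => rfl) k0_pm_213

noncomputable def f_mm_001 : ℕ → ℕ → ℕ → ℕ → Bool := onCell 0 536870912 0 536870912 402653184 67108864
    (rowN 3 0 true false false .up 0 0 1 (qsf 0 536870912 0 536870912 1) ndN0q0 ndN3q0 pcN1 Cut.none Ext.none)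

def k0_mm_001 : ∃ t, chk3 f_mm_001 t 1 1 1 = true :=
  ⟨(l 4), by decide +kernel⟩

theorem c_mm_001 : CertN 0 536870912 0 536870912 402653184 67108864 3 true false false .up 0 0 1
    ndN0q0 ndN3q0 pcN1 Cut.none Ext.none :=
  certN0 (fam := true) (s1 := false) (s2 := false) (a := 0) (b := 0) (c := 1) (cn := .up) (n1 := ndN0q0) (n2 := ndN3q0) (pc := pcN1) (cut := Cut.none) (xt := Ext.none) (P1 := 0) (W1 := 536870912) (P2 := 0) (W2 := 536870912) (P3 := 402653184) (W3 := 67108864) (N0 := 3)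
    rfl k0_mm_001

noncomputable def f_mm_011 : ℕ → ℕ → ℕ → ℕ → Bool := onCell 0 536870912 536870912 536870912 402653184 67108864
    (rowN 3 0 true false false .pnn 0 1 1 (qsf 0 536870912 536870912 536870912 1) ndN0q0 ndN3q1 pcN1 Cut.none Ext.none)

def k0_mm_011 : ∃ t, chk3 f_mm_011 t 1 1 1 = true :=
  ⟨(l 4), by decide +kernel⟩

theorem c_mm_011 : CertN 0 536870912 536870912 536870912 402653184 67108864 3 true false false .pnn 0 1 1
    ndN0q0 ndN3q1 pcN1 Cut.none Ext.none :=
  certN0 (fam := true) (s1 := false) (s2 := false) (a := 0) (b := 1) (c := 1) (cn := .pnn) (n1 := ndN0q0) (n2 := ndN3q1) (pc := pcN1) (cut := Cut.none) (xt := Ext.none) (P1 := 0) (W1 := 536870912) (P2 := 536870912) (W2 := 536870912) (P3 := 402653184) (W3 := 67108864) (N0 := 3)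
    rfl k0_mm_011

noncomputable def f_mm_012 : ℕ → ℕ → ℕ → ℕ → Bool := onCell 0 536870912 536870912 536870912 402653184 67108864
    (rowN 3 0 true false false .pnp 0 1 2 (qsf 0 536870912 536870912 536870912 2) ndN0q0 ndN3q1 pcN2 Cut.none Ext.none)

def k0_mm_012 : ∃ t, chk3 f_mm_012 t 1 1 1 = true :=
  ⟨(l 4), by decide +kernel⟩

theorem c_mm_012 : CertN 0 536870912 536870912 536870912 402653184 67108864 3 true false false .pnp 0 1 2
    ndN0q0 ndN3q1 pcN2 Cut.none Ext.none :=
  certN0 (fam := true) (s1 := false) (s2 := false) (a := 0) (b := 1) (c := 2) (cn := .pnp) (n1 := ndN0q0) (n2 := ndN3q1) (pc := pcN2) (cut := Cut.none) (xt := Ext.none) (P1 := 0) (W1 := 536870912) (P2 := 536870912) (W2 := 536870912) (P3 := 402653184) (W3 := 67108864) (N0 := 3)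
    rfl k0_mm_012

noncomputable def f_mm_022 : ℕ → ℕ → ℕ → ℕ → Bool := onCell 0 536870912 1073741824 536870912 402653184 67108864
    (rowN 3 0 true false false .pp 0 2 2 (qsf 0 536870912 1073741824 536870912 2) ndN0q0 ndN3q2 pcN2 Cut.none Ext.none)

def k0_mm_022 : ∃ t, chk3 f_mm_022 t 1 1 1 = true :=
  ⟨(l 4), by decide +kernel⟩

theorem c_mm_022 : CertN 0 536870912 1073741824 536870912 402653184 67108864 3 true false false .pp 0 2 2
    ndN0q0 ndN3q2 pcN2 Cut.none Ext.none :=
  certN0 (fam := true) (s1 := false) (s2 := false) (a := 0) (b := 2) (c := 2) (cn := .pp) (n1 := ndN0q0) (n2 := ndN3q2) (pc := pcN2) (cut := Cut.none) (xt := Ext.none) (P1 := 0) (W1 := 536870912) (P2 := 1073741824) (W2 := 536870912) (P3 := 402653184) (W3 := 67108864) (N0 := 3)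
    rfl k0_mm_022

noncomputable def f_mm_023 : ℕ → ℕ → ℕ → ℕ → Bool := onCell 0 536870912 1073741824 536870912 402653184 67108864
    (rowN 3 0 true false false .up 0 2 3 (qsf 0 536870912 1073741824 536870912 3) ndN0q0 ndN3q2 pcN3 Cut.none Ext.none)

def k0_mm_023 : ∃ t, chk3 f_mm_023 t 1 1 1 = true :=
  ⟨(l 4), by decide +kernel⟩

theorem c_mm_023 : CertN 0 536870912 1073741824 536870912 402653184 67108864 3 true false false .up 0 2 3
    ndN0q0 ndN3q2 pcN3 Cut.none Ext.none :=
  certN0 (fam := true) (s1 := false) (s2 := false) (a := 0) (b := 2) (c := 3) (cn := .up) (n1 := ndN0q0) (n2 := ndN3q2) (pc := pcN3) (cut := Cut.none) (xt := Ext.none) (P1 := 0) (W1 := 536870912) (P2 := 1073741824) (W2 := 536870912) (P3 := 402653184) (W3 := 67108864) (N0 := 3)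
    rfl k0_mm_023

noncomputable def f_mm_033 : ℕ → ℕ → ℕ → ℕ → Bool := onCell 0 536870912 0 1230186008 402653184 67108864
    (rowN 3 0 true false false .pnn 0 3 3 (qsf 0 536870912 0 1230186008 3) ndN0q0 ndN3q3 pcN3 Cut.none Ext.none)

def k0_mm_033 : ∃ t, chk3 f_mm_033 t 1 1 1 = true :=
  ⟨(l 5), by decide +kernel⟩

theorem c_mm_033 : CertN 0 536870912 0 1230186008 402653184 67108864 3 true false false .pnn 0 3 3
    ndN0q0 ndN3q3 pcN3 Cut.none Ext.none :=
  certN0 (fam := true) (s1 := false) (s2 := false) (a := 0) (b := 3) (c := 3) (cn := .pnn) (n1 := ndN0q0) (n2 := ndN3q3) (pc := pcN3) (cut := Cut.none) (xt := Ext.none) (P1 := 0) (W1 := 536870912) (P2 := 0) (W2 := 1230186008) (P3 := 402653184) (W3 := 67108864) (N0 := 3)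
    rfl k0_mm_033

noncomputable def f_mm_101 : ℕ → ℕ → ℕ → ℕ → Bool := onCell 536870912 536870912 0 536870912 402653184 67108864
    (rowN 3 0 true false false .npn 1 0 1 (qsf 536870912 536870912 0 536870912 1) ndN0q1 ndN3q0 pcN1 Cut.none Ext.none)

def k0_mm_101 : ∃ t, chk3 f_mm_101 t 1 1 1 = true :=
  ⟨(l 4), by decide +kernel⟩

theorem c_mm_101 : CertN 536870912 536870912 0 536870912 402653184 67108864 3 true false false .npn 1 0 1
    ndN0q1 ndN3q0 pcN1 Cut.none Ext.none :=
  certN0 (fam := true) (s1 := false) (s2 := false) (a := 1) (b := 0) (c := 1) (cn := .npn) (n1 := ndN0q1) (n2 := ndN3q0) (pc := pcN1) (cut := Cut.none) (xt := Ext.none) (P1 := 536870912) (W1 := 536870912) (P2 := 0) (W2 := 536870912) (P3 := 402653184) (W3 := 67108864) (N0 := 3)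
    rfl k0_mm_101

noncomputable def f_mm_102 : ℕ → ℕ → ℕ → ℕ → Bool := onCell 536870912 536870912 0 536870912 402653184 67108864
    (rowN 3 0 true false false .npp 1 0 2 (qsf 536870912 536870912 0 536870912 2) ndN0q1 ndN3q0 pcN2 Cut.none Ext.none)

def k0_mm_102 : ∃ t, chk3 f_mm_102 t 1 1 1 = true :=
  ⟨(l 4), by decide +kernel⟩

theorem c_mm_102 : CertN 536870912 536870912 0 536870912 402653184 67108864 3 true false false .npp 1 0 2
    ndN0q1 ndN3q0 pcN2 Cut.none Ext.none :=
  certN0 (fam := true) (s1 := false) (s2 := false) (a := 1) (b := 0) (c := 2) (cn := .npp) (n1 := ndN0q1) (n2 := ndN3q0) (pc := pcN2) (cut := Cut.none) (xt := Ext.none) (P1 := 536870912) (W1 := 536870912) (P2 := 0) (W2 := 536870912) (P3 := 402653184) (W3 := 67108864) (N0 := 3)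
    rfl k0_mm_102

noncomputable def f_mm_112 : ℕ → ℕ → ℕ → ℕ → Bool := onCell 536870912 536870912 536870912 536870912 402653184 67108864
    (rowN 3 0 true false false .dn 1 1 2 (qsf 536870912 536870912 536870912 536870912 2) ndN0q1 ndN3q1 pcN2 Cut.none Ext.none)

def k0_mm_112 : ∃ t, chk3 f_mm_112 t 1 1 1 = true :=
  ⟨(l 4), by decide +kernel⟩

theorem c_mm_112 : CertN 536870912 536870912 536870912 536870912 402653184 67108864 3 true false false .dn 1 1 2
    ndN0q1 ndN3q1 pcN2 Cut.none Ext.none :=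
  certN0 (fam := true) (s1 := false) (s2 := false) (a := 1) (b := 1) (c := 2) (cn := .dn) (n1 := ndN0q1) (n2 := ndN3q1) (pc := pcN2) (cut := Cut.none) (xt := Ext.none) (P1 := 536870912) (W1 := 536870912) (P2 := 536870912) (W2 := 536870912) (P3 := 402653184) (W3 := 67108864) (N0 := 3)
    rfl k0_mm_112

noncomputable def f_mm_113 : ℕ → ℕ → ℕ → ℕ → Bool := onCell 536870912 536870912 536870912 536870912 402653184 67108864
    (rowN 3 0 true false false .nn 1 1 3 (qsf 536870912 536870912 536870912 536870912 3) ndN0q1 ndN3q1 pcN3 Cut.none Ext.none)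

def k0_mm_113 : ∃ t, chk3 f_mm_113 t 1 1 1 = true :=
  ⟨(l 4), by decide +kernel⟩

theorem c_mm_113 : CertN 536870912 536870912 536870912 536870912 402653184 67108864 3 true false false .nn 1 1 3
    ndN0q1 ndN3q1 pcN3 Cut.none Ext.none :=
  certN0 (fam := true) (s1 := false) (s2 := false) (a := 1) (b := 1) (c := 3) (cn := .nn) (n1 := ndN0q1) (n2 := ndN3q1) (pc := pcN3) (cut := Cut.none) (xt := Ext.none) (P1 := 536870912) (W1 := 536870912) (P2 := 536870912) (W2 := 536870912) (P3 := 402653184) (W3 := 67108864) (N0 := 3)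
    rfl k0_mm_113

noncomputable def f_mm_123 : ℕ → ℕ → ℕ → ℕ → Bool := onCell 536870912 536870912 1073741824 536870912 402653184 67108864
    (rowN 3 0 true false false .npn 1 2 3 (qsf 536870912 536870912 1073741824 536870912 3) ndN0q1 ndN3q2 pcN3 Cut.none Ext.none)

def k0_mm_123 : ∃ t, chk3 f_mm_123 t 1 1 1 = true :=
  ⟨(l 4), by decide +kernel⟩

theorem c_mm_123 : CertN 536870912 536870912 1073741824 536870912 402653184 67108864 3 true false false .npn 1 2 3
    ndN0q1 ndN3q2 pcN3 Cut.none Ext.none :=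
  certN0 (fam := true) (s1 := false) (s2 := false) (a := 1) (b := 2) (c := 3) (cn := .npn) (n1 := ndN0q1) (n2 := ndN3q2) (pc := pcN3) (cut := Cut.none) (xt := Ext.none) (P1 := 536870912) (W1 := 536870912) (P2 := 1073741824) (W2 := 536870912) (P3 := 402653184) (W3 := 67108864) (N0 := 3)
    rfl k0_mm_123

noncomputable def f_mm_133 : ℕ → ℕ → ℕ → ℕ → Bool := onCell 536870912 536870912 0 1230186008 402653184 67108864
    (rowN 3 0 true false false .dn 1 3 3 (qsf 536870912 536870912 0 1230186008 3) ndN0q1 ndN3q3 pcN3 Cut.none Ext.none)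

def k0_mm_133 : ∃ t, chk3 f_mm_133 t 1 1 1 = true :=
  ⟨(l 4), by decide +kernel⟩

theorem c_mm_133 : CertN 536870912 536870912 0 1230186008 402653184 67108864 3 true false false .dn 1 3 3
    ndN0q1 ndN3q3 pcN3 Cut.none Ext.none :=
  certN0 (fam := true) (s1 := false) (s2 := false) (a := 1) (b := 3) (c := 3) (cn := .dn) (n1 := ndN0q1) (n2 := ndN3q3) (pc := pcN3) (cut := Cut.none) (xt := Ext.none) (P1 := 536870912) (W1 := 536870912) (P2 := 0) (W2 := 1230186008) (P3 := 402653184) (W3 := 67108864) (N0 := 3)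
    rfl k0_mm_133

noncomputable def f_mm_202 : ℕ → ℕ → ℕ → ℕ → Bool := onCell 0 536870912 0 536870912 402653184 67108864
    (rowN 3 0 true false false .pp 2 0 2 (qsf 0 536870912 0 536870912 2) ndN0q2 ndN3q0 pcN2 Cut.none Ext.none)

def k0_mm_202 : ∃ t, chk3 f_mm_202 t 1 1 1 = true :=
  ⟨(b (a (b (a (b (a (l 16624080) (l 4)) (l 4)) (l 4)) (l 4)) (l 4)) (l 4)), by decide +kernel⟩

theorem c_mm_202 : CertN 0 536870912 0 536870912 402653184 67108864 3 true false false .pp 2 0 2
    ndN0q2 ndN3q0 pcN2 Cut.none Ext.none :=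
  certN0 (fam := true) (s1 := false) (s2 := false) (a := 2) (b := 0) (c := 2) (cn := .pp) (n1 := ndN0q2) (n2 := ndN3q0) (pc := pcN2) (cut := Cut.none) (xt := Ext.none) (P1 := 0) (W1 := 536870912) (P2 := 0) (W2 := 536870912) (P3 := 402653184) (W3 := 67108864) (N0 := 3)
    rfl k0_mm_202

noncomputable def f_mm_203 : ℕ → ℕ → ℕ → ℕ → Bool := onCell 0 536870912 1610612736 536870912 402653184 67108864
    (rowN 3 1 true false false .up 2 0 3 (qsf 0 536870912 0 536870912 3) ndN0q2 ndN3q0 pcN3 Cut.none Ext.none)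

def k0_mm_203 : ∃ t, chk3 f_mm_203 t 1 1 1 = true :=
  ⟨(l 4), by decide +kernel⟩

theorem c_mm_203 : CertN 0 536870912 0 536870912 402653184 67108864 3 true false false .up 2 0 3
    ndN0q2 ndN3q0 pcN3 Cut.none Ext.none :=
  certN1 (fam := true) (s1 := false) (s2 := false) (a := 2) (b := 0) (c := 3) (cn := .up) (n1 := ndN0q2) (n2 := ndN3q0) (pc := pcN3) (cut := Cut.none) (xt := Ext.none) (P1 := 0) (W1 := 536870912) (P2 := 0) (W2 := 536870912) (P3 := 402653184) (W3 := 67108864) (N0 := 3)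
    rfl (fun _ => rfl) k0_mm_203

noncomputable def f_mm_213 : ℕ → ℕ → ℕ → ℕ → Bool := onCell 0 536870912 536870912 536870912 402653184 67108864
    (rowN 3 0 true false false .pnn 2 1 3 (qsf 0 536870912 536870912 536870912 3) ndN0q2 ndN3q1 pcN3 Cut.none Ext.none)

def k0_mm_213 : ∃ t, chk3 f_mm_213 t 1 1 1 = true :=
  ⟨(l 4), by decide +kernel⟩

theorem c_mm_213 : CertN 0 536870912 536870912 536870912 402653184 67108864 3 true false false .pnn 2 1 3
    ndN0q2 ndN3q1 pcN3 Cut.none Ext.none :=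
  certN0 (fam := true) (s1 := false) (s2 := false) (a := 2) (b := 1) (c := 3) (cn := .pnn) (n1 := ndN0q2) (n2 := ndN3q1) (pc := pcN3) (cut := Cut.none) (xt := Ext.none) (P1 := 0) (W1 := 536870912) (P2 := 536870912) (W2 := 536870912) (P3 := 402653184) (W3 := 67108864) (N0 := 3)
    rfl k0_mm_213

end Pool.Agent.Strip051.G.I3_8_7_16.Tab.C.NA03

namespace Pool.Agent.Strip051.G.I3_8_7_16.Tab.C.NA04

open Pool.Agent.Strip051.PB Pool.Agent.Strip051.PB.T
open Pool.Agent.Strip051.G.I3_8_7_16.Tab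

noncomputable def f_pp_001 : ℕ → ℕ → ℕ → ℕ → Bool := onCell 0 536870912 0 536870912 402653184 67108864
    (rowN 3 0 true true true .up 0 0 1 (qsf 0 536870912 0 536870912 1) ndN0q0 ndN4q0 pcN1 Cut.none Ext.none)

def k0_pp_001 : ∃ t, chk3 f_pp_001 t 1 1 1 = true :=
  ⟨(l 4), by decide +kernel⟩

theorem c_pp_001 : CertN 0 536870912 0 536870912 402653184 67108864 3 true true true .up 0 0 1
    ndN0q0 ndN4q0 pcN1 Cut.none Ext.none :=
  certN0 (fam := true) (s1 := true) (s2 := true) (a := 0) (b := 0) (c := 1) (cn := .up) (n1 := ndN0q0) (n2 := ndN4q0) (pc := pcN1) (cut := Cut.none) (xt := Ext.none) (P1 := 0) (W1 := 536870912) (P2 := 0) (W2 := 536870912) (P3 := 402653184) (W3 := 67108864) (N0 := 3)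
    rfl k0_pp_001

noncomputable def f_pp_011 : ℕ → ℕ → ℕ → ℕ → Bool := onCell 0 536870912 536870912 536870912 402653184 67108864
    (rowN 3 0 true true true .pnn 0 1 1 (qsf 0 536870912 536870912 536870912 1) ndN0q0 ndN4q1 pcN1 Cut.none Ext.none)

def k0_pp_011 : ∃ t, chk3 f_pp_011 t 1 1 1 = true :=
  ⟨(l 4), by decide +kernel⟩

theorem c_pp_011 : CertN 0 536870912 536870912 536870912 402653184 67108864 3 true true true .pnn 0 1 1
    ndN0q0 ndN4q1 pcN1 Cut.none Ext.none :=
  certN0 (fam := true) (s1 := true) (s2 := true) (a := 0) (b := 1) (c := 1) (cn := .pnn) (n1 := ndN0q0) (n2 := ndN4q1) (pc := pcN1) (cut := Cut.none) (xt := Ext.none) (P1 := 0) (W1 := 536870912) (P2 := 536870912) (W2 := 536870912) (P3 := 402653184) (W3 := 67108864) (N0 := 3)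
    rfl k0_pp_011

noncomputable def f_pp_012 : ℕ → ℕ → ℕ → ℕ → Bool := onCell 0 536870912 536870912 536870912 402653184 67108864
    (rowN 3 0 true true true .pnp 0 1 2 (qsf 0 536870912 536870912 536870912 2) ndN0q0 ndN4q1 pcN2 Cut.none Ext.none)

def k0_pp_012 : ∃ t, chk3 f_pp_012 t 1 1 1 = true :=
  ⟨(l 4), by decide +kernel⟩

theorem c_pp_012 : CertN 0 536870912 536870912 536870912 402653184 67108864 3 true true true .pnp 0 1 2
    ndN0q0 ndN4q1 pcN2 Cut.none Ext.none :=
  certN0 (fam := true) (s1 := true) (s2 := true) (a := 0) (b := 1) (c := 2) (cn := .pnp) (n1 := ndN0q0) (n2 := ndN4q1) (pc := pcN2) (cut := Cut.none) (xt := Ext.none) (P1 := 0) (W1 := 536870912) (P2 := 536870912) (W2 := 536870912) (P3 := 402653184) (W3 := 67108864) (N0 := 3)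
    rfl k0_pp_012

noncomputable def f_pp_022 : ℕ → ℕ → ℕ → ℕ → Bool := onCell 0 536870912 1073741824 536870912 402653184 67108864
    (rowN 3 0 true true true .pp 0 2 2 (qsf 0 536870912 1073741824 536870912 2) ndN0q0 ndN4q2 pcN2 Cut.none Ext.none)

def k0_pp_022 : ∃ t, chk3 f_pp_022 t 1 1 1 = true :=
  ⟨(l 4), by decide +kernel⟩

theorem c_pp_022 : CertN 0 536870912 1073741824 536870912 402653184 67108864 3 true true true .pp 0 2 2
    ndN0q0 ndN4q2 pcN2 Cut.none Ext.none :=
  certN0 (fam := true) (s1 := true) (s2 := true) (a := 0) (b := 2) (c := 2) (cn := .pp) (n1 := ndN0q0) (n2 := ndN4q2) (pc := pcN2) (cut := Cut.none) (xt := Ext.none) (P1 := 0) (W1 := 536870912) (P2 := 1073741824) (W2 := 536870912) (P3 := 402653184) (W3 := 67108864) (N0 := 3)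
    rfl k0_pp_022

noncomputable def f_pp_023 : ℕ → ℕ → ℕ → ℕ → Bool := onCell 0 536870912 1073741824 536870912 402653184 67108864
    (rowN 3 0 true true true .up 0 2 3 (qsf 0 536870912 1073741824 536870912 3) ndN0q0 ndN4q2 pcN3 Cut.none Ext.none)

def k0_pp_023 : ∃ t, chk3 f_pp_023 t 1 1 1 = true :=
  ⟨(l 4), by decide +kernel⟩

theorem c_pp_023 : CertN 0 536870912 1073741824 536870912 402653184 67108864 3 true true true .up 0 2 3
    ndN0q0 ndN4q2 pcN3 Cut.none Ext.none :=
  certN0 (fam := true) (s1 := true) (s2 := true) (a := 0) (b := 2) (c := 3) (cn := .up) (n1 := ndN0q0) (n2 := ndN4q2) (pc := pcN3) (cut := Cut.none) (xt := Ext.none) (P1 := 0) (W1 := 536870912) (P2 := 1073741824) (W2 := 536870912) (P3 := 402653184) (W3 := 67108864) (N0 := 3)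
    rfl k0_pp_023

noncomputable def f_pp_033 : ℕ → ℕ → ℕ → ℕ → Bool := onCell 0 536870912 0 1230186008 402653184 67108864
    (rowN 3 0 true true true .pnn 0 3 3 (qsf 0 536870912 0 1230186008 3) ndN0q0 ndN4q3 pcN3 Cut.none Ext.none)

def k0_pp_033 : ∃ t, chk3 f_pp_033 t 1 1 1 = true :=
  ⟨(l 4), by decide +kernel⟩

theorem c_pp_033 : CertN 0 536870912 0 1230186008 402653184 67108864 3 true true true .pnn 0 3 3
    ndN0q0 ndN4q3 pcN3 Cut.none Ext.none :=
  certN0 (fam := true) (s1 := true) (s2 := true) (a := 0) (b := 3) (c := 3) (cn := .pnn) (n1 := ndN0q0) (n2 := ndN4q3) (pc := pcN3) (cut := Cut.none) (xt := Ext.none) (P1 := 0) (W1 := 536870912) (P2 := 0) (W2 := 1230186008) (P3 := 402653184) (W3 := 67108864) (N0 := 3)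
    rfl k0_pp_033

noncomputable def f_pp_101 : ℕ → ℕ → ℕ → ℕ → Bool := onCell 536870912 536870912 0 536870912 402653184 67108864
    (rowN 3 0 true true true .npn 1 0 1 (qsf 536870912 536870912 0 536870912 1) ndN0q1 ndN4q0 pcN1 Cut.none Ext.none)

def k0_pp_101 : ∃ t, chk3 f_pp_101 t 1 1 1 = true :=
  ⟨(l 4), by decide +kernel⟩

theorem c_pp_101 : CertN 536870912 536870912 0 536870912 402653184 67108864 3 true true true .npn 1 0 1
    ndN0q1 ndN4q0 pcN1 Cut.none Ext.none :=
  certN0 (fam := true) (s1 := true) (s2 := true) (a := 1) (b := 0) (c := 1) (cn := .npn) (n1 := ndN0q1) (n2 := ndN4q0) (pc := pcN1) (cut := Cut.none) (xt := Ext.none) (P1 := 536870912) (W1 := 536870912) (P2 := 0) (W2 := 536870912) (P3 := 402653184) (W3 := 67108864) (N0 := 3)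
    rfl k0_pp_101

noncomputable def f_pp_102 : ℕ → ℕ → ℕ → ℕ → Bool := onCell 536870912 536870912 0 536870912 402653184 67108864
    (rowN 3 0 true true true .npp 1 0 2 (qsf 536870912 536870912 0 536870912 2) ndN0q1 ndN4q0 pcN2 Cut.none Ext.none)

def k0_pp_102 : ∃ t, chk3 f_pp_102 t 1 1 1 = true :=
  ⟨(l 4), by decide +kernel⟩

theorem c_pp_102 : CertN 536870912 536870912 0 536870912 402653184 67108864 3 true true true .npp 1 0 2
    ndN0q1 ndN4q0 pcN2 Cut.none Ext.none :=
  certN0 (fam := true) (s1 := true) (s2 := true) (a := 1) (b := 0) (c := 2) (cn := .npp) (n1 := ndN0q1) (n2 := ndN4q0) (pc := pcN2) (cut := Cut.none) (xt := Ext.none) (P1 := 536870912) (W1 := 536870912) (P2 := 0) (W2 := 536870912) (P3 := 402653184) (W3 := 67108864) (N0 := 3)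
    rfl k0_pp_102

noncomputable def f_pp_112 : ℕ → ℕ → ℕ → ℕ → Bool := onCell 536870912 536870912 536870912 536870912 402653184 67108864
    (rowN 3 0 true true true .dn 1 1 2 (qsf 536870912 536870912 536870912 536870912 2) ndN0q1 ndN4q1 pcN2 Cut.none Ext.none)

def k0_pp_112 : ∃ t, chk3 f_pp_112 t 1 1 1 = true :=
  ⟨(l 4), by decide +kernel⟩

theorem c_pp_112 : CertN 536870912 536870912 536870912 536870912 402653184 67108864 3 true true true .dn 1 1 2
    ndN0q1 ndN4q1 pcN2 Cut.none Ext.none :=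
  certN0 (fam := true) (s1 := true) (s2 := true) (a := 1) (b := 1) (c := 2) (cn := .dn) (n1 := ndN0q1) (n2 := ndN4q1) (pc := pcN2) (cut := Cut.none) (xt := Ext.none) (P1 := 536870912) (W1 := 536870912) (P2 := 536870912) (W2 := 536870912) (P3 := 402653184) (W3 := 67108864) (N0 := 3)
    rfl k0_pp_112

noncomputable def f_pp_113 : ℕ → ℕ → ℕ → ℕ → Bool := onCell 536870912 536870912 536870912 536870912 402653184 67108864
    (rowN 3 0 true true true .nn 1 1 3 (qsf 536870912 536870912 536870912 536870912 3) ndN0q1 ndN4q1 pcN3 Cut.none Ext.none)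

def k0_pp_113 : ∃ t, chk3 f_pp_113 t 1 1 1 = true :=
  ⟨(l 4), by decide +kernel⟩

theorem c_pp_113 : CertN 536870912 536870912 536870912 536870912 402653184 67108864 3 true true true .nn 1 1 3
    ndN0q1 ndN4q1 pcN3 Cut.none Ext.none :=
  certN0 (fam := true) (s1 := true) (s2 := true) (a := 1) (b := 1) (c := 3) (cn := .nn) (n1 := ndN0q1) (n2 := ndN4q1) (pc := pcN3) (cut := Cut.none) (xt := Ext.none) (P1 := 536870912) (W1 := 536870912) (P2 := 536870912) (W2 := 536870912) (P3 := 402653184) (W3 := 67108864) (N0 := 3)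
    rfl k0_pp_113

noncomputable def f_pp_123 : ℕ → ℕ → ℕ → ℕ → Bool := onCell 536870912 536870912 1073741824 536870912 402653184 67108864
    (rowN 3 0 true true true .npn 1 2 3 (qsf 536870912 536870912 1073741824 536870912 3) ndN0q1 ndN4q2 pcN3 Cut.none Ext.none)

def k0_pp_123 : ∃ t, chk3 f_pp_123 t 1 1 1 = true :=
  ⟨(l 4), by decide +kernel⟩

theorem c_pp_123 : CertN 536870912 536870912 1073741824 536870912 402653184 67108864 3 true true true .npn 1 2 3
    ndN0q1 ndN4q2 pcN3 Cut.none Ext.none :=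
  certN0 (fam := true) (s1 := true) (s2 := true) (a := 1) (b := 2) (c := 3) (cn := .npn) (n1 := ndN0q1) (n2 := ndN4q2) (pc := pcN3) (cut := Cut.none) (xt := Ext.none) (P1 := 536870912) (W1 := 536870912) (P2 := 1073741824) (W2 := 536870912) (P3 := 402653184) (W3 := 67108864) (N0 := 3)
    rfl k0_pp_123

noncomputable def f_pp_133 : ℕ → ℕ → ℕ → ℕ → Bool := onCell 536870912 536870912 0 1230186008 402653184 67108864
    (rowN 3 0 true true true .dn 1 3 3 (qsf 536870912 536870912 0 1230186008 3) ndN0q1 ndN4q3 pcN3 Cut.none Ext.none)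

def k0_pp_133 : ∃ t, chk3 f_pp_133 t 1 1 1 = true :=
  ⟨(l 4), by decide +kernel⟩

theorem c_pp_133 : CertN 536870912 536870912 0 1230186008 402653184 67108864 3 true true true .dn 1 3 3
    ndN0q1 ndN4q3 pcN3 Cut.none Ext.none :=
  certN0 (fam := true) (s1 := true) (s2 := true) (a := 1) (b := 3) (c := 3) (cn := .dn) (n1 := ndN0q1) (n2 := ndN4q3) (pc := pcN3) (cut := Cut.none) (xt := Ext.none) (P1 := 536870912) (W1 := 536870912) (P2 := 0) (W2 := 1230186008) (P3 := 402653184) (W3 := 67108864) (N0 := 3)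
    rfl k0_pp_133

noncomputable def f_pp_202 : ℕ → ℕ → ℕ → ℕ → Bool := onCell 0 536870912 0 536870912 402653184 67108864
    (rowN 3 0 true true true .pp 2 0 2 (qsf 0 536870912 0 536870912 2) ndN0q2 ndN4q0 pcN2 Cut.none Ext.none)

def k0_pp_202 : ∃ t, chk3 f_pp_202 t 1 1 1 = true :=
  ⟨(l 4), by decide +kernel⟩

theorem c_pp_202 : CertN 0 536870912 0 536870912 402653184 67108864 3 true true true .pp 2 0 2
    ndN0q2 ndN4q0 pcN2 Cut.none Ext.none :=
  certN0 (fam := true) (s1 := true) (s2 := true) (a := 2) (b := 0) (c := 2) (cn := .pp) (n1 := ndN0q2) (n2 := ndN4q0) (pc := pcN2) (cut := Cut.none) (xt := Ext.none) (P1 := 0) (W1 := 536870912) (P2 := 0) (W2 := 536870912) (P3 := 402653184) (W3 := 67108864) (N0 := 3)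
    rfl k0_pp_202

noncomputable def f_pp_203 : ℕ → ℕ → ℕ → ℕ → Bool := onCell 0 536870912 0 536870912 402653184 67108864
    (rowN 3 0 true true true .up 2 0 3 (qsf 0 536870912 0 536870912 3) ndN0q2 ndN4q0 pcN3 Cut.none Ext.none)

def k0_pp_203 : ∃ t, chk3 f_pp_203 t 1 1 1 = true :=
  ⟨(l 4), by decide +kernel⟩

theorem c_pp_203 : CertN 0 536870912 0 536870912 402653184 67108864 3 true true true .up 2 0 3
    ndN0q2 ndN4q0 pcN3 Cut.none Ext.none :=
  certN0 (fam := true) (s1 := true) (s2 := true) (a := 2) (b := 0) (c := 3) (cn := .up) (n1 := ndN0q2) (n2 := ndN4q0) (pc := pcN3) (cut := Cut.none) (xt := Ext.none) (P1 := 0) (W1 := 536870912) (P2 := 0) (W2 := 536870912) (P3 := 402653184) (W3 := 67108864) (N0 := 3)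
    rfl k0_pp_203

noncomputable def f_pp_213 : ℕ → ℕ → ℕ → ℕ → Bool := onCell 0 536870912 536870912 536870912 402653184 67108864
    (rowN 3 0 true true true .pnn 2 1 3 (qsf 0 536870912 536870912 536870912 3) ndN0q2 ndN4q1 pcN3 Cut.none Ext.none)

def k0_pp_213 : ∃ t, chk3 f_pp_213 t 1 1 1 = true :=
  ⟨(l 4), by decide +kernel⟩

theorem c_pp_213 : CertN 0 536870912 536870912 536870912 402653184 67108864 3 true true true .pnn 2 1 3
    ndN0q2 ndN4q1 pcN3 Cut.none Ext.none :=
  certN0 (fam := true) (s1 := true) (s2 := true) (a := 2) (b := 1) (c := 3) (cn := .pnn) (n1 := ndN0q2) (n2 := ndN4q1) (pc := pcN3) (cut := Cut.none) (xt := Ext.none) (P1 := 0) (W1 := 536870912) (P2 := 536870912) (W2 := 536870912) (P3 := 402653184) (W3 := 67108864) (N0 := 3)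
    rfl k0_pp_213

noncomputable def f_pm_001 : ℕ → ℕ → ℕ → ℕ → Bool := onCell 0 536870912 536870912 536870912 402653184 67108864
    (rowN 3 1 true true false .up 0 0 1 (qsf 0 536870912 0 536870912 1) ndN0q0 ndN4q0 pcN1 Cut.none Ext.none)

def k0_pm_001 : ∃ t, chk3 f_pm_001 t 2 1 1 = true :=
  ⟨(b (l 3) (b (b (l 3) (l 2)) (l 2))), by decide +kernel⟩

def k1_pm_001 : ∃ t, chk3 f_pm_001 t 3 4 1 = true :=
  ⟨(l 3), by decide +kernel⟩

def k2_pm_001 : ∃ t, chk3 f_pm_001 t 6 5 1 = true :=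
  ⟨(l 3), by decide +kernel⟩

def k3_pm_001 : ∃ t, chk3 f_pm_001 t 7 10 1 = true :=
  ⟨(a (l 3) (b (a (l 3) (b (l 3) (a (l 3) (b (l 3) (a (l 3) (b (a (l 3) (l 490867845719)) (a (l 488183490951) (l 458118711943)))))))) (a (b (l 3) (a (l 3) (b (a (l 3) (b (l 3) (a (l 3) (a (l 3) (c (l 470466764279) (l 480667291815)))))) (a (b (l 3) (a (l 3) (l 472077364135))) (b (c (a (l 468856150935) (b (l 413558441319) (l 399062921383))) (a (l 479056678871) (a (l 464561159127) (l 408189710311)))) (a (b (l 413558429511) (l 399599780023)) (l 16800336))))))) (b (a (b (l 3) (c (a (l 3) (b (a (l 3) (l 474224856007)) (a (b (l 480667308935) (l 465634918263)) (l 439865107959)))) (a (l 3) (b (a (l 3) (l 484425384215)) (a (b (l 490867836759) (l 475298576375)) (l 447918154823)))))) (b (a (b (a (l 3) (b (l 3) (l 481204166599))) (a (b (l 493015330775) (l 477982930311)) (b (l 457581842295) (l 16801808)))) (b (a (b (l 469393002679) (l 16801976)) (l 16799360)) (l 16797376))) (a (b (a (b (l 451676261895)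 (l 16801608)) (l 16798928)) (l 16796816)) (l 16791472)))) (a (b (a (b (c (a (l 3) (b (l 476372341095) (a (l 469393016311) (l 438791369655)))) (a (l 3) (b (l 486572869127) (a (l 479056674135) (l 446844415783))))) (a (c (b (a (l 3) (l 466708661431)) (a (b (l 457044985719) (l 422685244727)) (l 16808088))) (b (a (l 3) (b (l 483888513111) (l 469929867367))) (a (a (l 465098030615) (l 453286868935)) (l 16799424)))) (a (c (l 433959527495) (l 439865095719)) (l 16800880)))) (a (b (c (l 436107010967) (l 444160063271)) (l 16798000)) (l 16796296))) (a (a (b (c (l 16805552) (l 16797480)) (l 16797000)) (l 16795344)) (l 16789296))) (b (l 16818136) (l 16779936))))))), by decide +kernel⟩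

def k4_pm_001 : ∃ t, chk3 f_pm_001 t 7 11 1 = true :=
  ⟨(a (b (a (l 3) (b (l 3) (a (l 3) (b (a (l 3) (l 466708648679)) (a (l 461339932967) (l 321753505111)))))) (a (b (a (l 3) (b (l 3) (a (l 3) (l 437717616935)))) (a (b (l 3) (a (l 3) (l 474224816679))) (b (a (l 506437083719) (l 284709430087)) (l 203105043927)))) (b (a (b (b (l 470466726791) (l 397989160919)) (a (l 451139389431) (l 16782224))) (a (a (l 337859633959) (l 16790408)) (l 16780776))) (a (l 16800856) (l 16784720))))) (a (b (b (a (b (a (l 3) (b (l 3) (l 470466750487))) (a (l 470466750903) (b (l 409800326503) (l 16795912)))) (b (a (b (a (l 468856136103) (l 404431619031)) (l 397452290967)) (l 16794888)) (l 16808872))) (a (b (a (b (l 406042223895) (l 16791784)) (l 16787328)) (l 16781344)) (l 16781680))) (b (l 16785608) (l 16792872))) (b (b (a (l 16812632) (l 16784432)) (l 16789000)) (l 16802496)))), by decide +kernel⟩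

def k5_pm_001 : ∃ t, chk3 f_pm_001 t 6 6 1 = true :=
  ⟨(b (a (b (l 3) (a (l 3) (b (l 3) (a (l 3) (b (l 3) (a (b (l 3) (l 2)) (b (a (l 3) (b (l 248739014887) (l 169282101351))) (a (c (l 147270412759) (l 163376513207)) (l 16785712))))))))) (b (a (l 3) (b (a (l 3) (b (l 3) (a (b (l 3) (l 449528732263)) (l 241759746919)))) (a (b (a (l 3) (b (l 3) (l 323900936615))) (a (b (l 363629384487) (a (l 275582568167) (l 16775720))) (b (l 116668767047) (l 16784856)))) (b (a (b (l 260013338407) (l 16784160)) (l 16781376)) (l 16780816))))) (a (b (a (b (l 3) (a (l 3) (b (l 3) (a (l 3) (b (l 312626654679) (l 16775536)))))) (b (a (b (l 3) (l 324974700823)) (b (a (l 3) (l 177872060887)) (c (l 93583322663) (l 131701138903)))) (a (b (a (l 238001606999) (l 139754206199)) (l 105931349431)) (l 16785488)))) (a (b (a (b (l 341617720487) (a (l 242833445095) (l 146733523175))) (b (a (b (l 125795561303) (l 16786336)) (l 16786624)) (l 16785568))) (a (b (a (l 16775616) (l 16785400)) (l 16783608))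 (l 16780864))) (b (a (l 16783392) (l 16778544)) (l 16772928)))) (b (a (b (a (b (l 16786800) (l 16784944)) (l 16780872)) (l 16778584)) (l 16779088)) (a (l 16793832) (l 16774120)))))) (a (b (a (l 2) (b (a (l 2) (b (a (l 2) (l 54324650599)) (l 2))) (l 2))) (l 2)) (a (b (b (a (b (l 16796264) (l 16765752)) (l 16782304)) (a (l 16771440) (l 16742160))) (b (a (l 2) (l 16717104)) (l 2))) (b (b (a (l 16761528) (l 16764616)) (a (l 16744256) (l 16749408))) (b (l 16723048) (l 16690800)))))), by decide +kernel⟩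

def k6_pm_001 : ∃ t, chk3 f_pm_001 t 7 6 1 = true :=
  ⟨(b (a (b (a (b (a (b (a (l 402284095447) (l 16779472)) (l 16780144)) (l 16781360)) (a (l 16781552) (l 16784896))) (b (l 16788144) (l 16792440))) (a (b (a (l 16781432) (l 16785712)) (l 16780312)) (a (l 16790912) (l 16797832)))) (a (b (l 16802592) (l 16809304)) (b (l 16817776) (l 16826984)))) (a (b (a (b (l 16773008) (l 16760592)) (l 16784824)) (a (b (l 16742032) (l 16716064)) (l 16756312))) (a (b (l 16805048) (l 16784896)) (b (l 16826824) (l 16813144))))), by decide +kernel⟩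

def k7_pm_001 : ∃ t, chk3 f_pm_001 t 3 7 1 = true :=
  ⟨(a (b (a (l 2) (a (l 2) (b (a (l 2) (l 16631088)) (l 2)))) (l 2)) (a (b (a (b (l 16680728) (l 16627488)) (b (l 16700672) (l 16606864))) (b (a (l 2) (l 16481760)) (l 2))) (b (b (a (l 16742128) (l 16780408)) (a (l 16667928) (l 16721056))) (a (b (l 16550616) (l 16396360)) (b (l 16625688) (l 16481784)))))), by decide +kernel⟩

theorem s8_pm_001 : ∃ t, chk3 f_pm_001 t 3 6 1 = true := ex3_a k5_pm_001 k6_pm_001

theorem s9_pm_001 : ∃ t, chk3 f_pm_001 t 3 3 1 = true := ex3_b s8_pm_001 k7_pm_001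

theorem s10_pm_001 : ∃ t, chk3 f_pm_001 t 7 5 1 = true := ex3_b k3_pm_001 k4_pm_001

theorem s11_pm_001 : ∃ t, chk3 f_pm_001 t 3 5 1 = true := ex3_a k2_pm_001 s10_pm_001

theorem s12_pm_001 : ∃ t, chk3 f_pm_001 t 3 2 1 = true := ex3_b k1_pm_001 s11_pm_001

theorem s13_pm_001 : ∃ t, chk3 f_pm_001 t 3 1 1 = true := ex3_b s12_pm_001 s9_pm_001

theorem s14_pm_001 : ∃ t, chk3 f_pm_001 t 1 1 1 = true := ex3_a k0_pm_001 s13_pm_001

theorem c_pm_001 : CertN 0 536870912 0 536870912 402653184 67108864 3 true true false .up 0 0 1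
    ndN0q0 ndN4q0 pcN1 Cut.none Ext.none :=
  certN1 (fam := true) (s1 := true) (s2 := false) (a := 0) (b := 0) (c := 1) (cn := .up) (n1 := ndN0q0) (n2 := ndN4q0) (pc := pcN1) (cut := Cut.none) (xt := Ext.none) (P1 := 0) (W1 := 536870912) (P2 := 0) (W2 := 536870912) (P3 := 402653184) (W3 := 67108864) (N0 := 3)
    rfl (fun _ => rfl) s14_pm_001

end Pool.Agent.Strip051.G.I3_8_7_16.Tab.C.NA04

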