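import Pool.Agent.Strip051.G.I3_8_7_16.Tab

/-! # Certificates N7 (generated) -/

set_option linter.all false
set_option maxRecDepth 100000

namespace Pool.Agent.Strip051.G.I3_8_7_16.Tab.C.NA04

open Pool.Agent.Strip051.PB Pool.Agent.Strip051.PB.T
open Pool.Agent.Strip051.G.I3_8_7_16.Tab

noncomputable def cut_pm_011 : Cut := Cut.of [[⟨0, 0, 0, 67108864⟩, ⟨1, 1, 0, 67108864⟩, ⟨2, 1, 0, 67108864⟩]]

noncomputable def f_pm_011 : ℕ → ℕ → ℕ → ℕ → Bool := onCell 0 536870912 536870912 536870912 402653184 67108864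
    (rowN 3 1 true true false .pnn 0 1 1 (qsf 0 536870912 536870912 536870912 1) ndN0q0 ndN4q1 pcN1 cut_pm_011 Ext.none)

def k0_pm_011 : ∃ t, chk3 f_pm_011 t 1 2 1 = true :=
  ⟨(a (l 3) (b (l 1) (a (l 3) (l 1)))), by decide +kernel⟩

def k1_pm_011 : ∃ t, chk3 f_pm_011 t 2 6 1 = true :=
  ⟨(a (l 3) (b (l 3) (a (l 3) (b (l 3) (a (b (l 3) (a (l 3) (b (l 3) (a (l 3) (b (l 3) (a (l 3) (a (b (l 3) (b (l 340543957239) (c (l 16776712) (l 16780976)))) (b (b (l 3) (l 294373060279)) (l 135996113735))))))))) (b (a (l 3) (b (a (l 3) (b (l 3) (c (l 400673484951) (l 396378539447)))) (a (b (l 3) (a (l 382419890279) (b (a (l 3) (l 294909932247)) (c (l 116668757527) (l 162839647543))))) (b (a (b (l 3) (c (l 229948537239) (l 209010566263))) (b (a (l 281488160407) (l 16777680)) (l 16782528))) (a (c (l 16776424) (l 16778752)) (l 16779952)))))) (a (b (a (l 3) (b (a (l 3) (b (l 3) (a (l 3) (b (l 273971966119) (l 16776944))))) (c (a (b (l 321216584439) (l 154786604935)) (l 71571610903)) (a (b (l 306721067175) (a (l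 257328957255) (l 16781376))) (b (l 138680464887) (l 16780032)))))) (a (b (a (a (l 3) (b (l 3) (b (l 293836188359) (l 173040203015)))) (b (a (b (l 3) (l 297057415367)) (c (l 172503326055) (l 160692169847))) (c (l 16782192) (l 16780848)))) (a (a (b (b (l 272898215159) (l 16781680)) (l 16780776)) (l 16780576)) (l 16778472))) (b (c (l 16779712) (l 16778024)) (l 16773336)))) (b (a (b (a (b (a (l 239075337255) (l 160155299255)) (l 108615702791)) (l 16780928)) (l 16788232)) (c (l 16774888) (l 16772656))) (c (l 16787536) (l 16785040)))))))))), by decide +kernel⟩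

def k2_pm_011 : ∃ t, chk3 f_pm_011 t 4 14 1 = true :=
  ⟨(a (l 3) (b (l 3) (a (l 3) (b (l 3) (a (l 3) (b (l 3) (a (b (l 3) (a (l 3) (b (l 3) (a (a (l 3) (b (l 3) (c (l 395304767207) (l 399062862679)))) (b (a (l 3) (b (l 3) (c (l 301352356375) (a (l 3) (l 237464718871))))) (c (a (b (l 332490869415) (l 141364826231)) (l 81235283751)) (a (b (l 330343384935) (l 135996116247)) (c (l 16778048) (l 16777840))))))))) (b (a (l 3) (b (a (l 3) (a (l 3) (c (l 429127636999) (l 435033215895)))) (a (b (l 3) (a (b (l 3) (c (l 312089774823) (l 307794806679))) (c (b (l 267529492215) (l 16778760)) (b (l 264845136567) (l 138680466791))))) (b (b (a (l 3) (c (l 208473690983) (l 202568110055))) (c (a (l 238001591639) (l 16778624)) (a (l 233706623383) (l 16778192)))) (c (l 16777936) (l 16777488)))))) (a (b (a (b (l 3) (a (l 3) (b (l 3) (c (l 225653559255) (a (l 289004326151) (l 130090532967)))))) (a (a (b (l 3) (c (c (l 163376533863) (l 161765920631)) (c (l 160155307351) (l 158007823143)))) (b (c (l 392620412359) (l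 392083540471)) (c (l 16778544) (l 16778144)))) (c (b (b (l 348596996999) (l 157470953815)) (l 16777920)) (b (b (l 340543932423) (l 151028501959)) (l 16777496))))) (c (a (b (a (b (l 255181460903) (l 16778568)) (l 16778136)) (l 16776872)) (l 16775656)) (a (b (a (b (a (l 335175223127) (l 197736270935)) (l 126869306871)) (l 16777728)) (l 16776456)) (l 16775208)))) (c (b (a (a (b (l 93583315031) (l 16776912)) (l 16776784)) (l 16775144)) (l 16777504)) (b (a (a (c (l 49559899079) (l 50633640279)) (l 16776328)) (l 16774664)) (l 16776992)))))))))))), by decide +kernel⟩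

def k3_pm_011 : ∃ t, chk3 f_pm_011 t 8 30 1 = true :=
  ⟨(a (l 3) (b (l 3) (a (l 3) (b (l 3) (a (l 3) (b (l 3) (a (l 3) (b (l 3) (a (b (l 3) (a (l 3) (b (l 3) (c (a (a (l 3) (b (l 3) (b (l 360945027719) (a (l 240149072071) (l 16778256))))) (b (c (a (l 408726537527) (b (l 345912641335) (l 16777648))) (a (l 411410891975) (l 236390975415))) (c (l 89825215751) (l 82845894055)))) (a (a (l 3) (b (l 3) (c (l 261623908279) (l 266455746375)))) (b (c (a (l 418390213719) (l 241222813511)) (a (l 421074568151) (l 245517780695))) (c (l 81772152215) (l 16777952)))))))) (b (a (l 3) (a (b (l 3) (b (l 3) (c (c (a (l 295446776151) (l 162839660215)) (a (l 301352356071) (l 164987143767))) (c (a (l 304573581495) (l 166597756391)) (a (l 309942290487) (l 168745239927)))))) (c (c (b (l 438254438679) (b (a (l 273971939591) (l 140827952775)) (l 16777304))) (b (l 445770631319) (b (a (l 279340648599) (l 141901694503)) (l 16777248)))) (c (b (l 453823694855) (b (a (l 284709357591) (l 143512307143)) (l 16777200))) (b (l 461339887495)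 (b (a (l 287393712103) (l 145122919751)) (l 16777136))))))) (a (b (c (a (b (l 3) (b (c (l 375440540871) (l 380272378967)) (a (l 302426098199) (l 111836923911)))) (b (c (a (l 362555638919) (l 180556400487)) (a (l 366850606103) (l 183240754951))) (c (l 16777376) (l 16777328)))) (a (b (l 3) (c (a (l 393694151671) (l 218137364263)) (a (l 398525989751) (l 221895460551)))) (b (c (a (l 371682444183) (l 184851367591)) (a (l 375977411351) (l 187535722039))) (c (l 16777272) (l 16777216))))) (a (c (a (c (l 16777952) (l 16777904)) (l 16777640)) (c (l 16777712) (l 16777656))) (c (l 16777856) (l 16777752)))) (b (c (c (c (l 16776800) (l 16776776)) (l 16777392)) (c (l 16777336) (l 16777280))) (c (l 16777624) (c (l 16775576) (l 16775520))))))))))))))), by decide +kernel⟩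

def k4_pm_011 : ∃ t, chk3 f_pm_011 t 16 31 1 = true :=
  ⟨(b (b (l 3) (l 6)) (l 6)), by decide +kernel⟩

def k5_pm_011 : ∃ t, chk3 f_pm_011 t 34 124 1 = true :=
  ⟨(a (l 3) (b (l 3) (a (l 3) (b (l 3) (a (l 3) (b (l 3) (a (b (l 3) (c (a (a (l 3) (b (l 3) (c (l 395841635351) (l 402284086231)))) (a (b (l 3) (c (b (l 303499838999) (l 124184953799)) (b (l 299741742711) (l 122037470183)))) (b (b (l 3) (c (l 291688678903) (l 287930582615))) (b (c (l 111836922807) (l 104857601047)) (l 16777776))))) (a (a (l 3) (b (l 3) (c (l 408726537111) (l 414632117079)))) (a (b (l 3) (c (b (l 307257935415) (l 119353115655)) (b (l 315310999015) (l 117205632023)))) (b (c (l 392620409671) (l 398525989639)) (c (l 46875542487) (l 51170509719))))))) (b (c (a (a (l 3) (b (l 3) (b (l 3) (c (l 269676971431) (l 264308262423))))) (a (b (l 3) (b (c (c (l 256792069527) (l 260013294967)) (l 253033973239)) (c (l 16777352) (l 16777328)))) (b (b (l 3) (c (c (l 244980909431) (l 247128393063)) (l 241222813143))) (c (l 16777208) (l 16777176)))))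 (a (a (l 3) (b (l 3) (b (l 3) (c (l 271824455127) (l 279340647815))))) (a (b (l 3) (b (c (l 259476424119) (l 266992616807)) (c (l 16777296) (l 16777264)))) (b (b (l 3) (c (l 247665264023) (l 254644585799))) (c (l 16777152) (l 16777120)))))) (c (c (a (b (a (b (l 281488131527) (l 16777712)) (l 16777896)) (l 16776832)) (c (l 16776856) (l 16776840))) (a (a (b (b (l 276119422519) (l 16777688)) (l 16776952)) (c (l 16777432) (l 16777416))) (c (l 16776824) (l 16776488)))) (a (a (b (b (c (l 283635615223) (l 291151807911)) (c (l 16777328) (l 16777296))) (c (l 16776920) (l 16776888))) (b (c (l 16777840) (l 16777152)) (l 16777920))) (c (c (l 16776472) (l 16776456)) (l 16776760)))))))))))), by decide +kernel⟩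

def k6_pm_011 : ∃ t, chk3 f_pm_011 t 68 125 1 = true :=
  ⟨(b (b (l 3) (l 6)) (l 6)), by decide +kernel⟩

def k7_pm_011 : ∃ t, chk3 f_pm_011 t 276 500 1 = true :=
  ⟨(l 3), by decide +kernel⟩

def k8_pm_011 : ∃ t, chk3 f_pm_011 t 277 1000 1 = true :=
  ⟨(l 3), by decide +kernel⟩

def k9_pm_011 : ∃ t, chk3 f_pm_011 t 554 1001 1 = true :=
  ⟨(a (l 3) (b (l 3) (b (l 3) (c (c (c (a (l 392620409847) (b (l 303499838791) (l 118279373607))) (a (l 396378506199) (b (l 300815484279) (l 122037469959)))) (c (a (l 400673473463) (b (l 304036709735) (l 116668760903))) (a (l 404431569815) (b (l 301352355223) (l 118816244519))))) (c (a (b (l 3) (l 317995353479)) (b (l 307257935207) (l 122037469959))) (a (l 415168987959) (b (l 299204871639) (l 118816244519)))))))), by decide +kernel⟩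

def k10_pm_011 : ∃ t, chk3 f_pm_011 t 555 1001 1 = true :=
  ⟨(b (b (l 3) (b (a (l 3) (a (l 3) (c (c (c (l 254107714839) (l 251423360327)) (c (l 254644585783) (l 258939553047))) (c (c (l 262697649399) (l 266455745751)) (c (l 270213842103) (l 273971938455)))))) (a (l 3) (a (c (c (c (l 264845133111) (l 269140100375)) (c (l 265382004055) (l 269676971319))) (c (c (l 273435067671) (l 277730034935)) (c (l 281488131287) (l 285246227639)))) (c (c (l 16777960) (l 16777280)) (c (l 16777256) (l 16777232))))))) (c (c (c (a (a (b (l 379198636967) (c (l 38285607751) (l 39359349559))) (b (b (l 274508809559) (l 16777344)) (l 16776928))) (a (b (l 16777848) (l 16776632)) (l 16776944))) (b (a (a (l 381346120599) (b (l 279877518647) (l 16777328))) (l 16777528)) (a (a (a (l 69424120599) (l 16777136)) (l 16776920)) (l 16776472)))) (b (c (a (a (l 385104216951) (b (l 276119422327) (l 16777320))) (l 16777512)) (a (a (l 388862313303) (b (l 280414389591) (l 16777304))) (l 16777504))) (b (a (a (l 86067119047) (l 16777040))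 (l 16776600)) (c (l 16776944) (l 16776936))))) (c (c (a (b (a (l 392620409655) (b (l 284172485943) (l 16777296))) (c (l 16777688) (l 16777680))) (b (l 16777656) (l 16776440))) (a (b (a (l 394767893287) (b (l 288467453207) (l 16777280))) (c (l 16777672) (l 16777664))) (b (l 16777640) (l 16776424)))) (c (a (b (a (l 397989118727) (b (l 292225549559) (l 16777264))) (c (l 16777664) (l 16777656))) (b (l 16777624) (l 16776408))) (a (b (a (l 401210344167) (b (l 296520516823) (l 16777256))) (l 16777640)) (b (l 16777616) (l 16776392))))))), by decide +kernel⟩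

def k11_pm_011 : ∃ t, chk3 f_pm_011 t 138 501 1 = true :=
  ⟨(a (b (a (l 6) (a (l 6) (b (b (l 3) (l 6)) (l 6)))) (l 6)) (b (c (a (b (b (a (c (a (b (l 3) (l 393157280519)) (b (l 382419862247) (c (l 139217339223) (l 143512306487)))) (a (l 415705859063) (b (c (l 324974675367) (l 322290320855)) (c (l 137606726519) (l 139754210151))))) (a (b (c (c (l 129553662775) (l 132238017319)) (c (l 134922371847) (l 129553662791))) (c (l 16777104) (l 16777080))) (c (l 16776952) (l 16776928)))) (a (a (a (l 6) (c (l 16777856) (l 16777176))) (c (l 16776976) (l 16776960))) (c (l 16777192) (l 16776512)))) (a (a (l 6) (c (l 16777448) (l 16777424))) (c (l 16777000) (l 16776976)))) (b (a (b (a (l 16777624) (l 16777656)) (l 16777240)) (c (l 16776944) (l 16776920))) (l 16775768))) (a (b (b (b (a (c (a (l 3) (l 328195900839)) (l 423222051687)) (a (c (l 132238017319) (l 129553662791)) (a (l 16777760) (l 16777616)))) (c (a (a (l 406579053207) (c (l 142438564679) (l 143512306487))) (l 16776912)) (a (a (l 412484633191) (l 140827951959))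 (l 16776888)))) (a (a (a (l 6) (c (l 16777152) (l 16777128))) (c (l 16776936) (l 16776904))) (c (l 16776488) (l 16776464)))) (c (a (a (l 6) (l 16777400)) (l 16776952)) (a (c (l 16776544) (l 16776528)) (l 16776928)))) (b (a (b (a (l 16777576) (l 16777608)) (l 16777192)) (a (l 16777032) (l 16776728))) (l 16775720)))) (b (c (c (l 16775576) (l 16775552)) (c (l 16775528) (l 16775496))) (c (l 16774432) (l 16774376))))), by decide +kernel⟩

def k12_pm_011 : ∃ t, chk3 f_pm_011 t 278 1000 1 = true :=
  ⟨(a (b (l 3) (c (a (l 3) (b (l 3) (b (a (l 3) (a (c (l 273971938663) (l 280414389559)) (c (l 147807273975) (l 151028499399)))) (a (c (c (l 220821718215) (l 224579814567)) (c (l 227264169111) (l 231022265463))) (c (l 16777248) (l 16777224)))))) (a (l 3) (b (l 3) (b (a (l 3) (a (c (l 287930582263) (l 294909904055)) (c (l 16777712) (l 16777680)))) (a (c (c (l 234243490903) (l 232096007303)) (c (l 241222812695) (l 244444038135))) (c (l 16777200) (l 16777168)))))))) (b (c (a (b (l 3) (c (l 432885728727) (l 440401921431)))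 (a (b (l 3) (c (b (l 408726537063) (c (l 170892723239) (l 172503335959))) (b (l 415168987943) (c (l 174650819575) (l 177335174103))))) (a (b (l 3) (b (c (l 218137363639) (l 223506072711)) (l 16777904))) (b (c (l 405505311687) (l 411947762567)) (c (l 16777256) (l 16777232)))))) (a (b (l 3) (c (l 447381243223) (l 454360565015))) (a (b (l 3) (c (b (l 421074567911) (l 162302788775)) (b (l 429127631527) (l 167134626919)))) (b (c (l 424832664551) (l 432348857239)) (b (c (l 149954757783) (l 154249725015)) (l 16777776)))))) (c (a (b (b (c (a (l 437180695463) (c (l 193441301543) (l 195588785175))) (a (l 444160017271) (c (l 198810010615) (l 189683205095)))) (a (c (c (l 200420623479) (l 204178719831)) (c (l 206326203463) (l 210084299815))) (c (l 16777224) (l 16777200)))) (c (l 16777280) (l 16776928))) (b (c (l 16776920) (l 16776896)) (l 16777496))) (a (b (a (c (b (l 452213080887) (c (l 212231783447) (l 215453008887))) (b (l 460803015399) (l 206863074423))) (b (c (c (l 191830688711) (l 193978172327)) (l 179482657911))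 (c (l 16777168) (l 16777136)))) (c (l 16776904) (l 16776872))) (c (c (l 16776920) (l 16776912)) (c (l 16776896) (l 16776880))))))), by decide +kernel⟩

def k13_pm_011 : ∃ t, chk3 f_pm_011 t 278 1001 1 = true :=
  ⟨(c (a (b (b (a (b (a (l 3) (c (c (l 233169749207) (l 235854103751)) (c (l 233169749239) (l 236927845591)))) (a (c (c (l 243907167479) (l 247665263831)) (c (l 243907167511) (l 247665263863))) (c (l 16777280) (l 16777256)))) (c (l 16777312) (l 16777288))) (a (c (c (l 16777344) (l 16777664)) (c (l 16777648) (l 16776984))) (c (l 16776424) (l 16776400)))) (a (b (a (l 16777240) (l 16777600)) (l 16777184)) (c (l 16776888) (l 16776864)))) (c (a (b (l 16777096) (l 16776296)) (b (l 16776824) (l 16775696))) (a (b (l 16777064) (l 16776264)) (b (l 16776800) (l 16775672))))) (a (c (a (c (b (b (a (l 360945025719) (b (l 239612200135) (l 16777232))) (l 16776968)) (l 16776784)) (b (b (a (l 364166251159) (b (l 242833425575) (l 16777224))) (l 16776952)) (l 16776768))) (b (b (l 16777256) (l 16776368)) (l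 16776832))) (c (a (b (b (a (l 366850605687) (b (l 246591521927) (l 16777208))) (l 16776944)) (l 16776752)) (b (b (l 16776912) (l 16776352)) (l 16775504))) (a (b (b (a (l 370071831127) (b (l 249812747367) (l 16777192))) (l 16776928)) (l 16776080)) (b (l 16776960) (l 16775488))))) (c (a (b (l 16777040) (l 16776240)) (l 16775264)) (a (b (c (l 16776032) (l 16776016)) (l 16776208)) (l 16775192))))), by decide +kernel⟩

def k14_pm_011 : ∃ t, chk3 f_pm_011 t 279 500 1 = true :=
  ⟨(b (c (c (a (c (a (b (b (a (b (l 324974675559) (l 146196661255)) (c (l 69424120743) (l 71034733463))) (l 16776896)) (l 16777368)) (b (c (l 16776920) (l 16776912)) (l 16775464))) (a (b (b (a (b (l 329269642823) (l 148881015783)) (c (l 72108475271) (l 97341407879))) (l 16776888)) (l 16777352)) (b (l 16776904) (l 16775448)))) (b (a (l 16777304) (l 16776704)) (l 16774568))) (a (a (b (b (a (b (l 322290321079) (l 145659790359)) (b (l 133311759367) (l 16777136))) (l 16776864)) (l 16777336)) (b (c (l 16776888) (l 16776872)) (l 16776744)))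 (a (b (l 16777272) (l 16774832)) (l 16775088)))) (c (a (a (b (b (a (b (l 330880255607) (l 137606726791)) (a (l 112373793623) (l 16777168))) (l 16776840)) (l 16777304)) (b (c (l 16776864) (l 16776520)) (l 16776712))) (a (b (l 16777240) (l 16774808)) (l 16775016))) (b (b (a (a (a (b (l 338396448311) (l 141901694023)) (a (l 103783859127) (l 16777144))) (l 16776776)) (l 16777192)) (a (c (l 16776848) (l 16776504)) (l 16775320))) (b (a (l 16777256) (l 16774752)) (l 16775200))))) (c (a (b (c (l 16774624) (l 16774600)) (l 16774136)) (l 16774168)) (c (l 16774800) (l 16774688)))), by decide +kernel⟩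

def k15_pm_011 : ∃ t, chk3 f_pm_011 t 139 501 1 = true :=
  ⟨(a (b (b (a (c (c (l 16776056) (l 16776032)) (l 16775328)) (c (l 16774200) (l 16774136))) (c (l 16774320) (l 16774256))) (c (l 16773272) (l 16773216))) (c (c (l 16772528) (l 16772504)) (c (l 16772304) (l 16772272)))), by decide +kernel⟩

def k16_pm_011 : ∃ t, chk3 f_pm_011 t 69 251 1 = true :=
  ⟨(a (b (b (a (l 6) (c (l 16773384) (l 16773328))) (l 6)) (l 6)) (a (b (b (a (l 16772224) (l 16771032)) (l 16770032)) (c (l 16766256) (l 16766096))) (b (c (l 16768192) (l 16768072)) (l 16766480)))), by decide +kernel⟩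

def k17_pm_011 : ∃ t, chk3 f_pm_011 t 140 248 1 = true :=
  ⟨(l 3), by decide +kernel⟩

def k18_pm_011 : ∃ t, chk3 f_pm_011 t 141 496 1 = true :=
  ⟨(l 3), by decide +kernel⟩

def k19_pm_011 : ∃ t, chk3 f_pm_011 t 141 497 1 = true :=
  ⟨(a (b (l 3) (a (l 3) (b (l 3) (a (l 3) (a (l 3) (b (l 3) (c (c (l 367924347911) (l 373293056951)) (c (l 379198636887) (l 384567345911))))))))) (b (a (l 3) (a (l 3) (b (l 3) (b (l 3) (c (c (a (l 420000826647) (b (l 365239993959) (l 169818981719))) (a (l 425906406583) (b (l 362018768551) (l 172503336199)))) (c (a (l 429664502871) (b (l 363629381287) (l 170892723463))) (a (l 438254437351) (b (l 363629381335) (l 175724561511))))))))) (a (b (a (l 3) (a (l 3) (b (l 3) (b (l 3) (c (c (l 228337911399) (l 232632878631)) (c (l 237464716759) (l 242296554871))))))) (c (a (a (b (l 3) (c (b (l 270213842615) (l 16777464)) (b (l 275582551655) (l 16777424)))) (b (c (l 349133865911) (l 353965704039)) (c (l 16777320) (l 16777288)))) (a (b (b (c (l 242833426039) (l 248202135079))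 (l 16778072)) (l 16778328)) (c (l 16777016) (l 16776984)))) (a (a (b (l 3) (c (b (l 282025002503) (l 16777392)) (b (l 286856840631) (l 16777344)))) (b (c (l 359334413063) (l 364703122087)) (c (l 16777248) (l 16777208)))) (b (a (b (c (l 253033973207) (l 257328940423)) (l 16777992)) (l 16777848)) (l 16777448))))) (c (c (b (a (a (b (l 3) (c (l 137606727079) (l 142975436087))) (b (b (l 432348857383) (l 203104978423)) (l 16777256))) (b (c (l 100025762679) (l 96804537255)) (l 16776824))) (c (l 16776624) (l 16776600))) (b (a (a (b (l 3) (c (l 140291081575) (l 146196661479))) (b (b (l 439328179143) (l 206863074743)) (l 16777216))) (a (b (l 115058148791) (l 16776928)) (l 16776912))) (c (l 16776584) (l 16776560)))) (a (b (b (a (l 3) (b (l 430738245719) (c (l 211158041959) (l 214916138263)))) (a (c (c (l 147270403271) (l 148881015959)) (l 140291081543)) (l 16777808))) (c (l 16776504) (l 16776456))) (b (b (a (c (l 117742503271) (l 120963728647)) (l 16777776)) (l 16778032)) (l 16777192))))))), by decide +kernel⟩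

def k20_pm_011 : ∃ t, chk3 f_pm_011 t 140 498 1 = true :=
  ⟨(a (l 3) (b (l 3) (a (b (l 3) (a (b (l 3) (c (c (a (l 386714829863) (b (l 289541195463) (l 16777776))) (a (l 393157280727) (b (l 297057388151) (l 16777416)))) (c (a (l 399062860679) (b (l 302962968119) (l 16777376))) (a (l 405505311543) (b (l 310479160791) (l 16777344)))))) (c (b (b (a (l 3) (c (l 264308262535) (l 271287584311))) (c (a (l 276656293543) (l 16777416)) (a (l 284172486231) (l 16777384)))) (c (c (l 16777824) (l 16777152)) (l 16777952))) (b (c (a (l 380809249607) (b (l 277730035175) (l 16777352))) (a (l 387251700455) (b (l 284172486039) (l 16777312)))) (c (l 16777752) (l 16777712)))))) (b (a (b (l 3) (b (a (l 3) (c (c (l 239075329607) (l 245517780471)) (c (l 250886489527) (l 256255198567)))) (c (c (a (l 251423360615) (l 16777384)) (a (l 258402682391) (l 16777352))) (c (a (l 264845133255) (l 16777320)) (a (l 270750713207) (l 16777280)))))) (c (c (b (b (a (l 3) (l 220284847495)) (a (l 225116685879) (l 16777352))) (l 16777096))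 (b (a (b (l 3) (l 231559136743)) (b (l 225653556551) (l 16777320))) (l 16777064))) (c (b (a (b (l 3) (l 236390974887)) (c (l 142438565063) (l 144049177767))) (l 16777024)) (b (a (b (l 3) (l 242296554839)) (c (l 145122919559) (l 147270403159))) (l 16776992))))) (a (b (c (c (l 16777784) (l 16777752)) (c (l 16777064) (l 16777024))) (c (l 16777872) (l 16777800))) (c (c (l 16777576) (l 16776232)) (c (l 16776192) (l 16776152)))))))), by decide +kernel⟩

def k21_pm_011 : ∃ t, chk3 f_pm_011 t 280 998 1 = true :=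
  ⟨(a (b (l 3) (c (a (a (l 3) (b (l 3) (b (l 3) (c (c (l 224042943751) (l 227264169191)) (l 215989880231))))) (a (a (b (l 3) (b (c (l 275582551447) (l 281488131415)) (l 16778008))) (b (l 3) (c (l 90362086247) (l 16777656)))) (c (b (b (l 433959470023) (c (l 202031236263) (l 207936816215))) (l 16777144)) (b (b (l 440938791815) (l 196125656359)) (l 16777112))))) (a (a (l 3) (b (l 3) (b (l 3) (c (l 222432331111) (l 227801040167))))) (a (b (l 3) (b (c (l 217063621847) (l 222432330903)) (l 16777872))) (c (b (b (l 437717566263) (l 201494365415)) (l 16777088)) (b (b (l 443623146215) (l 206863074471)) (l 16777048))))))) (b (c (a (b (l 3) (c (a (l 423758922935) (b (l 348596995767) (l 154249725271))) (a (l 429664502903) (b (l 348596995863) (l 156934079783))))) (a (b (c (l 403894699127) (l 410337149991)) (b (c (l 146196661495) (l 149417886903)) (l 16777872))) (c (b (b (l 314237257479) (l 137606726807)) (l 16777080)) (b (b (l 321216579271) (l 136532984999)) (l 16777048))))) (a (b (l 3) (c (a (l 436643824679)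 (b (l 353428833991) (l 160692176103))) (a (l 443623146455) (b (l 360945026679) (l 164987143319))))) (a (b (c (l 416779600855) (l 423222051719)) (c (c (l 102710117287) (l 99488891863)) (l 102173246375))) (b (c (b (l 328732771959) (l 139217339495)) (b (l 335712093735) (l 142975435799))) (c (l 16777016) (l 16776984)))))) (c (a (a (b (b (c (l 167134627175) (l 171429594407)) (l 16777904)) (l 16777496)) (c (l 16777168) (l 16776808))) (c (l 16777704) (l 16777672))) (b (b (a (a (c (l 175187690727) (l 178408916135)) (l 16777824)) (l 16778040)) (c (l 16776768) (l 16776728))) (c (l 16777000) (l 16776968)))))), by decide +kernel⟩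

def k22_pm_011 : ∃ t, chk3 f_pm_011 t 280 999 1 = true :=
  ⟨(c (c (a (a (a (b (b (a (b (l 308331677143) (l 16777392)) (l 110226310039)) (l 16776912)) (l 16776080)) (b (l 16777272) (l 16775776))) (b (c (l 16776464) (l 16776448)) (l 16776648))) (b (c (l 16776888) (l 16776872)) (l 16774440))) (a (a (a (b (b (b (l 228874782135) (l 16777296)) (l 16776888)) (l 16776048)) (b (l 16777200) (l 16775752))) (b (l 16776760) (l 16775304))) (b (c (l 16776856) (l 16776840)) (l 16774408)))) (c (a (b (b (b (a (a (l 235317233015) (l 16777248)) (l 16776816)) (c (l 16776840) (l 16776824))) (c (l 16776424) (l 16776408))) (c (l 16776888) (l 16776872))) (b (c (l 16776824) (l 16776808)) (l 16775688))) (b (b (a (b (a (a (l 241222812983) (l 16777216)) (l 16776784)) (l 16777288)) (l 16775752)) (a (c (l 16776384) (l 16776368)) (l 16775184))) (a (a (l 16775832) (l 16775232)) (l 16775648))))), by decide +kernel⟩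

def k23_pm_011 : ∃ t, chk3 f_pm_011 t 281 499 1 = true :=
  ⟨(b (c (c (a (b (a (b (a (a (l 103246988295) (l 16777264)) (l 16777048)) (l 16776640)) (l 16777640)) (l 16776816)) (b (l 16776752) (l 16775624))) (a (b (a (b (c (l 28621931559) (l 16777808)) (l 16776608)) (l 16777608)) (l 16777112)) (b (l 16776720) (l 16775592)))) (c (a (b (b (a (a (l 80161538983) (l 16776984)) (l 16776544)) (l 16777592)) (c (l 16776760) (l 16776736))) (b (l 16776680) (l 16775552))) (b (a (a (a (b (l 16777560) (l 16776688)) (l 16776672)) (l 16776224)) (l 16776640)) (a (c (l 16776720) (l 16776696)) (l 16775512))))) (c (a (b (l 16776328) (l 16773240)) (l 16775232)) (a (b (l 16774456) (l 16773160)) (l 16775152)))), by decide +kernel⟩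

def k24_pm_011 : ∃ t, chk3 f_pm_011 t 282 996 1 = true :=
  ⟨(a (b (a (l 3) (a (l 3) (c (c (l 420537698007) (l 426980148871)) (c (l 434496341543) (l 440938792391))))) (a (a (b (l 3) (c (c (b (l 435033211911) (l 204178720167)) (b (l 442549404599) (l 209010558311))) (c (b (l 449528726375) (l 213305525543)) (b (l 457044919047) (l 218137363671))))) (c (b (c (l 425369535735) (l 431811986599)) (b (c (l 188609463735) (l 182167012727)) (l 16777960))) (b (c (l 437717566551) (l 444696888311)) (c (c (l 123648083095) (l 125258695799)) (l 119889986775))))) (c (c (b (a (b (l 347523254487) (l 169282110807)) (c (l 108615697463) (l 104857601143))) (l 16777032)) (b (a (b (l 375977412087) (l 172503336215)) (l 103246988423)) (l 16776992))) (c (b (a (b (l 374366799431) (l 174650819799)) (l 107005084743)) (l 16776960)) (b (a (b (l 378661766631) (l 173577077975)) (l 101636375703)) (l 16776920)))))) (c (b (b (b (a (l 3) (c (a (l 297057388279) (l 16777480)) (a (l 303499839143) (l 16777440)))) (a (c (l 387788571751) (l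 393694151703)) (c (l 16777688) (l 16777984)))) (a (a (c (b (l 323364063047) (l 145659790567)) (b (l 329806513911) (l 147807274151))) (c (l 91435828215) (l 16777760))) (c (l 16776960) (l 16776928)))) (a (c (l 16777048) (l 16777008)) (c (l 16776128) (l 16776088)))) (b (b (b (a (l 3) (c (a (l 309405419095) (l 16777400)) (a (l 315310999031) (l 16777360)))) (a (c (l 399062860743) (l 404968440679)) (c (l 16777288) (l 16777248)))) (c (a (a (a (l 273435068103) (l 180019529191)) (l 16777968)) (l 16776888)) (a (a (b (l 342691415623) (l 16777728)) (l 16777928)) (l 16776848)))) (c (c (l 16776768) (l 16776664)) (c (l 16776648) (l 16776624)))))), by decide +kernel⟩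

def k25_pm_011 : ∃ t, chk3 f_pm_011 t 282 997 1 = true :=
  ⟨(c (a (c (b (a (l 16777112) (l 16776192)) (l 16776680)) (b (a (l 16777080) (l 16776160)) (l 16776648))) (b (c (l 16776616) (l 16776576)) (l 16775480))) (c (a (b (a (l 16777048) (l 16776120)) (l 16776608)) (b (l 16776536) (l 16774104))) (a (b (a (l 16776680) (l 16776080)) (l 16776568)) (b (l 16776496) (l 16774064))))), by decide +kernel⟩

def k26_pm_011 : ∃ t, chk3 f_pm_011 t 283 498 1 = true :=
  ⟨(c (c (a (b (b (a (l 16776648) (l 16776056)) (l 16776552)) (l 16776176)) (b (a (l 16776216) (l 16775624)) (l 16772368))) (a (b (b (a (l 16776616) (l 16776024)) (l 16776512)) (l 16776136)) (a (b (l 16776832) (l 16775240)) (b (l 16775584) (l 16772024))))) (c (a (b (b (a (l 16776576) (l 16775976)) (l 16776472)) (l 16773472)) (a (b (l 16776792) (l 16775200)) (b (l 16776848) (l 16774600)))) (a (b (b (a (l 16776528) (l 16775936)) (l 16776424)) (l 16773424)) (b (a (l 16776744) (l 16775488)) (l 16772224))))), by decide +kernel⟩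

def k27_pm_011 : ∃ t, chk3 f_pm_011 t 141 499 1 = true :=
  ⟨(a (a (c (b (c (l 16775656) (l 16775616)) (l 16774040)) (b (c (l 16775904) (l 16773896)) (l 16773952))) (c (c (l 16773336) (l 16772640)) (l 16773232))) (c (l 16772184) (l 16772088))), by decide +kernel⟩

def k28_pm_011 : ∃ t, chk3 f_pm_011 t 142 496 1 = true :=
  ⟨(a (b (l 3) (a (l 3) (a (l 3) (b (l 3) (b (l 3) (c (c (a (l 338933318599) (c (l 155323467207) (l 156397208999))) (a (b (l 3) (l 252497102439)) (c (l 158007821687) (l 159081563479)))) (c (a (l 294909904919) (l 151565370887)) (a (l 297594259463) (l 154249725351))))))))) (b (a (l 3) (b (l 3) (c (a (b (l 3) (c (l 399599732183) (l 404968441207))) (b (c (l 384030475655) (l 389936055575)) (b (a (a (l 3) (l 256255199399)) (l 94657054487)) (c (l 16777464) (l 16777424))))) (c (a (l 427517019943) (b (l 395304764583) (a (l 213305526007) (l 16777368)))) (a (l 433959470775) (b (l 401210344487) (a (l 217600493207) (l 16777312)))))))) (a (b (c (c (a (l 438254438599) (b (l 417316472375) (a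 (b (l 368461220087) (l 182703883767)) (l 112910665111)))) (a (l 446307502167) (b (l 423758923207) (a (b (l 375440541879) (l 184314496423)) (l 115058148679))))) (c (a (l 454360565735) (b (l 429664503127) (a (b (l 378124896455) (l 188609463559)) (l 117205632231)))) (a (l 461876758391) (b (l 435570083047) (a (l 259476424487) (l 16778040)))))) (b (a (c (a (b (l 3) (a (l 267529488551) (l 140291082071))) (c (l 132238018007) (l 134922372487))) (c (a (l 274508810199) (l 131164276167)) (a (l 280414390119) (l 133848630631)))) (c (l 16777616) (l 16777688))) (c (c (l 16776896) (l 16776856)) (c (l 16776808) (l 16776760))))) (c (a (b (b (c (a (b (l 334638352295) (l 16777928)) (l 16777488)) (a (b (l 340007061319) (l 16777560)) (l 16777448))) (l 16777744)) (l 16777576)) (b (c (l 16776800) (l 16776760)) (l 16776984))) (a (b (b (c (a (b (l 345375770327) (l 16777512)) (l 16777400)) (a (l 240149071543) (l 16777352))) (l 16777648)) (l 16777480)) (b (a (l 16777320) (l 16777848)) (l 16776888))))))), by decide +kernel⟩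

def k29_pm_011 : ∃ t, chk3 f_pm_011 t 142 497 1 = true :=
  ⟨(a (b (a (b (a (l 3) (b (l 3) (c (c (a (l 378661766247) (b (l 291688679191) (l 16777528))) (a (l 384030475271) (b (l 297594259127) (l 16777488)))) (c (a (l 389399184295) (b (l 302426097239) (l 16777448))) (a (l 394767893303) (b (l 307257935351) (l 16777400))))))) (c (a (b (c (a (l 398525990071) (b (l 320679708503) (l 16777880))) (a (l 403894699111) (b (l 326048417543) (l 16777512)))) (a (c (l 100562634023) (l 103246988503)) (l 16777824))) (b (c (l 46338671735) (l 16777904)) (l 16778040))) (a (b (c (a (l 409800279031) (b (l 331417126567) (l 16777472))) (a (l 415168988055) (b (l 334638352007) (l 16777424)))) (c (l 81235280759) (l 75866571719))) (b (c (l 16777864) (l 16777160)) (l 16777952))))) (c (c (b (a (b (a (l 358797542423) (b (l 262697649879) (l 16777496))) (l 16777256)) (l 16777608)) (l 16777448)) (b (a (b (a (l 364166251447) (c (l 176261432807) (l 177335174599))) (l 16777216)) (l 16776912)) (l 16777408))) (c (b (a (b (a (l 368998089559)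 (c (l 178945787287) (l 180556399975))) (l 16777176)) (l 16776864)) (l 16777368)) (b (a (b (a (l 373829927655) (l 176261432775)) (l 16777128)) (l 16776816)) (l 16777312))))) (a (b (c (a (a (l 16777944) (l 16777656)) (l 16777208)) (c (l 16776784) (l 16776736))) (c (l 16777040) (c (l 16775008) (l 16774960)))) (b (c (l 16776968) (l 16776880)) (c (l 16776504) (l 16776408))))) (a (c (b (b (c (l 16777376) (l 16777336)) (l 16776896)) (l 16775872)) (b (b (c (l 16777288) (l 16775928)) (l 16776800)) (c (l 16775800) (l 16775744)))) (c (b (c (l 16776944) (l 16776240)) (l 16774680)) (b (b (l 16776064) (l 16776256)) (l 16771952))))), by decide +kernel⟩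

def k30_pm_011 : ∃ t, chk3 f_pm_011 t 143 248 1 = true :=
  ⟨(b (a (b (a (b (c (a (b (l 3) (c (l 368998090023) (l 374366799031))) (a (b (l 3) (c (l 154786596615) (l 156934080183))) (b (c (l 271287584983) (l 277193164903)) (l 16778016)))) (a (b (l 3) (c (l 379735508039) (l 385641087943))) (b (a (l 3) (c (l 282561873927) (l 285783099351))) (a (c (l 159618434647) (l 162302789095)) (l 16777264))))) (a (b (a (c (c (b (l 274508810007) (l 16777552)) (l 179482658503)) (c (l 182703883879) (l 184851367431))) (c (l 16778216) (l 16777960))) (c (l 16778328) (l 16778232))) (c (c (l 16776728) (l 16776680)) (c (l 16776632) (l 16776576))))) (b (a (b (c (a (c (l 139754210871) (l 141364823527)) (l 16777328)) (c (l 97878279639) (l 100562634087))) (c (l 16776936) (l 16776840))) (c (c (l 16776648) (l 16776600)) (l 16777176))) (c (c (l 16775840) (l 16775792)) (c (l 16775744) (l 16775680))))) (a (b (c (c (l 16775920) (l 16775872)) (c (l 16775824) (l 16775768))) (c (l 16777400) (l 16777296))) (c (c (l 16776792) (l 16776744))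 (c (l 16776688) (l 16776632))))) (c (b (c (a (a (l 16776816) (l 16777536)) (l 16776640)) (a (c (l 16775824) (l 16775800)) (l 16776584))) (c (l 16775008) (l 16774952))) (b (a (b (a (l 16777240) (l 16775336)) (l 16777136)) (a (l 16776800) (l 16776200))) (c (l 16774888) (l 16775152))))) (b (a (a (c (l 16775728) (l 16775616)) (b (l 16775696) (l 16773920))) (c (l 16772744) (l 16773928))) (c (l 16771528) (l 16771408)))), by decide +kernel⟩

def k31_pm_011 : ∃ t, chk3 f_pm_011 t 71 249 1 = true :=
  ⟨(a (b (c (b (b (a (c (l 16776008) (l 16775960)) (l 16773600)) (a (l 16774864) (l 16769848))) (l 16772144)) (b (b (a (c (l 16773288) (l 16773240)) (l 16770864)) (a (l 16774760) (l 16769744))) (l 16772032))) (c (a (l 16769792) (l 16770016)) (a (l 16769688) (l 16769904)))) (c (b (l 16769632) (l 16766424)) (b (l 16769496) (l 16766288)))), by decide +kernel⟩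

def k32_pm_011 : ∃ t, chk3 f_pm_011 t 35 125 1 = true :=
  ⟨(a (b (a (a (b (b (c (a (b (l 16776456) (l 16775984)) (l 16774048)) (c (l 16774592) (l 16774552))) (c (l 16773040) (l 16772968))) (c (l 16770296) (l 16770224))) (b (c (c (l 16772456) (l 16772424)) (c (l 16772384) (l 16772336))) (c (l 16767904) (l 16767824)))) (b (c (c (l 16770192) (l 16769488)) (c (l 16769440) (l 16769392))) (c (l 16766936) (l 16766840)))) (b (a (c (l 16767344) (l 16767184)) (l 16763896)) (a (c (l 16763120) (l 16762888)) (l 16758328)))) (a (b (b (a (l 16766520) (l 16765432)) (l 16762136)) (c (l 16755912) (l 16755600))) (b (c (l 16759632) (l 16759472)) (l 16753640)))), by decide +kernel⟩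

def k33_pm_011 : ∃ t, chk3 f_pm_011 t 17 63 1 = true :=
  ⟨(b (a (a (l 6) (b (a (l 6) (b (c (l 16763512) (l 16763256)) (l 6))) (l 6))) (a (b (a (c (l 16756808) (l 16756456)) (b (l 16754088) (l 16755104))) (a (l 16749480) (l 16748776))) (b (a (l 16752528) (l 16747816)) (a (l 16744104) (l 16739408))))) (a (l 6) (b (a (a (l 6) (l 16740376)) (l 16733384)) (a (l 6) (l 16719808))))), by decide +kernel⟩

def k34_pm_011 : ∃ t, chk3 f_pm_011 t 18 60 1 = true :=
  ⟨(a (l 3) (b (l 3) (a (l 3) (b (l 3) (a (b (l 3) (a (l 3) (b (a (l 3) (a (l 3) (b (l 3) (c (l 368461219911) (l 372756187991))))) (c (a (b (l 416779602823) (a (b (l 426443278295) (l 205789335143)) (c (l 127943052055) (l 127943051863)))) (b (a (b (l 354502575879) (l 152639114583)) (l 92509572119)) (l 16777296))) (a (b (l 425369538183) (a (b (l 435033212391) (l 206863076583)) (c (l 128479922471) (l 127943051319)))) (b (a (b (l 355039446295) (l 149954759591)) (l 89825217287)) (l 16777072))))))) (b (a (b (l 3) (a (l 3) (a (l 3) (b (l 3) (b (l 3) (c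 (l 215453011655) (l 214379269431))))))) (b (a (l 3) (b (l 3) (c (a (l 368998090903) (b (l 288467455959) (l 16778152))) (a (l 372219315815) (b (l 286856842999) (l 16777912)))))) (c (a (b (a (l 405505313175) (b (l 356650059623) (l 161229049159))) (c (l 97878281143) (l 97878280919))) (c (l 57612961335) (l 16777976))) (a (b (a (l 410337150807) (b (l 355576317271) (l 156397210503))) (c (l 98415151591) (l 98415151335))) (c (l 16778504) (l 16778368)))))) (b (a (c (b (b (a (l 3) (c (l 158544694455) (l 158544694247))) (a (a (l 3) (l 259476426743)) (l 16777800))) (a (a (b (l 281488134247) (l 16778072)) (l 16777864)) (l 16777096))) (a (b (c (l 372756187095) (l 375977412279)) (a (b (l 283098746583) (l 16777848)) (l 16777632))) (a (b (b (l 238001589607) (l 16777776)) (l 16777128)) (l 16777072)))) (c (l 16777544) (l 16777456))) (c (a (c (l 16776176) (l 16776064)) (l 16773792)) (a (c (l 16775944) (l 16775808)) (l 16773512)))))))))), by decide +kernel⟩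

def k35_pm_011 : ∃ t, chk3 f_pm_011 t 36 122 1 = true :=
  ⟨(a (l 3) (b (l 3) (a (b (l 3) (a (l 3) (b (l 3) (a (l 3) (a (l 3) (a (l 3) (b (l 3) (b (l 3) (c (l 262160780519) (l 268066360231)))))))))) (b (a (l 3) (b (l 3) (a (l 3) (b (l 3) (c (b (c (l 384030476407) (l 388325443511)) (a (l 371145573975) (c (l 142975436935) (l 142975436791)))) (b (c (l 392620410599) (l 397452248583)) (a (l 377051154919) (c (l 142975436615) (l 16777976))))))))) (a (b (a (l 3) (a (l 3) (b (l 3) (b (l 3) (a (c (l 287930584391) (l 291151809671)) (c (l 154786597591) (l 153712855463))))))) (c (b (a (a (l 3) (b (l 3) (c (l 266455747447) (l 270213843671)))) (a (b (a (l 322827193255) (l 178945788791)) (l 16777656)) (l 16777376))) (a (b (a (c (l 320679707991) (l 289541196583)) (l 75329702439)) (c (l 16778176) (l 16778104))) (l 16776624))) (b (b (a (l 3) (a (c (l 252497103383) (l 255181457767)) (l 16777448))) (a (a (l 3) (c (l 273435068983) (l 276656294279))) (l 16778216))) (a (b (a (c (l 293836163703) (l 297594259895)) (l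 76403443943)) (c (l 16777368) (l 16777288))) (l 16776456))))) (b (c (b (b (a (a (l 3) (l 394767894199)) (a (a (l 213842398087) (l 16777800)) (l 16777440))) (a (a (l 431275116327) (c (l 178945788423) (l 179482659191))) (l 16777216))) (b (a (a (a (l 261623909655) (l 130090535527)) (l 16777528)) (l 16776696)) (c (l 16776784) (l 16776704)))) (b (a (a (l 436643825575) (b (l 397989119287) (c (l 181093271687) (l 181630142423)))) (a (c (l 108615698487) (l 110226311015)) (l 16777024))) (b (a (a (a (l 266455747527) (l 126869309831)) (l 16777360)) (l 16776528)) (c (l 16776616) (l 16776528))))) (a (c (c (l 16776032) (l 16775952)) (c (l 16775864) (l 16775768))) (c (l 16777432) (l 16777248))))))))), by decide +kernel⟩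

def k36_pm_011 : ∃ t, chk3 f_pm_011 t 72 246 1 = true :=
  ⟨(a (l 3) (b (l 3) (a (b (l 3) (a (b (l 3) (a (l 3) (b (l 3) (c (c (a (l 285783099767) (l 148881016647)) (a (l 289541196023) (l 149417887447))) (c (a (l 293836163175) (l 150491629143)) (a (l 295983646759) (l 16777544))))))) (c (a (a (b (l 3) (b (b (l 364703124567) (l 192904431991)) (l 16777480))) (b (b (l 3) (l 400136602983)) (c (l 16778152) (l 16778088)))) (b (a (b (l 3) (c (l 238538459351) (l 241759684695))) (b (l 375977411847) (l 87677733175))) (l 16777704))) (a (c (b (l 437717567431) (a (b (l 269140101175) (l 16777392)) (l 16777368))) (b (l 443623147303) (a (b (l 272361326503) (l 16777320)) (l 16777304)))) (b (b (a (l 3) (l 382419863815)) (c (c (l 175187691351) (l 180019529335)) (l 173040207703))) (l 16777576)))))) (b (b (a (l 3) (c (a (a (l 3) (c (l 358797542951) (l 363092510103))) (b (c (l 320679707895) (l 324437804135)) (c (l 16777664) (l 16777600)))) (c (a (l 384030475799) (b (l 327659029447) (l 16777528))) (a (l 389399184743)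 (b (l 330880254759) (l 16777456)))))) (b (b (a (l 3) (c (c (l 86067120023) (l 86067119975)) (c (l 88214603479) (l 89825216071)))) (c (a (c (l 377051154151) (l 382419863111)) (l 16778600)) (a (c (l 387251701159) (l 392083539207)) (l 16778464)))) (c (a (a (c (l 376514283015) (l 380809250167)) (c (l 132774889511) (l 134385502119))) (l 16778208)) (a (a (c (l 385104217303) (l 389399184439)) (c (l 135996114727) (l 137069856407))) (l 16778072))))) (c (a (b (a (b (c (c (l 156397209479) (l 157470951239)) (l 150491629623)) (l 16777264)) (l 16778272)) (l 16777488)) (c (l 16778192) (l 16778128))) (b (a (a (b (c (l 152102242231) (l 154249725735)) (l 16777136)) (l 16776824)) (l 16777256)) (c (l 16776792) (l 16776712)))))))), by decide +kernel⟩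

def k37_pm_011 : ∃ t, chk3 f_pm_011 t 144 494 1 = true :=
  ⟨(a (b (l 3) (a (b (l 3) (a (l 3) (b (l 3) (a (l 3) (b (l 3) (c (l 297057389271) (l 306184194519))))))) (b (a (l 3) (a (l 3) (b (l 3) (b (l 3) (c (l 236927846871) (l 243370297575)))))) (b (c (a (c (l 379198637511) (l 384030475591)) (a (b (l 253570845143) (l 16777616)) (l 16777488))) (a (c (l 389399184567) (l 394231022631)) (c (c (l 139754210759) (l 140827952519)) (l 133311759991)))) (a (a (c (c (l 210621171687) (l 214379267975)) (c (l 217600493351) (l 220821718711))) (c (l 68350379751) (l 16778064))) (c (l 16777120) (l 16777000))))))) (b (a (b (l 3) (a (l 3) (b (l 3) (c (c (a (l 430201374151) (l 250349619351)) (l 331953996839)) (c (l 336248964007) (l 340543931159)))))) (a (b (l 3) (c (b (a (l 391009798071) (b (l 312626645447) (l 134385502343))) (c (l 16777536) (l 16777480))) (b (c (a (l 399599731799) (l 233706620791)) (l 321753449159)) (c (l 16777416) (l 16777352))))) (c (b (b (l 3) (c (a (l 368461219079) (l 194515044343)) (a (l 371682444423)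 (l 196125656967)))) (c (l 16777248) (l 16777192))) (b (b (l 3) (c (a (l 375440540663) (l 197199398679)) (a (l 344838899911) (l 198810011287)))) (c (l 16777128) (l 16777056)))))) (c (c (b (a (a (b (l 345375769863) (l 109689440135)) (c (l 69960991799) (l 73719088119))) (l 16776464)) (a (l 16776544) (l 16775360))) (a (b (a (b (l 349670737031) (l 112373794583)) (c (l 16777776) (l 16777912))) (l 16776488)) (c (l 16776360) (l 16776496)))) (c (a (b (a (b (l 354502575095) (l 113984407207)) (l 66202895479)) (l 16776424)) (c (l 16776464) (l 16776432))) (a (b (a (b (l 358797542247) (l 116131890727)) (l 64592282775)) (l 16776360)) (c (l 16775744) (l 16775704))))))), by decide +kernel⟩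

def k38_pm_011 : ∃ t, chk3 f_pm_011 t 144 495 1 = true :=
  ⟨(a (b (b (c (b (c (a (a (l 415168988807) (a (l 232096008263) (l 16777584))) (l 16776896)) (a (a (l 420537697799) (a (l 235854104551) (l 16777536))) (l 16776840))) (a (a (c (a (l 253570844823) (l 16777944)) (a (l 258402682919) (l 16777568))) (l 16777200)) (l 16777640))) (a (a (b (a (l 3) (l 410337150631)) (c (a (l 262160779223) (l 16777512)) (a (l 265918875495) (l 16777448)))) (b (c (a (l 240149071735) (l 16777480)) (c (l 173040207447) (l 174113949207))) (l 16777088))) (c (l 16776512) (l 16776448)))) (a (c (c (l 16777360) (l 16776656)) (c (l 16776600) (l 16776536))) (c (l 16778120) (l 16776688)))) (a (b (c (l 16776888) (l 16776776)) (c (l 16777096) (l 16776976))) (c (l 16776456) (c (l 16776360) (l 16773672))))) (c (a (b (c (l 16777512) (l 16777456)) (l 16775264)) (b (l 16776296) (l 16774072))) (a (b (c (l 16777392) (l 16776016)) (l 16775128)) (b (l 16776160) (l 16773928))))), by decide +kernel⟩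

def k39_pm_011 : ∃ t, chk3 f_pm_011 t 145 247 1 = true :=
  ⟨(b (b (c (a (a (b (c (a (b (a (l 308868549063) (l 173577078615)) (l 16777456)) (l 16777160)) (a (b (a (l 311552903575) (l 174650820327)) (l 16777400)) (l 16777104))) (c (l 16776376) (l 16776320))) (c (l 16776568) (l 16776336))) (a (l 16777152) (l 16775960))) (c (a (a (b (a (b (a (l 316384741639) (l 175724562039)) (l 16777336)) (l 16777040)) (l 16776256)) (l 16776272)) (c (l 16776464) (l 16776424))) (a (a (b (a (b (a (l 320679708791) (l 176261432823)) (l 16777272)) (l 16776968)) (l 16776184)) (l 16776200)) (c (l 16776384) (l 16775032))))) (b (c (a (c (l 16777312) (l 16777248)) (l 16774896)) (a (c (l 16777176) (l 16777104)) (l 16774736))) (a (c (l 16776168) (l 16776032)) (c (l 16773784) (l 16773624))))) (b (a (c (l 16775816) (l 16775008)) (c (l 16769496) (l 16769328))) (c (l 16771080) (l 16770920)))), by decide +kernel⟩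

def k40_pm_011 : ∃ t, chk3 f_pm_011 t 146 492 1 = true :=
  ⟨(a (b (b (l 3) (b (l 3) (a (l 3) (a (l 3) (c (l 433959470839) (l 428590761383)))))) (b (b (a (l 3) (a (l 3) (c (c (a (l 276656294343) (l 16777808)) (l 209547430263)) (c (l 213842397383) (l 216526751799))))) (a (l 3) (a (c (c (a (l 301352356391) (l 164450273271)) (l 228874783159)) (c (l 232096008503) (l 234780362935))) (c (l 16777472) (l 16777328))))) (c (a (a (b (l 3) (c (a (l 381882992023) (l 223506073767)) (l 265382005367))) (b (c (a (l 325511547559) (l 190756947959)) (l 246054651831)) (l 16778208))) (c (l 16777016) (l 16776952))) (a (a (b (l 3) (c (l 269676972519) (l 273971939655))) (b (c (l 249812748727) (l 253570844967)) (l 16778720))) (c (l 16776880) (l 16776800)))))) (b (c (a (c (b (l 415168989927) (a (b (l 401747216103) (l 179482659175)) (b (l 161229048071) (l 16777424)))) (b (l 421074569783) (a (b (l 406042183223) (l 180556400871)) (b (l 162302789767) (l 16777352))))) (b (a (b (a (l 3) (l 287393713447)) (c (l 142975436951)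 (l 144049178631))) (c (l 80161540103) (l 79624669127))) (l 16777464))) (a (c (b (l 426980149639) (a (b (l 409800279431) (l 182167013463)) (c (l 111836923655) (l 112910665399)))) (b (l 433422600375) (a (b (l 413558375639) (l 183240755143)) (c (l 113447536231) (l 114521277975))))) (b (a (b (a (l 3) (l 291688680567)) (c (l 144586049399) (l 145659791063))) (c (l 81772152615) (l 82845894279))) (l 16777304)))) (a (c (c (c (l 16776416) (l 16776384)) (l 16776984)) (c (l 16776904) (l 16776824))) (c (l 16777808) (c (l 16775064) (l 16774976)))))), by decide +kernel⟩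

def k41_pm_011 : ∃ t, chk3 f_pm_011 t 146 493 1 = true :=
  ⟨(b (c (c (a (a (b (l 16778256) (l 16776032)) (l 16775400)) (l 16776240)) (a (b (a (l 16778352) (l 16775872)) (l 16777992)) (l 16776168))) (a (c (a (b (l 16778280) (l 16775896)) (l 16775248)) (a (b (l 16778208) (l 16775816)) (l 16775168))) (c (l 16776080) (l 16775992)))) (a (a (c (l 16776976) (l 16776824)) (c (l 16775784) (l 16775624))) (c (l 16774000) (l 16773816)))), by decide +kernel⟩

def k42_pm_011 : ∃ t, chk3 f_pm_011 t 147 246 1 = true :=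
  ⟨(c (a (b (b (a (b (l 16778024) (l 16775640)) (l 16777624)) (l 16776680)) (c (l 16775376) (l 16773976))) (b (b (l 16775840) (l 16776264)) (l 16772944))) (b (b (a (a (b (l 16777864) (l 16775472)) (l 16777448)) (c (l 16773080) (l 16772976))) (a (c (l 16775896) (l 16775792)) (l 16776064))) (a (c (l 16773880) (l 16770008)) (l 16772728)))), by decide +kernel⟩

def k43_pm_011 : ∃ t, chk3 f_pm_011 t 73 247 1 = true :=
  ⟨(b (a (a (b (c (l 16774168) (l 16774000)) (c (l 16774568) (l 16774392))) (c (l 16773288) (l 16773096))) (c (l 16767080) (l 16766856))) (a (c (l 16767408) (l 16767208)) (l 16763808))), by decide +kernel⟩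

def k44_pm_011 : ∃ t, chk3 f_pm_011 t 74 244 1 = true :=
  ⟨(a (b (l 3) (a (l 3) (b (l 3) (a (a (l 3) (b (l 3) (c (l 415705860391) (l 424295794535)))) (a (b (l 3) (c (b (l 373829928631) (c (l 169282111991) (l 168745240919))) (b (l 378124895495) (c (l 170892724215) (l 169818982199))))) (b (a (l 3) (c (l 368998091831) (l 374366800519))) (c (c (l 100562635159) (l 102710118551)) (c (l 103246989271) (l 103783859991))))))))) (b (a (l 3) (b (l 3) (a (a (l 3) (b (l 3) (c (b (l 393694152535) (c (l 191293819511) (l 202031237591))) (b (l 397452248455) (c (l 189683206423) (l 188072593495)))))) (c (a (b (l 394231023815) (c (l 117205633607) (l 117742504327))) (b (b (l 346449512071) (l 139217341623)) (l 16777424))) (b (a (l 400673474279) (b (l 348060124359) (l 137069857575))) (c (l 83382765799) (l 84456507399))))))) (a (b (a (a (l 3) (b (l 3) (c (c (l 353965705127) (l 357186930391)) (c (l 360408155639) (l 363092509959))))) (a (b (l 3) (b (c (c (l 263771393095) (l 265918876551)) (c (l 267529489095) (l 268603230711)))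 (c (l 16777864) (l 16777672)))) (c (b (c (l 323364062935) (l 326048417287)) (l 16777616)) (b (c (l 328732771623) (l 330880255047)) (l 16777416))))) (c (a (a (b (b (l 330880256791) (l 120426859351)) (l 16777272)) (c (l 16778584) (l 16777176))) (c (l 16776424) (l 16776328))) (a (b (a (b (l 296520519399) (l 117205633671)) (l 64592284151)) (l 16776800)) (l 16777480)))) (c (b (a (a (b (a (b (l 280414391639) (l 16777888)) (l 91435830167)) (l 16777080)) (l 16777032)) (l 16778792)) (l 16777240)) (b (a (a (b (c (l 147270404535) (l 147807275239)) (l 16776872)) (l 16778136)) (l 16778576)) (c (l 16774456) (l 16774336))))))), by decide +kernel⟩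

def k45_pm_011 : ∃ t, chk3 f_pm_011 t 74 245 1 = true :=
  ⟨(a (b (a (b (b (l 3) (b (a (l 3) (a (l 3) (a (c (l 309942291495) (l 307794807879)) (c (l 169818983271) (l 167671499287))))) (a (l 3) (c (a (c (l 259476425687) (l 262160780071)) (l 16777728)) (a (c (l 264845134455) (l 266992617911)) (l 16777552)))))) (c (a (b (a (c (l 367924348871) (l 371682445063)) (b (c (l 280951262215) (l 283635616599)) (l 93583313495))) (c (l 66739766647) (l 61371057687))) (c (c (l 16776832) (l 16776792)) (l 16777712))) (a (b (a (c (l 375977412151) (l 379735508311)) (b (c (l 286856841879) (l 289541196247)) (l 90898958759))) (c (l 16777904) (l 16777808))) (c (l 16777944) (l 16777848))))) (c (b (a (b (a (b (l 3) (c (l 219747977959) (l 222432332295))) (a (b (l 250349620439) (l 16777760)) (l 16778400))) (l 16778496)) (c (l 16776616) (l 16776528))) (c (l 16777688) (l 16777592))) (b (a (b (a (b (l 3) (c (l 224042944871) (l 226190428279))) (c (l 130090535191) (l 131164276823))) (l 16778312)) (c (l 16776432) (l 16776328)))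 (c (l 16777496) (l 16774760))))) (a (b (c (c (l 16776240) (l 16776480)) (c (l 16776384) (l 16776280))) (c (l 16775656) (l 16775456))) (b (c (l 16775464) (l 16775248)) (c (l 16775896) (l 16775672))))) (a (a (c (b (b (l 16778032) (l 16773240)) (l 16775200)) (b (b (l 16775208) (l 16773024)) (l 16774968))) (c (b (l 16776912) (l 16774008)) (b (c (l 16775600) (l 16775480)) (l 16773760)))) (c (b (c (l 16776656) (l 16776544)) (l 16772216)) (b (c (l 16776424) (l 16773672)) (l 16771952))))), by decide +kernel⟩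

def k46_pm_011 : ∃ t, chk3 f_pm_011 t 75 122 1 = true :=
  ⟨(b (a (b (a (a (b (b (l 3) (c (a (b (l 3) (l 291151810647)) (b (l 269676974055) (l 16777976))) (a (b (l 3) (l 293836164871)) (b (l 272361328231) (l 16777768))))) (c (c (c (l 16778488) (l 16777136)) (l 52781122215)) (c (l 49023025943) (l 16778144)))) (b (c (b (a (b (l 3) (l 248202137479)) (c (l 157470952471) (l 158544694071))) (l 16778808)) (b (a (b (l 3) (l 250349620727)) (c (l 159081564727) (l 159081564503))) (l 16778592))) (c (l 16775968) (l 16775736)))) (c (b (c (l 16777040) (l 16776936)) (l 16776832)) (b (c (l 16777472) (l 16777352)) (l 16776584)))) (c (a (b (l 16777040) (l 16777496)) (l 16776208)) (a (b (l 16776800) (l 16772000)) (l 16775936)))) (c (b (a (c (l 16778232) (l 16778104)) (l 16775800)) (l 16773952)) (a (b (c (l 16775352) (l 16775208)) (l 16773536)) (b (l 16775504) (l 16771120))))) (b (a (a (b (l 16775192) (l 16772992)) (l 16773008)) (c (l 16768256) (l 16762680))) (a (c (l 16768632) (l 16768328)) (l 16766296)))), by decide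 +kernel⟩

def k47_pm_011 : ∃ t, chk3 f_pm_011 t 37 123 1 = true :=
  ⟨(a (b (b (c (a (a (l 16774976) (l 16767344)) (l 16769000)) (a (a (a (l 16775360) (l 16774160)) (l 16767104)) (l 16768728))) (a (c (l 16769352) (l 16770416)) (l 16764416))) (a (c (l 16762664) (l 16762392)) (l 16758352))) (c (b (a (l 16761984) (l 16762424)) (l 16755864)) (b (a (l 16761656) (l 16762040)) (l 16755488)))), by decide +kernel⟩

def k48_pm_011 : ∃ t, chk3 f_pm_011 t 38 120 1 = true :=
  ⟨(a (l 3) (b (a (l 3) (b (l 3) (a (l 3) (b (l 3) (c (a (l 434496344119) (b (l 376514284359) (c (l 175187693479) (l 174113951287)))) (a (l 428053892343) (b (l 377588025399) (c (l 173040209079) (l 171429595927))))))))) (a (b (a (l 3) (b (l 3) (a (l 3) (a (l 3) (b (l 3) (c (l 251423363575) (l 250886491959))))))) (a (b (a (l 3) (b (l 3) (c (l 371682446023) (l 374903673399)))) (b (b (a (l 3) (c (a (l 323364063431) (l 16777072)) (c (l 222432333111) (l 221895461847)))) (a (c (l 387788573191) (l 388862314327)) (c (l 16778288) (l 16777992))))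 (c (a (a (l 262697652759) (l 124721827207)) (l 16777720)) (a (a (l 263771393943) (l 119889988423)) (l 16777416))))) (b (a (a (b (l 3) (c (l 183240757191) (l 180019530999))) (c (b (l 306184194135) (l 16778200)) (b (l 287393714295) (l 16777896)))) (c (c (l 78550928567) (l 78550928263)) (c (l 78014057047) (l 79087798359)))) (c (l 16776600) (l 16778896))))) (a (b (b (a (l 3) (b (l 3) (c (a (l 326585288951) (l 170892726039)) (a (l 323900933703) (l 165524016167))))) (c (a (b (a (l 364703123895) (l 217600495591)) (l 87677734247)) (l 16777736)) (a (b (a (l 363092510439) (l 214916140487)) (l 84456508071)) (l 16777408)))) (c (c (l 16776744) (l 16775272)) (c (l 16775104) (l 16774912)))) (a (b (b (b (c (a (l 272898200215) (l 134922374599)) (a (l 271287586775) (l 128479922871))) (c (l 16778056) (l 16777720))) (c (l 16776688) (l 16776344))) (c (l 16773632) (l 16773256))) (b (c (l 16777880) (l 16777528)) (l 16777520))))))), by decide +kernel⟩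

def k49_pm_011 : ∃ t, chk3 f_pm_011 t 76 242 1 = true :=
  ⟨(a (b (l 3) (a (b (l 3) (a (l 3) (b (c (l 416779602935) (l 423222053255)) (c (a (b (l 3) (l 217600495431)) (c (l 136532986839) (l 135459244791))) (a (b (l 3) (l 215989882103)) (c (l 135459244375) (l 133848631383))))))) (b (a (b (l 3) (c (l 391009800199) (a (l 3) (l 366850606711)))) (a (b (l 3) (c (c (l 211158044231) (l 211158044023)) (c (l 212231785527) (l 212768656103)))) (c (b (l 329806514167) (l 16778056)) (b (l 330880258039) (l 16777784))))) (c (a (b (a (b (l 356650063303) (l 161229049303)) (l 98415152519)) (l 16777536)) (l 16776952)) (a (b (a (a (l 284172488711) (l 191830691287)) (l 95730797447)) (l 16777272)) (l 16776672)))))) (b (a (b (l 3) (a (a (l 3) (b (l 3) (b (l 3) (c (l 214916140711) (l 210621172935))))) (c (b (a (l 422148311511) (b (l 340007061687) (l 155860340231))) (c (l 100562635831) (l 100562635495))) (b (a (l 397989119815) (b (l 333027739847) (l 147807276007))) (c (l 99488893383) (l 16778400)))))) (b (a (b (l 3) (c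 (a (l 356650060007) (c (l 195588787863) (l 195051916599))) (a (l 357186930279) (c (l 193441303575) (l 191830690487))))) (c (b (a (l 320142837799) (l 156934082391)) (l 16777920)) (b (a (l 320142837191) (l 154249727111)) (l 16777632)))) (c (c (c (l 16777160) (l 16777088)) (l 16777640)) (c (l 16778152) (l 16777992))))) (c (a (b (a (b (c (l 123111214519) (l 123111214263)) (l 16777328)) (l 16776728)) (l 16775248)) (l 16777904)) (a (b (a (b (c (l 124184955703) (l 123648084471)) (l 16777048)) (l 16776440)) (l 16774944)) (c (l 16773736) (l 16773560)))))), by decide +kernel⟩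

def k50_pm_011 : ∃ t, chk3 f_pm_011 t 76 243 1 = true :=
  ⟨(a (b (c (a (b (a (b (a (b (l 3) (l 263234523239)) (c (l 168745241863) (l 168745241559))) (l 16777736)) (l 16777168)) (l 16778312)) (c (l 16777104) (l 16776968))) (a (b (a (b (a (b (l 3) (l 262697651863)) (c (l 167671499495) (l 166597757415))) (l 16777488)) (l 16778216)) (l 16778040)) (c (l 16776824) (l 16776664)))) (a (c (l 16777744) (c (l 16777528) (l 16772128))) (c (l 16775376) (l 16775056)))) (c (b (c (l 16776208) (l 16776056)) (l 16771824)) (b (a (l 16776984) (l 16769352)) (l 16771448)))), by decide +kernel⟩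

def k51_pm_011 : ∃ t, chk3 f_pm_011 t 77 121 1 = true :=
  ⟨(b (b (c (a (a (b (l 16778144) (l 16774792)) (l 16778760)) (l 16775240)) (a (a (b (l 16777832) (l 16774464)) (l 16778408)) (l 16774840))) (c (a (l 16775696) (l 16776216)) (a (c (l 16775416) (l 16775216)) (l 16770528)))) (a (a (b (l 16772400) (l 16773296)) (b (l 16770016) (l 16770904))) (c (l 16769736) (l 16769248)))), by decide +kernel⟩

def k52_pm_011 : ∃ t, chk3 f_pm_011 t 39 60 1 = true :=
  ⟨(b (a (b (a (b (a (l 3) (b (l 3) (a (b (l 3) (c (a (l 400136604215) (l 217063624935)) (a (l 359871285031) (l 212768656727)))) (c (b (a (l 319605967255) (l 169282113335)) (l 16778336)) (b (a (l 306721066759) (l 161765919671)) (l 16777976)))))) (b (a (a (b (l 3) (c (l 343228287575) (l 343765160343))) (b (a (l 3) (c (l 254644589111) (l 251423362759))) (c (l 117742505735) (l 113984408599)))) (c (c (l 16777664) (l 16777496)) (c (l 16777312) (l 16777112)))) (b (a (a (c (c (l 148344147463) (l 146733534423)) (c (l 145659792119) (l 143512308039))) (c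 (l 16777744) (l 16777392))) (l 16778592)) (a (c (l 16777352) (l 16776992)) (l 16780200))))) (c (b (a (b (b (a (l 422685183127) (c (l 172503338967) (l 170892725767))) (a (c (l 211158045015) (l 211158044567)) (l 16778152))) (l 16777352)) (c (l 16776248) (l 16776056))) (l 16778488)) (b (a (b (b (a (l 397452249399) (c (l 168208370775) (l 166060886599))) (a (c (l 210621173175) (l 209547430919)) (l 16777776))) (l 16776968)) (c (l 16775848) (l 16775632))) (c (l 16778168) (l 16777936))))) (a (c (b (c (l 16779064) (l 16776912)) (l 16774784)) (b (a (l 16777120) (l 16772152)) (l 16774344))) (b (a (l 16775272) (l 16772912)) (l 16775080)))) (b (b (a (c (l 16778000) (l 16777528)) (l 16775728)) (c (l 16776760) (c (l 16776352) (l 16776056)))) (a (a (l 16773664) (l 16771296)) (l 16767744)))) (b (a (c (a (l 16773632) (l 16768912)) (a (l 16771832) (l 16768344))) (c (l 16761824) (l 16761136))) (a (a (l 16764712) (l 16759928)) (l 16757984)))), by decide +kernel⟩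

def k53_pm_011 : ∃ t, chk3 f_pm_011 t 19 61 1 = true :=
  ⟨(a (b (a (b (b (a (c (l 16772232) (l 16771896)) (l 16769904)) (a (a (l 16768896) (l 16771736)) (l 16768136))) (a (c (l 16766512) (l 16766112)) (l 16761496))) (b (a (c (l 16765760) (l 16765288)) (l 16760728)) (c (l 16754528) (l 16753984)))) (a (b (a (l 16757400) (l 16752560)) (l 16745960)) (a (l 16741880) (l 16735704)))) (b (a (b (c (l 16753824) (l 16753192)) (l 16744600)) (b (l 16754376) (l 16745408))) (a (l 16732336) (l 16731752)))), by decide +kernel⟩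

def k54_pm_011 : ∃ t, chk3 f_pm_011 t 9 31 1 = true :=
  ⟨(b (a (a (b (a (b (a (b (a (b (c (c (l 16774856) (l 16774792)) (c (l 16772112) (l 16772040))) (c (l 16772592) (l 16772456))) (c (l 16771320) (l 16771168))) (c (l 16768688) (l 16768536))) (b (c (l 16769040) (l 16768864)) (l 16765432))) (a (b (a (l 16767272) (l 16764864)) (l 16761536)) (c (l 16759064) (l 16758880)))) (b (c (a (l 16763296) (l 16758480)) (a (l 16763080) (l 16758232))) (c (l 16754448) (l 16754216)))) (a (b (b (c (l 16754648) (l 16754480)) (l 16755456)) (c (l 16749344) (l 16748888))) (b (c (l 16748104) (l 16747696)) (l 16739464)))) (a (b (b (c (l 16753864) (l 16753560)) (l 16747224)) (c (l 16739424) (l 16738840))) (b (b (l 16746608) (l 16737456)) (l 16729200)))) (a (b (a (b (l 16736848) (l 16738128)) (l 16725056)) (b (l 16723888) (l 16715144))) (b (a (l 16723064) (l 16713192)) (l 16699248)))) (a (b (a (a (b (l 16740688) (l 16732304)) (b (l 16731072) (l 16722728))) (a (l 16722424) (l 16717808))) (a (b (a (l 16723968) (l 16724912))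 (c (l 16722064) (l 16720760))) (a (l 16711120) (l 16701336)))) (a (b (a (l 16707824) (l 16697688)) (l 16686400)) (b (l 16682208) (l 16665984))))), by decide +kernel⟩

def k55_pm_011 : ∃ t, chk3 f_pm_011 t 10 28 1 = true :=
  ⟨(a (l 3) (b (l 3) (a (b (l 3) (a (l 3) (b (l 3) (a (b (l 3) (a (l 3) (b (l 3) (c (l 227264176407) (a (l 343765169511) (l 176261426791)))))) (c (b (a (l 388325447847) (b (l 305110454887) (l 137606731751))) (a (b (l 186998856887) (l 16779808)) (l 16779008))) (b (a (l 385641091319) (b (l 294373035111) (l 111300050359))) (a (b (a (l 293836175719) (l 16779560)) (l 16779008)) (l 16778144)))))))) (b (a (b (l 3) (a (l 3) (a (l 3) (a (l 3) (b (l 3) (c (l 305647326135) (l 294909906199))))))) (b (a (l 3) (c (b (l 3) (a (l 354502579943) (b (l 258402686887) (l 16775656)))) (b (l 3) (a (l 346449514151) (b (l 242296558375) (l 16780032)))))) (b (a (a (l 3) (b (l 345912654439) (a (l 308868562263) (a (l 181630142439) (l 16780384))))) (a (b (c (l 126869305287) (l 170355843959)) (l 16779952))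 (l 16779208))) (a (b (a (c (l 240149077575) (l 226190432183)) (l 16780104)) (c (l 16777576) (l 16779272))) (l 16777272))))) (a (b (c (a (b (l 3) (a (b (l 3) (l 261087040359)) (b (l 215989886935) (l 16780256)))) (b (a (b (l 338396451783) (l 165524019911)) (l 96267671319)) (l 16778840))) (a (b (l 3) (a (b (l 3) (l 248739008295)) (b (a (l 327122161303) (l 16775832)) (l 16779432)))) (b (a (a (l 285783105911) (b (l 302426109671) (l 16779768))) (l 81235280279)) (l 16777888)))) (a (b (a (c (l 16779976) (l 118816242007)) (l 16778072)) (l 16775848)) (l 16784016))) (b (a (b (l 16783080) (l 16774648)) (l 16772312)) (l 16777720))))))), by decide +kernel⟩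

def k56_pm_011 : ∃ t, chk3 f_pm_011 t 20 58 1 = true :=
  ⟨(a (l 3) (b (a (l 3) (b (l 3) (a (l 3) (c (b (l 3) (a (l 397452253399) (b (l 320679710887) (a (l 181093275575) (l 16779624))))) (b (l 3) (a (b (l 3) (l 363629382823)) (b (a (l 3) (l 262697651159)) (a (l 168208371847) (l 16778960))))))))) (a (b (a (l 3) (b (l 3) (a (l 3) (b (l 3) (a (l 3) (c (l 266455748359) (l 257328941911))))))) (a (c (b (a (l 3) (l 420000832327)) (a (b (l 3) (a (l 335712095911) (l 180019533687))) (b (a (l 284172488183) (l 132774892471)) (l 16778752)))) (b (a (l 3) (l 423222056279)) (a (b (l 3) (a (l 329806514663) (c (l 174113951799) (l 169818983655)))) (b (a (b (l 3) (l 177335171831)) (l 123111214487)) (l 16778160))))) (c (b (a (b (l 360945029479) (a (l 226190432855) (l 16776760))) (b (a (l 167671502535) (l 16779240)) (l 16778304))) (l 16779400)) (b (a (b (a (l 3) (l 311552903687)) (a (b (l 354502576647) (l 169818978567)) (l 16778800))) (b (a (l 157470953511) (l 16778632)) (l 16777656))) (l 16778736))))) (b (a (b (a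 (l 3) (b (l 3) (a (c (l 299204874023) (l 289004325511)) (c (l 151028503767) (l 125258693767))))) (c (a (b (a (l 400136605735) (l 211158046871)) (l 93583315863)) (l 16778576)) (a (b (a (l 350744480471) (l 201494368983)) (l 86603992359)) (l 16777904)))) (a (b (a (b (c (l 242296560519) (l 232632882327)) (l 16779056)) (c (l 16779288) (l 16778624))) (l 16781592)) (c (l 16779048) (l 16780912)))) (a (b (c (l 16776240) (l 16775528)) (l 16782648)) (l 16780152)))))), by decide +kernel⟩

def k57_pm_011 : ∃ t, chk3 f_pm_011 t 40 118 1 = true :=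
  ⟨(a (b (l 3) (a (b (l 3) (a (l 3) (b (l 3) (a (l 3) (b (l 3) (c (l 242833430023) (l 236390977927))))))) (b (a (l 3) (b (l 3) (c (a (l 354502577751) (b (l 275582555127) (l 154786594455))) (a (l 352355092983) (b (l 266455749271) (l 16776984)))))) (b (a (a (l 3) (b (c (l 396378508487) (l 344302028999)) (c (l 169818985063) (l 160155307399)))) (a (c (l 104320733527) (l 97878281383)) (l 16780560))) (b (a (a (c (l 211694916679) (l 204715593559)) (a (l 16778664) (l 16778320))) (l 16777160)) (c (l 16777536) (l 16779648))))))) (b (a (b (l 3) (a (l 3) (c (b (l 381882995223) (a (b (l 391546670391) (l 166597759239)) (l 102710120695))) (b (a (l 3) (l 343765158391)) (a (b (l 334101481735) (l 137069854215)) (l 94657055671)))))) (b (a (b (l 3) (a (l 3) (b (l 3) (c (l 234243494327) (l 222432333383))))) (c (b (a (l 420537700519) (b (l 381882994087) (l 137606725655))) (a (l 141901698119) (l 16778768))) (b (a (l 388325444519) (a (l 278266907031) (l 180019531703))) (c (l 105394474503) (l 102710119191))))) (b (a (c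 (a (c (l 190220080759) (l 187535725543)) (l 16778952)) (a (c (l 184314499367) (l 181093273079)) (l 16778416))) (l 16782648)) (c (l 16776952) (l 16776368))))) (a (b (a (b (a (b (l 3) (c (l 241222817223) (l 233169752183))) (c (c (l 148344148743) (l 145659793511)) (c (l 142438567399) (l 139217341175)))) (c (l 16778400) (l 16777880))) (c (l 16777344) (l 16776784))) (c (l 16779936) (l 16779344))) (b (c (l 16774160) (l 16773528)) (l 16780376))))), by decide +kernel⟩

def k58_pm_011 : ∃ t, chk3 f_pm_011 t 40 119 1 = true :=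
  ⟨(a (b (b (a (a (b (a (l 3) (c (l 357186932215) (l 356650062871))) (c (a (b (l 353965706295) (l 167134630407)) (l 101099507991)) (a (b (l 348060125303) (l 159081565607)) (l 96267668695)))) (a (b (c (b (l 273971943271) (l 16777616)) (b (l 269140103911) (l 144586046775))) (c (l 16777952) (l 16777472))) (c (l 16777832) (l 16777352)))) (c (l 16780456) (l 16778608))) (c (a (c (l 16777160) (l 16776928)) (l 16771248)) (a (c (l 16776680) (l 16776408)) (l 16770656)))) (c (a (l 16777576) (l 16775576)) (a (c (l 16779776) (l 16774224)) (l 16774912)))) (a (b (b (l 16775672) (l 16776824)) (l 16770584)) (b (l 16774248) (l 16765912)))), by decide +kernel⟩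

def k59_pm_011 : ∃ t, chk3 f_pm_011 t 41 59 1 = true :=
  ⟨(b (a (c (b (a (a (a (b (l 59223577047) (l 16775248)) (l 16777352)) (l 16779680)) (l 16781632)) (l 16775928)) (b (a (b (a (c (l 16777816) (l 16777504)) (l 16775648)) (l 16772944)) (l 16780880)) (l 16776424))) (b (a (l 16776760) (l 16772232)) (l 16766376))) (a (b (a (l 16769616) (l 16764984)) (l 16758904)) (c (l 16764920) (l 16763744)))), by decide +kernel⟩

def k60_pm_011 : ∃ t, chk3 f_pm_011 t 21 29 1 = true :=
  ⟨(b (a (b (a (b (a (l 3) (b (a (l 3) (b (l 3) (c (l 323900936599) (l 308868549543)))) (c (a (b (l 366850609991) (a (l 246591526087) (l 16777384))) (b (l 143512312023) (l 16779256))) (a (b (l 359871286487) (a (l 232632881383) (l 16779336))) (b (a (l 154249722839) (l 16779240)) (l 16778488)))))) (b (a (a (b (l 3) (a (l 352355104599) (c (l 219747981303) (l 206863077975)))) (c (b (a (l 301889228903) (l 138680466711)) (l 16779616)) (b (b (l 273971940279) (l 171429597351)) (l 16778912)))) (c (l 16777960) (l 16777160))) (a (a (b (c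 (l 103783863399) (l 94120184999)) (l 16778232)) (l 16782432)) (l 16784632)))) (b (a (b (a (b (c (l 273971941783) (b (l 323900935111) (l 216526754439))) (c (l 98415149575) (l 144049172631))) (c (l 16779448) (l 16778648))) (c (l 16777432) (l 16776568))) (c (l 16775200) (l 16774240))) (c (l 16780552) (l 16779512)))) (a (b (a (c (l 16783800) (l 16782944)) (l 16779016)) (c (l 16773952) (l 16772904))) (b (l 16772376) (l 16774968)))) (a (b (b (c (l 16779456) (l 16778280)) (l 16771304)) (l 16770048)) (b (l 16776904) (l 16761232)))) (b (a (a (a (l 16768872) (l 16769584)) (l 16762816)) (a (l 16753848) (l 16744976))) (a (a (l 16755160) (l 16746056)) (l 16743048)))), by decide +kernel⟩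

def k61_pm_011 : ∃ t, chk3 f_pm_011 t 11 28 1 = true :=
  ⟨(a (b (a (b (l 3) (a (c (b (l 3) (a (l 417853363543) (b (a (l 3) (l 285246232071)) (a (b (l 342691419751) (l 163913396535)) (l 16780928))))) (b (l 3) (a (b (l 3) (l 389936059655)) (b (a (l 3) (b (l 3) (l 282025016999))) (a (b (l 322290344663) (l 16777632)) (l 16779912)))))) (b (a (b (l 3) (a (l 359871298919) (c (l 214379276503) (b (l 336785838311) (l 16776512))))) (c (b (a (l 289541199575) (b (l 274508824775) (l 16781440))) (l 16775608)) (b (a (l 276119424919) (c (l 170355840807) (l 163376520519))) (l 16779704)))) (a (a (b (b (a (l 259476439431) (l 156934079687)) (l 16780648)) (l 16779208)) (c (l 16779528) (l 16778344))) (l 16776416))))) (b (a (b (a (l 3) (a (l 3) (b (l 3) (c (l 219747985335) (l 203104984087))))) (a (b (a (l 3) (b (l 3) (l 298668021559))) (b (a (l 278266909879) (l 149417885799)) (c (l 152102233959) (l 139754206087)))) (b (a (a (b (l 324437818871) (l 16781240)) (l 144049176503)) (l 16780800)) (l 16779392)))) (b (a (b (a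 (b (l 3) (l 298131156231)) (c (l 122037467559) (l 167134616567))) (c (l 16776328) (l 16780328))) (c (l 16780248) (l 16778816))) (c (l 16776560) (l 16774984)))) (a (b (c (l 16782920) (a (l 16778000) (l 16774424))) (l 16781160)) (l 16783136)))) (a (b (a (b (a (b (a (c (l 277193173431) (a (l 322827193815) (l 225653561895))) (c (l 125795572599) (c (l 103246986071) (l 155860328567)))) (c (l 16779960) (l 16778912))) (c (l 16778168) (l 16776984))) (c (l 16773744) (l 16782936))) (c (l 16779688) (l 16783392))) (a (c (l 16784144) (l 16782592)) (l 16774920))) (b (a (l 16781200) (l 16772992)) (l 16767608)))) (b (b (a (a (c (l 16793360) (l 16791488)) (l 16784784)) (l 16773232)) (a (c (l 16776336) (l 16773832)) (l 16759480))) (a (b (l 16760864) (l 16746056)) (c (l 16739816) (l 16735792))))), by decide +kernel⟩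

def k62_pm_011 : ∃ t, chk3 f_pm_011 t 11 29 1 = true :=
  ⟨(a (b (a (b (a (l 16768248) (l 16759688)) (l 16748200)) (b (l 16747064) (l 16731240))) (b (a (l 16731880) (l 16714840)) (a (l 16714920) (l 16697784)))) (b (a (a (l 16726888) (l 16718872)) (l 16707208)) (a (l 16710880) (l 16674176)))), by decide +kernel⟩

def k63_pm_011 : ∃ t, chk3 f_pm_011 t 5 15 1 = true :=
  ⟨(a (b (a (b (a (b (b (a (a (l 16771544) (l 16766832)) (a (l 16762128) (l 16767904))) (a (c (l 16761016) (l 16760240)) (l 16761656))) (a (b (l 16757200) (l 16753648)) (c (l 16749000) (l 16747984)))) (b (b (a (l 16760856) (l 16751520)) (l 16747504)) (a (l 16738968) (l 16729488)))) (a (b (a (l 16740240) (l 16730576)) (a (l 16721976) (l 16712200))) (b (b (l 16720704) (l 16711528)) (l 16697560)))) (b (a (b (a (l 16737896) (l 16728704)) (l 16725928)) (b (l 16715104) (l 16697048))) (a (b (l 16697072) (l 16678224)) (b (l 16678456) (l 16638352))))) (a (a (b (b (l 16693104) (l 16679192)) (b (l 16661032) (l 16644960))) (b (b (l 16678536)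 (l 16659088)) (l 16646904))) (b (a (l 16654296) (l 16629656)) (b (l 16629880) (l 16609792))))) (b (a (b (b (a (l 16697328) (l 16659096)) (a (l 16679120) (l 16640728))) (b (a (l 16660312) (l 16621744)) (l 16663352))) (b (a (l 16654256) (l 16638344)) (a (b (l 16604808) (l 16585008)) (l 16599728)))) (b (a (a (l 16631768) (l 16571576)) (a (l 16543624) (l 16558440))) (a (l 16586224) (a (l 16510824) (l 16483160)))))), by decide +kernel⟩

def k64_pm_011 : ∃ t, chk3 f_pm_011 t 6 12 1 = true :=
  ⟨(a (b (l 3) (a (l 3) (b (l 3) (a (l 3) (b (l 3) (a (b (l 3) (l 350207655575)) (b (a (l 3) (b (l 1) (l 169282101335))) (a (c (l 146196669927) (l 163376513191)) (l 16785696))))))))) (b (l 1) (a (a (b (l 1) (b (l 1) (b (l 1) (l 16781320)))) (l 1)) (l 1)))), by decide +kernel⟩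

def k65_pm_011 : ∃ t, chk3 f_pm_011 t 6 13 1 = true :=
  ⟨(a (b (a (b (l 3) (a (b (l 3) (a (l 3) (b (l 3) (a (b (l 3) (l 273435078599)) (b (c (l 290078096791) (l 271287613111)) (l 141364823111)))))) (b (a (b (l 3) (a (l 3) (b (l 3) (l 236390988759)))) (b (a (l 3) (b (l 246591534823) (l 160155297959))) (a (a (c (l 125258690919) (l 170892707767)) (l 16778920)) (l 16783488)))) (a (b (a (b (l 290078071335) (a (l 292225574055) (l 16783760))) (c (l 16774232) (l 16777688))) (c (l 16783224) (l 16781096))) (c (l 16780440) (l 16777872)))))) (b (a (b (a (l 3) (b (l 3) (a (l 3) (b (l 254644596311) (l 168745229623))))) (a (b (a (l 3) (l 298668016295)) (a (b (l 3) (l 258939585527)) (c (l 141364814983) (l 16775912)))) (b (a (b (l 266992649383) (l 16784872)) (l 16784688)) (l 16782968)))) (b (a (a (b (b (l 3) (l 271824487879)) (l 16780000)) (c (l 69424129591) (l 114521272487))) (l 16782832)) (a (l 16780120) (l 16774496)))) (a (b (a (b (c (l 16784776) (l 16782552)) (l 16780240)) (l 16776880)) (l 16790944)) (b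 (l 16767672) (l 16757008))))) (a (b (a (b (a (b (a (l 3) (b (l 3) (a (l 317458510535) (l 164450268023)))) (a (b (a (l 3) (l 266455775815)) (c (l 159081555351) (l 16775776))) (c (l 16783512) (l 16781752)))) (b (a (c (l 98952029607) (l 144586039175)) (l 16781968)) (l 16779184))) (a (c (l 16778992) (l 16787304)) (l 16771376))) (b (c (l 16794728) (l 16791816)) (l 16781936))) (a (b (l 16784080) (l 16771440)) (c (l 16765584) (l 16761248)))) (b (a (c (l 16776240) (l 16771880)) (l 16740024)) (a (l 16749768) (l 16715976))))) (a (b (b (a (b (l 16775016) (l 16765440)) (l 16761256)) (a (l 16749864) (l 16742144))) (b (a (l 16727736) (l 16716456)) (l 16740896))) (b (b (l 1) (l 16746576)) (b (l 16723192) (l 16691064))))), by decide +kernel⟩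

def k66_pm_011 : ∃ t, chk3 f_pm_011 t 7 6 1 = true :=
  ⟨(b (l 1) (a (b (l 1) (a (l 25803358071) (l 1))) (l 1))), by decide +kernel⟩

def k67_pm_011 : ∃ t, chk3 f_pm_011 t 3 7 1 = true :=
  ⟨(a (b (a (b (a (b (a (c (l 16753456) (l 16749232)) (l 16737096)) (a (l 16722904) (l 16687832))) (b (a (l 16702704) (l 16690256)) (l 16710456))) (a (b (a (l 16692344) (l 16657408)) (a (l 16638320) (l 16624400))) (b (l 16680352) (l 16626552)))) (b (a (b (l 16694928) (l 16646896)) (b (l 16648408) (l 16619752))) (a (b (l 16617472) (l 16585176)) (b (l 16590808) (l 16558840))))) (a (b (a (b (l 16658184) (l 16619208)) (b (l 16590568) (l 16551384))) (a (b (l 16577376) (b (l 16502264) (l 16479328))) (b (l 16509096) (l 16484784)))) (b (a (b (l 16549552) (l 16510544)) (b (l 16523400) (l 16484416))) (a (b (l 16468216) (l 16443632)) (b (l 16441944) (l 16396048)))))) (b (a (b (a (l 16660536) (l 16701336)) (a (l 16566016) (l 16608016))) (b (l 1) (a (l 16668856) (l 1)))) (a (b (a (l 16490272) (l 16462728)) (a (b (l 16406400)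 (l 16359936)) (l 16410536))) (b (a (l 16552128) (l 16626880)) (a (l 16377784) (l 16483616)))))), by decide +kernel⟩

theorem s68_pm_011 : ∃ t, chk3 f_pm_011 t 6 6 1 = true := ex3_b k64_pm_011 k65_pm_011

theorem s69_pm_011 : ∃ t, chk3 f_pm_011 t 3 6 1 = true := ex3_a s68_pm_011 k66_pm_011

theorem s70_pm_011 : ∃ t, chk3 f_pm_011 t 3 3 1 = true := ex3_b s69_pm_011 k67_pm_011

theorem s71_pm_011 : ∃ t, chk3 f_pm_011 t 11 14 1 = true := ex3_b k61_pm_011 k62_pm_011

theorem s72_pm_011 : ∃ t, chk3 f_pm_011 t 40 59 1 = true := ex3_b k57_pm_011 k58_pm_011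

theorem s73_pm_011 : ∃ t, chk3 f_pm_011 t 20 59 1 = true := ex3_a s72_pm_011 k59_pm_011

theorem s74_pm_011 : ∃ t, chk3 f_pm_011 t 20 29 1 = true := ex3_b k56_pm_011 s73_pm_011

theorem s75_pm_011 : ∃ t, chk3 f_pm_011 t 10 29 1 = true := ex3_a s74_pm_011 k60_pm_011

theorem s76_pm_011 : ∃ t, chk3 f_pm_011 t 10 14 1 = true := ex3_b k55_pm_011 s75_pm_011

theorem s77_pm_011 : ∃ t, chk3 f_pm_011 t 5 14 1 = true := ex3_a s76_pm_011 s71_pm_011

theorem s78_pm_011 : ∃ t, chk3 f_pm_011 t 5 7 1 = true := ex3_b s77_pm_011 k63_pm_011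

theorem s79_pm_011 : ∃ t, chk3 f_pm_011 t 76 121 1 = true := ex3_b k49_pm_011 k50_pm_011

theorem s80_pm_011 : ∃ t, chk3 f_pm_011 t 38 121 1 = true := ex3_a s79_pm_011 k51_pm_011

theorem s81_pm_011 : ∃ t, chk3 f_pm_011 t 38 60 1 = true := ex3_b k48_pm_011 s80_pm_011

theorem s82_pm_011 : ∃ t, chk3 f_pm_011 t 19 60 1 = true := ex3_a s81_pm_011 k52_pm_011

theorem s83_pm_011 : ∃ t, chk3 f_pm_011 t 19 30 1 = true := ex3_b s82_pm_011 k53_pm_011

theorem s84_pm_011 : ∃ t, chk3 f_pm_011 t 74 122 1 = true := ex3_b k44_pm_011 k45_pm_011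

theorem s85_pm_011 : ∃ t, chk3 f_pm_011 t 37 122 1 = true := ex3_a s84_pm_011 k46_pm_011

theorem s86_pm_011 : ∃ t, chk3 f_pm_011 t 37 61 1 = true := ex3_b s85_pm_011 k47_pm_011

theorem s87_pm_011 : ∃ t, chk3 f_pm_011 t 146 246 1 = true := ex3_b k40_pm_011 k41_pm_011

theorem s88_pm_011 : ∃ t, chk3 f_pm_011 t 73 246 1 = true := ex3_a s87_pm_011 k42_pm_011

theorem s89_pm_011 : ∃ t, chk3 f_pm_011 t 73 123 1 = true := ex3_b s88_pm_011 k43_pm_011

theorem s90_pm_011 : ∃ t, chk3 f_pm_011 t 144 247 1 = true := ex3_b k37_pm_011 k38_pm_011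

theorem s91_pm_011 : ∃ t, chk3 f_pm_011 t 72 247 1 = true := ex3_a s90_pm_011 k39_pm_011

theorem s92_pm_011 : ∃ t, chk3 f_pm_011 t 72 123 1 = true := ex3_b k36_pm_011 s91_pm_011

theorem s93_pm_011 : ∃ t, chk3 f_pm_011 t 36 123 1 = true := ex3_a s92_pm_011 s89_pm_011

theorem s94_pm_011 : ∃ t, chk3 f_pm_011 t 36 61 1 = true := ex3_b k35_pm_011 s93_pm_011

theorem s95_pm_011 : ∃ t, chk3 f_pm_011 t 18 61 1 = true := ex3_a s94_pm_011 s86_pm_011

theorem s96_pm_011 : ∃ t, chk3 f_pm_011 t 18 30 1 = true := ex3_b k34_pm_011 s95_pm_011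

theorem s97_pm_011 : ∃ t, chk3 f_pm_011 t 9 30 1 = true := ex3_a s96_pm_011 s83_pm_011

theorem s98_pm_011 : ∃ t, chk3 f_pm_011 t 9 15 1 = true := ex3_b s97_pm_011 k54_pm_011

theorem s99_pm_011 : ∃ t, chk3 f_pm_011 t 142 248 1 = true := ex3_b k28_pm_011 k29_pm_011

theorem s100_pm_011 : ∃ t, chk3 f_pm_011 t 71 248 1 = true := ex3_a s99_pm_011 k30_pm_011

theorem s101_pm_011 : ∃ t, chk3 f_pm_011 t 71 124 1 = true := ex3_b s100_pm_011 k31_pm_011

theorem s102_pm_011 : ∃ t, chk3 f_pm_011 t 282 498 1 = true := ex3_b k24_pm_011 k25_pm_011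

theorem s103_pm_011 : ∃ t, chk3 f_pm_011 t 141 498 1 = true := ex3_a s102_pm_011 k26_pm_011

theorem s104_pm_011 : ∃ t, chk3 f_pm_011 t 141 249 1 = true := ex3_b s103_pm_011 k27_pm_011

theorem s105_pm_011 : ∃ t, chk3 f_pm_011 t 280 499 1 = true := ex3_b k21_pm_011 k22_pm_011

theorem s106_pm_011 : ∃ t, chk3 f_pm_011 t 140 499 1 = true := ex3_a s105_pm_011 k23_pm_011

theorem s107_pm_011 : ∃ t, chk3 f_pm_011 t 140 249 1 = true := ex3_b k20_pm_011 s106_pm_011

theorem s108_pm_011 : ∃ t, chk3 f_pm_011 t 70 249 1 = true := ex3_a s107_pm_011 s104_pm_011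

theorem s109_pm_011 : ∃ t, chk3 f_pm_011 t 141 248 1 = true := ex3_b k18_pm_011 k19_pm_011

theorem s110_pm_011 : ∃ t, chk3 f_pm_011 t 70 248 1 = true := ex3_a k17_pm_011 s109_pm_011

theorem s111_pm_011 : ∃ t, chk3 f_pm_011 t 70 124 1 = true := ex3_b s110_pm_011 s108_pm_011

theorem s112_pm_011 : ∃ t, chk3 f_pm_011 t 35 124 1 = true := ex3_a s111_pm_011 s101_pm_011

theorem s113_pm_011 : ∃ t, chk3 f_pm_011 t 35 62 1 = true := ex3_b s112_pm_011 k32_pm_011

theorem s114_pm_011 : ∃ t, chk3 f_pm_011 t 278 500 1 = true := ex3_b k12_pm_011 k13_pm_011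

theorem s115_pm_011 : ∃ t, chk3 f_pm_011 t 139 500 1 = true := ex3_a s114_pm_011 k14_pm_011

theorem s116_pm_011 : ∃ t, chk3 f_pm_011 t 139 250 1 = true := ex3_b s115_pm_011 k15_pm_011

theorem s117_pm_011 : ∃ t, chk3 f_pm_011 t 277 1001 1 = true := ex3_a k9_pm_011 k10_pm_011

theorem s118_pm_011 : ∃ t, chk3 f_pm_011 t 277 500 1 = true := ex3_b k8_pm_011 s117_pm_011

theorem s119_pm_011 : ∃ t, chk3 f_pm_011 t 138 500 1 = true := ex3_a k7_pm_011 s118_pm_011

theorem s120_pm_011 : ∃ t, chk3 f_pm_011 t 138 250 1 = true := ex3_b s119_pm_011 k11_pm_011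

theorem s121_pm_011 : ∃ t, chk3 f_pm_011 t 69 250 1 = true := ex3_a s120_pm_011 s116_pm_011

theorem s122_pm_011 : ∃ t, chk3 f_pm_011 t 69 125 1 = true := ex3_b s121_pm_011 k16_pm_011

theorem s123_pm_011 : ∃ t, chk3 f_pm_011 t 34 125 1 = true := ex3_a k6_pm_011 s122_pm_011

theorem s124_pm_011 : ∃ t, chk3 f_pm_011 t 34 62 1 = true := ex3_b k5_pm_011 s123_pm_011

theorem s125_pm_011 : ∃ t, chk3 f_pm_011 t 17 62 1 = true := ex3_a s124_pm_011 s113_pm_011

theorem s126_pm_011 : ∃ t, chk3 f_pm_011 t 17 31 1 = true := ex3_b s125_pm_011 k33_pm_011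

theorem s127_pm_011 : ∃ t, chk3 f_pm_011 t 8 31 1 = true := ex3_a k4_pm_011 s126_pm_011

theorem s128_pm_011 : ∃ t, chk3 f_pm_011 t 8 15 1 = true := ex3_b k3_pm_011 s127_pm_011

theorem s129_pm_011 : ∃ t, chk3 f_pm_011 t 4 15 1 = true := ex3_a s128_pm_011 s98_pm_011

theorem s130_pm_011 : ∃ t, chk3 f_pm_011 t 4 7 1 = true := ex3_b k2_pm_011 s129_pm_011

theorem s131_pm_011 : ∃ t, chk3 f_pm_011 t 2 7 1 = true := ex3_a s130_pm_011 s78_pm_011

theorem s132_pm_011 : ∃ t, chk3 f_pm_011 t 2 3 1 = true := ex3_b k1_pm_011 s131_pm_011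

theorem s133_pm_011 : ∃ t, chk3 f_pm_011 t 1 3 1 = true := ex3_a s132_pm_011 s70_pm_011

theorem s134_pm_011 : ∃ t, chk3 f_pm_011 t 1 1 1 = true := ex3_b k0_pm_011 s133_pm_011

theorem c_pm_011 : CertN 0 536870912 536870912 536870912 402653184 67108864 3 true true false .pnn 0 1 1
    ndN0q0 ndN4q1 pcN1 cut_pm_011 Ext.none :=
  certN1 (fam := true) (s1 := true) (s2 := false) (a := 0) (b := 1) (c := 1) (cn := .pnn) (n1 := ndN0q0) (n2 := ndN4q1) (pc := pcN1) (cut := cut_pm_011) (xt := Ext.none) (P1 := 0) (W1 := 536870912) (P2 := 536870912) (W2 := 536870912) (P3 := 402653184) (W3 := 67108864) (N0 := 3)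
    rfl (fun _ => rfl) s134_pm_011

noncomputable def cut_pm_012 : Cut := Cut.of [[⟨0, 0, 0, 67108864⟩, ⟨1, 1, 0, 67108864⟩, ⟨2, 1, 0, 67108864⟩]]

noncomputable def f_pm_012 : ℕ → ℕ → ℕ → ℕ → Bool := onCell 1073741824 536870912 536870912 536870912 402653184 67108864
    (rowN 3 2 true true false .pnp 0 1 2 (qsf 0 536870912 536870912 536870912 2) ndN0q0 ndN4q1 pcN2 cut_pm_012 Ext.none)

def k0_pm_012 : ∃ t, chk3 f_pm_012 t 2 2 1 = true :=
  ⟨(a (b (a (b (a (b (a (l 16414360) (l 16459392)) (a (l 16292848) (l 16344744))) (b (l 16535256) (l 16422144))) (a (b (l 16319224) (l 16366640)) (b (l 16294136) (l 16288608)))) (b (a (b (l 2) (l 16540656)) (l 2)) (a (b (l 16421040) (l 16283896)) (b (l 16554168) (l 16429304))))) (a (b (a (b (l 16432888) (a (l 16419344) (l 16401096))) (b (l 16330176) (l 16369976))) (a (b (a (l 16447808) (l 16431920)) (a (l 16514456) (l 16453008))) (b (l 16487608) (a (l 16435464) (l 16420752))))) (b (a (b (l 16292736) (l 16329400)) (b (l 16284536) (l 16291224))) (a (b (l 16364544)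 (l 16456400)) (b (l 16323704) (l 16354816)))))) (b (a (b (l 2) (a (l 16631760) (l 2))) (l 2)) (a (b (a (b (l 16445120) (l 16294128)) (b (l 16598904) (l 16466832))) (a (l 16340976) (l 16306632))) (b (a (l 16686768) (l 2)) (a (l 16416816) (l 16593800)))))), by decide +kernel⟩

def k1_pm_012 : ∃ t, chk3 f_pm_012 t 8 3 1 = true :=
  ⟨(b (a (b (b (a (l 16537392) (l 16470216)) (a (b (l 16537104) (l 16552224)) (l 16534504))) (a (a (b (l 16585984) (l 16632184)) (b (l 16546408) (l 16622184))) (b (l 16582704) (b (l 16563640) (l 16600712))))) (b (b (a (l 16448240) (l 16429936)) (a (l 16464440) (l 16439616))) (b (a (l 16528344) (l 16455912)) (a (b (l 16505904) (l 16519968)) (l 16519472))))) (b (a (a (b (b (l 16648832) (c (l 16668000) (l 16665800))) (a (b (l 16685984) (c (l 16704928) (l 16703704))) (b (l 16663176) (l 16675736)))) (b (b (l 16579176) (a (l 16623664) (l 16581496))) (b (a (l 16640864) (l 16619040)) (a (l 16641072) (l 16635712))))) (b (a (b (l 16555752) (l 16591960)) (b (l 16496424) (l 16510008)))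 (a (b (l 16628528) (c (l 16630768) (l 16621016))) (b (l 16545032) (l 16559504))))) (a (b (a (a (b (a (c (l 16723768) (l 16722968)) (l 16711344)) (l 6)) (b (b (l 16694320) (l 16692712)) (b (l 16702880) (l 6)))) (b (a (b (l 16671064) (l 16658720)) (c (l 16653944) (l 16650880))) (a (b (l 16668656) (b (l 16694784) (l 6))) (b (l 16665008) (l 16673384))))) (a (l 6) (b (a (l 6) (b (c (l 16662040) (l 16659504)) (l 6))) (l 6)))) (b (b (a (a (l 16629576) (l 16586048)) (a (l 16564032) (l 16542528))) (a (a (a (l 16651680) (l 16619032)) (l 16622736)) (b (l 16585328) (l 16592800)))) (b (a (b (a (l 16637072) (l 16613608)) (a (l 16666192) (l 16621528))) (a (b (l 16590640) (l 16598304)) (l 16592800))) (a (a (l 6) (b (l 16629448) (l 6))) (b (a (l 16605992) (l 16582976)) (a (l 16613696) (l 16590432))))))))), by decide +kernel⟩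

def k2_pm_012 : ∃ t, chk3 f_pm_012 t 9 3 1 = true :=
  ⟨(b (b (a (b (a (l 16414992) (l 16402664)) (l 16492456)) (b (l 16440776) (l 16466920))) (a (b (a (l 16428208) (l 16403576)) (a (l 16465504) (l 16414024))) (b (l 16416760) (a (l 16387592) (l 16365520))))) (b (a (a (b (l 16528592) (b (l 16483968) (l 16496888))) (b (l 16451200) (b (l 16445368) (l 16456584)))) (b (a (l 16398568) (l 16371080)) (b (l 16436536) (l 16507608)))) (b (a (a (b (l 16531240) (l 16544896)) (b (l 16468392) (l 16480736))) (b (a (l 16429664) (l 16394520)) (a (l 16440432) (l 16403624)))) (a (a (b (a (l 16549192) (l 16526568)) (b (l 16569344) (l 16576440))) (b (l 16514384) (b (l 16503128) (l 16509680)))) (a (b (l 16451776) (l 16484464)) (b (l 16413392) (l 16423752))))))), by decide +kernel⟩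

def k3_pm_012 : ∃ t, chk3 f_pm_012 t 5 3 1 = true :=
  ⟨(b (a (a (a (b (b (l 16352536) (l 16367248)) (b (l 16356000) (l 16348016))) (b (b (l 16331496) (a (l 16359016) (l 16473384))) (a (l 16342984) (b (l 16449048) (l 16437224))))) (b (l 16417744) (b (l 16334264) (l 16322712)))) (b (a (l 16273392) (l 16268200)) (b (a (l 16306016) (l 16267584)) (a (l 16304896) (l 16282576))))) (a (b (a (a (b (l 16348160) (l 16355016)) (a (b (l 16334288) (l 16337672)) (b (l 16454056) (a (l 16330872) (l 16328136))))) (b (l 16307064) (l 16322416))) (a (a (b (l 16409120) (b (l 16379048) (l 16387816))) (a (b (l 16346760) (l 16381200)) (a (b (l 16338544) (l 16350600)) (b (l 16377032) (a (l 16347440) (l 16345784)))))) (b (b (l 16301864) (l 16303896)) (b (l 16307152) (l 16332440))))) (b (b (a (l 16284168) (l 16271112)) (a (l 16261784) (l 16241888))) (b (a (l 16292088) (l 16212800)) (a (b (l 16246456) (l 16245944)) (b (l 16198904) (l 16192296))))))), by decide +kernel⟩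

def k4_pm_012 : ∃ t, chk3 f_pm_012 t 3 1 1 = true :=
  ⟨(b (a (b (l 2) (a (b (l 2) (a (l 16750400) (l 2))) (l 2))) (l 2)) (a (b (a (b (a (l 16476456) (l 16660008)) (b (l 16313344) (l 16227384))) (b (a (l 16816552) (l 2)) (a (b (l 16621560) (l 16455912)) (b (l 16793320) (l 16660008))))) (a (b (b (a (l 16255248) (l 16225920)) (a (l 16233160) (l 16224144))) (b (a (l 16196088) (l 16191248)) (a (l 16160344) (l 16146968)))) (b (a (b (l 16264624) (l 16203152)) (b (l 16496544) (l 16309360))) (a (b (l 16189312) (l 16166680)) (b (l 16187448) (l 16162224)))))) (b (a (b (l 2) (a (l 16888320) (l 2))) (l 2)) (a (b (a (b (l 16703496) (l 16545056)) (b (l 16872352) (l 16749216))) (a (b (l 16365608) (l 16180032)) (b (l 16597408) (l 16427576)))) (b (a (l 16963016) (l 2)) (a (b (l 16795552) (l 16651320)) (b (l 16931752) (l 16811056)))))))), by decide +kernel⟩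

theorem s5_pm_012 : ∃ t, chk3 f_pm_012 t 4 3 1 = true := ex3_a k1_pm_012 k2_pm_012

theorem s6_pm_012 : ∃ t, chk3 f_pm_012 t 2 3 1 = true := ex3_a s5_pm_012 k3_pm_012

theorem s7_pm_012 : ∃ t, chk3 f_pm_012 t 2 1 1 = true := ex3_b k0_pm_012 s6_pm_012

theorem s8_pm_012 : ∃ t, chk3 f_pm_012 t 1 1 1 = true := ex3_a s7_pm_012 k4_pm_012

theorem c_pm_012 : CertN 0 536870912 536870912 536870912 402653184 67108864 3 true true false .pnp 0 1 2
    ndN0q0 ndN4q1 pcN2 cut_pm_012 Ext.none :=
  certN2 (fam := true) (s1 := true) (s2 := false) (a := 0) (b := 1) (c := 2) (cn := .pnp) (n1 := ndN0q0) (n2 := ndN4q1) (pc := pcN2) (cut := cut_pm_012) (xt := Ext.none) (P1 := 0) (W1 := 536870912) (P2 := 536870912) (W2 := 536870912) (P3 := 402653184) (W3 := 67108864) (N0 := 3)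
    rfl (fun _ => rfl) s8_pm_012

noncomputable def cut_pm_022 : Cut := Cut.of [[⟨0, 0, 0, 67108864⟩, ⟨1, 1, 0, 67108864⟩, ⟨2, 1, 0, 67108864⟩]]

noncomputable def f_pm_022 : ℕ → ℕ → ℕ → ℕ → Bool := onCell 1073741824 536870912 1073741824 536870912 402653184 67108864
    (rowN 3 2 true true false .pp 0 2 2 (qsf 0 536870912 1073741824 536870912 2) ndN0q0 ndN4q2 pcN2 cut_pm_022 Ext.none)

def k0_pm_022 : ∃ t, chk3 f_pm_022 t 4 1 1 = true :=
  ⟨(b (a (b (b (a (b (l 6) (b (l 6) (l 1))) (b (a (l 6) (a (l 6) (a (l 6) (b (l 16595192) (l 16629232))))) (a (b (l 6) (b (l 6) (l 1))) (a (b (l 6) (b (l 6) (l 265784431111))) (b (l 16647448) (b (l 16636840) (l 189011857879))))))) (a (l 1) (b (a (l 1) (b (a (l 1) (l 311955326343)) (l 1))) (l 1)))) (l 1)) (b (b (a (b (a (b (a (l 16598504) (l 16554040)) (a (l 16611448) (l 16587768))) (b (a (l 16530824) (l 16508272)) (l 16594864))) (b (a (c (l 16612728) (l 16610520)) (l 16564640)) (a (a (l 16635448) (l 16611064)) (l 16575624)))) (a (b (b (l 16475808) (l 16508872))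 (a (l 16536472) (l 16514944))) (b (b (l 16435248) (l 16447024)) (b (l 16458088) (l 16489400))))) (a (b (a (a (b (b (l 16672672) (l 265784425943)) (l 1)) (b (c (l 100428114023) (l 16649496)) (b (l 263636867799) (l 1)))) (a (b (l 16581784) (b (l 16619192) (l 272226770167))) (b (l 16553912) (a (l 16625120) (l 16569352))))) (a (l 1) (a (l 1) (l 331819366375)))) (a (a (b (l 16589296) (b (l 201896582471) (l 1))) (b (l 16534536) (b (l 16556928) (l 280279743351)))) (b (l 16524512) (a (b (l 16512904) (l 276521595815)) (l 75731830919)))))) (a (l 1) (b (b (a (l 1) (b (l 353831014407) (l 1))) (l 1)) (l 1))))) (l 1)), by decide +kernel⟩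

def k1_pm_022 : ∃ t, chk3 f_pm_022 t 5 1 1 = true :=
  ⟨(b (b (a (b (a (a (b (b (l 16398496) (l 16410072)) (l 16510008)) (b (a (l 16379896) (a (l 16369792) (a (l 16366448) (l 16364696)))) (a (l 16401648) (b (l 16490032) (l 16458512))))) (b (b (l 16319752) (l 16330688)) (b (l 16341248) (l 16351296)))) (a (a (b (l 16466000) (l 16502880)) (a (b (l 16420576) (l 16436592)) (a (b (l 16410888) (l 16427200)) (b (l 16428232) (l 16466008))))) (b (l 16469896) (l 16464896)))) (a (b (b (b (l 16250560) (l 16259184)) (l 16313832)) (b (l 16308400) (l 16321784))) (b (b (l 16236800) (l 16205672)) (b (l 16216640) (l 16226256))))) (b (a (a (a (b (b (l 16543688) (l 282427172887)) (l 1)) (b (a (l 16491440) (a (l 16440488) (l 16437912))) (a (l 1) (l 139619522119)))) (b (a (l 16436528) (l 16373024)) (l 73047378215))) (b (a (a (l 16331616) (l 16291456)) (l 16233720)) (a (l 16339640) (l 16238056)))) (a (a (l 1) (b (l 324839722951) (l 1))) (a (b (l 16406448) (l 163241695367)) (b (l 16238952) (l 16317840)))))) (a (l 1)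 (b (b (a (l 1) (b (l 258804449223) (l 1))) (l 1)) (l 1)))), by decide +kernel⟩

def k2_pm_022 : ∃ t, chk3 f_pm_022 t 3 1 1 = true :=
  ⟨(b (a (b (a (b (b (a (l 16148024) (l 16117720)) (a (l 16150648) (l 16109632))) (b (a (l 16154600) (l 16104552)) (l 16275704))) (b (a (b (l 16109576) (l 16085688)) (b (l 16124928) (l 16094848))) (a (b (l 16069040) (l 16055920)) (l 16109336)))) (a (b (b (l 16254920) (a (l 16163120) (l 16094768))) (b (l 16207208) (l 16240232))) (b (b (l 16172472) (l 16158136)) (a (l 16078528) (l 15961824))))) (a (b (b (a (b (l 16161360) (l 16129920)) (b (l 16287880) (l 16232400))) (a (l 16088872) (l 16106832))) (b (a (l 15987168) (l 15998216)) (a (l 15946744) (l 15907728)))) (b (b (a (b (l 16559984) (l 16521176)) (b (l 16714448) (l 16682352))) (a (b (l 16450344) (l 16365840)) (b (l 16643696) (l 16584152)))) (b (a (l 16255000) (l 16485568)) (a (l 16168776) (l 16397264)))))) (a (b (a (b (b (a (l 16259968) (l 16111200)) (a (l 197064398327) (l 16211248))) (b (a (l 1) (l 16289304)) (l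 1))) (b (a (b (l 16011184) (l 16077408)) (l 16002776)) (b (l 16266024) (l 175589491463)))) (a (l 1) (b (a (l 1) (l 258267739207)) (l 1)))) (a (b (b (a (l 15897072) (l 15919752)) (a (l 16018960) (l 16027528))) (b (a (l 16294624) (l 16217384)) (l 279742591303))) (b (b (a (l 16161800) (l 16373552)) (a (l 16228040) (l 16410792))) (b (b (l 16406296) (l 16482584)) (b (l 16552832) (l 16612968))))))), by decide +kernel⟩

theorem s3_pm_022 : ∃ t, chk3 f_pm_022 t 2 1 1 = true := ex3_a k0_pm_022 k1_pm_022

theorem s4_pm_022 : ∃ t, chk3 f_pm_022 t 1 1 1 = true := ex3_a s3_pm_022 k2_pm_022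

theorem c_pm_022 : CertN 0 536870912 1073741824 536870912 402653184 67108864 3 true true false .pp 0 2 2
    ndN0q0 ndN4q2 pcN2 cut_pm_022 Ext.none :=
  certN2 (fam := true) (s1 := true) (s2 := false) (a := 0) (b := 2) (c := 2) (cn := .pp) (n1 := ndN0q0) (n2 := ndN4q2) (pc := pcN2) (cut := cut_pm_022) (xt := Ext.none) (P1 := 0) (W1 := 536870912) (P2 := 1073741824) (W2 := 536870912) (P3 := 402653184) (W3 := 67108864) (N0 := 3)
    rfl (fun _ => rfl) s4_pm_022

noncomputable def f_pm_023 : ℕ → ℕ → ℕ → ℕ → Bool := onCell 0 536870912 1073741824 536870912 402653184 67108864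
    (rowN 3 0 true true false .up 0 2 3 (qsf 0 536870912 1073741824 536870912 3) ndN0q0 ndN4q2 pcN3 Cut.none Ext.none)

def k0_pm_023 : ∃ t, chk3 f_pm_023 t 1 1 1 = true :=
  ⟨(a (b (b (l 1) (a (l 1) (a (l 1) (b (l 1) (l 16038392))))) (b (a (b (l 1) (l 202433357831)) (b (l 218539156711) (a (l 16609080) (l 16814216)))) (a (b (l 250214982919) (a (l 16827056) (l 16947688))) (b (a (l 16877424) (l 16991816)) (l 17064848))))) (b (a (b (a (l 1) (b (l 1) (l 220149385591))) (b (a (l 175588713255) (l 16418312)) (a (l 16449608) (l 16749184)))) (b (a (b (l 239476634215) (l 262562208231)) (b (l 289405947831) (l 16787632))) (a (b (l 16753368) (l 16960968)) (b (l 16990368) (l 17104952))))) (b (a (b (a (l 16769808) (l 16951760)) (l 17019800)) (a (l 17112944) (l 17168376))) (a (b (l 17098432) (l 17127104)) (a (l 17140728) (b (a (l 17152288) (l 17147176)) (a (l 17122120) (b (l 17116664) (a (l 17093728) (l 17080160)))))))))), by decide +kernel⟩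

theorem c_pm_023 : CertN 0 536870912 1073741824 536870912 402653184 67108864 3 true true false .up 0 2 3
    ndN0q0 ndN4q2 pcN3 Cut.none Ext.none :=
  certN0 (fam := true) (s1 := true) (s2 := false) (a := 0) (b := 2) (c := 3) (cn := .up) (n1 := ndN0q0) (n2 := ndN4q2) (pc := pcN3) (cut := Cut.none) (xt := Ext.none) (P1 := 0) (W1 := 536870912) (P2 := 1073741824) (W2 := 536870912) (P3 := 402653184) (W3 := 67108864) (N0 := 3)
    rfl k0_pm_023

noncomputable def f_pm_033 : ℕ → ℕ → ℕ → ℕ → Bool := onCell 1610612736 536870912 0 1230186008 402653184 67108864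
    (rowN 3 2 true true false .pnn 0 3 3 (qsf 0 536870912 0 1230186008 3) ndN0q0 ndN4q3 pcN3 Cut.none Ext.none)

def k0_pm_033 : ∃ t, chk3 f_pm_033 t 1 1 1 = true :=
  ⟨(a (b (l 1) (b (a (l 1) (b (l 1) (b (l 1) (l 425773548919)))) (b (a (l 1) (b (l 388729363607) (l 17130328))) (a (b (l 337189494055) (a (l 16942784) (l 17025704))) (b (l 17113912) (a (l 17084408) (l 17118280))))))) (b (b (a (l 1) (l 4)) (a (l 1) (a (b (l 17160040) (l 17135024)) (a (l 17094712) (l 4))))) (a (b (b (a (l 1) (b (l 17211384) (l 17189800))) (a (l 17200680) (l 17154904))) (b (b (l 17144368) (l 17132160)) (b (l 17126824) (l 17356848)))) (b (a (b (a (l 17135208) (l 17098016)) (a (l 17115608) (l 17086808))) (a (b (l 17061904) (l 17059528)) (b (l 17044168) (b (l 17099248) (l 17035976))))) (a (b (l 17093480) (b (l 17093344) (l 17103688))) (b (a (l 17062320) (a (l 17042624) (l 17031328))) (a (b (l 17067416) (l 17085008)) (a (l 17150096) (l 17051320))))))))), by decide +kernel⟩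

theorem c_pm_033 : CertN 0 536870912 0 1230186008 402653184 67108864 3 true true false .pnn 0 3 3
    ndN0q0 ndN4q3 pcN3 Cut.none Ext.none :=
  certN2 (fam := true) (s1 := true) (s2 := false) (a := 0) (b := 3) (c := 3) (cn := .pnn) (n1 := ndN0q0) (n2 := ndN4q3) (pc := pcN3) (cut := Cut.none) (xt := Ext.none) (P1 := 0) (W1 := 536870912) (P2 := 0) (W2 := 1230186008) (P3 := 402653184) (W3 := 67108864) (N0 := 3)
    rfl (fun _ => rfl) k0_pm_033

noncomputable def f_pm_101 : ℕ → ℕ → ℕ → ℕ → Bool := onCell 536870912 536870912 536870912 536870912 402653184 67108864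
    (rowN 3 1 true true false .npn 1 0 1 (qsf 536870912 536870912 0 536870912 1) ndN0q1 ndN4q0 pcN1 Cut.none Ext.none)

def k0_pm_101 : ∃ t, chk3 f_pm_101 t 2 4 1 = true :=
  ⟨(a (b (a (l 3) (a (a (l 3) (l 1)) (l 1))) (a (a (b (l 3) (b (l 3) (a (l 3) (b (l 3) (a (l 3) (b (l 3) (l 477446069479))))))) (b (b (l 3) (a (l 3) (b (l 3) (a (l 3) (b (l 3) (l 472614230679)))))) (b (a (b (l 3) (a (l 3) (b (l 3) (l 472077360055)))) (b (a (b (l 3) (l 472614230823)) (b (l 458118709815) (l 442012576503))) (a (b (l 457581838983) (l 442012576519)) (l 16794864)))) (a (b (a (b (l 3) (l 475298585687)) (b (l 457044968103) (l 441475705543))) (a (b (l 459192451735) (l 439328231319)) (l 16794624))) (b (a (l 16794800) (l 16789184)) (l 16807096)))))) (b (a (b (a (a (l 3) (b (l 3) (a (l 3) (l 475298584471)))) (b (l 1) (a (l 385506914935) (l 1)))) (a (b (a (b (l 3) (l 472077359623)) (b (l 458118709575) (l 442549447255))) (a (b (l 458118709703) (l 442549447351)) (l 16794848))) (a (b (l 16794688) (l 16789312)) (l 16849360))))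 (l 250752592647)) (a (b (a (a (b (l 16794872) (l 16789296)) (l 16828512)) (l 16778360)) (l 16781648)) (l 16798336))))) (a (b (l 1) (a (b (l 1) (l 16825712)) (l 1))) (l 1))), by decide +kernel⟩

def k1_pm_101 : ∃ t, chk3 f_pm_101 t 2 5 1 = true :=
  ⟨(a (a (b (b (a (b (a (b (l 3) (a (l 3) (b (l 3) (a (l 495699684263) (l 471003614679))))) (b (a (b (l 3) (a (l 3) (l 471540485783))) (b (a (l 471540485831) (l 444160067655)) (l 440938844343))) (a (b (a (l 472077356615) (l 16800224)) (l 16803752)) (l 16793896)))) (a (b (a (b (a (l 3) (l 495699684231)) (a (l 493552200471) (l 465634905207))) (b (a (l 466171776311) (l 16799984)) (l 16798152))) (a (b (a (l 461876808583) (l 16799680)) (l 16797792)) (l 16792744))) (b (a (l 16793352) (l 16786960)) (l 16782504)))) (b (a (b (a (l 16794312) (l 16788464)) (l 16784832)) (l 16778352)) (l 16783768))) (a (b (a (b (a (l 16792168) (l 16784944)) (l 16780200)) (l 16781696)) (l 16786256)) (l 16800368))) (a (b (l 16801568) (l 16821024)) (b (l 16821392) (l 16841280)))) (b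 (b (a (l 16798520) (l 16819424)) (a (l 16820608) (l 16841200))) (b (l 16852232) (l 16872832)))) (a (b (a (l 16852624) (l 16878928)) (a (l 16894704) (l 16915840))) (b (l 16932688) (l 16953848)))), by decide +kernel⟩

def k2_pm_101 : ∃ t, chk3 f_pm_101 t 2 3 1 = true :=
  ⟨(b (a (b (a (b (a (l 16837264) (l 16858480)) (l 16859344)) (a (l 16888488) (l 16911640))) (a (a (l 16848088) (l 16875920)) (a (l 16904440) (l 16933384)))) (b (a (l 16947712) (l 16992768)) (a (l 16977608) (l 17034536)))) (a (a (b (a (b (l 16816288) (l 16767648)) (l 16836056)) (b (a (l 16687704) (l 16747712)) (a (l 16566144) (l 16645112)))) (b (b (l 16908256) (l 16881736)) (b (l 16832928) (a (l 16719808) (l 16789232))))) (b (a (a (l 16957280) (l 16996504)) (l 17053800)) (a (b (l 16938424) (l 16883920)) (b (l 17036616) (l 17000456)))))), by decide +kernel⟩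

def k3_pm_101 : ∃ t, chk3 f_pm_101 t 3 1 1 = true :=
  ⟨(b (a (b (l 1) (a (b (l 1) (l 17023008)) (l 1))) (l 1)) (b (a (a (b (l 17043064) (l 17085120)) (b (l 17265680) (a (l 17117152) (l 17144856)))) (a (b (l 1) (l 17434840)) (l 1))) (a (b (a (l 17125672) (l 17190424)) (a (b (l 17128880) (l 17108640)) (a (l 17195128) (l 17248184)))) (b (a (l 17309688) (l 17438304)) (a (l 17318528) (l 17430328)))))), by decide +kernel⟩

theorem s4_pm_101 : ∃ t, chk3 f_pm_101 t 2 2 1 = true := ex3_b k0_pm_101 k1_pm_101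

theorem s5_pm_101 : ∃ t, chk3 f_pm_101 t 2 1 1 = true := ex3_b s4_pm_101 k2_pm_101

theorem s6_pm_101 : ∃ t, chk3 f_pm_101 t 1 1 1 = true := ex3_a s5_pm_101 k3_pm_101

theorem c_pm_101 : CertN 536870912 536870912 0 536870912 402653184 67108864 3 true true false .npn 1 0 1
    ndN0q1 ndN4q0 pcN1 Cut.none Ext.none :=
  certN1 (fam := true) (s1 := true) (s2 := false) (a := 1) (b := 0) (c := 1) (cn := .npn) (n1 := ndN0q1) (n2 := ndN4q0) (pc := pcN1) (cut := Cut.none) (xt := Ext.none) (P1 := 536870912) (W1 := 536870912) (P2 := 0) (W2 := 536870912) (P3 := 402653184) (W3 := 67108864) (N0 := 3)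
    rfl (fun _ => rfl) s6_pm_101

noncomputable def f_pm_102 : ℕ → ℕ → ℕ → ℕ → Bool := onCell 536870912 536870912 1073741824 536870912 402653184 67108864
    (rowN 3 1 true true false .npp 1 0 2 (qsf 536870912 536870912 0 536870912 2) ndN0q1 ndN4q0 pcN2 Cut.none Ext.none)

def k0_pm_102 : ∃ t, chk3 f_pm_102 t 1 1 1 = true :=
  ⟨(a (b (a (b (a (b (a (b (l 16486896) (l 16479008)) (b (l 16585448) (l 16584520))) (a (l 2) (b (l 16593016) (l 2)))) (b (a (b (l 16676792) (l 16680976)) (b (l 16760832) (l 16768608))) (a (l 16701200) (l 16792720)))) (b (a (l 2) (a (l 2) (l 16842584))) (l 2))) (b (a (b (a (l 16841448) (l 16914568)) (a (l 16875048) (l 16950344))) (b (b (l 17010032) (l 17024168)) (l 17052952))) (a (b (a (l 16925720) (l 17000592)) (l 174047832999)) (b (l 17100976) (l 17153304))))) (a (l 2) (b (b (a (l 2) (l 17204952)) (l 2)) (l 2)))) (b (a (b (b (a (a (l 17110416) (l 17169272)) (b (l 17248472) (l 17257368))) (a (a (l 17145224) (l 17199776)) (l 17275200))) (a (b (l 17213320) (l 17256272)) (b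 (l 17302616) (l 17332104)))) (b (a (b (l 17351712) (l 17360400)) (b (l 17446488) (l 17440592))) (a (b (l 17372400) (l 17385912)) (b (l 17429768) (l 17426080))))) (b (b (a (a (l 17297592) (l 17360680)) (l 17647040)) (a (a (l 17334520) (l 17384784)) (l 17627864))) (a (b (a (l 2) (l 17403528)) (l 2)) (b (l 234178201895) (a (l 17410728) (l 17385544))))))), by decide +kernel⟩

theorem c_pm_102 : CertN 536870912 536870912 0 536870912 402653184 67108864 3 true true false .npp 1 0 2
    ndN0q1 ndN4q0 pcN2 Cut.none Ext.none :=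
  certN1 (fam := true) (s1 := true) (s2 := false) (a := 1) (b := 0) (c := 2) (cn := .npp) (n1 := ndN0q1) (n2 := ndN4q0) (pc := pcN2) (cut := Cut.none) (xt := Ext.none) (P1 := 536870912) (W1 := 536870912) (P2 := 0) (W2 := 536870912) (P3 := 402653184) (W3 := 67108864) (N0 := 3)
    rfl (fun _ => rfl) k0_pm_102

noncomputable def f_pm_112 : ℕ → ℕ → ℕ → ℕ → Bool := onCell 536870912 536870912 1073741824 536870912 402653184 67108864
    (rowN 3 1 true true false .dn 1 1 2 (qsf 536870912 536870912 536870912 536870912 2) ndN0q1 ndN4q1 pcN2 Cut.none Ext.none)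

def k0_pm_112 : ∃ t, chk3 f_pm_112 t 1 1 1 = true :=
  ⟨(a (b (b (a (a (b (a (l 16482920) (l 16584976)) (a (l 16487352) (l 16600888))) (b (l 164852986903) (l 16749168))) (a (b (l 1) (l 16913792)) (l 1))) (a (a (b (a (l 16523208) (l 16644112)) (l 16642576)) (b (l 16797440) (l 16857024))) (a (b (l 16963672) (l 17020840)) (l 77881036967)))) (b (a (b (a (l 16707312) (l 16920248)) (a (b (l 16757568) (l 16793632)) (l 16982768))) (b (a (l 17078648) (l 17202152)) (a (l 17133440) (l 17248112)))) (a (b (a (a (l 16792280) (l 16908440)) (l 17045344)) (a (b (l 16912808) (l 16932248)) (b (l 17090632) (l 17112608)))) (a (b (l 17183744) (l 17227888)) (b (l 17288784) (l 17324208)))))) (b (b (l 1) (a (a (l 166464951559) (l 1)) (l 1))) (b (a (b (l 17330680) (l 17360800)) (b (l 1) (l 17412960))) (a (b (l 17385504) (l 17402920)) (b (l 17409520) (l 17398112)))))), by decide +kernel⟩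

theorem c_pm_112 : CertN 536870912 536870912 536870912 536870912 402653184 67108864 3 true true false .dn 1 1 2
    ndN0q1 ndN4q1 pcN2 Cut.none Ext.none :=
  certN1 (fam := true) (s1 := true) (s2 := false) (a := 1) (b := 1) (c := 2) (cn := .dn) (n1 := ndN0q1) (n2 := ndN4q1) (pc := pcN2) (cut := Cut.none) (xt := Ext.none) (P1 := 536870912) (W1 := 536870912) (P2 := 536870912) (W2 := 536870912) (P3 := 402653184) (W3 := 67108864) (N0 := 3)
    rfl (fun _ => rfl) k0_pm_112

noncomputable def f_pm_113 : ℕ → ℕ → ℕ → ℕ → Bool := onCell 536870912 536870912 1610612736 536870912 402653184 67108864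
    (rowN 3 1 true true false .nn 1 1 3 (qsf 536870912 536870912 536870912 536870912 3) ndN0q1 ndN4q1 pcN3 Cut.none Ext.none)

def k0_pm_113 : ∃ t, chk3 f_pm_113 t 1 1 1 = true :=
  ⟨(b (a (b (a (a (b (a (l 16648792) (l 16850216)) (l 216459591783)) (b (l 17064872) (l 17104648))) (a (b (l 17245064) (l 17281968)) (b (l 17351096) (l 17379560)))) (a (a (l 2) (b (l 17174160) (l 2))) (b (a (l 17330864) (l 17412696)) (l 321151301319)))) (b (a (b (l 17416488) (l 17421128)) (b (l 17381872) (l 17355728))) (a (b (l 17421976) (l 17420776)) (b (l 17325096) (l 17319448))))) (b (a (b (a (l 2) (l 336183834695)) (l 2)) (a (b (a (l 17453456) (l 17379424)) (l 224514521431)) (l 4))) (a (l 2) (b (l 4) (l 4))))), by decide +kernel⟩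

theorem c_pm_113 : CertN 536870912 536870912 536870912 536870912 402653184 67108864 3 true true false .nn 1 1 3
    ndN0q1 ndN4q1 pcN3 Cut.none Ext.none :=
  certN1 (fam := true) (s1 := true) (s2 := false) (a := 1) (b := 1) (c := 3) (cn := .nn) (n1 := ndN0q1) (n2 := ndN4q1) (pc := pcN3) (cut := Cut.none) (xt := Ext.none) (P1 := 536870912) (W1 := 536870912) (P2 := 536870912) (W2 := 536870912) (P3 := 402653184) (W3 := 67108864) (N0 := 3)
    rfl (fun _ => rfl) k0_pm_113

noncomputable def f_pm_123 : ℕ → ℕ → ℕ → ℕ → Bool := onCell 536870912 536870912 1610612736 536870912 402653184 67108864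
    (rowN 3 1 true true false .npn 1 2 3 (qsf 536870912 536870912 1073741824 536870912 3) ndN0q1 ndN4q2 pcN3 Cut.none Ext.none)

def k0_pm_123 : ∃ t, chk3 f_pm_123 t 1 1 1 = true :=
  ⟨(b (a (b (a (b (a (a (l 16720672) (l 16796592)) (l 431141608071)) (a (l 16978976) (l 17105232))) (b (l 1) (a (l 474092091783) (l 1)))) (a (a (b (l 17110056) (l 17174488)) (b (l 17197528) (l 17234416))) (b (a (l 17331448) (l 17511200)) (a (l 17330672) (l 17454792))))) (b (l 1) (a (b (l 1) (a (l 17582040) (l 1))) (l 1)))) (b (a (a (b (a (l 17192768) (l 17232896)) (a (l 17180288) (l 17207704))) (b (a (l 17297608) (l 17375232)) (a (l 17246376) (l 17287048)))) (a (b (a (l 17454040) (l 17514880)) (b (l 17382224) (l 4))) (l 4))) (a (b (a (a (l 17147376) (l 17161624)) (a (l 17170088) (l 17182168))) (a (b (l 17111344) (l 17074072)) (l 4))) (b (l 4) (l 4))))), by decide +kernel⟩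

theorem c_pm_123 : CertN 536870912 536870912 1073741824 536870912 402653184 67108864 3 true true false .npn 1 2 3
    ndN0q1 ndN4q2 pcN3 Cut.none Ext.none :=
  certN1 (fam := true) (s1 := true) (s2 := false) (a := 1) (b := 2) (c := 3) (cn := .npn) (n1 := ndN0q1) (n2 := ndN4q2) (pc := pcN3) (cut := Cut.none) (xt := Ext.none) (P1 := 536870912) (W1 := 536870912) (P2 := 1073741824) (W2 := 536870912) (P3 := 402653184) (W3 := 67108864) (N0 := 3)
    rfl (fun _ => rfl) k0_pm_123

noncomputable def f_pm_133 : ℕ → ℕ → ℕ → ℕ → Bool := onCell 536870912 536870912 0 1230186008 402653184 67108864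
    (rowN 3 0 true true false .dn 1 3 3 (qsf 536870912 536870912 0 1230186008 3) ndN0q1 ndN4q3 pcN3 Cut.none Ext.none)

def k0_pm_133 : ∃ t, chk3 f_pm_133 t 1 1 1 = true :=
  ⟨(b (l 2) (b (l 2) (a (b (l 2) (l 4)) (l 2)))), by decide +kernel⟩

theorem c_pm_133 : CertN 536870912 536870912 0 1230186008 402653184 67108864 3 true true false .dn 1 3 3
    ndN0q1 ndN4q3 pcN3 Cut.none Ext.none :=
  certN0 (fam := true) (s1 := true) (s2 := false) (a := 1) (b := 3) (c := 3) (cn := .dn) (n1 := ndN0q1) (n2 := ndN4q3) (pc := pcN3) (cut := Cut.none) (xt := Ext.none) (P1 := 536870912) (W1 := 536870912) (P2 := 0) (W2 := 1230186008) (P3 := 402653184) (W3 := 67108864) (N0 := 3)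
    rfl k0_pm_133

noncomputable def f_pm_202 : ℕ → ℕ → ℕ → ℕ → Bool := onCell 0 536870912 0 536870912 402653184 67108864
    (rowN 3 0 true true false .pp 2 0 2 (qsf 0 536870912 0 536870912 2) ndN0q2 ndN4q0 pcN2 Cut.none Ext.none)

def k0_pm_202 : ∃ t, chk3 f_pm_202 t 1 1 1 = true :=
  ⟨(a (l 4) (a (b (b (b (a (l 17428728) (l 17456936)) (l 17455784)) (b (l 17408224) (l 17361360))) (l 4)) (b (b (b (a (b (l 17471688) (l 17489256)) (b (a (l 17461840) (l 17518472)) (a (l 17502984) (l 17497960)))) (a (l 17486224) (a (l 17482688) (l 17480448)))) (a (b (l 17454872) (l 17423224)) (b (l 17461640) (l 17440784)))) (b (b (a (l 17388784) (l 17420688)) (a (l 17351848) (l 17397544))) (a (l 4) (b (l 17368792) (l 17335272))))))), by decide +kernel⟩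

theorem c_pm_202 : CertN 0 536870912 0 536870912 402653184 67108864 3 true true false .pp 2 0 2
    ndN0q2 ndN4q0 pcN2 Cut.none Ext.none :=
  certN0 (fam := true) (s1 := true) (s2 := false) (a := 2) (b := 0) (c := 2) (cn := .pp) (n1 := ndN0q2) (n2 := ndN4q0) (pc := pcN2) (cut := Cut.none) (xt := Ext.none) (P1 := 0) (W1 := 536870912) (P2 := 0) (W2 := 536870912) (P3 := 402653184) (W3 := 67108864) (N0 := 3)
    rfl k0_pm_202

noncomputable def f_pm_203 : ℕ → ℕ → ℕ → ℕ → Bool := onCell 0 536870912 1610612736 536870912 402653184 67108864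
    (rowN 3 1 true true false .up 2 0 3 (qsf 0 536870912 0 536870912 3) ndN0q2 ndN4q0 pcN3 Cut.none Ext.none)

def k0_pm_203 : ∃ t, chk3 f_pm_203 t 1 1 1 = true :=
  ⟨(a (l 4) (b (l 4) (l 2))), by decide +kernel⟩

theorem c_pm_203 : CertN 0 536870912 0 536870912 402653184 67108864 3 true true false .up 2 0 3
    ndN0q2 ndN4q0 pcN3 Cut.none Ext.none :=
  certN1 (fam := true) (s1 := true) (s2 := false) (a := 2) (b := 0) (c := 3) (cn := .up) (n1 := ndN0q2) (n2 := ndN4q0) (pc := pcN3) (cut := Cut.none) (xt := Ext.none) (P1 := 0) (W1 := 536870912) (P2 := 0) (W2 := 536870912) (P3 := 402653184) (W3 := 67108864) (N0 := 3)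
    rfl (fun _ => rfl) k0_pm_203

noncomputable def f_pm_213 : ℕ → ℕ → ℕ → ℕ → Bool := onCell 0 536870912 536870912 536870912 402653184 67108864
    (rowN 3 0 true true false .pnn 2 1 3 (qsf 0 536870912 536870912 536870912 3) ndN0q2 ndN4q1 pcN3 Cut.none Ext.none)

def k0_pm_213 : ∃ t, chk3 f_pm_213 t 1 1 1 = true :=
  ⟨(a (l 4) (b (l 4) (l 4))), by decide +kernel⟩

theorem c_pm_213 : CertN 0 536870912 536870912 536870912 402653184 67108864 3 true true false .pnn 2 1 3
    ndN0q2 ndN4q1 pcN3 Cut.none Ext.none :=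
  certN0 (fam := true) (s1 := true) (s2 := false) (a := 2) (b := 1) (c := 3) (cn := .pnn) (n1 := ndN0q2) (n2 := ndN4q1) (pc := pcN3) (cut := Cut.none) (xt := Ext.none) (P1 := 0) (W1 := 536870912) (P2 := 536870912) (W2 := 536870912) (P3 := 402653184) (W3 := 67108864) (N0 := 3)
    rfl k0_pm_213

noncomputable def f_mm_001 : ℕ → ℕ → ℕ → ℕ → Bool := onCell 0 536870912 0 536870912 402653184 67108864
    (rowN 3 0 true false false .up 0 0 1 (qsf 0 536870912 0 536870912 1) ndN0q0 ndN4q0 pcN1 Cut.none Ext.none)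

def k0_mm_001 : ∃ t, chk3 f_mm_001 t 1 1 1 = true :=
  ⟨(l 4), by decide +kernel⟩

theorem c_mm_001 : CertN 0 536870912 0 536870912 402653184 67108864 3 true false false .up 0 0 1
    ndN0q0 ndN4q0 pcN1 Cut.none Ext.none :=
  certN0 (fam := true) (s1 := false) (s2 := false) (a := 0) (b := 0) (c := 1) (cn := .up) (n1 := ndN0q0) (n2 := ndN4q0) (pc := pcN1) (cut := Cut.none) (xt := Ext.none) (P1 := 0) (W1 := 536870912) (P2 := 0) (W2 := 536870912) (P3 := 402653184) (W3 := 67108864) (N0 := 3)
    rfl k0_mm_001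

noncomputable def f_mm_011 : ℕ → ℕ → ℕ → ℕ → Bool := onCell 0 536870912 536870912 536870912 402653184 67108864
    (rowN 3 0 true false false .pnn 0 1 1 (qsf 0 536870912 536870912 536870912 1) ndN0q0 ndN4q1 pcN1 Cut.none Ext.none)

def k0_mm_011 : ∃ t, chk3 f_mm_011 t 1 1 1 = true :=
  ⟨(l 4), by decide +kernel⟩

theorem c_mm_011 : CertN 0 536870912 536870912 536870912 402653184 67108864 3 true false false .pnn 0 1 1
    ndN0q0 ndN4q1 pcN1 Cut.none Ext.none :=
  certN0 (fam := true) (s1 := false) (s2 := false) (a := 0) (b := 1) (c := 1) (cn := .pnn) (n1 := ndN0q0) (n2 := ndN4q1) (pc := pcN1) (cut := Cut.none) (xt := Ext.none) (P1 := 0) (W1 := 536870912) (P2 := 536870912) (W2 := 536870912) (P3 := 402653184) (W3 := 67108864) (N0 := 3)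
    rfl k0_mm_011

noncomputable def f_mm_012 : ℕ → ℕ → ℕ → ℕ → Bool := onCell 0 536870912 536870912 536870912 402653184 67108864
    (rowN 3 0 true false false .pnp 0 1 2 (qsf 0 536870912 536870912 536870912 2) ndN0q0 ndN4q1 pcN2 Cut.none Ext.none)

def k0_mm_012 : ∃ t, chk3 f_mm_012 t 1 1 1 = true :=
  ⟨(l 4), by decide +kernel⟩

theorem c_mm_012 : CertN 0 536870912 536870912 536870912 402653184 67108864 3 true false false .pnp 0 1 2
    ndN0q0 ndN4q1 pcN2 Cut.none Ext.none :=
  certN0 (fam := true) (s1 := false) (s2 := false) (a := 0) (b := 1) (c := 2) (cn := .pnp) (n1 := ndN0q0) (n2 := ndN4q1) (pc := pcN2) (cut := Cut.none) (xt := Ext.none) (P1 := 0) (W1 := 536870912) (P2 := 536870912) (W2 := 536870912) (P3 := 402653184) (W3 := 67108864) (N0 := 3)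
    rfl k0_mm_012

noncomputable def f_mm_022 : ℕ → ℕ → ℕ → ℕ → Bool := onCell 0 536870912 1073741824 536870912 402653184 67108864
    (rowN 3 0 true false false .pp 0 2 2 (qsf 0 536870912 1073741824 536870912 2) ndN0q0 ndN4q2 pcN2 Cut.none Ext.none)

def k0_mm_022 : ∃ t, chk3 f_mm_022 t 1 1 1 = true :=
  ⟨(l 4), by decide +kernel⟩

theorem c_mm_022 : CertN 0 536870912 1073741824 536870912 402653184 67108864 3 true false false .pp 0 2 2
    ndN0q0 ndN4q2 pcN2 Cut.none Ext.none :=
  certN0 (fam := true) (s1 := false) (s2 := false) (a := 0) (b := 2) (c := 2) (cn := .pp) (n1 := ndN0q0) (n2 := ndN4q2) (pc := pcN2) (cut := Cut.none) (xt := Ext.none) (P1 := 0) (W1 := 536870912) (P2 := 1073741824) (W2 := 536870912) (P3 := 402653184) (W3 := 67108864) (N0 := 3)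
    rfl k0_mm_022

noncomputable def f_mm_023 : ℕ → ℕ → ℕ → ℕ → Bool := onCell 0 536870912 1073741824 536870912 402653184 67108864
    (rowN 3 0 true false false .up 0 2 3 (qsf 0 536870912 1073741824 536870912 3) ndN0q0 ndN4q2 pcN3 Cut.none Ext.none)

def k0_mm_023 : ∃ t, chk3 f_mm_023 t 1 1 1 = true :=
  ⟨(l 4), by decide +kernel⟩

theorem c_mm_023 : CertN 0 536870912 1073741824 536870912 402653184 67108864 3 true false false .up 0 2 3
    ndN0q0 ndN4q2 pcN3 Cut.none Ext.none :=
  certN0 (fam := true) (s1 := false) (s2 := false) (a := 0) (b := 2) (c := 3) (cn := .up) (n1 := ndN0q0) (n2 := ndN4q2) (pc := pcN3) (cut := Cut.none) (xt := Ext.none) (P1 := 0) (W1 := 536870912) (P2 := 1073741824) (W2 := 536870912) (P3 := 402653184) (W3 := 67108864) (N0 := 3)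
    rfl k0_mm_023

noncomputable def f_mm_033 : ℕ → ℕ → ℕ → ℕ → Bool := onCell 0 536870912 0 1230186008 402653184 67108864
    (rowN 3 0 true false false .pnn 0 3 3 (qsf 0 536870912 0 1230186008 3) ndN0q0 ndN4q3 pcN3 Cut.none Ext.none)

def k0_mm_033 : ∃ t, chk3 f_mm_033 t 1 1 1 = true :=
  ⟨(l 4), by decide +kernel⟩

theorem c_mm_033 : CertN 0 536870912 0 1230186008 402653184 67108864 3 true false false .pnn 0 3 3
    ndN0q0 ndN4q3 pcN3 Cut.none Ext.none :=
  certN0 (fam := true) (s1 := false) (s2 := false) (a := 0) (b := 3) (c := 3) (cn := .pnn) (n1 := ndN0q0) (n2 := ndN4q3) (pc := pcN3) (cut := Cut.none) (xt := Ext.none) (P1 := 0) (W1 := 536870912) (P2 := 0) (W2 := 1230186008) (P3 := 402653184) (W3 := 67108864) (N0 := 3)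
    rfl k0_mm_033

noncomputable def f_mm_101 : ℕ → ℕ → ℕ → ℕ → Bool := onCell 536870912 536870912 0 536870912 402653184 67108864
    (rowN 3 0 true false false .npn 1 0 1 (qsf 536870912 536870912 0 536870912 1) ndN0q1 ndN4q0 pcN1 Cut.none Ext.none)

def k0_mm_101 : ∃ t, chk3 f_mm_101 t 1 1 1 = true :=
  ⟨(l 4), by decide +kernel⟩

theorem c_mm_101 : CertN 536870912 536870912 0 536870912 402653184 67108864 3 true false false .npn 1 0 1
    ndN0q1 ndN4q0 pcN1 Cut.none Ext.none :=
  certN0 (fam := true) (s1 := false) (s2 := false) (a := 1) (b := 0) (c := 1) (cn := .npn) (n1 := ndN0q1) (n2 := ndN4q0) (pc := pcN1) (cut := Cut.none) (xt := Ext.none) (P1 := 536870912) (W1 := 536870912) (P2 := 0) (W2 := 536870912) (P3 := 402653184) (W3 := 67108864) (N0 := 3)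
    rfl k0_mm_101

noncomputable def f_mm_102 : ℕ → ℕ → ℕ → ℕ → Bool := onCell 536870912 536870912 0 536870912 402653184 67108864
    (rowN 3 0 true false false .npp 1 0 2 (qsf 536870912 536870912 0 536870912 2) ndN0q1 ndN4q0 pcN2 Cut.none Ext.none)

def k0_mm_102 : ∃ t, chk3 f_mm_102 t 1 1 1 = true :=
  ⟨(l 4), by decide +kernel⟩

theorem c_mm_102 : CertN 536870912 536870912 0 536870912 402653184 67108864 3 true false false .npp 1 0 2
    ndN0q1 ndN4q0 pcN2 Cut.none Ext.none :=
  certN0 (fam := true) (s1 := false) (s2 := false) (a := 1) (b := 0) (c := 2) (cn := .npp) (n1 := ndN0q1) (n2 := ndN4q0) (pc := pcN2) (cut := Cut.none) (xt := Ext.none) (P1 := 536870912) (W1 := 536870912) (P2 := 0) (W2 := 536870912) (P3 := 402653184) (W3 := 67108864) (N0 := 3)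
    rfl k0_mm_102

noncomputable def f_mm_112 : ℕ → ℕ → ℕ → ℕ → Bool := onCell 536870912 536870912 536870912 536870912 402653184 67108864
    (rowN 3 0 true false false .dn 1 1 2 (qsf 536870912 536870912 536870912 536870912 2) ndN0q1 ndN4q1 pcN2 Cut.none Ext.none)

def k0_mm_112 : ∃ t, chk3 f_mm_112 t 1 1 1 = true :=
  ⟨(l 4), by decide +kernel⟩

theorem c_mm_112 : CertN 536870912 536870912 536870912 536870912 402653184 67108864 3 true false false .dn 1 1 2
    ndN0q1 ndN4q1 pcN2 Cut.none Ext.none :=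
  certN0 (fam := true) (s1 := false) (s2 := false) (a := 1) (b := 1) (c := 2) (cn := .dn) (n1 := ndN0q1) (n2 := ndN4q1) (pc := pcN2) (cut := Cut.none) (xt := Ext.none) (P1 := 536870912) (W1 := 536870912) (P2 := 536870912) (W2 := 536870912) (P3 := 402653184) (W3 := 67108864) (N0 := 3)
    rfl k0_mm_112

noncomputable def f_mm_113 : ℕ → ℕ → ℕ → ℕ → Bool := onCell 536870912 536870912 536870912 536870912 402653184 67108864
    (rowN 3 0 true false false .nn 1 1 3 (qsf 536870912 536870912 536870912 536870912 3) ndN0q1 ndN4q1 pcN3 Cut.none Ext.none)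

def k0_mm_113 : ∃ t, chk3 f_mm_113 t 1 1 1 = true :=
  ⟨(l 4), by decide +kernel⟩

theorem c_mm_113 : CertN 536870912 536870912 536870912 536870912 402653184 67108864 3 true false false .nn 1 1 3
    ndN0q1 ndN4q1 pcN3 Cut.none Ext.none :=
  certN0 (fam := true) (s1 := false) (s2 := false) (a := 1) (b := 1) (c := 3) (cn := .nn) (n1 := ndN0q1) (n2 := ndN4q1) (pc := pcN3) (cut := Cut.none) (xt := Ext.none) (P1 := 536870912) (W1 := 536870912) (P2 := 536870912) (W2 := 536870912) (P3 := 402653184) (W3 := 67108864) (N0 := 3)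
    rfl k0_mm_113

noncomputable def f_mm_123 : ℕ → ℕ → ℕ → ℕ → Bool := onCell 536870912 536870912 1073741824 536870912 402653184 67108864
    (rowN 3 0 true false false .npn 1 2 3 (qsf 536870912 536870912 1073741824 536870912 3) ndN0q1 ndN4q2 pcN3 Cut.none Ext.none)

def k0_mm_123 : ∃ t, chk3 f_mm_123 t 1 1 1 = true :=
  ⟨(l 4), by decide +kernel⟩

theorem c_mm_123 : CertN 536870912 536870912 1073741824 536870912 402653184 67108864 3 true false false .npn 1 2 3
    ndN0q1 ndN4q2 pcN3 Cut.none Ext.none :=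
  certN0 (fam := true) (s1 := false) (s2 := false) (a := 1) (b := 2) (c := 3) (cn := .npn) (n1 := ndN0q1) (n2 := ndN4q2) (pc := pcN3) (cut := Cut.none) (xt := Ext.none) (P1 := 536870912) (W1 := 536870912) (P2 := 1073741824) (W2 := 536870912) (P3 := 402653184) (W3 := 67108864) (N0 := 3)
    rfl k0_mm_123

noncomputable def f_mm_133 : ℕ → ℕ → ℕ → ℕ → Bool := onCell 536870912 536870912 0 1230186008 402653184 67108864
    (rowN 3 0 true false false .dn 1 3 3 (qsf 536870912 536870912 0 1230186008 3) ndN0q1 ndN4q3 pcN3 Cut.none Ext.none)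

def k0_mm_133 : ∃ t, chk3 f_mm_133 t 1 1 1 = true :=
  ⟨(l 4), by decide +kernel⟩

theorem c_mm_133 : CertN 536870912 536870912 0 1230186008 402653184 67108864 3 true false false .dn 1 3 3
    ndN0q1 ndN4q3 pcN3 Cut.none Ext.none :=
  certN0 (fam := true) (s1 := false) (s2 := false) (a := 1) (b := 3) (c := 3) (cn := .dn) (n1 := ndN0q1) (n2 := ndN4q3) (pc := pcN3) (cut := Cut.none) (xt := Ext.none) (P1 := 536870912) (W1 := 536870912) (P2 := 0) (W2 := 1230186008) (P3 := 402653184) (W3 := 67108864) (N0 := 3)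
    rfl k0_mm_133

noncomputable def f_mm_202 : ℕ → ℕ → ℕ → ℕ → Bool := onCell 0 536870912 0 536870912 402653184 67108864
    (rowN 3 0 true false false .pp 2 0 2 (qsf 0 536870912 0 536870912 2) ndN0q2 ndN4q0 pcN2 Cut.none Ext.none)

def k0_mm_202 : ∃ t, chk3 f_mm_202 t 1 1 1 = true :=
  ⟨(l 4), by decide +kernel⟩

theorem c_mm_202 : CertN 0 536870912 0 536870912 402653184 67108864 3 true false false .pp 2 0 2
    ndN0q2 ndN4q0 pcN2 Cut.none Ext.none :=
  certN0 (fam := true) (s1 := false) (s2 := false) (a := 2) (b := 0) (c := 2) (cn := .pp) (n1 := ndN0q2) (n2 := ndN4q0) (pc := pcN2) (cut := Cut.none) (xt := Ext.none) (P1 := 0) (W1 := 536870912) (P2 := 0) (W2 := 536870912) (P3 := 402653184) (W3 := 67108864) (N0 := 3)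
    rfl k0_mm_202

noncomputable def f_mm_203 : ℕ → ℕ → ℕ → ℕ → Bool := onCell 0 536870912 0 536870912 402653184 67108864
    (rowN 3 0 true false false .up 2 0 3 (qsf 0 536870912 0 536870912 3) ndN0q2 ndN4q0 pcN3 Cut.none Ext.none)

def k0_mm_203 : ∃ t, chk3 f_mm_203 t 1 1 1 = true :=
  ⟨(l 4), by decide +kernel⟩

theorem c_mm_203 : CertN 0 536870912 0 536870912 402653184 67108864 3 true false false .up 2 0 3
    ndN0q2 ndN4q0 pcN3 Cut.none Ext.none :=
  certN0 (fam := true) (s1 := false) (s2 := false) (a := 2) (b := 0) (c := 3) (cn := .up) (n1 := ndN0q2) (n2 := ndN4q0) (pc := pcN3) (cut := Cut.none) (xt := Ext.none) (P1 := 0) (W1 := 536870912) (P2 := 0) (W2 := 536870912) (P3 := 402653184) (W3 := 67108864) (N0 := 3)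
    rfl k0_mm_203

noncomputable def f_mm_213 : ℕ → ℕ → ℕ → ℕ → Bool := onCell 0 536870912 536870912 536870912 402653184 67108864
    (rowN 3 0 true false false .pnn 2 1 3 (qsf 0 536870912 536870912 536870912 3) ndN0q2 ndN4q1 pcN3 Cut.none Ext.none)

def k0_mm_213 : ∃ t, chk3 f_mm_213 t 1 1 1 = true :=
  ⟨(l 4), by decide +kernel⟩

theorem c_mm_213 : CertN 0 536870912 536870912 536870912 402653184 67108864 3 true false false .pnn 2 1 3
    ndN0q2 ndN4q1 pcN3 Cut.none Ext.none :=
  certN0 (fam := true) (s1 := false) (s2 := false) (a := 2) (b := 1) (c := 3) (cn := .pnn) (n1 := ndN0q2) (n2 := ndN4q1) (pc := pcN3) (cut := Cut.none) (xt := Ext.none) (P1 := 0) (W1 := 536870912) (P2 := 536870912) (W2 := 536870912) (P3 := 402653184) (W3 := 67108864) (N0 := 3)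
    rfl k0_mm_213

end Pool.Agent.Strip051.G.I3_8_7_16.Tab.C.NA04

namespace Pool.Agent.Strip051.G.I3_8_7_16.Tab.C.NA11

open Pool.Agent.Strip051.PB Pool.Agent.Strip051.PB.T
open Pool.Agent.Strip051.G.I3_8_7_16.Tab

noncomputable def f_pp_001 : ℕ → ℕ → ℕ → ℕ → Bool := onCell 0 536870912 0 536870912 402653184 67108864
    (rowN 3 0 true true true .up 0 0 1 (qsf 0 536870912 0 536870912 1) ndN1q0 ndN1q0 pcN1 Cut.none Ext.none)

def k0_pp_001 : ∃ t, chk3 f_pp_001 t 1 1 1 = true :=
  ⟨(l 4), by decide +kernel⟩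

theorem c_pp_001 : CertN 0 536870912 0 536870912 402653184 67108864 3 true true true .up 0 0 1
    ndN1q0 ndN1q0 pcN1 Cut.none Ext.none :=
  certN0 (fam := true) (s1 := true) (s2 := true) (a := 0) (b := 0) (c := 1) (cn := .up) (n1 := ndN1q0) (n2 := ndN1q0) (pc := pcN1) (cut := Cut.none) (xt := Ext.none) (P1 := 0) (W1 := 536870912) (P2 := 0) (W2 := 536870912) (P3 := 402653184) (W3 := 67108864) (N0 := 3)
    rfl k0_pp_001

noncomputable def f_pp_011 : ℕ → ℕ → ℕ → ℕ → Bool := onCell 0 536870912 536870912 536870912 402653184 67108864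
    (rowN 3 0 true true true .pnn 0 1 1 (qsf 0 536870912 536870912 536870912 1) ndN1q0 ndN1q1 pcN1 Cut.none Ext.none)

def k0_pp_011 : ∃ t, chk3 f_pp_011 t 1 1 1 = true :=
  ⟨(l 4), by decide +kernel⟩

theorem c_pp_011 : CertN 0 536870912 536870912 536870912 402653184 67108864 3 true true true .pnn 0 1 1
    ndN1q0 ndN1q1 pcN1 Cut.none Ext.none :=
  certN0 (fam := true) (s1 := true) (s2 := true) (a := 0) (b := 1) (c := 1) (cn := .pnn) (n1 := ndN1q0) (n2 := ndN1q1) (pc := pcN1) (cut := Cut.none) (xt := Ext.none) (P1 := 0) (W1 := 536870912) (P2 := 536870912) (W2 := 536870912) (P3 := 402653184) (W3 := 67108864) (N0 := 3)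
    rfl k0_pp_011

noncomputable def f_pp_012 : ℕ → ℕ → ℕ → ℕ → Bool := onCell 0 536870912 536870912 536870912 402653184 67108864
    (rowN 3 0 true true true .pnp 0 1 2 (qsf 0 536870912 536870912 536870912 2) ndN1q0 ndN1q1 pcN2 Cut.none Ext.none)

def k0_pp_012 : ∃ t, chk3 f_pp_012 t 1 1 1 = true :=
  ⟨(l 4), by decide +kernel⟩

theorem c_pp_012 : CertN 0 536870912 536870912 536870912 402653184 67108864 3 true true true .pnp 0 1 2
    ndN1q0 ndN1q1 pcN2 Cut.none Ext.none :=
  certN0 (fam := true) (s1 := true) (s2 := true) (a := 0) (b := 1) (c := 2) (cn := .pnp) (n1 := ndN1q0) (n2 := ndN1q1) (pc := pcN2) (cut := Cut.none) (xt := Ext.none) (P1 := 0) (W1 := 536870912) (P2 := 536870912) (W2 := 536870912) (P3 := 402653184) (W3 := 67108864) (N0 := 3)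
    rfl k0_pp_012

noncomputable def cut_pp_022_a : Cut := Cut.of [[⟨0, 0, 0, 67108864⟩, ⟨1, 1, 0, 67108864⟩, ⟨2, 1, 0, 67108864⟩]]

noncomputable def f_pp_022_a : ℕ → ℕ → ℕ → ℕ → Bool := onCell 0 536870912 0 536870912 402653184 67108864
    (rowN 3 0 true true true .pp 0 2 2 (qsf 0 536870912 0 536870912 2) ndN1q0 ndN1q2a pcN2 cut_pp_022_a Ext.none)

def k0_pp_022_a : ∃ t, chk3 f_pp_022_a t 1 1 1 = true :=
  ⟨(a (b (a (a (b (a (b (l 16515760) (a (l 16487112) (l 16491696))) (l 16510208)) (a (b (a (l 16508592) (l 16514704)) (a (a (l 16555664) (l 16538400)) (l 16564792))) (b (l 16523544) (l 16577096)))) (b (a (l 16503728) (l 16541920)) (a (b (l 16542600) (l 16587576)) (l 4)))) (a (b (l 16783440) (l 4)) (l 4))) (a (b (a (a (a (b (a (b (l 16559424) (l 16578368)) (l 16615080)) (a (b (l 16599280) (b (l 16616296) (l 16628440))) (b (l 16603616) (l 16647744)))) (b (l 16642056) (a (l 16661672) (l 16667944)))) (b (a (l 16589504) (l 16606544)) (a (l 16681752) (l 4)))) (l 4)) (a (a (a (b (a (b (b (l 16641680)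 (l 16677360)) (b (a (l 6) (l 16673752)) (l 6))) (b (l 16674520) (b (l 16677640) (l 16716688)))) (l 6)) (b (b (a (l 16659992) (l 4)) (l 4)) (l 4))) (l 4)) (l 4))) (l 4))) (l 4)), by decide +kernel⟩

theorem c_pp_022_a : CertN 0 536870912 0 536870912 402653184 67108864 3 true true true .pp 0 2 2
    ndN1q0 ndN1q2a pcN2 cut_pp_022_a Ext.none :=
  certN0 (fam := true) (s1 := true) (s2 := true) (a := 0) (b := 2) (c := 2) (cn := .pp) (n1 := ndN1q0) (n2 := ndN1q2a) (pc := pcN2) (cut := cut_pp_022_a) (xt := Ext.none) (P1 := 0) (W1 := 536870912) (P2 := 0) (W2 := 536870912) (P3 := 402653184) (W3 := 67108864) (N0 := 3)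
    rfl k0_pp_022_a

noncomputable def cut_pp_022_b : Cut := Cut.of [[⟨0, 0, 0, 67108864⟩, ⟨1, 1, 0, 67108864⟩, ⟨2, 1, 0, 67108864⟩]]

noncomputable def f_pp_022_b : ℕ → ℕ → ℕ → ℕ → Bool := onCell 0 536870912 1239849684 370763052 402653184 67108864
    (rowN 3 0 true true true .pp 0 2 2 (qsf 0 536870912 1239849684 370763052 2) ndN1q0 ndN1q2b pcN2 cut_pp_022_b Ext.none)

def k0_pp_022_b : ∃ t, chk3 f_pp_022_b t 1 1 1 = true :=
  ⟨(a (b (a (b (a (a (a (b (l 16488672) (l 16368352)) (b (l 16428208) (l 16372920))) (b (l 16473864) (l 16360280))) (b (a (l 16440488) (l 16482480)) (a (l 16376640) (l 16413480)))) (a (a (b (l 16364592) (l 16246520)) (b (l 16301400) (l 16243928))) (a (b (l 16339760) (l 16334784)) (l 4)))) (b (a (b (a (l 16505464) (l 4)) (l 4)) (l 4)) (l 4))) (a (a (b (a (b (l 16190872) (l 16191840)) (b (l 16262984) (l 4))) (b (a (a (l 16457680) (l 4)) (l 4)) (l 4))) (l 4)) (l 4))) (l 4)), by decide +kernel⟩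

theorem c_pp_022_b : CertN 0 536870912 1239849684 370763052 402653184 67108864 3 true true true .pp 0 2 2
    ndN1q0 ndN1q2b pcN2 cut_pp_022_b Ext.none :=
  certN0 (fam := true) (s1 := true) (s2 := true) (a := 0) (b := 2) (c := 2) (cn := .pp) (n1 := ndN1q0) (n2 := ndN1q2b) (pc := pcN2) (cut := cut_pp_022_b) (xt := Ext.none) (P1 := 0) (W1 := 536870912) (P2 := 1239849684) (W2 := 370763052) (P3 := 402653184) (W3 := 67108864) (N0 := 3)
    rfl k0_pp_022_b

noncomputable def f_pp_023_a : ℕ → ℕ → ℕ → ℕ → Bool := onCell 1610612736 536870912 0 536870912 402653184 67108864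
    (rowN 3 2 true true true .up 0 2 3 (qsf 0 536870912 0 536870912 3) ndN1q0 ndN1q2a pcN3 Cut.none Ext.none)

def k0_pp_023_a : ∃ t, chk3 f_pp_023_a t 1 1 1 = true :=
  ⟨(l 4), by decide +kernel⟩

theorem c_pp_023_a : CertN 0 536870912 0 536870912 402653184 67108864 3 true true true .up 0 2 3
    ndN1q0 ndN1q2a pcN3 Cut.none Ext.none :=
  certN2 (fam := true) (s1 := true) (s2 := true) (a := 0) (b := 2) (c := 3) (cn := .up) (n1 := ndN1q0) (n2 := ndN1q2a) (pc := pcN3) (cut := Cut.none) (xt := Ext.none) (P1 := 0) (W1 := 536870912) (P2 := 0) (W2 := 536870912) (P3 := 402653184) (W3 := 67108864) (N0 := 3)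
    rfl (fun _ => rfl) k0_pp_023_a

noncomputable def f_pp_023_b : ℕ → ℕ → ℕ → ℕ → Bool := onCell 1610612736 536870912 1239849684 370763052 402653184 67108864
    (rowN 3 2 true true true .up 0 2 3 (qsf 0 536870912 1239849684 370763052 3) ndN1q0 ndN1q2b pcN3 Cut.none Ext.none)

def k0_pp_023_b : ∃ t, chk3 f_pp_023_b t 1 1 1 = true :=
  ⟨(a (l 4) (l 4)), by decide +kernel⟩

theorem c_pp_023_b : CertN 0 536870912 1239849684 370763052 402653184 67108864 3 true true true .up 0 2 3
    ndN1q0 ndN1q2b pcN3 Cut.none Ext.none :=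
  certN2 (fam := true) (s1 := true) (s2 := true) (a := 0) (b := 2) (c := 3) (cn := .up) (n1 := ndN1q0) (n2 := ndN1q2b) (pc := pcN3) (cut := Cut.none) (xt := Ext.none) (P1 := 0) (W1 := 536870912) (P2 := 1239849684) (W2 := 370763052) (P3 := 402653184) (W3 := 67108864) (N0 := 3)
    rfl (fun _ => rfl) k0_pp_023_b

noncomputable def f_pp_033 : ℕ → ℕ → ℕ → ℕ → Bool := onCell 0 536870912 1610612736 536870912 402653184 67108864
    (rowN 3 0 true true true .pnn 0 3 3 (qsf 0 536870912 1610612736 536870912 3) ndN1q0 ndN1q3 pcN3 Cut.none Ext.none)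

def k0_pp_033 : ∃ t, chk3 f_pp_033 t 1 1 1 = true :=
  ⟨(a (b (l 4) (l 4)) (l 4)), by decide +kernel⟩

theorem c_pp_033 : CertN 0 536870912 1610612736 536870912 402653184 67108864 3 true true true .pnn 0 3 3
    ndN1q0 ndN1q3 pcN3 Cut.none Ext.none :=
  certN0 (fam := true) (s1 := true) (s2 := true) (a := 0) (b := 3) (c := 3) (cn := .pnn) (n1 := ndN1q0) (n2 := ndN1q3) (pc := pcN3) (cut := Cut.none) (xt := Ext.none) (P1 := 0) (W1 := 536870912) (P2 := 1610612736) (W2 := 536870912) (P3 := 402653184) (W3 := 67108864) (N0 := 3)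
    rfl k0_pp_033

noncomputable def f_pp_101 : ℕ → ℕ → ℕ → ℕ → Bool := onCell 536870912 536870912 0 536870912 402653184 67108864
    (rowN 3 0 true true true .npn 1 0 1 (qsf 536870912 536870912 0 536870912 1) ndN1q1 ndN1q0 pcN1 Cut.none Ext.none)

def k0_pp_101 : ∃ t, chk3 f_pp_101 t 1 1 1 = true :=
  ⟨(l 4), by decide +kernel⟩

theorem c_pp_101 : CertN 536870912 536870912 0 536870912 402653184 67108864 3 true true true .npn 1 0 1
    ndN1q1 ndN1q0 pcN1 Cut.none Ext.none :=
  certN0 (fam := true) (s1 := true) (s2 := true) (a := 1) (b := 0) (c := 1) (cn := .npn) (n1 := ndN1q1) (n2 := ndN1q0) (pc := pcN1) (cut := Cut.none) (xt := Ext.none) (P1 := 536870912) (W1 := 536870912) (P2 := 0) (W2 := 536870912) (P3 := 402653184) (W3 := 67108864) (N0 := 3)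
    rfl k0_pp_101

noncomputable def f_pp_102 : ℕ → ℕ → ℕ → ℕ → Bool := onCell 536870912 536870912 0 536870912 402653184 67108864
    (rowN 3 0 true true true .npp 1 0 2 (qsf 536870912 536870912 0 536870912 2) ndN1q1 ndN1q0 pcN2 Cut.none Ext.none)

def k0_pp_102 : ∃ t, chk3 f_pp_102 t 1 1 1 = true :=
  ⟨(l 4), by decide +kernel⟩

theorem c_pp_102 : CertN 536870912 536870912 0 536870912 402653184 67108864 3 true true true .npp 1 0 2
    ndN1q1 ndN1q0 pcN2 Cut.none Ext.none :=
  certN0 (fam := true) (s1 := true) (s2 := true) (a := 1) (b := 0) (c := 2) (cn := .npp) (n1 := ndN1q1) (n2 := ndN1q0) (pc := pcN2) (cut := Cut.none) (xt := Ext.none) (P1 := 536870912) (W1 := 536870912) (P2 := 0) (W2 := 536870912) (P3 := 402653184) (W3 := 67108864) (N0 := 3)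
    rfl k0_pp_102

noncomputable def f_pp_112 : ℕ → ℕ → ℕ → ℕ → Bool := onCell 536870912 536870912 536870912 536870912 402653184 67108864
    (rowN 3 0 true true true .dn 1 1 2 (qsf 536870912 536870912 536870912 536870912 2) ndN1q1 ndN1q1 pcN2 Cut.none Ext.none)

def k0_pp_112 : ∃ t, chk3 f_pp_112 t 1 1 1 = true :=
  ⟨(l 4), by decide +kernel⟩

theorem c_pp_112 : CertN 536870912 536870912 536870912 536870912 402653184 67108864 3 true true true .dn 1 1 2
    ndN1q1 ndN1q1 pcN2 Cut.none Ext.none :=
  certN0 (fam := true) (s1 := true) (s2 := true) (a := 1) (b := 1) (c := 2) (cn := .dn) (n1 := ndN1q1) (n2 := ndN1q1) (pc := pcN2) (cut := Cut.none) (xt := Ext.none) (P1 := 536870912) (W1 := 536870912) (P2 := 536870912) (W2 := 536870912) (P3 := 402653184) (W3 := 67108864) (N0 := 3)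
    rfl k0_pp_112

noncomputable def f_pp_113 : ℕ → ℕ → ℕ → ℕ → Bool := onCell 536870912 536870912 536870912 536870912 402653184 67108864
    (rowN 3 0 true true true .nn 1 1 3 (qsf 536870912 536870912 536870912 536870912 3) ndN1q1 ndN1q1 pcN3 Cut.none Ext.none)

def k0_pp_113 : ∃ t, chk3 f_pp_113 t 1 1 1 = true :=
  ⟨(l 4), by decide +kernel⟩

theorem c_pp_113 : CertN 536870912 536870912 536870912 536870912 402653184 67108864 3 true true true .nn 1 1 3
    ndN1q1 ndN1q1 pcN3 Cut.none Ext.none :=
  certN0 (fam := true) (s1 := true) (s2 := true) (a := 1) (b := 1) (c := 3) (cn := .nn) (n1 := ndN1q1) (n2 := ndN1q1) (pc := pcN3) (cut := Cut.none) (xt := Ext.none) (P1 := 536870912) (W1 := 536870912) (P2 := 536870912) (W2 := 536870912) (P3 := 402653184) (W3 := 67108864) (N0 := 3)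
    rfl k0_pp_113

noncomputable def f_pp_123_a : ℕ → ℕ → ℕ → ℕ → Bool := onCell 536870912 536870912 0 536870912 402653184 67108864
    (rowN 3 0 true true true .npn 1 2 3 (qsf 536870912 536870912 0 536870912 3) ndN1q1 ndN1q2a pcN3 Cut.none Ext.none)

def k0_pp_123_a : ∃ t, chk3 f_pp_123_a t 1 1 1 = true :=
  ⟨(l 4), by decide +kernel⟩

theorem c_pp_123_a : CertN 536870912 536870912 0 536870912 402653184 67108864 3 true true true .npn 1 2 3
    ndN1q1 ndN1q2a pcN3 Cut.none Ext.none :=
  certN0 (fam := true) (s1 := true) (s2 := true) (a := 1) (b := 2) (c := 3) (cn := .npn) (n1 := ndN1q1) (n2 := ndN1q2a) (pc := pcN3) (cut := Cut.none) (xt := Ext.none) (P1 := 536870912) (W1 := 536870912) (P2 := 0) (W2 := 536870912) (P3 := 402653184) (W3 := 67108864) (N0 := 3)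
    rfl k0_pp_123_a

noncomputable def f_pp_123_b : ℕ → ℕ → ℕ → ℕ → Bool := onCell 536870912 536870912 1239849684 370763052 402653184 67108864
    (rowN 3 0 true true true .npn 1 2 3 (qsf 536870912 536870912 1239849684 370763052 3) ndN1q1 ndN1q2b pcN3 Cut.none Ext.none)

def k0_pp_123_b : ∃ t, chk3 f_pp_123_b t 1 1 1 = true :=
  ⟨(l 4), by decide +kernel⟩

theorem c_pp_123_b : CertN 536870912 536870912 1239849684 370763052 402653184 67108864 3 true true true .npn 1 2 3
    ndN1q1 ndN1q2b pcN3 Cut.none Ext.none :=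
  certN0 (fam := true) (s1 := true) (s2 := true) (a := 1) (b := 2) (c := 3) (cn := .npn) (n1 := ndN1q1) (n2 := ndN1q2b) (pc := pcN3) (cut := Cut.none) (xt := Ext.none) (P1 := 536870912) (W1 := 536870912) (P2 := 1239849684) (W2 := 370763052) (P3 := 402653184) (W3 := 67108864) (N0 := 3)
    rfl k0_pp_123_b

noncomputable def f_pp_133 : ℕ → ℕ → ℕ → ℕ → Bool := onCell 536870912 536870912 1610612736 536870912 402653184 67108864
    (rowN 3 0 true true true .dn 1 3 3 (qsf 536870912 536870912 1610612736 536870912 3) ndN1q1 ndN1q3 pcN3 Cut.none Ext.none)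

def k0_pp_133 : ∃ t, chk3 f_pp_133 t 1 1 1 = true :=
  ⟨(l 4), by decide +kernel⟩

theorem c_pp_133 : CertN 536870912 536870912 1610612736 536870912 402653184 67108864 3 true true true .dn 1 3 3
    ndN1q1 ndN1q3 pcN3 Cut.none Ext.none :=
  certN0 (fam := true) (s1 := true) (s2 := true) (a := 1) (b := 3) (c := 3) (cn := .dn) (n1 := ndN1q1) (n2 := ndN1q3) (pc := pcN3) (cut := Cut.none) (xt := Ext.none) (P1 := 536870912) (W1 := 536870912) (P2 := 1610612736) (W2 := 536870912) (P3 := 402653184) (W3 := 67108864) (N0 := 3)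
    rfl k0_pp_133

noncomputable def f_pp_202_a : ℕ → ℕ → ℕ → ℕ → Bool := onCell 0 536870912 0 536870912 402653184 67108864
    (rowN 3 0 true true true .pp 2 0 2 (qsf 0 536870912 0 536870912 2) ndN1q2a ndN1q0 pcN2 Cut.none Ext.none)

def k0_pp_202_a : ∃ t, chk3 f_pp_202_a t 1 1 1 = true :=
  ⟨(l 5), by decide +kernel⟩

theorem c_pp_202_a : CertN 0 536870912 0 536870912 402653184 67108864 3 true true true .pp 2 0 2
    ndN1q2a ndN1q0 pcN2 Cut.none Ext.none :=
  certN0 (fam := true) (s1 := true) (s2 := true) (a := 2) (b := 0) (c := 2) (cn := .pp) (n1 := ndN1q2a) (n2 := ndN1q0) (pc := pcN2) (cut := Cut.none) (xt := Ext.none) (P1 := 0) (W1 := 536870912) (P2 := 0) (W2 := 536870912) (P3 := 402653184) (W3 := 67108864) (N0 := 3)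
    rfl k0_pp_202_a

noncomputable def f_pp_202_b : ℕ → ℕ → ℕ → ℕ → Bool := onCell 1239849684 370763052 0 536870912 402653184 67108864
    (rowN 3 0 true true true .pp 2 0 2 (qsf 1239849684 370763052 0 536870912 2) ndN1q2b ndN1q0 pcN2 Cut.none Ext.none)

def k0_pp_202_b : ∃ t, chk3 f_pp_202_b t 1 1 1 = true :=
  ⟨(l 5), by decide +kernel⟩

theorem c_pp_202_b : CertN 1239849684 370763052 0 536870912 402653184 67108864 3 true true true .pp 2 0 2
    ndN1q2b ndN1q0 pcN2 Cut.none Ext.none :=
  certN0 (fam := true) (s1 := true) (s2 := true) (a := 2) (b := 0) (c := 2) (cn := .pp) (n1 := ndN1q2b) (n2 := ndN1q0) (pc := pcN2) (cut := Cut.none) (xt := Ext.none) (P1 := 1239849684) (W1 := 370763052) (P2 := 0) (W2 := 536870912) (P3 := 402653184) (W3 := 67108864) (N0 := 3)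
    rfl k0_pp_202_b

noncomputable def f_pp_203_a : ℕ → ℕ → ℕ → ℕ → Bool := onCell 0 536870912 0 536870912 402653184 67108864
    (rowN 3 0 true true true .up 2 0 3 (qsf 0 536870912 0 536870912 3) ndN1q2a ndN1q0 pcN3 Cut.none Ext.none)

def k0_pp_203_a : ∃ t, chk3 f_pp_203_a t 1 1 1 = true :=
  ⟨(l 5), by decide +kernel⟩

theorem c_pp_203_a : CertN 0 536870912 0 536870912 402653184 67108864 3 true true true .up 2 0 3
    ndN1q2a ndN1q0 pcN3 Cut.none Ext.none :=
  certN0 (fam := true) (s1 := true) (s2 := true) (a := 2) (b := 0) (c := 3) (cn := .up) (n1 := ndN1q2a) (n2 := ndN1q0) (pc := pcN3) (cut := Cut.none) (xt := Ext.none) (P1 := 0) (W1 := 536870912) (P2 := 0) (W2 := 536870912) (P3 := 402653184) (W3 := 67108864) (N0 := 3)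
    rfl k0_pp_203_a

noncomputable def f_pp_203_b : ℕ → ℕ → ℕ → ℕ → Bool := onCell 1239849684 370763052 0 536870912 402653184 67108864
    (rowN 3 0 true true true .up 2 0 3 (qsf 1239849684 370763052 0 536870912 3) ndN1q2b ndN1q0 pcN3 Cut.none Ext.none)

def k0_pp_203_b : ∃ t, chk3 f_pp_203_b t 1 1 1 = true :=
  ⟨(l 5), by decide +kernel⟩

theorem c_pp_203_b : CertN 1239849684 370763052 0 536870912 402653184 67108864 3 true true true .up 2 0 3
    ndN1q2b ndN1q0 pcN3 Cut.none Ext.none :=
  certN0 (fam := true) (s1 := true) (s2 := true) (a := 2) (b := 0) (c := 3) (cn := .up) (n1 := ndN1q2b) (n2 := ndN1q0) (pc := pcN3) (cut := Cut.none) (xt := Ext.none) (P1 := 1239849684) (W1 := 370763052) (P2 := 0) (W2 := 536870912) (P3 := 402653184) (W3 := 67108864) (N0 := 3)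
    rfl k0_pp_203_b

noncomputable def f_pp_213_a : ℕ → ℕ → ℕ → ℕ → Bool := onCell 0 536870912 536870912 536870912 402653184 67108864
    (rowN 3 0 true true true .pnn 2 1 3 (qsf 0 536870912 536870912 536870912 3) ndN1q2a ndN1q1 pcN3 Cut.none Ext.none)

def k0_pp_213_a : ∃ t, chk3 f_pp_213_a t 1 1 1 = true :=
  ⟨(l 4), by decide +kernel⟩

theorem c_pp_213_a : CertN 0 536870912 536870912 536870912 402653184 67108864 3 true true true .pnn 2 1 3
    ndN1q2a ndN1q1 pcN3 Cut.none Ext.none :=
  certN0 (fam := true) (s1 := true) (s2 := true) (a := 2) (b := 1) (c := 3) (cn := .pnn) (n1 := ndN1q2a) (n2 := ndN1q1) (pc := pcN3) (cut := Cut.none) (xt := Ext.none) (P1 := 0) (W1 := 536870912) (P2 := 536870912) (W2 := 536870912) (P3 := 402653184) (W3 := 67108864) (N0 := 3)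
    rfl k0_pp_213_a

noncomputable def f_pp_213_b : ℕ → ℕ → ℕ → ℕ → Bool := onCell 1239849684 370763052 536870912 536870912 402653184 67108864
    (rowN 3 0 true true true .pnn 2 1 3 (qsf 1239849684 370763052 536870912 536870912 3) ndN1q2b ndN1q1 pcN3 Cut.none Ext.none)

def k0_pp_213_b : ∃ t, chk3 f_pp_213_b t 1 1 1 = true :=
  ⟨(l 4), by decide +kernel⟩

theorem c_pp_213_b : CertN 1239849684 370763052 536870912 536870912 402653184 67108864 3 true true true .pnn 2 1 3
    ndN1q2b ndN1q1 pcN3 Cut.none Ext.none :=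
  certN0 (fam := true) (s1 := true) (s2 := true) (a := 2) (b := 1) (c := 3) (cn := .pnn) (n1 := ndN1q2b) (n2 := ndN1q1) (pc := pcN3) (cut := Cut.none) (xt := Ext.none) (P1 := 1239849684) (W1 := 370763052) (P2 := 536870912) (W2 := 536870912) (P3 := 402653184) (W3 := 67108864) (N0 := 3)
    rfl k0_pp_213_b

noncomputable def f_pp_303 : ℕ → ℕ → ℕ → ℕ → Bool := onCell 1610612736 536870912 0 536870912 402653184 67108864
    (rowN 3 0 true true true .npn 3 0 3 (qsf 1610612736 536870912 0 536870912 3) ndN1q3 ndN1q0 pcN3 Cut.none Ext.none)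

def k0_pp_303 : ∃ t, chk3 f_pp_303 t 1 1 1 = true :=
  ⟨(l 5), by decide +kernel⟩

theorem c_pp_303 : CertN 1610612736 536870912 0 536870912 402653184 67108864 3 true true true .npn 3 0 3
    ndN1q3 ndN1q0 pcN3 Cut.none Ext.none :=
  certN0 (fam := true) (s1 := true) (s2 := true) (a := 3) (b := 0) (c := 3) (cn := .npn) (n1 := ndN1q3) (n2 := ndN1q0) (pc := pcN3) (cut := Cut.none) (xt := Ext.none) (P1 := 1610612736) (W1 := 536870912) (P2 := 0) (W2 := 536870912) (P3 := 402653184) (W3 := 67108864) (N0 := 3)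
    rfl k0_pp_303

noncomputable def f_pp_313 : ℕ → ℕ → ℕ → ℕ → Bool := onCell 1610612736 536870912 536870912 536870912 402653184 67108864
    (rowN 3 0 true true true .dn 3 1 3 (qsf 1610612736 536870912 536870912 536870912 3) ndN1q3 ndN1q1 pcN3 Cut.none Ext.none)

def k0_pp_313 : ∃ t, chk3 f_pp_313 t 1 1 1 = true :=
  ⟨(l 4), by decide +kernel⟩

theorem c_pp_313 : CertN 1610612736 536870912 536870912 536870912 402653184 67108864 3 true true true .dn 3 1 3
    ndN1q3 ndN1q1 pcN3 Cut.none Ext.none :=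
  certN0 (fam := true) (s1 := true) (s2 := true) (a := 3) (b := 1) (c := 3) (cn := .dn) (n1 := ndN1q3) (n2 := ndN1q1) (pc := pcN3) (cut := Cut.none) (xt := Ext.none) (P1 := 1610612736) (W1 := 536870912) (P2 := 536870912) (W2 := 536870912) (P3 := 402653184) (W3 := 67108864) (N0 := 3)
    rfl k0_pp_313

noncomputable def f_pm_001 : ℕ → ℕ → ℕ → ℕ → Bool := onCell 0 536870912 0 536870912 402653184 67108864
    (rowN 3 0 true true false .up 0 0 1 (qsf 0 536870912 0 536870912 1) ndN1q0 ndN1q0 pcN1 Cut.none Ext.none)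

def k0_pm_001 : ∃ t, chk3 f_pm_001 t 1 1 1 = true :=
  ⟨(l 3), by decide +kernel⟩

theorem c_pm_001 : CertN 0 536870912 0 536870912 402653184 67108864 3 true true false .up 0 0 1
    ndN1q0 ndN1q0 pcN1 Cut.none Ext.none :=
  certN0 (fam := true) (s1 := true) (s2 := false) (a := 0) (b := 0) (c := 1) (cn := .up) (n1 := ndN1q0) (n2 := ndN1q0) (pc := pcN1) (cut := Cut.none) (xt := Ext.none) (P1 := 0) (W1 := 536870912) (P2 := 0) (W2 := 536870912) (P3 := 402653184) (W3 := 67108864) (N0 := 3)
    rfl k0_pm_001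

noncomputable def f_pm_011 : ℕ → ℕ → ℕ → ℕ → Bool := onCell 0 536870912 536870912 536870912 402653184 67108864
    (rowN 3 1 true true false .pnn 0 1 1 (qsf 0 536870912 536870912 536870912 1) ndN1q0 ndN1q1 pcN1 Cut.none Ext.none)

def k0_pm_011 : ∃ t, chk3 f_pm_011 t 1 1 1 = true :=
  ⟨(l 3), by decide +kernel⟩

theorem c_pm_011 : CertN 0 536870912 536870912 536870912 402653184 67108864 3 true true false .pnn 0 1 1
    ndN1q0 ndN1q1 pcN1 Cut.none Ext.none :=
  certN1 (fam := true) (s1 := true) (s2 := false) (a := 0) (b := 1) (c := 1) (cn := .pnn) (n1 := ndN1q0) (n2 := ndN1q1) (pc := pcN1) (cut := Cut.none) (xt := Ext.none) (P1 := 0) (W1 := 536870912) (P2 := 536870912) (W2 := 536870912) (P3 := 402653184) (W3 := 67108864) (N0 := 3)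
    rfl (fun _ => rfl) k0_pm_011

noncomputable def f_pm_012 : ℕ → ℕ → ℕ → ℕ → Bool := onCell 1073741824 536870912 536870912 536870912 402653184 67108864
    (rowN 3 2 true true false .pnp 0 1 2 (qsf 0 536870912 536870912 536870912 2) ndN1q0 ndN1q1 pcN2 Cut.none Ext.none)

def k0_pm_012 : ∃ t, chk3 f_pm_012 t 1 1 1 = true :=
  ⟨(a (a (l 3) (b (a (a (a (l 3) (a (l 3) (a (l 3) (b (l 2) (a (l 16935928) (l 16934744)))))) (b (l 2) (l 16924416))) (b (l 2) (l 16896112))) (a (a (a (l 3) (a (l 3) (b (a (l 3) (a (l 16948512) (l 16946928))) (a (b (l 16741560) (l 16564704)) (b (a (l 16737024) (l 16733592)) (a (l 16558296) (l 16553448))))))) (b (l 16932728) (b (l 16702904) (l 16510248)))) (b (b (l 16936664) (l 16815176)) (b (l 16608512) (l 16425928)))))) (b (b (l 2) (l 17281234743)) (b (a (l 16795024) (l 16807872)) (b (a (l 16374784) (l 16766488)) (a (l 16408104) (l 16688064)))))), by decide +kernel⟩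

theorem c_pm_012 : CertN 0 536870912 536870912 536870912 402653184 67108864 3 true true false .pnp 0 1 2
    ndN1q0 ndN1q1 pcN2 Cut.none Ext.none :=
  certN2 (fam := true) (s1 := true) (s2 := false) (a := 0) (b := 1) (c := 2) (cn := .pnp) (n1 := ndN1q0) (n2 := ndN1q1) (pc := pcN2) (cut := Cut.none) (xt := Ext.none) (P1 := 0) (W1 := 536870912) (P2 := 536870912) (W2 := 536870912) (P3 := 402653184) (W3 := 67108864) (N0 := 3)
    rfl (fun _ => rfl) k0_pm_012

noncomputable def cut_pm_022_a : Cut := Cut.of [[⟨0, 0, 0, 67108864⟩, ⟨1, 1, 0, 67108864⟩, ⟨2, 1, 0, 67108864⟩]]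

noncomputable def f_pm_022_a : ℕ → ℕ → ℕ → ℕ → Bool := onCell 1073741824 536870912 0 536870912 402653184 67108864
    (rowN 3 2 true true false .pp 0 2 2 (qsf 0 536870912 0 536870912 2) ndN1q0 ndN1q2a pcN2 cut_pm_022_a Ext.none)

def k0_pm_022_a : ∃ t, chk3 f_pm_022_a t 2 1 1 = true :=
  ⟨(b (a (a (l 1) (a (l 1) (b (l 1) (b (l 1) (a (l 1) (a (l 1) (b (l 1) (l 209949677063)))))))) (a (a (a (b (l 1) (b (l 213170821479) (b (l 266321058791) (a (l 16540672) (l 16530024))))) (b (b (l 16463024) (l 16473704)) (b (l 166462971543) (l 16507912)))) (b (b (l 16426448) (l 16437088)) (b (l 16452056) (l 16471344)))) (b (a (l 16421104) (l 16445224)) (l 16534272)))) (a (a (b (l 1) (a (b (l 1) (l 6)) (a (b (b (l 1) (l 6)) (l 6)) (b (b (a (l 1) (b (l 1) (l 185790674551))) (a (l 6) (b (l 16664480) (l 16671384)))) (b (b (l 16682856) (l 16689768)) (l 16709232)))))) (b (b (a (l 1) (a (b (l 147672639495) (a (l 161631334199) (l 214244671607))) (b (l 215318404471) (l 16565632)))) (a (a (b (l 1) (a (l 1) (b (l 129956021303)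 (l 199212382135)))) (b (a (l 132640349287) (l 181495588663)) (a (l 208339171511) (l 16609448)))) (a (b (a (l 16590488) (l 16584048)) (l 16598928)) (l 16622040)))) (a (b (b (a (a (b (l 190622479495) (l 16649656)) (b (l 16634800) (l 16641480))) (l 16647248)) (a (a (l 16680448) (l 16650824)) (l 16637976))) (b (l 16700624) (l 16687016))) (b (b (l 16603944) (l 16613728)) (l 16683384))))) (a (b (a (a (b (b (l 16545104) (l 16553800)) (l 16567152)) (a (b (l 16536544) (l 16557208)) (b (a (l 16528688) (l 16522920)) (l 16569360)))) (b (l 16495320) (l 16522896))) (a (a (b (l 16586584) (l 16616904)) (a (l 16665880) (a (l 16618144) (l 16697888)))) (b (l 16545880) (l 16577856)))) (b (l 16569880) (b (l 16505272) (l 16550560)))))), by decide +kernel⟩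

def k1_pm_022_a : ∃ t, chk3 f_pm_022_a t 3 1 1 = true :=
  ⟨(a (b (a (b (l 16498616) (l 16482728)) (b (l 16602536) (l 16565360))) (a (b (l 16496248) (l 16539592)) (b (l 16561224) (b (l 16574088) (l 16596288))))) (b (a (b (l 16701184) (l 16680704)) (b (l 16777320) (l 16813344))) (a (b (l 16651424) (l 16651608)) (b (l 16834608) (a (l 16793816) (l 16899312)))))), by decide +kernel⟩

theorem s2_pm_022_a : ∃ t, chk3 f_pm_022_a t 1 1 1 = true := ex3_a k0_pm_022_a k1_pm_022_a

theorem c_pm_022_a : CertN 0 536870912 0 536870912 402653184 67108864 3 true true false .pp 0 2 2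
    ndN1q0 ndN1q2a pcN2 cut_pm_022_a Ext.none :=
  certN2 (fam := true) (s1 := true) (s2 := false) (a := 0) (b := 2) (c := 2) (cn := .pp) (n1 := ndN1q0) (n2 := ndN1q2a) (pc := pcN2) (cut := cut_pm_022_a) (xt := Ext.none) (P1 := 0) (W1 := 536870912) (P2 := 0) (W2 := 536870912) (P3 := 402653184) (W3 := 67108864) (N0 := 3)
    rfl (fun _ => rfl) s2_pm_022_a

noncomputable def cut_pm_022_b : Cut := Cut.of [[⟨0, 0, 0, 67108864⟩, ⟨1, 1, 0, 67108864⟩, ⟨2, 1, 0, 67108864⟩]]

noncomputable def f_pm_022_b : ℕ → ℕ → ℕ → ℕ → Bool := onCell 0 536870912 1073741824 536870912 402653184 67108864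
    (rowN 3 1 true true false .pp 0 2 2 (qsf 0 536870912 1239849684 370763052 2) ndN1q0 ndN1q2b pcN2 cut_pm_022_b Ext.none)

def k0_pm_022_b : ∃ t, chk3 f_pm_022_b t 1 1 1 = true :=
  ⟨(a (b (a (b (l 1) (a (a (b (b (l 106333483223) (l 16463696)) (l 16407320)) (b (l 16589792) (l 16397112))) (b (l 1) (a (l 16474840) (l 16552968))))) (l 1)) (b (a (b (a (a (l 16208216) (l 16324784)) (l 16534736)) (a (b (a (l 16158136) (l 16247072)) (l 16252544)) (l 16405960))) (b (a (l 16594232) (l 1)) (a (l 16541128) (l 16704544)))) (a (b (a (a (l 16123560) (l 16182464)) (l 16395784)) (a (b (l 16094432) (l 16262968)) (l 16259136))) (b (a (l 16471872) (l 16629712)) (l 16448656))))) (b (l 1) (b (l 1) (a (b (l 16864976) (l 16757632)) (l 1))))), by decide +kernel⟩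

theorem c_pm_022_b : CertN 0 536870912 1239849684 370763052 402653184 67108864 3 true true false .pp 0 2 2
    ndN1q0 ndN1q2b pcN2 cut_pm_022_b Ext.none :=
  certN1 (fam := true) (s1 := true) (s2 := false) (a := 0) (b := 2) (c := 2) (cn := .pp) (n1 := ndN1q0) (n2 := ndN1q2b) (pc := pcN2) (cut := cut_pm_022_b) (xt := Ext.none) (P1 := 0) (W1 := 536870912) (P2 := 1239849684) (W2 := 370763052) (P3 := 402653184) (W3 := 67108864) (N0 := 3)
    rfl (fun _ => rfl) k0_pm_022_b

noncomputable def f_pm_023_a : ℕ → ℕ → ℕ → ℕ → Bool := onCell 1610612736 536870912 0 536870912 402653184 67108864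
    (rowN 3 2 true true false .up 0 2 3 (qsf 0 536870912 0 536870912 3) ndN1q0 ndN1q2a pcN3 Cut.none Ext.none)

def k0_pm_023_a : ∃ t, chk3 f_pm_023_a t 1 1 1 = true :=
  ⟨(a (a (b (a (l 16960640) (l 16952664)) (b (l 17070216) (l 17121752))) (b (a (l 16921288) (l 2)) (a (l 17025296) (l 2)))) (l 2)), by decide +kernel⟩

theorem c_pm_023_a : CertN 0 536870912 0 536870912 402653184 67108864 3 true true false .up 0 2 3
    ndN1q0 ndN1q2a pcN3 Cut.none Ext.none :=
  certN2 (fam := true) (s1 := true) (s2 := false) (a := 0) (b := 2) (c := 3) (cn := .up) (n1 := ndN1q0) (n2 := ndN1q2a) (pc := pcN3) (cut := Cut.none) (xt := Ext.none) (P1 := 0) (W1 := 536870912) (P2 := 0) (W2 := 536870912) (P3 := 402653184) (W3 := 67108864) (N0 := 3)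
    rfl (fun _ => rfl) k0_pm_023_a

noncomputable def f_pm_023_b : ℕ → ℕ → ℕ → ℕ → Bool := onCell 1610612736 536870912 1239849684 370763052 402653184 67108864
    (rowN 3 2 true true false .up 0 2 3 (qsf 0 536870912 1239849684 370763052 3) ndN1q0 ndN1q2b pcN3 Cut.none Ext.none)

def k0_pm_023_b : ∃ t, chk3 f_pm_023_b t 1 1 1 = true :=
  ⟨(a (a (b (a (l 16776952) (l 16860016)) (a (b (l 16622592) (a (l 16440544) (l 16624776))) (b (l 16825960) (l 16816488)))) (a (b (l 16892112) (l 16943504)) (b (l 16928256) (l 17011808)))) (a (l 4) (l 4))), by decide +kernel⟩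

theorem c_pm_023_b : CertN 0 536870912 1239849684 370763052 402653184 67108864 3 true true false .up 0 2 3
    ndN1q0 ndN1q2b pcN3 Cut.none Ext.none :=
  certN2 (fam := true) (s1 := true) (s2 := false) (a := 0) (b := 2) (c := 3) (cn := .up) (n1 := ndN1q0) (n2 := ndN1q2b) (pc := pcN3) (cut := Cut.none) (xt := Ext.none) (P1 := 0) (W1 := 536870912) (P2 := 1239849684) (W2 := 370763052) (P3 := 402653184) (W3 := 67108864) (N0 := 3)
    rfl (fun _ => rfl) k0_pm_023_b

noncomputable def f_pm_033 : ℕ → ℕ → ℕ → ℕ → Bool := onCell 0 536870912 1610612736 536870912 402653184 67108864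
    (rowN 3 1 true true false .pnn 0 3 3 (qsf 0 536870912 1610612736 536870912 3) ndN1q0 ndN1q3 pcN3 Cut.none Ext.none)

def k0_pm_033 : ∃ t, chk3 f_pm_033 t 1 1 1 = true :=
  ⟨(b (b (a (a (b (a (b (l 16282952) (l 16479568)) (l 16497152)) (a (l 16732720) (l 16771368))) (b (l 1) (l 16817864))) (l 1)) (a (b (a (l 16981896) (l 16964560)) (a (l 17125000) (l 17077608))) (b (l 1) (a (l 17022912) (l 1))))) (b (l 4) (l 4))), by decide +kernel⟩

theorem c_pm_033 : CertN 0 536870912 1610612736 536870912 402653184 67108864 3 true true false .pnn 0 3 3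
    ndN1q0 ndN1q3 pcN3 Cut.none Ext.none :=
  certN1 (fam := true) (s1 := true) (s2 := false) (a := 0) (b := 3) (c := 3) (cn := .pnn) (n1 := ndN1q0) (n2 := ndN1q3) (pc := pcN3) (cut := Cut.none) (xt := Ext.none) (P1 := 0) (W1 := 536870912) (P2 := 1610612736) (W2 := 536870912) (P3 := 402653184) (W3 := 67108864) (N0 := 3)
    rfl (fun _ => rfl) k0_pm_033

noncomputable def f_pm_101 : ℕ → ℕ → ℕ → ℕ → Bool := onCell 536870912 536870912 0 536870912 402653184 67108864
    (rowN 3 2 true true false .npn 1 0 1 (qsf 536870912 536870912 0 536870912 1) ndN1q1 ndN1q0 pcN1 Cut.none Ext.none)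

def k0_pm_101 : ∃ t, chk3 f_pm_101 t 1 1 1 = true :=
  ⟨(l 3), by decide +kernel⟩

theorem c_pm_101 : CertN 536870912 536870912 0 536870912 402653184 67108864 3 true true false .npn 1 0 1
    ndN1q1 ndN1q0 pcN1 Cut.none Ext.none :=
  certN2 (fam := true) (s1 := true) (s2 := false) (a := 1) (b := 0) (c := 1) (cn := .npn) (n1 := ndN1q1) (n2 := ndN1q0) (pc := pcN1) (cut := Cut.none) (xt := Ext.none) (P1 := 536870912) (W1 := 536870912) (P2 := 0) (W2 := 536870912) (P3 := 402653184) (W3 := 67108864) (N0 := 3)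
    rfl (fun _ => rfl) k0_pm_101

noncomputable def f_pm_102 : ℕ → ℕ → ℕ → ℕ → Bool := onCell 536870912 536870912 1073741824 536870912 402653184 67108864
    (rowN 3 1 true true false .npp 1 0 2 (qsf 536870912 536870912 0 536870912 2) ndN1q1 ndN1q0 pcN2 Cut.none Ext.none)

def k0_pm_102 : ∃ t, chk3 f_pm_102 t 1 1 1 = true :=
  ⟨(a (b (b (l 3) (b (b (b (l 3) (a (l 2) (b (l 3) (b (l 3) (a (l 16943120) (l 16930728)))))) (a (l 2) (l 16924416))) (a (l 2) (l 16896112)))) (a (l 2) (l 17281234743))) (b (b (l 3) (b (b (b (l 3) (b (l 3) (a (b (l 3) (b (l 16948512) (l 16946928))) (b (a (l 16741560) (l 16564704)) (a (b (l 16737024) (l 16733592)) (b (l 16558296) (l 16553448))))))) (a (l 16932728) (a (l 16702904) (l 16510248)))) (a (a (l 16936664) (l 16815176)) (a (l 16608512) (l 16425928))))) (a (b (l 16795024) (l 16807872)) (a (b (l 16374784) (l 16766488)) (b (l 16408104) (l 16688064)))))), by decide +kernel⟩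

theorem c_pm_102 : CertN 536870912 536870912 0 536870912 402653184 67108864 3 true true false .npp 1 0 2
    ndN1q1 ndN1q0 pcN2 Cut.none Ext.none :=
  certN1 (fam := true) (s1 := true) (s2 := false) (a := 1) (b := 0) (c := 2) (cn := .npp) (n1 := ndN1q1) (n2 := ndN1q0) (pc := pcN2) (cut := Cut.none) (xt := Ext.none) (P1 := 536870912) (W1 := 536870912) (P2 := 0) (W2 := 536870912) (P3 := 402653184) (W3 := 67108864) (N0 := 3)
    rfl (fun _ => rfl) k0_pm_102

noncomputable def f_pm_112 : ℕ → ℕ → ℕ → ℕ → Bool := onCell 536870912 536870912 1073741824 536870912 402653184 67108864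
    (rowN 3 1 true true false .dn 1 1 2 (qsf 536870912 536870912 536870912 536870912 2) ndN1q1 ndN1q1 pcN2 Cut.none Ext.none)

def k0_pm_112 : ∃ t, chk3 f_pm_112 t 1 1 1 = true :=
  ⟨(b (b (l 3) (a (b (b (b (l 3) (b (l 3) (b (l 3) (a (l 16961208) (l 245518684055))))) (a (l 16945192) (l 16928024))) (a (l 16902224) (l 16901728))) (b (l 1) (a (l 16687104) (l 1))))) (a (a (b (b (l 16879176) (l 16856560)) (l 16785072)) (b (l 16833792) (l 16805328))) (a (b (l 16810160) (l 16811856)) (b (l 369937638711) (l 16699984))))), by decide +kernel⟩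

theorem c_pm_112 : CertN 536870912 536870912 536870912 536870912 402653184 67108864 3 true true false .dn 1 1 2
    ndN1q1 ndN1q1 pcN2 Cut.none Ext.none :=
  certN1 (fam := true) (s1 := true) (s2 := false) (a := 1) (b := 1) (c := 2) (cn := .dn) (n1 := ndN1q1) (n2 := ndN1q1) (pc := pcN2) (cut := Cut.none) (xt := Ext.none) (P1 := 536870912) (W1 := 536870912) (P2 := 536870912) (W2 := 536870912) (P3 := 402653184) (W3 := 67108864) (N0 := 3)
    rfl (fun _ => rfl) k0_pm_112

end Pool.Agent.Strip051.G.I3_8_7_16.Tab.C.NA11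

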