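import Pool.Agent.Strip051.G.I3_8_7_16.Tab

/-! # Certificates N10 (generated) -/

set_option linter.all false
set_option maxRecDepth 100000

namespace Pool.Agent.Strip051.G.I3_8_7_16.Tab.C.NB00

open Pool.Agent.Strip051.PB Pool.Agent.Strip051.PB.T
open Pool.Agent.Strip051.G.I3_8_7_16.Tab

noncomputable def cut_pm_011 : Cut := Cut.of [[⟨0, 0, 0, 67108864⟩, ⟨1, 1, 0, 67108864⟩, ⟨2, 1, 0, 67108864⟩], [⟨0, 0, 1, 33554432⟩, ⟨1, 1, 2, 33554432⟩, ⟨2, 1, 0, 33554432⟩]]

noncomputable def f_pm_011 : ℕ → ℕ → ℕ → ℕ → Bool := onCell 0 536870912 536870912 536870912 402653184 67108864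
    (rowN 3 0 false true false .pnn 0 1 1 (qsf 0 536870912 536870912 536870912 1) ndN0q0 ndN0q1 pcN1 cut_pm_011 Ext.none)

def k0_pm_011 : ∃ t, chk3 f_pm_011 t 2 2 1 = true :=
  ⟨(l 4), by decide +kernel⟩

def k1_pm_011 : ∃ t, chk3 f_pm_011 t 4 6 1 = true :=
  ⟨(l 4), by decide +kernel⟩

def k2_pm_011 : ∃ t, chk3 f_pm_011 t 8 14 1 = true :=
  ⟨(l 4), by decide +kernel⟩

def k3_pm_011 : ∃ t, chk3 f_pm_011 t 9 28 1 = true :=
  ⟨(l 4), by decide +kernel⟩

def k4_pm_011 : ∃ t, chk3 f_pm_011 t 18 29 1 = true :=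
  ⟨(l 4), by decide +kernel⟩

def k5_pm_011 : ∃ t, chk3 f_pm_011 t 19 58 1 = true :=
  ⟨(l 4), by decide +kernel⟩

def k6_pm_011 : ∃ t, chk3 f_pm_011 t 38 59 1 = true :=
  ⟨(l 4), by decide +kernel⟩

def k7_pm_011 : ∃ t, chk3 f_pm_011 t 39 118 1 = true :=
  ⟨(l 4), by decide +kernel⟩

def k8_pm_011 : ∃ t, chk3 f_pm_011 t 78 119 1 = true :=
  ⟨(b (l 4) (a (l 4) (b (l 4) (a (a (l 4) (a (l 4) (b (l 4) (b (l 4) (c (l 110293425831) (l 97945390839)))))) (b (b (l 4) (a (l 4) (a (l 4) (c (l 78618039591) (l 76470555479))))) (c (a (b (a (l 4) (l 89355457287)) (c (l 53921977015) (l 53921976551))) (a (b (l 56606330919) (l 16777848)) (l 16777768))) (a (b (a (l 4) (l 86671102631)) (c (l 54458846967) (l 53921975687))) (a (b (l 56606328615) (l 16777528)) (l 16777456))))))))), by decide +kernel⟩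

def k9_pm_011 : ∃ t, chk3 f_pm_011 t 79 119 1 = true :=
  ⟨(b (a (l 4) (b (b (l 4) (a (l 4) (a (l 4) (c (l 125325807367) (l 125325811639))))) (a (b (l 4) (b (a (l 4) (c (b (l 113514651463) (l 75933684727)) (a (l 116199005079) (l 70564973639)))) (a (c (l 99019134087) (a (l 4) (l 80765521671))) (c (l 44258299239) (c (l 59827551831) (l 16776816)))))) (b (b (a (l 4) (c (c (l 70564976119) (l 70028104727)) (c (l 68954362471) (l 68417490935)))) (c (a (b (l 94724165607) (l 66806878455)) (l 16778376)) (a (c (l 77544297399) (l 76470555111)) (l 16778000)))) (c (c (l 16780080) (l 16779928)) (c (l 16780088) (a (l 16777568) (l 16776280)))))))) (a (b (a (b (l 4) (b (l 4) (a (l 4) (c (a (l 92576682103) (l 60364426871)) (a (l 89355456503) (l 59290682647)))))) (a (b (c (l 124252070647) (b (l 4) (l 115125258279))) (b (c (c (l 66806879687) (l 66806879223)) (c (l 66270007815) (l 65733136375))) (c (l 16778136) (l 16777792)))) (b (b (c (l 108682808007) (l 106535326135)) (c (c (l 59290686455) (l 58753815063)) (c (l 58753814551)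 (l 57680072343)))) (c (l 16782672) (l 16777104))))) (c (a (b (a (b (a (l 112977780167) (l 68417492039)) (l 36742107447)) (c (l 16777832) (l 16777688))) (l 16781240)) (b (l 16780848) (l 16772848))) (a (b (b (a (a (l 112977780055) (l 66270007591)) (l 16777928)) (c (l 35668362471) (l 16777992))) (l 16780984)) (b (l 16780600) (l 16772688))))) (c (b (c (a (b (a (l 42647686071) (l 16777136)) (l 16780504)) (l 16778688)) (a (b (a (l 41037073671) (l 16776992)) (l 16780392)) (l 16778608))) (l 16777224)) (a (b (b (a (a (c (l 44795170487) (l 44795169927)) (l 16777696)) (l 16776744)) (l 16780200)) (l 16776144)) (b (l 16778456) (l 16767768)))))), by decide +kernel⟩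

def k10_pm_011 : ∃ t, chk3 f_pm_011 t 16 30 1 = true :=
  ⟨(l 4), by decide +kernel⟩

def k11_pm_011 : ∃ t, chk3 f_pm_011 t 17 60 1 = true :=
  ⟨(l 4), by decide +kernel⟩

def k12_pm_011 : ∃ t, chk3 f_pm_011 t 34 61 1 = true :=
  ⟨(l 4), by decide +kernel⟩

def k13_pm_011 : ∃ t, chk3 f_pm_011 t 35 122 1 = true :=
  ⟨(l 4), by decide +kernel⟩

def k14_pm_011 : ∃ t, chk3 f_pm_011 t 70 123 1 = true :=
  ⟨(l 4), by decide +kernel⟩

def k15_pm_011 : ∃ t, chk3 f_pm_011 t 71 246 1 = true :=
  ⟨(l 4), by decide +kernel⟩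

def k16_pm_011 : ∃ t, chk3 f_pm_011 t 142 247 1 = true :=
  ⟨(l 4), by decide +kernel⟩

def k17_pm_011 : ∃ t, chk3 f_pm_011 t 143 494 1 = true :=
  ⟨(l 4), by decide +kernel⟩

def k18_pm_011 : ∃ t, chk3 f_pm_011 t 286 495 1 = true :=
  ⟨(b (l 4) (a (l 4) (b (l 4) (c (a (a (l 4) (b (l 4) (c (b (l 111904032983) (l 61438166887)) (b (l 112440903927) (l 60901295975))))) (a (b (c (l 121030837447) (l 122641450087)) (b (c (l 57143199511) (l 58216941319)) (l 16778696))) (b (c (b (l 101166614599) (l 53385103111)) (b (l 101703485479) (l 54458844855))) (c (l 16777232) (l 16777192))))) (a (a (l 4) (b (l 4) (c (b (l 114051516599) (l 63048779527)) (b (l 115662129303) (l 64122521255))))) (a (b (c (l 124252062727) (l 125325804439)) (c (l 43721426343) (l 43184555495))) (b (c (b (l 102777227207) (l 16778184)) (b (l 103314098039) (l 16778136))) (c (l 16777152) (l 16777104))))))))), by decide +kernel⟩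

def k19_pm_011 : ∃ t, chk3 f_pm_011 t 287 495 1 = true :=
  ⟨(b (a (l 4) (b (b (l 4) (a (l 4) (c (c (l 127473288759) (l 129083901399)) (c (l 131231384935) (l 132841997559))))) (a (b (l 4) (c (c (a (l 86134229575) (c (l 52848232311) (l 52311361447))) (a (l 87744842215) (c (l 53385103223) (l 53921974087)))) (c (a (l 89355454839) (c (l 54995715863) (l 55532586727))) (a (l 92039809287) (c (l 57143199415) (l 57143199351)))))) (c (c (b (a (b (l 4) (l 71101843399)) (c (l 48016393975) (l 48553264855))) (l 16777208)) (b (a (b (l 4) (l 71638714231)) (c (l 49090135719) (l 50163877495))) (l 16777168))) (c (b (a (l 84523616551) (l 49090135751)) (l 16777120)) (b (a (l 83449874775) (l 47479523159)) (l 16777072))))))) (b (a (b (a (l 4) (c (c (a (l 93113551511) (c (l 59290683367) (l 59290683319))) (a (l 94187293239) (c (l 60901296007) (l 60901295959)))) (c (a (l 95797905863) (c (l 61438166839) (l 62511908599))) (a (l 97945389383) (c (l 63048779463) (l 64659392151)))))) (c (a (c (a (l 115662128247) (c (l 64122521655) (l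 65196263431))) (a (l 117272740887) (b (l 93650421735) (l 16777552)))) (c (l 16778608) (l 16778568))) (a (c (a (l 101703485975) (c (l 67880617879) (l 67880617831))) (a (l 103314098599) (c (l 69491230519) (l 70028101383)))) (c (l 16778528) (l 16778480))))) (a (b (c (c (l 16778568) (l 16778528)) (c (l 16778480) (l 16777120))) (c (l 16777912) (l 16777840))) (c (l 16778192) (l 16778128)))) (c (a (c (a (b (c (l 8287946951) (l 16778320)) (l 16776720)) (l 16777648)) (a (b (c (l 16778296) (l 16778272)) (l 16776680)) (l 16777624))) (l 16777888)) (a (b (a (a (c (l 37815846231) (l 16778016)) (l 16778392)) (l 16777888)) (c (l 16777616) (l 16777576))) (l 16776536))))), by decide +kernel⟩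

def k20_pm_011 : ∃ t, chk3 f_pm_011 t 16 31 1 = true :=
  ⟨(b (b (l 4) (l 6)) (l 6)), by decide +kernel⟩

def k21_pm_011 : ∃ t, chk3 f_pm_011 t 68 124 1 = true :=
  ⟨(l 4), by decide +kernel⟩

def k22_pm_011 : ∃ t, chk3 f_pm_011 t 69 248 1 = true :=
  ⟨(l 4), by decide +kernel⟩

def k23_pm_011 : ∃ t, chk3 f_pm_011 t 138 249 1 = true :=
  ⟨(l 4), by decide +kernel⟩

def k24_pm_011 : ∃ t, chk3 f_pm_011 t 139 498 1 = true :=
  ⟨(l 4), by decide +kernel⟩

def k25_pm_011 : ∃ t, chk3 f_pm_011 t 278 499 1 = true :=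
  ⟨(l 4), by decide +kernel⟩

def k26_pm_011 : ∃ t, chk3 f_pm_011 t 279 998 1 = true :=
  ⟨(l 4), by decide +kernel⟩

def k27_pm_011 : ∃ t, chk3 f_pm_011 t 558 999 1 = true :=
  ⟨(b (l 4) (c (a (b (l 4) (a (l 4) (a (l 4) (b (l 4) (c (l 83986744855) (l 87207970279)))))) (b (a (l 4) (a (l 4) (b (l 4) (c (l 80228648263) (l 78081164711))))) (b (c (c (a (l 90429195751) (l 24394073383)) (a (l 91502937543) (l 26004686087))) (a (c (l 89355454039) (l 90429195831)) (c (l 26004686071) (l 27078427863)))) (a (c (c (c (l 32447136919) (l 32447136919)) (l 27078428023)) (c (l 30299653383) (l 30836524279))) (c (l 16777072) (l 16777048)))))) (a (b (l 4) (a (l 4) (a (l 4) (b (l 4) (c (l 87744841207) (l 87744841239)))))) (a (b (l 4) (c (c (b (l 91502937623) (l 31910266071)) (b (l 92576679415) (l 48553263911))) (c (b (l 93650421207) (l 46942651223)) (b (l 94724162999) (l 16777624))))) (a (b (l 4) (b (c (l 48016393351) (l 51774489687)) (l 16778080))) (b (b (l 4) (c (l 78081164743) (l 78618035671))) (c (l 16777752) (l 16777072)))))))),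 by decide +kernel⟩

def k28_pm_011 : ∃ t, chk3 f_pm_011 t 559 1998 1 = true :=
  ⟨(c (a (a (l 4) (b (l 4) (a (c (l 124252062647) (l 126399546247)) (b (l 4) (c (l 71638713623) (l 68417488263)))))) (a (b (l 4) (b (c (c (l 78618035559) (l 79154906455)) (c (l 75933681111) (l 78081164727))) (c (l 16777976) (l 16777952)))) (c (b (b (l 4) (c (l 74323068247) (l 76470551863))) (l 16777968)) (b (b (l 4) (c (l 72712455607) (l 73786197415))) (l 16777952))))) (a (a (l 4) (b (l 4) (a (c (l 127473288023) (l 130157642519)) (b (l 4) (c (l 68954359191) (l 69491230119)))))) (a (b (l 4) (b (c (c (l 79154906519) (l 80228648311)) (c (l 79691777447) (l 79691777415))) (c (l 16777928) (l 16777896)))) (c (b (b (l 4) (c (l 74859939207) (l 76470551911))) (l 16777920)) (b (b (l 4) (c (l 75933681047) (l 77007422839))) (l 16777896)))))), by decide +kernel⟩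

def k29_pm_011 : ∃ t, chk3 f_pm_011 t 559 1999 1 = true :=
  ⟨(c (c (c (a (b (a (b (l 84523615655) (l 16777856)) (l 16777848)) (l 16777376)) (a (l 16777512) (l 16776184))) (a (b (a (b (l 85597357447) (l 16778008)) (l 16777840)) (l 16777368)) (a (l 16777504) (l 16776176)))) (c (a (b (a (b (l 82376132119) (l 16777992)) (l 16777824)) (l 16777360)) (a (l 16777496) (l 16776168))) (a (b (a (b (l 84523615735) (l 16777984)) (l 16777816)) (l 16777352)) (a (l 16777488) (l 16776168))))) (c (c (a (b (a (b (l 85597357527) (l 16777968)) (l 16777800)) (l 16777344)) (c (l 16776616) (l 16776568))) (c (a (b (a (b (l 89892324631) (l 16777304)) (l 16777792)) (l 16777992)) (l 16776568)) (a (b (a (b (l 89892324615) (l 16777296)) (l 16777784)) (l 16777984)) (l 16776480)))) (c (c (a (b (a (b (l 87207970215) (l 16777288)) (l 16777776)) (l 16777976)) (l 16776480)) (a (b (a (b (l 87744841111) (l 16777280)) (l 16777776)) (l 16777976)) (l 16776312))) (c (a (b (a (b (l 88281712007) (l 16777272)) (l 16777768)) (l 16777968)) (l 16776304))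 (a (b (a (b (l 88818582903) (l 16777264)) (l 16777760)) (l 16777960)) (l 16776304)))))), by decide +kernel⟩

def k30_pm_011 : ∃ t, chk3 f_pm_011 t 68 125 1 = true :=
  ⟨(b (b (l 4) (l 6)) (l 6)), by decide +kernel⟩

def k31_pm_011 : ∃ t, chk3 f_pm_011 t 276 500 1 = true :=
  ⟨(l 4), by decide +kernel⟩

def k32_pm_011 : ∃ t, chk3 f_pm_011 t 277 1000 1 = true :=
  ⟨(l 4), by decide +kernel⟩

def k33_pm_011 : ∃ t, chk3 f_pm_011 t 554 1001 1 = true :=
  ⟨(b (l 4) (c (a (l 4) (b (l 4) (a (b (l 4) (a (l 4) (b (l 4) (c (l 72175584471) (l 74859938983))))) (a (b (l 4) (a (c (l 52848231623) (l 54995715223)) (c (l 16777704) (l 16778008)))) (b (b (l 4) (c (l 65733133511) (l 67880617111))) (c (l 16777264) (l 16777248))))))) (a (l 4) (b (l 4) (a (a (l 4) (b (l 4) (c (l 85597357351) (l 86134228295)))) (c (a (b (l 4) (c (l 56606327655) (l 53921973159))) (b (l 78618035559) (l 16777224))) (c (b (l 88281712055) (l 23320331511)) (b (l 89892324775) (l 23857202407))))))))), by decide +kernel⟩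

def k34_pm_011 : ∃ t, chk3 f_pm_011 t 555 1001 2 = true :=
  ⟨(b (a (l 4) (b (l 4) (a (b (l 4) (a (c (l 105998452007) (l 105998452039)) (c (c (l 69491229831) (l 70564971639)) (c (l 68954358967) (l 71101842583))))) (b (a (c (l 98482259383) (l 100629742983)) (c (c (l 65196262535) (l 66270004327)) (c (l 64659391655) (l 66270004375)))) (c (c (l 16777936) (l 16777928)) (l 6140462535)))))) (b (c (b (b (a (a (l 4) (l 105461581287)) (c (l 5603591447) (l 16777856))) (a (a (l 4) (c (l 74859938983) (l 75933680791))) (l 16777704))) (a (a (a (l 4) (a (l 90429195591) (l 67343746263))) (c (l 14730396999) (l 14730396983))) (l 16777464))) (b (a (a (l 4) (c (a (l 113514644695) (l 73249326279)) (l 83449873703))) (c (l 16777856) (l 16777928))) (a (c (a (l 85060486487) (l 14730396951)) (a (l 86134228295) (l 16777856))) (l 16777448)))) (c (c (a (a (b (c (l 20099105991) (l 20635976887)) (l 16777016)) (l 16777496)) (l 16776328)) (a (a (b (c (l 20635976871) (l 20635976871)) (l 16777008)) (l 16777488)) (l 16776320))) (c (a (a (b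 (c (l 21709718679) (l 21709718679)) (l 16777000)) (l 16777480)) (l 16776312)) (a (a (b (l 18488493351) (l 16776992)) (l 16777472)) (l 16776312)))))), by decide +kernel⟩

def k35_pm_011 : ∃ t, chk3 f_pm_011 t 555 1001 3 = true :=
  ⟨(b (a (l 4) (b (l 4) (c (a (b (l 4) (c (l 81839260919) (l 83449873623))) (b (c (l 79154906327) (l 80765519031)) (l 16777888))) (a (b (l 4) (c (l 79154906471) (l 81302390087))) (b (c (l 76470551879) (l 77544293671)) (l 16777864)))))) (a (c (a (a (b (l 4) (a (b (l 51237618807) (l 16777104)) (l 16777832))) (b (b (l 4) (c (l 79154906295) (l 80228648087))) (l 16777712))) (b (c (b (l 84523615511) (l 16777928)) (b (l 86134228215) (l 16777912))) (l 16777456))) (a (a (b (l 4) (b (l 32984008023) (l 16777040))) (b (b (l 4) (l 80228648135)) (l 16777688))) (b (c (b (l 82376131975) (l 16777904)) (b (l 83986744679) (l 16777888))) (l 16777440)))) (c (c (c (a (b (l 16777760) (l 16777784)) (l 16776456)) (a (b (l 16777760) (l 16777784)) (l 16776456))) (c (a (b (l 16777752) (l 16777776)) (l 16776448))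 (a (b (l 16777744) (l 16777776)) (l 16776448)))) (c (c (a (b (l 16777744) (l 16777768)) (l 16776440)) (a (b (l 16777736) (l 16777768)) (l 16776440))) (a (b (l 16777728) (l 16776448)) (l 16776432)))))), by decide +kernel⟩

def k36_pm_011 : ∃ t, chk3 f_pm_011 t 276 501 1 = true :=
  ⟨(b (a (l 6) (a (l 6) (b (b (l 4) (l 6)) (l 6)))) (l 6)), by decide +kernel⟩

def k37_pm_011 : ∃ t, chk3 f_pm_011 t 554 1002 2 = true :=
  ⟨(b (b (a (a (a (l 4) (b (l 4) (c (l 86671099415) (l 88281712103)))) (c (a (b (l 4) (c (l 56606327831) (l 62511907767))) (b (a (l 105461581207) (l 82376131863)) (l 16777952))) (a (b (l 4) (c (l 59290682359) (l 60901295079))) (b (l 84523615687) (l 16777928))))) (c (b (b (a (c (l 47479522423) (l 52311360519)) (l 16777112)) (l 16777776)) (l 16777536)) (b (b (a (c (l 57143198631) (l 58753811335)) (l 16777096)) (l 16777760)) (l 16777520)))) (c (c (c (a (b (a (a (l 6) (l 16777320)) (l 16777072)) (l 16777576)) (l 16776392)) (a (a (a (l 6) (l 16777816)) (l 16777560)) (l 16776392))) (c (a (a (a (l 6)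 (l 16777808)) (l 16777560)) (l 16776392)) (b (a (a (a (l 6) (l 16777304)) (l 16777056)) (l 16777864)) (a (l 16777560) (l 16776224))))) (c (c (b (a (a (a (l 6) (l 16777296)) (l 16777056)) (l 16777856)) (a (l 16777560) (l 16776224))) (b (a (a (a (l 6) (l 16777296)) (l 16777048)) (l 16777856)) (a (l 16777552) (l 16776224)))) (b (b (a (a (l 65733133271) (l 16777120)) (l 16777928)) (a (l 16777784) (l 16777768))) (a (l 16777552) (l 16776216)))))) (a (a (l 6) (l 16776912)) (l 16776576))), by decide +kernel⟩

def k38_pm_011 : ∃ t, chk3 f_pm_011 t 554 1002 3 = true :=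
  ⟨(b (a (b (a (a (l 4) (b (l 4) (c (l 95261033751) (l 92576679303)))) (a (b (l 4) (a (c (l 70028100711) (l 72175584311)) (c (l 37278975223) (l 45332038695)))) (b (c (l 89355453767) (l 88818582887)) (c (l 16777912) (l 16777232))))) (c (a (a (l 6) (c (l 16777776) (l 16777768))) (l 16777528)) (b (a (a (l 6) (l 16777904)) (l 16777664)) (l 16777680)))) (c (a (b (b (a (a (l 64659391575) (l 16777672)) (l 16777240)) (l 16777672)) (l 16776536)) (b (l 16777496) (l 16776200))) (c (a (b (a (b (l 59290682279) (l 16777080)) (l 16777072)) (l 16777840)) (l 16776760)) (a (b (a (b (l 58753811415) (l 16777072)) (l 16777056)) (l 16777832)) (l 16776664))))) (c (l 16776784) (l 16776776))), by decide +kernel⟩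

def k39_pm_011 : ∃ t, chk3 f_pm_011 t 555 1002 1 = true :=
  ⟨(b (c (a (c (l 16776688) (l 16776680)) (l 16776512)) (c (l 16776392) (l 16776712))) (c (l 16776216) (l 16776232))), by decide +kernel⟩

def k40_pm_011 : ∃ t, chk3 f_pm_011 t 277 1003 1 = true :=
  ⟨(b (c (c (c (l 16775856) (l 16775832)) (c (l 16775808) (l 16775792))) (c (c (l 16775768) (l 16775744)) (c (l 16775720) (l 16775696)))) (c (c (l 16774344) (l 16774280)) (c (l 16774208) (l 16774136)))), by decide +kernel⟩

def k41_pm_011 : ∃ t, chk3 f_pm_011 t 556 1000 1 = true :=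
  ⟨(b (l 4) (c (a (l 4) (b (l 4) (c (a (b (l 4) (a (l 86134228311) (a (l 57680069863) (l 16777728)))) (b (a (l 79154906519) (a (l 51237618935) (l 16778048))) (l 16777864))) (a (b (l 4) (a (l 83449873879) (a (l 60364424375) (l 16778032)))) (b (a (l 81839261031) (a (l 53921973447) (l 16777368))) (l 16777848)))))) (a (l 4) (b (l 4) (c (a (b (l 4) (c (a (l 92576679095) (l 56069456871)) (l 71101842551))) (b (a (l 83449873783) (l 35131491767)) (l 16777168))) (a (b (l 4) (c (l 66806875383) (l 71638713479))) (b (c (l 68954358855) (l 67343746183)) (l 16777144)))))))), by decide +kernel⟩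

def k42_pm_011 : ∃ t, chk3 f_pm_011 t 557 1000 2 = true :=
  ⟨(b (a (a (l 4) (a (l 4) (b (l 4) (c (l 124788933543) (l 126399546231))))) (b (a (l 4) (a (l 4) (a (l 4) (c (l 119420224951) (l 120493966071))))) (c (a (a (b (l 4) (c (l 69491229959) (l 70564971751))) (b (l 101166613959) (l 16778032))) (b (a (c (l 67343746215) (l 66270004439)) (l 16778024)) (l 16777144))) (a (b (l 100629743303) (a (l 72712455367) (l 16778008))) (b (a (l 61438166359) (l 16778000)) (l 16777120)))))) (c (c (b (a (a (b (l 126936417127) (a (l 80765519079) (l 16777736))) (b (a (l 74859939095) (l 16777400)) (l 16777184))) (l 16777648)) (a (c (l 16777528) (l 16777520)) (l 16776176))) (b (a (b (a (l 128547029831) (a (l 74859939079) (l 16777384))) (a (a (l 79154906391) (l 16777728)) (l 16777176))) (l 16777808)) (a (c (l 16777520) (l 16777512)) (l 16776176)))) (c (b (a (b (a (l 129083900727) (a (l 75933680871) (l 16777376))) (a (a (l 80765519111) (l 16777392)) (l 16777160))) (l 16777800)) (a (c (l 16777512) (l 16777504)) (l 16776168)))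 (b (a (b (a (l 112440903159) (c (l 60901295127) (l 61975036935))) (a (c (l 59290682551) (l 59290682535)) (l 16777152))) (l 16777792)) (a (c (l 16777504) (l 16777496)) (l 16776168)))))), by decide +kernel⟩

def k43_pm_011 : ∃ t, chk3 f_pm_011 t 557 1000 3 = true :=
  ⟨(b (a (a (l 4) (a (l 4) (b (l 4) (c (l 128547029831) (l 130157642519))))) (b (a (l 4) (a (l 4) (c (l 124252063127) (l 126399546711)))) (b (c (a (l 103314097799) (a (l 67343746263) (l 16777312))) (a (l 102240356087) (c (l 58216940455) (l 52848231479)))) (a (a (c (l 70028100919) (l 70028100935)) (c (l 16777984) (l 16777960))) (c (l 16777096) (l 16777072)))))) (c (b (a (b (a (l 130157642487) (a (l 73786197319) (l 16777840))) (a (a (l 78081164647) (l 30836524439)) (l 16777136))) (c (l 16777784) (l 16777768))) (a (a (l 16777648) (l 16777976)) (l 16776152))) (a (a (b (b (l 107609065271) (c (l 63585649767) (l 65733133383))) (l 16777792)) (b (b (c (l 59290682471) (l 61438166087)) (l 16777112)) (l 16777952))) (a (b (l 16777592) (l 16776312)) (l 16776296))))),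 by decide +kernel⟩

def k44_pm_011 : ∃ t, chk3 f_pm_011 t 278 1001 1 = true :=
  ⟨(c (a (b (c (a (a (b (b (l 4) (a (l 94724162967) (a (l 69491229927) (l 43184555223)))) (c (l 16777760) (l 16777752))) (b (b (a (l 90966066551) (a (l 64122520791) (l 37815846087))) (l 16777904)) (l 16777424))) (b (a (c (l 16777728) (l 16777720)) (l 16778040)) (l 16776248))) (a (a (b (b (l 4) (a (l 96871646567) (a (l 72175584439) (l 45868909735)))) (c (l 16777744) (l 16777736))) (b (b (a (l 88818583015) (a (l 67343746215) (l 16777720))) (l 16777880)) (l 16777408))) (b (a (c (l 16777712) (l 16777704)) (l 16778024)) (l 16776240)))) (c (a (l 16777272) (l 16776776)) (l 16776336))) (b (c (l 16776280) (l 16776272)) (l 16776088))) (a (b (c (c (a (a (b (b (l 4) (l 75396809911)) (l 16777728)) (b (b (l 72712455335) (l 16777208)) (l 16778048))) (a (b (l 16777688) (l 16776400)) (l 16776384))) (a (a (b (b (l 4) (l 77544293543)) (l 16777712)) (b (b (l 73786197127) (l 16777200)) (l 16778040))) (a (b (l 16777680) (l 16776392)) (l 16776376))))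 (c (b (b (a (a (l 4) (l 70564971783)) (l 16777664)) (a (a (l 72712455463) (l 16777184)) (l 16778000))) (b (a (l 16777696) (l 16776376)) (l 16776400))) (b (a (a (b (l 4) (l 75396809991)) (b (l 74323068071) (l 16777168))) (a (l 16777656) (l 16777984))) (b (a (l 16777680) (l 16776368)) (l 16776392))))) (c (l 16776328) (l 16776312))) (b (c (l 16776256) (l 16776248)) (l 16776016)))), by decide +kernel⟩

def k45_pm_011 : ∃ t, chk3 f_pm_011 t 279 500 1 = true :=
  ⟨(b (c (a (b (c (c (a (b (a (b (l 96871646743) (a (l 64122520679) (l 16777352))) (a (b (l 58753811575) (l 16777192)) (l 16777184))) (l 16777448)) (b (l 16777416) (l 16776104))) (a (b (a (b (l 97408517639) (c (l 39963329719) (l 40500200631))) (a (b (l 59827553367) (l 16777184)) (l 16777176))) (l 16777440)) (b (l 16777408) (l 16776096)))) (c (a (b (b (a (l 98482259431) (l 33520878887)) (a (c (l 42110813351) (l 42110813335)) (l 16777088))) (l 16777432)) (b (l 16777400) (l 16776096))) (a (b (b (a (l 99556001239) (l 34057749783)) (a (c (l 52848231319) (l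 53385102215)) (l 16777080))) (l 16777424)) (b (l 16777392) (l 16776088))))) (c (l 16776216) (l 16776200))) (c (l 16776224) (l 16776200))) (a (c (c (b (a (b (a (b (l 100629743031) (l 39963329815)) (b (l 35131491575) (l 16777064))) (l 16777416)) (b (l 16777376) (l 16776080))) (l 16776192)) (b (a (b (a (b (l 101703484823) (l 52311360423)) (b (l 51774489415) (l 16777056))) (l 16777408)) (b (l 16777368) (l 16776080))) (l 16776184))) (c (b (a (b (a (b (l 99556001303) (l 54458844055)) (b (l 50163876727) (l 16777040))) (l 16777392)) (b (l 16777360) (l 16776072))) (l 16776176)) (b (a (b (a (b (l 100629743095) (l 52848231367)) (b (l 49627005863) (l 16777032))) (l 16777384)) (b (l 16777352) (l 16776064))) (l 16776176)))) (c (l 16776176) (l 16776144)))) (c (c (a (l 16775624) (l 16774728)) (a (l 16775576) (l 16774656))) (c (a (l 16775528) (l 16774584)) (a (l 16775480) (l 16774512))))), by decide +kernel⟩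

def k46_pm_011 : ∃ t, chk3 f_pm_011 t 139 501 1 = true :=
  ⟨(c (b (b (a (c (l 16775392) (l 16775344)) (c (l 16773272) (l 16773840))) (a (a (a (l 16774224) (l 16775080)) (l 16775056)) (c (l 16771784) (l 16771672)))) (a (c (a (l 16773416) (l 16771872)) (a (l 16773984) (l 16771760))) (c (l 16771184) (l 16771040)))) (b (a (a (c (l 16775664) (l 16775608)) (b (l 16774472) (l 16774888))) (c (a (l 16773776) (l 16771520)) (a (l 16773672) (l 16771392)))) (a (c (a (l 16773896) (l 16771640)) (a (l 16773792) (l 16771512))) (c (l 16770888) (l 16771048))))), by decide +kernel⟩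

def k47_pm_011 : ∃ t, chk3 f_pm_011 t 69 251 1 = true :=
  ⟨(a (b (a (l 6) (a (l 6) (b (b (c (l 16773664) (l 16773448)) (l 6)) (l 6)))) (l 6)) (b (c (c (b (a (c (l 16770672) (l 16770600)) (l 16768856)) (a (l 16768952) (l 16767176))) (a (b (c (l 16770528) (l 16770456)) (l 16768760)) (b (l 16768672) (l 16766944)))) (c (a (b (c (l 16770376) (l 16770296)) (l 16768560)) (b (l 16768464) (l 16766696))) (a (b (c (l 16770216) (l 16770136)) (l 16768352)) (b (l 16768248) (l 16766432))))) (c (c (a (b (l 16767256) (l 6)) (c (l 16766032) (l 16765888))) (a (b (l 16767032) (l 6)) (c (l 16765736) (l 16765584)))) (c (a (b (l 16766784) (l 6)) (c (l 16765424) (l 16765264))) (a (b (l 16766520) (l 6)) (c (l 16765088) (l 16764920))))))), by decide +kernel⟩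

def k48_pm_011 : ∃ t, chk3 f_pm_011 t 140 248 1 = true :=
  ⟨(l 4), by decide +kernel⟩

def k49_pm_011 : ∃ t, chk3 f_pm_011 t 141 496 1 = true :=
  ⟨(l 4), by decide +kernel⟩

def k50_pm_011 : ∃ t, chk3 f_pm_011 t 282 497 1 = true :=
  ⟨(b (l 4) (a (l 4) (a (l 4) (a (l 4) (b (l 4) (b (l 4) (b (l 4) (c (c (l 83449874327) (l 83449874295)) (c (l 85597357895) (l 87207970551)))))))))), by decide +kernel⟩

def k51_pm_011 : ∃ t, chk3 f_pm_011 t 283 994 1 = true :=
  ⟨(a (l 4) (a (l 4) (b (l 4) (b (l 4) (c (c (a (l 124252062871) (b (l 103850968935) (l 54995715623))) (a (l 125862675527) (b (l 103850969015) (l 55532586535)))) (c (a (l 127473288183) (b (l 104387839927) (l 54458844807))) (a (l 129083900839) (b (l 105998452567) (l 56069457463))))))))), by decide +kernel⟩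

def k52_pm_011 : ∃ t, chk3 f_pm_011 t 283 995 2 = true :=
  ⟨(a (b (a (l 4) (a (l 4) (b (l 4) (b (l 4) (c (l 68417488615) (l 69491230455)))))) (a (a (b (l 4) (b (c (l 78618036087) (l 80765519703)) (c (l 16778088) (l 16777400)))) (b (b (l 4) (c (l 77007423239) (l 75396810599))) (c (l 16777920) (l 16777896)))) (c (b (b (a (l 73249326839) (l 16777376)) (l 16777896)) (l 16778072)) (b (b (a (l 72175585111) (l 16777344)) (l 16777864)) (l 16778048))))) (b (c (a (a (a (b (l 4) (c (l 56069457351) (l 57680070055))) (b (l 4) (l 17414752103))) (b (b (l 110293420103) (l 62511908471)) (l 16777184))) (b (a (b (l 57680070263) (l 16777320)) (l 16777144)) (l 16777984))) (a (a (a (b (l 4) (c (l 58216940935) (l 56069457415))) (b (l 4) (l 18488493863))) (b (b (l 112440903671) (l 61438166743)) (l 16777152))) (b (b (a (l 57680070279) (l 16777264)) (l 16777120)) (l 16777960)))) (a (c (l 16777696) (l 16777680)) (l 16776664)))), by decide +kernel⟩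

def k53_pm_011 : ∃ t, chk3 f_pm_011 t 283 995 3 = true :=
  ⟨(a (b (a (l 4) (a (l 4) (b (l 4) (b (l 4) (c (l 70028101367) (l 71638714023)))))) (a (a (a (b (l 4) (c (b (l 111367161687) (l 16777432)) (b (l 113514644679) (l 16777392)))) (b (l 4) (b (c (l 72712455687) (l 73786197431)) (l 16778256)))) (b (b (l 4) (c (l 78081165079) (l 78618035991))) (c (l 16777856) (l 16777824)))) (c (b (b (a (l 73249326855) (l 16777312)) (l 16777832)) (l 16778016)) (b (a (b (l 74323068679) (l 16777288)) (l 16777128)) (l 16777984))))) (b (c (a (a (b (l 4) (b (l 65733134023) (l 16777288))) (b (b (l 113514645495) (l 61975037655)) (l 16777120))) (b (a (b (l 58753812103) (l 16777248)) (l 16777080)) (l 16777928))) (a (a (b (l 4) (c (l 53385102471) (l 52311360695))) (b (b (l 115662129063) (l 63585650311)) (l 16777088))) (b (a (c (l 47479522375) (l 48553264167)) (l 16777040)) (l 16777896)))) (a (b (a (l 16778128) (l 16777792)) (l 16776016)) (l 16777616)))), by decide +kernel⟩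

def k54_pm_011 : ∃ t, chk3 f_pm_011 t 280 498 1 = true :=
  ⟨(l 4), by decide +kernel⟩

def k55_pm_011 : ∃ t, chk3 f_pm_011 t 281 996 1 = true :=
  ⟨(l 4), by decide +kernel⟩

def k56_pm_011 : ∃ t, chk3 f_pm_011 t 562 997 1 = true :=
  ⟨(b (l 4) (c (a (b (l 4) (c (a (b (l 4) (l 89355454199)) (c (b (l 87744841367) (l 16777752)) (b (l 88818583159) (l 16778064)))) (a (b (l 4) (l 89892325143)) (b (l 85597357815) (a (l 50700748039) (l 16777320)))))) (a (c (b (b (l 4) (c (l 84523615863) (l 85060486743))) (c (l 16777920) (l 16777904))) (b (c (l 112977773399) (l 113514644279)) (c (l 16777888) (l 16777880)))) (c (b (b (a (l 107072194343) (l 69491230199)) (l 16778040)) (l 16778232)) (b (b (a (l 108145936183) (l 70564972039)) (l 16778016)) (l 16778208))))) (a (b (l 4) (b (a (l 4) (c (l 86671099639) (l 88281712391))) (c (a (l 90966066967) (l 24394073751)) (a (l 91502937895) (l 26004686375))))) (a (c (b (b (l 4) (l 85597357703)) (c (l 16777864) (l 16777848))) (b (b (l 4) (l 84523615975)) (c (l 16777832) (l 16777816))))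 (c (b (b (l 81302390375) (l 16777984)) (l 16778184)) (b (b (l 80228648647) (l 16777952)) (l 16776848))))))), by decide +kernel⟩

def k57_pm_011 : ∃ t, chk3 f_pm_011 t 563 997 1 = true :=
  ⟨(b (c (a (b (l 4) (c (a (b (l 4) (c (l 76470552135) (l 78081164839))) (b (c (l 73249326631) (l 74859939335)) (l 16777352))) (a (b (l 4) (c (l 79154906631) (l 80228648423))) (b (c (l 75933681127) (l 76470552007)) (l 16777320))))) (c (b (b (a (l 4) (c (l 65733133831) (l 66270004727))) (a (c (l 70028101143) (l 71101842935)) (l 16777312))) (c (l 16777672) (l 16777656))) (b (b (a (l 4) (c (l 67880617431) (l 68954359223))) (a (c (l 72175584727) (l 72712455607)) (l 16777288))) (c (l 16777648) (l 16777632))))) (a (b (l 4) (b (a (l 4) (c (l 74859939383) (l 73786197655))) (a (c (l 78618035783) (l 77544294055)) (c (l 16777296) (l 16777256))))) (c (b (b (a (l 4) (c (l 69491230103) (l 70564971895))) (a (c (l 73786197399) (l 73786197367)) (l 16777256))) (c (l 16777624) (l 16777608))) (b (b (a (l 4) (l 67343746615)) (a (l 70028101255)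 (l 16777224))) (c (l 16777592) (l 16777576)))))) (c (a (b (c (c (l 16777712) (l 16777696)) (c (l 16777688) (l 16777672))) (l 16777704)) (c (l 16777344) (l 16777328))) (c (a (a (b (l 16778144) (l 16777848)) (l 16777824)) (l 16776000)) (a (a (b (l 16777784) (l 16777824)) (l 16777800)) (l 16775984))))), by decide +kernel⟩

def k58_pm_011 : ∃ t, chk3 f_pm_011 t 560 998 1 = true :=
  ⟨(b (l 4) (c (a (a (l 4) (b (l 4) (b (l 4) (a (c (l 85060486695) (l 86671099383)) (c (l 48553264423) (l 51237618935)))))) (a (b (l 4) (b (c (c (l 63585649959) (l 65733133575)) (c (l 66270004471) (l 67343746263))) (c (l 16777256) (l 16777232)))) (c (b (b (l 106535323543) (c (l 58216940871) (l 59827553575))) (l 16777736)) (b (b (l 107072194487) (c (l 60364424471) (l 61975037175))) (l 16777712))))) (a (a (l 4) (b (l 4) (b (l 4) (a (c (l 87744841223) (l 87207970327)) (c (l 53921973431) (l 51774489879)))))) (a (a (b (l 4) (b (c (l 83449873895) (l 82913002999)) (c (l 16777280) (l 16777248)))) (b (l 4) (b (c (l 49090135207) (l 16777696))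 (l 16778088)))) (c (b (b (l 109219678071) (c (l 63585649879) (l 64659391671))) (l 16777688)) (b (b (l 110293419911) (c (l 61975037255) (l 63048779047))) (l 16777656))))))), by decide +kernel⟩

def k59_pm_011 : ∃ t, chk3 f_pm_011 t 561 998 1 = true :=
  ⟨(b (c (a (b (l 4) (c (a (l 124252063447) (b (l 99556001623) (c (l 54458844311) (l 57143198839)))) (a (l 126399547031) (b (l 100092872567) (c (l 55532586167) (l 54458844391)))))) (c (a (b (b (l 4) (l 95797905207)) (b (c (l 53385102391) (l 52848231527)) (l 16777176))) (b (b (l 92576679703) (a (l 59827553623) (l 16777384))) (l 16777656))) (a (a (a (b (l 4) (c (l 37815846247) (l 49627005959))) (b (l 4) (c (l 16778000) (l 16777336)))) (b (l 119957095239) (l 16777880))) (b (b (l 93113550647) (a (l 60364424487) (l 16777360))) (l 16777632))))) (a (b (l 4) (c (a (l 128010159063) (b (l 101703485239) (c (l 56069457095) (l 57143198887)))) (a (l 130157642647) (b (l 102777227063) (c (l 58216940679) (l 58753811559)))))) (c (a (a (b (l 4) (b (l 64659391863) (l 16777208)))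 (b (l 121030836999) (l 16777856))) (b (b (l 94187292487) (a (l 59827553671) (l 16777328))) (l 16777608))) (a (a (b (l 4) (c (l 30299653543) (l 50163876679))) (b (l 122641449671) (l 16777824))) (b (b (l 95261034279) (a (l 61438166343) (l 16777296))) (l 16778232)))))) (c (c (c (a (b (a (b (l 59290682535) (l 16777224)) (l 16777048)) (l 16777880)) (l 16777512)) (a (b (a (b (l 58216940759) (l 16777208)) (l 16777032)) (l 16777872)) (l 16777504))) (c (a (b (a (b (l 56606328087) (l 16777200)) (l 16777024)) (l 16777864)) (l 16777496)) (a (b (a (b (l 57680069879) (l 16777184)) (l 16777008)) (l 16777848)) (l 16777488)))) (c (c (a (b (a (b (l 59827553495) (l 16777176)) (l 16777000)) (l 16777840)) (l 16776168)) (a (b (a (b (l 60901295287) (l 16777160)) (l 16776984)) (l 16777832)) (l 16776160))) (a (b (a (b (c (l 60901295255) (l 62511907959)) (l 16777136)) (l 16777616)) (l 16776504)) (l 16777464))))), by decide +kernel⟩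

def k60_pm_011 : ∃ t, chk3 f_pm_011 t 280 999 1 = true :=
  ⟨(c (a (c (c (b (c (a (b (a (b (l 72175584567) (l 16777296)) (l 16777128)) (l 16777960)) (l 16777592)) (a (b (a (b (l 72175584567) (l 16777296)) (l 16777120)) (l 16777952)) (l 16777584))) (l 16776728)) (b (c (a (b (a (b (l 72712455463) (l 16777288)) (l 16777112)) (l 16777952)) (l 16777584)) (a (b (a (b (l 73249326359) (l 16777280)) (l 16777104)) (l 16777944)) (l 16777584))) (l 16776728))) (c (b (c (a (b (a (b (l 70028101031) (l 16777272)) (l 16777104)) (l 16777944)) (l 16777576)) (a (b (a (b (l 70028101015) (l 16777272)) (l 16777096)) (l 16777936)) (l 16777576))) (l 16776720)) (b (c (a (b (a (b (l 70564971911) (l 16777264)) (l 16777088)) (l 16777928)) (l 16777568)) (a (b (a (b (l 71638713735) (l 16777256)) (l 16777080)) (l 16777928)) (l 16777568))) (l 16776712)))) (c (l 16776248) (l 16776216))) (c (a (c (b (c (a (b (a (b (l 72175584631) (l 16777248)) (l 16777080)) (l 16777920)) (l 16776256)) (a (b (a (b (l 72712455527) (l 16777240)) (l 16777072))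 (l 16777920)) (l 16776248))) (l 16776704)) (a (b (b (a (b (l 72712455495) (l 16777232)) (l 16777064)) (l 16777912)) (l 16775648)) (b (l 16777552) (l 16775144)))) (l 16776192)) (c (a (a (b (b (a (b (l 72712455543) (l 16777216)) (l 16777048)) (l 16777896)) (l 16775640)) (l 16776664)) (l 16776168)) (a (a (b (b (a (b (l 73786197335) (l 16777200)) (l 16777032)) (l 16777888)) (l 16775640)) (l 16776576)) (l 16776160))))), by decide +kernel⟩

def k61_pm_011 : ∃ t, chk3 f_pm_011 t 281 499 1 = true :=
  ⟨(b (c (c (a (a (b (a (b (b (c (l 46405780487) (l 47479522279)) (l 16777144)) (l 16777968)) (c (l 16777624) (l 16777616))) (l 16776808)) (b (l 16777424) (l 16775048))) (l 16776096)) (a (a (b (a (b (a (b (l 55532586263) (l 16777200)) (l 16777192)) (l 16777944)) (c (l 16777608) (l 16777592))) (l 16775496)) (b (l 16777408) (l 16775024))) (l 16776072))) (c (a (a (a (b (b (a (b (l 54458844551) (l 16777168)) (l 16777160)) (l 16777928)) (l 16775656)) (b (c (l 16777584) (l 16777576)) (l 16775360))) (b (l 16777400) (l 16775000)))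 (l 16776040)) (a (b (b (b (a (a (a (l 54995715399) (l 16777272)) (l 16777040)) (l 16777856)) (a (l 16778208) (l 16776224))) (l 16777400)) (l 16775880)) (l 16776008)))) (c (c (a (l 16775352) (l 16774456)) (a (l 16775304) (l 16774384))) (c (a (l 16775248) (l 16774312)) (a (l 16775192) (l 16774232))))), by decide +kernel⟩

def k62_pm_011 : ∃ t, chk3 f_pm_011 t 282 996 2 = true :=
  ⟨(a (b (a (l 4) (a (l 4) (b (l 4) (c (l 120493967047) (l 122641449975))))) (a (a (b (l 4) (c (b (l 110293419911) (c (l 64122520967) (l 62511908359))) (b (l 111367161751) (c (l 63048779255) (l 64122521047))))) (a (b (l 4) (b (c (l 75933681191) (l 77007423031)) (l 16778328))) (b (c (l 124252062711) (l 125862675383)) (c (l 16778000) (l 16777968))))) (c (b (a (b (l 103850968903) (c (l 56069457303) (l 57143199095))) (b (c (l 51774489991) (l 52311360871)) (l 16777240))) (l 16777912)) (b (a (b (l 103314098087) (c (l 57680069975) (l 58753811767))) (a (c (l 37278975367) (l 49090135063)) (l 16777280))) (l 16777888))))) (b (a (a (b (l 4) (c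 (b (l 95261034407) (c (l 50163877143) (l 49090135383))) (b (l 95261034423) (l 39963330151)))) (a (b (l 4) (b (c (l 57143199143) (l 59290682727)) (l 16778576))) (b (c (l 93650421751) (l 94187292743)) (c (l 16777272) (l 16777240))))) (c (b (a (b (l 86671099831) (l 28152170183)) (a (l 13656655639) (l 16777232))) (l 16778152)) (b (a (b (l 87744841575) (l 31910266423)) (a (l 13119784743) (l 16777200))) (l 16778128)))) (b (a (c (l 16777544) (l 16777520)) (l 16777496)) (c (l 16775888) (l 16775872))))), by decide +kernel⟩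

def k63_pm_011 : ∃ t, chk3 f_pm_011 t 282 996 3 = true :=
  ⟨(a (b (a (l 4) (a (l 4) (b (l 4) (c (l 124252062631) (l 126399546199))))) (a (a (b (l 4) (c (b (l 112440903575) (c (l 64122521015) (l 65733133719))) (b (l 114588387159) (l 64122521095)))) (a (b (l 4) (c (c (l 51774489815) (l 53385102519)) (c (l 54458844311) (l 52311360775)))) (b (c (l 127473288055) (l 129083900711)) (c (l 16777936) (l 16777904))))) (c (b (a (b (l 105461581655) (l 56606328231)) (b (l 54458844487) (l 16777176))) (l 16777856)) (b (a (b (l 105998452567) (l 53921973767)) (b (l 53385102743) (l 16777144))) (l 16777832))))) (b (b (b (a (l 4) (c (a (l 88818583367) (l 16778040)) (a (l 90966066967) (l 16778000)))) (c (a (a (l 4) (l 93650421575)) (c (l 16777912) (l 16777896))) (a (a (l 4) (l 94724163383)) (c (l 16777880) (l 16777864))))) (c (a (a (b (l 97408517991) (l 50700748071)) (b (l 47479522503) (l 16777136))) (l 16778104)) (a (a (b (l 98482259767) (l 50700748087)) (b (l 46405780759) (l 16777104))) (l 16778072)))) (b (a (c (l 16777816)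 (l 16778112)) (l 16777456)) (c (l 16775856) (l 16775840))))), by decide +kernel⟩

def k64_pm_011 : ∃ t, chk3 f_pm_011 t 282 997 1 = true :=
  ⟨(c (c (a (b (b (a (a (l 16777792) (l 16778112)) (l 16776280)) (l 16777280)) (l 16776424)) (l 16775944)) (a (b (a (a (b (l 16777768) (l 16777784)) (l 16777760)) (l 16775936)) (l 16776408)) (l 16775912))) (a (b (b (a (a (c (l 16777088) (l 16777056)) (l 16778048)) (l 16777544)) (c (l 16775944) (l 16775928))) (l 16776384)) (c (l 16775880) (l 16775856)))), by decide +kernel⟩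

def k65_pm_011 : ∃ t, chk3 f_pm_011 t 283 498 1 = true :=
  ⟨(c (b (c (a (a (b (a (l 16777800) (l 16777608)) (l 16775184)) (c (l 16777112) (l 16777104))) (l 16775784)) (a (b (a (a (l 16777776) (l 16776280)) (l 16775760)) (l 16776248)) (l 16775752))) (c (l 16774608) (l 16774544))) (a (b (b (a (b (c (l 16778056) (l 16778032)) (l 16777408)) (l 16777704)) (l 16776224)) (l 16774912)) (b (l 16776032) (l 16775272)))), by decide +kernel⟩

def k66_pm_011 : ∃ t, chk3 f_pm_011 t 141 499 1 = true :=
  ⟨(c (b (a (c (l 16774760) (l 16774696)) (a (l 16774688) (l 16773792))) (a (a (a (l 16775056) (l 16774608)) (l 16773936)) (c (l 16770040) (l 16769888)))) (b (a (c (l 16774632) (l 16774560)) (a (l 16774480) (l 16773536))) (a (a (a (l 16774864) (l 16774392)) (l 16773024)) (a (l 16772728) (l 16769168))))), by decide +kernel⟩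

def k67_pm_011 : ∃ t, chk3 f_pm_011 t 284 496 1 = true :=
  ⟨(b (l 4) (a (l 4) (a (l 4) (b (l 4) (b (l 4) (c (c (b (a (l 4) (l 70564972407)) (a (l 73786197895) (l 16777432))) (a (b (l 4) (l 74859939671)) (b (l 71638714167) (l 16777392)))) (c (a (b (l 4) (l 76470552375)) (c (l 52848231895) (l 53921973687))) (a (b (l 4) (l 77007423191)) (c (l 51774490151) (l 52848231943)))))))))), by decide +kernel⟩

def k68_pm_011 : ∃ t, chk3 f_pm_011 t 285 992 1 = true :=
  ⟨(a (l 4) (b (l 4) (c (b (a (l 4) (a (l 4) (c (l 92576680391) (l 92576680455)))) (b (a (l 4) (c (a (l 90429196311) (l 16777544)) (a (l 92039808951) (l 16777496)))) (a (c (l 116198999127) (l 117809611783)) (c (c (l 16777424) (l 16777408)) (l 12582914135))))) (a (a (l 4) (b (l 4) (c (l 118883353495) (l 120493966119)))) (a (b (l 4) (c (c (l 65196263303) (l 66270005079)) (b (l 93650421575) (l 16777424)))) (c (b (l 93113551271) (l 16778632)) (b (l 95797905719) (l 16778592)))))))), by decide +kernel⟩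

def k69_pm_011 : ∃ t, chk3 f_pm_011 t 285 993 1 = true :=
  ⟨(a (b (a (b (l 4) (c (c (l 127473288679) (l 129083901335)) (c (l 131231384903) (l 132841997543)))) (a (b (l 4) (c (c (b (l 109219678455) (l 57680070503)) (b (l 110293420263) (l 58753812247))) (c (b (l 113514644999) (l 60364424903)) (b (l 114051515879) (l 61438166647))))) (c (b (c (l 121030837399) (l 122104579143)) (b (c (l 53921974039) (l 55532586695)) (l 16778312))) (b (c (l 123715191783) (l 125862675319)) (b (c (l 55532586695) (l 57143199335)) (l 16778232)))))) (c (c (a (b (a (b (l 4) (l 65733134231)) (b (l 61975037799) (l 16777392))) (l 16778400)) (b (l 16778360) (l 16777712))) (a (b (a (b (l 4) (l 66270005063)) (a (l 53921973847) (l 16777416))) (l 16778368)) (b (l 16778328) (l 16777680)))) (c (a (b (c (a (l 80765519959) (l 50163877127)) (a (l 81839261735) (l 48016393591))) (l 16778336)) (b (l 16778288) (l 16777656))) (a (b (a (b (l 4) (l 69491230375)) (c (l 47479522727) (l 47479522759))) (l 16778296)) (b (l 16778248) (l 16777624)))))) (c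 (c (c (b (a (b (a (b (l 102777226967) (l 16777584)) (l 16778112)) (l 16777008)) (l 16777952)) (l 16776984)) (b (a (b (a (b (l 103314097831) (l 16777568)) (l 16778088)) (l 16776992)) (l 16777936)) (l 16776976))) (c (b (a (b (a (b (l 103850968711) (l 16777552)) (l 16778072)) (l 16776976)) (l 16777920)) (l 16775656)) (b (a (b (a (b (l 104387839575) (l 16777528)) (l 16777392)) (l 16776960)) (l 16777904)) (l 16775648)))) (c (b (a (b (a (b (l 101166614439) (l 51774490199)) (a (l 16777928) (l 16777296))) (l 16778240)) (c (l 16777888) (l 16777872))) (l 16776288)) (b (a (b (a (a (l 84523616199) (l 61975037719)) (l 21709719351)) (l 16776896)) (c (l 16777856) (l 16777840))) (l 16776264))))), by decide +kernel⟩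

def k70_pm_011 : ∃ t, chk3 f_pm_011 t 284 994 2 = true :=
  ⟨(a (b (a (l 4) (b (l 4) (b (a (l 4) (c (l 86134228951) (l 87744841607))) (c (a (l 90429196279) (l 16778152)) (a (l 91502938023) (l 16778120)))))) (c (b (b (a (l 117272741575) (c (l 16778032) (l 16778016))) (a (a (l 98482259943) (l 48016393639)) (l 16777064))) (a (a (b (l 51774490055) (l 16777280)) (l 16777104)) (l 16777896))) (b (a (a (l 120493966343) (b (l 95261034439) (l 46405780999))) (c (l 2382366695) (l 16778160))) (a (a (b (l 50700748311) (l 16777248)) (l 16777072)) (l 16777864))))) (c (b (b (b (a (a (l 4) (l 78618036119)) (l 16778600)) (a (a (l 82376132535) (l 16777464)) (l 16776976))) (a (c (l 16777840) (l 16777824)) (l 16777800))) (c (l 16777176) (l 16777160))) (b (b (a (a (b (l 4) (l 83449874311)) (b (l 78618036087) (l 16777432))) (l 16778088)) (a (c (l 16778464) (l 16778448)) (l 16777776))) (c (l 16777152) (l 16777472))))), by decide +kernel⟩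

def k71_pm_011 : ∃ t, chk3 f_pm_011 t 284 994 3 = true :=
  ⟨(a (b (b (l 4) (b (a (l 4) (a (l 4) (c (l 88281712503) (l 89892325143)))) (a (l 4) (c (a (l 92576679799) (l 16777424)) (a (l 93650421559) (l 16777384)))))) (c (b (a (a (l 122641449895) (b (l 96871647079) (l 46942651911))) (c (l 16778144) (l 16778128))) (a (a (c (l 23857202839) (l 44795167623)) (l 16777032)) (l 16777840))) (b (a (a (l 124252062551) (b (l 97408517975) (l 49090135479))) (c (l 16778104) (l 16778088))) (a (a (c (l 41573942279) (l 43184554967)) (l 16777000)) (l 16777808))))) (c (c (b (b (a (a (l 94187292743) (b (l 84523615767) (l 16777400))) (l 16777080)) (a (l 16778432) (l 16776448))) (l 16777464)) (b (a (b (a (l 94187292775) (b (l 85060486631) (l 16777376))) (l 16778408)) (a (l 16777568) (l 16777888))) (l 16777456))) (c (b (a (b (a (l 95261034551) (l 58216941143)) (l 16778392)) (a (l 16777552) (l 16777872))) (l 16776128)) (b (a (b (a (l 94187292759) (l 57680070263)) (l 16777064)) (a (l 16777536) (l 16777856))) (l 16776120))))), by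 decide +kernel⟩

def k72_pm_011 : ∃ t, chk3 f_pm_011 t 284 995 1 = true :=
  ⟨(a (a (b (c (c (l 16777608) (l 16777592)) (c (l 16777568) (l 16777536))) (c (l 16776320) (l 16776288))) (c (c (l 16776936) (l 16776928)) (l 16776576))) (c (l 16775600) (l 16775536))), by decide +kernel⟩

def k73_pm_011 : ∃ t, chk3 f_pm_011 t 285 497 1 = true :=
  ⟨(c (b (b (a (c (l 16777728) (c (l 16777064) (l 16777056))) (l 16777144)) (l 16776128)) (c (l 16774288) (l 16774216))) (b (a (b (c (l 16776424) (l 16776360)) (l 16777184)) (l 16775360)) (c (l 16774144) (l 16774072)))), by decide +kernel⟩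

def k74_pm_011 : ∃ t, chk3 f_pm_011 t 143 496 1 = true :=
  ⟨(a (b (a (b (c (a (a (l 4) (b (l 4) (b (l 4) (c (l 77544294343) (l 79154907031))))) (a (b (l 4) (c (c (l 56069457463) (l 52848232119)) (c (l 54458844807) (l 53921973927)))) (b (b (l 4) (c (l 69491230663) (l 70564972407))) (c (l 16777320) (l 16777280))))) (a (a (l 4) (b (l 4) (b (l 4) (c (l 79691777895) (l 81302390519))))) (a (b (l 4) (c (c (l 53385103063) (l 54458844839)) (c (l 56069457527) (l 56069457479)))) (b (b (l 4) (c (l 71638714151) (l 72712455895))) (c (l 16777240) (l 16777192)))))) (c (c (a (a (b (b (l 81839261655) (l 16777520)) (l 16777080)) (c (l 16778376) (l 16778360))) (l 16777848)) (b (b (a (a (l 83449874343) (l 16777464)) (l 16776984)) (c (l 16778000) (l 16777984))) (c (l 16777848) (l 16777832)))) (c (a (a (b (a (l 68417488887) (l 48016393879)) (l 16777008)) (c (l 16778304) (l 16778280))) (l 16777784)) (a (a (b (a (l 70028101527) (l 48553264775)) (l 16776968)) (c (l 16778264) (l 16778240))) (l 16777752))))) (c (b (c (a (a (b (c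 (l 49090135559) (l 50163877335)) (l 16776984)) (l 16778272)) (l 16777752)) (a (a (b (a (l 54995715911) (l 16777464)) (l 16776952)) (l 16778240)) (l 16777720))) (c (l 16776784) (l 16775456))) (b (c (a (a (b (a (l 54995715895) (l 16777416)) (l 16776912)) (l 16778200)) (l 16777688)) (a (a (b (a (l 56606328535) (l 16777368)) (l 16776872)) (l 16778160)) (l 16777656))) (c (l 16775440) (l 16775416))))) (a (b (c (c (l 16776888) (l 16776208)) (c (l 16776192) (l 16775512))) (c (l 16777056) (l 16777008))) (c (l 16775248) (l 16776488)))) (c (b (a (b (l 16777664) (l 16776872)) (l 16776376)) (l 16775216)) (b (a (c (l 16776008) (l 16775992)) (l 16776296)) (l 16775064)))), by decide +kernel⟩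

def k75_pm_011 : ∃ t, chk3 f_pm_011 t 143 497 1 = true :=
  ⟨(c (b (c (a (l 16775424) (l 16773656)) (a (l 16775360) (l 16773544))) (a (a (l 16774216) (l 16770704)) (l 16771984))) (b (c (a (l 16775280) (l 16773416)) (a (l 16775208) (l 16773288))) (a (a (l 16774000) (l 16773056)) (l 16770984)))), by decide +kernel⟩

def k76_pm_011 : ∃ t, chk3 f_pm_011 t 71 249 1 = true :=
  ⟨(a (c (b (b (c (a (l 16774448) (l 16773992)) (a (l 16774384) (l 16773872))) (a (c (l 16774144) (l 16774032)) (c (l 16769760) (l 16769600)))) (b (a (c (l 16769904) (l 16769744)) (l 16770664)) (a (l 16769488) (l 16766400)))) (b (b (a (c (l 16774312) (l 16774240)) (c (l 16773752) (l 16773632))) (c (a (l 16773912) (l 16769424)) (a (l 16773792) (l 16769248)))) (a (b (c (l 16769576) (l 16769400)) (l 16769064)) (b (l 16770224) (l 16765872))))) (a (c (b (b (c (l 16769600) (l 16769440)) (l 16770512)) (c (l 16765584) (l 16765304))) (b (b (c (l 16769272) (l 16769088)) (l 16770080)) (c (l 16765016) (l 16764704)))) (c (c (b (l 16767048) (l 16763840))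 (b (l 16766816) (l 16763512))) (c (b (l 16766568) (l 16763168)) (b (l 16766304) (l 16762808)))))), by decide +kernel⟩

def k77_pm_011 : ∃ t, chk3 f_pm_011 t 70 250 1 = true :=
  ⟨(a (b (c (b (a (c (c (l 16775056) (l 16775032)) (c (l 16775000) (l 16774968))) (c (c (l 16772632) (l 16773232)) (c (l 16773184) (l 16773128)))) (b (c (a (l 16773800) (l 16770712)) (a (l 16773712) (l 16770576))) (a (a (l 16774680) (l 16771160)) (l 16771120)))) (a (a (b (c (l 16775392) (l 16775336)) (c (l 16772336) (l 16772232))) (c (b (l 16775104) (l 16771392)) (b (l 16775024) (l 16771264)))) (b (c (c (l 16773072) (l 16773016)) (c (l 16772952) (l 16772896))) (c (l 16769992) (l 16769824))))) (c (a (c (b (l 16771728) (l 16768760)) (b (l 16771584) (l 16768568))) (c (b (l 16768648) (l 16766992)) (b (l 16768456) (l 16766752)))) (c (a (b (l 16771424) (l 16768360)) (b (l 16768248) (l 16766496))) (a (b (l 16771256) (l 16768144)) (b (l 16768024) (l 16766224)))))) (a (c (b (b (c (l 16770176) (l 16770024)) (c (l 16768536) (l 16768336))) (b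 (l 16768080) (l 16765096))) (b (b (c (l 16769864) (l 16769688)) (c (l 16768128) (l 16767904))) (b (l 16767560) (l 16764488)))) (b (b (c (c (l 16768408) (l 16768208)) (c (l 16768000) (l 16767776))) (c (l 16769272) (l 16768752))) (c (c (l 16764312) (l 16764000)) (c (l 16763672) (l 16763312)))))), by decide +kernel⟩

def k78_pm_011 : ∃ t, chk3 f_pm_011 t 70 251 1 = true :=
  ⟨(b (c (a (a (b (a (l 16767424) (l 16766528)) (l 16766592)) (c (l 16765152) (l 16765016))) (c (a (l 16762752) (l 16761016)) (a (l 16762400) (l 16760616)))) (a (a (b (a (l 16766944) (l 16766000)) (l 16765992)) (b (l 16767208) (l 16762808))) (c (a (l 16762024) (l 16760192)) (a (l 16761624) (l 16759736))))) (a (c (c (a (l 16764208) (l 16761160)) (a (l 16763864) (l 16760768))) (a (b (l 16762888) (l 16761096)) (a (l 16761904) (l 16759664)))) (c (c (a (l 16759424) (l 16757704)) (a (l 16758984) (l 16757216))) (c (a (l 16758512) (l 16756696)) (a (l 16758016) (l 16756136)))))), by decide +kernel⟩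

def k79_pm_011 : ∃ t, chk3 f_pm_011 t 71 125 1 = true :=
  ⟨(a (a (b (c (b (c (l 16767152) (l 16766880)) (c (l 16762568) (l 16762208))) (b (c (l 16766592) (l 16766288)) (c (l 16761824) (l 16761424)))) (c (b (c (l 16759288) (l 16758840)) (l 16755720)) (b (c (l 16758360) (l 16757848)) (l 16755888)))) (b (c (b (c (l 16764088) (l 16763776)) (c (l 16760832) (l 16760432))) (b (c (l 16763432) (l 16763080)) (c (l 16759992) (l 16759536)))) (c (b (l 16757320) (l 16753992)) (b (l 16757568) (l 16752744))))) (a (b (c (b (c (l 16762352) (l 16761984)) (l 16758880)) (b (c (l 16761600) (l 16761184)) (l 16759224))) (c (b (l 16755584) (l 16752264)) (b (l 16754416) (l 16750912)))) (b (c (b (l 16763032) (l 16757136)) (b (l 16762160) (l 16756064))) (c (b (l 16753848) (l 16750544)) (b (l 16752584) (l 16749088)))))), by decide +kernel⟩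

def k80_pm_011 : ∃ t, chk3 f_pm_011 t 17 126 1 = true :=
  ⟨(a (b (b (a (l 6) (a (l 6) (a (l 6) (b (c (l 16761928) (l 16761152)) (l 6))))) (l 6)) (l 6)) (b (a (c (a (b (c (a (l 16759520) (l 16757800)) (a (l 16759096) (l 16757320))) (c (a (l 16756120) (l 16754408)) (a (l 16755608) (l 16753848)))) (a (b (c (l 16756080) (l 16755552)) (l 16752408)) (b (l 16754088) (l 16750688)))) (a (b (c (a (l 16758632) (l 16756808)) (a (l 16758136) (l 16756256))) (c (a (l 16755056) (l 16753248)) (a (l 16754464) (l 16752600)))) (a (b (c (l 16754992) (l 16754392)) (l 16751920)) (b (l 16754168) (l 16749280))))) (a (a (c (b (l 16752360) (l 16748984)) (b (l 16751024) (l 16747464))) (c (b (l 16750640) (l 16747280)) (b (l 16749208) (l 16745656)))) (b (c (c (l 16748448) (l 16747696)) (c (l 16746904) (l 16746056))) (c (b (l 16745568) (a (l 16744736) (l 16748176))) (a (b (l 16744736) (l 16742960)) (b (l 16742944) (l 16746312))))))) (a (b (b (c (a (c (l 16752704) (l 16752104)) (c (l 16751968) (l 16751264))) (a (c (l 16751456) (l 16750768))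 (c (l 16750520) (l 16749712)))) (a (l 6) (a (c (c (l 16748352) (l 16747648)) (c (l 16752128) (l 16751320))) (c (l 16746152) (l 16744552))))) (a (l 6) (c (l 16749104) (l 16747496)))) (b (a (a (b (c (l 16751624) (c (l 16745168) (l 16744288))) (l 16746424)) (b (c (l 16749784) (l 16748056)) (l 16741536))) (c (c (l 16741040) (l 16740168)) (c (l 16739240) (l 16738256)))) (c (a (l 16740056) (l 16736224)) (c (l 16742032) (l 16741072))))))), by decide +kernel⟩

def k81_pm_011 : ∃ t, chk3 f_pm_011 t 17 127 1 = true :=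
  ⟨(a (l 6) (a (a (l 6) (a (l 6) (b (b (l 16742976) (l 6)) (l 6)))) (b (c (b (c (l 16734208) (l 16733320)) (c (l 16729888) (l 16728968))) (b (l 16737136) (l 16732744))) (c (b (c (l 16731184) (l 16730200)) (l 16727960)) (b (c (l 16723928) (l 16722864)) (l 16720288)))))), by decide +kernel⟩

def k82_pm_011 : ∃ t, chk3 f_pm_011 t 36 60 1 = true :=
  ⟨(l 4), by decide +kernel⟩

def k83_pm_011 : ∃ t, chk3 f_pm_011 t 37 120 1 = true :=
  ⟨(l 4), by decide +kernel⟩

def k84_pm_011 : ∃ t, chk3 f_pm_011 t 74 121 1 = true :=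
  ⟨(l 4), by decide +kernel⟩

def k85_pm_011 : ∃ t, chk3 f_pm_011 t 75 242 1 = true :=
  ⟨(l 4), by decide +kernel⟩

def k86_pm_011 : ∃ t, chk3 f_pm_011 t 150 243 1 = true :=
  ⟨(b (l 4) (a (l 4) (b (a (l 4) (b (l 4) (a (l 4) (a (l 4) (b (l 4) (c (l 86134230295) (l 83986746567))))))) (a (c (b (a (l 4) (l 121567711943)) (a (b (l 119957096263) (c (l 68417490215) (l 69491231863))) (b (c (l 62511910055) (l 63585651703)) (l 16777720)))) (b (c (l 128547031335) (l 129620772919)) (a (b (l 120493966711) (c (l 69491231687) (l 69491231479))) (b (c (l 63585651511) (l 63585651303)) (l 16777520))))) (c (b (a (b (l 105461585559) (c (l 56069459031) (l 57680071591))) (c (l 38352718439) (l 37278976759))) (c (l 16777080) (l 16777000))) (b (a (b (l 100629745415) (c (l 57680071303) (l 57680071095))) (c (l 38352718375) (l 39426459991))) (c (l 16776912) (l 16776816)))))))), by decide +kernel⟩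

def k87_pm_011 : ∃ t, chk3 f_pm_011 t 151 243 1 = true :=
  ⟨(b (a (b (l 4) (b (l 4) (a (l 4) (a (l 4) (b (l 4) (a (c (l 87744842759) (l 85597358999)) (c (l 54995716999) (l 54458845175)))))))) (b (a (l 4) (b (l 4) (b (a (l 4) (c (l 89355457031) (l 88281714567))) (c (a (l 104387844087) (l 42647687127)) (a (l 95797907367) (l 42647686759)))))) (b (a (c (a (l 122104582935) (b (l 108145940055) (c (l 59290684583) (l 58753813463)))) (a (l 123178324231) (b (l 109219681863) (c (l 58753813255) (l 16778504))))) (a (c (c (l 38889589879) (l 16778544)) (c (l 16778440) (l 16778976))) (c (l 16777360) (l 16777160)))) (c (a (a (c (l 48016395543) (l 47479524759)) (l 16777496)) (l 16779080)) (a (a (c (l 48016395463) (l 49090137047)) (l 16777296)) (l 16778912)))))) (a (b (a (c (b (a (l 4) (c (l 105998452567) (l 105998452343))) (b (a (c (l 90966068951) (l 90966068743)) (l 35131493783)) (c (l 16779120) (l 16777720)))) (b (a (l 4) (c (l 106535323015) (l 105998451847))) (b (a (a (l 4) (l 75396812263)) (l 34057751879)) (c (l 16777616)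 (l 16777504))))) (c (b (a (a (b (l 107072197719) (l 58753812743)) (b (l 60901297847) (l 16777800))) (l 16778936)) (l 16779376)) (b (b (a (a (l 107609068583) (l 59827555447)) (l 16777672)) (b (l 27615300071) (l 16777320))) (l 16779208)))) (a (c (c (l 16778920) (l 16778848)) (c (l 16778768) (l 16778680))) (c (l 16777408) (l 16777296)))) (b (a (c (c (l 16778616) (l 16778544)) (b (l 16779056) (l 16780408))) (c (l 16779712) (l 16779600))) (c (l 16777768) (l 16777712))))), by decide +kernel⟩

def k88_pm_011 : ∃ t, chk3 f_pm_011 t 72 122 1 = true :=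
  ⟨(l 4), by decide +kernel⟩

def k89_pm_011 : ∃ t, chk3 f_pm_011 t 73 244 1 = true :=
  ⟨(l 4), by decide +kernel⟩

def k90_pm_011 : ∃ t, chk3 f_pm_011 t 146 245 1 = true :=
  ⟨(b (l 4) (a (l 4) (b (l 4) (a (l 4) (a (l 4) (b (l 4) (a (l 4) (b (l 4) (b (l 4) (c (l 66806877415) (l 66270006247))))))))))), by decide +kernel⟩

def k91_pm_011 : ∃ t, chk3 f_pm_011 t 147 490 1 = true :=
  ⟨(a (l 4) (b (l 4) (a (l 4) (b (l 4) (a (c (c (l 120493967335) (l 121567708999)) (c (l 123178321559) (l 124252063191))) (c (b (c (l 96334777895) (l 96871648647)) (c (l 46942653111) (l 48016394791))) (b (c (l 97945390279) (l 97945390263)) (c (l 49090136455) (l 50700749031))))))))), by decide +kernel⟩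

def k92_pm_011 : ∃ t, chk3 f_pm_011 t 147 491 1 = true :=
  ⟨(a (b (a (l 4) (a (l 4) (b (l 4) (b (l 4) (c (c (a (l 92039809895) (l 56069458327)) (a (l 92576680647) (l 56606329095))) (c (a (l 93113551399) (l 16778376)) (c (l 74323069383) (l 74323069303)))))))) (a (a (b (l 4) (c (c (b (l 85597359431) (l 38889588807)) (b (l 85597359447) (l 37815847095))) (b (c (l 87207972023) (l 88281713687)) (c (l 38352717959) (l 16778144))))) (a (b (b (l 4) (c (l 104924713159) (l 107072196807))) (c (c (l 16778848) (l 16778784)) (c (l 16778712) (l 16777328)))) (c (b (b (l 4) (c (l 71101844119) (l 71101844007))) (l 16778504)) (b (b (l 4) (c (l 71638714775) (l 72175585543))) (l 16778376))))) (c (b (a (c (b (a (l 99556002647) (l 63048780295)) (l 16777616)) (b (a (l 100092873479) (l 63585651079)) (l 16777552))) (c (l 16777272) (l 16777216))) (c (l 16778976) (l 16778928))) (b (a (c (b (a (l 100629744231) (l 64122521847)) (l 16777480)) (b (a (l 100629744055) (l 65196263527)) (l 16777400))) (c (l 16777144) (l 16777072))) (c (l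 16778872) (l 16778808)))))) (b (a (b (a (b (l 4) (c (l 123178324183) (l 124788936567))) (c (b (c (l 118883354247) (l 119420224999)) (c (c (l 60901296823) (l 60901296759)) (l 59827555079))) (b (c (l 120493966647) (l 121030837367)) (c (l 60901296759) (l 61975038423))))) (b (a (c (c (c (l 66270006007) (l 66806876855)) (c (l 67343747703) (l 67343747639))) (c (c (l 67880618487) (l 68417489319)) (l 66806876791))) (c (l 16778736) (l 16778592))) (c (c (l 16777192) (l 16777128)) (c (l 16777056) (l 16776984))))) (c (b (a (b (c (l 52311362439) (l 53385104119)) (l 16778680)) (l 16778320)) (l 16778712)) (b (a (b (c (l 53921974887) (l 54995716535)) (l 16778536)) (c (l 16776912) (l 16776840))) (l 16778600)))) (b (a (c (c (l 16778856) (l 16778808)) (c (l 16778752) (l 16778688))) (c (l 16774776) (l 16774704))) (c (l 16776800) (l 16775760))))), by decide +kernel⟩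

def k93_pm_011 : ∃ t, chk3 f_pm_011 t 144 246 1 = true :=
  ⟨(l 4), by decide +kernel⟩

def k94_pm_011 : ∃ t, chk3 f_pm_011 t 145 492 1 = true :=
  ⟨(l 4), by decide +kernel⟩

def k95_pm_011 : ∃ t, chk3 f_pm_011 t 290 493 1 = true :=
  ⟨(b (l 4) (a (a (l 4) (b (l 4) (b (l 4) (c (c (a (l 85597358711) (l 49090136215)) (a (l 87207971335) (l 50163877975))) (c (a (l 87207971207) (l 50700748807)) (a (l 89355454711) (l 51774490503))))))) (b (c (c (a (l 126936418327) (b (l 118883354087) (a (l 72712456743) (l 16777632)))) (a (l 128547030951) (b (l 120493966695) (a (l 73249327559) (l 16777584))))) (c (a (l 130694514471) (b (l 121567708391) (a (l 74323069271) (l 16777520)))) (a (l 132305127079) (b (l 123178320967) (a (l 75396810967) (l 16777456)))))) (a (b (a (c (c (l 79154907719) (l 80765520327)) (c (l 80765520199) (l 81839261895))) (c (c (l 43184556039) (l 44258297767)) (c (l 16778208) (l 16778144)))) (c (c (l 16777280) (l 16777232)) (c (l 16777176) (l 16777120)))) (c (c (l 16778224) (l 16778176)) (c (l 16778128)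 (l 16778072))))))), by decide +kernel⟩

def k96_pm_011 : ∃ t, chk3 f_pm_011 t 291 493 1 = true :=
  ⟨(b (a (b (l 4) (b (a (l 4) (c (c (a (l 4) (l 88818584263)) (l 110830291415)) (c (l 112440904007) (l 113514644375)))) (c (a (c (l 114588386695) (l 115662128391)) (c (c (l 48553265031) (l 46942652407)) (c (l 48553265079) (l 46942652455)))) (a (c (l 116735870087) (l 118346482663)) (c (c (l 47479523303) (l 48553265063)) (c (l 49627006823) (l 49627006759))))))) (b (b (a (l 4) (a (c (l 120493969287) (l 122104581735)) (c (c (l 75396811367) (l 75396811255)) (c (l 77544294775) (l 78081165559))))) (c (a (a (l 4) (c (l 82376133255) (l 83449874951))) (c (c (l 16777936) (l 16778240)) (l 39963330151))) (a (a (l 4) (c (l 83449874823) (l 85060487415))) (c (l 39426459287) (l 37815846663))))) (c (a (b (a (c (l 52311361783) (l 53385103495)) (l 16778792)) (l 16778352)) (c (l 16778008) (l 16777960))) (a (b (a (c (l 54458845223) (l 54995716055)) (l 16778672)) (l 16778248)) (c (l 16776600) (l 16776544)))))) (c (a (a (c (b (a (b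 (l 66270005719) (l 16777344)) (l 16778624)) (l 16778832)) (b (a (b (l 66806876535) (l 16777288)) (l 16778576)) (l 16778792))) (b (a (l 16778592) (l 16779232)) (l 16775480))) (c (l 16777704) (l 16777680))) (c (a (b (a (a (b (l 67880618247) (l 16777232)) (l 16778520)) (l 16778024)) (l 16778408)) (l 16777648)) (a (b (a (a (b (l 68954359943) (l 16777176)) (l 16777144)) (l 16776656)) (l 16778368)) (c (l 16777624) (l 16777608)))))), by decide +kernel⟩

def k97_pm_011 : ∃ t, chk3 f_pm_011 t 288 494 1 = true :=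
  ⟨(b (l 4) (a (b (l 4) (a (l 4) (b (l 4) (c (c (l 119420224919) (l 121030837543)) (c (l 122641450167) (l 124252062775)))))) (b (a (l 4) (a (l 4) (b (l 4) (c (c (l 87207971431) (l 87744842231)) (c (l 89892325767) (l 91502938359)))))) (b (b (a (l 4) (c (c (c (l 57680070695) (l 58753812471)) (c (l 59290683335) (l 59827554199))) (c (c (l 60364425063) (l 61438166839)) (c (l 61975037687) (l 62511908535))))) (c (a (c (l 93650422471) (l 95261035095)) (c (l 16777464) (l 16777424))) (a (c (l 96334776807) (l 96871647751)) (c (l 16777368) (l 16777312))))) (b (c (a (c (c (l 63585650807) (l 64659392583)) (c (l 65196263447) (l 65733134311))) (l 16778456)) (a (c (c (l 66270005175) (l 67343746951)) (c (l 67880617815) (l 68417488663))) (l 16778360))) (a (c (c (l 16778168) (l 16777464)) (c (l 16777408) (l 16777352))) (c (l 16778144) (l 16778056)))))))), by decide +kernel⟩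

def k98_pm_011 : ∃ t, chk3 f_pm_011 t 289 494 1 = true :=
  ⟨(b (a (b (l 4) (a (l 4) (b (l 4) (c (c (a (l 123715192135) (l 73786198519)) (a (l 124788933847) (l 76470552967))) (c (a (l 125862675543) (l 76470552855)) (a (l 127473288151) (l 78618036375))))))) (b (a (l 4) (b (l 4) (c (c (a (l 99019131575) (l 61438167463)) (a (l 99556002455) (l 63048780103))) (c (a (l 100629744151) (l 63048779991)) (a (l 102240356743) (l 64122521703)))))) (b (c (a (c (a (l 117809612023) (b (l 98482260087) (l 16777696))) (a (l 108145936807) (l 68954360215))) (c (l 16778736) (l 16778688))) (c (a (a (l 108145936839) (l 70028101943)) (l 16778632)) (a (a (l 108145936871) (l 71101843671)) (l 16778576)))) (a (a (c (c (l 40500201207) (l 16778216)) (c (l 16778160) (l 16778096))) (c (l 16778600) (l 16778496))) (c (l 16778096) (l 16778008)))))) (c (c (b (b (a (a (a (l 4) (l 80228649511)) (a (l 47479523111) (l 16777368))) (l 16777816)) (a (a (a (l 51774490631) (l 16777416)) (l 16776912)) (l 16778472))) (a (a (l 16777952) (l 16778552))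 (l 16774856))) (b (b (a (a (a (l 4) (l 82913003959)) (a (l 46942652263) (l 16777320))) (l 16777784)) (a (a (a (l 51237619783) (l 16777368)) (l 16776864)) (l 16778440))) (a (a (l 16777912) (l 16778520)) (l 16774840)))) (c (b (b (a (a (a (l 4) (l 83986745655)) (c (l 42647684311) (l 41037071687))) (l 16777736)) (a (a (c (l 44795168199) (l 46405780887)) (l 16776824)) (l 16778408))) (a (a (l 16777872) (l 16778488)) (l 16774824))) (c (a (b (a (b (l 110830289735) (l 44258297335)) (b (l 42110813447) (l 16776784))) (l 16778152)) (b (l 16777392) (l 16774808))) (a (b (a (b (l 111367160583) (l 45868910023)) (b (l 40500200823) (l 16776760))) (l 16778128)) (b (l 16777368) (l 16774792))))))), by decide +kernel⟩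

def k99_pm_011 : ∃ t, chk3 f_pm_011 t 144 495 1 = true :=
  ⟨(a (b (a (b (b (b (a (l 4) (c (c (a (l 100629743719) (l 16777648)) (a (l 101703485431) (l 16777600))) (c (a (l 102240356311) (l 16777552)) (c (l 72712456199) (l 73249327063))))) (c (a (c (l 120493966583) (l 121567708311)) (c (l 23857203463) (l 38889588247))) (a (c (l 123178320935) (l 124252062631)) (c (l 38352717399) (l 16778048))))) (c (a (a (c (b (l 112440904023) (l 61975037879)) (b (l 113514645815) (l 63048779607))) (c (c (l 16777912) (l 16778216)) (l 43184555591))) (c (l 16777112) (l 16777072))) (a (c (a (b (l 114588387607) (l 63585650423)) (l 42647684743)) (a (l 78081165607) (l 41573942983))) (c (l 16777024) (l 16776976))))) (a (b (c (c (l 16777160) (l 16777120)) (c (l 16777072) (l 16777024))) (c (l 16777808) (l 16777736))) (c (l 16778088) (l 16778024)))) (b (a (c (c (l 16778048) (l 16778016)) (c (l 16777976) (c (l 16777944) (l 16777920)))) (c (l 16777984) (l 16777920))) (c (l 16777680) (l 16777640)))) (c (a (b (l 16777784) (l 16776680))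 (l 16776184)) (c (l 16775280) (l 16775904)))) (c (b (c (l 16775144) (l 16775112)) (l 16774840)) (b (c (l 16775080) (l 16775048)) (l 16774680)))), by decide +kernel⟩

def k100_pm_011 : ∃ t, chk3 f_pm_011 t 145 247 1 = true :=
  ⟨(b (a (b (c (c (c (a (b (a (b (a (l 94724163991) (l 58216941607)) (l 16777392)) (l 16778344)) (l 16777392)) (c (l 16777608) (l 16777600))) (a (b (a (b (a (l 95261034839) (l 58753812471)) (l 16777368)) (l 16778320)) (l 16777376)) (a (l 16778280) (l 16774944)))) (c (a (b (a (b (a (l 95797905687) (l 59290683335)) (l 16777344)) (l 16778296)) (l 16777360)) (a (l 16778264) (l 16774928))) (a (b (a (b (a (l 95797905719) (l 59290683271)) (l 16777312)) (l 16776960)) (l 16777344)) (a (l 16778248) (l 16774920))))) (c (a (b (a (b (a (l 94724164039) (l 56606328951)) (l 16777272)) (l 16777904)) (l 16777968)) (b (l 16778512) (l 16774600))) (a (b (a (b (a (l 95797905719) (l 57143199831)) (l 16777216)) (l 16777856)) (l 16777928)) (a (l 16777608) (l 16774872))))) (c (c (l 16774936) (l 16774904)) (c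 (l 16774872) (l 16774840)))) (c (c (l 16774936) (l 16774880)) (c (l 16774816) (l 16774760)))) (a (c (c (l 16773896) (l 16773800)) (c (l 16773688) (l 16773584))) (c (c (l 16773448) (l 16773296)) (c (l 16773144) (l 16772976))))), by decide +kernel⟩

def k101_pm_011 : ∃ t, chk3 f_pm_011 t 292 492 1 = true :=
  ⟨(b (a (l 4) (a (l 4) (a (l 4) (b (l 4) (b (l 4) (c (l 121030840247) (l 122641452663))))))) (a (b (l 4) (b (a (l 4) (c (c (a (l 97945389895) (l 61438167447)) (a (l 99019131575) (l 62511909239))) (c (a (l 99556002343) (l 62511909111)) (a (l 100629744007) (l 64122521719))))) (c (c (a (a (l 108145937799) (l 68954360327)) (l 16777512)) (a (a (l 108682808727) (l 70028102055)) (l 16777456))) (a (c (a (l 107609065863) (l 70564972839)) (a (l 107072195031) (l 71101843623))) (c (l 16777392) (l 16777320)))))) (b (b (a (l 4) (c (c (a (l 83449875143) (l 48016394455)) (c (l 65196264087) (l 65733134935))) (c (c (l 66270005783) (l 66806876631)) (c (l 67343747479) (l 67880618311))))) (c (a (c (a (l 91502938871) (l 54995716423))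 (a (l 92039809655) (l 55532587223))) (c (l 16777416) (l 16777352))) (a (c (a (l 93113551335) (l 56606328903)) (a (l 93650422087) (l 57143199671))) (c (l 16777288) (l 16777224))))) (a (c (c (l 16778472) (l 16778416)) (c (l 16778360) (l 16776984))) (c (l 16779072) (l 16778968)))))), by decide +kernel⟩

def k102_pm_011 : ∃ t, chk3 f_pm_011 t 293 492 1 = true :=
  ⟨(b (a (b (a (l 4) (c (c (l 121567710439) (l 123178323031)) (c (l 124788935607) (l 126399546871)))) (c (a (b (c (l 120493966935) (l 121567708615)) (c (c (l 59290684023) (l 59827554871)) (c (l 60364425735) (l 60901296583)))) (b (c (c (l 53921974807) (l 54458845575)) (c (l 54458845591) (l 55532587271))) (l 16778592))) (a (b (c (l 122641450279) (l 123715191927)) (c (c (l 61438167431) (l 61975038263)) (c (l 62511909111) (l 63048779943)))) (b (c (c (l 56069458151) (l 56606328999)) (c (l 57143199831) (l 58753812455))) (l 16778464))))) (c (a (b (b (c (l 110293419415) (l 111367161095)) (a (c (l 63585651175) (l 63585651047)) (l 16778944))) (c (l 16776944)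 (l 16776888))) (b (b (c (l 45332039831) (l 42110814551)) (l 16778480)) (l 16778840))) (a (b (b (c (l 112440902759) (l 113514644407)) (c (c (l 51774490679) (l 51774490615)) (l 50163878167))) (c (l 16776824) (l 16776760))) (b (b (c (l 43721427143) (l 43721427159)) (l 16778352)) (l 16778736))))) (a (b (a (c (c (l 16777056) (l 16777000)) (c (l 16776944) (l 16776880))) (c (l 16778952) (l 16778856))) (c (l 16778000) (l 16777928))) (c (l 16777880) (c (l 16774560) (l 16774528))))), by decide +kernel⟩

def k103_pm_011 : ∃ t, chk3 f_pm_011 t 146 493 1 = true :=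
  ⟨(a (c (c (b (b (b (a (c (l 16778560) (l 16778536)) (l 16778464)) (a (l 16779232) (l 16777808))) (l 16777528)) (l 16775824)) (b (b (b (a (c (l 16778512) (l 16778480)) (l 16778424)) (a (l 16779184) (l 16777776))) (l 16777504)) (l 16775792))) (b (c (a (b (a (b (l 16778744) (l 16776856)) (l 16776488)) (l 16778176)) (l 16777416)) (a (b (a (a (l 7751076519) (l 16776936)) (l 16776432)) (l 16778136)) (l 16777384))) (c (l 16774440) (l 16774408)))) (a (c (l 16775248) (l 16775152)) (b (l 16775416) (l 16774784)))), by decide +kernel⟩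

def k104_pm_011 : ∃ t, chk3 f_pm_011 t 147 246 1 = true :=
  ⟨(a (b (b (a (b (c (c (l 16779096) (l 16779048)) (c (l 16778992) (l 16778928))) (c (l 16777768) (l 16777688))) (c (l 16776984) (l 16775776))) (c (l 16776672) (l 16776584))) (c (l 16773016) (l 16772784))) (b (c (l 16774344) (l 16774208)) (c (l 16771224) (l 16770896)))), by decide +kernel⟩

def k105_pm_011 : ∃ t, chk3 f_pm_011 t 73 247 1 = true :=
  ⟨(c (a (a (b (c (l 16773496) (l 16773392)) (c (l 16767760) (l 16767560))) (b (c (l 16771736) (l 16771584)) (l 16768504))) (a (b (l 16771184) (l 16764112)) (b (l 16770720) (l 16762344)))) (a (a (b (c (l 16773280) (l 16773168)) (c (l 16767352) (l 16767136))) (b (l 16770024) (l 16767992))) (a (b (c (l 16766944) (l 16766720)) (l 16763496)) (b (l 16770192) (l 16761624))))), by decide +kernel⟩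

def k106_pm_011 : ∃ t, chk3 f_pm_011 t 148 244 1 = true :=
  ⟨(b (l 4) (a (l 4) (b (l 4) (a (a (l 4) (b (l 4) (b (l 4) (c (l 118883356887) (l 119957098327))))) (b (a (l 4) (a (l 4) (b (l 4) (c (l 96334777079) (l 88818585255))))) (b (c (a (c (l 114051516055) (l 114588386775)) (c (l 49090137095) (l 49627007863))) (a (c (l 115125257495) (l 106535324823)) (c (l 51237620423) (l 52311362055)))) (a (c (c (l 56606329735) (l 56069458839)) (c (l 57143200487) (l 57680071223))) (c (l 16780064) (l 16779896))))))))), by decide +kernel⟩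

def k107_pm_011 : ∃ t, chk3 f_pm_011 t 149 488 1 = true :=
  ⟨(a (l 4) (b (l 4) (a (b (l 4) (a (l 4) (c (b (l 117809615127) (c (l 64122522807) (l 64659393559))) (b (l 118346485607) (c (l 64659393383) (l 65196264103)))))) (a (c (b (b (l 4) (l 111904034999)) (b (a (l 70028103559) (l 16777928)) (l 16777592))) (c (b (l 122104579799) (c (l 42647685703) (l 43184556519))) (b (l 123178321383) (c (l 43721427335) (l 44258298151))))) (c (b (c (b (l 99556003383) (l 51774491575)) (b (l 99556003335) (l 52311362311))) (l 16779864)) (b (c (b (l 100092874039) (l 52311362119)) (b (l 100092873815) (l 52848232823))) (l 16779688))))))), by decide +kernel⟩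

def k108_pm_011 : ∃ t, chk3 f_pm_011 t 149 489 1 = true :=
  ⟨(a (b (a (b (l 4) (a (l 4) (b (l 4) (c (c (l 87207972359) (l 87744843079)) (c (l 88281713799) (l 88281713767)))))) (b (a (l 4) (b (l 4) (c (c (l 75396812183) (l 75933682951)) (c (l 76470553623) (l 77007424375))))) (b (a (c (c (l 81302392279) (l 81839263031)) (c (l 82376133751) (l 82913004471))) (c (l 16779064) (l 16778552))) (c (c (l 16777552) (l 16777472)) (c (l 16777384) (l 16777296)))))) (c (c (a (b (a (b (l 93113552455) (l 44795169463)) (l 11509173799)) (l 16779392)) (l 16778616)) (a (b (a (b (l 93650423175) (l 16778488)) (l 15267269703)) (l 16779328)) (l 16778552))) (c (a (b (a (b (l 94187293895) (l 16778400)) (l 16778128)) (l 16776632)) (c (l 16778512) (l 16778472))) (a (b (a (b (l 94187293847) (l 16778304)) (l 16778688)) (l 16776552)) (c (l 16778440) (l 16778408)))))) (c (c (b (b (b (a (a (l 70028102935) (l 16777688)) (l 16776688)) (c (l 16778080) (l 16778048))) (l 16778400)) (l 16776416)) (b (b (b (a (a (l 71101844455) (l 16777608))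 (l 16776616)) (c (l 16778016) (l 16777976))) (l 16778344)) (l 16776376))) (b (a (a (b (b (a (l 84523618151) (l 49627008375)) (l 16778176)) (l 16779288)) (b (a (l 16778664) (l 16777032)) (l 16778600))) (c (l 16778216) (l 16778144))) (c (l 16777656) (l 16774992))))), by decide +kernel⟩

def k109_pm_011 : ∃ t, chk3 f_pm_011 t 74 245 1 = true :=
  ⟨(a (b (a (b (a (l 4) (b (l 4) (b (a (l 4) (c (c (l 73249328487) (l 73786199271)) (c (l 74859940935) (l 75396811623)))) (c (c (a (l 79154908519) (l 16777688)) (a (l 80228650183) (l 16777616))) (c (a (l 80765520935) (l 16777536)) (a (l 81839262583) (l 16777448))))))) (c (b (b (a (a (l 4) (c (l 85060488599) (l 86134230263))) (c (l 16778752) (l 16778680))) (a (a (c (l 90966068695) (l 91502939447)) (c (l 16777776) (l 16777704))) (l 16779424))) (a (a (a (c (l 39426459591) (l 38352717863)) (l 16778704)) (l 16779512)) (l 16778456))) (a (a (b (b (l 4) (c (l 91502939431) (l 92576681063))) (a (c (l 37278976135) (l 37278976135)) (l 16778552))) (b (c (b (l 86134230247) (l 16777624))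 (b (l 86671100967) (l 16777536))) (l 16779376))) (b (a (c (l 16777320) (l 16777240)) (l 16779256)) (l 16778352))))) (b (c (a (b (b (a (l 4) (c (l 63048780839) (l 63585651607))) (a (c (l 68417490055) (l 68954360839)) (l 16778864))) (c (l 16778336) (l 16778264))) (b (c (l 16778208) (l 16778144)) (l 16778200))) (a (b (b (a (l 4) (c (l 64122522359) (l 64659393095))) (a (c (l 69491231607) (l 70028102343)) (l 16778704))) (c (l 16778192) (l 16778112))) (b (c (l 16778072) (l 16776680)) (l 16778096)))) (a (c (l 16778336) (a (l 16777936) (l 16777232))) (c (l 16776224) (l 16773544))))) (c (b (b (a (a (l 16778584) (l 16774528)) (l 16777648)) (a (l 16776552) (l 16771632))) (l 16774312)) (b (a (a (c (l 16777864) (l 16777808)) (l 16776424)) (l 16775848)) (l 16774496)))) (a (c (a (b (b (l 16778072) (l 16777456)) (l 16775144)) (b (a (l 16775000) (l 16774488)) (l 16769008))) (b (b (a (a (l 16777672) (l 16776968)) (l 16773272)) (l 16774280)) (l 16771824))) (b (c (l 16773392) (l 16773224)) (b (l 16773536) (l 16771944))))),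 by decide +kernel⟩

def k110_pm_011 : ∃ t, chk3 f_pm_011 t 75 122 1 = true :=
  ⟨(b (a (b (a (b (a (b (l 4) (b (a (l 4) (a (c (l 111904035271) (l 113514647895)) (c (l 73249329127) (l 72175587015)))) (c (a (c (l 93113552535) (l 93650423239)) (c (l 16777952) (l 16777864))) (a (c (l 93650423031) (l 93650422967)) (c (l 16777768) (l 16777664)))))) (c (b (b (a (l 4) (c (l 74859941367) (l 75933682871))) (a (c (l 80765521495) (l 81302392231)) (l 16777824))) (c (l 16778656) (l 16778576))) (b (a (b (l 4) (c (l 81302392039) (l 81302391831))) (c (b (l 75933682711) (l 16777680)) (b (l 75396811607) (l 16777576)))) (c (l 16778488) (l 16778392))))) (a (c (b (a (c (l 37278976055) (l 36742105223)) (l 16779728)) (l 16778816)) (b (a (c (l 35668363447) (l 16778472)) (l 16779560)) (l 16778672))) (c (l 16778016) (l 16779200)))) (b (b (c (a (c (l 16777216) (l 16777136)) (l 16778376)) (a (c (l 16777048) (l 16776952)) (l 16778240))) (c (l 16777792) (l 16778984))) (c (l 16778408) (l 16778344)))) (c (a (b (l 16777408) (l 16776552))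 (l 16775576)) (b (a (l 16777336) (l 16776184)) (l 16772880)))) (c (b (a (a (l 16777496) (l 16776400)) (l 16775120)) (l 16770384)) (b (b (c (l 16776624) (l 16773944)) (l 16775024)) (l 16772640)))) (c (a (b (l 16772088) (a (l 16771176) (l 16764232))) (b (l 16770000) (l 16766952))) (a (b (l 16772088) (a (l 16770720) (l 16763656))) (b (l 16770752) (l 16766200))))), by decide +kernel⟩

def k111_pm_011 : ∃ t, chk3 f_pm_011 t 37 123 1 = true :=
  ⟨(a (b (b (b (a (c (l 16772440) (l 16772200)) (c (l 16771488) (l 16771040))) (a (c (l 16770888) (l 16770552)) (c (l 16769944) (l 16769400)))) (b (a (c (l 16771952) (l 16771520)) (c (l 16763152) (l 16762520))) (a (c (l 16770400) (l 16769864)) (c (l 16761608) (l 16760872))))) (a (c (b (c (l 16762976) (l 16762656)) (c (l 16759904) (l 16759488))) (b (c (l 16762320) (l 16761960)) (c (l 16759056) (l 16758600)))) (c (b (l 16761904) (l 16756184)) (b (l 16761032) (l 16755112))))) (c (b (b (a (a (l 16768064) (l 16761112)) (l 16758624)) (a (a (l 16759720) (l 16757984)) (l 16755496)))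 (b (a (l 16755760) (l 16752344)) (a (l 16752680) (l 16749216)))) (a (c (b (b (l 16764728) (l 16758200)) (b (l 16754968) (l 16751744))) (b (b (c (l 16766424) (l 16766232)) (l 16757736)) (b (l 16754400) (l 16751072)))) (b (b (l 16757688) (l 16754384)) (b (l 16756296) (l 16747744)))))), by decide +kernel⟩

def k112_pm_011 : ∃ t, chk3 f_pm_011 t 76 120 1 = true :=
  ⟨(l 4), by decide +kernel⟩

def k113_pm_011 : ∃ t, chk3 f_pm_011 t 77 240 1 = true :=
  ⟨(a (l 4) (b (l 4) (a (l 4) (b (l 4) (b (a (l 4) (c (l 115662135015) (a (l 4) (l 101703487799)))) (c (a (l 123178322791) (a (a (l 88281714711) (l 66806878903)) (l 43721428135))) (a (l 123178327319) (c (a (l 77007425431) (l 16778120)) (a (l 75933683255) (l 16777960)))))))))), by decide +kernel⟩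

def k114_pm_011 : ∃ t, chk3 f_pm_011 t 154 241 1 = true :=
  ⟨(b (a (l 4) (a (l 4) (a (l 4) (b (l 4) (b (l 4) (a (c (l 102777232551) (l 90966069319)) (c (l 71101846311) (l 70028103911)))))))) (a (a (b (l 4) (c (b (l 122641454359) (a (b (l 125862676535) (l 66806878599)) (c (l 16778952) (l 16778832)))) (b (a (l 4) (l 116199004967)) (c (a (l 83986747431) (l 16778696)) (a (l 83986747159) (l 16779208)))))) (a (b (l 4) (c (b (b (l 109219682407) (l 56606329927)) (l 16777744)) (b (c (l 74859941703) (l 74323070535)) (l 16777488)))) (b (a (l 4) (b (l 4) (c (l 103314103303) (l 93113553015)))) (c (c (l 16780344) (l 16780224)) (c (l 16778792) (l 16777344)))))) (c (c (b (a (b (l 109756549527) (a (l 65733136471) (l 16778112))) (b (l 44795170391) (l 16777168))) (l 16778576)) (b (a (b (l 109756549223) (a (l 65196265319) (l 16777992))) (b (l 44258299559) (l 16777056))) (l 16778488))) (c (b (a (b (l 109756551527) (a (l 65733135815) (l 16777856))) (b (l 44795170199) (l 16776936))) (l 16779696)) (b (a (b (l 110293422103) (a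 (l 65196264631) (l 16777712))) (b (l 45332040807) (l 16776808))) (b (l 16778904) (l 16780256))))))), by decide +kernel⟩

def k115_pm_011 : ∃ t, chk3 f_pm_011 t 155 241 1 = true :=
  ⟨(b (a (a (b (l 4) (c (b (a (l 112440903943) (c (l 71638716807) (l 71638716487))) (c (l 16778784) (l 16778656))) (b (a (l 111367166711) (c (l 71638716071) (l 71101844711))) (c (l 16779176) (l 16777712))))) (b (b (l 4) (c (a (l 97408521367) (c (l 62511910999) (l 62511910583))) (a (l 95261037079) (c (l 61975039383) (l 61438168087))))) (c (c (l 16780072) (l 16779952)) (c (l 16779824) (l 16779680))))) (a (c (b (b (a (b (l 4) (l 72712457303)) (c (l 16778464) (l 16778336))) (l 29762783783)) (l 16781200)) (b (b (a (b (l 4) (l 68954360295)) (c (l 16778184) (l 16778032))) (l 16778848)) (l 16780992))) (b (c (l 16779696) (c (l 16776888) (l 16776744))) (l 16779592)))) (b (a (a (c (l 16781552) (l 16778712)) (l 16779792)) (l 16778944)) (c (l 16776472) (l 16777728)))), by decide +kernel⟩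

def k116_pm_011 : ∃ t, chk3 f_pm_011 t 152 242 1 = true :=
  ⟨(b (l 4) (a (b (l 4) (a (l 4) (c (c (b (l 126399548263) (a (l 84523618983) (l 48553266791))) (b (l 127473289831) (a (l 85060489671) (l 49627008391)))) (c (b (l 128547031383) (a (l 85597360327) (l 49627008167))) (b (l 129083902007) (a (l 86134230983) (l 50163878839))))))) (b (b (a (l 4) (a (l 4) (b (l 4) (c (l 81302393479) (l 80228651191))))) (c (c (a (l 119957097079) (a (l 66270007719) (l 16777976))) (a (l 121030838631) (a (l 66806878343) (l 16777872)))) (c (a (l 121567709271) (a (l 67343749047) (l 16777752))) (a (l 122641450791) (a (l 67880619639) (l 16777624)))))) (c (a (b (c (a (l 75396813319) (l 16778080)) (a (l 75933684023) (l 16777968))) (l 16779888)) (c (l 16779152) (l 16779072))) (a (b (b (a (l 110293423735) (l 49627008695)) (c (l 44795169671) (l 46405782167))) (l 16779680)) (c (l 16778976) (l 16778872))))))), by decide +kernel⟩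

def k117_pm_011 : ∃ t, chk3 f_pm_011 t 153 242 1 = true :=
  ⟨(b (a (b (l 4) (b (a (l 4) (c (a (l 119420225815) (b (l 109756553095) (l 56606331015))) (a (l 119420230471) (b (l 110293423927) (l 55532588631))))) (b (a (l 4) (a (c (l 62511911207) (l 61438168823)) (c (l 16777936) (l 16777696)))) (a (a (l 4) (c (l 68954362327) (l 67880619975))) (c (l 16777712) (l 16777472)))))) (b (b (a (l 4) (c (a (b (l 4) (l 80228651319)) (c (l 57143201911) (l 57680072423))) (a (b (l 4) (l 78081167447)) (c (l 58216942919) (l 58216942647))))) (c (a (a (l 110830293639) (c (l 66270007703) (l 66806878247))) (c (l 16777768) (l 16777656))) (a (a (b (l 4) (l 93650423191)) (c (l 66806878007) (l 66806877751))) (c (l 16777528) (l 16777400))))) (b (a (c (c (l 16341013095) (l 16778432)) (c (l 16778312) (l 16778832))) (c (l 16776496) (l 16776296))) (c (l 16778544) (l 16779672))))) (c (a (c (b (a (b (a (l 57680072759) (l 16777864)) (l 16777016)) (l 16778832)) (l 16779512)) (b (a (b (a (l 58216943447) (l 16777752)) (l 16776920)) (l 16778752))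 (l 16779456))) (c (l 16777784) (l 16777752))) (a (c (b (a (b (a (l 58753814055) (l 16777632)) (l 16776816)) (l 16778656)) (l 16779392)) (b (a (b (a (l 58753813799) (l 16777504)) (l 16776704)) (l 16778560)) (l 16779328))) (c (l 16777712) (l 16777664))))), by decide +kernel⟩

def k118_pm_011 : ∃ t, chk3 f_pm_011 t 76 243 1 = true :=
  ⟨(a (b (a (c (b (a (b (b (c (l 102777227143) (l 103314100439)) (a (l 80765522775) (a (l 16778120) (l 16777896)))) (c (l 16777592) (l 16777496))) (a (b (l 37815846471) (l 16776520)) (l 16779064))) (c (l 16777552) (l 16778808))) (b (c (a (b (a (l 105998452151) (l 58216943191)) (l 16777392)) (c (l 16779304) (l 16777944))) (a (b (a (l 105461580967) (b (l 77544295255) (l 16777728))) (l 16777272)) (b (l 16777144) (l 16775936)))) (c (l 16778744) (l 16778672)))) (b (c (l 16779824) (l 16779040)) (c (l 16777096) (l 16777040)))) (a (c (l 16776328) (l 16776200)) (l 16773208))) (c (b (l 16774328) (l 16772144)) (b (c (l 16772192) (l 16772088)) (l 16771712)))), by decide +kernel⟩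

def k119_pm_011 : ∃ t, chk3 f_pm_011 t 77 121 1 = true :=
  ⟨(b (a (b (b (a (c (a (c (l 16779640) (l 16779544)) (l 16780744)) (a (c (l 16779432) (l 16779304)) (l 16780568))) (c (l 16778432) (l 16778320))) (c (l 16778536) (c (l 16777176) (l 16777136)))) (c (l 16773144) (l 16772896))) (c (l 16772888) (l 16772496))) (a (b (c (l 16771680) (l 16771216)) (c (l 16768864) (l 16768184))) (c (l 16769672) (c (l 16766432) (l 16766008))))), by decide +kernel⟩

def k120_pm_011 : ∃ t, chk3 f_pm_011 t 39 120 1 = true :=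
  ⟨(a (b (a (b (a (l 4) (b (l 4) (b (a (l 4) (c (a (l 107072200727) (l 60901299223)) (a (l 95261037111) (c (l 61438168375) (l 60364426135))))) (a (c (c (l 83986749271) (l 83986748983)) (a (l 108682806967) (c (l 71101845223) (l 70564973831)))) (c (l 42110813015) (c (l 16777904) (l 16777736))))))) (a (a (a (b (l 4) (b (c (c (l 68417491127) (l 67343749047)) (c (l 67343748615) (l 66270006471))) (c (l 16777832) (l 16777544)))) (b (b (l 4) (c (l 90966070631) (l 88818586839))) (c (l 16780376) (c (l 16777544) (l 16777384))))) (c (b (b (a (l 4) (l 80228652791)) (c (l 46405783655) (l 46942654279))) (l 16781976)) (b (b (c (l 100092872439) (l 99556003783)) (c (l 47479524727) (l 47479524391))) (l 16779096)))) (a (c (b (a (b (l 46405783655) (l 16777520)) (l 16777440)) (l 16780472)) (b (c (b (l 16778016) (l 16776984)) (l 37278975095)) (l 16780264))) (b (c (l 16781616) (l 16781368)) (l 16778832))))) (b (b (b (a (a (c (l 121030839191) (l 120493967479)) (c (c (l 60901299319) (l 60901298951)) (c (l 61438169383) (l 60901298135))))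 (c (l 16782256) (l 16779352))) (c (a (a (a (l 85060490567) (l 50700751063)) (l 16777848)) (l 16780960)) (a (a (a (l 82913006631) (l 53921973911)) (l 16777536)) (l 16780720)))) (c (a (c (l 16779424) (c (l 16779336) (l 16779272))) (l 16778912)) (a (a (c (l 16777232) (l 16777072)) (l 16781000)) (l 16778744)))) (a (c (l 16777912) (l 16777784)) (l 16777280)))) (c (b (a (a (c (l 16778720) (l 16778664)) (l 16775496)) (l 16772776)) (l 16772736)) (a (a (b (a (l 16779320) (l 16777784)) (l 16773920)) (l 16773936)) (l 16771008)))) (a (b (b (c (l 16778088) (c (l 16778040) (l 16777992))) (l 16771984)) (c (l 16768312) (l 16767576))) (c (b (l 16770304) (l 16765192)) (b (l 16769768) (l 16769432))))), by decide +kernel⟩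

def k121_pm_011 : ∃ t, chk3 f_pm_011 t 39 121 1 = true :=
  ⟨(a (a (b (c (l 16769344) (l 16768688)) (c (l 16763888) (l 16762792))) (b (c (l 16766176) (l 16767880)) (c (l 16755536) (l 16754168)))) (b (c (b (l 16768080) (l 16765448)) (b (l 16766864) (l 16764008))) (c (c (l 16756648) (l 16755784)) (c (l 16754896) (l 16753976))))), by decide +kernel⟩

def k122_pm_011 : ∃ t, chk3 f_pm_011 t 19 61 1 = true :=
  ⟨(a (b (a (a (a (b (c (l 16770648) (l 16770704)) (c (c (l 16760952) (l 16760552)) (b (l 16761520) (l 16758304)))) (b (c (l 16766688) (l 16766456)) (c (l 16764360) (l 16763400)))) (b (b (c (l 16769272) (l 16768632)) (c (l 16761120) (l 16760272))) (c (b (l 16758176) (l 16755200)) (b (l 16757128) (l 16753960))))) (a (b (c (c (l 16764832) (l 16764352)) (c (l 16763848) (l 16763336))) (c (c (l 16753872) (l 16753192)) (c (l 16752496) (l 16751760)))) (b (c (l 16761424) (l 16760168)) (c (l 16750440) (l 16748768))))) (b (c (a (b (a (l 16755368) (l 16752192)) (a (l 16752280) (l 16749144))) (a (l 16752832) (l 16744568)))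 (a (b (a (l 16754192) (l 16750760)) (a (l 16750920) (l 16747520))) (a (l 16748416) (l 16742504)))) (a (c (a (c (l 16747952) (l 16747184)) (c (l 16744944) (l 16744040))) (a (c (l 16746368) (l 16745520)) (c (l 16743096) (l 16742112)))) (c (a (l 16744120) (l 16738560)) (a (l 16741952) (l 16736120)))))) (c (b (b (a (b (l 16758184) (l 16755392)) (a (l 16747048) (l 16744112))) (a (a (l 16747408) (l 16744432)) (a (l 16741520) (l 16738648)))) (b (a (a (l 16741616) (l 16738720)) (a (l 16735872) (l 16733088))) (a (a (l 16735688) (l 16732872)) (a (l 16730112) (l 16727408))))) (b (b (a (b (l 16756632) (l 16753624)) (a (l 16744968) (l 16741752))) (a (a (l 16745464) (l 16742216)) (a (l 16739008) (l 16735856)))) (a (b (a (l 16739272) (l 16736088)) (a (l 16732960) (l 16729856))) (b (a (l 16732960) (l 16729872)) (a (l 16726800) (l 16723800))))))), by decide +kernel⟩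

def k123_pm_011 : ∃ t, chk3 f_pm_011 t 36 124 1 = true :=
  ⟨(a (b (c (a (a (b (c (l 16773624) (l 16773520)) (b (l 16771816) (l 16767584))) (b (b (a (l 16773688) (l 16770176)) (l 16771640)) (c (l 16766728) (l 16766488)))) (c (b (a (l 16770752) (l 16766376)) (a (l 16764976) (l 16763232))) (b (a (l 16770560) (l 16766136)) (a (l 16764696) (l 16762904))))) (a (a (b (c (l 16773424) (l 16773152)) (b (l 16771464) (l 16767136))) (b (b (a (l 16773456) (l 16769888)) (l 16771288)) (c (l 16766240) (l 16765976)))) (c (b (a (l 16770360) (l 16765888)) (a (l 16764392) (l 16762552))) (b (a (l 16770144) (l 16765616)) (a (l 16764072) (l 16762184)))))) (b (c (a (a (c (l 16765296) (l 16765016)) (l 16766008)) (c (l 16762256) (l 16761856))) (a (a (a (l 16765032) (l 16764096)) (l 16764008)) (c (l 16761432) (l 16760984)))) (b (c (a (c (l 16762032) (l 16761656)) (l 16758336)) (a (c (l 16761264) (l 16760848)) (l 16757344))) (c (a (l 16761536) (l 16756728)) (a (c (l 16759568) (l 16759104)) (l 16755640)))))) (c (b (a (a (b (l 16767112)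 (l 16761312)) (b (l 16762720) (l 16759552))) (b (c (l 16760280) (l 16759872)) (c (l 16757168) (l 16756672)))) (a (b (c (l 16757488) (l 16756992)) (c (l 16754344) (l 16753760))) (b (l 16756384) (l 16750592)))) (b (a (a (b (l 16766504) (l 16760504)) (b (l 16762008) (l 16758648))) (b (c (l 16759440) (l 16758984)) (c (l 16756144) (l 16755584)))) (a (b (c (l 16756472) (l 16755920)) (c (l 16753136) (l 16752480))) (b (l 16755136) (l 16751768)))))), by decide +kernel⟩

def k124_pm_011 : ∃ t, chk3 f_pm_011 t 37 124 1 = true :=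
  ⟨(c (b (b (a (a (l 16759192) (l 16753072)) (a (l 16749592) (l 16746120))) (a (a (l 16753432) (l 16749960)) (a (l 16746496) (l 16743048)))) (b (a (a (l 16750296) (l 16746840)) (a (l 16743400) (l 16739968))) (a (a (l 16747144) (l 16743712)) (a (l 16740296) (l 16736888))))) (b (b (a (a (l 16758128) (l 16751808)) (a (l 16748128) (l 16744464))) (a (a (l 16752176) (l 16748504)) (a (l 16744848) (l 16741200)))) (b (a (a (l 16748840) (l 16745192)) (a (l 16741552) (l 16737928))) (a (a (l 16745504) (l 16741872)) (a (l 16738256) (l 16734656)))))), by decide +kernel⟩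

def k125_pm_011 : ∃ t, chk3 f_pm_011 t 18 125 1 = true :=
  ⟨(a (c (a (b (a (b (c (l 16759344) (l 16758856)) (c (l 16754816) (l 16754240))) (b (c (l 16754600) (l 16754016)) (c (l 16751408) (l 16750736)))) (a (b (c (l 16751592) (l 16750920)) (c (l 16748352) (l 16747592))) (b (c (l 16748208) (l 16747448)) (c (l 16744992) (l 16744144))))) (b (a (b (c (l 16751192) (l 16750512)) (l 16750264)) (b (l 16747416) (l 16744224))) (a (b (l 16744424) (l 16741192)) (b (l 16741032) (l 16737824))))) (a (b (a (b (c (l 16758336) (l 16757792)) (c (l 16753624) (l 16752976))) (b (c (l 16753400) (l 16752744)) (c (l 16750024) (l 16749264)))) (a (b (c (l 16750216) (l 16749464)) (c (l 16746792) (l 16745936))) (b (c (l 16746632) (l 16745776)) (c (l 16743232) (l 16742272))))) (b (a (b (c (l 16749792) (l 16749032)) (c (l 16746440) (l 16745576))) (b (l 16745776) (l 16742392))) (a (b (l 16743912) (l 16740480)) (b (l 16739008) (l 16735608)))))) (c (b (b (a (a (l 16743992) (l 16740584)) (a (l 16737192) (l 16733808))) (a (a (l 16740832)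 (l 16737448)) (a (l 16734072) (l 16730712)))) (a (b (a (l 16737656) (l 16734296)) (b (a (l 16735272) (l 16737144)) (a (c (l 16734160) (l 16733000)) (l 16729856)))) (b (a (c (l 16731592) (l 16730352)) (a (l 16733648) (l 16731832))) (a (c (l 16738184) (l 16736896)) (l 16723240))))) (b (b (a (a (l 16742152) (l 16738544)) (a (l 16734952) (l 16731368))) (a (a (l 16738792) (l 16735208)) (a (l 16731640) (l 16728088)))) (a (b (a (l 16735432) (l 16731872)) (b (a (l 16732896) (l 16734576)) (a (c (l 16731776) (l 16730472)) (l 16727256)))) (b (a (c (l 16729032) (l 16727648)) (a (l 16730880) (l 16730304))) (a (c (l 16735536) (l 16734104)) (l 16720392))))))), by decide +kernel⟩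

def k126_pm_011 : ∃ t, chk3 f_pm_011 t 18 63 1 = true :=
  ⟨(b (a (c (b (a (b (a (c (l 16745096) (l 16744248)) (a (l 16742144) (a (l 16740904) (l 16740064)))) (b (a (c (l 16747856) (l 16746952)) (c (l 16738984) (l 16738000))) (a (l 16745352) (l 16736328)))) (b (b (a (l 16738776) (c (l 16735792) (l 16739928))) (a (c (l 16742632) (l 16741592)) (l 16733120))) (c (l 16742696) (l 16741600)))) (a (b (c (l 16740624) (l 16744888)) (l 16735696)) (c (l 16730728) (l 16729616)))) (b (a (b (a (c (l 16743352) (l 16742400)) (a (l 16740192) (a (l 16738864) (l 16743216)))) (b (a (a (l 16741160) (l 16739312)) (c (l 16742192) (l 16741080))) (a (l 16743384) (l 16734208)))) (b (b (a (l 16736608) (c (l 16738760) (l 16737520))) (a (c (l 16740480) (l 16739304)) (l 16730752))) (c (l 16740448) (l 16739224)))) (a (b (c (l 16743856) (l 16742760)) (l 16738840)) (c (l 16733688) (l 16732464))))) (b (b (a (a (c (l 16730352) (l 16727864)) (c (l 16726496) (l 16723880))) (c (l 16720624) (l 16717832))) (a (c (l 16723904) (l 16721344)) (l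 16725184))) (a (c (l 16722376) (l 16725040)) (c (l 16709264) (l 16706464))))) (b (a (a (c (b (l 16731280) (l 16721656)) (c (l 16727488) (l 16731608))) (c (c (l 16721864) (l 16725952)) (b (l 16715872) (l 16711432)))) (a (c (b (l 16710408) (l 16706056)) (l 16716120)) (c (l 16710944) (l 16697600)))) (a (a (c (b (l 16723152) (l 16715480)) (b (l 16726056) (l 16712712))) (c (b (l 16710472) (l 16708304)) (b (l 16707832) (l 16705200)))) (a (c (l 16712672) (l 16698984)) (c (l 16695024) (l 16691496)))))), by decide +kernel⟩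

def k127_pm_011 : ∃ t, chk3 f_pm_011 t 19 124 1 = true :=
  ⟨(b (c (a (a (a (b (l 16742792) (l 16739648)) (c (l 16738680) (l 16737616))) (a (c (l 16735832) (l 16734640)) (l 16732400))) (a (a (l 16729616) (l 16726896)) (a (l 16724224) (l 16721608)))) (a (a (a (b (l 16740920) (l 16737592)) (c (l 16736504) (l 16735344))) (a (c (l 16733384) (l 16732072)) (l 16729608))) (a (a (l 16726528) (l 16723504)) (a (l 16720536) (l 16717608))))) (c (a (a (a (c (l 16735576) (l 16734464)) (b (l 16733320) (l 16730152))) (a (c (l 16729480) (l 16728136)) (c (l 16726808) (l 16725320)))) (a (a (c (l 16724200) (l 16722560)) (c (l 16721648) (l 16719864))) (b (c (l 16719416) (l 16717440)) (a (l 16721856) (c (l 16725232) (l 16723128)))))) (a (a (a (c (l 16733296) (l 16732072)) (b (l 16730856) (l 16727520))) (a (c (l 16726728) (l 16725248)) (c (l 16723760) (l 16722128)))) (a (a (c (l 16720848) (l 16719064)) (c (l 16717992) (l 16716048))) (b (c (l 16715384) (l 16713240)) (a (l 16717728) (c (l 16720928) (l 16718648)))))))), by decide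 +kernel⟩

def k128_pm_011 : ∃ t, chk3 f_pm_011 t 19 125 1 = true :=
  ⟨(c (a (b (a (a (c (l 16729536) (l 16728248)) (b (l 16727064) (c (l 16724704) (l 16728520)))) (b (a (l 16723920) (l 16721224)) (a (a (l 16731808) (l 16724776)) (l 16727520)))) (a (b (a (c (l 16729672) (l 16728280)) (l 16719920)) (l 16717328)) (a (l 16713680) (l 16720312)))) (b (a (b (a (c (l 16729768) (l 16728032)) (c (l 16716280) (l 16714424))) (l 16722568)) (b (a (l 16712128) (l 16708696)) (l 16705128))) (a (l 16714952) (l 16697296)))) (a (b (a (a (c (l 16726880) (l 16725448)) (b (l 16724248) (c (l 16732256) (l 16730672)))) (b (a (l 16720872) (l 16717880)) (a (a (l 16728680) (l 16726808)) (l 16724152)))) (a (b (a (c (l 16726808) (l 16727880)) (l 16716848)) (l 16714312)) (a (l 16710496) (l 16717008)))) (b (a (b (a (c (l 16726216) (l 16724312)) (b (l 16712720) (l 16710376))) (l 16718856)) (b (a (l 16708016) (l 16704392)) (l 16701040))) (a (l 16711376) (l 16693384))))), by decide +kernel⟩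

def k129_pm_011 : ∃ t, chk3 f_pm_011 t 19 63 1 = true :=
  ⟨(a (a (b (b (c (l 16720936) (l 16717928)) (c (l 16701336) (l 16698328))) (b (c (l 16692648) (l 16689576)) (c (l 16687912) (l 16684056)))) (b (b (c (l 16702480) (l 16699264)) (l 16702240)) (b (a (l 16706128) (l 16702168)) (l 16689264)))) (a (b (b (c (l 16694680) (l 16691232)) (l 16694104)) (b (l 16688424) (l 16671600))) (b (b (l 16706280) (l 16675584)) (b (c (l 16669320) (l 16665568)) (l 16664456))))), by decide +kernel⟩

def k130_pm_011 : ∃ t, chk3 f_pm_011 t 5 6 1 = true :=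
  ⟨(b (l 4) (a (l 4) (b (l 4) (a (b (l 4) (a (l 4) (b (l 4) (a (l 4) (b (l 4) (a (l 4) (b (a (l 4) (b (l 4) (l 101703511735))) (b (a (l 110830315799) (l 57143201031)) (c (l 56606323095) (l 52848230327)))))))))) (b (a (l 4) (b (a (l 4) (a (l 4) (b (l 4) (c (l 122104586087) (l 116735894407))))) (a (c (b (l 4) (a (l 129620779671) (b (l 97408523191) (l 44795169335)))) (b (l 4) (a (l 125862700743) (b (l 89892328343) (a (l 61975028167) (l 16781328)))))) (a (b (b (l 4) (a (l 90966074407) (c (l 63048770087) (l 16775240)))) (c (l 38352716503) (l 35131493479))) (b (b (a (l 94187320983) (l 16779992)) (l 16781584)) (l 16776520)))))) (a (b (a (l 4) (b (a (l 4) (a (l 4) (b (l 4) (c (l 48553258695) (l 64122507687))))) (b (a (c (l 105461586327) (l 99556014359)) (c (l 54995709015) (l 50163874919))) (a (a (b (l 90966093303) (l 63585650615)) (l 50163881655)) (l 16779032))))) (b (b (a (a (l 4) (a (b (l 4) (l 105998472983)) (b (l 93113569991) (l 16781584)))) (c (l 16788720) (l 16787512))) (a (a (a (l 4) (c (l 97408545863) (b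 (l 51237606487) (l 16781048)))) (c (l 16781272) (l 16780088))) (l 16783696))) (a (a (b (a (a (b (l 105998467463) (l 16781504)) (l 54995717191)) (l 16780600)) (l 16788840)) (l 16785576)) (l 16786488)))) (a (b (b (a (b (c (l 65733147255) (a (l 99556006599) (l 16781544))) (c (l 16781816) (l 16780512))) (c (l 16779440) (l 16778096))) (c (l 16794528) (l 16793360))) (b (l 16783704) (l 16772544))) (b (b (l 16780808) (l 16780880)) (l 16764032))))))))), by decide +kernel⟩

def k131_pm_011 : ∃ t, chk3 f_pm_011 t 20 28 1 = true :=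
  ⟨(l 4), by decide +kernel⟩

def k132_pm_011 : ∃ t, chk3 f_pm_011 t 21 56 1 = true :=
  ⟨(l 4), by decide +kernel⟩

def k133_pm_011 : ∃ t, chk3 f_pm_011 t 42 57 1 = true :=
  ⟨(b (l 4) (a (l 4) (b (l 4) (a (b (l 4) (a (l 4) (b (l 4) (a (c (l 115125271031) (l 86671101415)) (c (l 83449884967) (c (l 65733130199) (l 63048775111))))))) (c (b (a (l 123715196551) (b (l 100629746039) (c (l 53921973895) (l 50163871815)))) (a (b (c (l 66270011879) (l 64659398183)) (l 16779200)) (l 16777784))) (b (a (l 122104592487) (a (b (l 4) (a (l 95261041175) (l 16779536))) (b (l 103314110599) (l 16779216)))) (a (b (a (l 99019143463) (l 16779392)) (l 16778520)) (l 16777144)))))))), by decide +kernel⟩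

def k134_pm_011 : ∃ t, chk3 f_pm_011 t 43 57 1 = true :=
  ⟨(b (a (b (l 4) (a (l 4) (b (l 4) (a (l 4) (b (l 4) (c (l 92039815175) (l 87207976535))))))) (b (a (l 4) (b (l 4) (c (a (l 114051519783) (b (l 84523621063) (l 59827551511))) (a (l 110830300231) (b (l 78618039831) (l 56069457127)))))) (a (b (a (l 4) (b (a (l 4) (l 114588401239)) (a (a (l 95261047511) (l 99556015607)) (b (l 89355464727) (l 16780144))))) (a (b (a (l 112440918295) (c (l 93650432151) (l 70564969447))) (c (l 16777632) (l 16779480))) (c (l 16779232) (l 16778456)))) (b (a (b (a (b (l 107072206839) (l 64659395447)) (l 56069461559)) (l 16781952)) (l 16785864)) (l 16785304))))) (a (b (a (b (l 4) (a (b (l 4) (c (l 85060495239) (a (l 105461593335) (l 94187302503)))) (b (c (l 73786205783) (a (l 106535335863) (l 61975035207))) (c (l 16779792) (l 16779064))))) (c (b (a (b (l 107072197287) (l 63048784647)) (b (a (l 89355463255) (l 16780176)) (l 16779120))) (l 16782488)) (b (a (b (l 101703486535) (a (l 97945399399) (l 16779584))) (b (c (l 60364420199)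 (l 58753808631)) (l 16778376))) (c (l 16782000) (l 16781632))))) (c (a (b (a (c (l 53385098951) (l 51237616455)) (l 16776824)) (l 16783704)) (l 16779736)) (a (b (a (b (l 56069455783) (l 16777736)) (l 16776184)) (l 16783216)) (l 16779368)))) (c (b (a (b (l 16786704) (l 16791880)) (l 16787808)) (l 16779520)) (b (a (b (l 16786040) (l 16780928)) (l 16787448)) (l 16779456))))), by decide +kernel⟩

def k135_pm_011 : ∃ t, chk3 f_pm_011 t 40 58 1 = true :=
  ⟨(l 4), by decide +kernel⟩

def k136_pm_011 : ∃ t, chk3 f_pm_011 t 41 116 1 = true :=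
  ⟨(a (l 4) (b (l 4) (a (l 4) (b (l 4) (a (b (l 4) (c (l 116199002407) (l 114588398727))) (b (a (l 4) (c (l 88281717447) (l 84523620663))) (c (a (l 67343751671) (l 16779288)) (a (c (l 65196262999) (l 56069454631)) (l 16778696))))))))), by decide +kernel⟩

def k137_pm_011 : ∃ t, chk3 f_pm_011 t 41 117 1 = true :=
  ⟨(a (b (a (l 4) (b (l 4) (a (l 4) (a (l 4) (b (l 4) (c (l 85060493735) (a (l 92576681863) (l 72175586919)))))))) (a (a (b (l 4) (b (l 4) (a (b (l 4) (c (l 93113552823) (l 88281714199))) (c (c (l 66270010295) (l 65733138775)) (c (l 64659396295) (l 63585652407)))))) (a (b (l 4) (b (b (l 4) (c (l 96334785879) (a (l 106535329335) (l 16778880)))) (c (l 16778744) (l 16778248)))) (b (b (l 4) (c (l 116735872823) (l 114051517015))) (b (a (c (l 58216942791) (b (l 99019136119) (l 16778704))) (c (l 16779144) (l 16778632))) (l 16782560))))) (a (b (b (a (l 4) (c (l 101166616039) (l 98482264279))) (c (a (c (l 76470558359) (l 75396815831)) (c (l 16779224) (l 16778984))) (a (c (l 74323073271) (l 73249330679))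 (l 54995714663)))) (c (l 16781848) (c (l 16781536) (l 16781304)))) (b (b (c (a (b (l 100629752919) (l 16779320)) (l 16778856)) (a (b (l 99019139335) (l 16778792)) (l 16778328))) (c (l 16777384) (l 16776920))) (l 16781184))))) (b (a (b (a (l 4) (b (l 4) (c (a (l 95797907063) (l 56069461543)) (a (l 92039812199) (b (l 94724170743) (l 16778864)))))) (b (c (a (a (l 111904034583) (b (l 110830299911) (l 65733133623))) (c (l 16778848) (l 16778592))) (a (a (l 108145936919) (b (l 107072202647) (l 16777680))) (c (l 16778328) (l 16778032)))) (a (a (c (l 51774489623) (b (l 71638712615) (l 16778576))) (b (l 16781336) (l 16777760))) (l 16781528)))) (a (c (b (b (a (l 80228654919) (c (l 16776992) (l 16779352))) (l 16778376)) (l 16785200)) (b (b (a (c (l 78081168855) (l 75933684567)) (l 58216939319)) (l 16777832)) (l 16784800))) (b (c (l 16782056) (l 16781560)) (l 16781768)))) (b (a (a (b (l 16783288) (l 16784664)) (l 16782800)) (l 16777752)) (c (l 16775400) (l 16777976))))), by decide +kernel⟩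

def k138_pm_011 : ∃ t, chk3 f_pm_011 t 80 118 1 = true :=
  ⟨(b (l 4) (a (b (l 4) (a (l 4) (b (l 4) (a (l 4) (b (l 4) (c (l 78618041271) (c (l 78081168343) (l 77007425831)))))))) (b (a (l 4) (b (l 4) (b (a (l 4) (c (l 87744845575) (l 84523619895))) (c (a (l 99019133943) (c (l 16777064) (l 16776216))) (a (l 95261037639) (c (l 16778616) (l 16778384))))))) (a (a (b (l 4) (b (c (c (l 72175588919) (l 71101846615)) (c (l 70028104247) (l 68417490951))) (c (l 16778576) (l 16778168)))) (b (c (b (l 108682808311) (l 62511913127)) (b (l 105461581879) (c (l 63048780023) (l 56606326023)))) (c (l 16777936) (l 16777544)))) (a (b (c (c (l 41573946375) (l 42110816727)) (c (l 42110816151) (l 42647686359))) (l 16781632)) (c (l 16781584) (l 16781248))))))), by decide +kernel⟩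

def k139_pm_011 : ∃ t, chk3 f_pm_011 t 81 118 1 = true :=
  ⟨(b (a (b (l 4) (a (l 4) (b (a (l 4) (c (l 109219682231) (b (l 4) (l 92576682247)))) (c (a (b (l 114588394855) (l 63585653095)) (c (l 16778952) (l 48016393287))) (a (b (l 101703487127) (a (l 97408523895) (l 16778632))) (c (b (l 65733131831) (l 16778136)) (l 59827550455))))))) (b (a (b (l 4) (a (l 4) (b (l 4) (c (l 78081168343) (l 73786200199))))) (b (a (c (l 121030840151) (l 118883355319)) (a (c (l 90966071479) (l 87207974919)) (c (l 68954364647) (b (l 108145942183) (l 16778736))))) (c (a (c (l 52311365671) (l 52311365079)) (l 16778296)) (a (c (l 51774493383) (l 50700751047)) (l 16777832))))) (c (a (b (a (b (l 86134232039) (l 62511907591)) (l 16778608)) (l 16782328)) (l 16780608)) (a (b (a (b (l 82376135239) (l 59827552935)) (l 16778152)) (l 16781928)) (l 16780264))))) (b (a (a (b (b (a (l 4) (c (l 71101847367) (c (l 69491231111) (l 59827551143)))) (c (a (l 79154911319) (l 16778752)) (a (c (l 77544296519) (l 75933683223)) (l 16778304)))) (c (c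 (l 35668362183) (l 42647683175)) (c (l 41573941687) (l 16777576)))) (b (c (l 16780104) (l 16782320)) (l 16780024))) (c (l 16781904) (l 16781712))) (a (a (b (l 16781768) (l 16777744)) (l 16778496)) (l 16776280)))), by decide +kernel⟩

def k140_pm_011 : ∃ t, chk3 f_pm_011 t 40 119 1 = true :=
  ⟨(a (b (a (b (a (b (a (l 4) (b (l 4) (c (l 98482263767) (l 95261038423)))) (a (b (c (l 109219679095) (l 107072194535)) (c (c (l 62511912055) (l 61975040631)) (c (l 60901298279) (l 59827555959)))) (c (c (l 42110816343) (l 41037074727)) (c (l 41037074343) (l 41573944663))))) (c (b (b (a (l 87207975527) (l 57143198519)) (c (l 16778416) (l 16778232))) (l 16781872)) (b (b (a (a (l 123178321879) (l 96334782743)) (l 16778288)) (c (l 16778040) (l 54995712807))) (l 16781536)))) (a (b (a (c (l 16777704) (l 16777344)) (l 16781384)) (l 16780816)) (c (l 16783024) (l 16777600)))) (a (b (b (c (l 16781464) (l 16781136)) (l 16778640)) (l 16774424)) (c (l 16779232) (l 16777848)))) (a (a (b (l 16777952) (l 16776744)) (l 16772480)) (l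 16771352))) (a (b (c (l 16776016) (l 16775600)) (l 16769448)) (b (l 16769968) (l 16767568)))), by decide +kernel⟩

def k141_pm_011 : ∃ t, chk3 f_pm_011 t 41 59 1 = true :=
  ⟨(b (a (b (b (a (c (a (b (c (l 16877887591) (l 36205234983)) (l 16776224)) (l 16784920)) (a (a (b (b (l 63585648967) (l 16778136)) (l 16776552)) (l 16781584)) (l 16784592))) (c (l 16779920) (l 16779752))) (a (a (l 16779872) (l 16779168)) (l 16774680))) (c (l 16769736) (a (l 16774048) (l 16770696)))) (c (b (l 16771416) (l 16766888)) (b (l 16768064) (l 16765672)))) (b (a (c (l 16763120) (l 16767232)) (c (l 16762304) (l 16760600))) (a (c (l 16763648) (l 16762032)) (c (l 16747192) (l 16745000))))), by decide +kernel⟩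

def k142_pm_011 : ∃ t, chk3 f_pm_011 t 21 58 1 = true :=
  ⟨(a (b (a (b (a (l 4) (b (a (l 4) (b (l 4) (a (l 4) (c (l 87744844791) (l 81839264039))))) (c (a (b (l 115662131671) (a (l 81839265591) (l 61975035975))) (b (a (l 67880619287) (l 16779632)) (l 16778448))) (a (b (l 112440904663) (a (l 76470555527) (l 58753810743))) (b (a (b (l 102777234615) (l 16779296)) (l 16778984)) (l 16777840)))))) (a (b (a (b (l 4) (a (b (l 4) (l 111904044087)) (c (l 74859944327) (b (l 65196260247) (l 16779208))))) (c (b (b (l 91502943479) (l 65196268311)) (l 50700747927)) (b (a (l 90966070423) (b (l 96334782823) (l 16779136))) (l 46405782615)))) (b (a (b (a (c (l 93113558407) (l 73249325719)) (l 16781720)) (c (l 16779072) (l 16778480))) (l 16782088)) (c (l 16786584) (l 16780856)))) (b (a (a (c (l 16778440) (l 16777848)) (l 16782096)) (l 16785104)) (l 16781296)))) (c (b (a (b (a (b (a (l 126399549687) (l 73249328711)) (c (l 61975033031) (l 60364420679))) (b (l 16779504) (l 16777584))) (l 16785864)) (a (l 16783720) (l 16780344)))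 (c (l 16779128) (l 16779096))) (b (c (a (b (a (b (l 88281714071) (l 58216937367)) (l 16778160)) (l 16785488)) (b (l 16784440) (l 16789472))) (a (b (a (b (l 86134235159) (l 56606325559)) (l 16777816)) (l 16785208)) (b (l 16784160) (l 16778808)))) (c (l 16779048) (l 16778976))))) (a (b (a (a (b (l 16784000) (l 16778384)) (l 16777840)) (l 16775232)) (l 16769288)) (c (l 16765672) (l 16764528)))) (b (a (b (a (l 16780240) (l 16778592)) (l 16765320)) (c (l 16761528) (l 16760208))) (a (c (l 16759376) (l 16757664)) (c (l 16752976) (l 16750728))))), by decide +kernel⟩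

def k143_pm_011 : ∃ t, chk3 f_pm_011 t 21 59 1 = true :=
  ⟨(a (b (a (b (l 16767224) (a (l 16761480) (l 16747800))) (b (l 16758144) (l 16753480))) (b (a (a (l 16746224) (l 16743064)) (l 16748816)) (a (c (l 16741240) (l 16738488)) (l 16744128)))) (b (a (c (l 16750680) (l 16748024)) (c (l 16733920) (l 16730728))) (a (c (l 16741976) (l 16738352)) (c (l 16725376) (l 16721232))))), by decide +kernel⟩

def k144_pm_011 : ∃ t, chk3 f_pm_011 t 22 56 1 = true :=
  ⟨(a (b (a (l 4) (l 4)) (a (b (l 4) (a (a (l 4) (b (l 4) (c (l 116735874631) (l 112440905239)))) (b (a (l 4) (b (l 4) (c (l 101703500647) (l 95797919319)))) (a (b (a (l 4) (l 100629759879)) (c (l 62511905655) (l 58216939159))) (c (l 16780264) (l 16779376)))))) (a (b (b (l 4) (c (a (l 117809616695) (b (l 115662132903) (l 63585647159))) (a (l 112977776263) (b (l 110293443399) (l 58753809351))))) (b (c (a (b (l 93113566743) (l 16780640)) (l 16779560)) (a (b (a (l 77007422407) (l 16780256)) (l 16779728)) (l 16778640))) (l 16786784))) (b (b (a (b (l 4) (c (l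 103850985607) (l 96871661319))) (c (l 50700752151) (b (l 69491226279) (l 16780040)))) (a (c (l 16780672) (l 16779728)) (l 16778216))) (c (l 16783504) (l 16782784)))))) (b (a (b (a (l 4) (a (l 4) (b (l 4) (c (l 73786206279) (b (l 94724187399) (l 16778040)))))) (a (c (b (a (l 4) (l 94187296487)) (a (l 74323078983) (l 16781024))) (b (a (l 4) (l 88281719959)) (a (b (l 95797928935) (l 58753809095)) (l 16780032)))) (b (a (b (a (l 107609080775) (l 63048782599)) (l 16780832)) (l 16779960)) (l 16787944)))) (c (b (a (b (b (l 91502942471) (l 59827563127)) (l 44795168919)) (l 16783144)) (l 16781736)) (b (a (b (a (l 86671102231) (b (l 66806869575) (l 16780552))) (l 39963334167)) (l 16787344)) (b (l 16783424) (l 16788808))))) (a (b (a (c (l 16782032) (l 16783760)) (l 16780656)) (l 16780856)) (c (l 16775088) (l 16774832))))), by decide +kernel⟩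

def k145_pm_011 : ∃ t, chk3 f_pm_011 t 22 57 1 = true :=
  ⟨(a (b (a (a (a (b (b (b (l 4) (c (l 98482275047) (a (l 110293430199) (l 16780040)))) (c (l 16779792) (l 16778952))) (l 16783152)) (b (b (a (b (a (l 103850982231) (l 93650434183)) (l 16780176)) (c (l 16780440) (l 16779584))) (l 16787504)) (l 16779840))) (b (a (b (l 16785152) (l 16774080)) (l 16783984)) (l 16785144))) (b (c (l 16786288) (l 16785856)) (l 16774392))) (a (b (l 16774352) (l 16771128)) (l 16758432))) (a (b (c (l 16768360) (l 16767240)) (l 16748520)) (b (l 16755024) (l 16740976)))), by decide +kernel⟩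

def k146_pm_011 : ∃ t, chk3 f_pm_011 t 23 28 1 = true :=
  ⟨(b (a (b (a (a (b (l 16792464) (l 16781616)) (l 16780224)) (c (l 16769672) (l 16769336))) (a (l 16766456) (l 16753032))) (b (a (l 16755096) (l 16744344)) (c (l 16741040) (l 16738784)))) (a (b (a (l 16752400) (l 16744160)) (c (l 16741088) (l 16738008))) (b (c (l 16732504) (l 16729512)) (c (l 16724176) (l 16720424))))), by decide +kernel⟩

def k147_pm_011 : ∃ t, chk3 f_pm_011 t 11 29 1 = true :=
  ⟨(a (a (a (b (b (b (l 16766696) (l 16751752)) (c (l 16735968) (l 16743680))) (b (c (l 16727520) (l 16723816)) (c (l 16719144) (l 16714488)))) (b (b (l 16752200) (l 16745328)) (b (c (l 16720952) (l 16716760)) (c (l 16712744) (l 16707616))))) (a (b (b (l 16739720) (l 16741464)) (b (l 16727600) (c (l 16706136) (l 16700568)))) (b (b (l 16742712) (l 16734080)) (b (l 16725600) (l 16706792))))) (a (b (b (c (l 16732864) (l 16728952)) (c (l 16724816) (l 16720064))) (a (b (l 16697096) (l 16709928)) (b (l 16689224) (l 16681264)))) (b (c (b (l 16716096) (l 16708264))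 (b (l 16711560) (l 16681960))) (b (c (l 16679736) (l 16673568)) (c (l 16672488) (l 16665448)))))), by decide +kernel⟩

def k148_pm_011 : ∃ t, chk3 f_pm_011 t 10 60 1 = true :=
  ⟨(a (a (a (b (b (a (c (l 16772432) (l 16771616)) (l 16768808)) (c (c (l 16766200) (l 16765496)) (c (l 16764784) (l 16764056)))) (c (b (a (l 16751744) (l 16748776)) (a (l 16746528) (l 16743616))) (b (a (l 16749992) (l 16746736)) (a (l 16744320) (l 16741128))))) (b (a (b (l 16765632) (l 16760440)) (b (l 16762488) (l 16757344))) (b (c (l 16754880) (l 16741928)) (c (l 16739336) (l 16736408))))) (a (a (b (b (l 16759376) (l 16754296)) (b (l 16738664) (l 16733472))) (b (c (l 16749792) (l 16752544)) (c (l 16740088) (l 16741896)))) (b (c (b (l 16742528) (l 16737816)) (b (l 16739848) (l 16734656))) (c (b (l 16733056) (l 16728248)) (b (l 16729424) (l 16724144)))))) (a (b (c (a (b (l 16736680) (l 16732080)) (b (l 16730824) (l 16726344))) (a (b (l 16733432) (l 16728352)) (b (l 16727024) (l 16722056)))) (a (c (b (l 16727448) (l 16722768)) (b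 (l 16723240) (l 16718088))) (c (b (l 16721832) (l 16717280)) (b (l 16717064) (l 16712032))))) (b (a (c (l 16728008) (l 16728664)) (c (l 16716848) (l 16711736))) (a (b (l 16724024) (a (l 16710344) (l 16707424))) (c (l 16718792) (l 16702224)))))), by decide +kernel⟩

def k149_pm_011 : ∃ t, chk3 f_pm_011 t 10 61 1 = true :=
  ⟨(a (b (c (a (a (b (l 16745040) (l 16739688)) (b (l 16734200) (l 16728992))) (a (b (l 16728752) (l 16723688)) (b (l 16723384) (l 16718464)))) (a (a (b (l 16742248) (a (l 16732752) (l 16729688))) (b (l 16730816) (l 16725160))) (a (b (l 16724776) (l 16719256)) (b (l 16718808) (l 16713432))))) (a (c (b (a (a (l 16730344) (l 16727656)) (l 16728936)) (a (a (l 16724752) (l 16722144)) (c (l 16719432) (l 16717168)))) (b (a (a (l 16726840) (l 16723848)) (l 16724672)) (a (a (l 16720840) (l 16717920)) (c (l 16714824) (l 16712400))))) (b (a (c (l 16718544) (l 16713672)) (c (l 16713472) (l 16707992))) (a (c (c (l 16714592) (l 16712024)) (c (l 16709376) (l 16706632))) (c (c (l 16709840) (l 16706968))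 (l 16707736)))))) (a (b (a (c (b (l 16718040) (l 16713264)) (b (l 16712888) (l 16707648))) (c (b (l 16712696) (l 16708072)) (b (l 16706976) (l 16701872)))) (b (c (a (l 16708432) (l 16703392)) (a (l 16702352) (l 16696728))) (a (a (c (l 16704752) (l 16698368)) (b (l 16700288) (a (l 16708560) (l 16706912)))) (c (b (l 16710152) (l 16705600)) (b (l 16703168) (l 16709144)))))) (b (a (c (b (l 16707312) (l 16702832)) (b (l 16701040) (l 16696080))) (c (b (l 16701840) (l 16697520)) (b (l 16695040) (l 16690232)))) (b (a (c (l 16698376) (l 16691144)) (b (l 16700992) (a (l 16710056) (l 16685608)))) (a (c (l 16706080) (l 16704040)) (c (l 16683480) (l 16675832))))))), by decide +kernel⟩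

def k150_pm_011 : ∃ t, chk3 f_pm_011 t 10 62 1 = true :=
  ⟨(a (c (b (a (b (b (a (l 16719200) (l 16714192)) (a (l 16716336) (a (l 16712632) (l 16710160)))) (a (b (a (l 16714688) (l 16718544)) (c (l 16720368) (l 16718104))) (b (a (l 16719416) (l 16705608)) (l 16701760)))) (b (a (b (l 16709360) (a (l 16717776) (l 16704048))) (b (a (l 16705496) (l 16702368)) (l 16698624))) (a (l 16707776) (l 16689720)))) (a (b (a (l 16711152) (l 16693352)) (a (l 16689928) (l 16682352))) (b (a (l 16685816) (l 16678016)) (l 16691568)))) (b (a (b (a (a (l 16714736) (l 16711896)) (a (l 16709104) (b (l 16707816) (l 16704816)))) (a (b (a (l 16710096) (b (l 16708080) (l 16706184))) (a (l 16705904) (l 16702328))) (b (a (l 16714304) (l 16700296)) (l 16696704)))) (b (a (b (l 16703728) (a (l 16712176) (l 16698240))) (b (a (l 16699432) (l 16696088)) (l 16692584))) (a (l 16702320) (l 16684000)))) (a (b (a (l 16706664) (l 16688544)) (a (l 16685704) (l 16677856))) (b (a (l 16680728) (l 16672704)) (l 16686728))))) (b (a (a (b (a (b (l 16706176)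 (l 16689792)) (l 16704520)) (l 16699880)) (b (c (l 16686016) (l 16679408)) (l 16691592))) (a (b (l 16696136) (l 16683624)) (b (l 16668312) (l 16656160)))) (a (a (c (l 16685024) (l 16679720)) (c (l 16676512) (l 16650104))) (a (b (l 16650112) (l 16638024)) (b (l 16643232) (l 16630000)))))), by decide +kernel⟩

def k151_pm_011 : ∃ t, chk3 f_pm_011 t 10 63 1 = true :=
  ⟨(b (c (a (a (b (l 16696576) (l 16665352)) (a (l 16658224) (l 16670848))) (a (a (l 16662272) (l 16653464)) (b (l 16624256) (l 16613392)))) (a (a (a (l 16691480) (l 16683288)) (b (l 16654992) (l 16644488))) (a (b (l 16637632) (l 16626992)) (a (l 16639696) (l 16651520))))) (b (a (a (c (l 16678920) (l 16674784)) (c (l 16642752) (l 16638112))) (a (l 16625104) (l 16609472))) (a (a (c (l 16656512) (l 16651160)) (l 16660768)) (a (l 16646648) (l 16611264))))), by decide +kernel⟩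

def k152_pm_011 : ∃ t, chk3 f_pm_011 t 11 30 1 = true :=
  ⟨(b (a (a (b (a (c (l 16710816) (l 16705208)) (c (l 16704624) (l 16698544))) (a (c (l 16702520) (l 16695936)) (c (l 16696568) (l 16689512)))) (b (a (c (l 16698224) (l 16691704)) (c (l 16691576) (l 16684648))) (c (a (l 16690408) (l 16684000)) (a (l 16682920) (l 16676120))))) (a (a (b (l 16691488) (c (l 16677288) (l 16669048))) (b (l 16673528) (l 16676472))) (a (b (l 16665664) (c (l 16663272) (l 16654432))) (b (l 16657360) (c (l 16668384) (l 16667216)))))) (a (a (b (a (c (b (l 16696256) (l 16692088)) (l 16697128)) (b (l 16697152) (c (l 16697048) (l 16699256)))) (b (a (c (b (l 16688424) (l 16684216)) (l 16698928)) (c (l 16679136) (l 16670712))) (c (l 16683624) (l 16685920)))) (a (b (b (l 16680504) (c (l 16700888) (l 16692256))) (c (l 16688840) (l 16659064))) (b (b (l 16684760) (c (l 16672672) (l 16663744))) (c (l 16661176) (l 16651984))))) (a (b (b (c (a (l 16671824) (l 16664032)) (a (l 16662856) (l 16654840))) (c (l 16662016) (l 16652584))) (c (a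 (l 16654552) (l 16647936)) (a (l 16644968) (l 16637976)))) (b (a (c (l 16653120) (l 16643520)) (l 16661912)) (c (l 16648400) (l 16648376)))))), by decide +kernel⟩

def k153_pm_011 : ∃ t, chk3 f_pm_011 t 11 31 1 = true :=
  ⟨(b (c (a (b (a (a (l 16680816) (l 16654072)) (a (l 16648488) (l 16643016))) (a (b (l 16638992) (l 16625992)) (a (l 16626248) (l 16622144)))) (b (a (a (l 16637600) (l 16632192)) (l 16639696)) (a (l 16637048) (l 16628736)))) (a (b (a (b (l 16654552) (l 16643512)) (a (l 16639872) (l 16633856))) (a (a (l 16628224) (l 16623160)) (l 16636800))) (b (a (l 16645928) (l 16613000)) (a (l 16606272) (l 16596648))))) (a (b (b (a (l 16630152) (l 16623152)) (a (c (l 16621152) (l 16615728)) (c (l 16596528) (l 16588968)))) (a (a (c (l 16602592) (l 16595728)) (c (l 16598312) (l 16590736))) (c (a (l 16597600) (l 16597616)) (l 16588224)))) (b (a (b (l 16616376) (c (l 16593872) (l 16584168))) (b (c (l 16594464) (l 16583384)) (c (l 16591552) (l 16579808)))) (a (c (b (l 16596424) (a (l 16598560) (l 16598832)))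 (b (l 16585312) (l 16586216))) (c (b (l 16595584) (a (l 16599040) (c (l 16602976) (l 16595312)))) (b (l 16582288) (a (l 16584808) (l 16583816)))))))), by decide +kernel⟩

def k154_pm_011 : ∃ t, chk3 f_pm_011 t 3 2 1 = true :=
  ⟨(b (l 1) (a (l 4) (l 1))), by decide +kernel⟩

def k155_pm_011 : ∃ t, chk3 f_pm_011 t 6 12 1 = true :=
  ⟨(a (b (l 4) (a (l 4) (b (l 4) (a (l 4) (b (l 4) (a (b (l 4) (a (l 4) (l 97945393751))) (b (a (l 4) (b (l 1) (l 50700740247))) (a (c (l 43184561383) (l 51237604071)) (l 16784576))))))))) (b (l 1) (a (b (l 1) (a (b (l 1) (a (c (l 17750300727) (l 8623502487)) (l 1))) (l 1))) (l 1)))), by decide +kernel⟩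

def k156_pm_011 : ∃ t, chk3 f_pm_011 t 12 26 1 = true :=
  ⟨(a (b (l 4) (a (b (l 4) (a (l 4) (b (l 4) (c (a (l 111367167335) (b (l 102240386455) (l 16783792))) (a (l 104924723623) (b (l 94724191911) (l 16782288))))))) (b (a (a (l 4) (b (l 4) (c (l 99019136727) (l 90966081015)))) (b (a (l 4) (b (l 79691791463) (l 52311355255))) (a (b (a (l 106535348487) (l 16783840)) (l 16783392)) (l 16781704)))) (a (b (a (b (l 92576705591) (a (l 98482284823) (l 16783488))) (c (l 16773320) (l 16782152))) (c (l 16780432) (l 16778696))) (c (l 16774064) (l 16793248)))))) (b (a (b (a (l 4) (b (l 4) (a (l 4) (b (l 81302402039) (l 52848223383))))) (a (c (b (l 123178349751) (a (l 86671120375) (l 16774472))) (b (l 117272765207) (a (l 73786211063) (l 16772760)))) (b (a (b (l 97945422903) (l 16784432)) (l 16783328)) (l 16779672)))) (a (b (a (b (b (l 4) (l 101703518311)) (l 16779200)) (c (l 11509168823) (l 29762779895))) (l 16783864)) (b (c (l 16779488) (l 16777072)) (l 16762080)))) (a (b (a (a (b (l 16780608) (l 16777336)) (l 16776056))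 (l 16788552)) (a (l 16781984) (l 16769344))) (b (c (l 16761488) (l 16768824)) (c (l 16753200) (l 16753072)))))), by decide +kernel⟩

def k157_pm_011 : ∃ t, chk3 f_pm_011 t 12 27 1 = true :=
  ⟨(a (b (a (b (a (b (a (l 4) (b (l 4) (a (l 105461609335) (l 55532583351)))) (c (a (b (l 88281724007) (l 54995709191)) (l 16782080)) (a (b (l 79691787799) (l 16777376)) (l 16780544)))) (b (a (c (l 33520885687) (b (l 54458838023) (l 16781056))) (l 16779512)) (l 16795192))) (a (b (c (l 16777472) (l 16775984)) (l 16788512)) (l 16780496))) (b (a (c (l 16788488) (l 16786968)) (l 16774744)) (c (a (l 16767424) (l 16739248)) (l 16759560)))) (a (b (c (l 16776416) (c (l 16765384) (l 16764944))) (c (l 16763896) (l 16753160))) (b (c (l 16746848) (l 16758592)) (c (l 16729240) (l 16716464))))) (b (b (a (a (l 16761424) (l 16734928)) (c (l 16743672) (l 16737768))) (a (c (l 16734760) (l 16732816)) (c (l 16732616) (l 16720760)))) (a (b (c (l 16720776) (l 16711336)) (c (l 16704800) (l 16691640))) (b (c (l 16719864) (l 16701848)) (c (l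 16705256) (l 16680856)))))), by decide +kernel⟩

def k158_pm_011 : ∃ t, chk3 f_pm_011 t 13 13 1 = true :=
  ⟨(b (a (b (b (a (c (l 16771552) (l 16781520)) (l 1)) (a (l 16768288) (c (l 16767336) (l 16744120)))) (a (c (b (l 16759992) (l 16752688)) (b (l 16737856) (l 16725168))) (a (b (l 16747888) (l 16738488)) (b (l 16748088) (l 16718056))))) (a (a (b (l 1) (b (l 1) (l 16741120))) (l 1)) (l 1))) (a (b (a (c (b (l 16744040) (l 16733912)) (a (l 16704256) (l 16692024))) (a (b (l 16727688) (l 16715384)) (c (b (l 16748544) (l 16739360)) (b (l 16708400) (l 16693760))))) (a (a (b (l 16699816) (l 16683032)) (b (l 16700312) (l 16694608))) (c (b (a (l 16725664) (l 16728688)) (a (l 16712976) (l 16716448))) (a (b (l 16677000) (l 16658400)) (b (l 16677472) (l 16659448)))))) (b (b (a (c (l 16754528) (l 16711344)) (l 1)) (a (c (l 16746120) (a (l 16695888) (l 16699552))) (c (l 16757264) (l 16705816)))) (a (c (b (a (l 16733400) (l 16739272)) (a (l 16721760) (l 16728312))) (b (a (l 16680272) (l 16684688)) (a (l 16662976) (l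 16668216)))) (c (b (l 16748608) (a (l 16735104) (l 16742096))) (b (a (l 16689472) (l 16694576)) (a (l 16673776) (l 16679592)))))))), by decide +kernel⟩

def k159_pm_011 : ∃ t, chk3 f_pm_011 t 7 6 1 = true :=
  ⟨(b (l 1) (a (b (l 1) (a (b (l 1) (a (a (a (b (l 1) (l 16694920)) (l 1)) (l 1)) (l 1))) (l 1))) (l 1))), by decide +kernel⟩

def k160_pm_011 : ∃ t, chk3 f_pm_011 t 6 28 1 = true :=
  ⟨(a (a (b (a (a (l 16733160) (l 16719976)) (b (l 16713184) (l 16704000))) (a (b (c (l 16713440) (l 16709960)) (c (l 16705192) (l 16701008))) (b (l 16695168) (l 16686696)))) (b (a (c (b (l 16686640) (l 16687072)) (b (l 16681816) (l 16672376))) (c (b (l 16688664) (l 16648968)) (b (l 16657624) (l 16643968)))) (a (c (b (l 16666896) (l 16658856)) (b (l 16663344) (l 16654736))) (c (a (l 16635584) (l 16623944)) (b (l 16635080) (l 16626688)))))) (a (b (a (c (b (a (l 16692056) (l 16695056)) (a (l 16674504) (l 16678200))) (b (a (l 16636192) (l 16636744)) (l 16612640))) (c (b (a (l 16698568) (l 16702560)) (a (l 16682360) (l 16686928)))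 (b (a (l 16637888) (l 16660544)) (a (l 16615352) (l 16638736))))) (a (c (b (a (l 16654848) (l 16659352)) (a (l 16632968) (l 16638384))) (c (b (l 16604336) (l 16598608)) (l 16608320))) (c (b (a (l 16664232) (c (l 16688144) (l 16650704))) (a (l 16644096) (c (l 16670408) (l 16629680)))) (b (a (l 16590680) (l 16635864)) (a (l 16563768) (l 16609872)))))) (b (a (c (b (a (l 16708536) (l 16715832)) (a (l 16693640) (l 16701760))) (b (a (l 16643912) (l 16650056)) (a (l 16623000) (l 16630128)))) (c (b (a (l 16723320) (l 16730960)) (a (l 16710016) (l 16718376))) (b (a (l 16656456) (l 16663072)) (a (l 16637456) (l 16644936))))) (a (c (b (a (l 16677000) (l 16686016)) (a (l 16669016) (l 16668544))) (b (a (l 16600152) (l 16608360)) (a (l 16596240) (l 16605640)))) (c (b (a (l 16695120) (l 16704264)) (a (l 16657600) (l 16667608))) (b (a (l 16616704) (l 16625128)) (a (l 16615088) (l 16624560)))))))), by decide +kernel⟩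

def k161_pm_011 : ∃ t, chk3 f_pm_011 t 12 29 1 = true :=
  ⟨(a (a (b (b (b (l 16696848) (l 16692784)) (c (l 16668688) (l 16663024))) (b (c (l 16661432) (l 16654968)) (c (l 16654544) (l 16647256)))) (b (b (c (l 16654880) (l 16649888)) (c (l 16647520) (l 16641816))) (b (c (l 16640576) (l 16634128)) (c (l 16634072) (l 16626824))))) (a (b (c (b (l 16651288) (l 16623216)) (b (l 16625576) (l 16617824))) (c (b (l 16616608) (l 16610504)) (b (l 16610512) (l 16603664)))) (b (c (b (l 16622912) (l 16616104)) (b (l 16618784) (l 16590408))) (c (b (l 16609856) (l 16583216)) (b (l 16583512) (l 16577144)))))), by decide +kernel⟩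

def k162_pm_011 : ∃ t, chk3 f_pm_011 t 26 29 1 = true :=
  ⟨(b (b (a (c (a (l 16608728) (l 16615192)) (l 16586856)) (c (a (l 16621848) (c (l 16650712) (l 16606584))) (a (l 16559720) (l 16581648)))) (a (c (a (l 16581992) (l 16589648)) (l 16579848)) (a (c (l 16618352) (l 16553040)) (c (a (l 16603224) (l 16649128)) (l 16554472))))) (a (b (c (l 16580744) (l 16573408)) (c (a (l 16560688) (b (l 16543976) (l 16552840))) (a (l 16555360) (l 16560408)))) (c (b (a (l 16612544) (b (l 16628072) (l 16614664))) (b (a (l 16548920) (c (a (l 16583584) (b (l 16591560) (l 16585248))) (l 16521712))) (a (b (l 16537904) (l 16531432)) (c (l 16616080) (l 16518200))))) (b (c (l 16538136) (l 16536656)) (a (l 16542784) (b (l 16524608) (l 16503128))))))), by decide +kernel⟩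

def k163_pm_011 : ∃ t, chk3 f_pm_011 t 27 29 1 = true :=
  ⟨(b (a (a (c (b (c (l 16660408) (l 16615816)) (c (l 16639744) (l 16591744))) (b (l 16569232) (l 16540024))) (c (b (c (l 16671632) (l 16626824)) (c (l 16652128) (l 16604016))) (b (l 16600912) (l 16573144)))) (c (b (a (c (l 16682784) (l 16637768)) (c (l 16693832) (l 16648632))) (a (c (l 16664344) (l 16616136)) (c (l 16676384) (l 16628088)))) (b (a (l 16611584) (c (l 16603120) (l 16557296))) (a (l 16595640) (c (l 16579480) (l 16530552)))))) (a (b (b (c (a (l 16597656) (l 16610968)) (l 16503488)) (a (c (l 16605888) (l 16490112)) (c (a (l 16595448) (l 16647248)) (l 16535784)))) (c (b (a (b (c (l 16623160) (l 16548424)) (a (l 16585976) (l 16573400))) (b (a (c (l 16613144) (l 16559448)) (l 16594128)) (l 16606632))) (a (c (l 16589336) (l 16533424)) (c (l 16606288) (l 16550664)))) (b (c (a (b (l 16494280) (l 16488968)) (l 16485184)) (l 16505960)) (a (l 16490504) (l 16480912))))) (b (b (c (a (l 16624048) (l 16636888)) (a (l 16522056) (l 16534904))) (a (c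 (b (l 16636640) (a (c (l 16632928) (l 16580184)) (l 16645216))) (b (l 16511184) (c (l 16551712) (l 16477320)))) (c (b (a (l 16646768) (c (l 16658392) (l 16606544))) (l 16625144)) (b (a (l 16521408) (l 16570120)) (l 16519344))))) (c (a (b (c (l 16630760) (l 16576936)) (c (l 16622936) (l 16567600))) (b (c (l 16646296) (l 16592688)) (c (l 16639256) (l 16584232)))) (a (b (l 16474536) (l 16504856)) (b (l 16553568) (l 16542944))))))), by decide +kernel⟩

def k164_pm_011 : ∃ t, chk3 f_pm_011 t 12 30 1 = true :=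
  ⟨(a (b (b (a (c (l 16648016) (l 16639848)) (a (l 16629224) (l 16640232))) (a (b (c (l 16664848) (l 16634952)) (c (l 16660192) (l 16629904))) (b (c (l 16644328) (l 16614544)) (l 16637712)))) (a (b (c (l 16644280) (l 16623576)) (c (l 16634504) (l 16612880))) (b (c (l 16617040) (l 16606496)) (c (l 16609496) (l 16597832))))) (b (a (a (b (c (l 16612024) (l 16604096)) (l 16603024)) (b (c (l 16620344) (l 16591744)) (l 16613272))) (a (b (b (l 16583648) (l 16581864)) (l 16580808)) (b (c (l 16592576) (l 16564752)) (l 16589456)))) (a (b (a (l 16598336) (c (l 16594136) (l 16583440))) (c (l 16593952) (l 16581920))) (b (c (a (l 16583920) (l 16572584)) (a (l 16573280) (l 16562080))) (c (a (l 16581000) (l 16571352)) (a (l 16568848) (l 16559216))))))), by decide +kernel⟩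

def k165_pm_011 : ∃ t, chk3 f_pm_011 t 12 62 1 = true :=
  ⟨(a (c (b (a (l 16633408) (l 16610592)) (a (l 16619808) (l 16599368))) (a (b (l 16600600) (l 16586560)) (b (l 16587544) (l 16575656)))) (a (b (c (l 16587080) (l 16573928)) (c (a (l 16580864) (l 16575448)) (l 16564192))) (b (a (c (l 16576248) (l 16562792)) (c (l 16568224) (l 16554656))) (c (a (l 16569560) (l 16563104)) (l 16551744))))), by decide +kernel⟩

def k166_pm_011 : ∃ t, chk3 f_pm_011 t 24 63 1 = true :=
  ⟨(b (b (a (c (l 16609264) (l 16575736)) (c (b (l 16581032) (l 16579872)) (l 16588200))) (a (c (l 16588976) (l 16575344)) (c (l 16585112) (l 16569896)))) (a (c (b (a (l 16594568) (l 16593640)) (a (c (l 16603200) (l 16595024)) (c (b (l 16601824) (l 16604584)) (l 16594560)))) (b (l 16578888) (a (l 16582752) (l 16581560)))) (c (b (a (l 16592464) (l 16590984)) (a (b (l 16596976) (c (c (l 16612136) (l 16602232)) (l 16595240))) (c (b (l 16600736) (c (a (l 16606776) (l 16606600)) (l 16601824))) (b (l 16591416) (l 16594512))))) (b (a (l 16575904)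 (l 16573648)) (a (c (l 16584776) (l 16575648)) (c (l 16583440) (l 16573896))))))), by decide +kernel⟩

def k167_pm_011 : ∃ t, chk3 f_pm_011 t 25 63 1 = true :=
  ⟨(b (a (b (c (b (l 16572408) (l 16573800)) (b (l 16557856) (l 16558640))) (c (a (l 16581304) (l 16578624)) (l 16563512))) (b (c (b (a (l 16565344) (l 16560280)) (l 16567192)) (b (l 16547632) (l 16550888))) (c (a (l 16576000) (l 16572912)) (l 16556784)))) (c (a (b (a (l 16610128) (c (l 16591720) (l 16582384))) (a (c (b (l 16599696) (b (l 16602656) (c (a (l 16607312) (l 16607008)) (l 16607288)))) (b (l 16590008) (c (l 16596032) (l 16590960)))) (c (b (l 16598272) (b (l 16612032) (a (c (l 16606600) (l 16601344)) (c (l 16606096) (l 16600752))))) (b (l 16588248) (a (l 16592512) (l 16591744)))))) (b (a (c (l 16589904) (l 16580248)) (c (l 16587856) (l 16577888))) (a (c (b (l 16596872) (b (c (l 16603000) (l 16597640)) (c (a (c (l 16606872) (l 16604160)) (c (l 16606520) (l 16603768))) (a (l 16600088) (l 16599632))))) (b (l 16586512) (a (c (l 16593632) (l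 16588256)) (l 16598184)))) (c (b (l 16595480) (b (c (l 16602000) (l 16596480)) (c (a (c (l 16606176) (l 16603376)) (a (l 16604416) (l 16604136))) (a (l 16599176) (l 16598600))))) (b (l 16584792) (b (l 16588192) (a (l 16590776) (l 16590072)))))))) (a (b (a (l 16571112) (l 16568352)) (a (c (b (l 16580312) (l 16583352)) (l 16571912)) (c (b (l 16578208) (l 16581640)) (l 16569664)))) (b (a (l 16565728) (l 16562912)) (a (c (a (l 16578424) (l 16577544)) (l 16577872)) (c (b (l 16574088) (l 16588624)) (l 16565176))))))), by decide +kernel⟩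

def k168_pm_011 : ∃ t, chk3 f_pm_011 t 26 30 1 = true :=
  ⟨(a (b (b (c (a (l 16568040) (l 16543504)) (a (l 16551048) (l 16537304))) (c (a (l 16559672) (l 16545720)) (l 16565424))) (b (c (a (l 16560200) (l 16547136)) (a (l 16549920) (l 16537136))) (c (a (l 16560240) (l 16547904)) (a (l 16548248) (l 16536144))))) (b (b (c (a (l 16543424) (c (a (l 16554328) (l 16602888)) (l 16509704))) (a (l 16521952) (l 16505736))) (a (c (l 16541432) (l 16523184)) (c (b (l 16527904) (l 16526704)) (l 16507992)))) (c (b (a (l 16554272) (b (l 16528384) (l 16519360))) (a (l 16555896) (c (l 16539688) (l 16518448)))) (b (a (l 16523632) (l 16509384)) (a (l 16523456) (l 16510072)))))), by decide +kernel⟩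

def k169_pm_011 : ∃ t, chk3 f_pm_011 t 27 30 1 = true :=
  ⟨(b (a (c (b (a (c (b (l 16579288) (l 16568752)) (l 16505104)) (b (c (l 16597200) (l 16539952)) (c (l 16608656) (l 16528776)))) (a (c (b (l 16557696) (l 16567080)) (l 16502320)) (a (b (l 16584376) (l 16572752)) (b (l 16594392) (l 16604312))))) (b (a (l 16493672) (l 16495304)) (a (l 16496880) (l 16488936)))) (c (b (a (b (c (l 16614744) (l 16557880)) (c (l 16627152) (l 16547744))) (b (c (l 16631904) (l 16575432)) (c (l 16645184) (l 16587232)))) (a (b (a (l 16604280) (l 16635008)) (c (a (l 16582712) (l 16592832)) (l 16547056))) (a (b (l 16634144) (c (l 16602800) (l 16541608))) (b (l 16635776) (c (l 16612624) (l 16551760)))))) (b (a (c (l 16484328) (l 16474600)) (c (b (l 16518568) (l 16507888)) (l 16465720))) (a (l 16496768) (a (l 16475160) (l 16479104)))))) (a (c (b (a (c (b (l 16512984) (l 16500232)) (l 16506088)) (c (b (a (l 16550760) (l 16561752)) (a (l 16538960) (l 16550544))) (l 16509608))) (a (b (l 16521472) (l 16522992)) (c (b (c (l 16591528)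 (l 16515784)) (l 16514824)) (l 16502832)))) (b (a (l 16499144) (l 16492016)) (a (l 16500624) (l 16494256)))) (c (b (a (c (b (a (l 16572568) (l 16583224)) (a (l 16561936) (l 16573152))) (b (l 16493552) (l 16481472))) (b (c (a (l 16593712) (l 16604024)) (a (l 16530896) (l 16541600))) (c (a (l 16584176) (l 16595008)) (a (l 16519704) (l 16530976))))) (a (b (c (a (l 16550800) (l 16562584)) (l 16495752)) (c (a (l 16539120) (l 16551520)) (l 16497816))) (c (b (a (l 16574176) (l 16606528)) (a (l 16584664) (l 16596616))) (a (l 16499360) (b (l 16519872) (l 16508280)))))) (b (a (l 16495480) (c (l 16491056) (l 16475568))) (a (l 16509000) (c (l 16484976) (l 16478928))))))), by decide +kernel⟩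

def k170_pm_011 : ∃ t, chk3 f_pm_011 t 13 62 1 = true :=
  ⟨(a (b (a (a (c (b (l 16559696) (l 16558720)) (l 16545568)) (c (l 16569248) (l 16534832))) (c (a (c (l 16539256) (l 16532704)) (c (l 16547280) (l 16519896))) (a (l 16522792) (l 16510200)))) (a (b (c (a (l 16557000) (l 16547944)) (a (l 16542360) (l 16533304))) (a (l 16568088) (b (c (l 16547408) (l 16532208)) (c (a (l 16548832) (l 16566104)) (l 16531608))))) (b (c (a (l 16536504) (l 16524216)) (a (l 16522064) (l 16510040))) (a (b (c (l 16536704) (l 16521648)) (c (b (l 16536792) (l 16537592)) (l 16522104))) (c (c (b (l 16528392) (l 16529624)) (l 16521736)) (l 16510416)))))) (a (b (c (a (b (l 16524336) (l 16515048)) (c (b (l 16511488) (l 16513272)) (l 16505792))) (a (l 16501496) (l 16495816))) (c (b (a (l 16516112) (c (l 16514912) (l 16507632))) (a (c (b (l 16520568) (l 16533096)) (l 16535272)) (b (l 16522744) (c (b (l 16517352) (l 16521256)) (l 16511256))))) (b (a (l 16501840) (l 16496648)) (a (l 16523848) (b (l 16496968) (l 16499288)))))) (b (c (a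 (a (c (b (l 16526896) (l 16514096)) (l 16501872)) (c (b (l 16560904) (l 14)) (l 16499288))) (b (c (a (l 16573688) (c (l 16582440) (l 16548040))) (l 16494424)) (c (l 14) (l 16496504)))) (a (l 16511280) (c (l 16488512) (l 16481488)))) (c (c (a (a (b (l 16511512) (b (l 16512864) (l 16517040))) (l 14)) (l 14)) (b (a (l 16502904) (l 16498408)) (a (b (l 16504024) (l 16508208)) (b (l 16500056) (l 16505896))))) (b (a (l 16491648) (l 16486864)) (a (b (l 16492256) (l 16495856)) (b (l 16487968) (l 16493112)))))))), by decide +kernel⟩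

def k171_pm_011 : ∃ t, chk3 f_pm_011 t 52 63 1 = true :=
  ⟨(b (b (a (c (l 16578416) (l 16541056)) (c (a (l 16553872) (l 16551336)) (l 16535712))) (c (a (l 16569248) (l 16564952)) (l 16548488))) (c (b (a (c (l 16585240) (l 16575008)) (c (l 16582008) (l 16571552))) (a (c (b (l 16593568) (b (c (l 16600512) (l 16594840)) (c (a (c (l 16607712) (l 16602216)) (c (l 16604344) (l 16601424))) (a (l 16597896) (l 16597056))))) (b (l 16582584) (c (a (l 16590904) (l 16589928)) (l 16589936)))) (c (b (l 16601544) (c (a (b (l 16599008) (c (l 16603440) (l 16600488))) (a (l 16604896) (l 16609528))) (a (l 16599896) (l 16603944)))) (b (l 16579832) (a (l 16596384) (l 16595088)))))) (b (a (l 16559624) (l 16555824)) (a (c (b (l 16571592) (l 16586560)) (l 16562600)) (c (b (l 16568584) (l 16584000)) (l 16559552)))))), by decide +kernel⟩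

def k172_pm_011 : ∃ t, chk3 f_pm_011 t 53 63 1 = true :=
  ⟨(b (c (a (b (l 16566672) (c (l 16564416) (l 16554856))) (c (b (l 16540344) (l 16577696)) (b (l 16531912) (l 16547120)))) (a (b (l 16528752) (l 16540472)) (b (l 16519232) (l 16532688)))) (c (b (a (a (l 16594808) (a (l 16572224) (l 16589424))) (c (a (l 16595232) (l 16591624)) (a (l 16563520) (l 16559896)))) (a (c (b (l 16598376) (c (b (l 16595696) (a (l 16604888) (l 16598232))) (a (l 16592096) (l 16590568)))) (b (l 16576456) (a (l 16593640) (l 16581552)))) (c (a (b (l 16585024) (c (b (l 16593168) (l 16596640)) (l 16588864))) (b (c (l 16585368) (l 16579560)) (c (a (l 16593536) (a (l 16592744) (l 16602856))) (a (l 16587456) (b (l 16584608) (l 16588296)))))) (a (b (l 16573464) (l 16579776)) (b (l 16570840) (c (a (l 16581368) (l 16580320)) (l 16574712))))))) (a (b (c (l 16556704) (l 16546032)) (c (b (l 16565000) (l 16570400)) (l 16555984))) (b (c (l 16571832) (l 16540080)) (c (a (l 16575264) (b (l 16559200) (l 16565560))) (a (l 16552912) (l 16550400))))))),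 by decide +kernel⟩

def k173_pm_011 : ∃ t, chk3 f_pm_011 t 54 63 1 = true :=
  ⟨(b (b (c (a (c (l 16534840) (l 16526264)) (c (l 16553704) (l 16523880))) (a (l 16513368) (l 16510560))) (c (a (c (l 16573024) (l 16542288)) (c (a (l 16551160) (l 16550640)) (l 16540784))) (a (l 16527608) (l 16525640)))) (c (b (a (c (a (l 16569104) (l 16589848)) (a (l 16558240) (l 16557848))) (c (a (l 16589696) (c (l 14) (l 16565832))) (a (l 16557536) (l 16557312)))) (a (c (a (b (l 16581400) (b (l 16597984) (c (a (l 16594568) (l 16594760)) (l 16588432)))) (b (l 16592000) (b (a (l 16587704) (l 16587872)) (c (a (l 16594984) (l 16600472)) (l 16594016))))) (a (b (l 16569656) (c (l 16580296) (l 16574120))) (b (l 16569600) (c (l 16590968) (l 16574224))))) (c (c (a (a (b (l 16584672) (c (l 14) (l 16602248))) (l 14)) (l 14)) (a (b (l 16578696) (b (l 16585016) (c (l 16596064) (l 16587616)))) (b (l 16578936) (b (l 16585440) (a (l 16589616) (l 16600392)))))) (a (b (l 16569624) (c (b (l 16578752) (l 16582800)) (l 16574424))) (b (l 16569736)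 (c (b (l 16579080) (l 16593728)) (l 16574720))))))) (a (b (c (l 16547032) (l 16536048)) (c (b (l 16557744) (a (l 16564864) (l 16564824))) (b (l 16545872) (l 16552392)))) (a (b (l 16540704) (c (b (l 16557512) (l 16564896)) (l 16548776))) (b (l 16561200) (c (b (l 16557448) (l 16575536)) (l 16548640))))))), by decide +kernel⟩

def k174_pm_011 : ∃ t, chk3 f_pm_011 t 55 63 1 = true :=
  ⟨(b (b (c (a (c (a (l 16531408) (l 14)) (l 16521824)) (c (l 14) (l 16541080))) (a (l 16508064) (l 16526880))) (c (a (c (a (l 16550208) (l 14)) (l 16560584)) (c (l 14) (a (l 16539000) (l 16538688)))) (a (l 16544968) (c (l 16528080) (l 16517320))))) (c (b (a (c (a (c (l 14) (l 16565816)) (l 14)) (a (l 16557176) (l 16578096))) (c (l 14) (a (l 16578144) (c (l 14) (l 16554296))))) (a (a (a (c (c (l 14) (b (l 16579192) (c (l 14) (l 16596880)))) (b (l 16569888) (c (l 16592008) (l 16575008)))) (c (l 14) (b (l 16570016) (c (b (l 16579624) (l 16583936)) (l 16575224))))) (c (l 14) (b (l 16591208) (b (a (l 16576624) (l 16576880)) (c (a (l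 16584248) (l 16584584)) (l 16577704)))))) (c (l 14) (c (a (a (b (l 16573720) (c (l 14) (l 16591528))) (l 14)) (l 14)) (a (b (l 16567424) (a (l 16586504) (l 16586816))) (b (l 16567856) (b (l 16574592) (a (l 16578880) (l 16579272))))))))) (b (a (c (a (l 16545624) (l 16545408)) (l 16533808)) (c (a (l 16545280) (l 16545248)) (l 16533200))) (b (a (c (a (l 16557472) (l 16557592)) (l 16544912)) (c (a (l 16557792) (l 16558096)) (l 16544952))) (a (c (a (c (l 16568568) (l 16562024)) (c (l 16568960) (l 16562320))) (a (l 16552192) (l 16552344))) (c (a (c (b (l 16567336) (l 16571536)) (l 16562704)) (c (b (l 16567856) (l 16572168)) (l 16563184))) (a (l 16552584) (l 16552920)))))))), by decide +kernel⟩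

def k175_pm_011 : ∃ t, chk3 f_pm_011 t 14 28 1 = true :=
  ⟨(a (b (b (a (c (a (l 16738712) (l 16746552)) (a (l 16669856) (l 16676760))) (l 1)) (b (a (c (l 16734056) (l 16660744)) (l 1)) (a (c (l 16727904) (l 16651896)) (c (l 16745160) (l 16667704))))) (a (c (b (a (l 16713424) (l 16722568)) (a (l 16677568) (l 16708440))) (b (a (l 16633616) (l 16642120)) (a (l 16634008) (l 16622448)))) (c (b (a (l 16731680) (l 16740752)) (a (l 16718248) (l 16727968))) (b (a (l 16650616) (l 16659088)) (a (l 16631792) (l 16641056)))))) (b (l 1) (b (l 1) (a (a (c (l 16737584) (l 16650224)) (l 1)) (l 1))))), by decide +kernel⟩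

def k176_pm_011 : ∃ t, chk3 f_pm_011 t 28 58 1 = true :=
  ⟨(a (c (b (a (c (l 16704768) (l 16659376)) (l 16650872)) (a (c (l 16688224) (l 16639848)) (c (l 16699872) (l 16651408)))) (b (a (c (l 16613704) (l 16567736)) (c (l 16624168) (l 16578056))) (a (c (l 16591168) (l 16542184)) (c (l 16602656) (l 16553624))))) (b (c (a (l 16661448) (l 16671864)) (a (c (l 16634504) (l 16588248)) (c (l 16644688) (l 16598296)))) (b (c (a (l 16691280) (l 16702272)) (a (l 16595072) (l 16605872))) (a (c (a (l 16679864) (b (l 16687752) (c (l 16708464) (l 16658848)))) (a (l 16580816) (b (l 16589368) (c (l 16608968) (l 16558816))))) (b (c (l 16696200) (l 16597720)) (c (a (b (l 16690400) (a (l 16666168) (l 16690656))) (b (b (l 16654816) (l 16654408)) (l 16696696))) (a (b (l 16590928) (a (l 16618488) (l 16590656))) (b (a (c (l 16620376) (l 16570392)) (b (l 16598872) (l 16598880))) (l 16597040))))))))), by decide +kernel⟩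

def k177_pm_011 : ∃ t, chk3 f_pm_011 t 56 59 1 = true :=
  ⟨(b (b (a (a (c (l 16646584) (l 16565624)) (c (b (l 16655032) (c (l 16675880) (l 16624832))) (b (l 16553832) (l 16610608)))) (c (b (c (l 16689560) (l 16639264)) (a (c (l 16682384) (l 16631352)) (l 16663880))) (b (a (l 16559984) (l 16608184)) (a (l 16617176) (l 16561384))))) (c (a (a (c (l 16663856) (l 16611728)) (l 16645248)) (c (l 16681968) (l 16630064))) (a (a (l 16574888) (l 16540576)) (c (l 16577864) (l 16525344))))) (c (a (b (c (l 16661568) (l 16608192)) (c (l 16655256) (l 16600544))) (b (c (l 16676552) (l 16623416)) (c (l 16670928) (l 16616528)))) (a (b (l 16590408) (c (l 16545480) (l 16490040))) (b (c (l 16569960) (l 16516168)) (c (l 16561784) (l 16506696)))))), by decide +kernel⟩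

def k178_pm_011 : ∃ t, chk3 f_pm_011 t 57 59 1 = true :=
  ⟨(b (a (b (b (c (a (b (l 16653496) (l 16672744)) (a (c (l 16703768) (l 16653512)) (l 16682624))) (a (b (l 16615584) (l 16592232)) (a (b (l 16578392) (l 16577088)) (l 16581768)))) (c (a (l 16649880) (l 16678728)) (a (l 16589480) (l 16576760)))) (c (a (l 16666720) (b (c (l 16701544) (l 16650240)) (c (l 16698712) (l 16646776)))) (a (l 16562592) (b (a (l 16570280) (l 16575112)) (a (l 16566112) (l 16591328)))))) (b (c (a (b (l 16688640) (l 16687640)) (b (l 16697160) (l 16697120))) (a (b (l 16588096) (l 16586288)) (b (l 16597168) (l 16596520)))) (c (a (b (l 16685680) (l 16661664)) (b (l 16696208) (l 16694304))) (a (b (l 16583296) (l 16599960)) (b (l 16594808) (l 16591880)))))) (a (c (b (c (l 16691272) (l 16638384)) (c (l 16686256) (l 16632176))) (b (c (l 16585184) (l 16531664)) (c (l 16577768) (l 16523024)))) (b (a (c (b (a (c (l 16702064) (l 16649680)) (l 16681568)) (a (l 16672688) (c (l 16703584) (l 16650728)))) (b (a (c (l 16597008) (l 16544016))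 (l 16576768)) (a (l 16566032) (c (l 16597560) (l 16544080))))) (c (b (l 16691288) (l 16645096)) (b (l 16587600) (l 16602816)))) (a (c (l 16649696) (l 16583320)) (c (b (a (b (l 16658496) (l 16656296)) (l 16685440)) (a (l 16675032) (c (b (l 16707760) (l 16705576)) (b (l 16654152) (l 16651576))))) (b (a (b (l 16593504) (l 16590536)) (l 16578984)) (a (l 16566400) (b (l 16617704) (a (l 16568456) (l 16592176)))))))))), by decide +kernel⟩

def k179_pm_011 : ∃ t, chk3 f_pm_011 t 29 58 1 = true :=
  ⟨(b (a (c (a (l 16703104) (l 10233931223)) (a (c (l 16654728) (l 16608200)) (c (l 16664632) (l 16617968)))) (l 1)) (a (b (a (c (l 16713064) (l 16616480)) (b (c (l 16725496) (l 16629368)) (c (a (a (l 16717864) (c (l 16745064) (l 16696608))) (b (l 1) (b (l 1) (c (l 16749280) (l 16700728))))) (a (a (l 16620488) (c (l 16653184) (l 16609536))) (b (l 1) (b (l 1) (a (l 42446076647) (l 1)))))))) (a (b (c (a (b (l 16705504) (c (l 16728648) (a (l 16677800) (l 16680936)))) (b (c (l 16735832) (a (l 16685280) (l 16688320))) (c (l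 16735656) (l 16686624)))) (a (b (l 16607272) (a (l 16624544) (b (l 16606888) (l 16606488)))) (b (b (l 16613384) (a (l 16610832) (l 16624512))) (a (c (l 16635240) (l 16585680)) (l 16615072))))) (c (a (c (l 16729176) (l 16679864)) (l 16713368)) (a (c (l 16630320) (l 16580528)) (l 16614952)))) (a (b (c (b (b (a (l 16694944) (l 16719640)) (l 16718520)) (l 16719888)) (b (b (a (c (l 16642424) (l 16593144)) (l 16621728)) (l 16620552)) (l 16622048))) (c (l 16722520) (l 16624872))) (c (b (l 16727808) (l 16732080)) (b (l 16630616) (l 16635328)))))) (a (a (b (l 1) (c (l 73584700279) (l 66605286647))) (l 1)) (l 1)))), by decide +kernel⟩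

def k180_pm_011 : ∃ t, chk3 f_pm_011 t 29 59 1 = true :=
  ⟨(a (b (a (b (c (a (b (l 16706216) (l 16707104)) (b (l 16715744) (l 16717552))) (a (b (l 16606920) (l 16607408)) (b (l 16617280) (l 16618888)))) (c (a (c (l 16731944) (l 16681880)) (l 16718928)) (a (b (l 16606936) (l 16605352)) (l 16619640)))) (b (c (a (l 16706160) (l 16737928)) (a (b (l 16628208) (l 16630912)) (l 16636384))) (c (a (l 16731304) (l 16744024)) (a (l 16633496) (l 16647816))))) (a (b (c (a (b (l 16704616) (l 16701672)) (l 16717640)) (a (b (l 16602528) (l 16598336)) (l 16617632))) (c (a (b (l 16697488) (c (l 16718408) (l 16665400))) (b (l 16713832) (l 16709736))) (a (b (l 16592640) (c (l 16612088) (l 16558456))) (b (l 16611232) (l 16605640))))) (b (c (a (l 16732328) (l 16747312)) (a (l 16633456) (l 16650512))) (c (a (l 16729296) (l 16746880)) (a (l 16617992) (l 16648656)))))) (b (a (b (c (a (l 16749064) (l 16760504)) (a (l 16654056) (l 16666896))) (c (a (l 16757056) (l 16770368)) (a (l 16662560) (l 16677664)))) (b (l 1) (c (l 16790744)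 (a (l 16693104) (l 1))))) (a (b (c (a (l 16762560) (l 16778032)) (a (l 16667928) (l 16685656))) (c (l 16752656) (a (l 16669128) (l 16689840)))) (b (c (l 16801576) (a (l 16703656) (l 16721888))) (c (l 16809776) (a (l 16710760) (l 16731840))))))), by decide +kernel⟩

def k181_pm_011 : ∃ t, chk3 f_pm_011 t 15 14 1 = true :=
  ⟨(b (l 1) (b (l 1) (a (a (b (l 1) (a (b (l 1) (c (l 16846216) (a (l 16753040) (l 1)))) (l 1))) (l 1)) (l 1)))), by decide +kernel⟩

def k182_pm_011 : ∃ t, chk3 f_pm_011 t 28 60 1 = true :=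
  ⟨(a (c (b (a (b (c (l 16648680) (l 16592600)) (c (l 16641800) (l 16626264))) (a (b (l 16633152) (l 16636664)) (b (l 16641344) (l 16634760)))) (a (b (c (a (l 16630048) (l 16639144)) (a (l 16571000) (l 16580376))) (c (a (l 16622296) (l 16631824)) (a (l 16561760) (l 16571616)))) (b (c (a (l 16648104) (l 16656944)) (a (l 16589616) (l 16598736))) (c (a (l 16641208) (l 16650448)) (a (l 16581320) (l 16590888)))))) (b (a (c (b (l 16536136) (l 16526440)) (l 16463296)) (b (c (l 16553320) (l 16496896)) (c (l 16565520) (l 16486760)))) (a (c (b (l 16516368) (l 16505880)) (l 16463384)) (c (b (l 16556400) (a (l 16521000) (l 16530896))) (l 16465616))))) (b (a (a (c (b (l 16649440) (l 16632736)) (b (l 16558920) (l 16550144))) (c (b (l 16636472) (l 16630600)) (b (l 16567328) (l 16579952)))) (a (c (b (l 16644368) (l 16633600)) (b (l 16575640) (l 16588680))) (c (b (l 16652192) (l 16631256)) (b (l 16604840) (l 16597296))))) (a (a (c (b (c (l 16665656) (l 16607728)) (c (l 16659544) (l 16600304))) (b (l 16562016) (l 16573552)))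 (c (b (c (l 16674248) (l 16616592)) (c (l 16668504) (l 16609576))) (b (l 16592280) (c (l 16550240) (l 16490472))))) (c (b (c (a (l 16682712) (l 16691056)) (a (l 16625328) (l 16633944))) (c (a (l 16677328) (l 16686016)) (a (l 16618720) (l 16627712)))) (b (c (a (l 16567568) (l 16576464)) (l 16534976)) (c (a (l 16559696) (l 16569016)) (l 16547032))))))), by decide +kernel⟩

def k183_pm_011 : ∃ t, chk3 f_pm_011 t 56 61 1 = true :=
  ⟨(c (b (a (b (c (a (l 16614176) (l 16624160)) (a (l 16552120) (l 16562480))) (c (a (l 16605664) (l 16616128)) (a (l 16542056) (l 16552936)))) (b (c (a (l 16633984) (l 16643648)) (a (l 16572672) (l 16582696))) (c (a (l 16626416) (l 16636520)) (a (l 16563640) (l 16574160))))) (a (b (c (a (l 16617704) (l 16628680)) (a (l 16531528) (l 16542976))) (c (a (l 16626696) (b (l 16601128) (l 16596608))) (a (l 16520536) (l 16532568)))) (b (c (a (l 16618480) (l 16629056)) (a (l 16554216) (l 16586216))) (c (a (b (l 16612280) (l 16608024)) (b (l 16623224) (l 16619216))) (a (l 16565336) (c (l 16572312)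 (l 16539536))))))) (c (b (a (b (l 16474000) (l 16483608)) (b (a (l 16510896) (l 16521304)) (a (l 16500384) (l 16511320)))) (a (b (l 16477896) (l 16480312)) (b (l 16479472) (l 16473608)))) (b (a (l 16468688) (l 16461912)) (a (l 16472944) (l 16467112))))), by decide +kernel⟩

def k184_pm_011 : ∃ t, chk3 f_pm_011 t 57 61 1 = true :=
  ⟨(c (b (a (b (c (a (l 16653152) (l 16662504)) (a (l 16592568) (l 16602272))) (c (a (l 16646456) (l 16656216)) (a (l 16584496) (l 16594664)))) (b (c (a (l 16671696) (l 16680744)) (a (l 16611832) (l 16621232))) (c (a (l 16665808) (l 16675232)) (a (l 16604648) (l 16614472))))) (a (b (c (a (l 16628952) (l 16628656)) (a (l 16597056) (l 16618176))) (c (a (b (l 16633952) (l 16630192)) (b (l 16644480) (l 16640952))) (a (b (l 16569528) (l 16565040)) (b (l 16580544) (l 16576312))))) (b (c (a (l 16638656) (l 16648480)) (a (b (l 16599072) (l 16595248)) (b (l 16609216) (l 16605624)))) (c (a (b (l 16654808) (l 16651504)) (b (l 16664944) (l 16661848))) (a (b (l 16591344) (l 16587360)) (b (l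 16601952) (l 16598200))))))) (b (a (c (b (a (l 16531536) (l 16541616)) (a (l 16522080) (l 16532648))) (a (l 16464672) (l 16454416))) (b (c (a (l 16551528) (l 16561288)) (a (l 16490784) (l 16500912))) (c (a (l 16543048) (l 16553272)) (a (l 16480968) (l 16491600))))) (a (b (c (a (l 16512232) (l 16523328)) (l 16459976)) (c (a (l 16501992) (l 16513632)) (l 16462808))) (c (b (a (l 16534232) (l 16565904)) (a (l 16546032) (c (l 16552272) (l 16520240)))) (b (l 16455408) (l 16466104)))))), by decide +kernel⟩

def k185_pm_011 : ∃ t, chk3 f_pm_011 t 58 120 1 = true :=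
  ⟨(a (b (a (c (b (a (c (b (l 16709592) (l 16707240)) (b (l 16655544) (l 16652776))) (l 16689744)) (a (l 16677720) (c (b (l 16711512) (l 16708976)) (b (l 16636064) (l 16633096))))) (b (a (b (c (l 16601184) (l 16546480)) (c (l 16597992) (l 16542864))) (l 16581744)) (a (l 16567200) (b (a (l 16614040) (l 16577016)) (a (l 16569376) (l 16614392)))))) (c (b (l 16704272) (c (l 16724104) (l 16670448))) (b (l 16598400) (c (l 16616480) (l 16562184))))) (a (c (c (l 16703808) (l 16648104)) (c (l 16592048) (l 16535632))) (c (b (a (c (b (l 16713512) (l 16710792)) (b (a (l 16656056) (l 16660888)) (a (l 16653784) (l 16656784)))) (l 16673512)) (a (l 16680744) (b (a (c (l 16713024) (l 16657544)) (l 16690336)) (a (l 16683144) (c (l 16714000) (l 16658320)))))) (b (a (b (a (c (l 16600656) (l 16544912)) (l 16578160)) (a (l 16570000) (c (l 16601176) (l 16545216)))) (l 16585048)) (a (l 16568432) (b (a (c (l 16601720) (l 16545544)) (l 16579432)) (a (l 16570736) (c (l 16602296) (l 16545904))))))))) (b (c (a (b (l 16723832) (l 16718472))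 (l 16741856)) (a (b (l 16620888) (l 16613776)) (l 16620280))) (c (a (b (l 16690648) (c (l 16730240) (l 16655040))) (b (l 16734576) (l 16727856))) (a (b (l 16604872) (c (l 16621456) (l 16566544))) (b (l 16631472) (l 16622720)))))), by decide +kernel⟩

def k186_pm_011 : ∃ t, chk3 f_pm_011 t 58 121 1 = true :=
  ⟨(a (c (b (c (a (l 16699280) (l 16707408)) (a (l 16642440) (l 16650840))) (c (a (l 16694568) (l 16702992)) (a (l 16636576) (l 16645312)))) (b (c (a (l 16585232) (l 16593912)) (a (l 16527640) (l 16536608))) (c (a (l 16578192) (l 16587240)) (a (l 16519408) (l 16528776))))) (b (a (b (c (a (b (a (c (l 16715008) (l 16638152)) (l 16692480)) (a (l 16684832) (a (l 16644792) (l 16646984)))) (l 16657704)) (a (b (a (c (l 16616000) (l 16546296)) (l 16580832)) (a (l 16571584) (a (l 16605128) (l 16611560)))) (l 16609872))) (c (a (l 16684112) (b (a (b (l 16647712) (l 16645928)) (l 16694720)) (a (l 16686608) (c (l 16718136) (b (l 16662416) (l 16660456)))))) (a (l 16570112) (b (a (b (l 16610680) (l 16611008)) (l 16582352))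 (a (l 16572544) (c (b (l 16605704) (l 16603480)) (b (l 16548616) (l 16546120)))))))) (c (b (l 16698560) (c (l 16736816) (l 16640136))) (b (l 16612048) (a (l 16612000) (l 16607608))))) (a (c (c (l 16711328) (l 16653952)) (c (l 16596208) (l 16538064))) (b (a (c (b (a (c (l 16719216) (b (l 16663336) (l 16661312))) (l 16697056)) (a (l 16688464) (c (l 16720320) (b (l 16664272) (l 16662192))))) (b (a (c (b (l 16606432) (l 16604144)) (b (l 16549152) (l 16546584))) (l 16584000)) (a (l 16573616) (c (b (l 16607184) (l 16604832)) (b (l 16549720) (l 16547080)))))) (c (l 16663296) (c (l 16621424) (l 16565088)))) (a (c (l 16687816) (l 16572240)) (c (b (a (c (l 16721448) (b (l 16665232) (l 16663096))) (l 16699480)) (a (l 16690408) (c (l 16722592) (b (l 16666224) (l 16664024))))) (b (a (c (b (l 16607968) (l 16605552)) (b (l 16550312) (l 16547608))) (l 16585768)) (a (l 16574800) (c (b (l 16608776) (l 16606288)) (b (l 16550936) (l 16548168))))))))))), by decide +kernel⟩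

def k187_pm_011 : ∃ t, chk3 f_pm_011 t 59 60 1 = true :=
  ⟨(b (a (b (c (l 16730944) (a (l 16665160) (l 16689248))) (c (a (l 16755280) (l 16779168)) (a (l 16634112) (l 16682920)))) (b (c (l 16814504) (a (l 16713448) (l 16737728))) (c (l 16814952) (a (l 16710776) (l 16738632))))) (a (b (c (a (b (l 16746032) (l 16737872)) (l 16769528)) (a (b (l 16642944) (l 16632456)) (l 16627992))) (c (a (b (l 16707016) (a (l 16645280) (l 16724352))) (b (l 16758184) (l 16748488))) (a (b (l 16609424) (a (c (l 16623968) (l 16567352)) (l 16614640))) (b (l 16655280) (l 16642952))))) (b (c (l 16789376) (a (l 16701848) (l 16733640))) (c (a (l 16784544) (l 16815280)) (a (b (l 16690496) (l 16680512)) (l 16679960)))))), by decide +kernel⟩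

def k188_pm_011 : ∃ t, chk3 f_pm_011 t 58 61 1 = true :=
  ⟨(b (a (c (b (c (a (l 16689640) (l 16698400)) (a (l 16630472) (l 16639584))) (c (a (l 16684488) (l 16693592)) (a (l 16624120) (l 16612648)))) (b (c (a (l 16570896) (l 16580352)) (a (l 16510880) (l 16520704))) (c (a (l 16584288) (l 16594176)) (a (l 16502056) (l 16512352))))) (c (b (c (a (l 16707032) (l 16715568)) (a (l 16648560) (l 16657440))) (c (a (l 16702560) (l 16711392)) (a (l 16621992) (l 16631208)))) (b (c (a (l 16589680) (l 16598920)) (a (l 16530392) (l 16539992))) (c (a (l 16603920) (l 16603040)) (a (l 16522496) (l 16532496)))))) (a (c (b (c (a (l 16658120) (l 16667592)) (a (b (l 16619184) (l 16615808)) (b (l 16628984) (l 16625808)))) (c (a (b (l 16674880) (l 16671992)) (c (l 16698816) (l 16667752))) (a (b (l 16612360) (l 16608832)) (b (l 16622576) (l 16619272))))) (b (c (a (b (l 16557448) (l 16553440)) (b (l 16567664) (l 16563888))) (a (l 16492920) (l 16503696))) (a (c (b (l 16549352) (l 16545184)) (l 16483448)) (c (b (l 16560040) (l 16556112))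 (l 16494736))))) (c (b (c (a (l 16697880) (l 16707048)) (a (b (l 16638624) (l 16635656)) (b (l 16648120) (l 16645344)))) (c (a (l 16672016) (l 16702504)) (a (b (l 16632624) (l 16629528)) (b (l 16642512) (l 16639624))))) (b (c (a (b (l 16577736) (l 16574176)) (b (l 16587656) (l 16584312))) (a (l 16514320) (l 16545752))) (a (c (b (l 16570552) (l 16566856)) (l 16526824)) (c (b (l 16580904) (l 16577432)) (c (l 16532440) (l 16501128)))))))), by decide +kernel⟩

def k189_pm_011 : ∃ t, chk3 f_pm_011 t 118 244 1 = true :=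
  ⟨(a (b (a (c (b (a (c (l 16723752) (b (l 16667232) (l 16664976))) (l 16702008)) (a (l 16692432) (c (l 16703968) (b (l 16647296) (l 16644976))))) (b (a (c (b (l 16609608) (l 16609680)) (b (l 16551592) (l 16569720))) (l 16587656)) (a (l 16576096) (c (b (a (l 16608328) (l 16612288)) (a (l 16606648) (l 16608744))) (b (l 16573248) (l 16570336)))))) (c (c (l 16739272) (l 16683144)) (c (l 16626640) (l 16569752)))) (a (c (l 16691872) (l 16574816)) (c (b (a (c (b (l 16726896) (l 16724824)) (b (a (l 16667288) (l 16671056)) (a (l 16665792) (l 16667792)))) (l 16704624)) (a (l 16694552) (c (b (l 16728136) (l 16726008)) (b (a (l 16668304) (l 16672184)) (a (l 16666784) (l 16668824)))))) (b (a (a (b (a (l 16599936) (l 16601544)) (l 16578120)) (b (l 16584168) (c (l 16609576) (l 16550960)))) (l 16589672)) (a (l 16577496) (a (b (a (l 16600680) (l 16602320)) (l 16578848)) (b (l 16585056) (c (l 16610440) (l 16551656))))))))) (c (b (l 16716000) (c (l 16751240) (a (l 16686184) (l 16705160)))) (b (c (l 16655712) (l 16601088))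 (a (c (l 16629432) (l 16572296)) (l 16622304))))), by decide +kernel⟩

def k190_pm_011 : ∃ t, chk3 f_pm_011 t 118 245 1 = true :=
  ⟨(a (c (c (l 16720120) (l 16640328)) (c (b (l 16603552) (l 16600504)) (l 16563376))) (b (a (c (b (a (c (b (l 16729400) (l 16727208)) (b (a (l 16669352) (l 16673336)) (a (l 16667800) (l 16669880)))) (l 16707336)) (a (l 16696744) (c (b (l 16730680) (l 16728432)) (b (a (l 16670416) (l 16674512)) (a (l 16668840) (l 16670960)))))) (b (a (a (b (c (l 16610888) (l 16552008)) (l 16579608)) (b (l 16585968) (c (l 16611336) (l 16552376)))) (l 16591808)) (b (a (l 16579408) (a (c (l 16611792) (l 16552744)) (l 16586912))) (a (l 16578616) (a (l 16580400) (c (l 16612248) (l 16574096))))))) (c (c (l 16745920) (l 16689328)) (c (l 16632360) (l 16574984)))) (a (c (l 16675288) (l 16598808)) (c (b (a (c (b (l 16731984) (l 16729680)) (b (a (l 16671512) (l 16675712)) (a (l 16669896) (l 16672064)))) (l 16710136)) (a (l 16699024) (c (b (l 16733304) (l 16730944)) (b (a (l 16672624) (l 16676936)) (a (l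 16670984) (l 16673192)))))) (b (b (a (a (c (l 16607480) (l 16574488)) (l 16587888)) (l 16596728)) (a (a (l 16581208) (c (b (l 16613744) (l 16612256)) (l 16574880))) (l 16591376))) (b (a (l 16581032) (a (c (b (l 16614232) (l 16612728)) (l 16585768)) (l 16588888))) (a (l 16580256) (a (l 16582056) (c (b (l 16614728) (l 16613200)) (b (l 16555352) (l 16553648))))))))))), by decide +kernel⟩

def k191_pm_011 : ∃ t, chk3 f_pm_011 t 119 122 1 = true :=
  ⟨(b (c (a (b (l 16770992) (l 16759696)) (l 16800304)) (a (b (l 16668448) (l 16654200)) (b (l 16708120) (l 16696376)))) (a (c (b (l 16725488) (a (c (l 16749384) (l 16692592)) (l 16741312))) (b (c (l 16664992) (l 16610200)) (a (c (l 16614432) (l 16577808)) (l 16630584)))) (c (b (l 16784432) (l 16771464)) (b (l 16682432) (l 16645208))))), by decide +kernel⟩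

def k192_pm_011 : ∃ t, chk3 f_pm_011 t 118 123 1 = true :=
  ⟨(c (b (c (a (l 16716072) (l 16724992)) (a (b (l 16657472) (l 16654880)) (b (l 16666704) (l 16664272)))) (c (a (l 16711872) (l 16721072)) (a (b (l 16652240) (l 16649544)) (b (l 16661808) (l 16659304))))) (b (a (c (b (l 16597424) (l 16594288)) (b (l 16536928) (l 16533232))) (c (b (l 16607072) (l 16604112)) (b (l 16547008) (l 16543504)))) (a (c (b (l 16591088) (l 16587832)) (b (l 16529472) (l 16525648))) (c (b (l 16601120) (l 16598072)) (b (l 16539968) (l 16536368)))))), by decide +kernel⟩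

def k193_pm_011 : ∃ t, chk3 f_pm_011 t 119 246 1 = true :=
  ⟨(a (b (a (c (b (a (c (b (l 16734640) (l 16732224)) (b (a (l 16673760) (l 16678176)) (a (l 16672088) (l 16653368)))) (l 16713032)) (a (l 16701392) (c (b (l 16736000) (l 16733528)) (b (a (l 16653944) (l 16679448)) (a (l 16673216) (l 16654536)))))) (b (b (a (a (c (b (l 16615232) (l 16613680)) (b (l 16555776) (l 16554056))) (l 16589920)) (l 16599256)) (a (a (l 16582928) (c (b (l 16615736) (l 16614176)) (b (l 16556200) (l 16554464)))) (l 16593608))) (b (a (l 16582768) (a (c (b (l 16616248) (l 16614672)) (b (l 16556640) (l 16554880))) (l 16590984))) (a (l 16582000) (a (l 16583824) (c (b (l 16616768) (l 16615168)) (b (l 16557088) (l 16555312)))))))) (c (c (l 16752936) (l 16695952)) (c (l 16607120) (l 16580776)))) (a (c (l 16680008) (l 16602280)) (c (b (a (c (b (l 16737384) (l 16734848)) (b (a (l 16649888) (l 16680744)) (a (l 16674368) (c (l 16691504) (l 16661872))))) (l 16695048)) (a (l 16703840) (c (b (l 16738784) (l 16736184)) (b (a (c (l 16692120)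 (l 16662464)) (l 16682064)) (a (l 16675544) (c (l 16692752) (l 16663056))))))) (b (a (b (a (c (b (l 16617296) (l 16615680)) (b (l 16557536) (l 16555744))) (l 16592072)) (a (l 16584752) (c (b (l 16617832) (l 16616192)) (b (l 16558000) (l 16556184))))) (l 16598952)) (a (l 16584240) (b (a (c (b (l 16618368) (l 16616720)) (b (l 16558464) (l 16556632))) (l 16593192)) (a (l 16585704) (c (b (l 16618920) (l 16617248)) (b (l 16558944) (l 16557088)))))))))) (c (b (l 16735488) (a (c (l 16756584) (l 16699432)) (l 16750496))) (b (a (l 16634952) (l 16659984)) (a (a (b (l 16612128) (l 16600248)) (l 16619592)) (l 16618496))))), by decide +kernel⟩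

def k194_pm_011 : ∃ t, chk3 f_pm_011 t 238 247 1 = true :=
  ⟨(c (c (l 16730168) (b (l 16671256) (l 16668904))) (c (b (l 16611016) (l 16608144)) (b (l 16550328) (l 16546920)))), by decide +kernel⟩

def k195_pm_011 : ∃ t, chk3 f_pm_011 t 239 247 1 = true :=
  ⟨(b (a (c (b (a (c (b (l 16740200) (l 16737544)) (b (a (c (l 16693384) (l 16663656)) (l 16683400)) (a (l 16676744) (c (l 16694024) (l 16643288))))) (l 16698128)) (a (l 16706368) (c (b (l 16741640) (l 16738920)) (b (a (a (l 16678640) (l 16680496)) (l 16684768)) (a (l 16677960) (a (l 16679264) (l 16681136))))))) (b (a (b (a (c (b (l 16619472) (l 16617784)) (b (l 16559424) (l 16557552))) (l 16594344)) (a (l 16586688) (c (b (l 16620032) (l 16618320)) (b (l 16559912) (l 16578992))))) (l 16601576)) (a (l 16586200) (b (a (c (b (l 16599624) (l 16597896)) (b (l 16581384) (l 16579472))) (l 16595520)) (a (l 16587696) (c (b (l 16600200) (l 16598456)) (b (l 16581888) (l 16579952)))))))) (b (c (l 16736632) (l 16622336)) (c (l 16684720) (a (l 16602936) (l 16617128)))))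 (a (c (l 16664096) (c (l 16615608) (l 16554744))) (c (b (a (c (b (l 16743096) (l 16740320)) (b (a (a (l 16679888) (l 16681784)) (l 16686152)) (a (l 16679200) (a (l 16680520) (l 16682432))))) (l 16701296)) (a (l 16708984) (c (b (l 16744576) (l 16741728)) (b (a (a (l 16681160) (l 16683096)) (l 16687568)) (a (l 16680464) (a (l 16681800) (l 16683752))))))) (b (a (b (a (c (b (l 16600776) (l 16604256)) (b (l 16582400) (l 16580448))) (l 16596728)) (a (l 16588736) (c (b (a (l 16620816) (l 16623616)) (a (l 16619760) (l 16621104))) (b (a (l 16560312) (l 16563328)) (a (l 16559120) (l 16560560)))))) (l 16604320)) (a (l 16588272) (b (a (c (b (a (l 16621392) (l 16624216)) (a (l 16620328) (l 16621680))) (b (a (l 16560816) (l 16563872)) (a (l 16559624) (l 16561072)))) (l 16597960)) (a (l 16589800) (c (b (a (l 16621976) (l 16624832)) (a (l 16620896) (l 16622264))) (b (a (l 16561336) (l 16564424)) (a (l 16560128) (l 16561592))))))))))), by decide +kernel⟩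

def k196_pm_011 : ∃ t, chk3 f_pm_011 t 56 62 1 = true :=
  ⟨(b (c (a (a (c (b (b (l 16580056) (l 16575032)) (b (l 16569896) (l 14))) (b (l 16509056) (l 16497072))) (c (b (b (l 16591976) (l 16587240)) (b (l 16582392) (l 16577424))) (b (l 16542664) (l 14)))) (b (c (a (b (l 16603664) (l 16599200)) (b (l 16615112) (l 16610920))) (a (l 16576024) (c (l 16562976) (l 16529440)))) (c (a (b (l 16594632) (l 16589952)) (b (l 16606616) (l 16602216))) (l 14)))) (a (b (l 16479032) (l 16480768)) (c (b (l 16477504) (l 16479912)) (l 16471336)))) (c (c (a (b (a (l 14) (b (l 16572352) (l 14))) (l 14)) (b (a (b (l 16585168) (l 16580272)) (b (l 16597712) (l 16593104))) (c (b (b (a (l 16594344) (l 16607288)) (a (l 14) (l 16606784))) (a (l 14) (l 16609008))) (l 14)))) (a (a (b (l 16495232) (b (l 16497256) (l 16504368))) (l 14)) (l 14))) (b (a (l 16482328) (c (l 16482128) (l 16474000))) (a (b (c (l 16488192) (l 16479888)) (l 16490664)) (b (c (b (l 16483520) (l 16485808)) (l 16476304)) (l 16509560)))))), by decide +kernel⟩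

def k197_pm_011 : ∃ t, chk3 f_pm_011 t 57 124 1 = true :=
  ⟨(c (a (b (c (a (b (l 16626336) (l 16622392)) (b (l 16637336) (l 16633632))) (a (b (l 16560456) (l 16555776)) (b (l 16571992) (l 16567576)))) (c (a (b (l 16618352) (l 16614224)) (b (l 16629848) (l 16625968))) (a (b (l 16550992) (l 14)) (b (l 16563064) (l 16558456))))) (b (c (a (b (l 16648112) (l 16644648)) (b (l 16658680) (l 16655432))) (a (b (l 16583296) (l 16579136)) (b (l 16594376) (l 16590464)))) (c (a (b (l 16641096) (l 16637464)) (b (l 16652120) (l 16648720))) (a (b (l 16574888) (l 16570552)) (b (l 16586472) (l 16603368)))))) (a (a (b (l 16478136) (l 16472776)) (c (b (l 16524520) (l 14)) (l 16465464))) (b (c (a (l 16557472) (c (l 16543608) (l 16510896))) (l 16460592)) (c (l 14) (l 16463416))))), by decide +kernel⟩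

def k198_pm_011 : ∃ t, chk3 f_pm_011 t 57 125 1 = true :=
  ⟨(b (c (a (c (a (b (l 16609992) (l 16605664)) (b (l 16622000) (l 16617944))) (a (l 14) (b (l 16574720) (l 14)))) (c (a (b (l 16633752) (l 16608976)) (b (l 16624272) (l 16620712))) (a (b (l 16587096) (l 16593056)) (b (l 16599200) (c (l 16590960) (l 14)))))) (a (c (a (l 16479216) (l 14)) (l 16469888)) (c (l 14) (l 16466016)))) (c (a (c (b (b (a (a (l 16599312) (b (l 16606048) (l 16605200))) (b (l 16615360) (a (l 16611608) (l 16617992)))) (a (l 16602664) (l 16615880))) (a (l 16604944) (l 16618272))) (l 14)) (b (b (c (a (b (c (l 16644720) (l 16610472)) (l 16627560)) (b (a (l 16615672) (l 16621664)) (l 16640136))) (c (a (b (l 16576080) (l 14)) (b (b (l 16588672) (l 16588496)) (l 16589072))) (l 14))) (c (a (l 16628784) (l 16641376)) (a (l 14) (l 16573216)))) (c (a (l 16610304) (l 16622992)) (a (l 14) (l 16596768))))) (a (a (b (b (l 16476632) (l 16479960)) (l 16487312)) (c (l 14) (l 16497888))) (c (l 14) (a (l 16496928) (l 16496112)))))), by decide +kernel⟩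

def k199_pm_011 : ∃ t, chk3 f_pm_011 t 58 124 1 = true :=
  ⟨(a (c (b (c (a (b (l 16669032) (l 16666000)) (c (l 16693608) (l 16661928))) (a (b (l 16605240) (l 16601568)) (b (l 16615896) (l 16612456)))) (c (a (b (l 16662904) (l 16659736)) (b (l 16673480) (l 16670520))) (a (b (l 16597816) (l 16593992)) (b (l 16608944) (l 16605352))))) (b (a (c (b (l 16540936) (l 16536608)) (l 16473624)) (c (b (l 16552112) (l 16548032)) (l 16485456))) (c (a (b (l 16532200) (l 14)) (b (l 16543880) (l 16560616))) (a (l 16463448) (l 14))))) (c (b (c (a (c (l 16703552) (l 16672128)) (c (l 16713320) (l 16682152))) (a (b (l 16626376) (l 16623152)) (b (l 16636672) (l 16633656)))) (b (c (a (l 16683848) (l 16694032)) (a (l 16619856) (l 16609616))) (c (a (l 16681104) (l 16691488)) (a (l 16616504) (l 16606472))))) (c (b (a (b (l 16563096) (l 16559264)) (b (l 16573896) (l 16570296))) (a (b (l 16576328) (l 16572344)) (b (l 16587600) (l 16583856)))) (b (a (l 16518056) (c (l 16524472) (l 16492552))) (l 14))))), by decide +kernel⟩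

def k200_pm_011 : ∃ t, chk3 f_pm_011 t 59 124 1 = true :=
  ⟨(a (c (b (c (a (l 16686496) (l 16717016)) (a (b (l 16646792) (l 16643984)) (b (l 16656744) (l 16654128)))) (c (a (c (l 16718584) (l 16687104)) (l 16670824)) (a (b (l 16620144) (l 16617224)) (b (l 16630496) (l 16627776))))) (b (a (c (b (l 16584520) (l 16581144)) (b (l 16521752) (l 16517800))) (c (b (l 16594968) (l 16591808)) (b (l 16532712) (l 16528992)))) (a (c (b (l 16598672) (l 16600416)) (b (l 16513768) (l 14))) (c (b (l 16599072) (c (l 16601216) (l 16569376))) (b (l 16525200) (l 16542328)))))) (c (b (c (a (l 16726392) (l 16735656)) (a (b (l 16666528) (l 16664104)) (b (l 16676168) (l 16673896)))) (c (a (l 16722488) (l 16732032)) (a (b (l 16661632) (l 16638136)) (b (l 16671616) (l 16648304))))) (b (a (c (b (l 16605248) (l 16602296)) (b (l 16543488) (l 16560968))) (c (b (l 16615384) (l 16612600)) (b (l 16575096) (l 16571792)))) (a (c (b (l 16599288) (c (l 16611992) (l 16580432))) (b (l 16557416) (l 16553808))) (c (b (l 16599320) (c (l 16622584)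 (l 16591296))) (b (l 16568472) (c (l 16559880) (l 16528328)))))))), by decide +kernel⟩

def k201_pm_011 : ∃ t, chk3 f_pm_011 t 58 125 1 = true :=
  ⟨(b (c (a (a (c (b (l 16635520) (l 16611224)) (b (l 16611056) (c (l 16602912) (l 16569232)))) (c (b (l 16646528) (c (l 16681032) (b (l 16648664) (l 16647120)))) (b (l 16606928) (a (l 16592440) (a (l 16594256) (b (l 16603264) (l 16601528))))))) (b (c (a (l 16678288) (l 16688880)) (a (l 16605208) (c (l 16640456) (l 16608008)))) (c (a (b (l 16676144) (b (l 16675056) (c (l 16691016) (l 16637160)))) (b (l 16686880) (b (l 16685880) (l 16654304)))) (a (b (l 16610456) (b (l 16609136) (b (l 16598040) (a (l 16605416) (l 16611512))))) (b (l 16621800) (b (l 16620576) (c (l 16615792) (a (l 16600912) (l 16606920))))))))) (a (c (a (l 14) (b (l 16556296) (l 14))) (a (l 16463296) (l 14))) (c (b (a (l 16589256) (c (l 16575424) (l 16542704))) (c (a (b (l 16560832) (b (l 16559328) (b (l 16558640) (l 16558544)))) (b (l 16572640) (b (l 16571240) (a (l 16567848) (l 16574032))))) (l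 14))) (l 14)))) (c (b (a (a (a (c (b (c (l 16665744) (l 16632080)) (l 16650632)) (b (b (l 16591472) (l 16581736)) (l 16583008))) (c (c (l 16672512) (l 16639016)) (c (l 16605376) (l 16571600)))) (c (c (l 16681368) (l 16648136)) (c (l 16614760) (l 16581248)))) (c (a (l 16676528) (l 16688008)) (a (l 16594744) (l 16601664)))) (a (c (a (l 16656352) (l 16668440)) (a (l 16588912) (l 16601720))) (c (a (l 16680264) (l 16691824)) (a (l 16593288) (l 16605552))))) (a (a (c (l 14) (l 16484952)) (l 14)) (c (a (b (l 16564832) (l 14)) (b (l 16577688) (l 16581640))) (l 14))))), by decide +kernel⟩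

def k202_pm_011 : ∃ t, chk3 f_pm_011 t 59 250 1 = true :=
  ⟨(a (c (b (c (a (l 16699264) (l 16709448)) (a (c (l 16651272) (l 16619112)) (c (l 16661888) (l 16630024)))) (b (c (a (l 16697416) (l 16707744)) (a (l 16632936) (l 16643856))) (b (c (a (l 16696600) (l 16707168)) (b (a (l 16631976) (l 16611584)) (a (c (l 16647968) (l 16615472)) (l 16622120)))) (c (l 16681448) (a (l 16632192) (l 16643800)))))) (c (b (a (c (l 16586824) (l 16554400)) (c (l 16598024) (l 16565896))) (b (a (l 16567912) (l 16579432)) (a (b (a (l 16563680) (a (l 16568112) (l 16571064))) (l 16566912)) (b (c (b (l 16594648) (l 16594672)) (b (l 16562216) (l 16562224))) (l 16579192))))) (b (a (l 14) (l 16559384)) (l 14)))) (c (b (c (a (l 16719440) (l 16729240)) (a (c (l 16672304) (l 16640728)) (l 16645928))) (b (c (a (l 16717904) (l 16727928)) (a (l 16633624) (c (l 16680944) (a (l 16646760) (l 16652096))))) (a (c (l 16718088) (c (l 16670560) (a (l 16635864) (l 16641576)))) (c (l 16728616) (l 16665824))))) (b (c (a (c (l 16609016) (l 16577176))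 (c (l 16619808) (l 16588256))) (a (c (l 16545200) (l 14)) (c (l 16556576) (l 16524760)))) (b (a (c (c (l 16606776) (l 16574728)) (c (l 16542552) (l 14))) (c (b (l 16602216) (a (l 16588312) (c (l 16620224) (l 16588520)))) (b (l 16538512) (a (l 16555792) (b (l 16540752) (l 16561528)))))) (a (c (a (c (l 16593320) (l 16578160)) (l 16593680)) (a (l 14) (l 16529344))) (c (l 16602520) (l 16559656))))))), by decide +kernel⟩

def k203_pm_011 : ∃ t, chk3 f_pm_011 t 59 251 1 = true :=
  ⟨(c (b (a (c (a (l 16699240) (l 16710232)) (a (l 16613576) (l 16625240))) (c (l 16684320) (a (l 16636656) (l 16668808)))) (a (c (a (l 16703128) (l 16714184)) (a (l 16617552) (l 16629296))) (c (l 16709328) (a (l 16661760) (l 16673008))))) (a (c (a (b (l 16579800) (l 16583856)) (b (c (l 16597848) (l 16565432)) (l 16585816))) (l 14)) (c (a (b (c (l 16609768) (l 16577688)) (l 16587504)) (b (c (l 16621448) (l 16589704)) (l 16588944))) (b (c (a (l 16545480) (l 16557832)) (l 14)) (a (l 14) (l 16567264)))))), by decide +kernel⟩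

def k204_pm_011 : ∃ t, chk3 f_pm_011 t 56 63 1 = true :=
  ⟨(b (c (c (a (l 14) (b (a (l 14) (b (l 16594384) (l 14))) (l 14))) (a (a (b (l 16519104) (l 16538464)) (l 14)) (l 14))) (a (c (b (l 16509000) (l 16548272)) (b (l 16499200) (l 16516216))) (c (b (l 16528704) (a (l 16527008) (l 16526920))) (b (l 16497608) (l 16515488))))) (c (a (a (a (c (l 14) (b (l 16578464) (c (l 14) (b (l 16568264) (b (l 16575128) (l 16584928)))))) (l 14)) (l 14)) (l 14)) (b (a (c (a (l 16545304) (l 16566432)) (l 16548696)) (c (a (l 16566688) (c (l 14) (l 16542872))) (a (l 16533072) (l 16533248)))) (a (c (a (b (l 16558496) (c (a (l 16570520) (l 16581368)) (l 16574248))) (b (l 16579968) (b (a (l 16565544) (l 16565904)) (c (a (l 16573528) (l 16573968)) (l 16566632))))) (a (b (l 16545256) (l 16566456)) (b (l 16545568) (c (l 16557408) (l 16550360))))) (c (c (a (a (a (b (l 16562744) (l 16580528)) (l 14)) (l 14)) (l 14)) (a (b (l 16556192) (a (l 16565024) (l 16575928))) (b (l 16556848) (b (l 16563792) (a (l 16568176) (l 16568672))))))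 (a (b (l 16545976) (c (l 16568576) (l 16550944))) (b (l 16546480) (c (b (l 16556648) (l 16561096)) (l 16551624))))))))), by decide +kernel⟩

def k205_pm_011 : ∃ t, chk3 f_pm_011 t 57 63 1 = true :=
  ⟨(b (c (a (c (b (a (b (l 16608184) (l 16611664)) (b (l 16621656) (l 16604304))) (c (a (b (l 16632920) (l 14)) (b (l 16646472) (l 16650552))) (l 14))) (l 14)) (b (c (a (b (l 16613832) (l 16617592)) (b (l 16647616) (l 16630528))) (a (l 14) (b (l 16600424) (l 14)))) (c (b (a (c (l 16659680) (l 16625376)) (l 16634648)) (a (c (l 16663896) (l 14)) (c (l 16676888) (l 16643016)))) (l 14)))) (c (a (a (b (l 16507080) (l 16526928)) (l 14)) (l 14)) (a (b (l 16496416) (l 16536144)) (b (l 16516576) (a (l 16515224) (l 16515368)))))) (a (a (c (l 14) (b (c (c (l 14) (l 16543288)) (l 16533520)) (a (c (b (l 16581872) (c (l 14) (b (l 16564488) (l 16579680)))) (b (l 16546944) (c (l 16559536) (l 16552216)))) (c (l 14) (b (l 16547272) (c (l 16570496) (l 16552640))))))) (c (b (c (b (c (l 16654872) (l 14)) (l 14)) (l 14)) (l 14)) (c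 (l 14) (b (l 16554880) (b (l 16568784) (b (a (l 16554512) (l 16554984)) (c (a (l 16562832) (l 16563392)) (l 16555568)))))))) (c (c (c (b (a (b (l 16668344) (l 16673016)) (b (l 16681448) (l 16686248))) (a (b (l 16656960) (l 14)) (b (l 16691280) (l 16696544)))) (b (a (l 14) (b (l 16647616) (l 14))) (l 14))) (l 14)) (c (l 14) (b (a (l 16555368) (c (l 14) (l 16531592))) (a (a (b (l 16548432) (c (b (l 16559200) (l 16574464)) (l 16554064))) (b (l 16548880) (c (l 14) (l 16565080)))) (c (l 14) (b (l 16545928) (a (l 16565640) (a (l 16555592) (l 16566384))))))))))), by decide +kernel⟩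

def k206_pm_011 : ∃ t, chk3 f_pm_011 t 58 63 1 = true :=
  ⟨(b (c (a (b (b (c (a (l 16660120) (l 16672312)) (a (l 16592704) (l 16605640))) (c (a (l 16664112) (l 16676416)) (a (l 16596752) (l 16599328)))) (b (c (a (l 16647376) (l 16680744)) (c (a (l 16617928) (l 16630912)) (l 14))) (c (a (l 16651840) (l 16685320)) (a (l 14) (c (l 16635560) (l 14)))))) (b (c (a (c (l 16702680) (l 16669872)) (c (l 16714184) (l 16681744))) (a (b (l 16597320) (l 16601600)) (b (l 16609680) (l 16614064)))) (c (a (c (l 16711488) (l 16678784)) (c (l 16723152) (l 16690824))) (a (b (c (l 16643592) (l 16610576)) (c (l 16648344) (l 14))) (b (c (l 16655968) (l 16623336)) (c (l 16660816) (l 16628256))))))) (a (a (c (l 14) (b (l 16495264) (l 16515592))) (l 14)) (b (c (a (l 14) (b (l 16585856) (l 14))) (l 14)) (l 14)))) (c (a (c (b (a (c (l 16696632) (b (l 16660784) (l 16665752))) (b (l 16669152) (l 16674192))) (a (a (c (l 16703696) (l 14)) (b (l 16690864) (l 16664848))) (c (l 16719560) (b (l 16683992) (l 16689552))))) (a (l 14) (b (b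 (c (l 16640456) (l 14)) (l 14)) (l 14)))) (b (c (a (c (l 16721216) (l 16688648)) (l 16675024)) (c (a (b (l 16653344) (l 16658600)) (b (l 16665920) (l 16671272))) (a (l 14) (b (l 16633432) (l 14))))) (c (a (b (l 16712912) (l 16718520)) (c (l 16743840) (l 16711872))) (c (a (b (a (l 14) (l 16667336)) (l 14)) (b (l 16676872) (l 16682720))) (l 14))))) (a (a (a (c (l 14) (b (l 16556496) (b (l 16571344) (c (l 14) (b (l 16553936) (l 16558768)))))) (l 14)) (l 14)) (l 14)))), by decide +kernel⟩

def k207_pm_011 : ∃ t, chk3 f_pm_011 t 59 63 2 = true :=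
  ⟨(b (a (b (c (a (l 16688424) (l 16720552)) (a (b (l 16621776) (l 16626248)) (a (l 16611952) (l 16638784)))) (c (a (l 16718568) (l 16729856)) (a (c (l 16649528) (b (l 16635800) (l 16640816))) (b (l 16663936) (l 16648016))))) (b (b (c (l 16734568) (a (l 16666136) (l 16677448))) (c (l 16739064) (a (l 16670768) (l 16682136)))) (c (a (l 16740864) (l 16751600)) (a (c (l 16693896) (l 16641456)) (c (l 16705184) (l 16674072)))))) (a (b (c (a (l 16728672) (l 16740088)) (a (c (b (l 16678176) (l 16683616)) (b (l 16646088) (l 16651624))) (c (l 16692864) (b (l 16658432) (l 16664048))))) (c (a (l 16739728) (l 16751256)) (a (b (a (l 16638800) (l 16676488)) (c (l 16695240) (l 14))) (c (l 16704392) (b (l 16669928) (l 16676072)))))) (b (b (c (l 16753944) (a (l 16686152) (l 16697704))) (c (l 16759376) (a (l 16691784) (l 16703400)))) (b (c (l 16765032) (a (l 16697672) (l 16709352))) (c (l 16770928) (a (l 16682848) (l 16715552))))))), by decide +kernel⟩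

def k208_pm_011 : ∃ t, chk3 f_pm_011 t 59 63 3 = true :=
  ⟨(b (a (c (b (a (b (l 16588184) (c (l 16598576) (l 14))) (b (l 16590232) (l 16587064))) (c (a (b (l 16603400) (l 14)) (b (l 16615952) (l 16621136))) (l 14))) (l 14)) (b (c (a (b (l 16592016) (l 16586312)) (b (l 16593536) (l 16598392))) (a (l 14) (b (l 16572008) (l 14)))) (c (a (b (c (l 16628208) (l 16596416)) (c (l 16633480) (l 14))) (b (c (l 16640192) (l 16608768)) (c (l 16645536) (l 16614216)))) (l 14)))) (c (c (a (b (a (l 14) (b (l 16605624) (l 14))) (l 14)) (b (a (b (l 16639016) (l 16644824)) (b (l 16651144) (l 16657024))) (a (b (a (l 14) (l 16654008)) (l 14)) (b (l 16663176) (l 16648624))))) (a (l 14) (b (a (l 14) (b (l 16598968) (l 14))) (l 14)))) (l 14))), by decide +kernel⟩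

def k209_pm_011 : ∃ t, chk3 f_pm_011 t 15 30 1 = true :=
  ⟨(a (b (b (a (b (a (c (l 16856128) (a (l 16762048) (l 16786352))) (l 1)) (a (c (l 16862360) (a (l 16766416) (l 16794104))) (a (l 16796760) (l 1)))) (l 1)) (a (a (b (c (l 16864160) (a (l 16765272) (l 16796680))) (c (l 16860800) (a (l 16757752) (l 16793264)))) (c (b (l 16916968) (l 16920232)) (b (a (l 16827832) (l 16858688)) (a (l 16828392) (l 16863088))))) (a (a (b (l 1) (l 16888648)) (l 1)) (l 1)))) (a (b (c (a (b (l 16830624) (a (l 16816752) (l 16854712))) (b (l 16918280) (l 16910440))) (b (a (a (a (l 16732928) (l 16753056)) (l 16762040)) (l 16758136)) (a (b (a (l 16726680) (l 16770344)) (l 16652416)) (b (l 16750720) (l 16743408))))) (a (b (c (a (b (l 16798472) (l 16783776)) (l 16833864)) (b (a (l 16676224) (l 16746136)) (a (l 16636928) (l 16709664)))) (a (c (b (l 16745968) (a (c (l 16764152) (l 16685728)) (l 16760128))) (b (a (l 16623168) (l 16671760)) (a (a (b (l 16618864) (l 16595256)) (l 16606104)) (l 16627984)))) (c (b (l 16813096) (l 16796616))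 (b (l 16670776) (c (l 16718488) (l 16665920)))))) (c (b (l 16875080) (a (l 16851592) (l 16897008))) (b (b (l 16734088) (l 16722656)) (b (l 16719480) (c (l 16757792) (l 16701504))))))) (c (b (a (b (l 16982728) (l 16982264)) (l 17048488)) (a (b (l 16975928) (l 16963104)) (l 17050472))) (b (b (a (a (l 16899704) (l 16937328)) (l 1)) (a (l 16853736) (l 16935800))) (a (b (l 16844752) (b (l 16832944) (l 16822480))) (b (l 16956728) (l 16949688))))))) (b (l 1) (b (l 1) (a (a (b (l 1) (l 17062800)) (l 1)) (l 1))))), by decide +kernel⟩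

def k210_pm_011 : ∃ t, chk3 f_pm_011 t 240 496 1 = true :=
  ⟨(a (c (b (a (c (b (l 16746072) (l 16743168)) (b (a (a (l 16682448) (l 16684424)) (l 16689000)) (a (l 16681752) (a (l 16683104) (l 16685096))))) (l 16704552)) (a (l 16711680) (c (b (l 16747584) (l 16744616)) (b (a (a (l 16683760) (l 16685776)) (l 16690464)) (a (l 16683064) (a (l 16684432) (l 16686464))))))) (b (a (b (a (c (b (a (l 16622560) (l 16625456)) (a (l 16621480) (l 16622856))) (b (a (l 16561856) (l 16564976)) (a (l 16560640) (l 16562120)))) (l 16599224)) (a (l 16590896) (c (b (a (l 16623160) (l 16626080)) (a (l 16622064) (l 16623456))) (b (a (l 16562384) (l 16565544)) (a (l 16561160) (l 16562656)))))) (l 16596704)) (a (l 16590464) (b (a (c (b (a (l 16623760) (l 16626712)) (a (l 16622656) (l 16624064))) (b (a (l 16562928) (l 16566120)) (a (l 16561688) (l 16563200)))) (l 16600520)) (a (l 16592016) (c (b (a (l 16624368) (l 16627352)) (a (l 16623256) (l 16624672))) (b (a (l 16584440) (l 16566696)) (a (l 16562224) (l 16584720))))))))) (b (c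 (l 16744768) (l 16609040)) (c (l 16670848) (a (l 16596216) (l 16624256))))), by decide +kernel⟩

def k211_pm_011 : ∃ t, chk3 f_pm_011 t 240 497 1 = true :=
  ⟨(a (c (l 16669496) (c (l 16620240) (l 16558848))) (c (b (a (c (b (l 16749120) (l 16746088)) (b (a (a (l 16685104) (l 16687160)) (l 16691944)) (a (l 16684392) (a (l 16685776) (l 16687856))))) (l 16707904)) (a (l 16714464) (c (b (l 16750680) (l 16747584)) (b (a (a (l 16686456) (l 16688560)) (l 16693448)) (a (l 16685744) (a (l 16687144) (l 16689264))))))) (b (a (b (a (c (b (a (l 16604008) (l 16628000)) (a (l 16623864) (l 16604320))) (b (a (l 16584992) (l 16567288)) (a (l 16562768) (l 16585272)))) (l 16601840)) (a (l 16593168) (c (b (a (l 16604632) (l 16628656)) (a (l 16624472) (l 16604944))) (b (a (l 16585552) (l 16567888)) (a (l 16563320) (l 16585840)))))) (c (l 16640024) (l 16580216))) (a (l 16592760) (b (a (c (b (a (l 16605256) (l 16629320)) (a (l 16625088) (l 16605576))) (b (a (l 16586120) (l 16568488)) (a (l 16563880) (l 16586408)))) (l 16603192))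 (a (l 16594344) (c (b (a (l 16605896) (l 16629984)) (a (l 16625720) (l 16600968))) (b (a (l 16591944) (l 16569104)) (a (l 16564440) (c (l 16581352) (l 16550648))))))))))), by decide +kernel⟩

def k212_pm_011 : ∃ t, chk3 f_pm_011 t 241 248 1 = true :=
  ⟨(c (b (l 16756920) (a (c (l 16772080) (l 16672456)) (l 16770216))) (b (c (l 16675480) (l 16589208)) (a (b (l 16613088) (c (l 16628472) (l 16590192))) (c (l 16686992) (l 16630968))))), by decide +kernel⟩

def k213_pm_011 : ∃ t, chk3 f_pm_011 t 240 249 1 = true :=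
  ⟨(c (c (l 16741448) (b (l 16681448) (l 16679272))) (c (b (c (l 16635536) (l 16604776)) (c (l 16632984) (l 16601968))) (b (c (l 16573896) (l 16542888)) (c (l 16570832) (l 16539560))))), by decide +kernel⟩

def k214_pm_011 : ∃ t, chk3 f_pm_011 t 241 498 1 = true :=
  ⟨(a (c (b (a (c (b (l 16752248) (l 16749096)) (b (a (b (l 16689800) (l 16688016)) (l 16694976)) (a (l 16687120) (b (l 16690520) (l 16688720))))) (l 16711344)) (a (l 16717320) (c (b (l 16753848) (l 16750624)) (b (a (b (l 16691240) (l 16689424)) (l 16696528)) (a (l 16688520) (a (l 16668984) (l 16671184))))))) (b (a (b (a (c (b (a (c (l 16642728) (l 16612248)) (l 16630656)) (a (l 16626352) (c (l 16643056) (l 16612568)))) (b (a (c (l 16581656) (l 16550936)) (l 16569720)) (a (l 16565016) (c (l 16581952) (l 16551224))))) (l 16604576)) (a (l 16595552) (c (b (a (c (l 16643392) (l 16612888)) (l 16631336)) (a (l 16626984) (c (l 16643720) (l 16613200)))) (b (a (c (l 16582256) (l 16551512)) (l 16570344)) (a (l 16565600) (c (l 16582560) (l 16551800)))))))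 (c (l 16643224) (l 16583240))) (a (l 16595168) (b (a (c (b (a (c (l 16644056) (l 16613528)) (l 16632024)) (a (l 16627632) (c (l 16644392) (l 16613848)))) (b (a (c (l 16582872) (l 16552096)) (l 16570984)) (a (l 16566184) (c (l 16583176) (l 16552384))))) (l 16605984)) (a (l 16596784) (c (b (a (c (l 16644728) (l 16614168)) (l 16632720)) (a (l 16628280) (c (l 16645072) (l 16593528)))) (b (a (c (l 16593976) (l 16552688)) (l 16571624)) (a (l 16566784) (c (l 16589048) (l 16552984)))))))))) (b (c (l 16753312) (l 16596296)) (c (l 16678320) (c (l 16632064) (l 16593656))))), by decide +kernel⟩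

def k215_pm_011 : ∃ t, chk3 f_pm_011 t 241 499 1 = true :=
  ⟨(a (c (l 16654248) (c (l 16625288) (l 16563432))) (c (b (a (c (b (l 16755456) (l 16752168)) (b (a (a (l 16669704) (l 16671920)) (l 16698104)) (a (l 16689944) (a (l 16670424) (l 16672664))))) (l 16714872)) (a (l 16720272) (c (b (l 16757088) (l 16753736)) (b (a (a (l 16671152) (l 16673416)) (l 16699704)) (a (l 16691384) (a (l 16671880) (l 16674168))))))) (b (a (b (a (c (b (a (c (l 16645408) (l 16593856)) (l 16633416)) (a (l 16628936) (a (l 16629712) (l 16630920)))) (b (a (a (l 16567904) (l 16569200)) (l 16572272)) (a (l 16567384) (a (l 16568208) (l 16569512))))) (l 16586456)) (a (l 16598040) (c (b (a (a (l 16630048) (l 16631264)) (l 16634128)) (a (l 16629608) (a (l 16630384) (l 16631600)))) (b (a (a (l 16568520) (l 16569824)) (l 16572928)) (a (l 16567992) (a (l 16568824) (l 16570144))))))) (c (l 16646528) (l 16586392))) (a (l 16592448) (b (a (c (b (a (a (l 16630720) (l 16631944)) (l 16634840)) (a (l 16630272) (a (l 16631056) (l 16632288)))) (b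 (a (a (l 16569136) (l 16570456)) (l 16573592)) (a (l 16568608) (a (l 16569448) (l 16570776))))) (l 16587920)) (a (l 16599328) (c (b (a (a (l 16631400) (l 16632640)) (l 16635560)) (a (l 16630952) (a (l 16631744) (l 16632984)))) (b (a (a (l 16569760) (l 16571096)) (l 16574264)) (a (l 16569232) (a (l 16570080) (l 16571424))))))))))), by decide +kernel⟩

def k216_pm_011 : ∃ t, chk3 f_pm_011 t 121 124 1 = true :=
  ⟨(c (b (a (b (l 16828264) (l 16809960)) (l 16869888)) (a (b (l 16747368) (a (c (l 16780360) (l 16680576)) (l 16780728))) (b (l 16843960) (l 16823792)))) (b (a (b (l 16624112) (l 16604072)) (c (l 16780216) (l 16692032))) (a (b (c (a (l 16692240) (l 16723880)) (l 16576104)) (a (b (l 16584880) (c (l 16614808) (l 16586768))) (c (l 16697624) (l 16599720)))) (b (l 16641072) (c (l 16746872) (l 16621672)))))), by decide +kernel⟩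

def k217_pm_011 : ∃ t, chk3 f_pm_011 t 120 125 1 = true :=
  ⟨(b (b (c (c (a (l 16738856) (l 16748320)) (a (l 16677072) (l 16687096))) (b (c (a (l 16615472) (l 16605032)) (a (l 16573784) (l 16584880))) (c (a (l 16614112) (l 16603744)) (a (l 16572168) (l 16572856))))) (c (b (c (a (l 16737776) (l 16747472)) (a (b (l 16675680) (a (l 16672792) (l 16678040))) (b (l 16685824) (l 16685920)))) (c (l 16743928) (a (l 16676736) (l 16687416)))) (b (a (c (b (l 16613088) (a (b (l 16609896) (l 16609944)) (b (l 16594408) (l 16615664)))) (b (l 16570944) (b (a (l 16546544) (l 16573296)) (c (l 16565440) (l 16533688))))) (c (b (c (l 16639360) (l 16608224)) (c (l 16639416) (a (l 16605424) (l 16611088)))) (b (c (l 16576968) (l 16566544)) (a (c (l 16574056) (l 16542552)) (l 16564216))))) (c (a (l 16593104) (l 16625400)) (a (l 16571864) (l 16562864)))))) (c (c (a (l 16743840) (l 16753936)) (a (c (l 16697400) (l 16666288)) (c (l 16707984) (l 16677192)))) (c (a (b (c (l 16632888) (l 16601480)) (l 16600624)) (b (c (l 16644096) (l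 16613008)) (l 16612056))) (a (b (c (l 16569936) (l 16538256)) (l 16574376)) (b (c (l 16581800) (l 16550448)) (l 16572720)))))), by decide +kernel⟩

def k218_pm_011 : ∃ t, chk3 f_pm_011 t 121 500 1 = true :=
  ⟨(a (c (b (a (a (c (b (l 16758744) (l 16755320)) (b (a (b (l 16674736) (l 16672808)) (l 16701328)) (a (l 16692848) (b (l 16675504) (l 16673552))))) (l 16718488)) (l 16762248)) (a (a (l 16723296) (c (b (l 16739440) (l 16735952)) (b (a (b (l 16665784) (l 16666440)) (l 16702976)) (a (l 16694336) (c (l 16712544) (b (l 16682784) (l 16680744))))))) (l 16665184))) (a (b (a (b (a (c (b (a (a (l 16632088) (l 16633336)) (l 16636288)) (a (l 16631632) (a (l 16632432) (l 16633688)))) (b (a (a (l 16591368) (l 16592720)) (l 16574944)) (a (l 16569872) (a (l 16591688) (l 16582560))))) (l 16589416)) (a (l 16590160) (c (b (a (a (l 16632776) (l 16613064)) (l 16637024)) (a (l 16632328) (a (l 16612152) (l 16613416)))) (b (a (a (l 16581520) (l 16582888)) (l 16575632)) (a (l 16570512) (a (l 16581848) (l 16583216))))))) (c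 (l 16649952) (l 16589672))) (a (c (l 16631256) (l 16569272)) (b (a (c (b (a (a (l 16612504) (l 16613776)) (l 16637760)) (a (l 16633024) (a (l 16612856) (l 16614136)))) (b (a (a (l 16579552) (l 16579448)) (l 16576328)) (a (l 16571152) (c (b (l 16588784) (l 16587600)) (b (l 16557808) (l 16556560)))))) (c (l 16642392) (l 16581320))) (a (c (l 16632904) (l 16570960)) (c (b (a (a (l 16613208) (l 16614496)) (l 16638512)) (a (l 16633728) (a (l 16613560) (l 16614856)))) (b (a (c (b (l 16589128) (l 16587936)) (b (l 16558136) (l 16556888))) (l 16577032)) (a (l 16571808) (c (b (l 16589472) (l 16588272)) (b (l 16558464) (l 16557208)))))))))) (c (b (l 16675984) (l 16618640)) (b (l 16617888) (c (l 16594960) (l 16565032)))))) (c (l 16717288) (c (a (l 16682168) (l 16737400)) (b (l 16610560) (l 16574856))))), by decide +kernel⟩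

def k219_pm_011 : ∃ t, chk3 f_pm_011 t 242 501 2 = true :=
  ⟨(a (b (b (b (l 16723960) (l 16681896)) (l 16724408)) (l 16725872)) (b (b (a (b (c (l 16763024) (a (a (l 16697016) (l 16700280)) (l 16706504))) (a (c (l 16757800) (b (a (l 16695968) (l 16697784)) (l 16696600))) (l 16712184))) (l 16725832)) (a (c (l 16759632) (a (l 16697024) (a (l 16698600) (l 16701024)))) (l 16740808))) (a (l 16729616) (c (a (l 16762888) (l 16767312)) (a (b (a (l 16700880) (l 16703304)) (l 16701616)) (b (l 16709008) (a (l 16703176) (l 16705600)))))))), by decide +kernel⟩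

def k220_pm_011 : ∃ t, chk3 f_pm_011 t 242 501 3 = true :=
  ⟨(a (b (b (b (c (l 16631808) (l 16569744)) (c (l 16631616) (l 16569504))) (c (l 16632200) (l 16570096))) (c (l 16633744) (l 16571696))) (b (b (b (a (a (c (a (a (l 16613920) (l 16615216)) (l 16639264)) (a (c (b (l 16589816) (l 16578128)) (b (l 16558800) (l 16568024))) (l 16577736))) (l 16584176)) (l 16587776)) (a (a (c (b (a (l 16634528) (c (l 16630896) (b (l 16621360) (l 16620624)))) (c (l 16650592) (l 16598792))) (b (a (l 16572584) (b (l 16574992) (a (l 16573240) (l 16575008)))) (a (l 16572704) (a (l 16573248) (l 16574144))))) (c (l 16621112) (b (l 16581760) (l 16579824)))) (c (l 16655728) (l 16595536)))) (a (a (c (l 16635624) (l 16573712)) (c (a (b (a (l 16615592) (l 16616904)) (l 16636912)) (b (l 16640992) (a (l 16616784) (l 16618104)))) (b (a (c (a (l 16590232) (l 16591624)) (a (l 16569664) (l 16560632))) (l 16579520)) (a (l 16575072) (c (a (l 16591472) (l 16592864)) (a (l 16560448) (l 16561896))))))) (c (l 16650720) (l 16590048)))) (a (c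 (l 16637832) (l 16576016)) (b (a (c (a (b (a (l 16638952) (l 16640272)) (l 16639320)) (b (l 16643384) (a (l 16640160) (l 16641472)))) (b (a (c (a (l 16592712) (l 16594112)) (a (l 16561720) (l 16563168))) (l 16582024)) (a (l 16577592) (c (a (l 16593960) (l 16595352)) (a (l 16563000) (l 16564448)))))) (l 16581448)) (a (l 16583448) (c (a (a (l 16610040) (b (l 16642680) (l 16641912))) (a (b (l 16644648) (l 16642576)) (l 16613992))) (b (a (c (a (l 16595208) (l 16596608)) (a (l 16564280) (l 16565728))) (l 16584552)) (a (l 16580136) (c (a (l 16596464) (l 16597864)) (a (l 16565568) (l 16567016))))))))))), by decide +kernel⟩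

def k221_pm_011 : ∃ t, chk3 f_pm_011 t 243 501 1 = true :=
  ⟨(a (c (b (c (l 16795760) (l 16738632)) (l 16735056)) (b (b (c (l 16663648) (b (l 16628928) (l 16624936))) (l 16585840)) (c (l 16667912) (l 16587584)))) (c (l 16771688) (b (b (b (l 16631608) (l 16670056)) (l 16664936)) (l 16612736)))), by decide +kernel⟩

def k222_pm_011 : ∃ t, chk3 f_pm_011 t 242 251 1 = true :=
  ⟨(c (c (l 16763288) (b (l 16701032) (l 16705320))) (b (b (c (l 16617688) (c (l 16592352) (l 16561312))) (c (l 16640816) (l 16579080))) (c (l 16623248) (c (l 16598064) (l 16567136))))), by decide +kernel⟩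

def k223_pm_011 : ∃ t, chk3 f_pm_011 t 243 251 2 = true :=
  ⟨(b (a (a (b (c (a (l 16767280) (l 16771688)) (a (a (l 16684800) (b (l 16707912) (l 16706576))) (a (b (l 16711504) (l 16707816)) (l 16692048)))) (l 16738696)) (b (l 16752624) (c (a (l 16771712) (l 16776112)) (a (a (l 16710456) (b (l 16712568) (l 16711272))) (b (l 16718248) (c (l 16729040) (l 16698952))))))) (l 16728792)) (a (l 16722088) (a (b (c (a (l 16776192) (l 16780584)) (a (b (c (l 16731376) (l 16701344)) (l 16715704)) (b (l 16722944) (l 16697784)))) (l 16747984)) (b (l 16761712) (c (l 16783448) (a (b (l 16721144) (l 16720512)) (b (l 16727704) (l 16723552)))))))), by decide +kernel⟩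

def k224_pm_011 : ∃ t, chk3 f_pm_011 t 243 502 3 = true :=
  ⟨(a (b (a (b (a (c (a (a (l 16622960) (b (l 16645104) (l 16644344))) (a (b (l 16647072) (l 16645008)) (l 16626904))) (b (a (c (a (l 16597728) (l 16599120)) (a (l 16566856) (l 16568304))) (l 16587096)) (a (l 16582688) (c (a (l 16598992) (l 16600384)) (a (l 16568152) (l 16569600)))))) (l 16581160)) (a (l 16583208) (c (a (a (l 16625408) (b (l 16647552) (l 16646800))) (b (l 16650656) (c (l 16663512) (l 16622536)))) (b (a (c (a (l 16600256) (l 16601656)) (a (l 16569448) (l 16570896))) (l 16589656)) (a (l 16585264) (c (a (l 16601536) (l 16602928)) (a (l 16570752) (l 16572200)))))))) (c (l 16663728) (l 16603856))) (a (c (l 16647632) (l 16586304)) (b (a (c (a (b (c (l 16664728) (l 16634264)) (l 16649088)) (b (l 16653104) (c (l 16665944) (l 16635512)))) (b (a (a (l 16574344) (l 16574448)) (l 16592232)) (a (l 16587856) (a (l 16575640) (l 16574440))))) (l 16586168)) (a (l 16577792) (c (a (b (c (l 16667168) (l 16636768)) (l 16651576)) (b (l 16655576) (c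 (l 16668392) (l 16638024)))) (b (a (a (l 16579560) (l 16575736)) (l 16594824)) (a (l 16590464) (a (l 16580872) (l 16582288))))))))) (c (b (l 16690688) (l 16677584)) (b (l 16633104) (l 16597744)))), by decide +kernel⟩

def k225_pm_011 : ∃ t, chk3 f_pm_011 t 243 503 3 = true :=
  ⟨(a (c (l 16631336) (b (l 16590168) (l 16592584))) (b (a (b (a (c (a (b (c (l 16669624) (l 16639288)) (l 16654072)) (b (l 16658056) (l 16634752))) (b (a (a (l 16582176) (l 16573112)) (l 16597432)) (a (l 16593088) (a (l 16573008) (l 16574424))))) (l 16591248)) (a (l 16603896) (c (a (b (l 16636000) (l 16656584)) (b (l 16660560) (l 16637264))) (b (a (a (l 16574328) (l 16575744)) (l 16600064)) (a (l 16595728) (a (l 16575648) (l 16577064))))))) (c (l 16673560) (l 16614184))) (a (c (l 16657688) (l 16596864)) (b (a (c (a (b (l 16638520) (l 16659112)) (b (l 16663072) (l 16639784))) (b (a (a (l 16576976) (l 16578392)) (l 16602712)) (a (l 16598392) (a (l 16578312) (l 16579720))))) (l 16596384)) (a (l 16609096) (c (a (b (l 16662024) (l 16661656))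 (b (l 16665600) (l 16663304))) (b (a (a (l 16579640) (l 16581056)) (l 16605368)) (a (l 16601064) (a (l 16580984) (l 16582392)))))))))), by decide +kernel⟩

def k226_pm_011 : ∃ t, chk3 f_pm_011 t 61 62 1 = true :=
  ⟨(b (c (b (a (l 16943168) (l 17036136)) (a (a (l 16888720) (l 16941664)) (l 17018032))) (a (a (b (l 16752904) (b (l 16767416) (l 16682984))) (b (l 16810104) (l 16778384))) (b (c (l 16991816) (l 16941008)) (b (l 16918488) (l 16904712))))) (b (c (a (b (a (l 16860200) (l 16917608)) (a (l 16838424) (l 16897384))) (b (l 16978840) (l 16981064))) (a (a (b (c (l 16766952) (l 16671080)) (c (l 16741408) (l 16637752))) (b (c (l 16853776) (l 16747848)) (l 16765416))) (b (a (l 16814776) (l 16899712)) (l 16865808)))) (a (c (a (b (l 16816912) (c (l 16822696) (l 16767392))) (l 16865984)) (a (a (c (b (l 16719680) (l 16652168)) (b (l 16643504) (b (l 16643296) (l 16608160)))) (c (l 16720936) (l 16604560))) (c (l 16772208) (l 16681216)))) (a (c (l 16923344) (l 16753584)) (l 16825584))))), by decide +kernel⟩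

def k227_pm_011 : ∃ t, chk3 f_pm_011 t 31 62 1 = true :=
  ⟨(a (a (b (c (l 17117608) (b (l 17058568) (l 17045976))) (c (b (b (l 17099800) (l 17082272)) (l 17053640)) (b (b (b (l 17054976) (l 17025800)) (l 17029672)) (l 16952392)))) (b (c (l 17197224) (l 7550398679)) (b (c (l 17177560) (b (l 17115416) (l 17136408))) (l 17101608)))) (b (l 1) (b (l 1) (l 150358021863)))), by decide +kernel⟩

def k228_pm_011 : ∃ t, chk3 f_pm_011 t 60 126 1 = true :=
  ⟨(c (b (a (c (l 16757592) (a (c (l 16706312) (l 16675360)) (l 16701696))) (a (a (l 16698024) (l 16724072)) (b (l 16687320) (l 16754928)))) (a (c (l 16767200) (a (l 16679864) (l 16711768))) (c (l 16787152) (a (l 16722440) (l 16732856))))) (a (b (c (a (b (l 16605288) (l 16610216)) (b (l 16616776) (l 16621768))) (b (a (l 16573960) (l 16575656)) (c (a (l 16584288) (l 16596368)) (l 14)))) (b (c (a (l 16615408) (l 16627024)) (c (a (l 16589632) (l 16601784)) (l 14))) (c (a (c (l 16657304) (l 16626352)) (l 16632544)) (a (l 14) (c (l 16607488) (l 14)))))) (c (b (b (a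 (l 16649000) (c (l 16675168) (l 16644928))) (a (l 16654040) (l 16665088))) (a (a (l 16638320) (l 16643944)) (c (l 16688168) (l 16658224)))) (b (b (a (l 16577096) (b (l 16575744) (l 16600560))) (a (c (l 16608184) (l 16577456)) (l 16578352))) (a (b (c (l 16613664) (l 16583048)) (c (l 16619424) (l 14))) (b (c (l 16625280) (l 16595016)) (c (l 16631088) (l 16600960)))))))), by decide +kernel⟩

def k229_pm_011 : ∃ t, chk3 f_pm_011 t 60 127 1 = true :=
  ⟨(c (a (b (c (l 16777736) (a (l 16711824) (l 16722840))) (c (l 16789192) (a (l 16702856) (l 16734920)))) (a (b (a (l 16760728) (l 16765848)) (l 16733176)) (b (l 16752432) (l 16785264)))) (a (c (b (a (c (b (l 16662976) (l 16668920)) (b (l 16632144) (l 16617248))) (c (l 16677496) (b (l 16644064) (l 16650192)))) (a (c (b (l 16675128) (l 16681608)) (b (a (l 14) (l 16647616)) (l 14))) (c (l 16690016) (b (l 16656608) (a (l 16660304) (l 16666272)))))) (a (l 14) (b (b (c (l 16592496) (l 14)) (l 14)) (l 14)))) (b (b (c (a (l 16670760) (l 16681928)) (a (c (l 16625464) (l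 14)) (c (l 16637184) (l 16586224)))) (c (a (l 16676864) (l 16688080)) (c (a (l 16610824) (l 16643560)) (l 14)))) (b (c (a (l 16662280) (l 16694496)) (c (a (a (l 14) (l 16641400)) (l 16650224)) (l 14))) (c (a (l 16668936) (l 16701192)) (a (l 14) (c (a (l 16654248) (l 16660104)) (l 14)))))))), by decide +kernel⟩

def k230_pm_011 : ∃ t, chk3 f_pm_011 t 244 252 2 = true :=
  ⟨(b (a (a (b (c (l 16788016) (a (b (l 16725968) (l 16725368)) (b (l 16732504) (l 16728400)))) (l 16757464)) (b (l 16770984) (a (b (l 16707984) (l 16759912)) (b (l 16766640) (l 16720864))))) (l 16789016)) (a (l 16762168) (a (b (c (l 16797280) (a (l 16714824) (l 16719576))) (l 16767144)) (b (l 16780448) (c (l 16801976) (a (l 16740792) (l 16745528))))))), by decide +kernel⟩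

def k231_pm_011 : ∃ t, chk3 f_pm_011 t 244 252 3 = true :=
  ⟨(a (b (b (a (b (a (c (a (b (l 16664576) (l 16664216)) (b (l 16668144) (l 16665856))) (b (a (a (l 16582328) (l 16583736)) (l 16608048)) (a (l 16603760) (a (l 16583680) (l 16585088))))) (l 16601592)) (a (l 16614360) (c (a (b (l 16667144) (l 16666792)) (b (l 16670704) (l 16668424))) (b (a (a (l 16606000) (l 16586440)) (l 16610744)) (a (l 16606472) (a (l 16607360) (l 16587792))))))) (c (l 16683624) (l 16624776))) (a (c (l 16667976) (l 16607704)) (b (a (c (a (b (l 16669720) (l 16669376)) (b (l 16673280) (l 16671016))) (b (a (a (l 16608720) (l 16610128)) (l 16613456)) (a (l 16609200) (a (l 16610088) (l 16611488))))) (l 16606856)) (a (l 16619680) (c (a (b (l 16672312) (l 16671984)) (b (l 16675864) (l 16673616))) (b (a (a (l 16611456) (l 16612856)) (l 16616184)) (a (l 16611944) (a (l 16612824) (l 16614232))))))))) (c (l 16673056) (b (l 16611864) (l 16614592)))) (b (c (l 16683160) (b (l 16653736) (l 16618832))) (b (a (b (a (c (c (l 16691392) (a (l 16660008)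 (l 16662648))) (b (a (a (l 16614208) (l 16615608)) (l 16618928)) (a (l 16614704) (a (l 16615584) (l 16616984))))) (l 16633152)) (a (l 16625072) (c (a (l 16656576) (l 16659160)) (b (a (a (l 16616976) (l 16618376)) (l 16621688)) (a (l 16617480) (a (l 16618360) (l 16619760))))))) (c (l 16693912) (l 16635624))) (a (c (l 16678512) (l 16618816)) (b (a (c (a (l 16680192) (l 16661800)) (b (a (a (l 16619760) (l 16621152)) (l 16624464)) (a (l 16620272) (a (l 16621152) (l 16622552))))) (l 16638544)) (a (l 16630528) (c (a (l 16682848) (l 16685424)) (b (a (a (l 16622560) (l 16623952)) (l 16627264)) (a (l 16623088) (a (l 16623968) (l 16625360))))))))))), by decide +kernel⟩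

def k232_pm_011 : ∃ t, chk3 f_pm_011 t 244 253 1 = true :=
  ⟨(b (c (l 16769784) (c (l 16660360) (c (l 16615728) (a (l 16603816) (l 16609424))))) (c (l 16774960) (c (l 16686920) (c (l 16642488) (l 16612704))))), by decide +kernel⟩

def k233_pm_011 : ∃ t, chk3 f_pm_011 t 245 252 1 = true :=
  ⟨(c (b (l 16834552) (l 16771552)) (c (b (l 16756328) (a (l 16714360) (l 16749040))) (b (l 16619744) (c (a (l 16671944) (l 16708864)) (l 16594520))))), by decide +kernel⟩

def k234_pm_011 : ∃ t, chk3 f_pm_011 t 245 253 1 = true :=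
  ⟨(c (a (b (a (b (c (l 16806712) (a (l 16745832) (l 16750552))) (l 16777008)) (b (l 16790080) (a (l 16737992) (l 16742480)))) (l 16782040)) (b (l 16807968) (a (b (a (l 16763944) (l 16768416)) (l 16787056)) (b (l 16799888) (a (l 16789952) (l 16794400)))))) (a (b (b (a (b (a (c (a (l 16685520) (l 16688088)) (b (a (a (l 16625376) (l 16626768)) (l 16630072)) (a (l 16625912) (a (l 16626792) (l 16628184))))) (l 16643984)) (a (l 16636040) (c (a (l 16688200) (l 16690768)) (b (a (a (l 16628208) (l 16629600)) (l 16632896)) (a (l 16628752) (a (l 16629632) (l 16631024))))))) (l 16612720)) (b (a (l 16638152) (a (a (b (c (l 16690872) (a (l 16631056) (l 16632448))) (l 16640200)) (b (l 16644152) (c (l 16692224) (a (l 16632488) (l 16633872))))) (l 16649496))) (a (l 16639584) (a (l 16641608) (a (b (c (l 16693584) (a (l 16633920) (l 16635312))) (l 16663968)) (b (l 16646928) (c (l 16694944) (a (l 16635360) (l 16636744))))))))) (c (l 16694744) (c (l 16650688) (l 16621168)))) (b (c (l 16724792) (b (l 16675304) (l 16661864)))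 (b (b (a (a (a (b (c (l 16696304) (a (l 16636808) (l 16638184))) (l 16666784)) (b (l 16649728) (c (l 16697672) (a (l 16638248) (l 16639632))))) (l 16655056)) (l 16668840)) (a (a (l 16647248) (a (b (c (l 16699040) (a (l 16639704) (l 16641080))) (l 16669608)) (b (l 16652536) (c (l 16700416) (a (l 16641152) (l 16642536)))))) (l 16641480))) (b (a (l 16649424) (a (a (b (c (l 16701792) (a (l 16642616) (l 16643992))) (l 16672448)) (b (l 16676328) (c (l 16703176) (a (l 16644080) (l 16645456))))) (l 16660680))) (a (l 16650928) (a (l 16652936) (c (c (l 16720624) (l 16691736)) (b (a (a (l 16645544) (l 16646920)) (l 16650176)) (a (l 16646144) (c (l 16662432) (l 16622792)))))))))))), by decide +kernel⟩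

def k235_pm_011 : ∃ t, chk3 f_pm_011 t 123 126 1 = true :=
  ⟨(c (b (l 16785560) (a (b (l 16852728) (l 16832496)) (l 16900384))) (a (b (c (l 16811672) (l 16700720)) (b (l 16645584) (a (c (l 16735432) (b (l 16686424) (l 16673248))) (l 16680448)))) (b (l 16771272) (l 16712944)))), by decide +kernel⟩

def k236_pm_011 : ∃ t, chk3 f_pm_011 t 122 127 1 = true :=
  ⟨(c (b (c (l 16816992) (a (l 16754256) (l 16763576))) (c (l 16828312) (l 16771464))) (b (a (c (l 16674920) (a (b (l 16630952) (l 16637440)) (b (l 16636688) (l 16643200)))) (b (c (l 16703536) (c (l 16659856) (a (l 16627664) (l 16633168)))) (c (l 16709672) (c (l 16666240) (l 16637128))))) (c (a (l 16687824) (l 16719480)) (a (c (b (l 16661744) (l 16668728)) (b (a (l 14) (l 16635376)) (l 14))) (a (b (l 16655704) (l 16641832)) (b (l 16661336) (l 16668448))))))), by decide +kernel⟩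

def k237_pm_011 : ∃ t, chk3 f_pm_011 t 246 127 1 = true :=
  ⟨(b (c (a (b (a (a (l 16754016) (b (l 16799456) (l 16797872))) (b (l 16809856) (c (l 16831008) (l 16774664)))) (l 16802624)) (b (l 16827552) (a (b (c (l 16835984) (l 16779976)) (l 16807664)) (b (l 16819984) (l 16771280))))) (a (b (b (b (a (a (c (c (l 16723368) (l 16694552)) (b (a (c (l 16663888) (l 16613800)) (l 16653112)) (a (l 16649104) (c (l 16665344) (l 16615296))))) (l 16666360)) (l 16680032)) (a (a (l 16658688) (c (l 16690792) (b (a (c (l 16666800) (l 16637768)) (l 16656064)) (a (l 16652072) (c (l 16668264) (l 16639280)))))) (l 16673768))) (b (a (l 16660936) (a (c (l 16714576) (a (b (c (l 16669736) (l 16640784)) (l 16655056)) (b (l 16659032) (c (l 16671208) (l 16642296))))) (l 16672096))) (a (l 16662512) (a (l 16664504) (c (l 16717392) (a (b (c (l 16672680) (l 16643816)) (l 16658056)) (b (l 16662008) (c (l 16674160) (l 16645336))))))))) (c (l 16717328) (c (l 16674280) (l 16645432)))) (b (c (l 16746264) (b (l 16697768) (l 16684864))) (b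 (b (a (a (c (l 16720224) (a (b (c (l 16675640) (l 16646864)) (l 16661072)) (b (l 16665008) (c (l 16677128) (l 16648392))))) (l 16677888)) (l 16712408)) (a (a (l 16691336) (c (l 16723072) (a (b (c (l 16678616) (l 16649928)) (l 16664096)) (b (l 16668016) (l 16644832))))) (l 16685312))) (b (a (l 16672672) (a (c (l 16725928) (a (b (l 16646344) (l 16667144)) (b (l 16671040) (l 16647872)))) (l 16704704))) (a (l 16695296) (a (l 16697264) (c (l 16728800) (a (b (l 16649392) (l 16670200)) (b (l 16674080) (l 16650928))))))))))) (c (l 16771528) (a (c (l 16727328) (c (l 16684704) (l 16656136))) (c (l 16732072) (b (l 16651232) (l 16679528)))))), by decide +kernel⟩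

def k238_pm_011 : ∃ t, chk3 f_pm_011 t 247 127 1 = true :=
  ⟨(b (c (b (l 16871416) (l 16852064)) (b (l 16666704) (c (l 16773952) (l 16637448)))) (c (a (b (a (b (l 16818448) (l 16818224)) (b (l 16830272) (l 16823712))) (l 16823880)) (b (l 16847720) (c (l 16861824) (a (l 16802160) (l 16811112))))) (a (b (b (b (a (a (a (c (l 16730128) (b (l 16652456) (l 16673280))) (c (l 16732616) (b (l 16677136) (l 16674968)))) (l 16710608)) (l 16724024)) (a (a (l 16703240) (a (c (l 16733032) (b (l 16676504) (l 16676368))) (c (l 16735512) (b (l 16680200) (l 16678048))))) (l 16697064))) (a (l 16685448) (c (a (l 16716736) (l 16721672)) (b (b (a (a (l 16679600) (l 16683288)) (l 16690288)) (a (a (l 16679472) (l 16681152)) (l 16687160))) (b (a (l 16680696) (a (l 16682704) (l 16686384))) (a (l 16681584) (a (l 16682592) (l 16684264)))))))) (c (l 16740760) (l 16663800))) (b (c (l 16768488) (l 16673176)) (b (a (c (a (l 16743584) (l 16748496)) (a (b (a (b (l 16685824) (l 16685720)) (b (l 16689496) (l 16687392))) (l 16687400)) (b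 (l 16694928) (c (l 16704680) (a (b (l 16674968) (l 16674864)) (l 16667320)))))) (l 16712000)) (a (l 16697664) (c (a (l 16749504) (l 16754392)) (a (b (c (l 16707776) (a (l 16678288) (l 16681000))) (l 16693736)) (b (l 16701176) (c (l 16710896) (a (l 16681504) (l 16684208)))))))))))), by decide +kernel⟩

def k239_pm_011 : ∃ t, chk3 f_pm_011 t 31 63 1 = true :=
  ⟨(a (b (c (a (l 16913864) (l 17089272)) (b (a (c (l 16965184) (l 16909832)) (l 17057800)) (a (a (l 16788552) (l 16931744)) (l 16993560)))) (a (c (b (l 16943040) (a (l 16860264) (l 16932632))) (a (b (l 16721768) (a (b (l 16734288) (a (l 16681896) (l 16740848))) (b (l 16808480) (l 16765072)))) (b (l 16866512) (l 16738888)))) (c (l 16979192) (b (l 16930280) (l 16867808))))) (a (b (c (l 17170376) (l 17093064)) (c (l 17105576) (l 16991472))) (b (l 17127464) (l 17099360)))), by decide +kernel⟩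

theorem s240_pm_011 : ∃ t, chk3 f_pm_011 t 123 127 1 = true := ex3_a k237_pm_011 k238_pm_011

theorem s241_pm_011 : ∃ t, chk3 f_pm_011 t 61 127 1 = true := ex3_a k236_pm_011 s240_pm_011

theorem s242_pm_011 : ∃ t, chk3 f_pm_011 t 245 126 1 = true := ex3_b k233_pm_011 k234_pm_011

theorem s243_pm_011 : ∃ t, chk3 f_pm_011 t 244 252 1 = true := ex3_c k230_pm_011 k231_pm_011

theorem s244_pm_011 : ∃ t, chk3 f_pm_011 t 244 126 1 = true := ex3_b s243_pm_011 k232_pm_011

theorem s245_pm_011 : ∃ t, chk3 f_pm_011 t 122 126 1 = true := ex3_a s244_pm_011 s242_pm_011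

theorem s246_pm_011 : ∃ t, chk3 f_pm_011 t 61 126 1 = true := ex3_a s245_pm_011 k235_pm_011

theorem s247_pm_011 : ∃ t, chk3 f_pm_011 t 61 63 1 = true := ex3_b s246_pm_011 s241_pm_011

theorem s248_pm_011 : ∃ t, chk3 f_pm_011 t 60 63 1 = true := ex3_b k228_pm_011 k229_pm_011

theorem s249_pm_011 : ∃ t, chk3 f_pm_011 t 30 63 1 = true := ex3_a s248_pm_011 s247_pm_011

theorem s250_pm_011 : ∃ t, chk3 f_pm_011 t 15 63 1 = true := ex3_a s249_pm_011 k239_pm_011

theorem s251_pm_011 : ∃ t, chk3 f_pm_011 t 243 251 3 = true := ex3_b k224_pm_011 k225_pm_011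

theorem s252_pm_011 : ∃ t, chk3 f_pm_011 t 243 251 1 = true := ex3_c k223_pm_011 s251_pm_011

theorem s253_pm_011 : ∃ t, chk3 f_pm_011 t 121 251 1 = true := ex3_a k222_pm_011 s252_pm_011

theorem s254_pm_011 : ∃ t, chk3 f_pm_011 t 242 501 1 = true := ex3_c k219_pm_011 k220_pm_011

theorem s255_pm_011 : ∃ t, chk3 f_pm_011 t 121 501 1 = true := ex3_a s254_pm_011 k221_pm_011

theorem s256_pm_011 : ∃ t, chk3 f_pm_011 t 121 250 1 = true := ex3_b k218_pm_011 s255_pm_011

theorem s257_pm_011 : ∃ t, chk3 f_pm_011 t 121 125 1 = true := ex3_b s256_pm_011 s253_pm_011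

theorem s258_pm_011 : ∃ t, chk3 f_pm_011 t 60 125 1 = true := ex3_a k217_pm_011 s257_pm_011

theorem s259_pm_011 : ∃ t, chk3 f_pm_011 t 241 249 1 = true := ex3_b k214_pm_011 k215_pm_011

theorem s260_pm_011 : ∃ t, chk3 f_pm_011 t 120 249 1 = true := ex3_a k213_pm_011 s259_pm_011

theorem s261_pm_011 : ∃ t, chk3 f_pm_011 t 240 248 1 = true := ex3_b k210_pm_011 k211_pm_011

theorem s262_pm_011 : ∃ t, chk3 f_pm_011 t 120 248 1 = true := ex3_a s261_pm_011 k212_pm_011

theorem s263_pm_011 : ∃ t, chk3 f_pm_011 t 120 124 1 = true := ex3_b s262_pm_011 s260_pm_011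

theorem s264_pm_011 : ∃ t, chk3 f_pm_011 t 60 124 1 = true := ex3_a s263_pm_011 k216_pm_011

theorem s265_pm_011 : ∃ t, chk3 f_pm_011 t 60 62 1 = true := ex3_b s264_pm_011 s258_pm_011

theorem s266_pm_011 : ∃ t, chk3 f_pm_011 t 30 62 1 = true := ex3_a s265_pm_011 k226_pm_011

theorem s267_pm_011 : ∃ t, chk3 f_pm_011 t 15 62 1 = true := ex3_a s266_pm_011 k227_pm_011

theorem s268_pm_011 : ∃ t, chk3 f_pm_011 t 15 31 1 = true := ex3_b s267_pm_011 s250_pm_011

theorem s269_pm_011 : ∃ t, chk3 f_pm_011 t 15 15 1 = true := ex3_b k209_pm_011 s268_pm_011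

theorem s270_pm_011 : ∃ t, chk3 f_pm_011 t 59 63 1 = true := ex3_c k207_pm_011 k208_pm_011

theorem s271_pm_011 : ∃ t, chk3 f_pm_011 t 29 63 1 = true := ex3_a k206_pm_011 s270_pm_011

theorem s272_pm_011 : ∃ t, chk3 f_pm_011 t 28 63 1 = true := ex3_a k204_pm_011 k205_pm_011

theorem s273_pm_011 : ∃ t, chk3 f_pm_011 t 14 63 1 = true := ex3_a s272_pm_011 s271_pm_011

theorem s274_pm_011 : ∃ t, chk3 f_pm_011 t 59 125 1 = true := ex3_b k202_pm_011 k203_pm_011

theorem s275_pm_011 : ∃ t, chk3 f_pm_011 t 29 125 1 = true := ex3_a k201_pm_011 s274_pm_011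

theorem s276_pm_011 : ∃ t, chk3 f_pm_011 t 29 124 1 = true := ex3_a k199_pm_011 k200_pm_011

theorem s277_pm_011 : ∃ t, chk3 f_pm_011 t 29 62 1 = true := ex3_b s276_pm_011 s275_pm_011

theorem s278_pm_011 : ∃ t, chk3 f_pm_011 t 57 62 1 = true := ex3_b k197_pm_011 k198_pm_011

theorem s279_pm_011 : ∃ t, chk3 f_pm_011 t 28 62 1 = true := ex3_a k196_pm_011 s278_pm_011

theorem s280_pm_011 : ∃ t, chk3 f_pm_011 t 14 62 1 = true := ex3_a s279_pm_011 s277_pm_011

theorem s281_pm_011 : ∃ t, chk3 f_pm_011 t 14 31 1 = true := ex3_b s280_pm_011 s273_pm_011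

theorem s282_pm_011 : ∃ t, chk3 f_pm_011 t 119 247 1 = true := ex3_a k194_pm_011 k195_pm_011

theorem s283_pm_011 : ∃ t, chk3 f_pm_011 t 119 123 1 = true := ex3_b k193_pm_011 s282_pm_011

theorem s284_pm_011 : ∃ t, chk3 f_pm_011 t 59 123 1 = true := ex3_a k192_pm_011 s283_pm_011

theorem s285_pm_011 : ∃ t, chk3 f_pm_011 t 118 122 1 = true := ex3_b k189_pm_011 k190_pm_011

theorem s286_pm_011 : ∃ t, chk3 f_pm_011 t 59 122 1 = true := ex3_a s285_pm_011 k191_pm_011

theorem s287_pm_011 : ∃ t, chk3 f_pm_011 t 59 61 1 = true := ex3_b s286_pm_011 s284_pm_011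

theorem s288_pm_011 : ∃ t, chk3 f_pm_011 t 29 61 1 = true := ex3_a k188_pm_011 s287_pm_011

theorem s289_pm_011 : ∃ t, chk3 f_pm_011 t 58 60 1 = true := ex3_b k185_pm_011 k186_pm_011

theorem s290_pm_011 : ∃ t, chk3 f_pm_011 t 29 60 1 = true := ex3_a s289_pm_011 k187_pm_011

theorem s291_pm_011 : ∃ t, chk3 f_pm_011 t 29 30 1 = true := ex3_b s290_pm_011 s288_pm_011

theorem s292_pm_011 : ∃ t, chk3 f_pm_011 t 28 61 1 = true := ex3_a k183_pm_011 k184_pm_011

theorem s293_pm_011 : ∃ t, chk3 f_pm_011 t 28 30 1 = true := ex3_b k182_pm_011 s292_pm_011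

theorem s294_pm_011 : ∃ t, chk3 f_pm_011 t 14 30 1 = true := ex3_a s293_pm_011 s291_pm_011

theorem s295_pm_011 : ∃ t, chk3 f_pm_011 t 14 15 1 = true := ex3_b s294_pm_011 s281_pm_011

theorem s296_pm_011 : ∃ t, chk3 f_pm_011 t 7 15 1 = true := ex3_a s295_pm_011 s269_pm_011

theorem s297_pm_011 : ∃ t, chk3 f_pm_011 t 29 29 1 = true := ex3_b k179_pm_011 k180_pm_011

theorem s298_pm_011 : ∃ t, chk3 f_pm_011 t 28 59 1 = true := ex3_a k177_pm_011 k178_pm_011

theorem s299_pm_011 : ∃ t, chk3 f_pm_011 t 28 29 1 = true := ex3_b k176_pm_011 s298_pm_011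

theorem s300_pm_011 : ∃ t, chk3 f_pm_011 t 14 29 1 = true := ex3_a s299_pm_011 s297_pm_011

theorem s301_pm_011 : ∃ t, chk3 f_pm_011 t 14 14 1 = true := ex3_b k175_pm_011 s300_pm_011

theorem s302_pm_011 : ∃ t, chk3 f_pm_011 t 7 14 1 = true := ex3_a s301_pm_011 k181_pm_011

theorem s303_pm_011 : ∃ t, chk3 f_pm_011 t 7 7 1 = true := ex3_b s302_pm_011 s296_pm_011

theorem s304_pm_011 : ∃ t, chk3 f_pm_011 t 27 63 1 = true := ex3_a k173_pm_011 k174_pm_011

theorem s305_pm_011 : ∃ t, chk3 f_pm_011 t 26 63 1 = true := ex3_a k171_pm_011 k172_pm_011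

theorem s306_pm_011 : ∃ t, chk3 f_pm_011 t 13 63 1 = true := ex3_a s305_pm_011 s304_pm_011

theorem s307_pm_011 : ∃ t, chk3 f_pm_011 t 13 31 1 = true := ex3_b k170_pm_011 s306_pm_011

theorem s308_pm_011 : ∃ t, chk3 f_pm_011 t 13 30 1 = true := ex3_a k168_pm_011 k169_pm_011

theorem s309_pm_011 : ∃ t, chk3 f_pm_011 t 13 15 1 = true := ex3_b s308_pm_011 s307_pm_011

theorem s310_pm_011 : ∃ t, chk3 f_pm_011 t 12 63 1 = true := ex3_a k166_pm_011 k167_pm_011

theorem s311_pm_011 : ∃ t, chk3 f_pm_011 t 12 31 1 = true := ex3_b k165_pm_011 s310_pm_011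

theorem s312_pm_011 : ∃ t, chk3 f_pm_011 t 12 15 1 = true := ex3_b k164_pm_011 s311_pm_011

theorem s313_pm_011 : ∃ t, chk3 f_pm_011 t 6 15 1 = true := ex3_a s312_pm_011 s309_pm_011

theorem s314_pm_011 : ∃ t, chk3 f_pm_011 t 13 29 1 = true := ex3_a k162_pm_011 k163_pm_011

theorem s315_pm_011 : ∃ t, chk3 f_pm_011 t 6 29 1 = true := ex3_a k161_pm_011 s314_pm_011

theorem s316_pm_011 : ∃ t, chk3 f_pm_011 t 6 14 1 = true := ex3_b k160_pm_011 s315_pm_011

theorem s317_pm_011 : ∃ t, chk3 f_pm_011 t 6 7 1 = true := ex3_b s316_pm_011 s313_pm_011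

theorem s318_pm_011 : ∃ t, chk3 f_pm_011 t 3 7 1 = true := ex3_a s317_pm_011 s303_pm_011

theorem s319_pm_011 : ∃ t, chk3 f_pm_011 t 12 13 1 = true := ex3_b k156_pm_011 k157_pm_011

theorem s320_pm_011 : ∃ t, chk3 f_pm_011 t 6 13 1 = true := ex3_a s319_pm_011 k158_pm_011

theorem s321_pm_011 : ∃ t, chk3 f_pm_011 t 6 6 1 = true := ex3_b k155_pm_011 s320_pm_011

theorem s322_pm_011 : ∃ t, chk3 f_pm_011 t 3 6 1 = true := ex3_a s321_pm_011 k159_pm_011

theorem s323_pm_011 : ∃ t, chk3 f_pm_011 t 3 3 1 = true := ex3_b s322_pm_011 s318_pm_011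

theorem s324_pm_011 : ∃ t, chk3 f_pm_011 t 3 1 1 = true := ex3_b k154_pm_011 s323_pm_011

theorem s325_pm_011 : ∃ t, chk3 f_pm_011 t 11 15 1 = true := ex3_b k152_pm_011 k153_pm_011

theorem s326_pm_011 : ∃ t, chk3 f_pm_011 t 10 31 1 = true := ex3_b k150_pm_011 k151_pm_011

theorem s327_pm_011 : ∃ t, chk3 f_pm_011 t 10 30 1 = true := ex3_b k148_pm_011 k149_pm_011

theorem s328_pm_011 : ∃ t, chk3 f_pm_011 t 10 15 1 = true := ex3_b s327_pm_011 s326_pm_011

theorem s329_pm_011 : ∃ t, chk3 f_pm_011 t 5 15 1 = true := ex3_a s328_pm_011 s325_pm_011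

theorem s330_pm_011 : ∃ t, chk3 f_pm_011 t 22 28 1 = true := ex3_b k144_pm_011 k145_pm_011

theorem s331_pm_011 : ∃ t, chk3 f_pm_011 t 11 28 1 = true := ex3_a s330_pm_011 k146_pm_011

theorem s332_pm_011 : ∃ t, chk3 f_pm_011 t 11 14 1 = true := ex3_b s331_pm_011 k147_pm_011

theorem s333_pm_011 : ∃ t, chk3 f_pm_011 t 21 29 1 = true := ex3_b k142_pm_011 k143_pm_011

theorem s334_pm_011 : ∃ t, chk3 f_pm_011 t 40 118 1 = true := ex3_a k138_pm_011 k139_pm_011

theorem s335_pm_011 : ∃ t, chk3 f_pm_011 t 40 59 1 = true := ex3_b s334_pm_011 k140_pm_011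

theorem s336_pm_011 : ∃ t, chk3 f_pm_011 t 20 59 1 = true := ex3_a s335_pm_011 k141_pm_011

theorem s337_pm_011 : ∃ t, chk3 f_pm_011 t 41 58 1 = true := ex3_b k136_pm_011 k137_pm_011

theorem s338_pm_011 : ∃ t, chk3 f_pm_011 t 20 58 1 = true := ex3_a k135_pm_011 s337_pm_011

theorem s339_pm_011 : ∃ t, chk3 f_pm_011 t 20 29 1 = true := ex3_b s338_pm_011 s336_pm_011

theorem s340_pm_011 : ∃ t, chk3 f_pm_011 t 10 29 1 = true := ex3_a s339_pm_011 s333_pm_011

theorem s341_pm_011 : ∃ t, chk3 f_pm_011 t 21 57 1 = true := ex3_a k133_pm_011 k134_pm_011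

theorem s342_pm_011 : ∃ t, chk3 f_pm_011 t 21 28 1 = true := ex3_b k132_pm_011 s341_pm_011

theorem s343_pm_011 : ∃ t, chk3 f_pm_011 t 10 28 1 = true := ex3_a k131_pm_011 s342_pm_011

theorem s344_pm_011 : ∃ t, chk3 f_pm_011 t 10 14 1 = true := ex3_b s343_pm_011 s340_pm_011

theorem s345_pm_011 : ∃ t, chk3 f_pm_011 t 5 14 1 = true := ex3_a s344_pm_011 s332_pm_011

theorem s346_pm_011 : ∃ t, chk3 f_pm_011 t 5 7 1 = true := ex3_b s345_pm_011 s329_pm_011

theorem s347_pm_011 : ∃ t, chk3 f_pm_011 t 5 3 1 = true := ex3_b k130_pm_011 s346_pm_011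

theorem s348_pm_011 : ∃ t, chk3 f_pm_011 t 19 62 1 = true := ex3_b k127_pm_011 k128_pm_011

theorem s349_pm_011 : ∃ t, chk3 f_pm_011 t 19 31 1 = true := ex3_b s348_pm_011 k129_pm_011

theorem s350_pm_011 : ∃ t, chk3 f_pm_011 t 18 124 1 = true := ex3_a k123_pm_011 k124_pm_011

theorem s351_pm_011 : ∃ t, chk3 f_pm_011 t 18 62 1 = true := ex3_b s350_pm_011 k125_pm_011

theorem s352_pm_011 : ∃ t, chk3 f_pm_011 t 18 31 1 = true := ex3_b s351_pm_011 k126_pm_011

theorem s353_pm_011 : ∃ t, chk3 f_pm_011 t 9 31 1 = true := ex3_a s352_pm_011 s349_pm_011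

theorem s354_pm_011 : ∃ t, chk3 f_pm_011 t 39 60 1 = true := ex3_b k120_pm_011 k121_pm_011

theorem s355_pm_011 : ∃ t, chk3 f_pm_011 t 76 242 1 = true := ex3_a k116_pm_011 k117_pm_011

theorem s356_pm_011 : ∃ t, chk3 f_pm_011 t 76 121 1 = true := ex3_b s355_pm_011 k118_pm_011

theorem s357_pm_011 : ∃ t, chk3 f_pm_011 t 38 121 1 = true := ex3_a s356_pm_011 k119_pm_011

theorem s358_pm_011 : ∃ t, chk3 f_pm_011 t 77 241 1 = true := ex3_a k114_pm_011 k115_pm_011

theorem s359_pm_011 : ∃ t, chk3 f_pm_011 t 77 120 1 = true := ex3_b k113_pm_011 s358_pm_011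

theorem s360_pm_011 : ∃ t, chk3 f_pm_011 t 38 120 1 = true := ex3_a k112_pm_011 s359_pm_011

theorem s361_pm_011 : ∃ t, chk3 f_pm_011 t 38 60 1 = true := ex3_b s360_pm_011 s357_pm_011

theorem s362_pm_011 : ∃ t, chk3 f_pm_011 t 19 60 1 = true := ex3_a s361_pm_011 s354_pm_011

theorem s363_pm_011 : ∃ t, chk3 f_pm_011 t 19 30 1 = true := ex3_b s362_pm_011 k122_pm_011

theorem s364_pm_011 : ∃ t, chk3 f_pm_011 t 149 244 1 = true := ex3_b k107_pm_011 k108_pm_011

theorem s365_pm_011 : ∃ t, chk3 f_pm_011 t 74 244 1 = true := ex3_a k106_pm_011 s364_pm_011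

theorem s366_pm_011 : ∃ t, chk3 f_pm_011 t 74 122 1 = true := ex3_b s365_pm_011 k109_pm_011

theorem s367_pm_011 : ∃ t, chk3 f_pm_011 t 37 122 1 = true := ex3_a s366_pm_011 k110_pm_011

theorem s368_pm_011 : ∃ t, chk3 f_pm_011 t 37 61 1 = true := ex3_b s367_pm_011 k111_pm_011

theorem s369_pm_011 : ∃ t, chk3 f_pm_011 t 146 492 1 = true := ex3_a k101_pm_011 k102_pm_011

theorem s370_pm_011 : ∃ t, chk3 f_pm_011 t 146 246 1 = true := ex3_b s369_pm_011 k103_pm_011

theorem s371_pm_011 : ∃ t, chk3 f_pm_011 t 73 246 1 = true := ex3_a s370_pm_011 k104_pm_011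

theorem s372_pm_011 : ∃ t, chk3 f_pm_011 t 73 123 1 = true := ex3_b s371_pm_011 k105_pm_011

theorem s373_pm_011 : ∃ t, chk3 f_pm_011 t 144 494 1 = true := ex3_a k97_pm_011 k98_pm_011

theorem s374_pm_011 : ∃ t, chk3 f_pm_011 t 144 247 1 = true := ex3_b s373_pm_011 k99_pm_011

theorem s375_pm_011 : ∃ t, chk3 f_pm_011 t 72 247 1 = true := ex3_a s374_pm_011 k100_pm_011

theorem s376_pm_011 : ∃ t, chk3 f_pm_011 t 145 493 1 = true := ex3_a k95_pm_011 k96_pm_011

theorem s377_pm_011 : ∃ t, chk3 f_pm_011 t 145 246 1 = true := ex3_b k94_pm_011 s376_pm_011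

theorem s378_pm_011 : ∃ t, chk3 f_pm_011 t 72 246 1 = true := ex3_a k93_pm_011 s377_pm_011

theorem s379_pm_011 : ∃ t, chk3 f_pm_011 t 72 123 1 = true := ex3_b s378_pm_011 s375_pm_011

theorem s380_pm_011 : ∃ t, chk3 f_pm_011 t 36 123 1 = true := ex3_a s379_pm_011 s372_pm_011

theorem s381_pm_011 : ∃ t, chk3 f_pm_011 t 147 245 1 = true := ex3_b k91_pm_011 k92_pm_011

theorem s382_pm_011 : ∃ t, chk3 f_pm_011 t 73 245 1 = true := ex3_a k90_pm_011 s381_pm_011

theorem s383_pm_011 : ∃ t, chk3 f_pm_011 t 73 122 1 = true := ex3_b k89_pm_011 s382_pm_011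

theorem s384_pm_011 : ∃ t, chk3 f_pm_011 t 36 122 1 = true := ex3_a k88_pm_011 s383_pm_011

theorem s385_pm_011 : ∃ t, chk3 f_pm_011 t 36 61 1 = true := ex3_b s384_pm_011 s380_pm_011

theorem s386_pm_011 : ∃ t, chk3 f_pm_011 t 18 61 1 = true := ex3_a s385_pm_011 s368_pm_011

theorem s387_pm_011 : ∃ t, chk3 f_pm_011 t 75 243 1 = true := ex3_a k86_pm_011 k87_pm_011

theorem s388_pm_011 : ∃ t, chk3 f_pm_011 t 75 121 1 = true := ex3_b k85_pm_011 s387_pm_011

theorem s389_pm_011 : ∃ t, chk3 f_pm_011 t 37 121 1 = true := ex3_a k84_pm_011 s388_pm_011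

theorem s390_pm_011 : ∃ t, chk3 f_pm_011 t 37 60 1 = true := ex3_b k83_pm_011 s389_pm_011

theorem s391_pm_011 : ∃ t, chk3 f_pm_011 t 18 60 1 = true := ex3_a k82_pm_011 s390_pm_011

theorem s392_pm_011 : ∃ t, chk3 f_pm_011 t 18 30 1 = true := ex3_b s391_pm_011 s386_pm_011

theorem s393_pm_011 : ∃ t, chk3 f_pm_011 t 9 30 1 = true := ex3_a s392_pm_011 s363_pm_011

theorem s394_pm_011 : ∃ t, chk3 f_pm_011 t 9 15 1 = true := ex3_b s393_pm_011 s353_pm_011

theorem s395_pm_011 : ∃ t, chk3 f_pm_011 t 17 63 1 = true := ex3_b k80_pm_011 k81_pm_011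

theorem s396_pm_011 : ∃ t, chk3 f_pm_011 t 70 125 1 = true := ex3_b k77_pm_011 k78_pm_011

theorem s397_pm_011 : ∃ t, chk3 f_pm_011 t 35 125 1 = true := ex3_a s396_pm_011 k79_pm_011

theorem s398_pm_011 : ∃ t, chk3 f_pm_011 t 143 248 1 = true := ex3_b k74_pm_011 k75_pm_011

theorem s399_pm_011 : ∃ t, chk3 f_pm_011 t 284 994 1 = true := ex3_c k70_pm_011 k71_pm_011

theorem s400_pm_011 : ∃ t, chk3 f_pm_011 t 284 497 1 = true := ex3_b s399_pm_011 k72_pm_011

theorem s401_pm_011 : ∃ t, chk3 f_pm_011 t 142 497 1 = true := ex3_a s400_pm_011 k73_pm_011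

theorem s402_pm_011 : ∃ t, chk3 f_pm_011 t 285 496 1 = true := ex3_b k68_pm_011 k69_pm_011

theorem s403_pm_011 : ∃ t, chk3 f_pm_011 t 142 496 1 = true := ex3_a k67_pm_011 s402_pm_011

theorem s404_pm_011 : ∃ t, chk3 f_pm_011 t 142 248 1 = true := ex3_b s403_pm_011 s401_pm_011

theorem s405_pm_011 : ∃ t, chk3 f_pm_011 t 71 248 1 = true := ex3_a s404_pm_011 s398_pm_011

theorem s406_pm_011 : ∃ t, chk3 f_pm_011 t 71 124 1 = true := ex3_b s405_pm_011 k76_pm_011

theorem s407_pm_011 : ∃ t, chk3 f_pm_011 t 282 996 1 = true := ex3_c k62_pm_011 k63_pm_011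

theorem s408_pm_011 : ∃ t, chk3 f_pm_011 t 282 498 1 = true := ex3_b s407_pm_011 k64_pm_011

theorem s409_pm_011 : ∃ t, chk3 f_pm_011 t 141 498 1 = true := ex3_a s408_pm_011 k65_pm_011

theorem s410_pm_011 : ∃ t, chk3 f_pm_011 t 141 249 1 = true := ex3_b s409_pm_011 k66_pm_011

theorem s411_pm_011 : ∃ t, chk3 f_pm_011 t 280 998 1 = true := ex3_a k58_pm_011 k59_pm_011

theorem s412_pm_011 : ∃ t, chk3 f_pm_011 t 280 499 1 = true := ex3_b s411_pm_011 k60_pm_011

theorem s413_pm_011 : ∃ t, chk3 f_pm_011 t 140 499 1 = true := ex3_a s412_pm_011 k61_pm_011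

theorem s414_pm_011 : ∃ t, chk3 f_pm_011 t 281 997 1 = true := ex3_a k56_pm_011 k57_pm_011

theorem s415_pm_011 : ∃ t, chk3 f_pm_011 t 281 498 1 = true := ex3_b k55_pm_011 s414_pm_011

theorem s416_pm_011 : ∃ t, chk3 f_pm_011 t 140 498 1 = true := ex3_a k54_pm_011 s415_pm_011

theorem s417_pm_011 : ∃ t, chk3 f_pm_011 t 140 249 1 = true := ex3_b s416_pm_011 s413_pm_011

theorem s418_pm_011 : ∃ t, chk3 f_pm_011 t 70 249 1 = true := ex3_a s417_pm_011 s410_pm_011

theorem s419_pm_011 : ∃ t, chk3 f_pm_011 t 283 995 1 = true := ex3_c k52_pm_011 k53_pm_011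

theorem s420_pm_011 : ∃ t, chk3 f_pm_011 t 283 497 1 = true := ex3_b k51_pm_011 s419_pm_011

theorem s421_pm_011 : ∃ t, chk3 f_pm_011 t 141 497 1 = true := ex3_a k50_pm_011 s420_pm_011

theorem s422_pm_011 : ∃ t, chk3 f_pm_011 t 141 248 1 = true := ex3_b k49_pm_011 s421_pm_011

theorem s423_pm_011 : ∃ t, chk3 f_pm_011 t 70 248 1 = true := ex3_a k48_pm_011 s422_pm_011

theorem s424_pm_011 : ∃ t, chk3 f_pm_011 t 70 124 1 = true := ex3_b s423_pm_011 s418_pm_011

theorem s425_pm_011 : ∃ t, chk3 f_pm_011 t 35 124 1 = true := ex3_a s424_pm_011 s406_pm_011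

theorem s426_pm_011 : ∃ t, chk3 f_pm_011 t 35 62 1 = true := ex3_b s425_pm_011 s397_pm_011

theorem s427_pm_011 : ∃ t, chk3 f_pm_011 t 557 1000 1 = true := ex3_c k42_pm_011 k43_pm_011

theorem s428_pm_011 : ∃ t, chk3 f_pm_011 t 278 1000 1 = true := ex3_a k41_pm_011 s427_pm_011

theorem s429_pm_011 : ∃ t, chk3 f_pm_011 t 278 500 1 = true := ex3_b s428_pm_011 k44_pm_011

theorem s430_pm_011 : ∃ t, chk3 f_pm_011 t 139 500 1 = true := ex3_a s429_pm_011 k45_pm_011

theorem s431_pm_011 : ∃ t, chk3 f_pm_011 t 139 250 1 = true := ex3_b s430_pm_011 k46_pm_011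

theorem s432_pm_011 : ∃ t, chk3 f_pm_011 t 554 1002 1 = true := ex3_c k37_pm_011 k38_pm_011

theorem s433_pm_011 : ∃ t, chk3 f_pm_011 t 277 1002 1 = true := ex3_a s432_pm_011 k39_pm_011

theorem s434_pm_011 : ∃ t, chk3 f_pm_011 t 277 501 1 = true := ex3_b s433_pm_011 k40_pm_011

theorem s435_pm_011 : ∃ t, chk3 f_pm_011 t 138 501 1 = true := ex3_a k36_pm_011 s434_pm_011

theorem s436_pm_011 : ∃ t, chk3 f_pm_011 t 555 1001 1 = true := ex3_c k34_pm_011 k35_pm_011

theorem s437_pm_011 : ∃ t, chk3 f_pm_011 t 277 1001 1 = true := ex3_a k33_pm_011 s436_pm_011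

theorem s438_pm_011 : ∃ t, chk3 f_pm_011 t 277 500 1 = true := ex3_b k32_pm_011 s437_pm_011

theorem s439_pm_011 : ∃ t, chk3 f_pm_011 t 138 500 1 = true := ex3_a k31_pm_011 s438_pm_011

theorem s440_pm_011 : ∃ t, chk3 f_pm_011 t 138 250 1 = true := ex3_b s439_pm_011 s435_pm_011

theorem s441_pm_011 : ∃ t, chk3 f_pm_011 t 69 250 1 = true := ex3_a s440_pm_011 s431_pm_011

theorem s442_pm_011 : ∃ t, chk3 f_pm_011 t 69 125 1 = true := ex3_b s441_pm_011 k47_pm_011

theorem s443_pm_011 : ∃ t, chk3 f_pm_011 t 34 125 1 = true := ex3_a k30_pm_011 s442_pm_011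

theorem s444_pm_011 : ∃ t, chk3 f_pm_011 t 559 999 1 = true := ex3_b k28_pm_011 k29_pm_011

theorem s445_pm_011 : ∃ t, chk3 f_pm_011 t 279 999 1 = true := ex3_a k27_pm_011 s444_pm_011

theorem s446_pm_011 : ∃ t, chk3 f_pm_011 t 279 499 1 = true := ex3_b k26_pm_011 s445_pm_011

theorem s447_pm_011 : ∃ t, chk3 f_pm_011 t 139 499 1 = true := ex3_a k25_pm_011 s446_pm_011

theorem s448_pm_011 : ∃ t, chk3 f_pm_011 t 139 249 1 = true := ex3_b k24_pm_011 s447_pm_011

theorem s449_pm_011 : ∃ t, chk3 f_pm_011 t 69 249 1 = true := ex3_a k23_pm_011 s448_pm_011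

theorem s450_pm_011 : ∃ t, chk3 f_pm_011 t 69 124 1 = true := ex3_b k22_pm_011 s449_pm_011

theorem s451_pm_011 : ∃ t, chk3 f_pm_011 t 34 124 1 = true := ex3_a k21_pm_011 s450_pm_011

theorem s452_pm_011 : ∃ t, chk3 f_pm_011 t 34 62 1 = true := ex3_b s451_pm_011 s443_pm_011

theorem s453_pm_011 : ∃ t, chk3 f_pm_011 t 17 62 1 = true := ex3_a s452_pm_011 s426_pm_011

theorem s454_pm_011 : ∃ t, chk3 f_pm_011 t 17 31 1 = true := ex3_b s453_pm_011 s395_pm_011

theorem s455_pm_011 : ∃ t, chk3 f_pm_011 t 8 31 1 = true := ex3_a k20_pm_011 s454_pm_011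

theorem s456_pm_011 : ∃ t, chk3 f_pm_011 t 143 495 1 = true := ex3_a k18_pm_011 k19_pm_011

theorem s457_pm_011 : ∃ t, chk3 f_pm_011 t 143 247 1 = true := ex3_b k17_pm_011 s456_pm_011

theorem s458_pm_011 : ∃ t, chk3 f_pm_011 t 71 247 1 = true := ex3_a k16_pm_011 s457_pm_011

theorem s459_pm_011 : ∃ t, chk3 f_pm_011 t 71 123 1 = true := ex3_b k15_pm_011 s458_pm_011

theorem s460_pm_011 : ∃ t, chk3 f_pm_011 t 35 123 1 = true := ex3_a k14_pm_011 s459_pm_011

theorem s461_pm_011 : ∃ t, chk3 f_pm_011 t 35 61 1 = true := ex3_b k13_pm_011 s460_pm_011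

theorem s462_pm_011 : ∃ t, chk3 f_pm_011 t 17 61 1 = true := ex3_a k12_pm_011 s461_pm_011

theorem s463_pm_011 : ∃ t, chk3 f_pm_011 t 17 30 1 = true := ex3_b k11_pm_011 s462_pm_011

theorem s464_pm_011 : ∃ t, chk3 f_pm_011 t 8 30 1 = true := ex3_a k10_pm_011 s463_pm_011

theorem s465_pm_011 : ∃ t, chk3 f_pm_011 t 8 15 1 = true := ex3_b s464_pm_011 s455_pm_011

theorem s466_pm_011 : ∃ t, chk3 f_pm_011 t 4 15 1 = true := ex3_a s465_pm_011 s394_pm_011

theorem s467_pm_011 : ∃ t, chk3 f_pm_011 t 39 119 1 = true := ex3_a k8_pm_011 k9_pm_011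

theorem s468_pm_011 : ∃ t, chk3 f_pm_011 t 39 59 1 = true := ex3_b k7_pm_011 s467_pm_011

theorem s469_pm_011 : ∃ t, chk3 f_pm_011 t 19 59 1 = true := ex3_a k6_pm_011 s468_pm_011

theorem s470_pm_011 : ∃ t, chk3 f_pm_011 t 19 29 1 = true := ex3_b k5_pm_011 s469_pm_011

theorem s471_pm_011 : ∃ t, chk3 f_pm_011 t 9 29 1 = true := ex3_a k4_pm_011 s470_pm_011

theorem s472_pm_011 : ∃ t, chk3 f_pm_011 t 9 14 1 = true := ex3_b k3_pm_011 s471_pm_011

theorem s473_pm_011 : ∃ t, chk3 f_pm_011 t 4 14 1 = true := ex3_a k2_pm_011 s472_pm_011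

theorem s474_pm_011 : ∃ t, chk3 f_pm_011 t 4 7 1 = true := ex3_b s473_pm_011 s466_pm_011

theorem s475_pm_011 : ∃ t, chk3 f_pm_011 t 4 3 1 = true := ex3_b k1_pm_011 s474_pm_011

theorem s476_pm_011 : ∃ t, chk3 f_pm_011 t 2 3 1 = true := ex3_a s475_pm_011 s347_pm_011

theorem s477_pm_011 : ∃ t, chk3 f_pm_011 t 2 1 1 = true := ex3_b k0_pm_011 s476_pm_011

theorem s478_pm_011 : ∃ t, chk3 f_pm_011 t 1 1 1 = true := ex3_a s477_pm_011 s324_pm_011

theorem c_pm_011 : CertN 0 536870912 536870912 536870912 402653184 67108864 3 false true false .pnn 0 1 1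
    ndN0q0 ndN0q1 pcN1 cut_pm_011 Ext.none :=
  certN0 (fam := false) (s1 := true) (s2 := false) (a := 0) (b := 1) (c := 1) (cn := .pnn) (n1 := ndN0q0) (n2 := ndN0q1) (pc := pcN1) (cut := cut_pm_011) (xt := Ext.none) (P1 := 0) (W1 := 536870912) (P2 := 536870912) (W2 := 536870912) (P3 := 402653184) (W3 := 67108864) (N0 := 3)
    rfl s478_pm_011

end Pool.Agent.Strip051.G.I3_8_7_16.Tab.C.NB00

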