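import Pool.Agent.Strip051.G.I3_8_7_16.Tab

/-! # Certificates N11 (generated) -/

set_option linter.all false
set_option maxRecDepth 100000

namespace Pool.Agent.Strip051.G.I3_8_7_16.Tab.C.NB00

open Pool.Agent.Strip051.PB Pool.Agent.Strip051.PB.T
open Pool.Agent.Strip051.G.I3_8_7_16.Tab

noncomputable def cut_pm_012 : Cut := Cut.of [[⟨0, 0, 0, 67108864⟩, ⟨1, 1, 0, 67108864⟩, ⟨2, 1, 0, 67108864⟩], [⟨0, 0, 1, 33554432⟩, ⟨1, 1, 2, 33554432⟩, ⟨2, 1, 0, 33554432⟩]]

noncomputable def f_pm_012 : ℕ → ℕ → ℕ → ℕ → Bool := onCell 536870912 536870912 0 536870912 402653184 67108864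
    (rowN 3 2 false true false .pnp 0 1 2 (qsf 0 536870912 0 536870912 1) ndN0q0 ndN0q2 pcN1 cut_pm_012 Ext.none)

def k0_pm_012 : ∃ t, chk3 f_pm_012 t 8 1 1 = true :=
  ⟨(b (l 2) (b (l 2) (b (a (l 2) (b (a (l 2) (l 17085488)) (a (l 16964512) (b (l 17022560) (l 16979936))))) (a (a (b (l 2) (b (l 16982424) (a (l 17133240) (l 16971232)))) (b (b (l 16996440) (a (l 17023536) (l 16948320))) (b (a (l 16891232) (c (l 16950632) (l 16782720))) (a (c (l 17002640) (b (l 16937376) (l 16835648))) (c (b (l 16921392) (a (l 16925256) (l 16874520))) (b (l 16746304) (a (c (l 16857304) (l 16790544)) (b (l 16759568) (c (l 16791712) (a (l 16756744) (l 16681224))))))))))) (b (a (b (a (l 16947696) (l 16943232)) (a (l 16904840) (l 16897904))) (b (l 16934208) (c (l 16926632) (l 16775976)))) (a (b (a (c (l 16904056) (b (l 16823712) (l 16795904))) (c (l 16894432) (b (l 16814048) (l 16783488)))) (b (a (c (l 16868056) (a (l 16769248) (l 16762720))) (c (l 16853880) (b (l 16758408) (l 16740208)))) (c (a (a (l 16844304)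 (l 16836288)) (c (l 16850072) (l 16795168))) (a (a (b (l 16682912) (c (l 16755832) (b (l 16705824) (l 16675328)))) (c (l 16755056) (b (l 16709992) (b (l 16695368) (l 16685464))))) (b (c (l 16748952) (l 16672936)) (c (a (l 16735712) (l 16725184)) (a (a (l 16661256) (l 16634720)) (c (l 16682472) (l 14))))))))) (b (a (c (l 16881296) (l 16699296)) (c (l 16864576) (l 16700520))) (b (c (a (l 16836168) (l 16817328)) (a (l 16623872) (l 16622920))) (c (a (a (l 16787512) (l 16735752)) (b (l 16792080) (a (l 16758856) (l 16701104)))) (b (a (c (l 16728000) (a (l 16677168) (l 16665624))) (c (l 16684856) (l 14))) (a (c (a (l 16714360) (c (l 16717792) (l 16688648))) (a (b (l 16661784) (c (l 16665944) (l 14))) (l 14))) (c (a (a (l 16673712) (l 16646952)) (c (l 16695000) (l 14))) (l 14))))))))))))), by decide +kernel⟩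

def k1_pm_012 : ∃ t, chk3 f_pm_012 t 9 2 1 = true :=
  ⟨(b (l 2) (a (l 2) (b (l 2) (b (l 2) (a (l 2) (a (l 2) (b (l 17030360) (b (l 17042432) (l 17052152))))))))), by decide +kernel⟩

def k2_pm_012 : ∃ t, chk3 f_pm_012 t 9 6 1 = true :=
  ⟨(b (a (l 2) (b (a (l 461810369447) (l 17082560)) (b (l 17131368) (l 17170552)))) (a (b (l 17222848) (l 17183456)) (a (l 17094776) (l 17054280)))), by decide +kernel⟩

def k3_pm_012 : ∃ t, chk3 f_pm_012 t 9 14 1 = true :=
  ⟨(b (a (a (l 17085400) (l 17079704)) (a (l 17060832) (l 17027368))) (a (a (l 16991784) (l 16907576)) (a (l 16873576) (b (l 16928904) (l 16862296))))), by decide +kernel⟩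

def k4_pm_012 : ∃ t, chk3 f_pm_012 t 18 15 1 = true :=
  ⟨(b (a (b (l 16849864) (l 16767560)) (b (l 16836288) (c (l 16861576) (l 16761288)))) (b (a (a (b (l 16790616) (l 16672184)) (c (l 16827152) (l 16698592))) (c (b (l 16812656) (l 16673160)) (b (l 16702992) (a (l 14) (l 16656336))))) (a (a (b (c (l 16797288) (l 16599688)) (b (c (l 16700240) (a (l 16595848) (l 16583376))) (c (c (l 16782912) (a (l 16728384) (l 16674856))) (c (a (b (l 16673128) (c (l 16678040) (l 14))) (l 14)) (l 14))))) (c (b (l 16692096) (c (a (l 16775432) (l 16743216)) (b (l 16697488) (a (a (l 16686920) (l 16680872)) (c (l 16708264) (l 14)))))) (b (c (l 16625496) (l 14)) (l 14)))) (b (c (a (l 16648488) (l 16645408)) (a (l 14) (c (l 14) (l 16613352)))) (a (c (c (b (l 16756000) (a (l 16743224) (l 16710160))) (c (b (l 16709512) (a (l 16664424) (l 14))) (l 14))) (l 14)) (a (c (b (l 16601520) (c (c (l 16734840) (l 16681544)) (l 14))) (l 14)) (c (b (l 16609600) (c (c (l 16722264) (l 14)) (l 14))) (a (l 14) (c (l 14) (b (l 16587904)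 (c (l 14) (b (l 16572304) (l 16564880))))))))))))), by decide +kernel⟩

def k5_pm_012 : ∃ t, chk3 f_pm_012 t 19 30 1 = true :=
  ⟨(a (b (l 16837176) (c (l 16777536) (l 16706536))) (b (l 16754072) (c (l 16771104) (b (l 16723152) (l 16692752))))), by decide +kernel⟩

def k6_pm_012 : ∃ t, chk3 f_pm_012 t 19 62 1 = true :=
  ⟨(a (c (a (l 16697976) (l 16693864)) (b (l 16677976) (a (l 16649248) (l 16642760)))) (c (b (l 16714616) (a (l 14) (l 16668416))) (b (a (l 16666544) (l 16659608)) (a (l 16636816) (l 16631344))))), by decide +kernel⟩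

def k7_pm_012 : ∃ t, chk3 f_pm_012 t 19 63 1 = true :=
  ⟨(a (b (c (c (a (l 16735352) (l 16646312)) (l 14)) (a (c (l 14) (l 16608136)) (c (l 16621264) (l 16603472)))) (b (c (a (c (a (l 16712728) (l 16699536)) (l 14)) (l 14)) (a (c (l 14) (a (l 16586416) (l 16584552))) (c (a (l 14) (l 16597504)) (a (l 16582792) (l 16581160))))) (c (c (a (c (a (l 16688352) (l 14)) (l 14)) (l 14)) (l 14)) (b (a (c (l 14) (a (l 16575176) (l 16573600))) (c (a (l 14) (l 16586456)) (a (l 16572136) (l 16570784)))) (a (c (l 14) (a (c (l 14) (a (l 16564152) (l 16563464))) (a (c (l 14) (l 16562792)) (c (l 16569968) (l 16562160))))) (c (a (l 14) (a (l 14) (c (l 14) (l 16575080)))) (a (c (a (l 16569304) (l 16568672)) (l 16561256)) (c (c (l 16569680) (l 16565872)) (l 16560152))))))))) (b (c (a (l 14) (c (l 14) (l 16608280))) (a (c (l 16616616) (l 16599280)) (c (l 16612416) (l 16595536)))) (c (a (l 14) (a (l 14) (c (l 14) (a (l 14) (b (l 16606240) (c (l 14) (c (l 14) (l 16581648)))))))) (b (a (c (a (l 16595760) (l 16594128))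 (l 16578904)) (c (a (l 16592600) (l 16591184)) (l 16576288))) (a (b (c (a (l 16585008) (l 16583664)) (a (l 16569544) (l 16568408))) (c (a (c (l 14) (a (l 16574472) (l 16573896))) (a (c (l 14) (l 16573352)) (c (l 16580200) (l 16572832)))) (a (c (l 16566672) (l 16559152)) (c (l 16565680) (l 16558256))))) (b (c (a (l 16582424) (l 16581296)) (a (l 16567384) (l 16566456))) (c (a (c (a (l 16579648) (l 16579128)) (l 16572096)) (c (c (l 16580192) (l 16576600)) (l 16571208))) (a (l 16561128) (l 16560392))))))))), by decide +kernel⟩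

def k8_pm_012 : ∃ t, chk3 f_pm_012 t 5 4 1 = true :=
  ⟨(a (a (a (l 2) (b (l 16871640) (l 16926616))) (b (a (l 16887872) (l 16905280)) (a (l 16943512) (l 16961160)))) (b (a (a (l 16923832) (l 16946736)) (l 16963112)) (a (b (l 16977392) (l 17005184)) (l 16965944)))), by decide +kernel⟩

def k9_pm_012 : ∃ t, chk3 f_pm_012 t 5 5 1 = true :=
  ⟨(a (b (a (a (l 16970328) (l 16986200)) (a (b (l 16987456) (l 17017744)) (b (l 17004448) (l 17033784)))) (b (a (a (l 17017488) (c (l 17054944) (l 17010688))) (b (a (l 17040472) (l 17055712)) (a (a (l 17051920) (c (l 17082592) (l 17035776))) (c (b (l 17089808) (l 17099520)) (b (l 17043904) (a (b (l 17044880) (l 17050312)) (b (l 17055296) (l 17064344)))))))) (a (b (b (a (l 17037392) (a (l 17048552) (b (l 17054144) (c (l 17082536) (a (l 17031744) (b (l 17034432) (l 17036408))))))) (c (a (l 17069208) (a (l 17081320) (l 17089968))) (a (l 17021504) (a (b (l 17030096) (l 17035280)) (a (l 17039768) (l 17045072)))))) (c (a (l 17083568) (l 17103408)) (a (b (a (l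 17026328) (l 17035344)) (l 17044688)) (a (l 17054368) (l 17067560))))) (a (b (c (b (a (b (l 17085560) (l 17090400)) (l 17096448)) (l 17104464)) (b (a (b (a (l 17035296) (l 17038920)) (a (b (c (l 17050304) (l 17025840)) (l 17041152)) (l 17044792))) (b (a (l 17043248) (l 17048744)) (l 17054000))) (l 17060560))) (l 17109872)) (b (c (l 17121880) (l 17081944)) (l 17149440)))))) (b (a (b (l 17033240) (c (l 17080952) (l 17042432))) (b (l 17083656) (b (l 17109128) (a (l 17043848) (c (l 17161472) (b (l 17081112) (l 17084856))))))) (a (a (b (b (c (l 17094856) (a (l 17046648) (l 17056680))) (b (c (l 17109216) (a (b (l 17055096) (l 17061112)) (l 17073040))) (l 17105600))) (l 17067520)) (b (b (c (l 17117736) (b (l 17070184) (a (l 17052032) (l 17091696)))) (l 17116456)) (l 17156136))) (b (a (a (b (b (l 17112472) (l 17135824)) (l 17150408)) (l 17097008)) (l 17111464)) (c (l 17132824) (l 17054248)))))), by decide +kernel⟩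

def k10_pm_012 : ∃ t, chk3 f_pm_012 t 5 6 1 = true :=
  ⟨(a (b (a (b (a (l 17004592) (l 17059568)) (a (l 17226264) (l 17232808))) (a (b (l 17148856) (l 17185384)) (l 17087312))) (a (b (l 17158384) (a (l 17101784) (l 17056480))) (b (a (l 17106248) (l 17058640)) (a (l 17011920) (l 16967696))))) (b (a (b (l 17110224) (a (l 17090184) (l 17043288))) (b (a (l 17062696) (l 17016560)) (a (l 16996960) (l 16951248)))) (a (b (a (l 17011984) (l 16966704)) (a (l 16924816) (l 16862816))) (b (a (l 16922744) (l 16797080)) (a (b (l 16864024) (l 16825416)) (b (l 16828368) (l 16795528))))))), by decide +kernel⟩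

def k11_pm_012 : ∃ t, chk3 f_pm_012 t 10 14 1 = true :=
  ⟨(a (b (a (l 16986016) (l 16926424)) (a (b (l 16894232) (l 16832720)) (b (l 16862184) (l 16784688)))) (b (a (l 16825224) (b (l 16895144) (l 16846192))) (a (b (l 16830072) (c (l 16803288) (l 16752880))) (b (l 16797552) (c (l 16773600) (l 16726192)))))), by decide +kernel⟩

def k12_pm_012 : ∃ t, chk3 f_pm_012 t 20 30 1 = true :=
  ⟨(b (a (c (l 16796768) (l 16746912)) (c (l 16773800) (l 16726328))) (a (c (l 16713440) (a (l 16694856) (l 16686712))) (c (b (l 16730912) (l 16703096)) (a (l 16679048) (l 16671888))))), by decide +kernel⟩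

def k13_pm_012 : ∃ t, chk3 f_pm_012 t 20 62 1 = true :=
  ⟨(a (c (b (l 16688936) (a (l 16662456) (l 16656944))) (a (b (l 16653128) (l 16626336)) (b (l 16647112) (l 16621768)))) (c (b (a (l 16678960) (l 16672888)) (a (l 16651880) (l 16647280))) (a (b (l 16641552) (l 16617624)) (b (l 16636464) (l 16613936))))), by decide +kernel⟩

def k14_pm_012 : ∃ t, chk3 f_pm_012 t 40 63 1 = true :=
  ⟨(b (c (a (c (l 14) (l 16604088)) (c (l 16616256) (l 16600320))) (a (c (l 16608664) (l 16592224)) (c (l 16605336) (l 16589336)))) (c (b (a (c (l 14) (a (l 16605112) (l 16603696))) (c (a (l 14) (l 16615776)) (a (l 16602392) (l 16601176)))) (b (a (c (l 14) (a (l 16594872) (l 16593744))) (c (a (l 14) (l 16605768)) (a (l 16592720) (l 16591792)))) (a (c (l 14) (a (c (l 14) (a (l 16584832) (l 16584368))) (c (c (l 14) (a (l 14) (l 16588728))) (c (l 16585456) (l 16581968))))) (c (a (l 14) (c (l 14) (c (l 14) (a (l 14) (l 16593912))))) (a (c (a (l 16590024) (l 16589608)) (l 16582928)) (c (c (l 16590720) (l 16587328))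 (l 16582240))))))) (a (c (b (a (l 16589880) (l 16588672)) (c (b (l 16583416) (a (l 16577512) (l 16576728))) (a (l 16573520) (l 16572736)))) (b (l 16574088) (a (l 16562696) (l 16562064)))) (c (b (l 16587040) (a (c (l 16579056) (l 16572056)) (c (l 16578368) (l 16571464)))) (b (l 16572288) (a (l 16561528) (l 16561088))))))), by decide +kernel⟩

def k15_pm_012 : ∃ t, chk3 f_pm_012 t 41 63 1 = true :=
  ⟨(b (c (a (c (l 16612480) (l 16607464)) (c (l 16619648) (l 16604560))) (a (c (l 16602416) (l 16586856)) (c (l 16599936) (l 16584800)))) (c (b (a (c (a (l 16614464) (l 16613256)) (a (l 16600072) (l 16599056))) (c (a (l 16612136) (l 16611128)) (a (l 16598136) (l 16597320)))) (a (b (c (a (l 16604744) (l 16603824)) (a (l 16590968) (l 16590232))) (c (a (c (l 14) (a (l 16595216) (l 16594848))) (c (c (l 14) (a (l 14) (l 16599104))) (c (l 16595984) (l 16592688)))) (a (c (l 16588336) (l 16581648)) (c (l 16587744) (l 16581144))))) (b (c (a (l 16602992) (l 16602264)) (a (l 16589592) (l 16589048))) (c (a (c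 (a (l 16600400) (l 16600080)) (l 16593744)) (c (a (l 16599784) (l 16599512)) (l 16593248))) (a (c (l 16587240) (l 16580736)) (l 16583632)))))) (a (c (b (l 16585224) (a (l 16574376) (l 16573928))) (a (l 16565960) (l 16565528))) (c (b (l 16583816) (a (l 16573568) (l 16573304))) (a (l 16565184) (l 16564936)))))), by decide +kernel⟩

def k16_pm_012 : ∃ t, chk3 f_pm_012 t 21 30 1 = true :=
  ⟨(a (a (b (l 16691624) (c (l 16703648) (l 16642872))) (b (l 16679536) (c (l 16693416) (l 16654904)))) (b (c (l 16725224) (b (l 16693408) (l 16672480))) (c (b (l 16690568) (a (l 16672088) (l 16666440))) (a (b (l 16656360) (l 16636296)) (b (l 16648384) (l 16631632)))))), by decide +kernel⟩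

def k17_pm_012 : ∃ t, chk3 f_pm_012 t 42 31 1 = true :=
  ⟨(b (a (c (b (l 16665744) (l 16641552)) (b (l 16630408) (l 16609232))) (c (b (l 16657496) (c (l 16643264) (l 16627648))) (b (l 16623360) (c (l 16612024) (l 16596392))))) (b (b (c (a (l 16623968) (c (l 16627640) (l 16613088))) (a (l 16593944) (l 16601720))) (c (a (c (l 16619896) (l 16605656)) (c (l 16618408) (l 16604528))) (a (c (l 16591400) (l 16577136)) (c (l 16590632) (l 16576736))))) (c (a (c (b (a (l 16609456) (l 16608456)) (b (a (c (l 16604392) (l 16597888)) (l 16601640)) (a (a (b (l 16597160) (a (l 16599792) (l 16599688))) (a (l 16601160) (l 16596352))) (c (l 16603144) (l 16594248))))) (a (b (l 16595872) (b (l 16588128) (a (l 16583224) (l 16583528)))) (b (l 16595064) (c (l 16589984) (l 16583624))))) (c (b (a (l 16609368) (l 16610400)) (b (a (l 16603024) (l 16604232)) (c (a (c (l 16603544) (l 16600440)) (c (l 16604824) (l 16601744))) (a (l 16595776) (l 16597120))))) (b (l 16601928) (b (l 16597488) (a (l 16586432) (l 16587864))))))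 (a (c (a (b (l 16582272) (c (l 16576272) (l 16569840))) (b (l 16581656) (l 16574080))) (a (b (l 16568656) (l 16560192)) (l 16564824))) (c (b (l 16583448) (c (l 16579624) (l 16573336))) (b (l 16570200) (l 16563888))))))), by decide +kernel⟩

def k18_pm_012 : ∃ t, chk3 f_pm_012 t 43 31 1 = true :=
  ⟨(b (c (b (a (l 16651424) (l 16649272)) (a (c (l 16640808) (l 16625576)) (c (l 16640440) (l 16625504)))) (b (a (l 16618344) (l 16616920)) (a (c (l 16610336) (l 16595096)) (c (l 16610568) (l 16595632))))) (c (b (b (a (l 16620880) (c (l 16628240) (l 16614256))) (a (c (l 16619728) (l 16606096)) (c (l 16620392) (l 16607048)))) (b (a (c (a (l 16611272) (l 16611976)) (a (l 16598224) (l 16599064))) (c (a (l 16612536) (l 16612944)) (a (l 16599760) (l 16600320)))) (a (c (c (a (b (l 16608408) (a (l 16604144) (l 16604656))) (b (l 16609256) (a (l 16605136) (l 16605576)))) (a (b (l 16602136) (l 16598296)) (b (l 16603048) (l 16599320)))) (c (a (l 16594024) (l 16595056)) (a (l 16587824) (l 16588920)))) (c (c (a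 (b (l 16609944) (a (l 16605976) (l 16606344))) (b (l 16610480) (a (l 16607984) (l 16609584)))) (a (b (l 16603800) (l 16600192)) (b (l 16604416) (l 16600920)))) (c (a (l 16595936) (l 16596680)) (a (l 16589872) (l 16590696))))))) (b (b (a (l 16592312) (l 16603752)) (a (c (l 16592448) (l 16578800)) (c (l 16593696) (l 16580336)))) (a (c (b (l 16585680) (c (l 16582232) (l 16576056))) (b (l 16572672) (l 16566792))) (c (b (l 16587360) (c (l 16584280) (l 16578248))) (b (l 16574640) (l 16569192))))))), by decide +kernel⟩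

def k19_pm_012 : ∃ t, chk3 f_pm_012 t 11 14 1 = true :=
  ⟨(a (b (a (b (l 16856520) (l 16811048)) (b (l 16820048) (l 16716032))) (a (b (l 16745320) (c (l 16746200) (a (l 16706896) (l 16695976)))) (b (c (l 16764072) (l 16696672)) (c (l 16706440) (a (l 16688360) (l 16682568)))))) (b (a (b (l 16746728) (c (l 16778512) (l 16730408))) (b (c (l 16789312) (l 16739896)) (c (l 16757360) (l 16711672)))) (b (a (c (l 16745224) (a (l 16704928) (l 16697064))) (c (a (l 16731464) (l 16722104)) (a (l 16689056) (l 16680944)))) (a (c (b (l 16721080) (l 16705640)) (a (l 16676440) (l 16670120))) (c (a (l 16701976) (l 16673200)) (b (l 16645296) (a (l 16657552) (l 16651344)))))))), by decide +kernel⟩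

def k20_pm_012 : ∃ t, chk3 f_pm_012 t 11 30 1 = true :=
  ⟨(a (b (a (c (a (l 16708840) (l 16701896)) (a (l 16668792) (l 16662880))) (c (b (l 16702568) (l 16686576)) (b (l 16663736) (a (l 16651832) (l 16647976))))) (a (c (b (l 16657792) (a (l 16663728) (l 16660720))) (a (b (l 16644184) (l 16629672)) (b (l 16641152) (l 16627472)))) (c (b (a (l 16673064) (l 16669160)) (a (l 16657912) (l 16633904))) (b (a (l 16638304) (l 16635280)) (a (l 16625472) (c (l 16631184) (l 16615400))))))) (b (a (c (b (l 16669768) (a (l 16679040) (l 16673680))) (b (a (l 16656408) (l 16651272)) (a (l 16643864) (l 16639544)))) (c (b (a (l 16681168) (l 16674568)) (a (l 16668088) (l 16662320))) (b (a (l 16645976) (l 16640560)) (a (l 16635048) (l 16630432))))) (a (c (b (a (l 16664928) (l 16639448)) (a (c (l 16659184) (l 16643832)) (c (l 16655280) (l 16640424)))) (b (a (l 16631992) (l 16628488)) (a (c (l 16628504) (l 16613184)) (c (l 16625584) (l 16610760))))) (c (b (a (c (l 16663400) (l 16647952)) (c (l 16658184) (l 16643296)))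 (a (c (l 16651128) (l 16636792)) (c (l 16646768) (l 16632984)))) (b (a (c (l 16632520) (l 16617120)) (c (l 16628440) (l 16613600))) (a (c (l 16622480) (l 16608184)) (c (l 16619232) (l 16605488)))))))), by decide +kernel⟩

def k21_pm_012 : ∃ t, chk3 f_pm_012 t 22 62 1 = true :=
  ⟨(a (c (b (a (l 16647544) (c (l 16653120) (l 16637688))) (a (c (l 16639416) (l 16624824)) (b (l 16623904) (a (l 16627560) (l 16627032))))) (b (a (l 16615904) (c (l 16622264) (l 16606848))) (a (c (l 16610240) (l 16595648)) (a (l 16613032) (a (l 16602304) (l 16602272)))))) (c (b (a (c (l 16651000) (l 16635952)) (c (l 16648632) (l 16634000))) (a (c (b (l 16640192) (l 16633264)) (b (l 16626056) (l 16619736))) (c (b (l 16638496) (l 16632016)) (b (l 16624768) (l 16618888))))) (b (a (c (l 16620920) (l 16605888)) (c (l 16619384) (l 16604768))) (b (a (l 16615344) (c (l 16611032) (l 16597304))) (a (c (l 16606208) (l 16592680)) (c (l 16605752) (l 16592624))))))), by decide +kernel⟩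

def k22_pm_012 : ∃ t, chk3 f_pm_012 t 44 63 1 = true :=
  ⟨(c (b (a (c (b (l 16627880) (a (l 16620496) (l 16620416))) (b (l 16614232) (a (l 16607400) (l 16607488)))) (c (b (l 16627096) (a (l 16620208) (l 16620032))) (b (l 16613824) (a (l 16607472) (l 16607480))))) (b (a (a (c (c (l 16616328) (l 16610096)) (l 16600752)) (c (c (l 16616424) (l 16610280)) (l 16601064))) (c (a (c (l 16616392) (l 16610344)) (c (l 16616400) (l 16610440))) (a (l 16601264) (l 16601496)))) (a (c (c (a (b (l 16610880) (a (l 16607216) (l 16607440))) (b (l 16611152) (a (l 16607632) (l 16607784)))) (a (b (l 16604896) (l 16601512)) (b (l 16605248) (l 16601976)))) (c (a (l 16597296) (l 16597792)) (a (l 16591392) (l 16591968)))) (c (a (c (b (l 16611288) (c (l 16609384) (l 16606560))) (b (l 16605480) (l 16602320))) (c (b (l 16611472) (c (l 16609648) (l 16606872))) (b (l 16605744) (l 16602696)))) (a (c (l 16598168) (l 16592432)) (c (l 16598576) (l 16592928))))))) (b (a (c (b (l 16600584) (l 16594448)) (b (l 16586928) (l 16581424)))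 (c (b (l 16600544) (l 16600080)) (a (l 16584560) (l 16584832)))) (a (c (b (c (l 16591648) (l 16585456)) (c (l 16585832) (l 16579952))) (b (l 16576152) (l 16571136))) (c (b (a (l 16589152) (l 16589560)) (a (l 16583816) (l 16584448))) (a (l 16574672) (l 16575376)))))), by decide +kernel⟩

def k23_pm_012 : ∃ t, chk3 f_pm_012 t 45 63 1 = true :=
  ⟨(b (c (a (c (b (l 16621304) (a (l 16620064) (l 16619984))) (b (l 16613632) (c (l 16610824) (l 16604680)))) (a (c (b (l 16625976) (l 16619816)) (b (l 16613352) (l 16607800))) (c (b (l 16625480) (l 16619544)) (b (l 16613056) (l 16607728))))) (a (c (b (l 16600720) (l 16595456)) (b (l 16587800) (l 16583152))) (c (b (l 16600696) (l 16595872)) (b (l 16588168) (l 16583952))))) (c (a (a (c (b (c (l 16616616) (l 16610736)) (c (b (l 16611848) (c (l 16610128) (l 16607384))) (b (l 16606208) (l 16603272)))) (b (l 16601920) (c (l 16599176) (l 16593616)))) (c (b (c (l 16616720) (l 16610936)) (c (b (l 16612128) (l 16609152)) (l 16605168))) (b (l 16602248) (l 16596952))))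 (a (c (b (c (l 16616728) (l 16611032)) (c (b (l 16612312) (l 16609440)) (l 16605496))) (b (l 16602488) (l 16597416))) (b (c (c (l 16616640) (l 16611040)) (l 16602640)) (c (c (b (l 16612392) (l 16609640)) (l 16605728)) (l 16597792))))) (a (c (b (l 16590424) (c (l 16588408) (l 16582880))) (b (l 16578744) (l 16574592))) (c (a (l 16599344) (l 16599800)) (b (l 16579976) (l 16576248)))))), by decide +kernel⟩

def k24_pm_012 : ∃ t, chk3 f_pm_012 t 23 62 1 = true :=
  ⟨(a (c (b (b (a (l 16631408) (c (l 16645888) (l 16631888))) (a (c (l 16642688) (l 16628800)) (c (l 16639888) (l 16626464)))) (a (c (b (l 16636448) (l 16630408)) (b (l 16623144) (l 16617704))) (c (b (l 16634088) (l 16628496)) (b (l 16621248) (l 16616248))))) (b (a (c (b (l 16620192) (l 16614920)) (l 16603392)) (c (b (l 16617912) (l 16613064)) (l 16601800))) (a (c (b (l 16609848) (l 16605000)) (l 16599672)) (c (b (l 16608424) (l 16604008)) (l 16604176))))) (c (b (a (c (b (l 16642384) (l 16636824)) (b (l 16628904) (l 16623912))) (c (b (l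 16638672) (l 16633544)) (b (l 16625736) (l 16621176)))) (a (c (b (l 16631464) (l 16626312)) (b (l 16619128) (l 16614560))) (c (b (l 16628624) (l 16623912)) (a (l 16615288) (l 16614208))))) (b (a (c (b (l 16615440) (l 16611016)) (l 16600056)) (c (l 16621304) (l 16598200))) (a (c (a (l 16605168) (l 16604424)) (l 16592792)) (c (a (l 16603648) (l 16602848)) (l 16591776)))))), by decide +kernel⟩

def k25_pm_012 : ∃ t, chk3 f_pm_012 t 23 63 1 = true :=
  ⟨(a (b (c (a (c (a (b (l 16624904) (l 16619192)) (b (l 16624240) (l 16618752))) (b (l 16617728) (c (l 16610368) (l 16604616)))) (c (a (b (l 16623504) (l 16618240)) (b (l 16622696) (l 16617656))) (b (l 16611464) (l 16612160)))) (a (c (b (l 16600376) (l 16595984)) (a (l 16586312) (l 16586416))) (c (a (l 16597936) (l 16597712)) (l 16596976)))) (c (a (a (c (b (c (l 16616456) (l 16610960)) (c (c (l 16612360) (l 16609760)) (l 16605872))) (b (l 16602712) (l 16598088))) (c (b (l 16613496) (c (l 16611024) (l 16605936))) (b (l 16602712) (l 16598312)))) (a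 (c (b (l 16613208) (l 16608416)) (b (l 16602648) (l 16598464))) (c (b (l 16612856) (l 16608288)) (l 16611016)))) (a (c (b (l 16591840) (l 16587936)) (b (l 16580944) (l 16577648))) (c (b (l 16592152) (l 16588688)) (l 16580264))))) (c (b (a (c (b (a (l 16621832) (l 16620904)) (c (l 16619320) (l 16614040))) (a (l 16608424) (l 16607864))) (c (a (l 16622976) (l 16627312)) (a (l 16607256) (l 16606616)))) (a (c (b (a (l 16612432) (l 16611952)) (a (l 16608088) (l 16607832))) (b (l 16602240) (l 16598608))) (c (b (l 16621632) (l 16607368)) (b (l 16601688) (l 16598504))))) (b (a (c (b (l 16599064) (l 16595544)) (l 16586448)) (b (l 16613816) (l 16611016))) (a (b (l 16603008) (l 16584552)) (c (l 16590928) (l 16581760)))))), by decide +kernel⟩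

def k26_pm_012 : ∃ t, chk3 f_pm_012 t 6 2 1 = true :=
  ⟨(b (a (b (a (l 16948728) (l 16924680)) (a (b (l 16992384) (l 17023616)) (b (l 16963872) (l 16992064)))) (a (b (l 16896816) (b (l 16932016) (a (l 16966480) (l 16947168)))) (b (a (l 16871984) (l 16851192)) (b (l 16891936) (a (b (l 16920056) (c (l 16955584) (l 16895672))) (b (l 16893000) (l 16887896))))))) (a (b (a (b (l 17056840) (b (a (l 17090320) (a (l 17074976) (l 17061392))) (a (c (l 17133624) (l 17056288)) (l 17058112)))) (b (a (b (l 17022912) (l 17036488)) (b (l 17004576) (a (l 17018168) (l 17004016)))) (a (c (l 17062552) (l 16991600)) (l 16987944)))) (a (b (c (l 17088256) (l 17014104)) (a (l 17026912) (l 16981632))) (a (b (l 16986792) (l 16939456)) (b (l 16947152) (l 16900952))))) (b (a (b (a (b (c (l 17016440) (l 16951048)) (l 16977152)) (b (l 16954080) (l 16937776))) (a (l 16949760) (l 16909720))) (a (b (l 16905272) (l 16868544)) (b (l 16862056) (l 16826824)))) (a (b (a (l 16908648) (l 16869624)) (a (l 16864352) (l 16807048)))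 (b (a (l 16830464) (l 16791576)) (a (l 16771216) (l 16736152))))))), by decide +kernel⟩

def k27_pm_012 : ∃ t, chk3 f_pm_012 t 7 2 1 = true :=
  ⟨(a (b (b (a (a (l 16827016) (l 16799544)) (a (l 16768888) (l 16734680))) (a (b (a (l 16852648) (b (l 16818792) (l 16822424))) (a (b (l 16857280) (l 16842640)) (l 16804264))) (b (a (b (l 16784072) (l 16778864)) (l 16735712)) (a (l 16756968) (l 16709904))))) (b (a (b (a (l 16817848) (l 16773328)) (a (l 16785088) (l 16743808))) (a (b (l 16729120) (l 16703416)) (b (l 16685768) (l 16664304)))) (a (b (a (l 16753312) (l 16716016)) (a (l 16723104) (l 16690344))) (b (a (l 16679976) (l 16645496)) (a (l 16659064) (l 16629488)))))) (b (a (b (b (l 16675160) (a (l 16700144) (l 16655584))) (a (b (l 16686384) (l 16663760)) (b (l 16637680) (l 16619152)))) (b (a (b (l 16614640) (l 16607424)) (b (l 16570296) (l 16558672))) (a (l 16630760) (b (l 16546328) (l 16536600))))) (a (b (a (b (l 16643776) (l 16626848)) (b (l 16603608) (l 16591376))) (a (b (l 16612832) (l 16601792))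 (b (l 16582232) (l 16576160)))) (b (a (b (l 16565648) (l 16558184)) (b (l 16530240) (l 16527528))) (a (b (l 16553904) (l 16552744)) (b (l 16528056) (l 16552728))))))), by decide +kernel⟩

def k28_pm_012 : ∃ t, chk3 f_pm_012 t 6 6 1 = true :=
  ⟨(a (b (a (b (a (l 16970544) (l 16927040)) (a (l 16907904) (l 16849192))) (a (b (l 16888320) (c (l 16863392) (l 16806208))) (b (c (l 16880952) (l 16822480)) (b (l 16813768) (l 16767736))))) (a (b (a (b (l 16859952) (l 16829456)) (b (l 16827128) (l 16798704))) (a (b (l 16799336) (c (l 16794944) (l 16744744))) (b (l 16728832) (c (l 16767288) (l 16720088))))) (b (a (b (l 16794280) (l 16746912)) (b (c (l 16789096) (l 16739104)) (c (l 16763656) (l 16716496)))) (a (b (c (l 16765864) (l 16718624)) (c (l 16739552) (l 16695560))) (a (b (l 16700760) (c (l 16719808) (l 16678256))) (b (l 16712080) (l 16669968))))))) (b (a (b (a (c (l 16846288) (l 16790904)) (c (l 16812296) (l 16760128))) (a (b (l 16784032) (l 16761536)) (b (l 16755232) (l 16735376)))) (b (a (b (l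 16763768) (l 16745328)) (b (l 16732088) (l 16716096))) (a (b (l 16727424) (l 16689272)) (b (l 16700776) (l 16665312))))) (a (b (a (b (l 16718672) (c (l 16740880) (l 16696352))) (b (c (l 16738528) (l 16694136)) (c (l 16719096) (l 16677296)))) (a (b (c (l 16719416) (l 16677768)) (c (l 16699160) (a (l 16663912) (l 16657208)))) (a (b (l 16664440) (c (l 16687488) (l 16650712))) (b (l 16655992) (c (l 16679976) (l 16644440)))))) (b (a (b (c (l 16714720) (l 16673288)) (c (l 16698264) (l 16659288))) (b (c (l 16692040) (l 16653640)) (c (l 16678536) (l 16642456)))) (a (b (c (l 16662032) (a (l 16650280) (l 16643008))) (c (a (l 16672680) (l 16665624)) (a (l 16638408) (l 16632624)))) (b (c (a (l 16670352) (l 16662288)) (a (l 16636032) (l 16629344))) (c (a (l 16658824) (l 16652288)) (a (l 16627112) (l 16621872))))))))), by decide +kernel⟩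

def k29_pm_012 : ∃ t, chk3 f_pm_012 t 12 14 1 = true :=
  ⟨(a (b (a (b (c (l 16764576) (l 16717888)) (c (l 16735416) (a (l 16697208) (l 16687528)))) (b (c (l 16739536) (a (l 16701288) (l 16690264))) (c (a (l 16718704) (l 16707552)) (a (l 16677848) (l 16668200))))) (b (a (c (a (l 16712600) (l 16703008)) (a (l 16672752) (l 16664520))) (c (a (l 16693360) (l 16683680)) (a (l 16656280) (l 16648088)))) (a (c (a (b (l 16692544) (l 16679888)) (b (l 16684104) (l 16672248))) (a (b (l 16655672) (l 16645048)) (b (l 16648568) (l 16638720)))) (c (a (b (l 16675608) (l 16664536)) (b (l 16667096) (l 16656808))) (a (b (l 16641472) (l 16632392)) (b (l 16634400) (l 16626096))))))) (b (a (b (c (l 16693480) (a (l 16679296) (l 16668424))) (c (a (l 16696416) (l 16685312)) (a (l 16658616) (l 16649136)))) (b (c (a (l 16696784) (l 16689832)) (a (l 16658608) (l 16652776))) (c (a (l 16654440) (l 16670200)) (a (l 16640760) (l 16636592))))) (a (b (c (a (l 16674024) (l 16664400)) (a (l 16639952) (l 16631920))) (c (b (a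 (l 16658584) (l 16650120)) (a (l 16649088) (l 16641408))) (a (b (l 16627400) (l 16619864)) (b (l 16620496) (l 16613720))))) (b (c (a (b (l 16660616) (l 16651488)) (l 16652616)) (a (a (l 16626016) (l 16624064)) (l 16622576))) (c (a (b (l 16642952) (l 16635048)) (b (l 16640872) (l 16633880))) (a (a (l 16612320) (l 16611200)) (l 16621488))))))), by decide +kernel⟩

def k30_pm_012 : ∃ t, chk3 f_pm_012 t 12 30 1 = true :=
  ⟨(a (b (a (c (b (a (l 16667824) (l 16660984)) (a (l 16635424) (l 16639896))) (b (a (l 16635056) (l 16629512)) (a (l 16625736) (l 16620992)))) (c (b (a (l 16654088) (l 16647160)) (a (l 16644296) (l 16638184))) (b (a (l 16623976) (l 16618456)) (a (l 16616248) (l 16611536))))) (a (c (b (a (c (l 16652800) (l 16638512)) (c (l 16647296) (l 16633640))) (a (c (l 16642240) (l 16629048)) (c (l 16637584) (l 16625016)))) (b (a (c (l 16624256) (l 16610016)) (c (l 16620016) (l 16606408))) (a (c (l 16615880) (l 16602728)) (c (l 16612464) (l 16599936))))) (c (b (a (c (l 16641712) (l 16628720))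 (c (l 16636088) (l 16623776))) (a (c (l 16632848) (l 16620928)) (c (l 16628064) (l 16616816)))) (a (b (l 16625000) (c (l 16609024) (l 16597144))) (b (l 16605360) (l 16620952)))))) (a (b (c (b (a (l 16640232) (l 16633352)) (a (l 16632072) (l 16626000))) (a (b (l 16613008) (l 16606872)) (b (l 16607640) (l 16602296)))) (c (a (b (l 16635128) (c (l 16623264) (l 16612720))) (b (l 16619392) (l 16613576))) (a (b (l 16601496) (l 16596928)) (b (l 16597720) (l 16593960))))) (b (c (a (a (a (l 16625624) (l 16624168)) (l 16624144)) (b (l 16627552) (l 16621944))) (a (a (l 16601344) (l 16601064)) (b (l 16604032) (l 16600344)))) (c (a (a (a (l 16634416) (l 16633384)) (l 16634040)) (b (l 16617088) (l 16613016))) (a (b (l 16595200) (l 16592256)) (b (l 16597432) (l 16595344))))))), by decide +kernel⟩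

def k31_pm_012 : ∃ t, chk3 f_pm_012 t 12 31 1 = true :=
  ⟨(a (a (b (c (b (a (c (b (l 16634792) (l 16630096)) (b (l 16622440) (l 16618304))) (c (b (l 16630784) (l 16626528)) (l 16617192))) (a (c (b (l 16625616) (l 16621344)) (a (l 16613096) (l 16611952))) (c (a (l 16621288) (l 16619800)) (l 16631184)))) (a (b (c (l 16608312) (l 16596264)) (c (l 16601608) (l 16590680))) (b (c (l 16605736) (l 16594296)) (c (l 16599872) (l 16589544))))) (c (b (a (c (a (l 16615864) (l 16614880)) (b (l 16607216) (l 16603984))) (c (b (l 16615040) (l 16611664)) (l 16604136))) (a (c (b (l 16609904) (l 16606568)) (l 16599608)) (c (l 16607080) (l 16599024)))) (b (a (c (l 16595808) (l 16586024)) (l 16606056)) (a (l 16602400) (l 16586936))))) (b (c (a (b (c (l 16624776) (l 16613944)) (c (l 16638520) (l 16607824))) (b (c (l 16620848) (l 16610672)) (c (l 16614480) (l 16605400)))) (a (b (c (l 16603128) (l 16592328)) (l 16614224)) (b (l 16595448) (l 16591800)))) (c (b (a (c (l 16611208) (l 16602608)) (l 16620760)) (a (c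 (l 16605824) (l 16598360)) (l 16601088))) (b (a (l 16589712) (l 16589104)) (a (l 16587160) (l 16587392)))))) (b (a (c (b (a (c (l 16616896) (l 16607416)) (l 16608584)) (a (l 16628160) (l 16604472))) (b (a (l 16593216) (l 16591056)) (a (l 16590400) (l 16589064)))) (c (a (b (l 16627392) (l 16603168)) (b (l 16609784) (l 16607432))) (a (b (l 16590176) (l 16589008)) (l 16593904)))) (a (c (b (a (l 16603144) (l 16601288)) (a (l 16600072) (l 16599088))) (b (l 16609264) (l 16587840))) (a (c (b (l 16600856) (l 16599528)) (l 16610120)) (c (l 16605744) (l 16595152)))))), by decide +kernel⟩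

def k32_pm_012 : ∃ t, chk3 f_pm_012 t 13 14 1 = true :=
  ⟨(a (b (a (b (c (a (l 16683472) (l 16677256)) (a (l 16647504) (l 16642408))) (c (a (l 16665584) (l 16661088)) (a (l 16632984) (l 16629520)))) (b (c (a (l 16671200) (l 16665320)) (a (l 16637488) (l 16632768))) (c (a (l 16656720) (l 16652504)) (a (l 16626200) (l 16623064))))) (a (b (c (a (l 16649776) (l 16652264)) (a (l 16620648) (l 16618832))) (c (b (a (l 16639376) (l 16637944)) (a (l 16633280) (l 16632728))) (a (l 16621264) (l 16631592)))) (b (c (a (l 16649608) (b (l 16644232) (l 16639472))) (a (l 16617144) (b (l 16617176) (l 16614040)))) (c (a (b (l 16636584) (l 16632240)) (b (l 16635336) (l 16631840))) (a (l 16631528) (b (l 16611544) (l 16609712))))))) (b (a (b (c (a (l 16659640) (l 16654176)) (a (l 16628264) (l 16623992))) (c (a (l 16637984) (b (l 16646760) (l 16642504))) (a (l 16630592) (b (l 16618760) (l 16615984))))) (b (c (a (l 16648944) (l 16643968)) (a (l 16619960) (l 16616184))) (c (a (b (l 16642720) (l 16639264)) (b (l 16638912)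 (l 16636240))) (a (b (l 16615848) (l 16613824)) (b (l 16613176) (l 16611888)))))) (a (b (c (a (b (l 16641432) (l 16637512)) (b (l 16638808) (l 16635704))) (a (b (l 16615392) (l 16613040)) (b (l 16613792) (l 16612208)))) (c (a (b (l 16634208) (l 16631544)) (b (l 16633216) (l 16631376))) (a (b (l 16611328) (l 16610272)) (b (l 16611256) (l 16610968))))) (b (c (a (b (l 16636376) (l 16634072)) (b (l 16634136) (l 16632624))) (a (b (l 16612384) (l 16611552)) (b (l 16611184) (l 16611088)))) (c (a (b (l 16632384) (l 16631344)) (b (l 16631720) (l 16631464))) (a (b (l 16611352) (l 16611808)) (b (l 16611624) (l 16612808)))))))), by decide +kernel⟩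

def k33_pm_012 : ∃ t, chk3 f_pm_012 t 13 30 1 = true :=
  ⟨(a (b (a (c (a (b (l 16627864) (l 16623152)) (b (l 16628192) (l 16624368))) (a (b (l 16605080) (l 16602240)) (b (l 16606176) (l 16604160)))) (c (a (b (l 16628568) (l 16625608)) (b (l 16629024) (l 16626912))) (a (b (l 16607328) (l 16606128)) (b (l 16608576) (l 16608160))))) (a (c (b (a (l 16619192) (l 16621288)) (a (l 16616016) (l 16618992))) (a (b (l 16600168) (l 16598912)) (l 16623640))) (c (b (a (l 16623400) (l 16625544)) (a (l 16621960) (l 16624952))) (a (l 16626816) (l 16630024))))) (b (a (c (a (b (l 16629560) (l 16628280)) (b (l 16630208) (l 16629736))) (a (b (l 16609912) (l 16610280)) (b (l 16611368) (l 16612496)))) (c (a (b (l 16630968) (l 16631304)) (b (l 16631872) (l 16632984))) (b (a (l 16612952) (l 16614680)) (a (l 16614816) (l 16617264))))) (a (c (b (a (l 16627736) (l 16630008)) (a (l 16627968) (l 16631040))) (b (a (l 16611400) (l 16614368)) (a (l 16613304) (l 16617016)))) (c (b (a (l 16632360) (l 16634816)) (a (l 16634176)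 (l 16637400))) (b (a (l 16617424) (l 16620592)) (a (l 16620800) (l 16624680))))))), by decide +kernel⟩

def k34_pm_012 : ∃ t, chk3 f_pm_012 t 13 31 1 = true :=
  ⟨(a (b (a (c (b (a (l 16613680) (l 16617528)) (l 16614600)) (b (l 16600720) (l 16601616))) (c (b (a (l 16621352) (l 16625168)) (l 16623936)) (b (l 16609464) (l 16611920)))) (a (c (b (l 16614480) (l 16615312)) (b (l 16603440) (l 16606248))) (b (c (l 16625488) (l 16615296)) (c (l 16627976) (l 16619616))))) (b (a (c (b (a (l 16629000) (l 16632872)) (a (l 16630880) (l 16635528))) (b (l 16639248) (l 16622224))) (b (c (a (l 16636784) (l 16640760)) (a (l 16624992) (l 16629560))) (c (a (l 16640216) (l 16644952)) (l 16653624)))) (a (b (c (l 16657344) (l 16627072)) (c (l 16640400) (l 16632816))) (b (c (a (l 16644504) (l 16650000)) (l 16659864)) (c (l 16668576) (l 16646056)))))), by decide +kernel⟩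

def k35_pm_012 : ∃ t, chk3 f_pm_012 t 7 6 1 = true :=
  ⟨(a (b (a (b (a (b (l 16701616) (l 16688136)) (b (l 16672544) (l 16661616))) (a (b (l 16675432) (l 16663648)) (b (l 16651552) (l 16642464)))) (b (a (b (l 16645032) (l 16636696)) (b (l 16619256) (l 16613496))) (a (b (l 16629256) (l 16622856)) (b (l 16608680) (l 16604912))))) (a (b (a (b (c (l 16670640) (l 16635320)) (c (l 16660064) (l 16626896))) (b (c (l 16650664) (l 16618432)) (c (l 16642960) (l 16612728)))) (a (b (c (a (l 16654536) (l 16647112)) (a (l 16622976) (l 16616936))) (c (a (l 16646048) (l 16640120)) (a (l 16616928) (l 16612288)))) (a (b (l 16633448) (c (l 16634496) (l 16607960))) (b (l 16640504) (c (l 16629200) (l 16603960)))))) (b (a (b (c (l 16632216) (l 16603064)) (c (l 16627336) (l 16600024))) (b (l 16633776) (a (l 16604016) (l 16598112)))) (a (a (b (l 16634800) (c (l 16624240) (l 16600280))) (b (l 16608488) (c (l 16619624) (l 16596944)))) (b (a (l 16603520) (l 16598928)) (a (l 16636080) (l 16622336))))))) (a (b (b (a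 (l 16614768) (l 16594136)) (a (b (l 16589920) (l 16588736)) (b (l 16573072) (l 16574424)))) (b (a (b (l 16609696) (a (l 16592616) (l 16587552))) (b (l 16597944) (a (l 16582944) (l 16578800)))) (a (b (a (l 16594744) (l 16590968)) (a (l 16598488) (l 16596016))) (b (a (l 16587640) (l 16584744)) (a (l 16593952) (l 16592280)))))) (b (b (a (l 16575680) (a (l 16542328) (l 16534840))) (a (b (l 16558304) (l 16562136)) (a (l 16551496) (l 16546336)))) (a (a (b (l 16593232) (b (l 16582272) (l 16591000))) (b (l 16589424) (b (l 16580224) (l 16590112)))) (b (a (l 16586080) (b (l 16557624) (l 16566808))) (a (b (l 16578600) (l 16589600)) (b (l 16577384) (l 16589472)))))))), by decide +kernel⟩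

def k36_pm_012 : ∃ t, chk3 f_pm_012 t 28 14 1 = true :=
  ⟨(b (a (b (c (a (l 16639256) (l 16634832)) (a (l 16612680) (l 16609456))) (c (a (b (l 16635360) (l 16633456)) (b (l 16632064) (l 16630920))) (a (b (l 16610752) (l 16610192)) (b (l 16608592) (l 16608744))))) (b (c (a (l 16630688) (l 16626848)) (a (l 16606520) (l 16603880))) (c (a (b (l 16629040) (l 16628648)) (b (l 16626296) (l 16626632))) (a (b (l 16606704) (l 16607544)) (l 16626800))))) (a (b (c (a (b (l 16632128) (l 16631384)) (b (l 16630344) (l 16630360))) (a (b (l 16610208) (l 16610832)) (b (l 16609464) (l 16610792)))) (c (a (b (l 16631256) (l 16631760)) (b (l 16630984) (l 16632248))) (a (b (l 16612080) (l 16613984)) (b (l 16612744) (l 16615352))))) (b (c (a (b (l 16628808) (l 16629568)) (b (l 16627520) (l 16629000))) (a (b (l 16608960) (l 16610976)) (b (l 16608704) (l 16611392)))) (c (a (b (l 16630928) (l 16632920)) (b (l 16631088) (l 16633816))) (a (b (l 16613616) (l 16616896)) (b (l 16614704) (l 16618664))))))), by decide +kernel⟩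

def k37_pm_012 : ∃ t, chk3 f_pm_012 t 29 14 1 = true :=
  ⟨(b (a (b (a (c (l 16623320) (l 16601544)) (c (l 16620104) (l 16599512))) (a (c (b (l 16623848) (l 16624888)) (l 16625792)) (c (l 16643520) (l 16604120)))) (b (a (c (l 16617240) (l 16597824)) (c (l 16614720) (l 16596464))) (a (c (l 16621080) (l 16603720)) (c (l 16619952) (l 16603648))))) (a (b (a (c (b (l 16626496) (l 16628696)) (b (l 16608696) (l 16612056))) (c (b (l 16625760) (l 16628672)) (b (l 16608976) (l 16612992)))) (a (c (b (l 16631504) (l 16634952)) (b (l 16616032) (l 16620664))) (c (b (l 16632200) (l 16636360)) (b (l 16617632) (l 16622912))))) (b (a (c (b (l 16625344) (l 16628960)) (l 16632840)) (c (b (l 16625248) (l 16629544)) (l 16634032))) (a (c (b (l 16633176) (l 16638016)) (b (l 16619488) (l 16625400))) (c (b (l 16634432) (l 16639936)) (b (l 16621616) (l 16628128))))))), by decide +kernel⟩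

def k38_pm_012 : ∃ t, chk3 f_pm_012 t 14 30 1 = true :=
  ⟨(a (b (a (c (a (b (l 16632936) (l 16634808)) (b (l 16634176) (l 16647264))) (a (b (l 16616568) (l 16619856)) (b (l 16618624) (l 16622600)))) (a (c (b (l 16656552) (c (l 16642272) (l 16635592))) (b (l 16620856) (l 16625520))) (c (b (l 16658176) (l 16651776)) (b (l 16623296) (l 16628624))))) (a (b (c (a (l 16637392) (l 16650592)) (a (l 16623880) (l 16627312))) (c (a (l 16640728) (l 16654680)) (a (l 16628656) (l 16632776)))) (b (c (a (l 16650864) (c (l 16648920) (l 16643248))) (a (l 16630904) (l 16634680))) (c (a (l 16658304) (c (l 16654136) (l 16649096))) (a (l 16637048) (l 16641480)))))) (a (b (a (c (b (l 16639064) (l 16654352)) (b (l 16625960) (l 16631944))) (c (b (l 16641168) (l 16657136)) (b (l 16628848) (l 16635464)))) (b (c (a (c (l 16652024) (l 16646696)) (c (l 16655328) (l 16650328))) (a (l 16638640) (l 16642776))) (c (a (c (l 16657952) (l 16653224)) (c (l 16661928) (l 16657512))) (a (l 16646064) (l 16650816))))) (b (a (c (b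 (l 16643504) (l 16660136)) (b (l 16631952) (l 16639176))) (c (b (l 16646072) (l 16652864)) (b (l 16635280) (l 16643096)))) (b (a (c (c (l 16658816) (l 16654152)) (l 16647096)) (c (c (l 16662496) (l 16658160)) (l 16651584))) (a (c (c (l 16666080) (l 16661960)) (l 16655720)) (c (c (l 16670392) (l 16666576)) (l 16660776))))))), by decide +kernel⟩

def k39_pm_012 : ∃ t, chk3 f_pm_012 t 14 31 1 = true :=
  ⟨(a (b (a (b (c (a (l 16644840) (l 16649056)) (a (l 16634232) (l 16639032))) (c (a (l 16649784) (l 16654736)) (a (l 16640640) (l 16646112)))) (b (c (a (l 16663904) (c (l 16660112) (l 16655712))) (a (l 16643968) (l 16649040))) (c (a (l 16659808) (l 16675488)) (a (l 16651704) (l 16657400))))) (a (b (c (a (l 16655576) (l 16661256)) (a (l 16647904) (l 16654040))) (c (a (l 16662264) (l 16668656)) (a (l 16656072) (l 16662848)))) (b (c (a (l 16667032) (l 16683384)) (a (l 16660264) (l 16666584))) (c (a (l 16675112) (l 16692120)) (a (l 16669696) (l 16676608)))))) (b (a (b (c (a (c (l 16664624) (l 16660504))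 (c (l 16669272) (l 16665432))) (a (l 16654248) (l 16659592))) (c (a (c (l 16672064) (l 16668560)) (c (l 16677368) (l 16674112))) (a (l 16663216) (l 16669144)))) (b (a (c (c (l 16674064) (l 16670496)) (l 16665072)) (c (c (l 16684248) (l 16675704)) (l 16675928))) (a (c (c (l 16688040) (l 16679784)) (l 16680424)) (a (b (l 16690568) (l 16691816)) (c (l 16688392) (l 16682888)))))) (a (b (c (a (b (l 16676632) (l 16681104)) (b (l 16682528) (l 16687320))) (a (l 16672984) (l 16689968))) (a (c (b (l 16685792) (l 16690688)) (l 16683584)) (c (b (l 16692312) (l 16697504)) (b (l 16687744) (l 16693528))))) (b (a (c (b (l 16688536) (l 16693616)) (b (l 16683248) (l 16688888))) (c (b (l 16694640) (l 16700008)) (b (l 16689800) (l 16695696)))) (c (a (b (l 16698904) (l 16704392)) (b (l 16710816) (l 16716584))) (a (b (l 16694728) (l 16700776)) (b (l 16701792) (l 16708088)))))))), by decide +kernel⟩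

def k40_pm_012 : ∃ t, chk3 f_pm_012 t 15 14 1 = true :=
  ⟨(a (b (a (b (a (c (l 16612592) (l 16595472)) (l 16623800)) (a (c (l 16619176) (l 16603904)) (c (l 16618736) (l 16604480)))) (b (a (l 16622976) (l 16622520)) (a (c (l 16618640) (l 16605376)) (c (l 16618880) (l 16606584))))) (a (b (a (c (l 16648904) (l 16614536)) (c (l 16649752) (l 16616304))) (b (a (c (l 16635952) (l 16623992)) (l 16653152)) (a (c (l 16642096) (l 16631088)) (c (l 16644512) (l 16634288))))) (b (a (c (l 16650896) (l 16618344)) (c (l 16631368) (l 16620664))) (b (a (l 16655624) (l 16658352)) (a (c (l 16647168) (l 16637720)) (c (l 16650072) (l 16641376))))))) (a (b (b (a (l 16601440) (l 16601680)) (a (l 16634736) (l 16636088))) (b (a (c (l 16633096) (l 16623248)) (c (l 16635104) (l 16626104))) (a (b (l 16661328) (c (l 16653208) (l 16645264))) (b (l 16664552) (c (l 16656576) (l 16649368)))))) (b (a (b (l 16602272) (l 16637752)) (b (l 16624176) (a (l 16618216) (l 16619280)))) (a (b (c (l 16658368) (l 16629224)) (b (l 16668016)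 (l 6))) (b (a (l 16635504) (l 6)) (l 6)))))), by decide +kernel⟩

def k41_pm_012 : ∃ t, chk3 f_pm_012 t 15 15 1 = true :=
  ⟨(a (b (a (b (a (c (b (l 16648864) (l 16656280)) (b (l 16638824) (l 16647208))) (c (b (l 16651888) (l 16659904)) (b (l 16642584) (l 16651512)))) (a (b (c (a (l 16663328) (l 16665384)) (l 16656256)) (c (a (l 16671936) (l 16674288)) (l 16676480))) (b (c (a (l 16667488) (l 16669640)) (l 16661096)) (c (a (l 16676680) (l 16679120)) (l 16681848))))) (b (a (b (c (l 16655136) (l 16646552)) (c (l 16663728) (l 16656008))) (b (c (l 16658608) (l 16650728)) (c (l 16667752) (l 16660696)))) (a (b (c (a (l 16671840) (l 16674080)) (l 16666112)) (c (a (l 16681592) (l 16684104)) (a (l 16675480) (l 16678280)))) (a (b (c (l 16676368) (l 16669984)) (c (l 16686656) (l 16681112))) (b (l 16688768) (l 6)))))) (b (a (b (b (a (c (l 16680120) (l 16673736)) (c (l 16685328) (l 16679488))) (a (c (l 16685024) (l 16679136)) (c (l 16690512) (l 16685144)))) (a (c (b (l 16690112) (l 16695384)) (b (l 16684720)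 (l 16690488))) (c (b (l 16695880) (c (l 16702512) (l 16700328))) (b (l 16690976) (l 16696992))))) (b (a (c (a (l 16702504) (l 16705288)) (a (l 16686808) (l 16689848))) (l 6)) (l 6))) (a (a (b (c (b (l 16706088) (c (l 16707440) (l 16705528))) (b (l 16696448) (l 16702592))) (c (b (c (l 16713152) (l 16711496)) (c (l 16724304) (l 16722896))) (b (l 16719416) (l 16720712)))) (a (b (b (a (l 16713208) (l 16714840)) (l 6)) (l 6)) (l 6))) (l 6)))) (b (a (b (a (b (c (l 16662288) (l 16655112)) (c (l 16682464) (l 16665568))) (l 6)) (l 6)) (l 6)) (l 6))), by decide +kernel⟩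

theorem s42_pm_012 : ∃ t, chk3 f_pm_012 t 15 7 1 = true := ex3_b k40_pm_012 k41_pm_012

theorem s43_pm_012 : ∃ t, chk3 f_pm_012 t 14 15 1 = true := ex3_b k38_pm_012 k39_pm_012

theorem s44_pm_012 : ∃ t, chk3 f_pm_012 t 14 14 1 = true := ex3_a k36_pm_012 k37_pm_012

theorem s45_pm_012 : ∃ t, chk3 f_pm_012 t 14 7 1 = true := ex3_b s44_pm_012 s43_pm_012

theorem s46_pm_012 : ∃ t, chk3 f_pm_012 t 7 7 1 = true := ex3_a s45_pm_012 s42_pm_012

theorem s47_pm_012 : ∃ t, chk3 f_pm_012 t 7 3 1 = true := ex3_b k35_pm_012 s46_pm_012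

theorem s48_pm_012 : ∃ t, chk3 f_pm_012 t 13 15 1 = true := ex3_b k33_pm_012 k34_pm_012

theorem s49_pm_012 : ∃ t, chk3 f_pm_012 t 13 7 1 = true := ex3_b k32_pm_012 s48_pm_012

theorem s50_pm_012 : ∃ t, chk3 f_pm_012 t 12 15 1 = true := ex3_b k30_pm_012 k31_pm_012

theorem s51_pm_012 : ∃ t, chk3 f_pm_012 t 12 7 1 = true := ex3_b k29_pm_012 s50_pm_012

theorem s52_pm_012 : ∃ t, chk3 f_pm_012 t 6 7 1 = true := ex3_a s51_pm_012 s49_pm_012

theorem s53_pm_012 : ∃ t, chk3 f_pm_012 t 6 3 1 = true := ex3_b k28_pm_012 s52_pm_012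

theorem s54_pm_012 : ∃ t, chk3 f_pm_012 t 3 3 1 = true := ex3_a s53_pm_012 s47_pm_012

theorem s55_pm_012 : ∃ t, chk3 f_pm_012 t 3 2 1 = true := ex3_a k26_pm_012 k27_pm_012

theorem s56_pm_012 : ∃ t, chk3 f_pm_012 t 3 1 1 = true := ex3_b s55_pm_012 s54_pm_012

theorem s57_pm_012 : ∃ t, chk3 f_pm_012 t 23 31 1 = true := ex3_b k24_pm_012 k25_pm_012

theorem s58_pm_012 : ∃ t, chk3 f_pm_012 t 22 63 1 = true := ex3_a k22_pm_012 k23_pm_012

theorem s59_pm_012 : ∃ t, chk3 f_pm_012 t 22 31 1 = true := ex3_b k21_pm_012 s58_pm_012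

theorem s60_pm_012 : ∃ t, chk3 f_pm_012 t 11 31 1 = true := ex3_a s59_pm_012 s57_pm_012

theorem s61_pm_012 : ∃ t, chk3 f_pm_012 t 11 15 1 = true := ex3_b k20_pm_012 s60_pm_012

theorem s62_pm_012 : ∃ t, chk3 f_pm_012 t 11 7 1 = true := ex3_b k19_pm_012 s61_pm_012

theorem s63_pm_012 : ∃ t, chk3 f_pm_012 t 21 31 1 = true := ex3_a k17_pm_012 k18_pm_012

theorem s64_pm_012 : ∃ t, chk3 f_pm_012 t 21 15 1 = true := ex3_b k16_pm_012 s63_pm_012

theorem s65_pm_012 : ∃ t, chk3 f_pm_012 t 20 63 1 = true := ex3_a k14_pm_012 k15_pm_012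

theorem s66_pm_012 : ∃ t, chk3 f_pm_012 t 20 31 1 = true := ex3_b k13_pm_012 s65_pm_012

theorem s67_pm_012 : ∃ t, chk3 f_pm_012 t 20 15 1 = true := ex3_b k12_pm_012 s66_pm_012

theorem s68_pm_012 : ∃ t, chk3 f_pm_012 t 10 15 1 = true := ex3_a s67_pm_012 s64_pm_012

theorem s69_pm_012 : ∃ t, chk3 f_pm_012 t 10 7 1 = true := ex3_b k11_pm_012 s68_pm_012

theorem s70_pm_012 : ∃ t, chk3 f_pm_012 t 5 7 1 = true := ex3_a s69_pm_012 s62_pm_012

theorem s71_pm_012 : ∃ t, chk3 f_pm_012 t 5 3 1 = true := ex3_b k10_pm_012 s70_pm_012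

theorem s72_pm_012 : ∃ t, chk3 f_pm_012 t 5 2 1 = true := ex3_b k8_pm_012 k9_pm_012

theorem s73_pm_012 : ∃ t, chk3 f_pm_012 t 5 1 1 = true := ex3_b s72_pm_012 s71_pm_012

theorem s74_pm_012 : ∃ t, chk3 f_pm_012 t 19 31 1 = true := ex3_b k6_pm_012 k7_pm_012

theorem s75_pm_012 : ∃ t, chk3 f_pm_012 t 19 15 1 = true := ex3_b k5_pm_012 s74_pm_012

theorem s76_pm_012 : ∃ t, chk3 f_pm_012 t 9 15 1 = true := ex3_a k4_pm_012 s75_pm_012

theorem s77_pm_012 : ∃ t, chk3 f_pm_012 t 9 7 1 = true := ex3_b k3_pm_012 s76_pm_012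

theorem s78_pm_012 : ∃ t, chk3 f_pm_012 t 9 3 1 = true := ex3_b k2_pm_012 s77_pm_012

theorem s79_pm_012 : ∃ t, chk3 f_pm_012 t 9 1 1 = true := ex3_b k1_pm_012 s78_pm_012

theorem s80_pm_012 : ∃ t, chk3 f_pm_012 t 4 1 1 = true := ex3_a k0_pm_012 s79_pm_012

theorem s81_pm_012 : ∃ t, chk3 f_pm_012 t 2 1 1 = true := ex3_a s80_pm_012 s73_pm_012

theorem s82_pm_012 : ∃ t, chk3 f_pm_012 t 1 1 1 = true := ex3_a s81_pm_012 s56_pm_012

theorem c_pm_012 : CertN 0 536870912 0 536870912 402653184 67108864 3 false true false .pnp 0 1 2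
    ndN0q0 ndN0q2 pcN1 cut_pm_012 Ext.none :=
  certN2 (fam := false) (s1 := true) (s2 := false) (a := 0) (b := 1) (c := 2) (cn := .pnp) (n1 := ndN0q0) (n2 := ndN0q2) (pc := pcN1) (cut := cut_pm_012) (xt := Ext.none) (P1 := 0) (W1 := 536870912) (P2 := 0) (W2 := 536870912) (P3 := 402653184) (W3 := 67108864) (N0 := 3)
    rfl (fun _ => rfl) s82_pm_012

noncomputable def cut_pm_022 : Cut := Cut.of [[⟨0, 0, 0, 67108864⟩, ⟨1, 1, 0, 67108864⟩, ⟨2, 1, 0, 67108864⟩]]

noncomputable def f_pm_022 : ℕ → ℕ → ℕ → ℕ → Bool := onCell 0 536870912 0 536870912 402653184 67108864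
    (rowN 3 0 false true false .pp 0 2 2 (qsf 0 536870912 0 536870912 2) ndN0q0 ndN0q2 pcN2 cut_pm_022 Ext.none)

def k0_pm_022 : ∃ t, chk3 f_pm_022 t 2 2 1 = true :=
  ⟨(a (b (a (b (l 16471008) (b (l 16462288) (l 16515760))) (b (l 16475480) (b (l 16478624) (l 16505144)))) (a (b (a (b (l 16471280) (l 16489160)) (b (l 16462744) (l 16477776))) (a (b (l 16529424) (l 16591536)) (a (l 16570184) (l 16562440)))) (b (a (b (l 16454480) (l 16466584)) (l 16513952)) (a (a (l 16533728) (l 16546928)) (a (l 16539096) (b (l 16462408) (l 16473352))))))) (a (a (b (b (l 16481216) (l 16444136)) (b (b (l 16458696) (l 16464728)) (b (l 16493312) (l 16501976)))) (b (b (l 1) (l 1)) (l 1))) (l 1))), by decide +kernel⟩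

def k1_pm_022 : ∃ t, chk3 f_pm_022 t 2 3 1 = true :=
  ⟨(a (b (a (a (b (b (a (l 16554128) (l 16544312)) (a (b (l 16570192) (l 16581216)) (l 16585632))) (b (a (b (l 16613472) (l 16646072)) (b (l 16580456) (l 16591456))) (a (b (a (l 16619504) (l 16612872)) (a (l 16653168) (l 16625256))) (b (l 16623856) (l 16646264))))) (b (b (a (l 16534512) (l 16524704)) (b (l 16585128) (l 16615504))) (b (a (b (l 16568376) (l 16578736)) (l 16603088)) (a (b (l 16589536) (l 16621800)) (b (l 16576104) (l 16586752)))))) (b (a (b (l 16572800) (a (l 16531208) (l 16519920))) (b (a (l 16494968) (l 16484840)) (a (l 16529480) (l 1)))) (a (b (a (l 16569576) (b (l 16531712) (l 16540080))) (a (b (l 16562560) (a (l 16576128) (l 16568984))) (b (l 16569848) (l 1)))) (b (a (b (l 16519248) (l 1)) (l 1)) (l 1))))) (a (b (b (a (a (a (b (c (l 16648856) (l 16642064)) (c (l 16683368) (l 16677392))) (b (l 16659192) (l 16672840))) (b (c (l 16651528) (l 16645040)) (a (l 16665280) (l 16636720)))) (a (b (a (l 16616376) (l 16609048)) (c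 (l 16648968) (l 16643520))) (b (l 16618952) (a (l 16613776) (b (l 16603016) (l 16609096)))))) (a (l 6) (a (l 6) (a (l 6) (a (l 6) (l 1)))))) (a (l 6) (a (l 6) (l 1)))) (b (a (b (a (b (a (l 16586864) (l 16579384)) (a (l 16598288) (l 1))) (l 1)) (l 1)) (l 1)) (l 1)))) (b (l 1) (l 1))), by decide +kernel⟩

def k2_pm_022 : ∃ t, chk3 f_pm_022 t 3 1 1 = true :=
  ⟨(l 1), by decide +kernel⟩

theorem s3_pm_022 : ∃ t, chk3 f_pm_022 t 2 1 1 = true := ex3_b k0_pm_022 k1_pm_022

theorem s4_pm_022 : ∃ t, chk3 f_pm_022 t 1 1 1 = true := ex3_a s3_pm_022 k2_pm_022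

theorem c_pm_022 : CertN 0 536870912 0 536870912 402653184 67108864 3 false true false .pp 0 2 2
    ndN0q0 ndN0q2 pcN2 cut_pm_022 Ext.none :=
  certN0 (fam := false) (s1 := true) (s2 := false) (a := 0) (b := 2) (c := 2) (cn := .pp) (n1 := ndN0q0) (n2 := ndN0q2) (pc := pcN2) (cut := cut_pm_022) (xt := Ext.none) (P1 := 0) (W1 := 536870912) (P2 := 0) (W2 := 536870912) (P3 := 402653184) (W3 := 67108864) (N0 := 3)
    rfl s4_pm_022

noncomputable def cut_pm_101 : Cut := Cut.of [[⟨0, 1, 0, 33554432⟩, ⟨1, 0, 0, 33554432⟩, ⟨2, 1, 0, 33554432⟩]]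

noncomputable def f_pm_101 : ℕ → ℕ → ℕ → ℕ → Bool := onCell 536870912 536870912 536870912 536870912 402653184 67108864
    (rowN 3 0 false true false .npn 1 0 1 (qsf 536870912 536870912 536870912 536870912 0) ndN0q1 ndN0q1 pcN0 cut_pm_101 Ext.none)

def k0_pm_101 : ∃ t, chk3 f_pm_101 t 8 4 1 = true :=
  ⟨(b (l 4) (a (b (l 4) (b (l 4) (a (l 4) (b (l 4) (a (l 4) (b (l 4) (a (l 4) (b (l 191897851367) (l 182771041911))))))))) (b (b (l 4) (a (l 4) (b (l 4) (a (l 4) (b (l 4) (a (l 4) (b (l 4) (l 188139751335)))))))) (b (a (b (l 4) (a (l 4) (b (l 4) (a (l 4) (b (l 192971593127) (l 187066009527)))))) (b (a (b (l 4) (a (l 4) (b (l 4) (l 188139751367)))) (b (a (b (l 4) (l 187602880439)) (b (l 180086684183) (l 16799136))) (a (b (l 179012942327) (l 16799064)) (l 16795616)))) (a (b (a (b (l 193508464007) (l 187602880455)) (b (l 177939200439) (l 16798976))) (a (b (l 176865458535) (l 16798864)) (l 16795216))) (b (l 16792544) (l 16784288))))) (a (b (a (b (l 4) (a (l 4) (b (l 192434722263) (l 183844783959))))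 (b (a (b (l 191897851335) (l 184381654935)) (b (l 175791716599) (l 16798736))) (a (b (l 174717976919) (l 16798560)) (l 16794680)))) (a (b (a (b (l 192971593207) (l 183307912967)) (b (l 173644235063) (l 16798352))) (a (b (l 172570493479) (l 16798104)) (l 16793912))) (a (l 16811744) (l 16781808)))) (b (a (a (l 16812688) (l 16783384)) (l 16777248)) (l 16826432))))))), by decide +kernel⟩

def k1_pm_101 : ∃ t, chk3 f_pm_101 t 9 4 1 = true :=
  ⟨(b (a (a (l 4) (l 1)) (l 1)) (b (a (b (a (a (l 4) (b (l 4) (a (l 4) (b (l 4) (a (l 4) (l 191360976423)))))) (b (l 1) (a (a (b (l 1) (l 311418728823)) (l 1)) (l 1)))) (a (b (a (b (l 4) (a (l 4) (b (l 4) (l 189213493079)))) (b (a (a (l 4) (l 189213493031)) (a (l 182234167831) (l 16799304))) (a (b (l 181697296935) (l 16799272)) (l 16796128)))) (b (a (a (b (l 4) (l 189213493127)) (b (l 181160426023) (l 16799240))) (a (l 16796032) (l 16790224))) (a (a (b (l 180623555111) (l 16799192)) (l 16795912)) (l 16786016)))) (b (a (a (b (l 16796136) (l 16790424)) (l 16786520))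 (l 16768512)) (l 16842664)))) (a (b (l 1) (l 16808368)) (l 1))) (b (a (a (b (a (b (l 16798272) (l 16785256)) (l 16773160)) (l 16823960)) (l 16807632)) (a (l 16843664) (l 16863352))) (a (a (l 16807744) (l 16843760)) (l 16870712))))), by decide +kernel⟩

def k2_pm_101 : ∃ t, chk3 f_pm_101 t 4 5 1 = true :=
  ⟨(b (a (a (b (b (a (b (l 4) (a (l 4) (b (l 4) (a (l 197803437207) (b (a (l 4) (l 185455397943)) (a (l 184381655975) (l 16800888))))))) (b (a (b (l 4) (a (l 4) (b (l 190824109431) (a (l 187602881911) (l 16801344))))) (b (a (b (l 191360980423) (a (l 188676623879) (l 175254846999))) (b (l 171496751655) (l 16797816))) (a (l 163980559127) (l 16792920)))) (a (b (a (b (l 190287238407) (a (l 185992268983) (l 16801136))) (l 161833075191)) (a (l 159148719911) (l 16791648))) (b (l 16788400) (l 16780112))))) (a (b (a (b (a (l 4) (b (l 4) (l 197266564103))) (a (b (l 4) (l 194582209319)) (b (a (l 194582207319) (l 181697300871)) (a (l 180086687911) (l 16800224))))) (b (a (b (a (l 196729691159) (l 183307913991))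 (a (l 182771042903) (l 16800584))) (l 16797816)) (a (l 16797328) (l 16790024)))) (a (b (a (b (a (l 191360981543) (l 179012942407)) (a (l 173107362423) (l 16799832))) (l 16796800)) (a (l 16796224) (l 16788136))) (l 16803768))) (a (b (l 16823752) (l 16785360)) (l 16810536)))) (b (a (a (a (l 16825760) (l 16806400)) (l 16792192)) (l 16815848)) (a (l 16819152) (l 16844512)))) (b (b (a (a (a (b (l 16789536) (l 16780832)) (l 16821944)) (l 16828552)) (l 16809192)) (a (l 16812272) (l 16848912))) (b (a (l 16846496) (l 16859112)) (l 16864216)))) (a (b (b (a (l 16845440) (l 16862360)) (l 16868240)) (l 16903776)) (b (b (l 16887200) (l 16903912)) (b (l 16920312) (l 16935928))))) (a (a (b (a (l 16847768) (l 16860752)) (a (b (l 16865800) (l 16877968)) (l 16886456))) (b (b (l 16877896) (l 16891408)) (a (l 16902480) (l 16919392)))) (a (b (a (l 16911192) (l 16929464)) (a (l 16936968) (l 16955040))) (b (a (l 16948152) (l 16966976)) (a (l 16973408) (l 16991912)))))), by decide +kernel⟩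

def k3_pm_101 : ∃ t, chk3 f_pm_101 t 5 2 1 = true :=
  ⟨(b (a (b (l 1) (a (b (l 1) (a (l 16888360) (l 1))) (l 1))) (l 1)) (a (b (a (b (b (a (l 16915424) (l 16934432)) (l 16941728)) (b (l 16958280) (l 16973896))) (b (b (l 1) (l 16979704)) (b (l 16996048) (l 17011440)))) (b (a (a (l 16985848) (l 17004632)) (a (l 17023256) (l 17041528))) (a (a (l 17010456) (l 17028816)) (a (l 17047024) (l 17064936))))) (b (a (a (b (l 1) (l 17031088)) (l 1)) (l 1)) (c (a (b (l 17098304) (l 17100880)) (b (l 17192848) (l 17173104))) (a (b (b (l 17051400) (l 17063888)) (b (l 17075008) (l 17084656))) (a (b (l 17082568) (l 17104928)) (b (l 1) (l 17120296)))))))), by decide +kernel⟩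

def k4_pm_101 : ∃ t, chk3 f_pm_101 t 4 6 1 = true :=
  ⟨(b (a (b (a (a (l 16894576) (l 16909464)) (a (l 16925288) (l 16941872))) (a (a (b (l 16909040) (l 16916976)) (b (l 16923808) (l 16931608))) (a (l 16943384) (l 16959608)))) (b (a (a (l 16958952) (l 16976424)) (a (l 16994208) (l 17012184))) (a (a (l 16976184) (l 16993096)) (a (l 17010200) (l 17027392))))) (b (a (a (a (b (l 16923536) (l 16928888)) (b (l 16938000) (l 16943072))) (a (b (l 16953336) (l 16958184)) (l 16982224))) (a (a (l 16987888) (l 17004240)) (a (l 17020672) (l 17037120)))) (a (a (a (b (l 16933264) (l 16937000)) (b (l 16947032) (l 16950152))) (a (b (l 16961808) (l 16964448)) (b (l 16977232) (l 16979472)))) (a (a (l 16994072) (l 17009800)) (a (l 17025560) (l 17041224)))))), by decide +kernel⟩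

def k5_pm_101 : ∃ t, chk3 f_pm_101 t 4 7 1 = true :=
  ⟨(b (a (a (b (b (a (l 16940624) (l 16952832)) (a (b (l 16943680) (b (a (l 16944600) (l 16950224)) (l 16957096))) (a (b (l 16953168) (l 16963136)) (b (a (l 16957896) (l 16961176)) (l 16971568))))) (b (a (b (l 16975992) (l 17005416)) (a (l 16998512) (l 17004272))) (a (b (l 17040112) (l 17080512)) (a (l 17061288) (l 17062816))))) (b (b (a (l 16966408) (a (l 16977216) (l 16985416))) (a (b (b (l 16968640) (c (l 16999960) (l 16942288))) (l 16983712)) (a (b (l 16981272) (l 16995680)) (l 16996272)))) (a (b (c (l 17038776) (l 16987072)) (c (l 17086944) (l 17044088))) (b (l 17024784) (l 17070048))))) (b (b (a (b (l 17003104) (a (l 16997248) (l 17012048))) (b (a (l 17026960) (l 17041760)) (a (l 17028000) (l 17044000)))) (a (a (l 17008736) (l 17023904)) (a (l 17038008) (l 17050968)))) (b (a (a (l 17036000) (l 17046560)) (a (l 17056360) (l 17065272))) (a (a (l 17074528) (l 17078896)) (a (l 17083000) (l 17086664)))))) (b (a (b (a (a (a (l 17092488)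 (l 17129016)) (c (l 17157464) (l 17107576))) (a (b (l 17116672) (l 17156760)) (l 17130960))) (c (a (a (l 17273632) (l 17251200)) (b (l 17203360) (l 17245008))) (a (b (a (l 17231944) (l 17210592)) (l 17245416)) (b (l 17185232) (l 17236552))))) (b (a (a (l 17126640) (l 17122952)) (a (l 17119704) (l 17116656))) (a (a (l 17214688) (l 17180032)) (l 17245632)))) (a (a (b (b (a (c (l 17296104) (l 17208352)) (l 17295664)) (a (l 17278240) (l 17280888))) (l 17234072)) (b (b (l 17398464) (l 17282360)) (l 17276584))) (a (b (l 17342784) (l 17247168)) (b (l 17193336) (l 17196456)))))), by decide +kernel⟩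

def k6_pm_101 : ∃ t, chk3 f_pm_101 t 5 3 1 = true :=
  ⟨(b (b (a (a (b (a (l 17030112) (l 17047864)) (a (l 17044520) (l 17061464))) (b (a (l 17065464) (l 17082744)) (b (l 17083896) (l 17088552)))) (a (a (b (l 17099520) (l 17110528)) (b (l 17115592) (l 17125680))) (b (a (l 17130784) (l 17144912)) (a (l 17139952) (l 17153184))))) (a (a (b (a (l 17053360) (l 17069288)) (a (l 17056536) (b (l 17071360) (l 17072200)))) (b (a (l 17084968) (l 17100312)) (b (l 17093368) (b (l 17093112) (l 17090408))))) (b (a (b (l 17121704) (l 17122016)) (c (l 17156992) (l 17201584))) (a (b (l 17120752) (b (l 17118184) (l 17112976))) (b (a (l 17139336) (l 17150248)) (l 17130952)))))) (b (a (b (a (b (a (l 17055872) (l 17070032)) (l 17067688)) (b (l 17087424) (l 17085680))) (a (b (l 17076312) (l 17090528)) (b (l 17087632) (l 17093672)))) (a (b (l 17164424) (b (l 17094704) (l 17094024))) (b (l 17131400) (l 17093000)))) (b (a (a (b (l 17111456) (l 17160880)) (b (l 17104440) (l 17120384))) (a (b (l 17096600) (l 17145488))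 (b (l 17086152) (l 17126816)))) (b (a (a (b (l 17179656) (l 17158112)) (l 17125760)) (a (l 17099896) (l 17075808))) (a (l 17157176) (l 17159688)))))), by decide +kernel⟩

def k7_pm_101 : ∃ t, chk3 f_pm_101 t 3 2 1 = true :=
  ⟨(a (b (l 1) (a (b (l 1) (a (a (b (l 1) (l 17184672)) (l 1)) (l 1))) (l 1))) (l 1)), by decide +kernel⟩

def k8_pm_101 : ∃ t, chk3 f_pm_101 t 6 3 1 = true :=
  ⟨(b (b (a (b (b (a (l 17160664) (l 1)) (a (l 17166144) (l 134788948711))) (a (a (l 17165168) (l 17196648)) (a (l 17184440) (l 17191144)))) (b (l 1) (b (l 1) (a (l 150358385927) (l 1))))) (a (b (a (a (l 17164520) (l 17257560)) (l 17330504)) (b (a (a (l 17221416) (l 17185200)) (a (l 17167520) (l 17251960))) (a (l 17140696) (l 17141352)))) (b (b (a (a (l 17193272) (l 209414073559)) (l 1)) (b (a (a (l 17189528) (l 17196024)) (l 1)) (a (a (l 17186064) (a (l 17190976) (l 17195096))) (a (a (a (a (l 250753131143) (l 1)) (l 1)) (l 1)) (l 1))))) (a (a (b (b (b (l 17182056) (l 17174248)) (l 17160672)) (l 17136168)) (b (b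 (a (l 17179768) (l 17181688)) (l 17160680)) (l 17132720))) (b (a (b (l 246458118487) (l 17162256)) (l 432752309895)) (a (b (l 17141120) (l 17121512)) (l 362422140183))))))) (b (a (a (b (l 17133640) (l 17086976)) (b (b (l 17117832) (l 17098720)) (l 17075424))) (a (b (l 17157984) (l 17120480)) (b (a (l 17079952) (l 17261648)) (l 17032632)))) (b (b (a (a (l 17072736) (l 17055656)) (a (l 17033944) (l 17006648))) (a (a (l 17106952) (l 17106144)) (a (l 17123288) (l 16989456)))) (b (a (a (l 17052048) (l 17027896)) (a (l 17001824) (l 16972384))) (a (l 17139800) (a (l 16984832) (l 16955104))))))), by decide +kernel⟩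

def k9_pm_101 : ∃ t, chk3 f_pm_101 t 7 3 1 = true :=
  ⟨(b (a (b (l 1) (b (l 1) (a (b (l 1) (l 391413161799)) (l 1)))) (l 1)) (b (a (b (b (a (a (l 17088408) (l 323767358231)) (l 1)) (a (c (l 17092072) (l 17213184)) (l 291554987415))) (a (l 17063088) (a (l 17164480) (a (l 138009998615) (l 221224944791))))) (b (l 1) (a (b (l 1) (l 380675378039)) (l 1)))) (a (b (a (b (l 16973240) (l 16955584)) (b (l 16936760) (l 16979544))) (a (a (l 16960048) (l 17005160)) (b (l 16900704) (l 16884536)))) (b (b (a (l 225519819783) (l 1)) (a (a (l 16892872) (l 221224642279)) (a (l 246457568183) (l 1)))) (a (b (l 16932496) (a (l 16854632) (l 16834200))) (a (b (l 16849112) (a (l 16818712) (l 6))) (b (l 265784788487) (l 6)))))))), by decide +kernel⟩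

theorem s10_pm_101 : ∃ t, chk3 f_pm_101 t 3 3 1 = true := ex3_a k8_pm_101 k9_pm_101

theorem s11_pm_101 : ∃ t, chk3 f_pm_101 t 3 1 1 = true := ex3_b k7_pm_101 s10_pm_101

theorem s12_pm_101 : ∃ t, chk3 f_pm_101 t 4 3 1 = true := ex3_b k4_pm_101 k5_pm_101

theorem s13_pm_101 : ∃ t, chk3 f_pm_101 t 2 3 1 = true := ex3_a s12_pm_101 k6_pm_101

theorem s14_pm_101 : ∃ t, chk3 f_pm_101 t 4 4 1 = true := ex3_a k0_pm_101 k1_pm_101

theorem s15_pm_101 : ∃ t, chk3 f_pm_101 t 4 2 1 = true := ex3_b s14_pm_101 k2_pm_101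

theorem s16_pm_101 : ∃ t, chk3 f_pm_101 t 2 2 1 = true := ex3_a s15_pm_101 k3_pm_101

theorem s17_pm_101 : ∃ t, chk3 f_pm_101 t 2 1 1 = true := ex3_b s16_pm_101 s13_pm_101

theorem s18_pm_101 : ∃ t, chk3 f_pm_101 t 1 1 1 = true := ex3_a s17_pm_101 s11_pm_101

theorem c_pm_101 : CertN 536870912 536870912 536870912 536870912 402653184 67108864 3 false true false .npn 1 0 1
    ndN0q1 ndN0q1 pcN0 cut_pm_101 Ext.none :=
  certN0 (fam := false) (s1 := true) (s2 := false) (a := 1) (b := 0) (c := 1) (cn := .npn) (n1 := ndN0q1) (n2 := ndN0q1) (pc := pcN0) (cut := cut_pm_101) (xt := Ext.none) (P1 := 536870912) (W1 := 536870912) (P2 := 536870912) (W2 := 536870912) (P3 := 402653184) (W3 := 67108864) (N0 := 3)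
    rfl s18_pm_101

noncomputable def cut_pm_102 : Cut := Cut.of [[⟨0, 1, 0, 67108864⟩, ⟨1, 0, 0, 67108864⟩, ⟨2, 1, 0, 67108864⟩]]

noncomputable def f_pm_102 : ℕ → ℕ → ℕ → ℕ → Bool := onCell 536870912 536870912 0 536870912 402653184 67108864
    (rowN 3 0 false true false .npp 1 0 2 (qsf 536870912 536870912 0 536870912 0) ndN0q1 ndN0q2 pcN0 cut_pm_102 Ext.none)

def k0_pm_102 : ∃ t, chk3 f_pm_102 t 4 2 1 = true :=
  ⟨(b (l 2) (a (l 2) (a (l 2) (b (l 2) (b (l 2) (l 16945824)))))), by decide +kernel⟩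

def k1_pm_102 : ∃ t, chk3 f_pm_102 t 10 8 1 = true :=
  ⟨(a (a (l 2) (l 3)) (l 3)), by decide +kernel⟩

def k2_pm_102 : ∃ t, chk3 f_pm_102 t 20 9 1 = true :=
  ⟨(a (l 2) (a (b (l 2) (l 16815368)) (b (b (b (l 3) (a (b (l 88751516631) (l 71571646247)) (l 96804580823))) (a (l 16801328) (b (c (l 70497915287) (l 69424155527)) (l 16801168)))) (l 16810272)))), by decide +kernel⟩

def k3_pm_102 : ∃ t, chk3 f_pm_102 t 21 18 1 = true :=
  ⟨(a (b (l 3) (a (b (a (b (l 95730838663) (a (l 16799328) (l 76403485639))) (b (l 3) (l 96804577959))) (a (l 16800096) (b (a (l 65666064903) (b (l 87677774807) (l 74792870167))) (l 16799664)))) (c (b (l 3) (a (b (l 96804589159) (a (l 66739811703) (l 79624719847))) (l 98952073287))) (b (l 3) (a (b (l 97878314279) (a (l 66202934279) (l 79087831815))) (b (l 3) (l 98415185367))))))) (l 3)), by decide +kernel⟩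

def k4_pm_102 : ∃ t, chk3 f_pm_102 t 42 19 1 = true :=
  ⟨(c (b (a (l 16807744) (b (a (l 16804528) (b (a (l 75329752791) (b (l 96267718103) (l 78014107143))) (l 16804064))) (l 16805960))) (l 16812624)) (b (a (l 16797816) (b (a (l 16795392) (b (a (l 74792864471) (b (l 96804572135) (l 78014089975))) (l 16795128))) (l 16796424))) (l 16802104))), by decide +kernel⟩

def k5_pm_102 : ∃ t, chk3 f_pm_102 t 86 76 1 = true :=
  ⟨(a (c (b (a (l 97341460039) (l 3)) (a (b (a (l 68350423223) (l 80698461639)) (l 16803736)) (b (l 96804589047) (a (b (l 79087848919) (l 16803616)) (b (l 96267718071) (a (l 69424164631) (l 80698451127))))))) (b (a (l 98415185191) (l 3)) (a (b (b (l 86604027255) (l 76403480023)) (l 16795008)) (b (l 97878314103) (a (b (l 78550960919) (l 16794992)) (b (l 96804572087) (c (l 79087836023) (l 79087827703)))))))) (b (l 3) (a (b (l 3) (a (b (l 3) (c (l 96267718071) (l 97341445623))) (l 3))) (l 3)))), by decide +kernel⟩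

def k6_pm_102 : ∃ t, chk3 f_pm_102 t 172 77 1 = true :=
  ⟨(a (l 16799904) (b (c (l 16798568) (b (l 16794992) (l 16795072))) (l 16799848))), by decide +kernel⟩

def k7_pm_102 : ∃ t, chk3 f_pm_102 t 346 154 1 = true :=
  ⟨(b (a (b (c (c (l 80161595095) (a (l 78014098775) (l 87140908199))) (a (b (l 79087834119) (l 16794992)) (c (l 87677770615) (l 87677762343)))) (c (l 16803592) (l 16794984))) (a (b (a (a (c (l 88214643879) (l 88751510951)) (l 3)) (l 3)) (c (b (c (l 80161590967) (l 79624711655)) (l 16803544)) (b (c (l 79624705767) (l 79624703207)) (l 16794992)))) (b (l 3) (c (c (l 87140916903) (b (l 96267713703) (a (l 78550969495) (l 87140902935)))) (b (c (l 96804576151) (l 97341438823)) (b (c (l 87677769287) (l 87677767575)) (a (l 16795984) (c (l 79624705751) (l 79624702887))))))))) (a (l 16799304) (c (c (l 16805840) (l 16801416)) (c (l 16797096) (l 16792888))))), by decide +kernel⟩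

def k8_pm_102 : ∃ t, chk3 f_pm_102 t 347 308 1 = true :=
  ⟨(a (a (b (l 3) (c (c (l 96267722391) (l 96804584631)) (c (l 96804576183) (l 97341438887)))) (l 3)) (l 3)), by decide +kernel⟩

def k9_pm_102 : ∃ t, chk3 f_pm_102 t 694 618 2 = true :=
  ⟨(a (b (c (a (l 79087848967) (l 87140916871)) (c (a (l 79087844695) (l 87140910327)) (a (l 79087840375) (a (l 81235324023) (l 87677776935))))) (c (l 16805736) (c (l 16802440) (l 16800280)))) (b (c (l 89288395239) (a (l 96267708439) (l 3))) (c (c (l 74256015351) (a (l 75329752663) (l 90362140071))) (a (b (c (a (l 79624715415) (l 87677779175)) (a (b (l 80698452935) (l 16800264)) (c (l 87677777015) (a (l 81772194759) (l 88751516711))))) (c (l 16802424) (c (l 16800152) (l 69424163863)))) (b (l 3) (c (l 75866618951) (b (l 77477227399) (l 71571647527)))))))), by decide +kernel⟩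

def k10_pm_102 : ∃ t, chk3 f_pm_102 t 1388 618 3 = true :=
  ⟨(b (c (a (b (c (l 80161577943) (l 80161576215)) (l 16797088)) (b (l 96804576119) (c (a (l 79087836039) (l 87677770727)) (a (l 79087834471) (b (l 96804574503) (l 80698447127)))))) (a (b (c (l 80161573719) (l 80161569623)) (l 16792936)) (b (l 96804567863) (c (a (l 79087832039) (l 87677766487)) (a (l 79087827799) (l 88214633479)))))) (c (c (l 16798144) (l 16796032)) (c (l 16793952) (l 16791904)))), by decide +kernel⟩

def k11_pm_102 : ∃ t, chk3 f_pm_102 t 1389 618 3 = true :=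
  ⟨(b (a (c (c (l 96804578231) (l 96804574055)) (c (l 97341440839) (l 97341436775))) (l 3)) (c (a (b (c (a (b (a (l 79624707031) (l 87677770631)) (l 16796832)) (b (l 3) (c (a (l 79624709063) (a (l 87677772759) (l 89288385399))) (a (b (l 87140899735) (l 68887288631)) (a (b (l 3) (l 80161577783)) (a (l 88751512471) (l 90362125207))))))) (a (b (a (l 79624705287) (l 87677768983)) (l 68350416215)) (b (l 3) (c (a (b (l 87677769207) (l 68887287319)) (b (l 3) (a (c (l 80161576791) (l 80161576311)) (a (a (l 87677769207) (l 89288381943)) (l 91435865575))))) (a (b (l 87677768423) (l 68887286583)) (b (l 3) (c (a (l 80161575767) (b (l 3) (l 80161575847))) (a (l 80161574647) (l 89825251063))))))))) (b (a (l 16797088) (a (l 16797088) (a (c (l 16798144) (l 16796040)) (c (c (l 57613001671) (l 57612999559)) (c (b (l 72108512743) (l 16796560)) (l 71571641223)))))) (l 16797088))) (a (b (l 3) (c (b (c (l 75866612647) (l 75866610535)) (l 16798120)) (b (a (c (l 74792867367) (l 74792866599)) (l 90898994487)) (l 16796024))))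 (c (l 90898998087) (l 91435864823)))) (a (b (c (a (b (a (l 79087831879) (l 87677766487)) (l 16793968)) (b (l 3) (c (a (b (l 87677766359) (l 68887284519)) (b (l 3) (a (l 80161573751) (l 89825250167)))) (a (l 79624700791) (a (l 87677764471) (l 89825248119)))))) (a (l 79087827799) (c (a (l 81772182407) (l 89288375191)) (l 88751502247)))) (a (l 16792936) (a (l 16792944) (c (a (l 16793968) (a (l 16795280) (l 69961026199))) (l 62444829511))))) (b (l 3) (a (c (b (c (l 75866606423) (l 75866604375)) (l 16793952)) (l 74255989559)) (c (l 91435862791) (l 91435858727))))))), by decide +kernel⟩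

def k12_pm_102 : ∃ t, chk3 f_pm_102 t 694 619 1 = true :=
  ⟨(b (a (c (l 16803560) (l 16794976)) (a (c (l 16803528) (l 16794984)) (c (c (l 16805664) (l 16798672)) (c (l 52781160215) (l 51707415335))))) (c (l 16803552) (l 16794960))), by decide +kernel⟩

def k13_pm_102 : ∃ t, chk3 f_pm_102 t 695 309 1 = true :=
  ⟨(b (l 3) (c (c (b (l 76940369079) (l 71571655703)) (a (a (l 73182260215) (l 74792871591)) (l 90899004023))) (b (a (c (c (l 75866612375) (l 75866608215)) (a (l 74255993607) (l 91435858487))) (l 3)) (a (c (l 16796952) (l 16792816)) (c (l 75866609687) (l 75866606311)))))), by decide +kernel⟩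

def k14_pm_102 : ∃ t, chk3 f_pm_102 t 173 155 1 = true :=
  ⟨(a (l 16799520) (a (c (l 16803720) (l 16794952)) (b (c (l 52781166039) (l 51707418119)) (l 16799056)))), by decide +kernel⟩

def k15_pm_102 : ∃ t, chk3 f_pm_102 t 87 38 1 = true :=
  ⟨(b (l 3) (b (l 3) (a (c (b (a (a (a (l 73182260375) (l 75329751255)) (l 90899007303)) (l 3)) (a (l 16802896) (l 76403491783))) (b (a (a (a (l 73182254695) (l 75329739847)) (l 91435861799)) (l 3)) (a (l 16794456) (l 76403475559)))) (l 3)))), by decide +kernel⟩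

def k16_pm_102 : ∃ t, chk3 f_pm_102 t 43 39 1 = true :=
  ⟨(a (b (a (l 16801424) (l 16800128)) (l 16803104)) (c (b (b (a (l 16802752) (l 76403490055)) (l 16802384)) (l 16803568)) (b (b (a (l 16794264) (l 76403474375)) (l 16799200)) (l 16794816)))), by decide +kernel⟩

def k17_pm_102 : ∃ t, chk3 f_pm_102 t 10 5 1 = true :=
  ⟨(b (a (a (l 273368137447) (a (l 16848800) (l 16842008))) (a (b (l 16820936) (l 16844248)) (b (a (l 16812480) (l 16806872)) (l 16831096)))) (a (b (l 16891688) (l 16918888)) (a (l 16884688) (l 16871512)))), by decide +kernel⟩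

def k18_pm_102 : ∃ t, chk3 f_pm_102 t 11 2 1 = true :=
  ⟨(b (b (l 3) (a (b (l 3) (a (b (l 3) (a (a (b (b (l 3) (l 76940350999)) (l 16796608)) (b (l 3) (l 74792865223))) (a (l 96804583479) (l 3)))) (l 3))) (l 3))) (b (a (b (a (b (b (a (l 16797200) (l 68887303223)) (l 16797408)) (l 16802640)) (b (a (b (l 95730825255) (l 71034781735)) (b (l 3) (l 97341434231))) (a (l 16794704) (l 69961041511)))) (a (l 16818168) (b (l 16800016) (l 16811136)))) (b (a (b (l 3) (a (b (l 101636397975) (l 73182260295)) (l 3))) (l 3)) (b (a (a (l 16791280) (l 53854896263)) (a (l 89825227719) (l 3))) (a (l 16798000) (a (l 16788384) (b (l 87677771207) (l 16784664))))))) (a (b (l 16837576) (l 16866008)) (b (a (l 16817552) (l 16783256)) (l 16840096))))), by decide +kernel⟩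

def k19_pm_102 : ∃ t, chk3 f_pm_102 t 2 3 1 = true :=
  ⟨(a (b (a (l 2) (b (a (l 2) (b (l 16971760) (a (l 17004072) (l 16991112)))) (a (l 221292318759) (b (l 17028872) (l 17065888))))) (a (b (a (l 2) (b (l 17151016) (l 17186368))) (a (b (l 152573017351) (a (l 17259648) (l 17258936))) (a (l 17240544) (l 17235984)))) (a (b (l 17148904) (l 17227168)) (b (l 17126448) (l 17188424))))) (b (a (b (a (b (l 16945672) (l 16971896)) (l 16870328)) (a (b (l 17063464) (l 17038032)) (a (l 16997280) (l 16983560)))) (b (a (l 16907856) (b (l 16868800) (l 16895888))) (a (b (l 16947680) (l 16977464)) (b (l 16921704) (l 16948976))))) (b (b (a (l 17065472) (l 16995760)) (a (l 17099264) (l 17010488))) (a (a (l 17137560) (l 17095000)) (a (l 17059456) (b (l 17014328) (l 17041168))))))), by decide +kernel⟩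

def k20_pm_102 : ∃ t, chk3 f_pm_102 t 3 2 1 = true :=
  ⟨(a (b (l 3) (a (b (a (b (l 3) (a (b (l 3) (l 122574361255)) (l 3))) (l 3)) (a (b (a (b (a (l 16787200) (l 104857643591)) (l 16797344)) (b (l 145659809943) (a (l 56002376215) (b (l 140827960775) (l 87140901143))))) (a (l 16816000) (b (b (l 16799112) (l 16794408)) (l 16803432)))) (b (a (b (l 3) (a (l 143512338807) (l 3))) (l 3)) (a (b (a (b (a (l 16792448) (l 87677764999)) (l 16784592)) (b (l 3) (a (l 16792136) (l 104320739863)))) (a (l 16792376) (b (l 16783896) (l 16788728)))) (b (l 3) (a (b (a (l 77477212839) (l 110763192007)) (l 57076112103)) (b (l 3) (a (l 91972706519) (l 123648094135))))))))) (l 3))) (l 3)), by decide +kernel⟩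

def k21_pm_102 : ∃ t, chk3 f_pm_102 t 12 6 1 = true :=
  ⟨(b (a (b (a (l 16841600) (l 16822368)) (l 16857984)) (b (a (b (l 16771728) (l 16812648)) (b (a (l 16790504) (b (a (l 16783664) (l 70497885463)) (l 16786976))) (a (l 16801792) (l 16795016)))) (a (l 16789464) (b (l 16810000) (l 16821992))))) (a (b (l 16884896) (l 16911552)) (b (l 16848504) (l 16874224)))), by decide +kernel⟩

def k22_pm_102 : ∃ t, chk3 f_pm_102 t 13 6 1 = true :=
  ⟨(b (a (b (a (b (a (b (a (l 101099513255) (l 3)) (a (l 16782888) (l 78550954679))) (b (l 3) (a (l 111300061783) (l 3)))) (a (b (l 16786064) (l 16791248)) (b (a (l 16787360) (l 91972716263)) (l 16785136)))) (b (l 3) (a (b (l 130090542999) (a (l 71571627735) (b (l 110226319367) (l 81772174967)))) (l 3)))) (a (b (a (l 16799584) (l 16792960)) (l 16807624)) (b (a (b (a (l 16785632) (l 16782816)) (l 16789232)) (b (a (b (l 95730801847) (l 16781400)) (l 115058157015)) (a (l 16784624) (l 58686720439)))) (a (l 16797432) (b (l 16788176) (l 16793560)))))) (b (l 3) (a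 (b (a (b (l 3) (a (b (l 112373801623) (l 73719107175)) (l 127406187239))) (l 3)) (a (b (a (l 16783576) (b (l 81235303415) (l 16781920))) (l 16787072)) (b (a (c (l 107541963799) (l 108078843463)) (l 3)) (a (b (l 16781408) (l 16783680)) (b (l 102710133975) (l 65666039207)))))) (b (l 3) (a (b (l 3) (a (b (l 3) (l 111836929639)) (l 3))) (l 3)))))) (a (b (a (l 16783504) (b (l 16763440) (l 16817072))) (l 16842640)) (b (a (b (a (l 16795232) (b (a (l 16787528) (l 16784344)) (l 16791296))) (a (l 16806616) (l 16799728))) (b (b (a (a (b (c (l 71571619623) (l 71571619655)) (l 16782512)) (b (l 121500605991) (a (l 16780504) (l 89288364407)))) (a (l 135459248423) (l 3))) (a (c (l 16785504) (l 16783864)) (a (b (a (l 74792845015) (l 108615703047)) (l 51707389559)) (b (l 3) (a (l 86067137175) (l 122574346983)))))) (a (b (l 16790088) (l 16795688)) (b (a (l 16785072) (b (a (l 16781416) (l 66202908695)) (l 16783104))) (a (l 16790536) (l 16787112)))))) (b (a (l 16814888) (a (l 16804352) (b (l 16794448) (l 16800224))))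 (a (l 16827032) (a (l 16816288) (l 16809128))))))), by decide +kernel⟩

def k23_pm_102 : ∃ t, chk3 f_pm_102 t 6 7 1 = true :=
  ⟨(b (b (a (a (l 16936336) (l 16900064)) (a (a (l 16876080) (l 16860920)) (c (l 16819992) (l 16826096)))) (a (l 16962264) (a (l 16901016) (a (b (l 16866176) (l 16880344)) (b (l 16851216) (l 16865272)))))) (a (b (a (l 16983288) (l 16954104)) (a (l 17013216) (l 16986136))) (a (b (l 16925408) (l 16958472)) (b (a (l 16903312) (l 16888040)) (l 16928800))))), by decide +kernel⟩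

def k24_pm_102 : ∃ t, chk3 f_pm_102 t 14 12 1 = true :=
  ⟨(l 3), by decide +kernel⟩

def k25_pm_102 : ∃ t, chk3 f_pm_102 t 28 13 1 = true :=
  ⟨(b (a (b (l 3) (a (b (c (a (b (l 115058154759) (l 75329717079)) (l 131701151927)) (a (b (l 115595024183) (a (l 16780240) (l 76403457223))) (l 131701150215))) (a (c (l 16784400) (l 16783024)) (b (a (l 61371068663) (b (l 117742507895) (l 78014068039))) (l 16781744)))) (b (l 3) (a (b (l 135459247463) (a (b (l 86067133879) (l 16780080)) (b (l 3) (l 101099508535)))) (l 3))))) (l 3)) (a (b (a (b (a (l 16789216) (l 16785736)) (l 16793144)) (b (a (b (c (l 16781552) (l 16780520)) (l 16783648)) (b (a (b (l 111836927271) (l 73182228663)) (l 129016796583)) (a (l 16781128) (b (l 82309036551) (l 16780176))))) (a (l 16787816) (c (l 16784904) (l 16783624))))) (a (l 16801936) (b (l 16791752) (l 16797624)))) (b (a (b (a (b (l 3) (a (b (l 3) (l 90898966023)) (l 3))) (l 3)) (a (a (c (l 16782168) (l 47412420055)) (b (b (l 106468217575) (l 68887260119)) (l 16781288)))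 (c (b (l 131701150727) (a (l 66739777271) (l 106468228567))) (b (l 131701149367) (a (l 66202906151) (b (l 130627408087) (l 86604002519))))))) (l 3)) (a (b (a (l 16786328) (b (c (l 16781816) (l 16780880)) (l 16784120))) (a (l 16792120) (l 16788432))) (b (a (b (a (b (a (l 79624679447) (l 120963732007)) (l 61371066231)) (b (l 3) (l 113984415335))) (a (l 16781432) (b (c (l 73182226295) (l 72645355287)) (l 16780368)))) (b (l 3) (a (b (l 125795570039) (a (l 62981677975) (l 101099512935))) (l 3)))) (b (a (l 16783304) (b (a (l 16779968) (a (l 76940324327) (l 116668764247))) (c (l 51170516055) (l 50096773799)))) (a (l 16786176) (c (l 16782928) (l 16781984))))))))), by decide +kernel⟩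

def k26_pm_102 : ∃ t, chk3 f_pm_102 t 29 13 1 = true :=
  ⟨(b (l 3) (a (b (l 3) (a (b (l 3) (a (b (a (c (l 121500602935) (l 121500607127)) (l 3)) (a (b (c (l 70497870983) (l 69424128951)) (l 16780440)) (a (b (l 114521280391) (l 58686709143)) (c (l 111300055463) (l 111836925431))))) (b (l 3) (a (l 138143610135) (l 3))))) (l 3))) (l 3))), by decide +kernel⟩

def k27_pm_102 : ∃ t, chk3 f_pm_102 t 15 6 1 = true :=
  ⟨(l 3), by decide +kernel⟩

def k28_pm_102 : ∃ t, chk3 f_pm_102 t 28 14 1 = true :=
  ⟨(b (b (a (a (l 16814064) (l 16806680)) (a (b (l 16796200) (l 16802256)) (b (a (l 16790576) (c (l 16787432) (l 16786168))) (l 16794680)))) (a (l 16822968) (a (l 16811624) (b (l 16800800) (l 16807080))))) (a (b (l 16836120) (l 16849944)) (b (a (l 16824592) (l 16816784)) (l 16834216)))), by decide +kernel⟩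

def k29_pm_102 : ∃ t, chk3 f_pm_102 t 58 28 1 = true :=
  ⟨(b (a (b (a (b (c (l 16782008) (l 16781168)) (l 16784480)) (b (a (a (c (l 64055419911) (l 63518548935)) (b (l 113447543607) (l 57076095719))) (b (l 3) (c (l 108615700519) (l 108615704935)))) (a (l 16781640) (b (c (l 68887257655) (l 67813515671)) (l 16780488))))) (a (l 16788928) (c (l 16785584) (l 16784536)))) (b (a (b (l 3) (a (b (c (l 121500602279) (l 122037472295)) (a (l 56539224775) (b (l 111300054295) (l 73719095719)))) (b (l 3) (l 133848642855)))) (l 3)) (a (b (a (c (l 16781064) (l 16780376)) (b (a (c (l 70497869543) (l 72645353191)) (b (l 3) (l 94657063895))) (c (l 16779856) (l 16779288)))) (c (l 16783072) (l 16782248))) (b (a (b (l 3) (a (b (l 110226312295) (l 73182224711)) (l 129016794231))) (l 3)) (a (b (a (l 16779568) (c (l 71034740503) (l 72645353159))) (l 16780504)) (c (b (l 120963730887) (a (l 16779352) (l 91972704903))) (b (l 120963735319) (a (l 16778864) (l 91972704327))))))))) (b (a (a (l 16795000) (l 16791096)) (c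 (a (l 16787720) (b (a (l 16783088) (l 16781048)) (l 16785168))) (a (l 16786584) (b (a (l 16782288) (l 16780416)) (l 16784240))))) (a (l 16799248) (a (l 16793304) (c (l 16789912) (l 16788680)))))), by decide +kernel⟩

def k30_pm_102 : ∃ t, chk3 f_pm_102 t 59 28 1 = true :=
  ⟨(b (a (b (l 3) (a (a (a (c (l 140827963127) (l 140827956823)) (l 3)) (l 3)) (l 3))) (l 3)) (a (b (a (c (b (a (b (a (l 71571611463) (l 110763183367)) (l 16779792)) (b (l 3) (a (l 88751480743) (l 130090535927)))) (a (l 16782064) (b (a (l 16779768) (l 72645353335)) (l 16780768)))) (b (a (b (a (l 70497869527) (l 111300053591)) (l 16779280)) (b (l 3) (a (b (l 110226311623) (l 16778376)) (l 130627406119)))) (a (l 16781376) (b (a (l 16779272) (l 74255963287)) (l 16780192))))) (c (b (l 3) (a (b (a (l 111300054087) (l 3)) (a (l 16779256) (b (l 110226312087) (l 16778704)))) (l 138680469207))) (b (l 3) (a (b (a (l 111300053431) (l 3)) (a (l 16778816) (b (l 110763182391) (l 16780952)))) (l 138680473591))))) (a (b (c (l 16784144) (l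 16783320)) (l 16786800)) (c (b (a (l 16781008) (b (a (l 76940318695) (l 112373800967)) (l 48486158727))) (l 16780464)) (b (a (l 16780424) (b (a (b (l 85530252087) (l 16778688)) (l 112373797719)) (l 47949287511))) (l 16779752))))) (b (l 3) (a (b (c (a (b (l 3) (a (b (l 111300053735) (l 71034738311)) (l 131701148135))) (l 3)) (a (b (l 3) (a (b (l 112373794983) (l 70497867367)) (l 132238018391))) (l 3))) (c (a (b (a (l 16779672) (b (l 88214607079) (l 16779024))) (l 16780688)) (b (a (b (l 3) (l 102173250631)) (l 3)) (a (l 16779128) (b (l 113447537207) (l 74255964279))))) (a (b (a (l 16779224) (b (l 87677735783) (l 16778640))) (l 16780168)) (b (a (b (l 3) (l 101636379223)) (l 3)) (a (l 16778736) (b (l 113984407575) (l 73182222295))))))) (b (l 3) (a (a (c (l 138143598151) (l 138680468327)) (l 3)) (l 3))))))), by decide +kernel⟩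

def k31_pm_102 : ∃ t, chk3 f_pm_102 t 29 29 1 = true :=
  ⟨(a (b (a (l 16808856) (b (l 16797584) (l 16804008))) (a (l 16822152) (l 16813944))) (b (a (b (a (l 16791480) (c (l 16787880) (l 16786856))) (a (l 16797848) (l 16793696))) (b (a (a (c (l 16784656) (l 16783872)) (b (b (c (l 16780128) (l 16779664)) (l 16781424)) (l 16783744))) (b (c (a (b (a (b (l 90362090471) (l 16778944)) (b (l 3) (l 101099505927))) (a (l 16780096) (l 54391738679))) (b (l 3) (a (b (l 115595020663) (l 78550930247)) (l 134922373031)))) (a (b (a (b (l 89825219143) (l 16778592)) (b (l 3) (l 101099505463))) (a (l 16779648) (l 53317996711))) (b (l 3) (a (b (l 116131891047) (l 77477187991)) (l 135459243335))))) (a (c (l 16781936) (l 16781360)) (c (b (a (l 16779528) (b (l 93583315767) (l 16778856))) (l 16780560)) (b (a (l 16779128) (b (l 93046444503) (l 16778528))) (l 16780096)))))) (a (c (l 16790064) (l 16788952)) (b (c (l 16784064) (l 16783360)) (l 16786872))))) (a (b (l 16802272) (l 16808920)) (b (a (l 16795944) (c (l 16792280)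 (l 16791080))) (l 16800384))))), by decide +kernel⟩

def k32_pm_102 : ∃ t, chk3 f_pm_102 t 14 15 1 = true :=
  ⟨(a (b (b (a (l 16885304) (a (l 16852472) (l 16844456))) (a (l 16880040) (l 16863552))) (a (l 16904640) (l 16887592))) (b (a (b (a (l 16836136) (l 16827696)) (a (l 16850576) (l 16883960))) (a (b (l 16819184) (b (l 16829816) (l 16836928))) (b (b (l 16807096) (l 16813952)) (b (l 16820968) (l 16828232))))) (a (b (l 16861888) (l 16877584)) (b (l 16843800) (l 16858824))))), by decide +kernel⟩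

def k33_pm_102 : ∃ t, chk3 f_pm_102 t 30 28 1 = true :=
  ⟨(l 3), by decide +kernel⟩

def k34_pm_102 : ∃ t, chk3 f_pm_102 t 60 58 1 = true :=
  ⟨(a (b (c (a (b (l 3) (a (b (a (b (l 3) (l 103783863047)) (l 3)) (a (b (l 64055415255) (l 16779336)) (b (l 118816245927) (l 81772155527)))) (b (l 3) (l 139754210391)))) (l 3)) (a (b (l 3) (a (b (a (b (l 3) (l 103783862583)) (l 3)) (a (b (l 62981673303) (l 16778968)) (b (l 119353116343) (a (l 16778264) (l 91972702055))))) (b (l 3) (l 140291080663)))) (l 3))) (a (b (c (a (b (l 16779976) (l 16781576)) (b (a (b (a (l 16779616) (l 109689440311)) (l 16778760)) (b (l 3) (a (l 95193927991) (l 130090534855)))) (a (l 16779928) (b (l 69424125063) (l 16779232))))) (a (b (l 16779568) (l 16781064)) (b (a (b (a (l 16779360) (l 110226310791)) (l 16778448)) (b (l 3) (a (l 94657056551) (l 131164276215)))) (a (l 16779536) (b (l 67276639623) (l 16778896)))))) (a (l 16783680) (c (l 16781792) (l 16781280)))) (b (c (a (b (l 3) (a (b (l 122574342055) (a (l 16778448) (l 96267669751)))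 (l 139754210599))) (l 3)) (a (b (l 3) (a (b (l 122574341591) (a (l 16778176) (l 97878282071))) (l 140827951879))) (l 3))) (a (c (b (a (l 16779328) (b (a (l 80161542151) (l 115595020183)) (l 16778648))) (l 16780384)) (b (a (l 16778992) (b (a (l 79624671095) (l 115595019767)) (l 16778368))) (l 16779976))) (c (b (a (b (l 3) (a (l 101636378727) (l 135996114631))) (l 3)) (a (b (a (l 16778608) (l 83919638599)) (l 16779120)) (b (l 126869309079) (a (l 16778328) (l 104857604183))))) (b (a (b (l 3) (a (l 99488894855) (l 137069856007))) (l 3)) (a (b (a (l 16778336) (l 83382767479)) (l 16778816)) (b (l 127406179543) (a (l 16778080) (l 104857603831)))))))))) (b (l 3) (a (b (l 3) (a (a (c (l 144586047703) (l 146196665047)) (l 3)) (l 3))) (l 3)))), by decide +kernel⟩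

def k35_pm_102 : ∃ t, chk3 f_pm_102 t 120 59 1 = true :=
  ⟨(a (b (b (c (l 16786176) (l 16785384)) (l 16788992)) (l 16793888)) (b (b (a (c (l 16782824) (l 16782264)) (a (c (l 16781144) (l 16780704)) (b (c (l 16779216) (l 16778904)) (l 16780632)))) (c (l 16784992) (l 16784304))) (c (l 16790000) (l 16789016)))), by decide +kernel⟩

def k36_pm_102 : ∃ t, chk3 f_pm_102 t 121 118 1 = true :=
  ⟨(a (b (a (c (b (a (b (a (l 87677734951) (l 122037470919)) (l 60834189223)) (b (l 3) (a (l 103783862519) (l 3)))) (a (l 16779712) (b (a (l 16778480) (l 91435831303)) (l 16779000)))) (b (a (b (a (l 86603992903) (l 122574341431)) (l 60297318215)) (b (l 3) (a (l 103783862167) (l 3)))) (a (l 16779376) (b (a (l 16778240) (l 88751476503)) (l 16778712))))) (c (b (l 3) (a (b (l 131701146983) (a (l 72108478919) (l 107541958855))) (l 3))) (b (l 3) (a (b (l 132238017479) (a (l 70497864807) (l 107541958503))) (l 3))))) (c (a (b (l 16780776) (l 16782424)) (b (a (c (l 16779152) (l 16779016)) (b (a (b (l 109689441591)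 (l 16778088)) (l 129016792503)) (c (l 65666026455) (l 65129155415)))) (c (l 16780232) (l 16780064)))) (a (b (l 16780376) (l 16781920)) (b (a (c (l 16778880) (l 16778728)) (b (a (b (l 110226312343) (l 16777888)) (l 129553663047)) (c (l 65129155351) (l 64592284343)))) (c (l 16779888) (l 16779712)))))) (b (l 3) (a (b (a (b (l 3) (a (c (l 111836926071) (l 111836925735)) (l 3))) (l 3)) (c (a (b (a (l 16778336) (b (l 115058150503) (l 74255961927))) (l 16778856)) (b (l 137069855783) (a (c (l 78550928247) (l 78014057159)) (l 115595022359)))) (a (b (a (l 16778120) (b (l 115595021255) (l 73719091047))) (l 16778600)) (b (l 137606726295) (a (c (l 77477186135) (l 76940315095)) (l 116131892919)))))) (l 3)))), by decide +kernel⟩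

def k37_pm_102 : ∃ t, chk3 f_pm_102 t 121 119 1 = true :=
  ⟨(a (a (b (l 16784584) (l 16787832)) (b (c (l 16782624) (l 16782128)) (l 16785616))) (b (a (b (c (a (l 16780080) (c (l 46875544103) (l 46875544103))) (a (l 16779752) (c (l 46875544103) (l 46875544071)))) (c (l 16781160) (l 16780760))) (b (a (b (c (a (b (l 117742503335) (l 82309024967)) (l 137069855879)) (a (b (l 118279373927) (l 81772153959)) (l 138143597351))) (c (a (l 16778496) (b (l 97878281415) (l 16778144))) (a (l 16778280) (b (l 97341410359) (l 16777952))))) (b (l 3) (a (c (l 120426860423) (l 120426860103)) (l 3)))) (a (c (l 16779440) (l 16779160)) (b (c (a (l 66202898087) (b (l 124184954151) (l 89288346855))) (a (l 63518543479) (b (l 124721824759) (l 88751475783)))) (c (l 16778704) (l 16778472)))))) (c (a (l 16783656) (b (l 16779200) (l 16782176))) (a (l 16783112) (b (l 16780168) (l 16781736)))))), by decide +kernel⟩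

def k38_pm_102 : ∃ t, chk3 f_pm_102 t 61 29 1 = true :=
  ⟨(b (l 3) (a (b (l 3) (a (b (a (b (l 3) (a (c (b (l 142975435479) (a (b (l 104320732327) (l 16778064)) (l 124721827575))) (b (l 144049176919) (a (b (l 104320732215) (l 16777888)) (l 125258698167)))) (l 3))) (l 3)) (a (c (b (a (a (l 16779072) (a (l 16778640) (b (l 76940315751) (l 16778760)))) (b (a (b (l 130627404967) (l 96267668599)) (l 3)) (a (l 16778336) (b (l 105931345735) (l 69424123159))))) (c (l 16777304) (l 16777168))) (b (a (a (l 16778824) (a (l 16778424) (b (l 75866573751) (l 16778536)))) (b (a (b (l 131701146487) (l 95730797559)) (l 3)) (a (l 16778144) (b (l 111300053927) (l 68887252247))))) (c (l 16777024) (l 16779488)))) (b (a (b (l 3) (a (c (l 129553662999) (l 130090533607)) (l 3))) (l 3)) (a (b (c (a (b (l 86603991911) (l 16778208)) (b (l 137606726679) (l 103246990375))) (a (c (l 73182218567) (l 72645347463)) (b (l 138680468199) (l 103246990279)))) (c (c (l 16778576) (l 16778488)) (c (l 16778384) (l 16778280)))) (b (l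 3) (c (a (b (l 113447538423) (l 78550928327)) (l 134385501047)) (a (b (l 113447538151) (l 76940315287)) (l 134922371655)))))))) (l 3))) (l 3))), by decide +kernel⟩

def k39_pm_102 : ∃ t, chk3 f_pm_102 t 31 14 1 = true :=
  ⟨(l 3), by decide +kernel⟩

def k40_pm_102 : ∃ t, chk3 f_pm_102 t 60 30 1 = true :=
  ⟨(b (a (b (a (l 16800536) (l 16796120)) (l 16805104)) (a (b (c (l 16792200) (l 16791128)) (l 16798376)) (b (b (c (l 16785864) (l 16785192)) (l 16788824)) (b (l 16792152) (l 16795528))))) (a (b (l 16812032) (l 16819184)) (b (a (l 16805232) (l 16800656)) (l 16809936)))), by decide +kernel⟩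

def k41_pm_102 : ∃ t, chk3 f_pm_102 t 244 120 1 = true :=
  ⟨(b (a (b (c (l 16781528) (l 16781136)) (l 16782960)) (c (b (a (l 16779776) (b (a (l 16778488) (b (a (l 16777872) (l 109152570071)) (l 16778120))) (l 16779024))) (l 16780864)) (b (a (l 16779496) (b (a (l 16778296) (b (a (l 16777728) (l 109152569831)) (l 16777952))) (l 16778800))) (l 16780520)))) (a (l 16785424) (c (l 16783392) (l 16782904)))), by decide +kernel⟩

def k42_pm_102 : ∃ t, chk3 f_pm_102 t 245 120 1 = true :=
  ⟨(b (a (b (a (b (b (l 3) (a (c (a (l 92509571751) (l 126869308471)) (a (l 92509571655) (l 127943050039))) (l 3))) (c (a (c (l 16777864) (l 16778120)) (b (l 120963728439) (a (l 16777928) (l 97878280807)))) (a (c (l 16778032) (l 16777944)) (b (l 120963728183) (c (l 82309023687) (l 82309023623)))))) (a (c (l 142438566775) (l 143512308247)) (l 3))) (a (c (c (l 16779152) (l 16779048)) (c (l 16778936) (l 16778816))) (b (b (a (c (a (l 80698411591) (l 118816246263)) (a (l 80161540567) (l 119889988023))) (l 3)) (c (a (l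 16778024) (a (l 103246989911) (l 137606726583))) (a (l 16777872) (a (l 103246989687) (l 138680468151))))) (c (a (l 16778640) (c (b (l 73182218183) (l 16778296)) (l 65129154551))) (a (l 16778448) (c (l 64592283575) (l 64592283495))))))) (b (l 3) (a (b (l 3) (a (c (b (l 128479921047) (a (l 16777840) (l 109152569959))) (b (l 129016791703) (a (l 16777704) (l 109152569751)))) (l 3))) (l 3)))) (a (c (b (c (l 16777632) (l 16777496)) (l 16781872)) (b (c (l 16779976) (l 16779824)) (l 16781488))) (b (a (b (c (a (l 16778296) (b (a (l 93046442583) (l 126332437447)) (c (l 16777960) (l 16777896)))) (a (l 16778136) (b (a (l 90362087783) (l 126869308119)) (l 67813509623)))) (c (l 16778832) (l 16778640))) (b (a (a (b (l 3) (c (l 114521279063) (l 114521278855))) (l 3)) (l 3)) (a (c (b (a (l 16777896) (l 98415151639)) (l 16778160)) (b (a (l 16777768) (l 98415151575)) (l 16778008))) (c (b (l 136532984567) (a (l 81772153335) (l 119889987975))) (b (l 137069855223) (a (l 81235282343) (l 120426858839))))))) (c (a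 (l 16780096) (b (c (l 16777872) (l 16778448)) (l 16779328))) (a (l 16779824) (a (l 16778992) (c (l 43654317751) (l 44191188679)))))))), by decide +kernel⟩

def k43_pm_102 : ∃ t, chk3 f_pm_102 t 122 121 1 = true :=
  ⟨(b (a (c (l 16787976) (l 16787216)) (c (a (l 16784424) (b (l 16781192) (l 16782888))) (a (l 16783888) (b (l 16780856) (l 16782456))))) (c (l 16783800) (l 16783000))), by decide +kernel⟩

def k44_pm_102 : ∃ t, chk3 f_pm_102 t 123 120 1 = true :=
  ⟨(a (b (l 3) (a (b (l 3) (a (b (a (b (c (a (l 103783860567) (l 137606726439)) (a (l 103783860519) (l 138680468039))) (c (c (l 73719088983) (l 73182217991)) (c (l 72645346999) (l 73182217927)))) (c (l 134385503383) (b (l 3) (l 129553665127)))) (c (a (l 16778440) (b (a (l 68887251463) (l 110226311527)) (l 16778056))) (a (l 16778272) (b (a (l 16778336) (l 110226311495)) (l 16777920))))) (b (l 3) (b (l 3) (a (c (a (l 93583313159) (l 126869308215)) (a (l 93583313191) (l 127943049831))) (l 3)))))) (l 3))) (l 3)), by decide +kernel⟩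

def k45_pm_102 : ∃ t, chk3 f_pm_102 t 246 121 1 = true :=
  ⟨(b (a (b (a (c (c (l 16779456) (l 16779352)) (c (l 16779240) (l 16779128))) (b (a (c (c (b (l 64055412343) (l 16778336)) (l 57076090487)) (c (l 56002348615) (l 55465477591))) (b (a (c (l 116131891527) (l 116668762407)) (l 3)) (c (a (l 16777856) (b (l 115595020423) (l 16778344))) (a (l 16777744) (l 100025764087))))) (c (c (l 16778672) (l 16778592)) (c (l 16778504) (l 16778416))))) (c (c (l 16777944) (l 16777808)) (c (l 16780288) (l 16780144)))) (b (a (b (a (c (l 140291083223) (l 141364824791)) (l 3)) (b (a (c (a (c (l 78550926967) (l 78550926903)) (l 116668763543)) (a (l 83919636839) (l 117205634247))) (l 3)) (a (c (c (l 16777976) (l 16777920)) (c (l 16777864) (l 16777792))) (c (a (b (l 123648084055) (l 87140862151)) (l 139754209943)) (c (l 113984407511) (l 113984407399)))))) (l 3)) (a (c (b (a (l 16778576) (b (a (l 16777920) (b (l 102710118615) (l 16777736))) (l 16778192))) (l 16779120)) (b (a (l 16778416) (b (c (l 74255959655)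 (l 74255959623)) (l 16778056))) (l 16778928))) (b (a (b (c (l 130090536135) (l 130627406823)) (c (a (l 71034734615) (b (l 131701147591) (l 95730796679))) (a (l 71571605639) (l 113447536887)))) (l 3)) (a (c (c (l 16778256) (l 16778192)) (c (l 16778120) (l 16778048))) (c (b (a (b (l 111300053143) (l 16778336)) (l 129553662647)) (c (l 65666024983) (l 65666024967))) (b (a (b (l 111836923959) (l 16778240)) (l 130090533367)) (c (l 65666024935) (l 65129153975))))))))) (a (b (c (l 16782200) (l 16781816)) (l 16783672)) (b (c (a (l 16780400) (c (l 16777928) (l 16777832))) (a (l 16780128) (c (l 16777736) (l 16778952)))) (c (l 16781496) (l 16781168))))), by decide +kernel⟩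

def k46_pm_102 : ∃ t, chk3 f_pm_102 t 247 121 1 = true :=
  ⟨(b (a (b (l 3) (a (b (l 3) (a (a (c (c (l 125795567543) (l 125795567447)) (c (l 126332436951) (l 126332436839))) (l 3)) (l 3))) (l 3))) (l 3)) (a (b (a (a (c (b (b (a (l 16777808) (b (l 119889987623) (l 81235281863))) (l 16778080)) (l 16778712)) (b (b (a (l 16777704) (b (l 120963729431) (l 82309023831))) (l 16777952)) (l 16778552))) (b (b (c (l 139217338823) (l 140291080439)) (c (a (b (l 97341409111) (l 16777736)) (b (l 3) (l 113447536583))) (a (c (l 81772152263) (l 81772152247)) (l 119889987383)))) (c (c (b (l 16777928) (l 16778352)) (l 49559897319)) (c (l 49559897351) (l 49559897303))))) (b (l 3) (a (b (c (a (b (l 128479922135) (l 90898958183)) (l 142975435271)) (a (b (l 129553663959) (l 91972700167)) (l 144049176903))) (c (a (l 16777872) (b (l 106468214599) (l 16778336))) (a (l 16777768) (b (l 108078827511) (l 16777592))))) (a (b (l 3) (c (l 126332439735) (l 126869310471))) (l 3))))) (a (c (c (l 16779736) (l 16779632)) (c (l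 16779528) (l 16779416))) (a (c (c (l 16777504) (l 16778736)) (c (l 16778656) (l 16778576))) (b (a (c (b (c (l 71034733975) (l 71034733975)) (l 16778112)) (c (l 59760444743) (l 59223573751))) (b (c (b (l 133848629879) (l 100562634535)) (b (l 134922371527) (l 101636376535))) (c (l 16777816) (l 16777712)))) (c (l 16778600) (l 16778448)))))) (b (l 3) (a (b (a (b (l 3) (c (a (b (l 116131891015) (l 76940314391)) (l 133311758887)) (a (b (l 117742503911) (l 78014056375)) (l 133848629623)))) (l 3)) (a (c (a (l 16778144) (b (c (l 79087797703) (l 78550926711)) (l 16778048))) (b (a (l 16777824) (c (l 78014055719) (l 78014055703))) (l 16778080))) (a (b (b (l 3) (l 6)) (l 6)) (l 6)))) (b (l 3) (l 6)))))), by decide +kernel⟩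

def k47_pm_102 : ∃ t, chk3 f_pm_102 t 61 61 1 = true :=
  ⟨(a (b (c (l 16783776) (l 16782688)) (a (l 16802952) (l 16798256))) (b (a (c (c (l 16781936) (l 16781616)) (c (l 16781296) (l 16780976))) (b (a (a (c (l 16782256) (l 16781888)) (b (c (l 16780184) (l 16779944)) (l 6))) (b (b (a (a (c (l 16778840) (l 16778680)) (l 6)) (l 6)) (l 6)) (l 6))) (l 6))) (a (b (l 16791800) (l 6)) (l 6)))), by decide +kernel⟩

def k48_pm_102 : ∃ t, chk3 f_pm_102 t 30 31 1 = true :=
  ⟨(a (b (b (a (l 16826152) (a (l 16819424) (l 16814856))) (l 16828880)) (l 16839600)) (a (b (b (a (l 16810072) (l 16805272)) (l 6)) (l 6)) (l 6))), by decide +kernel⟩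

def k49_pm_102 : ∃ t, chk3 f_pm_102 t 31 15 1 = true :=
  ⟨(b (b (l 3) (l 6)) (l 6)), by decide +kernel⟩

theorem s50_pm_102 : ∃ t, chk3 f_pm_102 t 123 121 1 = true := ex3_a k45_pm_102 k46_pm_102

theorem s51_pm_102 : ∃ t, chk3 f_pm_102 t 123 60 1 = true := ex3_b k44_pm_102 s50_pm_102

theorem s52_pm_102 : ∃ t, chk3 f_pm_102 t 122 120 1 = true := ex3_a k41_pm_102 k42_pm_102

theorem s53_pm_102 : ∃ t, chk3 f_pm_102 t 122 60 1 = true := ex3_b s52_pm_102 k43_pm_102

theorem s54_pm_102 : ∃ t, chk3 f_pm_102 t 61 60 1 = true := ex3_a s53_pm_102 s51_pm_102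

theorem s55_pm_102 : ∃ t, chk3 f_pm_102 t 61 30 1 = true := ex3_b s54_pm_102 k47_pm_102

theorem s56_pm_102 : ∃ t, chk3 f_pm_102 t 30 30 1 = true := ex3_a k40_pm_102 s55_pm_102

theorem s57_pm_102 : ∃ t, chk3 f_pm_102 t 30 15 1 = true := ex3_b s56_pm_102 k48_pm_102

theorem s58_pm_102 : ∃ t, chk3 f_pm_102 t 15 15 1 = true := ex3_a s57_pm_102 k49_pm_102

theorem s59_pm_102 : ∃ t, chk3 f_pm_102 t 121 59 1 = true := ex3_b k36_pm_102 k37_pm_102

theorem s60_pm_102 : ∃ t, chk3 f_pm_102 t 60 59 1 = true := ex3_a k35_pm_102 s59_pm_102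

theorem s61_pm_102 : ∃ t, chk3 f_pm_102 t 60 29 1 = true := ex3_b k34_pm_102 s60_pm_102

theorem s62_pm_102 : ∃ t, chk3 f_pm_102 t 30 29 1 = true := ex3_a s61_pm_102 k38_pm_102

theorem s63_pm_102 : ∃ t, chk3 f_pm_102 t 30 14 1 = true := ex3_b k33_pm_102 s62_pm_102

theorem s64_pm_102 : ∃ t, chk3 f_pm_102 t 15 14 1 = true := ex3_a s63_pm_102 k39_pm_102

theorem s65_pm_102 : ∃ t, chk3 f_pm_102 t 15 7 1 = true := ex3_b s64_pm_102 s58_pm_102

theorem s66_pm_102 : ∃ t, chk3 f_pm_102 t 29 28 1 = true := ex3_a k29_pm_102 k30_pm_102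

theorem s67_pm_102 : ∃ t, chk3 f_pm_102 t 29 14 1 = true := ex3_b s66_pm_102 k31_pm_102

theorem s68_pm_102 : ∃ t, chk3 f_pm_102 t 14 14 1 = true := ex3_a k28_pm_102 s67_pm_102

theorem s69_pm_102 : ∃ t, chk3 f_pm_102 t 14 7 1 = true := ex3_b s68_pm_102 k32_pm_102

theorem s70_pm_102 : ∃ t, chk3 f_pm_102 t 7 7 1 = true := ex3_a s69_pm_102 s65_pm_102

theorem s71_pm_102 : ∃ t, chk3 f_pm_102 t 14 13 1 = true := ex3_a k25_pm_102 k26_pm_102

theorem s72_pm_102 : ∃ t, chk3 f_pm_102 t 14 6 1 = true := ex3_b k24_pm_102 s71_pm_102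

theorem s73_pm_102 : ∃ t, chk3 f_pm_102 t 7 6 1 = true := ex3_a s72_pm_102 k27_pm_102

theorem s74_pm_102 : ∃ t, chk3 f_pm_102 t 7 3 1 = true := ex3_b s73_pm_102 s70_pm_102

theorem s75_pm_102 : ∃ t, chk3 f_pm_102 t 6 6 1 = true := ex3_a k21_pm_102 k22_pm_102

theorem s76_pm_102 : ∃ t, chk3 f_pm_102 t 6 3 1 = true := ex3_b s75_pm_102 k23_pm_102

theorem s77_pm_102 : ∃ t, chk3 f_pm_102 t 3 3 1 = true := ex3_a s76_pm_102 s74_pm_102

theorem s78_pm_102 : ∃ t, chk3 f_pm_102 t 3 1 1 = true := ex3_b k20_pm_102 s77_pm_102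

theorem s79_pm_102 : ∃ t, chk3 f_pm_102 t 694 618 3 = true := ex3_a k10_pm_102 k11_pm_102

theorem s80_pm_102 : ∃ t, chk3 f_pm_102 t 694 618 1 = true := ex3_c k9_pm_102 s79_pm_102

theorem s81_pm_102 : ∃ t, chk3 f_pm_102 t 694 309 1 = true := ex3_b s80_pm_102 k12_pm_102

theorem s82_pm_102 : ∃ t, chk3 f_pm_102 t 347 309 1 = true := ex3_a s81_pm_102 k13_pm_102

theorem s83_pm_102 : ∃ t, chk3 f_pm_102 t 347 154 1 = true := ex3_b k8_pm_102 s82_pm_102

theorem s84_pm_102 : ∃ t, chk3 f_pm_102 t 173 154 1 = true := ex3_a k7_pm_102 s83_pm_102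

theorem s85_pm_102 : ∃ t, chk3 f_pm_102 t 173 77 1 = true := ex3_b s84_pm_102 k14_pm_102

theorem s86_pm_102 : ∃ t, chk3 f_pm_102 t 86 77 1 = true := ex3_a k6_pm_102 s85_pm_102

theorem s87_pm_102 : ∃ t, chk3 f_pm_102 t 86 38 1 = true := ex3_b k5_pm_102 s86_pm_102

theorem s88_pm_102 : ∃ t, chk3 f_pm_102 t 43 38 1 = true := ex3_a s87_pm_102 k15_pm_102

theorem s89_pm_102 : ∃ t, chk3 f_pm_102 t 43 19 1 = true := ex3_b s88_pm_102 k16_pm_102

theorem s90_pm_102 : ∃ t, chk3 f_pm_102 t 21 19 1 = true := ex3_a k4_pm_102 s89_pm_102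

theorem s91_pm_102 : ∃ t, chk3 f_pm_102 t 21 9 1 = true := ex3_b k3_pm_102 s90_pm_102

theorem s92_pm_102 : ∃ t, chk3 f_pm_102 t 10 9 1 = true := ex3_a k2_pm_102 s91_pm_102

theorem s93_pm_102 : ∃ t, chk3 f_pm_102 t 10 4 1 = true := ex3_b k1_pm_102 s92_pm_102

theorem s94_pm_102 : ∃ t, chk3 f_pm_102 t 10 2 1 = true := ex3_b s93_pm_102 k17_pm_102

theorem s95_pm_102 : ∃ t, chk3 f_pm_102 t 5 2 1 = true := ex3_a s94_pm_102 k18_pm_102

theorem s96_pm_102 : ∃ t, chk3 f_pm_102 t 2 2 1 = true := ex3_a k0_pm_102 s95_pm_102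

theorem s97_pm_102 : ∃ t, chk3 f_pm_102 t 2 1 1 = true := ex3_b s96_pm_102 k19_pm_102

theorem s98_pm_102 : ∃ t, chk3 f_pm_102 t 1 1 1 = true := ex3_a s97_pm_102 s78_pm_102

theorem c_pm_102 : CertN 536870912 536870912 0 536870912 402653184 67108864 3 false true false .npp 1 0 2
    ndN0q1 ndN0q2 pcN0 cut_pm_102 Ext.none :=
  certN0 (fam := false) (s1 := true) (s2 := false) (a := 1) (b := 0) (c := 2) (cn := .npp) (n1 := ndN0q1) (n2 := ndN0q2) (pc := pcN0) (cut := cut_pm_102) (xt := Ext.none) (P1 := 536870912) (W1 := 536870912) (P2 := 0) (W2 := 536870912) (P3 := 402653184) (W3 := 67108864) (N0 := 3)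
    rfl s98_pm_102

noncomputable def f_pm_112 : ℕ → ℕ → ℕ → ℕ → Bool := onCell 536870912 536870912 0 536870912 402653184 67108864
    (rowN 3 2 false true false .dn 1 1 2 (qsf 536870912 536870912 0 536870912 1) ndN0q1 ndN0q2 pcN1 Cut.none Ext.none)

def k0_pm_112 : ∃ t, chk3 f_pm_112 t 8 2 1 = true :=
  ⟨(b (b (a (b (l 3) (a (a (l 3) (a (l 3) (b (l 3) (l 95730839831)))) (b (a (l 3) (b (l 3) (l 91972742375))) (a (b (l 93046486999) (a (l 78014098423) (l 64592325159))) (b (a (l 77477227431) (l 63518583959)) (l 16801608)))))) (b (a (b (l 3) (a (l 3) (l 94120226983))) (b (a (l 3) (l 94120226551)) (a (b (l 90362129143) (a (l 76403485383) (l 61907972471))) (b (a (l 75866614407) (l 63518585383)) (l 16801736))))) (a (b (a (b (l 91435871271) (a (l 76940356439) (l 62981713511))) (b (a (l 76403485447) (l 61907972119)) (l 16801656))) (a (l 16803208) (l 16806976))) (b (a (l 16803296) (l 16807104)) (l 16813768))))) (a (b (a (b (a (b (a (l 3) (l 87140904103)) (a (b (l 84456549271) (l 69424162151)) (l 62444840087)))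 (b (a (b (l 84456549175) (l 68350421159)) (l 61907969975)) (l 16801568))) (a (b (l 16801520) (l 16804736)) (l 16806816))) (b (a (l 16803144) (l 16806936)) (l 16813808))) (a (b (l 16813576) (l 16824672)) (l 16830680))) (b (a (l 16819032) (l 16830240)) (a (l 16842944) (l 16855616))))) (a (b (a (b (l 16844400) (l 16874280)) (l 16872600)) (a (l 16923328) (l 16936664))) (b (a (l 16885968) (l 16899352)) (a (l 16949960) (l 16963368))))), by decide +kernel⟩

def k1_pm_112 : ∃ t, chk3 f_pm_112 t 8 3 1 = true :=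
  ⟨(b (b (b (a (l 16979792) (b (l 16997568) (a (b (l 17003336) (a (l 17008440) (l 17015064))) (l 17021448)))) (a (a (b (l 16998712) (l 17019160)) (b (a (l 17008632) (l 17099760)) (l 17037696))) (a (b (l 17090624) (l 17058648)) (l 17061616)))) (a (b (a (l 17063960) (l 17096728)) (a (l 17150024) (l 17183848))) (a (b (l 17133048) (l 17164784)) (l 17225840)))) (b (a (a (b (l 17182416) (l 17152720)) (b (l 17097728) (l 16893144))) (b (a (l 17082584) (l 17085512)) (a (l 16943560) (l 17001384)))) (a (a (b (l 16938704) (b (l 16982440) (a (l 17133256) (l 16971240)))) (a (b (l 200823785015) (l 194381233319)) (b (a (l 16985264) (l 195991644631)) (l 1)))) (b (a (a (l 203507868743) (l 1)) (l 1)) (l 1))))), by decide +kernel⟩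

def k2_pm_112 : ∃ t, chk3 f_pm_112 t 9 1 1 = true :=
  ⟨(b (b (b (a (b (a (b (a (b (l 90362128855) (a (l 75866614359) (l 62981714663))) (b (a (l 75329743431) (l 62444843703)) (l 16801856))) (a (l 16803448) (l 16807352))) (a (l 16797072) (l 16812112))) (a (l 16819008) (l 16830176))) (a (b (l 16819800) (l 16842336)) (b (l 16831328) (l 16855352)))) (a (a (l 16855176) (l 16868232)) (a (l 16881712) (l 16895784)))) (a (b (a (l 16912912) (l 16926616)) (a (l 16976832) (l 16990520))) (b (a (l 16940656) (l 16955128)) (b (a (l 16988104) (l 17002584)) (a (b (l 17012376) (l 17028592)) (b (l 17026720) (b (l 17038800) (a (l 17043776) (l 17052152))))))))) (b (b (a (a (b (b (l 17017528) (l 17036648)) (l 17084232)) (b (b (b (l 17026936) (l 17036144)) (l 17054568)) (l 17110384))) (b (a (b (b (l 17041840) (l 17053472)) (l 17075864)) (l 17082560)) (b (l 17131360) (l 17170528)))) (a (b (l 17222824) (l 17183536)) (l 74659130263))) (b (a (b (l 124051068871) (l 1)) (l 1)) (l 1)))), by decide +kernel⟩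

def k3_pm_112 : ∃ t, chk3 f_pm_112 t 5 1 1 = true :=
  ⟨(b (a (a (a (b (b (l 16856656) (l 16910720)) (b (l 16970328) (b (l 17017488) (b (l 133178090535) (l 1))))) (b (b (l 16871640) (l 16926616)) (b (l 16986200) (l 1)))) (b (b (l 1) (l 1)) (l 1))) (l 1)) (b (l 1) (l 1))), by decide +kernel⟩

def k4_pm_112 : ∃ t, chk3 f_pm_112 t 3 1 1 = true :=
  ⟨(l 1), by decide +kernel⟩

theorem s5_pm_112 : ∃ t, chk3 f_pm_112 t 8 1 1 = true := ex3_b k0_pm_112 k1_pm_112

theorem s6_pm_112 : ∃ t, chk3 f_pm_112 t 4 1 1 = true := ex3_a s5_pm_112 k2_pm_112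

theorem s7_pm_112 : ∃ t, chk3 f_pm_112 t 2 1 1 = true := ex3_a s6_pm_112 k3_pm_112

theorem s8_pm_112 : ∃ t, chk3 f_pm_112 t 1 1 1 = true := ex3_a s7_pm_112 k4_pm_112

theorem c_pm_112 : CertN 536870912 536870912 0 536870912 402653184 67108864 3 false true false .dn 1 1 2
    ndN0q1 ndN0q2 pcN1 Cut.none Ext.none :=
  certN2 (fam := false) (s1 := true) (s2 := false) (a := 1) (b := 1) (c := 2) (cn := .dn) (n1 := ndN0q1) (n2 := ndN0q2) (pc := pcN1) (cut := Cut.none) (xt := Ext.none) (P1 := 536870912) (W1 := 536870912) (P2 := 0) (W2 := 536870912) (P3 := 402653184) (W3 := 67108864) (N0 := 3)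
    rfl (fun _ => rfl) s8_pm_112

noncomputable def cut_pm_202 : Cut := Cut.of [[⟨0, 1, 0, 67108864⟩, ⟨1, 0, 0, 67108864⟩, ⟨2, 1, 0, 67108864⟩]]

noncomputable def f_pm_202 : ℕ → ℕ → ℕ → ℕ → Bool := onCell 0 536870912 0 536870912 402653184 67108864
    (rowN 3 0 false true false .pp 2 0 2 (qsf 0 536870912 0 536870912 0) ndN0q2 ndN0q2 pcN0 cut_pm_202 Ext.none)

def k0_pm_202 : ∃ t, chk3 f_pm_202 t 1 1 1 = true :=
  ⟨(a (l 3) (b (l 3) (b (l 3) (a (l 3) (b (l 3) (a (l 3) (l 6))))))), by decide +kernel⟩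

theorem c_pm_202 : CertN 0 536870912 0 536870912 402653184 67108864 3 false true false .pp 2 0 2
    ndN0q2 ndN0q2 pcN0 cut_pm_202 Ext.none :=
  certN0 (fam := false) (s1 := true) (s2 := false) (a := 2) (b := 0) (c := 2) (cn := .pp) (n1 := ndN0q2) (n2 := ndN0q2) (pc := pcN0) (cut := cut_pm_202) (xt := Ext.none) (P1 := 0) (W1 := 536870912) (P2 := 0) (W2 := 536870912) (P3 := 402653184) (W3 := 67108864) (N0 := 3)
    rfl k0_pm_202

noncomputable def f_mm_001 : ℕ → ℕ → ℕ → ℕ → Bool := onCell 0 536870912 0 536870912 402653184 67108864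
    (rowN 3 1 false false false .up 0 0 1 (qsf 0 536870912 536870912 536870912 0) ndN0q0 ndN0q1 pcN0 Cut.none Ext.none)

def k0_mm_001 : ∃ t, chk3 f_mm_001 t 1 1 1 = true :=
  ⟨(l 3), by decide +kernel⟩

theorem c_mm_001 : CertN 0 536870912 536870912 536870912 402653184 67108864 3 false false false .up 0 0 1
    ndN0q0 ndN0q1 pcN0 Cut.none Ext.none :=
  certN1 (fam := false) (s1 := false) (s2 := false) (a := 0) (b := 0) (c := 1) (cn := .up) (n1 := ndN0q0) (n2 := ndN0q1) (pc := pcN0) (cut := Cut.none) (xt := Ext.none) (P1 := 0) (W1 := 536870912) (P2 := 536870912) (W2 := 536870912) (P3 := 402653184) (W3 := 67108864) (N0 := 3)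
    rfl (fun _ => rfl) k0_mm_001

noncomputable def f_mm_011 : ℕ → ℕ → ℕ → ℕ → Bool := onCell 0 536870912 536870912 536870912 402653184 67108864
    (rowN 3 1 false false false .pnn 0 1 1 (qsf 0 536870912 536870912 536870912 1) ndN0q0 ndN0q1 pcN1 Cut.none Ext.none)

def k0_mm_011 : ∃ t, chk3 f_mm_011 t 1 1 1 = true :=
  ⟨(l 5), by decide +kernel⟩

theorem c_mm_011 : CertN 0 536870912 536870912 536870912 402653184 67108864 3 false false false .pnn 0 1 1
    ndN0q0 ndN0q1 pcN1 Cut.none Ext.none :=
  certN1 (fam := false) (s1 := false) (s2 := false) (a := 0) (b := 1) (c := 1) (cn := .pnn) (n1 := ndN0q0) (n2 := ndN0q1) (pc := pcN1) (cut := Cut.none) (xt := Ext.none) (P1 := 0) (W1 := 536870912) (P2 := 536870912) (W2 := 536870912) (P3 := 402653184) (W3 := 67108864) (N0 := 3)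
    rfl (fun _ => rfl) k0_mm_011

noncomputable def f_mm_012 : ℕ → ℕ → ℕ → ℕ → Bool := onCell 0 536870912 0 536870912 402653184 67108864
    (rowN 3 0 false false false .pnp 0 1 2 (qsf 0 536870912 0 536870912 1) ndN0q0 ndN0q2 pcN1 Cut.none Ext.none)

def k0_mm_012 : ∃ t, chk3 f_mm_012 t 1 1 1 = true :=
  ⟨(l 5), by decide +kernel⟩

theorem c_mm_012 : CertN 0 536870912 0 536870912 402653184 67108864 3 false false false .pnp 0 1 2
    ndN0q0 ndN0q2 pcN1 Cut.none Ext.none :=
  certN0 (fam := false) (s1 := false) (s2 := false) (a := 0) (b := 1) (c := 2) (cn := .pnp) (n1 := ndN0q0) (n2 := ndN0q2) (pc := pcN1) (cut := Cut.none) (xt := Ext.none) (P1 := 0) (W1 := 536870912) (P2 := 0) (W2 := 536870912) (P3 := 402653184) (W3 := 67108864) (N0 := 3)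
    rfl k0_mm_012

noncomputable def f_mm_022 : ℕ → ℕ → ℕ → ℕ → Bool := onCell 0 536870912 0 536870912 402653184 67108864
    (rowN 3 0 false false false .pp 0 2 2 (qsf 0 536870912 0 536870912 2) ndN0q0 ndN0q2 pcN2 Cut.none Ext.none)

def k0_mm_022 : ∃ t, chk3 f_mm_022 t 1 1 1 = true :=
  ⟨(l 5), by decide +kernel⟩

theorem c_mm_022 : CertN 0 536870912 0 536870912 402653184 67108864 3 false false false .pp 0 2 2
    ndN0q0 ndN0q2 pcN2 Cut.none Ext.none :=
  certN0 (fam := false) (s1 := false) (s2 := false) (a := 0) (b := 2) (c := 2) (cn := .pp) (n1 := ndN0q0) (n2 := ndN0q2) (pc := pcN2) (cut := Cut.none) (xt := Ext.none) (P1 := 0) (W1 := 536870912) (P2 := 0) (W2 := 536870912) (P3 := 402653184) (W3 := 67108864) (N0 := 3)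
    rfl k0_mm_022

noncomputable def f_mm_101 : ℕ → ℕ → ℕ → ℕ → Bool := onCell 536870912 536870912 536870912 536870912 402653184 67108864
    (rowN 3 0 false false false .npn 1 0 1 (qsf 536870912 536870912 536870912 536870912 0) ndN0q1 ndN0q1 pcN0 Cut.none Ext.none)

def k0_mm_101 : ∃ t, chk3 f_mm_101 t 1 1 1 = true :=
  ⟨(l 3), by decide +kernel⟩

theorem c_mm_101 : CertN 536870912 536870912 536870912 536870912 402653184 67108864 3 false false false .npn 1 0 1
    ndN0q1 ndN0q1 pcN0 Cut.none Ext.none :=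
  certN0 (fam := false) (s1 := false) (s2 := false) (a := 1) (b := 0) (c := 1) (cn := .npn) (n1 := ndN0q1) (n2 := ndN0q1) (pc := pcN0) (cut := Cut.none) (xt := Ext.none) (P1 := 536870912) (W1 := 536870912) (P2 := 536870912) (W2 := 536870912) (P3 := 402653184) (W3 := 67108864) (N0 := 3)
    rfl k0_mm_101

noncomputable def f_mm_102 : ℕ → ℕ → ℕ → ℕ → Bool := onCell 536870912 536870912 0 536870912 402653184 67108864
    (rowN 3 0 false false false .npp 1 0 2 (qsf 536870912 536870912 0 536870912 0) ndN0q1 ndN0q2 pcN0 Cut.none Ext.none)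

def k0_mm_102 : ∃ t, chk3 f_mm_102 t 1 1 1 = true :=
  ⟨(a (l 5) (l 3)), by decide +kernel⟩

theorem c_mm_102 : CertN 536870912 536870912 0 536870912 402653184 67108864 3 false false false .npp 1 0 2
    ndN0q1 ndN0q2 pcN0 Cut.none Ext.none :=
  certN0 (fam := false) (s1 := false) (s2 := false) (a := 1) (b := 0) (c := 2) (cn := .npp) (n1 := ndN0q1) (n2 := ndN0q2) (pc := pcN0) (cut := Cut.none) (xt := Ext.none) (P1 := 536870912) (W1 := 536870912) (P2 := 0) (W2 := 536870912) (P3 := 402653184) (W3 := 67108864) (N0 := 3)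
    rfl k0_mm_102

noncomputable def f_mm_112 : ℕ → ℕ → ℕ → ℕ → Bool := onCell 536870912 536870912 0 536870912 402653184 67108864
    (rowN 3 2 false false false .dn 1 1 2 (qsf 536870912 536870912 0 536870912 1) ndN0q1 ndN0q2 pcN1 Cut.none Ext.none)

def k0_mm_112 : ∃ t, chk3 f_mm_112 t 1 1 1 = true :=
  ⟨(l 5), by decide +kernel⟩

theorem c_mm_112 : CertN 536870912 536870912 0 536870912 402653184 67108864 3 false false false .dn 1 1 2
    ndN0q1 ndN0q2 pcN1 Cut.none Ext.none :=
  certN2 (fam := false) (s1 := false) (s2 := false) (a := 1) (b := 1) (c := 2) (cn := .dn) (n1 := ndN0q1) (n2 := ndN0q2) (pc := pcN1) (cut := Cut.none) (xt := Ext.none) (P1 := 536870912) (W1 := 536870912) (P2 := 0) (W2 := 536870912) (P3 := 402653184) (W3 := 67108864) (N0 := 3)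
    rfl (fun _ => rfl) k0_mm_112

noncomputable def f_mm_202 : ℕ → ℕ → ℕ → ℕ → Bool := onCell 0 536870912 0 536870912 402653184 67108864
    (rowN 3 0 false false false .pp 2 0 2 (qsf 0 536870912 0 536870912 0) ndN0q2 ndN0q2 pcN0 Cut.none Ext.none)

def k0_mm_202 : ∃ t, chk3 f_mm_202 t 1 1 1 = true :=
  ⟨(l 3), by decide +kernel⟩

theorem c_mm_202 : CertN 0 536870912 0 536870912 402653184 67108864 3 false false false .pp 2 0 2
    ndN0q2 ndN0q2 pcN0 Cut.none Ext.none :=
  certN0 (fam := false) (s1 := false) (s2 := false) (a := 2) (b := 0) (c := 2) (cn := .pp) (n1 := ndN0q2) (n2 := ndN0q2) (pc := pcN0) (cut := Cut.none) (xt := Ext.none) (P1 := 0) (W1 := 536870912) (P2 := 0) (W2 := 536870912) (P3 := 402653184) (W3 := 67108864) (N0 := 3)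
    rfl k0_mm_202

end Pool.Agent.Strip051.G.I3_8_7_16.Tab.C.NB00

namespace Pool.Agent.Strip051.G.I3_8_7_16.Tab.C.NB01

open Pool.Agent.Strip051.PB Pool.Agent.Strip051.PB.T
open Pool.Agent.Strip051.G.I3_8_7_16.Tab

noncomputable def f_pp_001 : ℕ → ℕ → ℕ → ℕ → Bool := onCell 0 536870912 536870912 536870912 402653184 67108864
    (rowN 3 0 false true true .up 0 0 1 (qsf 0 536870912 536870912 536870912 0) ndN0q0 ndN1q1 pcN0 Cut.none Ext.none)

def k0_pp_001 : ∃ t, chk3 f_pp_001 t 1 1 1 = true :=
  ⟨(l 3), by decide +kernel⟩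

theorem c_pp_001 : CertN 0 536870912 536870912 536870912 402653184 67108864 3 false true true .up 0 0 1
    ndN0q0 ndN1q1 pcN0 Cut.none Ext.none :=
  certN0 (fam := false) (s1 := true) (s2 := true) (a := 0) (b := 0) (c := 1) (cn := .up) (n1 := ndN0q0) (n2 := ndN1q1) (pc := pcN0) (cut := Cut.none) (xt := Ext.none) (P1 := 0) (W1 := 536870912) (P2 := 536870912) (W2 := 536870912) (P3 := 402653184) (W3 := 67108864) (N0 := 3)
    rfl k0_pp_001

noncomputable def f_pp_011 : ℕ → ℕ → ℕ → ℕ → Bool := onCell 0 536870912 536870912 536870912 402653184 67108864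
    (rowN 3 0 false true true .pnn 0 1 1 (qsf 0 536870912 536870912 536870912 1) ndN0q0 ndN1q1 pcN1 Cut.none Ext.none)

def k0_pp_011 : ∃ t, chk3 f_pp_011 t 1 1 1 = true :=
  ⟨(l 3), by decide +kernel⟩

theorem c_pp_011 : CertN 0 536870912 536870912 536870912 402653184 67108864 3 false true true .pnn 0 1 1
    ndN0q0 ndN1q1 pcN1 Cut.none Ext.none :=
  certN0 (fam := false) (s1 := true) (s2 := true) (a := 0) (b := 1) (c := 1) (cn := .pnn) (n1 := ndN0q0) (n2 := ndN1q1) (pc := pcN1) (cut := Cut.none) (xt := Ext.none) (P1 := 0) (W1 := 536870912) (P2 := 536870912) (W2 := 536870912) (P3 := 402653184) (W3 := 67108864) (N0 := 3)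
    rfl k0_pp_011

end Pool.Agent.Strip051.G.I3_8_7_16.Tab.C.NB01

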