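import Pool.Agent.Strip051.G.I3_8_7_16.Tab

/-! # Certificates N12 (generated) -/

set_option linter.all false
set_option maxRecDepth 100000

namespace Pool.Agent.Strip051.G.I3_8_7_16.Tab.C.NB01

open Pool.Agent.Strip051.PB Pool.Agent.Strip051.PB.T
open Pool.Agent.Strip051.G.I3_8_7_16.Tab

noncomputable def cut_pp_012_a : Cut := Cut.of [[⟨0, 0, 0, 67108864⟩, ⟨1, 1, 0, 67108864⟩, ⟨2, 1, 0, 67108864⟩]]

noncomputable def f_pp_012_a : ℕ → ℕ → ℕ → ℕ → Bool := onCell 536870912 536870912 0 536870912 402653184 67108864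
    (rowN 3 2 false true true .pnp 0 1 2 (qsf 0 536870912 0 536870912 1) ndN0q0 ndN1q2a pcN1 cut_pp_012_a Ext.none)

def k0_pp_012_a : ∃ t, chk3 f_pp_012_a t 2 1 1 = true :=
  ⟨(l 3), by decide +kernel⟩

def k1_pp_012_a : ∃ t, chk3 f_pp_012_a t 6 1 1 = true :=
  ⟨(b (a (b (l 3) (l 3)) (b (a (b (a (b (a (l 72108517143) (b (l 16783456) (l 61371100455))) (a (l 3) (l 64592332023))) (b (a (l 16775168) (l 16761016)) (a (b (l 59760481479) (l 61907965783)) (b (l 16776760) (l 58149861527))))) (a (l 3) (b (a (l 3) (b (l 60834216999) (l 3))) (l 3)))) (a (b (b (l 16759840) (a (l 16767928) (l 16753832))) (b (a (b (l 57076111687) (l 59760467383)) (b (l 16768568) (l 55465489575))) (a (l 3) (b (a (l 54928627159) (l 61371069703)) (l 3))))) (b (l 16784048) (b (a (l 16759472) (l 16745664)) (a (b (l 16772744) (c (l 43654352375) (l 47949301031))) (b (l 16759424) (l 16767864))))))) (a (l 3) (b (a (l 3) (b (a (b (c (l 47412440503) (l 49559905607)) (l 3)) (a (b (l 54928612231) (l 3)) (b (l 16772544)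 (l 49023029447)))) (l 3))) (l 3))))) (l 3)), by decide +kernel⟩

def k2_pp_012_a : ∃ t, chk3 f_pp_012_a t 14 2 1 = true :=
  ⟨(b (a (a (b (l 16735752) (b (l 16725184) (a (l 16750304) (l 16737000)))) (b (l 16669424) (b (l 16699456) (l 16717680)))) (b (l 16701984) (a (l 16727088) (b (l 16656272) (l 16672664))))) (a (b (a (b (a (b (l 16762848) (c (l 40433106599) (a (l 47412406999) (l 16763224)))) (b (l 16749776) (l 16757760))) (a (b (c (l 43654344327) (a (l 44191183271) (l 49023021431))) (l 3)) (b (c (l 16769336) (a (l 16764256) (l 16758152))) (a (c (l 41506845639) (l 44191173671)) (c (l 38285610311) (l 42043689959)))))) (b (a (l 16740896) (l 16728304)) (a (b (l 16752664) (c (l 16763928) (a (l 16759152) (l 16753088)))) (l 16764872)))) (a (b (a (l 3) (b (c (l 38285616087) (a (l 3) (l 40433077991))) (l 3))) (l 3)) (b (a (a (b (c (l 42043707511) (b (l 42043682855) (l 39359332951))) (l 3)) (b (c (l 16767936) (b (l 16758320) (l 43117419463))) (c (l 36138126919) (b (l 40433071031)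 (l 3))))) (b (c (l 16758552) (l 16751072)) (c (a (l 33453762903) (l 16762496)) (a (b (l 16759144) (l 36138099623)) (l 16754928))))) (a (l 3) (b (a (c (l 33990633447) (b (l 33453744487) (l 3))) (c (l 37211859831) (b (l 37211836503) (l 35064352439)))) (l 3)))))) (b (a (b (l 16710280) (a (l 16731712) (l 16719960))) (b (l 16688376) (l 16703384))) (a (b (a (b (l 16742728) (c (l 16753312) (l 16746128))) (l 16755440)) (a (b (c (a (l 33990622951) (l 16757152)) (a (b (l 16754080) (l 38285573383)) (l 16749944))) (b (a (c (l 34527497831) (a (l 31306254743) (l 38822443463))) (c (l 16762128) (l 39359309607))) (a (l 3) (c (l 28621912967) (c (l 30232517175) (l 31843122759)))))) (a (b (l 16747720) (c (l 16757840) (b (l 16749168) (l 16752416)))) (b (l 16741944) (l 16748584))))) (b (a (l 16723144) (l 16712352)) (a (b (l 16733464) (l 16740128)) (l 16746896))))))), by decide +kernel⟩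

def k3_pp_012_a : ∃ t, chk3 f_pp_012_a t 15 2 1 = true :=
  ⟨(b (a (b (l 16650792) (a (l 16657144) (l 16652144))) (b (a (l 16591640) (l 16602768)) (a (l 16638528) (l 16647280)))) (a (b (a (b (l 16669072) (l 16683416)) (b (l 16652096) (l 16665712))) (a (b (l 16718216) (a (l 16715560) (l 16705736))) (b (l 16699968) (a (l 16696416) (l 16687576))))) (b (a (b (l 16637032) (l 16649920)) (b (l 16623448) (l 16656568))) (a (b (l 16683600) (a (l 16679192) (l 16671168))) (b (a (l 16651328) (l 16644144)) (a (l 16663464) (l 16677008))))))), by decide +kernel⟩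

def k4_pp_012_a : ∃ t, chk3 f_pp_012_a t 14 3 1 = true :=
  ⟨(b (a (l 3) (b (a (b (a (b (a (l 3) (b (c (l 27548174519) (a (l 3) (l 28621896471))) (l 3))) (l 3)) (b (a (c (b (l 29695649623) (l 28621912679)) (b (c (l 31306254295) (l 32916859943)) (a (l 3) (l 31306247511)))) (c (b (l 16756864) (l 30769385975)) (b (l 16750016) (c (l 32379990791) (l 33990596663))))) (a (l 3) (b (c (c (l 29158784903) (l 29158778247)) (a (l 26474409303) (l 33453727063))) (l 3))))) (l 3)) (b (a (a (b (c (l 16752728) (l 16746072)) (c (b (l 16757456) (c (l 23253199847) (l 24326935367))) (a (b (l 16752232) (c (l 28085023815) (l 28085017415))) (b (l 16749496) (l 32379980519))))) (b (l 16743856) (b (l 16748640) (c (l 16754960) (l 16748584))))) (b (l 16735728) (a (a (l 16746128) (l 16743432)) (l 16739448)))) (a (b (a (a (l 3) (b (b (c (l 26474415095) (l 26474402487)) (l 3)) (l 3))) (a (b (c (l 25400672215) (c (l 27011277719) (l 30232497015))) (c (l 25400675927) (l 28085016807))) (b (c (l 16756648) (l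 16750392)) (c (l 25937543479) (c (l 25400665703) (l 25400659751)))))) (l 3)) (b (c (a (b (l 16752544) (c (l 16757088) (l 26474408919))) (l 16748696)) (a (b (l 16746392) (a (l 30232493463) (l 16748216))) (l 16753184))) (a (a (b (c (l 27011280199) (b (l 24326915959) (l 3))) (l 3)) (b (c (c (l 27548156631) (l 27548150839)) (c (l 27548145207) (l 27548139319))) (c (l 28621897943) (b (l 27548141687) (l 3))))) (a (b (c (l 16754560) (l 16748720)) (b (c (l 28085019511) (l 28085008887)) (c (l 27011280359) (l 29695624039)))) (b (l 16750328) (c (l 25937534231) (c (l 16750656) (l 16747840)))))))))) (a (l 3) (b (a (l 3) (b (a (l 3) (a (l 3) (b (c (b (l 29158762151) (l 25400667463)) (b (l 31306236951) (l 25400658887))) (l 3)))) (l 3))) (l 3))))) (l 3)), by decide +kernel⟩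

def k5_pp_012_a : ∃ t, chk3 f_pp_012_a t 30 12 1 = true :=
  ⟨(a (b (a (b (l 16725312) (l 16752640)) (b (l 16715392) (l 16721712))) (a (a (b (l 16745728) (b (l 16750360) (c (l 16750968) (l 16745392)))) (b (l 16735384) (c (l 16744352) (l 16738752)))) (b (l 16738432) (c (l 16747384) (l 16741816))))) (b (a (l 16730080) (l 16721112)) (a (b (l 16718432) (c (l 16727400) (l 16721768))) (b (l 16709376) (l 16736432))))), by decide +kernel⟩

def k6_pp_012_a : ∃ t, chk3 f_pp_012_a t 60 13 1 = true :=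
  ⟨(b (a (b (a (a (b (c (c (l 24863797879) (l 24863792615)) (c (l 24326916439) (l 23253172647))) (a (l 3) (c (l 25937537511) (l 25400659703)))) (b (c (l 16752640) (l 16747248)) (b (c (l 25937532327) (l 22716304055)) (c (l 25937535351) (l 27011273335))))) (c (b (l 16748808) (a (c (l 16754312) (l 16751720)) (l 16750480))) (b (l 16743464) (a (c (l 16749136) (l 16746568)) (l 16745344))))) (a (a (l 3) (a (l 3) (b (c (l 20568828279) (l 19495083239)) (l 3)))) (a (b (b (c (c (l 26474408167) (l 27548146951)) (l 27548139943)) (c (l 22179440423) (l 21105696295))) (l 3)) (b (b (c (l 16752672) (l 16747696)) (c (a (l 27011277783) (l 16753496)) (l 18421338695))) (b (c (c (l 23253183799) (l 22179440503)) (l 22179438023)) (l 3)))))) (b (a (b (l 16751624) (a (l 16755896) (l 16742944))) (c (l 16740392) (l 16735192))) (a (a (c (b (l 16750896) (b (l 16758312) (a (l 20568829671) (l 16756496)))) (b (l 16746000) (b (l 16753592) (l 22179436311)))) (c (b (l 16748424) (c (l 16752488) (l 16750152)))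 (b (l 16743544) (l 16757160)))) (c (b (l 16744768) (l 16758136)) (b (l 16739896) (l 16743024)))))) (a (l 3) (b (b (a (c (a (b (l 16810734919) (l 3)) (c (b (l 23253183623) (l 18421347591)) (b (l 16757568) (l 20031956007)))) (a (c (l 17884472743) (l 18958210775)) (c (l 18958211575) (l 19495078375)))) (a (c (c (l 16810731015) (l 16755872)) (c (l 16748448) (l 16746288))) (c (l 16749304) (l 16744944)))) (a (l 3) (c (a (b (l 19495085991) (l 14126380791)) (c (l 13589506343) (l 14126373303))) (c (a (l 20031953991) (l 16754304)) (a (l 21642563063) (l 16747056)))))) (b (b (a (l 3) (a (l 3) (c (l 15736992183) (l 16755528)))) (l 3)) (l 3))))), by decide +kernel⟩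

def k7_pp_012_a : ∃ t, chk3 f_pp_012_a t 61 13 1 = true :=
  ⟨(b (a (b (c (l 16743768) (l 16738528)) (c (a (l 16751912) (l 16736752)) (a (l 16747152) (l 16731960)))) (b (c (l 16724208) (l 16718816)) (c (l 16741088) (l 16735544)))) (a (b (c (a (b (l 16745712) (c (l 16760064) (l 16747528))) (b (l 16741024) (l 16743856))) (a (b (l 16741360) (l 16754976)) (l 16748704))) (a (a (c (b (c (l 12515765095) (l 12515761463)) (c (l 12515767815) (l 16759344))) (b (l 11442017511) (l 13589504935))) (c (b (l 16750184) (c (l 16758952) (l 16751992))) (b (l 16746440) (l 16754720)))) (c (b (l 16757152) (c (l 16755568) (l 16759080))) (b (l 16742920) (l 16756544))))) (b (c (a (l 16748344) (l 16733384)) (a (l 16733592) (l 16729056))) (a (b (l 16750656) (a (l 16754768) (l 16742008))) (b (l 16746144) (l 16749120)))))), by decide +kernel⟩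

def k8_pp_012_a : ∃ t, chk3 f_pp_012_a t 31 6 1 = true :=
  ⟨(b (a (b (a (l 16712544) (l 16704344)) (a (b (l 16700712) (l 16706736)) (b (l 16692384) (l 16698344)))) (b (a (b (l 16672472) (l 16678432)) (b (l 16664864) (l 16670736))) (a (b (l 16684360) (l 16700752)) (b (c (l 16680672) (l 16672592)) (c (l 16686288) (l 16678688)))))) (a (b (a (b (c (l 16715560) (l 16709912)) (c (l 16721248) (l 16716144))) (b (c (l 16707312) (l 16701304)) (c (l 16712960) (l 16707520)))) (a (a (b (l 16737272) (c (l 16734624) (l 16730888))) (b (l 16732952) (c (l 16730360) (l 16726520)))) (b (c (l 16729056) (l 16724264)) (a (c (l 16726200) (l 16722224)) (l 16730536))))) (b (a (b (c (l 16699440) (l 16692960)) (c (l 16705048) (l 16699168))) (a (b (l 16690264) (l 16696160)) (b (l 16686408) (l 16702784)))) (a (a (b (l 16710016) (l 16726472)) (b (l 16716504) (c (l 16714296) (l 16709760)))) (b (a (l 16712576) (c (l 16701184) (l 16695336))) (a (c (l 16710504) (l 16705720)) (c (l 16706792) (l 16701736)))))))),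 by decide +kernel⟩

def k9_pp_012_a : ∃ t, chk3 f_pp_012_a t 30 7 1 = true :=
  ⟨(b (a (l 3) (b (a (b (a (l 3) (a (b (c (l 7147057671) (l 16755696)) (l 3)) (c (b (l 16756576) (l 2852092663)) (b (l 16748264) (l 16757048))))) (l 3)) (b (a (c (b (l 16758416) (a (l 16757704) (l 16750272))) (b (l 16755328) (c (l 16754480) (l 16758360)))) (c (b (l 16743440) (l 16757400)) (b (l 16740312) (l 16744072)))) (a (a (l 3) (b (c (c (l 16754280) (l 16753008)) (l 16756400)) (l 3))) (a (b (c (l 16756768) (l 16748992)) (c (c (l 16761104) (l 16754712)) (l 16758280))) (c (b (l 16749312) (l 16758480)) (b (l 16746760) (l 16750936))))))) (a (l 3) (b (a (l 3) (a (l 3) (a (l 3) (b (b (l 16758576) (l 3)) (l 3))))) (l 3))))) (l 3)), by decide +kernel⟩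

def k10_pp_012_a : ∃ t, chk3 f_pp_012_a t 62 14 1 = true :=
  ⟨(b (a (b (c (a (b (l 16739072) (l 16742528)) (l 16747016)) (a (l 16745616) (l 16743872))) (a (c (b (l 16756520) (c (l 16755840) (l 16749384))) (b (l 16743432) (l 16752880))) (c (b (l 16741744) (l 16756176)) (b (l 16739064) (l 16743264))))) (b (a (c (l 16742848) (l 16729104)) (c (l 16728304) (l 16724888))) (a (b (l 16741400) (c (l 16741496) (l 16738968))) (b (l 16742496) (a (l 16737088) (l 16735032)))))) (a (b (a (a (b (c (c (l 16760952) (l 16754632)) (l 16758320)) (l 3)) (b (c (l 16758320) (l 16750936)) (c (c (l 16761224) (l 16761896)) (c (l 16755720) (l 16754824))))) (a (c (b (l 16750920) (c (l 16760848) (l 16754608))) (b (l 16748744) (l 16758416))) (c (b (l 16748792) (l 16758224)) (b (l 16746576) (l 16751016))))) (a (l 3) (a (b (b (c (l 16758160) (l 16756456)) (l 3)) (l 3)) (a (b (c (c (l 16758128) (l 16757248)) (l 16761240)) (l 3)) (b (c (l 16759296) (l 16754952)) (c (c (l 16761088) (l 16760352)) (l 16761952)))))))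 (b (a (c (b (l 16750888) (c (l 16755600) (l 16754544))) (b (l 16743352) (l 16753032))) (c (b (l 16741536) (l 16750944)) (b (l 16739120) (l 16748792)))) (a (a (b (c (l 16759688) (l 16758584)) (b (c (l 16763512) (l 16756720)) (c (l 16762928) (l 16758928)))) (b (c (l 16758248) (l 16751200)) (b (a (l 16761152) (l 16760096)) (l 6)))) (b (c (c (l 16755648) (l 16754672)) (c (l 16753728) (l 16747576))) (l 6)))))), by decide +kernel⟩

def k11_pp_012_a : ∃ t, chk3 f_pp_012_a t 63 14 1 = true :=
  ⟨(b (a (b (a (c (l 16724336) (l 16720744)) (c (l 16720456) (l 16716664))) (b (a (l 16738432) (l 16723968)) (a (l 16737232) (l 16738480)))) (b (a (c (l 16716664) (l 16712648)) (c (l 16712944) (l 16708680))) (b (a (l 16720056) (l 16726696)) (a (l 16734560) (c (l 16721976) (l 16718528)))))) (b (b (a (a (c (l 16737528) (l 16734968)) (c (l 16733616) (l 16730872))) (a (c (l 16729784) (l 16726840)) (l 6))) (a (a (c (l 16746920) (l 16739384)) (c (l 16737752) (l 16735280))) (l 6))) (a (a (b (c (c (l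 16746408) (l 16745352)) (l 16749096)) (l 6)) (l 6)) (l 6)))), by decide +kernel⟩

def k12_pp_012_a : ∃ t, chk3 f_pp_012_a t 31 15 1 = true :=
  ⟨(a (a (l 3) (b (l 6) (l 3))) (l 6)), by decide +kernel⟩

theorem s13_pp_012_a : ∃ t, chk3 f_pp_012_a t 31 14 1 = true := ex3_a k10_pp_012_a k11_pp_012_a

theorem s14_pp_012_a : ∃ t, chk3 f_pp_012_a t 31 7 1 = true := ex3_b s13_pp_012_a k12_pp_012_a

theorem s15_pp_012_a : ∃ t, chk3 f_pp_012_a t 15 7 1 = true := ex3_a k9_pp_012_a s14_pp_012_a

theorem s16_pp_012_a : ∃ t, chk3 f_pp_012_a t 30 13 1 = true := ex3_a k6_pp_012_a k7_pp_012_a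

theorem s17_pp_012_a : ∃ t, chk3 f_pp_012_a t 30 6 1 = true := ex3_b k5_pp_012_a s16_pp_012_a

theorem s18_pp_012_a : ∃ t, chk3 f_pp_012_a t 15 6 1 = true := ex3_a s17_pp_012_a k8_pp_012_a

theorem s19_pp_012_a : ∃ t, chk3 f_pp_012_a t 15 3 1 = true := ex3_b s18_pp_012_a s15_pp_012_a

theorem s20_pp_012_a : ∃ t, chk3 f_pp_012_a t 7 3 1 = true := ex3_a k4_pp_012_a s19_pp_012_a

theorem s21_pp_012_a : ∃ t, chk3 f_pp_012_a t 7 2 1 = true := ex3_a k2_pp_012_a k3_pp_012_a

theorem s22_pp_012_a : ∃ t, chk3 f_pp_012_a t 7 1 1 = true := ex3_b s21_pp_012_a s20_pp_012_a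

theorem s23_pp_012_a : ∃ t, chk3 f_pp_012_a t 3 1 1 = true := ex3_a k1_pp_012_a s22_pp_012_a

theorem s24_pp_012_a : ∃ t, chk3 f_pp_012_a t 1 1 1 = true := ex3_a k0_pp_012_a s23_pp_012_a

theorem c_pp_012_a : CertN 0 536870912 0 536870912 402653184 67108864 3 false true true .pnp 0 1 2
    ndN0q0 ndN1q2a pcN1 cut_pp_012_a Ext.none :=
  certN2 (fam := false) (s1 := true) (s2 := true) (a := 0) (b := 1) (c := 2) (cn := .pnp) (n1 := ndN0q0) (n2 := ndN1q2a) (pc := pcN1) (cut := cut_pp_012_a) (xt := Ext.none) (P1 := 0) (W1 := 536870912) (P2 := 0) (W2 := 536870912) (P3 := 402653184) (W3 := 67108864) (N0 := 3)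
    rfl (fun _ => rfl) s24_pp_012_a

noncomputable def cut_pp_012_b : Cut := Cut.of [[⟨0, 0, 0, 67108864⟩, ⟨1, 1, 0, 67108864⟩, ⟨2, 1, 0, 67108864⟩]]

noncomputable def f_pp_012_b : ℕ → ℕ → ℕ → ℕ → Bool := onCell 0 536870912 536870912 536870912 402653184 67108864
    (rowN 3 1 false true true .pnp 0 1 2 (qsf 0 536870912 1239849684 370763052 1) ndN0q0 ndN1q2b pcN1 cut_pp_012_b Ext.none)

def k0_pp_012_b : ∃ t, chk3 f_pp_012_b t 1 1 1 = true :=
  ⟨(b (a (l 1) (l 3)) (a (b (l 1) (a (l 1) (b (a (l 1) (b (a (l 1) (b (l 1) (l 175590270039))) (a (b (l 1) (l 160020942759)) (b (l 90764632903) (l 16642176))))) (a (b (a (l 1) (b (l 1) (a (l 1) (l 16653208)))) (a (b (l 1) (l 84858843511)) (b (l 67142092343) (l 16584624)))) (a (b (b (l 135861574935) (l 16605112)) (l 16630408)) (b (l 16628448) (l 16570648))))))) (b (a (b (a (l 1) (b (l 3) (a (a (l 1) (a (l 1) (a (l 1) (l 3)))) (l 3)))) (a (b (a (l 1) (b (l 1) (b (l 1) (l 60163169431)))) (a (b (l 1) (l 191159516775)) (b (l 55868131895)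 (l 16725072)))) (b (a (b (a (l 103649702615) (b (a (l 16784952) (l 16792376)) (l 16783304))) (a (l 16757808) (l 16773776))) (b (a (a (l 72645384599) (l 71034777719)) (l 58686774231)) (l 16791376))) (a (b (l 16751000) (l 16735104)) (b (l 16778680) (l 16764704)))))) (b (l 3) (a (b (b (a (a (l 55465562263) (l 52781221975)) (l 3)) (a (c (l 16827040) (l 16804368)) (c (l 16861992) (l 16832008)))) (a (b (l 16805128) (l 16793080)) (b (l 16839280) (l 16829696)))) (b (a (b (l 3) (l 72645496423)) (l 75866894823)) (a (l 16856904) (b (l 16944000) (l 16942608))))))) (a (b (a (b (a (b (l 32245833031) (l 16693008)) (l 16720880)) (a (l 16668080) (l 16643816))) (b (a (l 16710288) (l 16742240)) (a (l 16676352) (l 16710928)))) (a (b (a (l 16590744) (l 16608248)) (a (l 16553784) (l 16571968))) (b (a (l 16642256) (l 16679256)) (a (l 16607912) (l 16647488))))) (b (a (b (a (l 16773200) (l 16813272)) (l 16765280)) (b (a (l 16862368) (l 16938056)) (l 16855480))) (a (b (l 16738104) (l 16710784)) (b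 (l 16883000) (a (l 16868560) (l 16961624))))))))), by decide +kernel⟩

theorem c_pp_012_b : CertN 0 536870912 1239849684 370763052 402653184 67108864 3 false true true .pnp 0 1 2
    ndN0q0 ndN1q2b pcN1 cut_pp_012_b Ext.none :=
  certN1 (fam := false) (s1 := true) (s2 := true) (a := 0) (b := 1) (c := 2) (cn := .pnp) (n1 := ndN0q0) (n2 := ndN1q2b) (pc := pcN1) (cut := cut_pp_012_b) (xt := Ext.none) (P1 := 0) (W1 := 536870912) (P2 := 1239849684) (W2 := 370763052) (P3 := 402653184) (W3 := 67108864) (N0 := 3)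
    rfl (fun _ => rfl) k0_pp_012_b

noncomputable def cut_pp_022_a : Cut := Cut.of [[⟨0, 0, 0, 67108864⟩, ⟨1, 1, 0, 67108864⟩, ⟨2, 1, 0, 67108864⟩]]

noncomputable def f_pp_022_a : ℕ → ℕ → ℕ → ℕ → Bool := onCell 1073741824 536870912 0 536870912 402653184 67108864
    (rowN 3 2 false true true .pp 0 2 2 (qsf 0 536870912 0 536870912 2) ndN0q0 ndN1q2a pcN2 cut_pp_022_a Ext.none)

def k0_pp_022_a : ∃ t, chk3 f_pp_022_a t 4 1 1 = true :=
  ⟨(b (a (b (a (b (l 16602272) (a (l 16586304) (l 16566560))) (b (l 16523952) (l 16536504))) (a (a (b (l 16625240) (a (l 16672880) (l 16661656))) (b (l 16583016) (l 16644584))) (b (l 16571440) (a (l 16624392) (l 16640160))))) (b (a (l 16557672) (b (l 16481512) (l 16497488))) (b (a (l 16600936) (a (l 16525624) (l 16516152))) (a (b (l 16623640) (a (l 16576896) (l 16569552))) (a (b (l 16547496) (l 16561024)) (b (l 16537296) (b (l 16548896) (l 16554120)))))))) (a (b (a (a (b (b (l 16686560) (l 16699456)) (a (b (l 16696872) (b (l 16685648) (l 16713224)))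 (b (l 16685992) (l 16709664)))) (b (b (l 16622000) (l 16656088)) (b (l 16690248) (a (l 16688216) (l 16677048))))) (b (b (l 16638464) (c (l 16652224) (l 16651200))) (b (a (l 16650848) (l 16662760)) (a (a (l 16651016) (l 16666848)) (b (l 16654376) (l 16674008)))))) (a (b (b (a (a (b (l 16720368) (l 16728400)) (c (l 16714736) (l 16712896))) (b (l 16695088) (l 16705440))) (l 6)) (l 6)) (a (b (b (b (c (l 16684904) (l 16683376)) (a (l 16696816) (l 16669816))) (l 6)) (l 6)) (b (a (b (b (l 16654640) (l 16663752)) (l 6)) (b (b (l 16648832) (l 16668104)) (b (l 16666144) (l 1)))) (l 1))))) (b (b (a (b (a (l 16585800) (l 16577424)) (a (l 16618104) (l 16608432))) (b (a (l 16568416) (l 16558768)) (a (l 16598336) (l 1)))) (a (a (b (a (l 16613432) (l 16608088)) (b (l 16643352) (a (l 16633936) (l 16627760)))) (b (a (l 16602560) (l 16597000)) (b (l 16631416) (l 1)))) (b (a (b (l 16585464) (l 1)) (l 1)) (l 1)))) (b (a (b (a (b (a (l 16642656) (l 16636160)) (a (l 16651128) (l 1))) (l 1)) (l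 1)) (l 1)) (l 1))))), by decide +kernel⟩

def k1_pp_022_a : ∃ t, chk3 f_pp_022_a t 5 1 1 = true :=
  ⟨(b (a (b (a (b (l 16463464) (l 16520232)) (b (l 1) (l 1))) (a (a (b (l 16505776) (b (l 16526192) (l 16561440))) (b (l 16494568) (l 1))) (l 1))) (l 1)) (b (l 1) (l 1))), by decide +kernel⟩

def k2_pp_022_a : ∃ t, chk3 f_pp_022_a t 3 1 1 = true :=
  ⟨(l 1), by decide +kernel⟩

theorem s3_pp_022_a : ∃ t, chk3 f_pp_022_a t 2 1 1 = true := ex3_a k0_pp_022_a k1_pp_022_a

theorem s4_pp_022_a : ∃ t, chk3 f_pp_022_a t 1 1 1 = true := ex3_a s3_pp_022_a k2_pp_022_a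

theorem c_pp_022_a : CertN 0 536870912 0 536870912 402653184 67108864 3 false true true .pp 0 2 2
    ndN0q0 ndN1q2a pcN2 cut_pp_022_a Ext.none :=
  certN2 (fam := false) (s1 := true) (s2 := true) (a := 0) (b := 2) (c := 2) (cn := .pp) (n1 := ndN0q0) (n2 := ndN1q2a) (pc := pcN2) (cut := cut_pp_022_a) (xt := Ext.none) (P1 := 0) (W1 := 536870912) (P2 := 0) (W2 := 536870912) (P3 := 402653184) (W3 := 67108864) (N0 := 3)
    rfl (fun _ => rfl) s4_pp_022_a

noncomputable def cut_pp_022_b : Cut := Cut.of [[⟨0, 0, 0, 67108864⟩, ⟨1, 1, 0, 67108864⟩, ⟨2, 1, 0, 67108864⟩]]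

noncomputable def f_pp_022_b : ℕ → ℕ → ℕ → ℕ → Bool := onCell 0 536870912 1073741824 536870912 402653184 67108864
    (rowN 3 1 false true true .pp 0 2 2 (qsf 0 536870912 1239849684 370763052 2) ndN0q0 ndN1q2b pcN2 cut_pp_022_b Ext.none)

def k0_pp_022_b : ∃ t, chk3 f_pp_022_b t 1 1 1 = true :=
  ⟨(a (b (a (b (b (a (l 1) (b (a (l 1) (l 53183473447)) (a (l 75732030327) (l 16558256)))) (b (a (a (l 1) (l 136935194983)) (a (l 16529912) (l 16455144))) (a (a (a (l 1) (l 16581648)) (l 41908969223)) (l 16490232)))) (b (a (a (b (a (l 16512736) (l 16430832)) (l 16398056)) (l 16461248)) (l 16438640)) (a (a (l 16348888) (l 16282560)) (a (l 16219888) (l 16224136))))) (b (b (b (a (a (l 16613864) (l 16549792)) (a (l 16513520) (l 16507608))) (a (l 16564520) (l 16477800))) (a (a (l 16466376) (l 16429896)) (a (l 16380424) (l 16382912)))) (a (b (a (l 16334008) (l 16281568)) (l 16249304)) (b (l 16302600) (l 16256048))))) (b (a (b (a (b (l 16196920) (l 16194464)) (a (l 16126344) (l 16112840)))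 (a (b (l 16134720) (l 16057032)) (b (l 16061936) (l 16170176)))) (b (a (l 16163128) (l 16536920)) (a (l 16482712) (l 16750336)))) (a (b (a (b (l 16026448) (l 16073560)) (l 16423072)) (a (b (l 16259192) (l 16442008)) (b (l 16627144) (l 2)))) (b (a (l 16721520) (l 2)) (l 2))))) (b (a (b (a (b (b (a (l 16513408) (l 16533648)) (l 16476488)) (l 16410088)) (b (a (l 16552584) (l 16595616)) (l 16540608))) (a (b (l 16373648) (l 16600080)) (b (l 16690456) (l 16819816)))) (b (a (b (b (l 16710272) (l 16742496)) (l 16797208)) (b (a (l 16883312) (l 16965664)) (l 16945472))) (a (l 16909912) (l 2)))) (b (a (b (a (l 16778704) (l 2)) (l 2)) (l 2)) (l 2)))), by decide +kernel⟩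

theorem c_pp_022_b : CertN 0 536870912 1239849684 370763052 402653184 67108864 3 false true true .pp 0 2 2
    ndN0q0 ndN1q2b pcN2 cut_pp_022_b Ext.none :=
  certN1 (fam := false) (s1 := true) (s2 := true) (a := 0) (b := 2) (c := 2) (cn := .pp) (n1 := ndN0q0) (n2 := ndN1q2b) (pc := pcN2) (cut := cut_pp_022_b) (xt := Ext.none) (P1 := 0) (W1 := 536870912) (P2 := 1239849684) (W2 := 370763052) (P3 := 402653184) (W3 := 67108864) (N0 := 3)
    rfl (fun _ => rfl) k0_pp_022_b

noncomputable def f_pp_023 : ℕ → ℕ → ℕ → ℕ → Bool := onCell 0 536870912 1073741824 536870912 402653184 67108864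
    (rowN 3 1 false true true .up 0 2 3 (qsf 0 536870912 1610612736 536870912 2) ndN0q0 ndN1q3 pcN2 Cut.none Ext.none)

def k0_pp_023 : ∃ t, chk3 f_pp_023 t 1 1 1 = true :=
  ⟨(a (b (a (l 1) (b (l 1) (a (l 1) (l 152504573799)))) (b (a (b (l 1) (a (l 1) (l 147672258855))) (b (a (l 16328496) (l 16558008)) (a (l 16451272) (l 16759672)))) (a (b (a (l 142840342887) (l 16337608)) (a (b (l 16222984) (l 16308496)) (b (l 16560656) (l 16695256)))) (b (a (l 16697392) (l 16919840)) (a (l 16889600) (l 17036592)))))) (b (a (b (a (l 1) (l 194380773655)) (a (l 185790703655) (l 203507603495))) (b (a (l 232498880439) (b (l 240552739943) (l 17075304))) (a (l 16996280) (l 17054304)))) (b (a (b (a (l 16822880) (l 16975432)) (a (l 16944752) (l 17042408))) (b (l 17059440) (l 17085896))) (b (a (a (l 17044176) (l 17099192)) (l 17108768)) (a (l 17121400) (l 17105568)))))), by decide +kernel⟩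

theorem c_pp_023 : CertN 0 536870912 1610612736 536870912 402653184 67108864 3 false true true .up 0 2 3
    ndN0q0 ndN1q3 pcN2 Cut.none Ext.none :=
  certN1 (fam := false) (s1 := true) (s2 := true) (a := 0) (b := 2) (c := 3) (cn := .up) (n1 := ndN0q0) (n2 := ndN1q3) (pc := pcN2) (cut := Cut.none) (xt := Ext.none) (P1 := 0) (W1 := 536870912) (P2 := 1610612736) (W2 := 536870912) (P3 := 402653184) (W3 := 67108864) (N0 := 3)
    rfl (fun _ => rfl) k0_pp_023

noncomputable def f_pp_033 : ℕ → ℕ → ℕ → ℕ → Bool := onCell 1610612736 536870912 1610612736 536870912 402653184 67108864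
    (rowN 3 2 false true true .pnn 0 3 3 (qsf 0 536870912 1610612736 536870912 3) ndN0q0 ndN1q3 pcN3 Cut.none Ext.none)

def k0_pp_033 : ∃ t, chk3 f_pp_033 t 1 1 1 = true :=
  ⟨(a (b (a (b (a (b (a (l 16341240) (l 16312000)) (l 16721744)) (b (l 247530392823) (l 16710656))) (a (b (l 16956728) (l 17083952)) (b (l 16948992) (l 17078320)))) (a (b (b (l 1) (l 357053257671)) (b (l 16987160) (l 17092832))) (b (l 1) (l 413962238855)))) (a (b (a (l 17146536) (l 17144440)) (a (l 17175616) (l 17102288))) (a (b (l 17139448) (l 17083728)) (b (l 17147856) (l 17075576))))) (a (b (b (l 1) (b (l 1) (l 4))) (l 4)) (l 4))), by decide +kernel⟩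

theorem c_pp_033 : CertN 0 536870912 1610612736 536870912 402653184 67108864 3 false true true .pnn 0 3 3
    ndN0q0 ndN1q3 pcN3 Cut.none Ext.none :=
  certN2 (fam := false) (s1 := true) (s2 := true) (a := 0) (b := 3) (c := 3) (cn := .pnn) (n1 := ndN0q0) (n2 := ndN1q3) (pc := pcN3) (cut := Cut.none) (xt := Ext.none) (P1 := 0) (W1 := 536870912) (P2 := 1610612736) (W2 := 536870912) (P3 := 402653184) (W3 := 67108864) (N0 := 3)
    rfl (fun _ => rfl) k0_pp_033

noncomputable def f_pp_101 : ℕ → ℕ → ℕ → ℕ → Bool := onCell 536870912 536870912 536870912 536870912 402653184 67108864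
    (rowN 3 0 false true true .npn 1 0 1 (qsf 536870912 536870912 536870912 536870912 0) ndN0q1 ndN1q1 pcN0 Cut.none Ext.none)

def k0_pp_101 : ∃ t, chk3 f_pp_101 t 1 1 1 = true :=
  ⟨(l 3), by decide +kernel⟩

theorem c_pp_101 : CertN 536870912 536870912 536870912 536870912 402653184 67108864 3 false true true .npn 1 0 1
    ndN0q1 ndN1q1 pcN0 Cut.none Ext.none :=
  certN0 (fam := false) (s1 := true) (s2 := true) (a := 1) (b := 0) (c := 1) (cn := .npn) (n1 := ndN0q1) (n2 := ndN1q1) (pc := pcN0) (cut := Cut.none) (xt := Ext.none) (P1 := 536870912) (W1 := 536870912) (P2 := 536870912) (W2 := 536870912) (P3 := 402653184) (W3 := 67108864) (N0 := 3)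
    rfl k0_pp_101

noncomputable def f_pp_102_a : ℕ → ℕ → ℕ → ℕ → Bool := onCell 536870912 536870912 0 536870912 402653184 67108864
    (rowN 3 0 false true true .npp 1 0 2 (qsf 536870912 536870912 0 536870912 0) ndN0q1 ndN1q2a pcN0 Cut.none Ext.none)

def k0_pp_102_a : ∃ t, chk3 f_pp_102_a t 1 1 1 = true :=
  ⟨(l 3), by decide +kernel⟩

theorem c_pp_102_a : CertN 536870912 536870912 0 536870912 402653184 67108864 3 false true true .npp 1 0 2
    ndN0q1 ndN1q2a pcN0 Cut.none Ext.none :=
  certN0 (fam := false) (s1 := true) (s2 := true) (a := 1) (b := 0) (c := 2) (cn := .npp) (n1 := ndN0q1) (n2 := ndN1q2a) (pc := pcN0) (cut := Cut.none) (xt := Ext.none) (P1 := 536870912) (W1 := 536870912) (P2 := 0) (W2 := 536870912) (P3 := 402653184) (W3 := 67108864) (N0 := 3)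
    rfl k0_pp_102_a

noncomputable def f_pp_102_b : ℕ → ℕ → ℕ → ℕ → Bool := onCell 536870912 536870912 0 536870912 402653184 67108864
    (rowN 3 1 false true true .npp 1 0 2 (qsf 536870912 536870912 1239849684 370763052 0) ndN0q1 ndN1q2b pcN0 Cut.none Ext.none)

def k0_pp_102_b : ∃ t, chk3 f_pp_102_b t 1 1 1 = true :=
  ⟨(l 3), by decide +kernel⟩

theorem c_pp_102_b : CertN 536870912 536870912 1239849684 370763052 402653184 67108864 3 false true true .npp 1 0 2
    ndN0q1 ndN1q2b pcN0 Cut.none Ext.none :=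
  certN1 (fam := false) (s1 := true) (s2 := true) (a := 1) (b := 0) (c := 2) (cn := .npp) (n1 := ndN0q1) (n2 := ndN1q2b) (pc := pcN0) (cut := Cut.none) (xt := Ext.none) (P1 := 536870912) (W1 := 536870912) (P2 := 1239849684) (W2 := 370763052) (P3 := 402653184) (W3 := 67108864) (N0 := 3)
    rfl (fun _ => rfl) k0_pp_102_b

noncomputable def f_pp_112_a : ℕ → ℕ → ℕ → ℕ → Bool := onCell 536870912 536870912 0 536870912 402653184 67108864
    (rowN 3 0 false true true .dn 1 1 2 (qsf 536870912 536870912 0 536870912 1) ndN0q1 ndN1q2a pcN1 Cut.none Ext.none)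

def k0_pp_112_a : ∃ t, chk3 f_pp_112_a t 1 1 1 = true :=
  ⟨(l 3), by decide +kernel⟩

theorem c_pp_112_a : CertN 536870912 536870912 0 536870912 402653184 67108864 3 false true true .dn 1 1 2
    ndN0q1 ndN1q2a pcN1 Cut.none Ext.none :=
  certN0 (fam := false) (s1 := true) (s2 := true) (a := 1) (b := 1) (c := 2) (cn := .dn) (n1 := ndN0q1) (n2 := ndN1q2a) (pc := pcN1) (cut := Cut.none) (xt := Ext.none) (P1 := 536870912) (W1 := 536870912) (P2 := 0) (W2 := 536870912) (P3 := 402653184) (W3 := 67108864) (N0 := 3)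
    rfl k0_pp_112_a

noncomputable def f_pp_112_b : ℕ → ℕ → ℕ → ℕ → Bool := onCell 536870912 536870912 1239849684 370763052 402653184 67108864
    (rowN 3 0 false true true .dn 1 1 2 (qsf 536870912 536870912 1239849684 370763052 1) ndN0q1 ndN1q2b pcN1 Cut.none Ext.none)

def k0_pp_112_b : ∃ t, chk3 f_pp_112_b t 1 1 1 = true :=
  ⟨(a (b (l 3) (a (b (a (b (a (b (l 3) (a (l 101636764599) (l 3))) (l 3)) (a (b (a (l 17006736) (l 109153014903)) (l 17023072)) (a (l 102710628247) (l 109153284551)))) (l 3)) (a (b (a (b (l 17020752) (l 17022760)) (b (l 96804999975) (l 17087208))) (a (b (l 17028736) (l 17038512)) (l 17064336))) (b (a (a (l 97342102807) (l 125796369703)) (l 3)) (a (a (l 17101152) (l 84457278055)) (b (l 138681315703) (l 69424940823)))))) (l 3))) (l 3)), by decide +kernel⟩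

theorem c_pp_112_b : CertN 536870912 536870912 1239849684 370763052 402653184 67108864 3 false true true .dn 1 1 2
    ndN0q1 ndN1q2b pcN1 Cut.none Ext.none :=
  certN0 (fam := false) (s1 := true) (s2 := true) (a := 1) (b := 1) (c := 2) (cn := .dn) (n1 := ndN0q1) (n2 := ndN1q2b) (pc := pcN1) (cut := Cut.none) (xt := Ext.none) (P1 := 536870912) (W1 := 536870912) (P2 := 1239849684) (W2 := 370763052) (P3 := 402653184) (W3 := 67108864) (N0 := 3)
    rfl k0_pp_112_b

noncomputable def cut_pp_113 : Cut := Cut.of [[⟨0, 1, 0, 67108864⟩, ⟨1, 1, 0, 67108864⟩, ⟨2, 2, 0, 16777216⟩]]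

noncomputable def f_pp_113 : ℕ → ℕ → ℕ → ℕ → Bool := onCell 536870912 536870912 536870912 536870912 402653184 67108864
    (rowN 3 1 false true true .nn 1 1 3 (qsf 536870912 536870912 1610612736 536870912 1) ndN0q1 ndN1q3 pcN1 cut_pp_113 Ext.none)

def k0_pp_113 : ∃ t, chk3 f_pp_113 t 1 1 1 = true :=
  ⟨(b (a (l 3) (l 3)) (a (b (a (a (l 1) (a (l 1) (a (l 1) (l 3)))) (l 3)) (a (b (b (a (l 1) (a (l 17220928) (l 17107136))) (a (l 17191416) (l 17261800))) (a (a (l 17205056) (l 17241672)) (b (l 17265680) (l 17253960)))) (b (a (b (a (l 175188631143) (l 218675106519)) (a (l 17201032) (l 17171880))) (b (l 225117507479) (b (l 214917117703) (l 17136704)))) (a (l 17443208) (l 17401152))))) (b (l 3) (a (b (a (b (l 3) (b (l 235317858935) (l 262698504103))) (l 3)) (a (b (a (l 17094520) (l 17064128)) (l 17069792)) (b (a (l 17054120) (l 225654097271)) (l 16991416)))) (b (l 3) (a (b (b (l 3) (a (l 333565018183) (l 364166541239))) (a (l 16932712) (b (l 290615146183) (l 16882832)))) (b (l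 3) (a (b (l 427517194551) (a (l 16852864) (l 16854536))) (b (l 3) (a (b (l 504826516983) (l 180019635751)) (b (l 3) (b (l 535428106487) (a (l 16792904) (l 6)))))))))))))), by decide +kernel⟩

theorem c_pp_113 : CertN 536870912 536870912 1610612736 536870912 402653184 67108864 3 false true true .nn 1 1 3
    ndN0q1 ndN1q3 pcN1 cut_pp_113 Ext.none :=
  certN1 (fam := false) (s1 := true) (s2 := true) (a := 1) (b := 1) (c := 3) (cn := .nn) (n1 := ndN0q1) (n2 := ndN1q3) (pc := pcN1) (cut := cut_pp_113) (xt := Ext.none) (P1 := 536870912) (W1 := 536870912) (P2 := 1610612736) (W2 := 536870912) (P3 := 402653184) (W3 := 67108864) (N0 := 3)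
    rfl (fun _ => rfl) k0_pp_113

noncomputable def cut_pp_123 : Cut := Cut.of [[⟨0, 1, 0, 67108864⟩, ⟨1, 1, 0, 67108864⟩, ⟨2, 2, 0, 16777216⟩]]

noncomputable def f_pp_123 : ℕ → ℕ → ℕ → ℕ → Bool := onCell 536870912 536870912 1073741824 536870912 402653184 67108864
    (rowN 3 1 false true true .npn 1 2 3 (qsf 536870912 536870912 1610612736 536870912 2) ndN0q1 ndN1q3 pcN2 cut_pp_123 Ext.none)

def k0_pp_123 : ∃ t, chk3 f_pp_123 t 1 1 1 = true :=
  ⟨(a (b (a (b (a (b (l 17257472) (l 17131904)) (l 17167288)) (a (l 17068328) (l 17042816))) (b (b (a (l 17169592) (l 17102440)) (l 17056728)) (a (l 17011968) (l 16923992)))) (a (b (b (l 17031056) (l 17035256)) (b (a (l 17060176) (l 17009144)) (l 17017432))) (b (b (l 16923872) (a (l 16958464) (l 16925320))) (a (b (l 16936392) (l 2)) (l 2))))) (b (a (b (b (a (l 17019512) (l 16934584)) (a (l 16940896) (l 16856648))) (a (l 16849120) (b (l 16785968) (l 16728312)))) (b (b (a (l 17104624) (b (a (l 16814536) (b (a (l 16795920) (b (a (l 16786608)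 (l 6)) (l 16773104))) (l 16810288))) (l 392016752919))) (a (l 16987736) (b (l 16881912) (l 2)))) (a (b (l 16733408) (l 2)) (l 2)))) (a (b (a (b (l 16813128) (l 2)) (l 2)) (l 2)) (l 2)))), by decide +kernel⟩

theorem c_pp_123 : CertN 536870912 536870912 1610612736 536870912 402653184 67108864 3 false true true .npn 1 2 3
    ndN0q1 ndN1q3 pcN2 cut_pp_123 Ext.none :=
  certN1 (fam := false) (s1 := true) (s2 := true) (a := 1) (b := 2) (c := 3) (cn := .npn) (n1 := ndN0q1) (n2 := ndN1q3) (pc := pcN2) (cut := cut_pp_123) (xt := Ext.none) (P1 := 536870912) (W1 := 536870912) (P2 := 1610612736) (W2 := 536870912) (P3 := 402653184) (W3 := 67108864) (N0 := 3)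
    rfl (fun _ => rfl) k0_pp_123

noncomputable def f_pp_133 : ℕ → ℕ → ℕ → ℕ → Bool := onCell 1610612736 536870912 1610612736 536870912 402653184 67108864
    (rowN 3 2 false true true .dn 1 3 3 (qsf 536870912 536870912 1610612736 536870912 3) ndN0q1 ndN1q3 pcN3 Cut.none Ext.none)

def k0_pp_133 : ∃ t, chk3 f_pp_133 t 1 1 1 = true :=
  ⟨(a (b (l 1) (a (b (l 1) (a (l 404298557751) (l 1))) (l 1))) (l 1)), by decide +kernel⟩

theorem c_pp_133 : CertN 536870912 536870912 1610612736 536870912 402653184 67108864 3 false true true .dn 1 3 3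
    ndN0q1 ndN1q3 pcN3 Cut.none Ext.none :=
  certN2 (fam := false) (s1 := true) (s2 := true) (a := 1) (b := 3) (c := 3) (cn := .dn) (n1 := ndN0q1) (n2 := ndN1q3) (pc := pcN3) (cut := Cut.none) (xt := Ext.none) (P1 := 536870912) (W1 := 536870912) (P2 := 1610612736) (W2 := 536870912) (P3 := 402653184) (W3 := 67108864) (N0 := 3)
    rfl (fun _ => rfl) k0_pp_133

noncomputable def f_pp_202_a : ℕ → ℕ → ℕ → ℕ → Bool := onCell 0 536870912 0 536870912 402653184 67108864
    (rowN 3 0 false true true .pp 2 0 2 (qsf 0 536870912 0 536870912 0) ndN0q2 ndN1q2a pcN0 Cut.none Ext.none)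

def k0_pp_202_a : ∃ t, chk3 f_pp_202_a t 1 1 1 = true :=
  ⟨(l 3), by decide +kernel⟩

theorem c_pp_202_a : CertN 0 536870912 0 536870912 402653184 67108864 3 false true true .pp 2 0 2
    ndN0q2 ndN1q2a pcN0 Cut.none Ext.none :=
  certN0 (fam := false) (s1 := true) (s2 := true) (a := 2) (b := 0) (c := 2) (cn := .pp) (n1 := ndN0q2) (n2 := ndN1q2a) (pc := pcN0) (cut := Cut.none) (xt := Ext.none) (P1 := 0) (W1 := 536870912) (P2 := 0) (W2 := 536870912) (P3 := 402653184) (W3 := 67108864) (N0 := 3)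
    rfl k0_pp_202_a

noncomputable def f_pp_202_b : ℕ → ℕ → ℕ → ℕ → Bool := onCell 0 536870912 1239849684 370763052 402653184 67108864
    (rowN 3 0 false true true .pp 2 0 2 (qsf 0 536870912 1239849684 370763052 0) ndN0q2 ndN1q2b pcN0 Cut.none Ext.none)

def k0_pp_202_b : ∃ t, chk3 f_pp_202_b t 1 1 1 = true :=
  ⟨(l 3), by decide +kernel⟩

theorem c_pp_202_b : CertN 0 536870912 1239849684 370763052 402653184 67108864 3 false true true .pp 2 0 2
    ndN0q2 ndN1q2b pcN0 Cut.none Ext.none :=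
  certN0 (fam := false) (s1 := true) (s2 := true) (a := 2) (b := 0) (c := 2) (cn := .pp) (n1 := ndN0q2) (n2 := ndN1q2b) (pc := pcN0) (cut := Cut.none) (xt := Ext.none) (P1 := 0) (W1 := 536870912) (P2 := 1239849684) (W2 := 370763052) (P3 := 402653184) (W3 := 67108864) (N0 := 3)
    rfl k0_pp_202_b

noncomputable def f_pp_203 : ℕ → ℕ → ℕ → ℕ → Bool := onCell 0 536870912 0 536870912 402653184 67108864
    (rowN 3 1 false true true .up 2 0 3 (qsf 0 536870912 1610612736 536870912 0) ndN0q2 ndN1q3 pcN0 Cut.none Ext.none)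

def k0_pp_203 : ∃ t, chk3 f_pp_203 t 1 1 1 = true :=
  ⟨(l 3), by decide +kernel⟩

theorem c_pp_203 : CertN 0 536870912 1610612736 536870912 402653184 67108864 3 false true true .up 2 0 3
    ndN0q2 ndN1q3 pcN0 Cut.none Ext.none :=
  certN1 (fam := false) (s1 := true) (s2 := true) (a := 2) (b := 0) (c := 3) (cn := .up) (n1 := ndN0q2) (n2 := ndN1q3) (pc := pcN0) (cut := Cut.none) (xt := Ext.none) (P1 := 0) (W1 := 536870912) (P2 := 1610612736) (W2 := 536870912) (P3 := 402653184) (W3 := 67108864) (N0 := 3)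
    rfl (fun _ => rfl) k0_pp_203

noncomputable def cut_pp_213 : Cut := Cut.of [[⟨0, 1, 0, 67108864⟩, ⟨1, 1, 0, 67108864⟩, ⟨2, 2, 0, 16777216⟩]]

noncomputable def f_pp_213 : ℕ → ℕ → ℕ → ℕ → Bool := onCell 0 536870912 1610612736 536870912 402653184 67108864
    (rowN 3 0 false true true .pnn 2 1 3 (qsf 0 536870912 1610612736 536870912 1) ndN0q2 ndN1q3 pcN1 cut_pp_213 Ext.none)

def k0_pp_213 : ∃ t, chk3 f_pp_213 t 1 1 1 = true :=
  ⟨(b (l 3) (a (l 3) (b (l 3) (a (l 3) (b (l 3) (a (l 3) (a (l 3) (b (l 3) (b (l 3) (b (l 3) (l 6))))))))))), by decide +kernel⟩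

theorem c_pp_213 : CertN 0 536870912 1610612736 536870912 402653184 67108864 3 false true true .pnn 2 1 3
    ndN0q2 ndN1q3 pcN1 cut_pp_213 Ext.none :=
  certN0 (fam := false) (s1 := true) (s2 := true) (a := 2) (b := 1) (c := 3) (cn := .pnn) (n1 := ndN0q2) (n2 := ndN1q3) (pc := pcN1) (cut := cut_pp_213) (xt := Ext.none) (P1 := 0) (W1 := 536870912) (P2 := 1610612736) (W2 := 536870912) (P3 := 402653184) (W3 := 67108864) (N0 := 3)
    rfl k0_pp_213

noncomputable def f_pm_001 : ℕ → ℕ → ℕ → ℕ → Bool := onCell 0 536870912 536870912 536870912 402653184 67108864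
    (rowN 3 0 false true false .up 0 0 1 (qsf 0 536870912 536870912 536870912 0) ndN0q0 ndN1q1 pcN0 Cut.none Ext.none)

def k0_pm_001 : ∃ t, chk3 f_pm_001 t 1 1 1 = true :=
  ⟨(l 4), by decide +kernel⟩

theorem c_pm_001 : CertN 0 536870912 536870912 536870912 402653184 67108864 3 false true false .up 0 0 1
    ndN0q0 ndN1q1 pcN0 Cut.none Ext.none :=
  certN0 (fam := false) (s1 := true) (s2 := false) (a := 0) (b := 0) (c := 1) (cn := .up) (n1 := ndN0q0) (n2 := ndN1q1) (pc := pcN0) (cut := Cut.none) (xt := Ext.none) (P1 := 0) (W1 := 536870912) (P2 := 536870912) (W2 := 536870912) (P3 := 402653184) (W3 := 67108864) (N0 := 3)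
    rfl k0_pm_001

noncomputable def f_pm_011 : ℕ → ℕ → ℕ → ℕ → Bool := onCell 0 536870912 536870912 536870912 402653184 67108864
    (rowN 3 0 false true false .pnn 0 1 1 (qsf 0 536870912 536870912 536870912 1) ndN0q0 ndN1q1 pcN1 Cut.none Ext.none)

def k0_pm_011 : ∃ t, chk3 f_pm_011 t 1 1 1 = true :=
  ⟨(l 4), by decide +kernel⟩

theorem c_pm_011 : CertN 0 536870912 536870912 536870912 402653184 67108864 3 false true false .pnn 0 1 1
    ndN0q0 ndN1q1 pcN1 Cut.none Ext.none :=
  certN0 (fam := false) (s1 := true) (s2 := false) (a := 0) (b := 1) (c := 1) (cn := .pnn) (n1 := ndN0q0) (n2 := ndN1q1) (pc := pcN1) (cut := Cut.none) (xt := Ext.none) (P1 := 0) (W1 := 536870912) (P2 := 536870912) (W2 := 536870912) (P3 := 402653184) (W3 := 67108864) (N0 := 3)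
    rfl k0_pm_011

noncomputable def cut_pm_012_a : Cut := Cut.of [[⟨0, 0, 0, 67108864⟩, ⟨1, 1, 0, 67108864⟩, ⟨2, 1, 0, 67108864⟩], [⟨0, 0, 1, 33554432⟩, ⟨1, 1, 2, 33554432⟩, ⟨2, 1, 0, 33554432⟩]]

noncomputable def f_pm_012_a : ℕ → ℕ → ℕ → ℕ → Bool := onCell 536870912 536870912 0 536870912 402653184 67108864
    (rowN 3 2 false true false .pnp 0 1 2 (qsf 0 536870912 0 536870912 1) ndN0q0 ndN1q2a pcN1 cut_pm_012_a Ext.none)

def k0_pm_012_a : ∃ t, chk3 f_pm_012_a t 4 2 1 = true :=
  ⟨(a (l 2) (b (l 2) (a (l 2) (l 17093608)))), by decide +kernel⟩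

def k1_pm_012_a : ∃ t, chk3 f_pm_012_a t 8 3 1 = true :=
  ⟨(b (l 2) (b (a (l 2) (b (a (l 2) (l 16901968)) (a (l 16881632) (l 16864840)))) (a (a (b (l 2) (b (l 17059928) (a (l 17124632) (a (l 17065744) (l 17023024))))) (b (b (l 16938544) (l 16822688)) (b (a (l 16961304) (c (l 16915416) (l 16779744))) (a (c (l 16991880) (b (l 16917024) (l 16828672))) (c (b (l 16902824) (a (l 16919080) (l 16867848))) (b (l 16701808) (a (l 16784704) (b (l 16768048) (c (l 16787688) (a (l 16752368) (l 16697664))))))))))) (b (a (b (l 16852728) (a (l 16836232) (l 16826168))) (b (l 16832592) (a (l 16814536) (l 16799064)))) (b (a (a (c (l 16865400) (l 16761120)) (c (l 16853904) (l 16747752))) (a (c (l 16838888) (l 16730192)) (c (l 16820272) (l 16708400)))) (a (b (a (c (l 16847600) (a (l 16743800) (l 16736752))) (c (l 16832464) (l 16680728))) (c (a (b (l 16837248) (l 16829328)) (l 16773296)) (a (a (b (l 16732760) (c (l 16751616) (b (l 16698864) (l 16693960)))) (b (l 16723680) (c (l 16741656) (l 16643744))))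 (b (c (l 16735888) (l 16679496)) (c (a (l 16731320) (l 16720704)) (a (a (l 16677408) (l 16650824)) (c (l 16677648) (l 14)))))))) (c (b (a (l 16813768) (l 16793928)) (a (c (l 16824432) (l 16746168)) (b (l 16780024) (a (l 16775776) (l 16723176))))) (b (a (l 16700912) (l 16635968)) (b (a (c (l 16714400) (l 16656472)) (l 16578104)) (a (a (c (l 16709784) (c (l 16645192) (l 14))) (c (l 16677600) (l 14))) (c (a (b (l 16689672) (l 16652936)) (c (l 16690272) (l 14))) (l 14)))))))))))), by decide +kernel⟩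

def k2_pm_012_a : ∃ t, chk3 f_pm_012_a t 9 6 1 = true :=
  ⟨(b (a (l 2) (l 16978504)) (a (b (l 16951712) (l 16915712)) (a (l 16906448) (l 16875304)))), by decide +kernel⟩

def k3_pm_012_a : ∃ t, chk3 f_pm_012_a t 9 14 1 = true :=
  ⟨(a (b (a (l 16885928) (l 16864280)) (a (l 16843352) (l 16768520))) (b (l 16808424) (b (l 16736448) (l 16700160)))), by decide +kernel⟩

def k4_pm_012_a : ∃ t, chk3 f_pm_012_a t 18 15 1 = true :=
  ⟨(b (a (b (l 16802600) (l 16642840)) (b (l 16759576) (l 16638552))) (b (a (a (l 16617072) (l 16615024)) (a (l 16611544) (l 16606536))) (a (a (b (c (l 16772864) (l 16590664)) (c (c (l 16783704) (b (l 16728320) (a (l 16723912) (l 16691264)))) (b (l 16584736) (a (c (c (l 16657336) (l 14)) (l 14)) (l 14))))) (b (c (l 16750520) (l 16585904)) (c (c (b (l 16766408) (l 16735520)) (b (l 16704624) (a (c (l 16715768) (l 16663672)) (c (l 16703632) (l 14))))) (l 14)))) (a (c (b (l 16705848) (b (c (l 16743056) (l 16658592)) (a (c (l 16738864) (c (l 16691152) (l 14)))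 (c (l 16705712) (l 14))))) (l 14)) (b (c (l 16596824) (l 16590400)) (a (c (b (l 16650352) (c (b (l 16716784) (l 16690512)) (l 14))) (l 14)) (b (c (l 16616208) (l 16581080)) (c (c (c (l 16717752) (l 14)) (l 14)) (a (l 14) (a (l 14) (c (l 14) (c (l 14) (l 16563312))))))))))))), by decide +kernel⟩

def k5_pm_012_a : ∃ t, chk3 f_pm_012_a t 19 15 1 = true :=
  ⟨(b (a (b (l 16709808) (l 16649008)) (b (l 16653240) (l 16628352))) (b (a (c (l 16630248) (l 16589272)) (b (l 16611904) (a (l 16604184) (l 16599832)))) (a (b (c (a (l 16591184) (l 16604920)) (a (l 16585920) (l 16581992))) (c (a (c (b (l 16671152) (a (c (l 16704712) (l 14)) (l 14))) (l 14)) (l 14)) (b (a (c (l 14) (l 16570232)) (c (l 16582952) (l 16567208))) (b (a (c (l 14) (l 16566776)) (c (l 16584752) (l 16564088))) (a (c (l 14) (a (c (l 14) (a (l 16561632) (l 16560960))) (c (a (l 14) (l 16567448)) (l 16560000)))) (c (a (l 14) (a (l 14) (c (l 14) (l 16572576)))) (a (c (a (l 16566800) (l 16566192)) (l 16558824)) (c (l 16570568)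 (l 16557752))))))))) (b (c (a (l 14) (l 16606456)) (a (l 16578528) (l 16575496))) (c (a (l 14) (a (l 14) (a (l 14) (b (l 16598584) (c (l 14) (b (l 16588304) (c (l 14) (l 16582872)))))))) (b (a (c (l 16579944) (l 16564632)) (l 16585656)) (b (a (c (l 16587336) (l 16561840)) (c (l 16574616) (l 16560016))) (a (c (b (a (l 16575936) (l 16574800)) (a (c (l 14) (c (l 16573064) (l 16569360))) (c (c (l 14) (l 16575672)) (l 16570184)))) (a (c (l 16564256) (l 16556800)) (c (l 16563304) (l 16555944)))) (c (a (c (a (l 16577192) (l 16576688)) (l 16569696)) (c (b (l 16576424) (l 16575552)) (l 16568848))) (a (l 16558824) (l 16558128))))))))))), by decide +kernel⟩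

def k6_pm_012_a : ∃ t, chk3 f_pm_012_a t 5 2 1 = true :=
  ⟨(a (b (a (b (l 17088496) (l 17175088)) (l 17102344)) (a (b (l 17110904) (l 17023472)) (b (l 17039520) (l 16946288)))) (b (a (l 17066024) (l 16973216)) (a (b (l 16946608) (l 16853536)) (b (l 16851656) (l 16765456))))), by decide +kernel⟩

def k7_pm_012_a : ∃ t, chk3 f_pm_012_a t 5 6 1 = true :=
  ⟨(a (b (a (l 16922232) (l 16840112)) (a (b (l 16837232) (l 16771480)) (b (l 16759056) (l 16708160)))) (b (a (l 16757952) (l 16682480)) (a (b (l 16689176) (l 16647616)) (b (l 16626872) (l 16597936))))), by decide +kernel⟩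

def k8_pm_012_a : ∃ t, chk3 f_pm_012_a t 10 14 1 = true :=
  ⟨(a (b (l 16714136) (a (l 16672624) (l 16653928))) (b (l 16619904) (a (l 16634280) (l 16613256)))), by decide +kernel⟩

def k9_pm_012_a : ∃ t, chk3 f_pm_012_a t 20 15 1 = true :=
  ⟨(b (a (b (l 16636728) (l 16616144)) (b (l 16623120) (l 16605856))) (b (b (a (l 16602360) (l 16594640)) (a (c (l 16609752) (l 16578472)) (c (l 16602928) (l 16573304)))) (a (c (b (a (l 16603024) (l 16600016)) (b (a (c (l 14) (l 16589696)) (c (l 16601600) (l 16587552))) (b (a (c (l 14) (l 16597448)) (c (a (l 14) (l 16598424)) (l 16585152))) (a (c (l 14) (b (a (l 16586120) (l 16585200)) (a (c (l 14) (c (l 16583488) (l 16579984))) (c (c (l 14) (l 16586096)) (l 16580920))))) (c (a (l 14) (a (l 14) (c (l 14) (l 16598440)))) (a (c (a (l 16587608) (l 16587216)) (l 16580584)) (c (b (l 16587040) (l 16586288)) (l 16579936)))))))) (b (a (l 16572896) (l 16570704)) (b (a (l 16588960) (l 16587408)) (a (c (a (b (l 16573224) (c (l 16575144) (l 16568104)))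 (c (l 16575168) (l 16568176))) (a (l 16558232) (l 16557672))) (c (a (c (l 16574464) (l 16567576)) (l 16580944)) (a (l 16557216) (l 16556856))))))) (c (b (a (l 16597416) (l 16595240)) (b (a (c (l 16599464) (l 16585808)) (c (l 16597752) (l 16584472))) (b (a (c (a (l 16597528) (l 16596720)) (l 16583728)) (c (l 16603584) (l 16582720))) (a (c (a (c (l 14) (a (l 16592824) (l 16592480))) (b (l 16595624) (c (c (l 14) (l 16596536)) (l 16596896)))) (a (c (l 16586016) (l 16579376)) (c (l 16585464) (l 16578920)))) (c (a (c (a (l 16598048) (l 16597744)) (l 16591448)) (c (a (l 16597464) (l 16597216)) (l 16590992))) (a (l 16587016) (l 16581448))))))) (b (a (l 16568904) (l 16567512)) (b (a (l 16565272) (l 16564512)) (a (c (a (l 16569992) (l 16569624)) (l 16556472)) (c (a (l 16569336) (l 16569152)) (l 16556312))))))))), by decide +kernel⟩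

def k10_pm_012_a : ∃ t, chk3 f_pm_012_a t 21 15 1 = true :=
  ⟨(b (a (b (l 16608080) (l 16594032)) (b (l 16591808) (l 16603480))) (b (b (a (l 16585264) (l 16599896)) (a (a (l 16582960) (l 16599720)) (c (l 16592008) (l 16565680)))) (a (b (c (a (l 16592008) (l 16590448)) (a (l 16565168) (l 16564368))) (c (b (a (a (l 16589424) (l 16588728)) (l 16611560)) (a (c (a (b (l 16594392) (c (a (b (l 16596928) (l 16596544)) (l 16597024)) (a (l 16590504) (l 16590776)))) (b (l 16595000) (c (l 16598288) (l 16592072)))) (a (b (l 16581688) (c (l 16584448) (l 16578176))) (l 16582584))) (c (b (l 16597184) (c (a (l 16605040) (b (l 16601064) (l 16601184))) (a (l 16593624) (l 16595008)))) (a (l 16594680) (a (l 16585280) (l 16585960)))))) (a (c (b (l 16569888) (a (l 16579456) (l 16570064))) (a (l 16556768) (l 16557184))) (c (b (l 16571640) (l 16583056)) (l 16570080))))) (b (c (a (l 16592128) (l 16593528)) (a (l 16566536) (l 16568472))) (c (b (a (c (l 16599072) (l 16586672)) (c (l 16600592) (l 16588464)))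 (a (c (b (l 16599472) (c (a (b (l 16602208) (l 16607592)) (a (l 16603040) (l 16603496))) (a (l 16596224) (l 16597280)))) (b (l 16587272) (a (l 16587128) (l 16588280)))) (c (b (l 16601128) (c (a (a (l 16603912) (l 16604296)) (a (l 16604640) (l 16604952))) (a (l 16598184) (l 16598944)))) (b (l 16589200) (a (l 16589288) (l 16590160)))))) (b (a (l 16568056) (l 16570256)) (a (c (c (l 16578400) (l 16572328)) (l 16563208)) (c (c (l 16580576) (l 16574640)) (l 16565728))))))))), by decide +kernel⟩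

def k11_pm_012_a : ∃ t, chk3 f_pm_012_a t 11 14 1 = true :=
  ⟨(a (b (a (l 16623304) (l 16600544)) (a (l 16594096) (l 16581592))) (b (a (l 16583952) (l 16572888)) (a (l 16574832) (l 16567720)))), by decide +kernel⟩

def k12_pm_012_a : ∃ t, chk3 f_pm_012_a t 11 30 1 = true :=
  ⟨(a (b (a (l 16580392) (l 16576904)) (a (l 16578488) (l 16598480))) (b (a (l 16573376) (l 16568632)) (a (l 16617472) (l 16614352)))), by decide +kernel⟩

def k13_pm_012_a : ∃ t, chk3 f_pm_012_a t 22 31 1 = true :=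
  ⟨(b (b (a (l 16600288) (l 16600440)) (a (c (l 16593240) (l 16568112)) (c (l 16593472) (l 16569720)))) (b (a (c (a (l 16594352) (l 16594752)) (a (l 16569920) (l 16571008))) (c (a (l 16595376) (l 16595752)) (a (l 16572304) (l 16573400)))) (c (a (b (a (c (l 16601544) (l 16589720)) (c (l 16602048) (l 16590576))) (b (a (c (l 16602208) (l 16590592)) (c (l 16602856) (l 16591584))) (c (a (c (a (a (l 16605224) (l 16605464)) (a (l 16605664) (l 16605840))) (a (l 16599568) (l 16600064))) (c (b (l 16606088) (a (l 16606184) (l 16606520))) (a (l 16600440) (l 16600856)))) (a (a (l 16590904) (l 16591520)) (a (l 16592032) (l 16592568)))))) (a (c (b (l 16602792) (b (l 16603744) (c (a (l 16606904) (l 16607328)) (a (l 16601464) (l 16601976))))) (b (l 16591656) (a (l 16603392) (l 16593520)))) (b (c (l 16603288) (l 16592504)) (c (b (l 16604384) (c (a (l 16607656) (l 16607880)) (a (l 16602392) (l 16602712)))) (a (l 16594048) (l 16594480)))))) (b (a (a (l 16571984) (l 16573360)) (a (l 16574944)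 (l 16576336))) (a (a (c (c (l 16582256) (l 16576480)) (l 16567800)) (c (a (l 16580384) (l 16581080)) (l 16569536))) (a (c (l 16582368) (l 16571488)) (c (l 16583776) (l 16573264)))))))), by decide +kernel⟩

def k14_pm_012_a : ∃ t, chk3 f_pm_012_a t 23 31 1 = true :=
  ⟨(b (b (a (l 16599656) (l 16597776)) (a (c (l 16592704) (l 16570520)) (c (l 16590728) (l 16570400)))) (b (a (c (a (l 16595760) (l 16595456)) (a (l 16574200) (l 16574760))) (c (a (l 16594888) (l 16594096)) (l 16596240))) (b (a (c (a (c (l 16603400) (l 16593016)) (l 16598216)) (a (l 16577448) (l 16578320))) (c (a (l 16597960) (l 16597496)) (l 16600280))) (c (a (a (b (c (l 16604656) (l 16594480)) (c (a (l 16615968) (l 16605584)) (l 16595512))) (c (a (l 16605128) (l 16605056)) (l 16595432))) (a (c (l 16604832) (l 16595624)) (c (l 16604336) (l 16595632)))) (a (a (c (l 16584888) (l 16574776)) (l 16580920)) (a (l 16581816) (l 16582568))))))), by decide +kernel⟩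

def k15_pm_012_a : ∃ t, chk3 f_pm_012_a t 6 2 1 = true :=
  ⟨(a (b (a (l 16876632) (b (l 16815216) (l 16743344))) (a (b (l 16759008) (l 16682912)) (b (l 16674472) (a (l 16627304) (l 16601232))))) (b (a (b (l 16734896) (l 16673592)) (b (l 16666624) (l 16615552))) (b (a (l 16619224) (l 16573008)) (a (l 16574880) (a (l 16549528) (l 16533560)))))), by decide +kernel⟩

def k16_pm_012_a : ∃ t, chk3 f_pm_012_a t 6 6 1 = true :=
  ⟨(a (b (a (b (l 16630528) (l 16602288)) (a (l 16578752) (l 16559648))) (a (b (l 16579824) (l 16564960)) (b (a (l 16552688) (l 16538304)) (a (l 16541800) (l 16530688))))) (b (a (b (l 16549384) (l 16537664)) (b (l 16526160) (l 16521264))) (a (b (l 16530392) (a (l 16528832) (l 16527296))) (b (l 16541848) (a (l 16525968) (l 16525000)))))), by decide +kernel⟩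

def k17_pm_012_a : ∃ t, chk3 f_pm_012_a t 6 7 1 = true :=
  ⟨(b (a (a (b (a (l 16561696) (l 16549800)) (a (l 16580640) (l 16572008))) (b (a (l 16537520) (l 16529784)) (a (l 16563080) (b (l 16534752) (l 16540904))))) (a (b (a (l 16531544) (l 16533536)) (a (l 16585168) (l 16590656))) (b (a (l 16535640) (l 16538008)) (a (l 16596168) (b (l 16553376) (l 16566368)))))) (a (b (a (b (a (l 16563056) (l 16556960)) (a (l 16589480) (l 16585128))) (a (b (l 16550656) (l 16580624)) (b (l 16549120) (l 16601856)))) (a (b (a (c (b (l 16583856) (l 16587936)) (l 16588160)) (c (l 16603160) (l 16565784))) (a (c (b (a (l 16593128) (l 16592024)) (a (c (l 16602384) (l 16594064)) (l 16618536))) (b (l 16575464) (a (l 16581600) (l 16582056)))) (c (b (l 16590232) (a (l 16596824) (l 16596024))) (b (l 16575416) (l 16603696))))) (a (b (c (l 16578224) (l 16564376)) (c (b (l 16587672) (l 16594840)) (b (l 16575392) (l 16583632)))) (a (b (l 16591592) (a (l 16605952) (l 16587272))) (b (l 16576000) (l 16613344))))))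 (a (b (a (b (l 16557112) (l 16569640)) (b (l 16565176) (l 16579392))) (b (a (c (l 16590312) (l 16579288)) (c (l 16601304) (l 16591096))) (a (a (l 16620024) (l 16626608)) (a (l 16633112) (l 16639560))))) (b (b (a (l 16573200) (l 16581320)) (a (l 16589048) (l 16619728))) (b (a (c (l 16612120) (l 16602784)) (c (l 16643872) (l 16614488))) (b (a (l 16643672) (l 16656072)) (a (c (l 16637264) (l 16630096)) (c (l 16671040) (l 16643656))))))))), by decide +kernel⟩

def k18_pm_012_a : ∃ t, chk3 f_pm_012_a t 7 2 1 = true :=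
  ⟨(a (b (a (b (l 16601552) (l 16561104)) (b (l 16541536) (l 16511744))) (a (b (l 16530352) (a (l 16518480) (l 16504424))) (b (a (l 16501376) (l 16483840)) (a (l 16491504) (l 16479832))))) (a (b (b (l 16488144) (a (l 16478768) (l 16459024))) (b (a (l 16467816) (l 16453424)) (a (l 16469512) (l 16460640)))) (b (b (a (l 16453240) (l 16432728)) (a (l 16441200) (l 16425392))) (b (a (l 16440768) (l 16429904)) (a (l 16474232) (b (l 16441200) (l 16453552))))))), by decide +kernel⟩

def k19_pm_012_a : ∃ t, chk3 f_pm_012_a t 7 6 1 = true :=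
  ⟨(a (b (a (b (l 16505704) (l 16528304)) (a (l 16537984) (b (l 16485560) (l 16494832)))) (a (b (a (l 16514968) (l 16511992)) (a (l 16524552) (l 16524736))) (b (a (l 16509848) (l 16508616)) (a (l 16525656) (l 16527376))))) (a (b (a (b (l 16479568) (l 16491736)) (b (l 16474840) (l 16489816))) (b (a (l 16508384) (l 16509320)) (a (l 16530072) (l 16554768)))) (b (a (b (l 16471536) (l 16489216)) (b (l 16469712) (l 16510992))) (b (a (l 16511440) (a (l 16513824) (l 16515808))) (a (l 16571712) (a (l 16542888) (l 16567040))))))), by decide +kernel⟩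

def k20_pm_012_a : ∃ t, chk3 f_pm_012_a t 14 7 1 = true :=
  ⟨(b (b (a (a (l 16540808) (l 16565112)) (a (l 16569048) (l 16594752))) (a (a (b (l 16558592) (l 16573168)) (b (l 16564232) (l 16580368))) (a (b (l 16570488) (l 16588120)) (b (l 16577448) (l 16596568))))) (b (a (b (a (l 16589656) (l 16598416)) (a (l 16629616) (l 16660864))) (b (a (l 16628664) (l 16638536)) (a (c (l 16654104) (l 16626248)) (a (l 16659024) (l 16664768))))) (b (b (a (a (l 16624464) (l 16635872)) (a (l 16668680) (a (l 16656832) (l 16663056)))) (a (a (l 16656744) (l 16668912)) (a (c (l 16663152) (l 16657760)) (c (l 16688720) (l 16692024))))) (a (b (a (c (l 16650872) (l 16644488)) (c (l 16684328) (l 16657776))) (a (a (l 16677800) (l 16684544)) (c (a (l 16672896) (l 16679576)) (a (l 16667808) (l 16674856))))) (a (a (b (l 16691400) (c (l 16696800) (l 16681960))) (b (l 16698072) (c (b (l 16689608) (l 16696624)) (l 16710104)))) (b (a (c (l 16685944) (l 16681744)) (c (l 16692576) (l 16688768))) (b (a (l 16705024)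 (a (l 16699816) (l 16703352))) (a (c (l 16703576) (l 16700088)) (c (l 16721072) (l 16707464)))))))))), by decide +kernel⟩

def k21_pm_012_a : ∃ t, chk3 f_pm_012_a t 15 7 1 = true :=
  ⟨(b (a (b (a (b (l 16550168) (l 16566512)) (b (l 16556000) (l 16573696))) (b (a (l 16585192) (l 16593696)) (a (l 16626656) (l 16636448)))) (a (b (b (l 16562760) (l 16602688)) (b (a (l 16600552) (l 16605360)) (a (l 16623232) (l 16628608)))) (b (a (b (l 16568408) (l 16588248)) (b (l 16572456) (l 16592864))) (a (b (l 16610344) (l 16655120)) (b (l 16636480) (l 6)))))) (a (a (a (b (b (l 16625328) (l 16670632)) (b (b (l 16669376) (l 16704192)) (b (c (l 16709776) (l 16695872)) (c (b (l 16710208) (c (l 16723584) (l 16727480))) (b (l 16707176) (l 16725384)))))) (b (b (l 16630696) (l 16676616)) (b (b (l 16675808) (l 16705664)) (a (b (l 16713304) (l 6)) (l 6))))) (b (b (a (l 16636208) (l 16662832)) (a (b (l 16655032) (l 16668440)) (b (l 16661120) (l 16674800)))) (b (b (a (l 16703304) (l 6)) (l 6)) (l 6))))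 (b (a (b (a (l 16668624) (l 6)) (l 6)) (l 6)) (l 6)))), by decide +kernel⟩

theorem s22_pm_012_a : ∃ t, chk3 f_pm_012_a t 7 7 1 = true := ex3_a k20_pm_012_a k21_pm_012_a

theorem s23_pm_012_a : ∃ t, chk3 f_pm_012_a t 7 3 1 = true := ex3_b k19_pm_012_a s22_pm_012_a

theorem s24_pm_012_a : ∃ t, chk3 f_pm_012_a t 7 1 1 = true := ex3_b k18_pm_012_a s23_pm_012_a

theorem s25_pm_012_a : ∃ t, chk3 f_pm_012_a t 6 3 1 = true := ex3_b k16_pm_012_a k17_pm_012_a

theorem s26_pm_012_a : ∃ t, chk3 f_pm_012_a t 6 1 1 = true := ex3_b k15_pm_012_a s25_pm_012_a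

theorem s27_pm_012_a : ∃ t, chk3 f_pm_012_a t 3 1 1 = true := ex3_a s26_pm_012_a s24_pm_012_a

theorem s28_pm_012_a : ∃ t, chk3 f_pm_012_a t 11 31 1 = true := ex3_a k13_pm_012_a k14_pm_012_a

theorem s29_pm_012_a : ∃ t, chk3 f_pm_012_a t 11 15 1 = true := ex3_b k12_pm_012_a s28_pm_012_a

theorem s30_pm_012_a : ∃ t, chk3 f_pm_012_a t 11 7 1 = true := ex3_b k11_pm_012_a s29_pm_012_a

theorem s31_pm_012_a : ∃ t, chk3 f_pm_012_a t 10 15 1 = true := ex3_a k9_pm_012_a k10_pm_012_a

theorem s32_pm_012_a : ∃ t, chk3 f_pm_012_a t 10 7 1 = true := ex3_b k8_pm_012_a s31_pm_012_a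

theorem s33_pm_012_a : ∃ t, chk3 f_pm_012_a t 5 7 1 = true := ex3_a s32_pm_012_a s30_pm_012_a

theorem s34_pm_012_a : ∃ t, chk3 f_pm_012_a t 5 3 1 = true := ex3_b k7_pm_012_a s33_pm_012_a

theorem s35_pm_012_a : ∃ t, chk3 f_pm_012_a t 5 1 1 = true := ex3_b k6_pm_012_a s34_pm_012_a

theorem s36_pm_012_a : ∃ t, chk3 f_pm_012_a t 9 15 1 = true := ex3_a k4_pm_012_a k5_pm_012_a

theorem s37_pm_012_a : ∃ t, chk3 f_pm_012_a t 9 7 1 = true := ex3_b k3_pm_012_a s36_pm_012_a

theorem s38_pm_012_a : ∃ t, chk3 f_pm_012_a t 9 3 1 = true := ex3_b k2_pm_012_a s37_pm_012_a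

theorem s39_pm_012_a : ∃ t, chk3 f_pm_012_a t 4 3 1 = true := ex3_a k1_pm_012_a s38_pm_012_a

theorem s40_pm_012_a : ∃ t, chk3 f_pm_012_a t 4 1 1 = true := ex3_b k0_pm_012_a s39_pm_012_a

theorem s41_pm_012_a : ∃ t, chk3 f_pm_012_a t 2 1 1 = true := ex3_a s40_pm_012_a s35_pm_012_a

theorem s42_pm_012_a : ∃ t, chk3 f_pm_012_a t 1 1 1 = true := ex3_a s41_pm_012_a s27_pm_012_a

theorem c_pm_012_a : CertN 0 536870912 0 536870912 402653184 67108864 3 false true false .pnp 0 1 2
    ndN0q0 ndN1q2a pcN1 cut_pm_012_a Ext.none :=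
  certN2 (fam := false) (s1 := true) (s2 := false) (a := 0) (b := 1) (c := 2) (cn := .pnp) (n1 := ndN0q0) (n2 := ndN1q2a) (pc := pcN1) (cut := cut_pm_012_a) (xt := Ext.none) (P1 := 0) (W1 := 536870912) (P2 := 0) (W2 := 536870912) (P3 := 402653184) (W3 := 67108864) (N0 := 3)
    rfl (fun _ => rfl) s42_pm_012_a

noncomputable def cut_pm_012_b : Cut := Cut.of [[⟨0, 0, 0, 67108864⟩, ⟨1, 1, 0, 67108864⟩, ⟨2, 1, 0, 67108864⟩], [⟨0, 0, 1, 33554432⟩, ⟨1, 1, 2, 33554432⟩, ⟨2, 1, 0, 33554432⟩]]

noncomputable def f_pm_012_b : ℕ → ℕ → ℕ → ℕ → Bool := onCell 0 536870912 536870912 536870912 402653184 67108864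
    (rowN 3 1 false true false .pnp 0 1 2 (qsf 0 536870912 1239849684 370763052 1) ndN0q0 ndN1q2b pcN1 cut_pm_012_b Ext.none)

def k0_pm_012_b : ∃ t, chk3 f_pm_012_b t 1 1 1 = true :=
  ⟨(a (b (l 1) (b (l 1) (a (l 1) (b (a (l 1) (a (b (l 1) (b (l 1) (l 98280651127))) (b (l 140693532167) (a (l 72510817975) (l 16540032))))) (a (b (a (l 1) (b (l 1) (l 46741011287))) (a (b (l 1) (a (l 1) (l 16472728))) (b (a (l 16494224) (l 16458784)) (a (l 16435864) (l 16398016))))) (b (a (b (l 58015275367) (l 16466528)) (b (l 16460440) (l 16394616))) (a (b (l 16403840) (l 16360848)) (b (l 16327472) (l 16280200))))))))) (b (b (l 1) (a (l 1) (b (a (l 1) (b (l 311956237783) (l 242699902103))) (a (b (l 273301619639) (l 207803142103)) (a (l 168611642167) (l 17041752)))))) (a (b (b (a (l 1) (a (b (l 1) (l 205118457111)) (b (l 198676177943) (l 116534797159)))) (a (a (b (l 1) (l 161094758423)) (b (l 182569734039) (l 98817702247))) (a (b (l 110092141703) (l 16635008)) (l 16843632)))) (b (a (a (b (l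 93985701527) (l 16533264)) (b (l 16561224) (l 16421680))) (a (a (l 16628200) (l 16506584)) (l 16501096))) (a (a (b (l 16437576) (b (l 16246368) (l 16215184))) (b (l 16336536) (b (l 16178944) (l 16079104)))) (a (b (l 16194264) (l 16015152)) (b (l 16096832) (l 15988496)))))) (b (a (b (b (l 121366801255) (l 16811800)) (a (l 16619280) (l 16585824))) (b (a (l 16847208) (l 16823032)) (l 16724304))) (a (b (a (l 16401456) (b (l 16332048) (l 16118944))) (a (l 16017816) (l 16104000))) (b (a (l 16350832) (l 16517200)) (a (l 16345600) (l 16550864)))))))), by decide +kernel⟩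

theorem c_pm_012_b : CertN 0 536870912 1239849684 370763052 402653184 67108864 3 false true false .pnp 0 1 2
    ndN0q0 ndN1q2b pcN1 cut_pm_012_b Ext.none :=
  certN1 (fam := false) (s1 := true) (s2 := false) (a := 0) (b := 1) (c := 2) (cn := .pnp) (n1 := ndN0q0) (n2 := ndN1q2b) (pc := pcN1) (cut := cut_pm_012_b) (xt := Ext.none) (P1 := 0) (W1 := 536870912) (P2 := 1239849684) (W2 := 370763052) (P3 := 402653184) (W3 := 67108864) (N0 := 3)
    rfl (fun _ => rfl) k0_pm_012_b

noncomputable def cut_pm_022_a : Cut := Cut.of [[⟨0, 0, 0, 67108864⟩, ⟨1, 1, 0, 67108864⟩, ⟨2, 1, 0, 67108864⟩]]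

noncomputable def f_pm_022_a : ℕ → ℕ → ℕ → ℕ → Bool := onCell 0 536870912 0 536870912 402653184 67108864
    (rowN 3 0 false true false .pp 0 2 2 (qsf 0 536870912 0 536870912 2) ndN0q0 ndN1q2a pcN2 cut_pm_022_a Ext.none)

def k0_pm_022_a : ∃ t, chk3 f_pm_022_a t 1 1 1 = true :=
  ⟨(a (b (a (a (b (b (a (l 16460624) (l 16440112)) (a (l 16493928) (l 16470544))) (a (b (l 16576224) (a (l 16567600) (l 16553336))) (b (l 16529192) (a (l 16518088) (l 16503776))))) (b (a (b (l 16419680) (l 16447176)) (b (l 16399088) (l 16423576))) (a (b (l 16503040) (a (l 16489384) (l 16495864))) (b (l 16476560) (a (l 16481248) (l 16487432)))))) (a (a (b (b (l 16420000) (l 16441384)) (b (b (l 16425408) (l 16431280)) (a (b (l 16404456) (l 16414304)) (l 1)))) (b (b (l 1) (l 1)) (l 1))) (l 1))) (a (b (a (a (a (b (a (l 16636472) (l 16618304)) (b (l 16651888) (a (l 16636944) (l 16628616)))) (b (b (l 16534680) (l 16552728)) (b (l 16593752) (c (l 16618992) (l 16613160))))) (b (a (b (l 16519520) (l 16537000))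 (b (l 16504288) (l 16521176))) (a (b (l 16577472) (c (l 16602008) (l 16617456))) (b (l 16561064) (a (l 16586512) (l 16577984)))))) (b (a (a (a (l 16543104) (l 16535248)) (a (l 16527360) (l 16519432))) (b (a (l 16457872) (l 16463024)) (a (l 16514800) (l 1)))) (a (b (a (l 16565488) (b (l 16502128) (l 16532488))) (a (b (l 16559632) (l 16539064)) (a (l 16531152) (l 1)))) (b (a (l 16479424) (l 1)) (l 1))))) (a (b (b (a (b (a (l 16672824) (l 16655712)) (b (a (l 16662552) (l 16645240)) (l 6))) (a (a (l 16649872) (l 16641144)) (a (l 16632368) (b (l 16595728) (l 16588400))))) (a (l 6) (a (l 6) (a (l 6) (a (l 6) (l 1)))))) (a (l 6) (a (l 6) (l 1)))) (b (a (b (a (b (l 16561520) (l 16574944)) (l 1)) (l 1)) (l 1)) (l 1)))) (b (l 1) (l 1)))) (l 1)), by decide +kernel⟩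

theorem c_pm_022_a : CertN 0 536870912 0 536870912 402653184 67108864 3 false true false .pp 0 2 2
    ndN0q0 ndN1q2a pcN2 cut_pm_022_a Ext.none :=
  certN0 (fam := false) (s1 := true) (s2 := false) (a := 0) (b := 2) (c := 2) (cn := .pp) (n1 := ndN0q0) (n2 := ndN1q2a) (pc := pcN2) (cut := cut_pm_022_a) (xt := Ext.none) (P1 := 0) (W1 := 536870912) (P2 := 0) (W2 := 536870912) (P3 := 402653184) (W3 := 67108864) (N0 := 3)
    rfl k0_pm_022_a

noncomputable def cut_pm_022_b : Cut := Cut.of [[⟨0, 0, 0, 67108864⟩, ⟨1, 1, 0, 67108864⟩, ⟨2, 1, 0, 67108864⟩]]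

noncomputable def f_pm_022_b : ℕ → ℕ → ℕ → ℕ → Bool := onCell 0 536870912 1073741824 536870912 402653184 67108864
    (rowN 3 1 false true false .pp 0 2 2 (qsf 0 536870912 1239849684 370763052 2) ndN0q0 ndN1q2b pcN2 cut_pm_022_b Ext.none)

def k0_pm_022_b : ∃ t, chk3 f_pm_022_b t 1 1 1 = true :=
  ⟨(a (b (b (a (a (b (l 1) (a (b (l 1) (l 106870349943)) (b (l 80563653287) (b (l 16491608) (l 16418936))))) (b (b (a (l 1) (b (l 1) (l 83247874823))) (a (l 62846892007) (l 64457320183))) (b (a (a (l 16477456) (l 16415800)) (l 16323072)) (a (l 16395120) (l 16313320))))) (a (b (b (a (b (l 16395344) (l 16350336)) (l 16312624)) (a (l 16318264) (l 16228080))) (a (b (l 16239736) (l 16168064)) (b (l 16165872) (l 16084288)))) (b (a (b (l 16245168) (l 16161176)) (l 16199000)) (a (l 16121240) (l 16039592))))) (a (a (b (a (b (l 16536992) (l 16435392)) (b (l 16415112) (l 16313776))) (b (l 16422216) (l 16347176))) (b (b (a (l 16313432) (l 16232384)) (a (l 16233928) (l 16153648))) (a (l 16234584)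 (l 16134496)))) (b (a (b (a (l 16150696) (l 16025536)) (l 16039640)) (b (l 15957272) (l 15880144))) (a (b (l 15956520) (l 15968640)) (l 16079608))))) (b (a (b (a (a (l 16270440) (l 16173880)) (l 16143136)) (a (l 16205688) (l 16186176))) (b (a (l 16113808) (l 16492968)) (a (l 16522984) (l 16769104)))) (a (b (a (l 16250480) (l 16587480)) (a (l 16710200) (l 16860192))) (b (l 16880784) (l 2))))) (b (a (b (b (a (b (l 16142032) (l 16062800)) (a (l 16058872) (l 16004000))) (a (l 16028984) (a (l 15998272) (l 16268080)))) (a (b (l 16084304) (l 16491008)) (b (l 16521312) (l 16775072)))) (b (a (b (b (a (l 15966960) (l 16245608)) (l 16322288)) (l 16571704)) (b (a (l 16472064) (l 16733272)) (l 16850680))) (a (b (l 16804144) (l 2)) (l 2)))) (b (a (b (a (l 16761720) (l 2)) (l 2)) (l 2)) (l 2)))), by decide +kernel⟩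

theorem c_pm_022_b : CertN 0 536870912 1239849684 370763052 402653184 67108864 3 false true false .pp 0 2 2
    ndN0q0 ndN1q2b pcN2 cut_pm_022_b Ext.none :=
  certN1 (fam := false) (s1 := true) (s2 := false) (a := 0) (b := 2) (c := 2) (cn := .pp) (n1 := ndN0q0) (n2 := ndN1q2b) (pc := pcN2) (cut := cut_pm_022_b) (xt := Ext.none) (P1 := 0) (W1 := 536870912) (P2 := 1239849684) (W2 := 370763052) (P3 := 402653184) (W3 := 67108864) (N0 := 3)
    rfl (fun _ => rfl) k0_pm_022_b

noncomputable def f_pm_023 : ℕ → ℕ → ℕ → ℕ → Bool := onCell 0 536870912 1073741824 536870912 402653184 67108864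
    (rowN 3 1 false true false .up 0 2 3 (qsf 0 536870912 1610612736 536870912 2) ndN0q0 ndN1q3 pcN2 Cut.none Ext.none)

def k0_pm_023 : ∃ t, chk3 f_pm_023 t 1 1 1 = true :=
  ⟨(a (b (b (l 1) (a (l 1) (b (l 1) (a (l 1) (l 16097248))))) (b (a (b (l 1) (l 194917174199)) (b (l 208875528599) (a (l 16611848) (l 16813176)))) (a (b (l 273837837815) (l 279207219767)) (b (l 17123016) (l 17061656))))) (b (a (b (a (l 1) (b (l 1) (l 165925252359))) (a (b (l 166999186759) (l 16479624)) (b (l 16456288) (l 16750000)))) (b (a (b (l 186863417095) (l 223370857943)) (b (a (l 222297048535) (l 248603902023)) (l 16762928))) (a (b (l 16746376) (l 16931368)) (b (l 16937640) (l 17043152))))) (a (b (b (a (l 16772048) (l 16936584)) (l 17007576)) (b (l 17088904) (l 17123672))) (b (a (l 17078424) (l 17113832)) (b (l 17124824) (l 17109616)))))), by decide +kernel⟩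

theorem c_pm_023 : CertN 0 536870912 1610612736 536870912 402653184 67108864 3 false true false .up 0 2 3
    ndN0q0 ndN1q3 pcN2 Cut.none Ext.none :=
  certN1 (fam := false) (s1 := true) (s2 := false) (a := 0) (b := 2) (c := 3) (cn := .up) (n1 := ndN0q0) (n2 := ndN1q3) (pc := pcN2) (cut := Cut.none) (xt := Ext.none) (P1 := 0) (W1 := 536870912) (P2 := 1610612736) (W2 := 536870912) (P3 := 402653184) (W3 := 67108864) (N0 := 3)
    rfl (fun _ => rfl) k0_pm_023

noncomputable def f_pm_033 : ℕ → ℕ → ℕ → ℕ → Bool := onCell 1610612736 536870912 1610612736 536870912 402653184 67108864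
    (rowN 3 2 false true false .pnn 0 3 3 (qsf 0 536870912 1610612736 536870912 3) ndN0q0 ndN1q3 pcN3 Cut.none Ext.none)

def k0_pm_033 : ∃ t, chk3 f_pm_033 t 1 1 1 = true :=
  ⟨(a (b (a (b (l 4) (a (l 17140640) (l 4))) (l 4)) (a (b (a (l 17129784) (l 17132528)) (a (l 17104936) (l 17088952))) (b (l 4) (a (l 17074976) (l 4))))) (l 4)), by decide +kernel⟩

theorem c_pm_033 : CertN 0 536870912 1610612736 536870912 402653184 67108864 3 false true false .pnn 0 3 3
    ndN0q0 ndN1q3 pcN3 Cut.none Ext.none :=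
  certN2 (fam := false) (s1 := true) (s2 := false) (a := 0) (b := 3) (c := 3) (cn := .pnn) (n1 := ndN0q0) (n2 := ndN1q3) (pc := pcN3) (cut := Cut.none) (xt := Ext.none) (P1 := 0) (W1 := 536870912) (P2 := 1610612736) (W2 := 536870912) (P3 := 402653184) (W3 := 67108864) (N0 := 3)
    rfl (fun _ => rfl) k0_pm_033

noncomputable def f_pm_101 : ℕ → ℕ → ℕ → ℕ → Bool := onCell 0 536870912 536870912 536870912 402653184 67108864
    (rowN 3 2 false true false .npn 1 0 1 (qsf 536870912 536870912 536870912 536870912 0) ndN0q1 ndN1q1 pcN0 Cut.none Ext.none)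

def k0_pm_101 : ∃ t, chk3 f_pm_101 t 1 1 1 = true :=
  ⟨(a (b (l 4) (a (b (a (b (l 4) (a (l 17108336) (l 4))) (l 4)) (b (a (a (l 17170848) (l 17260928)) (a (l 17271856) (l 17144352))) (a (a (l 17141112) (l 17176832)) (b (a (l 17202712) (l 17196800)) (l 17240136))))) (b (l 4) (b (l 4) (a (b (a (l 17172128) (l 4)) (a (l 17186224) (l 17155712))) (b (l 4) (a (l 17114248) (l 4)))))))) (l 4)), by decide +kernel⟩

theorem c_pm_101 : CertN 536870912 536870912 536870912 536870912 402653184 67108864 3 false true false .npn 1 0 1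
    ndN0q1 ndN1q1 pcN0 Cut.none Ext.none :=
  certN2 (fam := false) (s1 := true) (s2 := false) (a := 1) (b := 0) (c := 1) (cn := .npn) (n1 := ndN0q1) (n2 := ndN1q1) (pc := pcN0) (cut := Cut.none) (xt := Ext.none) (P1 := 536870912) (W1 := 536870912) (P2 := 536870912) (W2 := 536870912) (P3 := 402653184) (W3 := 67108864) (N0 := 3)
    rfl (fun _ => rfl) k0_pm_101

noncomputable def cut_pm_102_a : Cut := Cut.of [[⟨0, 1, 0, 67108864⟩, ⟨1, 0, 0, 67108864⟩, ⟨2, 1, 0, 67108864⟩]]

noncomputable def f_pm_102_a : ℕ → ℕ → ℕ → ℕ → Bool := onCell 536870912 536870912 0 536870912 402653184 67108864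
    (rowN 3 0 false true false .npp 1 0 2 (qsf 536870912 536870912 0 536870912 0) ndN0q1 ndN1q2a pcN0 cut_pm_102_a Ext.none)

def k0_pm_102_a : ∃ t, chk3 f_pm_102_a t 2 1 1 = true :=
  ⟨(b (a (a (l 2) (b (l 2) (l 220218726215))) (a (b (a (l 16947896) (l 16921424)) (b (l 16981448) (l 17027544))) (b (b (l 16846896) (l 16869832)) (l 17139824)))) (a (a (b (l 2) (a (b (l 2) (a (l 17269856) (l 17268952))) (l 17362400))) (b (l 17172400) (b (l 17196968) (l 17293792)))) (b (a (l 17058328) (a (l 16981040) (l 16939512))) (b (a (l 17081296) (l 16832120)) (a (a (l 17070928) (l 17093280)) (b (l 17072984) (l 17161088))))))), by decide +kernel⟩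

def k1_pm_102_a : ∃ t, chk3 f_pm_102_a t 6 2 1 = true :=
  ⟨(a (b (a (l 16798480) (b (a (l 16805240) (b (l 16804568) (l 16810616))) (l 16822328))) (b (l 16906600) (l 16856504))) (b (a (b (a (b (a (l 116668802311) (l 130090560663)) (a (l 16807112) (l 111836951015))) (b (l 3) (a (b (l 128479947735) (l 113984424471)) (b (l 3) (l 130627425415))))) (a (l 16813072) (b (a (l 16803176) (b (l 117205662519) (l 16798088))) (l 16807840)))) (b (l 3) (a (b (a (b (l 132774902487) (a (l 16791632) (l 121500618311))) (b (l 3) (l 134922379063))) (a (l 16797248) (b (a (l 117742523207) (l 129553674391)) (l 16790984)))) (b (l 3) (a (b (l 139217338951) (a (l 120426869687) (l 132774891911))) (l 3)))))) (a (b (a (l 16806128) (l 16813768)) (l 16803584)) (b (a (b (l 16802488) (l 16809520)) (b (a (b (a (l 16789304) (l 114521272295)) (l 16792328)) (b (a (b (l 132774889671) (l 119353121527)) (l 136532980167)) (a (l 16784944) (b (l 126869309831) (l 16781160))))) (a (l 16799632) (l 16790776)))) (a (l 16811000)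 (b (l 16804168) (l 16809552))))))), by decide +kernel⟩

def k2_pm_102_a : ∃ t, chk3 f_pm_102_a t 14 2 1 = true :=
  ⟨(b (l 3) (a (b (c (a (b (a (b (l 3) (l 135459243191)) (l 3)) (a (b (a (l 16784800) (l 123111215943)) (l 16788128)) (b (l 139754201831) (a (l 118816248967) (l 132774883015))))) (l 3)) (a (b (a (b (l 3) (a (l 131701132711) (l 3))) (l 3)) (a (b (a (l 112910647847) (b (l 131164259351) (l 117742491319))) (l 16778848)) (b (a (l 135459220711) (l 3)) (a (b (l 120426841287) (l 16772424)) (b (l 138143572807) (l 127406158615)))))) (l 3))) (a (b (a (l 16791808) (a (l 16784312) (b (c (l 16780208) (l 111836898023)) (l 16781960)))) (l 16797240)) (b (c (a (b (a (b (l 132238009127) (l 117742499463)) (l 137069841271)) (a (l 16780744) (b (l 120963719831) (l 16776464)))) (b (l 3) (a (b (l 139754192903) (l 129016778551)) (l 3)))) (a (b (a (b (a (l 123648059751) (l 136532957431)) (l 117205611751)) (b (l 3) (l 134385471719))) (a (l 16772128) (b (a (l 113447502791) (l 123648055319))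 (l 16768152)))) (b (l 3) (a (b (l 138143563943) (a (l 119353088247) (l 132237985495))) (l 3))))) (c (a (l 16787176) (b (a (l 111300034855) (b (l 132237999271) (l 117742489639))) (l 16778936))) (a (l 16778376) (b (a (b (l 111836887639) (l 16768824)) (b (a (b (l 132774855111) (l 119353084695)) (l 137606690439)) (a (l 16764584) (b (l 125795533303) (l 16762520))))) (l 16770736))))))) (b (l 3) (a (b (l 3) (a (b (a (c (b (l 3) (l 135996091127)) (b (l 3) (a (b (l 3) (l 129553627463)) (l 3)))) (l 3)) (c (a (b (a (l 113984381079) (l 125258674423)) (l 16771576)) (b (l 140291054151) (a (l 120426836279) (l 134922346215)))) (a (b (a (l 113447495495) (b (l 133311721719) (l 119889951287))) (l 16763896)) (b (a (l 138680428023) (l 3)) (a (b (a (l 117205588327) (l 131164236871)) (l 16760376)) (b (l 3) (a (l 124184915095) (l 137069814871)))))))) (l 3))) (l 3))))), by decide +kernel⟩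

def k3_pm_102_a : ∃ t, chk3 f_pm_102_a t 15 2 1 = true :=
  ⟨(l 3), by decide +kernel⟩

def k4_pm_102_a : ∃ t, chk3 f_pm_102_a t 6 3 1 = true :=
  ⟨(b (a (b (l 16991000) (l 16940520)) (a (b (l 16821632) (l 16957728)) (b (l 16844568) (l 16951408)))) (a (b (l 17166896) (a (l 17000704) (l 16973560))) (a (b (l 16893488) (l 16988016)) (b (l 16860416) (a (l 16924328) (l 16909040)))))), by decide +kernel⟩

def k5_pm_102_a : ∃ t, chk3 f_pm_102_a t 28 6 1 = true :=
  ⟨(b (a (l 16806440) (b (a (l 16793808) (l 16784024)) (l 16798816))) (a (l 16806080) (l 16859760))), by decide +kernel⟩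

def k6_pm_102_a : ∃ t, chk3 f_pm_102_a t 58 12 1 = true :=
  ⟨(b (a (b (a (l 16772664) (c (b (l 112910636615) (l 16772216)) (b (a (l 16762848) (b (l 116668723959) (l 16760784))) (l 16764704)))) (l 16776232)) (b (a (c (b (a (b (l 135996086551) (l 121500574167)) (l 140291051111)) (a (l 16767592) (b (l 129016764487) (l 16765352)))) (b (a (b (l 134385459383) (a (l 16758600) (l 126869267591))) (l 139217294871)) (a (l 16760376) (b (a (l 119889945943) (l 133311716439)) (l 112910617671))))) (c (b (l 3) (a (l 135996083335) (l 3))) (b (l 3) (a (b (l 3) (a (l 126332394679) (l 139217294551))) (l 3))))) (c (a (l 16771192) (b (a (l 116668735399) (b (l 137606694631) (l 126332407607))) (l 16766744))) (a (l 16763928) (b (a (b (a (l 16757784) (l 121500556679)) (l 16758752)) (b (l 135996068199) (a (l 115058099159) (l 129016747287)))) (a (l 16761288) (l 16758376))))))) (a (l 16785416) (b (l 16771312) (l 16777832)))), by decide +kernel⟩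

def k7_pm_102_a : ∃ t, chk3 f_pm_102_a t 59 24 1 = true :=
  ⟨(c (a (b (l 3) (a (b (l 142438528647) (a (b (l 130627372567) (l 115058111287)) (b (l 3) (l 134922337687)))) (l 3))) (l 3)) (a (b (l 3) (a (b (a (l 140827903783) (l 3)) (a (b (a (l 122574296551) (l 135459196263)) (a (l 16757032) (l 116668710615))) (b (l 3) (c (l 134385456935) (l 133848579431))))) (l 3))) (l 3))), by decide +kernel⟩

def k8_pm_102_a : ∃ t, chk3 f_pm_102_a t 59 25 1 = true :=
  ⟨(a (b (a (b (a (l 16762232) (b (a (c (l 16762344) (l 16755824)) (c (l 124184920327) (a (l 120426811575) (l 129016744967)))) (l 16760080))) (l 16764184)) (b (c (a (b (l 139754173879) (a (l 119353082279) (l 133311723607))) (l 3)) (a (b (l 138680419111) (a (l 119353069543) (b (l 140291032215) (l 128479873191)))) (l 3))) (c (a (l 111300013399) (b (a (l 128479885415) (l 140291043479)) (a (l 16761400) (l 120963692807)))) (a (b (l 111836870983) (l 16757360)) (b (a (b (l 133311710439) (l 119353062439)) (l 139217289159)) (c (l 118279330471)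 (l 118279324263))))))) (a (l 16769304) (b (a (l 16763168) (l 16760176)) (l 16765160)))) (b (a (b (l 3) (a (c (b (l 3) (a (l 134922334231) (l 3))) (b (l 3) (a (l 133848580151) (l 3)))) (l 3))) (l 3)) (a (b (c (a (b (a (l 115058106839) (b (l 136532946327) (l 124721787383))) (l 16761064)) (b (l 142438524375) (a (b (l 129553624471) (l 16756560)) (l 137069815863)))) (a (b (a (l 115058096343) (b (l 135996063351) (l 123111162679))) (l 16755024)) (b (l 141364770423) (a (b (l 128479870807) (l 115058098071)) (l 135996062215))))) (a (l 16760696) (c (b (a (l 16760520) (l 117205588983)) (l 16761536)) (b (a (l 16754600) (l 117742451847)) (l 16755640))))) (c (b (l 3) (a (b (a (b (l 139754169831) (l 127406139879)) (l 3)) (a (l 16759208) (b (l 132237977031) (l 118816200151)))) (b (l 3) (l 140291038679)))) (b (l 3) (a (b (a (b (l 138680416375) (l 125795515623)) (l 3)) (a (l 16753464) (b (l 131164223831) (l 118816194887)))) (b (l 3) (a (l 138680415319) (l 3))))))))), by decide +kernel⟩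

def k9_pm_102_a : ∃ t, chk3 f_pm_102_a t 29 13 1 = true :=
  ⟨(a (b (l 16791704) (l 16796872)) (b (c (a (l 16779760) (b (a (l 16767504) (b (a (l 16761128) (b (a (b (l 125258655335) (l 16758352)) (b (l 142438522535) (l 130090492471))) (a (l 16759712) (l 115058103511)))) (l 16763176))) (l 16771480))) (a (l 16773232) (b (a (l 16761488) (b (a (l 16755408) (b (a (b (l 123648031431) (l 16752776)) (b (l 141901640439) (l 129016742247))) (a (l 16754128) (l 115594971831)))) (l 16757528))) (l 16765664)))) (a (l 16788784) (l 16778792)))), by decide +kernel⟩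

def k10_pm_102_a : ∃ t, chk3 f_pm_102_a t 30 12 1 = true :=
  ⟨(l 3), by decide +kernel⟩

def k11_pm_102_a : ∃ t, chk3 f_pm_102_a t 60 26 1 = true :=
  ⟨(a (b (a (b (c (a (b (l 3) (a (b (l 137069813351) (l 123111170839)) (l 141364779431))) (l 3)) (a (b (l 3) (a (b (l 137069802439) (l 122037423463)) (l 140827897607))) (l 3))) (c (a (b (a (l 16758424) (b (a (l 120963683751) (l 139217296487)) (l 16756024))) (l 16759464)) (b (c (l 138680426775) (l 139754163255)) (a (b (l 120426814151) (l 16757608)) (b (l 139754166135) (a (l 118816201959) (l 137606682919)))))) (a (b (a (l 16753024) (b (a (l 122037423111) (l 137606673095)) (l 16754648))) (l 16754104)) (c (b (l 139217286999) (a (l 118279326535) (b (l 139217287399) (l 125795515799)))) (b (l 138680410743) (a (l 118279321495) (l 137069809735))))))) (b (l 3) (l 3))) (a (b (a (l 16759480) (b (c (l 16758200) (l 16753024)) (l 16757424))) (l 16761600)) (b (c (a (b (a (b (a (l 126332393879) (l 139754165655)) (l 118816203303)) (l 140291038503))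 (a (l 16757712) (b (a (l 16756112) (l 137606682135)) (l 16756640)))) (b (l 3) (a (b (l 141901648135) (a (l 123648038583) (l 139754164855))) (l 3)))) (a (b (a (b (l 137069811991) (l 119353068279)) (l 139217289159)) (a (l 16752688) (b (a (l 16751152) (l 136532930439)) (l 16751704)))) (b (l 3) (a (b (l 140291025479) (l 137069811623)) (l 3))))) (a (l 16757184) (c (b (a (b (l 117742463287) (l 16756936)) (b (l 139217298871) (a (l 16755784) (l 138143562823)))) (l 16757544)) (b (a (l 116668713191) (b (l 139217284007) (a (l 16751024) (l 135996059223)))) (l 16752760))))))) (c (b (l 3) (a (b (l 3) (a (b (a (l 141364776119) (l 3)) (a (b (a (l 122574301495) (l 139754164119)) (l 116668721159)) (c (l 140291036695) (l 140291032007)))) (l 3))) (l 3))) (b (l 3) (a (b (l 3) (a (b (l 141901647127) (a (b (l 136532940423) (l 16751072)) (b (l 3) (l 139754154615)))) (l 3))) (l 3))))), by decide +kernel⟩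

def k12_pm_102_a : ∃ t, chk3 f_pm_102_a t 60 27 1 = true :=
  ⟨(a (b (a (l 16766968) (b (l 16759352) (l 16762976))) (l 16771192)) (b (a (c (b (a (b (a (l 16757080) (b (a (l 16755480) (l 124184913207)) (l 16756016))) (l 16758144)) (b (a (b (l 140827904791) (a (l 120426816711) (l 140291034327))) (l 3)) (a (l 16755864) (b (a (l 137606679911) (l 141901646215)) (a (l 16755176) (l 123648041479)))))) (a (l 16760872) (l 16757848))) (b (a (b (a (l 16752456) (b (l 122574292023) (l 16751488))) (l 16753584)) (b (a (b (l 141364766631) (l 135996069255)) (l 3)) (a (l 16751440) (b (l 140291025271) (l 120963678679))))) (a (l 16756352) (l 16753512)))) (b (a (a (a (b (l 3) (c (l 141901656391) (l 141901637191))) (l 3)) (l 3)) (l 3)) (c (a (c (b (a (b (l 125795521863) (l 16756176)) (l 139217298503)) (l 116131847879)) (b (a (b (l 125795517591) (l 16754048)) (l 138680418087)) (l 116131843783))) (b (l 3) (a (b (l 142438516135) (a (l 16754288) (l 137606678455))) (l 144585998663)))) (a (b (a (b (l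 125795511255) (l 16750904)) (l 141901647751)) (a (l 16752304) (l 118279323911))) (b (l 3) (a (b (l 142438507991) (l 126332387095)) (l 145659732343))))))) (a (l 16762616) (b (a (l 16756416) (c (b (a (l 16755288) (b (l 137606688647) (l 118816201367))) (l 16756360)) (b (a (l 16751328) (b (l 135996057623) (l 16750376))) (l 16752488)))) (l 16758640))))), by decide +kernel⟩

def k13_pm_102_a : ∃ t, chk3 f_pm_102_a t 61 13 1 = true :=
  ⟨(b (l 3) (a (b (l 3) (a (c (b (a (b (a (l 144049138327) (l 3)) (a (b (l 125258652183) (l 16754552)) (b (l 145122869255) (l 130090484807)))) (l 3)) (a (b (l 16755176) (l 16757016)) (b (a (b (l 138143547591) (l 124184909335)) (l 146196610119)) (a (l 16754760) (l 125258646919))))) (b (a (b (l 144585990215) (a (l 122574290711) (l 136532927863))) (l 3)) (a (b (l 16751536) (l 16753424)) (b (a (l 130627348503) (l 146196602999)) (l 117742453031))))) (b (l 3) (a (b (l 3) (c (l 142438523687) (l 143512248247))) (l 3))))) (l 3))), by decide +kernel⟩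

def k14_pm_102_a : ∃ t, chk3 f_pm_102_a t 31 6 1 = true :=
  ⟨(l 3), by decide +kernel⟩

def k15_pm_102_a : ∃ t, chk3 f_pm_102_a t 14 7 1 = true :=
  ⟨(b (a (a (l 16841848) (b (l 16815704) (l 16837216))) (a (b (l 16800880) (l 16863264)) (b (a (l 16791312) (l 16790896)) (l 16867744)))) (b (a (l 16870696) (a (l 16845272) (l 16827152))) (a (l 16898512) (a (l 16871912) (l 16853344))))), by decide +kernel⟩

def k16_pm_102_a : ∃ t, chk3 f_pm_102_a t 30 14 1 = true :=
  ⟨(a (b (a (b (l 16778680) (l 16786392)) (b (a (l 16770424) (l 16764744)) (l 16776336))) (a (l 16792128) (b (l 16785280) (l 16788688)))) (b (a (c (b (a (b (l 16758536) (l 16762896)) (b (a (b (a (l 116131845447) (l 130090493927)) (l 16755144)) (b (l 144585995655) (a (l 123648033607) (l 138143546231)))) (a (l 16758440) (b (a (l 16755104) (l 119353071143)) (l 16756568))))) (b (l 16764336) (l 16769184))) (b (a (b (l 16755088) (l 16759472)) (b (a (b (a (l 16750496) (l 130627347975)) (l 16751968)) (b (l 145659730967) (a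 (l 123648027479) (l 138680410999)))) (a (l 16755288) (b (l 115594969927) (l 16753608))))) (b (l 16761128) (l 16765968)))) (b (c (a (b (l 3) (a (b (a (l 133311708999) (l 3)) (a (l 16754352) (l 127943000983))) (b (l 3) (l 143512254951)))) (l 3)) (a (b (l 3) (a (b (l 137069798743) (a (l 16751520) (l 127942995415))) (l 144585989751))) (l 3))) (a (c (b (a (l 16756944) (b (a (l 120963680359) (l 137606676567)) (a (l 16755856) (l 117742459575)))) (l 16760384)) (b (a (l 16754192) (b (a (l 122574292039) (l 138143542167)) (l 113984358999))) (l 16757696))) (c (b (a (b (l 3) (a (l 130627355879) (l 3))) (l 3)) (a (b (a (l 16755424) (l 123111164871)) (l 16757256)) (b (l 140827902439) (a (l 117205586839) (l 133848582983))))) (b (a (b (l 3) (l 134922317351)) (l 3)) (a (b (a (l 16752968) (l 122574289159)) (l 16754816)) (b (l 141364768407) (a (l 119889940359) (l 134385449255))))))))) (b (a (a (l 16777792) (l 16772304)) (a (b (l 16764120) (l 16769240)) (b (a (l 16759864) (b (c (a (l 16757632)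 (l 113984365431)) (l 110763136343)) (l 16758320))) (l 16763608)))) (a (l 16784408) (a (l 16776904) (b (l 16768792) (l 16773976))))))), by decide +kernel⟩

def k17_pm_102_a : ∃ t, chk3 f_pm_102_a t 31 14 1 = true :=
  ⟨(a (b (l 3) (a (b (a (c (b (a (b (a (b (l 137069809255) (l 124184912599)) (l 143512259575)) (a (l 16757296) (b (l 129016747447) (l 115058108215)))) (b (l 3) (a (l 139217294007) (l 3)))) (a (l 16760472) (b (a (b (l 123648043607) (l 16757632)) (b (l 142975391303) (l 127943007559))) (a (l 16759592) (l 112373756119))))) (b (a (b (a (l 128479871287) (l 144049125959)) (a (l 16755128) (l 120963680695))) (b (l 3) (l 140291030807))) (a (l 16758320) (b (a (l 118816202439) (l 132774840887)) (l 109689398615))))) (b (l 3) (a (c (b (l 3) (a (b (l 134922329447) (l 122574303463)) (l 142975392487))) (b (l 3) (a (l 126869263047) (l 142975388583)))) (l 3)))) (a (b (a (l 16764584) (b (l 16760464) (l 16763080))) (l 16768424)) (c (b (a (b (a (l 16759312) (b (l 127406138663) (l 16759848)))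 (l 16761216)) (b (a (l 137069819575) (l 3)) (a (b (l 122037434631) (l 16759712)) (b (l 141364782583) (l 126332398951))))) (a (l 16765176) (b (a (l 16761696) (l 110763147127)) (l 16763624)))) (b (a (b (a (l 16757448) (l 120963685319)) (l 16759384)) (b (l 139754169719) (a (l 117742465031) (l 131701109031)))) (a (l 16763344) (b (a (l 16759984) (l 16758640)) (l 16761960))))))) (b (l 3) (a (b (l 3) (a (c (b (a (b (l 133848591783) (l 121500565639)) (l 141901654823)) (a (l 16761480) (b (l 125795530215) (l 6)))) (b (a (b (l 133848588567) (l 120963691703)) (l 142438522487)) (a (l 16759936) (b (l 125258656327) (l 6))))) (b (l 3) (l 6)))) (l 3))))) (l 3)), by decide +kernel⟩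

def k18_pm_102_a : ∃ t, chk3 f_pm_102_a t 15 15 1 = true :=
  ⟨(a (b (a (b (l 16845792) (l 16815208)) (a (b (l 16790016) (l 16843648)) (b (a (l 16783800) (l 16781552)) (l 16813032)))) (b (a (l 16827944) (a (l 16834432) (l 6))) (l 16809776))) (b (a (a (b (a (b (l 16773688) (l 16778912)) (b (a (l 16769536) (l 16766768)) (l 6))) (l 6)) (l 6)) (l 6)) (l 6))), by decide +kernel⟩

theorem s19_pm_102_a : ∃ t, chk3 f_pm_102_a t 15 14 1 = true := ex3_a k16_pm_102_a k17_pm_102_a

theorem s20_pm_102_a : ∃ t, chk3 f_pm_102_a t 15 7 1 = true := ex3_b s19_pm_102_a k18_pm_102_a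

theorem s21_pm_102_a : ∃ t, chk3 f_pm_102_a t 7 7 1 = true := ex3_a k15_pm_102_a s20_pm_102_a

theorem s22_pm_102_a : ∃ t, chk3 f_pm_102_a t 60 13 1 = true := ex3_b k11_pm_102_a k12_pm_102_a

theorem s23_pm_102_a : ∃ t, chk3 f_pm_102_a t 30 13 1 = true := ex3_a s22_pm_102_a k13_pm_102_a

theorem s24_pm_102_a : ∃ t, chk3 f_pm_102_a t 30 6 1 = true := ex3_b k10_pm_102_a s23_pm_102_a

theorem s25_pm_102_a : ∃ t, chk3 f_pm_102_a t 15 6 1 = true := ex3_a s24_pm_102_a k14_pm_102_a

theorem s26_pm_102_a : ∃ t, chk3 f_pm_102_a t 59 12 1 = true := ex3_b k7_pm_102_a k8_pm_102_a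

theorem s27_pm_102_a : ∃ t, chk3 f_pm_102_a t 29 12 1 = true := ex3_a k6_pm_102_a s26_pm_102_a

theorem s28_pm_102_a : ∃ t, chk3 f_pm_102_a t 29 6 1 = true := ex3_b s27_pm_102_a k9_pm_102_a

theorem s29_pm_102_a : ∃ t, chk3 f_pm_102_a t 14 6 1 = true := ex3_a k5_pm_102_a s28_pm_102_a

theorem s30_pm_102_a : ∃ t, chk3 f_pm_102_a t 7 6 1 = true := ex3_a s29_pm_102_a s25_pm_102_a

theorem s31_pm_102_a : ∃ t, chk3 f_pm_102_a t 7 3 1 = true := ex3_b s30_pm_102_a s21_pm_102_a

theorem s32_pm_102_a : ∃ t, chk3 f_pm_102_a t 3 3 1 = true := ex3_a k4_pm_102_a s31_pm_102_a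

theorem s33_pm_102_a : ∃ t, chk3 f_pm_102_a t 7 2 1 = true := ex3_a k2_pm_102_a k3_pm_102_a

theorem s34_pm_102_a : ∃ t, chk3 f_pm_102_a t 3 2 1 = true := ex3_a k1_pm_102_a s33_pm_102_a

theorem s35_pm_102_a : ∃ t, chk3 f_pm_102_a t 3 1 1 = true := ex3_b s34_pm_102_a s32_pm_102_a

theorem s36_pm_102_a : ∃ t, chk3 f_pm_102_a t 1 1 1 = true := ex3_a k0_pm_102_a s35_pm_102_a

theorem c_pm_102_a : CertN 536870912 536870912 0 536870912 402653184 67108864 3 false true false .npp 1 0 2
    ndN0q1 ndN1q2a pcN0 cut_pm_102_a Ext.none :=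
  certN0 (fam := false) (s1 := true) (s2 := false) (a := 1) (b := 0) (c := 2) (cn := .npp) (n1 := ndN0q1) (n2 := ndN1q2a) (pc := pcN0) (cut := cut_pm_102_a) (xt := Ext.none) (P1 := 536870912) (W1 := 536870912) (P2 := 0) (W2 := 536870912) (P3 := 402653184) (W3 := 67108864) (N0 := 3)
    rfl s36_pm_102_a

noncomputable def cut_pm_102_b : Cut := Cut.of [[⟨0, 1, 0, 67108864⟩, ⟨1, 0, 0, 67108864⟩, ⟨2, 1, 0, 67108864⟩]]

noncomputable def f_pm_102_b : ℕ → ℕ → ℕ → ℕ → Bool := onCell 536870912 536870912 0 536870912 402653184 67108864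
    (rowN 3 1 false true false .npp 1 0 2 (qsf 536870912 536870912 1239849684 370763052 0) ndN0q1 ndN1q2b pcN0 cut_pm_102_b Ext.none)

def k0_pm_102_b : ∃ t, chk3 f_pm_102_b t 1 1 1 = true :=
  ⟨(b (a (l 1) (a (l 1) (l 3))) (a (b (l 1) (a (l 1) (b (a (l 1) (a (l 369400922759) (l 197065681207))) (a (a (l 419866891367) (l 256121504055)) (l 44594394711))))) (b (a (b (a (l 1) (l 3)) (a (b (a (l 1) (b (l 1) (a (l 1) (a (l 1) (l 64994976679))))) (a (l 185254336119) (a (b (l 16794376) (l 16803736)) (b (a (l 16800208) (l 16800792)) (l 16807984))))) (a (a (b (a (b (l 1) (a (l 144049204263) (l 3))) (l 3)) (b (a (l 128479966487) (l 3)) (l 150491688695))) (l 3)) (l 3)))) (l 3)) (a (a (b (a (b (l 16831488) (l 16817376)) (b (a (l 16816480) (l 16820824)) (l 16839672))) (a (l 16853744) (b (l 16864704) (l 16901808)))) (b (a (a (b (b (l 151565448983) (l 152639179975)) (b (l 16840176) (l 16853880))) (b (a (l 188072681111) (l 3)) (a (l 151028641703) (l 220821861943)))) (l 3)) (a (b (a (l 16876776)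 (l 150491777911)) (a (l 16922152) (l 16934936))) (b (l 249812970215) (a (l 147807610407) (l 3)))))) (l 3))))), by decide +kernel⟩

theorem c_pm_102_b : CertN 536870912 536870912 1239849684 370763052 402653184 67108864 3 false true false .npp 1 0 2
    ndN0q1 ndN1q2b pcN0 cut_pm_102_b Ext.none :=
  certN1 (fam := false) (s1 := true) (s2 := false) (a := 1) (b := 0) (c := 2) (cn := .npp) (n1 := ndN0q1) (n2 := ndN1q2b) (pc := pcN0) (cut := cut_pm_102_b) (xt := Ext.none) (P1 := 536870912) (W1 := 536870912) (P2 := 1239849684) (W2 := 370763052) (P3 := 402653184) (W3 := 67108864) (N0 := 3)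
    rfl (fun _ => rfl) k0_pm_102_b

noncomputable def f_pm_112_a : ℕ → ℕ → ℕ → ℕ → Bool := onCell 536870912 536870912 0 536870912 402653184 67108864
    (rowN 3 2 false true false .dn 1 1 2 (qsf 536870912 536870912 0 536870912 1) ndN0q1 ndN1q2a pcN1 Cut.none Ext.none)

def k0_pm_112_a : ∃ t, chk3 f_pm_112_a t 1 1 1 = true :=
  ⟨(a (a (a (b (b (b (l 16944776) (a (l 17027032) (a (l 16984904) (l 17002856)))) (a (a (l 17053640) (l 17111680)) (b (l 17091232) (l 17075504)))) (b (a (b (l 17054672) (a (l 17068160) (l 17000832))) (b (l 16928920) (a (l 16959504) (l 16951608)))) (a (b (a (l 17048248) (b (l 16973408) (l 16954224))) (a (b (l 17054440) (a (l 214782623223) (l 208876815319))) (b (a (l 16972008) (l 197065256775)) (b (l 185790884439) (l 1))))) (b (a (b (l 16914624) (l 16881656)) (l 208339717191)) (b (a (b (l 16852752) (l 1)) (l 1)) (l 1)))))) (b (b (b (a (l 16989424) (l 16944624)) (a (l 17042792) (l 17123928))) (a (l 17123520) (l 17114624))) (b (b (a (l 17004088) (l 16978608))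 (a (l 16913792) (l 16832656))) (b (a (b (l 195454808391) (l 1)) (l 1)) (l 1))))) (b (a (b (a (b (l 17088496) (l 17175112)) (l 17124448)) (a (l 132104039447) (l 1))) (l 1)) (b (l 1) (l 1)))) (l 1)), by decide +kernel⟩

theorem c_pm_112_a : CertN 536870912 536870912 0 536870912 402653184 67108864 3 false true false .dn 1 1 2
    ndN0q1 ndN1q2a pcN1 Cut.none Ext.none :=
  certN2 (fam := false) (s1 := true) (s2 := false) (a := 1) (b := 1) (c := 2) (cn := .dn) (n1 := ndN0q1) (n2 := ndN1q2a) (pc := pcN1) (cut := Cut.none) (xt := Ext.none) (P1 := 536870912) (W1 := 536870912) (P2 := 0) (W2 := 536870912) (P3 := 402653184) (W3 := 67108864) (N0 := 3)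
    rfl (fun _ => rfl) k0_pm_112_a

noncomputable def f_pm_112_b : ℕ → ℕ → ℕ → ℕ → Bool := onCell 536870912 536870912 536870912 536870912 402653184 67108864
    (rowN 3 1 false true false .dn 1 1 2 (qsf 536870912 536870912 1239849684 370763052 1) ndN0q1 ndN1q2b pcN1 Cut.none Ext.none)

def k0_pm_112_b : ∃ t, chk3 f_pm_112_b t 1 1 1 = true :=
  ⟨(a (b (b (a (b (a (l 1) (l 411813899495)) (a (a (l 352758233111) (l 349536960103)) (a (l 285649237303) (l 16980576)))) (a (b (b (l 165390471031) (l 16914336)) (l 16838440)) (b (l 16834384) (l 16871704)))) (a (a (b (a (b (l 256121198503) (l 17107856)) (l 17076600)) (a (l 17004120) (l 16944488))) (b (l 16956312) (l 16826792))) (a (l 17053056) (l 17171368)))) (b (a (a (b (a (l 16785248) (l 16772064)) (l 16693976)) (b (l 16797944) (l 16834664))) (b (l 17104240) (a (l 16959912) (l 17053608)))) (a (a (b (l 16722488) (a (l 16726528) (l 16862040))) (b (l 16907960) (l 17001800))) (b (a (l 17030032) (l 2)) (l 2))))) (b (b (a (a (b (b (l 16928184)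 (l 16979408)) (l 17072896)) (b (a (b (l 16996016) (l 17073480)) (b (a (l 139217723223) (l 240686458087)) (l 133849137511))) (b (a (l 17118488) (l 17140120)) (l 17162272)))) (a (b (l 3) (a (b (l 265919610311) (l 134923169175)) (l 3))) (l 3))) (a (b (a (l 17123816) (l 17299128)) (l 146130825527)) (a (b (a (l 315244896423) (l 2)) (l 2)) (l 2)))) (b (a (b (l 194986020679) (l 2)) (l 2)) (l 2)))), by decide +kernel⟩

theorem c_pm_112_b : CertN 536870912 536870912 1239849684 370763052 402653184 67108864 3 false true false .dn 1 1 2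
    ndN0q1 ndN1q2b pcN1 Cut.none Ext.none :=
  certN1 (fam := false) (s1 := true) (s2 := false) (a := 1) (b := 1) (c := 2) (cn := .dn) (n1 := ndN0q1) (n2 := ndN1q2b) (pc := pcN1) (cut := Cut.none) (xt := Ext.none) (P1 := 536870912) (W1 := 536870912) (P2 := 1239849684) (W2 := 370763052) (P3 := 402653184) (W3 := 67108864) (N0 := 3)
    rfl (fun _ => rfl) k0_pm_112_b

noncomputable def cut_pm_113 : Cut := Cut.of [[⟨0, 1, 0, 67108864⟩, ⟨1, 1, 0, 67108864⟩, ⟨2, 2, 0, 16777216⟩]]

noncomputable def f_pm_113 : ℕ → ℕ → ℕ → ℕ → Bool := onCell 536870912 536870912 536870912 536870912 402653184 67108864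
    (rowN 3 1 false true false .nn 1 1 3 (qsf 536870912 536870912 1610612736 536870912 1) ndN0q1 ndN1q3 pcN1 cut_pm_113 Ext.none)

def k0_pm_113 : ∃ t, chk3 f_pm_113 t 1 1 1 = true :=
  ⟨(a (b (b (l 1) (a (l 1) (b (l 1) (a (l 1) (l 16931088))))) (b (a (b (l 1) (a (l 1) (l 16804376))) (a (b (l 16876656) (l 16922904)) (b (l 16973528) (l 17017160)))) (a (b (a (l 180959086263) (l 16843248)) (a (a (l 16587296) (l 16743032)) (a (l 16863744) (l 16954608)))) (a (b (l 16981824) (l 17054248)) (b (l 17063504) (l 17115096)))))) (b (b (a (b (l 1) (a (l 1) (a (l 1) (l 92913171991)))) (a (a (b (l 1) (b (l 178409790695) (l 135460046567))) (l 3)) (l 3))) (a (b (a (l 99891658391) (b (a (l 17102888) (l 17145472)) (l 17122064))) (a (l 17039176) (a (l 17100496) (l 17125032)))) (a (b (a (b (l 134386480167) (l 17156448)) (l 3)) (a (b (l 17142456) (l 17128240)) (a (l 138144651607) (l 3)))) (l 3)))) (b (a (b (a (l 17058480) (l 17229632)) (a (l 17074896) (l 17150664))) (a (b (a (l 17126296) (b (l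 17103072) (l 17081936))) (a (l 17068992) (a (l 17052408) (l 17144088)))) (a (b (a (l 154787298167) (l 3)) (b (l 187536363079) (l 191831208647))) (l 3)))) (a (b (a (l 17089808) (l 17277032)) (b (l 17082008) (l 17081936))) (a (b (a (l 17026112) (l 16990992)) (l 16958064)) (b (a (a (l 16962128) (a (l 16947128) (l 159618705783))) (a (b (l 215990200151) (l 194515237031)) (l 3))) (b (a (l 16900832) (a (l 16865632) (a (l 274508983527) (l 3)))) (b (a (l 16876264) (a (l 16817912) (a (l 16820744) (l 326585349015)))) (b (a (l 16864616) (a (l 16826160) (a (l 16807672) (a (l 16798656) (l 349670767575))))) (a (l 16857144) (a (l 16818032) (a (l 16799304) (a (l 16790216) (l 6)))))))))))))), by decide +kernel⟩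

theorem c_pm_113 : CertN 536870912 536870912 1610612736 536870912 402653184 67108864 3 false true false .nn 1 1 3
    ndN0q1 ndN1q3 pcN1 cut_pm_113 Ext.none :=
  certN1 (fam := false) (s1 := true) (s2 := false) (a := 1) (b := 1) (c := 3) (cn := .nn) (n1 := ndN0q1) (n2 := ndN1q3) (pc := pcN1) (cut := cut_pm_113) (xt := Ext.none) (P1 := 536870912) (W1 := 536870912) (P2 := 1610612736) (W2 := 536870912) (P3 := 402653184) (W3 := 67108864) (N0 := 3)
    rfl (fun _ => rfl) k0_pm_113

noncomputable def cut_pm_123 : Cut := Cut.of [[⟨0, 1, 0, 67108864⟩, ⟨1, 1, 0, 67108864⟩, ⟨2, 2, 0, 16777216⟩]]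

noncomputable def f_pm_123 : ℕ → ℕ → ℕ → ℕ → Bool := onCell 536870912 536870912 1610612736 536870912 402653184 67108864
    (rowN 3 0 false true false .npn 1 2 3 (qsf 536870912 536870912 1610612736 536870912 2) ndN0q1 ndN1q3 pcN2 cut_pm_123 Ext.none)

def k0_pm_123 : ∃ t, chk3 f_pm_123 t 1 1 1 = true :=
  ⟨(a (b (a (b (a (a (b (l 279742772855) (l 16891544)) (b (l 300680917367) (l 16925824))) (b (b (l 1) (l 338262510759)) (l 343094738007))) (a (b (l 17016240) (l 17076976)) (b (l 17060576) (l 17090832)))) (b (a (b (l 1) (l 363495858935)) (l 1)) (a (b (l 350611479847) (l 17122816)) (l 353832845111)))) (a (a (b (l 17105896) (l 17073440)) (b (l 17091544) (b (l 17058376) (l 17026280)))) (a (b (l 17080040) (b (l 17020976) (l 16978944))) (b (l 17074448) (l 16946728))))) (b (a (b (l 1) (a (l 357590566631) (l 1))) (l 1)) (a (b (a (l 291018597543) (b (l 410741036839) (l 17047640))) (a (l 16907000) (l 16945744))) (a (b (b (l 1) (l 548179310503)) (b (a (l 16930432) (l 559990722439))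 (a (l 16971128) (l 16904432)))) (b (l 1) (a (b (l 653406216487) (l 16926752)) (b (l 1) (b (l 741989391191) (b (l 759706083975) (b (a (l 16793720) (l 789233825943)) (l 6))))))))))), by decide +kernel⟩

theorem c_pm_123 : CertN 536870912 536870912 1610612736 536870912 402653184 67108864 3 false true false .npn 1 2 3
    ndN0q1 ndN1q3 pcN2 cut_pm_123 Ext.none :=
  certN0 (fam := false) (s1 := true) (s2 := false) (a := 1) (b := 2) (c := 3) (cn := .npn) (n1 := ndN0q1) (n2 := ndN1q3) (pc := pcN2) (cut := cut_pm_123) (xt := Ext.none) (P1 := 536870912) (W1 := 536870912) (P2 := 1610612736) (W2 := 536870912) (P3 := 402653184) (W3 := 67108864) (N0 := 3)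
    rfl k0_pm_123

noncomputable def f_pm_133 : ℕ → ℕ → ℕ → ℕ → Bool := onCell 536870912 536870912 1610612736 536870912 402653184 67108864
    (rowN 3 0 false true false .dn 1 3 3 (qsf 536870912 536870912 1610612736 536870912 3) ndN0q1 ndN1q3 pcN3 Cut.none Ext.none)

def k0_pm_133 : ∃ t, chk3 f_pm_133 t 1 1 1 = true :=
  ⟨(a (b (l 1) (a (b (l 1) (a (l 17324224) (l 1))) (l 1))) (l 1)), by decide +kernel⟩

theorem c_pm_133 : CertN 536870912 536870912 1610612736 536870912 402653184 67108864 3 false true false .dn 1 3 3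
    ndN0q1 ndN1q3 pcN3 Cut.none Ext.none :=
  certN0 (fam := false) (s1 := true) (s2 := false) (a := 1) (b := 3) (c := 3) (cn := .dn) (n1 := ndN0q1) (n2 := ndN1q3) (pc := pcN3) (cut := Cut.none) (xt := Ext.none) (P1 := 536870912) (W1 := 536870912) (P2 := 1610612736) (W2 := 536870912) (P3 := 402653184) (W3 := 67108864) (N0 := 3)
    rfl k0_pm_133

noncomputable def cut_pm_202_a : Cut := Cut.of [[⟨0, 1, 0, 67108864⟩, ⟨1, 0, 0, 67108864⟩, ⟨2, 1, 0, 67108864⟩]]

noncomputable def f_pm_202_a : ℕ → ℕ → ℕ → ℕ → Bool := onCell 0 536870912 0 536870912 402653184 67108864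
    (rowN 3 0 false true false .pp 2 0 2 (qsf 0 536870912 0 536870912 0) ndN0q2 ndN1q2a pcN0 cut_pm_202_a Ext.none)

def k0_pm_202_a : ∃ t, chk3 f_pm_202_a t 1 1 1 = true :=
  ⟨(a (l 3) (b (l 3) (a (l 3) (b (l 3) (a (l 3) (b (l 3) (l 6))))))), by decide +kernel⟩

theorem c_pm_202_a : CertN 0 536870912 0 536870912 402653184 67108864 3 false true false .pp 2 0 2
    ndN0q2 ndN1q2a pcN0 cut_pm_202_a Ext.none :=
  certN0 (fam := false) (s1 := true) (s2 := false) (a := 2) (b := 0) (c := 2) (cn := .pp) (n1 := ndN0q2) (n2 := ndN1q2a) (pc := pcN0) (cut := cut_pm_202_a) (xt := Ext.none) (P1 := 0) (W1 := 536870912) (P2 := 0) (W2 := 536870912) (P3 := 402653184) (W3 := 67108864) (N0 := 3)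
    rfl k0_pm_202_a

noncomputable def cut_pm_202_b : Cut := Cut.of [[⟨0, 1, 0, 67108864⟩, ⟨1, 0, 0, 67108864⟩, ⟨2, 1, 0, 67108864⟩]]

noncomputable def f_pm_202_b : ℕ → ℕ → ℕ → ℕ → Bool := onCell 0 536870912 1239849684 370763052 402653184 67108864
    (rowN 3 0 false true false .pp 2 0 2 (qsf 0 536870912 1239849684 370763052 0) ndN0q2 ndN1q2b pcN0 cut_pm_202_b Ext.none)

def k0_pm_202_b : ∃ t, chk3 f_pm_202_b t 1 1 1 = true :=
  ⟨(l 3), by decide +kernel⟩

theorem c_pm_202_b : CertN 0 536870912 1239849684 370763052 402653184 67108864 3 false true false .pp 2 0 2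
    ndN0q2 ndN1q2b pcN0 cut_pm_202_b Ext.none :=
  certN0 (fam := false) (s1 := true) (s2 := false) (a := 2) (b := 0) (c := 2) (cn := .pp) (n1 := ndN0q2) (n2 := ndN1q2b) (pc := pcN0) (cut := cut_pm_202_b) (xt := Ext.none) (P1 := 0) (W1 := 536870912) (P2 := 1239849684) (W2 := 370763052) (P3 := 402653184) (W3 := 67108864) (N0 := 3)
    rfl k0_pm_202_b

noncomputable def f_pm_203 : ℕ → ℕ → ℕ → ℕ → Bool := onCell 0 536870912 0 536870912 402653184 67108864
    (rowN 3 1 false true false .up 2 0 3 (qsf 0 536870912 1610612736 536870912 0) ndN0q2 ndN1q3 pcN0 Cut.none Ext.none)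

def k0_pm_203 : ∃ t, chk3 f_pm_203 t 1 1 1 = true :=
  ⟨(l 3), by decide +kernel⟩

theorem c_pm_203 : CertN 0 536870912 1610612736 536870912 402653184 67108864 3 false true false .up 2 0 3
    ndN0q2 ndN1q3 pcN0 Cut.none Ext.none :=
  certN1 (fam := false) (s1 := true) (s2 := false) (a := 2) (b := 0) (c := 3) (cn := .up) (n1 := ndN0q2) (n2 := ndN1q3) (pc := pcN0) (cut := Cut.none) (xt := Ext.none) (P1 := 0) (W1 := 536870912) (P2 := 1610612736) (W2 := 536870912) (P3 := 402653184) (W3 := 67108864) (N0 := 3)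
    rfl (fun _ => rfl) k0_pm_203

noncomputable def cut_pm_213 : Cut := Cut.of [[⟨0, 1, 0, 67108864⟩, ⟨1, 1, 0, 67108864⟩, ⟨2, 2, 0, 16777216⟩]]

noncomputable def f_pm_213 : ℕ → ℕ → ℕ → ℕ → Bool := onCell 0 536870912 1610612736 536870912 402653184 67108864
    (rowN 3 0 false true false .pnn 2 1 3 (qsf 0 536870912 1610612736 536870912 1) ndN0q2 ndN1q3 pcN1 cut_pm_213 Ext.none)

def k0_pm_213 : ∃ t, chk3 f_pm_213 t 1 1 1 = true :=
  ⟨(b (l 3) (a (l 3) (b (l 3) (a (l 3) (a (l 3) (b (l 3) (a (l 3) (a (l 3) (b (l 3) (a (l 3) (b (l 3) (b (l 3) (l 6))))))))))))), by decide +kernel⟩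

theorem c_pm_213 : CertN 0 536870912 1610612736 536870912 402653184 67108864 3 false true false .pnn 2 1 3
    ndN0q2 ndN1q3 pcN1 cut_pm_213 Ext.none :=
  certN0 (fam := false) (s1 := true) (s2 := false) (a := 2) (b := 1) (c := 3) (cn := .pnn) (n1 := ndN0q2) (n2 := ndN1q3) (pc := pcN1) (cut := cut_pm_213) (xt := Ext.none) (P1 := 0) (W1 := 536870912) (P2 := 1610612736) (W2 := 536870912) (P3 := 402653184) (W3 := 67108864) (N0 := 3)
    rfl k0_pm_213

noncomputable def f_mm_001 : ℕ → ℕ → ℕ → ℕ → Bool := onCell 0 536870912 536870912 536870912 402653184 67108864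
    (rowN 3 0 false false false .up 0 0 1 (qsf 0 536870912 536870912 536870912 0) ndN0q0 ndN1q1 pcN0 Cut.none Ext.none)

def k0_mm_001 : ∃ t, chk3 f_mm_001 t 1 1 1 = true :=
  ⟨(l 3), by decide +kernel⟩

theorem c_mm_001 : CertN 0 536870912 536870912 536870912 402653184 67108864 3 false false false .up 0 0 1
    ndN0q0 ndN1q1 pcN0 Cut.none Ext.none :=
  certN0 (fam := false) (s1 := false) (s2 := false) (a := 0) (b := 0) (c := 1) (cn := .up) (n1 := ndN0q0) (n2 := ndN1q1) (pc := pcN0) (cut := Cut.none) (xt := Ext.none) (P1 := 0) (W1 := 536870912) (P2 := 536870912) (W2 := 536870912) (P3 := 402653184) (W3 := 67108864) (N0 := 3)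
    rfl k0_mm_001

noncomputable def f_mm_011 : ℕ → ℕ → ℕ → ℕ → Bool := onCell 0 536870912 536870912 536870912 402653184 67108864
    (rowN 3 0 false false false .pnn 0 1 1 (qsf 0 536870912 536870912 536870912 1) ndN0q0 ndN1q1 pcN1 Cut.none Ext.none)

def k0_mm_011 : ∃ t, chk3 f_mm_011 t 1 1 1 = true :=
  ⟨(l 3), by decide +kernel⟩

theorem c_mm_011 : CertN 0 536870912 536870912 536870912 402653184 67108864 3 false false false .pnn 0 1 1
    ndN0q0 ndN1q1 pcN1 Cut.none Ext.none :=
  certN0 (fam := false) (s1 := false) (s2 := false) (a := 0) (b := 1) (c := 1) (cn := .pnn) (n1 := ndN0q0) (n2 := ndN1q1) (pc := pcN1) (cut := Cut.none) (xt := Ext.none) (P1 := 0) (W1 := 536870912) (P2 := 536870912) (W2 := 536870912) (P3 := 402653184) (W3 := 67108864) (N0 := 3)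
    rfl k0_mm_011

noncomputable def f_mm_012_a : ℕ → ℕ → ℕ → ℕ → Bool := onCell 0 536870912 0 536870912 402653184 67108864
    (rowN 3 0 false false false .pnp 0 1 2 (qsf 0 536870912 0 536870912 1) ndN0q0 ndN1q2a pcN1 Cut.none Ext.none)

def k0_mm_012_a : ∃ t, chk3 f_mm_012_a t 1 1 1 = true :=
  ⟨(l 5), by decide +kernel⟩

theorem c_mm_012_a : CertN 0 536870912 0 536870912 402653184 67108864 3 false false false .pnp 0 1 2
    ndN0q0 ndN1q2a pcN1 Cut.none Ext.none :=
  certN0 (fam := false) (s1 := false) (s2 := false) (a := 0) (b := 1) (c := 2) (cn := .pnp) (n1 := ndN0q0) (n2 := ndN1q2a) (pc := pcN1) (cut := Cut.none) (xt := Ext.none) (P1 := 0) (W1 := 536870912) (P2 := 0) (W2 := 536870912) (P3 := 402653184) (W3 := 67108864) (N0 := 3)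
    rfl k0_mm_012_a

noncomputable def f_mm_012_b : ℕ → ℕ → ℕ → ℕ → Bool := onCell 0 536870912 1239849684 370763052 402653184 67108864
    (rowN 3 0 false false false .pnp 0 1 2 (qsf 0 536870912 1239849684 370763052 1) ndN0q0 ndN1q2b pcN1 Cut.none Ext.none)

def k0_mm_012_b : ∃ t, chk3 f_mm_012_b t 1 1 1 = true :=
  ⟨(l 5), by decide +kernel⟩

theorem c_mm_012_b : CertN 0 536870912 1239849684 370763052 402653184 67108864 3 false false false .pnp 0 1 2
    ndN0q0 ndN1q2b pcN1 Cut.none Ext.none :=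
  certN0 (fam := false) (s1 := false) (s2 := false) (a := 0) (b := 1) (c := 2) (cn := .pnp) (n1 := ndN0q0) (n2 := ndN1q2b) (pc := pcN1) (cut := Cut.none) (xt := Ext.none) (P1 := 0) (W1 := 536870912) (P2 := 1239849684) (W2 := 370763052) (P3 := 402653184) (W3 := 67108864) (N0 := 3)
    rfl k0_mm_012_b

noncomputable def f_mm_022_a : ℕ → ℕ → ℕ → ℕ → Bool := onCell 0 536870912 0 536870912 402653184 67108864
    (rowN 3 0 false false false .pp 0 2 2 (qsf 0 536870912 0 536870912 2) ndN0q0 ndN1q2a pcN2 Cut.none Ext.none)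

def k0_mm_022_a : ∃ t, chk3 f_mm_022_a t 1 1 1 = true :=
  ⟨(l 5), by decide +kernel⟩

theorem c_mm_022_a : CertN 0 536870912 0 536870912 402653184 67108864 3 false false false .pp 0 2 2
    ndN0q0 ndN1q2a pcN2 Cut.none Ext.none :=
  certN0 (fam := false) (s1 := false) (s2 := false) (a := 0) (b := 2) (c := 2) (cn := .pp) (n1 := ndN0q0) (n2 := ndN1q2a) (pc := pcN2) (cut := Cut.none) (xt := Ext.none) (P1 := 0) (W1 := 536870912) (P2 := 0) (W2 := 536870912) (P3 := 402653184) (W3 := 67108864) (N0 := 3)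
    rfl k0_mm_022_a

noncomputable def f_mm_022_b : ℕ → ℕ → ℕ → ℕ → Bool := onCell 0 536870912 1239849684 370763052 402653184 67108864
    (rowN 3 0 false false false .pp 0 2 2 (qsf 0 536870912 1239849684 370763052 2) ndN0q0 ndN1q2b pcN2 Cut.none Ext.none)

def k0_mm_022_b : ∃ t, chk3 f_mm_022_b t 1 1 1 = true :=
  ⟨(l 5), by decide +kernel⟩

theorem c_mm_022_b : CertN 0 536870912 1239849684 370763052 402653184 67108864 3 false false false .pp 0 2 2
    ndN0q0 ndN1q2b pcN2 Cut.none Ext.none :=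
  certN0 (fam := false) (s1 := false) (s2 := false) (a := 0) (b := 2) (c := 2) (cn := .pp) (n1 := ndN0q0) (n2 := ndN1q2b) (pc := pcN2) (cut := Cut.none) (xt := Ext.none) (P1 := 0) (W1 := 536870912) (P2 := 1239849684) (W2 := 370763052) (P3 := 402653184) (W3 := 67108864) (N0 := 3)
    rfl k0_mm_022_b

noncomputable def f_mm_023 : ℕ → ℕ → ℕ → ℕ → Bool := onCell 0 536870912 1610612736 536870912 402653184 67108864
    (rowN 3 0 false false false .up 0 2 3 (qsf 0 536870912 1610612736 536870912 2) ndN0q0 ndN1q3 pcN2 Cut.none Ext.none)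

def k0_mm_023 : ∃ t, chk3 f_mm_023 t 1 1 1 = true :=
  ⟨(l 5), by decide +kernel⟩

theorem c_mm_023 : CertN 0 536870912 1610612736 536870912 402653184 67108864 3 false false false .up 0 2 3
    ndN0q0 ndN1q3 pcN2 Cut.none Ext.none :=
  certN0 (fam := false) (s1 := false) (s2 := false) (a := 0) (b := 2) (c := 3) (cn := .up) (n1 := ndN0q0) (n2 := ndN1q3) (pc := pcN2) (cut := Cut.none) (xt := Ext.none) (P1 := 0) (W1 := 536870912) (P2 := 1610612736) (W2 := 536870912) (P3 := 402653184) (W3 := 67108864) (N0 := 3)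
    rfl k0_mm_023

noncomputable def f_mm_033 : ℕ → ℕ → ℕ → ℕ → Bool := onCell 0 536870912 1610612736 536870912 402653184 67108864
    (rowN 3 0 false false false .pnn 0 3 3 (qsf 0 536870912 1610612736 536870912 3) ndN0q0 ndN1q3 pcN3 Cut.none Ext.none)

def k0_mm_033 : ∃ t, chk3 f_mm_033 t 1 1 1 = true :=
  ⟨(l 5), by decide +kernel⟩

theorem c_mm_033 : CertN 0 536870912 1610612736 536870912 402653184 67108864 3 false false false .pnn 0 3 3
    ndN0q0 ndN1q3 pcN3 Cut.none Ext.none :=
  certN0 (fam := false) (s1 := false) (s2 := false) (a := 0) (b := 3) (c := 3) (cn := .pnn) (n1 := ndN0q0) (n2 := ndN1q3) (pc := pcN3) (cut := Cut.none) (xt := Ext.none) (P1 := 0) (W1 := 536870912) (P2 := 1610612736) (W2 := 536870912) (P3 := 402653184) (W3 := 67108864) (N0 := 3)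
    rfl k0_mm_033

noncomputable def f_mm_101 : ℕ → ℕ → ℕ → ℕ → Bool := onCell 536870912 536870912 536870912 536870912 402653184 67108864
    (rowN 3 0 false false false .npn 1 0 1 (qsf 536870912 536870912 536870912 536870912 0) ndN0q1 ndN1q1 pcN0 Cut.none Ext.none)

def k0_mm_101 : ∃ t, chk3 f_mm_101 t 1 1 1 = true :=
  ⟨(l 3), by decide +kernel⟩

theorem c_mm_101 : CertN 536870912 536870912 536870912 536870912 402653184 67108864 3 false false false .npn 1 0 1
    ndN0q1 ndN1q1 pcN0 Cut.none Ext.none :=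
  certN0 (fam := false) (s1 := false) (s2 := false) (a := 1) (b := 0) (c := 1) (cn := .npn) (n1 := ndN0q1) (n2 := ndN1q1) (pc := pcN0) (cut := Cut.none) (xt := Ext.none) (P1 := 536870912) (W1 := 536870912) (P2 := 536870912) (W2 := 536870912) (P3 := 402653184) (W3 := 67108864) (N0 := 3)
    rfl k0_mm_101

noncomputable def f_mm_102_a : ℕ → ℕ → ℕ → ℕ → Bool := onCell 536870912 536870912 0 536870912 402653184 67108864
    (rowN 3 0 false false false .npp 1 0 2 (qsf 536870912 536870912 0 536870912 0) ndN0q1 ndN1q2a pcN0 Cut.none Ext.none)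

def k0_mm_102_a : ∃ t, chk3 f_mm_102_a t 1 1 1 = true :=
  ⟨(l 3), by decide +kernel⟩

theorem c_mm_102_a : CertN 536870912 536870912 0 536870912 402653184 67108864 3 false false false .npp 1 0 2
    ndN0q1 ndN1q2a pcN0 Cut.none Ext.none :=
  certN0 (fam := false) (s1 := false) (s2 := false) (a := 1) (b := 0) (c := 2) (cn := .npp) (n1 := ndN0q1) (n2 := ndN1q2a) (pc := pcN0) (cut := Cut.none) (xt := Ext.none) (P1 := 536870912) (W1 := 536870912) (P2 := 0) (W2 := 536870912) (P3 := 402653184) (W3 := 67108864) (N0 := 3)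
    rfl k0_mm_102_a

noncomputable def f_mm_102_b : ℕ → ℕ → ℕ → ℕ → Bool := onCell 536870912 536870912 1239849684 370763052 402653184 67108864
    (rowN 3 0 false false false .npp 1 0 2 (qsf 536870912 536870912 1239849684 370763052 0) ndN0q1 ndN1q2b pcN0 Cut.none Ext.none)

def k0_mm_102_b : ∃ t, chk3 f_mm_102_b t 1 1 1 = true :=
  ⟨(l 5), by decide +kernel⟩

theorem c_mm_102_b : CertN 536870912 536870912 1239849684 370763052 402653184 67108864 3 false false false .npp 1 0 2
    ndN0q1 ndN1q2b pcN0 Cut.none Ext.none :=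
  certN0 (fam := false) (s1 := false) (s2 := false) (a := 1) (b := 0) (c := 2) (cn := .npp) (n1 := ndN0q1) (n2 := ndN1q2b) (pc := pcN0) (cut := Cut.none) (xt := Ext.none) (P1 := 536870912) (W1 := 536870912) (P2 := 1239849684) (W2 := 370763052) (P3 := 402653184) (W3 := 67108864) (N0 := 3)
    rfl k0_mm_102_b

noncomputable def f_mm_112_a : ℕ → ℕ → ℕ → ℕ → Bool := onCell 536870912 536870912 0 536870912 402653184 67108864
    (rowN 3 0 false false false .dn 1 1 2 (qsf 536870912 536870912 0 536870912 1) ndN0q1 ndN1q2a pcN1 Cut.none Ext.none)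

def k0_mm_112_a : ∃ t, chk3 f_mm_112_a t 1 1 1 = true :=
  ⟨(l 3), by decide +kernel⟩

theorem c_mm_112_a : CertN 536870912 536870912 0 536870912 402653184 67108864 3 false false false .dn 1 1 2
    ndN0q1 ndN1q2a pcN1 Cut.none Ext.none :=
  certN0 (fam := false) (s1 := false) (s2 := false) (a := 1) (b := 1) (c := 2) (cn := .dn) (n1 := ndN0q1) (n2 := ndN1q2a) (pc := pcN1) (cut := Cut.none) (xt := Ext.none) (P1 := 536870912) (W1 := 536870912) (P2 := 0) (W2 := 536870912) (P3 := 402653184) (W3 := 67108864) (N0 := 3)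
    rfl k0_mm_112_a

noncomputable def f_mm_112_b : ℕ → ℕ → ℕ → ℕ → Bool := onCell 536870912 536870912 1239849684 370763052 402653184 67108864
    (rowN 3 0 false false false .dn 1 1 2 (qsf 536870912 536870912 1239849684 370763052 1) ndN0q1 ndN1q2b pcN1 Cut.none Ext.none)

def k0_mm_112_b : ∃ t, chk3 f_mm_112_b t 1 1 1 = true :=
  ⟨(l 5), by decide +kernel⟩

theorem c_mm_112_b : CertN 536870912 536870912 1239849684 370763052 402653184 67108864 3 false false false .dn 1 1 2
    ndN0q1 ndN1q2b pcN1 Cut.none Ext.none :=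
  certN0 (fam := false) (s1 := false) (s2 := false) (a := 1) (b := 1) (c := 2) (cn := .dn) (n1 := ndN0q1) (n2 := ndN1q2b) (pc := pcN1) (cut := Cut.none) (xt := Ext.none) (P1 := 536870912) (W1 := 536870912) (P2 := 1239849684) (W2 := 370763052) (P3 := 402653184) (W3 := 67108864) (N0 := 3)
    rfl k0_mm_112_b

noncomputable def f_mm_113 : ℕ → ℕ → ℕ → ℕ → Bool := onCell 536870912 536870912 1610612736 536870912 402653184 67108864
    (rowN 3 0 false false false .nn 1 1 3 (qsf 536870912 536870912 1610612736 536870912 1) ndN0q1 ndN1q3 pcN1 Cut.none Ext.none)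

def k0_mm_113 : ∃ t, chk3 f_mm_113 t 1 1 1 = true :=
  ⟨(l 5), by decide +kernel⟩

theorem c_mm_113 : CertN 536870912 536870912 1610612736 536870912 402653184 67108864 3 false false false .nn 1 1 3
    ndN0q1 ndN1q3 pcN1 Cut.none Ext.none :=
  certN0 (fam := false) (s1 := false) (s2 := false) (a := 1) (b := 1) (c := 3) (cn := .nn) (n1 := ndN0q1) (n2 := ndN1q3) (pc := pcN1) (cut := Cut.none) (xt := Ext.none) (P1 := 536870912) (W1 := 536870912) (P2 := 1610612736) (W2 := 536870912) (P3 := 402653184) (W3 := 67108864) (N0 := 3)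
    rfl k0_mm_113

noncomputable def f_mm_123 : ℕ → ℕ → ℕ → ℕ → Bool := onCell 536870912 536870912 1610612736 536870912 402653184 67108864
    (rowN 3 0 false false false .npn 1 2 3 (qsf 536870912 536870912 1610612736 536870912 2) ndN0q1 ndN1q3 pcN2 Cut.none Ext.none)

def k0_mm_123 : ∃ t, chk3 f_mm_123 t 1 1 1 = true :=
  ⟨(l 5), by decide +kernel⟩

theorem c_mm_123 : CertN 536870912 536870912 1610612736 536870912 402653184 67108864 3 false false false .npn 1 2 3
    ndN0q1 ndN1q3 pcN2 Cut.none Ext.none :=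
  certN0 (fam := false) (s1 := false) (s2 := false) (a := 1) (b := 2) (c := 3) (cn := .npn) (n1 := ndN0q1) (n2 := ndN1q3) (pc := pcN2) (cut := Cut.none) (xt := Ext.none) (P1 := 536870912) (W1 := 536870912) (P2 := 1610612736) (W2 := 536870912) (P3 := 402653184) (W3 := 67108864) (N0 := 3)
    rfl k0_mm_123

noncomputable def f_mm_133 : ℕ → ℕ → ℕ → ℕ → Bool := onCell 536870912 536870912 1610612736 536870912 402653184 67108864
    (rowN 3 0 false false false .dn 1 3 3 (qsf 536870912 536870912 1610612736 536870912 3) ndN0q1 ndN1q3 pcN3 Cut.none Ext.none)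

def k0_mm_133 : ∃ t, chk3 f_mm_133 t 1 1 1 = true :=
  ⟨(l 5), by decide +kernel⟩

theorem c_mm_133 : CertN 536870912 536870912 1610612736 536870912 402653184 67108864 3 false false false .dn 1 3 3
    ndN0q1 ndN1q3 pcN3 Cut.none Ext.none :=
  certN0 (fam := false) (s1 := false) (s2 := false) (a := 1) (b := 3) (c := 3) (cn := .dn) (n1 := ndN0q1) (n2 := ndN1q3) (pc := pcN3) (cut := Cut.none) (xt := Ext.none) (P1 := 536870912) (W1 := 536870912) (P2 := 1610612736) (W2 := 536870912) (P3 := 402653184) (W3 := 67108864) (N0 := 3)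
    rfl k0_mm_133

noncomputable def f_mm_202_a : ℕ → ℕ → ℕ → ℕ → Bool := onCell 0 536870912 0 536870912 402653184 67108864
    (rowN 3 0 false false false .pp 2 0 2 (qsf 0 536870912 0 536870912 0) ndN0q2 ndN1q2a pcN0 Cut.none Ext.none)

def k0_mm_202_a : ∃ t, chk3 f_mm_202_a t 1 1 1 = true :=
  ⟨(l 3), by decide +kernel⟩

theorem c_mm_202_a : CertN 0 536870912 0 536870912 402653184 67108864 3 false false false .pp 2 0 2
    ndN0q2 ndN1q2a pcN0 Cut.none Ext.none :=
  certN0 (fam := false) (s1 := false) (s2 := false) (a := 2) (b := 0) (c := 2) (cn := .pp) (n1 := ndN0q2) (n2 := ndN1q2a) (pc := pcN0) (cut := Cut.none) (xt := Ext.none) (P1 := 0) (W1 := 536870912) (P2 := 0) (W2 := 536870912) (P3 := 402653184) (W3 := 67108864) (N0 := 3)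
    rfl k0_mm_202_a

noncomputable def f_mm_202_b : ℕ → ℕ → ℕ → ℕ → Bool := onCell 0 536870912 1239849684 370763052 402653184 67108864
    (rowN 3 0 false false false .pp 2 0 2 (qsf 0 536870912 1239849684 370763052 0) ndN0q2 ndN1q2b pcN0 Cut.none Ext.none)

def k0_mm_202_b : ∃ t, chk3 f_mm_202_b t 1 1 1 = true :=
  ⟨(l 3), by decide +kernel⟩

theorem c_mm_202_b : CertN 0 536870912 1239849684 370763052 402653184 67108864 3 false false false .pp 2 0 2
    ndN0q2 ndN1q2b pcN0 Cut.none Ext.none :=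
  certN0 (fam := false) (s1 := false) (s2 := false) (a := 2) (b := 0) (c := 2) (cn := .pp) (n1 := ndN0q2) (n2 := ndN1q2b) (pc := pcN0) (cut := Cut.none) (xt := Ext.none) (P1 := 0) (W1 := 536870912) (P2 := 1239849684) (W2 := 370763052) (P3 := 402653184) (W3 := 67108864) (N0 := 3)
    rfl k0_mm_202_b

noncomputable def f_mm_203 : ℕ → ℕ → ℕ → ℕ → Bool := onCell 0 536870912 0 536870912 402653184 67108864
    (rowN 3 1 false false false .up 2 0 3 (qsf 0 536870912 1610612736 536870912 0) ndN0q2 ndN1q3 pcN0 Cut.none Ext.none)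

def k0_mm_203 : ∃ t, chk3 f_mm_203 t 1 1 1 = true :=
  ⟨(l 3), by decide +kernel⟩

theorem c_mm_203 : CertN 0 536870912 1610612736 536870912 402653184 67108864 3 false false false .up 2 0 3
    ndN0q2 ndN1q3 pcN0 Cut.none Ext.none :=
  certN1 (fam := false) (s1 := false) (s2 := false) (a := 2) (b := 0) (c := 3) (cn := .up) (n1 := ndN0q2) (n2 := ndN1q3) (pc := pcN0) (cut := Cut.none) (xt := Ext.none) (P1 := 0) (W1 := 536870912) (P2 := 1610612736) (W2 := 536870912) (P3 := 402653184) (W3 := 67108864) (N0 := 3)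
    rfl (fun _ => rfl) k0_mm_203

noncomputable def f_mm_213 : ℕ → ℕ → ℕ → ℕ → Bool := onCell 0 536870912 1610612736 536870912 402653184 67108864
    (rowN 3 0 false false false .pnn 2 1 3 (qsf 0 536870912 1610612736 536870912 1) ndN0q2 ndN1q3 pcN1 Cut.none Ext.none)

def k0_mm_213 : ∃ t, chk3 f_mm_213 t 1 1 1 = true :=
  ⟨(a (l 3) (l 5)), by decide +kernel⟩

theorem c_mm_213 : CertN 0 536870912 1610612736 536870912 402653184 67108864 3 false false false .pnn 2 1 3
    ndN0q2 ndN1q3 pcN1 Cut.none Ext.none :=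
  certN0 (fam := false) (s1 := false) (s2 := false) (a := 2) (b := 1) (c := 3) (cn := .pnn) (n1 := ndN0q2) (n2 := ndN1q3) (pc := pcN1) (cut := Cut.none) (xt := Ext.none) (P1 := 0) (W1 := 536870912) (P2 := 1610612736) (W2 := 536870912) (P3 := 402653184) (W3 := 67108864) (N0 := 3)
    rfl k0_mm_213

end Pool.Agent.Strip051.G.I3_8_7_16.Tab.C.NB01

namespace Pool.Agent.Strip051.G.I3_8_7_16.Tab.C.NB02

open Pool.Agent.Strip051.PB Pool.Agent.Strip051.PB.T
open Pool.Agent.Strip051.G.I3_8_7_16.Tab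

noncomputable def f_pp_001 : ℕ → ℕ → ℕ → ℕ → Bool := onCell 0 536870912 0 536870912 402653184 67108864
    (rowN 3 1 false true true .up 0 0 1 (qsf 0 536870912 536870912 536870912 0) ndN0q0 ndN2q1 pcN0 Cut.none Ext.none)

def k0_pp_001 : ∃ t, chk3 f_pp_001 t 1 1 1 = true :=
  ⟨(l 3), by decide +kernel⟩

theorem c_pp_001 : CertN 0 536870912 536870912 536870912 402653184 67108864 3 false true true .up 0 0 1
    ndN0q0 ndN2q1 pcN0 Cut.none Ext.none :=
  certN1 (fam := false) (s1 := true) (s2 := true) (a := 0) (b := 0) (c := 1) (cn := .up) (n1 := ndN0q0) (n2 := ndN2q1) (pc := pcN0) (cut := Cut.none) (xt := Ext.none) (P1 := 0) (W1 := 536870912) (P2 := 536870912) (W2 := 536870912) (P3 := 402653184) (W3 := 67108864) (N0 := 3)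
    rfl (fun _ => rfl) k0_pp_001

noncomputable def cut_pp_011 : Cut := Cut.of [[⟨0, 0, 0, 67108864⟩, ⟨1, 1, 0, 67108864⟩, ⟨2, 1, 0, 67108864⟩]]

noncomputable def f_pp_011 : ℕ → ℕ → ℕ → ℕ → Bool := onCell 0 536870912 536870912 536870912 402653184 67108864
    (rowN 3 1 false true true .pnn 0 1 1 (qsf 0 536870912 536870912 536870912 1) ndN0q0 ndN2q1 pcN1 cut_pp_011 Ext.none)

def k0_pp_011 : ∃ t, chk3 f_pp_011 t 1 1 1 = true :=
  ⟨(b (l 3) (a (b (l 3) (a (b (l 3) (a (b (l 3) (a (l 6) (l 3))) (l 3))) (l 3))) (l 3))), by decide +kernel⟩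

theorem c_pp_011 : CertN 0 536870912 536870912 536870912 402653184 67108864 3 false true true .pnn 0 1 1
    ndN0q0 ndN2q1 pcN1 cut_pp_011 Ext.none :=
  certN1 (fam := false) (s1 := true) (s2 := true) (a := 0) (b := 1) (c := 1) (cn := .pnn) (n1 := ndN0q0) (n2 := ndN2q1) (pc := pcN1) (cut := cut_pp_011) (xt := Ext.none) (P1 := 0) (W1 := 536870912) (P2 := 536870912) (W2 := 536870912) (P3 := 402653184) (W3 := 67108864) (N0 := 3)
    rfl (fun _ => rfl) k0_pp_011

noncomputable def f_pp_012 : ℕ → ℕ → ℕ → ℕ → Bool := onCell 0 536870912 536870912 536870912 402653184 67108864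
    (rowN 3 1 false true true .pnp 0 1 2 (qsf 0 536870912 1073741824 536870912 1) ndN0q0 ndN2q2 pcN1 Cut.none Ext.none)

def k0_pp_012 : ∃ t, chk3 f_pp_012 t 1 1 1 = true :=
  ⟨(a (l 3) (l 3)), by decide +kernel⟩

theorem c_pp_012 : CertN 0 536870912 1073741824 536870912 402653184 67108864 3 false true true .pnp 0 1 2
    ndN0q0 ndN2q2 pcN1 Cut.none Ext.none :=
  certN1 (fam := false) (s1 := true) (s2 := true) (a := 0) (b := 1) (c := 2) (cn := .pnp) (n1 := ndN0q0) (n2 := ndN2q2) (pc := pcN1) (cut := Cut.none) (xt := Ext.none) (P1 := 0) (W1 := 536870912) (P2 := 1073741824) (W2 := 536870912) (P3 := 402653184) (W3 := 67108864) (N0 := 3)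
    rfl (fun _ => rfl) k0_pp_012

noncomputable def f_pp_022 : ℕ → ℕ → ℕ → ℕ → Bool := onCell 1073741824 536870912 1073741824 536870912 402653184 67108864
    (rowN 3 2 false true true .pp 0 2 2 (qsf 0 536870912 1073741824 536870912 2) ndN0q0 ndN2q2 pcN2 Cut.none Ext.none)

def k0_pp_022 : ∃ t, chk3 f_pp_022 t 8 2 1 = true :=
  ⟨(l 3), by decide +kernel⟩

def k1_pp_022 : ∃ t, chk3 f_pp_022 t 9 4 1 = true :=
  ⟨(a (a (a (l 3) (a (l 3) (b (l 1) (b (b (b (l 1) (b (l 3) (l 101636105975))) (b (c (l 42043447879) (l 44190912583)) (c (l 16650544) (l 16638440)))) (b (b (c (l 16635336) (l 16625768)) (l 16638304)) (c (l 16623392) (l 16613664))))))) (a (a (b (l 1) (b (b (b (l 1) (b (l 1) (l 16637832))) (b (b (c (l 16640088) (l 16630832)) (l 16633248)) (c (l 16634416) (l 16625008)))) (b (b (l 16625176) (l 16620520)) (c (l 16618200) (l 16608504))))) (b (l 1) (b (b (l 1) (b (b (l 16630256) (c (l 16632544) (l 16623232))) (l 16624552))) (b (b (l 16619952) (l 16615320)) (l 16629272))))) (b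 (l 1) (b (b (l 1) (b (a (l 16623720) (l 1)) (a (c (l 16623752) (l 16614376)) (b (l 16614816) (l 16612544))))) (b (b (c (l 16616488) (l 16607040)) (l 16628240)) (b (l 16602624) (l 16597928))))))) (b (l 1) (a (b (b (l 1) (a (b (l 1) (l 16605344)) (l 1))) (b (a (b (a (l 16603568) (l 16597968)) (l 16596200)) (b (l 16589488) (l 16584904))) (a (b (l 16591576) (l 16586912)) (l 16598952)))) (b (l 1) (b (a (l 16575752) (l 1)) (a (b (l 16568816) (l 16564152)) (b (l 16557536) (l 16553024)))))))), by decide +kernel⟩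

def k2_pp_022 : ∃ t, chk3 f_pp_022 t 9 5 1 = true :=
  ⟨(a (b (a (a (l 3) (b (a (b (l 3) (l 16604352)) (b (l 16629800) (l 16598832))) (b (l 14662982375) (l 16580472)))) (b (b (a (c (l 16606104) (l 16596328)) (l 16611776)) (a (l 16612480) (l 16581080))) (b (a (l 16581384) (l 16571048)) (a (l 16570912) (l 16560680))))) (a (b (a (b (l 3) (l 16568320)) (b (l 16569320) (l 16557760))) (a (b (l 16555456) (l 16541680)) (b (l 16545648) (l 16532768)))) (a (b (b (l 16560040) (l 16548712)) (l 16551672)) (b (b (l 16549920) (l 16538704)) (l 16520960))))) (b (a (b (b (a (l 16579832) (l 16568568)) (a (l 16570160) (l 16558920))) (b (a (l 16560192) (l 16548992)) (l 16565400))) (b (b (a (l 16557080) (l 16546376)) (a (l 16547432) (l 16537440))) (a (b (l 16537512) (l 16527464)) (b (l 16528656) (l 16520128))))) (a (b (b (l 16533768) (l 16522672)) (b (l 16511080) (l 16498912))) (b (a (l 16554192) (l 16507408)) (a (l 16490824) (l 16489400)))))), by decide +kernel⟩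

def k3_pp_022 : ∃ t, chk3 f_pp_022 t 5 2 1 = true :=
  ⟨(a (a (a (b (b (l 1) (b (l 1) (b (l 1) (l 16568208)))) (b (b (b (a (l 16541144) (l 16538352)) (a (l 16533608) (l 16531616))) (b (l 16525832) (l 16518592))) (b (b (l 16511200) (l 16503616)) (l 16491824)))) (b (l 1) (b (a (b (b (l 16537512) (l 16531736)) (b (l 16525920) (l 16519992))) (b (b (l 1) (a (l 16534168) (b (l 1) (a (l 16537352) (c (l 16550448) (a (l 16532016) (l 16532976))))))) (a (b (l 16529232) (l 16524168)) (b (a (l 16534128) (c (l 16547624) (b (l 16529416) (l 16527432)))) (a (l 16529688) (l 16534256)))))) (a (b (l 16510856) (l 16497800)) (b (a (l 16516280) (a (l 16522672) (b (l 16530064) (l 16525608)))) (a (l 16504840) (a (l 16512352) (l 16518392)))))))) (b (l 1) (b (b (a (b (l 1) (b (l 1) (l 16532008))) (l 1)) (b (a (a (b (l 16535424) (l 16533656)) (b (l 16525208) (l 16523584))) (l 16509128)) (a (b (l 16526912) (l 16525128)) (a (l 16511216) (l 16501272))))) (b (b (a (l 16522376) (l 16503288)) (l 16509368))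 (b (l 16505552) (l 16501432)))))) (b (l 1) (b (b (l 1) (a (b (l 1) (a (l 16486296) (l 1))) (l 1))) (b (a (a (b (l 16483944) (l 16481472)) (b (l 16464416) (l 16462608))) (b (l 1) (l 16434040))) (a (b (l 16469808) (l 16467264)) (a (l 16441712) (l 16423552))))))), by decide +kernel⟩

def k4_pp_022 : ∃ t, chk3 f_pp_022 t 4 3 1 = true :=
  ⟨(b (a (b (l 3) (a (l 3) (b (l 3) (a (l 3) (a (l 3) (b (l 16427776) (l 16425608))))))) (b (a (a (b (a (b (l 16526816) (l 16510680)) (l 16532496)) (a (b (l 16492992) (l 16473480)) (l 16499264))) (b (b (l 16506288) (l 16491832)) (b (l 16476056) (l 16458712)))) (a (b (b (l 16486200) (l 16472904)) (a (l 16454136) (l 16446056))) (b (l 16532392) (l 16447016)))) (a (b (a (b (a (l 16451752) (l 16448408)) (a (l 16448232) (l 16425392))) (b (l 16439504) (l 16438936))) (a (b (a (l 16425672) (l 16404424)) (a (l 16405376) (l 16385832))) (b (l 16419712) (l 16403152)))) (b (a (b (l 16425320) (l 16427192)) (l 16503536)) (a (b (l 16411032) (l 16398256)) (l 16438384))))))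 (a (a (l 3) (a (l 3) (a (b (l 3) (b (l 3) (b (l 643875738647) (l 78550630599)))) (b (b (b (l 16399048) (l 53317251767)) (b (c (l 16521360) (l 16366840)) (a (l 16612288) (l 16500136)))) (b (b (a (l 63518284999) (l 16535696)) (c (l 16658664) (l 16563736))) (b (b (l 16647336) (l 16658872)) (l 16718208))))))) (b (a (b (a (b (c (l 16468896) (l 16363760)) (c (l 16382568) (l 16360040))) (b (l 16384880) (l 16364384))) (a (b (a (l 16377968) (l 16365560)) (a (l 16468376) (l 16433952))) (b (l 16422560) (l 16643776)))) (a (b (b (l 16384728) (l 16370208)) (b (l 16354472) (l 16385000))) (b (l 16398736) (l 16375728)))) (a (b (a (b (a (l 16505032) (l 16493040)) (a (l 16557616) (l 16546872))) (b (l 16476552) (l 16532176))) (a (b (a (l 16626040) (l 16615368)) (l 16700400)) (b (l 16600624) (l 16679280)))) (b (a (b (l 16454320) (l 16513736)) (l 16465464)) (a (l 16620544) (l 16602096))))))), by decide +kernel⟩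

def k5_pp_022 : ∃ t, chk3 f_pp_022 t 5 3 1 = true :=
  ⟨(b (b (a (a (a (b (l 16474888) (l 16455816)) (b (a (l 16483464) (a (l 16492080) (l 16503400))) (a (l 16467376) (a (l 16477624) (l 16490296))))) (b (l 16494664) (l 16484152))) (b (a (l 16462992) (l 16430344)) (a (l 16456000) (l 16426920)))) (a (a (a (b (l 16475152) (l 16415448)) (b (a (l 16448104) (l 16595400)) (a (l 16434192) (l 16500416)))) (b (l 16471088) (l 16464472))) (b (a (l 16447056) (l 16421760)) (a (l 16445592) (l 16424992))))) (b (a (a (a (b (l 16403104) (l 16387880)) (b (a (l 16426144) (l 16453352)) (a (l 16416008) (l 16446504)))) (b (l 16464448) (l 16463536))) (b (l 16487208) (l 16455928))) (a (b (a (a (l 16450840) (a (l 16443720) (l 16443536))) (l 16457944)) (a (a (l 16585968) (a (l 16576280) (l 16571176))) (l 16563168))) (b (l 16463448) (l 16562280))))), by decide +kernel⟩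

def k6_pp_022 : ∃ t, chk3 f_pp_022 t 3 1 1 = true :=
  ⟨(b (a (b (l 1) (b (l 1) (a (b (l 1) (a (l 16396128) (l 1))) (l 1)))) (l 1)) (b (a (b (a (b (a (l 16396872) (l 16362832)) (a (l 16397008) (l 16366408))) (a (b (l 1) (l 16335152)) (l 1))) (a (b (b (l 16382768) (l 16382864)) (l 16413544)) (b (a (l 16341440) (l 16319680)) (a (l 16358224) (l 16341912))))) (a (b (l 1) (b (l 1) (a (l 16333392) (l 1)))) (l 1))) (a (b (a (b (l 16413056) (l 16435832)) (b (a (l 16386528) (l 16376632)) (l 16416240))) (a (b (l 16497416) (l 16591464)) (b (a (l 16539920) (l 16577720)) (a (l 16625920) (l 16657472))))) (a (b (b (a (l 16375736) (l 16379792)) (l 16477128)) (b (a (l 16625736) (l 16680568)) (l 16720520))) (b (a (l 126197518711) (l 1)) (b (a (l 16739680) (l 16745760)) (a (l 16797928) (l 16806696)))))))), by decide +kernel⟩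

theorem s7_pp_022 : ∃ t, chk3 f_pp_022 t 2 3 1 = true := ex3_a k4_pp_022 k5_pp_022

theorem s8_pp_022 : ∃ t, chk3 f_pp_022 t 9 2 1 = true := ex3_b k1_pp_022 k2_pp_022

theorem s9_pp_022 : ∃ t, chk3 f_pp_022 t 4 2 1 = true := ex3_a k0_pp_022 s8_pp_022

theorem s10_pp_022 : ∃ t, chk3 f_pp_022 t 2 2 1 = true := ex3_a s9_pp_022 k3_pp_022

theorem s11_pp_022 : ∃ t, chk3 f_pp_022 t 2 1 1 = true := ex3_b s10_pp_022 s7_pp_022

theorem s12_pp_022 : ∃ t, chk3 f_pp_022 t 1 1 1 = true := ex3_a s11_pp_022 k6_pp_022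

theorem c_pp_022 : CertN 0 536870912 1073741824 536870912 402653184 67108864 3 false true true .pp 0 2 2
    ndN0q0 ndN2q2 pcN2 Cut.none Ext.none :=
  certN2 (fam := false) (s1 := true) (s2 := true) (a := 0) (b := 2) (c := 2) (cn := .pp) (n1 := ndN0q0) (n2 := ndN2q2) (pc := pcN2) (cut := Cut.none) (xt := Ext.none) (P1 := 0) (W1 := 536870912) (P2 := 1073741824) (W2 := 536870912) (P3 := 402653184) (W3 := 67108864) (N0 := 3)
    rfl (fun _ => rfl) s12_pp_022

noncomputable def f_pp_023 : ℕ → ℕ → ℕ → ℕ → Bool := onCell 1073741824 536870912 0 1230186008 402653184 67108864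
    (rowN 3 2 false true true .up 0 2 3 (qsf 0 536870912 0 1230186008 2) ndN0q0 ndN2q3 pcN2 Cut.none Ext.none)

def k0_pp_023 : ∃ t, chk3 f_pp_023 t 1 1 1 = true :=
  ⟨(b (a (l 2) (a (l 2) (b (a (l 2) (l 17043968)) (a (b (l 17013224) (l 17016880)) (b (l 17064200) (l 17073008)))))) (b (a (a (l 2) (a (l 2) (b (l 2) (l 16964128)))) (a (a (b (l 2) (l 16960152)) (b (l 16974136) (b (l 16979800) (l 16976024)))) (b (a (l 17019336) (l 17066424)) (a (l 17008744) (a (l 17035504) (l 17061400)))))) (a (a (b (l 2) (a (b (l 2) (a (l 3) (a (l 3) (b (l 17199448) (b (l 17224176) (c (l 17185968) (l 17133000))))))) (b (a (a (b (l 2) (l 17185592)) (l 16993840)) (b (l 17123512) (l 17113880))) (a (b (a (b (l 17175464) (l 17163736)) (l 17141328)) (a (b (l 17152760) (l 17140416)) (b (l 17125408) (l 17107760)))) (b (l 17157560) (l 17040368)))))) (b (a (a (b (l 2) (l 17070480)) (b (l 17021728) (l 17030176))) (b (l 16991552) (l 16989008))) (a (b (a (a (l 17098696) (b (l 17050832) (l 17038896))) (l 17009240))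 (a (a (b (l 17047720) (l 17000400)) (b (l 17010432) (l 17101376))) (l 16929216))) (b (b (l 16969232) (l 16935816)) (b (l 16876720) (l 16782296)))))) (a (b (a (b (l 16969784) (l 16953400)) (b (l 16965008) (l 16933048))) (a (b (l 16889712) (b (l 16783552) (l 16669192))) (b (l 16849536) (a (l 16678416) (l 16653840))))) (a (b (b (l 16979000) (l 16932112)) (b (l 16897976) (b (l 16699480) (l 16559656)))) (b (a (l 16975032) (l 16989992)) (b (a (l 16840512) (l 16837264)) (a (l 16636856) (b (l 16692352) (l 16540552)))))))))), by decide +kernel⟩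

theorem c_pp_023 : CertN 0 536870912 0 1230186008 402653184 67108864 3 false true true .up 0 2 3
    ndN0q0 ndN2q3 pcN2 Cut.none Ext.none :=
  certN2 (fam := false) (s1 := true) (s2 := true) (a := 0) (b := 2) (c := 3) (cn := .up) (n1 := ndN0q0) (n2 := ndN2q3) (pc := pcN2) (cut := Cut.none) (xt := Ext.none) (P1 := 0) (W1 := 536870912) (P2 := 0) (W2 := 1230186008) (P3 := 402653184) (W3 := 67108864) (N0 := 3)
    rfl (fun _ => rfl) k0_pp_023

noncomputable def f_pp_033 : ℕ → ℕ → ℕ → ℕ → Bool := onCell 1610612736 536870912 0 1230186008 402653184 67108864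
    (rowN 3 2 false true true .pnn 0 3 3 (qsf 0 536870912 0 1230186008 3) ndN0q0 ndN2q3 pcN3 Cut.none Ext.none)

def k0_pp_033 : ∃ t, chk3 f_pp_033 t 1 1 1 = true :=
  ⟨(a (b (a (b (a (l 17077960) (l 17067136)) (a (b (l 17105064) (l 17128440)) (l 17117280))) (b (a (l 17045992) (l 17035728)) (a (l 17103640) (l 17088136)))) (b (a (b (a (l 17145792) (l 17163096)) (a (l 17138160) (l 17149320))) (a (b (l 17158480) (l 17153008)) (b (l 17149984) (l 17159488)))) (a (b (b (a (l 17071360) (l 17067360)) (a (l 16957520) (l 16932216))) (b (a (b (l 16803904) (l 16648656)) (l 16668032)) (a (b (l 16430488) (a (l 16272088) (l 16185048))) (b (l 16339400) (l 1))))) (b (a (b (l 17063888) (l 16913304)) (b (l 17080744) (l 1))) (a (b (l 16643992) (l 1)) (l 1)))))) (a (b (b (l 4) (a (l 17283640) (l 4))) (b (a (b (l 17151936) (l 17194768)) (b (l 17190728) (a (l 17243840) (l 1)))) (l 1))) (b (l 4) (b (l 4) (l 1))))), by decide +kernel⟩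

theorem c_pp_033 : CertN 0 536870912 0 1230186008 402653184 67108864 3 false true true .pnn 0 3 3
    ndN0q0 ndN2q3 pcN3 Cut.none Ext.none :=
  certN2 (fam := false) (s1 := true) (s2 := true) (a := 0) (b := 3) (c := 3) (cn := .pnn) (n1 := ndN0q0) (n2 := ndN2q3) (pc := pcN3) (cut := Cut.none) (xt := Ext.none) (P1 := 0) (W1 := 536870912) (P2 := 0) (W2 := 1230186008) (P3 := 402653184) (W3 := 67108864) (N0 := 3)
    rfl (fun _ => rfl) k0_pp_033

noncomputable def f_pp_101 : ℕ → ℕ → ℕ → ℕ → Bool := onCell 536870912 536870912 536870912 536870912 402653184 67108864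
    (rowN 3 0 false true true .npn 1 0 1 (qsf 536870912 536870912 536870912 536870912 0) ndN0q1 ndN2q1 pcN0 Cut.none Ext.none)

def k0_pp_101 : ∃ t, chk3 f_pp_101 t 1 1 1 = true :=
  ⟨(a (l 3) (l 5)), by decide +kernel⟩

theorem c_pp_101 : CertN 536870912 536870912 536870912 536870912 402653184 67108864 3 false true true .npn 1 0 1
    ndN0q1 ndN2q1 pcN0 Cut.none Ext.none :=
  certN0 (fam := false) (s1 := true) (s2 := true) (a := 1) (b := 0) (c := 1) (cn := .npn) (n1 := ndN0q1) (n2 := ndN2q1) (pc := pcN0) (cut := Cut.none) (xt := Ext.none) (P1 := 536870912) (W1 := 536870912) (P2 := 536870912) (W2 := 536870912) (P3 := 402653184) (W3 := 67108864) (N0 := 3)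
    rfl k0_pp_101

noncomputable def f_pp_102 : ℕ → ℕ → ℕ → ℕ → Bool := onCell 536870912 536870912 0 536870912 402653184 67108864
    (rowN 3 1 false true true .npp 1 0 2 (qsf 536870912 536870912 1073741824 536870912 0) ndN0q1 ndN2q2 pcN0 Cut.none Ext.none)

def k0_pp_102 : ∃ t, chk3 f_pp_102 t 1 1 1 = true :=
  ⟨(l 3), by decide +kernel⟩

theorem c_pp_102 : CertN 536870912 536870912 1073741824 536870912 402653184 67108864 3 false true true .npp 1 0 2
    ndN0q1 ndN2q2 pcN0 Cut.none Ext.none :=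
  certN1 (fam := false) (s1 := true) (s2 := true) (a := 1) (b := 0) (c := 2) (cn := .npp) (n1 := ndN0q1) (n2 := ndN2q2) (pc := pcN0) (cut := Cut.none) (xt := Ext.none) (P1 := 536870912) (W1 := 536870912) (P2 := 1073741824) (W2 := 536870912) (P3 := 402653184) (W3 := 67108864) (N0 := 3)
    rfl (fun _ => rfl) k0_pp_102

noncomputable def f_pp_112 : ℕ → ℕ → ℕ → ℕ → Bool := onCell 536870912 536870912 1073741824 536870912 402653184 67108864
    (rowN 3 0 false true true .dn 1 1 2 (qsf 536870912 536870912 1073741824 536870912 1) ndN0q1 ndN2q2 pcN1 Cut.none Ext.none)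

def k0_pp_112 : ∃ t, chk3 f_pp_112 t 1 1 1 = true :=
  ⟨(a (l 3) (l 3)), by decide +kernel⟩

theorem c_pp_112 : CertN 536870912 536870912 1073741824 536870912 402653184 67108864 3 false true true .dn 1 1 2
    ndN0q1 ndN2q2 pcN1 Cut.none Ext.none :=
  certN0 (fam := false) (s1 := true) (s2 := true) (a := 1) (b := 1) (c := 2) (cn := .dn) (n1 := ndN0q1) (n2 := ndN2q2) (pc := pcN1) (cut := Cut.none) (xt := Ext.none) (P1 := 536870912) (W1 := 536870912) (P2 := 1073741824) (W2 := 536870912) (P3 := 402653184) (W3 := 67108864) (N0 := 3)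
    rfl k0_pp_112

noncomputable def cut_pp_113 : Cut := Cut.of [[⟨0, 1, 0, 67108864⟩, ⟨1, 1, 0, 67108864⟩, ⟨2, 2, 0, 16777216⟩]]

noncomputable def f_pp_113 : ℕ → ℕ → ℕ → ℕ → Bool := onCell 536870912 536870912 0 1230186008 402653184 67108864
    (rowN 3 2 false true true .nn 1 1 3 (qsf 536870912 536870912 0 1230186008 1) ndN0q1 ndN2q3 pcN1 cut_pp_113 Ext.none)

def k0_pp_113 : ∃ t, chk3 f_pp_113 t 1 1 1 = true :=
  ⟨(b (a (l 2) (a (l 2) (a (l 3) (a (l 3) (b (b (l 6) (l 3)) (l 3)))))) (a (b (l 3) (a (l 3) (l 3))) (b (a (l 3) (l 3)) (l 3)))), by decide +kernel⟩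

theorem c_pp_113 : CertN 536870912 536870912 0 1230186008 402653184 67108864 3 false true true .nn 1 1 3
    ndN0q1 ndN2q3 pcN1 cut_pp_113 Ext.none :=
  certN2 (fam := false) (s1 := true) (s2 := true) (a := 1) (b := 1) (c := 3) (cn := .nn) (n1 := ndN0q1) (n2 := ndN2q3) (pc := pcN1) (cut := cut_pp_113) (xt := Ext.none) (P1 := 536870912) (W1 := 536870912) (P2 := 0) (W2 := 1230186008) (P3 := 402653184) (W3 := 67108864) (N0 := 3)
    rfl (fun _ => rfl) k0_pp_113

noncomputable def cut_pp_123 : Cut := Cut.of [[⟨0, 1, 0, 67108864⟩, ⟨1, 1, 0, 67108864⟩, ⟨2, 2, 0, 16777216⟩]]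

noncomputable def f_pp_123 : ℕ → ℕ → ℕ → ℕ → Bool := onCell 1073741824 536870912 0 1230186008 402653184 67108864
    (rowN 3 2 false true true .npn 1 2 3 (qsf 536870912 536870912 0 1230186008 2) ndN0q1 ndN2q3 pcN2 cut_pp_123 Ext.none)

def k0_pp_123 : ∃ t, chk3 f_pp_123 t 1 2 1 = true :=
  ⟨(b (a (b (a (a (a (l 6) (l 16779936)) (l 16863360)) (a (l 17014112) (l 16838592))) (a (b (a (a (l 6) (l 16789088)) (l 16786528)) (a (a (a (a (l 3) (a (b (l 281488200855) (l 294373112903)) (l 16821256))) (l 16843224)) (l 16800152)) (l 16797312))) (a (a (l 16799064) (l 16804160)) (l 16836576)))) (a (a (l 16891928) (l 16953400)) (a (l 17008712) (l 17044304)))) (a (a (a (a (b (a (a (l 3) (a (l 3) (b (l 290615041143) (l 3)))) (a (b (l 16835728) (l 16877552)) (l 16908600))) (a (l 3) (b (a (l 283635846279) (l 16859000)) (l 274509049015)))) (b (l 16886888) (b (l 16877816) (l 16969864)))) (b (l 16968264) (l 17120552))) (a (a (a (l 16842168) (l 17092248)) (l 16841392)) (b (l 16845152) (l 16868928))))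 (a (a (l 16901616) (l 16956592)) (a (b (l 17013216) (l 17017696)) (b (l 17065600) (l 17079952)))))), by decide +kernel⟩

def k1_pp_123 : ∃ t, chk3 f_pp_123 t 1 3 1 = true :=
  ⟨(b (a (a (a (b (a (a (l 3) (b (l 315848098535) (a (l 3) (l 257866238567)))) (a (b (l 16919088) (l 16953960)) (l 17043512))) (a (b (b (l 3) (l 3)) (l 3)) (b (a (l 17012160) (l 17000128)) (a (l 17075304) (l 17050592))))) (b (a (l 16960632) (l 16934896)) (b (l 17212408) (a (l 17056920) (l 17041960))))) (a (b (a (a (l 16927744) (l 16921568)) (l 16914976)) (a (a (l 17006400) (l 16994416)) (l 16981680))) (b (l 16910952) (l 17006072)))) (a (a (b (l 17015168) (b (l 16951752) (l 16965192))) (b (l 16974944) (b (l 16982640) (l 1)))) (a (b (l 17025216) (l 1)) (l 1)))) (a (a (b (a (a (l 3) (b (a (l 246592310471) (l 17108656)) (a (l 200958532295) (l 17192144)))) (a (b (a (l 17113336) (l 17104600)) (a (l 17160608) (l 17146880))) (b (l 17085480) (l 17117736)))) (a (a (l 3) (a (b (a (l 3) (l 215990917495)) (l 3)) (b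 (b (l 17200992) (l 17208704)) (b (l 17199376) (l 1))))) (b (a (b (l 17175216) (a (l 17185568) (l 17158192))) (b (l 17123456) (l 17110760))) (a (b (a (l 17148752) (l 1)) (l 1)) (l 1))))) (b (a (a (b (l 17052392) (l 17070424)) (b (l 17021728) (l 17028688))) (b (l 16990720) (l 1))) (b (a (a (a (l 17114072) (l 1)) (l 1)) (l 1)) (l 1)))) (l 1))), by decide +kernel⟩

theorem s2_pp_123 : ∃ t, chk3 f_pp_123 t 1 1 1 = true := ex3_b k0_pp_123 k1_pp_123

theorem c_pp_123 : CertN 536870912 536870912 0 1230186008 402653184 67108864 3 false true true .npn 1 2 3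
    ndN0q1 ndN2q3 pcN2 cut_pp_123 Ext.none :=
  certN2 (fam := false) (s1 := true) (s2 := true) (a := 1) (b := 2) (c := 3) (cn := .npn) (n1 := ndN0q1) (n2 := ndN2q3) (pc := pcN2) (cut := cut_pp_123) (xt := Ext.none) (P1 := 536870912) (W1 := 536870912) (P2 := 0) (W2 := 1230186008) (P3 := 402653184) (W3 := 67108864) (N0 := 3)
    rfl (fun _ => rfl) s2_pp_123

noncomputable def f_pp_133 : ℕ → ℕ → ℕ → ℕ → Bool := onCell 536870912 536870912 0 1230186008 402653184 67108864
    (rowN 3 0 false true true .dn 1 3 3 (qsf 536870912 536870912 0 1230186008 3) ndN0q1 ndN2q3 pcN3 Cut.none Ext.none)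

def k0_pp_133 : ∃ t, chk3 f_pp_133 t 1 1 1 = true :=
  ⟨(b (b (a (a (a (l 17054432) (l 1)) (l 1)) (l 1)) (l 1)) (l 1)), by decide +kernel⟩

theorem c_pp_133 : CertN 536870912 536870912 0 1230186008 402653184 67108864 3 false true true .dn 1 3 3
    ndN0q1 ndN2q3 pcN3 Cut.none Ext.none :=
  certN0 (fam := false) (s1 := true) (s2 := true) (a := 1) (b := 3) (c := 3) (cn := .dn) (n1 := ndN0q1) (n2 := ndN2q3) (pc := pcN3) (cut := Cut.none) (xt := Ext.none) (P1 := 536870912) (W1 := 536870912) (P2 := 0) (W2 := 1230186008) (P3 := 402653184) (W3 := 67108864) (N0 := 3)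
    rfl k0_pp_133

noncomputable def f_pp_202 : ℕ → ℕ → ℕ → ℕ → Bool := onCell 0 536870912 1073741824 536870912 402653184 67108864
    (rowN 3 0 false true true .pp 2 0 2 (qsf 0 536870912 1073741824 536870912 0) ndN0q2 ndN2q2 pcN0 Cut.none Ext.none)

def k0_pp_202 : ∃ t, chk3 f_pp_202 t 1 1 1 = true :=
  ⟨(l 3), by decide +kernel⟩

theorem c_pp_202 : CertN 0 536870912 1073741824 536870912 402653184 67108864 3 false true true .pp 2 0 2
    ndN0q2 ndN2q2 pcN0 Cut.none Ext.none :=
  certN0 (fam := false) (s1 := true) (s2 := true) (a := 2) (b := 0) (c := 2) (cn := .pp) (n1 := ndN0q2) (n2 := ndN2q2) (pc := pcN0) (cut := Cut.none) (xt := Ext.none) (P1 := 0) (W1 := 536870912) (P2 := 1073741824) (W2 := 536870912) (P3 := 402653184) (W3 := 67108864) (N0 := 3)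
    rfl k0_pp_202

noncomputable def f_pp_203 : ℕ → ℕ → ℕ → ℕ → Bool := onCell 0 536870912 0 1230186008 402653184 67108864
    (rowN 3 0 false true true .up 2 0 3 (qsf 0 536870912 0 1230186008 0) ndN0q2 ndN2q3 pcN0 Cut.none Ext.none)

def k0_pp_203 : ∃ t, chk3 f_pp_203 t 1 1 1 = true :=
  ⟨(b (l 2) (l 3)), by decide +kernel⟩

theorem c_pp_203 : CertN 0 536870912 0 1230186008 402653184 67108864 3 false true true .up 2 0 3
    ndN0q2 ndN2q3 pcN0 Cut.none Ext.none :=
  certN0 (fam := false) (s1 := true) (s2 := true) (a := 2) (b := 0) (c := 3) (cn := .up) (n1 := ndN0q2) (n2 := ndN2q3) (pc := pcN0) (cut := Cut.none) (xt := Ext.none) (P1 := 0) (W1 := 536870912) (P2 := 0) (W2 := 1230186008) (P3 := 402653184) (W3 := 67108864) (N0 := 3)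
    rfl k0_pp_203

noncomputable def cut_pp_213 : Cut := Cut.of [[⟨0, 1, 0, 67108864⟩, ⟨1, 1, 0, 67108864⟩, ⟨2, 2, 0, 16777216⟩]]

noncomputable def f_pp_213 : ℕ → ℕ → ℕ → ℕ → Bool := onCell 0 536870912 0 1230186008 402653184 67108864
    (rowN 3 0 false true true .pnn 2 1 3 (qsf 0 536870912 0 1230186008 1) ndN0q2 ndN2q3 pcN1 cut_pp_213 Ext.none)

def k0_pp_213 : ∃ t, chk3 f_pp_213 t 1 1 1 = true :=
  ⟨(b (a (l 3) (b (a (l 3) (a (l 3) (b (l 6) (l 3)))) (l 3))) (l 3)), by decide +kernel⟩

theorem c_pp_213 : CertN 0 536870912 0 1230186008 402653184 67108864 3 false true true .pnn 2 1 3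
    ndN0q2 ndN2q3 pcN1 cut_pp_213 Ext.none :=
  certN0 (fam := false) (s1 := true) (s2 := true) (a := 2) (b := 1) (c := 3) (cn := .pnn) (n1 := ndN0q2) (n2 := ndN2q3) (pc := pcN1) (cut := cut_pp_213) (xt := Ext.none) (P1 := 0) (W1 := 536870912) (P2 := 0) (W2 := 1230186008) (P3 := 402653184) (W3 := 67108864) (N0 := 3)
    rfl k0_pp_213

noncomputable def f_pm_001 : ℕ → ℕ → ℕ → ℕ → Bool := onCell 0 536870912 536870912 536870912 402653184 67108864
    (rowN 3 0 false true false .up 0 0 1 (qsf 0 536870912 536870912 536870912 0) ndN0q0 ndN2q1 pcN0 Cut.none Ext.none)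

def k0_pm_001 : ∃ t, chk3 f_pm_001 t 1 1 1 = true :=
  ⟨(l 4), by decide +kernel⟩

theorem c_pm_001 : CertN 0 536870912 536870912 536870912 402653184 67108864 3 false true false .up 0 0 1
    ndN0q0 ndN2q1 pcN0 Cut.none Ext.none :=
  certN0 (fam := false) (s1 := true) (s2 := false) (a := 0) (b := 0) (c := 1) (cn := .up) (n1 := ndN0q0) (n2 := ndN2q1) (pc := pcN0) (cut := Cut.none) (xt := Ext.none) (P1 := 0) (W1 := 536870912) (P2 := 536870912) (W2 := 536870912) (P3 := 402653184) (W3 := 67108864) (N0 := 3)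
    rfl k0_pm_001

noncomputable def f_pm_011 : ℕ → ℕ → ℕ → ℕ → Bool := onCell 0 536870912 536870912 536870912 402653184 67108864
    (rowN 3 0 false true false .pnn 0 1 1 (qsf 0 536870912 536870912 536870912 1) ndN0q0 ndN2q1 pcN1 Cut.none Ext.none)

def k0_pm_011 : ∃ t, chk3 f_pm_011 t 1 1 1 = true :=
  ⟨(l 4), by decide +kernel⟩

theorem c_pm_011 : CertN 0 536870912 536870912 536870912 402653184 67108864 3 false true false .pnn 0 1 1
    ndN0q0 ndN2q1 pcN1 Cut.none Ext.none :=
  certN0 (fam := false) (s1 := true) (s2 := false) (a := 0) (b := 1) (c := 1) (cn := .pnn) (n1 := ndN0q0) (n2 := ndN2q1) (pc := pcN1) (cut := Cut.none) (xt := Ext.none) (P1 := 0) (W1 := 536870912) (P2 := 536870912) (W2 := 536870912) (P3 := 402653184) (W3 := 67108864) (N0 := 3)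
    rfl k0_pm_011

noncomputable def f_pm_012 : ℕ → ℕ → ℕ → ℕ → Bool := onCell 0 536870912 1073741824 536870912 402653184 67108864
    (rowN 3 0 false true false .pnp 0 1 2 (qsf 0 536870912 1073741824 536870912 1) ndN0q0 ndN2q2 pcN1 Cut.none Ext.none)

def k0_pm_012 : ∃ t, chk3 f_pm_012 t 1 1 1 = true :=
  ⟨(a (b (l 4) (l 4)) (b (a (b (a (a (l 4) (b (b (b (l 16538080) (l 16509096)) (a (l 4) (l 16430344))) (l 4))) (b (a (b (a (l 16436400) (l 16427544)) (l 16487296)) (b (l 16448352) (l 16405248))) (a (b (a (l 16408456) (l 16409136)) (a (l 16381872) (l 16390064))) (b (l 16397680) (l 16384640))))) (a (l 4) (b (b (a (a (l 4) (l 16363752)) (l 16366952)) (a (l 4) (l 16343776))) (a (l 4) (b (a (l 16313008) (l 16320864)) (l 16336872)))))) (b (b (a (a (b (l 16375424) (l 16380480)) (b (l 16350024) (l 16360672))) (a (b (l 16330912) (l 16346432)) (b (l 16438512) (l 16424032)))) (a (a (l 16460328) (l 16364936)) (a (l 16358136) (b (l 16420280) (l 16423960))))) (a (b (a (l 16374664) (l 16353656))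 (a (b (l 16326424) (l 16304328)) (l 16328096))) (b (a (b (l 16357984) (l 16354624)) (b (l 16435256) (l 16453312))) (a (l 16347824) (l 16490520)))))) (b (a (a (l 4) (b (a (l 4) (b (l 16241832) (l 4))) (l 4))) (b (a (a (b (l 16278760) (l 16247608)) (b (l 16303216) (l 16284440))) (a (l 16381272) (b (l 16540984) (l 16580192)))) (a (b (a (l 16215240) (l 16261464)) (a (l 16191248) (l 16254112))) (b (a (l 16436168) (l 16615752)) (a (l 16480232) (l 16659088)))))) (a (l 4) (b (a (b (a (l 16179640) (l 16312952)) (a (l 16170632) (l 16378112))) (a (b (l 16535488) (l 16596544)) (b (l 16710312) (l 16766672)))) (a (b (l 16229216) (l 2)) (b (a (l 16658840) (l 16826064)) (a (l 16654032) (l 16833368))))))))), by decide +kernel⟩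

theorem c_pm_012 : CertN 0 536870912 1073741824 536870912 402653184 67108864 3 false true false .pnp 0 1 2
    ndN0q0 ndN2q2 pcN1 Cut.none Ext.none :=
  certN0 (fam := false) (s1 := true) (s2 := false) (a := 0) (b := 1) (c := 2) (cn := .pnp) (n1 := ndN0q0) (n2 := ndN2q2) (pc := pcN1) (cut := Cut.none) (xt := Ext.none) (P1 := 0) (W1 := 536870912) (P2 := 1073741824) (W2 := 536870912) (P3 := 402653184) (W3 := 67108864) (N0 := 3)
    rfl k0_pm_012

noncomputable def f_pm_022 : ℕ → ℕ → ℕ → ℕ → Bool := onCell 1073741824 536870912 1073741824 536870912 402653184 67108864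
    (rowN 3 2 false true false .pp 0 2 2 (qsf 0 536870912 1073741824 536870912 2) ndN0q0 ndN2q2 pcN2 Cut.none Ext.none)

def k0_pm_022 : ∃ t, chk3 f_pm_022 t 1 1 1 = true :=
  ⟨(a (b (l 4) (b (l 4) (a (b (a (a (a (l 26540438023) (l 16183688)) (l 23856143719)) (l 4)) (a (b (a (l 16622648) (l 16540224)) (a (l 16798912) (l 16723848))) (b (a (l 16458160) (l 4)) (a (l 16656584) (l 16590096))))) (l 4)))) (l 4)), by decide +kernel⟩

theorem c_pm_022 : CertN 0 536870912 1073741824 536870912 402653184 67108864 3 false true false .pp 0 2 2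
    ndN0q0 ndN2q2 pcN2 Cut.none Ext.none :=
  certN2 (fam := false) (s1 := true) (s2 := false) (a := 0) (b := 2) (c := 2) (cn := .pp) (n1 := ndN0q0) (n2 := ndN2q2) (pc := pcN2) (cut := Cut.none) (xt := Ext.none) (P1 := 0) (W1 := 536870912) (P2 := 1073741824) (W2 := 536870912) (P3 := 402653184) (W3 := 67108864) (N0 := 3)
    rfl (fun _ => rfl) k0_pm_022

noncomputable def f_pm_023 : ℕ → ℕ → ℕ → ℕ → Bool := onCell 0 536870912 0 1230186008 402653184 67108864
    (rowN 3 0 false true false .up 0 2 3 (qsf 0 536870912 0 1230186008 2) ndN0q0 ndN2q3 pcN2 Cut.none Ext.none)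

def k0_pm_023 : ∃ t, chk3 f_pm_023 t 1 1 1 = true :=
  ⟨(a (b (l 2) (l 4)) (b (a (l 2) (b (a (l 2) (l 17062392)) (a (b (l 17079168) (l 17107776)) (l 17103312)))) (b (b (a (l 4) (a (l 17135864) (l 17144648))) (a (l 4) (a (l 17142976) (l 17153384)))) (a (l 4) (a (b (b (l 17105160) (l 17033224)) (b (l 16890504) (b (l 16706752) (l 16527056)))) (b (b (l 17118448) (l 17050440)) (b (l 16913928) (b (l 16737928) (a (l 16551264) (l 16585160)))))))))), by decide +kernel⟩

theorem c_pm_023 : CertN 0 536870912 0 1230186008 402653184 67108864 3 false true false .up 0 2 3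
    ndN0q0 ndN2q3 pcN2 Cut.none Ext.none :=
  certN0 (fam := false) (s1 := true) (s2 := false) (a := 0) (b := 2) (c := 3) (cn := .up) (n1 := ndN0q0) (n2 := ndN2q3) (pc := pcN2) (cut := Cut.none) (xt := Ext.none) (P1 := 0) (W1 := 536870912) (P2 := 0) (W2 := 1230186008) (P3 := 402653184) (W3 := 67108864) (N0 := 3)
    rfl k0_pm_023

noncomputable def f_pm_033 : ℕ → ℕ → ℕ → ℕ → Bool := onCell 1610612736 536870912 0 1230186008 402653184 67108864
    (rowN 3 2 false true false .pnn 0 3 3 (qsf 0 536870912 0 1230186008 3) ndN0q0 ndN2q3 pcN3 Cut.none Ext.none)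

def k0_pm_033 : ∃ t, chk3 f_pm_033 t 1 1 1 = true :=
  ⟨(b (a (a (b (a (l 17072840) (l 17057848)) (a (l 17143160) (l 17085016))) (b (a (l 17041056) (l 4)) (l 4))) (l 4)) (a (b (a (b (a (l 17119304) (l 4)) (l 4)) (l 4)) (l 4)) (l 4))), by decide +kernel⟩

theorem c_pm_033 : CertN 0 536870912 0 1230186008 402653184 67108864 3 false true false .pnn 0 3 3
    ndN0q0 ndN2q3 pcN3 Cut.none Ext.none :=
  certN2 (fam := false) (s1 := true) (s2 := false) (a := 0) (b := 3) (c := 3) (cn := .pnn) (n1 := ndN0q0) (n2 := ndN2q3) (pc := pcN3) (cut := Cut.none) (xt := Ext.none) (P1 := 0) (W1 := 536870912) (P2 := 0) (W2 := 1230186008) (P3 := 402653184) (W3 := 67108864) (N0 := 3)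
    rfl (fun _ => rfl) k0_pm_033

noncomputable def f_pm_101 : ℕ → ℕ → ℕ → ℕ → Bool := onCell 536870912 536870912 536870912 536870912 402653184 67108864
    (rowN 3 0 false true false .npn 1 0 1 (qsf 536870912 536870912 536870912 536870912 0) ndN0q1 ndN2q1 pcN0 Cut.none Ext.none)

def k0_pm_101 : ∃ t, chk3 f_pm_101 t 1 1 1 = true :=
  ⟨(l 4), by decide +kernel⟩

theorem c_pm_101 : CertN 536870912 536870912 536870912 536870912 402653184 67108864 3 false true false .npn 1 0 1
    ndN0q1 ndN2q1 pcN0 Cut.none Ext.none :=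
  certN0 (fam := false) (s1 := true) (s2 := false) (a := 1) (b := 0) (c := 1) (cn := .npn) (n1 := ndN0q1) (n2 := ndN2q1) (pc := pcN0) (cut := Cut.none) (xt := Ext.none) (P1 := 536870912) (W1 := 536870912) (P2 := 536870912) (W2 := 536870912) (P3 := 402653184) (W3 := 67108864) (N0 := 3)
    rfl k0_pm_101

noncomputable def f_pm_102 : ℕ → ℕ → ℕ → ℕ → Bool := onCell 536870912 536870912 1073741824 536870912 402653184 67108864
    (rowN 3 0 false true false .npp 1 0 2 (qsf 536870912 536870912 1073741824 536870912 0) ndN0q1 ndN2q2 pcN0 Cut.none Ext.none)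

def k0_pm_102 : ∃ t, chk3 f_pm_102 t 1 1 1 = true :=
  ⟨(a (b (a (b (a (b (a (b (a (l 16741848) (l 16765928)) (a (l 2) (l 16751632))) (b (b (l 16810880) (l 16806536)) (l 16801416))) (a (l 2) (l 16804760))) (b (a (b (l 16870104) (l 16855776)) (b (l 16918920) (l 16898128))) (a (l 16849872) (l 16882664)))) (b (a (l 2) (a (l 2) (l 16879544))) (l 2))) (b (b (a (a (l 17045568) (l 16964920)) (b (l 17006664) (l 16966992))) (a (a (l 16904216) (l 16916896)) (b (l 16935880) (l 16910400)))) (a (b (b (l 16893528) (l 16881024)) (b (l 16863840) (l 2))) (b (b (l 16887576) (l 16869488)) (l 16856224))))) (a (l 2) (b (b (a (l 2) (l 16864488)) (l 2)) (l 2)))) (b (a (b (b (a (b (l 17008360) (l 16962472)) (b (l 16977600) (l 16930256))) (a (b (l 16924536) (l 16893488)) (b (l 16890632) (l 16869008)))) (a (b (l 16872424) (l 16889384)) (b (l 16882752) (l 16937232)))) (b (b (b (a (l 17123096) (a (l 16847112) (l 16792528))) (a (l 16869392) (a (l 16815544) (l 16766640)))) (a (b (l 16907944) (l 16864424))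 (a (l 16806352) (l 16738680)))) (a (b (l 16865784) (l 16841296)) (b (a (l 16764072) (l 16748576)) (a (l 16712688) (l 16619616)))))) (a (b (b (l 17166448) (l 17164056)) (b (l 16960608) (l 2))) (b (a (b (l 16805120) (l 16774520)) (b (a (l 16649056) (l 16564936)) (a (l 16591968) (l 16527248)))) (a (b (a (l 16816504) (l 16733280)) (b (l 16814336) (l 2))) (b (a (l 16644000) (l 16533816)) (b (a (l 16736888) (l 16661040)) (a (l 16828040) (l 16785488))))))))), by decide +kernel⟩

theorem c_pm_102 : CertN 536870912 536870912 1073741824 536870912 402653184 67108864 3 false true false .npp 1 0 2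
    ndN0q1 ndN2q2 pcN0 Cut.none Ext.none :=
  certN0 (fam := false) (s1 := true) (s2 := false) (a := 1) (b := 0) (c := 2) (cn := .npp) (n1 := ndN0q1) (n2 := ndN2q2) (pc := pcN0) (cut := Cut.none) (xt := Ext.none) (P1 := 536870912) (W1 := 536870912) (P2 := 1073741824) (W2 := 536870912) (P3 := 402653184) (W3 := 67108864) (N0 := 3)
    rfl k0_pm_102

noncomputable def f_pm_112 : ℕ → ℕ → ℕ → ℕ → Bool := onCell 536870912 536870912 536870912 536870912 402653184 67108864
    (rowN 3 1 false true false .dn 1 1 2 (qsf 536870912 536870912 1073741824 536870912 1) ndN0q1 ndN2q2 pcN1 Cut.none Ext.none)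

def k0_pm_112 : ∃ t, chk3 f_pm_112 t 2 1 1 = true :=
  ⟨(b (a (b (b (b (a (a (a (b (l 16499288) (l 16496968)) (b (l 16541704) (l 16542936))) (b (l 16630480) (l 16623128))) (a (l 16829320) (l 16802896))) (a (a (l 16521832) (l 16627424)) (l 16777384))) (a (b (a (l 16532568) (l 16647808)) (l 16612360)) (b (l 16805024) (l 16834888)))) (b (a (b (l 16637704) (a (l 16596576) (l 16733856))) (a (b (l 16816872) (l 16849768)) (l 16924144))) (a (a (l 16644216) (l 16789288)) (a (b (l 16882840) (l 16917392)) (l 16986528))))) (b (b (a (a (b (a (l 16849616) (l 16876304)) (l 16904440)) (b (l 16909952) (l 16968920))) (b (l 16966784) (l 17033192))) (a (b (l 16962536) (l 16985328)) (b (l 17049984) (l 17068152)))) (a (b (b (l 17176144) (l 17033832)) (a (l 17052688) (l 17101768))) (b (a (l 17082920) (l 17114312)) (a (l 17133096) (l 17152008)))))) (a (b (a (b (a (b (l 16701784) (a (l 16701832) (l 16781488))) (b (l 16844208) (l 16885968))) (a (b (l 16781248) (l 16825576)) (b (l 16928072) (l 16972688))))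 (b (a (b (l 16955656) (l 16999000)) (l 17062976)) (a (l 17059360) (b (l 17121240) (l 17148568))))) (a (b (a (b (l 16874736) (l 16927448)) (b (l 17020200) (a (l 17033776) (l 17078600)))) (a (b (a (l 16934584) (l 16997320)) (l 16959024)) (b (l 17056632) (l 17047408)))) (b (a (b (l 17112872) (l 17119208)) (l 30703567447)) (l 17144296)))) (b (a (b (a (l 17123528) (b (l 17149184) (l 17173992))) (a (b (l 17168048) (l 17175560)) (l 17181632))) (b (b (l 17163200) (l 17272944)) (l 17174704))) (a (b (l 17191304) (l 2)) (l 2))))), by decide +kernel⟩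

def k1_pm_112 : ∃ t, chk3 f_pm_112 t 3 1 1 = true :=
  ⟨(b (b (a (b (a (b (l 17047624) (l 17099128)) (a (l 17197056) (l 17049168))) (a (a (l 17107168) (l 17164376)) (a (l 17213120) (l 17006432)))) (b (a (a (l 16998200) (b (l 16759544) (a (l 16799840) (l 16817560)))) (a (b (l 16982608) (l 16873784)) (b (l 16847008) (l 16959944)))) (a (a (l 17165592) (l 16931888)) (l 344772567719)))) (a (a (b (a (l 17147232) (l 17198184)) (a (l 17156032) (l 17150520))) (b (a (l 17169520) (l 17043472)) (l 17157680))) (a (b (l 316318652023) (l 2)) (l 2)))) (b (a (a (b (l 17132816) (l 2)) (l 2)) (l 2)) (l 2))), by decide +kernel⟩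

theorem s2_pm_112 : ∃ t, chk3 f_pm_112 t 1 1 1 = true := ex3_a k0_pm_112 k1_pm_112

theorem c_pm_112 : CertN 536870912 536870912 1073741824 536870912 402653184 67108864 3 false true false .dn 1 1 2
    ndN0q1 ndN2q2 pcN1 Cut.none Ext.none :=
  certN1 (fam := false) (s1 := true) (s2 := false) (a := 1) (b := 1) (c := 2) (cn := .dn) (n1 := ndN0q1) (n2 := ndN2q2) (pc := pcN1) (cut := Cut.none) (xt := Ext.none) (P1 := 536870912) (W1 := 536870912) (P2 := 1073741824) (W2 := 536870912) (P3 := 402653184) (W3 := 67108864) (N0 := 3)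
    rfl (fun _ => rfl) s2_pm_112

noncomputable def cut_pm_113 : Cut := Cut.of [[⟨0, 1, 0, 67108864⟩, ⟨1, 1, 0, 67108864⟩, ⟨2, 2, 0, 16777216⟩]]

noncomputable def f_pm_113 : ℕ → ℕ → ℕ → ℕ → Bool := onCell 536870912 536870912 0 1230186008 402653184 67108864
    (rowN 3 0 false true false .nn 1 1 3 (qsf 536870912 536870912 0 1230186008 1) ndN0q1 ndN2q3 pcN1 cut_pm_113 Ext.none)

def k0_pm_113 : ∃ t, chk3 f_pm_113 t 1 1 1 = true :=
  ⟨(b (a (l 2) (a (l 2) (b (a (l 2) (a (l 2) (b (l 6) (b (l 6) (l 16853656))))) (a (b (l 277126437015) (l 16959136)) (b (a (l 16863512) (a (l 16842264) (l 16874712))) (a (l 16904352) (l 17052768))))))) (b (a (b (l 2) (a (l 2) (a (l 2) (l 17421360)))) (a (b (a (l 2) (l 17214440)) (a (b (l 17197992) (l 17181240)) (b (l 17087712) (l 17084984)))) (b (a (l 17057288) (a (l 16959400) (l 17053584))) (a (l 17161456) (a (l 17025672) (l 17151168)))))) (a (a (b (l 2) (a (b (l 2) (a (l 16634552) (l 16816960))) (b (l 17046824) (a (l 16946160) (l 17033432)))))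 (b (a (b (l 17265552) (l 17204512)) (b (l 17238064) (l 17199120))) (a (b (l 17151928) (l 17107392)) (b (l 17162384) (l 17129352))))) (b (a (a (b (l 17160272) (l 17139176)) (b (l 17080856) (l 17076184))) (a (l 17249440) (b (l 17089480) (l 17145064)))) (a (a (b (l 17119248) (l 17099992)) (b (l 17071848) (l 17069664))) (a (a (a (l 17191064) (a (l 17131152) (l 17145992))) (l 17171088)) (b (l 17185264) (l 17346216)))))))), by decide +kernel⟩

theorem c_pm_113 : CertN 536870912 536870912 0 1230186008 402653184 67108864 3 false true false .nn 1 1 3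
    ndN0q1 ndN2q3 pcN1 cut_pm_113 Ext.none :=
  certN0 (fam := false) (s1 := true) (s2 := false) (a := 1) (b := 1) (c := 3) (cn := .nn) (n1 := ndN0q1) (n2 := ndN2q3) (pc := pcN1) (cut := cut_pm_113) (xt := Ext.none) (P1 := 536870912) (W1 := 536870912) (P2 := 0) (W2 := 1230186008) (P3 := 402653184) (W3 := 67108864) (N0 := 3)
    rfl k0_pm_113

noncomputable def cut_pm_123 : Cut := Cut.of [[⟨0, 1, 0, 67108864⟩, ⟨1, 1, 0, 67108864⟩, ⟨2, 2, 0, 16777216⟩]]

noncomputable def f_pm_123 : ℕ → ℕ → ℕ → ℕ → Bool := onCell 536870912 536870912 0 1230186008 402653184 67108864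
    (rowN 3 0 false true false .npn 1 2 3 (qsf 536870912 536870912 0 1230186008 2) ndN0q1 ndN2q3 pcN2 cut_pm_123 Ext.none)

def k0_pm_123 : ∃ t, chk3 f_pm_123 t 1 1 1 = true :=
  ⟨(b (b (a (a (a (l 17047944) (l 17016264)) (a (l 16975144) (l 16916384))) (a (a (l 16860656) (l 16818384)) (a (b (l 16950352) (a (l 16813552) (l 16805472))) (a (a (l 16855336) (l 16855168)) (b (l 6) (a (l 16801224) (l 777422741575))))))) (a (a (a (l 17089448) (l 17065864)) (a (b (l 17013040) (l 17056528)) (b (l 16972120) (l 17026480)))) (a (a (l 16959352) (l 16929640)) (a (b (l 16865680) (l 16958496)) (b (a (l 16853968) (l 698503051831)) (a (l 578780713719) (l 1))))))) (b (a (a (b (a (l 17136536) (l 17123936)) (a (l 17154840) (l 17160376))) (b (a (l 17111656) (l 17102344)) (a (l 17174112) (l 17198384)))) (a (b (a (l 17096280) (l 17095440)) (a (l 17229360) (l 306051428631))) (a (b (l 428457422071) (l 1)) (l 1)))) (a (a (b (a (b (l 17134224) (l 17081952)) (b (l 17164272) (l 17138528))) (b (a (b (l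 17006232) (l 16929296)) (l 131031140919)) (a (b (l 16823312) (a (l 16644816) (l 16658672))) (b (l 395708029271) (l 1))))) (b (a (b (l 17212832) (l 17223792)) (b (l 17280664) (l 1))) (a (b (l 412351771447) (l 1)) (l 1)))) (l 1)))), by decide +kernel⟩

theorem c_pm_123 : CertN 536870912 536870912 0 1230186008 402653184 67108864 3 false true false .npn 1 2 3
    ndN0q1 ndN2q3 pcN2 cut_pm_123 Ext.none :=
  certN0 (fam := false) (s1 := true) (s2 := false) (a := 1) (b := 2) (c := 3) (cn := .npn) (n1 := ndN0q1) (n2 := ndN2q3) (pc := pcN2) (cut := cut_pm_123) (xt := Ext.none) (P1 := 536870912) (W1 := 536870912) (P2 := 0) (W2 := 1230186008) (P3 := 402653184) (W3 := 67108864) (N0 := 3)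
    rfl k0_pm_123

noncomputable def f_pm_133 : ℕ → ℕ → ℕ → ℕ → Bool := onCell 536870912 536870912 0 1230186008 402653184 67108864
    (rowN 3 0 false true false .dn 1 3 3 (qsf 536870912 536870912 0 1230186008 3) ndN0q1 ndN2q3 pcN3 Cut.none Ext.none)

def k0_pm_133 : ∃ t, chk3 f_pm_133 t 1 1 1 = true :=
  ⟨(b (b (a (a (a (l 17056456) (l 1)) (l 1)) (l 1)) (l 1)) (l 1)), by decide +kernel⟩

theorem c_pm_133 : CertN 536870912 536870912 0 1230186008 402653184 67108864 3 false true false .dn 1 3 3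
    ndN0q1 ndN2q3 pcN3 Cut.none Ext.none :=
  certN0 (fam := false) (s1 := true) (s2 := false) (a := 1) (b := 3) (c := 3) (cn := .dn) (n1 := ndN0q1) (n2 := ndN2q3) (pc := pcN3) (cut := Cut.none) (xt := Ext.none) (P1 := 536870912) (W1 := 536870912) (P2 := 0) (W2 := 1230186008) (P3 := 402653184) (W3 := 67108864) (N0 := 3)
    rfl k0_pm_133

noncomputable def f_pm_202 : ℕ → ℕ → ℕ → ℕ → Bool := onCell 0 536870912 1073741824 536870912 402653184 67108864
    (rowN 3 0 false true false .pp 2 0 2 (qsf 0 536870912 1073741824 536870912 0) ndN0q2 ndN2q2 pcN0 Cut.none Ext.none)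

def k0_pm_202 : ∃ t, chk3 f_pm_202 t 2 1 1 = true :=
  ⟨(l 3), by decide +kernel⟩

def k1_pm_202 : ∃ t, chk3 f_pm_202 t 3 4 1 = true :=
  ⟨(a (b (l 1) (a (l 3) (b (a (l 3) (a (a (l 3) (a (l 3) (a (b (l 1) (l 3)) (b (b (l 1) (b (l 1) (b (l 1) (c (l 16644600) (l 16640608))))) (b (b (c (b (l 140290817703) (l 134385236551)) (b (l 140290801479) (l 134385220919))) (a (l 3) (l 154249447399))) (b (l 139753931191) (l 3))))))) (b (b (l 1) (a (l 16643456) (l 16645680))) (a (a (a (b (b (c (l 16643152) (l 16634064)) (c (l 16640936) (l 16631784))) (c (l 94656780999) (l 92509287959))) (b (b (l 16639400) (l 16636712)) (l 16633544))) (b (b (l 16639800) (l 16658584)) (l 16633864))) (b (a (l 16661360) (l 16640360)) (b (l 16635888) (l 16633240))))))) (a (l 3) (a (l 3) (b (a (a (b (a (l 150491348631) (l 16629312)) (l 152638833015)) (b (l 16629544) (l 16625240))) (b (l 16629984) (l 16625480))) (a (b (a (l 144048892167) (l 16620944)) (l 154249401655)) (l 16618752)))))))) (b (a (b (l 1) (b (a (l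 1) (b (l 16700368) (l 16691696))) (a (l 525630014103) (l 16679000)))) (b (a (l 16768432) (l 16749120)) (a (l 16697224) (l 16721616)))) (a (b (a (a (b (l 16652184) (b (l 16642768) (l 16722000))) (l 16649712)) (l 16654840)) (a (a (b (a (l 16648992) (l 16629208)) (l 16618688)) (b (b (l 16633392) (l 16627616)) (l 16618472))) (b (l 16632536) (l 16619440)))) (a (l 16665352) (l 16684256))))), by decide +kernel⟩

def k2_pm_202 : ∃ t, chk3 f_pm_202 t 3 5 1 = true :=
  ⟨(a (a (l 3) (a (l 3) (a (l 3) (b (b (a (a (l 3) (b (l 156933781463) (l 144048854871))) (b (l 16609784) (l 107541644487))) (a (l 3) (b (l 165523682391) (l 158007467047)))) (b (b (l 147269989639) (l 144585614183)) (l 3)))))) (a (b (a (a (b (b (l 16608896) (l 16599072)) (a (l 16616592) (l 16583120))) (b (l 16602200) (l 16580096))) (b (l 16661544) (l 16573592))) (a (b (a (b (l 16568808) (l 16558192)) (l 16557208)) (a (b (l 168744822615) (l 165523570423)) (l 16532576))) (b (l 16546984) (l 16518384)))) (b (b (a (l 16596296)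 (l 16640576)) (a (l 16563712) (l 16607824))) (a (l 16561568) (l 16559296))))), by decide +kernel⟩

def k3_pm_202 : ∃ t, chk3 f_pm_202 t 3 3 1 = true :=
  ⟨(b (a (b (l 3) (l 3)) (b (a (a (a (b (a (l 154249213127) (l 138143065415)) (a (l 3) (l 155859865607))) (b (l 16504520) (a (l 16474712) (l 16467208)))) (b (l 16486016) (l 16447656))) (a (l 16466712) (l 16507312))) (b (a (a (a (b (l 153712207159) (l 152101570103)) (b (l 16419552) (l 16437640))) (l 16451776)) (l 16474056)) (a (a (a (l 3) (b (l 16436448) (l 154785894519))) (l 16447568)) (l 16505472))))) (a (l 3) (b (a (a (a (l 3) (b (b (l 152638365351) (a (l 137069083607) (l 16400104))) (a (b (l 289003565031) (l 3)) (b (l 151027731047) (l 152101981415))))) (b (a (l 16433672) (l 16408792)) (b (l 16414936) (l 16601608)))) (b (l 16464768) (l 16483888))) (a (b (a (a (l 3) (a (l 3) (b (l 151028111767) (a (l 3) (l 152638870295))))) (a (b (l 16526960) (a (l 16597288) (l 16580184))) (l 16562008))) (a (a (l 3) (b (b (l 152638791591)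 (l 3)) (l 3))) (a (b (a (l 16645272) (l 16649304)) (l 16686832)) (l 16698312)))) (b (a (l 16576360) (l 16598056)) (a (l 16712608) (l 16737088))))))), by decide +kernel⟩

theorem s4_pm_202 : ∃ t, chk3 f_pm_202 t 3 2 1 = true := ex3_b k1_pm_202 k2_pm_202

theorem s5_pm_202 : ∃ t, chk3 f_pm_202 t 3 1 1 = true := ex3_b s4_pm_202 k3_pm_202

theorem s6_pm_202 : ∃ t, chk3 f_pm_202 t 1 1 1 = true := ex3_a k0_pm_202 s5_pm_202

theorem c_pm_202 : CertN 0 536870912 1073741824 536870912 402653184 67108864 3 false true false .pp 2 0 2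
    ndN0q2 ndN2q2 pcN0 Cut.none Ext.none :=
  certN0 (fam := false) (s1 := true) (s2 := false) (a := 2) (b := 0) (c := 2) (cn := .pp) (n1 := ndN0q2) (n2 := ndN2q2) (pc := pcN0) (cut := Cut.none) (xt := Ext.none) (P1 := 0) (W1 := 536870912) (P2 := 1073741824) (W2 := 536870912) (P3 := 402653184) (W3 := 67108864) (N0 := 3)
    rfl s6_pm_202

noncomputable def f_pm_203 : ℕ → ℕ → ℕ → ℕ → Bool := onCell 0 536870912 0 1230186008 402653184 67108864
    (rowN 3 0 false true false .up 2 0 3 (qsf 0 536870912 0 1230186008 0) ndN0q2 ndN2q3 pcN0 Cut.none Ext.none)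

def k0_pm_203 : ∃ t, chk3 f_pm_203 t 1 1 1 = true :=
  ⟨(b (l 2) (b (l 2) (a (l 3) (b (l 2) (a (l 3) (b (a (a (l 3) (l 2)) (l 2)) (a (a (l 3) (b (l 153713495895) (a (b (l 17188224) (l 17175520)) (l 17192792)))) (b (l 17224248) (l 17281200))))))))), by decide +kernel⟩

theorem c_pm_203 : CertN 0 536870912 0 1230186008 402653184 67108864 3 false true false .up 2 0 3
    ndN0q2 ndN2q3 pcN0 Cut.none Ext.none :=
  certN0 (fam := false) (s1 := true) (s2 := false) (a := 2) (b := 0) (c := 3) (cn := .up) (n1 := ndN0q2) (n2 := ndN2q3) (pc := pcN0) (cut := Cut.none) (xt := Ext.none) (P1 := 0) (W1 := 536870912) (P2 := 0) (W2 := 1230186008) (P3 := 402653184) (W3 := 67108864) (N0 := 3)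
    rfl k0_pm_203

noncomputable def cut_pm_213 : Cut := Cut.of [[⟨0, 1, 0, 67108864⟩, ⟨1, 1, 0, 67108864⟩, ⟨2, 2, 0, 16777216⟩]]

noncomputable def f_pm_213 : ℕ → ℕ → ℕ → ℕ → Bool := onCell 0 536870912 0 1230186008 402653184 67108864
    (rowN 3 0 false true false .pnn 2 1 3 (qsf 0 536870912 0 1230186008 1) ndN0q2 ndN2q3 pcN1 cut_pm_213 Ext.none)

def k0_pm_213 : ∃ t, chk3 f_pm_213 t 1 1 1 = true :=
  ⟨(b (a (l 3) (a (l 3) (b (a (l 3) (a (l 3) (b (l 6) (a (b (l 6) (b (l 498384019975) (l 273971990471))) (b (l 6) (a (l 16821592) (l 16801864))))))) (a (l 3) (b (b (a (l 3) (a (l 257865948279) (l 16817328))) (a (l 3) (a (l 249276031543) (l 16837880)))) (a (b (l 462413786135) (l 236928060871)) (b (l 16903784) (l 16891024)))))))) (b (a (l 3) (a (l 3) (b (a (l 3) (a (b (l 228875039895) (l 221358922615)) (b (l 16923824) (l 16959920)))) (a (a (l 3) (b (l 3) (l 325512049959))) (a (b (l 213842840551) (l 17057928)) (b (l 16999520) (l 17044240))))))) (a (l 3) (a (l 3) (b (a (a (l 3) (b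 (l 189147117383) (l 181631224695))) (a (b (l 17090392) (l 17160960)) (b (l 17097176) (l 17163984)))) (a (b (a (l 3) (b (l 17205208) (l 171967384839))) (a (l 3) (b (a (l 17123224) (l 17214088)) (l 1)))) (b (a (l 17211784) (l 17206272)) (b (l 17220232) (l 586834469063))))))))), by decide +kernel⟩

theorem c_pm_213 : CertN 0 536870912 0 1230186008 402653184 67108864 3 false true false .pnn 2 1 3
    ndN0q2 ndN2q3 pcN1 cut_pm_213 Ext.none :=
  certN0 (fam := false) (s1 := true) (s2 := false) (a := 2) (b := 1) (c := 3) (cn := .pnn) (n1 := ndN0q2) (n2 := ndN2q3) (pc := pcN1) (cut := cut_pm_213) (xt := Ext.none) (P1 := 0) (W1 := 536870912) (P2 := 0) (W2 := 1230186008) (P3 := 402653184) (W3 := 67108864) (N0 := 3)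
    rfl k0_pm_213

noncomputable def f_mm_001 : ℕ → ℕ → ℕ → ℕ → Bool := onCell 0 536870912 0 536870912 402653184 67108864
    (rowN 3 1 false false false .up 0 0 1 (qsf 0 536870912 536870912 536870912 0) ndN0q0 ndN2q1 pcN0 Cut.none Ext.none)

def k0_mm_001 : ∃ t, chk3 f_mm_001 t 1 1 1 = true :=
  ⟨(l 3), by decide +kernel⟩

theorem c_mm_001 : CertN 0 536870912 536870912 536870912 402653184 67108864 3 false false false .up 0 0 1
    ndN0q0 ndN2q1 pcN0 Cut.none Ext.none :=
  certN1 (fam := false) (s1 := false) (s2 := false) (a := 0) (b := 0) (c := 1) (cn := .up) (n1 := ndN0q0) (n2 := ndN2q1) (pc := pcN0) (cut := Cut.none) (xt := Ext.none) (P1 := 0) (W1 := 536870912) (P2 := 536870912) (W2 := 536870912) (P3 := 402653184) (W3 := 67108864) (N0 := 3)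
    rfl (fun _ => rfl) k0_mm_001

noncomputable def f_mm_011 : ℕ → ℕ → ℕ → ℕ → Bool := onCell 0 536870912 536870912 536870912 402653184 67108864
    (rowN 3 1 false false false .pnn 0 1 1 (qsf 0 536870912 536870912 536870912 1) ndN0q0 ndN2q1 pcN1 Cut.none Ext.none)

def k0_mm_011 : ∃ t, chk3 f_mm_011 t 1 1 1 = true :=
  ⟨(l 5), by decide +kernel⟩

theorem c_mm_011 : CertN 0 536870912 536870912 536870912 402653184 67108864 3 false false false .pnn 0 1 1
    ndN0q0 ndN2q1 pcN1 Cut.none Ext.none :=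
  certN1 (fam := false) (s1 := false) (s2 := false) (a := 0) (b := 1) (c := 1) (cn := .pnn) (n1 := ndN0q0) (n2 := ndN2q1) (pc := pcN1) (cut := Cut.none) (xt := Ext.none) (P1 := 0) (W1 := 536870912) (P2 := 536870912) (W2 := 536870912) (P3 := 402653184) (W3 := 67108864) (N0 := 3)
    rfl (fun _ => rfl) k0_mm_011

noncomputable def f_mm_012 : ℕ → ℕ → ℕ → ℕ → Bool := onCell 0 536870912 1073741824 536870912 402653184 67108864
    (rowN 3 0 false false false .pnp 0 1 2 (qsf 0 536870912 1073741824 536870912 1) ndN0q0 ndN2q2 pcN1 Cut.none Ext.none)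

def k0_mm_012 : ∃ t, chk3 f_mm_012 t 1 1 1 = true :=
  ⟨(l 5), by decide +kernel⟩

theorem c_mm_012 : CertN 0 536870912 1073741824 536870912 402653184 67108864 3 false false false .pnp 0 1 2
    ndN0q0 ndN2q2 pcN1 Cut.none Ext.none :=
  certN0 (fam := false) (s1 := false) (s2 := false) (a := 0) (b := 1) (c := 2) (cn := .pnp) (n1 := ndN0q0) (n2 := ndN2q2) (pc := pcN1) (cut := Cut.none) (xt := Ext.none) (P1 := 0) (W1 := 536870912) (P2 := 1073741824) (W2 := 536870912) (P3 := 402653184) (W3 := 67108864) (N0 := 3)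
    rfl k0_mm_012

noncomputable def f_mm_022 : ℕ → ℕ → ℕ → ℕ → Bool := onCell 0 536870912 1073741824 536870912 402653184 67108864
    (rowN 3 0 false false false .pp 0 2 2 (qsf 0 536870912 1073741824 536870912 2) ndN0q0 ndN2q2 pcN2 Cut.none Ext.none)

def k0_mm_022 : ∃ t, chk3 f_mm_022 t 1 1 1 = true :=
  ⟨(l 5), by decide +kernel⟩

theorem c_mm_022 : CertN 0 536870912 1073741824 536870912 402653184 67108864 3 false false false .pp 0 2 2
    ndN0q0 ndN2q2 pcN2 Cut.none Ext.none :=
  certN0 (fam := false) (s1 := false) (s2 := false) (a := 0) (b := 2) (c := 2) (cn := .pp) (n1 := ndN0q0) (n2 := ndN2q2) (pc := pcN2) (cut := Cut.none) (xt := Ext.none) (P1 := 0) (W1 := 536870912) (P2 := 1073741824) (W2 := 536870912) (P3 := 402653184) (W3 := 67108864) (N0 := 3)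
    rfl k0_mm_022

noncomputable def f_mm_023 : ℕ → ℕ → ℕ → ℕ → Bool := onCell 0 536870912 0 1230186008 402653184 67108864
    (rowN 3 0 false false false .up 0 2 3 (qsf 0 536870912 0 1230186008 2) ndN0q0 ndN2q3 pcN2 Cut.none Ext.none)

def k0_mm_023 : ∃ t, chk3 f_mm_023 t 1 1 1 = true :=
  ⟨(l 5), by decide +kernel⟩

theorem c_mm_023 : CertN 0 536870912 0 1230186008 402653184 67108864 3 false false false .up 0 2 3
    ndN0q0 ndN2q3 pcN2 Cut.none Ext.none :=
  certN0 (fam := false) (s1 := false) (s2 := false) (a := 0) (b := 2) (c := 3) (cn := .up) (n1 := ndN0q0) (n2 := ndN2q3) (pc := pcN2) (cut := Cut.none) (xt := Ext.none) (P1 := 0) (W1 := 536870912) (P2 := 0) (W2 := 1230186008) (P3 := 402653184) (W3 := 67108864) (N0 := 3)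
    rfl k0_mm_023

noncomputable def f_mm_033 : ℕ → ℕ → ℕ → ℕ → Bool := onCell 0 536870912 0 1230186008 402653184 67108864
    (rowN 3 0 false false false .pnn 0 3 3 (qsf 0 536870912 0 1230186008 3) ndN0q0 ndN2q3 pcN3 Cut.none Ext.none)

def k0_mm_033 : ∃ t, chk3 f_mm_033 t 1 1 1 = true :=
  ⟨(l 5), by decide +kernel⟩

theorem c_mm_033 : CertN 0 536870912 0 1230186008 402653184 67108864 3 false false false .pnn 0 3 3
    ndN0q0 ndN2q3 pcN3 Cut.none Ext.none :=
  certN0 (fam := false) (s1 := false) (s2 := false) (a := 0) (b := 3) (c := 3) (cn := .pnn) (n1 := ndN0q0) (n2 := ndN2q3) (pc := pcN3) (cut := Cut.none) (xt := Ext.none) (P1 := 0) (W1 := 536870912) (P2 := 0) (W2 := 1230186008) (P3 := 402653184) (W3 := 67108864) (N0 := 3)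
    rfl k0_mm_033

noncomputable def cut_mm_101 : Cut := Cut.of [[⟨0, 1, 0, 67108864⟩, ⟨1, 0, 0, 67108864⟩, ⟨2, 1, 0, 67108864⟩]]

noncomputable def f_mm_101 : ℕ → ℕ → ℕ → ℕ → Bool := onCell 536870912 536870912 0 536870912 402653184 67108864
    (rowN 3 1 false false false .npn 1 0 1 (qsf 536870912 536870912 536870912 536870912 0) ndN0q1 ndN2q1 pcN0 cut_mm_101 Ext.none)

def k0_mm_101 : ∃ t, chk3 f_mm_101 t 1 1 1 = true :=
  ⟨(a (l 3) (a (l 3) (b (b (a (l 3) (b (a (l 3) (b (l 6) (l 3))) (l 3))) (l 3)) (l 2)))), by decide +kernel⟩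

theorem c_mm_101 : CertN 536870912 536870912 536870912 536870912 402653184 67108864 3 false false false .npn 1 0 1
    ndN0q1 ndN2q1 pcN0 cut_mm_101 Ext.none :=
  certN1 (fam := false) (s1 := false) (s2 := false) (a := 1) (b := 0) (c := 1) (cn := .npn) (n1 := ndN0q1) (n2 := ndN2q1) (pc := pcN0) (cut := cut_mm_101) (xt := Ext.none) (P1 := 536870912) (W1 := 536870912) (P2 := 536870912) (W2 := 536870912) (P3 := 402653184) (W3 := 67108864) (N0 := 3)
    rfl (fun _ => rfl) k0_mm_101

noncomputable def f_mm_102 : ℕ → ℕ → ℕ → ℕ → Bool := onCell 536870912 536870912 0 536870912 402653184 67108864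
    (rowN 3 1 false false false .npp 1 0 2 (qsf 536870912 536870912 1073741824 536870912 0) ndN0q1 ndN2q2 pcN0 Cut.none Ext.none)

def k0_mm_102 : ∃ t, chk3 f_mm_102 t 1 1 1 = true :=
  ⟨(l 3), by decide +kernel⟩

theorem c_mm_102 : CertN 536870912 536870912 1073741824 536870912 402653184 67108864 3 false false false .npp 1 0 2
    ndN0q1 ndN2q2 pcN0 Cut.none Ext.none :=
  certN1 (fam := false) (s1 := false) (s2 := false) (a := 1) (b := 0) (c := 2) (cn := .npp) (n1 := ndN0q1) (n2 := ndN2q2) (pc := pcN0) (cut := Cut.none) (xt := Ext.none) (P1 := 536870912) (W1 := 536870912) (P2 := 1073741824) (W2 := 536870912) (P3 := 402653184) (W3 := 67108864) (N0 := 3)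
    rfl (fun _ => rfl) k0_mm_102

noncomputable def f_mm_112 : ℕ → ℕ → ℕ → ℕ → Bool := onCell 536870912 536870912 1073741824 536870912 402653184 67108864
    (rowN 3 2 false false false .dn 1 1 2 (qsf 536870912 536870912 1073741824 536870912 1) ndN0q1 ndN2q2 pcN1 Cut.none Ext.none)

def k0_mm_112 : ∃ t, chk3 f_mm_112 t 1 1 1 = true :=
  ⟨(l 5), by decide +kernel⟩

theorem c_mm_112 : CertN 536870912 536870912 1073741824 536870912 402653184 67108864 3 false false false .dn 1 1 2
    ndN0q1 ndN2q2 pcN1 Cut.none Ext.none :=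
  certN2 (fam := false) (s1 := false) (s2 := false) (a := 1) (b := 1) (c := 2) (cn := .dn) (n1 := ndN0q1) (n2 := ndN2q2) (pc := pcN1) (cut := Cut.none) (xt := Ext.none) (P1 := 536870912) (W1 := 536870912) (P2 := 1073741824) (W2 := 536870912) (P3 := 402653184) (W3 := 67108864) (N0 := 3)
    rfl (fun _ => rfl) k0_mm_112

noncomputable def f_mm_113 : ℕ → ℕ → ℕ → ℕ → Bool := onCell 536870912 536870912 0 1230186008 402653184 67108864
    (rowN 3 0 false false false .nn 1 1 3 (qsf 536870912 536870912 0 1230186008 1) ndN0q1 ndN2q3 pcN1 Cut.none Ext.none)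

def k0_mm_113 : ∃ t, chk3 f_mm_113 t 1 1 1 = true :=
  ⟨(b (l 5) (l 5)), by decide +kernel⟩

theorem c_mm_113 : CertN 536870912 536870912 0 1230186008 402653184 67108864 3 false false false .nn 1 1 3
    ndN0q1 ndN2q3 pcN1 Cut.none Ext.none :=
  certN0 (fam := false) (s1 := false) (s2 := false) (a := 1) (b := 1) (c := 3) (cn := .nn) (n1 := ndN0q1) (n2 := ndN2q3) (pc := pcN1) (cut := Cut.none) (xt := Ext.none) (P1 := 536870912) (W1 := 536870912) (P2 := 0) (W2 := 1230186008) (P3 := 402653184) (W3 := 67108864) (N0 := 3)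
    rfl k0_mm_113

noncomputable def f_mm_123 : ℕ → ℕ → ℕ → ℕ → Bool := onCell 536870912 536870912 0 1230186008 402653184 67108864
    (rowN 3 0 false false false .npn 1 2 3 (qsf 536870912 536870912 0 1230186008 2) ndN0q1 ndN2q3 pcN2 Cut.none Ext.none)

def k0_mm_123 : ∃ t, chk3 f_mm_123 t 1 1 1 = true :=
  ⟨(b (l 5) (l 5)), by decide +kernel⟩

theorem c_mm_123 : CertN 536870912 536870912 0 1230186008 402653184 67108864 3 false false false .npn 1 2 3
    ndN0q1 ndN2q3 pcN2 Cut.none Ext.none :=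
  certN0 (fam := false) (s1 := false) (s2 := false) (a := 1) (b := 2) (c := 3) (cn := .npn) (n1 := ndN0q1) (n2 := ndN2q3) (pc := pcN2) (cut := Cut.none) (xt := Ext.none) (P1 := 536870912) (W1 := 536870912) (P2 := 0) (W2 := 1230186008) (P3 := 402653184) (W3 := 67108864) (N0 := 3)
    rfl k0_mm_123

noncomputable def f_mm_133 : ℕ → ℕ → ℕ → ℕ → Bool := onCell 1610612736 536870912 0 1230186008 402653184 67108864
    (rowN 3 2 false false false .dn 1 3 3 (qsf 536870912 536870912 0 1230186008 3) ndN0q1 ndN2q3 pcN3 Cut.none Ext.none)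

def k0_mm_133 : ∃ t, chk3 f_mm_133 t 1 1 1 = true :=
  ⟨(l 5), by decide +kernel⟩

theorem c_mm_133 : CertN 536870912 536870912 0 1230186008 402653184 67108864 3 false false false .dn 1 3 3
    ndN0q1 ndN2q3 pcN3 Cut.none Ext.none :=
  certN2 (fam := false) (s1 := false) (s2 := false) (a := 1) (b := 3) (c := 3) (cn := .dn) (n1 := ndN0q1) (n2 := ndN2q3) (pc := pcN3) (cut := Cut.none) (xt := Ext.none) (P1 := 536870912) (W1 := 536870912) (P2 := 0) (W2 := 1230186008) (P3 := 402653184) (W3 := 67108864) (N0 := 3)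
    rfl (fun _ => rfl) k0_mm_133

noncomputable def f_mm_202 : ℕ → ℕ → ℕ → ℕ → Bool := onCell 0 536870912 1073741824 536870912 402653184 67108864
    (rowN 3 0 false false false .pp 2 0 2 (qsf 0 536870912 1073741824 536870912 0) ndN0q2 ndN2q2 pcN0 Cut.none Ext.none)

def k0_mm_202 : ∃ t, chk3 f_mm_202 t 1 1 1 = true :=
  ⟨(l 3), by decide +kernel⟩

theorem c_mm_202 : CertN 0 536870912 1073741824 536870912 402653184 67108864 3 false false false .pp 2 0 2
    ndN0q2 ndN2q2 pcN0 Cut.none Ext.none :=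
  certN0 (fam := false) (s1 := false) (s2 := false) (a := 2) (b := 0) (c := 2) (cn := .pp) (n1 := ndN0q2) (n2 := ndN2q2) (pc := pcN0) (cut := Cut.none) (xt := Ext.none) (P1 := 0) (W1 := 536870912) (P2 := 1073741824) (W2 := 536870912) (P3 := 402653184) (W3 := 67108864) (N0 := 3)
    rfl k0_mm_202

noncomputable def f_mm_203 : ℕ → ℕ → ℕ → ℕ → Bool := onCell 0 536870912 0 1230186008 402653184 67108864
    (rowN 3 0 false false false .up 2 0 3 (qsf 0 536870912 0 1230186008 0) ndN0q2 ndN2q3 pcN0 Cut.none Ext.none)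

def k0_mm_203 : ∃ t, chk3 f_mm_203 t 1 1 1 = true :=
  ⟨(b (l 2) (l 3)), by decide +kernel⟩

theorem c_mm_203 : CertN 0 536870912 0 1230186008 402653184 67108864 3 false false false .up 2 0 3
    ndN0q2 ndN2q3 pcN0 Cut.none Ext.none :=
  certN0 (fam := false) (s1 := false) (s2 := false) (a := 2) (b := 0) (c := 3) (cn := .up) (n1 := ndN0q2) (n2 := ndN2q3) (pc := pcN0) (cut := Cut.none) (xt := Ext.none) (P1 := 0) (W1 := 536870912) (P2 := 0) (W2 := 1230186008) (P3 := 402653184) (W3 := 67108864) (N0 := 3)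
    rfl k0_mm_203

noncomputable def f_mm_213 : ℕ → ℕ → ℕ → ℕ → Bool := onCell 0 536870912 0 1230186008 402653184 67108864
    (rowN 3 0 false false false .pnn 2 1 3 (qsf 0 536870912 0 1230186008 1) ndN0q2 ndN2q3 pcN1 Cut.none Ext.none)

def k0_mm_213 : ∃ t, chk3 f_mm_213 t 1 1 1 = true :=
  ⟨(b (a (l 3) (l 5)) (l 3)), by decide +kernel⟩

theorem c_mm_213 : CertN 0 536870912 0 1230186008 402653184 67108864 3 false false false .pnn 2 1 3
    ndN0q2 ndN2q3 pcN1 Cut.none Ext.none :=
  certN0 (fam := false) (s1 := false) (s2 := false) (a := 2) (b := 1) (c := 3) (cn := .pnn) (n1 := ndN0q2) (n2 := ndN2q3) (pc := pcN1) (cut := Cut.none) (xt := Ext.none) (P1 := 0) (W1 := 536870912) (P2 := 0) (W2 := 1230186008) (P3 := 402653184) (W3 := 67108864) (N0 := 3)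
    rfl k0_mm_213

end Pool.Agent.Strip051.G.I3_8_7_16.Tab.C.NB02

namespace Pool.Agent.Strip051.G.I3_8_7_16.Tab.C.NB03

open Pool.Agent.Strip051.PB Pool.Agent.Strip051.PB.T
open Pool.Agent.Strip051.G.I3_8_7_16.Tab

noncomputable def f_pp_001 : ℕ → ℕ → ℕ → ℕ → Bool := onCell 0 536870912 0 536870912 402653184 67108864
    (rowN 3 1 false true true .up 0 0 1 (qsf 0 536870912 536870912 536870912 0) ndN0q0 ndN3q1 pcN0 Cut.none Ext.none)

def k0_pp_001 : ∃ t, chk3 f_pp_001 t 1 1 1 = true :=
  ⟨(l 3), by decide +kernel⟩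

theorem c_pp_001 : CertN 0 536870912 536870912 536870912 402653184 67108864 3 false true true .up 0 0 1
    ndN0q0 ndN3q1 pcN0 Cut.none Ext.none :=
  certN1 (fam := false) (s1 := true) (s2 := true) (a := 0) (b := 0) (c := 1) (cn := .up) (n1 := ndN0q0) (n2 := ndN3q1) (pc := pcN0) (cut := Cut.none) (xt := Ext.none) (P1 := 0) (W1 := 536870912) (P2 := 536870912) (W2 := 536870912) (P3 := 402653184) (W3 := 67108864) (N0 := 3)
    rfl (fun _ => rfl) k0_pp_001

end Pool.Agent.Strip051.G.I3_8_7_16.Tab.C.NB03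

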