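import Pool.Agent.Strip051.G.I3_8_7_16.Tab

/-! # Certificates N13 (generated) -/

set_option linter.all false
set_option maxRecDepth 100000

namespace Pool.Agent.Strip051.G.I3_8_7_16.Tab.C.NB03

open Pool.Agent.Strip051.PB Pool.Agent.Strip051.PB.T
open Pool.Agent.Strip051.G.I3_8_7_16.Tab

noncomputable def cut_pp_011 : Cut := Cut.of [[⟨0, 0, 0, 67108864⟩, ⟨1, 1, 0, 67108864⟩, ⟨2, 1, 0, 67108864⟩]]

noncomputable def f_pp_011 : ℕ → ℕ → ℕ → ℕ → Bool := onCell 0 536870912 536870912 536870912 402653184 67108864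
    (rowN 3 1 false true true .pnn 0 1 1 (qsf 0 536870912 536870912 536870912 1) ndN0q0 ndN3q1 pcN1 cut_pp_011 Ext.none)

def k0_pp_011 : ∃ t, chk3 f_pp_011 t 1 1 1 = true :=
  ⟨(b (l 3) (a (b (l 3) (a (b (l 3) (a (b (l 3) (a (l 6) (l 3))) (l 3))) (l 3))) (l 3))), by decide +kernel⟩

theorem c_pp_011 : CertN 0 536870912 536870912 536870912 402653184 67108864 3 false true true .pnn 0 1 1
    ndN0q0 ndN3q1 pcN1 cut_pp_011 Ext.none :=
  certN1 (fam := false) (s1 := true) (s2 := true) (a := 0) (b := 1) (c := 1) (cn := .pnn) (n1 := ndN0q0) (n2 := ndN3q1) (pc := pcN1) (cut := cut_pp_011) (xt := Ext.none) (P1 := 0) (W1 := 536870912) (P2 := 536870912) (W2 := 536870912) (P3 := 402653184) (W3 := 67108864) (N0 := 3)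
    rfl (fun _ => rfl) k0_pp_011

noncomputable def f_pp_012 : ℕ → ℕ → ℕ → ℕ → Bool := onCell 0 536870912 536870912 536870912 402653184 67108864
    (rowN 3 1 false true true .pnp 0 1 2 (qsf 0 536870912 1073741824 536870912 1) ndN0q0 ndN3q2 pcN1 Cut.none Ext.none)

def k0_pp_012 : ∃ t, chk3 f_pp_012 t 1 1 1 = true :=
  ⟨(l 3), by decide +kernel⟩

theorem c_pp_012 : CertN 0 536870912 1073741824 536870912 402653184 67108864 3 false true true .pnp 0 1 2
    ndN0q0 ndN3q2 pcN1 Cut.none Ext.none :=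
  certN1 (fam := false) (s1 := true) (s2 := true) (a := 0) (b := 1) (c := 2) (cn := .pnp) (n1 := ndN0q0) (n2 := ndN3q2) (pc := pcN1) (cut := Cut.none) (xt := Ext.none) (P1 := 0) (W1 := 536870912) (P2 := 1073741824) (W2 := 536870912) (P3 := 402653184) (W3 := 67108864) (N0 := 3)
    rfl (fun _ => rfl) k0_pp_012

noncomputable def f_pp_022 : ℕ → ℕ → ℕ → ℕ → Bool := onCell 0 536870912 1073741824 536870912 402653184 67108864
    (rowN 3 1 false true true .pp 0 2 2 (qsf 0 536870912 1073741824 536870912 2) ndN0q0 ndN3q2 pcN2 Cut.none Ext.none)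

def k0_pp_022 : ∃ t, chk3 f_pp_022 t 2 1 1 = true :=
  ⟨(b (b (l 3) (b (b (b (l 3) (a (b (l 3) (b (a (a (l 3) (l 16497704)) (a (l 16496784) (l 16519024))) (b (a (a (l 16515272) (l 16512496)) (a (l 16490832) (l 16513288))) (a (a (l 16448688) (l 16467008)) (a (l 16487408) (l 16509976)))))) (b (a (a (l 3) (l 16603688)) (a (l 16636400) (l 16675800))) (b (a (a (l 16543568) (l 16571464)) (a (l 16604592) (l 16644448))) (b (a (a (l 16538056) (l 16566176)) (a (l 16599536) (l 16639632))) (a (l 16548216) (l 16615336))))))) (a (a (a (a (l 16414688) (l 16423824)) (l 16459368)) (a (l 16459624) (l 16482952))) (a (a (l 16508504) (l 16537360)) (a (l 16571480) (l 16612368))))) (a (a (a (b (l 16407456) (l 16314544)) (b (l 16386376) (l 16336848))) (a (b (l 16409072) (l 16360808)) (l 16493712))) (a (a (l 16457968) (l 16467336)) (a (l 16502960) (l 16545448)))))) (b (a (a (b (a (l 16306248) (l 16267432)) (a (l 16158360) (l 16184192))) (b (a (l 16292904) (l 16319864)) (a (l 16210992) (l 16238880)))) (b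 (a (a (l 16348480) (l 16380032)) (a (l 16535800) (l 16664712))) (a (a (l 16369136) (l 16588624)) (b (l 16720800) (l 2))))) (b (a (a (a (l 16085304) (l 16112296)) (b (l 16360144) (l 16511280))) (a (b (l 16677424) (l 2)) (l 2))) (a (a (b (l 16169592) (l 16462656)) (b (l 16648952) (l 2))) (l 2))))), by decide +kernel⟩

def k1_pp_022 : ∃ t, chk3 f_pp_022 t 3 1 1 = true :=
  ⟨(b (b (b (l 3) (a (l 3) (b (l 3) (a (l 3) (l 2))))) (b (b (b (b (a (l 3) (a (a (l 3) (l 2)) (l 2))) (a (a (a (l 3) (l 16772472)) (a (l 16841216) (l 16911136))) (l 2))) (a (b (a (a (l 16702480) (l 16759920)) (a (l 16829168) (l 16883128))) (b (a (a (l 16692600) (l 16750552)) (a (l 16826008) (l 16900024))) (a (b (l 16715424) (l 16712664)) (b (l 16863736) (l 16863136))))) (l 2))) (a (a (a (l 16661608) (l 16724016)) (a (l 16824264) (l 16893808))) (l 2))) (a (a (a (l 16658680) (l 16763424)) (a (l 16845312) (l 2))) (l 2)))) (b (a (b (a (a (l 16763912) (l 2)) (l 2)) (l 2)) (l 2)) (l 2))), by decide +kernel⟩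

theorem s2_pp_022 : ∃ t, chk3 f_pp_022 t 1 1 1 = true := ex3_a k0_pp_022 k1_pp_022

theorem c_pp_022 : CertN 0 536870912 1073741824 536870912 402653184 67108864 3 false true true .pp 0 2 2
    ndN0q0 ndN3q2 pcN2 Cut.none Ext.none :=
  certN1 (fam := false) (s1 := true) (s2 := true) (a := 0) (b := 2) (c := 2) (cn := .pp) (n1 := ndN0q0) (n2 := ndN3q2) (pc := pcN2) (cut := Cut.none) (xt := Ext.none) (P1 := 0) (W1 := 536870912) (P2 := 1073741824) (W2 := 536870912) (P3 := 402653184) (W3 := 67108864) (N0 := 3)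
    rfl (fun _ => rfl) s2_pp_022

noncomputable def f_pp_023 : ℕ → ℕ → ℕ → ℕ → Bool := onCell 1073741824 536870912 0 1230186008 402653184 67108864
    (rowN 3 2 false true true .up 0 2 3 (qsf 0 536870912 0 1230186008 2) ndN0q0 ndN3q3 pcN2 Cut.none Ext.none)

def k0_pp_023 : ∃ t, chk3 f_pp_023 t 1 2 1 = true :=
  ⟨(a (l 2) (a (l 2) (a (b (l 2) (b (l 16958760) (l 16987960))) (b (l 17181688) (a (l 16993832) (l 17026624)))))), by decide +kernel⟩

def k1_pp_023 : ∃ t, chk3 f_pp_023 t 1 6 1 = true :=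
  ⟨(a (a (l 2) (a (l 2) (b (l 2) (b (l 2) (l 16958552))))) (a (b (a (l 2) (a (l 16925072) (l 16939008))) (a (b (l 16934792) (l 16955200)) (b (l 16955368) (l 16965600)))) (a (b (a (l 16951248) (l 16964488)) (l 17083472)) (b (a (l 16976632) (l 17004256)) (l 17089496))))), by decide +kernel⟩

def k2_pp_023 : ∃ t, chk3 f_pp_023 t 1 7 1 = true :=
  ⟨(a (a (b (l 2) (a (l 3) (a (l 3) (b (a (l 3) (b (l 304037348071) (l 3))) (l 3))))) (a (b (b (a (l 2) (l 17013264)) (a (a (b (l 2) (l 17090312)) (a (l 17006800) (a (l 17062472) (a (l 17058416) (l 17075944))))) (b (l 17031088) (l 17036416)))) (a (a (b (b (a (l 17097528) (l 17082600)) (l 145660233159)) (b (b (l 17061264) (l 17071568)) (a (l 3) (l 16967920)))) (a (b (b (l 17069976) (l 17068576)) (b (l 17052528) (a (l 17014728) (l 17004240)))) (a (b (l 16998456) (b (l 17040440) (l 16993952))) (b (a (l 17036216) (l 17033568)) (a (b (l 17034656) (l 16986504)) (b (l 17030904) (l 16981664))))))) (b (b (l 17036816) (l 17028504)) (b (l 16999480) (b (l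 16957984) (l 16915016)))))) (b (b (a (l 16992128) (l 16977136)) (a (l 17006312) (l 16986168))) (b (b (l 16988976) (a (l 16986448) (l 16945160))) (b (a (l 16940840) (l 16884248)) (a (l 16856968) (l 16783600))))))) (a (b (a (b (l 16967472) (b (l 16967080) (l 16956224))) (b (l 16966352) (l 16942320))) (a (b (b (l 16931328) (l 16885248)) (b (a (l 16831880) (l 16787872)) (a (l 16721824) (l 16667176)))) (b (b (l 16889848) (l 16827208)) (b (l 16732496) (a (l 16617160) (l 16570664)))))) (a (b (b (l 16973912) (l 16936384)) (b (b (l 16867384) (l 16789456)) (b (l 16674440) (a (l 16527592) (l 16488528))))) (b (b (l 16995312) (l 16943560)) (b (b (l 16858640) (l 16765632)) (b (l 16630352) (l 16436256))))))), by decide +kernel⟩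

theorem s3_pp_023 : ∃ t, chk3 f_pp_023 t 1 3 1 = true := ex3_b k1_pp_023 k2_pp_023

theorem s4_pp_023 : ∃ t, chk3 f_pp_023 t 1 1 1 = true := ex3_b k0_pp_023 s3_pp_023

theorem c_pp_023 : CertN 0 536870912 0 1230186008 402653184 67108864 3 false true true .up 0 2 3
    ndN0q0 ndN3q3 pcN2 Cut.none Ext.none :=
  certN2 (fam := false) (s1 := true) (s2 := true) (a := 0) (b := 2) (c := 3) (cn := .up) (n1 := ndN0q0) (n2 := ndN3q3) (pc := pcN2) (cut := Cut.none) (xt := Ext.none) (P1 := 0) (W1 := 536870912) (P2 := 0) (W2 := 1230186008) (P3 := 402653184) (W3 := 67108864) (N0 := 3)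
    rfl (fun _ => rfl) s4_pp_023

noncomputable def f_pp_033 : ℕ → ℕ → ℕ → ℕ → Bool := onCell 1610612736 536870912 0 1230186008 402653184 67108864
    (rowN 3 2 false true true .pnn 0 3 3 (qsf 0 536870912 0 1230186008 3) ndN0q0 ndN3q3 pcN3 Cut.none Ext.none)

def k0_pp_033 : ∃ t, chk3 f_pp_033 t 1 1 1 = true :=
  ⟨(a (b (a (b (a (l 17082984) (l 17074064)) (a (b (l 17106040) (l 17117600)) (b (l 17114560) (l 17138040)))) (b (a (l 17054320) (l 17040160)) (a (b (l 17104432) (l 17149056)) (l 17112488)))) (b (a (b (a (l 17129336) (l 17154896)) (a (l 17119632) (l 17138976))) (b (a (l 17169848) (l 17174928)) (a (l 17151272) (l 17162232)))) (b (a (b (a (l 17059104) (l 17061280)) (a (l 16952200) (l 16932104))) (a (b (l 17062208) (l 16914912)) (b (l 17070848) (l 1)))) (a (b (a (b (l 16805960) (l 16657376)) (l 16676448)) (a (b (l 16449920) (l 16196080)) (b (l 16354736) (l 1)))) (a (b (l 16643432) (l 1)) (l 1)))))) (a (b (a (b (l 17076384) (b (l 17065584) (l 17116880))) (b (l 4) (b (l 4) (l 17134056))))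 (b (a (b (l 17176040) (l 17183608)) (b (l 17188824) (l 365644060727))) (l 1))) (b (b (l 4) (l 4)) (a (b (b (l 17221032) (l 1)) (l 1)) (l 1))))), by decide +kernel⟩

theorem c_pp_033 : CertN 0 536870912 0 1230186008 402653184 67108864 3 false true true .pnn 0 3 3
    ndN0q0 ndN3q3 pcN3 Cut.none Ext.none :=
  certN2 (fam := false) (s1 := true) (s2 := true) (a := 0) (b := 3) (c := 3) (cn := .pnn) (n1 := ndN0q0) (n2 := ndN3q3) (pc := pcN3) (cut := Cut.none) (xt := Ext.none) (P1 := 0) (W1 := 536870912) (P2 := 0) (W2 := 1230186008) (P3 := 402653184) (W3 := 67108864) (N0 := 3)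
    rfl (fun _ => rfl) k0_pp_033

noncomputable def f_pp_101 : ℕ → ℕ → ℕ → ℕ → Bool := onCell 536870912 536870912 536870912 536870912 402653184 67108864
    (rowN 3 0 false true true .npn 1 0 1 (qsf 536870912 536870912 536870912 536870912 0) ndN0q1 ndN3q1 pcN0 Cut.none Ext.none)

def k0_pp_101 : ∃ t, chk3 f_pp_101 t 1 1 1 = true :=
  ⟨(a (l 3) (l 5)), by decide +kernel⟩

theorem c_pp_101 : CertN 536870912 536870912 536870912 536870912 402653184 67108864 3 false true true .npn 1 0 1
    ndN0q1 ndN3q1 pcN0 Cut.none Ext.none :=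
  certN0 (fam := false) (s1 := true) (s2 := true) (a := 1) (b := 0) (c := 1) (cn := .npn) (n1 := ndN0q1) (n2 := ndN3q1) (pc := pcN0) (cut := Cut.none) (xt := Ext.none) (P1 := 536870912) (W1 := 536870912) (P2 := 536870912) (W2 := 536870912) (P3 := 402653184) (W3 := 67108864) (N0 := 3)
    rfl k0_pp_101

noncomputable def f_pp_102 : ℕ → ℕ → ℕ → ℕ → Bool := onCell 536870912 536870912 1073741824 536870912 402653184 67108864
    (rowN 3 0 false true true .npp 1 0 2 (qsf 536870912 536870912 1073741824 536870912 0) ndN0q1 ndN3q2 pcN0 Cut.none Ext.none)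

def k0_pp_102 : ∃ t, chk3 f_pp_102 t 1 1 1 = true :=
  ⟨(l 3), by decide +kernel⟩

theorem c_pp_102 : CertN 536870912 536870912 1073741824 536870912 402653184 67108864 3 false true true .npp 1 0 2
    ndN0q1 ndN3q2 pcN0 Cut.none Ext.none :=
  certN0 (fam := false) (s1 := true) (s2 := true) (a := 1) (b := 0) (c := 2) (cn := .npp) (n1 := ndN0q1) (n2 := ndN3q2) (pc := pcN0) (cut := Cut.none) (xt := Ext.none) (P1 := 536870912) (W1 := 536870912) (P2 := 1073741824) (W2 := 536870912) (P3 := 402653184) (W3 := 67108864) (N0 := 3)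
    rfl k0_pp_102

noncomputable def f_pp_112 : ℕ → ℕ → ℕ → ℕ → Bool := onCell 536870912 536870912 1073741824 536870912 402653184 67108864
    (rowN 3 0 false true true .dn 1 1 2 (qsf 536870912 536870912 1073741824 536870912 1) ndN0q1 ndN3q2 pcN1 Cut.none Ext.none)

def k0_pp_112 : ∃ t, chk3 f_pp_112 t 1 1 1 = true :=
  ⟨(l 3), by decide +kernel⟩

theorem c_pp_112 : CertN 536870912 536870912 1073741824 536870912 402653184 67108864 3 false true true .dn 1 1 2
    ndN0q1 ndN3q2 pcN1 Cut.none Ext.none :=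
  certN0 (fam := false) (s1 := true) (s2 := true) (a := 1) (b := 1) (c := 2) (cn := .dn) (n1 := ndN0q1) (n2 := ndN3q2) (pc := pcN1) (cut := Cut.none) (xt := Ext.none) (P1 := 536870912) (W1 := 536870912) (P2 := 1073741824) (W2 := 536870912) (P3 := 402653184) (W3 := 67108864) (N0 := 3)
    rfl k0_pp_112

noncomputable def cut_pp_113 : Cut := Cut.of [[⟨0, 1, 0, 67108864⟩, ⟨1, 1, 0, 67108864⟩, ⟨2, 2, 0, 16777216⟩]]

noncomputable def f_pp_113 : ℕ → ℕ → ℕ → ℕ → Bool := onCell 536870912 536870912 0 1230186008 402653184 67108864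
    (rowN 3 2 false true true .nn 1 1 3 (qsf 536870912 536870912 0 1230186008 1) ndN0q1 ndN3q3 pcN1 cut_pp_113 Ext.none)

def k0_pp_113 : ∃ t, chk3 f_pp_113 t 1 1 1 = true :=
  ⟨(b (a (l 2) (a (l 2) (b (a (l 2) (a (l 2) (b (l 6) (l 3)))) (l 3)))) (a (b (l 3) (a (b (l 2) (l 3)) (l 3))) (b (l 3) (l 3)))), by decide +kernel⟩

theorem c_pp_113 : CertN 536870912 536870912 0 1230186008 402653184 67108864 3 false true true .nn 1 1 3
    ndN0q1 ndN3q3 pcN1 cut_pp_113 Ext.none :=
  certN2 (fam := false) (s1 := true) (s2 := true) (a := 1) (b := 1) (c := 3) (cn := .nn) (n1 := ndN0q1) (n2 := ndN3q3) (pc := pcN1) (cut := cut_pp_113) (xt := Ext.none) (P1 := 536870912) (W1 := 536870912) (P2 := 0) (W2 := 1230186008) (P3 := 402653184) (W3 := 67108864) (N0 := 3)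
    rfl (fun _ => rfl) k0_pp_113

noncomputable def cut_pp_123 : Cut := Cut.of [[⟨0, 1, 0, 67108864⟩, ⟨1, 1, 0, 67108864⟩, ⟨2, 2, 0, 16777216⟩]]

noncomputable def f_pp_123 : ℕ → ℕ → ℕ → ℕ → Bool := onCell 1073741824 536870912 0 1230186008 402653184 67108864
    (rowN 3 2 false true true .npn 1 2 3 (qsf 536870912 536870912 0 1230186008 2) ndN0q1 ndN3q3 pcN2 cut_pp_123 Ext.none)

def k0_pp_123 : ∃ t, chk3 f_pp_123 t 1 2 1 = true :=
  ⟨(b (a (a (a (a (b (l 6) (b (l 6) (l 3))) (b (a (l 6) (l 16778816)) (a (b (l 6) (a (b (a (b (l 300278640727) (l 3)) (l 195588856935)) (a (l 3) (l 334101523319))) (b (a (l 16791856) (l 16792120)) (a (l 181630233159) (l 16796152))))) (b (l 16785840) (a (l 16857600) (l 16795456)))))) (a (b (l 16777488) (l 16830528)) (l 16970152))) (a (a (a (l 16781808) (l 16958504)) (l 16792896)) (l 16820896))) (a (a (l 16871440) (l 16931720)) (a (l 17094720) (l 17286896)))) (a (a (a (a (l 3) (b (a (b (a (l 3) (b (a (l 349670792679) (l 168208483767)) (l 3))) (l 3)) (b (a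 (b (l 16802016) (l 262697805223)) (l 16888248)) (a (a (l 3) (l 339470282791)) (b (l 16817272) (l 336249063015))))) (a (l 3) (b (a (l 3) (b (l 304573700199) (l 3))) (l 3))))) (a (b (a (a (b (l 16804880) (l 16820184)) (l 16938384)) (l 16896960)) (b (a (a (a (l 330880336247) (l 317995451127)) (l 16839424)) (l 16837744)) (a (a (b (l 304036869479) (l 3)) (l 323364179687)) (a (l 16861848) (l 16861872))))) (b (l 16808496) (a (l 17018536) (l 16848376))))) (a (a (b (l 17034768) (a (l 16843792) (l 16836840))) (l 17026320)) (b (l 16815112) (l 16841272)))) (a (a (b (l 16852576) (l 16866784)) (b (l 16901120) (l 17071960))) (a (b (l 16958760) (l 17051728)) (a (l 16996584) (l 17033160)))))), by decide +kernel⟩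

def k1_pp_123 : ∃ t, chk3 f_pp_123 t 1 3 1 = true :=
  ⟨(b (a (a (a (l 3) (b (b (a (a (l 3) (b (l 351818422087) (l 360945223255))) (a (l 16891344) (l 16891824))) (a (a (l 3) (b (l 298131386663) (l 296520800071))) (a (l 16942040) (l 16927952)))) (b (a (l 3) (a (a (l 356113501655) (l 16957056)) (l 16970728))) (a (l 3) (a (b (l 347523688695) (l 351281835767)) (l 17076968)))))) (a (a (a (b (l 16968688) (b (l 16965072) (l 17009984))) (b (l 16979640) (a (b (l 16958912) (l 17002440)) (a (l 16976480) (l 16970696))))) (b (l 16886336) (b (l 16938984) (l 16977664)))) (b (l 16927152) (b (l 16949448) (l 16958552))))) (a (b (a (b (l 16892440) (l 16912664)) (a (l 16925096) (l 16939856))) (a (b (l 16935048) (l 16955520)) (b (l 16958392) (l 1)))) (a (b (b (l 16954376) (l 1)) (l 1)) (l 1)))) (a (a (a (l 3) (a (l 3) (b (b (a (l 3) (a (l 17096776) (l 17064376))) (a (l 3) (a (l 179483498487) (l 133849414167)))) (b (a (l 3) (b (l 299205501719) (l 1))) (l 1))))) (a (b (a (a (b (l 17053424) (b (l 17080824)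 (l 17090288))) (a (b (l 17043872) (l 16985784)) (a (b (l 17038408) (l 17083392)) (a (b (l 17034080) (l 17100304)) (b (l 17029656) (l 17138800)))))) (b (l 17013256) (l 17034224))) (a (a (b (b (a (l 17097304) (l 1)) (l 1)) (l 1)) (l 1)) (l 1))) (b (b (l 147673438327) (l 1)) (l 1)))) (l 1))), by decide +kernel⟩

theorem s2_pp_123 : ∃ t, chk3 f_pp_123 t 1 1 1 = true := ex3_b k0_pp_123 k1_pp_123

theorem c_pp_123 : CertN 536870912 536870912 0 1230186008 402653184 67108864 3 false true true .npn 1 2 3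
    ndN0q1 ndN3q3 pcN2 cut_pp_123 Ext.none :=
  certN2 (fam := false) (s1 := true) (s2 := true) (a := 1) (b := 2) (c := 3) (cn := .npn) (n1 := ndN0q1) (n2 := ndN3q3) (pc := pcN2) (cut := cut_pp_123) (xt := Ext.none) (P1 := 536870912) (W1 := 536870912) (P2 := 0) (W2 := 1230186008) (P3 := 402653184) (W3 := 67108864) (N0 := 3)
    rfl (fun _ => rfl) s2_pp_123

noncomputable def f_pp_133 : ℕ → ℕ → ℕ → ℕ → Bool := onCell 536870912 536870912 0 1230186008 402653184 67108864
    (rowN 3 0 false true true .dn 1 3 3 (qsf 536870912 536870912 0 1230186008 3) ndN0q1 ndN3q3 pcN3 Cut.none Ext.none)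

def k0_pp_133 : ∃ t, chk3 f_pp_133 t 1 1 1 = true :=
  ⟨(b (b (a (a (a (l 17056880) (l 1)) (l 1)) (l 1)) (l 1)) (l 1)), by decide +kernel⟩

theorem c_pp_133 : CertN 536870912 536870912 0 1230186008 402653184 67108864 3 false true true .dn 1 3 3
    ndN0q1 ndN3q3 pcN3 Cut.none Ext.none :=
  certN0 (fam := false) (s1 := true) (s2 := true) (a := 1) (b := 3) (c := 3) (cn := .dn) (n1 := ndN0q1) (n2 := ndN3q3) (pc := pcN3) (cut := Cut.none) (xt := Ext.none) (P1 := 536870912) (W1 := 536870912) (P2 := 0) (W2 := 1230186008) (P3 := 402653184) (W3 := 67108864) (N0 := 3)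
    rfl k0_pp_133

noncomputable def f_pp_202 : ℕ → ℕ → ℕ → ℕ → Bool := onCell 0 536870912 1073741824 536870912 402653184 67108864
    (rowN 3 0 false true true .pp 2 0 2 (qsf 0 536870912 1073741824 536870912 0) ndN0q2 ndN3q2 pcN0 Cut.none Ext.none)

def k0_pp_202 : ∃ t, chk3 f_pp_202 t 1 1 1 = true :=
  ⟨(a (l 5) (l 3)), by decide +kernel⟩

theorem c_pp_202 : CertN 0 536870912 1073741824 536870912 402653184 67108864 3 false true true .pp 2 0 2
    ndN0q2 ndN3q2 pcN0 Cut.none Ext.none :=
  certN0 (fam := false) (s1 := true) (s2 := true) (a := 2) (b := 0) (c := 2) (cn := .pp) (n1 := ndN0q2) (n2 := ndN3q2) (pc := pcN0) (cut := Cut.none) (xt := Ext.none) (P1 := 0) (W1 := 536870912) (P2 := 1073741824) (W2 := 536870912) (P3 := 402653184) (W3 := 67108864) (N0 := 3)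
    rfl k0_pp_202

noncomputable def f_pp_203 : ℕ → ℕ → ℕ → ℕ → Bool := onCell 0 536870912 0 1230186008 402653184 67108864
    (rowN 3 0 false true true .up 2 0 3 (qsf 0 536870912 0 1230186008 0) ndN0q2 ndN3q3 pcN0 Cut.none Ext.none)

def k0_pp_203 : ∃ t, chk3 f_pp_203 t 1 1 1 = true :=
  ⟨(b (l 2) (l 3)), by decide +kernel⟩

theorem c_pp_203 : CertN 0 536870912 0 1230186008 402653184 67108864 3 false true true .up 2 0 3
    ndN0q2 ndN3q3 pcN0 Cut.none Ext.none :=
  certN0 (fam := false) (s1 := true) (s2 := true) (a := 2) (b := 0) (c := 3) (cn := .up) (n1 := ndN0q2) (n2 := ndN3q3) (pc := pcN0) (cut := Cut.none) (xt := Ext.none) (P1 := 0) (W1 := 536870912) (P2 := 0) (W2 := 1230186008) (P3 := 402653184) (W3 := 67108864) (N0 := 3)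
    rfl k0_pp_203

noncomputable def cut_pp_213 : Cut := Cut.of [[⟨0, 1, 0, 67108864⟩, ⟨1, 1, 0, 67108864⟩, ⟨2, 2, 0, 16777216⟩]]

noncomputable def f_pp_213 : ℕ → ℕ → ℕ → ℕ → Bool := onCell 0 536870912 0 1230186008 402653184 67108864
    (rowN 3 0 false true true .pnn 2 1 3 (qsf 0 536870912 0 1230186008 1) ndN0q2 ndN3q3 pcN1 cut_pp_213 Ext.none)

def k0_pp_213 : ∃ t, chk3 f_pp_213 t 1 1 1 = true :=
  ⟨(b (a (l 3) (b (a (l 3) (a (l 3) (b (l 6) (l 3)))) (l 3))) (l 3)), by decide +kernel⟩

theorem c_pp_213 : CertN 0 536870912 0 1230186008 402653184 67108864 3 false true true .pnn 2 1 3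
    ndN0q2 ndN3q3 pcN1 cut_pp_213 Ext.none :=
  certN0 (fam := false) (s1 := true) (s2 := true) (a := 2) (b := 1) (c := 3) (cn := .pnn) (n1 := ndN0q2) (n2 := ndN3q3) (pc := pcN1) (cut := cut_pp_213) (xt := Ext.none) (P1 := 0) (W1 := 536870912) (P2 := 0) (W2 := 1230186008) (P3 := 402653184) (W3 := 67108864) (N0 := 3)
    rfl k0_pp_213

noncomputable def f_pm_001 : ℕ → ℕ → ℕ → ℕ → Bool := onCell 0 536870912 536870912 536870912 402653184 67108864
    (rowN 3 0 false true false .up 0 0 1 (qsf 0 536870912 536870912 536870912 0) ndN0q0 ndN3q1 pcN0 Cut.none Ext.none)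

def k0_pm_001 : ∃ t, chk3 f_pm_001 t 1 1 1 = true :=
  ⟨(l 4), by decide +kernel⟩

theorem c_pm_001 : CertN 0 536870912 536870912 536870912 402653184 67108864 3 false true false .up 0 0 1
    ndN0q0 ndN3q1 pcN0 Cut.none Ext.none :=
  certN0 (fam := false) (s1 := true) (s2 := false) (a := 0) (b := 0) (c := 1) (cn := .up) (n1 := ndN0q0) (n2 := ndN3q1) (pc := pcN0) (cut := Cut.none) (xt := Ext.none) (P1 := 0) (W1 := 536870912) (P2 := 536870912) (W2 := 536870912) (P3 := 402653184) (W3 := 67108864) (N0 := 3)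
    rfl k0_pm_001

noncomputable def f_pm_011 : ℕ → ℕ → ℕ → ℕ → Bool := onCell 0 536870912 536870912 536870912 402653184 67108864
    (rowN 3 0 false true false .pnn 0 1 1 (qsf 0 536870912 536870912 536870912 1) ndN0q0 ndN3q1 pcN1 Cut.none Ext.none)

def k0_pm_011 : ∃ t, chk3 f_pm_011 t 1 1 1 = true :=
  ⟨(l 4), by decide +kernel⟩

theorem c_pm_011 : CertN 0 536870912 536870912 536870912 402653184 67108864 3 false true false .pnn 0 1 1
    ndN0q0 ndN3q1 pcN1 Cut.none Ext.none :=
  certN0 (fam := false) (s1 := true) (s2 := false) (a := 0) (b := 1) (c := 1) (cn := .pnn) (n1 := ndN0q0) (n2 := ndN3q1) (pc := pcN1) (cut := Cut.none) (xt := Ext.none) (P1 := 0) (W1 := 536870912) (P2 := 536870912) (W2 := 536870912) (P3 := 402653184) (W3 := 67108864) (N0 := 3)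
    rfl k0_pm_011

noncomputable def f_pm_012 : ℕ → ℕ → ℕ → ℕ → Bool := onCell 0 536870912 1073741824 536870912 402653184 67108864
    (rowN 3 0 false true false .pnp 0 1 2 (qsf 0 536870912 1073741824 536870912 1) ndN0q0 ndN3q2 pcN1 Cut.none Ext.none)

def k0_pm_012 : ∃ t, chk3 f_pm_012 t 1 1 1 = true :=
  ⟨(l 4), by decide +kernel⟩

theorem c_pm_012 : CertN 0 536870912 1073741824 536870912 402653184 67108864 3 false true false .pnp 0 1 2
    ndN0q0 ndN3q2 pcN1 Cut.none Ext.none :=
  certN0 (fam := false) (s1 := true) (s2 := false) (a := 0) (b := 1) (c := 2) (cn := .pnp) (n1 := ndN0q0) (n2 := ndN3q2) (pc := pcN1) (cut := Cut.none) (xt := Ext.none) (P1 := 0) (W1 := 536870912) (P2 := 1073741824) (W2 := 536870912) (P3 := 402653184) (W3 := 67108864) (N0 := 3)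
    rfl k0_pm_012

noncomputable def f_pm_022 : ℕ → ℕ → ℕ → ℕ → Bool := onCell 0 536870912 1073741824 536870912 402653184 67108864
    (rowN 3 0 false true false .pp 0 2 2 (qsf 0 536870912 1073741824 536870912 2) ndN0q0 ndN3q2 pcN2 Cut.none Ext.none)

def k0_pm_022 : ∃ t, chk3 f_pm_022 t 1 1 1 = true :=
  ⟨(l 4), by decide +kernel⟩

theorem c_pm_022 : CertN 0 536870912 1073741824 536870912 402653184 67108864 3 false true false .pp 0 2 2
    ndN0q0 ndN3q2 pcN2 Cut.none Ext.none :=
  certN0 (fam := false) (s1 := true) (s2 := false) (a := 0) (b := 2) (c := 2) (cn := .pp) (n1 := ndN0q0) (n2 := ndN3q2) (pc := pcN2) (cut := Cut.none) (xt := Ext.none) (P1 := 0) (W1 := 536870912) (P2 := 1073741824) (W2 := 536870912) (P3 := 402653184) (W3 := 67108864) (N0 := 3)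
    rfl k0_pm_022

noncomputable def f_pm_023 : ℕ → ℕ → ℕ → ℕ → Bool := onCell 0 536870912 0 1230186008 402653184 67108864
    (rowN 3 0 false true false .up 0 2 3 (qsf 0 536870912 0 1230186008 2) ndN0q0 ndN3q3 pcN2 Cut.none Ext.none)

def k0_pm_023 : ∃ t, chk3 f_pm_023 t 1 1 1 = true :=
  ⟨(a (b (l 2) (l 4)) (b (a (l 2) (b (a (l 2) (l 17063152)) (a (b (l 17081520) (l 4)) (b (l 17094760) (l 17128528))))) (b (a (l 4) (b (l 4) (l 4))) (l 4)))), by decide +kernel⟩

theorem c_pm_023 : CertN 0 536870912 0 1230186008 402653184 67108864 3 false true false .up 0 2 3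
    ndN0q0 ndN3q3 pcN2 Cut.none Ext.none :=
  certN0 (fam := false) (s1 := true) (s2 := false) (a := 0) (b := 2) (c := 3) (cn := .up) (n1 := ndN0q0) (n2 := ndN3q3) (pc := pcN2) (cut := Cut.none) (xt := Ext.none) (P1 := 0) (W1 := 536870912) (P2 := 0) (W2 := 1230186008) (P3 := 402653184) (W3 := 67108864) (N0 := 3)
    rfl k0_pm_023

noncomputable def f_pm_033 : ℕ → ℕ → ℕ → ℕ → Bool := onCell 1610612736 536870912 0 1230186008 402653184 67108864
    (rowN 3 2 false true false .pnn 0 3 3 (qsf 0 536870912 0 1230186008 3) ndN0q0 ndN3q3 pcN3 Cut.none Ext.none)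

def k0_pm_033 : ∃ t, chk3 f_pm_033 t 1 1 1 = true :=
  ⟨(b (a (b (a (a (l 17070264) (l 17056072)) (a (l 17043232) (l 4))) (a (a (b (l 17088200) (l 4)) (l 4)) (l 4))) (l 4)) (l 4)), by decide +kernel⟩

theorem c_pm_033 : CertN 0 536870912 0 1230186008 402653184 67108864 3 false true false .pnn 0 3 3
    ndN0q0 ndN3q3 pcN3 Cut.none Ext.none :=
  certN2 (fam := false) (s1 := true) (s2 := false) (a := 0) (b := 3) (c := 3) (cn := .pnn) (n1 := ndN0q0) (n2 := ndN3q3) (pc := pcN3) (cut := Cut.none) (xt := Ext.none) (P1 := 0) (W1 := 536870912) (P2 := 0) (W2 := 1230186008) (P3 := 402653184) (W3 := 67108864) (N0 := 3)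
    rfl (fun _ => rfl) k0_pm_033

noncomputable def f_pm_101 : ℕ → ℕ → ℕ → ℕ → Bool := onCell 536870912 536870912 536870912 536870912 402653184 67108864
    (rowN 3 0 false true false .npn 1 0 1 (qsf 536870912 536870912 536870912 536870912 0) ndN0q1 ndN3q1 pcN0 Cut.none Ext.none)

def k0_pm_101 : ∃ t, chk3 f_pm_101 t 1 1 1 = true :=
  ⟨(l 4), by decide +kernel⟩

theorem c_pm_101 : CertN 536870912 536870912 536870912 536870912 402653184 67108864 3 false true false .npn 1 0 1
    ndN0q1 ndN3q1 pcN0 Cut.none Ext.none :=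
  certN0 (fam := false) (s1 := true) (s2 := false) (a := 1) (b := 0) (c := 1) (cn := .npn) (n1 := ndN0q1) (n2 := ndN3q1) (pc := pcN0) (cut := Cut.none) (xt := Ext.none) (P1 := 536870912) (W1 := 536870912) (P2 := 536870912) (W2 := 536870912) (P3 := 402653184) (W3 := 67108864) (N0 := 3)
    rfl k0_pm_101

noncomputable def f_pm_102 : ℕ → ℕ → ℕ → ℕ → Bool := onCell 536870912 536870912 0 536870912 402653184 67108864
    (rowN 3 1 false true false .npp 1 0 2 (qsf 536870912 536870912 1073741824 536870912 0) ndN0q1 ndN3q2 pcN0 Cut.none Ext.none)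

def k0_pm_102 : ∃ t, chk3 f_pm_102 t 1 1 1 = true :=
  ⟨(a (b (l 4) (b (l 4) (b (l 4) (a (l 4) (a (l 4) (l 17135352)))))) (b (b (a (b (l 1) (a (l 1) (a (l 1) (l 418256927847)))) (a (b (a (l 1) (l 477850127703)) (a (l 420941626183) (l 17213240))) (b (b (l 512209700615) (l 17206288)) (b (l 17119136) (l 17134496))))) (a (b (a (a (l 1) (b (l 1) (l 246457950823))) (a (l 352221789623) (l 17221112))) (a (a (l 4) (b (l 17159000) (l 17166232))) (a (l 17201056) (l 17216720)))) (a (b (l 17453296) (l 17209448)) (b (a (l 17164696) (l 17178696)) (a (l 17191816) (l 17221584)))))) (a (b (a (b (a (l 17126760) (l 17181568)) (l 17184008)) (b (l 17224640) (l 17246208))) (b (a (l 17217072) (l 17265088)) (a (l 17246416) (a (l 17270704) (l 17256128))))) (b (b (a (l 17226752) (a (l 17221568) (l 17236864))) (a (a (l 17252608) (l 17239880)) (a (l 17215216) (l 17255960)))) (a (b (a (l 17253552) (l 17214072)) (a (b (l 17232336) (l 17194816)) (b (l 17175584) (l 17163416)))) (b (b (a (l 17199152) (l 17274696))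 (a (l 17197984) (l 17290952))) (b (a (l 17201424) (l 17298632)) (l 17249672)))))))), by decide +kernel⟩

theorem c_pm_102 : CertN 536870912 536870912 1073741824 536870912 402653184 67108864 3 false true false .npp 1 0 2
    ndN0q1 ndN3q2 pcN0 Cut.none Ext.none :=
  certN1 (fam := false) (s1 := true) (s2 := false) (a := 1) (b := 0) (c := 2) (cn := .npp) (n1 := ndN0q1) (n2 := ndN3q2) (pc := pcN0) (cut := Cut.none) (xt := Ext.none) (P1 := 536870912) (W1 := 536870912) (P2 := 1073741824) (W2 := 536870912) (P3 := 402653184) (W3 := 67108864) (N0 := 3)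
    rfl (fun _ => rfl) k0_pm_102

noncomputable def f_pm_112 : ℕ → ℕ → ℕ → ℕ → Bool := onCell 536870912 536870912 1073741824 536870912 402653184 67108864
    (rowN 3 2 false true false .dn 1 1 2 (qsf 536870912 536870912 1073741824 536870912 1) ndN0q1 ndN3q2 pcN1 Cut.none Ext.none)

def k0_pm_112 : ∃ t, chk3 f_pm_112 t 1 1 1 = true :=
  ⟨(a (b (a (b (l 4) (b (l 4) (a (l 17089344) (l 4)))) (l 4)) (a (a (b (b (l 17237016) (a (b (l 17324312) (l 17335096)) (l 17310072))) (a (b (b (l 17304192) (l 17259928)) (l 17213208)) (b (b (l 17341160) (l 17325240)) (b (l 17293512) (l 17235032))))) (b (b (l 17132280) (l 17274376)) (b (a (l 17345608) (l 17331752)) (a (l 17293776) (l 17315320))))) (b (a (b (l 4) (l 17176192)) (l 4)) (a (b (l 21711254247) (b (l 17345240) (l 17327024))) (b (l 17219856) (l 17547128)))))) (b (l 4) (a (b (l 4) (b (l 4) (a (l 17256648) (l 17129504)))) (l 4)))), by decide +kernel⟩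

theorem c_pm_112 : CertN 536870912 536870912 1073741824 536870912 402653184 67108864 3 false true false .dn 1 1 2
    ndN0q1 ndN3q2 pcN1 Cut.none Ext.none :=
  certN2 (fam := false) (s1 := true) (s2 := false) (a := 1) (b := 1) (c := 2) (cn := .dn) (n1 := ndN0q1) (n2 := ndN3q2) (pc := pcN1) (cut := Cut.none) (xt := Ext.none) (P1 := 536870912) (W1 := 536870912) (P2 := 1073741824) (W2 := 536870912) (P3 := 402653184) (W3 := 67108864) (N0 := 3)
    rfl (fun _ => rfl) k0_pm_112

noncomputable def cut_pm_113 : Cut := Cut.of [[⟨0, 1, 0, 67108864⟩, ⟨1, 1, 0, 67108864⟩, ⟨2, 2, 0, 16777216⟩]]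

noncomputable def f_pm_113 : ℕ → ℕ → ℕ → ℕ → Bool := onCell 536870912 536870912 0 1230186008 402653184 67108864
    (rowN 3 0 false true false .nn 1 1 3 (qsf 536870912 536870912 0 1230186008 1) ndN0q1 ndN3q3 pcN1 cut_pm_113 Ext.none)

def k0_pm_113 : ∃ t, chk3 f_pm_113 t 1 1 1 = true :=
  ⟨(b (a (l 2) (a (l 2) (b (a (l 2) (a (l 2) (b (l 6) (l 16856136)))) (a (b (l 16966760) (l 16996616)) (b (a (l 16882496) (l 16845600)) (l 17111928)))))) (b (a (a (l 2) (b (l 2) (a (l 2) (l 17383192)))) (a (b (a (l 2) (l 17160728)) (a (l 17297632) (l 17186104))) (b (a (l 17025384) (l 17036720)) (a (l 17170656) (a (l 17023184) (l 17019904)))))) (a (a (b (l 2) (l 4)) (b (a (b (l 17348712) (l 17307136)) (l 17343232)) (a (b (l 17272168) (l 17425224)) (b (l 17339648) (b (l 17333448) (l 17321096)))))) (b (a (a (l 17305104) (b (l 17215496) (l 17241920))) (a (l 17240040) (b (l 17090176) (l 17127200)))) (a (b (a (l 17329368) (l 17270840)) (a (l 17344848) (b (l 17293528) (l 17311184)))) (a (b (l 17193352)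 (b (l 17225576) (a (b (l 17259560) (l 17271928)) (l 17234576)))) (b (a (l 17153024) (b (l 17169968) (l 17176800))) (b (l 17181256) (a (b (l 17202624) (l 17211672)) (l 17202736)))))))))), by decide +kernel⟩

theorem c_pm_113 : CertN 536870912 536870912 0 1230186008 402653184 67108864 3 false true false .nn 1 1 3
    ndN0q1 ndN3q3 pcN1 cut_pm_113 Ext.none :=
  certN0 (fam := false) (s1 := true) (s2 := false) (a := 1) (b := 1) (c := 3) (cn := .nn) (n1 := ndN0q1) (n2 := ndN3q3) (pc := pcN1) (cut := cut_pm_113) (xt := Ext.none) (P1 := 536870912) (W1 := 536870912) (P2 := 0) (W2 := 1230186008) (P3 := 402653184) (W3 := 67108864) (N0 := 3)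
    rfl k0_pm_113

noncomputable def cut_pm_123 : Cut := Cut.of [[⟨0, 1, 0, 67108864⟩, ⟨1, 1, 0, 67108864⟩, ⟨2, 2, 0, 16777216⟩]]

noncomputable def f_pm_123 : ℕ → ℕ → ℕ → ℕ → Bool := onCell 536870912 536870912 0 1230186008 402653184 67108864
    (rowN 3 0 false true false .npn 1 2 3 (qsf 536870912 536870912 0 1230186008 2) ndN0q1 ndN3q3 pcN2 cut_pm_123 Ext.none)

def k0_pm_123 : ∃ t, chk3 f_pm_123 t 1 1 1 = true :=
  ⟨(b (b (a (a (a (l 17051392) (l 17024096)) (a (l 16984216) (l 17189536))) (a (a (l 16882280) (l 16837880)) (a (b (a (l 16792176) (l 16784984)) (l 16831280)) (b (a (l 16782552) (l 6)) (a (l 16814800) (b (l 6) (l 16817696))))))) (a (a (a (b (l 17087584) (l 17128264)) (l 17134440)) (a (l 17257232) (b (l 17008056) (l 17073904)))) (a (a (l 17008512) (l 16981904)) (a (b (l 16903928) (l 17012768)) (b (l 16880544) (l 548179192679)))))) (b (a (a (a (b (l 17169896) (l 17359848)) (b (l 17170520) (l 17219320))) (b (a (l 17166464) (l 17163864)) (a (l 17245592) (l 17279048)))) (a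 (b (a (l 17164592) (l 17169568)) (a (l 17322168) (l 17413576))) (b (a (l 398929914583) (l 1)) (l 1)))) (a (a (b (a (l 4) (b (l 17226872) (l 17195376))) (l 4)) (a (b (b (l 17294392) (l 17307320)) (b (l 422015597959) (l 1))) (b (b (l 17374064) (l 1)) (l 1)))) (l 1)))), by decide +kernel⟩

theorem c_pm_123 : CertN 536870912 536870912 0 1230186008 402653184 67108864 3 false true false .npn 1 2 3
    ndN0q1 ndN3q3 pcN2 cut_pm_123 Ext.none :=
  certN0 (fam := false) (s1 := true) (s2 := false) (a := 1) (b := 2) (c := 3) (cn := .npn) (n1 := ndN0q1) (n2 := ndN3q3) (pc := pcN2) (cut := cut_pm_123) (xt := Ext.none) (P1 := 536870912) (W1 := 536870912) (P2 := 0) (W2 := 1230186008) (P3 := 402653184) (W3 := 67108864) (N0 := 3)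
    rfl k0_pm_123

noncomputable def f_pm_133 : ℕ → ℕ → ℕ → ℕ → Bool := onCell 536870912 536870912 0 1230186008 402653184 67108864
    (rowN 3 0 false true false .dn 1 3 3 (qsf 536870912 536870912 0 1230186008 3) ndN0q1 ndN3q3 pcN3 Cut.none Ext.none)

def k0_pm_133 : ∃ t, chk3 f_pm_133 t 1 1 1 = true :=
  ⟨(b (b (a (a (a (l 17058416) (l 1)) (l 1)) (l 1)) (l 1)) (l 1)), by decide +kernel⟩

theorem c_pm_133 : CertN 536870912 536870912 0 1230186008 402653184 67108864 3 false true false .dn 1 3 3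
    ndN0q1 ndN3q3 pcN3 Cut.none Ext.none :=
  certN0 (fam := false) (s1 := true) (s2 := false) (a := 1) (b := 3) (c := 3) (cn := .dn) (n1 := ndN0q1) (n2 := ndN3q3) (pc := pcN3) (cut := Cut.none) (xt := Ext.none) (P1 := 536870912) (W1 := 536870912) (P2 := 0) (W2 := 1230186008) (P3 := 402653184) (W3 := 67108864) (N0 := 3)
    rfl k0_pm_133

noncomputable def f_pm_202 : ℕ → ℕ → ℕ → ℕ → Bool := onCell 0 536870912 0 536870912 402653184 67108864
    (rowN 3 1 false true false .pp 2 0 2 (qsf 0 536870912 1073741824 536870912 0) ndN0q2 ndN3q2 pcN0 Cut.none Ext.none)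

def k0_pm_202 : ∃ t, chk3 f_pm_202 t 1 2 1 = true :=
  ⟨(a (b (a (b (a (a (l 3) (b (b (l 138143106295) (l 137606167783)) (b (l 145122434807) (l 3)))) (b (a (b (l 16484768) (l 16558688)) (l 16490472)) (a (b (a (l 16522472) (l 16530928)) (l 134921996311)) (a (l 16604296) (l 16569696))))) (a (l 3) (b (a (a (l 150491191895) (l 16527600)) (b (l 16629944) (l 16532144))) (a (l 146196153863) (l 16542184))))) (b (a (b (a (l 16510760) (l 16535528)) (l 16553272)) (b (l 16630296) (l 16613168))) (a (b (a (l 16672880) (l 16590568)) (a (l 16575824) (l 16653048))) (b (l 16643368) (l 16661872))))) (a (a (l 3) (b (a (b (l 153712398935) (l 3)) (b (l 129016407063) (l 139216997303))) (a (l 3) (b (l 139753886919) (l 162302551223))))) (b (b (a (a (l 16588080) (l 16622072)) (l 16762936)) (a (l 16621712) (l 16881256))) (a (a (b (l 16630504) (l 134922250327)) (l 16670808)) (a (l 16704912) (l 16732176)))))) (b (a (b (a (l 16667608) (b (l 16711848) (l 16761336))) (a (b (l 16710256) (l 16741000)) (b (l 16803048)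 (l 16832592)))) (b (b (a (a (l 16777480) (l 16854408)) (l 16999688)) (a (l 16852928) (a (l 16955864) (l 17054144)))) (a (l 16922704) (a (l 17003992) (l 17087128))))) (a (b (a (l 16769808) (l 16865816)) (a (l 17005648) (l 16905960))) (b (a (l 16992080) (l 17164528)) (a (l 17041744) (l 17253144)))))), by decide +kernel⟩

def k1_pm_202 : ∃ t, chk3 f_pm_202 t 1 3 1 = true :=
  ⟨(a (b (a (l 3) (b (a (a (b (l 137069718887) (l 144049159351)) (b (l 16723768) (l 16773752))) (l 16773624)) (a (a (l 3) (b (l 137606864407) (l 143512575047))) (b (l 16850424) (l 16914768))))) (a (l 2) (b (a (l 2) (l 1239199137095)) (l 2)))) (b (a (b (a (l 16832080) (l 16943664)) (a (l 16899440) (l 16965008))) (b (a (a (l 17044568) (l 17126056)) (a (l 17223768) (l 17352336))) (a (l 17131488) (a (l 17276520) (l 17401696))))) (a (b (a (l 16989984) (l 17015896)) (l 2)) (b (l 17257752) (l 17301376))))), by decide +kernel⟩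

theorem s2_pm_202 : ∃ t, chk3 f_pm_202 t 1 1 1 = true := ex3_b k0_pm_202 k1_pm_202

theorem c_pm_202 : CertN 0 536870912 1073741824 536870912 402653184 67108864 3 false true false .pp 2 0 2
    ndN0q2 ndN3q2 pcN0 Cut.none Ext.none :=
  certN1 (fam := false) (s1 := true) (s2 := false) (a := 2) (b := 0) (c := 2) (cn := .pp) (n1 := ndN0q2) (n2 := ndN3q2) (pc := pcN0) (cut := Cut.none) (xt := Ext.none) (P1 := 0) (W1 := 536870912) (P2 := 1073741824) (W2 := 536870912) (P3 := 402653184) (W3 := 67108864) (N0 := 3)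
    rfl (fun _ => rfl) s2_pm_202

noncomputable def f_pm_203 : ℕ → ℕ → ℕ → ℕ → Bool := onCell 0 536870912 0 1230186008 402653184 67108864
    (rowN 3 0 false true false .up 2 0 3 (qsf 0 536870912 0 1230186008 0) ndN0q2 ndN3q3 pcN0 Cut.none Ext.none)

def k0_pm_203 : ∃ t, chk3 f_pm_203 t 1 1 1 = true :=
  ⟨(b (l 2) (b (l 2) (a (a (l 3) (b (a (l 3) (a (l 3) (l 2))) (b (b (a (l 3) (a (l 170893358775) (l 17083872))) (a (l 3) (a (l 160155932183) (l 17098624)))) (b (a (l 3) (a (l 172503853335) (l 17089432))) (a (a (l 3) (l 168745748775)) (a (l 17043288) (l 17056784))))))) (b (l 2) (a (b (a (a (l 17110120) (l 17115560)) (l 17119080)) (a (a (l 17087448) (l 17097384)) (l 17114472))) (b (a (l 17115240) (l 2)) (a (l 17159072) (l 17241928)))))))), by decide +kernel⟩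

theorem c_pm_203 : CertN 0 536870912 0 1230186008 402653184 67108864 3 false true false .up 2 0 3
    ndN0q2 ndN3q3 pcN0 Cut.none Ext.none :=
  certN0 (fam := false) (s1 := true) (s2 := false) (a := 2) (b := 0) (c := 3) (cn := .up) (n1 := ndN0q2) (n2 := ndN3q3) (pc := pcN0) (cut := Cut.none) (xt := Ext.none) (P1 := 0) (W1 := 536870912) (P2 := 0) (W2 := 1230186008) (P3 := 402653184) (W3 := 67108864) (N0 := 3)
    rfl k0_pm_203

noncomputable def cut_pm_213 : Cut := Cut.of [[⟨0, 1, 0, 67108864⟩, ⟨1, 1, 0, 67108864⟩, ⟨2, 2, 0, 16777216⟩]]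

noncomputable def f_pm_213 : ℕ → ℕ → ℕ → ℕ → Bool := onCell 0 536870912 0 1230186008 402653184 67108864
    (rowN 3 0 false true false .pnn 2 1 3 (qsf 0 536870912 0 1230186008 1) ndN0q2 ndN3q3 pcN1 cut_pm_213 Ext.none)

def k0_pm_213 : ∃ t, chk3 f_pm_213 t 1 1 1 = true :=
  ⟨(b (a (l 3) (b (a (l 3) (a (b (l 3) (a (l 3) (b (l 3) (a (l 3) (b (l 3) (l 307257972311)))))) (b (l 6) (a (b (a (l 6) (l 6)) (a (b (l 264845182695) (l 16798536)) (l 16797512))) (b (a (l 6) (l 6)) (l 16802480)))))) (a (b (l 3) (a (l 3) (a (l 3) (b (l 3) (b (l 290078238791) (l 248202376727)))))) (b (a (a (b (l 3) (a (l 3) (l 290078153239))) (b (b (a (l 302963015047) (l 261623959575)) (l 258402789895)) (b (l 257329064167) (l 16829632)))) (a (b (l 16831920) (l 16829408)) (l 16911624))) (a (a (b (a (l 277730160087) (l 263234670455)) (b (l 16860168) (l 16874008))) (b (l 16846552) (l 16872944))) (l 17121160)))))) (b (a (l 3) (b (a (a (l 3) (b (a (a (l 3) (l 285783415383)) (b (l 244444330743) (l 16898304))) (a (b (l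 238001866039) (l 251423663991)) (l 16926928)))) (a (b (l 16943416) (l 16939680)) (l 16998384))) (a (a (b (a (l 3) (b (l 268603544919) (l 238001950119))) (a (l 269677386615) (a (l 220285496583) (l 17009048)))) (b (a (l 222969777607) (l 16974848)) (l 17123088))) (a (a (l 17085032) (l 17005688)) (l 17015096))))) (a (a (l 3) (b (a (l 3) (b (l 3) (b (l 224580440295) (l 179483303095)))) (b (a (l 1) (b (a (l 171430229399) (l 139754692503)) (l 1))) (l 1)))) (b (b (a (a (b (l 198273899239) (l 180020288279)) (l 17059944)) (l 17210080)) (a (a (b (l 17092120) (l 17103624)) (l 17092640)) (a (l 17089968) (a (l 17090536) (l 17105480))))) (a (b (a (a (l 17106152) (l 17110072)) (l 17110816)) (l 1)) (b (a (a (l 17108464) (l 17110520)) (b (l 17138088) (a (l 17154320) (l 17241648)))) (a (b (l 17136552) (l 1)) (b (l 17290384) (l 17305248))))))))), by decide +kernel⟩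

theorem c_pm_213 : CertN 0 536870912 0 1230186008 402653184 67108864 3 false true false .pnn 2 1 3
    ndN0q2 ndN3q3 pcN1 cut_pm_213 Ext.none :=
  certN0 (fam := false) (s1 := true) (s2 := false) (a := 2) (b := 1) (c := 3) (cn := .pnn) (n1 := ndN0q2) (n2 := ndN3q3) (pc := pcN1) (cut := cut_pm_213) (xt := Ext.none) (P1 := 0) (W1 := 536870912) (P2 := 0) (W2 := 1230186008) (P3 := 402653184) (W3 := 67108864) (N0 := 3)
    rfl k0_pm_213

noncomputable def f_mm_001 : ℕ → ℕ → ℕ → ℕ → Bool := onCell 0 536870912 0 536870912 402653184 67108864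
    (rowN 3 1 false false false .up 0 0 1 (qsf 0 536870912 536870912 536870912 0) ndN0q0 ndN3q1 pcN0 Cut.none Ext.none)

def k0_mm_001 : ∃ t, chk3 f_mm_001 t 1 1 1 = true :=
  ⟨(l 3), by decide +kernel⟩

theorem c_mm_001 : CertN 0 536870912 536870912 536870912 402653184 67108864 3 false false false .up 0 0 1
    ndN0q0 ndN3q1 pcN0 Cut.none Ext.none :=
  certN1 (fam := false) (s1 := false) (s2 := false) (a := 0) (b := 0) (c := 1) (cn := .up) (n1 := ndN0q0) (n2 := ndN3q1) (pc := pcN0) (cut := Cut.none) (xt := Ext.none) (P1 := 0) (W1 := 536870912) (P2 := 536870912) (W2 := 536870912) (P3 := 402653184) (W3 := 67108864) (N0 := 3)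
    rfl (fun _ => rfl) k0_mm_001

noncomputable def f_mm_011 : ℕ → ℕ → ℕ → ℕ → Bool := onCell 0 536870912 536870912 536870912 402653184 67108864
    (rowN 3 1 false false false .pnn 0 1 1 (qsf 0 536870912 536870912 536870912 1) ndN0q0 ndN3q1 pcN1 Cut.none Ext.none)

def k0_mm_011 : ∃ t, chk3 f_mm_011 t 1 1 1 = true :=
  ⟨(l 5), by decide +kernel⟩

theorem c_mm_011 : CertN 0 536870912 536870912 536870912 402653184 67108864 3 false false false .pnn 0 1 1
    ndN0q0 ndN3q1 pcN1 Cut.none Ext.none :=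
  certN1 (fam := false) (s1 := false) (s2 := false) (a := 0) (b := 1) (c := 1) (cn := .pnn) (n1 := ndN0q0) (n2 := ndN3q1) (pc := pcN1) (cut := Cut.none) (xt := Ext.none) (P1 := 0) (W1 := 536870912) (P2 := 536870912) (W2 := 536870912) (P3 := 402653184) (W3 := 67108864) (N0 := 3)
    rfl (fun _ => rfl) k0_mm_011

noncomputable def f_mm_012 : ℕ → ℕ → ℕ → ℕ → Bool := onCell 0 536870912 1073741824 536870912 402653184 67108864
    (rowN 3 0 false false false .pnp 0 1 2 (qsf 0 536870912 1073741824 536870912 1) ndN0q0 ndN3q2 pcN1 Cut.none Ext.none)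

def k0_mm_012 : ∃ t, chk3 f_mm_012 t 1 1 1 = true :=
  ⟨(l 5), by decide +kernel⟩

theorem c_mm_012 : CertN 0 536870912 1073741824 536870912 402653184 67108864 3 false false false .pnp 0 1 2
    ndN0q0 ndN3q2 pcN1 Cut.none Ext.none :=
  certN0 (fam := false) (s1 := false) (s2 := false) (a := 0) (b := 1) (c := 2) (cn := .pnp) (n1 := ndN0q0) (n2 := ndN3q2) (pc := pcN1) (cut := Cut.none) (xt := Ext.none) (P1 := 0) (W1 := 536870912) (P2 := 1073741824) (W2 := 536870912) (P3 := 402653184) (W3 := 67108864) (N0 := 3)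
    rfl k0_mm_012

noncomputable def f_mm_022 : ℕ → ℕ → ℕ → ℕ → Bool := onCell 0 536870912 1073741824 536870912 402653184 67108864
    (rowN 3 0 false false false .pp 0 2 2 (qsf 0 536870912 1073741824 536870912 2) ndN0q0 ndN3q2 pcN2 Cut.none Ext.none)

def k0_mm_022 : ∃ t, chk3 f_mm_022 t 1 1 1 = true :=
  ⟨(l 5), by decide +kernel⟩

theorem c_mm_022 : CertN 0 536870912 1073741824 536870912 402653184 67108864 3 false false false .pp 0 2 2
    ndN0q0 ndN3q2 pcN2 Cut.none Ext.none :=
  certN0 (fam := false) (s1 := false) (s2 := false) (a := 0) (b := 2) (c := 2) (cn := .pp) (n1 := ndN0q0) (n2 := ndN3q2) (pc := pcN2) (cut := Cut.none) (xt := Ext.none) (P1 := 0) (W1 := 536870912) (P2 := 1073741824) (W2 := 536870912) (P3 := 402653184) (W3 := 67108864) (N0 := 3)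
    rfl k0_mm_022

noncomputable def f_mm_023 : ℕ → ℕ → ℕ → ℕ → Bool := onCell 0 536870912 0 1230186008 402653184 67108864
    (rowN 3 0 false false false .up 0 2 3 (qsf 0 536870912 0 1230186008 2) ndN0q0 ndN3q3 pcN2 Cut.none Ext.none)

def k0_mm_023 : ∃ t, chk3 f_mm_023 t 1 1 1 = true :=
  ⟨(l 5), by decide +kernel⟩

theorem c_mm_023 : CertN 0 536870912 0 1230186008 402653184 67108864 3 false false false .up 0 2 3
    ndN0q0 ndN3q3 pcN2 Cut.none Ext.none :=
  certN0 (fam := false) (s1 := false) (s2 := false) (a := 0) (b := 2) (c := 3) (cn := .up) (n1 := ndN0q0) (n2 := ndN3q3) (pc := pcN2) (cut := Cut.none) (xt := Ext.none) (P1 := 0) (W1 := 536870912) (P2 := 0) (W2 := 1230186008) (P3 := 402653184) (W3 := 67108864) (N0 := 3)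
    rfl k0_mm_023

noncomputable def f_mm_033 : ℕ → ℕ → ℕ → ℕ → Bool := onCell 0 536870912 0 1230186008 402653184 67108864
    (rowN 3 0 false false false .pnn 0 3 3 (qsf 0 536870912 0 1230186008 3) ndN0q0 ndN3q3 pcN3 Cut.none Ext.none)

def k0_mm_033 : ∃ t, chk3 f_mm_033 t 1 1 1 = true :=
  ⟨(l 5), by decide +kernel⟩

theorem c_mm_033 : CertN 0 536870912 0 1230186008 402653184 67108864 3 false false false .pnn 0 3 3
    ndN0q0 ndN3q3 pcN3 Cut.none Ext.none :=
  certN0 (fam := false) (s1 := false) (s2 := false) (a := 0) (b := 3) (c := 3) (cn := .pnn) (n1 := ndN0q0) (n2 := ndN3q3) (pc := pcN3) (cut := Cut.none) (xt := Ext.none) (P1 := 0) (W1 := 536870912) (P2 := 0) (W2 := 1230186008) (P3 := 402653184) (W3 := 67108864) (N0 := 3)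
    rfl k0_mm_033

noncomputable def cut_mm_101 : Cut := Cut.of [[⟨0, 1, 0, 67108864⟩, ⟨1, 0, 0, 67108864⟩, ⟨2, 1, 0, 67108864⟩]]

noncomputable def f_mm_101 : ℕ → ℕ → ℕ → ℕ → Bool := onCell 536870912 536870912 0 536870912 402653184 67108864
    (rowN 3 1 false false false .npn 1 0 1 (qsf 536870912 536870912 536870912 536870912 0) ndN0q1 ndN3q1 pcN0 cut_mm_101 Ext.none)

def k0_mm_101 : ∃ t, chk3 f_mm_101 t 1 1 1 = true :=
  ⟨(a (l 3) (b (a (l 3) (b (a (l 3) (b (a (l 3) (b (l 6) (l 3))) (l 3))) (l 3))) (l 3))), by decide +kernel⟩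

theorem c_mm_101 : CertN 536870912 536870912 536870912 536870912 402653184 67108864 3 false false false .npn 1 0 1
    ndN0q1 ndN3q1 pcN0 cut_mm_101 Ext.none :=
  certN1 (fam := false) (s1 := false) (s2 := false) (a := 1) (b := 0) (c := 1) (cn := .npn) (n1 := ndN0q1) (n2 := ndN3q1) (pc := pcN0) (cut := cut_mm_101) (xt := Ext.none) (P1 := 536870912) (W1 := 536870912) (P2 := 536870912) (W2 := 536870912) (P3 := 402653184) (W3 := 67108864) (N0 := 3)
    rfl (fun _ => rfl) k0_mm_101

noncomputable def f_mm_102 : ℕ → ℕ → ℕ → ℕ → Bool := onCell 536870912 536870912 1073741824 536870912 402653184 67108864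
    (rowN 3 0 false false false .npp 1 0 2 (qsf 536870912 536870912 1073741824 536870912 0) ndN0q1 ndN3q2 pcN0 Cut.none Ext.none)

def k0_mm_102 : ∃ t, chk3 f_mm_102 t 1 1 1 = true :=
  ⟨(l 3), by decide +kernel⟩

theorem c_mm_102 : CertN 536870912 536870912 1073741824 536870912 402653184 67108864 3 false false false .npp 1 0 2
    ndN0q1 ndN3q2 pcN0 Cut.none Ext.none :=
  certN0 (fam := false) (s1 := false) (s2 := false) (a := 1) (b := 0) (c := 2) (cn := .npp) (n1 := ndN0q1) (n2 := ndN3q2) (pc := pcN0) (cut := Cut.none) (xt := Ext.none) (P1 := 536870912) (W1 := 536870912) (P2 := 1073741824) (W2 := 536870912) (P3 := 402653184) (W3 := 67108864) (N0 := 3)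
    rfl k0_mm_102

noncomputable def f_mm_112 : ℕ → ℕ → ℕ → ℕ → Bool := onCell 536870912 536870912 1073741824 536870912 402653184 67108864
    (rowN 3 0 false false false .dn 1 1 2 (qsf 536870912 536870912 1073741824 536870912 1) ndN0q1 ndN3q2 pcN1 Cut.none Ext.none)

def k0_mm_112 : ∃ t, chk3 f_mm_112 t 1 1 1 = true :=
  ⟨(l 3), by decide +kernel⟩

theorem c_mm_112 : CertN 536870912 536870912 1073741824 536870912 402653184 67108864 3 false false false .dn 1 1 2
    ndN0q1 ndN3q2 pcN1 Cut.none Ext.none :=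
  certN0 (fam := false) (s1 := false) (s2 := false) (a := 1) (b := 1) (c := 2) (cn := .dn) (n1 := ndN0q1) (n2 := ndN3q2) (pc := pcN1) (cut := Cut.none) (xt := Ext.none) (P1 := 536870912) (W1 := 536870912) (P2 := 1073741824) (W2 := 536870912) (P3 := 402653184) (W3 := 67108864) (N0 := 3)
    rfl k0_mm_112

noncomputable def f_mm_113 : ℕ → ℕ → ℕ → ℕ → Bool := onCell 536870912 536870912 0 1230186008 402653184 67108864
    (rowN 3 0 false false false .nn 1 1 3 (qsf 536870912 536870912 0 1230186008 1) ndN0q1 ndN3q3 pcN1 Cut.none Ext.none)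

def k0_mm_113 : ∃ t, chk3 f_mm_113 t 1 1 1 = true :=
  ⟨(b (l 5) (a (l 5) (b (l 5) (l 3)))), by decide +kernel⟩

theorem c_mm_113 : CertN 536870912 536870912 0 1230186008 402653184 67108864 3 false false false .nn 1 1 3
    ndN0q1 ndN3q3 pcN1 Cut.none Ext.none :=
  certN0 (fam := false) (s1 := false) (s2 := false) (a := 1) (b := 1) (c := 3) (cn := .nn) (n1 := ndN0q1) (n2 := ndN3q3) (pc := pcN1) (cut := Cut.none) (xt := Ext.none) (P1 := 536870912) (W1 := 536870912) (P2 := 0) (W2 := 1230186008) (P3 := 402653184) (W3 := 67108864) (N0 := 3)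
    rfl k0_mm_113

noncomputable def f_mm_123 : ℕ → ℕ → ℕ → ℕ → Bool := onCell 1073741824 536870912 0 1230186008 402653184 67108864
    (rowN 3 2 false false false .npn 1 2 3 (qsf 536870912 536870912 0 1230186008 2) ndN0q1 ndN3q3 pcN2 Cut.none Ext.none)

def k0_mm_123 : ∃ t, chk3 f_mm_123 t 1 1 1 = true :=
  ⟨(b (l 5) (l 5)), by decide +kernel⟩

theorem c_mm_123 : CertN 536870912 536870912 0 1230186008 402653184 67108864 3 false false false .npn 1 2 3
    ndN0q1 ndN3q3 pcN2 Cut.none Ext.none :=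
  certN2 (fam := false) (s1 := false) (s2 := false) (a := 1) (b := 2) (c := 3) (cn := .npn) (n1 := ndN0q1) (n2 := ndN3q3) (pc := pcN2) (cut := Cut.none) (xt := Ext.none) (P1 := 536870912) (W1 := 536870912) (P2 := 0) (W2 := 1230186008) (P3 := 402653184) (W3 := 67108864) (N0 := 3)
    rfl (fun _ => rfl) k0_mm_123

noncomputable def f_mm_133 : ℕ → ℕ → ℕ → ℕ → Bool := onCell 1610612736 536870912 0 1230186008 402653184 67108864
    (rowN 3 2 false false false .dn 1 3 3 (qsf 536870912 536870912 0 1230186008 3) ndN0q1 ndN3q3 pcN3 Cut.none Ext.none)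

def k0_mm_133 : ∃ t, chk3 f_mm_133 t 1 1 1 = true :=
  ⟨(l 5), by decide +kernel⟩

theorem c_mm_133 : CertN 536870912 536870912 0 1230186008 402653184 67108864 3 false false false .dn 1 3 3
    ndN0q1 ndN3q3 pcN3 Cut.none Ext.none :=
  certN2 (fam := false) (s1 := false) (s2 := false) (a := 1) (b := 3) (c := 3) (cn := .dn) (n1 := ndN0q1) (n2 := ndN3q3) (pc := pcN3) (cut := Cut.none) (xt := Ext.none) (P1 := 536870912) (W1 := 536870912) (P2 := 0) (W2 := 1230186008) (P3 := 402653184) (W3 := 67108864) (N0 := 3)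
    rfl (fun _ => rfl) k0_mm_133

noncomputable def f_mm_202 : ℕ → ℕ → ℕ → ℕ → Bool := onCell 0 536870912 0 536870912 402653184 67108864
    (rowN 3 1 false false false .pp 2 0 2 (qsf 0 536870912 1073741824 536870912 0) ndN0q2 ndN3q2 pcN0 Cut.none Ext.none)

def k0_mm_202 : ∃ t, chk3 f_mm_202 t 1 1 1 = true :=
  ⟨(b (l 3) (l 3)), by decide +kernel⟩

theorem c_mm_202 : CertN 0 536870912 1073741824 536870912 402653184 67108864 3 false false false .pp 2 0 2
    ndN0q2 ndN3q2 pcN0 Cut.none Ext.none :=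
  certN1 (fam := false) (s1 := false) (s2 := false) (a := 2) (b := 0) (c := 2) (cn := .pp) (n1 := ndN0q2) (n2 := ndN3q2) (pc := pcN0) (cut := Cut.none) (xt := Ext.none) (P1 := 0) (W1 := 536870912) (P2 := 1073741824) (W2 := 536870912) (P3 := 402653184) (W3 := 67108864) (N0 := 3)
    rfl (fun _ => rfl) k0_mm_202

noncomputable def f_mm_203 : ℕ → ℕ → ℕ → ℕ → Bool := onCell 0 536870912 0 1230186008 402653184 67108864
    (rowN 3 0 false false false .up 2 0 3 (qsf 0 536870912 0 1230186008 0) ndN0q2 ndN3q3 pcN0 Cut.none Ext.none)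

def k0_mm_203 : ∃ t, chk3 f_mm_203 t 1 1 1 = true :=
  ⟨(b (l 2) (l 3)), by decide +kernel⟩

theorem c_mm_203 : CertN 0 536870912 0 1230186008 402653184 67108864 3 false false false .up 2 0 3
    ndN0q2 ndN3q3 pcN0 Cut.none Ext.none :=
  certN0 (fam := false) (s1 := false) (s2 := false) (a := 2) (b := 0) (c := 3) (cn := .up) (n1 := ndN0q2) (n2 := ndN3q3) (pc := pcN0) (cut := Cut.none) (xt := Ext.none) (P1 := 0) (W1 := 536870912) (P2 := 0) (W2 := 1230186008) (P3 := 402653184) (W3 := 67108864) (N0 := 3)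
    rfl k0_mm_203

noncomputable def f_mm_213 : ℕ → ℕ → ℕ → ℕ → Bool := onCell 0 536870912 0 1230186008 402653184 67108864
    (rowN 3 0 false false false .pnn 2 1 3 (qsf 0 536870912 0 1230186008 1) ndN0q2 ndN3q3 pcN1 Cut.none Ext.none)

def k0_mm_213 : ∃ t, chk3 f_mm_213 t 1 1 1 = true :=
  ⟨(b (a (l 3) (l 5)) (l 3)), by decide +kernel⟩

theorem c_mm_213 : CertN 0 536870912 0 1230186008 402653184 67108864 3 false false false .pnn 2 1 3
    ndN0q2 ndN3q3 pcN1 Cut.none Ext.none :=
  certN0 (fam := false) (s1 := false) (s2 := false) (a := 2) (b := 1) (c := 3) (cn := .pnn) (n1 := ndN0q2) (n2 := ndN3q3) (pc := pcN1) (cut := Cut.none) (xt := Ext.none) (P1 := 0) (W1 := 536870912) (P2 := 0) (W2 := 1230186008) (P3 := 402653184) (W3 := 67108864) (N0 := 3)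
    rfl k0_mm_213

end Pool.Agent.Strip051.G.I3_8_7_16.Tab.C.NB03

namespace Pool.Agent.Strip051.G.I3_8_7_16.Tab.C.NB04

open Pool.Agent.Strip051.PB Pool.Agent.Strip051.PB.T
open Pool.Agent.Strip051.G.I3_8_7_16.Tab

noncomputable def f_pp_001 : ℕ → ℕ → ℕ → ℕ → Bool := onCell 0 536870912 0 536870912 402653184 67108864
    (rowN 3 1 false true true .up 0 0 1 (qsf 0 536870912 536870912 536870912 0) ndN0q0 ndN4q1 pcN0 Cut.none Ext.none)

def k0_pp_001 : ∃ t, chk3 f_pp_001 t 1 1 1 = true :=
  ⟨(l 3), by decide +kernel⟩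

theorem c_pp_001 : CertN 0 536870912 536870912 536870912 402653184 67108864 3 false true true .up 0 0 1
    ndN0q0 ndN4q1 pcN0 Cut.none Ext.none :=
  certN1 (fam := false) (s1 := true) (s2 := true) (a := 0) (b := 0) (c := 1) (cn := .up) (n1 := ndN0q0) (n2 := ndN4q1) (pc := pcN0) (cut := Cut.none) (xt := Ext.none) (P1 := 0) (W1 := 536870912) (P2 := 536870912) (W2 := 536870912) (P3 := 402653184) (W3 := 67108864) (N0 := 3)
    rfl (fun _ => rfl) k0_pp_001

noncomputable def cut_pp_011 : Cut := Cut.of [[⟨0, 0, 0, 67108864⟩, ⟨1, 1, 0, 67108864⟩, ⟨2, 1, 0, 67108864⟩]]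

noncomputable def f_pp_011 : ℕ → ℕ → ℕ → ℕ → Bool := onCell 0 536870912 536870912 536870912 402653184 67108864
    (rowN 3 1 false true true .pnn 0 1 1 (qsf 0 536870912 536870912 536870912 1) ndN0q0 ndN4q1 pcN1 cut_pp_011 Ext.none)

def k0_pp_011 : ∃ t, chk3 f_pp_011 t 1 1 1 = true :=
  ⟨(b (l 3) (a (b (l 3) (a (b (l 3) (a (b (l 3) (a (l 6) (l 3))) (l 3))) (l 3))) (l 3))), by decide +kernel⟩

theorem c_pp_011 : CertN 0 536870912 536870912 536870912 402653184 67108864 3 false true true .pnn 0 1 1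
    ndN0q0 ndN4q1 pcN1 cut_pp_011 Ext.none :=
  certN1 (fam := false) (s1 := true) (s2 := true) (a := 0) (b := 1) (c := 1) (cn := .pnn) (n1 := ndN0q0) (n2 := ndN4q1) (pc := pcN1) (cut := cut_pp_011) (xt := Ext.none) (P1 := 0) (W1 := 536870912) (P2 := 536870912) (W2 := 536870912) (P3 := 402653184) (W3 := 67108864) (N0 := 3)
    rfl (fun _ => rfl) k0_pp_011

noncomputable def cut_pp_012 : Cut := Cut.of [[⟨0, 0, 0, 67108864⟩, ⟨1, 1, 0, 67108864⟩, ⟨2, 1, 0, 67108864⟩]]

noncomputable def f_pp_012 : ℕ → ℕ → ℕ → ℕ → Bool := onCell 0 536870912 536870912 536870912 402653184 67108864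
    (rowN 3 1 false true true .pnp 0 1 2 (qsf 0 536870912 1073741824 536870912 1) ndN0q0 ndN4q2 pcN1 cut_pp_012 Ext.none)

def k0_pp_012 : ∃ t, chk3 f_pp_012 t 1 1 1 = true :=
  ⟨(b (l 3) (a (b (l 3) (a (b (l 3) (a (b (l 3) (a (l 6) (l 3))) (l 3))) (l 3))) (l 3))), by decide +kernel⟩

theorem c_pp_012 : CertN 0 536870912 1073741824 536870912 402653184 67108864 3 false true true .pnp 0 1 2
    ndN0q0 ndN4q2 pcN1 cut_pp_012 Ext.none :=
  certN1 (fam := false) (s1 := true) (s2 := true) (a := 0) (b := 1) (c := 2) (cn := .pnp) (n1 := ndN0q0) (n2 := ndN4q2) (pc := pcN1) (cut := cut_pp_012) (xt := Ext.none) (P1 := 0) (W1 := 536870912) (P2 := 1073741824) (W2 := 536870912) (P3 := 402653184) (W3 := 67108864) (N0 := 3)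
    rfl (fun _ => rfl) k0_pp_012

noncomputable def cut_pp_022 : Cut := Cut.of [[⟨0, 0, 0, 67108864⟩, ⟨1, 1, 0, 67108864⟩, ⟨2, 1, 0, 67108864⟩]]

noncomputable def f_pp_022 : ℕ → ℕ → ℕ → ℕ → Bool := onCell 0 536870912 1073741824 536870912 402653184 67108864
    (rowN 3 1 false true true .pp 0 2 2 (qsf 0 536870912 1073741824 536870912 2) ndN0q0 ndN4q2 pcN2 cut_pp_022 Ext.none)

def k0_pp_022 : ∃ t, chk3 f_pp_022 t 16 16 1 = true :=
  ⟨(b (l 6) (a (l 6) (b (l 6) (a (l 6) (a (l 6) (a (l 6) (b (l 6) (l 16755872)))))))), by decide +kernel⟩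

def k1_pp_022 : ∃ t, chk3 f_pp_022 t 17 32 1 = true :=
  ⟨(a (a (l 6) (l 3)) (l 3)), by decide +kernel⟩

def k2_pp_022 : ∃ t, chk3 f_pp_022 t 68 66 1 = true :=
  ⟨(b (l 6) (a (l 6) (a (l 6) (b (l 6) (c (l 16771528) (l 16771608)))))), by decide +kernel⟩

def k3_pp_022 : ∃ t, chk3 f_pp_022 t 69 132 1 = true :=
  ⟨(a (a (l 6) (l 3)) (l 3)), by decide +kernel⟩

def k4_pp_022 : ∃ t, chk3 f_pp_022 t 138 133 1 = true :=
  ⟨(b (b (a (l 6) (b (a (l 6) (l 3)) (a (c (b (l 6) (c (a (l 6) (l 9294578791)) (b (l 6) (l 16777544)))) (b (l 6) (c (b (l 6) (l 16776576)) (b (l 6) (l 16776584))))) (a (b (l 3) (a (c (b (a (b (l 3) (l 195588785863)) (l 3)) (c (l 16777880) (l 16777904))) (b (a (c (l 247128393223) (l 340007060407)) (l 3)) (c (l 16777912) (l 16777920)))) (b (l 3) (b (l 3) (c (c (l 213305525543) (l 217600493031)) (c (l 231022265815) (l 321753449367))))))) (l 3))))) (a (b (l 6) (c (l 16775152) (l 16774376))) (b (a (a (c (l 16776856) (l 16776240)) (c (l 16777408) (l 16777120))) (c (b (a (c (l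 16777912) (l 16777936)) (b (a (c (c (l 224042943895) (l 225653556727)) (c (l 228337911367) (l 234243491399))) (l 3)) (a (c (l 16777848) (l 16777872)) (c (c (l 212768654711) (l 218674234743)) (c (l 217063622183) (l 222969202215)))))) (a (l 16777664) (c (l 16777544) (l 16777576)))) (c (b (a (l 16777952) (a (b (c (l 241222813255) (l 249275876935)) (l 16777880)) (c (l 404968440519) (l 410874020551)))) (a (l 16776384) (l 16777592))) (c (b (a (l 16777624) (b (l 422148309703) (a (l 16777232) (l 332490867591)))) (a (l 16776392) (l 16777592))) (b (a (l 16777624) (b (l 425906406071) (a (l 16777232) (l 323364062247)))) (a (l 16776400) (l 16777592))))))) (a (c (l 16775968) (l 16776016)) (c (l 16776904) (a (l 16776184) (l 16776728))))))) (b (a (c (l 16774232) (l 16774056)) (c (c (l 16775576) (l 16775504)) (c (l 16775472) (l 16775488)))) (c (a (l 16772128) (l 16774088)) (a (l 16771896) (l 16773912))))), by decide +kernel⟩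

def k5_pp_022 : ∃ t, chk3 f_pp_022 t 139 266 1 = true :=
  ⟨(b (l 3) (a (b (a (a (a (b (l 3) (b (c (c (c (l 202031236439) (l 207399945559)) (c (l 205789332999) (l 211694913031))) (c (c (l 218674234887) (l 226727298567)) (c (l 320142836583) (l 311552902151)))) (c (l 16777992) (c (l 16777192) (l 16777200))))) (b (l 3) (b (l 3) (c (c (c (l 191293818151) (l 196125656375)) (c (l 197736269207) (l 200420623847))) (c (c (l 206863074791) (l 214916138471)) (c (l 307794805575) (l 299204871143))))))) (l 3)) (l 3)) (a (c (a (c (l 16777224) (c (l 16777568) (l 16777584))) (b (c (b (a (l 180019529143) (l 3)) (a (l 16777776) (l 168745239959))) (b (a (c (l 186461980023) (l 188609463751)) (l 3)) (a (l 16777152) (c (l 178408916231) (l 177335174567))))) (c (l 16776824) (l 16776848)))) (b (c (a (l 16777552) (b (a (c (l 195588785607) (l 216526751015)) (l 3)) (a (l 16777160) (c (l 183777625511) (l 204715590919))))) (a (l 16777560) (c (a (b (l 295446774567) (l 16777168)) (l 382956732967)) (a (b (l 286856840135)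 (l 16777168)) (l 386714829335))))) (a (l 16777640) (c (l 16777520) (l 16777528))))) (c (b (l 3) (a (c (b (a (l 157470950775) (l 444160017175)) (c (l 80161539223) (l 80161539319))) (a (b (l 161765918215) (l 16777112)) (b (l 465634853655) (l 151028499911)))) (a (b (l 3) (l 482814722807)) (l 3)))) (b (l 3) (a (c (b (a (c (l 172503336327) (l 192904430823)) (l 472614175511)) (a (l 16777128) (l 159618434551))) (b (c (l 372219314679) (l 375977411047)) (a (l 16777136) (c (l 255181456103) (l 246591521671))))) (c (b (l 3) (l 473151046647)) (l 481740981495))))))) (l 3))), by decide +kernel⟩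

def k6_pp_022 : ∃ t, chk3 f_pp_022 t 278 534 1 = true :=
  ⟨(c (b (a (l 16777000) (c (b (a (l 16776792) (b (a (l 134385501527) (l 440938791623)) (c (l 16777840) (l 65129153719)))) (l 16777792)) (b (a (l 16776816) (b (a (l 139217339847) (l 462413628119)) (c (l 66739766487) (l 68350379239)))) (l 16777816)))) (c (l 16776360) (l 16776400))) (c (a (l 16776456) (a (a (l 16776488) (l 16776920)) (b (b (b (a (l 147807274455) (l 471003562695)) (c (l 71034733815) (l 74792830199))) (l 16778112)) (l 16775928)))) (c (b (a (l 16777048) (a (l 16777536) (b (b (a (l 239075328743) (l 406579053975)) (l 78014055687)) (l 16776808)))) (a (l 16774576) (l 16775672))) (b (b (a (l 16777336) (a (l 16776840) (b (a (l 230485394311) (l 480667239079)) (l 82845893895)))) (a (l 16775448) (l 16777192))) (l 16775784))))), by decide +kernel⟩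

def k7_pp_022 : ∃ t, chk3 f_pp_022 t 279 534 1 = true :=
  ⟨(b (a (c (b (a (b (l 3) (a (c (l 291151808455) (l 298131130391)) (l 3))) (l 3)) (a (c (b (a (l 111300052279) (l 284709357463)) (l 16777816)) (b (a (l 116668761447) (l 292225550327)) (l 51707381127))) (b (l 3) (a (c (l 271824455463) (l 277730035671)) (l 3))))) (b (a (c (b (l 3) (l 467245466551)) (l 477982885047)) (l 3)) (b (a (c (a (l 125795566967) (l 301889226823)) (a (l 138680468871) (l 331953997703))) (l 3)) (a (a (l 16778376) (c (l 109689439591) (l 122037470567))) (c (l 448454984551) (l 454360564551)))))) (l 3)) (a (c (a (l 16777424) (b (a (c (l 16777784) (l 16777816)) (c (b (l 254644586247) (l 16777912)) (b (l 260550166455) (l 16777936)))) (l 16778008))) (a (c (l 16777784) (l 16776488)) (a (b (c (l 16777992) (l 49559897479)) (l 16777912)) (b (b (c (l 274508810151) (l 371682444471)) (c (l 16777952) (l 16777304))) (l 16778184))))) (c (b (a (b (l 3) (a (c (l 243370297047) (l 249275877255)) (l 3))) (l 3)) (a (a (c (l 16777752)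 (l 16777776)) (b (c (l 231559136951) (l 236927846247)) (l 57612961431))) (b (l 3) (a (c (l 219747976839) (l 226727298839)) (l 3))))) (b (a (a (c (l 431811986231) (l 439865049879)) (l 3)) (l 3)) (b (a (a (c (l 16777280) (l 16777288)) (c (l 250349619047) (l 346986382439))) (l 3)) (c (a (l 16777784) (a (l 239075329847) (l 3))) (a (l 16777792) (l 418390213303)))))))), by decide +kernel⟩

def k8_pp_022 : ∃ t, chk3 f_pp_022 t 139 535 1 = true :=
  ⟨(a (c (c (l 16775432) (l 16775360)) (c (l 16775344) (l 16775360))) (c (c (c (a (l 16776248) (b (a (l 16777656) (a (l 16778064) (a (l 16777944) (b (l 153175983495) (l 16776808))))) (l 16776760))) (a (l 16776264) (b (a (l 16776360) (a (l 16778088) (a (l 16777968) (b (l 154786596327) (l 16776824))))) (l 16776776)))) (a (l 16776296) (c (b (b (b (a (l 16776816) (a (l 16777224) (l 216526751271))) (l 16776800)) (l 16776360)) (l 16776800)) (c (a (l 16776464) (b (a (l 16778112) (b (b (l 232632878471) (l 16777216)) (l 16776784))) (l 16775776))) (a (l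 16776472) (b (a (l 16778120) (b (b (l 238538458503) (l 16777224)) (l 16776784))) (l 16775776))))))) (c (c (b (b (a (l 16775872) (b (a (l 16776840) (a (l 16777240) (l 248202134919))) (l 16778136))) (a (l 16775296) (l 16776384))) (l 16776280)) (b (a (l 16775592) (a (l 16777720) (a (l 16778128) (b (b (l 316384740327) (l 16777232)) (l 16776800))))) (a (l 16774432) (l 16775528)))) (a (l 16776336) (c (a (l 16776328) (b (a (l 16778136) (b (b (l 311016031351) (l 16777232)) (l 16776808))) (l 16777112))) (b (a (l 16777728) (a (l 16778136) (b (b (l 312626644167) (l 16777240)) (l 16776808)))) (l 16775536))))))), by decide +kernel⟩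

def k9_pp_022 : ∃ t, chk3 f_pp_022 t 34 67 1 = true :=
  ⟨(a (b (b (a (l 6) (c (l 16766648) (l 16766920))) (a (l 16758784) (a (l 16763128) (l 16765144)))) (c (a (l 16754080) (l 16757424)) (a (l 16753320) (l 16757408)))) (b (a (a (b (b (l 16769864) (l 16770352)) (l 16767152)) (b (c (l 16770936) (l 16770664)) (l 16767832))) (b (b (a (c (l 16773944) (l 16773760)) (c (c (l 16775288) (l 16775856)) (c (l 16775856) (l 16774568)))) (c (c (l 16772888) (l 16772760)) (a (l 16771592) (l 16773600)))) (c (c (l 16771064) (l 16770888)) (c (l 16770736) (l 16770600))))) (a (b (a (l 16762872) (l 16764872)) (l 16759616)) (b (a (l 16766864) (l 16767528)) (l 16763600))))), by decide +kernel⟩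

def k10_pp_022 : ∃ t, chk3 f_pp_022 t 35 66 1 = true :=
  ⟨(b (l 3) (a (b (l 3) (a (b (l 3) (a (b (a (c (b (a (a (b (l 3) (c (l 195588785735) (l 203641849511))) (l 3)) (l 3)) (b (a (a (l 16777840) (c (l 183777625639) (l 191293818503))) (l 3)) (a (l 16778336) (a (c (l 171966465527) (l 180556400183)) (l 3))))) (b (b (l 3) (a (a (c (l 213842396919) (l 307257934855)) (l 3)) (l 3))) (b (b (a (a (l 16777944) (a (l 272361326711) (l 3))) (l 3)) (a (c (l 16777928) (l 86067119527)) (l 3))) (a (l 16778216) (a (c (l 189146334903) (l 280951260103)) (l 3)))))) (l 3)) (a (c (c (c (a (l 16776272) (b (l 53317993895) (l 16776528))) (b (a (l 16776584) (l 53854864839)) (l 16776272))) (c (a (l 16776304) (a (l 16776720) (b (l 91972699511) (l 16776696)))) (a (l 16776320) (a (l 16778040) (b (l 95193925015) (l 16776712)))))) (b (b (a (l 16778088) (a (l 16778496) (c (l 175724562087) (l 265382003639)))) (c (l 16778064) (l 16778072))) (l 16777144))) (c (b (a (b (a (l 491941528359) (l 3)) (c (a (l 147270403527)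 (l 293299292263)) (a (l 156397209063) (l 305110452343)))) (l 3)) (a (a (l 16778272) (c (l 72645346775) (l 75866572295))) (b (a (c (l 292762421319) (l 305110452295)) (l 3)) (c (a (l 16777992) (l 292225550359)) (a (l 16778016) (l 304036710439)))))) (b (a (c (b (l 473687917607) (a (l 166060885575) (l 329806514199))) (b (l 481740981255) (a (l 249812747175) (l 414632117767)))) (l 3)) (a (a (l 16778312) (b (c (l 154786596359) (l 240149070695)) (l 16778440))) (c (b (l 472077304791) (a (l 144586048951) (l 324437805047))) (b (l 479593497527) (a (l 227801039671) (l 408189666759))))))))) (l 3))) (l 3))) (l 3))), by decide +kernel⟩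

def k11_pp_022 : ∃ t, chk3 f_pp_022 t 140 536 1 = true :=
  ⟨(a (c (c (a (l 16776112) (a (l 16776928) (b (l 16777984) (l 16775584)))) (c (b (b (a (l 16775704) (l 16778112)) (l 16776328)) (l 16776104)) (b (b (a (l 16775720) (l 16778120)) (l 16776344)) (l 16776120)))) (b (a (l 16776768) (a (l 16776928) (b (a (l 16778280) (c (l 62981670375) (l 70497863159))) (l 16776528)))) (c (l 16776144) (l 16776160)))) (b (a (c (b (a (b (a (c (l 283635615719) (l 293299292231)) (l 3)) (c (a (l 16777960) (l 263234520951)) (a (l 16777992) (l 273971939287)))) (l 3)) (c (a (l 16777664) (a (b (l 250886489927) (l 16777928)) (a (l 256792070247) (l 444160017335)))) (a (l 16777696) (b (l 416779600711) (a (l 16777296) (l 248739006343)))))) (b (a (c (b (l 454360564615) (a (l 16777352) (l 298131130231))) (b (l 462413628263) (a (l 16777352) (l 376514282871)))) (l 3)) (c (a (l 16777720) (a (b (l 279877519271) (l 16777320)) (l 426980148007))) (a (l 16778056) (b (l 440401920791) (a (l 16777320) (l 349133866279)))))))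 (l 3)) (a (a (c (l 16777464) (l 16776856)) (c (c (l 16777984) (l 16778024)) (c (l 16778048) (c (l 16778056) (l 16778056))))) (c (b (a (b (a (c (l 225653556983) (l 235317233511)) (l 3)) (a (l 16778232) (a (l 187535722583) (l 290614937927)))) (l 3)) (a (l 16778256) (c (b (a (l 199883753127) (l 3)) (l 108615698087)) (b (a (l 209547429655) (l 3)) (c (l 113447536135) (l 118816245239)))))) (b (a (c (a (b (l 253570844503) (l 16777280)) (l 405505311447)) (a (b (l 335175222535) (l 16777288)) (l 413558375095))) (l 3)) (c (a (l 16778296) (b (l 394767893143) (c (l 123111212583) (l 125258696327)))) (a (l 16778312) (b (l 402284085879) (c (l 138143598103) (l 213305525031)))))))))), by decide +kernel⟩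

def k12_pp_022 : ∃ t, chk3 f_pp_022 t 140 537 1 = true :=
  ⟨(a (c (l 16775736) (l 16775400)) (b (a (c (l 16776560) (l 16776624)) (a (c (l 16777384) (l 16776784)) (c (c (l 16777912) (l 16777944)) (c (l 16777968) (l 16777984))))) (c (l 16776592) (l 16776336)))), by decide +kernel⟩

def k13_pp_022 : ∃ t, chk3 f_pp_022 t 141 268 1 = true :=
  ⟨(b (l 3) (a (b (a (c (b (b (a (c (a (l 174113949287) (l 298131130567)) (a (l 184851367591) (l 314774128839))) (l 3)) (a (c (l 91435828823) (l 96267667095)) (l 485499077703))) (b (a (l 16777016) (a (a (l 16778000) (l 210084301095)) (c (l 297594259559) (l 313163516023)))) (c (l 16778040) (c (l 16777992) (l 16778008))))) (b (a (c (b (a (l 204178720391) (l 410874021431)) (c (l 106468214215) (l 111300052471))) (b (a (l 277193163911) (l 482277851943)) (c (l 120426857943) (l 192904430327)))) (c (l 474224788807) (l 481740981543))) (a (l 16778232) (c (b (a (l 179482658327) (l 407115924967)) (l 86067119735)) (b (a (l 244980909175) (l 408726537911)) (l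 96267667079)))))) (b (l 3) (a (c (c (b (l 3) (l 437717566439)) (l 453823694087)) (c (l 472614175991) (l 480667239623))) (l 3)))) (a (c (l 16777416) (a (l 16778016) (b (l 16778192) (l 16777616)))) (c (b (b (a (a (l 123111213207) (a (l 286856841687) (l 3))) (l 3)) (c (a (l 16777864) (a (l 276119423047) (l 3))) (a (l 16777896) (l 442012533655)))) (b (a (l 16776936) (a (l 98415151271) (a (l 246591523207) (l 285783100215)))) (c (l 16778208) (l 16778248)))) (a (a (b (c (l 16777928) (l 88751474167)) (l 16778016)) (b (b (c (l 399599732103) (l 402820957799)) (c (l 16777384) (l 16777384))) (l 16778288))) (a (b (c (l 451139339159) (l 459192402807)) (c (l 16777240) (l 16777248))) (b (l 3) (c (b (l 363629380919) (l 16777352)) (b (l 368461219351) (l 16777360))))))))) (b (l 3) (a (b (l 3) (a (c (a (b (l 3) (c (l 246591522711) (l 259476424695))) (l 3)) (c (l 443623146567) (l 451139339303))) (l 3))) (l 3))))), by decide +kernel⟩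

def k14_pp_022 : ∃ t, chk3 f_pp_022 t 70 269 1 = true :=
  ⟨(a (a (c (l 16773240) (l 16773000)) (c (c (l 16774904) (l 16774800)) (c (l 16774728) (l 16774760)))) (b (a (a (c (l 16777136) (l 16775896)) (b (c (l 16777496) (c (l 16777872) (c (l 16777560) (l 16777560)))) (c (l 16777640) (l 16776392)))) (b (a (c (b (b (a (c (l 138680469399) (c (l 151565371063) (l 155323467543))) (l 3)) (a (l 16778456) (c (a (l 220821718807) (l 3)) (l 399062860519)))) (a (l 16776712) (a (l 16778424) (c (l 119353116551) (l 125258696647))))) (b (b (a (a (l 81235282263) (c (l 342691415191) (l 338933319111))) (l 3)) (a (c (l 16777184) (l 16777200)) (c (l 406579053287) (l 415168987831)))) (b (a (l 16778216) (a (l 16778616) (c (l 311552902231) (l 308331677063)))) (c (l 16778192) (l 16778208))))) (b (l 3) (b (l 3) (a (a (c (c (l 193978173095) (l 206326204183)) (c (l 296520516663) (l 292762420583))) (l 3)) (l 3))))) (c (a (l 16777416) (c (b (a (l 65129154439) (b (l 448454984823) (a (l 16778032) (l 302426097831))))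 (l 16778192)) (b (a (c (l 16777880) (l 69424121495)) (b (l 466171724919) (a (l 16778048) (l 330880256055)))) (c (l 16778224) (l 16778240))))) (a (c (l 16776160) (c (l 16777480) (l 16777488))) (c (c (b (a (l 72645346983) (l 393157280599)) (l 16778248)) (b (a (l 76403443383) (l 397452247879)) (l 16778096))) (c (b (a (l 87140861479) (l 401210344247)) (c (l 16778264) (l 16778272))) (b (a (l 89825216119) (l 405505311511)) (a (l 16776696) (l 16777880))))))))) (b (c (a (l 16775928) (c (l 16776760) (l 16776808))) (a (l 16776000) (a (l 16777624) (c (l 16776072) (l 16777408))))) (c (a (l 16774872) (l 16776928)) (c (l 16775584) (l 16775280)))))), by decide +kernel⟩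

def k15_pp_022 : ∃ t, chk3 f_pp_022 t 71 134 1 = true :=
  ⟨(b (l 3) (a (b (a (b (l 3) (a (b (l 3) (a (c (b (l 488183432231) (c (l 191293818951) (a (l 16777408) (l 320142837847)))) (c (c (l 377588024071) (l 381882991351)) (c (l 385104216807) (l 389399184071)))) (l 3))) (l 3))) (l 3)) (a (b (a (b (c (c (a (l 16778416) (b (l 430738244535) (l 171966466039))) (a (l 16778456) (b (l 450065597383) (a (l 16777392) (l 296520517719))))) (c (a (l 16778480) (c (l 362555638439) (l 365776863911))) (a (l 16777840) (c (l 370071831175) (l 373293056631))))) (c (c (l 16778104) (l 16778144)) (c (l 16778176) (l 16778192)))) (b (l 3) (a (c (c (b (l 403894698855) (l 148344145847)) (b (l 425906406247) (l 162302789607))) (c (b (l 433959469927) (c (l 178408916807) (l 257865810967))) (b (l 443086275383) (l 205252461751)))) (l 3)))) (c (b (a (l 16777536) (a (l 16778352) (a (b (l 230485396231) (l 16778608)) (b (l 3) (l 217063623383))))) (a (l 16778264) (l 16778368))) (a (c (l 16775992) (l 16777320)) (a (c (l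 16778112) (l 16778128)) (b (c (b (a (l 331417126215) (l 3)) (l 146733533223)) (b (l 371145574071) (l 231022265415))) (l 16778368)))))) (b (l 3) (a (b (l 3) (a (c (c (b (l 233706621367) (l 16778016)) (b (l 242296556135) (l 119353116471))) (c (b (a (l 299204871431) (l 3)) (l 128479922103)) (b (l 349670737511) (l 205789332535)))) (c (c (l 443623146935) (l 466708596151)) (c (l 475298530711) (l 482814723431))))) (l 3))))) (l 3))), by decide +kernel⟩

def k16_pp_022 : ∃ t, chk3 f_pp_022 t 70 135 1 = true :=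
  ⟨(b (b (a (c (l 16770400) (l 16770104)) (c (a (l 16773304) (l 16775224)) (a (l 16773104) (l 16775264)))) (a (c (l 16770920) (l 16770560)) (c (l 16773472) (l 16773208)))) (a (c (l 16767776) (l 16767328)) (c (l 16770984) (l 16771288)))), by decide +kernel⟩

def k17_pp_022 : ∃ t, chk3 f_pp_022 t 142 270 1 = true :=
  ⟨(b (a (a (c (l 16776800) (l 16776880)) (c (l 16776904) (a (l 16777696) (l 16776920)))) (b (a (a (c (l 16777320) (c (l 16778032) (l 16776736))) (b (a (c (c (l 16777984) (l 16778024)) (c (l 121500600103) (l 190220076039))) (c (c (l 206863075655) (l 214916139527)) (c (b (l 405505312551) (l 16777416)) (l 319605966343)))) (c (l 16776912) (l 16778288)))) (c (b (a (c (l 441475663191) (l 465634854231)) (l 3)) (b (a (c (l 197199399015) (l 202031237575)) (l 3)) (a (l 69960993271) (a (l 284709358535) (l 3))))) (c (b (l 471003563847) (b (c (l 397452248071) (l 401210344439)) (a (l 16777344) (l 460266144711)))) (b (l 482277852935) (a (b (l 304573580759) (l 16777360)) (l 476372272295))))))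 (c (c (a (l 16775736) (a (l 16776544) (b (c (l 116668762007) (l 119889987527)) (l 16776792)))) (b (a (l 16776080) (a (l 16776888) (a (l 16777288) (l 178945788103)))) (l 16776360))) (b (a (l 16777440) (b (a (l 16778384) (c (l 195051915655) (l 281488131479))) (c (l 16778360) (l 16778368)))) (a (l 16775544) (a (l 16777664) (l 16778200))))))) (a (c (l 16775032) (l 16775096)) (a (c (l 16776624) (l 16776712)) (c (l 16776400) (l 16776976))))), by decide +kernel⟩

def k18_pp_022 : ∃ t, chk3 f_pp_022 t 143 270 1 = true :=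
  ⟨(b (a (b (l 3) (a (c (b (a (c (b (l 3) (l 408726537079)) (l 440938792087)) (l 3)) (a (c (l 99488893095) (c (l 105394472855) (l 109689440183))) (c (b (l 3) (l 256255199767)) (l 420000826423)))) (b (a (c (l 449528726663) (l 458118661207)) (l 3)) (a (a (l 52781124215) (c (l 178408917015) (l 248739005815))) (c (l 429664502823) (l 438254437367))))) (l 3))) (l 3)) (a (b (a (a (c (l 16777792) (l 16778528)) (b (c (c (l 85530249287) (l 89825216679)) (a (l 16778552) (c (l 155323467783) (l 227264169255)))) (c (l 16776736) (l 16778112)))) (b (a (c (c (b (l 3) (l 235854105015)) (l 403357828055)) (c (l 413021504455) (l 421074568087))) (l 3)) (c (c (a (l 16778552) (b (l 459192403079) (l 214916139367))) (a (l 16778272) (l 385104216967))) (c (a (l 85530249191) (l 395841635191)) (a (l 97341409271) (l 403894698823)))))) (c (a (l 16778200) (c (l 16777944) (l 16778328))) (a (l 16778288) (c (c (l 16778032) (l 16778048)) (c (l 16778056) (l 16778056)))))) (b (l 3) (a (a (c (b (c (b (l 455434306599) (l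 193978173703)) (b (l 463487370295) (l 203641850311))) (l 16778488)) (c (b (l 378661765911) (l 16777232)) (b (l 386714829543) (l 16777248)))) (b (l 3) (c (c (b (l 431275115463) (l 175724562455)) (b (l 443086275543) (l 185925109991))) (c (b (l 455971177415) (l 212768655431)) (b (l 465097982871) (l 274508809799)))))) (l 3))))), by decide +kernel⟩

def k19_pp_022 : ∃ t, chk3 f_pp_022 t 71 271 1 = true :=
  ⟨(a (a (c (l 16773208) (l 16772928)) (c (l 16775112) (l 16774744))) (b (a (a (c (l 16776440) (l 16776544)) (c (l 16777520) (l 16776632))) (a (b (c (c (l 16777848) (l 16777912)) (c (l 16777944) (l 16777968))) (c (l 16778016) (l 16778112))) (b (a (b (c (c (b (l 279877519815) (l 149417887735)) (b (l 284172487783) (l 162839660583))) (c (b (l 308331678647) (l 189683206039)) (b (l 382419863799) (l 247128393287)))) (c (l 16778392) (l 16778464))) (b (l 3) (c (c (b (l 250349619895) (l 16778080)) (b (l 266455747271) (l 16778120))) (b (c (l 289004325559) (l 356650059863)) (c (l 16778136) (l 216526751223))))))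 (c (c (l 16777752) (l 16776504)) (c (l 16777856) (l 16777880)))))) (c (a (l 16774656) (l 16776792)) (a (l 16774744) (c (l 16776880) (l 16777568)))))), by decide +kernel⟩

def k20_pp_022 : ∃ t, chk3 f_pp_022 t 8 17 1 = true :=
  ⟨(a (a (b (a (l 6) (a (l 6) (b (l 6) (l 16718880)))) (a (b (l 16695632) (l 16652160)) (b (l 16704768) (l 16661360)))) (b (b (a (a (l 6) (b (l 6) (l 16719512))) (b (a (l 16742408) (l 16746512)) (c (l 16726488) (l 16725064)))) (a (a (l 16723384) (l 16727888)) (a (l 16732272) (l 16736416)))) (a (b (a (l 16706352) (l 16710880)) (b (l 16695760) (l 16666256))) (b (a (l 16715400) (l 16719920)) (l 16700592))))) (b (a (b (b (a (a (l 16750576) (l 16751992)) (a (l 16754032) (a (l 16761592) (l 16763568)))) (a (a (l 16731864) (l 16746376)) (a (l 16750360) (l 16754320)))) (a (a (l 16737920) (b (l 16748656) (l 16740488))) (b (c (l 16744832) (l 16743480)) (l 16741200)))) (b (a (a (b (c (l 16761608) (l 16760960)) (l 16758240)) (b (c (l 16766112) (l 16766216)) (l 16758184)))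 (a (b (b (c (l 16771328) (l 16770944)) (l 16766944)) (c (l 16761104) (l 16760376))) (b (b (c (a (l 16774168) (l 16774736)) (a (l 16773856) (l 16774696))) (c (l 16770992) (l 16770568))) (c (l 16764864) (l 16764232))))) (a (b (a (l 16750016) (l 16753896)) (l 16749024)) (b (a (l 16757736) (l 16761536)) (a (l 16749560) (l 16753352)))))) (a (a (b (a (l 16724104) (l 16728248)) (l 16720152)) (b (b (l 16738296) (l 16730152)) (l 16717872))) (b (a (a (l 16740104) (l 16743984)) (a (l 16747824) (l 16751624))) (a (l 16725856) (l 16733552)))))), by decide +kernel⟩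

def k21_pp_022 : ∃ t, chk3 f_pp_022 t 9 16 1 = true :=
  ⟨(a (b (l 3) (b (l 3) (a (b (l 3) (a (b (l 3) (a (b (a (b (b (l 3) (a (a (a (b (l 3) (c (l 291151809911) (l 318532226391))) (l 3)) (l 3)) (l 3))) (a (a (b (a (c (l 118279375671) (c (l 16777464) (l 16778128))) (c (b (l 295983648071) (l 182703884983)) (c (l 265382005159) (l 323900934119)))) (c (l 16778296) (l 16778376))) (b (c (c (l 448991856023) (l 466171725207)) (c (l 473687917943) (l 481204110663))) (c (c (l 142438566407) (c (l 156397209671) (l 159618435319))) (c (c (l 167671499015) (l 185388238951)) (c (l 241759684055) (l 243370296935)))))) (a (a (b (l 3) (b (l 3) (c (l 286856842423) (l 309405420903)))) (l 3)) (l 3)))) (l 3)) (a (a (c (l 16777760) (b (a (l 16778824) (l 16778040)) (l 16775304))) (c (b (c (b (a (l 123648084327) (l 426980148423)) (l 52781123991)) (b (a (l 134922373559) (l 446844372167)) (c (l 54391736487) (l 56539220183)))) (l 16778248)) (c (b (a (a (l 16777120) (b (l 284172485959) (l 16777096))) (b (l 454897435831)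 (l 126332438951))) (l 16777664)) (b (a (b (l 228874781895) (l 16776984)) (b (l 464561112183) (l 210084299927))) (l 16776384))))) (b (b (l 3) (b (l 3) (a (a (a (c (l 244980911095) (l 279877520711)) (l 3)) (l 3)) (l 3)))) (b (a (c (c (a (l 16778656) (l 385641087991)) (a (l 16778704) (l 406042182663))) (a (c (l 113984407735) (l 191830688855)) (c (l 414632117239) (l 423222051767)))) (l 3)) (a (c (c (l 16778344) (l 16778400)) (c (l 16778440) (c (l 16778456) (l 16778464)))) (a (c (c (a (l 223506074087) (l 457044919431)) (l 388325442455)) (c (l 395841635223) (l 404431569751))) (l 3))))))) (l 3))) (l 3))) (l 3)))) (l 3)), by decide +kernel⟩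

def k22_pp_022 : ∃ t, chk3 f_pp_022 t 72 272 1 = true :=
  ⟨(a (b (a (c (l 16776592) (c (l 16776688) (l 16776720))) (a (c (l 16776904) (b (l 16778240) (l 16775112))) (b (a (c (l 22179482711) (c (l 16778368) (l 16778392))) (b (c (c (l 223506074727) (b (l 423758923479) (l 212768655863))) (c (b (l 466171724855) (l 297594258983)) (l 334101481591))) (c (l 16778536) (l 50096770103)))) (c (l 16778696) (l 16778800))))) (a (l 16775280) (c (l 16776384) (l 16777488)))) (b (a (b (b (l 3) (a (a (c (c (l 206863076359) (l 215989882055)) (c (b (l 398525991079) (l 270213842423)) (l 315310999591))) (l 3)) (l 3))) (b (a (a (c (l 16778488) (l 16778568)) (c (c (l 190756948823) (l 199883754535)) (c (b (l 391009797799) (l 16777496)) (l 295983646679)))) (l 3)) (a (c (l 16778168) (l 16778264)) (c (a (c (l 173040208647) (l 182167014359)) (c (l 458118661607) (l 466708596199))) (a (c (l 199883754391) (l 278266906455)) (c (l 474224788935) (l 481740981639))))))) (l 3)) (a (c (c (a (l 16777960) (a (l 16778768)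 (b (c (l 86603991383) (l 87677733447)) (l 16778720)))) (a (l 16778040) (a (l 16776224) (b (b (l 166060886807) (l 16777056)) (l 16776176))))) (a (c (l 16775480) (l 16778136)) (b (b (a (l 16777160) (c (l 182703885095) (l 255718328135))) (l 16779472)) (l 16778600)))) (b (a (c (c (b (l 441475663095) (a (l 138143599207) (l 442012534023))) (b (l 466171725687) (a (l 149417888375) (l 456508048663)))) (c (b (l 473687918423) (a (l 168208370247) (l 465097983223))) (b (l 481204111111) (a (l 235317233415) (l 469929821367))))) (l 3)) (b (b (a (c (a (l 16779736) (l 177872047527)) (c (l 99488893639) (c (l 182167012631) (l 183777625543)))) (l 3)) (a (c (l 16778400) (l 16778496)) (a (c (l 279340650263) (c (l 375977412935) (l 391009798583))) (l 3)))) (c (a (l 16776648) (a (l 107005087047) (a (l 254644588231) (l 460803015991)))) (a (l 16779376) (a (c (l 16777496) (l 16778160)) (c (l 420000826407) (l 428590760935)))))))))), by decide +kernel⟩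

def k23_pp_022 : ∃ t, chk3 f_pp_022 t 72 273 1 = true :=
  ⟨(a (c (l 16774720) (l 16773872)) (b (b (a (c (l 16776760) (l 16776896)) (a (c (l 16775760) (l 16778504)) (c (c (l 16778112) (l 16778184)) (c (l 16778232) (c (l 16778256) (l 16778264)))))) (a (l 16775656) (c (l 16777736) (l 16777864)))) (c (l 16776176) (a (l 16776576) (l 16777408))))), by decide +kernel⟩

def k24_pp_022 : ∃ t, chk3 f_pp_022 t 73 136 1 = true :=
  ⟨(b (l 3) (a (b (a (b (a (a (b (c (c (l 248202136919) (l 261087038999)) (c (l 285246229927) (l 352355093143))) (c (l 16778648) (l 78550928679))) (b (l 3) (c (c (l 230485396711) (l 243370298759)) (c (l 265918876999) (l 332490869303))))) (l 3)) (a (c (l 16779352) (c (l 16779440) (l 16779472))) (a (b (c (b (l 287393714215) (l 180019531191)) (c (l 246591524087) (l 317458483527))) (c (l 16778544) (l 16778640))) (b (l 3) (c (c (l 194515045319) (l 206326205607)) (c (l 229411654743) (l 296520517895))))))) (b (l 3) (b (l 3) (a (a (a (c (l 463487370599) (l 459729274151))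 (l 3)) (l 3)) (l 3))))) (a (a (c (l 16777568) (l 16777704)) (c (l 16778976) (c (l 16778752) (l 16778792)))) (b (a (c (c (b (a (l 176798305063) (l 458655532519)) (l 93046442983)) (b (a (l 188609465351) (l 466171725287)) (l 98415152247))) (b (a (c (l 280951260759) (l 274508810455)) (l 476909143463)) (a (l 16777232) (c (l 197199399639) (l 256255199287))))) (a (a (b (l 3) (c (l 455971177607) (l 472077304919))) (l 3)) (l 3))) (a (c (l 16776504) (l 16779248)) (c (b (a (l 142438567623) (b (l 3) (l 286319972551))) (c (l 16778544) (l 16778624))) (b (a (c (l 227801040423) (l 230485395399)) (l 458118661991)) (c (l 16778672) (l 90898959095)))))))) (b (l 3) (a (b (l 3) (b (l 3) (b (l 3) (a (a (c (l 276119425111) (l 302426100119)) (l 3)) (l 3))))) (l 3))))), by decide +kernel⟩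

def k25_pp_022 : ∃ t, chk3 f_pp_022 t 36 137 1 = true :=
  ⟨(a (a (c (l 16769896) (l 16770680)) (b (c (l 16774312) (l 16774104)) (l 16771288))) (b (a (a (c (l 16775840) (l 16774704)) (b (c (l 16777880) (a (l 16777488) (a (l 16778296) (l 16778824)))) (c (l 16778112) (l 16778288)))) (b (a (b (b (a (c (a (l 16778776) (c (l 262160780887) (l 296520518791))) (a (c (l 16777544) (l 16777552)) (c (l 364703123943) (l 367387479255)))) (l 3)) (a (c (l 16779128) (c (l 16777256) (l 16777288))) (a (a (c (l 226190429959) (l 261087039255)) (c (l 298131132791) (l 411947764439))) (l 3)))) (b (a (c (l 16779200) (l 16779328)) (a (c (l 16778672) (l 16778776)) (c (c (l 224579816743) (l 245517782263)) (c (l 321216579879) (l 335712094615))))) (c (l 16779136) (c (l 16779248) (l 16779288))))) (b (l 3) (b (l 3) (a (c (a (l 206863077639) (l 462950499991)) (c (l 390472926375) (l 398525989975))) (l 3))))) (a (c (l 16777648) (c (l 16777776) (l 16778152))) (b (b (a (a (c (l 16779872) (l 16777368)) (c (l 188072595639)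 (a (l 184851369463) (l 349670738359)))) (a (c (l 459192403495) (l 476372272599)) (l 3))) (c (a (l 16779552) (a (l 169282113687) (b (l 3) (l 291688681831)))) (a (l 16779680) (c (l 360408155095) (l 367924347799))))) (c (c (l 16779152) (c (l 16779224) (l 16778616))) (a (l 16778816) (c (l 63518543063) (c (l 16778552) (l 82309024567))))))))) (a (c (l 16773880) (l 16773664)) (c (a (l 16776672) (l 16776864)) (a (l 16776880) (b (c (l 16774928) (l 16777600)) (l 16772584))))))), by decide +kernel⟩

def k26_pp_022 : ∃ t, chk3 f_pp_022 t 36 69 1 = true :=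
  ⟨(c (b (a (a (l 16765728) (l 16764160)) (a (l 16770416) (l 16774016))) (a (l 16759528) (l 16764176))) (b (a (a (l 16764912) (l 16763448)) (a (l 16769808) (l 16773184))) (a (l 16758472) (l 16763320)))), by decide +kernel⟩

def k27_pp_022 : ∃ t, chk3 f_pp_022 t 37 68 1 = true :=
  ⟨(b (l 3) (a (b (a (b (l 3) (a (b (l 3) (a (c (a (b (b (l 3) (l 290078068983)) (l 16778872)) (c (l 429664503511) (l 447381243607))) (b (a (l 460266145015) (l 3)) (a (l 154249727863) (l 435570082951)))) (l 3))) (l 3))) (l 3)) (a (b (a (b (a (c (c (l 16779560) (l 16779656)) (c (l 16779728) (l 16778448))) (a (c (b (l 272361329575) (l 16778784)) (b (c (l 367924349847) (l 382419864663)) (l 16778880))) (b (l 3) (c (l 248739008999) (c (l 343228287639) (l 364166253063)))))) (c (l 16778960) (c (l 16779088) (l 16779136)))) (b (l 3) (b (a (a (c (l 228874785159) (c (l 322827192807) (l 341080803767))) (l 3)) (l 3)) (a (c (c (l 128479923575) (l 139217341879)) (c (l 151565373015) (l 226190428167))) (c (a (l 463487370903)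 (l 3)) (l 479056627735)))))) (c (a (l 16777160) (b (a (l 16779368) (b (a (l 189146337511) (l 460803016215)) (l 104857604487))) (l 16778712))) (a (l 16778656) (b (a (l 16779520) (a (c (l 133311761783) (l 211158042391)) (c (l 362018767895) (l 369534960599)))) (l 16778880))))) (b (l 3) (a (b (b (l 3) (a (a (c (l 458118661527) (l 472077305175)) (l 3)) (l 3))) (b (a (c (a (l 16778936) (l 429127632167)) (a (l 174650822951) (l 453823694071))) (l 3)) (a (c (l 16778688) (c (l 16777480) (l 16777512))) (a (c (l 284709360647) (c (l 383493606487) (l 403357830151))) (l 3))))) (l 3))))) (l 3))), by decide +kernel⟩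

def k28_pp_022 : ∃ t, chk3 f_pp_022 t 74 138 1 = true :=
  ⟨(b (a (c (a (l 16776168) (l 16775704)) (c (l 16776120) (a (l 16776440) (l 16777920)))) (b (a (a (c (l 16778520) (l 16778704)) (b (c (b (a (l 16780176) (l 269140104247)) (l 16779872)) (a (l 16779392) (c (l 184314499255) (l 265382005143)))) (c (l 16778992) (l 16779168)))) (b (b (l 3) (a (a (c (l 243370300039) (l 346449513015)) (l 3)) (l 3))) (b (a (c (c (l 16778920) (l 151028502151)) (c (l 164450275191) (l 232632879543))) (c (a (l 463487370967) (l 3)) (l 479056627783))) (c (a (l 16779752) (a (l 202031239479) (l 461339887191))) (a (l 16777280) (a (l 297594259895) (l 474761659911))))))) (a (c (l 16779272) (l 16779488)) (c (c (l 16779384) (b (l 16779448) (l 16778256))) (a (l 16778456) (b (c (l 16778728) (l 96267669335)) (l 16776296))))))) (a (l 16773992) (a (l 16775792) (c (l 16777792) (l 16778040))))), by decide +kernel⟩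

def k29_pp_022 : ∃ t, chk3 f_pp_022 t 75 138 1 = true :=
  ⟨(b (a (b (l 3) (a (b (a (b (c (a (l 458655532503) (l 3)) (l 475298531143)) (c (a (l 16778984) (l 290078070103)) (a (l 251423361159) (l 457581790503)))) (l 3)) (c (a (l 16779784) (b (a (l 289004328151) (l 3)) (c (l 172503338951) (l 186998853671)))) (a (c (l 16777296) (l 16777344)) (b (a (l 394767895815) (l 3)) (a (l 16777720) (l 315311002711)))))) (l 3))) (l 3)) (a (a (b (c (l 16779840) (a (l 16778208) (l 16779912))) (l 16778872)) (b (b (a (c (b (a (l 251960234503) (l 445233760119)) (l 147270407111)) (b (a (l 295446779047) (l 456508049175)) (c (l 235854104615) (l 237464718007)))) (c (b (l 3) (l 461876758743)) (l 479593499223))) (c (a (l 16779520) (b (a (l 16779608) (l 460266145383)) (l 16779576))) (a (l 16779704) (b (a (l 301352356519) (l 473151047207)) (c (l 16777720) (l 16777736)))))) (c (l 16779568) (l 16779784)))) (b (a (b (l 3) (a (a (c (l 456508049415) (l 474224789399)) (l 3)) (l 3))) (l 3)) (a (b (b (a (c (a (l 16780336)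 (l 290614941191)) (a (l 16779048) (l 403357830711))) (l 3)) (a (c (l 16780120) (l 16780264)) (c (a (l 291688682727) (l 3)) (l 445233759831)))) (a (l 16780680) (c (c (l 16779376) (l 129553666167)) (c (l 139217343031) (l 218674235607))))) (b (l 3) (b (l 3) (a (c (a (l 254107718007) (l 442549405543)) (a (l 304036713511) (l 452749952775))) (l 3)))))))), by decide +kernel⟩

def k30_pp_022 : ∃ t, chk3 f_pp_022 t 37 139 1 = true :=
  ⟨(b (a (c (l 16773296) (l 16771408)) (a (c (l 16776168) (l 16775800)) (b (c (a (l 16780600) (b (a (l 99488896407) (b (l 463487371447) (l 236927850551))) (a (l 16781592) (l 16780008)))) (a (l 16779528) (c (b (a (l 16778960) (l 403357828727)) (l 16779664)) (b (a (l 192904431655) (l 411410892311)) (l 16779728))))) (c (l 16779240) (c (l 16779456) (l 16778240)))))) (a (l 16770872) (a (l 16774216) (c (l 16775584) (l 16773296))))), by decide +kernel⟩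

def k31_pp_022 : ∃ t, chk3 f_pp_022 t 18 35 1 = true :=
  ⟨(a (b (a (b (l 16756080) (l 16753208)) (b (c (l 16758816) (l 16757648)) (l 16750104))) (a (l 16741104) (c (l 16749496) (l 16747560)))) (a (b (b (c (l 16765928) (l 16764968)) (l 16757328)) (a (l 16753952) (l 16757528))) (b (b (c (l 16772872) (l 16771464)) (l 16764384)) (b (l 16756328) (l 16758856))))), by decide +kernel⟩

def k32_pp_022 : ∃ t, chk3 f_pp_022 t 19 34 1 = true :=
  ⟨(b (l 3) (a (b (l 3) (a (b (a (b (a (b (l 3) (a (c (b (l 452213082007) (l 204715595543)) (c (l 377051153799) (l 384567346487))) (l 3))) (l 3)) (a (c (b (a (l 16779872) (b (a (l 288467457399) (l 3)) (l 174113953207))) (l 16779208)) (b (a (l 16780064) (b (l 437180696119) (c (l 16778400) (l 271287585719)))) (l 16779440))) (b (a (c (l 461339887911) (l 480130370295)) (l 3)) (a (c (b (l 269140105879) (l 16780384)) (b (l 401210344791) (l 169282115015))) (c (b (l 3) (l 461876758631)) (l 476909144535)))))) (l 3)) (a (a (c (l 16778800) (l 16779096)) (a (c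 (l 16780400) (l 16780024)) (b (b (c (c (l 159081566967) (l 170355856471)) (c (l 185388242199) (l 257865813335))) (l 16780896)) (l 16780416)))) (b (a (b (a (c (b (l 3) (l 443623147335)) (l 472077306055)) (l 3)) (a (c (l 137606731831) (c (l 162302792535) (l 230485396583))) (b (l 3) (c (l 286319975255) (l 423222052343))))) (l 3)) (b (a (a (l 16782064) (c (l 16780288) (a (l 16777632) (l 190756951527)))) (a (c (b (l 463487371543) (l 261087042455)) (b (l 451139340439) (l 355039448615))) (l 3))) (a (l 16781400) (c (a (l 16780152) (b (l 452213082103) (l 219211110375))) (a (l 108078831255) (b (l 466171725703) (l 318532226295))))))))) (l 3))) (l 3))), by decide +kernel⟩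

def k33_pp_022 : ∃ t, chk3 f_pp_022 t 38 70 1 = true :=
  ⟨(b (a (b (a (c (l 16774976) (l 16772728)) (a (c (l 16778184) (l 16778528)) (c (l 16780320) (c (l 16780576) (l 16780024))))) (c (l 16775064) (l 16775264))) (b (a (b (a (b (a (c (a (l 192904435543) (l 298668006647)) (b (l 447918114439) (l 277193165911))) (c (l 466171726791) (l 454360566535))) (c (a (l 16777248) (l 193441307511)) (a (l 16777488) (b (l 388862315223) (l 16777976))))) (b (l 3) (a (c (l 461876759191) (l 475298531815)) (l 3)))) (c (a (l 16775976) (b (a (l 167671503479) (l 452749953367)) (l 81235286727))) (a (l 16781520) (b (a (c (l 261087038327) (l 266992618983)) (l 465634855111)) (c (l 93046445543) (a (l 16777248) (l 238538460311))))))) (b (l 3) (a (b (l 3) (a (c (b (l 442012535351) (l 287930588327)) (l 436106954695)) (l 3))) (l 3)))) (a (c (l 16777304) (c (l 16778912) (a (l 16777992) (l 16780088)))) (b (a (b (c (a (l 16780376) (b (l 461339887863) (l 261623913559))) (a (l 140827957479) (b (l 439328180343) (l 311552907671))))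 (c (l 16779760) (l 16780032))) (b (l 3) (c (a (l 242833432151) (l 443086277799)) (c (l 409800280295) (l 417853343815))))) (b (a (l 16781376) (c (c (l 135459248279) (l 144586054071)) (a (l 16777728) (b (l 400673477287) (l 16777912))))) (c (l 16781016) (l 16781360))))))) (b (a (l 16773312) (a (l 16773944) (a (l 16777128) (b (l 16780456) (l 16778024))))) (a (l 16769280) (c (l 16776416) (l 16776648))))), by decide +kernel⟩

def k34_pp_022 : ∃ t, chk3 f_pp_022 t 39 70 1 = true :=
  ⟨(b (a (b (l 3) (a (b (l 3) (a (b (c (a (l 463487372135) (l 3)) (l 478519758311)) (a (c (l 189146340471) (c (l 278803779127) (l 292762423063))) (c (l 460803017239) (l 472077306231)))) (l 3))) (l 3))) (l 3)) (a (b (a (b (b (a (c (l 95193930999) (c (l 16780472) (l 195051915591))) (a (c (l 430738245863) (l 454360565863)) (l 3))) (a (l 16781928) (c (a (l 16780536) (l 401210345399)) (a (l 167671503223) (l 420000827239))))) (c (l 16780952) (c (l 16781264) (l 16780736)))) (b (l 3) (a (b (c (a (l 265382011591) (l 442549406999))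 (a (l 359334416919) (l 452213083191))) (c (c (l 146196666759) (l 156934085527)) (a (l 16777912) (l 329269645527)))) (b (l 3) (c (l 461876759719) (l 477982887463)))))) (a (c (l 16777256) (l 16777728)) (a (c (l 16780432) (l 16780848)) (b (b (a (c (l 202031242647) (l 297594261495)) (c (l 460266146423) (l 465634855383))) (c (l 16780416) (c (l 16778016) (l 197736271127)))) (l 16781536))))) (b (l 3) (a (b (a (b (l 3) (c (a (l 439328180535) (l 3)) (l 465097984935))) (l 3)) (a (b (c (a (l 16778032) (l 288467461175)) (a (l 16778216) (l 433422600135))) (c (l 16782720) (l 16777808))) (b (l 3) (a (c (l 271824462615) (l 368998094247)) (c (l 439865052455) (l 448991857719)))))) (l 3))))), by decide +kernel⟩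

def k35_pp_022 : ∃ t, chk3 f_pp_022 t 19 71 1 = true :=
  ⟨(a (a (c (l 16763232) (l 16763840)) (b (l 16772616) (l 16762048))) (b (a (a (l 16775384) (c (l 16779296) (l 16775936))) (a (b (b (b (a (l 16781784) (c (l 156397216567) (c (l 183240760359) (l 249812750887)))) (c (l 16781368) (l 16781792))) (l 16782424)) (l 16781360)) (a (b (b (b (c (l 465097985831) (l 476909145607)) (a (c (l 16780568) (l 297594262135)) (c (l 450065599095) (l 462950500839)))) (c (l 16782608) (c (l 16780296) (l 16780400)))) (l 16779264)) (b (b (l 3) (b (c (l 442012535255) (l 462413630343)) (c (l 198810019335) (a (l 16778320) (l 394231027511))))) (c (l 16781048) (l 16781536)))))) (a (l 16771256) (a (l 16773912) (c (l 16777744) (l 16778440)))))), by decide +kernel⟩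

def k36_pp_022 : ∃ t, chk3 f_pp_022 t 5 8 1 = true :=
  ⟨(a (b (l 3) (b (l 3) (a (b (l 3) (a (b (a (b (a (b (l 3) (a (c (b (l 3) (l 442012537255)) (l 454360568855)) (l 3))) (l 3)) (a (b (b (a (c (a (l 271287592055) (l 436643826919)) (a (l 364703127495) (l 444160019447))) (l 3)) (a (c (l 16781472) (c (l 16778360) (l 253033976231))) (c (l 463487372983) (l 468319210903)))) (a (c (l 16781880) (l 16777096)) (c (b (l 239075338439) (l 16783208)) (b (a (l 16779416) (l 459192404391)) (l 16778280))))) (a (a (b (l 3) (c (l 443623148695) (l 457044921271))) (l 3)) (l 3)))) (l 3)) (a (b (a (c (l 16784472) (l 16779808)) (a (b (c (c (l 16780624) (l 140827959383)) (c (l 152639120215) (l 234780364615))) (l 16781416)) (b (c (c (l 399062863079) (l 416242732263)) (c (l 424832666743) (l 432885730183))) (c (l 16783064) (c (l 16778144) (l 192367561863)))))) (a (l 16779840) (l 16784024))) (b (a (b (l 3) (a (b (c (l 451676212727) (l 465097985255)) (c (l 230485404135) (l 329806517367))) (l 3))) (l 3)) (a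 (a (c (l 16781520) (l 16782080)) (b (b (c (l 417316473639) (l 443086277271)) (c (l 16783424) (l 280414392775))) (l 16783936))) (b (a (c (l 465634857927) (l 476909146647)) (l 3)) (a (c (a (l 16783576) (l 256792080615)) (b (a (l 16778200) (l 389399189719)) (l 16778584))) (c (l 458118664375) (l 465097985879)))))))) (l 3))) (l 3)))) (l 3)), by decide +kernel⟩

def k37_pp_022 : ∃ t, chk3 f_pp_022 t 4 9 1 = true :=
  ⟨(a (b (a (a (b (a (l 16669152) (l 16677208)) (a (l 16636696) (l 16646344))) (a (b (c (l 16650208) (l 16654792)) (l 16655984)) (b (b (l 16684128) (l 16647336)) (l 16665600)))) (b (a (b (a (l 16693312) (l 16702360)) (a (l 16656688) (l 16666000))) (a (b (l 16710456) (l 16696048)) (b (l 16718272) (l 16704048)))) (a (b (l 16687920) (l 16651128)) (a (l 16694336) (l 16703784))))) (b (a (a (c (l 16610312) (l 16605480)) (c (l 16630144) (l 16624944))) (a (l 16668104) (l 16687696))) (a (b (a (l 16560376) (l 16559144)) (a (l 16541704) (l 16540392))) (a (a (l 16585472) (l 16595336)) (l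 16631064))))) (b (b (a (a (b (a (l 16725808) (l 16733184)) (l 16725824)) (b (a (l 16740408) (l 16747456)) (a (l 16726192) (l 16733192)))) (b (a (a (l 16754352) (l 16761072)) (a (l 16763688) (a (l 16767184) (l 16770328)))) (a (a (l 16719040) (l 16746664)) (a (l 16753136) (l 16759424))))) (a (a (a (l 16712136) (l 16719920)) (a (l 16727224) (l 16734144))) (a (a (l 16740880) (l 16736944)) (b (l 16753112) (l 16729384))))) (a (a (b (c (l 16689520) (l 16683264)) (l 16650776)) (b (b (l 16689936) (l 16675912)) (l 16670432))) (b (a (l 16718256) (l 16730848)) (a (l 16710104) (l 16704272)))))), by decide +kernel⟩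

def k38_pp_022 : ∃ t, chk3 f_pp_022 t 20 36 1 = true :=
  ⟨(b (a (b (a (c (l 16774144) (l 16772160)) (b (a (l 16783208) (b (a (l 16782248) (b (c (l 217063630999) (l 309942294039)) (l 16784144))) (l 16786096))) (c (l 16779816) (l 16780656)))) (a (l 16776424) (l 16777912))) (b (a (b (a (b (a (c (b (l 436643828103) (l 286856851783)) (b (l 444160020503) (l 425906407927))) (l 3)) (a (c (l 16783368) (l 137069865239)) (b (c (l 450065600119) (l 426443279735)) (c (l 255718338519) (l 342691419655))))) (b (l 3) (a (c (l 439865054967) (l 448454989047)) (l 3)))) (a (c (l 16780840) (c (l 16781400) (l 16781648))) (b (a (c (l 230485406951) (b (l 445233761063) (l 288467457495))) (c (l 465097986999) (l 442549408263))) (a (l 16782960) (c (l 193978183799) (a (l 16778808) (l 356113192103))))))) (b (l 3) (a (b (l 3) (a (c (l 450065600647) (l 462413631303)) (l 3))) (l 3)))) (b (a (c (l 16783104) (l 16783952)) (a (b (a (c (l 16783816) (l 256792072007)) (c (l 409263410567) (l 437717568711))) (c (l 16782704)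 (l 16783328))) (b (l 3) (a (c (b (l 445770632727) (l 16778328)) (b (l 418390216007) (l 346449514935))) (c (l 435570087447) (l 443086279703)))))) (a (l 16778512) (a (l 16784728) (b (a (l 16786160) (c (l 228874793639) (l 326585293223))) (l 16787496))))))) (a (b (l 16772056) (l 16765008)) (a (b (l 16781240) (l 16773728)) (c (l 16783720) (b (l 16779648) (l 16779776)))))), by decide +kernel⟩

def k39_pp_022 : ∃ t, chk3 f_pp_022 t 21 36 1 = true :=
  ⟨(b (a (b (l 3) (a (b (l 3) (a (b (a (c (l 461876761271) (l 435570086183)) (l 3)) (a (c (l 16783704) (l 286319973751)) (c (l 437717569431) (l 455971180167)))) (l 3))) (l 3))) (l 3)) (a (b (c (a (b (a (l 16782064) (b (a (l 287930597175) (l 435033216951)) (l 174650834311))) (l 16784272)) (b (a (b (l 3) (l 465097988615)) (l 3)) (a (b (a (l 16783696) (l 445770633463)) (l 16783632)) (b (l 3) (a (l 290614952567) (l 433959475367)))))) (a (b (a (c (l 16782720) (l 16782992)) (b (a (l 424295795783) (l 442549409143)) (a (l 16778960) (l 358797547415))))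 (a (l 16783288) (l 16787264))) (b (a (b (l 3) (l 475835406215)) (l 3)) (a (b (a (l 308868553559) (l 458118664135)) (l 137606740071)) (c (l 467245471927) (l 466171729591)))))) (a (l 16787544) (a (l 16788568) (b (b (a (l 16786952) (c (l 276119436903) (l 375440549303))) (l 16788488)) (l 16774352))))) (c (b (l 3) (a (b (a (b (l 466171730615) (a (l 16778536) (l 444696891847))) (l 3)) (a (l 16788136) (b (l 432348860039) (l 198810026903)))) (b (l 3) (a (b (l 3) (l 465097988807)) (l 3))))) (b (l 3) (a (b (a (b (l 438791313431) (a (l 330343389399) (l 414095249543))) (l 3)) (a (b (l 16784592) (l 16777504)) (b (l 453286826519) (a (l 16779536) (l 386714838423))))) (b (l 3) (a (b (l 3) (l 436106958887)) (l 3)))))))), by decide +kernel⟩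

def k40_pp_022 : ∃ t, chk3 f_pp_022 t 10 37 1 = true :=
  ⟨(a (a (b (l 16750112) (l 16741392)) (b (l 16768744) (l 16752824))) (b (a (a (l 16774280) (l 16785144)) (c (b (a (l 16782400) (b (a (b (l 269676990839) (l 16778936)) (b (l 435570090487) (l 434496344999))) (a (l 16785920) (l 16784280)))) (l 16786136)) (b (a (a (l 16792272) (l 16785824)) (b (a (b (a (l 16778784) (l 409800282343)) (l 16779608)) (b (l 443086282343) (l 452749955639))) (a (l 16776744) (b (l 304036714727) (l 16779048))))) (b (l 16790624) (l 16785272))))) (a (l 16763560) (a (l 16771136) (l 16775872))))), by decide +kernel⟩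

def k41_pp_022 : ∃ t, chk3 f_pp_022 t 11 18 1 = true :=
  ⟨(b (l 3) (a (b (a (b (c (a (b (l 3) (a (b (l 451139344967) (l 270750733031)) (l 435033221223))) (l 3)) (a (b (l 3) (a (b (l 421074573239) (a (l 16778896) (l 377588033847))) (l 442549412855))) (l 3))) (c (a (b (b (a (l 16779112) (l 428590764839)) (l 16789176)) (l 16774992)) (b (a (l 465634861127) (l 3)) (a (l 187535741527) (b (l 429127638903) (l 282561895223))))) (a (b (a (l 16779176) (b (l 447918117367) (l 294373039143))) (l 16787016)) (b (a (l 474224794839) (l 3)) (a (b (l 371682448599) (l 16780056)) (b (l 435033218087) (l 439328182663))))))) (a (l 3) (l 3))) (a (b (a (l 16788768) (c (l 16790784) (b (a (l 16777288) (l 16785400)) (l 16795200)))) (l 16781792)) (c (b (a (b (a (b (l 444160022471) (l 16778968)) (l 467782345847)) (b (l 190756970887) (l 16789264))) (b (l 3) (a (l 446307507271) (l 3)))) (a (l 16772200) (b (a (l 16790432) (b (l 402284092183) (l 16779272))) (l 16777488)))) (a (b (b (a (b (l 409263412695) (l 359334417255))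 (l 435033219175)) (a (l 16779544) (b (l 409800289591) (l 16779736)))) (l 16769104)) (b (b (l 3) (a (l 458655537559) (l 3))) (b (a (l 16780024) (l 428053899383)) (l 16789656))))))) (b (l 3) (a (b (l 3) (a (c (b (a (l 427517028151) (l 3)) (a (l 256255223815) (l 460266151607))) (b (a (l 433422607015) (l 3)) (a (b (l 414095257799) (l 16779512)) (l 422685186983)))) (l 3))) (l 3))))), by decide +kernel⟩

def k42_pp_022 : ∃ t, chk3 f_pp_022 t 5 19 1 = true :=
  ⟨(a (b (a (a (l 16742832) (c (l 16746288) (l 16751960))) (a (a (l 16762552) (l 16757296)) (b (l 16760712) (l 16727144)))) (a (a (l 16717528) (l 16729000)) (a (l 16739904) (l 16750136)))) (b (a (a (b (l 16769944) (l 16757536)) (b (b (l 16792560) (l 16775600)) (l 16766160))) (b (a (c (b (a (l 16787752) (b (a (l 416242734855) (l 424832673943)) (l 190220104567))) (l 16790952)) (b (a (b (a (l 16779656) (l 16779728)) (l 16776840)) (b (a (l 438791312855) (l 430201381831)) (a (l 16781080) (l 377588035847)))) (l 16793824))) (b (a (b (l 3)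 (a (c (l 458655539159) (l 419463961783)) (l 431811997543))) (l 3)) (c (a (b (l 248202169063) (l 16799952)) (b (l 424295805319) (a (l 16779552) (l 445770637239)))) (a (b (a (l 16779776) (l 445233764055)) (l 16780808)) (b (l 430201383735) (a (l 380809262935) (l 402820963543))))))) (a (l 16774648) (a (l 16787384) (b (c (l 16778480) (l 16791144)) (l 16768728)))))) (a (b (a (l 16724184) (l 16733016)) (l 16758096)) (b (a (l 16762064) (l 16769208)) (l 16769368))))), by decide +kernel⟩

def k43_pp_022 : ∃ t, chk3 f_pp_022 t 2 5 1 = true :=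
  ⟨(b (a (b (b (a (a (a (l 16490272) (l 16509504)) (a (l 16528792) (a (l 16522360) (l 16573968)))) (a (a (b (l 16579128) (l 16556584)) (l 16628840)) (b (l 16670448) (l 16647152)))) (a (a (b (l 16486680) (a (l 16482880) (l 16506776))) (b (l 16523496) (a (l 16519944) (l 16532872)))) (a (b (l 16539728) (l 16593624)) (b (l 16590192) (l 16615712))))) (a (a (a (l 16416040) (l 16423536)) (a (l 16456872) (l 16468776))) (a (l 16530624) (l 16563216)))) (b (b (a (a (b (l 16703184) (l 16686160)) (b (l 16726552) (l 16693040))) (a (b (l 16745720) (l 16712904)) (b (l 16741424) (l 16729640)))) (b (a (a (a (l 16607400) (l 16627584)) (b (l 16682656) (l 16671144))) (a (a (l 16676200) (l 16685952)) (l 16740216))) (b (a (a (l 16590368) (l 16609360)) (a (a (l 16660744) (l 16676016)) (l 16691224))) (a (a (l 16604968) (l 16642928)) (b (a (l 16627352) (l 16703952)) (a (l 16630024) (a (l 16660192) (l 16680448)))))))) (a (a (l 16591480) (l 16617344)) (a (b (l 16618000) (l 16611896)) (a (l 16670192) (l 16688720))))))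 (b (a (a (a (l 16396736) (l 16408336)) (a (l 16449560) (l 16494104))) (a (a (b (l 16506928) (l 16496184)) (l 16574240)) (a (b (l 16608880) (l 16603168)) (l 16661416)))) (a (a (a (l 16317880) (l 16321672)) (a (l 16371536) (l 16426232))) (a (a (l 16486216) (l 16544616)) (a (l 16587200) (l 16653784)))))), by decide +kernel⟩

def k44_pp_022 : ∃ t, chk3 f_pp_022 t 2 3 1 = true :=
  ⟨(b (a (b (a (a (b (l 16232360) (l 16219920)) (b (l 16287048) (l 16264656))) (a (b (l 16347480) (l 16337752)) (b (l 16414200) (l 16410376)))) (a (b (a (l 16177864) (l 16256840)) (a (l 16171000) (l 16261608))) (a (b (l 16338376) (l 16444640)) (b (l 16470216) (l 16595512))))) (a (b (b (a (l 16479640) (l 16530600)) (l 16583288)) (a (l 16655024) (l 16742168))) (b (a (l 16667640) (l 16734200)) (a (l 16805368) (l 2))))) (a (b (a (a (l 16281112) (b (l 16420216) (l 16582792))) (a (l 16651200) (l 16756072))) (a (a (l 16654560) (l 16774896)) (a (l 16861464) (l 2)))) (b (a (a (l 16832112) (l 2)) (l 2)) (l 2)))), by decide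 +kernel⟩

def k45_pp_022 : ∃ t, chk3 f_pp_022 t 3 4 1 = true :=
  ⟨(a (b (l 3) (b (l 3) (a (b (a (b (a (b (l 3) (a (b (l 3) (a (l 426980159095) (l 3))) (l 3))) (l 3)) (a (b (a (b (a (b (l 379735517975) (l 16779880)) (l 417853351383)) (c (l 16800824) (l 244444074039))) (b (l 3) (a (b (l 397452258567) (l 250349657063)) (l 421611449447)))) (b (a (l 16779288) (a (l 16801200) (b (l 253034012295) (l 16779944)))) (l 16798720))) (b (l 3) (c (a (b (l 461339897095) (l 16795816)) (b (l 3) (l 416242742071))) (a (b (l 418927093639) (a (l 16780008) (l 16780664))) (l 426443290503)))))) (l 3)) (a (b (a (l 16804704) (b (a (l 16801296) (b (a (l 16801168) (b (l 404968452183) (l 16780856))) (l 16802288))) (l 16773032))) (a (l 16764200) (l 16774392))) (b (a (a (b (b (a (l 416242740871) (l 3)) (a (l 239075377207) (l 397989131351))) (l 16798384)) (b (a (l 421611454247) (l 3)) (b (c (l 242833471319) (l 356113209063)) (l 16801288)))) (b (l 3) (a (b (l 420000841239) (a (l 243907217255) (l 404968454375)))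 (b (l 3) (l 420537713015))))) (b (a (l 16797440) (a (b (l 16801368) (l 16783056)) (b (a (l 247665314503) (l 406579067911)) (l 16801544)))) (a (l 16763512) (l 16800224)))))) (b (l 3) (a (b (l 3) (a (c (b (a (l 465634868039) (l 420000848087)) (b (l 233706689031) (l 16780376))) (b (a (l 415705871127) (l 425906424615)) (a (l 16801816) (b (l 368998111879) (l 16780904))))) (b (l 3) (a (b (l 421074585639) (l 373829945543)) (b (l 3) (l 420537714999)))))) (l 3)))))) (b (l 3) (l 3))), by decide +kernel⟩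

def k46_pp_022 : ∃ t, chk3 f_pp_022 t 3 5 1 = true :=
  ⟨(a (b (b (b (a (b (a (l 16777688) (a (l 16768144) (l 16783464))) (a (l 16744000) (l 16777136))) (a (b (b (a (l 16802344) (a (b (l 16802080) (l 16782064)) (b (c (l 16783808) (l 353965728535)) (l 16802192)))) (a (l 16770768) (l 16803872))) (b (l 16810920) (l 16783936))) (a (b (b (a (a (l 413021516519) (l 435033225479)) (l 438254453751)) (l 225116750919)) (l 16795240)) (b (b (l 3) (l 291151872535)) (l 45197877127))))) (b (a (a (l 16765600) (b (l 16731656) (l 16726864))) (a (l 16792536) (c (l 26407400535) (l 25333651095)))) (b (a (a (l 16707040) (l 16743832)) (a (l 16750432) (a (l 16761760) (l 2)))) (b (a (a (l 16704664) (l 16720384)) (a (l 16748344) (l 16783520))) (a (a (l 16742408) (l 16718984)) (a (l 16747184) (l 16761912))))))) (a (a (b (l 16714320) (l 16684008)) (b (l 16714536) (l 16713432))) (a (b (l 16743760) (l 16743760)) (b (l 16760552) (l 2))))) (a (b (a (l 16679360) (l 16724104)) (a (l 16712704) (l 16754240))) (a (b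 (l 16754704) (l 2)) (l 2)))) (b (b (b (b (b (l 3) (l 2)) (l 2)) (l 2)) (l 2)) (l 2))), by decide +kernel⟩

def k47_pp_022 : ∃ t, chk3 f_pp_022 t 3 3 1 = true :=
  ⟨(a (b (b (a (b (l 16777376) (l 2)) (l 2)) (l 2)) (l 2)) (l 2)), by decide +kernel⟩

theorem s48_pp_022 : ∃ t, chk3 f_pp_022 t 3 2 1 = true := ex3_b k45_pp_022 k46_pp_022

theorem s49_pp_022 : ∃ t, chk3 f_pp_022 t 3 1 1 = true := ex3_b s48_pp_022 k47_pp_022

theorem s50_pp_022 : ∃ t, chk3 f_pp_022 t 10 36 1 = true := ex3_a k38_pp_022 k39_pp_022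

theorem s51_pp_022 : ∃ t, chk3 f_pp_022 t 10 18 1 = true := ex3_b s50_pp_022 k40_pp_022

theorem s52_pp_022 : ∃ t, chk3 f_pp_022 t 5 18 1 = true := ex3_a s51_pp_022 k41_pp_022

theorem s53_pp_022 : ∃ t, chk3 f_pp_022 t 5 9 1 = true := ex3_b s52_pp_022 k42_pp_022

theorem s54_pp_022 : ∃ t, chk3 f_pp_022 t 2 9 1 = true := ex3_a k37_pp_022 s53_pp_022

theorem s55_pp_022 : ∃ t, chk3 f_pp_022 t 19 70 1 = true := ex3_a k33_pp_022 k34_pp_022

theorem s56_pp_022 : ∃ t, chk3 f_pp_022 t 19 35 1 = true := ex3_b s55_pp_022 k35_pp_022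

theorem s57_pp_022 : ∃ t, chk3 f_pp_022 t 19 17 1 = true := ex3_b k32_pp_022 s56_pp_022

theorem s58_pp_022 : ∃ t, chk3 f_pp_022 t 37 138 1 = true := ex3_a k28_pp_022 k29_pp_022

theorem s59_pp_022 : ∃ t, chk3 f_pp_022 t 37 69 1 = true := ex3_b s58_pp_022 k30_pp_022

theorem s60_pp_022 : ∃ t, chk3 f_pp_022 t 37 34 1 = true := ex3_b k27_pp_022 s59_pp_022

theorem s61_pp_022 : ∃ t, chk3 f_pp_022 t 72 136 1 = true := ex3_b k22_pp_022 k23_pp_022

theorem s62_pp_022 : ∃ t, chk3 f_pp_022 t 36 136 1 = true := ex3_a s61_pp_022 k24_pp_022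

theorem s63_pp_022 : ∃ t, chk3 f_pp_022 t 36 68 1 = true := ex3_b s62_pp_022 k25_pp_022

theorem s64_pp_022 : ∃ t, chk3 f_pp_022 t 36 34 1 = true := ex3_b s63_pp_022 k26_pp_022

theorem s65_pp_022 : ∃ t, chk3 f_pp_022 t 18 34 1 = true := ex3_a s64_pp_022 s60_pp_022

theorem s66_pp_022 : ∃ t, chk3 f_pp_022 t 18 17 1 = true := ex3_b s65_pp_022 k31_pp_022

theorem s67_pp_022 : ∃ t, chk3 f_pp_022 t 9 17 1 = true := ex3_a s66_pp_022 s57_pp_022

theorem s68_pp_022 : ∃ t, chk3 f_pp_022 t 9 8 1 = true := ex3_b k21_pp_022 s67_pp_022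

theorem s69_pp_022 : ∃ t, chk3 f_pp_022 t 71 270 1 = true := ex3_a k17_pp_022 k18_pp_022

theorem s70_pp_022 : ∃ t, chk3 f_pp_022 t 71 135 1 = true := ex3_b s69_pp_022 k19_pp_022

theorem s71_pp_022 : ∃ t, chk3 f_pp_022 t 35 135 1 = true := ex3_a k16_pp_022 s70_pp_022

theorem s72_pp_022 : ∃ t, chk3 f_pp_022 t 140 268 1 = true := ex3_b k11_pp_022 k12_pp_022

theorem s73_pp_022 : ∃ t, chk3 f_pp_022 t 70 268 1 = true := ex3_a s72_pp_022 k13_pp_022

theorem s74_pp_022 : ∃ t, chk3 f_pp_022 t 70 134 1 = true := ex3_b s73_pp_022 k14_pp_022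

theorem s75_pp_022 : ∃ t, chk3 f_pp_022 t 35 134 1 = true := ex3_a s74_pp_022 k15_pp_022

theorem s76_pp_022 : ∃ t, chk3 f_pp_022 t 35 67 1 = true := ex3_b s75_pp_022 s71_pp_022

theorem s77_pp_022 : ∃ t, chk3 f_pp_022 t 35 33 1 = true := ex3_b k10_pp_022 s76_pp_022

theorem s78_pp_022 : ∃ t, chk3 f_pp_022 t 139 534 1 = true := ex3_a k6_pp_022 k7_pp_022

theorem s79_pp_022 : ∃ t, chk3 f_pp_022 t 139 267 1 = true := ex3_b s78_pp_022 k8_pp_022

theorem s80_pp_022 : ∃ t, chk3 f_pp_022 t 139 133 1 = true := ex3_b k5_pp_022 s79_pp_022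

theorem s81_pp_022 : ∃ t, chk3 f_pp_022 t 69 133 1 = true := ex3_a k4_pp_022 s80_pp_022

theorem s82_pp_022 : ∃ t, chk3 f_pp_022 t 69 66 1 = true := ex3_b k3_pp_022 s81_pp_022

theorem s83_pp_022 : ∃ t, chk3 f_pp_022 t 34 66 1 = true := ex3_a k2_pp_022 s82_pp_022

theorem s84_pp_022 : ∃ t, chk3 f_pp_022 t 34 33 1 = true := ex3_b s83_pp_022 k9_pp_022

theorem s85_pp_022 : ∃ t, chk3 f_pp_022 t 17 33 1 = true := ex3_a s84_pp_022 s77_pp_022

theorem s86_pp_022 : ∃ t, chk3 f_pp_022 t 17 16 1 = true := ex3_b k1_pp_022 s85_pp_022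

theorem s87_pp_022 : ∃ t, chk3 f_pp_022 t 8 16 1 = true := ex3_a k0_pp_022 s86_pp_022

theorem s88_pp_022 : ∃ t, chk3 f_pp_022 t 8 8 1 = true := ex3_b s87_pp_022 k20_pp_022

theorem s89_pp_022 : ∃ t, chk3 f_pp_022 t 4 8 1 = true := ex3_a s88_pp_022 s68_pp_022

theorem s90_pp_022 : ∃ t, chk3 f_pp_022 t 2 8 1 = true := ex3_a s89_pp_022 k36_pp_022

theorem s91_pp_022 : ∃ t, chk3 f_pp_022 t 2 4 1 = true := ex3_b s90_pp_022 s54_pp_022

theorem s92_pp_022 : ∃ t, chk3 f_pp_022 t 2 2 1 = true := ex3_b s91_pp_022 k43_pp_022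

theorem s93_pp_022 : ∃ t, chk3 f_pp_022 t 2 1 1 = true := ex3_b s92_pp_022 k44_pp_022

theorem s94_pp_022 : ∃ t, chk3 f_pp_022 t 1 1 1 = true := ex3_a s93_pp_022 s49_pp_022

theorem c_pp_022 : CertN 0 536870912 1073741824 536870912 402653184 67108864 3 false true true .pp 0 2 2
    ndN0q0 ndN4q2 pcN2 cut_pp_022 Ext.none :=
  certN1 (fam := false) (s1 := true) (s2 := true) (a := 0) (b := 2) (c := 2) (cn := .pp) (n1 := ndN0q0) (n2 := ndN4q2) (pc := pcN2) (cut := cut_pp_022) (xt := Ext.none) (P1 := 0) (W1 := 536870912) (P2 := 1073741824) (W2 := 536870912) (P3 := 402653184) (W3 := 67108864) (N0 := 3)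
    rfl (fun _ => rfl) s94_pp_022

noncomputable def f_pp_023 : ℕ → ℕ → ℕ → ℕ → Bool := onCell 1073741824 536870912 0 1230186008 402653184 67108864
    (rowN 3 2 false true true .up 0 2 3 (qsf 0 536870912 0 1230186008 2) ndN0q0 ndN4q3 pcN2 Cut.none Ext.none)

def k0_pp_023 : ∃ t, chk3 f_pp_023 t 1 2 1 = true :=
  ⟨(a (l 2) (a (l 2) (a (b (l 2) (b (l 16944032) (l 17005256))) (b (b (l 17030368) (l 16995568)) (b (l 16976752) (l 17011400)))))), by decide +kernel⟩

def k1_pp_023 : ∃ t, chk3 f_pp_023 t 1 6 1 = true :=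
  ⟨(a (a (l 2) (a (l 2) (b (l 2) (b (l 2) (a (l 2) (l 16867288)))))) (a (b (a (l 2) (b (l 16968352) (l 16972792))) (a (b (l 241156375271) (a (l 16894992) (l 16921704))) (b (l 16967936) (l 16955152)))) (a (b (b (l 17007232) (l 17015528)) (b (l 17009960) (l 16999456))) (b (l 17042816) (b (l 17050224) (l 17044904)))))), by decide +kernel⟩

def k2_pp_023 : ∃ t, chk3 f_pp_023 t 4 7 1 = true :=
  ⟨(b (l 2) (l 3)), by decide +kernel⟩

def k3_pp_023 : ∃ t, chk3 f_pp_023 t 10 14 1 = true :=
  ⟨(a (b (l 2) (b (l 2) (a (l 3) (a (l 3) (a (a (b (l 3) (b (l 155323537799) (l 151565449607))) (b (a (l 152639190087) (l 16799984)) (a (l 16821064) (l 16800560)))) (a (a (b (l 16800536) (l 16800920)) (b (a (l 16800944) (l 16801280)) (l 16822296))) (b (l 16802064) (l 16802064)))))))) (b (b (l 2) (a (l 2) (l 16816808))) (b (a (a (l 245987629767) (l 16809568)) (l 16814848)) (a (b (l 16806568) (a (l 16804056) (l 16805872))) (l 16808368))))), by decide +kernel⟩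

def k4_pp_023 : ∃ t, chk3 f_pp_023 t 10 15 1 = true :=
  ⟨(a (a (b (l 3) (b (a (l 3) (a (l 3) (a (b (l 3) (l 271287651495)) (b (l 289541212135) (l 217600560887))))) (a (a (l 3) (b (l 3) (l 382956793975))) (a (b (l 285246290119) (l 215453062279)) (b (l 151565431991) (l 16772928)))))) (a (b (b (a (l 3) (b (b (l 3) (a (l 3) (c (l 152639185031) (l 147807327319)))) (a (l 3) (b (c (l 171966533831) (l 163913452663)) (l 158007888695))))) (a (b (l 3) (a (l 290614960999) (l 228337986295))) (b (a (b (l 275582613223) (l 16793744)) (b (l 16795560) (l 16793976))) (a (l 16801952) (l 16791192))))) (b (a (b (a (l 199346946151) (l 16809040)) (c (l 16787184) (l 16801584))) (b (l 16807920) (l 16801304))) (a (b (l 16797264) (l 16769672)) (b (l 16770696) (l 16766576))))) (b (a (b (a (a (b (b (l 139217410375) (l 145122997511)) (b (l 16798712) (l 16797240))) (b (b (l 16800056) (l 16800136)) (l 16819136))) (b (b (l 16821672) (a (l 16800408) (l 16800488))) (b (l 16798976) (l 16797288)))) (b (a (l 16794760)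 (l 16794432)) (a (l 16790592) (l 16789752)))) (a (b (b (a (l 16821736) (b (l 16801360) (l 16800472))) (a (l 16797888) (l 16797784))) (a (b (l 16793856) (l 16788792)) (b (l 16793568) (l 16788288)))) (b (b (l 16801256) (l 16797808)) (l 16811712)))) (a (b (b (a (l 16785016) (l 16783584)) (l 16807368)) (b (l 16788872) (l 16763592))) (a (b (b (l 16802768) (l 16772872)) (b (l 16766424) (l 16761464))) (b (l 16797176) (l 16762880))))))) (b (b (a (b (a (l 16801832) (l 16801480)) (l 16796968)) (l 16796480)) (a (b (l 16791168) (l 16784096)) (l 16784328))) (b (b (l 16773952) (l 16766928)) (b (l 16779952) (l 16769976))))), by decide +kernel⟩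

def k5_pp_023 : ∃ t, chk3 f_pp_023 t 11 7 1 = true :=
  ⟨(b (b (a (b (l 16836296) (l 16833144)) (b (l 16862608) (l 16857096))) (a (b (l 16828056) (l 16817472)) (l 16840024))) (b (b (a (l 16804048) (l 16817464)) (a (l 16789072) (l 16799256))) (b (a (l 16770160) (l 16774864)) (a (l 16743208) (l 16738480))))), by decide +kernel⟩

def k6_pp_023 : ∃ t, chk3 f_pp_023 t 3 7 1 = true :=
  ⟨(b (a (b (a (a (l 16883632) (l 16904672)) (l 16938656)) (a (a (l 16858736) (l 16879704)) (l 16915152))) (b (a (l 16986712) (l 17035968)) (a (l 16964792) (l 17010080)))) (a (b (a (b (l 16844328) (l 16821864)) (b (l 16887808) (l 16859072))) (a (b (l 16789720) (l 16739392)) (b (l 16815352) (l 16748864)))) (b (a (l 16915192) (l 16955288)) (a (b (l 16844072) (l 16764320)) (l 16833760))))), by decide +kernel⟩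

theorem s7_pp_023 : ∃ t, chk3 f_pp_023 t 10 7 1 = true := ex3_b k3_pp_023 k4_pp_023

theorem s8_pp_023 : ∃ t, chk3 f_pp_023 t 5 7 1 = true := ex3_a s7_pp_023 k5_pp_023

theorem s9_pp_023 : ∃ t, chk3 f_pp_023 t 2 7 1 = true := ex3_a k2_pp_023 s8_pp_023

theorem s10_pp_023 : ∃ t, chk3 f_pp_023 t 1 7 1 = true := ex3_a s9_pp_023 k6_pp_023

theorem s11_pp_023 : ∃ t, chk3 f_pp_023 t 1 3 1 = true := ex3_b k1_pp_023 s10_pp_023

theorem s12_pp_023 : ∃ t, chk3 f_pp_023 t 1 1 1 = true := ex3_b k0_pp_023 s11_pp_023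

theorem c_pp_023 : CertN 0 536870912 0 1230186008 402653184 67108864 3 false true true .up 0 2 3
    ndN0q0 ndN4q3 pcN2 Cut.none Ext.none :=
  certN2 (fam := false) (s1 := true) (s2 := true) (a := 0) (b := 2) (c := 3) (cn := .up) (n1 := ndN0q0) (n2 := ndN4q3) (pc := pcN2) (cut := Cut.none) (xt := Ext.none) (P1 := 0) (W1 := 536870912) (P2 := 0) (W2 := 1230186008) (P3 := 402653184) (W3 := 67108864) (N0 := 3)
    rfl (fun _ => rfl) s12_pp_023

noncomputable def f_pp_033 : ℕ → ℕ → ℕ → ℕ → Bool := onCell 1610612736 536870912 0 1230186008 402653184 67108864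
    (rowN 3 2 false true true .pnn 0 3 3 (qsf 0 536870912 0 1230186008 3) ndN0q0 ndN4q3 pcN3 Cut.none Ext.none)

def k0_pp_033 : ∃ t, chk3 f_pp_033 t 1 1 1 = true :=
  ⟨(a (b (a (b (a (l 17233664) (b (l 17067448) (l 17097184))) (b (a (l 17100976) (l 17114208)) (a (l 17106944) (l 17129224)))) (b (a (b (l 17045784) (l 17093584)) (l 17069248)) (a (b (l 17121064) (l 17146968)) (b (l 17121176) (l 17145928))))) (b (a (b (a (l 17114568) (l 17143616)) (a (l 17356696) (l 17137120))) (b (a (l 17161616) (l 17172464)) (a (l 17161640) (l 17181512)))) (b (a (b (l 17091432) (a (l 17047136) (l 17083896))) (b (l 17150544) (l 17137840))) (b (a (a (l 17011040) (l 17053936)) (l 123515050119)) (a (a (l 16945264) (l 16992848)) (l 1)))))) (a (b (b (a (l 17069496) (l 17071304)) (a (b (l 17090728) (l 17142776)) (b (l 17082648) (l 17256040)))) (b (b (a (l 17180568) (b (l 17170016) (l 17196184))) (a (l 17201936) (l 17231832))) (l 1))) (b (b (l 4) (a (b (l 17088808) (l 17124568)) (a (l 17122704) (l 4)))) (a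 (b (b (a (l 17187016) (l 1)) (l 1)) (l 1)) (l 1))))), by decide +kernel⟩

theorem c_pp_033 : CertN 0 536870912 0 1230186008 402653184 67108864 3 false true true .pnn 0 3 3
    ndN0q0 ndN4q3 pcN3 Cut.none Ext.none :=
  certN2 (fam := false) (s1 := true) (s2 := true) (a := 0) (b := 3) (c := 3) (cn := .pnn) (n1 := ndN0q0) (n2 := ndN4q3) (pc := pcN3) (cut := Cut.none) (xt := Ext.none) (P1 := 0) (W1 := 536870912) (P2 := 0) (W2 := 1230186008) (P3 := 402653184) (W3 := 67108864) (N0 := 3)
    rfl (fun _ => rfl) k0_pp_033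

noncomputable def f_pp_101 : ℕ → ℕ → ℕ → ℕ → Bool := onCell 536870912 536870912 536870912 536870912 402653184 67108864
    (rowN 3 0 false true true .npn 1 0 1 (qsf 536870912 536870912 536870912 536870912 0) ndN0q1 ndN4q1 pcN0 Cut.none Ext.none)

def k0_pp_101 : ∃ t, chk3 f_pp_101 t 1 1 1 = true :=
  ⟨(a (l 3) (l 5)), by decide +kernel⟩

theorem c_pp_101 : CertN 536870912 536870912 536870912 536870912 402653184 67108864 3 false true true .npn 1 0 1
    ndN0q1 ndN4q1 pcN0 Cut.none Ext.none :=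
  certN0 (fam := false) (s1 := true) (s2 := true) (a := 1) (b := 0) (c := 1) (cn := .npn) (n1 := ndN0q1) (n2 := ndN4q1) (pc := pcN0) (cut := Cut.none) (xt := Ext.none) (P1 := 536870912) (W1 := 536870912) (P2 := 536870912) (W2 := 536870912) (P3 := 402653184) (W3 := 67108864) (N0 := 3)
    rfl k0_pp_101

noncomputable def f_pp_102 : ℕ → ℕ → ℕ → ℕ → Bool := onCell 536870912 536870912 1073741824 536870912 402653184 67108864
    (rowN 3 0 false true true .npp 1 0 2 (qsf 536870912 536870912 1073741824 536870912 0) ndN0q1 ndN4q2 pcN0 Cut.none Ext.none)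

def k0_pp_102 : ∃ t, chk3 f_pp_102 t 1 1 1 = true :=
  ⟨(a (l 3) (b (l 5) (l 3))), by decide +kernel⟩

theorem c_pp_102 : CertN 536870912 536870912 1073741824 536870912 402653184 67108864 3 false true true .npp 1 0 2
    ndN0q1 ndN4q2 pcN0 Cut.none Ext.none :=
  certN0 (fam := false) (s1 := true) (s2 := true) (a := 1) (b := 0) (c := 2) (cn := .npp) (n1 := ndN0q1) (n2 := ndN4q2) (pc := pcN0) (cut := Cut.none) (xt := Ext.none) (P1 := 536870912) (W1 := 536870912) (P2 := 1073741824) (W2 := 536870912) (P3 := 402653184) (W3 := 67108864) (N0 := 3)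
    rfl k0_pp_102

noncomputable def f_pp_112 : ℕ → ℕ → ℕ → ℕ → Bool := onCell 536870912 536870912 1073741824 536870912 402653184 67108864
    (rowN 3 0 false true true .dn 1 1 2 (qsf 536870912 536870912 1073741824 536870912 1) ndN0q1 ndN4q2 pcN1 Cut.none Ext.none)

def k0_pp_112 : ∃ t, chk3 f_pp_112 t 1 1 1 = true :=
  ⟨(a (l 3) (b (l 5) (l 3))), by decide +kernel⟩

theorem c_pp_112 : CertN 536870912 536870912 1073741824 536870912 402653184 67108864 3 false true true .dn 1 1 2
    ndN0q1 ndN4q2 pcN1 Cut.none Ext.none :=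
  certN0 (fam := false) (s1 := true) (s2 := true) (a := 1) (b := 1) (c := 2) (cn := .dn) (n1 := ndN0q1) (n2 := ndN4q2) (pc := pcN1) (cut := Cut.none) (xt := Ext.none) (P1 := 536870912) (W1 := 536870912) (P2 := 1073741824) (W2 := 536870912) (P3 := 402653184) (W3 := 67108864) (N0 := 3)
    rfl k0_pp_112

noncomputable def cut_pp_113 : Cut := Cut.of [[⟨0, 1, 0, 67108864⟩, ⟨1, 1, 0, 67108864⟩, ⟨2, 2, 0, 16777216⟩]]

noncomputable def f_pp_113 : ℕ → ℕ → ℕ → ℕ → Bool := onCell 536870912 536870912 0 1230186008 402653184 67108864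
    (rowN 3 2 false true true .nn 1 1 3 (qsf 536870912 536870912 0 1230186008 1) ndN0q1 ndN4q3 pcN1 cut_pp_113 Ext.none)

def k0_pp_113 : ∃ t, chk3 f_pp_113 t 1 1 1 = true :=
  ⟨(b (a (l 2) (a (l 2) (b (a (l 2) (b (a (l 2) (l 6)) (l 3))) (l 3)))) (b (a (a (l 2) (b (l 2) (a (l 2) (l 3)))) (a (l 3) (l 3))) (a (a (b (l 2) (l 3)) (l 3)) (l 3)))), by decide +kernel⟩

theorem c_pp_113 : CertN 536870912 536870912 0 1230186008 402653184 67108864 3 false true true .nn 1 1 3
    ndN0q1 ndN4q3 pcN1 cut_pp_113 Ext.none :=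
  certN2 (fam := false) (s1 := true) (s2 := true) (a := 1) (b := 1) (c := 3) (cn := .nn) (n1 := ndN0q1) (n2 := ndN4q3) (pc := pcN1) (cut := cut_pp_113) (xt := Ext.none) (P1 := 536870912) (W1 := 536870912) (P2 := 0) (W2 := 1230186008) (P3 := 402653184) (W3 := 67108864) (N0 := 3)
    rfl (fun _ => rfl) k0_pp_113

noncomputable def cut_pp_123 : Cut := Cut.of [[⟨0, 1, 0, 67108864⟩, ⟨1, 1, 0, 67108864⟩, ⟨2, 2, 0, 16777216⟩]]

noncomputable def f_pp_123 : ℕ → ℕ → ℕ → ℕ → Bool := onCell 1073741824 536870912 0 1230186008 402653184 67108864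
    (rowN 3 2 false true true .npn 1 2 3 (qsf 536870912 536870912 0 1230186008 2) ndN0q1 ndN4q3 pcN2 cut_pp_123 Ext.none)

def k0_pp_123 : ∃ t, chk3 f_pp_123 t 8 8 1 = true :=
  ⟨(a (l 6) (a (l 6) (a (l 6) (b (l 16777008) (l 16845288))))), by decide +kernel⟩

def k1_pp_123 : ∃ t, chk3 f_pp_123 t 16 9 1 = true :=
  ⟨(l 3), by decide +kernel⟩

def k2_pp_123 : ∃ t, chk3 f_pp_123 t 34 18 1 = true :=
  ⟨(l 6), by decide +kernel⟩

def k3_pp_123 : ∃ t, chk3 f_pp_123 t 35 36 1 = true :=
  ⟨(a (b (a (l 6) (l 16779448)) (a (l 6) (b (a (l 6) (l 16778920)) (c (a (b (a (l 3) (b (l 246591523239) (a (l 3) (l 238538459223)))) (l 3)) (b (a (l 249275878391) (l 16779064)) (a (b (a (l 237464717271) (l 246054652519)) (a (l 3) (l 236927846215))) (b (l 16778832) (l 247128394487))))) (a (b (a (l 3) (a (l 6) (c (l 244980909687) (l 212231783623)))) (l 3)) (b (a (l 249275876615) (l 16778328)) (a (b (a (b (l 235317232935) (l 3)) (l 244980909639)) (l 234243493063)) (l 246054651655)))))))) (a (a (b (l 16780240)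 (c (l 16779696) (l 16778704))) (l 16780280)) (l 16780800))), by decide +kernel⟩

def k4_pp_123 : ∃ t, chk3 f_pp_123 t 35 37 1 = true :=
  ⟨(a (b (a (l 3) (b (a (l 3) (b (a (l 3) (b (a (l 3) (c (l 240685943239) (l 239075329479))) (l 3))) (l 3))) (l 3))) (l 3)) (b (a (b (c (a (b (a (b (l 249812749703) (l 244444039783)) (l 16779056)) (a (b (a (l 3) (l 238001588455)) (l 3)) (b (l 244444040263) (l 241222814151)))) (b (l 16779512) (l 249812750071))) (a (c (c (b (l 246054652263) (a (l 238001589591) (l 244444039143))) (b (l 246054651959) (a (l 244444042983) (l 210621172087)))) (b (a (l 246591522247) (l 16778176)) (a (l 256255202839) (l 212231783799)))) (l 249812748103))) (a (l 3) (c (b (a (b (l 244980911079) (a (l 3) (l 238001588903))) (l 248739008007)) (a (l 3) (b (l 242833427303) (a (l 3) (l 235854105031))))) (b (a (b (l 244444038951) (a (l 3) (l 235854104135))) (l 249275877479)) (b (a (l 3) (l 241222813383)) (l 266992623687)))))) (b (l 16779688) (a (a (b (l 16778928) (c (l 244980911671)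 (l 244980910247))) (l 16779064)) (l 16779464)))) (a (l 3) (b (c (a (b (a (b (l 239075330759) (l 3)) (l 242833427959)) (a (l 3) (b (l 239075330583) (l 3)))) (b (l 16779576) (a (l 244980911543) (l 16779432)))) (a (b (a (b (a (l 3) (l 239075329895)) (l 3)) (l 242296555639)) (a (l 3) (b (a (l 3) (l 234243491559)) (l 3)))) (b (l 16778656) (a (l 243370297399) (l 16778576))))) (a (l 3) (a (l 3) (b (c (l 242833427799) (c (l 241222813991) (l 204715591367))) (l 3)))))))), by decide +kernel⟩

def k5_pp_123 : ∃ t, chk3 f_pp_123 t 17 19 1 = true :=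
  ⟨(l 3), by decide +kernel⟩

def k6_pp_123 : ∃ t, chk3 f_pp_123 t 9 8 1 = true :=
  ⟨(a (l 16904184) (l 16775256)), by decide +kernel⟩

def k7_pp_123 : ∃ t, chk3 f_pp_123 t 18 18 1 = true :=
  ⟨(a (b (a (l 16782448) (l 16784888)) (a (b (l 16781392) (a (b (l 16779824) (a (c (b (l 246591525415) (a (l 240149073127) (l 246054654375))) (a (b (l 16778584) (c (l 239075330247) (l 199346882167))) (l 243907168599))) (l 16779592))) (l 16780872))) (l 16783800))) (b (l 16784872) (l 16788520))), by decide +kernel⟩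

def k8_pp_123 : ∃ t, chk3 f_pp_123 t 18 19 1 = true :=
  ⟨(a (b (a (b (a (b (a (b (a (l 3) (b (a (l 235854105111) (l 242296556695)) (l 3))) (l 3)) (c (b (l 244980912887) (a (b (l 236390976983) (l 3)) (l 239612203351))) (b (l 245517781927) (a (b (l 239075330087) (l 3)) (l 242833427095))))) (a (l 3) (b (a (l 3) (b (c (l 238538460503) (l 236390975415)) (l 3))) (l 3)))) (c (b (l 16780640) (a (b (l 242296558343) (a (b (l 235854105815) (l 3)) (l 240685945111))) (l 16780328))) (b (l 16779344) (a (a (b (l 241222814327) (c (l 191830689527) (l 200420623575))) (l 240149072791)) (l 16779152))))) (a (l 3) (b (a (l 3) (b (a (c (l 239612203239) (l 236927846935)) (l 245517785815)) (a (l 3) (c (l 238001590455) (l 235317234151))))) (l 3)))) (b (l 16776776) (a (b (a (c (l 241759687735) (l 241222814487)) (l 16780544)) (a (b (a (b (l 236927848055) (l 3)) (l 241222816135)) (a (l 3) (b (l 234243493447) (l 3)))) (c (l 242296560039) (l 241759686663)))) (l 16781472)))) (a (l 3) (b (a (b (a (l 3) (b (a (a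 (l 3) (l 231022267911)) (l 240149074343)) (a (l 3) (a (l 3) (l 233706622423))))) (l 3)) (b (a (c (l 240685947463) (l 239075332183)) (l 16780792)) (a (b (a (l 3) (l 236927848903)) (l 3)) (c (l 238538463975) (l 238538461367))))) (a (l 3) (b (a (l 3) (b (a (l 3) (l 233706623463)) (l 3))) (l 3)))))) (b (a (l 16785536) (l 16789864)) (a (b (a (b (l 16782184) (l 16781376)) (l 16783872)) (a (b (a (c (l 239612205975) (l 236390977815)) (l 16781056)) (a (b (a (l 3) (l 231022268951)) (l 3)) (c (l 238001593431) (l 234780365191)))) (b (l 16782536) (l 16781680)))) (l 16786552)))), by decide +kernel⟩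

def k9_pp_123 : ∃ t, chk3 f_pp_123 t 19 9 1 = true :=
  ⟨(b (l 16785160) (a (b (l 16794240) (l 16793624)) (l 16797024))), by decide +kernel⟩

def k10_pp_123 : ∃ t, chk3 f_pp_123 t 5 4 1 = true :=
  ⟨(a (a (b (a (l 16776696) (l 16795296)) (b (l 16971680) (l 16991928))) (l 17007288)) (b (l 16820584) (l 16829152))), by decide +kernel⟩

def k11_pp_123 : ∃ t, chk3 f_pp_123 t 3 4 1 = true :=
  ⟨(a (a (b (l 16869872) (l 16861368)) (b (l 16928272) (l 16892312))) (a (b (l 16986448) (l 16937000)) (b (l 17030448) (l 16995608)))), by decide +kernel⟩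

def k12_pp_123 : ∃ t, chk3 f_pp_123 t 8 5 1 = true :=
  ⟨(l 3), by decide +kernel⟩

def k13_pp_123 : ∃ t, chk3 f_pp_123 t 9 10 1 = true :=
  ⟨(a (a (l 3) (b (a (b (b (a (b (a (l 3) (b (a (l 3) (l 234243494503)) (l 3))) (l 3)) (b (a (c (l 236390980935) (l 233169752583)) (l 16781344)) (a (b (a (l 3) (l 232632881895)) (l 3)) (c (l 234780368471) (l 231559140007))))) (a (l 3) (a (l 3) (b (b (a (l 3) (l 231022269319)) (l 3)) (l 3))))) (l 3)) (b (b (a (c (l 16783640) (l 16781416)) (l 16784784)) (a (b (a (c (l 233706626951) (l 229948527463)) (l 16781672)) (a (l 3) (b (l 233706626311) (l 234780366855)))) (c (l 16784128) (l 16781744)))) (a (l 3) (b (a (b (a (l 227264174327) (l 229948530375)) (l 3)) (c (l 232096016727) (l 228874787351))) (l 3))))) (l 3))) (a (b (b (a (l 16782440) (l 16793616)) (a (a (b (b (l 16783832) (l 231022274183)) (b (c (l 231559146615) (l 227801046039)) (a (l 3) (l 226727305431)))) (b (l 16785888) (b (l 16784384) (l 16783424)))) (l 16789032))) (a (b (a (l 3) (b (a (b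 (l 225653564151) (l 3)) (b (l 16783096) (l 226190435671))) (a (l 3) (a (l 3) (b (l 225653562951) (l 3)))))) (l 3)) (b (a (b (l 16784552) (a (b (l 226727307255) (c (l 227264177591) (l 224579819031))) (l 225653567191))) (b (l 16787280) (l 16785280))) (a (b (a (l 3) (b (l 226190434439) (l 3))) (l 3)) (b (a (b (l 222969213367) (l 225653564407)) (l 223506084567)) (a (l 3) (b (l 225653565335) (l 3)))))))) (b (b (l 16842984) (l 16798632)) (a (b (l 16790704) (a (b (l 16786120) (a (l 219211116503) (l 16784904))) (l 16788088))) (b (l 16797328) (l 16792752)))))), by decide +kernel⟩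

def k14_pp_123 : ∃ t, chk3 f_pp_123 t 9 11 1 = true :=
  ⟨(a (l 3) (a (l 3) (b (a (b (a (b (a (l 3) (b (l 225653567383) (l 3))) (l 3)) (b (a (l 218137376727) (l 16785904)) (a (b (l 221358598695) (l 3)) (l 220821730215)))) (l 3)) (b (a (b (l 16788128) (l 218137379591)) (l 16790312)) (a (b (a (l 221895470999) (l 214379281847)) (l 3)) (b (l 16787488) (a (l 222969215767) (l 216526773431)))))) (a (l 3) (b (a (l 3) (b (a (l 3) (l 220284860679)) (l 3))) (l 3)))))), by decide +kernel⟩

def k15_pp_123 : ∃ t, chk3 f_pp_123 t 5 5 1 = true :=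
  ⟨(a (a (a (b (b (l 16805824) (a (l 16802488) (l 16808928))) (b (a (b (l 16795288) (a (b (l 16790632) (l 16788848)) (l 16793128))) (b (l 16802968) (l 16798632))) (a (b (a (b (l 214379287975) (a (l 3) (l 216526767719))) (b (l 16790416) (l 16788768))) (a (l 3) (b (l 217063640327) (l 219747991351)))) (b (a (l 16793080) (l 16796792)) (a (b (l 16790560) (l 208473715831)) (l 16793344)))))) (a (b (b (l 16801976) (l 16813360)) (b (l 16893288) (b (l 16802984) (a (l 16797144) (l 16801368))))) (b (l 16884112) (a (b (l 16815360) (l 16807976)) (a (b (l 16816232) (l 16811664)) (b (l 16814472) (l 16813904))))))) (b (l 16807872) (b (l 16830408) (a (l 16823592) (l 16836752))))) (b (l 16863792) (b (l 16871936) (a (l 16856208) (l 16881368))))), by decide +kernel⟩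

def k16_pp_123 : ∃ t, chk3 f_pp_123 t 3 5 1 = true :=
  ⟨(a (a (b (l 16894520) (b (l 16909384) (l 16915264))) (b (l 16918032) (l 16951648))) (a (b (l 16944032) (l 16985008)) (b (l 16977968) (l 17017664)))), by decide +kernel⟩

def k17_pp_123 : ∃ t, chk3 f_pp_123 t 1 6 1 = true :=
  ⟨(a (a (l 3) (a (a (a (b (b (a (l 3) (b (a (b (l 219747995623) (l 3)) (b (l 16791056) (l 219211136679))) (a (l 3) (b (l 219211126407) (l 3))))) (l 3)) (l 3)) (a (b (b (a (b (l 16794064) (b (l 16792024) (l 220284884071))) (b (l 16798128) (l 16816352))) (a (b (a (l 3) (l 226190473271)) (l 3)) (b (a (l 193441357031) (l 16794040)) (a (l 213305549975) (l 186998906887))))) (l 3)) (b (a (b (b (l 16802440) (l 16820480)) (b (a (l 16796088) (l 16798200)) (a (l 16815144) (l 16796232)))) (a (b (b (l 16805936) (l 16802856)) (b (l 16800256) (a (l 16797712) (l 16798784)))) (b (l 16806824) (b (l 16802560) (l 16800512))))) (a (b (a (b (l 213305586247) (l 3)) (b (l 197199474455) (l 236927929095))) (l 3)) (a (a (b (b (l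 16796456) (l 16795856)) (b (l 258939640503) (l 3))) (b (b (l 16797536) (l 16823136)) (b (b (l 16796712) (l 16796720)) (l 366850696567)))) (b (b (l 16799384) (l 16798608)) (b (l 16798336) (l 16798536)))))))) (b (a (b (l 16817432) (b (l 16812696) (l 16810608))) (b (l 16831000) (l 16827032))) (b (a (b (l 16809336) (l 16808064)) (l 16844280)) (b (a (a (l 16803352) (l 16810744)) (l 16820600)) (a (a (l 16803296) (l 16810136)) (l 16819312)))))) (b (a (b (l 16852152) (l 16847728)) (b (l 16880088) (l 16876864))) (b (a (l 16844160) (l 16872008)) (a (b (l 16839992) (l 16838040)) (l 16867304)))))) (a (b (a (b (l 16920248) (l 16918784)) (b (l 16968376) (l 16973744))) (a (b (a (l 16901464) (l 16929432)) (a (l 16895504) (l 16924928))) (b (l 16972568) (l 1)))) (a (b (b (l 17010304) (l 1)) (l 1)) (l 1)))), by decide +kernel⟩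

def k18_pp_123 : ∃ t, chk3 f_pp_123 t 1 7 1 = true :=
  ⟨(a (a (b (l 3) (l 3)) (b (a (a (a (l 3) (a (l 3) (a (b (l 3) (a (b (l 3) (b (l 3) (l 1))) (b (b (l 3) (a (l 3) (l 16799216))) (b (a (l 152639190743) (l 16820960)) (l 1))))) (a (a (b (l 3) (b (b (l 16799192) (l 16799952)) (b (l 16800536) (l 1)))) (b (b (l 3) (b (l 177335248375) (a (l 16799080) (l 16799520)))) (b (b (a (l 16799808) (l 16800216)) (a (l 16800512) (l 16800872))) (b (a (l 16800944) (l 16801280)) (l 1))))) (b (b (l 16799240) (b (l 16799984) (l 16800592))) (b (b (l 16801224) (l 16801784)) (b (l 16802064) (l 1)))))))) (b (b (a (a (l 16803664) (l 16809768)) (l 16817880)) (a (b (l 16806992) (l 16807256)) (l 16816808))) (a (b (b (l 16807448) (l 16807264)) (b (l 16806584) (l 1))) (b (l 16814864) (l 1))))) (b (a (b (l 16836304) (l 16833376)) (b (l 16862848) (l 1))) (l 1))) (a (a (a (b (l 3) (l 1)) (l 1)) (l 1)) (l 1)))) (l 1)), by decide +kernel⟩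

theorem s19_pp_123 : ∃ t, chk3 f_pp_123 t 1 3 1 = true := ex3_b k17_pp_123 k18_pp_123

theorem s20_pp_123 : ∃ t, chk3 f_pp_123 t 9 5 1 = true := ex3_b k13_pp_123 k14_pp_123

theorem s21_pp_123 : ∃ t, chk3 f_pp_123 t 4 5 1 = true := ex3_a k12_pp_123 s20_pp_123

theorem s22_pp_123 : ∃ t, chk3 f_pp_123 t 2 5 1 = true := ex3_a s21_pp_123 k15_pp_123

theorem s23_pp_123 : ∃ t, chk3 f_pp_123 t 1 5 1 = true := ex3_a s22_pp_123 k16_pp_123

theorem s24_pp_123 : ∃ t, chk3 f_pp_123 t 18 9 1 = true := ex3_b k7_pp_123 k8_pp_123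

theorem s25_pp_123 : ∃ t, chk3 f_pp_123 t 9 9 1 = true := ex3_a s24_pp_123 k9_pp_123

theorem s26_pp_123 : ∃ t, chk3 f_pp_123 t 9 4 1 = true := ex3_b k6_pp_123 s25_pp_123

theorem s27_pp_123 : ∃ t, chk3 f_pp_123 t 35 18 1 = true := ex3_b k3_pp_123 k4_pp_123

theorem s28_pp_123 : ∃ t, chk3 f_pp_123 t 17 18 1 = true := ex3_a k2_pp_123 s27_pp_123

theorem s29_pp_123 : ∃ t, chk3 f_pp_123 t 17 9 1 = true := ex3_b s28_pp_123 k5_pp_123

theorem s30_pp_123 : ∃ t, chk3 f_pp_123 t 8 9 1 = true := ex3_a k1_pp_123 s29_pp_123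

theorem s31_pp_123 : ∃ t, chk3 f_pp_123 t 8 4 1 = true := ex3_b k0_pp_123 s30_pp_123

theorem s32_pp_123 : ∃ t, chk3 f_pp_123 t 4 4 1 = true := ex3_a s31_pp_123 s26_pp_123

theorem s33_pp_123 : ∃ t, chk3 f_pp_123 t 2 4 1 = true := ex3_a s32_pp_123 k10_pp_123

theorem s34_pp_123 : ∃ t, chk3 f_pp_123 t 1 4 1 = true := ex3_a s33_pp_123 k11_pp_123

theorem s35_pp_123 : ∃ t, chk3 f_pp_123 t 1 2 1 = true := ex3_b s34_pp_123 s23_pp_123

theorem s36_pp_123 : ∃ t, chk3 f_pp_123 t 1 1 1 = true := ex3_b s35_pp_123 s19_pp_123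

theorem c_pp_123 : CertN 536870912 536870912 0 1230186008 402653184 67108864 3 false true true .npn 1 2 3
    ndN0q1 ndN4q3 pcN2 cut_pp_123 Ext.none :=
  certN2 (fam := false) (s1 := true) (s2 := true) (a := 1) (b := 2) (c := 3) (cn := .npn) (n1 := ndN0q1) (n2 := ndN4q3) (pc := pcN2) (cut := cut_pp_123) (xt := Ext.none) (P1 := 536870912) (W1 := 536870912) (P2 := 0) (W2 := 1230186008) (P3 := 402653184) (W3 := 67108864) (N0 := 3)
    rfl (fun _ => rfl) s36_pp_123

noncomputable def f_pp_133 : ℕ → ℕ → ℕ → ℕ → Bool := onCell 1610612736 536870912 0 1230186008 402653184 67108864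
    (rowN 3 2 false true true .dn 1 3 3 (qsf 536870912 536870912 0 1230186008 3) ndN0q1 ndN4q3 pcN3 Cut.none Ext.none)

def k0_pp_133 : ∃ t, chk3 f_pp_133 t 1 1 1 = true :=
  ⟨(b (b (a (a (a (l 17090336) (l 1)) (l 1)) (l 1)) (l 1)) (l 1)), by decide +kernel⟩

theorem c_pp_133 : CertN 536870912 536870912 0 1230186008 402653184 67108864 3 false true true .dn 1 3 3
    ndN0q1 ndN4q3 pcN3 Cut.none Ext.none :=
  certN2 (fam := false) (s1 := true) (s2 := true) (a := 1) (b := 3) (c := 3) (cn := .dn) (n1 := ndN0q1) (n2 := ndN4q3) (pc := pcN3) (cut := Cut.none) (xt := Ext.none) (P1 := 536870912) (W1 := 536870912) (P2 := 0) (W2 := 1230186008) (P3 := 402653184) (W3 := 67108864) (N0 := 3)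
    rfl (fun _ => rfl) k0_pp_133

noncomputable def f_pp_202 : ℕ → ℕ → ℕ → ℕ → Bool := onCell 0 536870912 1073741824 536870912 402653184 67108864
    (rowN 3 0 false true true .pp 2 0 2 (qsf 0 536870912 1073741824 536870912 0) ndN0q2 ndN4q2 pcN0 Cut.none Ext.none)

def k0_pp_202 : ∃ t, chk3 f_pp_202 t 1 1 1 = true :=
  ⟨(l 5), by decide +kernel⟩

theorem c_pp_202 : CertN 0 536870912 1073741824 536870912 402653184 67108864 3 false true true .pp 2 0 2
    ndN0q2 ndN4q2 pcN0 Cut.none Ext.none :=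
  certN0 (fam := false) (s1 := true) (s2 := true) (a := 2) (b := 0) (c := 2) (cn := .pp) (n1 := ndN0q2) (n2 := ndN4q2) (pc := pcN0) (cut := Cut.none) (xt := Ext.none) (P1 := 0) (W1 := 536870912) (P2 := 1073741824) (W2 := 536870912) (P3 := 402653184) (W3 := 67108864) (N0 := 3)
    rfl k0_pp_202

noncomputable def f_pp_203 : ℕ → ℕ → ℕ → ℕ → Bool := onCell 0 536870912 0 1230186008 402653184 67108864
    (rowN 3 0 false true true .up 2 0 3 (qsf 0 536870912 0 1230186008 0) ndN0q2 ndN4q3 pcN0 Cut.none Ext.none)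

def k0_pp_203 : ∃ t, chk3 f_pp_203 t 1 1 1 = true :=
  ⟨(b (l 2) (b (l 2) (a (l 5) (l 3)))), by decide +kernel⟩

theorem c_pp_203 : CertN 0 536870912 0 1230186008 402653184 67108864 3 false true true .up 2 0 3
    ndN0q2 ndN4q3 pcN0 Cut.none Ext.none :=
  certN0 (fam := false) (s1 := true) (s2 := true) (a := 2) (b := 0) (c := 3) (cn := .up) (n1 := ndN0q2) (n2 := ndN4q3) (pc := pcN0) (cut := Cut.none) (xt := Ext.none) (P1 := 0) (W1 := 536870912) (P2 := 0) (W2 := 1230186008) (P3 := 402653184) (W3 := 67108864) (N0 := 3)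
    rfl k0_pp_203

noncomputable def cut_pp_213 : Cut := Cut.of [[⟨0, 1, 0, 67108864⟩, ⟨1, 1, 0, 67108864⟩, ⟨2, 2, 0, 16777216⟩]]

noncomputable def f_pp_213 : ℕ → ℕ → ℕ → ℕ → Bool := onCell 0 536870912 0 1230186008 402653184 67108864
    (rowN 3 0 false true true .pnn 2 1 3 (qsf 0 536870912 0 1230186008 1) ndN0q2 ndN4q3 pcN1 cut_pp_213 Ext.none)

def k0_pp_213 : ∃ t, chk3 f_pp_213 t 1 1 1 = true :=
  ⟨(a (b (l 3) (l 5)) (b (b (a (l 3) (b (a (l 3) (l 6)) (l 3))) (l 3)) (b (l 3) (l 3)))), by decide +kernel⟩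

theorem c_pp_213 : CertN 0 536870912 0 1230186008 402653184 67108864 3 false true true .pnn 2 1 3
    ndN0q2 ndN4q3 pcN1 cut_pp_213 Ext.none :=
  certN0 (fam := false) (s1 := true) (s2 := true) (a := 2) (b := 1) (c := 3) (cn := .pnn) (n1 := ndN0q2) (n2 := ndN4q3) (pc := pcN1) (cut := cut_pp_213) (xt := Ext.none) (P1 := 0) (W1 := 536870912) (P2 := 0) (W2 := 1230186008) (P3 := 402653184) (W3 := 67108864) (N0 := 3)
    rfl k0_pp_213

noncomputable def f_pm_001 : ℕ → ℕ → ℕ → ℕ → Bool := onCell 0 536870912 536870912 536870912 402653184 67108864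
    (rowN 3 0 false true false .up 0 0 1 (qsf 0 536870912 536870912 536870912 0) ndN0q0 ndN4q1 pcN0 Cut.none Ext.none)

def k0_pm_001 : ∃ t, chk3 f_pm_001 t 1 1 1 = true :=
  ⟨(l 4), by decide +kernel⟩

theorem c_pm_001 : CertN 0 536870912 536870912 536870912 402653184 67108864 3 false true false .up 0 0 1
    ndN0q0 ndN4q1 pcN0 Cut.none Ext.none :=
  certN0 (fam := false) (s1 := true) (s2 := false) (a := 0) (b := 0) (c := 1) (cn := .up) (n1 := ndN0q0) (n2 := ndN4q1) (pc := pcN0) (cut := Cut.none) (xt := Ext.none) (P1 := 0) (W1 := 536870912) (P2 := 536870912) (W2 := 536870912) (P3 := 402653184) (W3 := 67108864) (N0 := 3)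
    rfl k0_pm_001

noncomputable def f_pm_011 : ℕ → ℕ → ℕ → ℕ → Bool := onCell 0 536870912 536870912 536870912 402653184 67108864
    (rowN 3 0 false true false .pnn 0 1 1 (qsf 0 536870912 536870912 536870912 1) ndN0q0 ndN4q1 pcN1 Cut.none Ext.none)

def k0_pm_011 : ∃ t, chk3 f_pm_011 t 1 1 1 = true :=
  ⟨(l 4), by decide +kernel⟩

theorem c_pm_011 : CertN 0 536870912 536870912 536870912 402653184 67108864 3 false true false .pnn 0 1 1
    ndN0q0 ndN4q1 pcN1 Cut.none Ext.none :=
  certN0 (fam := false) (s1 := true) (s2 := false) (a := 0) (b := 1) (c := 1) (cn := .pnn) (n1 := ndN0q0) (n2 := ndN4q1) (pc := pcN1) (cut := Cut.none) (xt := Ext.none) (P1 := 0) (W1 := 536870912) (P2 := 536870912) (W2 := 536870912) (P3 := 402653184) (W3 := 67108864) (N0 := 3)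
    rfl k0_pm_011

noncomputable def f_pm_012 : ℕ → ℕ → ℕ → ℕ → Bool := onCell 0 536870912 1073741824 536870912 402653184 67108864
    (rowN 3 0 false true false .pnp 0 1 2 (qsf 0 536870912 1073741824 536870912 1) ndN0q0 ndN4q2 pcN1 Cut.none Ext.none)

def k0_pm_012 : ∃ t, chk3 f_pm_012 t 1 1 1 = true :=
  ⟨(l 4), by decide +kernel⟩

theorem c_pm_012 : CertN 0 536870912 1073741824 536870912 402653184 67108864 3 false true false .pnp 0 1 2
    ndN0q0 ndN4q2 pcN1 Cut.none Ext.none :=
  certN0 (fam := false) (s1 := true) (s2 := false) (a := 0) (b := 1) (c := 2) (cn := .pnp) (n1 := ndN0q0) (n2 := ndN4q2) (pc := pcN1) (cut := Cut.none) (xt := Ext.none) (P1 := 0) (W1 := 536870912) (P2 := 1073741824) (W2 := 536870912) (P3 := 402653184) (W3 := 67108864) (N0 := 3)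
    rfl k0_pm_012

noncomputable def f_pm_022 : ℕ → ℕ → ℕ → ℕ → Bool := onCell 0 536870912 1073741824 536870912 402653184 67108864
    (rowN 3 0 false true false .pp 0 2 2 (qsf 0 536870912 1073741824 536870912 2) ndN0q0 ndN4q2 pcN2 Cut.none Ext.none)

def k0_pm_022 : ∃ t, chk3 f_pm_022 t 1 1 1 = true :=
  ⟨(l 4), by decide +kernel⟩

theorem c_pm_022 : CertN 0 536870912 1073741824 536870912 402653184 67108864 3 false true false .pp 0 2 2
    ndN0q0 ndN4q2 pcN2 Cut.none Ext.none :=
  certN0 (fam := false) (s1 := true) (s2 := false) (a := 0) (b := 2) (c := 2) (cn := .pp) (n1 := ndN0q0) (n2 := ndN4q2) (pc := pcN2) (cut := Cut.none) (xt := Ext.none) (P1 := 0) (W1 := 536870912) (P2 := 1073741824) (W2 := 536870912) (P3 := 402653184) (W3 := 67108864) (N0 := 3)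
    rfl k0_pm_022

noncomputable def f_pm_023 : ℕ → ℕ → ℕ → ℕ → Bool := onCell 0 536870912 0 1230186008 402653184 67108864
    (rowN 3 0 false true false .up 0 2 3 (qsf 0 536870912 0 1230186008 2) ndN0q0 ndN4q3 pcN2 Cut.none Ext.none)

def k0_pm_023 : ∃ t, chk3 f_pm_023 t 1 1 1 = true :=
  ⟨(a (b (l 2) (l 4)) (b (a (l 2) (b (a (l 2) (l 17067800)) (b (l 4) (l 4)))) (l 4))), by decide +kernel⟩

theorem c_pm_023 : CertN 0 536870912 0 1230186008 402653184 67108864 3 false true false .up 0 2 3
    ndN0q0 ndN4q3 pcN2 Cut.none Ext.none :=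
  certN0 (fam := false) (s1 := true) (s2 := false) (a := 0) (b := 2) (c := 3) (cn := .up) (n1 := ndN0q0) (n2 := ndN4q3) (pc := pcN2) (cut := Cut.none) (xt := Ext.none) (P1 := 0) (W1 := 536870912) (P2 := 0) (W2 := 1230186008) (P3 := 402653184) (W3 := 67108864) (N0 := 3)
    rfl k0_pm_023

noncomputable def f_pm_033 : ℕ → ℕ → ℕ → ℕ → Bool := onCell 1610612736 536870912 0 1230186008 402653184 67108864
    (rowN 3 2 false true false .pnn 0 3 3 (qsf 0 536870912 0 1230186008 3) ndN0q0 ndN4q3 pcN3 Cut.none Ext.none)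

def k0_pm_033 : ∃ t, chk3 f_pm_033 t 1 1 1 = true :=
  ⟨(b (b (a (a (a (l 17080352) (l 17083728)) (a (l 17087592) (l 4))) (l 4)) (l 4)) (l 4)), by decide +kernel⟩

theorem c_pm_033 : CertN 0 536870912 0 1230186008 402653184 67108864 3 false true false .pnn 0 3 3
    ndN0q0 ndN4q3 pcN3 Cut.none Ext.none :=
  certN2 (fam := false) (s1 := true) (s2 := false) (a := 0) (b := 3) (c := 3) (cn := .pnn) (n1 := ndN0q0) (n2 := ndN4q3) (pc := pcN3) (cut := Cut.none) (xt := Ext.none) (P1 := 0) (W1 := 536870912) (P2 := 0) (W2 := 1230186008) (P3 := 402653184) (W3 := 67108864) (N0 := 3)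
    rfl (fun _ => rfl) k0_pm_033

noncomputable def f_pm_101 : ℕ → ℕ → ℕ → ℕ → Bool := onCell 536870912 536870912 536870912 536870912 402653184 67108864
    (rowN 3 0 false true false .npn 1 0 1 (qsf 536870912 536870912 536870912 536870912 0) ndN0q1 ndN4q1 pcN0 Cut.none Ext.none)

def k0_pm_101 : ∃ t, chk3 f_pm_101 t 1 1 1 = true :=
  ⟨(l 4), by decide +kernel⟩

theorem c_pm_101 : CertN 536870912 536870912 536870912 536870912 402653184 67108864 3 false true false .npn 1 0 1
    ndN0q1 ndN4q1 pcN0 Cut.none Ext.none :=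
  certN0 (fam := false) (s1 := true) (s2 := false) (a := 1) (b := 0) (c := 1) (cn := .npn) (n1 := ndN0q1) (n2 := ndN4q1) (pc := pcN0) (cut := Cut.none) (xt := Ext.none) (P1 := 536870912) (W1 := 536870912) (P2 := 536870912) (W2 := 536870912) (P3 := 402653184) (W3 := 67108864) (N0 := 3)
    rfl k0_pm_101

noncomputable def f_pm_102 : ℕ → ℕ → ℕ → ℕ → Bool := onCell 536870912 536870912 0 536870912 402653184 67108864
    (rowN 3 1 false true false .npp 1 0 2 (qsf 536870912 536870912 1073741824 536870912 0) ndN0q1 ndN4q2 pcN0 Cut.none Ext.none)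

def k0_pm_102 : ∃ t, chk3 f_pm_102 t 1 1 1 = true :=
  ⟨(a (l 4) (b (l 4) (b (l 4) (a (l 4) (b (l 4) (a (l 4) (l 17352264))))))), by decide +kernel⟩

theorem c_pm_102 : CertN 536870912 536870912 1073741824 536870912 402653184 67108864 3 false true false .npp 1 0 2
    ndN0q1 ndN4q2 pcN0 Cut.none Ext.none :=
  certN1 (fam := false) (s1 := true) (s2 := false) (a := 1) (b := 0) (c := 2) (cn := .npp) (n1 := ndN0q1) (n2 := ndN4q2) (pc := pcN0) (cut := Cut.none) (xt := Ext.none) (P1 := 536870912) (W1 := 536870912) (P2 := 1073741824) (W2 := 536870912) (P3 := 402653184) (W3 := 67108864) (N0 := 3)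
    rfl (fun _ => rfl) k0_pm_102

noncomputable def f_pm_112 : ℕ → ℕ → ℕ → ℕ → Bool := onCell 536870912 536870912 1073741824 536870912 402653184 67108864
    (rowN 3 0 false true false .dn 1 1 2 (qsf 536870912 536870912 1073741824 536870912 1) ndN0q1 ndN4q2 pcN1 Cut.none Ext.none)

def k0_pm_112 : ∃ t, chk3 f_pm_112 t 1 1 1 = true :=
  ⟨(a (l 4) (b (l 4) (a (l 4) (b (l 4) (b (l 4) (l 17385544)))))), by decide +kernel⟩

theorem c_pm_112 : CertN 536870912 536870912 1073741824 536870912 402653184 67108864 3 false true false .dn 1 1 2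
    ndN0q1 ndN4q2 pcN1 Cut.none Ext.none :=
  certN0 (fam := false) (s1 := true) (s2 := false) (a := 1) (b := 1) (c := 2) (cn := .dn) (n1 := ndN0q1) (n2 := ndN4q2) (pc := pcN1) (cut := Cut.none) (xt := Ext.none) (P1 := 536870912) (W1 := 536870912) (P2 := 1073741824) (W2 := 536870912) (P3 := 402653184) (W3 := 67108864) (N0 := 3)
    rfl k0_pm_112

noncomputable def cut_pm_113 : Cut := Cut.of [[⟨0, 1, 0, 67108864⟩, ⟨1, 1, 0, 67108864⟩, ⟨2, 2, 0, 16777216⟩]]

noncomputable def f_pm_113 : ℕ → ℕ → ℕ → ℕ → Bool := onCell 536870912 536870912 0 1230186008 402653184 67108864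
    (rowN 3 0 false true false .nn 1 1 3 (qsf 536870912 536870912 0 1230186008 1) ndN0q1 ndN4q3 pcN1 cut_pm_113 Ext.none)

def k0_pm_113 : ∃ t, chk3 f_pm_113 t 1 1 1 = true :=
  ⟨(b (a (l 2) (a (l 2) (b (a (l 2) (a (l 2) (b (l 6) (l 16821712)))) (a (b (l 17007472) (l 17053216)) (b (a (l 16896224) (l 16844888)) (l 16968168)))))) (b (b (a (l 2) (a (a (l 2) (l 17272920)) (a (l 17120184) (l 16978696)))) (a (l 4) (a (a (l 17450104) (b (l 17326024) (l 17362080))) (a (l 17223152) (l 17082768))))) (a (l 4) (a (b (b (l 17408360) (l 17409472)) (l 4)) (b (a (b (l 17297120) (l 17324160)) (b (l 17183088) (a (l 17268192) (l 17226096)))) (b (a (l 17355096) (a (l 17318264) (b (l 17262416) (l 17286992)))) (l 17359592))))))), by decide +kernel⟩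

theorem c_pm_113 : CertN 536870912 536870912 0 1230186008 402653184 67108864 3 false true false .nn 1 1 3
    ndN0q1 ndN4q3 pcN1 cut_pm_113 Ext.none :=
  certN0 (fam := false) (s1 := true) (s2 := false) (a := 1) (b := 1) (c := 3) (cn := .nn) (n1 := ndN0q1) (n2 := ndN4q3) (pc := pcN1) (cut := cut_pm_113) (xt := Ext.none) (P1 := 536870912) (W1 := 536870912) (P2 := 0) (W2 := 1230186008) (P3 := 402653184) (W3 := 67108864) (N0 := 3)
    rfl k0_pm_113

noncomputable def cut_pm_123 : Cut := Cut.of [[⟨0, 1, 0, 67108864⟩, ⟨1, 1, 0, 67108864⟩, ⟨2, 2, 0, 16777216⟩]]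

noncomputable def f_pm_123 : ℕ → ℕ → ℕ → ℕ → Bool := onCell 1073741824 536870912 0 1230186008 402653184 67108864
    (rowN 3 2 false true false .npn 1 2 3 (qsf 536870912 536870912 0 1230186008 2) ndN0q1 ndN4q3 pcN2 cut_pm_123 Ext.none)

def k0_pm_123 : ∃ t, chk3 f_pm_123 t 1 1 1 = true :=
  ⟨(b (b (a (a (a (b (a (l 6) (b (l 16780872) (l 16794920))) (l 16839128)) (b (b (l 16891408) (l 16813040)) (l 16874280))) (b (l 16997256) (a (l 16914984) (l 16954576)))) (a (a (l 16951496) (l 16988664)) (a (l 17018288) (l 17057672)))) (a (a (b (a (l 16942448) (l 16974368)) (a (l 17082176) (l 17109752))) (a (l 17165752) (l 17098920))) (b (a (l 17086040) (a (l 17110984) (l 17114072))) (a (a (l 17163568) (l 17165680)) (l 4))))) (b (a (a (b (a (l 17264240) (l 17265672)) (a (b (l 17394392) (l 4)) (l 17363144))) (b (a (l 17257496) (l 17242392)) (l 4))) (l 4)) (l 4))), by decide +kernel⟩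

theorem c_pm_123 : CertN 536870912 536870912 0 1230186008 402653184 67108864 3 false true false .npn 1 2 3
    ndN0q1 ndN4q3 pcN2 cut_pm_123 Ext.none :=
  certN2 (fam := false) (s1 := true) (s2 := false) (a := 1) (b := 2) (c := 3) (cn := .npn) (n1 := ndN0q1) (n2 := ndN4q3) (pc := pcN2) (cut := cut_pm_123) (xt := Ext.none) (P1 := 536870912) (W1 := 536870912) (P2 := 0) (W2 := 1230186008) (P3 := 402653184) (W3 := 67108864) (N0 := 3)
    rfl (fun _ => rfl) k0_pm_123

noncomputable def f_pm_133 : ℕ → ℕ → ℕ → ℕ → Bool := onCell 536870912 536870912 0 1230186008 402653184 67108864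
    (rowN 3 0 false true false .dn 1 3 3 (qsf 536870912 536870912 0 1230186008 3) ndN0q1 ndN4q3 pcN3 Cut.none Ext.none)

def k0_pm_133 : ∃ t, chk3 f_pm_133 t 1 1 1 = true :=
  ⟨(b (b (a (a (a (l 17062864) (l 1)) (l 1)) (l 1)) (l 1)) (l 1)), by decide +kernel⟩

theorem c_pm_133 : CertN 536870912 536870912 0 1230186008 402653184 67108864 3 false true false .dn 1 3 3
    ndN0q1 ndN4q3 pcN3 Cut.none Ext.none :=
  certN0 (fam := false) (s1 := true) (s2 := false) (a := 1) (b := 3) (c := 3) (cn := .dn) (n1 := ndN0q1) (n2 := ndN4q3) (pc := pcN3) (cut := Cut.none) (xt := Ext.none) (P1 := 536870912) (W1 := 536870912) (P2 := 0) (W2 := 1230186008) (P3 := 402653184) (W3 := 67108864) (N0 := 3)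
    rfl k0_pm_133

noncomputable def f_pm_202 : ℕ → ℕ → ℕ → ℕ → Bool := onCell 0 536870912 1073741824 536870912 402653184 67108864
    (rowN 3 0 false true false .pp 2 0 2 (qsf 0 536870912 1073741824 536870912 0) ndN0q2 ndN4q2 pcN0 Cut.none Ext.none)

def k0_pm_202 : ∃ t, chk3 f_pm_202 t 1 1 1 = true :=
  ⟨(a (b (a (b (l 1) (b (b (l 16905840) (l 16890048)) (a (l 17001528) (l 16959896)))) (b (b (l 1) (b (l 1) (a (l 1) (l 17284408)))) (b (b (l 17225128) (l 17214936)) (l 17200944)))) (b (b (a (a (l 16892488) (l 17002768)) (a (l 17126904) (l 17274912))) (a (a (l 16898480) (l 17033360)) (a (l 17170528) (l 17302344)))) (a (b (b (a (l 16892304) (l 16993040)) (a (l 16871016) (l 16977312))) (l 16870712)) (b (a (b (l 17159648) (l 17110216)) (l 17288624)) (b (a (l 17074744) (l 17260056)) (a (l 17020424) (l 17193576))))))) (b (b (a (b (l 1) (a (b (l 1) (l 17407688)) (l 4))) (l 4)) (a (b (a (l 17394536) (l 17479536)) (a (l 17386936) (l 17442808))) (b (l 4) (a (l 4) (l 4))))) (b (a (b (l 17372288)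 (l 17313608)) (b (a (l 17420816) (l 4)) (a (l 17372840) (l 17412240)))) (a (b (a (l 17250408) (l 17274328)) (a (b (l 17212576) (l 17232960)) (b (l 17230112) (l 17200128)))) (b (a (l 17321040) (l 17373528)) (a (b (l 17278232) (l 17244416)) (l 17323288))))))), by decide +kernel⟩

theorem c_pm_202 : CertN 0 536870912 1073741824 536870912 402653184 67108864 3 false true false .pp 2 0 2
    ndN0q2 ndN4q2 pcN0 Cut.none Ext.none :=
  certN0 (fam := false) (s1 := true) (s2 := false) (a := 2) (b := 0) (c := 2) (cn := .pp) (n1 := ndN0q2) (n2 := ndN4q2) (pc := pcN0) (cut := Cut.none) (xt := Ext.none) (P1 := 0) (W1 := 536870912) (P2 := 1073741824) (W2 := 536870912) (P3 := 402653184) (W3 := 67108864) (N0 := 3)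
    rfl k0_pm_202

noncomputable def f_pm_203 : ℕ → ℕ → ℕ → ℕ → Bool := onCell 0 536870912 0 1230186008 402653184 67108864
    (rowN 3 0 false true false .up 2 0 3 (qsf 0 536870912 0 1230186008 0) ndN0q2 ndN4q3 pcN0 Cut.none Ext.none)

def k0_pm_203 : ∃ t, chk3 f_pm_203 t 1 1 1 = true :=
  ⟨(b (l 2) (b (l 2) (a (b (b (l 2) (a (a (l 293769244343) (l 16822472)) (a (l 16840296) (l 16862632)))) (b (a (a (l 16794424) (l 16810688)) (a (l 16840344) (l 16901152))) (a (a (l 16783312) (l 16826008)) (a (l 16921192) (l 17038032))))) (b (l 2) (a (b (a (l 16976736) (b (l 2) (l 17207200))) (a (b (l 17254720) (l 17332056)) (b (l 17207952) (l 17184840)))) (b (a (b (l 2) (l 17189600)) (l 2)) (b (a (a (l 17170864) (l 17175408)) (a (l 17204024) (l 2))) (a (a (l 17194336) (l 17220080)) (l 17269840))))))))), by decide +kernel⟩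

theorem c_pm_203 : CertN 0 536870912 0 1230186008 402653184 67108864 3 false true false .up 2 0 3
    ndN0q2 ndN4q3 pcN0 Cut.none Ext.none :=
  certN0 (fam := false) (s1 := true) (s2 := false) (a := 2) (b := 0) (c := 3) (cn := .up) (n1 := ndN0q2) (n2 := ndN4q3) (pc := pcN0) (cut := Cut.none) (xt := Ext.none) (P1 := 0) (W1 := 536870912) (P2 := 0) (W2 := 1230186008) (P3 := 402653184) (W3 := 67108864) (N0 := 3)
    rfl k0_pm_203

end Pool.Agent.Strip051.G.I3_8_7_16.Tab.C.NB04

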