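import Pool.Agent.Strip051.G.I3_8_7_16.Tab

/-! # Certificates N14 (generated) -/

set_option linter.all false
set_option maxRecDepth 100000

namespace Pool.Agent.Strip051.G.I3_8_7_16.Tab.C.NB04

open Pool.Agent.Strip051.PB Pool.Agent.Strip051.PB.T
open Pool.Agent.Strip051.G.I3_8_7_16.Tab

noncomputable def cut_pm_213 : Cut := Cut.of [[⟨0, 1, 0, 67108864⟩, ⟨1, 1, 0, 67108864⟩, ⟨2, 2, 0, 16777216⟩]]

noncomputable def f_pm_213 : ℕ → ℕ → ℕ → ℕ → Bool := onCell 0 536870912 0 1230186008 402653184 67108864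
    (rowN 3 0 false true false .pnn 2 1 3 (qsf 0 536870912 0 1230186008 1) ndN0q2 ndN4q3 pcN1 cut_pm_213 Ext.none)

def k0_pm_213 : ∃ t, chk3 f_pm_213 t 2 2 1 = true :=
  ⟨(b (l 3) (a (l 3) (b (l 3) (a (b (l 3) (a (l 3) (b (l 3) (a (l 3) (b (l 3) (a (l 3) (b (l 3) (l 268066375703)))))))) (b (a (l 3) (b (a (l 3) (b (l 3) (a (l 3) (b (l 3) (l 276656303447))))) (a (b (l 3) (a (l 3) (b (l 274508821143) (a (l 262160793447) (l 232632896535))))) (b (a (b (l 3) (a (l 3) (l 253570858839))) (b (a (l 263771404551) (l 235317249271)) (l 217063642551))) (a (b (a (l 243370313159) (l 16786640)) (l 16787584)) (l 16789312)))))) (a (b (a (l 3) (b (a (l 3) (b (l 3) (l 272898209975))) (a (b (l 3) (l 257865828343)) (b (a (l 260013311623) (l 229948549031)) (l 16788528))))) (a (b (a (l 3) (b (l 270750728183) (l 238538479383))) (a (b (l 255181475879) (l 218674259127)) (l 200957522343))) (b (a (b (l 222432353319) (l 16789712)) (l 16791352)) (l 16795016)))) (b (a (b (a (b (a (l 3) (l 251423376951)) (a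 (l 240685960471) (l 16787728))) (b (l 213842419655) (l 16789112))) (l 16791192)) (l 16795760)) (l 16803920)))))))), by decide +kernel⟩

def k1_pm_213 : ∃ t, chk3 f_pm_213 t 6 4 1 = true :=
  ⟨(b (l 3) (a (l 3) (b (l 3) (a (l 3) (b (a (l 3) (b (l 3) (a (l 3) (c (b (l 293299297463) (a (l 283098753431) (b (a (l 282025006375) (l 257865815335)) (l 250349622871)))) (b (l 293836163543) (a (l 283635616871) (b (l 265918877255) (l 250349623127)))))))) (a (b (l 3) (a (b (l 3) (a (l 3) (b (l 3) (l 276656308039)))) (b (a (l 288467467175) (b (a (l 289004327831) (l 269676975527)) (a (l 258939557639) (l 16780008)))) (a (b (a (l 276656297415) (l 254107719415)) (l 247128401927)) (l 16780648))))) (b (a (b (a (l 3) (b (l 291151810759) (a (l 286856843815) (l 260550174887)))) (a (b (l 281488145303) (a (l 273971942503) (l 251423364119))) (c (l 248202140231) (l 247128395847)))) (b (a (b (a (l 271287598071) (l 247665270807)) (l 16779800)) (l 16780328)) (l 16781232))) (a (b (c (l 239612207991) (l 238001591991))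 (l 16782200)) (l 16783576))))))))), by decide +kernel⟩

def k2_pm_213 : ∃ t, chk3 f_pm_213 t 7 8 1 = true :=
  ⟨(a (a (l 3) (l 6)) (l 6)), by decide +kernel⟩

def k3_pm_213 : ∃ t, chk3 f_pm_213 t 14 18 1 = true :=
  ⟨(a (b (l 3) (a (b (l 3) (a (l 3) (b (l 3) (a (l 3) (b (l 3) (a (l 3) (b (l 284172487863) (l 265382011383)))))))) (b (c (a (b (l 3) (a (l 3) (l 295446777415))) (b (a (l 3) (b (l 291151812343) (a (l 284709358823) (l 264308263895)))) (a (b (a (l 3) (l 281488133511)) (a (l 278266913495) (l 257865815127))) (b (l 258402686855) (l 16779376))))) (a (b (l 3) (l 298131132967)) (b (a (l 3) (b (l 291151808391) (a (l 285246228439) (l 263771391783)))) (a (b (l 285783104727) (a (l 278266906871) (l 16778256))) (b (l 257328941127) (l 16778656)))))) (a (c (b (a (l 291688686503) (b (a (l 289004326519) (l 267529490055)) (a (l 263771393671) (l 16779184)))) (a (b (a (l 281488134119) (l 260013297399)) (l 254644591015)) (l 16779808))) (b (a (l 292225550519) (b (a (l 291688679591) (l 267529488647))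 (a (l 263234521303) (l 16778448)))) (a (b (a (l 281488132551) (l 258939554071)) (l 251960234679)) (l 16778944)))) (b (a (b (l 16778816) (l 16779296)) (l 16779760)) (l 16780496)))))) (b (a (a (b (l 3) (b (a (l 3) (a (l 3) (l 6))) (c (a (b (l 3) (a (l 293299293159) (b (l 283098745719) (l 265382005447)))) (b (a (b (l 288467454695) (l 269676972711)) (l 6)) (l 16778768))) (a (b (l 3) (a (l 294373033751) (l 271287589831))) (b (a (l 282025008023) (l 6)) (l 16778216)))))) (l 6)) (l 6)) (a (b (a (b (a (a (b (c (l 267529494535) (l 267529488135)) (l 16778576)) (l 16778664)) (l 16779128)) (l 16779768)) (l 16780560)) (l 16782088)) (l 6)))), by decide +kernel⟩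

def k4_pm_213 : ∃ t, chk3 f_pm_213 t 14 19 1 = true :=
  ⟨(a (b (a (b (a (b (l 3) (a (l 3) (b (a (l 3) (l 280414402455)) (a (l 276656303703) (l 254644588215))))) (b (a (b (l 293299303943) (a (l 284172488151) (b (l 268066371399) (l 256792075671)))) (b (a (b (l 279340649847) (l 260550167879)) (l 16778920)) (l 16779200))) (a (a (c (l 254644589271) (l 253570845591)) (l 16779440)) (l 16780040)))) (a (c (b (a (b (l 278266920247) (l 257328944231)) (l 16780144)) (l 16781032)) (b (a (b (l 278803778695) (l 256255200375)) (l 16779080)) (l 16779776))) (l 16781552))) (b (a (l 16780696) (l 16782336)) (l 16784224))) (a (l 16785112) (l 16788944))) (l 16790672)), by decide +kernel⟩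

def k5_pm_213 : ∃ t, chk3 f_pm_213 t 15 9 1 = true :=
  ⟨(b (b (l 6) (l 16872360)) (l 16879512)), by decide +kernel⟩

def k6_pm_213 : ∃ t, chk3 f_pm_213 t 12 10 1 = true :=
  ⟨(b (a (l 3) (b (l 3) (a (l 3) (a (l 3) (b (l 3) (b (l 3) (c (l 275582559895) (l 275045684839)))))))) (a (b (l 3) (a (l 3) (b (a (l 3) (b (l 3) (l 278803784903))) (a (b (l 3) (a (l 3) (l 255181468551))) (b (a (l 263771401783) (l 238001599975)) (l 221895476391)))))) (b (a (b (l 3) (a (l 3) (b (a (l 3) (l 275045688599)) (a (l 263234529703) (l 238001597975))))) (b (a (b (l 3) (a (l 282025009399) (b (l 265918883223) (l 243907177303)))) (b (a (b (l 279340654999) (l 253570852807)) (l 238001596279)) (l 225116697959))) (a (b (a (b (l 255181466119) (l 16782848)) (l 16783120)) (l 16784272)) (l 16786024)))) (a (b (a (b (a (l 281488139447) (b (l 268603238887) (l 245517791543))) (a (l 246591533911) (l 16783848))) (b (l 223506087079) (l 16785624))) (l 16787504)) (l 16791520))))), by decide +kernel⟩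

def k7_pm_213 : ∃ t, chk3 f_pm_213 t 13 10 1 = true :=
  ⟨(b (a (b (a (l 3) (b (a (l 3) (b (l 3) (a (l 3) (b (l 278266910663) (a (l 270213847591) (l 247665274119)))))) (a (c (b (l 288467459015) (a (l 276656300439) (l 251423373895))) (b (l 289004326631) (a (l 276119426087) (l 250349623255)))) (b (a (b (l 270750729127) (l 248202140791)) (l 16781048)) (l 16782016))))) (a (b (a (b (l 3) (l 289004328727)) (b (a (l 3) (b (l 285246233303) (l 260013301719))) (a (b (l 273435074055) (l 251423368087)) (l 238001598503)))) (a (b (a (l 280951266711) (b (l 264845140391) (l 242296562647))) (a (b (l 252497110439) (l 16782048)) (l 16782504))) (b (l 16782496) (l 16784344)))) (b (a (b (a (b (l 249812754391) (l 16781424)) (l 16781992)) (l 16783120)) (l 16784744)) (l 16787440)))) (b (a (b (a (b (a (c (l 275045691975) (l 274508818103)) (b (a (l 267529492631) (l 16780264)) (l 16780536))) (a (b (l 247128398247) (l 16780936)) (l 16781560))) (l 16782424)) (l 16784760)) (l 16787744)) (l 16793312))) (a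 (b (a (b (l 16786040) (l 16790528)) (l 16794144)) (l 16800992)) (l 16807632))), by decide +kernel⟩

def k8_pm_213 : ∃ t, chk3 f_pm_213 t 6 11 1 = true :=
  ⟨(a (b (a (b (a (b (a (l 3) (b (l 277730044103) (a (l 264308274007) (l 237464731223)))) (a (b (a (l 3) (l 255181469991)) (a (l 245517795095) (l 16785616))) (b (l 219747994839) (l 16787208)))) (b (a (b (a (l 245517793527) (l 16784680)) (l 16785752)) (l 16787520)) (l 16790856))) (a (b (l 16789216) (l 16794608)) (l 16799160))) (b (l 16798592) (l 16809960))) (a (l 16813640) (l 16828552))) (b (l 16823968) (l 16848968))), by decide +kernel⟩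

def k9_pm_213 : ∃ t, chk3 f_pm_213 t 7 5 1 = true :=
  ⟨(b (a (b (a (l 16798584) (l 16806448)) (l 16822832)) (b (l 16814168) (l 16838736))) (a (l 16861376) (l 16970384))), by decide +kernel⟩

def k10_pm_213 : ∃ t, chk3 f_pm_213 t 2 12 1 = true :=
  ⟨(a (a (l 3) (b (l 3) (a (l 3) (b (a (l 3) (b (l 3) (a (l 3) (b (l 3) (l 250349646183))))) (a (b (a (l 3) (l 280414409319)) (a (b (l 3) (l 253570873015)) (b (l 239612230951) (l 16795840)))) (b (a (b (l 261087062503) (l 226190459607)) (l 203105018375)) (l 16797040))))))) (a (b (a (b (l 3) (a (l 3) (b (a (l 3) (b (l 3) (l 260550187815))) (a (b (l 270750732967) (l 238001614103)) (b (l 222969230055) (l 16793328)))))) (b (a (b (l 3) (a (l 284172499431) (b (l 264308281639) (l 227801065767)))) (b (a (b (l 3) (l 251423381783)) (b (l 232632901591) (l 16790872))) (a (l 206326232823) (l 16793568)))) (a (b (a (b (l 243370320583) (l 209547462871)) (l 16792664)) (l 16795648)) (l 16800216)))) (a (b (a (b (a (l 278266904071) (b (l 255718352375)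 (l 218137398039))) (a (b (l 232096036823) (l 16794896)) (l 16795144))) (b (l 191830724215) (l 16799424))) (a (l 16800456) (l 16808120))) (b (l 16808424) (l 16820776)))) (b (a (b (a (b (l 16793344) (l 16799080)) (l 16804208)) (l 16812760)) (l 16823352)) (b (l 16833984) (l 16846056))))), by decide +kernel⟩

def k11_pm_213 : ∃ t, chk3 f_pm_213 t 2 13 1 = true :=
  ⟨(a (b (a (a (l 3) (b (l 3) (a (l 3) (b (l 3) (a (l 262697680135) (l 225653594839)))))) (a (b (a (b (l 3) (a (l 3) (l 265918902919))) (b (a (l 280414410903) (l 248202155847)) (a (l 226727334503) (l 16797704)))) (a (b (a (l 245517814087) (l 208473736295)) (l 16798664)) (l 16800968))) (b (a (b (a (l 208473730359) (l 16797504)) (l 16800016)) (l 16803992)) (l 16810928)))) (a (a (b (a (l 3) (b (l 3) (a (l 3) (l 259476457559)))) (a (b (l 3) (a (l 256792105687) (l 224042986007))) (b (a (l 243907206215) (l 209010601159)) (l 16799552)))) (b (a (b (a (l 3) (l 244980945655)) (a (l 224579855063) (l 16799344))) (b (l 199346935047)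 (l 16800408))) (b (l 16801192) (l 16804280)))) (b (a (l 16806648) (l 16820656)) (l 16821240)))) (b (a (b (l 16823840) (l 16834336)) (l 16861544)) (a (l 16846152) (l 16874320)))), by decide +kernel⟩

def k12_pm_213 : ∃ t, chk3 f_pm_213 t 3 6 1 = true :=
  ⟨(b (a (a (b (l 16846856) (l 16871408)) (l 16887880)) (a (l 16911928) (l 17041488))) (a (a (b (l 16890424) (a (l 16893344) (l 16923264))) (b (l 16912888) (l 16917176))) (a (b (l 16935400) (l 16973144)) (l 17009704)))), by decide +kernel⟩

def k13_pm_213 : ∃ t, chk3 f_pm_213 t 1 7 1 = true :=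
  ⟨(a (b (a (b (a (b (a (a (b (l 200420667959) (l 16799064)) (l 16801360)) (l 16808664)) (l 16807192)) (b (l 16826360) (l 16827904))) (a (b (l 16807800) (l 16804504)) (l 16822576))) (b (a (l 16850736) (l 16872192)) (a (b (a (l 16839000) (l 16847928)) (l 16836328)) (b (l 16866000) (l 16882896))))) (b (a (l 1) (a (l 1) (l 16901920))) (l 1))) (b (a (b (a (l 16895616) (b (l 16942792) (l 16994712))) (a (l 17216400) (l 17072224))) (b (a (l 17049016) (l 17077400)) (a (l 17081408) (b (l 17127016) (a (l 17147480) (l 17191344)))))) (a (b (a (l 17037584) (a (l 17131288) (b (l 17092584) (l 17123688)))) (l 1)) (b (a (b (l 17135776) (b (l 17160512) (l 17167280))) (b (l 17203952) (a (l 17225384) (l 17256896)))) (a (b (b (l 17178280) (l 17194984)) (l 1)) (b (a (l 17258008) (l 17287104)) (l 17303848))))))), by decide +kernel⟩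

theorem s14_pm_213 : ∃ t, chk3 f_pm_213 t 2 6 1 = true := ex3_b k10_pm_213 k11_pm_213

theorem s15_pm_213 : ∃ t, chk3 f_pm_213 t 1 6 1 = true := ex3_a s14_pm_213 k12_pm_213

theorem s16_pm_213 : ∃ t, chk3 f_pm_213 t 1 3 1 = true := ex3_b s15_pm_213 k13_pm_213

theorem s17_pm_213 : ∃ t, chk3 f_pm_213 t 6 10 1 = true := ex3_a k6_pm_213 k7_pm_213

theorem s18_pm_213 : ∃ t, chk3 f_pm_213 t 6 5 1 = true := ex3_b s17_pm_213 k8_pm_213

theorem s19_pm_213 : ∃ t, chk3 f_pm_213 t 3 5 1 = true := ex3_a s18_pm_213 k9_pm_213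

theorem s20_pm_213 : ∃ t, chk3 f_pm_213 t 14 9 1 = true := ex3_b k3_pm_213 k4_pm_213

theorem s21_pm_213 : ∃ t, chk3 f_pm_213 t 7 9 1 = true := ex3_a s20_pm_213 k5_pm_213

theorem s22_pm_213 : ∃ t, chk3 f_pm_213 t 7 4 1 = true := ex3_b k2_pm_213 s21_pm_213

theorem s23_pm_213 : ∃ t, chk3 f_pm_213 t 3 4 1 = true := ex3_a k1_pm_213 s22_pm_213

theorem s24_pm_213 : ∃ t, chk3 f_pm_213 t 3 2 1 = true := ex3_b s23_pm_213 s19_pm_213

theorem s25_pm_213 : ∃ t, chk3 f_pm_213 t 1 2 1 = true := ex3_a k0_pm_213 s24_pm_213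

theorem s26_pm_213 : ∃ t, chk3 f_pm_213 t 1 1 1 = true := ex3_b s25_pm_213 s16_pm_213

theorem c_pm_213 : CertN 0 536870912 0 1230186008 402653184 67108864 3 false true false .pnn 2 1 3
    ndN0q2 ndN4q3 pcN1 cut_pm_213 Ext.none :=
  certN0 (fam := false) (s1 := true) (s2 := false) (a := 2) (b := 1) (c := 3) (cn := .pnn) (n1 := ndN0q2) (n2 := ndN4q3) (pc := pcN1) (cut := cut_pm_213) (xt := Ext.none) (P1 := 0) (W1 := 536870912) (P2 := 0) (W2 := 1230186008) (P3 := 402653184) (W3 := 67108864) (N0 := 3)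
    rfl s26_pm_213

noncomputable def f_mm_001 : ℕ → ℕ → ℕ → ℕ → Bool := onCell 0 536870912 0 536870912 402653184 67108864
    (rowN 3 1 false false false .up 0 0 1 (qsf 0 536870912 536870912 536870912 0) ndN0q0 ndN4q1 pcN0 Cut.none Ext.none)

def k0_mm_001 : ∃ t, chk3 f_mm_001 t 1 1 1 = true :=
  ⟨(l 3), by decide +kernel⟩

theorem c_mm_001 : CertN 0 536870912 536870912 536870912 402653184 67108864 3 false false false .up 0 0 1
    ndN0q0 ndN4q1 pcN0 Cut.none Ext.none :=
  certN1 (fam := false) (s1 := false) (s2 := false) (a := 0) (b := 0) (c := 1) (cn := .up) (n1 := ndN0q0) (n2 := ndN4q1) (pc := pcN0) (cut := Cut.none) (xt := Ext.none) (P1 := 0) (W1 := 536870912) (P2 := 536870912) (W2 := 536870912) (P3 := 402653184) (W3 := 67108864) (N0 := 3)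
    rfl (fun _ => rfl) k0_mm_001

noncomputable def f_mm_011 : ℕ → ℕ → ℕ → ℕ → Bool := onCell 0 536870912 536870912 536870912 402653184 67108864
    (rowN 3 1 false false false .pnn 0 1 1 (qsf 0 536870912 536870912 536870912 1) ndN0q0 ndN4q1 pcN1 Cut.none Ext.none)

def k0_mm_011 : ∃ t, chk3 f_mm_011 t 1 1 1 = true :=
  ⟨(l 5), by decide +kernel⟩

theorem c_mm_011 : CertN 0 536870912 536870912 536870912 402653184 67108864 3 false false false .pnn 0 1 1
    ndN0q0 ndN4q1 pcN1 Cut.none Ext.none :=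
  certN1 (fam := false) (s1 := false) (s2 := false) (a := 0) (b := 1) (c := 1) (cn := .pnn) (n1 := ndN0q0) (n2 := ndN4q1) (pc := pcN1) (cut := Cut.none) (xt := Ext.none) (P1 := 0) (W1 := 536870912) (P2 := 536870912) (W2 := 536870912) (P3 := 402653184) (W3 := 67108864) (N0 := 3)
    rfl (fun _ => rfl) k0_mm_011

noncomputable def f_mm_012 : ℕ → ℕ → ℕ → ℕ → Bool := onCell 0 536870912 1073741824 536870912 402653184 67108864
    (rowN 3 0 false false false .pnp 0 1 2 (qsf 0 536870912 1073741824 536870912 1) ndN0q0 ndN4q2 pcN1 Cut.none Ext.none)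

def k0_mm_012 : ∃ t, chk3 f_mm_012 t 1 1 1 = true :=
  ⟨(l 5), by decide +kernel⟩

theorem c_mm_012 : CertN 0 536870912 1073741824 536870912 402653184 67108864 3 false false false .pnp 0 1 2
    ndN0q0 ndN4q2 pcN1 Cut.none Ext.none :=
  certN0 (fam := false) (s1 := false) (s2 := false) (a := 0) (b := 1) (c := 2) (cn := .pnp) (n1 := ndN0q0) (n2 := ndN4q2) (pc := pcN1) (cut := Cut.none) (xt := Ext.none) (P1 := 0) (W1 := 536870912) (P2 := 1073741824) (W2 := 536870912) (P3 := 402653184) (W3 := 67108864) (N0 := 3)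
    rfl k0_mm_012

noncomputable def f_mm_022 : ℕ → ℕ → ℕ → ℕ → Bool := onCell 0 536870912 1073741824 536870912 402653184 67108864
    (rowN 3 0 false false false .pp 0 2 2 (qsf 0 536870912 1073741824 536870912 2) ndN0q0 ndN4q2 pcN2 Cut.none Ext.none)

def k0_mm_022 : ∃ t, chk3 f_mm_022 t 1 1 1 = true :=
  ⟨(l 5), by decide +kernel⟩

theorem c_mm_022 : CertN 0 536870912 1073741824 536870912 402653184 67108864 3 false false false .pp 0 2 2
    ndN0q0 ndN4q2 pcN2 Cut.none Ext.none :=
  certN0 (fam := false) (s1 := false) (s2 := false) (a := 0) (b := 2) (c := 2) (cn := .pp) (n1 := ndN0q0) (n2 := ndN4q2) (pc := pcN2) (cut := Cut.none) (xt := Ext.none) (P1 := 0) (W1 := 536870912) (P2 := 1073741824) (W2 := 536870912) (P3 := 402653184) (W3 := 67108864) (N0 := 3)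
    rfl k0_mm_022

noncomputable def f_mm_023 : ℕ → ℕ → ℕ → ℕ → Bool := onCell 0 536870912 0 1230186008 402653184 67108864
    (rowN 3 0 false false false .up 0 2 3 (qsf 0 536870912 0 1230186008 2) ndN0q0 ndN4q3 pcN2 Cut.none Ext.none)

def k0_mm_023 : ∃ t, chk3 f_mm_023 t 1 1 1 = true :=
  ⟨(l 5), by decide +kernel⟩

theorem c_mm_023 : CertN 0 536870912 0 1230186008 402653184 67108864 3 false false false .up 0 2 3
    ndN0q0 ndN4q3 pcN2 Cut.none Ext.none :=
  certN0 (fam := false) (s1 := false) (s2 := false) (a := 0) (b := 2) (c := 3) (cn := .up) (n1 := ndN0q0) (n2 := ndN4q3) (pc := pcN2) (cut := Cut.none) (xt := Ext.none) (P1 := 0) (W1 := 536870912) (P2 := 0) (W2 := 1230186008) (P3 := 402653184) (W3 := 67108864) (N0 := 3)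
    rfl k0_mm_023

noncomputable def f_mm_033 : ℕ → ℕ → ℕ → ℕ → Bool := onCell 0 536870912 0 1230186008 402653184 67108864
    (rowN 3 0 false false false .pnn 0 3 3 (qsf 0 536870912 0 1230186008 3) ndN0q0 ndN4q3 pcN3 Cut.none Ext.none)

def k0_mm_033 : ∃ t, chk3 f_mm_033 t 1 1 1 = true :=
  ⟨(l 5), by decide +kernel⟩

theorem c_mm_033 : CertN 0 536870912 0 1230186008 402653184 67108864 3 false false false .pnn 0 3 3
    ndN0q0 ndN4q3 pcN3 Cut.none Ext.none :=
  certN0 (fam := false) (s1 := false) (s2 := false) (a := 0) (b := 3) (c := 3) (cn := .pnn) (n1 := ndN0q0) (n2 := ndN4q3) (pc := pcN3) (cut := Cut.none) (xt := Ext.none) (P1 := 0) (W1 := 536870912) (P2 := 0) (W2 := 1230186008) (P3 := 402653184) (W3 := 67108864) (N0 := 3)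
    rfl k0_mm_033

noncomputable def cut_mm_101 : Cut := Cut.of [[⟨0, 1, 0, 67108864⟩, ⟨1, 0, 0, 67108864⟩, ⟨2, 1, 0, 67108864⟩]]

noncomputable def f_mm_101 : ℕ → ℕ → ℕ → ℕ → Bool := onCell 536870912 536870912 0 536870912 402653184 67108864
    (rowN 3 1 false false false .npn 1 0 1 (qsf 536870912 536870912 536870912 536870912 0) ndN0q1 ndN4q1 pcN0 cut_mm_101 Ext.none)

def k0_mm_101 : ∃ t, chk3 f_mm_101 t 1 1 1 = true :=
  ⟨(a (l 3) (b (a (l 3) (b (a (l 3) (b (a (l 3) (b (l 6) (l 3))) (l 3))) (l 3))) (l 3))), by decide +kernel⟩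

theorem c_mm_101 : CertN 536870912 536870912 536870912 536870912 402653184 67108864 3 false false false .npn 1 0 1
    ndN0q1 ndN4q1 pcN0 cut_mm_101 Ext.none :=
  certN1 (fam := false) (s1 := false) (s2 := false) (a := 1) (b := 0) (c := 1) (cn := .npn) (n1 := ndN0q1) (n2 := ndN4q1) (pc := pcN0) (cut := cut_mm_101) (xt := Ext.none) (P1 := 536870912) (W1 := 536870912) (P2 := 536870912) (W2 := 536870912) (P3 := 402653184) (W3 := 67108864) (N0 := 3)
    rfl (fun _ => rfl) k0_mm_101

noncomputable def cut_mm_102 : Cut := Cut.of [[⟨0, 1, 0, 67108864⟩, ⟨1, 0, 0, 67108864⟩, ⟨2, 1, 0, 67108864⟩]]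

noncomputable def f_mm_102 : ℕ → ℕ → ℕ → ℕ → Bool := onCell 536870912 536870912 0 536870912 402653184 67108864
    (rowN 3 1 false false false .npp 1 0 2 (qsf 536870912 536870912 1073741824 536870912 0) ndN0q1 ndN4q2 pcN0 cut_mm_102 Ext.none)

def k0_mm_102 : ∃ t, chk3 f_mm_102 t 1 1 1 = true :=
  ⟨(b (a (l 3) (a (l 3) (b (a (l 3) (b (a (l 3) (b (l 6) (l 3))) (l 3))) (l 3)))) (l 3)), by decide +kernel⟩

theorem c_mm_102 : CertN 536870912 536870912 1073741824 536870912 402653184 67108864 3 false false false .npp 1 0 2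
    ndN0q1 ndN4q2 pcN0 cut_mm_102 Ext.none :=
  certN1 (fam := false) (s1 := false) (s2 := false) (a := 1) (b := 0) (c := 2) (cn := .npp) (n1 := ndN0q1) (n2 := ndN4q2) (pc := pcN0) (cut := cut_mm_102) (xt := Ext.none) (P1 := 536870912) (W1 := 536870912) (P2 := 1073741824) (W2 := 536870912) (P3 := 402653184) (W3 := 67108864) (N0 := 3)
    rfl (fun _ => rfl) k0_mm_102

noncomputable def f_mm_112 : ℕ → ℕ → ℕ → ℕ → Bool := onCell 536870912 536870912 1073741824 536870912 402653184 67108864
    (rowN 3 2 false false false .dn 1 1 2 (qsf 536870912 536870912 1073741824 536870912 1) ndN0q1 ndN4q2 pcN1 Cut.none Ext.none)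

def k0_mm_112 : ∃ t, chk3 f_mm_112 t 1 1 1 = true :=
  ⟨(a (l 3) (l 5)), by decide +kernel⟩

theorem c_mm_112 : CertN 536870912 536870912 1073741824 536870912 402653184 67108864 3 false false false .dn 1 1 2
    ndN0q1 ndN4q2 pcN1 Cut.none Ext.none :=
  certN2 (fam := false) (s1 := false) (s2 := false) (a := 1) (b := 1) (c := 2) (cn := .dn) (n1 := ndN0q1) (n2 := ndN4q2) (pc := pcN1) (cut := Cut.none) (xt := Ext.none) (P1 := 536870912) (W1 := 536870912) (P2 := 1073741824) (W2 := 536870912) (P3 := 402653184) (W3 := 67108864) (N0 := 3)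
    rfl (fun _ => rfl) k0_mm_112

noncomputable def f_mm_113 : ℕ → ℕ → ℕ → ℕ → Bool := onCell 536870912 536870912 0 1230186008 402653184 67108864
    (rowN 3 0 false false false .nn 1 1 3 (qsf 536870912 536870912 0 1230186008 1) ndN0q1 ndN4q3 pcN1 Cut.none Ext.none)

def k0_mm_113 : ∃ t, chk3 f_mm_113 t 1 1 1 = true :=
  ⟨(b (l 5) (a (l 5) (b (a (l 5) (l 3)) (l 3)))), by decide +kernel⟩

theorem c_mm_113 : CertN 536870912 536870912 0 1230186008 402653184 67108864 3 false false false .nn 1 1 3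
    ndN0q1 ndN4q3 pcN1 Cut.none Ext.none :=
  certN0 (fam := false) (s1 := false) (s2 := false) (a := 1) (b := 1) (c := 3) (cn := .nn) (n1 := ndN0q1) (n2 := ndN4q3) (pc := pcN1) (cut := Cut.none) (xt := Ext.none) (P1 := 536870912) (W1 := 536870912) (P2 := 0) (W2 := 1230186008) (P3 := 402653184) (W3 := 67108864) (N0 := 3)
    rfl k0_mm_113

noncomputable def f_mm_123 : ℕ → ℕ → ℕ → ℕ → Bool := onCell 1073741824 536870912 0 1230186008 402653184 67108864
    (rowN 3 2 false false false .npn 1 2 3 (qsf 536870912 536870912 0 1230186008 2) ndN0q1 ndN4q3 pcN2 Cut.none Ext.none)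

def k0_mm_123 : ∃ t, chk3 f_mm_123 t 1 1 1 = true :=
  ⟨(b (l 5) (l 5)), by decide +kernel⟩

theorem c_mm_123 : CertN 536870912 536870912 0 1230186008 402653184 67108864 3 false false false .npn 1 2 3
    ndN0q1 ndN4q3 pcN2 Cut.none Ext.none :=
  certN2 (fam := false) (s1 := false) (s2 := false) (a := 1) (b := 2) (c := 3) (cn := .npn) (n1 := ndN0q1) (n2 := ndN4q3) (pc := pcN2) (cut := Cut.none) (xt := Ext.none) (P1 := 536870912) (W1 := 536870912) (P2 := 0) (W2 := 1230186008) (P3 := 402653184) (W3 := 67108864) (N0 := 3)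
    rfl (fun _ => rfl) k0_mm_123

noncomputable def f_mm_133 : ℕ → ℕ → ℕ → ℕ → Bool := onCell 1610612736 536870912 0 1230186008 402653184 67108864
    (rowN 3 2 false false false .dn 1 3 3 (qsf 536870912 536870912 0 1230186008 3) ndN0q1 ndN4q3 pcN3 Cut.none Ext.none)

def k0_mm_133 : ∃ t, chk3 f_mm_133 t 1 1 1 = true :=
  ⟨(l 5), by decide +kernel⟩

theorem c_mm_133 : CertN 536870912 536870912 0 1230186008 402653184 67108864 3 false false false .dn 1 3 3
    ndN0q1 ndN4q3 pcN3 Cut.none Ext.none :=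
  certN2 (fam := false) (s1 := false) (s2 := false) (a := 1) (b := 3) (c := 3) (cn := .dn) (n1 := ndN0q1) (n2 := ndN4q3) (pc := pcN3) (cut := Cut.none) (xt := Ext.none) (P1 := 536870912) (W1 := 536870912) (P2 := 0) (W2 := 1230186008) (P3 := 402653184) (W3 := 67108864) (N0 := 3)
    rfl (fun _ => rfl) k0_mm_133

noncomputable def cut_mm_202 : Cut := Cut.of [[⟨0, 1, 0, 67108864⟩, ⟨1, 0, 0, 67108864⟩, ⟨2, 1, 0, 67108864⟩]]

noncomputable def f_mm_202 : ℕ → ℕ → ℕ → ℕ → Bool := onCell 0 536870912 0 536870912 402653184 67108864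
    (rowN 3 1 false false false .pp 2 0 2 (qsf 0 536870912 1073741824 536870912 0) ndN0q2 ndN4q2 pcN0 cut_mm_202 Ext.none)

def k0_mm_202 : ∃ t, chk3 f_mm_202 t 2 2 1 = true :=
  ⟨(b (b (a (b (a (l 16619248) (l 16556160)) (l 16666128)) (b (l 16520656) (a (l 16608400) (l 16589568)))) (a (a (l 16774152) (b (l 16694232) (l 16719840))) (a (b (l 16648320) (l 16690544)) (b (l 16642256) (l 16672608))))) (a (b (a (l 16811856) (l 16765920)) (b (l 16791592) (l 16807952))) (b (a (l 16720392) (b (l 16673296) (l 16705184))) (a (b (l 16718752) (l 16721944)) (b (l 16720944) (l 16728752)))))), by decide +kernel⟩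

def k1_mm_202 : ∃ t, chk3 f_mm_202 t 6 4 1 = true :=
  ⟨(b (b (a (l 16647712) (b (l 16592680) (l 16616728))) (a (l 16611592) (l 16682296))) (a (b (l 16651008) (b (l 16674544) (l 16683400))) (b (a (l 16753120) (b (l 16743408) (l 16705376))) (a (b (l 16674480) (l 16709440)) (b (l 16718200) (l 16731664)))))), by decide +kernel⟩

def k2_mm_202 : ∃ t, chk3 f_mm_202 t 14 8 1 = true :=
  ⟨(b (b (a (l 16640528) (l 16699592)) (a (l 16663552) (l 16720960))) (a (b (l 16684216) (b (l 16733696) (l 16705664))) (a (b (l 16767032) (l 16790088)) (b (b (l 16723016) (l 16732504)) (b (l 16739728) (l 16747248)))))), by decide +kernel⟩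

def k3_mm_202 : ∃ t, chk3 f_mm_202 t 15 16 1 = true :=
  ⟨(a (b (l 6) (a (b (l 6) (a (l 16728360) (l 16738560))) (l 6))) (l 6)), by decide +kernel⟩

def k4_mm_202 : ∃ t, chk3 f_mm_202 t 60 34 1 = true :=
  ⟨(b (a (l 16737928) (l 16746984)) (l 16776328)), by decide +kernel⟩

def k5_mm_202 : ∃ t, chk3 f_mm_202 t 122 34 1 = true :=
  ⟨(b (l 16777472) (b (l 16783304) (l 16776688))), by decide +kernel⟩

def k6_mm_202 : ∃ t, chk3 f_mm_202 t 123 68 1 = true :=
  ⟨(a (l 16774288) (l 6)), by decide +kernel⟩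

def k7_mm_202 : ∃ t, chk3 f_mm_202 t 246 69 1 = true :=
  ⟨(b (l 16774896) (a (l 16778856) (b (l 16779048) (a (l 16779384) (b (c (l 16778512) (l 16778488)) (a (c (l 16777848) (l 16777848)) (b (c (c (l 16777560) (l 16778232)) (c (l 16778232) (l 16778232))) (b (c (a (l 16777112) (c (a (l 190756947223) (l 317458481607)) (a (l 193978172727) (l 262160778919)))) (a (l 16778448) (c (a (l 220284846871) (l 270213842599)) (a (l 220284847111) (l 301352355063))))) (a (c (c (l 195588785687) (l 197199398551)) (c (a (l 16777296) (l 236927845831)) (a (l 16777296) (l 265382003815)))) (c (a (l 370608702103) (l 3)) (c (l 367924347735) (l 371682444087)))))))))))), by decide +kernel⟩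

def k8_mm_202 : ∃ t, chk3 f_mm_202 t 247 138 1 = true :=
  ⟨(a (c (l 16778688) (b (l 16772320) (l 16776928))) (b (l 6) (a (b (c (l 16778384) (l 16778352)) (a (c (l 16777720) (l 16777712)) (b (c (l 16778096) (l 16778104)) (c (a (c (l 148881016039) (l 148881016071)) (a (b (l 152102241911) (c (b (l 237464716535) (l 3)) (l 321216577975))) (b (c (l 215989880183) (l 218674234839)) (l 3)))) (a (b (l 16778312) (c (l 168745239879) (l 172503336215))) (a (b (c (l 16777240) (l 16777240)) (c (l 324437803447) (l 328195899815))) (b (c (l 220284847575) (l 228874782071)) (l 3)))))))) (b (b (l 6) (a (a (c (l 16776776) (l 16778088)) (l 6)) (l 6))) (a (a (b (c (b (l 137606727111) (a (c (l 181093270631) (l 182703883495)) (b (a (l 214916138647) (l 277193164583)) (l 3)))) (b (c (l 16777152) (l 16777152)) (c (a (l 185925108983) (l 319605965207)) (a (l 214916137655) (l 322827190663))))) (b (c (a (c (l 347523252823) (l 358260671079)) (l 3)) (c (l 366313734935) (l 370608702199))) (l 3))) (b (b (c (a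 (c (l 211158041943) (l 214379267431)) (c (l 342154544983) (l 352891961927))) (c (a (l 217063622087) (l 357723800119)) (a (l 222432331111) (l 362018767399)))) (l 3)) (l 3))) (l 3)))))), by decide +kernel⟩

def k9_mm_202 : ∃ t, chk3 f_mm_202 t 494 278 1 = true :=
  ⟨(a (c (l 16778312) (l 16778440)) (b (b (c (l 16778824) (l 16778808)) (b (c (l 16777872) (l 16777872)) (a (l 16779112) (c (a (l 16776952) (c (l 173577077959) (l 174650819911))) (a (l 16778272) (c (l 176261432743) (a (l 16777200) (l 229411652439)))))))) (a (b (c (l 16778160) (c (l 16778168) (l 16778168))) (b (c (a (l 16777048) (c (a (l 16777928) (l 236390974935)) (a (l 16777944) (l 239612200503)))) (a (l 16778376) (c (a (l 16777632) (l 245517780535)) (a (l 16777632) (l 256792069591))))) (c (a (c (l 180556399959) (l 181630141911)) (a (c (l 335175221783) (l 343765156391)) (l 3))) (a (a (l 16778216) (c (l 213842396551) (l 236390974439))) (c (l 355039445719) (l 358797542087)))))) (b (c (a (b (c (l 16777832) (l 16777856))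 (c (a (l 200420623655) (l 328195901223)) (a (l 202568107415) (l 337859576327)))) (b (a (c (l 231022265783) (l 232096007703)) (c (l 357186929319) (l 365239993015))) (l 3))) (a (b (c (l 16777864) (l 16777864)) (c (a (l 207399945623) (l 342154543623)) (a (l 231559136167) (l 345912639991)))) (b (c (a (l 239612200471) (l 369534960295)) (a (l 250349618615) (l 373293056663))) (l 3)))) (l 3))))), by decide +kernel⟩

def k10_mm_202 : ∃ t, chk3 f_mm_202 t 494 279 1 = true :=
  ⟨(a (b (a (c (b (l 16776576) (a (l 16776896) (b (l 16777080) (c (l 188072592791) (l 189683205639))))) (b (l 16777888) (a (l 16778216) (b (l 16778408) (a (l 154249725975) (c (l 224042943895) (l 247665263687))))))) (a (b (c (l 16778016) (c (l 16777048) (l 16777048))) (b (c (c (a (l 180556399751) (l 246054651495)) (a (l 183777625271) (l 250349618807))) (c (a (l 193441301543) (l 257865811559)) (a (l 210084299655) (l 277730035047)))) (c (a (c (l 347523252823) (l 355039445607)) (l 3)) (c (l 364166251287) (l 368461218551)))))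 (b (c (b (c (l 16777784) (l 160155305207)) (a (c (l 210621171047) (l 214379267463)) (c (l 341080801847) (l 349133865543)))) (b (c (l 162839659783) (l 188072591991)) (c (a (l 220284847495) (l 353428832839)) (a (l 240149070903) (l 358260671015))))) (l 3)))) (a (b (c (a (b (c (l 166597756087) (l 168208368951)) (a (c (l 221358589335) (l 224579814903)) (c (l 353965703799) (l 361481896583)))) (b (a (c (l 251423360631) (l 256255198855)) (l 3)) (l 3))) (a (b (c (l 170892723527) (l 193441301255)) (c (a (l 230485394855) (l 365776863863)) (a (l 255718327383) (l 369534960231)))) (b (c (l 335712092791) (l 340007060055)) (l 3)))) (l 3)) (l 3))) (b (a (a (a (b (b (c (c (l 241222813175) (l 244980909655)) (c (l 251423360599) (l 275045680375))) (l 3)) (l 3)) (l 3)) (l 3)) (l 3)) (l 3))), by decide +kernel⟩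

def k11_mm_202 : ∃ t, chk3 f_mm_202 t 495 139 1 = true :=
  ⟨(b (a (b (a (b (c (a (l 16778280) (b (l 144586049191) (c (a (l 190756947111) (b (l 244444038423) (l 3))) (a (l 192904430871) (l 326048416215))))) (a (l 16778296) (b (c (l 16777832) (l 16777832)) (c (a (l 196662527271) (l 330343383511)) (a (l 223506072375) (l 334638350775)))))) (c (a (a (b (l 161765918391) (c (l 322290321159) (l 331953996279))) (b (c (l 226190427559) (l 228874782215)) (l 3))) (b (a (c (l 353965703831) (l 364166251159)) (l 3)) (l 3))) (a (b (c (a (l 16777272) (l 231559136775)) (a (l 16777272) (l 249812747527))) (c (l 345912640167) (l 350744478343))) (b (c (l 368998089543) (l 372756185911)) (l 3))))) (a (b (b (c (a (c (l 221358589319) (l 223506073063)) (c (l 352891961975) (l 363629380215))) (c (a (l 228337911271) (l 366850605687)) (a (l 240149071159) (l 370608702055)))) (l 3)) (l 3)) (l 3))) (l 3)) (l 3)) (l 3)), by decide +kernel⟩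

def k12_mm_202 : ∃ t, chk3 f_mm_202 t 60 35 1 = true :=
  ⟨(a (b (l 16753096) (l 16781640)) (b (l 16772880) (a (l 16781064) (b (l 16775712) (a (l 16780936) (b (l 16779752) (a (c (l 16778416) (l 16778416)) (c (b (l 16779128) (a (a (l 16778304) (b (l 16779672) (c (l 208473688311) (l 211694913991)))) (b (a (l 172503337719) (b (l 217600494439) (c (l 347523253063) (l 353428833127)))) (a (c (l 333027738567) (l 339470189527)) (l 3))))) (c (b (l 16776536) (a (b (l 16776944) (a (l 16777264) (l 225116686311))) (b (a (l 16778040) (l 299204870759)) (l 351818220839)))) (b (l 16776528) (a (b (l 16776944) (a (l 16777272) (l 240149071655))) (b (a (l 196125656551) (l 301352354375)) (l 356113188087))))))))))))), by decide +kernel⟩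

def k13_mm_202 : ∃ t, chk3 f_mm_202 t 244 70 1 = true :=
  ⟨(b (l 16767616) (b (l 16770496) (l 16777656))), by decide +kernel⟩

def k14_mm_202 : ∃ t, chk3 f_mm_202 t 245 140 1 = true :=
  ⟨(b (l 16776760) (c (l 16778736) (l 16778624))), by decide +kernel⟩

def k15_mm_202 : ∃ t, chk3 f_mm_202 t 490 141 1 = true :=
  ⟨(b (l 16779384) (b (c (l 16778208) (l 16778176)) (a (l 16779856) (a (c (c (l 16778120) (l 16778144)) (c (l 134385502039) (l 134385502119))) (b (c (a (l 16777032) (b (l 16777216) (c (l 210621171479) (l 214916138807)))) (a (l 16778376) (b (l 16778560) (c (l 234780362071) (l 244444038551))))) (c (a (b (c (l 190220076583) (l 194515043895)) (c (l 321753449095) (l 327659029143))) (b (c (l 348060123943) (l 353965703991)) (l 3))) (c (a (b (l 218137363479) (l 332490867335)) (l 363629380679)) (a (b (l 218137363815) (l 336248963687)) (l 367924347927))))))))), by decide +kernel⟩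

def k16_mm_202 : ∃ t, chk3 f_mm_202 t 491 141 1 = true :=
  ⟨(b (a (b (l 16778112) (b (l 16779488) (c (l 127943051431) (c (l 16778008) (l 16778000))))) (b (b (c (l 16779096) (l 16779096)) (a (l 16779272) (c (a (l 16778408) (b (l 167134627879) (c (a (l 216526751223) (l 345912640103)) (l 297594257879)))) (c (a (l 16777120) (b (l 16777304) (l 301352354263))) (a (l 16777120) (b (l 16777312) (l 305110450615))))))) (a (b (c (a (l 16776960) (c (l 170892723895) (l 172503336679))) (a (l 16778296) (b (l 16778488) (c (l 214379267239) (l 225116685479))))) (a (c (b (l 175724562631) (a (c (l 228874782247) (l 237464716791)) (l 372219314871))) (b (c (l 16777992) (l 16777672)) (c (l 311552901639) (l 315310998007)))) (b (c (c (l 327122158231) (l 334101480103)) (c (l 337859576487) (l 342154543751))) (l 3)))) (a (b (c (b (c (l 214379267847) (l 218674235175)) (c (l 352891962183) (l 360945025863))) (b (c (l 224579815207) (l 249275876663)) (c (l 364703122247) (l 368998089511)))) (l 3)) (l 3)))))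 (a (b (a (b (c (l 16776848) (l 16778176)) (c (a (l 147807275159) (b (c (l 181093270967) (l 184851367415)) (c (l 311016030791) (l 317458481751)))) (c (a (l 16777192) (b (l 207399945175) (l 321753449031))) (a (l 16777200) (b (l 206863074599) (l 325511545383)))))) (a (b (c (c (l 176798303991) (l 178945787703)) (b (l 16778520) (c (l 225653556439) (l 231559136631)))) (a (b (b (c (l 263234521271) (l 275582552743)) (l 3)) (l 3)) (l 3))) (b (c (b (c (l 223506073399) (l 226190428151)) (l 372756186007)) (b (c (l 236927846151) (l 255718327799)) (c (l 367387476871) (l 371145573223)))) (l 3)))) (a (a (b (c (b (c (l 232632878951) (l 235854104615)) (l 377588024279)) (b (c (l 255181456951) (l 268603229735)) (c (l 369534960583) (l 373293056935)))) (l 3)) (l 3)) (l 3))) (l 3))), by decide +kernel⟩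

def k17_mm_202 : ∃ t, chk3 f_mm_202 t 244 142 1 = true :=
  ⟨(a (b (l 16773112) (c (l 16777648) (l 16777608))) (b (a (l 16780168) (b (l 16778280) (a (l 16779584) (b (l 16779304) (c (c (l 151028500199) (l 152102242087)) (c (l 153712854855) (l 159081563815))))))) (a (b (c (l 16778960) (l 16778976)) (a (b (l 16779384) (c (c (l 163913402247) (l 164987144295)) (a (l 16777096) (c (l 186998851367) (l 209010558279))))) (a (b (c (l 16778496) (l 16778536)) (c (b (c (l 226190428167) (l 234243491719)) (c (l 358260671399) (l 362018767799))) (b (c (l 260013295015) (l 262697649831)) (c (l 365776864167) (l 370071831415))))) (b (c (b (l 180019530263) (c (l 247665264775) (l 257328941047))) (b (c (l 16777400) (l 16777400)) (c (l 268603230199) (l 287393711927)))) (l 3))))) (b (a (b (c (l 16778312) (l 16778344)) (c (b (c (l 182703884119) (l 185388238743)) (a (l 199883754135) (c (l 355576316759) (l 359334413159)))) (c (a (l 179482658519) (b (l 249812747559) (l 363629380439))) (a (l 200957494519)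 (b (l 250886489703) (l 367387476791)))))) (b (b (c (a (l 16778304) (c (l 317995352695) (l 322827190919))) (a (l 170892724775) (c (l 326585287303) (l 330880254567)))) (a (c (c (l 238001588295) (l 243907168359)) (c (l 261087037207) (l 275045680903))) (l 3))) (l 3))) (a (a (b (b (c (c (l 329269641911) (l 333564609223)) (c (l 337322705607) (l 341617672871))) (l 3)) (l 3)) (l 3)) (l 3)))))), by decide +kernel⟩

def k18_mm_202 : ∃ t, chk3 f_mm_202 t 244 143 1 = true :=
  ⟨(a (b (a (b (l 16778456) (a (l 16779760) (b (l 16779472) (c (c (l 174113949895) (l 175724562711)) (a (l 16777184) (c (l 210084300391) (l 222432331383))))))) (b (a (c (l 16779344) (l 16779368)) (b (c (l 16778392) (c (l 16777112) (l 16777120))) (c (c (a (l 187535722407) (b (l 236390975559) (l 360408155127))) (a (l 190756947943) (b (l 245517780919) (l 364166251527)))) (c (a (l 196125656871) (l 319605965543)) (a (l 215989880279) (l 323364061895)))))) (a (a (b (c (l 158544693767) (c (l 16777304) (l 16777312))) (b (c (c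 (l 246591522951) (l 260550166359)) (c (l 279877519031) (l 286856841015))) (l 3))) (b (c (b (l 198273141415) (a (l 260013296407) (l 361481899431))) (a (c (l 238538458423) (l 236390975159)) (b (l 231559138135) (l 363092509527)))) (l 3))) (a (b (c (c (l 351281349735) (l 359871284343)) (c (l 364166251623) (l 368461218871))) (l 3)) (l 3))))) (a (b (a (b (c (l 152639113847) (c (l 16778512) (l 16777864))) (a (c (c (l 201494366247) (l 205789333623)) (c (l 217063622391) (l 230485395111))) (b (c (c (l 256792070343) (l 272361326503)) (c (l 293299291895) (l 298668001191))) (l 3)))) (b (c (a (b (l 207936817879) (c (l 337322705655) (l 340543931159))) (c (l 355576317111) (l 362555638983))) (c (a (b (l 231559136759) (l 345375769351)) (l 366313735351)) (a (b (l 239075329527) (l 349670736615)) (l 370071831671)))) (l 3))) (a (a (a (b (b (c (l 358260673927) (l 367387476775)) (l 3)) (l 3)) (l 3)) (l 3)) (l 3))) (l 3))) (b (a (b (a (b (b (c (a (l 189146335847) (c (l 339470189319) (l 344302027543)))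 (a (c (l 16777432) (l 16778088)) (c (l 348596994823) (l 352891962087)))) (a (c (c (l 314237256295) (l 317995352711)) (c (l 322827190903) (l 326585287255))) (l 3))) (l 3)) (l 3)) (l 3)) (l 3)) (l 3))), by decide +kernel⟩

def k19_mm_202 : ∃ t, chk3 f_mm_202 t 245 71 1 = true :=
  ⟨(b (a (b (a (b (a (c (l 16776560) (l 16779192)) (a (c (c (l 16777976) (l 142975436663)) (c (l 143512307607) (l 145122920343))) (b (c (l 16777072) (l 16778416)) (c (b (c (l 198810011271) (l 203641849543)) (c (l 333564609223) (l 338396447447))) (b (c (l 230485394503) (l 229411653015)) (c (l 342154543831) (l 346986381991))))))) (a (b (c (a (l 16777104) (b (l 16778600) (c (l 228337911815) (l 235854104455)))) (a (l 16778456) (b (l 161765919191) (c (l 254107715127) (l 265382004343))))) (c (c (a (b (l 207936816887) (l 343765156631)) (l 354502575319)) (a (b (l 213305526039) (l 348596994855)) (l 364166251751))) (c (a (b (l 238001587431) (l 352891962135)) (l 368461219015)) (a (b (l 239612200487) (l 359871283959))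 (l 372756186263))))) (a (b (b (c (c (l 307794805287) (l 312089772615)) (c (l 316384739895) (l 319605965351))) (l 3)) (l 3)) (l 3)))) (b (a (a (b (c (b (l 16778560) (c (l 220284847911) (l 225653557063))) (b (l 16778600) (c (l 242296555015) (l 255181456887)))) (b (c (l 371682444151) (c (l 365776864103) (l 369534960455))) (l 3))) (b (b (c (c (l 240685942871) (l 245517781095)) (c (l 264308262599) (l 280951260775))) (l 3)) (l 3))) (l 3)) (l 3))) (l 3)) (l 3)) (l 3)), by decide +kernel⟩

def k20_mm_202 : ∃ t, chk3 f_mm_202 t 492 140 1 = true :=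
  ⟨(b (a (l 16779824) (b (l 16777960) (c (l 16778264) (l 16778264)))) (a (b (c (l 16778656) (l 16778640)) (a (c (l 16778312) (c (l 16778000) (l 16777992))) (b (c (c (l 145122919847) (l 145122920055)) (a (l 16778224) (c (l 159081563767) (l 164450272727)))) (b (c (a (l 155860338663) (a (c (l 234780362295) (l 241222813255)) (l 375440540375))) (a (c (l 16777272) (l 16777272)) (c (l 319069094439) (l 322827190791)))) (a (c (c (l 227801040711) (l 230485395447)) (c (a (l 234780361735) (l 309405418855)) (l 254107715159))) (l 3)))))) (b (a (c (b (l 16776704) (a (l 16777024) (b (l 16778192) (c (l 219211106055) (l 222969202471))))) (b (l 16778024) (a (l 16778360) (b (l 149417887879) (c (a (l 223506072471) (l 286319969735)) (l 246054651335)))))) (a (b (c (c (l 150491628871) (l 151028499991)) (c (l 152639112759) (l 157470950807))) (b (c (a (c (l 223506073095) (l 228874782231)) (l 366850605719)) (c (l 309405417959) (l 312626643415))) (l 3))) (b (c (b (c (l 189683205655) (l 192367560263)) (a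 (c (l 253570844311) (l 260550166183)) (l 3))) (b (c (l 196125656663) (l 224042943431)) (c (l 335712092807) (l 340007060071)))) (l 3)))) (a (b (c (c (a (b (l 197736269383) (l 332490868695)) (b (l 354502574951) (l 3))) (a (b (l 200420624071) (l 341617672903)) (l 360408155287))) (c (a (b (l 205789333127) (l 345375769287)) (l 367924348039)) (a (b (l 228337910935) (l 349670736551)) (l 372756186199)))) (l 3)) (l 3))))), by decide +kernel⟩

def k21_mm_202 : ∃ t, chk3 f_mm_202 t 493 140 1 = true :=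
  ⟨(b (a (b (b (c (l 16778952) (l 16778952)) (a (l 16778968) (b (c (l 16778304) (l 16778320)) (c (a (l 16777080) (c (l 203104978503) (a (l 16777312) (l 242296555079)))) (a (l 16778408) (c (a (l 16777328) (l 255181456807)) (a (l 16777328) (l 271287584071)))))))) (a (b (c (c (l 16777944) (l 16777968)) (c (l 136532985335) (l 137606727159))) (b (c (a (l 16778160) (c (a (l 212768654727) (l 343228285511)) (a (l 217600492967) (l 348596994647)))) (a (l 16778184) (c (a (l 244444038087) (l 352891961943)) (a (l 247128392791) (l 357186929207))))) (a (c (c (l 211158042343) (a (l 16778000) (l 254107715207))) (c (a (l 16777688) (l 265382004279)) (a (l 16777688) (l 290614936871)))) (l 3)))) (b (c (a (b (c (l 181630141831) (l 183777625607)) (a (c (l 242296555095) (l 248202135143)) (l 3))) (b (c (a (l 336248963623) (l 3)) (l 349133865719)) (l 3))) (c (a (b (l 187535721975) (l 327122158151)) (l 359334413319)) (a (b (l 209547428839) (l 330880254503)) (l 363629380583)))) (l 3)))) (b (a (a (b (c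 (c (l 16777736) (l 16777760)) (c (l 16777768) (l 16777768))) (b (c (c (a (l 201494365591) (l 329806512647)) (a (l 204715591095) (l 336248963607))) (c (a (l 235317232439) (l 340007059991)) (a (l 231559136375) (l 344838898167)))) (c (c (l 355039445911) (l 365776864151)) (c (l 370071831431) (l 373293056887))))) (b (c (b (c (l 174113948919) (l 176261432695)) (a (c (l 231559136791) (l 233706620471)) (l 373293056695))) (b (c (l 179482658183) (l 203641848647)) (c (a (l 246054651351) (l 368461218487)) (a (l 272361325703) (l 372219314839))))) (l 3))) (a (a (b (b (c (c (l 323364061671) (l 330343383543)) (c (l 334101479927) (l 337859576295))) (l 3)) (l 3)) (l 3)) (l 3))) (l 3))) (a (b (a (a (b (b (c (c (l 348596994855) (l 358260671287)) (c (l 363629380391) (l 367924347655))) (l 3)) (l 3)) (l 3)) (l 3)) (l 3)) (l 3))), by decide +kernel⟩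

def k22_mm_202 : ∃ t, chk3 f_mm_202 t 246 141 1 = true :=
  ⟨(a (b (a (b (a (a (b (c (c (l 164987143783) (l 163376531111)) (c (l 165524014791) (l 171429594663))) (b (c (a (c (l 246591522423) (l 254107715207)) (l 3)) (c (l 328732770919) (l 332490867271))) (l 3))) (b (c (b (c (l 206326204071) (l 209010558743)) (c (l 342691414775) (l 351281349383))) (b (c (l 214916138711) (l 242833425543)) (c (l 355039445767) (l 359334413031)))) (l 3))) (a (b (b (c (l 374366798775) (c (l 369534960551) (l 373293056903))) (l 3)) (l 3)) (l 3))) (l 3)) (l 3)) (l 3)) (l 3)), by decide +kernel⟩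

def k23_mm_202 : ∃ t, chk3 f_mm_202 t 247 70 1 = true :=
  ⟨(l 3), by decide +kernel⟩

def k24_mm_202 : ∃ t, chk3 f_mm_202 t 123 71 1 = true :=
  ⟨(l 3), by decide +kernel⟩

def k25_mm_202 : ∃ t, chk3 f_mm_202 t 31 17 1 = true :=
  ⟨(a (b (a (b (l 6) (a (b (b (l 6) (b (l 6) (l 3))) (l 3)) (l 3))) (l 3)) (l 3)) (l 3)), by decide +kernel⟩

def k26_mm_202 : ∃ t, chk3 f_mm_202 t 28 18 1 = true :=
  ⟨(b (a (l 16710704) (l 16725320)) (l 16753216)), by decide +kernel⟩

def k27_mm_202 : ∃ t, chk3 f_mm_202 t 58 18 1 = true :=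
  ⟨(b (l 16762296) (a (l 16751624) (l 16787512))), by decide +kernel⟩

def k28_mm_202 : ∃ t, chk3 f_mm_202 t 59 36 1 = true :=
  ⟨(a (l 16774960) (b (l 16759088) (a (l 16764248) (l 16779232)))), by decide +kernel⟩

def k29_mm_202 : ∃ t, chk3 f_mm_202 t 118 37 1 = true :=
  ⟨(b (l 16775456) (a (l 16780520) (b (l 16783096) (a (c (l 16780320) (l 16780376)) (c (b (a (l 16775816) (l 153712858263)) (a (b (l 16777120) (a (l 188609467319) (b (l 235317236855) (l 351818221207)))) (c (b (a (l 210084302983) (l 328732772023)) (l 355576319111)) (b (a (l 217063624807) (l 332490868423)) (l 362555640935))))) (b (a (l 16775896) (c (l 16779624) (l 173577078327))) (a (b (l 16777256) (a (c (l 16777792) (l 215453010535)) (b (l 262160780711) (l 357723801175)))) (b (a (b (l 16777784) (l 283635617223)) (b (l 321753450983) (l 3))) (a (l 366313736503) (l 3)))))))))), by decide +kernel⟩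

def k30_mm_202 : ∃ t, chk3 f_mm_202 t 119 74 1 = true :=
  ⟨(a (b (l 16769760) (c (l 16778680) (l 16781248))) (b (a (l 16778384) (b (l 16779736) (a (l 16781000) (b (l 16781680) (a (l 16780992) (c (b (l 16777320) (l 217600496007)) (c (l 195588787479) (l 212231785031)))))))) (a (b (c (l 16778464) (l 16778520)) (a (b (l 16781928) (a (c (l 16777224) (l 16777336)) (c (c (l 204178722775) (l 208473690199)) (b (l 16777640) (a (l 250349620119) (l 340543931511)))))) (b (a (b (l 16779912) (c (l 16779264) (l 217600494007))) (b (c (l 213305528791) (a (l 16777696) (l 270213843719))) (c (a (l 320679707687) (l 353428833959)) (a (l 329806513175) (l 358797542999))))) (a (b (c (a (l 248202137975) (l 354502575495)) (a (l 277730036855) (l 360945026391))) (l 3)) (l 3))))) (b (a (c (b (l 16779680) (a (b (l 16777432) (l 231022269223)) (b (a (l 229948526887) (l 342154544327)) (l 360945026967)))) (b (c (l 16777136) (l 16777152)) (a (c (l 206326205991) (l 222969203623)) (b (a (l 259476425383) (l 352891962535))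 (l 367924348743))))) (b (a (b (c (l 195051917319) (c (l 16778352) (l 227264170183))) (c (a (l 254644588951) (l 358260671959)) (a (l 279340650007) (l 364703122839)))) (a (b (c (l 331953999527) (l 341080802375)) (l 3)) (l 3))) (l 3))) (a (b (a (b (c (a (l 352355091751) (l 3)) (l 362018768439)) (l 3)) (l 3)) (l 3)) (l 3)))))), by decide +kernel⟩

def k31_mm_202 : ∃ t, chk3 f_mm_202 t 119 75 1 = true :=
  ⟨(a (b (a (b (l 16780280) (a (l 16781536) (b (l 16780880) (a (c (l 16780080) (l 16780200)) (c (c (l 271824454535) (l 275045680087)) (b (l 229411654423) (a (l 298131131959) (l 350744479207)))))))) (b (c (a (l 16779264) (b (l 166597759783) (a (b (l 16780256) (a (l 242296557943) (l 351281349975))) (c (l 336785835815) (l 341617674039))))) (a (l 16779360) (b (c (l 172503338215) (l 186461981143)) (a (b (l 16779048) (a (l 274508811415) (l 357186929959))) (c (l 345912641287) (l 349670737559)))))) (a (c (b (a (l 191830692887) (b (l 241222816823) (l 356113188615))) (a (b (l 342154548567)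 (l 3)) (l 3))) (c (b (a (l 212768656007) (l 312626644247)) (l 362555640423)) (b (a (l 218137365319) (b (l 276656294887) (l 353965704823))) (l 365776865767)))) (b (a (c (b (l 362018768935) (l 3)) (l 369534962119)) (l 3)) (l 3))))) (a (b (c (a (c (b (l 179482660903) (a (l 284709356551) (l 355576318167))) (b (l 182703886567) (a (l 287930582103) (l 358797543639)))) (a (b (c (l 316921611735) (l 320679708151)) (l 3)) (l 3))) (a (b (c (l 188072595479) (l 205252463559)) (a (b (l 246054652967) (l 344302028183)) (b (l 360408155767) (l 3)))) (a (b (c (l 324437804503) (l 328195900791)) (l 3)) (l 3)))) (l 3)) (l 3))) (b (a (b (a (b (a (b (c (l 227264172887) (a (l 16777768) (l 292762422119))) (c (a (l 341617673447) (l 3)) (l 358260671975))) (b (c (l 358797543239) (l 365239994103)) (l 3))) (l 3)) (l 3)) (l 3)) (l 3)) (l 3))), by decide +kernel⟩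

def k32_mm_202 : ∃ t, chk3 f_mm_202 t 28 19 1 = true :=
  ⟨(a (b (l 16738568) (l 16773288)) (b (l 16787880) (a (l 16789936) (c (b (l 16768288) (a (l 16783528) (b (l 16780552) (a (b (l 16776800) (a (l 16777896) (b (l 16778296) (l 319069096151)))) (b (a (l 199883760199) (b (l 247128400519) (l 351818222631))) (a (b (l 338396449383) (l 3)) (l 3))))))) (b (l 16768080) (a (l 16783608) (b (a (l 16774448) (l 16781760)) (a (b (l 16777056) (a (l 16778152) (b (l 233706623815) (l 327122162375)))) (b (a (b (l 16778056) (l 254107719207)) (b (a (l 16778232) (l 320679708487)) (l 357186931543))) (c (l 359334417015) (l 362555642199))))))))))), by decide +kernel⟩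

def k33_mm_202 : ∃ t, chk3 f_mm_202 t 58 38 1 = true :=
  ⟨(a (b (l 16762328) (a (l 16767320) (l 16784600))) (b (a (l 16779096) (a (l 16782296) (b (l 16772168) (b (l 16774856) (c (l 16779144) (l 16780608)))))) (a (b (l 16783120) (a (c (b (l 16775432) (a (l 16776616) (l 179482663975))) (a (l 16775920) (b (l 16776096) (c (l 198810012535) (l 199346884679))))) (b (a (l 16782336) (c (b (l 16777552) (a (l 16780632) (l 313163522071))) (b (l 16777736) (a (l 234243494135) (b (l 295983647655) (l 345375770551)))))) (a (a (b (c (l 16777904) (l 16778064)) (c (l 326585288535) (l 335175223047))) (b (c (l 245517786183) (b (l 16777960) (l 342691415623))) (l 3))) (b (a (c (l 351818221863) (l 357723801767)) (l 3)) (l 3)))))) (b (a (c (b (l 16781400) (a (l 16779952) (b (l 197736274359) (c (l 317458483127) (l 321216579543))))) (b (l 16776296) (c (a (l 16777480) (b (l 218137366151) (l 324974675879))) (a (l 16777520) (b (l 224042946215) (l 328732772135)))))) (b (c (a (b (l 16777280) (c (l 216526755223)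 (l 221895464487))) (b (a (l 210084304615) (b (l 264845136951) (l 355576317991))) (a (l 353965705527) (l 3)))) (a (b (l 16777448) (a (l 16777960) (b (l 255181459079) (l 346449511975)))) (b (a (l 234780364471) (b (l 295446778631) (l 349670737863))) (a (l 360408156327) (l 3))))) (a (b (c (c (l 339470191031) (l 343765158327)) (c (l 347523254631) (l 353428834519))) (l 3)) (l 3)))) (a (b (c (a (b (a (l 233706625623) (l 342691416119)) (l 359871286727)) (l 3)) (a (b (a (l 262160781495) (l 352355092423)) (l 356113190119)) (l 3))) (l 3)) (l 3)))))), by decide +kernel⟩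

def k34_mm_202 : ∃ t, chk3 f_mm_202 t 116 39 1 = true :=
  ⟨(b (a (b (l 16772592) (a (l 16775040) (b (l 16776232) (a (l 16782648) (a (c (l 16780568) (l 207936819271)) (b (l 16783376) (c (l 308331677431) (l 318532224727)))))))) (b (c (a (l 16780840) (b (l 16782024) (a (b (l 16777512) (l 218137370151)) (b (a (l 16778088) (l 308331677351)) (l 353965706167))))) (a (l 16775752) (b (l 16776976) (a (b (l 16777720) (a (l 16778176) (l 276656296935))) (b (a (l 237464719543) (l 317995353735)) (l 359334415095)))))) (c (a (b (a (l 16780200) (b (l 202031241863) (a (l 264845140247) (l 352891963959)))) (a (b (a (l 239075335207) (l 339470190711)) (l 358260673991)) (l 3))) (b (a (b (a (l 325511546759) (l 349670738999)) (l 3)) (l 3)) (l 3))) (a (b (a (l 16780416) (b (l 224579817863) (a (l 303499839047) (l 345912641959)))) (a (b (a (l 265382007847) (l 349133867031)) (l 351818222823)) (l 3))) (a (b (c (l 354502577479) (l 358260673639)) (l 3)) (l 3)))))) (a (b (c (a (b (l 171966471959) (a (b (l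 16778080) (a (l 244444044599) (l 341617674439))) (b (a (l 268066365655) (l 351818222199)) (l 3)))) (b (a (b (l 221358595959) (l 336785836551)) (b (l 352355093463) (l 3))) (l 3))) (a (b (c (l 189146335991) (l 189146337559)) (a (b (l 16778280) (a (l 271287587831) (l 349133867111))) (b (a (l 298131134615) (l 343765158359)) (l 3)))) (b (a (b (l 250349622279) (l 347523257271)) (b (l 358260673303) (l 3))) (l 3)))) (a (b (a (b (c (l 357186932231) (l 350207610119)) (l 3)) (l 3)) (l 3)) (l 3))) (l 3))), by decide +kernel⟩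

def k35_mm_202 : ∃ t, chk3 f_mm_202 t 117 39 1 = true :=
  ⟨(b (a (b (a (b (c (a (b (l 16777824) (a (l 235854109623) (l 340007061575))) (b (a (l 297594258903) (l 354502576679)) (l 3))) (a (b (l 16778008) (a (l 261623911351) (l 350207608791))) (b (a (l 303499841575) (l 348596996487)) (l 3)))) (a (b (c (l 359334415799) (l 353965706455)) (l 3)) (l 3))) (l 3)) (l 3)) (l 3)) (l 3)), by decide +kernel⟩

def k36_mm_202 : ∃ t, chk3 f_mm_202 t 118 76 1 = true :=
  ⟨(a (b (c (a (l 16774304) (b (l 16775560) (a (l 16782008) (b (l 16780000) (a (l 210621175559) (b (l 266455749655) (l 349133867111))))))) (a (l 16784824) (b (l 16775648) (a (l 16776904) (b (l 16780144) (a (b (l 16777848) (l 276656295751)) (b (l 312089773255) (l 353965705207)))))))) (a (c (b (a (l 16776376) (b (l 16777000) (a (l 16777568) (l 221895465143)))) (a (b (l 180556404359) (a (l 233169754615) (b (l 338396448343) (l 3)))) (b (a (b (l 247665267959) (l 351818221383)) (l 359334414935)) (l 3)))) (b (a (l 16776512) (b (l 16777152)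 (c (l 224042945527) (l 225116688199)))) (a (b (c (l 16777768) (l 16778776)) (a (b (l 16778000) (l 326585288039)) (l 356113188823))) (b (a (b (l 274508812311) (l 357723801319)) (l 365239994823)) (l 3))))) (b (c (c (a (b (a (l 16777680) (l 290078065831)) (l 341080803815)) (b (l 355576318999) (l 3))) (a (b (a (l 16777792) (l 291151807735)) (l 346986383847)) (l 360408158279))) (c (a (b (a (l 16777856) (l 295446775031)) (l 350744480151)) (l 365239996375)) (a (b (a (l 16777880) (l 299204871351)) (l 356650060039)) (l 368998092567)))) (l 3)))) (b (a (c (b (a (b (l 16776728) (l 180556404231)) (b (c (l 200420627095) (l 203641852759)) (a (b (l 250349622631) (l 355576317815)) (l 360945027751)))) (a (b (a (b (l 16780464) (l 324974675335)) (b (l 347523253879) (l 3))) (l 3)) (l 3))) (b (a (b (l 16776856) (c (l 200957495847) (l 203641850935))) (b (a (l 16777640) (b (l 16777872) (l 316384740535))) (a (b (l 279877521031) (l 362018768663)) (l 358260673047)))) (a (b (a (b (l 235854106071) (l 334101480807))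 (b (l 355576317495) (l 3))) (l 3)) (l 3)))) (b (a (a (b (b (c (l 329806513575) (l 338933319031)) (l 3)) (l 3)) (l 3)) (l 3)) (l 3))) (l 3))), by decide +kernel⟩

def k37_mm_202 : ∃ t, chk3 f_mm_202 t 118 77 1 = true :=
  ⟨(a (b (a (b (a (b (a (c (l 351818222407) (l 357186931367)) (l 3)) (l 3)) (l 3)) (l 3)) (l 3)) (l 3)) (l 3)), by decide +kernel⟩

def k38_mm_202 : ∃ t, chk3 f_mm_202 t 119 38 1 = true :=
  ⟨(l 3), by decide +kernel⟩

def k39_mm_202 : ∃ t, chk3 f_mm_202 t 59 39 1 = true :=
  ⟨(l 3), by decide +kernel⟩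

def k40_mm_202 : ∃ t, chk3 f_mm_202 t 120 72 1 = true :=
  ⟨(a (l 16776352) (a (l 16779808) (b (l 16769768) (l 16781384)))), by decide +kernel⟩

def k41_mm_202 : ∃ t, chk3 f_mm_202 t 240 73 1 = true :=
  ⟨(b (l 16776696) (a (l 16781872) (b (l 16780632) (a (a (l 16780296) (b (l 16776480) (c (l 168745242695) (c (l 175724563063) (l 190756947975))))) (b (a (c (l 16779616) (l 16777080)) (b (c (l 16777328) (l 16777416)) (c (c (l 226727300407) (l 233169751287)) (c (l 278803776247) (l 282025001687))))) (a (a (b (c (l 16777504) (l 16777584)) (c (b (l 271287586615) (l 351818220791)) (b (l 292225551799) (l 357186929863)))) (b (c (l 236390977767) (b (l 16778936) (l 323364063879))) (l 3))) (a (b (c (l 355039448919) (l 362555638999)) (l 3)) (l 3)))))))), by decide +kernel⟩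

def k42_mm_202 : ∃ t, chk3 f_mm_202 t 241 73 1 = true :=
  ⟨(b (a (b (l 16773984) (b (l 16780624) (c (l 135459245687) (c (l 16778944) (l 16778936))))) (b (a (l 16780976) (b (l 16780368) (a (c (l 16779640) (l 16778400)) (b (c (l 169282112679) (c (l 16777424) (l 16777432))) (c (a (l 224579817255) (b (l 333564612007) (l 3))) (a (b (l 16778896) (l 281488133975)) (b (l 342691414871) (l 3)))))))) (a (b (a (l 16780112) (b (c (l 16777128) (l 16777200)) (c (a (l 16778736) (l 232632880967)) (c (l 228337911687) (l 229948524919))))) (a (b (c (l 181093273271) (c (l 205789333207) (l 209010558951))) (a (c (b (l 16778872) (l 335712095687)) (b (l 245517781143) (l 348596994935))) (c (b (l 355039446023) (l 3)) (l 364703122663)))) (a (b (c (b (l 257328942663) (l 360408155303)) (b (l 281488132887) (l 357723800695))) (l 3)) (l 3)))) (b (a (a (b (c (l 194515045719) (c (l 16777584) (l 16778240))) (a (c (l 348596997719) (l 358797542391)) (l 3))) (b (c (b (l 246054653447) (l 357723800647)) (b (l 259476426343)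 (l 364703122471))) (l 3))) (l 3)) (l 3))))) (a (b (a (b (c (l 16779232) (l 16776672)) (a (b (l 16779672) (c (l 174650822135) (l 181630143975))) (b (c (l 197736271719) (c (l 220821718919) (l 223506073815))) (c (c (l 321753449591) (l 325511546007)) (c (l 329269642375) (l 333027738679)))))) (b (a (b (c (l 16777232) (l 16777304)) (c (c (l 213842398263) (l 219211107447)) (c (l 244980910087) (l 244444039815)))) (a (b (c (l 211158044279) (b (l 16777584) (l 281488132391))) (c (b (l 357723800679) (l 3)) (l 366313735495))) (b (b (c (l 272361328263) (l 286856843063)) (l 3)) (l 3)))) (a (a (b (b (c (l 280951262935) (l 296520519383)) (l 3)) (l 3)) (l 3)) (l 3)))) (a (b (a (b (c (c (l 297057387383) (l 300815483799)) (c (l 304573580167) (l 307794805591))) (l 3)) (l 3)) (l 3)) (l 3))) (l 3))), by decide +kernel⟩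

def k43_mm_202 : ∃ t, chk3 f_mm_202 t 242 72 1 = true :=
  ⟨(b (a (l 16782592) (b (l 16773528) (c (l 16778024) (l 16779328)))) (a (b (l 16780168) (a (c (l 16778808) (l 16778832)) (b (a (l 16780552) (c (c (l 158007822759) (l 159618435687)) (c (l 161765919399) (l 169282111767)))) (a (b (c (l 16778576) (l 161229048951)) (c (a (l 205252464151) (b (l 261623909799) (l 3))) (a (b (l 16777512) (l 255718329687)) (b (l 278266908391) (l 3))))) (b (b (c (a (l 213305527319) (l 355039448599)) (a (l 225116687287) (l 362018767799))) (a (c (l 331953999239) (l 341080803415)) (l 3))) (l 3)))))) (b (a (b (l 16780160) (a (c (l 16779448) (l 16779504)) (b (c (l 16778488) (l 16778544)) (a (c (l 189683207399) (c (l 213305525991) (l 220284847847))) (c (b (l 240149073175) (l 357723803223)) (c (l 315310998295) (l 319069094631))))))) (b (a (c (c (l 16778352) (l 151028500855)) (c (l 153175984519) (l 159081564231))) (b (c (c (l 185925110199) (l 189146335767)) (c (l 196662528263) (l 214379267799))) (c (a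 (b (l 229411654807) (l 354502577655)) (b (l 360408157847) (l 3))) (a (c (l 304573579991) (l 309942289063)) (b (l 368998089783) (l 3)))))) (a (b (b (c (a (l 16778784) (l 330343386471)) (c (l 256255198999) (l 257865812119))) (a (c (l 259476426119) (c (l 293836163063) (l 302962968535))) (l 3))) (l 3)) (l 3)))) (a (b (a (a (b (c (l 16778672) (l 16778736)) (c (b (l 250886491479) (l 360945028775)) (b (l 263771393383) (l 368461218887)))) (b (c (b (l 16778816) (l 319069097271)) (c (l 257865811831) (l 258939553959))) (l 3))) (a (b (b (c (l 343228288439) (l 355039447175)) (l 3)) (l 3)) (l 3))) (l 3)) (l 3))))), by decide +kernel⟩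

def k44_mm_202 : ∃ t, chk3 f_mm_202 t 243 144 1 = true :=
  ⟨(a (b (a (l 16780552) (b (l 16778648) (b (c (l 16776704) (l 16779360)) (a (l 16779528) (c (a (l 16778616) (c (l 222432332343) (l 227264170599))) (a (l 163376532407) (c (l 239612201095) (l 258402682823)))))))) (a (b (a (l 16780352) (c (l 144049179719) (c (l 16778336) (l 16778336)))) (a (b (c (l 16778392) (l 16777136)) (c (a (l 174650821527) (b (l 219211107319) (l 342154546599))) (a (c (l 16777440) (l 16777448)) (c (l 297594258055) (l 300815483495))))) (a (b (c (b (l 16778704) (l 238538460407)) (c (l 229948524119) (l 232632878999))) (b (c (l 357186932295) (l 366313735143)) (l 3))) (b (c (c (l 324437803911) (l 329269642135)) (c (l 333564609415) (l 337322705751))) (l 3))))) (b (a (b (c (c (l 174650820871) (l 177335175527)) (c (l 180556400727) (l 202031236567))) (a (c (b (l 209010559943) (l 329806515543)) (c (l 243370297847) (l 291688677943))) (a (b (c (l 352891964743) (l 291688680839)) (l 3)) (l 3)))) (a (b (c (c (l 315310998327)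 (l 320679707463)) (c (l 324437803847) (l 328195900183))) (l 3)) (l 3))) (l 3)))) (b (a (b (a (c (l 16778856) (c (l 16776928) (l 16776928))) (b (c (c (l 160692176823) (l 162839660567)) (c (l 169818982151) (l 189146334503))) (b (a (c (l 16778576) (l 192367561479)) (a (c (l 274508811271) (l 286319971415)) (l 3))) (c (c (l 327122158535) (l 333564609495)) (c (l 337322705863) (l 341080802199)))))) (a (a (b (c (b (l 16777312) (l 218137365383)) (c (l 214916138295) (l 214916138711))) (a (b (c (l 280414391367) (l 292762422343)) (l 3)) (l 3))) (b (c (b (l 237464718487) (l 356650061367)) (c (l 315847869175) (l 319605965511))) (l 3))) (l 3))) (b (a (a (b (c (b (l 227264171031) (c (l 356113187735) (l 359871284135))) (c (l 307794805415) (l 311016030855))) (l 3)) (l 3)) (l 3)) (l 3))) (l 3))), by decide +kernel⟩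

def k45_mm_202 : ∃ t, chk3 f_mm_202 t 243 145 1 = true :=
  ⟨(a (b (a (b (a (a (b (b (c (l 317995355415) (c (l 311552902839) (l 323900933447))) (l 3)) (l 3)) (l 3)) (l 3)) (l 3)) (l 3)) (l 3)) (l 3)), by decide +kernel⟩

def k46_mm_202 : ∃ t, chk3 f_mm_202 t 121 73 1 = true :=
  ⟨(a (b (a (b (a (b (a (b (l 16780024) (c (a (l 16777336) (l 216526753287)) (c (l 215989880407) (l 216526751815)))) (a (b (c (l 16778760) (l 185925110887)) (b (c (l 275045682839) (l 287393713975)) (l 3))) (b (c (b (l 224042945751) (l 344838901207)) (b (l 236390976599) (l 355576316807))) (l 3)))) (a (b (c (c (a (l 300278612711) (l 359871284615)) (l 322290320455)) (c (l 326048416823) (l 330343384055))) (l 3)) (l 3))) (b (a (a (a (b (c (l 357723803335) (l 365776864359)) (l 3)) (l 3)) (l 3)) (l 3)) (l 3))) (l 3)) (l 3)) (l 3)) (l 3)), by decide +kernel⟩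

def k47_mm_202 : ∃ t, chk3 f_mm_202 t 60 37 1 = true :=
  ⟨(a (b (a (b (a (b (b (c (l 16778896) (l 16778952)) (a (l 16780592) (a (b (l 16780552) (c (l 204715594055) (a (l 16777592) (l 239612203287)))) (a (b (c (l 16778904) (l 216526752071)) (c (l 343765159671) (l 354502575239))) (c (c (l 321216578887) (l 328195900759)) (c (l 331953997111) (l 336785835239))))))) (a (b (a (c (l 16779832) (l 16779928)) (b (c (l 16779168) (l 190220078919)) (c (a (l 236927848727) (l 353428833559)) (a (l 249812750647) (l 360408155367))))) (a (b (c (a (l 211694915335) (l 321753452103)) (a (l 236927846951) (l 330343385367))) (c (a (l 355576317303) (l 3)) (l 364703123079))) (l 3))) (b (a (b (c (c (l 326048416983) (l 330343384311)) (a (l 318532225223) (l 358797542903))) (l 3)) (l 3)) (l 3)))) (b (a (b (a (b (c (l 16778744) (l 16778824)) (c (a (l 219211108279) (l 334101483159)) (a (l 231022268391) (l 342691416407)))) (b (c (a (l 244980912423) (l 357186932663)) (c (l 319069094967) (l 322827191287))) (l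 3))) (a (b (c (a (l 359334413783) (l 3)) (l 367924348631)) (l 3)) (l 3))) (l 3)) (l 3))) (l 3)) (l 3)) (l 3)) (l 3)), by decide +kernel⟩

def k48_mm_202 : ∃ t, chk3 f_mm_202 t 61 18 1 = true :=
  ⟨(l 3), by decide +kernel⟩

def k49_mm_202 : ∃ t, chk3 f_mm_202 t 31 18 1 = true :=
  ⟨(l 3), by decide +kernel⟩

def k50_mm_202 : ∃ t, chk3 f_mm_202 t 15 19 1 = true :=
  ⟨(l 3), by decide +kernel⟩

def k51_mm_202 : ∃ t, chk3 f_mm_202 t 12 10 1 = true :=
  ⟨(b (a (l 16694600) (l 16711112)) (l 16753656)), by decide +kernel⟩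

def k52_mm_202 : ∃ t, chk3 f_mm_202 t 26 10 1 = true :=
  ⟨(b (l 16727168) (b (l 16745080) (l 16799032))), by decide +kernel⟩

def k53_mm_202 : ∃ t, chk3 f_mm_202 t 27 20 1 = true :=
  ⟨(a (l 16765632) (b (l 16751432) (a (l 16761008) (l 16790392)))), by decide +kernel⟩

def k54_mm_202 : ∃ t, chk3 f_mm_202 t 27 21 1 = true :=
  ⟨(a (b (l 16784624) (a (b (l 16769696) (a (l 16774280) (l 16788056))) (b (a (l 16774760) (a (l 16777272) (b (l 16777408) (c (l 16779608) (l 227264177527))))) (a (c (b (l 16778800) (a (l 229948540551) (b (l 274508825623) (l 334101485911)))) (b (l 16779432) (a (b (l 16780304) (l 291688690183)) (b (l 307794808391) (l 335712098039))))) (c (b (a (b (l 16779824) (l 313700388759)) (b (l 328195903831) (l 342154551047))) (a (l 341080810423) (l 3))) (b (a (b (l 16779784) (l 325511548679)) (b (l 337859579991) (l 345375775735))) (a (l 344302034983) (l 3)))))))) (b (a (c (b (l 16770552) (a (l 16775024) (b (l 16776872) (a (l 16778888) (b (l 16779440) (l 313163517591))))))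 (b (l 16770720) (a (l 16775504) (b (l 16777400) (a (l 16779392) (b (l 16779736) (l 321216586359))))))) (b (c (a (l 16775712) (b (l 16782848) (a (c (l 217063634327) (l 221358602183)) (b (a (l 260550178487) (l 340007063367)) (l 354502580567))))) (a (l 16786648) (b (l 16783328) (a (b (l 16779280) (a (l 16778824) (l 328195902615))) (b (a (l 283635624711) (l 344838901319)) (l 344838903575)))))) (a (c (b (a (l 204178733335) (b (l 240149084407) (l 344302031703))) (a (b (l 329269645511) (l 3)) (l 3))) (b (a (b (l 16779048) (l 250349625831)) (b (l 263234528999) (l 348596998583))) (a (b (l 338933324247) (l 3)) (l 3)))) (b (a (b (c (l 349670741559) (l 339470193735)) (l 3)) (l 3)) (l 3))))) (a (b (a (c (b (a (l 16778608) (l 224042960023)) (a (b (l 245517793575) (l 340543935383)) (b (l 345912645159) (l 3)))) (b (a (l 16779176) (b (l 16779776) (l 290614938807))) (a (b (l 268603237863) (l 344838902295)) (b (l 334101484599) (l 3))))) (c (b (a (b (l 297594260743) (l 337322711271)) (l 357723808727))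 (l 3)) (b (a (b (l 305647329639) (l 340007065255)) (l 348060131447)) (l 3)))) (l 3)) (l 3)))), by decide +kernel⟩

def k55_mm_202 : ∃ t, chk3 f_mm_202 t 12 11 1 = true :=
  ⟨(b (a (l 16732784) (l 16793696)) (c (a (l 16752832) (a (b (l 16762584) (l 16773800)) (b (l 16795000) (a (b (l 16779528) (a (l 16782576) (b (l 16780072) (l 336785842903)))) (b (a (l 229948554183) (b (l 294373037447) (l 329269652039))) (a (b (l 341080811095) (l 3)) (l 3))))))) (a (l 16751792) (a (b (l 16762688) (l 16796016)) (b (b (l 16771896) (l 16799032)) (a (b (l 16780832) (a (l 238538470855) (b (l 277730044967) (l 321753456439)))) (b (a (b (l 16782744) (l 289541214343)) (b (l 302426111543) (l 330880263495))) (a (b (l 326585295367) (l 3)) (l 3))))))))), by decide +kernel⟩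

def k56_mm_202 : ∃ t, chk3 f_mm_202 t 13 22 1 = true :=
  ⟨(a (a (b (l 16762792) (a (l 16771744) (b (l 16774944) (a (l 16779264) (a (l 16791592) (b (l 16781112) (c (l 271824477319) (l 297594262103)))))))) (b (c (a (l 16771808) (b (l 16775112) (a (l 16789736) (b (l 215989898903) (a (l 297057391015) (l 347523260183)))))) (a (l 16793312) (b (l 16775792) (a (b (l 16778712) (l 16780960)) (b (a (l 16780608) (l 259476435447)) (a (b (l 16779280) (l 322290324599)) (l 335175228391))))))) (a (c (b (a (l 16778920) (b (l 16780264) (a (l 16779488) (l 321216583303)))) (a (b (a (l 16780152) (l 303499842487)) (a (l 338396454023) (l 340543941879))) (b (l 350207617399) (l 3)))) (b (a (l 16779824) (b (l 16780984) (a (l 270213852247) (l 335175229223)))) (a (b (a (l 16780112) (l 317995367399)) (a (l 325511551447) (l 343765166055))) (b (l 338396456167) (l 3))))) (c (b (a (b (a (l 264308284071) (l 338933324391)) (l 339470200535)) (b (l 343765169287) (l 3))) (l 3)) (b (a (b (b (l 295983659415) (l 342691419943))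 (l 342691424711)) (b (l 347523264279) (l 3))) (l 3)))))) (a (b (a (b (c (a (b (l 16778320) (l 225653577079)) (b (a (l 16780104) (b (l 16779040) (l 338396451975))) (a (l 340543936727) (l 3)))) (a (b (l 16779048) (a (l 16780616) (b (l 16779704) (l 328732774519)))) (b (a (l 16780520) (b (l 276656298311) (l 324974678791))) (a (b (l 337322709383) (l 342154550375)) (l 3))))) (c (a (b (b (l 323364068039) (l 351281357591)) (l 3)) (l 3)) (a (b (a (b (l 317995356103) (l 332490872823)) (l 341617680535)) (l 3)) (l 3)))) (b (c (a (b (a (l 348597001719) (l 3)) (l 3)) (l 3)) (a (b (a (l 337322711799) (l 3)) (l 3)) (l 3))) (l 3))) (l 3)) (l 3))), by decide +kernel⟩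

def k57_mm_202 : ∃ t, chk3 f_mm_202 t 13 23 1 = true :=
  ⟨(a (a (b (a (c (b (l 16790304) (a (b (l 16781712) (l 305110456023)) (b (l 316921619319) (l 337322718023)))) (b (b (l 16779560) (l 16781888)) (a (b (l 16782360) (a (l 297594273287) (l 318532229495))) (b (a (l 312089777207) (l 324974681111)) (l 340007071031))))) (c (b (a (b (l 16790912) (l 328732780183)) (b (l 341080809511) (l 3))) (b (l 342154562247) (l 3))) (b (a (b (l 253570857431) (a (l 328195904791) (l 331417132919))) (b (a (l 337322710791) (l 337859584871)) (l 3))) (b (l 347523269319) (l 3))))) (a (a (a (b (c (l 335175234791) (l 337859587719)) (l 3)) (l 3)) (l 3)) (l 3))) (l 3)) (l 3)), by decide +kernel⟩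

def k58_mm_202 : ∃ t, chk3 f_mm_202 t 56 20 1 = true :=
  ⟨(b (a (l 16783080) (b (l 16766224) (a (l 16771064) (b (l 16773208) (c (l 16781568) (l 16781904)))))) (a (b (l 16787848) (a (b (l 16775168) (a (l 16787928) (b (l 16778368) (a (l 16784416) (c (l 254107724599) (l 284172494775)))))) (b (c (a (l 16777584) (b (l 16778488) (a (l 236927855783) (l 327659031831)))) (a (l 16778008) (b (l 16778848) (a (l 260550172263) (l 337859578983))))) (c (a (b (a (l 16779000) (l 299741743863)) (l 348596999143)) (b (l 353965709095) (l 3))) (a (b (a (l 16779128) (l 308868554567)) (a (l 348060126823) (l 3))) (b (l 345375773991) (l 3))))))) (b (a (c (b (l 16775840) (a (l 16783264) (b (l 213305536231) (a (l 305110452983) (l 353965708055))))) (b (l 16776176) (a (b (l 16777672) (l 218674240311)) (b (a (l 16778832) (l 261623914471)) (a (b (l 298131136103) (l 334101482743)) (l 344838902167)))))) (b (c (a (b (l 16777744) (c (l 250349619575) (l 260013296167))) (b (a (l 221895469351) (b (l 277193173159)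 (l 337859579511))) (a (l 350207611031) (l 3)))) (a (b (l 16778112) (a (l 16778920) (b (l 16778416) (l 343765158663)))) (b (a (l 243907173399) (b (l 302962974359) (l 340543933815))) (a (l 355039448919) (l 3))))) (c (a (b (a (l 334101482887) (l 3)) (l 3)) (l 3)) (a (b (a (l 343765161703) (l 3)) (l 3)) (l 3))))) (c (a (b (a (b (a (l 254644595719) (l 346449514471)) (l 346449517207)) (l 3)) (l 3)) (l 3)) (a (b (a (b (a (l 290078072375) (l 351281352375)) (l 350207613031)) (l 3)) (l 3)) (l 3)))))), by decide +kernel⟩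

def k59_mm_202 : ∃ t, chk3 f_mm_202 t 57 40 1 = true :=
  ⟨(a (b (a (l 16792992) (b (l 16774256) (a (l 16784496) (b (c (l 16777512) (l 16777816)) (a (b (l 16783592) (c (l 238538465895) (l 264308266839))) (b (c (l 253033980487) (l 284709361575)) (c (l 350207610135) (l 341617675319)))))))) (a (c (b (a (l 16775904) (b (l 16776968) (l 202568116951))) (a (b (l 16783456) (a (b (l 16778640) (l 314237258119)) (l 342154546743))) (b (a (b (l 246591529991) (l 344838900775)) (l 353965707671)) (l 3)))) (b (a (l 16776200) (b (l 16777288) (c (l 220821722663) (l 224579819943)))) (a (b (l 207399949431) (a (b (l 16778744) (l 327659030871)) (b (l 342154545735) (l 3)))) (b (a (b (l 272898201351) (l 349670738791)) (l 359334416439)) (l 3))))) (c (b (a (b (a (l 16778264) (b (l 16778464) (l 326585289207))) (a (b (l 308331677895) (l 343228288871)) (l 349133870407))) (b (b (l 351818223639) (l 3)) (l 3))) (l 3)) (b (a (b (a (l 16778536) (b (l 16778440) (l 337859578263))) (a (b (l 316921612471) (l 346449514055))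 (l 353428837287))) (b (c (l 358260675367) (l 360945029607)) (l 3))) (l 3))))) (b (a (b (a (b (l 16786856) (c (l 16780416) (a (l 16777624) (l 213842400295)))) (b (a (l 16783040) (b (l 16783512) (c (l 252497110087) (l 276656298423)))) (a (b (c (l 232096014727) (l 256792073991)) (c (l 342691416791) (l 350207609415))) (b (c (l 350744480903) (l 356113189815)) (l 3))))) (a (b (a (b (c (l 16778368) (l 16778568)) (c (l 302962968615) (l 311552903191))) (b (c (l 322290321751) (l 330343385351)) (c (l 348596998327) (l 352891965303)))) (a (c (l 357723804375) (l 350744482167)) (l 3))) (l 3))) (b (a (c (b (a (b (l 299204872087) (l 356113190487)) (l 3)) (l 3)) (b (a (b (l 307257938375) (l 348596997463)) (l 3)) (l 3))) (l 3)) (l 3))) (l 3))), by decide +kernel⟩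

def k60_mm_202 : ∃ t, chk3 f_mm_202 t 57 41 1 = true :=
  ⟨(a (b (a (b (a (b (c (l 357723805303) (l 351281354519)) (l 3)) (l 3)) (l 3)) (l 3)) (l 3)) (l 3)), by decide +kernel⟩

def k61_mm_202 : ∃ t, chk3 f_mm_202 t 29 20 1 = true :=
  ⟨(l 3), by decide +kernel⟩

def k62_mm_202 : ∃ t, chk3 f_mm_202 t 14 21 1 = true :=
  ⟨(a (a (c (b (a (b (a (b (a (b (l 16779080) (a (l 272361338535) (l 347523256839))) (b (a (l 318532226295) (l 341617677591)) (l 3))) (a (b (l 345912646823) (l 3)) (l 3))) (l 3)) (l 3)) (l 3)) (l 3)) (b (a (b (a (b (a (b (l 233706626775) (a (l 305647323943) (l 336785838231))) (b (a (l 330880257127) (l 344302031703)) (l 3))) (a (l 351818228119) (l 3))) (l 3)) (l 3)) (l 3)) (l 3))) (l 3)) (l 3)), by decide +kernel⟩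

def k63_mm_202 : ∃ t, chk3 f_mm_202 t 15 10 1 = true :=
  ⟨(l 3), by decide +kernel⟩

def k64_mm_202 : ∃ t, chk3 f_mm_202 t 7 11 1 = true :=
  ⟨(l 3), by decide +kernel⟩

def k65_mm_202 : ∃ t, chk3 f_mm_202 t 2 3 1 = true :=
  ⟨(b (a (b (a (b (l 16791368) (l 16741608)) (b (l 16725464) (l 16710784))) (a (l 16757640) (l 16751128))) (b (a (l 16763048) (b (l 16785896) (a (l 16750992) (a (l 16768432) (b (l 16774640) (a (l 16783752) (b (l 16785904) (a (l 16782000) (b (l 16781240) (l 315311008455)))))))))) (a (b (l 16754064) (a (l 16764728) (l 248135083783))) (b (a (b (l 16768392) (a (l 16775760) (a (l 16784216) (b (l 16786968) (l 16804064))))) (c (a (b (a (l 16782176) (l 220284903911)) (a (b (l 16782272) (l 339470205287)) (b (l 341080816471) (l 3)))) (b (a (b (l 258939604391) (l 345912658519)) (b (a (l 339470202455) (l 336248985031)) (l 3))) (l 3))) (a (b (a (l 16785336) (b (l 16787472) (l 268603278535))) (a (b (l 16782360) (a (l 302962976647) (l 325511559911))) (b (l 321753461543)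 (l 3)))) (b (a (b (a (l 16782664) (l 315311005831)) (l 324437817063)) (b (l 329269656423) (l 3))) (l 3))))) (a (a (b (l 16780976) (a (l 300211553191) (l 290078135591))) (b (a (b (l 16784840) (l 282025028663)) (b (c (l 303499890375) (l 301889255655)) (l 340007081975))) (a (b (l 354502593767) (l 3)) (l 3)))) (a (b (a (b (a (l 335712124199) (l 3)) (l 3)) (l 3)) (l 3)) (l 3))))))) (a (l 2) (a (l 2) (a (l 2) (l 3))))), by decide +kernel⟩

def k66_mm_202 : ∃ t, chk3 f_mm_202 t 3 3 1 = true :=
  ⟨(b (a (b (a (b (a (a (l 16810696) (b (l 16774576) (a (b (l 16780432) (a (l 16784232) (l 16803520))) (b (a (l 16784008) (c (l 16802240) (l 260013312247))) (b (a (l 16780736) (a (l 312626651511) (l 326048427271))) (c (l 342691427367) (l 327122169175))))))) (a (c (b (a (b (l 16779368) (l 224579851623)) (b (a (l 16782816) (b (l 16780944) (l 324974681447))) (a (b (l 315311004535) (l 329269654087)) (l 335712109895)))) (a (b (a (b (l 16790968) (l 322827201399)) (l 330880269575)) (l 3)) (l 3))) (b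 (a (b (l 16780952) (a (l 16784208) (b (l 16782248) (l 318532229479)))) (b (a (l 16783824) (b (l 16780928) (l 332490873655))) (a (b (l 326048422407) (l 330343394279)) (l 338396462199)))) (a (b (a (b (l 304573598215) (l 323364070983)) (l 333027751175)) (l 3)) (l 3)))) (b (a (b (a (b (c (l 333027745751) (l 316921617639)) (l 336785850759)) (l 3)) (l 3)) (l 3)) (l 3)))) (a (a (b (a (l 16804408) (b (l 16806240) (b (c (l 264308301559) (l 296520541159)) (a (l 263234571031) (l 325511558007))))) (a (b (a (b (l 16783048) (l 16781208)) (b (l 307794821255) (l 320142847639))) (a (b (l 317995363479) (l 335175238919)) (l 3))) (b (c (l 331954019447) (l 333564626567)) (l 3)))) (c (b (a (b (a (l 268066399175) (l 338396458871)) (l 338396472263)) (b (l 339470213495) (l 3))) (l 3)) (b (a (b (b (l 301889247559) (l 320679716999)) (l 340543950151)) (b (l 342154564791) (l 3))) (l 3)))) (l 3))) (l 3)) (l 3)) (l 3)) (l 3)), by decide +kernel⟩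

theorem s67_mm_202 : ∃ t, chk3 f_mm_202 t 1 3 1 = true := ex3_a k65_mm_202 k66_mm_202

theorem s68_mm_202 : ∃ t, chk3 f_mm_202 t 57 20 1 = true := ex3_b k59_mm_202 k60_mm_202

theorem s69_mm_202 : ∃ t, chk3 f_mm_202 t 28 20 1 = true := ex3_a k58_mm_202 s68_mm_202

theorem s70_mm_202 : ∃ t, chk3 f_mm_202 t 14 20 1 = true := ex3_a s69_mm_202 k61_mm_202

theorem s71_mm_202 : ∃ t, chk3 f_mm_202 t 14 10 1 = true := ex3_b s70_mm_202 k62_mm_202

theorem s72_mm_202 : ∃ t, chk3 f_mm_202 t 7 10 1 = true := ex3_a s71_mm_202 k63_mm_202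

theorem s73_mm_202 : ∃ t, chk3 f_mm_202 t 7 5 1 = true := ex3_b s72_mm_202 k64_mm_202

theorem s74_mm_202 : ∃ t, chk3 f_mm_202 t 13 11 1 = true := ex3_b k56_mm_202 k57_mm_202

theorem s75_mm_202 : ∃ t, chk3 f_mm_202 t 6 11 1 = true := ex3_a k55_mm_202 s74_mm_202

theorem s76_mm_202 : ∃ t, chk3 f_mm_202 t 27 10 1 = true := ex3_b k53_mm_202 k54_mm_202

theorem s77_mm_202 : ∃ t, chk3 f_mm_202 t 13 10 1 = true := ex3_a k52_mm_202 s76_mm_202

theorem s78_mm_202 : ∃ t, chk3 f_mm_202 t 6 10 1 = true := ex3_a k51_mm_202 s77_mm_202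

theorem s79_mm_202 : ∃ t, chk3 f_mm_202 t 6 5 1 = true := ex3_b s78_mm_202 s75_mm_202

theorem s80_mm_202 : ∃ t, chk3 f_mm_202 t 3 5 1 = true := ex3_a s79_mm_202 s73_mm_202

theorem s81_mm_202 : ∃ t, chk3 f_mm_202 t 243 72 1 = true := ex3_b k44_mm_202 k45_mm_202

theorem s82_mm_202 : ∃ t, chk3 f_mm_202 t 121 72 1 = true := ex3_a k43_mm_202 s81_mm_202

theorem s83_mm_202 : ∃ t, chk3 f_mm_202 t 121 36 1 = true := ex3_b s82_mm_202 k46_mm_202

theorem s84_mm_202 : ∃ t, chk3 f_mm_202 t 120 73 1 = true := ex3_a k41_mm_202 k42_mm_202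

theorem s85_mm_202 : ∃ t, chk3 f_mm_202 t 120 36 1 = true := ex3_b k40_mm_202 s84_mm_202

theorem s86_mm_202 : ∃ t, chk3 f_mm_202 t 60 36 1 = true := ex3_a s85_mm_202 s83_mm_202

theorem s87_mm_202 : ∃ t, chk3 f_mm_202 t 60 18 1 = true := ex3_b s86_mm_202 k47_mm_202

theorem s88_mm_202 : ∃ t, chk3 f_mm_202 t 30 18 1 = true := ex3_a s87_mm_202 k48_mm_202

theorem s89_mm_202 : ∃ t, chk3 f_mm_202 t 15 18 1 = true := ex3_a s88_mm_202 k49_mm_202

theorem s90_mm_202 : ∃ t, chk3 f_mm_202 t 15 9 1 = true := ex3_b s89_mm_202 k50_mm_202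

theorem s91_mm_202 : ∃ t, chk3 f_mm_202 t 118 38 1 = true := ex3_b k36_mm_202 k37_mm_202

theorem s92_mm_202 : ∃ t, chk3 f_mm_202 t 59 38 1 = true := ex3_a s91_mm_202 k38_mm_202

theorem s93_mm_202 : ∃ t, chk3 f_mm_202 t 59 19 1 = true := ex3_b s92_mm_202 k39_mm_202

theorem s94_mm_202 : ∃ t, chk3 f_mm_202 t 58 39 1 = true := ex3_a k34_mm_202 k35_mm_202

theorem s95_mm_202 : ∃ t, chk3 f_mm_202 t 58 19 1 = true := ex3_b k33_mm_202 s94_mm_202

theorem s96_mm_202 : ∃ t, chk3 f_mm_202 t 29 19 1 = true := ex3_a s95_mm_202 s93_mm_202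

theorem s97_mm_202 : ∃ t, chk3 f_mm_202 t 14 19 1 = true := ex3_a k32_mm_202 s96_mm_202

theorem s98_mm_202 : ∃ t, chk3 f_mm_202 t 119 37 1 = true := ex3_b k30_mm_202 k31_mm_202

theorem s99_mm_202 : ∃ t, chk3 f_mm_202 t 59 37 1 = true := ex3_a k29_mm_202 s98_mm_202

theorem s100_mm_202 : ∃ t, chk3 f_mm_202 t 59 18 1 = true := ex3_b k28_mm_202 s99_mm_202

theorem s101_mm_202 : ∃ t, chk3 f_mm_202 t 29 18 1 = true := ex3_a k27_mm_202 s100_mm_202

theorem s102_mm_202 : ∃ t, chk3 f_mm_202 t 14 18 1 = true := ex3_a k26_mm_202 s101_mm_202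

theorem s103_mm_202 : ∃ t, chk3 f_mm_202 t 14 9 1 = true := ex3_b s102_mm_202 s97_mm_202

theorem s104_mm_202 : ∃ t, chk3 f_mm_202 t 7 9 1 = true := ex3_a s103_mm_202 s90_mm_202

theorem s105_mm_202 : ∃ t, chk3 f_mm_202 t 246 140 1 = true := ex3_a k20_mm_202 k21_mm_202

theorem s106_mm_202 : ∃ t, chk3 f_mm_202 t 246 70 1 = true := ex3_b s105_mm_202 k22_mm_202

theorem s107_mm_202 : ∃ t, chk3 f_mm_202 t 123 70 1 = true := ex3_a s106_mm_202 k23_mm_202

theorem s108_mm_202 : ∃ t, chk3 f_mm_202 t 123 35 1 = true := ex3_b s107_mm_202 k24_mm_202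

theorem s109_mm_202 : ∃ t, chk3 f_mm_202 t 244 71 1 = true := ex3_b k17_mm_202 k18_mm_202

theorem s110_mm_202 : ∃ t, chk3 f_mm_202 t 122 71 1 = true := ex3_a s109_mm_202 k19_mm_202

theorem s111_mm_202 : ∃ t, chk3 f_mm_202 t 245 141 1 = true := ex3_a k15_mm_202 k16_mm_202

theorem s112_mm_202 : ∃ t, chk3 f_mm_202 t 245 70 1 = true := ex3_b k14_mm_202 s111_mm_202

theorem s113_mm_202 : ∃ t, chk3 f_mm_202 t 122 70 1 = true := ex3_a k13_mm_202 s112_mm_202

theorem s114_mm_202 : ∃ t, chk3 f_mm_202 t 122 35 1 = true := ex3_b s113_mm_202 s110_mm_202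

theorem s115_mm_202 : ∃ t, chk3 f_mm_202 t 61 35 1 = true := ex3_a s114_mm_202 s108_mm_202

theorem s116_mm_202 : ∃ t, chk3 f_mm_202 t 30 35 1 = true := ex3_a k12_mm_202 s115_mm_202

theorem s117_mm_202 : ∃ t, chk3 f_mm_202 t 494 139 1 = true := ex3_b k9_mm_202 k10_mm_202

theorem s118_mm_202 : ∃ t, chk3 f_mm_202 t 247 139 1 = true := ex3_a s117_mm_202 k11_mm_202

theorem s119_mm_202 : ∃ t, chk3 f_mm_202 t 247 69 1 = true := ex3_b k8_mm_202 s118_mm_202

theorem s120_mm_202 : ∃ t, chk3 f_mm_202 t 123 69 1 = true := ex3_a k7_mm_202 s119_mm_202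

theorem s121_mm_202 : ∃ t, chk3 f_mm_202 t 123 34 1 = true := ex3_b k6_mm_202 s120_mm_202

theorem s122_mm_202 : ∃ t, chk3 f_mm_202 t 61 34 1 = true := ex3_a k5_mm_202 s121_mm_202

theorem s123_mm_202 : ∃ t, chk3 f_mm_202 t 30 34 1 = true := ex3_a k4_mm_202 s122_mm_202

theorem s124_mm_202 : ∃ t, chk3 f_mm_202 t 30 17 1 = true := ex3_b s123_mm_202 s116_mm_202

theorem s125_mm_202 : ∃ t, chk3 f_mm_202 t 15 17 1 = true := ex3_a s124_mm_202 k25_mm_202

theorem s126_mm_202 : ∃ t, chk3 f_mm_202 t 15 8 1 = true := ex3_b k3_mm_202 s125_mm_202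

theorem s127_mm_202 : ∃ t, chk3 f_mm_202 t 7 8 1 = true := ex3_a k2_mm_202 s126_mm_202

theorem s128_mm_202 : ∃ t, chk3 f_mm_202 t 7 4 1 = true := ex3_b s127_mm_202 s104_mm_202

theorem s129_mm_202 : ∃ t, chk3 f_mm_202 t 3 4 1 = true := ex3_a k1_mm_202 s128_mm_202

theorem s130_mm_202 : ∃ t, chk3 f_mm_202 t 3 2 1 = true := ex3_b s129_mm_202 s80_mm_202

theorem s131_mm_202 : ∃ t, chk3 f_mm_202 t 1 2 1 = true := ex3_a k0_mm_202 s130_mm_202

theorem s132_mm_202 : ∃ t, chk3 f_mm_202 t 1 1 1 = true := ex3_b s131_mm_202 s67_mm_202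

theorem c_mm_202 : CertN 0 536870912 1073741824 536870912 402653184 67108864 3 false false false .pp 2 0 2
    ndN0q2 ndN4q2 pcN0 cut_mm_202 Ext.none :=
  certN1 (fam := false) (s1 := false) (s2 := false) (a := 2) (b := 0) (c := 2) (cn := .pp) (n1 := ndN0q2) (n2 := ndN4q2) (pc := pcN0) (cut := cut_mm_202) (xt := Ext.none) (P1 := 0) (W1 := 536870912) (P2 := 1073741824) (W2 := 536870912) (P3 := 402653184) (W3 := 67108864) (N0 := 3)
    rfl (fun _ => rfl) s132_mm_202

noncomputable def f_mm_203 : ℕ → ℕ → ℕ → ℕ → Bool := onCell 0 536870912 0 1230186008 402653184 67108864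
    (rowN 3 0 false false false .up 2 0 3 (qsf 0 536870912 0 1230186008 0) ndN0q2 ndN4q3 pcN0 Cut.none Ext.none)

def k0_mm_203 : ∃ t, chk3 f_mm_203 t 1 2 1 = true :=
  ⟨(l 2), by decide +kernel⟩

def k1_mm_203 : ∃ t, chk3 f_mm_203 t 1 6 1 = true :=
  ⟨(l 2), by decide +kernel⟩

def k2_mm_203 : ∃ t, chk3 f_mm_203 t 2 7 1 = true :=
  ⟨(b (a (b (l 2) (b (l 2) (a (b (l 284105445431) (l 16791192)) (a (a (b (a (l 313096469015) (b (l 2) (l 218674278343))) (l 16793952)) (b (a (b (l 2) (l 249275919687)) (l 3)) (a (b (l 222432374935) (l 16798264)) (b (l 253034015367) (a (l 211694956391) (l 232632922215)))))) (l 3))))) (l 3)) (a (b (a (b (l 16787464) (l 16781288)) (b (a (b (a (l 16786216) (b (a (l 16794928) (l 16798584)) (l 16792656))) (l 16782000)) (b (a (a (b (a (l 225116750295) (l 235317297479)) (b (l 219211148359) (l 16798016))) (b (l 3) (b (l 247665307207) (a (l 232632921543) (l 246591565447))))) (l 3)) (a (a (l 16791328) (b (b (l 225116747991) (l 16796920)) (l 16793400))) (a (b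 (a (l 251960293511) (l 3)) (a (l 217600552471) (l 246591560071))) (b (l 3) (l 271287620983)))))) (a (l 16776528) (b (a (l 16779064) (a (l 16810320) (b (l 240685987239) (l 16791384)))) (l 16795800))))) (b (a (l 16773144) (a (l 16770440) (l 16790968))) (l 16805240))) (b (a (b (l 3) (a (b (a (a (b (l 276656325271) (l 243907199207)) (l 3)) (l 3)) (b (a (a (l 212768697911) (l 255181484855)) (l 3)) (a (l 202568167159) (a (l 264308286167) (l 3))))) (l 3))) (l 3)) (a (b (a (b (a (l 16794496) (b (a (l 217063642327) (l 280414450071)) (a (l 16781568) (l 232632896231)))) (l 16802048)) (a (b (a (b (l 3) (l 281488142343)) (l 3)) (a (b (a (l 227801072887) (l 264845147399)) (l 16779552)) (b (l 298131128327) (a (l 250886543559) (l 263771399751))))) (l 3))) (a (l 16767280) (a (b (b (l 16794304) (l 16771280)) (l 16770384)) (b (a (b (l 277193169207) (l 16798592)) (b (l 3) (l 294909904007))) (b (l 204715641719) (l 16773928)))))) (b (l 3) (a (a (b (l 3) (b (l 335712113415) (a (l 243907214087) (l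 339470210823)))) (l 3)) (l 3))))))), by decide +kernel⟩

def k3_mm_203 : ∃ t, chk3 f_mm_203 t 3 7 1 = true :=
  ⟨(l 3), by decide +kernel⟩

theorem s4_mm_203 : ∃ t, chk3 f_mm_203 t 1 7 1 = true := ex3_a k2_mm_203 k3_mm_203

theorem s5_mm_203 : ∃ t, chk3 f_mm_203 t 1 3 1 = true := ex3_b k1_mm_203 s4_mm_203

theorem s6_mm_203 : ∃ t, chk3 f_mm_203 t 1 1 1 = true := ex3_b k0_mm_203 s5_mm_203

theorem c_mm_203 : CertN 0 536870912 0 1230186008 402653184 67108864 3 false false false .up 2 0 3
    ndN0q2 ndN4q3 pcN0 Cut.none Ext.none :=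
  certN0 (fam := false) (s1 := false) (s2 := false) (a := 2) (b := 0) (c := 3) (cn := .up) (n1 := ndN0q2) (n2 := ndN4q3) (pc := pcN0) (cut := Cut.none) (xt := Ext.none) (P1 := 0) (W1 := 536870912) (P2 := 0) (W2 := 1230186008) (P3 := 402653184) (W3 := 67108864) (N0 := 3)
    rfl s6_mm_203

noncomputable def f_mm_213 : ℕ → ℕ → ℕ → ℕ → Bool := onCell 0 536870912 0 1230186008 402653184 67108864
    (rowN 3 0 false false false .pnn 2 1 3 (qsf 0 536870912 0 1230186008 1) ndN0q2 ndN4q3 pcN1 Cut.none Ext.none)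

def k0_mm_213 : ∃ t, chk3 f_mm_213 t 1 1 1 = true :=
  ⟨(b (a (l 3) (b (l 5) (l 3))) (b (a (b (l 3) (a (l 3) (l 3))) (l 3)) (a (b (a (b (a (a (b (a (b (a (l 238538499287) (l 3)) (a (l 16799968) (l 223506116551))) (b (l 3) (a (l 253570882791) (l 3)))) (a (b (l 16798096) (l 16798072)) (b (b (l 236391017831) (l 215989924743)) (l 16798728)))) (b (l 3) (a (b (a (l 264845169127) (l 3)) (b (l 246591563703) (l 224042988263))) (l 3)))) (l 3)) (a (b (a (l 16796944) (a (b (a (l 16798024) (l 204715676999)) (l 16794168)) (b (b (l 256792108727) (a (l 220821762647) (l 252497143511))) (a (l 16798480) (b (l 225653600711) (l 16799552)))))) (a (l 16794992) (b (l 16791936) (l 1)))) (a (b (a (b (l 3) (a (b (l 3) (l 229948567767)) (l 3))) (l 3)) (b (a (a (b (l 204178781671) (l 16797680)) (b (l 234243534663) (l 217600536679))) (a (b (l 3) (l 247128436007)) (l 3))) (l 1))) (b (l 3) (l 3))))) (l 3)) (b (a (l 1) (a (l 1) (l 3))) (l 1))) (l 3)))), by decide +kernel⟩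

theorem c_mm_213 : CertN 0 536870912 0 1230186008 402653184 67108864 3 false false false .pnn 2 1 3
    ndN0q2 ndN4q3 pcN1 Cut.none Ext.none :=
  certN0 (fam := false) (s1 := false) (s2 := false) (a := 2) (b := 1) (c := 3) (cn := .pnn) (n1 := ndN0q2) (n2 := ndN4q3) (pc := pcN1) (cut := Cut.none) (xt := Ext.none) (P1 := 0) (W1 := 536870912) (P2 := 0) (W2 := 1230186008) (P3 := 402653184) (W3 := 67108864) (N0 := 3)
    rfl k0_mm_213

end Pool.Agent.Strip051.G.I3_8_7_16.Tab.C.NB04

namespace Pool.Agent.Strip051.G.I3_8_7_16.Tab.C.NB10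

open Pool.Agent.Strip051.PB Pool.Agent.Strip051.PB.T
open Pool.Agent.Strip051.G.I3_8_7_16.Tab

noncomputable def f_pp_001 : ℕ → ℕ → ℕ → ℕ → Bool := onCell 0 536870912 0 536870912 402653184 67108864
    (rowN 3 1 false true true .up 0 0 1 (qsf 0 536870912 536870912 536870912 0) ndN1q0 ndN0q1 pcN0 Cut.none Ext.none)

def k0_pp_001 : ∃ t, chk3 f_pp_001 t 1 1 1 = true :=
  ⟨(l 3), by decide +kernel⟩

theorem c_pp_001 : CertN 0 536870912 536870912 536870912 402653184 67108864 3 false true true .up 0 0 1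
    ndN1q0 ndN0q1 pcN0 Cut.none Ext.none :=
  certN1 (fam := false) (s1 := true) (s2 := true) (a := 0) (b := 0) (c := 1) (cn := .up) (n1 := ndN1q0) (n2 := ndN0q1) (pc := pcN0) (cut := Cut.none) (xt := Ext.none) (P1 := 0) (W1 := 536870912) (P2 := 536870912) (W2 := 536870912) (P3 := 402653184) (W3 := 67108864) (N0 := 3)
    rfl (fun _ => rfl) k0_pp_001

noncomputable def cut_pp_011 : Cut := Cut.of [[⟨0, 0, 0, 67108864⟩, ⟨1, 1, 0, 67108864⟩, ⟨2, 1, 0, 67108864⟩]]

noncomputable def f_pp_011 : ℕ → ℕ → ℕ → ℕ → Bool := onCell 0 536870912 536870912 536870912 402653184 67108864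
    (rowN 3 0 false true true .pnn 0 1 1 (qsf 0 536870912 536870912 536870912 1) ndN1q0 ndN0q1 pcN1 cut_pp_011 Ext.none)

def k0_pp_011 : ∃ t, chk3 f_pp_011 t 1 1 1 = true :=
  ⟨(a (b (l 3) (b (l 3) (a (b (l 3) (a (b (l 3) (b (l 3) (a (l 6) (l 3)))) (l 3))) (l 3)))) (l 3)), by decide +kernel⟩

theorem c_pp_011 : CertN 0 536870912 536870912 536870912 402653184 67108864 3 false true true .pnn 0 1 1
    ndN1q0 ndN0q1 pcN1 cut_pp_011 Ext.none :=
  certN0 (fam := false) (s1 := true) (s2 := true) (a := 0) (b := 1) (c := 1) (cn := .pnn) (n1 := ndN1q0) (n2 := ndN0q1) (pc := pcN1) (cut := cut_pp_011) (xt := Ext.none) (P1 := 0) (W1 := 536870912) (P2 := 536870912) (W2 := 536870912) (P3 := 402653184) (W3 := 67108864) (N0 := 3)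
    rfl k0_pp_011

noncomputable def cut_pp_012 : Cut := Cut.of [[⟨0, 0, 0, 67108864⟩, ⟨1, 1, 0, 67108864⟩, ⟨2, 1, 0, 67108864⟩]]

noncomputable def f_pp_012 : ℕ → ℕ → ℕ → ℕ → Bool := onCell 536870912 536870912 0 536870912 402653184 67108864
    (rowN 3 2 false true true .pnp 0 1 2 (qsf 0 536870912 0 536870912 1) ndN1q0 ndN0q2 pcN1 cut_pp_012 Ext.none)

def k0_pp_012 : ∃ t, chk3 f_pp_012 t 1 1 1 = true :=
  ⟨(a (b (a (a (l 2) (b (l 2) (b (l 2) (l 155257085575)))) (a (b (b (l 17058616) (l 16915112)) (b (l 16908208) (l 16918984))) (b (l 16967560) (l 16933720)))) (a (b (a (l 2) (b (a (l 2) (b (l 16976352) (l 124185514727))) (l 3))) (l 3)) (b (a (b (a (l 16961744) (l 16936408)) (a (l 236391484983) (b (l 16971896) (l 3)))) (b (l 16897112) (a (l 104858014503) (l 16930424)))) (a (l 3) (b (l 176261970391) (l 3)))))) (b (a (b (a (b (l 16971600) (l 16906344)) (b (l 16868048) (l 16870280))) (a (l 16838176) (l 16831696))) (b (a (b (l 16761392) (l 16727424)) (b (l 16520648) (l 16558096)))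 (a (l 16776272) (b (l 16566000) (l 16740256))))) (a (b (a (b (l 16841472) (l 16947864)) (b (l 16792848) (l 16842008))) (b (a (b (l 17046968) (l 189146673831)) (b (l 16875552) (a (l 167671840663) (l 16928808)))) (a (l 3) (b (a (l 3) (l 183240989191)) (l 3))))) (b (a (a (l 16859360) (b (l 16692888) (l 16752656))) (a (b (l 16677096) (l 16727248)) (b (l 16702040) (a (l 16708568) (l 16696248))))) (a (a (b (b (l 16808624) (l 16877120)) (b (b (l 16919176) (l 177872230647)) (l 3))) (a (b (l 16778144) (b (l 127406422871) (l 3))) (b (l 16765760) (b (l 16864400) (l 163376671111))))) (b (a (b (l 16781520) (l 16844560)) (b (a (l 16738176) (l 16723648)) (a (l 16757472) (a (l 16745488) (l 16737632))))) (b (a (a (l 16826712) (l 16831224)) (a (b (l 16771888) (l 6)) (l 6))) (a (a (b (l 148881151319) (l 3)) (a (l 144049276999) (l 6))) (l 6))))))))), by decide +kernel⟩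

theorem c_pp_012 : CertN 0 536870912 0 536870912 402653184 67108864 3 false true true .pnp 0 1 2
    ndN1q0 ndN0q2 pcN1 cut_pp_012 Ext.none :=
  certN2 (fam := false) (s1 := true) (s2 := true) (a := 0) (b := 1) (c := 2) (cn := .pnp) (n1 := ndN1q0) (n2 := ndN0q2) (pc := pcN1) (cut := cut_pp_012) (xt := Ext.none) (P1 := 0) (W1 := 536870912) (P2 := 0) (W2 := 536870912) (P3 := 402653184) (W3 := 67108864) (N0 := 3)
    rfl (fun _ => rfl) k0_pp_012

noncomputable def cut_pp_022 : Cut := Cut.of [[⟨0, 0, 0, 67108864⟩, ⟨1, 1, 0, 67108864⟩, ⟨2, 1, 0, 67108864⟩]]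

noncomputable def f_pp_022 : ℕ → ℕ → ℕ → ℕ → Bool := onCell 0 536870912 0 536870912 402653184 67108864
    (rowN 3 0 false true true .pp 0 2 2 (qsf 0 536870912 0 536870912 2) ndN1q0 ndN0q2 pcN2 cut_pp_022 Ext.none)

def k0_pp_022 : ∃ t, chk3 f_pp_022 t 1 1 1 = true :=
  ⟨(b (a (b (a (a (b (a (b (l 16443040) (l 16450272)) (l 16461368)) (a (l 16457312) (l 16503560))) (b (l 16483664) (b (l 16505552) (l 16520416)))) (b (l 16665584) (a (l 16589712) (l 1)))) (b (a (a (a (l 16492640) (l 16505072)) (l 16548304)) (a (l 16596344) (l 1))) (a (a (a (a (l 16547104) (l 16508120)) (l 16538912)) (a (l 16575848) (l 16608952))) (a (l 170758581735) (l 1))))) (l 1)) (a (b (a (a (b (a (b (l 16627768) (a (l 16616512) (l 16574408))) (l 16580768)) (b (a (a (a (b (l 16598520) (l 16615328)) (l 16607624)) (l 16608160)) (l 16617712)) (a (a (a (a (b (b (l 16627936) (l 16641808)) (b (l 16643216) (l 16647976))) (b (l 16632880) (l 16647464))) (b (l 16633624) (l 16649568))) (b (l 16634720) (l 16652248))) (l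 16646632)))) (b (a (b (l 16610808) (l 16636464)) (l 16662432)) (a (b (l 16664368) (a (l 16683472) (l 16706280))) (b (l 16706152) (l 1))))) (l 1)) (a (b (a (b (a (a (a (b (b (l 16654160) (l 16659704)) (b (l 16665592) (l 6))) (l 16687888)) (l 16735600)) (a (l 16699080) (l 16694120))) (a (l 6) (a (l 6) (b (l 16725816) (l 16789896))))) (b (a (a (l 261489525319) (l 1)) (l 1)) (l 1))) (a (a (l 6) (a (l 6) (l 1))) (l 1))) (l 1))) (l 1))), by decide +kernel⟩

theorem c_pp_022 : CertN 0 536870912 0 536870912 402653184 67108864 3 false true true .pp 0 2 2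
    ndN1q0 ndN0q2 pcN2 cut_pp_022 Ext.none :=
  certN0 (fam := false) (s1 := true) (s2 := true) (a := 0) (b := 2) (c := 2) (cn := .pp) (n1 := ndN1q0) (n2 := ndN0q2) (pc := pcN2) (cut := cut_pp_022) (xt := Ext.none) (P1 := 0) (W1 := 536870912) (P2 := 0) (W2 := 536870912) (P3 := 402653184) (W3 := 67108864) (N0 := 3)
    rfl k0_pp_022

noncomputable def f_pp_101 : ℕ → ℕ → ℕ → ℕ → Bool := onCell 536870912 536870912 536870912 536870912 402653184 67108864
    (rowN 3 0 false true true .npn 1 0 1 (qsf 536870912 536870912 536870912 536870912 0) ndN1q1 ndN0q1 pcN0 Cut.none Ext.none)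

def k0_pp_101 : ∃ t, chk3 f_pp_101 t 1 1 1 = true :=
  ⟨(l 3), by decide +kernel⟩

theorem c_pp_101 : CertN 536870912 536870912 536870912 536870912 402653184 67108864 3 false true true .npn 1 0 1
    ndN1q1 ndN0q1 pcN0 Cut.none Ext.none :=
  certN0 (fam := false) (s1 := true) (s2 := true) (a := 1) (b := 0) (c := 1) (cn := .npn) (n1 := ndN1q1) (n2 := ndN0q1) (pc := pcN0) (cut := Cut.none) (xt := Ext.none) (P1 := 536870912) (W1 := 536870912) (P2 := 536870912) (W2 := 536870912) (P3 := 402653184) (W3 := 67108864) (N0 := 3)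
    rfl k0_pp_101

noncomputable def f_pp_102 : ℕ → ℕ → ℕ → ℕ → Bool := onCell 0 536870912 0 536870912 402653184 67108864
    (rowN 3 2 false true true .npp 1 0 2 (qsf 536870912 536870912 0 536870912 0) ndN1q1 ndN0q2 pcN0 Cut.none Ext.none)

def k0_pp_102 : ∃ t, chk3 f_pp_102 t 1 1 1 = true :=
  ⟨(a (b (b (a (l 2) (a (b (a (b (a (l 2) (l 156396757303)) (l 3)) (b (a (l 154249377831) (l 16611880)) (b (l 156933779783) (l 3)))) (l 3)) (b (a (b (l 16665872) (b (l 137606493383) (l 160692006839))) (b (l 16739288) (l 16760160))) (a (l 3) (b (b (l 149417884791) (l 161765934583)) (l 3)))))) (l 3)) (l 3)) (b (a (b (a (b (a (l 16820520) (l 16886632)) (b (a (a (l 148881059543) (l 16864656)) (l 16909360)) (a (b (l 162839831927) (l 3)) (b (l 16902824) (l 163913713207))))) (b (l 16969664) (a (b (l 16962656) (l 16979528)) (l 17018448)))) (b (a (b (a (l 3) (b (l 167134957431) (l 3))) (l 3)) (b (a (b (l 162840092311) (l 176261885335)) (l 140828377255)) (a (l 3) (b (l 166061456823) (l 3))))) (l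 3))) (b (a (b (l 16974328) (l 16987784)) (l 17209928)) (a (b (b (a (l 17089424) (l 17046160)) (a (a (l 161766572487) (l 148344828983)) (b (l 17066392) (l 17079544)))) (b (a (b (l 181093969783) (l 3)) (a (l 169282756807) (a (l 157471579767) (l 154250332823)))) (l 3))) (b (a (l 17023680) (l 17000472)) (b (a (b (l 17053816) (a (l 152639704599) (l 125259219255))) (a (l 17038896) (l 17025552))) (a (b (a (l 3) (b (l 151565949559) (l 3))) (l 3)) (b (a (c (l 143512922967) (l 145660297271)) (l 17041760)) (a (l 3) (l 198810561015))))))))) (a (l 3) (l 3)))), by decide +kernel⟩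

theorem c_pp_102 : CertN 536870912 536870912 0 536870912 402653184 67108864 3 false true true .npp 1 0 2
    ndN1q1 ndN0q2 pcN0 Cut.none Ext.none :=
  certN2 (fam := false) (s1 := true) (s2 := true) (a := 1) (b := 0) (c := 2) (cn := .npp) (n1 := ndN1q1) (n2 := ndN0q2) (pc := pcN0) (cut := Cut.none) (xt := Ext.none) (P1 := 536870912) (W1 := 536870912) (P2 := 0) (W2 := 536870912) (P3 := 402653184) (W3 := 67108864) (N0 := 3)
    rfl (fun _ => rfl) k0_pp_102

noncomputable def f_pp_112 : ℕ → ℕ → ℕ → ℕ → Bool := onCell 536870912 536870912 0 536870912 402653184 67108864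
    (rowN 3 2 false true true .dn 1 1 2 (qsf 536870912 536870912 0 536870912 1) ndN1q1 ndN0q2 pcN1 Cut.none Ext.none)

def k0_pp_112 : ∃ t, chk3 f_pp_112 t 1 1 1 = true :=
  ⟨(a (b (a (a (b (l 16954632) (b (l 16996936) (a (b (l 17008392) (a (l 131701659655) (l 17021400))) (l 16995672)))) (b (l 17094264) (a (l 16963120) (l 16944656)))) (a (b (b (l 17063456) (l 16919112)) (b (l 16910640) (l 16919480))) (l 1))) (a (b (b (b (a (a (a (l 227264725223) (l 164450801367)) (b (l 138680993351) (l 196126157415))) (a (l 16999272) (l 16976056))) (a (l 3) (a (l 215990365447) (l 128480486487)))) (l 3)) (l 3)) (b (l 1) (l 1)))) (l 1)), by decide +kernel⟩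

theorem c_pp_112 : CertN 536870912 536870912 0 536870912 402653184 67108864 3 false true true .dn 1 1 2
    ndN1q1 ndN0q2 pcN1 Cut.none Ext.none :=
  certN2 (fam := false) (s1 := true) (s2 := true) (a := 1) (b := 1) (c := 2) (cn := .dn) (n1 := ndN1q1) (n2 := ndN0q2) (pc := pcN1) (cut := Cut.none) (xt := Ext.none) (P1 := 536870912) (W1 := 536870912) (P2 := 0) (W2 := 536870912) (P3 := 402653184) (W3 := 67108864) (N0 := 3)
    rfl (fun _ => rfl) k0_pp_112

noncomputable def f_pp_202_a : ℕ → ℕ → ℕ → ℕ → Bool := onCell 0 536870912 0 536870912 402653184 67108864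
    (rowN 3 0 false true true .pp 2 0 2 (qsf 0 536870912 0 536870912 0) ndN1q2a ndN0q2 pcN0 Cut.none Ext.none)

def k0_pp_202_a : ∃ t, chk3 f_pp_202_a t 1 1 1 = true :=
  ⟨(l 3), by decide +kernel⟩

theorem c_pp_202_a : CertN 0 536870912 0 536870912 402653184 67108864 3 false true true .pp 2 0 2
    ndN1q2a ndN0q2 pcN0 Cut.none Ext.none :=
  certN0 (fam := false) (s1 := true) (s2 := true) (a := 2) (b := 0) (c := 2) (cn := .pp) (n1 := ndN1q2a) (n2 := ndN0q2) (pc := pcN0) (cut := Cut.none) (xt := Ext.none) (P1 := 0) (W1 := 536870912) (P2 := 0) (W2 := 536870912) (P3 := 402653184) (W3 := 67108864) (N0 := 3)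
    rfl k0_pp_202_a

noncomputable def f_pp_202_b : ℕ → ℕ → ℕ → ℕ → Bool := onCell 1239849684 370763052 0 536870912 402653184 67108864
    (rowN 3 0 false true true .pp 2 0 2 (qsf 1239849684 370763052 0 536870912 0) ndN1q2b ndN0q2 pcN0 Cut.none Ext.none)

def k0_pp_202_b : ∃ t, chk3 f_pp_202_b t 1 1 1 = true :=
  ⟨(l 3), by decide +kernel⟩

theorem c_pp_202_b : CertN 1239849684 370763052 0 536870912 402653184 67108864 3 false true true .pp 2 0 2
    ndN1q2b ndN0q2 pcN0 Cut.none Ext.none :=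
  certN0 (fam := false) (s1 := true) (s2 := true) (a := 2) (b := 0) (c := 2) (cn := .pp) (n1 := ndN1q2b) (n2 := ndN0q2) (pc := pcN0) (cut := Cut.none) (xt := Ext.none) (P1 := 1239849684) (W1 := 370763052) (P2 := 0) (W2 := 536870912) (P3 := 402653184) (W3 := 67108864) (N0 := 3)
    rfl k0_pp_202_b

noncomputable def f_pm_001 : ℕ → ℕ → ℕ → ℕ → Bool := onCell 0 536870912 0 536870912 402653184 67108864
    (rowN 3 1 false true false .up 0 0 1 (qsf 0 536870912 536870912 536870912 0) ndN1q0 ndN0q1 pcN0 Cut.none Ext.none)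

def k0_pm_001 : ∃ t, chk3 f_pm_001 t 1 1 1 = true :=
  ⟨(a (l 4) (b (l 4) (b (l 4) (a (l 4) (b (l 4) (a (l 4) (b (l 4) (l 22783264295)))))))), by decide +kernel⟩

theorem c_pm_001 : CertN 0 536870912 536870912 536870912 402653184 67108864 3 false true false .up 0 0 1
    ndN1q0 ndN0q1 pcN0 Cut.none Ext.none :=
  certN1 (fam := false) (s1 := true) (s2 := false) (a := 0) (b := 0) (c := 1) (cn := .up) (n1 := ndN1q0) (n2 := ndN0q1) (pc := pcN0) (cut := Cut.none) (xt := Ext.none) (P1 := 0) (W1 := 536870912) (P2 := 536870912) (W2 := 536870912) (P3 := 402653184) (W3 := 67108864) (N0 := 3)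
    rfl (fun _ => rfl) k0_pm_001

noncomputable def cut_pm_011 : Cut := Cut.of [[⟨0, 0, 0, 67108864⟩, ⟨1, 1, 0, 67108864⟩, ⟨2, 1, 0, 67108864⟩]]

noncomputable def f_pm_011 : ℕ → ℕ → ℕ → ℕ → Bool := onCell 0 536870912 536870912 536870912 402653184 67108864
    (rowN 3 0 false true false .pnn 0 1 1 (qsf 0 536870912 536870912 536870912 1) ndN1q0 ndN0q1 pcN1 cut_pm_011 Ext.none)

def k0_pm_011 : ∃ t, chk3 f_pm_011 t 1 1 1 = true :=
  ⟨(b (l 4) (b (l 4) (b (l 4) (b (a (l 4) (l 4)) (a (a (a (a (b (l 4) (l 6)) (l 4)) (l 4)) (l 4)) (a (a (l 4) (l 16584184)) (a (l 16463744) (l 16533152)))))))), by decide +kernel⟩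

theorem c_pm_011 : CertN 0 536870912 536870912 536870912 402653184 67108864 3 false true false .pnn 0 1 1
    ndN1q0 ndN0q1 pcN1 cut_pm_011 Ext.none :=
  certN0 (fam := false) (s1 := true) (s2 := false) (a := 0) (b := 1) (c := 1) (cn := .pnn) (n1 := ndN1q0) (n2 := ndN0q1) (pc := pcN1) (cut := cut_pm_011) (xt := Ext.none) (P1 := 0) (W1 := 536870912) (P2 := 536870912) (W2 := 536870912) (P3 := 402653184) (W3 := 67108864) (N0 := 3)
    rfl k0_pm_011

noncomputable def cut_pm_012 : Cut := Cut.of [[⟨0, 0, 0, 67108864⟩, ⟨1, 1, 0, 67108864⟩, ⟨2, 1, 0, 67108864⟩]]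

noncomputable def f_pm_012 : ℕ → ℕ → ℕ → ℕ → Bool := onCell 536870912 536870912 0 536870912 402653184 67108864
    (rowN 3 2 false true false .pnp 0 1 2 (qsf 0 536870912 0 536870912 1) ndN1q0 ndN0q2 pcN1 cut_pm_012 Ext.none)

def k0_pm_012 : ∃ t, chk3 f_pm_012 t 1 1 1 = true :=
  ⟨(a (a (a (b (l 2) (b (l 2) (b (a (l 2) (l 16598256)) (l 16523360)))) (b (b (l 2) (l 16909928)) (b (a (b (l 2) (l 16627128)) (l 16606464)) (b (l 16439528) (l 16418064))))) (b (b (a (l 16959656) (l 17000864)) (a (l 16808560) (l 16677344))) (a (b (b (l 16542912) (l 16570920)) (b (b (l 16379216) (l 16410592)) (l 16468960))) (b (b (l 16373696) (l 16366736)) (b (b (l 16417120) (l 16445192)) (b (l 16490248) (l 16535384))))))) (b (a (b (a (l 16971576) (l 16695904)) (a (l 16569560) (l 16501592))) (b (a (l 16575344) (l 16537360)) (a (l 16456872) (b (l 16419360) (l 16423608))))) (a (b (a (b (l 16357384) (l 16409776)) (l 16560152)) (a (b (b (l 16465432) (l 16487600)) (b (l 16529288) (l 16554248))) (a (b (l 16509688)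 (l 16632864)) (b (l 16554832) (l 16700968))))) (b (a (b (l 16418096) (l 16454856)) (a (l 16563032) (b (l 16452552) (l 16526120)))) (b (a (a (l 16581720) (l 16549704)) (a (l 16609112) (b (l 16564832) (a (l 16607416) (l 16619448))))) (a (a (a (l 16694704) (l 16750120)) (b (l 16684176) (l 16763440))) (b (a (a (l 16661080) (l 16683072)) (a (l 16683328) (l 6))) (a (a (l 16754848) (a (l 16764984) (l 6))) (l 6))))))))), by decide +kernel⟩

theorem c_pm_012 : CertN 0 536870912 0 536870912 402653184 67108864 3 false true false .pnp 0 1 2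
    ndN1q0 ndN0q2 pcN1 cut_pm_012 Ext.none :=
  certN2 (fam := false) (s1 := true) (s2 := false) (a := 0) (b := 1) (c := 2) (cn := .pnp) (n1 := ndN1q0) (n2 := ndN0q2) (pc := pcN1) (cut := cut_pm_012) (xt := Ext.none) (P1 := 0) (W1 := 536870912) (P2 := 0) (W2 := 536870912) (P3 := 402653184) (W3 := 67108864) (N0 := 3)
    rfl (fun _ => rfl) k0_pm_012

noncomputable def cut_pm_022 : Cut := Cut.of [[⟨0, 0, 0, 67108864⟩, ⟨1, 1, 0, 67108864⟩, ⟨2, 1, 0, 67108864⟩]]

noncomputable def f_pm_022 : ℕ → ℕ → ℕ → ℕ → Bool := onCell 0 536870912 0 536870912 402653184 67108864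
    (rowN 3 0 false true false .pp 0 2 2 (qsf 0 536870912 0 536870912 2) ndN1q0 ndN0q2 pcN2 cut_pm_022 Ext.none)

def k0_pm_022 : ∃ t, chk3 f_pm_022 t 1 1 1 = true :=
  ⟨(a (b (a (b (a (b (l 16482760) (a (l 16461872) (l 16438336))) (b (l 16462424) (l 16448696))) (a (a (b (l 16556248) (b (l 16542472) (l 16604736))) (b (l 16443896) (l 16477544))) (b (l 16444160) (l 16473128)))) (a (a (b (l 16485704) (l 16442976)) (b (l 16468848) (l 1))) (l 1))) (a (b (b (a (a (a (a (b (l 16554776) (l 16576784)) (l 16620040)) (l 16606192)) (l 16535256)) (l 16598384)) (a (a (a (b (a (l 16636448) (l 16589992)) (a (b (l 16617832) (l 16651528)) (l 16614000))) (b (l 16574976) (l 16640184))) (b (l 16543528) (l 16565232))) (a (l 16591968) (l 16492104)))) (a (a (b (b (a (a (a (b (l 16646480) (l 16681504)) (l 16669208)) (l 16682136)) (l 16623736)) (l 6)) (l 6)) (a (b (b (l 16601024) (l 6)) (l 6)) (b (b (l 16587680) (l 16603864)) (l 1)))) (b (b (a (l 16574040) (l 1)) (l 1)) (l 1)))) (b (l 1) (l 1)))) (l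 1)), by decide +kernel⟩

theorem c_pm_022 : CertN 0 536870912 0 536870912 402653184 67108864 3 false true false .pp 0 2 2
    ndN1q0 ndN0q2 pcN2 cut_pm_022 Ext.none :=
  certN0 (fam := false) (s1 := true) (s2 := false) (a := 0) (b := 2) (c := 2) (cn := .pp) (n1 := ndN1q0) (n2 := ndN0q2) (pc := pcN2) (cut := cut_pm_022) (xt := Ext.none) (P1 := 0) (W1 := 536870912) (P2 := 0) (W2 := 536870912) (P3 := 402653184) (W3 := 67108864) (N0 := 3)
    rfl k0_pm_022

noncomputable def f_pm_101 : ℕ → ℕ → ℕ → ℕ → Bool := onCell 0 536870912 536870912 536870912 402653184 67108864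
    (rowN 3 2 false true false .npn 1 0 1 (qsf 536870912 536870912 536870912 536870912 0) ndN1q1 ndN0q1 pcN0 Cut.none Ext.none)

def k0_pm_101 : ∃ t, chk3 f_pm_101 t 1 1 1 = true :=
  ⟨(b (l 4) (a (a (b (a (b (l 4) (a (l 17096016) (l 4))) (l 4)) (b (a (b (l 17131024) (l 17133680)) (l 17319184)) (a (l 17306432) (l 17053616)))) (b (l 4) (b (a (l 17111736) (l 16958336)) (a (l 17021032) (l 16982760))))) (b (l 4) (a (a (b (l 16920736) (l 16944920)) (b (l 4) (l 16899944))) (b (l 4) (a (l 16830992) (b (l 4) (l 16707384)))))))), by decide +kernel⟩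

theorem c_pm_101 : CertN 536870912 536870912 536870912 536870912 402653184 67108864 3 false true false .npn 1 0 1
    ndN1q1 ndN0q1 pcN0 Cut.none Ext.none :=
  certN2 (fam := false) (s1 := true) (s2 := false) (a := 1) (b := 0) (c := 1) (cn := .npn) (n1 := ndN1q1) (n2 := ndN0q1) (pc := pcN0) (cut := Cut.none) (xt := Ext.none) (P1 := 536870912) (W1 := 536870912) (P2 := 536870912) (W2 := 536870912) (P3 := 402653184) (W3 := 67108864) (N0 := 3)
    rfl (fun _ => rfl) k0_pm_101

noncomputable def f_pm_102 : ℕ → ℕ → ℕ → ℕ → Bool := onCell 536870912 536870912 0 536870912 402653184 67108864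
    (rowN 3 0 false true false .npp 1 0 2 (qsf 536870912 536870912 0 536870912 0) ndN1q1 ndN0q2 pcN0 Cut.none Ext.none)

def k0_pm_102 : ∃ t, chk3 f_pm_102 t 1 1 1 = true :=
  ⟨(a (b (a (b (l 2) (l 17014800)) (b (a (l 16923992) (l 16944672)) (l 16956832))) (b (a (a (l 2) (b (b (l 17064712) (l 17111408)) (l 17044344))) (b (a (l 17040016) (l 16977888)) (l 17178024))) (a (b (b (l 132171761671) (l 16853088)) (a (l 16759656) (l 16859872))) (a (b (l 17090184) (l 16914544)) (b (l 16930744) (l 16944536)))))) (b (a (b (b (a (l 16965664) (l 16892784)) (l 16899824)) (a (l 16824104) (l 16775120))) (b (a (b (a (l 16786952) (l 16708480)) (l 16705664)) (b (a (l 16630920) (b (l 16566744) (l 16543568))) (a (l 16584952) (l 16508624)))) (b (a (l 16639120) (l 16600616)) (a (l 16735896) (l 16697128))))) (a (b (b (a (l 16865440) (l 16818472)) (l 16883000)) (a (b (l 16929352) (l 16962056)) (b (l 16921200) (l 16972840)))) (b (b (a (l 16842712) (l 16792632)) (a (l 16918624) (l 16868016))) (b (a (l 17005048)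 (b (l 16901560) (l 16931592))) (a (l 16979432) (b (l 16983776) (l 17030352)))))))), by decide +kernel⟩

theorem c_pm_102 : CertN 536870912 536870912 0 536870912 402653184 67108864 3 false true false .npp 1 0 2
    ndN1q1 ndN0q2 pcN0 Cut.none Ext.none :=
  certN0 (fam := false) (s1 := true) (s2 := false) (a := 1) (b := 0) (c := 2) (cn := .npp) (n1 := ndN1q1) (n2 := ndN0q2) (pc := pcN0) (cut := Cut.none) (xt := Ext.none) (P1 := 536870912) (W1 := 536870912) (P2 := 0) (W2 := 536870912) (P3 := 402653184) (W3 := 67108864) (N0 := 3)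
    rfl k0_pm_102

noncomputable def f_pm_112 : ℕ → ℕ → ℕ → ℕ → Bool := onCell 536870912 536870912 0 536870912 402653184 67108864
    (rowN 3 2 false true false .dn 1 1 2 (qsf 536870912 536870912 0 536870912 1) ndN1q1 ndN0q2 pcN1 Cut.none Ext.none)

def k0_pm_112 : ∃ t, chk3 f_pm_112 t 1 1 1 = true :=
  ⟨(a (a (a (b (b (b (b (l 16945488) (l 16921928)) (l 16910072)) (a (l 17018064) (l 16939688))) (b (a (b (l 16908504) (l 16817936)) (b (l 16802752) (l 16715696))) (b (a (l 16697008) (l 16611912)) (l 16536632)))) (b (b (l 17076784) (l 16927080)) (b (a (b (l 16756104) (l 16638896)) (l 16615192)) (b (l 16438408) (l 1))))) (b (a (b (l 16962944) (l 16796408)) (l 1)) (b (l 1) (l 1)))) (l 1)), by decide +kernel⟩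

theorem c_pm_112 : CertN 536870912 536870912 0 536870912 402653184 67108864 3 false true false .dn 1 1 2
    ndN1q1 ndN0q2 pcN1 Cut.none Ext.none :=
  certN2 (fam := false) (s1 := true) (s2 := false) (a := 1) (b := 1) (c := 2) (cn := .dn) (n1 := ndN1q1) (n2 := ndN0q2) (pc := pcN1) (cut := Cut.none) (xt := Ext.none) (P1 := 536870912) (W1 := 536870912) (P2 := 0) (W2 := 536870912) (P3 := 402653184) (W3 := 67108864) (N0 := 3)
    rfl (fun _ => rfl) k0_pm_112

noncomputable def cut_pm_202_a : Cut := Cut.of [[⟨0, 1, 0, 67108864⟩, ⟨1, 0, 0, 67108864⟩, ⟨2, 1, 0, 67108864⟩]]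

noncomputable def f_pm_202_a : ℕ → ℕ → ℕ → ℕ → Bool := onCell 0 536870912 0 536870912 402653184 67108864
    (rowN 3 0 false true false .pp 2 0 2 (qsf 0 536870912 0 536870912 0) ndN1q2a ndN0q2 pcN0 cut_pm_202_a Ext.none)

def k0_pm_202_a : ∃ t, chk3 f_pm_202_a t 1 1 1 = true :=
  ⟨(a (l 3) (b (l 3) (b (l 3) (a (l 3) (b (l 3) (a (l 3) (l 6))))))), by decide +kernel⟩

theorem c_pm_202_a : CertN 0 536870912 0 536870912 402653184 67108864 3 false true false .pp 2 0 2
    ndN1q2a ndN0q2 pcN0 cut_pm_202_a Ext.none :=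
  certN0 (fam := false) (s1 := true) (s2 := false) (a := 2) (b := 0) (c := 2) (cn := .pp) (n1 := ndN1q2a) (n2 := ndN0q2) (pc := pcN0) (cut := cut_pm_202_a) (xt := Ext.none) (P1 := 0) (W1 := 536870912) (P2 := 0) (W2 := 536870912) (P3 := 402653184) (W3 := 67108864) (N0 := 3)
    rfl k0_pm_202_a

noncomputable def cut_pm_202_b : Cut := Cut.of [[⟨0, 1, 0, 67108864⟩, ⟨1, 0, 0, 67108864⟩, ⟨2, 1, 0, 67108864⟩]]

noncomputable def f_pm_202_b : ℕ → ℕ → ℕ → ℕ → Bool := onCell 1239849684 370763052 0 536870912 402653184 67108864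
    (rowN 3 0 false true false .pp 2 0 2 (qsf 1239849684 370763052 0 536870912 0) ndN1q2b ndN0q2 pcN0 cut_pm_202_b Ext.none)

def k0_pm_202_b : ∃ t, chk3 f_pm_202_b t 1 1 1 = true :=
  ⟨(l 3), by decide +kernel⟩

theorem c_pm_202_b : CertN 1239849684 370763052 0 536870912 402653184 67108864 3 false true false .pp 2 0 2
    ndN1q2b ndN0q2 pcN0 cut_pm_202_b Ext.none :=
  certN0 (fam := false) (s1 := true) (s2 := false) (a := 2) (b := 0) (c := 2) (cn := .pp) (n1 := ndN1q2b) (n2 := ndN0q2) (pc := pcN0) (cut := cut_pm_202_b) (xt := Ext.none) (P1 := 1239849684) (W1 := 370763052) (P2 := 0) (W2 := 536870912) (P3 := 402653184) (W3 := 67108864) (N0 := 3)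
    rfl k0_pm_202_b

noncomputable def f_mm_001 : ℕ → ℕ → ℕ → ℕ → Bool := onCell 0 536870912 536870912 536870912 402653184 67108864
    (rowN 3 0 false false false .up 0 0 1 (qsf 0 536870912 536870912 536870912 0) ndN1q0 ndN0q1 pcN0 Cut.none Ext.none)

def k0_mm_001 : ∃ t, chk3 f_mm_001 t 1 1 1 = true :=
  ⟨(l 5), by decide +kernel⟩

theorem c_mm_001 : CertN 0 536870912 536870912 536870912 402653184 67108864 3 false false false .up 0 0 1
    ndN1q0 ndN0q1 pcN0 Cut.none Ext.none :=
  certN0 (fam := false) (s1 := false) (s2 := false) (a := 0) (b := 0) (c := 1) (cn := .up) (n1 := ndN1q0) (n2 := ndN0q1) (pc := pcN0) (cut := Cut.none) (xt := Ext.none) (P1 := 0) (W1 := 536870912) (P2 := 536870912) (W2 := 536870912) (P3 := 402653184) (W3 := 67108864) (N0 := 3)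
    rfl k0_mm_001

noncomputable def f_mm_011 : ℕ → ℕ → ℕ → ℕ → Bool := onCell 0 536870912 536870912 536870912 402653184 67108864
    (rowN 3 0 false false false .pnn 0 1 1 (qsf 0 536870912 536870912 536870912 1) ndN1q0 ndN0q1 pcN1 Cut.none Ext.none)

def k0_mm_011 : ∃ t, chk3 f_mm_011 t 1 1 1 = true :=
  ⟨(l 5), by decide +kernel⟩

theorem c_mm_011 : CertN 0 536870912 536870912 536870912 402653184 67108864 3 false false false .pnn 0 1 1
    ndN1q0 ndN0q1 pcN1 Cut.none Ext.none :=
  certN0 (fam := false) (s1 := false) (s2 := false) (a := 0) (b := 1) (c := 1) (cn := .pnn) (n1 := ndN1q0) (n2 := ndN0q1) (pc := pcN1) (cut := Cut.none) (xt := Ext.none) (P1 := 0) (W1 := 536870912) (P2 := 536870912) (W2 := 536870912) (P3 := 402653184) (W3 := 67108864) (N0 := 3)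
    rfl k0_mm_011

noncomputable def f_mm_012 : ℕ → ℕ → ℕ → ℕ → Bool := onCell 0 536870912 0 536870912 402653184 67108864
    (rowN 3 0 false false false .pnp 0 1 2 (qsf 0 536870912 0 536870912 1) ndN1q0 ndN0q2 pcN1 Cut.none Ext.none)

def k0_mm_012 : ∃ t, chk3 f_mm_012 t 1 1 1 = true :=
  ⟨(l 5), by decide +kernel⟩

theorem c_mm_012 : CertN 0 536870912 0 536870912 402653184 67108864 3 false false false .pnp 0 1 2
    ndN1q0 ndN0q2 pcN1 Cut.none Ext.none :=
  certN0 (fam := false) (s1 := false) (s2 := false) (a := 0) (b := 1) (c := 2) (cn := .pnp) (n1 := ndN1q0) (n2 := ndN0q2) (pc := pcN1) (cut := Cut.none) (xt := Ext.none) (P1 := 0) (W1 := 536870912) (P2 := 0) (W2 := 536870912) (P3 := 402653184) (W3 := 67108864) (N0 := 3)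
    rfl k0_mm_012

noncomputable def f_mm_022 : ℕ → ℕ → ℕ → ℕ → Bool := onCell 0 536870912 0 536870912 402653184 67108864
    (rowN 3 0 false false false .pp 0 2 2 (qsf 0 536870912 0 536870912 2) ndN1q0 ndN0q2 pcN2 Cut.none Ext.none)

def k0_mm_022 : ∃ t, chk3 f_mm_022 t 1 1 1 = true :=
  ⟨(l 5), by decide +kernel⟩

theorem c_mm_022 : CertN 0 536870912 0 536870912 402653184 67108864 3 false false false .pp 0 2 2
    ndN1q0 ndN0q2 pcN2 Cut.none Ext.none :=
  certN0 (fam := false) (s1 := false) (s2 := false) (a := 0) (b := 2) (c := 2) (cn := .pp) (n1 := ndN1q0) (n2 := ndN0q2) (pc := pcN2) (cut := Cut.none) (xt := Ext.none) (P1 := 0) (W1 := 536870912) (P2 := 0) (W2 := 536870912) (P3 := 402653184) (W3 := 67108864) (N0 := 3)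
    rfl k0_mm_022

noncomputable def f_mm_101 : ℕ → ℕ → ℕ → ℕ → Bool := onCell 536870912 536870912 536870912 536870912 402653184 67108864
    (rowN 3 0 false false false .npn 1 0 1 (qsf 536870912 536870912 536870912 536870912 0) ndN1q1 ndN0q1 pcN0 Cut.none Ext.none)

def k0_mm_101 : ∃ t, chk3 f_mm_101 t 1 1 1 = true :=
  ⟨(l 3), by decide +kernel⟩

theorem c_mm_101 : CertN 536870912 536870912 536870912 536870912 402653184 67108864 3 false false false .npn 1 0 1
    ndN1q1 ndN0q1 pcN0 Cut.none Ext.none :=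
  certN0 (fam := false) (s1 := false) (s2 := false) (a := 1) (b := 0) (c := 1) (cn := .npn) (n1 := ndN1q1) (n2 := ndN0q1) (pc := pcN0) (cut := Cut.none) (xt := Ext.none) (P1 := 536870912) (W1 := 536870912) (P2 := 536870912) (W2 := 536870912) (P3 := 402653184) (W3 := 67108864) (N0 := 3)
    rfl k0_mm_101

noncomputable def f_mm_102 : ℕ → ℕ → ℕ → ℕ → Bool := onCell 536870912 536870912 0 536870912 402653184 67108864
    (rowN 3 0 false false false .npp 1 0 2 (qsf 536870912 536870912 0 536870912 0) ndN1q1 ndN0q2 pcN0 Cut.none Ext.none)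

def k0_mm_102 : ∃ t, chk3 f_mm_102 t 1 1 1 = true :=
  ⟨(l 5), by decide +kernel⟩

theorem c_mm_102 : CertN 536870912 536870912 0 536870912 402653184 67108864 3 false false false .npp 1 0 2
    ndN1q1 ndN0q2 pcN0 Cut.none Ext.none :=
  certN0 (fam := false) (s1 := false) (s2 := false) (a := 1) (b := 0) (c := 2) (cn := .npp) (n1 := ndN1q1) (n2 := ndN0q2) (pc := pcN0) (cut := Cut.none) (xt := Ext.none) (P1 := 536870912) (W1 := 536870912) (P2 := 0) (W2 := 536870912) (P3 := 402653184) (W3 := 67108864) (N0 := 3)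
    rfl k0_mm_102

noncomputable def f_mm_112 : ℕ → ℕ → ℕ → ℕ → Bool := onCell 536870912 536870912 0 536870912 402653184 67108864
    (rowN 3 0 false false false .dn 1 1 2 (qsf 536870912 536870912 0 536870912 1) ndN1q1 ndN0q2 pcN1 Cut.none Ext.none)

def k0_mm_112 : ∃ t, chk3 f_mm_112 t 1 1 1 = true :=
  ⟨(l 5), by decide +kernel⟩

theorem c_mm_112 : CertN 536870912 536870912 0 536870912 402653184 67108864 3 false false false .dn 1 1 2
    ndN1q1 ndN0q2 pcN1 Cut.none Ext.none :=
  certN0 (fam := false) (s1 := false) (s2 := false) (a := 1) (b := 1) (c := 2) (cn := .dn) (n1 := ndN1q1) (n2 := ndN0q2) (pc := pcN1) (cut := Cut.none) (xt := Ext.none) (P1 := 536870912) (W1 := 536870912) (P2 := 0) (W2 := 536870912) (P3 := 402653184) (W3 := 67108864) (N0 := 3)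
    rfl k0_mm_112

noncomputable def f_mm_202_a : ℕ → ℕ → ℕ → ℕ → Bool := onCell 0 536870912 0 536870912 402653184 67108864
    (rowN 3 0 false false false .pp 2 0 2 (qsf 0 536870912 0 536870912 0) ndN1q2a ndN0q2 pcN0 Cut.none Ext.none)

def k0_mm_202_a : ∃ t, chk3 f_mm_202_a t 1 1 1 = true :=
  ⟨(l 3), by decide +kernel⟩

theorem c_mm_202_a : CertN 0 536870912 0 536870912 402653184 67108864 3 false false false .pp 2 0 2
    ndN1q2a ndN0q2 pcN0 Cut.none Ext.none :=
  certN0 (fam := false) (s1 := false) (s2 := false) (a := 2) (b := 0) (c := 2) (cn := .pp) (n1 := ndN1q2a) (n2 := ndN0q2) (pc := pcN0) (cut := Cut.none) (xt := Ext.none) (P1 := 0) (W1 := 536870912) (P2 := 0) (W2 := 536870912) (P3 := 402653184) (W3 := 67108864) (N0 := 3)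
    rfl k0_mm_202_a

noncomputable def f_mm_202_b : ℕ → ℕ → ℕ → ℕ → Bool := onCell 1239849684 370763052 0 536870912 402653184 67108864
    (rowN 3 0 false false false .pp 2 0 2 (qsf 1239849684 370763052 0 536870912 0) ndN1q2b ndN0q2 pcN0 Cut.none Ext.none)

def k0_mm_202_b : ∃ t, chk3 f_mm_202_b t 1 1 1 = true :=
  ⟨(l 3), by decide +kernel⟩

theorem c_mm_202_b : CertN 1239849684 370763052 0 536870912 402653184 67108864 3 false false false .pp 2 0 2
    ndN1q2b ndN0q2 pcN0 Cut.none Ext.none :=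
  certN0 (fam := false) (s1 := false) (s2 := false) (a := 2) (b := 0) (c := 2) (cn := .pp) (n1 := ndN1q2b) (n2 := ndN0q2) (pc := pcN0) (cut := Cut.none) (xt := Ext.none) (P1 := 1239849684) (W1 := 370763052) (P2 := 0) (W2 := 536870912) (P3 := 402653184) (W3 := 67108864) (N0 := 3)
    rfl k0_mm_202_b

end Pool.Agent.Strip051.G.I3_8_7_16.Tab.C.NB10

namespace Pool.Agent.Strip051.G.I3_8_7_16.Tab.C.NB11

open Pool.Agent.Strip051.PB Pool.Agent.Strip051.PB.T
open Pool.Agent.Strip051.G.I3_8_7_16.Tab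

noncomputable def f_pp_001 : ℕ → ℕ → ℕ → ℕ → Bool := onCell 0 536870912 536870912 536870912 402653184 67108864
    (rowN 3 0 false true true .up 0 0 1 (qsf 0 536870912 536870912 536870912 0) ndN1q0 ndN1q1 pcN0 Cut.none Ext.none)

def k0_pp_001 : ∃ t, chk3 f_pp_001 t 1 1 1 = true :=
  ⟨(l 3), by decide +kernel⟩

theorem c_pp_001 : CertN 0 536870912 536870912 536870912 402653184 67108864 3 false true true .up 0 0 1
    ndN1q0 ndN1q1 pcN0 Cut.none Ext.none :=
  certN0 (fam := false) (s1 := true) (s2 := true) (a := 0) (b := 0) (c := 1) (cn := .up) (n1 := ndN1q0) (n2 := ndN1q1) (pc := pcN0) (cut := Cut.none) (xt := Ext.none) (P1 := 0) (W1 := 536870912) (P2 := 536870912) (W2 := 536870912) (P3 := 402653184) (W3 := 67108864) (N0 := 3)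
    rfl k0_pp_001

noncomputable def f_pp_011 : ℕ → ℕ → ℕ → ℕ → Bool := onCell 0 536870912 536870912 536870912 402653184 67108864
    (rowN 3 0 false true true .pnn 0 1 1 (qsf 0 536870912 536870912 536870912 1) ndN1q0 ndN1q1 pcN1 Cut.none Ext.none)

def k0_pp_011 : ∃ t, chk3 f_pp_011 t 1 1 1 = true :=
  ⟨(l 3), by decide +kernel⟩

theorem c_pp_011 : CertN 0 536870912 536870912 536870912 402653184 67108864 3 false true true .pnn 0 1 1
    ndN1q0 ndN1q1 pcN1 Cut.none Ext.none :=
  certN0 (fam := false) (s1 := true) (s2 := true) (a := 0) (b := 1) (c := 1) (cn := .pnn) (n1 := ndN1q0) (n2 := ndN1q1) (pc := pcN1) (cut := Cut.none) (xt := Ext.none) (P1 := 0) (W1 := 536870912) (P2 := 536870912) (W2 := 536870912) (P3 := 402653184) (W3 := 67108864) (N0 := 3)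
    rfl k0_pp_011

noncomputable def cut_pp_012_a : Cut := Cut.of [[⟨0, 0, 0, 67108864⟩, ⟨1, 1, 0, 67108864⟩, ⟨2, 1, 0, 67108864⟩]]

noncomputable def f_pp_012_a : ℕ → ℕ → ℕ → ℕ → Bool := onCell 536870912 536870912 0 536870912 402653184 67108864
    (rowN 3 2 false true true .pnp 0 1 2 (qsf 0 536870912 0 536870912 1) ndN1q0 ndN1q2a pcN1 cut_pp_012_a Ext.none)

def k0_pp_012_a : ∃ t, chk3 f_pp_012_a t 1 1 1 = true :=
  ⟨(a (a (b (a (l 2) (b (l 2) (l 271824953991))) (l 3)) (b (a (b (l 16929072) (l 133849250615)) (b (l 16869136) (l 16928144))) (b (a (l 3) (l 204715993383)) (l 3)))) (a (b (a (l 17056816) (b (l 16750760) (l 16794152))) (b (a (l 171430214567) (b (l 16809760) (l 16860368))) (a (l 3) (b (l 202031538375) (l 3))))) (b (a (b (l 16675960) (l 16747664)) (b (a (l 16645680) (l 16624712)) (a (l 16702280) (l 16672592)))) (b (a (a (l 16887736) (b (l 16773200) (l 16794744))) (a (b (l 16739184) (l 16760952)) (b (l 16705200) (a (l 16734040) (l 16716472))))) (a (a (b (l 16959872)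 (l 3)) (a (b (l 16831856) (l 3)) (b (l 16796432) (l 210084420775)))) (b (b (a (l 16777384) (a (l 16749992) (l 16732112))) (a (l 16853368) (a (l 16764072) (a (l 16750336) (l 16741360))))) (b (a (a (l 16830504) (l 16834368)) (a (b (l 16775272) (l 6)) (l 6))) (a (b (l 197199489559) (l 3)) (l 6))))))))), by decide +kernel⟩

theorem c_pp_012_a : CertN 0 536870912 0 536870912 402653184 67108864 3 false true true .pnp 0 1 2
    ndN1q0 ndN1q2a pcN1 cut_pp_012_a Ext.none :=
  certN2 (fam := false) (s1 := true) (s2 := true) (a := 0) (b := 1) (c := 2) (cn := .pnp) (n1 := ndN1q0) (n2 := ndN1q2a) (pc := pcN1) (cut := cut_pp_012_a) (xt := Ext.none) (P1 := 0) (W1 := 536870912) (P2 := 0) (W2 := 536870912) (P3 := 402653184) (W3 := 67108864) (N0 := 3)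
    rfl (fun _ => rfl) k0_pp_012_a

noncomputable def cut_pp_012_b : Cut := Cut.of [[⟨0, 0, 0, 67108864⟩, ⟨1, 1, 0, 67108864⟩, ⟨2, 1, 0, 67108864⟩]]

noncomputable def f_pp_012_b : ℕ → ℕ → ℕ → ℕ → Bool := onCell 536870912 536870912 1239849684 370763052 402653184 67108864
    (rowN 3 2 false true true .pnp 0 1 2 (qsf 0 536870912 1239849684 370763052 1) ndN1q0 ndN1q2b pcN1 cut_pp_012_b Ext.none)

def k0_pp_012_b : ∃ t, chk3 f_pp_012_b t 1 1 1 = true :=
  ⟨(a (a (l 2) (b (a (l 17042504) (l 16843464)) (l 2))) (a (b (a (l 16803144) (l 16868008)) (l 16843632)) (b (a (b (l 16630192) (l 16639072)) (b (a (l 16600696) (l 16579680)) (l 16579192))) (a (l 16820608) (l 16715560))))), by decide +kernel⟩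

theorem c_pp_012_b : CertN 0 536870912 1239849684 370763052 402653184 67108864 3 false true true .pnp 0 1 2
    ndN1q0 ndN1q2b pcN1 cut_pp_012_b Ext.none :=
  certN2 (fam := false) (s1 := true) (s2 := true) (a := 0) (b := 1) (c := 2) (cn := .pnp) (n1 := ndN1q0) (n2 := ndN1q2b) (pc := pcN1) (cut := cut_pp_012_b) (xt := Ext.none) (P1 := 0) (W1 := 536870912) (P2 := 1239849684) (W2 := 370763052) (P3 := 402653184) (W3 := 67108864) (N0 := 3)
    rfl (fun _ => rfl) k0_pp_012_b

noncomputable def cut_pp_022_a : Cut := Cut.of [[⟨0, 0, 0, 67108864⟩, ⟨1, 1, 0, 67108864⟩, ⟨2, 1, 0, 67108864⟩]]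

noncomputable def f_pp_022_a : ℕ → ℕ → ℕ → ℕ → Bool := onCell 0 536870912 0 536870912 402653184 67108864
    (rowN 3 0 false true true .pp 0 2 2 (qsf 0 536870912 0 536870912 2) ndN1q0 ndN1q2a pcN2 cut_pp_022_a Ext.none)

def k0_pp_022_a : ∃ t, chk3 f_pp_022_a t 1 1 1 = true :=
  ⟨(a (b (a (a (b (a (a (l 16547352) (l 16461176)) (l 16485136)) (a (a (b (l 16500232) (a (b (l 16527896) (l 16548352)) (l 16601432))) (l 16624856)) (l 16586240))) (b (l 16554520) (a (l 16577440) (l 16625936)))) (a (b (l 16632800) (b (l 16672904) (l 257731539015))) (l 1))) (b (a (a (b (a (a (b (l 16586392) (l 16601896)) (l 16684800)) (l 16709976)) (a (a (a (b (l 16598768) (l 16639400)) (b (l 16603288) (l 16628520))) (l 16674568)) (b (l 16623536) (l 16656688)))) (b (a (l 16633976) (l 16683848)) (a (b (l 16672944) (a (l 16692808) (l 16716184))) (b (l 16721216) (l 1))))) (l 1)) (a (b (a (a (b (a (a (b (l 16645024) (l 16659848)) (l 16657408)) (l 16685216)) (l 6)) (b (a (l 16680320) (l 16683048)) (a (l 6)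 (b (l 16732880) (l 16773944))))) (a (b (a (l 16727096) (l 1)) (l 1)) (l 1))) (a (a (l 6) (a (l 6) (l 1))) (l 1))) (l 1)))) (l 1)), by decide +kernel⟩

theorem c_pp_022_a : CertN 0 536870912 0 536870912 402653184 67108864 3 false true true .pp 0 2 2
    ndN1q0 ndN1q2a pcN2 cut_pp_022_a Ext.none :=
  certN0 (fam := false) (s1 := true) (s2 := true) (a := 0) (b := 2) (c := 2) (cn := .pp) (n1 := ndN1q0) (n2 := ndN1q2a) (pc := pcN2) (cut := cut_pp_022_a) (xt := Ext.none) (P1 := 0) (W1 := 536870912) (P2 := 0) (W2 := 536870912) (P3 := 402653184) (W3 := 67108864) (N0 := 3)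
    rfl k0_pp_022_a

noncomputable def cut_pp_022_b : Cut := Cut.of [[⟨0, 0, 0, 67108864⟩, ⟨1, 1, 0, 67108864⟩, ⟨2, 1, 0, 67108864⟩]]

noncomputable def f_pp_022_b : ℕ → ℕ → ℕ → ℕ → Bool := onCell 0 536870912 1239849684 370763052 402653184 67108864
    (rowN 3 0 false true true .pp 0 2 2 (qsf 0 536870912 1239849684 370763052 2) ndN1q0 ndN1q2b pcN2 cut_pp_022_b Ext.none)

def k0_pp_022_b : ∃ t, chk3 f_pp_022_b t 1 1 1 = true :=
  ⟨(a (b (a (b (b (a (a (l 16454768) (l 16436328)) (l 16544112)) (a (a (l 16326768) (l 16358312)) (l 16428216))) (a (a (b (l 16233312) (l 16191024)) (l 16254280)) (l 16410920))) (b (a (b (l 16576960) (l 16508944)) (b (l 16643240) (l 16581360))) (a (l 16413432) (l 16492544)))) (a (b (a (a (b (l 16221368) (l 16071224)) (b (l 16168256) (l 16122088))) (b (l 16239664) (l 16190920))) (a (b (l 16147624) (a (l 16193344) (l 16213664))) (b (l 16149976) (l 16256032)))) (b (l 16344072) (a (b (l 16231912) (l 16330544)) (l 16319176))))) (b (a (b (l 1) (b (l 16634648)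 (l 16583456))) (l 1)) (a (b (l 16509064) (l 16510448)) (b (l 16694400) (l 16779656))))), by decide +kernel⟩

theorem c_pp_022_b : CertN 0 536870912 1239849684 370763052 402653184 67108864 3 false true true .pp 0 2 2
    ndN1q0 ndN1q2b pcN2 cut_pp_022_b Ext.none :=
  certN0 (fam := false) (s1 := true) (s2 := true) (a := 0) (b := 2) (c := 2) (cn := .pp) (n1 := ndN1q0) (n2 := ndN1q2b) (pc := pcN2) (cut := cut_pp_022_b) (xt := Ext.none) (P1 := 0) (W1 := 536870912) (P2 := 1239849684) (W2 := 370763052) (P3 := 402653184) (W3 := 67108864) (N0 := 3)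
    rfl k0_pp_022_b

noncomputable def f_pp_023 : ℕ → ℕ → ℕ → ℕ → Bool := onCell 1073741824 536870912 1610612736 536870912 402653184 67108864
    (rowN 3 2 false true true .up 0 2 3 (qsf 0 536870912 1610612736 536870912 2) ndN1q0 ndN1q3 pcN2 Cut.none Ext.none)

def k0_pp_023 : ∃ t, chk3 f_pp_023 t 1 1 1 = true :=
  ⟨(a (b (a (b (l 17123360) (l 17181304)) (b (l 16981520) (l 17153792))) (a (l 2) (l 17188800))) (a (b (b (a (l 16856144) (l 16771024)) (l 17106304)) (l 17182936)) (b (b (b (a (l 16519968) (l 16437536)) (l 16798752)) (l 17053080)) (b (l 17159296) (l 17155688))))), by decide +kernel⟩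

theorem c_pp_023 : CertN 0 536870912 1610612736 536870912 402653184 67108864 3 false true true .up 0 2 3
    ndN1q0 ndN1q3 pcN2 Cut.none Ext.none :=
  certN2 (fam := false) (s1 := true) (s2 := true) (a := 0) (b := 2) (c := 3) (cn := .up) (n1 := ndN1q0) (n2 := ndN1q3) (pc := pcN2) (cut := Cut.none) (xt := Ext.none) (P1 := 0) (W1 := 536870912) (P2 := 1610612736) (W2 := 536870912) (P3 := 402653184) (W3 := 67108864) (N0 := 3)
    rfl (fun _ => rfl) k0_pp_023

noncomputable def f_pp_033 : ℕ → ℕ → ℕ → ℕ → Bool := onCell 1610612736 536870912 1610612736 536870912 402653184 67108864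
    (rowN 3 2 false true true .pnn 0 3 3 (qsf 0 536870912 1610612736 536870912 3) ndN1q0 ndN1q3 pcN3 Cut.none Ext.none)

def k0_pp_033 : ∃ t, chk3 f_pp_033 t 1 1 1 = true :=
  ⟨(a (b (a (b (a (b (b (l 449393323431) (l 16443176)) (l 16725720)) (b (b (l 1) (l 634077364327)) (l 580927599559))) (a (l 17029112) (l 17025752))) (b (a (b (l 1) (l 750042140023)) (l 1)) (a (b (l 16983832) (l 17095512)) (b (l 857953824327) (l 17146144))))) (a (a (l 17143632) (b (l 17132000) (l 17101384))) (b (a (l 17130272) (l 17145360)) (l 4)))) (b (a (b (l 1) (a (b (l 1) (l 910567999063)) (l 1))) (l 1)) (b (a (a (l 4) (l 4)) (a (b (l 1) (l 4)) (l 1))) (l 4)))), by decide +kernel⟩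

theorem c_pp_033 : CertN 0 536870912 1610612736 536870912 402653184 67108864 3 false true true .pnn 0 3 3
    ndN1q0 ndN1q3 pcN3 Cut.none Ext.none :=
  certN2 (fam := false) (s1 := true) (s2 := true) (a := 0) (b := 3) (c := 3) (cn := .pnn) (n1 := ndN1q0) (n2 := ndN1q3) (pc := pcN3) (cut := Cut.none) (xt := Ext.none) (P1 := 0) (W1 := 536870912) (P2 := 1610612736) (W2 := 536870912) (P3 := 402653184) (W3 := 67108864) (N0 := 3)
    rfl (fun _ => rfl) k0_pp_033

noncomputable def f_pp_101 : ℕ → ℕ → ℕ → ℕ → Bool := onCell 536870912 536870912 536870912 536870912 402653184 67108864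
    (rowN 3 0 false true true .npn 1 0 1 (qsf 536870912 536870912 536870912 536870912 0) ndN1q1 ndN1q1 pcN0 Cut.none Ext.none)

def k0_pp_101 : ∃ t, chk3 f_pp_101 t 1 1 1 = true :=
  ⟨(l 3), by decide +kernel⟩

theorem c_pp_101 : CertN 536870912 536870912 536870912 536870912 402653184 67108864 3 false true true .npn 1 0 1
    ndN1q1 ndN1q1 pcN0 Cut.none Ext.none :=
  certN0 (fam := false) (s1 := true) (s2 := true) (a := 1) (b := 0) (c := 1) (cn := .npn) (n1 := ndN1q1) (n2 := ndN1q1) (pc := pcN0) (cut := Cut.none) (xt := Ext.none) (P1 := 536870912) (W1 := 536870912) (P2 := 536870912) (W2 := 536870912) (P3 := 402653184) (W3 := 67108864) (N0 := 3)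
    rfl k0_pp_101

noncomputable def f_pp_102_a : ℕ → ℕ → ℕ → ℕ → Bool := onCell 0 536870912 0 536870912 402653184 67108864
    (rowN 3 2 false true true .npp 1 0 2 (qsf 536870912 536870912 0 536870912 0) ndN1q1 ndN1q2a pcN0 Cut.none Ext.none)

def k0_pp_102_a : ∃ t, chk3 f_pp_102_a t 1 1 1 = true :=
  ⟨(b (a (l 3) (a (l 3) (l 3))) (l 3)), by decide +kernel⟩

theorem c_pp_102_a : CertN 536870912 536870912 0 536870912 402653184 67108864 3 false true true .npp 1 0 2
    ndN1q1 ndN1q2a pcN0 Cut.none Ext.none :=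
  certN2 (fam := false) (s1 := true) (s2 := true) (a := 1) (b := 0) (c := 2) (cn := .npp) (n1 := ndN1q1) (n2 := ndN1q2a) (pc := pcN0) (cut := Cut.none) (xt := Ext.none) (P1 := 536870912) (W1 := 536870912) (P2 := 0) (W2 := 536870912) (P3 := 402653184) (W3 := 67108864) (N0 := 3)
    rfl (fun _ => rfl) k0_pp_102_a

noncomputable def f_pp_102_b : ℕ → ℕ → ℕ → ℕ → Bool := onCell 0 536870912 1239849684 370763052 402653184 67108864
    (rowN 3 2 false true true .npp 1 0 2 (qsf 536870912 536870912 1239849684 370763052 0) ndN1q1 ndN1q2b pcN0 Cut.none Ext.none)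

def k0_pp_102_b : ∃ t, chk3 f_pp_102_b t 1 1 1 = true :=
  ⟨(a (l 3) (a (b (l 3) (l 3)) (b (b (l 3) (l 3)) (l 3)))), by decide +kernel⟩

theorem c_pp_102_b : CertN 536870912 536870912 1239849684 370763052 402653184 67108864 3 false true true .npp 1 0 2
    ndN1q1 ndN1q2b pcN0 Cut.none Ext.none :=
  certN2 (fam := false) (s1 := true) (s2 := true) (a := 1) (b := 0) (c := 2) (cn := .npp) (n1 := ndN1q1) (n2 := ndN1q2b) (pc := pcN0) (cut := Cut.none) (xt := Ext.none) (P1 := 536870912) (W1 := 536870912) (P2 := 1239849684) (W2 := 370763052) (P3 := 402653184) (W3 := 67108864) (N0 := 3)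
    rfl (fun _ => rfl) k0_pp_102_b

noncomputable def f_pp_112_a : ℕ → ℕ → ℕ → ℕ → Bool := onCell 536870912 536870912 0 536870912 402653184 67108864
    (rowN 3 0 false true true .dn 1 1 2 (qsf 536870912 536870912 0 536870912 1) ndN1q1 ndN1q2a pcN1 Cut.none Ext.none)

def k0_pp_112_a : ∃ t, chk3 f_pp_112_a t 1 1 1 = true :=
  ⟨(a (b (a (a (b (l 76403844103) (a (l 216527234231) (l 3))) (b (a (l 17130456) (l 130091057271)) (l 3))) (a (b (a (l 230486000263) (l 3)) (l 3)) (l 1))) (l 3)) (l 1)), by decide +kernel⟩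

theorem c_pp_112_a : CertN 536870912 536870912 0 536870912 402653184 67108864 3 false true true .dn 1 1 2
    ndN1q1 ndN1q2a pcN1 Cut.none Ext.none :=
  certN0 (fam := false) (s1 := true) (s2 := true) (a := 1) (b := 1) (c := 2) (cn := .dn) (n1 := ndN1q1) (n2 := ndN1q2a) (pc := pcN1) (cut := Cut.none) (xt := Ext.none) (P1 := 536870912) (W1 := 536870912) (P2 := 0) (W2 := 536870912) (P3 := 402653184) (W3 := 67108864) (N0 := 3)
    rfl k0_pp_112_a

noncomputable def f_pp_112_b : ℕ → ℕ → ℕ → ℕ → Bool := onCell 536870912 536870912 1239849684 370763052 402653184 67108864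
    (rowN 3 2 false true true .dn 1 1 2 (qsf 536870912 536870912 1239849684 370763052 1) ndN1q1 ndN1q2b pcN1 Cut.none Ext.none)

def k0_pp_112_b : ∃ t, chk3 f_pp_112_b t 1 1 1 = true :=
  ⟨(a (a (b (a (b (b (a (l 17069272) (l 17017368)) (l 17059416)) (a (l 16879920) (l 16907976))) (b (l 17030696) (l 16941328))) (a (b (l 286857002935) (l 3)) (b (l 16797688) (l 293836798743)))) (b (b (a (l 16897096) (l 16836536)) (l 17128552)) (a (b (l 16818992) (l 16875328)) (l 16843248)))) (a (b (a (l 16864960) (l 310345418695)) (a (l 16881936) (l 16842632))) (b (l 1) (l 251826509783)))), by decide +kernel⟩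

theorem c_pp_112_b : CertN 536870912 536870912 1239849684 370763052 402653184 67108864 3 false true true .dn 1 1 2
    ndN1q1 ndN1q2b pcN1 Cut.none Ext.none :=
  certN2 (fam := false) (s1 := true) (s2 := true) (a := 1) (b := 1) (c := 2) (cn := .dn) (n1 := ndN1q1) (n2 := ndN1q2b) (pc := pcN1) (cut := Cut.none) (xt := Ext.none) (P1 := 536870912) (W1 := 536870912) (P2 := 1239849684) (W2 := 370763052) (P3 := 402653184) (W3 := 67108864) (N0 := 3)
    rfl (fun _ => rfl) k0_pp_112_b

noncomputable def f_pp_113 : ℕ → ℕ → ℕ → ℕ → Bool := onCell 536870912 536870912 536870912 536870912 402653184 67108864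
    (rowN 3 1 false true true .nn 1 1 3 (qsf 536870912 536870912 1610612736 536870912 1) ndN1q1 ndN1q3 pcN1 Cut.none Ext.none)

def k0_pp_113 : ∃ t, chk3 f_pp_113 t 1 1 1 = true :=
  ⟨(a (b (b (l 1) (a (l 1) (l 426846565143))) (b (a (l 17118504) (l 16979544)) (a (l 17037432) (l 17112328)))) (b (b (a (b (l 1) (l 359200801047)) (b (l 3) (a (l 16835680) (l 326048990055)))) (a (b (l 16874728) (l 16942768)) (b (a (l 16966680) (l 17047968)) (l 17079240)))) (b (a (l 17214896) (b (l 17103256) (l 17084352))) (a (l 17285808) (b (l 17025280) (l 16943800)))))), by decide +kernel⟩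

theorem c_pp_113 : CertN 536870912 536870912 1610612736 536870912 402653184 67108864 3 false true true .nn 1 1 3
    ndN1q1 ndN1q3 pcN1 Cut.none Ext.none :=
  certN1 (fam := false) (s1 := true) (s2 := true) (a := 1) (b := 1) (c := 3) (cn := .nn) (n1 := ndN1q1) (n2 := ndN1q3) (pc := pcN1) (cut := Cut.none) (xt := Ext.none) (P1 := 536870912) (W1 := 536870912) (P2 := 1610612736) (W2 := 536870912) (P3 := 402653184) (W3 := 67108864) (N0 := 3)
    rfl (fun _ => rfl) k0_pp_113

noncomputable def f_pp_123 : ℕ → ℕ → ℕ → ℕ → Bool := onCell 1073741824 536870912 1610612736 536870912 402653184 67108864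
    (rowN 3 2 false true true .npn 1 2 3 (qsf 536870912 536870912 1610612736 536870912 2) ndN1q1 ndN1q3 pcN2 Cut.none Ext.none)

def k0_pp_123 : ∃ t, chk3 f_pp_123 t 1 1 1 = true :=
  ⟨(a (b (b (a (l 17111528) (l 17038704)) (a (l 17192608) (l 17151384))) (a (b (l 17171680) (l 17020072)) (b (l 17180568) (l 17102496)))) (a (b (b (l 1) (l 17111056)) (b (l 17181232) (l 17168056))) (b (l 1) (b (l 17136504) (l 17161592))))), by decide +kernel⟩

theorem c_pp_123 : CertN 536870912 536870912 1610612736 536870912 402653184 67108864 3 false true true .npn 1 2 3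
    ndN1q1 ndN1q3 pcN2 Cut.none Ext.none :=
  certN2 (fam := false) (s1 := true) (s2 := true) (a := 1) (b := 2) (c := 3) (cn := .npn) (n1 := ndN1q1) (n2 := ndN1q3) (pc := pcN2) (cut := Cut.none) (xt := Ext.none) (P1 := 536870912) (W1 := 536870912) (P2 := 1610612736) (W2 := 536870912) (P3 := 402653184) (W3 := 67108864) (N0 := 3)
    rfl (fun _ => rfl) k0_pp_123

noncomputable def f_pp_133 : ℕ → ℕ → ℕ → ℕ → Bool := onCell 1610612736 536870912 1610612736 536870912 402653184 67108864
    (rowN 3 2 false true true .dn 1 3 3 (qsf 536870912 536870912 1610612736 536870912 3) ndN1q1 ndN1q3 pcN3 Cut.none Ext.none)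

def k0_pp_133 : ∃ t, chk3 f_pp_133 t 1 1 1 = true :=
  ⟨(a (b (l 1) (a (a (l 17160048) (l 1)) (l 1))) (l 1)), by decide +kernel⟩

theorem c_pp_133 : CertN 536870912 536870912 1610612736 536870912 402653184 67108864 3 false true true .dn 1 3 3
    ndN1q1 ndN1q3 pcN3 Cut.none Ext.none :=
  certN2 (fam := false) (s1 := true) (s2 := true) (a := 1) (b := 3) (c := 3) (cn := .dn) (n1 := ndN1q1) (n2 := ndN1q3) (pc := pcN3) (cut := Cut.none) (xt := Ext.none) (P1 := 536870912) (W1 := 536870912) (P2 := 1610612736) (W2 := 536870912) (P3 := 402653184) (W3 := 67108864) (N0 := 3)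
    rfl (fun _ => rfl) k0_pp_133

noncomputable def f_pp_202_aa : ℕ → ℕ → ℕ → ℕ → Bool := onCell 0 536870912 0 536870912 402653184 67108864
    (rowN 3 0 false true true .pp 2 0 2 (qsf 0 536870912 0 536870912 0) ndN1q2a ndN1q2a pcN0 Cut.none Ext.none)

def k0_pp_202_aa : ∃ t, chk3 f_pp_202_aa t 1 1 1 = true :=
  ⟨(l 3), by decide +kernel⟩

theorem c_pp_202_aa : CertN 0 536870912 0 536870912 402653184 67108864 3 false true true .pp 2 0 2
    ndN1q2a ndN1q2a pcN0 Cut.none Ext.none :=
  certN0 (fam := false) (s1 := true) (s2 := true) (a := 2) (b := 0) (c := 2) (cn := .pp) (n1 := ndN1q2a) (n2 := ndN1q2a) (pc := pcN0) (cut := Cut.none) (xt := Ext.none) (P1 := 0) (W1 := 536870912) (P2 := 0) (W2 := 536870912) (P3 := 402653184) (W3 := 67108864) (N0 := 3)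
    rfl k0_pp_202_aa

noncomputable def f_pp_202_ab : ℕ → ℕ → ℕ → ℕ → Bool := onCell 0 536870912 1239849684 370763052 402653184 67108864
    (rowN 3 0 false true true .pp 2 0 2 (qsf 0 536870912 1239849684 370763052 0) ndN1q2a ndN1q2b pcN0 Cut.none Ext.none)

def k0_pp_202_ab : ∃ t, chk3 f_pp_202_ab t 1 1 1 = true :=
  ⟨(l 3), by decide +kernel⟩

theorem c_pp_202_ab : CertN 0 536870912 1239849684 370763052 402653184 67108864 3 false true true .pp 2 0 2
    ndN1q2a ndN1q2b pcN0 Cut.none Ext.none :=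
  certN0 (fam := false) (s1 := true) (s2 := true) (a := 2) (b := 0) (c := 2) (cn := .pp) (n1 := ndN1q2a) (n2 := ndN1q2b) (pc := pcN0) (cut := Cut.none) (xt := Ext.none) (P1 := 0) (W1 := 536870912) (P2 := 1239849684) (W2 := 370763052) (P3 := 402653184) (W3 := 67108864) (N0 := 3)
    rfl k0_pp_202_ab

noncomputable def f_pp_202_ba : ℕ → ℕ → ℕ → ℕ → Bool := onCell 1239849684 370763052 0 536870912 402653184 67108864
    (rowN 3 0 false true true .pp 2 0 2 (qsf 1239849684 370763052 0 536870912 0) ndN1q2b ndN1q2a pcN0 Cut.none Ext.none)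

def k0_pp_202_ba : ∃ t, chk3 f_pp_202_ba t 1 1 1 = true :=
  ⟨(l 3), by decide +kernel⟩

theorem c_pp_202_ba : CertN 1239849684 370763052 0 536870912 402653184 67108864 3 false true true .pp 2 0 2
    ndN1q2b ndN1q2a pcN0 Cut.none Ext.none :=
  certN0 (fam := false) (s1 := true) (s2 := true) (a := 2) (b := 0) (c := 2) (cn := .pp) (n1 := ndN1q2b) (n2 := ndN1q2a) (pc := pcN0) (cut := Cut.none) (xt := Ext.none) (P1 := 1239849684) (W1 := 370763052) (P2 := 0) (W2 := 536870912) (P3 := 402653184) (W3 := 67108864) (N0 := 3)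
    rfl k0_pp_202_ba

noncomputable def f_pp_202_bb : ℕ → ℕ → ℕ → ℕ → Bool := onCell 1239849684 370763052 1239849684 370763052 402653184 67108864
    (rowN 3 0 false true true .pp 2 0 2 (qsf 1239849684 370763052 1239849684 370763052 0) ndN1q2b ndN1q2b pcN0 Cut.none Ext.none)

def k0_pp_202_bb : ∃ t, chk3 f_pp_202_bb t 1 1 1 = true :=
  ⟨(l 3), by decide +kernel⟩

theorem c_pp_202_bb : CertN 1239849684 370763052 1239849684 370763052 402653184 67108864 3 false true true .pp 2 0 2
    ndN1q2b ndN1q2b pcN0 Cut.none Ext.none :=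
  certN0 (fam := false) (s1 := true) (s2 := true) (a := 2) (b := 0) (c := 2) (cn := .pp) (n1 := ndN1q2b) (n2 := ndN1q2b) (pc := pcN0) (cut := Cut.none) (xt := Ext.none) (P1 := 1239849684) (W1 := 370763052) (P2 := 1239849684) (W2 := 370763052) (P3 := 402653184) (W3 := 67108864) (N0 := 3)
    rfl k0_pp_202_bb

noncomputable def f_pp_203_a : ℕ → ℕ → ℕ → ℕ → Bool := onCell 0 536870912 0 536870912 402653184 67108864
    (rowN 3 1 false true true .up 2 0 3 (qsf 0 536870912 1610612736 536870912 0) ndN1q2a ndN1q3 pcN0 Cut.none Ext.none)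

def k0_pp_203_a : ∃ t, chk3 f_pp_203_a t 1 1 1 = true :=
  ⟨(l 3), by decide +kernel⟩

theorem c_pp_203_a : CertN 0 536870912 1610612736 536870912 402653184 67108864 3 false true true .up 2 0 3
    ndN1q2a ndN1q3 pcN0 Cut.none Ext.none :=
  certN1 (fam := false) (s1 := true) (s2 := true) (a := 2) (b := 0) (c := 3) (cn := .up) (n1 := ndN1q2a) (n2 := ndN1q3) (pc := pcN0) (cut := Cut.none) (xt := Ext.none) (P1 := 0) (W1 := 536870912) (P2 := 1610612736) (W2 := 536870912) (P3 := 402653184) (W3 := 67108864) (N0 := 3)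
    rfl (fun _ => rfl) k0_pp_203_a

noncomputable def f_pp_203_b : ℕ → ℕ → ℕ → ℕ → Bool := onCell 1239849684 370763052 1610612736 536870912 402653184 67108864
    (rowN 3 0 false true true .up 2 0 3 (qsf 1239849684 370763052 1610612736 536870912 0) ndN1q2b ndN1q3 pcN0 Cut.none Ext.none)

def k0_pp_203_b : ∃ t, chk3 f_pp_203_b t 1 1 1 = true :=
  ⟨(l 3), by decide +kernel⟩

theorem c_pp_203_b : CertN 1239849684 370763052 1610612736 536870912 402653184 67108864 3 false true true .up 2 0 3
    ndN1q2b ndN1q3 pcN0 Cut.none Ext.none :=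
  certN0 (fam := false) (s1 := true) (s2 := true) (a := 2) (b := 0) (c := 3) (cn := .up) (n1 := ndN1q2b) (n2 := ndN1q3) (pc := pcN0) (cut := Cut.none) (xt := Ext.none) (P1 := 1239849684) (W1 := 370763052) (P2 := 1610612736) (W2 := 536870912) (P3 := 402653184) (W3 := 67108864) (N0 := 3)
    rfl k0_pp_203_b

noncomputable def cut_pp_213_a : Cut := Cut.of [[⟨0, 1, 0, 67108864⟩, ⟨1, 1, 0, 67108864⟩, ⟨2, 2, 0, 16777216⟩]]

noncomputable def f_pp_213_a : ℕ → ℕ → ℕ → ℕ → Bool := onCell 0 536870912 1610612736 536870912 402653184 67108864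
    (rowN 3 0 false true true .pnn 2 1 3 (qsf 0 536870912 1610612736 536870912 1) ndN1q2a ndN1q3 pcN1 cut_pp_213_a Ext.none)

def k0_pp_213_a : ∃ t, chk3 f_pp_213_a t 1 1 1 = true :=
  ⟨(b (l 3) (a (l 3) (b (l 3) (a (l 3) (b (l 3) (a (l 3) (b (l 3) (b (l 3) (b (l 3) (l 6)))))))))), by decide +kernel⟩

theorem c_pp_213_a : CertN 0 536870912 1610612736 536870912 402653184 67108864 3 false true true .pnn 2 1 3
    ndN1q2a ndN1q3 pcN1 cut_pp_213_a Ext.none :=
  certN0 (fam := false) (s1 := true) (s2 := true) (a := 2) (b := 1) (c := 3) (cn := .pnn) (n1 := ndN1q2a) (n2 := ndN1q3) (pc := pcN1) (cut := cut_pp_213_a) (xt := Ext.none) (P1 := 0) (W1 := 536870912) (P2 := 1610612736) (W2 := 536870912) (P3 := 402653184) (W3 := 67108864) (N0 := 3)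
    rfl k0_pp_213_a

noncomputable def cut_pp_213_b : Cut := Cut.of [[⟨0, 1, 0, 67108864⟩, ⟨1, 1, 0, 67108864⟩, ⟨2, 2, 0, 16777216⟩]]

noncomputable def f_pp_213_b : ℕ → ℕ → ℕ → ℕ → Bool := onCell 1239849684 370763052 1610612736 536870912 402653184 67108864
    (rowN 3 0 false true true .pnn 2 1 3 (qsf 1239849684 370763052 1610612736 536870912 1) ndN1q2b ndN1q3 pcN1 cut_pp_213_b Ext.none)

def k0_pp_213_b : ∃ t, chk3 f_pp_213_b t 1 1 1 = true :=
  ⟨(l 3), by decide +kernel⟩

theorem c_pp_213_b : CertN 1239849684 370763052 1610612736 536870912 402653184 67108864 3 false true true .pnn 2 1 3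
    ndN1q2b ndN1q3 pcN1 cut_pp_213_b Ext.none :=
  certN0 (fam := false) (s1 := true) (s2 := true) (a := 2) (b := 1) (c := 3) (cn := .pnn) (n1 := ndN1q2b) (n2 := ndN1q3) (pc := pcN1) (cut := cut_pp_213_b) (xt := Ext.none) (P1 := 1239849684) (W1 := 370763052) (P2 := 1610612736) (W2 := 536870912) (P3 := 402653184) (W3 := 67108864) (N0 := 3)
    rfl k0_pp_213_b

noncomputable def f_pp_303 : ℕ → ℕ → ℕ → ℕ → Bool := onCell 1610612736 536870912 1610612736 536870912 402653184 67108864
    (rowN 3 0 false true true .npn 3 0 3 (qsf 1610612736 536870912 1610612736 536870912 0) ndN1q3 ndN1q3 pcN0 Cut.none Ext.none)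

def k0_pp_303 : ∃ t, chk3 f_pp_303 t 1 1 1 = true :=
  ⟨(l 3), by decide +kernel⟩

theorem c_pp_303 : CertN 1610612736 536870912 1610612736 536870912 402653184 67108864 3 false true true .npn 3 0 3
    ndN1q3 ndN1q3 pcN0 Cut.none Ext.none :=
  certN0 (fam := false) (s1 := true) (s2 := true) (a := 3) (b := 0) (c := 3) (cn := .npn) (n1 := ndN1q3) (n2 := ndN1q3) (pc := pcN0) (cut := Cut.none) (xt := Ext.none) (P1 := 1610612736) (W1 := 536870912) (P2 := 1610612736) (W2 := 536870912) (P3 := 402653184) (W3 := 67108864) (N0 := 3)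
    rfl k0_pp_303

noncomputable def f_pp_313 : ℕ → ℕ → ℕ → ℕ → Bool := onCell 1610612736 536870912 1610612736 536870912 402653184 67108864
    (rowN 3 0 false true true .dn 3 1 3 (qsf 1610612736 536870912 1610612736 536870912 1) ndN1q3 ndN1q3 pcN1 Cut.none Ext.none)

def k0_pp_313 : ∃ t, chk3 f_pp_313 t 1 1 1 = true :=
  ⟨(l 3), by decide +kernel⟩

theorem c_pp_313 : CertN 1610612736 536870912 1610612736 536870912 402653184 67108864 3 false true true .dn 3 1 3
    ndN1q3 ndN1q3 pcN1 Cut.none Ext.none :=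
  certN0 (fam := false) (s1 := true) (s2 := true) (a := 3) (b := 1) (c := 3) (cn := .dn) (n1 := ndN1q3) (n2 := ndN1q3) (pc := pcN1) (cut := Cut.none) (xt := Ext.none) (P1 := 1610612736) (W1 := 536870912) (P2 := 1610612736) (W2 := 536870912) (P3 := 402653184) (W3 := 67108864) (N0 := 3)
    rfl k0_pp_313

noncomputable def f_pm_001 : ℕ → ℕ → ℕ → ℕ → Bool := onCell 0 536870912 536870912 536870912 402653184 67108864
    (rowN 3 0 false true false .up 0 0 1 (qsf 0 536870912 536870912 536870912 0) ndN1q0 ndN1q1 pcN0 Cut.none Ext.none)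

def k0_pm_001 : ∃ t, chk3 f_pm_001 t 1 1 1 = true :=
  ⟨(l 4), by decide +kernel⟩

theorem c_pm_001 : CertN 0 536870912 536870912 536870912 402653184 67108864 3 false true false .up 0 0 1
    ndN1q0 ndN1q1 pcN0 Cut.none Ext.none :=
  certN0 (fam := false) (s1 := true) (s2 := false) (a := 0) (b := 0) (c := 1) (cn := .up) (n1 := ndN1q0) (n2 := ndN1q1) (pc := pcN0) (cut := Cut.none) (xt := Ext.none) (P1 := 0) (W1 := 536870912) (P2 := 536870912) (W2 := 536870912) (P3 := 402653184) (W3 := 67108864) (N0 := 3)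
    rfl k0_pm_001

noncomputable def f_pm_011 : ℕ → ℕ → ℕ → ℕ → Bool := onCell 0 536870912 536870912 536870912 402653184 67108864
    (rowN 3 0 false true false .pnn 0 1 1 (qsf 0 536870912 536870912 536870912 1) ndN1q0 ndN1q1 pcN1 Cut.none Ext.none)

def k0_pm_011 : ∃ t, chk3 f_pm_011 t 1 1 1 = true :=
  ⟨(l 4), by decide +kernel⟩

theorem c_pm_011 : CertN 0 536870912 536870912 536870912 402653184 67108864 3 false true false .pnn 0 1 1
    ndN1q0 ndN1q1 pcN1 Cut.none Ext.none :=
  certN0 (fam := false) (s1 := true) (s2 := false) (a := 0) (b := 1) (c := 1) (cn := .pnn) (n1 := ndN1q0) (n2 := ndN1q1) (pc := pcN1) (cut := Cut.none) (xt := Ext.none) (P1 := 0) (W1 := 536870912) (P2 := 536870912) (W2 := 536870912) (P3 := 402653184) (W3 := 67108864) (N0 := 3)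
    rfl k0_pm_011

noncomputable def cut_pm_012_a : Cut := Cut.of [[⟨0, 0, 0, 67108864⟩, ⟨1, 1, 0, 67108864⟩, ⟨2, 1, 0, 67108864⟩]]

noncomputable def f_pm_012_a : ℕ → ℕ → ℕ → ℕ → Bool := onCell 536870912 536870912 0 536870912 402653184 67108864
    (rowN 3 2 false true false .pnp 0 1 2 (qsf 0 536870912 0 536870912 1) ndN1q0 ndN1q2a pcN1 cut_pm_012_a Ext.none)

def k0_pm_012_a : ∃ t, chk3 f_pm_012_a t 1 1 1 = true :=
  ⟨(a (a (a (b (l 2) (b (l 2) (l 16568264))) (b (b (l 2) (b (l 2) (l 16673472))) (b (l 16562224) (l 16429816)))) (b (a (b (l 16628816) (b (l 16532912) (l 16457096))) (b (l 16370504) (l 16276088))) (b (a (b (l 16356776) (l 16337632)) (b (l 16320624) (l 16369352))) (a (b (l 16402928) (l 16473384)) (b (l 16441240) (l 16600136)))))) (b (b (a (l 16353272) (a (l 16310848) (l 16341128))) (a (a (l 16314248) (l 16327952)) (a (l 16342872) (a (l 16361384) (l 16398432))))) (a (b (a (b (l 16356784) (l 16399712)) (b (l 16388232) (a (l 16428440) (l 16444344)))) (a (b (l 16476064)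 (l 112977347719)) (b (l 16656944) (a (l 16561824) (l 16623824))))) (b (a (b (l 16426912) (a (l 16461200) (l 16476584))) (b (a (l 16423672) (l 16440192)) (a (l 16491624) (l 16593000)))) (b (a (a (l 16578672) (l 16592992)) (a (b (l 16532168) (l 16596408)) (b (a (l 16568528) (l 16578760)) (a (l 16635768) (b (l 16614192) (l 16681568)))))) (a (b (a (l 4) (l 16623456)) (l 4)) (b (a (a (l 16662208) (l 16653704)) (a (l 196729454551) (l 6))) (a (l 4) (l 6))))))))), by decide +kernel⟩

theorem c_pm_012_a : CertN 0 536870912 0 536870912 402653184 67108864 3 false true false .pnp 0 1 2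
    ndN1q0 ndN1q2a pcN1 cut_pm_012_a Ext.none :=
  certN2 (fam := false) (s1 := true) (s2 := false) (a := 0) (b := 1) (c := 2) (cn := .pnp) (n1 := ndN1q0) (n2 := ndN1q2a) (pc := pcN1) (cut := cut_pm_012_a) (xt := Ext.none) (P1 := 0) (W1 := 536870912) (P2 := 0) (W2 := 536870912) (P3 := 402653184) (W3 := 67108864) (N0 := 3)
    rfl (fun _ => rfl) k0_pm_012_a

noncomputable def cut_pm_012_b : Cut := Cut.of [[⟨0, 0, 0, 67108864⟩, ⟨1, 1, 0, 67108864⟩, ⟨2, 1, 0, 67108864⟩]]

noncomputable def f_pm_012_b : ℕ → ℕ → ℕ → ℕ → Bool := onCell 536870912 536870912 1239849684 370763052 402653184 67108864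
    (rowN 3 2 false true false .pnp 0 1 2 (qsf 0 536870912 1239849684 370763052 1) ndN1q0 ndN1q2b pcN1 cut_pm_012_b Ext.none)

def k0_pm_012_b : ∃ t, chk3 f_pm_012_b t 1 1 1 = true :=
  ⟨(a (a (l 2) (b (a (l 16816776) (l 16674936)) (l 2))) (b (a (b (l 16414448) (a (l 16588512) (l 16262880))) (a (b (l 16227304) (l 16076632)) (b (l 16327848) (l 16080504)))) (a (a (l 2) (l 16821624)) (a (l 16616992) (l 16162304))))), by decide +kernel⟩

theorem c_pm_012_b : CertN 0 536870912 1239849684 370763052 402653184 67108864 3 false true false .pnp 0 1 2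
    ndN1q0 ndN1q2b pcN1 cut_pm_012_b Ext.none :=
  certN2 (fam := false) (s1 := true) (s2 := false) (a := 0) (b := 1) (c := 2) (cn := .pnp) (n1 := ndN1q0) (n2 := ndN1q2b) (pc := pcN1) (cut := cut_pm_012_b) (xt := Ext.none) (P1 := 0) (W1 := 536870912) (P2 := 1239849684) (W2 := 370763052) (P3 := 402653184) (W3 := 67108864) (N0 := 3)
    rfl (fun _ => rfl) k0_pm_012_b

noncomputable def cut_pm_022_a : Cut := Cut.of [[⟨0, 0, 0, 67108864⟩, ⟨1, 1, 0, 67108864⟩, ⟨2, 1, 0, 67108864⟩]]

noncomputable def f_pm_022_a : ℕ → ℕ → ℕ → ℕ → Bool := onCell 0 536870912 0 536870912 402653184 67108864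
    (rowN 3 0 false true false .pp 0 2 2 (qsf 0 536870912 0 536870912 2) ndN1q0 ndN1q2a pcN2 cut_pm_022_a Ext.none)

def k0_pm_022_a : ∃ t, chk3 f_pm_022_a t 1 1 1 = true :=
  ⟨(a (b (a (a (b (a (b (l 16473280) (l 16506664)) (l 16418328)) (a (b (l 16568144) (a (l 16584736) (l 16520320))) (b (l 16439792) (l 16464080)))) (b (l 16426400) (a (l 16457376) (l 16404232)))) (a (b (l 16367848) (b (l 16371880) (l 16390792))) (l 1))) (a (b (a (a (b (a (a (l 16639904) (l 16591768)) (l 16553232)) (a (a (b (l 16591320) (l 16656264)) (l 16675056)) (l 16615064))) (b (l 16537600) (l 16627440))) (b (a (l 16469920) (l 16453120)) (a (b (l 16509568) (l 16540904)) (b (l 16489536) (l 1))))) (a (a (b (b (a (a (a (l 16685808) (l 16679920)) (l 16629024)) (l 16631688)) (l 6)) (l 6)) (a (b (b (l 16600976) (l 6)) (l 6)) (b (b (l 16612008) (b (l 16618104) (l 16637008))) (l 1)))) (b (b (a (a (l 16580280) (l 1)) (l 1)) (l 1)) (l 1)))) (b (l 1) (l 1)))) (l 1)), by decide +kernel⟩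

theorem c_pm_022_a : CertN 0 536870912 0 536870912 402653184 67108864 3 false true false .pp 0 2 2
    ndN1q0 ndN1q2a pcN2 cut_pm_022_a Ext.none :=
  certN0 (fam := false) (s1 := true) (s2 := false) (a := 0) (b := 2) (c := 2) (cn := .pp) (n1 := ndN1q0) (n2 := ndN1q2a) (pc := pcN2) (cut := cut_pm_022_a) (xt := Ext.none) (P1 := 0) (W1 := 536870912) (P2 := 0) (W2 := 536870912) (P3 := 402653184) (W3 := 67108864) (N0 := 3)
    rfl k0_pm_022_a

noncomputable def cut_pm_022_b : Cut := Cut.of [[⟨0, 0, 0, 67108864⟩, ⟨1, 1, 0, 67108864⟩, ⟨2, 1, 0, 67108864⟩]]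

noncomputable def f_pm_022_b : ℕ → ℕ → ℕ → ℕ → Bool := onCell 0 536870912 1073741824 536870912 402653184 67108864
    (rowN 3 1 false true false .pp 0 2 2 (qsf 0 536870912 1239849684 370763052 2) ndN1q0 ndN1q2b pcN2 cut_pm_022_b Ext.none)

def k0_pm_022_b : ∃ t, chk3 f_pm_022_b t 1 1 1 = true :=
  ⟨(b (a (b (a (a (b (l 1) (a (a (l 1) (l 16638112)) (l 16562632))) (b (b (l 16567312) (l 16484512)) (l 16458056))) (b (a (l 16326856) (l 16166976)) (l 16257112))) (a (a (b (a (a (b (l 16511032) (l 16409064)) (l 16431216)) (l 16355440)) (a (a (l 16406200) (l 16336272)) (l 16198048))) (b (l 16244512) (l 16082328))) (b (l 16076264) (l 15895024)))) (b (a (b (l 15989720) (l 15886664)) (b (l 16409552) (l 16722312))) (a (b (l 16299776) (l 16643760)) (l 17006592)))) (b (a (a (a (b (a (l 16281744) (l 16142336)) (l 16207720)) (b (l 15946984) (l 16153776))) (b (l 16285368) (l 16640640))) (a (l 16956040) (l 2))) (a (a (b (a (l 16245056) (l 16578688)) (l 4)) (l 4)) (l 2)))), by decide +kernel⟩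

theorem c_pm_022_b : CertN 0 536870912 1239849684 370763052 402653184 67108864 3 false true false .pp 0 2 2
    ndN1q0 ndN1q2b pcN2 cut_pm_022_b Ext.none :=
  certN1 (fam := false) (s1 := true) (s2 := false) (a := 0) (b := 2) (c := 2) (cn := .pp) (n1 := ndN1q0) (n2 := ndN1q2b) (pc := pcN2) (cut := cut_pm_022_b) (xt := Ext.none) (P1 := 0) (W1 := 536870912) (P2 := 1239849684) (W2 := 370763052) (P3 := 402653184) (W3 := 67108864) (N0 := 3)
    rfl (fun _ => rfl) k0_pm_022_b

noncomputable def f_pm_023 : ℕ → ℕ → ℕ → ℕ → Bool := onCell 1073741824 536870912 1610612736 536870912 402653184 67108864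
    (rowN 3 2 false true false .up 0 2 3 (qsf 0 536870912 1610612736 536870912 2) ndN1q0 ndN1q3 pcN2 Cut.none Ext.none)

def k0_pm_023 : ∃ t, chk3 f_pm_023 t 1 1 1 = true :=
  ⟨(a (a (b (b (l 16783088) (l 17157280)) (l 2)) (b (b (l 16752312) (l 17114496)) (l 17403064))) (a (b (b (a (l 16764520) (l 16799096)) (l 17082616)) (b (l 17205024) (l 17198776))) (a (b (l 4) (l 17182648)) (b (l 4) (l 17158712))))), by decide +kernel⟩

theorem c_pm_023 : CertN 0 536870912 1610612736 536870912 402653184 67108864 3 false true false .up 0 2 3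
    ndN1q0 ndN1q3 pcN2 Cut.none Ext.none :=
  certN2 (fam := false) (s1 := true) (s2 := false) (a := 0) (b := 2) (c := 3) (cn := .up) (n1 := ndN1q0) (n2 := ndN1q3) (pc := pcN2) (cut := Cut.none) (xt := Ext.none) (P1 := 0) (W1 := 536870912) (P2 := 1610612736) (W2 := 536870912) (P3 := 402653184) (W3 := 67108864) (N0 := 3)
    rfl (fun _ => rfl) k0_pm_023

noncomputable def f_pm_033 : ℕ → ℕ → ℕ → ℕ → Bool := onCell 0 536870912 1610612736 536870912 402653184 67108864
    (rowN 3 0 false true false .pnn 0 3 3 (qsf 0 536870912 1610612736 536870912 3) ndN1q0 ndN1q3 pcN3 Cut.none Ext.none)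

def k0_pm_033 : ∃ t, chk3 f_pm_033 t 1 1 1 = true :=
  ⟨(a (b (b (a (l 4) (b (l 1) (a (l 4) (l 1)))) (l 4)) (l 4)) (b (a (b (l 1) (a (b (l 1) (l 4)) (l 1))) (l 1)) (b (a (l 4) (a (l 513282446119) (l 1))) (a (l 4) (a (l 4) (l 17151840)))))), by decide +kernel⟩

theorem c_pm_033 : CertN 0 536870912 1610612736 536870912 402653184 67108864 3 false true false .pnn 0 3 3
    ndN1q0 ndN1q3 pcN3 Cut.none Ext.none :=
  certN0 (fam := false) (s1 := true) (s2 := false) (a := 0) (b := 3) (c := 3) (cn := .pnn) (n1 := ndN1q0) (n2 := ndN1q3) (pc := pcN3) (cut := Cut.none) (xt := Ext.none) (P1 := 0) (W1 := 536870912) (P2 := 1610612736) (W2 := 536870912) (P3 := 402653184) (W3 := 67108864) (N0 := 3)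
    rfl k0_pm_033

noncomputable def f_pm_101 : ℕ → ℕ → ℕ → ℕ → Bool := onCell 536870912 536870912 536870912 536870912 402653184 67108864
    (rowN 3 0 false true false .npn 1 0 1 (qsf 536870912 536870912 536870912 536870912 0) ndN1q1 ndN1q1 pcN0 Cut.none Ext.none)

def k0_pm_101 : ∃ t, chk3 f_pm_101 t 1 1 1 = true :=
  ⟨(l 4), by decide +kernel⟩

theorem c_pm_101 : CertN 536870912 536870912 536870912 536870912 402653184 67108864 3 false true false .npn 1 0 1
    ndN1q1 ndN1q1 pcN0 Cut.none Ext.none :=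
  certN0 (fam := false) (s1 := true) (s2 := false) (a := 1) (b := 0) (c := 1) (cn := .npn) (n1 := ndN1q1) (n2 := ndN1q1) (pc := pcN0) (cut := Cut.none) (xt := Ext.none) (P1 := 536870912) (W1 := 536870912) (P2 := 536870912) (W2 := 536870912) (P3 := 402653184) (W3 := 67108864) (N0 := 3)
    rfl k0_pm_101

noncomputable def f_pm_102_a : ℕ → ℕ → ℕ → ℕ → Bool := onCell 0 536870912 0 536870912 402653184 67108864
    (rowN 3 2 false true false .npp 1 0 2 (qsf 536870912 536870912 0 536870912 0) ndN1q1 ndN1q2a pcN0 Cut.none Ext.none)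

def k0_pm_102_a : ∃ t, chk3 f_pm_102_a t 1 1 1 = true :=
  ⟨(a (a (b (a (l 2) (b (l 2) (a (l 2) (l 16777920)))) (b (a (l 2) (b (l 16842592) (l 16906488))) (a (b (a (l 2) (l 16923744)) (l 17014848)) (b (l 16991616) (l 16997408))))) (b (b (a (l 225049984151) (l 16808984)) (a (l 16877120) (l 16959200))) (b (a (b (l 16970912) (l 16996904)) (l 16961520)) (a (l 16993528) (l 16963288))))) (b (a (b (l 17015408) (l 16886640)) (b (a (l 16896256) (l 17042272)) (l 16931784))) (a (b (a (l 16934592) (l 16928048)) (a (l 16949872) (l 16927360))) (b (a (l 16982072) (b (l 16906952) (l 16880320))) (a (l 16887208) (l 16813504)))))), by decide +kernel⟩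

theorem c_pm_102_a : CertN 536870912 536870912 0 536870912 402653184 67108864 3 false true false .npp 1 0 2
    ndN1q1 ndN1q2a pcN0 Cut.none Ext.none :=
  certN2 (fam := false) (s1 := true) (s2 := false) (a := 1) (b := 0) (c := 2) (cn := .npp) (n1 := ndN1q1) (n2 := ndN1q2a) (pc := pcN0) (cut := Cut.none) (xt := Ext.none) (P1 := 536870912) (W1 := 536870912) (P2 := 0) (W2 := 536870912) (P3 := 402653184) (W3 := 67108864) (N0 := 3)
    rfl (fun _ => rfl) k0_pm_102_a

noncomputable def f_pm_102_b : ℕ → ℕ → ℕ → ℕ → Bool := onCell 536870912 536870912 1239849684 370763052 402653184 67108864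
    (rowN 3 0 false true false .npp 1 0 2 (qsf 536870912 536870912 1239849684 370763052 0) ndN1q1 ndN1q2b pcN0 Cut.none Ext.none)

def k0_pm_102_b : ∃ t, chk3 f_pm_102_b t 1 1 1 = true :=
  ⟨(a (b (a (l 2) (l 16995736)) (l 2)) (b (a (b (l 16826576) (l 16893840)) (a (l 16954312) (a (l 16809384) (l 16950976)))) (a (l 17007288) (a (l 16962936) (l 16863088))))), by decide +kernel⟩

theorem c_pm_102_b : CertN 536870912 536870912 1239849684 370763052 402653184 67108864 3 false true false .npp 1 0 2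
    ndN1q1 ndN1q2b pcN0 Cut.none Ext.none :=
  certN0 (fam := false) (s1 := true) (s2 := false) (a := 1) (b := 0) (c := 2) (cn := .npp) (n1 := ndN1q1) (n2 := ndN1q2b) (pc := pcN0) (cut := Cut.none) (xt := Ext.none) (P1 := 536870912) (W1 := 536870912) (P2 := 1239849684) (W2 := 370763052) (P3 := 402653184) (W3 := 67108864) (N0 := 3)
    rfl k0_pm_102_b

noncomputable def f_pm_112_a : ℕ → ℕ → ℕ → ℕ → Bool := onCell 536870912 536870912 0 536870912 402653184 67108864
    (rowN 3 2 false true false .dn 1 1 2 (qsf 536870912 536870912 0 536870912 1) ndN1q1 ndN1q2a pcN1 Cut.none Ext.none)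

def k0_pm_112_a : ∃ t, chk3 f_pm_112_a t 1 1 1 = true :=
  ⟨(a (a (a (b (b (a (l 16891168) (l 16838488)) (a (l 16860352) (l 16798672))) (b (a (l 16773776) (l 16706680)) (l 16583112))) (b (b (l 16780680) (a (l 16740152) (l 16664272))) (b (l 16571904) (l 16408680)))) (b (a (b (l 16636264) (b (l 16537696) (l 16459248))) (l 1)) (b (l 1) (l 1)))) (l 1)), by decide +kernel⟩

theorem c_pm_112_a : CertN 536870912 536870912 0 536870912 402653184 67108864 3 false true false .dn 1 1 2
    ndN1q1 ndN1q2a pcN1 Cut.none Ext.none :=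
  certN2 (fam := false) (s1 := true) (s2 := false) (a := 1) (b := 1) (c := 2) (cn := .dn) (n1 := ndN1q1) (n2 := ndN1q2a) (pc := pcN1) (cut := Cut.none) (xt := Ext.none) (P1 := 536870912) (W1 := 536870912) (P2 := 0) (W2 := 536870912) (P3 := 402653184) (W3 := 67108864) (N0 := 3)
    rfl (fun _ => rfl) k0_pm_112_a

noncomputable def f_pm_112_b : ℕ → ℕ → ℕ → ℕ → Bool := onCell 536870912 536870912 1239849684 370763052 402653184 67108864
    (rowN 3 2 false true false .dn 1 1 2 (qsf 536870912 536870912 1239849684 370763052 1) ndN1q1 ndN1q2b pcN1 Cut.none Ext.none)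

def k0_pm_112_b : ∃ t, chk3 f_pm_112_b t 1 1 1 = true :=
  ⟨(a (a (a (b (a (l 16877416) (l 16893848)) (b (l 17112328) (l 17193056))) (b (l 16874976) (l 17067120))) (b (a (l 16815720) (l 16677336)) (a (l 17001168) (l 16981072)))) (b (a (b (l 1) (l 16446760)) (l 1)) (a (a (l 16936112) (l 16819696)) (l 255583444359)))), by decide +kernel⟩

theorem c_pm_112_b : CertN 536870912 536870912 1239849684 370763052 402653184 67108864 3 false true false .dn 1 1 2
    ndN1q1 ndN1q2b pcN1 Cut.none Ext.none :=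
  certN2 (fam := false) (s1 := true) (s2 := false) (a := 1) (b := 1) (c := 2) (cn := .dn) (n1 := ndN1q1) (n2 := ndN1q2b) (pc := pcN1) (cut := Cut.none) (xt := Ext.none) (P1 := 536870912) (W1 := 536870912) (P2 := 1239849684) (W2 := 370763052) (P3 := 402653184) (W3 := 67108864) (N0 := 3)
    rfl (fun _ => rfl) k0_pm_112_b

noncomputable def f_pm_113 : ℕ → ℕ → ℕ → ℕ → Bool := onCell 536870912 536870912 536870912 536870912 402653184 67108864
    (rowN 3 1 false true false .nn 1 1 3 (qsf 536870912 536870912 1610612736 536870912 1) ndN1q1 ndN1q3 pcN1 Cut.none Ext.none)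

def k0_pm_113 : ∃ t, chk3 f_pm_113 t 1 1 1 = true :=
  ⟨(a (b (b (l 1) (a (l 1) (b (l 1) (l 16983688)))) (b (a (l 302829212023) (l 17047128)) (a (l 338262713991) (l 17145088)))) (b (b (b (a (l 1) (l 17341720)) (a (l 17045112) (l 17319504))) (a (l 426310168967) (l 17500152))) (b (a (l 17143136) (l 17375128)) (a (l 17208600) (a (l 17086760) (l 16941360)))))), by decide +kernel⟩

theorem c_pm_113 : CertN 536870912 536870912 1610612736 536870912 402653184 67108864 3 false true false .nn 1 1 3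
    ndN1q1 ndN1q3 pcN1 Cut.none Ext.none :=
  certN1 (fam := false) (s1 := true) (s2 := false) (a := 1) (b := 1) (c := 3) (cn := .nn) (n1 := ndN1q1) (n2 := ndN1q3) (pc := pcN1) (cut := Cut.none) (xt := Ext.none) (P1 := 536870912) (W1 := 536870912) (P2 := 1610612736) (W2 := 536870912) (P3 := 402653184) (W3 := 67108864) (N0 := 3)
    rfl (fun _ => rfl) k0_pm_113

noncomputable def f_pm_123 : ℕ → ℕ → ℕ → ℕ → Bool := onCell 1073741824 536870912 1610612736 536870912 402653184 67108864
    (rowN 3 2 false true false .npn 1 2 3 (qsf 536870912 536870912 1610612736 536870912 2) ndN1q1 ndN1q3 pcN2 Cut.none Ext.none)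

def k0_pm_123 : ∃ t, chk3 f_pm_123 t 1 1 1 = true :=
  ⟨(a (b (a (b (l 16899896) (l 17164608)) (b (l 16938928) (l 17114904))) (a (b (l 17247240) (l 17055120)) (b (l 17229984) (l 17128976)))) (b (a (b (l 1) (l 17067216)) (l 1)) (a (b (l 17208944) (l 17186232)) (a (l 17184200) (l 17142648))))), by decide +kernel⟩

theorem c_pm_123 : CertN 536870912 536870912 1610612736 536870912 402653184 67108864 3 false true false .npn 1 2 3
    ndN1q1 ndN1q3 pcN2 Cut.none Ext.none :=
  certN2 (fam := false) (s1 := true) (s2 := false) (a := 1) (b := 2) (c := 3) (cn := .npn) (n1 := ndN1q1) (n2 := ndN1q3) (pc := pcN2) (cut := Cut.none) (xt := Ext.none) (P1 := 536870912) (W1 := 536870912) (P2 := 1610612736) (W2 := 536870912) (P3 := 402653184) (W3 := 67108864) (N0 := 3)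
    rfl (fun _ => rfl) k0_pm_123

noncomputable def f_pm_133 : ℕ → ℕ → ℕ → ℕ → Bool := onCell 1610612736 536870912 1610612736 536870912 402653184 67108864
    (rowN 3 2 false true false .dn 1 3 3 (qsf 536870912 536870912 1610612736 536870912 3) ndN1q1 ndN1q3 pcN3 Cut.none Ext.none)

def k0_pm_133 : ∃ t, chk3 f_pm_133 t 1 1 1 = true :=
  ⟨(a (b (l 1) (a (a (l 17087072) (l 1)) (l 1))) (l 1)), by decide +kernel⟩

theorem c_pm_133 : CertN 536870912 536870912 1610612736 536870912 402653184 67108864 3 false true false .dn 1 3 3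
    ndN1q1 ndN1q3 pcN3 Cut.none Ext.none :=
  certN2 (fam := false) (s1 := true) (s2 := false) (a := 1) (b := 3) (c := 3) (cn := .dn) (n1 := ndN1q1) (n2 := ndN1q3) (pc := pcN3) (cut := Cut.none) (xt := Ext.none) (P1 := 536870912) (W1 := 536870912) (P2 := 1610612736) (W2 := 536870912) (P3 := 402653184) (W3 := 67108864) (N0 := 3)
    rfl (fun _ => rfl) k0_pm_133

noncomputable def cut_pm_202_aa : Cut := Cut.of [[⟨0, 1, 0, 67108864⟩, ⟨1, 0, 0, 67108864⟩, ⟨2, 1, 0, 67108864⟩]]

noncomputable def f_pm_202_aa : ℕ → ℕ → ℕ → ℕ → Bool := onCell 0 536870912 0 536870912 402653184 67108864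
    (rowN 3 0 false true false .pp 2 0 2 (qsf 0 536870912 0 536870912 0) ndN1q2a ndN1q2a pcN0 cut_pm_202_aa Ext.none)

def k0_pm_202_aa : ∃ t, chk3 f_pm_202_aa t 1 1 1 = true :=
  ⟨(a (l 3) (b (l 3) (b (l 3) (a (l 3) (b (l 3) (a (l 3) (l 6))))))), by decide +kernel⟩

theorem c_pm_202_aa : CertN 0 536870912 0 536870912 402653184 67108864 3 false true false .pp 2 0 2
    ndN1q2a ndN1q2a pcN0 cut_pm_202_aa Ext.none :=
  certN0 (fam := false) (s1 := true) (s2 := false) (a := 2) (b := 0) (c := 2) (cn := .pp) (n1 := ndN1q2a) (n2 := ndN1q2a) (pc := pcN0) (cut := cut_pm_202_aa) (xt := Ext.none) (P1 := 0) (W1 := 536870912) (P2 := 0) (W2 := 536870912) (P3 := 402653184) (W3 := 67108864) (N0 := 3)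
    rfl k0_pm_202_aa

noncomputable def cut_pm_202_ab : Cut := Cut.of [[⟨0, 1, 0, 67108864⟩, ⟨1, 0, 0, 67108864⟩, ⟨2, 1, 0, 67108864⟩]]

noncomputable def f_pm_202_ab : ℕ → ℕ → ℕ → ℕ → Bool := onCell 0 536870912 1239849684 370763052 402653184 67108864
    (rowN 3 0 false true false .pp 2 0 2 (qsf 0 536870912 1239849684 370763052 0) ndN1q2a ndN1q2b pcN0 cut_pm_202_ab Ext.none)

def k0_pm_202_ab : ∃ t, chk3 f_pm_202_ab t 1 1 1 = true :=
  ⟨(l 3), by decide +kernel⟩

theorem c_pm_202_ab : CertN 0 536870912 1239849684 370763052 402653184 67108864 3 false true false .pp 2 0 2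
    ndN1q2a ndN1q2b pcN0 cut_pm_202_ab Ext.none :=
  certN0 (fam := false) (s1 := true) (s2 := false) (a := 2) (b := 0) (c := 2) (cn := .pp) (n1 := ndN1q2a) (n2 := ndN1q2b) (pc := pcN0) (cut := cut_pm_202_ab) (xt := Ext.none) (P1 := 0) (W1 := 536870912) (P2 := 1239849684) (W2 := 370763052) (P3 := 402653184) (W3 := 67108864) (N0 := 3)
    rfl k0_pm_202_ab

noncomputable def cut_pm_202_ba : Cut := Cut.of [[⟨0, 1, 0, 67108864⟩, ⟨1, 0, 0, 67108864⟩, ⟨2, 1, 0, 67108864⟩]]

noncomputable def f_pm_202_ba : ℕ → ℕ → ℕ → ℕ → Bool := onCell 1239849684 370763052 0 536870912 402653184 67108864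
    (rowN 3 0 false true false .pp 2 0 2 (qsf 1239849684 370763052 0 536870912 0) ndN1q2b ndN1q2a pcN0 cut_pm_202_ba Ext.none)

def k0_pm_202_ba : ∃ t, chk3 f_pm_202_ba t 1 1 1 = true :=
  ⟨(l 3), by decide +kernel⟩

theorem c_pm_202_ba : CertN 1239849684 370763052 0 536870912 402653184 67108864 3 false true false .pp 2 0 2
    ndN1q2b ndN1q2a pcN0 cut_pm_202_ba Ext.none :=
  certN0 (fam := false) (s1 := true) (s2 := false) (a := 2) (b := 0) (c := 2) (cn := .pp) (n1 := ndN1q2b) (n2 := ndN1q2a) (pc := pcN0) (cut := cut_pm_202_ba) (xt := Ext.none) (P1 := 1239849684) (W1 := 370763052) (P2 := 0) (W2 := 536870912) (P3 := 402653184) (W3 := 67108864) (N0 := 3)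
    rfl k0_pm_202_ba

noncomputable def cut_pm_202_bb : Cut := Cut.of [[⟨0, 1, 0, 67108864⟩, ⟨1, 0, 0, 67108864⟩, ⟨2, 1, 0, 67108864⟩]]

noncomputable def f_pm_202_bb : ℕ → ℕ → ℕ → ℕ → Bool := onCell 1239849684 370763052 1239849684 370763052 402653184 67108864
    (rowN 3 0 false true false .pp 2 0 2 (qsf 1239849684 370763052 1239849684 370763052 0) ndN1q2b ndN1q2b pcN0 cut_pm_202_bb Ext.none)

def k0_pm_202_bb : ∃ t, chk3 f_pm_202_bb t 1 1 1 = true :=
  ⟨(l 3), by decide +kernel⟩

theorem c_pm_202_bb : CertN 1239849684 370763052 1239849684 370763052 402653184 67108864 3 false true false .pp 2 0 2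
    ndN1q2b ndN1q2b pcN0 cut_pm_202_bb Ext.none :=
  certN0 (fam := false) (s1 := true) (s2 := false) (a := 2) (b := 0) (c := 2) (cn := .pp) (n1 := ndN1q2b) (n2 := ndN1q2b) (pc := pcN0) (cut := cut_pm_202_bb) (xt := Ext.none) (P1 := 1239849684) (W1 := 370763052) (P2 := 1239849684) (W2 := 370763052) (P3 := 402653184) (W3 := 67108864) (N0 := 3)
    rfl k0_pm_202_bb

noncomputable def f_pm_203_a : ℕ → ℕ → ℕ → ℕ → Bool := onCell 0 536870912 0 536870912 402653184 67108864
    (rowN 3 1 false true false .up 2 0 3 (qsf 0 536870912 1610612736 536870912 0) ndN1q2a ndN1q3 pcN0 Cut.none Ext.none)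

def k0_pm_203_a : ∃ t, chk3 f_pm_203_a t 1 1 1 = true :=
  ⟨(l 3), by decide +kernel⟩

theorem c_pm_203_a : CertN 0 536870912 1610612736 536870912 402653184 67108864 3 false true false .up 2 0 3
    ndN1q2a ndN1q3 pcN0 Cut.none Ext.none :=
  certN1 (fam := false) (s1 := true) (s2 := false) (a := 2) (b := 0) (c := 3) (cn := .up) (n1 := ndN1q2a) (n2 := ndN1q3) (pc := pcN0) (cut := Cut.none) (xt := Ext.none) (P1 := 0) (W1 := 536870912) (P2 := 1610612736) (W2 := 536870912) (P3 := 402653184) (W3 := 67108864) (N0 := 3)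
    rfl (fun _ => rfl) k0_pm_203_a

noncomputable def f_pm_203_b : ℕ → ℕ → ℕ → ℕ → Bool := onCell 1239849684 370763052 1610612736 536870912 402653184 67108864
    (rowN 3 0 false true false .up 2 0 3 (qsf 1239849684 370763052 1610612736 536870912 0) ndN1q2b ndN1q3 pcN0 Cut.none Ext.none)

def k0_pm_203_b : ∃ t, chk3 f_pm_203_b t 1 1 1 = true :=
  ⟨(l 3), by decide +kernel⟩

theorem c_pm_203_b : CertN 1239849684 370763052 1610612736 536870912 402653184 67108864 3 false true false .up 2 0 3
    ndN1q2b ndN1q3 pcN0 Cut.none Ext.none :=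
  certN0 (fam := false) (s1 := true) (s2 := false) (a := 2) (b := 0) (c := 3) (cn := .up) (n1 := ndN1q2b) (n2 := ndN1q3) (pc := pcN0) (cut := Cut.none) (xt := Ext.none) (P1 := 1239849684) (W1 := 370763052) (P2 := 1610612736) (W2 := 536870912) (P3 := 402653184) (W3 := 67108864) (N0 := 3)
    rfl k0_pm_203_b

noncomputable def cut_pm_213_a : Cut := Cut.of [[⟨0, 1, 0, 67108864⟩, ⟨1, 1, 0, 67108864⟩, ⟨2, 2, 0, 16777216⟩]]

noncomputable def f_pm_213_a : ℕ → ℕ → ℕ → ℕ → Bool := onCell 0 536870912 1610612736 536870912 402653184 67108864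
    (rowN 3 0 false true false .pnn 2 1 3 (qsf 0 536870912 1610612736 536870912 1) ndN1q2a ndN1q3 pcN1 cut_pm_213_a Ext.none)

def k0_pm_213_a : ∃ t, chk3 f_pm_213_a t 1 1 1 = true :=
  ⟨(b (l 3) (a (l 3) (b (l 3) (a (l 3) (b (l 3) (a (l 3) (a (l 3) (b (l 3) (b (l 3) (b (l 3) (l 6))))))))))), by decide +kernel⟩

theorem c_pm_213_a : CertN 0 536870912 1610612736 536870912 402653184 67108864 3 false true false .pnn 2 1 3
    ndN1q2a ndN1q3 pcN1 cut_pm_213_a Ext.none :=
  certN0 (fam := false) (s1 := true) (s2 := false) (a := 2) (b := 1) (c := 3) (cn := .pnn) (n1 := ndN1q2a) (n2 := ndN1q3) (pc := pcN1) (cut := cut_pm_213_a) (xt := Ext.none) (P1 := 0) (W1 := 536870912) (P2 := 1610612736) (W2 := 536870912) (P3 := 402653184) (W3 := 67108864) (N0 := 3)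
    rfl k0_pm_213_a

noncomputable def cut_pm_213_b : Cut := Cut.of [[⟨0, 1, 0, 67108864⟩, ⟨1, 1, 0, 67108864⟩, ⟨2, 2, 0, 16777216⟩]]

noncomputable def f_pm_213_b : ℕ → ℕ → ℕ → ℕ → Bool := onCell 1239849684 370763052 1610612736 536870912 402653184 67108864
    (rowN 3 0 false true false .pnn 2 1 3 (qsf 1239849684 370763052 1610612736 536870912 1) ndN1q2b ndN1q3 pcN1 cut_pm_213_b Ext.none)

def k0_pm_213_b : ∃ t, chk3 f_pm_213_b t 1 1 1 = true :=
  ⟨(l 3), by decide +kernel⟩

theorem c_pm_213_b : CertN 1239849684 370763052 1610612736 536870912 402653184 67108864 3 false true false .pnn 2 1 3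
    ndN1q2b ndN1q3 pcN1 cut_pm_213_b Ext.none :=
  certN0 (fam := false) (s1 := true) (s2 := false) (a := 2) (b := 1) (c := 3) (cn := .pnn) (n1 := ndN1q2b) (n2 := ndN1q3) (pc := pcN1) (cut := cut_pm_213_b) (xt := Ext.none) (P1 := 1239849684) (W1 := 370763052) (P2 := 1610612736) (W2 := 536870912) (P3 := 402653184) (W3 := 67108864) (N0 := 3)
    rfl k0_pm_213_b

noncomputable def f_pm_303 : ℕ → ℕ → ℕ → ℕ → Bool := onCell 1610612736 536870912 1610612736 536870912 402653184 67108864
    (rowN 3 0 false true false .npn 3 0 3 (qsf 1610612736 536870912 1610612736 536870912 0) ndN1q3 ndN1q3 pcN0 Cut.none Ext.none)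

def k0_pm_303 : ∃ t, chk3 f_pm_303 t 1 1 1 = true :=
  ⟨(l 3), by decide +kernel⟩

theorem c_pm_303 : CertN 1610612736 536870912 1610612736 536870912 402653184 67108864 3 false true false .npn 3 0 3
    ndN1q3 ndN1q3 pcN0 Cut.none Ext.none :=
  certN0 (fam := false) (s1 := true) (s2 := false) (a := 3) (b := 0) (c := 3) (cn := .npn) (n1 := ndN1q3) (n2 := ndN1q3) (pc := pcN0) (cut := Cut.none) (xt := Ext.none) (P1 := 1610612736) (W1 := 536870912) (P2 := 1610612736) (W2 := 536870912) (P3 := 402653184) (W3 := 67108864) (N0 := 3)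
    rfl k0_pm_303

noncomputable def f_pm_313 : ℕ → ℕ → ℕ → ℕ → Bool := onCell 1610612736 536870912 1610612736 536870912 402653184 67108864
    (rowN 3 0 false true false .dn 3 1 3 (qsf 1610612736 536870912 1610612736 536870912 1) ndN1q3 ndN1q3 pcN1 Cut.none Ext.none)

def k0_pm_313 : ∃ t, chk3 f_pm_313 t 1 1 1 = true :=
  ⟨(l 3), by decide +kernel⟩

theorem c_pm_313 : CertN 1610612736 536870912 1610612736 536870912 402653184 67108864 3 false true false .dn 3 1 3
    ndN1q3 ndN1q3 pcN1 Cut.none Ext.none :=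
  certN0 (fam := false) (s1 := true) (s2 := false) (a := 3) (b := 1) (c := 3) (cn := .dn) (n1 := ndN1q3) (n2 := ndN1q3) (pc := pcN1) (cut := Cut.none) (xt := Ext.none) (P1 := 1610612736) (W1 := 536870912) (P2 := 1610612736) (W2 := 536870912) (P3 := 402653184) (W3 := 67108864) (N0 := 3)
    rfl k0_pm_313

noncomputable def f_mm_001 : ℕ → ℕ → ℕ → ℕ → Bool := onCell 0 536870912 536870912 536870912 402653184 67108864
    (rowN 3 0 false false false .up 0 0 1 (qsf 0 536870912 536870912 536870912 0) ndN1q0 ndN1q1 pcN0 Cut.none Ext.none)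

def k0_mm_001 : ∃ t, chk3 f_mm_001 t 1 1 1 = true :=
  ⟨(l 3), by decide +kernel⟩

theorem c_mm_001 : CertN 0 536870912 536870912 536870912 402653184 67108864 3 false false false .up 0 0 1
    ndN1q0 ndN1q1 pcN0 Cut.none Ext.none :=
  certN0 (fam := false) (s1 := false) (s2 := false) (a := 0) (b := 0) (c := 1) (cn := .up) (n1 := ndN1q0) (n2 := ndN1q1) (pc := pcN0) (cut := Cut.none) (xt := Ext.none) (P1 := 0) (W1 := 536870912) (P2 := 536870912) (W2 := 536870912) (P3 := 402653184) (W3 := 67108864) (N0 := 3)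
    rfl k0_mm_001

noncomputable def f_mm_011 : ℕ → ℕ → ℕ → ℕ → Bool := onCell 0 536870912 536870912 536870912 402653184 67108864
    (rowN 3 0 false false false .pnn 0 1 1 (qsf 0 536870912 536870912 536870912 1) ndN1q0 ndN1q1 pcN1 Cut.none Ext.none)

def k0_mm_011 : ∃ t, chk3 f_mm_011 t 1 1 1 = true :=
  ⟨(l 3), by decide +kernel⟩

theorem c_mm_011 : CertN 0 536870912 536870912 536870912 402653184 67108864 3 false false false .pnn 0 1 1
    ndN1q0 ndN1q1 pcN1 Cut.none Ext.none :=
  certN0 (fam := false) (s1 := false) (s2 := false) (a := 0) (b := 1) (c := 1) (cn := .pnn) (n1 := ndN1q0) (n2 := ndN1q1) (pc := pcN1) (cut := Cut.none) (xt := Ext.none) (P1 := 0) (W1 := 536870912) (P2 := 536870912) (W2 := 536870912) (P3 := 402653184) (W3 := 67108864) (N0 := 3)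
    rfl k0_mm_011

noncomputable def f_mm_012_a : ℕ → ℕ → ℕ → ℕ → Bool := onCell 0 536870912 0 536870912 402653184 67108864
    (rowN 3 0 false false false .pnp 0 1 2 (qsf 0 536870912 0 536870912 1) ndN1q0 ndN1q2a pcN1 Cut.none Ext.none)

def k0_mm_012_a : ∃ t, chk3 f_mm_012_a t 1 1 1 = true :=
  ⟨(l 5), by decide +kernel⟩

theorem c_mm_012_a : CertN 0 536870912 0 536870912 402653184 67108864 3 false false false .pnp 0 1 2
    ndN1q0 ndN1q2a pcN1 Cut.none Ext.none :=
  certN0 (fam := false) (s1 := false) (s2 := false) (a := 0) (b := 1) (c := 2) (cn := .pnp) (n1 := ndN1q0) (n2 := ndN1q2a) (pc := pcN1) (cut := Cut.none) (xt := Ext.none) (P1 := 0) (W1 := 536870912) (P2 := 0) (W2 := 536870912) (P3 := 402653184) (W3 := 67108864) (N0 := 3)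
    rfl k0_mm_012_a

noncomputable def f_mm_012_b : ℕ → ℕ → ℕ → ℕ → Bool := onCell 0 536870912 1239849684 370763052 402653184 67108864
    (rowN 3 0 false false false .pnp 0 1 2 (qsf 0 536870912 1239849684 370763052 1) ndN1q0 ndN1q2b pcN1 Cut.none Ext.none)

def k0_mm_012_b : ∃ t, chk3 f_mm_012_b t 1 1 1 = true :=
  ⟨(l 5), by decide +kernel⟩

theorem c_mm_012_b : CertN 0 536870912 1239849684 370763052 402653184 67108864 3 false false false .pnp 0 1 2
    ndN1q0 ndN1q2b pcN1 Cut.none Ext.none :=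
  certN0 (fam := false) (s1 := false) (s2 := false) (a := 0) (b := 1) (c := 2) (cn := .pnp) (n1 := ndN1q0) (n2 := ndN1q2b) (pc := pcN1) (cut := Cut.none) (xt := Ext.none) (P1 := 0) (W1 := 536870912) (P2 := 1239849684) (W2 := 370763052) (P3 := 402653184) (W3 := 67108864) (N0 := 3)
    rfl k0_mm_012_b

noncomputable def f_mm_022_a : ℕ → ℕ → ℕ → ℕ → Bool := onCell 0 536870912 0 536870912 402653184 67108864
    (rowN 3 0 false false false .pp 0 2 2 (qsf 0 536870912 0 536870912 2) ndN1q0 ndN1q2a pcN2 Cut.none Ext.none)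

def k0_mm_022_a : ∃ t, chk3 f_mm_022_a t 1 1 1 = true :=
  ⟨(l 5), by decide +kernel⟩

theorem c_mm_022_a : CertN 0 536870912 0 536870912 402653184 67108864 3 false false false .pp 0 2 2
    ndN1q0 ndN1q2a pcN2 Cut.none Ext.none :=
  certN0 (fam := false) (s1 := false) (s2 := false) (a := 0) (b := 2) (c := 2) (cn := .pp) (n1 := ndN1q0) (n2 := ndN1q2a) (pc := pcN2) (cut := Cut.none) (xt := Ext.none) (P1 := 0) (W1 := 536870912) (P2 := 0) (W2 := 536870912) (P3 := 402653184) (W3 := 67108864) (N0 := 3)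
    rfl k0_mm_022_a

noncomputable def f_mm_022_b : ℕ → ℕ → ℕ → ℕ → Bool := onCell 0 536870912 1239849684 370763052 402653184 67108864
    (rowN 3 0 false false false .pp 0 2 2 (qsf 0 536870912 1239849684 370763052 2) ndN1q0 ndN1q2b pcN2 Cut.none Ext.none)

def k0_mm_022_b : ∃ t, chk3 f_mm_022_b t 1 1 1 = true :=
  ⟨(l 5), by decide +kernel⟩

theorem c_mm_022_b : CertN 0 536870912 1239849684 370763052 402653184 67108864 3 false false false .pp 0 2 2
    ndN1q0 ndN1q2b pcN2 Cut.none Ext.none :=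
  certN0 (fam := false) (s1 := false) (s2 := false) (a := 0) (b := 2) (c := 2) (cn := .pp) (n1 := ndN1q0) (n2 := ndN1q2b) (pc := pcN2) (cut := Cut.none) (xt := Ext.none) (P1 := 0) (W1 := 536870912) (P2 := 1239849684) (W2 := 370763052) (P3 := 402653184) (W3 := 67108864) (N0 := 3)
    rfl k0_mm_022_b

noncomputable def f_mm_023 : ℕ → ℕ → ℕ → ℕ → Bool := onCell 0 536870912 1610612736 536870912 402653184 67108864
    (rowN 3 0 false false false .up 0 2 3 (qsf 0 536870912 1610612736 536870912 2) ndN1q0 ndN1q3 pcN2 Cut.none Ext.none)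

def k0_mm_023 : ∃ t, chk3 f_mm_023 t 1 1 1 = true :=
  ⟨(l 5), by decide +kernel⟩

theorem c_mm_023 : CertN 0 536870912 1610612736 536870912 402653184 67108864 3 false false false .up 0 2 3
    ndN1q0 ndN1q3 pcN2 Cut.none Ext.none :=
  certN0 (fam := false) (s1 := false) (s2 := false) (a := 0) (b := 2) (c := 3) (cn := .up) (n1 := ndN1q0) (n2 := ndN1q3) (pc := pcN2) (cut := Cut.none) (xt := Ext.none) (P1 := 0) (W1 := 536870912) (P2 := 1610612736) (W2 := 536870912) (P3 := 402653184) (W3 := 67108864) (N0 := 3)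
    rfl k0_mm_023

noncomputable def f_mm_033 : ℕ → ℕ → ℕ → ℕ → Bool := onCell 0 536870912 1610612736 536870912 402653184 67108864
    (rowN 3 0 false false false .pnn 0 3 3 (qsf 0 536870912 1610612736 536870912 3) ndN1q0 ndN1q3 pcN3 Cut.none Ext.none)

def k0_mm_033 : ∃ t, chk3 f_mm_033 t 1 1 1 = true :=
  ⟨(l 5), by decide +kernel⟩

theorem c_mm_033 : CertN 0 536870912 1610612736 536870912 402653184 67108864 3 false false false .pnn 0 3 3
    ndN1q0 ndN1q3 pcN3 Cut.none Ext.none :=
  certN0 (fam := false) (s1 := false) (s2 := false) (a := 0) (b := 3) (c := 3) (cn := .pnn) (n1 := ndN1q0) (n2 := ndN1q3) (pc := pcN3) (cut := Cut.none) (xt := Ext.none) (P1 := 0) (W1 := 536870912) (P2 := 1610612736) (W2 := 536870912) (P3 := 402653184) (W3 := 67108864) (N0 := 3)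
    rfl k0_mm_033

noncomputable def f_mm_101 : ℕ → ℕ → ℕ → ℕ → Bool := onCell 536870912 536870912 536870912 536870912 402653184 67108864
    (rowN 3 0 false false false .npn 1 0 1 (qsf 536870912 536870912 536870912 536870912 0) ndN1q1 ndN1q1 pcN0 Cut.none Ext.none)

def k0_mm_101 : ∃ t, chk3 f_mm_101 t 1 1 1 = true :=
  ⟨(l 3), by decide +kernel⟩

theorem c_mm_101 : CertN 536870912 536870912 536870912 536870912 402653184 67108864 3 false false false .npn 1 0 1
    ndN1q1 ndN1q1 pcN0 Cut.none Ext.none :=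
  certN0 (fam := false) (s1 := false) (s2 := false) (a := 1) (b := 0) (c := 1) (cn := .npn) (n1 := ndN1q1) (n2 := ndN1q1) (pc := pcN0) (cut := Cut.none) (xt := Ext.none) (P1 := 536870912) (W1 := 536870912) (P2 := 536870912) (W2 := 536870912) (P3 := 402653184) (W3 := 67108864) (N0 := 3)
    rfl k0_mm_101

noncomputable def f_mm_102_a : ℕ → ℕ → ℕ → ℕ → Bool := onCell 536870912 536870912 0 536870912 402653184 67108864
    (rowN 3 0 false false false .npp 1 0 2 (qsf 536870912 536870912 0 536870912 0) ndN1q1 ndN1q2a pcN0 Cut.none Ext.none)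

def k0_mm_102_a : ∃ t, chk3 f_mm_102_a t 1 1 1 = true :=
  ⟨(l 5), by decide +kernel⟩

theorem c_mm_102_a : CertN 536870912 536870912 0 536870912 402653184 67108864 3 false false false .npp 1 0 2
    ndN1q1 ndN1q2a pcN0 Cut.none Ext.none :=
  certN0 (fam := false) (s1 := false) (s2 := false) (a := 1) (b := 0) (c := 2) (cn := .npp) (n1 := ndN1q1) (n2 := ndN1q2a) (pc := pcN0) (cut := Cut.none) (xt := Ext.none) (P1 := 536870912) (W1 := 536870912) (P2 := 0) (W2 := 536870912) (P3 := 402653184) (W3 := 67108864) (N0 := 3)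
    rfl k0_mm_102_a

noncomputable def f_mm_102_b : ℕ → ℕ → ℕ → ℕ → Bool := onCell 536870912 536870912 1239849684 370763052 402653184 67108864
    (rowN 3 0 false false false .npp 1 0 2 (qsf 536870912 536870912 1239849684 370763052 0) ndN1q1 ndN1q2b pcN0 Cut.none Ext.none)

def k0_mm_102_b : ∃ t, chk3 f_mm_102_b t 1 1 1 = true :=
  ⟨(l 5), by decide +kernel⟩

theorem c_mm_102_b : CertN 536870912 536870912 1239849684 370763052 402653184 67108864 3 false false false .npp 1 0 2
    ndN1q1 ndN1q2b pcN0 Cut.none Ext.none :=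
  certN0 (fam := false) (s1 := false) (s2 := false) (a := 1) (b := 0) (c := 2) (cn := .npp) (n1 := ndN1q1) (n2 := ndN1q2b) (pc := pcN0) (cut := Cut.none) (xt := Ext.none) (P1 := 536870912) (W1 := 536870912) (P2 := 1239849684) (W2 := 370763052) (P3 := 402653184) (W3 := 67108864) (N0 := 3)
    rfl k0_mm_102_b

noncomputable def f_mm_112_a : ℕ → ℕ → ℕ → ℕ → Bool := onCell 536870912 536870912 0 536870912 402653184 67108864
    (rowN 3 0 false false false .dn 1 1 2 (qsf 536870912 536870912 0 536870912 1) ndN1q1 ndN1q2a pcN1 Cut.none Ext.none)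

def k0_mm_112_a : ∃ t, chk3 f_mm_112_a t 1 1 1 = true :=
  ⟨(l 5), by decide +kernel⟩

theorem c_mm_112_a : CertN 536870912 536870912 0 536870912 402653184 67108864 3 false false false .dn 1 1 2
    ndN1q1 ndN1q2a pcN1 Cut.none Ext.none :=
  certN0 (fam := false) (s1 := false) (s2 := false) (a := 1) (b := 1) (c := 2) (cn := .dn) (n1 := ndN1q1) (n2 := ndN1q2a) (pc := pcN1) (cut := Cut.none) (xt := Ext.none) (P1 := 536870912) (W1 := 536870912) (P2 := 0) (W2 := 536870912) (P3 := 402653184) (W3 := 67108864) (N0 := 3)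
    rfl k0_mm_112_a

noncomputable def f_mm_112_b : ℕ → ℕ → ℕ → ℕ → Bool := onCell 536870912 536870912 1239849684 370763052 402653184 67108864
    (rowN 3 0 false false false .dn 1 1 2 (qsf 536870912 536870912 1239849684 370763052 1) ndN1q1 ndN1q2b pcN1 Cut.none Ext.none)

def k0_mm_112_b : ∃ t, chk3 f_mm_112_b t 1 1 1 = true :=
  ⟨(l 5), by decide +kernel⟩

theorem c_mm_112_b : CertN 536870912 536870912 1239849684 370763052 402653184 67108864 3 false false false .dn 1 1 2
    ndN1q1 ndN1q2b pcN1 Cut.none Ext.none :=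
  certN0 (fam := false) (s1 := false) (s2 := false) (a := 1) (b := 1) (c := 2) (cn := .dn) (n1 := ndN1q1) (n2 := ndN1q2b) (pc := pcN1) (cut := Cut.none) (xt := Ext.none) (P1 := 536870912) (W1 := 536870912) (P2 := 1239849684) (W2 := 370763052) (P3 := 402653184) (W3 := 67108864) (N0 := 3)
    rfl k0_mm_112_b

noncomputable def f_mm_113 : ℕ → ℕ → ℕ → ℕ → Bool := onCell 536870912 536870912 1610612736 536870912 402653184 67108864
    (rowN 3 0 false false false .nn 1 1 3 (qsf 536870912 536870912 1610612736 536870912 1) ndN1q1 ndN1q3 pcN1 Cut.none Ext.none)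

def k0_mm_113 : ∃ t, chk3 f_mm_113 t 1 1 1 = true :=
  ⟨(l 5), by decide +kernel⟩

theorem c_mm_113 : CertN 536870912 536870912 1610612736 536870912 402653184 67108864 3 false false false .nn 1 1 3
    ndN1q1 ndN1q3 pcN1 Cut.none Ext.none :=
  certN0 (fam := false) (s1 := false) (s2 := false) (a := 1) (b := 1) (c := 3) (cn := .nn) (n1 := ndN1q1) (n2 := ndN1q3) (pc := pcN1) (cut := Cut.none) (xt := Ext.none) (P1 := 536870912) (W1 := 536870912) (P2 := 1610612736) (W2 := 536870912) (P3 := 402653184) (W3 := 67108864) (N0 := 3)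
    rfl k0_mm_113

noncomputable def f_mm_123 : ℕ → ℕ → ℕ → ℕ → Bool := onCell 536870912 536870912 1610612736 536870912 402653184 67108864
    (rowN 3 0 false false false .npn 1 2 3 (qsf 536870912 536870912 1610612736 536870912 2) ndN1q1 ndN1q3 pcN2 Cut.none Ext.none)

def k0_mm_123 : ∃ t, chk3 f_mm_123 t 1 1 1 = true :=
  ⟨(l 5), by decide +kernel⟩

theorem c_mm_123 : CertN 536870912 536870912 1610612736 536870912 402653184 67108864 3 false false false .npn 1 2 3
    ndN1q1 ndN1q3 pcN2 Cut.none Ext.none :=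
  certN0 (fam := false) (s1 := false) (s2 := false) (a := 1) (b := 2) (c := 3) (cn := .npn) (n1 := ndN1q1) (n2 := ndN1q3) (pc := pcN2) (cut := Cut.none) (xt := Ext.none) (P1 := 536870912) (W1 := 536870912) (P2 := 1610612736) (W2 := 536870912) (P3 := 402653184) (W3 := 67108864) (N0 := 3)
    rfl k0_mm_123

noncomputable def f_mm_133 : ℕ → ℕ → ℕ → ℕ → Bool := onCell 536870912 536870912 1610612736 536870912 402653184 67108864
    (rowN 3 0 false false false .dn 1 3 3 (qsf 536870912 536870912 1610612736 536870912 3) ndN1q1 ndN1q3 pcN3 Cut.none Ext.none)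

def k0_mm_133 : ∃ t, chk3 f_mm_133 t 1 1 1 = true :=
  ⟨(l 5), by decide +kernel⟩

theorem c_mm_133 : CertN 536870912 536870912 1610612736 536870912 402653184 67108864 3 false false false .dn 1 3 3
    ndN1q1 ndN1q3 pcN3 Cut.none Ext.none :=
  certN0 (fam := false) (s1 := false) (s2 := false) (a := 1) (b := 3) (c := 3) (cn := .dn) (n1 := ndN1q1) (n2 := ndN1q3) (pc := pcN3) (cut := Cut.none) (xt := Ext.none) (P1 := 536870912) (W1 := 536870912) (P2 := 1610612736) (W2 := 536870912) (P3 := 402653184) (W3 := 67108864) (N0 := 3)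
    rfl k0_mm_133

noncomputable def f_mm_202_aa : ℕ → ℕ → ℕ → ℕ → Bool := onCell 0 536870912 0 536870912 402653184 67108864
    (rowN 3 0 false false false .pp 2 0 2 (qsf 0 536870912 0 536870912 0) ndN1q2a ndN1q2a pcN0 Cut.none Ext.none)

def k0_mm_202_aa : ∃ t, chk3 f_mm_202_aa t 1 1 1 = true :=
  ⟨(l 3), by decide +kernel⟩

theorem c_mm_202_aa : CertN 0 536870912 0 536870912 402653184 67108864 3 false false false .pp 2 0 2
    ndN1q2a ndN1q2a pcN0 Cut.none Ext.none :=
  certN0 (fam := false) (s1 := false) (s2 := false) (a := 2) (b := 0) (c := 2) (cn := .pp) (n1 := ndN1q2a) (n2 := ndN1q2a) (pc := pcN0) (cut := Cut.none) (xt := Ext.none) (P1 := 0) (W1 := 536870912) (P2 := 0) (W2 := 536870912) (P3 := 402653184) (W3 := 67108864) (N0 := 3)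
    rfl k0_mm_202_aa

noncomputable def f_mm_202_ab : ℕ → ℕ → ℕ → ℕ → Bool := onCell 0 536870912 1239849684 370763052 402653184 67108864
    (rowN 3 0 false false false .pp 2 0 2 (qsf 0 536870912 1239849684 370763052 0) ndN1q2a ndN1q2b pcN0 Cut.none Ext.none)

def k0_mm_202_ab : ∃ t, chk3 f_mm_202_ab t 1 1 1 = true :=
  ⟨(l 3), by decide +kernel⟩

theorem c_mm_202_ab : CertN 0 536870912 1239849684 370763052 402653184 67108864 3 false false false .pp 2 0 2
    ndN1q2a ndN1q2b pcN0 Cut.none Ext.none :=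
  certN0 (fam := false) (s1 := false) (s2 := false) (a := 2) (b := 0) (c := 2) (cn := .pp) (n1 := ndN1q2a) (n2 := ndN1q2b) (pc := pcN0) (cut := Cut.none) (xt := Ext.none) (P1 := 0) (W1 := 536870912) (P2 := 1239849684) (W2 := 370763052) (P3 := 402653184) (W3 := 67108864) (N0 := 3)
    rfl k0_mm_202_ab

noncomputable def f_mm_202_ba : ℕ → ℕ → ℕ → ℕ → Bool := onCell 1239849684 370763052 0 536870912 402653184 67108864
    (rowN 3 0 false false false .pp 2 0 2 (qsf 1239849684 370763052 0 536870912 0) ndN1q2b ndN1q2a pcN0 Cut.none Ext.none)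

def k0_mm_202_ba : ∃ t, chk3 f_mm_202_ba t 1 1 1 = true :=
  ⟨(l 3), by decide +kernel⟩

theorem c_mm_202_ba : CertN 1239849684 370763052 0 536870912 402653184 67108864 3 false false false .pp 2 0 2
    ndN1q2b ndN1q2a pcN0 Cut.none Ext.none :=
  certN0 (fam := false) (s1 := false) (s2 := false) (a := 2) (b := 0) (c := 2) (cn := .pp) (n1 := ndN1q2b) (n2 := ndN1q2a) (pc := pcN0) (cut := Cut.none) (xt := Ext.none) (P1 := 1239849684) (W1 := 370763052) (P2 := 0) (W2 := 536870912) (P3 := 402653184) (W3 := 67108864) (N0 := 3)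
    rfl k0_mm_202_ba

noncomputable def f_mm_202_bb : ℕ → ℕ → ℕ → ℕ → Bool := onCell 1239849684 370763052 1239849684 370763052 402653184 67108864
    (rowN 3 0 false false false .pp 2 0 2 (qsf 1239849684 370763052 1239849684 370763052 0) ndN1q2b ndN1q2b pcN0 Cut.none Ext.none)

def k0_mm_202_bb : ∃ t, chk3 f_mm_202_bb t 1 1 1 = true :=
  ⟨(l 3), by decide +kernel⟩

theorem c_mm_202_bb : CertN 1239849684 370763052 1239849684 370763052 402653184 67108864 3 false false false .pp 2 0 2
    ndN1q2b ndN1q2b pcN0 Cut.none Ext.none :=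
  certN0 (fam := false) (s1 := false) (s2 := false) (a := 2) (b := 0) (c := 2) (cn := .pp) (n1 := ndN1q2b) (n2 := ndN1q2b) (pc := pcN0) (cut := Cut.none) (xt := Ext.none) (P1 := 1239849684) (W1 := 370763052) (P2 := 1239849684) (W2 := 370763052) (P3 := 402653184) (W3 := 67108864) (N0 := 3)
    rfl k0_mm_202_bb

noncomputable def f_mm_203_a : ℕ → ℕ → ℕ → ℕ → Bool := onCell 0 536870912 1610612736 536870912 402653184 67108864
    (rowN 3 0 false false false .up 2 0 3 (qsf 0 536870912 1610612736 536870912 0) ndN1q2a ndN1q3 pcN0 Cut.none Ext.none)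

def k0_mm_203_a : ∃ t, chk3 f_mm_203_a t 1 1 1 = true :=
  ⟨(l 5), by decide +kernel⟩

theorem c_mm_203_a : CertN 0 536870912 1610612736 536870912 402653184 67108864 3 false false false .up 2 0 3
    ndN1q2a ndN1q3 pcN0 Cut.none Ext.none :=
  certN0 (fam := false) (s1 := false) (s2 := false) (a := 2) (b := 0) (c := 3) (cn := .up) (n1 := ndN1q2a) (n2 := ndN1q3) (pc := pcN0) (cut := Cut.none) (xt := Ext.none) (P1 := 0) (W1 := 536870912) (P2 := 1610612736) (W2 := 536870912) (P3 := 402653184) (W3 := 67108864) (N0 := 3)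
    rfl k0_mm_203_a

noncomputable def f_mm_203_b : ℕ → ℕ → ℕ → ℕ → Bool := onCell 1239849684 370763052 1610612736 536870912 402653184 67108864
    (rowN 3 0 false false false .up 2 0 3 (qsf 1239849684 370763052 1610612736 536870912 0) ndN1q2b ndN1q3 pcN0 Cut.none Ext.none)

def k0_mm_203_b : ∃ t, chk3 f_mm_203_b t 1 1 1 = true :=
  ⟨(l 3), by decide +kernel⟩

theorem c_mm_203_b : CertN 1239849684 370763052 1610612736 536870912 402653184 67108864 3 false false false .up 2 0 3
    ndN1q2b ndN1q3 pcN0 Cut.none Ext.none :=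
  certN0 (fam := false) (s1 := false) (s2 := false) (a := 2) (b := 0) (c := 3) (cn := .up) (n1 := ndN1q2b) (n2 := ndN1q3) (pc := pcN0) (cut := Cut.none) (xt := Ext.none) (P1 := 1239849684) (W1 := 370763052) (P2 := 1610612736) (W2 := 536870912) (P3 := 402653184) (W3 := 67108864) (N0 := 3)
    rfl k0_mm_203_b

noncomputable def f_mm_213_a : ℕ → ℕ → ℕ → ℕ → Bool := onCell 0 536870912 1610612736 536870912 402653184 67108864
    (rowN 3 0 false false false .pnn 2 1 3 (qsf 0 536870912 1610612736 536870912 1) ndN1q2a ndN1q3 pcN1 Cut.none Ext.none)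

def k0_mm_213_a : ∃ t, chk3 f_mm_213_a t 1 1 1 = true :=
  ⟨(l 5), by decide +kernel⟩

theorem c_mm_213_a : CertN 0 536870912 1610612736 536870912 402653184 67108864 3 false false false .pnn 2 1 3
    ndN1q2a ndN1q3 pcN1 Cut.none Ext.none :=
  certN0 (fam := false) (s1 := false) (s2 := false) (a := 2) (b := 1) (c := 3) (cn := .pnn) (n1 := ndN1q2a) (n2 := ndN1q3) (pc := pcN1) (cut := Cut.none) (xt := Ext.none) (P1 := 0) (W1 := 536870912) (P2 := 1610612736) (W2 := 536870912) (P3 := 402653184) (W3 := 67108864) (N0 := 3)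
    rfl k0_mm_213_a

noncomputable def f_mm_213_b : ℕ → ℕ → ℕ → ℕ → Bool := onCell 1239849684 370763052 1610612736 536870912 402653184 67108864
    (rowN 3 0 false false false .pnn 2 1 3 (qsf 1239849684 370763052 1610612736 536870912 1) ndN1q2b ndN1q3 pcN1 Cut.none Ext.none)

def k0_mm_213_b : ∃ t, chk3 f_mm_213_b t 1 1 1 = true :=
  ⟨(l 3), by decide +kernel⟩

theorem c_mm_213_b : CertN 1239849684 370763052 1610612736 536870912 402653184 67108864 3 false false false .pnn 2 1 3
    ndN1q2b ndN1q3 pcN1 Cut.none Ext.none :=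
  certN0 (fam := false) (s1 := false) (s2 := false) (a := 2) (b := 1) (c := 3) (cn := .pnn) (n1 := ndN1q2b) (n2 := ndN1q3) (pc := pcN1) (cut := Cut.none) (xt := Ext.none) (P1 := 1239849684) (W1 := 370763052) (P2 := 1610612736) (W2 := 536870912) (P3 := 402653184) (W3 := 67108864) (N0 := 3)
    rfl k0_mm_213_b

noncomputable def f_mm_303 : ℕ → ℕ → ℕ → ℕ → Bool := onCell 1610612736 536870912 1610612736 536870912 402653184 67108864
    (rowN 3 0 false false false .npn 3 0 3 (qsf 1610612736 536870912 1610612736 536870912 0) ndN1q3 ndN1q3 pcN0 Cut.none Ext.none)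

def k0_mm_303 : ∃ t, chk3 f_mm_303 t 1 1 1 = true :=
  ⟨(l 3), by decide +kernel⟩

theorem c_mm_303 : CertN 1610612736 536870912 1610612736 536870912 402653184 67108864 3 false false false .npn 3 0 3
    ndN1q3 ndN1q3 pcN0 Cut.none Ext.none :=
  certN0 (fam := false) (s1 := false) (s2 := false) (a := 3) (b := 0) (c := 3) (cn := .npn) (n1 := ndN1q3) (n2 := ndN1q3) (pc := pcN0) (cut := Cut.none) (xt := Ext.none) (P1 := 1610612736) (W1 := 536870912) (P2 := 1610612736) (W2 := 536870912) (P3 := 402653184) (W3 := 67108864) (N0 := 3)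
    rfl k0_mm_303

noncomputable def f_mm_313 : ℕ → ℕ → ℕ → ℕ → Bool := onCell 1610612736 536870912 1610612736 536870912 402653184 67108864
    (rowN 3 0 false false false .dn 3 1 3 (qsf 1610612736 536870912 1610612736 536870912 1) ndN1q3 ndN1q3 pcN1 Cut.none Ext.none)

def k0_mm_313 : ∃ t, chk3 f_mm_313 t 1 1 1 = true :=
  ⟨(l 3), by decide +kernel⟩

theorem c_mm_313 : CertN 1610612736 536870912 1610612736 536870912 402653184 67108864 3 false false false .dn 3 1 3
    ndN1q3 ndN1q3 pcN1 Cut.none Ext.none :=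
  certN0 (fam := false) (s1 := false) (s2 := false) (a := 3) (b := 1) (c := 3) (cn := .dn) (n1 := ndN1q3) (n2 := ndN1q3) (pc := pcN1) (cut := Cut.none) (xt := Ext.none) (P1 := 1610612736) (W1 := 536870912) (P2 := 1610612736) (W2 := 536870912) (P3 := 402653184) (W3 := 67108864) (N0 := 3)
    rfl k0_mm_313

end Pool.Agent.Strip051.G.I3_8_7_16.Tab.C.NB11

namespace Pool.Agent.Strip051.G.I3_8_7_16.Tab.C.NB12

open Pool.Agent.Strip051.PB Pool.Agent.Strip051.PB.T
open Pool.Agent.Strip051.G.I3_8_7_16.Tab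

noncomputable def f_pp_001 : ℕ → ℕ → ℕ → ℕ → Bool := onCell 0 536870912 0 536870912 402653184 67108864
    (rowN 3 1 false true true .up 0 0 1 (qsf 0 536870912 536870912 536870912 0) ndN1q0 ndN2q1 pcN0 Cut.none Ext.none)

def k0_pp_001 : ∃ t, chk3 f_pp_001 t 1 1 1 = true :=
  ⟨(l 3), by decide +kernel⟩

theorem c_pp_001 : CertN 0 536870912 536870912 536870912 402653184 67108864 3 false true true .up 0 0 1
    ndN1q0 ndN2q1 pcN0 Cut.none Ext.none :=
  certN1 (fam := false) (s1 := true) (s2 := true) (a := 0) (b := 0) (c := 1) (cn := .up) (n1 := ndN1q0) (n2 := ndN2q1) (pc := pcN0) (cut := Cut.none) (xt := Ext.none) (P1 := 0) (W1 := 536870912) (P2 := 536870912) (W2 := 536870912) (P3 := 402653184) (W3 := 67108864) (N0 := 3)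
    rfl (fun _ => rfl) k0_pp_001

noncomputable def cut_pp_011 : Cut := Cut.of [[⟨0, 0, 0, 67108864⟩, ⟨1, 1, 0, 67108864⟩, ⟨2, 1, 0, 67108864⟩]]

noncomputable def f_pp_011 : ℕ → ℕ → ℕ → ℕ → Bool := onCell 0 536870912 536870912 536870912 402653184 67108864
    (rowN 3 1 false true true .pnn 0 1 1 (qsf 0 536870912 536870912 536870912 1) ndN1q0 ndN2q1 pcN1 cut_pp_011 Ext.none)

def k0_pp_011 : ∃ t, chk3 f_pp_011 t 1 1 1 = true :=
  ⟨(a (b (l 3) (b (l 3) (b (l 3) (a (a (a (b (l 3) (l 6)) (l 3)) (l 3)) (l 2))))) (l 3)), by decide +kernel⟩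

theorem c_pp_011 : CertN 0 536870912 536870912 536870912 402653184 67108864 3 false true true .pnn 0 1 1
    ndN1q0 ndN2q1 pcN1 cut_pp_011 Ext.none :=
  certN1 (fam := false) (s1 := true) (s2 := true) (a := 0) (b := 1) (c := 1) (cn := .pnn) (n1 := ndN1q0) (n2 := ndN2q1) (pc := pcN1) (cut := cut_pp_011) (xt := Ext.none) (P1 := 0) (W1 := 536870912) (P2 := 536870912) (W2 := 536870912) (P3 := 402653184) (W3 := 67108864) (N0 := 3)
    rfl (fun _ => rfl) k0_pp_011

noncomputable def f_pp_012 : ℕ → ℕ → ℕ → ℕ → Bool := onCell 536870912 536870912 1073741824 536870912 402653184 67108864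
    (rowN 3 2 false true true .pnp 0 1 2 (qsf 0 536870912 1073741824 536870912 1) ndN1q0 ndN2q2 pcN1 Cut.none Ext.none)

def k0_pp_012 : ∃ t, chk3 f_pp_012 t 1 1 1 = true :=
  ⟨(a (l 3) (a (b (l 3) (l 3)) (a (b (l 3) (b (l 3) (b (l 16749344) (b (l 16797968) (l 2))))) (b (b (l 3) (a (l 3) (l 236927790487))) (b (b (l 16582768) (l 16542368)) (b (l 16568472) (b (l 16668752) (l 16766768)))))))), by decide +kernel⟩

theorem c_pp_012 : CertN 0 536870912 1073741824 536870912 402653184 67108864 3 false true true .pnp 0 1 2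
    ndN1q0 ndN2q2 pcN1 Cut.none Ext.none :=
  certN2 (fam := false) (s1 := true) (s2 := true) (a := 0) (b := 1) (c := 2) (cn := .pnp) (n1 := ndN1q0) (n2 := ndN2q2) (pc := pcN1) (cut := Cut.none) (xt := Ext.none) (P1 := 0) (W1 := 536870912) (P2 := 1073741824) (W2 := 536870912) (P3 := 402653184) (W3 := 67108864) (N0 := 3)
    rfl (fun _ => rfl) k0_pp_012

noncomputable def f_pp_022 : ℕ → ℕ → ℕ → ℕ → Bool := onCell 0 536870912 1073741824 536870912 402653184 67108864
    (rowN 3 1 false true true .pp 0 2 2 (qsf 0 536870912 1073741824 536870912 2) ndN1q0 ndN2q2 pcN2 Cut.none Ext.none)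

def k0_pp_022 : ∃ t, chk3 f_pp_022 t 2 2 1 = true :=
  ⟨(a (b (b (b (l 3) (a (a (l 3) (b (l 3) (a (l 16738472) (l 16656808)))) (a (b (l 16682680) (l 16605088)) (l 16582544)))) (b (a (a (b (b (a (l 3) (l 16640840)) (a (a (a (b (l 3) (l 53854597303)) (l 16642168)) (l 16636296)) (l 16624440))) (a (a (b (a (c (l 16634464) (l 16625296)) (l 16626296)) (a (l 16614576) (l 16610784))) (l 16612872)) (l 16600888))) (b (a (l 16616096) (l 16598664)) (l 16596560))) (b (a (l 16592680) (l 16532728)) (l 16502032))) (a (a (b (a (a (b (l 16596912) (l 16580904)) (l 16580856)) (l 16568384)) (a (b (l 16581792) (l 16567816)) (l 16540352))) (b (l 16565336) (l 16522944))) (l 16514328)))) (b (a (b (b (a (a (l 16556352) (l 16525608)) (l 16509936)) (a (a (b (l 16528904) (b (l 16529520) (a (b (l 16535160) (c (l 16547816) (l 16528808))) (l 16532400)))) (b (l 16519944) (l 16587960))) (b (l 16505376) (l 16511192)))) (a (a (a (b (l 16527696) (l 16504616)) (l 16512512)) (l 16506848)) (l 16494288))) (b (b (l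 16474776) (l 16625584)) (l 16464320))) (a (a (a (b (l 16491344) (l 16430624)) (l 16444760)) (l 16435664)) (b (a (l 16437824) (l 16418080)) (a (l 16404800) (l 16394776)))))) (a (b (b (b (l 16623592) (l 16575152)) (b (l 16467000) (l 16432824))) (b (b (b (l 16419472) (l 16528920)) (l 16416352)) (a (l 16396496) (l 16395448)))) (b (b (l 86603879159) (a (l 16624392) (l 16503072))) (b (b (b (l 16361360) (l 16374264)) (l 16384464)) (a (l 16389672) (l 16424576)))))), by decide +kernel⟩

def k1_pp_022 : ∃ t, chk3 f_pp_022 t 2 3 1 = true :=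
  ⟨(b (a (b (a (a (a (l 16380432) (b (l 16393072) (l 16365000))) (b (l 16387120) (l 16368296))) (a (l 16570128) (l 16394656))) (a (b (a (a (l 16344080) (l 16351032)) (l 16368400)) (a (l 16359600) (l 16394224))) (b (l 16402616) (a (l 16502720) (l 16617240))))) (b (a (a (l 16403096) (b (l 16410232) (l 16545072))) (a (l 16569136) (l 16647864))) (a (b (a (l 16576360) (l 16642504)) (l 16689152)) (l 16765128)))) (a (b (a (a (b (l 16399464) (a (l 16572352) (l 16651040))) (b (l 16556376) (a (l 16708672) (l 16741800)))) (b (a (l 16667312) (l 16712000)) (a (l 16757616) (l 16770920)))) (a (b (a (a (b (l 16727392) (l 16801376)) (l 16795120)) (l 16805376)) (a (a (l 16810752) (l 16817456)) (l 16815200))) (b (l 16806672) (l 2)))) (b (a (l 16782656) (l 2)) (l 2)))), by decide +kernel⟩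

def k2_pp_022 : ∃ t, chk3 f_pp_022 t 3 1 1 = true :=
  ⟨(b (b (a (b (a (b (l 16570640) (l 16422096)) (b (l 16431888) (l 16326224))) (a (b (l 16307392) (l 16315088)) (b (l 16319680) (l 16474176)))) (b (a (b (l 16425008) (l 16582120)) (b (a (l 16596256) (l 16738552)) (l 16767496))) (a (b (l 16598728) (l 16701360)) (l 16877240)))) (a (b (a (b (b (l 16327176) (l 16338680)) (l 16412240)) (b (b (l 16518696) (l 16577136)) (l 16657952))) (a (a (l 16541128) (l 16643608)) (l 16788616))) (b (a (b (l 16795776) (l 2)) (l 2)) (l 2)))) (b (a (b (l 16847640) (l 2)) (l 2)) (l 2))), by decide +kernel⟩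

theorem s3_pp_022 : ∃ t, chk3 f_pp_022 t 2 1 1 = true := ex3_b k0_pp_022 k1_pp_022

theorem s4_pp_022 : ∃ t, chk3 f_pp_022 t 1 1 1 = true := ex3_a s3_pp_022 k2_pp_022

theorem c_pp_022 : CertN 0 536870912 1073741824 536870912 402653184 67108864 3 false true true .pp 0 2 2
    ndN1q0 ndN2q2 pcN2 Cut.none Ext.none :=
  certN1 (fam := false) (s1 := true) (s2 := true) (a := 0) (b := 2) (c := 2) (cn := .pp) (n1 := ndN1q0) (n2 := ndN2q2) (pc := pcN2) (cut := Cut.none) (xt := Ext.none) (P1 := 0) (W1 := 536870912) (P2 := 1073741824) (W2 := 536870912) (P3 := 402653184) (W3 := 67108864) (N0 := 3)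
    rfl (fun _ => rfl) s4_pp_022

noncomputable def f_pp_023 : ℕ → ℕ → ℕ → ℕ → Bool := onCell 1073741824 536870912 0 1230186008 402653184 67108864
    (rowN 3 2 false true true .up 0 2 3 (qsf 0 536870912 0 1230186008 2) ndN1q0 ndN2q3 pcN2 Cut.none Ext.none)

def k0_pp_023 : ∃ t, chk3 f_pp_023 t 1 1 1 = true :=
  ⟨(b (a (l 2) (a (l 2) (a (l 17152984) (l 17136680)))) (b (a (b (l 2) (l 17297256)) (a (b (l 17142568) (l 17111208)) (a (l 17134896) (l 17285264)))) (a (b (a (l 2) (l 17058808)) (b (l 17026720) (a (l 17078728) (a (l 16938968) (l 16823312))))) (a (b (a (l 17038288) (l 17026872)) (a (l 16832640) (b (l 16869216) (l 16660976)))) (b (a (l 17017056) (l 17013320)) (a (b (l 16835744) (l 16622904)) (b (l 16817960) (a (l 16619552) (b (l 16663880) (l 16537376)))))))))), by decide +kernel⟩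

theorem c_pp_023 : CertN 0 536870912 0 1230186008 402653184 67108864 3 false true true .up 0 2 3
    ndN1q0 ndN2q3 pcN2 Cut.none Ext.none :=
  certN2 (fam := false) (s1 := true) (s2 := true) (a := 0) (b := 2) (c := 3) (cn := .up) (n1 := ndN1q0) (n2 := ndN2q3) (pc := pcN2) (cut := Cut.none) (xt := Ext.none) (P1 := 0) (W1 := 536870912) (P2 := 0) (W2 := 1230186008) (P3 := 402653184) (W3 := 67108864) (N0 := 3)
    rfl (fun _ => rfl) k0_pp_023

noncomputable def f_pp_033 : ℕ → ℕ → ℕ → ℕ → Bool := onCell 1610612736 536870912 0 1230186008 402653184 67108864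
    (rowN 3 2 false true true .pnn 0 3 3 (qsf 0 536870912 0 1230186008 3) ndN1q0 ndN2q3 pcN3 Cut.none Ext.none)

def k0_pp_033 : ∃ t, chk3 f_pp_033 t 1 1 1 = true :=
  ⟨(b (a (a (a (l 17124664) (l 17165024)) (b (l 4) (a (l 17090360) (l 17078952)))) (a (b (l 4) (l 4)) (l 4))) (b (a (a (b (l 17153760) (l 17147344)) (a (l 17150248) (b (l 17136352) (l 17157840)))) (a (a (b (l 17148824) (l 17190824)) (b (l 17189136) (b (l 17233464) (l 1)))) (b (a (l 4) (l 1)) (l 1)))) (a (b (a (b (l 17072496) (l 16943256)) (b (a (l 17064296) (l 17077632)) (a (l 16911720) (l 1)))) (a (b (a (l 16727024) (l 267394828935)) (a (b (l 16428360) (a (l 253972545799) (l 467646927895))) (b (l 539051083239) (l 1)))) (b (a (b (l 642130834487) (l 1)) (l 1)) (l 1)))) (l 1)))), by decide +kernel⟩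

theorem c_pp_033 : CertN 0 536870912 0 1230186008 402653184 67108864 3 false true true .pnn 0 3 3
    ndN1q0 ndN2q3 pcN3 Cut.none Ext.none :=
  certN2 (fam := false) (s1 := true) (s2 := true) (a := 0) (b := 3) (c := 3) (cn := .pnn) (n1 := ndN1q0) (n2 := ndN2q3) (pc := pcN3) (cut := Cut.none) (xt := Ext.none) (P1 := 0) (W1 := 536870912) (P2 := 0) (W2 := 1230186008) (P3 := 402653184) (W3 := 67108864) (N0 := 3)
    rfl (fun _ => rfl) k0_pp_033

noncomputable def f_pp_101 : ℕ → ℕ → ℕ → ℕ → Bool := onCell 536870912 536870912 536870912 536870912 402653184 67108864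
    (rowN 3 0 false true true .npn 1 0 1 (qsf 536870912 536870912 536870912 536870912 0) ndN1q1 ndN2q1 pcN0 Cut.none Ext.none)

def k0_pp_101 : ∃ t, chk3 f_pp_101 t 1 1 1 = true :=
  ⟨(l 3), by decide +kernel⟩

theorem c_pp_101 : CertN 536870912 536870912 536870912 536870912 402653184 67108864 3 false true true .npn 1 0 1
    ndN1q1 ndN2q1 pcN0 Cut.none Ext.none :=
  certN0 (fam := false) (s1 := true) (s2 := true) (a := 1) (b := 0) (c := 1) (cn := .npn) (n1 := ndN1q1) (n2 := ndN2q1) (pc := pcN0) (cut := Cut.none) (xt := Ext.none) (P1 := 536870912) (W1 := 536870912) (P2 := 536870912) (W2 := 536870912) (P3 := 402653184) (W3 := 67108864) (N0 := 3)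
    rfl k0_pp_101

noncomputable def f_pp_102 : ℕ → ℕ → ℕ → ℕ → Bool := onCell 536870912 536870912 0 536870912 402653184 67108864
    (rowN 3 1 false true true .npp 1 0 2 (qsf 536870912 536870912 1073741824 536870912 0) ndN1q1 ndN2q2 pcN0 Cut.none Ext.none)

def k0_pp_102 : ∃ t, chk3 f_pp_102 t 1 1 1 = true :=
  ⟨(l 3), by decide +kernel⟩

theorem c_pp_102 : CertN 536870912 536870912 1073741824 536870912 402653184 67108864 3 false true true .npp 1 0 2
    ndN1q1 ndN2q2 pcN0 Cut.none Ext.none :=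
  certN1 (fam := false) (s1 := true) (s2 := true) (a := 1) (b := 0) (c := 2) (cn := .npp) (n1 := ndN1q1) (n2 := ndN2q2) (pc := pcN0) (cut := Cut.none) (xt := Ext.none) (P1 := 536870912) (W1 := 536870912) (P2 := 1073741824) (W2 := 536870912) (P3 := 402653184) (W3 := 67108864) (N0 := 3)
    rfl (fun _ => rfl) k0_pp_102

noncomputable def f_pp_112 : ℕ → ℕ → ℕ → ℕ → Bool := onCell 536870912 536870912 1073741824 536870912 402653184 67108864
    (rowN 3 0 false true true .dn 1 1 2 (qsf 536870912 536870912 1073741824 536870912 1) ndN1q1 ndN2q2 pcN1 Cut.none Ext.none)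

def k0_pp_112 : ∃ t, chk3 f_pp_112 t 1 1 1 = true :=
  ⟨(a (b (l 3) (b (l 3) (a (b (a (l 16782432) (l 3)) (a (b (l 16761496) (l 16780256)) (l 16877432))) (l 3)))) (l 3)), by decide +kernel⟩

theorem c_pp_112 : CertN 536870912 536870912 1073741824 536870912 402653184 67108864 3 false true true .dn 1 1 2
    ndN1q1 ndN2q2 pcN1 Cut.none Ext.none :=
  certN0 (fam := false) (s1 := true) (s2 := true) (a := 1) (b := 1) (c := 2) (cn := .dn) (n1 := ndN1q1) (n2 := ndN2q2) (pc := pcN1) (cut := Cut.none) (xt := Ext.none) (P1 := 536870912) (W1 := 536870912) (P2 := 1073741824) (W2 := 536870912) (P3 := 402653184) (W3 := 67108864) (N0 := 3)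
    rfl k0_pp_112

noncomputable def f_pp_113 : ℕ → ℕ → ℕ → ℕ → Bool := onCell 536870912 536870912 0 1230186008 402653184 67108864
    (rowN 3 2 false true true .nn 1 1 3 (qsf 536870912 536870912 0 1230186008 1) ndN1q1 ndN2q3 pcN1 Cut.none Ext.none)

def k0_pp_113 : ∃ t, chk3 f_pp_113 t 1 1 1 = true :=
  ⟨(a (b (l 2) (b (b (l 2) (b (l 2) (l 3))) (a (l 3) (l 3)))) (b (a (l 2) (b (a (l 2) (l 16857040)) (a (l 17009640) (l 16896120)))) (b (a (a (b (l 2) (l 337323966343)) (b (l 17107088) (l 17087568))) (a (b (l 17019320) (l 17042560)) (l 17037384))) (a (a (l 3) (b (l 17066272) (l 17039920))) (b (a (l 17093400) (l 17110456)) (a (l 17134392) (l 17127104))))))), by decide +kernel⟩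

theorem c_pp_113 : CertN 536870912 536870912 0 1230186008 402653184 67108864 3 false true true .nn 1 1 3
    ndN1q1 ndN2q3 pcN1 Cut.none Ext.none :=
  certN2 (fam := false) (s1 := true) (s2 := true) (a := 1) (b := 1) (c := 3) (cn := .nn) (n1 := ndN1q1) (n2 := ndN2q3) (pc := pcN1) (cut := Cut.none) (xt := Ext.none) (P1 := 536870912) (W1 := 536870912) (P2 := 0) (W2 := 1230186008) (P3 := 402653184) (W3 := 67108864) (N0 := 3)
    rfl (fun _ => rfl) k0_pp_113

noncomputable def f_pp_123 : ℕ → ℕ → ℕ → ℕ → Bool := onCell 1073741824 536870912 0 1230186008 402653184 67108864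
    (rowN 3 2 false true true .npn 1 2 3 (qsf 536870912 536870912 0 1230186008 2) ndN1q1 ndN2q3 pcN2 Cut.none Ext.none)

def k0_pp_123 : ∃ t, chk3 f_pp_123 t 1 1 1 = true :=
  ⟨(b (b (a (a (l 16902600) (l 17047856)) (a (l 17130728) (l 17143648))) (a (a (l 16998056) (l 17082696)) (a (l 17150536) (l 17152888)))) (b (a (a (b (l 17063984) (l 17094576)) (b (l 17109704) (l 17093664))) (a (b (l 17146560) (l 17300384)) (b (l 17137824) (l 1)))) (a (b (a (l 17098336) (l 17056128)) (a (b (l 17084832) (l 17073432)) (b (l 17015704) (l 1)))) (l 1)))), by decide +kernel⟩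

theorem c_pp_123 : CertN 536870912 536870912 0 1230186008 402653184 67108864 3 false true true .npn 1 2 3
    ndN1q1 ndN2q3 pcN2 Cut.none Ext.none :=
  certN2 (fam := false) (s1 := true) (s2 := true) (a := 1) (b := 2) (c := 3) (cn := .npn) (n1 := ndN1q1) (n2 := ndN2q3) (pc := pcN2) (cut := Cut.none) (xt := Ext.none) (P1 := 536870912) (W1 := 536870912) (P2 := 0) (W2 := 1230186008) (P3 := 402653184) (W3 := 67108864) (N0 := 3)
    rfl (fun _ => rfl) k0_pp_123

noncomputable def f_pp_133 : ℕ → ℕ → ℕ → ℕ → Bool := onCell 1610612736 536870912 0 1230186008 402653184 67108864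
    (rowN 3 2 false true true .dn 1 3 3 (qsf 536870912 536870912 0 1230186008 3) ndN1q1 ndN2q3 pcN3 Cut.none Ext.none)

def k0_pp_133 : ∃ t, chk3 f_pp_133 t 1 1 1 = true :=
  ⟨(b (a (a (l 603477613175) (l 1)) (l 1)) (l 1)), by decide +kernel⟩

theorem c_pp_133 : CertN 536870912 536870912 0 1230186008 402653184 67108864 3 false true true .dn 1 3 3
    ndN1q1 ndN2q3 pcN3 Cut.none Ext.none :=
  certN2 (fam := false) (s1 := true) (s2 := true) (a := 1) (b := 3) (c := 3) (cn := .dn) (n1 := ndN1q1) (n2 := ndN2q3) (pc := pcN3) (cut := Cut.none) (xt := Ext.none) (P1 := 536870912) (W1 := 536870912) (P2 := 0) (W2 := 1230186008) (P3 := 402653184) (W3 := 67108864) (N0 := 3)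
    rfl (fun _ => rfl) k0_pp_133

noncomputable def f_pp_202_a : ℕ → ℕ → ℕ → ℕ → Bool := onCell 0 536870912 1073741824 536870912 402653184 67108864
    (rowN 3 0 false true true .pp 2 0 2 (qsf 0 536870912 1073741824 536870912 0) ndN1q2a ndN2q2 pcN0 Cut.none Ext.none)

def k0_pp_202_a : ∃ t, chk3 f_pp_202_a t 1 1 1 = true :=
  ⟨(l 3), by decide +kernel⟩

theorem c_pp_202_a : CertN 0 536870912 1073741824 536870912 402653184 67108864 3 false true true .pp 2 0 2
    ndN1q2a ndN2q2 pcN0 Cut.none Ext.none :=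
  certN0 (fam := false) (s1 := true) (s2 := true) (a := 2) (b := 0) (c := 2) (cn := .pp) (n1 := ndN1q2a) (n2 := ndN2q2) (pc := pcN0) (cut := Cut.none) (xt := Ext.none) (P1 := 0) (W1 := 536870912) (P2 := 1073741824) (W2 := 536870912) (P3 := 402653184) (W3 := 67108864) (N0 := 3)
    rfl k0_pp_202_a

noncomputable def f_pp_202_b : ℕ → ℕ → ℕ → ℕ → Bool := onCell 1239849684 370763052 1073741824 536870912 402653184 67108864
    (rowN 3 0 false true true .pp 2 0 2 (qsf 1239849684 370763052 1073741824 536870912 0) ndN1q2b ndN2q2 pcN0 Cut.none Ext.none)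

def k0_pp_202_b : ∃ t, chk3 f_pp_202_b t 1 1 1 = true :=
  ⟨(l 3), by decide +kernel⟩

theorem c_pp_202_b : CertN 1239849684 370763052 1073741824 536870912 402653184 67108864 3 false true true .pp 2 0 2
    ndN1q2b ndN2q2 pcN0 Cut.none Ext.none :=
  certN0 (fam := false) (s1 := true) (s2 := true) (a := 2) (b := 0) (c := 2) (cn := .pp) (n1 := ndN1q2b) (n2 := ndN2q2) (pc := pcN0) (cut := Cut.none) (xt := Ext.none) (P1 := 1239849684) (W1 := 370763052) (P2 := 1073741824) (W2 := 536870912) (P3 := 402653184) (W3 := 67108864) (N0 := 3)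
    rfl k0_pp_202_b

noncomputable def f_pp_203_a : ℕ → ℕ → ℕ → ℕ → Bool := onCell 0 536870912 0 1230186008 402653184 67108864
    (rowN 3 0 false true true .up 2 0 3 (qsf 0 536870912 0 1230186008 0) ndN1q2a ndN2q3 pcN0 Cut.none Ext.none)

def k0_pp_203_a : ∃ t, chk3 f_pp_203_a t 1 1 1 = true :=
  ⟨(b (l 2) (l 3)), by decide +kernel⟩

theorem c_pp_203_a : CertN 0 536870912 0 1230186008 402653184 67108864 3 false true true .up 2 0 3
    ndN1q2a ndN2q3 pcN0 Cut.none Ext.none :=
  certN0 (fam := false) (s1 := true) (s2 := true) (a := 2) (b := 0) (c := 3) (cn := .up) (n1 := ndN1q2a) (n2 := ndN2q3) (pc := pcN0) (cut := Cut.none) (xt := Ext.none) (P1 := 0) (W1 := 536870912) (P2 := 0) (W2 := 1230186008) (P3 := 402653184) (W3 := 67108864) (N0 := 3)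
    rfl k0_pp_203_a

noncomputable def f_pp_203_b : ℕ → ℕ → ℕ → ℕ → Bool := onCell 1239849684 370763052 0 1230186008 402653184 67108864
    (rowN 3 0 false true true .up 2 0 3 (qsf 1239849684 370763052 0 1230186008 0) ndN1q2b ndN2q3 pcN0 Cut.none Ext.none)

def k0_pp_203_b : ∃ t, chk3 f_pp_203_b t 1 1 1 = true :=
  ⟨(b (l 3) (l 3)), by decide +kernel⟩

theorem c_pp_203_b : CertN 1239849684 370763052 0 1230186008 402653184 67108864 3 false true true .up 2 0 3
    ndN1q2b ndN2q3 pcN0 Cut.none Ext.none :=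
  certN0 (fam := false) (s1 := true) (s2 := true) (a := 2) (b := 0) (c := 3) (cn := .up) (n1 := ndN1q2b) (n2 := ndN2q3) (pc := pcN0) (cut := Cut.none) (xt := Ext.none) (P1 := 1239849684) (W1 := 370763052) (P2 := 0) (W2 := 1230186008) (P3 := 402653184) (W3 := 67108864) (N0 := 3)
    rfl k0_pp_203_b

noncomputable def cut_pp_213_a : Cut := Cut.of [[⟨0, 1, 0, 67108864⟩, ⟨1, 1, 0, 67108864⟩, ⟨2, 2, 0, 16777216⟩]]

noncomputable def f_pp_213_a : ℕ → ℕ → ℕ → ℕ → Bool := onCell 0 536870912 0 1230186008 402653184 67108864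
    (rowN 3 0 false true true .pnn 2 1 3 (qsf 0 536870912 0 1230186008 1) ndN1q2a ndN2q3 pcN1 cut_pp_213_a Ext.none)

def k0_pp_213_a : ∃ t, chk3 f_pp_213_a t 1 1 1 = true :=
  ⟨(b (a (l 3) (b (a (l 3) (a (l 3) (b (l 6) (l 3)))) (l 3))) (l 3)), by decide +kernel⟩

theorem c_pp_213_a : CertN 0 536870912 0 1230186008 402653184 67108864 3 false true true .pnn 2 1 3
    ndN1q2a ndN2q3 pcN1 cut_pp_213_a Ext.none :=
  certN0 (fam := false) (s1 := true) (s2 := true) (a := 2) (b := 1) (c := 3) (cn := .pnn) (n1 := ndN1q2a) (n2 := ndN2q3) (pc := pcN1) (cut := cut_pp_213_a) (xt := Ext.none) (P1 := 0) (W1 := 536870912) (P2 := 0) (W2 := 1230186008) (P3 := 402653184) (W3 := 67108864) (N0 := 3)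
    rfl k0_pp_213_a

noncomputable def cut_pp_213_b : Cut := Cut.of [[⟨0, 1, 0, 67108864⟩, ⟨1, 1, 0, 67108864⟩, ⟨2, 2, 0, 16777216⟩]]

noncomputable def f_pp_213_b : ℕ → ℕ → ℕ → ℕ → Bool := onCell 1239849684 370763052 0 1230186008 402653184 67108864
    (rowN 3 0 false true true .pnn 2 1 3 (qsf 1239849684 370763052 0 1230186008 1) ndN1q2b ndN2q3 pcN1 cut_pp_213_b Ext.none)

def k0_pp_213_b : ∃ t, chk3 f_pp_213_b t 1 1 1 = true :=
  ⟨(b (l 3) (l 3)), by decide +kernel⟩

theorem c_pp_213_b : CertN 1239849684 370763052 0 1230186008 402653184 67108864 3 false true true .pnn 2 1 3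
    ndN1q2b ndN2q3 pcN1 cut_pp_213_b Ext.none :=
  certN0 (fam := false) (s1 := true) (s2 := true) (a := 2) (b := 1) (c := 3) (cn := .pnn) (n1 := ndN1q2b) (n2 := ndN2q3) (pc := pcN1) (cut := cut_pp_213_b) (xt := Ext.none) (P1 := 1239849684) (W1 := 370763052) (P2 := 0) (W2 := 1230186008) (P3 := 402653184) (W3 := 67108864) (N0 := 3)
    rfl k0_pp_213_b

noncomputable def f_pp_303 : ℕ → ℕ → ℕ → ℕ → Bool := onCell 1610612736 536870912 0 1230186008 402653184 67108864
    (rowN 3 0 false true true .npn 3 0 3 (qsf 1610612736 536870912 0 1230186008 0) ndN1q3 ndN2q3 pcN0 Cut.none Ext.none)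

def k0_pp_303 : ∃ t, chk3 f_pp_303 t 1 1 1 = true :=
  ⟨(b (l 3) (l 3)), by decide +kernel⟩

theorem c_pp_303 : CertN 1610612736 536870912 0 1230186008 402653184 67108864 3 false true true .npn 3 0 3
    ndN1q3 ndN2q3 pcN0 Cut.none Ext.none :=
  certN0 (fam := false) (s1 := true) (s2 := true) (a := 3) (b := 0) (c := 3) (cn := .npn) (n1 := ndN1q3) (n2 := ndN2q3) (pc := pcN0) (cut := Cut.none) (xt := Ext.none) (P1 := 1610612736) (W1 := 536870912) (P2 := 0) (W2 := 1230186008) (P3 := 402653184) (W3 := 67108864) (N0 := 3)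
    rfl k0_pp_303

noncomputable def f_pp_313 : ℕ → ℕ → ℕ → ℕ → Bool := onCell 1610612736 536870912 0 1230186008 402653184 67108864
    (rowN 3 0 false true true .dn 3 1 3 (qsf 1610612736 536870912 0 1230186008 1) ndN1q3 ndN2q3 pcN1 Cut.none Ext.none)

def k0_pp_313 : ∃ t, chk3 f_pp_313 t 1 1 1 = true :=
  ⟨(b (l 3) (l 1)), by decide +kernel⟩

theorem c_pp_313 : CertN 1610612736 536870912 0 1230186008 402653184 67108864 3 false true true .dn 3 1 3
    ndN1q3 ndN2q3 pcN1 Cut.none Ext.none :=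
  certN0 (fam := false) (s1 := true) (s2 := true) (a := 3) (b := 1) (c := 3) (cn := .dn) (n1 := ndN1q3) (n2 := ndN2q3) (pc := pcN1) (cut := Cut.none) (xt := Ext.none) (P1 := 1610612736) (W1 := 536870912) (P2 := 0) (W2 := 1230186008) (P3 := 402653184) (W3 := 67108864) (N0 := 3)
    rfl k0_pp_313

noncomputable def f_pm_001 : ℕ → ℕ → ℕ → ℕ → Bool := onCell 0 536870912 536870912 536870912 402653184 67108864
    (rowN 3 0 false true false .up 0 0 1 (qsf 0 536870912 536870912 536870912 0) ndN1q0 ndN2q1 pcN0 Cut.none Ext.none)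

def k0_pm_001 : ∃ t, chk3 f_pm_001 t 1 1 1 = true :=
  ⟨(l 4), by decide +kernel⟩

theorem c_pm_001 : CertN 0 536870912 536870912 536870912 402653184 67108864 3 false true false .up 0 0 1
    ndN1q0 ndN2q1 pcN0 Cut.none Ext.none :=
  certN0 (fam := false) (s1 := true) (s2 := false) (a := 0) (b := 0) (c := 1) (cn := .up) (n1 := ndN1q0) (n2 := ndN2q1) (pc := pcN0) (cut := Cut.none) (xt := Ext.none) (P1 := 0) (W1 := 536870912) (P2 := 536870912) (W2 := 536870912) (P3 := 402653184) (W3 := 67108864) (N0 := 3)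
    rfl k0_pm_001

noncomputable def f_pm_011 : ℕ → ℕ → ℕ → ℕ → Bool := onCell 0 536870912 536870912 536870912 402653184 67108864
    (rowN 3 0 false true false .pnn 0 1 1 (qsf 0 536870912 536870912 536870912 1) ndN1q0 ndN2q1 pcN1 Cut.none Ext.none)

def k0_pm_011 : ∃ t, chk3 f_pm_011 t 1 1 1 = true :=
  ⟨(l 4), by decide +kernel⟩

theorem c_pm_011 : CertN 0 536870912 536870912 536870912 402653184 67108864 3 false true false .pnn 0 1 1
    ndN1q0 ndN2q1 pcN1 Cut.none Ext.none :=
  certN0 (fam := false) (s1 := true) (s2 := false) (a := 0) (b := 1) (c := 1) (cn := .pnn) (n1 := ndN1q0) (n2 := ndN2q1) (pc := pcN1) (cut := Cut.none) (xt := Ext.none) (P1 := 0) (W1 := 536870912) (P2 := 536870912) (W2 := 536870912) (P3 := 402653184) (W3 := 67108864) (N0 := 3)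
    rfl k0_pm_011

noncomputable def f_pm_012 : ℕ → ℕ → ℕ → ℕ → Bool := onCell 0 536870912 1073741824 536870912 402653184 67108864
    (rowN 3 0 false true false .pnp 0 1 2 (qsf 0 536870912 1073741824 536870912 1) ndN1q0 ndN2q2 pcN1 Cut.none Ext.none)

def k0_pm_012 : ∃ t, chk3 f_pm_012 t 1 1 1 = true :=
  ⟨(l 4), by decide +kernel⟩

theorem c_pm_012 : CertN 0 536870912 1073741824 536870912 402653184 67108864 3 false true false .pnp 0 1 2
    ndN1q0 ndN2q2 pcN1 Cut.none Ext.none :=
  certN0 (fam := false) (s1 := true) (s2 := false) (a := 0) (b := 1) (c := 2) (cn := .pnp) (n1 := ndN1q0) (n2 := ndN2q2) (pc := pcN1) (cut := Cut.none) (xt := Ext.none) (P1 := 0) (W1 := 536870912) (P2 := 1073741824) (W2 := 536870912) (P3 := 402653184) (W3 := 67108864) (N0 := 3)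
    rfl k0_pm_012

noncomputable def f_pm_022 : ℕ → ℕ → ℕ → ℕ → Bool := onCell 0 536870912 1073741824 536870912 402653184 67108864
    (rowN 3 0 false true false .pp 0 2 2 (qsf 0 536870912 1073741824 536870912 2) ndN1q0 ndN2q2 pcN2 Cut.none Ext.none)

def k0_pm_022 : ∃ t, chk3 f_pm_022 t 1 1 1 = true :=
  ⟨(l 4), by decide +kernel⟩

theorem c_pm_022 : CertN 0 536870912 1073741824 536870912 402653184 67108864 3 false true false .pp 0 2 2
    ndN1q0 ndN2q2 pcN2 Cut.none Ext.none :=
  certN0 (fam := false) (s1 := true) (s2 := false) (a := 0) (b := 2) (c := 2) (cn := .pp) (n1 := ndN1q0) (n2 := ndN2q2) (pc := pcN2) (cut := Cut.none) (xt := Ext.none) (P1 := 0) (W1 := 536870912) (P2 := 1073741824) (W2 := 536870912) (P3 := 402653184) (W3 := 67108864) (N0 := 3)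
    rfl k0_pm_022

noncomputable def f_pm_023 : ℕ → ℕ → ℕ → ℕ → Bool := onCell 0 536870912 0 1230186008 402653184 67108864
    (rowN 3 0 false true false .up 0 2 3 (qsf 0 536870912 0 1230186008 2) ndN1q0 ndN2q3 pcN2 Cut.none Ext.none)

def k0_pm_023 : ∃ t, chk3 f_pm_023 t 1 1 1 = true :=
  ⟨(a (b (l 2) (l 4)) (b (a (l 2) (b (a (l 2) (l 17105752)) (l 4))) (l 4))), by decide +kernel⟩

theorem c_pm_023 : CertN 0 536870912 0 1230186008 402653184 67108864 3 false true false .up 0 2 3
    ndN1q0 ndN2q3 pcN2 Cut.none Ext.none :=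
  certN0 (fam := false) (s1 := true) (s2 := false) (a := 0) (b := 2) (c := 3) (cn := .up) (n1 := ndN1q0) (n2 := ndN2q3) (pc := pcN2) (cut := Cut.none) (xt := Ext.none) (P1 := 0) (W1 := 536870912) (P2 := 0) (W2 := 1230186008) (P3 := 402653184) (W3 := 67108864) (N0 := 3)
    rfl k0_pm_023

noncomputable def f_pm_033 : ℕ → ℕ → ℕ → ℕ → Bool := onCell 0 536870912 0 1230186008 402653184 67108864
    (rowN 3 0 false true false .pnn 0 3 3 (qsf 0 536870912 0 1230186008 3) ndN1q0 ndN2q3 pcN3 Cut.none Ext.none)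

def k0_pm_033 : ∃ t, chk3 f_pm_033 t 1 1 1 = true :=
  ⟨(b (a (l 4) (a (l 4) (b (a (l 4) (l 17106536)) (l 4)))) (b (l 4) (l 4))), by decide +kernel⟩

theorem c_pm_033 : CertN 0 536870912 0 1230186008 402653184 67108864 3 false true false .pnn 0 3 3
    ndN1q0 ndN2q3 pcN3 Cut.none Ext.none :=
  certN0 (fam := false) (s1 := true) (s2 := false) (a := 0) (b := 3) (c := 3) (cn := .pnn) (n1 := ndN1q0) (n2 := ndN2q3) (pc := pcN3) (cut := Cut.none) (xt := Ext.none) (P1 := 0) (W1 := 536870912) (P2 := 0) (W2 := 1230186008) (P3 := 402653184) (W3 := 67108864) (N0 := 3)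
    rfl k0_pm_033

noncomputable def f_pm_101 : ℕ → ℕ → ℕ → ℕ → Bool := onCell 536870912 536870912 536870912 536870912 402653184 67108864
    (rowN 3 0 false true false .npn 1 0 1 (qsf 536870912 536870912 536870912 536870912 0) ndN1q1 ndN2q1 pcN0 Cut.none Ext.none)

def k0_pm_101 : ∃ t, chk3 f_pm_101 t 1 1 1 = true :=
  ⟨(l 4), by decide +kernel⟩

theorem c_pm_101 : CertN 536870912 536870912 536870912 536870912 402653184 67108864 3 false true false .npn 1 0 1
    ndN1q1 ndN2q1 pcN0 Cut.none Ext.none :=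
  certN0 (fam := false) (s1 := true) (s2 := false) (a := 1) (b := 0) (c := 1) (cn := .npn) (n1 := ndN1q1) (n2 := ndN2q1) (pc := pcN0) (cut := Cut.none) (xt := Ext.none) (P1 := 536870912) (W1 := 536870912) (P2 := 536870912) (W2 := 536870912) (P3 := 402653184) (W3 := 67108864) (N0 := 3)
    rfl k0_pm_101

noncomputable def f_pm_102 : ℕ → ℕ → ℕ → ℕ → Bool := onCell 536870912 536870912 1073741824 536870912 402653184 67108864
    (rowN 3 0 false true false .npp 1 0 2 (qsf 536870912 536870912 1073741824 536870912 0) ndN1q1 ndN2q2 pcN0 Cut.none Ext.none)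

def k0_pm_102 : ∃ t, chk3 f_pm_102 t 1 1 1 = true :=
  ⟨(a (l 4) (b (a (a (l 4) (b (b (l 17072720) (l 17111320)) (b (l 17159856) (l 17209096)))) (b (a (b (l 17161136) (l 17211576)) (b (a (l 17233520) (l 17277496)) (l 17321944))) (a (l 17302864) (b (l 17412040) (l 17532272))))) (b (a (a (l 4) (b (l 17252280) (l 17284368))) (b (l 17452856) (l 17465448))) (a (b (a (l 2) (l 183175219991)) (l 2)) (b (a (l 17386288) (l 17590256)) (a (l 17369856) (l 17590512))))))), by decide +kernel⟩

theorem c_pm_102 : CertN 536870912 536870912 1073741824 536870912 402653184 67108864 3 false true false .npp 1 0 2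
    ndN1q1 ndN2q2 pcN0 Cut.none Ext.none :=
  certN0 (fam := false) (s1 := true) (s2 := false) (a := 1) (b := 0) (c := 2) (cn := .npp) (n1 := ndN1q1) (n2 := ndN2q2) (pc := pcN0) (cut := Cut.none) (xt := Ext.none) (P1 := 536870912) (W1 := 536870912) (P2 := 1073741824) (W2 := 536870912) (P3 := 402653184) (W3 := 67108864) (N0 := 3)
    rfl k0_pm_102

noncomputable def f_pm_112 : ℕ → ℕ → ℕ → ℕ → Bool := onCell 536870912 536870912 1073741824 536870912 402653184 67108864
    (rowN 3 2 false true false .dn 1 1 2 (qsf 536870912 536870912 1073741824 536870912 1) ndN1q1 ndN2q2 pcN1 Cut.none Ext.none)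

def k0_pm_112 : ∃ t, chk3 f_pm_112 t 1 1 1 = true :=
  ⟨(a (b (l 4) (a (b (b (l 4) (l 17196840)) (a (b (l 17352488) (b (l 17423472) (l 17463584))) (l 17315344))) (b (l 4) (b (l 17177544) (l 17275520))))) (b (l 4) (l 4))), by decide +kernel⟩

theorem c_pm_112 : CertN 536870912 536870912 1073741824 536870912 402653184 67108864 3 false true false .dn 1 1 2
    ndN1q1 ndN2q2 pcN1 Cut.none Ext.none :=
  certN2 (fam := false) (s1 := true) (s2 := false) (a := 1) (b := 1) (c := 2) (cn := .dn) (n1 := ndN1q1) (n2 := ndN2q2) (pc := pcN1) (cut := Cut.none) (xt := Ext.none) (P1 := 536870912) (W1 := 536870912) (P2 := 1073741824) (W2 := 536870912) (P3 := 402653184) (W3 := 67108864) (N0 := 3)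
    rfl (fun _ => rfl) k0_pm_112

noncomputable def f_pm_113 : ℕ → ℕ → ℕ → ℕ → Bool := onCell 536870912 536870912 0 1230186008 402653184 67108864
    (rowN 3 2 false true false .nn 1 1 3 (qsf 536870912 536870912 0 1230186008 1) ndN1q1 ndN2q3 pcN1 Cut.none Ext.none)

def k0_pm_113 : ∃ t, chk3 f_pm_113 t 1 1 1 = true :=
  ⟨(b (a (l 2) (a (l 2) (b (a (l 2) (l 16847312)) (a (l 694275647143) (l 16961072))))) (b (a (a (l 2) (b (l 2) (a (l 2) (l 752258312967)))) (a (b (a (l 2) (l 17072032)) (l 17245896)) (b (l 17149240) (l 17316104)))) (b (a (a (l 2) (a (b (l 17417728) (l 17378120)) (l 17309424))) (a (b (l 17303232) (l 17358616)) (l 17356208))) (a (a (b (a (l 2) (l 17452384)) (a (a (b (l 2) (l 17521400)) (l 17481808)) (l 17428512))) (a (l 17521096) (l 17351504))) (a (l 121569284775) (l 17314200)))))), by decide +kernel⟩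

theorem c_pm_113 : CertN 536870912 536870912 0 1230186008 402653184 67108864 3 false true false .nn 1 1 3
    ndN1q1 ndN2q3 pcN1 Cut.none Ext.none :=
  certN2 (fam := false) (s1 := true) (s2 := false) (a := 1) (b := 1) (c := 3) (cn := .nn) (n1 := ndN1q1) (n2 := ndN2q3) (pc := pcN1) (cut := Cut.none) (xt := Ext.none) (P1 := 536870912) (W1 := 536870912) (P2 := 0) (W2 := 1230186008) (P3 := 402653184) (W3 := 67108864) (N0 := 3)
    rfl (fun _ => rfl) k0_pm_113

noncomputable def f_pm_123 : ℕ → ℕ → ℕ → ℕ → Bool := onCell 1073741824 536870912 0 1230186008 402653184 67108864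
    (rowN 3 2 false true false .npn 1 2 3 (qsf 536870912 536870912 0 1230186008 2) ndN1q1 ndN2q3 pcN2 Cut.none Ext.none)

def k0_pm_123 : ∃ t, chk3 f_pm_123 t 1 1 1 = true :=
  ⟨(a (b (a (b (l 16919720) (l 17100224)) (b (l 17062944) (l 17171000))) (b (a (b (l 17273424) (l 17329928)) (b (l 17265408) (l 17261328))) (a (b (l 17213216) (l 4)) (l 4)))) (b (a (l 17279072) (a (l 17174584) (l 17149936))) (b (a (b (l 17235536) (l 4)) (l 4)) (l 1)))), by decide +kernel⟩

theorem c_pm_123 : CertN 536870912 536870912 0 1230186008 402653184 67108864 3 false true false .npn 1 2 3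
    ndN1q1 ndN2q3 pcN2 Cut.none Ext.none :=
  certN2 (fam := false) (s1 := true) (s2 := false) (a := 1) (b := 2) (c := 3) (cn := .npn) (n1 := ndN1q1) (n2 := ndN2q3) (pc := pcN2) (cut := Cut.none) (xt := Ext.none) (P1 := 536870912) (W1 := 536870912) (P2 := 0) (W2 := 1230186008) (P3 := 402653184) (W3 := 67108864) (N0 := 3)
    rfl (fun _ => rfl) k0_pm_123

noncomputable def f_pm_133 : ℕ → ℕ → ℕ → ℕ → Bool := onCell 1610612736 536870912 0 1230186008 402653184 67108864
    (rowN 3 2 false true false .dn 1 3 3 (qsf 536870912 536870912 0 1230186008 3) ndN1q1 ndN2q3 pcN3 Cut.none Ext.none)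

def k0_pm_133 : ∃ t, chk3 f_pm_133 t 1 1 1 = true :=
  ⟨(b (a (a (l 288334395303) (l 1)) (l 1)) (l 1)), by decide +kernel⟩

theorem c_pm_133 : CertN 536870912 536870912 0 1230186008 402653184 67108864 3 false true false .dn 1 3 3
    ndN1q1 ndN2q3 pcN3 Cut.none Ext.none :=
  certN2 (fam := false) (s1 := true) (s2 := false) (a := 1) (b := 3) (c := 3) (cn := .dn) (n1 := ndN1q1) (n2 := ndN2q3) (pc := pcN3) (cut := Cut.none) (xt := Ext.none) (P1 := 536870912) (W1 := 536870912) (P2 := 0) (W2 := 1230186008) (P3 := 402653184) (W3 := 67108864) (N0 := 3)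
    rfl (fun _ => rfl) k0_pm_133

end Pool.Agent.Strip051.G.I3_8_7_16.Tab.C.NB12

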