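import Pool.Agent.Strip051.G.I3_8_7_16.Tab

/-! # Certificates N9 (generated) -/

set_option linter.all false
set_option maxRecDepth 100000

namespace Pool.Agent.Strip051.G.I3_8_7_16.Tab.C.NB00

open Pool.Agent.Strip051.PB Pool.Agent.Strip051.PB.T
open Pool.Agent.Strip051.G.I3_8_7_16.Tab

noncomputable def cut_pp_012 : Cut := Cut.of [[⟨0, 0, 0, 67108864⟩, ⟨1, 1, 0, 67108864⟩, ⟨2, 1, 0, 67108864⟩]]

noncomputable def f_pp_012 : ℕ → ℕ → ℕ → ℕ → Bool := onCell 536870912 536870912 0 536870912 402653184 67108864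
    (rowN 3 2 false true true .pnp 0 1 2 (qsf 0 536870912 0 536870912 1) ndN0q0 ndN0q2 pcN1 cut_pp_012 Ext.none)

def k0_pp_012 : ∃ t, chk3 f_pp_012 t 4 2 1 = true :=
  ⟨(b (l 2) (l 3)), by decide +kernel⟩

def k1_pp_012 : ∃ t, chk3 f_pp_012 t 10 8 1 = true :=
  ⟨(a (a (l 2) (a (l 2) (b (l 16837840) (l 16815376)))) (b (a (l 16848960) (l 16865048)) (a (b (l 16830592) (l 16819056)) (l 16817792)))), by decide +kernel⟩

def k2_pp_012 : ∃ t, chk3 f_pp_012 t 20 9 1 = true :=
  ⟨(b (a (l 2) (a (l 2) (b (b (l 16803704) (a (b (l 82778824839) (a (l 2) (l 73182260023))) (c (l 45801850135) (l 43654354471)))) (b (a (l 3) (b (a (l 87140903079) (l 72108518327)) (l 3))) (l 3))))) (l 3)), by decide +kernel⟩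

def k3_pp_012 : ∃ t, chk3 f_pp_012 t 21 18 1 = true :=
  ⟨(a (b (a (b (l 16808416) (l 16803992)) (l 16811264)) (a (b (a (b (c (l 47949332647) (l 45801838807)) (a (l 86067161335) (b (l 53318033575) (l 81772194343)))) (c (l 43654365927) (l 41506869191))) (a (l 3) (b (a (l 84993419607) (b (l 50633678391) (a (l 90362128839) (l 75329740919)))) (l 3)))) (c (b (l 16809040) (a (b (l 44728106759) (a (l 83919686615) (b (l 16804088) (l 78014106919)))) (a (l 42580621911) (l 16806512)))) (b (l 16799640) (a (b (l 43117482503) (a (l 82845927543) (b (l 16795408) (l 76940347895)))) (b (l 16797880) (a (l 43117482599) (l 16796664)))))))) (b (a (l 16817064) (l 16823040)) (a (b (l 16809136) (c (l 16809320) (l 16799984))) (l 16811352)))), by decide +kernel⟩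

def k4_pp_012 : ∃ t, chk3 f_pp_012 t 42 19 1 = true :=
  ⟨(b (a (l 3) (b (a (l 3) (b (a (b (a (l 86067159079) (c (l 72108527159) (l 70497900359))) (l 3)) (b (c (l 46338716999) (l 44191224631)) (c (b (a (l 81235332391) (l 16803776)) (l 83919686807)) (b (a (l 80161573431) (l 16795192)) (l 83382804007))))) (l 3))) (l 3))) (l 3)), by decide +kernel⟩

def k5_pp_012 : ∃ t, chk3 f_pp_012 t 86 76 1 = true :=
  ⟨(a (b (a (a (c (l 43654361975) (l 42043740295)) (l 16795248)) (l 16801184)) (a (b (a (b (c (l 78550977879) (l 77477218967)) (l 3)) (c (b (l 47949329015) (c (l 78014111415) (l 77477231735))) (b (l 46338708311) (b (l 62444836119) (l 84993411655))))) (l 3)) (a (b (c (l 44728103367) (l 42580611431)) (b (c (c (l 76403498711) (b (l 61371101239) (l 83919682583))) (b (a (l 80698447015) (l 49559933831)) (l 82845930663))) (l 3))) (b (c (l 16804528) (l 16795856)) (c (b (l 45264974151) (a (l 82845934631) (b (l 49023070199) (c (l 78014107623) (l 77477228135))))) (b (c (l 16797408) (l 16793240)) (b (a (l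 77477221495) (l 46875579159)) (c (l 81772190423) (l 80698440295))))))))) (b (l 16802664) (b (c (l 16805744) (l 16796912)) (c (a (c (l 16803952) (c (l 16803240) (l 41506877287))) (l 16805264)) (a (a (c (l 41506869927) (l 40433126599)) (l 16795912)) (l 16796512)))))), by decide +kernel⟩

def k6_pp_012 : ∃ t, chk3 f_pp_012 t 172 77 1 = true :=
  ⟨(l 3), by decide +kernel⟩

def k7_pp_012 : ∃ t, chk3 f_pp_012 t 346 154 1 = true :=
  ⟨(b (c (b (a (a (b (c (l 76940365815) (l 75866615415)) (l 3)) (b (c (l 16805888) (l 16801512)) (c (l 75866623831) (b (l 60834229943) (l 82845936871))))) (c (l 16806128) (l 42580618823))) (a (l 3) (a (b (c (l 74256011271) (b (a (l 77477227815) (l 16801416)) (l 81235324151))) (l 3)) (c (b (l 16805904) (b (l 58149883719) (l 80161590983))) (b (l 16801528) (b (a (c (l 75329748295) (l 74792873239)) (l 16801432)) (a (l 3) (c (l 73719135559) (b (l 58686745751) (l 81235323991)))))))))) (b (a (b (a (c (l 75329738599) (l 74792865127)) (c (l 16797248) (l 16793088))) (a (l 3) (c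 (b (l 59760481975) (l 82309060407)) (b (l 59223608759) (l 81772186775))))) (c (l 41506870279) (l 40433126791))) (a (l 3) (b (a (a (c (l 81235318583) (l 80698444791)) (c (b (l 16797160) (l 75329738439)) (b (l 16793016) (l 75329735895)))) (c (l 16796280) (l 16795728))) (a (l 3) (c (b (a (c (l 74255998071) (l 74255996263)) (l 16797168)) (a (l 3) (a (l 81235318455) (b (l 16797128) (l 75329738455))))) (b (a (c (l 73719122999) (l 73719118839)) (l 16793024)) (a (l 3) (a (l 80698444663) (a (l 69961026471) (l 61371091911))))))))))) (l 3)), by decide +kernel⟩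

def k8_pp_012 : ∃ t, chk3 f_pp_012 t 347 308 1 = true :=
  ⟨(a (a (b (c (l 16804256) (l 16795640)) (c (c (l 16806024) (l 41506876823)) (c (c (l 16798424) (l 16796312)) (l 39359384807)))) (c (l 16799024) (c (l 16797760) (l 16793560)))) (c (l 16804480) (l 16795856))), by decide +kernel⟩

def k9_pp_012 : ∃ t, chk3 f_pp_012 t 694 309 2 = true :=
  ⟨(b (a (b (c (c (b (l 57076146183) (l 79087853591)) (b (l 56539270839) (a (l 3) (l 72108527207)))) (b (a (c (b (l 57613008151) (l 79624715559)) (b (l 57076133015) (l 79624711255))) (l 16798816)) (a (l 3) (c (b (l 56002395511) (l 78014102743)) (a (b (l 72108518519) (l 3)) (b (l 16800312) (a (l 78550969287) (l 64055454775)))))))) (l 3)) (c (b (c (l 16807016) (l 16804808)) (a (b (c (l 64055467943) (b (l 55465528967) (l 69961043511))) (l 89288396183)) (b (l 16805776) (b (l 60834238087) (l 92509621799))))) (b (a (c (l 16802576) (l 16800416)) (l 16801576)) (a (a (b (c (b (l 60834233591) (l 89825262695)) (b (a (l 76940356711) (a (l 65129196599) (l 47412456439)))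 (l 89288387479))) (l 3)) (b (c (a (b (l 16802456) (l 75329748199)) (l 54391782631)) (b (l 16800320) (c (a (l 75329746039) (l 60297360535)) (a (b (l 58149874727) (l 87140903943)) (a (b (l 16799752) (l 71571647511)) (l 52781165639)))))) (c (l 89288391927) (b (c (l 87677776967) (l 87140903991)) (l 3))))) (c (b (l 16802496) (a (b (l 64592330023) (l 104320777271)) (l 58149878983))) (b (l 16800344) (a (b (a (b (a (l 66739809367) (l 16800264)) (l 102173289367)) (l 56002390967)) (l 104857643895)) (c (l 57613005911) (l 57613003767))))))))) (a (l 3) (a (l 3) (c (l 107542011207) (l 107541997239))))), by decide +kernel⟩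

def k10_pp_012 : ∃ t, chk3 f_pp_012 t 1388 618 3 = true :=
  ⟨(b (c (b (a (a (c (l 79624706999) (l 79624705351)) (b (l 16796472) (c (l 73182256087) (l 73182254359)))) (l 40969999927)) (a (l 3) (c (b (a (a (l 79624707015) (l 65666063255)) (l 16798192)) (a (l 3) (a (l 78014094279) (a (l 66739805159) (l 58149870503))))) (b (a (a (l 79624705367) (l 65129190695)) (l 16796088)) (a (l 3) (a (l 78014092551) (a (a (l 68350416151) (l 64055448871)) (l 58149868855)))))))) (b (a (a (c (l 79087832023) (l 79087827767)) (b (l 16795608) (c (l 72645381111) (l 72108506103)))) (l 40433126295)) (a (l 3) (c (b (a (a (l 79087831863) (l 64592317287)) (l 16794016)) (a (l 3) (a (l 77477219143) (a (l 66202930007) (l 57612995431))))) (b (a (l 71034764119) (l 16791976)) (a (l 3) (c (l 69961022343) (l 69424149399)))))))) (l 3)), by decide +kernel⟩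

def k11_pp_012 : ∃ t, chk3 f_pp_012 t 1389 1236 3 = true :=
  ⟨(a (c (c (l 16798288) (l 16796184)) (c (l 16794112) (l 16792064))) (c (l 16797312) (l 16793160))), by decide +kernel⟩

def k12_pp_012 : ∃ t, chk3 f_pp_012 t 2778 2474 6 = true :=
  ⟨(c (b (a (c (b (a (l 60297356247) (l 16798696)) (a (l 89288385303) (l 59223614423))) (b (a (l 60297354135) (l 16797640)) (a (l 89288383351) (a (l 74792868743) (l 51170548647))))) (l 16798192)) (a (l 89288383239) (c (a (b (a (l 73182258119) (l 49559938023)) (l 86604030743)) (b (l 16798696) (c (a (l 71571646407) (l 55465519159)) (a (b (l 52781163447) (l 81772192583)) (a (l 58149872567) (l 16798416)))))) (a (a (a (l 83382803319) (b (l 69424159559) (l 3))) (b (l 49559935911) (l 85530286887))) (b (l 16797640) (c (a (b (l 52781162391) (l 81772191623)) (a (a (l 59760484247) (l 53318033303)) (l 16797888))) (a (b (l 52781161335) (l 81772190567)) (a (a (b (l 16797368) (l 67813546855)) (l 53318032247)) (l 16797368))))))))) (b (a (c (b (a (l 59760481783) (l 16796592))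 (a (l 89288381991) (a (l 74255996391) (l 52781159895)))) (b (a (l 59760481015) (l 16795552)) (a (l 89288381223) (a (l 74255995783) (l 52244288423))))) (l 16796096)) (a (l 89288381751) (c (a (b (b (l 49559934423) (a (l 83919672839) (l 53854901751))) (l 86604027431)) (b (l 16796592) (c (a (b (c (l 52781160791) (l 52244289351)) (l 81772189511)) (a (a (b (l 16796840) (l 67813545815)) (l 53318031207)) (l 16796840))) (a (b (c (l 52244288999) (l 52244288807)) (l 81772189047)) (a (a (b (l 16796320) (l 67276674439)) (l 52781159783)) (l 16796320)))))) (a (b (b (l 49559933783) (a (l 83919672039) (l 54391771975))) (l 86604026583)) (b (l 16795552) (c (a (b (l 52244288359) (l 81235317671)) (a (a (b (l 16795800) (l 67276673799)) (l 52781159271)) (l 16795800))) (a (b (l 52244287319) (l 81235316551)) (a (a (b (l 16795280) (l 67276672839)) (l 52781158231)) (l 16795280)))))))))), by decide +kernel⟩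

def k13_pp_012 : ∃ t, chk3 f_pp_012 t 2778 2475 6 = true :=
  ⟨(c (a (l 3) (a (l 3) (a (l 3) (a (l 3) (b (c (l 103783900071) (a (l 106468252535) (l 82309061495))) (l 3)))))) (a (l 3) (a (l 3) (a (l 3) (a (l 3) (b (b (b (c (l 95193961991) (l 95193961271)) (l 3)) (l 3)) (l 3))))))), by decide +kernel⟩

def k14_pp_012 : ∃ t, chk3 f_pp_012 t 2779 1237 6 = true :=
  ⟨(b (c (l 16798216) (l 16796120)) (c (a (b (c (a (b (b (l 52781163463) (l 87140901815)) (l 102173287319)) (l 55465517927)) (a (b (a (b (l 56002386823) (l 97341447031)) (l 16797616)) (l 102173285303)) (l 54928645079))) (l 104857639815)) (a (b (l 16798144) (l 67813546807)) (l 16798136))) (a (b (c (a (b (a (b (l 55465514471) (l 97341445671)) (l 16796568)) (l 102173283863)) (l 54928643559)) (a (b (a (b (l 55465513863) (l 97341444983)) (l 16795528)) (l 102173283175)) (l 54928642951))) (l 104857638247)) (b (l 16796056) (b (l 53854901559) (l 88751510871)))))), by decide +kernel⟩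

def k15_pp_012 : ∃ t, chk3 f_pp_012 t 1389 1237 7 = true :=
  ⟨(a (b (c (b (a (c (a (b (l 59760479111) (l 88751508247)) (a (b (l 16794512) (l 74255993559)) (l 45801835431))) (b (l 52244284295) (a (l 88751506183) (l 58149864311)))) (l 16794024)) (a (l 88751508087) (c (a (b (a (a (l 77477219191) (l 68887284599)) (l 48486189879)) (l 86604024599)) (b (l 16794520) (c (a (b (l 52244286199) (l 81235315591)) (a (a (l 59223608055) (l 52781157207)) (l 16794760))) (a (b (l 52781156087) (l 81235314487)) (a (l 56539252551) (l 16794248)))))) (a (a (l 79087829863) (b (l 48486187751) (l 84993409815))) (b (l 16793488) (a (a (l 75329733399) (l 66202927991)) (l 53854897031))))))) (b (a (c (b (l 52244282263) (l 65666055031)) (l 58686731159)) (l 16791984)) (a (l 88751504087) (c (a (b (l 56539249383) (l 86067149511)) (a (l 61371087671) (l 51170540375))) (a (l 73719116679) (l 58149860263)))))) (a (l 3) (a (l 3) (a (l 3) (a (l 3) (b (c (c (l 103783893767) (l 103783891639)) (l 96804567863)) (l 3))))))) (b (c (l 16794048)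 (l 16792008)) (c (a (b (c (a (b (a (a (l 69424155335) (l 61371091735)) (l 16794488)) (l 102173281111)) (l 54391769895)) (a (b (c (l 60297347895) (l 60297346871)) (l 102173278887)) (l 54391767911))) (l 104857635575)) (a (b (l 16793984) (l 67276671751)) (l 16793976))) (a (b (a (b (l 59760474967) (l 102173276983)) (l 53854894935)) (l 104857631495)) (c (l 55465507703) (l 55465505671)))))), by decide +kernel⟩

def k16_pp_012 : ∃ t, chk3 f_pp_012 t 694 619 3 = true :=
  ⟨(a (l 3) (a (l 3) (a (l 3) (b (c (l 106468251623) (l 106468249271)) (l 3))))), by decide +kernel⟩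

def k17_pp_012 : ∃ t, chk3 f_pp_012 t 695 309 1 = true :=
  ⟨(c (b (c (l 16805960) (l 16801592)) (b (a (c (a (b (l 65129205351) (l 104320781463)) (l 58686754215)) (a (b (c (l 64592329879) (a (l 69961034695) (l 16800192))) (l 104857643847)) (c (l 58149878903) (l 57613003703)))) (l 16803464)) (a (c (l 105931398279) (l 105931389607)) (c (l 65129205351) (a (l 69961034887) (l 16801120)))))) (b (c (c (l 16798392) (l 16796288)) (l 16794504)) (b (a (c (a (b (a (b (a (l 65666062071) (l 16797032)) (l 102173284183)) (l 54928643831)) (l 104857638791)) (c (l 57076128727) (l 56539256183))) (a (b (a (b (a (l 65129188151) (l 16792912)) (l 102173281015)) (l 54391769927)) (l 104857635495)) (b (l 16792944) (l 61371092007)))) (l 16795016)) (a (c (l 105931381159) (l 106468243831)) (c (a (l 69424158743) (l 16796912)) (a (l 68887284711) (l 16792816))))))), by decide +kernel⟩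

def k18_pp_012 : ∃ t, chk3 f_pp_012 t 173 155 1 = true :=
  ⟨(a (l 3) (a (l 3) (c (c (l 108615752039) (l 109152614279)) (c (l 109152605815) (l 109689468487))))), by decide +kernel⟩

def k19_pp_012 : ∃ t, chk3 f_pp_012 t 87 38 1 = true :=
  ⟨(b (c (l 16808480) (l 16799536)) (a (c (b (a (c (l 16806528) (l 16802144)) (l 16804808)) (a (b (a (b (a (c (l 71571656199) (l 71034774711)) (l 57076133383)) (l 105931393031)) (c (l 59223625287) (l 57613004183))) (l 107542005159)) (b (l 16803304) (a (l 71034777687) (l 56539261911))))) (b (a (c (l 16797880) (l 16793720)) (l 16796288)) (a (b (a (b (a (b (c (l 61907966135) (l 61371091895)) (l 103783892967)) (l 55465514263)) (l 105931376327)) (c (l 57076127895) (l 56002383303))) (l 107541988503)) (b (l 16795000) (b (l 55465514791) (l 90898990103)))))) (c (l 16804544) (l 16796200)))), by decide +kernel⟩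

def k20_pp_012 : ∃ t, chk3 f_pp_012 t 43 39 1 = true :=
  ⟨(a (l 3) (c (b (a (l 110763229255) (b (a (b (l 63518584599) (l 104857648343)) (l 57076133431)) (l 108078872759))) (l 3)) (b (a (l 111836965031) (b (a (b (l 61907966647) (l 105394503303)) (l 55465515847)) (l 108615727847))) (l 3)))), by decide +kernel⟩

def k21_pp_012 : ∃ t, chk3 f_pp_012 t 11 4 1 = true :=
  ⟨(b (a (a (b (l 16882200) (l 16853720)) (l 16867816)) (a (l 16905088) (l 16903304))) (a (b (a (a (l 16822192) (l 16828496)) (l 16840888)) (a (b (a (b (l 16807320) (l 16802288)) (l 16808848)) (a (b (a (b (l 16798440) (a (b (l 60297357015) (l 102710154711)) (l 16796880))) (l 16798536)) (a (l 110226346231) (b (l 62981713383) (l 105931377287)))) (b (l 16800640) (a (l 55465520407) (l 16796768))))) (b (l 16817856) (a (l 16801784) (l 16807016))))) (b (a (l 16861968) (l 16862776)) (a (l 16807512) (l 16837352))))), by decide +kernel⟩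

def k22_pp_012 : ∃ t, chk3 f_pp_012 t 5 5 1 = true :=
  ⟨(a (l 3) (b (a (b (a (b (a (l 3) (b (a (l 109152600631) (l 69424152423)) (l 3))) (l 3)) (b (a (b (l 50633683463) (a (l 107541984119) (l 69424169111))) (l 16794952)) (a (l 3) (b (l 95730819911) (l 3))))) (l 3)) (b (a (a (b (l 16799456) (b (l 16790920) (l 93046491031))) (b (l 16806936) (l 16791992))) (l 16796632)) (a (b (a (l 125258721431) (l 83382823767)) (l 3)) (b (a (b (l 16787752) (l 16794720)) (l 16790320)) (a (l 128479942679) (l 66739797495)))))) (l 3))), by decide +kernel⟩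

def k23_pp_012 : ∃ t, chk3 f_pp_012 t 2 3 1 = true :=
  ⟨(l 3), by decide +kernel⟩

def k24_pp_012 : ∃ t, chk3 f_pp_012 t 6 2 1 = true :=
  ⟨(b (a (b (a (l 16895840) (l 16877328)) (a (b (l 16858504) (l 16835416)) (b (l 16844152) (l 16824120)))) (b (a (l 16855800) (l 16827984)) (a (b (l 16828432) (l 16812752)) (b (l 16805712) (l 16793368))))) (a (b (b (a (a (l 16814192) (l 16812120)) (a (l 16807272) (l 16802960))) (a (a (b (l 16797784) (b (l 16789624) (l 52781167047))) (l 16792272)) (a (l 16789008) (l 16788144)))) (a (b (a (b (a (l 127943071815) (l 95193987127)) (l 3)) (b (l 16804624) (a (l 159618446855) (a (l 148344150263) (b (l 16778520) (l 105394522503)))))) (l 3)) (b (a (b (l 16776376) (b (l 16769904) (a (l 16807272) (l 16770128)))) (l 16776368)) (a (b (b (a (a (l 152102250039) (l 124721827399)) (a (l 16768440) (l 16778200))) (a (l 142438579463) (b (l 87677789863) (l 140827980647)))) (a (l 3) (b (l 141364836151) (l 3)))) (b (b (l 16769440) (a (l 16778880) (l 16768032))) (b (a (a (l 141364850855)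 (l 103783837927)) (l 16797912)) (a (l 147807285559) (a (l 102173297143) (b (l 16780208) (l 16781400)))))))))) (b (a (a (l 16794728) (l 16790688)) (a (l 16783416) (l 16772840))) (b (a (a (l 16777856) (l 16776168)) (a (l 16771272) (l 16763096))) (a (a (b (l 16771688) (l 16805872)) (l 16770920)) (a (l 16787920) (l 16760368))))))), by decide +kernel⟩

def k25_pp_012 : ∃ t, chk3 f_pp_012 t 6 3 1 = true :=
  ⟨(b (a (b (a (l 3) (b (a (l 3) (b (a (l 3) (b (a (l 3) (l 142975443511)) (l 3))) (l 3))) (l 3))) (l 3)) (b (a (b (a (b (a (b (a (l 89825265591) (l 16764456)) (a (l 139217350247) (l 127406185767))) (b (l 16772112) (a (b (l 16780712) (l 16796440)) (l 16778552)))) (a (l 3) (b (a (l 146733541223) (b (l 16801968) (l 132774909719))) (l 3)))) (a (b (l 16767288) (b (a (c (l 16770344) (l 16769784)) (l 16776432)) (a (l 131164293511) (b (l 16780880) (l 104857633303))))) (b (l 16767488) (c (l 16792856) (l 16798576))))) (a (l 3) (b (a (b (a (l 3) (l 139217350055)) (l 3)) (b (a (b (l 113447544839) (l 137069863159))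 (c (l 69424161959) (l 90898957447))) (a (l 3) (l 145659798855)))) (l 3)))) (b (a (b (l 16765720) (l 16787000)) (b (l 16760360) (l 16761584))) (a (a (b (b (l 16774408) (a (b (l 91972705367) (l 125258701319)) (c (l 56002363447) (l 16773992)))) (b (a (l 3) (b (l 99488925335) (l 137606735271))) (l 3))) (b (l 16787872) (b (b (l 16793832) (a (a (l 126332454983) (l 16780384)) (l 16789672))) (a (l 146733542071) (b (c (l 99488901895) (l 97878290151)) (l 137606732999)))))) (b (l 16784616) (a (a (b (l 16772168) (c (l 41506861223) (b (l 16778016) (l 16779992)))) (l 16791824)) (l 16786248)))))) (a (l 3) (b (a (l 3) (b (a (b (a (b (l 125258711431) (l 3)) (b (l 46875564359) (a (l 138143602999) (l 102710127463)))) (l 3)) (b (c (l 16791072) (l 16790960)) (a (b (a (l 120963745927) (l 90898966679)) (l 145122926679)) (b (l 16783568) (a (l 97878304215) (l 16779872)))))) (a (l 3) (b (a (l 3) (b (l 130627418599) (l 3))) (l 3))))) (l 3))))) (l 3)), by decide +kernel⟩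

def k26_pp_012 : ∃ t, chk3 f_pp_012 t 7 2 1 = true :=
  ⟨(a (b (a (b (a (l 16798200) (l 16774144)) (b (l 16769480) (l 16760544))) (b (a (l 16746832) (l 16716368)) (a (l 16730672) (l 16703512)))) (a (b (a (l 16758912) (l 16741632)) (b (a (l 16751616) (l 16736800)) (a (l 16750488) (l 16737296)))) (a (b (l 16721048) (b (l 16718696) (l 16720848))) (b (l 16697192) (b (l 16697328) (l 16701160)))))) (b (a (b (a (l 16682992) (l 16647040)) (a (l 16673288) (l 16640336))) (b (a (l 16608968) (l 16569264)) (a (l 16605104) (b (l 16566960) (l 16568344))))) (a (b (a (l 16670200) (b (l 16639312) (l 16641160))) (a (b (l 16672800) (l 16678304)) (b (l 16645440) (l 16694576)))) (b (a (b (l 16606344) (l 16609768)) (b (l 16571472) (l 16576464))) (a (b (l 16615680) (l 16624568)) (c (l 16652992) (l 16651648))))))), by decide +kernel⟩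

def k27_pp_012 : ∃ t, chk3 f_pp_012 t 14 12 1 = true :=
  ⟨(a (b (a (l 16794672) (l 16762128)) (a (a (l 16781496) (l 16777328)) (b (l 16767224) (l 16771776)))) (a (b (l 16747336) (a (l 16759952) (l 16752584))) (b (l 16729336) (a (l 16744416) (l 16735456))))), by decide +kernel⟩

def k28_pp_012 : ∃ t, chk3 f_pp_012 t 28 13 1 = true :=
  ⟨(b (a (b (a (c (l 16789328) (l 16789632)) (l 16784032)) (a (b (a (b (c (l 46875563815) (l 81772156839)) (a (l 137606732775) (l 99488915687))) (c (l 16788392) (b (l 16775904) (l 16778936)))) (a (l 3) (b (a (l 136532989639) (c (l 90362097415) (l 91435837607))) (l 3)))) (a (b (l 16772832) (b (l 16788752) (a (l 118816253623) (c (l 16779824) (l 16779344))))) (c (l 16787216) (l 16787264))))) (b (l 16777152) (a (l 16785592) (l 16780808)))) (a (b (a (l 3) (b (c (a (l 142975446071) (b (a (l 90362097047) (l 16779264)) (l 126332443399))) (a (l 146196669783) (b (a (l 91435838455) (l 16778824)) (l 128479925511)))) (l 3))) (l 3)) (b (b (a (a (a (b (l 16777104) (a (l 85530257175)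 (l 16779320))) (l 16786992)) (l 16783312)) (l 16786200)) (a (a (b (a (l 142438570151) (b (l 81772160359) (l 119353128919))) (l 3)) (b (c (l 16788696) (l 16783104)) (a (b (l 104320746423) (l 3)) (c (l 60834200279) (l 75866579687))))) (c (l 16785888) (c (l 16783216) (l 16783136))))) (a (b (a (l 3) (b (a (l 3) (l 141901699463)) (l 3))) (l 3)) (b (b (a (a (b (l 82309030503) (l 129016795559)) (c (l 16778976) (l 16778584))) (l 16786176)) (a (a (l 3) (b (l 119353118471) (l 3))) (a (c (l 59223587415) (l 74792837079)) (l 16783072)))) (a (l 3) (b (a (l 140827957831) (b (c (l 80698418087) (l 82309029703)) (l 134922375639))) (l 3)))))))), by decide +kernel⟩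

def k29_pp_012 : ∃ t, chk3 f_pp_012 t 29 13 1 = true :=
  ⟨(b (a (b (l 16765168) (c (l 16772904) (l 16771296))) (b (l 16750016) (a (l 16761600) (l 16753624)))) (a (b (a (l 16772152) (l 16766120)) (b (a (c (l 16780704) (l 16780680)) (l 16772384)) (a (a (b (a (c (l 16784032) (l 42043714919)) (l 16781896)) (a (b (l 120963736407) (l 3)) (b (l 33990653095) (a (l 133848633047) (l 82845901799))))) (c (l 16785440) (b (l 16783552) (l 16781656)))) (a (l 16780616) (l 16775920))))) (a (b (l 16769792) (l 16770744)) (b (l 16762176) (l 16760872))))), by decide +kernel⟩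

def k30_pp_012 : ∃ t, chk3 f_pp_012 t 15 6 1 = true :=
  ⟨(a (b (a (b (l 16729160) (b (l 16717032) (l 16724032))) (b (l 16705184) (a (l 16683168) (l 16671456)))) (b (a (a (l 16751280) (l 16731176)) (a (l 16720928) (l 16710088))) (b (a (a (l 16753824) (l 16723832)) (l 16728848)) (a (a (l 16752896) (l 16754752)) (a (l 16745520) (l 16738696)))))) (b (b (a (l 16657952) (l 16666088)) (a (l 16687688) (b (l 16683928) (l 16684896)))) (b (b (a (l 16695208) (a (l 16666920) (l 16662208))) (a (l 16701552) (a (l 16677928) (l 16672856)))) (b (a (a (l 16700048) (l 16715240)) (a (l 16709672) (l 16704264))) (a (a (l 16732296) (l 16726160)) (a (c (l 16700672) (l 16697912)) (c (l 16705840) (l 16702256)))))))), by decide +kernel⟩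

def k31_pp_012 : ∃ t, chk3 f_pp_012 t 28 14 1 = true :=
  ⟨(l 3), by decide +kernel⟩

def k32_pp_012 : ∃ t, chk3 f_pp_012 t 29 28 1 = true :=
  ⟨(a (b (a (b (a (l 3) (b (a (b (a (l 105931354455) (l 16784104)) (l 134922375655)) (c (l 38285618999) (b (l 16777640) (l 67813514151)))) (a (l 3) (c (l 126332441959) (l 128479924647))))) (l 3)) (b (a (b (l 16785784) (a (b (c (l 16778712) (l 16778384)) (a (l 138143600279) (l 81772158839))) (c (l 16777528) (l 16777256)))) (l 16782816)) (a (b (a (l 3) (b (a (l 107005092039) (l 54391745079)) (l 138680475959))) (l 3)) (b (a (a (c (l 46338680791) (l 61371061783)) (l 16783032)) (l 16781432)) (c (a (l 125795573591) (b (l 16778488) (l 109689441399))) (a (b (l 124184956071) (l 3)) (b (l 16780816) (l 111836924295)))))))) (l 3)) (b (a (a (b (l 16778192) (b (l 16783248) (c (l 16781392) (l 16781176)))) (b (l 16773680) (l 16780344))) (b (l 16768112) (l 16772040))) (a (b (a (b (a (a (c (l 123111215399) (l 125795569207)) (b (c (l 16778640) (l 16778360)) (l 137606729207)))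 (b (l 16782552) (a (c (l 86603996087) (l 89825220791)) (l 16783432)))) (a (l 3) (a (l 3) (c (l 122574344391) (l 125258698247))))) (b (c (l 16780112) (l 16779928)) (a (b (c (l 33990647879) (l 35601259943)) (a (l 134922379815) (c (l 83919641367) (l 87140866279)))) (c (l 16782200) (l 16781976))))) (a (l 3) (a (l 3) (b (c (b (a (l 113984408391) (l 16778440)) (l 135996117511)) (b (a (l 116131891399) (l 16779496)) (l 138143600535))) (l 3))))) (b (a (c (l 16779816) (b (l 16780688) (l 16778672))) (l 16777936)) (b (a (a (b (l 16782248) (a (b (l 50096775431) (l 98952030327)) (l 16781856))) (l 16780840)) (l 16780120)) (a (a (a (l 3) (b (c (l 112373795511) (l 114521278567)) (l 3))) (b (c (l 28621937207) (c (l 16780080) (l 44728061207))) (a (b (l 126332444343) (l 3)) (c (l 79624672759) (l 80161544183))))) (c (a (l 16781864) (l 16779648)) (a (l 16781664) (l 16779480))))))))), by decide +kernel⟩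

def k33_pp_012 : ∃ t, chk3 f_pp_012 t 29 29 1 = true :=
  ⟨(a (l 3) (b (a (l 3) (b (a (l 3) (b (a (c (b (a (l 110226311687) (l 43654321623)) (l 132238020839)) (b (a (l 112910665703) (l 50633642391)) (l 135459245799))) (a (b (l 16782448) (c (l 68887255351) (l 66202899879))) (c (l 16782224) (l 16782032)))) (a (l 3) (a (l 3) (b (c (l 108078827847) (l 110763184535)) (l 3)))))) (l 3))) (l 3))), by decide +kernel⟩

def k34_pp_012 : ∃ t, chk3 f_pp_012 t 14 15 1 = true :=
  ⟨(l 3), by decide +kernel⟩

def k35_pp_012 : ∃ t, chk3 f_pp_012 t 30 28 1 = true :=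
  ⟨(a (b (a (l 16768448) (l 16758712)) (b (a (c (l 16771536) (l 16771440)) (l 16763312)) (a (a (c (l 16777360) (l 16777232)) (l 16770376)) (c (l 16769464) (l 16766664))))) (b (a (l 16752000) (l 16739672)) (a (a (l 16760424) (l 16756608)) (c (l 16750720) (l 16750408))))), by decide +kernel⟩

def k36_pp_012 : ∃ t, chk3 f_pp_012 t 60 58 1 = true :=
  ⟨(a (b (b (a (b (l 16778624) (a (l 16781288) (l 16779088))) (l 16773728)) (c (a (a (b (c (l 22716356439) (l 22716356279)) (a (l 124184956023) (c (l 63518544375) (l 62444802887)))) (l 16778880)) (l 16778216)) (a (a (b (c (l 23790097575) (l 23790097527)) (a (l 127406181015) (c (l 61907932119) (l 62981673735)))) (l 16780016)) (l 16778720)))) (a (b (a (l 3) (b (a (b (c (l 78550930471) (l 69960995639)) (c (l 133311761175) (l 134385502535))) (c (l 30769419975) (l 44191190119))) (a (l 3) (c (l 120963730343) (l 124721826295))))) (l 3)) (b (a (a (b (l 16779472) (c (b (l 16777968) (l 88214606855)) (c (l 58686705975) (l 57612964455)))) (c (l 16779232) (l 16779064)))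 (c (l 16780224) (l 16780072))) (a (b (a (l 3) (b (c (l 64592285943) (l 62981673687)) (c (l 126332439095) (l 129553664151)))) (l 3)) (a (b (c (l 25400710695) (c (l 16780248) (l 16778840))) (a (l 3) (c (l 114521278711) (l 117742503783)))) (b (l 16779280) (c (b (l 16777808) (l 82309026263)) (b (l 16777640) (l 83382768375))))))))) (b (a (c (l 16772384) (l 16772232)) (l 16768136)) (b (a (c (l 16776976) (l 16776824)) (l 16772664)) (c (a (a (c (l 16778536) (l 16778464)) (l 16778960)) (l 16775768)) (a (a (c (l 16778392) (l 16778304)) (l 16778808)) (l 16775600)))))), by decide +kernel⟩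

def k37_pp_012 : ∃ t, chk3 f_pp_012 t 60 59 1 = true :=
  ⟨(a (l 3) (b (a (b (a (b (b (a (c (l 59760447031) (l 57076092999)) (l 16779768)) (a (c (l 121500600647) (l 124721825751)) (c (l 16779192) (l 16779032)))) (a (l 3) (b (c (l 107005085495) (l 110226310615)) (l 3)))) (c (b (l 16778624) (a (b (l 16777624) (l 67276640183)) (l 16776968))) (b (l 16778472) (a (b (l 16777472) (l 76940316919)) (l 16776816))))) (a (l 3) (b (a (c (l 131164280647) (l 135996115943)) (b (c (c (l 52244253879) (l 51170512263)) (l 51707383111)) (c (l 115595020343) (l 119353116407)))) (l 3)))) (b (a (c (l 16778544) (c (l 16777120) (l 16777040))) (c (l 16777720) (l 16777568))) (b (a (a (a (c (l 16778936) (l 16778784)) (l 16779680)) (l 16779544)) (c (l 16777352) (l 16777208))) (a (b (a (c (a (l 130090534903) (l 74255961735)) (a (l 131701147319) (l 76403445415))) (c (l 16777432) (l 16777288))) (a (l 3) (c (a (l 89825218695) (l 16777824)) (a (l 92509573175) (l 16777688))))) (c (l 16778848) (c (l 16776128) (l 16776048)))))))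 (a (l 3) (b (a (a (l 3) (a (l 3) (b (c (l 127406180871) (l 131164276983)) (l 3)))) (b (c (a (b (c (l 45264931431) (l 45264931479)) (a (l 3) (l 84993380103))) (l 16779464)) (a (b (c (l 42580577287) (l 43654318951)) (a (l 3) (l 86603993031))) (c (l 16777072) (l 16777000)))) (b (a (l 3) (c (a (l 117742503639) (l 54391737367)) (a (l 120963728823) (l 52781124951)))) (l 3)))) (l 3))))), by decide +kernel⟩

def k38_pp_012 : ∃ t, chk3 f_pp_012 t 61 29 1 = true :=
  ⟨(b (a (b (a (l 16764072) (l 16765352)) (c (a (l 16770120) (l 16766104)) (a (l 16769912) (l 16765824)))) (a (b (l 16761496) (l 16762016)) (b (l 16757720) (l 16758160)))) (a (b (a (a (b (l 16775536) (c (l 16777288) (l 16777136))) (b (l 16773448) (c (l 16771256) (l 16771088)))) (b (l 16770368) (a (l 16774336) (l 16772280)))) (a (b (a (b (c (l 16778216) (l 16778080)) (c (a (a (b (l 16777472) (l 80161541591)) (l 16779944)) (l 16776544)) (a (b (l 16777096) (c (l 50096770103) (l 49023028471))) (l 16776416)))) (a (b (l 16776560) (l 16778704)) (a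 (l 16777816) (l 16777296)))) (a (b (a (a (l 3) (b (c (l 112910665287) (l 97878282263)) (l 3))) (c (b (c (l 29158804375) (l 16778232)) (a (l 129553663943) (l 75866573831))) (b (c (l 16778824) (l 16778760)) (a (l 134385501911) (l 75866574231))))) (l 3)) (a (c (b (l 16779576) (b (a (l 85530251399) (l 36674997479)) (l 125258699591))) (b (l 16779456) (b (a (l 91972701927) (l 42043706039)) (l 129553666679)))) (b (c (l 16775904) (l 16775784)) (b (c (l 16777008) (l 16776888)) (a (c (l 60834187831) (l 71034735591)) (c (l 16777456) (l 16777344)))))))) (c (a (b (l 16776056) (b (l 16776952) (c (l 16778448) (l 16778392)))) (b (l 16770064) (c (l 16775632) (l 16772944)))) (b (a (l 16772128) (l 16769872)) (b (a (l 16776816) (l 16774712)) (a (c (l 16777024) (l 16775640)) (l 16776184))))))) (b (c (a (l 16767944) (l 16761432)) (a (l 16765680) (l 16763648))) (b (c (a (l 16772264) (l 16763056)) (a (l 16769400) (l 16762720))) (b (a (a (l 16774032) (l 16768056)) (a (l 16771280) (l 16769280))) (a (a (l 16775488) (l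 16773440)) (a (l 16767472) (l 16770712)))))))), by decide +kernel⟩

def k39_pp_012 : ∃ t, chk3 f_pp_012 t 31 14 1 = true :=
  ⟨(a (b (b (a (c (l 16733536) (l 16732296)) (a (l 16738520) (l 16735344))) (a (a (l 16745688) (l 16746152)) (b (l 16739696) (a (l 16731024) (l 16727648))))) (b (a (a (b (l 16743560) (l 16759632)) (b (l 16750440) (l 16755952))) (a (b (l 16746920) (l 16752352)) (b (l 16743464) (l 16743576)))) (a (b (a (c (l 16755688) (l 16755800)) (c (l 16756592) (l 16758512))) (b (a (c (l 16764448) (l 16763992)) (c (l 16755448) (l 16754848))) (c (a (l 16761992) (l 16763440)) (a (l 16761600) (l 16762904))))) (a (a (b (l 16758712) (c (l 16754056) (l 16758608))) (b (l 16756888) (c (l 16752240) (l 16751456)))) (b (a (l 16755080) (l 16753296)) (l 6)))))) (b (b (a (a (l 16732224) (l 16718680)) (a (l 16715664) (c (l 16703920) (l 16700496)))) (a (a (c (l 16722704) (l 16731232)) (c (l 16719656) (l 16727856))) (a (c (l 16727152) (l 16724520)) (c (l 16724224) (l 16721216))))) (a (b (b (a (l 16729592)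 (l 16736752)) (a (l 16740112) (l 16736712))) (b (a (c (l 16740840) (l 16739488)) (l 6)) (l 6))) (a (b (b (l 16733480) (l 6)) (l 6)) (l 6))))), by decide +kernel⟩

def k40_pp_012 : ∃ t, chk3 f_pp_012 t 60 30 1 = true :=
  ⟨(l 3), by decide +kernel⟩

def k41_pp_012 : ∃ t, chk3 f_pp_012 t 122 60 1 = true :=
  ⟨(b (a (b (a (l 3) (b (a (l 3) (a (l 3) (b (c (l 78014058631) (l 86067121591)) (l 3)))) (l 3))) (l 3)) (b (a (b (c (a (b (c (l 16778736) (l 16778688)) (a (l 118279374471) (c (l 53317995079) (l 52781124247)))) (l 16778048)) (a (b (c (l 16778632) (l 16777256)) (a (l 122574341543) (c (l 53317995063) (l 54391736775)))) (c (l 16776656) (l 16776592)))) (a (l 3) (a (b (c (c (l 79087799191) (l 80161541079)) (b (l 57076091671) (l 110226312487))) (l 3)) (c (b (l 16778848) (l 112910667799)) (b (l 16778744) (l 117205634887)))))) (b (c (l 16778120) (c (l 16777696) (l 16777624))) (b (a (c (l 16776784) (l 16776672)) (l 16778304)) (a (a (c (c (l 46875543863) (l 45801802199)) (c (l 46338673015) (l 47412414727)))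 (c (l 16777240) (l 16777136))) (c (l 16776464) (l 16776352)))))) (a (l 3) (b (a (b (a (c (l 127943051111) (l 132774889127)) (c (c (l 73182218839) (l 72645348167)) (c (l 73719090039) (l 75866573575)))) (l 3)) (c (b (l 16778496) (a (b (l 81772153591) (l 3)) (c (l 42043705255) (l 40433092679)))) (b (l 16779048) (a (b (l 83919637367) (l 3)) (c (l 38822480103) (l 39359350903)))))) (a (l 3) (b (a (l 3) (c (l 123111215351) (l 127406179847))) (l 3))))))) (l 3)), by decide +kernel⟩

def k42_pp_012 : ∃ t, chk3 f_pp_012 t 123 120 1 = true :=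
  ⟨(a (b (b (a (c (l 16775712) (l 16775560)) (l 16774888)) (c (a (l 16777160) (l 16775104)) (a (c (l 16777064) (l 16776992)) (l 16774944)))) (a (b (a (c (c (l 16776528) (l 16776488)) (c (l 16776432) (l 16776376))) (c (l 16778088) (l 16777976))) (a (a (b (c (c (l 64592284087) (l 67813509479)) (c (l 66739767895) (l 67813509767))) (l 3)) (c (b (l 16777320) (b (l 66739768391) (l 126869308871))) (b (l 16777224) (b (l 74792831559) (l 132238017815))))) (b (c (l 16776552) (l 16776448)) (a (c (c (l 16778176) (l 16778136)) (c (l 16778744) (l 16778696))) (c (l 16777008) (l 16776920)))))) (c (b (l 16776536) (a (l 16778496) (l 16777464))) (b (c (l 16776440) (l 16776368)) (a (l 16777736) (l 16777344)))))) (a (c (b (l 16773664) (a (l 16776376) (l 16772080))) (b (l 16769848) (b (l 16774320) (c (l 16775816) (l 16773112))))) (c (b (l 16770352) (b (l 16772480) (l 16773896))) (b (l 16767480) (b (l 16772264) (l 16773704)))))), by decide +kernel⟩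

def k43_pp_012 : ∃ t, chk3 f_pp_012 t 246 121 1 = true :=
  ⟨(b (a (b (a (l 3) (b (b (c (a (l 90362088871) (l 16778832)) (a (l 97341410215) (l 16778744))) (a (l 3) (c (l 72645348583) (l 81235282503)))) (l 3))) (l 3)) (b (c (a (a (b (l 16777208) (b (l 46338673607) (l 119889986839))) (c (l 16778376) (l 16778336))) (c (l 16776296) (l 16776256))) (a (a (b (l 16777120) (b (l 51707382071) (l 124184953959))) (c (l 16778296) (l 16778240))) (c (l 16776208) (l 16776152)))) (a (a (l 3) (b (b (c (l 79624670439) (l 82845895751)) (l 3)) (l 3))) (a (b (b (c (l 16777416) (l 16777336)) (c (a (l 95193926023) (l 16778896)) (l 64592283991))) (c (l 127943053559) (l 131701149831))) (c (b (l 16777088) (b (l 35601255191) (l 110226312855))) (b (l 16777008) (b (l 35064384119) (l 88214605143)))))))) (l 3)), by decide +kernel⟩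

def k44_pp_012 : ∃ t, chk3 f_pp_012 t 247 121 1 = true :=
  ⟨(b (c (b (a (a (l 16777864) (l 16776840)) (l 16775312)) (a (a (a (b (l 16776576) (l 16778592)) (l 16777728)) (l 16777608)) (a (l 16777240) (l 16776224)))) (a (a (b (l 16777752) (b (l 16776224) (a (l 16778512) (l 16776688)))) (b (l 16776712) (c (l 16775568) (l 16775512)))) (a (b (l 16773048) (l 16777120)) (b (l 16772016) (l 16776080))))) (a (b (a (a (b (a (c (l 124184956839) (l 129016794919)) (b (c (l 65666025399) (l 66739767399)) (l 3))) (l 3)) (a (b (c (c (l 44191188791) (l 45264930551)) (c (l 43117447079) (l 42580576167))) (l 3)) (c (b (l 16778656) (l 117742505799)) (b (l 16778584) (l 122037472967))))) (b (c (l 16778184) (c (l 16776648) (l 16776600))) (c (a (b (l 24326965863) (c (l 81772153031) (l 82309024055))) (l 16778472)) (a (b (l 23253223895) (a (l 3) (l 75329702023))) (l 16778400))))) (a (l 3) (b (a (l 3) (c (b (c (l 65666025335) (l 66202896343)) (l 125258698567)) (b (c (l 67813509095) (l 69960992663)) (l 127943052999))))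 (l 3)))) (b (a (c (c (l 16777536) (l 16776672)) (c (l 16775968) (l 16775920))) (c (l 16776984) (c (l 16774936) (l 16774872)))) (a (a (b (c (c (c (l 20568868599) (l 20568868583)) (l 18421385207)) (c (l 17884514231) (l 27548189911))) (a (l 3) (b (c (l 76940315143) (l 82845894871)) (l 3)))) (b (c (l 16776848) (l 16776768)) (b (c (l 16778680) (l 16778608)) (l 6)))) (b (c (l 16777392) (l 16777296)) (l 6)))))), by decide +kernel⟩

def k45_pp_012 : ∃ t, chk3 f_pp_012 t 61 61 1 = true :=
  ⟨(a (l 3) (b (a (l 3) (a (l 3) (a (l 3) (l 6)))) (l 3))), by decide +kernel⟩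

def k46_pp_012 : ∃ t, chk3 f_pp_012 t 30 31 1 = true :=
  ⟨(l 3), by decide +kernel⟩

def k47_pp_012 : ∃ t, chk3 f_pp_012 t 31 15 1 = true :=
  ⟨(b (a (b (a (b (a (c (b (c (l 16764864) (l 16764704)) (a (l 16768648) (l 16769224))) (b (c (l 16764536) (l 16764360)) (a (l 16768320) (l 16770232)))) (b (a (l 16766920) (l 16764984)) (a (c (l 16769896) (l 16769536)) (l 6)))) (a (a (c (a (b (l 16774832) (b (l 16776624) (l 6))) (b (l 16773504) (l 6))) (b (c (l 16771648) (l 16771552)) (a (b (l 16776488) (l 6)) (l 6)))) (a (b (b (l 16771688) (l 6)) (l 6)) (l 6))) (l 6))) (l 6)) (l 6)) (l 6)) (l 6)), by decide +kernel⟩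

theorem s48_pp_012 : ∃ t, chk3 f_pp_012 t 123 121 1 = true := ex3_a k43_pp_012 k44_pp_012

theorem s49_pp_012 : ∃ t, chk3 f_pp_012 t 123 60 1 = true := ex3_b k42_pp_012 s48_pp_012

theorem s50_pp_012 : ∃ t, chk3 f_pp_012 t 61 60 1 = true := ex3_a k41_pp_012 s49_pp_012

theorem s51_pp_012 : ∃ t, chk3 f_pp_012 t 61 30 1 = true := ex3_b s50_pp_012 k45_pp_012

theorem s52_pp_012 : ∃ t, chk3 f_pp_012 t 30 30 1 = true := ex3_a k40_pp_012 s51_pp_012

theorem s53_pp_012 : ∃ t, chk3 f_pp_012 t 30 15 1 = true := ex3_b s52_pp_012 k46_pp_012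

theorem s54_pp_012 : ∃ t, chk3 f_pp_012 t 15 15 1 = true := ex3_a s53_pp_012 k47_pp_012

theorem s55_pp_012 : ∃ t, chk3 f_pp_012 t 60 29 1 = true := ex3_b k36_pp_012 k37_pp_012

theorem s56_pp_012 : ∃ t, chk3 f_pp_012 t 30 29 1 = true := ex3_a s55_pp_012 k38_pp_012

theorem s57_pp_012 : ∃ t, chk3 f_pp_012 t 30 14 1 = true := ex3_b k35_pp_012 s56_pp_012

theorem s58_pp_012 : ∃ t, chk3 f_pp_012 t 15 14 1 = true := ex3_a s57_pp_012 k39_pp_012

theorem s59_pp_012 : ∃ t, chk3 f_pp_012 t 15 7 1 = true := ex3_b s58_pp_012 s54_pp_012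

theorem s60_pp_012 : ∃ t, chk3 f_pp_012 t 29 14 1 = true := ex3_b k32_pp_012 k33_pp_012

theorem s61_pp_012 : ∃ t, chk3 f_pp_012 t 14 14 1 = true := ex3_a k31_pp_012 s60_pp_012

theorem s62_pp_012 : ∃ t, chk3 f_pp_012 t 14 7 1 = true := ex3_b s61_pp_012 k34_pp_012

theorem s63_pp_012 : ∃ t, chk3 f_pp_012 t 7 7 1 = true := ex3_a s62_pp_012 s59_pp_012

theorem s64_pp_012 : ∃ t, chk3 f_pp_012 t 14 13 1 = true := ex3_a k28_pp_012 k29_pp_012

theorem s65_pp_012 : ∃ t, chk3 f_pp_012 t 14 6 1 = true := ex3_b k27_pp_012 s64_pp_012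

theorem s66_pp_012 : ∃ t, chk3 f_pp_012 t 7 6 1 = true := ex3_a s65_pp_012 k30_pp_012

theorem s67_pp_012 : ∃ t, chk3 f_pp_012 t 7 3 1 = true := ex3_b s66_pp_012 s63_pp_012

theorem s68_pp_012 : ∃ t, chk3 f_pp_012 t 7 1 1 = true := ex3_b k26_pp_012 s67_pp_012

theorem s69_pp_012 : ∃ t, chk3 f_pp_012 t 6 1 1 = true := ex3_b k24_pp_012 k25_pp_012

theorem s70_pp_012 : ∃ t, chk3 f_pp_012 t 3 1 1 = true := ex3_a s69_pp_012 s68_pp_012

theorem s71_pp_012 : ∃ t, chk3 f_pp_012 t 2778 1237 6 = true := ex3_b k12_pp_012 k13_pp_012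

theorem s72_pp_012 : ∃ t, chk3 f_pp_012 t 1389 1237 6 = true := ex3_a s71_pp_012 k14_pp_012

theorem s73_pp_012 : ∃ t, chk3 f_pp_012 t 1389 1237 3 = true := ex3_c s72_pp_012 k15_pp_012

theorem s74_pp_012 : ∃ t, chk3 f_pp_012 t 1389 618 3 = true := ex3_b k11_pp_012 s73_pp_012

theorem s75_pp_012 : ∃ t, chk3 f_pp_012 t 694 618 3 = true := ex3_a k10_pp_012 s74_pp_012

theorem s76_pp_012 : ∃ t, chk3 f_pp_012 t 694 309 3 = true := ex3_b s75_pp_012 k16_pp_012

theorem s77_pp_012 : ∃ t, chk3 f_pp_012 t 694 309 1 = true := ex3_c k9_pp_012 s76_pp_012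

theorem s78_pp_012 : ∃ t, chk3 f_pp_012 t 347 309 1 = true := ex3_a s77_pp_012 k17_pp_012

theorem s79_pp_012 : ∃ t, chk3 f_pp_012 t 347 154 1 = true := ex3_b k8_pp_012 s78_pp_012

theorem s80_pp_012 : ∃ t, chk3 f_pp_012 t 173 154 1 = true := ex3_a k7_pp_012 s79_pp_012

theorem s81_pp_012 : ∃ t, chk3 f_pp_012 t 173 77 1 = true := ex3_b s80_pp_012 k18_pp_012

theorem s82_pp_012 : ∃ t, chk3 f_pp_012 t 86 77 1 = true := ex3_a k6_pp_012 s81_pp_012

theorem s83_pp_012 : ∃ t, chk3 f_pp_012 t 86 38 1 = true := ex3_b k5_pp_012 s82_pp_012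

theorem s84_pp_012 : ∃ t, chk3 f_pp_012 t 43 38 1 = true := ex3_a s83_pp_012 k19_pp_012

theorem s85_pp_012 : ∃ t, chk3 f_pp_012 t 43 19 1 = true := ex3_b s84_pp_012 k20_pp_012

theorem s86_pp_012 : ∃ t, chk3 f_pp_012 t 21 19 1 = true := ex3_a k4_pp_012 s85_pp_012

theorem s87_pp_012 : ∃ t, chk3 f_pp_012 t 21 9 1 = true := ex3_b k3_pp_012 s86_pp_012

theorem s88_pp_012 : ∃ t, chk3 f_pp_012 t 10 9 1 = true := ex3_a k2_pp_012 s87_pp_012

theorem s89_pp_012 : ∃ t, chk3 f_pp_012 t 10 4 1 = true := ex3_b k1_pp_012 s88_pp_012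

theorem s90_pp_012 : ∃ t, chk3 f_pp_012 t 5 4 1 = true := ex3_a s89_pp_012 k21_pp_012

theorem s91_pp_012 : ∃ t, chk3 f_pp_012 t 5 2 1 = true := ex3_b s90_pp_012 k22_pp_012

theorem s92_pp_012 : ∃ t, chk3 f_pp_012 t 2 2 1 = true := ex3_a k0_pp_012 s91_pp_012

theorem s93_pp_012 : ∃ t, chk3 f_pp_012 t 2 1 1 = true := ex3_b s92_pp_012 k23_pp_012

theorem s94_pp_012 : ∃ t, chk3 f_pp_012 t 1 1 1 = true := ex3_a s93_pp_012 s70_pp_012

theorem c_pp_012 : CertN 0 536870912 0 536870912 402653184 67108864 3 false true true .pnp 0 1 2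
    ndN0q0 ndN0q2 pcN1 cut_pp_012 Ext.none :=
  certN2 (fam := false) (s1 := true) (s2 := true) (a := 0) (b := 1) (c := 2) (cn := .pnp) (n1 := ndN0q0) (n2 := ndN0q2) (pc := pcN1) (cut := cut_pp_012) (xt := Ext.none) (P1 := 0) (W1 := 536870912) (P2 := 0) (W2 := 536870912) (P3 := 402653184) (W3 := 67108864) (N0 := 3)
    rfl (fun _ => rfl) s94_pp_012

noncomputable def cut_pp_022 : Cut := Cut.of [[⟨0, 0, 0, 67108864⟩, ⟨1, 1, 0, 67108864⟩, ⟨2, 1, 0, 67108864⟩]]

noncomputable def f_pp_022 : ℕ → ℕ → ℕ → ℕ → Bool := onCell 0 536870912 0 536870912 402653184 67108864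
    (rowN 3 0 false true true .pp 0 2 2 (qsf 0 536870912 0 536870912 2) ndN0q0 ndN0q2 pcN2 cut_pp_022 Ext.none)

def k0_pp_022 : ∃ t, chk3 f_pp_022 t 2 2 1 = true :=
  ⟨(a (b (b (a (a (l 16495752) (l 16504824)) (a (l 16510288) (l 16496128))) (a (a (l 16447320) (l 16456776)) (a (l 16469024) (l 16504496)))) (a (b (a (l 16493520) (l 16507856)) (a (a (l 16541992) (l 16518928)) (l 16572240))) (b (a (l 16523496) (l 16587880)) (a (l 16598776) (b (l 16604008) (a (l 16565872) (l 16639120))))))) (a (a (b (b (l 16483152) (b (l 16489184) (l 16515816))) (a (b (b (l 16529240) (l 16555192)) (b (l 16625072) (l 241625135687))) (b (b (l 16540224) (l 16609680)) (l 1)))) (b (b (l 1) (l 1)) (l 1))) (l 1))), by decide +kernel⟩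

def k1_pp_022 : ∃ t, chk3 f_pp_022 t 2 3 1 = true :=
  ⟨(a (b (b (a (a (b (a (l 16549264) (l 16558184)) (a (l 16600232) (l 16588512))) (b (l 16591072) (c (l 16644256) (l 16641080)))) (a (b (l 16625632) (l 16660832)) (b (a (a (l 16626272) (l 16634816)) (a (l 16643304) (l 122439918279))) (a (a (b (l 16626912) (l 16642016)) (l 91301426183)) (l 1))))) (a (a (b (a (b (l 16603264) (a (l 16617480) (l 16622528))) (b (l 16612760) (l 16629688))) (a (b (a (b (l 16630296) (c (l 16643080) (l 16644848))) (b (l 16635416) (l 16643800))) (a (a (b (l 16643440) (l 16648208)) (l 16648272)) (l 16662360))) (b (a (l 16665312) (l 16648872)) (a (l 16656464) (l 16660824))))) (b (a (b (l 16621344) (l 16638408)) (l 16679552)) (b (a (b (l 16651488) (l 16659024)) (l 16704472)) (a (l 16687968) (l 16716344))))) (a (b (a (l 16686120) (a (l 16669272) (l 16692744))) (a (b (l 16710736) (a (l 16679304) (l 16708504))) (b (a (l 16693680) (l 1)) (l 1)))) (a (b (b (l 243772719047) (l 1)) (l 1)) (l 1))))) (a (b (a (b (a (a (a (b (c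 (l 16659576) (l 16652512)) (c (l 16670720) (l 16664808))) (b (l 16658704) (l 16670520))) (b (c (l 16665512) (l 16659376)) (c (l 16676976) (l 16671968)))) (a (b (l 16667352) (l 16700672)) (b (l 16672040) (l 16705696)))) (l 6)) (b (a (b (c (l 16701440) (l 16697848)) (a (l 16710480) (l 16715032))) (b (l 16718200) (a (l 16719424) (b (l 16719952) (l 83785319031))))) (a (l 6) (a (l 6) (a (l 6) (l 1)))))) (a (l 6) (a (l 6) (l 1)))) (b (a (b (a (b (a (l 65531690135) (l 304976082375)) (a (l 288333105735) (l 1))) (l 1)) (l 1)) (l 1)) (l 1)))) (b (l 1) (l 1))), by decide +kernel⟩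

def k2_pp_022 : ∃ t, chk3 f_pp_022 t 3 1 1 = true :=
  ⟨(l 1), by decide +kernel⟩

theorem s3_pp_022 : ∃ t, chk3 f_pp_022 t 2 1 1 = true := ex3_b k0_pp_022 k1_pp_022

theorem s4_pp_022 : ∃ t, chk3 f_pp_022 t 1 1 1 = true := ex3_a s3_pp_022 k2_pp_022

theorem c_pp_022 : CertN 0 536870912 0 536870912 402653184 67108864 3 false true true .pp 0 2 2
    ndN0q0 ndN0q2 pcN2 cut_pp_022 Ext.none :=
  certN0 (fam := false) (s1 := true) (s2 := true) (a := 0) (b := 2) (c := 2) (cn := .pp) (n1 := ndN0q0) (n2 := ndN0q2) (pc := pcN2) (cut := cut_pp_022) (xt := Ext.none) (P1 := 0) (W1 := 536870912) (P2 := 0) (W2 := 536870912) (P3 := 402653184) (W3 := 67108864) (N0 := 3)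
    rfl s4_pp_022

noncomputable def f_pp_101 : ℕ → ℕ → ℕ → ℕ → Bool := onCell 536870912 536870912 536870912 536870912 402653184 67108864
    (rowN 3 0 false true true .npn 1 0 1 (qsf 536870912 536870912 536870912 536870912 0) ndN0q1 ndN0q1 pcN0 Cut.none Ext.none)

def k0_pp_101 : ∃ t, chk3 f_pp_101 t 1 1 1 = true :=
  ⟨(l 3), by decide +kernel⟩

theorem c_pp_101 : CertN 536870912 536870912 536870912 536870912 402653184 67108864 3 false true true .npn 1 0 1
    ndN0q1 ndN0q1 pcN0 Cut.none Ext.none :=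
  certN0 (fam := false) (s1 := true) (s2 := true) (a := 1) (b := 0) (c := 1) (cn := .npn) (n1 := ndN0q1) (n2 := ndN0q1) (pc := pcN0) (cut := Cut.none) (xt := Ext.none) (P1 := 536870912) (W1 := 536870912) (P2 := 536870912) (W2 := 536870912) (P3 := 402653184) (W3 := 67108864) (N0 := 3)
    rfl k0_pp_101

noncomputable def f_pp_102 : ℕ → ℕ → ℕ → ℕ → Bool := onCell 0 536870912 0 536870912 402653184 67108864
    (rowN 3 2 false true true .npp 1 0 2 (qsf 536870912 536870912 0 536870912 0) ndN0q1 ndN0q2 pcN0 Cut.none Ext.none)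

def k0_pp_102 : ∃ t, chk3 f_pp_102 t 1 1 1 = true :=
  ⟨(a (b (l 3) (l 3)) (l 3)), by decide +kernel⟩

theorem c_pp_102 : CertN 536870912 536870912 0 536870912 402653184 67108864 3 false true true .npp 1 0 2
    ndN0q1 ndN0q2 pcN0 Cut.none Ext.none :=
  certN2 (fam := false) (s1 := true) (s2 := true) (a := 1) (b := 0) (c := 2) (cn := .npp) (n1 := ndN0q1) (n2 := ndN0q2) (pc := pcN0) (cut := Cut.none) (xt := Ext.none) (P1 := 536870912) (W1 := 536870912) (P2 := 0) (W2 := 536870912) (P3 := 402653184) (W3 := 67108864) (N0 := 3)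
    rfl (fun _ => rfl) k0_pp_102

noncomputable def f_pp_112 : ℕ → ℕ → ℕ → ℕ → Bool := onCell 536870912 536870912 0 536870912 402653184 67108864
    (rowN 3 0 false true true .dn 1 1 2 (qsf 536870912 536870912 0 536870912 1) ndN0q1 ndN0q2 pcN1 Cut.none Ext.none)

def k0_pp_112 : ∃ t, chk3 f_pp_112 t 1 1 1 = true :=
  ⟨(a (b (a (a (b (b (a (a (b (l 16832776) (b (l 16815752) (a (l 16808192) (b (l 16805720) (a (l 16802568) (l 48486195287)))))) (b (b (l 16825560) (l 16814912)) (b (a (l 16807824) (a (l 16804480) (l 45264969191))) (a (b (a (l 16802544) (l 49023066887)) (a (b (l 53318035383) (l 79624710423)) (l 83919677415))) (b (a (b (l 16799936) (l 78014097735)) (l 82845935623)) (l 3)))))) (b (a (b (l 16814280) (a (l 16807456) (b (l 16805240) (l 48486196839)))) (b (a (l 16807160) (l 46338712807)) (a (b (l 16801504) (a (l 66202938839) (l 80698452087))) (b (a (l 66739811207) (l 80161581207)) (l 3))))) (a (b (a (b (l 47412454663) (a (l 67276680631) (l 81772193847))) (b (a (l 66739809735) (l 81235322967))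 (l 3))) (l 3)) (l 3)))) (a (b (a (b (a (b (a (l 16802552) (a (l 16801104) (l 56002388199))) (a (b (c (l 54928656247) (l 53318033479)) (l 83382806695)) (b (l 81772193991) (l 3)))) (b (a (b (l 53318034727) (l 81235323095)) (l 84993419191)) (l 3))) (l 3)) (l 3)) (l 3)) (l 3))) (l 3)) (b (b (a (b (a (b (a (b (l 16801384) (a (l 66739811367) (l 80161581239))) (b (a (l 67276682407) (l 80161581287)) (l 3))) (l 3)) (l 3)) (l 3)) (l 3)) (l 3)) (l 3))) (l 3)) (l 3)) (l 1)), by decide +kernel⟩

theorem c_pp_112 : CertN 536870912 536870912 0 536870912 402653184 67108864 3 false true true .dn 1 1 2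
    ndN0q1 ndN0q2 pcN1 Cut.none Ext.none :=
  certN0 (fam := false) (s1 := true) (s2 := true) (a := 1) (b := 1) (c := 2) (cn := .dn) (n1 := ndN0q1) (n2 := ndN0q2) (pc := pcN1) (cut := Cut.none) (xt := Ext.none) (P1 := 536870912) (W1 := 536870912) (P2 := 0) (W2 := 536870912) (P3 := 402653184) (W3 := 67108864) (N0 := 3)
    rfl k0_pp_112

noncomputable def f_pp_202 : ℕ → ℕ → ℕ → ℕ → Bool := onCell 0 536870912 0 536870912 402653184 67108864
    (rowN 3 0 false true true .pp 2 0 2 (qsf 0 536870912 0 536870912 0) ndN0q2 ndN0q2 pcN0 Cut.none Ext.none)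

def k0_pp_202 : ∃ t, chk3 f_pp_202 t 1 1 1 = true :=
  ⟨(l 3), by decide +kernel⟩

theorem c_pp_202 : CertN 0 536870912 0 536870912 402653184 67108864 3 false true true .pp 2 0 2
    ndN0q2 ndN0q2 pcN0 Cut.none Ext.none :=
  certN0 (fam := false) (s1 := true) (s2 := true) (a := 2) (b := 0) (c := 2) (cn := .pp) (n1 := ndN0q2) (n2 := ndN0q2) (pc := pcN0) (cut := Cut.none) (xt := Ext.none) (P1 := 0) (W1 := 536870912) (P2 := 0) (W2 := 536870912) (P3 := 402653184) (W3 := 67108864) (N0 := 3)
    rfl k0_pp_202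

noncomputable def f_pm_001 : ℕ → ℕ → ℕ → ℕ → Bool := onCell 0 536870912 536870912 536870912 402653184 67108864
    (rowN 3 0 false true false .up 0 0 1 (qsf 0 536870912 536870912 536870912 0) ndN0q0 ndN0q1 pcN0 Cut.none Ext.none)

def k0_pm_001 : ∃ t, chk3 f_pm_001 t 2 1 1 = true :=
  ⟨(b (l 4) (b (b (l 4) (l 2)) (l 2))), by decide +kernel⟩

def k1_pm_001 : ∃ t, chk3 f_pm_001 t 6 2 1 = true :=
  ⟨(b (l 4) (l 4)), by decide +kernel⟩

def k2_pm_001 : ∃ t, chk3 f_pm_001 t 7 4 1 = true :=
  ⟨(l 4), by decide +kernel⟩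

def k3_pm_001 : ∃ t, chk3 f_pm_001 t 14 10 1 = true :=
  ⟨(l 4), by decide +kernel⟩

def k4_pm_001 : ∃ t, chk3 f_pm_001 t 15 20 1 = true :=
  ⟨(a (l 4) (b (l 4) (a (l 4) (b (l 4) (a (l 4) (b (a (l 4) (c (l 190824124967) (l 196192814167))) (a (b (l 4) (a (l 4) (l 186529142775))) (b (a (l 188139755719) (l 170959878807)) (a (l 168275524247) (l 16799376)))))))))), by decide +kernel⟩

def k5_pm_001 : ∃ t, chk3 f_pm_001 t 30 21 1 = true :=
  ⟨(b (l 4) (a (l 4) (b (a (l 4) (b (l 4) (a (l 4) (c (b (l 4) (a (l 4) (l 181160448775))) (b (l 4) (a (l 4) (l 185992267815))))))) (a (b (l 4) (a (l 4) (b (l 4) (l 179012952247)))) (b (c (a (l 181160451063) (b (a (l 180086705463) (b (l 154316898535) (l 139284507031))) (a (l 148948185911) (l 16805296)))) (a (b (l 4) (l 184381654775)) (a (b (l 184381654023) (l 153780006711)) (b (a (l 174181103799) (l 151632523239)) (l 16797016))))) (a (b (a (l 178476080583) (l 143042591767)) (a (l 139821366663) (l 16799296))) (l 16796336))))))), by decide +kernel⟩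

def k6_pm_001 : ∃ t, chk3 f_pm_001 t 31 42 1 = true :=
  ⟨(a (c (b (l 4) (a (l 4) (b (a (l 4) (b (l 189213513207) (a (l 185992284823) (l 172570506327)))) (a (b (a (l 4) (l 184381671751)) (a (l 182234182503) (l 161833087111))) (b (a (l 164517442183) (l 16804896)) (l 16802680)))))) (b (l 4) (a (l 4) (b (a (l 4) (b (l 195119073479) (a (l 190824103975) (l 177402326631)))) (a (b (a (l 4) (l 189213491015)) (a (b (l 194582201079) (l 184381651431)) (b (l 176328585511) (l 16798440)))) (b (a (l 169349267847) (l 16796552)) (l 16794672))))))) (b (a (b (a (l 4) (b (l 4) (a (l 4) (b (l 188676627255) (l 178476077335))))) (a (b (a (l 4) (l 194045339543)) (a (l 192434726599) (b (l 183844788551) (l 174717974391)))) (b (a (b (l 186529143367) (l 176328593367)) (l 16801736)) (l 16799920)))) (b (a (b (a (b (l 190824111127) (l 181160432199)) (l 166128040647)) (l 159148718743)) (l 16795568)) (a (l 16794824) (l 16786896)))) (a (b (a (a (b (c (l 174717990407) (l 179549810599)) (l 16800968)) (l 16799472)) (l 16793984))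 (l 16810360)) (l 16805408)))), by decide +kernel⟩

def k7_pm_001 : ∃ t, chk3 f_pm_001 t 31 43 1 = true :=
  ⟨(a (b (a (b (c (a (l 4) (b (a (l 4) (b (l 187602898023) (l 176865476743))) (a (b (l 184381672183) (a (l 180086703303) (l 161833084631))) (l 156464376167)))) (a (l 4) (b (a (l 4) (b (l 192971588119) (a (l 188676619655) (l 169349264439)))) (a (b (l 189213491495) (a (l 184918522967) (l 165054296247))) (b (l 163443683799) (l 16797896)))))) (a (b (c (a (l 4) (b (a (l 4) (l 178476090343)) (a (l 176328606455) (l 16808760)))) (a (l 4) (b (a (l 4) (l 183307910071)) (a (b (l 186529136039) (l 176865458327)) (l 160759328887))))) (c (a (b (a (l 181160446919) (b (l 176328607047) (l 164517439911))) (a (l 152169414487) (l 16808424))) (l 16806728)) (a (b (a (l 185992266311) (b (l 181160426759) (l 167738652615))) (a (b (l 158611847991) (l 144116330583)) (l 16799568))) (l 154316877895)))) (b (a (c (l 154316889239) (l 157538103623)) (l 16799248)) (l 16796912)))) (b (a (a (a (b (c (l 161833088231) (l 166664908599))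 (l 16800512)) (l 16800688)) (l 16798032)) (l 16792120)) (l 16789000))) (a (b (a (b (a (c (l 16806224) (l 16797728)) (l 16798368)) (l 16795864)) (l 16791208)) (l 16788568)) (l 16785768))) (a (l 16828264) (l 16794648))), by decide +kernel⟩

def k8_pm_001 : ∃ t, chk3 f_pm_001 t 7 11 1 = true :=
  ⟨(a (b (a (l 4) (b (l 4) (a (l 4) (b (a (l 4) (b (l 184918534647) (a (l 181160430247) (l 144116335527)))) (a (b (l 180623560855) (a (l 175791713367) (l 16791776))) (b (l 104924792471) (l 16784744))))))) (a (b (a (l 4) (b (l 4) (a (l 4) (l 162906818551)))) (a (b (l 4) (a (l 4) (l 179549794999))) (b (a (b (l 4) (l 152169382247)) (l 93113629319)) (l 59290756871)))) (b (a (b (a (l 174181116103) (b (l 175791715191) (a (l 177402304599) (l 16786904)))) (a (b (l 155927459975) (l 16805896)) (l 16802616))) (b (a (l 87208063911) (l 16785064)) (l 16796040))) (a (b (l 16788720) (l 16797544)) (l 16809032))))) (a (b (b (a (b (a (l 4) (b (l 4) (a (l 4) (l 175791723959)))) (a (b (l 4) (a (l 4) (l 170423008455))) (b (a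 (l 173644237223) (l 129620821015)) (a (l 16794608) (l 16789160))))) (b (a (b (a (l 178476070919) (b (a (l 174181110423) (l 16801544)) (l 16799064))) (a (b (l 141431980967) (l 16796864)) (l 16792576))) (b (l 16812688) (l 16787256))) (a (l 16807792) (l 16786888)))) (a (b (a (b (a (l 167738649959) (l 16792368)) (l 16787848)) (l 16785152)) (l 16807456)) (a (l 16793528) (l 16805672)))) (b (a (l 16817776) (l 16831760)) (l 16830312))) (b (a (b (a (l 16830584) (l 16798184)) (l 16832880)) (b (l 16823960) (l 16843280))) (a (l 16846824) (l 16858488))))), by decide +kernel⟩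

def k9_pm_001 : ∃ t, chk3 f_pm_001 t 12 6 1 = true :=
  ⟨(b (b (l 4) (a (l 4) (b (l 4) (a (l 4) (b (l 4) (a (b (l 4) (l 2)) (b (a (l 4) (a (l 80228661527) (l 83986788711))) (a (b (l 103314136631) (l 2)) (l 16792856))))))))) (b (a (l 2) (b (a (l 2) (b (a (l 2) (c (l 16794136) (l 14059344167))) (l 2))) (l 2))) (l 2))), by decide +kernel⟩

def k10_pm_001 : ∃ t, chk3 f_pm_001 t 13 12 1 = true :=
  ⟨(b (a (l 4) (b (a (l 4) (b (l 4) (a (l 179012908199) (b (l 142505700935) (l 16780280))))) (a (b (a (l 4) (b (l 4) (l 124788978935))) (a (b (l 131231409351) (a (l 100092889783) (l 64122566919))) (b (b (l 92039864167) (l 16803848)) (l 16778560)))) (b (a (a (l 70564971127) (l 16779840)) (l 16778688)) (a (l 16778248) (l 16781616)))))) (a (b (a (b (l 4) (a (l 4) (b (l 4) (a (l 4) (b (l 45332031015) (l 63585645655)))))) (b (a (b (l 4) (a (l 4) (l 96334799527))) (b (a (l 4) (c (l 61438170823) (l 65196246343))) (a (c (l 62511895511) (l 16775664)) (l 16784464)))) (a (a (b (l 83986768951) (l 36742114295)) (b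 (c (l 16776376) (l 16784992)) (l 16779968))) (b (l 16800056) (l 16774864))))) (a (b (a (b (a (l 4) (l 119957137751)) (a (b (l 4) (l 104387877111)) (b (l 65733127207) (l 16784584)))) (b (a (b (l 104387875239) (l 16785536)) (l 16783640)) (l 16798752))) (a (b (a (b (l 16785104) (l 16782784)) (l 16778472)) (a (l 16774832) (l 16770864))) (l 16791600))) (a (b (l 16794312) (l 16770720)) (c (l 16778384) (l 16787168))))) (a (a (b (b (b (a (l 16785288) (l 16779280)) (l 16777112)) (l 16775288)) (b (l 16775104) (l 16775552))) (b (b (l 16777144) (l 16777944)) (l 16779824))) (b (b (l 16782200) (l 16784704)) (c (l 16797168) (l 16788920)))))), by decide +kernel⟩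

def k11_pm_001 : ∃ t, chk3 f_pm_001 t 13 13 1 = true :=
  ⟨(b (a (b (a (b (a (l 16789072) (l 16768568)) (a (l 16766656) (l 16768176))) (a (b (l 16770064) (l 16770192)) (c (l 16782352) (l 16762040)))) (a (a (l 2) (l 21575481639)) (a (c (l 16784280) (l 16758656)) (c (l 16788000) (l 16739000))))) (b (a (c (a (l 16787616) (l 16794152)) (b (l 16768152) (l 16767376))) (c (l 16804448) (b (l 16778656) (l 16778696)))) (a (a (b (l 16778264) (l 16779976)) (b (l 16784632) (l 16786600))) (c (a (l 16808192) (l 16815616)) (b (l 16778896) (l 16779448)))))) (a (a (l 2) (a (l 2) (b (b (l 16756560) (l 2)) (l 2)))) (b (a (b (c (l 16803472) (l 16749464)) (a (l 24259815959) (l 16751048))) (a (b (l 16796176) (a (l 16798168) (l 16801616))) (b (l 16803192) (l 16785848)))) (b (a (c (l 25333671575) (l 28554800007)) (c (l 16829816) (a (l 16783024) (l 16789384)))) (a (l 2) (a (l 25870464999) (l 16206792119))))))), by decide +kernel⟩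

def k12_pm_001 : ∃ t, chk3 f_pm_001 t 7 6 1 = true :=
  ⟨(b (a (b (a (b (a (b (a (l 124788992007) (l 16779296)) (l 16780888)) (l 16790288)) (a (b (l 16785272) (l 16789280)) (l 16799312))) (b (a (l 16803456) (l 16817552)) (a (l 16812640) (l 16826928)))) (a (b (a (c (l 16801744) (l 16787072)) (l 16807224)) (a (c (l 16810912) (l 16789480)) (l 16813776))) (b (a (l 16820952) (l 16835544)) (a (l 16828032) (l 16843008))))) (b (a (b (a (l 16832480) (l 16848152)) (a (l 16842064) (l 16857904))) (a (b (l 16862592) (l 16872632)) (l 16880672))) (a (a (b (l 16850904) (l 16858664)) (b (l 16866936) (l 16874904))) (a (b (l 16881816) (l 16889880)) (b (l 16895136) (l 16903152)))))) (a (b (a (b (a (a (l 16801712) (l 16808632)) (c (l 16834160) (l 16804120))) (a (c (l 16826888) (b (l 16791872) (l 16792728))) (a (l 16820704) (l 16828160)))) (a (b (c (l 16849712) (l 16818112)) (c (l 16858112) (l 16820584))) (b (l 16849392) (c (l 16874208) (l 16835776))))) (a (a (c (b (l 16835760) (a (l 16844088) (l 16851192))) (b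 (b (l 16794040) (l 16796064)) (b (a (l 16795880) (l 16802512)) (a (l 16800528) (l 16806808))))) (b (c (l 16851088) (b (l 16808088) (l 16809984))) (c (l 16861928) (b (l 16812688) (a (l 16813256) (l 16819880)))))) (c (a (b (l 16866680) (l 16876696)) (b (l 16882616) (l 16891912))) (a (b (a (l 16819880) (l 16827336)) (a (l 16824856) (l 16832024))) (b (l 16838792) (a (l 16839400) (l 16846992))))))) (a (b (a (b (l 16865336) (l 16871248)) (b (l 16881792) (l 16887856))) (a (b (c (l 16898896) (l 16854760)) (c (l 16907608) (l 16858688))) (b (l 16893504) (l 16899448)))) (b (a (b (l 16896792) (l 16902776)) (b (l 16909912) (l 16915568))) (a (b (l 16908160) (l 16913496)) (b (l 16920440) (l 16924928))))))), by decide +kernel⟩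

def k13_pm_001 : ∃ t, chk3 f_pm_001 t 6 7 1 = true :=
  ⟨(b (a (l 2) (b (a (l 2) (b (a (l 2) (a (l 2) (b (l 30702327479) (l 2)))) (l 2))) (l 2))) (l 2)), by decide +kernel⟩

def k14_pm_001 : ∃ t, chk3 f_pm_001 t 7 28 1 = true :=
  ⟨(a (a (a (b (a (b (l 18354301671) (l 35534193847)) (b (l 16775280) (a (l 16793832) (l 16785992)))) (a (l 2) (a (l 2) (b (l 40366065495) (l 2))))) (c (b (a (l 16874112) (l 16880352)) (a (l 16897880) (l 16902192))) (b (b (a (l 16818808) (l 16824936)) (a (l 16826424) (l 16831840))) (b (a (l 16794728) (l 16841096)) (a (l 44661067495) (l 16811376)))))) (c (b (a (l 16889984) (l 16903608)) (a (l 16909216) (l 16919848))) (a (b (b (l 16834512) (l 16829960)) (b (a (l 16845864) (l 16851016)) (a (l 16856872) (l 16860904)))) (b (b (l 16848240) (l 16853080)) (b (l 16859488) (l 16867896)))))) (a (b (a (c (l 16917976) (l 16864840)) (c (l 16932960) (l 16880176))) (a (b (l 16900144) (l 16886616)) (c (l 16944736) (l 16888592)))) (b (a (l 16919608) (l 16929696)) (a (b (l 16925408)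 (a (l 16928696) (c (l 16962328) (l 16905360)))) (b (l 16934008) (b (l 16937592) (a (a (l 16937520) (l 16939952)) (l 16944952)))))))), by decide +kernel⟩

def k15_pm_001 : ∃ t, chk3 f_pm_001 t 7 29 1 = true :=
  ⟨(a (b (a (a (l 2) (a (l 2) (a (l 2) (b (l 50029800471) (l 2))))) (a (a (b (c (l 16928208) (l 16829240)) (b (l 53251043095) (l 2))) (b (c (l 16931240) (l 16873760)) (c (b (l 16945528) (l 16962888)) (b (b (l 16883576) (c (l 16904392) (a (l 16873864) (b (l 16872848) (l 16876296))))) (a (l 51640471191) (l 16910312)))))) (b (a (l 16885120) (a (l 16908992) (l 16890872))) (c (b (a (l 16948880) (l 16954376)) (l 16976232)) (b (a (b (a (l 16885160) (l 16887648)) (a (b (l 16889336) (l 16895552)) (l 16896608))) (b (a (b (l 16887784) (l 16891240)) (l 16893128)) (l 16904544))) (a (l 16917080) (l 16926256))))))) (a (l 2) (a (a (l 2) (b (b (l 58083031383) (l 2)) (l 2))) (c (b (l 17019832) (l 17086616)) (a (b (l 36608233591) (l 82242427159)) (b (l 16953328) (a (l 43587782359) (l 17049008)))))))) (b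 (a (a (b (b (l 16914336) (c (a (l 16948336) (l 16954048)) (a (a (l 16888544) (a (l 16890344) (l 16891696))) (b (l 16892896) (l 16900272))))) (c (l 16980944) (a (l 16921608) (l 16931624)))) (c (b (b (l 16956608) (l 16967680)) (l 16998848)) (b (b (a (l 16895000) (b (l 16899472) (l 16903112))) (a (l 16905696) (l 16918136))) (l 16946656)))) (b (a (a (b (a (l 16914768) (l 16938760)) (l 16955296)) (l 16953048)) (l 16963088)) (a (c (l 17012776) (l 16961944)) (l 16996624)))) (a (a (c (l 17040760) (b (l 16964056) (a (l 17051744) (l 17055680)))) (c (l 17050920) (b (l 16999832) (l 17041064)))) (a (c (l 17078072) (b (l 17009816) (l 17065672))) (b (l 17036200) (l 17082256)))))), by decide +kernel⟩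

def k16_pm_001 : ∃ t, chk3 f_pm_001 t 7 15 1 = true :=
  ⟨(a (b (a (l 2) (b (b (a (l 2) (a (l 2) (b (l 96738106679) (l 2)))) (l 2)) (l 2))) (l 2)) (b (a (b (c (a (b (l 17162080) (l 17240328)) (b (l 17162136) (l 17232336))) (a (b (a (b (l 17111544) (l 106401873127)) (l 17132896)) (a (l 120897451335) (l 119823654455))) (b (l 17133608) (a (l 17216528) (l 17213088))))) (b (b (a (l 132708742279) (l 113918199607)) (a (l 2) (l 118213269127))) (a (l 2) (a (l 390943795527) (l 153646718631))))) (a (b (b (l 17123336) (l 17169976)) (a (b (l 17274536) (l 17266560)) (a (l 17219424) (l 17211656)))) (b (b (l 17135096) (l 17194904)) (a (l 17168832) (l 17188456))))) (a (b (a (l 2) (a (l 2) (a (l 2) (b (l 337256618279) (l 2))))) (l 2)) (b (a (b (c (l 17294952) (b (a (l 176732207383) (l 17295552)) (a (a (l 352825842055) (l 221829341671)) (l 17274800)))) (b (b (b (c (l 17281064) (a (l 378595625207) (c (l 17267792) (a (l 194985768775) (l 17259720))))) (c (l 17280088) (a (l 2) (l 204112568983)))) (a (l 2) (l 202501953799)))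 (c (l 17280360) (l 205723189495)))) (b (c (l 17296168) (l 17225728)) (c (l 17282192) (a (l 17297776) (l 17269080))))) (a (c (l 17280776) (l 204649446759)) (l 103717758599)))))), by decide +kernel⟩

theorem s17_pm_001 : ∃ t, chk3 f_pm_001 t 7 14 1 = true := ex3_b k14_pm_001 k15_pm_001

theorem s18_pm_001 : ∃ t, chk3 f_pm_001 t 7 7 1 = true := ex3_b s17_pm_001 k16_pm_001

theorem s19_pm_001 : ∃ t, chk3 f_pm_001 t 3 7 1 = true := ex3_a k13_pm_001 s18_pm_001

theorem s20_pm_001 : ∃ t, chk3 f_pm_001 t 13 6 1 = true := ex3_b k10_pm_001 k11_pm_001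

theorem s21_pm_001 : ∃ t, chk3 f_pm_001 t 6 6 1 = true := ex3_a k9_pm_001 s20_pm_001

theorem s22_pm_001 : ∃ t, chk3 f_pm_001 t 3 6 1 = true := ex3_a s21_pm_001 k12_pm_001

theorem s23_pm_001 : ∃ t, chk3 f_pm_001 t 3 3 1 = true := ex3_b s22_pm_001 s19_pm_001

theorem s24_pm_001 : ∃ t, chk3 f_pm_001 t 31 21 1 = true := ex3_b k6_pm_001 k7_pm_001

theorem s25_pm_001 : ∃ t, chk3 f_pm_001 t 15 21 1 = true := ex3_a k5_pm_001 s24_pm_001

theorem s26_pm_001 : ∃ t, chk3 f_pm_001 t 15 10 1 = true := ex3_b k4_pm_001 s25_pm_001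

theorem s27_pm_001 : ∃ t, chk3 f_pm_001 t 7 10 1 = true := ex3_a k3_pm_001 s26_pm_001

theorem s28_pm_001 : ∃ t, chk3 f_pm_001 t 7 5 1 = true := ex3_b s27_pm_001 k8_pm_001

theorem s29_pm_001 : ∃ t, chk3 f_pm_001 t 7 2 1 = true := ex3_b k2_pm_001 s28_pm_001

theorem s30_pm_001 : ∃ t, chk3 f_pm_001 t 3 2 1 = true := ex3_a k1_pm_001 s29_pm_001

theorem s31_pm_001 : ∃ t, chk3 f_pm_001 t 3 1 1 = true := ex3_b s30_pm_001 s23_pm_001

theorem s32_pm_001 : ∃ t, chk3 f_pm_001 t 1 1 1 = true := ex3_a k0_pm_001 s31_pm_001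

theorem c_pm_001 : CertN 0 536870912 536870912 536870912 402653184 67108864 3 false true false .up 0 0 1
    ndN0q0 ndN0q1 pcN0 Cut.none Ext.none :=
  certN0 (fam := false) (s1 := true) (s2 := false) (a := 0) (b := 0) (c := 1) (cn := .up) (n1 := ndN0q0) (n2 := ndN0q1) (pc := pcN0) (cut := Cut.none) (xt := Ext.none) (P1 := 0) (W1 := 536870912) (P2 := 536870912) (W2 := 536870912) (P3 := 402653184) (W3 := 67108864) (N0 := 3)
    rfl s32_pm_001

end Pool.Agent.Strip051.G.I3_8_7_16.Tab.C.NB00

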