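import Pool.Agent.Strip051.G.I3_8_7_16.Tab

/-! # Certificates N16 (generated) -/

set_option linter.all false
set_option maxRecDepth 100000

namespace Pool.Agent.Strip051.G.I3_8_7_16.Tab.C.NB31

open Pool.Agent.Strip051.PB Pool.Agent.Strip051.PB.T
open Pool.Agent.Strip051.G.I3_8_7_16.Tab

noncomputable def f_pp_012_b : ℕ → ℕ → ℕ → ℕ → Bool := onCell 536870912 536870912 1239849684 370763052 402653184 67108864
    (rowN 3 2 false true true .pnp 0 1 2 (qsf 0 536870912 1239849684 370763052 1) ndN3q0 ndN1q2b pcN1 Cut.none Ext.none)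

def k0_pp_012_b : ∃ t, chk3 f_pp_012_b t 1 1 1 = true :=
  ⟨(a (a (l 2) (b (b (l 17128792) (l 17252288)) (l 2))) (a (b (b (l 17311968) (l 17573240)) (l 17735832)) (b (a (l 17462168) (b (l 17209448) (l 17562040))) (l 18254272)))), by decide +kernel⟩

theorem c_pp_012_b : CertN 0 536870912 1239849684 370763052 402653184 67108864 3 false true true .pnp 0 1 2
    ndN3q0 ndN1q2b pcN1 Cut.none Ext.none :=
  certN2 (fam := false) (s1 := true) (s2 := true) (a := 0) (b := 1) (c := 2) (cn := .pnp) (n1 := ndN3q0) (n2 := ndN1q2b) (pc := pcN1) (cut := Cut.none) (xt := Ext.none) (P1 := 0) (W1 := 536870912) (P2 := 1239849684) (W2 := 370763052) (P3 := 402653184) (W3 := 67108864) (N0 := 3)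
    rfl (fun _ => rfl) k0_pp_012_b

noncomputable def f_pp_022_a : ℕ → ℕ → ℕ → ℕ → Bool := onCell 0 536870912 0 536870912 402653184 67108864
    (rowN 3 0 false true true .pp 0 2 2 (qsf 0 536870912 0 536870912 2) ndN3q0 ndN1q2a pcN2 Cut.none Ext.none)

def k0_pp_022_a : ∃ t, chk3 f_pp_022_a t 1 1 1 = true :=
  ⟨(a (b (a (a (l 16945384) (l 16870056)) (a (l 163243384999) (l 1))) (a (b (a (a (l 16718608) (l 16804384)) (l 203508439447)) (a (b (l 16819120) (l 242162793943)) (b (l 302829649383) (l 1)))) (b (l 1) (l 1)))) (l 1)), by decide +kernel⟩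

theorem c_pp_022_a : CertN 0 536870912 0 536870912 402653184 67108864 3 false true true .pp 0 2 2
    ndN3q0 ndN1q2a pcN2 Cut.none Ext.none :=
  certN0 (fam := false) (s1 := true) (s2 := true) (a := 0) (b := 2) (c := 2) (cn := .pp) (n1 := ndN3q0) (n2 := ndN1q2a) (pc := pcN2) (cut := Cut.none) (xt := Ext.none) (P1 := 0) (W1 := 536870912) (P2 := 0) (W2 := 536870912) (P3 := 402653184) (W3 := 67108864) (N0 := 3)
    rfl k0_pp_022_a

noncomputable def f_pp_022_b : ℕ → ℕ → ℕ → ℕ → Bool := onCell 0 536870912 1073741824 536870912 402653184 67108864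
    (rowN 3 1 false true true .pp 0 2 2 (qsf 0 536870912 1239849684 370763052 2) ndN3q0 ndN1q2b pcN2 Cut.none Ext.none)

def k0_pp_022_b : ∃ t, chk3 f_pp_022_b t 1 1 1 = true :=
  ⟨(b (a (b (a (b (l 248604914039) (l 16748648)) (b (l 17086376) (l 17046224))) (a (a (l 16567448) (l 16715464)) (l 16985472))) (b (a (l 17567976) (l 18013144)) (l 17634032))) (a (b (a (b (l 16514256) (l 16415776)) (l 16884680)) (a (b (l 16286256) (l 16496224)) (l 17047184))) (b (l 17563760) (l 2)))), by decide +kernel⟩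

theorem c_pp_022_b : CertN 0 536870912 1239849684 370763052 402653184 67108864 3 false true true .pp 0 2 2
    ndN3q0 ndN1q2b pcN2 Cut.none Ext.none :=
  certN1 (fam := false) (s1 := true) (s2 := true) (a := 0) (b := 2) (c := 2) (cn := .pp) (n1 := ndN3q0) (n2 := ndN1q2b) (pc := pcN2) (cut := Cut.none) (xt := Ext.none) (P1 := 0) (W1 := 536870912) (P2 := 1239849684) (W2 := 370763052) (P3 := 402653184) (W3 := 67108864) (N0 := 3)
    rfl (fun _ => rfl) k0_pp_022_b

noncomputable def f_pp_023 : ℕ → ℕ → ℕ → ℕ → Bool := onCell 1073741824 536870912 1610612736 536870912 402653184 67108864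
    (rowN 3 2 false true true .up 0 2 3 (qsf 0 536870912 1610612736 536870912 2) ndN3q0 ndN1q3 pcN2 Cut.none Ext.none)

def k0_pp_023 : ∃ t, chk3 f_pp_023 t 1 1 1 = true :=
  ⟨(a (b (a (l 17853808) (l 17788600)) (a (l 2) (l 17154272))) (b (a (b (l 17236792) (l 17440720)) (b (a (l 16825448) (l 16598736)) (l 4))) (l 4))), by decide +kernel⟩

theorem c_pp_023 : CertN 0 536870912 1610612736 536870912 402653184 67108864 3 false true true .up 0 2 3
    ndN3q0 ndN1q3 pcN2 Cut.none Ext.none :=
  certN2 (fam := false) (s1 := true) (s2 := true) (a := 0) (b := 2) (c := 3) (cn := .up) (n1 := ndN3q0) (n2 := ndN1q3) (pc := pcN2) (cut := Cut.none) (xt := Ext.none) (P1 := 0) (W1 := 536870912) (P2 := 1610612736) (W2 := 536870912) (P3 := 402653184) (W3 := 67108864) (N0 := 3)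
    rfl (fun _ => rfl) k0_pp_023

noncomputable def f_pp_033 : ℕ → ℕ → ℕ → ℕ → Bool := onCell 0 536870912 1610612736 536870912 402653184 67108864
    (rowN 3 0 false true true .pnn 0 3 3 (qsf 0 536870912 1610612736 536870912 3) ndN3q0 ndN1q3 pcN3 Cut.none Ext.none)

def k0_pp_033 : ∃ t, chk3 f_pp_033 t 1 1 1 = true :=
  ⟨(a (b (b (a (b (a (l 4) (l 16537552)) (l 4)) (b (l 1) (a (l 4) (l 1)))) (l 4)) (l 4)) (b (a (b (l 1) (b (l 1) (l 4))) (l 1)) (l 4))), by decide +kernel⟩

theorem c_pp_033 : CertN 0 536870912 1610612736 536870912 402653184 67108864 3 false true true .pnn 0 3 3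
    ndN3q0 ndN1q3 pcN3 Cut.none Ext.none :=
  certN0 (fam := false) (s1 := true) (s2 := true) (a := 0) (b := 3) (c := 3) (cn := .pnn) (n1 := ndN3q0) (n2 := ndN1q3) (pc := pcN3) (cut := Cut.none) (xt := Ext.none) (P1 := 0) (W1 := 536870912) (P2 := 1610612736) (W2 := 536870912) (P3 := 402653184) (W3 := 67108864) (N0 := 3)
    rfl k0_pp_033

noncomputable def f_pp_101 : ℕ → ℕ → ℕ → ℕ → Bool := onCell 536870912 536870912 536870912 536870912 402653184 67108864
    (rowN 3 0 false true true .npn 1 0 1 (qsf 536870912 536870912 536870912 536870912 0) ndN3q1 ndN1q1 pcN0 Cut.none Ext.none)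

def k0_pp_101 : ∃ t, chk3 f_pp_101 t 1 1 1 = true :=
  ⟨(l 3), by decide +kernel⟩

theorem c_pp_101 : CertN 536870912 536870912 536870912 536870912 402653184 67108864 3 false true true .npn 1 0 1
    ndN3q1 ndN1q1 pcN0 Cut.none Ext.none :=
  certN0 (fam := false) (s1 := true) (s2 := true) (a := 1) (b := 0) (c := 1) (cn := .npn) (n1 := ndN3q1) (n2 := ndN1q1) (pc := pcN0) (cut := Cut.none) (xt := Ext.none) (P1 := 536870912) (W1 := 536870912) (P2 := 536870912) (W2 := 536870912) (P3 := 402653184) (W3 := 67108864) (N0 := 3)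
    rfl k0_pp_101

noncomputable def cut_pp_102_a : Cut := Cut.of [[⟨0, 1, 0, 67108864⟩, ⟨1, 0, 0, 67108864⟩, ⟨2, 1, 0, 67108864⟩]]

noncomputable def f_pp_102_a : ℕ → ℕ → ℕ → ℕ → Bool := onCell 536870912 536870912 0 536870912 402653184 67108864
    (rowN 3 0 false true true .npp 1 0 2 (qsf 536870912 536870912 0 536870912 0) ndN3q1 ndN1q2a pcN0 cut_pp_102_a Ext.none)

def k0_pp_102_a : ∃ t, chk3 f_pp_102_a t 1 1 1 = true :=
  ⟨(a (b (a (l 16748904) (b (l 16579448) (l 16421128))) (a (b (b (l 16685688) (l 16621080)) (b (a (l 16621832) (l 16421976)) (a (l 16529512) (l 16371904)))) (b (a (l 16342152) (l 16455440)) (b (a (l 16357432) (l 16392704)) (a (l 16454152) (l 16559520)))))) (b (a (b (l 16545696) (l 16623256)) (a (b (l 16510416) (l 16441888)) (b (l 16480032) (l 16548312)))) (a (b (a (b (l 16373152) (l 16388888)) (b (l 16408096) (l 16451008))) (b (a (l 16432032) (l 16502600)) (a (b (l 16469568) (l 16543208)) (b (l 16551264) (a (l 16552824) (l 16609056)))))) (b (a (b (l 16438128)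 (a (l 16460688) (l 16480392))) (b (l 16527720) (a (l 16502528) (l 16523024)))) (b (a (a (l 16521368) (b (l 16528496) (l 16565400))) (a (b (l 16553040) (l 16656952)) (b (l 16578288) (a (l 16656680) (l 16691600))))) (a (a (b (l 16578368) (l 16686744)) (b (l 16608920) (b (l 16644952) (l 16714272)))) (b (a (b (l 16669872) (l 16663264)) (a (b (l 16650896) (l 6)) (l 6))) (a (b (a (l 16670640) (l 16687600)) (a (l 16740480) (l 6))) (l 6))))))))), by decide +kernel⟩

theorem c_pp_102_a : CertN 536870912 536870912 0 536870912 402653184 67108864 3 false true true .npp 1 0 2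
    ndN3q1 ndN1q2a pcN0 cut_pp_102_a Ext.none :=
  certN0 (fam := false) (s1 := true) (s2 := true) (a := 1) (b := 0) (c := 2) (cn := .npp) (n1 := ndN3q1) (n2 := ndN1q2a) (pc := pcN0) (cut := cut_pp_102_a) (xt := Ext.none) (P1 := 536870912) (W1 := 536870912) (P2 := 0) (W2 := 536870912) (P3 := 402653184) (W3 := 67108864) (N0 := 3)
    rfl k0_pp_102_a

noncomputable def cut_pp_102_b : Cut := Cut.of [[⟨0, 1, 0, 67108864⟩, ⟨1, 0, 0, 67108864⟩, ⟨2, 1, 0, 67108864⟩]]

noncomputable def f_pp_102_b : ℕ → ℕ → ℕ → ℕ → Bool := onCell 536870912 536870912 1239849684 370763052 402653184 67108864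
    (rowN 3 0 false true true .npp 1 0 2 (qsf 536870912 536870912 1239849684 370763052 0) ndN3q1 ndN1q2b pcN0 cut_pp_102_b Ext.none)

def k0_pp_102_b : ∃ t, chk3 f_pp_102_b t 1 1 1 = true :=
  ⟨(a (b (a (l 2) (l 16796512)) (l 2)) (b (a (b (l 16566040) (l 16561752)) (b (a (l 16497896) (l 16444240)) (l 16364520))) (a (l 17061744) (b (l 16402448) (l 16913376))))), by decide +kernel⟩

theorem c_pp_102_b : CertN 536870912 536870912 1239849684 370763052 402653184 67108864 3 false true true .npp 1 0 2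
    ndN3q1 ndN1q2b pcN0 cut_pp_102_b Ext.none :=
  certN0 (fam := false) (s1 := true) (s2 := true) (a := 1) (b := 0) (c := 2) (cn := .npp) (n1 := ndN3q1) (n2 := ndN1q2b) (pc := pcN0) (cut := cut_pp_102_b) (xt := Ext.none) (P1 := 536870912) (W1 := 536870912) (P2 := 1239849684) (W2 := 370763052) (P3 := 402653184) (W3 := 67108864) (N0 := 3)
    rfl k0_pp_102_b

noncomputable def f_pp_112_a : ℕ → ℕ → ℕ → ℕ → Bool := onCell 536870912 536870912 0 536870912 402653184 67108864
    (rowN 3 2 false true true .dn 1 1 2 (qsf 536870912 536870912 0 536870912 1) ndN3q1 ndN1q2a pcN1 Cut.none Ext.none)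

def k0_pp_112_a : ∃ t, chk3 f_pp_112_a t 1 1 1 = true :=
  ⟨(a (a (a (b (b (l 16834328) (l 16615440)) (b (b (l 16648888) (l 16656992)) (l 16648344))) (b (l 16791720) (b (l 16783200) (l 16760088)))) (b (a (l 16915648) (l 1)) (b (l 1) (l 1)))) (l 1)), by decide +kernel⟩

theorem c_pp_112_a : CertN 536870912 536870912 0 536870912 402653184 67108864 3 false true true .dn 1 1 2
    ndN3q1 ndN1q2a pcN1 Cut.none Ext.none :=
  certN2 (fam := false) (s1 := true) (s2 := true) (a := 1) (b := 1) (c := 2) (cn := .dn) (n1 := ndN3q1) (n2 := ndN1q2a) (pc := pcN1) (cut := Cut.none) (xt := Ext.none) (P1 := 536870912) (W1 := 536870912) (P2 := 0) (W2 := 536870912) (P3 := 402653184) (W3 := 67108864) (N0 := 3)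
    rfl (fun _ => rfl) k0_pp_112_a

noncomputable def f_pp_112_b : ℕ → ℕ → ℕ → ℕ → Bool := onCell 536870912 536870912 1239849684 370763052 402653184 67108864
    (rowN 3 2 false true true .dn 1 1 2 (qsf 536870912 536870912 1239849684 370763052 1) ndN3q1 ndN1q2b pcN1 Cut.none Ext.none)

def k0_pp_112_b : ∃ t, chk3 f_pp_112_b t 1 1 1 = true :=
  ⟨(a (a (a (b (l 16965856) (l 17171024)) (b (l 17112608) (l 17346656))) (b (l 17292840) (l 17494296))) (b (a (l 17557640) (l 1)) (l 17863528))), by decide +kernel⟩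

theorem c_pp_112_b : CertN 536870912 536870912 1239849684 370763052 402653184 67108864 3 false true true .dn 1 1 2
    ndN3q1 ndN1q2b pcN1 Cut.none Ext.none :=
  certN2 (fam := false) (s1 := true) (s2 := true) (a := 1) (b := 1) (c := 2) (cn := .dn) (n1 := ndN3q1) (n2 := ndN1q2b) (pc := pcN1) (cut := Cut.none) (xt := Ext.none) (P1 := 536870912) (W1 := 536870912) (P2 := 1239849684) (W2 := 370763052) (P3 := 402653184) (W3 := 67108864) (N0 := 3)
    rfl (fun _ => rfl) k0_pp_112_b

noncomputable def f_pp_113 : ℕ → ℕ → ℕ → ℕ → Bool := onCell 536870912 536870912 536870912 536870912 402653184 67108864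
    (rowN 3 1 false true true .nn 1 1 3 (qsf 536870912 536870912 1610612736 536870912 1) ndN3q1 ndN1q3 pcN1 Cut.none Ext.none)

def k0_pp_113 : ∃ t, chk3 f_pp_113 t 1 1 1 = true :=
  ⟨(a (b (b (l 1) (l 416647051783)) (b (l 424163881159) (l 17916304))) (b (b (b (a (l 1) (l 17106624)) (l 245385135031)) (a (l 17494752) (l 17688296))) (b (a (l 17625056) (l 17505872)) (l 17621072)))), by decide +kernel⟩

theorem c_pp_113 : CertN 536870912 536870912 1610612736 536870912 402653184 67108864 3 false true true .nn 1 1 3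
    ndN3q1 ndN1q3 pcN1 Cut.none Ext.none :=
  certN1 (fam := false) (s1 := true) (s2 := true) (a := 1) (b := 1) (c := 3) (cn := .nn) (n1 := ndN3q1) (n2 := ndN1q3) (pc := pcN1) (cut := Cut.none) (xt := Ext.none) (P1 := 536870912) (W1 := 536870912) (P2 := 1610612736) (W2 := 536870912) (P3 := 402653184) (W3 := 67108864) (N0 := 3)
    rfl (fun _ => rfl) k0_pp_113

noncomputable def f_pp_123 : ℕ → ℕ → ℕ → ℕ → Bool := onCell 1073741824 536870912 1610612736 536870912 402653184 67108864
    (rowN 3 2 false true true .npn 1 2 3 (qsf 536870912 536870912 1610612736 536870912 2) ndN3q1 ndN1q3 pcN2 Cut.none Ext.none)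

def k0_pp_123 : ∃ t, chk3 f_pp_123 t 1 1 1 = true :=
  ⟨(a (b (a (l 17907848) (l 18013000)) (a (l 17189944) (l 17171600))) (b (a (l 643743878423) (l 1)) (l 4))), by decide +kernel⟩

theorem c_pp_123 : CertN 536870912 536870912 1610612736 536870912 402653184 67108864 3 false true true .npn 1 2 3
    ndN3q1 ndN1q3 pcN2 Cut.none Ext.none :=
  certN2 (fam := false) (s1 := true) (s2 := true) (a := 1) (b := 2) (c := 3) (cn := .npn) (n1 := ndN3q1) (n2 := ndN1q3) (pc := pcN2) (cut := Cut.none) (xt := Ext.none) (P1 := 536870912) (W1 := 536870912) (P2 := 1610612736) (W2 := 536870912) (P3 := 402653184) (W3 := 67108864) (N0 := 3)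
    rfl (fun _ => rfl) k0_pp_123

noncomputable def f_pp_133 : ℕ → ℕ → ℕ → ℕ → Bool := onCell 1610612736 536870912 1610612736 536870912 402653184 67108864
    (rowN 3 2 false true true .dn 1 3 3 (qsf 536870912 536870912 1610612736 536870912 3) ndN3q1 ndN1q3 pcN3 Cut.none Ext.none)

def k0_pp_133 : ∃ t, chk3 f_pp_133 t 1 1 1 = true :=
  ⟨(a (b (l 1) (l 4)) (l 1)), by decide +kernel⟩

theorem c_pp_133 : CertN 536870912 536870912 1610612736 536870912 402653184 67108864 3 false true true .dn 1 3 3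
    ndN3q1 ndN1q3 pcN3 Cut.none Ext.none :=
  certN2 (fam := false) (s1 := true) (s2 := true) (a := 1) (b := 3) (c := 3) (cn := .dn) (n1 := ndN3q1) (n2 := ndN1q3) (pc := pcN3) (cut := Cut.none) (xt := Ext.none) (P1 := 536870912) (W1 := 536870912) (P2 := 1610612736) (W2 := 536870912) (P3 := 402653184) (W3 := 67108864) (N0 := 3)
    rfl (fun _ => rfl) k0_pp_133

noncomputable def f_pp_202_a : ℕ → ℕ → ℕ → ℕ → Bool := onCell 1073741824 536870912 0 536870912 402653184 67108864
    (rowN 3 0 false true true .pp 2 0 2 (qsf 1073741824 536870912 0 536870912 0) ndN3q2 ndN1q2a pcN0 Cut.none Ext.none)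

def k0_pp_202_a : ∃ t, chk3 f_pp_202_a t 1 1 1 = true :=
  ⟨(l 3), by decide +kernel⟩

theorem c_pp_202_a : CertN 1073741824 536870912 0 536870912 402653184 67108864 3 false true true .pp 2 0 2
    ndN3q2 ndN1q2a pcN0 Cut.none Ext.none :=
  certN0 (fam := false) (s1 := true) (s2 := true) (a := 2) (b := 0) (c := 2) (cn := .pp) (n1 := ndN3q2) (n2 := ndN1q2a) (pc := pcN0) (cut := Cut.none) (xt := Ext.none) (P1 := 1073741824) (W1 := 536870912) (P2 := 0) (W2 := 536870912) (P3 := 402653184) (W3 := 67108864) (N0 := 3)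
    rfl k0_pp_202_a

noncomputable def f_pp_202_b : ℕ → ℕ → ℕ → ℕ → Bool := onCell 1073741824 536870912 1239849684 370763052 402653184 67108864
    (rowN 3 0 false true true .pp 2 0 2 (qsf 1073741824 536870912 1239849684 370763052 0) ndN3q2 ndN1q2b pcN0 Cut.none Ext.none)

def k0_pp_202_b : ∃ t, chk3 f_pp_202_b t 1 1 1 = true :=
  ⟨(l 3), by decide +kernel⟩

theorem c_pp_202_b : CertN 1073741824 536870912 1239849684 370763052 402653184 67108864 3 false true true .pp 2 0 2
    ndN3q2 ndN1q2b pcN0 Cut.none Ext.none :=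
  certN0 (fam := false) (s1 := true) (s2 := true) (a := 2) (b := 0) (c := 2) (cn := .pp) (n1 := ndN3q2) (n2 := ndN1q2b) (pc := pcN0) (cut := Cut.none) (xt := Ext.none) (P1 := 1073741824) (W1 := 536870912) (P2 := 1239849684) (W2 := 370763052) (P3 := 402653184) (W3 := 67108864) (N0 := 3)
    rfl k0_pp_202_b

noncomputable def f_pp_203 : ℕ → ℕ → ℕ → ℕ → Bool := onCell 1073741824 536870912 0 536870912 402653184 67108864
    (rowN 3 1 false true true .up 2 0 3 (qsf 1073741824 536870912 1610612736 536870912 0) ndN3q2 ndN1q3 pcN0 Cut.none Ext.none)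

def k0_pp_203 : ∃ t, chk3 f_pp_203 t 1 1 1 = true :=
  ⟨(b (l 3) (l 3)), by decide +kernel⟩

theorem c_pp_203 : CertN 1073741824 536870912 1610612736 536870912 402653184 67108864 3 false true true .up 2 0 3
    ndN3q2 ndN1q3 pcN0 Cut.none Ext.none :=
  certN1 (fam := false) (s1 := true) (s2 := true) (a := 2) (b := 0) (c := 3) (cn := .up) (n1 := ndN3q2) (n2 := ndN1q3) (pc := pcN0) (cut := Cut.none) (xt := Ext.none) (P1 := 1073741824) (W1 := 536870912) (P2 := 1610612736) (W2 := 536870912) (P3 := 402653184) (W3 := 67108864) (N0 := 3)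
    rfl (fun _ => rfl) k0_pp_203

noncomputable def f_pp_213 : ℕ → ℕ → ℕ → ℕ → Bool := onCell 536870912 536870912 1610612736 536870912 402653184 67108864
    (rowN 3 2 false true true .pnn 2 1 3 (qsf 1073741824 536870912 1610612736 536870912 1) ndN3q2 ndN1q3 pcN1 Cut.none Ext.none)

def k0_pp_213 : ∃ t, chk3 f_pp_213 t 1 1 1 = true :=
  ⟨(a (a (b (l 3) (b (l 3) (l 197200432951))) (b (b (a (b (l 1) (l 383360226711)) (l 1)) (a (b (l 17134584) (l 17127856)) (l 17216288))) (b (a (l 17093760) (l 17120088)) (l 17236000)))) (a (b (b (l 1) (a (l 17336528) (l 1))) (b (a (l 17157568) (l 17200936)) (l 17008064))) (b (l 1) (a (l 497176372471) (l 462817459063))))), by decide +kernel⟩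

theorem c_pp_213 : CertN 1073741824 536870912 1610612736 536870912 402653184 67108864 3 false true true .pnn 2 1 3
    ndN3q2 ndN1q3 pcN1 Cut.none Ext.none :=
  certN2 (fam := false) (s1 := true) (s2 := true) (a := 2) (b := 1) (c := 3) (cn := .pnn) (n1 := ndN3q2) (n2 := ndN1q3) (pc := pcN1) (cut := Cut.none) (xt := Ext.none) (P1 := 1073741824) (W1 := 536870912) (P2 := 1610612736) (W2 := 536870912) (P3 := 402653184) (W3 := 67108864) (N0 := 3)
    rfl (fun _ => rfl) k0_pp_213

noncomputable def f_pp_303 : ℕ → ℕ → ℕ → ℕ → Bool := onCell 0 1230186008 1610612736 536870912 402653184 67108864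
    (rowN 3 0 false true true .npn 3 0 3 (qsf 0 1230186008 1610612736 536870912 0) ndN3q3 ndN1q3 pcN0 Cut.none Ext.none)

def k0_pp_303 : ∃ t, chk3 f_pp_303 t 1 1 1 = true :=
  ⟨(a (l 3) (l 3)), by decide +kernel⟩

theorem c_pp_303 : CertN 0 1230186008 1610612736 536870912 402653184 67108864 3 false true true .npn 3 0 3
    ndN3q3 ndN1q3 pcN0 Cut.none Ext.none :=
  certN0 (fam := false) (s1 := true) (s2 := true) (a := 3) (b := 0) (c := 3) (cn := .npn) (n1 := ndN3q3) (n2 := ndN1q3) (pc := pcN0) (cut := Cut.none) (xt := Ext.none) (P1 := 0) (W1 := 1230186008) (P2 := 1610612736) (W2 := 536870912) (P3 := 402653184) (W3 := 67108864) (N0 := 3)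
    rfl k0_pp_303

noncomputable def f_pp_313 : ℕ → ℕ → ℕ → ℕ → Bool := onCell 0 1230186008 1610612736 536870912 402653184 67108864
    (rowN 3 0 false true true .dn 3 1 3 (qsf 0 1230186008 1610612736 536870912 1) ndN3q3 ndN1q3 pcN1 Cut.none Ext.none)

def k0_pp_313 : ∃ t, chk3 f_pp_313 t 1 1 1 = true :=
  ⟨(a (l 1) (l 3)), by decide +kernel⟩

theorem c_pp_313 : CertN 0 1230186008 1610612736 536870912 402653184 67108864 3 false true true .dn 3 1 3
    ndN3q3 ndN1q3 pcN1 Cut.none Ext.none :=
  certN0 (fam := false) (s1 := true) (s2 := true) (a := 3) (b := 1) (c := 3) (cn := .dn) (n1 := ndN3q3) (n2 := ndN1q3) (pc := pcN1) (cut := Cut.none) (xt := Ext.none) (P1 := 0) (W1 := 1230186008) (P2 := 1610612736) (W2 := 536870912) (P3 := 402653184) (W3 := 67108864) (N0 := 3)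
    rfl k0_pp_313

noncomputable def f_pm_001 : ℕ → ℕ → ℕ → ℕ → Bool := onCell 0 536870912 536870912 536870912 402653184 67108864
    (rowN 3 0 false true false .up 0 0 1 (qsf 0 536870912 536870912 536870912 0) ndN3q0 ndN1q1 pcN0 Cut.none Ext.none)

def k0_pm_001 : ∃ t, chk3 f_pm_001 t 1 1 1 = true :=
  ⟨(l 4), by decide +kernel⟩

theorem c_pm_001 : CertN 0 536870912 536870912 536870912 402653184 67108864 3 false true false .up 0 0 1
    ndN3q0 ndN1q1 pcN0 Cut.none Ext.none :=
  certN0 (fam := false) (s1 := true) (s2 := false) (a := 0) (b := 0) (c := 1) (cn := .up) (n1 := ndN3q0) (n2 := ndN1q1) (pc := pcN0) (cut := Cut.none) (xt := Ext.none) (P1 := 0) (W1 := 536870912) (P2 := 536870912) (W2 := 536870912) (P3 := 402653184) (W3 := 67108864) (N0 := 3)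
    rfl k0_pm_001

noncomputable def f_pm_011 : ℕ → ℕ → ℕ → ℕ → Bool := onCell 0 536870912 536870912 536870912 402653184 67108864
    (rowN 3 0 false true false .pnn 0 1 1 (qsf 0 536870912 536870912 536870912 1) ndN3q0 ndN1q1 pcN1 Cut.none Ext.none)

def k0_pm_011 : ∃ t, chk3 f_pm_011 t 1 1 1 = true :=
  ⟨(l 4), by decide +kernel⟩

theorem c_pm_011 : CertN 0 536870912 536870912 536870912 402653184 67108864 3 false true false .pnn 0 1 1
    ndN3q0 ndN1q1 pcN1 Cut.none Ext.none :=
  certN0 (fam := false) (s1 := true) (s2 := false) (a := 0) (b := 1) (c := 1) (cn := .pnn) (n1 := ndN3q0) (n2 := ndN1q1) (pc := pcN1) (cut := Cut.none) (xt := Ext.none) (P1 := 0) (W1 := 536870912) (P2 := 536870912) (W2 := 536870912) (P3 := 402653184) (W3 := 67108864) (N0 := 3)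
    rfl k0_pm_011

noncomputable def f_pm_012_a : ℕ → ℕ → ℕ → ℕ → Bool := onCell 0 536870912 0 536870912 402653184 67108864
    (rowN 3 0 false true false .pnp 0 1 2 (qsf 0 536870912 0 536870912 1) ndN3q0 ndN1q2a pcN1 Cut.none Ext.none)

def k0_pm_012_a : ∃ t, chk3 f_pm_012_a t 1 1 1 = true :=
  ⟨(l 4), by decide +kernel⟩

theorem c_pm_012_a : CertN 0 536870912 0 536870912 402653184 67108864 3 false true false .pnp 0 1 2
    ndN3q0 ndN1q2a pcN1 Cut.none Ext.none :=
  certN0 (fam := false) (s1 := true) (s2 := false) (a := 0) (b := 1) (c := 2) (cn := .pnp) (n1 := ndN3q0) (n2 := ndN1q2a) (pc := pcN1) (cut := Cut.none) (xt := Ext.none) (P1 := 0) (W1 := 536870912) (P2 := 0) (W2 := 536870912) (P3 := 402653184) (W3 := 67108864) (N0 := 3)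
    rfl k0_pm_012_a

noncomputable def f_pm_012_b : ℕ → ℕ → ℕ → ℕ → Bool := onCell 0 536870912 1239849684 370763052 402653184 67108864
    (rowN 3 0 false true false .pnp 0 1 2 (qsf 0 536870912 1239849684 370763052 1) ndN3q0 ndN1q2b pcN1 Cut.none Ext.none)

def k0_pm_012_b : ∃ t, chk3 f_pm_012_b t 1 1 1 = true :=
  ⟨(l 4), by decide +kernel⟩

theorem c_pm_012_b : CertN 0 536870912 1239849684 370763052 402653184 67108864 3 false true false .pnp 0 1 2
    ndN3q0 ndN1q2b pcN1 Cut.none Ext.none :=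
  certN0 (fam := false) (s1 := true) (s2 := false) (a := 0) (b := 1) (c := 2) (cn := .pnp) (n1 := ndN3q0) (n2 := ndN1q2b) (pc := pcN1) (cut := Cut.none) (xt := Ext.none) (P1 := 0) (W1 := 536870912) (P2 := 1239849684) (W2 := 370763052) (P3 := 402653184) (W3 := 67108864) (N0 := 3)
    rfl k0_pm_012_b

noncomputable def f_pm_022_a : ℕ → ℕ → ℕ → ℕ → Bool := onCell 0 536870912 0 536870912 402653184 67108864
    (rowN 3 0 false true false .pp 0 2 2 (qsf 0 536870912 0 536870912 2) ndN3q0 ndN1q2a pcN2 Cut.none Ext.none)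

def k0_pm_022_a : ∃ t, chk3 f_pm_022_a t 1 1 1 = true :=
  ⟨(l 4), by decide +kernel⟩

theorem c_pm_022_a : CertN 0 536870912 0 536870912 402653184 67108864 3 false true false .pp 0 2 2
    ndN3q0 ndN1q2a pcN2 Cut.none Ext.none :=
  certN0 (fam := false) (s1 := true) (s2 := false) (a := 0) (b := 2) (c := 2) (cn := .pp) (n1 := ndN3q0) (n2 := ndN1q2a) (pc := pcN2) (cut := Cut.none) (xt := Ext.none) (P1 := 0) (W1 := 536870912) (P2 := 0) (W2 := 536870912) (P3 := 402653184) (W3 := 67108864) (N0 := 3)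
    rfl k0_pm_022_a

noncomputable def f_pm_022_b : ℕ → ℕ → ℕ → ℕ → Bool := onCell 0 536870912 1239849684 370763052 402653184 67108864
    (rowN 3 0 false true false .pp 0 2 2 (qsf 0 536870912 1239849684 370763052 2) ndN3q0 ndN1q2b pcN2 Cut.none Ext.none)

def k0_pm_022_b : ∃ t, chk3 f_pm_022_b t 1 1 1 = true :=
  ⟨(l 4), by decide +kernel⟩

theorem c_pm_022_b : CertN 0 536870912 1239849684 370763052 402653184 67108864 3 false true false .pp 0 2 2
    ndN3q0 ndN1q2b pcN2 Cut.none Ext.none :=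
  certN0 (fam := false) (s1 := true) (s2 := false) (a := 0) (b := 2) (c := 2) (cn := .pp) (n1 := ndN3q0) (n2 := ndN1q2b) (pc := pcN2) (cut := Cut.none) (xt := Ext.none) (P1 := 0) (W1 := 536870912) (P2 := 1239849684) (W2 := 370763052) (P3 := 402653184) (W3 := 67108864) (N0 := 3)
    rfl k0_pm_022_b

noncomputable def f_pm_023 : ℕ → ℕ → ℕ → ℕ → Bool := onCell 0 536870912 1610612736 536870912 402653184 67108864
    (rowN 3 0 false true false .up 0 2 3 (qsf 0 536870912 1610612736 536870912 2) ndN3q0 ndN1q3 pcN2 Cut.none Ext.none)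

def k0_pm_023 : ∃ t, chk3 f_pm_023 t 1 1 1 = true :=
  ⟨(l 4), by decide +kernel⟩

theorem c_pm_023 : CertN 0 536870912 1610612736 536870912 402653184 67108864 3 false true false .up 0 2 3
    ndN3q0 ndN1q3 pcN2 Cut.none Ext.none :=
  certN0 (fam := false) (s1 := true) (s2 := false) (a := 0) (b := 2) (c := 3) (cn := .up) (n1 := ndN3q0) (n2 := ndN1q3) (pc := pcN2) (cut := Cut.none) (xt := Ext.none) (P1 := 0) (W1 := 536870912) (P2 := 1610612736) (W2 := 536870912) (P3 := 402653184) (W3 := 67108864) (N0 := 3)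
    rfl k0_pm_023

noncomputable def f_pm_033 : ℕ → ℕ → ℕ → ℕ → Bool := onCell 0 536870912 1610612736 536870912 402653184 67108864
    (rowN 3 0 false true false .pnn 0 3 3 (qsf 0 536870912 1610612736 536870912 3) ndN3q0 ndN1q3 pcN3 Cut.none Ext.none)

def k0_pm_033 : ∃ t, chk3 f_pm_033 t 1 1 1 = true :=
  ⟨(l 4), by decide +kernel⟩

theorem c_pm_033 : CertN 0 536870912 1610612736 536870912 402653184 67108864 3 false true false .pnn 0 3 3
    ndN3q0 ndN1q3 pcN3 Cut.none Ext.none :=
  certN0 (fam := false) (s1 := true) (s2 := false) (a := 0) (b := 3) (c := 3) (cn := .pnn) (n1 := ndN3q0) (n2 := ndN1q3) (pc := pcN3) (cut := Cut.none) (xt := Ext.none) (P1 := 0) (W1 := 536870912) (P2 := 1610612736) (W2 := 536870912) (P3 := 402653184) (W3 := 67108864) (N0 := 3)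
    rfl k0_pm_033

noncomputable def f_pm_101 : ℕ → ℕ → ℕ → ℕ → Bool := onCell 536870912 536870912 536870912 536870912 402653184 67108864
    (rowN 3 0 false true false .npn 1 0 1 (qsf 536870912 536870912 536870912 536870912 0) ndN3q1 ndN1q1 pcN0 Cut.none Ext.none)

def k0_pm_101 : ∃ t, chk3 f_pm_101 t 1 1 1 = true :=
  ⟨(l 4), by decide +kernel⟩

theorem c_pm_101 : CertN 536870912 536870912 536870912 536870912 402653184 67108864 3 false true false .npn 1 0 1
    ndN3q1 ndN1q1 pcN0 Cut.none Ext.none :=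
  certN0 (fam := false) (s1 := true) (s2 := false) (a := 1) (b := 0) (c := 1) (cn := .npn) (n1 := ndN3q1) (n2 := ndN1q1) (pc := pcN0) (cut := Cut.none) (xt := Ext.none) (P1 := 536870912) (W1 := 536870912) (P2 := 536870912) (W2 := 536870912) (P3 := 402653184) (W3 := 67108864) (N0 := 3)
    rfl k0_pm_101

noncomputable def f_pm_102_a : ℕ → ℕ → ℕ → ℕ → Bool := onCell 536870912 536870912 0 536870912 402653184 67108864
    (rowN 3 0 false true false .npp 1 0 2 (qsf 536870912 536870912 0 536870912 0) ndN3q1 ndN1q2a pcN0 Cut.none Ext.none)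

def k0_pm_102_a : ∃ t, chk3 f_pm_102_a t 1 1 1 = true :=
  ⟨(a (l 4) (b (l 4) (l 4))), by decide +kernel⟩

theorem c_pm_102_a : CertN 536870912 536870912 0 536870912 402653184 67108864 3 false true false .npp 1 0 2
    ndN3q1 ndN1q2a pcN0 Cut.none Ext.none :=
  certN0 (fam := false) (s1 := true) (s2 := false) (a := 1) (b := 0) (c := 2) (cn := .npp) (n1 := ndN3q1) (n2 := ndN1q2a) (pc := pcN0) (cut := Cut.none) (xt := Ext.none) (P1 := 536870912) (W1 := 536870912) (P2 := 0) (W2 := 536870912) (P3 := 402653184) (W3 := 67108864) (N0 := 3)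
    rfl k0_pm_102_a

noncomputable def f_pm_102_b : ℕ → ℕ → ℕ → ℕ → Bool := onCell 536870912 536870912 1239849684 370763052 402653184 67108864
    (rowN 3 0 false true false .npp 1 0 2 (qsf 536870912 536870912 1239849684 370763052 0) ndN3q1 ndN1q2b pcN0 Cut.none Ext.none)

def k0_pm_102_b : ∃ t, chk3 f_pm_102_b t 1 1 1 = true :=
  ⟨(a (l 4) (b (l 4) (l 4))), by decide +kernel⟩

theorem c_pm_102_b : CertN 536870912 536870912 1239849684 370763052 402653184 67108864 3 false true false .npp 1 0 2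
    ndN3q1 ndN1q2b pcN0 Cut.none Ext.none :=
  certN0 (fam := false) (s1 := true) (s2 := false) (a := 1) (b := 0) (c := 2) (cn := .npp) (n1 := ndN3q1) (n2 := ndN1q2b) (pc := pcN0) (cut := Cut.none) (xt := Ext.none) (P1 := 536870912) (W1 := 536870912) (P2 := 1239849684) (W2 := 370763052) (P3 := 402653184) (W3 := 67108864) (N0 := 3)
    rfl k0_pm_102_b

noncomputable def f_pm_112_a : ℕ → ℕ → ℕ → ℕ → Bool := onCell 536870912 536870912 0 536870912 402653184 67108864
    (rowN 3 2 false true false .dn 1 1 2 (qsf 536870912 536870912 0 536870912 1) ndN3q1 ndN1q2a pcN1 Cut.none Ext.none)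

def k0_pm_112_a : ∃ t, chk3 f_pm_112_a t 1 1 1 = true :=
  ⟨(l 4), by decide +kernel⟩

theorem c_pm_112_a : CertN 536870912 536870912 0 536870912 402653184 67108864 3 false true false .dn 1 1 2
    ndN3q1 ndN1q2a pcN1 Cut.none Ext.none :=
  certN2 (fam := false) (s1 := true) (s2 := false) (a := 1) (b := 1) (c := 2) (cn := .dn) (n1 := ndN3q1) (n2 := ndN1q2a) (pc := pcN1) (cut := Cut.none) (xt := Ext.none) (P1 := 536870912) (W1 := 536870912) (P2 := 0) (W2 := 536870912) (P3 := 402653184) (W3 := 67108864) (N0 := 3)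
    rfl (fun _ => rfl) k0_pm_112_a

noncomputable def f_pm_112_b : ℕ → ℕ → ℕ → ℕ → Bool := onCell 536870912 536870912 1239849684 370763052 402653184 67108864
    (rowN 3 2 false true false .dn 1 1 2 (qsf 536870912 536870912 1239849684 370763052 1) ndN3q1 ndN1q2b pcN1 Cut.none Ext.none)

def k0_pm_112_b : ∃ t, chk3 f_pm_112_b t 1 1 1 = true :=
  ⟨(a (l 4) (l 4)), by decide +kernel⟩

theorem c_pm_112_b : CertN 536870912 536870912 1239849684 370763052 402653184 67108864 3 false true false .dn 1 1 2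
    ndN3q1 ndN1q2b pcN1 Cut.none Ext.none :=
  certN2 (fam := false) (s1 := true) (s2 := false) (a := 1) (b := 1) (c := 2) (cn := .dn) (n1 := ndN3q1) (n2 := ndN1q2b) (pc := pcN1) (cut := Cut.none) (xt := Ext.none) (P1 := 536870912) (W1 := 536870912) (P2 := 1239849684) (W2 := 370763052) (P3 := 402653184) (W3 := 67108864) (N0 := 3)
    rfl (fun _ => rfl) k0_pm_112_b

noncomputable def f_pm_113 : ℕ → ℕ → ℕ → ℕ → Bool := onCell 536870912 536870912 1610612736 536870912 402653184 67108864
    (rowN 3 0 false true false .nn 1 1 3 (qsf 536870912 536870912 1610612736 536870912 1) ndN3q1 ndN1q3 pcN1 Cut.none Ext.none)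

def k0_pm_113 : ∃ t, chk3 f_pm_113 t 1 1 1 = true :=
  ⟨(a (l 4) (b (l 4) (b (l 4) (a (l 4) (l 16998208))))), by decide +kernel⟩

theorem c_pm_113 : CertN 536870912 536870912 1610612736 536870912 402653184 67108864 3 false true false .nn 1 1 3
    ndN3q1 ndN1q3 pcN1 Cut.none Ext.none :=
  certN0 (fam := false) (s1 := true) (s2 := false) (a := 1) (b := 1) (c := 3) (cn := .nn) (n1 := ndN3q1) (n2 := ndN1q3) (pc := pcN1) (cut := Cut.none) (xt := Ext.none) (P1 := 536870912) (W1 := 536870912) (P2 := 1610612736) (W2 := 536870912) (P3 := 402653184) (W3 := 67108864) (N0 := 3)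
    rfl k0_pm_113

noncomputable def f_pm_123 : ℕ → ℕ → ℕ → ℕ → Bool := onCell 1073741824 536870912 1610612736 536870912 402653184 67108864
    (rowN 3 2 false true false .npn 1 2 3 (qsf 536870912 536870912 1610612736 536870912 2) ndN3q1 ndN1q3 pcN2 Cut.none Ext.none)

def k0_pm_123 : ∃ t, chk3 f_pm_123 t 1 1 1 = true :=
  ⟨(a (b (l 4) (a (l 17190608) (l 4))) (l 4)), by decide +kernel⟩

theorem c_pm_123 : CertN 536870912 536870912 1610612736 536870912 402653184 67108864 3 false true false .npn 1 2 3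
    ndN3q1 ndN1q3 pcN2 Cut.none Ext.none :=
  certN2 (fam := false) (s1 := true) (s2 := false) (a := 1) (b := 2) (c := 3) (cn := .npn) (n1 := ndN3q1) (n2 := ndN1q3) (pc := pcN2) (cut := Cut.none) (xt := Ext.none) (P1 := 536870912) (W1 := 536870912) (P2 := 1610612736) (W2 := 536870912) (P3 := 402653184) (W3 := 67108864) (N0 := 3)
    rfl (fun _ => rfl) k0_pm_123

noncomputable def f_pm_133 : ℕ → ℕ → ℕ → ℕ → Bool := onCell 536870912 536870912 1610612736 536870912 402653184 67108864
    (rowN 3 0 false true false .dn 1 3 3 (qsf 536870912 536870912 1610612736 536870912 3) ndN3q1 ndN1q3 pcN3 Cut.none Ext.none)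

def k0_pm_133 : ∃ t, chk3 f_pm_133 t 1 1 1 = true :=
  ⟨(a (l 4) (l 1)), by decide +kernel⟩

theorem c_pm_133 : CertN 536870912 536870912 1610612736 536870912 402653184 67108864 3 false true false .dn 1 3 3
    ndN3q1 ndN1q3 pcN3 Cut.none Ext.none :=
  certN0 (fam := false) (s1 := true) (s2 := false) (a := 1) (b := 3) (c := 3) (cn := .dn) (n1 := ndN3q1) (n2 := ndN1q3) (pc := pcN3) (cut := Cut.none) (xt := Ext.none) (P1 := 536870912) (W1 := 536870912) (P2 := 1610612736) (W2 := 536870912) (P3 := 402653184) (W3 := 67108864) (N0 := 3)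
    rfl k0_pm_133

noncomputable def f_pm_202_a : ℕ → ℕ → ℕ → ℕ → Bool := onCell 0 536870912 0 536870912 402653184 67108864
    (rowN 3 2 false true false .pp 2 0 2 (qsf 1073741824 536870912 0 536870912 0) ndN3q2 ndN1q2a pcN0 Cut.none Ext.none)

def k0_pm_202_a : ∃ t, chk3 f_pm_202_a t 1 1 1 = true :=
  ⟨(a (b (a (a (b (l 16601016) (l 16671752)) (b (l 16697728) (l 16801152))) (a (b (l 16774608) (l 16918624)) (l 1))) (a (b (a (b (l 16744848) (a (l 16799528) (l 16850112))) (b (l 16883432) (l 277059796855))) (a (b (l 16948496) (l 273838799671)) (b (l 330210217511) (l 1)))) (b (l 1) (l 1)))) (l 1)), by decide +kernel⟩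

theorem c_pm_202_a : CertN 1073741824 536870912 0 536870912 402653184 67108864 3 false true false .pp 2 0 2
    ndN3q2 ndN1q2a pcN0 Cut.none Ext.none :=
  certN2 (fam := false) (s1 := true) (s2 := false) (a := 2) (b := 0) (c := 2) (cn := .pp) (n1 := ndN3q2) (n2 := ndN1q2a) (pc := pcN0) (cut := Cut.none) (xt := Ext.none) (P1 := 1073741824) (W1 := 536870912) (P2 := 0) (W2 := 536870912) (P3 := 402653184) (W3 := 67108864) (N0 := 3)
    rfl (fun _ => rfl) k0_pm_202_a

noncomputable def f_pm_202_b : ℕ → ℕ → ℕ → ℕ → Bool := onCell 0 536870912 1239849684 370763052 402653184 67108864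
    (rowN 3 2 false true false .pp 2 0 2 (qsf 1073741824 536870912 1239849684 370763052 0) ndN3q2 ndN1q2b pcN0 Cut.none Ext.none)

def k0_pm_202_b : ∃ t, chk3 f_pm_202_b t 1 1 1 = true :=
  ⟨(a (a (b (a (b (l 16671384) (l 16556760)) (b (l 16583576) (l 16449976))) (a (b (l 16205736) (a (l 16173448) (l 16079528))) (b (l 16304736) (b (l 16189640) (l 16255864))))) (b (b (a (l 16660744) (l 190086154759)) (l 16579488)) (b (l 16442984) (a (l 16231000) (l 16323456))))) (a (b (b (l 1) (l 16763208)) (b (l 16636120) (l 16540952))) (b (l 1) (l 16863816)))), by decide +kernel⟩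

theorem c_pm_202_b : CertN 1073741824 536870912 1239849684 370763052 402653184 67108864 3 false true false .pp 2 0 2
    ndN3q2 ndN1q2b pcN0 Cut.none Ext.none :=
  certN2 (fam := false) (s1 := true) (s2 := false) (a := 2) (b := 0) (c := 2) (cn := .pp) (n1 := ndN3q2) (n2 := ndN1q2b) (pc := pcN0) (cut := Cut.none) (xt := Ext.none) (P1 := 1073741824) (W1 := 536870912) (P2 := 1239849684) (W2 := 370763052) (P3 := 402653184) (W3 := 67108864) (N0 := 3)
    rfl (fun _ => rfl) k0_pm_202_b

noncomputable def f_pm_203 : ℕ → ℕ → ℕ → ℕ → Bool := onCell 0 536870912 1610612736 536870912 402653184 67108864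
    (rowN 3 2 false true false .up 2 0 3 (qsf 1073741824 536870912 1610612736 536870912 0) ndN3q2 ndN1q3 pcN0 Cut.none Ext.none)

def k0_pm_203 : ∃ t, chk3 f_pm_203 t 1 1 1 = true :=
  ⟨(a (b (a (b (b (a (a (l 3) (l 16414896)) (l 52780508471)) (a (l 3) (l 203642282935))) (l 3)) (b (a (b (l 16570152) (l 16797160)) (l 16939752)) (a (l 212232732359) (l 47413410231)))) (a (l 2) (l 3))) (a (b (b (a (l 16854840) (l 16944720)) (a (l 17047984) (l 17073112))) (b (a (l 3) (l 17109512)) (l 3))) (b (b (l 17052848) (l 17113816)) (a (b (l 17116368) (l 3)) (b (l 17120960) (l 17080392)))))), by decide +kernel⟩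

theorem c_pm_203 : CertN 1073741824 536870912 1610612736 536870912 402653184 67108864 3 false true false .up 2 0 3
    ndN3q2 ndN1q3 pcN0 Cut.none Ext.none :=
  certN2 (fam := false) (s1 := true) (s2 := false) (a := 2) (b := 0) (c := 3) (cn := .up) (n1 := ndN3q2) (n2 := ndN1q3) (pc := pcN0) (cut := Cut.none) (xt := Ext.none) (P1 := 1073741824) (W1 := 536870912) (P2 := 1610612736) (W2 := 536870912) (P3 := 402653184) (W3 := 67108864) (N0 := 3)
    rfl (fun _ => rfl) k0_pm_203

noncomputable def f_pm_213 : ℕ → ℕ → ℕ → ℕ → Bool := onCell 536870912 536870912 1610612736 536870912 402653184 67108864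
    (rowN 3 2 false true false .pnn 2 1 3 (qsf 1073741824 536870912 1610612736 536870912 1) ndN3q2 ndN1q3 pcN1 Cut.none Ext.none)

def k0_pm_213 : ∃ t, chk3 f_pm_213 t 1 1 1 = true :=
  ⟨(a (a (b (a (b (b (l 17273688) (l 17173408)) (b (l 17153840) (l 17150456))) (b (l 17338048) (l 17182560))) (b (l 17129648) (a (l 17062920) (l 17054664)))) (b (b (l 17625872) (l 17455256)) (b (a (l 17141880) (l 17152016)) (l 17193696)))) (a (b (b (l 1) (l 17414928)) (b (l 17389776) (l 17160496))) (b (l 1) (b (a (l 17170336) (l 1)) (l 9161334855))))), by decide +kernel⟩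

theorem c_pm_213 : CertN 1073741824 536870912 1610612736 536870912 402653184 67108864 3 false true false .pnn 2 1 3
    ndN3q2 ndN1q3 pcN1 Cut.none Ext.none :=
  certN2 (fam := false) (s1 := true) (s2 := false) (a := 2) (b := 1) (c := 3) (cn := .pnn) (n1 := ndN3q2) (n2 := ndN1q3) (pc := pcN1) (cut := Cut.none) (xt := Ext.none) (P1 := 1073741824) (W1 := 536870912) (P2 := 1610612736) (W2 := 536870912) (P3 := 402653184) (W3 := 67108864) (N0 := 3)
    rfl (fun _ => rfl) k0_pm_213

noncomputable def f_pm_303 : ℕ → ℕ → ℕ → ℕ → Bool := onCell 0 1230186008 1610612736 536870912 402653184 67108864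
    (rowN 3 0 false true false .npn 3 0 3 (qsf 0 1230186008 1610612736 536870912 0) ndN3q3 ndN1q3 pcN0 Cut.none Ext.none)

def k0_pm_303 : ∃ t, chk3 f_pm_303 t 1 1 1 = true :=
  ⟨(a (l 3) (a (l 3) (b (a (l 3) (l 3)) (l 3)))), by decide +kernel⟩

theorem c_pm_303 : CertN 0 1230186008 1610612736 536870912 402653184 67108864 3 false true false .npn 3 0 3
    ndN3q3 ndN1q3 pcN0 Cut.none Ext.none :=
  certN0 (fam := false) (s1 := true) (s2 := false) (a := 3) (b := 0) (c := 3) (cn := .npn) (n1 := ndN3q3) (n2 := ndN1q3) (pc := pcN0) (cut := Cut.none) (xt := Ext.none) (P1 := 0) (W1 := 1230186008) (P2 := 1610612736) (W2 := 536870912) (P3 := 402653184) (W3 := 67108864) (N0 := 3)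
    rfl k0_pm_303

noncomputable def f_pm_313 : ℕ → ℕ → ℕ → ℕ → Bool := onCell 0 1230186008 1610612736 536870912 402653184 67108864
    (rowN 3 0 false true false .dn 3 1 3 (qsf 0 1230186008 1610612736 536870912 1) ndN3q3 ndN1q3 pcN1 Cut.none Ext.none)

def k0_pm_313 : ∃ t, chk3 f_pm_313 t 1 1 1 = true :=
  ⟨(a (l 1) (a (l 1) (b (l 1) (l 3)))), by decide +kernel⟩

theorem c_pm_313 : CertN 0 1230186008 1610612736 536870912 402653184 67108864 3 false true false .dn 3 1 3
    ndN3q3 ndN1q3 pcN1 Cut.none Ext.none :=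
  certN0 (fam := false) (s1 := true) (s2 := false) (a := 3) (b := 1) (c := 3) (cn := .dn) (n1 := ndN3q3) (n2 := ndN1q3) (pc := pcN1) (cut := Cut.none) (xt := Ext.none) (P1 := 0) (W1 := 1230186008) (P2 := 1610612736) (W2 := 536870912) (P3 := 402653184) (W3 := 67108864) (N0 := 3)
    rfl k0_pm_313

noncomputable def f_mm_001 : ℕ → ℕ → ℕ → ℕ → Bool := onCell 0 536870912 536870912 536870912 402653184 67108864
    (rowN 3 0 false false false .up 0 0 1 (qsf 0 536870912 536870912 536870912 0) ndN3q0 ndN1q1 pcN0 Cut.none Ext.none)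

def k0_mm_001 : ∃ t, chk3 f_mm_001 t 1 1 1 = true :=
  ⟨(l 5), by decide +kernel⟩

theorem c_mm_001 : CertN 0 536870912 536870912 536870912 402653184 67108864 3 false false false .up 0 0 1
    ndN3q0 ndN1q1 pcN0 Cut.none Ext.none :=
  certN0 (fam := false) (s1 := false) (s2 := false) (a := 0) (b := 0) (c := 1) (cn := .up) (n1 := ndN3q0) (n2 := ndN1q1) (pc := pcN0) (cut := Cut.none) (xt := Ext.none) (P1 := 0) (W1 := 536870912) (P2 := 536870912) (W2 := 536870912) (P3 := 402653184) (W3 := 67108864) (N0 := 3)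
    rfl k0_mm_001

noncomputable def f_mm_011 : ℕ → ℕ → ℕ → ℕ → Bool := onCell 0 536870912 536870912 536870912 402653184 67108864
    (rowN 3 0 false false false .pnn 0 1 1 (qsf 0 536870912 536870912 536870912 1) ndN3q0 ndN1q1 pcN1 Cut.none Ext.none)

def k0_mm_011 : ∃ t, chk3 f_mm_011 t 1 1 1 = true :=
  ⟨(l 5), by decide +kernel⟩

theorem c_mm_011 : CertN 0 536870912 536870912 536870912 402653184 67108864 3 false false false .pnn 0 1 1
    ndN3q0 ndN1q1 pcN1 Cut.none Ext.none :=
  certN0 (fam := false) (s1 := false) (s2 := false) (a := 0) (b := 1) (c := 1) (cn := .pnn) (n1 := ndN3q0) (n2 := ndN1q1) (pc := pcN1) (cut := Cut.none) (xt := Ext.none) (P1 := 0) (W1 := 536870912) (P2 := 536870912) (W2 := 536870912) (P3 := 402653184) (W3 := 67108864) (N0 := 3)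
    rfl k0_mm_011

noncomputable def f_mm_012_a : ℕ → ℕ → ℕ → ℕ → Bool := onCell 0 536870912 0 536870912 402653184 67108864
    (rowN 3 0 false false false .pnp 0 1 2 (qsf 0 536870912 0 536870912 1) ndN3q0 ndN1q2a pcN1 Cut.none Ext.none)

def k0_mm_012_a : ∃ t, chk3 f_mm_012_a t 1 1 1 = true :=
  ⟨(l 5), by decide +kernel⟩

theorem c_mm_012_a : CertN 0 536870912 0 536870912 402653184 67108864 3 false false false .pnp 0 1 2
    ndN3q0 ndN1q2a pcN1 Cut.none Ext.none :=
  certN0 (fam := false) (s1 := false) (s2 := false) (a := 0) (b := 1) (c := 2) (cn := .pnp) (n1 := ndN3q0) (n2 := ndN1q2a) (pc := pcN1) (cut := Cut.none) (xt := Ext.none) (P1 := 0) (W1 := 536870912) (P2 := 0) (W2 := 536870912) (P3 := 402653184) (W3 := 67108864) (N0 := 3)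
    rfl k0_mm_012_a

noncomputable def f_mm_012_b : ℕ → ℕ → ℕ → ℕ → Bool := onCell 0 536870912 1239849684 370763052 402653184 67108864
    (rowN 3 0 false false false .pnp 0 1 2 (qsf 0 536870912 1239849684 370763052 1) ndN3q0 ndN1q2b pcN1 Cut.none Ext.none)

def k0_mm_012_b : ∃ t, chk3 f_mm_012_b t 1 1 1 = true :=
  ⟨(l 5), by decide +kernel⟩

theorem c_mm_012_b : CertN 0 536870912 1239849684 370763052 402653184 67108864 3 false false false .pnp 0 1 2
    ndN3q0 ndN1q2b pcN1 Cut.none Ext.none :=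
  certN0 (fam := false) (s1 := false) (s2 := false) (a := 0) (b := 1) (c := 2) (cn := .pnp) (n1 := ndN3q0) (n2 := ndN1q2b) (pc := pcN1) (cut := Cut.none) (xt := Ext.none) (P1 := 0) (W1 := 536870912) (P2 := 1239849684) (W2 := 370763052) (P3 := 402653184) (W3 := 67108864) (N0 := 3)
    rfl k0_mm_012_b

noncomputable def f_mm_022_a : ℕ → ℕ → ℕ → ℕ → Bool := onCell 0 536870912 0 536870912 402653184 67108864
    (rowN 3 0 false false false .pp 0 2 2 (qsf 0 536870912 0 536870912 2) ndN3q0 ndN1q2a pcN2 Cut.none Ext.none)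

def k0_mm_022_a : ∃ t, chk3 f_mm_022_a t 1 1 1 = true :=
  ⟨(l 5), by decide +kernel⟩

theorem c_mm_022_a : CertN 0 536870912 0 536870912 402653184 67108864 3 false false false .pp 0 2 2
    ndN3q0 ndN1q2a pcN2 Cut.none Ext.none :=
  certN0 (fam := false) (s1 := false) (s2 := false) (a := 0) (b := 2) (c := 2) (cn := .pp) (n1 := ndN3q0) (n2 := ndN1q2a) (pc := pcN2) (cut := Cut.none) (xt := Ext.none) (P1 := 0) (W1 := 536870912) (P2 := 0) (W2 := 536870912) (P3 := 402653184) (W3 := 67108864) (N0 := 3)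
    rfl k0_mm_022_a

noncomputable def f_mm_022_b : ℕ → ℕ → ℕ → ℕ → Bool := onCell 0 536870912 1239849684 370763052 402653184 67108864
    (rowN 3 0 false false false .pp 0 2 2 (qsf 0 536870912 1239849684 370763052 2) ndN3q0 ndN1q2b pcN2 Cut.none Ext.none)

def k0_mm_022_b : ∃ t, chk3 f_mm_022_b t 1 1 1 = true :=
  ⟨(l 5), by decide +kernel⟩

theorem c_mm_022_b : CertN 0 536870912 1239849684 370763052 402653184 67108864 3 false false false .pp 0 2 2
    ndN3q0 ndN1q2b pcN2 Cut.none Ext.none :=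
  certN0 (fam := false) (s1 := false) (s2 := false) (a := 0) (b := 2) (c := 2) (cn := .pp) (n1 := ndN3q0) (n2 := ndN1q2b) (pc := pcN2) (cut := Cut.none) (xt := Ext.none) (P1 := 0) (W1 := 536870912) (P2 := 1239849684) (W2 := 370763052) (P3 := 402653184) (W3 := 67108864) (N0 := 3)
    rfl k0_mm_022_b

noncomputable def f_mm_023 : ℕ → ℕ → ℕ → ℕ → Bool := onCell 0 536870912 1610612736 536870912 402653184 67108864
    (rowN 3 0 false false false .up 0 2 3 (qsf 0 536870912 1610612736 536870912 2) ndN3q0 ndN1q3 pcN2 Cut.none Ext.none)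

def k0_mm_023 : ∃ t, chk3 f_mm_023 t 1 1 1 = true :=
  ⟨(l 5), by decide +kernel⟩

theorem c_mm_023 : CertN 0 536870912 1610612736 536870912 402653184 67108864 3 false false false .up 0 2 3
    ndN3q0 ndN1q3 pcN2 Cut.none Ext.none :=
  certN0 (fam := false) (s1 := false) (s2 := false) (a := 0) (b := 2) (c := 3) (cn := .up) (n1 := ndN3q0) (n2 := ndN1q3) (pc := pcN2) (cut := Cut.none) (xt := Ext.none) (P1 := 0) (W1 := 536870912) (P2 := 1610612736) (W2 := 536870912) (P3 := 402653184) (W3 := 67108864) (N0 := 3)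
    rfl k0_mm_023

noncomputable def f_mm_033 : ℕ → ℕ → ℕ → ℕ → Bool := onCell 0 536870912 1610612736 536870912 402653184 67108864
    (rowN 3 0 false false false .pnn 0 3 3 (qsf 0 536870912 1610612736 536870912 3) ndN3q0 ndN1q3 pcN3 Cut.none Ext.none)

def k0_mm_033 : ∃ t, chk3 f_mm_033 t 1 1 1 = true :=
  ⟨(l 5), by decide +kernel⟩

theorem c_mm_033 : CertN 0 536870912 1610612736 536870912 402653184 67108864 3 false false false .pnn 0 3 3
    ndN3q0 ndN1q3 pcN3 Cut.none Ext.none :=
  certN0 (fam := false) (s1 := false) (s2 := false) (a := 0) (b := 3) (c := 3) (cn := .pnn) (n1 := ndN3q0) (n2 := ndN1q3) (pc := pcN3) (cut := Cut.none) (xt := Ext.none) (P1 := 0) (W1 := 536870912) (P2 := 1610612736) (W2 := 536870912) (P3 := 402653184) (W3 := 67108864) (N0 := 3)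
    rfl k0_mm_033

noncomputable def f_mm_101 : ℕ → ℕ → ℕ → ℕ → Bool := onCell 536870912 536870912 536870912 536870912 402653184 67108864
    (rowN 3 0 false false false .npn 1 0 1 (qsf 536870912 536870912 536870912 536870912 0) ndN3q1 ndN1q1 pcN0 Cut.none Ext.none)

def k0_mm_101 : ∃ t, chk3 f_mm_101 t 1 1 1 = true :=
  ⟨(l 3), by decide +kernel⟩

theorem c_mm_101 : CertN 536870912 536870912 536870912 536870912 402653184 67108864 3 false false false .npn 1 0 1
    ndN3q1 ndN1q1 pcN0 Cut.none Ext.none :=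
  certN0 (fam := false) (s1 := false) (s2 := false) (a := 1) (b := 0) (c := 1) (cn := .npn) (n1 := ndN3q1) (n2 := ndN1q1) (pc := pcN0) (cut := Cut.none) (xt := Ext.none) (P1 := 536870912) (W1 := 536870912) (P2 := 536870912) (W2 := 536870912) (P3 := 402653184) (W3 := 67108864) (N0 := 3)
    rfl k0_mm_101

noncomputable def f_mm_102_a : ℕ → ℕ → ℕ → ℕ → Bool := onCell 536870912 536870912 0 536870912 402653184 67108864
    (rowN 3 0 false false false .npp 1 0 2 (qsf 536870912 536870912 0 536870912 0) ndN3q1 ndN1q2a pcN0 Cut.none Ext.none)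

def k0_mm_102_a : ∃ t, chk3 f_mm_102_a t 1 1 1 = true :=
  ⟨(l 5), by decide +kernel⟩

theorem c_mm_102_a : CertN 536870912 536870912 0 536870912 402653184 67108864 3 false false false .npp 1 0 2
    ndN3q1 ndN1q2a pcN0 Cut.none Ext.none :=
  certN0 (fam := false) (s1 := false) (s2 := false) (a := 1) (b := 0) (c := 2) (cn := .npp) (n1 := ndN3q1) (n2 := ndN1q2a) (pc := pcN0) (cut := Cut.none) (xt := Ext.none) (P1 := 536870912) (W1 := 536870912) (P2 := 0) (W2 := 536870912) (P3 := 402653184) (W3 := 67108864) (N0 := 3)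
    rfl k0_mm_102_a

noncomputable def f_mm_102_b : ℕ → ℕ → ℕ → ℕ → Bool := onCell 536870912 536870912 1239849684 370763052 402653184 67108864
    (rowN 3 0 false false false .npp 1 0 2 (qsf 536870912 536870912 1239849684 370763052 0) ndN3q1 ndN1q2b pcN0 Cut.none Ext.none)

def k0_mm_102_b : ∃ t, chk3 f_mm_102_b t 1 1 1 = true :=
  ⟨(l 5), by decide +kernel⟩

theorem c_mm_102_b : CertN 536870912 536870912 1239849684 370763052 402653184 67108864 3 false false false .npp 1 0 2
    ndN3q1 ndN1q2b pcN0 Cut.none Ext.none :=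
  certN0 (fam := false) (s1 := false) (s2 := false) (a := 1) (b := 0) (c := 2) (cn := .npp) (n1 := ndN3q1) (n2 := ndN1q2b) (pc := pcN0) (cut := Cut.none) (xt := Ext.none) (P1 := 536870912) (W1 := 536870912) (P2 := 1239849684) (W2 := 370763052) (P3 := 402653184) (W3 := 67108864) (N0 := 3)
    rfl k0_mm_102_b

noncomputable def f_mm_112_a : ℕ → ℕ → ℕ → ℕ → Bool := onCell 536870912 536870912 0 536870912 402653184 67108864
    (rowN 3 0 false false false .dn 1 1 2 (qsf 536870912 536870912 0 536870912 1) ndN3q1 ndN1q2a pcN1 Cut.none Ext.none)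

def k0_mm_112_a : ∃ t, chk3 f_mm_112_a t 1 1 1 = true :=
  ⟨(l 5), by decide +kernel⟩

theorem c_mm_112_a : CertN 536870912 536870912 0 536870912 402653184 67108864 3 false false false .dn 1 1 2
    ndN3q1 ndN1q2a pcN1 Cut.none Ext.none :=
  certN0 (fam := false) (s1 := false) (s2 := false) (a := 1) (b := 1) (c := 2) (cn := .dn) (n1 := ndN3q1) (n2 := ndN1q2a) (pc := pcN1) (cut := Cut.none) (xt := Ext.none) (P1 := 536870912) (W1 := 536870912) (P2 := 0) (W2 := 536870912) (P3 := 402653184) (W3 := 67108864) (N0 := 3)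
    rfl k0_mm_112_a

noncomputable def f_mm_112_b : ℕ → ℕ → ℕ → ℕ → Bool := onCell 536870912 536870912 1239849684 370763052 402653184 67108864
    (rowN 3 0 false false false .dn 1 1 2 (qsf 536870912 536870912 1239849684 370763052 1) ndN3q1 ndN1q2b pcN1 Cut.none Ext.none)

def k0_mm_112_b : ∃ t, chk3 f_mm_112_b t 1 1 1 = true :=
  ⟨(l 5), by decide +kernel⟩

theorem c_mm_112_b : CertN 536870912 536870912 1239849684 370763052 402653184 67108864 3 false false false .dn 1 1 2
    ndN3q1 ndN1q2b pcN1 Cut.none Ext.none :=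
  certN0 (fam := false) (s1 := false) (s2 := false) (a := 1) (b := 1) (c := 2) (cn := .dn) (n1 := ndN3q1) (n2 := ndN1q2b) (pc := pcN1) (cut := Cut.none) (xt := Ext.none) (P1 := 536870912) (W1 := 536870912) (P2 := 1239849684) (W2 := 370763052) (P3 := 402653184) (W3 := 67108864) (N0 := 3)
    rfl k0_mm_112_b

noncomputable def f_mm_113 : ℕ → ℕ → ℕ → ℕ → Bool := onCell 536870912 536870912 1610612736 536870912 402653184 67108864
    (rowN 3 0 false false false .nn 1 1 3 (qsf 536870912 536870912 1610612736 536870912 1) ndN3q1 ndN1q3 pcN1 Cut.none Ext.none)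

def k0_mm_113 : ∃ t, chk3 f_mm_113 t 1 1 1 = true :=
  ⟨(l 5), by decide +kernel⟩

theorem c_mm_113 : CertN 536870912 536870912 1610612736 536870912 402653184 67108864 3 false false false .nn 1 1 3
    ndN3q1 ndN1q3 pcN1 Cut.none Ext.none :=
  certN0 (fam := false) (s1 := false) (s2 := false) (a := 1) (b := 1) (c := 3) (cn := .nn) (n1 := ndN3q1) (n2 := ndN1q3) (pc := pcN1) (cut := Cut.none) (xt := Ext.none) (P1 := 536870912) (W1 := 536870912) (P2 := 1610612736) (W2 := 536870912) (P3 := 402653184) (W3 := 67108864) (N0 := 3)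
    rfl k0_mm_113

noncomputable def f_mm_123 : ℕ → ℕ → ℕ → ℕ → Bool := onCell 536870912 536870912 1610612736 536870912 402653184 67108864
    (rowN 3 0 false false false .npn 1 2 3 (qsf 536870912 536870912 1610612736 536870912 2) ndN3q1 ndN1q3 pcN2 Cut.none Ext.none)

def k0_mm_123 : ∃ t, chk3 f_mm_123 t 1 1 1 = true :=
  ⟨(l 5), by decide +kernel⟩

theorem c_mm_123 : CertN 536870912 536870912 1610612736 536870912 402653184 67108864 3 false false false .npn 1 2 3
    ndN3q1 ndN1q3 pcN2 Cut.none Ext.none :=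
  certN0 (fam := false) (s1 := false) (s2 := false) (a := 1) (b := 2) (c := 3) (cn := .npn) (n1 := ndN3q1) (n2 := ndN1q3) (pc := pcN2) (cut := Cut.none) (xt := Ext.none) (P1 := 536870912) (W1 := 536870912) (P2 := 1610612736) (W2 := 536870912) (P3 := 402653184) (W3 := 67108864) (N0 := 3)
    rfl k0_mm_123

noncomputable def f_mm_133 : ℕ → ℕ → ℕ → ℕ → Bool := onCell 536870912 536870912 1610612736 536870912 402653184 67108864
    (rowN 3 0 false false false .dn 1 3 3 (qsf 536870912 536870912 1610612736 536870912 3) ndN3q1 ndN1q3 pcN3 Cut.none Ext.none)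

def k0_mm_133 : ∃ t, chk3 f_mm_133 t 1 1 1 = true :=
  ⟨(l 5), by decide +kernel⟩

theorem c_mm_133 : CertN 536870912 536870912 1610612736 536870912 402653184 67108864 3 false false false .dn 1 3 3
    ndN3q1 ndN1q3 pcN3 Cut.none Ext.none :=
  certN0 (fam := false) (s1 := false) (s2 := false) (a := 1) (b := 3) (c := 3) (cn := .dn) (n1 := ndN3q1) (n2 := ndN1q3) (pc := pcN3) (cut := Cut.none) (xt := Ext.none) (P1 := 536870912) (W1 := 536870912) (P2 := 1610612736) (W2 := 536870912) (P3 := 402653184) (W3 := 67108864) (N0 := 3)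
    rfl k0_mm_133

noncomputable def f_mm_202_a : ℕ → ℕ → ℕ → ℕ → Bool := onCell 1073741824 536870912 0 536870912 402653184 67108864
    (rowN 3 0 false false false .pp 2 0 2 (qsf 1073741824 536870912 0 536870912 0) ndN3q2 ndN1q2a pcN0 Cut.none Ext.none)

def k0_mm_202_a : ∃ t, chk3 f_mm_202_a t 1 1 1 = true :=
  ⟨(l 3), by decide +kernel⟩

theorem c_mm_202_a : CertN 1073741824 536870912 0 536870912 402653184 67108864 3 false false false .pp 2 0 2
    ndN3q2 ndN1q2a pcN0 Cut.none Ext.none :=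
  certN0 (fam := false) (s1 := false) (s2 := false) (a := 2) (b := 0) (c := 2) (cn := .pp) (n1 := ndN3q2) (n2 := ndN1q2a) (pc := pcN0) (cut := Cut.none) (xt := Ext.none) (P1 := 1073741824) (W1 := 536870912) (P2 := 0) (W2 := 536870912) (P3 := 402653184) (W3 := 67108864) (N0 := 3)
    rfl k0_mm_202_a

noncomputable def f_mm_202_b : ℕ → ℕ → ℕ → ℕ → Bool := onCell 1073741824 536870912 1239849684 370763052 402653184 67108864
    (rowN 3 0 false false false .pp 2 0 2 (qsf 1073741824 536870912 1239849684 370763052 0) ndN3q2 ndN1q2b pcN0 Cut.none Ext.none)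

def k0_mm_202_b : ∃ t, chk3 f_mm_202_b t 1 1 1 = true :=
  ⟨(l 3), by decide +kernel⟩

theorem c_mm_202_b : CertN 1073741824 536870912 1239849684 370763052 402653184 67108864 3 false false false .pp 2 0 2
    ndN3q2 ndN1q2b pcN0 Cut.none Ext.none :=
  certN0 (fam := false) (s1 := false) (s2 := false) (a := 2) (b := 0) (c := 2) (cn := .pp) (n1 := ndN3q2) (n2 := ndN1q2b) (pc := pcN0) (cut := Cut.none) (xt := Ext.none) (P1 := 1073741824) (W1 := 536870912) (P2 := 1239849684) (W2 := 370763052) (P3 := 402653184) (W3 := 67108864) (N0 := 3)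
    rfl k0_mm_202_b

noncomputable def f_mm_203 : ℕ → ℕ → ℕ → ℕ → Bool := onCell 1073741824 536870912 1610612736 536870912 402653184 67108864
    (rowN 3 0 false false false .up 2 0 3 (qsf 1073741824 536870912 1610612736 536870912 0) ndN3q2 ndN1q3 pcN0 Cut.none Ext.none)

def k0_mm_203 : ∃ t, chk3 f_mm_203 t 1 1 1 = true :=
  ⟨(l 5), by decide +kernel⟩

theorem c_mm_203 : CertN 1073741824 536870912 1610612736 536870912 402653184 67108864 3 false false false .up 2 0 3
    ndN3q2 ndN1q3 pcN0 Cut.none Ext.none :=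
  certN0 (fam := false) (s1 := false) (s2 := false) (a := 2) (b := 0) (c := 3) (cn := .up) (n1 := ndN3q2) (n2 := ndN1q3) (pc := pcN0) (cut := Cut.none) (xt := Ext.none) (P1 := 1073741824) (W1 := 536870912) (P2 := 1610612736) (W2 := 536870912) (P3 := 402653184) (W3 := 67108864) (N0 := 3)
    rfl k0_mm_203

noncomputable def f_mm_213 : ℕ → ℕ → ℕ → ℕ → Bool := onCell 1073741824 536870912 1610612736 536870912 402653184 67108864
    (rowN 3 0 false false false .pnn 2 1 3 (qsf 1073741824 536870912 1610612736 536870912 1) ndN3q2 ndN1q3 pcN1 Cut.none Ext.none)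

def k0_mm_213 : ∃ t, chk3 f_mm_213 t 1 1 1 = true :=
  ⟨(l 5), by decide +kernel⟩

theorem c_mm_213 : CertN 1073741824 536870912 1610612736 536870912 402653184 67108864 3 false false false .pnn 2 1 3
    ndN3q2 ndN1q3 pcN1 Cut.none Ext.none :=
  certN0 (fam := false) (s1 := false) (s2 := false) (a := 2) (b := 1) (c := 3) (cn := .pnn) (n1 := ndN3q2) (n2 := ndN1q3) (pc := pcN1) (cut := Cut.none) (xt := Ext.none) (P1 := 1073741824) (W1 := 536870912) (P2 := 1610612736) (W2 := 536870912) (P3 := 402653184) (W3 := 67108864) (N0 := 3)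
    rfl k0_mm_213

noncomputable def f_mm_303 : ℕ → ℕ → ℕ → ℕ → Bool := onCell 0 1230186008 1610612736 536870912 402653184 67108864
    (rowN 3 0 false false false .npn 3 0 3 (qsf 0 1230186008 1610612736 536870912 0) ndN3q3 ndN1q3 pcN0 Cut.none Ext.none)

def k0_mm_303 : ∃ t, chk3 f_mm_303 t 1 1 1 = true :=
  ⟨(a (l 3) (l 3)), by decide +kernel⟩

theorem c_mm_303 : CertN 0 1230186008 1610612736 536870912 402653184 67108864 3 false false false .npn 3 0 3
    ndN3q3 ndN1q3 pcN0 Cut.none Ext.none :=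
  certN0 (fam := false) (s1 := false) (s2 := false) (a := 3) (b := 0) (c := 3) (cn := .npn) (n1 := ndN3q3) (n2 := ndN1q3) (pc := pcN0) (cut := Cut.none) (xt := Ext.none) (P1 := 0) (W1 := 1230186008) (P2 := 1610612736) (W2 := 536870912) (P3 := 402653184) (W3 := 67108864) (N0 := 3)
    rfl k0_mm_303

noncomputable def f_mm_313 : ℕ → ℕ → ℕ → ℕ → Bool := onCell 0 1230186008 1610612736 536870912 402653184 67108864
    (rowN 3 0 false false false .dn 3 1 3 (qsf 0 1230186008 1610612736 536870912 1) ndN3q3 ndN1q3 pcN1 Cut.none Ext.none)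

def k0_mm_313 : ∃ t, chk3 f_mm_313 t 1 1 1 = true :=
  ⟨(a (l 1) (l 3)), by decide +kernel⟩

theorem c_mm_313 : CertN 0 1230186008 1610612736 536870912 402653184 67108864 3 false false false .dn 3 1 3
    ndN3q3 ndN1q3 pcN1 Cut.none Ext.none :=
  certN0 (fam := false) (s1 := false) (s2 := false) (a := 3) (b := 1) (c := 3) (cn := .dn) (n1 := ndN3q3) (n2 := ndN1q3) (pc := pcN1) (cut := Cut.none) (xt := Ext.none) (P1 := 0) (W1 := 1230186008) (P2 := 1610612736) (W2 := 536870912) (P3 := 402653184) (W3 := 67108864) (N0 := 3)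
    rfl k0_mm_313

end Pool.Agent.Strip051.G.I3_8_7_16.Tab.C.NB31

namespace Pool.Agent.Strip051.G.I3_8_7_16.Tab.C.NB32

open Pool.Agent.Strip051.PB Pool.Agent.Strip051.PB.T
open Pool.Agent.Strip051.G.I3_8_7_16.Tab

noncomputable def f_pp_001 : ℕ → ℕ → ℕ → ℕ → Bool := onCell 0 536870912 536870912 536870912 402653184 67108864
    (rowN 3 0 false true true .up 0 0 1 (qsf 0 536870912 536870912 536870912 0) ndN3q0 ndN2q1 pcN0 Cut.none Ext.none)

def k0_pp_001 : ∃ t, chk3 f_pp_001 t 1 1 1 = true :=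
  ⟨(l 3), by decide +kernel⟩

theorem c_pp_001 : CertN 0 536870912 536870912 536870912 402653184 67108864 3 false true true .up 0 0 1
    ndN3q0 ndN2q1 pcN0 Cut.none Ext.none :=
  certN0 (fam := false) (s1 := true) (s2 := true) (a := 0) (b := 0) (c := 1) (cn := .up) (n1 := ndN3q0) (n2 := ndN2q1) (pc := pcN0) (cut := Cut.none) (xt := Ext.none) (P1 := 0) (W1 := 536870912) (P2 := 536870912) (W2 := 536870912) (P3 := 402653184) (W3 := 67108864) (N0 := 3)
    rfl k0_pp_001

noncomputable def f_pp_011 : ℕ → ℕ → ℕ → ℕ → Bool := onCell 0 536870912 536870912 536870912 402653184 67108864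
    (rowN 3 0 false true true .pnn 0 1 1 (qsf 0 536870912 536870912 536870912 1) ndN3q0 ndN2q1 pcN1 Cut.none Ext.none)

def k0_pp_011 : ∃ t, chk3 f_pp_011 t 1 1 1 = true :=
  ⟨(l 3), by decide +kernel⟩

theorem c_pp_011 : CertN 0 536870912 536870912 536870912 402653184 67108864 3 false true true .pnn 0 1 1
    ndN3q0 ndN2q1 pcN1 Cut.none Ext.none :=
  certN0 (fam := false) (s1 := true) (s2 := true) (a := 0) (b := 1) (c := 1) (cn := .pnn) (n1 := ndN3q0) (n2 := ndN2q1) (pc := pcN1) (cut := Cut.none) (xt := Ext.none) (P1 := 0) (W1 := 536870912) (P2 := 536870912) (W2 := 536870912) (P3 := 402653184) (W3 := 67108864) (N0 := 3)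
    rfl k0_pp_011

noncomputable def f_pp_012 : ℕ → ℕ → ℕ → ℕ → Bool := onCell 536870912 536870912 1073741824 536870912 402653184 67108864
    (rowN 3 2 false true true .pnp 0 1 2 (qsf 0 536870912 1073741824 536870912 1) ndN3q0 ndN2q2 pcN1 Cut.none Ext.none)

def k0_pp_012 : ∃ t, chk3 f_pp_012 t 1 1 1 = true :=
  ⟨(a (b (a (b (a (b (a (l 742660399095) (l 16769240)) (l 132171296663)) (b (a (l 16805248) (l 16843752)) (l 16796448))) (a (l 2) (l 16809096))) (b (a (b (l 16897808) (l 16872016)) (b (l 16954016) (l 16930280))) (a (l 16898136) (l 16972032)))) (b (a (l 2) (b (l 16973088) (l 2))) (l 2))) (b (a (b (b (a (l 16982208) (l 17018392)) (a (l 16964736) (l 16975272))) (a (l 17030984) (l 17085744))) (b (a (b (b (l 16945104) (l 16930016)) (l 16983944)) (b (a (l 16897912) (l 16849424)) (l 16934176))) (a (l 17191960) (l 17139104)))) (b (a (b (l 17135192) (l 17161632)) (b (l 17429296) (l 17447064))) (a (b (l 17170928) (l 2)) (b (l 17460832) (l 17464720)))))), by decide +kernel⟩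

theorem c_pp_012 : CertN 0 536870912 1073741824 536870912 402653184 67108864 3 false true true .pnp 0 1 2
    ndN3q0 ndN2q2 pcN1 Cut.none Ext.none :=
  certN2 (fam := false) (s1 := true) (s2 := true) (a := 0) (b := 1) (c := 2) (cn := .pnp) (n1 := ndN3q0) (n2 := ndN2q2) (pc := pcN1) (cut := Cut.none) (xt := Ext.none) (P1 := 0) (W1 := 536870912) (P2 := 1073741824) (W2 := 536870912) (P3 := 402653184) (W3 := 67108864) (N0 := 3)
    rfl (fun _ => rfl) k0_pp_012

noncomputable def f_pp_022 : ℕ → ℕ → ℕ → ℕ → Bool := onCell 0 536870912 1073741824 536870912 402653184 67108864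
    (rowN 3 0 false true true .pp 0 2 2 (qsf 0 536870912 1073741824 536870912 2) ndN3q0 ndN2q2 pcN2 Cut.none Ext.none)

def k0_pp_022 : ∃ t, chk3 f_pp_022 t 1 1 1 = true :=
  ⟨(a (b (b (a (a (a (l 16669600) (b (l 16885040) (l 16723272))) (b (a (l 326451876039) (l 1)) (l 337188929671))) (b (l 1) (a (l 441342574327) (l 1)))) (a (a (l 16437848) (b (l 16763992) (l 16657832))) (b (a (l 16992976) (l 514357365287)) (l 17024512)))) (a (b (b (l 16403488) (a (l 16101976) (l 16469312))) (b (a (l 15977504) (l 16370376)) (l 16221376))) (b (b (l 16946432) (l 16882904)) (b (l 16810368) (l 16745960))))) (b (b (l 1) (b (l 1) (a (l 557308006359) (l 1)))) (b (b (a (l 17627736) (l 1)) (a (l 17477808) (l 17917488))) (b (l 17753240) (a (l 17275136) (l 17876936)))))), by decide +kernel⟩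

theorem c_pp_022 : CertN 0 536870912 1073741824 536870912 402653184 67108864 3 false true true .pp 0 2 2
    ndN3q0 ndN2q2 pcN2 Cut.none Ext.none :=
  certN0 (fam := false) (s1 := true) (s2 := true) (a := 0) (b := 2) (c := 2) (cn := .pp) (n1 := ndN3q0) (n2 := ndN2q2) (pc := pcN2) (cut := Cut.none) (xt := Ext.none) (P1 := 0) (W1 := 536870912) (P2 := 1073741824) (W2 := 536870912) (P3 := 402653184) (W3 := 67108864) (N0 := 3)
    rfl k0_pp_022

noncomputable def f_pp_023 : ℕ → ℕ → ℕ → ℕ → Bool := onCell 1073741824 536870912 0 1230186008 402653184 67108864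
    (rowN 3 2 false true true .up 0 2 3 (qsf 0 536870912 0 1230186008 2) ndN3q0 ndN2q3 pcN2 Cut.none Ext.none)

def k0_pp_023 : ∃ t, chk3 f_pp_023 t 1 1 1 = true :=
  ⟨(b (a (l 2) (a (l 2) (l 4))) (b (a (a (l 2) (l 17228016)) (a (l 17180048) (l 17072040))) (a (b (l 17658328) (a (l 17729312) (l 17892392))) (a (b (l 17491824) (l 17293968)) (b (l 17122216) (b (l 16886872) (l 16650368))))))), by decide +kernel⟩

theorem c_pp_023 : CertN 0 536870912 0 1230186008 402653184 67108864 3 false true true .up 0 2 3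
    ndN3q0 ndN2q3 pcN2 Cut.none Ext.none :=
  certN2 (fam := false) (s1 := true) (s2 := true) (a := 0) (b := 2) (c := 3) (cn := .up) (n1 := ndN3q0) (n2 := ndN2q3) (pc := pcN2) (cut := Cut.none) (xt := Ext.none) (P1 := 0) (W1 := 536870912) (P2 := 0) (W2 := 1230186008) (P3 := 402653184) (W3 := 67108864) (N0 := 3)
    rfl (fun _ => rfl) k0_pp_023

noncomputable def f_pp_033 : ℕ → ℕ → ℕ → ℕ → Bool := onCell 1610612736 536870912 0 1230186008 402653184 67108864
    (rowN 3 2 false true true .pnn 0 3 3 (qsf 0 536870912 0 1230186008 3) ndN3q0 ndN2q3 pcN3 Cut.none Ext.none)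

def k0_pp_033 : ∃ t, chk3 f_pp_033 t 1 1 1 = true :=
  ⟨(b (a (l 4) (l 4)) (b (a (a (l 17147144) (l 4)) (a (l 4) (b (a (l 4) (l 1)) (l 1)))) (a (b (a (a (l 16968392) (l 16978944)) (a (l 17071520) (l 17426408))) (a (a (l 16527024) (l 865469563591)) (b (a (l 16900848) (l 1)) (l 1)))) (l 1)))), by decide +kernel⟩

theorem c_pp_033 : CertN 0 536870912 0 1230186008 402653184 67108864 3 false true true .pnn 0 3 3
    ndN3q0 ndN2q3 pcN3 Cut.none Ext.none :=
  certN2 (fam := false) (s1 := true) (s2 := true) (a := 0) (b := 3) (c := 3) (cn := .pnn) (n1 := ndN3q0) (n2 := ndN2q3) (pc := pcN3) (cut := Cut.none) (xt := Ext.none) (P1 := 0) (W1 := 536870912) (P2 := 0) (W2 := 1230186008) (P3 := 402653184) (W3 := 67108864) (N0 := 3)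
    rfl (fun _ => rfl) k0_pp_033

noncomputable def f_pp_101 : ℕ → ℕ → ℕ → ℕ → Bool := onCell 536870912 536870912 536870912 536870912 402653184 67108864
    (rowN 3 0 false true true .npn 1 0 1 (qsf 536870912 536870912 536870912 536870912 0) ndN3q1 ndN2q1 pcN0 Cut.none Ext.none)

def k0_pp_101 : ∃ t, chk3 f_pp_101 t 1 1 1 = true :=
  ⟨(l 3), by decide +kernel⟩

theorem c_pp_101 : CertN 536870912 536870912 536870912 536870912 402653184 67108864 3 false true true .npn 1 0 1
    ndN3q1 ndN2q1 pcN0 Cut.none Ext.none :=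
  certN0 (fam := false) (s1 := true) (s2 := true) (a := 1) (b := 0) (c := 1) (cn := .npn) (n1 := ndN3q1) (n2 := ndN2q1) (pc := pcN0) (cut := Cut.none) (xt := Ext.none) (P1 := 536870912) (W1 := 536870912) (P2 := 536870912) (W2 := 536870912) (P3 := 402653184) (W3 := 67108864) (N0 := 3)
    rfl k0_pp_101

noncomputable def f_pp_102 : ℕ → ℕ → ℕ → ℕ → Bool := onCell 0 536870912 1073741824 536870912 402653184 67108864
    (rowN 3 2 false true true .npp 1 0 2 (qsf 536870912 536870912 1073741824 536870912 0) ndN3q1 ndN2q2 pcN0 Cut.none Ext.none)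

def k0_pp_102 : ∃ t, chk3 f_pp_102 t 1 1 1 = true :=
  ⟨(a (l 3) (b (a (l 3) (b (a (l 3) (b (l 3) (a (l 3) (l 16421688)))) (a (b (l 3) (l 250348924487)) (b (l 204714922951) (l 16407912))))) (b (a (l 3) (b (a (l 253033134199) (l 16468488)) (a (a (l 258938555415) (l 16246880)) (b (l 16522072) (l 16567008))))) (b (a (l 3) (a (b (l 222431129879) (l 211626562055)) (a (l 16557536) (l 16729672)))) (a (l 2) (a (b (l 16223472) (l 2)) (b (l 16737992) (l 16734608)))))))), by decide +kernel⟩

theorem c_pp_102 : CertN 536870912 536870912 1073741824 536870912 402653184 67108864 3 false true true .npp 1 0 2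
    ndN3q1 ndN2q2 pcN0 Cut.none Ext.none :=
  certN2 (fam := false) (s1 := true) (s2 := true) (a := 1) (b := 0) (c := 2) (cn := .npp) (n1 := ndN3q1) (n2 := ndN2q2) (pc := pcN0) (cut := Cut.none) (xt := Ext.none) (P1 := 536870912) (W1 := 536870912) (P2 := 1073741824) (W2 := 536870912) (P3 := 402653184) (W3 := 67108864) (N0 := 3)
    rfl (fun _ => rfl) k0_pp_102

noncomputable def f_pp_112 : ℕ → ℕ → ℕ → ℕ → Bool := onCell 536870912 536870912 1073741824 536870912 402653184 67108864
    (rowN 3 2 false true true .dn 1 1 2 (qsf 536870912 536870912 1073741824 536870912 1) ndN3q1 ndN2q2 pcN1 Cut.none Ext.none)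

def k0_pp_112 : ∃ t, chk3 f_pp_112 t 1 1 1 = true :=
  ⟨(a (b (a (b (a (b (a (b (l 575155996887) (l 16517360)) (l 199212144103)) (a (l 16529168) (l 16621640))) (b (l 286185684503) (l 16737440))) (a (b (l 16620352) (l 16678528)) (l 16821896))) (a (b (l 316251137671) (l 16943792)) (a (l 326451941015) (l 344705643127)))) (b (a (b (a (l 16746456) (l 16918896)) (a (l 16821424) (l 16986672))) (b (l 17074544) (l 17126912))) (a (b (a (l 16913704) (l 17063960)) (a (b (l 16988432) (l 17001152)) (l 17134280))) (b (l 17181304) (l 17232600))))) (b (a (b (l 1) (l 366180784775)) (l 1)) (b (a (b (l 17216768) (l 17247176)) (l 464428681511)) (a (b (l 17273424) (l 17294944)) (b (l 17439312) (l 17442504)))))), by decide +kernel⟩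

theorem c_pp_112 : CertN 536870912 536870912 1073741824 536870912 402653184 67108864 3 false true true .dn 1 1 2
    ndN3q1 ndN2q2 pcN1 Cut.none Ext.none :=
  certN2 (fam := false) (s1 := true) (s2 := true) (a := 1) (b := 1) (c := 2) (cn := .dn) (n1 := ndN3q1) (n2 := ndN2q2) (pc := pcN1) (cut := Cut.none) (xt := Ext.none) (P1 := 536870912) (W1 := 536870912) (P2 := 1073741824) (W2 := 536870912) (P3 := 402653184) (W3 := 67108864) (N0 := 3)
    rfl (fun _ => rfl) k0_pp_112

noncomputable def f_pp_113 : ℕ → ℕ → ℕ → ℕ → Bool := onCell 536870912 536870912 0 1230186008 402653184 67108864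
    (rowN 3 2 false true true .nn 1 1 3 (qsf 536870912 536870912 0 1230186008 1) ndN3q1 ndN2q3 pcN1 Cut.none Ext.none)

def k0_pp_113 : ∃ t, chk3 f_pp_113 t 1 1 1 = true :=
  ⟨(a (b (l 2) (b (a (l 2) (b (l 2) (l 563280081383))) (a (b (l 2) (a (b (l 2) (l 16700344)) (l 17009504))) (b (a (l 17263952) (l 17353136)) (a (l 17187760) (l 17283632)))))) (b (a (l 2) (l 16986040)) (b (a (b (l 17394224) (l 17417016)) (l 17304616)) (a (b (l 17391856) (l 17349616)) (b (l 17420352) (l 17445176)))))), by decide +kernel⟩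

theorem c_pp_113 : CertN 536870912 536870912 0 1230186008 402653184 67108864 3 false true true .nn 1 1 3
    ndN3q1 ndN2q3 pcN1 Cut.none Ext.none :=
  certN2 (fam := false) (s1 := true) (s2 := true) (a := 1) (b := 1) (c := 3) (cn := .nn) (n1 := ndN3q1) (n2 := ndN2q3) (pc := pcN1) (cut := Cut.none) (xt := Ext.none) (P1 := 536870912) (W1 := 536870912) (P2 := 0) (W2 := 1230186008) (P3 := 402653184) (W3 := 67108864) (N0 := 3)
    rfl (fun _ => rfl) k0_pp_113

noncomputable def f_pp_123 : ℕ → ℕ → ℕ → ℕ → Bool := onCell 1073741824 536870912 0 1230186008 402653184 67108864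
    (rowN 3 2 false true true .npn 1 2 3 (qsf 536870912 536870912 0 1230186008 2) ndN3q1 ndN2q3 pcN2 Cut.none Ext.none)

def k0_pp_123 : ∃ t, chk3 f_pp_123 t 1 1 1 = true :=
  ⟨(b (a (a (l 16910632) (l 16893720)) (a (l 16869304) (l 4))) (b (a (a (l 17297248) (l 17314496)) (a (l 17331704) (l 17212632))) (a (b (l 17544336) (l 17673872)) (l 1)))), by decide +kernel⟩

theorem c_pp_123 : CertN 536870912 536870912 0 1230186008 402653184 67108864 3 false true true .npn 1 2 3
    ndN3q1 ndN2q3 pcN2 Cut.none Ext.none :=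
  certN2 (fam := false) (s1 := true) (s2 := true) (a := 1) (b := 2) (c := 3) (cn := .npn) (n1 := ndN3q1) (n2 := ndN2q3) (pc := pcN2) (cut := Cut.none) (xt := Ext.none) (P1 := 536870912) (W1 := 536870912) (P2 := 0) (W2 := 1230186008) (P3 := 402653184) (W3 := 67108864) (N0 := 3)
    rfl (fun _ => rfl) k0_pp_123

noncomputable def f_pp_133 : ℕ → ℕ → ℕ → ℕ → Bool := onCell 1610612736 536870912 0 1230186008 402653184 67108864
    (rowN 3 2 false true true .dn 1 3 3 (qsf 536870912 536870912 0 1230186008 3) ndN3q1 ndN2q3 pcN3 Cut.none Ext.none)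

def k0_pp_133 : ∃ t, chk3 f_pp_133 t 1 1 1 = true :=
  ⟨(b (a (l 4) (l 1)) (l 1)), by decide +kernel⟩

theorem c_pp_133 : CertN 536870912 536870912 0 1230186008 402653184 67108864 3 false true true .dn 1 3 3
    ndN3q1 ndN2q3 pcN3 Cut.none Ext.none :=
  certN2 (fam := false) (s1 := true) (s2 := true) (a := 1) (b := 3) (c := 3) (cn := .dn) (n1 := ndN3q1) (n2 := ndN2q3) (pc := pcN3) (cut := Cut.none) (xt := Ext.none) (P1 := 536870912) (W1 := 536870912) (P2 := 0) (W2 := 1230186008) (P3 := 402653184) (W3 := 67108864) (N0 := 3)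
    rfl (fun _ => rfl) k0_pp_133

noncomputable def f_pp_202 : ℕ → ℕ → ℕ → ℕ → Bool := onCell 1073741824 536870912 1073741824 536870912 402653184 67108864
    (rowN 3 0 false true true .pp 2 0 2 (qsf 1073741824 536870912 1073741824 536870912 0) ndN3q2 ndN2q2 pcN0 Cut.none Ext.none)

def k0_pp_202 : ∃ t, chk3 f_pp_202 t 1 1 1 = true :=
  ⟨(l 3), by decide +kernel⟩

theorem c_pp_202 : CertN 1073741824 536870912 1073741824 536870912 402653184 67108864 3 false true true .pp 2 0 2
    ndN3q2 ndN2q2 pcN0 Cut.none Ext.none :=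
  certN0 (fam := false) (s1 := true) (s2 := true) (a := 2) (b := 0) (c := 2) (cn := .pp) (n1 := ndN3q2) (n2 := ndN2q2) (pc := pcN0) (cut := Cut.none) (xt := Ext.none) (P1 := 1073741824) (W1 := 536870912) (P2 := 1073741824) (W2 := 536870912) (P3 := 402653184) (W3 := 67108864) (N0 := 3)
    rfl k0_pp_202

noncomputable def f_pp_203 : ℕ → ℕ → ℕ → ℕ → Bool := onCell 0 536870912 0 1230186008 402653184 67108864
    (rowN 3 2 false true true .up 2 0 3 (qsf 1073741824 536870912 0 1230186008 0) ndN3q2 ndN2q3 pcN0 Cut.none Ext.none)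

def k0_pp_203 : ∃ t, chk3 f_pp_203 t 1 1 1 = true :=
  ⟨(b (a (l 2) (l 3)) (l 3)), by decide +kernel⟩

theorem c_pp_203 : CertN 1073741824 536870912 0 1230186008 402653184 67108864 3 false true true .up 2 0 3
    ndN3q2 ndN2q3 pcN0 Cut.none Ext.none :=
  certN2 (fam := false) (s1 := true) (s2 := true) (a := 2) (b := 0) (c := 3) (cn := .up) (n1 := ndN3q2) (n2 := ndN2q3) (pc := pcN0) (cut := Cut.none) (xt := Ext.none) (P1 := 1073741824) (W1 := 536870912) (P2 := 0) (W2 := 1230186008) (P3 := 402653184) (W3 := 67108864) (N0 := 3)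
    rfl (fun _ => rfl) k0_pp_203

noncomputable def f_pp_213 : ℕ → ℕ → ℕ → ℕ → Bool := onCell 536870912 536870912 0 1230186008 402653184 67108864
    (rowN 3 2 false true true .pnn 2 1 3 (qsf 1073741824 536870912 0 1230186008 1) ndN3q2 ndN2q3 pcN1 Cut.none Ext.none)

def k0_pp_213 : ∃ t, chk3 f_pp_213 t 1 1 1 = true :=
  ⟨(b (b (a (a (l 293837147111) (l 17140064)) (a (l 16966928) (l 16883096))) (a (a (l 3) (a (l 17019992) (l 17012400))) (a (a (l 17009232) (l 17006160)) (a (l 17006080) (l 16989736))))) (b (a (a (l 3) (b (l 3) (l 3))) (a (b (a (l 17098872) (l 17129496)) (a (l 571399779463) (l 17506000))) (b (l 671123469063) (l 1)))) (a (l 3) (l 1)))), by decide +kernel⟩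

theorem c_pp_213 : CertN 1073741824 536870912 0 1230186008 402653184 67108864 3 false true true .pnn 2 1 3
    ndN3q2 ndN2q3 pcN1 Cut.none Ext.none :=
  certN2 (fam := false) (s1 := true) (s2 := true) (a := 2) (b := 1) (c := 3) (cn := .pnn) (n1 := ndN3q2) (n2 := ndN2q3) (pc := pcN1) (cut := Cut.none) (xt := Ext.none) (P1 := 1073741824) (W1 := 536870912) (P2 := 0) (W2 := 1230186008) (P3 := 402653184) (W3 := 67108864) (N0 := 3)
    rfl (fun _ => rfl) k0_pp_213

noncomputable def f_pp_303 : ℕ → ℕ → ℕ → ℕ → Bool := onCell 0 1230186008 0 1230186008 402653184 67108864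
    (rowN 3 0 false true true .npn 3 0 3 (qsf 0 1230186008 0 1230186008 0) ndN3q3 ndN2q3 pcN0 Cut.none Ext.none)

def k0_pp_303 : ∃ t, chk3 f_pp_303 t 1 1 1 = true :=
  ⟨(a (b (l 3) (l 3)) (b (l 3) (l 3))), by decide +kernel⟩

theorem c_pp_303 : CertN 0 1230186008 0 1230186008 402653184 67108864 3 false true true .npn 3 0 3
    ndN3q3 ndN2q3 pcN0 Cut.none Ext.none :=
  certN0 (fam := false) (s1 := true) (s2 := true) (a := 3) (b := 0) (c := 3) (cn := .npn) (n1 := ndN3q3) (n2 := ndN2q3) (pc := pcN0) (cut := Cut.none) (xt := Ext.none) (P1 := 0) (W1 := 1230186008) (P2 := 0) (W2 := 1230186008) (P3 := 402653184) (W3 := 67108864) (N0 := 3)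
    rfl k0_pp_303

noncomputable def f_pp_313 : ℕ → ℕ → ℕ → ℕ → Bool := onCell 0 1230186008 0 1230186008 402653184 67108864
    (rowN 3 0 false true true .dn 3 1 3 (qsf 0 1230186008 0 1230186008 1) ndN3q3 ndN2q3 pcN1 Cut.none Ext.none)

def k0_pp_313 : ∃ t, chk3 f_pp_313 t 1 1 1 = true :=
  ⟨(a (l 1) (b (l 3) (l 1))), by decide +kernel⟩

theorem c_pp_313 : CertN 0 1230186008 0 1230186008 402653184 67108864 3 false true true .dn 3 1 3
    ndN3q3 ndN2q3 pcN1 Cut.none Ext.none :=
  certN0 (fam := false) (s1 := true) (s2 := true) (a := 3) (b := 1) (c := 3) (cn := .dn) (n1 := ndN3q3) (n2 := ndN2q3) (pc := pcN1) (cut := Cut.none) (xt := Ext.none) (P1 := 0) (W1 := 1230186008) (P2 := 0) (W2 := 1230186008) (P3 := 402653184) (W3 := 67108864) (N0 := 3)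
    rfl k0_pp_313

noncomputable def f_pm_001 : ℕ → ℕ → ℕ → ℕ → Bool := onCell 0 536870912 536870912 536870912 402653184 67108864
    (rowN 3 0 false true false .up 0 0 1 (qsf 0 536870912 536870912 536870912 0) ndN3q0 ndN2q1 pcN0 Cut.none Ext.none)

def k0_pm_001 : ∃ t, chk3 f_pm_001 t 1 1 1 = true :=
  ⟨(l 4), by decide +kernel⟩

theorem c_pm_001 : CertN 0 536870912 536870912 536870912 402653184 67108864 3 false true false .up 0 0 1
    ndN3q0 ndN2q1 pcN0 Cut.none Ext.none :=
  certN0 (fam := false) (s1 := true) (s2 := false) (a := 0) (b := 0) (c := 1) (cn := .up) (n1 := ndN3q0) (n2 := ndN2q1) (pc := pcN0) (cut := Cut.none) (xt := Ext.none) (P1 := 0) (W1 := 536870912) (P2 := 536870912) (W2 := 536870912) (P3 := 402653184) (W3 := 67108864) (N0 := 3)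
    rfl k0_pm_001

noncomputable def f_pm_011 : ℕ → ℕ → ℕ → ℕ → Bool := onCell 0 536870912 536870912 536870912 402653184 67108864
    (rowN 3 0 false true false .pnn 0 1 1 (qsf 0 536870912 536870912 536870912 1) ndN3q0 ndN2q1 pcN1 Cut.none Ext.none)

def k0_pm_011 : ∃ t, chk3 f_pm_011 t 1 1 1 = true :=
  ⟨(l 4), by decide +kernel⟩

theorem c_pm_011 : CertN 0 536870912 536870912 536870912 402653184 67108864 3 false true false .pnn 0 1 1
    ndN3q0 ndN2q1 pcN1 Cut.none Ext.none :=
  certN0 (fam := false) (s1 := true) (s2 := false) (a := 0) (b := 1) (c := 1) (cn := .pnn) (n1 := ndN3q0) (n2 := ndN2q1) (pc := pcN1) (cut := Cut.none) (xt := Ext.none) (P1 := 0) (W1 := 536870912) (P2 := 536870912) (W2 := 536870912) (P3 := 402653184) (W3 := 67108864) (N0 := 3)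
    rfl k0_pm_011

noncomputable def f_pm_012 : ℕ → ℕ → ℕ → ℕ → Bool := onCell 0 536870912 1073741824 536870912 402653184 67108864
    (rowN 3 0 false true false .pnp 0 1 2 (qsf 0 536870912 1073741824 536870912 1) ndN3q0 ndN2q2 pcN1 Cut.none Ext.none)

def k0_pm_012 : ∃ t, chk3 f_pm_012 t 1 1 1 = true :=
  ⟨(l 4), by decide +kernel⟩

theorem c_pm_012 : CertN 0 536870912 1073741824 536870912 402653184 67108864 3 false true false .pnp 0 1 2
    ndN3q0 ndN2q2 pcN1 Cut.none Ext.none :=
  certN0 (fam := false) (s1 := true) (s2 := false) (a := 0) (b := 1) (c := 2) (cn := .pnp) (n1 := ndN3q0) (n2 := ndN2q2) (pc := pcN1) (cut := Cut.none) (xt := Ext.none) (P1 := 0) (W1 := 536870912) (P2 := 1073741824) (W2 := 536870912) (P3 := 402653184) (W3 := 67108864) (N0 := 3)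
    rfl k0_pm_012

noncomputable def f_pm_022 : ℕ → ℕ → ℕ → ℕ → Bool := onCell 0 536870912 1073741824 536870912 402653184 67108864
    (rowN 3 0 false true false .pp 0 2 2 (qsf 0 536870912 1073741824 536870912 2) ndN3q0 ndN2q2 pcN2 Cut.none Ext.none)

def k0_pm_022 : ∃ t, chk3 f_pm_022 t 1 1 1 = true :=
  ⟨(l 4), by decide +kernel⟩

theorem c_pm_022 : CertN 0 536870912 1073741824 536870912 402653184 67108864 3 false true false .pp 0 2 2
    ndN3q0 ndN2q2 pcN2 Cut.none Ext.none :=
  certN0 (fam := false) (s1 := true) (s2 := false) (a := 0) (b := 2) (c := 2) (cn := .pp) (n1 := ndN3q0) (n2 := ndN2q2) (pc := pcN2) (cut := Cut.none) (xt := Ext.none) (P1 := 0) (W1 := 536870912) (P2 := 1073741824) (W2 := 536870912) (P3 := 402653184) (W3 := 67108864) (N0 := 3)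
    rfl k0_pm_022

noncomputable def f_pm_023 : ℕ → ℕ → ℕ → ℕ → Bool := onCell 0 536870912 0 1230186008 402653184 67108864
    (rowN 3 0 false true false .up 0 2 3 (qsf 0 536870912 0 1230186008 2) ndN3q0 ndN2q3 pcN2 Cut.none Ext.none)

def k0_pm_023 : ∃ t, chk3 f_pm_023 t 1 1 1 = true :=
  ⟨(b (l 4) (l 4)), by decide +kernel⟩

theorem c_pm_023 : CertN 0 536870912 0 1230186008 402653184 67108864 3 false true false .up 0 2 3
    ndN3q0 ndN2q3 pcN2 Cut.none Ext.none :=
  certN0 (fam := false) (s1 := true) (s2 := false) (a := 0) (b := 2) (c := 3) (cn := .up) (n1 := ndN3q0) (n2 := ndN2q3) (pc := pcN2) (cut := Cut.none) (xt := Ext.none) (P1 := 0) (W1 := 536870912) (P2 := 0) (W2 := 1230186008) (P3 := 402653184) (W3 := 67108864) (N0 := 3)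
    rfl k0_pm_023

noncomputable def f_pm_033 : ℕ → ℕ → ℕ → ℕ → Bool := onCell 0 536870912 0 1230186008 402653184 67108864
    (rowN 3 0 false true false .pnn 0 3 3 (qsf 0 536870912 0 1230186008 3) ndN3q0 ndN2q3 pcN3 Cut.none Ext.none)

def k0_pm_033 : ∃ t, chk3 f_pm_033 t 1 1 1 = true :=
  ⟨(b (l 4) (l 4)), by decide +kernel⟩

theorem c_pm_033 : CertN 0 536870912 0 1230186008 402653184 67108864 3 false true false .pnn 0 3 3
    ndN3q0 ndN2q3 pcN3 Cut.none Ext.none :=
  certN0 (fam := false) (s1 := true) (s2 := false) (a := 0) (b := 3) (c := 3) (cn := .pnn) (n1 := ndN3q0) (n2 := ndN2q3) (pc := pcN3) (cut := Cut.none) (xt := Ext.none) (P1 := 0) (W1 := 536870912) (P2 := 0) (W2 := 1230186008) (P3 := 402653184) (W3 := 67108864) (N0 := 3)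
    rfl k0_pm_033

noncomputable def f_pm_101 : ℕ → ℕ → ℕ → ℕ → Bool := onCell 536870912 536870912 536870912 536870912 402653184 67108864
    (rowN 3 0 false true false .npn 1 0 1 (qsf 536870912 536870912 536870912 536870912 0) ndN3q1 ndN2q1 pcN0 Cut.none Ext.none)

def k0_pm_101 : ∃ t, chk3 f_pm_101 t 1 1 1 = true :=
  ⟨(l 4), by decide +kernel⟩

theorem c_pm_101 : CertN 536870912 536870912 536870912 536870912 402653184 67108864 3 false true false .npn 1 0 1
    ndN3q1 ndN2q1 pcN0 Cut.none Ext.none :=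
  certN0 (fam := false) (s1 := true) (s2 := false) (a := 1) (b := 0) (c := 1) (cn := .npn) (n1 := ndN3q1) (n2 := ndN2q1) (pc := pcN0) (cut := Cut.none) (xt := Ext.none) (P1 := 536870912) (W1 := 536870912) (P2 := 536870912) (W2 := 536870912) (P3 := 402653184) (W3 := 67108864) (N0 := 3)
    rfl k0_pm_101

noncomputable def f_pm_102 : ℕ → ℕ → ℕ → ℕ → Bool := onCell 536870912 536870912 1073741824 536870912 402653184 67108864
    (rowN 3 0 false true false .npp 1 0 2 (qsf 536870912 536870912 1073741824 536870912 0) ndN3q1 ndN2q2 pcN0 Cut.none Ext.none)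

def k0_pm_102 : ∃ t, chk3 f_pm_102 t 1 1 1 = true :=
  ⟨(l 4), by decide +kernel⟩

theorem c_pm_102 : CertN 536870912 536870912 1073741824 536870912 402653184 67108864 3 false true false .npp 1 0 2
    ndN3q1 ndN2q2 pcN0 Cut.none Ext.none :=
  certN0 (fam := false) (s1 := true) (s2 := false) (a := 1) (b := 0) (c := 2) (cn := .npp) (n1 := ndN3q1) (n2 := ndN2q2) (pc := pcN0) (cut := Cut.none) (xt := Ext.none) (P1 := 536870912) (W1 := 536870912) (P2 := 1073741824) (W2 := 536870912) (P3 := 402653184) (W3 := 67108864) (N0 := 3)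
    rfl k0_pm_102

noncomputable def f_pm_112 : ℕ → ℕ → ℕ → ℕ → Bool := onCell 536870912 536870912 1073741824 536870912 402653184 67108864
    (rowN 3 0 false true false .dn 1 1 2 (qsf 536870912 536870912 1073741824 536870912 1) ndN3q1 ndN2q2 pcN1 Cut.none Ext.none)

def k0_pm_112 : ∃ t, chk3 f_pm_112 t 1 1 1 = true :=
  ⟨(l 4), by decide +kernel⟩

theorem c_pm_112 : CertN 536870912 536870912 1073741824 536870912 402653184 67108864 3 false true false .dn 1 1 2
    ndN3q1 ndN2q2 pcN1 Cut.none Ext.none :=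
  certN0 (fam := false) (s1 := true) (s2 := false) (a := 1) (b := 1) (c := 2) (cn := .dn) (n1 := ndN3q1) (n2 := ndN2q2) (pc := pcN1) (cut := Cut.none) (xt := Ext.none) (P1 := 536870912) (W1 := 536870912) (P2 := 1073741824) (W2 := 536870912) (P3 := 402653184) (W3 := 67108864) (N0 := 3)
    rfl k0_pm_112

noncomputable def f_pm_113 : ℕ → ℕ → ℕ → ℕ → Bool := onCell 536870912 536870912 0 1230186008 402653184 67108864
    (rowN 3 0 false true false .nn 1 1 3 (qsf 536870912 536870912 0 1230186008 1) ndN3q1 ndN2q3 pcN1 Cut.none Ext.none)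

def k0_pm_113 : ∃ t, chk3 f_pm_113 t 1 1 1 = true :=
  ⟨(b (a (l 2) (b (a (l 2) (l 16829608)) (l 4))) (l 4)), by decide +kernel⟩

theorem c_pm_113 : CertN 536870912 536870912 0 1230186008 402653184 67108864 3 false true false .nn 1 1 3
    ndN3q1 ndN2q3 pcN1 Cut.none Ext.none :=
  certN0 (fam := false) (s1 := true) (s2 := false) (a := 1) (b := 1) (c := 3) (cn := .nn) (n1 := ndN3q1) (n2 := ndN2q3) (pc := pcN1) (cut := Cut.none) (xt := Ext.none) (P1 := 536870912) (W1 := 536870912) (P2 := 0) (W2 := 1230186008) (P3 := 402653184) (W3 := 67108864) (N0 := 3)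
    rfl k0_pm_113

noncomputable def f_pm_123 : ℕ → ℕ → ℕ → ℕ → Bool := onCell 1073741824 536870912 0 1230186008 402653184 67108864
    (rowN 3 2 false true false .npn 1 2 3 (qsf 536870912 536870912 0 1230186008 2) ndN3q1 ndN2q3 pcN2 Cut.none Ext.none)

def k0_pm_123 : ∃ t, chk3 f_pm_123 t 1 1 1 = true :=
  ⟨(b (a (a (l 16923288) (l 4)) (l 4)) (l 4)), by decide +kernel⟩

theorem c_pm_123 : CertN 536870912 536870912 0 1230186008 402653184 67108864 3 false true false .npn 1 2 3
    ndN3q1 ndN2q3 pcN2 Cut.none Ext.none :=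
  certN2 (fam := false) (s1 := true) (s2 := false) (a := 1) (b := 2) (c := 3) (cn := .npn) (n1 := ndN3q1) (n2 := ndN2q3) (pc := pcN2) (cut := Cut.none) (xt := Ext.none) (P1 := 536870912) (W1 := 536870912) (P2 := 0) (W2 := 1230186008) (P3 := 402653184) (W3 := 67108864) (N0 := 3)
    rfl (fun _ => rfl) k0_pm_123

noncomputable def f_pm_133 : ℕ → ℕ → ℕ → ℕ → Bool := onCell 1610612736 536870912 0 1230186008 402653184 67108864
    (rowN 3 2 false true false .dn 1 3 3 (qsf 536870912 536870912 0 1230186008 3) ndN3q1 ndN2q3 pcN3 Cut.none Ext.none)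

def k0_pm_133 : ∃ t, chk3 f_pm_133 t 1 1 1 = true :=
  ⟨(b (l 4) (l 1)), by decide +kernel⟩

theorem c_pm_133 : CertN 536870912 536870912 0 1230186008 402653184 67108864 3 false true false .dn 1 3 3
    ndN3q1 ndN2q3 pcN3 Cut.none Ext.none :=
  certN2 (fam := false) (s1 := true) (s2 := false) (a := 1) (b := 3) (c := 3) (cn := .dn) (n1 := ndN3q1) (n2 := ndN2q3) (pc := pcN3) (cut := Cut.none) (xt := Ext.none) (P1 := 536870912) (W1 := 536870912) (P2 := 0) (W2 := 1230186008) (P3 := 402653184) (W3 := 67108864) (N0 := 3)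
    rfl (fun _ => rfl) k0_pm_133

noncomputable def f_pm_202 : ℕ → ℕ → ℕ → ℕ → Bool := onCell 0 536870912 1073741824 536870912 402653184 67108864
    (rowN 3 2 false true false .pp 2 0 2 (qsf 1073741824 536870912 1073741824 536870912 0) ndN3q2 ndN2q2 pcN0 Cut.none Ext.none)

def k0_pm_202 : ∃ t, chk3 f_pm_202 t 1 1 1 = true :=
  ⟨(a (b (a (b (a (b (l 529389885287) (l 17213936)) (b (l 601330958087) (l 17369104))) (a (l 17060264) (l 17267792))) (a (b (l 593814611671) (l 267396916439)) (b (l 1) (l 528853337639)))) (b (a (b (l 16890808) (l 16664696)) (b (l 17219504) (l 17062704))) (a (b (l 16318168) (l 16406960)) (b (l 16850416) (l 16642616))))) (b (a (b (l 1) (l 510601462951)) (l 1)) (b (a (b (l 17948160) (l 17657264)) (b (l 1) (l 17931312))) (a (b (l 17392016) (l 17173632)) (b (l 17950888) (l 17773104)))))), by decide +kernel⟩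

theorem c_pm_202 : CertN 1073741824 536870912 1073741824 536870912 402653184 67108864 3 false true false .pp 2 0 2
    ndN3q2 ndN2q2 pcN0 Cut.none Ext.none :=
  certN2 (fam := false) (s1 := true) (s2 := false) (a := 2) (b := 0) (c := 2) (cn := .pp) (n1 := ndN3q2) (n2 := ndN2q2) (pc := pcN0) (cut := Cut.none) (xt := Ext.none) (P1 := 1073741824) (W1 := 536870912) (P2 := 1073741824) (W2 := 536870912) (P3 := 402653184) (W3 := 67108864) (N0 := 3)
    rfl (fun _ => rfl) k0_pm_202

noncomputable def f_pm_203 : ℕ → ℕ → ℕ → ℕ → Bool := onCell 0 536870912 0 1230186008 402653184 67108864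
    (rowN 3 2 false true false .up 2 0 3 (qsf 1073741824 536870912 0 1230186008 0) ndN3q2 ndN2q3 pcN0 Cut.none Ext.none)

def k0_pm_203 : ∃ t, chk3 f_pm_203 t 1 1 1 = true :=
  ⟨(b (a (l 2) (a (l 2) (b (l 3) (a (l 17090056) (l 17094424))))) (a (b (a (l 2) (b (l 2) (b (l 2) (l 17242344)))) (a (b (l 2) (b (l 344771991255) (l 16391248))) (b (b (l 17070840) (l 16978408)) (b (l 16860816) (l 16853808))))) (b (a (b (l 17379160) (a (l 17126344) (l 17126288))) (b (l 17126544) (l 17128760))) (b (a (l 17076016) (l 17161504)) (a (b (l 17093736) (l 17303160)) (b (l 17334976) (l 17751296))))))), by decide +kernel⟩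

theorem c_pm_203 : CertN 1073741824 536870912 0 1230186008 402653184 67108864 3 false true false .up 2 0 3
    ndN3q2 ndN2q3 pcN0 Cut.none Ext.none :=
  certN2 (fam := false) (s1 := true) (s2 := false) (a := 2) (b := 0) (c := 3) (cn := .up) (n1 := ndN3q2) (n2 := ndN2q3) (pc := pcN0) (cut := Cut.none) (xt := Ext.none) (P1 := 1073741824) (W1 := 536870912) (P2 := 0) (W2 := 1230186008) (P3 := 402653184) (W3 := 67108864) (N0 := 3)
    rfl (fun _ => rfl) k0_pm_203

noncomputable def f_pm_213 : ℕ → ℕ → ℕ → ℕ → Bool := onCell 536870912 536870912 0 1230186008 402653184 67108864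
    (rowN 3 2 false true false .pnn 2 1 3 (qsf 1073741824 536870912 0 1230186008 1) ndN3q2 ndN2q3 pcN1 Cut.none Ext.none)

def k0_pm_213 : ∃ t, chk3 f_pm_213 t 1 1 1 = true :=
  ⟨(b (b (a (a (a (l 17034888) (l 17023864)) (l 17015136)) (a (l 16982648) (l 16881432))) (a (a (a (l 17094112) (l 17086368)) (b (l 17058560) (a (l 17104176) (l 17081616)))) (a (b (l 17009264) (l 17030248)) (a (l 16972496) (l 16926624))))) (b (a (a (a (b (l 17360496) (l 17130568)) (b (l 17122848) (l 17154040))) (b (l 17305480) (l 17217264))) (a (b (l 17100152) (l 17246936)) (b (l 17132760) (l 1)))) (a (a (a (b (l 17411392) (b (l 17597744) (l 17595664))) (b (l 17526600) (l 17557576))) (b (l 138011151815) (a (l 17574888) (l 1)))) (l 1)))), by decide +kernel⟩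

theorem c_pm_213 : CertN 1073741824 536870912 0 1230186008 402653184 67108864 3 false true false .pnn 2 1 3
    ndN3q2 ndN2q3 pcN1 Cut.none Ext.none :=
  certN2 (fam := false) (s1 := true) (s2 := false) (a := 2) (b := 1) (c := 3) (cn := .pnn) (n1 := ndN3q2) (n2 := ndN2q3) (pc := pcN1) (cut := Cut.none) (xt := Ext.none) (P1 := 1073741824) (W1 := 536870912) (P2 := 0) (W2 := 1230186008) (P3 := 402653184) (W3 := 67108864) (N0 := 3)
    rfl (fun _ => rfl) k0_pm_213

noncomputable def f_pm_303 : ℕ → ℕ → ℕ → ℕ → Bool := onCell 0 1230186008 0 1230186008 402653184 67108864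
    (rowN 3 0 false true false .npn 3 0 3 (qsf 0 1230186008 0 1230186008 0) ndN3q3 ndN2q3 pcN0 Cut.none Ext.none)

def k0_pm_303 : ∃ t, chk3 f_pm_303 t 1 1 1 = true :=
  ⟨(a (b (l 3) (b (l 3) (l 1))) (b (a (l 3) (a (l 3) (b (l 3) (a (l 3) (b (l 3) (l 17127632)))))) (a (b (l 3) (b (b (l 3) (l 1)) (l 1))) (b (a (b (l 3) (a (l 3) (b (l 3) (l 17123496)))) (a (b (l 17147608) (b (l 17153760) (l 17135792))) (b (l 17154536) (b (l 17157936) (l 17134920))))) (a (b (b (a (l 17055832) (l 17060656)) (a (l 434899839431) (l 16918008))) (a (l 1) (b (b (l 16763728) (l 1)) (l 1)))) (b (a (b (l 17071480) (l 16928592)) (b (l 17082584) (l 16953992))) (b (a (l 16673904) (l 16716736)) (a (l 454762669751) (l 16247912))))))))), by decide +kernel⟩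

theorem c_pm_303 : CertN 0 1230186008 0 1230186008 402653184 67108864 3 false true false .npn 3 0 3
    ndN3q3 ndN2q3 pcN0 Cut.none Ext.none :=
  certN0 (fam := false) (s1 := true) (s2 := false) (a := 3) (b := 0) (c := 3) (cn := .npn) (n1 := ndN3q3) (n2 := ndN2q3) (pc := pcN0) (cut := Cut.none) (xt := Ext.none) (P1 := 0) (W1 := 1230186008) (P2 := 0) (W2 := 1230186008) (P3 := 402653184) (W3 := 67108864) (N0 := 3)
    rfl k0_pm_303

noncomputable def f_pm_313 : ℕ → ℕ → ℕ → ℕ → Bool := onCell 0 1230186008 0 1230186008 402653184 67108864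
    (rowN 3 0 false true false .dn 3 1 3 (qsf 0 1230186008 0 1230186008 1) ndN3q3 ndN2q3 pcN1 Cut.none Ext.none)

def k0_pm_313 : ∃ t, chk3 f_pm_313 t 1 1 1 = true :=
  ⟨(a (l 1) (b (b (l 3) (l 1)) (l 1))), by decide +kernel⟩

theorem c_pm_313 : CertN 0 1230186008 0 1230186008 402653184 67108864 3 false true false .dn 3 1 3
    ndN3q3 ndN2q3 pcN1 Cut.none Ext.none :=
  certN0 (fam := false) (s1 := true) (s2 := false) (a := 3) (b := 1) (c := 3) (cn := .dn) (n1 := ndN3q3) (n2 := ndN2q3) (pc := pcN1) (cut := Cut.none) (xt := Ext.none) (P1 := 0) (W1 := 1230186008) (P2 := 0) (W2 := 1230186008) (P3 := 402653184) (W3 := 67108864) (N0 := 3)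
    rfl k0_pm_313

noncomputable def f_mm_001 : ℕ → ℕ → ℕ → ℕ → Bool := onCell 0 536870912 536870912 536870912 402653184 67108864
    (rowN 3 0 false false false .up 0 0 1 (qsf 0 536870912 536870912 536870912 0) ndN3q0 ndN2q1 pcN0 Cut.none Ext.none)

def k0_mm_001 : ∃ t, chk3 f_mm_001 t 1 1 1 = true :=
  ⟨(l 3), by decide +kernel⟩

theorem c_mm_001 : CertN 0 536870912 536870912 536870912 402653184 67108864 3 false false false .up 0 0 1
    ndN3q0 ndN2q1 pcN0 Cut.none Ext.none :=
  certN0 (fam := false) (s1 := false) (s2 := false) (a := 0) (b := 0) (c := 1) (cn := .up) (n1 := ndN3q0) (n2 := ndN2q1) (pc := pcN0) (cut := Cut.none) (xt := Ext.none) (P1 := 0) (W1 := 536870912) (P2 := 536870912) (W2 := 536870912) (P3 := 402653184) (W3 := 67108864) (N0 := 3)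
    rfl k0_mm_001

noncomputable def f_mm_011 : ℕ → ℕ → ℕ → ℕ → Bool := onCell 0 536870912 536870912 536870912 402653184 67108864
    (rowN 3 0 false false false .pnn 0 1 1 (qsf 0 536870912 536870912 536870912 1) ndN3q0 ndN2q1 pcN1 Cut.none Ext.none)

def k0_mm_011 : ∃ t, chk3 f_mm_011 t 1 1 1 = true :=
  ⟨(l 3), by decide +kernel⟩

theorem c_mm_011 : CertN 0 536870912 536870912 536870912 402653184 67108864 3 false false false .pnn 0 1 1
    ndN3q0 ndN2q1 pcN1 Cut.none Ext.none :=
  certN0 (fam := false) (s1 := false) (s2 := false) (a := 0) (b := 1) (c := 1) (cn := .pnn) (n1 := ndN3q0) (n2 := ndN2q1) (pc := pcN1) (cut := Cut.none) (xt := Ext.none) (P1 := 0) (W1 := 536870912) (P2 := 536870912) (W2 := 536870912) (P3 := 402653184) (W3 := 67108864) (N0 := 3)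
    rfl k0_mm_011

noncomputable def f_mm_012 : ℕ → ℕ → ℕ → ℕ → Bool := onCell 0 536870912 1073741824 536870912 402653184 67108864
    (rowN 3 0 false false false .pnp 0 1 2 (qsf 0 536870912 1073741824 536870912 1) ndN3q0 ndN2q2 pcN1 Cut.none Ext.none)

def k0_mm_012 : ∃ t, chk3 f_mm_012 t 1 1 1 = true :=
  ⟨(l 5), by decide +kernel⟩

theorem c_mm_012 : CertN 0 536870912 1073741824 536870912 402653184 67108864 3 false false false .pnp 0 1 2
    ndN3q0 ndN2q2 pcN1 Cut.none Ext.none :=
  certN0 (fam := false) (s1 := false) (s2 := false) (a := 0) (b := 1) (c := 2) (cn := .pnp) (n1 := ndN3q0) (n2 := ndN2q2) (pc := pcN1) (cut := Cut.none) (xt := Ext.none) (P1 := 0) (W1 := 536870912) (P2 := 1073741824) (W2 := 536870912) (P3 := 402653184) (W3 := 67108864) (N0 := 3)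
    rfl k0_mm_012

noncomputable def f_mm_022 : ℕ → ℕ → ℕ → ℕ → Bool := onCell 0 536870912 1073741824 536870912 402653184 67108864
    (rowN 3 0 false false false .pp 0 2 2 (qsf 0 536870912 1073741824 536870912 2) ndN3q0 ndN2q2 pcN2 Cut.none Ext.none)

def k0_mm_022 : ∃ t, chk3 f_mm_022 t 1 1 1 = true :=
  ⟨(l 5), by decide +kernel⟩

theorem c_mm_022 : CertN 0 536870912 1073741824 536870912 402653184 67108864 3 false false false .pp 0 2 2
    ndN3q0 ndN2q2 pcN2 Cut.none Ext.none :=
  certN0 (fam := false) (s1 := false) (s2 := false) (a := 0) (b := 2) (c := 2) (cn := .pp) (n1 := ndN3q0) (n2 := ndN2q2) (pc := pcN2) (cut := Cut.none) (xt := Ext.none) (P1 := 0) (W1 := 536870912) (P2 := 1073741824) (W2 := 536870912) (P3 := 402653184) (W3 := 67108864) (N0 := 3)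
    rfl k0_mm_022

noncomputable def f_mm_023 : ℕ → ℕ → ℕ → ℕ → Bool := onCell 0 536870912 0 1230186008 402653184 67108864
    (rowN 3 0 false false false .up 0 2 3 (qsf 0 536870912 0 1230186008 2) ndN3q0 ndN2q3 pcN2 Cut.none Ext.none)

def k0_mm_023 : ∃ t, chk3 f_mm_023 t 1 1 1 = true :=
  ⟨(l 5), by decide +kernel⟩

theorem c_mm_023 : CertN 0 536870912 0 1230186008 402653184 67108864 3 false false false .up 0 2 3
    ndN3q0 ndN2q3 pcN2 Cut.none Ext.none :=
  certN0 (fam := false) (s1 := false) (s2 := false) (a := 0) (b := 2) (c := 3) (cn := .up) (n1 := ndN3q0) (n2 := ndN2q3) (pc := pcN2) (cut := Cut.none) (xt := Ext.none) (P1 := 0) (W1 := 536870912) (P2 := 0) (W2 := 1230186008) (P3 := 402653184) (W3 := 67108864) (N0 := 3)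
    rfl k0_mm_023

noncomputable def f_mm_033 : ℕ → ℕ → ℕ → ℕ → Bool := onCell 0 536870912 0 1230186008 402653184 67108864
    (rowN 3 0 false false false .pnn 0 3 3 (qsf 0 536870912 0 1230186008 3) ndN3q0 ndN2q3 pcN3 Cut.none Ext.none)

def k0_mm_033 : ∃ t, chk3 f_mm_033 t 1 1 1 = true :=
  ⟨(l 5), by decide +kernel⟩

theorem c_mm_033 : CertN 0 536870912 0 1230186008 402653184 67108864 3 false false false .pnn 0 3 3
    ndN3q0 ndN2q3 pcN3 Cut.none Ext.none :=
  certN0 (fam := false) (s1 := false) (s2 := false) (a := 0) (b := 3) (c := 3) (cn := .pnn) (n1 := ndN3q0) (n2 := ndN2q3) (pc := pcN3) (cut := Cut.none) (xt := Ext.none) (P1 := 0) (W1 := 536870912) (P2 := 0) (W2 := 1230186008) (P3 := 402653184) (W3 := 67108864) (N0 := 3)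
    rfl k0_mm_033

noncomputable def f_mm_101 : ℕ → ℕ → ℕ → ℕ → Bool := onCell 536870912 536870912 536870912 536870912 402653184 67108864
    (rowN 3 0 false false false .npn 1 0 1 (qsf 536870912 536870912 536870912 536870912 0) ndN3q1 ndN2q1 pcN0 Cut.none Ext.none)

def k0_mm_101 : ∃ t, chk3 f_mm_101 t 1 1 1 = true :=
  ⟨(l 3), by decide +kernel⟩

theorem c_mm_101 : CertN 536870912 536870912 536870912 536870912 402653184 67108864 3 false false false .npn 1 0 1
    ndN3q1 ndN2q1 pcN0 Cut.none Ext.none :=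
  certN0 (fam := false) (s1 := false) (s2 := false) (a := 1) (b := 0) (c := 1) (cn := .npn) (n1 := ndN3q1) (n2 := ndN2q1) (pc := pcN0) (cut := Cut.none) (xt := Ext.none) (P1 := 536870912) (W1 := 536870912) (P2 := 536870912) (W2 := 536870912) (P3 := 402653184) (W3 := 67108864) (N0 := 3)
    rfl k0_mm_101

noncomputable def f_mm_102 : ℕ → ℕ → ℕ → ℕ → Bool := onCell 536870912 536870912 1073741824 536870912 402653184 67108864
    (rowN 3 0 false false false .npp 1 0 2 (qsf 536870912 536870912 1073741824 536870912 0) ndN3q1 ndN2q2 pcN0 Cut.none Ext.none)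

def k0_mm_102 : ∃ t, chk3 f_mm_102 t 1 1 1 = true :=
  ⟨(l 5), by decide +kernel⟩

theorem c_mm_102 : CertN 536870912 536870912 1073741824 536870912 402653184 67108864 3 false false false .npp 1 0 2
    ndN3q1 ndN2q2 pcN0 Cut.none Ext.none :=
  certN0 (fam := false) (s1 := false) (s2 := false) (a := 1) (b := 0) (c := 2) (cn := .npp) (n1 := ndN3q1) (n2 := ndN2q2) (pc := pcN0) (cut := Cut.none) (xt := Ext.none) (P1 := 536870912) (W1 := 536870912) (P2 := 1073741824) (W2 := 536870912) (P3 := 402653184) (W3 := 67108864) (N0 := 3)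
    rfl k0_mm_102

noncomputable def f_mm_112 : ℕ → ℕ → ℕ → ℕ → Bool := onCell 536870912 536870912 1073741824 536870912 402653184 67108864
    (rowN 3 0 false false false .dn 1 1 2 (qsf 536870912 536870912 1073741824 536870912 1) ndN3q1 ndN2q2 pcN1 Cut.none Ext.none)

def k0_mm_112 : ∃ t, chk3 f_mm_112 t 1 1 1 = true :=
  ⟨(l 5), by decide +kernel⟩

theorem c_mm_112 : CertN 536870912 536870912 1073741824 536870912 402653184 67108864 3 false false false .dn 1 1 2
    ndN3q1 ndN2q2 pcN1 Cut.none Ext.none :=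
  certN0 (fam := false) (s1 := false) (s2 := false) (a := 1) (b := 1) (c := 2) (cn := .dn) (n1 := ndN3q1) (n2 := ndN2q2) (pc := pcN1) (cut := Cut.none) (xt := Ext.none) (P1 := 536870912) (W1 := 536870912) (P2 := 1073741824) (W2 := 536870912) (P3 := 402653184) (W3 := 67108864) (N0 := 3)
    rfl k0_mm_112

noncomputable def f_mm_113 : ℕ → ℕ → ℕ → ℕ → Bool := onCell 536870912 536870912 0 1230186008 402653184 67108864
    (rowN 3 0 false false false .nn 1 1 3 (qsf 536870912 536870912 0 1230186008 1) ndN3q1 ndN2q3 pcN1 Cut.none Ext.none)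

def k0_mm_113 : ∃ t, chk3 f_mm_113 t 1 1 1 = true :=
  ⟨(l 5), by decide +kernel⟩

theorem c_mm_113 : CertN 536870912 536870912 0 1230186008 402653184 67108864 3 false false false .nn 1 1 3
    ndN3q1 ndN2q3 pcN1 Cut.none Ext.none :=
  certN0 (fam := false) (s1 := false) (s2 := false) (a := 1) (b := 1) (c := 3) (cn := .nn) (n1 := ndN3q1) (n2 := ndN2q3) (pc := pcN1) (cut := Cut.none) (xt := Ext.none) (P1 := 536870912) (W1 := 536870912) (P2 := 0) (W2 := 1230186008) (P3 := 402653184) (W3 := 67108864) (N0 := 3)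
    rfl k0_mm_113

noncomputable def f_mm_123 : ℕ → ℕ → ℕ → ℕ → Bool := onCell 536870912 536870912 0 1230186008 402653184 67108864
    (rowN 3 0 false false false .npn 1 2 3 (qsf 536870912 536870912 0 1230186008 2) ndN3q1 ndN2q3 pcN2 Cut.none Ext.none)

def k0_mm_123 : ∃ t, chk3 f_mm_123 t 1 1 1 = true :=
  ⟨(l 5), by decide +kernel⟩

theorem c_mm_123 : CertN 536870912 536870912 0 1230186008 402653184 67108864 3 false false false .npn 1 2 3
    ndN3q1 ndN2q3 pcN2 Cut.none Ext.none :=
  certN0 (fam := false) (s1 := false) (s2 := false) (a := 1) (b := 2) (c := 3) (cn := .npn) (n1 := ndN3q1) (n2 := ndN2q3) (pc := pcN2) (cut := Cut.none) (xt := Ext.none) (P1 := 536870912) (W1 := 536870912) (P2 := 0) (W2 := 1230186008) (P3 := 402653184) (W3 := 67108864) (N0 := 3)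
    rfl k0_mm_123

noncomputable def f_mm_133 : ℕ → ℕ → ℕ → ℕ → Bool := onCell 536870912 536870912 0 1230186008 402653184 67108864
    (rowN 3 0 false false false .dn 1 3 3 (qsf 536870912 536870912 0 1230186008 3) ndN3q1 ndN2q3 pcN3 Cut.none Ext.none)

def k0_mm_133 : ∃ t, chk3 f_mm_133 t 1 1 1 = true :=
  ⟨(l 5), by decide +kernel⟩

theorem c_mm_133 : CertN 536870912 536870912 0 1230186008 402653184 67108864 3 false false false .dn 1 3 3
    ndN3q1 ndN2q3 pcN3 Cut.none Ext.none :=
  certN0 (fam := false) (s1 := false) (s2 := false) (a := 1) (b := 3) (c := 3) (cn := .dn) (n1 := ndN3q1) (n2 := ndN2q3) (pc := pcN3) (cut := Cut.none) (xt := Ext.none) (P1 := 536870912) (W1 := 536870912) (P2 := 0) (W2 := 1230186008) (P3 := 402653184) (W3 := 67108864) (N0 := 3)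
    rfl k0_mm_133

noncomputable def f_mm_202 : ℕ → ℕ → ℕ → ℕ → Bool := onCell 1073741824 536870912 1073741824 536870912 402653184 67108864
    (rowN 3 0 false false false .pp 2 0 2 (qsf 1073741824 536870912 1073741824 536870912 0) ndN3q2 ndN2q2 pcN0 Cut.none Ext.none)

def k0_mm_202 : ∃ t, chk3 f_mm_202 t 1 1 1 = true :=
  ⟨(l 3), by decide +kernel⟩

theorem c_mm_202 : CertN 1073741824 536870912 1073741824 536870912 402653184 67108864 3 false false false .pp 2 0 2
    ndN3q2 ndN2q2 pcN0 Cut.none Ext.none :=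
  certN0 (fam := false) (s1 := false) (s2 := false) (a := 2) (b := 0) (c := 2) (cn := .pp) (n1 := ndN3q2) (n2 := ndN2q2) (pc := pcN0) (cut := Cut.none) (xt := Ext.none) (P1 := 1073741824) (W1 := 536870912) (P2 := 1073741824) (W2 := 536870912) (P3 := 402653184) (W3 := 67108864) (N0 := 3)
    rfl k0_mm_202

noncomputable def f_mm_203 : ℕ → ℕ → ℕ → ℕ → Bool := onCell 1073741824 536870912 0 1230186008 402653184 67108864
    (rowN 3 0 false false false .up 2 0 3 (qsf 1073741824 536870912 0 1230186008 0) ndN3q2 ndN2q3 pcN0 Cut.none Ext.none)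

def k0_mm_203 : ∃ t, chk3 f_mm_203 t 1 1 1 = true :=
  ⟨(l 5), by decide +kernel⟩

theorem c_mm_203 : CertN 1073741824 536870912 0 1230186008 402653184 67108864 3 false false false .up 2 0 3
    ndN3q2 ndN2q3 pcN0 Cut.none Ext.none :=
  certN0 (fam := false) (s1 := false) (s2 := false) (a := 2) (b := 0) (c := 3) (cn := .up) (n1 := ndN3q2) (n2 := ndN2q3) (pc := pcN0) (cut := Cut.none) (xt := Ext.none) (P1 := 1073741824) (W1 := 536870912) (P2 := 0) (W2 := 1230186008) (P3 := 402653184) (W3 := 67108864) (N0 := 3)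
    rfl k0_mm_203

noncomputable def f_mm_213 : ℕ → ℕ → ℕ → ℕ → Bool := onCell 1073741824 536870912 0 1230186008 402653184 67108864
    (rowN 3 0 false false false .pnn 2 1 3 (qsf 1073741824 536870912 0 1230186008 1) ndN3q2 ndN2q3 pcN1 Cut.none Ext.none)

def k0_mm_213 : ∃ t, chk3 f_mm_213 t 1 1 1 = true :=
  ⟨(l 5), by decide +kernel⟩

theorem c_mm_213 : CertN 1073741824 536870912 0 1230186008 402653184 67108864 3 false false false .pnn 2 1 3
    ndN3q2 ndN2q3 pcN1 Cut.none Ext.none :=
  certN0 (fam := false) (s1 := false) (s2 := false) (a := 2) (b := 1) (c := 3) (cn := .pnn) (n1 := ndN3q2) (n2 := ndN2q3) (pc := pcN1) (cut := Cut.none) (xt := Ext.none) (P1 := 1073741824) (W1 := 536870912) (P2 := 0) (W2 := 1230186008) (P3 := 402653184) (W3 := 67108864) (N0 := 3)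
    rfl k0_mm_213

noncomputable def f_mm_303 : ℕ → ℕ → ℕ → ℕ → Bool := onCell 0 1230186008 0 1230186008 402653184 67108864
    (rowN 3 0 false false false .npn 3 0 3 (qsf 0 1230186008 0 1230186008 0) ndN3q3 ndN2q3 pcN0 Cut.none Ext.none)

def k0_mm_303 : ∃ t, chk3 f_mm_303 t 1 1 1 = true :=
  ⟨(a (b (l 3) (l 3)) (b (l 3) (l 3))), by decide +kernel⟩

theorem c_mm_303 : CertN 0 1230186008 0 1230186008 402653184 67108864 3 false false false .npn 3 0 3
    ndN3q3 ndN2q3 pcN0 Cut.none Ext.none :=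
  certN0 (fam := false) (s1 := false) (s2 := false) (a := 3) (b := 0) (c := 3) (cn := .npn) (n1 := ndN3q3) (n2 := ndN2q3) (pc := pcN0) (cut := Cut.none) (xt := Ext.none) (P1 := 0) (W1 := 1230186008) (P2 := 0) (W2 := 1230186008) (P3 := 402653184) (W3 := 67108864) (N0 := 3)
    rfl k0_mm_303

noncomputable def f_mm_313 : ℕ → ℕ → ℕ → ℕ → Bool := onCell 0 1230186008 0 1230186008 402653184 67108864
    (rowN 3 0 false false false .dn 3 1 3 (qsf 0 1230186008 0 1230186008 1) ndN3q3 ndN2q3 pcN1 Cut.none Ext.none)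

def k0_mm_313 : ∃ t, chk3 f_mm_313 t 1 1 1 = true :=
  ⟨(a (l 1) (b (l 3) (l 1))), by decide +kernel⟩

theorem c_mm_313 : CertN 0 1230186008 0 1230186008 402653184 67108864 3 false false false .dn 3 1 3
    ndN3q3 ndN2q3 pcN1 Cut.none Ext.none :=
  certN0 (fam := false) (s1 := false) (s2 := false) (a := 3) (b := 1) (c := 3) (cn := .dn) (n1 := ndN3q3) (n2 := ndN2q3) (pc := pcN1) (cut := Cut.none) (xt := Ext.none) (P1 := 0) (W1 := 1230186008) (P2 := 0) (W2 := 1230186008) (P3 := 402653184) (W3 := 67108864) (N0 := 3)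
    rfl k0_mm_313

end Pool.Agent.Strip051.G.I3_8_7_16.Tab.C.NB32

namespace Pool.Agent.Strip051.G.I3_8_7_16.Tab.C.NB33

open Pool.Agent.Strip051.PB Pool.Agent.Strip051.PB.T
open Pool.Agent.Strip051.G.I3_8_7_16.Tab

noncomputable def f_pp_001 : ℕ → ℕ → ℕ → ℕ → Bool := onCell 0 536870912 536870912 536870912 402653184 67108864
    (rowN 3 0 false true true .up 0 0 1 (qsf 0 536870912 536870912 536870912 0) ndN3q0 ndN3q1 pcN0 Cut.none Ext.none)

def k0_pp_001 : ∃ t, chk3 f_pp_001 t 1 1 1 = true :=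
  ⟨(l 3), by decide +kernel⟩

theorem c_pp_001 : CertN 0 536870912 536870912 536870912 402653184 67108864 3 false true true .up 0 0 1
    ndN3q0 ndN3q1 pcN0 Cut.none Ext.none :=
  certN0 (fam := false) (s1 := true) (s2 := true) (a := 0) (b := 0) (c := 1) (cn := .up) (n1 := ndN3q0) (n2 := ndN3q1) (pc := pcN0) (cut := Cut.none) (xt := Ext.none) (P1 := 0) (W1 := 536870912) (P2 := 536870912) (W2 := 536870912) (P3 := 402653184) (W3 := 67108864) (N0 := 3)
    rfl k0_pp_001

noncomputable def f_pp_011 : ℕ → ℕ → ℕ → ℕ → Bool := onCell 0 536870912 536870912 536870912 402653184 67108864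
    (rowN 3 0 false true true .pnn 0 1 1 (qsf 0 536870912 536870912 536870912 1) ndN3q0 ndN3q1 pcN1 Cut.none Ext.none)

def k0_pp_011 : ∃ t, chk3 f_pp_011 t 1 1 1 = true :=
  ⟨(l 3), by decide +kernel⟩

theorem c_pp_011 : CertN 0 536870912 536870912 536870912 402653184 67108864 3 false true true .pnn 0 1 1
    ndN3q0 ndN3q1 pcN1 Cut.none Ext.none :=
  certN0 (fam := false) (s1 := true) (s2 := true) (a := 0) (b := 1) (c := 1) (cn := .pnn) (n1 := ndN3q0) (n2 := ndN3q1) (pc := pcN1) (cut := Cut.none) (xt := Ext.none) (P1 := 0) (W1 := 536870912) (P2 := 536870912) (W2 := 536870912) (P3 := 402653184) (W3 := 67108864) (N0 := 3)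
    rfl k0_pp_011

noncomputable def f_pp_012 : ℕ → ℕ → ℕ → ℕ → Bool := onCell 0 536870912 536870912 536870912 402653184 67108864
    (rowN 3 1 false true true .pnp 0 1 2 (qsf 0 536870912 1073741824 536870912 1) ndN3q0 ndN3q2 pcN1 Cut.none Ext.none)

def k0_pp_012 : ∃ t, chk3 f_pp_012 t 1 1 1 = true :=
  ⟨(b (l 3) (a (b (l 3) (a (l 3) (b (l 3) (l 259477649527)))) (b (a (l 3) (b (l 3) (l 389400586839))) (a (b (l 277731391671) (l 17289128)) (b (l 17285560) (l 17347344)))))), by decide +kernel⟩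

theorem c_pp_012 : CertN 0 536870912 1073741824 536870912 402653184 67108864 3 false true true .pnp 0 1 2
    ndN3q0 ndN3q2 pcN1 Cut.none Ext.none :=
  certN1 (fam := false) (s1 := true) (s2 := true) (a := 0) (b := 1) (c := 2) (cn := .pnp) (n1 := ndN3q0) (n2 := ndN3q2) (pc := pcN1) (cut := Cut.none) (xt := Ext.none) (P1 := 0) (W1 := 536870912) (P2 := 1073741824) (W2 := 536870912) (P3 := 402653184) (W3 := 67108864) (N0 := 3)
    rfl (fun _ => rfl) k0_pp_012

noncomputable def f_pp_022 : ℕ → ℕ → ℕ → ℕ → Bool := onCell 0 536870912 1073741824 536870912 402653184 67108864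
    (rowN 3 1 false true true .pp 0 2 2 (qsf 0 536870912 1073741824 536870912 2) ndN3q0 ndN3q2 pcN2 Cut.none Ext.none)

def k0_pp_022 : ∃ t, chk3 f_pp_022 t 1 1 1 = true :=
  ⟨(a (b (b (b (a (a (b (l 3) (l 16818032)) (b (l 17011936) (l 16968872))) (a (l 17176128) (l 17413000))) (a (a (b (l 16772416) (l 16720416)) (b (l 16927872) (l 16881048))) (l 17181432))) (a (b (a (b (l 16790024) (l 16573088)) (l 16962008)) (a (l 16481080) (l 16709976))) (b (a (l 17020064) (l 17213808)) (l 17045592)))) (b (a (b (l 16484840) (a (l 16198176) (l 16529816))) (b (l 16998928) (l 16964824))) (b (a (a (l 16041976) (l 16473824)) (l 16936112)) (a (b (l 16405280) (l 16532088)) (l 2))))) (b (b (a (b (l 17388472) (l 17467544)) (l 17421408)) (a (l 17625136) (l 17565416))) (b (b (a (l 17396368) (l 2)) (l 2)) (l 2)))), by decide +kernel⟩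

theorem c_pp_022 : CertN 0 536870912 1073741824 536870912 402653184 67108864 3 false true true .pp 0 2 2
    ndN3q0 ndN3q2 pcN2 Cut.none Ext.none :=
  certN1 (fam := false) (s1 := true) (s2 := true) (a := 0) (b := 2) (c := 2) (cn := .pp) (n1 := ndN3q0) (n2 := ndN3q2) (pc := pcN2) (cut := Cut.none) (xt := Ext.none) (P1 := 0) (W1 := 536870912) (P2 := 1073741824) (W2 := 536870912) (P3 := 402653184) (W3 := 67108864) (N0 := 3)
    rfl (fun _ => rfl) k0_pp_022

noncomputable def f_pp_023 : ℕ → ℕ → ℕ → ℕ → Bool := onCell 1073741824 536870912 0 1230186008 402653184 67108864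
    (rowN 3 2 false true true .up 0 2 3 (qsf 0 536870912 0 1230186008 2) ndN3q0 ndN3q3 pcN2 Cut.none Ext.none)

def k0_pp_023 : ∃ t, chk3 f_pp_023 t 1 1 1 = true :=
  ⟨(b (a (l 2) (a (l 2) (l 16852504))) (b (a (a (l 2) (l 17182440)) (a (l 17153808) (l 17056368))) (a (b (l 17435320) (a (l 17418448) (l 17556984))) (a (b (l 17540200) (a (l 17366528) (l 17147768))) (b (a (l 17221080) (l 17057976)) (a (l 16893984) (b (l 16790248) (l 16450632)))))))), by decide +kernel⟩

theorem c_pp_023 : CertN 0 536870912 0 1230186008 402653184 67108864 3 false true true .up 0 2 3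
    ndN3q0 ndN3q3 pcN2 Cut.none Ext.none :=
  certN2 (fam := false) (s1 := true) (s2 := true) (a := 0) (b := 2) (c := 3) (cn := .up) (n1 := ndN3q0) (n2 := ndN3q3) (pc := pcN2) (cut := Cut.none) (xt := Ext.none) (P1 := 0) (W1 := 536870912) (P2 := 0) (W2 := 1230186008) (P3 := 402653184) (W3 := 67108864) (N0 := 3)
    rfl (fun _ => rfl) k0_pp_023

noncomputable def f_pp_033 : ℕ → ℕ → ℕ → ℕ → Bool := onCell 1610612736 536870912 0 1230186008 402653184 67108864
    (rowN 3 2 false true true .pnn 0 3 3 (qsf 0 536870912 0 1230186008 3) ndN3q0 ndN3q3 pcN3 Cut.none Ext.none)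

def k0_pp_033 : ∃ t, chk3 f_pp_033 t 1 1 1 = true :=
  ⟨(b (a (a (l 16881432) (l 4)) (l 4)) (b (a (a (a (l 16992240) (l 16985936)) (a (l 17041568) (l 17109416))) (a (a (l 17200496) (l 1335232059991)) (b (a (l 4) (l 1)) (l 1)))) (a (b (a (a (l 16986464) (l 16971424)) (a (l 17026536) (l 1022773860487))) (a (b (l 16657216) (a (l 16230288) (l 16240328))) (b (a (l 16730016) (l 1)) (l 1)))) (l 1)))), by decide +kernel⟩

theorem c_pp_033 : CertN 0 536870912 0 1230186008 402653184 67108864 3 false true true .pnn 0 3 3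
    ndN3q0 ndN3q3 pcN3 Cut.none Ext.none :=
  certN2 (fam := false) (s1 := true) (s2 := true) (a := 0) (b := 3) (c := 3) (cn := .pnn) (n1 := ndN3q0) (n2 := ndN3q3) (pc := pcN3) (cut := Cut.none) (xt := Ext.none) (P1 := 0) (W1 := 536870912) (P2 := 0) (W2 := 1230186008) (P3 := 402653184) (W3 := 67108864) (N0 := 3)
    rfl (fun _ => rfl) k0_pp_033

noncomputable def f_pp_101 : ℕ → ℕ → ℕ → ℕ → Bool := onCell 536870912 536870912 536870912 536870912 402653184 67108864
    (rowN 3 0 false true true .npn 1 0 1 (qsf 536870912 536870912 536870912 536870912 0) ndN3q1 ndN3q1 pcN0 Cut.none Ext.none)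

def k0_pp_101 : ∃ t, chk3 f_pp_101 t 1 1 1 = true :=
  ⟨(l 3), by decide +kernel⟩

theorem c_pp_101 : CertN 536870912 536870912 536870912 536870912 402653184 67108864 3 false true true .npn 1 0 1
    ndN3q1 ndN3q1 pcN0 Cut.none Ext.none :=
  certN0 (fam := false) (s1 := true) (s2 := true) (a := 1) (b := 0) (c := 1) (cn := .npn) (n1 := ndN3q1) (n2 := ndN3q1) (pc := pcN0) (cut := Cut.none) (xt := Ext.none) (P1 := 536870912) (W1 := 536870912) (P2 := 536870912) (W2 := 536870912) (P3 := 402653184) (W3 := 67108864) (N0 := 3)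
    rfl k0_pp_101

noncomputable def f_pp_102 : ℕ → ℕ → ℕ → ℕ → Bool := onCell 536870912 536870912 0 536870912 402653184 67108864
    (rowN 3 1 false true true .npp 1 0 2 (qsf 536870912 536870912 1073741824 536870912 0) ndN3q1 ndN3q2 pcN0 Cut.none Ext.none)

def k0_pp_102 : ∃ t, chk3 f_pp_102 t 1 1 1 = true :=
  ⟨(l 3), by decide +kernel⟩

theorem c_pp_102 : CertN 536870912 536870912 1073741824 536870912 402653184 67108864 3 false true true .npp 1 0 2
    ndN3q1 ndN3q2 pcN0 Cut.none Ext.none :=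
  certN1 (fam := false) (s1 := true) (s2 := true) (a := 1) (b := 0) (c := 2) (cn := .npp) (n1 := ndN3q1) (n2 := ndN3q2) (pc := pcN0) (cut := Cut.none) (xt := Ext.none) (P1 := 536870912) (W1 := 536870912) (P2 := 1073741824) (W2 := 536870912) (P3 := 402653184) (W3 := 67108864) (N0 := 3)
    rfl (fun _ => rfl) k0_pp_102

noncomputable def f_pp_112 : ℕ → ℕ → ℕ → ℕ → Bool := onCell 536870912 536870912 1073741824 536870912 402653184 67108864
    (rowN 3 2 false true true .dn 1 1 2 (qsf 536870912 536870912 1073741824 536870912 1) ndN3q1 ndN3q2 pcN1 Cut.none Ext.none)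

def k0_pp_112 : ∃ t, chk3 f_pp_112 t 1 1 1 = true :=
  ⟨(a (a (l 3) (b (l 3) (b (l 3) (l 334639245047)))) (b (a (l 3) (l 1)) (a (b (l 414633663655) (l 287395342791)) (b (l 355443799191) (l 17386872))))), by decide +kernel⟩

theorem c_pp_112 : CertN 536870912 536870912 1073741824 536870912 402653184 67108864 3 false true true .dn 1 1 2
    ndN3q1 ndN3q2 pcN1 Cut.none Ext.none :=
  certN2 (fam := false) (s1 := true) (s2 := true) (a := 1) (b := 1) (c := 2) (cn := .dn) (n1 := ndN3q1) (n2 := ndN3q2) (pc := pcN1) (cut := Cut.none) (xt := Ext.none) (P1 := 536870912) (W1 := 536870912) (P2 := 1073741824) (W2 := 536870912) (P3 := 402653184) (W3 := 67108864) (N0 := 3)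
    rfl (fun _ => rfl) k0_pp_112

noncomputable def f_pp_113 : ℕ → ℕ → ℕ → ℕ → Bool := onCell 536870912 536870912 0 1230186008 402653184 67108864
    (rowN 3 2 false true true .nn 1 1 3 (qsf 536870912 536870912 0 1230186008 1) ndN3q1 ndN3q3 pcN1 Cut.none Ext.none)

def k0_pp_113 : ∃ t, chk3 f_pp_113 t 1 1 1 = true :=
  ⟨(a (b (l 2) (b (a (l 2) (b (l 2) (l 526772891383))) (a (b (l 2) (l 3)) (b (a (l 17331120) (l 17384072)) (a (l 338934763351) (l 300280226727)))))) (b (a (l 2) (b (l 16901400) (l 17107672))) (b (a (b (l 17425208) (l 17405664)) (b (l 17246632) (l 17308144))) (a (b (l 17393080) (a (l 17369872) (l 17381248))) (b (l 17357072) (l 17391440)))))), by decide +kernel⟩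

theorem c_pp_113 : CertN 536870912 536870912 0 1230186008 402653184 67108864 3 false true true .nn 1 1 3
    ndN3q1 ndN3q3 pcN1 Cut.none Ext.none :=
  certN2 (fam := false) (s1 := true) (s2 := true) (a := 1) (b := 1) (c := 3) (cn := .nn) (n1 := ndN3q1) (n2 := ndN3q3) (pc := pcN1) (cut := Cut.none) (xt := Ext.none) (P1 := 536870912) (W1 := 536870912) (P2 := 0) (W2 := 1230186008) (P3 := 402653184) (W3 := 67108864) (N0 := 3)
    rfl (fun _ => rfl) k0_pp_113

noncomputable def f_pp_123 : ℕ → ℕ → ℕ → ℕ → Bool := onCell 1073741824 536870912 0 1230186008 402653184 67108864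
    (rowN 3 2 false true true .npn 1 2 3 (qsf 536870912 536870912 0 1230186008 2) ndN3q1 ndN3q3 pcN2 Cut.none Ext.none)

def k0_pp_123 : ∃ t, chk3 f_pp_123 t 1 1 1 = true :=
  ⟨(b (a (a (b (l 16810112) (l 16973880)) (l 16917208)) (a (l 16812024) (l 16763552))) (b (a (a (l 17231224) (l 17195824)) (a (l 17217320) (l 17174168))) (a (b (l 17362872) (l 17399264)) (l 1)))), by decide +kernel⟩

theorem c_pp_123 : CertN 536870912 536870912 0 1230186008 402653184 67108864 3 false true true .npn 1 2 3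
    ndN3q1 ndN3q3 pcN2 Cut.none Ext.none :=
  certN2 (fam := false) (s1 := true) (s2 := true) (a := 1) (b := 2) (c := 3) (cn := .npn) (n1 := ndN3q1) (n2 := ndN3q3) (pc := pcN2) (cut := Cut.none) (xt := Ext.none) (P1 := 536870912) (W1 := 536870912) (P2 := 0) (W2 := 1230186008) (P3 := 402653184) (W3 := 67108864) (N0 := 3)
    rfl (fun _ => rfl) k0_pp_123

noncomputable def f_pp_133 : ℕ → ℕ → ℕ → ℕ → Bool := onCell 1610612736 536870912 0 1230186008 402653184 67108864
    (rowN 3 2 false true true .dn 1 3 3 (qsf 536870912 536870912 0 1230186008 3) ndN3q1 ndN3q3 pcN3 Cut.none Ext.none)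

def k0_pp_133 : ∃ t, chk3 f_pp_133 t 1 1 1 = true :=
  ⟨(b (b (l 4) (l 1)) (l 1)), by decide +kernel⟩

theorem c_pp_133 : CertN 536870912 536870912 0 1230186008 402653184 67108864 3 false true true .dn 1 3 3
    ndN3q1 ndN3q3 pcN3 Cut.none Ext.none :=
  certN2 (fam := false) (s1 := true) (s2 := true) (a := 1) (b := 3) (c := 3) (cn := .dn) (n1 := ndN3q1) (n2 := ndN3q3) (pc := pcN3) (cut := Cut.none) (xt := Ext.none) (P1 := 536870912) (W1 := 536870912) (P2 := 0) (W2 := 1230186008) (P3 := 402653184) (W3 := 67108864) (N0 := 3)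
    rfl (fun _ => rfl) k0_pp_133

noncomputable def f_pp_202 : ℕ → ℕ → ℕ → ℕ → Bool := onCell 1073741824 536870912 1073741824 536870912 402653184 67108864
    (rowN 3 0 false true true .pp 2 0 2 (qsf 1073741824 536870912 1073741824 536870912 0) ndN3q2 ndN3q2 pcN0 Cut.none Ext.none)

def k0_pp_202 : ∃ t, chk3 f_pp_202 t 1 1 1 = true :=
  ⟨(l 3), by decide +kernel⟩

theorem c_pp_202 : CertN 1073741824 536870912 1073741824 536870912 402653184 67108864 3 false true true .pp 2 0 2
    ndN3q2 ndN3q2 pcN0 Cut.none Ext.none :=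
  certN0 (fam := false) (s1 := true) (s2 := true) (a := 2) (b := 0) (c := 2) (cn := .pp) (n1 := ndN3q2) (n2 := ndN3q2) (pc := pcN0) (cut := Cut.none) (xt := Ext.none) (P1 := 1073741824) (W1 := 536870912) (P2 := 1073741824) (W2 := 536870912) (P3 := 402653184) (W3 := 67108864) (N0 := 3)
    rfl k0_pp_202

noncomputable def f_pp_203 : ℕ → ℕ → ℕ → ℕ → Bool := onCell 0 536870912 0 1230186008 402653184 67108864
    (rowN 3 2 false true true .up 2 0 3 (qsf 1073741824 536870912 0 1230186008 0) ndN3q2 ndN3q3 pcN0 Cut.none Ext.none)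

def k0_pp_203 : ∃ t, chk3 f_pp_203 t 1 1 1 = true :=
  ⟨(b (a (l 2) (l 3)) (l 3)), by decide +kernel⟩

theorem c_pp_203 : CertN 1073741824 536870912 0 1230186008 402653184 67108864 3 false true true .up 2 0 3
    ndN3q2 ndN3q3 pcN0 Cut.none Ext.none :=
  certN2 (fam := false) (s1 := true) (s2 := true) (a := 2) (b := 0) (c := 3) (cn := .up) (n1 := ndN3q2) (n2 := ndN3q3) (pc := pcN0) (cut := Cut.none) (xt := Ext.none) (P1 := 1073741824) (W1 := 536870912) (P2 := 0) (W2 := 1230186008) (P3 := 402653184) (W3 := 67108864) (N0 := 3)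
    rfl (fun _ => rfl) k0_pp_203

noncomputable def f_pp_213 : ℕ → ℕ → ℕ → ℕ → Bool := onCell 536870912 536870912 0 1230186008 402653184 67108864
    (rowN 3 2 false true true .pnn 2 1 3 (qsf 1073741824 536870912 0 1230186008 1) ndN3q2 ndN3q3 pcN1 Cut.none Ext.none)

def k0_pp_213 : ∃ t, chk3 f_pp_213 t 1 1 1 = true :=
  ⟨(b (b (a (a (a (l 3) (l 17004872)) (a (l 16990216) (l 16977824))) (a (l 16957200) (a (l 16917672) (l 16873840)))) (a (a (l 3) (a (l 3) (l 17009680))) (a (a (l 17024832) (l 17042952)) (a (l 17004656) (l 16995408))))) (a (l 3) (b (a (l 3) (b (a (l 17154648) (l 1)) (l 1))) (l 1)))), by decide +kernel⟩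

theorem c_pp_213 : CertN 1073741824 536870912 0 1230186008 402653184 67108864 3 false true true .pnn 2 1 3
    ndN3q2 ndN3q3 pcN1 Cut.none Ext.none :=
  certN2 (fam := false) (s1 := true) (s2 := true) (a := 2) (b := 1) (c := 3) (cn := .pnn) (n1 := ndN3q2) (n2 := ndN3q3) (pc := pcN1) (cut := Cut.none) (xt := Ext.none) (P1 := 1073741824) (W1 := 536870912) (P2 := 0) (W2 := 1230186008) (P3 := 402653184) (W3 := 67108864) (N0 := 3)
    rfl (fun _ => rfl) k0_pp_213

noncomputable def f_pp_303 : ℕ → ℕ → ℕ → ℕ → Bool := onCell 0 1230186008 0 1230186008 402653184 67108864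
    (rowN 3 0 false true true .npn 3 0 3 (qsf 0 1230186008 0 1230186008 0) ndN3q3 ndN3q3 pcN0 Cut.none Ext.none)

def k0_pp_303 : ∃ t, chk3 f_pp_303 t 1 1 1 = true :=
  ⟨(a (b (l 3) (l 3)) (b (l 3) (l 3))), by decide +kernel⟩

theorem c_pp_303 : CertN 0 1230186008 0 1230186008 402653184 67108864 3 false true true .npn 3 0 3
    ndN3q3 ndN3q3 pcN0 Cut.none Ext.none :=
  certN0 (fam := false) (s1 := true) (s2 := true) (a := 3) (b := 0) (c := 3) (cn := .npn) (n1 := ndN3q3) (n2 := ndN3q3) (pc := pcN0) (cut := Cut.none) (xt := Ext.none) (P1 := 0) (W1 := 1230186008) (P2 := 0) (W2 := 1230186008) (P3 := 402653184) (W3 := 67108864) (N0 := 3)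
    rfl k0_pp_303

noncomputable def f_pp_313 : ℕ → ℕ → ℕ → ℕ → Bool := onCell 0 1230186008 0 1230186008 402653184 67108864
    (rowN 3 0 false true true .dn 3 1 3 (qsf 0 1230186008 0 1230186008 1) ndN3q3 ndN3q3 pcN1 Cut.none Ext.none)

def k0_pp_313 : ∃ t, chk3 f_pp_313 t 1 1 1 = true :=
  ⟨(a (l 1) (b (l 3) (l 1))), by decide +kernel⟩

theorem c_pp_313 : CertN 0 1230186008 0 1230186008 402653184 67108864 3 false true true .dn 3 1 3
    ndN3q3 ndN3q3 pcN1 Cut.none Ext.none :=
  certN0 (fam := false) (s1 := true) (s2 := true) (a := 3) (b := 1) (c := 3) (cn := .dn) (n1 := ndN3q3) (n2 := ndN3q3) (pc := pcN1) (cut := Cut.none) (xt := Ext.none) (P1 := 0) (W1 := 1230186008) (P2 := 0) (W2 := 1230186008) (P3 := 402653184) (W3 := 67108864) (N0 := 3)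
    rfl k0_pp_313

noncomputable def f_pm_001 : ℕ → ℕ → ℕ → ℕ → Bool := onCell 0 536870912 536870912 536870912 402653184 67108864
    (rowN 3 0 false true false .up 0 0 1 (qsf 0 536870912 536870912 536870912 0) ndN3q0 ndN3q1 pcN0 Cut.none Ext.none)

def k0_pm_001 : ∃ t, chk3 f_pm_001 t 1 1 1 = true :=
  ⟨(l 4), by decide +kernel⟩

theorem c_pm_001 : CertN 0 536870912 536870912 536870912 402653184 67108864 3 false true false .up 0 0 1
    ndN3q0 ndN3q1 pcN0 Cut.none Ext.none :=
  certN0 (fam := false) (s1 := true) (s2 := false) (a := 0) (b := 0) (c := 1) (cn := .up) (n1 := ndN3q0) (n2 := ndN3q1) (pc := pcN0) (cut := Cut.none) (xt := Ext.none) (P1 := 0) (W1 := 536870912) (P2 := 536870912) (W2 := 536870912) (P3 := 402653184) (W3 := 67108864) (N0 := 3)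
    rfl k0_pm_001

noncomputable def f_pm_011 : ℕ → ℕ → ℕ → ℕ → Bool := onCell 0 536870912 536870912 536870912 402653184 67108864
    (rowN 3 0 false true false .pnn 0 1 1 (qsf 0 536870912 536870912 536870912 1) ndN3q0 ndN3q1 pcN1 Cut.none Ext.none)

def k0_pm_011 : ∃ t, chk3 f_pm_011 t 1 1 1 = true :=
  ⟨(l 4), by decide +kernel⟩

theorem c_pm_011 : CertN 0 536870912 536870912 536870912 402653184 67108864 3 false true false .pnn 0 1 1
    ndN3q0 ndN3q1 pcN1 Cut.none Ext.none :=
  certN0 (fam := false) (s1 := true) (s2 := false) (a := 0) (b := 1) (c := 1) (cn := .pnn) (n1 := ndN3q0) (n2 := ndN3q1) (pc := pcN1) (cut := Cut.none) (xt := Ext.none) (P1 := 0) (W1 := 536870912) (P2 := 536870912) (W2 := 536870912) (P3 := 402653184) (W3 := 67108864) (N0 := 3)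
    rfl k0_pm_011

noncomputable def f_pm_012 : ℕ → ℕ → ℕ → ℕ → Bool := onCell 0 536870912 1073741824 536870912 402653184 67108864
    (rowN 3 0 false true false .pnp 0 1 2 (qsf 0 536870912 1073741824 536870912 1) ndN3q0 ndN3q2 pcN1 Cut.none Ext.none)

def k0_pm_012 : ∃ t, chk3 f_pm_012 t 1 1 1 = true :=
  ⟨(l 4), by decide +kernel⟩

theorem c_pm_012 : CertN 0 536870912 1073741824 536870912 402653184 67108864 3 false true false .pnp 0 1 2
    ndN3q0 ndN3q2 pcN1 Cut.none Ext.none :=
  certN0 (fam := false) (s1 := true) (s2 := false) (a := 0) (b := 1) (c := 2) (cn := .pnp) (n1 := ndN3q0) (n2 := ndN3q2) (pc := pcN1) (cut := Cut.none) (xt := Ext.none) (P1 := 0) (W1 := 536870912) (P2 := 1073741824) (W2 := 536870912) (P3 := 402653184) (W3 := 67108864) (N0 := 3)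
    rfl k0_pm_012

noncomputable def f_pm_022 : ℕ → ℕ → ℕ → ℕ → Bool := onCell 0 536870912 1073741824 536870912 402653184 67108864
    (rowN 3 0 false true false .pp 0 2 2 (qsf 0 536870912 1073741824 536870912 2) ndN3q0 ndN3q2 pcN2 Cut.none Ext.none)

def k0_pm_022 : ∃ t, chk3 f_pm_022 t 1 1 1 = true :=
  ⟨(l 4), by decide +kernel⟩

theorem c_pm_022 : CertN 0 536870912 1073741824 536870912 402653184 67108864 3 false true false .pp 0 2 2
    ndN3q0 ndN3q2 pcN2 Cut.none Ext.none :=
  certN0 (fam := false) (s1 := true) (s2 := false) (a := 0) (b := 2) (c := 2) (cn := .pp) (n1 := ndN3q0) (n2 := ndN3q2) (pc := pcN2) (cut := Cut.none) (xt := Ext.none) (P1 := 0) (W1 := 536870912) (P2 := 1073741824) (W2 := 536870912) (P3 := 402653184) (W3 := 67108864) (N0 := 3)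
    rfl k0_pm_022

noncomputable def f_pm_023 : ℕ → ℕ → ℕ → ℕ → Bool := onCell 0 536870912 0 1230186008 402653184 67108864
    (rowN 3 0 false true false .up 0 2 3 (qsf 0 536870912 0 1230186008 2) ndN3q0 ndN3q3 pcN2 Cut.none Ext.none)

def k0_pm_023 : ∃ t, chk3 f_pm_023 t 1 1 1 = true :=
  ⟨(b (l 4) (l 4)), by decide +kernel⟩

theorem c_pm_023 : CertN 0 536870912 0 1230186008 402653184 67108864 3 false true false .up 0 2 3
    ndN3q0 ndN3q3 pcN2 Cut.none Ext.none :=
  certN0 (fam := false) (s1 := true) (s2 := false) (a := 0) (b := 2) (c := 3) (cn := .up) (n1 := ndN3q0) (n2 := ndN3q3) (pc := pcN2) (cut := Cut.none) (xt := Ext.none) (P1 := 0) (W1 := 536870912) (P2 := 0) (W2 := 1230186008) (P3 := 402653184) (W3 := 67108864) (N0 := 3)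
    rfl k0_pm_023

noncomputable def f_pm_033 : ℕ → ℕ → ℕ → ℕ → Bool := onCell 0 536870912 0 1230186008 402653184 67108864
    (rowN 3 0 false true false .pnn 0 3 3 (qsf 0 536870912 0 1230186008 3) ndN3q0 ndN3q3 pcN3 Cut.none Ext.none)

def k0_pm_033 : ∃ t, chk3 f_pm_033 t 1 1 1 = true :=
  ⟨(b (l 4) (l 4)), by decide +kernel⟩

theorem c_pm_033 : CertN 0 536870912 0 1230186008 402653184 67108864 3 false true false .pnn 0 3 3
    ndN3q0 ndN3q3 pcN3 Cut.none Ext.none :=
  certN0 (fam := false) (s1 := true) (s2 := false) (a := 0) (b := 3) (c := 3) (cn := .pnn) (n1 := ndN3q0) (n2 := ndN3q3) (pc := pcN3) (cut := Cut.none) (xt := Ext.none) (P1 := 0) (W1 := 536870912) (P2 := 0) (W2 := 1230186008) (P3 := 402653184) (W3 := 67108864) (N0 := 3)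
    rfl k0_pm_033

noncomputable def f_pm_101 : ℕ → ℕ → ℕ → ℕ → Bool := onCell 536870912 536870912 536870912 536870912 402653184 67108864
    (rowN 3 0 false true false .npn 1 0 1 (qsf 536870912 536870912 536870912 536870912 0) ndN3q1 ndN3q1 pcN0 Cut.none Ext.none)

def k0_pm_101 : ∃ t, chk3 f_pm_101 t 1 1 1 = true :=
  ⟨(l 4), by decide +kernel⟩

theorem c_pm_101 : CertN 536870912 536870912 536870912 536870912 402653184 67108864 3 false true false .npn 1 0 1
    ndN3q1 ndN3q1 pcN0 Cut.none Ext.none :=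
  certN0 (fam := false) (s1 := true) (s2 := false) (a := 1) (b := 0) (c := 1) (cn := .npn) (n1 := ndN3q1) (n2 := ndN3q1) (pc := pcN0) (cut := Cut.none) (xt := Ext.none) (P1 := 536870912) (W1 := 536870912) (P2 := 536870912) (W2 := 536870912) (P3 := 402653184) (W3 := 67108864) (N0 := 3)
    rfl k0_pm_101

noncomputable def f_pm_102 : ℕ → ℕ → ℕ → ℕ → Bool := onCell 536870912 536870912 1073741824 536870912 402653184 67108864
    (rowN 3 0 false true false .npp 1 0 2 (qsf 536870912 536870912 1073741824 536870912 0) ndN3q1 ndN3q2 pcN0 Cut.none Ext.none)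

def k0_pm_102 : ∃ t, chk3 f_pm_102 t 1 1 1 = true :=
  ⟨(l 4), by decide +kernel⟩

theorem c_pm_102 : CertN 536870912 536870912 1073741824 536870912 402653184 67108864 3 false true false .npp 1 0 2
    ndN3q1 ndN3q2 pcN0 Cut.none Ext.none :=
  certN0 (fam := false) (s1 := true) (s2 := false) (a := 1) (b := 0) (c := 2) (cn := .npp) (n1 := ndN3q1) (n2 := ndN3q2) (pc := pcN0) (cut := Cut.none) (xt := Ext.none) (P1 := 536870912) (W1 := 536870912) (P2 := 1073741824) (W2 := 536870912) (P3 := 402653184) (W3 := 67108864) (N0 := 3)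
    rfl k0_pm_102

noncomputable def f_pm_112 : ℕ → ℕ → ℕ → ℕ → Bool := onCell 536870912 536870912 1073741824 536870912 402653184 67108864
    (rowN 3 0 false true false .dn 1 1 2 (qsf 536870912 536870912 1073741824 536870912 1) ndN3q1 ndN3q2 pcN1 Cut.none Ext.none)

def k0_pm_112 : ∃ t, chk3 f_pm_112 t 1 1 1 = true :=
  ⟨(l 4), by decide +kernel⟩

theorem c_pm_112 : CertN 536870912 536870912 1073741824 536870912 402653184 67108864 3 false true false .dn 1 1 2
    ndN3q1 ndN3q2 pcN1 Cut.none Ext.none :=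
  certN0 (fam := false) (s1 := true) (s2 := false) (a := 1) (b := 1) (c := 2) (cn := .dn) (n1 := ndN3q1) (n2 := ndN3q2) (pc := pcN1) (cut := Cut.none) (xt := Ext.none) (P1 := 536870912) (W1 := 536870912) (P2 := 1073741824) (W2 := 536870912) (P3 := 402653184) (W3 := 67108864) (N0 := 3)
    rfl k0_pm_112

noncomputable def f_pm_113 : ℕ → ℕ → ℕ → ℕ → Bool := onCell 536870912 536870912 0 1230186008 402653184 67108864
    (rowN 3 0 false true false .nn 1 1 3 (qsf 536870912 536870912 0 1230186008 1) ndN3q1 ndN3q3 pcN1 Cut.none Ext.none)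

def k0_pm_113 : ∃ t, chk3 f_pm_113 t 1 1 1 = true :=
  ⟨(b (a (l 2) (b (a (l 2) (l 16820776)) (l 4))) (l 4)), by decide +kernel⟩

theorem c_pm_113 : CertN 536870912 536870912 0 1230186008 402653184 67108864 3 false true false .nn 1 1 3
    ndN3q1 ndN3q3 pcN1 Cut.none Ext.none :=
  certN0 (fam := false) (s1 := true) (s2 := false) (a := 1) (b := 1) (c := 3) (cn := .nn) (n1 := ndN3q1) (n2 := ndN3q3) (pc := pcN1) (cut := Cut.none) (xt := Ext.none) (P1 := 536870912) (W1 := 536870912) (P2 := 0) (W2 := 1230186008) (P3 := 402653184) (W3 := 67108864) (N0 := 3)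
    rfl k0_pm_113

noncomputable def f_pm_123 : ℕ → ℕ → ℕ → ℕ → Bool := onCell 1073741824 536870912 0 1230186008 402653184 67108864
    (rowN 3 2 false true false .npn 1 2 3 (qsf 536870912 536870912 0 1230186008 2) ndN3q1 ndN3q3 pcN2 Cut.none Ext.none)

def k0_pm_123 : ∃ t, chk3 f_pm_123 t 1 1 1 = true :=
  ⟨(b (a (a (l 16965552) (l 4)) (l 4)) (l 4)), by decide +kernel⟩

theorem c_pm_123 : CertN 536870912 536870912 0 1230186008 402653184 67108864 3 false true false .npn 1 2 3
    ndN3q1 ndN3q3 pcN2 Cut.none Ext.none :=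
  certN2 (fam := false) (s1 := true) (s2 := false) (a := 1) (b := 2) (c := 3) (cn := .npn) (n1 := ndN3q1) (n2 := ndN3q3) (pc := pcN2) (cut := Cut.none) (xt := Ext.none) (P1 := 536870912) (W1 := 536870912) (P2 := 0) (W2 := 1230186008) (P3 := 402653184) (W3 := 67108864) (N0 := 3)
    rfl (fun _ => rfl) k0_pm_123

noncomputable def f_pm_133 : ℕ → ℕ → ℕ → ℕ → Bool := onCell 1610612736 536870912 0 1230186008 402653184 67108864
    (rowN 3 2 false true false .dn 1 3 3 (qsf 536870912 536870912 0 1230186008 3) ndN3q1 ndN3q3 pcN3 Cut.none Ext.none)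

def k0_pm_133 : ∃ t, chk3 f_pm_133 t 1 1 1 = true :=
  ⟨(b (l 4) (l 1)), by decide +kernel⟩

theorem c_pm_133 : CertN 536870912 536870912 0 1230186008 402653184 67108864 3 false true false .dn 1 3 3
    ndN3q1 ndN3q3 pcN3 Cut.none Ext.none :=
  certN2 (fam := false) (s1 := true) (s2 := false) (a := 1) (b := 3) (c := 3) (cn := .dn) (n1 := ndN3q1) (n2 := ndN3q3) (pc := pcN3) (cut := Cut.none) (xt := Ext.none) (P1 := 536870912) (W1 := 536870912) (P2 := 0) (W2 := 1230186008) (P3 := 402653184) (W3 := 67108864) (N0 := 3)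
    rfl (fun _ => rfl) k0_pm_133

noncomputable def f_pm_202 : ℕ → ℕ → ℕ → ℕ → Bool := onCell 0 536870912 1073741824 536870912 402653184 67108864
    (rowN 3 2 false true false .pp 2 0 2 (qsf 1073741824 536870912 1073741824 536870912 0) ndN3q2 ndN3q2 pcN0 Cut.none Ext.none)

def k0_pm_202 : ∃ t, chk3 f_pm_202 t 1 1 1 = true :=
  ⟨(b (l 4) (a (a (b (a (l 17346056) (l 4)) (a (l 17169464) (l 17261056))) (b (l 4) (a (l 17374568) (l 17543248)))) (a (b (l 4) (l 17881664)) (l 4)))), by decide +kernel⟩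

theorem c_pm_202 : CertN 1073741824 536870912 1073741824 536870912 402653184 67108864 3 false true false .pp 2 0 2
    ndN3q2 ndN3q2 pcN0 Cut.none Ext.none :=
  certN2 (fam := false) (s1 := true) (s2 := false) (a := 2) (b := 0) (c := 2) (cn := .pp) (n1 := ndN3q2) (n2 := ndN3q2) (pc := pcN0) (cut := Cut.none) (xt := Ext.none) (P1 := 1073741824) (W1 := 536870912) (P2 := 1073741824) (W2 := 536870912) (P3 := 402653184) (W3 := 67108864) (N0 := 3)
    rfl (fun _ => rfl) k0_pm_202

noncomputable def f_pm_203 : ℕ → ℕ → ℕ → ℕ → Bool := onCell 0 536870912 0 1230186008 402653184 67108864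
    (rowN 3 2 false true false .up 2 0 3 (qsf 1073741824 536870912 0 1230186008 0) ndN3q2 ndN3q3 pcN0 Cut.none Ext.none)

def k0_pm_203 : ∃ t, chk3 f_pm_203 t 1 1 1 = true :=
  ⟨(b (a (l 2) (a (l 2) (b (l 232097068871) (b (l 17094744) (l 17120120))))) (a (b (a (l 2) (b (l 2) (b (l 2) (l 17100096)))) (a (b (l 2) (b (l 407585978519) (l 16959736))) (b (b (l 17037464) (l 16995528)) (b (l 17122736) (l 17305696))))) (b (a (b (l 607302873655) (b (l 17110376) (l 17089912))) (b (l 17115256) (l 17100624))) (b (a (b (l 17119624) (l 17500944)) (l 17606952)) (a (l 17628080) (l 17615888)))))), by decide +kernel⟩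

theorem c_pm_203 : CertN 1073741824 536870912 0 1230186008 402653184 67108864 3 false true false .up 2 0 3
    ndN3q2 ndN3q3 pcN0 Cut.none Ext.none :=
  certN2 (fam := false) (s1 := true) (s2 := false) (a := 2) (b := 0) (c := 3) (cn := .up) (n1 := ndN3q2) (n2 := ndN3q3) (pc := pcN0) (cut := Cut.none) (xt := Ext.none) (P1 := 1073741824) (W1 := 536870912) (P2 := 0) (W2 := 1230186008) (P3 := 402653184) (W3 := 67108864) (N0 := 3)
    rfl (fun _ => rfl) k0_pm_203

noncomputable def f_pm_213 : ℕ → ℕ → ℕ → ℕ → Bool := onCell 536870912 536870912 0 1230186008 402653184 67108864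
    (rowN 3 2 false true false .pnn 2 1 3 (qsf 1073741824 536870912 0 1230186008 1) ndN3q2 ndN3q3 pcN1 Cut.none Ext.none)

def k0_pm_213 : ∃ t, chk3 f_pm_213 t 1 1 1 = true :=
  ⟨(b (b (a (a (a (l 17063632) (l 17039392)) (a (l 17035576) (l 17028032))) (a (l 16981880) (a (l 16907200) (l 16844872)))) (a (a (a (b (l 17098776) (b (l 17126128) (l 17107936))) (b (l 17102752) (l 17086896))) (a (l 17063280) (l 17025048))) (a (b (l 16972976) (l 16967976)) (l 16933392)))) (b (a (a (a (b (l 17046024) (a (l 17220920) (l 17318792))) (l 17136784)) (b (l 17058808) (a (l 17232720) (l 17250360)))) (a (b (l 17103048) (l 17453744)) (b (l 17254120) (l 1)))) (a (a (b (a (a (l 17413992) (l 17397472)) (l 17402608)) (l 17578392)) (b (a (l 17423352) (l 17469768)) (l 4))) (l 1)))), by decide +kernel⟩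

theorem c_pm_213 : CertN 1073741824 536870912 0 1230186008 402653184 67108864 3 false true false .pnn 2 1 3
    ndN3q2 ndN3q3 pcN1 Cut.none Ext.none :=
  certN2 (fam := false) (s1 := true) (s2 := false) (a := 2) (b := 1) (c := 3) (cn := .pnn) (n1 := ndN3q2) (n2 := ndN3q3) (pc := pcN1) (cut := Cut.none) (xt := Ext.none) (P1 := 1073741824) (W1 := 536870912) (P2 := 0) (W2 := 1230186008) (P3 := 402653184) (W3 := 67108864) (N0 := 3)
    rfl (fun _ => rfl) k0_pm_213

noncomputable def f_pm_303 : ℕ → ℕ → ℕ → ℕ → Bool := onCell 0 1230186008 0 1230186008 402653184 67108864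
    (rowN 3 0 false true false .npn 3 0 3 (qsf 0 1230186008 0 1230186008 0) ndN3q3 ndN3q3 pcN0 Cut.none Ext.none)

def k0_pm_303 : ∃ t, chk3 f_pm_303 t 1 1 1 = true :=
  ⟨(a (b (l 3) (b (l 3) (l 1))) (b (a (l 3) (a (b (l 3) (b (l 3) (l 184315701319))) (b (a (l 3) (l 233170866711)) (a (b (l 17109144) (l 17145504)) (b (l 17117136) (l 17147464)))))) (a (b (a (b (l 3) (b (l 3) (l 1))) (b (a (l 3) (l 17155080)) (b (l 17180296) (l 17185568)))) (a (l 1) (b (b (a (l 1) (l 17149896)) (l 1)) (l 1)))) (b (b (a (a (l 17150576) (l 17176904)) (a (l 17170008) (l 17161464))) (a (b (a (l 17179968) (l 17174296)) (l 17141568)) (b (l 17146480) (l 17113592)))) (a (b (b (l 17216160) (a (l 17008896) (l 16936920))) (a (l 1) (b (b (l 16778520) (l 1)) (l 1)))) (b (b (l 17045712) (a (l 16909368) (l 16928144))) (b (a (l 16609760) (l 16657952)) (a (l 316250372135) (l 16759216))))))))), by decide +kernel⟩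

theorem c_pm_303 : CertN 0 1230186008 0 1230186008 402653184 67108864 3 false true false .npn 3 0 3
    ndN3q3 ndN3q3 pcN0 Cut.none Ext.none :=
  certN0 (fam := false) (s1 := true) (s2 := false) (a := 3) (b := 0) (c := 3) (cn := .npn) (n1 := ndN3q3) (n2 := ndN3q3) (pc := pcN0) (cut := Cut.none) (xt := Ext.none) (P1 := 0) (W1 := 1230186008) (P2 := 0) (W2 := 1230186008) (P3 := 402653184) (W3 := 67108864) (N0 := 3)
    rfl k0_pm_303

noncomputable def f_pm_313 : ℕ → ℕ → ℕ → ℕ → Bool := onCell 0 1230186008 0 1230186008 402653184 67108864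
    (rowN 3 0 false true false .dn 3 1 3 (qsf 0 1230186008 0 1230186008 1) ndN3q3 ndN3q3 pcN1 Cut.none Ext.none)

def k0_pm_313 : ∃ t, chk3 f_pm_313 t 1 1 1 = true :=
  ⟨(a (l 1) (b (b (b (l 3) (l 1)) (l 1)) (l 1))), by decide +kernel⟩

theorem c_pm_313 : CertN 0 1230186008 0 1230186008 402653184 67108864 3 false true false .dn 3 1 3
    ndN3q3 ndN3q3 pcN1 Cut.none Ext.none :=
  certN0 (fam := false) (s1 := true) (s2 := false) (a := 3) (b := 1) (c := 3) (cn := .dn) (n1 := ndN3q3) (n2 := ndN3q3) (pc := pcN1) (cut := Cut.none) (xt := Ext.none) (P1 := 0) (W1 := 1230186008) (P2 := 0) (W2 := 1230186008) (P3 := 402653184) (W3 := 67108864) (N0 := 3)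
    rfl k0_pm_313

noncomputable def f_mm_001 : ℕ → ℕ → ℕ → ℕ → Bool := onCell 0 536870912 536870912 536870912 402653184 67108864
    (rowN 3 0 false false false .up 0 0 1 (qsf 0 536870912 536870912 536870912 0) ndN3q0 ndN3q1 pcN0 Cut.none Ext.none)

def k0_mm_001 : ∃ t, chk3 f_mm_001 t 1 1 1 = true :=
  ⟨(l 3), by decide +kernel⟩

theorem c_mm_001 : CertN 0 536870912 536870912 536870912 402653184 67108864 3 false false false .up 0 0 1
    ndN3q0 ndN3q1 pcN0 Cut.none Ext.none :=
  certN0 (fam := false) (s1 := false) (s2 := false) (a := 0) (b := 0) (c := 1) (cn := .up) (n1 := ndN3q0) (n2 := ndN3q1) (pc := pcN0) (cut := Cut.none) (xt := Ext.none) (P1 := 0) (W1 := 536870912) (P2 := 536870912) (W2 := 536870912) (P3 := 402653184) (W3 := 67108864) (N0 := 3)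
    rfl k0_mm_001

noncomputable def f_mm_011 : ℕ → ℕ → ℕ → ℕ → Bool := onCell 0 536870912 536870912 536870912 402653184 67108864
    (rowN 3 0 false false false .pnn 0 1 1 (qsf 0 536870912 536870912 536870912 1) ndN3q0 ndN3q1 pcN1 Cut.none Ext.none)

def k0_mm_011 : ∃ t, chk3 f_mm_011 t 1 1 1 = true :=
  ⟨(l 3), by decide +kernel⟩

theorem c_mm_011 : CertN 0 536870912 536870912 536870912 402653184 67108864 3 false false false .pnn 0 1 1
    ndN3q0 ndN3q1 pcN1 Cut.none Ext.none :=
  certN0 (fam := false) (s1 := false) (s2 := false) (a := 0) (b := 1) (c := 1) (cn := .pnn) (n1 := ndN3q0) (n2 := ndN3q1) (pc := pcN1) (cut := Cut.none) (xt := Ext.none) (P1 := 0) (W1 := 536870912) (P2 := 536870912) (W2 := 536870912) (P3 := 402653184) (W3 := 67108864) (N0 := 3)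
    rfl k0_mm_011

noncomputable def f_mm_012 : ℕ → ℕ → ℕ → ℕ → Bool := onCell 0 536870912 1073741824 536870912 402653184 67108864
    (rowN 3 0 false false false .pnp 0 1 2 (qsf 0 536870912 1073741824 536870912 1) ndN3q0 ndN3q2 pcN1 Cut.none Ext.none)

def k0_mm_012 : ∃ t, chk3 f_mm_012 t 1 1 1 = true :=
  ⟨(l 5), by decide +kernel⟩

theorem c_mm_012 : CertN 0 536870912 1073741824 536870912 402653184 67108864 3 false false false .pnp 0 1 2
    ndN3q0 ndN3q2 pcN1 Cut.none Ext.none :=
  certN0 (fam := false) (s1 := false) (s2 := false) (a := 0) (b := 1) (c := 2) (cn := .pnp) (n1 := ndN3q0) (n2 := ndN3q2) (pc := pcN1) (cut := Cut.none) (xt := Ext.none) (P1 := 0) (W1 := 536870912) (P2 := 1073741824) (W2 := 536870912) (P3 := 402653184) (W3 := 67108864) (N0 := 3)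
    rfl k0_mm_012

noncomputable def f_mm_022 : ℕ → ℕ → ℕ → ℕ → Bool := onCell 0 536870912 1073741824 536870912 402653184 67108864
    (rowN 3 0 false false false .pp 0 2 2 (qsf 0 536870912 1073741824 536870912 2) ndN3q0 ndN3q2 pcN2 Cut.none Ext.none)

def k0_mm_022 : ∃ t, chk3 f_mm_022 t 1 1 1 = true :=
  ⟨(l 5), by decide +kernel⟩

theorem c_mm_022 : CertN 0 536870912 1073741824 536870912 402653184 67108864 3 false false false .pp 0 2 2
    ndN3q0 ndN3q2 pcN2 Cut.none Ext.none :=
  certN0 (fam := false) (s1 := false) (s2 := false) (a := 0) (b := 2) (c := 2) (cn := .pp) (n1 := ndN3q0) (n2 := ndN3q2) (pc := pcN2) (cut := Cut.none) (xt := Ext.none) (P1 := 0) (W1 := 536870912) (P2 := 1073741824) (W2 := 536870912) (P3 := 402653184) (W3 := 67108864) (N0 := 3)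
    rfl k0_mm_022

noncomputable def f_mm_023 : ℕ → ℕ → ℕ → ℕ → Bool := onCell 0 536870912 0 1230186008 402653184 67108864
    (rowN 3 0 false false false .up 0 2 3 (qsf 0 536870912 0 1230186008 2) ndN3q0 ndN3q3 pcN2 Cut.none Ext.none)

def k0_mm_023 : ∃ t, chk3 f_mm_023 t 1 1 1 = true :=
  ⟨(l 5), by decide +kernel⟩

theorem c_mm_023 : CertN 0 536870912 0 1230186008 402653184 67108864 3 false false false .up 0 2 3
    ndN3q0 ndN3q3 pcN2 Cut.none Ext.none :=
  certN0 (fam := false) (s1 := false) (s2 := false) (a := 0) (b := 2) (c := 3) (cn := .up) (n1 := ndN3q0) (n2 := ndN3q3) (pc := pcN2) (cut := Cut.none) (xt := Ext.none) (P1 := 0) (W1 := 536870912) (P2 := 0) (W2 := 1230186008) (P3 := 402653184) (W3 := 67108864) (N0 := 3)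
    rfl k0_mm_023

noncomputable def f_mm_033 : ℕ → ℕ → ℕ → ℕ → Bool := onCell 0 536870912 0 1230186008 402653184 67108864
    (rowN 3 0 false false false .pnn 0 3 3 (qsf 0 536870912 0 1230186008 3) ndN3q0 ndN3q3 pcN3 Cut.none Ext.none)

def k0_mm_033 : ∃ t, chk3 f_mm_033 t 1 1 1 = true :=
  ⟨(l 5), by decide +kernel⟩

theorem c_mm_033 : CertN 0 536870912 0 1230186008 402653184 67108864 3 false false false .pnn 0 3 3
    ndN3q0 ndN3q3 pcN3 Cut.none Ext.none :=
  certN0 (fam := false) (s1 := false) (s2 := false) (a := 0) (b := 3) (c := 3) (cn := .pnn) (n1 := ndN3q0) (n2 := ndN3q3) (pc := pcN3) (cut := Cut.none) (xt := Ext.none) (P1 := 0) (W1 := 536870912) (P2 := 0) (W2 := 1230186008) (P3 := 402653184) (W3 := 67108864) (N0 := 3)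
    rfl k0_mm_033

noncomputable def f_mm_101 : ℕ → ℕ → ℕ → ℕ → Bool := onCell 536870912 536870912 536870912 536870912 402653184 67108864
    (rowN 3 0 false false false .npn 1 0 1 (qsf 536870912 536870912 536870912 536870912 0) ndN3q1 ndN3q1 pcN0 Cut.none Ext.none)

def k0_mm_101 : ∃ t, chk3 f_mm_101 t 1 1 1 = true :=
  ⟨(l 3), by decide +kernel⟩

theorem c_mm_101 : CertN 536870912 536870912 536870912 536870912 402653184 67108864 3 false false false .npn 1 0 1
    ndN3q1 ndN3q1 pcN0 Cut.none Ext.none :=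
  certN0 (fam := false) (s1 := false) (s2 := false) (a := 1) (b := 0) (c := 1) (cn := .npn) (n1 := ndN3q1) (n2 := ndN3q1) (pc := pcN0) (cut := Cut.none) (xt := Ext.none) (P1 := 536870912) (W1 := 536870912) (P2 := 536870912) (W2 := 536870912) (P3 := 402653184) (W3 := 67108864) (N0 := 3)
    rfl k0_mm_101

noncomputable def f_mm_102 : ℕ → ℕ → ℕ → ℕ → Bool := onCell 536870912 536870912 1073741824 536870912 402653184 67108864
    (rowN 3 0 false false false .npp 1 0 2 (qsf 536870912 536870912 1073741824 536870912 0) ndN3q1 ndN3q2 pcN0 Cut.none Ext.none)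

def k0_mm_102 : ∃ t, chk3 f_mm_102 t 1 1 1 = true :=
  ⟨(l 5), by decide +kernel⟩

theorem c_mm_102 : CertN 536870912 536870912 1073741824 536870912 402653184 67108864 3 false false false .npp 1 0 2
    ndN3q1 ndN3q2 pcN0 Cut.none Ext.none :=
  certN0 (fam := false) (s1 := false) (s2 := false) (a := 1) (b := 0) (c := 2) (cn := .npp) (n1 := ndN3q1) (n2 := ndN3q2) (pc := pcN0) (cut := Cut.none) (xt := Ext.none) (P1 := 536870912) (W1 := 536870912) (P2 := 1073741824) (W2 := 536870912) (P3 := 402653184) (W3 := 67108864) (N0 := 3)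
    rfl k0_mm_102

noncomputable def f_mm_112 : ℕ → ℕ → ℕ → ℕ → Bool := onCell 536870912 536870912 1073741824 536870912 402653184 67108864
    (rowN 3 0 false false false .dn 1 1 2 (qsf 536870912 536870912 1073741824 536870912 1) ndN3q1 ndN3q2 pcN1 Cut.none Ext.none)

def k0_mm_112 : ∃ t, chk3 f_mm_112 t 1 1 1 = true :=
  ⟨(l 5), by decide +kernel⟩

theorem c_mm_112 : CertN 536870912 536870912 1073741824 536870912 402653184 67108864 3 false false false .dn 1 1 2
    ndN3q1 ndN3q2 pcN1 Cut.none Ext.none :=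
  certN0 (fam := false) (s1 := false) (s2 := false) (a := 1) (b := 1) (c := 2) (cn := .dn) (n1 := ndN3q1) (n2 := ndN3q2) (pc := pcN1) (cut := Cut.none) (xt := Ext.none) (P1 := 536870912) (W1 := 536870912) (P2 := 1073741824) (W2 := 536870912) (P3 := 402653184) (W3 := 67108864) (N0 := 3)
    rfl k0_mm_112

noncomputable def f_mm_113 : ℕ → ℕ → ℕ → ℕ → Bool := onCell 536870912 536870912 0 1230186008 402653184 67108864
    (rowN 3 0 false false false .nn 1 1 3 (qsf 536870912 536870912 0 1230186008 1) ndN3q1 ndN3q3 pcN1 Cut.none Ext.none)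

def k0_mm_113 : ∃ t, chk3 f_mm_113 t 1 1 1 = true :=
  ⟨(l 5), by decide +kernel⟩

theorem c_mm_113 : CertN 536870912 536870912 0 1230186008 402653184 67108864 3 false false false .nn 1 1 3
    ndN3q1 ndN3q3 pcN1 Cut.none Ext.none :=
  certN0 (fam := false) (s1 := false) (s2 := false) (a := 1) (b := 1) (c := 3) (cn := .nn) (n1 := ndN3q1) (n2 := ndN3q3) (pc := pcN1) (cut := Cut.none) (xt := Ext.none) (P1 := 536870912) (W1 := 536870912) (P2 := 0) (W2 := 1230186008) (P3 := 402653184) (W3 := 67108864) (N0 := 3)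
    rfl k0_mm_113

noncomputable def f_mm_123 : ℕ → ℕ → ℕ → ℕ → Bool := onCell 536870912 536870912 0 1230186008 402653184 67108864
    (rowN 3 0 false false false .npn 1 2 3 (qsf 536870912 536870912 0 1230186008 2) ndN3q1 ndN3q3 pcN2 Cut.none Ext.none)

def k0_mm_123 : ∃ t, chk3 f_mm_123 t 1 1 1 = true :=
  ⟨(l 5), by decide +kernel⟩

theorem c_mm_123 : CertN 536870912 536870912 0 1230186008 402653184 67108864 3 false false false .npn 1 2 3
    ndN3q1 ndN3q3 pcN2 Cut.none Ext.none :=
  certN0 (fam := false) (s1 := false) (s2 := false) (a := 1) (b := 2) (c := 3) (cn := .npn) (n1 := ndN3q1) (n2 := ndN3q3) (pc := pcN2) (cut := Cut.none) (xt := Ext.none) (P1 := 536870912) (W1 := 536870912) (P2 := 0) (W2 := 1230186008) (P3 := 402653184) (W3 := 67108864) (N0 := 3)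
    rfl k0_mm_123

noncomputable def f_mm_133 : ℕ → ℕ → ℕ → ℕ → Bool := onCell 536870912 536870912 0 1230186008 402653184 67108864
    (rowN 3 0 false false false .dn 1 3 3 (qsf 536870912 536870912 0 1230186008 3) ndN3q1 ndN3q3 pcN3 Cut.none Ext.none)

def k0_mm_133 : ∃ t, chk3 f_mm_133 t 1 1 1 = true :=
  ⟨(l 5), by decide +kernel⟩

theorem c_mm_133 : CertN 536870912 536870912 0 1230186008 402653184 67108864 3 false false false .dn 1 3 3
    ndN3q1 ndN3q3 pcN3 Cut.none Ext.none :=
  certN0 (fam := false) (s1 := false) (s2 := false) (a := 1) (b := 3) (c := 3) (cn := .dn) (n1 := ndN3q1) (n2 := ndN3q3) (pc := pcN3) (cut := Cut.none) (xt := Ext.none) (P1 := 536870912) (W1 := 536870912) (P2 := 0) (W2 := 1230186008) (P3 := 402653184) (W3 := 67108864) (N0 := 3)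
    rfl k0_mm_133

noncomputable def f_mm_202 : ℕ → ℕ → ℕ → ℕ → Bool := onCell 1073741824 536870912 1073741824 536870912 402653184 67108864
    (rowN 3 0 false false false .pp 2 0 2 (qsf 1073741824 536870912 1073741824 536870912 0) ndN3q2 ndN3q2 pcN0 Cut.none Ext.none)

def k0_mm_202 : ∃ t, chk3 f_mm_202 t 1 1 1 = true :=
  ⟨(l 3), by decide +kernel⟩

theorem c_mm_202 : CertN 1073741824 536870912 1073741824 536870912 402653184 67108864 3 false false false .pp 2 0 2
    ndN3q2 ndN3q2 pcN0 Cut.none Ext.none :=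
  certN0 (fam := false) (s1 := false) (s2 := false) (a := 2) (b := 0) (c := 2) (cn := .pp) (n1 := ndN3q2) (n2 := ndN3q2) (pc := pcN0) (cut := Cut.none) (xt := Ext.none) (P1 := 1073741824) (W1 := 536870912) (P2 := 1073741824) (W2 := 536870912) (P3 := 402653184) (W3 := 67108864) (N0 := 3)
    rfl k0_mm_202

noncomputable def f_mm_203 : ℕ → ℕ → ℕ → ℕ → Bool := onCell 1073741824 536870912 0 1230186008 402653184 67108864
    (rowN 3 0 false false false .up 2 0 3 (qsf 1073741824 536870912 0 1230186008 0) ndN3q2 ndN3q3 pcN0 Cut.none Ext.none)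

def k0_mm_203 : ∃ t, chk3 f_mm_203 t 1 1 1 = true :=
  ⟨(b (l 5) (b (l 5) (l 3))), by decide +kernel⟩

theorem c_mm_203 : CertN 1073741824 536870912 0 1230186008 402653184 67108864 3 false false false .up 2 0 3
    ndN3q2 ndN3q3 pcN0 Cut.none Ext.none :=
  certN0 (fam := false) (s1 := false) (s2 := false) (a := 2) (b := 0) (c := 3) (cn := .up) (n1 := ndN3q2) (n2 := ndN3q3) (pc := pcN0) (cut := Cut.none) (xt := Ext.none) (P1 := 1073741824) (W1 := 536870912) (P2 := 0) (W2 := 1230186008) (P3 := 402653184) (W3 := 67108864) (N0 := 3)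
    rfl k0_mm_203

noncomputable def f_mm_213 : ℕ → ℕ → ℕ → ℕ → Bool := onCell 536870912 536870912 0 1230186008 402653184 67108864
    (rowN 3 2 false false false .pnn 2 1 3 (qsf 1073741824 536870912 0 1230186008 1) ndN3q2 ndN3q3 pcN1 Cut.none Ext.none)

def k0_mm_213 : ∃ t, chk3 f_mm_213 t 1 1 1 = true :=
  ⟨(b (l 5) (l 5)), by decide +kernel⟩

theorem c_mm_213 : CertN 1073741824 536870912 0 1230186008 402653184 67108864 3 false false false .pnn 2 1 3
    ndN3q2 ndN3q3 pcN1 Cut.none Ext.none :=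
  certN2 (fam := false) (s1 := false) (s2 := false) (a := 2) (b := 1) (c := 3) (cn := .pnn) (n1 := ndN3q2) (n2 := ndN3q3) (pc := pcN1) (cut := Cut.none) (xt := Ext.none) (P1 := 1073741824) (W1 := 536870912) (P2 := 0) (W2 := 1230186008) (P3 := 402653184) (W3 := 67108864) (N0 := 3)
    rfl (fun _ => rfl) k0_mm_213

noncomputable def f_mm_303 : ℕ → ℕ → ℕ → ℕ → Bool := onCell 0 1230186008 0 1230186008 402653184 67108864
    (rowN 3 0 false false false .npn 3 0 3 (qsf 0 1230186008 0 1230186008 0) ndN3q3 ndN3q3 pcN0 Cut.none Ext.none)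

def k0_mm_303 : ∃ t, chk3 f_mm_303 t 1 1 1 = true :=
  ⟨(a (b (l 3) (l 3)) (b (l 3) (l 3))), by decide +kernel⟩

theorem c_mm_303 : CertN 0 1230186008 0 1230186008 402653184 67108864 3 false false false .npn 3 0 3
    ndN3q3 ndN3q3 pcN0 Cut.none Ext.none :=
  certN0 (fam := false) (s1 := false) (s2 := false) (a := 3) (b := 0) (c := 3) (cn := .npn) (n1 := ndN3q3) (n2 := ndN3q3) (pc := pcN0) (cut := Cut.none) (xt := Ext.none) (P1 := 0) (W1 := 1230186008) (P2 := 0) (W2 := 1230186008) (P3 := 402653184) (W3 := 67108864) (N0 := 3)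
    rfl k0_mm_303

noncomputable def f_mm_313 : ℕ → ℕ → ℕ → ℕ → Bool := onCell 0 1230186008 0 1230186008 402653184 67108864
    (rowN 3 0 false false false .dn 3 1 3 (qsf 0 1230186008 0 1230186008 1) ndN3q3 ndN3q3 pcN1 Cut.none Ext.none)

def k0_mm_313 : ∃ t, chk3 f_mm_313 t 1 1 1 = true :=
  ⟨(a (l 1) (b (l 3) (l 1))), by decide +kernel⟩

theorem c_mm_313 : CertN 0 1230186008 0 1230186008 402653184 67108864 3 false false false .dn 3 1 3
    ndN3q3 ndN3q3 pcN1 Cut.none Ext.none :=
  certN0 (fam := false) (s1 := false) (s2 := false) (a := 3) (b := 1) (c := 3) (cn := .dn) (n1 := ndN3q3) (n2 := ndN3q3) (pc := pcN1) (cut := Cut.none) (xt := Ext.none) (P1 := 0) (W1 := 1230186008) (P2 := 0) (W2 := 1230186008) (P3 := 402653184) (W3 := 67108864) (N0 := 3)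
    rfl k0_mm_313

end Pool.Agent.Strip051.G.I3_8_7_16.Tab.C.NB33

namespace Pool.Agent.Strip051.G.I3_8_7_16.Tab.C.NB34

open Pool.Agent.Strip051.PB Pool.Agent.Strip051.PB.T
open Pool.Agent.Strip051.G.I3_8_7_16.Tab

noncomputable def f_pp_001 : ℕ → ℕ → ℕ → ℕ → Bool := onCell 0 536870912 536870912 536870912 402653184 67108864
    (rowN 3 0 false true true .up 0 0 1 (qsf 0 536870912 536870912 536870912 0) ndN3q0 ndN4q1 pcN0 Cut.none Ext.none)

def k0_pp_001 : ∃ t, chk3 f_pp_001 t 1 1 1 = true :=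
  ⟨(l 3), by decide +kernel⟩

theorem c_pp_001 : CertN 0 536870912 536870912 536870912 402653184 67108864 3 false true true .up 0 0 1
    ndN3q0 ndN4q1 pcN0 Cut.none Ext.none :=
  certN0 (fam := false) (s1 := true) (s2 := true) (a := 0) (b := 0) (c := 1) (cn := .up) (n1 := ndN3q0) (n2 := ndN4q1) (pc := pcN0) (cut := Cut.none) (xt := Ext.none) (P1 := 0) (W1 := 536870912) (P2 := 536870912) (W2 := 536870912) (P3 := 402653184) (W3 := 67108864) (N0 := 3)
    rfl k0_pp_001

noncomputable def f_pp_011 : ℕ → ℕ → ℕ → ℕ → Bool := onCell 0 536870912 536870912 536870912 402653184 67108864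
    (rowN 3 0 false true true .pnn 0 1 1 (qsf 0 536870912 536870912 536870912 1) ndN3q0 ndN4q1 pcN1 Cut.none Ext.none)

def k0_pp_011 : ∃ t, chk3 f_pp_011 t 1 1 1 = true :=
  ⟨(l 3), by decide +kernel⟩

theorem c_pp_011 : CertN 0 536870912 536870912 536870912 402653184 67108864 3 false true true .pnn 0 1 1
    ndN3q0 ndN4q1 pcN1 Cut.none Ext.none :=
  certN0 (fam := false) (s1 := true) (s2 := true) (a := 0) (b := 1) (c := 1) (cn := .pnn) (n1 := ndN3q0) (n2 := ndN4q1) (pc := pcN1) (cut := Cut.none) (xt := Ext.none) (P1 := 0) (W1 := 536870912) (P2 := 536870912) (W2 := 536870912) (P3 := 402653184) (W3 := 67108864) (N0 := 3)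
    rfl k0_pp_011

noncomputable def f_pp_012 : ℕ → ℕ → ℕ → ℕ → Bool := onCell 0 536870912 536870912 536870912 402653184 67108864
    (rowN 3 1 false true true .pnp 0 1 2 (qsf 0 536870912 1073741824 536870912 1) ndN3q0 ndN4q2 pcN1 Cut.none Ext.none)

def k0_pp_012 : ∃ t, chk3 f_pp_012 t 1 1 1 = true :=
  ⟨(b (l 3) (l 3)), by decide +kernel⟩

theorem c_pp_012 : CertN 0 536870912 1073741824 536870912 402653184 67108864 3 false true true .pnp 0 1 2
    ndN3q0 ndN4q2 pcN1 Cut.none Ext.none :=
  certN1 (fam := false) (s1 := true) (s2 := true) (a := 0) (b := 1) (c := 2) (cn := .pnp) (n1 := ndN3q0) (n2 := ndN4q2) (pc := pcN1) (cut := Cut.none) (xt := Ext.none) (P1 := 0) (W1 := 536870912) (P2 := 1073741824) (W2 := 536870912) (P3 := 402653184) (W3 := 67108864) (N0 := 3)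
    rfl (fun _ => rfl) k0_pp_012

noncomputable def f_pp_022 : ℕ → ℕ → ℕ → ℕ → Bool := onCell 0 536870912 1073741824 536870912 402653184 67108864
    (rowN 3 1 false true true .pp 0 2 2 (qsf 0 536870912 1073741824 536870912 2) ndN3q0 ndN4q2 pcN2 Cut.none Ext.none)

def k0_pp_022 : ∃ t, chk3 f_pp_022 t 1 1 1 = true :=
  ⟨(a (b (b (b (l 3) (a (l 3) (b (l 3) (l 17211712)))) (b (a (b (b (l 3) (b (a (l 3) (l 16894896)) (a (b (l 3) (l 16645080)) (b (l 16885368) (l 16879280))))) (a (l 16612192) (l 16855208))) (b (b (l 17185344) (b (l 17171696) (b (l 17164752) (a (l 17075112) (l 17235496))))) (l 17140088))) (a (a (l 16523928) (l 16788704)) (a (l 16999280) (l 17149856))))) (b (a (a (b (l 16403920) (l 16276568)) (b (l 16691760) (l 16568560))) (b (a (l 16904224) (l 17043888)) (l 16854064))) (a (b (a (l 16121824) (l 16418672)) (a (l 16385760) (l 16717760))) (b (a (l 16727328) (l 2)) (l 2))))) (b (b (b (a (l 3) (l 561736106247)) (a (a (l 17215768) (l 17195416)) (a (l 17192720) (l 17179432))))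 (b (a (b (b (l 17253992) (b (l 17263264) (l 17337576))) (l 17257848)) (l 17388408)) (a (l 17275840) (l 2)))) (a (b (b (l 17144936) (l 2)) (l 2)) (l 2)))), by decide +kernel⟩

theorem c_pp_022 : CertN 0 536870912 1073741824 536870912 402653184 67108864 3 false true true .pp 0 2 2
    ndN3q0 ndN4q2 pcN2 Cut.none Ext.none :=
  certN1 (fam := false) (s1 := true) (s2 := true) (a := 0) (b := 2) (c := 2) (cn := .pp) (n1 := ndN3q0) (n2 := ndN4q2) (pc := pcN2) (cut := Cut.none) (xt := Ext.none) (P1 := 0) (W1 := 536870912) (P2 := 1073741824) (W2 := 536870912) (P3 := 402653184) (W3 := 67108864) (N0 := 3)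
    rfl (fun _ => rfl) k0_pp_022

noncomputable def f_pp_023 : ℕ → ℕ → ℕ → ℕ → Bool := onCell 1073741824 536870912 0 1230186008 402653184 67108864
    (rowN 3 2 false true true .up 0 2 3 (qsf 0 536870912 0 1230186008 2) ndN3q0 ndN4q3 pcN2 Cut.none Ext.none)

def k0_pp_023 : ∃ t, chk3 f_pp_023 t 1 1 1 = true :=
  ⟨(a (b (l 2) (a (b (l 2) (b (l 2) (a (l 17188280) (l 17181280)))) (b (l 17053424) (b (l 17060336) (a (l 17149696) (l 17197456)))))) (b (a (l 2) (l 16867976)) (b (a (b (l 16908952) (l 16973272)) (b (l 16889472) (l 16898952))) (a (b (l 17085128) (a (l 17130360) (l 16920352))) (b (a (l 16880896) (l 16884352)) (a (l 16741712) (b (l 16819272) (l 16600848)))))))), by decide +kernel⟩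

theorem c_pp_023 : CertN 0 536870912 0 1230186008 402653184 67108864 3 false true true .up 0 2 3
    ndN3q0 ndN4q3 pcN2 Cut.none Ext.none :=
  certN2 (fam := false) (s1 := true) (s2 := true) (a := 0) (b := 2) (c := 3) (cn := .up) (n1 := ndN3q0) (n2 := ndN4q3) (pc := pcN2) (cut := Cut.none) (xt := Ext.none) (P1 := 0) (W1 := 536870912) (P2 := 0) (W2 := 1230186008) (P3 := 402653184) (W3 := 67108864) (N0 := 3)
    rfl (fun _ => rfl) k0_pp_023

noncomputable def f_pp_033 : ℕ → ℕ → ℕ → ℕ → Bool := onCell 1610612736 536870912 0 1230186008 402653184 67108864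
    (rowN 3 2 false true true .pnn 0 3 3 (qsf 0 536870912 0 1230186008 3) ndN3q0 ndN4q3 pcN3 Cut.none Ext.none)

def k0_pp_033 : ∃ t, chk3 f_pp_033 t 1 1 1 = true :=
  ⟨(b (b (l 4) (a (a (l 16893576) (l 16939056)) (a (l 4) (l 4)))) (b (a (a (b (l 16945296) (l 16999768)) (b (l 17035440) (l 17127328))) (a (a (l 1009352234183) (l 1124778921431)) (a (b (l 17308064) (l 1)) (l 1)))) (a (b (a (b (l 16998816) (l 16947032)) (b (l 17151112) (l 17121264))) (a (b (l 16803616) (a (l 16465912) (l 832183559991))) (b (a (l 16945112) (l 1)) (l 1)))) (l 1)))), by decide +kernel⟩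

theorem c_pp_033 : CertN 0 536870912 0 1230186008 402653184 67108864 3 false true true .pnn 0 3 3
    ndN3q0 ndN4q3 pcN3 Cut.none Ext.none :=
  certN2 (fam := false) (s1 := true) (s2 := true) (a := 0) (b := 3) (c := 3) (cn := .pnn) (n1 := ndN3q0) (n2 := ndN4q3) (pc := pcN3) (cut := Cut.none) (xt := Ext.none) (P1 := 0) (W1 := 536870912) (P2 := 0) (W2 := 1230186008) (P3 := 402653184) (W3 := 67108864) (N0 := 3)
    rfl (fun _ => rfl) k0_pp_033

noncomputable def f_pp_101 : ℕ → ℕ → ℕ → ℕ → Bool := onCell 536870912 536870912 536870912 536870912 402653184 67108864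
    (rowN 3 0 false true true .npn 1 0 1 (qsf 536870912 536870912 536870912 536870912 0) ndN3q1 ndN4q1 pcN0 Cut.none Ext.none)

def k0_pp_101 : ∃ t, chk3 f_pp_101 t 1 1 1 = true :=
  ⟨(l 3), by decide +kernel⟩

theorem c_pp_101 : CertN 536870912 536870912 536870912 536870912 402653184 67108864 3 false true true .npn 1 0 1
    ndN3q1 ndN4q1 pcN0 Cut.none Ext.none :=
  certN0 (fam := false) (s1 := true) (s2 := true) (a := 1) (b := 0) (c := 1) (cn := .npn) (n1 := ndN3q1) (n2 := ndN4q1) (pc := pcN0) (cut := Cut.none) (xt := Ext.none) (P1 := 536870912) (W1 := 536870912) (P2 := 536870912) (W2 := 536870912) (P3 := 402653184) (W3 := 67108864) (N0 := 3)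
    rfl k0_pp_101

noncomputable def f_pp_102 : ℕ → ℕ → ℕ → ℕ → Bool := onCell 536870912 536870912 1073741824 536870912 402653184 67108864
    (rowN 3 0 false true true .npp 1 0 2 (qsf 536870912 536870912 1073741824 536870912 0) ndN3q1 ndN4q2 pcN0 Cut.none Ext.none)

def k0_pp_102 : ∃ t, chk3 f_pp_102 t 1 1 1 = true :=
  ⟨(l 3), by decide +kernel⟩

theorem c_pp_102 : CertN 536870912 536870912 1073741824 536870912 402653184 67108864 3 false true true .npp 1 0 2
    ndN3q1 ndN4q2 pcN0 Cut.none Ext.none :=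
  certN0 (fam := false) (s1 := true) (s2 := true) (a := 1) (b := 0) (c := 2) (cn := .npp) (n1 := ndN3q1) (n2 := ndN4q2) (pc := pcN0) (cut := Cut.none) (xt := Ext.none) (P1 := 536870912) (W1 := 536870912) (P2 := 1073741824) (W2 := 536870912) (P3 := 402653184) (W3 := 67108864) (N0 := 3)
    rfl k0_pp_102

noncomputable def f_pp_112 : ℕ → ℕ → ℕ → ℕ → Bool := onCell 536870912 536870912 1073741824 536870912 402653184 67108864
    (rowN 3 0 false true true .dn 1 1 2 (qsf 536870912 536870912 1073741824 536870912 1) ndN3q1 ndN4q2 pcN1 Cut.none Ext.none)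

def k0_pp_112 : ∃ t, chk3 f_pp_112 t 1 1 1 = true :=
  ⟨(l 3), by decide +kernel⟩

theorem c_pp_112 : CertN 536870912 536870912 1073741824 536870912 402653184 67108864 3 false true true .dn 1 1 2
    ndN3q1 ndN4q2 pcN1 Cut.none Ext.none :=
  certN0 (fam := false) (s1 := true) (s2 := true) (a := 1) (b := 1) (c := 2) (cn := .dn) (n1 := ndN3q1) (n2 := ndN4q2) (pc := pcN1) (cut := Cut.none) (xt := Ext.none) (P1 := 536870912) (W1 := 536870912) (P2 := 1073741824) (W2 := 536870912) (P3 := 402653184) (W3 := 67108864) (N0 := 3)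
    rfl k0_pp_112

noncomputable def f_pp_113 : ℕ → ℕ → ℕ → ℕ → Bool := onCell 536870912 536870912 0 1230186008 402653184 67108864
    (rowN 3 2 false true true .nn 1 1 3 (qsf 536870912 536870912 0 1230186008 1) ndN3q1 ndN4q3 pcN1 Cut.none Ext.none)

def k0_pp_113 : ∃ t, chk3 f_pp_113 t 1 1 1 = true :=
  ⟨(a (b (l 2) (b (a (l 2) (b (l 2) (l 417854924839))) (l 3))) (b (a (l 2) (b (l 16938872) (l 17138992))) (b (a (b (l 17420608) (l 259478214023)) (b (l 17210064) (a (l 17286496) (l 17212672)))) (a (b (l 352356823671) (l 3)) (b (a (l 17308712) (l 17254072)) (l 424297386983)))))), by decide +kernel⟩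

theorem c_pp_113 : CertN 536870912 536870912 0 1230186008 402653184 67108864 3 false true true .nn 1 1 3
    ndN3q1 ndN4q3 pcN1 Cut.none Ext.none :=
  certN2 (fam := false) (s1 := true) (s2 := true) (a := 1) (b := 1) (c := 3) (cn := .nn) (n1 := ndN3q1) (n2 := ndN4q3) (pc := pcN1) (cut := Cut.none) (xt := Ext.none) (P1 := 536870912) (W1 := 536870912) (P2 := 0) (W2 := 1230186008) (P3 := 402653184) (W3 := 67108864) (N0 := 3)
    rfl (fun _ => rfl) k0_pp_113

noncomputable def f_pp_123 : ℕ → ℕ → ℕ → ℕ → Bool := onCell 1073741824 536870912 0 1230186008 402653184 67108864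
    (rowN 3 2 false true true .npn 1 2 3 (qsf 536870912 536870912 0 1230186008 2) ndN3q1 ndN4q3 pcN2 Cut.none Ext.none)

def k0_pp_123 : ∃ t, chk3 f_pp_123 t 1 1 1 = true :=
  ⟨(a (b (a (b (l 16808784) (l 16943088)) (b (l 16780120) (l 16850248))) (a (b (b (l 17054304) (l 17111728)) (b (l 17161800) (a (l 17307864) (l 422552430759)))) (b (l 17071536) (b (l 17039232) (a (l 17355512) (l 1)))))) (b (a (b (l 16801304) (l 16810128)) (l 16748240)) (b (a (b (l 16922736) (l 16912584)) (b (l 16852888) (l 1))) (l 1)))), by decide +kernel⟩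

theorem c_pp_123 : CertN 536870912 536870912 0 1230186008 402653184 67108864 3 false true true .npn 1 2 3
    ndN3q1 ndN4q3 pcN2 Cut.none Ext.none :=
  certN2 (fam := false) (s1 := true) (s2 := true) (a := 1) (b := 2) (c := 3) (cn := .npn) (n1 := ndN3q1) (n2 := ndN4q3) (pc := pcN2) (cut := Cut.none) (xt := Ext.none) (P1 := 536870912) (W1 := 536870912) (P2 := 0) (W2 := 1230186008) (P3 := 402653184) (W3 := 67108864) (N0 := 3)
    rfl (fun _ => rfl) k0_pp_123

noncomputable def f_pp_133 : ℕ → ℕ → ℕ → ℕ → Bool := onCell 1610612736 536870912 0 1230186008 402653184 67108864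
    (rowN 3 2 false true true .dn 1 3 3 (qsf 536870912 536870912 0 1230186008 3) ndN3q1 ndN4q3 pcN3 Cut.none Ext.none)

def k0_pp_133 : ∃ t, chk3 f_pp_133 t 1 1 1 = true :=
  ⟨(b (b (l 4) (l 1)) (l 1)), by decide +kernel⟩

theorem c_pp_133 : CertN 536870912 536870912 0 1230186008 402653184 67108864 3 false true true .dn 1 3 3
    ndN3q1 ndN4q3 pcN3 Cut.none Ext.none :=
  certN2 (fam := false) (s1 := true) (s2 := true) (a := 1) (b := 3) (c := 3) (cn := .dn) (n1 := ndN3q1) (n2 := ndN4q3) (pc := pcN3) (cut := Cut.none) (xt := Ext.none) (P1 := 536870912) (W1 := 536870912) (P2 := 0) (W2 := 1230186008) (P3 := 402653184) (W3 := 67108864) (N0 := 3)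
    rfl (fun _ => rfl) k0_pp_133

noncomputable def f_pp_202 : ℕ → ℕ → ℕ → ℕ → Bool := onCell 1073741824 536870912 1073741824 536870912 402653184 67108864
    (rowN 3 0 false true true .pp 2 0 2 (qsf 1073741824 536870912 1073741824 536870912 0) ndN3q2 ndN4q2 pcN0 Cut.none Ext.none)

def k0_pp_202 : ∃ t, chk3 f_pp_202 t 1 1 1 = true :=
  ⟨(l 3), by decide +kernel⟩

theorem c_pp_202 : CertN 1073741824 536870912 1073741824 536870912 402653184 67108864 3 false true true .pp 2 0 2
    ndN3q2 ndN4q2 pcN0 Cut.none Ext.none :=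
  certN0 (fam := false) (s1 := true) (s2 := true) (a := 2) (b := 0) (c := 2) (cn := .pp) (n1 := ndN3q2) (n2 := ndN4q2) (pc := pcN0) (cut := Cut.none) (xt := Ext.none) (P1 := 1073741824) (W1 := 536870912) (P2 := 1073741824) (W2 := 536870912) (P3 := 402653184) (W3 := 67108864) (N0 := 3)
    rfl k0_pp_202

noncomputable def f_pp_203 : ℕ → ℕ → ℕ → ℕ → Bool := onCell 0 536870912 0 1230186008 402653184 67108864
    (rowN 3 2 false true true .up 2 0 3 (qsf 1073741824 536870912 0 1230186008 0) ndN3q2 ndN4q3 pcN0 Cut.none Ext.none)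

def k0_pp_203 : ∃ t, chk3 f_pp_203 t 1 1 1 = true :=
  ⟨(b (a (l 2) (l 3)) (l 3)), by decide +kernel⟩

theorem c_pp_203 : CertN 1073741824 536870912 0 1230186008 402653184 67108864 3 false true true .up 2 0 3
    ndN3q2 ndN4q3 pcN0 Cut.none Ext.none :=
  certN2 (fam := false) (s1 := true) (s2 := true) (a := 2) (b := 0) (c := 3) (cn := .up) (n1 := ndN3q2) (n2 := ndN4q3) (pc := pcN0) (cut := Cut.none) (xt := Ext.none) (P1 := 1073741824) (W1 := 536870912) (P2 := 0) (W2 := 1230186008) (P3 := 402653184) (W3 := 67108864) (N0 := 3)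
    rfl (fun _ => rfl) k0_pp_203

noncomputable def f_pp_213 : ℕ → ℕ → ℕ → ℕ → Bool := onCell 536870912 536870912 0 1230186008 402653184 67108864
    (rowN 3 2 false true true .pnn 2 1 3 (qsf 1073741824 536870912 0 1230186008 1) ndN3q2 ndN4q3 pcN1 Cut.none Ext.none)

def k0_pp_213 : ∃ t, chk3 f_pp_213 t 1 1 1 = true :=
  ⟨(b (b (a (a (a (l 3) (l 277730549623)) (a (l 255719324599) (l 236928807927))) (a (a (l 16955408) (l 16938248)) (a (l 16913168) (l 16874272)))) (a (l 3) (a (b (a (l 3) (l 16971832)) (l 3)) (a (l 328733597559) (l 1144106374663))))) (a (l 3) (l 3))), by decide +kernel⟩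

theorem c_pp_213 : CertN 1073741824 536870912 0 1230186008 402653184 67108864 3 false true true .pnn 2 1 3
    ndN3q2 ndN4q3 pcN1 Cut.none Ext.none :=
  certN2 (fam := false) (s1 := true) (s2 := true) (a := 2) (b := 1) (c := 3) (cn := .pnn) (n1 := ndN3q2) (n2 := ndN4q3) (pc := pcN1) (cut := Cut.none) (xt := Ext.none) (P1 := 1073741824) (W1 := 536870912) (P2 := 0) (W2 := 1230186008) (P3 := 402653184) (W3 := 67108864) (N0 := 3)
    rfl (fun _ => rfl) k0_pp_213

noncomputable def f_pp_303 : ℕ → ℕ → ℕ → ℕ → Bool := onCell 0 1230186008 0 1230186008 402653184 67108864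
    (rowN 3 0 false true true .npn 3 0 3 (qsf 0 1230186008 0 1230186008 0) ndN3q3 ndN4q3 pcN0 Cut.none Ext.none)

def k0_pp_303 : ∃ t, chk3 f_pp_303 t 1 1 1 = true :=
  ⟨(a (b (l 3) (l 5)) (b (l 3) (l 3))), by decide +kernel⟩

theorem c_pp_303 : CertN 0 1230186008 0 1230186008 402653184 67108864 3 false true true .npn 3 0 3
    ndN3q3 ndN4q3 pcN0 Cut.none Ext.none :=
  certN0 (fam := false) (s1 := true) (s2 := true) (a := 3) (b := 0) (c := 3) (cn := .npn) (n1 := ndN3q3) (n2 := ndN4q3) (pc := pcN0) (cut := Cut.none) (xt := Ext.none) (P1 := 0) (W1 := 1230186008) (P2 := 0) (W2 := 1230186008) (P3 := 402653184) (W3 := 67108864) (N0 := 3)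
    rfl k0_pp_303

noncomputable def f_pp_313 : ℕ → ℕ → ℕ → ℕ → Bool := onCell 0 1230186008 0 1230186008 402653184 67108864
    (rowN 3 0 false true true .dn 3 1 3 (qsf 0 1230186008 0 1230186008 1) ndN3q3 ndN4q3 pcN1 Cut.none Ext.none)

def k0_pp_313 : ∃ t, chk3 f_pp_313 t 1 1 1 = true :=
  ⟨(a (l 1) (b (l 3) (l 1))), by decide +kernel⟩

theorem c_pp_313 : CertN 0 1230186008 0 1230186008 402653184 67108864 3 false true true .dn 3 1 3
    ndN3q3 ndN4q3 pcN1 Cut.none Ext.none :=
  certN0 (fam := false) (s1 := true) (s2 := true) (a := 3) (b := 1) (c := 3) (cn := .dn) (n1 := ndN3q3) (n2 := ndN4q3) (pc := pcN1) (cut := Cut.none) (xt := Ext.none) (P1 := 0) (W1 := 1230186008) (P2 := 0) (W2 := 1230186008) (P3 := 402653184) (W3 := 67108864) (N0 := 3)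
    rfl k0_pp_313

noncomputable def f_pm_001 : ℕ → ℕ → ℕ → ℕ → Bool := onCell 0 536870912 536870912 536870912 402653184 67108864
    (rowN 3 0 false true false .up 0 0 1 (qsf 0 536870912 536870912 536870912 0) ndN3q0 ndN4q1 pcN0 Cut.none Ext.none)

def k0_pm_001 : ∃ t, chk3 f_pm_001 t 1 1 1 = true :=
  ⟨(l 4), by decide +kernel⟩

theorem c_pm_001 : CertN 0 536870912 536870912 536870912 402653184 67108864 3 false true false .up 0 0 1
    ndN3q0 ndN4q1 pcN0 Cut.none Ext.none :=
  certN0 (fam := false) (s1 := true) (s2 := false) (a := 0) (b := 0) (c := 1) (cn := .up) (n1 := ndN3q0) (n2 := ndN4q1) (pc := pcN0) (cut := Cut.none) (xt := Ext.none) (P1 := 0) (W1 := 536870912) (P2 := 536870912) (W2 := 536870912) (P3 := 402653184) (W3 := 67108864) (N0 := 3)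
    rfl k0_pm_001

noncomputable def f_pm_011 : ℕ → ℕ → ℕ → ℕ → Bool := onCell 0 536870912 536870912 536870912 402653184 67108864
    (rowN 3 0 false true false .pnn 0 1 1 (qsf 0 536870912 536870912 536870912 1) ndN3q0 ndN4q1 pcN1 Cut.none Ext.none)

def k0_pm_011 : ∃ t, chk3 f_pm_011 t 1 1 1 = true :=
  ⟨(l 4), by decide +kernel⟩

theorem c_pm_011 : CertN 0 536870912 536870912 536870912 402653184 67108864 3 false true false .pnn 0 1 1
    ndN3q0 ndN4q1 pcN1 Cut.none Ext.none :=
  certN0 (fam := false) (s1 := true) (s2 := false) (a := 0) (b := 1) (c := 1) (cn := .pnn) (n1 := ndN3q0) (n2 := ndN4q1) (pc := pcN1) (cut := Cut.none) (xt := Ext.none) (P1 := 0) (W1 := 536870912) (P2 := 536870912) (W2 := 536870912) (P3 := 402653184) (W3 := 67108864) (N0 := 3)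
    rfl k0_pm_011

noncomputable def f_pm_012 : ℕ → ℕ → ℕ → ℕ → Bool := onCell 0 536870912 1073741824 536870912 402653184 67108864
    (rowN 3 0 false true false .pnp 0 1 2 (qsf 0 536870912 1073741824 536870912 1) ndN3q0 ndN4q2 pcN1 Cut.none Ext.none)

def k0_pm_012 : ∃ t, chk3 f_pm_012 t 1 1 1 = true :=
  ⟨(l 4), by decide +kernel⟩

theorem c_pm_012 : CertN 0 536870912 1073741824 536870912 402653184 67108864 3 false true false .pnp 0 1 2
    ndN3q0 ndN4q2 pcN1 Cut.none Ext.none :=
  certN0 (fam := false) (s1 := true) (s2 := false) (a := 0) (b := 1) (c := 2) (cn := .pnp) (n1 := ndN3q0) (n2 := ndN4q2) (pc := pcN1) (cut := Cut.none) (xt := Ext.none) (P1 := 0) (W1 := 536870912) (P2 := 1073741824) (W2 := 536870912) (P3 := 402653184) (W3 := 67108864) (N0 := 3)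
    rfl k0_pm_012

noncomputable def f_pm_022 : ℕ → ℕ → ℕ → ℕ → Bool := onCell 0 536870912 1073741824 536870912 402653184 67108864
    (rowN 3 0 false true false .pp 0 2 2 (qsf 0 536870912 1073741824 536870912 2) ndN3q0 ndN4q2 pcN2 Cut.none Ext.none)

def k0_pm_022 : ∃ t, chk3 f_pm_022 t 1 1 1 = true :=
  ⟨(l 4), by decide +kernel⟩

theorem c_pm_022 : CertN 0 536870912 1073741824 536870912 402653184 67108864 3 false true false .pp 0 2 2
    ndN3q0 ndN4q2 pcN2 Cut.none Ext.none :=
  certN0 (fam := false) (s1 := true) (s2 := false) (a := 0) (b := 2) (c := 2) (cn := .pp) (n1 := ndN3q0) (n2 := ndN4q2) (pc := pcN2) (cut := Cut.none) (xt := Ext.none) (P1 := 0) (W1 := 536870912) (P2 := 1073741824) (W2 := 536870912) (P3 := 402653184) (W3 := 67108864) (N0 := 3)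
    rfl k0_pm_022

noncomputable def f_pm_023 : ℕ → ℕ → ℕ → ℕ → Bool := onCell 0 536870912 0 1230186008 402653184 67108864
    (rowN 3 0 false true false .up 0 2 3 (qsf 0 536870912 0 1230186008 2) ndN3q0 ndN4q3 pcN2 Cut.none Ext.none)

def k0_pm_023 : ∃ t, chk3 f_pm_023 t 1 1 1 = true :=
  ⟨(l 4), by decide +kernel⟩

theorem c_pm_023 : CertN 0 536870912 0 1230186008 402653184 67108864 3 false true false .up 0 2 3
    ndN3q0 ndN4q3 pcN2 Cut.none Ext.none :=
  certN0 (fam := false) (s1 := true) (s2 := false) (a := 0) (b := 2) (c := 3) (cn := .up) (n1 := ndN3q0) (n2 := ndN4q3) (pc := pcN2) (cut := Cut.none) (xt := Ext.none) (P1 := 0) (W1 := 536870912) (P2 := 0) (W2 := 1230186008) (P3 := 402653184) (W3 := 67108864) (N0 := 3)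
    rfl k0_pm_023

noncomputable def f_pm_033 : ℕ → ℕ → ℕ → ℕ → Bool := onCell 0 536870912 0 1230186008 402653184 67108864
    (rowN 3 0 false true false .pnn 0 3 3 (qsf 0 536870912 0 1230186008 3) ndN3q0 ndN4q3 pcN3 Cut.none Ext.none)

def k0_pm_033 : ∃ t, chk3 f_pm_033 t 1 1 1 = true :=
  ⟨(l 4), by decide +kernel⟩

theorem c_pm_033 : CertN 0 536870912 0 1230186008 402653184 67108864 3 false true false .pnn 0 3 3
    ndN3q0 ndN4q3 pcN3 Cut.none Ext.none :=
  certN0 (fam := false) (s1 := true) (s2 := false) (a := 0) (b := 3) (c := 3) (cn := .pnn) (n1 := ndN3q0) (n2 := ndN4q3) (pc := pcN3) (cut := Cut.none) (xt := Ext.none) (P1 := 0) (W1 := 536870912) (P2 := 0) (W2 := 1230186008) (P3 := 402653184) (W3 := 67108864) (N0 := 3)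
    rfl k0_pm_033

noncomputable def f_pm_101 : ℕ → ℕ → ℕ → ℕ → Bool := onCell 536870912 536870912 536870912 536870912 402653184 67108864
    (rowN 3 0 false true false .npn 1 0 1 (qsf 536870912 536870912 536870912 536870912 0) ndN3q1 ndN4q1 pcN0 Cut.none Ext.none)

def k0_pm_101 : ∃ t, chk3 f_pm_101 t 1 1 1 = true :=
  ⟨(l 4), by decide +kernel⟩

theorem c_pm_101 : CertN 536870912 536870912 536870912 536870912 402653184 67108864 3 false true false .npn 1 0 1
    ndN3q1 ndN4q1 pcN0 Cut.none Ext.none :=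
  certN0 (fam := false) (s1 := true) (s2 := false) (a := 1) (b := 0) (c := 1) (cn := .npn) (n1 := ndN3q1) (n2 := ndN4q1) (pc := pcN0) (cut := Cut.none) (xt := Ext.none) (P1 := 536870912) (W1 := 536870912) (P2 := 536870912) (W2 := 536870912) (P3 := 402653184) (W3 := 67108864) (N0 := 3)
    rfl k0_pm_101

noncomputable def f_pm_102 : ℕ → ℕ → ℕ → ℕ → Bool := onCell 536870912 536870912 1073741824 536870912 402653184 67108864
    (rowN 3 0 false true false .npp 1 0 2 (qsf 536870912 536870912 1073741824 536870912 0) ndN3q1 ndN4q2 pcN0 Cut.none Ext.none)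

def k0_pm_102 : ∃ t, chk3 f_pm_102 t 1 1 1 = true :=
  ⟨(l 4), by decide +kernel⟩

theorem c_pm_102 : CertN 536870912 536870912 1073741824 536870912 402653184 67108864 3 false true false .npp 1 0 2
    ndN3q1 ndN4q2 pcN0 Cut.none Ext.none :=
  certN0 (fam := false) (s1 := true) (s2 := false) (a := 1) (b := 0) (c := 2) (cn := .npp) (n1 := ndN3q1) (n2 := ndN4q2) (pc := pcN0) (cut := Cut.none) (xt := Ext.none) (P1 := 536870912) (W1 := 536870912) (P2 := 1073741824) (W2 := 536870912) (P3 := 402653184) (W3 := 67108864) (N0 := 3)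
    rfl k0_pm_102

noncomputable def f_pm_112 : ℕ → ℕ → ℕ → ℕ → Bool := onCell 536870912 536870912 1073741824 536870912 402653184 67108864
    (rowN 3 0 false true false .dn 1 1 2 (qsf 536870912 536870912 1073741824 536870912 1) ndN3q1 ndN4q2 pcN1 Cut.none Ext.none)

def k0_pm_112 : ∃ t, chk3 f_pm_112 t 1 1 1 = true :=
  ⟨(l 4), by decide +kernel⟩

theorem c_pm_112 : CertN 536870912 536870912 1073741824 536870912 402653184 67108864 3 false true false .dn 1 1 2
    ndN3q1 ndN4q2 pcN1 Cut.none Ext.none :=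
  certN0 (fam := false) (s1 := true) (s2 := false) (a := 1) (b := 1) (c := 2) (cn := .dn) (n1 := ndN3q1) (n2 := ndN4q2) (pc := pcN1) (cut := Cut.none) (xt := Ext.none) (P1 := 536870912) (W1 := 536870912) (P2 := 1073741824) (W2 := 536870912) (P3 := 402653184) (W3 := 67108864) (N0 := 3)
    rfl k0_pm_112

noncomputable def f_pm_113 : ℕ → ℕ → ℕ → ℕ → Bool := onCell 536870912 536870912 0 1230186008 402653184 67108864
    (rowN 3 0 false true false .nn 1 1 3 (qsf 536870912 536870912 0 1230186008 1) ndN3q1 ndN4q3 pcN1 Cut.none Ext.none)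

def k0_pm_113 : ∃ t, chk3 f_pm_113 t 1 1 1 = true :=
  ⟨(b (a (l 2) (b (a (l 2) (l 16831088)) (l 4))) (l 4)), by decide +kernel⟩

theorem c_pm_113 : CertN 536870912 536870912 0 1230186008 402653184 67108864 3 false true false .nn 1 1 3
    ndN3q1 ndN4q3 pcN1 Cut.none Ext.none :=
  certN0 (fam := false) (s1 := true) (s2 := false) (a := 1) (b := 1) (c := 3) (cn := .nn) (n1 := ndN3q1) (n2 := ndN4q3) (pc := pcN1) (cut := Cut.none) (xt := Ext.none) (P1 := 536870912) (W1 := 536870912) (P2 := 0) (W2 := 1230186008) (P3 := 402653184) (W3 := 67108864) (N0 := 3)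
    rfl k0_pm_113

noncomputable def f_pm_123 : ℕ → ℕ → ℕ → ℕ → Bool := onCell 536870912 536870912 0 1230186008 402653184 67108864
    (rowN 3 0 false true false .npn 1 2 3 (qsf 536870912 536870912 0 1230186008 2) ndN3q1 ndN4q3 pcN2 Cut.none Ext.none)

def k0_pm_123 : ∃ t, chk3 f_pm_123 t 1 1 1 = true :=
  ⟨(b (a (l 4) (b (a (l 4) (l 16842376)) (l 4))) (l 4)), by decide +kernel⟩

theorem c_pm_123 : CertN 536870912 536870912 0 1230186008 402653184 67108864 3 false true false .npn 1 2 3
    ndN3q1 ndN4q3 pcN2 Cut.none Ext.none :=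
  certN0 (fam := false) (s1 := true) (s2 := false) (a := 1) (b := 2) (c := 3) (cn := .npn) (n1 := ndN3q1) (n2 := ndN4q3) (pc := pcN2) (cut := Cut.none) (xt := Ext.none) (P1 := 536870912) (W1 := 536870912) (P2 := 0) (W2 := 1230186008) (P3 := 402653184) (W3 := 67108864) (N0 := 3)
    rfl k0_pm_123

noncomputable def f_pm_133 : ℕ → ℕ → ℕ → ℕ → Bool := onCell 1610612736 536870912 0 1230186008 402653184 67108864
    (rowN 3 2 false true false .dn 1 3 3 (qsf 536870912 536870912 0 1230186008 3) ndN3q1 ndN4q3 pcN3 Cut.none Ext.none)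

def k0_pm_133 : ∃ t, chk3 f_pm_133 t 1 1 1 = true :=
  ⟨(b (l 4) (l 1)), by decide +kernel⟩

theorem c_pm_133 : CertN 536870912 536870912 0 1230186008 402653184 67108864 3 false true false .dn 1 3 3
    ndN3q1 ndN4q3 pcN3 Cut.none Ext.none :=
  certN2 (fam := false) (s1 := true) (s2 := false) (a := 1) (b := 3) (c := 3) (cn := .dn) (n1 := ndN3q1) (n2 := ndN4q3) (pc := pcN3) (cut := Cut.none) (xt := Ext.none) (P1 := 536870912) (W1 := 536870912) (P2 := 0) (W2 := 1230186008) (P3 := 402653184) (W3 := 67108864) (N0 := 3)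
    rfl (fun _ => rfl) k0_pm_133

noncomputable def f_pm_202 : ℕ → ℕ → ℕ → ℕ → Bool := onCell 1073741824 536870912 1073741824 536870912 402653184 67108864
    (rowN 3 0 false true false .pp 2 0 2 (qsf 1073741824 536870912 1073741824 536870912 0) ndN3q2 ndN4q2 pcN0 Cut.none Ext.none)

def k0_pm_202 : ∃ t, chk3 f_pm_202 t 1 1 1 = true :=
  ⟨(l 4), by decide +kernel⟩

theorem c_pm_202 : CertN 1073741824 536870912 1073741824 536870912 402653184 67108864 3 false true false .pp 2 0 2
    ndN3q2 ndN4q2 pcN0 Cut.none Ext.none :=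
  certN0 (fam := false) (s1 := true) (s2 := false) (a := 2) (b := 0) (c := 2) (cn := .pp) (n1 := ndN3q2) (n2 := ndN4q2) (pc := pcN0) (cut := Cut.none) (xt := Ext.none) (P1 := 1073741824) (W1 := 536870912) (P2 := 1073741824) (W2 := 536870912) (P3 := 402653184) (W3 := 67108864) (N0 := 3)
    rfl k0_pm_202

noncomputable def f_pm_203 : ℕ → ℕ → ℕ → ℕ → Bool := onCell 1073741824 536870912 0 1230186008 402653184 67108864
    (rowN 3 0 false true false .up 2 0 3 (qsf 1073741824 536870912 0 1230186008 0) ndN3q2 ndN4q3 pcN0 Cut.none Ext.none)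

def k0_pm_203 : ∃ t, chk3 f_pm_203 t 1 1 1 = true :=
  ⟨(a (b (l 2) (b (b (l 2) (b (l 2) (l 4))) (l 4))) (b (a (l 2) (a (b (l 2) (l 929425389383)) (b (l 199347973655) (l 17118136)))) (b (a (b (a (l 2) (l 17092576)) (l 17113264)) (b (b (l 17024968) (l 16916216)) (l 16952296))) (b (a (l 4) (l 17064928)) (l 4))))), by decide +kernel⟩

theorem c_pm_203 : CertN 1073741824 536870912 0 1230186008 402653184 67108864 3 false true false .up 2 0 3
    ndN3q2 ndN4q3 pcN0 Cut.none Ext.none :=
  certN0 (fam := false) (s1 := true) (s2 := false) (a := 2) (b := 0) (c := 3) (cn := .up) (n1 := ndN3q2) (n2 := ndN4q3) (pc := pcN0) (cut := Cut.none) (xt := Ext.none) (P1 := 1073741824) (W1 := 536870912) (P2 := 0) (W2 := 1230186008) (P3 := 402653184) (W3 := 67108864) (N0 := 3)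
    rfl k0_pm_203

noncomputable def f_pm_213 : ℕ → ℕ → ℕ → ℕ → Bool := onCell 536870912 536870912 0 1230186008 402653184 67108864
    (rowN 3 2 false true false .pnn 2 1 3 (qsf 1073741824 536870912 0 1230186008 1) ndN3q2 ndN4q3 pcN1 Cut.none Ext.none)

def k0_pm_213 : ∃ t, chk3 f_pm_213 t 1 1 1 = true :=
  ⟨(b (b (a (a (a (l 17074688) (b (l 17032088) (l 17096208))) (b (l 17026432) (a (l 17087352) (l 17054264)))) (a (b (l 17090144) (l 16963992)) (a (l 16881272) (l 16823976)))) (a (a (a (b (b (l 17122440) (l 17081520)) (l 16964184)) (b (l 17064056) (l 16895704))) (b (l 16984440) (l 16946264))) (a (b (l 16867800) (l 16925984)) (l 81638886391)))) (b (a (b (a (a (a (l 16895216) (l 16917256)) (l 16972088)) (l 16989448)) (l 17146896)) (a (l 17240944) (l 139823043207))) (l 4))), by decide +kernel⟩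

theorem c_pm_213 : CertN 1073741824 536870912 0 1230186008 402653184 67108864 3 false true false .pnn 2 1 3
    ndN3q2 ndN4q3 pcN1 Cut.none Ext.none :=
  certN2 (fam := false) (s1 := true) (s2 := false) (a := 2) (b := 1) (c := 3) (cn := .pnn) (n1 := ndN3q2) (n2 := ndN4q3) (pc := pcN1) (cut := Cut.none) (xt := Ext.none) (P1 := 1073741824) (W1 := 536870912) (P2 := 0) (W2 := 1230186008) (P3 := 402653184) (W3 := 67108864) (N0 := 3)
    rfl (fun _ => rfl) k0_pm_213

noncomputable def f_pm_303 : ℕ → ℕ → ℕ → ℕ → Bool := onCell 0 1230186008 0 1230186008 402653184 67108864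
    (rowN 3 0 false true false .npn 3 0 3 (qsf 0 1230186008 0 1230186008 0) ndN3q3 ndN4q3 pcN0 Cut.none Ext.none)

def k0_pm_303 : ∃ t, chk3 f_pm_303 t 1 1 1 = true :=
  ⟨(a (b (l 3) (b (b (b (b (l 3) (l 1)) (l 1)) (l 1)) (l 1))) (b (a (b (l 3) (a (b (l 3) (l 17330696)) (b (l 233170844199) (b (l 17121960) (l 17142016))))) (a (b (b (l 3) (l 249276967751)) (b (l 176262614423) (b (l 17148016) (l 17164664)))) (b (a (l 242297671687) (b (l 17079120) (l 17108160))) (a (b (l 17133896) (l 17155288)) (b (l 17141064) (l 17136720)))))) (a (b (b (a (b (l 17170576) (l 17225632)) (b (l 17188120) (l 17202208))) (a (b (l 17298464) (l 1)) (b (l 17226168) (a (l 17300392) (l 17227544))))) (a (l 1) (b (b (a (l 1) (l 17122600)) (l 1)) (l 1)))) (b (a (b (c (l 17197352) (l 17081208)) (a (l 17148432) (l 17089800))) (b (a (l 17114128) (l 17092024)) (b (l 17017152) (l 16960184)))) (a (b (b (l 16977712) (l 16732064)) (a (l 1) (b (l 16934848) (l 1)))) (b (a (l 16862560) (l 16998816)) (b (a (l 17021200) (l 17079216))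 (l 4)))))))), by decide +kernel⟩

theorem c_pm_303 : CertN 0 1230186008 0 1230186008 402653184 67108864 3 false true false .npn 3 0 3
    ndN3q3 ndN4q3 pcN0 Cut.none Ext.none :=
  certN0 (fam := false) (s1 := true) (s2 := false) (a := 3) (b := 0) (c := 3) (cn := .npn) (n1 := ndN3q3) (n2 := ndN4q3) (pc := pcN0) (cut := Cut.none) (xt := Ext.none) (P1 := 0) (W1 := 1230186008) (P2 := 0) (W2 := 1230186008) (P3 := 402653184) (W3 := 67108864) (N0 := 3)
    rfl k0_pm_303

noncomputable def f_pm_313 : ℕ → ℕ → ℕ → ℕ → Bool := onCell 0 1230186008 0 1230186008 402653184 67108864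
    (rowN 3 0 false true false .dn 3 1 3 (qsf 0 1230186008 0 1230186008 1) ndN3q3 ndN4q3 pcN1 Cut.none Ext.none)

def k0_pm_313 : ∃ t, chk3 f_pm_313 t 1 1 1 = true :=
  ⟨(a (l 1) (b (a (l 1) (b (b (b (l 3) (l 1)) (l 1)) (l 1))) (l 1))), by decide +kernel⟩

theorem c_pm_313 : CertN 0 1230186008 0 1230186008 402653184 67108864 3 false true false .dn 3 1 3
    ndN3q3 ndN4q3 pcN1 Cut.none Ext.none :=
  certN0 (fam := false) (s1 := true) (s2 := false) (a := 3) (b := 1) (c := 3) (cn := .dn) (n1 := ndN3q3) (n2 := ndN4q3) (pc := pcN1) (cut := Cut.none) (xt := Ext.none) (P1 := 0) (W1 := 1230186008) (P2 := 0) (W2 := 1230186008) (P3 := 402653184) (W3 := 67108864) (N0 := 3)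
    rfl k0_pm_313

noncomputable def f_mm_001 : ℕ → ℕ → ℕ → ℕ → Bool := onCell 0 536870912 536870912 536870912 402653184 67108864
    (rowN 3 0 false false false .up 0 0 1 (qsf 0 536870912 536870912 536870912 0) ndN3q0 ndN4q1 pcN0 Cut.none Ext.none)

def k0_mm_001 : ∃ t, chk3 f_mm_001 t 1 1 1 = true :=
  ⟨(l 3), by decide +kernel⟩

theorem c_mm_001 : CertN 0 536870912 536870912 536870912 402653184 67108864 3 false false false .up 0 0 1
    ndN3q0 ndN4q1 pcN0 Cut.none Ext.none :=
  certN0 (fam := false) (s1 := false) (s2 := false) (a := 0) (b := 0) (c := 1) (cn := .up) (n1 := ndN3q0) (n2 := ndN4q1) (pc := pcN0) (cut := Cut.none) (xt := Ext.none) (P1 := 0) (W1 := 536870912) (P2 := 536870912) (W2 := 536870912) (P3 := 402653184) (W3 := 67108864) (N0 := 3)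
    rfl k0_mm_001

noncomputable def f_mm_011 : ℕ → ℕ → ℕ → ℕ → Bool := onCell 0 536870912 536870912 536870912 402653184 67108864
    (rowN 3 0 false false false .pnn 0 1 1 (qsf 0 536870912 536870912 536870912 1) ndN3q0 ndN4q1 pcN1 Cut.none Ext.none)

def k0_mm_011 : ∃ t, chk3 f_mm_011 t 1 1 1 = true :=
  ⟨(l 3), by decide +kernel⟩

theorem c_mm_011 : CertN 0 536870912 536870912 536870912 402653184 67108864 3 false false false .pnn 0 1 1
    ndN3q0 ndN4q1 pcN1 Cut.none Ext.none :=
  certN0 (fam := false) (s1 := false) (s2 := false) (a := 0) (b := 1) (c := 1) (cn := .pnn) (n1 := ndN3q0) (n2 := ndN4q1) (pc := pcN1) (cut := Cut.none) (xt := Ext.none) (P1 := 0) (W1 := 536870912) (P2 := 536870912) (W2 := 536870912) (P3 := 402653184) (W3 := 67108864) (N0 := 3)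
    rfl k0_mm_011

noncomputable def f_mm_012 : ℕ → ℕ → ℕ → ℕ → Bool := onCell 0 536870912 1073741824 536870912 402653184 67108864
    (rowN 3 0 false false false .pnp 0 1 2 (qsf 0 536870912 1073741824 536870912 1) ndN3q0 ndN4q2 pcN1 Cut.none Ext.none)

def k0_mm_012 : ∃ t, chk3 f_mm_012 t 1 1 1 = true :=
  ⟨(l 5), by decide +kernel⟩

theorem c_mm_012 : CertN 0 536870912 1073741824 536870912 402653184 67108864 3 false false false .pnp 0 1 2
    ndN3q0 ndN4q2 pcN1 Cut.none Ext.none :=
  certN0 (fam := false) (s1 := false) (s2 := false) (a := 0) (b := 1) (c := 2) (cn := .pnp) (n1 := ndN3q0) (n2 := ndN4q2) (pc := pcN1) (cut := Cut.none) (xt := Ext.none) (P1 := 0) (W1 := 536870912) (P2 := 1073741824) (W2 := 536870912) (P3 := 402653184) (W3 := 67108864) (N0 := 3)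
    rfl k0_mm_012

noncomputable def f_mm_022 : ℕ → ℕ → ℕ → ℕ → Bool := onCell 0 536870912 1073741824 536870912 402653184 67108864
    (rowN 3 0 false false false .pp 0 2 2 (qsf 0 536870912 1073741824 536870912 2) ndN3q0 ndN4q2 pcN2 Cut.none Ext.none)

def k0_mm_022 : ∃ t, chk3 f_mm_022 t 1 1 1 = true :=
  ⟨(l 5), by decide +kernel⟩

theorem c_mm_022 : CertN 0 536870912 1073741824 536870912 402653184 67108864 3 false false false .pp 0 2 2
    ndN3q0 ndN4q2 pcN2 Cut.none Ext.none :=
  certN0 (fam := false) (s1 := false) (s2 := false) (a := 0) (b := 2) (c := 2) (cn := .pp) (n1 := ndN3q0) (n2 := ndN4q2) (pc := pcN2) (cut := Cut.none) (xt := Ext.none) (P1 := 0) (W1 := 536870912) (P2 := 1073741824) (W2 := 536870912) (P3 := 402653184) (W3 := 67108864) (N0 := 3)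
    rfl k0_mm_022

noncomputable def f_mm_023 : ℕ → ℕ → ℕ → ℕ → Bool := onCell 0 536870912 0 1230186008 402653184 67108864
    (rowN 3 0 false false false .up 0 2 3 (qsf 0 536870912 0 1230186008 2) ndN3q0 ndN4q3 pcN2 Cut.none Ext.none)

def k0_mm_023 : ∃ t, chk3 f_mm_023 t 1 1 1 = true :=
  ⟨(l 5), by decide +kernel⟩

theorem c_mm_023 : CertN 0 536870912 0 1230186008 402653184 67108864 3 false false false .up 0 2 3
    ndN3q0 ndN4q3 pcN2 Cut.none Ext.none :=
  certN0 (fam := false) (s1 := false) (s2 := false) (a := 0) (b := 2) (c := 3) (cn := .up) (n1 := ndN3q0) (n2 := ndN4q3) (pc := pcN2) (cut := Cut.none) (xt := Ext.none) (P1 := 0) (W1 := 536870912) (P2 := 0) (W2 := 1230186008) (P3 := 402653184) (W3 := 67108864) (N0 := 3)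
    rfl k0_mm_023

noncomputable def f_mm_033 : ℕ → ℕ → ℕ → ℕ → Bool := onCell 0 536870912 0 1230186008 402653184 67108864
    (rowN 3 0 false false false .pnn 0 3 3 (qsf 0 536870912 0 1230186008 3) ndN3q0 ndN4q3 pcN3 Cut.none Ext.none)

def k0_mm_033 : ∃ t, chk3 f_mm_033 t 1 1 1 = true :=
  ⟨(l 5), by decide +kernel⟩

theorem c_mm_033 : CertN 0 536870912 0 1230186008 402653184 67108864 3 false false false .pnn 0 3 3
    ndN3q0 ndN4q3 pcN3 Cut.none Ext.none :=
  certN0 (fam := false) (s1 := false) (s2 := false) (a := 0) (b := 3) (c := 3) (cn := .pnn) (n1 := ndN3q0) (n2 := ndN4q3) (pc := pcN3) (cut := Cut.none) (xt := Ext.none) (P1 := 0) (W1 := 536870912) (P2 := 0) (W2 := 1230186008) (P3 := 402653184) (W3 := 67108864) (N0 := 3)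
    rfl k0_mm_033

noncomputable def f_mm_101 : ℕ → ℕ → ℕ → ℕ → Bool := onCell 536870912 536870912 536870912 536870912 402653184 67108864
    (rowN 3 0 false false false .npn 1 0 1 (qsf 536870912 536870912 536870912 536870912 0) ndN3q1 ndN4q1 pcN0 Cut.none Ext.none)

def k0_mm_101 : ∃ t, chk3 f_mm_101 t 1 1 1 = true :=
  ⟨(l 3), by decide +kernel⟩

theorem c_mm_101 : CertN 536870912 536870912 536870912 536870912 402653184 67108864 3 false false false .npn 1 0 1
    ndN3q1 ndN4q1 pcN0 Cut.none Ext.none :=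
  certN0 (fam := false) (s1 := false) (s2 := false) (a := 1) (b := 0) (c := 1) (cn := .npn) (n1 := ndN3q1) (n2 := ndN4q1) (pc := pcN0) (cut := Cut.none) (xt := Ext.none) (P1 := 536870912) (W1 := 536870912) (P2 := 536870912) (W2 := 536870912) (P3 := 402653184) (W3 := 67108864) (N0 := 3)
    rfl k0_mm_101

noncomputable def f_mm_102 : ℕ → ℕ → ℕ → ℕ → Bool := onCell 536870912 536870912 1073741824 536870912 402653184 67108864
    (rowN 3 0 false false false .npp 1 0 2 (qsf 536870912 536870912 1073741824 536870912 0) ndN3q1 ndN4q2 pcN0 Cut.none Ext.none)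

def k0_mm_102 : ∃ t, chk3 f_mm_102 t 1 1 1 = true :=
  ⟨(l 3), by decide +kernel⟩

theorem c_mm_102 : CertN 536870912 536870912 1073741824 536870912 402653184 67108864 3 false false false .npp 1 0 2
    ndN3q1 ndN4q2 pcN0 Cut.none Ext.none :=
  certN0 (fam := false) (s1 := false) (s2 := false) (a := 1) (b := 0) (c := 2) (cn := .npp) (n1 := ndN3q1) (n2 := ndN4q2) (pc := pcN0) (cut := Cut.none) (xt := Ext.none) (P1 := 536870912) (W1 := 536870912) (P2 := 1073741824) (W2 := 536870912) (P3 := 402653184) (W3 := 67108864) (N0 := 3)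
    rfl k0_mm_102

noncomputable def f_mm_112 : ℕ → ℕ → ℕ → ℕ → Bool := onCell 536870912 536870912 1073741824 536870912 402653184 67108864
    (rowN 3 0 false false false .dn 1 1 2 (qsf 536870912 536870912 1073741824 536870912 1) ndN3q1 ndN4q2 pcN1 Cut.none Ext.none)

def k0_mm_112 : ∃ t, chk3 f_mm_112 t 1 1 1 = true :=
  ⟨(l 3), by decide +kernel⟩

theorem c_mm_112 : CertN 536870912 536870912 1073741824 536870912 402653184 67108864 3 false false false .dn 1 1 2
    ndN3q1 ndN4q2 pcN1 Cut.none Ext.none :=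
  certN0 (fam := false) (s1 := false) (s2 := false) (a := 1) (b := 1) (c := 2) (cn := .dn) (n1 := ndN3q1) (n2 := ndN4q2) (pc := pcN1) (cut := Cut.none) (xt := Ext.none) (P1 := 536870912) (W1 := 536870912) (P2 := 1073741824) (W2 := 536870912) (P3 := 402653184) (W3 := 67108864) (N0 := 3)
    rfl k0_mm_112

noncomputable def f_mm_113 : ℕ → ℕ → ℕ → ℕ → Bool := onCell 536870912 536870912 0 1230186008 402653184 67108864
    (rowN 3 0 false false false .nn 1 1 3 (qsf 536870912 536870912 0 1230186008 1) ndN3q1 ndN4q3 pcN1 Cut.none Ext.none)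

def k0_mm_113 : ∃ t, chk3 f_mm_113 t 1 1 1 = true :=
  ⟨(l 5), by decide +kernel⟩

theorem c_mm_113 : CertN 536870912 536870912 0 1230186008 402653184 67108864 3 false false false .nn 1 1 3
    ndN3q1 ndN4q3 pcN1 Cut.none Ext.none :=
  certN0 (fam := false) (s1 := false) (s2 := false) (a := 1) (b := 1) (c := 3) (cn := .nn) (n1 := ndN3q1) (n2 := ndN4q3) (pc := pcN1) (cut := Cut.none) (xt := Ext.none) (P1 := 536870912) (W1 := 536870912) (P2 := 0) (W2 := 1230186008) (P3 := 402653184) (W3 := 67108864) (N0 := 3)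
    rfl k0_mm_113

noncomputable def f_mm_123 : ℕ → ℕ → ℕ → ℕ → Bool := onCell 536870912 536870912 0 1230186008 402653184 67108864
    (rowN 3 0 false false false .npn 1 2 3 (qsf 536870912 536870912 0 1230186008 2) ndN3q1 ndN4q3 pcN2 Cut.none Ext.none)

def k0_mm_123 : ∃ t, chk3 f_mm_123 t 1 1 1 = true :=
  ⟨(l 5), by decide +kernel⟩

theorem c_mm_123 : CertN 536870912 536870912 0 1230186008 402653184 67108864 3 false false false .npn 1 2 3
    ndN3q1 ndN4q3 pcN2 Cut.none Ext.none :=
  certN0 (fam := false) (s1 := false) (s2 := false) (a := 1) (b := 2) (c := 3) (cn := .npn) (n1 := ndN3q1) (n2 := ndN4q3) (pc := pcN2) (cut := Cut.none) (xt := Ext.none) (P1 := 536870912) (W1 := 536870912) (P2 := 0) (W2 := 1230186008) (P3 := 402653184) (W3 := 67108864) (N0 := 3)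
    rfl k0_mm_123

noncomputable def f_mm_133 : ℕ → ℕ → ℕ → ℕ → Bool := onCell 536870912 536870912 0 1230186008 402653184 67108864
    (rowN 3 0 false false false .dn 1 3 3 (qsf 536870912 536870912 0 1230186008 3) ndN3q1 ndN4q3 pcN3 Cut.none Ext.none)

def k0_mm_133 : ∃ t, chk3 f_mm_133 t 1 1 1 = true :=
  ⟨(l 5), by decide +kernel⟩

theorem c_mm_133 : CertN 536870912 536870912 0 1230186008 402653184 67108864 3 false false false .dn 1 3 3
    ndN3q1 ndN4q3 pcN3 Cut.none Ext.none :=
  certN0 (fam := false) (s1 := false) (s2 := false) (a := 1) (b := 3) (c := 3) (cn := .dn) (n1 := ndN3q1) (n2 := ndN4q3) (pc := pcN3) (cut := Cut.none) (xt := Ext.none) (P1 := 536870912) (W1 := 536870912) (P2 := 0) (W2 := 1230186008) (P3 := 402653184) (W3 := 67108864) (N0 := 3)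
    rfl k0_mm_133

noncomputable def f_mm_202 : ℕ → ℕ → ℕ → ℕ → Bool := onCell 1073741824 536870912 1073741824 536870912 402653184 67108864
    (rowN 3 0 false false false .pp 2 0 2 (qsf 1073741824 536870912 1073741824 536870912 0) ndN3q2 ndN4q2 pcN0 Cut.none Ext.none)

def k0_mm_202 : ∃ t, chk3 f_mm_202 t 1 1 1 = true :=
  ⟨(l 3), by decide +kernel⟩

theorem c_mm_202 : CertN 1073741824 536870912 1073741824 536870912 402653184 67108864 3 false false false .pp 2 0 2
    ndN3q2 ndN4q2 pcN0 Cut.none Ext.none :=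
  certN0 (fam := false) (s1 := false) (s2 := false) (a := 2) (b := 0) (c := 2) (cn := .pp) (n1 := ndN3q2) (n2 := ndN4q2) (pc := pcN0) (cut := Cut.none) (xt := Ext.none) (P1 := 1073741824) (W1 := 536870912) (P2 := 1073741824) (W2 := 536870912) (P3 := 402653184) (W3 := 67108864) (N0 := 3)
    rfl k0_mm_202

noncomputable def f_mm_203 : ℕ → ℕ → ℕ → ℕ → Bool := onCell 1073741824 536870912 0 1230186008 402653184 67108864
    (rowN 3 0 false false false .up 2 0 3 (qsf 1073741824 536870912 0 1230186008 0) ndN3q2 ndN4q3 pcN0 Cut.none Ext.none)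

def k0_mm_203 : ∃ t, chk3 f_mm_203 t 1 1 1 = true :=
  ⟨(b (l 5) (l 3)), by decide +kernel⟩

theorem c_mm_203 : CertN 1073741824 536870912 0 1230186008 402653184 67108864 3 false false false .up 2 0 3
    ndN3q2 ndN4q3 pcN0 Cut.none Ext.none :=
  certN0 (fam := false) (s1 := false) (s2 := false) (a := 2) (b := 0) (c := 3) (cn := .up) (n1 := ndN3q2) (n2 := ndN4q3) (pc := pcN0) (cut := Cut.none) (xt := Ext.none) (P1 := 1073741824) (W1 := 536870912) (P2 := 0) (W2 := 1230186008) (P3 := 402653184) (W3 := 67108864) (N0 := 3)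
    rfl k0_mm_203

noncomputable def f_mm_213 : ℕ → ℕ → ℕ → ℕ → Bool := onCell 1073741824 536870912 0 1230186008 402653184 67108864
    (rowN 3 0 false false false .pnn 2 1 3 (qsf 1073741824 536870912 0 1230186008 1) ndN3q2 ndN4q3 pcN1 Cut.none Ext.none)

def k0_mm_213 : ∃ t, chk3 f_mm_213 t 1 1 1 = true :=
  ⟨(b (l 5) (l 3)), by decide +kernel⟩

theorem c_mm_213 : CertN 1073741824 536870912 0 1230186008 402653184 67108864 3 false false false .pnn 2 1 3
    ndN3q2 ndN4q3 pcN1 Cut.none Ext.none :=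
  certN0 (fam := false) (s1 := false) (s2 := false) (a := 2) (b := 1) (c := 3) (cn := .pnn) (n1 := ndN3q2) (n2 := ndN4q3) (pc := pcN1) (cut := Cut.none) (xt := Ext.none) (P1 := 1073741824) (W1 := 536870912) (P2 := 0) (W2 := 1230186008) (P3 := 402653184) (W3 := 67108864) (N0 := 3)
    rfl k0_mm_213

noncomputable def f_mm_303 : ℕ → ℕ → ℕ → ℕ → Bool := onCell 0 1230186008 0 1230186008 402653184 67108864
    (rowN 3 0 false false false .npn 3 0 3 (qsf 0 1230186008 0 1230186008 0) ndN3q3 ndN4q3 pcN0 Cut.none Ext.none)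

def k0_mm_303 : ∃ t, chk3 f_mm_303 t 1 1 1 = true :=
  ⟨(a (b (l 3) (b (l 3) (l 1))) (b (l 3) (l 3))), by decide +kernel⟩

theorem c_mm_303 : CertN 0 1230186008 0 1230186008 402653184 67108864 3 false false false .npn 3 0 3
    ndN3q3 ndN4q3 pcN0 Cut.none Ext.none :=
  certN0 (fam := false) (s1 := false) (s2 := false) (a := 3) (b := 0) (c := 3) (cn := .npn) (n1 := ndN3q3) (n2 := ndN4q3) (pc := pcN0) (cut := Cut.none) (xt := Ext.none) (P1 := 0) (W1 := 1230186008) (P2 := 0) (W2 := 1230186008) (P3 := 402653184) (W3 := 67108864) (N0 := 3)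
    rfl k0_mm_303

noncomputable def f_mm_313 : ℕ → ℕ → ℕ → ℕ → Bool := onCell 0 1230186008 0 1230186008 402653184 67108864
    (rowN 3 0 false false false .dn 3 1 3 (qsf 0 1230186008 0 1230186008 1) ndN3q3 ndN4q3 pcN1 Cut.none Ext.none)

def k0_mm_313 : ∃ t, chk3 f_mm_313 t 1 1 1 = true :=
  ⟨(a (l 1) (b (l 3) (l 1))), by decide +kernel⟩

theorem c_mm_313 : CertN 0 1230186008 0 1230186008 402653184 67108864 3 false false false .dn 3 1 3
    ndN3q3 ndN4q3 pcN1 Cut.none Ext.none :=
  certN0 (fam := false) (s1 := false) (s2 := false) (a := 3) (b := 1) (c := 3) (cn := .dn) (n1 := ndN3q3) (n2 := ndN4q3) (pc := pcN1) (cut := Cut.none) (xt := Ext.none) (P1 := 0) (W1 := 1230186008) (P2 := 0) (W2 := 1230186008) (P3 := 402653184) (W3 := 67108864) (N0 := 3)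
    rfl k0_mm_313

end Pool.Agent.Strip051.G.I3_8_7_16.Tab.C.NB34

namespace Pool.Agent.Strip051.G.I3_8_7_16.Tab.C.NB40

open Pool.Agent.Strip051.PB Pool.Agent.Strip051.PB.T
open Pool.Agent.Strip051.G.I3_8_7_16.Tab

noncomputable def f_pp_001 : ℕ → ℕ → ℕ → ℕ → Bool := onCell 0 536870912 536870912 536870912 402653184 67108864
    (rowN 3 2 false true true .up 0 0 1 (qsf 0 536870912 536870912 536870912 0) ndN4q0 ndN0q1 pcN0 Cut.none Ext.none)

def k0_pp_001 : ∃ t, chk3 f_pp_001 t 2 1 1 = true :=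
  ⟨(b (l 3) (b (b (l 3) (l 2)) (l 2))), by decide +kernel⟩

def k1_pp_001 : ∃ t, chk3 f_pp_001 t 6 2 1 = true :=
  ⟨(l 3), by decide +kernel⟩

def k2_pp_001 : ∃ t, chk3 f_pp_001 t 7 4 1 = true :=
  ⟨(l 3), by decide +kernel⟩

def k3_pp_001 : ∃ t, chk3 f_pp_001 t 7 10 1 = true :=
  ⟨(a (l 3) (b (a (l 3) (b (l 3) (a (l 3) (b (l 3) (a (l 3) (b (a (l 3) (l 464561170823)) (a (l 461339945127) (l 444160067815)))))))) (a (b (l 3) (a (l 3) (b (a (l 3) (b (l 3) (a (l 3) (a (l 3) (c (l 441475734695) (l 449528778663)))))) (a (b (l 3) (l 445233811591)) (b (c (a (l 440401992151) (l 397452305591)) (a (l 448991907479) (b (l 406042229991) (l 382956776295)))) (a (l 399062906695) (l 16799360))))))) (b (a (b (l 3) (c (a (l 3) (b (a (l 3) (l 447381310103)) (a (l 444160073607) (l 418927141431)))) (a (l 3) (b (a (l 3) (l 455971225639)) (a (b (l 465098032807) (l 450065643239)) (l 426443317495)))))) (b (a (b (c (l 462413701287) (l 471540475767)) (a (b (l 465634914039) (l 452750007719)) (l 439328226135)))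 (b (a (l 441475712871) (l 16798680)) (l 16796288))) (a (b (a (b (l 438791359559) (l 16801096)) (l 16798000)) (l 16795384)) (l 16788864)))) (a (b (a (b (c (a (l 3) (b (l 453286891623) (l 431812049783))) (a (l 3) (a (l 450602517751) (l 440938837399)))) (c (a (b (a (l 3) (l 438254502871)) (a (l 418927149463) (l 16807720))) (b (l 414095303495) (l 16803872))) (a (b (a (l 3) (l 446844419031)) (a (b (l 429127679607) (l 404431615479)) (l 16799096))) (b (l 419464001111) (l 16796056))))) (a (b (c (l 415705915127) (l 423222091431)) (l 16796560)) (l 16794536))) (a (a (b (c (l 16804688) (l 16796712)) (l 16795072)) (l 16793032)) (l 16786280))) (b (l 16814984) (l 16781784))))))), by decide +kernel⟩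

def k4_pp_001 : ∃ t, chk3 f_pp_001 t 7 11 1 = true :=
  ⟨(a (b (a (l 3) (b (l 3) (a (l 3) (b (a (l 3) (l 422148361991)) (a (l 417316517095) (l 323900990599)))))) (a (b (a (l 3) (b (l 3) (l 399599768359))) (a (b (l 3) (l 424295829159)) (b (a (l 387788610071) (l 286856909575)) (l 204178781655)))) (b (a (b (a (l 435570139367) (l 412484649079)) (a (l 421074605415) (l 16781152))) (b (a (l 266992703767) (l 16780792)) (l 16788896))) (a (l 16803528) (l 16788424))))) (a (b (b (a (b (a (l 3) (l 443086317735)) (a (l 439865107991) (b (l 396378552775) (l 16794344)))) (b (a (b (a (l 441475719207) (l 397452296375)) (l 372756227223)) (l 16792544)) (l 16811936))) (a (b (a (b (l 375440580071) (l 16790136)) (l 16785472)) (l 16802480)) (l 16787008))) (b (l 16791624) (l 16798200))) (b (a (b (l 16805760) (l 16793728)) (l 16793976)) (l 16808160)))), by decide +kernel⟩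

def k5_pp_001 : ∃ t, chk3 f_pp_001 t 6 3 1 = true :=
  ⟨(b (b (a (b (l 3) (a (l 3) (b (l 3) (a (l 3) (b (l 3) (a (b (l 3) (l 2)) (b (a (l 3) (b (l 312089783623) (l 207936811255))) (a (b (l 276119435287) (l 2)) (l 16785168))))))))) (b (a (l 3) (b (a (l 3) (b (l 3) (a (l 425369524167) (l 255718386119)))) (a (b (a (l 3) (b (l 3) (l 315847873703))) (a (b (l 344838903079) (a (l 320142849719) (l 16775520))) (b (l 167671497447) (l 16782904)))) (b (a (b (l 262160817063) (l 16783072)) (l 16779696)) (l 16779240))))) (a (b (a (b (l 3) (a (l 3) (b (l 3) (a (l 3) (l 271287619847))))) (b (a (b (l 3) (l 311016057799)) (b (a (l 3) (l 268066396231)) (a (l 236927863383) (l 16786792)))) (a (b (a (l 242833438167) (l 187535721639)) (l 152639117639)) (l 16782936)))) (a (b (a (b (l 320142863191) (a (l 253570854583) (l 192904425943))) (b (a (b (l 272361340247) (l 16786216)) (l 16786032)) (l 16784144))) (a (b (a (l 168208376231) (l 16784208)) (l 16781488)) (l 16776800))) (b (a (l 16780056) (l 16774424))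 (l 16769696)))) (b (a (b (a (b (l 16785848) (l 16782160)) (l 16778808)) (l 16776480)) (l 16777984)) (a (l 16771264) (l 16773864)))))) (a (b (a (l 2) (b (a (l 2) (b (a (l 2) (l 124654741303)) (l 2))) (l 2))) (l 2)) (a (b (b (a (b (l 16790048) (l 16758664)) (l 16760032)) (l 105864255719)) (a (l 2) (l 16703824))) (b (b (l 16763096) (l 16748968)) (l 16715728))))) (b (a (l 2) (b (a (l 2) (l 16642368)) (l 2))) (l 2))), by decide +kernel⟩

def k6_pp_001 : ∃ t, chk3 f_pp_001 t 7 3 1 = true :=
  ⟨(b (a (b (b (a (b (a (b (a (l 379735515879) (l 16778424)) (l 16779160)) (l 16782032)) (l 16783320)) (l 16793408)) (a (b (l 16784320) (l 16782096)) (l 16798096))) (b (a (l 16771304) (l 16790960)) (a (l 16739824) (l 16767608)))) (b (a (b (l 16807936) (l 16815344)) (b (l 16823696) (l 16833296))) (b (l 16865040) (l 16809896)))) (a (b (b (l 16700760) (l 16613880)) (a (l 2) (l 16564080))) (b (b (l 16780304) (l 16728528)) (b (l 16646584) (l 16510840))))), by decide +kernel⟩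

theorem s7_pp_001 : ∃ t, chk3 f_pp_001 t 3 3 1 = true := ex3_a k5_pp_001 k6_pp_001

theorem s8_pp_001 : ∃ t, chk3 f_pp_001 t 7 5 1 = true := ex3_b k3_pp_001 k4_pp_001

theorem s9_pp_001 : ∃ t, chk3 f_pp_001 t 7 2 1 = true := ex3_b k2_pp_001 s8_pp_001

theorem s10_pp_001 : ∃ t, chk3 f_pp_001 t 3 2 1 = true := ex3_a k1_pp_001 s9_pp_001

theorem s11_pp_001 : ∃ t, chk3 f_pp_001 t 3 1 1 = true := ex3_b s10_pp_001 s7_pp_001

theorem s12_pp_001 : ∃ t, chk3 f_pp_001 t 1 1 1 = true := ex3_a k0_pp_001 s11_pp_001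

theorem c_pp_001 : CertN 0 536870912 536870912 536870912 402653184 67108864 3 false true true .up 0 0 1
    ndN4q0 ndN0q1 pcN0 Cut.none Ext.none :=
  certN2 (fam := false) (s1 := true) (s2 := true) (a := 0) (b := 0) (c := 1) (cn := .up) (n1 := ndN4q0) (n2 := ndN0q1) (pc := pcN0) (cut := Cut.none) (xt := Ext.none) (P1 := 0) (W1 := 536870912) (P2 := 536870912) (W2 := 536870912) (P3 := 402653184) (W3 := 67108864) (N0 := 3)
    rfl (fun _ => rfl) s12_pp_001

noncomputable def f_pp_011 : ℕ → ℕ → ℕ → ℕ → Bool := onCell 536870912 536870912 536870912 536870912 402653184 67108864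
    (rowN 3 2 false true true .pnn 0 1 1 (qsf 0 536870912 536870912 536870912 1) ndN4q0 ndN0q1 pcN1 Cut.none Ext.none)

def k0_pp_011 : ∃ t, chk3 f_pp_011 t 4 4 1 = true :=
  ⟨(a (b (l 3) (a (b (l 3) (a (l 3) (b (l 3) (b (l 3) (a (l 3) (b (l 3) (l 462413683767))))))) (b (a (l 3) (b (l 3) (b (l 3) (a (l 3) (b (l 3) (l 466708650567)))))) (b (a (b (l 3) (a (l 3) (b (l 3) (l 462950554423)))) (b (a (b (l 3) (l 465098037959)) (b (l 453823742455) (l 440938834599))) (a (b (l 452750000679) (l 438791350887)) (l 16794728)))) (a (b (a (b (l 3) (l 462413683655)) (b (l 451139387959) (l 437717608919))) (a (b (l 451139387895) (l 433422651431)) (l 16794280))) (b (a (l 16794576) (l 16788816)) (l 16785328))))))) (b (a (a (l 3) (l 1)) (l 1)) (a (b (a (b (a (l 3) (b (l 3) (a (l 3) (l 474761713575)))) (a (b (a (l 3) (l 468856134071)) (b (l 454897484199) (l 442012576407))) (b (a (l 455434355031) (l 442012576311)) (l 16794816)))) (a (a (b (l 393559987463) (l 16793384)) (b (l 1) (l 16790560))) (l 488049242391)))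 (b (a (a (b (l 16794800) (l 16789096)) (l 16828360)) (l 16778080)) (l 16782056))) (b (l 252900071623) (l 16797936))))), by decide +kernel⟩

def k1_pp_011 : ∃ t, chk3 f_pp_011 t 4 5 1 = true :=
  ⟨(a (b (a (b (b (a (b (l 3) (a (l 3) (b (l 3) (a (l 474224847543) (l 455971228951))))) (b (a (a (l 3) (l 461876812887)) (b (l 451139387719) (l 432348909735))) (a (b (a (l 456508100007) (l 16800024)) (l 16804040)) (l 16793184)))) (a (b (a (b (a (l 3) (l 473687976615)) (a (l 471003621943) (l 450602519415))) (b (a (l 455434357847) (l 16799688)) (l 16797632))) (a (b (a (l 447918164567) (l 16799248)) (l 16797056)) (l 16791368))) (b (a (l 16792352) (l 16784848)) (l 16779376)))) (b (a (b (a (l 16790312) (l 16781312)) (l 16780192)) (l 16787808)) (l 16790560))) (b (b (a (b (a (l 16793808) (l 16787512)) (l 16782776)) (l 16780976)) (l 16786128)) (l 16801944))) (a (b (l 16804880) (l 16824168)) (l 16832240))) (b (b (a (l 16798840) (l 16819216)) (l 16830352)) (a (l 16850144) (l 16868808)))), by decide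 +kernel⟩

def k2_pp_011 : ∃ t, chk3 f_pp_011 t 5 2 1 = true :=
  ⟨(b (a (b (l 1) (a (b (l 1) (l 16823904)) (l 1))) (l 1)) (a (b (a (l 16851424) (l 16876936)) (l 16899648)) (b (l 184180679639) (l 16950208)))), by decide +kernel⟩

def k3_pp_011 : ∃ t, chk3 f_pp_011 t 2 3 1 = true :=
  ⟨(b (a (a (b (a (l 16846480) (l 16864056)) (a (l 16854040) (l 16875552))) (b (l 16995512) (l 16904968))) (b (a (l 16929648) (l 16975840)) (a (l 16944544) (l 16990840)))) (a (a (b (l 16838128) (b (a (l 16757416) (l 16808168)) (a (l 16648632) (l 16705440)))) (b (l 16894832) (b (l 16862952) (l 16770736)))) (b (a (b (l 16942440) (l 16934136)) (l 16986592)) (a (l 17029160) (l 16944208))))), by decide +kernel⟩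

def k4_pp_011 : ∃ t, chk3 f_pp_011 t 3 1 1 = true :=
  ⟨(b (a (b (l 1) (a (b (l 1) (l 17030632)) (l 1))) (l 1)) (a (b (b (a (l 17038960) (l 233036950455)) (a (l 17049792) (a (l 17104888) (l 17156800)))) (b (a (l 17054752) (l 17150104)) (a (l 17029560) (l 17144448)))) (b (a (b (l 1) (c (l 242701038183) (l 242163913623))) (l 1)) (a (b (l 190624347287) (l 17306640)) (b (c (l 245385815895) (c (l 246459296007) (c (l 254512227927) (l 259880953719)))) (l 225521197479)))))), by decide +kernel⟩

theorem s5_pp_011 : ∃ t, chk3 f_pp_011 t 4 2 1 = true := ex3_b k0_pp_011 k1_pp_011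

theorem s6_pp_011 : ∃ t, chk3 f_pp_011 t 2 2 1 = true := ex3_a s5_pp_011 k2_pp_011

theorem s7_pp_011 : ∃ t, chk3 f_pp_011 t 2 1 1 = true := ex3_b s6_pp_011 k3_pp_011

theorem s8_pp_011 : ∃ t, chk3 f_pp_011 t 1 1 1 = true := ex3_a s7_pp_011 k4_pp_011

theorem c_pp_011 : CertN 0 536870912 536870912 536870912 402653184 67108864 3 false true true .pnn 0 1 1
    ndN4q0 ndN0q1 pcN1 Cut.none Ext.none :=
  certN2 (fam := false) (s1 := true) (s2 := true) (a := 0) (b := 1) (c := 1) (cn := .pnn) (n1 := ndN4q0) (n2 := ndN0q1) (pc := pcN1) (cut := Cut.none) (xt := Ext.none) (P1 := 0) (W1 := 536870912) (P2 := 536870912) (W2 := 536870912) (P3 := 402653184) (W3 := 67108864) (N0 := 3)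
    rfl (fun _ => rfl) s8_pp_011

noncomputable def f_pp_012 : ℕ → ℕ → ℕ → ℕ → Bool := onCell 536870912 536870912 0 536870912 402653184 67108864
    (rowN 3 2 false true true .pnp 0 1 2 (qsf 0 536870912 0 536870912 1) ndN4q0 ndN0q2 pcN1 Cut.none Ext.none)

def k0_pp_012 : ∃ t, chk3 f_pp_012 t 1 1 1 = true :=
  ⟨(a (a (b (a (l 2) (b (l 2) (l 58621379639))) (a (b (l 2) (b (l 16811344) (a (l 16571920) (l 16624032)))) (b (l 17123976) (b (l 16878384) (l 16675032))))) (b (a (b (l 17526040) (l 17433336)) (b (l 17529440) (l 17472288))) (b (a (l 17190480) (l 17269472)) (a (b (l 16961440) (l 16772104)) (l 16986024))))) (b (a (b (l 17534808) (l 17742880)) (b (l 4) (l 17601352))) (a (b (a (l 17356136) (l 17434992)) (a (l 17112288) (l 17234288))) (b (a (l 17509752) (l 17587104)) (a (l 17348568) (l 17477608)))))), by decide +kernel⟩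

theorem c_pp_012 : CertN 0 536870912 0 536870912 402653184 67108864 3 false true true .pnp 0 1 2
    ndN4q0 ndN0q2 pcN1 Cut.none Ext.none :=
  certN2 (fam := false) (s1 := true) (s2 := true) (a := 0) (b := 1) (c := 2) (cn := .pnp) (n1 := ndN4q0) (n2 := ndN0q2) (pc := pcN1) (cut := Cut.none) (xt := Ext.none) (P1 := 0) (W1 := 536870912) (P2 := 0) (W2 := 536870912) (P3 := 402653184) (W3 := 67108864) (N0 := 3)
    rfl (fun _ => rfl) k0_pp_012

noncomputable def f_pp_022 : ℕ → ℕ → ℕ → ℕ → Bool := onCell 1073741824 536870912 0 536870912 402653184 67108864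
    (rowN 3 2 false true true .pp 0 2 2 (qsf 0 536870912 0 536870912 2) ndN4q0 ndN0q2 pcN2 Cut.none Ext.none)

def k0_pp_022 : ∃ t, chk3 f_pp_022 t 1 1 1 = true :=
  ⟨(a (b (a (b (l 4) (a (l 17545624) (l 4))) (l 4)) (a (b (a (l 17553952) (l 17417608)) (a (b (l 17502776) (l 17455392)) (b (l 17365088) (l 1)))) (b (l 1) (l 1)))) (l 1)), by decide +kernel⟩

theorem c_pp_022 : CertN 0 536870912 0 536870912 402653184 67108864 3 false true true .pp 0 2 2
    ndN4q0 ndN0q2 pcN2 Cut.none Ext.none :=
  certN2 (fam := false) (s1 := true) (s2 := true) (a := 0) (b := 2) (c := 2) (cn := .pp) (n1 := ndN4q0) (n2 := ndN0q2) (pc := pcN2) (cut := Cut.none) (xt := Ext.none) (P1 := 0) (W1 := 536870912) (P2 := 0) (W2 := 536870912) (P3 := 402653184) (W3 := 67108864) (N0 := 3)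
    rfl (fun _ => rfl) k0_pp_022

noncomputable def cut_pp_101 : Cut := Cut.of [[⟨0, 1, 0, 67108864⟩, ⟨1, 0, 0, 67108864⟩, ⟨2, 1, 0, 67108864⟩]]

noncomputable def f_pp_101 : ℕ → ℕ → ℕ → ℕ → Bool := onCell 0 536870912 536870912 536870912 402653184 67108864
    (rowN 3 2 false true true .npn 1 0 1 (qsf 536870912 536870912 536870912 536870912 0) ndN4q1 ndN0q1 pcN0 cut_pp_101 Ext.none)

def k0_pp_101 : ∃ t, chk3 f_pp_101 t 2 2 1 = true :=
  ⟨(l 3), by decide +kernel⟩

def k1_pp_101 : ∃ t, chk3 f_pp_101 t 2 6 1 = true :=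
  ⟨(a (l 3) (b (l 3) (a (l 3) (b (l 3) (a (b (l 3) (a (l 3) (b (l 3) (a (l 3) (b (l 3) (a (l 3) (c (b (l 311016036935) (a (l 283635643495) (l 16782120))) (b (l 302962970743) (a (b (l 286319974135) (l 214379267719)) (l 16780936)))))))))) (b (a (l 3) (b (a (l 3) (b (l 3) (a (l 3) (l 323364093799)))) (a (b (l 3) (a (l 338933345527) (b (a (l 3) (l 292762449223)) (a (b (l 268066366423) (l 207399949335)) (l 16782456))))) (b (a (a (l 315311024583) (b (l 3) (b (l 259476432583) (l 16782696)))) (b (a (l 284172515447) (l 197199401655)) (l 16782376))) (a (c (l 169282110615) (l 162839664359)) (l 16779464)))))) (a (b (a (l 3) (b (a (l 3) (b (l 3) (a (l 3) (b (l 275582558455) (l 211694913927))))) (a (b (a (l 3) (l 306721091319)) (a (b (l 282561900583) (l 214916136951)) (l 181093275335))) (c (l 142975441655) (b (l 190220075143) (l 16779888)))))) (a (b (a (b (l 3) (a (l 3) (b (l 287393738151) (l 219211104039)))) (b (a (b (l 3) (l 266992644663)) (b (l 245517782727) (l 16781896))) (c (l 16776896) (l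 16780800)))) (a (a (b (c (l 241759692599) (l 218137370327)) (l 16780736)) (l 16780512)) (l 16778344))) (b (c (l 16779480) (l 16777816)) (l 16773000)))) (b (a (b (a (b (a (l 300278641159) (l 206326200295)) (l 167134632999)) (l 16780680)) (l 16777320)) (l 16793856)) (l 16785360))))))))), by decide +kernel⟩

def k2_pp_101 : ∃ t, chk3 f_pp_101 t 8 14 1 = true :=
  ⟨(l 3), by decide +kernel⟩

def k3_pp_101 : ∃ t, chk3 f_pp_101 t 9 28 1 = true :=
  ⟨(l 3), by decide +kernel⟩

def k4_pp_101 : ∃ t, chk3 f_pp_101 t 18 29 1 = true :=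
  ⟨(l 3), by decide +kernel⟩

def k5_pp_101 : ∃ t, chk3 f_pp_101 t 19 58 1 = true :=
  ⟨(l 3), by decide +kernel⟩

def k6_pp_101 : ∃ t, chk3 f_pp_101 t 38 59 1 = true :=
  ⟨(l 3), by decide +kernel⟩

def k7_pp_101 : ∃ t, chk3 f_pp_101 t 39 59 1 = true :=
  ⟨(b (l 3) (a (b (l 3) (a (l 3) (b (l 3) (a (a (l 3) (a (l 3) (b (l 3) (c (l 334101482583) (l 334101481687))))) (b (a (l 3) (b (l 3) (a (l 3) (c (l 257328941815) (l 251960232087))))) (a (c (b (l 306721065607) (a (l 220821721447) (l 16778600))) (b (l 305110454663) (a (l 217063624135) (l 16778224)))) (b (c (l 180019531911) (l 176261434695)) (l 16780536)))))))) (b (a (l 3) (b (c (a (l 3) (b (l 3) (l 367387480919))) (a (l 3) (b (l 3) (l 360945028823)))) (a (c (b (l 3) (a (b (l 3) (l 295446776567)) (b (l 275582552855) (l 171429596487)))) (b (l 3) (c (a (l 321753451015) (b (l 272898197751) (l 193441299783))) (a (l 321753450503) (b (l 270750713735) (l 191293816023)))))) (b (a (b (l 3) (c (a (l 328195902215) (l 202031235527)) (c (l 251960232535)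 (l 249275877607)))) (b (c (a (l 306184200215) (l 215989879703)) (a (l 301352361367) (l 210621170503))) (c (l 16778712) (l 16778264)))) (c (l 130627407943) (l 130090535415)))))) (b (a (c (a (b (l 3) (a (l 3) (b (l 3) (a (l 288467454551) (l 207399946695))))) (b (a (l 360945028855) (b (l 314774129495) (a (l 237464718727) (l 16778784)))) (a (b (a (l 263234521879) (l 207936815831)) (l 16778504)) (l 16778112)))) (a (b (l 3) (a (l 3) (b (l 3) (a (l 283098744695) (l 193978170871))))) (b (a (l 348596996855) (b (l 312089774039) (b (l 225653558583) (l 190756946887)))) (a (b (a (l 257328941239) (l 203104977671)) (l 16778088)) (l 16777656))))) (a (b (a (b (c (l 189146337671) (l 184851369399)) (l 16780760)) (l 16780320)) (l 16781824)) (l 16780768))) (a (b (a (a (b (a (c (l 340543933047) (l 339470195655)) (c (l 231022268535) (l 225653558407))) (c (l 162302791399) (c (l 185388236439) (l 16777472)))) (c (l 16778280) (l 154249726167))) (l 16782032)) (c (l 16776320) (l 16781048))) (l 16783552)))))),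 by decide +kernel⟩

def k8_pp_101 : ∃ t, chk3 f_pp_101 t 16 30 1 = true :=
  ⟨(l 3), by decide +kernel⟩

def k9_pp_101 : ∃ t, chk3 f_pp_101 t 17 30 1 = true :=
  ⟨(b (l 3) (a (l 3) (b (l 3) (a (l 3) (b (l 3) (a (l 3) (b (l 3) (a (b (l 3) (a (l 3) (b (l 3) (a (a (l 3) (b (l 3) (c (b (l 345375770935) (c (l 226190427815) (l 227264169559))) (b (l 349133867079) (c (l 228337911287) (l 229411652999)))))) (b (c (c (a (l 347523253543) (b (l 327659029495) (l 208473687639))) (a (l 350744478887) (b (l 329269642135) (l 207936816711)))) (c (a (l 352891962423) (b (l 330880254743) (l 209010558439))) (a (l 355576316855) (b (l 332490867351) (l 209547429239))))) (c (a (c (l 183777625815) (l 184851367543)) (l 16777360)) (c (l 165524014679) (l 166597756423)))))))) (b (a (l 3) (b (c (c (l 366313736983) (l 370608704135)) (c (l 374903671287) (l 378661767511))) (a (b (l 3) (b (c (c (l 303499838487) (l 305110451111)) (c (l 307257934631) (l 309405418151))) (c (a (c (l 263234520983) (l 264308262711)) (l 147270404167))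 (a (c (l 264845133591) (l 266455746215)) (l 16778120))))) (b (c (a (c (l 294373032935) (l 295983645559)) (c (l 196662527831) (l 197736269559))) (a (c (l 298131129079) (l 299741741687)) (c (l 198810011271) (l 200420623879)))) (c (l 116668762311) (l 16778208)))))) (a (b (a (b (l 3) (c (c (a (l 334638351559) (b (l 308331676599) (l 190220076519))) (a (l 337322706007) (b (l 309405418311) (l 190756947335)))) (c (a (l 339470189527) (b (l 311016030935) (l 191293818151))) (a (l 342154543959) (b (l 297057388247) (l 191830688935)))))) (b (c (a (c (l 321216578679) (l 323364062215)) (b (c (l 271824455671) (l 273435068311)) (l 164450273479))) (a (c (l 326048416647) (l 328195900167)) (b (c (l 275045680935) (l 277193164455)) (l 163376531607)))) (c (c (l 146196661831) (l 147270403543)) (c (l 148344145255) (l 16777920))))) (c (a (b (c (l 155860338295) (l 156934080023)) (l 16777000)) (l 16776736)) (a (c (l 140291081511) (l 139217339719)) (l 16776600)))) (b (c (c (l 110763181879) (l 16778032)) (c (l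 16778128) (l 16778056))) (l 16778536)))))))))))), by decide +kernel⟩

def k10_pp_101 : ∃ t, chk3 f_pp_101 t 16 31 1 = true :=
  ⟨(b (b (l 3) (l 6)) (l 6)), by decide +kernel⟩

def k11_pp_101 : ∃ t, chk3 f_pp_101 t 34 124 1 = true :=
  ⟨(a (l 3) (b (l 3) (a (l 3) (b (l 3) (a (l 3) (b (l 3) (a (b (l 3) (a (a (l 3) (b (l 3) (b (l 3) (c (c (l 326585287415) (l 329806512823)) (c (l 332490867319) (l 335712092711)))))) (a (b (l 3) (c (b (c (a (l 3) (l 275582551431)) (l 322290320023)) (c (a (l 209547429095) (l 16777368)) (a (l 212231783591) (l 16777344)))) (b (c (l 324974674519) (l 328195899911)) (c (l 187535721575) (l 189683205159))))) (a (b (l 3) (c (b (c (l 202568107143) (l 204715590727)) (l 16778552)) (c (l 169282110439) (l 167134626887)))) (b (b (l 3) (c (c (l 266455745895) (l 269676971303)) (c (l 267529487751) (l 270750713159)))) (c (l 108615698055) (l 105394472775))))))) (b (a (a (l 3) (b (l 3) (b (l 3) (c (c (a (l 348596994823) (l 247665263927)) (a (l 351818220215) (l 249812747527)))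 (c (a (l 354502574711) (l 252497102023)) (a (l 357186929191) (l 250349618471))))))) (a (b (l 3) (c (b (c (a (l 338933318359) (l 237464716599)) (a (l 341617672855) (l 239612200199))) (c (l 156397208711) (l 158007821383))) (b (c (a (l 344302027351) (l 240685941959)) (a (l 346986381831) (l 244444038279))) (c (l 159618434055) (l 16777608))))) (b (b (l 3) (c (c (a (l 328732770999) (l 226190427479)) (a (l 331417125495) (l 228337911079))) (c (a (l 333564609079) (l 230485394663)) (a (l 336248963559) (l 231559136423))))) (c (c (l 138680468375) (l 16777552)) (c (l 16777848) (l 16777808)))))) (c (a (b (a (b (c (a (l 362555638567) (l 257328940359)) (a (l 366313734887) (l 259476423959))) (c (l 169818981559) (l 171966465143))) (c (l 147270403015) (l 149954757511))) (l 16778232)) (l 16777968)) (a (b (a (b (c (a (l 370071831191) (l 262697649367)) (l 312626643399)) (c (l 173577077815) (l 175187690487))) (c (l 149417886615) (l 147270403047))) (l 16778152)) (l 16777880))))))))))), by decide +kernel⟩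

def k12_pp_101 : ∃ t, chk3 f_pp_101 t 68 125 1 = true :=
  ⟨(b (b (l 3) (l 6)) (l 6)), by decide +kernel⟩

def k13_pp_101 : ∃ t, chk3 f_pp_101 t 138 500 1 = true :=
  ⟨(a (l 3) (b (l 3) (a (b (l 3) (a (l 3) (b (l 3) (c (a (a (l 3) (b (l 3) (c (l 311016030775) (l 314237256183)))) (a (b (l 3) (c (b (l 252497101879) (l 16777376)) (l 205252461671))) (b (c (b (l 3) (l 246054650935)) (l 272361325847)) (c (l 16777320) (l 16777296))))) (a (b (l 3) (c (a (l 3) (l 284709356791)) (l 334638350871))) (a (b (l 3) (c (l 205252461703) (l 207936816199))) (b (c (l 269676971383) (l 273435067719)) (c (l 16777264) (l 16777240))))))))) (b (a (l 3) (b (l 3) (c (a (b (l 3) (c (a (l 349670736599) (b (l 316921611303) (l 207399945223))) (a (l 353428832919) (l 245517780167)))) (b (c (a (l 340543931063) (b (l 297594258599) (l 196662526887))) (a (l 343765156471) (l 235854103751))) (c (l 158544692103) (l 154786595831)))) (a (b (l 3) (c (a (l 356650058327) (l 249275876503)) (a (l 359871283735) (l 247128392951))))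 (b (c (a (l 346986381879) (l 239075329159)) (a (l 350207607287) (l 242833425495))) (c (l 157470950327) (l 159081562999))))))) (a (b (c (a (a (l 3) (b (l 3) (b (l 3) (c (l 233706619927) (l 235317232631))))) (a (b (c (l 362555638519) (l 366850605751)) (c (l 189146334231) (l 188609463351))) (b (c (b (l 324437804343) (l 220821718023)) (l 255718327511)) (l 16777936)))) (a (a (l 3) (b (l 3) (c (l 261087036775) (l 264845133095)))) (b (c (a (l 370608702071) (l 252497102151)) (a (l 374903669303) (l 256255198471))) (c (l 169818981351) (l 171429594039))))) (c (a (b (a (c (l 197199397943) (l 196662527063)) (l 111836923495)) (l 16778432)) (l 16778304)) (a (b (a (c (l 199346881559) (l 198810010679)) (l 16778056)) (l 16778376)) (l 16778240)))) (a (c (b (b (c (l 164450272151) (l 160692175879)) (l 16778408)) (l 16776744)) (b (c (c (l 148344144631) (l 148881015511)) (l 150491628199)) (l 16776672))) (c (l 16778040) (l 16777968)))))))), by decide +kernel⟩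

def k14_pp_101 : ∃ t, chk3 f_pp_101 t 138 501 1 = true :=
  ⟨(a (b (b (b (l 3) (l 6)) (l 6)) (l 6)) (b (a (b (a (b (c (a (b (l 3) (c (l 338933318391) (l 342154543815))) (a (b (l 3) (c (b (l 277730034791) (l 16777728)) (b (l 277730034823) (l 16777376)))) (b (c (l 320142836295) (l 322827190807)) (c (l 16777672) (l 16777320))))) (a (b (l 3) (c (l 344838898327) (l 348596994647))) (b (c (l 338396447351) (l 341617672759)) (c (a (l 223506072711) (l 16777288)) (a (l 226190427223) (l 16777264)))))) (a (a (l 6) (a (l 6) (c (l 105931343431) (l 103246988919)))) (c (l 16778352) (l 16778288)))) (c (b (b (a (c (a (b (l 264845132887) (l 16777392)) (l 16777328)) (a (l 214379267175) (l 16777304))) (l 16778448)) (l 16778336)) (l 16777976)) (b (b (a (c (a (l 214379267207) (l 16777280)) (a (l 215453008983) (l 16777248))) (l 16778384)) (l 16778272)) (l 16777896)))) (c (l 16777512) (l 16778072))) (c (l 16778296) (l 16778184))) (c (l 16776880) (l 16779336)))), by decide +kernel⟩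

def k15_pp_101 : ∃ t, chk3 f_pp_101 t 278 1000 1 = true :=
  ⟨(a (b (l 3) (a (l 3) (b (l 3) (c (a (b (l 3) (c (a (l 313163514455) (l 208473687223)) (a (l 286856840519) (l 210621170823)))) (c (b (a (l 273971938663) (l 202031236183)) (l 16777288)) (b (a (l 277193164087) (l 201494365303)) (l 16777256)))) (a (b (l 3) (c (a (l 289541195031) (l 210084299943)) (a (l 287930582391) (l 211158041703)))) (c (b (a (l 275045680535) (l 203104977991)) (l 16777232)) (b (a (l 278803776855) (l 203104978007)) (l 16777200)))))))) (b (a (a (l 3) (b (l 3) (c (c (l 359334413463) (l 363092509783)) (c (l 366850606087) (l 370608702407))))) (a (b (l 3) (c (b (c (l 348060123991) (l 351818220311)) (c (a (l 246591522087) (l 176261432311)) (a (l 249812747495) (l 176798303207)))) (b (c (l 354502574807) (l 357723800215)) (c (a (l 253033972903) (l 177872044983)) (a (l 250349618455) (l 179482657655)))))) (b (c (c (l 349670736983) (l 353428833287)) (c (l 357186929607) (l 360945025911))) (a (c (b (c (l 237464716567)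 (l 240149071079)) (l 16777944)) (b (c (l 242833425575) (l 245517780071)) (l 16778536))) (c (c (l 142975435735) (l 144049177495)) (c (l 16777560) (l 16777856))))))) (b (a (a (c (b (c (l 363629380519) (l 367924347751)) (c (a (l 265382004039) (l 192904430663)) (a (l 268066358551) (l 194515043351)))) (b (c (l 371682444071) (l 376514282199)) (c (a (l 266455745911) (l 193978172471)) (a (l 269676971319) (l 196125656055))))) (c (b (c (a (l 256255198519) (l 183777625143)) (a (l 259476423927) (l 185388237831))) (l 16777904)) (b (c (a (l 256792069479) (l 187535721415)) (a (l 260013294887) (l 186998850519))) (l 16777840)))) (c (l 16778312) (l 16778240))) (c (c (l 16778104) (l 16778064)) (c (l 16778024) (l 16777984)))))), by decide +kernel⟩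

def k16_pp_101 : ∃ t, chk3 f_pp_101 t 278 1001 1 = true :=
  ⟨(a (b (a (b (c (a (b (l 3) (c (a (l 331417125527) (b (l 284172485783) (l 16777752))) (a (l 334638350935) (l 226727298263)))) (b (c (a (l 322290319991) (b (l 271287583863) (l 16777416))) (a (l 325511545399) (l 217063621863))) (c (l 16777640) (l 16777936)))) (a (b (l 3) (c (a (l 337859576343) (l 229411652775)) (a (l 340543930839) (l 231022265447)))) (c (b (a (l 328195899895) (l 219747976359)) (l 16777256)) (b (a (l 330880254391) (l 221895459959)) (l 16777224))))) (c (c (c (l 120426857351) (l 122037470071)) (l 114521277735)) (c (l 114521277671) (l 114521277607)))) (c (c (l 104857601367) (l 16777856)) (c (l 16777736) (l 16778024)))) (c (l 16778728) (l 16778624))) (c (l 16778200) (l 16778080))), by decide +kernel⟩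

def k17_pp_101 : ∃ t, chk3 f_pp_101 t 279 500 1 = true :=
  ⟨(b (a (b (a (b (b (c (a (c (l 334101480215) (l 336785834711)) (c (a (l 217063621943) (l 16777384)) (a (l 219211105543) (l 16777352)))) (a (c (l 340007060119) (l 342691414615)) (c (a (l 221895460039) (l 16777320)) (l 191830688999)))) (c (a (c (a (l 227264169255) (l 16777392)) (a (l 229411652855) (l 16777368))) (l 16778512)) (a (c (a (l 230485394631) (l 16777336)) (a (l 234243490951) (l 16777304))) (l 16778448)))) (c (l 16778280) (l 16778208))) (c (l 16778024) (l 16777936))) (c (l 16778632) (l 16778520))) (c (l 16778104) (l 16777976))) (l 16778576)), by decide +kernel⟩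

def k18_pp_101 : ∃ t, chk3 f_pp_101 t 139 501 1 = true :=
  ⟨(c (l 16778112) (l 16778528)), by decide +kernel⟩

def k19_pp_101 : ∃ t, chk3 f_pp_101 t 69 251 1 = true :=
  ⟨(a (a (l 6) (a (l 6) (l 16779280))) (l 16776752)), by decide +kernel⟩

def k20_pp_101 : ∃ t, chk3 f_pp_101 t 70 248 1 = true :=
  ⟨(a (l 3) (b (l 3) (a (b (l 3) (a (l 3) (b (l 3) (a (l 3) (a (l 3) (b (l 3) (b (l 3) (c (c (l 301889225463) (l 304573579943)) (c (l 306721063511) (l 308331676151)))))))))) (b (a (l 3) (b (l 3) (a (l 3) (b (l 3) (c (c (a (l 354502575351) (b (l 338396447687) (l 212768654871))) (a (l 357723800727) (b (l 341080802151) (l 214379267527)))) (c (a (l 360408155191) (b (l 343228285703) (l 215989880183))) (a (l 363629380551) (b (l 345912640167) (l 217600492823))))))))) (a (b (a (l 3) (a (l 3) (b (l 3) (b (l 3) (c (c (l 243907167943) (l 246054651527)) (c (l 246591522439) (l 249275876903))))))) (a (a (b (l 3) (c (b (c (l 293836161751) (l 295446774407)) (c (l 169818981559) (l 169282110647))) (b (c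 (l 297594257975) (l 275582551639)) (c (l 16777736) (l 16777360))))) (b (b (l 3) (c (c (l 258939553591) (l 261623908071)) (c (l 264308262551) (l 266992617015)))) (c (c (l 16778024) (l 16777984)) (c (l 16777288) (l 16777240))))) (c (b (a (b (c (l 250349618983) (l 253033973463)) (c (l 16777464) (l 16777424))) (c (l 16777344) (l 16777304))) (l 16778296)) (b (b (a (c (l 255718327943) (l 258402682407)) (l 133848630983)) (c (l 16777264) (l 16777216))) (l 16778200))))) (b (a (a (b (l 3) (b (c (c (l 236927846023) (l 238538458695)) (c (l 240685942263) (l 242296554919))) (c (l 16778072) (l 16777984)))) (b (c (b (c (l 361481896983) (l 365239993271)) (c (l 227264169639) (l 228874782311))) (b (c (l 368998089559) (l 372756185831)) (c (l 231022265879) (l 232632878535)))) (c (l 16778608) (l 16778512)))) (c (a (b (b (c (l 221358589463) (l 223506073031)) (l 16778704)) (l 16777056)) (l 16778352)) (a (b (b (c (l 225116685687) (l 226727298327)) (l 16778608)) (l 16776952)) (l 16778248)))) (c (l 16779104)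 (l 16778976)))))))), by decide +kernel⟩

def k21_pp_101 : ∃ t, chk3 f_pp_101 t 140 498 1 = true :=
  ⟨(a (l 3) (b (l 3) (a (b (l 3) (c (a (b (l 3) (a (b (l 3) (c (l 319069094663) (l 321216578247))) (b (c (l 311016030951) (l 313700385447)) (c (l 180019528999) (l 181630141671))))) (a (b (b (l 3) (c (l 302962967239) (l 305647321735))) (c (l 154786595911) (l 153175983255))) (b (b (c (a (l 345912640295) (l 248739005815)) (l 297057387111)) (c (l 167134626983) (l 166597756087))) (l 16778400)))) (a (b (l 3) (c (a (l 341617673079) (b (l 315847869015) (l 182703883431))) (a (l 344302027559) (b (l 318532223479) (l 184851366999))))) (b (a (b (l 3) (c (l 307794805303) (l 310479159767))) (b (c (l 299741741591) (l 301889225143)) (c (l 167671497831) (l 169282110487)))) (c (l 145659790167) (l 142438564775)))))) (b (c (a (b (l 3) (a (b (l 3) (c (a (l 335175222023) (l 237464716679)) (a (l 337859576503) (l 239075329367)))) (b (c (a (l 324437803751) (l 227801040215)) (a (l 306721064391) (l 229411652887)))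 (c (l 16777416) (l 16777384))))) (b (a (b (l 3) (c (a (l 293299291639) (l 218674234631)) (a (l 295983646119) (l 220284847303)))) (a (b (c (l 282561873367) (l 285246227847)) (l 129553663863)) (c (l 170355852551) (l 171966465207)))) (c (l 16777832) (l 16777136)))) (a (b (l 3) (a (b (l 3) (c (l 262160778871) (l 265918875159))) (b (c (l 254644586071) (l 257328940551)) (c (l 16777344) (l 16777304))))) (b (b (a (l 3) (c (l 239612200455) (l 240149071367))) (a (c (l 246591522375) (l 249275876855)) (l 122037470983))) (c (l 16777096) (l 16777048))))) (a (c (a (c (l 117742503287) (l 117742503207)) (l 16778136)) (c (l 110763181495) (l 110763181399))) (c (l 16779072) (l 16778960))))))), by decide +kernel⟩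

def k22_pp_101 : ∃ t, chk3 f_pp_101 t 280 998 1 = true :=
  ⟨(a (b (l 3) (a (a (l 3) (b (l 3) (b (l 3) (c (c (a (l 283635615159) (l 210084299959)) (a (l 287393711463) (l 210084299975))) (c (a (l 285783098823) (l 212231783559)) (a (l 288467453319) (l 213842396231))))))) (a (b (l 3) (c (a (b (c (l 273971938711) (l 277193164119)) (l 122037470983)) (c (l 164987143319) (l 166597755991))) (b (c (a (l 275045680567) (l 203641848871)) (a (l 278803776871) (l 203641848887))) (l 113447536471)))) (b (c (b (c (l 362018767799) (l 365776864119)) (c (a (l 264308262263) (l 191293817975)) (a (l 266992616759) (l 192367559767)))) (b (c (l 369534960423) (l 366850605783)) (c (a (l 265382004119) (l 193441301527)) (l 227801040215)))) (c (l 16778176) (l 16778096)))))) (b (c (a (b (l 3) (c (a (l 356113188007) (b (l 342154543991) (a (l 244444038487) (l 16777784)))) (a (l 359871284311) (b (l 345375769383) (a (l 245517780247) (l 16777424)))))) (b (c (a (l 345375769703) (b (l 326585287463) (a (l 224042943799)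 (l 16777432)))) (a (l 348596995095) (b (l 329269641959) (l 196125656343)))) (a (b (c (a (l 232632878455) (l 16777440)) (a (l 235317232951) (l 16777408))) (l 16778576)) (l 16778448)))) (a (b (l 3) (c (a (l 363092509703) (b (l 348060123863) (a (l 248739005655) (l 16777392)))) (a (l 366313735095) (b (l 351281349255) (l 211694912839))))) (b (c (a (l 351818220487) (b (l 331953996439) (l 198273139911))) (a (l 355576316775) (b (l 334638350919) (l 199883752583)))) (a (b (c (l 205789332711) (l 204178720055)) (l 16778504)) (l 16778368))))) (c (a (b (b (a (c (a (l 254107714919) (l 182703883319)) (a (l 256792069415) (l 182703883303))) (l 16778592)) (l 16778480)) (l 16778128)) (l 16777872)) (a (b (a (b (c (a (l 259476423911) (l 183240754183)) (l 219747976535)) (l 16778528)) (l 16778400)) (l 16778040)) (l 16777768))))), by decide +kernel⟩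

def k23_pp_101 : ∃ t, chk3 f_pp_101 t 280 999 1 = true :=
  ⟨(b (a (c (a (b (c (a (b (a (l 318532223639) (l 218137363719)) (l 16777360)) (l 16777232)) (a (b (a (l 297057387911) (l 220284847319)) (l 16777328)) (l 16777200))) (l 16778184)) (l 16777920)) (a (b (c (a (b (a (l 295446775271) (l 220284847335)) (l 16777296)) (l 16777160)) (a (b (a (l 298668000679) (l 220821718183)) (l 16777256)) (l 16777128))) (l 16778096)) (l 16777824))) (l 16778752)) (c (l 16778032) (l 16777896))), by decide +kernel⟩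

def k24_pp_101 : ∃ t, chk3 f_pp_101 t 281 499 1 = true :=
  ⟨(b (a (b (c (a (a (b (b (c (l 186998850887) (l 189146334455)) (l 16778552)) (l 16776896)) (l 16778192)) (l 16779128)) (a (b (c (c (l 152102241191) (l 151028499415)) (c (l 150491628535) (l 151028499415))) (l 16777984)) (l 16779024))) (l 16779024)) (c (l 16777904) (l 16777752))) (l 16779032)), by decide +kernel⟩

def k25_pp_101 : ∃ t, chk3 f_pp_101 t 141 249 1 = true :=
  ⟨(b (a (b (a (b (a (l 3) (a (l 3) (b (l 3) (c (c (l 346449511575) (l 349670736951)) (c (l 352355091431) (l 356113187703)))))) (a (a (b (l 3) (c (b (c (l 363629380599) (l 367387476903)) (c (a (l 272361326007) (l 198810010791)) (l 229948524055))) (b (c (l 371145573191) (l 374903669495)) (c (l 232096007639) (l 234243491207))))) (b (c (c (l 362018768103) (l 360945026183)) (c (l 364166251575) (l 367924347847))) (b (c (c (a (l 261623907751) (l 188072592535)) (l 221358589479)) (c (l 223506073047) (l 225653556615))) (c (l 16778000) (l 16778576))))) (b (b (c (a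 (c (l 343765156775) (l 346449511255)) (c (l 206863074743) (l 208473687415))) (a (c (l 349133865735) (l 351818220199)) (c (l 210084300071) (l 212231783639)))) (c (a (c (l 214379267527) (l 216526751111)) (l 16778632)) (a (c (l 218674234679) (l 217063622023)) (l 16778552)))) (c (l 16778408) (l 16778320))))) (b (a (a (b (l 3) (c (b (c (l 327122158439) (l 329269642007)) (c (l 198810011047) (l 200420623719))) (b (c (l 331953996471) (l 334638350935)) (c (l 202031236375) (l 203641849031))))) (b (c (c (l 335175222343) (l 338396447719)) (c (l 341080802199) (l 344302027575))) (c (c (c (l 166597756151) (l 167671497927)) (l 165524014391)) (c (l 165524014391) (l 166060885287))))) (c (b (a (b (c (l 310479160087) (l 312626643655)) (c (l 182703883655) (l 184314496311))) (c (l 154249725255) (l 155323466999))) (l 16778352)) (b (a (b (c (l 314774127223) (l 317458481687)) (c (l 185388238055) (l 186998850711))) (c (l 156934079655) (l 155323466903))) (l 16778256)))) (c (l 16778560) (l 16778448)))) (a (c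 (c (l 98952021559) (l 16778112)) (c (l 16778048) (l 16777984))) (l 16779032))) (b (a (c (l 16778688) (l 16778552)) (l 16778920)) (l 16778816))) (c (l 16777088) (l 16776808))), by decide +kernel⟩

def k26_pp_101 : ∃ t, chk3 f_pp_101 t 142 496 1 = true :=
  ⟨(a (b (l 3) (a (l 3) (b (l 3) (a (l 3) (b (l 3) (b (a (l 3) (c (c (l 246591522583) (l 248739006135)) (c (l 250349618791) (l 251960231431)))) (c (a (c (l 254107715431) (l 256255198999)) (l 139754211047)) (a (c (l 258402682551) (l 260550166103)) (l 138143598359))))))))) (b (a (l 3) (b (l 3) (a (a (l 3) (b (l 3) (c (c (l 334638351511) (l 336785835063)) (c (l 339470189511) (l 342154543943))))) (a (b (l 3) (c (b (c (l 308331676551) (l 309942289175)) (c (l 188072592791) (l 189146334519))) (b (c (l 311552901815) (l 313163514423)) (c (l 188609463591) (l 189146334407))))) (b (c (c (l 321753449543) (l 323900933095)) (c (l 326585287527) (l 329269641975))) (c (c (l 159081563495) (l 160155305223)) (c (l 16777888) (l 16778000)))))))) (a (b (a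 (a (l 3) (b (l 3) (b (l 3) (c (l 352891963687) (l 357186930775))))) (a (b (l 3) (c (b (c (l 356113187863) (l 346986382263)) (c (l 221895460455) (l 223506073095))) (b (c (l 349670736711) (l 351818220247)) (c (l 224579814839) (l 226190427479))))) (b (c (c (l 346986382567) (l 349670737031)) (c (l 352355091479) (l 355576316823))) (c (c (b (l 212768654951) (l 16777448)) (l 181630141991)) (c (l 183240754615) (l 183240754599)))))) (a (b (b (a (l 3) (c (c (l 231559136855) (l 233169749511)) (c (l 231559136855) (l 233169749495)))) (c (a (c (l 238538458839) (l 240149071495)) (l 16778760)) (a (c (l 241759684151) (l 243370296807)) (l 16778664)))) (c (c (l 16777264) (l 16777216)) (l 108078827783))) (c (l 16778296) (l 16778184)))) (b (c (a (b (a (b (c (l 326585287623) (l 328732771175)) (c (l 203641849431) (l 204715591175))) (c (l 168745240135) (l 169818981863))) (l 16778496)) (l 16778232)) (a (b (a (b (c (l 330880254711) (l 332490867335)) (c (l 205789332903) (l 207399945527))) (c (l 170892723591)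 (l 172503336215))) (l 16778384)) (l 16778112))) (c (l 16778864) (l 16778720)))))), by decide +kernel⟩

def k27_pp_101 : ∃ t, chk3 f_pp_101 t 142 497 1 = true :=
  ⟨(a (b (a (b (a (l 3) (b (l 3) (c (c (a (l 330880255063) (b (l 303499838263) (l 181630141735))) (a (l 333564609527) (b (l 305110450903) (l 181093270823)))) (c (a (l 336248963975) (b (l 307257934455) (l 182167012567))) (a (l 338933318439) (b (l 308868547095) (l 182703883383))))))) (a (a (b (c (c (l 342691415207) (l 345375769671)) (c (l 348596995047) (l 351281349495))) (c (c (b (l 204178720263) (l 16777384)) (l 175187690935)) (c (l 175724561831) (l 175724561815)))) (c (b (b (c (l 321216578423) (l 322827191079)) (c (l 195588785655) (l 197199398311))) (l 16778552)) (b (b (c (l 325511545527) (l 327659029079)) (c (l 198273140055) (l 199346881783))) (l 16778448)))) (c (b (c (c (l 150491628807) (l 151565370583)) (l 148881016199)) (l 16776872)) (b (c (l 148881016183) (l 149954757911)) (l 16776760))))) (b (a (b (c (a (b (l 3) (c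 (l 294373032727) (l 274508810039))) (b (c (l 262697650039) (l 264845133607)) (c (l 16777528) (l 16777480)))) (c (a (l 323900932919) (b (l 267529488071) (l 16777432))) (a (l 326585287383) (b (l 270213842519) (l 16777384))))) (c (c (l 140827952471) (l 140291081559)) (c (l 141901694183) (l 16777832)))) (c (c (l 16777728) (l 16778328)) (c (l 16778272) (l 16778216)))) (c (l 16778984) (l 16778848)))) (c (l 16778080) (l 16778568))) (c (l 16778336) (c (l 16778176) (l 16778072)))), by decide +kernel⟩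

def k28_pp_101 : ∃ t, chk3 f_pp_101 t 143 248 1 = true :=
  ⟨(b (a (b (a (b (a (a (l 3) (b (l 3) (c (c (l 308868547575) (l 311016031127)) (c (l 313163514663) (l 315847869095))))) (a (b (l 3) (b (c (c (l 252497102679) (l 254107715319)) (c (l 255718327959) (l 257328940583))) (c (l 146733533079) (l 144049178471)))) (b (b (l 3) (c (c (l 243907168023) (l 245517780663)) (c (l 246591522407) (l 247665264135)))) (c (l 16778072) (l 16777960))))) (c (a (b (b (a (c (l 269676971975) (l 271824455511)) (l 155323467703)) (c (l 16778128) (l 16777424))) (l 16777120)) (l 16778176)) (a (b (b (a (c (l 273971939063) (l 276119422599)) (l 151028500519)) (c (l 16777376) (l 16777320))) (l 16777008)) (l 16779360)))) (b (c (b (b (a (a (c (l 236390975127) (l 237464716871)) (l 16777488)) (l 16777144)) (l 105394473463)) (l 16779440)) (a (a (b (c (l 197736269463) (l 199346882087)) (l 16777064)) (l 16778360)) (l 16776664))) (l 16779320))) (c (l 16777840) (l 16777656))) (c (l 16779408) (l 16779176))) (l 16779128)),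 by decide +kernel⟩

def k29_pp_101 : ∃ t, chk3 f_pp_101 t 71 249 1 = true :=
  ⟨(a (c (l 16777632) (l 16778560)) (l 16776040)), by decide +kernel⟩

def k30_pp_101 : ∃ t, chk3 f_pp_101 t 35 125 1 = true :=
  ⟨(a (b (a (a (c (l 16777688) (l 16778704)) (l 16776824)) (l 16776424)) (l 16770744)) (b (l 16780920) (l 16752344))), by decide +kernel⟩

def k31_pp_101 : ∃ t, chk3 f_pp_101 t 17 63 1 = true :=
  ⟨(b (a (a (l 6) (b (l 16768368) (l 6))) (a (l 16769696) (l 16740952))) (a (l 6) (l 16734832))), by decide +kernel⟩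

def k32_pp_101 : ∃ t, chk3 f_pp_101 t 18 60 1 = true :=
  ⟨(a (l 3) (b (l 3) (a (l 3) (b (l 3) (a (b (l 3) (a (l 3) (b (a (l 3) (a (l 3) (a (l 3) (b (l 3) (c (l 316384742487) (l 316921614199)))))) (a (b (a (l 3) (c (l 346449512679) (l 349133866695))) (c (a (b (l 359871285159) (a (l 273435069335) (l 195588787287))) (c (l 189683207191) (l 189683206935))) (c (a (b (l 364703122983) (l 235854105143)) (l 190220077623)) (a (b (l 366850606359) (l 235317234007)) (l 190220077383))))) (b (b (a (c (l 319069095671) (l 319069095159)) (c (l 192904432999) (l 190756949079))) (c (c (l 177872046967) (l 177872046759)) (c (l 177872046519) (l 177872046263)))) (c (l 16777464) (l 16777208))))))) (b (b (a (l 3) (a (l 3) (b (l 3) (c (a (l 327659031943) (b (l 291151808231) (l 182703885639))) (a (b (l 3) (l 304573580551)) (b (l 289541194999) (l 179482659847))))))) (a (a (l 3) (a (l 3) (b (l 3) (c (c (l 286856841031) (l 287393711703)) (c (l 287930582359) (l 287930582103)))))) (a (b (c (a (l 359871285559) (b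 (l 320679708503) (l 210084302503))) (a (l 349670737655) (b (l 319605966135) (l 207936818567)))) (c (a (b (l 223506075527) (l 16778000)) (l 16777792)) (a (b (l 221358591527) (l 16777752)) (l 16777528)))) (b (c (c (l 158544694215) (l 158544693975)) (c (l 158544693703) (l 158007822519))) (l 16779616))))) (c (a (b (a (b (a (l 3) (c (l 307257935815) (l 308331677399))) (a (b (l 290614939831) (l 179482660183)) (l 148344147127))) (b (a (b (a (l 301889226391) (l 220821720263)) (l 16777560)) (l 16777864)) (l 16777304))) (l 16779120)) (l 16780688)) (a (b (a (b (a (l 3) (c (l 308868548039) (l 309405418679))) (a (b (l 289541197543) (l 177335176071)) (l 147270404967))) (b (a (b (a (l 298668000439) (l 215453010471)) (l 175724561431)) (l 16777616)) (l 16777032))) (l 16778816)) (l 16780336))))))))), by decide +kernel⟩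

def k33_pp_101 : ∃ t, chk3 f_pp_101 t 36 122 1 = true :=
  ⟨(a (l 3) (b (l 3) (a (b (l 3) (a (l 3) (b (l 3) (a (l 3) (a (l 3) (a (l 3) (b (l 3) (b (l 3) (b (l 3) (c (l 236927847223) (l 236390976039))))))))))) (b (a (l 3) (b (l 3) (a (l 3) (b (l 3) (c (c (a (l 342691416167) (b (l 315847870007) (l 197199399351))) (a (l 344838899623) (b (l 317458482551) (l 197736270103)))) (c (a (l 347523253959) (b (l 318532224183) (l 197736269927))) (a (l 349670737383) (b (l 319605965799) (l 198273140663))))))))) (a (b (a (l 3) (a (l 3) (b (l 3) (b (l 3) (c (a (b (l 3) (l 257865812855)) (c (l 212231784615) (l 211694913559))) (c (l 259476423703) (l 260013294471))))))) (a (a (b (l 3) (c (b (c (l 297057387863) (l 298131129527)) (c (l 176798304359) (l 177335175127))) (b (c (l 299741742087) (l 300815483719)) (c (l 177335174967) (l 177872045703))))) (b (b (l 3) (c (c (l 284709357479) (l 285783098487)) (c (l 286856840151) (l 287930581783)))) (c (c (l 148344145943) (l 147270403943)) (c (l 148344145607) (l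 148344145495))))) (b (c (a (b (a (l 316384741975) (b (l 270750714471) (l 16778168))) (l 150491630151)) (l 127406180807)) (a (b (c (l 273435067335) (l 274508808983)) (l 147807275415)) (l 16778280))) (c (l 16776848) (l 16776648))))) (b (b (a (c (a (l 365239995911) (b (l 340007063767) (c (l 220284848807) (l 221358590471)))) (a (l 364703124567) (b (l 343228288839) (c (l 221895461191) (l 222969202839))))) (c (a (b (c (l 209010559527) (l 209547430279)) (l 16777576)) (l 16777336)) (a (a (c (l 193978173687) (l 193441302583)) (l 140291082695)) (l 16777136)))) (a (c (a (b (c (a (l 283635614999) (l 196125657159)) (l 232096008903)) (l 16777640)) (l 16777408)) (a (b (c (l 233169750567) (l 234243492231)) (l 16777464)) (l 16777216))) (c (l 16776704) (l 16776480)))) (c (l 16778464) (l 16778216)))))))), by decide +kernel⟩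

def k34_pp_101 : ∃ t, chk3 f_pp_101 t 72 246 1 = true :=
  ⟨(a (l 3) (b (l 3) (a (b (l 3) (a (a (l 3) (b (l 3) (b (l 3) (c (a (c (l 296520516695) (l 297594258391)) (c (l 201494366215) (l 202031237015))) (a (c (l 299204870983) (l 300278612663)) (c (l 203104978711) (l 202568107655))))))) (b (c (c (a (l 363092510903) (b (l 341080802887) (a (l 265918874647) (l 174650820375)))) (a (l 366850607127) (b (l 343765157303) (a (l 251423361223) (l 174650820247))))) (c (a (l 364703123319) (b (l 345912640791) (a (l 253033973831) (l 175187691031)))) (a (l 367924348615) (b (l 348596995175) (a (l 254107715527) (l 16777832)))))) (c (a (a (b (c (l 281488131111) (l 282561872807)) (l 16777536)) (c (l 158544693127) (l 159081563943))) (l 16778488)) (a (a (b (c (l 283635614487) (l 284709356167)) (l 16777400)) (c (l 159618434759) (l 159081563687))) (l 16778336)))))) (b (a (b (l 3) (c (c (a (l 343765157863) (b (l 319069095319) (a (l 221358590135) (l 16777656)))) (a (l 346449512263) (b (l 321216578807) (a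 (l 222432331847) (l 16777592))))) (c (a (l 349133866663) (b (l 323364062295) (a (l 222432331639) (l 16777520)))) (a (l 352355091959) (b (l 324974674871) (l 196125656935)))))) (b (c (a (b (l 3) (a (l 3) (b (l 3) (l 231022267063)))) (b (a (l 359334416327) (b (l 326048416903) (l 211158043191))) (c (l 173040207863) (l 173040207815)))) (a (b (l 3) (c (l 311552902151) (l 313700385623))) (b (a (l 351281349703) (b (l 326585287511) (l 210084301255))) (c (l 173577078583) (l 174650820247))))) (c (a (b (c (l 182703884423) (l 183777626119)) (l 16777296)) (l 16777040)) (a (b (c (l 184851367799) (l 185925109463)) (l 16777136)) (l 16776872))))) (a (a (b (c (b (a (b (l 283635616375) (l 184314497495)) (l 154786597335)) (l 16777360)) (b (a (b (l 281488132935) (l 183777626327)) (l 153712855239)) (l 16777216))) (l 16779232)) (c (l 16779288) (l 16779104))) (c (l 16775928) (l 16775720))))))), by decide +kernel⟩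

def k35_pp_101 : ∃ t, chk3 f_pp_101 t 144 494 1 = true :=
  ⟨(a (b (l 3) (a (b (l 3) (a (l 3) (a (l 3) (b (l 3) (a (l 3) (b (l 3) (c (l 276656294183) (l 275045681543)))))))) (b (b (l 3) (b (l 3) (a (l 3) (c (c (l 306721064023) (l 307794805719)) (c (l 309405418327) (l 311552901831)))))) (a (b (a (l 3) (c (c (l 317995353239) (l 319605965847)) (c (l 321753449367) (l 323900932871)))) (c (b (a (c (l 302962967527) (l 290078066663)) (l 171429595431)) (c (l 164450272823) (l 164987143623))) (a (c (l 234243491799) (l 235854104423)) (c (l 16777472) (l 16777408))))) (c (b (a (b (c (l 269140101079) (l 269676971959)) (l 162302789911)) (l 139217340487)) (l 16777224)) (b (a (c (l 221895460759) (l 221895460647)) (l 138680469495)) (l 16777088))))))) (b (a (b (l 3) (b (l 3) (a (l 3) (c (a (l 362018769527) (c (l 275045680087) (l 276119421799))) (a (l 357723801959) (c (l 277730034407) (l 278803776103))))))) (b (a (l 3) (b (l 3) (c (a (c (l 325511546103) (l 327659029607)) (c (l 228337911991) (l 229948524615)))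 (a (c (l 329269642199) (l 330880254791)) (c (l 231022266327) (l 231022266199)))))) (a (c (c (b (a (l 340007060807) (l 242296555783)) (l 162302789479)) (b (a (l 341617673415) (l 243370297511)) (l 163376531175))) (c (b (a (l 343765156919) (l 244980910135)) (l 164450272871)) (b (a (l 345912640407) (l 244980910023)) (l 165524014551)))) (c (c (l 136532985559) (l 137606727239)) (c (l 138680468935) (l 137606727111)))))) (a (b (a (a (b (l 3) (c (c (l 207399946183) (l 208473687895)) (c (l 209547429607) (l 209547429479)))) (c (b (c (l 289541194759) (l 291151807367)) (l 16777504)) (b (c (l 292762419975) (l 294373032567)) (l 16777376)))) (c (b (c (c (l 175724562039) (l 174650820311)) (l 173577078567)) (l 16777160)) (b (c (l 173577078519) (l 174650820215)) (l 16777016)))) (c (l 16779344) (l 16779192))) (c (l 16778824) (l 16778640))))), by decide +kernel⟩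

def k36_pp_101 : ∃ t, chk3 f_pp_101 t 144 495 1 = true :=
  ⟨(a (b (a (b (a (c (b (c (l 351818221143) (l 354502575575)) (a (b (l 342154545495) (c (l 225116686071) (l 226190427799))) (c (l 183240754999) (l 184314496711)))) (c (b (l 357723800903) (a (l 283635614407) (l 185388238423))) (b (l 360408155319) (a (l 285246227015) (l 186461980119))))) (c (b (a (b (c (l 323364062247) (l 324974674855)) (c (l 207399945815) (l 207936816615))) (c (l 172503336535) (l 173040207351))) (l 16777288)) (c (b (a (l 267529487047) (l 173577078135)) (l 16777192)) (b (a (l 249812748295) (l 174650819831)) (l 16777128))))) (c (l 16778496) (l 16778680))) (c (l 16778952) (l 16778784))) (c (l 16780216) (l 16780000))) (c (l 16779160) (l 16778904))), by decide +kernel⟩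

def k37_pp_101 : ∃ t, chk3 f_pp_101 t 145 247 1 = true :=
  ⟨(b (a (b (a (b (c (c (a (b (a (l 311016031383) (l 215989880871)) (l 16777520)) (l 16777280)) (a (b (a (l 312626643991) (l 215989880823)) (l 16777464)) (l 16777216))) (c (a (b (a (l 314237256583) (l 218137364279)) (l 16777392)) (l 16777136)) (a (b (a (l 315847869175) (l 216526751479)) (l 16777320)) (l 16777064)))) (c (l 16776592) (l 16776424))) (c (l 16778688) (l 16778496))) (l 16779840)) (l 16779416)) (l 16776008)), by decide +kernel⟩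

def k38_pp_101 : ∃ t, chk3 f_pp_101 t 146 492 1 = true :=
  ⟨(a (b (a (l 3) (a (l 3) (a (l 3) (b (l 3) (c (l 364703124679) (l 364166253399)))))) (a (b (l 3) (c (a (b (l 3) (a (b (l 3) (l 314774127719)) (b (l 292762421607) (l 190220077607)))) (b (a (b (l 3) (l 278803778279)) (b (l 266455747463) (l 170355853671))) (c (l 16777648) (l 16777576)))) (a (b (l 3) (a (l 336248965383) (b (l 291688679815) (l 189683206423)))) (b (a (b (l 3) (l 277730036503)) (b (l 266992618263) (l 168208369911))) (c (l 16777496) (l 16777416)))))) (b (c (a (b (l 3) (a (b (l 3) (l 256255200055)) (c (l 210621171895) (l 212768655255)))) (b (a (b (l 3) (l 235854105335)) (c (l 196662528007) (l 196662527863))) (l 16777544))) (a (b (l 3) (a (b (l 3) (l 256255199959)) (c (l 212768655111) (l 210621171463)))) (b (a (b (l 3) (l 235854105063)) (c (l 197199398631) (l 197199398471))) (l 16777384)))) (c (c (l 16777184) (l 16777096)) (c (l 16777016) (l 16776920)))))) (b (a (a (b (l 3) (c (b (a (l 3) (l 333564609895)) (a (b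 (l 327122158775) (l 214916139639)) (c (l 181630142343) (l 181630142199)))) (b (a (l 3) (l 336248966727)) (c (a (l 260013295783) (l 181630142055)) (a (l 261087037447) (l 16777912)))))) (b (a (l 3) (a (l 3) (b (l 3) (c (l 306721065415) (l 307257936007))))) (c (b (a (b (l 302962970391) (l 193441303159)) (l 162839661047)) (l 16777480)) (b (c (l 211694913719) (l 212231784471)) (l 16777312))))) (b (c (c (a (b (l 320679708151) (l 198810012007)) (b (l 187535722743) (l 16777448))) (a (b (l 322290320727) (l 199346882775)) (b (l 187535722679) (l 16777368)))) (c (a (b (l 324437804183) (l 199883753543)) (b (l 188072593431) (l 16777280))) (a (b (l 326048416727) (l 200957495191)) (l 163913402183)))) (c (l 16779616) (l 16779432)))) (a (c (l 16779248) (l 16779048)) (l 16780768)))), by decide +kernel⟩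

def k39_pp_101 : ∃ t, chk3 f_pp_101 t 146 493 1 = true :=
  ⟨(a (a (b (b (c (c (a (l 142975436759) (l 16777016)) (l 135459243543)) (c (l 133311760055) (l 132774889127))) (l 16778840)) (l 16780064)) (c (l 16780112) (l 16779856))) (l 16778480)), by decide +kernel⟩

def k40_pp_101 : ∃ t, chk3 f_pp_101 t 147 246 1 = true :=
  ⟨(b (a (a (c (l 16778192) (l 16779256)) (l 16779688)) (l 16778184)) (l 16780704)), by decide +kernel⟩

def k41_pp_101 : ∃ t, chk3 f_pp_101 t 73 247 1 = true :=
  ⟨(a (l 16779112) (l 16764632)), by decide +kernel⟩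

def k42_pp_101 : ∃ t, chk3 f_pp_101 t 74 244 1 = true :=
  ⟨(a (b (l 3) (a (l 3) (b (l 3) (a (c (c (l 366313738087) (l 370071834231)) (c (l 373829930359) (l 373293059191))) (a (b (l 3) (c (b (l 329806516439) (a (l 241759685975) (l 167671499511))) (b (l 331953998327) (a (l 241222814823) (l 164987144663))))) (b (a (l 3) (b (l 3) (c (l 297594258823) (l 297057387511)))) (c (c (l 174113950295) (l 174113950199)) (c (l 174650820919) (l 175187691607))))))))) (b (a (l 3) (b (l 3) (a (a (l 3) (b (l 3) (c (b (l 355576317735) (a (l 258939555351) (l 184314498055))) (b (l 342154544471) (a (l 257865813175) (l 181630143095)))))) (b (c (a (b (l 3) (l 327122159303)) (b (l 313700387735) (c (l 200957495975) (l 200957495623)))) (a (b (l 3) (l 328195900663)) (b (l 314237258183) (c (l 200420624519) (l 199883753383))))) (c (a (c (l 183240756039) (l 183777626759)) (l 16777560)) (a (c (l 183777626551) (l 184314497223)) (l 16777328))))))) (a (b (a (a (l 3) (b (l 3) (c (c (l 317458483079) (l 319069095591))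 (c (l 320679708103) (l 321753449687))))) (a (b (l 3) (c (b (a (l 322827191815) (l 232632880423)) (l 161229048775)) (b (a (l 322290320471) (l 231022267495)) (l 160692177463)))) (b (b (l 3) (a (c (l 305110451655) (l 304036709415)) (c (l 218137365687) (l 214916139831)))) (c (l 135459244935) (l 16778472))))) (a (b (b (a (a (l 3) (c (l 279877520023) (l 266992618823))) (c (l 174113950727) (l 172503337751))) (c (c (l 163913402887) (l 164450273607)) (c (l 163913402567) (l 164450273255)))) (c (l 16777184) (l 16776960))) (c (l 16776672) (l 16776424)))) (b (a (b (c (a (b (a (l 286856840615) (l 201494367255)) (l 16777848)) (l 16777632)) (a (b (a (l 285783098391) (l 198810012471)) (l 16777632)) (l 16777408))) (c (l 16777032) (l 16776784))) (c (l 16776512) (l 16776248))) (l 16780312))))), by decide +kernel⟩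

def k43_pp_101 : ∃ t, chk3 f_pp_101 t 74 245 1 = true :=
  ⟨(a (b (a (b (a (l 3) (b (l 3) (c (a (b (l 3) (c (l 277193164151) (l 277730034903))) (b (a (l 305647322471) (l 215989881895)) (l 16778600))) (a (b (l 3) (c (l 278266905623) (l 278803776359))) (b (a (l 306184194311) (l 212768656247)) (l 16778248)))))) (a (a (b (a (l 3) (c (c (l 315310999191) (l 316921611735)) (c (l 318532224263) (l 319605965879)))) (c (c (l 162302790007) (l 162839660791)) (c (l 163376531511) (l 163913402215)))) (b (c (b (c (l 290614936983) (l 291688678631)) (c (l 174113949799) (l 174113949639))) (b (c (l 292225549367) (l 292762420071)) (c (l 174113949463) (l 173577078343)))) (c (l 16777264) (l 16777056)))) (c (c (l 128479921415) (l 126869308807)) (c (l 125795567095) (l 124184954455))))) (c (b (a (b (a (b (l 3) (a (l 288467454567) (l 199346883623))) (b (a (l 257328942647) (l 183777626983)) (l 16777720))) (l 16778648)) (l 16779456)) (l 16775536)) (b (a (b (a (b (l 3) (a (l 288467455495) (l 198810012359))) (b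 (a (l 257865813223) (l 181630143143)) (l 16777520))) (l 16778440)) (l 16779216)) (l 16775256)))) (c (l 16779048) (c (l 16778792) (l 16778616)))) (b (c (l 16778744) (l 16778368)) (l 16780112))), by decide +kernel⟩

def k44_pp_101 : ∃ t, chk3 f_pp_101 t 75 122 1 = true :=
  ⟨(b (a (b (a (b (a (b (l 3) (c (a (c (l 323900934167) (l 324974675751)) (b (a (l 352891963031) (l 246054653447)) (l 172503338135))) (a (c (l 326585288247) (l 327659029799)) (b (a (l 355576317111) (l 246054653095)) (l 170892724983))))) (b (c (a (c (l 304573581143) (l 305647322743)) (b (a (l 297057388071) (l 213305527543)) (l 16777960))) (a (c (l 306721064311) (l 307794805879)) (b (a (l 294909903975) (l 208473688999)) (l 168745239575)))) (c (l 133311761447) (l 132238019479)))) (a (b (c (c (l 151028501143) (l 151565371847)) (c (l 151565371623) (l 152102242279))) (l 16779360)) (l 16780144))) (b (a (c (l 16778448) (l 16778184)) (l 16781280)) (l 16779968))) (c (l 16778432) (l 16778016))) (b (l 16780504) (l 16779480)))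 (l 16778600)), by decide +kernel⟩

def k45_pp_101 : ∃ t, chk3 f_pp_101 t 37 123 1 = true :=
  ⟨(a (a (b (l 16778560) (l 16760664)) (l 16770888)) (l 16775496)), by decide +kernel⟩

def k46_pp_101 : ∃ t, chk3 f_pp_101 t 38 120 1 = true :=
  ⟨(a (l 3) (b (a (l 3) (b (l 3) (c (a (l 3) (b (l 3) (a (l 365776867127) (b (l 330880256743) (a (l 253570847735) (l 171966467127)))))) (a (l 3) (b (l 3) (a (l 360945028071) (b (l 330880255959) (b (a (l 333027739223) (l 211694912535)) (l 175724563447))))))))) (a (b (a (l 3) (b (l 3) (a (l 3) (a (l 3) (b (l 3) (c (b (l 345912641719) (l 221895461463)) (b (l 345912641063) (l 205252460823)))))))) (a (b (a (l 3) (b (l 3) (a (l 3) (c (l 313163516103) (l 312089773623))))) (c (a (b (l 346449513303) (a (b (l 353965705367) (l 230485397271)) (l 187535724215))) (b (a (b (l 331417132199) (l 201494366663)) (l 166597758247)) (l 16777872))) (a (b (l 348060125303) (a (b (l 355039446551) (l 226727300295)) (l 185388239911))) (b (a (b (l 298131129799) (l 189683204279))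 (l 163376532167)) (l 16777544))))) (b (a (b (a (l 3) (c (l 290614940327) (b (l 3) (l 248202136119)))) (c (a (b (l 269140101911) (l 196662527175)) (l 16778264)) (a (b (l 264308263415) (l 192904430759)) (l 16777952)))) (b (c (c (l 181630143927) (l 181630143543)) (c (l 180556401415) (l 180019529991))) (c (l 16777704) (l 16777352)))) (c (l 16776952) (l 16776576))))) (b (a (b (a (l 3) (b (l 3) (a (c (l 302962968807) (l 301352355399)) (c (l 215453012119) (b (l 287393717207) (l 16778144)))))) (a (b (c (a (l 326585289079) (b (l 321216584967) (l 227264171607))) (a (l 324974675639) (b (l 283635615287) (l 210084299687)))) (c (l 164450275047) (c (l 163913402679) (l 162839660423)))) (c (l 134385503831) (l 133848632215)))) (b (a (b (c (a (l 279877519559) (l 193978175223)) (a (l 277193167015) (l 190220078119))) (c (l 16778168) (l 16777816))) (c (l 16777728) (l 16777352))) (l 16781616))) (c (l 16780208) (l 16779736)))))), by decide +kernel⟩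

def k47_pp_101 : ∃ t, chk3 f_pp_101 t 76 242 1 = true :=
  ⟨(a (b (l 3) (b (a (l 3) (a (b (l 3) (a (l 3) (c (l 325511547031) (l 326048418647)))) (b (a (l 3) (b (l 3) (c (l 272898197351) (l 269676971415)))) (c (a (b (l 287930582855) (l 182167014887)) (l 151565372471)) (a (b (l 285246227783) (l 180556400407)) (l 149954759175)))))) (a (a (l 3) (c (b (l 363629382503) (a (b (l 3) (l 238538461207)) (b (l 224579817399) (l 16778088)))) (b (l 357186930919) (a (b (l 3) (l 236927848023)) (c (l 193441303255) (l 192904431991)))))) (a (b (c (a (b (l 318532224919) (l 210621173399)) (l 173040209383)) (a (b (l 316384740711) (l 207399947591)) (l 171429596119))) (c (l 16777688) (l 16777400))) (c (l 16777208) (l 16776888)))))) (b (b (a (l 3) (a (b (l 3) (c (a (l 320679708855) (b (l 280951261127) (l 179482656615))) (a (l 320679708215) (b (l 277193164215) (l 199883752119))))) (b (b (a (l 3) (c (l 246054653703) (l 242296556919))) (c (a (l 262160780759) (l 16778288)) (a (l 257865813255) (l 16778000))))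 (c (l 16778680) (l 16778376))))) (a (a (a (l 3) (b (l 3) (b (l 3) (c (l 235854106807) (l 233706622519))))) (b (c (a (l 357186931079) (b (l 338396453991) (l 207399948071))) (a (l 343228286711) (b (l 309405418903) (l 203641851079)))) (c (c (l 173040209175) (l 172503337991)) (c (l 172503337703) (l 171966466519))))) (a (c (c (l 141364824871) (l 141901695495)) (c (l 141901695175) (l 141901694839))) (l 16781928)))) (a (b (a (b (c (a (b (l 250886492391) (l 16778216)) (l 16778056)) (a (b (l 248202137383) (l 16777944)) (l 16777768))) (c (l 16777528) (l 16777216))) (c (l 16777032) (l 16776696))) (l 16780856)) (l 16779776)))), by decide +kernel⟩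

def k48_pp_101 : ∃ t, chk3 f_pp_101 t 76 243 1 = true :=
  ⟨(a (a (b (b (a (b (c (a (b (l 3) (l 276656293607)) (b (l 252497105111) (l 181630141447))) (a (b (l 3) (l 273971941207)) (b (l 250886491975) (l 178408916039)))) (c (l 140827954343) (l 140291082967))) (c (l 16778688) (l 16778392))) (c (l 16776152) (l 16775808))) (l 16783776)) (c (l 16778576) (l 16778112))) (l 16780608)), by decide +kernel⟩

def k49_pp_101 : ∃ t, chk3 f_pp_101 t 77 121 1 = true :=
  ⟨(b (a (b (a (a (c (l 104857603847) (l 107541957191)) (l 16780864)) (l 16779392)) (l 16782048)) (l 16779872)) (l 16774672)), by decide +kernel⟩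

def k50_pp_101 : ∃ t, chk3 f_pp_101 t 39 60 1 = true :=
  ⟨(b (a (b (a (b (a (l 3) (b (l 3) (a (b (l 3) (c (a (l 346986383879) (l 235854107079)) (a (l 321216579335) (l 234780364487)))) (b (c (a (l 299741743511) (l 212768657575)) (a (l 295983646407) (l 209010560375))) (c (l 16778416) (l 173040206503)))))) (a (b (a (a (l 3) (b (l 3) (c (l 290614937895) (l 287393711751)))) (a (b (l 3) (c (l 205252464615) (l 200957496583))) (b (c (l 266455746951) (l 262160779127)) (c (l 16778384) (l 16778032))))) (a (b (c (a (l 225653559527) (l 16778448)) (a (l 222432333447) (l 16778096))) (c (l 16778008) (l 16777640))) (c (l 16777552) (l 16777152)))) (b (a (b (c (l 166597758727) (l 163376532487)) (l 16780272)) (l 16782408)) (l 16781208)))) (b (c (a (b (a (b (l 358797544471) (a (l 275045681591) (l 191830691463))) (b (a (l 248202136279) (l 195051914103)) (l 16778272))) (l 16777616)) (l 16776624)) (a (b (a (b (l 343228287143) (a (l 270750713671) (l 181630140967))) (b (a (l 243370299111) (l 190756946647))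 (l 16777880))) (l 16779808)) (l 16781384))) (l 16781784))) (a (c (l 16780720) (l 16780128)) (l 16779104))) (a (c (l 16779104) (l 16780904)) (l 16774776))) (a (l 16780888) (l 16773136))), by decide +kernel⟩

def k51_pp_101 : ∃ t, chk3 f_pp_101 t 19 61 1 = true :=
  ⟨(a (a (b (b (l 16780592) (l 16778584)) (l 16746792)) (b (l 16753432) (l 16739168))) (b (l 16741952) (l 16727984))), by decide +kernel⟩

def k52_pp_101 : ∃ t, chk3 f_pp_101 t 9 31 1 = true :=
  ⟨(b (a (a (b (a (b (a (a (l 16778000) (l 16778608)) (l 16765120)) (l 16780552)) (l 16776408)) (l 16759512)) (b (l 16754296) (l 16729248))) (a (l 16732112) (l 16728208))) (a (b (a (l 16729552) (l 16714768)) (l 16718008)) (l 16695904))), by decide +kernel⟩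

def k53_pp_101 : ∃ t, chk3 f_pp_101 t 10 28 1 = true :=
  ⟨(a (l 3) (b (l 3) (a (b (l 3) (a (l 3) (c (b (l 3) (a (b (l 3) (a (l 3) (b (l 3) (a (l 322827194935) (l 243907172247))))) (b (a (l 340543936231) (b (l 293836165815) (a (l 257865816055) (l 16780288)))) (a (b (l 220284852215) (l 16779904)) (l 16779208))))) (b (l 3) (a (b (l 3) (a (l 3) (b (l 3) (a (l 316384742759) (l 222432323959))))) (b (a (l 337859579719) (b (l 286319971591) (a (l 234243484135) (l 16779504)))) (a (b (a (l 284709370375) (l 196125657639)) (l 16779088)) (l 16778320)))))))) (b (a (b (l 3) (a (l 3) (a (l 3) (a (l 3) (b (l 3) (c (l 294909907991) (l 287393713639))))))) (b (c (a (l 3) (b (l 3) (a (l 320679712295) (b (l 305647337591) (l 202031233975))))) (a (l 3) (b (l 3) (a (l 314237259303) (b (l 297594272775) (l 196125656615)))))) (a (b (a (l 3) (b (l 315311012439) (a (l 297057402503) (c (l 206863073719) (l 202031238167))))) (b (a (a (l 324974688935) (b (l 269140115271) (l 207399947975))) (l 169282115879)) (c (l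 175724561127) (l 169818983639)))) (b (a (c (l 171966470855) (b (l 220284841271) (l 16779520))) (l 16779336)) (l 16777552))))) (a (b (a (b (l 3) (a (b (l 3) (a (l 336785848567) (b (l 282561887335) (l 218674236791)))) (b (c (l 239612205127) (b (l 298131132711) (l 227801043943))) (c (l 16780312) (l 16779480))))) (b (a (a (c (l 288467456951) (l 281488136231)) (b (l 317995367095) (c (l 16780576) (l 16779784)))) (c (l 161765922935) (b (l 207399938999) (l 16779136)))) (c (l 16779064) (l 16778080)))) (a (a (b (a (c (l 188609459879) (l 182703882151)) (l 16779368)) (l 16777184)) (l 16787400)) (l 16774216))) (a (b (c (l 16777232) (l 16776104)) (l 16770432)) (l 16790808))))))), by decide +kernel⟩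

def k54_pp_101 : ∃ t, chk3 f_pp_101 t 20 58 1 = true :=
  ⟨(a (l 3) (b (a (l 3) (b (l 3) (c (a (l 3) (b (l 3) (a (l 345375774423) (b (l 302426099847) (b (l 216526756311) (l 16778408)))))) (a (l 3) (b (l 3) (c (a (l 346449514983) (b (l 299741744263) (l 191293821303))) (a (l 345912643191) (b (l 297594259895) (l 188609465767))))))))) (a (b (a (l 3) (b (l 3) (a (l 3) (a (l 3) (b (l 3) (c (l 268603232167) (c (l 263771393335) (l 260550167415)))))))) (a (c (b (a (l 3) (l 367924353239)) (a (b (l 3) (a (l 311016033895) (b (l 299204884535) (l 16778096)))) (b (a (l 279340650071) (l 188609467639)) (l 16778912)))) (b (a (l 3) (l 359871287991)) (a (b (l 3) (a (l 306721065415) (b (l 292762427559) (l 16778864)))) (b (b (c (l 266455747639) (l 263771392663)) (c (l 197199400871) (l 194515045495))) (l 16778288))))) (c (b (a (b (l 322827194535) (a (b (l 326585290375) (l 222969200999)) (l 188072590743))) (b (a (l 210621175815) (l 16779336)) (l 16778544))) (l 16777248)) (b (a (b (a (l 3) (l 295983647271))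 (a (b (l 321216580231) (l 215453007335)) (l 182703882983))) (b (a (b (l 281488143991) (l 16778960)) (l 16778712)) (l 16777864))) (l 16781760))))) (b (c (a (b (a (l 3) (b (l 3) (b (l 279340650423) (l 213305530727)))) (a (b (a (l 346986385367) (l 232632881831)) (l 166060889543)) (l 130627408407))) (b (a (b (a (l 255718330839) (l 197199396055)) (l 16779184)) (l 16778376)) (l 16776312))) (a (b (a (l 3) (b (l 3) (a (l 282561874695) (b (l 250886486615) (l 16779056))))) (a (b (a (l 345375781783) (b (l 287393723719) (l 205789331799))) (c (l 192367555367) (l 188609459863))) (l 126332440343))) (b (a (b (a (l 248739008055) (l 193978171287)) (l 16778488)) (l 16777608)) (l 16775464)))) (a (c (l 16785720) (l 16779616)) (l 16771008)))))), by decide +kernel⟩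

def k55_pp_101 : ∃ t, chk3 f_pp_101 t 40 118 1 = true :=
  ⟨(a (b (l 3) (a (b (l 3) (a (l 3) (b (l 3) (a (l 3) (b (l 3) (c (l 257328942343) (l 251960235143))))))) (b (a (l 3) (c (b (l 3) (a (l 321753451991) (b (l 276119424167) (l 203104977111)))) (b (l 3) (a (l 319605967239) (b (l 270213843351) (l 198273138455)))))) (a (b (a (l 3) (b (c (l 343228288151) (l 342154555799)) (c (l 215453012951) (l 210084302487)))) (a (b (c (l 236927847975) (l 231022267159)) (c (l 16778888) (l 16778408))) (c (l 16778552) (l 16778040)))) (b (a (c (l 170892727079) (a (l 178408917975) (l 16778376))) (l 16780744)) (l 16777072)))))) (b (a (c (b (l 3) (a (l 3) (b (l 334638357319) (a (a (l 288467455207) (l 232632881031)) (l 169282114151))))) (b (l 3) (a (l 3) (b (a (l 3) (l 314774129063)) (a (b (l 338396449031) (a (l 257865818167) (l 16778744))) (l 167671500215)))))) (b (a (b (l 3) (a (l 3) (c (l 286856845239) (a (l 343228297831) (l 259476425511))))) (c (c (b (a (l 359334416663) (l 256255201319)) (l 176798307591))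 (b (a (l 360408157879) (l 253570846391)) (a (l 193441304839) (l 16778768)))) (b (a (l 360408156903) (a (l 274508810775) (l 219747978871))) (a (c (l 193441304087) (l 188609465159)) (l 16778328))))) (b (a (c (a (b (l 306721071671) (l 201494364663)) (l 16779048)) (a (b (l 301352361799) (l 195588784439)) (l 16778496))) (l 16777696)) (c (l 16777376) (l 16776728))))) (b (a (a (b (a (b (l 3) (c (l 255181458951) (l 248739007255))) (b (c (l 234243494247) (l 227264171015)) (c (l 16779048) (l 16778544)))) (c (l 134922375255) (l 131164277783))) (c (l 16777688) (l 16777080))) (l 16785128)) (c (l 16784064) (l 16783280))))), by decide +kernel⟩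

def k56_pp_101 : ∃ t, chk3 f_pp_101 t 40 119 1 = true :=
  ⟨(a (b (c (a (b (a (b (a (l 3) (l 322827193719)) (a (b (l 343228293255) (l 213842400135)) (b (l 194515046919) (l 16778568)))) (b (b (a (l 278266907607) (l 185925108135)) (l 156397212103)) (l 16777768))) (l 16780240)) (l 16779480)) (a (b (a (b (c (l 340543933831) (l 341080804151)) (a (b (l 314237257799) (a (l 276119428775) (l 16778512))) (b (l 189683207207) (l 16778096)))) (b (a (b (l 273435068599) (l 197199396871)) (l 166060885415)) (l 16777232))) (a (l 16781912) (l 16774760))) (l 16781392))) (c (l 16779848) (l 16778968))) (c (l 16775624) (l 16779736))), by decide +kernel⟩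

def k57_pp_101 : ∃ t, chk3 f_pp_101 t 41 59 1 = true :=
  ⟨(b (a (b (a (b (a (b (a (c (l 165524013303) (l 191830686231)) (l 16778448)) (l 16777472)) (l 16776472)) (l 16774160)) (l 16782488)) (l 16788112)) (l 16783768)) (l 16779232)), by decide +kernel⟩

def k58_pp_101 : ∃ t, chk3 f_pp_101 t 21 29 1 = true :=
  ⟨(b (a (b (a (b (a (l 3) (b (a (l 3) (b (l 3) (c (l 300815487383) (l 294909905895)))) (a (c (b (l 350207611543) (a (l 295983660087) (l 199883750855))) (b (l 322290322503) (a (b (l 307257936951) (l 230485393431)) (l 197199397559)))) (b (b (a (l 296520528007) (l 189683208215)) (c (l 16777400) (l 16779304))) (l 16779024))))) (b (a (a (b (l 3) (a (b (l 3) (l 331954009847)) (b (l 314774140919) (c (l 221358589207) (l 212768653895))))) (c (b (c (l 251423364295) (l 248739009271)) (l 175187690855)) (b (a (l 319605978343) (b (l 255181459479) (l 16779296))) (l 169818983655)))) (c (l 16778288) (l 136532989543))) (a (a (b (c (l 171966469687) (a (l 209010554407) (l 16778872))) (l 16778448))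 (l 16777536)) (l 16774856)))) (b (a (b (a (b (c (l 273971941975) (c (l 269140102935) (l 265918876951))) (a (c (l 212768651991) (l 208473683991)) (l 16779544))) (c (l 164450273047) (l 158544695287))) (c (l 16777824) (l 16776904))) (c (l 16775848) (l 16774800))) (l 16781288))) (b (a (c (l 16782896) (l 16781816)) (l 16764176)) (l 16782336))) (b (a (l 16787368) (l 16758680)) (l 16770376))) (a (a (l 16769352) (l 16761896)) (l 16750912))), by decide +kernel⟩

def k59_pp_101 : ∃ t, chk3 f_pp_101 t 11 14 1 = true :=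
  ⟨(b (a (b (a (b (l 3) (a (c (b (l 3) (a (l 359871303623) (b (a (l 3) (l 283098748663)) (a (b (l 313700390839) (l 210084296647)) (l 16778344))))) (b (l 3) (a (b (l 3) (l 341080805975)) (b (a (l 3) (b (l 3) (l 279340652183))) (a (b (l 305110455063) (l 203641848007)) (l 16779936)))))) (b (a (b (l 3) (a (l 323900952871) (b (l 313163529879) (c (l 215453005607) (l 209010556535))))) (b (a (c (l 286319974359) (l 277193167175)) (b (a (l 273435083607) (l 209010559703)) (l 16780944))) (c (l 167134627975) (l 161229051175)))) (a (b (a (b (a (l 269140116103) (l 203641850535)) (l 16780672)) (l 16780144)) (l 16778576)) (l 16776632))))) (b (a (b (a (l 3) (b (l 3) (a (l 3) (b (l 315847895463) (a (l 244444040679) (l 16781352)))))) (a (b (a (l 3) (b (l 3) (l 293299307591))) (b (a (l 315847895159) (l 200420623671)) (c (l 199346876039) (l 192904428343)))) (b (a (b (a (l 275582557063) (l 211694914327)) (l 16781192)) (l 16780800)) (l 16779424)))) (b (a (b (b (c (l 273435073415) (l 263234524743)) (a (l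 293299307927) (l 16781432))) (c (l 171429595559) (l 165524019111))) (c (l 16780216) (l 16778792))) (l 16786320))) (a (b (a (c (l 16779384) (l 16778072)) (l 16775360)) (l 16771112)) (l 16766552)))) (a (b (a (b (a (b (a (c (l 277730044615) (c (l 272361329159) (l 268066361255))) (b (a (l 279877534183) (l 196125658583)) (l 16780360))) (c (l 155860341383) (l 152102246391))) (c (l 16778400) (l 16777184))) (l 16784176)) (l 16784984)) (l 16783776)) (a (l 16775984) (l 16768256)))) (b (a (b (a (l 16781904) (l 16763608)) (l 16775752)) (b (l 16751656) (l 16739064))) (a (l 16756792) (l 16720728)))) (a (b (a (l 16782768) (l 16726032)) (l 16750640)) (b (l 16683544) (l 16681640)))), by decide +kernel⟩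

def k60_pp_101 : ∃ t, chk3 f_pp_101 t 5 15 1 = true :=
  ⟨(a (b (a (b (a (b (b (l 16779032) (l 16772088)) (l 16740752)) (l 16774600)) (a (l 16720240) (l 16706024))) (b (a (l 16739216) (l 16704352)) (l 16706800))) (a (b (l 16686624) (l 16681640)) (b (l 16660928) (l 16636656)))) (b (a (b (l 16684488) (l 16660632)) (l 16669056)) (a (l 16667888) (l 16604640)))), by decide +kernel⟩

def k61_pp_101 : ∃ t, chk3 f_pp_101 t 3 2 1 = true :=
  ⟨(a (l 3) (l 1)), by decide +kernel⟩

def k62_pp_101 : ∃ t, chk3 f_pp_101 t 6 12 1 = true :=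
  ⟨(a (b (l 3) (a (l 3) (b (l 3) (a (l 3) (b (l 3) (a (b (l 3) (l 324974701543)) (b (a (l 3) (l 224042957143)) (a (b (l 276119435287) (l 16785464)) (l 16785144))))))))) (b (l 1) (a (b (l 1) (a (b (l 1) (a (l 131566931959) (l 1))) (l 1))) (l 1)))), by decide +kernel⟩

def k63_pp_101 : ∃ t, chk3 f_pp_101 t 6 13 1 = true :=
  ⟨(a (b (a (b (l 3) (a (b (l 3) (a (l 3) (b (l 3) (a (b (l 3) (l 272361332487)) (b (a (l 290078073271) (l 233706631095)) (l 189146336359)))))) (b (a (b (l 3) (a (l 3) (b (l 3) (l 292225580071)))) (b (a (l 3) (b (l 299741772679) (l 202031232311))) (a (b (a (l 265382014103) (l 16778768)) (l 16783872)) (l 16782944)))) (a (b (a (b (l 283635621287) (a (l 256255208647) (l 16783712))) (b (l 196662525479) (l 16783048))) (a (l 16782712) (l 16780088))) (l 16788080))))) (b (a (b (a (l 3) (b (l 3) (a (l 3) (b (l 312089782759) (l 207936810359))))) (a (b (a (l 3) (l 292225555751)) (a (b (l 3) (l 267529520503)) (b (l 205789327303) (l 16784192)))) (b (a (b (l 272361338039) (l 16784728))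 (l 16784152)) (l 16781760)))) (b (a (a (b (l 257328955159) (l 167134633495)) (c (l 169282103575) (l 161229046631))) (l 16791304)) (a (l 16777496) (l 16769328)))) (a (b (a (b (a (l 161229055623) (l 16781752)) (l 16778528)) (l 16773784)) (l 16765592)) (l 16775400)))) (a (b (a (b (a (b (a (l 3) (a (l 294909935655) (b (l 3) (l 209547427607)))) (a (b (a (l 3) (l 273971947959)) (a (l 215453003287) (l 16782880))) (b (l 178945793639) (l 16781544)))) (b (a (b (a (l 243907156695) (l 16783344)) (l 16782744)) (l 16781416)) (l 16778208))) (a (c (l 16778064) (l 16786488)) (l 16769440))) (b (a (l 16773680) (l 16765584)) (l 16757048))) (a (b (l 16781880) (l 16748184)) (l 16738016))) (b (a (l 16767280) (l 16728856)) (a (l 16721464) (l 16704904))))) (b (a (b (a (b (l 16768768) (l 16758648)) (l 16760024)) (l 16763784)) (l 169147869415)) (a (b (l 16717872) (l 16684264)) (l 16716304)))), by decide +kernel⟩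

def k64_pp_101 : ∃ t, chk3 f_pp_101 t 6 7 1 = true :=
  ⟨(b (a (b (a (b (l 16763656) (l 16719520)) (b (l 16690560) (l 16669408))) (a (l 16707984) (l 16639760))) (b (a (l 16670816) (l 16643432)) (l 16681816))) (a (b (a (l 16624696) (l 16601696)) (l 16637424)) (b (l 16585912) (l 16532344)))), by decide +kernel⟩

def k65_pp_101 : ∃ t, chk3 f_pp_101 t 7 3 1 = true :=
  ⟨(b (a (b (l 1) (b (l 1) (l 192233511991))) (l 1)) (b (a (b (l 16702728) (l 16617008)) (l 240552190823)) (a (b (l 16498968) (l 16479576)) (b (l 16649752) (l 16515616))))), by decide +kernel⟩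

theorem s66_pp_101 : ∃ t, chk3 f_pp_101 t 6 6 1 = true := ex3_b k62_pp_101 k63_pp_101

theorem s67_pp_101 : ∃ t, chk3 f_pp_101 t 6 3 1 = true := ex3_b s66_pp_101 k64_pp_101

theorem s68_pp_101 : ∃ t, chk3 f_pp_101 t 3 3 1 = true := ex3_a s67_pp_101 k65_pp_101

theorem s69_pp_101 : ∃ t, chk3 f_pp_101 t 3 1 1 = true := ex3_b k61_pp_101 s68_pp_101

theorem s70_pp_101 : ∃ t, chk3 f_pp_101 t 40 59 1 = true := ex3_b k55_pp_101 k56_pp_101

theorem s71_pp_101 : ∃ t, chk3 f_pp_101 t 20 59 1 = true := ex3_a s70_pp_101 k57_pp_101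

theorem s72_pp_101 : ∃ t, chk3 f_pp_101 t 20 29 1 = true := ex3_b k54_pp_101 s71_pp_101

theorem s73_pp_101 : ∃ t, chk3 f_pp_101 t 10 29 1 = true := ex3_a s72_pp_101 k58_pp_101

theorem s74_pp_101 : ∃ t, chk3 f_pp_101 t 10 14 1 = true := ex3_b k53_pp_101 s73_pp_101

theorem s75_pp_101 : ∃ t, chk3 f_pp_101 t 5 14 1 = true := ex3_a s74_pp_101 k59_pp_101

theorem s76_pp_101 : ∃ t, chk3 f_pp_101 t 5 7 1 = true := ex3_b s75_pp_101 k60_pp_101

theorem s77_pp_101 : ∃ t, chk3 f_pp_101 t 76 121 1 = true := ex3_b k47_pp_101 k48_pp_101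

theorem s78_pp_101 : ∃ t, chk3 f_pp_101 t 38 121 1 = true := ex3_a s77_pp_101 k49_pp_101

theorem s79_pp_101 : ∃ t, chk3 f_pp_101 t 38 60 1 = true := ex3_b k46_pp_101 s78_pp_101

theorem s80_pp_101 : ∃ t, chk3 f_pp_101 t 19 60 1 = true := ex3_a s79_pp_101 k50_pp_101

theorem s81_pp_101 : ∃ t, chk3 f_pp_101 t 19 30 1 = true := ex3_b s80_pp_101 k51_pp_101

theorem s82_pp_101 : ∃ t, chk3 f_pp_101 t 74 122 1 = true := ex3_b k42_pp_101 k43_pp_101

theorem s83_pp_101 : ∃ t, chk3 f_pp_101 t 37 122 1 = true := ex3_a s82_pp_101 k44_pp_101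

theorem s84_pp_101 : ∃ t, chk3 f_pp_101 t 37 61 1 = true := ex3_b s83_pp_101 k45_pp_101

theorem s85_pp_101 : ∃ t, chk3 f_pp_101 t 146 246 1 = true := ex3_b k38_pp_101 k39_pp_101

theorem s86_pp_101 : ∃ t, chk3 f_pp_101 t 73 246 1 = true := ex3_a s85_pp_101 k40_pp_101

theorem s87_pp_101 : ∃ t, chk3 f_pp_101 t 73 123 1 = true := ex3_b s86_pp_101 k41_pp_101

theorem s88_pp_101 : ∃ t, chk3 f_pp_101 t 144 247 1 = true := ex3_b k35_pp_101 k36_pp_101

theorem s89_pp_101 : ∃ t, chk3 f_pp_101 t 72 247 1 = true := ex3_a s88_pp_101 k37_pp_101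

theorem s90_pp_101 : ∃ t, chk3 f_pp_101 t 72 123 1 = true := ex3_b k34_pp_101 s89_pp_101

theorem s91_pp_101 : ∃ t, chk3 f_pp_101 t 36 123 1 = true := ex3_a s90_pp_101 s87_pp_101

theorem s92_pp_101 : ∃ t, chk3 f_pp_101 t 36 61 1 = true := ex3_b k33_pp_101 s91_pp_101

theorem s93_pp_101 : ∃ t, chk3 f_pp_101 t 18 61 1 = true := ex3_a s92_pp_101 s84_pp_101

theorem s94_pp_101 : ∃ t, chk3 f_pp_101 t 18 30 1 = true := ex3_b k32_pp_101 s93_pp_101

theorem s95_pp_101 : ∃ t, chk3 f_pp_101 t 9 30 1 = true := ex3_a s94_pp_101 s81_pp_101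

theorem s96_pp_101 : ∃ t, chk3 f_pp_101 t 9 15 1 = true := ex3_b s95_pp_101 k52_pp_101

theorem s97_pp_101 : ∃ t, chk3 f_pp_101 t 142 248 1 = true := ex3_b k26_pp_101 k27_pp_101

theorem s98_pp_101 : ∃ t, chk3 f_pp_101 t 71 248 1 = true := ex3_a s97_pp_101 k28_pp_101

theorem s99_pp_101 : ∃ t, chk3 f_pp_101 t 71 124 1 = true := ex3_b s98_pp_101 k29_pp_101

theorem s100_pp_101 : ∃ t, chk3 f_pp_101 t 280 499 1 = true := ex3_b k22_pp_101 k23_pp_101

theorem s101_pp_101 : ∃ t, chk3 f_pp_101 t 140 499 1 = true := ex3_a s100_pp_101 k24_pp_101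

theorem s102_pp_101 : ∃ t, chk3 f_pp_101 t 140 249 1 = true := ex3_b k21_pp_101 s101_pp_101

theorem s103_pp_101 : ∃ t, chk3 f_pp_101 t 70 249 1 = true := ex3_a s102_pp_101 k25_pp_101

theorem s104_pp_101 : ∃ t, chk3 f_pp_101 t 70 124 1 = true := ex3_b k20_pp_101 s103_pp_101

theorem s105_pp_101 : ∃ t, chk3 f_pp_101 t 35 124 1 = true := ex3_a s104_pp_101 s99_pp_101

theorem s106_pp_101 : ∃ t, chk3 f_pp_101 t 35 62 1 = true := ex3_b s105_pp_101 k30_pp_101

theorem s107_pp_101 : ∃ t, chk3 f_pp_101 t 278 500 1 = true := ex3_b k15_pp_101 k16_pp_101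

theorem s108_pp_101 : ∃ t, chk3 f_pp_101 t 139 500 1 = true := ex3_a s107_pp_101 k17_pp_101

theorem s109_pp_101 : ∃ t, chk3 f_pp_101 t 139 250 1 = true := ex3_b s108_pp_101 k18_pp_101

theorem s110_pp_101 : ∃ t, chk3 f_pp_101 t 138 250 1 = true := ex3_b k13_pp_101 k14_pp_101

theorem s111_pp_101 : ∃ t, chk3 f_pp_101 t 69 250 1 = true := ex3_a s110_pp_101 s109_pp_101

theorem s112_pp_101 : ∃ t, chk3 f_pp_101 t 69 125 1 = true := ex3_b s111_pp_101 k19_pp_101

theorem s113_pp_101 : ∃ t, chk3 f_pp_101 t 34 125 1 = true := ex3_a k12_pp_101 s112_pp_101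

theorem s114_pp_101 : ∃ t, chk3 f_pp_101 t 34 62 1 = true := ex3_b k11_pp_101 s113_pp_101

theorem s115_pp_101 : ∃ t, chk3 f_pp_101 t 17 62 1 = true := ex3_a s114_pp_101 s106_pp_101

theorem s116_pp_101 : ∃ t, chk3 f_pp_101 t 17 31 1 = true := ex3_b s115_pp_101 k31_pp_101

theorem s117_pp_101 : ∃ t, chk3 f_pp_101 t 8 31 1 = true := ex3_a k10_pp_101 s116_pp_101

theorem s118_pp_101 : ∃ t, chk3 f_pp_101 t 8 30 1 = true := ex3_a k8_pp_101 k9_pp_101

theorem s119_pp_101 : ∃ t, chk3 f_pp_101 t 8 15 1 = true := ex3_b s118_pp_101 s117_pp_101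

theorem s120_pp_101 : ∃ t, chk3 f_pp_101 t 4 15 1 = true := ex3_a s119_pp_101 s96_pp_101

theorem s121_pp_101 : ∃ t, chk3 f_pp_101 t 19 59 1 = true := ex3_a k6_pp_101 k7_pp_101

theorem s122_pp_101 : ∃ t, chk3 f_pp_101 t 19 29 1 = true := ex3_b k5_pp_101 s121_pp_101

theorem s123_pp_101 : ∃ t, chk3 f_pp_101 t 9 29 1 = true := ex3_a k4_pp_101 s122_pp_101

theorem s124_pp_101 : ∃ t, chk3 f_pp_101 t 9 14 1 = true := ex3_b k3_pp_101 s123_pp_101

theorem s125_pp_101 : ∃ t, chk3 f_pp_101 t 4 14 1 = true := ex3_a k2_pp_101 s124_pp_101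

theorem s126_pp_101 : ∃ t, chk3 f_pp_101 t 4 7 1 = true := ex3_b s125_pp_101 s120_pp_101

theorem s127_pp_101 : ∃ t, chk3 f_pp_101 t 2 7 1 = true := ex3_a s126_pp_101 s76_pp_101

theorem s128_pp_101 : ∃ t, chk3 f_pp_101 t 2 3 1 = true := ex3_b k1_pp_101 s127_pp_101

theorem s129_pp_101 : ∃ t, chk3 f_pp_101 t 2 1 1 = true := ex3_b k0_pp_101 s128_pp_101

theorem s130_pp_101 : ∃ t, chk3 f_pp_101 t 1 1 1 = true := ex3_a s129_pp_101 s69_pp_101

theorem c_pp_101 : CertN 536870912 536870912 536870912 536870912 402653184 67108864 3 false true true .npn 1 0 1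
    ndN4q1 ndN0q1 pcN0 cut_pp_101 Ext.none :=
  certN2 (fam := false) (s1 := true) (s2 := true) (a := 1) (b := 0) (c := 1) (cn := .npn) (n1 := ndN4q1) (n2 := ndN0q1) (pc := pcN0) (cut := cut_pp_101) (xt := Ext.none) (P1 := 536870912) (W1 := 536870912) (P2 := 536870912) (W2 := 536870912) (P3 := 402653184) (W3 := 67108864) (N0 := 3)
    rfl (fun _ => rfl) s130_pp_101

noncomputable def cut_pp_102 : Cut := Cut.of [[⟨0, 1, 0, 67108864⟩, ⟨1, 0, 0, 67108864⟩, ⟨2, 1, 0, 67108864⟩]]

noncomputable def f_pp_102 : ℕ → ℕ → ℕ → ℕ → Bool := onCell 536870912 536870912 0 536870912 402653184 67108864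
    (rowN 3 0 false true true .npp 1 0 2 (qsf 536870912 536870912 0 536870912 0) ndN4q1 ndN0q2 pcN0 cut_pp_102 Ext.none)

def k0_pp_102 : ∃ t, chk3 f_pp_102 t 1 1 1 = true :=
  ⟨(a (b (a (a (l 2) (b (l 2) (b (l 2) (l 16923496)))) (b (b (l 17444368) (a (l 17339160) (l 17301960))) (b (l 17101496) (l 16885136)))) (b (a (l 16750824) (b (l 16754728) (l 16661688))) (a (b (l 16594472) (a (l 16487416) (l 16511192))) (b (l 16673848) (a (l 16530984) (b (l 16556592) (l 16549872))))))) (b (a (b (b (l 17332928) (a (l 17240376) (l 17148912))) (b (l 16982136) (a (l 16809536) (l 16751392)))) (b (a (l 17233640) (b (l 17020768) (l 16870768))) (a (b (l 16846720) (l 16687680)) (b (l 16735184) (l 16624112))))) (b (a (a (l 16659304) (l 16877264)) (a (b (l 16609120) (l 16583048)) (b (a (l 16581984) (l 16564008)) (a (l 16574008) (l 16571480))))) (a (b (a (l 16583000) (l 16584840)) (a (b (l 16573104) (l 16645400)) (b (l 16596264) (a (l 16609680) (l 16693168))))) (b (a (b (l 16587080) (l 16602528)) (a (l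 16712512) (a (l 16637312) (l 16623040)))) (a (b (a (l 16618888) (l 16636976)) (a (b (l 16641912) (l 16662176)) (b (l 16707000) (l 16688144)))) (b (a (a (l 16651832) (l 16662456)) (a (l 16694536) (l 6))) (a (a (b (l 16683832) (l 16709160)) (b (l 16697192) (l 6))) (l 6))))))))), by decide +kernel⟩

theorem c_pp_102 : CertN 536870912 536870912 0 536870912 402653184 67108864 3 false true true .npp 1 0 2
    ndN4q1 ndN0q2 pcN0 cut_pp_102 Ext.none :=
  certN0 (fam := false) (s1 := true) (s2 := true) (a := 1) (b := 0) (c := 2) (cn := .npp) (n1 := ndN4q1) (n2 := ndN0q2) (pc := pcN0) (cut := cut_pp_102) (xt := Ext.none) (P1 := 536870912) (W1 := 536870912) (P2 := 0) (W2 := 536870912) (P3 := 402653184) (W3 := 67108864) (N0 := 3)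
    rfl k0_pp_102

end Pool.Agent.Strip051.G.I3_8_7_16.Tab.C.NB40

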