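import Pool.Agent.Strip051.G.I3_8_7_16.Fs

/-! # Certificates at the floor (generated) -/

set_option linter.all false

namespace Pool.Agent.Strip051.G.I3_8_7_16.Tab

open Pool.Agent.Strip051.PB

theorem cF_m00 : CertNd 0 536870912 402653184 67108864 (ftMono true 0 mZ) [] ndF0q0 cZ :=
  certNd (T := (ftMono true 0 mZ)) (L := []) (P1 := 0) (W1 := 536870912) (P3 := 402653184) (W3 := 67108864) (n := ndF0q0) (c := cZ)
    ⟨T.a (T.l 0) (T.a (T.l 0) (T.l 0)),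
      by decide +kernel⟩
theorem cF_m01 : CertNd 536870912 536870912 402653184 67108864 (ftMono true 1 mZ) [] ndF0q1 cZ :=
  certNd (T := (ftMono true 1 mZ)) (L := []) (P1 := 536870912) (W1 := 536870912) (P3 := 402653184) (W3 := 67108864) (n := ndF0q1) (c := cZ)
    ⟨T.a (T.a (T.l 0) (T.l 0)) (T.a (T.l 0) (T.l 0)),
      by decide +kernel⟩
theorem cF_g00 : CertGe 0 67108864 402653184 67108864 true [] (((2 : ℕ) : ℝ) / ((1 : ℕ) : ℝ)) 0 ((0 : ℕ) : ℝ)
    (((2 : ℕ) : ℝ) / 2) mZ ndF0q0 cZ :=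
  certGe (z := true) (L := []) (P1 := 0) (W1 := 67108864) (P3 := 402653184) (W3 := 67108864) (oa := 2) (ob := 1)
    (q := 0) (bb := 0) (hB := 2) (M := mZ) (n := ndF0q0) (c := cZ) (sX := c1g_fs) (sK := kf0q0_fs)
    (sL := l0q0_fs) ⟨T.l 0,
      by decide +kernel⟩
theorem cF_w00a : CertNd 67108864 303332065 402653184 67108864 (ftWall true 0 mZ 1 1) [] ndF0q0 cZ :=
  certNd (T := (ftWall true 0 mZ 1 1)) (L := []) (P1 := 67108864) (W1 := 303332065) (P3 := 402653184) (W3 := 67108864) (n := ndF0q0) (c := cZ)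
    ⟨T.a (T.a (T.c (T.a (T.c (T.l 0) (T.l 0)) (T.l 0)) (T.a (T.c (T.l 0) (T.l 0)) (T.l 0))) (T.c (T.a (T.l 0) (T.l 0)) (T.a (T.l 0) (T.l 0)))) (T.a (T.c (T.a (T.l 0) (T.l 0)) (T.a (T.l 0) (T.l 0))) (T.a (T.c (T.a (T.l 0) (T.l 0)) (T.l 0)) (T.c (T.a (T.c (T.l 0) (T.l 0)) (T.c (T.c (T.a (T.l 0) (T.l 0)) (T.l 0)) (T.c (T.l 0) (T.l 0)))) (T.c (T.a (T.l 0) (T.l 0)) (T.l 0))))),
      by decide +kernel⟩
theorem cF_w00b : CertNd 501437431 35433481 402653184 67108864 (ftWall true 0 mZ 1 1) [] ndF0q0 cZ :=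
  certNd (T := (ftWall true 0 mZ 1 1)) (L := []) (P1 := 501437431) (W1 := 35433481) (P3 := 402653184) (W3 := 67108864) (n := ndF0q0) (c := cZ)
    ⟨T.c (T.l 0) (T.a (T.c (T.l 0) (T.l 0)) (T.l 0)),
      by decide +kernel⟩
theorem cF_w01b : CertNd 536870912 500363690 402653184 67108864 (ftWall true 1 mZ 1 1) [] ndF0q1 cZ :=
  certNd (T := (ftWall true 1 mZ 1 1)) (L := []) (P1 := 536870912) (W1 := 500363690) (P3 := 402653184) (W3 := 67108864) (n := ndF0q1) (c := cZ)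
    ⟨T.a (T.a (T.a (T.a (T.l 0) (T.l 0)) (T.l 0)) (T.l 0)) (T.a (T.l 0) (T.l 0)),
      by decide +kernel⟩
theorem cF_g01 : CertGe 1037234602 36507222 402653184 67108864 true [] (((2 : ℕ) : ℝ) / ((1 : ℕ) : ℝ)) 1 ((1 : ℕ) : ℝ)
    (((1 : ℕ) : ℝ) / 2) mZ ndF0q1 cZ :=
  certGe (z := true) (L := []) (P1 := 1037234602) (W1 := 36507222) (P3 := 402653184) (W3 := 67108864) (oa := 2) (ob := 1)
    (q := 1) (bb := 1) (hB := 1) (M := mZ) (n := ndF0q1) (c := cZ) (sX := c1g_fs) (sK := kf0q1_fs)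
    (sL := l0q1_fs) ⟨T.l 0,
      by decide +kernel⟩
theorem cF_tl : CertTg 370440929 130996502 402653184 67108864 (ftTf true dlg) [⟨6, 0⟩] :=
  certTg (T := (ftTf true dlg)) (L := [⟨6, 0⟩]) (P1 := 370440929) (W1 := 130996502) (P3 := 402653184) (W3 := 67108864)
    ⟨T.l 0,
      by decide +kernel⟩
theorem cF_th : CertTg 370440929 130996502 402653184 67108864 (ftTf false dlg) [⟨5, 0⟩] :=
  certTg (T := (ftTf false dlg)) (L := [⟨5, 0⟩]) (P1 := 370440929) (W1 := 130996502) (P3 := 402653184) (W3 := 67108864)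
    ⟨T.l 0,
      by decide +kernel⟩
theorem cF_m10 : CertNd 0 67108864 402653184 67108864 (ftMono true 0 mZ) [] ndF1q0 cZ :=
  certNd (T := (ftMono true 0 mZ)) (L := []) (P1 := 0) (W1 := 67108864) (P3 := 402653184) (W3 := 67108864) (n := ndF1q0) (c := cZ)
    ⟨T.l 0,
      by decide +kernel⟩
theorem cF_g10 : CertGe 0 67108864 402653184 67108864 true [] (((2 : ℕ) : ℝ) / ((1 : ℕ) : ℝ)) 0 ((0 : ℕ) : ℝ)
    (((2 : ℕ) : ℝ) / 2) mZ ndF1q0 cZ :=
  certGe (z := true) (L := []) (P1 := 0) (W1 := 67108864) (P3 := 402653184) (W3 := 67108864) (oa := 2) (ob := 1)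
    (q := 0) (bb := 0) (hB := 2) (M := mZ) (n := ndF1q0) (c := cZ) (sX := cv1m_fs) (sK := kf1q0_fs)
    (sL := l1q0_fs) ⟨T.l 0,
      by decide +kernel⟩
theorem cF_w10 : CertNd 67108864 469762048 402653184 67108864 (ftWall true 0 mZ 1 1) [] ndF1q0 cZ :=
  certNd (T := (ftWall true 0 mZ 1 1)) (L := []) (P1 := 67108864) (W1 := 469762048) (P3 := 402653184) (W3 := 67108864) (n := ndF1q0) (c := cZ)
    ⟨T.a (T.a (T.l 0) (T.l 0)) (T.a (T.l 0) (T.l 0)),
      by decide +kernel⟩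
theorem cF_w11 : CertNd 536870912 536870912 402653184 67108864 (ftWall true 1 mZ 1 1) [] ndF1q1 cZ :=
  certNd (T := (ftWall true 1 mZ 1 1)) (L := []) (P1 := 536870912) (W1 := 536870912) (P3 := 402653184) (W3 := 67108864) (n := ndF1q1) (c := cZ)
    ⟨T.l 0,
      by decide +kernel⟩
theorem cF_w20 : CertNd 0 536870912 402653184 67108864 (ftWall true 0 mZ 1 1) [] ndF2q0 cZ :=
  certNd (T := (ftWall true 0 mZ 1 1)) (L := []) (P1 := 0) (W1 := 536870912) (P3 := 402653184) (W3 := 67108864) (n := ndF2q0) (c := cZ)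
    ⟨T.a (T.a (T.l 0) (T.l 0)) (T.l 0),
      by decide +kernel⟩
theorem cF_w21 : CertNd 536870912 536870912 402653184 67108864 (ftWall true 1 mZ 1 1) [] ndF2q1 cZ :=
  certNd (T := (ftWall true 1 mZ 1 1)) (L := []) (P1 := 536870912) (W1 := 536870912) (P3 := 402653184) (W3 := 67108864) (n := ndF2q1) (c := cZ)
    ⟨T.a (T.a (T.l 0) (T.l 0)) (T.l 0),
      by decide +kernel⟩
theorem cF_w22 : CertNd 1073741824 166215235 402653184 67108864 (ftWall true 2 mZ 1 1) [⟨4, 0⟩] ndF2q2 cZ :=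
  certNd (T := (ftWall true 2 mZ 1 1)) (L := [⟨4, 0⟩]) (P1 := 1073741824) (W1 := 166215235) (P3 := 402653184) (W3 := 67108864) (n := ndF2q2) (c := cZ)
    ⟨T.l 0,
      by decide +kernel⟩
theorem cF_w30 : CertNd 0 536870912 402653184 67108864 (ftWall true 0 mZ 1 1) [] ndF3q0 cZ :=
  certNd (T := (ftWall true 0 mZ 1 1)) (L := []) (P1 := 0) (W1 := 536870912) (P3 := 402653184) (W3 := 67108864) (n := ndF3q0) (c := cZ)
    ⟨T.a (T.a (T.l 0) (T.l 0)) (T.l 0),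
      by decide +kernel⟩
theorem cF_w31 : CertNd 536870912 536870912 402653184 67108864 (ftWall true 1 mZ 1 1) [] ndF3q1 cZ :=
  certNd (T := (ftWall true 1 mZ 1 1)) (L := []) (P1 := 536870912) (W1 := 536870912) (P3 := 402653184) (W3 := 67108864) (n := ndF3q1) (c := cZ)
    ⟨T.l 0,
      by decide +kernel⟩
theorem cF_w32 : CertNd 1073741824 166215235 402653184 67108864 (ftWall true 2 mZ 1 1) [⟨4, 0⟩] ndF3q2 cZ :=
  certNd (T := (ftWall true 2 mZ 1 1)) (L := [⟨4, 0⟩]) (P1 := 1073741824) (W1 := 166215235) (P3 := 402653184) (W3 := 67108864) (n := ndF3q2) (c := cZ)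
    ⟨T.l 0,
      by decide +kernel⟩
theorem cF_w40 : CertNd 0 536870912 402653184 67108864 (ftWall true 0 mZ 1 1) [] ndF4q0 cZ :=
  certNd (T := (ftWall true 0 mZ 1 1)) (L := []) (P1 := 0) (W1 := 536870912) (P3 := 402653184) (W3 := 67108864) (n := ndF4q0) (c := cZ)
    ⟨T.a (T.a (T.l 0) (T.l 0)) (T.l 0),
      by decide +kernel⟩
theorem cF_w41 : CertNd 536870912 536870912 402653184 67108864 (ftWall true 1 mZ 1 1) [] ndF4q1 cZ :=
  certNd (T := (ftWall true 1 mZ 1 1)) (L := []) (P1 := 536870912) (W1 := 536870912) (P3 := 402653184) (W3 := 67108864) (n := ndF4q1) (c := cZ)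
    ⟨T.l 0,
      by decide +kernel⟩
theorem cF_w42 : CertNd 1073741824 166215235 402653184 67108864 (ftWall true 2 mZ 1 1) [⟨4, 0⟩] ndF4q2 cZ :=
  certNd (T := (ftWall true 2 mZ 1 1)) (L := [⟨4, 0⟩]) (P1 := 1073741824) (W1 := 166215235) (P3 := 402653184) (W3 := 67108864) (n := ndF4q2) (c := cZ)
    ⟨T.l 0,
      by decide +kernel⟩
theorem cF_st : CertSt 1073741824 31138512 402653184 67108864 true [] (((2 : ℕ) : ℝ) / ((1 : ℕ) : ℝ)) mZ ndF1q2 cZ ndF2q2 cZ :=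
  certSt (z := true) (L := []) (P1 := 1073741824) (W1 := 31138512) (P3 := 402653184) (W3 := 67108864) (oa := 2) (ob := 1)
    (M := mZ) (n := ndF1q2) (c := cZ) (n' := ndF2q2) (c' := cZ) (sX := cv1p_fs) (sK := kf1q2_fs) (sL := l1q2_fs)
    ⟨T.l 0,
      by decide +kernel⟩
theorem cF_sm : CertSd 487186909 49684003 402653184 67108864 (ftMono true 2 mZ) [] ygF xsF pcF2 dZ :=
  certSd (T := (ftMono true 2 mZ)) (L := []) (P1 := 487186909) (W1 := 49684003) (P3 := 402653184) (W3 := 67108864) (Y := ygF) (X := xsF)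
    (pc := pcF2) (c := dZ) ⟨T.l 0,
      by decide +kernel⟩
theorem cF_sw : CertSd 0 487186913 402653184 67108864 (ftWall true 2 mZ 1 1) [] ygF xsF pcF2 dZ :=
  certSd (T := (ftWall true 2 mZ 1 1)) (L := []) (P1 := 0) (W1 := 487186913) (P3 := 402653184) (W3 := 67108864) (Y := ygF) (X := xsF)
    (pc := pcF2) (c := dZ) ⟨T.a (T.l 0) (T.a (T.l 0) (T.l 0)),
      by decide +kernel⟩

end Pool.Agent.Strip051.G.I3_8_7_16.Tab
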