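import Pool.Agent.Strip051.PB.FlAsm
import Pool.Agent.Strip051.G.I3_8_7_16.Tab

/-! # Slopes (generated) -/

set_option linter.all false

namespace Pool.Agent.Strip051.G.I3_8_7_16.Tab

open Pool.Agent.Strip051.PB

attribute [local irreducible] padd psub pneg pmul psq pinv psqrt psqrtg pabs pps pmax pmin pphi
  plam pcase phf pnat prat pscale pnorm pdc pnc pone ppos pnn

noncomputable def c1g_fs : Sl1 c1g := ⟨_, fun h1 => (pr_sqrtg (pr_csub (enc_pnc _ 1) (pr_scale 3 4 (pr_sq h1))))⟩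
noncomputable def kcg_6_fs : Sl2 kcg_6 := ⟨_, fun h1 h2 => (pr_addc h1 (enc_rat _ 61 277))⟩
noncomputable def kcg_9_fs : Sl2 kcg_9 := ⟨_, fun h1 h2 => (pr_addc h1 (enc_rat _ 39 100))⟩
noncomputable def kcg_12_fs : Sl2 kcg_12 := ⟨_, fun h1 h2 => (pr_addc h1 (enc_rat _ 9 20))⟩
noncomputable def kcg_13_fs : Sl2 kcg_13 := ⟨_, fun h1 h2 => (pr_scale 89939 50000 h1)⟩
noncomputable def kcg_16_fs : Sl2 kcg_16 := ⟨_, fun h1 h2 => (pr_scale 1361 2500 h1)⟩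
noncomputable def kcg_36_fs : Sl2 kcg_36 := ⟨_, fun h1 h2 => (pr_scale 1349 750 h1)⟩
noncomputable def kcg_39_fs : Sl2 kcg_39 := ⟨_, fun h1 h2 => (pr_scale 59 100 h1)⟩
noncomputable def kcg_58_fs : Sl2 kcg_58 := ⟨_, fun h1 h2 => (pr_addc h1 (enc_rat _ 33 100))⟩
noncomputable def kcg_59_fs : Sl2 kcg_59 := ⟨_, fun h1 h2 => (pr_scale 85247 60000 h1)⟩
noncomputable def kcg_62_fs : Sl2 kcg_62 := ⟨_, fun h1 h2 => (pr_scale 859 750 h1)⟩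
noncomputable def kcg_80_fs : Sl2 kcg_80 := ⟨_, fun h1 h2 => (pr_addc h1 (enc_rat _ 27 100))⟩
noncomputable def kcg_81_fs : Sl2 kcg_81 := ⟨_, fun h1 h2 => (pr_scale 39113 60000 h1)⟩
noncomputable def kcg_84_fs : Sl2 kcg_84 := ⟨_, fun h1 h2 => (pr_scale 15877 6000 h1)⟩
noncomputable def kcg_100_fs : Sl2 kcg_100 := ⟨_, fun h1 h2 => (pr_scale 574221 6895000 h1)⟩
noncomputable def kcg_104_fs : Sl2 kcg_104 := ⟨_, fun h1 h2 => (pr_scale 5100401 1379000 h1)⟩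
noncomputable def kcg_124_fs : Sl2 kcg_124 := ⟨_, fun h1 h2 => (pr_addc h1 (enc_rat _ 59 566))⟩
noncomputable def kcg_127_fs : Sl2 kcg_127 := ⟨_, fun h1 h2 => (pr_addc h1 (enc_rat _ 4 25))⟩
noncomputable def kcg_128_fs : Sl2 kcg_128 := ⟨_, fun h1 h2 => (pr_scale 8203909 16680000 h1)⟩
noncomputable def kcg_133_fs : Sl2 kcg_133 := ⟨_, fun h1 h2 => (pr_scale 6525289 1668000 h1)⟩
noncomputable def kcg_148_fs : Sl2 kcg_148 := ⟨_, fun h1 h2 => (pr_scale 2876129 7890000 h1)⟩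
noncomputable def kcg_153_fs : Sl2 kcg_153 := ⟨_, fun h1 h2 => (pr_scale 6420421 1578000 h1)⟩
noncomputable def kcg_172_fs : Sl2 kcg_172 := ⟨_, fun h1 h2 => (pr_addc h1 (enc_rat _ 7 100))⟩
noncomputable def kcg_173_fs : Sl2 kcg_173 := ⟨_, fun h1 h2 => (pr_scale 3966811 9690000 h1)⟩
noncomputable def kcg_178_fs : Sl2 kcg_178 := ⟨_, fun h1 h2 => (pr_scale 235173 80750 h1)⟩
noncomputable def kcg_194_fs : Sl2 kcg_194 := ⟨_, fun h1 h2 => (pr_scale 14139 35000 h1)⟩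
noncomputable def kcg_199_fs : Sl2 kcg_199 := ⟨_, fun h1 h2 => (pr_scale 5417 3500 h1)⟩
noncomputable def kcg_213_fs : Sl2 kcg_213 := ⟨_, fun h1 h2 => (pr_scale 5659 35000 h1)⟩
noncomputable def kcg_217_fs : Sl2 kcg_217 := ⟨_, fun h1 h2 => (pr_cmul (enc_norm (kcg_3.enc h1.l h2)) (pr_nd (pr_scale 4749 3500 h1)))⟩
noncomputable def kcg_224_fs : Sl2 kcg_224 := ⟨_, fun h1 h2 => (pr_csub (enc_rat _ 61 277) h1)⟩
noncomputable def kcg_225_fs : Sl2 kcg_225 := ⟨_, fun h1 h2 => (pr_csub (enc_rat _ 39 100) h1)⟩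
noncomputable def kcg_226_fs : Sl2 kcg_226 := ⟨_, fun h1 h2 => (pr_csub (enc_rat _ 9 20) h1)⟩
noncomputable def kcg_249_fs : Sl2 kcg_249 := ⟨_, fun h1 h2 => (pr_csub (enc_rat _ 33 100) h1)⟩
noncomputable def kcg_260_fs : Sl2 kcg_260 := ⟨_, fun h1 h2 => (pr_csub (enc_rat _ 27 100) h1)⟩
noncomputable def kcg_283_fs : Sl2 kcg_283 := ⟨_, fun h1 h2 => (pr_csub (enc_rat _ 59 566) h1)⟩
noncomputable def kcg_284_fs : Sl2 kcg_284 := ⟨_, fun h1 h2 => (pr_csub (enc_rat _ 4 25) h1)⟩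
noncomputable def kcg_304_fs : Sl2 kcg_304 := ⟨_, fun h1 h2 => (pr_csub (enc_rat _ 7 100) h1)⟩
noncomputable def kcg_fs : Sl2 kcg := ⟨_, fun h1 h2 => (pr_norm (pr_case h1 (pr_case (kcg_6_fs.snd h1 h2) (pr_case (kcg_9_fs.snd h1 h2) (pr_case (kcg_12_fs.snd h1 h2) (pr_add (pr_add (pr_addc (kcg_13_fs.snd h1 h2) (enc_rat _ 26603 40000)) (pr_cmul (enc_norm (kcg_3.enc h1.l h2)) (pr_norm (pr_subr 43293 50000 (kcg_16_fs.snd h1 h2))))) (pr_cmul (enc_norm (kcg_28.enc h1.l h2)) (pr_norm (pr_mul (pr_norm (pr_addc h1 (enc_rat _ 1 2))) (pr_norm (pr_csub (enc_neg (enc_rat _ 9 20)) h1)))))) (pr_add (pr_add (pr_addc (kcg_36_fs.snd h1 h2) (enc_rat _ 10391 15625)) (pr_cmul (enc_norm (kcg_3.enc h1.l h2)) (pr_norm (pr_subr 42267 50000 (kcg_39_fs.snd h1 h2))))) (pr_cmul (enc_norm (kcg_50.enc h1.l h2)) (pr_norm (pr_mul (pr_norm (kcg_12_fs.snd h1 h2)) (pr_norm (pr_csub (enc_neg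 (enc_rat _ 39 100)) h1))))))) (pr_case (kcg_58_fs.snd h1 h2) (pr_add (pr_add (pr_addc (kcg_59_fs.snd h1 h2) (enc_rat _ 1035299 2000000)) (pr_cmul (enc_norm (kcg_3.enc h1.l h2)) (pr_norm (pr_subr 15719 25000 (kcg_62_fs.snd h1 h2))))) (pr_cmul (enc_norm (kcg_73.enc h1.l h2)) (pr_norm (pr_mul (pr_norm (kcg_9_fs.snd h1 h2)) (pr_norm (pr_csub (enc_neg (enc_rat _ 33 100)) h1)))))) (pr_case (kcg_80_fs.snd h1 h2) (pr_add (pr_add (pr_addc (kcg_81_fs.snd h1 h2) (enc_rat _ 21113 80000)) (pr_cmul (enc_norm (kcg_3.enc h1.l h2)) (pr_norm (pr_subr 26697 200000 (kcg_84_fs.snd h1 h2))))) (pr_cmul (enc_norm (kcg_95.enc h1.l h2)) (pr_norm (pr_mul (pr_norm (kcg_58_fs.snd h1 h2)) (pr_norm (pr_csub (enc_neg (enc_rat _ 27 100)) h1)))))) (pr_add (pr_add (pr_csub (enc_rat _ 45105841 689500000) (kcg_100_fs.snd h1 h2)) (pr_cmul (enc_norm (kcg_3.enc h1.l h2)) (pr_norm (pr_addc (kcg_104_fs.snd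 h1 h2) (enc_rat _ 10389261 68950000))))) (pr_cmul (enc_norm (kcg_114.enc h1.l h2)) (pr_norm (pr_mul (pr_norm (kcg_80_fs.snd h1 h2)) (pr_norm (pr_csub (enc_neg (enc_rat _ 61 277)) h1))))))))) (pr_case (kcg_124_fs.snd h1 h2) (pr_case (kcg_127_fs.snd h1 h2) (pr_add (pr_add (pr_subr 10238839 417000000 (pr_neg (kcg_128_fs.snd h1 h2))) (pr_cmul (enc_norm (kcg_3.enc h1.l h2)) (pr_norm (pr_addc (kcg_133_fs.snd h1 h2) (enc_rat _ 8243131 41700000))))) (pr_cmul (enc_norm (kcg_143.enc h1.l h2)) (pr_norm (pr_mul (pr_norm (kcg_6_fs.snd h1 h2)) (pr_norm (pr_csub (enc_neg (enc_rat _ 4 25)) h1)))))) (pr_add (pr_add (pr_subr 660163 157800000 (pr_neg (kcg_148_fs.snd h1 h2))) (pr_cmul (enc_norm (kcg_3.enc h1.l h2)) (pr_norm (pr_addc (kcg_153_fs.snd h1 h2) (enc_rat _ 17574443 78900000))))) (pr_cmul (enc_norm (kcg_164.enc h1.l h2)) (pr_norm (pr_mul (pr_norm (kcg_127_fs.snd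 h1 h2)) (pr_norm (pr_csub (enc_neg (enc_rat _ 59 566)) h1))))))) (pr_case (kcg_172_fs.snd h1 h2) (pr_add (pr_add (pr_subr 1716683 193800000 (pr_neg (kcg_173_fs.snd h1 h2))) (pr_cmul (enc_norm (kcg_3.enc h1.l h2)) (pr_norm (pr_addc (kcg_178_fs.snd h1 h2) (enc_rat _ 1650613 16150000))))) (pr_cmul (enc_norm (kcg_186.enc h1.l h2)) (pr_norm (pr_mul (pr_norm (kcg_124_fs.snd h1 h2)) (pr_norm (pr_csub (enc_neg (enc_rat _ 7 100)) h1)))))) (pr_case (pr_addc h1 (enc_rat _ 7 200)) (pr_add (pr_add (pr_subr 53 6250 (pr_neg (kcg_194_fs.snd h1 h2))) (pr_cmul (enc_norm (kcg_3.enc h1.l h2)) (pr_norm (pr_addc (kcg_199_fs.snd h1 h2) (enc_rat _ 167 25000))))) (pr_cmul (enc_norm (kcg_208.enc h1.l h2)) (pr_norm (pr_mul (pr_norm (kcg_172_fs.snd h1 h2)) (pr_norm (pr_csub (enc_neg (enc_rat _ 7 200)) h1)))))) (pr_sub (kcg_217_fs.snd h1 h2) (kcg_213_fs.snd h1 h2)))))) (pr_neg (pr_case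 (kcg_224_fs.snd h1 h2) (pr_case (kcg_225_fs.snd h1 h2) (pr_case (kcg_226_fs.snd h1 h2) (pr_add (pr_add (pr_csub (enc_rat _ 26603 40000) (kcg_13_fs.snd h1 h2)) (pr_cmul (enc_norm (kcg_3.enc h1.l h2)) (pr_norm (pr_subr 43293 50000 (pr_neg (kcg_16_fs.snd h1 h2)))))) (pr_cmul (enc_norm (kcg_28.enc h1.l h2)) (pr_norm (pr_mul (pr_norm (pr_csub (enc_rat _ 1 2) h1)) (pr_norm (pr_subr 9 20 h1)))))) (pr_add (pr_add (pr_csub (enc_rat _ 10391 15625) (kcg_36_fs.snd h1 h2)) (pr_cmul (enc_norm (kcg_3.enc h1.l h2)) (pr_norm (pr_subr 42267 50000 (pr_neg (kcg_39_fs.snd h1 h2)))))) (pr_cmul (enc_norm (kcg_50.enc h1.l h2)) (pr_norm (pr_mul (pr_norm (kcg_226_fs.snd h1 h2)) (pr_norm (pr_subr 39 100 h1))))))) (pr_case (kcg_249_fs.snd h1 h2) (pr_add (pr_add (pr_csub (enc_rat _ 1035299 2000000) (kcg_59_fs.snd h1 h2)) (pr_cmul (enc_norm (kcg_3.enc h1.l h2)) (pr_norm (pr_subr 15719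 25000 (pr_neg (kcg_62_fs.snd h1 h2)))))) (pr_cmul (enc_norm (kcg_73.enc h1.l h2)) (pr_norm (pr_mul (pr_norm (kcg_225_fs.snd h1 h2)) (pr_norm (pr_subr 33 100 h1)))))) (pr_case (kcg_260_fs.snd h1 h2) (pr_add (pr_add (pr_csub (enc_rat _ 21113 80000) (kcg_81_fs.snd h1 h2)) (pr_cmul (enc_norm (kcg_3.enc h1.l h2)) (pr_norm (pr_subr 26697 200000 (pr_neg (kcg_84_fs.snd h1 h2)))))) (pr_cmul (enc_norm (kcg_95.enc h1.l h2)) (pr_norm (pr_mul (pr_norm (kcg_249_fs.snd h1 h2)) (pr_norm (pr_subr 27 100 h1)))))) (pr_add (pr_add (pr_addc (kcg_100_fs.snd h1 h2) (enc_rat _ 45105841 689500000)) (pr_cmul (enc_norm (kcg_3.enc h1.l h2)) (pr_norm (pr_csub (enc_rat _ 10389261 68950000) (kcg_104_fs.snd h1 h2))))) (pr_cmul (enc_norm (kcg_114.enc h1.l h2)) (pr_norm (pr_mul (pr_norm (kcg_260_fs.snd h1 h2)) (pr_norm (pr_subr 61 277 h1))))))))) (pr_case (kcg_283_fs.snd h1 h2) (pr_case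 (kcg_284_fs.snd h1 h2) (pr_add (pr_add (pr_subr 10238839 417000000 (kcg_128_fs.snd h1 h2)) (pr_cmul (enc_norm (kcg_3.enc h1.l h2)) (pr_norm (pr_csub (enc_rat _ 8243131 41700000) (kcg_133_fs.snd h1 h2))))) (pr_cmul (enc_norm (kcg_143.enc h1.l h2)) (pr_norm (pr_mul (pr_norm (kcg_224_fs.snd h1 h2)) (pr_norm (pr_subr 4 25 h1)))))) (pr_add (pr_add (pr_subr 660163 157800000 (kcg_148_fs.snd h1 h2)) (pr_cmul (enc_norm (kcg_3.enc h1.l h2)) (pr_norm (pr_csub (enc_rat _ 17574443 78900000) (kcg_153_fs.snd h1 h2))))) (pr_cmul (enc_norm (kcg_164.enc h1.l h2)) (pr_norm (pr_mul (pr_norm (kcg_284_fs.snd h1 h2)) (pr_norm (pr_subr 59 566 h1))))))) (pr_case (kcg_304_fs.snd h1 h2) (pr_add (pr_add (pr_subr 1716683 193800000 (kcg_173_fs.snd h1 h2)) (pr_cmul (enc_norm (kcg_3.enc h1.l h2)) (pr_norm (pr_csub (enc_rat _ 1650613 16150000) (kcg_178_fs.snd h1 h2))))) (pr_cmul (enc_norm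 (kcg_186.enc h1.l h2)) (pr_norm (pr_mul (pr_norm (kcg_283_fs.snd h1 h2)) (pr_norm (pr_subr 7 100 h1)))))) (pr_case (pr_csub (enc_rat _ 7 200) h1) (pr_add (pr_add (pr_subr 53 6250 (kcg_194_fs.snd h1 h2)) (pr_cmul (enc_norm (kcg_3.enc h1.l h2)) (pr_norm (pr_csub (enc_rat _ 167 25000) (kcg_199_fs.snd h1 h2))))) (pr_cmul (enc_norm (kcg_208.enc h1.l h2)) (pr_norm (pr_mul (pr_norm (kcg_304_fs.snd h1 h2)) (pr_norm (pr_subr 7 200 h1)))))) (pr_sub (kcg_213_fs.snd h1 h2) (kcg_217_fs.snd h1 h2)))))))))⟩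
noncomputable def kf0q0_9_fs : Sl2 kf0q0_9 := ⟨_, fun h1 h2 => (pr_scale 3 2 h1)⟩
noncomputable def kf0q0_12_fs : Sl2 kf0q0_12 := ⟨_, fun h1 h2 => (pr_cadd (enc_pnc _ 1) (c1g_fs.snd h1))⟩
noncomputable def kf0q0_fs : Sl2 kf0q0 := ⟨_, fun h1 h2 => (pr_norm (pr_add (pr_mul (pr_norm (pr_mul (pr_norm (pr_sub (c1g_fs.snd h1) (kf0q0_9_fs.snd h1 h2))) (pr_norm (kf0q0_12_fs.snd h1 h2)))) (pr_nd (pr_inv (pr_sub (kf0q0_12_fs.snd h1 h2) (kf0q0_9_fs.snd h1 h2))))) (pr_mul h1 (kcg_fs.snd (pr_norm (pr_sub (pr_scale 3 4 h1) (pr_half (c1g_fs.snd h1)))) h2))))⟩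
noncomputable def txg_6_fs : Sl3 txg_6 := ⟨_, fun h1 h2 h3 => (pr_add h1 (pr_half h2))⟩
noncomputable def txg_27_fs : Sl3 txg_27 := ⟨_, fun h1 h2 h3 => (pr_addc h1 (enc_rat _ 39 100))⟩
noncomputable def txg_30_fs : Sl3 txg_30 := ⟨_, fun h1 h2 h3 => (pr_addc h1 (enc_rat _ 9 20))⟩
noncomputable def txg_71_fs : Sl3 txg_71 := ⟨_, fun h1 h2 h3 => (pr_addc h1 (enc_rat _ 33 100))⟩
noncomputable def txg_92_fs : Sl3 txg_92 := ⟨_, fun h1 h2 h3 => (pr_addc h1 (enc_rat _ 27 100))⟩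
noncomputable def txg_143_fs : Sl3 txg_143 := ⟨_, fun h1 h2 h3 => (pr_addc h1 (enc_rat _ 59 566))⟩
noncomputable def txg_145_fs : Sl3 txg_145 := ⟨_, fun h1 h2 h3 => (pr_subr 4 25 h1)⟩
noncomputable def txg_147_fs : Sl3 txg_147 := ⟨_, fun h1 h2 h3 => (pr_subr 7 200 h1)⟩
noncomputable def txg_150_fs : Sl3 txg_150 := ⟨_, fun h1 h2 h3 => (pr_addc h1 (enc_rat _ 7 100))⟩
noncomputable def txg_176_fs : Sl3 txg_176 := ⟨_, fun h1 h2 h3 => (pr_addc h1 (enc_rat _ 7 200))⟩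
noncomputable def txg_216_fs : Sl3 txg_216 := ⟨_, fun h1 h2 h3 => (pr_subr 7 100 h1)⟩
noncomputable def txg_237_fs : Sl3 txg_237 := ⟨_, fun h1 h2 h3 => (pr_subr 1303 12500 h1)⟩
noncomputable def txg_278_fs : Sl3 txg_278 := ⟨_, fun h1 h2 h3 => (pr_subr 33 100 h1)⟩
noncomputable def txg_280_fs : Sl3 txg_280 := ⟨_, fun h1 h2 h3 => (pr_subr 11011 50000 h1)⟩
noncomputable def txg_299_fs : Sl3 txg_299 := ⟨_, fun h1 h2 h3 => (pr_subr 27 100 h1)⟩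
noncomputable def txg_343_fs : Sl3 txg_343 := ⟨_, fun h1 h2 h3 => (pr_subr 39 100 h1)⟩
noncomputable def txg_364_fs : Sl3 txg_364 := ⟨_, fun h1 h2 h3 => (pr_subr 9 20 h1)⟩
noncomputable def txg_fs : Sl3 txg := ⟨_, fun h1 h2 h3 => (pr_case (pr_addc h1 (enc_rat _ 61 277)) (pr_case (txg_27_fs.snd h1 h2 h3) (pr_case (txg_30_fs.snd h1 h2 h3) (pr_add (pr_add (pr_addc (pr_scale 1203 25000 h1) (enc_rat _ 1203 50000)) (pr_cmul (enc_norm (txg_4.enc h1.l h2.l h3)) (pr_norm (pr_addc (pr_scale 363 2500 h1) (enc_rat _ 363 5000))))) (pr_cmul (enc_norm (enc_subr 136613 250000 (enc_scale 3607 20000 (txg_4.enc h1.l h2.l h3)))) (pr_norm (pr_mul (pr_norm (pr_addc h1 (enc_rat _ 1 2))) (pr_norm (pr_csub (enc_neg (enc_rat _ 9 20)) h1)))))) (pr_add (pr_add (pr_addc (pr_scale 6379 60000 h1) (enc_rat _ 100497 2000000)) (pr_cmul (enc_norm (txg_4.enc h1.l h2.l h3)) (pr_norm (pr_addc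 (pr_scale 13 200 h1) (enc_rat _ 3651 100000))))) (pr_cmul (enc_norm (enc_subr 51481 100000 (enc_scale 4743 4000 (txg_4.enc h1.l h2.l h3)))) (pr_norm (pr_mul (pr_norm (txg_30_fs.snd h1 h2 h3)) (pr_norm (pr_csub (enc_neg (enc_rat _ 39 100)) h1))))))) (pr_case (txg_71_fs.snd h1 h2 h3) (pr_add (pr_add (pr_addc (pr_scale 9731 60000 h1) (enc_rat _ 144073 2000000)) (pr_cmul (enc_norm (txg_4.enc h1.l h2.l h3)) (pr_norm (pr_csub (enc_rat _ 1257 200000) (pr_scale 1 80 h1))))) (pr_cmul (enc_norm (enc_subr 83199 200000 (enc_scale 429 4000 (txg_4.enc h1.l h2.l h3)))) (pr_norm (pr_mul (pr_norm (txg_27_fs.snd h1 h2 h3)) (pr_norm (pr_csub (enc_neg (enc_rat _ 33 100)) h1)))))) (pr_case (txg_92_fs.snd h1 h2 h3) (pr_add (pr_add (pr_addc (pr_scale 3121 15000 h1) (enc_rat _ 43589 500000)) (pr_cmul (enc_norm (txg_4.enc h1.l h2.l h3)) (pr_norm (pr_subr 569 200000 (pr_neg (pr_scale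 241 6000 h1)))))) (pr_cmul (enc_norm (enc_subr 174471 500000 (enc_scale 35153 100000 (txg_4.enc h1.l h2.l h3)))) (pr_norm (pr_mul (pr_norm (txg_71_fs.snd h1 h2 h3)) (pr_norm (pr_csub (enc_neg (enc_rat _ 27 100)) h1)))))) (pr_add (pr_add (pr_add (pr_addc (pr_scale 1398700433 6111728000 h1) (enc_rat _ 56711268491 611172800000)) (pr_cmul (enc_norm (txg_4.enc h1.l h2.l h3)) (pr_norm (pr_addc (pr_scale 156483211 3055864000 h1) (enc_rat _ 6669737897 305586400000))))) (pr_cmul (txg_125.enc h1.l h2.l h3) (pr_norm (pr_subr 896157 985000 (pr_neg (pr_scale 33191 9850 h1)))))) (pr_cmul (enc_norm (enc_sub (enc_rat _ 4319 62500) (enc_scale 112977 50000 (txg_4.enc h1.l h2.l h3)))) (pr_norm (pr_mul (pr_norm (txg_92_fs.snd h1 h2 h3)) (pr_norm (pr_csub (enc_neg (enc_rat _ 61 277)) h1))))))))) (pr_case (txg_143_fs.snd h1 h2 h3) (pr_sub (pr_mul (pr_norm (pr_csub (enc_pnc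 _ 1) h2)) (pr_norm (pr_subn 1 (pr_nat 2 h2)))) (pr_mul (pr_norm (pr_nat 2 (pr_subc (pr_scale 4 3 (txg_6_fs.snd h1 h2 h3)) h3))) (pr_norm (pr_mul (pr_norm (pr_subn 1 (pr_add (pr_scale 2 3 (txg_6_fs.snd h1 h2 h3)) h2))) (kcg_fs.snd h1 h3))))) (pr_case (txg_145_fs.snd h1 h2 h3) (pr_case (txg_147_fs.snd h1 h2 h3) (pr_case (txg_150_fs.snd h1 h2 h3) (pr_add (pr_add (pr_add (pr_addc (pr_scale 4337388011 21938160000 h1) (enc_rat _ 40169947777 438763200000)) (pr_cmul (enc_norm (txg_4.enc h1.l h2.l h3)) (pr_norm (pr_csub (enc_rat _ 221899957 21938160000) (pr_scale 39256873 1096908000 h1))))) (pr_cmul (txg_125.enc h1.l h2.l h3) (pr_norm (pr_addc (pr_scale 70483 40375 h1) (enc_rat _ 493381 4037500))))) (pr_cmul (enc_norm (enc_sub (enc_rat _ 35821 20000) (enc_scale 13117 25000 (txg_4.enc h1.l h2.l h3)))) (pr_norm (pr_mul (pr_norm (txg_143_fs.snd h1 h2 h3)) (pr_norm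 (pr_csub (enc_neg (enc_rat _ 7 100)) h1)))))) (pr_case (txg_176_fs.snd h1 h2 h3) (pr_add (pr_add (pr_addc (pr_scale 2763 35000 h1) (enc_rat _ 83239 1000000)) (pr_cmul (enc_norm (txg_4.enc h1.l h2.l h3)) (pr_norm (pr_addc (pr_scale 1 250 h1) (enc_rat _ 129 10000))))) (pr_cmul (enc_norm (enc_sub (enc_rat _ 211367 125000) (enc_scale 6217 10000 (txg_4.enc h1.l h2.l h3)))) (pr_norm (pr_mul (pr_norm (txg_150_fs.snd h1 h2 h3)) (pr_norm (pr_csub (enc_neg (enc_rat _ 7 200)) h1)))))) (pr_add (pr_add (pr_csub (enc_rat _ 32111 400000) (pr_scale 397 70000 h1)) (pr_cmul (enc_norm (txg_4.enc h1.l h2.l h3)) (pr_norm (pr_addc (pr_scale 313 7000 h1) (enc_rat _ 573 40000))))) (pr_cmul (enc_norm (enc_sub (enc_rat _ 36289 100000) (enc_scale 6749 25000 (txg_4.enc h1.l h2.l h3)))) (pr_norm (pr_mul (pr_norm (txg_176_fs.snd h1 h2 h3)) (pr_norm (pr_csub (enc_rat _ 7 200) h1))))))))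 (pr_case (txg_216_fs.snd h1 h2 h3) (pr_add (pr_add (pr_csub (enc_rat _ 1297 15625) (pr_scale 2929 35000 h1)) (pr_cmul (enc_norm (txg_4.enc h1.l h2.l h3)) (pr_norm (pr_addc (pr_scale 69 875 h1) (enc_rat _ 1313 100000))))) (pr_cmul (enc_norm (enc_sub (enc_rat _ 375867 250000) (enc_scale 21857 50000 (txg_4.enc h1.l h2.l h3)))) (pr_norm (pr_mul (pr_norm (txg_147_fs.snd h1 h2 h3)) (pr_norm (pr_csub (enc_rat _ 7 100) h1)))))) (pr_case (txg_237_fs.snd h1 h2 h3) (pr_add (pr_add (pr_csub (enc_rat _ 1542673 17120000) (pr_scale 6339 34240 h1)) (pr_cmul (enc_norm (txg_4.enc h1.l h2.l h3)) (pr_norm (pr_addc (pr_scale 357 3424 h1) (enc_rat _ 97169 8560000))))) (pr_cmul (enc_norm (enc_sub (enc_rat _ 712721 500000) (enc_scale 29401 100000 (txg_4.enc h1.l h2.l h3)))) (pr_norm (pr_mul (pr_norm (txg_216_fs.snd h1 h2 h3)) (pr_norm (pr_csub (enc_rat _ 1303 12500) h1))))))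 (pr_add (pr_add (pr_csub (enc_rat _ 323107 3400000) (pr_scale 79 340 h1)) (pr_cmul (enc_norm (txg_4.enc h1.l h2.l h3)) (pr_norm (pr_addc (pr_scale 273 2788 h1) (enc_rat _ 52331 4356250))))) (pr_cmul (enc_norm (enc_subr 14181 500000 (enc_scale 29277 100000 (txg_4.enc h1.l h2.l h3)))) (pr_norm (pr_mul (pr_norm (txg_237_fs.snd h1 h2 h3)) (pr_norm (pr_csub (enc_rat _ 4 25) h1))))))))) (pr_case (txg_278_fs.snd h1 h2 h3) (pr_case (txg_280_fs.snd h1 h2 h3) (pr_add (pr_add (pr_csub (enc_rat _ 55675481 602200000) (pr_scale 6511 30110 h1)) (pr_cmul (enc_norm (txg_4.enc h1.l h2.l h3)) (pr_norm (pr_addc (pr_scale 227 6022 h1) (enc_rat _ 407403 18818750))))) (pr_cmul (enc_norm (enc_subr 241347 1000000 (enc_scale 36337 50000 (txg_4.enc h1.l h2.l h3)))) (pr_norm (pr_mul (pr_norm (txg_145_fs.snd h1 h2 h3)) (pr_norm (pr_csub (enc_rat _ 11011 50000) h1)))))) (pr_case (txg_299_fs.snd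 h1 h2 h3) (pr_add (pr_add (pr_csub (enc_rat _ 222139777 2489000000) (pr_scale 502 2489 h1)) (pr_cmul (enc_norm (txg_4.enc h1.l h2.l h3)) (pr_norm (pr_csub (enc_rat _ 7542643 248900000) (pr_scale 4 2489 h1))))) (pr_cmul (enc_norm (enc_subr 229 1000000 (enc_neg (enc_scale 4621 50000 (txg_4.enc h1.l h2.l h3))))) (pr_norm (pr_mul (pr_norm (txg_280_fs.snd h1 h2 h3)) (pr_norm (pr_csub (enc_rat _ 27 100) h1)))))) (pr_add (pr_add (pr_csub (enc_rat _ 88631 1000000) (pr_scale 997 5000 h1)) (pr_cmul (enc_norm (txg_4.enc h1.l h2.l h3)) (pr_norm (pr_addc (pr_scale 1 48 h1) (enc_rat _ 4849 200000))))) (pr_cmul (enc_norm (enc_subr 38159 1000000 (enc_neg (enc_scale 29353 100000 (txg_4.enc h1.l h2.l h3))))) (pr_norm (pr_mul (pr_norm (txg_299_fs.snd h1 h2 h3)) (pr_norm (pr_csub (enc_rat _ 33 100) h1)))))))) (pr_case (txg_343_fs.snd h1 h2 h3) (pr_add (pr_add (pr_csub (enc_rat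 _ 163391 2000000) (pr_scale 10703 60000 h1)) (pr_cmul (enc_norm (txg_4.enc h1.l h2.l h3)) (pr_norm (pr_addc (pr_scale 13 300 h1) (enc_rat _ 841 50000))))) (pr_cmul (enc_norm (enc_subr 77993 250000 (enc_neg (enc_scale 4119 50000 (txg_4.enc h1.l h2.l h3))))) (pr_norm (pr_mul (pr_norm (txg_278_fs.snd h1 h2 h3)) (pr_norm (pr_csub (enc_rat _ 39 100) h1)))))) (pr_case (txg_364_fs.snd h1 h2 h3) (pr_add (pr_add (pr_csub (enc_rat _ 128577 2000000) (pr_scale 107 800 h1)) (pr_cmul (enc_norm (txg_4.enc h1.l h2.l h3)) (pr_norm (pr_csub (enc_rat _ 5183 50000) (pr_scale 269 1500 h1))))) (pr_cmul (enc_norm (enc_subr 107931 250000 (enc_scale 23713 6250 (txg_4.enc h1.l h2.l h3)))) (pr_norm (pr_mul (pr_norm (txg_343_fs.snd h1 h2 h3)) (pr_norm (pr_csub (enc_rat _ 9 20) h1)))))) (pr_add (pr_add (pr_csub (enc_rat _ 4101 100000) (pr_scale 4101 50000 h1)) (pr_cmul (enc_norm (txg_4.enc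 h1.l h2.l h3)) (pr_norm (pr_csub (enc_rat _ 287 1250) (pr_scale 287 625 h1))))) (pr_cmul (enc_norm (enc_subr 258471 500000 (enc_scale 4169 4000 (txg_4.enc h1.l h2.l h3)))) (pr_norm (pr_mul (pr_norm (txg_364_fs.snd h1 h2 h3)) (pr_norm (pr_csub (enc_rat _ 1 2) h1))))))))))))⟩
noncomputable def l0q0_fs : Sl2 l0q0 := ⟨_, fun h1 h2 => (pr_norm (txg_fs.snd (pr_norm (pr_sub (pr_scale 3 4 h1) (pr_half (c1g_fs.snd h1)))) (pr_nd (c1g_fs.snd h1)) h2))⟩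
noncomputable def swg_fs : Sl1 swg := ⟨_, fun h1 => (pr_sqrt (pr_csub (enc_pnc _ 1) (pr_scale 3 4 (pr_sq (pr_norm (pr_subn 1 h1))))))⟩
noncomputable def cv1m_fs : Sl1 cv1m := ⟨_, fun h1 => (pr_norm (pr_add (pr_half (c1g_fs.snd h1)) (pr_half (pr_addc (swg_fs.snd h1) (enc_rat _ 1 2)))))⟩
noncomputable def bf1q0_fs : Sl2 bf1q0 := ⟨_, fun h1 h2 => (pr_norm (pr_add (pr_csub (enc_pnc _ 1) (pr_scale 137719 125000 h1)) (pr_cmul (enc_norm (enc_subr 13 32 h2)) (pr_nd (pr_scale 2 625 h1)))))⟩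
noncomputable def kf1q0_fs : Sl2 kf1q0 := ⟨_, fun h1 h2 => (pr_norm (pr_mul (cv1m_fs.snd h1) (bf1q0_fs.snd h1 h2)))⟩
noncomputable def bx1q0_fs : Sl2 bx1q0 := ⟨_, fun h1 h2 => (pr_norm (pr_add (pr_scale 11813 62500 h1) (pr_cmul (enc_norm (enc_subr 13 32 h2)) (pr_nd (pr_scale 661 25000 h1)))))⟩
noncomputable def l1q0_fs : Sl2 l1q0 := ⟨_, fun h1 h2 => (pr_norm (pr_mul (cv1m_fs.snd h1) (bx1q0_fs.snd h1 h2)))⟩
noncomputable def kf0q1_10_fs : Sl2 kf0q1_10 := ⟨_, fun h1 h2 => (pr_scale 3 2 h1)⟩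
noncomputable def kf0q1_fs : Sl2 kf0q1 := ⟨_, fun h1 h2 => (pr_norm (pr_add (pr_mul (pr_norm (pr_mul (pr_norm (pr_cadd (enc_pnc _ 1) (pr_nat 2 (c1g_fs.snd h1)))) (pr_norm (pr_sub (kf0q1_10_fs.snd h1 h2) (c1g_fs.snd h1))))) (pr_nd (pr_inv (pr_nat 2 (pr_sub (pr_cadd (enc_pnc _ 1) (kf0q1_10_fs.snd h1 h2)) (c1g_fs.snd h1)))))) (pr_mul (pr_norm (pr_subn 1 h1)) (kcg_fs.snd (pr_norm (pr_sub (pr_scale 3 4 h1) (pr_half (c1g_fs.snd h1)))) h2))))⟩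
noncomputable def l0q1_fs : Sl2 l0q1 := ⟨_, fun h1 h2 => (pr_norm (txg_fs.snd (pr_norm (pr_sub (pr_scale 3 4 h1) (pr_half (c1g_fs.snd h1)))) (pr_nd (c1g_fs.snd h1)) h2))⟩
noncomputable def cv1p_fs : Sl1 cv1p := ⟨_, fun h1 => (pr_norm (pr_add (pr_half (c1g_fs.snd h1)) (pr_half (pr_subr 1 2 (swg_fs.snd h1)))))⟩
noncomputable def bf1q2_91_fs : Sl2 bf1q2_91 := ⟨_, fun h1 h2 => (pr_addc (pr_scale 8067 50000 h1) (enc_rat _ 33549 40000))⟩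
noncomputable def bf1q2_fs : Sl2 bf1q2 := ⟨_, fun h1 h2 => (pr_norm (pr_case (pr_subr 11 10 h1) (pr_case (pr_subr 53 50 h1) (pr_case (pr_subr 103 100 h1) (pr_add (pr_csub (enc_rat _ 679 400) (pr_scale 279 400 h1)) (pr_cmul (enc_norm (bf1q2_3.enc h1.l h2)) (pr_norm (pr_csub (enc_rat _ 4259 3000) (pr_scale 4259 3000 h1))))) (pr_add (pr_csub (enc_rat _ 4056217 3000000) (pr_scale 679 1875 h1)) (pr_cmul (enc_norm (bf1q2_3.enc h1.l h2)) (pr_norm (pr_csub (enc_rat _ 16939 12500) (pr_scale 1357 1000 h1)))))) (pr_case (pr_subr 107 100 h1) (pr_add (pr_addc (pr_scale 1243 10000 h1) (enc_rat _ 836453 1000000)) (pr_cmul (enc_norm (bf1q2_3.enc h1.l h2)) (pr_norm (pr_csub (enc_rat _ 839 625) (pr_scale 269 200 h1))))) (pr_add (pr_addc (pr_scale 1649 2500 h1) (enc_rat _ 131841 500000)) (pr_cmul (enc_norm (bf1q2_3.enc h1.l h2)) (pr_norm (pr_csub (enc_rat _ 80009 60000)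 (pr_scale 401 300 h1))))))) (pr_case (pr_subr 231 200 h1) (pr_case (pr_subr 577 500 h1) (pr_add (pr_addc (pr_scale 11143 16875 h1) (enc_rat _ 3548927 13500000)) (pr_cmul (enc_norm (bf1q2_3.enc h1.l h2)) (pr_norm (pr_csub (enc_rat _ 719267 540000) (pr_scale 36053 27000 h1))))) (pr_add (pr_addc (pr_scale 5659 35000 h1) (enc_rat _ 29341 35000)) (pr_cmul (enc_norm (bf1q2_3.enc h1.l h2)) (pr_norm (pr_csub (enc_rat _ 4749 3500) (pr_scale 4749 3500 h1)))))) (pr_case (pr_subr 5 4 h1) (pr_add (pr_addc (pr_scale 107371 665000 h1) (enc_rat _ 2230609 2660000)) (pr_cmul (enc_norm (bf1q2_3.enc h1.l h2)) (pr_norm (pr_csub (enc_rat _ 4492377 3325000) (pr_scale 89899 66500 h1))))) (pr_case (pr_subr 27 20 h1) (pr_add (bf1q2_91_fs.snd h1 h2) (pr_cmul (enc_norm (bf1q2_3.enc h1.l h2)) (pr_norm (pr_csub (enc_rat _ 269477 200000) (pr_scale 13489 10000 h1))))) (pr_add (bf1q2_91_fs.snd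 h1 h2) (pr_cmul (enc_norm (bf1q2_3.enc h1.l h2)) (pr_norm (pr_csub (enc_rat _ 134653 100000) (pr_scale 2528 1875 h1))))))))))⟩
noncomputable def kf1q2_fs : Sl2 kf1q2 := ⟨_, fun h1 h2 => (pr_norm (pr_mul (cv1p_fs.snd h1) (bf1q2_fs.snd h1 h2)))⟩
noncomputable def bx1q2_fs : Sl2 bx1q2 := ⟨_, fun h1 h2 => (pr_norm (pr_case (pr_subr 11 10 h1) (pr_case (pr_subr 53 50 h1) (pr_case (pr_subr 103 100 h1) (pr_add (pr_csub (enc_rat _ 553 15000) (pr_scale 553 15000 h1)) (pr_cmul (enc_norm (bx1q2_3.enc h1.l h2)) (pr_norm (pr_csub (enc_rat _ 172 375) (pr_scale 172 375 h1))))) (pr_add (pr_subr 65107 1500000 (pr_scale 77 1875 h1)) (pr_cmul (enc_norm (bx1q2_3.enc h1.l h2)) (pr_norm (pr_csub (enc_rat _ 170251 300000) (pr_scale 1693 3000 h1)))))) (pr_case (pr_subr 107 100 h1) (pr_add (pr_subr 11393 100000 (pr_scale 269 2500 h1)) (pr_cmul (enc_norm (bx1q2_3.enc h1.l h2)) (pr_norm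 (pr_csub (enc_rat _ 11979 20000) (pr_scale 297 500 h1))))) (pr_add (pr_subr 191867 1500000 (pr_scale 181 1500 h1)) (pr_cmul (enc_norm (bx1q2_3.enc h1.l h2)) (pr_norm (pr_csub (enc_rat _ 93641 150000) (pr_scale 1853 3000 h1))))))) (pr_case (pr_subr 231 200 h1) (pr_casec (pr_subr 577 500 h1) (pr_add (pr_subr 12096971 94500000 (pr_scale 22823 189000 h1)) (pr_cmul (enc_norm (bx1q2_3.enc h1.l h2)) (pr_norm (pr_csub (enc_rat _ 1012573 1575000) (pr_scale 1999 3150 h1))))) (enc_sub (enc_rat _ 397 35000) (enc_scale 313 3500 (bx1q2_3.enc h1.l h2)))) (pr_case (pr_subr 5 4 h1) (pr_add (pr_subr 176015593 133000000 (pr_scale 768503 665000 h1)) (pr_cmul (enc_norm (bx1q2_3.enc h1.l h2)) (pr_norm (pr_subr 16254421 6650000 (pr_scale 67791 33250 h1))))) (pr_case (pr_subr 27 20 h1) (pr_add (pr_subr 534573 500000 (pr_scale 47611 50000 h1)) (pr_cmul (enc_norm (bx1q2_3.enc h1.l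 h2)) (pr_norm (pr_subr 244949 100000 (pr_scale 2043 1000 h1))))) (pr_add (pr_subr 583749 1000000 (pr_scale 889 1500 h1)) (pr_cmul (enc_norm (bx1q2_3.enc h1.l h2)) (pr_norm (pr_subr 244931 100000 (pr_scale 30643 15000 h1))))))))))⟩
noncomputable def l1q2_fs : Sl2 l1q2 := ⟨_, fun h1 h2 => (pr_norm (pr_mul (cv1p_fs.snd h1) (bx1q2_fs.snd h1 h2)))⟩
noncomputable def gsg_fs : Sl1 gsg := ⟨_, fun h1 => (pr_sqrt (pr_csub (enc_pnc _ 1) (pr_scale 3 4 (pr_sq h1))))⟩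
noncomputable def gug_fs : Sl1 gug := ⟨_, fun h1 => (pr_norm (pr_add (pr_scale 3 4 h1) (pr_scale 3 2 (pr_csub (enc_pnc _ 1) (gsg_fs.snd h1)))))⟩
noncomputable def kug_2_fs : Sl1 kug_2 := ⟨_, fun h1 => (pr_sq h1)⟩
noncomputable def kug_fs : Sl1 kug := ⟨_, fun h1 => (pr_norm (pr_add (pr_add (pr_scale 3 4 h1) (pr_scale 3 2 (kug_2_fs.snd h1))) (pr_mul (pr_norm (pr_mul (pr_nd (pr_scale 3 4 (kug_2_fs.snd h1))) (pr_nd (pr_inv (gsg_fs.snd h1))))) (gug_fs.snd h1))))⟩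
noncomputable def kp0q0_8_fs : Sl2 kp0q0_8 := ⟨_, fun h1 h2 => (pr_sub (pr_scale 3 4 h1) (pr_half (c1g_fs.snd h1)))⟩
noncomputable def kp0q0_fs : Sl2 kp0q0 := ⟨_, fun h1 h2 => (pr_norm (pr_case (pr_addc (kp0q0_8_fs.snd h1 h2) (enc_rat _ 61 277)) (pr_mul h1 (pr_norm (pr_add (pr_subr 1568932316757 1550000000000 (pr_neg (pr_scale 7661459966757 775000000000 (kp0q0_8_fs.snd h1 h2)))) (pr_cmul (enc_norm (kp0q0_3.enc h1.l h2)) (pr_norm (pr_subr 3159689800003 1550000000000 (pr_neg (pr_scale 12394558800003 775000000000 (kp0q0_8_fs.snd h1 h2))))))))) (pr_case (pr_addc (kp0q0_8_fs.snd h1 h2) (enc_rat _ 59 566)) (pr_sub (kug_fs.snd h1) (pr_mul h1 (pr_norm (pr_mul (kcg_fs.snd (pr_norm (kp0q0_8_fs.snd h1 h2)) h2) (pr_norm (pr_add (gug_fs.snd h1) (pr_nat 2 (c1g_fs.snd h1)))))))) (pr_mul h1 (pr_norm (pr_add (pr_csub (enc_rat _ 701384703541 1140000000000) (pr_scale 5182340523541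 570000000000 (kp0q0_8_fs.snd h1 h2))) (pr_cmul (enc_norm (kp0q0_3.enc h1.l h2)) (pr_norm (pr_subr 733063299977 1140000000000 (pr_neg (pr_scale 6059033900023 570000000000 (kp0q0_8_fs.snd h1 h2))))))))))))⟩
noncomputable def kn0q0_fs : Sl2 kn0q0 := ⟨_, fun h1 h2 => (pr_norm (pr_add (pr_cmul (enc_norm (enc_add (enc_pnc _ 1) (enc_mul (mug3.enc h2) (gug.enc h2)))) (kf0q0_fs.snd h1 h2)) (pr_cmul (mug3.enc h2) (kp0q0_fs.snd h1 h2))))⟩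
noncomputable def bd1q0_fs : Sl2 bd1q0 := ⟨_, fun h1 h2 => (pr_norm (pr_sub (pr_scale 123237 100000 h1) (pr_cmul (enc_norm (enc_subr 13 32 h2)) (pr_nd (pr_scale 1 50000 h1)))))⟩
noncomputable def kp1q0_fs : Sl2 kp1q0 := ⟨_, fun h1 h2 => (pr_norm (pr_mul (cv1m_fs.snd h1) (bd1q0_fs.snd h1 h2)))⟩
noncomputable def kn1q0_fs : Sl2 kn1q0 := ⟨_, fun h1 h2 => (pr_norm (pr_add (pr_cmul (enc_norm (enc_add (enc_pnc _ 1) (enc_mul (mug3.enc h2) (gug.enc h2)))) (kf1q0_fs.snd h1 h2)) (pr_cmul (mug3.enc h2) (kp1q0_fs.snd h1 h2))))⟩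
noncomputable def kp0q1_9_fs : Sl2 kp0q1_9 := ⟨_, fun h1 h2 => (pr_sub (pr_scale 3 4 h1) (pr_half (c1g_fs.snd h1)))⟩
noncomputable def kp0q1_fs : Sl2 kp0q1 := ⟨_, fun h1 h2 => (pr_norm (pr_mul (pr_norm (pr_subn 1 h1)) (pr_norm (pr_add (pr_csub (enc_rat _ 701384703541 1140000000000) (pr_scale 5182340523541 570000000000 (kp0q1_9_fs.snd h1 h2))) (pr_cmul (enc_norm (enc_subr 13 32 h2)) (pr_norm (pr_subr 733063299977 1140000000000 (pr_neg (pr_scale 6059033900023 570000000000 (kp0q1_9_fs.snd h1 h2))))))))))⟩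
noncomputable def kn0q1_fs : Sl2 kn0q1 := ⟨_, fun h1 h2 => (pr_norm (pr_add (pr_cmul (enc_norm (enc_add (enc_pnc _ 1) (enc_mul (mug3.enc h2) (gug.enc h2)))) (kf0q1_fs.snd h1 h2)) (pr_cmul (mug3.enc h2) (kp0q1_fs.snd h1 h2))))⟩
noncomputable def bd1q2_14_fs : Sl2 bd1q2_14 := ⟨_, fun h1 h2 => (pr_scale 331 1000 h1)⟩
noncomputable def bd1q2_18_fs : Sl2 bd1q2_18 := ⟨_, fun h1 h2 => (pr_cmul (enc_norm (bd1q2_3.enc h1.l h2)) (pr_norm (pr_subr 331 1000 (bd1q2_14_fs.snd h1 h2))))⟩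
noncomputable def bd1q2_20_fs : Sl2 bd1q2_20 := ⟨_, fun h1 h2 => (pr_scale 191767 30000 h1)⟩
noncomputable def bd1q2_fs : Sl2 bd1q2 := ⟨_, fun h1 h2 => (pr_norm (pr_case (pr_subr 11 10 h1) (pr_case (pr_subr 53 50 h1) (pr_case (pr_subr 103 100 h1) (pr_add (pr_subr 63921 10000 (pr_scale 63921 10000 h1)) (bd1q2_18_fs.snd h1 h2)) (pr_add (pr_subr 2397089 375000 (bd1q2_20_fs.snd h1 h2)) (pr_cmul (enc_norm (bd1q2_3.enc h1.l h2)) (pr_norm (pr_subr 99403 300000 (pr_scale 497 1500 h1)))))) (pr_case (pr_subr 107 100 h1) (pr_add (pr_subr 159813 25000 (pr_scale 2557 400 h1)) (pr_cmul (enc_norm (bd1q2_3.enc h1.l h2)) (pr_norm (pr_subr 33099 100000 (bd1q2_14_fs.snd h1 h2))))) (pr_add (pr_subr 1198651 187500 (pr_scale 191783 30000 h1)) (pr_cmul (enc_norm (bd1q2_3.enc h1.l h2)) (pr_norm (pr_subr 99083 300000 (pr_scale 991 3000 h1))))))) (pr_case (pr_subr 231 200 h1) (pr_case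 (pr_subr 577 500 h1) (pr_add (pr_subr 86306447 13500000 (pr_scale 107882 16875 h1)) (pr_cmul (enc_norm (bd1q2_3.enc h1.l h2)) (pr_norm (pr_subr 894277 2700000 (pr_scale 4471 13500 h1))))) (pr_add (pr_subr 31963 5000 (pr_scale 31963 5000 h1)) (bd1q2_18_fs.snd h1 h2))) (pr_case (pr_subr 5 4 h1) (pr_add (pr_subr 121453163 19000000 (pr_scale 60727 9500 h1)) (pr_cmul (enc_norm (bd1q2_3.enc h1.l h2)) (pr_norm (pr_subr 565837 1900000 (pr_scale 5743 19000 h1))))) (pr_case (pr_subr 27 20 h1) (pr_add (pr_subr 12784329 2000000 (pr_scale 639223 100000 h1)) (pr_cmul (enc_norm (bd1q2_3.enc h1.l h2)) (pr_norm (pr_subr 56471 200000 (pr_scale 2899 10000 h1))))) (pr_add (pr_subr 6392169 1000000 (bd1q2_20_fs.snd h1 h2)) (pr_cmul (enc_norm (bd1q2_3.enc h1.l h2)) (pr_norm (pr_subr 27403 100000 (pr_scale 532 1875 h1))))))))))⟩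
noncomputable def kp1q2_fs : Sl2 kp1q2 := ⟨_, fun h1 h2 => (pr_norm (pr_mul (cv1p_fs.snd h1) (bd1q2_fs.snd h1 h2)))⟩
noncomputable def kn1q2_fs : Sl2 kn1q2 := ⟨_, fun h1 h2 => (pr_norm (pr_add (pr_cmul (enc_norm (enc_add (enc_pnc _ 1) (enc_mul (mug3.enc h2) (gug.enc h2)))) (kf1q2_fs.snd h1 h2)) (pr_cmul (mug3.enc h2) (kp1q2_fs.snd h1 h2))))⟩
noncomputable def dlg : Fn2 := ⟨_, _, fun h1 h2 => (kcg.enc (enc_norm (enc_sub (enc_scale 3 4 h1) (enc_half (c1g.enc h1)))) h2)⟩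

end Pool.Agent.Strip051.G.I3_8_7_16.Tab
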