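import Pool.Agent.Strip051.G.I3_8_7_16.Tab
import Pool.Agent.Strip051.PB.C12G

/-! # Slopes of the tables near the lattice heights (generated) -/

set_option linter.all false

namespace Pool.Agent.Strip051.G.I3_8_7_16.Tab

open Pool.Agent.Strip051.PB

attribute [local irreducible] padd psub pneg pmul psq pinv psqrt psqrtg pabs pps pmax pmin pphi plam
  pcase phf pnat prat pscale pnorm pdc pnc pone ppos pnn Enc pbad pzero

noncomputable def idf_s : Sl1 idf := ⟨fun _ _ D => D, fun h => h⟩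

noncomputable def c1g_s : Sl1 c1g := ⟨_, fun h1 => (pr_sqrtgz (pr_csub (enc_pnc _ 1) (pr_scale 3 4 (pr_sq h1))))⟩
noncomputable def kcg_6_s : Sl2 kcg_6 := ⟨_, fun h1 h2 => (pr_addc h1 (enc_rat _ 61 277))⟩
noncomputable def kcg_9_s : Sl2 kcg_9 := ⟨_, fun h1 h2 => (pr_addc h1 (enc_rat _ 39 100))⟩
noncomputable def kcg_12_s : Sl2 kcg_12 := ⟨_, fun h1 h2 => (pr_addc h1 (enc_rat _ 9 20))⟩
noncomputable def kcg_13_s : Sl2 kcg_13 := ⟨_, fun h1 h2 => (pr_scale 89939 50000 h1)⟩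
noncomputable def kcg_16_s : Sl2 kcg_16 := ⟨_, fun h1 h2 => (pr_scale 1361 2500 h1)⟩
noncomputable def kcg_36_s : Sl2 kcg_36 := ⟨_, fun h1 h2 => (pr_scale 1349 750 h1)⟩
noncomputable def kcg_39_s : Sl2 kcg_39 := ⟨_, fun h1 h2 => (pr_scale 59 100 h1)⟩
noncomputable def kcg_58_s : Sl2 kcg_58 := ⟨_, fun h1 h2 => (pr_addc h1 (enc_rat _ 33 100))⟩
noncomputable def kcg_59_s : Sl2 kcg_59 := ⟨_, fun h1 h2 => (pr_scale 85247 60000 h1)⟩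
noncomputable def kcg_62_s : Sl2 kcg_62 := ⟨_, fun h1 h2 => (pr_scale 859 750 h1)⟩
noncomputable def kcg_80_s : Sl2 kcg_80 := ⟨_, fun h1 h2 => (pr_addc h1 (enc_rat _ 27 100))⟩
noncomputable def kcg_81_s : Sl2 kcg_81 := ⟨_, fun h1 h2 => (pr_scale 39113 60000 h1)⟩
noncomputable def kcg_84_s : Sl2 kcg_84 := ⟨_, fun h1 h2 => (pr_scale 15877 6000 h1)⟩
noncomputable def kcg_100_s : Sl2 kcg_100 := ⟨_, fun h1 h2 => (pr_scale 574221 6895000 h1)⟩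
noncomputable def kcg_104_s : Sl2 kcg_104 := ⟨_, fun h1 h2 => (pr_scale 5100401 1379000 h1)⟩
noncomputable def kcg_124_s : Sl2 kcg_124 := ⟨_, fun h1 h2 => (pr_addc h1 (enc_rat _ 59 566))⟩
noncomputable def kcg_127_s : Sl2 kcg_127 := ⟨_, fun h1 h2 => (pr_addc h1 (enc_rat _ 4 25))⟩
noncomputable def kcg_128_s : Sl2 kcg_128 := ⟨_, fun h1 h2 => (pr_scale 8203909 16680000 h1)⟩
noncomputable def kcg_133_s : Sl2 kcg_133 := ⟨_, fun h1 h2 => (pr_scale 6525289 1668000 h1)⟩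
noncomputable def kcg_148_s : Sl2 kcg_148 := ⟨_, fun h1 h2 => (pr_scale 2876129 7890000 h1)⟩
noncomputable def kcg_153_s : Sl2 kcg_153 := ⟨_, fun h1 h2 => (pr_scale 6420421 1578000 h1)⟩
noncomputable def kcg_172_s : Sl2 kcg_172 := ⟨_, fun h1 h2 => (pr_addc h1 (enc_rat _ 7 100))⟩
noncomputable def kcg_173_s : Sl2 kcg_173 := ⟨_, fun h1 h2 => (pr_scale 3966811 9690000 h1)⟩
noncomputable def kcg_178_s : Sl2 kcg_178 := ⟨_, fun h1 h2 => (pr_scale 235173 80750 h1)⟩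
noncomputable def kcg_194_s : Sl2 kcg_194 := ⟨_, fun h1 h2 => (pr_scale 14139 35000 h1)⟩
noncomputable def kcg_199_s : Sl2 kcg_199 := ⟨_, fun h1 h2 => (pr_scale 5417 3500 h1)⟩
noncomputable def kcg_213_s : Sl2 kcg_213 := ⟨_, fun h1 h2 => (pr_scale 5659 35000 h1)⟩
noncomputable def kcg_217_s : Sl2 kcg_217 := ⟨_, fun h1 h2 => (pr_cmul (enc_norm (kcg_3.enc h1.l h2)) (pr_nd (pr_scale 4749 3500 h1)))⟩
noncomputable def kcg_224_s : Sl2 kcg_224 := ⟨_, fun h1 h2 => (pr_csub (enc_rat _ 61 277) h1)⟩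
noncomputable def kcg_225_s : Sl2 kcg_225 := ⟨_, fun h1 h2 => (pr_csub (enc_rat _ 39 100) h1)⟩
noncomputable def kcg_226_s : Sl2 kcg_226 := ⟨_, fun h1 h2 => (pr_csub (enc_rat _ 9 20) h1)⟩
noncomputable def kcg_249_s : Sl2 kcg_249 := ⟨_, fun h1 h2 => (pr_csub (enc_rat _ 33 100) h1)⟩
noncomputable def kcg_260_s : Sl2 kcg_260 := ⟨_, fun h1 h2 => (pr_csub (enc_rat _ 27 100) h1)⟩
noncomputable def kcg_283_s : Sl2 kcg_283 := ⟨_, fun h1 h2 => (pr_csub (enc_rat _ 59 566) h1)⟩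
noncomputable def kcg_284_s : Sl2 kcg_284 := ⟨_, fun h1 h2 => (pr_csub (enc_rat _ 4 25) h1)⟩
noncomputable def kcg_304_s : Sl2 kcg_304 := ⟨_, fun h1 h2 => (pr_csub (enc_rat _ 7 100) h1)⟩
noncomputable def kcg_s : Sl2 kcg := ⟨_, fun h1 h2 => (pr_norm (pr_case h1 (pr_case (kcg_6_s.snd h1 h2) (pr_case (kcg_9_s.snd h1 h2) (pr_case (kcg_12_s.snd h1 h2) (pr_add (pr_add (pr_addc (kcg_13_s.snd h1 h2) (enc_rat _ 26603 40000)) (pr_cmul (enc_norm (kcg_3.enc h1.l h2)) (pr_norm (pr_subr 43293 50000 (kcg_16_s.snd h1 h2))))) (pr_cmul (enc_norm (kcg_28.enc h1.l h2)) (pr_norm (pr_mul (pr_norm (pr_addc h1 (enc_rat _ 1 2))) (pr_norm (pr_csub (enc_neg (enc_rat _ 9 20)) h1)))))) (pr_add (pr_add (pr_addc (kcg_36_s.snd h1 h2) (enc_rat _ 10391 15625)) (pr_cmul (enc_norm (kcg_3.enc h1.l h2)) (pr_norm (pr_subr 42267 50000 (kcg_39_s.snd h1 h2))))) (pr_cmul (enc_norm (kcg_50.enc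 h1.l h2)) (pr_norm (pr_mul (pr_norm (kcg_12_s.snd h1 h2)) (pr_norm (pr_csub (enc_neg (enc_rat _ 39 100)) h1))))))) (pr_case (kcg_58_s.snd h1 h2) (pr_add (pr_add (pr_addc (kcg_59_s.snd h1 h2) (enc_rat _ 1035299 2000000)) (pr_cmul (enc_norm (kcg_3.enc h1.l h2)) (pr_norm (pr_subr 15719 25000 (kcg_62_s.snd h1 h2))))) (pr_cmul (enc_norm (kcg_73.enc h1.l h2)) (pr_norm (pr_mul (pr_norm (kcg_9_s.snd h1 h2)) (pr_norm (pr_csub (enc_neg (enc_rat _ 33 100)) h1)))))) (pr_case (kcg_80_s.snd h1 h2) (pr_add (pr_add (pr_addc (kcg_81_s.snd h1 h2) (enc_rat _ 21113 80000)) (pr_cmul (enc_norm (kcg_3.enc h1.l h2)) (pr_norm (pr_subr 26697 200000 (kcg_84_s.snd h1 h2))))) (pr_cmul (enc_norm (kcg_95.enc h1.l h2)) (pr_norm (pr_mul (pr_norm (kcg_58_s.snd h1 h2)) (pr_norm (pr_csub (enc_neg (enc_rat _ 27 100)) h1)))))) (pr_add (pr_add (pr_csub (enc_rat _ 45105841 689500000)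 (kcg_100_s.snd h1 h2)) (pr_cmul (enc_norm (kcg_3.enc h1.l h2)) (pr_norm (pr_addc (kcg_104_s.snd h1 h2) (enc_rat _ 10389261 68950000))))) (pr_cmul (enc_norm (kcg_114.enc h1.l h2)) (pr_norm (pr_mul (pr_norm (kcg_80_s.snd h1 h2)) (pr_norm (pr_csub (enc_neg (enc_rat _ 61 277)) h1))))))))) (pr_case (kcg_124_s.snd h1 h2) (pr_case (kcg_127_s.snd h1 h2) (pr_add (pr_add (pr_subr 10238839 417000000 (pr_neg (kcg_128_s.snd h1 h2))) (pr_cmul (enc_norm (kcg_3.enc h1.l h2)) (pr_norm (pr_addc (kcg_133_s.snd h1 h2) (enc_rat _ 8243131 41700000))))) (pr_cmul (enc_norm (kcg_143.enc h1.l h2)) (pr_norm (pr_mul (pr_norm (kcg_6_s.snd h1 h2)) (pr_norm (pr_csub (enc_neg (enc_rat _ 4 25)) h1)))))) (pr_add (pr_add (pr_subr 660163 157800000 (pr_neg (kcg_148_s.snd h1 h2))) (pr_cmul (enc_norm (kcg_3.enc h1.l h2)) (pr_norm (pr_addc (kcg_153_s.snd h1 h2) (enc_rat _ 17574443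 78900000))))) (pr_cmul (enc_norm (kcg_164.enc h1.l h2)) (pr_norm (pr_mul (pr_norm (kcg_127_s.snd h1 h2)) (pr_norm (pr_csub (enc_neg (enc_rat _ 59 566)) h1))))))) (pr_case (kcg_172_s.snd h1 h2) (pr_add (pr_add (pr_subr 1716683 193800000 (pr_neg (kcg_173_s.snd h1 h2))) (pr_cmul (enc_norm (kcg_3.enc h1.l h2)) (pr_norm (pr_addc (kcg_178_s.snd h1 h2) (enc_rat _ 1650613 16150000))))) (pr_cmul (enc_norm (kcg_186.enc h1.l h2)) (pr_norm (pr_mul (pr_norm (kcg_124_s.snd h1 h2)) (pr_norm (pr_csub (enc_neg (enc_rat _ 7 100)) h1)))))) (pr_case (pr_addc h1 (enc_rat _ 7 200)) (pr_add (pr_add (pr_subr 53 6250 (pr_neg (kcg_194_s.snd h1 h2))) (pr_cmul (enc_norm (kcg_3.enc h1.l h2)) (pr_norm (pr_addc (kcg_199_s.snd h1 h2) (enc_rat _ 167 25000))))) (pr_cmul (enc_norm (kcg_208.enc h1.l h2)) (pr_norm (pr_mul (pr_norm (kcg_172_s.snd h1 h2)) (pr_norm (pr_csub (enc_neg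 (enc_rat _ 7 200)) h1)))))) (pr_sub (kcg_217_s.snd h1 h2) (kcg_213_s.snd h1 h2)))))) (pr_neg (pr_case (kcg_224_s.snd h1 h2) (pr_case (kcg_225_s.snd h1 h2) (pr_case (kcg_226_s.snd h1 h2) (pr_add (pr_add (pr_csub (enc_rat _ 26603 40000) (kcg_13_s.snd h1 h2)) (pr_cmul (enc_norm (kcg_3.enc h1.l h2)) (pr_norm (pr_subr 43293 50000 (pr_neg (kcg_16_s.snd h1 h2)))))) (pr_cmul (enc_norm (kcg_28.enc h1.l h2)) (pr_norm (pr_mul (pr_norm (pr_csub (enc_rat _ 1 2) h1)) (pr_norm (pr_subr 9 20 h1)))))) (pr_add (pr_add (pr_csub (enc_rat _ 10391 15625) (kcg_36_s.snd h1 h2)) (pr_cmul (enc_norm (kcg_3.enc h1.l h2)) (pr_norm (pr_subr 42267 50000 (pr_neg (kcg_39_s.snd h1 h2)))))) (pr_cmul (enc_norm (kcg_50.enc h1.l h2)) (pr_norm (pr_mul (pr_norm (kcg_226_s.snd h1 h2)) (pr_norm (pr_subr 39 100 h1))))))) (pr_case (kcg_249_s.snd h1 h2) (pr_add (pr_add (pr_csub (enc_rat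 _ 1035299 2000000) (kcg_59_s.snd h1 h2)) (pr_cmul (enc_norm (kcg_3.enc h1.l h2)) (pr_norm (pr_subr 15719 25000 (pr_neg (kcg_62_s.snd h1 h2)))))) (pr_cmul (enc_norm (kcg_73.enc h1.l h2)) (pr_norm (pr_mul (pr_norm (kcg_225_s.snd h1 h2)) (pr_norm (pr_subr 33 100 h1)))))) (pr_case (kcg_260_s.snd h1 h2) (pr_add (pr_add (pr_csub (enc_rat _ 21113 80000) (kcg_81_s.snd h1 h2)) (pr_cmul (enc_norm (kcg_3.enc h1.l h2)) (pr_norm (pr_subr 26697 200000 (pr_neg (kcg_84_s.snd h1 h2)))))) (pr_cmul (enc_norm (kcg_95.enc h1.l h2)) (pr_norm (pr_mul (pr_norm (kcg_249_s.snd h1 h2)) (pr_norm (pr_subr 27 100 h1)))))) (pr_add (pr_add (pr_addc (kcg_100_s.snd h1 h2) (enc_rat _ 45105841 689500000)) (pr_cmul (enc_norm (kcg_3.enc h1.l h2)) (pr_norm (pr_csub (enc_rat _ 10389261 68950000) (kcg_104_s.snd h1 h2))))) (pr_cmul (enc_norm (kcg_114.enc h1.l h2)) (pr_norm (pr_mul (pr_norm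 (kcg_260_s.snd h1 h2)) (pr_norm (pr_subr 61 277 h1))))))))) (pr_case (kcg_283_s.snd h1 h2) (pr_case (kcg_284_s.snd h1 h2) (pr_add (pr_add (pr_subr 10238839 417000000 (kcg_128_s.snd h1 h2)) (pr_cmul (enc_norm (kcg_3.enc h1.l h2)) (pr_norm (pr_csub (enc_rat _ 8243131 41700000) (kcg_133_s.snd h1 h2))))) (pr_cmul (enc_norm (kcg_143.enc h1.l h2)) (pr_norm (pr_mul (pr_norm (kcg_224_s.snd h1 h2)) (pr_norm (pr_subr 4 25 h1)))))) (pr_add (pr_add (pr_subr 660163 157800000 (kcg_148_s.snd h1 h2)) (pr_cmul (enc_norm (kcg_3.enc h1.l h2)) (pr_norm (pr_csub (enc_rat _ 17574443 78900000) (kcg_153_s.snd h1 h2))))) (pr_cmul (enc_norm (kcg_164.enc h1.l h2)) (pr_norm (pr_mul (pr_norm (kcg_284_s.snd h1 h2)) (pr_norm (pr_subr 59 566 h1))))))) (pr_case (kcg_304_s.snd h1 h2) (pr_add (pr_add (pr_subr 1716683 193800000 (kcg_173_s.snd h1 h2)) (pr_cmul (enc_norm (kcg_3.enc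 h1.l h2)) (pr_norm (pr_csub (enc_rat _ 1650613 16150000) (kcg_178_s.snd h1 h2))))) (pr_cmul (enc_norm (kcg_186.enc h1.l h2)) (pr_norm (pr_mul (pr_norm (kcg_283_s.snd h1 h2)) (pr_norm (pr_subr 7 100 h1)))))) (pr_case (pr_csub (enc_rat _ 7 200) h1) (pr_add (pr_add (pr_subr 53 6250 (kcg_194_s.snd h1 h2)) (pr_cmul (enc_norm (kcg_3.enc h1.l h2)) (pr_norm (pr_csub (enc_rat _ 167 25000) (kcg_199_s.snd h1 h2))))) (pr_cmul (enc_norm (kcg_208.enc h1.l h2)) (pr_norm (pr_mul (pr_norm (kcg_304_s.snd h1 h2)) (pr_norm (pr_subr 7 200 h1)))))) (pr_sub (kcg_213_s.snd h1 h2) (kcg_217_s.snd h1 h2)))))))))⟩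
noncomputable def kf0q0_9_s : Sl2 kf0q0_9 := ⟨_, fun h1 h2 => (pr_scale 3 2 h1)⟩
noncomputable def kf0q0_12_s : Sl2 kf0q0_12 := ⟨_, fun h1 h2 => (pr_cadd (enc_pnc _ 1) (c1g_s.snd h1))⟩
noncomputable def kf0q0_s : Sl2 kf0q0 := ⟨_, fun h1 h2 => (pr_norm (pr_add (pr_mul (pr_norm (pr_mul (pr_norm (pr_sub (c1g_s.snd h1) (kf0q0_9_s.snd h1 h2))) (pr_norm (kf0q0_12_s.snd h1 h2)))) (pr_nd (pr_inv (pr_sub (kf0q0_12_s.snd h1 h2) (kf0q0_9_s.snd h1 h2))))) (pr_mul h1 (kcg_s.snd (pr_norm (pr_sub (pr_scale 3 4 h1) (pr_half (c1g_s.snd h1)))) h2))))⟩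
noncomputable def txg_6_s : Sl3 txg_6 := ⟨_, fun h1 h2 h3 => (pr_add h1 (pr_half h2))⟩
noncomputable def txg_27_s : Sl3 txg_27 := ⟨_, fun h1 h2 h3 => (pr_addc h1 (enc_rat _ 39 100))⟩
noncomputable def txg_30_s : Sl3 txg_30 := ⟨_, fun h1 h2 h3 => (pr_addc h1 (enc_rat _ 9 20))⟩
noncomputable def txg_71_s : Sl3 txg_71 := ⟨_, fun h1 h2 h3 => (pr_addc h1 (enc_rat _ 33 100))⟩
noncomputable def txg_92_s : Sl3 txg_92 := ⟨_, fun h1 h2 h3 => (pr_addc h1 (enc_rat _ 27 100))⟩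
noncomputable def txg_143_s : Sl3 txg_143 := ⟨_, fun h1 h2 h3 => (pr_addc h1 (enc_rat _ 59 566))⟩
noncomputable def txg_145_s : Sl3 txg_145 := ⟨_, fun h1 h2 h3 => (pr_subr 4 25 h1)⟩
noncomputable def txg_147_s : Sl3 txg_147 := ⟨_, fun h1 h2 h3 => (pr_subr 7 200 h1)⟩
noncomputable def txg_150_s : Sl3 txg_150 := ⟨_, fun h1 h2 h3 => (pr_addc h1 (enc_rat _ 7 100))⟩
noncomputable def txg_176_s : Sl3 txg_176 := ⟨_, fun h1 h2 h3 => (pr_addc h1 (enc_rat _ 7 200))⟩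
noncomputable def txg_216_s : Sl3 txg_216 := ⟨_, fun h1 h2 h3 => (pr_subr 7 100 h1)⟩
noncomputable def txg_237_s : Sl3 txg_237 := ⟨_, fun h1 h2 h3 => (pr_subr 1303 12500 h1)⟩
noncomputable def txg_278_s : Sl3 txg_278 := ⟨_, fun h1 h2 h3 => (pr_subr 33 100 h1)⟩
noncomputable def txg_280_s : Sl3 txg_280 := ⟨_, fun h1 h2 h3 => (pr_subr 11011 50000 h1)⟩
noncomputable def txg_299_s : Sl3 txg_299 := ⟨_, fun h1 h2 h3 => (pr_subr 27 100 h1)⟩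
noncomputable def txg_343_s : Sl3 txg_343 := ⟨_, fun h1 h2 h3 => (pr_subr 39 100 h1)⟩
noncomputable def txg_364_s : Sl3 txg_364 := ⟨_, fun h1 h2 h3 => (pr_subr 9 20 h1)⟩
noncomputable def txg_s : Sl3 txg := ⟨_, fun h1 h2 h3 => (pr_case (pr_addc h1 (enc_rat _ 61 277)) (pr_case (txg_27_s.snd h1 h2 h3) (pr_case (txg_30_s.snd h1 h2 h3) (pr_add (pr_add (pr_addc (pr_scale 1203 25000 h1) (enc_rat _ 1203 50000)) (pr_cmul (enc_norm (txg_4.enc h1.l h2.l h3)) (pr_norm (pr_addc (pr_scale 363 2500 h1) (enc_rat _ 363 5000))))) (pr_cmul (enc_norm (enc_subr 136613 250000 (enc_scale 3607 20000 (txg_4.enc h1.l h2.l h3)))) (pr_norm (pr_mul (pr_norm (pr_addc h1 (enc_rat _ 1 2))) (pr_norm (pr_csub (enc_neg (enc_rat _ 9 20)) h1)))))) (pr_add (pr_add (pr_addc (pr_scale 6379 60000 h1) (enc_rat _ 100497 2000000)) (pr_cmul (enc_norm (txg_4.enc h1.l h2.l h3)) (pr_norm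 (pr_addc (pr_scale 13 200 h1) (enc_rat _ 3651 100000))))) (pr_cmul (enc_norm (enc_subr 51481 100000 (enc_scale 4743 4000 (txg_4.enc h1.l h2.l h3)))) (pr_norm (pr_mul (pr_norm (txg_30_s.snd h1 h2 h3)) (pr_norm (pr_csub (enc_neg (enc_rat _ 39 100)) h1))))))) (pr_case (txg_71_s.snd h1 h2 h3) (pr_add (pr_add (pr_addc (pr_scale 9731 60000 h1) (enc_rat _ 144073 2000000)) (pr_cmul (enc_norm (txg_4.enc h1.l h2.l h3)) (pr_norm (pr_csub (enc_rat _ 1257 200000) (pr_scale 1 80 h1))))) (pr_cmul (enc_norm (enc_subr 83199 200000 (enc_scale 429 4000 (txg_4.enc h1.l h2.l h3)))) (pr_norm (pr_mul (pr_norm (txg_27_s.snd h1 h2 h3)) (pr_norm (pr_csub (enc_neg (enc_rat _ 33 100)) h1)))))) (pr_case (txg_92_s.snd h1 h2 h3) (pr_add (pr_add (pr_addc (pr_scale 3121 15000 h1) (enc_rat _ 43589 500000)) (pr_cmul (enc_norm (txg_4.enc h1.l h2.l h3)) (pr_norm (pr_subr 569 200000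 (pr_neg (pr_scale 241 6000 h1)))))) (pr_cmul (enc_norm (enc_subr 174471 500000 (enc_scale 35153 100000 (txg_4.enc h1.l h2.l h3)))) (pr_norm (pr_mul (pr_norm (txg_71_s.snd h1 h2 h3)) (pr_norm (pr_csub (enc_neg (enc_rat _ 27 100)) h1)))))) (pr_add (pr_add (pr_add (pr_addc (pr_scale 1398700433 6111728000 h1) (enc_rat _ 56711268491 611172800000)) (pr_cmul (enc_norm (txg_4.enc h1.l h2.l h3)) (pr_norm (pr_addc (pr_scale 156483211 3055864000 h1) (enc_rat _ 6669737897 305586400000))))) (pr_cmul (txg_125.enc h1.l h2.l h3) (pr_norm (pr_subr 896157 985000 (pr_neg (pr_scale 33191 9850 h1)))))) (pr_cmul (enc_norm (enc_sub (enc_rat _ 4319 62500) (enc_scale 112977 50000 (txg_4.enc h1.l h2.l h3)))) (pr_norm (pr_mul (pr_norm (txg_92_s.snd h1 h2 h3)) (pr_norm (pr_csub (enc_neg (enc_rat _ 61 277)) h1))))))))) (pr_case (txg_143_s.snd h1 h2 h3) (pr_sub (pr_mul (pr_norm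 (pr_csub (enc_pnc _ 1) h2)) (pr_norm (pr_subn 1 (pr_nat 2 h2)))) (pr_mul (pr_norm (pr_nat 2 (pr_subc (pr_scale 4 3 (txg_6_s.snd h1 h2 h3)) h3))) (pr_norm (pr_mul (pr_norm (pr_subn 1 (pr_add (pr_scale 2 3 (txg_6_s.snd h1 h2 h3)) h2))) (kcg_s.snd h1 h3))))) (pr_case (txg_145_s.snd h1 h2 h3) (pr_case (txg_147_s.snd h1 h2 h3) (pr_case (txg_150_s.snd h1 h2 h3) (pr_add (pr_add (pr_add (pr_addc (pr_scale 4337388011 21938160000 h1) (enc_rat _ 40169947777 438763200000)) (pr_cmul (enc_norm (txg_4.enc h1.l h2.l h3)) (pr_norm (pr_csub (enc_rat _ 221899957 21938160000) (pr_scale 39256873 1096908000 h1))))) (pr_cmul (txg_125.enc h1.l h2.l h3) (pr_norm (pr_addc (pr_scale 70483 40375 h1) (enc_rat _ 493381 4037500))))) (pr_cmul (enc_norm (enc_sub (enc_rat _ 35821 20000) (enc_scale 13117 25000 (txg_4.enc h1.l h2.l h3)))) (pr_norm (pr_mul (pr_norm (txg_143_s.snd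 h1 h2 h3)) (pr_norm (pr_csub (enc_neg (enc_rat _ 7 100)) h1)))))) (pr_case (txg_176_s.snd h1 h2 h3) (pr_add (pr_add (pr_addc (pr_scale 2763 35000 h1) (enc_rat _ 83239 1000000)) (pr_cmul (enc_norm (txg_4.enc h1.l h2.l h3)) (pr_norm (pr_addc (pr_scale 1 250 h1) (enc_rat _ 129 10000))))) (pr_cmul (enc_norm (enc_sub (enc_rat _ 211367 125000) (enc_scale 6217 10000 (txg_4.enc h1.l h2.l h3)))) (pr_norm (pr_mul (pr_norm (txg_150_s.snd h1 h2 h3)) (pr_norm (pr_csub (enc_neg (enc_rat _ 7 200)) h1)))))) (pr_add (pr_add (pr_csub (enc_rat _ 32111 400000) (pr_scale 397 70000 h1)) (pr_cmul (enc_norm (txg_4.enc h1.l h2.l h3)) (pr_norm (pr_addc (pr_scale 313 7000 h1) (enc_rat _ 573 40000))))) (pr_cmul (enc_norm (enc_sub (enc_rat _ 36289 100000) (enc_scale 6749 25000 (txg_4.enc h1.l h2.l h3)))) (pr_norm (pr_mul (pr_norm (txg_176_s.snd h1 h2 h3)) (pr_norm (pr_csub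 (enc_rat _ 7 200) h1)))))))) (pr_case (txg_216_s.snd h1 h2 h3) (pr_add (pr_add (pr_csub (enc_rat _ 1297 15625) (pr_scale 2929 35000 h1)) (pr_cmul (enc_norm (txg_4.enc h1.l h2.l h3)) (pr_norm (pr_addc (pr_scale 69 875 h1) (enc_rat _ 1313 100000))))) (pr_cmul (enc_norm (enc_sub (enc_rat _ 375867 250000) (enc_scale 21857 50000 (txg_4.enc h1.l h2.l h3)))) (pr_norm (pr_mul (pr_norm (txg_147_s.snd h1 h2 h3)) (pr_norm (pr_csub (enc_rat _ 7 100) h1)))))) (pr_case (txg_237_s.snd h1 h2 h3) (pr_add (pr_add (pr_csub (enc_rat _ 1542673 17120000) (pr_scale 6339 34240 h1)) (pr_cmul (enc_norm (txg_4.enc h1.l h2.l h3)) (pr_norm (pr_addc (pr_scale 357 3424 h1) (enc_rat _ 97169 8560000))))) (pr_cmul (enc_norm (enc_sub (enc_rat _ 712721 500000) (enc_scale 29401 100000 (txg_4.enc h1.l h2.l h3)))) (pr_norm (pr_mul (pr_norm (txg_216_s.snd h1 h2 h3)) (pr_norm (pr_csub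 (enc_rat _ 1303 12500) h1)))))) (pr_add (pr_add (pr_csub (enc_rat _ 323107 3400000) (pr_scale 79 340 h1)) (pr_cmul (enc_norm (txg_4.enc h1.l h2.l h3)) (pr_norm (pr_addc (pr_scale 273 2788 h1) (enc_rat _ 52331 4356250))))) (pr_cmul (enc_norm (enc_subr 14181 500000 (enc_scale 29277 100000 (txg_4.enc h1.l h2.l h3)))) (pr_norm (pr_mul (pr_norm (txg_237_s.snd h1 h2 h3)) (pr_norm (pr_csub (enc_rat _ 4 25) h1))))))))) (pr_case (txg_278_s.snd h1 h2 h3) (pr_case (txg_280_s.snd h1 h2 h3) (pr_add (pr_add (pr_csub (enc_rat _ 55675481 602200000) (pr_scale 6511 30110 h1)) (pr_cmul (enc_norm (txg_4.enc h1.l h2.l h3)) (pr_norm (pr_addc (pr_scale 227 6022 h1) (enc_rat _ 407403 18818750))))) (pr_cmul (enc_norm (enc_subr 241347 1000000 (enc_scale 36337 50000 (txg_4.enc h1.l h2.l h3)))) (pr_norm (pr_mul (pr_norm (txg_145_s.snd h1 h2 h3)) (pr_norm (pr_csub (enc_rat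 _ 11011 50000) h1)))))) (pr_case (txg_299_s.snd h1 h2 h3) (pr_add (pr_add (pr_csub (enc_rat _ 222139777 2489000000) (pr_scale 502 2489 h1)) (pr_cmul (enc_norm (txg_4.enc h1.l h2.l h3)) (pr_norm (pr_csub (enc_rat _ 7542643 248900000) (pr_scale 4 2489 h1))))) (pr_cmul (enc_norm (enc_subr 229 1000000 (enc_neg (enc_scale 4621 50000 (txg_4.enc h1.l h2.l h3))))) (pr_norm (pr_mul (pr_norm (txg_280_s.snd h1 h2 h3)) (pr_norm (pr_csub (enc_rat _ 27 100) h1)))))) (pr_add (pr_add (pr_csub (enc_rat _ 88631 1000000) (pr_scale 997 5000 h1)) (pr_cmul (enc_norm (txg_4.enc h1.l h2.l h3)) (pr_norm (pr_addc (pr_scale 1 48 h1) (enc_rat _ 4849 200000))))) (pr_cmul (enc_norm (enc_subr 38159 1000000 (enc_neg (enc_scale 29353 100000 (txg_4.enc h1.l h2.l h3))))) (pr_norm (pr_mul (pr_norm (txg_299_s.snd h1 h2 h3)) (pr_norm (pr_csub (enc_rat _ 33 100) h1)))))))) (pr_case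 (txg_343_s.snd h1 h2 h3) (pr_add (pr_add (pr_csub (enc_rat _ 163391 2000000) (pr_scale 10703 60000 h1)) (pr_cmul (enc_norm (txg_4.enc h1.l h2.l h3)) (pr_norm (pr_addc (pr_scale 13 300 h1) (enc_rat _ 841 50000))))) (pr_cmul (enc_norm (enc_subr 77993 250000 (enc_neg (enc_scale 4119 50000 (txg_4.enc h1.l h2.l h3))))) (pr_norm (pr_mul (pr_norm (txg_278_s.snd h1 h2 h3)) (pr_norm (pr_csub (enc_rat _ 39 100) h1)))))) (pr_case (txg_364_s.snd h1 h2 h3) (pr_add (pr_add (pr_csub (enc_rat _ 128577 2000000) (pr_scale 107 800 h1)) (pr_cmul (enc_norm (txg_4.enc h1.l h2.l h3)) (pr_norm (pr_csub (enc_rat _ 5183 50000) (pr_scale 269 1500 h1))))) (pr_cmul (enc_norm (enc_subr 107931 250000 (enc_scale 23713 6250 (txg_4.enc h1.l h2.l h3)))) (pr_norm (pr_mul (pr_norm (txg_343_s.snd h1 h2 h3)) (pr_norm (pr_csub (enc_rat _ 9 20) h1)))))) (pr_add (pr_add (pr_csub (enc_rat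 _ 4101 100000) (pr_scale 4101 50000 h1)) (pr_cmul (enc_norm (txg_4.enc h1.l h2.l h3)) (pr_norm (pr_csub (enc_rat _ 287 1250) (pr_scale 287 625 h1))))) (pr_cmul (enc_norm (enc_subr 258471 500000 (enc_scale 4169 4000 (txg_4.enc h1.l h2.l h3)))) (pr_norm (pr_mul (pr_norm (txg_364_s.snd h1 h2 h3)) (pr_norm (pr_csub (enc_rat _ 1 2) h1))))))))))))⟩
noncomputable def l0q0_s : Sl2 l0q0 := ⟨_, fun h1 h2 => (pr_norm (txg_s.snd (pr_norm (pr_sub (pr_scale 3 4 h1) (pr_half (c1g_s.snd h1)))) (pr_nd (c1g_s.snd h1)) h2))⟩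
noncomputable def kf0q1_10_s : Sl2 kf0q1_10 := ⟨_, fun h1 h2 => (pr_scale 3 2 h1)⟩
noncomputable def kf0q1_s : Sl2 kf0q1 := ⟨_, fun h1 h2 => (pr_norm (pr_add (pr_mul (pr_norm (pr_mul (pr_norm (pr_cadd (enc_pnc _ 1) (pr_nat 2 (c1g_s.snd h1)))) (pr_norm (pr_sub (kf0q1_10_s.snd h1 h2) (c1g_s.snd h1))))) (pr_nd (pr_inv (pr_nat 2 (pr_sub (pr_cadd (enc_pnc _ 1) (kf0q1_10_s.snd h1 h2)) (c1g_s.snd h1)))))) (pr_mul (pr_norm (pr_subn 1 h1)) (kcg_s.snd (pr_norm (pr_sub (pr_scale 3 4 h1) (pr_half (c1g_s.snd h1)))) h2))))⟩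
noncomputable def l0q1_s : Sl2 l0q1 := ⟨_, fun h1 h2 => (pr_norm (txg_s.snd (pr_norm (pr_sub (pr_scale 3 4 h1) (pr_half (c1g_s.snd h1)))) (pr_nd (c1g_s.snd h1)) h2))⟩
noncomputable def yag_s : Sl1 yag := ⟨_, fun h1 => (pr_sqrt (pr_scale 4 3 (pr_csub (enc_pnc _ 1) (pr_sq h1))))⟩
noncomputable def kfc02_s : Sl2 kfc02 := ⟨_, fun h1 h2 => (pr_norm (pr_add h1 (pr_mul (pr_norm (pr_subn 1 (yag_s.snd h1))) (kcg_s.snd (pr_nd (pr_neg h1)) h2))))⟩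
noncomputable def lc02_7_s : Sl2 lc02_7 := ⟨_, fun h1 h2 => (pr_scale 3 4 (yag_s.snd h1))⟩
noncomputable def lc02_8_s : Sl2 lc02_8 := ⟨_, fun h1 h2 => (pr_half h1)⟩
noncomputable def lc02_s : Sl2 lc02 := ⟨_, fun h1 h2 => (pr_norm (pr_sub (txg_s.snd (pr_nd (pr_neg h1)) (pr_norm (pr_add (lc02_7_s.snd h1 h2) (lc02_8_s.snd h1 h2))) h2) (txg_s.snd h1 (pr_norm (pr_sub (lc02_7_s.snd h1 h2) (lc02_8_s.snd h1 h2))) h2)))⟩
noncomputable def swg_s : Sl1 swg := ⟨_, fun h1 => (pr_sqrt (pr_csub (enc_pnc _ 1) (pr_scale 3 4 (pr_sq (pr_norm (pr_subn 1 h1))))))⟩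
noncomputable def cv1m_s : Sl1 cv1m := ⟨_, fun h1 => (pr_norm (pr_add (pr_half (c1g_s.snd h1)) (pr_half (pr_addc (swg_s.snd h1) (enc_rat _ 1 2)))))⟩
noncomputable def bf1q0_s : Sl2 bf1q0 := ⟨_, fun h1 h2 => (pr_norm (pr_add (pr_csub (enc_pnc _ 1) (pr_scale 137719 125000 h1)) (pr_cmul (enc_norm (enc_subr 13 32 h2)) (pr_nd (pr_scale 2 625 h1)))))⟩
noncomputable def kf1q0_s : Sl2 kf1q0 := ⟨_, fun h1 h2 => (pr_norm (pr_mul (cv1m_s.snd h1) (bf1q0_s.snd h1 h2)))⟩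
noncomputable def bx1q0_s : Sl2 bx1q0 := ⟨_, fun h1 h2 => (pr_norm (pr_add (pr_scale 11813 62500 h1) (pr_cmul (enc_norm (enc_subr 13 32 h2)) (pr_nd (pr_scale 661 25000 h1)))))⟩
noncomputable def l1q0_s : Sl2 l1q0 := ⟨_, fun h1 h2 => (pr_norm (pr_mul (cv1m_s.snd h1) (bx1q0_s.snd h1 h2)))⟩
noncomputable def bf1q1_39_s : Sl2 bf1q1_39 := ⟨_, fun h1 h2 => (pr_cmul (enc_norm (bf1q1_3.enc h1.l h2)) (pr_norm (pr_csub (enc_rat _ 37259 300000) (pr_scale 209 1500 h1))))⟩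
noncomputable def bf1q1_s : Sl2 bf1q1 := ⟨_, fun h1 h2 => (pr_norm (pr_case (pr_subr 4 5 h1) (pr_case (pr_subr 7 10 h1) (pr_add (pr_subr 281929 400000 (pr_scale 284141 200000 h1)) (pr_cmul (enc_norm (bf1q1_3.enc h1.l h2)) (pr_norm (pr_csub (enc_rat _ 6231 50000) (pr_scale 1399 10000 h1))))) (pr_add (pr_subr 140961 200000 (pr_scale 35517 25000 h1)) (pr_cmul (enc_norm (bf1q1_3.enc h1.l h2)) (pr_norm (pr_csub (enc_rat _ 12441 100000) (pr_scale 349 2500 h1)))))) (pr_case (pr_subr 7 8 h1) (pr_add (pr_subr 704773 1000000 (pr_scale 8879 6250 h1)) (bf1q1_39_s.snd h1 h2)) (pr_case (pr_subr 19 20 h1) (pr_add (pr_subr 2114249 3000000 (pr_scale 53273 37500 h1)) (bf1q1_39_s.snd h1 h2)) (pr_add (pr_subr 704737 1000000 (pr_scale 7103 5000 h1)) (pr_cmul (enc_norm (bf1q1_3.enc h1.l h2)) (pr_norm (pr_csub (enc_rat _ 12407 100000) (pr_scale 87 625 h1)))))))))⟩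
noncomputable def kf1q1_s : Sl2 kf1q1 := ⟨_, fun h1 h2 => (pr_norm (pr_mul (cv1m_s.snd h1) (bf1q1_s.snd h1 h2)))⟩
noncomputable def bx1q1_s : Sl2 bx1q1 := ⟨_, fun h1 h2 => (pr_norm (pr_case (pr_subr 4 5 h1) (pr_case (pr_subr 7 10 h1) (pr_add (pr_csub (enc_rat _ 327017 2000000) (pr_scale 6439 40000 h1)) (pr_cmul (enc_norm (bx1q1_3.enc h1.l h2)) (pr_norm (pr_subr 6133 100000 (pr_scale 337 5000 h1))))) (pr_add (pr_csub (enc_rat _ 163491 1000000) (pr_scale 3219 20000 h1)) (pr_cmul (enc_norm (bx1q1_3.enc h1.l h2)) (pr_norm (pr_subr 3063 50000 (pr_scale 673 10000 h1)))))) (pr_case (pr_subr 7 8 h1) (pr_add (pr_csub (enc_rat _ 490433 3000000) (pr_scale 1207 7500 h1)) (pr_cmul (enc_norm (bx1q1_3.enc h1.l h2)) (pr_norm (pr_subr 9209 150000 (pr_scale 253 3750 h1))))) (pr_case (pr_subr 19 20 h1) (pr_add (pr_csub (enc_rat _ 61291 375000) (pr_scale 12067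 75000 h1)) (pr_cmul (enc_norm (bx1q1_3.enc h1.l h2)) (pr_norm (pr_subr 3093 50000 (pr_scale 17 250 h1))))) (pr_add (pr_csub (enc_rat _ 16343 100000) (pr_scale 2011 12500 h1)) (pr_cmul (enc_norm (bx1q1_3.enc h1.l h2)) (pr_norm (pr_subr 389 6250 (pr_scale 171 2500 h1)))))))))⟩
noncomputable def l1q1_s : Sl2 l1q1 := ⟨_, fun h1 h2 => (pr_norm (pr_mul (cv1m_s.snd h1) (bx1q1_s.snd h1 h2)))⟩
noncomputable def cv1p_s : Sl1 cv1p := ⟨_, fun h1 => (pr_norm (pr_add (pr_half (c1g_s.snd h1)) (pr_half (pr_subr 1 2 (swg_s.snd h1)))))⟩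
noncomputable def bf1q2_91_s : Sl2 bf1q2_91 := ⟨_, fun h1 h2 => (pr_addc (pr_scale 8067 50000 h1) (enc_rat _ 33549 40000))⟩
noncomputable def bf1q2_s : Sl2 bf1q2 := ⟨_, fun h1 h2 => (pr_norm (pr_case (pr_subr 11 10 h1) (pr_case (pr_subr 53 50 h1) (pr_case (pr_subr 103 100 h1) (pr_add (pr_csub (enc_rat _ 679 400) (pr_scale 279 400 h1)) (pr_cmul (enc_norm (bf1q2_3.enc h1.l h2)) (pr_norm (pr_csub (enc_rat _ 4259 3000) (pr_scale 4259 3000 h1))))) (pr_add (pr_csub (enc_rat _ 4056217 3000000) (pr_scale 679 1875 h1)) (pr_cmul (enc_norm (bf1q2_3.enc h1.l h2)) (pr_norm (pr_csub (enc_rat _ 16939 12500) (pr_scale 1357 1000 h1)))))) (pr_case (pr_subr 107 100 h1) (pr_add (pr_addc (pr_scale 1243 10000 h1) (enc_rat _ 836453 1000000)) (pr_cmul (enc_norm (bf1q2_3.enc h1.l h2)) (pr_norm (pr_csub (enc_rat _ 839 625) (pr_scale 269 200 h1))))) (pr_add (pr_addc (pr_scale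 1649 2500 h1) (enc_rat _ 131841 500000)) (pr_cmul (enc_norm (bf1q2_3.enc h1.l h2)) (pr_norm (pr_csub (enc_rat _ 80009 60000) (pr_scale 401 300 h1))))))) (pr_case (pr_subr 231 200 h1) (pr_case (pr_subr 577 500 h1) (pr_add (pr_addc (pr_scale 11143 16875 h1) (enc_rat _ 3548927 13500000)) (pr_cmul (enc_norm (bf1q2_3.enc h1.l h2)) (pr_norm (pr_csub (enc_rat _ 719267 540000) (pr_scale 36053 27000 h1))))) (pr_add (pr_addc (pr_scale 5659 35000 h1) (enc_rat _ 29341 35000)) (pr_cmul (enc_norm (bf1q2_3.enc h1.l h2)) (pr_norm (pr_csub (enc_rat _ 4749 3500) (pr_scale 4749 3500 h1)))))) (pr_case (pr_subr 5 4 h1) (pr_add (pr_addc (pr_scale 107371 665000 h1) (enc_rat _ 2230609 2660000)) (pr_cmul (enc_norm (bf1q2_3.enc h1.l h2)) (pr_norm (pr_csub (enc_rat _ 4492377 3325000) (pr_scale 89899 66500 h1))))) (pr_case (pr_subr 27 20 h1) (pr_add (bf1q2_91_s.snd h1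 h2) (pr_cmul (enc_norm (bf1q2_3.enc h1.l h2)) (pr_norm (pr_csub (enc_rat _ 269477 200000) (pr_scale 13489 10000 h1))))) (pr_add (bf1q2_91_s.snd h1 h2) (pr_cmul (enc_norm (bf1q2_3.enc h1.l h2)) (pr_norm (pr_csub (enc_rat _ 134653 100000) (pr_scale 2528 1875 h1))))))))))⟩
noncomputable def kf1q2_s : Sl2 kf1q2 := ⟨_, fun h1 h2 => (pr_norm (pr_mul (cv1p_s.snd h1) (bf1q2_s.snd h1 h2)))⟩
noncomputable def bx1q2_s : Sl2 bx1q2 := ⟨_, fun h1 h2 => (pr_norm (pr_case (pr_subr 11 10 h1) (pr_case (pr_subr 53 50 h1) (pr_case (pr_subr 103 100 h1) (pr_add (pr_csub (enc_rat _ 553 15000) (pr_scale 553 15000 h1)) (pr_cmul (enc_norm (bx1q2_3.enc h1.l h2)) (pr_norm (pr_csub (enc_rat _ 172 375) (pr_scale 172 375 h1))))) (pr_add (pr_subr 65107 1500000 (pr_scale 77 1875 h1)) (pr_cmul (enc_norm (bx1q2_3.enc h1.l h2)) (pr_norm (pr_csub (enc_rat _ 170251 300000) (pr_scale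 1693 3000 h1)))))) (pr_case (pr_subr 107 100 h1) (pr_add (pr_subr 11393 100000 (pr_scale 269 2500 h1)) (pr_cmul (enc_norm (bx1q2_3.enc h1.l h2)) (pr_norm (pr_csub (enc_rat _ 11979 20000) (pr_scale 297 500 h1))))) (pr_add (pr_subr 191867 1500000 (pr_scale 181 1500 h1)) (pr_cmul (enc_norm (bx1q2_3.enc h1.l h2)) (pr_norm (pr_csub (enc_rat _ 93641 150000) (pr_scale 1853 3000 h1))))))) (pr_case (pr_subr 231 200 h1) (pr_casec (pr_subr 577 500 h1) (pr_add (pr_subr 12096971 94500000 (pr_scale 22823 189000 h1)) (pr_cmul (enc_norm (bx1q2_3.enc h1.l h2)) (pr_norm (pr_csub (enc_rat _ 1012573 1575000) (pr_scale 1999 3150 h1))))) (enc_sub (enc_rat _ 397 35000) (enc_scale 313 3500 (bx1q2_3.enc h1.l h2)))) (pr_case (pr_subr 5 4 h1) (pr_add (pr_subr 176015593 133000000 (pr_scale 768503 665000 h1)) (pr_cmul (enc_norm (bx1q2_3.enc h1.l h2)) (pr_norm (pr_subr 16254421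 6650000 (pr_scale 67791 33250 h1))))) (pr_case (pr_subr 27 20 h1) (pr_add (pr_subr 534573 500000 (pr_scale 47611 50000 h1)) (pr_cmul (enc_norm (bx1q2_3.enc h1.l h2)) (pr_norm (pr_subr 244949 100000 (pr_scale 2043 1000 h1))))) (pr_add (pr_subr 583749 1000000 (pr_scale 889 1500 h1)) (pr_cmul (enc_norm (bx1q2_3.enc h1.l h2)) (pr_norm (pr_subr 244931 100000 (pr_scale 30643 15000 h1))))))))))⟩
noncomputable def l1q2_s : Sl2 l1q2 := ⟨_, fun h1 h2 => (pr_norm (pr_mul (cv1p_s.snd h1) (bx1q2_s.snd h1 h2)))⟩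
noncomputable def cv1r_s : Sl1 cv1r := ⟨_, fun h1 => (pr_norm (pr_half (pr_subr 1 2 (swg_s.snd h1))))⟩
noncomputable def bf1q3_s : Sl2 bf1q3 := ⟨_, fun h1 h2 => (pr_norm (pr_add (pr_subr 3661357 500000 (pr_scale 1794491 500000 h1)) (pr_cmul (enc_norm (enc_subr 13 32 h2)) (pr_norm (pr_subr 183 100000 (pr_scale 11 12500 h1))))))⟩
noncomputable def kf1q3_s : Sl2 kf1q3 := ⟨_, fun h1 h2 => (pr_norm (pr_mul (cv1r_s.snd h1) (bf1q3_s.snd h1 h2)))⟩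
noncomputable def bx1q3_s : Sl2 bx1q3 := ⟨_, fun h1 h2 => (pr_norm (pr_add (pr_csub (enc_rat _ 366759 1000000) (pr_scale 22823 500000 h1)) (pr_cmul (enc_norm (enc_subr 13 32 h2)) (pr_norm (pr_csub (enc_rat _ 471 20000) (pr_scale 573 50000 h1))))))⟩
noncomputable def l1q3_s : Sl2 l1q3 := ⟨_, fun h1 h2 => (pr_norm (pr_mul (cv1r_s.snd h1) (bx1q3_s.snd h1 h2)))⟩
noncomputable def c3g_s : Sl1 c3g := ⟨_, fun h1 => (pr_sqrtg (pr_csub (enc_pnc _ 3) (pr_scale 3 4 (pr_sq h1))))⟩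
noncomputable def cv2m_s : Sl1 cv2m := ⟨_, fun h1 => (pr_norm (pr_add (pr_scale 17 20 (pr_addc (swg_s.snd h1) (enc_rat _ 1 2))) (pr_scale 3 20 (c3g_s.snd h1))))⟩
noncomputable def bf2q0_s : Sl2 bf2q0 := ⟨_, fun h1 h2 => (pr_norm (pr_add (pr_csub (enc_rat _ 801769 1000000) (pr_scale 36611 31250 h1)) (pr_cmul (enc_norm (enc_subr 13 32 h2)) (pr_norm (pr_csub (enc_rat _ 563 100000) (pr_scale 1277 50000 h1))))))⟩
noncomputable def kf2q0_s : Sl2 kf2q0 := ⟨_, fun h1 h2 => (pr_norm (pr_mul (cv2m_s.snd h1) (bf2q0_s.snd h1 h2)))⟩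
noncomputable def bx2q0_s : Sl2 bx2q0 := ⟨_, fun h1 h2 => (pr_norm (pr_add (pr_addc (pr_scale 1468 15625 h1) (enc_rat _ 1921 250000)) (pr_cmul (enc_norm (enc_subr 13 32 h2)) (pr_norm (pr_addc (pr_scale 4349 50000 h1) (enc_rat _ 201 50000))))))⟩
noncomputable def l2q0_s : Sl2 l2q0 := ⟨_, fun h1 h2 => (pr_norm (pr_mul (cv2m_s.snd h1) (bx2q0_s.snd h1 h2)))⟩
noncomputable def gsg_s : Sl1 gsg := ⟨_, fun h1 => (pr_sqrt (pr_csub (enc_pnc _ 1) (pr_scale 3 4 (pr_sq h1))))⟩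
noncomputable def esg_s : Sl1 esg := ⟨_, fun h1 => (pr_norm (pr_subn 1 (pr_add (pr_half h1) (gsg_s.snd h1))))⟩
noncomputable def kf2q1_78_s : Sl2 kf2q1_78 := ⟨_, fun h1 h2 => (pr_csub (enc_pnc _ 1) h1)⟩
noncomputable def kf2q1_79_s : Sl2 kf2q1_79 := ⟨_, fun h1 h2 => (gsg_s.snd (pr_norm (kf2q1_78_s.snd h1 h2)))⟩
noncomputable def kf2q1_85_s : Sl2 kf2q1_85 := ⟨_, fun h1 h2 => (pr_scale 3 2 (kf2q1_78_s.snd h1 h2))⟩
noncomputable def kf2q1_87_s : Sl2 kf2q1_87 := ⟨_, fun h1 h2 => (pr_cadd (enc_pnc _ 1) (kf2q1_79_s.snd h1 h2))⟩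
noncomputable def kf2q1_106_s : Sl2 kf2q1_106 := ⟨_, fun h1 h2 => (pr_mul (cv1m_s.snd h1) (bf1q1_s.snd h1 h2))⟩
noncomputable def kf2q1_s : Sl2 kf2q1 := ⟨_, fun h1 h2 => (pr_norm (pr_case (pr_subr 17 32 h1) (pr_mul (cv2m_s.snd h1) (pr_norm (pr_add (pr_subr 467612219 62500000 (pr_scale 29026959 1953125 h1)) (pr_cmul (enc_norm (kf2q1_4.enc h1.l h2)) (pr_norm (pr_csub (enc_rat _ 81939143 62500000) (pr_scale 5121548 1953125 h1))))))) (pr_case (pr_subr 21 32 h1) (pr_add (kf2q1_106_s.snd h1 h2) (pr_mul (pr_norm (pr_mul (pr_norm (pr_sub (pr_add (pr_add (pr_mul (pr_norm (pr_mul (pr_norm (pr_sub (kf2q1_79_s.snd h1 h2) (kf2q1_85_s.snd h1 h2))) (pr_norm (kf2q1_87_s.snd h1 h2)))) (pr_nd (pr_inv (pr_sub (kf2q1_87_s.snd h1 h2) (kf2q1_85_s.snd h1 h2))))) (pr_mul (pr_norm (pr_sub (pr_half (kf2q1_78_s.snd h1 h2)) (pr_mul (pr_nd (pr_scale 3 4 (pr_sq (pr_norm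 (kf2q1_78_s.snd h1 h2))))) (pr_nd (pr_inv (kf2q1_79_s.snd h1 h2)))))) (pr_nd (pr_inv (pr_nat 2 (esg_s.snd (pr_norm (kf2q1_78_s.snd h1 h2)))))))) (pr_mul (kcg_s.snd (pr_norm (pr_sub (pr_scale 3 4 (kf2q1_78_s.snd h1 h2)) (pr_half (kf2q1_79_s.snd h1 h2)))) h2) (pr_norm (kf2q1_78_s.snd h1 h2)))) (kf2q1_106_s.snd h1 h2))) (pr_norm (pr_sub (cv2m_s.snd h1) (cv1m_s.snd h1))))) (pr_nd (pr_inv (pr_sub (pr_addc (swg_s.snd h1) (enc_rat _ 1 2)) (cv1m_s.snd h1)))))) (pr_mul (cv2m_s.snd h1) (pr_norm (pr_case (pr_subr 4 5 h1) (pr_case (pr_subr 7 10 h1) (pr_add (pr_subr 5247609 19531250 (pr_scale 156778997 109375000 h1)) (pr_cmul (enc_norm (kf2q1_4.enc h1.l h2)) (pr_norm (pr_subr 14321789 31250000 (pr_scale 2412791 5468750 h1))))) (pr_add (pr_subr 218461 1000000 (pr_scale 136167 100000 h1)) (pr_cmul (enc_norm (kf2q1_4.enc h1.l h2)) (pr_norm (pr_subr 6119 12500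 (pr_scale 2429 5000 h1)))))) (pr_case (pr_subr 7 8 h1) (pr_add (pr_addc (pr_scale 16163 25000 h1) (enc_rat _ 353659 1000000)) (pr_cmul (enc_norm (kf2q1_4.enc h1.l h2)) (pr_norm (pr_subr 18787 37500 (pr_scale 3751 7500 h1))))) (pr_case (pr_subr 19 20 h1) (pr_add (pr_addc (pr_scale 48391 75000 h1) (enc_rat _ 1064407 3000000)) (pr_cmul (enc_norm (kf2q1_4.enc h1.l h2)) (pr_norm (pr_subr 12653 25000 (pr_scale 253 500 h1))))) (pr_add (pr_addc (pr_scale 6449 10000 h1) (enc_rat _ 3551 10000)) (pr_cmul (enc_norm (kf2q1_4.enc h1.l h2)) (pr_norm (pr_subr 1271 2500 (pr_scale 1271 2500 h1)))))))))))))⟩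
noncomputable def qsg_s : Sl1 qsg := ⟨_, fun h1 => (pr_norm (pr_mul (pr_norm (pr_csub (enc_pnc _ 1) (gsg_s.snd h1))) (pr_norm (pr_subn 1 (pr_nat 2 (gsg_s.snd h1))))))⟩
noncomputable def l2q1_93_s : Sl2 l2q1_93 := ⟨_, fun h1 h2 => (pr_csub (enc_pnc _ 1) h1)⟩
noncomputable def l2q1_108_s : Sl2 l2q1_108 := ⟨_, fun h1 h2 => (pr_mul (cv1m_s.snd h1) (bx1q1_s.snd h1 h2))⟩
noncomputable def l2q1_s : Sl2 l2q1 := ⟨_, fun h1 h2 => (pr_norm (pr_case (pr_subr 17 32 h1) (pr_mul (cv2m_s.snd h1) (pr_norm (pr_add (pr_add (pr_addc (pr_scale 477957 312500000 h1) (enc_rat _ 28694543 625000000)) (pr_cmul (enc_norm (l2q1_4.enc h1.l h2)) (pr_norm (pr_csub (enc_rat _ 1297171 15625000) (pr_scale 4064309 31250000 h1))))) (pr_cmul (l2q1_18.enc h1.l h2) (pr_norm (pr_csub (enc_rat _ 12054 15625) (pr_scale 24108 15625 h1))))))) (pr_case (pr_subr 21 32 h1) (pr_add (l2q1_108_s.snd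 h1 h2) (pr_mul (pr_norm (pr_mul (pr_norm (pr_sub (pr_sub (qsg_s.snd (pr_norm (l2q1_93_s.snd h1 h2))) (pr_mul (pr_norm (pr_nat 2 (pr_subc (l2q1_93_s.snd h1 h2) h2))) (pr_norm (pr_mul (esg_s.snd (pr_norm (l2q1_93_s.snd h1 h2))) (kcg_s.snd (pr_norm (pr_sub (pr_scale 3 4 (l2q1_93_s.snd h1 h2)) (pr_half (gsg_s.snd (pr_norm (l2q1_93_s.snd h1 h2)))))) h2))))) (l2q1_108_s.snd h1 h2))) (pr_norm (pr_sub (cv2m_s.snd h1) (cv1m_s.snd h1))))) (pr_nd (pr_inv (pr_sub (pr_addc (swg_s.snd h1) (enc_rat _ 1 2)) (cv1m_s.snd h1)))))) (pr_mul (cv2m_s.snd h1) (pr_norm (pr_case (pr_subr 4 5 h1) (pr_case (pr_subr 7 10 h1) (pr_add (pr_add (pr_csub (enc_rat _ 72797433 625000000) (pr_scale 14853577 109375000 h1)) (pr_cmul (enc_norm (l2q1_4.enc h1.l h2)) (pr_norm (pr_csub (enc_rat _ 7785477 62500000) (pr_scale 7707977 43750000 h1))))) (pr_cmul (l2q1_18.enc h1.l h2) (pr_norm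 (pr_subr 24529 12500 (pr_scale 24529 8750 h1))))) (pr_add (pr_csub (enc_rat _ 55279 500000) (pr_scale 2547 20000 h1)) (pr_cmul (enc_norm (l2q1_4.enc h1.l h2)) (pr_norm (pr_subr 239 50000 (pr_scale 43 5000 h1)))))) (pr_case (pr_subr 7 8 h1) (pr_add (pr_csub (enc_rat _ 23779 500000) (pr_scale 243 5000 h1)) (pr_cmul (enc_norm (l2q1_4.enc h1.l h2)) (pr_norm (pr_csub (enc_rat _ 239 30000) (pr_scale 11 1500 h1))))) (pr_case (pr_subr 19 20 h1) (pr_add (pr_csub (enc_rat _ 3787 93750) (pr_scale 3031 75000 h1)) (pr_cmul (enc_norm (l2q1_4.enc h1.l h2)) (pr_norm (pr_csub (enc_rat _ 709 60000) (pr_scale 22 1875 h1))))) (pr_add (pr_csub (enc_rat _ 1001 25000) (pr_scale 1001 25000 h1)) (pr_cmul (enc_norm (l2q1_4.enc h1.l h2)) (pr_norm (pr_csub (enc_rat _ 67 5000) (pr_scale 67 5000 h1)))))))))))))⟩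
noncomputable def cv2p_s : Sl1 cv2p := ⟨_, fun h1 => (pr_norm (pr_add (pr_scale 17 20 (pr_subr 1 2 (swg_s.snd h1))) (pr_scale 3 20 (c3g_s.snd h1))))⟩
noncomputable def kf2q2_93_s : Sl2 kf2q2_93 := ⟨_, fun h1 h2 => (pr_subn 1 h1)⟩
noncomputable def kf2q2_94_s : Sl2 kf2q2_94 := ⟨_, fun h1 h2 => (gsg_s.snd (pr_norm (kf2q2_93_s.snd h1 h2)))⟩
noncomputable def kf2q2_100_s : Sl2 kf2q2_100 := ⟨_, fun h1 h2 => (pr_scale 3 2 (kf2q2_93_s.snd h1 h2))⟩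
noncomputable def kf2q2_102_s : Sl2 kf2q2_102 := ⟨_, fun h1 h2 => (pr_cadd (enc_pnc _ 1) (kf2q2_94_s.snd h1 h2))⟩
noncomputable def kf2q2_121_s : Sl2 kf2q2_121 := ⟨_, fun h1 h2 => (pr_mul (cv1p_s.snd h1) (bf1q2_s.snd h1 h2))⟩
noncomputable def kf2q2_s : Sl2 kf2q2 := ⟨_, fun h1 h2 => (pr_norm (pr_case (pr_subr 43 32 h1) (pr_mul (cv2p_s.snd h1) (pr_norm (pr_case (pr_subr 11 10 h1) (pr_case (pr_subr 103 100 h1) (pr_add (pr_csub (enc_rat _ 294899 150000) (pr_scale 6059 6000 h1)) (pr_cmul (enc_norm (kf2q2_4.enc h1.l h2)) (pr_norm (pr_csub (enc_rat _ 175807 100000) (pr_scale 1689 1000 h1))))) (pr_case (pr_subr 53 50 h1) (pr_add (pr_csub (enc_rat _ 2949299 1500000) (pr_scale 30301 30000 h1)) (pr_cmul (enc_norm (kf2q2_4.enc h1.l h2)) (pr_norm (pr_csub (enc_rat _ 87749 50000) (pr_scale 843 500 h1))))) (pr_add (pr_csub (enc_rat _ 3932699 2000000) (pr_scale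 40407 40000 h1)) (pr_cmul (enc_norm (kf2q2_4.enc h1.l h2)) (pr_norm (pr_csub (enc_rat _ 350201 200000) (pr_scale 6729 4000 h1))))))) (pr_case (pr_subr 29 25 h1) (pr_add (pr_csub (enc_rat _ 1966487 1000000) (pr_scale 10103 10000 h1)) (pr_cmul (enc_norm (kf2q2_4.enc h1.l h2)) (pr_norm (pr_csub (enc_rat _ 174633 100000) (pr_scale 839 500 h1))))) (pr_case (pr_subr 5 4 h1) (pr_add (pr_csub (enc_rat _ 1966719 1000000) (pr_scale 2021 2000 h1)) (pr_cmul (enc_norm (kf2q2_4.enc h1.l h2)) (pr_norm (pr_csub (enc_rat _ 1567289 900000) (pr_scale 1883 1125 h1))))) (pr_add (pr_csub (enc_rat _ 737574089 375000000) (pr_scale 473726339 468750000 h1)) (pr_cmul (enc_norm (kf2q2_4.enc h1.l h2)) (pr_norm (pr_csub (enc_rat _ 325597 187500) (pr_scale 3130961 1875000 h1)))))))))) (pr_case (pr_subr 47 32 h1) (pr_add (kf2q2_121_s.snd h1 h2) (pr_mul (pr_norm (pr_mul (pr_norm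 (pr_sub (pr_add (pr_sub (pr_mul (pr_norm (pr_mul (pr_norm (pr_sub (kf2q2_94_s.snd h1 h2) (kf2q2_100_s.snd h1 h2))) (pr_norm (kf2q2_102_s.snd h1 h2)))) (pr_nd (pr_inv (pr_sub (kf2q2_102_s.snd h1 h2) (kf2q2_100_s.snd h1 h2))))) (pr_mul (pr_norm (pr_sub (pr_half (kf2q2_93_s.snd h1 h2)) (pr_mul (pr_nd (pr_scale 3 4 (pr_sq (pr_norm (kf2q2_93_s.snd h1 h2))))) (pr_nd (pr_inv (kf2q2_94_s.snd h1 h2)))))) (pr_nd (pr_inv (pr_nat 2 (esg_s.snd (pr_norm (kf2q2_93_s.snd h1 h2)))))))) (pr_mul (kcg_s.snd (pr_norm (pr_sub (pr_scale 3 4 (kf2q2_93_s.snd h1 h2)) (pr_half (kf2q2_94_s.snd h1 h2)))) h2) (pr_norm (kf2q2_93_s.snd h1 h2)))) (kf2q2_121_s.snd h1 h2))) (pr_norm (pr_sub (cv2p_s.snd h1) (cv1p_s.snd h1))))) (pr_nd (pr_inv (pr_sub (pr_subr 1 2 (swg_s.snd h1)) (cv1p_s.snd h1)))))) (pr_mul (cv2p_s.snd h1) (pr_norm (pr_add (pr_subr 3114392549 156250000 (pr_scale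 4295678607 312500000 h1)) (pr_cmul (enc_norm (kf2q2_4.enc h1.l h2)) (pr_norm (pr_subr 441668727 62500000 (pr_scale 147232909 31250000 h1))))))))))⟩
noncomputable def l2q2_106_s : Sl2 l2q2_106 := ⟨_, fun h1 h2 => (pr_subn 1 h1)⟩
noncomputable def l2q2_121_s : Sl2 l2q2_121 := ⟨_, fun h1 h2 => (pr_mul (cv1p_s.snd h1) (bx1q2_s.snd h1 h2))⟩
noncomputable def l2q2_s : Sl2 l2q2 := ⟨_, fun h1 h2 => (pr_norm (pr_case (pr_subr 43 32 h1) (pr_mul (cv2p_s.snd h1) (pr_norm (pr_case (pr_subr 11 10 h1) (pr_case (pr_subr 103 100 h1) (pr_add (pr_subr 101459 3000000 (pr_scale 631 15000 h1)) (pr_cmul (enc_norm (l2q2_4.enc h1.l h2)) (pr_norm (pr_csub (enc_rat _ 111641 300000) (pr_scale 7 24 h1))))) (pr_case (pr_subr 53 50 h1) (pr_add (pr_subr 28051 500000 (pr_scale 637 10000 h1)) (pr_cmul (enc_norm (l2q2_4.enc h1.l h2)) (pr_norm (pr_csub (enc_rat _ 14689 37500)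 (pr_scale 233 750 h1))))) (pr_add (pr_subr 2927 50000 (pr_scale 33 500 h1)) (pr_cmul (enc_norm (l2q2_4.enc h1.l h2)) (pr_norm (pr_csub (enc_rat _ 46043 100000) (pr_scale 751 2000 h1))))))) (pr_case (pr_subr 29 25 h1) (pr_add (pr_subr 35267 600000 (pr_scale 3973 60000 h1)) (pr_cmul (enc_norm (l2q2_4.enc h1.l h2)) (pr_norm (pr_csub (enc_rat _ 178609 300000) (pr_scale 2989 6000 h1))))) (pr_case (pr_subr 5 4 h1) (pr_add (pr_subr 462449 3000000 (pr_scale 4453 30000 h1)) (pr_cmul (enc_norm (l2q2_4.enc h1.l h2)) (pr_norm (pr_csub (enc_rat _ 22781 36000) (pr_scale 2387 4500 h1))))) (pr_add (pr_add (pr_subr 463553 1000000 (pr_scale 98989 250000 h1)) (pr_cmul (enc_norm (l2q2_4.enc h1.l h2)) (pr_norm (pr_csub (enc_rat _ 494491 15000000) (pr_scale 948241 18750000 h1))))) (pr_cmul (l2q2_81.enc h1.l h2) (pr_norm (pr_csub (enc_rat _ 111751 18750) (pr_scale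 223502 46875 h1)))))))))) (pr_case (pr_subr 47 32 h1) (pr_add (l2q2_121_s.snd h1 h2) (pr_mul (pr_norm (pr_mul (pr_norm (pr_sub (pr_sub (qsg_s.snd (pr_norm (l2q2_106_s.snd h1 h2))) (pr_mul (pr_norm (pr_nat 2 (pr_subc (l2q2_106_s.snd h1 h2) h2))) (pr_norm (pr_mul (esg_s.snd (pr_norm (l2q2_106_s.snd h1 h2))) (kcg_s.snd (pr_norm (pr_sub (pr_scale 3 4 (l2q2_106_s.snd h1 h2)) (pr_half (gsg_s.snd (pr_norm (l2q2_106_s.snd h1 h2)))))) h2))))) (l2q2_121_s.snd h1 h2))) (pr_norm (pr_sub (cv2p_s.snd h1) (cv1p_s.snd h1))))) (pr_nd (pr_inv (pr_sub (pr_subr 1 2 (swg_s.snd h1)) (cv1p_s.snd h1)))))) (pr_mul (cv2p_s.snd h1) (pr_norm (pr_add (pr_add (pr_subr 25694873 312500000 (pr_scale 24234541 156250000 h1)) (pr_cmul (enc_norm (l2q2_4.enc h1.l h2)) (pr_norm (pr_subr 296226661 62500000 (pr_scale 49587881 15625000 h1))))) (pr_cmul (l2q2_81.enc h1.l h2) (pr_norm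 (pr_subr 538713 62500 (pr_scale 179571 31250 h1))))))))))⟩
noncomputable def ycg_s : Sl1 ycg := ⟨_, fun h1 => (pr_sqrtg (pr_scale 4 3 (pr_csub (enc_pnc _ 3) (pr_sq h1))))⟩
noncomputable def xc23_s : Sl1 xc23 := ⟨_, fun h1 => (pr_norm (pr_add (pr_scale 17 20 (pr_subr 1 2 (swg_s.snd (pr_nd (ycg_s.snd h1))))) (pr_scale 3 20 h1)))⟩
noncomputable def bf2q3_s : Sl2 bf2q3 := ⟨_, fun h1 h2 => (pr_norm (pr_add (pr_subr 165841 50000 (pr_scale 190841 100000 h1)) (pr_cmul (enc_norm (enc_subr 13 32 h2)) (pr_norm (pr_subr 213 25000 (pr_scale 213 50000 h1))))))⟩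
noncomputable def kfc23_s : Sl2 kfc23 := ⟨_, fun h1 h2 => (pr_norm (pr_mul (pr_norm (pr_add (pr_scale 17 20 (pr_subr 1 2 (swg_s.snd (pr_nd (ycg_s.snd h1))))) (pr_scale 3 20 h1))) (bf2q3_s.snd (pr_nd (ycg_s.snd h1)) h2)))⟩
noncomputable def bx2q3_s : Sl2 bx2q3 := ⟨_, fun h1 h2 => (pr_norm (pr_add (pr_csub (enc_rat _ 2316787 5000000) (pr_scale 521979 2500000 h1)) (pr_cmul (enc_norm (enc_subr 13 32 h2)) (pr_norm (pr_subr 873449 800000 (pr_scale 305203 400000 h1))))))⟩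
noncomputable def lc23_s : Sl2 lc23 := ⟨_, fun h1 h2 => (pr_norm (pr_mul (pr_norm (pr_add (pr_scale 17 20 (pr_subr 1 2 (swg_s.snd (pr_nd (ycg_s.snd h1))))) (pr_scale 3 20 h1))) (bx2q3_s.snd (pr_nd (ycg_s.snd h1)) h2)))⟩
noncomputable def cv3m_s : Sl1 cv3m := ⟨_, fun h1 => (pr_norm (pr_add (pr_half (pr_addc (swg_s.snd h1) (enc_rat _ 1 2))) (pr_half (c3g_s.snd h1))))⟩
noncomputable def bf3q0_s : Sl2 bf3q0 := ⟨_, fun h1 h2 => (pr_norm (pr_add (pr_csub (enc_rat _ 663603 1000000) (pr_scale 128363 62500 h1)) (pr_cmul (enc_norm (enc_subr 13 32 h2)) (pr_norm (pr_csub (enc_rat _ 27 50000) (pr_scale 91 10000 h1))))))⟩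
noncomputable def kf3q0_s : Sl2 kf3q0 := ⟨_, fun h1 h2 => (pr_norm (pr_mul (cv3m_s.snd h1) (bf3q0_s.snd h1 h2)))⟩
noncomputable def bx3q0_s : Sl2 bx3q0 := ⟨_, fun h1 h2 => (pr_norm (pr_add (pr_csub (enc_rat _ 2381 25000) (pr_scale 24799 250000 h1)) (pr_cmul (enc_norm (enc_subr 13 32 h2)) (pr_norm (pr_addc (pr_scale 121 25000 h1) (enc_rat _ 153 12500))))))⟩
noncomputable def l3q0_s : Sl2 l3q0 := ⟨_, fun h1 h2 => (pr_norm (pr_mul (cv3m_s.snd h1) (bx3q0_s.snd h1 h2)))⟩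
noncomputable def bf3q1_36_s : Sl2 bf3q1_36 := ⟨_, fun h1 h2 => (pr_cmul (enc_norm (bf3q1_3.enc h1.l h2)) (pr_norm (pr_subr 4241 15000 (pr_scale 106 375 h1))))⟩
noncomputable def bf3q1_s : Sl2 bf3q1 := ⟨_, fun h1 h2 => (pr_norm (pr_case (pr_subr 4 5 h1) (pr_case (pr_subr 7 10 h1) (pr_add (pr_addc (pr_scale 167499 200000 h1) (enc_rat _ 369551 2000000)) (pr_cmul (enc_norm (bf3q1_3.enc h1.l h2)) (pr_norm (pr_subr 56647 200000 (pr_scale 5667 20000 h1))))) (pr_add (pr_addc (pr_scale 41853 50000 h1) (enc_rat _ 4627 25000)) (pr_cmul (enc_norm (bf3q1_3.enc h1.l h2)) (pr_norm (pr_subr 7073 25000 (pr_scale 2829 10000 h1)))))) (pr_case (pr_subr 7 8 h1) (pr_add (pr_addc (pr_scale 31327 37500 h1) (enc_rat _ 69907 375000)) (bf3q1_36_s.snd h1 h2)) (pr_case (pr_subr 19 20 h1) (pr_add (pr_addc (pr_scale 4259 6250 h1) (enc_rat _ 160561 500000)) (bf3q1_36_s.snd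 h1 h2)) (pr_add (pr_addc (pr_scale 3151 5000 h1) (enc_rat _ 1849 5000)) (pr_cmul (enc_norm (bf3q1_3.enc h1.l h2)) (pr_norm (pr_subr 71 250 (pr_scale 71 250 h1)))))))))⟩
noncomputable def kf3q1_s : Sl2 kf3q1 := ⟨_, fun h1 h2 => (pr_norm (pr_mul (cv3m_s.snd h1) (bf3q1_s.snd h1 h2)))⟩
noncomputable def bx3q1_s : Sl2 bx3q1 := ⟨_, fun h1 h2 => (pr_norm (pr_case (pr_subr 4 5 h1) (pr_case (pr_subr 7 10 h1) (pr_add (pr_csub (enc_rat _ 107463 1000000) (pr_scale 3063 25000 h1)) (pr_cmul (enc_norm (bx3q1_3.enc h1.l h2)) (pr_norm (pr_csub (enc_rat _ 16157 200000) (pr_scale 1511 20000 h1))))) (pr_add (pr_csub (enc_rat _ 104411 1000000) (pr_scale 1477 12500 h1)) (pr_cmul (enc_norm (bx3q1_3.enc h1.l h2)) (pr_norm (pr_csub (enc_rat _ 1061 12500) (pr_scale 407 5000 h1)))))) (pr_case (pr_subr 7 8 h1) (pr_add (pr_csub (enc_rat _ 231217 3000000) (pr_scale 6299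 75000 h1)) (pr_cmul (enc_norm (bx3q1_3.enc h1.l h2)) (pr_norm (pr_csub (enc_rat _ 689 7500) (pr_scale 169 1875 h1))))) (pr_case (pr_subr 19 20 h1) (pr_add (pr_csub (enc_rat _ 16457 500000) (pr_scale 419 12500 h1)) (pr_cmul (enc_norm (bx3q1_3.enc h1.l h2)) (pr_norm (pr_csub (enc_rat _ 201 2000) (pr_scale 1 10 h1))))) (pr_add (pr_csub (enc_rat _ 107 5000) (pr_scale 107 5000 h1)) (pr_cmul (enc_norm (bx3q1_3.enc h1.l h2)) (pr_norm (pr_csub (enc_rat _ 11 100) (pr_scale 11 100 h1)))))))))⟩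
noncomputable def l3q1_s : Sl2 l3q1 := ⟨_, fun h1 h2 => (pr_norm (pr_mul (cv3m_s.snd h1) (bx3q1_s.snd h1 h2)))⟩
noncomputable def cv3p_s : Sl1 cv3p := ⟨_, fun h1 => (pr_norm (pr_add (pr_half (pr_subr 1 2 (swg_s.snd h1))) (pr_half (c3g_s.snd h1))))⟩
noncomputable def bf3q2_s : Sl2 bf3q2 := ⟨_, fun h1 h2 => (pr_norm (pr_case (pr_subr 29 25 h1) (pr_case (pr_subr 53 50 h1) (pr_add (pr_subr 357843 1000000 (pr_scale 11559 10000 h1)) (pr_cmul (enc_norm (bf3q2_3.enc h1.l h2)) (pr_norm (pr_subr 253 1500 (pr_scale 371 3000 h1))))) (pr_case (pr_subr 11 10 h1) (pr_add (pr_subr 715633 2000000 (pr_scale 9247 8000 h1)) (pr_cmul (enc_norm (bf3q2_3.enc h1.l h2)) (pr_norm (pr_subr 16849 100000 (pr_scale 247 2000 h1))))) (pr_add (pr_subr 536711 1500000 (pr_scale 8669 7500 h1)) (pr_cmul (enc_norm (bf3q2_3.enc h1.l h2)) (pr_norm (pr_subr 50327 300000 (pr_scale 737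 6000 h1))))))) (pr_case (pr_subr 5 4 h1) (pr_add (pr_subr 1610017 4500000 (pr_scale 52013 45000 h1)) (pr_cmul (enc_norm (bf3q2_3.enc h1.l h2)) (pr_norm (pr_subr 6023 36000 (pr_scale 551 4500 h1))))) (pr_case (pr_subr 27 20 h1) (pr_add (pr_subr 715527 2000000 (pr_scale 115583 100000 h1)) (pr_cmul (enc_norm (bf3q2_3.enc h1.l h2)) (pr_norm (pr_subr 667 4000 (pr_scale 61 500 h1))))) (pr_add (pr_subr 44721 125000 (pr_scale 1387 1200 h1)) (pr_cmul (enc_norm (bf3q2_3.enc h1.l h2)) (pr_norm (pr_subr 16639 100000 (pr_scale 913 7500 h1)))))))))⟩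
noncomputable def kf3q2_s : Sl2 kf3q2 := ⟨_, fun h1 h2 => (pr_norm (pr_mul (cv3p_s.snd h1) (bf3q2_s.snd h1 h2)))⟩
noncomputable def bx3q2_s : Sl2 bx3q2 := ⟨_, fun h1 h2 => (pr_norm (pr_case (pr_subr 11 10 h1) (pr_case (pr_subr 103 100 h1) (pr_add (pr_subr 189709 3000000 (pr_scale 1789 30000 h1)) (pr_cmul (enc_norm (bx3q2_3.enc h1.l h2)) (pr_norm (pr_subr 46957 75000 (pr_scale 1729 3000 h1))))) (pr_case (pr_subr 53 50 h1) (pr_add (pr_subr 47453 750000 (pr_scale 179 3000 h1)) (pr_cmul (enc_norm (bx3q2_3.enc h1.l h2)) (pr_norm (pr_subr 93811 150000 (pr_scale 1727 3000 h1))))) (pr_add (pr_subr 25333 400000 (pr_scale 2389 40000 h1)) (pr_cmul (enc_norm (bx3q2_3.enc h1.l h2)) (pr_norm (pr_subr 124993 200000 (pr_scale 2301 4000 h1))))))) (pr_case (pr_subr 5 4 h1) (pr_case (pr_subr 29 25 h1) (pr_add (pr_subr 19019 300000 (pr_scale 3587 60000 h1)) (pr_cmul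 (enc_norm (bx3q2_3.enc h1.l h2)) (pr_norm (pr_subr 93731 150000 (pr_scale 3451 6000 h1))))) (pr_add (pr_subr 47591 750000 (pr_scale 359 6000 h1)) (pr_cmul (enc_norm (bx3q2_3.enc h1.l h2)) (pr_norm (pr_subr 1172 1875 (pr_scale 863 1500 h1)))))) (pr_case (pr_subr 27 20 h1) (pr_add (pr_subr 127051 2000000 (pr_scale 5989 100000 h1)) (pr_cmul (enc_norm (bx3q2_3.enc h1.l h2)) (pr_norm (pr_subr 25021 40000 (pr_scale 5757 10000 h1))))) (pr_add (pr_subr 1987 31250 (pr_scale 899 15000 h1)) (pr_cmul (enc_norm (bx3q2_3.enc h1.l h2)) (pr_norm (pr_subr 2503 4000 (pr_scale 4319 7500 h1)))))))))⟩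
noncomputable def l3q2_s : Sl2 l3q2 := ⟨_, fun h1 h2 => (pr_norm (pr_mul (cv3p_s.snd h1) (bx3q2_s.snd h1 h2)))⟩
noncomputable def xc33_s : Sl1 xc33 := ⟨_, fun h1 => (pr_norm (pr_add (pr_half (pr_subr 1 2 (swg_s.snd (pr_nd (ycg_s.snd h1))))) (pr_half h1)))⟩
noncomputable def bf3q3_s : Sl2 bf3q3 := ⟨_, fun h1 h2 => (pr_norm (pr_add (pr_subr 262737 50000 (pr_scale 287737 100000 h1)) (pr_cmul (enc_norm (enc_subr 13 32 h2)) (pr_norm (pr_subr 3 6250 (pr_scale 3 12500 h1))))))⟩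
noncomputable def kfc33_s : Sl2 kfc33 := ⟨_, fun h1 h2 => (pr_norm (pr_mul (pr_norm (pr_add (pr_half (pr_subr 1 2 (swg_s.snd (pr_nd (ycg_s.snd h1))))) (pr_half h1))) (bf3q3_s.snd (pr_nd (ycg_s.snd h1)) h2)))⟩
noncomputable def bx3q3_s : Sl2 bx3q3 := ⟨_, fun h1 h2 => (pr_norm (pr_add (pr_csub (enc_rat _ 1130147 5000000) (pr_scale 225319 2500000 h1)) (pr_cmul (enc_norm (enc_subr 13 32 h2)) (pr_norm (pr_subr 1036617 800000 (pr_scale 69199 80000 h1))))))⟩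
noncomputable def lc33_s : Sl2 lc33 := ⟨_, fun h1 h2 => (pr_norm (pr_mul (pr_norm (pr_add (pr_half (pr_subr 1 2 (swg_s.snd (pr_nd (ycg_s.snd h1))))) (pr_half h1))) (bx3q3_s.snd (pr_nd (ycg_s.snd h1)) h2)))⟩
noncomputable def kf4q0_s : Sl2 kf4q0 := ⟨_, fun h1 h2 => (pr_norm (pr_sub (pr_mul h1 (kcg_s.snd (pr_nd (pr_half h1)) h2)) (pr_mul (pr_norm (pr_mul (pr_nd (pr_sq h1)) (pr_norm (pr_addc (c3g_s.snd h1) (enc_rat _ 3 2))))) (pr_nd (pr_inv (pr_mul (pr_norm (pr_csub (enc_pnc _ 1) h1)) (pr_norm (pr_cadd (enc_pnc _ 1) h1))))))))⟩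
noncomputable def l4q0_6_s : Sl2 l4q0_6 := ⟨_, fun h1 h2 => (pr_half h1)⟩
noncomputable def l4q0_7_s : Sl2 l4q0_7 := ⟨_, fun h1 h2 => (pr_half (c3g_s.snd h1))⟩
noncomputable def l4q0_8_s : Sl2 l4q0_8 := ⟨_, fun h1 h2 => (pr_scale 1 4 h1)⟩
noncomputable def l4q0_s : Sl2 l4q0 := ⟨_, fun h1 h2 => (pr_norm (pr_add (txg_s.snd (pr_nd (l4q0_6_s.snd h1 h2)) (pr_norm (pr_sub (l4q0_7_s.snd h1 h2) (l4q0_8_s.snd h1 h2))) h2) (txg_s.snd (pr_nd (pr_neg (l4q0_6_s.snd h1 h2))) (pr_norm (pr_add (l4q0_7_s.snd h1 h2) (l4q0_8_s.snd h1 h2))) h2)))⟩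
noncomputable def kf4q1_s : Sl2 kf4q1 := ⟨_, fun h1 h2 => (pr_norm (pr_add (pr_mul (pr_norm (pr_mul h1 (pr_norm (pr_addc (c3g_s.snd h1) (enc_rat _ 3 2))))) (pr_nd (pr_inv (pr_cadd (enc_pnc _ 1) h1)))) (pr_mul (pr_norm (pr_subn 1 h1)) (kcg_s.snd (pr_nd (pr_half h1)) h2))))⟩
noncomputable def l4q1_7_s : Sl2 l4q1_7 := ⟨_, fun h1 h2 => (pr_half h1)⟩
noncomputable def l4q1_8_s : Sl2 l4q1_8 := ⟨_, fun h1 h2 => (pr_half (c3g_s.snd h1))⟩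
noncomputable def l4q1_9_s : Sl2 l4q1_9 := ⟨_, fun h1 h2 => (pr_scale 1 4 h1)⟩
noncomputable def l4q1_s : Sl2 l4q1 := ⟨_, fun h1 h2 => (pr_norm (pr_add (txg_s.snd (pr_nd (l4q1_7_s.snd h1 h2)) (pr_norm (pr_sub (l4q1_8_s.snd h1 h2) (l4q1_9_s.snd h1 h2))) h2) (txg_s.snd (pr_nd (pr_neg (l4q1_7_s.snd h1 h2))) (pr_norm (pr_add (l4q1_8_s.snd h1 h2) (l4q1_9_s.snd h1 h2))) h2)))⟩
noncomputable def kf4q2_s : Sl2 kf4q2 := ⟨_, fun h1 h2 => (pr_norm (pr_add (pr_mul (pr_norm (pr_mul (pr_norm (pr_sub (pr_nat 2 (c3g_s.snd h1)) h1)) (pr_norm (pr_sub (pr_addc (c3g_s.snd h1) (enc_pnc _ 3)) (pr_scale 3 2 h1))))) (pr_nd (pr_inv (pr_nat 4 (pr_csub (enc_pnc _ 2) h1))))) (pr_mul (pr_norm (pr_subn 1 h1)) (kcg_s.snd (pr_norm (pr_sub (pr_scale 1 4 h1) (pr_half (c3g_s.snd h1)))) h2))))⟩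
noncomputable def l4q2_7_s : Sl2 l4q2_7 := ⟨_, fun h1 h2 => (pr_half (c3g_s.snd h1))⟩
noncomputable def l4q2_8_s : Sl2 l4q2_8 := ⟨_, fun h1 h2 => (pr_scale 1 4 h1)⟩
noncomputable def l4q2_9_s : Sl2 l4q2_9 := ⟨_, fun h1 h2 => (pr_sub (l4q2_7_s.snd h1 h2) (l4q2_8_s.snd h1 h2))⟩
noncomputable def l4q2_12_s : Sl2 l4q2_12 := ⟨_, fun h1 h2 => (pr_add (pr_scale 1 4 (c3g_s.snd h1)) (pr_scale 3 8 h1))⟩
noncomputable def l4q2_14_s : Sl2 l4q2_14 := ⟨_, fun h1 h2 => (pr_half (l4q2_9_s.snd h1 h2))⟩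
noncomputable def l4q2_s : Sl2 l4q2 := ⟨_, fun h1 h2 => (pr_norm (pr_sub (pr_nat 2 (txg_s.snd (pr_norm (pr_sub (l4q2_8_s.snd h1 h2) (l4q2_7_s.snd h1 h2))) (pr_norm (pr_add (l4q2_12_s.snd h1 h2) (l4q2_14_s.snd h1 h2))) h2)) (txg_s.snd (pr_norm (l4q2_9_s.snd h1 h2)) (pr_norm (pr_sub (l4q2_12_s.snd h1 h2) (l4q2_14_s.snd h1 h2))) h2)))⟩
noncomputable def kfc43_s : Sl2 kfc43 := ⟨_, fun h1 h2 => (pr_norm (pr_sub (pr_mul (pr_norm (pr_subn 2 (ycg_s.snd h1))) (kcg_s.snd (pr_norm (pr_sub (pr_scale 1 4 (ycg_s.snd h1)) (pr_half h1))) h2)) (pr_mul (pr_norm (pr_mul (pr_norm (pr_sub (pr_nat 2 h1) (ycg_s.snd h1))) (pr_norm (pr_sub (pr_addc h1 (enc_pnc _ 3)) (pr_scale 3 2 (ycg_s.snd h1)))))) (pr_nd (pr_inv (pr_nat 4 (pr_subn 1 (ycg_s.snd h1))))))))⟩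
noncomputable def lc43_7_s : Sl2 lc43_7 := ⟨_, fun h1 h2 => (pr_half h1)⟩
noncomputable def lc43_8_s : Sl2 lc43_8 := ⟨_, fun h1 h2 => (pr_scale 1 4 (ycg_s.snd h1))⟩
noncomputable def lc43_9_s : Sl2 lc43_9 := ⟨_, fun h1 h2 => (pr_sub (lc43_7_s.snd h1 h2) (lc43_8_s.snd h1 h2))⟩
noncomputable def lc43_12_s : Sl2 lc43_12 := ⟨_, fun h1 h2 => (pr_add (pr_scale 1 4 h1) (pr_scale 3 8 (ycg_s.snd h1)))⟩
noncomputable def lc43_14_s : Sl2 lc43_14 := ⟨_, fun h1 h2 => (pr_half (lc43_9_s.snd h1 h2))⟩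
noncomputable def lc43_s : Sl2 lc43 := ⟨_, fun h1 h2 => (pr_norm (pr_sub (pr_nat 2 (txg_s.snd (pr_norm (pr_sub (lc43_8_s.snd h1 h2) (lc43_7_s.snd h1 h2))) (pr_norm (pr_add (lc43_12_s.snd h1 h2) (lc43_14_s.snd h1 h2))) h2)) (txg_s.snd (pr_norm (lc43_9_s.snd h1 h2)) (pr_norm (pr_sub (lc43_12_s.snd h1 h2) (lc43_14_s.snd h1 h2))) h2)))⟩
noncomputable def gF0q0 : Gn := ⟨ndF0q0, c1g_s, kf0q0_s, l0q0_s, false⟩
noncomputable def gF0q1 : Gn := ⟨ndF0q1, c1g_s, kf0q1_s, l0q1_s, false⟩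
noncomputable def gF0q2 : Gn := ⟨ndF0q2, idf_s, kfc02_s, lc02_s, true⟩
noncomputable def gF1q0 : Gn := ⟨ndF1q0, cv1m_s, kf1q0_s, l1q0_s, false⟩
noncomputable def gF1q1 : Gn := ⟨ndF1q1, cv1m_s, kf1q1_s, l1q1_s, false⟩
noncomputable def gF1q2 : Gn := ⟨ndF1q2, cv1p_s, kf1q2_s, l1q2_s, false⟩
noncomputable def gF1q3 : Gn := ⟨ndF1q3, cv1r_s, kf1q3_s, l1q3_s, false⟩
noncomputable def gF2q0 : Gn := ⟨ndF2q0, cv2m_s, kf2q0_s, l2q0_s, false⟩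
noncomputable def gF2q1 : Gn := ⟨ndF2q1, cv2m_s, kf2q1_s, l2q1_s, false⟩
noncomputable def gF2q2 : Gn := ⟨ndF2q2, cv2p_s, kf2q2_s, l2q2_s, false⟩
noncomputable def gF2q3 : Gn := ⟨ndF2q3, xc23_s, kfc23_s, lc23_s, false⟩
noncomputable def gF3q0 : Gn := ⟨ndF3q0, cv3m_s, kf3q0_s, l3q0_s, false⟩
noncomputable def gF3q1 : Gn := ⟨ndF3q1, cv3m_s, kf3q1_s, l3q1_s, false⟩
noncomputable def gF3q2 : Gn := ⟨ndF3q2, cv3p_s, kf3q2_s, l3q2_s, false⟩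
noncomputable def gF3q3 : Gn := ⟨ndF3q3, xc33_s, kfc33_s, lc33_s, false⟩
noncomputable def gF4q0 : Gn := ⟨ndF4q0, c3g_s, kf4q0_s, l4q0_s, false⟩
noncomputable def gF4q1 : Gn := ⟨ndF4q1, c3g_s, kf4q1_s, l4q1_s, false⟩
noncomputable def gF4q2 : Gn := ⟨ndF4q2, c3g_s, kf4q2_s, l4q2_s, false⟩
noncomputable def gF4q3 : Gn := ⟨ndF4q3, idf_s, kfc43_s, lc43_s, false⟩
noncomputable def gF0q3 : Gn := gz
noncomputable def gF (j : Fin 5) (q : ℕ) : Gn :=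
  match j, q with
  | 0, 0 => gF0q0
  | 0, 1 => gF0q1
  | 0, 2 => gF0q2
  | 0, 3 => gF0q3
  | 1, 0 => gF1q0
  | 1, 1 => gF1q1
  | 1, 2 => gF1q2
  | 1, 3 => gF1q3
  | 2, 0 => gF2q0
  | 2, 1 => gF2q1
  | 2, 2 => gF2q2
  | 2, 3 => gF2q3
  | 3, 0 => gF3q0
  | 3, 1 => gF3q1
  | 3, 2 => gF3q2
  | 3, 3 => gF3q3
  | 4, 0 => gF4q0
  | 4, 1 => gF4q1
  | 4, 2 => gF4q2
  | 4, 3 => gF4q3
  | _, _ => gF0q0

noncomputable def c0n : Fn1 := ⟨_, _, fun h1 => (enc_norm (enc_add (enc_pnc _ 1) (enc_mul (mug3.enc h1) (gug.enc h1))))⟩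
noncomputable def gug_s : Sl1 gug := ⟨_, fun h1 => (pr_norm (pr_add (pr_scale 3 4 h1) (pr_scale 3 2 (pr_csub (enc_pnc _ 1) (gsg_s.snd h1)))))⟩
noncomputable def kug_2_s : Sl1 kug_2 := ⟨_, fun h1 => (pr_sq h1)⟩
noncomputable def kug_s : Sl1 kug := ⟨_, fun h1 => (pr_norm (pr_add (pr_add (pr_scale 3 4 h1) (pr_scale 3 2 (kug_2_s.snd h1))) (pr_mul (pr_norm (pr_mul (pr_nd (pr_scale 3 4 (kug_2_s.snd h1))) (pr_nd (pr_inv (gsg_s.snd h1))))) (gug_s.snd h1))))⟩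
noncomputable def kp0q0_8_s : Sl2 kp0q0_8 := ⟨_, fun h1 h2 => (pr_sub (pr_scale 3 4 h1) (pr_half (c1g_s.snd h1)))⟩
noncomputable def kp0q0_s : Sl2 kp0q0 := ⟨_, fun h1 h2 => (pr_norm (pr_case (pr_addc (kp0q0_8_s.snd h1 h2) (enc_rat _ 61 277)) (pr_mul h1 (pr_norm (pr_add (pr_subr 1568932316757 1550000000000 (pr_neg (pr_scale 7661459966757 775000000000 (kp0q0_8_s.snd h1 h2)))) (pr_cmul (enc_norm (kp0q0_3.enc h1.l h2)) (pr_norm (pr_subr 3159689800003 1550000000000 (pr_neg (pr_scale 12394558800003 775000000000 (kp0q0_8_s.snd h1 h2))))))))) (pr_case (pr_addc (kp0q0_8_s.snd h1 h2) (enc_rat _ 59 566)) (pr_sub (kug_s.snd h1) (pr_mul h1 (pr_norm (pr_mul (kcg_s.snd (pr_norm (kp0q0_8_s.snd h1 h2)) h2) (pr_norm (pr_add (gug_s.snd h1) (pr_nat 2 (c1g_s.snd h1)))))))) (pr_mul h1 (pr_norm (pr_add (pr_csub (enc_rat _ 701384703541 1140000000000) (pr_scale 5182340523541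 570000000000 (kp0q0_8_s.snd h1 h2))) (pr_cmul (enc_norm (kp0q0_3.enc h1.l h2)) (pr_norm (pr_subr 733063299977 1140000000000 (pr_neg (pr_scale 6059033900023 570000000000 (kp0q0_8_s.snd h1 h2))))))))))))⟩
noncomputable def kn0q0_s : Sl2 kn0q0 := ⟨_, fun h1 h2 => (pr_norm (pr_add (pr_cmul (enc_norm (enc_add (enc_pnc _ 1) (enc_mul (mug3.enc h2) (gug.enc h2)))) (kf0q0_s.snd h1 h2)) (pr_cmul (mug3.enc h2) (kp0q0_s.snd h1 h2))))⟩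
noncomputable def kp0q1_9_s : Sl2 kp0q1_9 := ⟨_, fun h1 h2 => (pr_sub (pr_scale 3 4 h1) (pr_half (c1g_s.snd h1)))⟩
noncomputable def kp0q1_s : Sl2 kp0q1 := ⟨_, fun h1 h2 => (pr_norm (pr_mul (pr_norm (pr_subn 1 h1)) (pr_norm (pr_add (pr_csub (enc_rat _ 701384703541 1140000000000) (pr_scale 5182340523541 570000000000 (kp0q1_9_s.snd h1 h2))) (pr_cmul (enc_norm (enc_subr 13 32 h2)) (pr_norm (pr_subr 733063299977 1140000000000 (pr_neg (pr_scale 6059033900023 570000000000 (kp0q1_9_s.snd h1 h2))))))))))⟩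
noncomputable def kn0q1_s : Sl2 kn0q1 := ⟨_, fun h1 h2 => (pr_norm (pr_add (pr_cmul (enc_norm (enc_add (enc_pnc _ 1) (enc_mul (mug3.enc h2) (gug.enc h2)))) (kf0q1_s.snd h1 h2)) (pr_cmul (mug3.enc h2) (kp0q1_s.snd h1 h2))))⟩
noncomputable def kpc02_s : Sl2 kpc02 := ⟨_, fun h1 h2 => (pr_norm (pr_mul (pr_norm (pr_subn 1 (yag_s.snd h1))) (pr_norm (pr_case (pr_subr 1 10 h1) (pr_add (pr_scale 31963 5000 h1) (pr_cmul (enc_norm (kpc02_4.enc h1.l h2)) (pr_nd (pr_scale 331 1000 h1)))) (pr_add (pr_subr 734363 4000000 (pr_scale 3291403 400000 h1)) (pr_cmul (enc_norm (kpc02_4.enc h1.l h2)) (pr_norm (pr_subr 36203 25000 (pr_scale 74061 5000 h1)))))))))⟩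
noncomputable def knc02_s : Sl2 knc02 := ⟨_, fun h1 h2 => (pr_norm (pr_add (pr_cmul (enc_norm (enc_add (enc_pnc _ 1) (enc_mul (mug3.enc h2) (gug.enc h2)))) (kfc02_s.snd h1 h2)) (pr_cmul (mug3.enc h2) (kpc02_s.snd h1 h2))))⟩
noncomputable def bd1q0_s : Sl2 bd1q0 := ⟨_, fun h1 h2 => (pr_norm (pr_sub (pr_scale 123237 100000 h1) (pr_cmul (enc_norm (enc_subr 13 32 h2)) (pr_nd (pr_scale 1 50000 h1)))))⟩
noncomputable def kp1q0_s : Sl2 kp1q0 := ⟨_, fun h1 h2 => (pr_norm (pr_mul (cv1m_s.snd h1) (bd1q0_s.snd h1 h2)))⟩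
noncomputable def kn1q0_s : Sl2 kn1q0 := ⟨_, fun h1 h2 => (pr_norm (pr_add (pr_cmul (enc_norm (enc_add (enc_pnc _ 1) (enc_mul (mug3.enc h2) (gug.enc h2)))) (kf1q0_s.snd h1 h2)) (pr_cmul (mug3.enc h2) (kp1q0_s.snd h1 h2))))⟩
noncomputable def bd1q1_22_s : Sl2 bd1q1_22 := ⟨_, fun h1 h2 => (pr_scale 13 625 h1)⟩
noncomputable def bd1q1_39_s : Sl2 bd1q1_39 := ⟨_, fun h1 h2 => (pr_cmul (enc_norm (bd1q1_3.enc h1.l h2)) (pr_norm (pr_csub (enc_rat _ 1399 75000) (pr_scale 31 1500 h1))))⟩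
noncomputable def bd1q1_s : Sl2 bd1q1 := ⟨_, fun h1 h2 => (pr_norm (pr_case (pr_subr 4 5 h1) (pr_case (pr_subr 7 10 h1) (pr_add (pr_subr 13907873 2000000 (pr_scale 1530613 200000 h1)) (pr_cmul (enc_norm (bd1q1_3.enc h1.l h2)) (pr_norm (pr_csub (enc_rat _ 3773 200000) (pr_scale 419 20000 h1))))) (pr_add (pr_subr 1390781 200000 (pr_scale 382651 50000 h1)) (pr_cmul (enc_norm (bd1q1_3.enc h1.l h2)) (pr_norm (pr_csub (enc_rat _ 469 25000) (bd1q1_22_s.snd h1 h2)))))) (pr_case (pr_subr 7 8 h1) (pr_add (pr_subr 20861603 3000000 (pr_scale 573973 75000 h1)) (bd1q1_39_s.snd h1 h2)) (pr_case (pr_subr 19 20 h1) (pr_add (pr_subr 6953821 1000000 (pr_scale 191323 25000 h1)) (bd1q1_39_s.snd h1 h2)) (pr_add (pr_subr 3476901 500000 (pr_scale 76529 10000 h1)) (pr_cmul (enc_norm (bd1q1_3.enc h1.l h2)) (pr_norm (pr_csub (enc_rat _ 939 50000) (bd1q1_22_s.snd h1 h2)))))))))⟩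
noncomputable def kp1q1_s : Sl2 kp1q1 := ⟨_, fun h1 h2 => (pr_norm (pr_mul (cv1m_s.snd h1) (bd1q1_s.snd h1 h2)))⟩
noncomputable def kn1q1_s : Sl2 kn1q1 := ⟨_, fun h1 h2 => (pr_norm (pr_add (pr_cmul (enc_norm (enc_add (enc_pnc _ 1) (enc_mul (mug3.enc h2) (gug.enc h2)))) (kf1q1_s.snd h1 h2)) (pr_cmul (mug3.enc h2) (kp1q1_s.snd h1 h2))))⟩
noncomputable def bd1q2_14_s : Sl2 bd1q2_14 := ⟨_, fun h1 h2 => (pr_scale 331 1000 h1)⟩
noncomputable def bd1q2_18_s : Sl2 bd1q2_18 := ⟨_, fun h1 h2 => (pr_cmul (enc_norm (bd1q2_3.enc h1.l h2)) (pr_norm (pr_subr 331 1000 (bd1q2_14_s.snd h1 h2))))⟩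
noncomputable def bd1q2_20_s : Sl2 bd1q2_20 := ⟨_, fun h1 h2 => (pr_scale 191767 30000 h1)⟩
noncomputable def bd1q2_s : Sl2 bd1q2 := ⟨_, fun h1 h2 => (pr_norm (pr_case (pr_subr 11 10 h1) (pr_case (pr_subr 53 50 h1) (pr_case (pr_subr 103 100 h1) (pr_add (pr_subr 63921 10000 (pr_scale 63921 10000 h1)) (bd1q2_18_s.snd h1 h2)) (pr_add (pr_subr 2397089 375000 (bd1q2_20_s.snd h1 h2)) (pr_cmul (enc_norm (bd1q2_3.enc h1.l h2)) (pr_norm (pr_subr 99403 300000 (pr_scale 497 1500 h1)))))) (pr_case (pr_subr 107 100 h1) (pr_add (pr_subr 159813 25000 (pr_scale 2557 400 h1)) (pr_cmul (enc_norm (bd1q2_3.enc h1.l h2)) (pr_norm (pr_subr 33099 100000 (bd1q2_14_s.snd h1 h2))))) (pr_add (pr_subr 1198651 187500 (pr_scale 191783 30000 h1)) (pr_cmul (enc_norm (bd1q2_3.enc h1.l h2)) (pr_norm (pr_subr 99083 300000 (pr_scale 991 3000 h1))))))) (pr_case (pr_subr 231 200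 h1) (pr_case (pr_subr 577 500 h1) (pr_add (pr_subr 86306447 13500000 (pr_scale 107882 16875 h1)) (pr_cmul (enc_norm (bd1q2_3.enc h1.l h2)) (pr_norm (pr_subr 894277 2700000 (pr_scale 4471 13500 h1))))) (pr_add (pr_subr 31963 5000 (pr_scale 31963 5000 h1)) (bd1q2_18_s.snd h1 h2))) (pr_case (pr_subr 5 4 h1) (pr_add (pr_subr 121453163 19000000 (pr_scale 60727 9500 h1)) (pr_cmul (enc_norm (bd1q2_3.enc h1.l h2)) (pr_norm (pr_subr 565837 1900000 (pr_scale 5743 19000 h1))))) (pr_case (pr_subr 27 20 h1) (pr_add (pr_subr 12784329 2000000 (pr_scale 639223 100000 h1)) (pr_cmul (enc_norm (bd1q2_3.enc h1.l h2)) (pr_norm (pr_subr 56471 200000 (pr_scale 2899 10000 h1))))) (pr_add (pr_subr 6392169 1000000 (bd1q2_20_s.snd h1 h2)) (pr_cmul (enc_norm (bd1q2_3.enc h1.l h2)) (pr_norm (pr_subr 27403 100000 (pr_scale 532 1875 h1))))))))))⟩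
noncomputable def kp1q2_s : Sl2 kp1q2 := ⟨_, fun h1 h2 => (pr_norm (pr_mul (cv1p_s.snd h1) (bd1q2_s.snd h1 h2)))⟩
noncomputable def kn1q2_s : Sl2 kn1q2 := ⟨_, fun h1 h2 => (pr_norm (pr_add (pr_cmul (enc_norm (enc_add (enc_pnc _ 1) (enc_mul (mug3.enc h2) (gug.enc h2)))) (kf1q2_s.snd h1 h2)) (pr_cmul (mug3.enc h2) (kp1q2_s.snd h1 h2))))⟩
noncomputable def bd1q3_s : Sl2 bd1q3 := ⟨_, fun h1 h2 => (pr_norm (pr_add (pr_subr 27402723 1000000 (pr_scale 59181 4000 h1)) (pr_cmul (enc_norm (enc_subr 13 32 h2)) (pr_norm (pr_subr 3 100000 (pr_scale 1 50000 h1))))))⟩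
noncomputable def kp1q3_s : Sl2 kp1q3 := ⟨_, fun h1 h2 => (pr_norm (pr_mul (cv1r_s.snd h1) (bd1q3_s.snd h1 h2)))⟩
noncomputable def kn1q3_s : Sl2 kn1q3 := ⟨_, fun h1 h2 => (pr_norm (pr_add (pr_cmul (enc_norm (enc_add (enc_pnc _ 1) (enc_mul (mug3.enc h2) (gug.enc h2)))) (kf1q3_s.snd h1 h2)) (pr_cmul (mug3.enc h2) (kp1q3_s.snd h1 h2))))⟩
noncomputable def bd2q0_s : Sl2 bd2q0 := ⟨_, fun h1 h2 => (pr_norm (pr_add (pr_csub (enc_rat _ 816929 1000000) (pr_scale 1237329 500000 h1)) (pr_cmul (enc_norm (enc_subr 13 32 h2)) (pr_norm (pr_csub (enc_rat _ 1 20000) (pr_scale 1 2500 h1))))))⟩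
noncomputable def kp2q0_s : Sl2 kp2q0 := ⟨_, fun h1 h2 => (pr_norm (pr_mul (cv2m_s.snd h1) (bd2q0_s.snd h1 h2)))⟩
noncomputable def kn2q0_s : Sl2 kn2q0 := ⟨_, fun h1 h2 => (pr_norm (pr_add (pr_cmul (enc_norm (enc_add (enc_pnc _ 1) (enc_mul (mug3.enc h2) (gug.enc h2)))) (kf2q0_s.snd h1 h2)) (pr_cmul (mug3.enc h2) (kp2q0_s.snd h1 h2))))⟩
noncomputable def kp2q1_81_s : Sl2 kp2q1_81 := ⟨_, fun h1 h2 => (pr_csub (enc_pnc _ 1) h1)⟩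
noncomputable def kp2q1_82_s : Sl2 kp2q1_82 := ⟨_, fun h1 h2 => (gsg_s.snd (pr_norm (kp2q1_81_s.snd h1 h2)))⟩
noncomputable def kp2q1_86_s : Sl2 kp2q1_86 := ⟨_, fun h1 h2 => (esg_s.snd (pr_norm (kp2q1_81_s.snd h1 h2)))⟩
noncomputable def kp2q1_94_s : Sl2 kp2q1_94 := ⟨_, fun h1 h2 => (pr_mul (pr_nd (pr_scale 3 4 (pr_sq (pr_norm (kp2q1_81_s.snd h1 h2))))) (pr_nd (pr_inv (kp2q1_82_s.snd h1 h2))))⟩
noncomputable def kp2q1_119_s : Sl2 kp2q1_119 := ⟨_, fun h1 h2 => (pr_mul (cv1m_s.snd h1) (bd1q1_s.snd h1 h2))⟩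
noncomputable def kp2q1_s : Sl2 kp2q1 := ⟨_, fun h1 h2 => (pr_norm (pr_case (pr_subr 17 32 h1) (pr_mul (cv2m_s.snd h1) (pr_norm (pr_add (pr_csub (enc_rat _ 381358697 125000000) (pr_scale 224365197 62500000 h1)) (pr_cmul (enc_norm (kp2q1_4.enc h1.l h2)) (pr_norm (pr_subr 62825169 15625000 (pr_scale 251298801 31250000 h1))))))) (pr_case (pr_subr 21 32 h1) (pr_add (kp2q1_119_s.snd h1 h2) (pr_mul (pr_norm (pr_mul (pr_norm (pr_sub (pr_sub (pr_add (kug_s.snd (pr_norm (kp2q1_81_s.snd h1 h2))) (pr_mul (pr_norm (pr_sub (pr_mul (pr_norm (pr_mul (pr_norm (kp2q1_94_s.snd h1 h2)) (pr_norm (pr_subn 3 (pr_nat 4 (kp2q1_82_s.snd h1 h2)))))) (kp2q1_86_s.snd h1 h2)) (pr_mul (qsg_s.snd (pr_norm (kp2q1_81_s.snd h1 h2))) (pr_norm (pr_sub (pr_half (kp2q1_81_s.snd h1 h2)) (kp2q1_94_s.snd h1 h2)))))) (pr_nd (pr_inv (pr_mul (pr_nd (pr_nat 2 (kp2q1_86_s.snd h1 h2))) (kp2q1_86_s.snd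 h1 h2)))))) (pr_mul (pr_norm (pr_mul (pr_norm (kp2q1_81_s.snd h1 h2)) (kcg_s.snd (pr_norm (pr_sub (pr_scale 3 4 (kp2q1_81_s.snd h1 h2)) (pr_half (kp2q1_82_s.snd h1 h2)))) h2))) (pr_norm (pr_add (pr_cadd (enc_pnc _ 1) (gug_s.snd (pr_norm (kp2q1_81_s.snd h1 h2)))) (pr_nat 2 (kp2q1_82_s.snd h1 h2)))))) (kp2q1_119_s.snd h1 h2))) (pr_norm (pr_sub (cv2m_s.snd h1) (cv1m_s.snd h1))))) (pr_nd (pr_inv (pr_sub (pr_addc (swg_s.snd h1) (enc_rat _ 1 2)) (cv1m_s.snd h1)))))) (pr_mul (cv2m_s.snd h1) (pr_norm (pr_case (pr_subr 4 5 h1) (pr_case (pr_subr 7 10 h1) (pr_add (pr_csub (enc_rat _ 992741889 625000000) (pr_scale 49616251 31250000 h1)) (pr_cmul (enc_norm (kp2q1_4.enc h1.l h2)) (pr_norm (pr_csub (enc_rat _ 100312063 62500000) (pr_scale 4443293 2734375 h1))))) (pr_add (pr_csub (enc_rat _ 397291 250000) (pr_scale 158883 100000 h1)) (pr_cmul (enc_norm (kp2q1_4.enc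 h1.l h2)) (pr_norm (pr_csub (enc_rat _ 3949 2500) (pr_scale 15887 10000 h1)))))) (pr_case (pr_subr 7 8 h1) (pr_add (pr_csub (enc_rat _ 397509 250000) (pr_scale 9937 6250 h1)) (pr_cmul (enc_norm (kp2q1_4.enc h1.l h2)) (pr_norm (pr_csub (enc_rat _ 29143 18750) (pr_scale 5839 3750 h1))))) (pr_case (pr_subr 19 20 h1) (pr_add (pr_csub (enc_rat _ 2386069 1500000) (pr_scale 59651 37500 h1)) (pr_cmul (enc_norm (kp2q1_4.enc h1.l h2)) (pr_norm (pr_csub (enc_rat _ 461353 300000) (pr_scale 11537 7500 h1))))) (pr_add (pr_csub (enc_rat _ 39777 25000) (pr_scale 39777 25000 h1)) (pr_cmul (enc_norm (kp2q1_4.enc h1.l h2)) (pr_norm (pr_csub (enc_rat _ 7649 5000) (pr_scale 7649 5000 h1)))))))))))))⟩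
noncomputable def kn2q1_s : Sl2 kn2q1 := ⟨_, fun h1 h2 => (pr_norm (pr_add (pr_cmul (enc_norm (enc_add (enc_pnc _ 1) (enc_mul (mug3.enc h2) (gug.enc h2)))) (kf2q1_s.snd h1 h2)) (pr_cmul (mug3.enc h2) (kp2q1_s.snd h1 h2))))⟩
noncomputable def kp2q2_12_s : Sl2 kp2q2_12 := ⟨_, fun h1 h2 => (pr_subr 1069633 600000 (pr_scale 4307 3000 h1))⟩
noncomputable def kp2q2_89_s : Sl2 kp2q2_89 := ⟨_, fun h1 h2 => (pr_subn 1 h1)⟩
noncomputable def kp2q2_90_s : Sl2 kp2q2_90 := ⟨_, fun h1 h2 => (gsg_s.snd (pr_norm (kp2q2_89_s.snd h1 h2)))⟩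
noncomputable def kp2q2_94_s : Sl2 kp2q2_94 := ⟨_, fun h1 h2 => (esg_s.snd (pr_norm (kp2q2_89_s.snd h1 h2)))⟩
noncomputable def kp2q2_102_s : Sl2 kp2q2_102 := ⟨_, fun h1 h2 => (pr_mul (pr_nd (pr_scale 3 4 (pr_sq (pr_norm (kp2q2_89_s.snd h1 h2))))) (pr_nd (pr_inv (kp2q2_90_s.snd h1 h2))))⟩
noncomputable def kp2q2_125_s : Sl2 kp2q2_125 := ⟨_, fun h1 h2 => (pr_mul (cv1p_s.snd h1) (bd1q2_s.snd h1 h2))⟩
noncomputable def kp2q2_s : Sl2 kp2q2 := ⟨_, fun h1 h2 => (pr_norm (pr_case (pr_subr 43 32 h1) (pr_mul (cv2p_s.snd h1) (pr_norm (pr_case (pr_subr 11 10 h1) (pr_case (pr_subr 103 100 h1) (pr_add (kp2q2_12_s.snd h1 h2) (pr_cmul (enc_norm (kp2q2_4.enc h1.l h2)) (pr_norm (pr_subr 65617 25000 (pr_scale 2491 1000 h1))))) (pr_case (pr_subr 53 50 h1) (pr_add (kp2q2_12_s.snd h1 h2) (pr_cmul (enc_norm (kp2q2_4.enc h1.l h2)) (pr_norm (pr_subr 262571 100000 (pr_scale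 623 250 h1))))) (pr_add (pr_subr 111419 62500 (pr_scale 28713 20000 h1)) (pr_cmul (enc_norm (kp2q2_4.enc h1.l h2)) (pr_norm (pr_subr 525831 200000 (pr_scale 9981 4000 h1))))))) (pr_case (pr_subr 29 25 h1) (pr_add (pr_subr 2674001 1500000 (pr_scale 86137 60000 h1)) (pr_cmul (enc_norm (kp2q2_4.enc h1.l h2)) (pr_norm (pr_subr 790589 300000 (pr_scale 3001 1200 h1))))) (pr_case (pr_subr 5 4 h1) (pr_add (pr_subr 4010987 2250000 (pr_scale 25841 18000 h1)) (pr_cmul (enc_norm (kp2q2_4.enc h1.l h2)) (pr_norm (pr_subr 2378437 900000 (pr_scale 4513 1800 h1))))) (pr_add (pr_subr 89137153 50000000 (pr_scale 89729803 62500000 h1)) (pr_cmul (enc_norm (kp2q2_4.enc h1.l h2)) (pr_norm (pr_subr 99384281 37500000 (pr_scale 117808781 46875000 h1)))))))))) (pr_case (pr_subr 47 32 h1) (pr_add (kp2q2_125_s.snd h1 h2) (pr_mul (pr_norm (pr_mul (pr_norm (pr_sub (pr_add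 (pr_sub (kug_s.snd (pr_norm (kp2q2_89_s.snd h1 h2))) (pr_mul (pr_norm (pr_sub (pr_mul (pr_norm (pr_mul (pr_norm (kp2q2_102_s.snd h1 h2)) (pr_norm (pr_subn 3 (pr_nat 4 (kp2q2_90_s.snd h1 h2)))))) (kp2q2_94_s.snd h1 h2)) (pr_mul (qsg_s.snd (pr_norm (kp2q2_89_s.snd h1 h2))) (pr_norm (pr_sub (pr_half (kp2q2_89_s.snd h1 h2)) (kp2q2_102_s.snd h1 h2)))))) (pr_nd (pr_inv (pr_mul (pr_nd (pr_nat 2 (kp2q2_94_s.snd h1 h2))) (kp2q2_94_s.snd h1 h2)))))) (pr_mul (pr_norm (pr_mul (pr_norm (kp2q2_89_s.snd h1 h2)) (kcg_s.snd (pr_norm (pr_sub (pr_scale 3 4 (kp2q2_89_s.snd h1 h2)) (pr_half (kp2q2_90_s.snd h1 h2)))) h2))) (pr_norm (pr_sub (pr_csub (enc_pnc _ 1) (gug_s.snd (pr_norm (kp2q2_89_s.snd h1 h2)))) (pr_nat 2 (kp2q2_90_s.snd h1 h2)))))) (kp2q2_125_s.snd h1 h2))) (pr_norm (pr_sub (cv2p_s.snd h1) (cv1p_s.snd h1))))) (pr_nd (pr_inv (pr_sub (pr_subr 1 2 (swg_s.snd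 h1)) (cv1p_s.snd h1)))))) (pr_mul (cv2p_s.snd h1) (pr_norm (pr_add (pr_csub (enc_rat _ 39959864449 625000000) (pr_scale 6734347929 156250000 h1)) (pr_cmul (enc_norm (kp2q2_4.enc h1.l h2)) (pr_norm (pr_csub (enc_rat _ 1021568979 62500000) (pr_scale 21282648 1953125 h1))))))))))⟩
noncomputable def kn2q2_s : Sl2 kn2q2 := ⟨_, fun h1 h2 => (pr_norm (pr_add (pr_cmul (enc_norm (enc_add (enc_pnc _ 1) (enc_mul (mug3.enc h2) (gug.enc h2)))) (kf2q2_s.snd h1 h2)) (pr_cmul (mug3.enc h2) (kp2q2_s.snd h1 h2))))⟩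
noncomputable def bd2q3_s : Sl2 bd2q3 := ⟨_, fun h1 h2 => (pr_norm (pr_add (pr_subr 383384 15625 (pr_scale 191692 15625 h1)) (pr_cmul (enc_norm (enc_subr 13 32 h2)) (pr_norm (pr_subr 1 6250 (pr_scale 1 12500 h1))))))⟩
noncomputable def kpc23_s : Sl2 kpc23 := ⟨_, fun h1 h2 => (pr_norm (pr_mul (pr_norm (pr_add (pr_scale 17 20 (pr_subr 1 2 (swg_s.snd (pr_nd (ycg_s.snd h1))))) (pr_scale 3 20 h1))) (bd2q3_s.snd (pr_nd (ycg_s.snd h1)) h2)))⟩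
noncomputable def knc23_s : Sl2 knc23 := ⟨_, fun h1 h2 => (pr_norm (pr_add (pr_cmul (enc_norm (enc_add (enc_pnc _ 1) (enc_mul (mug3.enc h2) (gug.enc h2)))) (kfc23_s.snd h1 h2)) (pr_cmul (mug3.enc h2) (kpc23_s.snd h1 h2))))⟩
noncomputable def bd3q0_s : Sl2 bd3q0 := ⟨_, fun h1 h2 => (pr_norm (pr_add (pr_csub (enc_rat _ 469421 500000) (pr_scale 1501399 500000 h1)) (pr_cmul (enc_norm (enc_subr 13 32 h2)) (pr_norm (pr_csub (enc_rat _ 7 50000) (pr_scale 11 12500 h1))))))⟩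
noncomputable def kp3q0_s : Sl2 kp3q0 := ⟨_, fun h1 h2 => (pr_norm (pr_mul (cv3m_s.snd h1) (bd3q0_s.snd h1 h2)))⟩
noncomputable def kn3q0_s : Sl2 kn3q0 := ⟨_, fun h1 h2 => (pr_norm (pr_add (pr_cmul (enc_norm (enc_add (enc_pnc _ 1) (enc_mul (mug3.enc h2) (gug.enc h2)))) (kf3q0_s.snd h1 h2)) (pr_cmul (mug3.enc h2) (kp3q0_s.snd h1 h2))))⟩
noncomputable def bd3q1_s : Sl2 bd3q1 := ⟨_, fun h1 h2 => (pr_norm (pr_case (pr_subr 4 5 h1) (pr_case (pr_subr 7 10 h1) (pr_add (pr_csub (enc_rat _ 272317 200000) (pr_scale 68053 50000 h1)) (pr_cmul (enc_norm (bd3q1_3.enc h1.l h2)) (pr_norm (pr_subr 3139 200000 (pr_scale 63 4000 h1))))) (pr_add (pr_csub (enc_rat _ 170241 125000) (pr_scale 27231 20000 h1)) (pr_cmul (enc_norm (bd3q1_3.enc h1.l h2)) (pr_norm (pr_subr 769 50000 (pr_scale 153 10000 h1)))))) (pr_case (pr_subr 7 8 h1) (pr_add (pr_csub (enc_rat _ 255493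 187500) (pr_scale 51091 37500 h1)) (pr_cmul (enc_norm (bd3q1_3.enc h1.l h2)) (pr_norm (pr_subr 2263 150000 (pr_scale 28 1875 h1))))) (pr_case (pr_subr 19 20 h1) (pr_add (pr_csub (enc_rat _ 2045449 1500000) (pr_scale 25567 18750 h1)) (pr_cmul (enc_norm (bd3q1_3.enc h1.l h2)) (pr_norm (pr_subr 4631 300000 (pr_scale 23 1500 h1))))) (pr_add (pr_csub (enc_rat _ 34119 25000) (pr_scale 34119 25000 h1)) (pr_cmul (enc_norm (bd3q1_3.enc h1.l h2)) (pr_norm (pr_subr 87 5000 (pr_scale 87 5000 h1)))))))))⟩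
noncomputable def kp3q1_s : Sl2 kp3q1 := ⟨_, fun h1 h2 => (pr_norm (pr_mul (cv3m_s.snd h1) (bd3q1_s.snd h1 h2)))⟩
noncomputable def kn3q1_s : Sl2 kn3q1 := ⟨_, fun h1 h2 => (pr_norm (pr_add (pr_cmul (enc_norm (enc_add (enc_pnc _ 1) (enc_mul (mug3.enc h2) (gug.enc h2)))) (kf3q1_s.snd h1 h2)) (pr_cmul (mug3.enc h2) (kp3q1_s.snd h1 h2))))⟩
noncomputable def bd3q2_8_s : Sl2 bd3q2_8 := ⟨_, fun h1 h2 => (pr_scale 301 75 h1)⟩
noncomputable def bd3q2_12_s : Sl2 bd3q2_12 := ⟨_, fun h1 h2 => (pr_scale 1 3000 h1)⟩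
noncomputable def bd3q2_31_s : Sl2 bd3q2_31 := ⟨_, fun h1 h2 => (pr_csub (enc_rat _ 721591 150000) (bd3q2_8_s.snd h1 h2))⟩
noncomputable def bd3q2_s : Sl2 bd3q2 := ⟨_, fun h1 h2 => (pr_norm (pr_case (pr_subr 29 25 h1) (pr_case (pr_subr 53 50 h1) (pr_add (pr_csub (enc_rat _ 14431819 3000000) (bd3q2_8_s.snd h1 h2)) (pr_cmul (enc_norm (bd3q2_3.enc h1.l h2)) (pr_norm (pr_subr 17 37500 (bd3q2_12_s.snd h1 h2))))) (pr_case (pr_subr 11 10 h1) (pr_add (pr_csub (enc_rat _ 1924239 400000) (pr_scale 160533 40000 h1)) (pr_cmul (enc_norm (bd3q2_3.enc h1.l h2)) (pr_norm (pr_subr 73 200000 (pr_scale 1 4000 h1))))) (pr_add (bd3q2_31_s.snd h1 h2) (pr_cmul (enc_norm (bd3q2_3.enc h1.l h2)) (pr_norm (pr_subr 137 300000 (bd3q2_12_s.snd h1 h2))))))) (pr_case (pr_subr 5 4 h1) (pr_add (bd3q2_31_s.snd h1 h2) (pr_cmul (enc_norm (bd3q2_3.enc h1.l h2)) (pr_norm (pr_subr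 59 180000 (pr_scale 1 4500 h1))))) (pr_case (pr_subr 27 20 h1) (pr_add (pr_csub (enc_rat _ 962123 200000) (pr_scale 200667 50000 h1)) (pr_cmul (enc_norm (bd3q2_3.enc h1.l h2)) (pr_norm (pr_subr 17 40000 (pr_scale 3 10000 h1))))) (pr_add (pr_csub (enc_rat _ 2405303 500000) (bd3q2_8_s.snd h1 h2)) (pr_cmul (enc_norm (bd3q2_3.enc h1.l h2)) (pr_norm (pr_subr 19 50000 (pr_scale 1 3750 h1)))))))))⟩
noncomputable def kp3q2_s : Sl2 kp3q2 := ⟨_, fun h1 h2 => (pr_norm (pr_mul (cv3p_s.snd h1) (bd3q2_s.snd h1 h2)))⟩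
noncomputable def kn3q2_s : Sl2 kn3q2 := ⟨_, fun h1 h2 => (pr_norm (pr_add (pr_cmul (enc_norm (enc_add (enc_pnc _ 1) (enc_mul (mug3.enc h2) (gug.enc h2)))) (kf3q2_s.snd h1 h2)) (pr_cmul (mug3.enc h2) (kp3q2_s.snd h1 h2))))⟩
noncomputable def bd3q3_s : Sl2 bd3q3 := ⟨_, fun h1 h2 => (pr_norm (pr_add (pr_subr 1755801 250000 (pr_scale 1755801 500000 h1)) (pr_cmul (enc_norm (enc_subr 13 32 h2)) (pr_norm (pr_csub (enc_rat _ 3 25000) (pr_scale 3 50000 h1))))))⟩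
noncomputable def kpc33_s : Sl2 kpc33 := ⟨_, fun h1 h2 => (pr_norm (pr_mul (pr_norm (pr_add (pr_half (pr_subr 1 2 (swg_s.snd (pr_nd (ycg_s.snd h1))))) (pr_half h1))) (bd3q3_s.snd (pr_nd (ycg_s.snd h1)) h2)))⟩
noncomputable def knc33_s : Sl2 knc33 := ⟨_, fun h1 h2 => (pr_norm (pr_add (pr_cmul (enc_norm (enc_add (enc_pnc _ 1) (enc_mul (mug3.enc h2) (gug.enc h2)))) (kfc33_s.snd h1 h2)) (pr_cmul (mug3.enc h2) (kpc33_s.snd h1 h2))))⟩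
noncomputable def kp4q0_s : Sl2 kp4q0 := ⟨_, fun h1 h2 => (pr_norm (pr_mul h1 (pr_norm (pr_add (pr_csub (enc_rat _ 4803 15625) (pr_scale 847611 200000 h1)) (pr_cmul (enc_norm (enc_subr 13 32 h2)) (pr_norm (pr_subr 119 100000 (pr_neg (pr_scale 595679 100000 h1)))))))))⟩
noncomputable def kn4q0_s : Sl2 kn4q0 := ⟨_, fun h1 h2 => (pr_norm (pr_add (pr_cmul (enc_norm (enc_add (enc_pnc _ 1) (enc_mul (mug3.enc h2) (gug.enc h2)))) (kf4q0_s.snd h1 h2)) (pr_cmul (mug3.enc h2) (kp4q0_s.snd h1 h2))))⟩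
noncomputable def kp4q1_s : Sl2 kp4q1 := ⟨_, fun h1 h2 => (pr_norm (pr_mul (pr_norm (pr_subn 1 h1)) (pr_norm (pr_add (pr_csub (enc_rat _ 4803 15625) (pr_scale 847611 200000 h1)) (pr_cmul (enc_norm (enc_subr 13 32 h2)) (pr_norm (pr_subr 119 100000 (pr_neg (pr_scale 595679 100000 h1)))))))))⟩
noncomputable def kn4q1_s : Sl2 kn4q1 := ⟨_, fun h1 h2 => (pr_norm (pr_add (pr_cmul (enc_norm (enc_add (enc_pnc _ 1) (enc_mul (mug3.enc h2) (gug.enc h2)))) (kf4q1_s.snd h1 h2)) (pr_cmul (mug3.enc h2) (kp4q1_s.snd h1 h2))))⟩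
noncomputable def kp4q2_9_s : Sl2 kp4q2_9 := ⟨_, fun h1 h2 => (pr_sub (pr_half (c3g_s.snd h1)) (pr_scale 1 4 h1))⟩
noncomputable def kp4q2_s : Sl2 kp4q2 := ⟨_, fun h1 h2 => (pr_norm (pr_mul (pr_norm (pr_subn 1 h1)) (pr_norm (pr_add (pr_subr 773177 2000000 (pr_scale 8634503 1000000 (kp4q2_9_s.snd h1 h2))) (pr_cmul (enc_norm (enc_subr 13 32 h2)) (pr_norm (pr_addc (pr_scale 595833 100000 (kp4q2_9_s.snd h1 h2)) (enc_rat _ 595763 200000))))))))⟩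
noncomputable def kn4q2_s : Sl2 kn4q2 := ⟨_, fun h1 h2 => (pr_norm (pr_add (pr_cmul (enc_norm (enc_add (enc_pnc _ 1) (enc_mul (mug3.enc h2) (gug.enc h2)))) (kf4q2_s.snd h1 h2)) (pr_cmul (mug3.enc h2) (kp4q2_s.snd h1 h2))))⟩
noncomputable def kpc43_9_s : Sl2 kpc43_9 := ⟨_, fun h1 h2 => (pr_sub (pr_half h1) (pr_scale 1 4 (ycg_s.snd h1)))⟩
noncomputable def kpc43_s : Sl2 kpc43 := ⟨_, fun h1 h2 => (pr_norm (pr_mul (pr_norm (pr_subn 2 (ycg_s.snd h1))) (pr_norm (pr_add (pr_subr 773177 2000000 (pr_scale 8634503 1000000 (kpc43_9_s.snd h1 h2))) (pr_cmul (enc_norm (enc_subr 13 32 h2)) (pr_norm (pr_addc (pr_scale 595833 100000 (kpc43_9_s.snd h1 h2)) (enc_rat _ 595763 200000))))))))⟩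
noncomputable def knc43_s : Sl2 knc43 := ⟨_, fun h1 h2 => (pr_norm (pr_add (pr_cmul (enc_norm (enc_add (enc_pnc _ 1) (enc_mul (mug3.enc h2) (gug.enc h2)))) (kfc43_s.snd h1 h2)) (pr_cmul (mug3.enc h2) (kpc43_s.snd h1 h2))))⟩
noncomputable def gN0q0 : Gn := ⟨ndN0q0, c1g_s, kn0q0_s, l0q0_s, false⟩
noncomputable def gN0q1 : Gn := ⟨ndN0q1, c1g_s, kn0q1_s, l0q1_s, false⟩
noncomputable def gN0q2 : Gn := ⟨ndN0q2, idf_s, knc02_s, lc02_s, true⟩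
noncomputable def gN1q0 : Gn := ⟨ndN1q0, cv1m_s, kn1q0_s, l1q0_s, false⟩
noncomputable def gN1q1 : Gn := ⟨ndN1q1, cv1m_s, kn1q1_s, l1q1_s, false⟩
noncomputable def gN1q2 : Gn := ⟨ndN1q2, cv1p_s, kn1q2_s, l1q2_s, false⟩
noncomputable def gN1q3 : Gn := ⟨ndN1q3, cv1r_s, kn1q3_s, l1q3_s, false⟩
noncomputable def gN2q0 : Gn := ⟨ndN2q0, cv2m_s, kn2q0_s, l2q0_s, false⟩
noncomputable def gN2q1 : Gn := ⟨ndN2q1, cv2m_s, kn2q1_s, l2q1_s, false⟩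
noncomputable def gN2q2 : Gn := ⟨ndN2q2, cv2p_s, kn2q2_s, l2q2_s, false⟩
noncomputable def gN2q3 : Gn := ⟨ndN2q3, xc23_s, knc23_s, lc23_s, false⟩
noncomputable def gN3q0 : Gn := ⟨ndN3q0, cv3m_s, kn3q0_s, l3q0_s, false⟩
noncomputable def gN3q1 : Gn := ⟨ndN3q1, cv3m_s, kn3q1_s, l3q1_s, false⟩
noncomputable def gN3q2 : Gn := ⟨ndN3q2, cv3p_s, kn3q2_s, l3q2_s, false⟩
noncomputable def gN3q3 : Gn := ⟨ndN3q3, xc33_s, knc33_s, lc33_s, false⟩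
noncomputable def gN4q0 : Gn := ⟨ndN4q0, c3g_s, kn4q0_s, l4q0_s, false⟩
noncomputable def gN4q1 : Gn := ⟨ndN4q1, c3g_s, kn4q1_s, l4q1_s, false⟩
noncomputable def gN4q2 : Gn := ⟨ndN4q2, c3g_s, kn4q2_s, l4q2_s, false⟩
noncomputable def gN4q3 : Gn := ⟨ndN4q3, idf_s, knc43_s, lc43_s, false⟩
noncomputable def gN0q3 : Gn := gz
noncomputable def gN (j : Fin 5) (q : ℕ) : Gn :=
  match j, q with
  | 0, 0 => gN0q0
  | 0, 1 => gN0q1
  | 0, 2 => gN0q2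
  | 0, 3 => gN0q3
  | 1, 0 => gN1q0
  | 1, 1 => gN1q1
  | 1, 2 => gN1q2
  | 1, 3 => gN1q3
  | 2, 0 => gN2q0
  | 2, 1 => gN2q1
  | 2, 2 => gN2q2
  | 2, 3 => gN2q3
  | 3, 0 => gN3q0
  | 3, 1 => gN3q1
  | 3, 2 => gN3q2
  | 3, 3 => gN3q3
  | 4, 0 => gN4q0
  | 4, 1 => gN4q1
  | 4, 2 => gN4q2
  | 4, 3 => gN4q3
  | _, _ => gN0q0

noncomputable def c0F : Fn1 := ⟨fun _ => pone, fun _ => 1, fun _ => enc_one _⟩
noncomputable def c0N : Fn1 := c0n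

end Pool.Agent.Strip051.G.I3_8_7_16.Tab
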