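import Pool.Agent.Strip051.PB.MolN
import Pool.Agent.Strip051.G.I3_8_7_16.Tab

/-! # The tight charts of a table: data (generated) -/

set_option linter.all false

namespace Pool.Agent.Strip051.G.I3_8_7_16.Tab.Mo

open Pool.Agent.Strip051.PB Pool.Agent.Strip051.PB.Mol
open Pool.Agent.Strip051.G.I3_8_7_16.Tab

noncomputable def dq : Fn3 :=
  dqK2 (dqQ (lnF true 2600041076827 2887725000000 false 276856073 57754500 13 32) (lnF true 537241 500000 false 371 160 13 32)) (lnF true 190632005437 17910873668750000 true 902647370507 14328698935000000 13 32) (lnF false 1129569 250000 true 25151 12500 13 32) true 4 25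

noncomputable def mL : Fn2 :=
  exH2 (exQ (exC (lnF false 103987 5000000 false 61687 400000 13 32)) (lnF false 136613 250000 true 3607 20000 13 32) false) (lnF true 109 7500000 true 3 80000 13 32) (lnF true 15821 500000 true 5027 5000 13 32) false 1 20

noncomputable def mR : Fn2 :=
  exH2 (exQ (exC (lnF true 561729 10000000 true 8181 16000 13 32)) (lnF true 258471 500000 false 4169 4000 13 32) true) (lnF false 1027 50000000 false 3281 30000000 13 32) (lnF false 42609 500000 false 275183 100000 13 32) true 1 20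

noncomputable def kp : Fn2 :=
  plA (lnF false 3930663 1000000 false 297899 50000 13 32) (lnF false 3291403 400000 false 74061 5000 13 32) false 1 2

noncomputable def kb : Fn2 :=
  plA (lnF true 3930663 1000000 true 297899 50000 13 32) (lnF true 5182340523541 570000000000 true 6059033900023 570000000000 13 32) false 1 2

noncomputable def rK1 : Fn2 :=
  scH (exC (lnF true 279 400 true 4259 3000 13 32)) (lnF false 10061 30000 false 47 750 13 32) 3 100

noncomputable def rX1 : Fn2 :=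
  scH (exC (lnF true 553 15000 true 172 375 13 32)) (lnF false 1169 15000 true 317 3000 13 32) 3 100

noncomputable def rD1 : Fn2 :=
  scH (exC (lnF false 63921 10000 false 331 1000 13 32)) (lnF false 1 7500 false 1 3000 13 32) 3 100

noncomputable def sk1 : MolS :=
  stK 1 1 2 rK1 rX1 rD1

noncomputable def sp : MolS :=
  stP kcg mL mR kp

noncomputable def sm : MolS :=
  stM kcg mR kb

noncomputable def sK_Ap : Fn3 :=
  sl0 (slF (w3W false) cv1p (w3K false 1 kcg) kf1q2)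

noncomputable def sX_Ap : Fn3 :=
  sl0 (slF (w3W false) cv1p (w3Q false kcg) l1q2)

noncomputable def sD_Ap : Fn3 :=
  sl0 (slF (w3W false) cv1p (w3D false 1 kcg) kp1q2)

noncomputable def T_Ap : MolT :=
  ⟨kcg, dq, sp, 2, sK_Ap, sX_Ap, sD_Ap, 0, 1, 0, 1⟩

noncomputable def sk_Ap : List Fn3 := [skP true 33554432, skM true 33554432]

noncomputable def cx_Ap : List Fn3 :=
  [f3A sp.xs (tCC (w3W false) cv1p),
    f3A sp.xs (tCC cv2p (w3W false)),
    f3A sp.xs (tCX cv2p)]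

noncomputable def c0_Ap : Cht := k0Ap (T_Ap.a true) sk_Ap cx_Ap

noncomputable def c1_Ap : Cht := k1Ap (T_Ap.a true) sk_Ap cx_Ap

noncomputable def sK_Apk1 : Fn3 :=
  sl0 (slF (w3W false) cv1p (w3K false 1 kcg) kf1q2)

noncomputable def sX_Apk1 : Fn3 :=
  sl0 (slF (w3W false) cv1p (w3Q false kcg) l1q2)

noncomputable def sD_Apk1 : Fn3 :=
  sl0 (slF (w3W false) cv1p (w3D false 1 kcg) kp1q2)

noncomputable def T_Apk1 : MolT :=
  ⟨kcg, dq, sk1, 2, sK_Apk1, sX_Apk1, sD_Apk1, 0, 1, 0, 1⟩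

noncomputable def sk_Apk1 : List Fn3 := [skP true 33554432, skM true 33554432]

noncomputable def cx_Apk1 : List Fn3 :=
  [f3A sk1.xs (tCC (w3W false) cv1p),
    f3A sk1.xs (tCC cv2p (w3W false)),
    f3A sk1.xs (tCX cv2p)]

noncomputable def c0_Apk1 : Cht := k0Ap (T_Apk1.a true) sk_Apk1 cx_Apk1

noncomputable def c1_Apk1 : Cht := k1Ap (T_Apk1.a true) sk_Apk1 cx_Apk1

noncomputable def sK_Am : Fn3 :=
  sl0 (slF (w3W false) cv1p (w3K false 1 kcg) kf1q2)

noncomputable def sX_Am : Fn3 :=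
  sl0 (slF (w3W false) cv1p (w3Q false kcg) l1q2)

noncomputable def sD_Am : Fn3 :=
  sl0 (slF (w3W false) cv1p (w3D false 1 kcg) kp1q2)

noncomputable def T_Am : MolT :=
  ⟨kcg, dq, sm, 2, sK_Am, sX_Am, sD_Am, 0, 1, 0, 1⟩

noncomputable def sk_Am : List Fn3 := [skP true 33554432, skM true 33554432]

noncomputable def cx_Am : List Fn3 :=
  [f3A sm.xs (tCC (w3W false) cv1p),
    f3A sm.xs (tCC cv2p (w3W false)),
    f3A sm.xs (tXC cv1p)]

noncomputable def c0_Am : Cht := k0Am (T_Am.a false) sk_Am cx_Am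

noncomputable def c1_Am : Cht := k1Am (T_Am.a false) sk_Am cx_Am

noncomputable def sK_Bp : Fn3 :=
  sl0 (slF (w3W true) cv1m (w3K true 1 kcg) kf1q1)

noncomputable def sX_Bp : Fn3 :=
  sl0 (slF (w3W true) cv1m (w3Q true kcg) l1q1)

noncomputable def sD_Bp : Fn3 :=
  sl0 (slF (w3W true) cv1m (w3D true 1 kcg) kp1q1)

noncomputable def T_Bp : MolT :=
  ⟨kcg, dq, sp, 1, sK_Bp, sX_Bp, sD_Bp, 0, 1, 0, 1⟩

noncomputable def sk_Bp : List Fn3 := [skP false 33554432, skM false 33554432]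

noncomputable def cx_Bp : List Fn3 :=
  [f3B sp.xs (tCC (w3W true) cv1m),
    f3B sp.xs (tCC cv2m (w3W true)),
    f3B sp.xs (tXC cv1m)]

noncomputable def c0_Bp : Cht := k0Bp (T_Bp.b true) sk_Bp cx_Bp

noncomputable def c1_Bp : Cht := k1Bp (T_Bp.b true) sk_Bp cx_Bp

noncomputable def sK_Bpk1 : Fn3 :=
  sl0 (slF (w3W true) cv1m (w3K true 1 kcg) kf1q1)

noncomputable def sX_Bpk1 : Fn3 :=
  sl0 (slF (w3W true) cv1m (w3Q true kcg) l1q1)

noncomputable def sD_Bpk1 : Fn3 :=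
  sl0 (slF (w3W true) cv1m (w3D true 1 kcg) kp1q1)

noncomputable def T_Bpk1 : MolT :=
  ⟨kcg, dq, sk1, 1, sK_Bpk1, sX_Bpk1, sD_Bpk1, 0, 1, 0, 1⟩

noncomputable def sk_Bpk1 : List Fn3 := [skP false 33554432, skM false 33554432]

noncomputable def cx_Bpk1 : List Fn3 :=
  [f3B sk1.xs (tCC (w3W true) cv1m),
    f3B sk1.xs (tCC cv2m (w3W true)),
    f3B sk1.xs (tXC cv1m)]

noncomputable def c0_Bpk1 : Cht := k0Bp (T_Bpk1.b true) sk_Bpk1 cx_Bpk1

noncomputable def c1_Bpk1 : Cht := k1Bp (T_Bpk1.b true) sk_Bpk1 cx_Bpk1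

noncomputable def sK_Bm : Fn3 :=
  sl1 (slF (w3W true) cv1m (w3K true 1 kcg) kf1q1) (sgF cv2m cv3m kf2q1 kf3q1) (hgR (w3W true) cv2m)

noncomputable def sX_Bm : Fn3 :=
  sl1 (slF (w3W true) cv1m (w3Q true kcg) l1q1) (sgF cv2m cv3m l2q1 l3q1) (hgR (w3W true) cv2m)

noncomputable def sD_Bm : Fn3 :=
  sl1 (slF (w3W true) cv1m (w3D true 1 kcg) kp1q1) (sgF cv2m cv3m kp2q1 kp3q1) (hgR (w3W true) cv2m)

noncomputable def T_Bm : MolT :=
  ⟨kcg, dq, sm, 1, sK_Bm, sX_Bm, sD_Bm, 0, 1, 0, 1⟩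

noncomputable def sk_Bm : List Fn3 := [skP false 33554432, skM false 33554432]

noncomputable def cx_Bm : List Fn3 :=
  [f3B sm.xs (tCC (w3W true) cv1m),
    f3B sm.xs (tCC cv2m (w3W true)),
    f3B sm.xs (tCX cv3m)]

noncomputable def c0_Bm : Cht := k0Bm (T_Bm.b false) sk_Bm cx_Bm

noncomputable def c1_Bm : Cht := k1Bm (T_Bm.b false) sk_Bm cx_Bm

end Pool.Agent.Strip051.G.I3_8_7_16.Tab.Mo
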