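import Pool.Agent.Strip051.PB.StripC
import Pool.Agent.Strip051.G.I3_8_7_16.Fact

/-! # Facts about the strips of a table (generated) -/

set_option linter.all false
set_option maxRecDepth 4000

namespace Pool.Agent.Strip051.G.I3_8_7_16.Tab.St

open Pool.Agent.Strip051.PB Pool.Agent.StripNear Pool.Agent.Strip051.LC
open Pool.Agent.Strip051.G.I3_8_7_16.Tab

noncomputable def sl1 : Fn1 := ⟨_, _, fun h1 => (enc_norm (enc_add (enc_scale 1527263 2000000 (enc_subr 13 32 h1)) (enc_rat _ 36038243 20000000)))⟩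
noncomputable def sv1 : Fn1 := ⟨_, _, fun h1 => (enc_norm (enc_sub (enc_rat _ 26632673 40000000) (enc_scale 3255747 4000000 (enc_subr 13 32 h1))))⟩
noncomputable def sw1 : Fn1 := ⟨_, _, fun h1 => (enc_norm (enc_add (enc_scale 23077 100000 (enc_subr 13 32 h1)) (enc_rat _ 3297 1000000)))⟩
noncomputable def sl2 : Fn1 := ⟨_, _, fun h1 => (enc_norm (enc_add (enc_scale 2665133 2500000 (enc_subr 13 32 h1)) (enc_rat _ 26919961 15000000)))⟩
noncomputable def sv2 : Fn1 := ⟨_, _, fun h1 => (enc_norm (enc_sub (enc_rat _ 265675097 400000000) (enc_scale 149175777 200000000 (enc_subr 13 32 h1))))⟩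
noncomputable def sw2 : Fn1 := ⟨_, _, fun h1 => (enc_norm (enc_subr 953 200000 (enc_scale 56673 100000 (enc_subr 13 32 h1))))⟩
noncomputable def sl3 : Fn1 := ⟨_, _, fun h1 => (enc_norm (enc_subr 3644918 1171875 (enc_scale 27757379 3750000 (enc_subr 13 32 h1))))⟩
noncomputable def sv3 : Fn1 := ⟨_, _, fun h1 => (enc_norm (enc_subr 2922870131 10000000000 (enc_scale 489613399 1000000000 (enc_subr 13 32 h1))))⟩
noncomputable def sw3 : Fn1 := ⟨_, _, fun h1 => (enc_norm (enc_subr 6293213 1000000 (enc_scale 868977 100000 (enc_subr 13 32 h1))))⟩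
noncomputable def sl4 : Fn1 := ⟨_, _, fun h1 => (enc_norm (enc_subr 48917671 15000000 (enc_scale 1166113 93750 (enc_subr 13 32 h1))))⟩
noncomputable def sv4 : Fn1 := ⟨_, _, fun h1 => (enc_norm (enc_subr 3171771179 10000000000 (enc_scale 660341121 500000000 (enc_subr 13 32 h1))))⟩
noncomputable def sw4 : Fn1 := ⟨_, _, fun h1 => (enc_norm (enc_subr 6521769 1000000 (enc_scale 816031 50000 (enc_subr 13 32 h1))))⟩
noncomputable def sl5 : Fn1 := ⟨_, _, fun h1 => (enc_norm (enc_subr 132519883850951 38198300000000 (enc_scale 2111741663433 477478750000 (enc_subr 13 32 h1))))⟩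
noncomputable def sv5 : Fn1 := ⟨_, _, fun h1 => (enc_norm (enc_subr 13188656704243 38198300000000 (enc_scale 28469759511 119369687500 (enc_subr 13 32 h1))))⟩
noncomputable def sw5 : Fn1 := ⟨_, _, fun h1 => (enc_norm (enc_subr 6907111 1000000 (enc_scale 18463 12500 (enc_subr 13 32 h1))))⟩
noncomputable def sl6 : Fn1 := ⟨_, _, fun h1 => (enc_norm (enc_subr 2600041076827 2887725000000 (enc_scale 276856073 57754500 (enc_subr 13 32 h1))))⟩
noncomputable def sv6 : Fn1 := ⟨_, _, fun h1 => (enc_norm (enc_subr 180230354611 2887725000000 (enc_scale 3227059987 11550900000 (enc_subr 13 32 h1))))⟩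
noncomputable def sw6 : Fn1 := ⟨_, _, fun h1 => (enc_norm (enc_subr 537241 500000 (enc_scale 371 160 (enc_subr 13 32 h1))))⟩
noncomputable def sl7 : Fn1 := ⟨_, _, fun h1 => (enc_norm (enc_add (enc_scale 4632917684857 1116435000000 (enc_subr 13 32 h1)) (enc_rat _ 3044857137187 5582175000000)))⟩
noncomputable def sv7 : Fn1 := ⟨_, _, fun h1 => (enc_norm (enc_add (enc_scale 127194343259 558217500000 (enc_subr 13 32 h1)) (enc_rat _ 297270842863 5582175000000)))⟩
noncomputable def sw7 : Fn1 := ⟨_, _, fun h1 => (enc_norm (enc_add (enc_scale 30667 100000 (enc_subr 13 32 h1)) (enc_rat _ 1721897 500000)))⟩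
noncomputable def sl8 : Fn1 := ⟨_, _, fun h1 => (enc_norm (enc_subr 8856310262207 5484540000000 (enc_neg (enc_scale 698958342369 228522500000 (enc_subr 13 32 h1)))))⟩
noncomputable def sv8 : Fn1 := ⟨_, _, fun h1 => (enc_norm (enc_subr 650882029561 10969080000000 (enc_neg (enc_scale 67572309587 457045000000 (enc_subr 13 32 h1)))))⟩
noncomputable def sw8 : Fn1 := ⟨_, _, fun h1 => (enc_norm (enc_subr 1383613 200000 (enc_neg (enc_scale 856713 25000 (enc_subr 13 32 h1)))))⟩
noncomputable def sl9 : Fn1 := ⟨_, _, fun h1 => (enc_norm (enc_add (enc_scale 68197093 70000000 (enc_subr 13 32 h1)) (enc_rat _ 2260017 7000000)))⟩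
noncomputable def sv9 : Fn1 := ⟨_, _, fun h1 => (enc_norm (enc_sub (enc_rat _ 847939 100000000) (enc_scale 6700969 1000000000 (enc_subr 13 32 h1))))⟩
noncomputable def sw9 : Fn1 := ⟨_, _, fun h1 => (enc_norm (enc_sub (enc_rat _ 34611 5000) (enc_scale 273081 50000 (enc_subr 13 32 h1))))⟩
noncomputable def sl10 : Fn1 := ⟨_, _, fun h1 => (enc_norm (enc_subr 5659 35000 (enc_scale 4749 3500 (enc_subr 13 32 h1))))⟩
noncomputable def sv10 : Fn1 := ⟨_, _, fun h1 => (enc_pnc _ 0)⟩
noncomputable def sl11 : Fn1 := ⟨_, _, fun h1 => (enc_norm (enc_add (enc_scale 68197093 70000000 (enc_subr 13 32 h1)) (enc_rat _ 2260017 7000000)))⟩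
noncomputable def sv11 : Fn1 := ⟨_, _, fun h1 => (enc_norm (enc_subr 847939 100000000 (enc_scale 6700969 1000000000 (enc_subr 13 32 h1))))⟩
noncomputable def sw11 : Fn1 := ⟨_, _, fun h1 => (enc_norm (enc_subr 34611 5000 (enc_scale 273081 50000 (enc_subr 13 32 h1))))⟩
noncomputable def sl12 : Fn1 := ⟨_, _, fun h1 => (enc_norm (enc_subr 8856310262207 5484540000000 (enc_neg (enc_scale 698958342369 228522500000 (enc_subr 13 32 h1)))))⟩
noncomputable def sv12 : Fn1 := ⟨_, _, fun h1 => (enc_norm (enc_add (enc_scale 67572309587 457045000000 (enc_subr 13 32 h1)) (enc_rat _ 650882029561 10969080000000)))⟩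
noncomputable def sw12 : Fn1 := ⟨_, _, fun h1 => (enc_norm (enc_add (enc_scale 856713 25000 (enc_subr 13 32 h1)) (enc_rat _ 1383613 200000)))⟩
noncomputable def sl13 : Fn1 := ⟨_, _, fun h1 => (enc_norm (enc_add (enc_scale 4632917684857 1116435000000 (enc_subr 13 32 h1)) (enc_rat _ 3044857137187 5582175000000)))⟩
noncomputable def sv13 : Fn1 := ⟨_, _, fun h1 => (enc_norm (enc_subr 297270842863 5582175000000 (enc_neg (enc_scale 127194343259 558217500000 (enc_subr 13 32 h1)))))⟩
noncomputable def sw13 : Fn1 := ⟨_, _, fun h1 => (enc_norm (enc_subr 1721897 500000 (enc_neg (enc_scale 30667 100000 (enc_subr 13 32 h1)))))⟩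
noncomputable def sl14 : Fn1 := ⟨_, _, fun h1 => (enc_norm (enc_subr 2600041076827 2887725000000 (enc_scale 276856073 57754500 (enc_subr 13 32 h1))))⟩
noncomputable def sv14 : Fn1 := ⟨_, _, fun h1 => (enc_norm (enc_sub (enc_rat _ 180230354611 2887725000000) (enc_scale 3227059987 11550900000 (enc_subr 13 32 h1))))⟩
noncomputable def sw14 : Fn1 := ⟨_, _, fun h1 => (enc_norm (enc_sub (enc_rat _ 537241 500000) (enc_scale 371 160 (enc_subr 13 32 h1))))⟩
noncomputable def sl15 : Fn1 := ⟨_, _, fun h1 => (enc_norm (enc_subr 132519883850951 38198300000000 (enc_scale 2111741663433 477478750000 (enc_subr 13 32 h1))))⟩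
noncomputable def sv15 : Fn1 := ⟨_, _, fun h1 => (enc_norm (enc_sub (enc_rat _ 13188656704243 38198300000000) (enc_scale 28469759511 119369687500 (enc_subr 13 32 h1))))⟩
noncomputable def sw15 : Fn1 := ⟨_, _, fun h1 => (enc_norm (enc_sub (enc_rat _ 6907111 1000000) (enc_scale 18463 12500 (enc_subr 13 32 h1))))⟩
noncomputable def sl16 : Fn1 := ⟨_, _, fun h1 => (enc_norm (enc_subr 48917671 15000000 (enc_scale 1166113 93750 (enc_subr 13 32 h1))))⟩
noncomputable def sv16 : Fn1 := ⟨_, _, fun h1 => (enc_norm (enc_sub (enc_rat _ 3171771179 10000000000) (enc_scale 660341121 500000000 (enc_subr 13 32 h1))))⟩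
noncomputable def sw16 : Fn1 := ⟨_, _, fun h1 => (enc_norm (enc_sub (enc_rat _ 6521769 1000000) (enc_scale 816031 50000 (enc_subr 13 32 h1))))⟩
noncomputable def sl17 : Fn1 := ⟨_, _, fun h1 => (enc_norm (enc_subr 3644918 1171875 (enc_scale 27757379 3750000 (enc_subr 13 32 h1))))⟩
noncomputable def sv17 : Fn1 := ⟨_, _, fun h1 => (enc_norm (enc_sub (enc_rat _ 2922870131 10000000000) (enc_scale 489613399 1000000000 (enc_subr 13 32 h1))))⟩
noncomputable def sw17 : Fn1 := ⟨_, _, fun h1 => (enc_norm (enc_sub (enc_rat _ 6293213 1000000) (enc_scale 868977 100000 (enc_subr 13 32 h1))))⟩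
noncomputable def sl18 : Fn1 := ⟨_, _, fun h1 => (enc_norm (enc_add (enc_scale 2665133 2500000 (enc_subr 13 32 h1)) (enc_rat _ 26919961 15000000)))⟩
noncomputable def sv18 : Fn1 := ⟨_, _, fun h1 => (enc_norm (enc_subr 265675097 400000000 (enc_scale 149175777 200000000 (enc_subr 13 32 h1))))⟩
noncomputable def sw18 : Fn1 := ⟨_, _, fun h1 => (enc_norm (enc_sub (enc_rat _ 953 200000) (enc_scale 56673 100000 (enc_subr 13 32 h1))))⟩
noncomputable def sl19 : Fn1 := ⟨_, _, fun h1 => (enc_norm (enc_add (enc_scale 1527263 2000000 (enc_subr 13 32 h1)) (enc_rat _ 36038243 20000000)))⟩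
noncomputable def sv19 : Fn1 := ⟨_, _, fun h1 => (enc_norm (enc_subr 26632673 40000000 (enc_scale 3255747 4000000 (enc_subr 13 32 h1))))⟩
noncomputable def sw19 : Fn1 := ⟨_, _, fun h1 => (enc_norm (enc_subr 3297 1000000 (enc_neg (enc_scale 23077 100000 (enc_subr 13 32 h1)))))⟩
noncomputable def sl38 : Fn1 := ⟨_, _, fun h1 => (enc_norm (enc_sub (enc_rat _ 2836247 5000000) (enc_scale 10453 400000 (enc_subr 13 32 h1))))⟩
noncomputable def sv38 : Fn1 := ⟨_, _, fun h1 => (enc_norm (enc_add (enc_scale 25617 800000 (enc_subr 13 32 h1)) (enc_rat _ 1470117 10000000)))⟩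
noncomputable def sw38 : Fn1 := ⟨_, _, fun h1 => (enc_norm (enc_sub (enc_rat _ 136613 250000) (enc_scale 3607 20000 (enc_subr 13 32 h1))))⟩
noncomputable def sl39 : Fn1 := ⟨_, _, fun h1 => (enc_norm (enc_sub (enc_rat _ 2020339 3750000) (enc_scale 93103 100000 (enc_subr 13 32 h1))))⟩
noncomputable def sv39 : Fn1 := ⟨_, _, fun h1 => (enc_norm (enc_sub (enc_rat _ 28119531 200000000) (enc_scale 1372713 8000000 (enc_subr 13 32 h1))))⟩
noncomputable def sw39 : Fn1 := ⟨_, _, fun h1 => (enc_norm (enc_sub (enc_rat _ 51481 100000) (enc_scale 4743 4000 (enc_subr 13 32 h1))))⟩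
noncomputable def sl40 : Fn1 := ⟨_, _, fun h1 => (enc_norm (enc_sub (enc_rat _ 865687 1875000) (enc_scale 2243 25000 (enc_subr 13 32 h1))))⟩
noncomputable def sv40 : Fn1 := ⟨_, _, fun h1 => (enc_norm (enc_sub (enc_rat _ 251150113 2000000000) (enc_scale 300723 40000000 (enc_subr 13 32 h1))))⟩
noncomputable def sw40 : Fn1 := ⟨_, _, fun h1 => (enc_norm (enc_sub (enc_rat _ 83199 200000) (enc_scale 429 4000 (enc_subr 13 32 h1))))⟩
noncomputable def sl41 : Fn1 := ⟨_, _, fun h1 => (enc_norm (enc_sub (enc_rat _ 3130739 7500000) (enc_scale 376627 1500000 (enc_subr 13 32 h1))))⟩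
noncomputable def sv41 : Fn1 := ⟨_, _, fun h1 => (enc_norm (enc_sub (enc_rat _ 591343661 5000000000) (enc_scale 34166323 1000000000 (enc_subr 13 32 h1))))⟩
noncomputable def sw41 : Fn1 := ⟨_, _, fun h1 => (enc_norm (enc_sub (enc_rat _ 174471 500000) (enc_scale 35153 100000 (enc_subr 13 32 h1))))⟩
noncomputable def sl42_2 : Fn1 := ⟨_, _, fun h1 => (enc_subr 13 32 h1)⟩
noncomputable def sl42 : Fn1 := ⟨_, _, fun h1 => (enc_norm (enc_sub (enc_add (enc_scale 553336538683 477478750000 (sl42_2.enc h1)) (enc_rat _ 3723937415693 19099150000000)) (enc_scale 33191 9850 (enc_sq (enc_norm (sl42_2.enc h1))))))⟩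
noncomputable def sv42_2 : Fn1 := ⟨_, _, fun h1 => (enc_subr 13 32 h1)⟩
noncomputable def sv42 : Fn1 := ⟨_, _, fun h1 => (enc_norm (enc_sub (enc_add (enc_scale 1193122771829 7639660000000 (sv42_2.enc h1)) (enc_rat _ 6775008755071 76396600000000)) (enc_scale 896157 985000 (enc_sq (enc_norm (sv42_2.enc h1))))))⟩
noncomputable def sw42 : Fn1 := ⟨_, _, fun h1 => (enc_norm (enc_subr 4319 62500 (enc_scale 112977 50000 (enc_subr 13 32 h1))))⟩
noncomputable def sl44_2 : Fn1 := ⟨_, _, fun h1 => (enc_subr 13 32 h1)⟩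
noncomputable def sl44 : Fn1 := ⟨_, _, fun h1 => (enc_norm (enc_add (enc_subr 15680754211 137113500000 (enc_scale 19069651819 342783750000 (sl44_2.enc h1))) (enc_scale 70483 40375 (enc_sq (enc_norm (sl44_2.enc h1))))))⟩
noncomputable def sv44_2 : Fn1 := ⟨_, _, fun h1 => (enc_subr 13 32 h1)⟩
noncomputable def sv44 : Fn1 := ⟨_, _, fun h1 => (enc_norm (enc_add (enc_add (enc_scale 38236262723 2742270000000 (sv44_2.enc h1)) (enc_rat _ 172178825411 2193816000000)) (enc_scale 493381 4037500 (enc_sq (enc_norm (sv44_2.enc h1))))))⟩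
noncomputable def sw44 : Fn1 := ⟨_, _, fun h1 => (enc_norm (enc_subr 35821 20000 (enc_scale 13117 25000 (enc_subr 13 32 h1))))⟩
noncomputable def sl45 : Fn1 := ⟨_, _, fun h1 => (enc_norm (enc_subr 17255949 175000000 (enc_scale 138557 2000000 (enc_subr 13 32 h1))))⟩
noncomputable def sv45 : Fn1 := ⟨_, _, fun h1 => (enc_norm (enc_add (enc_scale 2884633 200000000 (enc_subr 13 32 h1)) (enc_rat _ 197740517 2500000000)))⟩
noncomputable def sw45 : Fn1 := ⟨_, _, fun h1 => (enc_norm (enc_subr 211367 125000 (enc_scale 6217 10000 (enc_subr 13 32 h1))))⟩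
noncomputable def sl46 : Fn1 := ⟨_, _, fun h1 => (enc_norm (enc_subr 397 70000 (enc_scale 313 7000 (enc_subr 13 32 h1))))⟩
noncomputable def sv46 : Fn1 := ⟨_, _, fun h1 => (enc_norm (enc_add (enc_scale 13994299 1000000000 (enc_subr 13 32 h1)) (enc_rat _ 322888161 4000000000)))⟩
noncomputable def sw46 : Fn1 := ⟨_, _, fun h1 => (enc_norm (enc_subr 36289 100000 (enc_scale 6749 25000 (enc_subr 13 32 h1))))⟩
noncomputable def sl47 : Fn1 := ⟨_, _, fun h1 => (enc_norm (enc_add (enc_scale 2307021 70000000 (enc_subr 13 32 h1)) (enc_rat _ 25962449 350000000)))⟩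
noncomputable def sv47 : Fn1 := ⟨_, _, fun h1 => (enc_norm (enc_add (enc_scale 14200993 1000000000 (enc_subr 13 32 h1)) (enc_rat _ 396622517 5000000000)))⟩
noncomputable def sw47 : Fn1 := ⟨_, _, fun h1 => (enc_norm (enc_subr 375867 250000 (enc_scale 21857 50000 (enc_subr 13 32 h1))))⟩
noncomputable def sl48 : Fn1 := ⟨_, _, fun h1 => (enc_norm (enc_add (enc_scale 3546763527 66875000000 (enc_subr 13 32 h1)) (enc_rat _ 1321505763 20898437500)))⟩
noncomputable def sv48 : Fn1 := ⟨_, _, fun h1 => (enc_norm (enc_add (enc_scale 180520380247 13375000000000 (enc_subr 13 32 h1)) (enc_rat _ 5330488484463 66875000000000)))⟩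
noncomputable def sw48 : Fn1 := ⟨_, _, fun h1 => (enc_norm (enc_subr 712721 500000 (enc_scale 29401 100000 (enc_subr 13 32 h1))))⟩
noncomputable def sl49 : Fn1 := ⟨_, _, fun h1 => (enc_norm (enc_subr 25483777331 106250000000 (enc_scale 152713745907 871250000000 (enc_subr 13 32 h1))))⟩
noncomputable def sv49 : Fn1 := ⟨_, _, fun h1 => (enc_norm (enc_add (enc_scale 38824642093 5445312500000 (enc_subr 13 32 h1)) (enc_rat _ 126841918537 1328125000000)))⟩
noncomputable def sw49 : Fn1 := ⟨_, _, fun h1 => (enc_norm (enc_sub (enc_rat _ 14181 500000) (enc_scale 29277 100000 (enc_subr 13 32 h1))))⟩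
noncomputable def sl50 : Fn1 := ⟨_, _, fun h1 => (enc_norm (enc_subr 46370214176987 150550000000000 (enc_scale 2363756950777 7527500000000 (enc_subr 13 32 h1))))⟩
noncomputable def sv50 : Fn1 := ⟨_, _, fun h1 => (enc_norm (enc_sub (enc_rat _ 94994586703487 940937500000000) (enc_scale 186213794777 47046875000000 (enc_subr 13 32 h1))))⟩
noncomputable def sw50 : Fn1 := ⟨_, _, fun h1 => (enc_norm (enc_sub (enc_rat _ 241347 1000000) (enc_scale 36337 50000 (enc_subr 13 32 h1))))⟩
noncomputable def sl51 : Fn1 := ⟨_, _, fun h1 => (enc_norm (enc_subr 25113970804291 124450000000000 (enc_neg (enc_scale 291917408859 6222500000000 (enc_subr 13 32 h1)))))⟩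
noncomputable def sv51 : Fn1 := ⟨_, _, fun h1 => (enc_norm (enc_add (enc_scale 22276019188693 622250000000000 (enc_subr 13 32 h1)) (enc_rat _ 1110868338641357 12445000000000000)))⟩
noncomputable def sw51 : Fn1 := ⟨_, _, fun h1 => (enc_norm (enc_add (enc_scale 4621 50000 (enc_subr 13 32 h1)) (enc_rat _ 229 1000000)))⟩
noncomputable def sl52 : Fn1 := ⟨_, _, fun h1 => (enc_norm (enc_subr 1111477 5000000 (enc_neg (enc_scale 232927 1500000 (enc_subr 13 32 h1)))))⟩
noncomputable def sv52 : Fn1 := ⟨_, _, fun h1 => (enc_norm (enc_add (enc_scale 50398523 1000000000 (enc_subr 13 32 h1)) (enc_rat _ 920309669 10000000000)))⟩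
noncomputable def sw52 : Fn1 := ⟨_, _, fun h1 => (enc_norm (enc_add (enc_scale 29353 100000 (enc_subr 13 32 h1)) (enc_rat _ 38159 1000000)))⟩
noncomputable def sl53 : Fn1 := ⟨_, _, fun h1 => (enc_norm (enc_subr 15112619 37500000 (enc_neg (enc_scale 29963 1875000 (enc_subr 13 32 h1)))))⟩
noncomputable def sv53 : Fn1 := ⟨_, _, fun h1 => (enc_norm (enc_add (enc_scale 13711153 500000000 (enc_subr 13 32 h1)) (enc_rat _ 304615741 2500000000)))⟩
noncomputable def sw53 : Fn1 := ⟨_, _, fun h1 => (enc_norm (enc_add (enc_scale 4119 50000 (enc_subr 13 32 h1)) (enc_rat _ 77993 250000)))⟩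
noncomputable def sl54 : Fn1 := ⟨_, _, fun h1 => (enc_norm (enc_subr 6204977 12500000 (enc_scale 2819713 937500 (enc_subr 13 32 h1))))⟩
noncomputable def sv54 : Fn1 := ⟨_, _, fun h1 => (enc_norm (enc_sub (enc_rat _ 70028031 500000000) (enc_scale 7027513 12500000 (enc_subr 13 32 h1))))⟩
noncomputable def sw54 : Fn1 := ⟨_, _, fun h1 => (enc_norm (enc_sub (enc_rat _ 107931 250000) (enc_scale 23713 6250 (enc_subr 13 32 h1))))⟩
noncomputable def sl55 : Fn1 := ⟨_, _, fun h1 => (enc_norm (enc_subr 5731149 10000000 (enc_scale 1699 3200 (enc_subr 13 32 h1))))⟩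
noncomputable def sv55 : Fn1 := ⟨_, _, fun h1 => (enc_norm (enc_sub (enc_rat _ 3146439 20000000) (enc_scale 157 32000 (enc_subr 13 32 h1))))⟩
noncomputable def sw55 : Fn1 := ⟨_, _, fun h1 => (enc_norm (enc_sub (enc_rat _ 258471 500000) (enc_scale 4169 4000 (enc_subr 13 32 h1))))⟩
noncomputable def skf0 : Fn2 := ⟨_, _, fun h1 h2 => (enc_norm (enc_add (bf1q0.enc h1 h2) (enc_mul (enc_norm (enc_sub (enc_mul (c1g.enc h1) (bf1q0.enc h1 h2)) (kf0q0.enc h1 h2))) (enc_inv (enc_sub (cv1m.enc h1) (c1g.enc h1))))))⟩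
noncomputable def sxf0 : Fn2 := ⟨_, _, fun h1 h2 => (enc_norm (enc_mul (enc_norm (enc_sub (l1q0.enc h1 h2) (l0q0.enc h1 h2))) (enc_inv (enc_sub (cv1m.enc h1) (c1g.enc h1)))))⟩
noncomputable def skl0 : Fn2 := ⟨_, _, fun h1 h2 => (enc_norm (enc_add (bf3q0.enc h1 h2) (enc_mul (enc_norm (enc_sub (kf4q0.enc h1 h2) (enc_mul (c3g.enc h1) (bf3q0.enc h1 h2)))) (enc_inv (enc_sub (c3g.enc h1) (cv3m.enc h1))))))⟩
noncomputable def sxl0 : Fn2 := ⟨_, _, fun h1 h2 => (enc_norm (enc_mul (enc_norm (enc_sub (l4q0.enc h1 h2) (l3q0.enc h1 h2))) (enc_inv (enc_sub (c3g.enc h1) (cv3m.enc h1)))))⟩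
noncomputable def skf1 : Fn2 := ⟨_, _, fun h1 h2 => (enc_norm (enc_add (bf1q1.enc h1 h2) (enc_mul (enc_norm (enc_sub (enc_mul (c1g.enc h1) (bf1q1.enc h1 h2)) (kf0q1.enc h1 h2))) (enc_inv (enc_sub (cv1m.enc h1) (c1g.enc h1))))))⟩
noncomputable def sxf1 : Fn2 := ⟨_, _, fun h1 h2 => (enc_norm (enc_mul (enc_norm (enc_sub (l1q1.enc h1 h2) (l0q1.enc h1 h2))) (enc_inv (enc_sub (cv1m.enc h1) (c1g.enc h1)))))⟩
noncomputable def skl1 : Fn2 := ⟨_, _, fun h1 h2 => (enc_norm (enc_add (bf3q1.enc h1 h2) (enc_mul (enc_norm (enc_sub (kf4q1.enc h1 h2) (enc_mul (c3g.enc h1) (bf3q1.enc h1 h2)))) (enc_inv (enc_sub (c3g.enc h1) (cv3m.enc h1))))))⟩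
noncomputable def sxl1 : Fn2 := ⟨_, _, fun h1 h2 => (enc_norm (enc_mul (enc_norm (enc_sub (l4q1.enc h1 h2) (l3q1.enc h1 h2))) (enc_inv (enc_sub (c3g.enc h1) (cv3m.enc h1)))))⟩
noncomputable def skf2 : Fn2 := ⟨_, _, fun h1 h2 => (enc_norm (enc_add (bf1q2.enc h1 h2) (enc_mul (enc_norm (enc_add (enc_mul (c1g.enc h1) (enc_norm (enc_subn 1 (bf1q2.enc h1 h2)))) (enc_mul (enc_norm (enc_subn 1 h1)) (kcg.enc (c1g.enc h1) h2)))) (enc_inv (enc_sub (cv1p.enc h1) (c1g.enc h1))))))⟩
noncomputable def sxf2 : Fn2 := ⟨_, _, fun h1 h2 => (enc_norm (enc_mul (enc_norm (enc_sub (l1q2.enc h1 h2) (l0q2.enc h1 h2))) (enc_inv (enc_sub (cv1p.enc h1) (c1g.enc h1)))))⟩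
noncomputable def skl2 : Fn2 := ⟨_, _, fun h1 h2 => (enc_norm (enc_add (bf3q2.enc h1 h2) (enc_mul (enc_norm (enc_sub (kf4q2.enc h1 h2) (enc_mul (c3g.enc h1) (bf3q2.enc h1 h2)))) (enc_inv (enc_sub (c3g.enc h1) (cv3p.enc h1))))))⟩
noncomputable def sxl2 : Fn2 := ⟨_, _, fun h1 h2 => (enc_norm (enc_mul (enc_norm (enc_sub (l4q2.enc h1 h2) (l3q2.enc h1 h2))) (enc_inv (enc_sub (c3g.enc h1) (cv3p.enc h1)))))⟩
noncomputable def skl3 : Fn2 := ⟨_, _, fun h1 h2 => (enc_norm (enc_add (bf3q3.enc h1 h2) (enc_mul (enc_norm (enc_sub (kf4q3.enc h1 h2) (enc_mul (c3g.enc h1) (bf3q3.enc h1 h2)))) (enc_inv (enc_sub (c3g.enc h1) (cv3r.enc h1))))))⟩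
noncomputable def sxl3 : Fn2 := ⟨_, _, fun h1 h2 => (enc_norm (enc_mul (enc_norm (enc_sub (l4q3.enc h1 h2) (l3q3.enc h1 h2))) (enc_inv (enc_sub (c3g.enc h1) (cv3r.enc h1)))))⟩
noncomputable def rhk : Fn2 := ⟨_, _, fun h1 h2 => (enc_norm (enc_mul (enc_norm (enc_sub (bf1q2.enc h1 h2) (n0b.enc h1 h2))) (enc_norm (enc_mul (cv1p.enc h1) (enc_inv (enc_sub (cv1p.enc h1) (c1g.enc h1)))))))⟩
noncomputable def rhx : Fn2 := ⟨_, _, fun h1 h2 => (enc_norm (enc_mul (enc_norm (enc_sub (bx1q2.enc h1 h2) (n0x.enc h1 h2))) (enc_norm (enc_mul (cv1p.enc h1) (enc_inv (enc_sub (cv1p.enc h1) (c1g.enc h1)))))))⟩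
noncomputable def sbk : Fn1 := ⟨_, _, fun h1 => (enc_norm (enc_subr 3 13300 (enc_scale 83 16625 (enc_subr 13 32 h1))))⟩
noncomputable def sbx : Fn1 := ⟨_, _, fun h1 => (enc_norm (enc_add (enc_scale 67791 33250 (enc_subr 13 32 h1)) (enc_rat _ 768503 665000)))⟩
noncomputable def k0c : Fn1 := ⟨_, _, fun h1 => (enc_norm (enc_subr 5659 35000 (enc_scale 4749 3500 (enc_subr 13 32 h1))))⟩
noncomputable def m0c : Fn1 := ⟨_, _, fun h1 => (enc_norm (enc_sub (enc_rat _ 397 35000) (enc_scale 313 3500 (enc_subr 13 32 h1))))⟩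
noncomputable def sl73_2 : Fn1 := ⟨_, _, fun h1 => (enc_subr 13 32 h1)⟩
noncomputable def sl73 : Fn1 := ⟨_, _, fun h1 => (enc_norm (enc_sub (enc_sub (enc_rat _ 4113532529597027 11997431250000000) (enc_scale 13919080391133719 98378936250000000 (sl73_2.enc h1))) (enc_scale 70483 40375 (enc_sq (enc_norm (sl73_2.enc h1))))))⟩
noncomputable def sv73_2 : Fn1 := ⟨_, _, fun h1 => (enc_subr 13 32 h1)⟩
noncomputable def sv73 : Fn1 := ⟨_, _, fun h1 => (enc_norm (enc_sub (enc_sub (enc_rat _ 2917225168128401 171391875000000000) (enc_scale 2393899954975643 351353343750000000 (sv73_2.enc h1))) (enc_scale 493381 4037500 (enc_sq (enc_norm (sv73_2.enc h1))))))⟩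
noncomputable def sw73 : Fn1 := ⟨_, _, fun h1 => (enc_norm (enc_sub (enc_rat _ 454853 250000) (enc_scale 16349 20000 (enc_subr 13 32 h1))))⟩
noncomputable def sl74_2 : Fn1 := ⟨_, _, fun h1 => (enc_subr 13 32 h1)⟩
noncomputable def sl74 : Fn1 := ⟨_, _, fun h1 => (enc_norm (enc_sub (enc_sub (enc_rat _ 12768504187328119 320931285937500000) (enc_scale 2469742286995903 128372514375000000 (sl74_2.enc h1))) (enc_scale 70483 40375 (enc_sq (enc_norm (sl74_2.enc h1))))))⟩
noncomputable def sv74_2 : Fn1 := ⟨_, _, fun h1 => (enc_subr 13 32 h1)⟩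
noncomputable def sv74 : Fn1 := ⟨_, _, fun h1 => (enc_norm (enc_sub (enc_sub (enc_rat _ 1403531059922311 1146183164062500000) (enc_scale 1637439078018431 3667786125000000000 (sv74_2.enc h1))) (enc_scale 493381 4037500 (enc_sq (enc_norm (sv74_2.enc h1))))))⟩
noncomputable def sw74 : Fn1 := ⟨_, _, fun h1 => (enc_norm (enc_sub (enc_rat _ 45701 125000) (enc_scale 23067 100000 (enc_subr 13 32 h1))))⟩
noncomputable def sl75 : Fn1 := ⟨_, _, fun h1 => (enc_norm (enc_sub (enc_rat _ 654207 50000000) (enc_scale 224129 17500000 (enc_subr 13 32 h1))))⟩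
noncomputable def sv75 : Fn1 := ⟨_, _, fun h1 => (enc_norm (enc_sub (enc_rat _ 1141483 5000000000) (enc_scale 55543 250000000 (enc_subr 13 32 h1))))⟩
noncomputable def sw75 : Fn1 := ⟨_, _, fun h1 => (enc_norm (enc_sub (enc_rat _ 46867 250000) (enc_scale 2307 12500 (enc_subr 13 32 h1))))⟩
noncomputable def sl76 : Fn1 := ⟨_, _, fun h1 => (enc_pnc _ 0)⟩
noncomputable def sv76 : Fn1 := ⟨_, _, fun h1 => (enc_pnc _ 0)⟩
noncomputable def sl77 : Fn1 := ⟨_, _, fun h1 => (enc_norm (enc_sub (enc_rat _ 654207 50000000) (enc_scale 224129 17500000 (enc_subr 13 32 h1))))⟩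
noncomputable def sv77 : Fn1 := ⟨_, _, fun h1 => (enc_norm (enc_subr 1141483 5000000000 (enc_scale 55543 250000000 (enc_subr 13 32 h1))))⟩
noncomputable def sw77 : Fn1 := ⟨_, _, fun h1 => (enc_norm (enc_subr 46867 250000 (enc_scale 2307 12500 (enc_subr 13 32 h1))))⟩
noncomputable def sl78_2 : Fn1 := ⟨_, _, fun h1 => (enc_subr 13 32 h1)⟩
noncomputable def sl78 : Fn1 := ⟨_, _, fun h1 => (enc_norm (enc_sub (enc_sub (enc_rat _ 12768504187328119 320931285937500000) (enc_scale 2469742286995903 128372514375000000 (sl78_2.enc h1))) (enc_scale 70483 40375 (enc_sq (enc_norm (sl78_2.enc h1))))))⟩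
noncomputable def sv78_2 : Fn1 := ⟨_, _, fun h1 => (enc_subr 13 32 h1)⟩
noncomputable def sv78 : Fn1 := ⟨_, _, fun h1 => (enc_norm (enc_add (enc_subr 1403531059922311 1146183164062500000 (enc_scale 1637439078018431 3667786125000000000 (sv78_2.enc h1))) (enc_scale 493381 4037500 (enc_sq (enc_norm (sv78_2.enc h1))))))⟩
noncomputable def sw78 : Fn1 := ⟨_, _, fun h1 => (enc_norm (enc_subr 45701 125000 (enc_scale 23067 100000 (enc_subr 13 32 h1))))⟩
noncomputable def sl79_2 : Fn1 := ⟨_, _, fun h1 => (enc_subr 13 32 h1)⟩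
noncomputable def sl79 : Fn1 := ⟨_, _, fun h1 => (enc_norm (enc_sub (enc_sub (enc_rat _ 4113532529597027 11997431250000000) (enc_scale 13919080391133719 98378936250000000 (sl79_2.enc h1))) (enc_scale 70483 40375 (enc_sq (enc_norm (sl79_2.enc h1))))))⟩
noncomputable def sv79_2 : Fn1 := ⟨_, _, fun h1 => (enc_subr 13 32 h1)⟩
noncomputable def sv79 : Fn1 := ⟨_, _, fun h1 => (enc_norm (enc_add (enc_subr 2917225168128401 171391875000000000 (enc_scale 2393899954975643 351353343750000000 (sv79_2.enc h1))) (enc_scale 493381 4037500 (enc_sq (enc_norm (sv79_2.enc h1))))))⟩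
noncomputable def sw79 : Fn1 := ⟨_, _, fun h1 => (enc_norm (enc_subr 454853 250000 (enc_scale 16349 20000 (enc_subr 13 32 h1))))⟩
noncomputable def kqf : Fn2 := ⟨_, _, fun h1 h2 => (enc_norm (enc_mul (enc_norm (enc_subn 1 h1)) (enc_norm (enc_case (enc_subr 7 200 (c1g.enc h1)) (enc_subr 5659 35000 (enc_scale 4749 3500 (enc_subr 13 32 h2))) (enc_mul (kcg.enc (c1g.enc h1) h2) (enc_inv (c1g.enc h1)))))))⟩
noncomputable def skm : Fn2 := ⟨_, _, fun h1 h2 => (enc_norm (enc_sub (enc_mul (enc_norm (enc_mul (cv1p.enc h1) (enc_inv (enc_sub (cv1p.enc h1) (c1g.enc h1))))) (enc_norm (enc_add (enc_subn 1 (bf1q2.enc h1 h2)) (kqf.enc h1 h2)))) (kqf.enc h1 h2)))⟩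
noncomputable def dt1 : DT := .quad sw1 sl1 sv1
noncomputable def dt2 : DT := .quad sw2 sl2 sv2
noncomputable def dt3 : DT := .quad sw3 sl3 sv3
noncomputable def dt4 : DT := .quad sw4 sl4 sv4
noncomputable def dt5 : DT := .quad sw5 sl5 sv5
noncomputable def dt6 : DT := .quad sw6 sl6 sv6
noncomputable def dt7 : DT := .quad sw7 sl7 sv7
noncomputable def dt8 : DT := .quad sw8 sl8 sv8
noncomputable def dt9 : DT := .quad sw9 sl9 sv9
noncomputable def dt10 : DT := .lin sl10 sv10
noncomputable def dt11 : DT := .quad sw11 sl11 sv11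
noncomputable def dt12 : DT := .quad sw12 sl12 sv12
noncomputable def dt13 : DT := .quad sw13 sl13 sv13
noncomputable def dt14 : DT := .quad sw14 sl14 sv14
noncomputable def dt15 : DT := .quad sw15 sl15 sv15
noncomputable def dt16 : DT := .quad sw16 sl16 sv16
noncomputable def dt17 : DT := .quad sw17 sl17 sv17
noncomputable def dt18 : DT := .quad sw18 sl18 sv18
noncomputable def dt19 : DT := .quad sw19 sl19 sv19
noncomputable def dt20 : DT := .node ((Cn.rt 9 20).ng) dt1 dt2
noncomputable def dt21 : DT := .node ((Cn.rt 33 100).ng) dt3 dt4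
noncomputable def dt22 : DT := .node ((Cn.rt 39 100).ng) dt20 dt21
noncomputable def dt23 : DT := .node ((Cn.rt 61 277).ng) dt5 dt6
noncomputable def dt24 : DT := .node ((Cn.rt 7 100).ng) dt8 dt9
noncomputable def dt25 : DT := .node ((Cn.rt 59 566).ng) dt7 dt24
noncomputable def dt26 : DT := .node ((Cn.rt 4 25).ng) dt23 dt25
noncomputable def dt27 : DT := .node ((Cn.rt 27 100).ng) dt22 dt26
noncomputable def dt28 : DT := .node (Cn.rt 7 200) dt10 dt11
noncomputable def dt29 : DT := .node (Cn.rt 4 25) dt13 dt14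
noncomputable def dt30 : DT := .node (Cn.rt 59 566) dt12 dt29
noncomputable def dt31 : DT := .node (Cn.rt 7 100) dt28 dt30
noncomputable def dt32 : DT := .node (Cn.rt 27 100) dt15 dt16
noncomputable def dt33 : DT := .node (Cn.rt 9 20) dt18 dt19
noncomputable def dt34 : DT := .node (Cn.rt 39 100) dt17 dt33
noncomputable def dt35 : DT := .node (Cn.rt 33 100) dt32 dt34
noncomputable def dt36 : DT := .node (Cn.rt 61 277) dt31 dt35
noncomputable def dt37 : DT := .node ((Cn.rt 7 200).ng) dt27 dt36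
noncomputable def dt38 : DT := .quad sw38 sl38 sv38
noncomputable def dt39 : DT := .quad sw39 sl39 sv39
noncomputable def dt40 : DT := .quad sw40 sl40 sv40
noncomputable def dt41 : DT := .quad sw41 sl41 sv41
noncomputable def dt42 : DT := .quad sw42 sl42 sv42
noncomputable def dt43 : DT := .clo
noncomputable def dt44 : DT := .quad sw44 sl44 sv44
noncomputable def dt45 : DT := .quad sw45 sl45 sv45
noncomputable def dt46 : DT := .quad sw46 sl46 sv46
noncomputable def dt47 : DT := .quad sw47 sl47 sv47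
noncomputable def dt48 : DT := .quad sw48 sl48 sv48
noncomputable def dt49 : DT := .quad sw49 sl49 sv49
noncomputable def dt50 : DT := .quad sw50 sl50 sv50
noncomputable def dt51 : DT := .quad sw51 sl51 sv51
noncomputable def dt52 : DT := .quad sw52 sl52 sv52
noncomputable def dt53 : DT := .quad sw53 sl53 sv53
noncomputable def dt54 : DT := .quad sw54 sl54 sv54
noncomputable def dt55 : DT := .quad sw55 sl55 sv55
noncomputable def dt56 : DT := .node ((Cn.rt 9 20).ng) dt38 dt39
noncomputable def dt57 : DT := .node ((Cn.rt 33 100).ng) dt40 dt41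
noncomputable def dt58 : DT := .node ((Cn.rt 39 100).ng) dt56 dt57
noncomputable def dt59 : DT := .node ((Cn.rt 61 277).ng) dt42 dt43
noncomputable def dt60 : DT := .node ((Cn.rt 7 200).ng) dt45 dt46
noncomputable def dt61 : DT := .node ((Cn.rt 7 100).ng) dt44 dt60
noncomputable def dt62 : DT := .node ((Cn.rt 59 566).ng) dt59 dt61
noncomputable def dt63 : DT := .node ((Cn.rt 27 100).ng) dt58 dt62
noncomputable def dt64 : DT := .node (Cn.rt 7 100) dt47 dt48
noncomputable def dt65 : DT := .node (Cn.rt 4 25) dt49 dt50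
noncomputable def dt66 : DT := .node (Cn.rt 1303 12500) dt64 dt65
noncomputable def dt67 : DT := .node (Cn.rt 27 100) dt51 dt52
noncomputable def dt68 : DT := .node (Cn.rt 9 20) dt54 dt55
noncomputable def dt69 : DT := .node (Cn.rt 39 100) dt53 dt68
noncomputable def dt70 : DT := .node (Cn.rt 33 100) dt67 dt69
noncomputable def dt71 : DT := .node (Cn.rt 11011 50000) dt66 dt70
noncomputable def dt72 : DT := .node (Cn.rt 7 200) dt63 dt71
noncomputable def dt73 : DT := .quad sw73 sl73 sv73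
noncomputable def dt74 : DT := .quad sw74 sl74 sv74
noncomputable def dt75 : DT := .quad sw75 sl75 sv75
noncomputable def dt76 : DT := .lin sl76 sv76
noncomputable def dt77 : DT := .quad sw77 sl77 sv77
noncomputable def dt78 : DT := .quad sw78 sl78 sv78
noncomputable def dt79 : DT := .quad sw79 sl79 sv79
noncomputable def dt80 : DT := .node ((Cn.rt 7 100).ng) dt74 dt75
noncomputable def dt81 : DT := .node ((Cn.rt 1303 12500).ng) dt73 dt80
noncomputable def dt82 : DT := .node (Cn.rt 7 200) dt76 dt77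
noncomputable def dt83 : DT := .node (Cn.rt 1303 12500) dt78 dt79
noncomputable def dt84 : DT := .node (Cn.rt 7 100) dt82 dt83
noncomputable def dt85 : DT := .node ((Cn.rt 7 200).ng) dt81 dt84
noncomputable def dd : SDat := ⟨dt37, kcg, dt72, Kh.T⟩
noncomputable def gf0 : Sg := ⟨cv1m, skf0, sxf0⟩
noncomputable def gf1 : Sg := ⟨cv1m, skf1, sxf1⟩
noncomputable def gf2 : Sg := ⟨cv1p, skf2, sxf2⟩
noncomputable def gf3 : Sg := ⟨cv1r, skf2, sxf2⟩
noncomputable def gl0 : Sg := ⟨cv3m, skl0, sxl0⟩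
noncomputable def gl1 : Sg := ⟨cv3m, skl1, sxl1⟩
noncomputable def gl2 : Sg := ⟨cv3p, skl2, sxl2⟩
noncomputable def gl3 : Sg := ⟨cv3r, skl3, sxl3⟩
noncomputable def vv : Vt := ⟨(Cn.rt 7 200), (Cn.rt 577 500), (Cn.rt 231 200), (Cn.rt 5 4), k0c, m0c, sbk, sbx, rhk, rhx, bf1q2, bx1q2, (Cn.rt 59 566), (Cn.rt 577 500), skm, dt85⟩
noncomputable def ff (q : ℕ) : Sg := match q with
  | 0 => gf0
  | 1 => gf1
  | 2 => gf2
  | _ => gf3
noncomputable def fl (q : ℕ) : Sg := match q with
  | 0 => gl0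
  | 1 => gl1
  | 2 => gl2
  | _ => gl3
noncomputable def tt : STab 4 := ⟨dd, 0, 3, ff, fl, vv⟩
theorem kcl0 {p x : ℝ} (h1 : -1 / 2 ≤ p) (h2 : p ≤ -9 / 20) : kcg.v p x = (26632673 / 40000000 + (x - 13 / 32) * (-3255747 / 4000000)) + (36038243 / 20000000 + (x - 13 / 32) * (1527263 / 2000000)) * p + (3297 / 1000000 + (x - 13 / 32) * (23077 / 100000)) * p ^ 2 := by
  simp only [kcg, kcg_3, kcg_6, kcg_9, kcg_12, kcg_13, kcg_16, kcg_28, kcg_36, kcg_39, kcg_50, kcg_58, kcg_59, kcg_62, kcg_73, kcg_80, kcg_81, kcg_84, kcg_95, kcg_100, kcg_104, kcg_114, kcg_124, kcg_127, kcg_128, kcg_133, kcg_143, kcg_148, kcg_153, kcg_164, kcg_172, kcg_173, kcg_178, kcg_186, kcg_194, kcg_199, kcg_208, kcg_213, kcg_217, kcg_224, kcg_225, kcg_226, kcg_249, kcg_260, kcg_283, kcg_284, kcg_304]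
  rcases eq_or_lt_of_le h1 with h | h1
  · subst h
    ((try push_cast); (repeat first | rw [if_pos (by linarith)] | rw [if_neg (by linarith)] | erw [if_pos (by linarith)] | erw [if_neg (by linarith)]); (try push_cast); (try ring1))
  rcases eq_or_lt_of_le h2 with h | h2
  · subst h
    ((try push_cast); (repeat first | rw [if_pos (by linarith)] | rw [if_neg (by linarith)] | erw [if_pos (by linarith)] | erw [if_neg (by linarith)]); (try push_cast); (try ring1))
  · ((try push_cast); (repeat first | rw [if_pos (by linarith)] | rw [if_neg (by linarith)] | erw [if_pos (by linarith)] | erw [if_neg (by linarith)]); (try push_cast); (try ring1))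
theorem kcl1 {p x : ℝ} (h1 : -9 / 20 ≤ p) (h2 : p ≤ -39 / 100) : kcg.v p x = (265675097 / 400000000 + (x - 13 / 32) * (-149175777 / 200000000)) + (26919961 / 15000000 + (x - 13 / 32) * (2665133 / 2500000)) * p + (-953 / 200000 + (x - 13 / 32) * (56673 / 100000)) * p ^ 2 := by
  simp only [kcg, kcg_3, kcg_6, kcg_9, kcg_12, kcg_13, kcg_16, kcg_28, kcg_36, kcg_39, kcg_50, kcg_58, kcg_59, kcg_62, kcg_73, kcg_80, kcg_81, kcg_84, kcg_95, kcg_100, kcg_104, kcg_114, kcg_124, kcg_127, kcg_128, kcg_133, kcg_143, kcg_148, kcg_153, kcg_164, kcg_172, kcg_173, kcg_178, kcg_186, kcg_194, kcg_199, kcg_208, kcg_213, kcg_217, kcg_224, kcg_225, kcg_226, kcg_249, kcg_260, kcg_283, kcg_284, kcg_304]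
  rcases eq_or_lt_of_le h1 with h | h1
  · subst h
    ((try push_cast); (repeat first | rw [if_pos (by linarith)] | rw [if_neg (by linarith)] | erw [if_pos (by linarith)] | erw [if_neg (by linarith)]); (try push_cast); (try ring1))
  rcases eq_or_lt_of_le h2 with h | h2
  · subst h
    ((try push_cast); (repeat first | rw [if_pos (by linarith)] | rw [if_neg (by linarith)] | erw [if_pos (by linarith)] | erw [if_neg (by linarith)]); (try push_cast); (try ring1))
  · ((try push_cast); (repeat first | rw [if_pos (by linarith)] | rw [if_neg (by linarith)] | erw [if_pos (by linarith)] | erw [if_neg (by linarith)]); (try push_cast); (try ring1))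
theorem kcl2 {p x : ℝ} (h1 : -39 / 100 ≤ p) (h2 : p ≤ -33 / 100) : kcg.v p x = (-2922870131 / 10000000000 + (x - 13 / 32) * (489613399 / 1000000000)) + (-3644918 / 1171875 + (x - 13 / 32) * (27757379 / 3750000)) * p + (-6293213 / 1000000 + (x - 13 / 32) * (868977 / 100000)) * p ^ 2 := by
  simp only [kcg, kcg_3, kcg_6, kcg_9, kcg_12, kcg_13, kcg_16, kcg_28, kcg_36, kcg_39, kcg_50, kcg_58, kcg_59, kcg_62, kcg_73, kcg_80, kcg_81, kcg_84, kcg_95, kcg_100, kcg_104, kcg_114, kcg_124, kcg_127, kcg_128, kcg_133, kcg_143, kcg_148, kcg_153, kcg_164, kcg_172, kcg_173, kcg_178, kcg_186, kcg_194, kcg_199, kcg_208, kcg_213, kcg_217, kcg_224, kcg_225, kcg_226, kcg_249, kcg_260, kcg_283, kcg_284, kcg_304]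
  rcases eq_or_lt_of_le h1 with h | h1
  · subst h
    ((try push_cast); (repeat first | rw [if_pos (by linarith)] | rw [if_neg (by linarith)] | erw [if_pos (by linarith)] | erw [if_neg (by linarith)]); (try push_cast); (try ring1))
  rcases eq_or_lt_of_le h2 with h | h2
  · subst h
    ((try push_cast); (repeat first | rw [if_pos (by linarith)] | rw [if_neg (by linarith)] | erw [if_pos (by linarith)] | erw [if_neg (by linarith)]); (try push_cast); (try ring1))
  · ((try push_cast); (repeat first | rw [if_pos (by linarith)] | rw [if_neg (by linarith)] | erw [if_pos (by linarith)] | erw [if_neg (by linarith)]); (try push_cast); (try ring1))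
theorem kcl3 {p x : ℝ} (h1 : -33 / 100 ≤ p) (h2 : p ≤ -27 / 100) : kcg.v p x = (-3171771179 / 10000000000 + (x - 13 / 32) * (660341121 / 500000000)) + (-48917671 / 15000000 + (x - 13 / 32) * (1166113 / 93750)) * p + (-6521769 / 1000000 + (x - 13 / 32) * (816031 / 50000)) * p ^ 2 := by
  simp only [kcg, kcg_3, kcg_6, kcg_9, kcg_12, kcg_13, kcg_16, kcg_28, kcg_36, kcg_39, kcg_50, kcg_58, kcg_59, kcg_62, kcg_73, kcg_80, kcg_81, kcg_84, kcg_95, kcg_100, kcg_104, kcg_114, kcg_124, kcg_127, kcg_128, kcg_133, kcg_143, kcg_148, kcg_153, kcg_164, kcg_172, kcg_173, kcg_178, kcg_186, kcg_194, kcg_199, kcg_208, kcg_213, kcg_217, kcg_224, kcg_225, kcg_226, kcg_249, kcg_260, kcg_283, kcg_284, kcg_304]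
  rcases eq_or_lt_of_le h1 with h | h1
  · subst h
    ((try push_cast); (repeat first | rw [if_pos (by linarith)] | rw [if_neg (by linarith)] | erw [if_pos (by linarith)] | erw [if_neg (by linarith)]); (try push_cast); (try ring1))
  rcases eq_or_lt_of_le h2 with h | h2
  · subst h
    ((try push_cast); (repeat first | rw [if_pos (by linarith)] | rw [if_neg (by linarith)] | erw [if_pos (by linarith)] | erw [if_neg (by linarith)]); (try push_cast); (try ring1))
  · ((try push_cast); (repeat first | rw [if_pos (by linarith)] | rw [if_neg (by linarith)] | erw [if_pos (by linarith)] | erw [if_neg (by linarith)]); (try push_cast); (try ring1))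
theorem kcl4 {p x : ℝ} (h1 : -27 / 100 ≤ p) (h2 : p ≤ -61 / 277) : kcg.v p x = (-13188656704243 / 38198300000000 + (x - 13 / 32) * (28469759511 / 119369687500)) + (-132519883850951 / 38198300000000 + (x - 13 / 32) * (2111741663433 / 477478750000)) * p + (-6907111 / 1000000 + (x - 13 / 32) * (18463 / 12500)) * p ^ 2 := by
  simp only [kcg, kcg_3, kcg_6, kcg_9, kcg_12, kcg_13, kcg_16, kcg_28, kcg_36, kcg_39, kcg_50, kcg_58, kcg_59, kcg_62, kcg_73, kcg_80, kcg_81, kcg_84, kcg_95, kcg_100, kcg_104, kcg_114, kcg_124, kcg_127, kcg_128, kcg_133, kcg_143, kcg_148, kcg_153, kcg_164, kcg_172, kcg_173, kcg_178, kcg_186, kcg_194, kcg_199, kcg_208, kcg_213, kcg_217, kcg_224, kcg_225, kcg_226, kcg_249, kcg_260, kcg_283, kcg_284, kcg_304]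
  rcases eq_or_lt_of_le h1 with h | h1
  · subst h
    ((try push_cast); (repeat first | rw [if_pos (by linarith)] | rw [if_neg (by linarith)] | erw [if_pos (by linarith)] | erw [if_neg (by linarith)]); (try push_cast); (try ring1))
  rcases eq_or_lt_of_le h2 with h | h2
  · subst h
    ((try push_cast); (repeat first | rw [if_pos (by linarith)] | rw [if_neg (by linarith)] | erw [if_pos (by linarith)] | erw [if_neg (by linarith)]); (try push_cast); (try ring1))
  · ((try push_cast); (repeat first | rw [if_pos (by linarith)] | rw [if_neg (by linarith)] | erw [if_pos (by linarith)] | erw [if_neg (by linarith)]); (try push_cast); (try ring1))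
theorem kcl5 {p x : ℝ} (h1 : -61 / 277 ≤ p) (h2 : p ≤ -4 / 25) : kcg.v p x = (-180230354611 / 2887725000000 + (x - 13 / 32) * (3227059987 / 11550900000)) + (-2600041076827 / 2887725000000 + (x - 13 / 32) * (276856073 / 57754500)) * p + (-537241 / 500000 + (x - 13 / 32) * (371 / 160)) * p ^ 2 := by
  simp only [kcg, kcg_3, kcg_6, kcg_9, kcg_12, kcg_13, kcg_16, kcg_28, kcg_36, kcg_39, kcg_50, kcg_58, kcg_59, kcg_62, kcg_73, kcg_80, kcg_81, kcg_84, kcg_95, kcg_100, kcg_104, kcg_114, kcg_124, kcg_127, kcg_128, kcg_133, kcg_143, kcg_148, kcg_153, kcg_164, kcg_172, kcg_173, kcg_178, kcg_186, kcg_194, kcg_199, kcg_208, kcg_213, kcg_217, kcg_224, kcg_225, kcg_226, kcg_249, kcg_260, kcg_283, kcg_284, kcg_304]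
  rcases eq_or_lt_of_le h1 with h | h1
  · subst h
    ((try push_cast); (repeat first | rw [if_pos (by linarith)] | rw [if_neg (by linarith)] | erw [if_pos (by linarith)] | erw [if_neg (by linarith)]); (try push_cast); (try ring1))
  rcases eq_or_lt_of_le h2 with h | h2
  · subst h
    ((try push_cast); (repeat first | rw [if_pos (by linarith)] | rw [if_neg (by linarith)] | erw [if_pos (by linarith)] | erw [if_neg (by linarith)]); (try push_cast); (try ring1))
  · ((try push_cast); (repeat first | rw [if_pos (by linarith)] | rw [if_neg (by linarith)] | erw [if_pos (by linarith)] | erw [if_neg (by linarith)]); (try push_cast); (try ring1))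
theorem kcl6 {p x : ℝ} (h1 : -4 / 25 ≤ p) (h2 : p ≤ -59 / 566) : kcg.v p x = (297270842863 / 5582175000000 + (x - 13 / 32) * (127194343259 / 558217500000)) + (3044857137187 / 5582175000000 + (x - 13 / 32) * (4632917684857 / 1116435000000)) * p + (1721897 / 500000 + (x - 13 / 32) * (30667 / 100000)) * p ^ 2 := by
  simp only [kcg, kcg_3, kcg_6, kcg_9, kcg_12, kcg_13, kcg_16, kcg_28, kcg_36, kcg_39, kcg_50, kcg_58, kcg_59, kcg_62, kcg_73, kcg_80, kcg_81, kcg_84, kcg_95, kcg_100, kcg_104, kcg_114, kcg_124, kcg_127, kcg_128, kcg_133, kcg_143, kcg_148, kcg_153, kcg_164, kcg_172, kcg_173, kcg_178, kcg_186, kcg_194, kcg_199, kcg_208, kcg_213, kcg_217, kcg_224, kcg_225, kcg_226, kcg_249, kcg_260, kcg_283, kcg_284, kcg_304]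
  rcases eq_or_lt_of_le h1 with h | h1
  · subst h
    ((try push_cast); (repeat first | rw [if_pos (by linarith)] | rw [if_neg (by linarith)] | erw [if_pos (by linarith)] | erw [if_neg (by linarith)]); (try push_cast); (try ring1))
  rcases eq_or_lt_of_le h2 with h | h2
  · subst h
    ((try push_cast); (repeat first | rw [if_pos (by linarith)] | rw [if_neg (by linarith)] | erw [if_pos (by linarith)] | erw [if_neg (by linarith)]); (try push_cast); (try ring1))
  · ((try push_cast); (repeat first | rw [if_pos (by linarith)] | rw [if_neg (by linarith)] | erw [if_pos (by linarith)] | erw [if_neg (by linarith)]); (try push_cast); (try ring1))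
theorem kcl7 {p x : ℝ} (h1 : -59 / 566 ≤ p) (h2 : p ≤ -7 / 100) : kcg.v p x = (-650882029561 / 10969080000000 + (x - 13 / 32) * (-67572309587 / 457045000000)) + (-8856310262207 / 5484540000000 + (x - 13 / 32) * (-698958342369 / 228522500000)) * p + (-1383613 / 200000 + (x - 13 / 32) * (-856713 / 25000)) * p ^ 2 := by
  simp only [kcg, kcg_3, kcg_6, kcg_9, kcg_12, kcg_13, kcg_16, kcg_28, kcg_36, kcg_39, kcg_50, kcg_58, kcg_59, kcg_62, kcg_73, kcg_80, kcg_81, kcg_84, kcg_95, kcg_100, kcg_104, kcg_114, kcg_124, kcg_127, kcg_128, kcg_133, kcg_143, kcg_148, kcg_153, kcg_164, kcg_172, kcg_173, kcg_178, kcg_186, kcg_194, kcg_199, kcg_208, kcg_213, kcg_217, kcg_224, kcg_225, kcg_226, kcg_249, kcg_260, kcg_283, kcg_284, kcg_304]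
  rcases eq_or_lt_of_le h1 with h | h1
  · subst h
    ((try push_cast); (repeat first | rw [if_pos (by linarith)] | rw [if_neg (by linarith)] | erw [if_pos (by linarith)] | erw [if_neg (by linarith)]); (try push_cast); (try ring1))
  rcases eq_or_lt_of_le h2 with h | h2
  · subst h
    ((try push_cast); (repeat first | rw [if_pos (by linarith)] | rw [if_neg (by linarith)] | erw [if_pos (by linarith)] | erw [if_neg (by linarith)]); (try push_cast); (try ring1))
  · ((try push_cast); (repeat first | rw [if_pos (by linarith)] | rw [if_neg (by linarith)] | erw [if_pos (by linarith)] | erw [if_neg (by linarith)]); (try push_cast); (try ring1))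
theorem kcl8 {p x : ℝ} (h1 : -7 / 100 ≤ p) (h2 : p ≤ -7 / 200) : kcg.v p x = (847939 / 100000000 + (x - 13 / 32) * (-6700969 / 1000000000)) + (2260017 / 7000000 + (x - 13 / 32) * (68197093 / 70000000)) * p + (34611 / 5000 + (x - 13 / 32) * (-273081 / 50000)) * p ^ 2 := by
  simp only [kcg, kcg_3, kcg_6, kcg_9, kcg_12, kcg_13, kcg_16, kcg_28, kcg_36, kcg_39, kcg_50, kcg_58, kcg_59, kcg_62, kcg_73, kcg_80, kcg_81, kcg_84, kcg_95, kcg_100, kcg_104, kcg_114, kcg_124, kcg_127, kcg_128, kcg_133, kcg_143, kcg_148, kcg_153, kcg_164, kcg_172, kcg_173, kcg_178, kcg_186, kcg_194, kcg_199, kcg_208, kcg_213, kcg_217, kcg_224, kcg_225, kcg_226, kcg_249, kcg_260, kcg_283, kcg_284, kcg_304]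
  rcases eq_or_lt_of_le h1 with h | h1
  · subst h
    ((try push_cast); (repeat first | rw [if_pos (by linarith)] | rw [if_neg (by linarith)] | erw [if_pos (by linarith)] | erw [if_neg (by linarith)]); (try push_cast); (try ring1))
  rcases eq_or_lt_of_le h2 with h | h2
  · subst h
    ((try push_cast); (repeat first | rw [if_pos (by linarith)] | rw [if_neg (by linarith)] | erw [if_pos (by linarith)] | erw [if_neg (by linarith)]); (try push_cast); (try ring1))
  · ((try push_cast); (repeat first | rw [if_pos (by linarith)] | rw [if_neg (by linarith)] | erw [if_pos (by linarith)] | erw [if_neg (by linarith)]); (try push_cast); (try ring1))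
theorem kcl9 {p x : ℝ} (h1 : -7 / 200 ≤ p) (h2 : p ≤ 7 / 200) : kcg.v p x = (0) + (-5659 / 35000 + (x - 13 / 32) * (4749 / 3500)) * p := by
  simp only [kcg, kcg_3, kcg_6, kcg_9, kcg_12, kcg_13, kcg_16, kcg_28, kcg_36, kcg_39, kcg_50, kcg_58, kcg_59, kcg_62, kcg_73, kcg_80, kcg_81, kcg_84, kcg_95, kcg_100, kcg_104, kcg_114, kcg_124, kcg_127, kcg_128, kcg_133, kcg_143, kcg_148, kcg_153, kcg_164, kcg_172, kcg_173, kcg_178, kcg_186, kcg_194, kcg_199, kcg_208, kcg_213, kcg_217, kcg_224, kcg_225, kcg_226, kcg_249, kcg_260, kcg_283, kcg_284, kcg_304]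
  rcases eq_or_lt_of_le h1 with h | h1
  · subst h
    ((try push_cast); (repeat first | rw [if_pos (by linarith)] | rw [if_neg (by linarith)] | erw [if_pos (by linarith)] | erw [if_neg (by linarith)]); (try push_cast); (try ring1))
  rcases eq_or_lt_of_le h2 with h | h2
  · subst h
    ((try push_cast); (repeat first | rw [if_pos (by linarith)] | rw [if_neg (by linarith)] | erw [if_pos (by linarith)] | erw [if_neg (by linarith)]); (try push_cast); (try ring1))
  rcases lt_trichotomy p 0 with h | h | h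
  · ((try push_cast); (repeat first | rw [if_pos (by linarith)] | rw [if_neg (by linarith)] | erw [if_pos (by linarith)] | erw [if_neg (by linarith)]); (try push_cast); (try ring1))
  · subst h
    ((try push_cast); (repeat first | rw [if_pos (by linarith)] | rw [if_neg (by linarith)] | erw [if_pos (by linarith)] | erw [if_neg (by linarith)]); (try push_cast); (try ring1))
  · ((try push_cast); (repeat first | rw [if_pos (by linarith)] | rw [if_neg (by linarith)] | erw [if_pos (by linarith)] | erw [if_neg (by linarith)]); (try push_cast); (try ring1))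
theorem kcl10 {p x : ℝ} (h1 : 7 / 200 ≤ p) (h2 : p ≤ 7 / 100) : kcg.v p x = (-847939 / 100000000 + (x - 13 / 32) * (6700969 / 1000000000)) + (2260017 / 7000000 + (x - 13 / 32) * (68197093 / 70000000)) * p + (-34611 / 5000 + (x - 13 / 32) * (273081 / 50000)) * p ^ 2 := by
  simp only [kcg, kcg_3, kcg_6, kcg_9, kcg_12, kcg_13, kcg_16, kcg_28, kcg_36, kcg_39, kcg_50, kcg_58, kcg_59, kcg_62, kcg_73, kcg_80, kcg_81, kcg_84, kcg_95, kcg_100, kcg_104, kcg_114, kcg_124, kcg_127, kcg_128, kcg_133, kcg_143, kcg_148, kcg_153, kcg_164, kcg_172, kcg_173, kcg_178, kcg_186, kcg_194, kcg_199, kcg_208, kcg_213, kcg_217, kcg_224, kcg_225, kcg_226, kcg_249, kcg_260, kcg_283, kcg_284, kcg_304]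
  rcases eq_or_lt_of_le h1 with h | h1
  · subst h
    ((try push_cast); (repeat first | rw [if_pos (by linarith)] | rw [if_neg (by linarith)] | erw [if_pos (by linarith)] | erw [if_neg (by linarith)]); (try push_cast); (try ring1))
  rcases eq_or_lt_of_le h2 with h | h2
  · subst h
    ((try push_cast); (repeat first | rw [if_pos (by linarith)] | rw [if_neg (by linarith)] | erw [if_pos (by linarith)] | erw [if_neg (by linarith)]); (try push_cast); (try ring1))
  · ((try push_cast); (repeat first | rw [if_pos (by linarith)] | rw [if_neg (by linarith)] | erw [if_pos (by linarith)] | erw [if_neg (by linarith)]); (try push_cast); (try ring1))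
theorem kcl11 {p x : ℝ} (h1 : 7 / 100 ≤ p) (h2 : p ≤ 59 / 566) : kcg.v p x = (650882029561 / 10969080000000 + (x - 13 / 32) * (67572309587 / 457045000000)) + (-8856310262207 / 5484540000000 + (x - 13 / 32) * (-698958342369 / 228522500000)) * p + (1383613 / 200000 + (x - 13 / 32) * (856713 / 25000)) * p ^ 2 := by
  simp only [kcg, kcg_3, kcg_6, kcg_9, kcg_12, kcg_13, kcg_16, kcg_28, kcg_36, kcg_39, kcg_50, kcg_58, kcg_59, kcg_62, kcg_73, kcg_80, kcg_81, kcg_84, kcg_95, kcg_100, kcg_104, kcg_114, kcg_124, kcg_127, kcg_128, kcg_133, kcg_143, kcg_148, kcg_153, kcg_164, kcg_172, kcg_173, kcg_178, kcg_186, kcg_194, kcg_199, kcg_208, kcg_213, kcg_217, kcg_224, kcg_225, kcg_226, kcg_249, kcg_260, kcg_283, kcg_284, kcg_304]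
  rcases eq_or_lt_of_le h1 with h | h1
  · subst h
    ((try push_cast); (repeat first | rw [if_pos (by linarith)] | rw [if_neg (by linarith)] | erw [if_pos (by linarith)] | erw [if_neg (by linarith)]); (try push_cast); (try ring1))
  rcases eq_or_lt_of_le h2 with h | h2
  · subst h
    ((try push_cast); (repeat first | rw [if_pos (by linarith)] | rw [if_neg (by linarith)] | erw [if_pos (by linarith)] | erw [if_neg (by linarith)]); (try push_cast); (try ring1))
  · ((try push_cast); (repeat first | rw [if_pos (by linarith)] | rw [if_neg (by linarith)] | erw [if_pos (by linarith)] | erw [if_neg (by linarith)]); (try push_cast); (try ring1))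
theorem kcl12 {p x : ℝ} (h1 : 59 / 566 ≤ p) (h2 : p ≤ 4 / 25) : kcg.v p x = (-297270842863 / 5582175000000 + (x - 13 / 32) * (-127194343259 / 558217500000)) + (3044857137187 / 5582175000000 + (x - 13 / 32) * (4632917684857 / 1116435000000)) * p + (-1721897 / 500000 + (x - 13 / 32) * (-30667 / 100000)) * p ^ 2 := by
  simp only [kcg, kcg_3, kcg_6, kcg_9, kcg_12, kcg_13, kcg_16, kcg_28, kcg_36, kcg_39, kcg_50, kcg_58, kcg_59, kcg_62, kcg_73, kcg_80, kcg_81, kcg_84, kcg_95, kcg_100, kcg_104, kcg_114, kcg_124, kcg_127, kcg_128, kcg_133, kcg_143, kcg_148, kcg_153, kcg_164, kcg_172, kcg_173, kcg_178, kcg_186, kcg_194, kcg_199, kcg_208, kcg_213, kcg_217, kcg_224, kcg_225, kcg_226, kcg_249, kcg_260, kcg_283, kcg_284, kcg_304]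
  rcases eq_or_lt_of_le h1 with h | h1
  · subst h
    ((try push_cast); (repeat first | rw [if_pos (by linarith)] | rw [if_neg (by linarith)] | erw [if_pos (by linarith)] | erw [if_neg (by linarith)]); (try push_cast); (try ring1))
  rcases eq_or_lt_of_le h2 with h | h2
  · subst h
    ((try push_cast); (repeat first | rw [if_pos (by linarith)] | rw [if_neg (by linarith)] | erw [if_pos (by linarith)] | erw [if_neg (by linarith)]); (try push_cast); (try ring1))
  · ((try push_cast); (repeat first | rw [if_pos (by linarith)] | rw [if_neg (by linarith)] | erw [if_pos (by linarith)] | erw [if_neg (by linarith)]); (try push_cast); (try ring1))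
theorem kcl13 {p x : ℝ} (h1 : 4 / 25 ≤ p) (h2 : p ≤ 61 / 277) : kcg.v p x = (180230354611 / 2887725000000 + (x - 13 / 32) * (-3227059987 / 11550900000)) + (-2600041076827 / 2887725000000 + (x - 13 / 32) * (276856073 / 57754500)) * p + (537241 / 500000 + (x - 13 / 32) * (-371 / 160)) * p ^ 2 := by
  simp only [kcg, kcg_3, kcg_6, kcg_9, kcg_12, kcg_13, kcg_16, kcg_28, kcg_36, kcg_39, kcg_50, kcg_58, kcg_59, kcg_62, kcg_73, kcg_80, kcg_81, kcg_84, kcg_95, kcg_100, kcg_104, kcg_114, kcg_124, kcg_127, kcg_128, kcg_133, kcg_143, kcg_148, kcg_153, kcg_164, kcg_172, kcg_173, kcg_178, kcg_186, kcg_194, kcg_199, kcg_208, kcg_213, kcg_217, kcg_224, kcg_225, kcg_226, kcg_249, kcg_260, kcg_283, kcg_284, kcg_304]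
  rcases eq_or_lt_of_le h1 with h | h1
  · subst h
    ((try push_cast); (repeat first | rw [if_pos (by linarith)] | rw [if_neg (by linarith)] | erw [if_pos (by linarith)] | erw [if_neg (by linarith)]); (try push_cast); (try ring1))
  rcases eq_or_lt_of_le h2 with h | h2
  · subst h
    ((try push_cast); (repeat first | rw [if_pos (by linarith)] | rw [if_neg (by linarith)] | erw [if_pos (by linarith)] | erw [if_neg (by linarith)]); (try push_cast); (try ring1))
  · ((try push_cast); (repeat first | rw [if_pos (by linarith)] | rw [if_neg (by linarith)] | erw [if_pos (by linarith)] | erw [if_neg (by linarith)]); (try push_cast); (try ring1))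
theorem kcl14 {p x : ℝ} (h1 : 61 / 277 ≤ p) (h2 : p ≤ 27 / 100) : kcg.v p x = (13188656704243 / 38198300000000 + (x - 13 / 32) * (-28469759511 / 119369687500)) + (-132519883850951 / 38198300000000 + (x - 13 / 32) * (2111741663433 / 477478750000)) * p + (6907111 / 1000000 + (x - 13 / 32) * (-18463 / 12500)) * p ^ 2 := by
  simp only [kcg, kcg_3, kcg_6, kcg_9, kcg_12, kcg_13, kcg_16, kcg_28, kcg_36, kcg_39, kcg_50, kcg_58, kcg_59, kcg_62, kcg_73, kcg_80, kcg_81, kcg_84, kcg_95, kcg_100, kcg_104, kcg_114, kcg_124, kcg_127, kcg_128, kcg_133, kcg_143, kcg_148, kcg_153, kcg_164, kcg_172, kcg_173, kcg_178, kcg_186, kcg_194, kcg_199, kcg_208, kcg_213, kcg_217, kcg_224, kcg_225, kcg_226, kcg_249, kcg_260, kcg_283, kcg_284, kcg_304]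
  rcases eq_or_lt_of_le h1 with h | h1
  · subst h
    ((try push_cast); (repeat first | rw [if_pos (by linarith)] | rw [if_neg (by linarith)] | erw [if_pos (by linarith)] | erw [if_neg (by linarith)]); (try push_cast); (try ring1))
  rcases eq_or_lt_of_le h2 with h | h2
  · subst h
    ((try push_cast); (repeat first | rw [if_pos (by linarith)] | rw [if_neg (by linarith)] | erw [if_pos (by linarith)] | erw [if_neg (by linarith)]); (try push_cast); (try ring1))
  · ((try push_cast); (repeat first | rw [if_pos (by linarith)] | rw [if_neg (by linarith)] | erw [if_pos (by linarith)] | erw [if_neg (by linarith)]); (try push_cast); (try ring1))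
theorem kcl15 {p x : ℝ} (h1 : 27 / 100 ≤ p) (h2 : p ≤ 33 / 100) : kcg.v p x = (3171771179 / 10000000000 + (x - 13 / 32) * (-660341121 / 500000000)) + (-48917671 / 15000000 + (x - 13 / 32) * (1166113 / 93750)) * p + (6521769 / 1000000 + (x - 13 / 32) * (-816031 / 50000)) * p ^ 2 := by
  simp only [kcg, kcg_3, kcg_6, kcg_9, kcg_12, kcg_13, kcg_16, kcg_28, kcg_36, kcg_39, kcg_50, kcg_58, kcg_59, kcg_62, kcg_73, kcg_80, kcg_81, kcg_84, kcg_95, kcg_100, kcg_104, kcg_114, kcg_124, kcg_127, kcg_128, kcg_133, kcg_143, kcg_148, kcg_153, kcg_164, kcg_172, kcg_173, kcg_178, kcg_186, kcg_194, kcg_199, kcg_208, kcg_213, kcg_217, kcg_224, kcg_225, kcg_226, kcg_249, kcg_260, kcg_283, kcg_284, kcg_304]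
  rcases eq_or_lt_of_le h1 with h | h1
  · subst h
    ((try push_cast); (repeat first | rw [if_pos (by linarith)] | rw [if_neg (by linarith)] | erw [if_pos (by linarith)] | erw [if_neg (by linarith)]); (try push_cast); (try ring1))
  rcases eq_or_lt_of_le h2 with h | h2
  · subst h
    ((try push_cast); (repeat first | rw [if_pos (by linarith)] | rw [if_neg (by linarith)] | erw [if_pos (by linarith)] | erw [if_neg (by linarith)]); (try push_cast); (try ring1))
  · ((try push_cast); (repeat first | rw [if_pos (by linarith)] | rw [if_neg (by linarith)] | erw [if_pos (by linarith)] | erw [if_neg (by linarith)]); (try push_cast); (try ring1))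
theorem kcl16 {p x : ℝ} (h1 : 33 / 100 ≤ p) (h2 : p ≤ 39 / 100) : kcg.v p x = (2922870131 / 10000000000 + (x - 13 / 32) * (-489613399 / 1000000000)) + (-3644918 / 1171875 + (x - 13 / 32) * (27757379 / 3750000)) * p + (6293213 / 1000000 + (x - 13 / 32) * (-868977 / 100000)) * p ^ 2 := by
  simp only [kcg, kcg_3, kcg_6, kcg_9, kcg_12, kcg_13, kcg_16, kcg_28, kcg_36, kcg_39, kcg_50, kcg_58, kcg_59, kcg_62, kcg_73, kcg_80, kcg_81, kcg_84, kcg_95, kcg_100, kcg_104, kcg_114, kcg_124, kcg_127, kcg_128, kcg_133, kcg_143, kcg_148, kcg_153, kcg_164, kcg_172, kcg_173, kcg_178, kcg_186, kcg_194, kcg_199, kcg_208, kcg_213, kcg_217, kcg_224, kcg_225, kcg_226, kcg_249, kcg_260, kcg_283, kcg_284, kcg_304]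
  rcases eq_or_lt_of_le h1 with h | h1
  · subst h
    ((try push_cast); (repeat first | rw [if_pos (by linarith)] | rw [if_neg (by linarith)] | erw [if_pos (by linarith)] | erw [if_neg (by linarith)]); (try push_cast); (try ring1))
  rcases eq_or_lt_of_le h2 with h | h2
  · subst h
    ((try push_cast); (repeat first | rw [if_pos (by linarith)] | rw [if_neg (by linarith)] | erw [if_pos (by linarith)] | erw [if_neg (by linarith)]); (try push_cast); (try ring1))
  · ((try push_cast); (repeat first | rw [if_pos (by linarith)] | rw [if_neg (by linarith)] | erw [if_pos (by linarith)] | erw [if_neg (by linarith)]); (try push_cast); (try ring1))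
theorem kcl17 {p x : ℝ} (h1 : 39 / 100 ≤ p) (h2 : p ≤ 9 / 20) : kcg.v p x = (-265675097 / 400000000 + (x - 13 / 32) * (149175777 / 200000000)) + (26919961 / 15000000 + (x - 13 / 32) * (2665133 / 2500000)) * p + (953 / 200000 + (x - 13 / 32) * (-56673 / 100000)) * p ^ 2 := by
  simp only [kcg, kcg_3, kcg_6, kcg_9, kcg_12, kcg_13, kcg_16, kcg_28, kcg_36, kcg_39, kcg_50, kcg_58, kcg_59, kcg_62, kcg_73, kcg_80, kcg_81, kcg_84, kcg_95, kcg_100, kcg_104, kcg_114, kcg_124, kcg_127, kcg_128, kcg_133, kcg_143, kcg_148, kcg_153, kcg_164, kcg_172, kcg_173, kcg_178, kcg_186, kcg_194, kcg_199, kcg_208, kcg_213, kcg_217, kcg_224, kcg_225, kcg_226, kcg_249, kcg_260, kcg_283, kcg_284, kcg_304]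
  rcases eq_or_lt_of_le h1 with h | h1
  · subst h
    ((try push_cast); (repeat first | rw [if_pos (by linarith)] | rw [if_neg (by linarith)] | erw [if_pos (by linarith)] | erw [if_neg (by linarith)]); (try push_cast); (try ring1))
  rcases eq_or_lt_of_le h2 with h | h2
  · subst h
    ((try push_cast); (repeat first | rw [if_pos (by linarith)] | rw [if_neg (by linarith)] | erw [if_pos (by linarith)] | erw [if_neg (by linarith)]); (try push_cast); (try ring1))
  · ((try push_cast); (repeat first | rw [if_pos (by linarith)] | rw [if_neg (by linarith)] | erw [if_pos (by linarith)] | erw [if_neg (by linarith)]); (try push_cast); (try ring1))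
theorem kcl18 {p x : ℝ} (h1 : 9 / 20 ≤ p) (h2 : p ≤ 1 / 2) : kcg.v p x = (-26632673 / 40000000 + (x - 13 / 32) * (3255747 / 4000000)) + (36038243 / 20000000 + (x - 13 / 32) * (1527263 / 2000000)) * p + (-3297 / 1000000 + (x - 13 / 32) * (-23077 / 100000)) * p ^ 2 := by
  simp only [kcg, kcg_3, kcg_6, kcg_9, kcg_12, kcg_13, kcg_16, kcg_28, kcg_36, kcg_39, kcg_50, kcg_58, kcg_59, kcg_62, kcg_73, kcg_80, kcg_81, kcg_84, kcg_95, kcg_100, kcg_104, kcg_114, kcg_124, kcg_127, kcg_128, kcg_133, kcg_143, kcg_148, kcg_153, kcg_164, kcg_172, kcg_173, kcg_178, kcg_186, kcg_194, kcg_199, kcg_208, kcg_213, kcg_217, kcg_224, kcg_225, kcg_226, kcg_249, kcg_260, kcg_283, kcg_284, kcg_304]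
  rcases eq_or_lt_of_le h1 with h | h1
  · subst h
    ((try push_cast); (repeat first | rw [if_pos (by linarith)] | rw [if_neg (by linarith)] | erw [if_pos (by linarith)] | erw [if_neg (by linarith)]); (try push_cast); (try ring1))
  rcases eq_or_lt_of_le h2 with h | h2
  · subst h
    ((try push_cast); (repeat first | rw [if_pos (by linarith)] | rw [if_neg (by linarith)] | erw [if_pos (by linarith)] | erw [if_neg (by linarith)]); (try push_cast); (try ring1))
  · ((try push_cast); (repeat first | rw [if_pos (by linarith)] | rw [if_neg (by linarith)] | erw [if_pos (by linarith)] | erw [if_neg (by linarith)]); (try push_cast); (try ring1))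
theorem kvh0 {p x : ℝ} (h2 : p ≤ -9 / 20) : dt37.kv p x = (26632673 / 40000000 + (x - 13 / 32) * (-3255747 / 4000000)) + (36038243 / 20000000 + (x - 13 / 32) * (1527263 / 2000000)) * p + (3297 / 1000000 + (x - 13 / 32) * (23077 / 100000)) * p ^ 2 := by
  refine (DT.kv_le (by simp only [Cn.rt_v, Cn.ng_v]; push_cast; linarith)).trans ?_
  refine (DT.kv_le (by simp only [Cn.rt_v, Cn.ng_v]; push_cast; linarith)).trans ?_
  refine (DT.kv_le (by simp only [Cn.rt_v, Cn.ng_v]; push_cast; linarith)).trans ?_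
  refine (DT.kv_le (by simp only [Cn.rt_v, Cn.ng_v]; push_cast; linarith)).trans ?_
  simp only [dt1, DT.kv, sw1, sl1, sv1]
  ((try push_cast); ring1)
theorem kvh1 {p x : ℝ} (h1 : -9 / 20 < p) (h2 : p ≤ -39 / 100) : dt37.kv p x = (265675097 / 400000000 + (x - 13 / 32) * (-149175777 / 200000000)) + (26919961 / 15000000 + (x - 13 / 32) * (2665133 / 2500000)) * p + (-953 / 200000 + (x - 13 / 32) * (56673 / 100000)) * p ^ 2 := by
  refine (DT.kv_le (by simp only [Cn.rt_v, Cn.ng_v]; push_cast; linarith)).trans ?_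
  refine (DT.kv_le (by simp only [Cn.rt_v, Cn.ng_v]; push_cast; linarith)).trans ?_
  refine (DT.kv_le (by simp only [Cn.rt_v, Cn.ng_v]; push_cast; linarith)).trans ?_
  refine (DT.kv_gt (by simp only [Cn.rt_v, Cn.ng_v]; push_cast; linarith)).trans ?_
  simp only [dt2, DT.kv, sw2, sl2, sv2]
  ((try push_cast); ring1)
theorem kvh2 {p x : ℝ} (h1 : -39 / 100 < p) (h2 : p ≤ -33 / 100) : dt37.kv p x = (-2922870131 / 10000000000 + (x - 13 / 32) * (489613399 / 1000000000)) + (-3644918 / 1171875 + (x - 13 / 32) * (27757379 / 3750000)) * p + (-6293213 / 1000000 + (x - 13 / 32) * (868977 / 100000)) * p ^ 2 := by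
  refine (DT.kv_le (by simp only [Cn.rt_v, Cn.ng_v]; push_cast; linarith)).trans ?_
  refine (DT.kv_le (by simp only [Cn.rt_v, Cn.ng_v]; push_cast; linarith)).trans ?_
  refine (DT.kv_gt (by simp only [Cn.rt_v, Cn.ng_v]; push_cast; linarith)).trans ?_
  refine (DT.kv_le (by simp only [Cn.rt_v, Cn.ng_v]; push_cast; linarith)).trans ?_
  simp only [dt3, DT.kv, sw3, sl3, sv3]
  ((try push_cast); ring1)
theorem kvh3 {p x : ℝ} (h1 : -33 / 100 < p) (h2 : p ≤ -27 / 100) : dt37.kv p x = (-3171771179 / 10000000000 + (x - 13 / 32) * (660341121 / 500000000)) + (-48917671 / 15000000 + (x - 13 / 32) * (1166113 / 93750)) * p + (-6521769 / 1000000 + (x - 13 / 32) * (816031 / 50000)) * p ^ 2 := by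
  refine (DT.kv_le (by simp only [Cn.rt_v, Cn.ng_v]; push_cast; linarith)).trans ?_
  refine (DT.kv_le (by simp only [Cn.rt_v, Cn.ng_v]; push_cast; linarith)).trans ?_
  refine (DT.kv_gt (by simp only [Cn.rt_v, Cn.ng_v]; push_cast; linarith)).trans ?_
  refine (DT.kv_gt (by simp only [Cn.rt_v, Cn.ng_v]; push_cast; linarith)).trans ?_
  simp only [dt4, DT.kv, sw4, sl4, sv4]
  ((try push_cast); ring1)
theorem kvh4 {p x : ℝ} (h1 : -27 / 100 < p) (h2 : p ≤ -61 / 277) : dt37.kv p x = (-13188656704243 / 38198300000000 + (x - 13 / 32) * (28469759511 / 119369687500)) + (-132519883850951 / 38198300000000 + (x - 13 / 32) * (2111741663433 / 477478750000)) * p + (-6907111 / 1000000 + (x - 13 / 32) * (18463 / 12500)) * p ^ 2 := by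
  refine (DT.kv_le (by simp only [Cn.rt_v, Cn.ng_v]; push_cast; linarith)).trans ?_
  refine (DT.kv_gt (by simp only [Cn.rt_v, Cn.ng_v]; push_cast; linarith)).trans ?_
  refine (DT.kv_le (by simp only [Cn.rt_v, Cn.ng_v]; push_cast; linarith)).trans ?_
  refine (DT.kv_le (by simp only [Cn.rt_v, Cn.ng_v]; push_cast; linarith)).trans ?_
  simp only [dt5, DT.kv, sw5, sl5, sv5]
  ((try push_cast); ring1)
theorem kvh5 {p x : ℝ} (h1 : -61 / 277 < p) (h2 : p ≤ -4 / 25) : dt37.kv p x = (-180230354611 / 2887725000000 + (x - 13 / 32) * (3227059987 / 11550900000)) + (-2600041076827 / 2887725000000 + (x - 13 / 32) * (276856073 / 57754500)) * p + (-537241 / 500000 + (x - 13 / 32) * (371 / 160)) * p ^ 2 := by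
  refine (DT.kv_le (by simp only [Cn.rt_v, Cn.ng_v]; push_cast; linarith)).trans ?_
  refine (DT.kv_gt (by simp only [Cn.rt_v, Cn.ng_v]; push_cast; linarith)).trans ?_
  refine (DT.kv_le (by simp only [Cn.rt_v, Cn.ng_v]; push_cast; linarith)).trans ?_
  refine (DT.kv_gt (by simp only [Cn.rt_v, Cn.ng_v]; push_cast; linarith)).trans ?_
  simp only [dt6, DT.kv, sw6, sl6, sv6]
  ((try push_cast); ring1)
theorem kvh6 {p x : ℝ} (h1 : -4 / 25 < p) (h2 : p ≤ -59 / 566) : dt37.kv p x = (297270842863 / 5582175000000 + (x - 13 / 32) * (127194343259 / 558217500000)) + (3044857137187 / 5582175000000 + (x - 13 / 32) * (4632917684857 / 1116435000000)) * p + (1721897 / 500000 + (x - 13 / 32) * (30667 / 100000)) * p ^ 2 := by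
  refine (DT.kv_le (by simp only [Cn.rt_v, Cn.ng_v]; push_cast; linarith)).trans ?_
  refine (DT.kv_gt (by simp only [Cn.rt_v, Cn.ng_v]; push_cast; linarith)).trans ?_
  refine (DT.kv_gt (by simp only [Cn.rt_v, Cn.ng_v]; push_cast; linarith)).trans ?_
  refine (DT.kv_le (by simp only [Cn.rt_v, Cn.ng_v]; push_cast; linarith)).trans ?_
  simp only [dt7, DT.kv, sw7, sl7, sv7]
  ((try push_cast); ring1)
theorem kvh7 {p x : ℝ} (h1 : -59 / 566 < p) (h2 : p ≤ -7 / 100) : dt37.kv p x = (-650882029561 / 10969080000000 + (x - 13 / 32) * (-67572309587 / 457045000000)) + (-8856310262207 / 5484540000000 + (x - 13 / 32) * (-698958342369 / 228522500000)) * p + (-1383613 / 200000 + (x - 13 / 32) * (-856713 / 25000)) * p ^ 2 := by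
  refine (DT.kv_le (by simp only [Cn.rt_v, Cn.ng_v]; push_cast; linarith)).trans ?_
  refine (DT.kv_gt (by simp only [Cn.rt_v, Cn.ng_v]; push_cast; linarith)).trans ?_
  refine (DT.kv_gt (by simp only [Cn.rt_v, Cn.ng_v]; push_cast; linarith)).trans ?_
  refine (DT.kv_gt (by simp only [Cn.rt_v, Cn.ng_v]; push_cast; linarith)).trans ?_
  refine (DT.kv_le (by simp only [Cn.rt_v, Cn.ng_v]; push_cast; linarith)).trans ?_
  simp only [dt8, DT.kv, sw8, sl8, sv8]
  ((try push_cast); ring1)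
theorem kvh8 {p x : ℝ} (h1 : -7 / 100 < p) (h2 : p ≤ -7 / 200) : dt37.kv p x = (847939 / 100000000 + (x - 13 / 32) * (-6700969 / 1000000000)) + (2260017 / 7000000 + (x - 13 / 32) * (68197093 / 70000000)) * p + (34611 / 5000 + (x - 13 / 32) * (-273081 / 50000)) * p ^ 2 := by
  refine (DT.kv_le (by simp only [Cn.rt_v, Cn.ng_v]; push_cast; linarith)).trans ?_
  refine (DT.kv_gt (by simp only [Cn.rt_v, Cn.ng_v]; push_cast; linarith)).trans ?_
  refine (DT.kv_gt (by simp only [Cn.rt_v, Cn.ng_v]; push_cast; linarith)).trans ?_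
  refine (DT.kv_gt (by simp only [Cn.rt_v, Cn.ng_v]; push_cast; linarith)).trans ?_
  refine (DT.kv_gt (by simp only [Cn.rt_v, Cn.ng_v]; push_cast; linarith)).trans ?_
  simp only [dt9, DT.kv, sw9, sl9, sv9]
  ((try push_cast); ring1)
theorem kvh9 {p x : ℝ} (h1 : -7 / 200 < p) (h2 : p ≤ 7 / 200) : dt37.kv p x = (0) + (-5659 / 35000 + (x - 13 / 32) * (4749 / 3500)) * p := by
  refine (DT.kv_gt (by simp only [Cn.rt_v, Cn.ng_v]; push_cast; linarith)).trans ?_
  refine (DT.kv_le (by simp only [Cn.rt_v, Cn.ng_v]; push_cast; linarith)).trans ?_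
  refine (DT.kv_le (by simp only [Cn.rt_v, Cn.ng_v]; push_cast; linarith)).trans ?_
  refine (DT.kv_le (by simp only [Cn.rt_v, Cn.ng_v]; push_cast; linarith)).trans ?_
  simp only [dt10, DT.kv, sl10, sv10]
  ((try push_cast); ring1)
theorem kvh10 {p x : ℝ} (h1 : 7 / 200 < p) (h2 : p ≤ 7 / 100) : dt37.kv p x = (-847939 / 100000000 + (x - 13 / 32) * (6700969 / 1000000000)) + (2260017 / 7000000 + (x - 13 / 32) * (68197093 / 70000000)) * p + (-34611 / 5000 + (x - 13 / 32) * (273081 / 50000)) * p ^ 2 := by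
  refine (DT.kv_gt (by simp only [Cn.rt_v, Cn.ng_v]; push_cast; linarith)).trans ?_
  refine (DT.kv_le (by simp only [Cn.rt_v, Cn.ng_v]; push_cast; linarith)).trans ?_
  refine (DT.kv_le (by simp only [Cn.rt_v, Cn.ng_v]; push_cast; linarith)).trans ?_
  refine (DT.kv_gt (by simp only [Cn.rt_v, Cn.ng_v]; push_cast; linarith)).trans ?_
  simp only [dt11, DT.kv, sw11, sl11, sv11]
  ((try push_cast); ring1)
theorem kvh11 {p x : ℝ} (h1 : 7 / 100 < p) (h2 : p ≤ 59 / 566) : dt37.kv p x = (650882029561 / 10969080000000 + (x - 13 / 32) * (67572309587 / 457045000000)) + (-8856310262207 / 5484540000000 + (x - 13 / 32) * (-698958342369 / 228522500000)) * p + (1383613 / 200000 + (x - 13 / 32) * (856713 / 25000)) * p ^ 2 := by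
  refine (DT.kv_gt (by simp only [Cn.rt_v, Cn.ng_v]; push_cast; linarith)).trans ?_
  refine (DT.kv_le (by simp only [Cn.rt_v, Cn.ng_v]; push_cast; linarith)).trans ?_
  refine (DT.kv_gt (by simp only [Cn.rt_v, Cn.ng_v]; push_cast; linarith)).trans ?_
  refine (DT.kv_le (by simp only [Cn.rt_v, Cn.ng_v]; push_cast; linarith)).trans ?_
  simp only [dt12, DT.kv, sw12, sl12, sv12]
  ((try push_cast); ring1)
theorem kvh12 {p x : ℝ} (h1 : 59 / 566 < p) (h2 : p ≤ 4 / 25) : dt37.kv p x = (-297270842863 / 5582175000000 + (x - 13 / 32) * (-127194343259 / 558217500000)) + (3044857137187 / 5582175000000 + (x - 13 / 32) * (4632917684857 / 1116435000000)) * p + (-1721897 / 500000 + (x - 13 / 32) * (-30667 / 100000)) * p ^ 2 := by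
  refine (DT.kv_gt (by simp only [Cn.rt_v, Cn.ng_v]; push_cast; linarith)).trans ?_
  refine (DT.kv_le (by simp only [Cn.rt_v, Cn.ng_v]; push_cast; linarith)).trans ?_
  refine (DT.kv_gt (by simp only [Cn.rt_v, Cn.ng_v]; push_cast; linarith)).trans ?_
  refine (DT.kv_gt (by simp only [Cn.rt_v, Cn.ng_v]; push_cast; linarith)).trans ?_
  refine (DT.kv_le (by simp only [Cn.rt_v, Cn.ng_v]; push_cast; linarith)).trans ?_
  simp only [dt13, DT.kv, sw13, sl13, sv13]
  ((try push_cast); ring1)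
theorem kvh13 {p x : ℝ} (h1 : 4 / 25 < p) (h2 : p ≤ 61 / 277) : dt37.kv p x = (180230354611 / 2887725000000 + (x - 13 / 32) * (-3227059987 / 11550900000)) + (-2600041076827 / 2887725000000 + (x - 13 / 32) * (276856073 / 57754500)) * p + (537241 / 500000 + (x - 13 / 32) * (-371 / 160)) * p ^ 2 := by
  refine (DT.kv_gt (by simp only [Cn.rt_v, Cn.ng_v]; push_cast; linarith)).trans ?_
  refine (DT.kv_le (by simp only [Cn.rt_v, Cn.ng_v]; push_cast; linarith)).trans ?_
  refine (DT.kv_gt (by simp only [Cn.rt_v, Cn.ng_v]; push_cast; linarith)).trans ?_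
  refine (DT.kv_gt (by simp only [Cn.rt_v, Cn.ng_v]; push_cast; linarith)).trans ?_
  refine (DT.kv_gt (by simp only [Cn.rt_v, Cn.ng_v]; push_cast; linarith)).trans ?_
  simp only [dt14, DT.kv, sw14, sl14, sv14]
  ((try push_cast); ring1)
theorem kvh14 {p x : ℝ} (h1 : 61 / 277 < p) (h2 : p ≤ 27 / 100) : dt37.kv p x = (13188656704243 / 38198300000000 + (x - 13 / 32) * (-28469759511 / 119369687500)) + (-132519883850951 / 38198300000000 + (x - 13 / 32) * (2111741663433 / 477478750000)) * p + (6907111 / 1000000 + (x - 13 / 32) * (-18463 / 12500)) * p ^ 2 := by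
  refine (DT.kv_gt (by simp only [Cn.rt_v, Cn.ng_v]; push_cast; linarith)).trans ?_
  refine (DT.kv_gt (by simp only [Cn.rt_v, Cn.ng_v]; push_cast; linarith)).trans ?_
  refine (DT.kv_le (by simp only [Cn.rt_v, Cn.ng_v]; push_cast; linarith)).trans ?_
  refine (DT.kv_le (by simp only [Cn.rt_v, Cn.ng_v]; push_cast; linarith)).trans ?_
  simp only [dt15, DT.kv, sw15, sl15, sv15]
  ((try push_cast); ring1)
theorem kvh15 {p x : ℝ} (h1 : 27 / 100 < p) (h2 : p ≤ 33 / 100) : dt37.kv p x = (3171771179 / 10000000000 + (x - 13 / 32) * (-660341121 / 500000000)) + (-48917671 / 15000000 + (x - 13 / 32) * (1166113 / 93750)) * p + (6521769 / 1000000 + (x - 13 / 32) * (-816031 / 50000)) * p ^ 2 := by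
  refine (DT.kv_gt (by simp only [Cn.rt_v, Cn.ng_v]; push_cast; linarith)).trans ?_
  refine (DT.kv_gt (by simp only [Cn.rt_v, Cn.ng_v]; push_cast; linarith)).trans ?_
  refine (DT.kv_le (by simp only [Cn.rt_v, Cn.ng_v]; push_cast; linarith)).trans ?_
  refine (DT.kv_gt (by simp only [Cn.rt_v, Cn.ng_v]; push_cast; linarith)).trans ?_
  simp only [dt16, DT.kv, sw16, sl16, sv16]
  ((try push_cast); ring1)
theorem kvh16 {p x : ℝ} (h1 : 33 / 100 < p) (h2 : p ≤ 39 / 100) : dt37.kv p x = (2922870131 / 10000000000 + (x - 13 / 32) * (-489613399 / 1000000000)) + (-3644918 / 1171875 + (x - 13 / 32) * (27757379 / 3750000)) * p + (6293213 / 1000000 + (x - 13 / 32) * (-868977 / 100000)) * p ^ 2 := by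
  refine (DT.kv_gt (by simp only [Cn.rt_v, Cn.ng_v]; push_cast; linarith)).trans ?_
  refine (DT.kv_gt (by simp only [Cn.rt_v, Cn.ng_v]; push_cast; linarith)).trans ?_
  refine (DT.kv_gt (by simp only [Cn.rt_v, Cn.ng_v]; push_cast; linarith)).trans ?_
  refine (DT.kv_le (by simp only [Cn.rt_v, Cn.ng_v]; push_cast; linarith)).trans ?_
  simp only [dt17, DT.kv, sw17, sl17, sv17]
  ((try push_cast); ring1)
theorem kvh17 {p x : ℝ} (h1 : 39 / 100 < p) (h2 : p ≤ 9 / 20) : dt37.kv p x = (-265675097 / 400000000 + (x - 13 / 32) * (149175777 / 200000000)) + (26919961 / 15000000 + (x - 13 / 32) * (2665133 / 2500000)) * p + (953 / 200000 + (x - 13 / 32) * (-56673 / 100000)) * p ^ 2 := by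
  refine (DT.kv_gt (by simp only [Cn.rt_v, Cn.ng_v]; push_cast; linarith)).trans ?_
  refine (DT.kv_gt (by simp only [Cn.rt_v, Cn.ng_v]; push_cast; linarith)).trans ?_
  refine (DT.kv_gt (by simp only [Cn.rt_v, Cn.ng_v]; push_cast; linarith)).trans ?_
  refine (DT.kv_gt (by simp only [Cn.rt_v, Cn.ng_v]; push_cast; linarith)).trans ?_
  refine (DT.kv_le (by simp only [Cn.rt_v, Cn.ng_v]; push_cast; linarith)).trans ?_
  simp only [dt18, DT.kv, sw18, sl18, sv18]
  ((try push_cast); ring1)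
theorem kvh18 {p x : ℝ} (h1 : 9 / 20 < p) (h2 : p ≤ 1 / 2) : dt37.kv p x = (-26632673 / 40000000 + (x - 13 / 32) * (3255747 / 4000000)) + (36038243 / 20000000 + (x - 13 / 32) * (1527263 / 2000000)) * p + (-3297 / 1000000 + (x - 13 / 32) * (-23077 / 100000)) * p ^ 2 := by
  refine (DT.kv_gt (by simp only [Cn.rt_v, Cn.ng_v]; push_cast; linarith)).trans ?_
  refine (DT.kv_gt (by simp only [Cn.rt_v, Cn.ng_v]; push_cast; linarith)).trans ?_
  refine (DT.kv_gt (by simp only [Cn.rt_v, Cn.ng_v]; push_cast; linarith)).trans ?_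
  refine (DT.kv_gt (by simp only [Cn.rt_v, Cn.ng_v]; push_cast; linarith)).trans ?_
  refine (DT.kv_gt (by simp only [Cn.rt_v, Cn.ng_v]; push_cast; linarith)).trans ?_
  simp only [dt19, DT.kv, sw19, sl19, sv19]
  ((try push_cast); ring1)
theorem kvl0 {p x : ℝ} (h1 : -1 / 2 ≤ p) (h2 : p ≤ -9 / 20) : dt37.kv p x = (26632673 / 40000000 + (x - 13 / 32) * (-3255747 / 4000000)) + (36038243 / 20000000 + (x - 13 / 32) * (1527263 / 2000000)) * p + (3297 / 1000000 + (x - 13 / 32) * (23077 / 100000)) * p ^ 2 := by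
  exact kvh0 h2
theorem kvl1 {p x : ℝ} (h1 : -9 / 20 ≤ p) (h2 : p ≤ -39 / 100) : dt37.kv p x = (265675097 / 400000000 + (x - 13 / 32) * (-149175777 / 200000000)) + (26919961 / 15000000 + (x - 13 / 32) * (2665133 / 2500000)) * p + (-953 / 200000 + (x - 13 / 32) * (56673 / 100000)) * p ^ 2 := by
  rcases eq_or_lt_of_le h1 with h | h1
  · subst h
    rw [kvh0 (by norm_num)]
    ring1
  · exact kvh1 h1 h2
theorem kvl2 {p x : ℝ} (h1 : -39 / 100 ≤ p) (h2 : p ≤ -33 / 100) : dt37.kv p x = (-2922870131 / 10000000000 + (x - 13 / 32) * (489613399 / 1000000000)) + (-3644918 / 1171875 + (x - 13 / 32) * (27757379 / 3750000)) * p + (-6293213 / 1000000 + (x - 13 / 32) * (868977 / 100000)) * p ^ 2 := by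
  rcases eq_or_lt_of_le h1 with h | h1
  · subst h
    rw [kvh1 (by norm_num) (by norm_num)]
    ring1
  · exact kvh2 h1 h2
theorem kvl3 {p x : ℝ} (h1 : -33 / 100 ≤ p) (h2 : p ≤ -27 / 100) : dt37.kv p x = (-3171771179 / 10000000000 + (x - 13 / 32) * (660341121 / 500000000)) + (-48917671 / 15000000 + (x - 13 / 32) * (1166113 / 93750)) * p + (-6521769 / 1000000 + (x - 13 / 32) * (816031 / 50000)) * p ^ 2 := by
  rcases eq_or_lt_of_le h1 with h | h1
  · subst h
    rw [kvh2 (by norm_num) (by norm_num)]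
    ring1
  · exact kvh3 h1 h2
theorem kvl4 {p x : ℝ} (h1 : -27 / 100 ≤ p) (h2 : p ≤ -61 / 277) : dt37.kv p x = (-13188656704243 / 38198300000000 + (x - 13 / 32) * (28469759511 / 119369687500)) + (-132519883850951 / 38198300000000 + (x - 13 / 32) * (2111741663433 / 477478750000)) * p + (-6907111 / 1000000 + (x - 13 / 32) * (18463 / 12500)) * p ^ 2 := by
  rcases eq_or_lt_of_le h1 with h | h1
  · subst h
    rw [kvh3 (by norm_num) (by norm_num)]
    ring1
  · exact kvh4 h1 h2
theorem kvl5 {p x : ℝ} (h1 : -61 / 277 ≤ p) (h2 : p ≤ -4 / 25) : dt37.kv p x = (-180230354611 / 2887725000000 + (x - 13 / 32) * (3227059987 / 11550900000)) + (-2600041076827 / 2887725000000 + (x - 13 / 32) * (276856073 / 57754500)) * p + (-537241 / 500000 + (x - 13 / 32) * (371 / 160)) * p ^ 2 := by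
  rcases eq_or_lt_of_le h1 with h | h1
  · subst h
    rw [kvh4 (by norm_num) (by norm_num)]
    ring1
  · exact kvh5 h1 h2
theorem kvl6 {p x : ℝ} (h1 : -4 / 25 ≤ p) (h2 : p ≤ -59 / 566) : dt37.kv p x = (297270842863 / 5582175000000 + (x - 13 / 32) * (127194343259 / 558217500000)) + (3044857137187 / 5582175000000 + (x - 13 / 32) * (4632917684857 / 1116435000000)) * p + (1721897 / 500000 + (x - 13 / 32) * (30667 / 100000)) * p ^ 2 := by
  rcases eq_or_lt_of_le h1 with h | h1
  · subst h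
    rw [kvh5 (by norm_num) (by norm_num)]
    ring1
  · exact kvh6 h1 h2
theorem kvl7 {p x : ℝ} (h1 : -59 / 566 ≤ p) (h2 : p ≤ -7 / 100) : dt37.kv p x = (-650882029561 / 10969080000000 + (x - 13 / 32) * (-67572309587 / 457045000000)) + (-8856310262207 / 5484540000000 + (x - 13 / 32) * (-698958342369 / 228522500000)) * p + (-1383613 / 200000 + (x - 13 / 32) * (-856713 / 25000)) * p ^ 2 := by
  rcases eq_or_lt_of_le h1 with h | h1
  · subst h
    rw [kvh6 (by norm_num) (by norm_num)]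
    ring1
  · exact kvh7 h1 h2
theorem kvl8 {p x : ℝ} (h1 : -7 / 100 ≤ p) (h2 : p ≤ -7 / 200) : dt37.kv p x = (847939 / 100000000 + (x - 13 / 32) * (-6700969 / 1000000000)) + (2260017 / 7000000 + (x - 13 / 32) * (68197093 / 70000000)) * p + (34611 / 5000 + (x - 13 / 32) * (-273081 / 50000)) * p ^ 2 := by
  rcases eq_or_lt_of_le h1 with h | h1
  · subst h
    rw [kvh7 (by norm_num) (by norm_num)]
    ring1
  · exact kvh8 h1 h2
theorem kvl9 {p x : ℝ} (h1 : -7 / 200 ≤ p) (h2 : p ≤ 7 / 200) : dt37.kv p x = (0) + (-5659 / 35000 + (x - 13 / 32) * (4749 / 3500)) * p := by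
  rcases eq_or_lt_of_le h1 with h | h1
  · subst h
    rw [kvh8 (by norm_num) (by norm_num)]
    ring1
  · exact kvh9 h1 h2
theorem kvl10 {p x : ℝ} (h1 : 7 / 200 ≤ p) (h2 : p ≤ 7 / 100) : dt37.kv p x = (-847939 / 100000000 + (x - 13 / 32) * (6700969 / 1000000000)) + (2260017 / 7000000 + (x - 13 / 32) * (68197093 / 70000000)) * p + (-34611 / 5000 + (x - 13 / 32) * (273081 / 50000)) * p ^ 2 := by
  rcases eq_or_lt_of_le h1 with h | h1
  · subst h
    rw [kvh9 (by norm_num) (by norm_num)]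
    ring1
  · exact kvh10 h1 h2
theorem kvl11 {p x : ℝ} (h1 : 7 / 100 ≤ p) (h2 : p ≤ 59 / 566) : dt37.kv p x = (650882029561 / 10969080000000 + (x - 13 / 32) * (67572309587 / 457045000000)) + (-8856310262207 / 5484540000000 + (x - 13 / 32) * (-698958342369 / 228522500000)) * p + (1383613 / 200000 + (x - 13 / 32) * (856713 / 25000)) * p ^ 2 := by
  rcases eq_or_lt_of_le h1 with h | h1
  · subst h
    rw [kvh10 (by norm_num) (by norm_num)]
    ring1
  · exact kvh11 h1 h2
theorem kvl12 {p x : ℝ} (h1 : 59 / 566 ≤ p) (h2 : p ≤ 4 / 25) : dt37.kv p x = (-297270842863 / 5582175000000 + (x - 13 / 32) * (-127194343259 / 558217500000)) + (3044857137187 / 5582175000000 + (x - 13 / 32) * (4632917684857 / 1116435000000)) * p + (-1721897 / 500000 + (x - 13 / 32) * (-30667 / 100000)) * p ^ 2 := by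
  rcases eq_or_lt_of_le h1 with h | h1
  · subst h
    rw [kvh11 (by norm_num) (by norm_num)]
    ring1
  · exact kvh12 h1 h2
theorem kvl13 {p x : ℝ} (h1 : 4 / 25 ≤ p) (h2 : p ≤ 61 / 277) : dt37.kv p x = (180230354611 / 2887725000000 + (x - 13 / 32) * (-3227059987 / 11550900000)) + (-2600041076827 / 2887725000000 + (x - 13 / 32) * (276856073 / 57754500)) * p + (537241 / 500000 + (x - 13 / 32) * (-371 / 160)) * p ^ 2 := by
  rcases eq_or_lt_of_le h1 with h | h1
  · subst h
    rw [kvh12 (by norm_num) (by norm_num)]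
    ring1
  · exact kvh13 h1 h2
theorem kvl14 {p x : ℝ} (h1 : 61 / 277 ≤ p) (h2 : p ≤ 27 / 100) : dt37.kv p x = (13188656704243 / 38198300000000 + (x - 13 / 32) * (-28469759511 / 119369687500)) + (-132519883850951 / 38198300000000 + (x - 13 / 32) * (2111741663433 / 477478750000)) * p + (6907111 / 1000000 + (x - 13 / 32) * (-18463 / 12500)) * p ^ 2 := by
  rcases eq_or_lt_of_le h1 with h | h1
  · subst h
    rw [kvh13 (by norm_num) (by norm_num)]
    ring1
  · exact kvh14 h1 h2
theorem kvl15 {p x : ℝ} (h1 : 27 / 100 ≤ p) (h2 : p ≤ 33 / 100) : dt37.kv p x = (3171771179 / 10000000000 + (x - 13 / 32) * (-660341121 / 500000000)) + (-48917671 / 15000000 + (x - 13 / 32) * (1166113 / 93750)) * p + (6521769 / 1000000 + (x - 13 / 32) * (-816031 / 50000)) * p ^ 2 := by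
  rcases eq_or_lt_of_le h1 with h | h1
  · subst h
    rw [kvh14 (by norm_num) (by norm_num)]
    ring1
  · exact kvh15 h1 h2
theorem kvl16 {p x : ℝ} (h1 : 33 / 100 ≤ p) (h2 : p ≤ 39 / 100) : dt37.kv p x = (2922870131 / 10000000000 + (x - 13 / 32) * (-489613399 / 1000000000)) + (-3644918 / 1171875 + (x - 13 / 32) * (27757379 / 3750000)) * p + (6293213 / 1000000 + (x - 13 / 32) * (-868977 / 100000)) * p ^ 2 := by
  rcases eq_or_lt_of_le h1 with h | h1
  · subst h
    rw [kvh15 (by norm_num) (by norm_num)]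
    ring1
  · exact kvh16 h1 h2
theorem kvl17 {p x : ℝ} (h1 : 39 / 100 ≤ p) (h2 : p ≤ 9 / 20) : dt37.kv p x = (-265675097 / 400000000 + (x - 13 / 32) * (149175777 / 200000000)) + (26919961 / 15000000 + (x - 13 / 32) * (2665133 / 2500000)) * p + (953 / 200000 + (x - 13 / 32) * (-56673 / 100000)) * p ^ 2 := by
  rcases eq_or_lt_of_le h1 with h | h1
  · subst h
    rw [kvh16 (by norm_num) (by norm_num)]
    ring1
  · exact kvh17 h1 h2
theorem kvl18 {p x : ℝ} (h1 : 9 / 20 ≤ p) (h2 : p ≤ 1 / 2) : dt37.kv p x = (-26632673 / 40000000 + (x - 13 / 32) * (3255747 / 4000000)) + (36038243 / 20000000 + (x - 13 / 32) * (1527263 / 2000000)) * p + (-3297 / 1000000 + (x - 13 / 32) * (-23077 / 100000)) * p ^ 2 := by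
  rcases eq_or_lt_of_le h1 with h | h1
  · subst h
    rw [kvh17 (by norm_num) (by norm_num)]
    ring1
  · exact kvh18 h1 h2
theorem kfe {x p : ℝ} (h : |p| ≤ 1 / 2) : kcg.v p x = dt37.kv p x := by
  obtain ⟨h1, h2⟩ := abs_le.1 h
  rcases le_total p (-9 / 20) with g0 | g1000
  · rw [kcl0 (by linarith) g0, kvl0 (by linarith) g0]
  rcases le_total p (-39 / 100) with g1 | g1001
  · rw [kcl1 g1000 g1, kvl1 g1000 g1]
  rcases le_total p (-33 / 100) with g2 | g1002
  · rw [kcl2 g1001 g2, kvl2 g1001 g2]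
  rcases le_total p (-27 / 100) with g3 | g1003
  · rw [kcl3 g1002 g3, kvl3 g1002 g3]
  rcases le_total p (-61 / 277) with g4 | g1004
  · rw [kcl4 g1003 g4, kvl4 g1003 g4]
  rcases le_total p (-4 / 25) with g5 | g1005
  · rw [kcl5 g1004 g5, kvl5 g1004 g5]
  rcases le_total p (-59 / 566) with g6 | g1006
  · rw [kcl6 g1005 g6, kvl6 g1005 g6]
  rcases le_total p (-7 / 100) with g7 | g1007
  · rw [kcl7 g1006 g7, kvl7 g1006 g7]
  rcases le_total p (-7 / 200) with g8 | g1008
  · rw [kcl8 g1007 g8, kvl8 g1007 g8]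
  rcases le_total p (7 / 200) with g9 | g1009
  · rw [kcl9 g1008 g9, kvl9 g1008 g9]
  rcases le_total p (7 / 100) with g10 | g1010
  · rw [kcl10 g1009 g10, kvl10 g1009 g10]
  rcases le_total p (59 / 566) with g11 | g1011
  · rw [kcl11 g1010 g11, kvl11 g1010 g11]
  rcases le_total p (4 / 25) with g12 | g1012
  · rw [kcl12 g1011 g12, kvl12 g1011 g12]
  rcases le_total p (61 / 277) with g13 | g1013
  · rw [kcl13 g1012 g13, kvl13 g1012 g13]
  rcases le_total p (27 / 100) with g14 | g1014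
  · rw [kcl14 g1013 g14, kvl14 g1013 g14]
  rcases le_total p (33 / 100) with g15 | g1015
  · rw [kcl15 g1014 g15, kvl15 g1014 g15]
  rcases le_total p (39 / 100) with g16 | g1016
  · rw [kcl16 g1015 g16, kvl16 g1015 g16]
  rcases le_total p (9 / 20) with g17 | g1017
  · rw [kcl17 g1016 g17, kvl17 g1016 g17]
  · rw [kcl18 g1017 (by linarith), kvl18 g1017 (by linarith)]
theorem odd {x p : ℝ} (h : |p| ≤ 1 / 2) : kcg.v (-p) x = -kcg.v p x := by
  obtain ⟨h1, h2⟩ := abs_le.1 h
  rcases le_total p (-9 / 20) with g0 | g1000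
  · rw [kcl0 (by linarith) g0, kcl18 (p := -p) (by linarith) (by linarith)]; ring
  rcases le_total p (-39 / 100) with g1 | g1001
  · rw [kcl1 g1000 g1, kcl17 (p := -p) (by linarith) (by linarith)]; ring
  rcases le_total p (-33 / 100) with g2 | g1002
  · rw [kcl2 g1001 g2, kcl16 (p := -p) (by linarith) (by linarith)]; ring
  rcases le_total p (-27 / 100) with g3 | g1003
  · rw [kcl3 g1002 g3, kcl15 (p := -p) (by linarith) (by linarith)]; ring
  rcases le_total p (-61 / 277) with g4 | g1004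
  · rw [kcl4 g1003 g4, kcl14 (p := -p) (by linarith) (by linarith)]; ring
  rcases le_total p (-4 / 25) with g5 | g1005
  · rw [kcl5 g1004 g5, kcl13 (p := -p) (by linarith) (by linarith)]; ring
  rcases le_total p (-59 / 566) with g6 | g1006
  · rw [kcl6 g1005 g6, kcl12 (p := -p) (by linarith) (by linarith)]; ring
  rcases le_total p (-7 / 100) with g7 | g1007
  · rw [kcl7 g1006 g7, kcl11 (p := -p) (by linarith) (by linarith)]; ring
  rcases le_total p (-7 / 200) with g8 | g1008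
  · rw [kcl8 g1007 g8, kcl10 (p := -p) (by linarith) (by linarith)]; ring
  rcases le_total p (7 / 200) with g9 | g1009
  · rw [kcl9 g1008 g9, kcl9 (p := -p) (by linarith) (by linarith)]; ring
  rcases le_total p (7 / 100) with g10 | g1010
  · rw [kcl10 g1009 g10, kcl8 (p := -p) (by linarith) (by linarith)]; ring
  rcases le_total p (59 / 566) with g11 | g1011
  · rw [kcl11 g1010 g11, kcl7 (p := -p) (by linarith) (by linarith)]; ring
  rcases le_total p (4 / 25) with g12 | g1012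
  · rw [kcl12 g1011 g12, kcl6 (p := -p) (by linarith) (by linarith)]; ring
  rcases le_total p (61 / 277) with g13 | g1013
  · rw [kcl13 g1012 g13, kcl5 (p := -p) (by linarith) (by linarith)]; ring
  rcases le_total p (27 / 100) with g14 | g1014
  · rw [kcl14 g1013 g14, kcl4 (p := -p) (by linarith) (by linarith)]; ring
  rcases le_total p (33 / 100) with g15 | g1015
  · rw [kcl15 g1014 g15, kcl3 (p := -p) (by linarith) (by linarith)]; ring
  rcases le_total p (39 / 100) with g16 | g1016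
  · rw [kcl16 g1015 g16, kcl2 (p := -p) (by linarith) (by linarith)]; ring
  rcases le_total p (9 / 20) with g17 | g1017
  · rw [kcl17 g1016 g17, kcl1 (p := -p) (by linarith) (by linarith)]; ring
  · rw [kcl18 g1017 (by linarith), kcl0 (p := -p) (by linarith) (by linarith)]; ring
theorem ctA : cT (-61 / 277) = 529 / 554 := by
  unfold cT
  rw [show (3 / 4 * (1 - (-61 / 277 : ℝ) ^ 2)) = (234 / 277) ^ 2 by norm_num, Real.sqrt_sq (by norm_num)]
  norm_num
theorem ctB : cT (-59 / 566) = 517 / 566 := by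
  unfold cT
  rw [show (3 / 4 * (1 - (-59 / 566 : ℝ) ^ 2)) = (975 / 1132) ^ 2 by norm_num, Real.sqrt_sq (by norm_num)]
  norm_num
theorem kgA {x : ℝ} : kcg.v (-61 / 277) x = (41879 / 500000 + (x - 13 / 32) * (-33191 / 50000)) := by
  rw [kcl4 (by norm_num) (by norm_num)]
  ring
theorem kgB {x : ℝ} : kcg.v (-59 / 566) x = (6763 / 200000 + (x - 13 / 32) * (-10069 / 50000)) := by
  rw [kcl6 (by norm_num) (by norm_num)]
  ring
theorem ka_dt1 (x : ℝ) : dt1.kv (-1 / 2) x = (-46863 / 200000 + (x - 13 / 32) * (-56903 / 50000)) := by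
  simp only [dt1, DT.kv, sw1, sl1, sv1]
  ((try push_cast); ring1)
theorem kb_dt1 (x : ℝ) : dt1.kv (-9 / 20) x = (-18047 / 125000 + (x - 13 / 32) * (-27771 / 25000)) := by
  simp only [dt1, DT.kv, sw1, sl1, sv1]
  ((try push_cast); ring1)
theorem ka_dt2 (x : ℝ) : dt2.kv (-9 / 20) x = (-18047 / 125000 + (x - 13 / 32) * (-27771 / 25000)) := by
  simp only [dt2, DT.kv, sw2, sl2, sv2]
  ((try push_cast); ring1)
theorem kb_dt2 (x : ℝ) : dt2.kv (-39 / 100) x = (-4557 / 125000 + (x - 13 / 32) * (-13443 / 12500)) := by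
  simp only [dt2, DT.kv, sw2, sl2, sv2]
  ((try push_cast); ring1)
theorem ka_dt20 (x : ℝ) : dt20.kv (-1 / 2) x = (-46863 / 200000 + (x - 13 / 32) * (-56903 / 50000)) :=
  (DT.kv_le (by simp only [Cn.rt_v, Cn.ng_v]; norm_num)).trans (ka_dt1 x)
theorem kb_dt20 (x : ℝ) : dt20.kv (-39 / 100) x = (-4557 / 125000 + (x - 13 / 32) * (-13443 / 12500)) :=
  (DT.kv_gt (by simp only [Cn.rt_v, Cn.ng_v]; norm_num)).trans (kb_dt2 x)
theorem ka_dt3 (x : ℝ) : dt3.kv (-39 / 100) x = (-4557 / 125000 + (x - 13 / 32) * (-13443 / 12500)) := by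
  simp only [dt3, DT.kv, sw3, sl3, sv3]
  ((try push_cast); ring1)
theorem kb_dt3 (x : ℝ) : dt3.kv (-33 / 100) x = (48791 / 1000000 + (x - 13 / 32) * (-3146 / 3125)) := by
  simp only [dt3, DT.kv, sw3, sl3, sv3]
  ((try push_cast); ring1)
theorem ka_dt4 (x : ℝ) : dt4.kv (-33 / 100) x = (48791 / 1000000 + (x - 13 / 32) * (-3146 / 3125)) := by
  simp only [dt4, DT.kv, sw4, sl4, sv4]
  ((try push_cast); ring1)
theorem kb_dt4 (x : ℝ) : dt4.kv (-27 / 100) x = (2747 / 31250 + (x - 13 / 32) * (-16959 / 20000)) := by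
  simp only [dt4, DT.kv, sw4, sl4, sv4]
  ((try push_cast); ring1)
theorem ka_dt21 (x : ℝ) : dt21.kv (-39 / 100) x = (-4557 / 125000 + (x - 13 / 32) * (-13443 / 12500)) :=
  (DT.kv_le (by simp only [Cn.rt_v, Cn.ng_v]; norm_num)).trans (ka_dt3 x)
theorem kb_dt21 (x : ℝ) : dt21.kv (-27 / 100) x = (2747 / 31250 + (x - 13 / 32) * (-16959 / 20000)) :=
  (DT.kv_gt (by simp only [Cn.rt_v, Cn.ng_v]; norm_num)).trans (kb_dt4 x)
theorem ka_dt22 (x : ℝ) : dt22.kv (-1 / 2) x = (-46863 / 200000 + (x - 13 / 32) * (-56903 / 50000)) :=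
  (DT.kv_le (by simp only [Cn.rt_v, Cn.ng_v]; norm_num)).trans (ka_dt20 x)
theorem kb_dt22 (x : ℝ) : dt22.kv (-27 / 100) x = (2747 / 31250 + (x - 13 / 32) * (-16959 / 20000)) :=
  (DT.kv_gt (by simp only [Cn.rt_v, Cn.ng_v]; norm_num)).trans (kb_dt21 x)
theorem ka_dt5 (x : ℝ) : dt5.kv (-27 / 100) x = (2747 / 31250 + (x - 13 / 32) * (-16959 / 20000)) := by
  simp only [dt5, DT.kv, sw5, sl5, sv5]
  ((try push_cast); ring1)
theorem kb_dt5 (x : ℝ) : dt5.kv (-61 / 277) x = (41879 / 500000 + (x - 13 / 32) * (-33191 / 50000)) := by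
  simp only [dt5, DT.kv, sw5, sl5, sv5]
  ((try push_cast); ring1)
theorem ka_dt6 (x : ℝ) : dt6.kv (-61 / 277) x = (41879 / 500000 + (x - 13 / 32) * (-33191 / 50000)) := by
  simp only [dt6, DT.kv, sw6, sl6, sv6]
  ((try push_cast); ring1)
theorem kb_dt6 (x : ℝ) : dt6.kv (-4 / 25) x = (54141 / 1000000 + (x - 13 / 32) * (-1713 / 4000)) := by
  simp only [dt6, DT.kv, sw6, sl6, sv6]
  ((try push_cast); ring1)
theorem ka_dt23 (x : ℝ) : dt23.kv (-27 / 100) x = (2747 / 31250 + (x - 13 / 32) * (-16959 / 20000)) :=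
  (DT.kv_le (by simp only [Cn.rt_v, Cn.ng_v]; norm_num)).trans (ka_dt5 x)
theorem kb_dt23 (x : ℝ) : dt23.kv (-4 / 25) x = (54141 / 1000000 + (x - 13 / 32) * (-1713 / 4000)) :=
  (DT.kv_gt (by simp only [Cn.rt_v, Cn.ng_v]; norm_num)).trans (kb_dt6 x)
theorem ka_dt7 (x : ℝ) : dt7.kv (-4 / 25) x = (54141 / 1000000 + (x - 13 / 32) * (-1713 / 4000)) := by
  simp only [dt7, DT.kv, sw7, sl7, sv7]
  ((try push_cast); ring1)
theorem kb_dt7 (x : ℝ) : dt7.kv (-59 / 566) x = (6763 / 200000 + (x - 13 / 32) * (-10069 / 50000)) := by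
  simp only [dt7, DT.kv, sw7, sl7, sv7]
  ((try push_cast); ring1)
theorem ka_dt8 (x : ℝ) : dt8.kv (-59 / 566) x = (6763 / 200000 + (x - 13 / 32) * (-10069 / 50000)) := by
  simp only [dt8, DT.kv, sw8, sl8, sv8]
  ((try push_cast); ring1)
theorem kb_dt8 (x : ℝ) : dt8.kv (-7 / 100) x = (9899 / 500000 + (x - 13 / 32) * (-5083 / 50000)) := by
  simp only [dt8, DT.kv, sw8, sl8, sv8]
  ((try push_cast); ring1)
theorem ka_dt9 (x : ℝ) : dt9.kv (-7 / 100) x = (9899 / 500000 + (x - 13 / 32) * (-5083 / 50000)) := by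
  simp only [dt9, DT.kv, sw9, sl9, sv9]
  ((try push_cast); ring1)
theorem kb_dt9 (x : ℝ) : dt9.kv (-7 / 200) x = (5659 / 1000000 + (x - 13 / 32) * (-4749 / 100000)) := by
  simp only [dt9, DT.kv, sw9, sl9, sv9]
  ((try push_cast); ring1)
theorem ka_dt24 (x : ℝ) : dt24.kv (-59 / 566) x = (6763 / 200000 + (x - 13 / 32) * (-10069 / 50000)) :=
  (DT.kv_le (by simp only [Cn.rt_v, Cn.ng_v]; norm_num)).trans (ka_dt8 x)
theorem kb_dt24 (x : ℝ) : dt24.kv (-7 / 200) x = (5659 / 1000000 + (x - 13 / 32) * (-4749 / 100000)) :=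
  (DT.kv_gt (by simp only [Cn.rt_v, Cn.ng_v]; norm_num)).trans (kb_dt9 x)
theorem ka_dt25 (x : ℝ) : dt25.kv (-4 / 25) x = (54141 / 1000000 + (x - 13 / 32) * (-1713 / 4000)) :=
  (DT.kv_le (by simp only [Cn.rt_v, Cn.ng_v]; norm_num)).trans (ka_dt7 x)
theorem kb_dt25 (x : ℝ) : dt25.kv (-7 / 200) x = (5659 / 1000000 + (x - 13 / 32) * (-4749 / 100000)) :=
  (DT.kv_gt (by simp only [Cn.rt_v, Cn.ng_v]; norm_num)).trans (kb_dt24 x)
theorem ka_dt26 (x : ℝ) : dt26.kv (-27 / 100) x = (2747 / 31250 + (x - 13 / 32) * (-16959 / 20000)) :=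
  (DT.kv_le (by simp only [Cn.rt_v, Cn.ng_v]; norm_num)).trans (ka_dt23 x)
theorem kb_dt26 (x : ℝ) : dt26.kv (-7 / 200) x = (5659 / 1000000 + (x - 13 / 32) * (-4749 / 100000)) :=
  (DT.kv_gt (by simp only [Cn.rt_v, Cn.ng_v]; norm_num)).trans (kb_dt25 x)
theorem ka_dt27 (x : ℝ) : dt27.kv (-1 / 2) x = (-46863 / 200000 + (x - 13 / 32) * (-56903 / 50000)) :=
  (DT.kv_le (by simp only [Cn.rt_v, Cn.ng_v]; norm_num)).trans (ka_dt22 x)
theorem kb_dt27 (x : ℝ) : dt27.kv (-7 / 200) x = (5659 / 1000000 + (x - 13 / 32) * (-4749 / 100000)) :=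
  (DT.kv_gt (by simp only [Cn.rt_v, Cn.ng_v]; norm_num)).trans (kb_dt26 x)
theorem ka_dt10 (x : ℝ) : dt10.kv (-7 / 200) x = (5659 / 1000000 + (x - 13 / 32) * (-4749 / 100000)) := by
  simp only [dt10, DT.kv, sl10, sv10]
  ((try push_cast); ring1)
theorem kb_dt10 (x : ℝ) : dt10.kv (7 / 200) x = (-5659 / 1000000 + (x - 13 / 32) * (4749 / 100000)) := by
  simp only [dt10, DT.kv, sl10, sv10]
  ((try push_cast); ring1)
theorem ka_dt11 (x : ℝ) : dt11.kv (7 / 200) x = (-5659 / 1000000 + (x - 13 / 32) * (4749 / 100000)) := by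
  simp only [dt11, DT.kv, sw11, sl11, sv11]
  ((try push_cast); ring1)
theorem kb_dt11 (x : ℝ) : dt11.kv (7 / 100) x = (-9899 / 500000 + (x - 13 / 32) * (5083 / 50000)) := by
  simp only [dt11, DT.kv, sw11, sl11, sv11]
  ((try push_cast); ring1)
theorem ka_dt28 (x : ℝ) : dt28.kv (-7 / 200) x = (5659 / 1000000 + (x - 13 / 32) * (-4749 / 100000)) :=
  (DT.kv_le (by simp only [Cn.rt_v, Cn.ng_v]; norm_num)).trans (ka_dt10 x)
theorem kb_dt28 (x : ℝ) : dt28.kv (7 / 100) x = (-9899 / 500000 + (x - 13 / 32) * (5083 / 50000)) :=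
  (DT.kv_gt (by simp only [Cn.rt_v, Cn.ng_v]; norm_num)).trans (kb_dt11 x)
theorem ka_dt12 (x : ℝ) : dt12.kv (7 / 100) x = (-9899 / 500000 + (x - 13 / 32) * (5083 / 50000)) := by
  simp only [dt12, DT.kv, sw12, sl12, sv12]
  ((try push_cast); ring1)
theorem kb_dt12 (x : ℝ) : dt12.kv (59 / 566) x = (-6763 / 200000 + (x - 13 / 32) * (10069 / 50000)) := by
  simp only [dt12, DT.kv, sw12, sl12, sv12]
  ((try push_cast); ring1)
theorem ka_dt13 (x : ℝ) : dt13.kv (59 / 566) x = (-6763 / 200000 + (x - 13 / 32) * (10069 / 50000)) := by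
  simp only [dt13, DT.kv, sw13, sl13, sv13]
  ((try push_cast); ring1)
theorem kb_dt13 (x : ℝ) : dt13.kv (4 / 25) x = (-54141 / 1000000 + (x - 13 / 32) * (1713 / 4000)) := by
  simp only [dt13, DT.kv, sw13, sl13, sv13]
  ((try push_cast); ring1)
theorem ka_dt14 (x : ℝ) : dt14.kv (4 / 25) x = (-54141 / 1000000 + (x - 13 / 32) * (1713 / 4000)) := by
  simp only [dt14, DT.kv, sw14, sl14, sv14]
  ((try push_cast); ring1)
theorem kb_dt14 (x : ℝ) : dt14.kv (61 / 277) x = (-41879 / 500000 + (x - 13 / 32) * (33191 / 50000)) := by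
  simp only [dt14, DT.kv, sw14, sl14, sv14]
  ((try push_cast); ring1)
theorem ka_dt29 (x : ℝ) : dt29.kv (59 / 566) x = (-6763 / 200000 + (x - 13 / 32) * (10069 / 50000)) :=
  (DT.kv_le (by simp only [Cn.rt_v, Cn.ng_v]; norm_num)).trans (ka_dt13 x)
theorem kb_dt29 (x : ℝ) : dt29.kv (61 / 277) x = (-41879 / 500000 + (x - 13 / 32) * (33191 / 50000)) :=
  (DT.kv_gt (by simp only [Cn.rt_v, Cn.ng_v]; norm_num)).trans (kb_dt14 x)
theorem ka_dt30 (x : ℝ) : dt30.kv (7 / 100) x = (-9899 / 500000 + (x - 13 / 32) * (5083 / 50000)) :=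
  (DT.kv_le (by simp only [Cn.rt_v, Cn.ng_v]; norm_num)).trans (ka_dt12 x)
theorem kb_dt30 (x : ℝ) : dt30.kv (61 / 277) x = (-41879 / 500000 + (x - 13 / 32) * (33191 / 50000)) :=
  (DT.kv_gt (by simp only [Cn.rt_v, Cn.ng_v]; norm_num)).trans (kb_dt29 x)
theorem ka_dt31 (x : ℝ) : dt31.kv (-7 / 200) x = (5659 / 1000000 + (x - 13 / 32) * (-4749 / 100000)) :=
  (DT.kv_le (by simp only [Cn.rt_v, Cn.ng_v]; norm_num)).trans (ka_dt28 x)
theorem kb_dt31 (x : ℝ) : dt31.kv (61 / 277) x = (-41879 / 500000 + (x - 13 / 32) * (33191 / 50000)) :=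
  (DT.kv_gt (by simp only [Cn.rt_v, Cn.ng_v]; norm_num)).trans (kb_dt30 x)
theorem ka_dt15 (x : ℝ) : dt15.kv (61 / 277) x = (-41879 / 500000 + (x - 13 / 32) * (33191 / 50000)) := by
  simp only [dt15, DT.kv, sw15, sl15, sv15]
  ((try push_cast); ring1)
theorem kb_dt15 (x : ℝ) : dt15.kv (27 / 100) x = (-2747 / 31250 + (x - 13 / 32) * (16959 / 20000)) := by
  simp only [dt15, DT.kv, sw15, sl15, sv15]
  ((try push_cast); ring1)
theorem ka_dt16 (x : ℝ) : dt16.kv (27 / 100) x = (-2747 / 31250 + (x - 13 / 32) * (16959 / 20000)) := by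
  simp only [dt16, DT.kv, sw16, sl16, sv16]
  ((try push_cast); ring1)
theorem kb_dt16 (x : ℝ) : dt16.kv (33 / 100) x = (-48791 / 1000000 + (x - 13 / 32) * (3146 / 3125)) := by
  simp only [dt16, DT.kv, sw16, sl16, sv16]
  ((try push_cast); ring1)
theorem ka_dt32 (x : ℝ) : dt32.kv (61 / 277) x = (-41879 / 500000 + (x - 13 / 32) * (33191 / 50000)) :=
  (DT.kv_le (by simp only [Cn.rt_v, Cn.ng_v]; norm_num)).trans (ka_dt15 x)
theorem kb_dt32 (x : ℝ) : dt32.kv (33 / 100) x = (-48791 / 1000000 + (x - 13 / 32) * (3146 / 3125)) :=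
  (DT.kv_gt (by simp only [Cn.rt_v, Cn.ng_v]; norm_num)).trans (kb_dt16 x)
theorem ka_dt17 (x : ℝ) : dt17.kv (33 / 100) x = (-48791 / 1000000 + (x - 13 / 32) * (3146 / 3125)) := by
  simp only [dt17, DT.kv, sw17, sl17, sv17]
  ((try push_cast); ring1)
theorem kb_dt17 (x : ℝ) : dt17.kv (39 / 100) x = (4557 / 125000 + (x - 13 / 32) * (13443 / 12500)) := by
  simp only [dt17, DT.kv, sw17, sl17, sv17]
  ((try push_cast); ring1)
theorem ka_dt18 (x : ℝ) : dt18.kv (39 / 100) x = (4557 / 125000 + (x - 13 / 32) * (13443 / 12500)) := by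
  simp only [dt18, DT.kv, sw18, sl18, sv18]
  ((try push_cast); ring1)
theorem kb_dt18 (x : ℝ) : dt18.kv (9 / 20) x = (18047 / 125000 + (x - 13 / 32) * (27771 / 25000)) := by
  simp only [dt18, DT.kv, sw18, sl18, sv18]
  ((try push_cast); ring1)
theorem ka_dt19 (x : ℝ) : dt19.kv (9 / 20) x = (18047 / 125000 + (x - 13 / 32) * (27771 / 25000)) := by
  simp only [dt19, DT.kv, sw19, sl19, sv19]
  ((try push_cast); ring1)
theorem kb_dt19 (x : ℝ) : dt19.kv (1 / 2) x = (46863 / 200000 + (x - 13 / 32) * (56903 / 50000)) := by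
  simp only [dt19, DT.kv, sw19, sl19, sv19]
  ((try push_cast); ring1)
theorem ka_dt33 (x : ℝ) : dt33.kv (39 / 100) x = (4557 / 125000 + (x - 13 / 32) * (13443 / 12500)) :=
  (DT.kv_le (by simp only [Cn.rt_v, Cn.ng_v]; norm_num)).trans (ka_dt18 x)
theorem kb_dt33 (x : ℝ) : dt33.kv (1 / 2) x = (46863 / 200000 + (x - 13 / 32) * (56903 / 50000)) :=
  (DT.kv_gt (by simp only [Cn.rt_v, Cn.ng_v]; norm_num)).trans (kb_dt19 x)
theorem ka_dt34 (x : ℝ) : dt34.kv (33 / 100) x = (-48791 / 1000000 + (x - 13 / 32) * (3146 / 3125)) :=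
  (DT.kv_le (by simp only [Cn.rt_v, Cn.ng_v]; norm_num)).trans (ka_dt17 x)
theorem kb_dt34 (x : ℝ) : dt34.kv (1 / 2) x = (46863 / 200000 + (x - 13 / 32) * (56903 / 50000)) :=
  (DT.kv_gt (by simp only [Cn.rt_v, Cn.ng_v]; norm_num)).trans (kb_dt33 x)
theorem ka_dt35 (x : ℝ) : dt35.kv (61 / 277) x = (-41879 / 500000 + (x - 13 / 32) * (33191 / 50000)) :=
  (DT.kv_le (by simp only [Cn.rt_v, Cn.ng_v]; norm_num)).trans (ka_dt32 x)
theorem kb_dt35 (x : ℝ) : dt35.kv (1 / 2) x = (46863 / 200000 + (x - 13 / 32) * (56903 / 50000)) :=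
  (DT.kv_gt (by simp only [Cn.rt_v, Cn.ng_v]; norm_num)).trans (kb_dt34 x)
theorem ka_dt36 (x : ℝ) : dt36.kv (-7 / 200) x = (5659 / 1000000 + (x - 13 / 32) * (-4749 / 100000)) :=
  (DT.kv_le (by simp only [Cn.rt_v, Cn.ng_v]; norm_num)).trans (ka_dt31 x)
theorem kb_dt36 (x : ℝ) : dt36.kv (1 / 2) x = (46863 / 200000 + (x - 13 / 32) * (56903 / 50000)) :=
  (DT.kv_gt (by simp only [Cn.rt_v, Cn.ng_v]; norm_num)).trans (kb_dt35 x)
theorem ka_dt37 (x : ℝ) : dt37.kv (-1 / 2) x = (-46863 / 200000 + (x - 13 / 32) * (-56903 / 50000)) :=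
  (DT.kv_le (by simp only [Cn.rt_v, Cn.ng_v]; norm_num)).trans (ka_dt27 x)
theorem kb_dt37 (x : ℝ) : dt37.kv (1 / 2) x = (46863 / 200000 + (x - 13 / 32) * (56903 / 50000)) :=
  (DT.kv_gt (by simp only [Cn.rt_v, Cn.ng_v]; norm_num)).trans (kb_dt36 x)
theorem ko_dt1 (x : ℝ) : dt1.KOk x := trivial
theorem ko_dt2 (x : ℝ) : dt2.KOk x := trivial
theorem ko_dt20 (x : ℝ) : dt20.KOk x :=
  DT.kOk_node (v := -9 / 20) (by simp only [Cn.rt_v, Cn.ng_v]; norm_num) (kb_dt1 x) (ka_dt2 x) (by ring1) (ko_dt1 x) (ko_dt2 x)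
theorem ko_dt3 (x : ℝ) : dt3.KOk x := trivial
theorem ko_dt4 (x : ℝ) : dt4.KOk x := trivial
theorem ko_dt21 (x : ℝ) : dt21.KOk x :=
  DT.kOk_node (v := -33 / 100) (by simp only [Cn.rt_v, Cn.ng_v]; norm_num) (kb_dt3 x) (ka_dt4 x) (by ring1) (ko_dt3 x) (ko_dt4 x)
theorem ko_dt22 (x : ℝ) : dt22.KOk x :=
  DT.kOk_node (v := -39 / 100) (by simp only [Cn.rt_v, Cn.ng_v]; norm_num) (kb_dt20 x) (ka_dt21 x) (by ring1) (ko_dt20 x) (ko_dt21 x)
theorem ko_dt5 (x : ℝ) : dt5.KOk x := trivial
theorem ko_dt6 (x : ℝ) : dt6.KOk x := trivial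
theorem ko_dt23 (x : ℝ) : dt23.KOk x :=
  DT.kOk_node (v := -61 / 277) (by simp only [Cn.rt_v, Cn.ng_v]; norm_num) (kb_dt5 x) (ka_dt6 x) (by ring1) (ko_dt5 x) (ko_dt6 x)
theorem ko_dt7 (x : ℝ) : dt7.KOk x := trivial
theorem ko_dt8 (x : ℝ) : dt8.KOk x := trivial
theorem ko_dt9 (x : ℝ) : dt9.KOk x := trivial
theorem ko_dt24 (x : ℝ) : dt24.KOk x :=
  DT.kOk_node (v := -7 / 100) (by simp only [Cn.rt_v, Cn.ng_v]; norm_num) (kb_dt8 x) (ka_dt9 x) (by ring1) (ko_dt8 x) (ko_dt9 x)
theorem ko_dt25 (x : ℝ) : dt25.KOk x :=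
  DT.kOk_node (v := -59 / 566) (by simp only [Cn.rt_v, Cn.ng_v]; norm_num) (kb_dt7 x) (ka_dt24 x) (by ring1) (ko_dt7 x) (ko_dt24 x)
theorem ko_dt26 (x : ℝ) : dt26.KOk x :=
  DT.kOk_node (v := -4 / 25) (by simp only [Cn.rt_v, Cn.ng_v]; norm_num) (kb_dt23 x) (ka_dt25 x) (by ring1) (ko_dt23 x) (ko_dt25 x)
theorem ko_dt27 (x : ℝ) : dt27.KOk x :=
  DT.kOk_node (v := -27 / 100) (by simp only [Cn.rt_v, Cn.ng_v]; norm_num) (kb_dt22 x) (ka_dt26 x) (by ring1) (ko_dt22 x) (ko_dt26 x)
theorem ko_dt10 (x : ℝ) : dt10.KOk x := trivial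
theorem ko_dt11 (x : ℝ) : dt11.KOk x := trivial
theorem ko_dt28 (x : ℝ) : dt28.KOk x :=
  DT.kOk_node (v := 7 / 200) (by simp only [Cn.rt_v, Cn.ng_v]; norm_num) (kb_dt10 x) (ka_dt11 x) (by ring1) (ko_dt10 x) (ko_dt11 x)
theorem ko_dt12 (x : ℝ) : dt12.KOk x := trivial
theorem ko_dt13 (x : ℝ) : dt13.KOk x := trivial
theorem ko_dt14 (x : ℝ) : dt14.KOk x := trivial
theorem ko_dt29 (x : ℝ) : dt29.KOk x :=
  DT.kOk_node (v := 4 / 25) (by simp only [Cn.rt_v, Cn.ng_v]; norm_num) (kb_dt13 x) (ka_dt14 x) (by ring1) (ko_dt13 x) (ko_dt14 x)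
theorem ko_dt30 (x : ℝ) : dt30.KOk x :=
  DT.kOk_node (v := 59 / 566) (by simp only [Cn.rt_v, Cn.ng_v]; norm_num) (kb_dt12 x) (ka_dt29 x) (by ring1) (ko_dt12 x) (ko_dt29 x)
theorem ko_dt31 (x : ℝ) : dt31.KOk x :=
  DT.kOk_node (v := 7 / 100) (by simp only [Cn.rt_v, Cn.ng_v]; norm_num) (kb_dt28 x) (ka_dt30 x) (by ring1) (ko_dt28 x) (ko_dt30 x)
theorem ko_dt15 (x : ℝ) : dt15.KOk x := trivial
theorem ko_dt16 (x : ℝ) : dt16.KOk x := trivial
theorem ko_dt32 (x : ℝ) : dt32.KOk x :=
  DT.kOk_node (v := 27 / 100) (by simp only [Cn.rt_v, Cn.ng_v]; norm_num) (kb_dt15 x) (ka_dt16 x) (by ring1) (ko_dt15 x) (ko_dt16 x)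
theorem ko_dt17 (x : ℝ) : dt17.KOk x := trivial
theorem ko_dt18 (x : ℝ) : dt18.KOk x := trivial
theorem ko_dt19 (x : ℝ) : dt19.KOk x := trivial
theorem ko_dt33 (x : ℝ) : dt33.KOk x :=
  DT.kOk_node (v := 9 / 20) (by simp only [Cn.rt_v, Cn.ng_v]; norm_num) (kb_dt18 x) (ka_dt19 x) (by ring1) (ko_dt18 x) (ko_dt19 x)
theorem ko_dt34 (x : ℝ) : dt34.KOk x :=
  DT.kOk_node (v := 39 / 100) (by simp only [Cn.rt_v, Cn.ng_v]; norm_num) (kb_dt17 x) (ka_dt33 x) (by ring1) (ko_dt17 x) (ko_dt33 x)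
theorem ko_dt35 (x : ℝ) : dt35.KOk x :=
  DT.kOk_node (v := 33 / 100) (by simp only [Cn.rt_v, Cn.ng_v]; norm_num) (kb_dt32 x) (ka_dt34 x) (by ring1) (ko_dt32 x) (ko_dt34 x)
theorem ko_dt36 (x : ℝ) : dt36.KOk x :=
  DT.kOk_node (v := 61 / 277) (by simp only [Cn.rt_v, Cn.ng_v]; norm_num) (kb_dt31 x) (ka_dt35 x) (by ring1) (ko_dt31 x) (ko_dt35 x)
theorem ko_dt37 (x : ℝ) : dt37.KOk x :=
  DT.kOk_node (v := -7 / 200) (by simp only [Cn.rt_v, Cn.ng_v]; norm_num) (kb_dt27 x) (ka_dt36 x) (by ring1) (ko_dt27 x) (ko_dt36 x)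
theorem txl0 {p c x : ℝ} (h1 : -1 / 2 ≤ p) (h2 : p ≤ -9 / 20) : txg.v p c x = dt72.val (fun p x => kcg.v p x) p c x := by
  symm
  refine (DT.val_le (by simp only [Cn.rt_v, Cn.ng_v]; push_cast; linarith)).trans ?_
  refine (DT.val_le (by simp only [Cn.rt_v, Cn.ng_v]; push_cast; linarith)).trans ?_
  refine (DT.val_le (by simp only [Cn.rt_v, Cn.ng_v]; push_cast; linarith)).trans ?_
  refine (DT.val_le (by simp only [Cn.rt_v, Cn.ng_v]; push_cast; linarith)).trans ?_
  simp only [dt38, DT.val, cloR, sw38, sl38, sv38, txg, txg_4, txg_6, txg_27, txg_30, txg_71, txg_92, txg_125, txg_143, txg_145, txg_147, txg_150, txg_176, txg_216, txg_237, txg_278, txg_280, txg_299, txg_343, txg_364]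
  rcases eq_or_lt_of_le h1 with h | h1
  · subst h
    ((try push_cast); (repeat first | rw [if_pos (by linarith)] | rw [if_neg (by linarith)] | erw [if_pos (by linarith)] | erw [if_neg (by linarith)]); (try push_cast); (try ring1))
  rcases eq_or_lt_of_le h2 with h | h2
  · subst h
    ((try push_cast); (repeat first | rw [if_pos (by linarith)] | rw [if_neg (by linarith)] | erw [if_pos (by linarith)] | erw [if_neg (by linarith)]); (try push_cast); (try ring1))
  · ((try push_cast); (repeat first | rw [if_pos (by linarith)] | rw [if_neg (by linarith)] | erw [if_pos (by linarith)] | erw [if_neg (by linarith)]); (try push_cast); (try ring1))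
theorem txl1 {p c x : ℝ} (h1 : -9 / 20 < p) (h2 : p ≤ -39 / 100) : txg.v p c x = dt72.val (fun p x => kcg.v p x) p c x := by
  symm
  refine (DT.val_le (by simp only [Cn.rt_v, Cn.ng_v]; push_cast; linarith)).trans ?_
  refine (DT.val_le (by simp only [Cn.rt_v, Cn.ng_v]; push_cast; linarith)).trans ?_
  refine (DT.val_le (by simp only [Cn.rt_v, Cn.ng_v]; push_cast; linarith)).trans ?_
  refine (DT.val_gt (by simp only [Cn.rt_v, Cn.ng_v]; push_cast; linarith)).trans ?_
  simp only [dt39, DT.val, cloR, sw39, sl39, sv39, txg, txg_4, txg_6, txg_27, txg_30, txg_71, txg_92, txg_125, txg_143, txg_145, txg_147, txg_150, txg_176, txg_216, txg_237, txg_278, txg_280, txg_299, txg_343, txg_364]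
  rcases eq_or_lt_of_le h2 with h | h2
  · subst h
    ((try push_cast); (repeat first | rw [if_pos (by linarith)] | rw [if_neg (by linarith)] | erw [if_pos (by linarith)] | erw [if_neg (by linarith)]); (try push_cast); (try ring1))
  · ((try push_cast); (repeat first | rw [if_pos (by linarith)] | rw [if_neg (by linarith)] | erw [if_pos (by linarith)] | erw [if_neg (by linarith)]); (try push_cast); (try ring1))
theorem txl2 {p c x : ℝ} (h1 : -39 / 100 < p) (h2 : p ≤ -33 / 100) : txg.v p c x = dt72.val (fun p x => kcg.v p x) p c x := by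
  symm
  refine (DT.val_le (by simp only [Cn.rt_v, Cn.ng_v]; push_cast; linarith)).trans ?_
  refine (DT.val_le (by simp only [Cn.rt_v, Cn.ng_v]; push_cast; linarith)).trans ?_
  refine (DT.val_gt (by simp only [Cn.rt_v, Cn.ng_v]; push_cast; linarith)).trans ?_
  refine (DT.val_le (by simp only [Cn.rt_v, Cn.ng_v]; push_cast; linarith)).trans ?_
  simp only [dt40, DT.val, cloR, sw40, sl40, sv40, txg, txg_4, txg_6, txg_27, txg_30, txg_71, txg_92, txg_125, txg_143, txg_145, txg_147, txg_150, txg_176, txg_216, txg_237, txg_278, txg_280, txg_299, txg_343, txg_364]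
  rcases eq_or_lt_of_le h2 with h | h2
  · subst h
    ((try push_cast); (repeat first | rw [if_pos (by linarith)] | rw [if_neg (by linarith)] | erw [if_pos (by linarith)] | erw [if_neg (by linarith)]); (try push_cast); (try ring1))
  · ((try push_cast); (repeat first | rw [if_pos (by linarith)] | rw [if_neg (by linarith)] | erw [if_pos (by linarith)] | erw [if_neg (by linarith)]); (try push_cast); (try ring1))
theorem txl3 {p c x : ℝ} (h1 : -33 / 100 < p) (h2 : p ≤ -27 / 100) : txg.v p c x = dt72.val (fun p x => kcg.v p x) p c x := by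
  symm
  refine (DT.val_le (by simp only [Cn.rt_v, Cn.ng_v]; push_cast; linarith)).trans ?_
  refine (DT.val_le (by simp only [Cn.rt_v, Cn.ng_v]; push_cast; linarith)).trans ?_
  refine (DT.val_gt (by simp only [Cn.rt_v, Cn.ng_v]; push_cast; linarith)).trans ?_
  refine (DT.val_gt (by simp only [Cn.rt_v, Cn.ng_v]; push_cast; linarith)).trans ?_
  simp only [dt41, DT.val, cloR, sw41, sl41, sv41, txg, txg_4, txg_6, txg_27, txg_30, txg_71, txg_92, txg_125, txg_143, txg_145, txg_147, txg_150, txg_176, txg_216, txg_237, txg_278, txg_280, txg_299, txg_343, txg_364]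
  rcases eq_or_lt_of_le h2 with h | h2
  · subst h
    ((try push_cast); (repeat first | rw [if_pos (by linarith)] | rw [if_neg (by linarith)] | erw [if_pos (by linarith)] | erw [if_neg (by linarith)]); (try push_cast); (try ring1))
  · ((try push_cast); (repeat first | rw [if_pos (by linarith)] | rw [if_neg (by linarith)] | erw [if_pos (by linarith)] | erw [if_neg (by linarith)]); (try push_cast); (try ring1))
theorem txl4 {p c x : ℝ} (h1 : -27 / 100 < p) (h2 : p ≤ -61 / 277) : txg.v p c x = dt72.val (fun p x => kcg.v p x) p c x := by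
  symm
  refine (DT.val_le (by simp only [Cn.rt_v, Cn.ng_v]; push_cast; linarith)).trans ?_
  refine (DT.val_gt (by simp only [Cn.rt_v, Cn.ng_v]; push_cast; linarith)).trans ?_
  refine (DT.val_le (by simp only [Cn.rt_v, Cn.ng_v]; push_cast; linarith)).trans ?_
  refine (DT.val_le (by simp only [Cn.rt_v, Cn.ng_v]; push_cast; linarith)).trans ?_
  simp only [dt42, DT.val, cloR, sw42, sl42, sl42_2, sv42, sv42_2, txg, txg_4, txg_6, txg_27, txg_30, txg_71, txg_92, txg_125, txg_143, txg_145, txg_147, txg_150, txg_176, txg_216, txg_237, txg_278, txg_280, txg_299, txg_343, txg_364]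
  rcases eq_or_lt_of_le h2 with h | h2
  · subst h
    ((try push_cast); (repeat first | rw [if_pos (by linarith)] | rw [if_neg (by linarith)] | erw [if_pos (by linarith)] | erw [if_neg (by linarith)]); (try push_cast); (try ring1))
  · ((try push_cast); (repeat first | rw [if_pos (by linarith)] | rw [if_neg (by linarith)] | erw [if_pos (by linarith)] | erw [if_neg (by linarith)]); (try push_cast); (try ring1))
theorem txl5 {p c x : ℝ} (h1 : -61 / 277 < p) (h2 : p ≤ -59 / 566) : txg.v p c x = dt72.val (fun p x => kcg.v p x) p c x := by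
  symm
  refine (DT.val_le (by simp only [Cn.rt_v, Cn.ng_v]; push_cast; linarith)).trans ?_
  refine (DT.val_gt (by simp only [Cn.rt_v, Cn.ng_v]; push_cast; linarith)).trans ?_
  refine (DT.val_le (by simp only [Cn.rt_v, Cn.ng_v]; push_cast; linarith)).trans ?_
  refine (DT.val_gt (by simp only [Cn.rt_v, Cn.ng_v]; push_cast; linarith)).trans ?_
  simp only [dt43, DT.val, cloR, txg, txg_4, txg_6, txg_27, txg_30, txg_71, txg_92, txg_125, txg_143, txg_145, txg_147, txg_150, txg_176, txg_216, txg_237, txg_278, txg_280, txg_299, txg_343, txg_364]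
  rcases eq_or_lt_of_le h2 with h | h2
  · subst h
    ((try push_cast); (repeat first | rw [if_pos (by linarith)] | rw [if_neg (by linarith)] | erw [if_pos (by linarith)] | erw [if_neg (by linarith)]); (try push_cast); (try ring1))
  · ((try push_cast); (repeat first | rw [if_pos (by linarith)] | rw [if_neg (by linarith)] | erw [if_pos (by linarith)] | erw [if_neg (by linarith)]); (try push_cast); (try ring1))
theorem txl6 {p c x : ℝ} (h1 : -59 / 566 < p) (h2 : p ≤ -7 / 100) : txg.v p c x = dt72.val (fun p x => kcg.v p x) p c x := by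
  symm
  refine (DT.val_le (by simp only [Cn.rt_v, Cn.ng_v]; push_cast; linarith)).trans ?_
  refine (DT.val_gt (by simp only [Cn.rt_v, Cn.ng_v]; push_cast; linarith)).trans ?_
  refine (DT.val_gt (by simp only [Cn.rt_v, Cn.ng_v]; push_cast; linarith)).trans ?_
  refine (DT.val_le (by simp only [Cn.rt_v, Cn.ng_v]; push_cast; linarith)).trans ?_
  simp only [dt44, DT.val, cloR, sw44, sl44, sl44_2, sv44, sv44_2, txg, txg_4, txg_6, txg_27, txg_30, txg_71, txg_92, txg_125, txg_143, txg_145, txg_147, txg_150, txg_176, txg_216, txg_237, txg_278, txg_280, txg_299, txg_343, txg_364]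
  rcases eq_or_lt_of_le h2 with h | h2
  · subst h
    ((try push_cast); (repeat first | rw [if_pos (by linarith)] | rw [if_neg (by linarith)] | erw [if_pos (by linarith)] | erw [if_neg (by linarith)]); (try push_cast); (try ring1))
  · ((try push_cast); (repeat first | rw [if_pos (by linarith)] | rw [if_neg (by linarith)] | erw [if_pos (by linarith)] | erw [if_neg (by linarith)]); (try push_cast); (try ring1))
theorem txl7 {p c x : ℝ} (h1 : -7 / 100 < p) (h2 : p ≤ -7 / 200) : txg.v p c x = dt72.val (fun p x => kcg.v p x) p c x := by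
  symm
  refine (DT.val_le (by simp only [Cn.rt_v, Cn.ng_v]; push_cast; linarith)).trans ?_
  refine (DT.val_gt (by simp only [Cn.rt_v, Cn.ng_v]; push_cast; linarith)).trans ?_
  refine (DT.val_gt (by simp only [Cn.rt_v, Cn.ng_v]; push_cast; linarith)).trans ?_
  refine (DT.val_gt (by simp only [Cn.rt_v, Cn.ng_v]; push_cast; linarith)).trans ?_
  refine (DT.val_le (by simp only [Cn.rt_v, Cn.ng_v]; push_cast; linarith)).trans ?_
  simp only [dt45, DT.val, cloR, sw45, sl45, sv45, txg, txg_4, txg_6, txg_27, txg_30, txg_71, txg_92, txg_125, txg_143, txg_145, txg_147, txg_150, txg_176, txg_216, txg_237, txg_278, txg_280, txg_299, txg_343, txg_364]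
  rcases eq_or_lt_of_le h2 with h | h2
  · subst h
    ((try push_cast); (repeat first | rw [if_pos (by linarith)] | rw [if_neg (by linarith)] | erw [if_pos (by linarith)] | erw [if_neg (by linarith)]); (try push_cast); (try ring1))
  · ((try push_cast); (repeat first | rw [if_pos (by linarith)] | rw [if_neg (by linarith)] | erw [if_pos (by linarith)] | erw [if_neg (by linarith)]); (try push_cast); (try ring1))
theorem txl8 {p c x : ℝ} (h1 : -7 / 200 < p) (h2 : p ≤ 7 / 200) : txg.v p c x = dt72.val (fun p x => kcg.v p x) p c x := by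
  symm
  refine (DT.val_le (by simp only [Cn.rt_v, Cn.ng_v]; push_cast; linarith)).trans ?_
  refine (DT.val_gt (by simp only [Cn.rt_v, Cn.ng_v]; push_cast; linarith)).trans ?_
  refine (DT.val_gt (by simp only [Cn.rt_v, Cn.ng_v]; push_cast; linarith)).trans ?_
  refine (DT.val_gt (by simp only [Cn.rt_v, Cn.ng_v]; push_cast; linarith)).trans ?_
  refine (DT.val_gt (by simp only [Cn.rt_v, Cn.ng_v]; push_cast; linarith)).trans ?_
  simp only [dt46, DT.val, cloR, sw46, sl46, sv46, txg, txg_4, txg_6, txg_27, txg_30, txg_71, txg_92, txg_125, txg_143, txg_145, txg_147, txg_150, txg_176, txg_216, txg_237, txg_278, txg_280, txg_299, txg_343, txg_364]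
  rcases eq_or_lt_of_le h2 with h | h2
  · subst h
    ((try push_cast); (repeat first | rw [if_pos (by linarith)] | rw [if_neg (by linarith)] | erw [if_pos (by linarith)] | erw [if_neg (by linarith)]); (try push_cast); (try ring1))
  · ((try push_cast); (repeat first | rw [if_pos (by linarith)] | rw [if_neg (by linarith)] | erw [if_pos (by linarith)] | erw [if_neg (by linarith)]); (try push_cast); (try ring1))
theorem txl9 {p c x : ℝ} (h1 : 7 / 200 < p) (h2 : p ≤ 7 / 100) : txg.v p c x = dt72.val (fun p x => kcg.v p x) p c x := by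
  symm
  refine (DT.val_gt (by simp only [Cn.rt_v, Cn.ng_v]; push_cast; linarith)).trans ?_
  refine (DT.val_le (by simp only [Cn.rt_v, Cn.ng_v]; push_cast; linarith)).trans ?_
  refine (DT.val_le (by simp only [Cn.rt_v, Cn.ng_v]; push_cast; linarith)).trans ?_
  refine (DT.val_le (by simp only [Cn.rt_v, Cn.ng_v]; push_cast; linarith)).trans ?_
  simp only [dt47, DT.val, cloR, sw47, sl47, sv47, txg, txg_4, txg_6, txg_27, txg_30, txg_71, txg_92, txg_125, txg_143, txg_145, txg_147, txg_150, txg_176, txg_216, txg_237, txg_278, txg_280, txg_299, txg_343, txg_364]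
  rcases eq_or_lt_of_le h2 with h | h2
  · subst h
    ((try push_cast); (repeat first | rw [if_pos (by linarith)] | rw [if_neg (by linarith)] | erw [if_pos (by linarith)] | erw [if_neg (by linarith)]); (try push_cast); (try ring1))
  · ((try push_cast); (repeat first | rw [if_pos (by linarith)] | rw [if_neg (by linarith)] | erw [if_pos (by linarith)] | erw [if_neg (by linarith)]); (try push_cast); (try ring1))
theorem txl10 {p c x : ℝ} (h1 : 7 / 100 < p) (h2 : p ≤ 1303 / 12500) : txg.v p c x = dt72.val (fun p x => kcg.v p x) p c x := by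
  symm
  refine (DT.val_gt (by simp only [Cn.rt_v, Cn.ng_v]; push_cast; linarith)).trans ?_
  refine (DT.val_le (by simp only [Cn.rt_v, Cn.ng_v]; push_cast; linarith)).trans ?_
  refine (DT.val_le (by simp only [Cn.rt_v, Cn.ng_v]; push_cast; linarith)).trans ?_
  refine (DT.val_gt (by simp only [Cn.rt_v, Cn.ng_v]; push_cast; linarith)).trans ?_
  simp only [dt48, DT.val, cloR, sw48, sl48, sv48, txg, txg_4, txg_6, txg_27, txg_30, txg_71, txg_92, txg_125, txg_143, txg_145, txg_147, txg_150, txg_176, txg_216, txg_237, txg_278, txg_280, txg_299, txg_343, txg_364]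
  rcases eq_or_lt_of_le h2 with h | h2
  · subst h
    ((try push_cast); (repeat first | rw [if_pos (by linarith)] | rw [if_neg (by linarith)] | erw [if_pos (by linarith)] | erw [if_neg (by linarith)]); (try push_cast); (try ring1))
  · ((try push_cast); (repeat first | rw [if_pos (by linarith)] | rw [if_neg (by linarith)] | erw [if_pos (by linarith)] | erw [if_neg (by linarith)]); (try push_cast); (try ring1))
theorem txl11 {p c x : ℝ} (h1 : 1303 / 12500 < p) (h2 : p ≤ 4 / 25) : txg.v p c x = dt72.val (fun p x => kcg.v p x) p c x := by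
  symm
  refine (DT.val_gt (by simp only [Cn.rt_v, Cn.ng_v]; push_cast; linarith)).trans ?_
  refine (DT.val_le (by simp only [Cn.rt_v, Cn.ng_v]; push_cast; linarith)).trans ?_
  refine (DT.val_gt (by simp only [Cn.rt_v, Cn.ng_v]; push_cast; linarith)).trans ?_
  refine (DT.val_le (by simp only [Cn.rt_v, Cn.ng_v]; push_cast; linarith)).trans ?_
  simp only [dt49, DT.val, cloR, sw49, sl49, sv49, txg, txg_4, txg_6, txg_27, txg_30, txg_71, txg_92, txg_125, txg_143, txg_145, txg_147, txg_150, txg_176, txg_216, txg_237, txg_278, txg_280, txg_299, txg_343, txg_364]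
  rcases eq_or_lt_of_le h2 with h | h2
  · subst h
    ((try push_cast); (repeat first | rw [if_pos (by linarith)] | rw [if_neg (by linarith)] | erw [if_pos (by linarith)] | erw [if_neg (by linarith)]); (try push_cast); (try ring1))
  · ((try push_cast); (repeat first | rw [if_pos (by linarith)] | rw [if_neg (by linarith)] | erw [if_pos (by linarith)] | erw [if_neg (by linarith)]); (try push_cast); (try ring1))
theorem txl12 {p c x : ℝ} (h1 : 4 / 25 < p) (h2 : p ≤ 11011 / 50000) : txg.v p c x = dt72.val (fun p x => kcg.v p x) p c x := by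
  symm
  refine (DT.val_gt (by simp only [Cn.rt_v, Cn.ng_v]; push_cast; linarith)).trans ?_
  refine (DT.val_le (by simp only [Cn.rt_v, Cn.ng_v]; push_cast; linarith)).trans ?_
  refine (DT.val_gt (by simp only [Cn.rt_v, Cn.ng_v]; push_cast; linarith)).trans ?_
  refine (DT.val_gt (by simp only [Cn.rt_v, Cn.ng_v]; push_cast; linarith)).trans ?_
  simp only [dt50, DT.val, cloR, sw50, sl50, sv50, txg, txg_4, txg_6, txg_27, txg_30, txg_71, txg_92, txg_125, txg_143, txg_145, txg_147, txg_150, txg_176, txg_216, txg_237, txg_278, txg_280, txg_299, txg_343, txg_364]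
  rcases eq_or_lt_of_le h2 with h | h2
  · subst h
    ((try push_cast); (repeat first | rw [if_pos (by linarith)] | rw [if_neg (by linarith)] | erw [if_pos (by linarith)] | erw [if_neg (by linarith)]); (try push_cast); (try ring1))
  · ((try push_cast); (repeat first | rw [if_pos (by linarith)] | rw [if_neg (by linarith)] | erw [if_pos (by linarith)] | erw [if_neg (by linarith)]); (try push_cast); (try ring1))
theorem txl13 {p c x : ℝ} (h1 : 11011 / 50000 < p) (h2 : p ≤ 27 / 100) : txg.v p c x = dt72.val (fun p x => kcg.v p x) p c x := by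
  symm
  refine (DT.val_gt (by simp only [Cn.rt_v, Cn.ng_v]; push_cast; linarith)).trans ?_
  refine (DT.val_gt (by simp only [Cn.rt_v, Cn.ng_v]; push_cast; linarith)).trans ?_
  refine (DT.val_le (by simp only [Cn.rt_v, Cn.ng_v]; push_cast; linarith)).trans ?_
  refine (DT.val_le (by simp only [Cn.rt_v, Cn.ng_v]; push_cast; linarith)).trans ?_
  simp only [dt51, DT.val, cloR, sw51, sl51, sv51, txg, txg_4, txg_6, txg_27, txg_30, txg_71, txg_92, txg_125, txg_143, txg_145, txg_147, txg_150, txg_176, txg_216, txg_237, txg_278, txg_280, txg_299, txg_343, txg_364]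
  rcases eq_or_lt_of_le h2 with h | h2
  · subst h
    ((try push_cast); (repeat first | rw [if_pos (by linarith)] | rw [if_neg (by linarith)] | erw [if_pos (by linarith)] | erw [if_neg (by linarith)]); (try push_cast); (try ring1))
  · ((try push_cast); (repeat first | rw [if_pos (by linarith)] | rw [if_neg (by linarith)] | erw [if_pos (by linarith)] | erw [if_neg (by linarith)]); (try push_cast); (try ring1))
theorem txl14 {p c x : ℝ} (h1 : 27 / 100 < p) (h2 : p ≤ 33 / 100) : txg.v p c x = dt72.val (fun p x => kcg.v p x) p c x := by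
  symm
  refine (DT.val_gt (by simp only [Cn.rt_v, Cn.ng_v]; push_cast; linarith)).trans ?_
  refine (DT.val_gt (by simp only [Cn.rt_v, Cn.ng_v]; push_cast; linarith)).trans ?_
  refine (DT.val_le (by simp only [Cn.rt_v, Cn.ng_v]; push_cast; linarith)).trans ?_
  refine (DT.val_gt (by simp only [Cn.rt_v, Cn.ng_v]; push_cast; linarith)).trans ?_
  simp only [dt52, DT.val, cloR, sw52, sl52, sv52, txg, txg_4, txg_6, txg_27, txg_30, txg_71, txg_92, txg_125, txg_143, txg_145, txg_147, txg_150, txg_176, txg_216, txg_237, txg_278, txg_280, txg_299, txg_343, txg_364]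
  rcases eq_or_lt_of_le h2 with h | h2
  · subst h
    ((try push_cast); (repeat first | rw [if_pos (by linarith)] | rw [if_neg (by linarith)] | erw [if_pos (by linarith)] | erw [if_neg (by linarith)]); (try push_cast); (try ring1))
  · ((try push_cast); (repeat first | rw [if_pos (by linarith)] | rw [if_neg (by linarith)] | erw [if_pos (by linarith)] | erw [if_neg (by linarith)]); (try push_cast); (try ring1))
theorem txl15 {p c x : ℝ} (h1 : 33 / 100 < p) (h2 : p ≤ 39 / 100) : txg.v p c x = dt72.val (fun p x => kcg.v p x) p c x := by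
  symm
  refine (DT.val_gt (by simp only [Cn.rt_v, Cn.ng_v]; push_cast; linarith)).trans ?_
  refine (DT.val_gt (by simp only [Cn.rt_v, Cn.ng_v]; push_cast; linarith)).trans ?_
  refine (DT.val_gt (by simp only [Cn.rt_v, Cn.ng_v]; push_cast; linarith)).trans ?_
  refine (DT.val_le (by simp only [Cn.rt_v, Cn.ng_v]; push_cast; linarith)).trans ?_
  simp only [dt53, DT.val, cloR, sw53, sl53, sv53, txg, txg_4, txg_6, txg_27, txg_30, txg_71, txg_92, txg_125, txg_143, txg_145, txg_147, txg_150, txg_176, txg_216, txg_237, txg_278, txg_280, txg_299, txg_343, txg_364]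
  rcases eq_or_lt_of_le h2 with h | h2
  · subst h
    ((try push_cast); (repeat first | rw [if_pos (by linarith)] | rw [if_neg (by linarith)] | erw [if_pos (by linarith)] | erw [if_neg (by linarith)]); (try push_cast); (try ring1))
  · ((try push_cast); (repeat first | rw [if_pos (by linarith)] | rw [if_neg (by linarith)] | erw [if_pos (by linarith)] | erw [if_neg (by linarith)]); (try push_cast); (try ring1))
theorem txl16 {p c x : ℝ} (h1 : 39 / 100 < p) (h2 : p ≤ 9 / 20) : txg.v p c x = dt72.val (fun p x => kcg.v p x) p c x := by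
  symm
  refine (DT.val_gt (by simp only [Cn.rt_v, Cn.ng_v]; push_cast; linarith)).trans ?_
  refine (DT.val_gt (by simp only [Cn.rt_v, Cn.ng_v]; push_cast; linarith)).trans ?_
  refine (DT.val_gt (by simp only [Cn.rt_v, Cn.ng_v]; push_cast; linarith)).trans ?_
  refine (DT.val_gt (by simp only [Cn.rt_v, Cn.ng_v]; push_cast; linarith)).trans ?_
  refine (DT.val_le (by simp only [Cn.rt_v, Cn.ng_v]; push_cast; linarith)).trans ?_
  simp only [dt54, DT.val, cloR, sw54, sl54, sv54, txg, txg_4, txg_6, txg_27, txg_30, txg_71, txg_92, txg_125, txg_143, txg_145, txg_147, txg_150, txg_176, txg_216, txg_237, txg_278, txg_280, txg_299, txg_343, txg_364]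
  rcases eq_or_lt_of_le h2 with h | h2
  · subst h
    ((try push_cast); (repeat first | rw [if_pos (by linarith)] | rw [if_neg (by linarith)] | erw [if_pos (by linarith)] | erw [if_neg (by linarith)]); (try push_cast); (try ring1))
  · ((try push_cast); (repeat first | rw [if_pos (by linarith)] | rw [if_neg (by linarith)] | erw [if_pos (by linarith)] | erw [if_neg (by linarith)]); (try push_cast); (try ring1))
theorem txl17 {p c x : ℝ} (h1 : 9 / 20 < p) (h2 : p ≤ 1 / 2) : txg.v p c x = dt72.val (fun p x => kcg.v p x) p c x := by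
  symm
  refine (DT.val_gt (by simp only [Cn.rt_v, Cn.ng_v]; push_cast; linarith)).trans ?_
  refine (DT.val_gt (by simp only [Cn.rt_v, Cn.ng_v]; push_cast; linarith)).trans ?_
  refine (DT.val_gt (by simp only [Cn.rt_v, Cn.ng_v]; push_cast; linarith)).trans ?_
  refine (DT.val_gt (by simp only [Cn.rt_v, Cn.ng_v]; push_cast; linarith)).trans ?_
  refine (DT.val_gt (by simp only [Cn.rt_v, Cn.ng_v]; push_cast; linarith)).trans ?_
  simp only [dt55, DT.val, cloR, sw55, sl55, sv55, txg, txg_4, txg_6, txg_27, txg_30, txg_71, txg_92, txg_125, txg_143, txg_145, txg_147, txg_150, txg_176, txg_216, txg_237, txg_278, txg_280, txg_299, txg_343, txg_364]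
  rcases eq_or_lt_of_le h2 with h | h2
  · subst h
    ((try push_cast); (repeat first | rw [if_pos (by linarith)] | rw [if_neg (by linarith)] | erw [if_pos (by linarith)] | erw [if_neg (by linarith)]); (try push_cast); (try ring1))
  · ((try push_cast); (repeat first | rw [if_pos (by linarith)] | rw [if_neg (by linarith)] | erw [if_pos (by linarith)] | erw [if_neg (by linarith)]); (try push_cast); (try ring1))
theorem txe {x : ℝ} (p c : ℝ) (h : |p| ≤ 1 / 2) : txg.v p c x = dt72.val (fun p x => kcg.v p x) p c x := by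
  obtain ⟨h1, h2⟩ := abs_le.1 h
  rcases le_or_gt p (-9 / 20) with g0 | g1000
  · exact txl0 (by linarith) g0
  rcases le_or_gt p (-39 / 100) with g1 | g1001
  · exact txl1 g1000 g1
  rcases le_or_gt p (-33 / 100) with g2 | g1002
  · exact txl2 g1001 g2
  rcases le_or_gt p (-27 / 100) with g3 | g1003
  · exact txl3 g1002 g3
  rcases le_or_gt p (-61 / 277) with g4 | g1004
  · exact txl4 g1003 g4
  rcases le_or_gt p (-59 / 566) with g5 | g1005
  · exact txl5 g1004 g5
  rcases le_or_gt p (-7 / 100) with g6 | g1006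
  · exact txl6 g1005 g6
  rcases le_or_gt p (-7 / 200) with g7 | g1007
  · exact txl7 g1006 g7
  rcases le_or_gt p (7 / 200) with g8 | g1008
  · exact txl8 g1007 g8
  rcases le_or_gt p (7 / 100) with g9 | g1009
  · exact txl9 g1008 g9
  rcases le_or_gt p (1303 / 12500) with g10 | g1010
  · exact txl10 g1009 g10
  rcases le_or_gt p (4 / 25) with g11 | g1011
  · exact txl11 g1010 g11
  rcases le_or_gt p (11011 / 50000) with g12 | g1012
  · exact txl12 g1011 g12
  rcases le_or_gt p (27 / 100) with g13 | g1013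
  · exact txl13 g1012 g13
  rcases le_or_gt p (33 / 100) with g14 | g1014
  · exact txl14 g1013 g14
  rcases le_or_gt p (39 / 100) with g15 | g1015
  · exact txl15 g1014 g15
  rcases le_or_gt p (9 / 20) with g16 | g1016
  · exact txl16 g1015 g16
  · exact txl17 g1016 (by linarith)
theorem ta_dt38 (x : ℝ) : dt38.val (fun p x => kcg.v p x) (-1 / 2) (cT (-1 / 2)) x = (0) := by
  simp only [dt38, DT.val, sw38, sl38, sv38]
  ((try push_cast); ring1)
theorem tb_dt38 (x : ℝ) : dt38.val (fun p x => kcg.v p x) (-9 / 20) (cT (-9 / 20)) x = (1203 / 500000 + (x - 13 / 32) * (363 / 50000)) := by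
  simp only [dt38, DT.val, sw38, sl38, sv38]
  ((try push_cast); ring1)
theorem ta_dt39 (x : ℝ) : dt39.val (fun p x => kcg.v p x) (-9 / 20) (cT (-9 / 20)) x = (1203 / 500000 + (x - 13 / 32) * (363 / 50000)) := by
  simp only [dt39, DT.val, sw39, sl39, sv39]
  ((try push_cast); ring1)
theorem tb_dt39 (x : ℝ) : dt39.val (fun p x => kcg.v p x) (-39 / 100) (cT (-39 / 100)) x = (1757 / 200000 + (x - 13 / 32) * (279 / 25000)) := by
  simp only [dt39, DT.val, sw39, sl39, sv39]
  ((try push_cast); ring1)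
theorem ta_dt56 (x : ℝ) : dt56.val (fun p x => kcg.v p x) (-1 / 2) (cT (-1 / 2)) x = (0) :=
  (DT.val_le (by simp only [Cn.rt_v, Cn.ng_v]; norm_num)).trans (ta_dt38 x)
theorem tb_dt56 (x : ℝ) : dt56.val (fun p x => kcg.v p x) (-39 / 100) (cT (-39 / 100)) x = (1757 / 200000 + (x - 13 / 32) * (279 / 25000)) :=
  (DT.val_gt (by simp only [Cn.rt_v, Cn.ng_v]; norm_num)).trans (tb_dt39 x)
theorem ta_dt40 (x : ℝ) : dt40.val (fun p x => kcg.v p x) (-39 / 100) (cT (-39 / 100)) x = (1757 / 200000 + (x - 13 / 32) * (279 / 25000)) := by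
  simp only [dt40, DT.val, sw40, sl40, sv40]
  ((try push_cast); ring1)
theorem tb_dt40 (x : ℝ) : dt40.val (fun p x => kcg.v p x) (-33 / 100) (cT (-33 / 100)) x = (4629 / 250000 + (x - 13 / 32) * (1041 / 100000)) := by
  simp only [dt40, DT.val, sw40, sl40, sv40]
  ((try push_cast); ring1)
theorem ta_dt41 (x : ℝ) : dt41.val (fun p x => kcg.v p x) (-33 / 100) (cT (-33 / 100)) x = (4629 / 250000 + (x - 13 / 32) * (1041 / 100000)) := by
  simp only [dt41, DT.val, sw41, sl41, sv41]
  ((try push_cast); ring1)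
theorem tb_dt41 (x : ℝ) : dt41.val (fun p x => kcg.v p x) (-27 / 100) (cT (-27 / 100)) x = (31 / 1000 + (x - 13 / 32) * (1 / 125)) := by
  simp only [dt41, DT.val, sw41, sl41, sv41]
  ((try push_cast); ring1)
theorem ta_dt57 (x : ℝ) : dt57.val (fun p x => kcg.v p x) (-39 / 100) (cT (-39 / 100)) x = (1757 / 200000 + (x - 13 / 32) * (279 / 25000)) :=
  (DT.val_le (by simp only [Cn.rt_v, Cn.ng_v]; norm_num)).trans (ta_dt40 x)
theorem tb_dt57 (x : ℝ) : dt57.val (fun p x => kcg.v p x) (-27 / 100) (cT (-27 / 100)) x = (31 / 1000 + (x - 13 / 32) * (1 / 125)) :=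
  (DT.val_gt (by simp only [Cn.rt_v, Cn.ng_v]; norm_num)).trans (tb_dt41 x)
theorem ta_dt58 (x : ℝ) : dt58.val (fun p x => kcg.v p x) (-1 / 2) (cT (-1 / 2)) x = (0) :=
  (DT.val_le (by simp only [Cn.rt_v, Cn.ng_v]; norm_num)).trans (ta_dt56 x)
theorem tb_dt58 (x : ℝ) : dt58.val (fun p x => kcg.v p x) (-27 / 100) (cT (-27 / 100)) x = (31 / 1000 + (x - 13 / 32) * (1 / 125)) :=
  (DT.val_gt (by simp only [Cn.rt_v, Cn.ng_v]; norm_num)).trans (tb_dt57 x)
theorem ta_dt42 (x : ℝ) : dt42.val (fun p x => kcg.v p x) (-27 / 100) (cT (-27 / 100)) x = (31 / 1000 + (x - 13 / 32) * (1 / 125)) := by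
  simp only [dt42, DT.val, sw42, sl42, sl42_2, sv42, sv42_2]
  ((try push_cast); ring1)
theorem tb_dt42 (x : ℝ) : dt42.val (fun p x => kcg.v p x) (-61 / 277) (529 / 554) x = (5204458833 / 122766400000 + (x - 13 / 32) * (647548811 / 61383200000) + (x - 13 / 32) ^ 2 * (-232337 / 1385000)) := by
  simp only [dt42, DT.val, sw42, sl42, sl42_2, sv42, sv42_2]
  ((try push_cast); ring1)
theorem ta_dt43 (x : ℝ) : dt43.val (fun p x => kcg.v p x) (-61 / 277) (529 / 554) x = (5204458833 / 122766400000 + (x - 13 / 32) * (647548811 / 61383200000) + (x - 13 / 32) ^ 2 * (-232337 / 1385000)) := by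
  simp only [dt43, DT.val, cloR, kgA]
  ring1
theorem tb_dt43 (x : ℝ) : dt43.val (fun p x => kcg.v p x) (-59 / 566) (517 / 566) x = (9090852729 / 128142400000 + (x - 13 / 32) * (88709229 / 6407120000) + (x - 13 / 32) ^ 2 * (-211449 / 3537500)) := by
  simp only [dt43, DT.val, cloR, kgB]
  ring1
theorem ta_dt59 (x : ℝ) : dt59.val (fun p x => kcg.v p x) (-27 / 100) (cT (-27 / 100)) x = (31 / 1000 + (x - 13 / 32) * (1 / 125)) :=
  (DT.val_le (by simp only [Cn.rt_v, Cn.ng_v]; norm_num)).trans (ta_dt42 x)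
theorem tb_dt59 (x : ℝ) : dt59.val (fun p x => kcg.v p x) (-59 / 566) (517 / 566) x = (9090852729 / 128142400000 + (x - 13 / 32) * (88709229 / 6407120000) + (x - 13 / 32) ^ 2 * (-211449 / 3537500)) :=
  (DT.val_gt (by simp only [Cn.rt_v, Cn.ng_v]; norm_num)).trans (tb_dt43 x)
theorem ta_dt44 (x : ℝ) : dt44.val (fun p x => kcg.v p x) (-59 / 566) (517 / 566) x = (9090852729 / 128142400000 + (x - 13 / 32) * (88709229 / 6407120000) + (x - 13 / 32) ^ 2 * (-211449 / 3537500)) := by
  simp only [dt44, DT.val, sw44, sl44, sl44_2, sv44, sv44_2]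
  ((try push_cast); ring1)
theorem tb_dt44 (x : ℝ) : dt44.val (fun p x => kcg.v p x) (-7 / 100) (cT (-7 / 100)) x = (77713 / 1000000 + (x - 13 / 32) * (631 / 50000)) := by
  simp only [dt44, DT.val, sw44, sl44, sl44_2, sv44, sv44_2]
  ((try push_cast); ring1)
theorem ta_dt45 (x : ℝ) : dt45.val (fun p x => kcg.v p x) (-7 / 100) (cT (-7 / 100)) x = (77713 / 1000000 + (x - 13 / 32) * (631 / 50000)) := by
  simp only [dt45, DT.val, sw45, sl45, sv45]
  ((try push_cast); ring1)
theorem tb_dt45 (x : ℝ) : dt45.val (fun p x => kcg.v p x) (-7 / 200) (cT (-7 / 200)) x = (20119 / 250000 + (x - 13 / 32) * (319 / 25000)) := by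
  simp only [dt45, DT.val, sw45, sl45, sv45]
  ((try push_cast); ring1)
theorem ta_dt46 (x : ℝ) : dt46.val (fun p x => kcg.v p x) (-7 / 200) (cT (-7 / 200)) x = (20119 / 250000 + (x - 13 / 32) * (319 / 25000)) := by
  simp only [dt46, DT.val, sw46, sl46, sv46]
  ((try push_cast); ring1)
theorem tb_dt46 (x : ℝ) : dt46.val (fun p x => kcg.v p x) (7 / 200) (cT (7 / 200)) x = (80079 / 1000000 + (x - 13 / 32) * (1589 / 100000)) := by
  simp only [dt46, DT.val, sw46, sl46, sv46]
  ((try push_cast); ring1)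
theorem ta_dt60 (x : ℝ) : dt60.val (fun p x => kcg.v p x) (-7 / 100) (cT (-7 / 100)) x = (77713 / 1000000 + (x - 13 / 32) * (631 / 50000)) :=
  (DT.val_le (by simp only [Cn.rt_v, Cn.ng_v]; norm_num)).trans (ta_dt45 x)
theorem tb_dt60 (x : ℝ) : dt60.val (fun p x => kcg.v p x) (7 / 200) (cT (7 / 200)) x = (80079 / 1000000 + (x - 13 / 32) * (1589 / 100000)) :=
  (DT.val_gt (by simp only [Cn.rt_v, Cn.ng_v]; norm_num)).trans (tb_dt46 x)
theorem ta_dt61 (x : ℝ) : dt61.val (fun p x => kcg.v p x) (-59 / 566) (517 / 566) x = (9090852729 / 128142400000 + (x - 13 / 32) * (88709229 / 6407120000) + (x - 13 / 32) ^ 2 * (-211449 / 3537500)) :=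
  (DT.val_le (by simp only [Cn.rt_v, Cn.ng_v]; norm_num)).trans (ta_dt44 x)
theorem tb_dt61 (x : ℝ) : dt61.val (fun p x => kcg.v p x) (7 / 200) (cT (7 / 200)) x = (80079 / 1000000 + (x - 13 / 32) * (1589 / 100000)) :=
  (DT.val_gt (by simp only [Cn.rt_v, Cn.ng_v]; norm_num)).trans (tb_dt60 x)
theorem ta_dt62 (x : ℝ) : dt62.val (fun p x => kcg.v p x) (-27 / 100) (cT (-27 / 100)) x = (31 / 1000 + (x - 13 / 32) * (1 / 125)) :=
  (DT.val_le (by simp only [Cn.rt_v, Cn.ng_v]; norm_num)).trans (ta_dt59 x)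
theorem tb_dt62 (x : ℝ) : dt62.val (fun p x => kcg.v p x) (7 / 200) (cT (7 / 200)) x = (80079 / 1000000 + (x - 13 / 32) * (1589 / 100000)) :=
  (DT.val_gt (by simp only [Cn.rt_v, Cn.ng_v]; norm_num)).trans (tb_dt61 x)
theorem ta_dt63 (x : ℝ) : dt63.val (fun p x => kcg.v p x) (-1 / 2) (cT (-1 / 2)) x = (0) :=
  (DT.val_le (by simp only [Cn.rt_v, Cn.ng_v]; norm_num)).trans (ta_dt58 x)
theorem tb_dt63 (x : ℝ) : dt63.val (fun p x => kcg.v p x) (7 / 200) (cT (7 / 200)) x = (80079 / 1000000 + (x - 13 / 32) * (1589 / 100000)) :=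
  (DT.val_gt (by simp only [Cn.rt_v, Cn.ng_v]; norm_num)).trans (tb_dt62 x)
theorem ta_dt47 (x : ℝ) : dt47.val (fun p x => kcg.v p x) (7 / 200) (cT (7 / 200)) x = (80079 / 1000000 + (x - 13 / 32) * (1589 / 100000)) := by
  simp only [dt47, DT.val, sw47, sl47, sv47]
  ((try push_cast); ring1)
theorem tb_dt47 (x : ℝ) : dt47.val (fun p x => kcg.v p x) (7 / 100) (cT (7 / 100)) x = (1543 / 20000 + (x - 13 / 32) * (373 / 20000)) := by
  simp only [dt47, DT.val, sw47, sl47, sv47]
  ((try push_cast); ring1)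
theorem ta_dt48 (x : ℝ) : dt48.val (fun p x => kcg.v p x) (7 / 100) (cT (7 / 100)) x = (1543 / 20000 + (x - 13 / 32) * (373 / 20000)) := by
  simp only [dt48, DT.val, sw48, sl48, sv48]
  ((try push_cast); ring1)
theorem tb_dt48 (x : ℝ) : dt48.val (fun p x => kcg.v p x) (1303 / 12500) (cT (1303 / 12500)) x = (70811 / 1000000 + (x - 13 / 32) * (1111 / 50000)) := by
  simp only [dt48, DT.val, sw48, sl48, sv48]
  ((try push_cast); ring1)
theorem ta_dt64 (x : ℝ) : dt64.val (fun p x => kcg.v p x) (7 / 200) (cT (7 / 200)) x = (80079 / 1000000 + (x - 13 / 32) * (1589 / 100000)) :=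
  (DT.val_le (by simp only [Cn.rt_v, Cn.ng_v]; norm_num)).trans (ta_dt47 x)
theorem tb_dt64 (x : ℝ) : dt64.val (fun p x => kcg.v p x) (1303 / 12500) (cT (1303 / 12500)) x = (70811 / 1000000 + (x - 13 / 32) * (1111 / 50000)) :=
  (DT.val_gt (by simp only [Cn.rt_v, Cn.ng_v]; norm_num)).trans (tb_dt48 x)
theorem ta_dt49 (x : ℝ) : dt49.val (fun p x => kcg.v p x) (1303 / 12500) (cT (1303 / 12500)) x = (70811 / 1000000 + (x - 13 / 32) * (1111 / 50000)) := by
  simp only [dt49, DT.val, sw49, sl49, sv49]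
  ((try push_cast); ring1)
theorem tb_dt49 (x : ℝ) : dt49.val (fun p x => kcg.v p x) (4 / 25) (cT (4 / 25)) x = (11571 / 200000 + (x - 13 / 32) * (173 / 6250)) := by
  simp only [dt49, DT.val, sw49, sl49, sv49]
  ((try push_cast); ring1)
theorem ta_dt50 (x : ℝ) : dt50.val (fun p x => kcg.v p x) (4 / 25) (cT (4 / 25)) x = (11571 / 200000 + (x - 13 / 32) * (173 / 6250)) := by
  simp only [dt50, DT.val, sw50, sl50, sv50]
  ((try push_cast); ring1)
theorem tb_dt50 (x : ℝ) : dt50.val (fun p x => kcg.v p x) (11011 / 50000) (cT (11011 / 50000)) x = (44833 / 1000000 + (x - 13 / 32) * (599 / 20000)) := by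
  simp only [dt50, DT.val, sw50, sl50, sv50]
  ((try push_cast); ring1)
theorem ta_dt65 (x : ℝ) : dt65.val (fun p x => kcg.v p x) (1303 / 12500) (cT (1303 / 12500)) x = (70811 / 1000000 + (x - 13 / 32) * (1111 / 50000)) :=
  (DT.val_le (by simp only [Cn.rt_v, Cn.ng_v]; norm_num)).trans (ta_dt49 x)
theorem tb_dt65 (x : ℝ) : dt65.val (fun p x => kcg.v p x) (11011 / 50000) (cT (11011 / 50000)) x = (44833 / 1000000 + (x - 13 / 32) * (599 / 20000)) :=
  (DT.val_gt (by simp only [Cn.rt_v, Cn.ng_v]; norm_num)).trans (tb_dt50 x)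
theorem ta_dt66 (x : ℝ) : dt66.val (fun p x => kcg.v p x) (7 / 200) (cT (7 / 200)) x = (80079 / 1000000 + (x - 13 / 32) * (1589 / 100000)) :=
  (DT.val_le (by simp only [Cn.rt_v, Cn.ng_v]; norm_num)).trans (ta_dt64 x)
theorem tb_dt66 (x : ℝ) : dt66.val (fun p x => kcg.v p x) (11011 / 50000) (cT (11011 / 50000)) x = (44833 / 1000000 + (x - 13 / 32) * (599 / 20000)) :=
  (DT.val_gt (by simp only [Cn.rt_v, Cn.ng_v]; norm_num)).trans (tb_dt65 x)
theorem ta_dt51 (x : ℝ) : dt51.val (fun p x => kcg.v p x) (11011 / 50000) (cT (11011 / 50000)) x = (44833 / 1000000 + (x - 13 / 32) * (599 / 20000)) := by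
  simp only [dt51, DT.val, sw51, sl51, sv51]
  ((try push_cast); ring1)
theorem tb_dt51 (x : ℝ) : dt51.val (fun p x => kcg.v p x) (27 / 100) (cT (27 / 100)) x = (34793 / 1000000 + (x - 13 / 32) * (2987 / 100000)) := by
  simp only [dt51, DT.val, sw51, sl51, sv51]
  ((try push_cast); ring1)
theorem ta_dt52 (x : ℝ) : dt52.val (fun p x => kcg.v p x) (27 / 100) (cT (27 / 100)) x = (34793 / 1000000 + (x - 13 / 32) * (2987 / 100000)) := by
  simp only [dt52, DT.val, sw52, sl52, sv52]
  ((try push_cast); ring1)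
theorem tb_dt52 (x : ℝ) : dt52.val (fun p x => kcg.v p x) (33 / 100) (cT (33 / 100)) x = (22829 / 1000000 + (x - 13 / 32) * (389 / 12500)) := by
  simp only [dt52, DT.val, sw52, sl52, sv52]
  ((try push_cast); ring1)
theorem ta_dt67 (x : ℝ) : dt67.val (fun p x => kcg.v p x) (11011 / 50000) (cT (11011 / 50000)) x = (44833 / 1000000 + (x - 13 / 32) * (599 / 20000)) :=
  (DT.val_le (by simp only [Cn.rt_v, Cn.ng_v]; norm_num)).trans (ta_dt51 x)
theorem tb_dt67 (x : ℝ) : dt67.val (fun p x => kcg.v p x) (33 / 100) (cT (33 / 100)) x = (22829 / 1000000 + (x - 13 / 32) * (389 / 12500)) :=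
  (DT.val_gt (by simp only [Cn.rt_v, Cn.ng_v]; norm_num)).trans (tb_dt52 x)
theorem ta_dt53 (x : ℝ) : dt53.val (fun p x => kcg.v p x) (33 / 100) (cT (33 / 100)) x = (22829 / 1000000 + (x - 13 / 32) * (389 / 12500)) := by
  simp only [dt53, DT.val, sw53, sl53, sv53]
  ((try push_cast); ring1)
theorem tb_dt53 (x : ℝ) : dt53.val (fun p x => kcg.v p x) (39 / 100) (cT (39 / 100)) x = (6063 / 500000 + (x - 13 / 32) * (843 / 25000)) := by
  simp only [dt53, DT.val, sw53, sl53, sv53]
  ((try push_cast); ring1)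
theorem ta_dt54 (x : ℝ) : dt54.val (fun p x => kcg.v p x) (39 / 100) (cT (39 / 100)) x = (6063 / 500000 + (x - 13 / 32) * (843 / 25000)) := by
  simp only [dt54, DT.val, sw54, sl54, sv54]
  ((try push_cast); ring1)
theorem tb_dt54 (x : ℝ) : dt54.val (fun p x => kcg.v p x) (9 / 20) (cT (9 / 20)) x = (4101 / 1000000 + (x - 13 / 32) * (287 / 12500)) := by
  simp only [dt54, DT.val, sw54, sl54, sv54]
  ((try push_cast); ring1)
theorem ta_dt55 (x : ℝ) : dt55.val (fun p x => kcg.v p x) (9 / 20) (cT (9 / 20)) x = (4101 / 1000000 + (x - 13 / 32) * (287 / 12500)) := by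
  simp only [dt55, DT.val, sw55, sl55, sv55]
  ((try push_cast); ring1)
theorem tb_dt55 (x : ℝ) : dt55.val (fun p x => kcg.v p x) (1 / 2) (cT (1 / 2)) x = (0) := by
  simp only [dt55, DT.val, sw55, sl55, sv55]
  ((try push_cast); ring1)
theorem ta_dt68 (x : ℝ) : dt68.val (fun p x => kcg.v p x) (39 / 100) (cT (39 / 100)) x = (6063 / 500000 + (x - 13 / 32) * (843 / 25000)) :=
  (DT.val_le (by simp only [Cn.rt_v, Cn.ng_v]; norm_num)).trans (ta_dt54 x)
theorem tb_dt68 (x : ℝ) : dt68.val (fun p x => kcg.v p x) (1 / 2) (cT (1 / 2)) x = (0) :=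
  (DT.val_gt (by simp only [Cn.rt_v, Cn.ng_v]; norm_num)).trans (tb_dt55 x)
theorem ta_dt69 (x : ℝ) : dt69.val (fun p x => kcg.v p x) (33 / 100) (cT (33 / 100)) x = (22829 / 1000000 + (x - 13 / 32) * (389 / 12500)) :=
  (DT.val_le (by simp only [Cn.rt_v, Cn.ng_v]; norm_num)).trans (ta_dt53 x)
theorem tb_dt69 (x : ℝ) : dt69.val (fun p x => kcg.v p x) (1 / 2) (cT (1 / 2)) x = (0) :=
  (DT.val_gt (by simp only [Cn.rt_v, Cn.ng_v]; norm_num)).trans (tb_dt68 x)
theorem ta_dt70 (x : ℝ) : dt70.val (fun p x => kcg.v p x) (11011 / 50000) (cT (11011 / 50000)) x = (44833 / 1000000 + (x - 13 / 32) * (599 / 20000)) :=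
  (DT.val_le (by simp only [Cn.rt_v, Cn.ng_v]; norm_num)).trans (ta_dt67 x)
theorem tb_dt70 (x : ℝ) : dt70.val (fun p x => kcg.v p x) (1 / 2) (cT (1 / 2)) x = (0) :=
  (DT.val_gt (by simp only [Cn.rt_v, Cn.ng_v]; norm_num)).trans (tb_dt69 x)
theorem ta_dt71 (x : ℝ) : dt71.val (fun p x => kcg.v p x) (7 / 200) (cT (7 / 200)) x = (80079 / 1000000 + (x - 13 / 32) * (1589 / 100000)) :=
  (DT.val_le (by simp only [Cn.rt_v, Cn.ng_v]; norm_num)).trans (ta_dt66 x)
theorem tb_dt71 (x : ℝ) : dt71.val (fun p x => kcg.v p x) (1 / 2) (cT (1 / 2)) x = (0) :=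
  (DT.val_gt (by simp only [Cn.rt_v, Cn.ng_v]; norm_num)).trans (tb_dt70 x)
theorem ta_dt72 (x : ℝ) : dt72.val (fun p x => kcg.v p x) (-1 / 2) (cT (-1 / 2)) x = (0) :=
  (DT.val_le (by simp only [Cn.rt_v, Cn.ng_v]; norm_num)).trans (ta_dt63 x)
theorem tb_dt72 (x : ℝ) : dt72.val (fun p x => kcg.v p x) (1 / 2) (cT (1 / 2)) x = (0) :=
  (DT.val_gt (by simp only [Cn.rt_v, Cn.ng_v]; norm_num)).trans (tb_dt71 x)
theorem to_dt38 (x : ℝ) : dt38.Ok (fun p x => kcg.v p x) x := trivial
theorem to_dt39 (x : ℝ) : dt39.Ok (fun p x => kcg.v p x) x := trivial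
theorem to_dt56 (x : ℝ) : dt56.Ok (fun p x => kcg.v p x) x :=
  DT.ok_node (v := -9 / 20) (by simp only [Cn.rt_v, Cn.ng_v]; norm_num) (by rw [abs_le]; constructor <;> norm_num) rfl (tb_dt38 x) (ta_dt39 x) (by ring1) (to_dt38 x) (to_dt39 x)
theorem to_dt40 (x : ℝ) : dt40.Ok (fun p x => kcg.v p x) x := trivial
theorem to_dt41 (x : ℝ) : dt41.Ok (fun p x => kcg.v p x) x := trivial
theorem to_dt57 (x : ℝ) : dt57.Ok (fun p x => kcg.v p x) x :=
  DT.ok_node (v := -33 / 100) (by simp only [Cn.rt_v, Cn.ng_v]; norm_num) (by rw [abs_le]; constructor <;> norm_num) rfl (tb_dt40 x) (ta_dt41 x) (by ring1) (to_dt40 x) (to_dt41 x)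
theorem to_dt58 (x : ℝ) : dt58.Ok (fun p x => kcg.v p x) x :=
  DT.ok_node (v := -39 / 100) (by simp only [Cn.rt_v, Cn.ng_v]; norm_num) (by rw [abs_le]; constructor <;> norm_num) rfl (tb_dt56 x) (ta_dt57 x) (by ring1) (to_dt56 x) (to_dt57 x)
theorem to_dt42 (x : ℝ) : dt42.Ok (fun p x => kcg.v p x) x := trivial
theorem to_dt43 (x : ℝ) : dt43.Ok (fun p x => kcg.v p x) x := trivial
theorem to_dt59 (x : ℝ) : dt59.Ok (fun p x => kcg.v p x) x :=
  DT.ok_node (v := -61 / 277) (by simp only [Cn.rt_v, Cn.ng_v]; norm_num) (by rw [abs_le]; constructor <;> norm_num) ctA (tb_dt42 x) (ta_dt43 x) (by ring1) (to_dt42 x) (to_dt43 x)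
theorem to_dt44 (x : ℝ) : dt44.Ok (fun p x => kcg.v p x) x := trivial
theorem to_dt45 (x : ℝ) : dt45.Ok (fun p x => kcg.v p x) x := trivial
theorem to_dt46 (x : ℝ) : dt46.Ok (fun p x => kcg.v p x) x := trivial
theorem to_dt60 (x : ℝ) : dt60.Ok (fun p x => kcg.v p x) x :=
  DT.ok_node (v := -7 / 200) (by simp only [Cn.rt_v, Cn.ng_v]; norm_num) (by rw [abs_le]; constructor <;> norm_num) rfl (tb_dt45 x) (ta_dt46 x) (by ring1) (to_dt45 x) (to_dt46 x)
theorem to_dt61 (x : ℝ) : dt61.Ok (fun p x => kcg.v p x) x :=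
  DT.ok_node (v := -7 / 100) (by simp only [Cn.rt_v, Cn.ng_v]; norm_num) (by rw [abs_le]; constructor <;> norm_num) rfl (tb_dt44 x) (ta_dt60 x) (by ring1) (to_dt44 x) (to_dt60 x)
theorem to_dt62 (x : ℝ) : dt62.Ok (fun p x => kcg.v p x) x :=
  DT.ok_node (v := -59 / 566) (by simp only [Cn.rt_v, Cn.ng_v]; norm_num) (by rw [abs_le]; constructor <;> norm_num) ctB (tb_dt59 x) (ta_dt61 x) (by ring1) (to_dt59 x) (to_dt61 x)
theorem to_dt63 (x : ℝ) : dt63.Ok (fun p x => kcg.v p x) x :=
  DT.ok_node (v := -27 / 100) (by simp only [Cn.rt_v, Cn.ng_v]; norm_num) (by rw [abs_le]; constructor <;> norm_num) rfl (tb_dt58 x) (ta_dt62 x) (by ring1) (to_dt58 x) (to_dt62 x)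
theorem to_dt47 (x : ℝ) : dt47.Ok (fun p x => kcg.v p x) x := trivial
theorem to_dt48 (x : ℝ) : dt48.Ok (fun p x => kcg.v p x) x := trivial
theorem to_dt64 (x : ℝ) : dt64.Ok (fun p x => kcg.v p x) x :=
  DT.ok_node (v := 7 / 100) (by simp only [Cn.rt_v, Cn.ng_v]; norm_num) (by rw [abs_le]; constructor <;> norm_num) rfl (tb_dt47 x) (ta_dt48 x) (by ring1) (to_dt47 x) (to_dt48 x)
theorem to_dt49 (x : ℝ) : dt49.Ok (fun p x => kcg.v p x) x := trivial
theorem to_dt50 (x : ℝ) : dt50.Ok (fun p x => kcg.v p x) x := trivial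
theorem to_dt65 (x : ℝ) : dt65.Ok (fun p x => kcg.v p x) x :=
  DT.ok_node (v := 4 / 25) (by simp only [Cn.rt_v, Cn.ng_v]; norm_num) (by rw [abs_le]; constructor <;> norm_num) rfl (tb_dt49 x) (ta_dt50 x) (by ring1) (to_dt49 x) (to_dt50 x)
theorem to_dt66 (x : ℝ) : dt66.Ok (fun p x => kcg.v p x) x :=
  DT.ok_node (v := 1303 / 12500) (by simp only [Cn.rt_v, Cn.ng_v]; norm_num) (by rw [abs_le]; constructor <;> norm_num) rfl (tb_dt64 x) (ta_dt65 x) (by ring1) (to_dt64 x) (to_dt65 x)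
theorem to_dt51 (x : ℝ) : dt51.Ok (fun p x => kcg.v p x) x := trivial
theorem to_dt52 (x : ℝ) : dt52.Ok (fun p x => kcg.v p x) x := trivial
theorem to_dt67 (x : ℝ) : dt67.Ok (fun p x => kcg.v p x) x :=
  DT.ok_node (v := 27 / 100) (by simp only [Cn.rt_v, Cn.ng_v]; norm_num) (by rw [abs_le]; constructor <;> norm_num) rfl (tb_dt51 x) (ta_dt52 x) (by ring1) (to_dt51 x) (to_dt52 x)
theorem to_dt53 (x : ℝ) : dt53.Ok (fun p x => kcg.v p x) x := trivial
theorem to_dt54 (x : ℝ) : dt54.Ok (fun p x => kcg.v p x) x := trivial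
theorem to_dt55 (x : ℝ) : dt55.Ok (fun p x => kcg.v p x) x := trivial
theorem to_dt68 (x : ℝ) : dt68.Ok (fun p x => kcg.v p x) x :=
  DT.ok_node (v := 9 / 20) (by simp only [Cn.rt_v, Cn.ng_v]; norm_num) (by rw [abs_le]; constructor <;> norm_num) rfl (tb_dt54 x) (ta_dt55 x) (by ring1) (to_dt54 x) (to_dt55 x)
theorem to_dt69 (x : ℝ) : dt69.Ok (fun p x => kcg.v p x) x :=
  DT.ok_node (v := 39 / 100) (by simp only [Cn.rt_v, Cn.ng_v]; norm_num) (by rw [abs_le]; constructor <;> norm_num) rfl (tb_dt53 x) (ta_dt68 x) (by ring1) (to_dt53 x) (to_dt68 x)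
theorem to_dt70 (x : ℝ) : dt70.Ok (fun p x => kcg.v p x) x :=
  DT.ok_node (v := 33 / 100) (by simp only [Cn.rt_v, Cn.ng_v]; norm_num) (by rw [abs_le]; constructor <;> norm_num) rfl (tb_dt67 x) (ta_dt69 x) (by ring1) (to_dt67 x) (to_dt69 x)
theorem to_dt71 (x : ℝ) : dt71.Ok (fun p x => kcg.v p x) x :=
  DT.ok_node (v := 11011 / 50000) (by simp only [Cn.rt_v, Cn.ng_v]; norm_num) (by rw [abs_le]; constructor <;> norm_num) rfl (tb_dt66 x) (ta_dt70 x) (by ring1) (to_dt66 x) (to_dt70 x)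
theorem to_dt72 (x : ℝ) : dt72.Ok (fun p x => kcg.v p x) x :=
  DT.ok_node (v := 7 / 200) (by simp only [Cn.rt_v, Cn.ng_v]; norm_num) (by rw [abs_le]; constructor <;> norm_num) rfl (tb_dt63 x) (ta_dt71 x) (by ring1) (to_dt63 x) (to_dt71 x)
theorem dok (x : ℝ) : dd.Ok x := ⟨ko_dt37 x, fun p h => kfe h, to_dt72 x⟩
theorem K0_ (x : ℝ) : ∀ q y, OnC (0 : Fin 5) q y → TightK (tyO q) q (fun p => dd.kf.v p x) (c1n y) y (tKF 0 q y x) := by
  refine K0_of (R := fun q y => tKF 0 q y x) (kc := fun p => kcg.v p x) ?_ ?_ ?_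
  · intro y h
    show tKF 0 0 y x = _
    ·
      rw [← (atF00 h).K]
      show kf0q0.v y x = _
      simp only [kf0q0, kf0q0_9, kf0q0_12, c1g_v]
      ((try push_cast); (try simp only [mul_inv]); (try ring_nf))
  · intro y h
    show tKF 0 1 y x = _
    ·
      rw [← (atF01 h).K]
      show kf0q1.v y x = _
      simp only [kf0q1, kf0q1_10, c1g_v]
      ((try push_cast); (try simp only [mul_inv]); (try ring_nf))
  · intro y h
    show tKF 0 2 y x = _
    ·
      have ey := yag_v h.1.nonneg (h.2 rfl)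
      rw [← (atF02 h).K]
      show kfc02.v (c1n y) x = _
      simp only [kfc02, c1g_v, ey]
      ((try push_cast); (try simp only [mul_inv]); (try ring_nf))
theorem L0_ (x : ℝ) : ∀ q y, OnC (0 : Fin 5) q y → TightL (tyO q) (fun p c => dd.TX.val dd.kf.v p c x) (c1n y) y (tL 0 q y x) := by
  refine L0_of (R := fun q y => tL 0 q y x) (tx := fun p c => txg.v p c x) txe ?_ ?_ ?_
  · intro y h
    show tL 0 0 y x = _
    ·
      rw [← (atF00 h).L]
      show l0q0.v y x = _
      simp only [l0q0, c1g_v]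
      ((try push_cast); (try simp only [mul_inv]); (try ring_nf))
  · intro y h
    show tL 0 1 y x = _
    ·
      rw [← (atF01 h).L]
      show l0q1.v y x = _
      simp only [l0q1, c1g_v]
      ((try push_cast); (try simp only [mul_inv]); (try ring_nf))
  · intro y h
    show tL 0 2 y x = _
    ·
      have ey := yag_v h.1.nonneg (h.2 rfl)
      rw [← (atF02 h).L]
      show lc02.v (c1n y) x = _
      simp only [lc02, lc02_7, lc02_8, c1g_v, ey]
      ((try push_cast); (try simp only [mul_inv]); (try ring_nf))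
theorem Kn_ (x : ℝ) : ∀ q y, InQ q y → TightK (tyN q) q (fun p => dd.kf.v p x) (c3n y) y (tKF (Fin.last 4) q y x) := by
  refine Kn_of (R := fun q y => tKF 4 q y x) (kc := fun p => kcg.v p x) ?_ ?_ ?_ ?_
  · intro y h
    show tKF 4 0 y x = _
    ·
      rw [← (atF40 (onc h (by decide))).K]
      show kf4q0.v y x = _
      simp only [kf4q0, c3g_v]
      ((try push_cast); (try simp only [mul_inv]); (try ring_nf))
  · intro y h
    show tKF 4 1 y x = _
    ·
      rw [← (atF41 (onc h (by decide))).K]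
      show kf4q1.v y x = _
      simp only [kf4q1, c3g_v]
      ((try push_cast); (try simp only [mul_inv]); (try ring_nf))
  · intro y h
    show tKF 4 2 y x = _
    ·
      rw [← (atF42 (onc h (by decide))).K]
      show kf4q2.v y x = _
      simp only [kf4q2, c3g_v]
      ((try push_cast); (try simp only [mul_inv]); (try ring_nf))
  · intro y h
    show tKF 4 3 y x = _
    ·
      have ey := ycg_v h.nonneg h.le_two
      rw [← (atF43 (onc h (by decide))).K]
      show kfc43.v (c3n y) x = _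
      simp only [kfc43, c3g_v, ey]
      ((try push_cast); (try simp only [mul_inv]); (try ring_nf))
theorem Ln_ (x : ℝ) : ∀ q y, InQ q y → TightL (tyN q) (fun p c => dd.TX.val dd.kf.v p c x) (c3n y) y (tL (Fin.last 4) q y x) := by
  refine Ln_of (R := fun q y => tL 4 q y x) (tx := fun p c => txg.v p c x) txe ?_ ?_ ?_ ?_
  · intro y h
    show tL 4 0 y x = _
    ·
      rw [← (atF40 (onc h (by decide))).L]
      show l4q0.v y x = _
      simp only [l4q0, l4q0_6, l4q0_7, l4q0_8, c3g_v]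
      ((try push_cast); (try simp only [mul_inv]); (try ring_nf))
  · intro y h
    show tL 4 1 y x = _
    ·
      rw [← (atF41 (onc h (by decide))).L]
      show l4q1.v y x = _
      simp only [l4q1, l4q1_7, l4q1_8, l4q1_9, c3g_v]
      ((try push_cast); (try simp only [mul_inv]); (try ring_nf))
  · intro y h
    show tL 4 2 y x = _
    ·
      rw [← (atF42 (onc h (by decide))).L]
      show l4q2.v y x = _
      simp only [l4q2, l4q2_7, l4q2_8, l4q2_9, l4q2_12, l4q2_14, c3g_v]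
      ((try push_cast); (try simp only [mul_inv]); (try ring_nf))
  · intro y h
    show tL 4 3 y x = _
    ·
      have ey := ycg_v h.nonneg h.le_two
      rw [← (atF43 (onc h (by decide))).L]
      show lc43.v (c3n y) x = _
      simp only [lc43, lc43_7, lc43_8, lc43_9, lc43_12, lc43_14, c3g_v, ey]
      ((try push_cast); (try simp only [mul_inv]); (try ring_nf))
theorem f0_ : ∀ q y, InQ q y → (ff q).f.v y = crv PP 1 q y
  | 0, y, _ => ecv1q0.symm
  | 1, y, _ => ecv1q1.symm
  | 2, y, _ => ecv1q2.symm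
  | 3, y, h => (ecv1q3 h.1).symm
theorem fn_ : ∀ q y, InQ q y → (fl q).f.v y = crv PP 3 q y
  | 0, y, _ => ecv3q0.symm
  | 1, y, _ => ecv3q1.symm
  | 2, y, _ => ecv3q2.symm
  | 3, y, h => (ecv3q3 h.1).symm
theorem yK00 {y x : ℝ} (h : OnC (0 : Fin 5) 0 y) : tKF 0 0 y x = kf0q0.v y x := (atF00 h).K.symm
theorem yK10 {y x : ℝ} (h : InQ 0 y) : tKF 1 0 y x = kf1q0.v y x := (atF10 (onc h (by decide))).K.symm
theorem yK01 {y x : ℝ} (h : OnC (0 : Fin 5) 1 y) : tKF 0 1 y x = kf0q1.v y x := (atF01 h).K.symm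
theorem yK11 {y x : ℝ} (h : InQ 1 y) : tKF 1 1 y x = kf1q1.v y x := (atF11 (onc h (by decide))).K.symm
theorem yK02 {y x : ℝ} (h : OnC (0 : Fin 5) 2 y) : tKF 0 2 y x = kf0q2.v y x := by
  rw [← (atF02 h).K]
  show kfc02.v (c1n y) x = _
  have ey := yag_v h.1.nonneg (h.2 rfl)
  simp only [kfc02, kf0q2, ey, c1g_v, c3g_v, swg_v]
  ((try push_cast); (try ring_nf))
theorem yK12 {y x : ℝ} (h : InQ 2 y) : tKF 1 2 y x = kf1q2.v y x := (atF12 (onc h (by decide))).K.symm
theorem yK40 {y x : ℝ} (h : InQ 0 y) : tKF 4 0 y x = kf4q0.v y x := (atF40 (onc h (by decide))).K.symm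
theorem yK30 {y x : ℝ} (h : InQ 0 y) : tKF 3 0 y x = kf3q0.v y x := (atF30 (onc h (by decide))).K.symm
theorem yK41 {y x : ℝ} (h : InQ 1 y) : tKF 4 1 y x = kf4q1.v y x := (atF41 (onc h (by decide))).K.symm
theorem yK31 {y x : ℝ} (h : InQ 1 y) : tKF 3 1 y x = kf3q1.v y x := (atF31 (onc h (by decide))).K.symm
theorem yK42 {y x : ℝ} (h : InQ 2 y) : tKF 4 2 y x = kf4q2.v y x := (atF42 (onc h (by decide))).K.symm
theorem yK32 {y x : ℝ} (h : InQ 2 y) : tKF 3 2 y x = kf3q2.v y x := (atF32 (onc h (by decide))).K.symm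
theorem yK43 {y x : ℝ} (h : InQ 3 y) : tKF 4 3 y x = kf4q3.v y x := by
  rw [← (atF43 (onc h (by decide))).K]
  show kfc43.v (c3n y) x = _
  have ey := ycg_v h.nonneg h.le_two
  simp only [kfc43, kf4q3, ey, c1g_v, c3g_v, swg_v]
  ((try push_cast); (try ring_nf))
theorem yK33 {y x : ℝ} (h : InQ 3 y) : tKF 3 3 y x = kf3q3.v y x := by
  rw [← (atF33 (onc h (by decide))).K]
  show kfc33.v (c3n y) x = _
  have ey := ycg_v h.nonneg h.le_two
  simp only [kfc33, kf3q3, cv3r, ey, c1g_v, c3g_v, swg_v]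
  ((try push_cast); (try ring_nf))
theorem yL00 {y x : ℝ} (h : OnC (0 : Fin 5) 0 y) : tL 0 0 y x = l0q0.v y x := (atF00 h).L.symm
theorem yL10 {y x : ℝ} (h : InQ 0 y) : tL 1 0 y x = l1q0.v y x := (atF10 (onc h (by decide))).L.symm
theorem yL01 {y x : ℝ} (h : OnC (0 : Fin 5) 1 y) : tL 0 1 y x = l0q1.v y x := (atF01 h).L.symm
theorem yL11 {y x : ℝ} (h : InQ 1 y) : tL 1 1 y x = l1q1.v y x := (atF11 (onc h (by decide))).L.symm
theorem yL02 {y x : ℝ} (h : OnC (0 : Fin 5) 2 y) : tL 0 2 y x = l0q2.v y x := by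
  rw [← (atF02 h).L]
  show lc02.v (c1n y) x = _
  have ey := yag_v h.1.nonneg (h.2 rfl)
  simp only [lc02, lc02_7, lc02_8, l0q2, l0q2_7, l0q2_8, ey, c1g_v, c3g_v, swg_v]
  ((try push_cast); (try ring_nf))
theorem yL12 {y x : ℝ} (h : InQ 2 y) : tL 1 2 y x = l1q2.v y x := (atF12 (onc h (by decide))).L.symm
theorem yL40 {y x : ℝ} (h : InQ 0 y) : tL 4 0 y x = l4q0.v y x := (atF40 (onc h (by decide))).L.symm
theorem yL30 {y x : ℝ} (h : InQ 0 y) : tL 3 0 y x = l3q0.v y x := (atF30 (onc h (by decide))).L.symm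
theorem yL41 {y x : ℝ} (h : InQ 1 y) : tL 4 1 y x = l4q1.v y x := (atF41 (onc h (by decide))).L.symm
theorem yL31 {y x : ℝ} (h : InQ 1 y) : tL 3 1 y x = l3q1.v y x := (atF31 (onc h (by decide))).L.symm
theorem yL42 {y x : ℝ} (h : InQ 2 y) : tL 4 2 y x = l4q2.v y x := (atF42 (onc h (by decide))).L.symm
theorem yL32 {y x : ℝ} (h : InQ 2 y) : tL 3 2 y x = l3q2.v y x := (atF32 (onc h (by decide))).L.symm
theorem yL43 {y x : ℝ} (h : InQ 3 y) : tL 4 3 y x = l4q3.v y x := by
  rw [← (atF43 (onc h (by decide))).L]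
  show lc43.v (c3n y) x = _
  have ey := ycg_v h.nonneg h.le_two
  simp only [lc43, lc43_7, lc43_8, lc43_9, lc43_12, lc43_14, l4q3, l4q3_7, l4q3_8, l4q3_9, l4q3_12, l4q3_14, ey, c1g_v, c3g_v, swg_v]
  ((try push_cast); (try ring_nf))
theorem yL33 {y x : ℝ} (h : InQ 3 y) : tL 3 3 y x = l3q3.v y x := by
  rw [← (atF33 (onc h (by decide))).L]
  show lc33.v (c3n y) x = _
  have ey := ycg_v h.nonneg h.le_two
  simp only [lc33, l3q3, cv3r, ey, c1g_v, c3g_v, swg_v]
  ((try push_cast); (try ring_nf))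
theorem sK0_ (x : ℝ) : ∀ q y, OnC (0 : Fin 5) q y → c1n y < crv PP 1 q y →
    (ff q).SK.v y x * (crv PP 1 q y - c1n y) = tKF 1 q y x - tKF 0 q y x := by
  intro q y h hlt
  rcases onC_q h with rfl | rfl | rfl
  · rw [yK10 h.1, yK00 h]
    rw [ecv1q0, ← c1g_v] at hlt ⊢
    have hd : 0 < cv1m.v y - c1g.v y := sub_pos.2 hlt
    have hi := inv_mul_cancel₀ hd.ne'
    show skf0.v y x * _ = _
    simp only [skf0, kf1q0]
    (try push_cast)
    linear_combination (c1g.v y * bf1q0.v y x - kf0q0.v y x) * hi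
  · rw [yK11 h.1, yK01 h]
    rw [ecv1q1, ← c1g_v] at hlt ⊢
    have hd : 0 < cv1m.v y - c1g.v y := sub_pos.2 hlt
    have hi := inv_mul_cancel₀ hd.ne'
    show skf1.v y x * _ = _
    simp only [skf1, kf1q1]
    (try push_cast)
    linear_combination (c1g.v y * bf1q1.v y x - kf0q1.v y x) * hi
  · rw [yK12 h.1, yK02 h]
    rw [ecv1q2, ← c1g_v] at hlt ⊢
    have hd : 0 < cv1p.v y - c1g.v y := sub_pos.2 hlt
    have hi := inv_mul_cancel₀ hd.ne'
    have hb : |c1g.v y| ≤ 1 / 2 := by rw [c1g_v]; exact bnd_O h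
    have eo := odd (x := x) hb
    show skf2.v y x * _ = _
    simp only [skf2, kf1q2, kf0q2, eo]
    (try push_cast)
    linear_combination (c1g.v y * (bf1q2.v y x - 1) + (y - 1) * kcg.v (c1g.v y) x) * hi
theorem sX0_ (x : ℝ) : ∀ q y, OnC (0 : Fin 5) q y → c1n y < crv PP 1 q y →
    (ff q).SX.v y x * (crv PP 1 q y - c1n y) = tL 1 q y x - tL 0 q y x := by
  intro q y h hlt
  rcases onC_q h with rfl | rfl | rfl
  · rw [yL10 h.1, yL00 h]
    rw [ecv1q0, ← c1g_v] at hlt ⊢
    have hd : 0 < cv1m.v y - c1g.v y := sub_pos.2 hlt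
    have hi := inv_mul_cancel₀ hd.ne'
    show sxf0.v y x * _ = _
    simp only [sxf0]
    (try push_cast)
    linear_combination (l1q0.v y x - l0q0.v y x) * hi
  · rw [yL11 h.1, yL01 h]
    rw [ecv1q1, ← c1g_v] at hlt ⊢
    have hd : 0 < cv1m.v y - c1g.v y := sub_pos.2 hlt
    have hi := inv_mul_cancel₀ hd.ne'
    show sxf1.v y x * _ = _
    simp only [sxf1]
    (try push_cast)
    linear_combination (l1q1.v y x - l0q1.v y x) * hi
  · rw [yL12 h.1, yL02 h]
    rw [ecv1q2, ← c1g_v] at hlt ⊢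
    have hd : 0 < cv1p.v y - c1g.v y := sub_pos.2 hlt
    have hi := inv_mul_cancel₀ hd.ne'
    show sxf2.v y x * _ = _
    simp only [sxf2]
    (try push_cast)
    linear_combination (l1q2.v y x - l0q2.v y x) * hi
theorem sKn_ (x : ℝ) : ∀ q y, InQ q y → crv PP 3 q y < c3n y →
    (fl q).SK.v y x * (c3n y - crv PP 3 q y) = tKF 4 q y x - tKF 3 q y x := by
  intro q y h hlt
  match q, h with
  | 0, h =>
    rw [yK40 h, yK30 h]
    rw [ecv3q0, ← c3g_v] at hlt ⊢
    have hd : 0 < c3g.v y - cv3m.v y := sub_pos.2 hlt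
    have hi := inv_mul_cancel₀ hd.ne'
    show skl0.v y x * _ = _
    simp only [skl0, kf3q0]
    (try push_cast)
    linear_combination (kf4q0.v y x - c3g.v y * bf3q0.v y x) * hi
  | 1, h =>
    rw [yK41 h, yK31 h]
    rw [ecv3q1, ← c3g_v] at hlt ⊢
    have hd : 0 < c3g.v y - cv3m.v y := sub_pos.2 hlt
    have hi := inv_mul_cancel₀ hd.ne'
    show skl1.v y x * _ = _
    simp only [skl1, kf3q1]
    (try push_cast)
    linear_combination (kf4q1.v y x - c3g.v y * bf3q1.v y x) * hi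
  | 2, h =>
    rw [yK42 h, yK32 h]
    rw [ecv3q2, ← c3g_v] at hlt ⊢
    have hd : 0 < c3g.v y - cv3p.v y := sub_pos.2 hlt
    have hi := inv_mul_cancel₀ hd.ne'
    show skl2.v y x * _ = _
    simp only [skl2, kf3q2]
    (try push_cast)
    linear_combination (kf4q2.v y x - c3g.v y * bf3q2.v y x) * hi
  | 3, h =>
    rw [yK43 h, yK33 h]
    rw [ecv3q3 h.1, ← c3g_v] at hlt ⊢
    have hd : 0 < c3g.v y - cv3r.v y := sub_pos.2 hlt
    have hi := inv_mul_cancel₀ hd.ne'
    show skl3.v y x * _ = _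
    simp only [skl3, kf3q3]
    (try push_cast)
    linear_combination (kf4q3.v y x - c3g.v y * bf3q3.v y x) * hi
theorem sXn_ (x : ℝ) : ∀ q y, InQ q y → crv PP 3 q y < c3n y →
    (fl q).SX.v y x * (c3n y - crv PP 3 q y) = tL 4 q y x - tL 3 q y x := by
  intro q y h hlt
  match q, h with
  | 0, h =>
    rw [yL40 h, yL30 h]
    rw [ecv3q0, ← c3g_v] at hlt ⊢
    have hd : 0 < c3g.v y - cv3m.v y := sub_pos.2 hlt
    have hi := inv_mul_cancel₀ hd.ne'
    show sxl0.v y x * _ = _
    simp only [sxl0]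
    (try push_cast)
    linear_combination (l4q0.v y x - l3q0.v y x) * hi
  | 1, h =>
    rw [yL41 h, yL31 h]
    rw [ecv3q1, ← c3g_v] at hlt ⊢
    have hd : 0 < c3g.v y - cv3m.v y := sub_pos.2 hlt
    have hi := inv_mul_cancel₀ hd.ne'
    show sxl1.v y x * _ = _
    simp only [sxl1]
    (try push_cast)
    linear_combination (l4q1.v y x - l3q1.v y x) * hi
  | 2, h =>
    rw [yL42 h, yL32 h]
    rw [ecv3q2, ← c3g_v] at hlt ⊢
    have hd : 0 < c3g.v y - cv3p.v y := sub_pos.2 hlt
    have hi := inv_mul_cancel₀ hd.ne'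
    show sxl2.v y x * _ = _
    simp only [sxl2]
    (try push_cast)
    linear_combination (l4q2.v y x - l3q2.v y x) * hi
  | 3, h =>
    rw [yL43 h, yL33 h]
    rw [ecv3q3 h.1, ← c3g_v] at hlt ⊢
    have hd : 0 < c3g.v y - cv3r.v y := sub_pos.2 hlt
    have hi := inv_mul_cancel₀ hd.ne'
    show sxl3.v y x * _ = _
    simp only [sxl3]
    (try push_cast)
    linear_combination (l4q3.v y x - l3q3.v y x) * hi
theorem kn_ (x : ℝ) : ∀ X, |X| ≤ vv.k1.v → kcg.v (-X) x = -(k0c.v x * X) := by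
  intro X h
  have h : |X| ≤ 7 / 200 := by
    refine h.trans_eq ?_
    show (Cn.rt 7 200).v = _
    rw [Cn.rt_v]
    norm_num
  obtain ⟨h1, h2⟩ := abs_le.1 h
  rw [kcl9 (p := -X) (by linarith) (by linarith)]
  simp only [k0c]
  push_cast
  ring
theorem tvm {p c x : ℝ} (h1 : -7 / 200 ≤ p) (h2 : p ≤ 7 / 200) : dt72.val (fun p x => kcg.v p x) p c x = (322888161 / 4000000000 + (x - 13 / 32) * (13994299 / 1000000000)) + (-397 / 70000 + (x - 13 / 32) * (313 / 7000)) * p + (-36289 / 100000 + (x - 13 / 32) * (6749 / 25000)) * p ^ 2 := by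
  rcases eq_or_lt_of_le h1 with h | h1
  · subst h
    refine (DT.val_le (by simp only [Cn.rt_v, Cn.ng_v]; push_cast; linarith)).trans ?_
    refine (DT.val_gt (by simp only [Cn.rt_v, Cn.ng_v]; push_cast; linarith)).trans ?_
    refine (DT.val_gt (by simp only [Cn.rt_v, Cn.ng_v]; push_cast; linarith)).trans ?_
    refine (DT.val_gt (by simp only [Cn.rt_v, Cn.ng_v]; push_cast; linarith)).trans ?_
    refine (DT.val_le (by simp only [Cn.rt_v, Cn.ng_v]; push_cast; linarith)).trans ?_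
    simp only [dt45, DT.val, sw45, sl45, sv45]
    ((try push_cast); ring1)
  ·
    refine (DT.val_le (by simp only [Cn.rt_v, Cn.ng_v]; push_cast; linarith)).trans ?_
    refine (DT.val_gt (by simp only [Cn.rt_v, Cn.ng_v]; push_cast; linarith)).trans ?_
    refine (DT.val_gt (by simp only [Cn.rt_v, Cn.ng_v]; push_cast; linarith)).trans ?_
    refine (DT.val_gt (by simp only [Cn.rt_v, Cn.ng_v]; push_cast; linarith)).trans ?_
    refine (DT.val_gt (by simp only [Cn.rt_v, Cn.ng_v]; push_cast; linarith)).trans ?_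
    simp only [dt46, DT.val, sw46, sl46, sv46]
    ((try push_cast); ring1)
theorem tn_ (x : ℝ) : ∀ X, |X| ≤ vv.k1.v → dd.tF x (-X) - dd.tF x X = m0c.v x * X := by
  intro X h
  have h : |X| ≤ 7 / 200 := by
    refine h.trans_eq ?_
    show (Cn.rt 7 200).v = _
    rw [Cn.rt_v]
    norm_num
  obtain ⟨h1, h2⟩ := abs_le.1 h
  show dt72.val (fun p x => kcg.v p x) (-X) (cT (-X)) x - dt72.val (fun p x => kcg.v p x) X (cT X) x = _
  rw [tvm (by linarith) (by linarith), tvm (by linarith) (by linarith)]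
  simp only [m0c]
  push_cast
  ring
theorem vK_ (x : ℝ) : ∀ y, InQ 2 y → tKF 1 2 y x = crv PP 1 2 y * bf1q2.v y x := by
  intro y h
  rw [yK12 h, ecv1q2]
  simp only [kf1q2]
theorem vX_ (x : ℝ) : ∀ y, InQ 2 y → tL 1 2 y x = crv PP 1 2 y * bx1q2.v y x := by
  intro y h
  rw [yL12 h, ecv1q2]
  simp only [l1q2]
theorem n0_rK (y x : ℝ) : n0b.v y x = (1 - (y - 1) * k0c.v x) := by
  simp only [n0b, k0c]
  all_goals (try push_cast)
  all_goals (try ring)
theorem rK_ (x : ℝ) : ∀ y, OnC (0 : Fin 5) 2 y → c1n y < crv PP 1 2 y →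
    rhk.v y x * (crv PP 1 2 y - c1n y) = crv PP 1 2 y * (bf1q2.v y x - (1 - (y - 1) * k0c.v x)) := by
  intro y h hlt
  rw [ecv1q2, ← c1g_v] at hlt ⊢
  have hd : 0 < cv1p.v y - c1g.v y := sub_pos.2 hlt
  have hi := inv_mul_cancel₀ hd.ne'
  rw [← n0_rK]
  simp only [rhk]
  linear_combination ((bf1q2.v y x - n0b.v y x) * cv1p.v y) * hi
theorem n0_rX (y x : ℝ) : n0x.v y x = m0c.v x := by
  simp only [n0x, m0c]
  all_goals (try push_cast)
  all_goals (try ring)
theorem rX_ (x : ℝ) : ∀ y, OnC (0 : Fin 5) 2 y → c1n y < crv PP 1 2 y →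
    rhx.v y x * (crv PP 1 2 y - c1n y) = crv PP 1 2 y * (bx1q2.v y x - m0c.v x) := by
  intro y h hlt
  rw [ecv1q2, ← c1g_v] at hlt ⊢
  have hd : 0 < cv1p.v y - c1g.v y := sub_pos.2 hlt
  have hi := inv_mul_cancel₀ hd.ne'
  rw [← n0_rX]
  simp only [rhx]
  linear_combination ((bx1q2.v y x - n0x.v y x) * cv1p.v y) * hi
theorem flat_ (x : ℝ) : ∀ y, InQ 2 y → vv.ya.v ≤ y → y ≤ vv.yb.v → bf1q2.v y x = 1 - (y - 1) * k0c.v x ∧ bx1q2.v y x = m0c.v x := by
  intro y h h1 h2
  have ea : vv.ya.v = 577 / 500 := by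
    show (Cn.rt 577 500).v = _
    rw [Cn.rt_v]
    norm_num
  have eb : vv.yb.v = 231 / 200 := by
    show (Cn.rt 231 200).v = _
    rw [Cn.rt_v]
    norm_num
  rw [ea] at h1
  rw [eb] at h2
  constructor
  · simp only [bf1q2, bf1q2_3, bf1q2_91, k0c]
    rcases eq_or_lt_of_le h1 with g | h1
    · subst g
      ((try push_cast); (repeat first | rw [if_pos (by linarith)] | rw [if_neg (by linarith)] | erw [if_pos (by linarith)] | erw [if_neg (by linarith)]); (try push_cast); (try ring1))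
    rcases eq_or_lt_of_le h2 with g | h2
    · subst g
      ((try push_cast); (repeat first | rw [if_pos (by linarith)] | rw [if_neg (by linarith)] | erw [if_pos (by linarith)] | erw [if_neg (by linarith)]); (try push_cast); (try ring1))
    · ((try push_cast); (repeat first | rw [if_pos (by linarith)] | rw [if_neg (by linarith)] | erw [if_pos (by linarith)] | erw [if_neg (by linarith)]); (try push_cast); (try ring1))
  · simp only [bx1q2, bx1q2_3, m0c]
    rcases eq_or_lt_of_le h1 with g | h1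
    · subst g
      ((try push_cast); (repeat first | rw [if_pos (by linarith)] | rw [if_neg (by linarith)] | erw [if_pos (by linarith)] | erw [if_neg (by linarith)]); (try push_cast); (try ring1))
    rcases eq_or_lt_of_le h2 with g | h2
    · subst g
      ((try push_cast); (repeat first | rw [if_pos (by linarith)] | rw [if_neg (by linarith)] | erw [if_pos (by linarith)] | erw [if_neg (by linarith)]); (try push_cast); (try ring1))
    · ((try push_cast); (repeat first | rw [if_pos (by linarith)] | rw [if_neg (by linarith)] | erw [if_pos (by linarith)] | erw [if_neg (by linarith)]); (try push_cast); (try ring1))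
theorem abk_ (x : ℝ) : ∀ y, InQ 2 y → vv.yb.v ≤ y → y ≤ vv.yk.v → bf1q2.v y x = 1 - (y - 1) * k0c.v x + sbk.v x * (y - vv.yb.v) ∧
    bx1q2.v y x = m0c.v x + sbx.v x * (y - vv.yb.v) := by
  intro y h h1 h2
  have eb : vv.yb.v = 231 / 200 := by
    show (Cn.rt 231 200).v = _
    rw [Cn.rt_v]
    norm_num
  have ek : vv.yk.v = 5 / 4 := by
    show (Cn.rt 5 4).v = _
    rw [Cn.rt_v]
    norm_num
  rw [eb] at h1 ⊢
  rw [ek] at h2
  constructor
  · simp only [bf1q2, bf1q2_3, bf1q2_91, k0c, sbk]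
    rcases eq_or_lt_of_le h1 with g | h1
    · subst g
      ((try push_cast); (repeat first | rw [if_pos (by linarith)] | rw [if_neg (by linarith)] | erw [if_pos (by linarith)] | erw [if_neg (by linarith)]); (try push_cast); (try ring1))
    rcases eq_or_lt_of_le h2 with g | h2
    · subst g
      ((try push_cast); (repeat first | rw [if_pos (by linarith)] | rw [if_neg (by linarith)] | erw [if_pos (by linarith)] | erw [if_neg (by linarith)]); (try push_cast); (try ring1))
    · ((try push_cast); (repeat first | rw [if_pos (by linarith)] | rw [if_neg (by linarith)] | erw [if_pos (by linarith)] | erw [if_neg (by linarith)]); (try push_cast); (try ring1))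
  · simp only [bx1q2, bx1q2_3, m0c, sbx]
    rcases eq_or_lt_of_le h1 with g | h1
    · subst g
      ((try push_cast); (repeat first | rw [if_pos (by linarith)] | rw [if_neg (by linarith)] | erw [if_pos (by linarith)] | erw [if_neg (by linarith)]); (try push_cast); (try ring1))
    rcases eq_or_lt_of_le h2 with g | h2
    · subst g
      ((try push_cast); (repeat first | rw [if_pos (by linarith)] | rw [if_neg (by linarith)] | erw [if_pos (by linarith)] | erw [if_neg (by linarith)]); (try push_cast); (try ring1))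
    · ((try push_cast); (repeat first | rw [if_pos (by linarith)] | rw [if_neg (by linarith)] | erw [if_pos (by linarith)] | erw [if_neg (by linarith)]); (try push_cast); (try ring1))
theorem ka_dt73 (x : ℝ) : dt73.kv (-59 / 566) x = (6254176640579083 / 5956619375000000000 + (x - 13 / 32) * (-23138543019624663 / 24422139437500000000) + (x - 13 / 32) ^ 2 * (211449 / 3537500)) := by
  simp only [dt73, DT.kv, sw73, sl73, sl73_2, sv73, sv73_2]
  ((try push_cast); ring1)
theorem kb_dt73 (x : ℝ) : dt73.kv (-1303 / 12500) x = (787289246160337 / 749839453125000000 + (x - 13 / 32) * (-888028395551249 / 937299316406250000) + (x - 13 / 32) ^ 2 * (7541681 / 126171875)) := by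
  simp only [dt73, DT.kv, sw73, sl73, sl73_2, sv73, sv73_2]
  ((try push_cast); ring1)
theorem ka_dt74 (x : ℝ) : dt74.kv (-1303 / 12500) x = (787289246160337 / 749839453125000000 + (x - 13 / 32) * (-888028395551249 / 937299316406250000) + (x - 13 / 32) ^ 2 * (7541681 / 126171875)) := by
  simp only [dt74, DT.kv, sw74, sl74, sl74_2, sv74, sv74_2]
  ((try push_cast); ring1)
theorem kb_dt74 (x : ℝ) : dt74.kv (-7 / 100) x = (231 / 1000000 + (x - 13 / 32) * (-23 / 100000)) := by
  simp only [dt74, DT.kv, sw74, sl74, sl74_2, sv74, sv74_2]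
  ((try push_cast); ring1)
theorem ka_dt75 (x : ℝ) : dt75.kv (-7 / 100) x = (231 / 1000000 + (x - 13 / 32) * (-23 / 100000)) := by
  simp only [dt75, DT.kv, sw75, sl75, sv75]
  ((try push_cast); ring1)
theorem kb_dt75 (x : ℝ) : dt75.kv (-7 / 200) x = (0) := by
  simp only [dt75, DT.kv, sw75, sl75, sv75]
  ((try push_cast); ring1)
theorem ka_dt80 (x : ℝ) : dt80.kv (-1303 / 12500) x = (787289246160337 / 749839453125000000 + (x - 13 / 32) * (-888028395551249 / 937299316406250000) + (x - 13 / 32) ^ 2 * (7541681 / 126171875)) :=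
  (DT.kv_le (by simp only [Cn.rt_v, Cn.ng_v]; norm_num)).trans (ka_dt74 x)
theorem kb_dt80 (x : ℝ) : dt80.kv (-7 / 200) x = (0) :=
  (DT.kv_gt (by simp only [Cn.rt_v, Cn.ng_v]; norm_num)).trans (kb_dt75 x)
theorem ka_dt81 (x : ℝ) : dt81.kv (-59 / 566) x = (6254176640579083 / 5956619375000000000 + (x - 13 / 32) * (-23138543019624663 / 24422139437500000000) + (x - 13 / 32) ^ 2 * (211449 / 3537500)) :=
  (DT.kv_le (by simp only [Cn.rt_v, Cn.ng_v]; norm_num)).trans (ka_dt73 x)
theorem kb_dt81 (x : ℝ) : dt81.kv (-7 / 200) x = (0) :=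
  (DT.kv_gt (by simp only [Cn.rt_v, Cn.ng_v]; norm_num)).trans (kb_dt80 x)
theorem ka_dt76 (x : ℝ) : dt76.kv (-7 / 200) x = (0) := by
  simp only [dt76, DT.kv, sl76, sv76]
  ((try push_cast); ring1)
theorem kb_dt76 (x : ℝ) : dt76.kv (7 / 200) x = (0) := by
  simp only [dt76, DT.kv, sl76, sv76]
  ((try push_cast); ring1)
theorem ka_dt77 (x : ℝ) : dt77.kv (7 / 200) x = (0) := by
  simp only [dt77, DT.kv, sw77, sl77, sv77]
  ((try push_cast); ring1)
theorem kb_dt77 (x : ℝ) : dt77.kv (7 / 100) x = (-231 / 1000000 + (x - 13 / 32) * (23 / 100000)) := by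
  simp only [dt77, DT.kv, sw77, sl77, sv77]
  ((try push_cast); ring1)
theorem ka_dt82 (x : ℝ) : dt82.kv (-7 / 200) x = (0) :=
  (DT.kv_le (by simp only [Cn.rt_v, Cn.ng_v]; norm_num)).trans (ka_dt76 x)
theorem kb_dt82 (x : ℝ) : dt82.kv (7 / 100) x = (-231 / 1000000 + (x - 13 / 32) * (23 / 100000)) :=
  (DT.kv_gt (by simp only [Cn.rt_v, Cn.ng_v]; norm_num)).trans (kb_dt77 x)
theorem ka_dt78 (x : ℝ) : dt78.kv (7 / 100) x = (-231 / 1000000 + (x - 13 / 32) * (23 / 100000)) := by
  simp only [dt78, DT.kv, sw78, sl78, sl78_2, sv78, sv78_2]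
  ((try push_cast); ring1)
theorem kb_dt78 (x : ℝ) : dt78.kv (1303 / 12500) x = (-787289246160337 / 749839453125000000 + (x - 13 / 32) * (888028395551249 / 937299316406250000) + (x - 13 / 32) ^ 2 * (-7541681 / 126171875)) := by
  simp only [dt78, DT.kv, sw78, sl78, sl78_2, sv78, sv78_2]
  ((try push_cast); ring1)
theorem ka_dt79 (x : ℝ) : dt79.kv (1303 / 12500) x = (-787289246160337 / 749839453125000000 + (x - 13 / 32) * (888028395551249 / 937299316406250000) + (x - 13 / 32) ^ 2 * (-7541681 / 126171875)) := by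
  simp only [dt79, DT.kv, sw79, sl79, sl79_2, sv79, sv79_2]
  ((try push_cast); ring1)
theorem kb_dt79 (x : ℝ) : dt79.kv (59 / 566) x = (-6254176640579083 / 5956619375000000000 + (x - 13 / 32) * (23138543019624663 / 24422139437500000000) + (x - 13 / 32) ^ 2 * (-211449 / 3537500)) := by
  simp only [dt79, DT.kv, sw79, sl79, sl79_2, sv79, sv79_2]
  ((try push_cast); ring1)
theorem ka_dt83 (x : ℝ) : dt83.kv (7 / 100) x = (-231 / 1000000 + (x - 13 / 32) * (23 / 100000)) :=
  (DT.kv_le (by simp only [Cn.rt_v, Cn.ng_v]; norm_num)).trans (ka_dt78 x)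
theorem kb_dt83 (x : ℝ) : dt83.kv (59 / 566) x = (-6254176640579083 / 5956619375000000000 + (x - 13 / 32) * (23138543019624663 / 24422139437500000000) + (x - 13 / 32) ^ 2 * (-211449 / 3537500)) :=
  (DT.kv_gt (by simp only [Cn.rt_v, Cn.ng_v]; norm_num)).trans (kb_dt79 x)
theorem ka_dt84 (x : ℝ) : dt84.kv (-7 / 200) x = (0) :=
  (DT.kv_le (by simp only [Cn.rt_v, Cn.ng_v]; norm_num)).trans (ka_dt82 x)
theorem kb_dt84 (x : ℝ) : dt84.kv (59 / 566) x = (-6254176640579083 / 5956619375000000000 + (x - 13 / 32) * (23138543019624663 / 24422139437500000000) + (x - 13 / 32) ^ 2 * (-211449 / 3537500)) :=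
  (DT.kv_gt (by simp only [Cn.rt_v, Cn.ng_v]; norm_num)).trans (kb_dt83 x)
theorem ka_dt85 (x : ℝ) : dt85.kv (-59 / 566) x = (6254176640579083 / 5956619375000000000 + (x - 13 / 32) * (-23138543019624663 / 24422139437500000000) + (x - 13 / 32) ^ 2 * (211449 / 3537500)) :=
  (DT.kv_le (by simp only [Cn.rt_v, Cn.ng_v]; norm_num)).trans (ka_dt81 x)
theorem kb_dt85 (x : ℝ) : dt85.kv (59 / 566) x = (-6254176640579083 / 5956619375000000000 + (x - 13 / 32) * (23138543019624663 / 24422139437500000000) + (x - 13 / 32) ^ 2 * (-211449 / 3537500)) :=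
  (DT.kv_gt (by simp only [Cn.rt_v, Cn.ng_v]; norm_num)).trans (kb_dt84 x)
theorem ko_dt73 (x : ℝ) : dt73.KOk x := trivial
theorem ko_dt74 (x : ℝ) : dt74.KOk x := trivial
theorem ko_dt75 (x : ℝ) : dt75.KOk x := trivial
theorem ko_dt80 (x : ℝ) : dt80.KOk x :=
  DT.kOk_node (v := -7 / 100) (by simp only [Cn.rt_v, Cn.ng_v]; norm_num) (kb_dt74 x) (ka_dt75 x) (by ring1) (ko_dt74 x) (ko_dt75 x)
theorem ko_dt81 (x : ℝ) : dt81.KOk x :=
  DT.kOk_node (v := -1303 / 12500) (by simp only [Cn.rt_v, Cn.ng_v]; norm_num) (kb_dt73 x) (ka_dt80 x) (by ring1) (ko_dt73 x) (ko_dt80 x)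
theorem ko_dt76 (x : ℝ) : dt76.KOk x := trivial
theorem ko_dt77 (x : ℝ) : dt77.KOk x := trivial
theorem ko_dt82 (x : ℝ) : dt82.KOk x :=
  DT.kOk_node (v := 7 / 200) (by simp only [Cn.rt_v, Cn.ng_v]; norm_num) (kb_dt76 x) (ka_dt77 x) (by ring1) (ko_dt76 x) (ko_dt77 x)
theorem ko_dt78 (x : ℝ) : dt78.KOk x := trivial
theorem ko_dt79 (x : ℝ) : dt79.KOk x := trivial
theorem ko_dt83 (x : ℝ) : dt83.KOk x :=
  DT.kOk_node (v := 1303 / 12500) (by simp only [Cn.rt_v, Cn.ng_v]; norm_num) (kb_dt78 x) (ka_dt79 x) (by ring1) (ko_dt78 x) (ko_dt79 x)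
theorem ko_dt84 (x : ℝ) : dt84.KOk x :=
  DT.kOk_node (v := 7 / 100) (by simp only [Cn.rt_v, Cn.ng_v]; norm_num) (kb_dt82 x) (ka_dt83 x) (by ring1) (ko_dt82 x) (ko_dt83 x)
theorem ko_dt85 (x : ℝ) : dt85.KOk x :=
  DT.kOk_node (v := -7 / 200) (by simp only [Cn.rt_v, Cn.ng_v]; norm_num) (kb_dt81 x) (ka_dt84 x) (by ring1) (ko_dt81 x) (ko_dt84 x)
theorem phl0 {p x : ℝ} (h2 : p ≤ -1303 / 12500) : dt85.kv p x = (2917225168128401 / 171391875000000000 + (x - 13 / 32) * (-2393899954975643 / 351353343750000000) + (x - 13 / 32) ^ 2 * (-493381 / 4037500)) + (4113532529597027 / 11997431250000000 + (x - 13 / 32) * (-13919080391133719 / 98378936250000000) + (x - 13 / 32) ^ 2 * (-70483 / 40375)) * p + (454853 / 250000 + (x - 13 / 32) * (-16349 / 20000)) * p ^ 2 := by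
  refine (DT.kv_le (by simp only [Cn.rt_v, Cn.ng_v]; push_cast; linarith)).trans ?_
  refine (DT.kv_le (by simp only [Cn.rt_v, Cn.ng_v]; push_cast; linarith)).trans ?_
  simp only [dt73, DT.kv, sw73, sl73, sl73_2, sv73, sv73_2]
  ((try push_cast); ring1)
theorem phl1 {p x : ℝ} (h1 : -1303 / 12500 < p) (h2 : p ≤ -7 / 100) : dt85.kv p x = (1403531059922311 / 1146183164062500000 + (x - 13 / 32) * (-1637439078018431 / 3667786125000000000) + (x - 13 / 32) ^ 2 * (-493381 / 4037500)) + (12768504187328119 / 320931285937500000 + (x - 13 / 32) * (-2469742286995903 / 128372514375000000) + (x - 13 / 32) ^ 2 * (-70483 / 40375)) * p + (45701 / 125000 + (x - 13 / 32) * (-23067 / 100000)) * p ^ 2 := by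
  refine (DT.kv_le (by simp only [Cn.rt_v, Cn.ng_v]; push_cast; linarith)).trans ?_
  refine (DT.kv_gt (by simp only [Cn.rt_v, Cn.ng_v]; push_cast; linarith)).trans ?_
  refine (DT.kv_le (by simp only [Cn.rt_v, Cn.ng_v]; push_cast; linarith)).trans ?_
  simp only [dt74, DT.kv, sw74, sl74, sl74_2, sv74, sv74_2]
  ((try push_cast); ring1)
theorem phl2 {p x : ℝ} (h1 : -7 / 100 < p) (h2 : p ≤ -7 / 200) : dt85.kv p x = (1141483 / 5000000000 + (x - 13 / 32) * (-55543 / 250000000)) + (654207 / 50000000 + (x - 13 / 32) * (-224129 / 17500000)) * p + (46867 / 250000 + (x - 13 / 32) * (-2307 / 12500)) * p ^ 2 := by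
  refine (DT.kv_le (by simp only [Cn.rt_v, Cn.ng_v]; push_cast; linarith)).trans ?_
  refine (DT.kv_gt (by simp only [Cn.rt_v, Cn.ng_v]; push_cast; linarith)).trans ?_
  refine (DT.kv_gt (by simp only [Cn.rt_v, Cn.ng_v]; push_cast; linarith)).trans ?_
  simp only [dt75, DT.kv, sw75, sl75, sv75]
  ((try push_cast); ring1)
theorem phl3 {p x : ℝ} (h1 : -7 / 200 < p) (h2 : p ≤ 7 / 200) : dt85.kv p x = (0) + (0) * p := by
  refine (DT.kv_gt (by simp only [Cn.rt_v, Cn.ng_v]; push_cast; linarith)).trans ?_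
  refine (DT.kv_le (by simp only [Cn.rt_v, Cn.ng_v]; push_cast; linarith)).trans ?_
  refine (DT.kv_le (by simp only [Cn.rt_v, Cn.ng_v]; push_cast; linarith)).trans ?_
  simp only [dt76, DT.kv, sl76, sv76]
  ((try push_cast); ring1)
theorem phl4 {p x : ℝ} (h1 : 7 / 200 < p) (h2 : p ≤ 7 / 100) : dt85.kv p x = (-1141483 / 5000000000 + (x - 13 / 32) * (55543 / 250000000)) + (654207 / 50000000 + (x - 13 / 32) * (-224129 / 17500000)) * p + (-46867 / 250000 + (x - 13 / 32) * (2307 / 12500)) * p ^ 2 := by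
  refine (DT.kv_gt (by simp only [Cn.rt_v, Cn.ng_v]; push_cast; linarith)).trans ?_
  refine (DT.kv_le (by simp only [Cn.rt_v, Cn.ng_v]; push_cast; linarith)).trans ?_
  refine (DT.kv_gt (by simp only [Cn.rt_v, Cn.ng_v]; push_cast; linarith)).trans ?_
  simp only [dt77, DT.kv, sw77, sl77, sv77]
  ((try push_cast); ring1)
theorem phl5 {p x : ℝ} (h1 : 7 / 100 < p) (h2 : p ≤ 1303 / 12500) : dt85.kv p x = (-1403531059922311 / 1146183164062500000 + (x - 13 / 32) * (1637439078018431 / 3667786125000000000) + (x - 13 / 32) ^ 2 * (493381 / 4037500)) + (12768504187328119 / 320931285937500000 + (x - 13 / 32) * (-2469742286995903 / 128372514375000000) + (x - 13 / 32) ^ 2 * (-70483 / 40375)) * p + (-45701 / 125000 + (x - 13 / 32) * (23067 / 100000)) * p ^ 2 := by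
  refine (DT.kv_gt (by simp only [Cn.rt_v, Cn.ng_v]; push_cast; linarith)).trans ?_
  refine (DT.kv_gt (by simp only [Cn.rt_v, Cn.ng_v]; push_cast; linarith)).trans ?_
  refine (DT.kv_le (by simp only [Cn.rt_v, Cn.ng_v]; push_cast; linarith)).trans ?_
  simp only [dt78, DT.kv, sw78, sl78, sl78_2, sv78, sv78_2]
  ((try push_cast); ring1)
theorem phl6 {p x : ℝ} (h1 : 1303 / 12500 < p) (h2 : p ≤ 59 / 566) : dt85.kv p x = (-2917225168128401 / 171391875000000000 + (x - 13 / 32) * (2393899954975643 / 351353343750000000) + (x - 13 / 32) ^ 2 * (493381 / 4037500)) + (4113532529597027 / 11997431250000000 + (x - 13 / 32) * (-13919080391133719 / 98378936250000000) + (x - 13 / 32) ^ 2 * (-70483 / 40375)) * p + (-454853 / 250000 + (x - 13 / 32) * (16349 / 20000)) * p ^ 2 := by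
  refine (DT.kv_gt (by simp only [Cn.rt_v, Cn.ng_v]; push_cast; linarith)).trans ?_
  refine (DT.kv_gt (by simp only [Cn.rt_v, Cn.ng_v]; push_cast; linarith)).trans ?_
  refine (DT.kv_gt (by simp only [Cn.rt_v, Cn.ng_v]; push_cast; linarith)).trans ?_
  simp only [dt79, DT.kv, sw79, sl79, sl79_2, sv79, sv79_2]
  ((try push_cast); ring1)
theorem tvc6 {p x : ℝ} (h1 : -59 / 566 ≤ p) (h2 : p ≤ -7 / 100) : dt72.val (fun p x => kcg.v p x) p (cT p) x = (172178825411 / 2193816000000 + (x - 13 / 32) * (38236262723 / 2742270000000) + (x - 13 / 32) ^ 2 * (493381 / 4037500)) + (-15680754211 / 137113500000 + (x - 13 / 32) * (19069651819 / 342783750000) + (x - 13 / 32) ^ 2 * (70483 / 40375)) * p + (-35821 / 20000 + (x - 13 / 32) * (13117 / 25000)) * p ^ 2 := by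
  rcases eq_or_lt_of_le h1 with h | h1
  · subst h
    rw [ctB]
    refine (DT.val_le (by simp only [Cn.rt_v, Cn.ng_v]; push_cast; linarith)).trans ?_
    refine (DT.val_gt (by simp only [Cn.rt_v, Cn.ng_v]; push_cast; linarith)).trans ?_
    refine (DT.val_le (by simp only [Cn.rt_v, Cn.ng_v]; push_cast; linarith)).trans ?_
    refine (DT.val_gt (by simp only [Cn.rt_v, Cn.ng_v]; push_cast; linarith)).trans ?_
    exact (tb_dt43 x).trans (by ring1)
  ·
    refine (DT.val_le (by simp only [Cn.rt_v, Cn.ng_v]; push_cast; linarith)).trans ?_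
    refine (DT.val_gt (by simp only [Cn.rt_v, Cn.ng_v]; push_cast; linarith)).trans ?_
    refine (DT.val_gt (by simp only [Cn.rt_v, Cn.ng_v]; push_cast; linarith)).trans ?_
    refine (DT.val_le (by simp only [Cn.rt_v, Cn.ng_v]; push_cast; linarith)).trans ?_
    simp only [dt44, DT.val, sw44, sl44, sl44_2, sv44, sv44_2]
    ((try push_cast); ring1)
theorem tvc7 {p x : ℝ} (h1 : -7 / 100 ≤ p) (h2 : p ≤ -7 / 200) : dt72.val (fun p x => kcg.v p x) p (cT p) x = (197740517 / 2500000000 + (x - 13 / 32) * (2884633 / 200000000)) + (-17255949 / 175000000 + (x - 13 / 32) * (138557 / 2000000)) * p + (-211367 / 125000 + (x - 13 / 32) * (6217 / 10000)) * p ^ 2 := by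
  rcases eq_or_lt_of_le h1 with h | h1
  · subst h
    refine (DT.val_le (by simp only [Cn.rt_v, Cn.ng_v]; push_cast; linarith)).trans ?_
    refine (DT.val_gt (by simp only [Cn.rt_v, Cn.ng_v]; push_cast; linarith)).trans ?_
    refine (DT.val_gt (by simp only [Cn.rt_v, Cn.ng_v]; push_cast; linarith)).trans ?_
    refine (DT.val_le (by simp only [Cn.rt_v, Cn.ng_v]; push_cast; linarith)).trans ?_
    simp only [dt44, DT.val, sw44, sl44, sl44_2, sv44, sv44_2]
    ((try push_cast); ring1)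
  ·
    refine (DT.val_le (by simp only [Cn.rt_v, Cn.ng_v]; push_cast; linarith)).trans ?_
    refine (DT.val_gt (by simp only [Cn.rt_v, Cn.ng_v]; push_cast; linarith)).trans ?_
    refine (DT.val_gt (by simp only [Cn.rt_v, Cn.ng_v]; push_cast; linarith)).trans ?_
    refine (DT.val_gt (by simp only [Cn.rt_v, Cn.ng_v]; push_cast; linarith)).trans ?_
    refine (DT.val_le (by simp only [Cn.rt_v, Cn.ng_v]; push_cast; linarith)).trans ?_
    simp only [dt45, DT.val, sw45, sl45, sv45]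
    ((try push_cast); ring1)
theorem tvc8 {p x : ℝ} (h1 : -7 / 200 ≤ p) (h2 : p ≤ 7 / 200) : dt72.val (fun p x => kcg.v p x) p (cT p) x = (322888161 / 4000000000 + (x - 13 / 32) * (13994299 / 1000000000)) + (-397 / 70000 + (x - 13 / 32) * (313 / 7000)) * p + (-36289 / 100000 + (x - 13 / 32) * (6749 / 25000)) * p ^ 2 := by
  rcases eq_or_lt_of_le h1 with h | h1
  · subst h
    refine (DT.val_le (by simp only [Cn.rt_v, Cn.ng_v]; push_cast; linarith)).trans ?_
    refine (DT.val_gt (by simp only [Cn.rt_v, Cn.ng_v]; push_cast; linarith)).trans ?_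
    refine (DT.val_gt (by simp only [Cn.rt_v, Cn.ng_v]; push_cast; linarith)).trans ?_
    refine (DT.val_gt (by simp only [Cn.rt_v, Cn.ng_v]; push_cast; linarith)).trans ?_
    refine (DT.val_le (by simp only [Cn.rt_v, Cn.ng_v]; push_cast; linarith)).trans ?_
    simp only [dt45, DT.val, sw45, sl45, sv45]
    ((try push_cast); ring1)
  ·
    refine (DT.val_le (by simp only [Cn.rt_v, Cn.ng_v]; push_cast; linarith)).trans ?_
    refine (DT.val_gt (by simp only [Cn.rt_v, Cn.ng_v]; push_cast; linarith)).trans ?_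
    refine (DT.val_gt (by simp only [Cn.rt_v, Cn.ng_v]; push_cast; linarith)).trans ?_
    refine (DT.val_gt (by simp only [Cn.rt_v, Cn.ng_v]; push_cast; linarith)).trans ?_
    refine (DT.val_gt (by simp only [Cn.rt_v, Cn.ng_v]; push_cast; linarith)).trans ?_
    simp only [dt46, DT.val, sw46, sl46, sv46]
    ((try push_cast); ring1)
theorem tvc9 {p x : ℝ} (h1 : 7 / 200 ≤ p) (h2 : p ≤ 7 / 100) : dt72.val (fun p x => kcg.v p x) p (cT p) x = (396622517 / 5000000000 + (x - 13 / 32) * (14200993 / 1000000000)) + (25962449 / 350000000 + (x - 13 / 32) * (2307021 / 70000000)) * p + (-375867 / 250000 + (x - 13 / 32) * (21857 / 50000)) * p ^ 2 := by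
  rcases eq_or_lt_of_le h1 with h | h1
  · subst h
    refine (DT.val_le (by simp only [Cn.rt_v, Cn.ng_v]; push_cast; linarith)).trans ?_
    refine (DT.val_gt (by simp only [Cn.rt_v, Cn.ng_v]; push_cast; linarith)).trans ?_
    refine (DT.val_gt (by simp only [Cn.rt_v, Cn.ng_v]; push_cast; linarith)).trans ?_
    refine (DT.val_gt (by simp only [Cn.rt_v, Cn.ng_v]; push_cast; linarith)).trans ?_
    refine (DT.val_gt (by simp only [Cn.rt_v, Cn.ng_v]; push_cast; linarith)).trans ?_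
    simp only [dt46, DT.val, sw46, sl46, sv46]
    ((try push_cast); ring1)
  ·
    refine (DT.val_gt (by simp only [Cn.rt_v, Cn.ng_v]; push_cast; linarith)).trans ?_
    refine (DT.val_le (by simp only [Cn.rt_v, Cn.ng_v]; push_cast; linarith)).trans ?_
    refine (DT.val_le (by simp only [Cn.rt_v, Cn.ng_v]; push_cast; linarith)).trans ?_
    refine (DT.val_le (by simp only [Cn.rt_v, Cn.ng_v]; push_cast; linarith)).trans ?_
    simp only [dt47, DT.val, sw47, sl47, sv47]
    ((try push_cast); ring1)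
theorem tvc10 {p x : ℝ} (h1 : 7 / 100 ≤ p) (h2 : p ≤ 1303 / 12500) : dt72.val (fun p x => kcg.v p x) p (cT p) x = (5330488484463 / 66875000000000 + (x - 13 / 32) * (180520380247 / 13375000000000)) + (1321505763 / 20898437500 + (x - 13 / 32) * (3546763527 / 66875000000)) * p + (-712721 / 500000 + (x - 13 / 32) * (29401 / 100000)) * p ^ 2 := by
  rcases eq_or_lt_of_le h1 with h | h1
  · subst h
    refine (DT.val_gt (by simp only [Cn.rt_v, Cn.ng_v]; push_cast; linarith)).trans ?_
    refine (DT.val_le (by simp only [Cn.rt_v, Cn.ng_v]; push_cast; linarith)).trans ?_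
    refine (DT.val_le (by simp only [Cn.rt_v, Cn.ng_v]; push_cast; linarith)).trans ?_
    refine (DT.val_le (by simp only [Cn.rt_v, Cn.ng_v]; push_cast; linarith)).trans ?_
    simp only [dt47, DT.val, sw47, sl47, sv47]
    ((try push_cast); ring1)
  ·
    refine (DT.val_gt (by simp only [Cn.rt_v, Cn.ng_v]; push_cast; linarith)).trans ?_
    refine (DT.val_le (by simp only [Cn.rt_v, Cn.ng_v]; push_cast; linarith)).trans ?_
    refine (DT.val_le (by simp only [Cn.rt_v, Cn.ng_v]; push_cast; linarith)).trans ?_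
    refine (DT.val_gt (by simp only [Cn.rt_v, Cn.ng_v]; push_cast; linarith)).trans ?_
    simp only [dt48, DT.val, sw48, sl48, sv48]
    ((try push_cast); ring1)
theorem tvc11 {p x : ℝ} (h1 : 1303 / 12500 ≤ p) (h2 : p ≤ 4 / 25) : dt72.val (fun p x => kcg.v p x) p (cT p) x = (126841918537 / 1328125000000 + (x - 13 / 32) * (38824642093 / 5445312500000)) + (-25483777331 / 106250000000 + (x - 13 / 32) * (152713745907 / 871250000000)) * p + (14181 / 500000 + (x - 13 / 32) * (-29277 / 100000)) * p ^ 2 := by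
  rcases eq_or_lt_of_le h1 with h | h1
  · subst h
    refine (DT.val_gt (by simp only [Cn.rt_v, Cn.ng_v]; push_cast; linarith)).trans ?_
    refine (DT.val_le (by simp only [Cn.rt_v, Cn.ng_v]; push_cast; linarith)).trans ?_
    refine (DT.val_le (by simp only [Cn.rt_v, Cn.ng_v]; push_cast; linarith)).trans ?_
    refine (DT.val_gt (by simp only [Cn.rt_v, Cn.ng_v]; push_cast; linarith)).trans ?_
    simp only [dt48, DT.val, sw48, sl48, sv48]
    ((try push_cast); ring1)
  ·
    refine (DT.val_gt (by simp only [Cn.rt_v, Cn.ng_v]; push_cast; linarith)).trans ?_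
    refine (DT.val_le (by simp only [Cn.rt_v, Cn.ng_v]; push_cast; linarith)).trans ?_
    refine (DT.val_gt (by simp only [Cn.rt_v, Cn.ng_v]; push_cast; linarith)).trans ?_
    refine (DT.val_le (by simp only [Cn.rt_v, Cn.ng_v]; push_cast; linarith)).trans ?_
    simp only [dt49, DT.val, sw49, sl49, sv49]
    ((try push_cast); ring1)
theorem ph_ (x : ℝ) : ∀ u, |u| ≤ vv.k2.v → dd.tF x (-u) - dd.tF x u = m0c.v x * u + dt85.kv u x := by
  intro u h
  have h : |u| ≤ 59 / 566 := by
    refine h.trans_eq ?_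
    show (Cn.rt 59 566).v = _
    rw [Cn.rt_v]
    norm_num
  obtain ⟨h1, h2⟩ := abs_le.1 h
  show dt72.val (fun p x => kcg.v p x) (-u) (cT (-u)) x - dt72.val (fun p x => kcg.v p x) u (cT u) x = _
  rcases le_or_gt u (-1303 / 12500) with g0 | g1000
  ·
    rw [tvc11 (p := -u) (by linarith) (by linarith), tvc6 (p := u) (by linarith) (by linarith), phl0 g0]
    simp only [m0c]
    push_cast
    ring
  rcases le_or_gt u (-7 / 100) with g1 | g1001
  ·
    rw [tvc10 (p := -u) (by linarith) (by linarith), tvc6 (p := u) (by linarith) (by linarith), phl1 g1000 g1]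
    simp only [m0c]
    push_cast
    ring
  rcases le_or_gt u (-7 / 200) with g2 | g1002
  ·
    rw [tvc9 (p := -u) (by linarith) (by linarith), tvc7 (p := u) (by linarith) (by linarith), phl2 g1001 g2]
    simp only [m0c]
    push_cast
    ring
  rcases le_or_gt u (7 / 200) with g3 | g1003
  ·
    rw [tvc8 (p := -u) (by linarith) (by linarith), tvc8 (p := u) (by linarith) (by linarith), phl3 g1002 g3]
    simp only [m0c]
    push_cast
    ring
  rcases le_or_gt u (7 / 100) with g4 | g1004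
  ·
    rw [tvc7 (p := -u) (by linarith) (by linarith), tvc9 (p := u) (by linarith) (by linarith), phl4 g1003 g4]
    simp only [m0c]
    push_cast
    ring
  rcases le_or_gt u (1303 / 12500) with g5 | g1005
  ·
    rw [tvc6 (p := -u) (by linarith) (by linarith), tvc10 (p := u) (by linarith) (by linarith), phl5 g1004 g5]
    simp only [m0c]
    push_cast
    ring
  ·
    rw [tvc6 (p := -u) (by linarith) (by linarith), tvc11 (p := u) (by linarith) (by linarith), phl6 g1005 (by linarith)]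
    simp only [m0c]
    push_cast
    ring
theorem kqf_ {y : ℝ} (x : ℝ) (h : OnC (0 : Fin 5) 2 y) : kqf.v y x * c1g.v y = (y - 1) * kcg.v (c1g.v y) x := by
  have h0 : 0 ≤ c1g.v y := by rw [c1g_v]; exact c1n_nn y
  simp only [kqf]
  (try push_cast)
  split_ifs with hh
  · rw [kcl9 (p := c1g.v y) (by linarith) (by linarith)]
    ring
  · have hc : c1g.v y ≠ 0 := by
      intro e
      rw [e] at hh
      exact hh (by norm_num)
    have hi := inv_mul_cancel₀ hc
    linear_combination ((y - 1) * kcg.v (c1g.v y) x) * hi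
theorem sM_ (x : ℝ) : ∀ y, OnC (0 : Fin 5) 2 y → c1n y < crv PP 1 2 y →
    (1 + skm.v y x) * (crv PP 1 2 y - c1n y) = tKF 1 2 y x - tKF 0 2 y x := by
  intro y h hlt
  rw [yK12 h.1, yK02 h]
  rw [ecv1q2, ← c1g_v] at hlt ⊢
  have hd : 0 < cv1p.v y - c1g.v y := sub_pos.2 hlt
  have hi := inv_mul_cancel₀ hd.ne'
  have hb : |c1g.v y| ≤ 1 / 2 := by rw [c1g_v]; exact bnd_O h
  have eo := odd (x := x) hb
  have hk := kqf_ x h
  simp only [skm, kf1q2, kf0q2, eo]
  (try push_cast)
  linear_combination (cv1p.v y * ((bf1q2.v y x - 1) + kqf.v y x)) * hi + hk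
theorem ok (x : ℝ) : tt.Ok PP tKF tL x where
  i0 := rfl
  il := rfl
  rl := by
    show 1 < PP.ρ 3
    have e : PP.ρ 3 = 3 / 2 := rfl
    rw [e]
    norm_num
  ok := dok x
  kh := rfl
  odd := fun p h => odd h
  K0 := K0_ x
  L0 := L0_ x
  Kn := Kn_ x
  Ln := Ln_ x
  f0 := f0_
  fn := fn_
  sK0 := sK0_ x
  sX0 := sX0_ x
  sKn := sKn_ x
  sXn := sXn_ x
  k1 := by
    show 0 ≤ (Cn.rt 7 200).v ∧ (Cn.rt 7 200).v ≤ 1 / 2
    rw [Cn.rt_v]
    constructor <;> norm_num
  kn := kn_ x
  tn := tn_ x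
  vK := vK_ x
  vX := vX_ x
  rK := rK_ x
  rX := rX_ x
  yb := by
    show 0 ≤ (Cn.rt 231 200).v ∧ 1 ≤ 3 / 4 * (Cn.rt 231 200).v ^ 2
    rw [Cn.rt_v]
    constructor <;> norm_num
  flat := flat_ x
  abk := abk_ x
  phk := ko_dt85 x
  ph := ph_ x
  sM := sM_ x
  yz := by
    show (Cn.rt 577 500).v ≤ (Cn.rt 577 500).v ∧ 0 ≤ (Cn.rt 577 500).v ∧ 1 ≤ 3 / 4 * (Cn.rt 577 500).v ^ 2 + (Cn.rt 7 200).v ^ 2
    simp only [Cn.rt_v]
    refine ⟨?_, ?_, ?_⟩ <;> norm_num
theorem okx {x : ℝ} (hx : ((402653184 : ℕ) : ℝ) / S ≤ x) (hx' : x ≤ (((402653184 : ℕ) : ℝ) + (67108864 : ℕ)) / S) : tt.Ok PP tKF tL x := ok x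

end Pool.Agent.Strip051.G.I3_8_7_16.Tab.St
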